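import Pool.Agent.P.MP_d34769_ag.DefsT
import Pool.Agent.P.MP_65ad7c_ag.QDefs

/-! Mixed Hodge numbers of a normal crossing compactification, and the Harrison complex of the
tautological rings. -/

open MvPolynomial

noncomputable section
namespace Pool.Agent.P.MP_d34769_ag

section words
variable {X M : Type} [AddCommGroup M]

/-- The signed sum of `φ` over the shuffles of two words (letters have odd degree). -/
def shuf : List X → List X → (List X → M) → M
  | [], v, φ => φ v
  | a :: u, v, φ => ∑ j ∈ Finset.range (v.length + 1),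
      (-1 : ℤ) ^ (j * (u.length + 1)) • shuf u (v.drop j) fun w => φ (v.take j ++ a :: w)

/-- The coboundary `∑ (-1)^j φ (b_0, ..., b_j ∪ b_{j+1}, ...)`. -/
def cob [Union X] : List X → (List X → M) → M
  | a :: b :: l, φ => φ ((a ∪ b) :: l) - cob (b :: l) fun w => φ (a :: w)
  | _, _ => 0

end words

section harrison
variable {I : Type} [Fintype I] [DecidableEq I] (col : I → Fin 3) (θ : (Fin 3 → ℕ) → ℝ)

/-- The dimension vector of a set of indices. -/
def dvec (F : Finset I) (v : Fin 3) : ℕ := (F.filter fun i => col i = v).card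

/-- The Euler class of the arrows from `F` to `b \ F` (two arrows `0 → 1`, one arrow `2 → 1`). -/
def eul (b F : Finset I) : MvPolynomial I ℂ :=
  ∏ k ∈ F, ∏ l ∈ b \ F, (X l - X k) ^ if col l = 1 then ![2, 0, 1] (col k) else 0

/-- The product of `x_l - x_k` over the pairs `k ≠ l` in `b` of one colour with `o k < o l`. -/
def dis (o : I → ℕ) (b : Finset I) : MvPolynomial I ℂ :=
  ∏ k ∈ b, ∏ l ∈ b with col k = col l ∧ o k < o l, (X l - X k)

/-- `f` is a tautological relation for the blocks of `l`. -/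
def Rel (o : I → ℕ) (l : List (Finset I)) (f : MvPolynomial I ℂ) : Prop :=
  (l.map (dis col o)).prod * f ∈
    Ideal.span {e | ∃ b ∈ l, ∃ F ⊆ b, 0 < θ (dvec col F) ∧ e = eul col b F}

/-- `l` is an ordered partition of the indices into nonempty blocks of weight zero. -/
def Cmp (l : List (Finset I)) : Prop :=
  (∀ b ∈ l, b.Nonempty ∧ θ (dvec col b) = 0) ∧ (l.map Finset.val).sum = Finset.univ.val

/-- Harrison cochains of degree `p`: equivariant, and zero on shuffles. -/
def Har (o : I → ℕ) (p : ℕ) (φ : List (Finset I) → MvPolynomial I ℂ) : Prop :=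
  (∀ l, (φ l).IsHomogeneous p) ∧
  (∀ w : Equiv.Perm I, (∀ i, col (w i) = col i) →
    ∀ l : List (Finset I), φ (l.map fun b => b.image w) = rename w (φ l)) ∧
  ∀ u v, u ≠ [] → v ≠ [] → Cmp col θ (u ++ v) → Rel col θ o (u ++ v) (shuf u v φ)

/-- The dimension of the Harrison cohomology in length `ℓ` and degree `p`. -/
def har (o : I → ℕ) (ℓ p : ℕ) : ℕ :=
  let Z := Submodule.span ℂ {φ | Har col θ o p φ ∧
    ∀ l, Cmp col θ l → l.length = ℓ + 1 → Rel col θ o l (cob l φ)}
  let B := Submodule.span ℂ {φ | ∃ ψ, Har col θ o p ψ ∧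
    ∀ l, Cmp col θ l → l.length = ℓ → Rel col θ o l (φ l - cob l ψ)}
  Module.finrank ℂ (Z.map B.mkQ)

end harrison

open Pool.Agent.PQ

/-- `F^a ∩ W_{j-c}` in `H^j_c(Z - D)`, as a space of closed forms. -/
def FW {N : ℕ} {ι : Type} (Z : Set (Amb N)) (D : ι → Set (Amb N)) (j c a : ℕ) :
    Submodule ℂ (Form N j) :=
  Submodule.span ℂ {α | Ac Z (Z \ ⋃ i, D i) α ∧ Nul Z (dd α) ∧ Col Z D c α ∧ Fil Z D a α}

/-- The mixed Hodge number `dim Gr_F^a Gr^W_{j-c} H^j_c(Z - D)`. -/
def hod {N : ℕ} {ι : Type} (Z : Set (Amb N)) (D : ι → Set (Amb N)) (j c a : ℕ) : Cardinal :=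
  Module.rank ℂ ((FW Z D j c a).map (FW Z D j c (a + 1) ⊔ FW Z D j (c + 1) a).mkQ)

/-- The entries of a representation. -/
def ent {n d k : ℕ} (r : Rep ℂ n d k) : Fin (n + d) × (Fin d ⊕ Fin d ⊕ Fin k) → ℂ :=
  fun p => Sum.elim (r.x p.1) (Sum.elim (r.y p.1) (r.z p.1)) p.2

/-- The map `q` from the moduli space to projective space is a morphism of varieties: near every
point it is given by polynomials in the matrices that present the system. -/
def Reg {α : ℝ} {n d k N : ℕ} (q : GMod α n d k → Amb N) : Prop :=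
  ∀ (S : {S : CohSys ℂ n d k // Stable α S}) r, Presents S.1 r → ∃ v : Fin N → MvPolynomial (Fin (n + d) × (Fin d ⊕ Fin d ⊕ Fin k)) ℂ,
    (fun i => eval (ent r) (v i)) ≠ 0 ∧ ∀ (S' : {S : CohSys ℂ n d k // Stable α S}) r', Presents S'.1 r' →
      (fun i => eval (ent r') (v i)) ≠ 0 → q (Quot.mk _ S') = proj fun i => eval (ent r') (v i)

end Pool.Agent.P.MP_d34769_ag
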