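import Pool.Agent.P.MP_d34769_ag.Defs

/-! Representations of the quiver with two arrows `x, y : W₁ → W₀` and one arrow `z : V → W₀`. -/

namespace Pool.Agent.P.MP_d34769_ag

open LaurentPolynomial Matrix Module

variable {K : Type} [Field K]

/-- A representation of dimension vector `(d, n + d, k)`. -/
structure Rep (K : Type) [Field K] (n d k : ℕ) where
  x : Matrix (Fin (n + d)) (Fin d) K
  y : Matrix (Fin (n + d)) (Fin d) K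
  z : Matrix (Fin (n + d)) (Fin k) K

/-- King stability: every nonzero proper subrepresentation, of dimension vector `(u₁, u₀, v)`,
has `n (u₁ + α v) < (d + α k) (u₀ - u₁)`. -/
def QStable (α : ℝ) {n d k : ℕ} (ρ : Rep K n d k) : Prop :=
  ∀ (U₁ : Submodule K (Fin d → K)) (U₀ : Submodule K (Fin (n + d) → K))
    (W : Submodule K (Fin k → K)),
    (∀ u ∈ U₁, ρ.x *ᵥ u ∈ U₀ ∧ ρ.y *ᵥ u ∈ U₀) → (∀ w ∈ W, ρ.z *ᵥ w ∈ U₀) →
    ¬ (U₁ = ⊥ ∧ U₀ = ⊥ ∧ W = ⊥) → ¬ (U₁ = ⊤ ∧ U₀ = ⊤ ∧ W = ⊤) →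
    (n : ℝ) * (finrank K U₁ + α * finrank K W) <
      ((d : ℝ) + α * k) * ((finrank K U₀ : ℝ) - finrank K U₁)

/-- The two representations lie in one orbit of `GL_d × GL_{n+d} × GL_k`. -/
def QIso {n d k : ℕ} (ρ ρ' : Rep K n d k) : Prop :=
  ∃ (P₁ : Matrix (Fin d) (Fin d) K) (P₀ : Matrix (Fin (n + d)) (Fin (n + d)) K)
    (Q : Matrix (Fin k) (Fin k) K), IsUnit P₁ ∧ IsUnit P₀ ∧ IsUnit Q ∧
    P₀ * ρ.x = ρ'.x * P₁ ∧ P₀ * ρ.y = ρ'.y * P₁ ∧ P₀ * ρ.z = ρ'.z * Q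

/-- `ρ` is the representation `H⁰(E(-1)) ⇉ H⁰(E) ← V` of `S = (E, V)` in suitable bases: `φ`
identifies `K^(n+d)` with `H⁰(E)`, `x` and `y` are multiplication by `1` and by `t`. -/
def Presents {n d k : ℕ} (S : CohSys K n d k) (ρ : Rep K n d k) : Prop :=
  ∃ φ : (Fin (n + d) → K) →ₗ[K] (Fin n → LaurentPolynomial K),
    Function.Injective φ ∧ (∀ p, Sec S.E 0 p ↔ ∃ u, φ u = p) ∧
    Function.Injective ρ.x.mulVec ∧ (∀ p, Sec S.E (-1) p ↔ ∃ u, φ (ρ.x *ᵥ u) = p) ∧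
    (∀ u, φ (ρ.y *ᵥ u) = (T 1 : LaurentPolynomial K) • φ (ρ.x *ᵥ u)) ∧
    ∀ p, p ∈ S.V ↔ ∃ w, φ (ρ.z *ᵥ w) = p

end Pool.Agent.P.MP_d34769_ag
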