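import Pool.Agent.P.MP_d34769_ag.Defs

/-! The explicit counting function. Vectors `e = (e 0, e 1, e 2)` stand for the dimensions of
`H⁰(E(-1))`, `H⁰(E)` and `V`. -/

namespace Pool.Agent.P.MP_d34769_ag

open Classical

/-- Every endomorphism of the coherent system is a constant scalar. -/
def Simple {K : Type} [Field K] {n k : ℕ} {d : ℤ} (S : CohSys K n d k) : Prop :=
  ∀ A, IsMor S S A → ∃ c : K, A = Matrix.scalar (Fin n) (LaurentPolynomial.C c)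

/-- The weight `n (e 0 + α e 2) - (d + α k) (e 1 - e 0)`. -/
def wgt (n d k : ℕ) (α : ℝ) (e : Fin 3 → ℕ) : ℝ :=
  n * (e 0 + α * e 2) - (d + α * k) * (e 1 - e 0)

/-- `|e|`. -/
def sz (e : Fin 3 → ℕ) : ℕ := e 0 + e 1 + e 2

/-- One step of the recursion for `pser`. -/
noncomputable def pstep (θ : (Fin 3 → ℕ) → ℝ) (q : ℚ) (p : (Fin 3 → ℕ) → ℚ) (e : Fin 3 → ℕ) : ℚ :=
  if e = 0 then 1 else
    - ∑ f ∈ (Finset.Iic e).filter (fun f => f ≠ e ∧ 0 ≤ θ f),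
      p f * q ^ ((2 * (e 0 - f 0) + (e 2 - f 2)) * e 1) /
        ∏ i, ∏ j ∈ Finset.Ico (f i) (e i), (q ^ e i - q ^ j)

/-- The solution of `p = pstep θ q p`. -/
noncomputable def pser (θ : (Fin 3 → ℕ) → ℝ) (q : ℚ) (e : Fin 3 → ℕ) : ℚ :=
  (pstep θ q)^[sz e + 1] 0 e

/-- One step of the recursion for `gser`. -/
noncomputable def gstep (θ : (Fin 3 → ℕ) → ℝ) (q : ℚ) (g : (Fin 3 → ℕ) → ℚ) (e : Fin 3 → ℕ) : ℚ :=
  sz e * pser θ q e -
    ∑ f ∈ (Finset.Iic e).filter (fun f => f ≠ e ∧ θ f = 0), g f * pser θ q (e - f)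

/-- The solution of `g = gstep θ q g`. -/
noncomputable def gser (θ : (Fin 3 → ℕ) → ℝ) (q : ℚ) (e : Fin 3 → ℕ) : ℚ :=
  (gstep θ q)^[sz e + 1] 0 e

/-- The counting function. -/
noncomputable def cnt (θ : (Fin 3 → ℕ) → ℝ) (e : Fin 3 → ℕ) (q : ℚ) : ℚ :=
  (1 - q) / sz e * ∑ r ∈ (Finset.univ.gcd e).divisors,
    ArithmeticFunction.moebius r * gser θ (q ^ r) fun i => e i / r

end Pool.Agent.P.MP_d34769_ag
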