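import Pool.Agent.P.MP_d34769_ag.DefsQ
import Pool.Agent.P.MP_d34769_ag.DefsC

/-! The moduli space of stable coherent systems on the complex projective line as a topological
space. -/

namespace Pool.Agent.P.MP_d34769_ag

/-- The set of isomorphism classes of `α`-stable coherent systems of type `(n, d, k)` over `ℂ`. -/
def GMod (α : ℝ) (n d k : ℕ) : Type :=
  Quot fun S S' : {S : CohSys ℂ n d k // Stable α S} => Iso S.1 S'.1

/-- The quotient topology from the space of stable systems `(E, V)` with chosen bases of
`H⁰(E(-1))`, `H⁰(E)` and `V`, where two such are close if the matrices `x, y, z` are close. -/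
@[reducible] noncomputable def modTop (α : ℝ) (n d k : ℕ) : TopologicalSpace (GMod α n d k) :=
  TopologicalSpace.coinduced
    (fun u : {u : {S : CohSys ℂ n d k // Stable α S} × Rep ℂ n d k // Presents u.1.1 u.2} =>
      (Quot.mk _ u.1.1 : GMod α n d k))
    (TopologicalSpace.induced (fun u => (u.1.2.x, u.1.2.y, u.1.2.z)) inferInstance)

end Pool.Agent.P.MP_d34769_ag
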