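import Mathlib

/-! Differential modules over `ℚ`, pairs of submodules and their homology, elementwise. -/

open Set

namespace Pool.Agent.Bet

noncomputable section

/-- A rational vector space with a differential. -/
class Dif (C : Type) [AddCommGroup C] [Module ℚ C] where
  D : C →ₗ[ℚ] C
  DD : ∀ c, D (D c) = 0

/-- A graded differential module, the grading given by the projections `pr k`. -/
class DG (C : Type) [AddCommGroup C] [Module ℚ C] extends Dif C where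
  pr : ℕ → C →ₗ[ℚ] C
  pr_pr : ∀ k l c, pr k (pr l c) = if k = l then pr l c else 0
  pr_D : ∀ k c, pr k (D c) = D (pr (k + 1) c)
  D_pr : ∀ c, D (pr 0 c) = 0
  fin : ∀ c, ∃ N, ∀ M, N ≤ M → ∑ k ∈ Finset.range M, pr k c = c

export Dif (D DD)
export DG (pr pr_pr pr_D D_pr)

attribute [simp] DD

section ungraded

variable {C C' C'' : Type} [AddCommGroup C] [Module ℚ C] [AddCommGroup C'] [Module ℚ C']
  [AddCommGroup C''] [Module ℚ C''] [Dif C] [Dif C'] [Dif C'']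

instance piDif (r : ℕ) : Dif (Fin r → C) where
  D := LinearMap.pi fun i => D ∘ₗ LinearMap.proj i
  DD c := funext fun i => DD (c i)

@[simp] lemma pi_D {r : ℕ} (c : Fin r → C) (i : Fin r) : (D c : Fin r → C) i = D (c i) := rfl

/-- `A` is a subcomplex. -/
def Stb (A : Submodule ℚ C) : Prop := ∀ c ∈ A, D c ∈ A

/-- `(A, B)` is a pair of subcomplexes. -/
structure Pr (A B : Submodule ℚ C) : Prop where
  le : B ≤ A
  sA : Stb A
  sB : Stb B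

/-- Relative cycles. -/
def ZZ (A B : Submodule ℚ C) : Submodule ℚ C := A ⊓ B.comap D

/-- Relative boundaries. -/
def BB (A B : Submodule ℚ C) : Submodule ℚ C := A.map D ⊔ B

lemma mem_ZZ {A B : Submodule ℚ C} {c : C} : c ∈ ZZ A B ↔ c ∈ A ∧ D c ∈ B := Iff.rfl

lemma mem_BB {A B : Submodule ℚ C} {c : C} : c ∈ BB A B ↔ ∃ a ∈ A, c - D a ∈ B := by
  rw [BB, Submodule.mem_sup]
  constructor
  · rintro ⟨_, ⟨a, ha, rfl⟩, b, hb, rfl⟩
    exact ⟨a, ha, by simpa using hb⟩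
  · rintro ⟨a, ha, h⟩
    exact ⟨_, ⟨a, ha, rfl⟩, _, h, by abel⟩

lemma D_mem_BB {A B : Submodule ℚ C} {a : C} (h : a ∈ A) : D a ∈ BB A B :=
  mem_BB.2 ⟨a, h, by simp⟩

lemma mem_BB_of_mem {A B : Submodule ℚ C} {b : C} (h : b ∈ B) : b ∈ BB A B :=
  mem_BB.2 ⟨0, A.zero_mem, by simpa using h⟩

lemma ZZ_mono {A B A' B' : Submodule ℚ C} (h : A ≤ A') (h' : B ≤ B') : ZZ A B ≤ ZZ A' B' :=
  fun _ hc => ⟨h hc.1, h' hc.2⟩

lemma BB_mono {A B A' B' : Submodule ℚ C} (h : A ≤ A') (h' : B ≤ B') : BB A B ≤ BB A' B' :=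
  sup_le_sup (Submodule.map_mono h) h'

lemma Pr.BB_le {A B : Submodule ℚ C} (h : Pr A B) : BB A B ≤ ZZ A B := fun c hc => by
  obtain ⟨a, ha, hb⟩ := mem_BB.1 hc
  refine mem_ZZ.2 ⟨?_, ?_⟩
  · simpa using A.add_mem (h.le hb) (h.sA a ha)
  · simpa using h.sB _ hb

lemma stb_bot : Stb (⊥ : Submodule ℚ C) := fun c hc => by
  rw [Submodule.mem_bot] at hc ⊢; simp [hc]

lemma stb_top : Stb (⊤ : Submodule ℚ C) := fun _ _ => trivial

lemma Stb.sup {A B : Submodule ℚ C} (hA : Stb A) (hB : Stb B) : Stb (A ⊔ B) := fun c hc => by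
  obtain ⟨a, ha, b, hb, rfl⟩ := Submodule.mem_sup.1 hc
  rw [map_add]
  exact Submodule.add_mem_sup (hA a ha) (hB b hb)

lemma Stb.inf {A B : Submodule ℚ C} (hA : Stb A) (hB : Stb B) : Stb (A ⊓ B) :=
  fun c hc => ⟨hA c hc.1, hB c hc.2⟩

lemma Stb.pr_bot {A : Submodule ℚ C} (hA : Stb A) : Pr A ⊥ := ⟨bot_le, hA, stb_bot⟩

/-- The pair has no homology. -/
def Acyc (A B : Submodule ℚ C) : Prop := ZZ A B ≤ BB A B

/-- `f` induces a map on homology. -/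
def HMap (f : C →ₗ[ℚ] C') (A B : Submodule ℚ C) (A' B' : Submodule ℚ C') : Prop :=
  (∀ z ∈ ZZ A B, f z ∈ ZZ A' B') ∧ ∀ z ∈ BB A B, f z ∈ BB A' B'

/-- `f` is injective on homology. -/
def Inj (f : C →ₗ[ℚ] C') (A B : Submodule ℚ C) (A' B' : Submodule ℚ C') : Prop :=
  ∀ z ∈ ZZ A B, f z ∈ BB A' B' → z ∈ BB A B

/-- `f` is surjective on homology. -/
def Srj (f : C →ₗ[ℚ] C') (A B : Submodule ℚ C) (A' B' : Submodule ℚ C') : Prop :=
  ∀ y ∈ ZZ A' B', ∃ z ∈ ZZ A B, f z - y ∈ BB A' B'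

/-- `f` induces an isomorphism on homology. -/
structure HIso (f : C →ₗ[ℚ] C') (A B : Submodule ℚ C) (A' B' : Submodule ℚ C') : Prop where
  map : HMap f A B A' B'
  inj : Inj f A B A' B'
  srj : Srj f A B A' B'

/-- `f` is a chain map from `A` to `A'`. -/
def CMap (f : C →ₗ[ℚ] C') (A : Submodule ℚ C) (A' : Submodule ℚ C') : Prop :=
  ∀ c ∈ A, f c ∈ A' ∧ f (D c) = D (f c)

lemma CMap.hmap {f : C →ₗ[ℚ] C'} {A B : Submodule ℚ C} {A' B' : Submodule ℚ C'}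
    (h : CMap f A A') (hB : ∀ c ∈ B, f c ∈ B') : HMap f A B A' B' := by
  refine ⟨fun z hz => mem_ZZ.2 ⟨(h z hz.1).1, ?_⟩, fun z hz => ?_⟩
  · rw [← (h z hz.1).2]; exact hB _ hz.2
  · obtain ⟨a, ha, hb⟩ := mem_BB.1 hz
    exact mem_BB.2 ⟨f a, (h a ha).1, by rw [← (h a ha).2, ← map_sub]; exact hB _ hb⟩

lemma CMap.mono {f : C →ₗ[ℚ] C'} {A B : Submodule ℚ C} {A' B' : Submodule ℚ C'}
    (h : CMap f A A') (hB : B ≤ A) (hf : ∀ c ∈ B, f c ∈ B') : CMap f B B' :=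
  fun c hc => ⟨hf c hc, (h c (hB hc)).2⟩

lemma cmap_id {A A' : Submodule ℚ C} (h : A ≤ A') : CMap LinearMap.id A A' :=
  fun _ hc => ⟨h hc, rfl⟩

/-- The subcomplex `A ^ r`. -/
def piS (r : ℕ) (A : Submodule ℚ C) : Submodule ℚ (Fin r → C) := Submodule.pi univ fun _ => A

omit [Dif C] in
@[simp] lemma mem_piS {r : ℕ} {A : Submodule ℚ C} {c : Fin r → C} :
    c ∈ piS r A ↔ ∀ i, c i ∈ A := by simp [piS, Submodule.mem_pi]

/-- The map `(Λ 0, …, Λ (r - 1))`. -/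
def LL (Λ : ℕ → C →ₗ[ℚ] C') (r : ℕ) : C →ₗ[ℚ] (Fin r → C') := LinearMap.pi fun i => Λ i

omit [Dif C] [Dif C'] in
@[simp] lemma LL_apply (Λ : ℕ → C →ₗ[ℚ] C') (r : ℕ) (c : C) (i : Fin r) :
    LL Λ r c i = Λ i c := rfl

/-- `(Λ 0, …, Λ (r - 1))` is an isomorphism from `H(A, B)` to `H(A', B') ^ r`. -/
structure MIso (Λ : ℕ → C →ₗ[ℚ] C') (r : ℕ) (A B : Submodule ℚ C) (A' B' : Submodule ℚ C') :
    Prop where
  map : ∀ i < r, HMap (Λ i) A B A' B'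
  inj : ∀ z ∈ ZZ A B, (∀ i < r, Λ i z ∈ BB A' B') → z ∈ BB A B
  srj : ∀ y : ℕ → C', (∀ i < r, y i ∈ ZZ A' B') → ∃ z ∈ ZZ A B, ∀ i < r, Λ i z - y i ∈ BB A' B'

/-- A family of subcomplexes indexed by the open sets of `W`, with Mayer-Vietoris property and
compact supports in `S`. -/
structure Fam {W : Type} [TopologicalSpace W] (S : Set W) (𝒜 : Set W → Submodule ℚ C) : Prop where
  stb : ∀ U, Stb (𝒜 U)
  mono : ∀ U V, U ⊆ V → 𝒜 U ≤ 𝒜 V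
  empty : 𝒜 ∅ = ⊥
  inf : ∀ U V, 𝒜 (U ∩ V) = 𝒜 U ⊓ 𝒜 V
  small : ∀ U V, IsOpen U → IsOpen V → Acyc (𝒜 (U ∪ V)) (𝒜 U ⊔ 𝒜 V)
  cpt : ∀ U, ∀ c ∈ 𝒜 U, ∃ K, IsCompact K ∧ K ⊆ U ∩ S ∧ c ∈ 𝒜 K

end ungraded

section graded

variable {C C' : Type} [AddCommGroup C] [Module ℚ C] [AddCommGroup C'] [Module ℚ C']
  [DG C] [DG C']

/-- `A` is a graded submodule. -/
def Grd (A : Submodule ℚ C) : Prop := ∀ k, ∀ c ∈ A, pr k c ∈ A

/-- A pair of graded subcomplexes. -/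
structure GPr (A B : Submodule ℚ C) : Prop extends Pr A B where
  gA : Grd A
  gB : Grd B

/-- The rank of `H_k(A, B)`. -/
def rk (A B : Submodule ℚ C) (k : ℕ) : Cardinal :=
  Module.rank ℚ ((ZZ A B ⊓ LinearMap.range (pr k : C →ₗ[ℚ] C)).map (BB A B).mkQ)

/-- `f` lowers the degree by `m`. -/
def Deg (m : ℕ) (f : C →ₗ[ℚ] C') : Prop :=
  (∀ k c, f (pr (k + m) c) = pr k (f c)) ∧ ∀ k < m, ∀ c, f (pr k c) = 0

lemma mem_range_pr {k : ℕ} {c : C} : c ∈ LinearMap.range (pr k : C →ₗ[ℚ] C) ↔ pr k c = c := by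
  constructor
  · rintro ⟨a, rfl⟩
    rw [pr_pr, if_pos rfl]
  · exact fun h => ⟨c, h⟩

lemma D_pr' (k : ℕ) (c : C) : D (pr (k + 1) c) = pr k (D c) := (pr_D k c).symm

lemma grd_bot : Grd (⊥ : Submodule ℚ C) := fun k c hc => by
  rw [Submodule.mem_bot] at hc ⊢; simp [hc]

lemma Grd.sup {A B : Submodule ℚ C} (hA : Grd A) (hB : Grd B) : Grd (A ⊔ B) := fun k c hc => by
  obtain ⟨a, ha, b, hb, rfl⟩ := Submodule.mem_sup.1 hc
  rw [map_add]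
  exact Submodule.add_mem_sup (hA k a ha) (hB k b hb)

lemma Grd.inf {A B : Submodule ℚ C} (hA : Grd A) (hB : Grd B) : Grd (A ⊓ B) :=
  fun k c hc => ⟨hA k c hc.1, hB k c hc.2⟩

lemma GPr.grd_ZZ {A B : Submodule ℚ C} (h : GPr A B) : Grd (ZZ A B) := fun k c hc => by
  refine mem_ZZ.2 ⟨h.gA k c hc.1, ?_⟩
  cases k with
  | zero => rw [D_pr]; exact B.zero_mem
  | succ k => rw [D_pr']; exact h.gB k _ hc.2

lemma GPr.grd_BB {A B : Submodule ℚ C} (h : GPr A B) : Grd (BB A B) := fun k c hc => by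
  obtain ⟨a, ha, hb⟩ := mem_BB.1 hc
  exact mem_BB.2 ⟨pr (k + 1) a, h.gA _ a ha, by rw [D_pr', ← map_sub]; exact h.gB k _ hb⟩

lemma mem_of_pr {A : Submodule ℚ C} {c : C} (h : ∀ k, pr k c ∈ A) : c ∈ A := by
  obtain ⟨N, hN⟩ := DG.fin c
  rw [← hN N le_rfl]
  exact A.sum_mem fun k _ => h k

lemma deg_id : Deg 0 (LinearMap.id : C →ₗ[ℚ] C) := ⟨fun _ _ => rfl, fun _ h => absurd h (by simp)⟩

end graded

end

end Pool.Agent.Bet
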