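import Pool.Agent.P.MP_d34769_ag.BA0

/-! TASK BA1: calculus of homology isomorphisms. -/

open Set

namespace Pool.Agent.Bet

variable {C C' C'' : Type} [AddCommGroup C] [Module ℚ C] [AddCommGroup C'] [Module ℚ C']
  [AddCommGroup C''] [Module ℚ C''] [Dif C] [Dif C'] [Dif C'']
  {f : C →ₗ[ℚ] C'} {g : C' →ₗ[ℚ] C''} {A B E : Submodule ℚ C} {A' B' : Submodule ℚ C'}
  {A'' B'' : Submodule ℚ C''}

theorem HMap.comp (hg : HMap g A' B' A'' B'') (hf : HMap f A B A' B') :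
    HMap (g ∘ₗ f) A B A'' B'' := by
  exact ⟨fun z hz => hg.1 _ (hf.1 z hz), fun z hz => hg.2 _ (hf.2 z hz)⟩

theorem HIso.comp (hg : HIso g A' B' A'' B'') (hf : HIso f A B A' B') :
    HIso (g ∘ₗ f) A B A'' B'' := by
  refine ⟨hg.map.comp hf.map, fun z hz h => hf.inj z hz (hg.inj _ (hf.map.1 z hz) h),
    fun y hy => ?_⟩
  obtain ⟨x, hx, h1⟩ := hg.srj y hy
  obtain ⟨z, hz, h2⟩ := hf.srj x hx
  refine ⟨z, hz, ?_⟩
  have e : (g ∘ₗ f) z - y = g (f z - x) + (g x - y) := by simp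
  rw [e]
  exact add_mem (hg.map.2 _ h2) h1

theorem HIso.of_comp_left (hf : HIso f A B A' B') (hg : HMap g A' B' A'' B'')
    (h : HIso (g ∘ₗ f) A B A'' B'') : HIso g A' B' A'' B'' := by
  refine ⟨hg, fun x hx h1 => ?_, fun y hy => ?_⟩
  · obtain ⟨z, hz, h2⟩ := hf.srj x hx
    have e : (g ∘ₗ f) z = g (f z - x) + g x := by simp
    have h3 := hf.map.2 z (h.inj z hz (by rw [e]; exact add_mem (hg.2 _ h2) h1))
    simpa using sub_mem h3 h2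
  · obtain ⟨z, hz, h2⟩ := h.srj y hy
    exact ⟨f z, hf.map.1 z hz, h2⟩

theorem HIso.of_comp_right (hf : HMap f A B A' B') (hg : HIso g A' B' A'' B'')
    (h : HIso (g ∘ₗ f) A B A'' B'') : HIso f A B A' B' := by
  refine ⟨hf, fun z hz h1 => h.inj z hz (hg.map.2 _ h1), fun x hx => ?_⟩
  obtain ⟨z, hz, h2⟩ := h.srj (g x) (hg.map.1 x hx)
  exact ⟨z, hz, hg.inj _ (sub_mem (hf.1 z hz) hx) (by simpa using h2)⟩

theorem HIso.congr {f' : C →ₗ[ℚ] C'} (h : HIso f A B A' B') (hp : Pr A B) (hp' : Pr A' B')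
    (e : ∀ z ∈ ZZ A B, f z - f' z ∈ BB A' B') : HIso f' A B A' B' := by
  refine ⟨⟨fun z hz => ?_, fun z hz => ?_⟩, fun z hz h1 => h.inj z hz ?_, fun y hy => ?_⟩
  · simpa using sub_mem (h.map.1 z hz) (hp'.BB_le (e z hz))
  · simpa using sub_mem (h.map.2 z hz) (e z (hp.BB_le hz))
  · simpa using add_mem (e z hz) h1
  · obtain ⟨z, hz, h1⟩ := h.srj y hy
    exact ⟨z, hz, by simpa using sub_mem h1 (e z hz)⟩

/-- a map with a two-sided inverse on homology -/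
theorem HIso.of_inv {k : C' →ₗ[ℚ] C} (hf : HMap f A B A' B') (hk : HMap k A' B' A B)
    (e : ∀ z ∈ ZZ A B, k (f z) - z ∈ BB A B) (e' : ∀ y ∈ ZZ A' B', f (k y) - y ∈ BB A' B') :
    HIso f A B A' B' := by
  refine ⟨hf, fun z hz h1 => ?_, fun y hy => ⟨k y, hk.1 y hy, e' y hy⟩⟩
  simpa using sub_mem (hk.2 _ h1) (e z hz)

theorem hiso_id (A B : Submodule ℚ C) : HIso LinearMap.id A B A B := by
  exact ⟨⟨fun _ h => h, fun _ h => h⟩, fun _ _ h => h, fun y hy => ⟨y, hy, by simp⟩⟩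

theorem Inj.of_comp (hg : HMap g A' B' A'' B'') (h : Inj (g ∘ₗ f) A B A'' B'') :
    Inj f A B A' B' := by
  exact fun z hz h1 => h z hz (hg.2 _ h1)

/-- second isomorphism theorem -/
theorem hiso_sup (hA : Stb A) (hB : Stb B) : HIso LinearMap.id A (A ⊓ B) (A ⊔ B) B := by
  refine ⟨⟨fun z hz => ZZ_mono le_sup_left inf_le_right hz,
    fun z hz => BB_mono le_sup_left inf_le_right hz⟩, fun z hz h => ?_, fun y hy => ?_⟩
  · obtain ⟨c, hc, h1⟩ := mem_BB.1 h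
    obtain ⟨a, ha, b, hb, rfl⟩ := Submodule.mem_sup.1 hc
    refine mem_BB.2 ⟨a, ha, sub_mem hz.1 (hA a ha), ?_⟩
    have e : z - D a = LinearMap.id (R := ℚ) z - D (a + b) + D b := by
      simp only [LinearMap.id_apply, map_add]; abel
    exact e ▸ add_mem h1 (hB b hb)
  · obtain ⟨a, ha, b, hb, rfl⟩ := Submodule.mem_sup.1 hy.1
    refine ⟨a, mem_ZZ.2 ⟨ha, hA a ha, ?_⟩, mem_BB_of_mem (by simpa using hb)⟩
    have h1 : D (a + b) - D b ∈ B := sub_mem (mem_ZZ.1 hy).2 (hB b hb)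
    simpa using h1

theorem Acyc.hiso_left {A₀ : Submodule ℚ C} (h : Acyc A A₀) (h1 : Pr A A₀) (h2 : Pr A₀ B) :
    HIso LinearMap.id A₀ B A B := by
  refine ⟨⟨fun z hz => ZZ_mono h1.le le_rfl hz, fun z hz => BB_mono h1.le le_rfl hz⟩,
    fun z hz h3 => ?_, fun y hy => ?_⟩
  · obtain ⟨a, ha, h4⟩ := mem_BB.1 h3
    have h5 : D a ∈ A₀ := by simpa using sub_mem (mem_ZZ.1 hz).1 (h2.le h4)
    obtain ⟨a', -, h6⟩ := mem_BB.1 (h (mem_ZZ.2 ⟨ha, h5⟩))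
    exact mem_BB.2 ⟨_, h6, by simpa using h4⟩
  · obtain ⟨a, ha, h4⟩ := mem_BB.1 (h (ZZ_mono le_rfl h2.le hy))
    refine ⟨y - D a, mem_ZZ.2 ⟨h4, by simpa using (mem_ZZ.1 hy).2⟩, ?_⟩
    simpa using D_mem_BB (B := B) ha

theorem Acyc.hiso_right {B₀ : Submodule ℚ C} (h : Acyc B B₀) (h1 : Pr A B) (h2 : Pr B B₀) :
    HIso LinearMap.id A B₀ A B := by
  refine ⟨⟨fun z hz => ZZ_mono le_rfl h2.le hz, fun z hz => BB_mono le_rfl h2.le hz⟩,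
    fun z hz h3 => ?_, fun y hy => ?_⟩
  · obtain ⟨a, ha, h4⟩ := mem_BB.1 h3
    obtain ⟨b, hb, h5⟩ := mem_BB.1 (h (mem_ZZ.2 ⟨h4, by simpa using (mem_ZZ.1 hz).2⟩))
    refine mem_BB.2 ⟨a + b, add_mem ha (h1.le hb), ?_⟩
    simpa [sub_sub] using h5
  · obtain ⟨b, hb, h4⟩ := mem_BB.1 (h (mem_ZZ.2 ⟨(mem_ZZ.1 hy).2, by simp⟩))
    refine ⟨y - b, mem_ZZ.2 ⟨sub_mem (mem_ZZ.1 hy).1 (h1.le hb), by simpa using h4⟩,
      mem_BB_of_mem (by simpa using hb)⟩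

/-- the connecting map of a triple -/
theorem Acyc.hiso_D (h : Acyc A E) (h1 : Pr A B) (h2 : Pr B E) : HIso D A B B E := by
  refine ⟨⟨fun z hz => mem_ZZ.2 ⟨(mem_ZZ.1 hz).2, by simp⟩, fun z hz => ?_⟩,
    fun z hz h3 => ?_, fun y hy => ?_⟩
  · obtain ⟨a, -, h3⟩ := mem_BB.1 hz
    simpa using D_mem_BB (B := E) h3
  · obtain ⟨b, hb, h4⟩ := mem_BB.1 h3
    obtain ⟨a, ha, h5⟩ := mem_BB.1 (h (mem_ZZ.2
      ⟨sub_mem (mem_ZZ.1 hz).1 (h1.le hb), by simpa using h4⟩))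
    refine mem_BB.2 ⟨a, ha, ?_⟩
    have e : z - D a = z - b - D a + b := by abel
    exact e ▸ add_mem (h2.le h5) hb
  · obtain ⟨a, ha, h4⟩ := mem_BB.1 (h (ZZ_mono h1.le le_rfl hy))
    refine ⟨a, mem_ZZ.2 ⟨ha, by simpa using sub_mem (mem_ZZ.1 hy).1 (h2.le h4)⟩,
      mem_BB_of_mem ?_⟩
    simpa using neg_mem h4

theorem HIso.acyc (h : HIso LinearMap.id B E A E) (h1 : Pr A B) (h2 : Pr B E) : Acyc A B := by
  intro z hz
  obtain ⟨b, hb, h3⟩ := mem_BB.1 (h.inj (D z) (mem_ZZ.2 ⟨(mem_ZZ.1 hz).2, by simp⟩)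
    (D_mem_BB (mem_ZZ.1 hz).1))
  obtain ⟨b', hb', h4⟩ := h.srj (z - b)
    (mem_ZZ.2 ⟨sub_mem (mem_ZZ.1 hz).1 (h1.le hb), by simpa using h3⟩)
  obtain ⟨a, ha, h5⟩ := mem_BB.1 h4
  refine mem_BB.2 ⟨-a, neg_mem ha, ?_⟩
  have e : z - D (-a) = b' + b - (LinearMap.id (R := ℚ) b' - (z - b) - D a) := by
    simp only [LinearMap.id_apply, map_neg]; abel
  exact e ▸ sub_mem (add_mem (mem_ZZ.1 hb').1 hb) (h2.le h5)

theorem Inj.srj (h : Inj LinearMap.id B E A E) (h1 : Pr A B) (h2 : Pr B E) :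
    Srj LinearMap.id A E A B := by
  intro y hy
  obtain ⟨b, hb, h3⟩ := mem_BB.1 (h (D y) (mem_ZZ.2 ⟨(mem_ZZ.1 hy).2, by simp⟩)
    (D_mem_BB (mem_ZZ.1 hy).1))
  exact ⟨y - b, mem_ZZ.2 ⟨sub_mem (mem_ZZ.1 hy).1 (h1.le hb), by simpa using h3⟩,
    mem_BB_of_mem (by simpa using hb)⟩

theorem Srj.inj (h : Srj LinearMap.id A E A B) (h1 : Pr A B) (h2 : Pr B E) :
    Inj LinearMap.id B E A E := by
  intro z hz h3
  obtain ⟨a, ha, h4⟩ := mem_BB.1 h3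
  have h5 : D a ∈ B := by simpa using sub_mem (mem_ZZ.1 hz).1 (h2.le h4)
  obtain ⟨w, hw, h6⟩ := h a (mem_ZZ.2 ⟨ha, h5⟩)
  obtain ⟨a', -, h7⟩ := mem_BB.1 h6
  refine mem_BB.2 ⟨_, neg_mem h7, ?_⟩
  have e : z - D (-(LinearMap.id (R := ℚ) w - a - D a')) =
      LinearMap.id (R := ℚ) z - D a + D w := by
    simp only [LinearMap.id_apply, map_neg, map_sub, DD]; abel
  exact e ▸ add_mem h4 (mem_ZZ.1 hw).2

theorem zz_BA1 {r : ℕ} {c : Fin r → C} :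
    c ∈ ZZ (piS r A) (piS r B) ↔ ∀ i, c i ∈ ZZ A B := by
  simp only [mem_ZZ, mem_piS, pi_D, forall_and]

theorem bb_BA1 {r : ℕ} {c : Fin r → C} :
    c ∈ BB (piS r A) (piS r B) ↔ ∀ i, c i ∈ BB A B := by
  simp only [mem_BB, mem_piS]
  constructor
  · rintro ⟨a, ha, h⟩ i
    exact ⟨a i, ha i, h i⟩
  · intro h
    choose a ha h using h
    exact ⟨a, ha, h⟩

theorem hiso_LL {Λ : ℕ → C →ₗ[ℚ] C'} {r : ℕ} :
    HIso (LL Λ r) A B (piS r A') (piS r B') ↔ MIso Λ r A B A' B' := by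
  constructor
  · intro h
    refine ⟨fun i hi => ⟨fun z hz => zz_BA1.1 (h.map.1 z hz) ⟨i, hi⟩,
      fun z hz => bb_BA1.1 (h.map.2 z hz) ⟨i, hi⟩⟩,
      fun z hz h1 => h.inj z hz (bb_BA1.2 fun i => h1 i i.2), fun y hy => ?_⟩
    obtain ⟨z, hz, h1⟩ := h.srj (fun i => y i) (zz_BA1.2 fun i => hy i i.2)
    exact ⟨z, hz, fun i hi => bb_BA1.1 h1 ⟨i, hi⟩⟩
  · intro h
    refine ⟨⟨fun z hz => zz_BA1.2 fun i => (h.map i i.2).1 z hz,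
      fun z hz => bb_BA1.2 fun i => (h.map i i.2).2 z hz⟩,
      fun z hz h1 => h.inj z hz fun i hi => bb_BA1.1 h1 ⟨i, hi⟩, fun y hy => ?_⟩
    obtain ⟨z, hz, h1⟩ := h.srj (fun i => if hi : i < r then y ⟨i, hi⟩ else 0) fun i hi => by
      simpa [hi] using zz_BA1.1 hy ⟨i, hi⟩
    exact ⟨z, hz, bb_BA1.2 fun i => by simpa using h1 i i.2⟩

theorem piS_bot (r : ℕ) : piS r (⊥ : Submodule ℚ C) = ⊥ := by
  ext c
  simp [funext_iff]

theorem piS_top (r : ℕ) : piS r (⊤ : Submodule ℚ C) = ⊤ := by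
  ext c
  simp

theorem Pr.piS (h : Pr A B) (r : ℕ) : Pr (piS r A) (piS r B) := by
  exact ⟨fun c hc => mem_piS.2 fun i => h.le (mem_piS.1 hc i),
    fun c hc => mem_piS.2 fun i => h.sA _ (mem_piS.1 hc i),
    fun c hc => mem_piS.2 fun i => h.sB _ (mem_piS.1 hc i)⟩

theorem cmap_LL {Λ : ℕ → C →ₗ[ℚ] C'} {r : ℕ} (h : ∀ i < r, CMap (Λ i) A A') :
    CMap (LL Λ r) A (piS r A') := by
  exact fun c hc => ⟨mem_piS.2 fun i => (h i i.2 c hc).1, funext fun i => (h i i.2 c hc).2⟩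

end Pool.Agent.Bet
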