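import Pool.Agent.P.MP_d34769_ag.BA1

/-! TASK BA2: five lemmas, and the induction step for Leray-Hirsch. -/

open Set

namespace Pool.Agent.Bet

variable {C C' C'' : Type} [AddCommGroup C] [Module ℚ C] [AddCommGroup C'] [Module ℚ C']
  [AddCommGroup C''] [Module ℚ C''] [Dif C] [Dif C']
  {f : C →ₗ[ℚ] C'} {A B E : Submodule ℚ C} {A' B' E' : Submodule ℚ C'}

theorem five_mid (h1 : Pr A B) (h2 : Pr B E) (h1' : Pr A' B') (h2' : Pr B' E') (hf : CMap f A A')
    (hB : ∀ c ∈ B, f c ∈ B') (hE : ∀ c ∈ E, f c ∈ E') (i1 : HIso f B E B' E')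
    (i2 : HIso f A B A' B') : HIso f A E A' E' := by
  refine ⟨hf.hmap hE, fun z hz hfz => ?_, fun y hy => ?_⟩
  · have hz' : z ∈ ZZ A B := mem_ZZ.2 ⟨hz.1, h2.le hz.2⟩
    obtain ⟨a, ha, hb⟩ := mem_BB.1 (i2.inj z hz' (BB_mono le_rfl h2'.le hfz))
    obtain ⟨a', ha', he'⟩ := mem_BB.1 hfz
    -- b = z - D a, f b = D (a' - f a) + e'
    have hfa := hf a ha
    have hw : a' - f a ∈ ZZ A' B' := by
      refine mem_ZZ.2 ⟨A'.sub_mem ha' hfa.1, ?_⟩
      have e : D (a' - f a) = f (z - D a) - (f z - D a') := by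
        rw [map_sub, map_sub, hfa.2]; abel
      rw [e]
      exact B'.sub_mem (hB _ hb) (h2'.le he')
    obtain ⟨a1, ha1, hb'⟩ := i2.srj _ hw
    obtain ⟨a'', -, hb''⟩ := mem_BB.1 hb'
    have hfa1 := hf a1 ha1.1
    have hc : z - D a - D a1 ∈ ZZ B E := by
      refine mem_ZZ.2 ⟨B.sub_mem hb ha1.2, ?_⟩
      simpa using hz.2
    have hd : f (z - D a - D a1) ∈ BB B' E' := by
      refine mem_BB.2 ⟨-(f a1 - (a' - f a) - D a''), B'.neg_mem hb'', ?_⟩
      have e : f (z - D a - D a1) - D (-(f a1 - (a' - f a) - D a'')) = f z - D a' := by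
        simp only [map_sub, map_neg, hfa.2, hfa1.2, DD]; abel
      rw [e]; exact he'
    obtain ⟨b1, hb1, he⟩ := mem_BB.1 (i1.inj _ hc hd)
    refine mem_BB.2 ⟨a + a1 + b1, A.add_mem (A.add_mem ha ha1.1) (h1.le hb1), ?_⟩
    have e : z - D (a + a1 + b1) = z - D a - D a1 - D b1 := by
      simp only [map_add]; abel
    rw [e]; exact he
  · have hy' : y ∈ ZZ A' B' := mem_ZZ.2 ⟨hy.1, h2'.le hy.2⟩
    obtain ⟨x, hx, hfx⟩ := i2.srj y hy'
    obtain ⟨a', ha', hb'⟩ := mem_BB.1 hfx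
    have hfx' := hf x hx.1
    have hc : D x ∈ ZZ B E := mem_ZZ.2 ⟨hx.2, by simp⟩
    have hd : f (D x) ∈ BB B' E' := by
      refine mem_BB.2 ⟨f x - y - D a', hb', ?_⟩
      have e : f (D x) - D (f x - y - D a') = D y := by
        simp only [map_sub, hfx'.2, DD]; abel
      rw [e]; exact hy.2
    obtain ⟨b, hb, he⟩ := mem_BB.1 (i1.inj _ hc hd)
    have hfb := hf b (h1.le hb)
    have hw : f x - y - D a' - f b ∈ ZZ B' E' := by
      refine mem_ZZ.2 ⟨B'.sub_mem hb' (hB b hb), ?_⟩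
      have e : D (f x - y - D a' - f b) = f (D x - D b) - D y := by
        simp only [map_sub, hfx'.2, hfb.2, DD]; abel
      rw [e]
      exact E'.sub_mem (hE _ he) hy.2
    obtain ⟨b2, hb2, hb2'⟩ := i1.srj _ hw
    refine ⟨x - b - b2, mem_ZZ.2 ⟨A.sub_mem (A.sub_mem hx.1 (h1.le hb)) (h1.le hb2.1), ?_⟩, ?_⟩
    · rw [map_sub, map_sub]
      exact E.sub_mem he hb2.2
    · have e : f (x - b - b2) - y = D a' - (f b2 - (f x - y - D a' - f b)) := by
        simp only [map_sub]; abel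
      rw [e]
      exact (BB A' E').sub_mem (D_mem_BB ha') (BB_mono h1'.le le_rfl hb2')

theorem five_quot (h1 : Pr A B) (h2 : Pr B E) (h1' : Pr A' B') (h2' : Pr B' E') (hf : CMap f A A')
    (hB : ∀ c ∈ B, f c ∈ B') (hE : ∀ c ∈ E, f c ∈ E') (i1 : HIso f B E B' E')
    (i2 : HIso f A E A' E') : HIso f A B A' B' := by
  refine ⟨hf.hmap hB, fun z hz hfz => ?_, fun y hy => ?_⟩
  · obtain ⟨a', ha', hb'⟩ := mem_BB.1 hfz
    have hfz' := hf z hz.1
    have hc : D z ∈ ZZ B E := mem_ZZ.2 ⟨hz.2, by simp⟩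
    have hd : f (D z) ∈ BB B' E' := by
      refine mem_BB.2 ⟨f z - D a', hb', ?_⟩
      have e : f (D z) - D (f z - D a') = 0 := by
        simp only [map_sub, hfz'.2, DD]; abel
      rw [e]; exact E'.zero_mem
    obtain ⟨b, hb, he⟩ := mem_BB.1 (i1.inj _ hc hd)
    have hfb := hf b (h1.le hb)
    have hw : f z - D a' - f b ∈ ZZ B' E' := by
      refine mem_ZZ.2 ⟨B'.sub_mem hb' (hB b hb), ?_⟩
      have e : D (f z - D a' - f b) = f (D z - D b) := by
        simp only [map_sub, hfz'.2, hfb.2, DD]; abel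
      rw [e]
      exact hE _ he
    obtain ⟨b2, hb2, hb2'⟩ := i1.srj _ hw
    have hu : z - b - b2 ∈ ZZ A E := by
      refine mem_ZZ.2 ⟨A.sub_mem (A.sub_mem hz.1 (h1.le hb)) (h1.le hb2.1), ?_⟩
      rw [map_sub, map_sub]
      exact E.sub_mem he hb2.2
    have hv : f (z - b - b2) ∈ BB A' E' := by
      have e : f (z - b - b2) = D a' - (f b2 - (f z - D a' - f b)) := by
        simp only [map_sub]; abel
      rw [e]
      exact (BB A' E').sub_mem (D_mem_BB ha') (BB_mono h1'.le le_rfl hb2')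
    have h3 : z - b - b2 ∈ BB A B := BB_mono le_rfl h2.le (i2.inj _ hu hv)
    have e : z = z - b - b2 + (b + b2) := by abel
    rw [e]
    exact (BB A B).add_mem h3 (mem_BB_of_mem (B.add_mem hb hb2.1))
  · have hc : D y ∈ ZZ B' E' := mem_ZZ.2 ⟨hy.2, by simp⟩
    obtain ⟨b, hb, hfb⟩ := i1.srj _ hc
    obtain ⟨b', hb', he'⟩ := mem_BB.1 hfb
    have hbA : b ∈ ZZ A E := mem_ZZ.2 ⟨h1.le hb.1, hb.2⟩
    have hfb' : f b ∈ BB A' E' := by
      refine mem_BB.2 ⟨y + b', A'.add_mem hy.1 (h1'.le hb'), ?_⟩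
      have e : f b - D (y + b') = f b - D y - D b' := by
        simp only [map_add]; abel
      rw [e]; exact he'
    obtain ⟨a, ha, he⟩ := mem_BB.1 (i2.inj _ hbA hfb')
    have hfa := hf a ha
    have hDa : D a ∈ B := by
      have e : D a = b - (b - D a) := by abel
      rw [e]; exact B.sub_mem hb.1 (h2.le he)
    have hw : f a - y - b' ∈ ZZ A' E' := by
      refine mem_ZZ.2 ⟨A'.sub_mem (A'.sub_mem hfa.1 hy.1) (h1'.le hb'), ?_⟩
      have e : D (f a - y - b') = f b - D y - D b' - f (b - D a) := by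
        simp only [map_sub, hfa.2]; abel
      rw [e]
      exact E'.sub_mem he' (hE _ he)
    obtain ⟨x, hx, hfx⟩ := i2.srj _ hw
    refine ⟨a - x, mem_ZZ.2 ⟨A.sub_mem ha hx.1, ?_⟩, ?_⟩
    · rw [map_sub]
      exact B.sub_mem hDa (h2.le hx.2)
    · have e : f (a - x) - y = b' - (f x - (f a - y - b')) := by
        simp only [map_sub]; abel
      rw [e]
      exact (BB A' B').sub_mem (mem_BB_of_mem hb') (BB_mono le_rfl h2'.le hfx)

/-- One more coordinate: if `(Λ 0, …, Λ (r - 1))` is an isomorphism on `B`, and `Λ r` kills `B` and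
is an isomorphism on `(A, B)`, then `(Λ 0, …, Λ r)` is an isomorphism on `A`. -/
theorem miso_succ {Λ : ℕ → C →ₗ[ℚ] C'} {r : ℕ} (h1 : Pr A B) (hA' : Stb A')
    (hc : ∀ i ≤ r, CMap (Λ i) A A') (h0 : ∀ c ∈ B, Λ r c = 0) (i1 : MIso Λ r B ⊥ A' ⊥)
    (i2 : HIso (Λ r) A B A' ⊥) : MIso Λ (r + 1) A ⊥ A' ⊥ := by
  refine ⟨fun i hi => (hc i (Nat.lt_succ_iff.1 hi)).hmap fun c h => ?_, fun z hz h => ?_,
    fun y hy => ?_⟩
  · rw [Submodule.mem_bot] at h ⊢
    simp [h]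
  · have hDz : D z = 0 := (Submodule.mem_bot ℚ).1 hz.2
    have hz' : z ∈ ZZ A B := mem_ZZ.2 ⟨hz.1, by rw [hDz]; exact B.zero_mem⟩
    obtain ⟨a, ha, hb⟩ := mem_BB.1 (i2.inj z hz' (h r (Nat.lt_succ_self r)))
    have hbz : z - D a ∈ ZZ B ⊥ := mem_ZZ.2 ⟨hb, by simp [hDz]⟩
    have h3 : z - D a ∈ BB B ⊥ := by
      refine i1.inj _ hbz fun i hi => ?_
      have hfa := hc i hi.le a ha
      rw [map_sub, hfa.2]
      exact (BB A' ⊥).sub_mem (h i (Nat.lt_succ_of_lt hi)) (D_mem_BB hfa.1)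
    have e : z = z - D a + D a := by abel
    rw [e]
    exact (BB A ⊥).add_mem (BB_mono h1.le le_rfl h3) (D_mem_BB ha)
  · obtain ⟨x, hx, hfx⟩ := i2.srj (y r) (hy r (Nat.lt_succ_self r))
    have hc1 : D x ∈ ZZ B ⊥ := mem_ZZ.2 ⟨hx.2, by simp⟩
    have h3 : D x ∈ BB B ⊥ := by
      refine i1.inj _ hc1 fun i hi => ?_
      have hfa := hc i hi.le x hx.1
      rw [hfa.2]
      exact D_mem_BB hfa.1
    obtain ⟨b, hb, he⟩ := mem_BB.1 h3
    have he0 : D x - D b = 0 := (Submodule.mem_bot ℚ).1 he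
    have hxb : x - b ∈ A := A.sub_mem hx.1 (h1.le hb)
    have hD : D (x - b) = 0 := by rw [map_sub, he0]
    obtain ⟨w, hw, hw'⟩ := i1.srj (fun i => y i - Λ i (x - b)) fun i hi => by
      have hfa := hc i hi.le _ hxb
      have hyi := hy i (Nat.lt_succ_of_lt hi)
      refine mem_ZZ.2 ⟨A'.sub_mem hyi.1 hfa.1, ?_⟩
      rw [map_sub, ← hfa.2, hD, map_zero, sub_zero]
      exact hyi.2
    refine ⟨x - b + w, mem_ZZ.2 ⟨A.add_mem hxb (h1.le hw.1), ?_⟩, fun i hi => ?_⟩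
    · rw [map_add, hD, zero_add]
      exact hw.2
    · rcases (Nat.lt_succ_iff.1 hi).lt_or_eq with hi' | rfl
      · have e : Λ i (x - b + w) - y i = Λ i w - (y i - Λ i (x - b)) := by
          rw [map_add]; abel
        rw [e]
        exact hw' i hi'
      · rw [map_add, map_sub, h0 b hb, h0 w hw.1, sub_zero, add_zero]
        exact hfx

end Pool.Agent.Bet
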