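import Pool.Agent.P.MP_d34769_ag.BA1

/-! TASK BA3: ranks of homology. -/

open Set

namespace Pool.Agent.Bet

section gen

variable {V W W' : Type} [AddCommGroup V] [Module ℚ V] [AddCommGroup W] [Module ℚ W]
  [AddCommGroup W'] [Module ℚ W']

lemma fac_BA3 (X : Submodule ℚ V) (α : V →ₗ[ℚ] W) (β : V →ₗ[ℚ] W')
    (h : ∀ x ∈ X, α x = 0 → β x = 0) : ∃ φ : W →ₗ[ℚ] W', ∀ x ∈ X, φ (α x) = β x := by
  have hk : LinearMap.ker (α ∘ₗ X.subtype) ≤ LinearMap.ker (β ∘ₗ X.subtype) :=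
    fun x hx => h x x.2 hx
  obtain ⟨g, hg⟩ := LinearMap.exists_leftInverse_of_injective
    ((LinearMap.ker (α ∘ₗ X.subtype)).liftQ (α ∘ₗ X.subtype) le_rfl)
    (Submodule.ker_liftQ_eq_bot _ _ _ le_rfl)
  refine ⟨(LinearMap.ker (α ∘ₗ X.subtype)).liftQ _ hk ∘ₗ g, fun x hx => ?_⟩
  have e := LinearMap.congr_fun hg (Submodule.Quotient.mk ⟨x, hx⟩)
  rw [LinearMap.comp_apply, Submodule.liftQ_apply] at e
  change g (α x) = _ at e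
  rw [LinearMap.comp_apply, e]
  rfl

lemma map_fac_BA3 {X : Submodule ℚ V} {α : V →ₗ[ℚ] W} {β : V →ₗ[ℚ] W'} {φ : W →ₗ[ℚ] W'}
    (hφ : ∀ x ∈ X, φ (α x) = β x) : (X.map α).map φ = X.map β := by
  ext y
  constructor
  · rintro ⟨_, ⟨x, hx, rfl⟩, rfl⟩
    exact ⟨x, hx, (hφ x hx).symm⟩
  · rintro ⟨x, hx, rfl⟩
    exact ⟨_, ⟨x, hx, rfl⟩, hφ x hx⟩

lemma rank_le_BA3 (X : Submodule ℚ V) (α : V →ₗ[ℚ] W) (β : V →ₗ[ℚ] W')
    (h : ∀ x ∈ X, α x = 0 → β x = 0) : Module.rank ℚ (X.map β) ≤ Module.rank ℚ (X.map α) := by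
  obtain ⟨φ, hφ⟩ := fac_BA3 X α β h
  rw [← map_fac_BA3 hφ]
  exact rank_map_le _ _

lemma rank_add_BA3 (X : Submodule ℚ V) (α : V →ₗ[ℚ] W) (β : V →ₗ[ℚ] W')
    (h : ∀ x ∈ X, α x = 0 → β x = 0) : Module.rank ℚ (X.map α) =
      Module.rank ℚ ((X ⊓ LinearMap.ker β).map α) + Module.rank ℚ (X.map β) := by
  obtain ⟨φ, hφ⟩ := fac_BA3 X α β h
  have e := LinearMap.rank_range_add_rank_ker (φ ∘ₗ (X.map α).subtype)
  have e1 : LinearMap.range (φ ∘ₗ (X.map α).subtype) = X.map β := by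
    rw [LinearMap.range_comp, Submodule.range_subtype, map_fac_BA3 hφ]
  have e2 : (LinearMap.ker (φ ∘ₗ (X.map α).subtype)).map (X.map α).subtype =
      (X ⊓ LinearMap.ker β).map α := by
    ext y
    constructor
    · rintro ⟨⟨_, x, hx, rfl⟩, h1, rfl⟩
      refine ⟨x, ⟨hx, ?_⟩, rfl⟩
      have h2 : φ (α x) = 0 := h1
      rw [hφ x hx] at h2
      exact h2
    · rintro ⟨x, ⟨hx, h1⟩, rfl⟩
      refine ⟨⟨α x, x, hx, rfl⟩, ?_, rfl⟩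
      have h2 : φ (α x) = 0 := (hφ x hx).trans h1
      exact h2
  rw [← e, e1, ← e2, rank_map_eq (Submodule.injective_subtype _), add_comm]

lemma rank_sum_BA3 (α : V →ₗ[ℚ] W) (β : ℕ → V →ₗ[ℚ] W') (p : ℕ → Submodule ℚ W') (s : Finset ℕ) :
    ∀ X : Submodule ℚ V, (∀ x ∈ X, α x = 0 ↔ ∀ i ∈ s, β i x = 0) →
      (∀ i ∈ s, ∀ x ∈ X, β i x ∈ p i) →
      (∀ y : ℕ → W', (∀ i ∈ s, y i ∈ p i) → ∃ x ∈ X, ∀ i ∈ s, β i x = y i) →
      Module.rank ℚ (X.map α) = ∑ i ∈ s, Module.rank ℚ (p i) := by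
  classical
  induction s using Finset.induction_on with
  | empty =>
    intro X h1 _ _
    rw [Finset.sum_empty, Submodule.rank_eq_zero, eq_bot_iff]
    rintro _ ⟨x, hx, rfl⟩
    exact (h1 x hx).2 (by simp)
  | insert a s ha ih =>
    intro X h1 h2 h3
    have e : X.map (β a) = p a := by
      refine le_antisymm ?_ fun y hy => ?_
      · rintro _ ⟨x, hx, rfl⟩
        exact h2 a (Finset.mem_insert_self _ _) x hx
      · obtain ⟨x, hx, h4⟩ := h3 (fun i => if i = a then y else 0) (fun i _ => by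
          by_cases hi : i = a
          · simp [hi, hy]
          · simp [hi])
        exact ⟨x, hx, by simpa using h4 a (Finset.mem_insert_self _ _)⟩
    rw [rank_add_BA3 X α (β a) fun x hx h0 => (h1 x hx).1 h0 a (Finset.mem_insert_self _ _),
      Finset.sum_insert ha, add_comm, e, ih (X ⊓ LinearMap.ker (β a))]
    · rintro x ⟨hx, h0⟩
      rw [h1 x hx, Finset.forall_mem_insert]
      exact ⟨fun h => h.2, fun h => ⟨h0, h⟩⟩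
    · exact fun i hi x hx => h2 i (Finset.mem_insert_of_mem hi) x hx.1
    · intro y hy
      obtain ⟨x, hx, h4⟩ := h3 (fun i => if i = a then 0 else y i) (fun i hi => by
        by_cases hia : i = a
        · simp [hia]
        · simpa [hia] using hy i ((Finset.mem_insert.1 hi).resolve_left hia))
      refine ⟨x, ⟨hx, ?_⟩, fun i hi => ?_⟩
      · have := h4 a (Finset.mem_insert_self _ _)
        simpa using this
      · have hia : i ≠ a := fun h => ha (h ▸ hi)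
        simpa [hia] using h4 i (Finset.mem_insert_of_mem hi)

end gen

variable {C C' : Type} [AddCommGroup C] [Module ℚ C] [AddCommGroup C'] [Module ℚ C']
  [DG C] [DG C'] {f : C →ₗ[ℚ] C'} {A B E : Submodule ℚ C} {A' B' : Submodule ℚ C'}

lemma mkQ_zero_BA3 {P : Submodule ℚ C} {x : C} : P.mkQ x = 0 ↔ x ∈ P :=
  Submodule.Quotient.mk_eq_zero P

lemma mkQ_eq_BA3 {P : Submodule ℚ C} {x y : C} : P.mkQ x = P.mkQ y ↔ x - y ∈ P :=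
  Submodule.Quotient.eq P

lemma pr_idem_BA3 (k : ℕ) (c : C) : pr k (pr k c) = pr k c := by rw [pr_pr, if_pos rfl]

lemma red_BA3 (h : GPr A B) {k : ℕ} {z : C} (hz : z ∈ BB A B) (hk : pr k z = z) :
    ∃ a ∈ A, pr (k + 1) a = a ∧ z - D a ∈ B := by
  obtain ⟨a, ha, hb⟩ := mem_BB.1 hz
  refine ⟨pr (k + 1) a, h.gA _ a ha, pr_idem_BA3 _ _, ?_⟩
  have := h.gB k _ hb
  rwa [map_sub, hk, pr_D] at this

theorem rk_eq_zero {k : ℕ} : rk A B k = 0 ↔ ∀ z ∈ ZZ A B, pr k z = z → z ∈ BB A B := by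
  rw [rk, Submodule.rank_eq_zero, eq_bot_iff]
  constructor
  · intro h z hz hk
    exact mkQ_zero_BA3.1 (h ⟨z, ⟨hz, mem_range_pr.2 hk⟩, rfl⟩)
  · rintro h _ ⟨z, ⟨hz, hk⟩, rfl⟩
    exact mkQ_zero_BA3.2 (h z hz (mem_range_pr.1 hk))

theorem rk_iso {m : ℕ} (h : GPr A B) (h' : GPr A' B') (hd : Deg m f) (hi : HIso f A B A' B') :
    (∀ k, rk A B (k + m) = rk A' B' k) ∧ ∀ k < m, rk A B k = 0 := by
  refine ⟨fun k => ?_, fun k hk => rk_eq_zero.2 fun z hz hp => hi.inj z hz ?_⟩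
  · have e : (ZZ A B ⊓ LinearMap.range (pr (k + m) : C →ₗ[ℚ] C)).map ((BB A' B').mkQ ∘ₗ f) =
        (ZZ A' B' ⊓ LinearMap.range (pr k : C' →ₗ[ℚ] C')).map (BB A' B').mkQ := by
      refine le_antisymm ?_ ?_
      · rintro _ ⟨z, ⟨hz, hp⟩, rfl⟩
        refine ⟨f z, ⟨hi.map.1 z hz, mem_range_pr.2 ?_⟩, rfl⟩
        rw [← hd.1, mem_range_pr.1 hp]
      · rintro _ ⟨y, ⟨hy, hp⟩, rfl⟩
        obtain ⟨z, hz, e⟩ := hi.srj y hy
        refine ⟨pr (k + m) z, ⟨h.grd_ZZ _ z hz, ⟨z, rfl⟩⟩, mkQ_eq_BA3.2 ?_⟩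
        have := h'.grd_BB k _ e
        rwa [map_sub, mem_range_pr.1 hp, ← hd.1] at this
    rw [rk, rk, ← e]
    refine le_antisymm (rank_le_BA3 _ _ _ fun z hz h0 => ?_) (rank_le_BA3 _ _ _ fun z hz h0 => ?_)
    · exact mkQ_zero_BA3.2 (hi.inj z hz.1 (mkQ_zero_BA3.1 h0))
    · exact mkQ_zero_BA3.2 (hi.map.2 z (mkQ_zero_BA3.1 h0))
  · rw [← hp, hd.2 k hk]
    exact Submodule.zero_mem _

theorem rk_le (hd : Deg 0 f) (hm : HMap f A B A' B') (hi : Inj f A B A' B') (k : ℕ) :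
    rk A B k ≤ rk A' B' k := by
  refine (rank_le_BA3 _ ((BB A' B').mkQ ∘ₗ f) _ fun z hz h0 => ?_).trans (Submodule.rank_mono ?_)
  · exact mkQ_zero_BA3.2 (hi z hz.1 (mkQ_zero_BA3.1 h0))
  · rintro _ ⟨z, ⟨hz, hp⟩, rfl⟩
    refine ⟨f z, ⟨hm.1 z hz, mem_range_pr.2 ?_⟩, rfl⟩
    rw [← hd.1, add_zero, mem_range_pr.1 hp]

theorem rk_triple (h : GPr A B) (ho : Srj LinearMap.id A ⊥ A B) (k : ℕ) :
    rk A ⊥ k = rk B ⊥ k + rk A B k := by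
  have hI : Inj LinearMap.id B ⊥ A ⊥ := Srj.inj ho h.toPr h.sB.pr_bot
  have gA : GPr A ⊥ := ⟨h.sA.pr_bot, h.gA, grd_bot⟩
  have e1 : (ZZ A ⊥ ⊓ LinearMap.range (pr k : C →ₗ[ℚ] C)).map (BB A B).mkQ =
      (ZZ A B ⊓ LinearMap.range (pr k : C →ₗ[ℚ] C)).map (BB A B).mkQ := by
    refine le_antisymm (Submodule.map_mono (inf_le_inf_right _ (ZZ_mono le_rfl bot_le))) ?_
    rintro _ ⟨y, ⟨hy, hp⟩, rfl⟩
    obtain ⟨z, hz, e⟩ := ho y hy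
    refine ⟨pr k z, ⟨gA.grd_ZZ _ z hz, ⟨z, rfl⟩⟩, mkQ_eq_BA3.2 ?_⟩
    have := h.grd_BB k _ e
    rwa [map_sub, mem_range_pr.1 hp] at this
  have e2 : ((ZZ A ⊥ ⊓ LinearMap.range (pr k : C →ₗ[ℚ] C)) ⊓ LinearMap.ker (BB A B).mkQ).map
      (BB A ⊥).mkQ = (ZZ B ⊥ ⊓ LinearMap.range (pr k : C →ₗ[ℚ] C)).map (BB A ⊥).mkQ := by
    refine le_antisymm ?_ (Submodule.map_mono ?_)
    · rintro _ ⟨z, ⟨⟨hz, hp⟩, h0⟩, rfl⟩
      obtain ⟨a, ha, hk, hb⟩ := red_BA3 h (mkQ_zero_BA3.1 h0) (mem_range_pr.1 hp)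
      refine ⟨z - D a, ⟨mem_ZZ.2 ⟨hb, ?_⟩, mem_range_pr.2 ?_⟩, mkQ_eq_BA3.2 ?_⟩
      · simpa using (mem_ZZ.1 hz).2
      · rw [map_sub, mem_range_pr.1 hp, pr_D, hk]
      · have : z - D a - z = D (-a) := by simp
        rw [this]
        exact D_mem_BB (A.neg_mem ha)
    · rintro z ⟨hz, hp⟩
      exact ⟨⟨ZZ_mono h.le le_rfl hz, hp⟩, mkQ_zero_BA3.2 (mem_BB_of_mem hz.1)⟩
  rw [rk, rank_add_BA3 _ (BB A ⊥).mkQ (BB A B).mkQ fun z _ h0 =>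
    mkQ_zero_BA3.2 (BB_mono le_rfl bot_le (mkQ_zero_BA3.1 h0)), e1, e2, rk, rk]
  congr 1
  refine le_antisymm (rank_le_BA3 _ _ _ fun z hz h0 => ?_) (rank_le_BA3 _ _ _ fun z hz h0 => ?_)
  · exact mkQ_zero_BA3.2 (BB_mono h.le le_rfl (mkQ_zero_BA3.1 h0))
  · exact mkQ_zero_BA3.2 (hI z hz.1 (mkQ_zero_BA3.1 h0))

theorem rk_van (h1 : GPr A B) (h2 : GPr B E) {k : ℕ} (v1 : rk A B k = 0) (v2 : rk B E k = 0) :
    rk A E k = 0 := by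
  rw [rk_eq_zero] at v1 v2 ⊢
  intro z hz hp
  obtain ⟨a, ha, hk, hb⟩ := red_BA3 h1 (v1 z (ZZ_mono le_rfl h2.le hz) hp) hp
  have h3 : z - D a ∈ BB B E := by
    refine v2 _ (mem_ZZ.2 ⟨hb, ?_⟩) ?_
    · simpa using (mem_ZZ.1 hz).2
    · rw [map_sub, hp, pr_D, hk]
  have h4 := (BB A E).add_mem (BB_mono h1.le le_rfl h3) (D_mem_BB ha)
  simpa using h4

lemma inj_van_BA3 (h1 : GPr A B) (h2 : GPr B E) {k : ℕ} (v : rk A B (k + 1) = 0) {z : C}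
    (hz : z ∈ ZZ B E) (hp : pr k z = z) (h0 : z ∈ BB A E) : z ∈ BB B E := by
  have gAE : GPr A E := ⟨⟨h2.le.trans h1.le, h1.sA, h2.sB⟩, h1.gA, h2.gB⟩
  obtain ⟨a, ha, hk, hb⟩ := red_BA3 gAE h0 hp
  have h3 : D a ∈ B := by simpa using B.sub_mem hz.1 (h2.le hb)
  obtain ⟨a', ha', hb'⟩ := mem_BB.1 (rk_eq_zero.1 v a (mem_ZZ.2 ⟨ha, h3⟩) hk)
  exact mem_BB.2 ⟨_, hb', by simpa using hb⟩

theorem rk_eq_of_van (h : GPr A B) {k : ℕ} (v1 : rk A B k = 0) (v2 : rk A B (k + 1) = 0) :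
    rk A ⊥ k = rk B ⊥ k := by
  have gB : GPr B ⊥ := ⟨h.sB.pr_bot, h.gB, grd_bot⟩
  have e : (ZZ A ⊥ ⊓ LinearMap.range (pr k : C →ₗ[ℚ] C)).map (BB A ⊥).mkQ =
      (ZZ B ⊥ ⊓ LinearMap.range (pr k : C →ₗ[ℚ] C)).map (BB A ⊥).mkQ := by
    refine le_antisymm ?_ (Submodule.map_mono (inf_le_inf_right _ (ZZ_mono h.le le_rfl)))
    rintro _ ⟨z, ⟨hz, hp⟩, rfl⟩
    have hp' := mem_range_pr.1 hp
    obtain ⟨a, ha, hk, hb⟩ := red_BA3 h (rk_eq_zero.1 v1 z (ZZ_mono le_rfl bot_le hz) hp') hp'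
    refine ⟨z - D a, ⟨mem_ZZ.2 ⟨hb, ?_⟩, mem_range_pr.2 ?_⟩, mkQ_eq_BA3.2 ?_⟩
    · simpa using (mem_ZZ.1 hz).2
    · rw [map_sub, hp', pr_D, hk]
    · have : z - D a - z = D (-a) := by simp
      rw [this]
      exact D_mem_BB (A.neg_mem ha)
  rw [rk, rk, e]
  refine le_antisymm (rank_le_BA3 _ _ _ fun z hz h0 => ?_) (rank_le_BA3 _ _ _ fun z hz h0 => ?_)
  · exact mkQ_zero_BA3.2 (BB_mono h.le le_rfl (mkQ_zero_BA3.1 h0))
  · exact mkQ_zero_BA3.2 (inj_van_BA3 h gB v2 hz.1 (mem_range_pr.1 hz.2) (mkQ_zero_BA3.1 h0))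

theorem inj_of_van (h1 : GPr A B) (h2 : GPr B E)
    (v : ∀ k, rk B E k = 0 ∨ rk A B (k + 1) = 0) : Inj LinearMap.id B E A E := by
  have gAE : GPr A E := ⟨⟨h2.le.trans h1.le, h1.sA, h2.sB⟩, h1.gA, h2.gB⟩
  intro z hz h0
  refine mem_of_pr fun k => ?_
  rcases v k with v | v
  · exact rk_eq_zero.1 v _ (h2.grd_ZZ k z hz) (pr_idem_BA3 _ _)
  · exact inj_van_BA3 h1 h2 v (h2.grd_ZZ k z hz) (pr_idem_BA3 _ _) (gAE.grd_BB k z h0)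

theorem rk_miso {Λ : ℕ → C →ₗ[ℚ] C'} {r : ℕ} (h : GPr A B) (h' : GPr A' B')
    (hd : ∀ i < r, Deg (2 * i) (Λ i)) (hi : MIso Λ r A B A' B') (k : ℕ) :
    rk A B k = ∑ i ∈ (Finset.range r).filter (fun i => 2 * i ≤ k), rk A' B' (k - 2 * i) := by
  have hdeg : ∀ i < r, 2 * i ≤ k → ∀ c, Λ i (pr k c) = pr (k - 2 * i) (Λ i c) := by
    intro i h1 h2 c
    rw [← (hd i h1).1, Nat.sub_add_cancel h2]
  refine rank_sum_BA3 (BB A B).mkQ (fun i => (BB A' B').mkQ ∘ₗ Λ i)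
    (fun i => (ZZ A' B' ⊓ LinearMap.range (pr (k - 2 * i) : C' →ₗ[ℚ] C')).map (BB A' B').mkQ)
    _ _ ?_ ?_ ?_
  · rintro z ⟨hz, hp⟩
    rw [mkQ_zero_BA3]
    constructor
    · intro h0 i hi'
      exact mkQ_zero_BA3.2 ((hi.map i (Finset.mem_range.1 (Finset.mem_filter.1 hi').1)).2 z h0)
    · intro h0
      refine hi.inj z hz fun i h1 => ?_
      by_cases h2 : 2 * i ≤ k
      · exact mkQ_zero_BA3.1 (h0 i (Finset.mem_filter.2 ⟨Finset.mem_range.2 h1, h2⟩))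
      · rw [← mem_range_pr.1 hp, (hd i h1).2 k (not_le.1 h2)]
        exact Submodule.zero_mem _
  · rintro i hi' z ⟨hz, hp⟩
    obtain ⟨h1, h2⟩ := Finset.mem_filter.1 hi'
    rw [Finset.mem_range] at h1
    refine ⟨Λ i z, ⟨(hi.map i h1).1 z hz, mem_range_pr.2 ?_⟩, rfl⟩
    rw [← hdeg i h1 h2, mem_range_pr.1 hp]
  · intro y hy
    have hy' : ∀ i, ∃ w ∈ ZZ A' B', i < r → 2 * i ≤ k →
        pr (k - 2 * i) w = w ∧ (BB A' B').mkQ w = y i := by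
      intro i
      by_cases h1 : i < r ∧ 2 * i ≤ k
      · obtain ⟨w, ⟨hw, hp⟩, e⟩ := hy i (Finset.mem_filter.2 ⟨Finset.mem_range.2 h1.1, h1.2⟩)
        exact ⟨w, hw, fun _ _ => ⟨mem_range_pr.1 hp, e⟩⟩
      · exact ⟨0, Submodule.zero_mem _, fun h2 h3 => absurd ⟨h2, h3⟩ h1⟩
    choose w hw hw' using hy'
    obtain ⟨z, hz, e⟩ := hi.srj w fun i _ => hw i
    refine ⟨pr k z, ⟨h.grd_ZZ k z hz, ⟨z, rfl⟩⟩, fun i hi' => ?_⟩
    obtain ⟨h1, h2⟩ := Finset.mem_filter.1 hi'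
    rw [Finset.mem_range] at h1
    rw [← (hw' i h1 h2).2]
    refine mkQ_eq_BA3.2 ?_
    have := h'.grd_BB (k - 2 * i) _ (e i h1)
    rwa [map_sub, (hw' i h1 h2).1, ← hdeg i h1 h2] at this

end Pool.Agent.Bet
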