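import Pool.Agent.P.MP_d34769_ag.BA1
import Pool.Agent.P.MP_d34769_ag.BA3

/-! TASK BA4: the algebra behind the Thom isomorphism, extension of functionals. -/

open Set

namespace Pool.Agent.Bet

theorem rank_map_BA4 {V V' V'' : Type} [AddCommGroup V] [Module ℚ V] [AddCommGroup V']
    [Module ℚ V'] [AddCommGroup V''] [Module ℚ V''] (X : Submodule ℚ V) (α : V →ₗ[ℚ] V')
    (β : V →ₗ[ℚ] V'') (h : ∀ x ∈ X, α x = 0 ↔ β x = 0) :
    Module.rank ℚ (X.map α) = Module.rank ℚ (X.map β) := by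
  have hk : LinearMap.ker (α.domRestrict X) = LinearMap.ker (β.domRestrict X) := by
    ext x
    exact h x.1 x.2
  rw [← LinearMap.range_domRestrict, ← LinearMap.range_domRestrict,
    ← (α.domRestrict X).quotKerEquivRange.rank_eq, ← (β.domRestrict X).quotKerEquivRange.rank_eq]
  exact (Submodule.quotEquivOfEq _ _ hk).rank_eq

theorem factor_BA4 {V V' : Type} [AddCommGroup V] [Module ℚ V] [AddCommGroup V'] [Module ℚ V']
    (X : Submodule ℚ V) (g : V →ₗ[ℚ] V') (ω : V →ₗ[ℚ] ℚ) (h : ∀ x ∈ X, g x = 0 → ω x = 0) :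
    ∃ ω' : V' →ₗ[ℚ] ℚ, ∀ x ∈ X, ω' (g x) = ω x := by
  have h1 : ω.domRestrict X ∈ (LinearMap.ker (g.domRestrict X)).dualAnnihilator := by
    rw [Submodule.mem_dualAnnihilator]
    exact fun x hx => h x.1 x.2 hx
  rw [← LinearMap.range_dualMap_eq_dualAnnihilator_ker] at h1
  obtain ⟨ω', hω'⟩ := h1
  exact ⟨ω', fun x hx => LinearMap.congr_fun hω' ⟨x, hx⟩⟩

section

variable {C C' : Type} [AddCommGroup C] [Module ℚ C] [AddCommGroup C'] [Module ℚ C']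
  [Dif C] [Dif C'] {Λ : ℕ → C →ₗ[ℚ] C'} {r : ℕ} {P A B N : Submodule ℚ C} {S T : Submodule ℚ C'}

theorem key1_BA4 (hNA : Pr N A) (hNB : Pr N B) (hN : Acyc N (A ⊔ B)) {n : C} (hn : n ∈ ZZ N A) :
    ∃ b ∈ ZZ B (B ⊓ A), n - b ∈ BB N A := by
  obtain ⟨n', hn', h⟩ := mem_BB.1 (hN (mem_ZZ.2 ⟨hn.1, Submodule.mem_sup_left hn.2⟩))
  obtain ⟨a, ha, b, hb, e⟩ := Submodule.mem_sup.1 h
  refine ⟨b, mem_ZZ.2 ⟨hb, hNB.sB b hb, ?_⟩, mem_BB.2 ⟨n', hn', ?_⟩⟩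
  · have e1 : b = n - D n' - a := by rw [← e]; abel
    have e2 : D b = D n - D a := by rw [e1, map_sub, map_sub, DD, sub_zero]
    rw [e2]
    exact A.sub_mem hn.2 (hNA.sB a ha)
  · have e1 : n - b - D n' = a := by rw [sub_right_comm, ← e]; abel
    rwa [e1]

/-- a relative cycle of `(P, A)` which bounds modulo `N` comes from `B` -/
theorem key1'_BA4 (hPN : Pr P N) (hNA : Pr N A) (hNB : Pr N B) (hN : Acyc N (A ⊔ B)) {x : C}
    (hx : D x ∈ A) (hb : x ∈ BB P N) : ∃ b ∈ ZZ B (B ⊓ A), x - b ∈ BB P A := by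
  obtain ⟨p, hp, hn⟩ := mem_BB.1 hb
  have h1 : x - D p ∈ ZZ N A := mem_ZZ.2 ⟨hn, by rwa [map_sub, DD, sub_zero]⟩
  obtain ⟨b, hb1, hb2⟩ := key1_BA4 hNA hNB hN h1
  refine ⟨b, hb1, ?_⟩
  have e : x - b = x - D p - b + D p := by abel
  rw [e]
  exact add_mem (BB_mono hPN.le le_rfl hb2) (D_mem_BB hp)

theorem key2_BA4 (hPN : Pr P N) (hNA : Pr N A) (hNB : Pr N B) (hN : Acyc N (A ⊔ B))
    (h1 : MIso Λ (r + 1) P A S T) (h2 : MIso Λ r B (B ⊓ A) S T) :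
    Srj LinearMap.id P A P N := by
  refine Inj.srj (fun n hn hb => ?_) hPN hNA
  obtain ⟨b, hb1, hb2⟩ := key1_BA4 hNA hNB hN hn
  have h3 : b ∈ BB P A := by
    have e : b = n - (n - b) := by abel
    rw [e]
    exact sub_mem hb (BB_mono hPN.le le_rfl hb2)
  have h4 := h2.inj b hb1 fun i hi => (h1.map i (by omega)).2 b h3
  have e : n = n - b + b := by abel
  rw [e]
  exact add_mem hb2 (BB_mono hNB.le inf_le_right h4)

theorem key3_BA4 (hPN : Pr P N) (hNA : Pr N A) (hNB : Pr N B) (hN : Acyc N (A ⊔ B))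
    (h1 : MIso Λ (r + 1) P A S T) (h2 : MIso Λ r B (B ⊓ A) S T) {x : C} (hx : x ∈ ZZ P A)
    (hΛ : ∀ i < r, Λ i x ∈ BB S T) (hb : x ∈ BB P N) : x ∈ BB P A := by
  obtain ⟨b, hb1, hb2⟩ := key1'_BA4 hPN hNA hNB hN hx.2 hb
  have h4 := h2.inj b hb1 fun i hi => by
    have e : Λ i b = Λ i x - Λ i (x - b) := by rw [map_sub]; abel
    rw [e]
    exact sub_mem (hΛ i hi) ((h1.map i (by omega)).2 _ hb2)
  have e : x = x - b + b := by abel
  rw [e]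
  exact add_mem hb2 (BB_mono (hNB.le.trans hPN.le) inf_le_right h4)

theorem srj_last_BA4 (h1 : MIso Λ (r + 1) P A S T) {y : C'} (hy : y ∈ ZZ S T) :
    ∃ x ∈ ZZ P A, (∀ i < r, Λ i x ∈ BB S T) ∧ Λ r x - y ∈ BB S T := by
  obtain ⟨x, hx, h⟩ := h1.srj (fun i => if i = r then y else 0) fun i _ => by
    split_ifs
    · exact hy
    · exact zero_mem _
  refine ⟨x, hx, fun i hi => ?_, ?_⟩
  · have := h i (by omega)
    rwa [if_neg hi.ne, sub_zero] at this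
  · have := h r (by omega)
    rwa [if_pos rfl] at this

end

section

variable {C C' : Type} [AddCommGroup C] [Module ℚ C] [AddCommGroup C'] [Module ℚ C']
  [DG C] [DG C'] {Λ : ℕ → C →ₗ[ℚ] C'} {r : ℕ} {P A B N : Submodule ℚ C} {S T : Submodule ℚ C'}

theorem deg_mem_BA4 {d : ℕ} {f : C →ₗ[ℚ] C'} (hd : Deg d f) {W : Submodule ℚ C'} (hW : Grd W)
    {x : C} (hx : f x ∈ W) (m : ℕ) : f (pr m x) ∈ W := by
  rcases lt_or_ge m d with h | h
  · rw [hd.2 m h]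
    exact zero_mem _
  · obtain ⟨k, rfl⟩ : ∃ k, m = k + d := ⟨m - d, by omega⟩
    rw [hd.1]
    exact hW k _ hx

theorem key4_BA4 (hPN : GPr P N) (hNA : GPr N A) (hNB : GPr N B) (hST : GPr S T)
    (hN : Acyc N (A ⊔ B)) (hd : ∀ i ≤ r, Deg (2 * i) (Λ i)) (h1 : MIso Λ (r + 1) P A S T)
    (h2 : MIso Λ r B (B ⊓ A) S T) (m : ℕ) {z : C} (hz : z ∈ ZZ P N) (hm : pr m z = z) :
    ∃ x ∈ ZZ P A, pr m x = x ∧ (∀ i < r, Λ i x ∈ BB S T) ∧ x - z ∈ BB P N := by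
  have hPA : GPr P A := ⟨⟨hNA.le.trans hPN.le, hPN.sA, hNA.sB⟩, hPN.gA, hNA.gB⟩
  obtain ⟨x, hx, hxz⟩ := key2_BA4 hPN.toPr hNA.toPr hNB.toPr hN h1 h2 z hz
  obtain ⟨w, hw, hΛ⟩ := h2.srj (fun i => Λ i x) fun i hi => (h1.map i (by omega)).1 x hx
  have h3 : x - w ∈ ZZ P A := sub_mem hx (ZZ_mono (hNB.le.trans hPN.le) inf_le_right hw)
  refine ⟨pr m (x - w), hPA.grd_ZZ m _ h3, by rw [pr_pr, if_pos rfl], fun i hi => ?_, ?_⟩
  · refine deg_mem_BA4 (hd i hi.le) hST.grd_BB ?_ m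
    have := neg_mem (hΛ i hi)
    rwa [neg_sub, ← map_sub] at this
  · have h4 : x - w - z ∈ BB P N := by
      rw [sub_right_comm]
      exact sub_mem hxz (mem_BB_of_mem (hNB.le hw.1))
    have := hPN.grd_BB m _ h4
    rwa [map_sub, hm] at this

theorem thom_alg (hPN : GPr P N) (hNA : GPr N A) (hNB : GPr N B) (hST : GPr S T)
    (hN : Acyc N (A ⊔ B)) (hd : ∀ i ≤ r, Deg (2 * i) (Λ i)) (h1 : MIso Λ (r + 1) P A S T)
    (h2 : MIso Λ r B (B ⊓ A) S T) :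
    (∀ k, rk P N (k + 2 * r) = rk S T k) ∧ ∀ k < 2 * r, rk P N k = 0 := by
  have hPA : GPr P A := ⟨⟨hNA.le.trans hPN.le, hPN.sA, hNA.sB⟩, hPN.gA, hNA.gB⟩
  have hlast : ∀ x ∈ ZZ P A, (∀ i < r, Λ i x ∈ BB S T) → Λ r x ∈ BB S T → x ∈ BB P N :=
    fun x hx ha hb => BB_mono le_rfl hNA.le (h1.inj x hx fun i hi => by
      rcases Nat.lt_succ_iff_lt_or_eq.1 hi with h | h
      · exact ha i h
      · rw [h]; exact hb)
  refine ⟨fun k => ?_, fun k hk => rk_eq_zero.2 fun z hz hm => ?_⟩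
  · let X : Submodule ℚ C := (ZZ P A ⊓ LinearMap.range (pr (k + 2 * r) : C →ₗ[ℚ] C)) ⊓
      ⨅ i : Fin r, (BB S T).comap (Λ i)
    have hX : ∀ x, x ∈ X ↔ x ∈ ZZ P A ∧ pr (k + 2 * r) x = x ∧ ∀ i < r, Λ i x ∈ BB S T := by
      intro x
      simp only [X, Submodule.mem_inf, mem_range_pr, Submodule.mem_iInf, Submodule.mem_comap,
        and_assoc]
      exact and_congr_right fun _ => and_congr_right fun _ =>
        ⟨fun h i hi => h ⟨i, hi⟩, fun h i => h i i.2⟩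
    have e1 : (ZZ P N ⊓ LinearMap.range (pr (k + 2 * r) : C →ₗ[ℚ] C)).map (BB P N).mkQ =
        X.map (BB P N).mkQ := by
      refine le_antisymm ?_ (Submodule.map_mono fun x hx => ?_)
      · rintro _ ⟨z, hz, rfl⟩
        obtain ⟨x, a1, a2, a3, a4⟩ := key4_BA4 hPN hNA hNB hST hN hd h1 h2 (k + 2 * r) hz.1
          (mem_range_pr.1 hz.2)
        exact ⟨x, (hX x).2 ⟨a1, a2, a3⟩, (Submodule.Quotient.eq _).2 a4⟩
      · obtain ⟨a1, a2, -⟩ := (hX x).1 hx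
        exact ⟨ZZ_mono le_rfl hNA.le a1, mem_range_pr.2 a2⟩
    have e2 : (ZZ S T ⊓ LinearMap.range (pr k : C' →ₗ[ℚ] C')).map (BB S T).mkQ =
        X.map ((BB S T).mkQ ∘ₗ Λ r) := by
      refine le_antisymm ?_ ?_
      · rintro _ ⟨y, hy, rfl⟩
        obtain ⟨x, a1, a2, a3⟩ := srj_last_BA4 h1 hy.1
        refine ⟨pr (k + 2 * r) x, (hX _).2 ⟨hPA.grd_ZZ _ _ a1, by rw [pr_pr, if_pos rfl],
          fun i hi => deg_mem_BA4 (hd i hi.le) hST.grd_BB (a2 i hi) _⟩,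
          (Submodule.Quotient.eq _).2 ?_⟩
        have := hST.grd_BB k _ a3
        rwa [map_sub, mem_range_pr.1 hy.2, ← (hd r le_rfl).1] at this
      · rintro _ ⟨x, hx, rfl⟩
        obtain ⟨a1, a2, -⟩ := (hX x).1 hx
        refine ⟨Λ r x, ⟨(h1.map r (by omega)).1 x a1, mem_range_pr.2 ?_⟩, rfl⟩
        rw [← (hd r le_rfl).1, a2]
    unfold rk
    rw [e1, e2]
    refine rank_map_BA4 X _ _ fun x hx => ?_
    obtain ⟨a1, -, a3⟩ := (hX x).1 hx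
    rw [LinearMap.comp_apply, Submodule.mkQ_apply, Submodule.mkQ_apply,
      Submodule.Quotient.mk_eq_zero, Submodule.Quotient.mk_eq_zero]
    exact ⟨fun h => (h1.map r (by omega)).2 x
      (key3_BA4 hPN.toPr hNA.toPr hNB.toPr hN h1 h2 a1 a3 h), hlast x a1 a3⟩
  · obtain ⟨x, a1, a2, a3, a4⟩ := key4_BA4 hPN hNA hNB hST hN hd h1 h2 k hz hm
    have h3 : x ∈ BB P N := hlast x a1 a3 (by
      rw [← a2, (hd r le_rfl).2 k hk]
      exact zero_mem _)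
    have e : z = x - (x - z) := by abel
    rw [e]
    exact sub_mem h3 a4

theorem thom_onto (hPN : Pr P N) (hNA : Pr N A) (hNB : Pr N B) (hST : Pr S T)
    (hN : Acyc N (A ⊔ B)) (h1 : MIso Λ (r + 1) P A S T) (h2 : MIso Λ r B (B ⊓ A) S T)
    (a1 : MIso Λ (r + 1) P ⊥ S ⊥) (a2 : MIso Λ r B ⊥ S ⊥) (ho : Srj LinearMap.id P ⊥ P N) :
    Srj LinearMap.id S ⊥ S T := by
  intro y hy
  obtain ⟨x, hx, b1, b2⟩ := srj_last_BA4 h1 hy
  obtain ⟨z, hz, hzx⟩ := ho x (ZZ_mono le_rfl hNA.le hx)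
  have hzx' : z - x ∈ BB P N := hzx
  have hz0 : D z = 0 := (Submodule.mem_bot ℚ).1 hz.2
  have hD : D (z - x) ∈ A := by
    rw [map_sub, hz0, zero_sub]
    exact neg_mem hx.2
  obtain ⟨b, hb1, hb2⟩ := key1'_BA4 hPN hNA hNB hN hD hzx'
  obtain ⟨w, hw, hΛ⟩ := a2.srj (fun i => Λ i z) fun i hi => (a1.map i (by omega)).1 z hz
  have h3 : b - w ∈ BB B (B ⊓ A) := h2.inj _ (sub_mem hb1 (ZZ_mono le_rfl bot_le hw)) fun i hi => by
    have e : Λ i (b - w) = -(Λ i w - Λ i z) - Λ i x - Λ i (z - x - b) := by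
      simp only [map_sub]
      abel
    rw [e]
    exact sub_mem (sub_mem (neg_mem (BB_mono le_rfl bot_le (hΛ i hi))) (b1 i hi))
      ((h1.map i (by omega)).2 _ hb2)
  have h4 : z - w - x ∈ BB P A := by
    have e : z - w - x = z - x - b + (b - w) := by abel
    rw [e]
    exact add_mem hb2 (BB_mono (hNB.le.trans hPN.le) inf_le_right h3)
  refine ⟨Λ r (z - w), (a1.map r (by omega)).1 _
    (sub_mem hz (ZZ_mono (hNB.le.trans hPN.le) le_rfl hw)), ?_⟩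
  have e : Λ r (z - w) - y = Λ r (z - w - x) + (Λ r x - y) := by
    simp only [map_sub]
    abel
  change Λ r (z - w) - y ∈ BB S T
  rw [e]
  exact add_mem ((h1.map r (by omega)).2 _ h4) b2

end

section

variable {C C' : Type} [AddCommGroup C] [Module ℚ C] [AddCommGroup C'] [Module ℚ C']
  [Dif C] [Dif C'] {f : C →ₗ[ℚ] C'} {A B : Submodule ℚ C} {A' B' : Submodule ℚ C'}

/-- extension of a cocycle along a map which is injective on homology -/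
theorem exists_ext (hi : Inj f A B A' B') {ω : C →ₗ[ℚ] ℚ} (hω : ∀ c ∈ BB A B, ω c = 0) :
    ∃ ω' : C' →ₗ[ℚ] ℚ, (∀ c ∈ BB A' B', ω' c = 0) ∧ ∀ z ∈ ZZ A B, ω' (f z) = ω z := by
  obtain ⟨ω₁, h₁⟩ := factor_BA4 (ZZ A B) ((BB A' B').mkQ ∘ₗ f) ω fun z hz h0 =>
    hω z (hi z hz ((Submodule.Quotient.mk_eq_zero _).1 h0))
  refine ⟨ω₁ ∘ₗ (BB A' B').mkQ, fun c hc => ?_, h₁⟩
  rw [LinearMap.comp_apply, Submodule.mkQ_apply, (Submodule.Quotient.mk_eq_zero _).2 hc, map_zero]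

/-- a functional vanishing on cycles is a coboundary -/
theorem exists_cobd (h : Pr A B) {ω : C →ₗ[ℚ] ℚ} (hω : ∀ z ∈ ZZ A B, ω z = 0) :
    ∃ β : C →ₗ[ℚ] ℚ, (∀ b ∈ B, β b = 0) ∧ ∀ a ∈ A, ω a = β (D a) := by
  obtain ⟨ω₁, h₁⟩ := factor_BA4 A (B.mkQ ∘ₗ D) ω fun z hz h0 =>
    hω z (mem_ZZ.2 ⟨hz, (Submodule.Quotient.mk_eq_zero _).1 h0⟩)
  refine ⟨ω₁ ∘ₗ B.mkQ, fun c hc => ?_, fun a ha => (h₁ a ha).symm⟩
  rw [LinearMap.comp_apply, Submodule.mkQ_apply, (Submodule.Quotient.mk_eq_zero _).2 hc, map_zero]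

end

end Pool.Agent.Bet
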