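import Pool.Agent.P.MP_d34769_ag.BA2

/-! TASK BA5: gluing local isomorphisms. -/

open Set

namespace Pool.Agent.Bet

variable {C C' : Type} [AddCommGroup C] [Module ℚ C] [AddCommGroup C'] [Module ℚ C']
  [Dif C] [Dif C'] {W : Type} [TopologicalSpace W] {S : Set W}

theorem union_BA5 {𝒜 : Set W → Submodule ℚ C} {𝒜' : Set W → Submodule ℚ C'} (h : Fam S 𝒜)
    (h' : Fam S 𝒜') {f : C →ₗ[ℚ] C'} (hf : ∀ U, CMap f (𝒜 U) (𝒜' U)) {U V : Set W}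
    (hU : IsOpen U) (hV : IsOpen V) (gU : HIso f (𝒜 U) ⊥ (𝒜' U) ⊥)
    (gV : HIso f (𝒜 V) ⊥ (𝒜' V) ⊥) (gI : HIso f (𝒜 (U ∩ V)) ⊥ (𝒜' (U ∩ V)) ⊥) :
    HIso f (𝒜 (U ∪ V)) ⊥ (𝒜' (U ∪ V)) ⊥ := by
  have hb : ∀ c ∈ (⊥ : Submodule ℚ C), f c ∈ (⊥ : Submodule ℚ C') := fun c hc => by
    rw [Submodule.mem_bot] at hc ⊢; simp [hc]
  rw [h.inf, h'.inf] at gI
  have sI := (h.stb U).inf (h.stb V)
  have sI' := (h'.stb U).inf (h'.stb V)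
  have sS := (h.stb U).sup (h.stb V)
  have sS' := (h'.stb U).sup (h'.stb V)
  have le1 : 𝒜 U ⊔ 𝒜 V ≤ 𝒜 (U ∪ V) :=
    sup_le (h.mono _ _ subset_union_left) (h.mono _ _ subset_union_right)
  have le2 : 𝒜' U ⊔ 𝒜' V ≤ 𝒜' (U ∪ V) :=
    sup_le (h'.mono _ _ subset_union_left) (h'.mono _ _ subset_union_right)
  have cS : CMap f (𝒜 U ⊔ 𝒜 V) (𝒜' U ⊔ 𝒜' V) := (hf (U ∪ V)).mono le1 fun c hc => by
    obtain ⟨a, ha, b, hb, rfl⟩ := Submodule.mem_sup.1 hc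
    rw [map_add]
    exact Submodule.add_mem_sup (hf U a ha).1 (hf V b hb).1
  have i1 : HIso f (𝒜 U) (𝒜 U ⊓ 𝒜 V) (𝒜' U) (𝒜' U ⊓ 𝒜' V) :=
    five_quot ⟨inf_le_left, h.stb U, sI⟩ sI.pr_bot ⟨inf_le_left, h'.stb U, sI'⟩ sI'.pr_bot (hf U)
      (fun c hc => ⟨(hf U c hc.1).1, (hf V c hc.2).1⟩) hb gI gU
  have i2 : HIso f (𝒜 U ⊔ 𝒜 V) (𝒜 V) (𝒜' U ⊔ 𝒜' V) (𝒜' V) :=
    (hiso_sup (h.stb U) (h.stb V)).of_comp_left (cS.hmap fun c hc => (hf V c hc).1)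
      ((hiso_sup (h'.stb U) (h'.stb V)).comp i1)
  have i3 : HIso f (𝒜 U ⊔ 𝒜 V) ⊥ (𝒜' U ⊔ 𝒜' V) ⊥ :=
    five_mid ⟨le_sup_right, sS, h.stb V⟩ (h.stb V).pr_bot ⟨le_sup_right, sS', h'.stb V⟩
      (h'.stb V).pr_bot cS (fun c hc => (hf V c hc).1) hb gV i2
  exact ((h.small U V hU hV).hiso_left ⟨le1, h.stb _, sS⟩ sS.pr_bot).of_comp_left
    ((hf _).hmap hb) (((h'.small U V hU hV).hiso_left ⟨le2, h'.stb _, sS'⟩ sS'.pr_bot).comp i3)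

theorem glue {𝒜 : Set W → Submodule ℚ C} {𝒜' : Set W → Submodule ℚ C'} (h : Fam S 𝒜)
    (h' : Fam S 𝒜') {f : C →ₗ[ℚ] C'} (hf : ∀ U, CMap f (𝒜 U) (𝒜' U))
    (loc : ∀ w ∈ S, ∃ U₀, IsOpen U₀ ∧ w ∈ U₀ ∧
      ∀ U, IsOpen U → U ⊆ U₀ → HIso f (𝒜 U) ⊥ (𝒜' U) ⊥) {U : Set W} (hU : IsOpen U) :
    HIso f (𝒜 U) ⊥ (𝒜' U) ⊥ := by
  have hb : ∀ c ∈ (⊥ : Submodule ℚ C), f c ∈ (⊥ : Submodule ℚ C') := fun c hc => by
    rw [Submodule.mem_bot] at hc ⊢; simp [hc]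
  have key : ∀ K, IsCompact K → K ⊆ S → ∃ O, IsOpen O ∧ K ⊆ O ∧
      ∀ X, IsOpen X → X ⊆ O → HIso f (𝒜 X) ⊥ (𝒜' X) ⊥ := fun K hK hKS => by
    refine hK.induction_on (p := fun K => ∃ O, IsOpen O ∧ K ⊆ O ∧
      ∀ X, IsOpen X → X ⊆ O → HIso f (𝒜 X) ⊥ (𝒜' X) ⊥) ?_ ?_ ?_ ?_
    · refine ⟨∅, isOpen_empty, Subset.rfl, fun X _ hX => ?_⟩
      obtain rfl := subset_empty_iff.1 hX
      refine ⟨(hf _).hmap hb, fun z hz _ => mem_BB_of_mem (h.empty ▸ hz.1), fun y hy =>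
        ⟨0, zero_mem _, mem_BB_of_mem ?_⟩⟩
      rw [map_zero, zero_sub]
      exact neg_mem (h'.empty ▸ hy.1)
    · rintro s t hst ⟨O, h1, h2, h3⟩
      exact ⟨O, h1, hst.trans h2, h3⟩
    · rintro s t ⟨O, h1, h2, h3⟩ ⟨O', k1, k2, k3⟩
      refine ⟨O ∪ O', h1.union k1, union_subset_union h2 k2, fun X hX hXO => ?_⟩
      rw [← inter_eq_left.2 hXO, inter_union_distrib_left]
      exact union_BA5 h h' hf (hX.inter h1) (hX.inter k1) (h3 _ (hX.inter h1) inter_subset_right)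
        (k3 _ (hX.inter k1) inter_subset_right)
        (h3 _ ((hX.inter h1).inter (hX.inter k1)) fun x hx => hx.1.2)
    · intro w hw
      obtain ⟨O, h1, h2, h3⟩ := loc w (hKS hw)
      exact ⟨O, mem_nhdsWithin_of_mem_nhds (h1.mem_nhds h2), O, h1, Subset.rfl, h3⟩
  refine ⟨(hf U).hmap hb, fun z hz hfz => ?_, fun y hy => ?_⟩
  · obtain ⟨a, ha, hab⟩ := mem_BB.1 hfz
    obtain ⟨K, k1, k2, k3⟩ := h.cpt U z hz.1
    obtain ⟨K', l1, l2, l3⟩ := h'.cpt U a ha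
    obtain ⟨O, o1, o2, o3⟩ := key _ (k1.union l1)
      (union_subset (fun x hx => (k2 hx).2) fun x hx => (l2 hx).2)
    refine BB_mono (h.mono _ _ inter_subset_right) le_rfl
      ((o3 (O ∩ U) (o1.inter hU) inter_subset_left).inj z
        ⟨h.mono K (O ∩ U) (fun x hx => ⟨o2 (Or.inl hx), (k2 hx).1⟩) k3, hz.2⟩
        (mem_BB.2 ⟨a, ?_, hab⟩))
    exact h'.mono K' (O ∩ U) (fun x hx => ⟨o2 (Or.inr hx), (l2 hx).1⟩) l3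
  · obtain ⟨K, k1, k2, k3⟩ := h'.cpt U y hy.1
    obtain ⟨O, o1, o2, o3⟩ := key _ k1 fun x hx => (k2 hx).2
    obtain ⟨z, hz, hzy⟩ := (o3 (O ∩ U) (o1.inter hU) inter_subset_left).srj y
      ⟨h'.mono K (O ∩ U) (fun x hx => ⟨o2 hx, (k2 hx).1⟩) k3, hy.2⟩
    exact ⟨z, ZZ_mono (h.mono _ _ inter_subset_right) le_rfl hz,
      BB_mono (h'.mono _ _ inter_subset_right) le_rfl hzy⟩

omit [Dif C] in
theorem piS_sup_BA5 (r : ℕ) (A B : Submodule ℚ C) : piS r A ⊔ piS r B = piS r (A ⊔ B) := by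
  refine le_antisymm (sup_le (fun c hc => mem_piS.2 fun i => Submodule.mem_sup_left
    (mem_piS.1 hc i)) fun c hc => mem_piS.2 fun i => Submodule.mem_sup_right (mem_piS.1 hc i))
    fun c hc => ?_
  choose a ha b hb e using fun i => Submodule.mem_sup.1 (mem_piS.1 hc i)
  exact Submodule.mem_sup.2 ⟨a, mem_piS.2 ha, b, mem_piS.2 hb, funext e⟩

theorem Fam.piS {𝒜 : Set W → Submodule ℚ C} (h : Fam S 𝒜) (r : ℕ) :
    Fam S fun U => piS r (𝒜 U) := by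
  refine ⟨fun U c hc => mem_piS.2 fun i => h.stb U _ (mem_piS.1 hc i),
    fun U V hUV c hc => mem_piS.2 fun i => h.mono U V hUV (mem_piS.1 hc i), ?_, fun U V => ?_,
    fun U V hU hV z hz => ?_, fun U c hc => ?_⟩
  · rw [h.empty, piS_bot]
  · ext c
    simp only [h.inf, mem_piS, Submodule.mem_inf, forall_and]
  · rw [piS_sup_BA5] at hz ⊢
    choose a ha hb using fun i => mem_BB.1 (h.small U V hU hV
      (mem_ZZ.2 ⟨mem_piS.1 hz.1 i, mem_piS.1 (mem_ZZ.1 hz).2 i⟩))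
    exact mem_BB.2 ⟨a, mem_piS.2 ha, mem_piS.2 hb⟩
  · choose K k1 k2 k3 using fun i => h.cpt U _ (mem_piS.1 hc i)
    exact ⟨⋃ i, K i, isCompact_iUnion k1, iUnion_subset k2,
      mem_piS.2 fun i => h.mono _ _ (subset_iUnion K i) (k3 i)⟩

end Pool.Agent.Bet
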