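import Pool.Agent.P.MP_d34769_ag.BH3

/-! TASK BB1: orbit spaces. -/

open Set

namespace Pool.Agent.Bet

section

variable {X X' Y Y' Z : Type} [TopologicalSpace X] [TopologicalSpace X'] [TopologicalSpace Y]
  [TopologicalSpace Y'] [TopologicalSpace Z]

theorem liftOn_cont {π : X → Y} (hπ : IsOpenQuotientMap π) {A : Set X}
    (hA : ∀ x ∈ A, ∀ y, π y = π x → y ∈ A) {g : Y → Z} (hg : ContinuousOn (g ∘ π) A) :
    ContinuousOn g (π '' A) := by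
  rw [continuousOn_iff'] at hg ⊢
  intro t ht
  obtain ⟨V, hV, e⟩ := hg t ht
  refine ⟨π '' V, hπ.isOpenMap V hV, ?_⟩
  ext y
  constructor
  · rintro ⟨h1, a, ha, rfl⟩
    have h2 : a ∈ (g ∘ π) ⁻¹' t ∩ A := ⟨h1, ha⟩
    rw [e] at h2
    exact ⟨⟨a, h2.1, rfl⟩, a, ha, rfl⟩
  · rintro ⟨⟨v, hv, rfl⟩, a, ha, e'⟩
    have h2 : v ∈ V ∩ A := ⟨hv, hA a ha v e'.symm⟩
    rw [← e] at h2
    exact ⟨h2.1, a, ha, e'⟩

/-- maps which are inverse to each other modulo the fibres of two open quotient maps -/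
theorem quot_iso {π : X → Y} {π' : X' → Y'} (hπ : IsOpenQuotientMap π)
    (hπ' : IsOpenQuotientMap π') {S T : Set X} {S' T' : Set X'}
    (hS : ∀ x ∈ S, ∀ y, π y = π x → y ∈ S) (hS' : ∀ x ∈ S', ∀ y, π' y = π' x → y ∈ S')
    (hT : T ⊆ S) (hT' : T' ⊆ S') {j : X → X'} {i : X' → X} (cj : ContinuousOn j S)
    (ci : ContinuousOn i S') (m1 : MapsTo j S S') (m2 : MapsTo j T T') (m3 : MapsTo i S' S)
    (m4 : MapsTo i T' T) (wj : ∀ x ∈ S, ∀ y ∈ S, π x = π y → π' (j x) = π' (j y))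
    (wi : ∀ x ∈ S', ∀ y ∈ S', π' x = π' y → π (i x) = π (i y))
    (ij : ∀ x ∈ S, π (i (j x)) = π x) (ji : ∀ x ∈ S', π' (j (i x)) = π' x) :
    ∃ f : Y → Y', (∀ x ∈ S, f (π x) = π' (j x)) ∧ SIso f (π '' S) (π '' T) (π' '' S') (π' '' T') ∧
      SIso f (π '' S) ∅ (π' '' S') ∅ := by
  have key : ∀ {X X' Y Y' : Type} [TopologicalSpace X] [TopologicalSpace X'] [TopologicalSpace Y]
      [TopologicalSpace Y'] {π : X → Y} {π' : X' → Y'}, IsOpenQuotientMap π →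
      IsOpenQuotientMap π' → ∀ {S : Set X}, (∀ x ∈ S, ∀ y, π y = π x → y ∈ S) →
      ∀ {j : X → X'}, ContinuousOn j S → (∀ x ∈ S, ∀ y ∈ S, π x = π y → π' (j x) = π' (j y)) →
      ∃ f : Y → Y', (∀ x ∈ S, f (π x) = π' (j x)) ∧ ContinuousOn f (π '' S) := by
    intro X X' Y Y' _ _ _ _ π π' hπ hπ' S hS j cj wj
    have h1 : ∀ x ∈ S, π' (j (Function.surjInv hπ.surjective (π x))) = π' (j x) := fun x hx =>
      wj _ (hS x hx _ (Function.surjInv_eq _ _)) x hx (Function.surjInv_eq _ _)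
    refine ⟨fun y => π' (j (Function.surjInv hπ.surjective y)), h1, liftOn_cont hπ hS ?_⟩
    exact (hπ'.continuous.comp_continuousOn cj).congr h1
  obtain ⟨f, f1, f2⟩ := key hπ hπ' hS cj wj
  obtain ⟨k, k1, k2⟩ := key hπ' hπ hS' ci wi
  have a1 : MapsTo f (π '' S) (π' '' S') := by
    rintro _ ⟨x, hx, rfl⟩
    exact ⟨j x, m1 hx, (f1 x hx).symm⟩
  have a2 : MapsTo f (π '' T) (π' '' T') := by
    rintro _ ⟨x, hx, rfl⟩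
    exact ⟨j x, m2 hx, (f1 x (hT hx)).symm⟩
  have a3 : MapsTo k (π' '' S') (π '' S) := by
    rintro _ ⟨x, hx, rfl⟩
    exact ⟨i x, m3 hx, (k1 x hx).symm⟩
  have a4 : MapsTo k (π' '' T') (π '' T) := by
    rintro _ ⟨x, hx, rfl⟩
    exact ⟨i x, m4 hx, (k1 x (hT' hx)).symm⟩
  have e1 : ∀ y ∈ π '' S, k (f y) = y := by
    rintro _ ⟨x, hx, rfl⟩
    rw [f1 x hx, k1 _ (m1 hx), ij x hx]
  have e2 : ∀ y ∈ π' '' S', f (k y) = y := by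
    rintro _ ⟨x, hx, rfl⟩
    rw [k1 x hx, f1 _ (m3 hx), ji x hx]
  exact ⟨f, f1, SIso.of_inv (image_mono hT) (image_mono hT') f2 k2 a1 a2 a3 a4 e1 e2,
    SIso.of_inv (empty_subset _) (empty_subset _) f2 k2 a1 (mapsTo_empty _ _) a3
      (mapsTo_empty _ _) e1 e2⟩

end

variable {Γ Λ X Y Z : Type} [Group Γ] [Group Λ] [TopologicalSpace X] [TopologicalSpace Y]
  [TopologicalSpace Z] [MulAction Γ X] [ContinuousConstSMul Γ X] {S T A : Set X}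

omit [TopologicalSpace X] [ContinuousConstSMul Γ X] in
theorem sat_BB1 (hS : Ivt Γ S) : ∀ x ∈ S, ∀ y, qm Γ y = qm Γ x → y ∈ S := by
  intro x hx y e
  obtain ⟨γ, rfl⟩ := qm_eq.1 e
  exact hS γ x hx

omit [TopologicalSpace X] [ContinuousConstSMul Γ X] in
theorem qs_diff (hA : Ivt Γ A) : qs Γ (S \ A) = qs Γ S \ qs Γ A := by
  ext w
  constructor
  · rintro ⟨x, hx, rfl⟩
    exact ⟨⟨x, hx.1, rfl⟩, fun h => hx.2 ((mem_qs hA).1 h)⟩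
  · rintro ⟨⟨x, hx, rfl⟩, h⟩
    exact ⟨x, ⟨hx, fun h' => h ⟨x, h', rfl⟩⟩, rfl⟩

omit [TopologicalSpace X] [ContinuousConstSMul Γ X] in
theorem qs_inter (hA : Ivt Γ A) : qs Γ (S ∩ A) = qs Γ S ∩ qs Γ A := by
  ext w
  constructor
  · rintro ⟨x, hx, rfl⟩
    exact ⟨⟨x, hx.1, rfl⟩, x, hx.2, rfl⟩
  · rintro ⟨⟨x, hx, rfl⟩, h⟩
    exact ⟨x, ⟨hx, (mem_qs hA).1 h⟩, rfl⟩

theorem RO.qs (h : RO A S) (hA : Ivt Γ A) (hS : Ivt Γ S) : RO (qs Γ A) (qs Γ S) := by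
  have _hA := hA
  obtain ⟨U, hU, e⟩ := h
  refine ⟨Bet.qs Γ U, isOpenQuotientMap_qm.isOpenMap U hU, ?_⟩
  rw [e, inter_comm, qs_inter hS, inter_comm]

theorem dsc_cont (hS : Ivt Γ S) {g : X → Z} (hg : ContinuousOn g S)
    (hi : ∀ γ : Γ, ∀ x ∈ S, g (γ • x) = g x) : ContinuousOn (dsc Γ g) (qs Γ S) := by
  refine liftOn_cont isOpenQuotientMap_qm (sat_BB1 hS) ?_
  exact hg.congr fun x hx => dsc_qm fun γ => hi γ x hx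

/-- equivariant homeomorphisms, possibly only modulo orbits -/
theorem q_eqv [MulAction Λ Y] [ContinuousConstSMul Λ Y] {S' T' : Set Y} (hS : Ivt Γ S)
    (hS' : Ivt Λ S') (hT : T ⊆ S) (hT' : T' ⊆ S') {j : X → Y} {i : Y → X} (cj : ContinuousOn j S)
    (ci : ContinuousOn i S') (m1 : MapsTo j S S') (m2 : MapsTo j T T') (m3 : MapsTo i S' S)
    (m4 : MapsTo i T' T) (wj : ∀ γ : Γ, ∀ x ∈ S, ∃ l : Λ, l • j x = j (γ • x))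
    (wi : ∀ l : Λ, ∀ y ∈ S', ∃ γ : Γ, γ • i y = i (l • y))
    (ij : ∀ x ∈ S, ∃ γ : Γ, γ • x = i (j x)) (ji : ∀ y ∈ S', ∃ l : Λ, l • y = j (i y)) :
    SIso (dsc Γ fun x => qm Λ (j x)) (qs Γ S) (qs Γ T) (qs Λ S') (qs Λ T') ∧
      SIso (dsc Γ fun x => qm Λ (j x)) (qs Γ S) ∅ (qs Λ S') ∅ ∧
      Eqv (qs Γ S) (qs Γ T) (qs Λ S') (qs Λ T') := by
  obtain ⟨f, f1, f2, f3⟩ := quot_iso (π := qm Γ) (π' := qm Λ) isOpenQuotientMap_qm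
    isOpenQuotientMap_qm (sat_BB1 hS) (sat_BB1 hS') hT hT' cj ci m1 m2 m3 m4
    (by
      intro x _ y hy e
      obtain ⟨γ, rfl⟩ := qm_eq.1 e
      exact qm_eq.2 (wj γ y hy))
    (by
      intro x _ y hy e
      obtain ⟨γ, rfl⟩ := qm_eq.1 e
      exact qm_eq.2 (wi γ y hy))
    (fun x hx => qm_eq.2 (ij x hx)) (fun y hy => qm_eq.2 (ji y hy))
  have e : EqOn f (dsc Γ fun x => qm Λ (j x)) (qs Γ S) := by
    rintro _ ⟨x, hx, rfl⟩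
    rw [f1 x hx]
    exact (dsc_qm (g := fun x => qm Λ (j x)) fun γ => qm_eq.2 (wj γ x hx)).symm
  exact ⟨f2.congr e, f3.congr e, f2.eqv f3⟩

/-- an equivariant homotopy descends -/
theorem q_htp [MulAction Λ Y] {S' : Set Y} (hS : Ivt Γ S) {H : ℝ → X → Y} (hH : Htp H S S')
    (he : ∀ t ∈ Icc (0 : ℝ) 1, ∀ γ : Γ, ∀ x ∈ S, ∃ l : Λ, l • H t x = H t (γ • x)) :
    Htp (fun t => dsc Γ fun x => qm Λ (H t x)) (qs Γ S) (qs Λ S') := by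
  have e : ∀ t ∈ Icc (0 : ℝ) 1, ∀ x ∈ S,
      dsc Γ (fun x => qm Λ (H t x)) (qm Γ x) = qm Λ (H t x) := fun t ht x hx =>
    dsc_qm (g := fun x => qm Λ (H t x)) fun γ => qm_eq.2 (he t ht γ x hx)
  constructor
  · have h1 : IsOpenQuotientMap (Prod.map (id : ℝ → ℝ) (qm Γ : X → Q Γ X)) :=
      IsOpenQuotientMap.id.prodMap isOpenQuotientMap_qm
    have h2 : Icc (0 : ℝ) 1 ×ˢ qs Γ S =
        Prod.map (id : ℝ → ℝ) (qm Γ : X → Q Γ X) '' (Icc (0 : ℝ) 1 ×ˢ S) := by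
      rw [prodMap_image_prod, image_id]
      rfl
    rw [h2]
    refine liftOn_cont h1 ?_ ?_
    · rintro ⟨t, x⟩ hx ⟨t', y⟩ e'
      obtain ⟨e1, e2⟩ := Prod.ext_iff.1 e'
      have e3 : t' = t := e1
      exact ⟨e3 ▸ hx.1, sat_BB1 hS x hx.2 y e2⟩
    · exact ((continuous_qm (Γ := Λ)).comp_continuousOn hH.cont).congr fun p hp =>
        e p.1 hp.1 p.2 hp.2
  · rintro t ht _ ⟨x, hx, rfl⟩
    exact ⟨H t x, hH.map t ht hx, (e t ht x hx).symm⟩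

/-- an equivariant deformation -/
theorem q_def {S₀ T₀ : Set X} (hS : Ivt Γ S) (h1 : S₀ ⊆ S) (h2 : T₀ ⊆ T) (h3 : T ⊆ S)
    (h4 : T₀ ⊆ S₀) {H : ℝ → X → X} (hH : Htp H S S)
    (he : ∀ t ∈ Icc (0 : ℝ) 1, ∀ γ : Γ, ∀ x ∈ S, H t (γ • x) = γ • H t x)
    (t1 : ∀ t ∈ Icc (0 : ℝ) 1, MapsTo (H t) T T) (t2 : ∀ t ∈ Icc (0 : ℝ) 1, MapsTo (H t) S₀ S₀)
    (t3 : ∀ t ∈ Icc (0 : ℝ) 1, MapsTo (H t) T₀ T₀) (e0 : ∀ x ∈ S, H 0 x = x)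
    (m1 : MapsTo (H 1) S S₀) (m2 : MapsTo (H 1) T T₀) :
    SIso id (qs Γ S₀) (qs Γ T₀) (qs Γ S) (qs Γ T) := by
  have he' : ∀ t ∈ Icc (0 : ℝ) 1, ∀ γ : Γ, ∀ x ∈ S, ∃ l : Γ, l • H t x = H t (γ • x) :=
    fun t ht γ x hx => ⟨γ, (he t ht γ x hx).symm⟩
  have e : ∀ t ∈ Icc (0 : ℝ) 1, ∀ x ∈ S,
      dsc Γ (fun x => qm Γ (H t x)) (qm Γ x) = qm Γ (H t x) := fun t ht x hx =>
    dsc_qm (g := fun x => qm Γ (H t x)) fun γ => qm_eq.2 (he' t ht γ x hx)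
  have mp : ∀ t ∈ Icc (0 : ℝ) 1, ∀ {B B' : Set X}, B ⊆ S → MapsTo (H t) B B' →
      MapsTo (dsc Γ fun x => qm Γ (H t x)) (qs Γ B) (qs Γ B') := by
    rintro t ht B B' hB hm _ ⟨x, hx, rfl⟩
    exact ⟨H t x, hm hx, (e t ht x (hB hx)).symm⟩
  have o1 : (1 : ℝ) ∈ Icc (0 : ℝ) 1 := ⟨zero_le_one, le_rfl⟩
  refine SIso.of_def (qs_mono h1) (qs_mono h2) (qs_mono h3) (qs_mono h4) (q_htp hS hH he')
    (fun t ht => mp t ht h3 (t1 t ht)) (fun t ht => mp t ht h1 (t2 t ht))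
    (fun t ht => mp t ht (h2.trans h3) (t3 t ht)) ?_ (mp 1 o1 Subset.rfl m1) (mp 1 o1 h3 m2)
  rintro _ ⟨x, hx, rfl⟩
  show dsc Γ (fun x => qm Γ (H 0 x)) (qm Γ x) = qm Γ x
  rw [e 0 ⟨le_rfl, zero_le_one⟩ x hx, e0 x hx]

/-- equivariant excision -/
theorem q_exc {S₁ : Set X} (hS : Ivt Γ S) (hS₁ : Ivt Γ S₁) (hA : Ivt Γ A) (h1 : RO S₁ S)
    (h2 : RO (S \ A) S) (h3 : S ∩ A ⊆ S₁) :
    SIso id (qs Γ S₁) (qs Γ (S₁ \ A)) (qs Γ S) (qs Γ (S \ A)) := by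
  have h4 := h2.qs (hS.diff hA) hS
  rw [qs_diff hA] at h4
  rw [qs_diff hA, qs_diff hA]
  refine SIso.exc (h1.qs hS₁ hS) h4 ?_
  rw [← qs_inter hA]
  exact qs_mono h3

/-- equivariant excision, product form -/
theorem q_exc_prod [MulAction Γ Y] [ContinuousConstSMul Γ Y] {S₁ : Set X} {E : Set Y}
    (hE : Ivt Γ E) (hS : Ivt Γ S) (hS₁ : Ivt Γ S₁) (hA : Ivt Γ A) (h1 : RO S₁ S)
    (h2 : RO (S \ A) S) (h3 : S ∩ A ⊆ S₁) :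
    SIso id (qs Γ (S₁ ×ˢ E)) (qs Γ ((S₁ \ A) ×ˢ E)) (qs Γ (S ×ˢ E)) (qs Γ ((S \ A) ×ˢ E)) := by
  have e : ∀ B : Set X, (B \ A) ×ˢ E = (B ×ˢ E) \ (A ×ˢ E) := by
    intro B
    ext p
    constructor
    · rintro ⟨⟨a1, a2⟩, a3⟩
      exact ⟨⟨a1, a3⟩, fun h => a2 h.1⟩
    · rintro ⟨⟨a1, a3⟩, a2⟩
      exact ⟨⟨a1, fun h => a2 ⟨h, a3⟩⟩, a3⟩
  have h4 := h2.prod (RO.refl E)
  rw [e] at h4
  rw [e, e]
  exact q_exc (hS.prod hE) (hS₁.prod hE) (hA.prod hE) (h1.prod (RO.refl E)) h4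
    fun p hp => ⟨h3 ⟨hp.1.1, hp.2.1⟩, hp.1.2⟩

end Pool.Agent.Bet
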