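import Pool.Agent.P.MP_d34769_ag.BB1

/-! TASK BB2: induction from a subgroup of a compact group, principal actions. -/

open Set

namespace Pool.Agent.Bet

theorem q_ind {𝔾 X : Type} [Group 𝔾] [TopologicalSpace 𝔾] [TopologicalSpace X] [MulAction 𝔾 X]
    [ContinuousSMul 𝔾 X] {Λ Γ : Subgroup 𝔾} (h : Λ ≤ Γ) [CompactSpace Γ] {S S₀ T : Set X}
    (hS : Ivt Γ S) (hS₀ : Ivt Λ S₀) (hT : Ivt Γ T) (h0 : S₀ ⊆ S) (h1 : T ⊆ S)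
    (hc : RO (S \ S₀) S) (cov : ∀ x ∈ S, ∃ γ : Γ, γ • x ∈ S₀)
    (stab : ∀ γ : Γ, ∀ x ∈ S₀, γ • x ∈ S₀ → ∃ l : Λ, l • x = γ • x) :
    Eqv (qs Λ S₀) (qs Λ (S₀ ∩ T)) (qs Γ S) (qs Γ T) := by
  classical
  set G : X → Q Λ X := fun x => qm Λ (if e : ∃ γ : Γ, γ • x ∈ S₀ then e.choose • x else x) with hG
  have key : ∀ x, ∀ γ : Γ, γ • x ∈ S₀ → G x = qm Λ (γ • x) := by
    intro x γ hγ
    have e : ∃ γ : Γ, γ • x ∈ S₀ := ⟨γ, hγ⟩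
    have e1 : (γ * e.choose⁻¹) • e.choose • x = γ • x := by rw [mul_smul, inv_smul_smul]
    obtain ⟨l, hl⟩ := stab (γ * e.choose⁻¹) _ e.choose_spec (e1.symm ▸ hγ)
    rw [hG]
    simp only [dif_pos e]
    rw [← e1, ← hl, qm_smul]
  have inv : ∀ δ : Γ, ∀ x ∈ S, G (δ • x) = G x := by
    intro δ x hx
    obtain ⟨γ, hγ⟩ := cov _ (hS δ x hx)
    rw [key _ γ hγ, key x (γ * δ) (by rwa [mul_smul]), mul_smul]
  have cG : ContinuousOn G S := by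
    obtain ⟨U, hU, eU⟩ := hc
    refine continuousOn_iff_isClosed.2 fun t ht => ⟨Prod.snd '' {p : Γ × X |
      p.1 • p.2 ∈ qm Λ ⁻¹' t ∩ Uᶜ}, isClosedMap_snd_of_compactSpace _ ?_, ?_⟩
    · exact ((ht.preimage continuous_qm).inter hU.isClosed_compl).preimage continuous_smul
    · ext x
      refine and_congr_left fun hx => ⟨fun hx' => ?_, ?_⟩
      · obtain ⟨γ, hγ⟩ := cov x hx
        refine ⟨(γ, x), ⟨?_, fun hu => ?_⟩, rfl⟩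
        · show qm Λ (γ • x) ∈ t
          rw [← key x γ hγ]
          exact hx'
        · have : γ • x ∈ S \ S₀ := eU ▸ ⟨h0 hγ, hu⟩
          exact this.2 hγ
      · rintro ⟨⟨γ, y⟩, ⟨a1, a2⟩, rfl⟩
        have a3 : γ • y ∈ S₀ := by
          by_contra a4
          have : γ • y ∈ S ∩ U := eU ▸ ⟨hS γ y hx, a4⟩
          exact a2 this.2
        show G y ∈ t
        rw [key y γ a3]
        exact a1
  have fl : ∀ l : Λ, ∀ x : X, qm Γ (l • x) = qm Γ x := fun l x => qm_smul (⟨l, h l.2⟩ : Γ) x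
  have ef : ∀ x, dsc Λ (qm Γ) (qm Λ x) = qm Γ x := fun x => dsc_qm fun l => fl l x
  have eg : ∀ x ∈ S, dsc Γ G (qm Γ x) = G x := fun x hx => dsc_qm fun γ => inv γ x hx
  have cf : ContinuousOn (dsc Λ (qm Γ : X → Q Γ X)) (qs Λ S₀) :=
    dsc_cont hS₀ continuous_qm.continuousOn fun l x _ => fl l x
  have cg : ContinuousOn (dsc Γ G) (qs Γ S) := dsc_cont hS cG inv
  have m1 : MapsTo (dsc Λ (qm Γ : X → Q Γ X)) (qs Λ S₀) (qs Γ S) := by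
    rintro _ ⟨x, hx, rfl⟩
    exact ⟨x, h0 hx, (ef x).symm⟩
  have m2 : MapsTo (dsc Λ (qm Γ : X → Q Γ X)) (qs Λ (S₀ ∩ T)) (qs Γ T) := by
    rintro _ ⟨x, hx, rfl⟩
    exact ⟨x, hx.2, (ef x).symm⟩
  have m3 : MapsTo (dsc Γ G) (qs Γ S) (qs Λ S₀) := by
    rintro _ ⟨x, hx, rfl⟩
    obtain ⟨γ, hγ⟩ := cov x hx
    exact ⟨γ • x, hγ, by rw [eg x hx, key x γ hγ]⟩
  have m4 : MapsTo (dsc Γ G) (qs Γ T) (qs Λ (S₀ ∩ T)) := by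
    rintro _ ⟨x, hx, rfl⟩
    obtain ⟨γ, hγ⟩ := cov x (h1 hx)
    exact ⟨γ • x, ⟨hγ, hT γ x hx⟩, by rw [eg x (h1 hx), key x γ hγ]⟩
  have e1 : ∀ w ∈ qs Λ S₀, dsc Γ G (dsc Λ (qm Γ) w) = w := by
    rintro _ ⟨x, hx, rfl⟩
    rw [ef, eg x (h0 hx), key x 1 (by rwa [one_smul]), one_smul]
  have e2 : ∀ w ∈ qs Γ S, dsc Λ (qm Γ) (dsc Γ G w) = w := by
    rintro _ ⟨x, hx, rfl⟩
    obtain ⟨γ, hγ⟩ := cov x hx
    rw [eg x hx, key x γ hγ, ef, qm_smul]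
  exact (SIso.of_inv (qs_mono inter_subset_left) (qs_mono h1) cf cg m1 m2 m3 m4 e1 e2).eqv
    (SIso.of_inv (empty_subset _) (empty_subset _) cf cg m1 (mapsTo_empty _ _) m3
      (mapsTo_empty _ _) e1 e2)

variable {Γ X Y : Type} [Group Γ] [TopologicalSpace Γ] [TopologicalSpace X] [TopologicalSpace Y]
  [MulAction Γ X] [MulAction Γ Y]

theorem Prin.pull {S : Set X} {S' : Set Y} (h : Prin Γ S') (hS : Ivt Γ S) {r : X → Y}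
    (cr : ContinuousOn r S) (m : MapsTo r S S') (he : ∀ γ : Γ, ∀ x ∈ S, r (γ • x) = γ • r x) :
    Prin Γ S := by
  intro x₀ hx₀
  obtain ⟨U', hU', m', τ, cτ, eτ⟩ := h (r x₀) (m hx₀)
  obtain ⟨U, hU, eU⟩ := continuousOn_iff'.1 cr U' hU'
  have a : ∀ x ∈ S, r x ∈ U' ↔ x ∈ U := fun x hx =>
    ⟨fun hr => (eU ▸ ⟨hr, hx⟩ : x ∈ U ∩ S).1, fun hr => (eU ▸ ⟨hr, hx⟩ : x ∈ r ⁻¹' U' ∩ S).1⟩
  refine ⟨U, hU, (a x₀ hx₀).1 m', τ ∘ r, cτ.comp (cr.mono inter_subset_left)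
    fun x hx => ⟨m hx.1, (a x hx.1).2 hx.2⟩, fun γ x hx => ?_⟩
  obtain ⟨b1, b2⟩ := eτ γ (r x) ⟨m hx.1, (a x hx.1).2 hx.2⟩
  rw [← he γ x hx.1] at b1 b2
  exact ⟨(a _ (hS γ x hx.1)).1 b1, b2⟩

theorem Prin.prod_right {S : Set X} {E : Set Y} (h : Prin Γ E) : Prin Γ (S ×ˢ E) := by
  intro x₀ hx₀
  obtain ⟨U, hU, m, τ, cτ, eτ⟩ := h x₀.2 hx₀.2
  exact ⟨Prod.snd ⁻¹' U, hU.preimage continuous_snd, m, τ ∘ Prod.snd,
    cτ.comp continuous_snd.continuousOn fun x hx => ⟨hx.1.2, hx.2⟩,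
    fun γ x hx => eτ γ x.2 ⟨hx.1.2, hx.2⟩⟩

theorem Prin.prod_left {S : Set X} {E : Set Y} (h : Prin Γ S) : Prin Γ (S ×ˢ E) := by
  intro x₀ hx₀
  obtain ⟨U, hU, m, τ, cτ, eτ⟩ := h x₀.1 hx₀.1
  exact ⟨Prod.fst ⁻¹' U, hU.preimage continuous_fst, m, τ ∘ Prod.fst,
    cτ.comp continuous_fst.continuousOn fun x hx => ⟨hx.1.1, hx.2⟩,
    fun γ x hx => eτ γ x.1 ⟨hx.1.1, hx.2⟩⟩

theorem Prin.mono {S T : Set X} (h : Prin Γ S) (hT : T ⊆ S) : Prin Γ T := by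
  intro x₀ hx₀
  obtain ⟨U, hU, m, τ, cτ, eτ⟩ := h x₀ (hT hx₀)
  exact ⟨U, hU, m, τ, cτ.mono (inter_subset_inter_left _ hT),
    fun γ x hx => eτ γ x ⟨hT hx.1, hx.2⟩⟩

theorem Prin.free {S : Set X} (h : Prin Γ S) {x : X} (hx : x ∈ S) {γ : Γ} (e : γ • x = x) :
    γ = 1 := by
  obtain ⟨U, -, m, τ, -, eτ⟩ := h x hx
  have := (eτ γ x ⟨hx, m⟩).2
  rw [e] at this
  exact mul_eq_right.1 this.symm

end Pool.Agent.Bet
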