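import Pool.Agent.P.MP_d34769_ag.BH2b
import Pool.Agent.P.MP_d34769_ag.BA5

/-! TASK BH6: locally trivial maps with contractible fibre. -/

open Set

namespace Pool.Agent.Bet

variable {Y W F : Type} [TopologicalSpace Y] [TopologicalSpace W] [TopologicalSpace F]

theorem fib {p : Y → W} {S' : Set Y} {S : Set W} (C : Set F) [ContractibleSpace C]
    (hp : ContinuousOn p S') (hm : MapsTo p S' S)
    (loc : ∀ w ∈ S, ∃ U, IsOpen U ∧ w ∈ U ∧ ∃ (φ : Y → F) (ψ : W × F → Y),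
      ContinuousOn φ (S' ∩ p ⁻¹' U) ∧ MapsTo φ (S' ∩ p ⁻¹' U) C ∧
      ContinuousOn ψ ((S ∩ U) ×ˢ C) ∧ MapsTo ψ ((S ∩ U) ×ˢ C) S' ∧
      (∀ x ∈ (S ∩ U) ×ˢ C, p (ψ x) = x.1) ∧ ∀ y ∈ S' ∩ p ⁻¹' U, ψ (p y, φ y) = y) :
    SIso p S' ∅ S ∅ := by
  refine ⟨hp, empty_subset _, empty_subset _, hm, mapsTo_empty _ _, fun B _ => ?_⟩
  obtain ⟨x₀, hx₀, H, hH, h0, h1⟩ := exists_htp C
  have cP : ContinuousOn (Prod.map id p : B × Y → B × W) (up B S') :=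
    continuousOn_fst.prodMk (hp.comp continuousOn_snd fun _ hx => hx)
  have mP : MapsTo (Prod.map id p : B × Y → B × W) (up B S') (up B S) := fun _ hx => hm hx
  have key := glue (fam_cn cP mP) (fam_cn (p := id) continuousOn_id (mapsTo_id (up B S)))
    (f := pu (Prod.map id p)) (fun U => cmap_pu (cP.mono inter_subset_left)
      fun _ hx => ⟨mP hx.1, hx.2⟩) (fun w hw => ?_) isOpen_univ
  · simpa using key
  obtain ⟨U, hU, hwU, φ, ψ, cφ, mφ, cψ, mψ, e1, e2⟩ := loc w.2 hw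
  refine ⟨Prod.snd ⁻¹' U, hU.preimage continuous_snd, hwU, fun V _ hV => ?_⟩
  have a1 : ∀ y ∈ up B S' ∩ Prod.map id p ⁻¹' V, y.2 ∈ S' ∩ p ⁻¹' U := fun y hy => ⟨hy.1, hV hy.2⟩
  have a2 : ∀ z ∈ up B S ∩ id ⁻¹' V, (z.2, x₀) ∈ (S ∩ U) ×ˢ C := fun z hz =>
    ⟨⟨hz.1, hV hz.2⟩, hx₀⟩
  have a3 : ∀ t ∈ Icc (0 : ℝ) 1, ∀ y ∈ up B S' ∩ Prod.map id p ⁻¹' V,
      (p y.2, H t (φ y.2)) ∈ (S ∩ U) ×ˢ C := fun t ht y hy =>
    ⟨⟨hm hy.1, hV hy.2⟩, hH.map t ht (mφ (a1 y hy))⟩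
  have := hiso_of_he (f := (Prod.map id p : B × Y → B × W))
    (S := up B S' ∩ Prod.map id p ⁻¹' V) (T := ∅) (S' := up B S ∩ id ⁻¹' V) (T' := ∅)
    (k := fun z => (z.1, ψ (z.2, x₀))) (H := fun t y => (y.1, ψ (p y.2, H t (φ y.2))))
    (H' := fun _ z => z) (empty_subset _) (empty_subset _) (cP.mono inter_subset_left)
    (continuousOn_fst.prodMk (cψ.comp (continuousOn_snd.prodMk continuousOn_const) a2))
    (fun _ hx => ⟨mP hx.1, hx.2⟩) (mapsTo_empty _ _)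
    (fun z hz => ⟨mψ (a2 z hz), by
      show (z.1, p (ψ (z.2, x₀))) ∈ V
      rw [e1 _ (a2 z hz)]; exact hz.2⟩) (mapsTo_empty _ _)
    ⟨?_, fun t ht y hy => ⟨mψ (a3 t ht y hy), by
      show (y.1, p (ψ (p y.2, H t (φ y.2)))) ∈ V
      rw [e1 _ (a3 t ht y hy)]; exact hy.2⟩⟩ ⟨continuousOn_snd, fun _ _ => mapsTo_id _⟩
    (fun _ _ => mapsTo_empty _ _) (fun _ _ => mapsTo_empty _ _)
    (fun y hy => by simp only [h0 _ (mφ (a1 y hy)), e2 _ (a1 y hy)])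
    (fun y hy => by simp only [h1 _ (mφ (a1 y hy))]; rfl) (fun _ _ => rfl)
    (fun z hz => by
      show z = (z.1, p (ψ (z.2, x₀)))
      rw [e1 _ (a2 z hz)])
  · simpa only [cn_empty] using this
  · have c2 : ContinuousOn (fun q : ℝ × B × Y => q.2.2)
        (Icc 0 1 ×ˢ (up B S' ∩ Prod.map id p ⁻¹' V)) := continuous_snd.snd.continuousOn
    refine continuous_snd.fst.continuousOn.prodMk (cψ.comp (ContinuousOn.prodMk ?_ ?_)
      fun q hq => a3 q.1 hq.1 q.2 hq.2)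
    · exact hp.comp c2 fun q hq => hq.2.1
    · exact hH.cont.comp (continuousOn_fst.prodMk (cφ.comp c2 fun q hq => a1 q.2 hq.2))
        fun q hq => ⟨hq.1, mφ (a1 q.2 hq.2)⟩

end Pool.Agent.Bet
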