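import Pool.Agent.P.MP_d34769_ag.BB2
import Pool.Agent.P.MP_d34769_ag.BH6

/-! TASK BB3: contractible fibres over principal actions, change of the model. -/

open Set

namespace Pool.Agent.Bet

variable {Γ X Y Y' : Type} [Group Γ] [TopologicalSpace Γ] [IsTopologicalGroup Γ]
  [TopologicalSpace X] [TopologicalSpace Y] [TopologicalSpace Y'] [MulAction Γ X] [MulAction Γ Y]
  [MulAction Γ Y'] [ContinuousSMul Γ X] [ContinuousSMul Γ Y] [ContinuousSMul Γ Y']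
  {S : Set X} {E : Set Y} {E' : Set Y'}

theorem fst_qm_BB3 {Γ X Y : Type} [Group Γ] [MulAction Γ X] [MulAction Γ Y] (x : X × Y) :
    dsc Γ (fun x : X × Y => qm Γ x.1) (qm Γ x) = qm Γ x.1 :=
  dsc_qm (g := fun x : X × Y => qm Γ x.1) fun γ => qm_smul γ x.1

theorem q_fib (hS : Ivt Γ S) (hP : Prin Γ S) (hE : Ivt Γ E) [ContractibleSpace E] :
    SIso (dsc Γ fun x : X × Y => qm Γ x.1) (qs Γ (S ×ˢ E)) ∅ (qs Γ S) ∅ := by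
  refine fib E (dsc_cont (hS.prod hE) (continuous_qm.comp continuous_fst).continuousOn
    fun γ x _ => qm_smul γ x.1) ?_ ?_
  · rintro _ ⟨x, hx, rfl⟩
    rw [fst_qm_BB3]
    exact ⟨x.1, hx.1, rfl⟩
  rintro _ ⟨x₀, hx₀, rfl⟩
  obtain ⟨U, hU, hxU, τ, cτ, hτ⟩ := hP x₀ hx₀
  have hA : Ivt Γ (S ∩ U) := fun γ x hx => ⟨hS γ x hx.1, (hτ γ x hx).1⟩
  have key : ∀ x ∈ S, qm Γ x ∈ qm Γ '' U → x ∈ S ∩ U := by
    rintro x hx ⟨u, hu, e⟩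
    have h1 : u ∈ S := (mem_qs hS).1 ⟨x, hx, e.symm⟩
    exact (mem_qs hA).1 ⟨u, ⟨h1, hu⟩, e⟩
  have key1 : ∀ w ∈ qs Γ S ∩ qm Γ '' U, ∃ x ∈ S ∩ U, qm Γ x = w := by
    rintro _ ⟨⟨x, hx, rfl⟩, h⟩
    exact ⟨x, key x hx h, rfl⟩
  have key2 : ∀ w ∈ qs Γ (S ×ˢ E) ∩ (dsc Γ fun x : X × Y => qm Γ x.1) ⁻¹' (qm Γ '' U),
      ∃ x ∈ (S ∩ U) ×ˢ E, qm Γ x = w := by
    rintro _ ⟨⟨x, hx, rfl⟩, h⟩
    rw [mem_preimage, fst_qm_BB3] at h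
    exact ⟨x, ⟨key x.1 hx.1 h, hx.2⟩, rfl⟩
  have iφ : ∀ γ : Γ, ∀ x ∈ (S ∩ U) ×ˢ E,
      (τ (γ • x).1)⁻¹ • (γ • x).2 = (τ x.1)⁻¹ • x.2 := by
    intro γ x hx
    rw [Prod.smul_fst, Prod.smul_snd, (hτ γ x.1 hx.1).2, mul_inv_rev, mul_smul, inv_smul_smul]
  have eφ : ∀ x ∈ (S ∩ U) ×ˢ E,
      dsc Γ (fun z : X × Y => (τ z.1)⁻¹ • z.2) (qm Γ x) = (τ x.1)⁻¹ • x.2 :=
    fun x hx => dsc_qm (g := fun z : X × Y => (τ z.1)⁻¹ • z.2) fun γ => iφ γ x hx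
  have eψ : ∀ x ∈ S ∩ U, ∀ y : Y,
      dsc Γ (fun x : X => qm Γ (x, τ x • y)) (qm Γ x) = qm Γ (x, τ x • y) := by
    intro x hx y
    refine dsc_qm (g := fun x : X => qm Γ (x, τ x • y)) fun γ => ?_
    rw [(hτ γ x hx).2, mul_smul]
    exact qm_smul γ (x, τ x • y)
  have cτ' : ContinuousOn (fun z : X × Y => τ z.1) ((S ∩ U) ×ˢ E) :=
    cτ.comp continuous_fst.continuousOn fun _ hz => hz.1
  refine ⟨qm Γ '' U, isOpenQuotientMap_qm.isOpenMap U hU, ⟨x₀, hxU, rfl⟩,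
    dsc Γ (fun z : X × Y => (τ z.1)⁻¹ • z.2),
    fun z => dsc Γ (fun x : X => qm Γ (x, τ x • z.2)) z.1, ?_, ?_, ?_, ?_, ?_, ?_⟩
  · exact (dsc_cont (hA.prod hE) (cτ'.inv.smul continuous_snd.continuousOn) iφ).mono key2
  · intro w hw
    obtain ⟨x, hx, rfl⟩ := key2 w hw
    rw [eφ x hx]
    exact hE _ _ hx.2
  · have h1 := liftOn_cont (π := Prod.map (qm Γ) id) (A := (S ∩ U) ×ˢ E)
      (isOpenQuotientMap_qm.prodMap IsOpenQuotientMap.id)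
      (g := fun z : Q Γ X × Y => dsc Γ (fun x : X => qm Γ (x, τ x • z.2)) z.1) ?_ ?_
    · refine h1.mono ?_
      rintro ⟨w, y⟩ ⟨hw, hy⟩
      obtain ⟨x, hx, rfl⟩ := key1 w hw
      exact ⟨(x, y), ⟨hx, hy⟩, rfl⟩
    · intro x hx y e
      have e1 : qm Γ y.1 = qm Γ x.1 := congrArg Prod.fst e
      have e2 : y.2 = x.2 := (Prod.ext_iff.1 e).2
      exact ⟨(mem_qs hA).1 ⟨x.1, hx.1, e1.symm⟩, e2 ▸ hx.2⟩
    · refine ContinuousOn.congr (f := fun z : X × Y => qm Γ (z.1, τ z.1 • z.2)) ?_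
        fun z hz => eψ z.1 hz.1 z.2
      exact continuous_qm.comp_continuousOn
        (continuous_fst.continuousOn.prodMk (cτ'.smul continuous_snd.continuousOn))
  · rintro ⟨w, y⟩ ⟨hw, hy⟩
    obtain ⟨x, hx, rfl⟩ := key1 w hw
    exact ⟨(x, τ x • y), ⟨hx.1, hE _ _ hy⟩, (eψ x hx y).symm⟩
  · rintro ⟨w, y⟩ ⟨hw, -⟩
    obtain ⟨x, hx, rfl⟩ := key1 w hw
    simp only
    rw [eψ x hx y, fst_qm_BB3]
  · intro w hw
    obtain ⟨x, hx, rfl⟩ := key2 w hw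
    simp only
    rw [fst_qm_BB3, eφ x hx, eψ x.1 hx.1, smul_inv_smul]

omit [IsTopologicalGroup Γ] in
theorem swap_BB3 (hS : Ivt Γ S) (hE : Ivt Γ E) (hE' : Ivt Γ E') :
    SIso (dsc Γ fun x : (X × Y) × Y' => qm Γ ((x.1.1, x.2), x.1.2)) (qs Γ ((S ×ˢ E) ×ˢ E')) ∅
      (qs Γ ((S ×ˢ E') ×ˢ E)) ∅ :=
  (q_eqv (T := ∅) (T' := ∅) (j := fun x : (X × Y) × Y' => ((x.1.1, x.2), x.1.2))
    (i := fun x : (X × Y') × Y => ((x.1.1, x.2), x.1.2)) ((hS.prod hE).prod hE')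
    ((hS.prod hE').prod hE) (empty_subset _) (empty_subset _) (by fun_prop) (by fun_prop)
    (fun _ hx => ⟨⟨hx.1.1, hx.2⟩, hx.1.2⟩) (mapsTo_empty _ _)
    (fun _ hx => ⟨⟨hx.1.1, hx.2⟩, hx.1.2⟩) (mapsTo_empty _ _) (fun γ _ _ => ⟨γ, rfl⟩)
    (fun γ _ _ => ⟨γ, rfl⟩) (fun x _ => ⟨1, one_smul _ x⟩) (fun x _ => ⟨1, one_smul _ x⟩)).2.1

theorem q_chg (hS : Ivt Γ S) (hE : Ivt Γ E) (hE' : Ivt Γ E') [ContractibleSpace E]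
    [ContractibleSpace E'] (hP : Prin Γ (S ×ˢ E)) (hP' : Prin Γ (S ×ˢ E')) :
    Eqv (qs Γ (S ×ˢ E)) ∅ (qs Γ (S ×ˢ E')) ∅ :=
  (q_fib (hS.prod hE) hP hE').eqv_empty.symm.trans
    ((q_fib (hS.prod hE') hP' hE).comp (swap_BB3 hS hE hE')).eqv_empty

theorem q_abs (hS : Ivt Γ S) (hE : Ivt Γ E) (hE' : Ivt Γ E') [ContractibleSpace E]
    [ContractibleSpace E'] (hP : Prin Γ (S ×ˢ E)) (hP' : Prin Γ (S ×ˢ E')) {α : X × Y → Y'}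
    (cα : ContinuousOn α (S ×ˢ E)) (m : MapsTo α (S ×ˢ E) E')
    (he : ∀ γ : Γ, ∀ x ∈ S ×ˢ E, α (γ • x) = γ • α x) :
    SIso (dsc Γ fun x : X × Y => qm Γ (x.1, α x)) (qs Γ (S ×ˢ E)) ∅ (qs Γ (S ×ˢ E')) ∅ := by
  have i1 : ∀ γ : Γ, ∀ x ∈ S ×ˢ E, qm Γ (γ • x, α (γ • x)) = qm Γ (x, α x) := by
    intro γ x hx
    rw [he γ x hx]
    exact qm_smul γ (x, α x)
  have e1 : ∀ x ∈ S ×ˢ E, dsc Γ (fun x : X × Y => qm Γ (x, α x)) (qm Γ x) = qm Γ (x, α x) :=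
    fun x hx => dsc_qm (g := fun x : X × Y => qm Γ (x, α x)) fun γ => i1 γ x hx
  have h1 : SIso (dsc Γ fun x : X × Y => qm Γ (x, α x)) (qs Γ (S ×ˢ E)) ∅
      (qs Γ ((S ×ˢ E) ×ˢ E')) ∅ := by
    refine SIso.of_comp_right (dsc_cont (hS.prod hE)
      (continuous_qm.comp_continuousOn (continuousOn_id.prodMk cα)) i1) ?_ (mapsTo_empty _ _)
      (q_fib (hS.prod hE) hP hE') ((SIso.refl (empty_subset _)).congr ?_)
    · rintro _ ⟨x, hx, rfl⟩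
      exact ⟨(x, α x), ⟨hx, m hx⟩, (e1 x hx).symm⟩
    · rintro _ ⟨x, hx, rfl⟩
      rw [Function.comp_apply, e1 x hx, fst_qm_BB3]
      rfl
  refine (((q_fib (hS.prod hE') hP' hE).comp (swap_BB3 hS hE hE')).comp h1).congr ?_
  rintro _ ⟨x, hx, rfl⟩
  have e2 : dsc Γ (fun x : (X × Y) × Y' => qm Γ ((x.1.1, x.2), x.1.2)) (qm Γ (x, α x)) =
      qm Γ ((x.1, α x), x.2) :=
    dsc_qm (g := fun x : (X × Y) × Y' => qm Γ ((x.1.1, x.2), x.1.2)) fun γ =>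
      qm_smul γ ((x.1, α x), x.2)
  have e3 : dsc Γ (fun x : X × Y => qm Γ (x.1, α x)) (qm Γ x) = qm Γ (x.1, α x) := by
    refine dsc_qm (g := fun x : X × Y => qm Γ (x.1, α x)) fun γ => ?_
    rw [he γ x hx]
    exact qm_smul γ (x.1, α x)
  rw [Function.comp_apply, Function.comp_apply, e1 x hx, e2, fst_qm_BB3, e3]

end Pool.Agent.Bet
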