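import Pool.Agent.P.MP_d34769_ag.BL5

/-! TASK BL7: coordinates in a frame, trivialisation of the projective bundle. -/

open Set

namespace Pool.Agent.Bet

variable {W : Type} [TopologicalSpace W] {r : ℕ} {S : Set W} {V : W → Submodule ℂ (ℕ → ℂ)}
  {s : Fin r → W → ℕ → ℂ}

theorem dual_BL7 {u : Fin r → ℕ → ℂ} (h : LinearIndependent ℂ u) :
    ∃ L : (ℕ → ℂ) →ₗ[ℂ] Fin r → ℂ, Continuous L ∧ ∀ i, L (u i) = Pi.single i 1 := by
  have hsp : Submodule.span ℂ (range fun n i => u i n) = ⊤ := by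
    by_contra hne
    obtain ⟨φ, h0, hφ⟩ := Submodule.exists_le_ker_of_lt_top _ (lt_top_iff_ne_top.2 hne)
    have h1 : ∑ i, φ (Pi.single i 1) • u i = 0 := by
      funext n
      have h2 : φ (fun i => u i n) = 0 := hφ (Submodule.subset_span ⟨n, rfl⟩)
      rw [LinearMap.pi_apply_eq_sum_univ] at h2
      rw [Finset.sum_apply, Pi.zero_apply, ← h2]
      refine Finset.sum_congr rfl fun i _ => ?_
      rw [Pi.smul_apply, smul_eq_mul, smul_eq_mul, mul_comm]
      congr 2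
      funext j
      simp [Pi.single_apply, eq_comm]
    have h3 := Fintype.linearIndependent_iff.1 h _ h1
    exact h0 ((Pi.basisFun ℂ (Fin r)).ext fun i => by simpa using h3 i)
  have hex : ∀ j : Fin r, ∃ c : ℕ →₀ ℂ, (c.sum fun n a => a • fun i => u i n) = Pi.single j 1 :=
    fun j => Finsupp.mem_span_range_iff_exists_finsupp.1 (hsp ▸ Submodule.mem_top)
  choose c hc using hex
  refine ⟨LinearMap.pi fun j => ∑ n ∈ (c j).support, c j n • LinearMap.proj n,
    continuous_pi fun j => ?_, fun i => funext fun j => ?_⟩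
  · simp only [LinearMap.pi_apply, LinearMap.sum_apply, LinearMap.smul_apply, LinearMap.proj_apply]
    fun_prop
  · have := congrFun (hc j) i
    simp only [Finsupp.sum, Finset.sum_apply, Pi.smul_apply] at this
    simp only [LinearMap.pi_apply, LinearMap.sum_apply, LinearMap.smul_apply, LinearMap.proj_apply,
      this, Pi.single_apply, eq_comm]

theorem Fr.coord (h : Fr S V s) : ∃ co : W × (ℕ → ℂ) → Fin r → ℂ, ContinuousOn co (Tot S V) ∧
    ∀ x ∈ Tot S V, ∑ i, co x i • s i x.1 = x.2 := by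
  have hex : ∀ x : W × (ℕ → ℂ), ∃ c : Fin r → ℂ, x ∈ Tot S V → ∑ i, c i • s i x.1 = x.2 := fun x => by
    by_cases hx : x ∈ Tot S V
    · obtain ⟨c, hc⟩ := (Submodule.mem_span_range_iff_exists_fun ℂ).1 ((h.sp x.1 hx.1).symm ▸ hx.2)
      exact ⟨c, fun _ => hc⟩
    · exact ⟨0, fun h' => absurd h' hx⟩
  choose co hco using hex
  refine ⟨co, fun x₀ hx₀ => ?_, hco⟩
  obtain ⟨L, hL, hL1⟩ := dual_BL7 (h.li _ hx₀.1)
  let M : W × (ℕ → ℂ) → Matrix (Fin r) (Fin r) ℂ := fun x => Matrix.of fun i j => L (s i x.1) j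
  have hM : ContinuousWithinAt M (Tot S V) x₀ := by
    refine continuousWithinAt_pi.2 fun i => hL.continuousAt.comp_continuousWithinAt
      (f := fun x : W × (ℕ → ℂ) => s i x.1) ?_
    exact (h.cont i _ hx₀.1).comp continuous_fst.continuousWithinAt fun x hx => hx.1
  have hM0 : M x₀ = 1 := by
    ext i j
    simp [M, hL1, Pi.single_apply, Matrix.one_apply, eq_comm]
  have hdet : ContinuousWithinAt (fun x => (M x).det) (Tot S V) x₀ :=
    (continuous_id.matrix_det).continuousAt.comp_continuousWithinAt hM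
  have hd0 : (M x₀).det ≠ 0 := by rw [hM0]; simp
  have hadj : ContinuousWithinAt (fun x => (M x).adjugate) (Tot S V) x₀ :=
    (continuous_id.matrix_adjugate).continuousAt.comp_continuousWithinAt hM
  have hv : ContinuousWithinAt (fun x : W × (ℕ → ℂ) =>
      ((M x).det)⁻¹ • Matrix.vecMul (L x.2) (M x).adjugate) (Tot S V) x₀ := by
    refine (hdet.inv₀ hd0).smul ?_
    have hc : Continuous fun p : (Fin r → ℂ) × Matrix (Fin r) (Fin r) ℂ => Matrix.vecMul p.1 p.2 :=
      continuous_fst.matrix_vecMul continuous_snd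
    have hc' : ContinuousWithinAt (fun x : W × (ℕ → ℂ) => (L x.2, (M x).adjugate)) (Tot S V) x₀ :=
      (hL.comp continuous_snd).continuousWithinAt.prodMk hadj
    exact ContinuousAt.comp_continuousWithinAt
      (f := fun x : W × (ℕ → ℂ) => (L x.2, (M x).adjugate)) hc.continuousAt hc'
  have key : ∀ x ∈ Tot S V, (M x).det ≠ 0 →
      co x = ((M x).det)⁻¹ • Matrix.vecMul (L x.2) (M x).adjugate := fun x hx hd => by
    have e : L x.2 = Matrix.vecMul (co x) (M x) := by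
      rw [← hco x hx, map_sum]
      funext j
      simp [M, Matrix.vecMul, dotProduct]
    rw [e, Matrix.vecMul_vecMul, Matrix.mul_adjugate, Matrix.vecMul_smul, Matrix.vecMul_one,
      smul_smul, inv_mul_cancel₀ hd, one_smul]
  refine hv.congr_of_eventuallyEq ?_ (key x₀ hx₀ hd0)
  filter_upwards [self_mem_nhdsWithin, hdet.eventually_ne hd0] with x hx hd using key x hx hd

/-- the shift by `r` -/
def sh_BL7 (r : ℕ) (v : ℕ → ℂ) : ℕ → ℂ := fun j => if j < r then 0 else v (j - r)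

/-- extension by zero -/
def ex_BL7 {r : ℕ} (c : Fin r → ℂ) : ℕ → ℂ := fun j => if h : j < r then c ⟨j, h⟩ else 0

/-- the path of vectors -/
noncomputable def F_BL7 (s : Fin r → W → ℕ → ℂ) (t : ℝ) (w : W) (a : ℕ → ℂ) : ℕ → ℂ :=
  ((max 0 (1 - 2 * t) : ℝ) : ℂ) • a +
    ((t * (1 - t) : ℝ) : ℂ) • sh_BL7 r (∑ i : Fin r, a i • s i w) +
    ((max 0 (2 * t - 1) : ℝ) : ℂ) • ∑ i : Fin r, a i • s i w

omit [TopologicalSpace W] in
theorem F_smul_BL7 (t : ℝ) (w : W) (c : ℂ) (a : ℕ → ℂ) :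
    F_BL7 s t w (c • a) = c • F_BL7 s t w a := by
  funext j
  simp only [F_BL7, sh_BL7, Pi.add_apply, Pi.smul_apply, smul_eq_mul, Finset.sum_apply, mul_assoc,
    ← Finset.mul_sum]
  split_ifs <;> ring

theorem out_BL7 (a : ℕ → ℂ) : ∃ c : ℂ, c ≠ 0 ∧ c • a = (pm a).out := pm_eq.1 (qm_out (pm a))

theorem ne_BL7 {α β γ : ℂ} {a v : ℕ → ℂ} (ha : a ≠ 0) (ha' : ∀ j, r ≤ j → a j = 0) (hv : v ≠ 0)
    (h1 : γ ≠ 0 → α = 0) (h2 : γ = 0 → α = 0 → β ≠ 0) : α • a + β • sh_BL7 r v + γ • v ≠ 0 := by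
  intro h
  have e : ∀ j, α * a j + β * (if j < r then 0 else v (j - r)) + γ * v j = 0 := fun j => congrFun h j
  obtain ⟨j, hj⟩ := Function.ne_iff.1 ha
  have hjr : j < r := not_le.1 fun h' => hj (ha' j h')
  by_cases hγ : γ = 0
  · have e1 := e j
    rw [if_pos hjr, hγ] at e1
    have hα : α = 0 := (mul_eq_zero.1 (show α * a j = 0 by linear_combination e1)).resolve_right hj
    refine hv (funext fun k => ?_)
    have e2 := e (k + r)
    rw [if_neg (by omega), hγ, hα, Nat.add_sub_cancel] at e2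
    exact (mul_eq_zero.1 (show β * v k = 0 by linear_combination e2)).resolve_left (h2 hγ hα)
  · refine hv (funext fun k => ?_)
    induction k using Nat.strong_induction_on with
    | _ k ih =>
      have e2 := e k
      have e3 : (if k < r then 0 else v (k - r)) = 0 := by
        split_ifs with hk
        · rfl
        · exact ih _ (by omega)
      rw [e3, h1 hγ] at e2
      exact (mul_eq_zero.1 (show γ * v k = 0 by linear_combination e2)).resolve_left hγ

/-- the trivialisation, and a homotopy inside projective space to the standard frame -/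
theorem Fr.triv (h : Fr S V s) : ∃ J : ℝ → W × PA → PA,
    Htp J (S ×ˢ CP r) Pz ∧ (∀ x ∈ S ×ˢ CP r, J 0 x = x.2) ∧
      SIso (fun x => (x.1, J 1 x)) (S ×ˢ CP r) ∅ (PV S V) ∅ := by
  obtain ⟨co, hc, hco⟩ := h.coord
  let J : ℝ → W × PA → PA := fun t x => pm (F_BL7 s t x.1 x.2.out)
  have hJ : ∀ t w a, J t (w, pm a) = pm (F_BL7 s t w a) := fun t w a => by
    obtain ⟨c, hc0, e⟩ := out_BL7 a
    show pm (F_BL7 s t w (pm a).out) = _
    rw [← e, F_smul_BL7, pm_smul hc0]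
  have hpm : Continuous pm := isOpenQuotientMap_pm.continuous
  have hv : ∀ w ∈ S, ∀ a : ℕ → ℂ, a ≠ 0 → (∀ j, r ≤ j → a j = 0) →
      ∑ i : Fin r, a i • s i w ≠ 0 := fun w hw a ha ha' h0 => by
    refine ha (funext fun j => ?_)
    rcases lt_or_ge j r with hj | hj
    · exact Fintype.linearIndependent_iff.1 (h.li w hw) (fun i => a i) h0 ⟨j, hj⟩
    · exact ha' j hj
  have hmem : ∀ w ∈ S, ∀ c : Fin r → ℂ, ∑ i, c i • s i w ∈ V w := fun w hw c =>
    h.sp w hw ▸ (Submodule.mem_span_range_iff_exists_fun ℂ).2 ⟨c, rfl⟩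
  have huniq : ∀ w ∈ S, ∀ c : Fin r → ℂ, co (w, ∑ i, c i • s i w) = c := fun w hw c =>
    funext fun i => (Fintype.linearIndependent_iffₛ.1 (h.li w hw)) _ _ (hco _ ⟨hw, hmem w hw c⟩) i
  have hJ1 : ∀ w a, J 1 (w, pm a) = pm (∑ i : Fin r, a i • s i w) := fun w a => by
    rw [hJ]
    congr 1
    norm_num [F_BL7]
  have hcont : ContinuousOn (fun p : ℝ × W × PA => J p.1 p.2) (univ ×ˢ S ×ˢ univ) := by
    have hπ : IsOpenQuotientMap (Prod.map id (Prod.map id pm) :
        ℝ × W × (ℕ → ℂ) → ℝ × W × PA) :=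
      IsOpenQuotientMap.id.prodMap (IsOpenQuotientMap.id.prodMap isOpenQuotientMap_pm)
    refine (liftOn_cont hπ (A := univ ×ˢ S ×ˢ univ) (fun x hx y e => ?_) ?_).mono ?_
    · have e1 : y.2.1 = x.2.1 := congrArg (fun z : ℝ × W × PA => z.2.1) e
      exact ⟨trivial, e1 ▸ hx.2.1, trivial⟩
    · have hs : ContinuousOn (fun p : ℝ × W × (ℕ → ℂ) => ∑ i : Fin r, p.2.2 i • s i p.2.1)
          (univ ×ˢ S ×ˢ univ) :=
        continuousOn_finsetSum _ fun i _ =>
          ContinuousOn.smul (f := fun p : ℝ × W × (ℕ → ℂ) => p.2.2 i) (by fun_prop)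
            ((h.cont i).comp (f := fun p : ℝ × W × (ℕ → ℂ) => p.2.1) (by fun_prop)
              fun x hx => hx.2.1)
      have hsh : Continuous (sh_BL7 r) := continuous_pi fun j => by
        unfold sh_BL7
        split_ifs <;> fun_prop
      refine (hpm.comp_continuousOn (f := fun p : ℝ × W × (ℕ → ℂ) => F_BL7 s p.1 p.2.1 p.2.2)
        ?_).congr fun p _ => hJ p.1 p.2.1 p.2.2
      unfold F_BL7
      refine ContinuousOn.fun_add (ContinuousOn.fun_add ?_ (ContinuousOn.fun_smul ?_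
        (hsh.comp_continuousOn hs))) (ContinuousOn.fun_smul ?_ hs) <;> fun_prop
    · rintro ⟨t, w, x⟩ hx
      obtain ⟨a, rfl⟩ := isOpenQuotientMap_pm.surjective x
      exact ⟨(t, w, a), ⟨trivial, hx.2.1, trivial⟩, rfl⟩
  let k : W × PA → W × PA := fun x => (x.1, pm (ex_BL7 (co (x.1, x.2.out))))
  have hk : ∀ w ∈ S, ∀ v ∈ V w, k (w, pm v) = (w, pm (ex_BL7 (co (w, v)))) := fun w hw v hv => by
    obtain ⟨c, hc0, e⟩ := out_BL7 v
    have e1 : co (w, c • v) = c • co (w, v) := by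
      rw [← huniq w hw (c • co (w, v))]
      congr 2
      conv_lhs => rw [← show ∑ i, co (w, v) i • s i w = v from hco (w, v) ⟨hw, hv⟩]
      simp [Finset.smul_sum, smul_smul]
    have e2 : ex_BL7 (c • co (w, v)) = c • ex_BL7 (co (w, v)) := funext fun j => by
      simp only [ex_BL7, Pi.smul_apply]
      split_ifs <;> simp
    show (w, pm (ex_BL7 (co (w, (pm v).out)))) = _
    rw [← e, e1, e2, pm_smul hc0]
  have hexs : ∀ w (c : Fin r → ℂ), ∑ i : Fin r, ex_BL7 c i • s i w = ∑ i, c i • s i w :=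
    fun w c => Finset.sum_congr rfl fun i _ => by simp [ex_BL7]
  refine ⟨J, ⟨hcont.mono fun p hp => ⟨trivial, hp.2.1, trivial⟩, ?_⟩, ?_, SIso.of_inv (k := k)
    (empty_subset _) (empty_subset _) ?_ ?_ ?_ (mapsTo_empty _ _) ?_ (mapsTo_empty _ _) ?_ ?_⟩
  · rintro t ht ⟨w, _⟩ ⟨hw, a, ha, rfl⟩
    rw [hJ]
    refine ⟨_, ne_BL7 ha.1 ha.2 (hv w hw a ha.1 ha.2) (fun h1 => ?_) fun h1 h2 => ?_, rfl⟩
    · have h3 : ¬ 2 * t - 1 ≤ 0 := fun h4 => h1 (by rw [max_eq_left h4, Complex.ofReal_zero])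
      rw [max_eq_left (by linarith), Complex.ofReal_zero]
    · have h3 : max 0 (2 * t - 1) = 0 := by exact_mod_cast h1
      have h4 : max 0 (1 - 2 * t) = 0 := by exact_mod_cast h2
      have h5 : t = 1 / 2 := by linarith [max_eq_left_iff.1 h3, max_eq_left_iff.1 h4]
      rw [h5]
      norm_num
  · rintro ⟨w, _⟩ ⟨-, a, -, rfl⟩
    rw [hJ]
    congr 1
    norm_num [F_BL7]
  · exact continuousOn_fst.prodMk (hcont.comp (f := fun x : W × PA => ((1 : ℝ), x)) (by fun_prop)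
      fun x hx => ⟨trivial, hx.1, trivial⟩)
  · have hπ : IsOpenQuotientMap (Prod.map id pm : W × (ℕ → ℂ) → W × PA) :=
      IsOpenQuotientMap.id.prodMap isOpenQuotientMap_pm
    have hex : Continuous (ex_BL7 (r := r)) := continuous_pi fun j => by
      unfold ex_BL7
      split_ifs <;> fun_prop
    refine (liftOn_cont hπ (A := Tot S V) (fun x hx y e => ?_) ?_).mono ?_
    · have e1 : y.1 = x.1 := congrArg (fun z : W × PA => z.1) e
      obtain ⟨c, -, e2⟩ := pm_eq.1 (congrArg (fun z : W × PA => z.2) e : pm y.2 = pm x.2)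
      exact ⟨e1 ▸ hx.1, by rw [e1, ← e2]; exact Submodule.smul_mem _ _ hx.2⟩
    · exact (continuousOn_fst.prodMk ((hpm.comp hex).comp_continuousOn hc)).congr
        fun x hx => hk x.1 hx.1 x.2 hx.2
    · rintro ⟨w, _⟩ ⟨hw, v, hv, -, rfl⟩
      exact ⟨(w, v), ⟨hw, hv⟩, rfl⟩
  · rintro ⟨w, _⟩ ⟨hw, a, ha, rfl⟩
    exact ⟨hw, _, hmem w hw _, hv w hw a ha.1 ha.2, (hJ1 w a).symm⟩
  · rintro ⟨w, _⟩ ⟨hw, v, hv, h0, rfl⟩
    rw [hk w hw v hv]
    refine ⟨hw, _, ⟨fun h1 => h0 ?_, fun j hj => dif_neg (by omega)⟩, rfl⟩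
    rw [← show ∑ i, co (w, v) i • s i w = v from hco (w, v) ⟨hw, hv⟩, ← hexs, h1]
    simp
  · rintro ⟨w, _⟩ ⟨hw, a, ha, rfl⟩
    show k (w, J 1 (w, pm a)) = _
    rw [hJ1, hk w hw _ (hmem w hw _), huniq w hw]
    congr 2
    funext j
    unfold ex_BL7
    split_ifs with hj
    · rfl
    · exact (ha.2 j (by omega)).symm
  · rintro ⟨w, _⟩ ⟨hw, v, hv, h0, rfl⟩
    rw [hk w hw v hv]
    show (w, J 1 (w, pm _)) = _
    rw [hJ1, hexs, show ∑ i, co (w, v) i • s i w = v from hco (w, v) ⟨hw, hv⟩]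

end Pool.Agent.Bet
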