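import Pool.Agent.P.MP_d34769_ag.BB2
import Pool.Agent.P.MP_d34769_ag.BL7

/-! TASK BB4: associated vector bundles. -/

open Set

namespace Pool.Agent.Bet

variable {Γ X F : Type} [Group Γ] [TopologicalSpace Γ] [IsTopologicalGroup Γ]
  [TopologicalSpace X] [MulAction Γ X] [ContinuousSMul Γ X] [AddCommGroup F] [Module ℂ F]
  [TopologicalSpace F] [IsTopologicalAddGroup F] [ContinuousSMul ℂ F] [T2Space F]
  [DistribMulAction Γ F] [SMulCommClass Γ ℂ F] [ContinuousSMul Γ F]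
  {S : Set X} {F₀ : Submodule ℂ F} [FiniteDimensional ℂ F₀] {J : X → F →ₗ[ℂ] (ℕ → ℂ)}

omit [TopologicalSpace Γ] [IsTopologicalGroup Γ] [ContinuousSMul Γ X] [IsTopologicalAddGroup F]
  [ContinuousSMul ℂ F] [T2Space F] [SMulCommClass Γ ℂ F] [ContinuousSMul Γ F]
  [FiniteDimensional ℂ F₀] in
theorem map_smul_BB4 (hJ : Emb Γ S F₀ J) {x : X} (hx : x ∈ S) (γ : Γ) :
    F₀.map (J (γ • x)) = F₀.map (J x) := by
  ext y
  constructor
  · rintro ⟨v, hv, rfl⟩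
    refine ⟨γ⁻¹ • v, hJ.ivt _ _ hv, ?_⟩
    rw [← hJ.inv γ x hx _ (hJ.ivt _ _ hv), smul_inv_smul]
  · rintro ⟨v, hv, rfl⟩
    exact ⟨γ • v, hJ.ivt _ _ hv, hJ.inv γ x hx v hv⟩

omit [TopologicalSpace Γ] [IsTopologicalGroup Γ] [ContinuousSMul Γ X] [IsTopologicalAddGroup F]
  [ContinuousSMul ℂ F] [T2Space F] [ContinuousSMul Γ F] [FiniteDimensional ℂ F₀] in
theorem frame_BB4 (hJ : Emb Γ S F₀ J) {r : ℕ} (b : Module.Basis (Fin r) ℂ F₀) {x : X} (hx : x ∈ S)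
    (γ : Γ) : LinearIndependent ℂ (fun i => J x (γ • (b i : F))) ∧
      Submodule.span ℂ (range fun i => J x (γ • (b i : F))) = F₀.map (J x) := by
  set L : F₀ →ₗ[ℂ] (ℕ → ℂ) := J x ∘ₗ DistribSMul.toLinearMap ℂ F γ ∘ₗ F₀.subtype with hL
  have e : (fun i => J x (γ • (b i : F))) = L ∘ b := rfl
  rw [e]
  refine ⟨b.linearIndependent.map' L (LinearMap.ker_eq_bot'.2 fun v hv => ?_), ?_⟩
  · have := hJ.inj x hx (γ • (v : F)) (hJ.ivt _ _ v.2) hv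
    exact Subtype.ext ((smul_eq_zero_iff_eq γ).1 this)
  · rw [range_comp, ← Submodule.map_span, b.span_eq]
    ext y
    constructor
    · rintro ⟨v, -, rfl⟩
      exact ⟨γ • (v : F), hJ.ivt _ _ v.2, rfl⟩
    · rintro ⟨v, hv, rfl⟩
      refine ⟨⟨γ⁻¹ • v, hJ.ivt _ _ hv⟩, trivial, ?_⟩
      change J x (γ • γ⁻¹ • v) = J x v
      rw [smul_inv_smul]

theorem asV_qm (hS : Ivt Γ S) (hJ : Emb Γ S F₀ J) {x : X} (hx : x ∈ S) :
    asV Γ F₀ J (qm Γ x) = F₀.map (J x) := by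
  exact dsc_qm (g := fun x => F₀.map (J x)) (map_smul_BB4 hJ hx)

theorem assoc_lf (hS : Ivt Γ S) (hP : Prin Γ S) (hJ : Emb Γ S F₀ J) :
    LF (Module.finrank ℂ F₀) (qs Γ S) (asV Γ F₀ J) := by
  rintro _ ⟨x₀, hx₀, rfl⟩
  obtain ⟨U, hU, hxU, τ, cτ, hτ⟩ := hP x₀ hx₀
  have hSU : Ivt Γ (S ∩ U) := fun γ x hx => ⟨hS γ x hx.1, (hτ γ x hx).1⟩
  have e : qs Γ S ∩ qm Γ '' U = qs Γ (S ∩ U) := by
    ext w
    constructor
    · rintro ⟨hw, u, hu, rfl⟩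
      exact ⟨u, ⟨(mem_qs hS).1 hw, hu⟩, rfl⟩
    · rintro ⟨u, hu, rfl⟩
      exact ⟨⟨u, hu.1, rfl⟩, u, hu.2, rfl⟩
  let b := Module.finBasis ℂ F₀
  refine ⟨qm Γ '' U, isOpenQuotientMap_qm.isOpenMap U hU, ⟨x₀, hxU, rfl⟩,
    fun i => dsc Γ fun x => J x (τ x • (b i : F)), ?_⟩
  rw [e]
  have ho : ∀ w ∈ qs Γ (S ∩ U), w.out ∈ S := fun w hw => by
    rw [← qm_out w] at hw
    exact ((mem_qs hSU).1 hw).1
  refine ⟨fun i => dsc_cont hSU ?_ fun γ x hx => ?_, fun w hw => (frame_BB4 hJ b (ho w hw) _).1,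
    fun w hw => (frame_BB4 hJ b (ho w hw) _).2⟩
  · exact hJ.cont.comp (f := fun x => (x, τ x • (b i : F)))
      (continuousOn_id.prodMk (cτ.smul continuousOn_const))
      fun x hx => ⟨hx.1, hJ.ivt _ _ (b i).2⟩
  · rw [(hτ γ x hx).2, mul_smul, hJ.inv γ x hx.1 _ (hJ.ivt _ _ (b i).2)]

theorem assoc_inv (hS : Ivt Γ S) (hP : Prin Γ S) (hJ : Emb Γ S F₀ J) :
    ∃ g : Q Γ X × (ℕ → ℂ) → Q Γ (X × F), ContinuousOn g (Tot (qs Γ S) (asV Γ F₀ J)) ∧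
      ∀ x ∈ S, ∀ v ∈ F₀, g (qm Γ x, J x v) = qm Γ (x, v) := by
  let b := Module.finBasis ℂ F₀
  have hF : Fr S (fun x => F₀.map (J x)) fun i x => J x (b i) := by
    refine ⟨fun i => hJ.cont.comp (f := fun x => (x, (b i : F)))
      (continuousOn_id.prodMk continuousOn_const) fun x hx => ⟨hx, (b i).2⟩,
      fun x hx => ?_, fun x hx => ?_⟩
    · simpa only [one_smul] using (frame_BB4 hJ b hx 1).1
    · simpa only [one_smul] using (frame_BB4 hJ b hx 1).2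
  obtain ⟨co, cc, hco⟩ := hF.coord
  set G : X × (ℕ → ℂ) → Q Γ (X × F) := fun p => qm Γ (p.1, ∑ i, co p i • (b i : F)) with hG
  have h1 : ∀ x ∈ S, ∀ v ∈ F₀, G (x, J x v) = qm Γ (x, v) := fun x hx v hv => by
    have := hco (x, J x v) ⟨hx, v, hv, rfl⟩
    have h2 := hJ.inj x hx (∑ i, co (x, J x v) i • (b i : F) - v)
      (sub_mem (Submodule.sum_mem _ fun i _ => Submodule.smul_mem _ _ (b i).2) hv) (by
        rw [map_sub, map_sum, sub_eq_zero]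
        simpa only [map_smul] using this)
    rw [hG]
    simp only [sub_eq_zero.1 h2]
  have h2 : ∀ x ∈ S, ∀ v ∈ F₀, G ((qm Γ x).out, J x v) = qm Γ (x, v) := fun x hx v hv => by
    obtain ⟨γ, e⟩ := qm_eq.1 (qm_out (qm Γ x))
    rw [← e, ← hJ.inv γ x hx v hv, h1 _ (hS γ x hx) _ (hJ.ivt γ v hv)]
    exact qm_smul γ (x, v)
  refine ⟨fun p => G (p.1.out, p.2), ?_, h2⟩
  have e : Tot (qs Γ S) (asV Γ F₀ J) =
      Prod.map (qm Γ) id '' Tot S fun x => F₀.map (J x) := by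
    ext ⟨w, y⟩
    constructor
    · rintro ⟨⟨x, hx, rfl⟩, hy⟩
      exact ⟨(x, y), ⟨hx, (asV_qm hS hJ hx).le hy⟩, rfl⟩
    · rintro ⟨⟨x, y'⟩, ⟨hx, hy⟩, h⟩
      obtain ⟨rfl, rfl⟩ := Prod.mk.inj h
      exact ⟨⟨x, hx, rfl⟩, (asV_qm hS hJ hx).ge hy⟩
  rw [e]
  refine liftOn_cont (isOpenQuotientMap_qm.prodMap .id) ?_ ?_
  · rintro ⟨x, y⟩ ⟨hx, hy⟩ ⟨x', y'⟩ h
    obtain ⟨h3, rfl⟩ := Prod.mk.inj h
    obtain ⟨γ, rfl⟩ := qm_eq.1 h3
    exact ⟨hS γ x hx, (map_smul_BB4 hJ hx γ).ge hy⟩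
  · have cG : ContinuousOn G (Tot S fun x => F₀.map (J x)) :=
      continuous_qm.comp_continuousOn (continuousOn_fst.prodMk
        (continuousOn_finsetSum _ fun i _ =>
          ((continuous_apply i).comp_continuousOn cc).smul continuousOn_const))
    refine cG.congr ?_
    rintro ⟨x, y⟩ ⟨hx, v, hv, (rfl : J x v = y)⟩
    exact (h2 x hx v hv).trans (h1 x hx v hv).symm

end Pool.Agent.Bet
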