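import Pool.Agent.P.MP_d34769_ag.BL5

/-! TASK BL9: the projective completion of a vector bundle. -/

open Set

namespace Pool.Agent.Bet

noncomputable section

/-- drop the first coordinate -/
def tl_BL9 : (ℕ → ℂ) →ₗ[ℂ] (ℕ → ℂ) := LinearMap.funLeft ℂ ℂ Nat.succ

/-- put a new first coordinate -/
def cs_BL9 (a : ℂ) (v : ℕ → ℂ) : ℕ → ℂ := fun i => if i = 0 then a else v (i - 1)

lemma tl_apply_BL9 (v : ℕ → ℂ) (i : ℕ) : tl_BL9 v i = v (i + 1) := rfl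

lemma cs_zero_BL9 (a : ℂ) (v : ℕ → ℂ) : cs_BL9 a v 0 = a := rfl

lemma tl_cs_BL9 (a : ℂ) (v : ℕ → ℂ) : tl_BL9 (cs_BL9 a v) = v := by
  funext i
  simp [tl_apply_BL9, cs_BL9]

lemma ext_BL9 {v v' : ℕ → ℂ} (h0 : v 0 = v' 0) (h : tl_BL9 v = tl_BL9 v') : v = v' := by
  funext i
  cases i with
  | zero => exact h0
  | succ i => exact congrFun h i

lemma cont_tl_BL9 : Continuous tl_BL9 := continuous_pi fun i => continuous_apply (i + 1)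

lemma cont_cs_BL9 : Continuous fun p : ℂ × (ℕ → ℂ) => cs_BL9 p.1 p.2 := by
  refine continuous_pi fun i => ?_
  unfold cs_BL9
  split_ifs
  · exact continuous_fst
  · exact (continuous_apply _).comp continuous_snd

/-- the shift -/
def sh_BL9 : (ℕ → ℂ) →ₗ[ℂ] (ℕ → ℂ) where
  toFun := cs_BL9 0
  map_add' a b := ext_BL9 (by simp [cs_zero_BL9]) (by simp [tl_cs_BL9])
  map_smul' a b := ext_BL9 (by simp [cs_zero_BL9]) (by simp [tl_cs_BL9])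

lemma sh_apply_BL9 (v : ℕ → ℂ) : sh_BL9 v = cs_BL9 0 v := rfl

lemma sh_ker_BL9 : LinearMap.ker sh_BL9 = ⊥ := by
  rw [LinearMap.ker_eq_bot']
  intro v hv
  rw [← tl_cs_BL9 0 v, ← sh_apply_BL9, hv, map_zero]

lemma mem_map_BL9 {P : Submodule ℂ (ℕ → ℂ)} {v : ℕ → ℂ} :
    v ∈ P.map sh_BL9 ↔ v 0 = 0 ∧ tl_BL9 v ∈ P := by
  constructor
  · rintro ⟨u, hu, rfl⟩
    exact ⟨rfl, by rwa [sh_apply_BL9, tl_cs_BL9]⟩
  · rintro ⟨h0, h⟩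
    exact ⟨_, h, ext_BL9 h0.symm (tl_cs_BL9 _ _)⟩

lemma sup_BL9 (P : Submodule ℂ (ℕ → ℂ)) :
    Submodule.span ℂ {cs_BL9 1 0} ⊔ P.map sh_BL9 = P.comap tl_BL9 := by
  apply le_antisymm
  · refine sup_le ?_ fun v hv => (mem_map_BL9.1 hv).2
    rw [Submodule.span_singleton_le_iff_mem, Submodule.mem_comap, tl_cs_BL9]
    exact P.zero_mem
  · intro v hv
    have : v = v 0 • cs_BL9 1 0 + sh_BL9 (tl_BL9 v) :=
      ext_BL9 (by simp [cs_zero_BL9, sh_apply_BL9]) (by simp [tl_cs_BL9, sh_apply_BL9])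
    rw [this]
    exact Submodule.add_mem_sup (Submodule.smul_mem _ _ (Submodule.mem_span_singleton_self _))
      (Submodule.mem_map_of_mem hv)

lemma pm_surj_BL9 (x : PA) : ∃ v, pm v = x := qm_surj x

lemma mem_img_BL9 {A : Set (ℕ → ℂ)} (hA : ∀ a : ℂ, a ≠ 0 → ∀ v ∈ A, a • v ∈ A) {v : ℕ → ℂ} :
    pm v ∈ pm '' A ↔ v ∈ A := by
  refine ⟨?_, fun h => ⟨v, h, rfl⟩⟩
  rintro ⟨u, hu, e⟩
  obtain ⟨a, ha, rfl⟩ := pm_eq.1 e.symm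
  exact hA a ha u hu

lemma mem_tl_BL9 {v : ℕ → ℂ} : pm v ∈ pm '' {v | tl_BL9 v ≠ 0} ↔ tl_BL9 v ≠ 0 :=
  mem_img_BL9 (A := {v | tl_BL9 v ≠ 0}) fun a ha u hu => by
    show tl_BL9 (a • u) ≠ 0
    rw [map_smul]
    exact smul_ne_zero ha hu

lemma mem_hd_BL9 {v : ℕ → ℂ} : pm v ∈ pm '' {v | v 0 ≠ 0} ↔ v 0 ≠ 0 :=
  mem_img_BL9 (A := {v | v 0 ≠ 0}) fun _ ha _ hu => mul_ne_zero ha hu

lemma mem_PV_BL9 {W : Type} {S : Set W} {V : W → Submodule ℂ (ℕ → ℂ)} {w : W} {v : ℕ → ℂ} :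
    (w, pm v) ∈ PV S V ↔ w ∈ S ∧ v ∈ V w ∧ v ≠ 0 := by
  refine ⟨?_, fun h => ⟨h.1, v, h.2.1, h.2.2, rfl⟩⟩
  rintro ⟨hw, u, hu, h0, e⟩
  obtain ⟨a, ha, rfl⟩ := pm_eq.1 (Eq.symm e)
  exact ⟨hw, Submodule.smul_mem _ _ hu, smul_ne_zero ha h0⟩

/-- shrinking the first coordinate -/
def hh_BL9 (t : ℝ) : PA → PA :=
  dsc ℂˣ fun v : ℕ → ℂ => pm (cs_BL9 ((1 - t) * v 0) (tl_BL9 v))

lemma hh_pm_BL9 (t : ℝ) (v : ℕ → ℂ) :
    hh_BL9 t (pm v) = pm (cs_BL9 ((1 - t) * v 0) (tl_BL9 v)) := by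
  refine dsc_qm (g := fun v : ℕ → ℂ => pm (cs_BL9 ((1 - t) * v 0) (tl_BL9 v))) fun γ => ?_
  rw [← pm_smul γ.ne_zero (cs_BL9 ((1 - t) * v 0) (tl_BL9 v))]
  refine congrArg pm (ext_BL9 ?_ ?_)
  · simp only [cs_zero_BL9, Pi.smul_apply, Units.smul_def, smul_eq_mul]
    ring
  · rw [tl_cs_BL9, Units.smul_def, map_smul, map_smul, tl_cs_BL9]

lemma cont_hh_BL9 : Continuous fun p : ℝ × PA => hh_BL9 p.1 p.2 := by
  rw [← ((IsOpenQuotientMap.id (X := ℝ)).prodMap isOpenQuotientMap_pm).continuous_comp_iff]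
  have : (fun p : ℝ × PA => hh_BL9 p.1 p.2) ∘ Prod.map id pm
      = fun p : ℝ × (ℕ → ℂ) => pm (cs_BL9 ((1 - p.1) * p.2 0) (tl_BL9 p.2)) :=
    funext fun p => hh_pm_BL9 p.1 p.2
  rw [this]
  refine isOpenQuotientMap_pm.continuous.comp (cont_cs_BL9.comp
    (f := fun p : ℝ × (ℕ → ℂ) => ((1 - (p.1 : ℂ)) * p.2 0, tl_BL9 p.2)) ?_)
  exact Continuous.prodMk (by fun_prop) (cont_tl_BL9.comp continuous_snd)

/-- the affine chart -/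
def ch_BL9 : PA → ℕ → ℂ := dsc ℂˣ fun v : ℕ → ℂ => (v 0)⁻¹ • tl_BL9 v

lemma ch_inv_BL9 (γ : ℂˣ) (v : ℕ → ℂ) :
    ((γ • v) 0)⁻¹ • tl_BL9 (γ • v) = (v 0)⁻¹ • tl_BL9 v := by
  rw [Units.smul_def, map_smul, smul_smul, Pi.smul_apply, smul_eq_mul, mul_inv, mul_right_comm,
    inv_mul_cancel₀ γ.ne_zero, one_mul]

lemma ch_pm_BL9 (v : ℕ → ℂ) : ch_BL9 (pm v) = (v 0)⁻¹ • tl_BL9 v :=
  dsc_qm (g := fun v : ℕ → ℂ => (v 0)⁻¹ • tl_BL9 v) fun γ => ch_inv_BL9 γ v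

lemma cont_ch_BL9 : ContinuousOn ch_BL9 (pm '' {v | v 0 ≠ 0}) :=
  dsc_cont (Γ := ℂˣ) (S := {v : ℕ → ℂ | v 0 ≠ 0})
    (fun γ _ hv => mul_ne_zero γ.ne_zero hv)
    (((continuous_apply 0).continuousOn.inv₀ fun _ hv => hv).smul cont_tl_BL9.continuousOn)
    fun γ v _ => ch_inv_BL9 γ v

lemma open_tl_BL9 : IsOpen (pm '' {v | tl_BL9 v ≠ 0}) :=
  isOpenQuotientMap_pm.isOpenMap _ (isOpen_ne_fun cont_tl_BL9 continuous_const)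

lemma open_hd_BL9 : IsOpen (pm '' {v | v 0 ≠ 0}) :=
  isOpenQuotientMap_pm.isOpenMap _ (isOpen_ne_fun (continuous_apply 0) continuous_const)

end

variable {W : Type} [TopologicalSpace W] {r : ℕ} {S T : Set W} {V : W → Submodule ℂ (ℕ → ℂ)}

lemma fr0_BL9 {s : Fin r → W → ℕ → ℂ} (h : Fr S V s) :
    Fr S (fun w => (V w).map sh_BL9) fun i w => sh_BL9 (s i w) := by
  refine ⟨fun i => ?_, fun w hw => (h.li w hw).map' _ sh_ker_BL9, fun w hw => ?_⟩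
  · exact cont_cs_BL9.comp_continuousOn (f := fun w => ((0 : ℂ), s i w))
      (continuousOn_const.prodMk (h.cont i))
  · rw [← h.sp w hw, Submodule.map_span, ← range_comp]
    rfl

lemma fr1_BL9 {s : Fin r → W → ℕ → ℂ} (h : Fr S V s) :
    Fr S (fun w => (V w).comap tl_BL9)
      fun i w => (Fin.cons (cs_BL9 1 0) (fun i => sh_BL9 (s i w)) : Fin (r + 1) → ℕ → ℂ) i := by
  have h0 := fr0_BL9 h
  refine ⟨fun i => ?_, fun w hw => ?_, fun w hw => ?_⟩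
  · refine Fin.cases ?_ (fun i => ?_) i
    · exact continuousOn_const
    · exact h0.cont i
  · refine (h0.li w hw).finCons ?_
    rw [h0.sp w hw, mem_map_BL9, cs_zero_BL9]
    simp
  · rw [← sup_BL9, ← h0.sp w hw, ← Submodule.span_insert, ← Fin.range_cons]

omit [TopologicalSpace W] in
lemma mem_B_BL9 {w : W} {v : ℕ → ℂ} :
    (w, pm v) ∈ PV S (fun w => (V w).comap tl_BL9) ∩ Prod.snd ⁻¹' (pm '' {v | tl_BL9 v ≠ 0})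
      ↔ w ∈ S ∧ tl_BL9 v ∈ V w ∧ tl_BL9 v ≠ 0 := by
  rw [mem_inter_iff, mem_PV_BL9, mem_preimage, mem_tl_BL9]
  exact ⟨fun h => ⟨h.1.1, h.1.2.1, h.2⟩,
    fun h => ⟨⟨h.1, h.2.1, fun e => h.2.2 (by rw [e, map_zero])⟩, h.2.2⟩⟩

omit [TopologicalSpace W] in
lemma mem_P0_BL9 {w : W} {v : ℕ → ℂ} :
    (w, pm v) ∈ PV S (fun w => (V w).map sh_BL9)
      ↔ (w ∈ S ∧ tl_BL9 v ∈ V w ∧ tl_BL9 v ≠ 0) ∧ v 0 = 0 := by
  rw [mem_PV_BL9, mem_map_BL9]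
  exact ⟨fun h => ⟨⟨h.1, h.2.1.2, fun e => h.2.2 (ext_BL9 h.2.1.1 (by rw [e, map_zero]))⟩,
    h.2.1.1⟩, fun h => ⟨h.1.1, ⟨h.2, h.1.2.1⟩, fun e => h.1.2.2 (by rw [e, map_zero])⟩⟩

lemma def_BL9 (hT : T ⊆ S) :
    SIso id (PV S fun w => (V w).map sh_BL9) (PV T fun w => (V w).map sh_BL9)
      (PV S (fun w => (V w).comap tl_BL9) ∩ Prod.snd ⁻¹' (pm '' {v | tl_BL9 v ≠ 0}))
      (PV T (fun w => (V w).comap tl_BL9) ∩ Prod.snd ⁻¹' (pm '' {v | tl_BL9 v ≠ 0})) := by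
  have a1 : ∀ S : Set W, (PV S fun w => (V w).map sh_BL9) ⊆
      PV S (fun w => (V w).comap tl_BL9) ∩ Prod.snd ⁻¹' (pm '' {v | tl_BL9 v ≠ 0}) := by
    rintro S ⟨w, x⟩ hx
    obtain ⟨v, rfl⟩ := pm_surj_BL9 x
    exact mem_B_BL9.2 (mem_P0_BL9.1 hx).1
  have a2 : ∀ (S : Set W) (t : ℝ), MapsTo (fun x : W × PA => (x.1, hh_BL9 t x.2))
      (PV S (fun w => (V w).comap tl_BL9) ∩ Prod.snd ⁻¹' (pm '' {v | tl_BL9 v ≠ 0}))
      (PV S (fun w => (V w).comap tl_BL9) ∩ Prod.snd ⁻¹' (pm '' {v | tl_BL9 v ≠ 0})) := by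
    rintro S t ⟨w, x⟩ hx
    obtain ⟨v, rfl⟩ := pm_surj_BL9 x
    simp only [hh_pm_BL9]
    rw [mem_B_BL9, tl_cs_BL9]
    exact mem_B_BL9.1 hx
  have a3 : ∀ (S : Set W) (t : ℝ), MapsTo (fun x : W × PA => (x.1, hh_BL9 t x.2))
      (PV S fun w => (V w).map sh_BL9) (PV S fun w => (V w).map sh_BL9) := by
    rintro S t ⟨w, x⟩ hx
    obtain ⟨v, rfl⟩ := pm_surj_BL9 x
    simp only [hh_pm_BL9]
    rw [mem_P0_BL9, tl_cs_BL9, cs_zero_BL9, (mem_P0_BL9.1 hx).2, mul_zero]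
    exact ⟨(mem_P0_BL9.1 hx).1, rfl⟩
  have a4 : ∀ S : Set W, MapsTo (fun x : W × PA => (x.1, hh_BL9 1 x.2))
      (PV S (fun w => (V w).comap tl_BL9) ∩ Prod.snd ⁻¹' (pm '' {v | tl_BL9 v ≠ 0}))
      (PV S fun w => (V w).map sh_BL9) := by
    rintro S ⟨w, x⟩ hx
    obtain ⟨v, rfl⟩ := pm_surj_BL9 x
    simp only [hh_pm_BL9]
    rw [mem_P0_BL9, tl_cs_BL9, cs_zero_BL9]
    exact ⟨mem_B_BL9.1 hx, by simp⟩
  refine SIso.of_def (H := fun t x => (x.1, hh_BL9 t x.2)) (a1 S) (a1 T)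
    (inter_subset_inter_left _ fun x hx => ⟨hT hx.1, hx.2⟩) (fun x hx => ⟨hT hx.1, hx.2⟩)
    ⟨?_, fun t _ => a2 S t⟩ (fun t _ => a2 T t) (fun t _ => a3 S t) (fun t _ => a3 T t) ?_
    (a4 S) (a4 T)
  · refine Continuous.continuousOn (Continuous.prodMk (continuous_fst.comp continuous_snd) ?_)
    exact cont_hh_BL9.comp (f := fun p : ℝ × W × PA => (p.1, p.2.2)) (by fun_prop)
  · rintro ⟨w, x⟩ _
    obtain ⟨v, rfl⟩ := pm_surj_BL9 x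
    simp only [hh_pm_BL9]
    refine Prod.ext rfl (congrArg pm (ext_BL9 ?_ (tl_cs_BL9 _ _)))
    simp [cs_zero_BL9]

lemma chart_BL9 :
    SIso (fun x : W × (ℕ → ℂ) => (x.1, pm (cs_BL9 1 x.2))) (Tot S V) (TotC S T V)
      (PV S (fun w => (V w).comap tl_BL9) ∩ Prod.snd ⁻¹' (pm '' {v | v 0 ≠ 0}))
      ((PV S (fun w => (V w).comap tl_BL9) ∩ Prod.snd ⁻¹' (pm '' {v | v 0 ≠ 0})) \
        (PV T (fun w => (V w).comap tl_BL9) ∪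
          PV S (fun w => (V w).comap tl_BL9) ∩ Prod.snd ⁻¹' (pm '' {v | tl_BL9 v ≠ 0}))ᶜ) := by
  have n1 : ∀ v : ℕ → ℂ, cs_BL9 1 v ≠ 0 := fun v e => one_ne_zero (congrFun e 0)
  have m1 : MapsTo (fun x : W × (ℕ → ℂ) => (x.1, pm (cs_BL9 1 x.2))) (Tot S V)
      (PV S (fun w => (V w).comap tl_BL9) ∩ Prod.snd ⁻¹' (pm '' {v | v 0 ≠ 0})) := by
    rintro ⟨w, v⟩ hx
    refine ⟨mem_PV_BL9.2 ⟨hx.1, ?_, n1 v⟩, mem_hd_BL9.2 one_ne_zero⟩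
    rw [Submodule.mem_comap, tl_cs_BL9]
    exact hx.2
  have m3 : MapsTo (fun y : W × PA => (y.1, ch_BL9 y.2))
      (PV S (fun w => (V w).comap tl_BL9) ∩ Prod.snd ⁻¹' (pm '' {v | v 0 ≠ 0})) (Tot S V) := by
    rintro ⟨w, x⟩ hx
    obtain ⟨v, rfl⟩ := pm_surj_BL9 x
    simp only [ch_pm_BL9]
    obtain ⟨h1, h2, -⟩ := mem_PV_BL9.1 hx.1
    exact ⟨h1, Submodule.smul_mem _ _ h2⟩
  refine SIso.of_inv (k := fun y : W × PA => (y.1, ch_BL9 y.2)) (fun x hx => hx.1) sdiff_subset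
    ?_ ?_ m1 ?_ m3 ?_ ?_ ?_
  · refine Continuous.continuousOn (continuous_fst.prodMk (isOpenQuotientMap_pm.continuous.comp ?_))
    exact cont_cs_BL9.comp (f := fun x : W × (ℕ → ℂ) => ((1 : ℂ), x.2)) (by fun_prop)
  · exact continuous_fst.continuousOn.prodMk
      (cont_ch_BL9.comp continuous_snd.continuousOn fun _ hx => hx.2)
  · rintro ⟨w, v⟩ hx
    refine ⟨m1 hx.1, not_not.2 ?_⟩
    rcases hx.2 with h | h
    · exact Or.inl ⟨h, (m1 hx.1).1.2⟩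
    · refine Or.inr (mem_B_BL9.2 ?_)
      rw [tl_cs_BL9]
      exact ⟨hx.1.1, hx.1.2, h⟩
  · rintro ⟨w, x⟩ hx
    obtain ⟨v, rfl⟩ := pm_surj_BL9 x
    refine ⟨m3 hx.1, ?_⟩
    rcases not_not.1 hx.2 with h | h
    · exact Or.inl h.1
    · refine Or.inr ?_
      simp only [ch_pm_BL9]
      exact smul_ne_zero (inv_ne_zero (mem_hd_BL9.1 hx.1.2)) (mem_B_BL9.1 h).2.2
  · rintro ⟨w, v⟩ _
    simp only [ch_pm_BL9, cs_zero_BL9, tl_cs_BL9, inv_one, one_smul]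
  · rintro ⟨w, x⟩ hx
    obtain ⟨v, rfl⟩ := pm_surj_BL9 x
    have h0 : v 0 ≠ 0 := mem_hd_BL9.1 hx.2
    simp only [ch_pm_BL9]
    refine Prod.ext rfl ?_
    rw [← pm_smul (inv_ne_zero h0) v]
    refine congrArg pm (ext_BL9 ?_ ?_)
    · rw [cs_zero_BL9, Pi.smul_apply, smul_eq_mul, inv_mul_cancel₀ h0]
    · rw [tl_cs_BL9, map_smul]

theorem completion (h : LF r S V) (hT : RO T S) :
    ∃ (V₀ V₁ : W → Submodule ℂ (ℕ → ℂ)) (B : Set (W × PA)) (j : W × (ℕ → ℂ) → W × PA),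
      LF r S V₀ ∧ LF (r + 1) S V₁ ∧ RO B (PV S V₁) ∧ RO (PV T V₁) (PV S V₁) ∧
      SIso id (PV S V₀) (PV T V₀) B (B ∩ PV T V₁) ∧ SIso id (PV S V₀) ∅ B ∅ ∧
      SIso j (Tot S V) (TotC S T V) (PV S V₁) (PV T V₁ ∪ B) := by
  have hTS := hT.subset
  have r1 : RO (PV S (fun w => (V w).comap tl_BL9) ∩ Prod.snd ⁻¹' (pm '' {v | tl_BL9 v ≠ 0}))
      (PV S fun w => (V w).comap tl_BL9) := ⟨_, open_tl_BL9.preimage continuous_snd, rfl⟩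
  have r2 : RO (PV T fun w => (V w).comap tl_BL9) (PV S fun w => (V w).comap tl_BL9) := by
    obtain ⟨U, hU, rfl⟩ := hT
    refine ⟨Prod.fst ⁻¹' U, hU.preimage continuous_fst, Set.ext fun x => ?_⟩
    exact ⟨fun hx => ⟨⟨hx.1.1, hx.2⟩, hx.1.2⟩, fun hx => ⟨⟨hx.1.1, hx.2⟩, hx.1.2⟩⟩
  refine ⟨fun w => (V w).map sh_BL9, fun w => (V w).comap tl_BL9,
    PV S (fun w => (V w).comap tl_BL9) ∩ Prod.snd ⁻¹' (pm '' {v | tl_BL9 v ≠ 0}),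
    fun x => (x.1, pm (cs_BL9 1 x.2)), fun w hw => ?_, fun w hw => ?_, r1, r2, ?_, ?_, ?_⟩
  · obtain ⟨U, h1, h2, s, h3⟩ := h w hw
    exact ⟨U, h1, h2, _, fr0_BL9 h3⟩
  · obtain ⟨U, h1, h2, s, h3⟩ := h w hw
    exact ⟨U, h1, h2, _, fr1_BL9 h3⟩
  · have e : PV S (fun w => (V w).comap tl_BL9) ∩ Prod.snd ⁻¹' (pm '' {v | tl_BL9 v ≠ 0}) ∩
        PV T (fun w => (V w).comap tl_BL9)
        = PV T (fun w => (V w).comap tl_BL9) ∩ Prod.snd ⁻¹' (pm '' {v | tl_BL9 v ≠ 0}) :=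
      Set.ext fun x => ⟨fun hx => ⟨hx.2, hx.1.2⟩, fun hx => ⟨⟨r2.subset hx.1, hx.2⟩, hx.1⟩⟩
    rw [e]
    exact def_BL9 hTS
  · have e : ∀ V' : W → Submodule ℂ (ℕ → ℂ), PV ∅ V' = ∅ := fun V' =>
      eq_empty_of_forall_notMem fun x hx => hx.1
    have := def_BL9 (V := V) (empty_subset S)
    rwa [e, e, empty_inter] at this
  · have r3 := r2.union r1
    have e : PV S (fun w => (V w).comap tl_BL9) \ (PV T (fun w => (V w).comap tl_BL9) ∪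
        PV S (fun w => (V w).comap tl_BL9) ∩ Prod.snd ⁻¹' (pm '' {v | tl_BL9 v ≠ 0}))ᶜ
        = PV T (fun w => (V w).comap tl_BL9) ∪
          PV S (fun w => (V w).comap tl_BL9) ∩ Prod.snd ⁻¹' (pm '' {v | tl_BL9 v ≠ 0}) := by
      rw [sdiff_compl, inter_eq_right.2 r3.subset]
    have hex := SIso.exc (S := PV S fun w => (V w).comap tl_BL9)
      (S₁ := PV S (fun w => (V w).comap tl_BL9) ∩ Prod.snd ⁻¹' (pm '' {v | v 0 ≠ 0}))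
      (A := (PV T (fun w => (V w).comap tl_BL9) ∪
        PV S (fun w => (V w).comap tl_BL9) ∩ Prod.snd ⁻¹' (pm '' {v | tl_BL9 v ≠ 0}))ᶜ)
      ⟨_, open_hd_BL9.preimage continuous_snd, rfl⟩ (by rw [e]; exact r3) (by
        rintro ⟨w, x⟩ hx
        obtain ⟨v, rfl⟩ := pm_surj_BL9 x
        refine ⟨hx.1, mem_hd_BL9.2 fun h0 => hx.2 (Or.inr ⟨hx.1, mem_tl_BL9.2 fun h1 => ?_⟩)⟩
        exact (mem_PV_BL9.1 hx.1).2.2 (ext_BL9 h0 (by rw [h1, map_zero])))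
    rw [e] at hex
    exact hex.comp chart_BL9

end Pool.Agent.Bet
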