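import Pool.Agent.P.MP_d34769_ag.BL8
import Pool.Agent.P.MP_d34769_ag.BL9

/-! TASK BL10: the Thom isomorphism. -/

open Set

namespace Pool.Agent.Bet

variable {W : Type} [TopologicalSpace W] {r : ℕ} {S T : Set W} {V : W → Submodule ℂ (ℕ → ℂ)}

theorem move_BL10 {u : ℕ → TC PA →ₗ[ℚ] ℚ} (hu : IsU u) {S₀ T₀ S₁ T₁ : Set (W × PA)}
    (hi : SIso id S₀ T₀ S₁ T₁) (h1 : S₁ ⊆ PV S V) (h2 : MapsTo Prod.fst T₁ T)
    (h : MIso (fun i => (sl (u i) : TC (W × PA) →ₗ[ℚ] TC W)) r (cn S₀) (cn T₀) (cn S) (cn T)) :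
    MIso (fun i => (sl (u i) : TC (W × PA) →ₗ[ℚ] TC W)) r (cn S₁) (cn T₁) (cn S) (cn T) := by
  have e := hi.hiso
  rw [pu_id] at e
  refine hiso_LL.1 (e.of_comp_left (CMap.hmap (cmap_LL fun i _ => ?_) fun c hc => ?_)
    (hiso_LL.2 h))
  · refine sl_cmap (E := Pz) (fun a ha => (hu i).1.bb _ (D_mem_BB ha)) (fun x hx => (h1 hx).1)
      fun x hx => ?_
    obtain ⟨v, -, h0, e⟩ := (h1 hx).2
    exact ⟨v, h0, e⟩
  · exact mem_piS.2 fun i => sl_mem _ h2 hc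

theorem thom_rk (h : LF r S V) (hT : RO T S) :
    (∀ k, RK (Tot S V) (TotC S T V) (k + 2 * r) = RK S T k) ∧
    (∀ k < 2 * r, RK (Tot S V) (TotC S T V) k = 0) ∧
    (Ont (Tot S V) (Tot S V) (TotC S T V) → Ont S S T) := by
  obtain ⟨V₀, V₁, B, j, h0, h1, hB, hA, i1, i2, i3⟩ := completion h hT
  obtain ⟨u, hu⟩ := exists_U
  have hs : PV T V₁ ∪ B ⊆ PV S V₁ := union_subset hA.subset hB.subset
  have hN := small_ro (hA.of_subset subset_union_left hs) (hB.of_subset subset_union_right hs)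
  have m1 := hu.lh_pair h1 hT.subset
  have m2 := move_BL10 hu i1 hB.subset (fun x hx => hx.2.1) (hu.lh_pair h0 hT.subset)
  rw [cn_inter] at m2
  have a2 := move_BL10 (T := ∅) hu i2 hB.subset (mapsTo_empty _ _)
    (by rw [cn_empty, cn_empty]; exact hu.lh h0)
  rw [cn_empty, cn_empty] at a2
  have key := thom_alg (gpr_cn hs) (gpr_cn subset_union_left) (gpr_cn subset_union_right)
    (gpr_cn hT.subset) hN (fun i _ => sl_deg (hu i).1.dg) m1 m2
  refine ⟨fun k => (i3.rk _).trans (key.1 k), fun k hk => (i3.rk _).trans (key.2 k hk),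
    fun ho => ?_⟩
  exact thom_onto (pr_cn hs) (pr_cn subset_union_left) (pr_cn subset_union_right)
    (pr_cn hT.subset) hN m1 m2 (hu.lh h1) a2 (i3.ont subset_rfl i3.mS ho)

theorem assoc_BL10 (S T : Set W) (V : W → Submodule ℂ (ℕ → ℂ)) (B : Type) [TopologicalSpace B] :
    SIso (fun x : B × W × (ℕ → ℂ) => ((x.1, x.2.1), x.2.2)) (up B (Tot S V)) (up B (TotC S T V))
      (Tot (up B S) fun x => V x.2) (TotC (up B S) (up B T) fun x => V x.2) :=
  SIso.of_inv (k := fun y => (y.1.1, y.1.2, y.2)) (fun _ hx => hx.1) (fun _ hx => hx.1)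
    (by fun_prop) (by fun_prop) (fun _ hx => hx) (fun _ hx => hx) (fun _ hx => hx)
    (fun _ hx => hx) (fun _ _ => rfl) fun _ _ => rfl

theorem thom (h : LF r S V) (hT : RO T S) : Sh (2 * r) S T (Tot S V) (TotC S T V) := by
  refine ⟨fun B _ k => ?_, fun B _ k hk => ?_, fun B _ ho => ?_⟩
  · exact ((assoc_BL10 S T V B).rk _).trans ((thom_rk (h.up B) (hT.up B)).1 k)
  · exact ((assoc_BL10 S T V B).rk _).trans ((thom_rk (h.up B) (hT.up B)).2.1 k hk)
  · exact (thom_rk (h.up B) (hT.up B)).2.2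
      ((assoc_BL10 S T V B).ont subset_rfl (assoc_BL10 S T V B).mS ho)

end Pool.Agent.Bet
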