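import Pool.Agent.P.MP_d34769_ag.BB4
import Pool.Agent.P.MP_d34769_ag.BL10

/-! TASK BB5: the equivariant Thom isomorphism. -/

open Set

namespace Pool.Agent.Bet

variable {Γ X F : Type} [Group Γ] [TopologicalSpace Γ] [IsTopologicalGroup Γ]
  [TopologicalSpace X] [MulAction Γ X] [ContinuousSMul Γ X] [AddCommGroup F] [Module ℂ F]
  [TopologicalSpace F] [IsTopologicalAddGroup F] [ContinuousSMul ℂ F] [T2Space F]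
  [DistribMulAction Γ F] [SMulCommClass Γ ℂ F] [ContinuousSMul Γ F]
  {S T : Set X} {F₀ : Submodule ℂ F} [FiniteDimensional ℂ F₀] {J : X → F →ₗ[ℂ] (ℕ → ℂ)}

theorem assoc_eqv (hS : Ivt Γ S) (hP : Prin Γ S) (hJ : Emb Γ S F₀ J) (hT : Ivt Γ T) (h : T ⊆ S) :
    Eqv (qs Γ (S ×ˢ (F₀ : Set F))) (qs Γ {x | x ∈ S ×ˢ (F₀ : Set F) ∧ (x.1 ∈ T ∨ x.2 ≠ 0)})
      (Tot (qs Γ S) (asV Γ F₀ J)) (TotC (qs Γ S) (qs Γ T) (asV Γ F₀ J)) := by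
  obtain ⟨g, cg, hg⟩ := assoc_inv hS hP hJ
  have hI : Ivt Γ (S ×ˢ (F₀ : Set F)) := hS.prod hJ.ivt
  have hi : ∀ γ : Γ, ∀ x ∈ S ×ˢ (F₀ : Set F),
      (qm Γ (γ • x).1, J (γ • x).1 (γ • x).2) = (qm Γ x.1, J x.1 x.2) := fun γ x hx =>
    Prod.ext (qm_smul γ x.1) (hJ.inv γ x.1 hx.1 x.2 hx.2)
  have hf : ∀ x ∈ S ×ˢ (F₀ : Set F),
      dsc Γ (fun x : X × F => (qm Γ x.1, J x.1 x.2)) (qm Γ x) = (qm Γ x.1, J x.1 x.2) :=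
    fun x hx => dsc_qm fun γ => hi γ x hx
  have cf : ContinuousOn (dsc Γ fun x : X × F => (qm Γ x.1, J x.1 x.2))
      (qs Γ (S ×ˢ (F₀ : Set F))) :=
    dsc_cont hI ((continuous_qm.comp continuous_fst).continuousOn.prodMk hJ.cont) hi
  have hT' : ∀ y ∈ Tot (qs Γ S) (asV Γ F₀ J), ∃ x ∈ S, ∃ v ∈ F₀, y = (qm Γ x, J x v) := by
    rintro ⟨w, y⟩ ⟨⟨x, hx, rfl⟩, hy⟩
    have hy' : y ∈ F₀.map (J x) := by
      rw [← asV_qm hS hJ hx]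
      exact hy
    obtain ⟨v, hv, rfl⟩ := hy'
    exact ⟨x, hx, v, hv, rfl⟩
  have m1 : MapsTo (dsc Γ fun x : X × F => (qm Γ x.1, J x.1 x.2)) (qs Γ (S ×ˢ (F₀ : Set F)))
      (Tot (qs Γ S) (asV Γ F₀ J)) := by
    rintro _ ⟨x, hx, rfl⟩
    rw [hf x hx]
    refine ⟨⟨x.1, hx.1, rfl⟩, ?_⟩
    show J x.1 x.2 ∈ asV Γ F₀ J (qm Γ x.1)
    rw [asV_qm hS hJ hx.1]
    exact ⟨x.2, hx.2, rfl⟩
  have m3 : MapsTo g (Tot (qs Γ S) (asV Γ F₀ J)) (qs Γ (S ×ˢ (F₀ : Set F))) := by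
    intro y hy
    obtain ⟨x, hx, v, hv, rfl⟩ := hT' y hy
    rw [hg x hx v hv]
    exact ⟨(x, v), ⟨hx, hv⟩, rfl⟩
  have e : ∀ w ∈ qs Γ (S ×ˢ (F₀ : Set F)),
      g (dsc Γ (fun x : X × F => (qm Γ x.1, J x.1 x.2)) w) = w := by
    rintro _ ⟨x, hx, rfl⟩
    rw [hf x hx, hg x.1 hx.1 x.2 hx.2]
  have e' : ∀ y ∈ Tot (qs Γ S) (asV Γ F₀ J),
      dsc Γ (fun x : X × F => (qm Γ x.1, J x.1 x.2)) (g y) = y := by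
    intro y hy
    obtain ⟨x, hx, v, hv, rfl⟩ := hT' y hy
    rw [hg x hx v hv, hf (x, v) ⟨hx, hv⟩]
  refine SIso.eqv (SIso.of_inv (qs_mono fun x hx => hx.1) (fun y hy => hy.1) cf cg m1 ?_ m3 ?_ e e')
    (SIso.of_inv (empty_subset _) (empty_subset _) cf cg m1 (mapsTo_empty _ _) m3
      (mapsTo_empty _ _) e e')
  · rintro _ ⟨x, hx, rfl⟩
    refine ⟨m1 ⟨x, hx.1, rfl⟩, ?_⟩
    rw [hf x hx.1]
    rcases hx.2 with h1 | h1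
    · exact Or.inl ⟨x.1, h1, rfl⟩
    · exact Or.inr fun h2 => h1 (hJ.inj x.1 hx.1.1 x.2 hx.1.2 h2)
  · intro y hy
    obtain ⟨x, hx, v, hv, rfl⟩ := hT' y hy.1
    rw [hg x hx v hv]
    refine ⟨(x, v), ⟨⟨hx, hv⟩, ?_⟩, rfl⟩
    rcases hy.2 with h1 | h1
    · exact Or.inl ((mem_qs hT).1 h1)
    · refine Or.inr fun h2 => h1 ?_
      show J x v = 0
      rw [show v = 0 from h2, map_zero]

theorem q_thom (hS : Ivt Γ S) (hP : Prin Γ S) (hJ : Emb Γ S F₀ J) (hT : Ivt Γ T) (h : RO T S) :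
    Sh (2 * Module.finrank ℂ F₀) (qs Γ S) (qs Γ T) (qs Γ (S ×ˢ (F₀ : Set F)))
      (qs Γ {x | x ∈ S ×ˢ (F₀ : Set F) ∧ (x.1 ∈ T ∨ x.2 ≠ 0)}) := by
  exact (thom (assoc_lf hS hP hJ) (h.qs hT hS)).trans (assoc_eqv hS hP hJ hT h.subset).2

end Pool.Agent.Bet
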