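import Pool.Agent.P.MP_d34769_ag.BB3

/-! TASK BB6: the absorbing self-map of the punctured bundle. -/

open Set

namespace Pool.Agent.Bet

variable {Γ X Y F : Type} [Group Γ] [TopologicalSpace Γ] [IsTopologicalGroup Γ]
  [TopologicalSpace X] [MulAction Γ X] [ContinuousSMul Γ X] [TopologicalSpace Y] [MulAction Γ Y]
  [ContinuousSMul Γ Y] [AddCommGroup F] [Module ℂ F]
  [TopologicalSpace F] [IsTopologicalAddGroup F] [ContinuousSMul ℂ F] [T2Space F]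
  [DistribMulAction Γ F] [SMulCommClass Γ ℂ F] [ContinuousSMul Γ F]
  {S₀ : Set X} {E : Set Y} {F₀ : Submodule ℂ F} {N : F → ℝ} {α : Y × F → Y}

/-- the rescaling homotopy of the punctured fibre -/
noncomputable def sc_BB6 (N : F → ℝ) (t : ℝ) (v : F) : F :=
  (((1 - t) + t * (N v)⁻¹ : ℝ) : ℂ) • v

theorem Wt.siso (h : Wt Γ S₀ E F₀ N α) (hS : Ivt Γ S₀) (hE : Ivt Γ E) (hF : Ivt Γ (F₀ : Set F))
    (hP : Prin Γ E) [ContractibleSpace E] :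
    ∃ μ : (X × Y) × F → (X × Y) × F,
      ContinuousOn μ ((S₀ ×ˢ E) ×ˢ ((F₀ : Set F) \ {0})) ∧
      (∀ x ∈ (S₀ ×ˢ E) ×ˢ ((F₀ : Set F) \ {0}), ∀ a : ℂ, a ≠ 0 →
        qm Γ (μ (x.1, a • x.2)) = qm Γ (μ x)) ∧
      (∀ x ∈ (S₀ ×ˢ E) ×ˢ ((F₀ : Set F) \ {0}), ∀ γ : Γ, qm Γ (μ (γ • x)) = qm Γ (μ x)) ∧
      SIso (dsc Γ fun x => qm Γ (μ x)) (qs Γ ((S₀ ×ˢ E) ×ˢ ((F₀ : Set F) \ {0}))) ∅
        (qs Γ ((S₀ ×ˢ E) ×ˢ ((F₀ : Set F) \ {0}))) ∅ := by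
  set P : Set F := (F₀ : Set F) \ {0} with hPdef
  have iP : Ivt Γ P := fun γ v hv =>
    ⟨hF γ v hv.1, fun e => hv.2 ((smul_eq_zero_iff_eq γ).1 e)⟩
  have scm : ∀ t ∈ Icc (0 : ℝ) 1, ∀ v ∈ P, sc_BB6 N t v ∈ P := by
    intro t ht v hv
    have hp := h.pos v hv.1 hv.2
    refine ⟨F₀.smul_mem _ hv.1, fun e => hv.2 ?_⟩
    have hpos : (0 : ℝ) < (1 - t) + t * (N v)⁻¹ := by
      have h1 := inv_pos.2 hp
      rcases eq_or_lt_of_le ht.1 with h0 | h0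
      · rw [← h0]; norm_num
      · have := mul_pos h0 h1
        linarith [ht.2]
    rcases smul_eq_zero.1 (show sc_BB6 N t v = 0 from e) with h2 | h2
    · exact absurd (Complex.ofReal_eq_zero.1 h2) hpos.ne'
    · exact h2
  have sce : ∀ t : ℝ, ∀ γ : Γ, ∀ v ∈ P, sc_BB6 N t (γ • v) = γ • sc_BB6 N t v := by
    intro t γ v hv
    rw [sc_BB6, sc_BB6, h.inv γ v hv.1, smul_comm γ]
  have scc : ContinuousOn (fun p : ℝ × F => sc_BB6 N p.1 p.2) (univ ×ˢ P) := by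
    have c1 : ContinuousOn (fun p : ℝ × F => (N p.2)⁻¹) (univ ×ˢ P) :=
      ((h.cN.comp continuous_snd.continuousOn fun p hp => hp.2.1)).inv₀
        fun p hp => (h.pos _ hp.2.1 hp.2.2).ne'
    refine ContinuousOn.smul ?_ continuous_snd.continuousOn
    exact Complex.continuous_ofReal.comp_continuousOn
      ((continuous_const.sub continuous_fst).continuousOn.add
        (continuous_fst.continuousOn.mul c1))
  have sc0 : ∀ v : F, sc_BB6 N 0 v = v := fun v => by simp [sc_BB6]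
  have h1 : (1 : ℝ) ∈ Icc (0 : ℝ) 1 := ⟨zero_le_one, le_rfl⟩
  have c1 : ContinuousOn (sc_BB6 N 1) P :=
    scc.comp (f := fun v : F => ((1 : ℝ), v)) (continuous_const.prodMk continuous_id).continuousOn
      fun v hv => ⟨mem_univ _, hv⟩
  let H : ℝ → (X × Y) × F → (X × Y) × F := fun t x =>
    ((x.1.1, α (x.1.2, sc_BB6 N 1 x.2)), sc_BB6 N t x.2)
  have cA : ContinuousOn (fun x : (X × Y) × F => α (x.1.2, sc_BB6 N 1 x.2)) ((S₀ ×ˢ E) ×ˢ P) :=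
    h.cα.comp ((continuous_snd.comp continuous_fst).continuousOn.prodMk
      (c1.comp continuous_snd.continuousOn fun x hx => hx.2))
      fun x hx => ⟨hx.1.2, scm 1 h1 _ hx.2⟩
  have hH : Htp H ((S₀ ×ˢ E) ×ˢ P) ((S₀ ×ˢ E) ×ˢ P) := by
    refine ⟨?_, fun t ht x hx => ⟨⟨hx.1.1, h.map ⟨hx.1.2, scm 1 h1 _ hx.2⟩⟩, scm t ht _ hx.2⟩⟩
    refine ContinuousOn.prodMk (ContinuousOn.prodMk ?_ ?_) ?_
    · exact (continuous_fst.comp (continuous_fst.comp continuous_snd)).continuousOn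
    · exact cA.comp continuous_snd.continuousOn fun p hp => hp.2
    · exact scc.comp (f := fun p : ℝ × ((X × Y) × F) => (p.1, p.2.2))
        (continuous_fst.prodMk (continuous_snd.comp continuous_snd)).continuousOn
        fun p hp => ⟨mem_univ _, hp.2.2⟩
  have He : ∀ t : ℝ, ∀ γ : Γ, ∀ x ∈ (S₀ ×ˢ E) ×ˢ P, H t (γ • x) = γ • H t x := by
    intro t γ x hx
    have e1 := h.equiv γ (x.1.2, sc_BB6 N 1 x.2) ⟨hx.1.2, scm 1 h1 _ hx.2⟩
    refine Prod.ext (Prod.ext rfl ?_) (sce t γ _ hx.2)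
    change α (γ • x.1.2, sc_BB6 N 1 (γ • x.2)) = γ • α (x.1.2, sc_BB6 N 1 x.2)
    rw [sce 1 γ _ hx.2, ← e1]
    rfl
  have iW : Ivt Γ ((S₀ ×ˢ E) ×ˢ P) := (hS.prod hE).prod iP
  have iW' : Ivt Γ ((S₀ ×ˢ P) ×ˢ E) := (hS.prod iP).prod hE
  refine ⟨H 1, ?_, ?_, ?_, ?_⟩
  · exact hH.cont.comp (f := fun x : (X × Y) × F => ((1 : ℝ), x))
      (continuous_const.prodMk continuous_id).continuousOn fun x hx => ⟨h1, hx⟩
  · intro x hx a ha
    have hn : (‖a‖ : ℂ) ≠ 0 := Complex.ofReal_ne_zero.2 (norm_ne_zero_iff.2 ha)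
    have hb : ‖a / (‖a‖ : ℂ)‖ = 1 := by
      rw [norm_div, Complex.norm_real, norm_norm, div_self (norm_ne_zero_iff.2 ha)]
    obtain ⟨γ, g1, g2, g3⟩ := h.circ _ hb
    have hv := scm 1 h1 _ hx.2
    have e : sc_BB6 N 1 (a • x.2) = (a / (‖a‖ : ℂ)) • sc_BB6 N 1 x.2 := by
      have hN : (N x.2 : ℂ) ≠ 0 := Complex.ofReal_ne_zero.2 (h.pos _ hx.2.1 hx.2.2).ne'
      rw [sc_BB6, sc_BB6, h.hom a _ hx.2.1, smul_smul, smul_smul]
      congr 1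
      push_cast
      field_simp
      ring
    rw [← qm_smul γ (H 1 x)]
    congr 1
    refine Prod.ext (Prod.ext (g1 _ hx.1.1).symm ?_) ?_
    · change α (x.1.2, sc_BB6 N 1 (a • x.2)) = γ • α (x.1.2, sc_BB6 N 1 x.2)
      rw [e, g3 _ hx.1.2 _ hv.1 hv.2]
    · change sc_BB6 N 1 (a • x.2) = γ • sc_BB6 N 1 x.2
      rw [e, g2 _ hv.1]
  · intro x hx γ
    rw [He 1 γ x hx, qm_smul]
  · let j : (X × Y) × F → (X × F) × Y := fun x => ((x.1.1, x.2), x.1.2)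
    let i : (X × F) × Y → (X × Y) × F := fun x => ((x.1.1, x.2), x.1.2)
    have cj : Continuous j := by fun_prop
    have ci : Continuous i := by fun_prop
    have mj : MapsTo j ((S₀ ×ˢ E) ×ˢ P) ((S₀ ×ˢ P) ×ˢ E) := fun x hx => ⟨⟨hx.1.1, hx.2⟩, hx.1.2⟩
    have mi : MapsTo i ((S₀ ×ˢ P) ×ˢ E) ((S₀ ×ˢ E) ×ˢ P) := fun x hx => ⟨⟨hx.1.1, hx.2⟩, hx.1.2⟩
    have s1 := (q_eqv (Γ := Γ) (Λ := Γ) (T := ∅) (T' := ∅) iW iW' (empty_subset _) (empty_subset _)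
      cj.continuousOn ci.continuousOn mj (mapsTo_empty _ _) mi (mapsTo_empty _ _)
      (fun γ x _ => ⟨γ, rfl⟩) (fun γ x _ => ⟨γ, rfl⟩) (fun x _ => ⟨1, one_smul _ _⟩)
      (fun x _ => ⟨1, one_smul _ _⟩)).2.1
    have s3 := (q_eqv (Γ := Γ) (Λ := Γ) (T := ∅) (T' := ∅) iW' iW (empty_subset _) (empty_subset _)
      ci.continuousOn cj.continuousOn mi (mapsTo_empty _ _) mj (mapsTo_empty _ _)
      (fun γ x _ => ⟨γ, rfl⟩) (fun γ x _ => ⟨γ, rfl⟩) (fun x _ => ⟨1, one_smul _ _⟩)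
      (fun x _ => ⟨1, one_smul _ _⟩)).2.1
    have ea : ∀ γ : Γ, ∀ x ∈ (S₀ ×ˢ P) ×ˢ E,
        α ((γ • x).2, sc_BB6 N 1 (γ • x).1.2) = γ • α (x.2, sc_BB6 N 1 x.1.2) := fun γ x hx =>
      congrArg (fun p : (X × Y) × F => p.1.2) (He 1 γ (i x) (mi hx))
    have s2 := q_abs (Γ := Γ) (S := S₀ ×ˢ P) (E := E) (E' := E) (hS.prod iP) hE hE hP.prod_right
      hP.prod_right (α := fun x : (X × F) × Y => α (x.2, sc_BB6 N 1 x.1.2))
      (cA.comp ci.continuousOn mi) (fun x hx => h.map ⟨hx.2, scm 1 h1 _ hx.1.2⟩) ea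
    have s4 := (s3.comp (s2.comp s1)).congr (f' := dsc Γ fun x => qm Γ (H 0 x)) (by
      rintro _ ⟨x, hx, rfl⟩
      simp only [Function.comp_apply]
      rw [dsc_qm (g := fun x => qm Γ (j x)) (fun γ => qm_smul γ (j x)),
        dsc_qm (g := fun x : (X × F) × Y => qm Γ (x.1, α (x.2, sc_BB6 N 1 x.1.2))) (fun γ => by
          rw [ea γ _ (mj hx)]
          exact qm_smul γ ((j x).1, α ((j x).2, sc_BB6 N 1 (j x).1.2))),
        dsc_qm (g := fun x => qm Γ (i x)) (fun γ => qm_smul γ (i _)),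
        dsc_qm (g := fun x => qm Γ (H 0 x)) (fun γ => by rw [He 0 γ x hx, qm_smul])]
      simp only [H, sc0]
      rfl)
    exact SIso.of_htp (q_htp (Λ := Γ) iW hH fun t _ γ x hx => ⟨γ, (He t γ x hx).symm⟩)
      (fun _ _ => mapsTo_empty _ _) s4

end Pool.Agent.Bet
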