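import Pool.Agent.P.MP_d34769_ag.BL8

/-! TASK BL11: the Gysin sequence splits if the sphere bundle injects into the projective
bundle. -/

open Set

namespace Pool.Agent.Bet

variable {W : Type} [TopologicalSpace W] {r : ℕ} {S : Set W} {V : W → Submodule ℂ (ℕ → ℂ)}

lemma hmap_BL11 {X Y : Type} [TopologicalSpace X] [TopologicalSpace Y] {f : X → Y} {A : Set X}
    {A' : Set Y} (hf : Continuous f) (h : MapsTo f A A') : HMap (pu f) (cn A) ⊥ (cn A') ⊥ := by
  simpa using hmap_pu (T := ∅) (T' := ∅) hf.continuousOn h (mapsTo_empty _ _)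

theorem core_ont (h : LF r S V)
    (hi : Inj (pu (Prod.map id pm)) (cn (TotC S ∅ V)) ⊥ (cn (PV S V)) ⊥) :
    Ont (Tot S V) (Tot S V) (TotC S ∅ V) := by
  obtain ⟨u, hu⟩ := exists_U
  have hsub : TotC S ∅ V ⊆ Tot S V := fun x hx => hx.1
  refine Inj.srj ?_ ⟨cn_mono hsub, stb_cn _, stb_cn _⟩ (stb_cn _).pr_bot
  intro z hz hb
  have hfst : pu Prod.fst z ∈ BB (cn S) ⊥ :=
    (hmap_BL11 (A := Tot S V) continuous_fst fun x hx => hx.1).2 z hb
  have hc : Continuous pm := isOpenQuotientMap_pm.continuous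
  have hc' : Continuous (Prod.map id pm : W × (ℕ → ℂ) → W × PA) := continuous_id.prodMap hc
  have hm : MapsTo (Prod.map id pm) (TotC S ∅ V) (PV S V) :=
    fun x hx => ⟨hx.1.1, x.2, hx.1.2, hx.2.resolve_left id, rfl⟩
  have hs : MapsTo Prod.snd (TotC S ∅ V) ({0}ᶜ : Set (ℕ → ℂ)) :=
    fun x hx => hx.2.resolve_left id
  refine hi z hz ((hu.lh h).inj _ ((hmap_BL11 hc' hm).1 z hz) fun i _ => ?_)
  have := contractible_ne
  obtain ⟨a, ha⟩ := coc_ctr (ω := u i ∘ₗ pu pm) {0}ᶜ fun c hc0 => by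
    rw [LinearMap.comp_apply, pu_D hc.continuousOn hc0]
    exact (hu i).1.bb _ (D_mem_BB (pu_mem (mapsTo_image _ _) hc0))
  rw [sl_pu (u i) hc'.continuousOn hz.1]
  have hcoh := cap_coh (A := TotC S ∅ V) (A₀ := ∅)
    (ω := u i ∘ₗ pu fun x : W × (ℕ → ℂ) => (Prod.map id pm x).2) (ω' := a • aug) (c := z)
    (empty_subset _) (fun w hw => by
      rw [cn_empty] at hw
      have h1 := ha _ ((hmap_BL11 continuous_snd hs).1 w hw)
      rw [LinearMap.comp_apply, pu_pu continuous_snd.continuousOn hw.1,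
        aug_pu continuous_snd.continuousOn hw.1] at h1
      exact h1) (by rwa [cn_empty])
  rw [cap_smul, cap_aug] at hcoh
  have h2 := (hmap_BL11 (A := TotC S ∅ V) (A' := S) continuous_fst fun x hx => hx.1.1).2 _ hcoh
  rw [map_sub, map_smul] at h2
  have h3 := Submodule.add_mem _ h2 (Submodule.smul_mem _ a hfst)
  rw [sub_add_cancel] at h3
  exact h3

theorem core (h : LF r S V) (hi : ∀ (B : Type) [TopologicalSpace B],
    Inj (pu (Prod.map id (Prod.map id pm))) (cn (up B (TotC S ∅ V))) ⊥ (cn (up B (PV S V))) ⊥) :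
    SO (Tot S V) (Tot S V) (TotC S ∅ V) := by
  intro B _
  have hc : Continuous pm := isOpenQuotientMap_pm.continuous
  have c1 : Continuous fun x : (B × W) × (ℕ → ℂ) => (x.1.1, (x.1.2, x.2)) := by fun_prop
  have c2 : Continuous fun x : B × (W × (ℕ → ℂ)) => ((x.1, x.2.1), x.2.2) := by fun_prop
  have c3 : Continuous fun x : (B × W) × PA => (x.1.1, (x.1.2, x.2)) := by fun_prop
  have c4 : Continuous (Prod.map id pm : (B × W) × (ℕ → ℂ) → (B × W) × PA) :=
    continuous_id.prodMap hc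
  have ho := core_ont (h.up B) fun z hz hb => by
    have h1 := (hmap_BL11 (A := TotC (up B S) ∅ fun x => V x.2) (A' := up B (TotC S ∅ V)) c1
      fun _ hx => hx).1 z hz
    have h2 := (hmap_BL11 (A := PV (up B S) fun x => V x.2) (A' := up B (PV S V)) c3
      fun _ hx => hx).2 _ hb
    rw [pu_pu c4.continuousOn hz.1] at h2
    have h3 := hi B _ h1 (by rw [pu_pu c1.continuousOn hz.1]; exact h2)
    have h4 := (hmap_BL11 (A' := TotC (up B S) ∅ fun x => V x.2) (A := up B (TotC S ∅ V)) c2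
      fun _ hx => hx).2 _ h3
    rwa [pu_pu c1.continuousOn hz.1, pu_of_eqOn ?_ hz.1] at h4
    exact fun _ _ => rfl
  exact (SIso.of_inv (S := Tot (up B S) fun x => V x.2) (T := TotC (up B S) ∅ fun x => V x.2)
    (S' := up B (Tot S V)) (T' := up B (TotC S ∅ V)) (fun _ hx => hx.1) (fun _ hx => hx.1)
    c1.continuousOn c2.continuousOn (fun _ hx => hx) (fun _ hx => hx) (fun _ hx => hx)
    (fun _ hx => hx) (fun _ _ => rfl) fun _ _ => rfl).ont subset_rfl (fun _ hx => hx) ho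

end Pool.Agent.Bet
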