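import Pool.Agent.P.MP_d34769_ag.BB5
import Pool.Agent.P.MP_d34769_ag.BB6
import Pool.Agent.P.MP_d34769_ag.BL11

/-! TASK BB7: the lemma of Atiyah and Bott for a weight one action. -/

open Set

namespace Pool.Agent.Bet

theorem inj_BB7 {A B C : Type} [TopologicalSpace A] [TopologicalSpace B] [TopologicalSpace C]
    {p : A → B} {ρ : B → C} {k : A → C} {S : Set A} {S' : Set B} {S'' : Set C}
    (cp : ContinuousOn p S) (cρ : ContinuousOn ρ S') (mρ : MapsTo ρ S' S'')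
    (e : ∀ x ∈ S, ρ (p x) = k x) (hk : SIso k S ∅ S'' ∅) (W : Type) [TopologicalSpace W] :
    Inj (pu (Prod.map id p : W × A → W × B)) (cn (up W S)) ⊥ (cn (up W S')) ⊥ := by
  intro z hz hb
  have c1 : ContinuousOn (Prod.map id ρ : W × B → W × C) (up W S') :=
    continuous_fst.continuousOn.prodMk (cρ.comp continuous_snd.continuousOn fun _ hx => hx)
  have c2 : ContinuousOn (Prod.map id p : W × A → W × B) (up W S) :=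
    continuous_fst.continuousOn.prodMk (cp.comp continuous_snd.continuousOn fun _ hx => hx)
  have h1 := hmap_pu (T := ∅) (T' := ∅) (S' := up W S'') c1 (fun _ hx => mρ hx) (mapsTo_empty _ _)
  have h2 := (hk.iso W).inj
  simp only [up_empty, cn_empty] at h1 h2
  refine h2 z hz ?_
  have h3 := h1.2 _ hb
  have e1 : EqOn (Prod.map id ρ ∘ Prod.map id p : W × A → W × C) (Prod.map id k) (up W S) :=
    fun x hx => Prod.ext rfl (e x.2 hx)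
  rwa [pu_pu c2 hz.1, pu_congr e1 hz.1] at h3

variable {Γ X Y F : Type} [Group Γ] [TopologicalSpace Γ] [IsTopologicalGroup Γ]
  [TopologicalSpace X] [MulAction Γ X] [ContinuousSMul Γ X] [TopologicalSpace Y] [MulAction Γ Y]
  [ContinuousSMul Γ Y] [AddCommGroup F] [Module ℂ F]
  [TopologicalSpace F] [IsTopologicalAddGroup F] [ContinuousSMul ℂ F] [T2Space F]
  [DistribMulAction Γ F] [SMulCommClass Γ ℂ F] [ContinuousSMul Γ F]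
  {S₀ : Set X} {E : Set Y} {F₀ : Submodule ℂ F} {N : F → ℝ} {α : Y × F → Y}

theorem totc_BB7 {S : Set X} [FiniteDimensional ℂ F₀] {J : X → F →ₗ[ℂ] (ℕ → ℂ)} (hS : Ivt Γ S)
    (hJ : Emb Γ S F₀ J) {x : Q Γ X × (ℕ → ℂ)} : x ∈ TotC (qs Γ S) ∅ (asV Γ F₀ J) ↔
      ∃ y ∈ S ×ˢ ((F₀ : Set F) \ {0}), (qm Γ y.1, J y.1 y.2) = x := by
  constructor
  · rintro ⟨⟨⟨z, hz, e⟩, h2⟩, h3⟩
    rw [← e, asV_qm hS hJ hz] at h2
    obtain ⟨v, hv, e'⟩ := h2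
    refine ⟨(z, v), ⟨hz, hv, fun h0 => ?_⟩, Prod.ext e e'⟩
    have h4 : v = 0 := h0
    rw [h4, map_zero] at e'
    exact h3.elim (fun h => h) fun h => h e'.symm
  · rintro ⟨⟨z, v⟩, ⟨hz, hv, h0⟩, rfl⟩
    refine ⟨⟨⟨z, hz, rfl⟩, ?_⟩, Or.inr fun h => h0 (hJ.inj z hz v hv h)⟩
    show J z v ∈ asV Γ F₀ J (qm Γ z)
    rw [asV_qm hS hJ hz]
    exact ⟨v, hv, rfl⟩

theorem siso_BB7 {S : Set X} [FiniteDimensional ℂ F₀] {J : X → F →ₗ[ℂ] (ℕ → ℂ)} (hS : Ivt Γ S)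
    (hJ : Emb Γ S F₀ J) {g : Q Γ X × (ℕ → ℂ) → Q Γ (X × F)}
    (cg : ContinuousOn g (Tot (qs Γ S) (asV Γ F₀ J)))
    (hg : ∀ x ∈ S, ∀ v ∈ F₀, g (qm Γ x, J x v) = qm Γ (x, v)) :
    SIso g (TotC (qs Γ S) ∅ (asV Γ F₀ J)) ∅ (qs Γ (S ×ˢ ((F₀ : Set F) \ {0}))) ∅ := by
  have hA : Ivt Γ (S ×ˢ ((F₀ : Set F) \ {0})) :=
    hS.prod (hJ.ivt.diff fun γ v hv => by rw [show v = 0 from hv]; exact smul_zero γ)
  have hi : ∀ γ : Γ, ∀ x ∈ S ×ˢ ((F₀ : Set F) \ {0}),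
      (qm Γ (γ • x).1, J (γ • x).1 (γ • x).2) = (qm Γ x.1, J x.1 x.2) :=
    fun γ x hx => Prod.ext (qm_smul γ x.1) (hJ.inv γ x.1 hx.1 x.2 hx.2.1)
  have hf : ∀ x ∈ S ×ˢ ((F₀ : Set F) \ {0}),
      dsc Γ (fun x : X × F => (qm Γ x.1, J x.1 x.2)) (qm Γ x) = (qm Γ x.1, J x.1 x.2) :=
    fun x hx => dsc_qm fun γ => hi γ x hx
  refine SIso.of_inv (k := dsc Γ fun x : X × F => (qm Γ x.1, J x.1 x.2)) (empty_subset _)
    (empty_subset _) (cg.mono fun _ hx => hx.1) (dsc_cont hA ?_ hi) ?_ (mapsTo_empty _ _) ?_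
    (mapsTo_empty _ _) ?_ ?_
  · exact (continuous_qm.comp continuous_fst).continuousOn.prodMk
      (hJ.cont.mono fun _ hx => ⟨hx.1, hx.2.1⟩)
  · intro x hx
    obtain ⟨y, hy, rfl⟩ := (totc_BB7 hS hJ).1 hx
    exact ⟨y, hy, (hg _ hy.1 _ hy.2.1).symm⟩
  · rintro _ ⟨y, hy, rfl⟩
    exact (totc_BB7 hS hJ).2 ⟨y, hy, (hf y hy).symm⟩
  · intro x hx
    obtain ⟨y, hy, rfl⟩ := (totc_BB7 hS hJ).1 hx
    rw [hg _ hy.1 _ hy.2.1]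
    exact hf y hy
  · rintro _ ⟨y, hy, rfl⟩
    rw [hf y hy, hg _ hy.1 _ hy.2.1]

theorem Wt.so [FiniteDimensional ℂ F₀] (h : Wt Γ S₀ E F₀ N α) (hS : Ivt Γ S₀) (hE : Ivt Γ E)
    (hP : Prin Γ E) [ContractibleSpace E] {J : X × Y → F →ₗ[ℂ] (ℕ → ℂ)}
    (hJ : Emb Γ (S₀ ×ˢ E) F₀ J) :
    SO (qs Γ ((S₀ ×ˢ E) ×ˢ (F₀ : Set F))) (qs Γ ((S₀ ×ˢ E) ×ˢ (F₀ : Set F)))
      (qs Γ ((S₀ ×ˢ E) ×ˢ ((F₀ : Set F) \ {0}))) := by
  have hSE : Ivt Γ (S₀ ×ˢ E) := hS.prod hE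
  have hP' : Prin Γ (S₀ ×ˢ E) := fun x hx => by
    obtain ⟨U, h1, h2, τ, h3, h4⟩ := hP x.2 hx.2
    exact ⟨Prod.snd ⁻¹' U, h1.preimage continuous_snd, h2, fun y => τ y.2,
      h3.comp continuous_snd.continuousOn fun y hy => ⟨hy.1.2, hy.2⟩,
      fun γ y hy => h4 γ y.2 ⟨hy.1.2, hy.2⟩⟩
  have e0 : (S₀ ×ˢ E) ×ˢ ((F₀ : Set F) \ {0}) =
      {x | x ∈ (S₀ ×ˢ E) ×ˢ (F₀ : Set F) ∧ (x.1 ∈ (∅ : Set (X × Y)) ∨ x.2 ≠ 0)} :=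
    Set.ext fun x => ⟨fun hx => ⟨⟨hx.1, hx.2.1⟩, Or.inr hx.2.2⟩,
      fun hx => ⟨hx.1.1, hx.1.2, hx.2.resolve_left fun h => h⟩⟩
  have h1 := (assoc_eqv hSE hP' hJ (T := ∅) (fun _ _ hx => hx) (empty_subset _)).1
  rw [← e0, qs_empty] at h1
  refine h1.so (core (assoc_lf hSE hP' hJ) ?_)
  obtain ⟨g, cg, hg⟩ := assoc_inv hSE hP' hJ
  obtain ⟨μ, -, h3, h4, h5⟩ := h.siso hS hE hJ.ivt hP
  have h6 := h5.comp (siso_BB7 hSE hJ cg hg)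
  have hπ : IsOpenQuotientMap (Prod.map id pm : Q Γ (X × Y) × (ℕ → ℂ) → Q Γ (X × Y) × PA) :=
    IsOpenQuotientMap.id.prodMap isOpenQuotientMap_qm
  have e1 : PV (qs Γ (S₀ ×ˢ E)) (asV Γ F₀ J) =
      Prod.map id pm '' TotC (qs Γ (S₀ ×ˢ E)) ∅ (asV Γ F₀ J) := by
    ext x
    constructor
    · rintro ⟨h7, v, h8, h9, e⟩
      exact ⟨(x.1, v), ⟨⟨h7, h8⟩, Or.inr h9⟩, Prod.ext rfl e⟩
    · rintro ⟨y, hy, rfl⟩
      exact ⟨hy.1.1, y.2, hy.1.2, hy.2.resolve_left fun h => h, rfl⟩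
  have e2 : ∀ x ∈ TotC (qs Γ (S₀ ×ˢ E)) ∅ (asV Γ F₀ J),
      dsc Γ (fun x => qm Γ (μ x)) (g (x.1, (pm x.2).out)) =
        ((dsc Γ fun x => qm Γ (μ x)) ∘ g) x := by
    intro x hx
    obtain ⟨y, hy, rfl⟩ := (totc_BB7 hSE hJ).1 hx
    obtain ⟨a, ha⟩ := qm_eq.1 (qm_out (pm (J y.1 y.2)))
    have hy' : (y.1, (a : ℂ) • y.2) ∈ (S₀ ×ˢ E) ×ˢ ((F₀ : Set F) \ {0}) :=
      ⟨hy.1, F₀.smul_mem _ hy.2.1, smul_ne_zero a.ne_zero hy.2.2⟩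
    have e3 : (pm (J y.1 y.2)).out = J y.1 ((a : ℂ) • y.2) := by
      rw [← ha, map_smul]
      rfl
    simp only [Function.comp]
    rw [e3, hg _ hy.1 _ hy'.2.1, hg _ hy.1 _ hy.2.1, dsc_qm fun γ => h4 _ hy' γ,
      dsc_qm fun γ => h4 _ hy γ]
    exact h3 y hy a a.ne_zero
  refine inj_BB7 (ρ := fun x => dsc Γ (fun x => qm Γ (μ x)) (g (x.1, x.2.out)))
    hπ.continuous.continuousOn ?_ ?_ e2 h6
  · rw [e1]
    refine liftOn_cont hπ ?_ (h6.cont.congr e2)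
    intro x hx y e
    obtain ⟨a, ha⟩ := qm_eq.1 (congrArg Prod.snd e)
    have e4 : y.1 = x.1 := (Prod.ext_iff.1 e).1
    have e5 : y.2 = (a : ℂ) • x.2 := ha.symm
    refine ⟨⟨e4 ▸ hx.1.1, ?_⟩, Or.inr ?_⟩
    · rw [e4, e5]
      exact Submodule.smul_mem _ _ hx.1.2
    · rw [e5]
      exact smul_ne_zero a.ne_zero (hx.2.resolve_left fun h => h)
  · rw [e1]
    rintro _ ⟨x, hx, rfl⟩
    have h7 := h6.mS hx
    rw [← e2 x hx] at h7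
    exact h7

end Pool.Agent.Bet
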