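import Pool.Agent.P.MP_d34769_ag.BT1

/-! Coloured matrices, block groups, representations of a quiver and their strata. -/

open Set Classical Matrix

namespace Pool.Agent.Bet

noncomputable section

variable {ι : Type} [Fintype ι] [DecidableEq ι] {κ : Type} {Ar : Type}

/-- The general linear group. -/
abbrev GG (ι : Type) [Fintype ι] [DecidableEq ι] : Type := (Matrix ι ι ℂ)ˣ

/-- The diagonal projection onto the coordinates satisfying `P`. -/
def dp (P : ι → Prop) : Matrix ι ι ℂ := Matrix.diagonal fun i => if P i then 1 else 0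

omit [Fintype ι] in
lemma dp_apply (P : ι → Prop) (i j : ι) : dp P i j = if i = j ∧ P i then 1 else 0 := by
  simp only [dp, Matrix.diagonal_apply]
  by_cases h : i = j <;> simp [h]

lemma dp_mul_apply {n : Type} (P : ι → Prop) (M : Matrix ι n ℂ) (i : ι) (j : n) :
    (dp P * M) i j = if P i then M i j else 0 := by
  simp [dp, Matrix.diagonal_mul]

lemma mul_dp_apply {n : Type} (P : ι → Prop) (M : Matrix n ι ℂ) (i : n) (j : ι) :
    (M * dp P) i j = if P j then M i j else 0 := by
  simp [dp, Matrix.mul_diagonal]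

lemma dp_mulVec (P : ι → Prop) (x : ι → ℂ) (i : ι) : (dp P *ᵥ x) i = if P i then x i else 0 := by
  simp [dp, Matrix.mulVec_diagonal]

lemma dp_mul_dp (P P' : ι → Prop) : dp P * dp P' = dp fun i => P i ∧ P' i := by
  ext i j
  rw [dp_mul_apply, dp_apply, dp_apply]
  by_cases h : P i <;> simp [h]

lemma dp_comm (P P' : ι → Prop) : dp P * dp P' = dp P' * dp P := by
  simp only [dp_mul_dp, and_comm]

@[simp] lemma dp_idem (P : ι → Prop) : dp P * dp P = dp P := by
  simp only [dp_mul_dp, and_self]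

omit [Fintype ι] in
@[simp] lemma star_dp (P : ι → Prop) : star (dp P) = dp P := by
  ext i j
  simp only [star_apply, dp_apply]
  by_cases h : i = j
  · subst h; split_ifs <;> simp
  · simp [h, Ne.symm h]

omit [Fintype ι] in
lemma dp_congr {P P' : ι → Prop} (h : ∀ i, P i ↔ P' i) : dp P = dp P' :=
  congrArg dp (funext fun i => propext (h i))

omit [Fintype ι] in
lemma dp_false {P : ι → Prop} (h : ∀ i, ¬ P i) : dp P = 0 := by
  ext i j
  simp [dp_apply, h]

omit [Fintype ι] in
lemma dp_add_not (P : ι → Prop) : dp P + dp (fun i => ¬ P i) = 1 := by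
  ext i j
  simp only [Matrix.add_apply, dp_apply, Matrix.one_apply]
  by_cases h : i = j
  · subst h; by_cases h' : P i <;> simp [h']
  · simp [h]

lemma dp_comm_iff (P : ι → Prop) (M : Matrix ι ι ℂ) :
    dp P * M = M * dp P ↔ ∀ i j, ¬ (P i ↔ P j) → M i j = 0 := by
  simp only [← Matrix.ext_iff, dp_mul_apply, mul_dp_apply]
  refine forall₂_congr fun i j => ?_
  by_cases h : P i <;> by_cases h' : P j <;> simp [h, h', eq_comm]

/-- The projection onto the coordinates of colour `o`; the colour `none` is frozen. -/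
def dg (c : ι → Option κ) (o : Option κ) : Matrix ι ι ℂ := dp fun i => c i = o

/-- The group of invertible block matrices which are the identity on the frozen coordinates. -/
def Gc (c : ι → Option κ) : Subgroup (GG ι) where
  carrier := {g | (∀ o, dg c o * g.1 = g.1 * dg c o) ∧ dg c none * g.1 = dg c none}
  one_mem' := by simp
  mul_mem' := by
    rintro a b ⟨h1, h2⟩ ⟨k1, k2⟩
    refine ⟨fun o => ?_, ?_⟩
    · rw [Units.val_mul, ← mul_assoc, h1, mul_assoc, k1, mul_assoc]
    · rw [Units.val_mul, ← mul_assoc, h2, k2]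
  inv_mem' := by
    rintro a ⟨h1, h2⟩
    refine ⟨fun o => ?_, ?_⟩
    · exact (Commute.units_inv_right (h1 o)).eq
    · conv_lhs => rw [← h2]
      rw [mul_assoc, Units.mul_inv, mul_one]

/-- The unitary group. -/
def Un (ι : Type) [Fintype ι] [DecidableEq ι] : Subgroup (GG ι) where
  carrier := {g | star g.1 * g.1 = 1}
  one_mem' := by simp
  mul_mem' := by
    intro a b h k
    simp only [mem_ofPred_eq, Units.val_mul, star_mul] at h k ⊢
    rw [mul_assoc, ← mul_assoc (star a.1), h, one_mul, k]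
  inv_mem' := by
    intro a h
    simp only [mem_ofPred_eq] at h ⊢
    rw [Units.inv_eq_of_mul_eq_one_left h, star_star]
    exact mul_eq_one_comm.1 h

/-- The unitary block matrices. -/
def Kc (c : ι → Option κ) : Subgroup (GG ι) := Gc c ⊓ Un ι

lemma mem_Gc {c : ι → Option κ} {g : GG ι} :
    g ∈ Gc c ↔ (∀ o, dg c o * g.1 = g.1 * dg c o) ∧ dg c none * g.1 = dg c none := Iff.rfl

lemma mem_Un {g : GG ι} : g ∈ Un ι ↔ star g.1 * g.1 = 1 := Iff.rfl

lemma mem_Kc {c : ι → Option κ} {g : GG ι} : g ∈ Kc c ↔ g ∈ Gc c ∧ g ∈ Un ι := Iff.rfl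

lemma mem_Gc_iff {c : ι → Option κ} {g : GG ι} :
    g ∈ Gc c ↔ ∀ i j, c i ≠ c j ∨ c i = none → g.1 i j = if i = j then 1 else 0 := by
  rw [mem_Gc]
  simp only [dg, dp_comm_iff]
  constructor
  · rintro ⟨h1, h2⟩ i j h
    by_cases hi : c i = none
    · have := congrFun (congrFun h2 i) j
      rw [dp_mul_apply, dp_apply] at this
      simpa [hi] using this
    · have hne := h.resolve_right hi
      rw [if_neg fun e => hne (by rw [e])]
      exact h1 (c i) i j fun e => hne (e.1 rfl).symm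
  · intro h
    refine ⟨fun o i j hij => ?_, ?_⟩
    · have hne : c i ≠ c j := fun e => hij (by rw [e])
      rw [h i j (Or.inl hne), if_neg fun e => hne (by rw [e])]
    · ext i j
      rw [dp_mul_apply, dp_apply]
      by_cases hi : c i = none
      · simp [hi, h i j (Or.inr hi)]
      · simp [hi]

lemma Kc_le (c : ι → Option κ) : Kc c ≤ Gc c := inf_le_left

lemma inv_eq_star {g : GG ι} (h : g ∈ Un ι) : (g⁻¹ : GG ι).1 = star g.1 :=
  Units.inv_eq_of_mul_eq_one_left h

/-- Tuples of matrices with the action by conjugation. -/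
def Cj (Ar ι : Type) : Type := Ar → Matrix ι ι ℂ

/-- Matrices with countably many columns, with the action by left multiplication. -/
def Mt (ι : Type) : Type := Matrix ι ℕ ℂ

/-- Matrices with the action `h ↦ g h g^*`. -/
def Hm (ι : Type) : Type := Matrix ι ι ℂ

instance : AddCommGroup (Cj Ar ι) := inferInstanceAs (AddCommGroup (Ar → Matrix ι ι ℂ))
instance : Module ℂ (Cj Ar ι) := inferInstanceAs (Module ℂ (Ar → Matrix ι ι ℂ))
instance : TopologicalSpace (Cj Ar ι) :=
  inferInstanceAs (TopologicalSpace (Ar → Matrix ι ι ℂ))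
instance : IsTopologicalAddGroup (Cj Ar ι) :=
  inferInstanceAs (IsTopologicalAddGroup (Ar → Matrix ι ι ℂ))
instance : ContinuousSMul ℂ (Cj Ar ι) := inferInstanceAs (ContinuousSMul ℂ (Ar → Matrix ι ι ℂ))
instance : T2Space (Cj Ar ι) := inferInstanceAs (T2Space (Ar → Matrix ι ι ℂ))
instance [Finite Ar] : Module.Finite ℂ (Cj Ar ι) :=
  inferInstanceAs (Module.Finite ℂ (Ar → Matrix ι ι ℂ))

instance : AddCommGroup (Mt ι) := inferInstanceAs (AddCommGroup (Matrix ι ℕ ℂ))
instance : Module ℂ (Mt ι) := inferInstanceAs (Module ℂ (Matrix ι ℕ ℂ))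
instance : TopologicalSpace (Mt ι) := inferInstanceAs (TopologicalSpace (Matrix ι ℕ ℂ))
instance : IsTopologicalAddGroup (Mt ι) := inferInstanceAs (IsTopologicalAddGroup (Matrix ι ℕ ℂ))
instance : ContinuousSMul ℂ (Mt ι) := inferInstanceAs (ContinuousSMul ℂ (Matrix ι ℕ ℂ))
instance : T2Space (Mt ι) := inferInstanceAs (T2Space (Matrix ι ℕ ℂ))

instance : TopologicalSpace (Hm ι) := inferInstanceAs (TopologicalSpace (Matrix ι ι ℂ))

/-- The underlying matrix. -/
def Mt.m (f : Mt ι) : Matrix ι ℕ ℂ := f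

/-- The underlying matrix. -/
def Hm.m (h : Hm ι) : Matrix ι ι ℂ := h

instance : DistribMulAction (GG ι) (Cj Ar ι) where
  smul g φ := fun a => g.1 * φ a * (g⁻¹).1
  one_smul φ := funext fun a => show (1 : GG ι).1 * φ a * ((1 : GG ι)⁻¹).1 = φ a by simp
  mul_smul g h φ := funext fun a =>
    show (g * h).1 * φ a * ((g * h)⁻¹).1 = g.1 * (h.1 * φ a * (h⁻¹).1) * (g⁻¹).1 by
      simp only [_root_.mul_inv_rev, Units.val_mul, mul_assoc]
  smul_zero g := funext fun a => show g.1 * (0 : Matrix ι ι ℂ) * (g⁻¹).1 = 0 by simp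
  smul_add g φ ψ := funext fun a =>
    show g.1 * (φ a + ψ a) * (g⁻¹).1 = g.1 * φ a * (g⁻¹).1 + g.1 * ψ a * (g⁻¹).1 by
      rw [mul_add, add_mul]

lemma Cj.smul_apply (g : GG ι) (φ : Cj Ar ι) (a : Ar) : (g • φ) a = g.1 * φ a * (g⁻¹).1 := rfl
omit [Fintype ι] [DecidableEq ι] in
lemma Cj.add_apply (φ ψ : Cj Ar ι) (a : Ar) : (φ + ψ) a = φ a + ψ a := rfl
omit [Fintype ι] [DecidableEq ι] in
lemma Cj.sub_apply (φ ψ : Cj Ar ι) (a : Ar) : (φ - ψ) a = φ a - ψ a := rfl
omit [Fintype ι] [DecidableEq ι] in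
lemma Cj.csmul_apply (z : ℂ) (φ : Cj Ar ι) (a : Ar) : (z • φ) a = z • φ a := rfl
omit [Fintype ι] [DecidableEq ι] in
lemma Cj.zero_apply (a : Ar) : (0 : Cj Ar ι) a = 0 := rfl
omit [Fintype ι] [DecidableEq ι] in
lemma Cj.continuous_apply (a : Ar) : Continuous fun φ : Cj Ar ι => φ a :=
  _root_.continuous_apply (A := fun _ : Ar => Matrix ι ι ℂ) a

instance : SMulCommClass (GG ι) ℂ (Cj Ar ι) :=
  ⟨fun g z φ => funext fun a => by simp [Cj.smul_apply, Cj.csmul_apply]⟩

instance : ContinuousSMul (GG ι) (Cj Ar ι) :=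
  ⟨continuous_pi fun a => ((Units.continuous_val.comp continuous_fst).mul
    ((Cj.continuous_apply a).comp continuous_snd)).mul
      (Units.continuous_coe_inv.comp continuous_fst)⟩

instance : DistribMulAction (GG ι) (Mt ι) where
  smul g f := (g.1 * f.m : Matrix ι ℕ ℂ)
  one_smul f := Matrix.one_mul f.m
  mul_smul g h f := Matrix.mul_assoc g.1 h.1 f.m
  smul_zero g := Matrix.mul_zero g.1
  smul_add g f f' := Matrix.mul_add g.1 f.m f'.m

lemma Mt.smul_m (g : GG ι) (f : Mt ι) : (g • f).m = g.1 * f.m := rfl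

instance : SMulCommClass (GG ι) ℂ (Mt ι) := ⟨fun g z f => Matrix.mul_smul g.1 z f.m⟩

instance : ContinuousSMul (GG ι) (Mt ι) :=
  ⟨Continuous.matrix_mul (Units.continuous_val.comp continuous_fst) continuous_snd⟩

instance : MulAction (GG ι) (Hm ι) where
  smul g h := (g.1 * h.m * star g.1 : Matrix ι ι ℂ)
  one_smul h := show (1 : GG ι).1 * h.m * star (1 : GG ι).1 = h.m by simp
  mul_smul g k h :=
    show (g * k).1 * h.m * star (g * k).1 = g.1 * (k.1 * h.m * star k.1) * star g.1 by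
      simp only [Units.val_mul, star_mul, mul_assoc]

lemma Hm.smul_m (g : GG ι) (h : Hm ι) : (g • h).m = g.1 * h.m * star g.1 := rfl

instance : ContinuousSMul (GG ι) (Hm ι) :=
  ⟨((Units.continuous_val.comp continuous_fst).mul
    (continuous_snd (X := GG ι) (Y := Matrix ι ι ℂ))).mul
    (Units.continuous_val.comp continuous_fst).star⟩

/-- The contractible space of frames: the rows of each colour are independent. -/
def Ec (c : ι → Option κ) : Set (Mt ι) :=
  {f | dg c none * f.m = 0 ∧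
    ∀ (v : κ) (a : ι → ℂ), (∀ i, c i ≠ some v → a i = 0) → a ᵥ* f.m = 0 → a = 0}

/-- The vectors of colour `v`, as matrices supported in the first column. -/
def F0 (c : ι → Option κ) (v : κ) : Submodule ℂ (Mt ι) where
  carrier := {f | ∀ i j, c i ≠ some v ∨ j ≠ 0 → f.m i j = 0}
  zero_mem' := fun _ _ _ => rfl
  add_mem' := fun {f g} hf hg i j h => show f.m i j + g.m i j = 0 by rw [hf i j h, hg i j h, add_zero]
  smul_mem' := fun z f hf i j h => show z * f.m i j = 0 by rw [hf i j h, mul_zero]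

/-- The dimension vector of a colouring. -/
def dv (c : ι → Option κ) (v : κ) : ℕ := (Finset.univ.filter fun i => c i = some v).card

/-- The colouring refined by `p`. -/
def cp (c : ι → Option κ) (p : ι → Bool) : ι → Option (κ × Bool) :=
  fun i => (c i).map fun v => (v, p i)

/-- The colouring with the complement of `p` frozen. -/
def c1 (c : ι → Option κ) (p : ι → Bool) : ι → Option κ := fun i => if p i then c i else none

/-- The colouring with `p` frozen. -/
def c2 (c : ι → Option κ) (p : ι → Bool) : ι → Option κ := fun i => if p i then none else c i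

/-- `p` avoids the frozen coordinates. -/
def Adm (c : ι → Option κ) (p : ι → Bool) : Prop := ∀ i, p i = true → c i ≠ none

/-- The projection onto the part `p`. -/
def e1 (p : ι → Bool) : Matrix ι ι ℂ := dp fun i => p i = true

/-- The projection onto the complement of `p`. -/
def e2 (p : ι → Bool) : Matrix ι ι ℂ := dp fun i => p i = false

omit [Fintype ι] in
lemma e1_add_e2 (p : ι → Bool) : e1 p + e2 p = 1 := by
  rw [← dp_add_not fun i => p i = true, e1, e2]
  congr 1
  exact dp_congr fun i => by simp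

@[simp] lemma e1_e1 (p : ι → Bool) : e1 p * e1 p = e1 p := dp_idem _

@[simp] lemma e2_e2 (p : ι → Bool) : e2 p * e2 p = e2 p := dp_idem _

@[simp] lemma e1_e2 (p : ι → Bool) : e1 p * e2 p = 0 := by
  rw [e1, e2, dp_mul_dp]; exact dp_false fun i => by simp

@[simp] lemma e2_e1 (p : ι → Bool) : e2 p * e1 p = 0 := by
  rw [e1, e2, dp_mul_dp]; exact dp_false fun i => by simp

omit [Fintype ι] in
@[simp] lemma star_e1 (p : ι → Bool) : star (e1 p) = e1 p := star_dp _

omit [Fintype ι] in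
@[simp] lemma star_e2 (p : ι → Bool) : star (e2 p) = e2 p := star_dp _

/-- The projection onto the part `p`, with the action by conjugation. -/
def E1 (p : ι → Bool) : Cj Unit ι := fun _ => e1 p

/-- The Grassmannian of projections. -/
def Gr (c : ι → Option κ) (p : ι → Bool) : Set (Cj Unit ι) := MulAction.orbit (Kc c) (E1 p)

/-- The block `x φ y`. -/
def blk (x y : Matrix ι ι ℂ) (φ : Cj Ar ι) : Cj Ar ι := fun a => x * φ a * y

omit [DecidableEq ι] in
lemma blk_apply (x y : Matrix ι ι ℂ) (φ : Cj Ar ι) (a : Ar) : blk x y φ a = x * φ a * y := rfl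

omit [DecidableEq ι] in
lemma continuous_blk (x y : Matrix ι ι ℂ) : Continuous (blk x y : Cj Ar ι → Cj Ar ι) :=
  continuous_pi fun a => (continuous_const.mul (Cj.continuous_apply a)).mul continuous_const

/-- The representations of the quiver with arrows `a : s a → t a`. -/
def Rc (s t : Ar → κ) (c : ι → Option κ) : Submodule ℂ (Cj Ar ι) where
  carrier := {φ | ∀ a, dg c (some (t a)) * φ a * dg c (some (s a)) = φ a}
  zero_mem' := fun a => by simp [Cj.zero_apply]
  add_mem' := fun {φ ψ} hφ hψ a => by rw [Cj.add_apply, mul_add, add_mul, hφ a, hψ a]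
  smul_mem' := fun z φ hφ a => by
    rw [Cj.csmul_apply, Matrix.mul_smul, Matrix.smul_mul, hφ a]

/-- The representations concentrated in the lower left block. -/
def R21 (s t : Ar → κ) (c : ι → Option κ) (p : ι → Bool) : Submodule ℂ (Cj Ar ι) where
  carrier := {φ | φ ∈ Rc s t c ∧ blk (e2 p) (e1 p) φ = φ}
  zero_mem' := ⟨(Rc s t c).zero_mem, funext fun a => by simp [blk, Cj.zero_apply]⟩
  add_mem' := fun {φ ψ} hφ hψ => ⟨(Rc s t c).add_mem hφ.1 hψ.1, funext fun a => by
    have h1 := congrFun hφ.2 a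
    have h2 := congrFun hψ.2 a
    simp only [blk] at h1 h2 ⊢
    rw [Cj.add_apply, mul_add, add_mul, h1, h2]⟩
  smul_mem' := fun z φ hφ => ⟨(Rc s t c).smul_mem z hφ.1, funext fun a => by
    have h1 := congrFun hφ.2 a
    simp only [blk] at h1 ⊢
    rw [Cj.csmul_apply, Matrix.mul_smul, Matrix.smul_mul, h1]⟩

/-- Graded subspaces without frozen part. -/
def Gs (c : ι → Option κ) (U : Submodule ℂ (ι → ℂ)) : Prop :=
  (∀ v, ∀ x ∈ U, dg c (some v) *ᵥ x ∈ U) ∧ ∀ x ∈ U, dg c none *ᵥ x = 0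

/-- Subrepresentations. -/
def Sr (c : ι → Option κ) (φ : Cj Ar ι) (U : Submodule ℂ (ι → ℂ)) : Prop :=
  Gs c U ∧ ∀ a, ∀ x ∈ U, φ a *ᵥ x ∈ U

/-- The dimension vector of a graded subspace. -/
def du (c : ι → Option κ) (U : Submodule ℂ (ι → ℂ)) (v : κ) : ℕ :=
  Module.finrank ℂ (U.map (dg c (some v)).mulVecLin)

/-- The coordinate subspace of the part `p`. -/
def V1 (p : ι → Bool) : Submodule ℂ (ι → ℂ) := LinearMap.range (e1 p).mulVecLin

section stab

variable [Fintype κ]

/-- The weight of a dimension vector. -/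
def th (w : κ → ℝ) (f : κ → ℕ) : ℝ := ∑ v, w v * f v

/-- The total dimension. -/
def sZ (f : κ → ℕ) : ℕ := ∑ v, f v

/-- `g` is higher than `f` in the order of the strata. -/
def Hi (w : κ → ℝ) (g f : κ → ℕ) : Prop := th w f < th w g ∨ (th w f = th w g ∧ sZ f < sZ g)

variable (s t : Ar → κ) (w : κ → ℝ) (c : ι → Option κ)

/-- Representations with a subrepresentation of dimension vector `f`. -/
def Cl (f : κ → ℕ) : Set (Cj Ar ι) := {φ | φ ∈ Rc s t c ∧ ∃ U, Sr c φ U ∧ du c U = f}

/-- Representations all of whose quotients have nonnegative weight. -/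
def Ge : Set (Cj Ar ι) := {φ | φ ∈ Rc s t c ∧ ∀ U, Sr c φ U → th w (du c U) ≤ th w (dv c)}

/-- Representations all of whose nonzero subrepresentations have negative weight. -/
def Lt : Set (Cj Ar ι) := {φ | φ ∈ Rc s t c ∧ ∀ U, Sr c φ U → U ≠ ⊥ → th w (du c U) < 0}

/-- The stratum of type `f`. -/
def St (f : κ → ℕ) : Set (Cj Ar ι) := {φ | φ ∈ Cl s t c f ∧ ∀ g, Hi w g f → φ ∉ Cl s t c g}

/-- The open set where both diagonal blocks are of the right type. -/
def O2 (p : ι → Bool) : Set (Cj Ar ι) :=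
  {φ | φ ∈ Rc s t c ∧ blk (e1 p) (e1 p) φ ∈ Ge s t w (c1 c p) ∧
    blk (e2 p) (e2 p) φ ∈ Lt s t w (c2 c p)}

/-- The slice of the stratum. -/
def Zs (p : ι → Bool) : Set (Cj Ar ι) := {φ | φ ∈ O2 s t w c p ∧ blk (e2 p) (e1 p) φ = 0}

/-- The block diagonal part of the slice. -/
def Z0 (p : ι → Bool) : Set (Cj Ar ι) := {φ | φ ∈ Zs s t w c p ∧ blk (e1 p) (e2 p) φ = 0}

/-- No proper nonzero vector below `d` has weight zero, and `d` has weight zero. -/
def Gen (d : κ → ℕ) : Prop := th w d = 0 ∧ d ≠ 0 ∧ ∀ f ≤ d, f ≠ 0 → f ≠ d → th w f ≠ 0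

omit [Fintype κ] in
/-- The dimension of the lower left block. -/
def bb [Fintype Ar] (g h : κ → ℕ) : ℕ := ∑ a, g (s a) * h (t a)

/-- The Poincare series of the classifying space. -/
def Ad (d : κ → ℕ) : PowerSeries ℚ :=
  ∏ v, ∏ i ∈ Finset.range (d v), (1 - PowerSeries.X ^ (2 * (i + 1)))⁻¹

/-- The recursion satisfied by the Poincare series, for dimension vectors below `d₀`. -/
structure Rec [Fintype Ar] (d₀ : κ → ℕ) (G L : (κ → ℕ) → PowerSeries ℚ)
    (r : (κ → ℕ) → (κ → ℕ) → PowerSeries ℚ) : Prop where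
  G0 : G 0 = 1
  L0 : L 0 = 1
  Gz : ∀ d, th w d < 0 → G d = 0
  Lz : ∀ d, d ≠ 0 → 0 ≤ th w d → L d = 0
  div : ∀ g h, g + h ≤ d₀ → PowerSeries.X ^ (2 * bb id id g h) * r g h =
    PowerSeries.X ^ (2 * bb s t g h) * (G g * L h)
  sum : ∀ d ≤ d₀, ∑ g ∈ Finset.Iic d, r g (d - g) = Ad d

end stab

/-- The Borel construction. -/
def Bo (Γ : Subgroup (GG ι)) (S : Set (Cj Ar ι)) (E : Set (Mt ι)) : Set (Q Γ (Cj Ar ι × Mt ι)) :=
  qs Γ (S ×ˢ E)

open scoped ComplexOrder in
/-- The positive definite block matrices. -/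
def Ps (c : ι → Option κ) : Set (Hm ι) :=
  {h | h.m.PosDef ∧ (∀ o, dg c o * h.m = h.m * dg c o) ∧ dg c none * h.m = dg c none}

open scoped ComplexOrder in
/-- The positive square root. -/
structure IsSq (sq : Matrix ι ι ℂ → GG ι) : Prop where
  cont : ContinuousOn sq {h | h.PosDef}
  pos : ∀ h, h.PosDef → (sq h).1.PosDef
  mul : ∀ h, h.PosDef → (sq h).1 * (sq h).1 = h
  comm : ∀ h, h.PosDef → ∀ e, e * h = h * e → e * (sq h).1 = (sq h).1 * e
  uniq : ∀ h, h.PosDef → ∀ x : Matrix ι ι ℂ, x.PosSemidef → x * x = h → (sq h).1 = x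
  fix : ∀ h, h.PosDef → ∀ e : Matrix ι ι ℂ, star e = e → e * e = e → e * h = e →
    e * (sq h).1 = e

/-- The unitary part of the polar decomposition. -/
structure IsUn (u : GG ι → GG ι) : Prop where
  cont : Continuous u
  mem : ∀ g, u g ∈ Un ι
  equiv : ∀ g, ∀ k ∈ Un ι, ∀ l ∈ Un ι, u (k * g * l) = k * u g * l
  self : ∀ g ∈ Un ι, u g = g
  comm : ∀ (g : GG ι) (e : Matrix ι ι ℂ), e * (star g.1 * g.1) = star g.1 * g.1 * e →
    e * ((u g)⁻¹ * g).1 = ((u g)⁻¹ * g).1 * e
  herm : ∀ g : GG ι, star g.1 = g.1 → star (u g).1 = (u g).1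
  blk : ∀ (κ : Type) (c : ι → Option κ), ∀ g ∈ Gc c, u g ∈ Kc c

end

end Pool.Agent.Bet
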