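import Pool.Agent.P.MP_d34769_ag.DefsT
import Pool.Agent.P.MP_d34769_ag.BM0

/-! The quiver of coherent systems in the coloured matrix model. -/

open Set

namespace Pool.Agent.Bet

open Pool.Agent.P.MP_d34769_ag (Rep)

noncomputable section

/-- Sources of the arrows. -/
def sr3 : Fin 3 → Fin 3 := ![0, 0, 2]

/-- Targets of the arrows. -/
def tg3 : Fin 3 → Fin 3 := fun _ => 1

/-- The weights. -/
def wt3 (n d k : ℕ) (α : ℝ) : Fin 3 → ℝ := ![n + (d + α * k), -(d + α * k), n * α]

/-- The index set. -/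
abbrev I3 (n d k : ℕ) : Type := Fin d ⊕ Fin (n + d) ⊕ Fin k

/-- The colouring. -/
def cl3 (n d k : ℕ) : I3 n d k → Option (Fin 3)
  | .inl _ => some 0
  | .inr (.inl _) => some 1
  | .inr (.inr _) => some 2

/-- A map from the first block to the second block. -/
def m01 {n d k : ℕ} (x : Matrix (Fin (n + d)) (Fin d) ℂ) : Matrix (I3 n d k) (I3 n d k) ℂ
  | .inr (.inl i), .inl j => x i j
  | _, _ => 0

/-- A map from the third block to the second block. -/
def m21 {n d k : ℕ} (z : Matrix (Fin (n + d)) (Fin k) ℂ) : Matrix (I3 n d k) (I3 n d k) ℂ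
  | .inr (.inl i), .inr (.inr j) => z i j
  | _, _ => 0

/-- A representation in the coloured matrix model. -/
def toCj {n d k : ℕ} (ρ : Rep ℂ n d k) : Cj (Fin 3) (I3 n d k) := ![m01 ρ.x, m01 ρ.y, m21 ρ.z]

/-- The Laurent series `s` and the function `f` on `(0, 1)` come from one rational function. -/
def Rel (s : LaurentSeries ℚ) (f : ℚ → ℚ) : Prop :=
  ∃ N M : Polynomial ℚ, (∀ t : ℚ, 0 < t → t < 1 → M.eval t ≠ 0 ∧ f t * M.eval t = N.eval t) ∧
    s * algebraMap (Polynomial ℚ) (LaurentSeries ℚ) M = algebraMap (Polynomial ℚ) (LaurentSeries ℚ) N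

end

end Pool.Agent.Bet
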