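import Pool.Agent.P.MP_d34769_ag.BM0

/-! TASK BF1: solving the recursion in a twisted product. -/

open Classical

namespace Pool.Agent.Bet

variable {κ F : Type} [Fintype κ] [Field F]

/-- The twisted product. -/
noncomputable def cvBF1 (q : F) (χ : (κ → ℕ) → (κ → ℕ) → ℤ) (x y : (κ → ℕ) → F) (e : κ → ℕ) : F :=
  ∑ f ∈ Finset.Iic e, x f * y (e - f) * q ^ (-χ (e - f) f)

theorem aux1_BF1 {q : F} (hq : q ≠ 0) {χ : (κ → ℕ) → (κ → ℕ) → ℤ}
    (h1 : ∀ a b e, χ (a + b) e = χ a e + χ b e) (h2 : ∀ a b e, χ e (a + b) = χ e a + χ e b)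
    (x y z : (κ → ℕ) → F) (e : κ → ℕ) :
    cvBF1 q χ (cvBF1 q χ x y) z e = cvBF1 q χ x (cvBF1 q χ y z) e := by
  unfold cvBF1
  simp only [Finset.sum_mul, Finset.mul_sum]
  rw [Finset.sum_comm' (t' := Finset.Iic e) (s' := fun f => Finset.Icc f e) (by
    intro u f
    simp only [Finset.mem_Iic, Finset.mem_Icc]
    exact ⟨fun h => ⟨⟨h.2, h.1⟩, h.2.trans h.1⟩, fun h => ⟨h.1.2, h.1.1⟩⟩)]
  refine Finset.sum_congr rfl fun f hf => ?_
  refine Finset.sum_nbij' (fun u => u - f) (fun g => f + g) (fun u hu => ?_) (fun g hg => ?_)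
    (fun u hu => ?_) (fun g _ => ?_) fun u hu => ?_
  · exact Finset.mem_Iic.2 (tsub_le_tsub_right (Finset.mem_Icc.1 hu).2 f)
  · exact Finset.mem_Icc.2 ⟨le_self_add,
      add_le_of_le_tsub_left_of_le (Finset.mem_Iic.1 hf) (Finset.mem_Iic.1 hg)⟩
  · exact add_tsub_cancel_of_le (Finset.mem_Icc.1 hu).1
  · exact add_tsub_cancel_left f g
  · obtain ⟨g, rfl⟩ := exists_add_of_le (Finset.mem_Icc.1 hu).1
    obtain ⟨h, rfl⟩ := exists_add_of_le (Finset.mem_Icc.1 hu).2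
    have e1 : f + g + h - f = g + h := by rw [add_assoc, add_tsub_cancel_left]
    simp only [e1, add_tsub_cancel_left, h1, h2, neg_add, zpow_add₀ hq]
    ring

theorem aux2_BF1 (w : κ → ℝ) {e f : κ → ℕ} (h : f ≤ e) : th w (e - f) = th w e - th w f := by
  obtain ⟨g, rfl⟩ := exists_add_of_le h
  simp [th, mul_add, Finset.sum_add_distrib]

theorem twisted {q : F} (hq : q ≠ 0) {χ : (κ → ℕ) → (κ → ℕ) → ℤ}
    (h1 : ∀ a b e, χ (a + b) e = χ a e + χ b e) (h2 : ∀ a b e, χ e (a + b) = χ e a + χ e b)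
    {w : κ → ℝ} {d₀ : κ → ℕ} (hg : Gen w d₀) {B C a P : (κ → ℕ) → F} (B0 : B 0 = 1) (C0 : C 0 = 1)
    (Bz : ∀ d, th w d < 0 → B d = 0) (Cz : ∀ d, d ≠ 0 → 0 ≤ th w d → C d = 0)
    (ha : ∀ d ≤ d₀, a d = ∑ g ∈ Finset.Iic d, B g * C (d - g) * q ^ (-χ (d - g) g))
    (P0 : P 0 = 1) (hP : ∀ e, e ≠ 0 → P e =
      -∑ f ∈ (Finset.Iic e).filter (fun f => f ≠ e ∧ 0 ≤ th w f),
        P f * a (e - f) * q ^ (-χ (e - f) f)) : P d₀ = -B d₀ := by
  have z1 : ∀ e, χ 0 e = 0 := fun e => by simpa using h1 0 0 e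
  have z2 : ∀ e, χ e 0 = 0 := fun e => by simpa using h2 0 0 e
  have t0 : th w 0 = 0 := by simp [th]
  have i0 : Finset.Iic (0 : κ → ℕ) = {0} := Finset.Iic_bot
  have a0 : a 0 = 1 := by rw [ha 0 zero_le, i0]; simp [B0, C0, z1]
  let Pp : (κ → ℕ) → F := fun f => if 0 ≤ th w f then P f else 0
  have k1 : ∀ e, e ≠ 0 → 0 ≤ th w e → cvBF1 q χ Pp a e = 0 := by
    intro e he ht
    rw [cvBF1, ← Finset.add_sum_erase _ _ (Finset.mem_Iic.2 le_rfl), tsub_self, a0, z1]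
    simp only [Pp, if_pos ht, neg_zero, zpow_zero, mul_one]
    rw [hP e he, neg_add_eq_zero, ← Finset.filter_filter, Finset.filter_ne', Finset.sum_filter]
    refine Finset.sum_congr rfl fun f _ => ?_
    split_ifs <;> simp
  have k2 : ∀ e ≤ d₀, cvBF1 q χ Pp a e = cvBF1 q χ (cvBF1 q χ Pp B) C e := by
    intro e he
    rw [aux1_BF1 hq h1 h2]
    refine Finset.sum_congr rfl fun f _ => ?_
    rw [ha (e - f) (tsub_le_self.trans he)]
    rfl
  have k3 : ∀ e, e ≤ d₀ → e ≠ 0 → 0 ≤ th w e → cvBF1 q χ Pp B e = 0 := by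
    intro e
    induction e using WellFoundedLT.induction with
    | ind e ih =>
      intro he h0 ht
      have h3 := k1 e h0 ht
      rw [k2 e he, cvBF1, Finset.sum_eq_single_of_mem e (Finset.mem_Iic.2 le_rfl), tsub_self, C0,
        z1] at h3
      · simpa using h3
      intro u hu hne
      have hu' := Finset.mem_Iic.1 hu
      by_cases h4 : 0 ≤ th w (e - u)
      · rw [Cz _ (fun h => hne (le_antisymm hu' (tsub_eq_zero_iff_le.1 h))) h4]
        simp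
      · rw [aux2_BF1 w hu'] at h4
        rw [ih u (lt_of_le_of_ne hu' hne) (hu'.trans he)
          (by rintro rfl; rw [t0] at h4; linarith) (by linarith)]
        simp
  have h5 := k3 d₀ le_rfl hg.2.1 hg.1.ge
  rw [cvBF1, Finset.sum_eq_add_of_mem d₀ 0 (Finset.mem_Iic.2 le_rfl)
    (Finset.mem_Iic.2 zero_le) hg.2.1, tsub_self, tsub_zero, z1, z2, B0] at h5
  · simp only [Pp, if_pos hg.1.ge, if_pos t0.ge, P0, neg_zero, zpow_zero, mul_one, one_mul] at h5
    exact eq_neg_of_add_eq_zero_left h5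
  · intro f hf h6
    have hf' := Finset.mem_Iic.1 hf
    by_cases h7 : 0 ≤ th w f
    · rw [Bz _ (by
        rw [aux2_BF1 w hf', hg.1]
        have := lt_of_le_of_ne h7 (hg.2.2 f hf' h6.2 h6.1).symm
        linarith)]
      simp
    · simp [Pp, h7]

end Pool.Agent.Bet
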