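import Pool.Agent.P.MP_d34769_ag.BF0

/-! TASK BF2: Laurent series and rational functions. -/

open Classical

namespace Pool.Agent.Bet

open Pool.Agent.P.MP_d34769_ag (pser)

variable {s s' : LaurentSeries ℚ} {f f' : ℚ → ℚ}

lemma aux1_BF2 : Function.Injective (algebraMap (Polynomial ℚ) (LaurentSeries ℚ)) :=
  Polynomial.algebraMap_hahnSeries_injective ℤ

lemma aux2_BF2 {M : Polynomial ℚ} (h : M.eval (1 / 2) ≠ 0) :
    algebraMap (Polynomial ℚ) (LaurentSeries ℚ) M ≠ 0 := by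
  intro e
  rw [← map_zero (algebraMap (Polynomial ℚ) (LaurentSeries ℚ))] at e
  rw [aux1_BF2 e] at h
  exact h Polynomial.eval_zero

theorem Rel.add (h : Rel s f) (h' : Rel s' f') : Rel (s + s') fun t => f t + f' t := by
  obtain ⟨N, M, h1, h2⟩ := h
  obtain ⟨N', M', k1, k2⟩ := h'
  refine ⟨N * M' + N' * M, M * M', fun t t0 t1 => ?_, ?_⟩
  · obtain ⟨a1, a2⟩ := h1 t t0 t1
    obtain ⟨b1, b2⟩ := k1 t t0 t1
    simp only [Polynomial.eval_mul, Polynomial.eval_add]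
    refine ⟨mul_ne_zero a1 b1, ?_⟩
    rw [← a2, ← b2]
    ring
  · rw [map_add, map_mul, map_mul, map_mul, ← h2, ← k2]
    ring

theorem Rel.mul (h : Rel s f) (h' : Rel s' f') : Rel (s * s') fun t => f t * f' t := by
  obtain ⟨N, M, h1, h2⟩ := h
  obtain ⟨N', M', k1, k2⟩ := h'
  refine ⟨N * N', M * M', fun t t0 t1 => ?_, ?_⟩
  · obtain ⟨a1, a2⟩ := h1 t t0 t1
    obtain ⟨b1, b2⟩ := k1 t t0 t1
    simp only [Polynomial.eval_mul]
    refine ⟨mul_ne_zero a1 b1, ?_⟩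
    rw [← a2, ← b2]
    ring
  · rw [map_mul, map_mul, ← h2, ← k2]
    ring

theorem Rel.neg (h : Rel s f) : Rel (-s) fun t => -f t := by
  obtain ⟨N, M, h1, h2⟩ := h
  refine ⟨-N, M, fun t t0 t1 => ?_, ?_⟩
  · obtain ⟨a1, a2⟩ := h1 t t0 t1
    refine ⟨a1, ?_⟩
    rw [Polynomial.eval_neg, ← a2]
    ring
  · rw [map_neg, ← h2]
    ring

theorem Rel.poly (p : Polynomial ℚ) :
    Rel (algebraMap (Polynomial ℚ) (LaurentSeries ℚ) p) fun t => p.eval t := by
  refine ⟨p, 1, fun t _ _ => ?_, ?_⟩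
  · simp
  · rw [map_one, mul_one]

theorem Rel.inv (h : Rel s f) (h0 : ∀ t : ℚ, 0 < t → t < 1 → f t ≠ 0) :
    Rel s⁻¹ fun t => (f t)⁻¹ := by
  obtain ⟨N, M, h1, h2⟩ := h
  have hN : ∀ t : ℚ, 0 < t → t < 1 → N.eval t ≠ 0 := fun t t0 t1 => by
    rw [← (h1 t t0 t1).2]
    exact mul_ne_zero (h0 t t0 t1) (h1 t t0 t1).1
  refine ⟨M, N, fun t t0 t1 => ⟨hN t t0 t1, ?_⟩, ?_⟩
  · rw [← (h1 t t0 t1).2, inv_mul_cancel_left₀ (h0 t t0 t1)]
  · have hs : s ≠ 0 := by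
      rintro rfl
      rw [zero_mul] at h2
      exact aux2_BF2 (hN _ (by norm_num) (by norm_num)) h2.symm
    rw [← h2, inv_mul_cancel_left₀ hs]

theorem Rel.congr (h : Rel s f) (e : ∀ t : ℚ, 0 < t → t < 1 → f t = f' t) : Rel s f' := by
  obtain ⟨N, M, h1, h2⟩ := h
  exact ⟨N, M, fun t t0 t1 => e t t0 t1 ▸ h1 t t0 t1, h2⟩

theorem Rel.left_unique (h : Rel s f) (h' : Rel s' f) : s = s' := by
  obtain ⟨N, M, h1, h2⟩ := h
  obtain ⟨N', M', k1, k2⟩ := h'
  have e : N * M' = N' * M := by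
    refine Polynomial.eq_of_infinite_eval_eq _ _
      ((Set.Ioo_infinite (zero_lt_one' ℚ)).mono fun t ht => ?_)
    change (N * M').eval t = (N' * M).eval t
    rw [Polynomial.eval_mul, Polynomial.eval_mul, ← (h1 t ht.1 ht.2).2, ← (k1 t ht.1 ht.2).2]
    ring
  have e' := congrArg (algebraMap (Polynomial ℚ) (LaurentSeries ℚ)) e
  rw [map_mul, map_mul, ← h2, ← k2] at e'
  refine mul_right_cancel₀ (mul_ne_zero (aux2_BF2 (h1 _ (by norm_num) (by norm_num)).1)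
    (aux2_BF2 (k1 _ (by norm_num) (by norm_num)).1)) ?_
  rw [← mul_assoc, e']
  ring

theorem Rel.right_unique (h : Rel s f) (h' : Rel s f') {t : ℚ} (h0 : 0 < t) (h1 : t < 1) :
    f t = f' t := by
  obtain ⟨N, M, a1, a2⟩ := h
  obtain ⟨N', M', k1, k2⟩ := h'
  have e : N * M' = N' * M := by
    refine aux1_BF2 ?_
    rw [map_mul, map_mul, ← a2, ← k2]
    ring
  have e' := congrArg (Polynomial.eval t) e
  rw [Polynomial.eval_mul, Polynomial.eval_mul, ← (a1 t h0 h1).2, ← (k1 t h0 h1).2] at e'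
  refine mul_right_cancel₀ (mul_ne_zero (a1 t h0 h1).1 (k1 t h0 h1).1) ?_
  rw [← mul_assoc, e']
  ring

lemma aux3_BF2 : Rel 0 fun _ => 0 := by
  have := Rel.poly 0
  rw [map_zero] at this
  exact this.congr fun t _ _ => Polynomial.eval_zero

lemma aux4_BF2 : Rel 1 fun _ => 1 := by
  have := Rel.poly 1
  rw [map_one] at this
  exact this.congr fun t _ _ => Polynomial.eval_one

lemma aux5_BF2 (h : Rel s f) (n : ℕ) : Rel (s ^ n) fun t => f t ^ n := by
  induction n with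
  | zero => simpa only [pow_zero] using aux4_BF2
  | succ n ih => simpa only [pow_succ] using ih.mul h

theorem rel_zpow (m : ℤ) :
    Rel (algebraMap (Polynomial ℚ) (LaurentSeries ℚ) Polynomial.X ^ m) fun t => t ^ m := by
  have hX : Rel (algebraMap (Polynomial ℚ) (LaurentSeries ℚ) Polynomial.X) fun t => t :=
    (Rel.poly Polynomial.X).congr fun t _ _ => Polynomial.eval_X
  obtain ⟨n, rfl | rfl⟩ := m.eq_nat_or_neg
  · simpa only [zpow_natCast] using aux5_BF2 hX n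
  · simpa only [zpow_neg, zpow_natCast] using
      (aux5_BF2 hX n).inv fun t t0 _ => pow_ne_zero n t0.ne'

lemma aux6_BF2 {α : Type} (T : Finset α) {S : α → LaurentSeries ℚ} {F : α → ℚ → ℚ}
    (h : ∀ a ∈ T, Rel (S a) (F a)) : Rel (∑ a ∈ T, S a) fun t => ∑ a ∈ T, F a t := by
  induction T using Finset.induction_on with
  | empty => simpa only [Finset.sum_empty] using aux3_BF2
  | insert a T ha ih =>
    simp only [Finset.sum_insert ha]
    exact (h a (Finset.mem_insert_self _ _)).add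
      (ih fun b hb => h b (Finset.mem_insert_of_mem hb))

lemma aux7_BF2 {α : Type} (T : Finset α) {S : α → LaurentSeries ℚ} {F : α → ℚ → ℚ}
    (h : ∀ a ∈ T, Rel (S a) (F a)) : Rel (∏ a ∈ T, S a) fun t => ∏ a ∈ T, F a t := by
  induction T using Finset.induction_on with
  | empty => simpa only [Finset.prod_empty] using aux4_BF2
  | insert a T ha ih =>
    simp only [Finset.prod_insert ha]
    exact (h a (Finset.mem_insert_self _ _)).mul
      (ih fun b hb => h b (Finset.mem_insert_of_mem hb))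

open Pool.Agent.P.MP_d34769_ag (sz pstep)

/-- One step of the recursion over Laurent series. -/
noncomputable def step_BF2 (θ : (Fin 3 → ℕ) → ℝ) (q : LaurentSeries ℚ)
    (p : (Fin 3 → ℕ) → LaurentSeries ℚ) (e : Fin 3 → ℕ) : LaurentSeries ℚ :=
  if e = 0 then 1 else
    - ∑ f ∈ (Finset.Iic e).filter (fun f => f ≠ e ∧ 0 ≤ θ f),
      p f * q ^ ((2 * (e 0 - f 0) + (e 2 - f 2)) * e 1) /
        ∏ i, ∏ j ∈ Finset.Ico (f i) (e i), (q ^ e i - q ^ j)

lemma aux8_BF2 {e g : Fin 3 → ℕ} (h : g ≤ e) (hne : g ≠ e) : sz g < sz e := by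
  have h0 : g 0 ≤ e 0 := h 0
  have h1 : g 1 ≤ e 1 := h 1
  have h2 : g 2 ≤ e 2 := h 2
  by_contra hc
  unfold sz at hc
  refine hne (funext fun i => ?_)
  fin_cases i
  · change g 0 = e 0
    omega
  · change g 1 = e 1
    omega
  · change g 2 = e 2
    omega

lemma aux9_BF2 (θ : (Fin 3 → ℕ) → ℝ) (q : LaurentSeries ℚ)
    {p p' : (Fin 3 → ℕ) → LaurentSeries ℚ} {e : Fin 3 → ℕ} (h : ∀ g, sz g < sz e → p g = p' g) :
    step_BF2 θ q p e = step_BF2 θ q p' e := by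
  unfold step_BF2
  split_ifs
  · rfl
  · refine congrArg Neg.neg (Finset.sum_congr rfl fun g hg => ?_)
    rw [Finset.mem_filter, Finset.mem_Iic] at hg
    rw [h g (aux8_BF2 hg.1 hg.2.1)]

lemma aux10_BF2 (θ : (Fin 3 → ℕ) → ℝ) (q : LaurentSeries ℚ) (N : ℕ) :
    ∀ (M : ℕ) (e : Fin 3 → ℕ), sz e < N → sz e < M →
      (step_BF2 θ q)^[N] 0 e = (step_BF2 θ q)^[M] 0 e := by
  induction N with
  | zero => exact fun M e h _ => absurd h (Nat.not_lt_zero _)
  | succ N ih =>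
    intro M e hN hM
    obtain ⟨M, rfl⟩ : ∃ K, M = K + 1 := ⟨M - 1, by omega⟩
    rw [Function.iterate_succ_apply', Function.iterate_succ_apply']
    exact aux9_BF2 θ q fun g hg => ih M g (by omega) (by omega)

lemma aux11_BF2 (θ : (Fin 3 → ℕ) → ℝ) {q : LaurentSeries ℚ} (hq : Rel q fun t => t⁻¹ ^ 2)
    (N : ℕ) : ∀ e, Rel ((step_BF2 θ q)^[N] 0 e) fun t => (pstep θ (t⁻¹ ^ 2))^[N] 0 e := by
  induction N with
  | zero => exact fun _ => aux3_BF2
  | succ N ih =>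
    intro e
    simp only [Function.iterate_succ_apply', pstep, step_BF2]
    split_ifs
    · exact aux4_BF2
    · simp only [div_eq_mul_inv, sub_eq_add_neg]
      refine (aux6_BF2 _ fun g _ => ((ih g).mul (aux5_BF2 hq _)).mul (Rel.inv (aux7_BF2 _ fun i _ =>
        aux7_BF2 _ fun j _ => (aux5_BF2 hq _).add (aux5_BF2 hq _).neg) fun t t0 t1 => ?_)).neg
      have h1 : 1 < t⁻¹ ^ 2 := one_lt_pow₀ ((one_lt_inv₀ t0).2 t1) two_ne_zero
      refine Finset.prod_ne_zero_iff.2 fun i _ => Finset.prod_ne_zero_iff.2 fun j hj => ?_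
      rw [← sub_eq_add_neg]
      exact sub_ne_zero.2 (pow_lt_pow_right₀ h1 (Finset.mem_Ico.1 hj).2).ne'

/-- the recursion for `pser` in the field of Laurent series, at `q = x ^ (-2)` -/
theorem exists_pL (θ : (Fin 3 → ℕ) → ℝ) {q : LaurentSeries ℚ}
    (hq : q = algebraMap (Polynomial ℚ) (LaurentSeries ℚ) Polynomial.X ^ (-2 : ℤ)) :
    ∃ P : (Fin 3 → ℕ) → LaurentSeries ℚ, (∀ e, Rel (P e) fun t => pser θ (t⁻¹ ^ 2) e) ∧ P 0 = 1 ∧
      ∀ e, e ≠ 0 → P e = -∑ f ∈ (Finset.Iic e).filter (fun f => f ≠ e ∧ 0 ≤ θ f),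
        P f * q ^ ((2 * (e 0 - f 0) + (e 2 - f 2)) * e 1) /
          ∏ i, ∏ j ∈ Finset.Ico (f i) (e i), (q ^ e i - q ^ j) := by
  have hq' : Rel q fun t => t⁻¹ ^ 2 := by
    rw [hq]
    refine (rel_zpow (-2)).congr fun t _ _ => ?_
    rw [zpow_neg, inv_pow]
    rfl
  have hfix : ∀ e, (step_BF2 θ q)^[sz e + 1] 0 e =
      step_BF2 θ q (fun g => (step_BF2 θ q)^[sz g + 1] 0 g) e := by
    intro e
    rw [Function.iterate_succ_apply']
    exact aux9_BF2 θ q fun g hg => aux10_BF2 θ q _ _ g hg (Nat.lt_succ_self _)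
  refine ⟨fun e => (step_BF2 θ q)^[sz e + 1] 0 e, fun e => aux11_BF2 θ hq' _ e, ?_, fun e he => ?_⟩
  · exact (hfix 0).trans (if_pos rfl)
  · exact (hfix e).trans (if_neg he)

end Pool.Agent.Bet
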