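import Pool.Agent.P.MP_d34769_ag.BF1
import Pool.Agent.P.MP_d34769_ag.BF2

/-! TASK BF3: the solution of the topological recursion is the counting series. -/

open Classical

namespace Pool.Agent.Bet

open Pool.Agent.P.MP_d34769_ag (pser wgt)

theorem th_wt3 (n d k : ℕ) (α : ℝ) : th (wt3 n d k α) = wgt n d k α := by
  funext e
  simp only [th, wt3, wgt, Fin.sum_univ_three, Matrix.cons_val_zero, Matrix.cons_val_one,
    Matrix.cons_val]
  ring

/-- The Euler form of the quiver. -/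
def chi_BF3 (a b : Fin 3 → ℕ) : ℤ := (bb id id a b : ℤ) - (bb sr3 tg3 a b : ℤ)

theorem chi_eq_BF3 (a b : Fin 3 → ℕ) : chi_BF3 a b =
    (a 0 : ℤ) * b 0 + a 1 * b 1 + a 2 * b 2 - (2 * a 0 + a 2) * b 1 := by
  simp only [chi_BF3, bb, sr3, tg3, Fin.sum_univ_three, id, Matrix.cons_val_zero,
    Matrix.cons_val_one, Matrix.cons_val]
  push_cast
  ring

theorem x_eq_BF3 : algebraMap (Polynomial ℚ) (LaurentSeries ℚ) Polynomial.X =
    HahnSeries.ofPowerSeries ℤ ℚ PowerSeries.X := by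
  rw [HahnSeries.algebraMap_apply', PowerSeries.algebraMap_apply']
  simp

theorem x_ne_BF3 : HahnSeries.ofPowerSeries ℤ ℚ PowerSeries.X ≠ 0 := by
  rw [Ne, ← map_zero (HahnSeries.ofPowerSeries ℤ ℚ)]
  exact fun h => PowerSeries.X_ne_zero (HahnSeries.ofPowerSeries_injective h)

theorem ad_BF3 (g : Fin 3 → ℕ) : HahnSeries.ofPowerSeries ℤ ℚ (Ad g) =
    (∏ v, ∏ i ∈ Finset.range (g v),
      (1 - HahnSeries.ofPowerSeries ℤ ℚ PowerSeries.X ^ (2 * (i + 1))))⁻¹ := by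
  rw [Ad, map_prod, ← Finset.prod_inv_distrib]
  refine Finset.prod_congr rfl fun v _ => ?_
  rw [map_prod, ← Finset.prod_inv_distrib]
  refine Finset.prod_congr rfl fun i _ => ?_
  have h := PowerSeries.mul_inv_cancel (1 - PowerSeries.X ^ (2 * (i + 1)) : PowerSeries ℚ)
    (by simp)
  have h2 := congrArg (HahnSeries.ofPowerSeries ℤ ℚ) h
  rw [map_mul, map_one, map_sub, map_one, map_pow] at h2
  exact eq_inv_of_mul_eq_one_right h2

theorem ico_BF3 {F : Type} [Field F] {x : F} (hx : x ≠ 0) (f g : ℕ) :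
    ∏ j ∈ Finset.Ico f (f + g), ((x ^ (-2 : ℤ)) ^ (f + g) - (x ^ (-2 : ℤ)) ^ j) =
      (x ^ (-2 : ℤ)) ^ ((f + g) * g) * ∏ i ∈ Finset.range g, (1 - x ^ (2 * (i + 1))) := by
  rw [Finset.prod_Ico_eq_prod_range, Nat.add_sub_cancel_left, ← Finset.prod_range_reflect,
    pow_mul, ← Finset.card_range g, ← Finset.prod_const, Finset.card_range,
    ← Finset.prod_mul_distrib]
  refine Finset.prod_congr rfl fun i hi => ?_
  obtain ⟨m, rfl⟩ : ∃ m, g = m + (i + 1) := ⟨g - (i + 1), by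
    have := Finset.mem_range.1 hi; omega⟩
  have e1 : f + (m + (i + 1) - 1 - i) = f + m := by omega
  have e2 : (x ^ (-2 : ℤ)) ^ (i + 1) * x ^ (2 * (i + 1)) = 1 := by
    rw [pow_mul, ← mul_pow, zpow_neg, show x ^ (2 : ℤ) = x ^ 2 from zpow_ofNat x 2,
      inv_mul_cancel₀ (pow_ne_zero 2 hx), one_pow]
  rw [e1, mul_sub, mul_one, ← add_assoc, pow_add _ (f + m), mul_assoc, e2, mul_one]

theorem term_BF3 {F : Type} [Field F] {x : F} (hx : x ≠ 0) (f g : Fin 3 → ℕ) (u : F) :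
    u * (x ^ (-2 : ℤ)) ^ ((2 * ((f + g) 0 - f 0) + ((f + g) 2 - f 2)) * (f + g) 1) /
      ∏ i, ∏ j ∈ Finset.Ico (f i) ((f + g) i), ((x ^ (-2 : ℤ)) ^ (f + g) i - (x ^ (-2 : ℤ)) ^ j) =
    u * (x ^ (2 * chi_BF3 g g) * (∏ v, ∏ i ∈ Finset.range (g v), (1 - x ^ (2 * (i + 1))))⁻¹) *
      (x ^ (-2 : ℤ)) ^ (-chi_BF3 g f) := by
  simp only [Pi.add_apply, ico_BF3 hx, Nat.add_sub_cancel_left, Finset.prod_mul_distrib]
  rw [Finset.prod_pow_eq_pow_sum, div_eq_mul_inv, mul_inv, ← zpow_natCast, ← zpow_natCast,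
    ← zpow_mul, ← zpow_mul, ← zpow_mul, ← zpow_neg]
  generalize (∏ v, ∏ i ∈ Finset.range (g v), (1 - x ^ (2 * (i + 1))))⁻¹ = A
  have e : ∀ a b c d : ℤ, a + b = c + d → u * x ^ a * (x ^ b * A) = u * (x ^ c * A) * x ^ d := by
    intro a b c d h
    calc u * x ^ a * (x ^ b * A) = u * A * x ^ (a + b) := by rw [zpow_add₀ hx]; ring
      _ = _ := by rw [h, zpow_add₀ hx]; ring
  apply e
  rw [chi_eq_BF3, chi_eq_BF3, Fin.sum_univ_three]
  push_cast
  ring

theorem rel_G {n d k : ℕ} {α : ℝ} (hg : Gen (wt3 n d k α) ![d, n + d, k])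
    {G L : (Fin 3 → ℕ) → PowerSeries ℚ} {r : (Fin 3 → ℕ) → (Fin 3 → ℕ) → PowerSeries ℚ}
    (h : Rec sr3 tg3 (wt3 n d k α) ![d, n + d, k] G L r) :
    Rel (HahnSeries.ofPowerSeries ℤ ℚ ((1 - PowerSeries.X ^ 2) * G ![d, n + d, k]))
      fun t => t ^ (2 * ((k : ℤ) * (d + n - k) - n ^ 2 + 1)) * (1 - t⁻¹ ^ 2) *
        pser (wgt n d k α) (t⁻¹ ^ 2) ![d, n + d, k] := by
  obtain ⟨P, hR, P0, hP⟩ := exists_pL (wgt n d k α) rfl
  have hz := rel_zpow
  rw [x_eq_BF3] at hP hz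
  have hx := x_ne_BF3
  have had := ad_BF3
  set φ := HahnSeries.ofPowerSeries ℤ ℚ with hφ
  set x := φ PowerSeries.X with hxd
  have c1 : ∀ a b e, chi_BF3 (a + b) e = chi_BF3 a e + chi_BF3 b e := by
    intro a b e; simp only [chi_eq_BF3, Pi.add_apply]; push_cast; ring
  have c2 : ∀ a b e, chi_BF3 e (a + b) = chi_BF3 e a + chi_BF3 e b := by
    intro a b e; simp only [chi_eq_BF3, Pi.add_apply]; push_cast; ring
  have c0 : chi_BF3 0 0 = 0 := by simp [chi_eq_BF3]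
  have key := twisted (q := x ^ (-2 : ℤ)) (zpow_ne_zero _ hx) c1 c2 hg
    (B := fun e => x ^ (2 * chi_BF3 e e) * φ (G e)) (C := fun e => x ^ (2 * chi_BF3 e e) * φ (L e))
    (a := fun e => x ^ (2 * chi_BF3 e e) * φ (Ad e)) (P := P)
    (by simp only [c0, h.G0, map_one, mul_zero, zpow_zero, mul_one])
    (by simp only [c0, h.L0, map_one, mul_zero, zpow_zero, mul_one])
    (fun e he => by simp only [h.Gz e he, map_zero, mul_zero])
    (fun e he he' => by simp only [h.Lz e he he', map_zero, mul_zero])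
    (fun e he => by
      rw [← h.sum e he, map_sum, Finset.mul_sum]
      refine Finset.sum_congr rfl fun g hg => ?_
      obtain ⟨m, rfl⟩ := exists_add_of_le (show g ≤ e by simpa using hg)
      rw [add_tsub_cancel_left]
      have b1 := congrArg φ (h.div g m he)
      simp only [map_mul, map_pow] at b1
      rw [← hxd, ← zpow_natCast, ← zpow_natCast] at b1
      have b2 : φ (r g m) = x ^ (-(2 * chi_BF3 g m)) * (φ (G g) * φ (L m)) := by
        refine mul_left_cancel₀ (zpow_ne_zero ((2 * bb id id g m : ℕ) : ℤ) hx) ?_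
        rw [b1, ← mul_assoc (x ^ ((2 * bb id id g m : ℕ) : ℤ)), ← zpow_add₀ hx]
        congr 2
        rw [chi_BF3]; push_cast; ring
      rw [b2, ← zpow_mul, c1, c2, c2, ← mul_assoc, ← zpow_add₀ hx]
      have b3 : 2 * (chi_BF3 g g + chi_BF3 g m + (chi_BF3 m g + chi_BF3 m m)) +
          -(2 * chi_BF3 g m) = 2 * chi_BF3 g g + 2 * chi_BF3 m m + -2 * -chi_BF3 m g := by ring
      rw [b3, zpow_add₀ hx, zpow_add₀ hx]
      ring) P0
    (fun e he => by
      rw [hP e he, th_wt3]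
      congr 1
      refine Finset.sum_congr (by ext f; simp) fun f hf => ?_
      obtain ⟨g, rfl⟩ := exists_add_of_le (show f ≤ e by simpa using (Finset.mem_filter.1 hf).1)
      rw [add_tsub_cancel_left, had, term_BF3 hx])
  have cD : chi_BF3 ![d, n + d, k] ![d, n + d, k] =
      1 - ((k : ℤ) * (d + n - k) - n ^ 2 + 1) := by
    simp only [chi_eq_BF3, Matrix.cons_val_zero, Matrix.cons_val_one, Matrix.cons_val]
    push_cast; ring
  generalize (k : ℤ) * (d + n - k) - n ^ 2 + 1 = β at cD ⊢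
  have h1 := ((hz (2 * β)).mul ((hz 0).add (hz (-2)).neg)).mul (hR ![d, n + d, k])
  have e1 : φ ((1 - PowerSeries.X ^ 2) * G ![d, n + d, k]) =
      x ^ (2 * β) * (x ^ (0 : ℤ) + -x ^ (-2 : ℤ)) * P ![d, n + d, k] := by
    rw [key, cD, map_mul, map_sub, map_one, map_pow, ← hxd, zpow_zero]
    have b1 : x ^ (2 * β) * x ^ (2 * (1 - β)) = x ^ 2 := by
      rw [← zpow_add₀ hx, show 2 * β + 2 * (1 - β) = 2 by ring]; exact zpow_ofNat x 2
    have b2 : x ^ (-2 : ℤ) * x ^ 2 = 1 := by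
      rw [zpow_neg, show x ^ (2 : ℤ) = x ^ 2 from zpow_ofNat x 2,
        inv_mul_cancel₀ (pow_ne_zero 2 hx)]
    linear_combination (φ (G ![d, n + d, k]) * (1 - x ^ (-2 : ℤ))) * b1 -
      φ (G ![d, n + d, k]) * b2
  rw [e1]
  refine h1.congr fun t _ _ => ?_
  rw [zpow_zero, zpow_neg, show t ^ (2 : ℤ) = t ^ 2 from zpow_ofNat t 2, inv_pow, sub_eq_add_neg]

end Pool.Agent.Bet
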