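import Pool.Agent.P.MP_d34769_ag.Bridge

/-! The counting function is a polynomial. -/

namespace Pool.Agent.P.MP_d34769_ag

open Polynomial Filter Topology Classical

def IsRat (f : ℚ → ℚ) : Prop :=
  ∃ A B : ℚ[X], ∀ q : ℚ, 1 < q → B.eval q ≠ 0 ∧ f q * B.eval q = A.eval q

namespace IsRat

variable {f g : ℚ → ℚ}

lemma const (c : ℚ) : IsRat fun _ => c := ⟨C c, 1, fun q _ => by simp⟩

lemma pow (m : ℕ) : IsRat fun q => q ^ m := ⟨X ^ m, 1, fun q _ => by simp⟩

lemma add (hf : IsRat f) (hg : IsRat g) : IsRat fun q => f q + g q := by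
  obtain ⟨A, B, h⟩ := hf
  obtain ⟨A', B', h'⟩ := hg
  refine ⟨A * B' + A' * B, B * B', fun q hq => ?_⟩
  simp only [eval_mul, eval_add, ← (h q hq).2, ← (h' q hq).2]
  exact ⟨mul_ne_zero (h q hq).1 (h' q hq).1, by ring⟩

lemma mul (hf : IsRat f) (hg : IsRat g) : IsRat fun q => f q * g q := by
  obtain ⟨A, B, h⟩ := hf
  obtain ⟨A', B', h'⟩ := hg
  refine ⟨A * A', B * B', fun q hq => ?_⟩
  simp only [eval_mul, ← (h q hq).2, ← (h' q hq).2]
  exact ⟨mul_ne_zero (h q hq).1 (h' q hq).1, by ring⟩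

lemma neg (hf : IsRat f) : IsRat fun q => - f q := by
  simpa using (const (-1)).mul hf

lemma sub (hf : IsRat f) (hg : IsRat g) : IsRat fun q => f q - g q := by
  simpa [sub_eq_add_neg] using hf.add hg.neg

lemma div (hf : IsRat f) (hg : IsRat g) (h0 : ∀ q, 1 < q → g q ≠ 0) :
    IsRat fun q => f q / g q := by
  obtain ⟨A, B, h⟩ := hf
  obtain ⟨A', B', h'⟩ := hg
  refine ⟨A * B', B * A', fun q hq => ?_⟩
  have := h0 q hq
  simp only [eval_mul, ← (h q hq).2, ← (h' q hq).2]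
  exact ⟨mul_ne_zero (h q hq).1 (mul_ne_zero this (h' q hq).1), by field_simp⟩

lemma sum {β : Type} (T : Finset β) {F : β → ℚ → ℚ} (h : ∀ b ∈ T, IsRat (F b)) :
    IsRat fun q => ∑ b ∈ T, F b q := by
  induction T using Finset.induction_on with
  | empty => simpa using const 0
  | insert b T hb ih =>
    simp only [Finset.sum_insert hb]
    exact (h b (by simp)).add (ih fun c hc => h c (by simp [hc]))

lemma prod {β : Type} (T : Finset β) {F : β → ℚ → ℚ} (h : ∀ b ∈ T, IsRat (F b)) :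
    IsRat fun q => ∏ b ∈ T, F b q := by
  induction T using Finset.induction_on with
  | empty => simpa using const 1
  | insert b T hb ih =>
    simp only [Finset.prod_insert hb]
    exact (h b (by simp)).mul (ih fun c hc => h c (by simp [hc]))

lemma comp_pow (hf : IsRat f) {r : ℕ} (hr : r ≠ 0) : IsRat fun q => f (q ^ r) := by
  obtain ⟨A, B, h⟩ := hf
  refine ⟨A.comp (X ^ r), B.comp (X ^ r), fun q hq => ?_⟩
  simpa [eval_comp] using h _ (one_lt_pow₀ hq hr)

theorem poly (hf : IsRat f) (hint : ∀ m : ℕ, ∃ z : ℤ, f (2 ^ (m + 1)) = z) :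
    ∃ P : ℚ[X], ∀ q : ℚ, 1 < q → P.eval q = f q := by
  obtain ⟨A, B, h⟩ := hf
  have hB : B ≠ 0 := fun h0 => (h 2 one_lt_two).1 (by simp [h0])
  have hA : ∀ q, 1 < q → f q = (A / B).eval q + (A % B).eval q / B.eval q := fun q hq => by
    have h1 := congrArg (eval q) (EuclideanDomain.div_add_mod A B)
    have h2 := (h q hq).1
    rw [eval_add, eval_mul, ← (h q hq).2] at h1
    field_simp
    linarith
  suffices A % B = 0 from ⟨A / B, fun q hq => by simp [hA q hq, this]⟩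
  obtain ⟨b, hb, hQ⟩ := IsLocalization.integerNormalization_spec (nonZeroDivisors ℤ) (A / B)
  have hb0 : (b : ℚ) ≠ 0 := Int.cast_ne_zero.2 (nonZeroDivisors.ne_zero hb)
  have h2 : ∀ m : ℕ, (1 : ℚ) < 2 ^ (m + 1) := fun m => one_lt_pow₀ one_lt_two m.succ_ne_zero
  have hlim : Tendsto (fun m : ℕ => (b : ℚ) * ((A % B).eval (2 ^ (m + 1)) / B.eval (2 ^ (m + 1))))
      atTop (𝓝 0) := by
    have := ((div_tendsto_atTop_zero_of_degree_lt _ _ (degree_mod_lt A hB)).comp
      ((tendsto_pow_atTop_atTop_of_one_lt (one_lt_two (α := ℚ))).comp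
        (tendsto_add_atTop_nat 1))).const_mul (b : ℚ)
    simpa using this
  obtain ⟨N, hN⟩ := eventually_atTop.1 (hlim.abs.eventually (gt_mem_nhds (by simp : |(0 : ℚ)| < 1)))
  refine eq_zero_of_infinite_isRoot _ (Set.infinite_of_injective_forall_mem
    (f := fun m : ℕ => (2 : ℚ) ^ (m + N + 1)) (fun m m' hm => ?_) fun m => ?_)
  · have := pow_right_injective₀ (by norm_num : (0 : ℚ) < 2) (by norm_num) hm
    omega
  · obtain ⟨z, hz⟩ := hint (m + N)
    have h3 := hN (m + N) (by omega)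
    have h4 := congrArg (eval ((2 : ℚ) ^ (m + N + 1))) hQ
    have h5 : ((2 : ℚ) ^ (m + N + 1)) = algebraMap ℤ ℚ (2 ^ (m + N + 1)) := by simp
    rw [eval_smul, zsmul_eq_mul] at h4
    conv_lhs at h4 => rw [h5, eval_map_algebraMap, aeval_algebraMap_apply]
    have h6 : (b : ℚ) * ((A % B).eval (2 ^ (m + N + 1)) / B.eval (2 ^ (m + N + 1))) =
        ((b * z - aeval (2 ^ (m + N + 1) : ℤ)
          (IsLocalization.integerNormalization (nonZeroDivisors ℤ) (A / B)) : ℤ) : ℚ) := by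
      rw [Int.cast_sub, Int.cast_mul, ← hz, hA _ (h2 _), ← eq_intCast (algebraMap ℤ ℚ) (aeval _ _),
        h4]
      ring
    rw [h6, ← Int.cast_abs, ← Int.cast_one, Int.cast_lt, Int.abs_lt_one_iff] at h3
    rw [h3, Int.cast_zero, mul_eq_zero, div_eq_zero_iff] at h6
    exact (h6.resolve_left hb0).resolve_right (h _ (h2 _)).1

end IsRat

lemma isRat_pser (θ : (Fin 3 → ℕ) → ℝ) (e : Fin 3 → ℕ) : IsRat fun q => pser θ q e := by
  suffices ∀ N e, IsRat fun q => (pstep θ q)^[N] 0 e from this _ e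
  intro N
  induction N with
  | zero => exact fun _ => IsRat.const 0
  | succ N ih =>
    intro e
    simp only [Function.iterate_succ_apply', pstep]
    split_ifs
    · exact IsRat.const 1
    · refine (IsRat.sum _ fun f _ => ((ih f).mul (IsRat.pow _)).div (IsRat.prod _ fun i _ =>
        IsRat.prod _ fun j _ => (IsRat.pow _).sub (IsRat.pow _)) fun q hq => ?_).neg
      exact Finset.prod_ne_zero_iff.2 fun i _ => Finset.prod_ne_zero_iff.2 fun j hj =>
        sub_ne_zero.2 (pow_lt_pow_right₀ hq (Finset.mem_Ico.1 hj).2).ne'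

lemma isRat_gser (θ : (Fin 3 → ℕ) → ℝ) (e : Fin 3 → ℕ) : IsRat fun q => gser θ q e := by
  suffices ∀ N e, IsRat fun q => (gstep θ q)^[N] 0 e from this _ e
  intro N
  induction N with
  | zero => exact fun _ => IsRat.const 0
  | succ N ih =>
    intro e
    simp only [Function.iterate_succ_apply', gstep]
    exact ((IsRat.const _).mul (isRat_pser θ e)).sub
      (IsRat.sum _ fun f _ => (ih f).mul (isRat_pser θ _))

lemma isRat_cnt (θ : (Fin 3 → ℕ) → ℝ) (e : Fin 3 → ℕ) : IsRat (cnt θ e) := by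
  have h1 : IsRat fun q => (1 - q) / sz e := by
    simpa [div_eq_mul_inv] using ((IsRat.const 1).sub (IsRat.pow 1)).mul (IsRat.const (sz e)⁻¹)
  exact h1.mul (IsRat.sum _ fun r hr => (IsRat.const _).mul
    ((isRat_gser θ _).comp_pow (Nat.pos_of_mem_divisors hr).ne'))

theorem exists_poly {n d k : ℕ} (hn : 0 < n) (hk : 0 < k) {α : ℝ} (hα : 0 < α) :
    ∃ P : ℚ[X], ∀ q : ℚ, 1 < q → P.eval q = cnt (wgt n d k α) ![d, n + d, k] q := by
  refine (isRat_cnt _ _).poly fun m => ?_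
  have := card_eq_cnt (K := GaloisField 2 (m + 1)) (d := d) hn hk hα
  rw [GaloisField.card 2 (m + 1) m.succ_ne_zero, Nat.cast_pow, Nat.cast_ofNat] at this
  exact ⟨_, this.symm.trans (Int.cast_natCast _).symm⟩

theorem mainB (n d k : ℕ) (hn : 0 < n) (hk : 0 < k) (α : ℝ) (hα : 0 < α) :
    ∃ P : Polynomial ℚ,
      (∀ q : ℚ, 1 < q → P.eval q = cnt (wgt n d k α) ![d, n + d, k] q) ∧
      ∀ (K : Type) [Field K] [Finite K],
        Finite (Quot fun S S' : {S : CohSys K n d k // Stable α S ∧ Simple S} => Iso S.1 S'.1) ∧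
        (Nat.card (Quot fun S S' : {S : CohSys K n d k // Stable α S ∧ Simple S} =>
          Iso S.1 S'.1) : ℚ) = P.eval (Nat.card K : ℚ) := by
  obtain ⟨P, hP⟩ := exists_poly (d := d) hn hk hα
  exact ⟨P, hP, fun K _ _ => ⟨finite_quot hn hk hα, by
    rw [card_eq_cnt hn hk hα, hP _ (Nat.one_lt_cast.2 Finite.one_lt_card)]⟩⟩

end Pool.Agent.P.MP_d34769_ag
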