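import Pool.Agent.P.MP_d34769_ag.BF2
import Pool.Agent.P.MP_d34769_ag.Poly

/-! TASK BF4: the Poincare series is a polynomial. -/

namespace Pool.Agent.Bet

open Pool.Agent.P.MP_d34769_ag (pser wgt)

lemma th_BF4 (n d k : ℕ) (α : ℝ) (f : Fin 3 → ℕ) : th (wt3 n d k α) f = wgt n d k α f := by
  simp [th, wt3, wgt, Fin.sum_univ_three]
  ring

theorem gen_of_irrational {n d k : ℕ} (hn : 0 < n) (hk : 0 < k) (hc : Nat.gcd n (Nat.gcd d k) = 1)
    {α : ℝ} (hα : Irrational α) : Gen (wt3 n d k α) ![d, n + d, k] := by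
  refine ⟨by simp [th_BF4, wgt]; ring, fun h => hk.ne' (congrFun h 2), fun f hf h0 hd h => ?_⟩
  rw [th_BF4, wgt] at h
  obtain ⟨m, hm⟩ : ∃ m : ℤ, m = f 1 - f 0 := ⟨_, rfl⟩
  have h1 : ((d * m - n * f 0 : ℤ) : ℝ) = α * (n * f 2 - k * m : ℤ) := by
    rw [hm]
    push_cast
    linear_combination -h
  have h2 : (n * f 2 - k * m : ℤ) = 0 := by
    by_contra h2
    exact hα.ne_rational _ _ (eq_div_of_mul_eq (Int.cast_ne_zero.2 h2) h1.symm)
  rw [h2, Int.cast_zero, mul_zero, Int.cast_eq_zero] at h1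
  have h3 : (n : ℤ) ∣ m := by
    have h4 : n ∣ Nat.gcd n (Nat.gcd d k) * m.natAbs := by
      rw [← Nat.gcd_mul_right, ← Nat.gcd_mul_right]
      refine Nat.dvd_gcd (dvd_mul_right _ _) (Nat.dvd_gcd ?_ ?_)
      · simpa [Int.natAbs_mul] using Int.natAbs_dvd_natAbs.2 ⟨f 0, sub_eq_zero.1 h1⟩
      · simpa [Int.natAbs_mul] using Int.natAbs_dvd_natAbs.2 ⟨f 2, (sub_eq_zero.1 h2).symm⟩
    rw [hc, one_mul] at h4
    exact Int.natCast_dvd.2 h4
  obtain ⟨j, rfl⟩ := h3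
  have hn' : (n : ℤ) ≠ 0 := by omega
  have a0 : (f 0 : ℤ) = d * j := mul_left_cancel₀ hn' (by linear_combination -h1)
  have a2 : (f 2 : ℤ) = k * j := mul_left_cancel₀ hn' (by linear_combination h2)
  have b2 : f 2 ≤ k := hf 2
  have j0 : 0 ≤ j := by
    by_contra hj
    have : (k : ℤ) * j < 0 := mul_neg_of_pos_of_neg (by omega) (by omega)
    omega
  have j1 : j ≤ 1 := by
    by_contra hj
    have : (k : ℤ) * 2 ≤ k * j := mul_le_mul_of_nonneg_left (by omega) (by omega)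
    omega
  obtain rfl | rfl : j = 0 ∨ j = 1 := by omega
  · refine h0 (funext fun i => ?_)
    fin_cases i <;> simp <;> omega
  · refine hd (funext fun i => ?_)
    fin_cases i <;> simp <;> omega

open Pool.Agent.P.MP_d34769_ag (cnt gser gstep sz) in
lemma cnt_BF4 {n d k : ℕ} (hn : 0 < n) (hk : 0 < k) (hc : Nat.gcd n (Nat.gcd d k) = 1)
    {α : ℝ} (hα : Irrational α) (q : ℚ) :
    cnt (wgt n d k α) ![d, n + d, k] q = (1 - q) * pser (wgt n d k α) q ![d, n + d, k] := by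
  have h1 : Finset.univ.gcd ![d, n + d, k] = 1 := by
    have a := fun i => Finset.gcd_dvd (f := ![d, n + d, k]) (Finset.mem_univ i)
    exact Nat.eq_one_of_dvd_one (hc ▸ Nat.dvd_gcd ((Nat.dvd_add_left (a 0)).1 (a 1))
      (Nat.dvd_gcd (a 0) (a 2)))
  have h2 : ∀ N, (gstep (wgt n d k α) q)^[N] 0 0 = 0 := fun N => by
    cases N with
    | zero => rfl
    | succ N =>
      rw [Function.iterate_succ_apply', gstep, Finset.sum_eq_zero]
      · simp [sz]
      · intro f hf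
        rw [Finset.mem_filter, Finset.mem_Iic] at hf
        exact absurd (le_antisymm hf.1 bot_le) hf.2.1
  have h3 : (sz ![d, n + d, k] : ℚ) ≠ 0 := Nat.cast_ne_zero.2 (by simp [sz, hk.ne'])
  simp only [cnt, h1, Nat.divisors_one, Finset.sum_singleton, pow_one, Nat.div_one,
    ArithmeticFunction.moebius_apply_one, Int.cast_one, one_mul]
  rw [gser, Function.iterate_succ_apply', gstep, Finset.sum_eq_zero]
  · rw [sub_zero, ← mul_assoc, div_mul_cancel₀ _ h3]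
  · intro f hf
    rw [Finset.mem_filter, Finset.mem_Iic] at hf
    by_cases e : f = 0
    · rw [e, h2, zero_mul]
    · exact absurd ((th_BF4 _ _ _ _ _).trans hf.2.2)
        ((gen_of_irrational hn hk hc hα).2.2 f hf.1 e hf.2.1)

theorem exists_pol {n d k : ℕ} (hn : 0 < n) (hk : 0 < k) (hc : Nat.gcd n (Nat.gcd d k) = 1)
    {α : ℝ} (h0 : 0 < α) (hα : Irrational α) {b : ℤ} {s : PowerSeries ℚ}
    (h : Rel (HahnSeries.ofPowerSeries ℤ ℚ s) fun t => t ^ b * (1 - t⁻¹ ^ 2) *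
      pser (wgt n d k α) (t⁻¹ ^ 2) ![d, n + d, k]) :
    ∃ P : Polynomial ℚ, (P : PowerSeries ℚ) = s ∧ ∀ t : ℚ, 0 < t → t < 1 →
      P.eval t = t ^ b * (1 - t⁻¹ ^ 2) * pser (wgt n d k α) (t⁻¹ ^ 2) ![d, n + d, k] := by
  obtain ⟨P₀, hP⟩ := Pool.Agent.P.MP_d34769_ag.exists_poly (d := d) hn hk h0
  obtain ⟨M, M', hM⟩ : ∃ M M' : ℕ, b - 2 * P₀.natDegree + M = M' :=
    ⟨(b - 2 * P₀.natDegree).natAbs, (b - 2 * P₀.natDegree + (b - 2 * P₀.natDegree).natAbs).toNat,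
      by omega⟩
  have h1 := ((rel_zpow M).mul h).left_unique ((Rel.poly
    (Polynomial.X ^ M' * P₀.reverse.comp (Polynomial.X ^ 2))).congr fun t t0 t1 => by
      have h2 : (1 : ℚ) < t⁻¹ ^ 2 := one_lt_pow₀ ((one_lt_inv₀ t0).2 t1) two_ne_zero
      have := invertibleOfNonzero (one_pos.trans h2).ne'
      have h3 := Polynomial.eval₂_reverse_mul_pow (RingHom.id ℚ) (t⁻¹ ^ 2) P₀
      rw [Polynomial.eval₂_id, Polynomial.eval₂_id, hP _ h2, cnt_BF4 hn hk hc hα, invOf_eq_inv,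
        ← inv_pow, inv_inv] at h3
      rw [mul_assoc (t ^ b), ← h3, Polynomial.eval_mul, Polynomial.eval_comp, Polynomial.eval_pow,
        Polynomial.eval_pow, Polynomial.eval_X, ← zpow_natCast t M', ← hM, zpow_add₀ t0.ne',
        zpow_sub₀ t0.ne', ← pow_mul, inv_pow, zpow_mul, zpow_natCast, zpow_natCast, zpow_ofNat,
        pow_mul]
      ring)
  generalize Polynomial.X ^ M' * P₀.reverse.comp (Polynomial.X ^ 2) = R at h1
  have h2 : PowerSeries.X ^ M * s = (R : PowerSeries ℚ) := by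
    apply HahnSeries.ofPowerSeries_injective (Γ := ℤ)
    refine Eq.trans ?_ h1
    rw [zpow_natCast, map_mul, map_pow, ← Polynomial.coe_X]
    rfl
  obtain ⟨P, rfl⟩ : Polynomial.X ^ M ∣ R := Polynomial.X_pow_dvd_iff.2 fun i hi => by
    rw [← Polynomial.coeff_coe]
    exact PowerSeries.X_pow_dvd_iff.1 ⟨s, h2.symm⟩ i hi
  rw [Polynomial.coe_mul, Polynomial.coe_pow, Polynomial.coe_X] at h2
  obtain rfl := mul_left_cancel₀ (pow_ne_zero _ PowerSeries.X_ne_zero) h2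
  exact ⟨P, rfl, fun t t0 t1 => (Rel.poly P).right_unique h t0 t1⟩

end Pool.Agent.Bet
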