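import Pool.Agent.P.MP_d34769_ag.BM5

/-! TASK BM5b: graded subspaces and coordinate subspaces. -/

open Set Matrix

namespace Pool.Agent.Bet

variable {ι : Type} [Fintype ι] [DecidableEq ι] {κ : Type} {Ar : Type}
  {c : ι → Option κ} {p : ι → Bool} {U U' : Submodule ℂ (ι → ℂ)}

omit [DecidableEq ι] in
lemma rn_BM5b (f : (ι → ℂ) →ₗ[ℂ] (ι → ℂ)) (W : Submodule ℂ (ι → ℂ)) :
    Module.finrank ℂ (W ⊓ LinearMap.ker f : Submodule ℂ (ι → ℂ)) + Module.finrank ℂ (W.map f) =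
      Module.finrank ℂ W := by
  rw [← (f.domRestrict W).finrank_range_add_finrank_ker, LinearMap.range_domRestrict,
    LinearMap.ker_domRestrict, ← Submodule.map_comap_subtype, Submodule.finrank_map_subtype_eq,
    add_comm]

lemma rank_BM5b (c : ι → Option κ) (v : κ) :
    Module.finrank ℂ (LinearMap.range (dg c (some v)).mulVecLin) = dv c v := by
  classical
  show (dg c (some v)).rank = _
  rw [dg, dp, Matrix.rank_diagonal, Fintype.card_subtype, dv]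
  exact congrArg Finset.card (Finset.ext fun i => by simp)

lemma dg1_BM5b (c : ι → Option κ) (p : ι → Bool) (v : κ) :
    dg (c1 c p) (some v) = dg c (some v) * e1 p := by
  rw [dg, dg, e1, dp_mul_dp]
  exact dp_congr fun i => by cases h : p i <;> simp [c1, h]

lemma dg2_BM5b (c : ι → Option κ) (p : ι → Bool) (v : κ) :
    dg (c2 c p) (some v) = dg c (some v) * e2 p := by
  rw [dg, dg, e2, dp_mul_dp]
  exact dp_congr fun i => by cases h : p i <;> simp [c2, h]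

lemma cm1_BM5b (c : ι → Option κ) (p : ι → Bool) (o : Option κ) :
    e1 p * dg c o = dg c o * e1 p := dp_comm _ _

lemma cm2_BM5b (c : ι → Option κ) (p : ι → Bool) (o : Option κ) :
    e2 p * dg c o = dg c o * e2 p := dp_comm _ _

lemma dpz_BM5b {P : ι → Prop} {x : ι → ℂ} : dp P *ᵥ x = 0 ↔ ∀ i, P i → x i = 0 := by
  rw [funext_iff]
  refine forall_congr' fun i => ?_
  rw [dp_mulVec]
  by_cases h : P i <;> simp [h]

lemma fix_BM5b {x : ι → ℂ} : x ∈ V1 p ↔ e1 p *ᵥ x = x :=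
  ⟨fun ⟨y, hy⟩ => by rw [← hy, mulVecLin_apply, mulVec_mulVec, e1_e1], fun h => ⟨x, h⟩⟩

lemma ker_BM5b {x : ι → ℂ} : x ∈ V1 p ↔ e2 p *ᵥ x = 0 := by
  have h : e1 p *ᵥ x + e2 p *ᵥ x = x := by rw [← add_mulVec, e1_add_e2, one_mulVec]
  rw [fix_BM5b]
  exact ⟨fun e => by rwa [e, add_eq_left] at h, fun e => by rwa [e, add_zero] at h⟩

lemma dgV_BM5b (o : Option κ) {x : ι → ℂ} (hx : x ∈ V1 p) : dg c o *ᵥ x ∈ V1 p := by
  rw [ker_BM5b] at hx ⊢
  rw [mulVec_mulVec, cm2_BM5b, ← mulVec_mulVec, hx, mulVec_zero]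

lemma dgs_BM5b (v : κ) {x : ι → ℂ} (hx : x ∈ V1 p) :
    dg (c1 c p) (some v) *ᵥ x = dg c (some v) *ᵥ x := by
  rw [dg1_BM5b, ← mulVec_mulVec, fix_BM5b.1 hx]

lemma idem_BM5b (o : Option κ) (x : ι → ℂ) : dg c o *ᵥ (dg c o *ᵥ x) = dg c o *ᵥ x := by
  rw [mulVec_mulVec, dg, dp_idem]

theorem gs_V1 (hp : Adm c p) : Gs c (V1 p) ∧ du c (V1 p) = dv (c1 c p) := by
  refine ⟨⟨fun v x hx => dgV_BM5b _ hx, fun x hx => dpz_BM5b.2 fun i hi => ?_⟩, funext fun v => ?_⟩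
  · refine dpz_BM5b.1 (ker_BM5b.1 hx) i ?_
    cases h : p i
    · rfl
    · exact absurd hi (hp i h)
  · rw [← rank_BM5b, dg1_BM5b, mulVecLin_mul, LinearMap.range_comp]
    rfl

theorem sr_V1 (hp : Adm c p) {φ : Cj Ar ι} : Sr c φ (V1 p) ↔ blk (e2 p) (e1 p) φ = 0 := by
  constructor
  · intro h
    funext a
    refine ext_iff_mulVec.2 fun x => ?_
    rw [blk_apply, Cj.zero_apply, zero_mulVec, ← mulVec_mulVec, ← mulVec_mulVec]
    exact ker_BM5b.1 (h.2 a _ ⟨x, rfl⟩)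
  · refine fun h => ⟨(gs_V1 hp).1, fun a x hx => ?_⟩
    have e : e2 p * φ a * e1 p = 0 := congrFun h a
    rw [ker_BM5b, ← fix_BM5b.1 hx, mulVec_mulVec, mulVec_mulVec, e, zero_mulVec]

/-- the whole unfrozen space is a subrepresentation -/
theorem exists_top {s t : Ar → κ} {φ : Cj Ar ι} (h : φ ∈ Rc s t c) :
    ∃ U, Sr c φ U ∧ du c U = dv c := by
  have hp : Adm c fun i => (c i).isSome := fun i hi e => by simp [e] at hi
  have e : c1 c (fun i => (c i).isSome) = c := funext fun i => by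
    cases h : c i <;> simp [c1, h]
  refine ⟨V1 fun i => (c i).isSome, (sr_V1 hp).2 (funext fun a => ?_), by rw [(gs_V1 hp).2, e]⟩
  have e0 : e2 (fun i => (c i).isSome) * dg c (some (t a)) = 0 := by
    rw [e2, dg, dp_mul_dp]
    exact dp_false fun i hi => by simp [hi.2] at hi
  rw [blk_apply, Cj.zero_apply, ← h a, ← mul_assoc, ← mul_assoc, e0, zero_mul, zero_mul, zero_mul]

/-- kernel and image of an endomorphism -/
theorem du_ker_range (hc : ∀ i, c i ≠ none) {x : Matrix ι ι ℂ} (hx : ∀ o, dg c o * x = x * dg c o) :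
    Gs c (LinearMap.ker x.mulVecLin) ∧ Gs c (LinearMap.range x.mulVecLin) ∧
      du c (LinearMap.ker x.mulVecLin) + du c (LinearMap.range x.mulVecLin) = dv c := by
  have h0 : ∀ y : ι → ℂ, dg c none *ᵥ y = 0 := fun y => dpz_BM5b.2 fun i hi => absurd hi (hc i)
  have hm : ∀ o y, x *ᵥ (dg c o *ᵥ y) = dg c o *ᵥ (x *ᵥ y) := fun o y => by
    rw [mulVec_mulVec, mulVec_mulVec, hx]
  have hk : ∀ o, ∀ y ∈ LinearMap.ker x.mulVecLin, dg c o *ᵥ y ∈ LinearMap.ker x.mulVecLin :=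
    fun o y hy => by
      rw [LinearMap.mem_ker, mulVecLin_apply] at hy ⊢
      rw [hm, hy, mulVec_zero]
  refine ⟨⟨fun v => hk _, fun y _ => h0 y⟩, ⟨?_, fun y _ => h0 y⟩, funext fun v => ?_⟩
  · rintro v _ ⟨y, rfl⟩
    exact ⟨_, hm _ y⟩
  · have e1 : (LinearMap.ker x.mulVecLin).map (dg c (some v)).mulVecLin =
        LinearMap.range (dg c (some v)).mulVecLin ⊓ LinearMap.ker x.mulVecLin := by
      refine le_antisymm ?_ ?_
      · rintro _ ⟨y, hy, rfl⟩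
        exact ⟨⟨y, rfl⟩, hk _ y hy⟩
      · rintro _ ⟨⟨y, rfl⟩, hy⟩
        exact ⟨_, hy, idem_BM5b _ y⟩
    have e2 : (LinearMap.range x.mulVecLin).map (dg c (some v)).mulVecLin =
        (LinearMap.range (dg c (some v)).mulVecLin).map x.mulVecLin := by
      rw [← LinearMap.range_comp, ← LinearMap.range_comp, ← mulVecLin_mul, ← mulVecLin_mul, hx]
    rw [Pi.add_apply, du, du, e1, e2, rn_BM5b, rank_BM5b]

/-- the parts of a graded subspace along `p` -/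
theorem du_split (h : Gs c U) :
    Gs (c1 c p) (U ⊓ V1 p) ∧ Gs (c2 c p) (U.map (e2 p).mulVecLin) ∧
      du (c1 c p) (U ⊓ V1 p) + du (c2 c p) (U.map (e2 p).mulVecLin) = du c U := by
  refine ⟨⟨fun v x hx => ?_, fun x hx => dpz_BM5b.2 fun i hi => ?_⟩, ⟨?_, ?_⟩, funext fun v => ?_⟩
  · rw [dgs_BM5b v hx.2]
    exact ⟨h.1 v x hx.1, dgV_BM5b _ hx.2⟩
  · cases e : p i
    · exact dpz_BM5b.1 (ker_BM5b.1 hx.2) i e
    · exact dpz_BM5b.1 (h.2 x hx.1) i (by simpa [c1, e] using hi)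
  · rintro v _ ⟨x, hx, rfl⟩
    refine ⟨_, h.1 v x hx, ?_⟩
    rw [mulVecLin_apply, mulVecLin_apply, mulVec_mulVec, mulVec_mulVec, dg2_BM5b, mul_assoc, e2_e2,
      cm2_BM5b]
  · rintro _ ⟨x, hx, rfl⟩
    refine dpz_BM5b.2 fun i hi => ?_
    rw [mulVecLin_apply, e2, dp_mulVec]
    cases e : p i
    · rw [if_pos rfl]
      exact dpz_BM5b.1 (h.2 x hx) i (by simpa [c2, e] using hi)
    · simp
  · have a1 : (U ⊓ V1 p).map (dg (c1 c p) (some v)).mulVecLin =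
        U.map (dg c (some v)).mulVecLin ⊓ LinearMap.ker (e2 p).mulVecLin := by
      refine le_antisymm ?_ ?_
      · rintro _ ⟨y, hy, rfl⟩
        rw [mulVecLin_apply, dgs_BM5b v hy.2]
        exact ⟨⟨y, hy.1, rfl⟩, ker_BM5b.1 (dgV_BM5b _ hy.2)⟩
      · rintro _ ⟨⟨y, hy, rfl⟩, hz⟩
        have hz' := ker_BM5b.2 hz
        exact ⟨_, ⟨h.1 v y hy, hz'⟩, (dgs_BM5b v hz').trans (idem_BM5b _ y)⟩
    have a2 : (U.map (e2 p).mulVecLin).map (dg (c2 c p) (some v)).mulVecLin =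
        (U.map (dg c (some v)).mulVecLin).map (e2 p).mulVecLin := by
      rw [← Submodule.map_comp, ← Submodule.map_comp, ← mulVecLin_mul, ← mulVecLin_mul, dg2_BM5b,
        mul_assoc, e2_e2, cm2_BM5b]
    rw [Pi.add_apply, du, du, a1, a2, rn_BM5b, du]

theorem du_c1 (h : Gs (c1 c p) U) : Gs c U ∧ U ≤ V1 p ∧ du c U = du (c1 c p) U := by
  have hV : U ≤ V1 p := fun x hx => ker_BM5b.2 (dpz_BM5b.2 fun i hi =>
    dpz_BM5b.1 (h.2 x hx) i (by simp [c1, hi]))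
  refine ⟨⟨fun v x hx => dgs_BM5b (c := c) v (hV hx) ▸ h.1 v x hx, fun x hx => dpz_BM5b.2 fun i hi =>
    dpz_BM5b.1 (h.2 x hx) i (by simp [c1, hi])⟩, hV, funext fun v => ?_⟩
  have e : U.map (dg c (some v)).mulVecLin = U.map (dg (c1 c p) (some v)).mulVecLin :=
    Submodule.ext fun y => exists_congr fun x => and_congr_right fun hx => by
      rw [mulVecLin_apply, mulVecLin_apply, dgs_BM5b v (hV hx)]
  rw [du, du, e]

theorem du_c2 (hp : Adm c p) (h : Gs (c2 c p) U) :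
    Gs c (V1 p ⊔ U) ∧ du c (V1 p ⊔ U) = dv (c1 c p) + du (c2 c p) U := by
  have e : c2 c p = c1 c fun i => !p i := funext fun i => by cases h : p i <;> simp [c1, c2, h]
  rw [e] at h ⊢
  obtain ⟨h1, h2, h3⟩ := du_c1 h
  have hb : V1 p ⊓ U = ⊥ := (Submodule.eq_bot_iff _).2 fun x hx => funext fun i => by
    cases a : p i
    · exact dpz_BM5b.1 (ker_BM5b.1 hx.1) i a
    · exact dpz_BM5b.1 (ker_BM5b.1 (h2 hx.2)) i (by simp [a])
  have h4 := du_sup_inf (gs_V1 hp).1 h1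
  rw [hb, du_bot, add_zero, (gs_V1 hp).2, h3] at h4
  exact ⟨(gs_V1 hp).1.sup h1, h4⟩

end Pool.Agent.Bet
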