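import Pool.Agent.P.MP_d34769_ag.BM7

/-! TASK BM7b: invariance, description of the open strata, Schur. -/

open Set Matrix

namespace Pool.Agent.Bet

variable {ι : Type} [Fintype ι] [DecidableEq ι] {κ : Type} {Ar : Type} [Fintype κ]
  {s t : Ar → κ} {w : κ → ℝ} {c : ι → Option κ} {p : ι → Bool} {f g : κ → ℕ} {φ : Cj Ar ι}

omit [Fintype κ] in
lemma cl_BM7b (f : κ → ℕ) : Ivt (Gc c) (Cl s t c f) := by
  rintro γ φ ⟨h, U, hU, e⟩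
  exact ⟨ivt_Rc s t c γ φ h, _, hU.smul γ.2, (hU.1.map γ.2).2.trans e⟩

omit [Fintype κ] in
lemma not_cl_BM7b (γ : Gc c) (h : φ ∉ Cl s t c f) : γ • φ ∉ Cl s t c f := fun h' =>
  h (by simpa only [inv_smul_smul] using cl_BM7b f γ⁻¹ _ h')

omit [Fintype κ] in
lemma sr_bot_BM7b (φ : Cj Ar ι) : Sr c φ ⊥ :=
  ⟨gs_bot, fun a x hx => by
    rw [Submodule.mem_bot] at hx ⊢
    rw [hx, Matrix.mulVec_zero]⟩

lemma sZ_zero_BM7b : sZ (0 : κ → ℕ) = 0 := by simp [sZ]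

lemma eq_bot_BM7b {U : Submodule ℂ (ι → ℂ)} (h : Gs c U) (e : du c U = 0) : U = ⊥ := by
  have h1 := sZ_du h
  rw [e, sZ_zero_BM7b] at h1
  exact Submodule.finrank_eq_zero.1 h1.symm

lemma pos_BM7b {U : Submodule ℂ (ι → ℂ)} (h : Gs c U) (e : U ≠ ⊥) : 0 < sZ (du c U) := by
  rw [sZ_du h]
  exact Nat.pos_of_ne_zero fun h0 => e (Submodule.finrank_eq_zero.1 h0)

lemma blk_BM7b {e : Matrix ι ι ℂ} {k k' : GG ι} (h : e * k.1 = k.1 * e) (h' : e * k'.1 = k'.1 * e)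
    (h2 : k.1 * e = k'.1 * e) (φ : Cj Ar ι) : k • blk e e φ = k' • blk e e φ := by
  have h3 : e * (k⁻¹).1 = e * (k'⁻¹).1 := by
    calc e * (k⁻¹).1 = (k⁻¹).1 * e := (Commute.units_inv_right h).eq
      _ = (k⁻¹).1 * (e * k'.1) * (k'⁻¹).1 := by
          rw [mul_assoc, mul_assoc, Units.mul_inv, mul_one]
      _ = e * (k'⁻¹).1 := by rw [h', ← h2, ← mul_assoc, Units.inv_mul, one_mul]
  funext a
  simp only [Cj.smul_apply, blk_apply]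
  calc k.1 * (e * φ a * e) * (k⁻¹).1 = (k.1 * e) * φ a * (e * (k⁻¹).1) := by
        simp only [mul_assoc]
    _ = (k'.1 * e) * φ a * (e * (k'⁻¹).1) := by rw [h2, h3]
    _ = _ := by simp only [mul_assoc]

lemma e2_BM7b {x : Matrix ι ι ℂ} (h : e1 p * x = x * e1 p) : e2 p * x = x * e2 p := by
  rw [← eq_sub_iff_add_eq'.2 (e1_add_e2 p) |>.symm, sub_mul, mul_sub, one_mul, mul_one, h]

theorem ivt_Cl (f : κ → ℕ) : Ivt (Gc c) (Cl s t c f) := by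
  exact cl_BM7b f

theorem ivt_St (f : κ → ℕ) : Ivt (Gc c) (St s t w c f) := by
  rintro γ φ ⟨h, h'⟩
  exact ⟨cl_BM7b f γ φ h, fun g hg => not_cl_BM7b γ (h' g hg)⟩

lemma mem_Ge_BM7b : φ ∈ Ge s t w c ↔ φ ∈ Rc s t c ∧ ∀ g, Hi w g (dv c) → φ ∉ Cl s t c g := by
  refine and_congr_right fun h => ⟨?_, fun H U hU => ?_⟩
  · rintro H _ hg ⟨-, U, hU, rfl⟩
    rcases hg with hg | ⟨-, hg⟩
    · exact absurd (H U hU) (not_le.2 hg)
    · exact absurd (Finset.sum_le_sum fun v _ => du_le c U v) (not_le.2 hg)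
  · by_contra hn
    exact H _ (Or.inl (not_le.1 hn)) ⟨h, U, hU, rfl⟩

lemma mem_Lt_BM7b : φ ∈ Lt s t w c ↔ φ ∈ Rc s t c ∧ ∀ g, Hi w g 0 → φ ∉ Cl s t c g := by
  refine and_congr_right fun h => ⟨?_, fun H U hU h0 => ?_⟩
  · rintro H _ hg ⟨-, U, hU, rfl⟩
    by_cases h0 : U = ⊥
    · rw [h0, du_bot] at hg
      rcases hg with hg | ⟨-, hg⟩ <;> exact lt_irrefl _ hg
    · have h1 := H U hU h0
      rcases hg with hg | ⟨hg, -⟩ <;> rw [th_zero] at hg <;> linarith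
  · by_contra hn
    refine H _ ?_ ⟨h, U, hU, rfl⟩
    rcases (not_lt.1 hn).lt_or_eq with h1 | h1
    · exact Or.inl (by rwa [th_zero])
    · exact Or.inr ⟨by rwa [th_zero], by rw [sZ_zero_BM7b]; exact pos_BM7b hU.1 h0⟩

theorem ivt_Ge : Ivt (Gc c) (Ge s t w c) := by
  intro γ φ h
  rw [mem_Ge_BM7b] at h ⊢
  exact ⟨ivt_Rc s t c γ φ h.1, fun g hg => not_cl_BM7b γ (h.2 g hg)⟩

theorem ivt_Lt : Ivt (Gc c) (Lt s t w c) := by
  intro γ φ h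
  rw [mem_Lt_BM7b] at h ⊢
  exact ⟨ivt_Rc s t c γ φ h.1, fun g hg => not_cl_BM7b γ (h.2 g hg)⟩

theorem ivt_O2 (hp : Adm c p) : Ivt (Kc (cp c p)) (O2 s t w c p) := by
  rintro ⟨k, hk⟩ φ ⟨h, h1, h2⟩
  obtain ⟨g₁, m₁, g₂, m₂, -, d₁, d₂⟩ := split_Kc hp hk
  obtain ⟨hk', a1⟩ := mem_Kc_cp.1 hk
  have a2 := e2_BM7b a1
  have b1 := (mem_Kc_cp.1 (Kc_c1_le c p m₁)).2
  have b2 := e2_BM7b (mem_Kc_cp.1 (Kc_c2_le c p m₂)).2
  refine ⟨ivt_Rc s t c ⟨k, Kc_le c hk'⟩ φ h, ?_, ?_⟩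
  · change blk (e1 p) (e1 p) (k • φ) ∈ _
    rw [blk_smul a1 a1, blk_BM7b a1 b1
      (by rw [d₁, add_mul, e2_e1, add_zero, mul_assoc, ← a1, ← mul_assoc, e1_e1])]
    exact ivt_Ge ⟨g₁, Kc_le _ m₁⟩ _ h1
  · change blk (e2 p) (e2 p) (k • φ) ∈ _
    rw [blk_smul a2 a2, blk_BM7b a2 b2
      (by rw [d₂, add_mul, e1_e2, zero_add, mul_assoc, ← a2, ← mul_assoc, e2_e2])]
    exact ivt_Lt ⟨g₂, Kc_le _ m₂⟩ _ h2

theorem ivt_Zs (hp : Adm c p) : Ivt (Kc (cp c p)) (Zs s t w c p) := by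
  rintro ⟨k, hk⟩ φ ⟨h, h1⟩
  have a1 := (mem_Kc_cp.1 hk).2
  refine ⟨ivt_O2 hp ⟨k, hk⟩ φ h, ?_⟩
  change blk (e2 p) (e1 p) (k • φ) = 0
  rw [blk_smul (e2_BM7b a1) a1, h1, smul_zero]

theorem ivt_Z0 (hp : Adm c p) : Ivt (Kc (cp c p)) (Z0 s t w c p) := by
  rintro ⟨k, hk⟩ φ ⟨h, h1⟩
  have a1 := (mem_Kc_cp.1 hk).2
  refine ⟨ivt_Zs hp ⟨k, hk⟩ φ h, ?_⟩
  change blk (e1 p) (e2 p) (k • φ) = 0
  rw [blk_smul a1 (e2_BM7b a1), h1, smul_zero]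

theorem Cl_le (h : φ ∈ Cl s t c f) : f ≤ dv c := by
  obtain ⟨-, U, -, rfl⟩ := h
  exact du_le c U

theorem mem_Ge : φ ∈ Ge s t w c ↔ φ ∈ Rc s t c ∧ ∀ g, Hi w g (dv c) → φ ∉ Cl s t c g := by
  exact mem_Ge_BM7b

theorem mem_Lt : φ ∈ Lt s t w c ↔ φ ∈ Rc s t c ∧ ∀ g, Hi w g 0 → φ ∉ Cl s t c g := by
  exact mem_Lt_BM7b

theorem Ge_empty (h : th w (dv c) < 0) : Ge s t w c = ∅ := by
  refine eq_empty_of_forall_notMem fun φ hφ => ?_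
  have h1 := hφ.2 ⊥ (sr_bot_BM7b φ)
  rw [du_bot, th_zero] at h1
  linarith

theorem Lt_empty (h : 0 ≤ th w (dv c)) (h0 : dv c ≠ 0) : Lt s t w c = ∅ := by
  refine eq_empty_of_forall_notMem fun φ hφ => ?_
  obtain ⟨U, hU, e⟩ := exists_top hφ.1
  have h1 := hφ.2 U hU fun hb => h0 (by rw [← e, hb, du_bot])
  rw [e] at h1
  linarith

theorem Ge_Lt_zero (h : dv c = 0) : Ge s t w c = Rc s t c ∧ Lt s t w c = Rc s t c := by
  have h0 : ∀ U, du c U = 0 := fun U => le_antisymm (h ▸ du_le c U) zero_le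
  refine ⟨Subset.antisymm (fun φ hφ => hφ.1) fun φ hφ => ⟨hφ, fun U _ => ?_⟩,
    Subset.antisymm (fun φ hφ => hφ.1) fun φ hφ => ⟨hφ, fun U hU hb => ?_⟩⟩
  · rw [h0, h]
  · exact absurd (eq_bot_BM7b hU.1 (h0 U)) hb

/-- Schur's lemma -/
theorem schur (hc : ∀ i, c i ≠ none) (hg : Gen w (dv c)) (h : φ ∈ Ge s t w c) {x : Matrix ι ι ℂ}
    (hx : ∀ o, dg c o * x = x * dg c o) (e : ∀ a, x * φ a = φ a * x) :
    ∃ z : ℂ, x = z • (1 : Matrix ι ι ℂ) := by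
  obtain ⟨g0, g1, g2⟩ := hg
  have : Nonempty ι := by
    by_contra hn
    rw [not_nonempty_iff] at hn
    exact g1 (dv_eq_zero.2 fun i => isEmptyElim i)
  obtain ⟨z, hz⟩ := Module.End.exists_eigenvalue (x.mulVecLin : Module.End ℂ (ι → ℂ))
  obtain ⟨v, hv⟩ := hz.exists_hasEigenvector
  refine ⟨z, ?_⟩
  obtain ⟨y, hy⟩ : ∃ y, y = x - z • (1 : Matrix ι ι ℂ) := ⟨_, rfl⟩
  have hyc : ∀ m : Matrix ι ι ℂ, m * x = x * m → m * y = y * m := fun m hm => by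
    rw [hy, mul_sub, sub_mul, hm, Matrix.mul_smul, Matrix.smul_mul, mul_one, one_mul]
  obtain ⟨k1, k2, k3⟩ := du_ker_range hc (x := y) fun o => hyc _ (hx o)
  have s1 : Sr c φ (LinearMap.ker y.mulVecLin) := ⟨k1, fun a u hu => by
    rw [LinearMap.mem_ker, Matrix.mulVecLin_apply] at hu ⊢
    rw [Matrix.mulVec_mulVec, ← hyc _ (e a).symm, ← Matrix.mulVec_mulVec, hu, Matrix.mulVec_zero]⟩
  have s2 : Sr c φ (LinearMap.range y.mulVecLin) := ⟨k2, fun a u hu => by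
    obtain ⟨u', rfl⟩ := hu
    refine ⟨φ a *ᵥ u', ?_⟩
    simp only [Matrix.mulVecLin_apply, Matrix.mulVec_mulVec]
    rw [hyc _ (e a).symm]⟩
  have t1 := h.2 _ s1
  have t2 := h.2 _ s2
  have t3 := th_add w (du c (LinearMap.ker y.mulVecLin)) (du c (LinearMap.range y.mulVecLin))
  rw [k3] at t3
  have hne : LinearMap.ker y.mulVecLin ≠ ⊥ := by
    rw [Submodule.ne_bot_iff]
    refine ⟨v, ?_, hv.2⟩
    have h1 : x *ᵥ v = z • v := hv.apply_eq_smul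
    rw [LinearMap.mem_ker, Matrix.mulVecLin_apply, hy, Matrix.sub_mulVec, Matrix.smul_mulVec,
      Matrix.one_mulVec, h1, sub_self]
  have hk : du c (LinearMap.ker y.mulVecLin) = dv c := by
    by_contra hn
    exact g2 _ (du_le c _) (fun h0 => hne (eq_bot_BM7b k1 h0)) hn (by linarith)
  rw [hk, add_eq_left] at k3
  have hr := LinearMap.range_eq_bot.1 (eq_bot_BM7b k2 k3)
  have hy0 : y = 0 := by
    refine Matrix.toLin'.injective ?_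
    rw [map_zero]
    exact hr
  rwa [hy, sub_eq_zero] at hy0

end Pool.Agent.Bet
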