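import Pool.Agent.P.MP_d34769_ag.BF5b
import Pool.Agent.P.MP_d34769_ag.BM7b
import Pool.Agent.P.MP_d34769_ag.MainA

/-! TASK BF6: the moduli space of coherent systems is the orbit space. -/

open Set

namespace Pool.Agent.Bet

open Pool.Agent.P.MP_d34769_ag (GMod modTop)

open Topology in
/-- Two quotient maps with the same fibres have homeomorphic targets. -/
lemma homeo_BF6 {A X Y : Type} [TopologicalSpace A] [TopologicalSpace X] [TopologicalSpace Y]
    {π : A → X} {j : A → Y} (hπ : IsQuotientMap π) (hj : IsQuotientMap j)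
    (h : ∀ a b, π a = π b ↔ j a = j b) : Nonempty (X ≃ₜ Y) := by
  have e1 : ∀ a, j (Function.surjInv hπ.surjective (π a)) = j a :=
    fun a => (h _ _).1 (Function.surjInv_eq _ _)
  have e2 : ∀ a, π (Function.surjInv hj.surjective (j a)) = π a :=
    fun a => (h _ _).2 (Function.surjInv_eq _ _)
  refine ⟨⟨⟨fun x => j (Function.surjInv hπ.surjective x),
    fun y => π (Function.surjInv hj.surjective y), fun x => ?_, fun y => ?_⟩, ?_, ?_⟩⟩
  · exact (e2 _).trans (Function.surjInv_eq _ _)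
  · exact (e1 _).trans (Function.surjInv_eq _ _)
  · exact hπ.continuous_iff.2 (hj.continuous.congr fun a => (e1 a).symm)
  · exact hj.continuous_iff.2 (hπ.continuous.congr fun a => (e2 a).symm)

open Topology Pool.Agent.P.MP_d34769_ag in
theorem exists_homeo {n d k : ℕ} (hn : 0 < n) (hk : 0 < k) {α : ℝ} (h0 : 0 < α)
    (hg : Gen (wt3 n d k α) ![d, n + d, k]) :
    Nonempty (@Homeomorph (GMod α n d k)
      (qs (Gc (cl3 n d k)) (Ge sr3 tg3 (wt3 n d k α) (cl3 n d k))) (modTop α n d k) _) := by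
  obtain ⟨-, Φ, hΦ⟩ := mainA ℂ n d k hn hk α h0
  let A := {u : {S : CohSys ℂ n d k // Stable α S} × Rep ℂ n d k // Presents u.1.1 u.2}
  let tA : TopologicalSpace A :=
    TopologicalSpace.induced (fun u => (u.1.2.x, u.1.2.y, u.1.2.z)) inferInstance
  let tM := modTop α n d k
  have hst : ∀ u : A, QStable α u.1.2 := fun u => by
    obtain ⟨φ, hφ⟩ := (presents_iff _ _).1 u.2
    exact (hφ.stable_iff h0 hn hk).1 u.1.1.2
  have hΦ' : ∀ u : A, Φ (Quot.mk _ u.1.1) = Quot.mk _ ⟨u.1.2, hst u⟩ :=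
    fun u => (hΦ u.1.1 ⟨u.1.2, hst u⟩).2 u.2
  let T := qs (Gc (cl3 n d k)) (Bet.Ge sr3 tg3 (wt3 n d k α) (cl3 n d k))
  let f : A → (qm (Gc (cl3 n d k)) ⁻¹' T : Set (Cj (Fin 3) (I3 n d k))) := fun u =>
    ⟨toCj u.1.2, _, (Bet.qstable_iff hg).1 (hst u), rfl⟩
  have f1 : IsInducing f := by
    rw [← IsInducing.subtypeVal.of_comp_iff]
    refine ⟨?_⟩
    have e : (Subtype.val ∘ f) = toCj ∘ fun u : A => u.1.2 := rfl
    rw [e, ← induced_compose, induced_toCj, induced_compose]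
    rfl
  have f2 : Function.Surjective f := by
    rintro ⟨φ, hφ⟩
    have h1 := (mem_qs ivt_Ge).1 hφ
    have h2 : φ ∈ range (toCj : Rep ℂ n d k → Cj (Fin 3) (I3 n d k)) := by
      rw [range_toCj]; exact h1.1
    obtain ⟨ρ, rfl⟩ := h2
    obtain ⟨⟨S⟩, hS⟩ := Φ.surjective (Quot.mk _ ⟨ρ, (Bet.qstable_iff hg).2 h1⟩)
    exact ⟨⟨(S, ρ), (hΦ S _).1 hS⟩, rfl⟩
  have g1 : IsOpenQuotientMap (T.restrictPreimage (qm (Gc (cl3 n d k)))) :=
    isOpenQuotientMap_qm.restrictPreimage T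
  have hπ : IsQuotientMap (Y := GMod α n d k) fun u : A => Quot.mk _ u.1.1 := by
    refine ⟨⟨rfl⟩, ?_⟩
    rintro ⟨S⟩
    obtain ⟨ρ, hρ⟩ := Quot.exists_rep (Φ (Quot.mk _ S))
    exact ⟨⟨(S, ρ.1), (hΦ S ρ).1 hρ.symm⟩, rfl⟩
  have hE : Equivalence (fun ρ ρ' : {ρ : Rep ℂ n d k // QStable α ρ} => QIso ρ.1 ρ'.1) :=
    ⟨fun ρ => qiso_refl ρ.1, QIso.symm, QIso.trans⟩
  refine homeo_BF6 hπ (g1.isQuotientMap.comp (f1.isQuotientMap_of_surjective f2)) fun a b => ?_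
  have e1 : (Quot.mk _ a.1.1 : GMod α n d k) = Quot.mk _ b.1.1 ↔ QIso b.1.2 a.1.2 := by
    refine Φ.injective.eq_iff.symm.trans ?_
    rw [hΦ', hΦ', eq_comm, Quot.eq, hE.eqvGen_iff]
  exact e1.trans (Bet.qiso_iff.trans (qm_eq.symm.trans
    ⟨fun h => Subtype.ext h, fun h => congrArg Subtype.val h⟩))

end Pool.Agent.Bet
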