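import Pool.Agent.P.MP_d34769_ag.BT1

/-! TASK BH5: comparison with the singular homology of Mathlib. -/

open Set CategoryTheory Simplicial

namespace Pool.Agent.Bet

open G (Dl face Ch)

theorem aux1_BH5 {C : Type} [AddCommGroup C] [Module ℚ C] (S : ShortComplex (ModuleCat.{0} ℚ))
    (φ : S.X₂ →ₗ[ℚ] C) (Z B : Submodule ℚ C) (h1 : ∀ x, S.g.hom x = 0 → φ x ∈ Z)
    (h2 : ∀ z ∈ Z, ∃ x, S.g.hom x = 0 ∧ φ x = z)
    (h3 : ∀ x, φ x ∈ B ↔ ∃ y, S.f.hom y = x) :
    Module.rank ℚ S.homology = Module.rank ℚ (Z.map B.mkQ) := by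
  let α : LinearMap.ker S.g.hom →ₗ[ℚ] C ⧸ B := B.mkQ ∘ₗ φ ∘ₗ (LinearMap.ker S.g.hom).subtype
  have e1 : LinearMap.range S.moduleCatToCycles = LinearMap.ker α := by
    ext x
    have : x ∈ LinearMap.ker α ↔ φ x.1 ∈ B := Submodule.Quotient.mk_eq_zero B
    rw [this, h3]
    exact exists_congr fun y => Subtype.ext_iff
  have e2 : LinearMap.range α = Z.map B.mkQ := by
    ext q
    constructor
    · rintro ⟨x, rfl⟩
      exact ⟨φ x.1, h1 x.1 x.2, rfl⟩
    · rintro ⟨z, hz, rfl⟩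
      obtain ⟨x, hx, rfl⟩ := h2 z hz
      exact ⟨⟨x, hx⟩, rfl⟩
  rw [S.moduleCatHomologyIso.toLinearEquiv.rank_eq, ← e2, ← α.quotKerEquivRange.rank_eq]
  exact (Submodule.quotEquivOfEq _ _ e1).rank_eq

theorem aux2_BH5 {X : Type} [TopologicalSpace X] (K : ChainComplex (ModuleCat.{0} ℚ) ℕ)
    (φ : ∀ k, K.X k →ₗ[ℚ] Ch X (k + 1)) (hφ : ∀ k, Function.Bijective (φ k))
    (hd : ∀ k y, φ k ((K.d (k + 1) k).hom y) = G.bd (φ (k + 1) y)) (k : ℕ) :
    Module.rank ℚ (K.homology k) = RK (univ : Set X) ∅ k := by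
  have hg : ∀ (x : K.X k) (j : ℕ), j = (ComplexShape.down ℕ).next k →
      ((K.d k j).hom x = 0 ↔ D (inc k (φ k x)) = 0) := by
    intro x j hj
    cases k with
    | zero =>
      rw [K.shape 0 j (by simp)]
      simp
    | succ k =>
      rw [ChainComplex.next_nat_succ] at hj
      subst hj
      rw [D_inc, ← hd]
      constructor
      · intro h
        rw [h, map_zero, map_zero]
      · intro h
        have := congrArg (prj j) h
        rw [prj_inc, map_zero, ← map_zero (φ j)] at this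
        exact (hφ j).1 this
  have hf : ∀ (x : K.X k) (i : ℕ), i = (ComplexShape.down ℕ).prev k →
      (inc k (φ k x) ∈ BB (⊤ : Submodule ℚ (TC X)) ⊥ ↔ ∃ y, (K.d i k).hom y = x) := by
    intro x i hi
    rw [ChainComplex.prev] at hi
    subst hi
    constructor
    · intro h
      obtain ⟨a, -, ha⟩ := mem_BB.1 h
      have h1 := congrArg (prj k) (sub_eq_zero.1 ((Submodule.mem_bot ℚ).1 ha))
      obtain ⟨y, hy⟩ := (hφ (k + 1)).2 (prj (k + 1) a)
      rw [prj_inc, prj_D, ← hy, ← hd] at h1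
      exact ⟨y, ((hφ k).1 h1).symm⟩
    · rintro ⟨y, rfl⟩
      rw [hd, ← D_inc]
      exact D_mem_BB trivial
  rw [RK, cn_univ, cn_empty, rk]
  refine aux1_BH5 (K.sc k) (inc k ∘ₗ φ k) _ _ (fun x hx => ?_) (fun z hz => ?_)
    fun x => hf x _ rfl
  · exact ⟨mem_ZZ.2 ⟨trivial, (hg x _ rfl).1 hx⟩, mem_range_pr.2 (by
      show pr k (inc k (φ k x)) = inc k (φ k x)
      rw [pr_eq, prj_inc])⟩
  · obtain ⟨x, hx⟩ := (hφ k).2 (prj k z)
    have h1 : inc k (φ k x) = z := by rw [hx]; exact mem_range_pr.1 hz.2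
    exact ⟨x, (hg x _ rfl).2 (by rw [h1]; exact (mem_ZZ.1 hz.1).2), h1⟩

theorem aux3_BH5 (Y : SSet.{0}) (k : ℕ) {M : Type} [AddCommGroup M] [Module ℚ M]
    (v : Y _⦋k⦌ → M) : ∃ φ : (Y.chainComplex (ModuleCat.of ℚ ℚ)).X k →ₗ[ℚ] M,
      ∀ x, φ ((Y.ιChainComplex (R := ModuleCat.of ℚ ℚ) x).hom 1) = v x := by
  have hφ := Limits.Cofan.IsColimit.fac
    (Y.isColimitChainComplexXCofan (ModuleCat.of ℚ ℚ) k) (A := ModuleCat.of ℚ M)
    fun x => ModuleCat.ofHom (LinearMap.toSpanSingleton ℚ M (v x))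
  refine ⟨ModuleCat.Hom.hom (Limits.Cofan.IsColimit.desc
    (Y.isColimitChainComplexXCofan (ModuleCat.of ℚ ℚ) k) (A := ModuleCat.of ℚ M)
    fun x => ModuleCat.ofHom (LinearMap.toSpanSingleton ℚ M (v x))), fun x => ?_⟩
  have := congrArg (fun f => ModuleCat.Hom.hom f (1 : ℚ)) (hφ x)
  exact this.trans (by simp)

theorem aux4_BH5 (Y : SSet.{0}) (k : ℕ) {M : Type} [AddCommGroup M] [Module ℚ M]
    {f g : (Y.chainComplex (ModuleCat.of ℚ ℚ)).X k →ₗ[ℚ] M}
    (h : ∀ x, f ((Y.ιChainComplex (R := ModuleCat.of ℚ ℚ) x).hom 1) =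
      g ((Y.ιChainComplex (R := ModuleCat.of ℚ ℚ) x).hom 1)) : f = g := by
  have : ModuleCat.ofHom f = ModuleCat.ofHom g := by
    refine SSet.chainComplex_hom_ext fun x => ModuleCat.hom_ext ?_
    exact LinearMap.ext_ring (h x)
  exact congrArg ModuleCat.Hom.hom this

theorem rank_singular (X : Type) [TopologicalSpace X] (k : ℕ) :
    Module.rank ℚ (((AlgebraicTopology.singularHomologyFunctor (ModuleCat.{0} ℚ) k).obj
      (ModuleCat.of ℚ ℚ)).obj (TopCat.of X)) = RK (univ : Set X) ∅ k := by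
  let Y : SSet.{0} := TopCat.toSSet.obj (TopCat.of X)
  let e : ∀ k : ℕ, Y _⦋k⦌ ≃ C(Dl (k + 1), X) := fun k => (TopCat.of X).toSSetObjEquiv _
  have he : ∀ (k : ℕ) (i : Fin (k + 2)) (x : Y _⦋k + 1⦌),
      e k (Y.δ i x) = (e (k + 1) x).comp (face i) := fun k i x =>
    ContinuousMap.ext fun z => TopCat.toSSetObjEquiv_δ_apply x i z
  choose φ hφ using fun k => aux3_BH5 Y k (M := Ch X (k + 1)) fun x => Finsupp.single (e k x) 1
  refine aux2_BH5 (Y.chainComplex (ModuleCat.of ℚ ℚ)) φ (fun k => ?_) (fun k => ?_) k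
  · let ψ : Ch X (k + 1) →ₗ[ℚ] (Y.chainComplex (ModuleCat.of ℚ ℚ)).X k :=
      Finsupp.linearCombination ℚ fun σ =>
        (Y.ιChainComplex (R := ModuleCat.of ℚ ℚ) ((e k).symm σ)).hom 1
    have h1 : ψ ∘ₗ φ k = LinearMap.id := aux4_BH5 Y k fun x => by
      simp only [LinearMap.comp_apply, hφ, ψ, Finsupp.linearCombination_single, one_smul,
        Equiv.symm_apply_apply, LinearMap.id_apply]
    have h2 : φ k ∘ₗ ψ = LinearMap.id := Finsupp.lhom_ext fun σ m => by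
      simp only [LinearMap.comp_apply, hφ, ψ, Finsupp.linearCombination_single, map_smul,
        Equiv.apply_symm_apply, LinearMap.id_apply, Finsupp.smul_single, smul_eq_mul, mul_one]
    exact ⟨Function.LeftInverse.injective (g := ψ) (LinearMap.congr_fun h1),
      Function.RightInverse.surjective (g := ψ) (LinearMap.congr_fun h2)⟩
  · refine LinearMap.congr_fun (aux4_BH5 Y (k + 1)
      (f := φ k ∘ₗ ((Y.chainComplex (ModuleCat.of ℚ ℚ)).d (k + 1) k).hom)
      (g := G.bd ∘ₗ φ (k + 1)) fun x => ?_)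
    have h1 := congrArg (fun f => ModuleCat.Hom.hom f (1 : ℚ))
      (Y.ιChainComplex_d (ModuleCat.of ℚ ℚ) x)
    simp only [ModuleCat.hom_comp, LinearMap.comp_apply, ModuleCat.hom_sum, LinearMap.sum_apply,
      ModuleCat.hom_zsmul, LinearMap.smul_apply] at h1
    simp only [LinearMap.comp_apply, h1, map_sum, map_zsmul, hφ, G.bd_single, he]
    refine Finset.sum_congr rfl fun i _ => ?_
    rw [← Int.cast_smul_eq_zsmul ℚ]
    simp

end Pool.Agent.Bet
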