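import Pool.Agent.P.MP_d34769_ag.BH3

/-! TASK BH4: calculus of Poincare series. -/

open Set PowerSeries

namespace Pool.Agent.Bet

variable {Y Z : Type} [TopologicalSpace Y] [TopologicalSpace Z]
  {S T : Set Y} {S' T' : Set Z} {p q r : PowerSeries ℚ} {m : ℕ}

theorem aug_D_BH4 (c : TC Y) : aug (D c) = 0 := by
  refine LinearMap.congr_fun (TC.ext (f := aug ∘ₗ D) (g := 0) fun k σ => ?_) c
  simp only [LinearMap.comp_apply, LinearMap.zero_apply]
  rcases k with _ | _ | k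
  · simp
  · simp [D_sx_succ, Fin.sum_univ_two]
  · simp [D_sx_succ]

/-- The simplex of a point. -/
noncomputable def ptS_BH4 (k : ℕ) : TC Unit := sx k (ContinuousMap.const _ ())

theorem sx_pt_BH4 (k : ℕ) (σ : C(G.Dl (k + 1), Unit)) : sx k σ = ptS_BH4 k := by
  have : σ = ContinuousMap.const _ () := ContinuousMap.ext fun _ => rfl
  rw [this, ptS_BH4]

theorem pr_pt_BH4 (k : ℕ) (z : TC Unit) : ∃ a : ℚ, pr k z = a • ptS_BH4 k := by
  refine TC.ind (P := fun z => ∃ a : ℚ, pr k z = a • ptS_BH4 k) z ⟨0, by simp⟩ ?_ ?_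
  · rintro a b ⟨x, hx⟩ ⟨y, hy⟩
    exact ⟨x + y, by rw [map_add, hx, hy, add_smul]⟩
  · intro a l σ
    rw [map_smul, pr_sx]
    split_ifs with h
    · subst h; exact ⟨a, by rw [sx_pt_BH4]⟩
    · exact ⟨0, by simp⟩

theorem D_pt_BH4 (k : ℕ) : D (ptS_BH4 (k + 1)) = (if Even k then (0 : ℚ) else 1) • ptS_BH4 k := by
  rw [ptS_BH4, D_sx_succ]
  simp only [sx_pt_BH4]
  rw [← Finset.sum_smul, Fin.sum_univ_eq_sum_range (fun i => (-1 : ℚ) ^ i) (k + 2),
    neg_one_geom_sum]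
  simp only [Nat.even_add, even_two, iff_true]

theorem pt_ne_BH4 (k : ℕ) : ptS_BH4 k ≠ 0 := by
  simp [ptS_BH4, sx]

theorem dim_pt : Dim (univ : Set Unit) ∅ 1 := by
  intro k
  rw [RK, cn_univ, cn_empty]
  cases k with
  | zero =>
    refine ⟨1, ?_, by simp⟩
    have hne : (BB (⊤ : Submodule ℚ (TC Unit)) ⊥).mkQ (ptS_BH4 0) ≠ 0 := by
      intro h
      rw [Submodule.mkQ_apply, Submodule.Quotient.mk_eq_zero] at h
      obtain ⟨a, -, ha⟩ := mem_BB.1 h
      rw [Submodule.mem_bot, sub_eq_zero] at ha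
      have h2 := congrArg aug ha
      rw [aug_D_BH4, ptS_BH4, aug_sx] at h2
      simp at h2
    have e : (ZZ (⊤ : Submodule ℚ (TC Unit)) ⊥ ⊓
        LinearMap.range (pr 0 : TC Unit →ₗ[ℚ] TC Unit)).map (BB ⊤ ⊥).mkQ =
        Submodule.span ℚ {(BB (⊤ : Submodule ℚ (TC Unit)) ⊥).mkQ (ptS_BH4 0)} := by
      apply le_antisymm
      · rintro _ ⟨z, ⟨-, y, rfl⟩, rfl⟩
        obtain ⟨a, ha⟩ := pr_pt_BH4 0 y
        rw [ha, map_smul]
        exact Submodule.smul_mem _ _ (Submodule.mem_span_singleton_self _)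
      · rw [Submodule.span_singleton_le_iff_mem]
        refine ⟨ptS_BH4 0, ⟨mem_ZZ.2 ⟨trivial, ?_⟩, mem_range_pr.2 ?_⟩, rfl⟩
        · rw [ptS_BH4, D_sx_zero]; exact Submodule.zero_mem _
        · rw [ptS_BH4, pr_sx, if_pos rfl]
    rw [rk, e, ← (LinearEquiv.toSpanNonzeroSingleton ℚ _ _ hne).rank_eq, Module.rank_self]
    simp
  | succ k =>
    refine ⟨0, ?_, by simp [coeff_one]⟩
    rw [Nat.cast_zero, rk_eq_zero]
    intro z hz hp
    obtain ⟨a, ha⟩ := pr_pt_BH4 (k + 1) z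
    rw [hp] at ha
    by_cases hk : Even k
    · refine mem_BB.2 ⟨a • ptS_BH4 (k + 2), trivial, ?_⟩
      rw [map_smul, D_pt_BH4, if_neg (by simpa [Nat.even_add_one] using hk), one_smul, ha, sub_self]
      exact Submodule.zero_mem _
    · have h2 : D z = 0 := hz.2
      rw [ha, map_smul, D_pt_BH4, if_neg hk, one_smul, smul_eq_zero] at h2
      rw [ha, h2.resolve_right (pt_ne_BH4 k), zero_smul]
      exact Submodule.zero_mem _

theorem Dim.unique (h : Dim S T p) (h' : Dim S T q) : p = q := by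
  ext k
  obtain ⟨a, h1, h2⟩ := h k
  obtain ⟨b, h3, h4⟩ := h' k
  have : a = b := by exact_mod_cast h1.symm.trans h3
  rw [h2, h4, this]

theorem congr_BH4 (e : ∀ k, RK S T k = RK S' T' k) (h : Dim S T p) : Dim S' T' p :=
  fun k => by rw [← e k]; exact h k

theorem homeo_BH4 (h : S ≃ₜ S') (k : ℕ) : RK S ∅ k = RK S' ∅ k :=
  ((SIso.val S).rk k).symm.trans ((SIso.of_homeo h).rk k)

theorem shift_BH4 (hi : ∀ k, RK S' T' (k + m) = RK S T k) (lo : ∀ k < m, RK S' T' k = 0)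
    (h : Dim S T p) : Dim S' T' (X ^ m * p) := by
  intro k
  by_cases hk : m ≤ k
  · obtain ⟨j, rfl⟩ := Nat.exists_eq_add_of_le' hk
    rw [hi, coeff_X_pow_mul]
    exact h j
  · exact ⟨0, by rw [lo k (not_le.1 hk), Nat.cast_zero], by
      rw [coeff_X_pow_mul', if_neg hk, Nat.cast_zero]⟩

theorem SD.dim (hT : T ⊆ S) (h : SD S T p) : Dim S T p := by
  have h1 := h Unit 1 dim_pt
  rw [mul_one] at h1
  have h2 : SIso (Prod.snd : Unit × Y → Y) (up Unit S) (up Unit T) S T :=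
    SIso.of_inv (k := fun y => ((), y)) (up_mono hT) hT continuous_snd.continuousOn
      (by fun_prop) (fun _ hx => hx) (fun _ hx => hx) (fun _ hx => hx) (fun _ hx => hx)
      (fun _ _ => rfl) (fun _ _ => rfl)
  exact congr_BH4 h2.rk h1

theorem SD.of_sh (h : Sh m S T S' T') (hp : SD S T p) : SD S' T' (X ^ m * p) := by
  intro B _ u hu
  rw [mul_assoc]
  exact shift_BH4 (h.hi B) (h.lo B) (hp B u hu)

theorem SD.of_eqv (h : Eqv S T S' T') (hp : SD S T p) : SD S' T' p := by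
  simpa using SD.of_sh h.1 hp

theorem SD.of_sh' (h : Sh m S T S' T') (hr : SD S' T' r) : ∃ p, r = X ^ m * p ∧ SD S T p := by
  have h1 := hr Unit 1 dim_pt
  rw [mul_one] at h1
  obtain ⟨p, hp⟩ : X ^ m ∣ r := by
    rw [X_pow_dvd_iff]
    intro k hk
    obtain ⟨a, h2, h3⟩ := h1 k
    rw [h.lo Unit k hk] at h2
    have : a = 0 := by exact_mod_cast h2.symm
    rw [h3, this, Nat.cast_zero]
  refine ⟨p, hp, fun B _ u hu k => ?_⟩
  have h2 := hr B u hu (k + m)
  rwa [hp, mul_assoc, h.hi, coeff_X_pow_mul] at h2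

theorem triple_BH4 (hT : T ⊆ S) (ho : Ont S S T) (k : ℕ) : RK S ∅ k = RK T ∅ k + RK S T k := by
  simp only [RK, cn_empty]
  exact rk_triple (gpr_cn hT) ho k

theorem SD.triple (hT : T ⊆ S) (ho : SO S S T) (hp : SD S ∅ p) (hr : SD S T r) :
    SD T ∅ (p - r) := by
  intro B _ u hu k
  obtain ⟨a, h1, h2⟩ := hp B u hu k
  obtain ⟨b, h3, h4⟩ := hr B u hu k
  have h5 := triple_BH4 (up_mono hT) (ho B) k
  rw [up_empty] at h1 ⊢
  rw [h1, h3] at h5
  obtain ⟨n, hn⟩ := Cardinal.lt_aleph0.1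
    ((self_le_add_right _ _).trans_lt (h5 ▸ Cardinal.natCast_lt_aleph0 (n := a)))
  refine ⟨n, hn, ?_⟩
  rw [hn] at h5
  have h6 : a = n + b := by exact_mod_cast h5
  rw [sub_mul, map_sub, h2, h4, h6]
  push_cast
  ring

theorem SD.recur (hm : 0 < m) (hT : T' ⊆ S') (ho : SO S' S' T') (h : Sh m S ∅ S' T')
    (h0 : Eqv S ∅ S' ∅) (hp : SD T' ∅ p) : SD S ∅ (p * (1 - X ^ m)⁻¹) := by
  intro B _ u hu k
  have hinv : (1 - X ^ m : PowerSeries ℚ) * (1 - X ^ m)⁻¹ = 1 :=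
    PowerSeries.mul_inv_cancel _ (by simp [hm.ne'])
  generalize (1 - X ^ m : PowerSeries ℚ)⁻¹ = v at hinv ⊢
  have hs : p * v * u = p * u + X ^ m * (p * v * u) := by
    linear_combination (p * u) * hinv
  induction k using Nat.strong_induction_on with
  | _ k ih =>
    obtain ⟨a, h1, h2⟩ := hp B u hu k
    have h5 := triple_BH4 (up_mono hT) (ho B) k
    have h6 := h0.1.hi B k
    rw [add_zero] at h6
    rw [up_empty] at h1
    rw [← h6, up_empty, h5, h1, hs, map_add, h2, coeff_X_pow_mul']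
    by_cases hk : m ≤ k
    · obtain ⟨j, rfl⟩ := Nat.exists_eq_add_of_le' hk
      obtain ⟨b, h3, h4⟩ := ih j (by omega)
      refine ⟨a + b, ?_, ?_⟩
      · rw [h.hi, h3, Nat.cast_add]
      · rw [if_pos hk, Nat.add_sub_cancel, h4, Nat.cast_add]
    · exact ⟨a, by rw [h.lo B k (not_le.1 hk), add_zero], by rw [if_neg hk, add_zero]⟩

theorem SD.prod (hp : SD S ∅ p) (hq : SD S' ∅ q) : SD (S ×ˢ S') ∅ (p * q) := by
  intro B _ u hu
  have h1 : Dim (univ : Set (up B S')) ∅ (q * u) :=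
    congr_BH4 (fun k => ((SIso.val (up B S')).rk k).symm) (hq B u hu)
  have h2 := hp (up B S') (q * u) h1
  let e : up (up B S') S ≃ₜ up B (S ×ˢ S') :=
    { toFun := fun x => ⟨(x.1.1.1.1, (x.1.2, x.1.1.1.2)), x.2, x.1.1.2⟩
      invFun := fun x => ⟨(⟨(x.1.1, x.1.2.2), x.2.2⟩, x.1.2.1), x.2.1⟩
      left_inv := fun _ => rfl
      right_inv := fun _ => rfl
      continuous_toFun := by fun_prop
      continuous_invFun := by fun_prop }
  rw [mul_assoc]
  exact congr_BH4 (homeo_BH4 e) h2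

theorem SD.ctr (S : Set Y) [ContractibleSpace S] : SD S ∅ 1 := by
  intro B _ u hu
  let e : (S ×ˢ (univ : Set B) : Set (Y × B)) ≃ₜ up B S :=
    { toFun := fun x => ⟨(x.1.2, x.1.1), x.2.1⟩
      invFun := fun x => ⟨(x.1.2, x.1.1), x.2, trivial⟩
      left_inv := fun _ => rfl
      right_inv := fun _ => rfl
      continuous_toFun := by fun_prop
      continuous_invFun := by fun_prop }
  rw [one_mul]
  exact congr_BH4 (fun k => ((SIso.snd_ctr S (univ : Set B)).rk k).symm.trans (homeo_BH4 e k)) hu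

theorem SD.empty : SD (∅ : Set Y) ∅ 0 := by
  intro B _ u _ k
  refine ⟨0, ?_, by simp⟩
  rw [RK, Nat.cast_zero, rk_eq_zero]
  exact fun z hz _ => mem_BB_of_mem hz.1

theorem Dim.of_prod (hne : S'.Nonempty) (h : Dim (S ×ˢ S') ∅ r) (hq : SD S' ∅ q) :
    ∃ p, Dim S ∅ p ∧ r = q * p := by
  obtain ⟨z, hz⟩ := hne
  have cf : ContinuousOn (fun y : Y => (y, z)) S := by fun_prop
  have hle : ∀ k, RK S ∅ k ≤ RK (S ×ˢ S') ∅ k := by
    intro k
    refine rk_le (deg_pu fun y : Y => (y, z))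
      (hmap_pu cf (fun _ hy => mk_mem_prod hy hz) (mapsTo_empty _ _)) ?_ k
    refine Inj.of_comp (g := pu Prod.fst) (A'' := cn S) (B'' := cn ∅)
      (hmap_pu continuous_fst.continuousOn (fun _ hx => hx.1) (mapsTo_empty _ _)) ?_
    intro c hc hb
    rwa [LinearMap.comp_apply, pu_pu cf hc.1,
      pu_of_eqOn (f := Prod.fst ∘ fun y : Y => (y, z)) (fun _ _ => rfl) hc.1] at hb
  have hfin : ∀ k, ∃ n : ℕ, RK S ∅ k = n := by
    intro k
    obtain ⟨a, h1, -⟩ := h k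
    exact Cardinal.lt_aleph0.1 ((hle k).trans_lt (h1 ▸ Cardinal.natCast_lt_aleph0 (n := a)))
  choose n hn using hfin
  have hd : Dim S ∅ (PowerSeries.mk fun k => (n k : ℚ)) := fun k => ⟨n k, hn k, by simp⟩
  refine ⟨_, hd, h.unique ?_⟩
  have h2 := hq S _ (congr_BH4 (fun k => ((SIso.val S).rk k).symm) hd)
  let e : up S S' ≃ₜ (S ×ˢ S' : Set (Y × Z)) :=
    { toFun := fun x => ⟨(x.1.1.1, x.1.2), x.1.1.2, x.2⟩
      invFun := fun x => ⟨(⟨x.1.1, x.2.1⟩, x.1.2), x.2.2⟩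
      left_inv := fun _ => rfl
      right_inv := fun _ => rfl
      continuous_toFun := by fun_prop
      continuous_invFun := by fun_prop }
  exact congr_BH4 (homeo_BH4 e) h2

end Pool.Agent.Bet
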