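import Pool.Agent.P.MP_d34769_ag.BB1

/-! TASK BL5: geometry of the infinite projective space. -/

open Set

namespace Pool.Agent.Bet

theorem pm_eq {v v' : ℕ → ℂ} : pm v = pm v' ↔ ∃ a : ℂ, a ≠ 0 ∧ a • v' = v := by
  refine qm_eq.trans ⟨fun ⟨γ, h⟩ => ⟨γ, γ.ne_zero, h⟩, fun ⟨a, ha, h⟩ => ⟨Units.mk0 a ha, h⟩⟩

theorem pm_smul {a : ℂ} (ha : a ≠ 0) (v : ℕ → ℂ) : pm (a • v) = pm v := by
  exact pm_eq.2 ⟨a, ha, rfl⟩

theorem isOpenQuotientMap_pm : IsOpenQuotientMap pm := by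
  exact isOpenQuotientMap_qm

theorem open1_BL5 (i : ℕ) : IsOpen {v : ℕ → ℂ | v i ≠ 0} :=
  isOpen_ne_fun (continuous_apply i) continuous_const

theorem open_BL5 (r : ℕ) : IsOpen {v : ℕ → ℂ | ∃ i < r, v i ≠ 0} := by
  have e : {v : ℕ → ℂ | ∃ i < r, v i ≠ 0} = ⋃ i ∈ Iio r, {v : ℕ → ℂ | v i ≠ 0} := by
    ext v; simp
  rw [e]
  exact isOpen_biUnion fun i _ => open1_BL5 i

theorem isOpen_Uo (r : ℕ) : IsOpen (Uo r) := by
  exact isOpenQuotientMap_pm.isOpenMap _ (open_BL5 r)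

theorem Uo_zero : Uo 0 = ∅ := by
  simp [Uo]

theorem Uo_mono {r r' : ℕ} (h : r ≤ r') : Uo r ⊆ Uo r' := by
  exact image_mono fun v ⟨i, hi, hv⟩ => ⟨i, hi.trans_le h, hv⟩

theorem Uo_subset (r : ℕ) : Uo r ⊆ Pz := by
  exact image_mono fun v ⟨i, _, hv⟩ h => hv (congrFun h i)

theorem exists_Uo {K : Set PA} (hK : IsCompact K) (h : K ⊆ Pz) : ∃ r, K ⊆ Uo r := by
  refine hK.elim_directed_cover Uo isOpen_Uo (fun w hw => ?_)
    (Monotone.directed_le fun _ _ => Uo_mono)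
  obtain ⟨v, hv, rfl⟩ := h hw
  obtain ⟨i, hi⟩ := Function.ne_iff.1 hv
  exact mem_iUnion.2 ⟨i + 1, v, ⟨i, i.lt_succ_self, hi⟩, rfl⟩

/-- scale the coordinates from `m` on -/
noncomputable def sc_BL5 (m : ℕ) (t : ℝ) (v : ℕ → ℂ) (j : ℕ) : ℂ :=
  if j < m then v j else (1 - t) * v j

theorem lt_BL5 {m j : ℕ} (t : ℝ) (v : ℕ → ℂ) (h : j < m) : sc_BL5 m t v j = v j := if_pos h

theorem cont_BL5 (m : ℕ) : Continuous fun p : ℝ × (ℕ → ℂ) => sc_BL5 m p.1 p.2 := by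
  refine continuous_pi fun j => ?_
  unfold sc_BL5
  split_ifs <;> fun_prop

theorem smul_BL5 (m : ℕ) (t : ℝ) (γ : ℂˣ) (v : ℕ → ℂ) :
    sc_BL5 m t (γ • v) = γ • sc_BL5 m t v := by
  funext j
  simp only [sc_BL5, Pi.smul_apply, Units.smul_def, smul_eq_mul]
  split_ifs
  · rfl
  · ring

theorem zero_BL5 (m : ℕ) (v : ℕ → ℂ) : sc_BL5 m 0 v = v := by
  funext j
  simp [sc_BL5]

theorem ne_BL5 (γ : ℂˣ) {v : ℕ → ℂ} {i : ℕ} (h : v i ≠ 0) : (γ • v) i ≠ 0 :=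
  mul_ne_zero γ.ne_zero h

theorem ivt_BL5 (r : ℕ) : Ivt ℂˣ {v : ℕ → ℂ | ∃ i < r, v i ≠ 0} :=
  fun γ _ ⟨i, hi, hv⟩ => ⟨i, hi, ne_BL5 γ hv⟩

theorem sub_BL5 (r : ℕ) :
    {v : ℕ → ℂ | v ≠ 0 ∧ ∀ j, r ≤ j → v j = 0} ⊆ {v : ℕ → ℂ | ∃ i < r, v i ≠ 0} := fun v hv => by
  obtain ⟨i, hi⟩ := Function.ne_iff.1 hv.1
  exact ⟨i, not_le.1 fun h => hi (hv.2 i h), hi⟩

theorem siso_CP (r : ℕ) : SIso id (CP r) ∅ (Uo r) ∅ := by
  have h := q_def (Γ := ℂˣ) (S := {v : ℕ → ℂ | ∃ i < r, v i ≠ 0}) (T := ∅)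
    (S₀ := {v | v ≠ 0 ∧ ∀ j, r ≤ j → v j = 0}) (T₀ := ∅) (ivt_BL5 r) (sub_BL5 r) Subset.rfl
    (empty_subset _) (empty_subset _) (H := sc_BL5 r)
    ⟨(cont_BL5 r).continuousOn, fun t _ v ⟨i, hi, hv⟩ => ⟨i, hi, by rwa [lt_BL5 t v hi]⟩⟩
    (fun t _ γ v _ => smul_BL5 r t γ v) (fun _ _ => mapsTo_empty _ _)
    (fun t _ v hv => ⟨fun h => ?_, fun j hj => ?_⟩) (fun _ _ => mapsTo_empty _ _)
    (fun v _ => zero_BL5 r v) (fun v ⟨i, hi, hv⟩ => ⟨fun h => ?_, fun j hj => ?_⟩)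
    (mapsTo_empty _ _)
  · rw [qs_empty] at h
    exact h
  · obtain ⟨i, hi, h'⟩ := sub_BL5 r hv
    exact h' ((lt_BL5 t v hi).symm.trans (congrFun h i))
  · rw [sc_BL5, if_neg hj.not_gt, hv.2 j hj, mul_zero]
  · exact hv ((lt_BL5 1 v hi).symm.trans (congrFun h i))
  · simp [sc_BL5, hj.not_gt]

/-- the point with coordinates `x, 1, 0, 0, ...` -/
noncomputable def ex_BL5 (r : ℕ) (x : Fin r → ℂ) (j : ℕ) : ℂ :=
  if h : j < r then x ⟨j, h⟩ else if j = r then 1 else 0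

theorem excont_BL5 (r : ℕ) : Continuous (ex_BL5 r) := by
  refine continuous_pi fun j => ?_
  unfold ex_BL5
  split_ifs <;> fun_prop

theorem div_BL5 (r : ℕ) (γ : ℂˣ) (v : ℕ → ℂ) :
    (fun i : Fin r => (γ • v) i / (γ • v) r) = fun i : Fin r => v i / v r :=
  funext fun _ => mul_div_mul_left _ _ γ.ne_zero

theorem exists_cell (r : ℕ) :
    ∃ e : (Fin r → ℂ) → PA, SIso e univ {0}ᶜ (Uo (r + 1)) (Uo r) := by
  have iO : Ivt ℂˣ {v : ℕ → ℂ | v r ≠ 0} := fun γ _ h => ne_BL5 γ h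
  have iA : Ivt ℂˣ {v : ℕ → ℂ | ∃ i < r, v i ≠ 0}ᶜ := by
    rintro γ v hv ⟨i, hi, h⟩
    exact hv ⟨i, hi, fun h' => h (by simp [h'])⟩
  have e1 : {v : ℕ → ℂ | ∃ i < r + 1, v i ≠ 0} \ {v : ℕ → ℂ | ∃ i < r, v i ≠ 0}ᶜ =
      {v : ℕ → ℂ | ∃ i < r, v i ≠ 0} := by
    rw [Set.sdiff_compl]
    exact inter_eq_right.2 fun v ⟨i, hi, hv⟩ => ⟨i, hi.trans r.lt_succ_self, hv⟩
  have h1 := q_exc (Γ := ℂˣ) (ivt_BL5 (r + 1)) iO iA
    ⟨_, open1_BL5 r, (inter_eq_right.2 fun v hv => by exact ⟨r, r.lt_succ_self, hv⟩).symm⟩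
    ⟨_, open_BL5 r, Set.sdiff_compl⟩ (by
      rintro v ⟨⟨i, hi, hv⟩, h⟩
      rcases Nat.lt_succ_iff_lt_or_eq.1 hi with h' | rfl
      · exact absurd ⟨i, h', hv⟩ h
      · exact hv)
  rw [e1, Set.sdiff_compl] at h1
  have hk : ∀ v : ℕ → ℂ, dsc ℂˣ (fun (v : ℕ → ℂ) (i : Fin r) => v i / v r) (qm ℂˣ v) =
      fun i : Fin r => v i / v r := fun v => dsc_qm fun γ => div_BL5 r γ v
  have hs : ∀ t (v : ℕ → ℂ), dsc ℂˣ (fun x => qm ℂˣ (sc_BL5 (r + 1) t x)) (qm ℂˣ v) =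
      qm ℂˣ (sc_BL5 (r + 1) t v) := fun t v => dsc_qm fun γ => by rw [smul_BL5, qm_smul]
  have hr : ∀ x : Fin r → ℂ, ex_BL5 r x r = 1 := fun x => by simp [ex_BL5]
  have hi : ∀ (x : Fin r → ℂ) (i : Fin r), ex_BL5 r x i = x i := fun x i => by simp [ex_BL5]
  refine ⟨_, h1.comp (SIso.of_he (f := fun x => qm ℂˣ (ex_BL5 r x))
    (k := dsc ℂˣ fun (v : ℕ → ℂ) (i : Fin r) => v i / v r) (H := fun _ x => x)
    (H' := fun t => dsc ℂˣ fun x => qm ℂˣ (sc_BL5 (r + 1) t x)) (subset_univ _)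
    (qs_mono inter_subset_left) (continuous_qm.comp (excont_BL5 r)).continuousOn
    (dsc_cont iO (continuousOn_pi.2 fun i => (continuous_apply _).continuousOn.div
      (continuous_apply r).continuousOn fun _ h => h) fun γ v _ => div_BL5 r γ v)
    (fun x _ => ⟨_, by simp [hr], rfl⟩) (fun x hx => ?_) (mapsTo_univ _ _) ?_
    ⟨continuous_snd.continuousOn, fun _ _ => mapsTo_univ _ _⟩
    (q_htp iO ⟨(cont_BL5 _).continuousOn, fun t _ v hv => by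
      rwa [mem_ofPred_eq, lt_BL5 t v r.lt_succ_self]⟩ fun t _ γ v _ => ⟨γ, (smul_BL5 _ t γ v).symm⟩)
    (fun _ _ => mapsTo_id _) (fun t _ => ?_) (fun _ _ => rfl) (fun x _ => ?_) ?_ ?_)⟩
  · obtain ⟨i, h⟩ := Function.ne_iff.1 hx
    exact ⟨_, ⟨by simp [hr], i, i.2, by rwa [hi]⟩, rfl⟩
  · rintro _ ⟨v, ⟨h0, i, h, hv⟩, rfl⟩ h'
    rw [hk] at h'
    exact div_ne_zero hv h0 (congrFun h' ⟨i, h⟩)
  · rintro _ ⟨v, ⟨h0, i, h, hv⟩, rfl⟩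
    refine ⟨_, ⟨?_, i, h, ?_⟩, (hs t v).symm⟩
    · rwa [mem_ofPred_eq, lt_BL5 t v r.lt_succ_self]
    · rwa [lt_BL5 t v (h.trans r.lt_succ_self)]
  · rw [hk]
    funext i
    rw [hi, hr, div_one]
  · rintro _ ⟨v, -, rfl⟩
    rw [hs, zero_BL5]
  · rintro _ ⟨v, hv, rfl⟩
    rw [hs, hk]
    refine pm_eq.2 ⟨v r, hv, funext fun j => ?_⟩
    have hv' : v r ≠ 0 := hv
    rcases lt_trichotomy j r with h | rfl | h
    · rw [lt_BL5 1 v (h.trans r.lt_succ_self), Pi.smul_apply, hi _ ⟨j, h⟩, smul_eq_mul,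
        mul_div_cancel₀ _ hv']
    · rw [lt_BL5 1 v j.lt_succ_self, Pi.smul_apply, hr, smul_eq_mul, mul_one]
    · simp [sc_BL5, ex_BL5, h.not_gt, h.ne', h.not_ge]

/-- the point with coordinates `a, v 0, v 1, ...` -/
def sh_BL5 (a : ℂ) (v : ℕ → ℂ) : ℕ → ℂ := fun j => Nat.casesOn j a v

theorem contractible_ne : ContractibleSpace ({0}ᶜ : Set (ℕ → ℂ)) := by
  have c1 : Continuous fun p : ℂ × (ℕ → ℂ) => sh_BL5 p.1 p.2 := continuous_pi fun j => by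
    cases j
    · exact continuous_fst
    · exact (continuous_apply _).comp continuous_snd
  refine contractible_of_htp (x₀ := sh_BL5 1 0) (fun h => one_ne_zero (congrFun h 0))
    (H := fun t v => (1 - (t : ℂ)) • v + (t : ℂ) • sh_BL5 0 v)
    (H' := fun t v => sh_BL5 t ((1 - (t : ℂ)) • v)) ⟨Continuous.continuousOn ?_, fun t _ v hv h => ?_⟩
    ⟨Continuous.continuousOn ?_, fun t _ v hv h => ?_⟩ (fun v _ => by simp) (fun v _ => by simp)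
    fun v _ => by simp
  · have c2 : Continuous fun p : ℝ × (ℕ → ℂ) => sh_BL5 0 p.2 :=
      c1.comp (continuous_const.prodMk continuous_snd)
    fun_prop
  · have h0 : (1 - (t : ℂ)) * v 0 = 0 := by simpa [sh_BL5] using congrFun h 0
    have h1 : ∀ j, (1 - (t : ℂ)) * v (j + 1) + t * v j = 0 := fun j => congrFun h (j + 1)
    refine hv (funext fun j => ?_)
    by_cases ht : 1 - (t : ℂ) = 0
    · have h2 := h1 j
      rwa [ht, zero_mul, zero_add, ← sub_eq_zero.1 ht, one_mul] at h2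
    · induction j with
      | zero => exact (mul_eq_zero.1 h0).resolve_left ht
      | succ j ih =>
        have h2 := h1 j
        rw [ih, Pi.zero_apply, mul_zero, add_zero] at h2
        exact (mul_eq_zero.1 h2).resolve_left ht
  · have c2 : Continuous fun p : ℝ × (ℕ → ℂ) => (((p.1 : ℂ), (1 - (p.1 : ℂ)) • p.2) : ℂ × (ℕ → ℂ)) := by
      fun_prop
    exact c1.comp c2
  · have h0 : (t : ℂ) = 0 := congrFun h 0
    refine hv (funext fun j => ?_)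
    have h1 : (1 - (t : ℂ)) * v j = 0 := congrFun h (j + 1)
    rwa [h0, sub_zero, one_mul] at h1

end Pool.Agent.Bet
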