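import Pool.Agent.P.MP_d34769_ag.BL4
import Pool.Agent.P.MP_d34769_ag.BL5
import Pool.Agent.P.MP_d34769_ag.BH4

/-! TASK BL6: the universal cocycles and the homology of projective space. -/

open Set PowerSeries

namespace Pool.Agent.Bet

lemma rk_self_BL6 {Y : Type} [TopologicalSpace Y] (S : Set Y) (k : ℕ) : RK S S k = 0 :=
  rk_eq_zero.2 fun _ hz _ => mem_BB_of_mem hz.1

lemma van_fin_BL6 {Y : Type} [TopologicalSpace Y] {U : ℕ → Set Y} (hU : Monotone U) {n k : ℕ}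
    (h : ∀ j, n ≤ j → RK (U (j + 1)) (U j) k = 0) {m : ℕ} (hm : n ≤ m) :
    RK (U m) (U n) k = 0 := by
  induction m, hm using Nat.le_induction with
  | base => exact rk_self_BL6 _ _
  | succ m hm ih => exact rk_van (gpr_cn (hU (Nat.le_succ m))) (gpr_cn (hU hm)) (h m hm) ih

lemma van_lim_BL6 {Y : Type} [TopologicalSpace Y] {U : ℕ → Set Y} (hU : Monotone U) {P : Set Y}
    (hP : ∀ r, U r ⊆ P) (hK : ∀ K, IsCompact K → K ⊆ P → ∃ r, K ⊆ U r) {n k : ℕ}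
    (h : ∀ j, n ≤ j → RK (U (j + 1)) (U j) k = 0) : RK P (U n) k = 0 := by
  refine rk_eq_zero.2 fun z hz hk => ?_
  obtain ⟨K, h1, h2, h3⟩ := exists_compact hz.1
  obtain ⟨r, hr⟩ := hK K h1 h2
  have h4 : z ∈ cn (U (max n r)) := cn_mono (hr.trans (hU (le_max_right n r))) h3
  have h5 := rk_eq_zero.1 (van_fin_BL6 hU h (le_max_left n r)) z (mem_ZZ.2 ⟨h4, hz.2⟩) hk
  exact BB_mono (cn_mono (hP _)) le_rfl h5

lemma cell_BL6 (n : ℕ) (W : Type) [TopologicalSpace W] :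
    (∀ k, RK (up W (Uo (n + 1))) (up W (Uo n)) (k + 2 * n) = RK (univ : Set W) ∅ k) ∧
      ∀ k < 2 * n, RK (up W (Uo (n + 1))) (up W (Uo n)) k = 0 := by
  obtain ⟨ω, h1, h2⟩ := kun_sph n
  obtain ⟨e, he⟩ := exists_cell n
  obtain ⟨ω', h3, h4⟩ := kun_push he subset_rfl (fun _ _ h => h) h1 h2
  exact h4.rk (Uo_mono (Nat.le_succ n)) h3 W

lemma cell_pt_BL6 {n k : ℕ} (hk : k ≠ 2 * n) : RK (Uo (n + 1)) (Uo n) k = 0 := by
  have h : SIso (Prod.snd : Unit × PA → PA) (up Unit (Uo (n + 1))) (up Unit (Uo n))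
      (Uo (n + 1)) (Uo n) :=
    SIso.of_inv (k := fun y => ((), y)) (up_mono (Uo_mono (Nat.le_succ n)))
      (Uo_mono (Nat.le_succ n)) continuous_snd.continuousOn (by fun_prop) (fun _ hx => hx)
      (fun _ hx => hx) (fun _ hx => hx) (fun _ hx => hx) (fun _ _ => rfl) fun _ _ => rfl
  rw [← h.rk]
  rcases lt_or_gt_of_ne hk with hk | hk
  · exact (cell_BL6 n Unit).2 k hk
  · obtain ⟨j, rfl⟩ : ∃ j, k = j + 1 + 2 * n := ⟨k - 2 * n - 1, by omega⟩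
    rw [(cell_BL6 n Unit).1]
    obtain ⟨m, h1, h2⟩ := dim_pt (j + 1)
    rw [coeff_one, if_neg (Nat.succ_ne_zero j)] at h2
    have h3 : m = 0 := by exact_mod_cast h2.symm
    rw [h1, h3, Nat.cast_zero]

theorem exists_U : ∃ u, IsU u := by
  have h : ∀ n, ∃ ω, Coc (2 * n) ω Pz (Uo n) ∧ Kun ω (Uo (n + 1)) (Uo n) := fun n => by
    obtain ⟨ω, h1, h2⟩ := kun_sph n
    obtain ⟨e, he⟩ := exists_cell n
    refine kun_push he (Uo_subset _) (inj_of_van (gpr_cn (Uo_subset _))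
      (gpr_cn (Uo_mono (Nat.le_succ n))) fun k => ?_) h1 h2
    by_cases hk : k = 2 * n
    · exact Or.inr (van_lim_BL6 (fun _ _ h => Uo_mono h) Uo_subset (fun _ => exists_Uo)
        fun j _ => cell_pt_BL6 (by omega))
    · exact Or.inl (cell_pt_BL6 hk)
  choose u hu using h
  exact ⟨u, hu⟩

lemma triv_Uo_BL6 {u : ℕ → TC PA →ₗ[ℚ] ℚ} (hu : IsU u) (r : ℕ) (W : Type) [TopologicalSpace W] :
    MIso (fun i => (sl (u i) : TC (W × PA) →ₗ[ℚ] TC W)) r (cn (up W (Uo r))) ⊥ ⊤ ⊥ := by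
  induction r with
  | zero =>
    rw [Uo_zero, up_empty, cn_empty]
    exact ⟨fun _ h => absurd h (Nat.not_lt_zero _), fun _ hz _ => mem_BB_of_mem hz.1,
      fun _ _ => ⟨0, Submodule.zero_mem _, fun _ h => absurd h (Nat.not_lt_zero _)⟩⟩
  | succ r ih =>
    have h0 : ∀ c ∈ cn (up W (Uo r)), (sl (u r) : TC (W × PA) →ₗ[ℚ] TC W) c = 0 := fun c hc =>
      sl_zero (E := Uo r) (fun a ha => (hu r).1.bb _ (mem_BB_of_mem ha)) (fun _ hx => hx) hc
    refine miso_succ (pr_cn (up_mono (Uo_mono (Nat.le_succ r)))) stb_top (fun i _ => ?_) h0 ih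
      ((hu r).2 W)
    rw [← cn_univ]
    exact sl_cmap (E := Pz) (fun a ha => (hu i).1.bb _ (D_mem_BB ha)) (mapsTo_univ _ _)
      fun _ hx => Uo_subset _ hx

theorem IsU.triv {u : ℕ → TC PA →ₗ[ℚ] ℚ} (hu : IsU u) (r : ℕ) (W : Type) [TopologicalSpace W] :
    MIso (fun i => (sl (u i) : TC (W × PA) →ₗ[ℚ] TC W)) r (cn (up W (CP r))) ⊥ ⊤ ⊥ := by
  have h1 := (siso_CP r).iso W
  rw [Prod.map_id, pu_id, up_empty, cn_empty] at h1
  have h2 := (hiso_LL.2 (triv_Uo_BL6 hu r W)).comp h1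
  rw [LinearMap.comp_id] at h2
  exact hiso_LL.1 h2

lemma coeff_BL6 (q : PowerSeries ℚ) {k r : ℕ} (h : k < 2 * r) :
    coeff k ((1 - X ^ 2 : PowerSeries ℚ)⁻¹ * q) =
      ∑ i ∈ (Finset.range r).filter (fun i => 2 * i ≤ k), coeff (k - 2 * i) q := by
  have h0 : constantCoeff (1 - X ^ 2 : PowerSeries ℚ) ≠ 0 := by simp
  have h1 : (1 - X ^ 2 : PowerSeries ℚ)⁻¹ * (1 - X ^ 2) = 1 := PowerSeries.inv_mul_cancel _ h0
  have h2 := mul_neg_geom_sum (X ^ 2 : PowerSeries ℚ) r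
  have h3 : (1 - X ^ 2 : PowerSeries ℚ)⁻¹ * q =
      (∑ i ∈ Finset.range r, (X ^ 2) ^ i) * q + X ^ (2 * r) * ((1 - X ^ 2)⁻¹ * q) := by
    rw [pow_mul]
    linear_combination (-(1 - X ^ 2 : PowerSeries ℚ)⁻¹ * q) * h2 +
      ((∑ i ∈ Finset.range r, (X ^ 2 : PowerSeries ℚ) ^ i) * q) * h1
  rw [h3, map_add, coeff_X_pow_mul', if_neg (by omega), add_zero, Finset.sum_mul, map_sum,
    Finset.sum_filter]
  refine Finset.sum_congr rfl fun i _ => ?_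
  rw [← pow_mul, coeff_X_pow_mul']

theorem sd_Pz : SD Pz ∅ (1 - X ^ 2)⁻¹ := by
  intro B _ q hq k
  obtain ⟨u, hu⟩ := exists_U
  choose m hm using hq
  have hv : ∀ l < 2 * (k + 1), RK (up B Pz) (up B (Uo (k + 1))) l = 0 := fun l hl =>
    van_lim_BL6 (U := fun r => up B (Uo r)) (fun _ _ h => up_mono (Uo_mono h))
      (fun r => up_mono (Uo_subset r)) (fun K h1 h2 => by
        obtain ⟨r, hr⟩ := exists_Uo (h1.image continuous_snd) (image_subset_iff.2 h2)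
        exact ⟨r, image_subset_iff.1 hr⟩)
      fun j hj => (cell_BL6 j B).2 l (by omega)
  have h1 := rk_eq_of_van (gpr_cn (up_mono (Uo_subset (k + 1)))) (hv k (by omega))
    (hv (k + 1) (by omega))
  have h2 : GPr (⊤ : Submodule ℚ (TC B)) ⊥ := cn_univ (X := B) ▸ gpr_bot univ
  have h3 := rk_miso (gpr_bot _) h2 (fun i _ => sl_deg (hu i).1.dg) (triv_Uo_BL6 hu (k + 1) B) k
  refine ⟨∑ i ∈ (Finset.range (k + 1)).filter (fun i => 2 * i ≤ k), m (k - 2 * i), ?_, ?_⟩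
  · rw [RK, up_empty, cn_empty, h1, h3, Nat.cast_sum]
    refine Finset.sum_congr rfl fun i _ => ?_
    rw [← (hm _).1, RK, cn_univ, cn_empty]
  · rw [coeff_BL6 q (r := k + 1) (by omega), Nat.cast_sum]
    exact Finset.sum_congr rfl fun i _ => (hm _).2

end Pool.Agent.Bet
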