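import Pool.Agent.P.MP_d34769_ag.BS10

/-! TASK BS11: a character of weight one, and the principal action. -/

open Set Matrix

namespace Pool.Agent.Bet

variable {ι : Type} [Fintype ι] [DecidableEq ι] {κ : Type} {Ar : Type} [Fintype κ] [Fintype Ar]
  {s t : Ar → κ} {c : ι → Option κ}

theorem bez_BS11 {f : κ → ℕ} (h : Finset.univ.gcd f = 1) : ∃ a : κ → ℤ, ∑ v, f v * a v = 1 := by
  obtain ⟨a, ha⟩ := Finset.gcd_eq_sum_mul Finset.univ fun v => (f v : ℤ)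
  refine ⟨a, ha.symm.trans (Int.eq_one_of_dvd_one Finset.Int.finsetGcd_nonneg ?_)⟩
  rw [← Int.natAbs_dvd, ← Nat.cast_one, Int.natCast_dvd_natCast, ← h]
  refine Finset.dvd_gcd fun v hv => ?_
  rw [← Int.natCast_dvd_natCast, Int.natAbs_dvd]
  exact Finset.gcd_dvd hv

omit [Fintype κ] in
theorem zpow_BS11 {z : ℂ} (hz : z ≠ 0) (F : Finset κ) (e : κ → ℤ) :
    ∏ v ∈ F, z ^ e v = z ^ ∑ v ∈ F, e v := by
  induction F using Finset.cons_induction with
  | empty => simp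
  | cons a F ha ih => rw [Finset.prod_cons, Finset.sum_cons, zpow_add₀ hz, ih]

/-- the block of colour `v`, completed by the identity -/
noncomputable def blk_BS11 (c : ι → Option κ) (v : κ) : Gc c →* Matrix ι ι ℂ where
  toFun g := dg c (some v) * g.1.1 + (1 - dg c (some v))
  map_one' := by simp
  map_mul' g h := by
    have h1 : dg c (some v) * dg c (some v) = dg c (some v) := dp_idem _
    have h2 : dg c (some v) * g.1.1 * dg c (some v) = dg c (some v) * g.1.1 := by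
      rw [mul_assoc, ← g.2.1, ← mul_assoc, h1]
    rw [Subgroup.coe_mul, Units.val_mul]
    simp only [add_mul, mul_add, mul_sub, sub_mul, ← mul_assoc, mul_one, one_mul, h1, h2]
    abel

omit [Fintype κ] in
theorem cont_blk_BS11 (c : ι → Option κ) (v : κ) : Continuous (blk_BS11 c v) :=
  (continuous_const.mul (Units.continuous_val.comp continuous_subtype_val)).add continuous_const

omit [Fintype κ] in
theorem det_blk_BS11 (v : κ) (g : Gc c) (z : ℂ) (h : g.1.1 = z • (1 : Matrix ι ι ℂ)) :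
    (blk_BS11 c v g).det = z ^ dv c v := by
  classical
  have h1 : blk_BS11 c v g = Matrix.diagonal fun i => if c i = some v then z else 1 := by
    ext i j
    change (dg c (some v) * g.1.1 + (1 - dg c (some v))) i j = _
    rw [h, dg, Matrix.add_apply, Matrix.sub_apply, dp_mul_apply, dp_apply, Matrix.smul_apply,
      Matrix.one_apply, Matrix.diagonal_apply]
    by_cases h3 : c i = some v <;> simp only [h3] <;> by_cases h2 : i = j <;> simp [h2]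
  rw [h1, Matrix.det_diagonal, Finset.prod_ite, Finset.prod_const_one, mul_one, Finset.prod_const,
    dv]

theorem exists_chi (hc : ∀ i, c i ≠ none) (hg : Finset.univ.gcd (dv c) = 1) :
    ∃ χ : Gc c →* ℂˣ, Continuous χ ∧
      ∀ (g : Gc c) (z : ℂ), g.1.1 = z • (1 : Matrix ι ι ℂ) → (χ g : ℂ) = z := by
  have _ := hc
  obtain ⟨a, ha⟩ := bez_BS11 hg
  let D : κ → Gc c →* ℂˣ := fun v => (Matrix.detMonoidHom.comp (blk_BS11 c v)).toHomUnits
  have hD : ∀ v, Continuous (D v) := fun v => Units.continuous_iff.2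
    ⟨(cont_blk_BS11 c v).matrix_det, ((cont_blk_BS11 c v).comp continuous_inv).matrix_det⟩
  refine ⟨∏ v, D v ^ a v, ?_, fun g z h => ?_⟩
  · refine (continuous_finsetProd Finset.univ fun v _ => (hD v).zpow (a v)).congr fun g => ?_
    simp only [MonoidHom.finsetProd_apply, MonoidHom.zpow_apply, Pi.pow_apply]
  · have h1 : ∀ v, (D v g : ℂ) = z ^ dv c v := fun v => det_blk_BS11 v g z h
    have hz : z ≠ 0 := by
      rintro rfl
      rw [Finset.sum_eq_zero] at ha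
      · exact zero_ne_one ha
      · intro v _
        have h2 := (D v g).ne_zero
        rw [h1] at h2
        rw [not_not.1 (mt (zero_pow (M₀ := ℂ)) h2), Nat.cast_zero, zero_mul]
    simp only [MonoidHom.finsetProd_apply, MonoidHom.zpow_apply, Units.coe_prod,
      Units.val_zpow_eq_zpow_val, h1, ← zpow_natCast, ← _root_.zpow_mul]
    rw [zpow_BS11 hz, ha, zpow_one]

/-- the scalar matrices -/
noncomputable def sc_BS11 (hc : ∀ i, c i ≠ none) : ℂˣ →* Gc c :=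
  (Units.map (algebraMap ℂ (Matrix ι ι ℂ)).toMonoidHom).codRestrict (Gc c) fun z =>
    ⟨fun o => (Algebra.commutes z.1 (dg c o)).symm, by rw [dg, dp_false hc, zero_mul]⟩

omit [Fintype κ] in
theorem sc_val_BS11 (hc : ∀ i, c i ≠ none) (z : ℂˣ) :
    (sc_BS11 hc z).1.1 = (z : ℂ) • (1 : Matrix ι ι ℂ) := Algebra.algebraMap_eq_smul_one z.1

omit [Fintype κ] in
theorem cont_sc_BS11 (hc : ∀ i, c i ≠ none) : Continuous (sc_BS11 hc) :=
  (Continuous.units_map _ (continuous_algebraMap ℂ (Matrix ι ι ℂ))).subtype_mk _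

theorem prin_schur (hc : ∀ i, c i ≠ none) (i₀ : ι) {χ : Gc c →* ℂˣ} (cχ : Continuous χ)
    (hχ : ∀ (g : Gc c) (z : ℂ), g.1.1 = z • (1 : Matrix ι ι ℂ) → (χ g : ℂ) = z)
    {S : Set (Cj Ar ι)} (hS : Ivt (Gc c) S) (h0 : S ⊆ Rc s t c)
    (hs : ∀ φ ∈ S, ∀ x : Matrix ι ι ℂ, (∀ o, dg c o * x = x * dg c o) →
      (∀ a, x * φ a = φ a * x) → ∃ z : ℂ, x = z • (1 : Matrix ι ι ℂ)) :
    Prin (Gc c) (S ×ˢ (show Set (Via χ (ℕ → ℂ)) from ({0}ᶜ : Set (ℕ → ℂ)))) := by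
  classical
  rintro ⟨x₀, s₀⟩ ⟨hx₀, hs₀⟩
  obtain ⟨n, hn⟩ : ∃ n, (show ℕ → ℂ from s₀) n ≠ 0 := Function.ne_iff.1 hs₀
  obtain ⟨N, hN, hxN, γ, cγ, hγ⟩ := exists_slice hc i₀ (h0 hx₀) (hs x₀ hx₀)
  let ev : Cj Ar ι × Via χ (ℕ → ℂ) → ℂ := fun y => (show ℕ → ℂ from y.2) n
  have cev : Continuous ev := (continuous_apply n).comp continuous_snd
  have sev : ∀ (h : Gc c) y, ev (h • y) = χ h * ev y := fun h y => rfl
  let u : Cj Ar ι × Via χ (ℕ → ℂ) → ℂˣ := fun y => if h : ev y = 0 then 1 else Units.mk0 _ h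
  have hu : ∀ y, ev y ≠ 0 → (u y : ℂ) = ev y := fun y hy => by
    simp only [u, dif_neg hy, Units.val_mk0]
  have cu : ContinuousOn u {y | ev y ≠ 0} :=
    Units.isEmbedding_val₀.isInducing.continuousOn_iff.2 (cev.continuousOn.congr hu)
  let A : Gc c → Cj Ar ι → Gc c := fun g x => g * γ (g⁻¹ • x)
  let P : Gc c → ℂˣ → Gc c := fun g z => g * sc_BS11 hc (z / χ g)
  have h1 : ∀ z, χ (sc_BS11 hc z) = z := fun z => Units.ext (hχ _ _ (sc_val_BS11 hc z))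
  have h2 : ∀ g g' : Gc c, ∀ x ∈ S, g⁻¹ • x ∈ N → g'⁻¹ • x ∈ N → ∀ z,
      P (A g x) z = P (A g' x) z := fun g g' x hx k1 k2 z => by
    obtain ⟨w, hw⟩ := hγ _ ⟨h0 (hS g⁻¹ x hx), k1⟩ _ ⟨h0 (hS g'⁻¹ x hx), k2⟩ ((A g' x)⁻¹ * A g x)
      (by simp only [A, smul_smul, _root_.mul_inv_rev, mul_assoc, mul_inv_cancel_left,
        mul_inv_cancel, mul_one])
    have k3 : A g x = A g' x * sc_BS11 hc (χ ((A g' x)⁻¹ * A g x)) := by
      rw [← inv_mul_eq_iff_eq_mul]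
      exact Subtype.ext (Units.ext (by rw [sc_val_BS11, hχ _ w hw, hw]))
    generalize χ ((A g' x)⁻¹ * A g x) = w' at k3
    simp only [P]
    rw [k3, map_mul, h1, mul_assoc, ← map_mul]
    congr 2
    rw [div_mul_eq_div_div, mul_div_cancel]
  have h3 : ∀ g : Gc c, IsOpen {y : Cj Ar ι × Via χ (ℕ → ℂ) | g⁻¹ • y.1 ∈ N} := fun g =>
    hN.preimage (continuous_fst.const_smul g⁻¹)
  let G : Cj Ar ι → Gc c := fun x => Classical.epsilon fun g => g⁻¹ • x ∈ N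
  have hG : ∀ x (g : Gc c), g⁻¹ • x ∈ N → (G x)⁻¹ • x ∈ N := fun x g hg =>
    Classical.epsilon_spec (p := fun g : Gc c => g⁻¹ • x ∈ N) ⟨g, hg⟩
  refine ⟨(⋃ g : Gc c, {y | g⁻¹ • y.1 ∈ N}) ∩ {y | ev y ≠ 0},
    (isOpen_iUnion h3).inter (isOpen_ne_fun cev continuous_const),
    ⟨mem_iUnion.2 ⟨1, by simpa using hxN⟩, hn⟩, fun y => P (A (G y.1) y.1) (u y), ?_, ?_⟩
  · refine continuousOn_of_locally_continuousOn fun y hy => ?_
    obtain ⟨g, hg⟩ := mem_iUnion.1 hy.2.1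
    have k0 : ContinuousOn (fun y : Cj Ar ι × Via χ (ℕ → ℂ) => γ (g⁻¹ • y.1))
        {y | (y.1 ∈ S ∧ g⁻¹ • y.1 ∈ N) ∧ ev y ≠ 0} :=
      cγ.comp (f := fun y : Cj Ar ι × Via χ (ℕ → ℂ) => g⁻¹ • y.1)
        (continuous_fst.const_smul g⁻¹).continuousOn fun y hy => ⟨h0 (hS _ _ hy.1.1), hy.1.2⟩
    have k1 : ContinuousOn (fun y : Cj Ar ι × Via χ (ℕ → ℂ) => A g y.1)
        {y | (y.1 ∈ S ∧ g⁻¹ • y.1 ∈ N) ∧ ev y ≠ 0} := continuousOn_const.fun_mul k0
    have k2 : ContinuousOn (fun y : Cj Ar ι × Via χ (ℕ → ℂ) => P (A g y.1) (u y))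
        {y | (y.1 ∈ S ∧ g⁻¹ • y.1 ∈ N) ∧ ev y ≠ 0} :=
      k1.fun_mul ((cont_sc_BS11 hc).comp_continuousOn'
        ((cu.mono fun y hy => hy.2).div' (cχ.comp_continuousOn' k1)))
    exact ⟨_, h3 g, hg, (k2.mono fun y hy => ⟨⟨hy.1.1.1, hy.2⟩, hy.1.2.2⟩).congr
      fun y hy => h2 _ _ _ hy.1.1.1 (hG _ g hy.2) hy.2 _⟩
  · intro h y hy
    obtain ⟨g, hg⟩ := mem_iUnion.1 hy.2.1
    have k0 : (h * g)⁻¹ • (h • y).1 = g⁻¹ • y.1 := by
      rw [Prod.smul_fst, smul_smul, _root_.mul_inv_rev, inv_mul_cancel_right]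
    have k1 : (h * g)⁻¹ • (h • y).1 ∈ N := k0 ▸ hg
    have k2 : ev (h • y) ≠ 0 := by
      rw [sev]
      exact mul_ne_zero (χ h).ne_zero hy.2.2
    refine ⟨⟨mem_iUnion.2 ⟨_, k1⟩, k2⟩, ?_⟩
    have k3 : u (h • y) = χ h * u y := Units.ext (by
      rw [hu _ k2, sev, Units.val_mul, hu _ hy.2.2])
    change P (A (G (h • y).1) (h • y).1) (u (h • y)) = h * P (A (G y.1) y.1) (u y)
    rw [h2 _ _ (h • y).1 (hS h _ hy.1.1) (hG _ _ k1) k1, h2 _ _ _ hy.1.1 (hG _ g hg) hg, k3]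
    simp only [P, A]
    rw [k0, mul_assoc h g, map_mul χ h, mul_div_mul_left_eq_div, mul_assoc h]

end Pool.Agent.Bet
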