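import Pool.Agent.P.MP_d34769_ag.BS9
import Pool.Agent.P.MP_d34769_ag.BS11
import Pool.Agent.P.MP_d34769_ag.BM7b
import Pool.Agent.P.MP_d34769_ag.BL6
import Pool.Agent.P.MP_d34769_ag.BH4

/-! TASK BS12: the Poincare series of the moduli space. -/

open PowerSeries

open Set Matrix

namespace Pool.Agent.Bet

variable {ι : Type} [Fintype ι] [DecidableEq ι] {κ : Type} {Ar : Type} [Fintype κ] [Fintype Ar]
  {s t : Ar → κ} {w : κ → ℝ} {c : ι → Option κ} {p : ι → Bool}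

theorem gcd_of_gen {d : κ → ℕ} (hg : Gen w d) : Finset.univ.gcd d = 1 := by
  obtain ⟨h0, hd, hf⟩ := hg
  by_contra h1
  have hm0 : Finset.univ.gcd d ≠ 0 := fun h =>
    hd (funext fun v => Finset.gcd_eq_zero_iff.1 h v (Finset.mem_univ v))
  have hdv : ∀ v, ∃ k, d v = Finset.univ.gcd d * k := fun v => Finset.gcd_dvd (Finset.mem_univ v)
  choose f hfd using hdv
  generalize Finset.univ.gcd d = m at h1 hm0 hfd
  have hm : 2 ≤ m := by omega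
  refine hf f (fun v => ?_) (fun h => hd (funext fun v => ?_)) (fun h => hd (funext fun v => ?_)) ?_
  · rw [hfd v]
    exact Nat.le_mul_of_pos_left _ (by omega)
  · rw [hfd v, h]
    simp
  · have h2 := hfd v
    rw [h] at h2
    show d v = 0
    nlinarith
  · have h2 : th w d = m * th w f := by
      simp only [th, Finset.mul_sum]
      refine Finset.sum_congr rfl fun v _ => ?_
      rw [hfd v]
      push_cast
      ring
    rw [h2] at h0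
    exact (mul_eq_zero.1 h0).resolve_left (Nat.cast_ne_zero.2 hm0)

omit [Fintype κ] [Fintype Ar] in
theorem scal_BS12 (hc : ∀ i, c i ≠ none) {z : ℂ} (hz : z ≠ 0) :
    ∃ g : Gc c, g.1.1 = z • (1 : Matrix ι ι ℂ) ∧ ∀ φ : Cj Ar ι, g • φ = φ := by
  have e1 : (z • (1 : Matrix ι ι ℂ)) * (z⁻¹ • (1 : Matrix ι ι ℂ)) = 1 := by
    rw [Matrix.smul_mul, Matrix.one_mul, smul_smul, mul_inv_cancel₀ hz, one_smul]
  have e2 : (z⁻¹ • (1 : Matrix ι ι ℂ)) * (z • (1 : Matrix ι ι ℂ)) = 1 := by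
    rw [Matrix.smul_mul, Matrix.one_mul, smul_smul, inv_mul_cancel₀ hz, one_smul]
  refine ⟨⟨⟨_, _, e1, e2⟩, fun o => ?_, ?_⟩, rfl, fun φ => funext fun a => ?_⟩
  · show dg c o * (z • (1 : Matrix ι ι ℂ)) = (z • (1 : Matrix ι ι ℂ)) * dg c o
    rw [Matrix.smul_mul, Matrix.mul_smul, Matrix.one_mul, Matrix.mul_one]
  · have h0 : dg c none = 0 := dp_false hc
    rw [h0, Matrix.zero_mul]
  · show (z • (1 : Matrix ι ι ℂ)) * φ a * (z⁻¹ • (1 : Matrix ι ι ℂ)) = φ a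
    rw [Matrix.smul_mul, Matrix.one_mul, Matrix.mul_smul, Matrix.mul_one, smul_smul,
      inv_mul_cancel₀ hz, one_smul]

omit [Fintype κ] [Fintype Ar] in
theorem eqv_BS12 (hc : ∀ i, c i ≠ none) {χ : Gc c →* ℂˣ}
    [ContinuousSMul (Gc c) (Via χ (ℕ → ℂ))]
    (hχ : ∀ (g : Gc c) (z : ℂ), g.1.1 = z • (1 : Matrix ι ι ℂ) → (χ g : ℂ) = z)
    {S : Set (Cj Ar ι)} (hS : Ivt (Gc c) S) {E : Set (Via χ (ℕ → ℂ))}
    (hE : ∀ x : ℕ → ℂ, (show Via χ (ℕ → ℂ) from x) ∈ E ↔ x ≠ 0) (hI : Ivt (Gc c) E) :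
    Eqv (qs (Gc c) (S ×ˢ E)) ∅ (qs (Gc c) S ×ˢ Pz) ∅ := by
  obtain ⟨f, -, -, hf⟩ := quot_iso (π := (qm (Gc c) : Cj Ar ι × Via χ (ℕ → ℂ) → _))
    (π' := Prod.map (qm (Gc c) : Cj Ar ι → _) pm) isOpenQuotientMap_qm
    (isOpenQuotientMap_qm.prodMap isOpenQuotientMap_pm) (S := S ×ˢ E) (T := ∅)
    (S' := S ×ˢ ({0}ᶜ : Set (ℕ → ℂ))) (T' := ∅)
    (fun x hx y e => (mem_qs (hS.prod hI)).1 ⟨x, hx, e.symm⟩)
    (fun x hx y e => by
      obtain ⟨e1, e2⟩ := Prod.mk.inj e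
      refine ⟨(mem_qs hS).1 ⟨x.1, hx.1, e1.symm⟩, ?_⟩
      obtain ⟨a, ha, e3⟩ := pm_eq.1 e2
      show y.2 ≠ 0
      rw [← e3]
      exact smul_ne_zero ha hx.2)
    (empty_subset _) (empty_subset _) (j := fun x => (x.1, x.2)) (i := fun x => (x.1, x.2))
    continuousOn_id continuousOn_id (fun x hx => ⟨hx.1, (hE x.2).1 hx.2⟩) (fun _ h => h)
    (fun x hx => ⟨hx.1, (hE x.2).2 hx.2⟩) (fun _ h => h)
    (fun x _ y _ e => by
      obtain ⟨γ, rfl⟩ := qm_eq.1 e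
      exact Prod.ext (qm_smul γ y.1) (qm_smul (χ γ) (show ℕ → ℂ from y.2)))
    (fun x _ y _ e => by
      obtain ⟨e1, e2⟩ := Prod.mk.inj e
      obtain ⟨γ, e3⟩ := qm_eq.1 e1
      obtain ⟨a, ha, e4⟩ := pm_eq.1 e2
      obtain ⟨g, g1, g2⟩ := scal_BS12 (Ar := Ar) hc (div_ne_zero ha (χ γ).ne_zero)
      refine qm_eq.2 ⟨γ * g, Prod.ext ?_ ?_⟩
      · show (γ * g) • y.1 = x.1
        rw [mul_smul, g2, e3]
      · show ((χ (γ * g) : ℂˣ) : ℂ) • y.2 = x.2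
        rw [map_mul, Units.val_mul, hχ g _ g1, mul_div_cancel₀ _ (χ γ).ne_zero, e4])
    (fun _ _ => rfl) (fun _ _ => rfl)
  rw [prodMap_image_prod] at hf
  exact hf.eqv_empty

theorem dim_moduli (hc : ∀ i, c i ≠ none) (hg : Gen w (dv c)) {q : PowerSeries ℚ}
    (h : SD (Bo (Kc c) (Ge s t w c) (Ec c)) ∅ q) :
    Dim (qs (Gc c) (Ge s t w c)) ∅ ((1 - X ^ 2) * q) := by
  obtain ⟨i₀, -⟩ : ∃ i, c i ≠ none := by
    by_contra h0
    exact hg.2.1 (dv_eq_zero.2 fun i => not_not.1 fun hi => h0 ⟨i, hi⟩)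
  obtain ⟨χ, cχ, hχ⟩ := exists_chi hc (gcd_of_gen hg)
  have i1 : ContinuousSMul (Gc c) (Via χ (ℕ → ℂ)) :=
    ⟨show Continuous fun x : Gc c × (ℕ → ℂ) => χ x.1 • x.2 from
      (cχ.comp continuous_fst).smul continuous_snd⟩
  have i2 := contractible_Ec c
  have i3 : ContractibleSpace (show Set (Via χ (ℕ → ℂ)) from ({0}ᶜ : Set (ℕ → ℂ))) :=
    contractible_ne
  have hI : Ivt (Gc c) (show Set (Via χ (ℕ → ℂ)) from ({0}ᶜ : Set (ℕ → ℂ))) := fun γ x hx =>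
    smul_ne_zero (χ γ).ne_zero (show (show ℕ → ℂ from x) ≠ 0 from hx)
  have h1 := q_chg (ivt_Ge (s := s) (t := t) (w := w) (c := c)) (ivt_Ec c) hI
    (prin_Gc c).prod_right (prin_schur hc i₀ cχ hχ ivt_Ge (fun _ hφ => hφ.1)
      fun φ hφ x hx e => schur hc hg hφ hx e)
  have h2 := SD.of_eqv (((eqv_KG ivt_Ge).trans h1).trans
    (eqv_BS12 hc hχ ivt_Ge (fun _ => Iff.rfl) hI)) h
  obtain ⟨r, hr, e⟩ := Dim.of_prod (S' := Pz) ⟨pm 1, 1, one_ne_zero, rfl⟩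
    (h2.dim (empty_subset _)) sd_Pz
  rw [e, ← mul_assoc, PowerSeries.mul_inv_cancel _ (by simp), one_mul]
  exact hr

end Pool.Agent.Bet
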