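import Pool.Agent.P.MP_d34769_ag.BS7

/-! TASK BS8: the recursion. -/

open Set Matrix

namespace Pool.Agent.Bet

variable {ι : Type} [Fintype ι] [DecidableEq ι] {κ : Type} {Ar : Type} [Fintype κ] [Fintype Ar]
  {s t : Ar → κ} {w : κ → ℝ} {c : ι → Option κ} {p : ι → Bool}

section aux

open Classical PowerSeries

lemma exists_fix_BS8 {α β : Type} (b₀ : β) (m : α → ℕ) (Φ : (α → β) → α → β)
    (h : ∀ f f' a, (∀ b, m b < m a → f b = f' b) → Φ f a = Φ f' a) : ∃ F, ∀ a, F a = Φ F a := by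
  let F : α → β := (measure m).wf.fix
    fun a ih => Φ (fun b => if hb : m b < m a then ih b hb else b₀) a
  refine ⟨F, fun a => ?_⟩
  have e : F a = Φ (fun b => if _hb : m b < m a then F b else b₀) a := WellFounded.fix_eq _ _ a
  rw [e]
  exact h _ _ a fun b hb => dif_pos hb

/-- division by a power of the variable -/
noncomputable def qq_BS8 (a : ℕ) (Y : PowerSeries ℚ) : PowerSeries ℚ :=
  PowerSeries.mk fun n => PowerSeries.coeff (n + a) Y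

lemma qq_eq_BS8 {a : ℕ} {Y r : PowerSeries ℚ} (h : X ^ a * r = Y) : qq_BS8 a Y = r := by
  ext n
  rw [qq_BS8, coeff_mk, ← h, coeff_X_pow_mul]

/-- the list of strata to be removed -/
noncomputable def ls_BS8 (w : κ → ℝ) (d : κ → ℕ) : Finset (κ → ℕ) :=
  (Finset.Iic d).filter fun g => g ≠ 0 ∧ 0 ≤ th w g ∧ th w (d - g) < 0

lemma mem_ls_BS8 {d g : κ → ℕ} :
    g ∈ ls_BS8 w d ↔ g ≤ d ∧ g ≠ 0 ∧ 0 ≤ th w g ∧ th w (d - g) < 0 := by
  rw [ls_BS8, Finset.mem_filter, Finset.mem_Iic]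

lemma th_sub_BS8 {d g : κ → ℕ} (h : g ≤ d) : th w (d - g) = th w d - th w g := by
  have := th_add w g (d - g)
  rw [add_tsub_cancel_of_le h] at this
  linarith

lemma sZ_add_BS8 (f g : κ → ℕ) : sZ (f + g) = sZ f + sZ g := by
  simp [sZ, Finset.sum_add_distrib]

lemma sZ_pos_BS8 {f : κ → ℕ} (h : f ≠ 0) : 0 < sZ f := by
  by_contra h0
  have h1 : sZ f = 0 := by omega
  rw [sZ, Finset.sum_eq_zero_iff] at h1
  exact h (funext fun v => h1 v (Finset.mem_univ v))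

lemma sZ_zero_BS8 : sZ (0 : κ → ℕ) = 0 := by simp [sZ]

lemma sZ_le_BS8 {d g : κ → ℕ} (h : g ≤ d) : sZ g ≤ sZ d := Finset.sum_le_sum fun v _ => h v

lemma ls_lt_BS8 {d g : κ → ℕ} (h : g ∈ ls_BS8 w d) : sZ g < sZ d ∧ sZ (d - g) < sZ d := by
  obtain ⟨h1, h2, -, h4⟩ := mem_ls_BS8.1 h
  have h5 := sZ_add_BS8 g (d - g)
  rw [add_tsub_cancel_of_le h1] at h5
  have h6 : d - g ≠ 0 := fun e => by
    rw [e, th_zero] at h4
    exact lt_irrefl _ h4
  have := sZ_pos_BS8 h2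
  have := sZ_pos_BS8 h6
  omega

lemma exists_F_BS8 (s t : Ar → κ) (w : κ → ℝ) : ∃ F : (κ → ℕ) → PowerSeries ℚ, ∀ d,
    F d = Ad d - ∑ g ∈ ls_BS8 w d,
      qq_BS8 (2 * bb id id g (d - g)) (X ^ (2 * bb s t g (d - g)) * (F g * F (d - g))) := by
  refine exists_fix_BS8 0 sZ (fun F d => Ad d - ∑ g ∈ ls_BS8 w d,
      qq_BS8 (2 * bb id id g (d - g)) (X ^ (2 * bb s t g (d - g)) * (F g * F (d - g)))) ?_
  intro f f' d h
  congr 1
  refine Finset.sum_congr rfl fun g hg => ?_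
  rw [h g (ls_lt_BS8 hg).1, h (d - g) (ls_lt_BS8 hg).2]

/-- the series of the first kind -/
noncomputable def GG_BS8 (w : κ → ℝ) (F : (κ → ℕ) → PowerSeries ℚ) (d : κ → ℕ) : PowerSeries ℚ :=
  if 0 ≤ th w d then F d else 0

/-- the series of the second kind -/
noncomputable def LL_BS8 (w : κ → ℝ) (F : (κ → ℕ) → PowerSeries ℚ) (d : κ → ℕ) : PowerSeries ℚ :=
  if d = 0 ∨ th w d < 0 then F d else 0

/-- the series of the strata -/
noncomputable def rr_BS8 (s t : Ar → κ) (w : κ → ℝ) (F : (κ → ℕ) → PowerSeries ℚ)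
    (g h : κ → ℕ) : PowerSeries ℚ :=
  qq_BS8 (2 * bb id id g h) (X ^ (2 * bb s t g h) * (GG_BS8 w F g * LL_BS8 w F h))

variable {F : (κ → ℕ) → PowerSeries ℚ}

lemma GG_pos_BS8 {d : κ → ℕ} (h : 0 ≤ th w d) : GG_BS8 w F d = F d := if_pos h

lemma GG_neg_BS8 {d : κ → ℕ} (h : th w d < 0) : GG_BS8 w F d = 0 := if_neg (not_le.2 h)

lemma LL_neg_BS8 {d : κ → ℕ} (h : th w d < 0) : LL_BS8 w F d = F d := if_pos (Or.inr h)

lemma LL_zero_BS8 : LL_BS8 w F 0 = F 0 := if_pos (Or.inl rfl)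

lemma LL_pos_BS8 {d : κ → ℕ} (h0 : d ≠ 0) (h : 0 ≤ th w d) : LL_BS8 w F d = 0 :=
  if_neg fun hh => hh.elim h0 (not_lt.2 h)

omit [Fintype κ] in
lemma bb_left_BS8 {A : Type} [Fintype A] (s t : A → κ) (h : κ → ℕ) : bb s t 0 h = 0 := by
  simp [bb]

omit [Fintype κ] in
lemma bb_right_BS8 {A : Type} [Fintype A] (s t : A → κ) (g : κ → ℕ) : bb s t g 0 = 0 := by
  simp [bb]

lemma rr_left_BS8 (h : κ → ℕ) : rr_BS8 s t w F 0 h = GG_BS8 w F 0 * LL_BS8 w F h :=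
  qq_eq_BS8 (by rw [bb_left_BS8, bb_left_BS8])

lemma rr_right_BS8 (g : κ → ℕ) : rr_BS8 s t w F g 0 = GG_BS8 w F g * LL_BS8 w F 0 :=
  qq_eq_BS8 (by rw [bb_right_BS8, bb_right_BS8])

lemma rr_zero_BS8 {g h : κ → ℕ} (h0 : GG_BS8 w F g * LL_BS8 w F h = 0) :
    rr_BS8 s t w F g h = 0 :=
  qq_eq_BS8 (by rw [h0, mul_zero, mul_zero])

lemma fix_rr_BS8 (hF : ∀ d, F d = Ad d - ∑ g ∈ ls_BS8 w d,
      qq_BS8 (2 * bb id id g (d - g)) (X ^ (2 * bb s t g (d - g)) * (F g * F (d - g))))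
    (d : κ → ℕ) : F d = Ad d - ∑ g ∈ ls_BS8 w d, rr_BS8 s t w F g (d - g) := by
  rw [hF d]
  congr 1
  refine Finset.sum_congr rfl fun g hg => ?_
  obtain ⟨-, -, h3, h4⟩ := mem_ls_BS8.1 hg
  rw [rr_BS8, GG_pos_BS8 h3, LL_neg_BS8 h4]

lemma F_zero_BS8 (hF : ∀ d, F d = Ad d - ∑ g ∈ ls_BS8 w d, rr_BS8 s t w F g (d - g)) :
    F 0 = 1 := by
  have h : ls_BS8 w 0 = ∅ := Finset.eq_empty_of_forall_notMem fun g hg => by
    have := (ls_lt_BS8 hg).1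
    rw [sZ_zero_BS8] at this
    omega
  rw [hF 0, h]
  simp [Ad]

lemma sum_BS8 (hF : ∀ d, F d = Ad d - ∑ g ∈ ls_BS8 w d, rr_BS8 s t w F g (d - g)) (d : κ → ℕ) :
    ∑ g ∈ Finset.Iic d, rr_BS8 s t w F g (d - g) = Ad d := by
  have h0 := F_zero_BS8 hF
  rw [← Finset.sum_filter_add_sum_filter_not (Finset.Iic d)
    (fun g => g ≠ 0 ∧ 0 ≤ th w g ∧ th w (d - g) < 0)]
  change ∑ g ∈ ls_BS8 w d, rr_BS8 s t w F g (d - g) + _ = _
  rw [add_comm, ← eq_sub_iff_add_eq, ← hF d]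
  by_cases hd : 0 ≤ th w d
  · rw [Finset.sum_eq_single_of_mem d]
    · rw [tsub_self, rr_right_BS8, GG_pos_BS8 hd, LL_zero_BS8, h0, mul_one]
    · rw [Finset.mem_filter, Finset.mem_Iic, tsub_self, th_zero]
      exact ⟨le_rfl, fun h => lt_irrefl _ h.2.2⟩
    · intro g hg hne
      rw [Finset.mem_filter, Finset.mem_Iic] at hg
      have hdg : d - g ≠ 0 := fun e => hne (le_antisymm hg.1 (tsub_eq_zero_iff_le.1 e))
      refine rr_zero_BS8 ?_
      by_cases h1 : 0 ≤ th w g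
      · by_cases h2 : th w (d - g) < 0
        · have h3 : g = 0 := by
            by_contra h3
            exact hg.2 ⟨h3, h1, h2⟩
          rw [h3, tsub_zero] at h2
          exact absurd h2 (not_lt.2 hd)
        · rw [LL_pos_BS8 hdg (not_lt.1 h2), mul_zero]
      · rw [GG_neg_BS8 (not_le.1 h1), zero_mul]
  · have hd' := not_le.1 hd
    rw [Finset.sum_eq_single_of_mem 0]
    · rw [tsub_zero, rr_left_BS8, GG_pos_BS8 (th_zero w).ge, LL_neg_BS8 hd', h0, one_mul]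
    · rw [Finset.mem_filter, Finset.mem_Iic]
      exact ⟨bot_le, fun h => h.1 rfl⟩
    · intro g hg hne
      rw [Finset.mem_filter, Finset.mem_Iic] at hg
      refine rr_zero_BS8 ?_
      by_cases h1 : 0 ≤ th w g
      · have h2 := th_sub_BS8 (w := w) hg.1
        exact absurd ⟨hne, h1, by linarith⟩ hg.2
      · rw [GG_neg_BS8 (not_le.1 h1), zero_mul]

omit [Fintype κ] [Fintype Ar] in
lemma sd_empty_BS8 (c : ι → Option κ) : SD (Bo (Kc c) (∅ : Set (Cj Ar ι)) (Ec c)) ∅ 0 := by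
  rw [Bo, empty_prod, qs_empty]
  exact SD.empty

omit [Fintype Ar] in
lemma Ge_eq_BS8 (h : 0 ≤ th w (dv c)) :
    Ge s t w c = {φ | φ ∈ Rc s t c ∧ ∀ g ∈ ls_BS8 w (dv c), φ ∉ Cl s t c g} := by
  ext φ
  rw [mem_Ge, mem_ofPred_eq]
  refine and_congr_right fun _ => ⟨fun h1 g hg => h1 g ?_, fun h1 g hg hφ => h1 g ?_ hφ⟩
  · obtain ⟨k1, -, -, k4⟩ := mem_ls_BS8.1 hg
    rw [th_sub_BS8 k1] at k4
    exact Or.inl (by linarith)
  · have k1 := Cl_le hφ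
    have k2 : th w (dv c) < th w g :=
      hg.resolve_right fun k => absurd k.2 (not_lt.2 (sZ_le_BS8 k1))
    refine mem_ls_BS8.2 ⟨k1, fun e => ?_, by linarith, by rw [th_sub_BS8 k1]; linarith⟩
    rw [e, th_zero] at k2
    linarith

omit [Fintype Ar] in
lemma Lt_eq_BS8 (h : th w (dv c) < 0) :
    Lt s t w c = {φ | φ ∈ Rc s t c ∧ ∀ g ∈ ls_BS8 w (dv c), φ ∉ Cl s t c g} := by
  ext φ
  rw [mem_Lt, mem_ofPred_eq]
  refine and_congr_right fun _ => ⟨fun h1 g hg => h1 g ?_, fun h1 g hg hφ => h1 g ?_ hφ⟩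
  · obtain ⟨-, k2, k3, -⟩ := mem_ls_BS8.1 hg
    rw [Hi, th_zero, sZ_zero_BS8]
    rcases k3.lt_or_eq with k | k
    · exact Or.inl k
    · exact Or.inr ⟨k, sZ_pos_BS8 k2⟩
  · have k1 := Cl_le hφ
    rw [Hi, th_zero, sZ_zero_BS8] at hg
    have k3 : 0 ≤ th w g := hg.elim le_of_lt fun k => k.1.le
    refine mem_ls_BS8.2 ⟨k1, fun e => ?_, k3, by rw [th_sub_BS8 k1]; linarith⟩
    rw [e, th_zero, sZ_zero_BS8] at hg
    exact hg.elim (lt_irrefl _) fun k => lt_irrefl _ k.2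

lemma main_BS8 (hF : ∀ d, F d = Ad d - ∑ g ∈ ls_BS8 w d, rr_BS8 s t w F g (d - g)) (n : ℕ) :
    ∀ c : ι → Option κ, sZ (dv c) < n →
      SD (Bo (Kc c) (Ge s t w c) (Ec c)) ∅ (GG_BS8 w F (dv c)) ∧
      SD (Bo (Kc c) (Lt s t w c) (Ec c)) ∅ (LL_BS8 w F (dv c)) ∧
      ∀ g ∈ ls_BS8 w (dv c), X ^ (2 * bb id id g (dv c - g)) * rr_BS8 s t w F g (dv c - g) =
        X ^ (2 * bb s t g (dv c - g)) * (GG_BS8 w F g * LL_BS8 w F (dv c - g)) := by
  induction n with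
  | zero => intro c h; omega
  | succ n ih =>
    intro c hc
    obtain ⟨r, h1, h2⟩ := remove (s := s) (t := t) (w := w) (c := c) (G := GG_BS8 w F)
      (L := LL_BS8 w F) (ls_BS8 w (dv c)) (fun g hg => (mem_ls_BS8.1 hg).1)
      (by
        intro g hg h hh hi
        obtain ⟨k1, -, k3, k4⟩ := mem_ls_BS8.1 hg
        rw [th_sub_BS8 k1] at k4
        have k5 : th w g ≤ th w h := hi.elim le_of_lt fun k => k.1.le
        refine mem_ls_BS8.2 ⟨hh, fun e => ?_, by linarith, by rw [th_sub_BS8 hh]; linarith⟩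
        rw [e, Hi, th_zero, sZ_zero_BS8] at hi
        exact hi.elim (not_lt.2 k3) fun k => Nat.not_lt_zero _ k.2)
      (by
        intro p _ hp
        have k1 := ls_lt_BS8 hp
        have k2 : dv c - dv (c1 c p) = dv (c2 c p) := by
          rw [← dv_add c p, add_tsub_cancel_left]
        rw [k2] at k1
        exact ⟨(ih _ (by omega)).1, (ih _ (by omega)).2.1⟩)
    have h3 : ∀ g ∈ ls_BS8 w (dv c), rr_BS8 s t w F g (dv c - g) = r g :=
      fun g hg => qq_eq_BS8 (h1 g hg)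
    rw [← Finset.sum_congr rfl h3, ← hF] at h2
    refine ⟨?_, ?_, fun g hg => by rw [h3 g hg, h1 g hg]⟩
    · by_cases hd : 0 ≤ th w (dv c)
      · rw [Ge_eq_BS8 hd, GG_pos_BS8 hd]
        exact h2
      · rw [Ge_empty (not_le.1 hd), GG_neg_BS8 (not_le.1 hd)]
        exact sd_empty_BS8 c
    · by_cases hd : 0 ≤ th w (dv c)
      · by_cases h0 : dv c = 0
        · rw [(Ge_Lt_zero h0).2, ← (Ge_Lt_zero (w := w) h0).1, Ge_eq_BS8 hd, LL_BS8,
            if_pos (Or.inl h0)]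
          exact h2
        · rw [Lt_empty hd h0, LL_pos_BS8 h0 hd]
          exact sd_empty_BS8 c
      · rw [Lt_eq_BS8 (not_le.1 hd), LL_neg_BS8 (not_le.1 hd)]
        exact h2

lemma div_BS8 (hF : ∀ d, F d = Ad d - ∑ g ∈ ls_BS8 w d, rr_BS8 s t w F g (d - g))
    (c : ι → Option κ) (g h : κ → ℕ) (hle : g + h ≤ dv c) :
    X ^ (2 * bb id id g h) * rr_BS8 s t w F g h =
      X ^ (2 * bb s t g h) * (GG_BS8 w F g * LL_BS8 w F h) := by
  by_cases hg : g = 0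
  · rw [hg, rr_left_BS8, bb_left_BS8, bb_left_BS8]
  by_cases hh : h = 0
  · rw [hh, rr_right_BS8, bb_right_BS8, bb_right_BS8]
  by_cases h1 : 0 ≤ th w g
  · by_cases h2 : th w h < 0
    · obtain ⟨p, -, hp⟩ := exists_part hle
      have h3 := (main_BS8 hF _ (c1 c p) (Nat.lt_succ_self _)).2.2 g
      rw [hp, add_tsub_cancel_left] at h3
      exact h3 (mem_ls_BS8.2 ⟨le_self_add, hg, h1, by rwa [add_tsub_cancel_left]⟩)
    · have h3 : GG_BS8 w F g * LL_BS8 w F h = 0 := by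
        rw [LL_pos_BS8 hh (not_lt.1 h2), mul_zero]
      rw [rr_zero_BS8 h3, h3, mul_zero, mul_zero]
  · have h3 : GG_BS8 w F g * LL_BS8 w F h = 0 := by
      rw [GG_neg_BS8 (not_le.1 h1), zero_mul]
    rw [rr_zero_BS8 h3, h3, mul_zero, mul_zero]

end aux

theorem recursion (s t : Ar → κ) (w : κ → ℝ) (c : ι → Option κ) :
    ∃ G L r, Rec s t w (dv c) G L r ∧ SD (Bo (Kc c) (Ge s t w c) (Ec c)) ∅ (G (dv c)) := by
  obtain ⟨F, hF'⟩ := exists_F_BS8 s t w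
  have hF := fix_rr_BS8 hF'
  have h0 := F_zero_BS8 hF
  refine ⟨GG_BS8 w F, LL_BS8 w F, rr_BS8 s t w F, ⟨?_, ?_, fun d hd => GG_neg_BS8 hd,
    fun d hd hd' => LL_pos_BS8 hd hd', div_BS8 hF c, fun d _ => sum_BS8 hF d⟩,
    (main_BS8 hF _ c (Nat.lt_succ_self _)).1⟩
  · rw [GG_pos_BS8 (th_zero w).ge, h0]
  · rw [LL_zero_BS8, h0]

end Pool.Agent.Bet
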