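import Pool.Agent.P.MP_d34769_ag.BF3
import Pool.Agent.P.MP_d34769_ag.BF4
import Pool.Agent.P.MP_d34769_ag.BF6
import Pool.Agent.P.MP_d34769_ag.BS8
import Pool.Agent.P.MP_d34769_ag.BS12
import Pool.Agent.P.MP_d34769_ag.BH5

/-! The Betti numbers of the moduli space. -/

open Set

namespace Pool.Agent.Bet

open Pool.Agent.P.MP_d34769_ag (GMod modTop pser wgt)

theorem betti (n d k : ℕ) (hn : 0 < n) (hk : 0 < k) (hc : Nat.gcd n (Nat.gcd d k) = 1) (α : ℝ)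
    (h0 : 0 < α) (hα : Irrational α) :
    ∃ P : Polynomial ℚ, (∀ j : ℕ,
      Module.Finite ℚ (((AlgebraicTopology.singularHomologyFunctor (ModuleCat.{0} ℚ) j).obj
        (ModuleCat.of ℚ ℚ)).obj (@TopCat.of (GMod α n d k) (modTop α n d k))) ∧
      (Module.finrank ℚ (((AlgebraicTopology.singularHomologyFunctor (ModuleCat.{0} ℚ) j).obj
        (ModuleCat.of ℚ ℚ)).obj (@TopCat.of (GMod α n d k) (modTop α n d k))) : ℚ) = P.coeff j) ∧
      ∀ t : ℚ, 0 < t → t < 1 → P.eval t = t ^ (2 * ((k : ℤ) * (d + n - k) - n ^ 2 + 1)) *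
        (1 - t⁻¹ ^ 2) * pser (wgt n d k α) (t⁻¹ ^ 2) ![d, n + d, k] := by
  have hg := gen_of_irrational hn hk hc hα
  obtain ⟨G, L, r, h1, h2⟩ := recursion sr3 tg3 (wt3 n d k α) (cl3 n d k)
  have h3 := dim_moduli cl3_ne (by rw [dv_cl3]; exact hg) h2
  rw [dv_cl3] at h1 h3
  obtain ⟨P, hP, hP'⟩ := exists_pol hn hk hc h0 hα (rel_G hg h1)
  refine ⟨P, fun j => ?_, hP'⟩
  letI := modTop α n d k
  obtain ⟨e⟩ := exists_homeo hn hk h0 hg
  obtain ⟨m, hm, hm'⟩ := h3 j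
  have h4 := ((rank_singular (GMod α n d k) j).trans ((SIso.of_homeo e).rk j)).trans hm
  refine ⟨Module.rank_lt_aleph0_iff.1 (h4 ▸ Cardinal.natCast_lt_aleph0), ?_⟩
  rw [Module.finrank_eq_of_rank_eq h4, ← hm', ← hP, Polynomial.coeff_coe]

end Pool.Agent.Bet
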