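import Pool.Agent.P.MP_d34769_ag.BT1

/-! TASK BH1: homotopy invariance, small chains, contractible sets. -/

open Set

namespace Pool.Agent.Bet

variable {X Y : Type} [TopologicalSpace X] [TopologicalSpace Y]

/-- The inclusion of a subspace as a continuous map. -/
def val_BH1 (S : Set X) : C(S, X) := ⟨Subtype.val, continuous_subtype_val⟩

lemma inj_BH1 (S : Set X) : Function.Injective (pu (Subtype.val : S → X)) := by
  have h1 : pu (Subtype.val : S → X) = Finsupp.lmapDomain ℚ ℚ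
      (Sigma.map id fun _ σ => (val_BH1 S).comp σ : Spx S → Spx X) :=
    TC.ext fun k σ => by
      rw [show (Subtype.val : S → X) = val_BH1 S from rfl, pu_sx]
      simp only [sx, Finsupp.lmapDomain_apply, Finsupp.mapDomain_single]
      rfl
  rw [h1]
  refine Finsupp.mapDomain_injective (Function.injective_id.sigma_map fun k σ τ h => ?_)
  ext t
  exact ContinuousMap.congr_fun h t

lemma lift_BH1 {S T : Set X} {z : TC X} (hz : z ∈ cn (S ∩ T)) :
    ∃ z' ∈ cn ((Subtype.val : S → X) ⁻¹' T), pu Subtype.val z' = z := by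
  refine cn_ind (P := fun z => ∃ z' ∈ cn ((Subtype.val : S → X) ⁻¹' T), pu Subtype.val z' = z) hz
    ⟨0, Submodule.zero_mem _, map_zero _⟩ ?_ fun m k σ hσ => ?_
  · rintro _ _ ⟨a, ha, rfl⟩ ⟨b, hb, rfl⟩
    exact ⟨a + b, Submodule.add_mem _ ha hb, map_add _ _ _⟩
  · let σ' : C(G.Dl (k + 1), S) := ⟨fun t => ⟨σ t, (hσ t).1⟩, σ.continuous.subtype_mk _⟩
    refine ⟨m • sx k σ', Submodule.smul_mem _ _ (sx_mem (σ := σ') fun t => (hσ t).2), ?_⟩
    rw [map_smul, show (Subtype.val : S → X) = val_BH1 S from rfl, pu_sx]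
    rfl

lemma valD_BH1 (S : Set X) (z : TC S) :
    pu (Subtype.val : S → X) (D z) = D (pu Subtype.val z) :=
  pu_D (S := univ) continuous_subtype_val.continuousOn (by simp)

lemma htp_BH1 (f g : C(X, Y)) (H : C(X × unitInterval, Y)) (h0 : ∀ x, H (x, 0) = f x)
    (h1 : ∀ x, H (x, 1) = g x) {T : Set X} {S' T' : Set Y} (hS : ∀ x t, H (x, t) ∈ S')
    (hT : ∀ x ∈ T, ∀ t, H (x, t) ∈ T') {z : TC X} (hz : D z ∈ cn T) :
    pu g z - pu f z ∈ BB (cn S') (cn T') := by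
  refine mem_of_pr fun k => ?_
  have hb : G.bd (prj k z) ∈ G.ChIn T k := by
    cases k with
    | zero => exact G.mem_ChIn_zero _ _
    | succ k => rw [← prj_D]; exact prj_mem k hz
  obtain ⟨d, hd, h⟩ := G.homotopic_chain f g H h0 h1 (S := univ) (fun x _ t => hS x t) hT
    (G.mem_ChIn_univ _) hb
  refine mem_BB.2 ⟨inc (k + 1) d, inc_mem hd, ?_⟩
  rw [map_sub, ← pu_pr, ← pu_pr, pr_eq, pu_inc, pu_inc, D_inc, ← map_sub, ← map_sub]
  exact inc_mem h

theorem htp_BB {H : ℝ → X → Y} {S T : Set X} {S' T' : Set Y} (h : Htp H S S')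
    (hT : ∀ t ∈ Icc (0 : ℝ) 1, MapsTo (H t) T T') {z : TC X} (hz : z ∈ ZZ (cn S) (cn T)) :
    pu (H 1) z - pu (H 0) z ∈ BB (cn S') (cn T') := by
  obtain ⟨z', -, rfl⟩ := lift_BH1 (S := S) (T := univ) (z := z) (by rw [inter_univ]; exact hz.1)
  obtain ⟨w, hw, e⟩ := lift_BH1 (S := S) (T := T) (z := D (pu Subtype.val z'))
    (by rw [cn_inter]; exact ⟨stb_cn S _ hz.1, hz.2⟩)
  rw [← valD_BH1] at e
  have e' := inj_BH1 S e
  let K : C(S × unitInterval, Y) := ⟨fun p => H p.2 p.1, h.cont.comp_continuous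
    (f := fun p : S × unitInterval => ((p.2 : ℝ), (p.1 : X))) (by fun_prop)
    fun p => ⟨p.2.2, p.1.2⟩⟩
  have key := htp_BH1 (K.comp ⟨fun x => (x, 0), by fun_prop⟩)
    (K.comp ⟨fun x => (x, 1), by fun_prop⟩) K (fun _ => rfl) (fun _ => rfl)
    (T := Subtype.val ⁻¹' T) (S' := S') (T' := T') (fun x t => h.map t t.2 x.2)
    (fun x hx t => hT t t.2 hx) (z := z') (e' ▸ hw)
  rw [pu_pu (S := univ) continuous_subtype_val.continuousOn (by simp),
    pu_pu (S := univ) continuous_subtype_val.continuousOn (by simp)]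
  exact key

lemma small_BH1 {U V : Set X} (hU : IsOpen U) (hV : IsOpen V) :
    Acyc (cn (U ∪ V)) (cn U ⊔ cn V) := by
  intro z hz
  refine mem_of_pr fun k => ?_
  have hb : G.bd (prj k z) ∈ G.ChIn U k ⊔ G.ChIn V k := by
    cases k with
    | zero => exact Submodule.mem_sup_left (G.mem_ChIn_zero _ _)
    | succ k =>
      obtain ⟨a, ha, b, hb, e⟩ := Submodule.mem_sup.1 (mem_ZZ.1 hz).2
      rw [← prj_D, ← e, map_add]
      exact Submodule.add_mem_sup (prj_mem k ha) (prj_mem k hb)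
  obtain ⟨d, hd, a, ha, b, hb, e⟩ := G.small hU hV (prj_mem k hz.1) hb
  refine mem_BB.2 ⟨inc (k + 1) d, inc_mem hd, ?_⟩
  rw [pr_eq, D_inc, e, add_assoc, map_add, add_sub_cancel_left, map_add]
  exact Submodule.add_mem_sup (inc_mem ha) (inc_mem hb)

theorem small_cn (A : Set X) {U V : Set X} (hU : IsOpen U) (hV : IsOpen V) :
    Acyc (cn (A ∩ (U ∪ V))) (cn (A ∩ U) ⊔ cn (A ∩ V)) := by
  intro z hz
  obtain ⟨z', hz', rfl⟩ := lift_BH1 hz.1
  obtain ⟨a, ha, b, hb, e⟩ := Submodule.mem_sup.1 (mem_ZZ.1 hz).2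
  obtain ⟨a', ha', rfl⟩ := lift_BH1 ha
  obtain ⟨b', hb', rfl⟩ := lift_BH1 hb
  rw [← valD_BH1, ← map_add] at e
  have e' := inj_BH1 A e
  have hm : ∀ W : Set X, MapsTo (Subtype.val : A → X) (Subtype.val ⁻¹' W) (A ∩ W) :=
    fun W x hx => ⟨x.2, hx⟩
  have h1 := small_BH1 (hU.preimage (continuous_subtype_val (p := fun x => x ∈ A)))
    (hV.preimage (continuous_subtype_val (p := fun x => x ∈ A)))
    (mem_ZZ.2 ⟨hz', e' ▸ Submodule.add_mem_sup ha' hb'⟩)
  obtain ⟨d, hd, h2⟩ := mem_BB.1 h1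
  obtain ⟨u, hu, v, hv, h3⟩ := Submodule.mem_sup.1 h2
  refine mem_BB.2 ⟨pu Subtype.val d, pu_mem (hm (U ∪ V)) hd, ?_⟩
  rw [← valD_BH1, ← map_sub, ← h3, map_add]
  exact Submodule.add_mem_sup (pu_mem (hm U) hu) (pu_mem (hm V) hv)

theorem small_ro {S T : Set X} (hS : RO S (S ∪ T)) (hT : RO T (S ∪ T)) :
    Acyc (cn (S ∪ T)) (cn S ⊔ cn T) := by
  obtain ⟨U, hU, e1⟩ := hS
  obtain ⟨V, hV, e2⟩ := hT
  have h := small_cn (S ∪ T) hU hV
  rwa [inter_union_distrib_left, ← e1, ← e2] at h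

theorem exists_htp (C : Set X) [ContractibleSpace C] :
    ∃ x₀ ∈ C, ∃ H : ℝ → X → X, Htp H C C ∧ (∀ x ∈ C, H 0 x = x) ∧ ∀ x ∈ C, H 1 x = x₀ := by
  classical
  obtain ⟨y, ⟨K⟩⟩ := (contractible_iff_id_nullhomotopic C).1 inferInstance
  refine ⟨y, y.2, fun t x => if hx : x ∈ C then (K (projIcc 0 1 zero_le_one t, ⟨x, hx⟩) : X) else x,
    ⟨?_, fun t _ x hx => ?_⟩, fun x hx => ?_, fun x hx => ?_⟩
  · rw [continuousOn_iff_continuous_domRestrict]
    have hc : Continuous fun p : (Icc (0 : ℝ) 1 ×ˢ C : Set (ℝ × X)) =>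
        (K (projIcc 0 1 zero_le_one p.1.1, ⟨p.1.2, p.2.2⟩) : X) :=
      continuous_subtype_val.comp (K.continuous.comp
        ((continuous_projIcc.comp (by fun_prop)).prodMk
          ((continuous_snd.comp continuous_subtype_val).subtype_mk _)))
    refine hc.congr fun p => ?_
    have hx : p.1.2 ∈ C := p.2.2
    simp only [domRestrict_apply, dif_pos hx]
  · simp only [dif_pos hx]
    exact Subtype.prop _
  · simp only [dif_pos hx, projIcc_left]
    exact congrArg Subtype.val (K.apply_zero ⟨x, hx⟩)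
  · simp only [dif_pos hx, projIcc_right]
    exact congrArg Subtype.val (K.apply_one ⟨x, hx⟩)

lemma homot_BH1 {C : Set X} {H : ℝ → X → X} (hH : Htp H C C) {f g : C(C, C)}
    (e0 : ∀ x : C, H 0 x = f x) (e1 : ∀ x : C, H 1 x = g x) : f.Homotopic g :=
  ⟨⟨⟨fun p => ⟨H p.1 p.2, hH.map p.1 p.1.2 p.2.2⟩, (hH.cont.comp_continuous
    (f := fun p : unitInterval × C => ((p.1 : ℝ), (p.2 : X))) (by fun_prop)
    fun p => ⟨p.1.2, p.2.2⟩).subtype_mk _⟩, fun x => Subtype.ext (e0 x),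
    fun x => Subtype.ext (e1 x)⟩⟩

theorem contractible_of_htp {C : Set X} {x₀ : X} (h0 : x₀ ∈ C) {H H' : ℝ → X → X}
    (hH : Htp H C C) (hH' : Htp H' C C) (e0 : ∀ x ∈ C, H 0 x = x) (e1 : ∀ x ∈ C, H 1 x = H' 0 x)
    (e2 : ∀ x ∈ C, H' 1 x = x₀) : ContractibleSpace C := by
  have h1 : (1 : ℝ) ∈ Icc (0 : ℝ) 1 := ⟨zero_le_one, le_rfl⟩
  let m : C(C, C) := ⟨fun x => ⟨H 1 x, hH.map 1 h1 x.2⟩, (hH.cont.comp_continuous
    (f := fun x : C => ((1 : ℝ), (x : X))) (by fun_prop) fun x => ⟨h1, x.2⟩).subtype_mk _⟩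
  refine (contractible_iff_id_nullhomotopic C).2 ⟨⟨x₀, h0⟩, ?_⟩
  exact (homot_BH1 hH (f := ContinuousMap.id C) (g := m) (fun x => e0 x x.2) fun _ => rfl).trans
    (homot_BH1 hH' (fun x => (e1 x x.2).symm) fun x => e2 x x.2)

theorem fam_cn {p : Y → X} {S' : Set Y} {S : Set X} (hp : ContinuousOn p S') (hm : MapsTo p S' S) :
    Fam S fun U => cn (S' ∩ p ⁻¹' U) := by
  refine ⟨fun U => stb_cn _, fun U V h => cn_mono (inter_subset_inter_right _ (preimage_mono h)),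
    by simp, fun U V => ?_, fun U V hU hV => ?_, fun U c hc => ?_⟩
  · rw [← cn_inter, preimage_inter, inter_inter_distrib_left]
  · obtain ⟨U', hU', e1⟩ := continuousOn_iff'.1 hp U hU
    obtain ⟨V', hV', e2⟩ := continuousOn_iff'.1 hp V hV
    have h := small_cn S' hU' hV'
    rw [inter_union_distrib_left, inter_comm S' U', inter_comm S' V', ← e1, ← e2,
      inter_comm _ S', inter_comm _ S', ← inter_union_distrib_left] at h
    exact h
  · obtain ⟨K, hK, h1, h2⟩ := exists_compact hc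
    refine ⟨p '' K, hK.image_of_continuousOn (hp.mono fun x hx => (h1 hx).1), ?_,
      cn_mono (subset_inter (fun x hx => (h1 hx).1) (subset_preimage_image p K)) h2⟩
    rintro _ ⟨x, hx, rfl⟩
    exact ⟨(h1 hx).2, hm (h1 hx).1⟩

end Pool.Agent.Bet
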