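import Pool.Agent.P.MP_d34769_ag.BH1
import Pool.Agent.P.MP_d34769_ag.BA2

/-! TASK BH2: calculus of stable isomorphisms. -/

open Set

namespace Pool.Agent.Bet

variable {X Y Z : Type} [TopologicalSpace X] [TopologicalSpace Y] [TopologicalSpace Z]
  {f : X → Y} {g : Y → Z} {S T : Set X} {S' T' : Set Y} {S'' T'' : Set Z}

lemma cont_up_BH2 {B : Type} [TopologicalSpace B] (hf : ContinuousOn f S) :
    ContinuousOn (Prod.map id f : B × X → B × Y) (up B S) :=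
  continuous_fst.continuousOn.prodMk (hf.comp continuous_snd.continuousOn fun _ hx => hx)

lemma htp_up_BH2 {B : Type} [TopologicalSpace B] {H : ℝ → X → Y} (h : Htp H S S') :
    Htp (fun t => (Prod.map id (H t) : B × X → B × Y)) (up B S) (up B S') := by
  refine ⟨?_, fun t ht _ hx => h.map t ht hx⟩
  have c1 : ContinuousOn (fun p : ℝ × B × X => H p.1 p.2.2) (Icc 0 1 ×ˢ up B S) :=
    h.cont.comp (f := fun p : ℝ × B × X => (p.1, p.2.2)) (by fun_prop) fun p hp => ⟨hp.1, hp.2⟩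
  exact continuous_snd.fst.continuousOn.prodMk c1

lemma htp_id_BH2 (S : Set X) : Htp (fun _ => id) S S :=
  ⟨continuous_snd.continuousOn, fun _ _ => mapsTo_id S⟩

/-- a homotopy equivalence of pairs, unstable form -/
theorem hiso_of_he {k : Y → X} (hT : T ⊆ S) (hT' : T' ⊆ S') (cf : ContinuousOn f S)
    (ck : ContinuousOn k S') (m1 : MapsTo f S S') (m2 : MapsTo f T T') (m3 : MapsTo k S' S)
    (m4 : MapsTo k T' T) {H : ℝ → X → X} {H' : ℝ → Y → Y} (hH : Htp H S S) (hH' : Htp H' S' S')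
    (t1 : ∀ t ∈ Icc (0 : ℝ) 1, MapsTo (H t) T T) (t2 : ∀ t ∈ Icc (0 : ℝ) 1, MapsTo (H' t) T' T')
    (e0 : ∀ x ∈ S, H 0 x = x) (e1 : ∀ x ∈ S, H 1 x = k (f x)) (e0' : ∀ y ∈ S', H' 0 y = y)
    (e1' : ∀ y ∈ S', H' 1 y = f (k y)) : HIso (pu f) (cn S) (cn T) (cn S') (cn T') := by
  refine HIso.of_inv (k := pu k) (hmap_pu cf m1 m2) (hmap_pu ck m3 m4) (fun z hz => ?_)
    fun y hy => ?_
  · have h := htp_BB hH t1 hz
    rwa [pu_of_eqOn e0 hz.1, pu_congr (g := k ∘ f) e1 hz.1, ← pu_pu cf hz.1] at h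
  · have h := htp_BB hH' t2 hy
    rwa [pu_of_eqOn e0' hy.1, pu_congr (g := f ∘ k) e1' hy.1, ← pu_pu ck hy.1] at h

/-- a homotopy equivalence of pairs -/
theorem SIso.of_he {k : Y → X} (hT : T ⊆ S) (hT' : T' ⊆ S') (cf : ContinuousOn f S)
    (ck : ContinuousOn k S') (m1 : MapsTo f S S') (m2 : MapsTo f T T') (m3 : MapsTo k S' S)
    (m4 : MapsTo k T' T) {H : ℝ → X → X} {H' : ℝ → Y → Y} (hH : Htp H S S) (hH' : Htp H' S' S')
    (t1 : ∀ t ∈ Icc (0 : ℝ) 1, MapsTo (H t) T T) (t2 : ∀ t ∈ Icc (0 : ℝ) 1, MapsTo (H' t) T' T')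
    (e0 : ∀ x ∈ S, H 0 x = x) (e1 : ∀ x ∈ S, H 1 x = k (f x)) (e0' : ∀ y ∈ S', H' 0 y = y)
    (e1' : ∀ y ∈ S', H' 1 y = f (k y)) : SIso f S T S' T' := by
  refine ⟨cf, hT, hT', m1, m2, fun B _ => ?_⟩
  exact hiso_of_he (k := Prod.map id k) (H := fun t => Prod.map id (H t))
    (H' := fun t => Prod.map id (H' t)) (up_mono hT) (up_mono hT') (cont_up_BH2 cf)
    (cont_up_BH2 ck) (fun _ hx => m1 hx) (fun _ hx => m2 hx) (fun _ hx => m3 hx)
    (fun _ hx => m4 hx) (htp_up_BH2 hH) (htp_up_BH2 hH') (fun t ht _ hx => t1 t ht hx)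
    (fun t ht _ hx => t2 t ht hx) (fun x hx => Prod.ext rfl (e0 x.2 hx))
    (fun x hx => Prod.ext rfl (e1 x.2 hx)) (fun x hx => Prod.ext rfl (e0' x.2 hx))
    (fun x hx => Prod.ext rfl (e1' x.2 hx))

/-- a homeomorphism of pairs -/
theorem SIso.of_inv {k : Y → X} (hT : T ⊆ S) (hT' : T' ⊆ S') (cf : ContinuousOn f S)
    (ck : ContinuousOn k S') (m1 : MapsTo f S S') (m2 : MapsTo f T T') (m3 : MapsTo k S' S)
    (m4 : MapsTo k T' T) (e : ∀ x ∈ S, k (f x) = x) (e' : ∀ y ∈ S', f (k y) = y) :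
    SIso f S T S' T' := by
  exact SIso.of_he (H := fun _ => id) (H' := fun _ => id) hT hT' cf ck m1 m2 m3 m4
    (htp_id_BH2 S) (htp_id_BH2 S') (fun _ _ => mapsTo_id T) (fun _ _ => mapsTo_id T')
    (fun _ _ => rfl) (fun x hx => (e x hx).symm) (fun _ _ => rfl) fun y hy => (e' y hy).symm

/-- a deformation of `(S, T)` into `(S₀, T₀)` -/
theorem SIso.of_def {S₀ T₀ : Set X} (h1 : S₀ ⊆ S) (h2 : T₀ ⊆ T) (h3 : T ⊆ S) (h4 : T₀ ⊆ S₀)
    {H : ℝ → X → X} (hH : Htp H S S) (t1 : ∀ t ∈ Icc (0 : ℝ) 1, MapsTo (H t) T T)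
    (t2 : ∀ t ∈ Icc (0 : ℝ) 1, MapsTo (H t) S₀ S₀) (t3 : ∀ t ∈ Icc (0 : ℝ) 1, MapsTo (H t) T₀ T₀)
    (e0 : ∀ x ∈ S, H 0 x = x) (m1 : MapsTo (H 1) S S₀) (m2 : MapsTo (H 1) T T₀) :
    SIso id S₀ T₀ S T := by
  have c1 : ContinuousOn (H 1) S :=
    hH.cont.comp (f := fun x : X => ((1 : ℝ), x)) (by fun_prop) fun x hx => ⟨by simp, hx⟩
  exact SIso.of_he (k := H 1) (H := H) (H' := H) h4 h3 continuousOn_id c1 (fun _ hx => h1 hx)
    (fun _ hx => h2 hx) m1 m2 ⟨hH.cont.mono (prod_mono_right h1), t2⟩ hH t3 t1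
    (fun x hx => e0 x (h1 hx)) (fun _ _ => rfl) e0 fun _ _ => rfl

theorem SIso.refl (h : T ⊆ S) : SIso id S T S T := by
  exact SIso.of_inv (k := id) h h continuousOn_id continuousOn_id (mapsTo_id S) (mapsTo_id T)
    (mapsTo_id S) (mapsTo_id T) (fun _ _ => rfl) fun _ _ => rfl

lemma hiso_bot_BH2 (φ : TC X →ₗ[ℚ] TC Y) : HIso φ ⊥ ⊥ ⊥ ⊥ := by
  refine ⟨CMap.hmap (fun c hc => ?_) fun c hc => ?_, fun z hz _ => mem_BB_of_mem hz.1,
    fun y hy => ⟨0, Submodule.zero_mem _, mem_BB_of_mem ?_⟩⟩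
  · rw [Submodule.mem_bot] at hc; simp [hc]
  · rw [Submodule.mem_bot] at hc; simp [hc]
  · rw [map_zero, zero_sub]; exact Submodule.neg_mem _ hy.1

open Classical in
lemma of_homeo_BH2 (h : X ≃ₜ S') : SIso (fun x => (h x : Y)) univ ∅ S' ∅ := by
  have cf : ContinuousOn (fun x => (h x : Y)) univ :=
    (continuous_subtype_val.comp h.continuous).continuousOn
  rcases isEmpty_or_nonempty X with hX | ⟨⟨x0⟩⟩
  · have e : S' = ∅ := eq_empty_of_forall_notMem fun y hy => hX.false (h.symm ⟨y, hy⟩)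
    refine ⟨cf, empty_subset _, empty_subset _, fun x _ => (h x).2, mapsTo_empty _ _,
      fun B _ => ?_⟩
    have e1 : up B (univ : Set X) = ∅ := eq_empty_of_forall_notMem fun y _ => hX.false y.2
    have e2 : up B S' = ∅ := eq_empty_of_forall_notMem fun y hy => hX.false (h.symm ⟨y.2, hy⟩)
    rw [e1, e2, up_empty, up_empty, cn_empty, cn_empty]
    exact hiso_bot_BH2 _
  · refine SIso.of_inv (k := fun y => if hy : y ∈ S' then h.symm ⟨y, hy⟩ else x0)
      (empty_subset _) (empty_subset _) cf ?_ (fun x _ => (h x).2) (mapsTo_empty _ _)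
      (mapsTo_univ _ _) (mapsTo_empty _ _) (fun x _ => ?_) fun y hy => ?_
    · rw [continuousOn_iff_continuous_domRestrict]
      refine h.symm.continuous.congr fun y => ?_
      simp [y.2]
    · simp [(h x).2]
    · simp [hy]

theorem SIso.val (S : Set X) : SIso (Subtype.val : S → X) univ ∅ S ∅ := by
  exact of_homeo_BH2 (Homeomorph.refl S)

theorem SIso.of_homeo (h : X ≃ₜ S') : SIso (fun x => (h x : Y)) univ ∅ S' ∅ := by
  exact of_homeo_BH2 h

theorem SIso.hiso (h : SIso f S T S' T') : HIso (pu f) (cn S) (cn T) (cn S') (cn T') := by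
  have i1 : HIso (pu fun x : X => (((), x) : Unit × X)) (cn S) (cn T) (cn (up Unit S))
      (cn (up Unit T)) :=
    hiso_of_he (k := Prod.snd) (H := fun _ => id) (H' := fun _ => id) h.le (up_mono h.le)
      (by fun_prop) continuous_snd.continuousOn (fun _ hx => hx) (fun _ hx => hx) (fun _ hx => hx)
      (fun _ hx => hx) (htp_id_BH2 _) (htp_id_BH2 _) (fun _ _ => mapsTo_id _)
      (fun _ _ => mapsTo_id _) (fun _ _ => rfl) (fun _ _ => rfl) (fun _ _ => rfl) fun _ _ => rfl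
  have i2 : HIso (pu (Prod.snd : Unit × Y → Y)) (cn (up Unit S')) (cn (up Unit T')) (cn S')
      (cn T') :=
    hiso_of_he (k := fun y : Y => (((), y) : Unit × Y)) (H := fun _ => id) (H' := fun _ => id)
      (up_mono h.le') h.le' continuous_snd.continuousOn (by fun_prop) (fun _ hx => hx)
      (fun _ hx => hx) (fun _ hx => hx) (fun _ hx => hx) (htp_id_BH2 _) (htp_id_BH2 _)
      (fun _ _ => mapsTo_id _) (fun _ _ => mapsTo_id _) (fun _ _ => rfl) (fun _ _ => rfl)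
      (fun _ _ => rfl) fun _ _ => rfl
  refine (i2.comp ((h.iso Unit).comp i1)).congr (pr_cn h.le) (pr_cn h.le') fun z hz => ?_
  have c1 : ContinuousOn (fun x : X => (((), x) : Unit × X)) S := by fun_prop
  have c2 : ContinuousOn ((Prod.map id f : Unit × X → Unit × Y) ∘
      fun x : X => (((), x) : Unit × X)) S := (cont_up_BH2 h.cont).comp c1 fun _ hx => hx
  rw [LinearMap.comp_apply, LinearMap.comp_apply, pu_pu c1 hz.1, pu_pu c2 hz.1]
  exact (sub_self (pu f z)).symm ▸ Submodule.zero_mem _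

end Pool.Agent.Bet
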