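import Pool.Agent.P.MP_d34769_ag.BH2

/-! TASK BH2b: calculus of stable isomorphisms, excision. -/

open Set

namespace Pool.Agent.Bet

variable {X Y Z : Type} [TopologicalSpace X] [TopologicalSpace Y] [TopologicalSpace Z]
  {f : X → Y} {g : Y → Z} {S T : Set X} {S' T' : Set Y} {S'' T'' : Set Z}

lemma cont_BH2b (hf : ContinuousOn f S) (B : Type) [TopologicalSpace B] :
    ContinuousOn (Prod.map id f : B × X → B × Y) (up B S) :=
  continuous_fst.continuousOn.prodMk (hf.comp continuous_snd.continuousOn fun _ hx => hx)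

omit [TopologicalSpace X] [TopologicalSpace Y] in
lemma maps_BH2b (h : MapsTo f S S') (B : Type) :
    MapsTo (Prod.map id f : B × X → B × Y) (up B S) (up B S') := fun _ hx => h hx

/-- replacing a linear map by one that agrees with it on the chains in `S` -/
lemma congr_BH2b {φ ψ : TC X →ₗ[ℚ] TC Y} (h : HIso φ (cn S) (cn T) (cn S') (cn T')) (hT : T ⊆ S)
    (hT' : T' ⊆ S') (e : ∀ c ∈ cn S, φ c = ψ c) : HIso ψ (cn S) (cn T) (cn S') (cn T') :=
  h.congr (pr_cn hT) (pr_cn hT') fun z hz => by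
    rw [e z hz.1, sub_self]; exact Submodule.zero_mem _

lemma pupu_BH2b (hf : ContinuousOn f S) (B : Type) [TopologicalSpace B] :
    ∀ c ∈ cn (up B S), (pu (Prod.map id g : B × Y → B × Z) ∘ₗ
      pu (Prod.map id f : B × X → B × Y)) c = pu (Prod.map id (g ∘ f) : B × X → B × Z) c :=
  fun _ hc => pu_pu (cont_BH2b hf B) hc

theorem SIso.comp (hg : SIso g S' T' S'' T'') (hf : SIso f S T S' T') :
    SIso (g ∘ f) S T S'' T'' :=
  ⟨hg.cont.comp hf.cont hf.mS, hf.le, hg.le', hg.mS.comp hf.mS, hg.mT.comp hf.mT, fun B _ =>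
    congr_BH2b ((hg.iso B).comp (hf.iso B)) (up_mono hf.le) (up_mono hg.le') (pupu_BH2b hf.cont B)⟩

theorem SIso.of_comp_left (hf : SIso f S T S' T') (cg : ContinuousOn g S') (m1 : MapsTo g S' S'')
    (m2 : MapsTo g T' T'') (h : SIso (g ∘ f) S T S'' T'') : SIso g S' T' S'' T'' :=
  ⟨cg, hf.le', h.le', m1, m2, fun B _ =>
    (hf.iso B).of_comp_left (hmap_pu (cont_BH2b cg B) (maps_BH2b m1 B) (maps_BH2b m2 B))
      (congr_BH2b (h.iso B) (up_mono h.le) (up_mono h.le')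
        fun c hc => (pupu_BH2b hf.cont B c hc).symm)⟩

theorem SIso.of_comp_right (cf : ContinuousOn f S) (m1 : MapsTo f S S') (m2 : MapsTo f T T')
    (hg : SIso g S' T' S'' T'') (h : SIso (g ∘ f) S T S'' T'') : SIso f S T S' T' :=
  ⟨cf, h.le, hg.le, m1, m2, fun B _ =>
    HIso.of_comp_right (hmap_pu (cont_BH2b cf B) (maps_BH2b m1 B) (maps_BH2b m2 B)) (hg.iso B)
      (congr_BH2b (h.iso B) (up_mono h.le) (up_mono h.le')
        fun c hc => (pupu_BH2b cf B c hc).symm)⟩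

theorem SIso.congr {f' : X → Y} (h : SIso f S T S' T') (e : EqOn f f' S) : SIso f' S T S' T' :=
  ⟨h.cont.congr e.symm, h.le, h.le', h.mS.congr e, h.mT.congr (e.mono h.le), fun B _ =>
    congr_BH2b (h.iso B) (up_mono h.le) (up_mono h.le') fun _ hc =>
      pu_congr (f := Prod.map id f) (g := Prod.map id f') (fun x hx => Prod.ext rfl (e hx)) hc⟩

lemma htp_BH2b {H : ℝ → X → Y} (hH : Htp H S S') (B : Type) [TopologicalSpace B] :
    Htp (fun t => (Prod.map id (H t) : B × X → B × Y)) (up B S) (up B S') := by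
  refine ⟨?_, fun t ht => maps_BH2b (hH.map t ht) B⟩
  refine ContinuousOn.prodMk (continuous_fst.comp continuous_snd).continuousOn ?_
  exact hH.cont.comp (f := fun p : ℝ × B × X => (p.1, p.2.2)) (by fun_prop)
    fun p hp => ⟨hp.1, hp.2⟩

/-- a map homotopic to a stable isomorphism -/
theorem SIso.of_htp {H : ℝ → X → Y} (hH : Htp H S S') (t1 : ∀ t ∈ Icc (0 : ℝ) 1, MapsTo (H t) T T')
    (h : SIso (H 0) S T S' T') : SIso (H 1) S T S' T' := by
  have h1 : (1 : ℝ) ∈ Icc (0 : ℝ) 1 := ⟨zero_le_one, le_rfl⟩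
  refine ⟨hH.cont.comp (f := fun x : X => ((1 : ℝ), x)) (by fun_prop) fun x hx => ⟨h1, hx⟩,
    h.le, h.le', hH.map 1 h1, t1 1 h1, fun B _ => ?_⟩
  refine (h.iso B).congr (pr_cn (up_mono h.le)) (pr_cn (up_mono h.le')) fun z hz => ?_
  have := htp_BB (htp_BH2b hH B) (fun t ht => maps_BH2b (t1 t ht) B) hz
  rw [← neg_sub]
  exact Submodule.neg_mem _ this

theorem SIso.pair (h : SIso f S ∅ S' ∅) (h' : SIso f T ∅ T' ∅) (hT : T ⊆ S) (hT' : T' ⊆ S') :
    SIso f S T S' T' :=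
  ⟨h.cont, hT, hT', h.mS, h'.mS, fun B _ =>
    five_quot (pr_cn (up_mono hT)) (pr_cn (up_mono h'.le)) (pr_cn (up_mono hT'))
      (pr_cn (up_mono h'.le')) (cmap_pu (cont_BH2b h.cont B) (maps_BH2b h.mS B))
      (fun _ hc => pu_mem (maps_BH2b h'.mS B) hc) (fun _ hc => pu_mem (maps_BH2b h'.mT B) hc)
      (h'.iso B) (h.iso B)⟩

lemma ro_BH2b {A : Set X} (h : RO A S) (B : Type) [TopologicalSpace B] :
    RO (up B A) (up B S) := by
  obtain ⟨U, hU, rfl⟩ := h
  exact ⟨Prod.snd ⁻¹' U, hU.preimage continuous_snd, rfl⟩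

lemma exc_BH2b {S₁ S₂ : Set X} (h1 : RO S₁ (S₁ ∪ S₂)) (h2 : RO S₂ (S₁ ∪ S₂)) :
    HIso LinearMap.id (cn S₁) (cn (S₁ ∩ S₂)) (cn (S₁ ∪ S₂)) (cn S₂) := by
  have a1 := hiso_sup (stb_cn S₁) (stb_cn S₂)
  have a2 := (small_ro h1 h2).hiso_left (B := cn S₂)
    ⟨sup_le (cn_mono subset_union_left) (cn_mono subset_union_right), stb_cn _,
      (stb_cn _).sup (stb_cn _)⟩ ⟨le_sup_right, (stb_cn _).sup (stb_cn _), stb_cn _⟩
  rw [cn_inter]
  exact a2.comp a1

/-- excision -/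
theorem SIso.exc {S₁ A : Set X} (h1 : RO S₁ S) (h2 : RO (S \ A) S) (h3 : S ∩ A ⊆ S₁) :
    SIso id S₁ (S₁ \ A) S (S \ A) := by
  have hs : S₁ ⊆ S := by
    obtain ⟨U, -, rfl⟩ := h1
    exact inter_subset_left
  refine ⟨continuousOn_id, sdiff_subset, sdiff_subset, fun _ hx => hs hx,
    fun _ hx => ⟨hs hx.1, hx.2⟩, fun B _ => ?_⟩
  have e1 : up B S₁ ∪ up B (S \ A) = up B S := by
    ext x
    simp only [mem_union, mem_up, mem_sdiff]
    refine ⟨fun h => h.elim (fun h => hs h) fun h => h.1, fun h => ?_⟩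
    by_cases hA : x.2 ∈ A
    · exact Or.inl (h3 ⟨h, hA⟩)
    · exact Or.inr ⟨h, hA⟩
  have e2 : up B S₁ ∩ up B (S \ A) = up B (S₁ \ A) := by
    ext x
    simp only [mem_inter_iff, mem_up, mem_sdiff]
    exact ⟨fun h => ⟨h.1, h.2.2⟩, fun h => ⟨h.1, hs h.1, h.2⟩⟩
  have := exc_BH2b (S₁ := up B S₁) (S₂ := up B (S \ A)) (by rw [e1]; exact ro_BH2b h1 B)
    (by rw [e1]; exact ro_BH2b h2 B)
  rw [e1, e2] at this
  rw [Prod.map_id, pu_id]
  exact this

theorem SIso.acyc (h : SIso id T ∅ S ∅) (B : Type) [TopologicalSpace B] :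
    Acyc (cn (up B S)) (cn (up B T)) := by
  have := h.iso B
  rw [Prod.map_id, pu_id] at this
  exact this.acyc (pr_cn (up_mono h.mS)) (pr_cn (up_mono h.le))

lemma assoc_BH2b (hT : T ⊆ S) (A B : Type) [TopologicalSpace A] [TopologicalSpace B] :
    HIso (pu (fun x : A × B × X => ((x.1, x.2.1), x.2.2))) (cn (up A (up B S)))
      (cn (up A (up B T))) (cn (up (A × B) S)) (cn (up (A × B) T)) := by
  refine HIso.of_inv (k := pu (fun y : (A × B) × X => (y.1.1, y.1.2, y.2)))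
    (hmap_pu (by fun_prop) (fun _ hx => hx) (fun _ hx => hx))
    (hmap_pu (by fun_prop) (fun _ hx => hx) (fun _ hx => hx)) (fun z hz => ?_) (fun z hz => ?_)
  · rw [pu_pu (by fun_prop) hz.1, pu_of_eqOn ?_ hz.1, sub_self]
    · exact Submodule.zero_mem _
    · exact fun _ _ => rfl
  · rw [pu_pu (by fun_prop) hz.1, pu_of_eqOn ?_ hz.1, sub_self]
    · exact Submodule.zero_mem _
    · exact fun _ _ => rfl

theorem SIso.up (h : SIso f S T S' T') (B : Type) [TopologicalSpace B] :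
    SIso (Prod.map id f) (up B S) (up B T) (up B S') (up B T') := by
  refine ⟨cont_BH2b h.cont B, up_mono h.le, up_mono h.le', maps_BH2b h.mS B, maps_BH2b h.mT B,
    fun A _ => ?_⟩
  have c2 := cont_BH2b (cont_BH2b h.cont B) A
  refine HIso.of_comp_right
    (hmap_pu c2 (maps_BH2b (maps_BH2b h.mS B) A) (maps_BH2b (maps_BH2b h.mT B) A))
    (assoc_BH2b h.le' A B) ?_
  refine congr_BH2b ((h.iso (A × B)).comp (assoc_BH2b h.le A B)) (up_mono (up_mono h.le))
    (up_mono h.le') fun c hc => ?_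
  rw [LinearMap.comp_apply, LinearMap.comp_apply, pu_pu (by fun_prop) hc, pu_pu c2 hc]
  rfl

end Pool.Agent.Bet
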