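import Pool.Agent.P.MP_d34769_ag.BH2b
import Pool.Agent.P.MP_d34769_ag.BA3

/-! TASK BH3: shifts, equivalences, relatively open sets. -/

open Set

namespace Pool.Agent.Bet

variable {X Y Z : Type} [TopologicalSpace X] [TopologicalSpace Y] [TopologicalSpace Z]
  {f : X → Y} {S T A : Set X} {S' T' A' : Set Y} {S'' T'' : Set Z}

theorem SIso.rk (h : SIso f S T S' T') (k : ℕ) : RK S T k = RK S' T' k := by
  simpa [RK] using (rk_iso (gpr_cn h.le) (gpr_cn h.le') (deg_pu f) h.hiso).1 k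

theorem SIso.ont (h : SIso f S T S' T') (hA : A ⊆ S) (m : MapsTo f A A') (ho : Ont A S T) :
    Ont A' S' T' := by
  intro y hy
  obtain ⟨z, hz, e⟩ := h.hiso.srj y hy
  obtain ⟨a, ha, e'⟩ := ho z hz
  refine ⟨pu f a, mem_ZZ.2 ⟨pu_mem m ha.1, ?_⟩, ?_⟩
  · rw [← pu_D (h.cont.mono hA) ha.1, show D a = 0 from ha.2, map_zero]
    exact Submodule.zero_mem _
  · have := Submodule.add_mem _ (h.hiso.map.2 _ e') e
    simpa using this

theorem SIso.ont_back (h : SIso f S T S' T') (h' : SIso f A ∅ A' ∅) (hA : A ⊆ S)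
    (hA' : A' ⊆ S') (ho : Ont A' S' T') : Ont A S T := by
  intro z hz
  obtain ⟨a', ha', e'⟩ := ho _ (h.hiso.map.1 z hz)
  have h1 := h'.hiso
  simp only [cn_empty] at h1
  obtain ⟨a, ha, e⟩ := h1.srj a' ha'
  refine ⟨a, ha, h.hiso.inj _ (Submodule.sub_mem _ (ZZ_mono (cn_mono hA) bot_le ha) hz) ?_⟩
  have := Submodule.add_mem _ (BB_mono (cn_mono hA') bot_le e) e'
  simpa using this

theorem SIso.sh (h : SIso f S T S' T') : Sh 0 S' T' S T := by
  exact ⟨fun B _ k => (h.up B).rk k, fun B _ k hk => absurd hk (by simp),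
    fun B _ ho => (h.up B).ont subset_rfl (h.up B).mS ho⟩

theorem SIso.eqv (h : SIso f S T S' T') (h' : SIso f S ∅ S' ∅) : Eqv S T S' T' := by
  exact ⟨⟨fun B _ k => ((h.up B).rk k).symm, fun B _ k hk => absurd hk (by simp),
    fun B _ ho => (h.up B).ont_back (h'.up B) subset_rfl subset_rfl ho⟩, h.sh⟩

theorem SIso.eqv_empty (h : SIso f S ∅ S' ∅) : Eqv S ∅ S' ∅ := by
  exact h.eqv h

theorem SIso.so (h : SIso f S T S' T') (hA : A ⊆ S) (m : MapsTo f A A') (ho : SO A S T) :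
    SO A' S' T' := by
  exact fun B _ => (h.up B).ont (up_mono hA) (fun _ hx => m hx) (ho B)

theorem SIso.so_back (h : SIso f S T S' T') (h' : SIso f A ∅ A' ∅) (hA : A ⊆ S)
    (hA' : A' ⊆ S') (ho : SO A' S' T') : SO A S T := by
  exact fun B _ => (h.up B).ont_back (h'.up B) (up_mono hA) (up_mono hA') (ho B)

theorem SO.mono {A₁ : Set X} (h : SO A S T) (hA : A ⊆ A₁) : SO A₁ S T := by
  intro B _ y hy
  obtain ⟨z, hz, e⟩ := h B y hy
  exact ⟨z, ZZ_mono (cn_mono (up_mono hA)) le_rfl hz, e⟩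

theorem Sh.trans {m n : ℕ} (h : Sh m S T S' T') (h' : Sh n S' T' S'' T'') :
    Sh (m + n) S T S'' T'' := by
  refine ⟨fun B _ k => by rw [← add_assoc, h'.hi, h.hi], fun B _ k hk => ?_,
    fun B _ ho => h.ont B (h'.ont B ho)⟩
  by_cases hn : k < n
  · exact h'.lo B k hn
  · obtain ⟨j, rfl⟩ := Nat.exists_eq_add_of_le' (not_lt.1 hn)
    rw [h'.hi, h.lo B j (by omega)]

theorem Sh.so {m : ℕ} (h : Sh m S T S' T') (ho : SO S' S' T') : SO S S T := by
  exact fun B _ => h.ont B (ho B)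

theorem Eqv.symm (h : Eqv S T S' T') : Eqv S' T' S T := by
  exact ⟨h.2, h.1⟩

theorem Eqv.trans (h : Eqv S T S' T') (h' : Eqv S' T' S'' T'') : Eqv S T S'' T'' := by
  exact ⟨h.1.trans h'.1, h'.2.trans h.2⟩

theorem RO.refl (S : Set X) : RO S S := by
  exact ⟨univ, isOpen_univ, (inter_univ _).symm⟩

theorem RO.subset (h : RO A S) : A ⊆ S := by
  obtain ⟨U, -, rfl⟩ := h
  exact inter_subset_left

theorem RO.trans (h : RO A T) (h' : RO T S) : RO A S := by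
  obtain ⟨U, hU, rfl⟩ := h
  obtain ⟨V, hV, rfl⟩ := h'
  exact ⟨V ∩ U, hV.inter hU, inter_assoc _ _ _⟩

theorem RO.inter (h : RO A S) (h' : RO T S) : RO (A ∩ T) S := by
  obtain ⟨U, hU, rfl⟩ := h
  obtain ⟨V, hV, rfl⟩ := h'
  exact ⟨U ∩ V, hU.inter hV, (inter_inter_distrib_left _ _ _).symm⟩

theorem RO.union (h : RO A S) (h' : RO T S) : RO (A ∪ T) S := by
  obtain ⟨U, hU, rfl⟩ := h
  obtain ⟨V, hV, rfl⟩ := h'
  exact ⟨U ∪ V, hU.union hV, (inter_union_distrib_left _ _ _).symm⟩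

theorem RO.restrict (h : RO A S) (hT : T ⊆ S) : RO (A ∩ T) T := by
  obtain ⟨U, hU, rfl⟩ := h
  exact ⟨U, hU, Set.ext fun x => ⟨fun h => ⟨h.2, h.1.2⟩, fun h => ⟨⟨hT h.1, h.2⟩, h.1⟩⟩⟩

theorem RO.of_subset (h : RO A S) (h1 : A ⊆ T) (h2 : T ⊆ S) : RO A T := by
  simpa only [inter_eq_left.2 h1] using h.restrict h2

theorem RO.preimage (h : RO A' S') (cf : ContinuousOn f S) (m : MapsTo f S S') :
    RO (S ∩ f ⁻¹' A') S := by
  obtain ⟨U, hU, rfl⟩ := h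
  obtain ⟨V, hV, e⟩ := continuousOn_iff'.1 cf U hU
  refine ⟨V, hV, ?_⟩
  rw [inter_comm S V, ← e]
  exact Set.ext fun x => ⟨fun h => ⟨h.2.2, h.1⟩, fun h => ⟨h.2, m h.2, h.1⟩⟩

theorem RO.of_isOpen (cf : ContinuousOn f S) (h : IsOpen A') : RO (S ∩ f ⁻¹' A') S := by
  exact RO.preimage ⟨A', h, (univ_inter _).symm⟩ cf (mapsTo_univ _ _)

theorem RO.of_isClosed (h : IsClosed A) (S : Set X) : RO (S \ A) S := by
  exact ⟨Aᶜ, h.isOpen_compl, rfl⟩

theorem RO.prod (h : RO A S) (h' : RO A' S') : RO (A ×ˢ A') (S ×ˢ S') := by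
  obtain ⟨U, hU, rfl⟩ := h
  obtain ⟨V, hV, rfl⟩ := h'
  exact ⟨U ×ˢ V, hU.prod hV, prod_inter_prod.symm⟩

theorem RO.up (h : RO A S) (B : Type) [TopologicalSpace B] : RO (up B A) (up B S) := by
  obtain ⟨U, hU, rfl⟩ := h
  exact ⟨Prod.snd ⁻¹' U, hU.preimage continuous_snd, rfl⟩

/-- The projection from a product with a contractible set. -/
theorem SIso.snd_ctr (C : Set X) [ContractibleSpace C] (S' : Set Y) :
    SIso Prod.snd (C ×ˢ S') ∅ S' ∅ := by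
  obtain ⟨x₀, h0, H, hH, e0, e1⟩ := exists_htp C
  refine SIso.of_he (k := fun y => (x₀, y)) (H := fun t x => (H t x.1, x.2)) (H' := fun _ y => y)
    (empty_subset _) (empty_subset _) continuous_snd.continuousOn (by fun_prop)
    (fun _ h => h.2) (fun _ h => h.elim) (fun _ h => ⟨h0, h⟩) (fun _ h => h.elim)
    ⟨?_, fun t ht x h => ⟨hH.map t ht h.1, h.2⟩⟩ ⟨by fun_prop, fun _ _ _ h => h⟩
    (fun _ _ _ h => h.elim) (fun _ _ _ h => h.elim) (fun x h => by rw [e0 _ h.1])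
    (fun x h => by rw [e1 _ h.1]) (fun _ _ => rfl) fun _ _ => rfl
  exact (hH.cont.comp (f := fun p : ℝ × X × Y => (p.1, p.2.1)) (by fun_prop)
    fun _ h => ⟨h.1, h.2.1⟩).prodMk (by fun_prop)

end Pool.Agent.Bet
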