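import Pool.Agent.P.MP_d34769_ag.BT1

/-! TASK BL1: the boundary formula for the cap product. -/

open Set

namespace Pool.Agent.Bet

open G (Dl face)

variable {X : Type} [TopologicalSpace X]

/-- The simplex with the vertices `v 0, …, v a` of `σ`. -/
noncomputable def vs_BL1 {N : ℕ} (σ : C(Dl N, X)) (a : ℕ) (v : ℕ → Fin N) : TC X :=
  sx a (σ.comp ⟨stdSimplex.map fun j : Fin (a + 1) => v j, stdSimplex.continuous_map _⟩)

/-- The list of vertices with the entry `j` removed. -/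
def sk_BL1 {α : Type} (j : ℕ) (v : ℕ → α) : ℕ → α := fun l => if l < j then v l else v (l + 1)

lemma vs_congr_BL1 {N : ℕ} (σ : C(Dl N, X)) {a : ℕ} {v w : ℕ → Fin N}
    (h : ∀ j ≤ a, v j = w j) : vs_BL1 σ a v = vs_BL1 σ a w := by
  have : (fun j : Fin (a + 1) => v j) = fun j : Fin (a + 1) => w j :=
    funext fun j => h j (Nat.lt_succ_iff.1 j.2)
  simp only [vs_BL1, this]

lemma vs_comp_BL1 {N a b : ℕ} (σ : C(Dl N, X)) (v w : ℕ → Fin N) (g : Fin (b + 1) → Fin (a + 1))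
    (h : ∀ j, v (g j) = w j) :
    sx b ((σ.comp ⟨stdSimplex.map fun j : Fin (a + 1) => v j, stdSimplex.continuous_map _⟩).comp
      ⟨stdSimplex.map g, stdSimplex.continuous_map _⟩) = vs_BL1 σ b w := by
  unfold vs_BL1
  refine congrArg (sx b) (ContinuousMap.ext fun t => ?_)
  change σ (stdSimplex.map _ (stdSimplex.map _ t)) = σ (stdSimplex.map _ t)
  rw [stdSimplex.map_comp_apply]
  exact congrArg (fun u => σ (stdSimplex.map u t)) (funext h)

lemma D_vs_BL1 {N : ℕ} (σ : C(Dl N, X)) (a : ℕ) (v : ℕ → Fin N) :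
    D (vs_BL1 σ (a + 1) v) =
      ∑ j ∈ Finset.range (a + 2), (-1 : ℚ) ^ j • vs_BL1 σ a (sk_BL1 j v) := by
  rw [vs_BL1, D_sx_succ, Finset.sum_range]
  refine Finset.sum_congr rfl fun i _ => congrArg _ (vs_comp_BL1 σ v _ _ fun j => ?_)
  unfold sk_BL1 Fin.succAbove
  by_cases h : (j : ℕ) < i
  · rw [if_pos h, if_pos (by simpa [Fin.lt_def] using h)]; rfl
  · rw [if_neg h, if_neg (by simpa [Fin.lt_def] using h)]; rfl

lemma D_vs_zero_BL1 {N : ℕ} (σ : C(Dl N, X)) (v : ℕ → Fin N) : D (vs_BL1 σ 0 v) = 0 :=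
  D_sx_zero _

lemma eps_vs_BL1 {N : ℕ} (σ : C(Dl N, X)) (a : ℕ) (v : ℕ → Fin N) :
    eps (vs_BL1 σ a v) = (-1 : ℚ) ^ a • vs_BL1 σ a v := eps_sx _ _

lemma cap_vs_BL1 (ω : TC X →ₗ[ℚ] ℚ) {N : ℕ} (σ : C(Dl N, X)) (k : ℕ) (v : ℕ → Fin N) :
    cap ω (vs_BL1 σ k v) = ∑ i ∈ Finset.range (k + 1),
      ω (vs_BL1 σ (k - i) fun l => v (i + l)) • vs_BL1 σ i v := by
  rw [vs_BL1, cap_sx, Finset.sum_range]
  refine Finset.sum_congr rfl fun i _ => ?_
  exact congrArg₂ (fun a b => ω a • b) (vs_comp_BL1 σ v (fun l => v (i + l)) _ fun _ => rfl)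
    (vs_comp_BL1 σ v v _ fun _ => rfl)

lemma cap_term_BL1 (ω : TC X →ₗ[ℚ] ℚ) {N : ℕ} (σ : C(Dl N, X)) (i d : ℕ) (v : ℕ → Fin N) :
    ∑ j ∈ Finset.range (i + 1 + (d + 1)), (-1 : ℚ) ^ j •
      ω (vs_BL1 σ d fun l => sk_BL1 j v (i + l)) • vs_BL1 σ i (sk_BL1 j v) =
    ω (vs_BL1 σ d fun l => v (i + 1 + l)) • D (vs_BL1 σ (i + 1) v) +
      ω (D (vs_BL1 σ (d + 1) fun l => v (i + l))) • (-1 : ℚ) ^ i • vs_BL1 σ i v := by
  rw [Finset.sum_range_add, D_vs_BL1, D_vs_BL1, Finset.sum_range_succ _ (i + 1),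
    Finset.sum_range_succ' _ (d + 1), smul_add, map_add, add_smul, Finset.smul_sum, map_sum,
    Finset.sum_smul]
  have e1 : vs_BL1 σ i (sk_BL1 (i + 1) v) = vs_BL1 σ i v :=
    vs_congr_BL1 σ fun j hj => if_pos (by omega)
  have e2 : vs_BL1 σ d (sk_BL1 0 fun l => v (i + l)) = vs_BL1 σ d fun l => v (i + 1 + l) :=
    vs_congr_BL1 σ fun j _ => (if_neg (by omega)).trans (congrArg v (by omega))
  have e3 : ∀ j ∈ Finset.range (i + 1), (-1 : ℚ) ^ j •
      ω (vs_BL1 σ d fun l => sk_BL1 j v (i + l)) • vs_BL1 σ i (sk_BL1 j v) =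
      ω (vs_BL1 σ d fun l => v (i + 1 + l)) • (-1 : ℚ) ^ j • vs_BL1 σ i (sk_BL1 j v) := by
    intro j hj
    have hj' := Finset.mem_range.1 hj
    have a1 : (vs_BL1 σ d fun l => sk_BL1 j v (i + l)) = vs_BL1 σ d fun l => v (i + 1 + l) :=
      vs_congr_BL1 σ fun l _ => (if_neg (by omega)).trans (congrArg v (by omega))
    rw [smul_comm, a1]
  have e4 : ∀ m ∈ Finset.range (d + 1), (-1 : ℚ) ^ (i + 1 + m) •
      ω (vs_BL1 σ d fun l => sk_BL1 (i + 1 + m) v (i + l)) • vs_BL1 σ i (sk_BL1 (i + 1 + m) v) =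
      ω ((-1 : ℚ) ^ (m + 1) • vs_BL1 σ d (sk_BL1 (m + 1) fun l => v (i + l))) •
        (-1 : ℚ) ^ i • vs_BL1 σ i v := by
    intro m _
    have a1 : vs_BL1 σ i (sk_BL1 (i + 1 + m) v) = vs_BL1 σ i v :=
      vs_congr_BL1 σ fun j hj => if_pos (by omega)
    have a2 : (vs_BL1 σ d fun l => sk_BL1 (i + 1 + m) v (i + l)) =
        vs_BL1 σ d (sk_BL1 (m + 1) fun l => v (i + l)) := by
      refine vs_congr_BL1 σ fun j _ => ?_
      unfold sk_BL1
      by_cases h : j < m + 1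
      · rw [if_pos h, if_pos (by omega)]
      · rw [if_neg h, if_neg (by omega)]; rfl
    rw [a1, a2, map_smul, smul_smul, smul_smul, smul_eq_mul]
    congr 1
    ring
  rw [Finset.sum_congr rfl e3, Finset.sum_congr rfl e4, e1, e2, pow_zero, one_smul, pow_succ,
    mul_neg_one, neg_smul, smul_neg]
  abel

lemma cap_D_vs_BL1 (ω : TC X →ₗ[ℚ] ℚ) {N : ℕ} (σ : C(Dl N, X)) (k : ℕ) (v : ℕ → Fin N) :
    cap ω (D (vs_BL1 σ k v)) =
      D (cap ω (vs_BL1 σ k v)) + eps (cap (ω ∘ₗ D) (vs_BL1 σ k v)) := by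
  cases k with
  | zero => simp [cap_vs_BL1, D_vs_zero_BL1]
  | succ k =>
    rw [cap_vs_BL1 ω, cap_vs_BL1 (ω ∘ₗ D), Finset.sum_range_succ' _ (k + 1),
      Finset.sum_range_succ _ (k + 1), D_vs_BL1]
    simp only [map_add, map_sum, map_smul, D_vs_zero_BL1, Nat.sub_self, LinearMap.comp_apply,
      map_zero, smul_zero, zero_smul, add_zero, cap_vs_BL1, eps_vs_BL1, Finset.smul_sum]
    rw [Finset.sum_comm, ← Finset.sum_add_distrib]
    refine Finset.sum_congr rfl fun i hi => ?_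
    obtain ⟨d, rfl⟩ : ∃ d, k = i + d := ⟨k - i, by have := Finset.mem_range.1 hi; omega⟩
    have e1 : i + d - i = d := by omega
    have e2 : i + d + 1 - (i + 1) = d := by omega
    have e3 : i + d + 1 - i = d + 1 := by omega
    have e4 : i + d + 2 = i + 1 + (d + 1) := by omega
    rw [e1, e2, e3, e4]
    exact cap_term_BL1 ω σ i d v

theorem cap_D (ω : TC X →ₗ[ℚ] ℚ) (c : TC X) :
    cap ω (D c) = D (cap ω c) + eps (cap (ω ∘ₗ D) c) := by
  refine LinearMap.congr_fun (TC.ext (f := cap ω ∘ₗ D)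
    (g := D ∘ₗ cap ω + eps ∘ₗ cap (ω ∘ₗ D)) fun k σ => ?_) c
  have e : sx k σ = vs_BL1 σ k fun j => ⟨min j k, by omega⟩ := by
    unfold vs_BL1
    refine congrArg (sx k) (ContinuousMap.ext fun t => ?_)
    have : (fun j : Fin (k + 1) => (⟨min j k, by omega⟩ : Fin (k + 1))) = id :=
      funext fun j => Fin.ext (min_eq_left (Nat.lt_succ_iff.1 j.2))
    change σ t = σ (stdSimplex.map _ t)
    rw [this, stdSimplex.map_id_apply]
  rw [e]
  exact cap_D_vs_BL1 ω σ k _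

end Pool.Agent.Bet
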