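import Pool.Agent.P.MP_d34769_ag.BL1
import Pool.Agent.P.MP_d34769_ag.BH1
import Pool.Agent.P.MP_d34769_ag.BA4

/-! TASK BL2: properties of cap and slant products. -/

open Set

namespace Pool.Agent.Bet

variable {X Y F : Type} [TopologicalSpace X] [TopologicalSpace Y] [TopologicalSpace F]
  {ω ω' : TC X →ₗ[ℚ] ℚ} {S A A₀ : Set X} {c : TC X}

theorem cap_mem (ω : TC X →ₗ[ℚ] ℚ) (hc : c ∈ cn S) : cap ω c ∈ cn S := by
  refine map_mem_of_cn (cap ω) _ (fun k σ hσ => ?_) hc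
  rw [cap_sx]
  exact Submodule.sum_mem _ fun i _ => Submodule.smul_mem _ _ (sx_mem fun t => hσ _)

theorem cap_congr (h : ∀ a ∈ cn S, ω a = ω' a) (hc : c ∈ cn S) : cap ω c = cap ω' c := by
  refine eq_of_cn (fun k σ hσ => ?_) hc
  rw [cap_sx, cap_sx]
  exact Finset.sum_congr rfl fun i _ => by rw [h _ (sx_mem (σ := σ.comp (bk i)) fun t => hσ _)]

theorem cap_zero (h : ∀ a ∈ cn S, ω a = 0) (hc : c ∈ cn S) : cap ω c = 0 := by
  refine eq_of_cn (ψ := 0) (fun k σ hσ => ?_) hc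
  rw [cap_sx]
  exact Finset.sum_eq_zero fun i _ => by
    rw [h _ (sx_mem (σ := σ.comp (bk i)) fun t => hσ _), zero_smul]

theorem cap_sub (ω ω' : TC X →ₗ[ℚ] ℚ) (c : TC X) : cap (ω - ω') c = cap ω c - cap ω' c := by
  refine LinearMap.congr_fun (TC.ext (f := cap (ω - ω')) (g := cap ω - cap ω') fun k σ => ?_) c
  simp only [LinearMap.sub_apply, cap_sx, sub_smul, Finset.sum_sub_distrib]

theorem cap_smul (a : ℚ) (ω : TC X →ₗ[ℚ] ℚ) (c : TC X) : cap (a • ω) c = a • cap ω c := by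
  refine LinearMap.congr_fun (TC.ext (f := cap (a • ω)) (g := a • cap ω) fun k σ => ?_) c
  simp only [LinearMap.smul_apply, cap_sx, smul_assoc, Finset.smul_sum]

theorem cap_aug (c : TC X) : cap aug c = c := by
  refine LinearMap.congr_fun (TC.ext (f := cap aug) (g := LinearMap.id) fun k σ => ?_) c
  rw [cap_sx, Finset.sum_eq_single (Fin.last k)]
  · rw [aug_sx, if_pos (by simp), one_smul]
    change sx k (σ.comp (fr (Fin.last k))) = sx k σ
    congr 1
    ext t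
    exact congrArg σ (stdSimplex.map_id_apply t)
  · intro i _ hi
    have h1 := i.2
    have h2 : (i : ℕ) ≠ k := fun h => hi (Fin.ext h)
    rw [aug_sx, if_neg (by omega), zero_smul]
  · simp

theorem cap_nat {f : X → Y} (hf : ContinuousOn f S) (η : TC Y →ₗ[ℚ] ℚ) (hc : c ∈ cn S) :
    pu f (cap (η ∘ₗ pu f) c) = cap η (pu f c) := by
  refine eq_of_cn (φ := pu f ∘ₗ cap (η ∘ₗ pu f)) (ψ := cap η ∘ₗ pu f) (fun k σ hσ => ?_) hc
  simp only [LinearMap.comp_apply]
  rw [pu_sx' f σ (cont_comp hf hσ), cap_sx, cap_sx, map_sum]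
  refine Finset.sum_congr rfl fun i _ => ?_
  rw [map_smul, LinearMap.comp_apply, pu_sx' f (σ.comp (bk i)) (cont_comp hf fun t => hσ _),
    pu_sx' f (σ.comp (fr i)) (cont_comp hf fun t => hσ _)]
  rfl

theorem cap_deg {m : ℕ} (h : ∀ k, k ≠ m → ∀ c, ω (pr k c) = 0) : Deg m (cap ω) := by
  have h0 : ∀ j, j ≠ m → ∀ τ, ω (sx j τ) = 0 := fun j hj τ => by
    have := h j hj (sx j τ)
    rwa [pr_sx, if_pos rfl] at this
  refine ⟨fun k c => LinearMap.congr_fun (TC.ext (f := cap ω ∘ₗ pr (k + m)) (g := pr k ∘ₗ cap ω)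
    fun l σ => ?_) c, fun k hk c =>
      LinearMap.congr_fun (TC.ext (f := cap ω ∘ₗ pr k) (g := 0) fun l σ => ?_) c⟩
  · simp only [LinearMap.comp_apply]
    rw [pr_sx, cap_sx, map_sum]
    split_ifs with e
    · rw [cap_sx]
      refine Finset.sum_congr rfl fun i _ => ?_
      have h1 := i.2
      rw [map_smul, pr_sx]
      split_ifs with e'
      · rfl
      · rw [h0 _ (by omega), zero_smul, zero_smul]
    · rw [map_zero]
      refine (Finset.sum_eq_zero fun i _ => ?_).symm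
      have h1 := i.2
      rw [map_smul, pr_sx]
      split_ifs with e'
      · rw [h0 _ (by omega), zero_smul]
      · rw [smul_zero]
  · simp only [LinearMap.comp_apply, LinearMap.zero_apply]
    rw [pr_sx]
    split_ifs with e
    · rw [cap_sx]
      exact Finset.sum_eq_zero fun i _ => by rw [h0 _ (by omega), zero_smul]
    · exact map_zero _

theorem cap_cmap (h : ∀ a ∈ cn A, ω (D a) = 0) : CMap (cap ω) (cn A) (cn A) := by
  intro c hc
  refine ⟨cap_mem ω hc, ?_⟩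
  rw [cap_D, cap_zero (ω := ω ∘ₗ D) h hc, map_zero, add_zero]

/-- cohomologous cocycles give homologous cap products -/
theorem cap_coh (hA : A₀ ⊆ A) (h : ∀ z ∈ ZZ (cn A) (cn A₀), ω z = ω' z)
    (hz : c ∈ ZZ (cn A) (cn A₀)) : cap ω c - cap ω' c ∈ BB (cn A) ⊥ := by
  obtain ⟨β, h1, h2⟩ := exists_cobd (pr_cn hA) (ω := ω - ω')
    fun z hz => by rw [LinearMap.sub_apply, h z hz, sub_self]
  have h3 := cap_D β c
  rw [cap_zero h1 hz.2] at h3
  have h4 : cap (β ∘ₗ D) c = D (eps (cap β c)) := by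
    rw [← eps_eps (cap (β ∘ₗ D) c), eq_neg_of_add_eq_zero_right h3.symm, map_neg, eps_D, neg_neg]
  rw [← cap_sub, cap_congr (ω' := β ∘ₗ D) h2 hz.1, h4]
  exact D_mem_BB (eps_mem (cap_mem β hz.1))

theorem aug_D (c : TC X) : aug (D c) = 0 := by
  refine LinearMap.congr_fun (TC.ext (f := aug ∘ₗ D) (g := 0) fun k σ => ?_) c
  rcases k with _ | _ | k
  · simp
  · simp [D_sx_succ, Fin.sum_univ_two]
  · simp [D_sx_succ]

theorem aug_pu {f : X → Y} (hf : ContinuousOn f S) (hc : c ∈ cn S) : aug (pu f c) = aug c := by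
  refine eq_of_cn (φ := aug ∘ₗ pu f) (fun k σ hσ => ?_) hc
  rw [LinearMap.comp_apply, pu_sx' f σ (cont_comp hf hσ), aug_sx, aug_sx]

/-- the contraction of the chains of a point -/
noncomputable def ctr_BL2 (x : X) : TC X →ₗ[ℚ] TC X :=
  lift fun k _ => if Even k then 0 else sx (k + 1) (ContinuousMap.const _ x)

theorem pu_const_BL2 (x : X) (c : TC X) : pu (fun _ => x) c =
    D (ctr_BL2 x c) + ctr_BL2 x (D c) + aug c • sx 0 (ContinuousMap.const _ x) := by
  refine LinearMap.congr_fun (TC.ext (f := pu fun _ => x) (g := D ∘ₗ ctr_BL2 x + ctr_BL2 x ∘ₗ D +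
    aug.smulRight (sx 0 (ContinuousMap.const _ x))) fun k σ => ?_) c
  have h0 : pu (fun _ => x) (sx k σ) = sx k (ContinuousMap.const _ x) :=
    pu_sx (ContinuousMap.const X x) σ
  have h1 : ∀ l (τ : C(G.Dl (l + 1), X)), ctr_BL2 x (sx l τ) =
      if Even l then 0 else sx (l + 1) (ContinuousMap.const _ x) := fun l τ => lift_sx _ _ _
  simp only [LinearMap.add_apply, LinearMap.comp_apply, LinearMap.smulRight_apply, h0, aug_sx]
  cases k with
  | zero => simp [h1]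
  | succ k =>
    rw [if_neg k.succ_ne_zero, zero_smul, add_zero, D_sx_succ, map_sum]
    simp only [map_smul, h1, ← Finset.sum_smul, Fin.sum_neg_one_pow]
    by_cases hk : Even k
    · rw [if_neg (Nat.even_add_one.not.2 (not_not.2 hk)), if_pos hk, smul_zero, add_zero,
        D_sx_succ]
      simp only [ContinuousMap.const_comp, ← Finset.sum_smul, Fin.sum_neg_one_pow]
      rw [if_neg (by simpa [Nat.even_add] using hk), one_smul]
    · rw [if_pos (Nat.even_add_one.2 hk), if_neg hk, map_zero, zero_add,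
        if_neg (by simpa [Nat.even_add] using hk), one_smul]

/-- on a contractible set a cocycle is a multiple of the augmentation on cycles -/
theorem coc_ctr (C : Set X) [ContractibleSpace C] (h : ∀ a ∈ cn C, ω (D a) = 0) :
    ∃ a : ℚ, ∀ z ∈ ZZ (cn C) ⊥, ω z = a * aug z := by
  obtain ⟨x₀, hx, H, hH, e0, e1⟩ := exists_htp C
  refine ⟨ω (sx 0 (ContinuousMap.const _ x₀)), fun z hz => ?_⟩
  have h1 := htp_BB (T := ∅) (T' := ∅) hH (fun _ _ => mapsTo_empty _ _) (z := z) (by simpa using hz)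
  rw [pu_of_eqOn e0 hz.1, pu_congr (g := fun _ => x₀) e1 hz.1, cn_empty] at h1
  obtain ⟨b, hb, h2⟩ := mem_BB.1 h1
  have h3 : z = pu (fun _ => x₀) z - D b := by
    rw [← sub_eq_zero.1 (Submodule.mem_bot ℚ |>.1 h2)]; abel
  have h4 : D z = 0 := hz.2
  have h5 : ctr_BL2 x₀ z ∈ cn C := by
    refine map_mem_of_cn (ctr_BL2 x₀) _ (fun k σ _ => ?_) hz.1
    rw [ctr_BL2, lift_sx]
    split_ifs
    · exact Submodule.zero_mem _
    · exact sx_mem fun _ => hx
  have h6 : ω z = ω (pu (fun _ => x₀) z) := by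
    conv_lhs => rw [h3, map_sub, h b hb, sub_zero]
  rw [h6, pu_const_BL2, h4, map_zero, add_zero, map_add, h _ h5, zero_add, map_smul, smul_eq_mul,
    mul_comm]

theorem sl_deg {η : TC F →ₗ[ℚ] ℚ} {m : ℕ} (h : ∀ k, k ≠ m → ∀ c, η (pr k c) = 0) :
    Deg m (sl η : TC (X × F) →ₗ[ℚ] TC X) := by
  have := cap_deg (ω := η ∘ₗ pu (Prod.snd : X × F → F)) (m := m) fun k hk c => by
    rw [LinearMap.comp_apply, pu_pr, h k hk]
  refine ⟨fun k c => ?_, fun k hk c => ?_⟩
  · simp only [sl, LinearMap.comp_apply]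
    rw [this.1, pu_pr]
  · simp only [sl, LinearMap.comp_apply]
    rw [this.2 k hk, map_zero]

theorem sl_mem (η : TC F →ₗ[ℚ] ℚ) {S' : Set (X × F)} (h : MapsTo Prod.fst S' S) {c : TC (X × F)}
    (hc : c ∈ cn S') : sl η c ∈ cn S := by
  exact pu_mem h (cap_mem _ hc)

theorem sl_zero {η : TC F →ₗ[ℚ] ℚ} {E : Set F} (h0 : ∀ a ∈ cn E, η a = 0) {S' : Set (X × F)}
    (h : MapsTo Prod.snd S' E) {c : TC (X × F)} (hc : c ∈ cn S') : sl η c = 0 := by
  rw [sl, LinearMap.comp_apply,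
    cap_zero (ω := η ∘ₗ pu Prod.snd) (fun a ha => h0 _ (pu_mem h ha)) hc, map_zero]

theorem sl_cmap {η : TC F →ₗ[ℚ] ℚ} {E : Set F} (h0 : ∀ a ∈ cn E, η (D a) = 0) {S' : Set (X × F)}
    (h1 : MapsTo Prod.fst S' S) (h2 : MapsTo Prod.snd S' E) : CMap (sl η) (cn S') (cn S) := by
  intro c hc
  refine ⟨sl_mem η h1 hc, ?_⟩
  have := cap_cmap (ω := η ∘ₗ pu (Prod.snd : X × F → F)) (A := S') (fun a ha => by
    rw [LinearMap.comp_apply, pu_D continuousOn_snd ha, h0 _ (pu_mem h2 ha)]) c hc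
  simp only [sl, LinearMap.comp_apply]
  rw [this.2, pu_D continuousOn_fst this.1]

theorem sl_pu (η : TC F →ₗ[ℚ] ℚ) {Θ : X → Y × F} (hΘ : ContinuousOn Θ S) (hc : c ∈ cn S) :
    sl η (pu Θ c) = pu (fun x => (Θ x).1) (cap (η ∘ₗ pu fun x => (Θ x).2) c) := by
  rw [sl, LinearMap.comp_apply, ← cap_nat hΘ _ hc, pu_pu hΘ (cap_mem _ hc),
    cap_congr (ω' := η ∘ₗ pu fun x => (Θ x).2) (fun a ha => congrArg η (pu_pu hΘ ha)) hc]
  rfl

end Pool.Agent.Bet
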