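import Pool.Agent.P.MP_d34769_ag.BL2
import Pool.Agent.P.MP_d34769_ag.BH3

/-! TASK BL3: transfer of generating cocycles. -/

open Set

namespace Pool.Agent.Bet

variable {F F' : Type} [TopologicalSpace F] [TopologicalSpace F'] {m : ℕ} {e : F → F'}
  {A A₀ : Set F} {A' A₀' A'' : Set F'}

lemma aux1_BL3 {W : Type} [TopologicalSpace W] (he : ContinuousOn e A) (ω : TC F' →ₗ[ℚ] ℚ)
    {c : TC (W × F)} (hc : c ∈ cn (up W A)) :
    sl ω (pu (Prod.map id e : W × F → W × F') c) = sl (ω ∘ₗ pu e) c := by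
  have h1 : ContinuousOn (Prod.map id e : W × F → W × F') (up W A) :=
    continuous_fst.continuousOn.prodMk (he.comp continuous_snd.continuousOn fun _ hx => hx)
  rw [sl_pu ω h1 hc]
  simp only [sl, LinearMap.comp_apply]
  congr 1
  refine cap_congr (fun a ha => ?_) hc
  simp only [LinearMap.comp_apply]
  rw [pu_pu continuous_snd.continuousOn ha]
  rfl

lemma aux2_BL3 {W : Type} [TopologicalSpace W] (hA : A₀ ⊆ A) {ω ω' : TC F →ₗ[ℚ] ℚ}
    (h : ∀ z ∈ ZZ (cn A) (cn A₀), ω z = ω' z) {z : TC (W × F)}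
    (hz : z ∈ ZZ (cn (up W A)) (cn (up W A₀))) :
    sl ω z - sl ω' z ∈ BB (⊤ : Submodule ℚ (TC W)) ⊥ := by
  have h1 : HMap (pu (Prod.snd : W × F → F)) (cn (up W A)) (cn (up W A₀)) (cn A) (cn A₀) :=
    hmap_pu continuous_snd.continuousOn (fun _ hx => hx) (fun _ hx => hx)
  have h2 := cap_coh (ω := ω ∘ₗ pu (Prod.snd : W × F → F)) (ω' := ω' ∘ₗ pu Prod.snd)
    (up_mono hA) (fun y hy => h _ (h1.1 y hy)) hz
  have h3 : HMap (pu (Prod.fst : W × F → W)) (cn (up W A)) (cn ∅) (cn univ) (cn ∅) :=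
    hmap_pu continuous_fst.continuousOn (mapsTo_univ _ _) (fun _ hx => hx.elim)
  rw [cn_empty, cn_empty, cn_univ] at h3
  have h4 := h3.2 _ h2
  rwa [map_sub] at h4

lemma aux3_BL3 {ω : TC F →ₗ[ℚ] ℚ} (h : ∀ k, k ≠ m → ∀ c, ω (pr k c) = 0) (c : TC F) :
    ω (pr m c) = ω c := by
  refine LinearMap.congr_fun (TC.ext (f := ω ∘ₗ pr m) (g := ω) fun k σ => ?_) c
  rw [LinearMap.comp_apply, pr_sx]
  split_ifs with hk
  · rfl
  · have h1 := h k (fun h2 => hk h2.symm) (sx k σ)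
    rw [pr_sx, if_pos rfl] at h1
    rw [h1, map_zero]

lemma aux4_BL3 (W : Type) [TopologicalSpace W] : GPr (⊤ : Submodule ℚ (TC W)) ⊥ := by
  simpa using gpr_bot (univ : Set W)

theorem kun_pull (h : SIso e A A₀ A' A₀') {ω : TC F' →ₗ[ℚ] ℚ} (hω : Coc m ω A' A₀')
    (hk : Kun ω A' A₀') : Coc m (ω ∘ₗ pu e) A A₀ ∧ Kun (ω ∘ₗ pu e) A A₀ := by
  refine ⟨⟨fun c hc => hω.bb _ ((hmap_pu h.cont h.mS h.mT).2 c hc), fun k hk' c => ?_⟩,
    fun W _ => ?_⟩
  · rw [LinearMap.comp_apply, pu_pr]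
    exact hω.dg k hk' _
  · refine ((hk W).comp (h.iso W)).congr (pr_cn (up_mono h.le)) (aux4_BL3 W).toPr fun z hz => ?_
    rw [LinearMap.comp_apply, aux1_BL3 h.cont ω hz.1, sub_self]
    exact Submodule.zero_mem _

theorem kun_push (h : SIso e A A₀ A' A₀') (hA : A' ⊆ A'')
    (hi : Inj LinearMap.id (cn A') (cn A₀') (cn A'') (cn A₀')) {ω : TC F →ₗ[ℚ] ℚ}
    (hω : Coc m ω A A₀) (hk : Kun ω A A₀) : ∃ ω', Coc m ω' A'' A₀' ∧ Kun ω' A' A₀' := by
  have h1 : Inj (pu e) (cn A) (cn A₀) (cn A'') (cn A₀') := fun z hz hb =>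
    h.hiso.inj z hz (hi _ (h.hiso.map.1 z hz) hb)
  obtain ⟨η, h2, h3⟩ := exists_ext h1 hω.bb
  have h4 : Coc m (η ∘ₗ pr m) A'' A₀' := by
    refine ⟨fun c hc => h2 _ ((gpr_cn (h.le'.trans hA)).grd_BB m c hc), fun k hk' c => ?_⟩
    rw [LinearMap.comp_apply, pr_pr, if_neg (fun h5 => hk' h5.symm), map_zero]
  refine ⟨η ∘ₗ pr m, h4, fun W _ => ?_⟩
  refine (h.iso W).of_comp_left ?_ ?_
  · have h5 : CMap (sl (η ∘ₗ pr m) : TC (W × F') →ₗ[ℚ] TC W) (cn (up W A')) (cn univ) :=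
      sl_cmap (E := A') (fun a ha => h4.bb _ (D_mem_BB (cn_mono hA ha))) (mapsTo_univ _ _)
        (fun _ hx => hx)
    rw [cn_univ] at h5
    refine h5.hmap fun c hc => ?_
    rw [sl_zero (E := A₀') (fun a ha => h4.bb _ (mem_BB_of_mem ha)) (fun _ hx => hx) hc]
    exact Submodule.zero_mem _
  · refine (hk W).congr (pr_cn (up_mono h.le)) (aux4_BL3 W).toPr fun z hz => ?_
    rw [LinearMap.comp_apply, aux1_BL3 h.cont _ hz.1]
    refine aux2_BL3 h.le (fun y hy => ?_) hz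
    rw [LinearMap.comp_apply, LinearMap.comp_apply, ← pu_pr,
      h3 _ ((gpr_cn h.le).grd_ZZ m y hy), aux3_BL3 hω.dg]

theorem Kun.rk {ω : TC F →ₗ[ℚ] ℚ} (hA : A₀ ⊆ A) (hω : Coc m ω A A₀) (hk : Kun ω A A₀) (W : Type)
    [TopologicalSpace W] : (∀ k, RK (up W A) (up W A₀) (k + m) = RK (univ : Set W) ∅ k) ∧
      ∀ k < m, RK (up W A) (up W A₀) k = 0 := by
  simp only [RK, cn_univ, cn_empty]
  exact rk_iso (gpr_cn (up_mono hA)) (aux4_BL3 W) (sl_deg hω.dg) (hk W)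

theorem kun_aug (C : Set F) [ContractibleSpace C] : Coc 0 aug C ∅ ∧ Kun aug C ∅ := by
  refine ⟨⟨fun c hc => ?_, fun k hk c => ?_⟩, fun W _ => ?_⟩
  · obtain ⟨a, -, ha⟩ := mem_BB.1 hc
    rw [cn_empty, Submodule.mem_bot, sub_eq_zero] at ha
    rw [ha, aug_D]
  · refine LinearMap.congr_fun (TC.ext (f := aug ∘ₗ pr k) (g := 0) fun l σ => ?_) c
    rw [LinearMap.comp_apply, pr_sx]
    split_ifs with hl
    · rw [aug_sx, if_neg (hl ▸ hk)]
      rfl
    · simp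
  · have h1 : SIso (Prod.swap : W × F → F × W) (up W C) ∅ (C ×ˢ univ) ∅ :=
      SIso.of_inv (k := Prod.swap) (empty_subset _) (empty_subset _) continuous_swap.continuousOn
        continuous_swap.continuousOn (fun _ hx => ⟨hx, trivial⟩) (fun _ hx => hx.elim)
        (fun _ hx => hx.1) (fun _ hx => hx.elim) (fun _ _ => rfl) (fun _ _ => rfl)
    have h2 := ((SIso.snd_ctr C (univ : Set W)).comp h1).hiso
    have h3 : (sl aug : TC (W × F) →ₗ[ℚ] TC W) = pu (Prod.snd ∘ Prod.swap) := by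
      have h4 : (aug ∘ₗ pu (Prod.snd : W × F → F)) = aug := LinearMap.ext fun c =>
        aug_pu (S := univ) continuous_snd.continuousOn (by simp)
      refine LinearMap.ext fun c => ?_
      rw [sl, h4, LinearMap.comp_apply, cap_aug]
      rfl
    rw [h3, up_empty]
    simpa only [cn_univ, cn_empty] using h2

end Pool.Agent.Bet
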