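import Pool.Agent.P.MP_d34769_ag.BL3

/-! TASK BL4: the local homology of a vector space. -/

open Set

namespace Pool.Agent.Bet

theorem hiso_eps_BL4 {W : Type} [TopologicalSpace W] :
    HIso (eps : TC W →ₗ[ℚ] TC W) ⊤ ⊥ ⊤ ⊥ := by
  have h : HMap (eps : TC W →ₗ[ℚ] TC W) ⊤ ⊥ ⊤ ⊥ := by
    refine ⟨fun z hz => mem_ZZ.2 ⟨trivial, ?_⟩, fun z hz => ?_⟩
    · have h1 : D z = 0 := (Submodule.mem_bot ℚ).1 (mem_ZZ.1 hz).2
      have h2 := eps_D z
      rw [h1, map_zero] at h2
      exact (Submodule.mem_bot ℚ).2 (neg_eq_zero.1 h2.symm)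
    · obtain ⟨a, -, ha⟩ := mem_BB.1 hz
      have h1 : z = D a := sub_eq_zero.1 ((Submodule.mem_bot ℚ).1 ha)
      rw [h1, eps_D]
      exact Submodule.neg_mem _ (D_mem_BB trivial)
  exact HIso.of_inv h h (fun z _ => by simp) fun z _ => by simp

theorem sl_D_BL4 {W F : Type} [TopologicalSpace W] [TopologicalSpace F] (η : TC F →ₗ[ℚ] ℚ)
    (c : TC (W × F)) : eps (sl η (D c)) - sl (η ∘ₗ D) c = -D (eps (sl η c : TC W)) := by
  have h1 : (η ∘ₗ D) ∘ₗ pu (Prod.snd : W × F → F) = (η ∘ₗ pu Prod.snd) ∘ₗ D := by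
    refine LinearMap.ext fun a => ?_
    simp only [LinearMap.comp_apply]
    rw [pu_D (S := univ) continuous_snd.continuousOn (by simp)]
  simp only [sl, LinearMap.comp_apply]
  rw [h1, cap_D, map_add, map_add, pu_eps, eps_eps,
    pu_D (S := univ) continuous_fst.continuousOn (by simp), eps_D]
  abel

theorem kun_bd_BL4 {F : Type} [TopologicalSpace F] {m : ℕ} {η : TC F →ₗ[ℚ] ℚ} {P M : Set F}
    (hM : M ⊆ P) (hc : Coc m η P M) (hk : Kun η P M) (ha : SIso id M ∅ univ ∅) :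
    Coc (m + 1) (η ∘ₗ D) univ P ∧ Kun (η ∘ₗ D) univ P := by
  refine ⟨⟨fun c hc' => ?_, fun k hk' c => ?_⟩, fun W _ => ?_⟩
  · obtain ⟨a, -, hb⟩ := mem_BB.1 hc'
    have := hc.bb _ (D_mem_BB hb)
    rw [map_sub, DD, sub_zero] at this
    exact this
  · rw [LinearMap.comp_apply]
    cases k with
    | zero => rw [D_pr, map_zero]
    | succ k => rw [D_pr']; exact hc.dg k (by omega) _
  · have p1 : Pr (cn (up W (univ : Set F))) (cn (up W P)) := pr_cn (up_mono (subset_univ _))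
    have h1 := (ha.acyc W).hiso_D p1 (pr_cn (up_mono hM))
    refine (hiso_eps_BL4.comp ((hk W).comp h1)).congr p1 stb_top.pr_bot fun z _ => ?_
    simp only [LinearMap.comp_apply]
    rw [sl_D_BL4]
    exact Submodule.neg_mem _ (D_mem_BB trivial)

theorem kun_susp {F : Type} [NormedAddCommGroup F] [NormedSpace ℝ F] {m : ℕ}
    (h : ∃ ω, Coc m ω (univ : Set F) {0}ᶜ ∧ Kun ω (univ : Set F) {0}ᶜ) :
    ∃ ω, Coc (m + 1) ω (univ : Set (F × ℝ)) {0}ᶜ ∧ Kun ω (univ : Set (F × ℝ)) {0}ᶜ := by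
  obtain ⟨ω, hc, hk⟩ := h
  obtain ⟨Ap, hAp⟩ : ∃ Ap : Set (F × ℝ), Ap = {x | x.1 ≠ 0 ∨ 0 < x.2} := ⟨_, rfl⟩
  obtain ⟨A, hA⟩ : ∃ A : Set (F × ℝ), A = {x | x.1 = 0 ∧ 0 ≤ x.2} := ⟨_, rfl⟩
  have mp : ∀ x, x ∈ Ap ↔ x.1 ≠ 0 ∨ 0 < x.2 := fun x => by rw [hAp]; rfl
  have mT : ∀ x, x ∈ Ap \ A ↔ x.1 ≠ 0 := fun x => by
    rw [hAp, hA]
    constructor
    · rintro ⟨h1 | h1, h2⟩
      · exact h1
      · exact fun h3 => h2 ⟨h3, le_of_lt h1⟩
    · exact fun h1 => ⟨Or.inl h1, fun h2 => h1 h2.1⟩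
  have mM : ∀ x, x ∈ ({0}ᶜ : Set (F × ℝ)) \ A ↔ x.1 ≠ 0 ∨ x.2 < 0 := fun x => by
    rw [hA]
    constructor
    · rintro ⟨-, h2⟩
      by_contra h3
      push Not at h3
      exact h2 h3
    · rintro (h1 | h1)
      · exact ⟨fun h2 => h1 (congrArg Prod.fst h2), fun h2 => h1 h2.1⟩
      · exact ⟨fun h2 => h1.ne (congrArg Prod.snd h2), fun h2 => absurd h2.2 (not_le.2 h1)⟩
  have s1 : SIso Prod.fst Ap (Ap \ A) (univ : Set F) {0}ᶜ := by
    refine SIso.of_he (k := fun y => (y, 1)) (H := fun t x => (x.1, (1 - t) * x.2 + t))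
      (H' := fun _ y => y) sdiff_subset (subset_univ _) continuous_fst.continuousOn
      (by fun_prop) (mapsTo_univ _ _) (fun x hx => (mT x).1 hx)
      (fun y _ => (mp _).2 (Or.inr one_pos)) (fun y hy => (mT _).2 hy) ⟨by fun_prop, ?_⟩
      ⟨by fun_prop, fun _ _ => mapsTo_univ _ _⟩ (fun t _ x hx => (mT _).2 ((mT x).1 hx))
      (fun _ _ _ hy => hy) (fun x _ => by simp) (fun x _ => by simp) (fun _ _ => rfl)
      fun _ _ => rfl
    intro t ht x hx
    rcases (mp x).1 hx with h1 | h1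
    · exact (mp _).2 (Or.inl h1)
    · refine (mp _).2 (Or.inr ?_)
      show 0 < (1 - t) * x.2 + t
      rcases eq_or_lt_of_le ht.2 with h2 | h2
      · rw [h2]; norm_num
      · have := mul_pos (sub_pos.2 h2) h1
        linarith [ht.1]
  have oA : IsOpen Ap := by
    rw [hAp]
    exact (isOpen_ne_fun continuous_fst continuous_const).union
      (isOpen_lt continuous_const continuous_snd)
  have cA : IsClosed A := by
    rw [hA]
    exact (isClosed_eq continuous_fst continuous_const).inter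
      (isClosed_le continuous_const continuous_snd)
  have s2 : SIso id Ap (Ap \ A) ({0}ᶜ : Set (F × ℝ)) ({0}ᶜ \ A) := by
    refine SIso.exc ⟨Ap, oA, (inter_eq_right.2 fun x hx h0 => ?_).symm⟩ (RO.of_isClosed cA _) ?_
    · rw [mem_singleton_iff.1 h0] at hx
      simpa using (mp _).1 hx
    · rintro x ⟨h1, h2⟩
      rw [hA] at h2
      refine (mp x).2 (Or.inr (lt_of_le_of_ne h2.2 fun h3 => h1 ?_))
      exact Prod.ext h2.1 h3.symm
  have s3 : SIso id (({0}ᶜ : Set (F × ℝ)) \ A) ∅ univ ∅ := by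
    refine SIso.of_def (H := fun t x => ((1 - t) • x.1, (1 - t) * x.2 - t)) (subset_univ _)
      subset_rfl (empty_subset _) (empty_subset _) ⟨by fun_prop, fun _ _ => mapsTo_univ _ _⟩
      (fun _ _ => mapsTo_empty _ _) ?_ (fun _ _ => mapsTo_empty _ _) (fun x _ => by simp)
      (fun x _ => (mM _).2 (Or.inr (by norm_num))) (mapsTo_empty _ _)
    intro t ht x hx
    refine (mM _).2 ?_
    rcases eq_or_lt_of_le ht.2 with h2 | h2
    · rw [h2]; exact Or.inr (by norm_num)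
    · rcases (mM x).1 hx with h1 | h1
      · exact Or.inl (smul_ne_zero (sub_pos.2 h2).ne' h1)
      · refine Or.inr ?_
        show (1 - t) * x.2 - t < 0
        have := mul_neg_of_pos_of_neg (sub_pos.2 h2) h1
        linarith [ht.1]
  obtain ⟨c1, k1⟩ := kun_pull s1 hc hk
  obtain ⟨η, c2, k2⟩ := kun_push s2 subset_rfl (hiso_id _ _).inj c1 k1
  exact ⟨_, kun_bd_BL4 sdiff_subset c2 k2 s3⟩

theorem kun_sph (r : ℕ) :
    ∃ ω, Coc (2 * r) ω (univ : Set (Fin r → ℂ)) {0}ᶜ ∧ Kun ω (univ : Set (Fin r → ℂ)) {0}ᶜ := by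
  induction r with
  | zero =>
    have h : ({0}ᶜ : Set (Fin 0 → ℂ)) = ∅ :=
      eq_empty_of_forall_notMem fun x hx => hx (Subsingleton.elim x 0)
    have : ContractibleSpace (univ : Set (Fin 0 → ℂ)) :=
      (convex_univ (𝕜 := ℝ)).contractibleSpace univ_nonempty
    rw [h]
    exact ⟨aug, kun_aug univ⟩
  | succ r ih =>
    obtain ⟨ω, hc, hk⟩ := kun_susp (kun_susp ih)
    have e1 : ∀ v : Fin (r + 1) → ℂ,
        (Fin.cons ((v 0).re + (v 0).im * Complex.I) (Fin.tail v) : Fin (r + 1) → ℂ) = v :=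
      fun v => by rw [Complex.re_add_im, Fin.cons_self_tail]
    have s : SIso (fun v : Fin (r + 1) → ℂ => ((Fin.tail v, (v 0).re), (v 0).im)) univ {0}ᶜ
        (univ : Set (((Fin r → ℂ) × ℝ) × ℝ)) {0}ᶜ := by
      refine SIso.of_inv (k := fun y => Fin.cons (y.1.2 + y.2 * Complex.I) y.1.1) (subset_univ _)
        (subset_univ _) ?_ ?_ (mapsTo_univ _ _) ?_ (mapsTo_univ _ _) ?_ (fun v _ => e1 v) ?_
      · refine Continuous.continuousOn ?_
        unfold Fin.tail
        fun_prop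
      · refine Continuous.continuousOn (continuous_pi fun i => ?_)
        refine Fin.cases ?_ (fun i => ?_) i
        · simp only [Fin.cons_zero]
          fun_prop
        · simp only [Fin.cons_succ]
          fun_prop
      · intro v hv h0
        have h1 := mem_singleton_iff.1 h0
        simp only [Prod.mk_eq_zero] at h1
        apply hv
        rw [mem_singleton_iff, ← e1 v, h1.1.1, h1.1.2, h1.2]
        funext i
        refine Fin.cases ?_ (fun i => ?_) i <;> simp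
      · rintro ⟨⟨u, a⟩, b⟩ hy h0
        have h1 := mem_singleton_iff.1 h0
        have h2 := congrFun h1 0
        simp only [Fin.cons_zero, Pi.zero_apply] at h2
        have h3 := congrArg Complex.re h2
        have h4 := congrArg Complex.im h2
        apply hy
        rw [mem_singleton_iff]
        refine Prod.ext (Prod.ext (funext fun i => ?_) ?_) ?_
        · simpa using congrFun h1 i.succ
        · simpa using h3
        · simpa using h4
      · rintro ⟨⟨u, a⟩, b⟩ -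
        simp
    exact ⟨_, kun_pull s hc hk⟩

end Pool.Agent.Bet
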