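import Pool.Agent.P.MP_d34769_ag.BL6
import Pool.Agent.P.MP_d34769_ag.BL7
import Pool.Agent.P.MP_d34769_ag.BA5

/-! TASK BL8: the Leray-Hirsch theorem for projective bundles. -/

open Set

namespace Pool.Agent.Bet

theorem move_BL8 {C C' E E' : Type} [AddCommGroup C] [Module ℚ C] [AddCommGroup C'] [Module ℚ C']
    [AddCommGroup E] [Module ℚ E] [AddCommGroup E'] [Module ℚ E'] [Dif C] [Dif C'] [Dif E] [Dif E']
    {r : ℕ} {Λ : ℕ → C →ₗ[ℚ] C'} {Λ₀ : ℕ → E →ₗ[ℚ] E'} {φ : E →ₗ[ℚ] C} {ψ : E' →ₗ[ℚ] C'}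
    {A B : Submodule ℚ C} {A' B' : Submodule ℚ C'} {A₀ B₀ : Submodule ℚ E}
    {A₀' B₀' : Submodule ℚ E'} (hφ : HIso φ A₀ B₀ A B) (hψ : HIso ψ A₀' B₀' A' B')
    (h : MIso Λ₀ r A₀ B₀ A₀' B₀') (hm : ∀ i < r, HMap (Λ i) A B A' B')
    (e : ∀ i < r, ∀ z ∈ ZZ A₀ B₀, Λ i (φ z) - ψ (Λ₀ i z) ∈ BB A' B') : MIso Λ r A B A' B' := by
  refine ⟨hm, fun z hz hb => ?_, fun y hy => ?_⟩
  · obtain ⟨z₀, hz₀, h1⟩ := hφ.srj z hz
    have h2 : z₀ ∈ BB A₀ B₀ := h.inj z₀ hz₀ fun i hi => hψ.inj _ ((h.map i hi).1 z₀ hz₀) (by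
      have := sub_mem (add_mem ((hm i hi).2 _ h1) (hb i hi)) (e i hi z₀ hz₀)
      rwa [map_sub, sub_add_cancel, sub_sub_cancel] at this)
    have := sub_mem (hφ.map.2 z₀ h2) h1
    rwa [sub_sub_cancel] at this
  · have h1 : ∀ i, ∃ y₀, i < r → y₀ ∈ ZZ A₀' B₀' ∧ ψ y₀ - y i ∈ BB A' B' := fun i => by
      by_cases hi : i < r
      · obtain ⟨y₀, h1⟩ := hψ.srj _ (hy i hi)
        exact ⟨y₀, fun _ => h1⟩
      · exact ⟨0, fun h => absurd h hi⟩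
    choose y₀ h1 using h1
    obtain ⟨z₀, hz₀, h2⟩ := h.srj y₀ fun i hi => (h1 i hi).1
    refine ⟨φ z₀, hφ.map.1 z₀ hz₀, fun i hi => ?_⟩
    have := add_mem (add_mem (e i hi z₀ hz₀) (hψ.map.2 _ (h2 i hi))) (h1 i hi).2
    rwa [map_sub, sub_add_sub_cancel, sub_add_sub_cancel] at this

variable {W : Type} [TopologicalSpace W] {r : ℕ} {S T : Set W} {V : W → Submodule ℂ (ℕ → ℂ)}
  {u : ℕ → TC PA →ₗ[ℚ] ℚ}

theorem cmap_BL8 (hu : IsU u) (S : Set W) (V : W → Submodule ℂ (ℕ → ℂ)) (i : ℕ) :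
    CMap (sl (u i) : TC (W × PA) →ₗ[ℚ] TC W) (cn (PV S V)) (cn S) :=
  sl_cmap (E := Pz) (fun _ ha => (hu i).1.bb _ (D_mem_BB ha)) (fun _ hx => hx.1)
    fun _ ⟨_, v, _, h1, h2⟩ => ⟨v, h1, h2⟩

theorem val_BL8 (hS : S.Nonempty) (A : Set PA) :
    SIso (Prod.map Subtype.val id : S × PA → W × PA) (up S A) ∅ (S ×ˢ A) ∅ := by
  classical
  obtain ⟨w₀, h₀⟩ := hS
  obtain ⟨k, hk⟩ : ∃ k : W → S, ∀ w ∈ S, (k w : W) = w :=
    ⟨fun w => if h : w ∈ S then ⟨w, h⟩ else ⟨w₀, h₀⟩, fun w h => by simp [h]⟩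
  have ck : ContinuousOn k S :=
    Topology.IsInducing.subtypeVal.continuousOn_iff.2 (continuousOn_id.congr hk)
  exact SIso.of_inv (k := Prod.map k id) (empty_subset _) (empty_subset _)
    (continuous_subtype_val.prodMap continuous_id).continuousOn (ck.prodMap continuousOn_id)
    (fun x hx => ⟨x.1.2, hx⟩) (mapsTo_empty _ _) (fun _ hx => hx.2) (mapsTo_empty _ _)
    (fun x _ => Prod.ext (Subtype.ext (hk _ x.1.2)) rfl) fun y hy => Prod.ext (hk _ hy.1) rfl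

theorem IsU.frame (hu : IsU u) {s : Fin r → W → ℕ → ℂ} (h : Fr S V s) :
    MIso (fun i => (sl (u i) : TC (W × PA) →ₗ[ℚ] TC W)) r (cn (PV S V)) ⊥ (cn S) ⊥ := by
  have hm : ∀ i < r, HMap (sl (u i) : TC (W × PA) →ₗ[ℚ] TC W) (cn (PV S V)) ⊥ (cn S) ⊥ :=
    fun i _ => (cmap_BL8 hu S V i).hmap fun c hc => by
      rw [Submodule.mem_bot] at hc ⊢
      rw [hc, map_zero]
  rcases S.eq_empty_or_nonempty with rfl | hS
  · have e : PV (∅ : Set W) V = ∅ := eq_empty_of_forall_notMem fun _ hx => hx.1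
    refine ⟨hm, fun z hz _ => mem_BB_of_mem ?_, fun y hy => ⟨0, zero_mem _, fun i hi => ?_⟩⟩
    · have := hz.1
      rwa [e, cn_empty] at this
    · have := (hy i hi).1
      rw [cn_empty] at this
      rw [map_zero, zero_sub]
      exact neg_mem (mem_BB_of_mem this)
  obtain ⟨J, hJ, h0, h1⟩ := h.triv
  have hv := val_BL8 hS (CP r)
  have hΘ := h1.comp hv
  have hφ := hΘ.hiso
  have hψ := (SIso.val S).hiso
  rw [cn_empty, cn_empty] at hφ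
  rw [cn_empty, cn_empty, cn_univ] at hψ
  refine move_BL8 hφ hψ (hu.triv r S) hm fun i _ z hz => ?_
  have hH : Htp (fun t (x : S × PA) => J t (Prod.map Subtype.val id x)) (up S (CP r)) Pz :=
    ⟨hJ.cont.comp (f := fun p : ℝ × (S × PA) => (p.1, Prod.map Subtype.val id p.2))
      (Continuous.continuousOn (by fun_prop)) fun _ hp => ⟨hp.1, hv.mS hp.2⟩,
      fun t ht _ hx => hJ.map t ht (hv.mS hx)⟩
  have hc := cap_coh (A := up S (CP r)) (A₀ := ∅) (c := z)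
    (ω := u i ∘ₗ pu fun x : S × PA => J 1 (Prod.map Subtype.val id x))
    (ω' := u i ∘ₗ pu Prod.snd) (empty_subset _) (fun a ha => ?_) (by rwa [cn_empty])
  · have h2 := (hmap_pu (f := fun x : S × PA => (x.1 : W)) (S := up S (CP r)) (T := ∅) (S' := S)
      (T' := ∅) (Continuous.continuousOn (by fun_prop)) (fun x _ => x.1.2)
      (mapsTo_empty _ _)).2 _ (by rwa [cn_empty])
    rw [cn_empty, map_sub] at h2
    rw [sl_pu _ hΘ.cont hz.1, sl, LinearMap.comp_apply,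
      pu_pu continuous_fst.continuousOn (cap_mem _ hz.1)]
    exact h2
  · have h2 := (hu i).1.bb _ (BB_mono le_rfl (cn_mono (empty_subset _))
      (htp_BB hH (fun _ _ => mapsTo_empty _ _) ha))
    rw [map_sub, sub_eq_zero] at h2
    exact h2.trans (congrArg (u i) (pu_congr (fun x hx => h0 _ (hv.mS hx)) ha.1))

theorem IsU.lh (hu : IsU u) (h : LF r S V) :
    MIso (fun i => (sl (u i) : TC (W × PA) →ₗ[ℚ] TC W)) r (cn (PV S V)) ⊥ (cn S) ⊥ := by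
  have e : ∀ U : Set W, PV S V ∩ Prod.fst ⁻¹' U = PV (S ∩ U) V := fun U =>
    Set.ext fun _ => ⟨fun h => ⟨⟨h.1.1, h.2⟩, h.1.2⟩, fun h => ⟨⟨h.1.1, h.2⟩, h.1.2⟩⟩
  have := glue (f := LL (fun i => (sl (u i) : TC (W × PA) →ₗ[ℚ] TC W)) r)
    (fam_cn (p := Prod.fst) (S' := PV S V) (S := S) continuous_fst.continuousOn fun _ hx => hx.1)
    ((fam_cn (p := id) continuousOn_id (mapsTo_id S)).piS r) (fun U => ?_) (fun w hw => ?_)
    isOpen_univ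
  · rw [preimage_univ, preimage_univ, inter_univ, inter_univ, ← piS_bot r] at this
    exact hiso_LL.1 this
  · rw [e]
    exact cmap_LL fun i _ => cmap_BL8 hu (S ∩ U) V i
  · obtain ⟨U₀, h1, h2, s, h3⟩ := h w hw
    refine ⟨U₀, h1, h2, fun U _ hU => ?_⟩
    rw [e, ← piS_bot r]
    exact hiso_LL.2 (hu.frame (h3.mono (inter_subset_inter_right _ hU)))

theorem IsU.lh_pair (hu : IsU u) (h : LF r S V) (hT : T ⊆ S) :
    MIso (fun i => (sl (u i) : TC (W × PA) →ₗ[ℚ] TC W)) r (cn (PV S V)) (cn (PV T V))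
      (cn S) (cn T) := by
  refine hiso_LL.1 (five_quot (pr_cn fun _ hx => ⟨hT hx.1, hx.2⟩) (stb_cn _).pr_bot
    ((pr_cn hT).piS r) ((stb_cn T).pr_bot.piS r) (cmap_LL fun i _ => cmap_BL8 hu S V i)
    (fun c hc => (cmap_LL (fun i _ => cmap_BL8 hu T V i) c hc).1) (fun c hc => ?_)
    (hiso_LL.2 (hu.lh (h.mono hT))) (hiso_LL.2 (hu.lh h)))
  rw [Submodule.mem_bot] at hc
  rw [hc, map_zero]
  exact zero_mem _

end Pool.Agent.Bet
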