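import Pool.Agent.P.MP_d34769_ag.BM0

/-! TASK BM1: positive square roots and polar decomposition. -/

open Set Matrix

namespace Pool.Agent.Bet

variable {ι : Type} [Fintype ι] [DecidableEq ι] {κ : Type} {Ar : Type}

open scoped MatrixOrder ComplexOrder Matrix.Norms.L2Operator in
theorem aux1_BM1 : ∃ s : Matrix ι ι ℂ → Matrix ι ι ℂ, ContinuousOn s {h | h.PosDef} ∧
    (∀ h, (s h).PosSemidef) ∧ (∀ h, h.PosDef → s h * s h = h) ∧
    (∀ h e, e * h = h * e → e * s h = s h * e) ∧
    ∀ h x : Matrix ι ι ℂ, x.PosSemidef → x * x = h → s h = x := by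
  refine ⟨CFC.sqrt, CFC.continuousOn_sqrt.mono fun h hh => hh.posSemidef.nonneg,
    fun h => (CFC.sqrt_nonneg h).posSemidef,
    fun h hh => CFC.sqrt_mul_sqrt_self h hh.posSemidef.nonneg, fun h e he => ?_,
    fun h x hx he => CFC.sqrt_unique he hx.nonneg⟩
  exact (Commute.cfcₙ_nnreal (show Commute h e from he.symm) _).eq.symm

open scoped Matrix.Norms.L2Operator in
theorem aux2_BM1 : Topology.IsInducing (Units.val : GG ι → Matrix ι ι ℂ) :=
  Units.isOpenEmbedding_val.isInducing

open scoped ComplexOrder in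
theorem exists_sq : ∃ sq : Matrix ι ι ℂ → GG ι, IsSq sq := by
  classical
  obtain ⟨s, h1, h2, h3, h4, h5⟩ := aux1_BM1 (ι := ι)
  have hu : ∀ h : Matrix ι ι ℂ, h.PosDef → IsUnit (s h) := by
    intro h hh
    have h6 := hh.isUnit
    rw [← h3 h hh] at h6
    exact ((Commute.refl _).isUnit_mul_iff.1 h6).1
  let sq : Matrix ι ι ℂ → GG ι := fun h => if hh : IsUnit (s h) then hh.unit else 1
  have hs : ∀ h : Matrix ι ι ℂ, h.PosDef → (sq h).1 = s h := by
    intro h hh
    simp only [sq, dif_pos (hu h hh), IsUnit.unit_spec]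
  refine ⟨sq, aux2_BM1.continuousOn_iff.2 (h1.congr hs), fun h hh => ?_, fun h hh => ?_,
    fun h hh e he => ?_, fun h hh x hx he => ?_, fun h hh e e1 e2 e3 => ?_⟩
  · rw [hs h hh]
    exact (h2 h).posDef_iff_isUnit.2 (hu h hh)
  · rw [hs h hh, h3 h hh]
  · rw [hs h hh, h4 h e he]
  · rw [hs h hh, h5 h x hx he]
  · rw [hs h hh]
    have hh' : star h = h := hh.isHermitian
    have e4 : h * e = e := by
      have := congrArg star e3
      rwa [star_mul, e1, hh'] at this
    have e5 := h4 h e (e3.trans e4.symm)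
    have e6 := h3 h hh
    have e7 : (1 - e) * s h = (1 - e)ᴴ * s h * (1 - e) := by
      rw [← star_eq_conjTranspose, star_sub, star_one, e1, mul_sub, mul_one, mul_assoc, ← e5,
        ← mul_assoc, sub_mul 1 e e, one_mul, e2, sub_self, zero_mul, sub_zero]
    have e8 : (e + (1 - e) * s h).PosSemidef := by
      refine PosSemidef.add ?_ (e7 ▸ (h2 h).conjTranspose_mul_mul_same _)
      have := posSemidef_conjTranspose_mul_self e
      rwa [← star_eq_conjTranspose, e1, e2] at this
    have e9 : e * (1 - e) = 0 := by rw [mul_sub, mul_one, e2, sub_self]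
    have e10 : (1 - e) * s h * e = 0 := by
      rw [mul_assoc, ← e5, ← mul_assoc, sub_mul 1 e e, one_mul, e2, sub_self, zero_mul]
    have e11 := h5 h _ e8 (by
      rw [add_mul, mul_add, mul_add, e2, ← mul_assoc e, e9, zero_mul, add_zero, e10, zero_add,
        ← mul_assoc, mul_sub _ 1 e, mul_one, e10, sub_zero, mul_assoc, e6, sub_mul, one_mul, e3,
        add_sub_cancel])
    rw [e11, mul_add, e2, ← mul_assoc, e9, zero_mul, add_zero]

open scoped ComplexOrder in
theorem exists_un : ∃ u : GG ι → GG ι, IsUn u := by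
  obtain ⟨sq, H⟩ := exists_sq (ι := ι)
  have hp : ∀ g : GG ι, (star g.1 * g.1).PosDef := fun g =>
    (posSemidef_conjTranspose_mul_self g.1).posDef_iff_isUnit.2 (g.isUnit.star.mul g.isUnit)
  have hi : ∀ g : GG ι, star ((sq (star g.1 * g.1))⁻¹).1 = ((sq (star g.1 * g.1))⁻¹).1 := by
    intro g
    have h1 : star (sq (star g.1 * g.1)).1 = (sq (star g.1 * g.1)).1 :=
      (H.pos _ (hp g)).isHermitian
    have h2 := congrArg star (sq (star g.1 * g.1)).inv_mul
    rw [star_mul, h1, star_one] at h2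
    exact (Units.inv_eq_of_mul_eq_one_right h2).symm
  have hm : ∀ g : GG ι, g * (sq (star g.1 * g.1))⁻¹ ∈ Un ι := by
    intro g
    rw [mem_Un, Units.val_mul, star_mul, hi, mul_assoc, ← mul_assoc (star g.1)]
    nth_rewrite 2 [← H.mul _ (hp g)]
    rw [mul_assoc, Units.mul_inv, mul_one, Units.inv_mul]
  refine ⟨fun g => g * (sq (star g.1 * g.1))⁻¹, ?_, hm, fun g k hk l hl => ?_, fun g hg => ?_,
    fun g e he => ?_, fun g hg => ?_, fun κ c g hg => ⟨?_, hm g⟩⟩
  · exact continuous_id.mul (H.cont.comp_continuous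
      (Units.continuous_val.star.mul Units.continuous_val) hp).inv
  · rw [mem_Un] at hk hl
    have h1 : (l⁻¹).1 = star l.1 := Units.inv_eq_of_mul_eq_one_left hl
    have h2 : sq (star (k * g * l).1 * (k * g * l).1) = l⁻¹ * sq (star g.1 * g.1) * l := by
      refine Units.ext (H.uniq _ (hp _) _ ?_ ?_)
      · rw [Units.val_mul, Units.val_mul, h1]
        exact (H.pos _ (hp g)).posSemidef.conjTranspose_mul_mul_same _
      · rw [← Units.val_mul, show l⁻¹ * sq (star g.1 * g.1) * l * (l⁻¹ * sq (star g.1 * g.1) * l) =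
          l⁻¹ * (sq (star g.1 * g.1) * sq (star g.1 * g.1)) * l by group]
        rw [Units.val_mul, Units.val_mul, Units.val_mul (sq _), H.mul _ (hp g)]
        simp only [Units.val_mul, star_mul, h1, mul_assoc]
        rw [← mul_assoc (star k.1), hk, one_mul]
    beta_reduce
    rw [h2]
    group
  · rw [mem_Un] at hg
    have h1 : sq (star g.1 * g.1) = 1 :=
      Units.ext (H.uniq _ (hp g) 1 PosSemidef.one (by rw [hg, one_mul]))
    beta_reduce
    rw [h1, inv_one, mul_one]
  · beta_reduce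
    rw [_root_.mul_inv_rev, inv_inv, mul_assoc, inv_mul_cancel, mul_one]
    exact H.comm _ (hp g) e he
  · have h1 := H.comm _ (hp g) g.1 (by rw [hg, mul_assoc])
    rw [Units.val_mul, star_mul, hi]
    nth_rewrite 2 [hg]
    exact (Commute.units_inv_right h1).eq.symm
  · refine (Gc c).mul_mem hg ((Gc c).inv_mem ?_)
    obtain ⟨h1, h2⟩ := mem_Gc.1 hg
    have h0 : ∀ o, star (dg c o) = dg c o := fun o => star_dp _
    have h3 : ∀ o, dg c o * star g.1 = star g.1 * dg c o := by
      intro o
      have := congrArg star (h1 o)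
      rw [star_mul, star_mul, h0] at this
      exact this.symm
    refine ⟨fun o => H.comm _ (hp g) _ ?_, H.fix _ (hp g) _ (h0 _) (dp_idem _) ?_⟩
    · rw [← mul_assoc, h3, mul_assoc, h1, mul_assoc]
    · have := congrArg star h2
      rw [star_mul, h0] at this
      rw [← mul_assoc, h3, this, h2]

end Pool.Agent.Bet
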