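import Pool.Agent.P.MP_d34769_ag.BM0

/-! TASK BM3: invariant embeddings, invariant norms, absorbing maps. -/

open Set Matrix

namespace Pool.Agent.Bet

variable {ι : Type} [Fintype ι] [DecidableEq ι] {κ : Type} {Ar : Type}

lemma aux1_BM3 {n : Type} {c : ι → Option κ} {f : Mt ι} (hf : f ∈ Ec c) (v : κ)
    (M : Matrix n ι ℂ) (hM : ∀ x j, c j ≠ some v → M x j = 0) (h : M * f.m = 0) : M = 0 := by
  ext x j
  have h1 : M x ᵥ* f.m = 0 := by
    funext y
    exact congrFun (congrFun h x) y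
  exact congrFun (hf.2 v (M x) (hM x) h1) j

lemma aux2_BM3 {g : GG ι} (hg : g ∈ Un ι) : g.1ᴴ * g.1 = 1 := hg

omit [Fintype ι] [DecidableEq ι] in
lemma aux3_BM3 : Continuous fun f : Mt ι => f.m := continuous_id

omit [DecidableEq ι] in
lemma aux4_BM3 {n : Type} (M : Matrix ι n ℂ) (j : n) :
    ((Mᴴ * M) j j).re = ∑ i, ‖M i j‖ ^ 2 := by
  rw [Matrix.mul_apply, Complex.re_sum]
  refine Finset.sum_congr rfl fun i _ => ?_
  rw [conjTranspose_apply, Complex.star_def, Complex.conj_mul']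
  norm_cast

omit [DecidableEq ι] in
lemma aux5_BM3 (M : Matrix ι ι ℂ) :
    (trace (Mᴴ * M)).re = ∑ j, ∑ i, ‖M i j‖ ^ 2 := by
  rw [trace, Complex.re_sum]
  exact Finset.sum_congr rfl fun j _ => aux4_BM3 M j

theorem exists_J [Finite Ar] : ∃ J : Mt ι → Cj Ar ι →ₗ[ℂ] (ℕ → ℂ),
    Continuous (fun x : Mt ι × Cj Ar ι => J x.1 x.2) ∧
    (∀ g ∈ Un ι, ∀ f φ, J (g • f) (g • φ) = J f φ) ∧
    ∀ (κ : Type) (s t : Ar → κ) (c : ι → Option κ), ∀ f ∈ Ec c, ∀ φ ∈ Rc s t c,
      J f φ = 0 → φ = 0 := by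
  rcases isEmpty_or_nonempty Ar with hA | hA
  · refine ⟨fun _ => 0, continuous_const, fun _ _ _ _ => rfl, fun _ _ _ _ _ _ φ _ _ => ?_⟩
    exact funext fun a => isEmptyElim a
  obtain ⟨e, he⟩ := exists_surjective_nat (Ar × ℕ × ℕ)
  let J : Mt ι → Cj Ar ι →ₗ[ℂ] (ℕ → ℂ) := fun f =>
    { toFun := fun φ n => (f.mᴴ * φ (e n).1 * f.m) (e n).2.1 (e n).2.2
      map_add' := fun φ ψ => by
        funext n
        rw [Cj.add_apply, Matrix.mul_add, Matrix.add_mul]
        rfl
      map_smul' := fun z φ => by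
        funext n
        rw [Cj.csmul_apply, Matrix.mul_smul, Matrix.smul_mul]
        rfl }
  have hJ : ∀ f φ n, J f φ n = (f.mᴴ * φ (e n).1 * f.m) (e n).2.1 (e n).2.2 := fun _ _ _ => rfl
  refine ⟨J, ?_, ?_, ?_⟩
  · refine continuous_pi fun n => ?_
    simp only [hJ]
    have h1 : Continuous fun x : Mt ι × Cj Ar ι => x.1.m := aux3_BM3.comp continuous_fst
    have h2 : Continuous fun x : Mt ι × Cj Ar ι => x.2 (e n).1 :=
      (Cj.continuous_apply _).comp continuous_snd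
    exact ((h1.matrix_conjTranspose.matrix_mul h2).matrix_mul h1).matrix_elem _ _
  · intro g hg f φ
    funext n
    rw [hJ, hJ, Mt.smul_m, Cj.smul_apply, conjTranspose_mul]
    have : f.mᴴ * g.1ᴴ * (g.1 * φ (e n).1 * (g⁻¹).1) * (g.1 * f.m) =
        f.mᴴ * (g.1ᴴ * g.1) * φ (e n).1 * ((g⁻¹).1 * g.1) * f.m := by
      simp only [Matrix.mul_assoc]
    rw [this, aux2_BM3 hg, Units.inv_mul, Matrix.mul_one, Matrix.mul_one]
  · intro κ s t c f hf φ hφ h
    funext a
    have h1 : f.mᴴ * φ a * f.m = 0 := by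
      ext x y
      obtain ⟨n, hn⟩ := he (a, x, y)
      have := congrFun h n
      rw [hJ, hn] at this
      exact this
    have h2 : f.mᴴ * φ a = 0 := by
      refine aux1_BM3 hf (s a) _ (fun x j hj => ?_) h1
      rw [← hφ a, ← Matrix.mul_assoc, dg, dg, mul_dp_apply, if_neg hj]
    have h3 : (φ a)ᴴ * f.m = 0 := by
      have := congrArg conjTranspose h2
      rwa [conjTranspose_mul, conjTranspose_conjTranspose, conjTranspose_zero] at this
    have h4 : (φ a)ᴴ = 0 := by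
      refine aux1_BM3 hf (t a) _ (fun x j hj => ?_) h3
      rw [conjTranspose_apply, ← hφ a, Matrix.mul_assoc, dg, dp_mul_apply, if_neg hj, star_zero]
    exact conjTranspose_eq_zero.1 h4

theorem exists_J' : ∃ J : Mt ι → Mt ι →ₗ[ℂ] (ℕ → ℂ),
    Continuous (fun x : Mt ι × Mt ι => J x.1 x.2) ∧
    (∀ g ∈ Un ι, ∀ f v, J (g • f) (g • v) = J f v) ∧
    ∀ (κ : Type) (c : ι → Option κ) (o : κ), ∀ f ∈ Ec c, ∀ v ∈ F0 c o, J f v = 0 → v = 0 := by
  let J : Mt ι → Mt ι →ₗ[ℂ] (ℕ → ℂ) := fun f =>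
    { toFun := fun v n => (f.mᴴ * v.m) n 0
      map_add' := fun v w => by
        funext n
        rw [show (v + w).m = v.m + w.m from rfl, Matrix.mul_add]
        rfl
      map_smul' := fun z v => by
        funext n
        rw [show (z • v).m = z • v.m from rfl, Matrix.mul_smul]
        rfl }
  have hJ : ∀ f v n, J f v n = (f.mᴴ * v.m) n 0 := fun _ _ _ => rfl
  refine ⟨J, ?_, ?_, ?_⟩
  · refine continuous_pi fun n => ?_
    simp only [hJ]
    have h1 : Continuous fun x : Mt ι × Mt ι => x.1.m := aux3_BM3.comp continuous_fst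
    have h2 : Continuous fun x : Mt ι × Mt ι => x.2.m := aux3_BM3.comp continuous_snd
    exact (h1.matrix_conjTranspose.matrix_mul h2).matrix_elem _ _
  · intro g hg f v
    funext n
    rw [hJ, hJ, Mt.smul_m, Mt.smul_m, conjTranspose_mul]
    have : f.mᴴ * g.1ᴴ * (g.1 * v.m) = f.mᴴ * (g.1ᴴ * g.1) * v.m := by
      simp only [Matrix.mul_assoc]
    rw [this, aux2_BM3 hg, Matrix.mul_one]
  · intro κ c o f hf v hv h
    have h1 : (fun i => star (v.m i 0)) = 0 := by
      refine hf.2 o _ (fun i hi => ?_) ?_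
      · rw [hv i 0 (Or.inl hi), star_zero]
      · funext n
        have h2 := congrArg star (congrFun h n)
        rw [hJ, Matrix.mul_apply, star_sum] at h2
        simp only [conjTranspose_apply, star_mul, star_star, Pi.zero_apply, star_zero] at h2
        exact h2
    change v.m = 0
    ext i j
    by_cases hj : j = 0
    · subst hj
      exact star_eq_zero.1 (congrFun h1 i)
    · exact hv i j (Or.inr hj)

theorem exists_N [Finite Ar] : ∃ N : Cj Ar ι → ℝ, Continuous N ∧ (∀ φ, φ ≠ 0 → 0 < N φ) ∧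
    (∀ (a : ℂ) φ, N (a • φ) = ‖a‖ * N φ) ∧ ∀ g ∈ Un ι, ∀ φ, N (g • φ) = N φ := by
  have := Fintype.ofFinite Ar
  refine ⟨fun φ => √(∑ a, ∑ j, ∑ i, ‖φ a i j‖ ^ 2), ?_, ?_, ?_, ?_⟩
  · refine Continuous.sqrt (continuous_finsetSum _ fun a _ => continuous_finsetSum _ fun j _ =>
      continuous_finsetSum _ fun i _ => ?_)
    exact ((Cj.continuous_apply a).matrix_elem i j).norm.pow 2
  · intro φ hφ
    obtain ⟨a, ha⟩ : ∃ a, φ a ≠ 0 := by
      by_contra hc
      push Not at hc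
      exact hφ (funext hc)
    obtain ⟨i, j, hij⟩ : ∃ i j, φ a i j ≠ 0 := by
      by_contra hc
      push Not at hc
      exact ha (Matrix.ext hc)
    refine Real.sqrt_pos.2 (Finset.sum_pos' (fun _ _ => by positivity) ⟨a, Finset.mem_univ _, ?_⟩)
    refine Finset.sum_pos' (fun _ _ => by positivity) ⟨j, Finset.mem_univ _, ?_⟩
    exact Finset.sum_pos' (fun _ _ => by positivity) ⟨i, Finset.mem_univ _, by positivity⟩
  · intro z φ
    have h : ∑ a, ∑ j, ∑ i, ‖(z • φ) a i j‖ ^ 2 = ‖z‖ ^ 2 * ∑ a, ∑ j, ∑ i, ‖φ a i j‖ ^ 2 := by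
      simp only [Finset.mul_sum, Cj.csmul_apply, Matrix.smul_apply, smul_eq_mul, norm_mul, mul_pow]
    simp only [h]
    rw [Real.sqrt_mul (sq_nonneg _), Real.sqrt_sq (norm_nonneg _)]
  · intro g hg φ
    refine congrArg Real.sqrt (Finset.sum_congr rfl fun a _ => ?_)
    rw [← aux5_BM3, ← aux5_BM3, Cj.smul_apply, inv_eq_star hg, star_eq_conjTranspose,
      conjTranspose_mul, conjTranspose_mul, conjTranspose_conjTranspose]
    have h : g.1 * ((φ a)ᴴ * g.1ᴴ) * (g.1 * φ a * g.1ᴴ) =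
        g.1 * ((φ a)ᴴ * (g.1ᴴ * g.1) * φ a * g.1ᴴ) := by
      simp only [Matrix.mul_assoc]
    rw [h, trace_mul_comm, aux2_BM3 hg, Matrix.mul_one, Matrix.mul_assoc, aux2_BM3 hg,
      Matrix.mul_one]

theorem exists_N' : ∃ N : Mt ι → ℝ, Continuous N ∧
    (∀ v : Mt ι, (∃ i, v.m i 0 ≠ 0) → 0 < N v) ∧
    (∀ (a : ℂ) v, N (a • v) = ‖a‖ * N v) ∧ ∀ g ∈ Un ι, ∀ v, N (g • v) = N v := by
  refine ⟨fun v => √(∑ i, ‖v.m i 0‖ ^ 2), ?_, ?_, ?_, ?_⟩
  · exact Continuous.sqrt (continuous_finsetSum _ fun i _ =>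
      (aux3_BM3.matrix_elem i 0).norm.pow 2)
  · rintro v ⟨i, hi⟩
    exact Real.sqrt_pos.2
      (Finset.sum_pos' (fun _ _ => by positivity) ⟨i, Finset.mem_univ _, by positivity⟩)
  · intro z v
    have h : ∑ i, ‖(z • v).m i 0‖ ^ 2 = ‖z‖ ^ 2 * ∑ i, ‖v.m i 0‖ ^ 2 := by
      rw [show (z • v).m = z • v.m from rfl]
      simp only [Finset.mul_sum, Matrix.smul_apply, smul_eq_mul, norm_mul, mul_pow]
    simp only [h]
    rw [Real.sqrt_mul (sq_nonneg _), Real.sqrt_sq (norm_nonneg _)]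
  · intro g hg v
    refine congrArg Real.sqrt ?_
    rw [← aux4_BM3, ← aux4_BM3, Mt.smul_m, conjTranspose_mul]
    have h : v.mᴴ * g.1ᴴ * (g.1 * v.m) = v.mᴴ * (g.1ᴴ * g.1) * v.m := by
      simp only [Matrix.mul_assoc]
    rw [h, aux2_BM3 hg, Matrix.mul_one]

/-- The columns tensored with a sequence. -/
def W_BM3 (f : Matrix ι ℕ ℂ) (z : ℕ → ℂ) : Matrix ι ℕ ℂ :=
  Matrix.of fun i m => f i (Nat.unpair m).1 * z (Nat.unpair m).2

omit [DecidableEq ι] in
lemma aux6_BM3 (g : Matrix ι ι ℂ) (f : Matrix ι ℕ ℂ) (z : ℕ → ℂ) :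
    W_BM3 (g * f) z = g * W_BM3 f z := by
  ext i m
  simp only [W_BM3, of_apply, Matrix.mul_apply, Finset.sum_mul, mul_assoc]

lemma aux7_BM3 (P : ι → Prop) (g : Matrix ι ι ℂ) (h : dp P * g = g * dp P) :
    dp (fun i => ¬ P i) * g = g * dp fun i => ¬ P i := by
  have e : dp (fun i => ¬ P i) = 1 - dp P := eq_sub_of_add_eq' (dp_add_not P)
  rw [e, Matrix.sub_mul, Matrix.mul_sub, h, Matrix.one_mul, Matrix.mul_one]

lemma aux8_BM3 (P : ι → Prop) : dp P * dp (fun i => ¬ P i) = 0 := by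
  rw [dp_mul_dp]
  exact dp_false fun i h => h.2 h.1

lemma aux9_BM3 (P : ι → Prop) : dp (fun i => ¬ P i) * dp P = 0 := by
  rw [dp_comm, aux8_BM3]

/-- the rows in `P` are tensored with `y` -/
theorem exists_abs (P : ι → Prop) : ∃ β : Mt ι × (ℕ → ℂ) → Mt ι, Continuous β ∧
    (∀ (κ : Type) (c : ι → Option κ), ∀ f ∈ Ec c, ∀ y, y ≠ 0 → β (f, y) ∈ Ec c) ∧
    (∀ g : GG ι, dp P * g.1 = g.1 * dp P → ∀ f y, β (g • f, y) = g • β (f, y)) ∧
    ∀ (a : ℂ) f y, (β (f, a • y)).m = (a • dp P + dp fun i => ¬ P i) * (β (f, y)).m := by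
  classical
  let sh : (ℕ → ℂ) → ℕ → ℂ := fun y l => if l = 0 then 0 else y (l - 1)
  let δ : ℕ → ℂ := fun l => if l = 0 then 1 else 0
  let β : Mt ι × (ℕ → ℂ) → Mt ι := fun x =>
    (dp P * W_BM3 x.1.m (sh x.2) + dp (fun i => ¬ P i) * W_BM3 x.1.m δ : Matrix ι ℕ ℂ)
  have hβ : ∀ f y, (β (f, y)).m =
      dp P * W_BM3 f.m (sh y) + dp (fun i => ¬ P i) * W_BM3 f.m δ := fun _ _ => rfl
  have hβ' : ∀ f y i m, (β (f, y)).m i m = f.m i (Nat.unpair m).1 *
      if P i then sh y (Nat.unpair m).2 else δ (Nat.unpair m).2 := by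
    intro f y i m
    rw [hβ, Matrix.add_apply, dp_mul_apply, dp_mul_apply]
    by_cases h : P i <;> simp [h, W_BM3]
  refine ⟨β, ?_, ?_, ?_, ?_⟩
  · change Continuous fun x : Mt ι × (ℕ → ℂ) => (β (x.1, x.2)).m
    refine continuous_matrix fun i m => ?_
    simp only [hβ']
    refine ((aux3_BM3.comp continuous_fst).matrix_elem _ _).mul ?_
    by_cases h : P i
    · simp only [if_pos h, sh]
      by_cases h' : (Nat.unpair m).2 = 0
      · simp only [if_pos h']
        exact continuous_const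
      · simp only [if_neg h']
        exact (continuous_apply _).comp continuous_snd
    · simp only [if_neg h]
      exact continuous_const
  · intro κ c f hf y hy
    refine ⟨?_, fun v a ha h => ?_⟩
    · ext i m
      have h1 := congrFun (congrFun hf.1 i) (Nat.unpair m).1
      rw [dg, dp_mul_apply] at h1 ⊢
      by_cases hi : c i = none
      · rw [if_pos hi] at h1 ⊢
        rw [hβ', h1, Matrix.zero_apply, zero_mul, Matrix.zero_apply]
      · rw [if_neg hi, Matrix.zero_apply]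
    · obtain ⟨l, hl⟩ : ∃ l, y l ≠ 0 := by
        by_contra hc
        push Not at hc
        exact hy (funext hc)
      have h1 : (fun i => if P i then a i else 0) = 0 := by
        refine hf.2 v _ (fun i hi => by simp [ha i hi]) ?_
        funext j
        have h2 := congrFun h (Nat.pair j (l + 1))
        simp only [vecMul, dotProduct, hβ', Nat.unpair_pair, Pi.zero_apply] at h2 ⊢
        refine (mul_eq_zero.1 (Eq.trans ?_ h2)).resolve_right hl
        rw [Finset.sum_mul]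
        refine Finset.sum_congr rfl fun i _ => ?_
        by_cases hi : P i <;> simp [hi, sh, δ, mul_assoc]
      have h3 : (fun i => if P i then 0 else a i) = 0 := by
        refine hf.2 v _ (fun i hi => by simp [ha i hi]) ?_
        funext j
        have h2 := congrFun h (Nat.pair j 0)
        simp only [vecMul, dotProduct, hβ', Nat.unpair_pair, Pi.zero_apply] at h2 ⊢
        refine Eq.trans (Finset.sum_congr rfl fun i _ => ?_) h2
        by_cases hi : P i <;> simp [hi, sh, δ]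
      funext i
      have h4 := congrFun h1 i
      have h5 := congrFun h3 i
      by_cases hi : P i
      · simpa [hi] using h4
      · simpa [hi] using h5
  · intro g hg f y
    change (β (g • f, y)).m = (g • β (f, y)).m
    rw [Mt.smul_m, hβ, hβ, Mt.smul_m, aux6_BM3, aux6_BM3, ← Matrix.mul_assoc, ← Matrix.mul_assoc,
      hg, aux7_BM3 P _ hg, Matrix.mul_add, Matrix.mul_assoc, Matrix.mul_assoc]
  · intro a f y
    ext i m
    rw [Matrix.add_mul, Matrix.smul_mul, Matrix.add_apply, Matrix.smul_apply, dp_mul_apply,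
      dp_mul_apply, hβ', hβ']
    by_cases hi : P i
    · by_cases h' : (Nat.unpair m).2 = 0
      · simp [hi, sh, h']
      · simp [hi, sh, h', mul_left_comm]
    · simp [hi]

/-- the circle acting on the coordinates in `P` -/
theorem exists_circ (c : ι → Option κ) (P : ι → Prop)
    (h0 : ∀ i, c i = none → ¬ P i) {a : ℂ} (ha : ‖a‖ = 1) :
    ∃ g ∈ Kc c, g.1 = a • dp P + (dp fun i => ¬ P i) ∧
      (g⁻¹).1 = a⁻¹ • dp P + dp fun i => ¬ P i := by
  have ha0 : a ≠ 0 := fun h => by simp [h] at ha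
  have key : ∀ x y : ℂ, x * y = 1 →
      (x • dp P + dp fun i => ¬ P i) * (y • dp P + dp fun i => ¬ P i) = 1 := by
    intro x y hxy
    simp only [Matrix.add_mul, Matrix.mul_add, Matrix.smul_mul, Matrix.mul_smul, dp_idem,
      aux8_BM3, aux9_BM3, smul_zero, add_zero, zero_add, smul_smul, mul_comm y x, hxy, one_smul]
    exact dp_add_not P
  refine ⟨⟨a • dp P + dp fun i => ¬ P i, a⁻¹ • dp P + dp fun i => ¬ P i,
    key _ _ (mul_inv_cancel₀ ha0), key _ _ (inv_mul_cancel₀ ha0)⟩, ⟨⟨fun o => ?_, ?_⟩, ?_⟩, rfl, rfl⟩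
  · change dg c o * (a • dp P + dp fun i => ¬ P i) = (a • dp P + dp fun i => ¬ P i) * dg c o
    rw [Matrix.mul_add, Matrix.add_mul, Matrix.mul_smul, Matrix.smul_mul, dg, dp_comm _ P,
      dp_comm _ fun i => ¬ P i]
  · change dg c none * (a • dp P + dp fun i => ¬ P i) = dg c none
    rw [Matrix.mul_add, Matrix.mul_smul, dg, dp_mul_dp, dp_mul_dp,
      dp_false fun i h => h0 i h.1 h.2, smul_zero, zero_add]
    exact dp_congr fun i => ⟨fun h => h.1, fun h => ⟨h, h0 i h⟩⟩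
  · change star (a • dp P + dp fun i => ¬ P i) * (a • dp P + dp fun i => ¬ P i) = 1
    rw [star_add, star_smul, star_dp, star_dp]
    refine key _ _ ?_
    rw [Complex.star_def, Complex.conj_mul', ha]
    simp

end Pool.Agent.Bet
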