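import Pool.Agent.P.MP_d34769_ag.BM5b
import Pool.Agent.P.MP_d34769_ag.BM3

/-! TASK BM6: graded subspaces are unitarily equivalent to coordinate subspaces. -/

open Set Matrix

namespace Pool.Agent.Bet

variable {ι : Type} [Fintype ι] [DecidableEq ι] {κ : Type} {Ar : Type}
  {c : ι → Option κ} {p : ι → Bool}

omit [DecidableEq ι] in
lemma fin_BM6 (c : ι → Option κ) (v : κ) :
    ∃ P : Finset ι, (∀ i, i ∈ P ↔ c i = some v) ∧ dv c v = P.card :=
  ⟨_, fun i => by simp, rfl⟩

lemma onb_BM6 {A W : Submodule ℂ (ι → ℂ)} (hAW : A ≤ W) {P Q : Finset ι} (hPQ : P ⊆ Q)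
    (hA : Module.finrank ℂ A = P.card) (hW : Module.finrank ℂ W = Q.card) :
    ∃ b : ι → ι → ℂ, (∀ i ∈ P, b i ∈ A) ∧ (∀ i ∈ Q, b i ∈ W) ∧
      ∀ i ∈ Q, ∀ j ∈ Q, b j ⬝ᵥ star (b i) = if i = j then 1 else 0 := by
  let L : (ι → ℂ) ≃ₗ[ℂ] EuclideanSpace ℂ ι := (WithLp.linearEquiv 2 ℂ (ι → ℂ)).symm
  have hA' : Module.finrank ℂ (A.map L.toLinearMap) = Fintype.card P := by
    rw [LinearEquiv.finrank_map_eq, hA, Fintype.card_coe]
  have hW' : Module.finrank ℂ (W.map L.toLinearMap) = Fintype.card Q := by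
    rw [LinearEquiv.finrank_map_eq, hW, Fintype.card_coe]
  let a : OrthonormalBasis P ℂ (A.map L.toLinearMap) :=
    (stdOrthonormalBasis ℂ _).reindex (Fintype.equivFinOfCardEq hA'.symm).symm
  let v : Q → W.map L.toLinearMap := fun i =>
    if h : i.1 ∈ P then ⟨a ⟨i.1, h⟩, Submodule.map_mono hAW (a ⟨i.1, h⟩).2⟩ else 0
  have hv : Orthonormal ℂ (({i | i.1 ∈ P} : Set Q).domRestrict v) := by
    rw [orthonormal_iff_ite]
    rintro ⟨⟨i, hi⟩, hi'⟩ ⟨⟨j, hj⟩, hj'⟩
    have h1 : i ∈ P := hi'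
    have h2 : j ∈ P := hj'
    have := orthonormal_iff_ite.1 a.orthonormal ⟨i, h1⟩ ⟨j, h2⟩
    simpa [v, h1, h2, Set.domRestrict] using this
  obtain ⟨b, hb⟩ := hv.exists_orthonormalBasis_extension_of_card_eq hW'
  have hm : ∀ {B : Submodule ℂ (ι → ℂ)} {x : EuclideanSpace ℂ ι},
      x ∈ B.map L.toLinearMap → x.ofLp ∈ B := by
    rintro B _ ⟨y, hy, rfl⟩
    exact hy
  refine ⟨fun i => if h : i ∈ Q then (b ⟨i, h⟩).1.ofLp else 0, fun i hi => ?_, fun i hi => ?_,
    fun i hi j hj => ?_⟩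
  · simp only [dif_pos (hPQ hi)]
    rw [hb ⟨i, hPQ hi⟩ hi]
    simp only [v, dif_pos hi]
    exact hm (a ⟨i, hi⟩).2
  · simp only [dif_pos hi]
    exact hm (b ⟨i, hi⟩).2
  · simp only [dif_pos hi, dif_pos hj]
    have := orthonormal_iff_ite.1 b.orthonormal ⟨i, hi⟩ ⟨j, hj⟩
    rw [Submodule.coe_inner, EuclideanSpace.inner_eq_star_dotProduct] at this
    simpa using this

lemma rank_BM6 (c : ι → Option κ) (v : κ) :
    Module.finrank ℂ (LinearMap.range (dg c (some v)).mulVecLin) = dv c v := by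
  classical
  obtain ⟨Q, hQ, e⟩ := fin_BM6 c v
  rw [e]
  refine (Matrix.rank_diagonal _).trans (Fintype.card_of_subtype Q fun i => ?_)
  simp [hQ]

lemma eq_BM6 {U U' : Submodule ℂ (ι → ℂ)} (hU : Gs c U) (hU' : Gs c U') (hle : U' ≤ U)
    (h : du c U' = du c U) : U = U' := by
  classical
  refine le_antisymm (fun x hx => ?_) hle
  have e : x = ∑ o ∈ Finset.univ.image c, dg c o *ᵥ x := by
    funext i
    rw [Finset.sum_apply, Finset.sum_eq_single (c i) (fun o _ ho => by simp [dg, dp_mulVec, ho.symm])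
      fun h => absurd (Finset.mem_image_of_mem c (Finset.mem_univ i)) h]
    simp [dg, dp_mulVec]
  rw [e]
  refine Submodule.sum_mem _ fun o _ => ?_
  cases o with
  | none => rw [hU.2 x hx]; exact zero_mem _
  | some v =>
    have h1 : U'.map (dg c (some v)).mulVecLin = U.map (dg c (some v)).mulVecLin :=
      Submodule.eq_of_le_of_finrank_eq (Submodule.map_mono hle) (congrFun h v)
    obtain ⟨y, hy, e⟩ : dg c (some v) *ᵥ x ∈ U'.map (dg c (some v)).mulVecLin :=
      h1 ▸ ⟨x, hx, rfl⟩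
    rw [← e]
    exact hU'.1 v y hy

theorem exists_unitary {U : Submodule ℂ (ι → ℂ)} (hp : Adm c p) (hU : Gs c U)
    (h : du c U = dv (c1 c p)) : ∃ k ∈ Kc c, U = (V1 p).map k.1.mulVecLin := by
  have key : ∀ v : κ, ∃ b : ι → ι → ℂ, (∀ i, c1 c p i = some v → b i ∈ U) ∧
      (∀ i, c i = some v → ∀ l, c l ≠ some v → b i l = 0) ∧
      ∀ i, c i = some v → ∀ j, c j = some v → b j ⬝ᵥ star (b i) = if i = j then 1 else 0 := by
    intro v
    obtain ⟨P, hP, eP⟩ := fin_BM6 (c1 c p) v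
    obtain ⟨Q, hQ, eQ⟩ := fin_BM6 c v
    have hPQ : P ⊆ Q := by
      intro i hi
      rw [hP, c1] at hi
      split_ifs at hi
      exact (hQ i).2 hi
    obtain ⟨b, h1, h2, h3⟩ := onb_BM6 (A := U.map (dg c (some v)).mulVecLin)
      LinearMap.map_le_range hPQ ((congrFun h v).trans eP) ((rank_BM6 c v).trans eQ)
    refine ⟨b, fun i hi => ?_, fun i hi l hl => ?_,
      fun i hi j hj => h3 i ((hQ i).2 hi) j ((hQ j).2 hj)⟩
    · obtain ⟨y, hy, e⟩ := h1 i ((hP i).2 hi)
      rw [← e]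
      exact hU.1 v y hy
    · obtain ⟨y, e⟩ := h2 i ((hQ i).2 hi)
      rw [← e]
      simp [dg, dp_mulVec, hl]
  choose b h1 h2 h3 using key
  let col : ι → ι → ℂ := fun j => (c j).elim (Pi.single j 1) fun v => b v j
  have c0 : ∀ j, c j = none → col j = Pi.single j 1 := fun j hj => by simp [col, hj]
  have cs : ∀ j v, c j = some v → col j = b v j := fun j v hj => by simp [col, hj]
  have hz : ∀ i j, c i ≠ c j → col j i = 0 := by
    intro i j hij
    cases hj : c j with
    | none => rw [c0 j hj, Pi.single_eq_of_ne fun e => hij (by rw [e])]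
    | some v => rw [cs j v hj, h2 v j hj i (hj ▸ hij)]
  let k : Matrix ι ι ℂ := Matrix.of fun i j => col j i
  have hk : star k * k = 1 := by
    ext i j
    have e : (star k * k) i j = col j ⬝ᵥ star (col i) := by
      simp [Matrix.mul_apply, k, dotProduct, mul_comm]
    rw [e, Matrix.one_apply]
    by_cases hij : c i = c j
    · cases hj : c j with
      | none =>
        rw [c0 j hj, c0 i (hij.trans hj)]
        simp [Pi.single_apply]
      | some v => rw [cs j v hj, cs i v (hij.trans hj), h3 v i (hij.trans hj) j hj]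
    · rw [if_neg fun e => hij (by rw [e])]
      refine Finset.sum_eq_zero fun l _ => ?_
      by_cases hl : c l = c j
      · rw [Pi.star_apply, hz l i fun e => hij (e.symm.trans hl), star_zero, mul_zero]
      · rw [hz l j hl, zero_mul]
  let g : GG ι := ⟨k, star k, mul_eq_one_comm.1 hk, hk⟩
  have hg : g ∈ Gc c := by
    refine mem_Gc_iff.2 fun i j hij => ?_
    change col j i = _
    by_cases e : c i = c j
    · rw [c0 j (e ▸ hij.resolve_left (not_not.2 e)), Pi.single_apply]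
    · rw [hz i j e, if_neg fun e' => e (by rw [e'])]
  obtain ⟨g1, g2⟩ := (gs_V1 hp).1.map hg
  refine ⟨g, ⟨hg, hk⟩, eq_BM6 hU g1 ?_ (by rw [g2, (gs_V1 hp).2, h])⟩
  rintro _ ⟨_, ⟨y, rfl⟩, rfl⟩
  have e : g.1.mulVecLin ((e1 p).mulVecLin y) = ∑ j, (e1 p *ᵥ y) j • col j := by
    funext i
    simp [g, k, Matrix.mulVec, dotProduct, Finset.sum_apply, mul_comm]
  rw [e]
  refine Submodule.sum_mem _ fun j _ => ?_
  rw [e1, dp_mulVec]
  split_ifs with hj
  · obtain ⟨v, hv⟩ := Option.ne_none_iff_exists'.1 (hp j hj)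
    rw [cs j v hv]
    exact U.smul_mem _ (h1 v j (by simp [c1, hj, hv]))
  · rw [zero_smul]
    exact zero_mem _

lemma trace_BM6 {x : Matrix ι ι ℂ} (h : x * x = x) :
    x.trace = Module.finrank ℂ (LinearMap.range x.mulVecLin) := by
  have h1 : IsIdempotentElem x.mulVecLin := by
    change x.mulVecLin ∘ₗ x.mulVecLin = _
    rw [← Matrix.mulVecLin_mul, h]
  rw [← ((LinearMap.isProj_range_iff_isIdempotentElem _).2 h1).trace]
  exact (Matrix.trace_toLin'_eq x).symm

omit [DecidableEq ι] in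
lemma absorb_BM6 {x y : Matrix ι ι ℂ} (h : x * x = x)
    (hr : LinearMap.range y.mulVecLin ≤ LinearMap.range x.mulVecLin) : x * y = y := by
  refine Matrix.ext_iff_mulVec.2 fun z => ?_
  obtain ⟨w, hw⟩ := hr ⟨z, rfl⟩
  simp only [Matrix.mulVecLin_apply] at hw
  rw [← Matrix.mulVec_mulVec, ← hw, Matrix.mulVec_mulVec, h]

theorem gr_BM6 (hp : Adm c p) {e : Cj Unit ι} (h : e ∈ Gr c p) : star (e ()) = e () ∧
    e () * e () = e () ∧ (∀ o, dg c o * e () = e () * dg c o) ∧ dg c none * e () = 0 ∧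
      ∀ v, (dg c (some v) * e ()).trace = dv (c1 c p) v := by
  obtain ⟨⟨k, hk, hu⟩, rfl⟩ := h
  have he : ((⟨k, hk, hu⟩ : Kc c) • E1 p) () = k.1 * e1 p * (k⁻¹).1 := rfl
  have hc : ∀ o, dg c o * e1 p = e1 p * dg c o := fun o => dp_comm _ _
  simp only [he]
  refine ⟨?_, ?_, fun o => ?_, ?_, fun v => ?_⟩
  · rw [inv_eq_star hu, star_mul, star_mul, star_star, star_e1, mul_assoc]
  · rw [mul_assoc, mul_assoc, ← mul_assoc (k⁻¹).1, ← mul_assoc (k⁻¹).1, Units.inv_mul, one_mul,
      ← mul_assoc (e1 p), e1_e1, mul_assoc]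
  · rw [← mul_assoc, ← mul_assoc, hk.1, mul_assoc k.1, hc, mul_assoc, mul_assoc,
      ((Gc c).inv_mem hk).1]
    simp only [mul_assoc]
  · rw [← mul_assoc, ← mul_assoc, hk.2, dg, e1, dp_mul_dp, dp_false fun i hi => hp i hi.2 hi.1,
      zero_mul]
  · rw [← mul_assoc, ← mul_assoc, hk.1, mul_assoc k.1, Matrix.trace_units_conj,
      ← rank_BM6, ← trace_BM6 (x := dg _ _) (dp_idem _), dg, e1, dp_mul_dp]
    refine congrArg _ (dp_congr fun i => ?_)
    by_cases hi : p i = true <;> simp [c1, hi]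

/-- a projection with the right traces lies in the Grassmannian -/
theorem mem_Gr (hp : Adm c p) {e : Cj Unit ι} (h1 : star (e ()) = e ()) (h2 : e () * e () = e ())
    (h3 : ∀ o, dg c o * e () = e () * dg c o) (h4 : dg c none * e () = 0)
    (h5 : ∀ v, ‖(dg c (some v) * e ()).trace - dv (c1 c p) v‖ < 1) : e ∈ Gr c p := by
  have hU : Gs c (LinearMap.range (e ()).mulVecLin) := by
    constructor
    · rintro v _ ⟨y, rfl⟩
      refine ⟨dg c (some v) *ᵥ y, ?_⟩
      simp only [Matrix.mulVecLin_apply, Matrix.mulVec_mulVec, h3]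
    · rintro _ ⟨y, rfl⟩
      simp only [Matrix.mulVecLin_apply, Matrix.mulVec_mulVec, h4, Matrix.zero_mulVec]
  have hd : du c (LinearMap.range (e ()).mulVecLin) = dv (c1 c p) := by
    funext v
    have hi : dg c (some v) * e () * (dg c (some v) * e ()) = dg c (some v) * e () := by
      rw [mul_assoc, ← mul_assoc (e ()), ← h3, mul_assoc, h2, ← mul_assoc, dg, dp_idem]
    have h6 := h5 v
    rw [trace_BM6 hi, Matrix.mulVecLin_mul, LinearMap.range_comp, ← Int.cast_natCast,
      ← Int.cast_natCast (dv _ _), ← Int.cast_sub, Complex.norm_intCast, ← Int.cast_abs,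
      ← Int.cast_one, Int.cast_lt, Int.abs_lt_one_iff] at h6
    unfold du
    omega
  obtain ⟨k, hk, hUk⟩ := exists_unitary hp hU hd
  have hm : k • E1 p ∈ Gr c p := ⟨⟨k, hk⟩, rfl⟩
  obtain ⟨g1, g2, -⟩ := gr_BM6 hp hm
  have hr : LinearMap.range ((k • E1 p) ()).mulVecLin = LinearMap.range (e ()).mulVecLin := by
    rw [hUk, Cj.smul_apply, Matrix.mulVecLin_mul, Matrix.mulVecLin_mul, LinearMap.range_comp,
      LinearMap.range_eq_top.2 (Matrix.mulVec_surjective_iff_isUnit.2 (k⁻¹).isUnit),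
      Submodule.map_top, LinearMap.range_comp]
    rfl
  have a1 := absorb_BM6 g2 hr.ge
  have a2 := absorb_BM6 h2 hr.le
  have : e = k • E1 p := by
    funext u
    change e () = (k • E1 p) ()
    rw [← h1, ← a1, star_mul, h1, g1, a2]
  rwa [this]

theorem Gr_spec (hp : Adm c p) {e : Cj Unit ι} (h : e ∈ Gr c p) : star (e ()) = e () ∧
    e () * e () = e () ∧ (∀ o, dg c o * e () = e () * dg c o) ∧ dg c none * e () = 0 ∧
      ∀ v, (dg c (some v) * e ()).trace = dv (c1 c p) v :=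
  gr_BM6 hp h

/-- transitivity on the sphere -/
theorem exists_ray {v : κ} {i₀ : ι} (hi : c i₀ = some v) {x : Mt ι} (hx : x ∈ F0 c v)
    (h0 : x ≠ 0) : ∃ k ∈ Kc c, ∃ r : ℝ, 0 < r ∧ (k • x).m = Matrix.single i₀ 0 (r : ℂ) := by
  let y : ι → ℂ := fun i => x.m i 0
  have hy : y ≠ 0 := by
    intro e
    refine h0 (Matrix.ext fun i j => ?_)
    by_cases hj : j = 0
    · rw [hj]
      exact congrFun e i
    · exact hx i j (Or.inr hj)
  have hv : dg c (some v) *ᵥ y = y := by
    funext i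
    rw [dg, dp_mulVec]
    split_ifs with h
    · rfl
    · exact (hx i 0 (Or.inl h)).symm
  have hw : ∀ o, o ≠ some v → dg c o *ᵥ y = 0 := by
    intro o ho
    funext i
    rw [dg, dp_mulVec]
    split_ifs with h
    · exact hx i 0 (Or.inl (h ▸ ho))
    · rfl
  let q : ι → Bool := fun i => decide (i = i₀)
  have hq : Adm c q := by
    intro i h
    rw [of_decide_eq_true h, hi]
    simp
  have hU : Gs c (Submodule.span ℂ {y}) := by
    constructor
    · intro w z hz
      obtain ⟨a, rfl⟩ := Submodule.mem_span_singleton.1 hz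
      rw [Matrix.mulVec_smul]
      refine Submodule.smul_mem _ _ ?_
      by_cases e : w = v
      · rw [e, hv]
        exact Submodule.mem_span_singleton_self y
      · rw [hw _ fun e' => e (Option.some.inj e')]
        exact zero_mem _
    · intro z hz
      obtain ⟨a, rfl⟩ := Submodule.mem_span_singleton.1 hz
      rw [Matrix.mulVec_smul, hw none (by simp), smul_zero]
  have hd : du c (Submodule.span ℂ {y}) = dv (c1 c q) := by
    funext w
    obtain ⟨P, hP, eP⟩ := fin_BM6 (c1 c q) w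
    rw [eP, du, Submodule.map_span, Set.image_singleton, Matrix.mulVecLin_apply]
    by_cases e : w = v
    · have : P = {i₀} := by
        ext i
        rw [hP, Finset.mem_singleton]
        by_cases h : i = i₀ <;> simp [c1, q, h, hi, e]
      rw [e, hv, finrank_span_singleton hy, this, Finset.card_singleton]
    · have : P = ∅ := by
        ext i
        rw [hP]
        by_cases h : i = i₀ <;> simp [c1, q, h, hi, Ne.symm e]
      rw [hw _ fun e' => e (Option.some.inj e'), Submodule.span_zero_singleton, this]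
      simp
  obtain ⟨k, hk, hUk⟩ := exists_unitary hq hU hd
  obtain ⟨_, ⟨w, rfl⟩, hw'⟩ : y ∈ (V1 q).map k.1.mulVecLin :=
    hUk ▸ Submodule.mem_span_singleton_self y
  simp only [Matrix.mulVecLin_apply] at hw'
  have hz : w i₀ ≠ 0 := by
    intro e
    have : e1 q *ᵥ w = 0 := by
      funext i
      rw [e1, dp_mulVec]
      split_ifs with h
      · rw [of_decide_eq_true h]
        exact e
      · rfl
    rw [this, Matrix.mulVec_zero] at hw'
    exact hy hw'.symm
  have hn : ‖w i₀‖ ≠ 0 := norm_ne_zero_iff.2 hz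
  obtain ⟨g, hg, eg, -⟩ := exists_circ c (fun i => i = i₀) (fun i h e => by simp [e, hi] at h)
    (a := (‖w i₀‖ : ℂ) / w i₀) (by simp [hn])
  refine ⟨g * k⁻¹, mul_mem hg (inv_mem hk), ‖w i₀‖, norm_pos_iff.2 hz, ?_⟩
  ext i j
  rw [Mt.smul_m]
  by_cases hj : j = 0
  · subst hj
    have e : ((g * k⁻¹).1 * x.m) i 0 = ((g * k⁻¹).1 *ᵥ y) i := rfl
    rw [e, ← hw', Matrix.mulVec_mulVec, ← Units.val_mul, inv_mul_cancel_right, eg,
      Matrix.add_mulVec, Matrix.smul_mulVec, Pi.add_apply, Pi.smul_apply, dp_mulVec, dp_mulVec,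
      e1, dp_mulVec]
    by_cases h : i = i₀
    · simp [q, h, hz]
    · simp [q, h, Ne.symm h]
  · rw [Matrix.mul_apply, Matrix.single_apply_of_col_ne _ _ (Ne.symm hj)]
    exact Finset.sum_eq_zero fun l _ => by rw [hx l j (Or.inr hj), mul_zero]

end Pool.Agent.Bet
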