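import Pool.Agent.P.MP_d34769_ag.BM1
import Pool.Agent.P.MP_d34769_ag.BM6

/-! TASK BM10: an equivariant neighbourhood retraction onto the Grassmannian. -/

open Set Matrix

namespace Pool.Agent.Bet

variable {ι : Type} [Fintype ι] [DecidableEq ι] {κ : Type} {Ar : Type} [Finite κ]
  {c : ι → Option κ} {p : ι → Bool}

omit [Finite κ] in
lemma dg_ne_BM10 {o o' : Option κ} (h : o ≠ o') : dg c o * dg c o' = 0 := by
  rw [dg, dg, dp_mul_dp]
  exact dp_false fun i hi => h (hi.1.symm.trans hi.2)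

omit [Finite κ] in
lemma dg_idem_BM10 (o : Option κ) : dg c o * dg c o = dg c o := dp_idem _

omit [Finite κ] [Fintype ι] in
lemma dg_sum_BM10 [Fintype κ] : dg c none + ∑ v, dg c (some v) = 1 := by
  ext i j
  simp only [Matrix.add_apply, Matrix.sum_apply, dg, dp, Matrix.diagonal_apply, Matrix.one_apply]
  by_cases h : i = j
  · simp only [if_pos h]
    rcases Option.eq_none_or_eq_some (c i) with hc | ⟨v, hc⟩
    · simp [hc]
    · rw [if_neg (by simp [hc]), zero_add, Finset.sum_eq_single v (fun b _ hb => if_neg (by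
        simpa [hc] using hb.symm)) (by simp), if_pos hc]
  · simp [h]

lemma exists_s_BM10 (c : ι → Option κ) : ∃ s : Cj Unit ι → Matrix ι ι ℂ, Continuous s ∧
    (∀ x, star (s x) = s x) ∧ (∀ x o, dg c o * s x = s x * dg c o) ∧
    (∀ x, dg c none * s x = -dg c none) ∧ (∀ k ∈ Kc c, ∀ x, s (k • x) = k.1 * s x * (k⁻¹).1) ∧
    ∀ x : Cj Unit ι, star (x ()) = x () → (∀ o, dg c o * x () = x () * dg c o) →
      dg c none * x () = 0 → s x = x () + x () - 1 := by
  have := Fintype.ofFinite κ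
  refine ⟨fun x => ∑ v, dg c (some v) * (x () + star (x ())) * dg c (some v) - 1, ?_, fun x => ?_,
    fun x o => ?_, fun x => ?_, fun k hk x => ?_, fun x h1 h2 h3 => ?_⟩
  · have h := Cj.continuous_apply (ι := ι) ()
    exact (continuous_finsetSum _ fun v _ =>
      (continuous_const.mul (h.add h.star)).mul continuous_const).sub continuous_const
  · simp only [star_sub, star_sum, star_mul, star_add, star_star, dg, star_dp, star_one, mul_assoc,
      add_comm]
  · rw [mul_sub, sub_mul, mul_one, one_mul, Finset.mul_sum, Finset.sum_mul]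
    refine congrArg (· - _) (Finset.sum_congr rfl fun v _ => ?_)
    rw [← mul_assoc, ← mul_assoc, mul_assoc _ (dg c (some v)) (dg c o)]
    by_cases h : o = some v
    · rw [h, dg_idem_BM10]
    · rw [dg_ne_BM10 h, dg_ne_BM10 (Ne.symm h), zero_mul, zero_mul, mul_zero]
  · rw [mul_sub, mul_one, Finset.mul_sum, Finset.sum_eq_zero, zero_sub]
    intro v _
    rw [← mul_assoc, ← mul_assoc, dg_ne_BM10 (by simp), zero_mul, zero_mul]
  · have h1 := hk.1.1
    have h2 := ((Gc c).inv_mem hk.1).1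
    have h3 : star (k⁻¹).1 = k.1 := by rw [inv_eq_star hk.2, star_star]
    simp only [Cj.smul_apply, star_mul, h3, ← inv_eq_star hk.2, mul_sub, sub_mul, mul_one,
      Units.mul_inv, Finset.mul_sum, Finset.sum_mul]
    refine congrArg (· - _) (Finset.sum_congr rfl fun v _ => ?_)
    rw [← mul_assoc k.1 (star _), ← add_mul, ← mul_add, mul_assoc, mul_assoc (k.1 * _), ← h2,
      ← mul_assoc, ← mul_assoc, ← mul_assoc, h1]
    simp only [mul_assoc]
  · have h4 : ∀ v, dg c (some v) * (x () + x ()) * dg c (some v) =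
        dg c (some v) * (x () + x ()) := fun v => by
      rw [mul_assoc, add_mul, ← h2, ← mul_add, ← mul_assoc, dg_idem_BM10]
    simp only [h1, h4, ← Finset.sum_mul]
    rw [eq_sub_of_add_eq' (dg_sum_BM10 (c := c)), sub_mul, mul_add (dg c none), h3]
    simp

omit [Finite κ] in
lemma exists_S_BM10 {X : Type} [TopologicalSpace X] {s : X → Matrix ι ι ℂ} (hs : Continuous s) :
    ∃ S : X → GG ι, ContinuousOn S {x | (s x).det ≠ 0} ∧ ∀ x, (s x).det ≠ 0 → (S x).1 = s x := by
  classical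
  have h : ∀ x, ∃ g : GG ι, (s x).det ≠ 0 → g.1 = s x := fun x => by
    by_cases h : (s x).det ≠ 0
    · exact ⟨((Matrix.isUnit_iff_isUnit_det _).2 h.isUnit).unit, fun _ => rfl⟩
    · exact ⟨1, fun h' => absurd h' h⟩
  choose S hS using h
  refine ⟨S, ?_, hS⟩
  rw [continuousOn_iff_continuous_domRestrict, Units.continuous_iff]
  have h1 : Continuous fun x : {x | (s x).det ≠ 0} => s x := hs.comp continuous_subtype_val
  refine ⟨h1.congr fun x => (hS x x.2).symm,
    ((h1.matrix_det.inv₀ fun x => x.2).smul h1.matrix_adjugate).congr fun x => ?_⟩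
  rw [Matrix.coe_units_inv, domRestrict_apply, hS x x.2, Matrix.inv_def, Ring.inverse_eq_inv']
  rfl

omit [Finite κ] in
lemma un_BM10 {u : GG ι → GG ι} (hu : IsUn u) {S : GG ι} (h1 : ∀ o, dg c o * S.1 = S.1 * dg c o)
    (h2 : dg c none * S.1 = -dg c none) :
    (∀ o, dg c o * (u S).1 = (u S).1 * dg c o) ∧ dg c none * (u S).1 = -dg c none := by
  have e1 := dg_idem_BM10 (c := c) none
  have hd : (1 - dg c none - dg c none) * (1 - dg c none - dg c none) = 1 := by
    simp only [mul_sub, sub_mul, mul_one, one_mul, e1]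
    abel
  let d : GG ι := ⟨_, _, hd, hd⟩
  have d1 : ∀ o, dg c o * d.1 = d.1 * dg c o := fun o => by
    simp only [d, mul_sub, sub_mul, mul_one, one_mul, dg, dp_comm]
  have d2 : dg c none * d.1 = -dg c none := by
    simp only [d, mul_sub, mul_one, e1]
    abel
  have d3 : d ∈ Un ι := by
    rw [mem_Un]
    simpa only [d, star_sub, star_one, dg, star_dp] using hd
  have h3 : u (d * S) ∈ Gc c := (hu.blk κ c (d * S) ⟨fun o => by
    rw [Units.val_mul, ← mul_assoc, d1, mul_assoc, h1, mul_assoc], by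
      rw [Units.val_mul, ← mul_assoc, d2, neg_mul, h2, neg_neg]⟩).1
  have h4 := hu.equiv S d d3 1 (Un ι).one_mem
  rw [mul_one, mul_one] at h4
  rw [h4, mem_Gc, Units.val_mul] at h3
  refine ⟨fun o => d.isUnit.mul_left_cancel ?_, ?_⟩
  · rw [← mul_assoc, ← d1, mul_assoc, h3.1, mul_assoc]
  · have h5 := h3.2
    rw [← mul_assoc, d2, neg_mul] at h5
    exact neg_eq_iff_eq_neg.1 h5

theorem exists_retraction (hp : Adm c p) : ∃ (N : Set (Cj Unit ι)) (ρ : Cj Unit ι → Cj Unit ι),
    IsOpen N ∧ Ivt (Kc c) N ∧ Gr c p ⊆ N ∧ ContinuousOn ρ N ∧ MapsTo ρ N (Gr c p) ∧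
      (∀ k : Kc c, ∀ x ∈ N, ρ (k • x) = k • ρ x) ∧ ∀ x ∈ Gr c p, ρ x = x := by
  obtain ⟨u, hu⟩ := exists_un (ι := ι)
  obtain ⟨s, s1, s2, s3, s4, s5, s6⟩ := exists_s_BM10 c
  obtain ⟨S, S1, S2⟩ := exists_S_BM10 s1
  let ρ : Cj Unit ι → Cj Unit ι := fun x _ => (2⁻¹ : ℂ) • (1 + (u (S x)).1)
  let T : Set (Cj Unit ι) := {e | ∀ v, ‖(dg c (some v) * e ()).trace - dv (c1 c p) v‖ < 1}
  have hT : IsOpen T := by
    rw [show T = ⋂ v, {e : Cj Unit ι | ‖(dg c (some v) * e ()).trace - dv (c1 c p) v‖ < 1} from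
      ofPred_forall _]
    exact isOpen_iInter_of_finite fun v => isOpen_lt
      ((continuous_const.mul (Cj.continuous_apply ())).matrix_trace.sub continuous_const).norm
      continuous_const
  have hρ : ContinuousOn ρ {x | (s x).det ≠ 0} := continuousOn_pi.2 fun _ =>
    (continuousOn_const.add ((Units.continuous_val.comp hu.cont).comp_continuousOn S1)).const_smul
      (2⁻¹ : ℂ)
  have h1 : ∀ k : Kc c, ∀ x, (s (k • x)).det = (s x).det := fun k x => by
    rw [Subgroup.smul_def, s5 _ k.2, Matrix.det_units_conj]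
  have h2 : ∀ k : Kc c, ∀ x, (s x).det ≠ 0 → ρ (k • x) = k • ρ x := fun k x hx => by
    have h3 : S (k • x) = k.1 * S x * k.1⁻¹ := Units.ext (by
      rw [S2 _ (by rwa [h1]), Subgroup.smul_def, s5 _ k.2, Units.val_mul, Units.val_mul, S2 _ hx])
    funext a
    rw [Subgroup.smul_def k (ρ x), Cj.smul_apply]
    simp only [ρ, h3, hu.equiv _ _ k.2.2 _ ((Un ι).inv_mem k.2.2),
      Units.val_mul, Matrix.mul_smul, Matrix.smul_mul, mul_add, add_mul, mul_one,
      Units.mul_inv]
  have h3 : ∀ x ∈ Gr c p, (s x).det ≠ 0 ∧ ρ x = x := fun x hx => by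
    obtain ⟨g1, g2, g3, g4, -⟩ := Gr_spec hp hx
    have h4 : s x * s x = 1 := by
      simp only [s6 x g1 g3 g4, mul_sub, sub_mul, mul_add, add_mul, g2, mul_one, one_mul]
      abel
    have h5 := (Matrix.isUnit_det_of_left_inverse h4).ne_zero
    refine ⟨h5, funext fun a => ?_⟩
    simp only [ρ]
    rw [hu.self _ (by rw [mem_Un, S2 _ h5, s2, h4]), S2 _ h5, s6 x g1 g3 g4, add_sub_cancel,
      ← two_smul ℂ, smul_smul, inv_mul_cancel₀ two_ne_zero, one_smul]
  refine ⟨{x | (s x).det ≠ 0} ∩ ρ ⁻¹' T, ρ, hρ.isOpen_inter_preimage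
    (isOpen_ne_fun s1.matrix_det continuous_const) hT, fun k x hx => ⟨?_, fun v => ?_⟩,
    fun x hx => ⟨(h3 x hx).1, fun v => ?_⟩, hρ.mono inter_subset_left, fun x hx => ?_,
    fun k x hx => h2 k x hx.1, fun x hx => (h3 x hx).2⟩
  · exact (h1 k x).trans_ne hx.1
  · rw [h2 k x hx.1, Subgroup.smul_def, Cj.smul_apply, ← mul_assoc, ← mul_assoc, k.2.1.1,
      mul_assoc k.1.1, Matrix.trace_units_conj]
    exact hx.2 v
  · rw [(h3 x hx).2, (Gr_spec hp hx).2.2.2.2 v, sub_self, norm_zero]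
    exact one_pos
  · have h4 := hu.herm (S x) (by rw [S2 _ hx.1, s2])
    have h5 := mem_Un.1 (hu.mem (S x))
    obtain ⟨h6, h7⟩ := un_BM10 (c := c) hu (S := S x) (by rw [S2 _ hx.1]; exact s3 x)
      (by rw [S2 _ hx.1, s4])
    rw [h4] at h5
    refine mem_Gr hp ?_ ?_ (fun o => ?_) ?_ hx.2
    · simp [ρ, h4]
    · simp only [ρ, Matrix.mul_smul, Matrix.smul_mul, mul_add, add_mul, mul_one, one_mul, h5]
      module
    · simp only [ρ, Matrix.mul_smul, Matrix.smul_mul, mul_add, add_mul, mul_one, one_mul, h6]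
    · simp only [ρ, Matrix.mul_smul, mul_add, mul_one, h7, add_neg_cancel, smul_zero]

end Pool.Agent.Bet
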