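import Pool.Agent.P.MP_d34769_ag.BM1
import Pool.Agent.P.MP_d34769_ag.BM6

/-! TASK BM11: the big cell of the Grassmannian. -/

open Set Matrix

namespace Pool.Agent.Bet

variable {ι : Type} [Fintype ι] [DecidableEq ι] {κ : Type} {Ar : Type} [Fintype κ]
  {c : ι → Option κ} {p : ι → Bool}

open scoped ComplexOrder in
lemma unit_BM11 (x : Matrix ι ι ℂ) : IsUnit (1 + (x - star x)) := by
  have h := (PosDef.one.add_posSemidef (posSemidef_conjTranspose_mul_self (x - star x))).isUnit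
  have e : 1 + (x - star x)ᴴ * (x - star x) = (1 - (x - star x)) * (1 + (x - star x)) := by
    rw [← star_eq_conjTranspose, star_sub, star_star]
    noncomm_ring
  rw [e, isUnit_iff_isUnit_det, det_mul] at h
  exact (isUnit_iff_isUnit_det _).2 (isUnit_of_mul_isUnit_right h)

/-- The unit `1 + x - x^*`. -/
noncomputable def gBM11 (x : Matrix ι ι ℂ) : GG ι := (unit_BM11 x).unit

lemma inv_BM11 {A : Matrix ι ι ℂ} (h : A.det ≠ 0) : ContinuousAt Inv.inv A :=
  continuousAt_matrix_inv A (NormedRing.inverse_continuousAt (Units.mk0 _ h))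

lemma cont_BM11 : Continuous (gBM11 : Matrix ι ι ℂ → GG ι) := by
  have h : Continuous fun x : Matrix ι ι ℂ => 1 + (x - star x) := by fun_prop
  refine Units.continuous_iff.2 ⟨h, ?_⟩
  simp only [coe_units_inv]
  exact continuous_iff_continuousAt.2 fun x => ContinuousAt.comp (g := Inv.inv)
    (inv_BM11 ((isUnit_iff_isUnit_det _).1 (unit_BM11 x)).ne_zero) h.continuousAt

omit [Fintype κ] in
lemma mem_BM11 {x : Matrix ι ι ℂ} (h1 : ∀ o, dg c o * x = x * dg c o) (h2 : dg c none * x = 0) :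
    gBM11 x ∈ Gc c := by
  have h3 : ∀ o, dg c o * star x = star x * dg c o := fun o => by
    simpa [dg] using (congrArg star (h1 o)).symm
  have h4 : dg c none * star x = 0 := by
    rw [h3]
    simpa [dg] using congrArg star h2
  refine ⟨fun o => ?_, ?_⟩
  · show dg c o * (1 + (x - star x)) = (1 + (x - star x)) * dg c o
    rw [mul_add, add_mul, mul_sub, sub_mul, h1, h3, mul_one, one_mul]
  · show dg c none * (1 + (x - star x)) = _
    rw [mul_add, mul_sub, h2, h4, mul_one, sub_zero, add_zero]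

/-- The sum of the diagonal blocks. -/
noncomputable def xBM11 (c : ι → Option κ) (a : Cj κ ι) : Matrix ι ι ℂ :=
  ∑ v, dg c (some v) * a v * dg c (some v)

omit [Fintype κ] in
lemma dgdg_BM11 {o o' : Option κ} (h : o ≠ o') : dg c o * dg c o' = 0 := by
  rw [dg, dg, dp_mul_dp]
  exact dp_false fun i hi => h (hi.1.symm.trans hi.2)

lemma xl_BM11 (a : Cj κ ι) (v : κ) :
    dg c (some v) * xBM11 c a = dg c (some v) * a v * dg c (some v) := by
  rw [xBM11, Finset.mul_sum, Finset.sum_eq_single v]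
  · rw [← mul_assoc, ← mul_assoc, dg, dp_idem]
  · intro w _ h
    rw [← mul_assoc, ← mul_assoc, dgdg_BM11 (by simpa using h.symm), zero_mul, zero_mul]
  · simp

lemma xr_BM11 (a : Cj κ ι) (v : κ) :
    xBM11 c a * dg c (some v) = dg c (some v) * a v * dg c (some v) := by
  rw [xBM11, Finset.sum_mul, Finset.sum_eq_single v]
  · rw [mul_assoc _ (dg c (some v)), dg, dp_idem]
  · intro w _ h
    rw [mul_assoc, dgdg_BM11 (by simpa using h), mul_zero]
  · simp

lemma xn_BM11 (a : Cj κ ι) : dg c none * xBM11 c a = 0 := by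
  rw [xBM11, Finset.mul_sum]
  refine Finset.sum_eq_zero fun v _ => ?_
  rw [← mul_assoc, ← mul_assoc, dgdg_BM11 (by simp), zero_mul, zero_mul]

lemma xc_BM11 (a : Cj κ ι) (o : Option κ) : dg c o * xBM11 c a = xBM11 c a * dg c o := by
  cases o with
  | some v => rw [xl_BM11, xr_BM11]
  | none =>
    rw [xn_BM11, xBM11, Finset.sum_mul]
    refine (Finset.sum_eq_zero fun v _ => ?_).symm
    rw [mul_assoc, dgdg_BM11 (by simp), mul_zero]

lemma xz_BM11 {z : Matrix ι ι ℂ} (h1 : ∀ o, dg c o * z = z * dg c o) (h2 : dg c none * z = 0) :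
    xBM11 c (fun v => dg c (some v) * z * dg c (some v)) = z := by
  have h3 : ∑ o, dg c o = 1 := by
    ext i j
    rw [Matrix.sum_apply, Finset.sum_eq_single (c i) (fun o _ h => by simp [dg, dp_apply, h.symm])
      (by simp)]
    simp [dg, dp_apply, one_apply]
  conv_rhs => rw [← one_mul z, ← h3, Finset.sum_mul, Fintype.sum_option, h2, zero_add]
  refine Finset.sum_congr rfl fun v _ => ?_
  have h4 : dg c (some v) * dg c (some v) = dg c (some v) := dp_idem _
  simp only [h1, mul_assoc, h4]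
  rw [← mul_assoc, h1, mul_assoc, h4]

section ring
variable {R : Type} [Ring R] {P Q x y e : R}

lemma comm_BM11 (h1 : P * x = 0) (h2 : x * P = x) (h3 : P * y = y)
    (h4 : y * P = 0) : P * ((1 - (x - y)) * (1 + (x - y))) = (1 - (x - y)) * (1 + (x - y)) * P := by
  have h5 : x * x = 0 := by rw [← h2, mul_assoc, ← mul_assoc P, h1, zero_mul, mul_zero]
  have h6 : y * y = 0 := by rw [← h3, mul_assoc, ← mul_assoc y, h4, zero_mul, mul_zero]
  have h7 : (1 - (x - y)) * (1 + (x - y)) = 1 + x * y + y * x - x * x - y * y := by noncomm_ring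
  rw [h7, h5, h6, sub_zero, sub_zero, mul_add, mul_add, add_mul, add_mul, ← mul_assoc, ← mul_assoc,
    h1, h3, mul_assoc, mul_assoc, h4, h2, mul_one, one_mul, zero_mul, mul_zero]

lemma key_BM11 (hP : P * P = P) (h2 : x * P = x) (h1 : P * x = 0) (h4 : y * P = 0)
    (he : e * (1 + (x - y)) = (1 + (x - y)) * P) :
    e * ((1 - (x - y)) * (1 + (x - y)) * P) = P + x := by
  have h7 : (1 - (x - y)) * (1 + (x - y)) = (1 + (x - y)) * (1 - (x - y)) := by noncomm_ring
  have h8 : P * ((1 - (x - y)) * P) = P := by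
    rw [sub_mul, sub_mul, h2, h4, one_mul, sub_zero, mul_sub, h1, hP, sub_zero]
  rw [h7, mul_assoc, ← mul_assoc e, he, mul_assoc, h8, add_mul, sub_mul, h2, h4, one_mul, sub_zero]

end ring

omit [Fintype κ] in
lemma conj_BM11 {u : GG ι → GG ι} (hu : IsUn u) {x : Matrix ι ι ℂ} (hx : e2 p * x * e1 p = x) :
    (e1 p * x = 0 ∧ x * e1 p = x ∧ e1 p * star x = star x ∧ star x * e1 p = 0 ∧ e2 p * x = x) ∧
    (u (gBM11 x) • E1 p) () * (1 + (x - star x)) = (1 + (x - star x)) * e1 p := by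
  have h1 : e1 p * x = 0 := by rw [← hx, ← mul_assoc, ← mul_assoc, e1_e2, zero_mul, zero_mul]
  have h2 : x * e1 p = x := by rw [← hx, mul_assoc _ (e1 p), e1_e1]
  have h3 : e1 p * star x = star x := by simpa using congrArg star h2
  have h4 : star x * e1 p = 0 := by simpa using congrArg star h1
  refine ⟨⟨h1, h2, h3, h4, by rw [← hx, ← mul_assoc, ← mul_assoc, e2_e2]⟩, ?_⟩
  have h5 := hu.comm (gBM11 x) (e1 p) (by
    have e : star (gBM11 x).1 = 1 - (x - star x) := by
      show star (1 + (x - star x)) = _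
      rw [star_add, star_sub, star_star, star_one]
      abel
    rw [e]
    exact comm_BM11 h1 h2 h3 h4)
  show (u (gBM11 x)).1 * e1 p * ((u (gBM11 x))⁻¹).1 * (gBM11 x).1 = (gBM11 x).1 * e1 p
  rw [mul_assoc, mul_assoc, ← Units.val_mul, h5, ← mul_assoc, ← Units.val_mul, mul_inv_cancel_left]

open scoped ComplexOrder in
theorem exists_cell_Gr (hp : Adm c p) :
    ∃ (Ω : Set (Cj Unit ι)) (kk : Cj κ ι → Kc c) (aa : Cj Unit ι → Cj κ ι),
      IsOpen Ω ∧ Ivt (Kc (cp c p)) Ω ∧ ContinuousOn kk (R21 id id c p) ∧ kk 0 = 1 ∧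
      (∀ l ∈ Kc (cp c p), ∀ a ∈ R21 id id c p, (kk (l • a)).1 = l * (kk a).1 * l⁻¹) ∧
      ContinuousOn aa (Gr c p ∩ Ω) ∧ MapsTo aa (Gr c p ∩ Ω) (R21 id id c p) ∧
      (∀ a ∈ R21 id id c p, kk a • E1 p ∈ Ω ∧ aa (kk a • E1 p) = a) ∧
      ∀ e ∈ Gr c p ∩ Ω, kk (aa e) • E1 p = e := by
  obtain ⟨u, hu⟩ := exists_un (ι := ι)
  have hM : Continuous fun e : Cj Unit ι => e1 p * e () * e1 p + e2 p :=
    ((continuous_const.mul (Cj.continuous_apply ())).mul continuous_const).add continuous_const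
  have hx : Continuous (xBM11 c) := continuous_finsetSum _ fun v _ =>
    (continuous_const.mul (Cj.continuous_apply v)).mul continuous_const
  have hQ : e2 p = 1 - e1 p := eq_sub_of_add_eq' (e1_add_e2 p)
  have c1 : ∀ o, dg c o * e1 p = e1 p * dg c o := fun o => dp_comm _ _
  have c2 : ∀ o, dg c o * e2 p = e2 p * dg c o := fun o => dp_comm _ _
  have c3 : ∀ o, dg c o * dg c o = dg c o := fun o => dp_idem _
  refine ⟨{e | (e1 p * e () * e1 p + e2 p).det ≠ 0},
    fun a => ⟨u (gBM11 (xBM11 c a)), hu.blk κ c _ (mem_BM11 (xc_BM11 a) (xn_BM11 a))⟩,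
    fun e v => dg c (some v) * (e2 p * (e () * (e1 p * e () * e1 p + e2 p)⁻¹) * e1 p) *
      dg c (some v), isOpen_ne_fun hM.matrix_det continuous_const, fun l e he => ?_,
    ((hu.cont.comp (cont_BM11.comp hx)).subtype_mk _).continuousOn, Subtype.ext ?_,
    fun l hl a _ => ?_, continuousOn_pi.2 fun v => ?_, fun e _ => ⟨fun v => ?_, funext fun v => ?_⟩,
    fun a ha => ?_, fun e he => ?_⟩
  · have h1 : Commute (e1 p) l.1.1 := (mem_Kc_cp.1 l.2).2
    have h2 : Commute (e2 p) l.1.1 := hQ ▸ (Commute.one_left _).sub_left h1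
    have h3 : e1 p * (l.1.1 * e () * (l.1⁻¹).1) * e1 p + e2 p =
        l.1.1 * (e1 p * e () * e1 p + e2 p) * (l.1⁻¹).1 := by
      rw [mul_add, add_mul, ← h2.eq, Units.mul_inv_cancel_right]
      simp only [← mul_assoc, h1.eq]
      rw [mul_assoc _ _ (e1 p), ← h1.units_inv_right.eq, ← mul_assoc]
    show (e1 p * (l.1.1 * e () * (l.1⁻¹).1) * e1 p + e2 p).det ≠ 0
    rwa [h3, det_units_conj]
  · have h1 : gBM11 (xBM11 c (0 : Cj κ ι)) = 1 := Units.ext (by
      show 1 + (xBM11 c 0 - star (xBM11 c 0)) = 1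
      simp [xBM11, Cj.zero_apply])
    exact (congrArg u h1).trans (hu.self 1 (one_mem _))
  · obtain ⟨h1, h2⟩ := (mem_Kc_cp.1 hl).1
    have h3 : xBM11 c (l • a) = l.1 * xBM11 c a * (l⁻¹).1 := by
      rw [xBM11, xBM11, Finset.mul_sum, Finset.sum_mul]
      refine Finset.sum_congr rfl fun v _ => ?_
      simp only [Cj.smul_apply, ← mul_assoc, h1.1]
      rw [mul_assoc _ _ (dg c _), ← ((Gc c).inv_mem h1).1, ← mul_assoc]
    have h4 : gBM11 (xBM11 c (l • a)) = l * gBM11 (xBM11 c a) * l⁻¹ := Units.ext (by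
      show 1 + (xBM11 c _ - star (xBM11 c _)) = l.1 * (1 + (xBM11 c a - star (xBM11 c a))) * (l⁻¹).1
      rw [h3, star_mul, star_mul, ← inv_eq_star h2, inv_eq_star h2, star_star, ← inv_eq_star h2,
        mul_add, add_mul, mul_sub, sub_mul, mul_one, Units.mul_inv, mul_assoc l.1 (star _)])
    exact (congrArg u h4).trans (hu.equiv _ _ h2 _ (inv_mem h2))
  · refine (continuousOn_const.mul ((continuousOn_const.mul
      ((Cj.continuous_apply ()).continuousOn.mul fun e he => ?_)).mul continuousOn_const)).mul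
      continuousOn_const
    exact (ContinuousAt.comp_of_eq (inv_BM11 he.2) hM.continuousAt rfl).continuousWithinAt
  · simp only [id, ← mul_assoc, c3]
    rw [mul_assoc _ _ (dg c _), c3]
  · simp only [blk_apply, ← mul_assoc, c2]
    rw [e2_e2, mul_assoc _ _ (e1 p), c1, ← mul_assoc, mul_assoc _ (e1 p) (e1 p), e1_e1]
  · have h0 : e2 p * xBM11 c a * e1 p = xBM11 c a := by
      rw [xBM11, Finset.mul_sum, Finset.sum_mul]
      refine Finset.sum_congr rfl fun v _ => ?_
      rw [show dg c (some v) * a v * dg c (some v) = a v from ha.1 v]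
      exact congrFun ha.2 v
    obtain ⟨⟨h1, h2, h3, h4, h5⟩, h6⟩ := conj_BM11 hu h0
    have h7 := key_BM11 (e1_e1 p) h2 h1 h4 h6
    have h8 := comm_BM11 h1 h2 h3 h4
    generalize (1 - (xBM11 c a - star (xBM11 c a))) * (1 + (xBM11 c a - star (xBM11 c a))) = h
      at h7 h8
    change (e1 p * (u (gBM11 (xBM11 c a)) • E1 p) () * e1 p + e2 p).det ≠ 0 ∧
      (fun v => dg c (some v) * (e2 p * ((u (gBM11 (xBM11 c a)) • E1 p) () *
        (e1 p * (u (gBM11 (xBM11 c a)) • E1 p) () * e1 p + e2 p)⁻¹) * e1 p) * dg c (some v)) = a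
    generalize (u (gBM11 (xBM11 c a)) • E1 p) () = e at h7
    have h9 : e1 p * (h * e1 p) = h * e1 p := by rw [← mul_assoc, h8, mul_assoc, e1_e1]
    have h10 : (e1 p * e * e1 p + e2 p) * (h * e1 p + e2 p) = 1 := by
      rw [add_mul, mul_add, mul_add, mul_assoc _ (e1 p), h9, mul_assoc (e1 p), h7, mul_add, h1,
        mul_assoc _ (e1 p), e1_e2, ← h8, ← mul_assoc (e2 p), e2_e1, e1_e1, e2_e2, zero_mul,
        mul_zero, add_zero, add_zero, zero_add, e1_add_e2]
    refine ⟨(isUnit_det_of_right_inverse h10).ne_zero, funext fun v => ?_⟩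
    rw [inv_eq_right_inv h10, mul_assoc (e2 p), mul_assoc e, add_mul, mul_assoc h, e1_e1, e2_e1,
      add_zero, h7, mul_add, e2_e1, zero_add, h5, xl_BM11, mul_assoc _ (dg c _), c3]
    exact ha.1 v
  · obtain ⟨g1, g2, g3, g4, -⟩ := Gr_spec hp he.1
    have hd : IsUnit (e1 p * e () * e1 p + e2 p).det := Ne.isUnit he.2
    have h1 : ∀ w, Commute w (e1 p * e () * e1 p + e2 p) →
        Commute w (e1 p * e () * e1 p + e2 p)⁻¹ := fun w hw => by
      obtain ⟨U, hU⟩ := (isUnit_iff_isUnit_det _).2 hd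
      rw [← hU] at hw ⊢
      rw [← coe_units_inv]
      exact hw.units_inv_right
    have h2 := mul_nonsing_inv _ hd
    have h3 := h1 (e1 p) (by simp [Commute, SemiconjBy, mul_add, add_mul, ← mul_assoc,
      mul_assoc _ (e1 p) (e1 p)])
    have h4 : ∀ o, Commute (dg c o) (e1 p * e () * e1 p + e2 p)⁻¹ := fun o => h1 _
      ((Commute.mul_right (Commute.mul_right (c1 o) (g3 o)) (c1 o)).add_right (c2 o))
    change u (gBM11 (xBM11 c fun v => dg c (some v) * (e2 p * (e () *
      (e1 p * e () * e1 p + e2 p)⁻¹) * e1 p) * dg c (some v))) • E1 p = e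
    generalize (e1 p * e () * e1 p + e2 p)⁻¹ = N at h2 h3 h4
    have h5 : ∀ o, Commute (dg c o) (e2 p * (e () * N) * e1 p) := fun o =>
      Commute.mul_right (Commute.mul_right (c2 o) (Commute.mul_right (g3 o) (h4 o))) (c1 o)
    have h6 : dg c none * (e2 p * (e () * N) * e1 p) = 0 := by
      rw [← mul_assoc, ← mul_assoc, c2, mul_assoc (e2 p), ← mul_assoc (dg c none), g4]
      simp
    rw [xz_BM11 h5 h6]
    have h7 : e1 p + e2 p * (e () * N) * e1 p = e () * (N * e1 p) := by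
      have h8 := congrArg (e1 p * ·) h2
      simp only [← mul_assoc, mul_add, e1_e1, e1_e2, add_zero, mul_one] at h8
      rw [hQ, sub_mul, sub_mul, one_mul, ← mul_assoc (e1 p), mul_assoc _ N, mul_assoc _ N,
        ← h3.eq, ← mul_assoc (e1 p * e ()), h8, add_sub_cancel]
    have hz : e2 p * (e2 p * (e () * N) * e1 p) * e1 p = e2 p * (e () * N) * e1 p := by
      rw [← mul_assoc, ← mul_assoc, e2_e2, mul_assoc _ (e1 p), e1_e1]
    have hm := hu.blk κ c _ (mem_BM11 h5 h6)
    generalize e2 p * (e () * N) * e1 p = z at h7 hz hm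
    obtain ⟨⟨-, k2, -, k4, -⟩, k6⟩ := conj_BM11 hu hz
    obtain ⟨f1, f2, -⟩ := Gr_spec hp (e := u (gBM11 z) • E1 p) ⟨⟨_, hm⟩, rfl⟩
    have t1 : ((u (gBM11 z) • E1 p) ()).trace = (e ()).trace := by
      obtain ⟨k, rfl⟩ := he.1
      exact (trace_units_conj _ _).trans (trace_units_conj _ _).symm
    funext ⟨⟩
    generalize (u (gBM11 z) • E1 p) () = e' at k6 f1 f2 t1
    have k7 : e () * e' = e' := by
      refine (unit_BM11 z).mul_right_cancel ?_
      rw [mul_assoc, k6, add_mul, sub_mul, k2, k4, one_mul, sub_zero, h7, ← mul_assoc, g2]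
    have k8 : e' * e () = e' := by simpa [g1, f1] using congrArg star k7
    refine (sub_eq_zero.1 (trace_conjTranspose_mul_self_eq_zero_iff.1 ?_)).symm
    rw [← star_eq_conjTranspose, star_sub, g1, f1, sub_mul, mul_sub, mul_sub, g2, k7, k8, f2,
      sub_self, sub_zero, trace_sub, t1, sub_self]

end Pool.Agent.Bet
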