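import Pool.Agent.P.MP_d34769_ag.BM1
import Pool.Agent.P.MP_d34769_ag.BH1

/-! TASK BM2: the block groups and the space of frames. -/

open Set Matrix

namespace Pool.Agent.Bet

variable {ι : Type} [Fintype ι] [DecidableEq ι] {κ : Type} {Ar : Type}

theorem emb_val_BM2 : Topology.IsEmbedding (Units.val : GG ι → Matrix ι ι ℂ) := by
  refine Units.isEmbedding_val_mk' (f := fun M : Matrix ι ι ℂ => M⁻¹) ?_ ?_
  · intro M hM
    have h : IsUnit M.det := (Matrix.isUnit_iff_isUnit_det M).1 hM
    obtain ⟨u, hu⟩ := h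
    refine (continuousAt_matrix_inv M ?_).continuousWithinAt
    rw [← hu]
    exact NormedRing.inverse_continuousAt u
  · intro u
    exact (Matrix.coe_units_inv u).symm

theorem compactSpace_Kc (c : ι → Option κ) : CompactSpace (Kc c) := by
  have h : IsCompact (Kc c : Set (GG ι)) := by
    rw [emb_val_BM2.isInducing.isCompact_iff]
    have e : Units.val '' (Kc c : Set (GG ι)) = {M : Matrix ι ι ℂ | star M * M = 1} ∩
        ⋂ i, ⋂ j, ⋂ (_ : c i ≠ c j ∨ c i = none), {M | M i j = if i = j then 1 else 0} := by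
      ext M
      simp only [mem_image, SetLike.mem_coe, mem_Kc, mem_Gc_iff, mem_Un, mem_inter_iff, mem_iInter]
      constructor
      · rintro ⟨g, ⟨h1, h2⟩, rfl⟩
        exact ⟨h2, h1⟩
      · rintro ⟨h1, h2⟩
        exact ⟨⟨M, star M, mul_eq_one_comm.1 h1, h1⟩, ⟨h2, h1⟩, rfl⟩
    rw [e]
    have hc : IsCompact (Set.pi univ fun _ : ι => Set.pi univ fun _ : ι =>
        Metric.closedBall (0 : ℂ) 1) :=
      isCompact_univ_pi fun _ => isCompact_univ_pi fun _ => isCompact_closedBall _ _
    refine IsCompact.of_isClosed_subset (X := Matrix ι ι ℂ) hc ?_ ?_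
    · refine IsClosed.inter ?_ (isClosed_iInter fun i => isClosed_iInter fun j =>
        isClosed_iInter fun _ => isClosed_eq (by fun_prop) continuous_const)
      exact isClosed_eq (continuous_star.mul continuous_id) continuous_const
    · intro M hM i _ j _
      rw [mem_closedBall_zero_iff]
      exact entry_norm_bound_of_unitary (Matrix.mem_unitaryGroup_iff'.2 hM.1) i j
  exact isCompact_iff_compactSpace.1 h

theorem mem_Ec_BM2 {c : ι → Option κ} {f : Mt ι} : f ∈ Ec c ↔
    (∀ i n, c i = none → f.m i n = 0) ∧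
      ∀ (v : κ) (a : ι → ℂ), (∀ i, c i ≠ some v → a i = 0) → (∀ n, ∑ i, a i * f.m i n = 0) →
        a = 0 := by
  unfold Ec
  refine and_congr ?_ (forall₃_congr fun v a _ => imp_congr_left ?_)
  · rw [← Matrix.ext_iff]
    simp only [dg, dp_mul_apply, Matrix.zero_apply, ite_eq_right_iff]
  · rw [funext_iff]
    rfl

theorem ivt_Ec (c : ι → Option κ) : Ivt (Gc c) (Ec c) := by
  rintro ⟨g, hg⟩ f ⟨h1, h2⟩
  refine ⟨?_, fun v a ha h0 => ?_⟩
  · show dg c none * (g.1 * f.m) = 0
    rw [← Matrix.mul_assoc, hg.2, h1]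
  · have h3 : (a ᵥ* g.1) ᵥ* f.m = 0 := by
      rw [Matrix.vecMul_vecMul]
      exact h0
    have h4 : a ᵥ* g.1 = 0 := by
      refine h2 v _ (fun j hj => ?_) h3
      refine Finset.sum_eq_zero fun i _ => ?_
      by_cases hi : c i = some v
      · have hne : c i ≠ c j := fun e => hj (e ▸ hi)
        show a i * g.1 i j = 0
        rw [mem_Gc_iff.1 hg i j (Or.inl hne), if_neg fun e => hne (by rw [e]), mul_zero]
      · show a i * g.1 i j = 0
        rw [ha i hi, zero_mul]
    have h5 : (a ᵥ* g.1) ᵥ* (g⁻¹).1 = a := by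
      rw [Matrix.vecMul_vecMul, Units.mul_inv, Matrix.vecMul_one]
    rw [← h5, h4, Matrix.zero_vecMul]

theorem exists_r_BM2 {c : ι → Option κ} {f : Mt ι} (hf : f ∈ Ec c) (j : ι) :
    ∃ r : ℕ →₀ ℂ, ∀ i, c i = c j → c i ≠ none →
      ∑ n ∈ r.support, f.m i n * r n = if i = j then 1 else 0 := by
  classical
  rcases hv : c j with _ | v
  · exact ⟨0, fun i h1 h2 => absurd h1 h2⟩
  have hmem : (Pi.single j 1 : ι → ℂ) ∈ Submodule.span ℂ
      (range fun n : ℕ => fun i => if c i = some v then f.m i n else 0) := by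
    by_contra hn
    obtain ⟨l, hl, hk⟩ := Submodule.exists_le_ker_of_notMem hn
    have h0 := (mem_Ec_BM2.1 hf).2 v (fun i => if c i = some v then l (Pi.single i 1) else 0)
      (fun i hi => if_neg hi) (fun n => by
        have h1 : l (fun i => if c i = some v then f.m i n else 0) = 0 :=
          hk (Submodule.subset_span ⟨n, rfl⟩)
        rw [LinearMap.pi_apply_eq_sum_univ] at h1
        refine Eq.trans ?_ h1
        refine Finset.sum_congr rfl fun i _ => ?_
        have e : (fun j => if i = j then (1 : ℂ) else 0) = Pi.single i 1 := by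
          funext k
          rw [Pi.single_apply]
          simp only [eq_comm]
        rw [e]
        split_ifs
        · rw [smul_eq_mul, mul_comm]
        · simp)
    have h2 := congrFun h0 j
    rw [if_pos hv] at h2
    exact hl h2
  obtain ⟨r, hr⟩ := (Finsupp.mem_span_range_iff_exists_finsupp).1 hmem
  refine ⟨r, fun i h1 _ => ?_⟩
  have h2 := congrFun hr i
  rw [Finsupp.sum, Finset.sum_apply, Pi.single_apply] at h2
  rw [← h2]
  refine Finset.sum_congr rfl fun n _ => ?_
  rw [Pi.smul_apply, if_pos h1, smul_eq_mul, mul_comm]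

open Classical in
/-- the block part of a matrix -/
noncomputable def blkB_BM2 (c : ι → Option κ) (M : Matrix ι ι ℂ) : Matrix ι ι ℂ :=
  fun i j => if c i = c j ∧ c i ≠ none then M i j else if i = j then 1 else 0

theorem blkB_mul_BM2 {c : ι → Option κ} {g : GG ι} (hg : g ∈ Gc c) (M : Matrix ι ι ℂ) :
    blkB_BM2 c (g.1 * M) = g.1 * blkB_BM2 c M := by
  have hg' := mem_Gc_iff.1 hg
  have hz : ∀ i k, c i ≠ c k → g.1 i k = 0 := fun i k h => by
    rw [hg' i k (Or.inl h), if_neg fun e => h (by rw [e])]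
  ext i j
  rw [Matrix.mul_apply]
  by_cases h : c i = c j ∧ c i ≠ none
  · rw [blkB_BM2, if_pos h, Matrix.mul_apply]
    refine Finset.sum_congr rfl fun k _ => ?_
    by_cases hk : c i = c k
    · rw [blkB_BM2, if_pos ⟨hk ▸ h.1, hk ▸ h.2⟩]
    · rw [hz i k hk, zero_mul, zero_mul]
  · by_cases hi : c i = none
    · rw [Finset.sum_eq_single i]
      · rw [hg' i i (Or.inr hi), if_pos rfl, one_mul, blkB_BM2, blkB_BM2, if_neg h, if_neg h]
      · intro k _ hk
        rw [hg' i k (Or.inr hi), if_neg (Ne.symm hk), zero_mul]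
      · intro h'
        exact absurd (Finset.mem_univ i) h'
    · have hij : c i ≠ c j := fun e => h ⟨e, hi⟩
      rw [blkB_BM2, if_neg h, if_neg fun e => hij (by rw [e])]
      refine (Finset.sum_eq_zero fun k _ => ?_).symm
      by_cases hk : c i = c k
      · have hkj : c k ≠ c j := hk ▸ hij
        rw [blkB_BM2, if_neg fun e => hkj e.1, if_neg fun e => hkj (by rw [e]), mul_zero]
      · rw [hz i k hk, zero_mul]

omit [Fintype ι] in
theorem continuous_blkB_BM2 (c : ι → Option κ) : Continuous (blkB_BM2 c) := by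
  refine continuous_pi fun i => continuous_pi fun j => ?_
  unfold blkB_BM2
  split_ifs
  · fun_prop
  · exact continuous_const
  · exact continuous_const

omit [Fintype ι] [DecidableEq ι] in
theorem continuous_m_BM2 (i : ι) (n : ℕ) : Continuous fun f : Mt ι => f.m i n :=
  (continuous_apply n).comp (continuous_apply (A := fun _ : ι => ℕ → ℂ) i)

theorem prin_Gc (c : ι → Option κ) : Prin (Gc c) (Ec c) := by
  classical
  intro f0 hf0
  choose r hr using exists_r_BM2 hf0
  let φ : Mt ι → Matrix ι ι ℂ := fun f i j => ∑ n ∈ (r j).support, f.m i n * r j n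
  have hφc : Continuous φ := continuous_pi fun i => continuous_pi fun j =>
    continuous_finsetSum _ fun n _ => (continuous_m_BM2 i n).mul continuous_const
  have hφ : ∀ (g : GG ι) (f : Mt ι), φ (g • f) = g.1 * φ f := by
    intro g f
    ext i j
    simp only [φ, Mt.smul_m, Matrix.mul_apply, Finset.sum_mul, Finset.mul_sum, mul_assoc]
    exact Finset.sum_comm
  let T : Mt ι → Matrix ι ι ℂ := fun f => blkB_BM2 c (φ f)
  have hTc : Continuous T := (continuous_blkB_BM2 c).comp hφc
  have hT : ∀ (g : Gc c) (f : Mt ι), T (g • f) = g.1.1 * T f := by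
    intro g f
    show blkB_BM2 c (φ (g.1 • f)) = _
    rw [hφ, blkB_mul_BM2 g.2]
  have hT0 : T f0 = 1 := by
    ext i j
    show blkB_BM2 c (φ f0) i j = _
    rw [blkB_BM2, Matrix.one_apply]
    by_cases h : c i = c j ∧ c i ≠ none
    · rw [if_pos h]
      exact hr j i h.1 h.2
    · rw [if_neg h]
  have hmem : ∀ f (g : GG ι), g.1 = T f → g ∈ Gc c := by
    intro f g e
    refine mem_Gc_iff.2 fun i j h => ?_
    rw [e]
    show blkB_BM2 c (φ f) i j = _
    rw [blkB_BM2, if_neg]
    rintro ⟨h1, h2⟩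
    exact h.elim (fun h' => h' h1) h2
  let τ : Mt ι → Gc c := fun f =>
    if h : IsUnit (T f) then ⟨h.unit, hmem f _ h.unit_spec⟩ else 1
  have hτ : ∀ f, IsUnit (T f) → (τ f).1.1 = T f := by
    intro f h
    simp only [τ, dif_pos h]
    exact h.unit_spec
  have hU : ∀ f, IsUnit (T f) ↔ (T f).det ≠ 0 := fun f => by
    rw [Matrix.isUnit_iff_isUnit_det, isUnit_iff_ne_zero]
  refine ⟨{f | (T f).det ≠ 0}, isOpen_ne_fun hTc.matrix_det continuous_const, ?_, τ, ?_, ?_⟩
  · show (T f0).det ≠ 0
    rw [hT0, Matrix.det_one]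
    exact one_ne_zero
  · rw [(emb_val_BM2.comp Topology.IsEmbedding.subtypeVal).isInducing.continuousOn_iff]
    exact hTc.continuousOn.congr fun f hf => hτ f ((hU f).2 hf.2)
  · intro g f hf
    have h1 : IsUnit (T f) := (hU f).2 hf.2
    have h2 : IsUnit (T (g • f)) := by
      rw [hT]
      exact g.1.isUnit.mul h1
    refine ⟨(hU _).1 h2, Subtype.ext (Units.ext ?_)⟩
    rw [hτ _ h2, hT, ← hτ _ h1]
    rfl

theorem prin_Kc (c : ι → Option κ) : Prin (Kc c) (Ec c) := by
  intro f0 hf0
  obtain ⟨U, hU, h0, τ, hc, hτ⟩ := prin_Gc c f0 hf0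
  obtain ⟨u, hu⟩ := exists_un (ι := ι)
  refine ⟨U, hU, h0, fun f => ⟨u (τ f).1, hu.blk κ c _ (τ f).2⟩, ?_, ?_⟩
  · rw [Topology.IsEmbedding.subtypeVal.isInducing.continuousOn_iff]
    exact (hu.cont.comp continuous_subtype_val).comp_continuousOn hc
  · intro g f hf
    obtain ⟨h1, h2⟩ := hτ ⟨g.1, g.2.1⟩ f hf
    refine ⟨h1, Subtype.ext ?_⟩
    have h3 : τ (g • f) = ⟨g.1, g.2.1⟩ * τ f := h2
    show u (τ (g • f)).1 = g.1 * u (τ f).1
    rw [h3]
    have h4 := hu.equiv (τ f).1 g.1 g.2.2 1 (Un ι).one_mem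
    rw [mul_one, mul_one] at h4
    exact h4

theorem shift_BM2 {N : ℕ} {s t : ℂ} (hst : s + t = 1) {x : ℕ → ℂ}
    (h : ∀ n, s * x n + t * (if N + 1 ≤ n then x (n - (N + 1)) else 0) = 0) : ∀ n, x n = 0 := by
  by_cases hs : s = 0
  · intro n
    have h1 := h (n + (N + 1))
    have ht : t = 1 := by rw [← hst, hs, zero_add]
    simpa [hs, ht] using h1
  · intro n
    induction n using Nat.strong_induction_on with
    | _ n ih =>
      have h1 := h n
      by_cases hn : N + 1 ≤ n
      · rw [if_pos hn, ih (n - (N + 1)) (by omega), mul_zero, add_zero] at h1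
        exact (mul_eq_zero.1 h1).resolve_left hs
      · rw [if_neg hn, mul_zero, add_zero] at h1
        exact (mul_eq_zero.1 h1).resolve_left hs

theorem contractible_Ec (c : ι → Option κ) : ContractibleSpace (Ec c) := by
  classical
  let N := Fintype.card ι
  let idx : ι → ℕ := fun i => (Fintype.equivFin ι i : ℕ)
  have hidx : ∀ i, idx i < N := fun i => (Fintype.equivFin ι i).2
  have hinj : ∀ i j, idx i = idx j → i = j := fun i j h =>
    (Fintype.equivFin ι).injective (Fin.ext h)
  let e : Mt ι := fun i n => if c i ≠ none ∧ n = idx i then (1 : ℂ) else 0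
  have em : ∀ i n, e.m i n = if c i ≠ none ∧ n = idx i then (1 : ℂ) else 0 := fun _ _ => rfl
  let sh : Mt ι → ι → ℕ → ℂ := fun f i n => if N + 1 ≤ n then f.m i (n - (N + 1)) else 0
  have hshc : ∀ i n, Continuous fun f => sh f i n := by
    intro i n
    simp only [sh]
    split_ifs
    · exact continuous_m_BM2 i _
    · exact continuous_const
  have hsum : ∀ (a : ι → ℂ) (f : Mt ι) n, ∑ i, a i * sh f i n =
      if N + 1 ≤ n then ∑ i, a i * f.m i (n - (N + 1)) else 0 := by
    intro a f n
    simp only [sh]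
    split_ifs <;> simp
  let H : ℝ → Mt ι → Mt ι := fun t f i n => (1 - (t : ℂ)) * f.m i n + (t : ℂ) * sh f i n
  let H' : ℝ → Mt ι → Mt ι := fun t f i n => (1 - (t : ℂ)) * sh f i n + (t : ℂ) * e.m i n
  have Hm : ∀ t f i n, (H t f).m i n = (1 - (t : ℂ)) * f.m i n + (t : ℂ) * sh f i n :=
    fun _ _ _ _ => rfl
  have Hm' : ∀ t f i n, (H' t f).m i n = (1 - (t : ℂ)) * sh f i n + (t : ℂ) * e.m i n :=
    fun _ _ _ _ => rfl
  have hext : ∀ f g : Mt ι, (∀ i n, f.m i n = g.m i n) → f = g := fun f g h =>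
    funext fun i => funext fun n => h i n
  have he : e ∈ Ec c := by
    refine mem_Ec_BM2.2 ⟨fun i n hi => by simp [em, hi], fun v a ha h => funext fun j => ?_⟩
    by_cases hj : c j = some v
    · have h1 := h (idx j)
      rw [Finset.sum_eq_single j] at h1
      · simpa [em, hj] using h1
      · intro k _ hk
        rw [em, if_neg fun h' => hk (hinj _ _ h'.2).symm, mul_zero]
      · intro h'
        exact absurd (Finset.mem_univ j) h'
    · exact ha j hj
  have hcoe : Continuous fun p : ℝ × Mt ι => (p.1 : ℂ) :=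
    Complex.continuous_ofReal.comp continuous_fst
  refine contractible_of_htp he (H := H) (H' := H') ⟨?_, ?_⟩ ⟨?_, ?_⟩ ?_ ?_ ?_
  · refine Continuous.continuousOn (continuous_pi fun i => continuous_pi fun n => ?_)
    exact ((continuous_const.sub hcoe).mul ((continuous_m_BM2 i n).comp continuous_snd)).add
      (hcoe.mul ((hshc i n).comp continuous_snd))
  · intro t _ f hf
    obtain ⟨h1, h2⟩ := mem_Ec_BM2.1 hf
    refine mem_Ec_BM2.2 ⟨fun i n hi => by simp [Hm, sh, h1 i _ hi], fun v a ha h => ?_⟩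
    refine h2 v a ha (shift_BM2 (N := N) (s := 1 - (t : ℂ)) (t := t) (by ring)
      (x := fun n => ∑ i, a i * f.m i n) fun n => ?_)
    rw [← hsum, ← h n, Finset.mul_sum, Finset.mul_sum, ← Finset.sum_add_distrib]
    refine Finset.sum_congr rfl fun i _ => ?_
    rw [Hm]
    ring
  · refine Continuous.continuousOn (continuous_pi fun i => continuous_pi fun n => ?_)
    exact ((continuous_const.sub hcoe).mul ((hshc i n).comp continuous_snd)).add
      (hcoe.mul continuous_const)
  · intro t _ f hf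
    obtain ⟨h1, h2⟩ := mem_Ec_BM2.1 hf
    by_cases ht : (1 - (t : ℂ)) = 0
    · have ht' : (t : ℂ) = 1 := (sub_eq_zero.1 ht).symm
      have e' : H' t f = e := hext _ _ fun i n => by rw [Hm', ht, ht']; ring
      rw [e']
      exact he
    · refine mem_Ec_BM2.2 ⟨fun i n hi => by simp [Hm', em, sh, hi, h1 i _ hi],
        fun v a ha h => h2 v a ha fun n => ?_⟩
      have h3 := h (n + (N + 1))
      have h4 : ∑ i, a i * (H' t f).m i (n + (N + 1)) =
          (1 - (t : ℂ)) * ∑ i, a i * f.m i n := by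
        rw [Finset.mul_sum]
        refine Finset.sum_congr rfl fun i _ => ?_
        have h5 := hidx i
        rw [Hm', em, if_neg fun h' => by omega]
        simp only [sh]
        rw [if_pos (by omega), Nat.add_sub_cancel]
        ring
      rw [h4] at h3
      exact (mul_eq_zero.1 h3).resolve_left ht
  · intro f _
    exact hext _ _ fun i n => by rw [Hm]; simp
  · intro f _
    exact hext _ _ fun i n => by rw [Hm, Hm']; simp
  · intro f _
    exact hext _ _ fun i n => by rw [Hm']; simp

end Pool.Agent.Bet
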