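import Pool.Agent.P.MP_d34769_ag.BM0

/-! TASK BM4: colourings, dimensions. -/

open Set Matrix

namespace Pool.Agent.Bet

variable {ι : Type} [Fintype ι] [DecidableEq ι] {κ : Type} {Ar : Type}
  {c : ι → Option κ} {p : ι → Bool}

theorem dv_add (c : ι → Option κ) (p : ι → Bool) : dv (c1 c p) + dv (c2 c p) = dv c := by
  classical
  funext v
  simp only [Pi.add_apply, dv, Finset.card_filter, ← Finset.sum_add_distrib]
  refine Finset.sum_congr rfl fun i _ => ?_
  cases hp : p i <;> simp [c1, c2, hp]

theorem exists_part {f : κ → ℕ} (h : f ≤ dv c) : ∃ p, Adm c p ∧ dv (c1 c p) = f := by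
  classical
  have h1 : ∀ v, ∃ T : Finset ι, (∀ i ∈ T, c i = some v) ∧ T.card = f v := fun v => by
    obtain ⟨T, hT, e⟩ := Finset.exists_subset_card_eq (h v)
    exact ⟨T, fun i hi => (Finset.mem_filter.1 (hT hi)).2, e⟩
  choose T hT hc using h1
  refine ⟨fun i => decide (∃ v, i ∈ T v), fun i hi => ?_, funext fun v => ?_⟩
  · obtain ⟨v, hv⟩ := of_decide_eq_true hi
    rw [hT v i hv]
    exact Option.some_ne_none v
  · rw [← hc v, dv]
    refine congrArg Finset.card (Finset.ext fun i => ?_)
    simp only [Finset.mem_filter, Finset.mem_univ, true_and, c1, decide_eq_true_eq]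
    constructor
    · intro hi
      split_ifs at hi with h2
      obtain ⟨w, hw⟩ := h2
      have e : w = v := Option.some_injective _ ((hT w i hw).symm.trans hi)
      rwa [← e]
    · intro hi
      rw [if_pos ⟨v, hi⟩]
      exact hT v i hi

theorem dv_eq_zero : dv c = 0 ↔ ∀ i, c i = none := by
  classical
  constructor
  · intro h i
    cases hi : c i with
    | none => rfl
    | some v =>
      have h1 : dv c v = 0 := congrFun h v
      rw [dv, Finset.card_eq_zero, Finset.filter_eq_empty_iff] at h1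
      exact (h1 (Finset.mem_univ i) hi).elim
  · intro h
    funext v
    rw [Pi.zero_apply, dv, Finset.card_eq_zero, Finset.filter_eq_empty_iff]
    intro i _
    rw [h i]
    exact (Option.some_ne_none v).symm

theorem equiv_BM4 {M I : Type} [AddCommGroup M] [Module ℂ M] (co : M ≃ₗ[ℂ] (I → ℂ))
    (Q : I → Prop) (W : Submodule ℂ M) (h : ∀ φ, φ ∈ W ↔ ∀ x, ¬ Q x → co φ x = 0) :
    Nonempty (W ≃ₗ[ℂ] ({x // Q x} → ℂ)) := by
  classical
  refine ⟨LinearEquiv.ofBijective
    (LinearMap.funLeft ℂ ℂ (Subtype.val : {x // Q x} → I) ∘ₗ co.toLinearMap ∘ₗ W.subtype)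
    ⟨(injective_iff_map_eq_zero _).2 fun φ hφ => ?_, fun g => ?_⟩⟩
  · refine Subtype.ext (co.map_eq_zero_iff.1 (funext fun x => ?_))
    by_cases hx : Q x
    · exact congrFun hφ ⟨x, hx⟩
    · exact (h _).1 φ.2 x hx
  · refine ⟨⟨co.symm fun x => if hx : Q x then g ⟨x, hx⟩ else 0, (h _).2 fun x hx => ?_⟩,
      funext fun x => ?_⟩
    · rw [LinearEquiv.apply_symm_apply, dif_neg hx]
    · change co (co.symm fun x => if hx : Q x then g ⟨x, hx⟩ else 0) x.1 = g x
      rw [LinearEquiv.apply_symm_apply, dif_pos x.2]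

/-- the entries of a tuple of matrices -/
def coCj_BM4 (Ar ι : Type) : Cj Ar ι ≃ₗ[ℂ] (Ar × ι × ι → ℂ) where
  toFun φ x := φ x.1 x.2.1 x.2.2
  invFun g := fun a => Matrix.of fun i j => g (a, i, j)
  map_add' _ _ := rfl
  map_smul' _ _ := rfl
  left_inv _ := rfl
  right_inv _ := rfl

/-- the entries of a matrix -/
def coMt_BM4 (ι : Type) : Mt ι ≃ₗ[ℂ] (ι × ℕ → ℂ) where
  toFun f x := f.m x.1 x.2
  invFun g := Matrix.of fun i j => g (i, j)
  map_add' _ _ := rfl
  map_smul' _ _ := rfl
  left_inv _ := rfl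
  right_inv _ := rfl

theorem mem_R21_BM4 (s t : Ar → κ) (c : ι → Option κ) (p : ι → Bool) (φ : Cj Ar ι) :
    φ ∈ R21 s t c p ↔ ∀ a i j, ¬ (c1 c p j = some (s a) ∧ c2 c p i = some (t a)) → φ a i j = 0 := by
  constructor
  · rintro ⟨h1, h2⟩ a i j hij
    have k1 := congrFun (congrFun (h1 a) i) j
    have k2 := congrFun (congrFun (congrFun h2 a) i) j
    simp only [dg, mul_dp_apply, dp_mul_apply] at k1
    simp only [blk, e1, e2, mul_dp_apply, dp_mul_apply] at k2
    by_contra h0
    refine hij ⟨?_, ?_⟩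
    · by_cases a1 : p j = true
      · by_cases a2 : c j = some (s a)
        · simp [c1, a1, a2]
        · exact (h0 (by rw [← k1, if_neg a2])).elim
      · exact (h0 (by rw [← k2, if_neg a1])).elim
    · by_cases a1 : p i = false
      · by_cases a2 : c i = some (t a)
        · simp [c2, a1, a2]
        · exact (h0 (by rw [← k1, if_neg a2, ite_self])).elim
      · exact (h0 (by rw [← k2, if_neg a1, ite_self])).elim
  · intro h
    refine ⟨fun a => ?_, funext fun a => ?_⟩
    · ext i j
      simp only [dg, mul_dp_apply, dp_mul_apply]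
      split_ifs with a1 a2
      · rfl
      · refine (h a i j fun e => a2 ?_).symm
        have := e.2
        simp only [c2] at this
        split_ifs at this
        exact this
      · refine (h a i j fun e => a1 ?_).symm
        have := e.1
        simp only [c1] at this
        split_ifs at this
        exact this
    · ext i j
      simp only [blk, e1, e2, mul_dp_apply, dp_mul_apply]
      split_ifs with a1 a2
      · rfl
      · refine (h a i j fun e => a2 ?_).symm
        have := e.2
        simp only [c2] at this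
        split_ifs at this with a3
        simpa using a3
      · refine (h a i j fun e => a1 ?_).symm
        have := e.1
        simp only [c1] at this
        split_ifs at this

theorem finrank_R21 [Fintype Ar] (s t : Ar → κ) (c : ι → Option κ) (p : ι → Bool) :
    Module.finrank ℂ (R21 s t c p) = bb s t (dv (c1 c p)) (dv (c2 c p)) := by
  classical
  obtain ⟨e⟩ := equiv_BM4 (coCj_BM4 Ar ι)
    (fun x => c1 c p x.2.2 = some (s x.1) ∧ c2 c p x.2.1 = some (t x.1)) (R21 s t c p) fun φ => by
      rw [mem_R21_BM4]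
      exact ⟨fun h x hx => h _ _ _ hx, fun h a i j hx => h (a, i, j) hx⟩
  rw [e.finrank_eq, Module.finrank_fintype_fun_eq_card, Fintype.card_subtype, Finset.card_filter,
    Fintype.sum_prod_type, bb]
  refine Finset.sum_congr rfl fun a _ => ?_
  rw [Fintype.sum_prod_type, Finset.sum_comm, dv, dv, Finset.card_filter, Finset.card_filter,
    Finset.sum_mul_sum]
  refine Finset.sum_congr rfl fun j _ => Finset.sum_congr rfl fun i _ => ?_
  by_cases a1 : c1 c p j = some (s a) <;> by_cases a2 : c2 c p i = some (t a) <;> simp [a1, a2]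

omit [Fintype ι] [DecidableEq ι] in
theorem equiv_F0_BM4 (c : ι → Option κ) (v : κ) :
    Nonempty (F0 c v ≃ₗ[ℂ] ({i // c i = some v} → ℂ)) := by
  obtain ⟨e⟩ := equiv_BM4 (coMt_BM4 ι) (fun x => c x.1 = some v ∧ x.2 = 0) (F0 c v) fun f =>
    ⟨fun h x hx => h _ _ (not_and_or.1 hx), fun h i j hx => h (i, j) (not_and_or.2 hx)⟩
  let σ : {i // c i = some v} ≃ {x : ι × ℕ // c x.1 = some v ∧ x.2 = 0} :=
    { toFun := fun i => ⟨(i.1, 0), i.2, rfl⟩
      invFun := fun x => ⟨x.1.1, x.2.1⟩
      left_inv := fun _ => rfl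
      right_inv := fun x => Subtype.ext (Prod.ext rfl x.2.2.symm) }
  exact ⟨e.trans (LinearEquiv.funCongrLeft ℂ ℂ σ)⟩

theorem finite_F0 (c : ι → Option κ) (v : κ) : FiniteDimensional ℂ (F0 c v) := by
  obtain ⟨e⟩ := equiv_F0_BM4 c v
  exact e.symm.finiteDimensional

theorem finrank_F0 (c : ι → Option κ) (v : κ) : Module.finrank ℂ (F0 c v) = dv c v := by
  classical
  obtain ⟨e⟩ := equiv_F0_BM4 c v
  rw [e.finrank_eq, Module.finrank_fintype_fun_eq_card, Fintype.card_subtype, dv]

end Pool.Agent.Bet
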