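import Pool.Agent.P.MP_d34769_ag.BM4

/-! TASK BM4b: block groups and blocks. -/

open Set Matrix

namespace Pool.Agent.Bet

variable {ι : Type} [Fintype ι] [DecidableEq ι] {κ : Type} {Ar : Type}
  {c : ι → Option κ} {p : ι → Bool}

omit [Fintype ι] [DecidableEq ι] in
theorem cp_iff_BM4b (c : ι → Option κ) (p : ι → Bool) (i j : ι) :
    (cp c p i ≠ cp c p j ∨ cp c p i = none) ↔ ((c i ≠ c j ∨ c i = none) ∨ p i ≠ p j) := by
  unfold cp
  rcases c i with _ | v <;> rcases c j with _ | v' <;> simp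
  tauto

theorem mem_Kc_cp {g : GG ι} : g ∈ Kc (cp c p) ↔ g ∈ Kc c ∧ e1 p * g.1 = g.1 * e1 p := by
  rw [mem_Kc, mem_Kc, mem_Gc_iff, mem_Gc_iff, e1, dp_comm_iff]
  constructor
  · rintro ⟨h, hu⟩
    refine ⟨⟨fun i j hij => h i j ((cp_iff_BM4b c p i j).2 (Or.inl hij)), hu⟩, fun i j hij => ?_⟩
    have hne : p i ≠ p j := fun e => hij (by rw [e])
    rw [h i j ((cp_iff_BM4b c p i j).2 (Or.inr hne)), if_neg fun e => hne (by rw [e])]
  · rintro ⟨⟨h, hu⟩, h'⟩
    refine ⟨fun i j hij => ?_, hu⟩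
    rcases (cp_iff_BM4b c p i j).1 hij with e | hne
    · exact h i j e
    · rw [h' i j fun e => hne (Bool.eq_iff_iff.2 e), if_neg fun e => hne (by rw [e])]

theorem Kc_cp_le (c : ι → Option κ) (p : ι → Bool) : Kc (cp c p) ≤ Kc c := by
  exact fun g h => (mem_Kc_cp.1 h).1

theorem smul_E1 {g : GG ι} : g • E1 p = E1 p ↔ e1 p * g.1 = g.1 * e1 p := by
  constructor
  · intro h
    have := congrFun h ()
    rw [Cj.smul_apply] at this
    exact ((Units.mul_inv_eq_iff_eq_mul g).1 this).symm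
  · intro h
    funext a
    rw [Cj.smul_apply]
    exact (Units.mul_inv_eq_iff_eq_mul g).2 h.symm

theorem Ec_subset_cp (c : ι → Option κ) (p : ι → Bool) : Ec c ⊆ Ec (cp c p) := by
  rintro f ⟨h1, h2⟩
  refine ⟨?_, fun v a ha => h2 v.1 a fun i hi => ha i fun e => hi ?_⟩
  · rw [← h1, dg, dg, dp_congr (P' := fun i => c i = none) fun i => by simp [cp]]
  · unfold cp at e
    obtain ⟨u, e1, e2⟩ := Option.map_eq_some_iff.1 e
    rw [e1, ← e2]

theorem blk_smul_BM4b {x y : Matrix ι ι ℂ} {g : GG ι} (hx : x * g.1 = g.1 * x)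
    (hy : y * g.1 = g.1 * y) (φ : Cj Ar ι) : blk x y (g • φ) = g • blk x y φ := by
  funext a
  have hy' : y * (g⁻¹).1 = (g⁻¹).1 * y := (Commute.units_inv_right hy).eq
  rw [blk_apply, Cj.smul_apply, Cj.smul_apply, blk_apply, ← mul_assoc, ← mul_assoc, hx,
    mul_assoc _ (g⁻¹).1 y, ← hy']
  simp only [mul_assoc]

theorem e2_comm_BM4b {x : Matrix ι ι ℂ} (h : e1 p * x = x * e1 p) : e2 p * x = x * e2 p := by
  rw [eq_sub_of_add_eq' (e1_add_e2 p), sub_mul, mul_sub, h, one_mul, mul_one]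

theorem mem_Rc_BM4b {s t : Ar → κ} {φ : Cj Ar ι} : φ ∈ Rc s t c ↔
    ∀ a i j, c i ≠ some (t a) ∨ c j ≠ some (s a) → φ a i j = 0 := by
  refine forall_congr' fun a => ?_
  simp only [← Matrix.ext_iff, dg, dp_mul_apply, mul_dp_apply]
  refine forall₂_congr fun i j => ?_
  by_cases h : c i = some (t a) <;> by_cases h' : c j = some (s a) <;> simp [h, h', eq_comm]

theorem ivt_Rc (s t : Ar → κ) (c : ι → Option κ) : Ivt (Gc c) (Rc s t c : Set (Cj Ar ι)) := by
  intro γ φ h a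
  have := congrFun (blk_smul_BM4b (γ.2.1 (some (t a))) (γ.2.1 (some (s a))) φ) a
  rw [blk_apply, Cj.smul_apply γ.1 (blk _ _ φ), blk_apply, h a] at this
  exact this

theorem ivt_R21 (s t : Ar → κ) (c : ι → Option κ) (p : ι → Bool) :
    Ivt (Kc (cp c p)) (R21 s t c p : Set (Cj Ar ι)) := by
  rintro γ φ ⟨h1, h2⟩
  have hg := mem_Kc_cp.1 γ.2
  refine ⟨ivt_Rc s t c ⟨γ.1, hg.1.1⟩ φ h1, ?_⟩
  have := blk_smul_BM4b (e2_comm_BM4b hg.2) hg.2 φ
  rw [h2] at this
  exact this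

theorem ivt_F0 (c : ι → Option κ) (v : κ) : Ivt (Gc c) (F0 c v : Set (Mt ι)) := by
  intro γ f h i j hij
  show (γ.1.1 * f.m) i j = 0
  rw [Matrix.mul_apply]
  refine Finset.sum_eq_zero fun k _ => ?_
  by_cases hk : c k ≠ some v ∨ j ≠ 0
  · rw [h k j hk, mul_zero]
  · push Not at hk
    have hne : c i ≠ c k := by
      rw [hk.1]; exact hij.resolve_right (not_not.2 hk.2)
    rw [mem_Gc_iff.1 γ.2 i k (Or.inl hne), if_neg fun e => hne (by rw [e]), zero_mul]

theorem blk_smul {x y : Matrix ι ι ℂ} {g : GG ι} (hx : x * g.1 = g.1 * x) (hy : y * g.1 = g.1 * y)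
    (φ : Cj Ar ι) : blk x y (g • φ) = g • blk x y φ := by
  exact blk_smul_BM4b hx hy φ

theorem blk_mem_Rc {s t : Ar → κ} {φ : Cj Ar ι} (h : φ ∈ Rc s t c) (P P' : ι → Prop) :
    blk (dp P) (dp P') φ ∈ Rc s t c := by
  rw [mem_Rc_BM4b] at h ⊢
  intro a i j hij
  rw [blk_apply, mul_dp_apply, dp_mul_apply, h a i j hij]
  simp

theorem blk_mem_c1 {s t : Ar → κ} {φ : Cj Ar ι} (h : φ ∈ Rc s t c) :
    blk (e1 p) (e1 p) φ ∈ Rc s t (c1 c p) := by
  rw [mem_Rc_BM4b] at h ⊢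
  intro a i j hij
  rw [blk_apply, e1, mul_dp_apply, dp_mul_apply]
  by_cases hi : p i = true <;> by_cases hj : p j = true <;> simp only [hi, hj, if_true] <;>
    try simp
  exact h a i j (by simpa [c1, hi, hj] using hij)

theorem blk_mem_c2 {s t : Ar → κ} {φ : Cj Ar ι} (h : φ ∈ Rc s t c) :
    blk (e2 p) (e2 p) φ ∈ Rc s t (c2 c p) := by
  rw [mem_Rc_BM4b] at h ⊢
  intro a i j hij
  rw [blk_apply, e2, mul_dp_apply, dp_mul_apply]
  by_cases hi : p i = false <;> by_cases hj : p j = false <;> simp only [hi, hj, if_true] <;>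
    try simp
  exact h a i j (by simpa [c2, hi, hj] using hij)

theorem isClosed_Rc (s t : Ar → κ) (c : ι → Option κ) :
    IsClosed (Rc s t c : Set (Cj Ar ι)) := by
  have : (Rc s t c : Set (Cj Ar ι)) =
      ⋂ a, {φ | dg c (some (t a)) * φ a * dg c (some (s a)) = φ a} := by
    ext φ; rw [mem_iInter]; rfl
  rw [this]
  exact isClosed_iInter fun a => isClosed_eq
    ((continuous_const.mul (Cj.continuous_apply a)).mul continuous_const) (Cj.continuous_apply a)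

theorem part_BM4b {x y : Matrix ι ι ℂ} (xx : x * x = x) (yy : y * y = y) (xy : x * y = 0)
    (yx : y * x = 0) (a : x + y = 1) (sx : star x = x) (sy : star y = y) {g : GG ι}
    (hu : g ∈ Un ι) (h1 : x * g.1 = g.1 * x) (h2 : y * g.1 = g.1 * y) :
    ∃ g₁ ∈ Un ι, g₁.1 = x * g.1 + y := by
  have key : star (x * g.1 + y) * (x * g.1 + y) = 1 := by
    have b : star g.1 * x * (x * g.1) = x := by
      rw [mul_assoc, ← mul_assoc x, xx, h1, ← mul_assoc, mem_Un.1 hu, one_mul]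
    rw [star_add, star_mul, sx, sy, add_mul, mul_add, mul_add, b, mul_assoc, xy, ← mul_assoc, yx,
      yy]
    simpa using a
  exact ⟨⟨x * g.1 + y, star (x * g.1 + y), mul_eq_one_comm.1 key, key⟩, key, rfl⟩

/-- splitting of an element of the block group of the refined colouring -/
theorem split_Kc (hp : Adm c p) {g : GG ι} (hg : g ∈ Kc (cp c p)) :
    ∃ g₁ ∈ Kc (c1 c p), ∃ g₂ ∈ Kc (c2 c p), g = g₁ * g₂ ∧ g₁.1 = e1 p * g.1 + e2 p ∧
      g₂.1 = e1 p + e2 p * g.1 := by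
  obtain ⟨hk, h1⟩ := mem_Kc_cp.1 hg
  have h2 := e2_comm_BM4b h1
  have hG := mem_Gc_iff.1 hg.1
  have a := e1_add_e2 p
  have a' : e2 p + e1 p = 1 := by rw [add_comm, a]
  obtain ⟨g₁, u1, v1⟩ := part_BM4b (e1_e1 p) (e2_e2 p) (e1_e2 p) (e2_e1 p) a (star_e1 p)
    (star_e2 p) hk.2 h1 h2
  obtain ⟨g₂, u2, v2⟩ := part_BM4b (e2_e2 p) (e1_e1 p) (e2_e1 p) (e1_e2 p) a' (star_e2 p)
    (star_e1 p) hk.2 h2 h1
  refine ⟨g₁, ⟨mem_Gc_iff.2 fun i j hij => ?_, u1⟩, g₂, ⟨mem_Gc_iff.2 fun i j hij => ?_, u2⟩,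
    Units.ext ?_, v1, by rw [v2, add_comm]⟩
  · rw [v1, Matrix.add_apply, e1, e2, dp_mul_apply, dp_apply]
    by_cases hi : p i = true
    · rw [if_pos hi, if_neg (by simp [hi]), add_zero]
      refine hG i j ((cp_iff_BM4b c p i j).2 ?_)
      by_cases hj : p j = true
      · exact Or.inl (by simpa [c1, hi, hj] using hij)
      · exact Or.inr fun e => hj (e ▸ hi)
    · simp [hi]
  · rw [v2, Matrix.add_apply, e1, e2, dp_mul_apply, dp_apply]
    by_cases hi : p i = false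
    · rw [if_pos hi, if_neg (by simp [hi]), add_zero]
      refine hG i j ((cp_iff_BM4b c p i j).2 ?_)
      by_cases hj : p j = false
      · exact Or.inl (by simpa [c2, hi, hj] using hij)
      · exact Or.inr fun e => hj (e ▸ hi)
    · have hi' : p i = true := by simpa using hi
      simp [hi']
  · have b : g.1 * e2 p = e2 p * g.1 := h2.symm
    have b' : g.1 * e1 p = e1 p * g.1 := h1.symm
    rw [Units.val_mul, v1, v2, add_mul, mul_add, mul_add, mul_assoc (e1 p) g.1 (e1 p), b',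
      ← mul_assoc, ← mul_assoc, ← mul_assoc, mul_assoc (e1 p) g.1 (e2 p), b, ← mul_assoc]
    simp only [e1_e1, e1_e2, e2_e2, e2_e1, zero_mul, zero_add, add_zero]
    rw [← add_mul, a, one_mul]

theorem Kc_c1_le (c : ι → Option κ) (p : ι → Bool) : Kc (c1 c p) ≤ Kc (cp c p) := by
  refine fun g h => ⟨mem_Gc_iff.2 fun i j hij => mem_Gc_iff.1 h.1 i j ?_, h.2⟩
  have := (cp_iff_BM4b c p i j).1 hij
  unfold c1
  cases hi : p i <;> cases hj : p j <;> simp [hi, hj] at this ⊢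
  · exact (em _).symm
  · exact this

theorem Kc_c2_le (c : ι → Option κ) (p : ι → Bool) : Kc (c2 c p) ≤ Kc (cp c p) := by
  refine fun g h => ⟨mem_Gc_iff.2 fun i j hij => mem_Gc_iff.1 h.1 i j ?_, h.2⟩
  have := (cp_iff_BM4b c p i j).1 hij
  unfold c2
  cases hi : p i <;> cases hj : p j <;> simp [hi, hj] at this ⊢
  · exact this
  · exact (em _).symm

end Pool.Agent.Bet
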