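import Pool.Agent.P.MP_d34769_ag.BM4b

/-! TASK BM5: graded subspaces. -/

open Set Matrix

namespace Pool.Agent.Bet

variable {ι : Type} [Fintype ι] [DecidableEq ι] {κ : Type} {Ar : Type}
  {c : ι → Option κ} {p : ι → Bool} {U U' : Submodule ℂ (ι → ℂ)}

theorem Gs.sup (h : Gs c U) (h' : Gs c U') : Gs c (U ⊔ U') := by
  refine ⟨fun v x hx => ?_, fun x hx => ?_⟩
  · obtain ⟨y, hy, z, hz, rfl⟩ := Submodule.mem_sup.1 hx
    rw [Matrix.mulVec_add]
    exact Submodule.add_mem_sup (h.1 v y hy) (h'.1 v z hz)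
  · obtain ⟨y, hy, z, hz, rfl⟩ := Submodule.mem_sup.1 hx
    rw [Matrix.mulVec_add, h.2 y hy, h'.2 z hz, add_zero]

theorem Gs.inf (h : Gs c U) (h' : Gs c U') : Gs c (U ⊓ U') :=
  ⟨fun v x hx => ⟨h.1 v x hx.1, h'.1 v x hx.2⟩, fun x hx => h.2 x hx.1⟩

theorem gs_bot : Gs c ⊥ := by
  refine ⟨fun v x hx => ?_, fun x hx => ?_⟩
  · rw [(Submodule.mem_bot ℂ).1 hx, Matrix.mulVec_zero]
    exact Submodule.zero_mem _
  · rw [(Submodule.mem_bot ℂ).1 hx, Matrix.mulVec_zero]

theorem du_bot : du c ⊥ = 0 := by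
  funext v
  simp [du]

lemma dg_dg_BM5 (c : ι → Option κ) (o : Option κ) (x : ι → ℂ) :
    dg c o *ᵥ (dg c o *ᵥ x) = dg c o *ᵥ x := by
  rw [Matrix.mulVec_mulVec, dg, dp_idem]

lemma dg_dg_ne_BM5 (c : ι → Option κ) {o o' : Option κ} (h : o ≠ o') (x : ι → ℂ) :
    dg c o *ᵥ (dg c o' *ᵥ x) = 0 := by
  rw [Matrix.mulVec_mulVec, dg, dg, dp_mul_dp, dp_false fun i hi => h (hi.1.symm.trans hi.2),
    Matrix.zero_mulVec]

lemma map_inf_BM5 (h : Gs c U) (h' : Gs c U') (v : κ) :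
    (U ⊓ U').map (dg c (some v)).mulVecLin =
      U.map (dg c (some v)).mulVecLin ⊓ U'.map (dg c (some v)).mulVecLin := by
  refine le_antisymm (Submodule.map_inf_le _) ?_
  rintro y ⟨⟨x, hx, e⟩, ⟨x', hx', e'⟩⟩
  simp only [Matrix.mulVecLin_apply] at e e'
  refine ⟨y, ⟨e ▸ h.1 v x hx, e' ▸ h'.1 v x' hx'⟩, ?_⟩
  rw [Matrix.mulVecLin_apply, ← e, dg_dg_BM5]

theorem du_sup_inf (h : Gs c U) (h' : Gs c U') :
    du c (U ⊔ U') + du c (U ⊓ U') = du c U + du c U' := by
  funext v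
  simp only [Pi.add_apply, du]
  rw [Submodule.map_sup, map_inf_BM5 h h', Submodule.finrank_sup_add_finrank_inf_eq]

theorem du_mono (h : U ≤ U') : du c U ≤ du c U' := fun _ =>
  Submodule.finrank_mono (Submodule.map_mono h)

theorem du_le (c : ι → Option κ) (U : Submodule ℂ (ι → ℂ)) : du c U ≤ dv c := by
  classical
  intro v
  refine (du_mono (c := c) (le_top : U ≤ ⊤) v).trans ?_
  rw [du, Submodule.map_top]
  change Matrix.rank (dg c (some v)) ≤ _
  rw [dg, dp, Matrix.rank_diagonal, dv, Fintype.card_subtype]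
  refine Finset.card_le_card fun i hi => ?_
  simp only [Finset.mem_filter, Finset.mem_univ, true_and] at hi ⊢
  by_contra h
  exact hi (if_neg h)

theorem sZ_du [Fintype κ] (h : Gs c U) : sZ (du c U) = Module.finrank ℂ U := by
  classical
  let f : U →ₗ[ℂ] (∀ v : κ, U.map (dg c (some v)).mulVecLin) :=
    LinearMap.pi fun v => (dg c (some v)).mulVecLin.submoduleMap U
  have hf : ∀ (x : U) (v : κ), (f x v : ι → ℂ) = dg c (some v) *ᵥ (x : ι → ℂ) := fun _ _ => rfl
  have hinj : Function.Injective f := by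
    rw [injective_iff_map_eq_zero]
    intro x hx
    ext i
    have h0 := congrFun (h.2 x x.2) i
    rw [dg, dp_mulVec] at h0
    cases hc : c i with
    | none => simpa [hc] using h0
    | some v =>
      have h1 := congrFun (hf x v) i
      rw [hx] at h1
      simp only [dg, dp_mulVec, if_pos hc] at h1
      simpa using h1.symm
  have hsur : Function.Surjective f := by
    intro y
    choose x hx e using fun v => (Submodule.mem_map.1 (y v).2)
    refine ⟨⟨∑ v, dg c (some v) *ᵥ x v, U.sum_mem fun v _ => h.1 v _ (hx v)⟩, ?_⟩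
    funext v
    apply Subtype.ext
    rw [hf, ← e v, Matrix.mulVecLin_apply]
    simp only [Matrix.mulVec_sum]
    rw [Finset.sum_eq_single v]
    · rw [dg_dg_BM5]
    · intro b _ hb
      exact dg_dg_ne_BM5 c (fun e => hb (Option.some.inj e).symm) _
    · simp
  rw [(LinearEquiv.ofBijective f ⟨hinj, hsur⟩).finrank_eq, Module.finrank_pi_fintype]
  rfl

theorem Gs.map (h : Gs c U) {g : GG ι} (hg : g ∈ Gc c) :
    Gs c (U.map g.1.mulVecLin) ∧ du c (U.map g.1.mulVecLin) = du c U := by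
  have hc : ∀ o x, dg c o *ᵥ (g.1 *ᵥ x) = g.1 *ᵥ (dg c o *ᵥ x) := fun o x => by
    rw [Matrix.mulVec_mulVec, Matrix.mulVec_mulVec, (mem_Gc.1 hg).1 o]
  refine ⟨⟨?_, ?_⟩, ?_⟩
  · rintro v _ ⟨x, hx, rfl⟩
    exact ⟨_, h.1 v x hx, (hc _ x).symm⟩
  · rintro _ ⟨x, hx, rfl⟩
    rw [Matrix.mulVecLin_apply, hc, h.2 x hx, Matrix.mulVec_zero]
  · funext v
    have hinj : Function.Injective g.1.mulVecLin := by
      intro x y e
      have := congrArg (fun z => (g⁻¹).1 *ᵥ z) e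
      simpa only [Matrix.mulVecLin_apply, Matrix.mulVec_mulVec, Units.inv_mul,
        Matrix.one_mulVec] using this
    have e : (U.map g.1.mulVecLin).map (dg c (some v)).mulVecLin =
        (U.map (dg c (some v)).mulVecLin).map g.1.mulVecLin := by
      rw [← Submodule.map_comp, ← Submodule.map_comp]
      congr 1
      exact LinearMap.ext fun x => hc _ x
    simp only [du]
    rw [e]
    exact (Submodule.equivMapOfInjective _ hinj _).finrank_eq.symm

theorem Sr.smul {φ : Cj Ar ι} (h : Sr c φ U) {g : GG ι} (hg : g ∈ Gc c) :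
    Sr c (g • φ) (U.map g.1.mulVecLin) := by
  refine ⟨(h.1.map hg).1, ?_⟩
  rintro a _ ⟨x, hx, rfl⟩
  refine ⟨_, h.2 a x hx, ?_⟩
  simp only [Matrix.mulVecLin_apply, Cj.smul_apply, Matrix.mulVec_mulVec, mul_assoc,
    Units.inv_mul, mul_one]

end Pool.Agent.Bet
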