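import Pool.Agent.P.MP_d34769_ag.BM6

/-! TASK BM7: the strata, algebraically. -/

open Set Matrix

namespace Pool.Agent.Bet

variable {ι : Type} [Fintype ι] [DecidableEq ι] {κ : Type} {Ar : Type} [Fintype κ]
  {s t : Ar → κ} {w : κ → ℝ} {c : ι → Option κ} {p : ι → Bool} {f g : κ → ℕ} {φ : Cj Ar ι}

theorem th_add (w : κ → ℝ) (f g : κ → ℕ) : th w (f + g) = th w f + th w g := by
  simp [th, mul_add, Finset.sum_add_distrib]

theorem th_zero (w : κ → ℝ) : th w 0 = 0 := by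
  simp [th]

theorem St.uniq (h : φ ∈ St s t w c f) {U U' : Submodule ℂ (ι → ℂ)} (hU : Sr c φ U)
    (hU' : Sr c φ U') (e : du c U = f) (e1 : th w (du c U') = th w f) (e2 : sZ (du c U') = sZ f) :
    U' = U := by
  have key : ∀ W, Sr c φ W → th w (du c W) ≤ th w f ∧
      (th w (du c W) = th w f → sZ (du c W) ≤ sZ f) := fun W hW => by
    have := h.2 (du c W)
    rw [imp_not_comm] at this
    have h1 := this ⟨h.1.1, W, hW, rfl⟩
    rw [Hi, not_or, not_and, not_lt, not_lt] at h1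
    exact ⟨h1.1, fun e => h1.2 e.symm⟩
  have s1 : Sr c φ (U ⊔ U') := ⟨hU.1.sup hU'.1, fun a x hx => by
    obtain ⟨y, hy, z, hz, rfl⟩ := Submodule.mem_sup.1 hx
    rw [mulVec_add]
    exact Submodule.add_mem_sup (hU.2 a y hy) (hU'.2 a z hz)⟩
  have s2 : Sr c φ (U ⊓ U') :=
    ⟨hU.1.inf hU'.1, fun a x hx => ⟨hU.2 a x hx.1, hU'.2 a x hx.2⟩⟩
  have h1 := congrArg (th w) (du_sup_inf hU.1 hU'.1)
  rw [th_add, th_add, e, e1] at h1
  have h2 := (key _ s1).2 (by linarith [(key _ s1).1, (key _ s2).1])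
  have h3 : U = U ⊔ U' := Submodule.eq_of_le_of_finrank_le le_sup_left
    (by rwa [← sZ_du s1.1, ← sZ_du hU.1, e])
  have h4 : U' = U ⊔ U' := Submodule.eq_of_le_of_finrank_le le_sup_right
    (by rwa [← sZ_du s1.1, ← sZ_du hU'.1, e2])
  exact h4.trans h3.symm

theorem mem_Zs (hp : Adm c p) :
    φ ∈ Zs s t w c p ↔ φ ∈ St s t w c (dv (c1 c p)) ∧ blk (e2 p) (e1 p) φ = 0 := by
  have v1 : ∀ x ∈ V1 p, e1 p *ᵥ x = x := by
    rintro _ ⟨y, rfl⟩
    simp [mulVec_mulVec]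
  have dec : ∀ x : ι → ℂ, e1 p *ᵥ x + e2 p *ᵥ x = x := fun x => by
    rw [← add_mulVec, e1_add_e2, one_mulVec]
  have m1 : ∀ x : ι → ℂ, e1 p *ᵥ x ∈ V1 p := fun x => ⟨x, rfl⟩
  have b1 : Sr c φ (V1 p) → ∀ a, ∀ x ∈ V1 p, blk (e1 p) (e1 p) φ a *ᵥ x = φ a *ᵥ x :=
    fun h a x hx => by
      rw [blk_apply, ← mulVec_mulVec, ← mulVec_mulVec, v1 x hx, v1 _ (h.2 a x hx)]
  have b2 : blk (e2 p) (e1 p) φ = 0 → ∀ a x,
      blk (e2 p) (e2 p) φ a *ᵥ x = e2 p *ᵥ (φ a *ᵥ x) := fun h a x => by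
    have h1 : blk (e2 p) (e1 p) φ a *ᵥ x = 0 := by rw [h, Cj.zero_apply, zero_mulVec]
    conv_rhs => rw [← dec x, mulVec_add, mulVec_add]
    simp only [blk_apply, ← mulVec_mulVec] at h1 ⊢
    rw [h1, zero_add]
  constructor
  · rintro ⟨⟨hR, hG, hL⟩, h0⟩
    have hV := (sr_V1 hp).2 h0
    refine ⟨⟨⟨hR, V1 p, hV, (gs_V1 hp).2⟩, ?_⟩, h0⟩
    rintro _ hg ⟨-, W, hW, rfl⟩
    obtain ⟨g1, g2, e⟩ := du_split (p := p) hW.1
    have h1 := hG.2 (W ⊓ V1 p) ⟨g1, fun a x hx => by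
      rw [b1 hV a x hx.2]
      exact ⟨hW.2 a x hx.1, hV.2 a x hx.2⟩⟩
    have h2 := hL.2 (W.map (e2 p).mulVecLin) ⟨g2, by
      rintro a _ ⟨x, hx, rfl⟩
      refine ⟨φ a *ᵥ x, hW.2 a x hx, ?_⟩
      rw [mulVecLin_apply, mulVecLin_apply, ← b2 h0, blk_apply, mulVec_mulVec,
        mul_assoc _ (e2 p), e2_e2]⟩
    rw [← e, Hi, th_add] at hg
    by_cases h3 : W.map (e2 p).mulVecLin = ⊥
    · rw [h3, du_bot, th_zero, add_zero, add_zero] at hg
      rcases hg with hg | hg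
      · linarith
      · exact absurd (Finset.sum_le_sum fun v _ => du_le (c1 c p) (W ⊓ V1 p) v) (not_le.2 hg.2)
    · have := h2 h3
      rcases hg with hg | hg
      · linarith
      · linarith [hg.1]
  · rintro ⟨⟨⟨hR, -⟩, hS⟩, h0⟩
    have hV := (sr_V1 hp).2 h0
    refine ⟨⟨hR, ⟨blk_mem_c1 hR, fun U hU => ?_⟩, blk_mem_c2 hR, fun U hU hne => ?_⟩, h0⟩
    · obtain ⟨g1, g2, e⟩ := du_c1 hU.1
      by_contra h1
      exact hS _ (Or.inl (not_le.1 h1))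
        ⟨hR, U, ⟨g1, fun a x hx => b1 hV a x (g2 hx) ▸ hU.2 a x hx⟩, e⟩
    · obtain ⟨g1, e⟩ := du_c2 hp hU.1
      by_contra h1
      refine hS _ ?_ ⟨hR, V1 p ⊔ U, ⟨g1, fun a x hx => ?_⟩, e⟩
      · rw [Hi, th_add]
        rcases (not_lt.1 h1).lt_or_eq with h2 | h2
        · exact Or.inl (by linarith)
        · refine Or.inr ⟨by linarith, ?_⟩
          have h3 : 0 < sZ (du (c2 c p) U) := by
            rw [sZ_du hU.1]
            exact Nat.pos_of_ne_zero fun h => hne (Submodule.finrank_eq_zero.1 h)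
          simp only [sZ, Pi.add_apply, Finset.sum_add_distrib] at h3 ⊢
          omega
      · obtain ⟨y, hy, z, hz, rfl⟩ := Submodule.mem_sup.1 hx
        rw [mulVec_add, ← dec (φ a *ᵥ z), ← add_assoc, ← b2 h0]
        exact Submodule.add_mem_sup (Submodule.add_mem _ (hV.2 a y hy) (m1 _)) (hU.2 a z hz)

end Pool.Agent.Bet
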