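import Pool.Agent.P.MP_d34769_ag.BM7b
import Pool.Agent.P.MP_d34769_ag.BM2
import Pool.Agent.P.MP_d34769_ag.BH3

/-! TASK BM8: the strata, topologically. -/

open Set Matrix

namespace Pool.Agent.Bet

variable {ι : Type} [Fintype ι] [DecidableEq ι] {κ : Type} {Ar : Type} [Fintype κ]
  {s t : Ar → κ} {w : κ → ℝ} {c : ι → Option κ} {p : ι → Bool}

omit [Fintype κ] in
lemma aux1_BM8 (hp : Adm c p) {φ : Cj Ar ι} {k : Kc c} (h : blk (e2 p) (e1 p) (k⁻¹ • φ) = 0) :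
    Sr c φ ((V1 p).map k.1.1.mulVecLin) ∧ du c ((V1 p).map k.1.1.mulVecLin) = dv (c1 c p) := by
  have h1 := ((sr_V1 hp).2 h).smul (Kc_le c k.2)
  have e : k.1 • k⁻¹ • φ = φ := smul_inv_smul k φ
  rw [e] at h1
  exact ⟨h1, ((gs_V1 hp).1.map (Kc_le c k.2)).2.trans (gs_V1 hp).2⟩

omit [Fintype κ] in
lemma aux2_BM8 (hp : Adm c p) {φ : Cj Ar ι} {U : Submodule ℂ (ι → ℂ)} (hU : Sr c φ U)
    (e : du c U = dv (c1 c p)) : ∃ k : Kc c, blk (e2 p) (e1 p) (k⁻¹ • φ) = 0 := by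
  obtain ⟨k, hk, rfl⟩ := exists_unitary hp hU.1 e
  refine ⟨⟨k, hk⟩, (sr_V1 hp).1 ?_⟩
  have h1 := hU.smul (Kc_le c ((Kc c).inv_mem hk))
  rw [← Submodule.map_comp, ← Matrix.mulVecLin_mul, Units.inv_mul, Matrix.mulVecLin_one,
    Submodule.map_id] at h1
  exact h1

omit [Fintype κ] in
lemma aux3_BM8 (p : ι → Bool) :
    IsClosed {x : Kc c × Cj Ar ι | blk (e2 p) (e1 p) (x.1⁻¹ • x.2) = 0} :=
  isClosed_eq ((continuous_blk _ _).comp (continuous_fst.inv.smul continuous_snd)) continuous_const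

theorem isClosed_Cl (f : κ → ℕ) : IsClosed (Cl s t c f) := by
  by_cases hf : f ≤ dv c
  · obtain ⟨p, hp, rfl⟩ := exists_part hf
    have := compactSpace_Kc c
    have e : Cl s t c (dv (c1 c p)) = (Rc s t c : Set (Cj Ar ι)) ∩
        Prod.snd '' {x : Kc c × Cj Ar ι | blk (e2 p) (e1 p) (x.1⁻¹ • x.2) = 0} := by
      ext φ
      constructor
      · rintro ⟨h1, U, hU, e⟩
        obtain ⟨k, hk⟩ := aux2_BM8 hp hU e
        exact ⟨h1, (k, φ), hk, rfl⟩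
      · rintro ⟨h1, ⟨k, φ⟩, hk, rfl⟩
        exact ⟨h1, _, aux1_BM8 hp hk⟩
    rw [e]
    exact (isClosed_Rc s t c).inter (isClosedMap_snd_of_compactSpace _ (aux3_BM8 p))
  · have e : Cl s t c f = ∅ := eq_empty_of_forall_notMem fun φ h => hf (Cl_le h)
    rw [e]
    exact isClosed_empty

lemma aux4_BM8 (f : κ → ℕ) :
    RO {φ | φ ∈ Rc s t c ∧ ∀ g, Hi w g f → φ ∉ Cl s t c g} (Rc s t c) := by
  classical
  have hfin : {g | g ≤ dv c ∧ Hi w g f}.Finite := (Set.finite_Iic (dv c)).subset fun g h => h.1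
  have h := RO.of_isClosed (hfin.isClosed_biUnion fun g _ => isClosed_Cl (s := s) (t := t) (c := c) g)
    (Rc s t c : Set (Cj Ar ι))
  have e : {φ | φ ∈ Rc s t c ∧ ∀ g, Hi w g f → φ ∉ Cl s t c g} = (Rc s t c : Set (Cj Ar ι)) \
      ⋃ g ∈ {g | g ≤ dv c ∧ Hi w g f}, Cl s t c g := by
    ext φ
    simp only [mem_sdiff, mem_iUnion, not_exists, mem_ofPred_eq, SetLike.mem_coe]
    exact and_congr_right fun _ => ⟨fun h g hg => h g hg.2, fun h g hg hφ => h g ⟨Cl_le hφ, hg⟩ hφ⟩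
  rw [e]
  exact h

theorem ro_Ge : RO (Ge s t w c) (Rc s t c) := by
  rw [show Ge s t w c = _ from Set.ext fun φ => mem_Ge]
  exact aux4_BM8 _

theorem ro_Lt : RO (Lt s t w c) (Rc s t c) := by
  rw [show Lt s t w c = _ from Set.ext fun φ => mem_Lt]
  exact aux4_BM8 _

theorem ro_O2 : RO (O2 s t w c p) (Rc s t c) := by
  have h1 := RO.preimage (S := (Rc s t c : Set (Cj Ar ι))) (ro_Ge (s := s) (t := t) (w := w)
    (c := c1 c p)) (continuous_blk (e1 p) (e1 p)).continuousOn fun φ h => blk_mem_c1 h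
  have h2 := RO.preimage (S := (Rc s t c : Set (Cj Ar ι))) (ro_Lt (s := s) (t := t) (w := w)
    (c := c2 c p)) (continuous_blk (e2 p) (e2 p)).continuousOn fun φ h => blk_mem_c2 h
  have e : O2 s t w c p = (Rc s t c : Set (Cj Ar ι)) ∩ blk (e1 p) (e1 p) ⁻¹' Ge s t w (c1 c p) ∩
      ((Rc s t c : Set (Cj Ar ι)) ∩ blk (e2 p) (e2 p) ⁻¹' Lt s t w (c2 c p)) :=
    Set.ext fun φ => ⟨fun h => ⟨⟨h.1, h.2.1⟩, h.1, h.2.2⟩, fun h => ⟨h.1.1, h.1.2, h.2.2⟩⟩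
  rw [e]
  exact h1.inter h2

omit [Fintype κ] in
lemma aux5_BM8 (hp : Adm c p) {k l : Kc c}
    (h : (V1 p).map k.1.1.mulVecLin ≤ (V1 p).map l.1.1.mulVecLin) :
    (l • E1 p) () * (k • E1 p) () = (k • E1 p) () := by
  have hl := (Gr_spec hp (e := l • E1 p) ⟨l, rfl⟩).2.1
  refine Matrix.ext_iff_mulVec.2 fun x => ?_
  have h1 : (k • E1 p) () *ᵥ x ∈ (V1 p).map k.1.1.mulVecLin := by
    refine ⟨e1 p *ᵥ ((k.1⁻¹).1 *ᵥ x), ⟨_, rfl⟩, ?_⟩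
    rw [Matrix.mulVecLin_apply, Matrix.mulVec_mulVec, Matrix.mulVec_mulVec]
    rfl
  obtain ⟨_, ⟨y, rfl⟩, hy⟩ := h h1
  have h2 : (k • E1 p) () *ᵥ x = (l • E1 p) () *ᵥ (l.1.1 *ᵥ y) := by
    rw [← hy, Matrix.mulVecLin_apply, Matrix.mulVecLin_apply, Matrix.mulVec_mulVec,
      Matrix.mulVec_mulVec]
    congr 1
    change l.1.1 * e1 p = l.1.1 * e1 p * (l.1⁻¹).1 * l.1.1
    rw [mul_assoc _ _ l.1.1, Units.inv_mul, mul_one]
  rw [← Matrix.mulVec_mulVec, h2, Matrix.mulVec_mulVec, hl]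

lemma aux6_BM8 (hp : Adm c p) {φ : Cj Ar ι} (hφ : φ ∈ St s t w c (dv (c1 c p))) {k l : Kc c}
    (hk : blk (e2 p) (e1 p) (k⁻¹ • φ) = 0) (hl : blk (e2 p) (e1 p) (l⁻¹ • φ) = 0) :
    k • E1 p = l • E1 p := by
  obtain ⟨k1, k2⟩ := aux1_BM8 hp hk
  obtain ⟨l1, l2⟩ := aux1_BM8 hp hl
  have e := St.uniq hφ k1 l1 k2 (by rw [l2]) (by rw [l2])
  have h1 := aux5_BM8 hp e.le
  have h2 := congrArg star (aux5_BM8 hp e.ge)
  rw [star_mul, (Gr_spec hp (e := l • E1 p) ⟨l, rfl⟩).1,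
    (Gr_spec hp (e := k • E1 p) ⟨k, rfl⟩).1] at h2
  exact funext fun _ => h2.symm.trans h1

/-- the canonical subrepresentation depends continuously on the point of the stratum -/
theorem exists_q (hp : Adm c p) : ∃ q : Cj Ar ι → Cj Unit ι,
    ContinuousOn q (St s t w c (dv (c1 c p))) ∧ MapsTo q (St s t w c (dv (c1 c p))) (Gr c p) ∧
    (∀ k : Kc c, ∀ φ ∈ St s t w c (dv (c1 c p)), q (k • φ) = k • q φ) ∧
    ∀ φ ∈ St s t w c (dv (c1 c p)), (q φ = E1 p ↔ φ ∈ Zs s t w c p) := by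
  have := compactSpace_Kc c
  have hex : ∀ φ : Cj Ar ι, ∃ k : Kc c, φ ∈ St s t w c (dv (c1 c p)) →
      blk (e2 p) (e1 p) (k⁻¹ • φ) = 0 := fun φ => by
    by_cases h : φ ∈ St s t w c (dv (c1 c p))
    · obtain ⟨U, hU, e⟩ := h.1.2
      obtain ⟨k, hk⟩ := aux2_BM8 hp hU e
      exact ⟨k, fun _ => hk⟩
    · exact ⟨1, fun h' => (h h').elim⟩
  choose kk hkk using hex
  refine ⟨fun φ => kk φ • E1 p, ?_, fun φ _ => ⟨kk φ, rfl⟩, fun k φ hφ => ?_, fun φ hφ => ?_⟩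
  · refine continuousOn_iff_isClosed.2 fun T hT => ⟨Prod.snd ''
      ({x : Kc c × Cj Ar ι | blk (e2 p) (e1 p) (x.1⁻¹ • x.2) = 0} ∩ {x | x.1 • E1 p ∈ T}),
      isClosedMap_snd_of_compactSpace _ ((aux3_BM8 p).inter
        (hT.preimage (continuous_fst.smul continuous_const))), ?_⟩
    ext φ
    refine and_congr_left fun hφ => ⟨fun h => ⟨(kk φ, φ), ⟨hkk φ hφ, h⟩, rfl⟩, ?_⟩
    rintro ⟨⟨k, φ⟩, ⟨h1, h2⟩, rfl⟩
    have e : kk φ • E1 p = k • E1 p := aux6_BM8 hp hφ (hkk φ hφ) h1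
    change kk φ • E1 p ∈ T
    rw [e]
    exact h2
  · have h1 : k • φ ∈ St s t w c (dv (c1 c p)) := ivt_St _ ⟨k.1, Kc_le c k.2⟩ φ hφ
    change kk (k • φ) • E1 p = k • kk φ • E1 p
    rw [← mul_smul]
    refine aux6_BM8 hp h1 (hkk _ h1) ?_
    rw [_root_.mul_inv_rev, mul_smul, inv_smul_smul]
    exact hkk φ hφ
  · rw [mem_Zs hp]
    refine ⟨fun h => ⟨hφ, ?_⟩, fun h => ?_⟩
    · have h1 : e1 p * (kk φ).1.1 = (kk φ).1.1 * e1 p := smul_E1.1 h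
      have h2 : e2 p * (kk φ).1.1 = (kk φ).1.1 * e2 p := by
        rw [eq_sub_of_add_eq' (e1_add_e2 p), sub_mul, mul_sub, h1, one_mul, mul_one]
      have h3 := blk_smul h2 h1 ((kk φ)⁻¹ • φ)
      have e : (kk φ).1 • (kk φ)⁻¹ • φ = φ := smul_inv_smul (kk φ) φ
      rw [e, hkk φ hφ, smul_zero] at h3
      exact h3
    · have h1 : kk φ • E1 p = (1 : Kc c) • E1 p :=
        aux6_BM8 hp hφ (hkk φ hφ) (by rw [inv_one, one_smul]; exact h.2)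
      rw [one_smul] at h1
      exact h1

end Pool.Agent.Bet
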