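import Pool.Agent.P.MP_d34769_ag.BM2

/-! TASK BM9: equivariant extension (Tietze and averaging over the compact group). -/

open Set Matrix

namespace Pool.Agent.Bet

variable {ι : Type} [Fintype ι] [DecidableEq ι] {κ : Type} {Ar : Type}

open MeasureTheory in
/-- Averaging over a compact group. -/
theorem avg_BM9 {K X Y : Type} [Group K] [TopologicalSpace K] [IsTopologicalGroup K]
    [CompactSpace K] [TopologicalSpace X] [NormedAddCommGroup Y] [NormedSpace ℝ Y]
    [NormedSpace ℂ Y] [CompleteSpace Y] (act : K → X → X) (ρ : K → Y → Y)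
    (ca : Continuous fun p : K × X => act p.1 p.2) (cρ : Continuous fun p : K × Y => ρ p.1 p.2)
    (ma : ∀ g k x, act (g * k)⁻¹ (act g x) = act k⁻¹ x) (mρ : ∀ g k y, ρ (g * k) y = ρ g (ρ k y))
    (lρ : ∀ g, IsLinearMap ℂ (ρ g)) {q0 : X → Y} (cq : Continuous q0) :
    ∃ q' : X → Y, Continuous q' ∧ (∀ g x, q' (act g x) = ρ g (q' x)) ∧
      ∀ x y, (∀ k, ρ k (q0 (act k⁻¹ x)) = y) → q' x = y := by
  borelize K
  let μ : Measure K := Measure.haarMeasure ⊤
  have : IsProbabilityMeasure μ :=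
    ⟨by simpa using Measure.haarMeasure_self (K₀ := (⊤ : TopologicalSpace.PositiveCompacts K))⟩
  let F : C(X × K, Y) := ⟨fun p => ρ p.2 (q0 (act p.2⁻¹ p.1)),
    cρ.comp (continuous_snd.prodMk (cq.comp (ca.comp (continuous_snd.inv.prodMk continuous_fst))))⟩
  have hi : ∀ g : C(K, Y), Integrable g μ := fun g =>
    g.continuous.integrable_of_hasCompactSupport (HasCompactSupport.of_compactSpace _)
  have hI : Continuous fun g : C(K, Y) => ∫ k, g k ∂μ := by
    refine (LipschitzWith.of_dist_le_mul (K := 1) fun g g' => ?_).continuous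
    rw [dist_eq_norm, ← integral_sub (hi g) (hi g'), NNReal.coe_one, one_mul]
    refine (norm_integral_le_of_norm_le_const (C := dist g g')
      (Filter.Eventually.of_forall fun k => ?_)).trans (by simp)
    rw [← dist_eq_norm]
    exact ContinuousMap.dist_apply_le_dist k
  refine ⟨fun x => ∫ k, F.curry x k ∂μ, hI.comp F.curry.continuous, fun g x => ?_,
    fun x y h => ?_⟩
  · let L : Y →L[ℂ] Y := ⟨IsLinearMap.mk' _ (lρ g), cρ.comp (Continuous.prodMk_right g)⟩
    refine ((integral_mul_left_eq_self (fun k => F.curry (act g x) k) g).symm.trans ?_).trans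
      (L.integral_comp_comm (hi (F.curry x)))
    refine integral_congr_ae (Filter.Eventually.of_forall fun k => ?_)
    show ρ (g * k) (q0 (act (g * k)⁻¹ (act g x))) = ρ g (ρ k (q0 (act k⁻¹ x)))
    rw [ma, mρ]
  · have : (fun k => F.curry x k) = fun _ => y := funext h
    show ∫ k, F.curry x k ∂μ = y
    rw [this]
    simp

theorem exists_extension [Finite Ar] (c : ι → Option κ) {U S : Set (Cj Ar ι)} (hU : Ivt (Kc c) U)
    (hS : Ivt (Kc c) S) (h : S ⊆ U) (hc : RO (U \ S) U) {q : Cj Ar ι → Cj Unit ι}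
    (cq : ContinuousOn q S) (he : ∀ k : Kc c, ∀ φ ∈ S, q (k • φ) = k • q φ) :
    ∃ q' : Cj Ar ι → Cj Unit ι, ContinuousOn q' U ∧
      (∀ k : Kc c, ∀ φ ∈ U, q' (k • φ) = k • q' φ) ∧ EqOn q' q S := by
  classical
  have := compactSpace_Kc c
  have : TopologicalSpace.MetrizableSpace (Cj Ar ι) :=
    inferInstanceAs (TopologicalSpace.MetrizableSpace (Ar → ι → ι → ℂ))
  obtain ⟨O, hO, hOU⟩ := hc
  have hcl : IsClosed (Subtype.val ⁻¹' S : Set U) := by
    rw [← isOpen_compl_iff]
    convert hO.preimage (continuous_subtype_val (p := (· ∈ U))) using 1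
    ext x
    have := Set.ext_iff.1 hOU x.1
    simpa [x.2] using this
  let f : C((Subtype.val ⁻¹' S : Set U), Unit → ι → ι → ℂ) := ⟨fun x => q x.1.1,
    cq.comp_continuous (continuous_subtype_val.comp continuous_subtype_val) fun x => x.2⟩
  obtain ⟨q0, hq0⟩ := f.exists_restrict_eq hcl
  have h0 : ∀ x : U, x.1 ∈ S → q0 x = q x.1 := fun x hx =>
    DFunLike.congr_fun hq0 ⟨x, hx⟩
  obtain ⟨q', c', e', f'⟩ := avg_BM9 (K := Kc c) (X := U) (Y := Unit → ι → ι → ℂ)
    (fun k x => ⟨k • x.1, hU k _ x.2⟩) (fun k y => (k • (show Cj Unit ι from y) : Cj Unit ι))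
    (Continuous.subtype_mk (continuous_fst.smul (continuous_subtype_val.comp continuous_snd)) _)
    (continuous_smul (M := Kc c) (X := Cj Unit ι))
    (fun g k x => Subtype.ext (by simp [mul_smul]))
    (fun g k y => mul_smul g k (show Cj Unit ι from y))
    (fun g => ⟨fun y z => smul_add g (show Cj Unit ι from y) z,
      fun a y => smul_comm (M := GG ι) (α := Cj Unit ι) g.1 a y⟩) q0.continuous
  refine ⟨fun φ => if hφ : φ ∈ U then q' ⟨φ, hφ⟩ else 0, ?_, fun k φ hφ => ?_, fun φ hφ => ?_⟩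
  · rw [continuousOn_iff_continuous_domRestrict]
    refine c'.congr fun x => ?_
    simp [x.2]
  · simp only [dif_pos hφ, dif_pos (hU k φ hφ)]
    exact e' k ⟨φ, hφ⟩
  · simp only [dif_pos (h hφ)]
    refine f' _ _ fun k => ?_
    rw [h0 _ (hS k⁻¹ φ hφ)]
    show k • q (k⁻¹ • φ) = q φ
    rw [he _ _ hφ, smul_inv_smul]

end Pool.Agent.Bet
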