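import Pool.Agent.P.MP_d34769_ag.BM8
import Pool.Agent.P.MP_d34769_ag.BM9
import Pool.Agent.P.MP_d34769_ag.BM10
import Pool.Agent.P.MP_d34769_ag.BB5
import Pool.Agent.P.MP_d34769_ag.BM3

/-! TASK BS1: the neighbourhood of a stratum, and the Thom isomorphism for block bundles. -/

open Set Matrix

namespace Pool.Agent.Bet

variable {ι : Type} [Fintype ι] [DecidableEq ι] {κ : Type} {Ar : Type} [Fintype κ] [Fintype Ar]
  {s t : Ar → κ} {w : κ → ℝ} {c : ι → Option κ} {p : ι → Bool}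

theorem exists_nbhd (hp : Adm c p) {U : Set (Cj Ar ι)} (hU : Ivt (Kc c) U)
    (h1 : St s t w c (dv (c1 c p)) ⊆ U) (h2 : RO (U \ St s t w c (dv (c1 c p))) U) :
    ∃ (W : Set (Cj Ar ι)) (q : Cj Ar ι → Cj Unit ι), RO W U ∧ Ivt (Kc c) W ∧
      St s t w c (dv (c1 c p)) ⊆ W ∧ ContinuousOn q W ∧ MapsTo q W (Gr c p) ∧
      (∀ k : Kc c, ∀ φ ∈ W, q (k • φ) = k • q φ) ∧
      ∀ φ ∈ St s t w c (dv (c1 c p)), (q φ = E1 p ↔ φ ∈ Zs s t w c p) := by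
  obtain ⟨q₀, c0, m0, e0, z0⟩ := exists_q (s := s) (t := t) (w := w) hp
  have hS : Ivt (Kc c) (St s t w c (dv (c1 c p))) := (ivt_St _).mono (Kc_le c)
  obtain ⟨q', c1', e1', x1⟩ := exists_extension c hU hS h1 h2 c0 e0
  obtain ⟨N, ρ, oN, iN, gN, cρ, mρ, eρ, fρ⟩ := exists_retraction hp
  refine ⟨U ∩ q' ⁻¹' N, fun φ => ρ (q' φ), RO.of_isOpen c1' oN, ?_, ?_, ?_, ?_, ?_, ?_⟩
  · intro k φ hφ
    refine ⟨hU k φ hφ.1, ?_⟩
    rw [mem_preimage, e1' k φ hφ.1]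
    exact iN k _ hφ.2
  · intro φ hφ
    refine ⟨h1 hφ, ?_⟩
    rw [mem_preimage, x1 hφ]
    exact gN (m0 hφ)
  · exact cρ.comp (c1'.mono inter_subset_left) fun φ hφ => hφ.2
  · exact fun φ hφ => mρ hφ.2
  · intro k φ hφ
    show ρ (q' (k • φ)) = k • ρ (q' φ)
    rw [e1' k φ hφ.1, eρ k _ hφ.2]
  · intro φ hφ
    show ρ (q' φ) = E1 p ↔ _
    rw [x1 hφ, fρ _ (m0 hφ)]
    exact z0 φ hφ

theorem prin_cp (c : ι → Option κ) (p : ι → Bool) : Prin (Kc (cp c p)) (Ec c) := by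
  exact (prin_Kc (cp c p)).mono (Ec_subset_cp c p)

theorem ivt_Ec_cp (c : ι → Option κ) (p : ι → Bool) : Ivt (Kc (cp c p)) (Ec c) := by
  exact (ivt_Ec c).mono ((Kc_cp_le c p).trans (Kc_le c))

/-- the Thom isomorphism for the bundle with fibre the lower left block of another quiver -/
theorem thom_R21 {Ar' : Type} [Fintype Ar'] (s' t' : Ar' → κ) {S T : Set (Cj Ar ι)}
    (hS : Ivt (Kc (cp c p)) S) (hT : Ivt (Kc (cp c p)) T) (h : RO T S) :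
    Sh (2 * bb s' t' (dv (c1 c p)) (dv (c2 c p))) (Bo (Kc (cp c p)) S (Ec c))
      (Bo (Kc (cp c p)) T (Ec c))
      (qs (Kc (cp c p)) ((S ×ˢ Ec c) ×ˢ (R21 s' t' c p : Set (Cj Ar' ι))))
      (qs (Kc (cp c p)) {x | x ∈ (S ×ˢ Ec c) ×ˢ (R21 s' t' c p : Set (Cj Ar' ι)) ∧
        (x.1.1 ∈ T ∨ x.2 ≠ 0)}) := by
  obtain ⟨J, cJ, iJ, nJ⟩ := exists_J (ι := ι) (Ar := Ar')
  have hE := ivt_Ec_cp c p
  have hJ : Emb (Kc (cp c p)) (S ×ˢ Ec c) (R21 s' t' c p) fun x : Cj Ar ι × Mt ι => J x.2 :=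
    ⟨ivt_R21 s' t' c p,
      (cJ.comp ((continuous_snd.comp continuous_fst).prodMk continuous_snd)).continuousOn,
      fun γ x _ v _ => iJ γ.1 (mem_Kc.1 γ.2).2 x.2 v,
      fun x hx v hv h0 => nJ κ s' t' c x.2 hx.2 v hv.1 h0⟩
  have key := q_thom (hS.prod hE) (prin_cp c p).prod_right hJ (hT.prod hE) (h.prod (RO.refl _))
  have e : {x : (Cj Ar ι × Mt ι) × Cj Ar' ι |
      x ∈ (S ×ˢ Ec c) ×ˢ (R21 s' t' c p : Set (Cj Ar' ι)) ∧ (x.1 ∈ T ×ˢ Ec c ∨ x.2 ≠ 0)} =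
      {x | x ∈ (S ×ˢ Ec c) ×ˢ (R21 s' t' c p : Set (Cj Ar' ι)) ∧ (x.1.1 ∈ T ∨ x.2 ≠ 0)} :=
    Set.ext fun x => and_congr_right fun hx => or_congr_left (and_iff_left hx.1.2)
  rw [e, finrank_R21] at key
  exact key

end Pool.Agent.Bet
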