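import Pool.Agent.P.MP_d34769_ag.BM4b

/-! TASK BS10: local slices for the action on Schur representations. -/

open Set Matrix

namespace Pool.Agent.Bet

variable {ι : Type} [Fintype ι] [DecidableEq ι] {κ : Type} {Ar : Type} [Fintype Ar]
  {s t : Ar → κ} {c : ι → Option κ}

theorem small_BS10 {A : Type} [NormedRing A] [NormedAlgebra ℂ A] (W : Submodule ℂ A)
    (φ₀ : Ar → A) (π : (Ar → A) →L[ℂ] W)
    (hπ : ∀ y : W, π (fun a => y.1 * φ₀ a - φ₀ a * y.1) = y) {σ σ' : Ar → A}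
    (h1 : ‖σ - φ₀‖ < (2 * (‖π‖ + 1))⁻¹) (h2 : ‖σ' - φ₀‖ < (2 * (‖π‖ + 1))⁻¹) (y : W)
    (h : π (fun a => y.1 * σ a - σ' a * y.1) = 0) : y = 0 := by
  have e : y = π (fun a => (σ' - φ₀) a * y.1 - y.1 * (σ - φ₀) a) := by
    have : (fun a => (σ' - φ₀) a * y.1 - y.1 * (σ - φ₀) a) =
        (fun a => y.1 * φ₀ a - φ₀ a * y.1) - fun a => y.1 * σ a - σ' a * y.1 := by
      funext a
      simp only [Pi.sub_apply]
      noncomm_ring
    rw [this, map_sub, hπ, h, sub_zero]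
  have hp : 0 < 2 * (‖π‖ + 1) := by positivity
  have hb : ‖fun a => (σ' - φ₀) a * y.1 - y.1 * (σ - φ₀) a‖ ≤ 2 * (2 * (‖π‖ + 1))⁻¹ * ‖y‖ := by
    refine (pi_norm_le_iff_of_nonneg (by positivity)).2 fun a => ?_
    have k1 := (norm_le_pi_norm (σ - φ₀) a).trans h1.le
    have k2 := (norm_le_pi_norm (σ' - φ₀) a).trans h2.le
    have k3 := norm_mul_le ((σ' - φ₀) a) y.1
    have k4 := norm_mul_le y.1 ((σ - φ₀) a)
    have k5 := norm_sub_le ((σ' - φ₀) a * y.1) (y.1 * (σ - φ₀) a)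
    have k6 : ‖y‖ = ‖y.1‖ := rfl
    rw [k6]
    nlinarith [norm_nonneg y.1]
  have hc := (π.le_opNorm _).trans (mul_le_mul_of_nonneg_left hb (norm_nonneg π))
  rw [← e] at hc
  have hlt : ‖π‖ * (2 * (2 * (‖π‖ + 1))⁻¹) < 1 := by
    rw [← div_eq_mul_inv, ← mul_div_assoc, div_lt_one hp]
    linarith
  by_contra hy
  have := norm_pos_iff.2 hy
  nlinarith

theorem abs_BS10 {A : Type} [NormedRing A] [NormedAlgebra ℂ A] [FiniteDimensional ℂ A]
    (W : Submodule ℂ A) (φ₀ : Ar → A) (hinj : ∀ y ∈ W, (∀ a, y * φ₀ a = φ₀ a * y) → y = 0) :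
    ∃ N : Set (Ar → A), IsOpen N ∧ φ₀ ∈ N ∧ ∃ (y : (Ar → A) → W) (σ : (Ar → A) → Ar → A),
      ContinuousOn y N ∧ (∀ x ∈ N, IsUnit (1 + (y x).1)) ∧
      (∀ x ∈ N, ∀ a, (1 + (y x).1) * σ x a = x a * (1 + (y x).1)) ∧
      ∀ x ∈ N, ∀ x' ∈ N, ∀ (z : ℂ) (u : W),
        (∀ a, (z • 1 + u.1) * σ x a = σ x' a * (z • 1 + u.1)) → u = 0 := by
  have : CompleteSpace A := FiniteDimensional.complete ℂ A
  have : CompleteSpace W := FiniteDimensional.complete ℂ W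
  let d : W →ₗ[ℂ] (Ar → A) := LinearMap.pi fun a =>
    (LinearMap.mulRight ℂ (φ₀ a) - LinearMap.mulLeft ℂ (φ₀ a)) ∘ₗ W.subtype
  have hd : ∀ y : W, d y = fun a => y.1 * φ₀ a - φ₀ a * y.1 := fun y => rfl
  have hk : LinearMap.ker d = ⊥ := by
    refine LinearMap.ker_eq_bot'.2 fun y hy => Subtype.ext (hinj y.1 y.2 fun a => ?_)
    exact sub_eq_zero.1 (congrFun ((hd y).symm.trans hy) a)
  obtain ⟨π₀, hπ₀⟩ := d.exists_leftInverse_of_injective hk
  let π : (Ar → A) →L[ℂ] W := LinearMap.toContinuousLinearMap π₀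
  have hπ : ∀ y : W, π (fun a => y.1 * φ₀ a - φ₀ a * y.1) = y := fun y =>
    LinearMap.congr_fun hπ₀ y
  let Θ : W × (Ar → A) × (Ar → A) → W × (Ar → A) × (Ar → A) := fun p =>
    (π p.2.1, fun a => (1 + p.1.1) * p.2.1 a - p.2.2 a * (1 + p.1.1), p.2.2)
  let D₀ : (W × (Ar → A) × (Ar → A)) →ₗ[ℂ] (W × (Ar → A) × (Ar → A)) :=
    (π₀ ∘ₗ LinearMap.fst ℂ _ _ ∘ₗ LinearMap.snd ℂ _ _).prod
      ((d ∘ₗ LinearMap.fst ℂ _ _ + LinearMap.fst ℂ _ _ ∘ₗ LinearMap.snd ℂ _ _ -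
        LinearMap.snd ℂ _ _ ∘ₗ LinearMap.snd ℂ _ _).prod
        (LinearMap.snd ℂ _ _ ∘ₗ LinearMap.snd ℂ _ _))
  have hD₀ : ∀ p, D₀ p = (π p.2.1, d p.1 + p.2.1 - p.2.2, p.2.2) := fun p => rfl
  have hi : Function.Injective D₀ := by
    refine (injective_iff_map_eq_zero D₀).2 fun p hp => ?_
    rw [hD₀] at hp
    have k1 : π p.2.1 = 0 := congrArg (·.1) hp
    have k2 : d p.1 + p.2.1 - p.2.2 = 0 := congrArg (·.2.1) hp
    have k3 : p.2.2 = 0 := congrArg (·.2.2) hp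
    rw [k3, sub_zero] at k2
    have k4 : p.1 = 0 := by
      have := congrArg π k2
      rwa [map_add, k1, add_zero, map_zero, hd, hπ] at this
    rw [k4, map_zero, zero_add] at k2
    exact Prod.ext k4 (Prod.ext k2 k3)
  let D := (LinearEquiv.ofInjectiveEndo D₀ hi).toContinuousLinearEquiv
  have hΘ : HasStrictFDerivAt Θ
      (D : (W × (Ar → A) × (Ar → A)) →L[ℂ] (W × (Ar → A) × (Ar → A))) (0, φ₀, φ₀) := by
    let P := W × (Ar → A) × (Ar → A)
    let Y : P →L[ℂ] A := W.subtypeL ∘L ContinuousLinearMap.fst ℂ _ _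
    let S : P →L[ℂ] (Ar → A) := ContinuousLinearMap.fst ℂ _ _ ∘L ContinuousLinearMap.snd ℂ _ _
    let X : P →L[ℂ] (Ar → A) := ContinuousLinearMap.snd ℂ _ _ ∘L ContinuousLinearMap.snd ℂ _ _
    let p₀ : P := (0, φ₀, φ₀)
    have hY := (Y.hasStrictFDerivAt (x := p₀)).const_add 1
    have h2 := hasStrictFDerivAt_pi.2 fun a : Ar =>
      (hY.mul' ((ContinuousLinearMap.proj a ∘L S).hasStrictFDerivAt (x := p₀))).sub
        (((ContinuousLinearMap.proj a ∘L X).hasStrictFDerivAt (x := p₀)).mul' hY)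
    have h3 := ((π ∘L S).hasStrictFDerivAt (x := p₀)).prodMk
      (h2.prodMk (X.hasStrictFDerivAt (x := p₀)))
    refine h3.congr_fderiv ?_
    refine ContinuousLinearMap.ext fun p => ?_
    show _ = D₀ p
    rw [hD₀, hd]
    refine Prod.ext rfl (Prod.ext (funext fun a => ?_) rfl)
    show ((1 + 0) * p.2.1 a + p.1.1 * φ₀ a) - (φ₀ a * p.1.1 + p.2.2 a * (1 + 0)) =
      p.1.1 * φ₀ a - φ₀ a * p.1.1 + p.2.1 a - p.2.2 a
    noncomm_ring
  let e := hΘ.toOpenPartialHomeomorph Θ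
  have he : ∀ p, e p = Θ p := fun p => rfl
  have hs0 : ((0 : W), φ₀, φ₀) ∈ e.source := hΘ.mem_toOpenPartialHomeomorph_source
  let j : (Ar → A) → W × (Ar → A) × (Ar → A) := fun x => (π φ₀, 0, x)
  have hj : Continuous j := by fun_prop
  have hj0 : e (0, φ₀, φ₀) = j φ₀ := by
    rw [he]
    refine Prod.ext rfl (Prod.ext (funext fun a => ?_) rfl)
    simp [Θ, j]
  have hc : ContinuousOn (fun x => e.symm (j x)) (j ⁻¹' e.target) :=
    e.continuousOn_symm.comp hj.continuousOn fun x hx => hx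
  let U : Set (W × (Ar → A) × (Ar → A)) :=
    {p | IsUnit (1 + p.1.1)} ∩ {p | ‖p.2.1 - φ₀‖ < (2 * (‖π‖ + 1))⁻¹}
  have hU : IsOpen U :=
    (Units.isOpen.preimage (f := fun p : W × (Ar → A) × (Ar → A) => 1 + p.1.1)
      (by fun_prop)).inter (isOpen_lt (by fun_prop) continuous_const)
  have key : ∀ x ∈ j ⁻¹' e.target, π (e.symm (j x)).2.1 = π φ₀ ∧ ∀ a,
      (1 + (e.symm (j x)).1.1) * (e.symm (j x)).2.1 a = x a * (1 + (e.symm (j x)).1.1) := by
    intro x hx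
    have h := (he _).symm.trans (e.right_inv hx)
    have k3 : (e.symm (j x)).2.2 = x := congrArg (·.2.2) h
    refine ⟨congrArg (·.1) h, fun a => ?_⟩
    have k2 : (1 + (e.symm (j x)).1.1) * (e.symm (j x)).2.1 a -
      (e.symm (j x)).2.2 a * (1 + (e.symm (j x)).1.1) = 0 := congrArg (·.2.1 a) h
    rwa [k3, sub_eq_zero] at k2
  refine ⟨j ⁻¹' e.target ∩ (fun x => e.symm (j x)) ⁻¹' U,
    hc.isOpen_inter_preimage (e.open_target.preimage hj) hU, ⟨?_, ?_⟩,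
    fun x => (e.symm (j x)).1, fun x => (e.symm (j x)).2.1,
    (continuous_fst.comp_continuousOn hc).mono inter_subset_left, fun x hx => hx.2.1,
    fun x hx => (key x hx.1).2, fun x hx x' hx' z u hu => ?_⟩
  · show j φ₀ ∈ e.target
    rw [← hj0]
    exact e.map_source hs0
  · show e.symm (j φ₀) ∈ U
    rw [← hj0, e.left_inv hs0]
    refine ⟨by simp, ?_⟩
    show ‖φ₀ - φ₀‖ < _
    rw [sub_self, norm_zero]
    positivity
  · refine small_BS10 W φ₀ π hπ hx.2.2 hx'.2.2 u ?_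
    have : (fun a => u.1 * (e.symm (j x)).2.1 a - (e.symm (j x')).2.1 a * u.1) =
        z • ((e.symm (j x')).2.1 - (e.symm (j x)).2.1) := by
      funext a
      have := hu a
      simp only [add_mul, mul_add, smul_mul_assoc, mul_smul_comm, one_mul, mul_one] at this
      simp only [Pi.smul_apply, Pi.sub_apply, smul_sub]
      rw [sub_eq_sub_iff_add_eq_add, add_comm, this]
    rw [this, map_smul, map_sub, (key x hx.1).1, (key x' hx'.1).1, sub_self, smul_zero]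

theorem exists_slice (hc : ∀ i, c i ≠ none) (i₀ : ι) {φ₀ : Cj Ar ι} (h0 : φ₀ ∈ Rc s t c)
    (hs : ∀ x : Matrix ι ι ℂ, (∀ o, dg c o * x = x * dg c o) → (∀ a, x * φ₀ a = φ₀ a * x) →
      ∃ z : ℂ, x = z • (1 : Matrix ι ι ℂ)) :
    ∃ N : Set (Cj Ar ι), IsOpen N ∧ φ₀ ∈ N ∧ ∃ γ : Cj Ar ι → Gc c,
      ContinuousOn γ (Rc s t c ∩ N) ∧ ∀ x ∈ (Rc s t c : Set (Cj Ar ι)) ∩ N,
        ∀ y ∈ (Rc s t c : Set (Cj Ar ι)) ∩ N, ∀ g : Gc c, g • (γ x)⁻¹ • x = (γ y)⁻¹ • y →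
          ∃ z : ℂ, g.1.1 = z • (1 : Matrix ι ι ℂ) := by
  classical
  let _ : NormedRing (Matrix ι ι ℂ) := Matrix.linftyOpNormedRing
  let _ : NormedAlgebra ℂ (Matrix ι ι ℂ) := Matrix.linftyOpNormedAlgebra
  have : CompleteSpace (Matrix ι ι ℂ) := FiniteDimensional.complete ℂ _
  have hn : dg c none = (0 : Matrix ι ι ℂ) := dp_false hc
  let W : Submodule ℂ (Matrix ι ι ℂ) :=
    { carrier := {y | (∀ o, dg c o * y = y * dg c o) ∧ y i₀ i₀ = 0}
      zero_mem' := ⟨fun o => by simp, rfl⟩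
      add_mem' := fun {x y} hx hy => ⟨fun o => by rw [mul_add, add_mul, hx.1, hy.1],
        by rw [Matrix.add_apply, hx.2, hy.2, add_zero]⟩
      smul_mem' := fun z x hx => ⟨fun o => by rw [Matrix.mul_smul, Matrix.smul_mul, hx.1],
        by rw [Matrix.smul_apply, hx.2, smul_zero]⟩ }
  obtain ⟨N, hN, hN0, y, σ, hy, hu, hσ, huniq⟩ := abs_BS10 (A := Matrix ι ι ℂ) W φ₀ (by
    intro y hy h
    obtain ⟨z, rfl⟩ := hs y hy.1 h
    have := hy.2
    simp only [Matrix.smul_apply, Matrix.one_apply_eq, smul_eq_mul, mul_one] at this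
    rw [this, zero_smul])
  let γ : Cj Ar ι → Gc c := fun x =>
    if h : IsUnit (1 + (y x).1) then ⟨h.unit, fun o => by
      rw [h.unit_spec, mul_add, add_mul, (y x).2.1, mul_one, one_mul], by rw [hn, zero_mul]⟩
    else 1
  have hγ : ∀ x ∈ N, (γ x).1.1 = 1 + (y x).1 := fun x hx => by
    simp only [γ, dif_pos (hu x hx), IsUnit.unit_spec]
  have hγσ : ∀ x ∈ N, (γ x)⁻¹ • (show Cj Ar ι from x) = (show Cj Ar ι from σ x) := by
    intro x hx
    funext a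
    show ((γ x).1⁻¹).1 * x a * ((γ x).1⁻¹⁻¹).1 = σ x a
    rw [inv_inv, mul_assoc, hγ x hx, ← hσ x hx a, ← hγ x hx, Units.inv_mul_cancel_left]
  refine ⟨N, hN, hN0, γ, ?_, fun x hx x' hx' g hg => ⟨g.1.1 i₀ i₀, ?_⟩⟩
  · refine ContinuousOn.mono ?_ inter_subset_right
    have hind : Topology.IsInducing fun g : Gc c => g.1.1 :=
      (Units.isOpenEmbedding_val (R := Matrix ι ι ℂ)).isInducing.comp
        Topology.IsInducing.subtypeVal
    refine hind.continuousOn_iff.2 (ContinuousOn.congr ?_ hγ)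
    exact continuousOn_const.add (continuous_subtype_val.comp_continuousOn hy)
  · rw [hγσ x hx.2, hγσ x' hx'.2] at hg
    have hm : g.1.1 - g.1.1 i₀ i₀ • (1 : Matrix ι ι ℂ) ∈ W :=
      ⟨fun o => by
        rw [mul_sub, sub_mul, g.2.1, Matrix.mul_smul, Matrix.smul_mul, mul_one, one_mul],
        by simp⟩
    have := huniq x hx.2 x' hx'.2 (g.1.1 i₀ i₀) ⟨_, hm⟩ fun a => by
      have h : g.1.1 * σ x a * (g.1⁻¹).1 = σ x' a := congrFun hg a
      simp only [add_sub_cancel]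
      rw [← h, Units.inv_mul_cancel_right]
    exact sub_eq_zero.1 (congrArg Subtype.val this)

end Pool.Agent.Bet
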