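import Pool.Agent.P.MP_d34769_ag.BS1
import Pool.Agent.P.MP_d34769_ag.BM11

/-! TASK BS2: from the stratum to the slice. -/

open Set Matrix

namespace Pool.Agent.Bet

variable {ι : Type} [Fintype ι] [DecidableEq ι] {κ : Type} {Ar : Type} [Fintype κ] [Fintype Ar]
  {s t : Ar → κ} {w : κ → ℝ} {c : ι → Option κ} {p : ι → Bool}

theorem step_A (hp : Adm c p) {U : Set (Cj Ar ι)} (hU : Ivt (Kc c) U) (h0 : RO U (Rc s t c))
    (h1 : St s t w c (dv (c1 c p)) ⊆ U) (h2 : RO (U \ St s t w c (dv (c1 c p))) U) :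
    ∃ O : Set (Cj Ar ι), Ivt (Kc (cp c p)) O ∧ RO O (O2 s t w c p) ∧ Zs s t w c p ⊆ O ∧
      Sh (2 * bb id id (dv (c1 c p)) (dv (c2 c p))) (Bo (Kc c) U (Ec c))
        (Bo (Kc c) (U \ St s t w c (dv (c1 c p))) (Ec c)) (Bo (Kc (cp c p)) O (Ec c))
        (Bo (Kc (cp c p)) (O \ Zs s t w c p) (Ec c)) := by
  obtain ⟨W, q, rW, iW, sW, cq, mq, eq, hq⟩ := exists_nbhd hp hU h1 h2
  obtain ⟨Ω, kk, aa, oΩ, iΩ, ck, k0, ek, ca, ma, hka, hak⟩ := exists_cell_Gr (c := c) hp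
  set Sx := St s t w c (dv (c1 c p)) with hSx
  set Zx := Zs s t w c p with hZx
  have hLK := Kc_cp_le c p
  have := compactSpace_Kc c
  have iS : Ivt (Kc c) Sx := (ivt_St _).mono (Kc_le c)
  have iE : Ivt (Kc c) (Ec c) := (ivt_Ec c).mono (Kc_le c)
  have iEL := ivt_Ec_cp c p
  have iZ : Ivt (Kc (cp c p)) Zx := ivt_Zs hp
  have ZS : Zx ⊆ Sx := fun φ h => ((mem_Zs hp).1 h).1
  have eqL : ∀ l : Kc (cp c p), ∀ φ ∈ W, q (l • φ) = l • q φ := fun l => eq ⟨l.1, hLK l.2⟩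
  have fixL : ∀ l : Kc (cp c p), l • E1 p = E1 p := fun l =>
    smul_E1.2 (mem_Kc_cp.1 l.2).2
  have iWL : Ivt (Kc (cp c p)) W := iW.mono hLK
  have iR := ivt_R21 (id : κ → κ) id c p
  have hE1 : E1 p ∈ Ω ∧ aa (E1 p) = 0 := by
    simpa [k0] using hka 0 (Submodule.zero_mem _)
  have eaa : ∀ l : Kc (cp c p), ∀ e ∈ Gr c p ∩ Ω, aa (l • e) = l • aa e := by
    intro l e he
    have h3 := (hka _ (iR l _ (ma he))).2
    have h4 : kk (l • aa e) • E1 p = l • e := by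
      conv_rhs => rw [← hak e he]
      change (kk (l.1 • aa e)).1 • E1 p = l.1 • (kk (aa e)).1 • E1 p
      rw [ek l.1 l.2 _ (ma he), mul_smul, mul_smul]
      exact congrArg _ (congrArg _ (fixL l⁻¹))
    rwa [h4] at h3
  set W₀ : Set (Cj Ar ι) := W ∩ q ⁻¹' {E1 p} with hW₀
  set W' : Set (Cj Ar ι) := W ∩ q ⁻¹' Ω with hW'
  have iW₀ : Ivt (Kc (cp c p)) W₀ := fun l φ h =>
    ⟨iWL l φ h.1, by rw [mem_preimage, eqL l φ h.1, show q φ = E1 p from h.2]; exact fixL l⟩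
  have iW' : Ivt (Kc (cp c p)) W' := fun l φ h =>
    ⟨iWL l φ h.1, by rw [mem_preimage, eqL l φ h.1]; exact iΩ l _ h.2⟩
  have rW' : RO W' W := RO.of_isOpen cq oΩ
  have rne : RO (W \ W₀) W := by
    have := RO.of_isOpen cq (isOpen_compl_singleton (x := E1 p))
    convert this using 1
    ext φ
    simp only [hW₀, mem_sdiff, mem_inter_iff, mem_preimage, mem_compl_iff]
    tauto
  have rWS : RO (W \ Sx) W := by
    have := h2.restrict rW.subset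
    convert this using 1
    ext φ
    exact ⟨fun h => ⟨⟨rW.subset h.1, h.2⟩, h.1⟩, fun h => ⟨h.2, h.1.2⟩⟩
  have ZW₀ : Zx ⊆ W₀ := fun φ h => ⟨sW (ZS h), (hq φ (ZS h)).2 h⟩
  have d0 : ∀ φ ∈ W₀, φ ∉ Zx ↔ φ ∉ Sx := fun φ h =>
    ⟨fun h3 h4 => h3 ((hq φ h4).1 h.2), fun h3 h4 => h3 (ZS h4)⟩
  have ZW' : Zx ⊆ W' := fun φ h =>
    ⟨sW (ZS h), by rw [mem_preimage, (hq φ (ZS h)).2 h]; exact hE1.1⟩
  have rR : RO W' (Rc s t c) := (rW'.trans rW).trans h0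
  have rO2 : RO (O2 s t w c p) (Rc s t c) := ro_O2
  refine ⟨W' ∩ O2 s t w c p, iW'.inter (ivt_O2 hp), rR.restrict rO2.subset,
    fun φ h => ⟨ZW' h, h.1⟩, ?_⟩
  have a1 := (q_exc_prod iE hU iW iS rW h2 fun φ h => sW h.2).sh
  have a2 := q_ind hLK (iW.prod iE) (iW₀.prod iEL) ((iW.diff iS).prod iE)
    (prod_mono inter_subset_left subset_rfl) (prod_mono sdiff_subset subset_rfl)
    (by
      convert rne.prod (RO.refl (Ec c)) using 1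
      ext x
      simp only [mem_sdiff, mem_prod]
      tauto)
    (by
      rintro ⟨φ, f⟩ ⟨h3, h4⟩
      obtain ⟨k, hk⟩ := mq h3
      refine ⟨k⁻¹, ⟨iW _ _ h3, ?_⟩, iE _ _ h4⟩
      change q (k⁻¹ • φ) = E1 p
      rw [eq _ _ h3, ← hk, inv_smul_smul])
    (by
      rintro k ⟨φ, f⟩ ⟨h3, -⟩ ⟨h5, -⟩
      have h6 : q (k • φ) = E1 p := h5.2
      rw [eq _ _ h3.1, show q φ = E1 p from h3.2] at h6
      exact ⟨⟨k.1, mem_Kc_cp.2 ⟨k.2, smul_E1.1 h6⟩⟩, rfl⟩)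
  have e2 : (W₀ ×ˢ Ec c) ∩ ((W \ Sx) ×ˢ Ec c) = (W₀ \ Zx) ×ˢ Ec c := by
    ext x
    simp only [mem_inter_iff, mem_prod, mem_sdiff]
    exact ⟨fun h => ⟨⟨h.1.1, (d0 _ h.1.1).2 h.2.1.2⟩, h.1.2⟩,
      fun h => ⟨⟨h.1.1, h.2⟩, ⟨h.1.1.1, (d0 _ h.1.1).1 h.1.2⟩, h.2⟩⟩
  rw [e2] at a2
  have a3 := thom_R21 (id : κ → κ) id iW₀ (iW₀.diff iZ) (by
    convert rWS.restrict (inter_subset_left : W₀ ⊆ W) using 1
    ext φ
    exact ⟨fun h => ⟨⟨h.1.1, (d0 _ h.1).1 h.2⟩, h.1⟩, fun h => ⟨h.2, (d0 _ h.2).2 h.1.2⟩⟩)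
  have qj : ∀ φ ∈ W₀, ∀ a, q (kk a • φ) = kk a • E1 p := fun φ h a => by
    rw [eq _ _ h.1, show q φ = E1 p from h.2]
  have gq : ∀ ψ ∈ W', q ψ ∈ Gr c p ∩ Ω := fun ψ h => ⟨mq h.1, h.2⟩
  have caq : ContinuousOn (fun x : Cj Ar ι × Mt ι => aa (q x.1)) (W' ×ˢ Ec c) :=
    ca.comp ((cq.mono inter_subset_left).comp continuous_fst.continuousOn fun x h => h.1)
      fun x h => gq _ h.1
  have a4 := (q_eqv (Γ := Kc (cp c p)) (Λ := Kc (cp c p))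
    (S := (W₀ ×ˢ Ec c) ×ˢ (R21 id id c p : Set (Cj κ ι)))
    (T := {x | x ∈ (W₀ ×ˢ Ec c) ×ˢ (R21 id id c p : Set (Cj κ ι)) ∧ (x.1.1 ∈ W₀ \ Zx ∨ x.2 ≠ 0)})
    (S' := W' ×ˢ Ec c) (T' := (W' \ Zx) ×ˢ Ec c) ((iW₀.prod iEL).prod iR) (iW'.prod iEL)
    (fun x h => h.1) (prod_mono sdiff_subset subset_rfl)
    (j := fun x => (kk x.2 • x.1.1, x.1.2))
    (i := fun x => (((kk (aa (q x.1)))⁻¹ • x.1, x.2), aa (q x.1)))
    (((ck.comp continuous_snd.continuousOn fun x h => h.2).smul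
      (continuous_fst.comp continuous_fst).continuousOn).prodMk
      (continuous_snd.comp continuous_fst).continuousOn)
    ((((ck.comp caq fun x h => ma (gq _ h.1)).inv.smul continuous_fst.continuousOn).prodMk
      continuous_snd.continuousOn).prodMk caq)
    (fun x h => ⟨⟨iW _ _ h.1.1.1, by rw [mem_preimage, qj _ h.1.1]; exact (hka _ h.2).1⟩, h.1.2⟩)
    (by
      rintro ⟨⟨φ, f⟩, a⟩ ⟨⟨⟨h3, h4⟩, h5⟩, h6⟩
      refine ⟨⟨⟨iW _ _ h3.1, by rw [mem_preimage, qj _ h3]; exact (hka _ h5).1⟩, fun h7 => ?_⟩, h4⟩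
      have h8 : q (kk a • φ) = E1 p := (ZW₀ h7).2
      have h9 : a = 0 := by rw [← (hka a h5).2, ← qj _ h3, h8, hE1.2]
      subst h9
      simp only [k0, one_smul] at h7
      exact (h6.resolve_right (by simp)).2 h7)
    (fun x h => ⟨⟨⟨iW _ _ h.1.1, by
      rw [mem_preimage, eq _ _ h.1.1, mem_singleton_iff, inv_smul_eq_iff, hak _ (gq _ h.1)]⟩, h.2⟩,
      ma (gq _ h.1)⟩)
    (by
      rintro ⟨ψ, f⟩ ⟨⟨h3, h4⟩, h5⟩
      have h6 : (kk (aa (q ψ)))⁻¹ • ψ ∈ W₀ := ⟨iW _ _ h3.1, by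
        rw [mem_preimage, eq _ _ h3.1, mem_singleton_iff, inv_smul_eq_iff, hak _ (gq _ h3)]⟩
      refine ⟨⟨⟨h6, h5⟩, ma (gq _ h3)⟩, ?_⟩
      by_cases h7 : aa (q ψ) = 0
      · refine Or.inl ⟨h6, ?_⟩
        simp only [h7, k0, inv_one, one_smul]
        exact h4
      · exact Or.inr h7)
    (by
      rintro l ⟨⟨φ, f⟩, a⟩ ⟨-, h5⟩
      refine ⟨l, Prod.ext ?_ rfl⟩
      change l.1 • (kk a).1 • φ = (kk (l.1 • a)).1 • l.1 • φ
      rw [ek l.1 l.2 a h5, mul_smul, mul_smul, inv_smul_smul])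
    (by
      rintro l ⟨ψ, f⟩ ⟨h3, -⟩
      have h4 : aa (q (l • ψ)) = l • aa (q ψ) := by rw [eqL l ψ h3.1, eaa l _ (gq _ h3)]
      refine ⟨l, Prod.ext (Prod.ext ?_ rfl) h4.symm⟩
      change l.1 • ((kk (aa (q ψ))).1)⁻¹ • ψ = ((kk (aa (q (l • ψ)))).1)⁻¹ • l.1 • ψ
      rw [h4]
      change _ = ((kk (l.1 • aa (q ψ))).1)⁻¹ • l.1 • ψ
      rw [ek l.1 l.2 _ (ma (gq _ h3))]
      simp [mul_smul])
    (by
      rintro ⟨⟨φ, f⟩, a⟩ ⟨⟨h3, -⟩, h5⟩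
      refine ⟨1, ?_⟩
      simp only [one_smul, qj _ h3, (hka a h5).2, inv_smul_smul])
    (by
      rintro ⟨ψ, f⟩ -
      exact ⟨1, by simp⟩)).2.2
  have a5 := (q_exc_prod iEL iW' (iW'.inter (ivt_O2 (s := s) (t := t) (w := w) hp)) iZ
    (by rw [inter_comm]; exact rO2.restrict rR.subset)
    (by
      convert (rWS.union rne).restrict (inter_subset_left : W' ⊆ W) using 1
      ext φ
      simp only [mem_sdiff, mem_inter_iff, mem_union]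
      refine ⟨fun h => ⟨?_, h.1⟩, fun h => ⟨h.2, fun h3 => h.1.elim (fun h4 => h4.2 (ZS h3))
        fun h4 => h4.2 (ZW₀ h3)⟩⟩
      by_cases h3 : φ ∈ W₀
      · exact Or.inl ⟨h3.1, (d0 _ h3).1 h.2⟩
      · exact Or.inr ⟨h.1.1, h3⟩)
    fun φ h => ⟨h.1, h.2.1⟩).sh
  simpa only [zero_add, add_zero, Bo] using (((a1.trans a2.2).trans a3).trans a4.1).trans a5

end Pool.Agent.Bet
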