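import Pool.Agent.P.MP_d34769_ag.BS1
import Pool.Agent.P.MP_d34769_ag.BB7

/-! TASK BS3: the normal bundle of the slice. -/

set_option linter.unusedSectionVars false

open Set Matrix

namespace Pool.Agent.Bet

variable {ι : Type} [Fintype ι] [DecidableEq ι] {κ : Type} {Ar : Type} [Fintype κ] [Fintype Ar]
  {s t : Ar → κ} {w : κ → ℝ} {c : ι → Option κ} {p : ι → Bool}

omit [Fintype κ] [Fintype Ar] in
lemma rc_entry_BS3 {φ : Cj Ar ι} (h : φ ∈ Rc s t c) {a : Ar} {i j : ι} (h0 : φ a i j ≠ 0) :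
    c i = some (t a) ∧ c j = some (s a) := by
  rw [← h a, dg, dg, mul_dp_apply, dp_mul_apply] at h0
  by_contra h1
  rw [not_and_or] at h1
  rcases h1 with h1 | h1 <;> simp [h1] at h0

omit [Fintype Ar] in
lemma blk_add_BS3 (x y : Matrix ι ι ℂ) (φ ψ : Cj Ar ι) :
    blk x y (φ + ψ) = blk x y φ + blk x y ψ :=
  funext fun a => by simp only [blk, Cj.add_apply, mul_add, add_mul]

omit [Fintype Ar] in
lemma blk_sub_BS3 (x y : Matrix ι ι ℂ) (φ ψ : Cj Ar ι) :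
    blk x y (φ - ψ) = blk x y φ - blk x y ψ :=
  funext fun a => by simp only [blk, Cj.sub_apply, mul_sub, sub_mul]

omit [Fintype Ar] in
lemma blk_csmul_BS3 (x y : Matrix ι ι ℂ) (z : ℂ) (φ : Cj Ar ι) :
    blk x y (z • φ) = z • blk x y φ :=
  funext fun a => by simp only [blk, Cj.csmul_apply, Matrix.mul_smul, Matrix.smul_mul]

omit [Fintype Ar] in
lemma blk_blk_BS3 (x y x' y' : Matrix ι ι ℂ) (φ : Cj Ar ι) :
    blk x y (blk x' y' φ) = blk (x * x') (y' * y) φ :=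
  funext fun a => by simp only [blk, mul_assoc]

omit [Fintype Ar] in
lemma blk_zl_BS3 (y : Matrix ι ι ℂ) (φ : Cj Ar ι) : blk 0 y φ = 0 :=
  funext fun a => by simp [blk, Cj.zero_apply]

omit [Fintype Ar] in
lemma blk_zr_BS3 (y : Matrix ι ι ℂ) (φ : Cj Ar ι) : blk y 0 φ = 0 :=
  funext fun a => by simp [blk, Cj.zero_apply]

omit [Fintype κ] in
lemma comm_BS3 (l : Kc (cp c p)) : e1 p * l.1.1 = l.1.1 * e1 p ∧ e2 p * l.1.1 = l.1.1 * e2 p := by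
  have h := (mem_Kc_cp.1 l.2).2
  refine ⟨h, ?_⟩
  rw [← sub_eq_iff_eq_add'.2 (e1_add_e2 p).symm, sub_mul, mul_sub, h, one_mul, mul_one]

theorem so_R21 (hp : Adm c p) :
    SO (qs (Kc (cp c p)) ((Z0 s t w c p ×ˢ Ec c) ×ˢ (R21 s t c p : Set (Cj Ar ι))))
      (qs (Kc (cp c p)) ((Z0 s t w c p ×ˢ Ec c) ×ˢ (R21 s t c p : Set (Cj Ar ι))))
      (qs (Kc (cp c p)) ((Z0 s t w c p ×ˢ Ec c) ×ˢ ((R21 s t c p : Set (Cj Ar ι)) \ {0}))) := by
  obtain ⟨J, cJ, iJ, nJ⟩ := exists_J (ι := ι) (Ar := Ar)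
  obtain ⟨N, cN, pN, hN, iN⟩ := exists_N (ι := ι) (Ar := Ar)
  obtain ⟨β, cβ, mβ, eβ, hβ⟩ := exists_abs fun i => c i ≠ none ∧ p i = false
  have := contractible_Ec c
  refine Wt.so (N := N) (α := fun x => β (x.1, J x.1 x.2)) (J := fun x => J x.2)
    ⟨cN.continuousOn, fun v _ => pN v, fun a v _ => hN a v, fun γ v _ => iN γ.1 γ.2.2 v,
      (cβ.comp (continuous_fst.prodMk cJ)).continuousOn,
      fun x h => mβ κ c _ h.1 _ fun h0 => h.2.2 (nJ κ s t c _ h.1 _ h.2.1.1 h0), ?_, ?_⟩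
    (ivt_Z0 hp) (ivt_Ec_cp c p) (prin_cp c p)
    ⟨ivt_R21 s t c p, (cJ.comp ((continuous_snd.comp continuous_fst).prodMk
      continuous_snd)).continuousOn, fun γ x _ v _ => iJ γ.1 γ.2.2 _ _,
      fun x h v hv => nJ κ s t c _ h.2 _ hv.1⟩
  · intro γ x _
    change β (γ.1 • x.1, J (γ.1 • x.1) (γ.1 • x.2)) = γ.1 • β (x.1, J x.1 x.2)
    rw [iJ γ.1 γ.2.2, eβ]
    refine (dp_comm_iff _ _).2 fun i j hij => ?_
    have hne : cp c p i ≠ cp c p j ∨ cp c p i = none := by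
      by_contra h
      push Not at h
      refine hij ?_
      have h3 := h.1
      have h4 := h.2
      simp only [cp] at h3 h4
      cases hi : c i <;> cases hj : c j <;> simp_all
    rw [mem_Gc_iff.1 γ.2.1 i j hne, if_neg fun e => hij (by rw [e])]
  · intro a ha
    have ha0 : a ≠ 0 := fun h => by simp [h] at ha
    obtain ⟨g, hg, e, e'⟩ := exists_circ (cp c p) (fun i => c i ≠ none ∧ p i = false)
      (fun i hi h => h.1 (by simpa [cp] using hi)) ha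
    have key : ∀ (φ : Cj Ar ι) (b : Ar) (i j : ι), (g • φ) b i j =
        (if c i ≠ none ∧ p i = false then a else 1) * φ b i j *
          (if c j ≠ none ∧ p j = false then a⁻¹ else 1) := by
      intro φ b i j
      rw [Cj.smul_apply, e, e']
      simp only [add_mul, mul_add, Matrix.smul_mul, Matrix.mul_smul, Matrix.add_apply,
        Matrix.smul_apply, mul_dp_apply, dp_mul_apply, smul_eq_mul]
      split_ifs <;> ring
    refine ⟨⟨g, hg⟩, fun φ hφ => ?_, fun φ hφ => ?_, fun y _ v _ _ => ?_⟩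
    · funext b
      ext i j
      change (g • φ) b i j = _
      rw [key]
      by_cases h0 : φ b i j = 0
      · simp [h0]
      obtain ⟨h3, h4⟩ := rc_entry_BS3 hφ.1.1.1 h0
      have h5 := congrFun (congrFun (congrFun hφ.1.2 b) i) j
      have h6 := congrFun (congrFun (congrFun hφ.2 b) i) j
      simp only [blk, e1, e2, mul_dp_apply, dp_mul_apply, Cj.zero_apply, Matrix.zero_apply] at h5 h6
      cases hi : p i <;> cases hj : p j <;> simp_all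
      field_simp
    · funext b
      ext i j
      change (g • φ) b i j = a * φ b i j
      rw [key]
      by_cases h0 : φ b i j = 0
      · simp [h0]
      obtain ⟨h3, h4⟩ := rc_entry_BS3 hφ.1 h0
      have h5 := congrFun (congrFun (congrFun hφ.2 b) i) j
      simp only [blk, e1, e2, mul_dp_apply, dp_mul_apply] at h5
      cases hi : p i <;> cases hj : p j <;> simp_all
    · change β (y, J y (a • v)) = g • β (y, J y v)
      rw [map_smul]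
      exact (hβ a y _).trans (by rw [← e]; rfl)

omit [Fintype Ar] in
lemma o12_BS3 (z : ℂ) (φ : Cj Ar ι) (h : φ ∈ O2 s t w c p) :
    φ - z • blk (e1 p) (e2 p) φ ∈ O2 s t w c p :=
  ⟨Submodule.sub_mem _ h.1 (Submodule.smul_mem _ _ (blk_mem_Rc h.1 _ _)),
    by simpa [blk_sub_BS3, blk_csmul_BS3, blk_blk_BS3, blk_zr_BS3] using h.2.1,
    by simpa [blk_sub_BS3, blk_csmul_BS3, blk_blk_BS3, blk_zl_BS3] using h.2.2⟩

omit [Fintype Ar] in
lemma o21_BS3 (z : ℂ) (φ : Cj Ar ι) (h : φ ∈ O2 s t w c p) :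
    φ - z • blk (e2 p) (e1 p) φ ∈ O2 s t w c p :=
  ⟨Submodule.sub_mem _ h.1 (Submodule.smul_mem _ _ (blk_mem_Rc h.1 _ _)),
    by simpa [blk_sub_BS3, blk_csmul_BS3, blk_blk_BS3, blk_zl_BS3] using h.2.1,
    by simpa [blk_sub_BS3, blk_csmul_BS3, blk_blk_BS3, blk_zr_BS3] using h.2.2⟩

theorem eqv_O2 (hp : Adm c p) :
    Eqv (qs (Kc (cp c p)) ((Z0 s t w c p ×ˢ Ec c) ×ˢ (R21 s t c p : Set (Cj Ar ι))))
      (qs (Kc (cp c p)) ((Z0 s t w c p ×ˢ Ec c) ×ˢ ((R21 s t c p : Set (Cj Ar ι)) \ {0})))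
      (Bo (Kc (cp c p)) (O2 s t w c p) (Ec c))
      (Bo (Kc (cp c p)) (O2 s t w c p \ Zs s t w c p) (Ec c)) := by
  have o12 := o12_BS3 (s := s) (t := t) (w := w) (c := c) (p := p)
  have m1 : MapsTo (fun x : (Cj Ar ι × Mt ι) × Cj Ar ι => (x.1.1 + x.2, x.1.2))
      ((Z0 s t w c p ×ˢ Ec c) ×ˢ (R21 s t c p : Set (Cj Ar ι)))
      ({φ | φ ∈ O2 s t w c p ∧ blk (e1 p) (e2 p) φ = 0} ×ˢ Ec c) := by
    rintro ⟨⟨φ, f⟩, ψ⟩ ⟨⟨h1, h2⟩, h3, h4⟩
    simp only at h1 h2 h3 h4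
    refine ⟨⟨⟨Submodule.add_mem _ h1.1.1.1 h3, ?_, ?_⟩, ?_⟩, h2⟩
    · rw [blk_add_BS3, ← h4, blk_blk_BS3, e1_e2, blk_zl_BS3, add_zero]; exact h1.1.1.2.1
    · rw [blk_add_BS3, ← h4, blk_blk_BS3, e1_e2, blk_zr_BS3, add_zero]; exact h1.1.1.2.2
    · rw [blk_add_BS3, ← h4, blk_blk_BS3, e1_e2, blk_zl_BS3, add_zero]; exact h1.2
  have m3 : MapsTo (fun x : Cj Ar ι × Mt ι =>
      ((x.1 - blk (e2 p) (e1 p) x.1, x.2), blk (e2 p) (e1 p) x.1))
      ({φ | φ ∈ O2 s t w c p ∧ blk (e1 p) (e2 p) φ = 0} ×ˢ Ec c)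
      ((Z0 s t w c p ×ˢ Ec c) ×ˢ (R21 s t c p : Set (Cj Ar ι))) := by
    rintro ⟨φ, f⟩ ⟨⟨h1, h2⟩, h3⟩
    refine ⟨⟨⟨⟨by simpa using o21_BS3 1 φ h1, ?_⟩, ?_⟩, h3⟩, blk_mem_Rc h1.1 _ _, ?_⟩
    · simp [blk_sub_BS3, blk_blk_BS3]
    · simpa [blk_sub_BS3, blk_blk_BS3, blk_zl_BS3] using h2
    · simp [blk_blk_BS3]
  have iE := ivt_Ec_cp c p
  have iO : Ivt (Kc (cp c p)) (O2 s t w c p) := ivt_O2 hp
  set O0 : Set (Cj Ar ι) := {φ | φ ∈ O2 s t w c p ∧ blk (e1 p) (e2 p) φ = 0} with hO0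
  have iO0 : Ivt (Kc (cp c p)) O0 := fun l φ h => ⟨iO l φ h.1, by
    change blk _ _ (l.1 • φ) = 0
    rw [blk_smul (comm_BS3 l).1 (comm_BS3 l).2, h.2, smul_zero]⟩
  have a1 := (q_eqv (Γ := Kc (cp c p)) (Λ := Kc (cp c p))
    (S := (Z0 s t w c p ×ˢ Ec c) ×ˢ (R21 s t c p : Set (Cj Ar ι)))
    (T := (Z0 s t w c p ×ˢ Ec c) ×ˢ ((R21 s t c p : Set (Cj Ar ι)) \ {0}))
    (S' := O0 ×ˢ Ec c) (T' := (O0 \ Zs s t w c p) ×ˢ Ec c)
    (((ivt_Z0 hp).prod iE).prod (ivt_R21 s t c p)) (iO0.prod iE)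
    (prod_mono subset_rfl sdiff_subset) (prod_mono sdiff_subset subset_rfl)
    (j := fun x => (x.1.1 + x.2, x.1.2))
    (i := fun x => ((x.1 - blk (e2 p) (e1 p) x.1, x.2), blk (e2 p) (e1 p) x.1))
    (by fun_prop)
    ((((continuous_fst.sub ((continuous_blk _ _).comp continuous_fst)).prodMk continuous_snd).prodMk
      ((continuous_blk _ _).comp continuous_fst)).continuousOn)
    m1 (fun x h => ⟨⟨(m1 ⟨h.1, h.2.1⟩).1, fun h3 => h.2.2 (by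
      have h4 := h3.2
      rwa [blk_add_BS3, h.1.1.1.2, zero_add, h.2.1.2] at h4)⟩, h.1.2⟩)
    m3 (fun x h => ⟨(m3 ⟨h.1.1, h.2⟩).1, (m3 ⟨h.1.1, h.2⟩).2, fun h3 => h.1.2 ⟨h.1.1.1, h3⟩⟩)
    (fun l x _ => ⟨l, Prod.ext (smul_add l _ _) rfl⟩)
    (fun l x _ => by
      have h4 : blk (e2 p) (e1 p) (l • x.1) = l • blk (e2 p) (e1 p) x.1 :=
        blk_smul (comm_BS3 l).2 (comm_BS3 l).1 _
      exact ⟨l, Prod.ext (Prod.ext ((smul_sub l _ _).trans (by rw [← h4]; rfl)) rfl) h4.symm⟩)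
    (fun x h => ⟨1, by
      simp only [one_smul, blk_add_BS3, h.1.1.1.2, zero_add, h.2.2, add_sub_cancel_right]⟩)
    (fun x _ => ⟨1, by simp⟩)).2.2
  have hd : ∀ T : Set (Cj Ar ι), (∀ z : ℂ, ∀ φ ∈ T, φ - z • blk (e1 p) (e2 p) φ ∈ T) →
      T ⊆ O2 s t w c p → SIso id (qs (Kc (cp c p)) (O0 ×ˢ Ec c))
        (qs (Kc (cp c p)) ((O0 ∩ T) ×ˢ Ec c)) (qs (Kc (cp c p)) (O2 s t w c p ×ˢ Ec c))
        (qs (Kc (cp c p)) (T ×ˢ Ec c)) := fun T h1 h2 =>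
    q_def (H := fun r x => (x.1 - (r : ℂ) • blk (e1 p) (e2 p) x.1, x.2)) (iO.prod iE)
      (prod_mono (fun _ h => h.1) subset_rfl) (prod_mono inter_subset_right subset_rfl)
      (prod_mono h2 subset_rfl) (prod_mono inter_subset_left subset_rfl)
      ⟨(((continuous_fst.comp continuous_snd).sub ((Complex.continuous_ofReal.comp
        continuous_fst).smul ((continuous_blk _ _).comp (continuous_fst.comp
          continuous_snd)))).prodMk (continuous_snd.comp continuous_snd)).continuousOn,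
        fun r _ x h => ⟨o12 _ _ h.1, h.2⟩⟩
      (fun r _ l x _ => Prod.ext (by
        change l.1 • x.1 - (r : ℂ) • blk _ _ (l.1 • x.1) = l.1 • (x.1 - (r : ℂ) • blk _ _ x.1)
        rw [blk_smul (comm_BS3 l).1 (comm_BS3 l).2, smul_sub, smul_comm l.1]) rfl)
      (fun r _ x h => ⟨h1 _ _ h.1, h.2⟩)
      (fun r _ x h => ⟨by simpa only [h.1.2, smul_zero, sub_zero] using h.1, h.2⟩)
      (fun r _ x h => ⟨by simpa only [h.1.1.2, smul_zero, sub_zero] using h.1, h.2⟩)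
      (fun x _ => by simp)
      (fun x h => ⟨⟨o12 _ _ h.1, by simp [blk_sub_BS3, blk_blk_BS3]⟩, h.2⟩)
      (fun x h => ⟨⟨⟨o12 _ _ (h2 h.1), by simp [blk_sub_BS3, blk_blk_BS3]⟩, h1 _ _ h.1⟩, h.2⟩)
  have a2 := hd (O2 s t w c p \ Zs s t w c p) (fun z φ h => ⟨o12 _ _ h.1, fun h3 => h.2 ⟨h.1, by
    simpa [blk_sub_BS3, blk_csmul_BS3, blk_blk_BS3, blk_zl_BS3] using h3.2⟩⟩) sdiff_subset
  have a3 := hd ∅ (fun _ _ h => h) (empty_subset _)
  simp only [inter_empty, empty_prod, qs_empty] at a3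
  have e : O0 ∩ (O2 s t w c p \ Zs s t w c p) = O0 \ Zs s t w c p :=
    Set.ext fun φ => ⟨fun h => ⟨h.1, h.2.2⟩, fun h => ⟨h.1, h.1.1, h.2⟩⟩
  rw [e] at a2
  exact a1.trans (a2.eqv a3)

theorem step_B (hp : Adm c p) {O : Set (Cj Ar ι)} (h1 : Ivt (Kc (cp c p)) O)
    (h2 : RO O (O2 s t w c p)) (h3 : Zs s t w c p ⊆ O) :
    Sh (2 * bb s t (dv (c1 c p)) (dv (c2 c p))) (Bo (Kc (cp c p)) (Z0 s t w c p) (Ec c)) ∅
        (Bo (Kc (cp c p)) O (Ec c)) (Bo (Kc (cp c p)) (O \ Zs s t w c p) (Ec c)) ∧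
      SO (Bo (Kc (cp c p)) O (Ec c)) (Bo (Kc (cp c p)) O (Ec c))
        (Bo (Kc (cp c p)) (O \ Zs s t w c p) (Ec c)) := by
  have iE := ivt_Ec_cp c p
  have iO : Ivt (Kc (cp c p)) (O2 s t w c p) := ivt_O2 hp
  have iZ : Ivt (Kc (cp c p)) (Zs s t w c p) := ivt_Zs hp
  have a1 := thom_R21 s t (T := ∅) (ivt_Z0 (s := s) (t := t) (w := w) hp) (fun _ _ h => h)
    ⟨∅, isOpen_empty, (inter_empty _).symm⟩
  have e : {x : (Cj Ar ι × Mt ι) × Cj Ar ι |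
      x ∈ (Z0 s t w c p ×ˢ Ec c) ×ˢ (R21 s t c p : Set (Cj Ar ι)) ∧
        (x.1.1 ∈ (∅ : Set (Cj Ar ι)) ∨ x.2 ≠ 0)} =
      (Z0 s t w c p ×ˢ Ec c) ×ˢ ((R21 s t c p : Set (Cj Ar ι)) \ {0}) :=
    Set.ext fun x => ⟨fun h => ⟨h.1.1, h.1.2, h.2.resolve_left id⟩,
      fun h => ⟨⟨h.1, h.2.1⟩, Or.inr h.2.2⟩⟩
  rw [e] at a1
  simp only [Bo, empty_prod, qs_empty] at a1
  have a2 := eqv_O2 (s := s) (t := t) (w := w) hp
  have a3 := q_exc_prod iE iO h1 iZ h2 (by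
    convert RO.of_isOpen (S := O2 s t w c p) (continuous_blk (e2 p) (e1 p)).continuousOn
      (isOpen_compl_singleton (x := 0)) using 1
    exact Set.ext fun φ => ⟨fun h => ⟨h.1, fun h4 => h.2 ⟨h.1, h4⟩⟩,
      fun h => ⟨h.1, fun h4 => h.2 h4.2⟩⟩) fun φ h => h3 h.2
  refine ⟨by simpa only [add_zero, Bo] using (a1.trans a2.1).trans a3.sh, ?_⟩
  have a4 : SIso id (qs (Kc (cp c p)) (Zs s t w c p ×ˢ Ec c)) (qs (Kc (cp c p)) ∅)
      (qs (Kc (cp c p)) (O2 s t w c p ×ˢ Ec c)) (qs (Kc (cp c p)) ∅) :=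
    q_def (H := fun r x => (x.1 - (r : ℂ) • blk (e2 p) (e1 p) x.1, x.2)) (iO.prod iE)
      (prod_mono (fun _ h => h.1) subset_rfl) subset_rfl (empty_subset _) (empty_subset _)
      ⟨(((continuous_fst.comp continuous_snd).sub ((Complex.continuous_ofReal.comp
        continuous_fst).smul ((continuous_blk _ _).comp (continuous_fst.comp
          continuous_snd)))).prodMk (continuous_snd.comp continuous_snd)).continuousOn,
        fun r _ x h => ⟨o21_BS3 _ _ h.1, h.2⟩⟩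
      (fun r _ l x _ => Prod.ext (by
        change l.1 • x.1 - (r : ℂ) • blk _ _ (l.1 • x.1) = l.1 • (x.1 - (r : ℂ) • blk _ _ x.1)
        rw [blk_smul (comm_BS3 l).2 (comm_BS3 l).1, smul_sub, smul_comm l.1]) rfl)
      (fun _ _ _ h => h.elim)
      (fun r _ x h => ⟨by simpa only [h.1.2, smul_zero, sub_zero] using h.1, h.2⟩)
      (fun _ _ _ h => h.elim) (fun x _ => by simp)
      (fun x h => ⟨⟨o21_BS3 _ _ h.1, by simp [blk_sub_BS3, blk_blk_BS3]⟩, h.2⟩)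
      (fun _ h => h.elim)
  rw [qs_empty] at a4
  have a5 := (SIso.refl a3.le').so_back a4 a4.mS subset_rfl (a2.2.so (so_R21 hp))
  have a6 : qs (Kc (cp c p)) (Zs s t w c p ×ˢ Ec c) ⊆ qs (Kc (cp c p)) (O ×ˢ Ec c) :=
    qs_mono (prod_mono h3 subset_rfl)
  exact (a3.so_back (SIso.refl (empty_subset _)) a6 a4.mS a5).mono a6

end Pool.Agent.Bet
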