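import Pool.Agent.P.MP_d34769_ag.BS1
import Pool.Agent.P.MP_d34769_ag.BB3
import Pool.Agent.P.MP_d34769_ag.BH4

/-! TASK BS4: the product decomposition. -/

open Set Matrix

namespace Pool.Agent.Bet

section aux

variable {ι : Type} [Fintype ι] [DecidableEq ι] {κ κ' : Type} {Ar : Type}
  {s t : Ar → κ} {c c' : ι → Option κ} {p : ι → Bool} {P P' : ι → Prop}

lemma dp_le_BS4 (h : ∀ i, P' i → P i) : dp P * dp P' = dp P' ∧ dp P' * dp P = dp P' := by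
  rw [dp_comm P' P, and_self, dp_mul_dp]
  exact dp_congr fun i => ⟨fun hi => hi.2, fun hi => ⟨h i hi, hi⟩⟩

lemma rc_dp_BS4 {φ : Cj Ar ι} (hφ : φ ∈ Rc s t c) (h : ∀ i, c i ≠ none → P i) (a : Ar) :
    dp P * φ a = φ a ∧ φ a * dp P = φ a := by
  have e : ∀ v, dp P * dg c (some v) = dg c (some v) ∧ dg c (some v) * dp P = dg c (some v) :=
    fun v => dp_le_BS4 fun i hi => h i (by rw [hi]; exact Option.some_ne_none v)
  rw [← hφ a]
  exact ⟨by rw [← mul_assoc, ← mul_assoc, (e _).1], by rw [mul_assoc _ _ (dp P), (e _).2]⟩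

lemma rc_mono_BS4 {φ : Cj Ar ι} (hφ : φ ∈ Rc s t c') (h : ∀ i v, c' i = some v → c i = some v) :
    φ ∈ Rc s t c := fun a => by
  have e : ∀ v, dg c (some v) * dg c' (some v) = dg c' (some v) ∧
      dg c' (some v) * dg c (some v) = dg c' (some v) := fun v => dp_le_BS4 fun i => h i v
  rw [← hφ a, ← mul_assoc, ← mul_assoc, (e _).1, mul_assoc _ (dg c' _), (e _).2]

lemma row_zero_BS4 {f : Mt ι} : dg c none * f.m = 0 ↔ ∀ i, c i = none → ∀ j, f.m i j = 0 := by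
  simp only [← Matrix.ext_iff, dg, dp_mul_apply, Matrix.zero_apply, ite_eq_right_iff]
  exact forall_congr' fun i => forall_comm

lemma ec_dp_BS4 {f : Mt ι} (hf : f ∈ Ec c) (h : ∀ i, c i ≠ none → P i) : dp P * f.m = f.m := by
  ext i j
  rw [dp_mul_apply]
  split_ifs with hi
  · rfl
  · exact (row_zero_BS4.1 hf.1 i (by_contra fun e => hi (h i e)) j).symm

omit [DecidableEq ι] in
lemma vecMul_congr_BS4 {a : ι → ℂ} {M N : Matrix ι ℕ ℂ} (h : ∀ i, a i ≠ 0 → ∀ j, M i j = N i j) :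
    a ᵥ* M = a ᵥ* N := by
  funext j
  refine Finset.sum_congr rfl fun i _ => ?_
  by_cases hi : a i = 0
  · rw [hi, zero_mul, zero_mul]
  · exact congrArg (a i * ·) (h i hi j)

/-- groups of colourings with disjoint supports act trivially -/
lemma triv_BS4 (h : ∀ i, c' i ≠ none → c i = none) {g : GG ι} (hg : g ∈ Gc c)
    {x : Cj Ar ι × Mt ι} (h1 : x.1 ∈ Rc s t c') (h2 : x.2 ∈ Ec c') : g • x = x := by
  have e1 : g.1 * dg c none = dg c none := (hg.1 none).symm.trans hg.2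
  have e2 : dg c none * (g⁻¹).1 = dg c none := ((Gc c).inv_mem hg).2
  refine Prod.ext (funext fun a => ?_) ?_
  · obtain ⟨k1, k2⟩ := rc_dp_BS4 (P := fun i => c i = none) h1 h a
    change dg c none * _ = _ at k1
    change _ * dg c none = _ at k2
    show g.1 * x.1 a * (g⁻¹).1 = x.1 a
    rw [← k1, ← mul_assoc, e1, k1, ← k2, mul_assoc, e2]
  · have k : dg c none * x.2.m = x.2.m := ec_dp_BS4 (P := fun i => c i = none) h2 h
    show g.1 * x.2.m = x.2.m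
    rw [← k, ← Matrix.mul_assoc, e1]

/-- the diagonal block -/
def prj_BS4 (e : Matrix ι ι ℂ) (x : Cj Ar ι × Mt ι) : Cj Ar ι × Mt ι :=
  (blk e e x.1, (e * x.2.m : Matrix ι ℕ ℂ))

omit [DecidableEq ι] in
lemma prj_cont_BS4 (e : Matrix ι ι ℂ) : Continuous (prj_BS4 e : Cj Ar ι × Mt ι → _) :=
  ((continuous_blk e e).comp continuous_fst).prodMk
    (Continuous.matrix_mul continuous_const (continuous_snd (X := Cj Ar ι) (Y := Matrix ι ℕ ℂ)))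

lemma prj_smul_BS4 {e : Matrix ι ι ℂ} {g : GG ι} (h : e * g.1 = g.1 * e) (x : Cj Ar ι × Mt ι) :
    prj_BS4 e (g • x) = g • prj_BS4 e x := by
  refine Prod.ext (blk_smul h h _) ?_
  show e * (g.1 * x.2.m) = g.1 * (e * x.2.m)
  rw [← Matrix.mul_assoc, h, Matrix.mul_assoc]

lemma prj_ec_BS4 {d : ι → Option κ'} {f : Mt ι} (hf : f ∈ Ec d)
    (h0 : ∀ i, c i = none → P i → d i = none)
    (h1 : ∀ v, ∃ v', ∀ i, c i = some v → P i ∧ d i = some v') :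
    (dp P * f.m : Matrix ι ℕ ℂ) ∈ Ec c := by
  refine ⟨row_zero_BS4.2 fun i hi j => ?_, fun v a ha e => ?_⟩
  · show (dp P * f.m) i j = 0
    rw [dp_mul_apply]
    split_ifs with hP
    · exact row_zero_BS4.1 hf.1 i (h0 i hi hP) j
    · rfl
  · obtain ⟨v', hv⟩ := h1 v
    refine hf.2 v' a (fun i hi => ha i fun e => hi (hv i e).2) (Eq.trans ?_ e)
    refine vecMul_congr_BS4 fun i hi j => ?_
    show f.m i j = (dp P * f.m) i j
    rw [dp_mul_apply, if_pos (hv i (by_contra fun e => hi (ha i e))).1]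

lemma ec1_BS4 {f : Mt ι} (hf : f ∈ Ec (cp c p)) :
    (e1 p * f.m : Matrix ι ℕ ℂ) ∈ Ec (c1 c p) := by
  refine prj_ec_BS4 hf (fun i hi hP => ?_) fun v => ⟨(v, true), fun i hi => ?_⟩
  · simp only [c1, hP, if_true] at hi
    simp [cp, hi]
  · cases hP : p i
    · simp [c1, hP] at hi
    · simp only [c1, hP, if_true] at hi
      simp [cp, hi, hP]

lemma ec2_BS4 {f : Mt ι} (hf : f ∈ Ec (cp c p)) :
    (e2 p * f.m : Matrix ι ℕ ℂ) ∈ Ec (c2 c p) := by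
  refine prj_ec_BS4 hf (fun i hi hP => ?_) fun v => ⟨(v, false), fun i hi => ?_⟩
  · simp only [c2, hP, Bool.false_eq_true, if_false] at hi
    simp [cp, hi]
  · cases hP : p i
    · simp only [c2, hP, Bool.false_eq_true, if_false] at hi
      simp [cp, hi, hP]
    · simp [c2, hP] at hi

omit [Fintype ι] [DecidableEq ι] in
lemma c1_ne_BS4 (i : ι) (h : c1 c p i ≠ none) : p i = true := by
  cases hP : p i
  · simp [c1, hP] at h
  · rfl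

omit [Fintype ι] [DecidableEq ι] in
lemma c2_ne_BS4 (i : ι) (h : c2 c p i ≠ none) : p i = false := by
  cases hP : p i
  · rfl
  · simp [c2, hP] at h

lemma ec_add_BS4 {f g : Mt ι} (hf : f ∈ Ec (c1 c p)) (hg : g ∈ Ec (c2 c p)) :
    f + g ∈ Ec (cp c p) := by
  have z1 := row_zero_BS4.1 hf.1
  have z2 := row_zero_BS4.1 hg.1
  refine ⟨row_zero_BS4.2 fun i hi j => ?_, fun v a ha e => ?_⟩
  · have h : c i = none := by simpa [cp] using hi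
    show f.m i j + g.m i j = 0
    rw [z1 i (by simp [c1, h]), z2 i (by simp [c2, h]), add_zero]
  · obtain ⟨v, b⟩ := v
    have h : ∀ i, a i ≠ 0 → c i = some v ∧ p i = b := fun i hi => by
      have h := by_contra fun e => hi (ha i e)
      simpa [cp] using h
    cases b
    · refine hg.2 v a (fun i hi => by_contra fun e => hi (by simp [c2, h i e])) (Eq.trans ?_ e)
      refine vecMul_congr_BS4 fun i hi j => ?_
      show g.m i j = f.m i j + g.m i j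
      rw [z1 i (by simp [c1, h i hi]), zero_add]
    · refine hf.2 v a (fun i hi => by_contra fun e => hi (by simp [c1, h i e])) (Eq.trans ?_ e)
      refine vecMul_congr_BS4 fun i hi j => ?_
      show f.m i j = f.m i j + g.m i j
      rw [z2 i (by simp [c2, h i hi]), add_zero]

lemma blk_add_BS4 {φ ψ : Cj Ar ι} (hφ : φ ∈ Rc s t (c1 c p)) (hψ : ψ ∈ Rc s t (c2 c p)) :
    blk (e1 p) (e1 p) (φ + ψ) = φ ∧ blk (e2 p) (e2 p) (φ + ψ) = ψ ∧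
      blk (e2 p) (e1 p) (φ + ψ) = 0 ∧ blk (e1 p) (e2 p) (φ + ψ) = 0 := by
  have a1 : ∀ a, e1 p * φ a = φ a ∧ φ a * e1 p = φ a := rc_dp_BS4 hφ c1_ne_BS4
  have a2 : ∀ a, e2 p * ψ a = ψ a ∧ ψ a * e2 p = ψ a := rc_dp_BS4 hψ c2_ne_BS4
  have b1 : ∀ a, e1 p * (φ a + ψ a) = φ a := fun a => by
    rw [mul_add, (a1 a).1, ← (a2 a).1, ← mul_assoc, e1_e2, zero_mul, add_zero]
  have b2 : ∀ a, e2 p * (φ a + ψ a) = ψ a := fun a => by
    rw [mul_add, (a2 a).1, ← (a1 a).1, ← mul_assoc, e2_e1, zero_mul, zero_add]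
  refine ⟨funext fun a => ?_, funext fun a => ?_, funext fun a => ?_, funext fun a => ?_⟩ <;>
    rw [blk_apply, Cj.add_apply]
  · rw [b1, (a1 a).2]
  · rw [b2, (a2 a).2]
  · rw [b2, ← (a2 a).2, mul_assoc, e2_e1, mul_zero, Cj.zero_apply]
  · rw [b1, ← (a1 a).2, mul_assoc, e1_e2, mul_zero, Cj.zero_apply]

lemma row_add_BS4 {f g : Mt ι} (hf : f ∈ Ec (c1 c p)) (hg : g ∈ Ec (c2 c p)) :
    e1 p * (f.m + g.m) = f.m ∧ e2 p * (f.m + g.m) = g.m := by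
  have a1 : e1 p * f.m = f.m := ec_dp_BS4 hf c1_ne_BS4
  have a2 : e2 p * g.m = g.m := ec_dp_BS4 hg c2_ne_BS4
  constructor
  · rw [Matrix.mul_add, a1, ← a2, ← Matrix.mul_assoc, e1_e2, Matrix.zero_mul, add_zero]
  · rw [Matrix.mul_add, a2, ← a1, ← Matrix.mul_assoc, e2_e1, Matrix.zero_mul, zero_add]

lemma prj_sum_BS4 {x : Cj Ar ι × Mt ι} (h1 : blk (e2 p) (e1 p) x.1 = 0)
    (h2 : blk (e1 p) (e2 p) x.1 = 0) : prj_BS4 (e1 p) x + prj_BS4 (e2 p) x = x := by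
  refine Prod.ext (funext fun a => ?_) ?_
  · have k1 : e2 p * x.1 a * e1 p = 0 := congrFun h1 a
    have k2 : e1 p * x.1 a * e2 p = 0 := congrFun h2 a
    show e1 p * x.1 a * e1 p + e2 p * x.1 a * e2 p = x.1 a
    conv_rhs => rw [← one_mul (x.1 a), ← mul_one (1 * x.1 a), ← e1_add_e2 p]
    rw [add_mul, mul_add, add_mul, add_mul, k1, k2, add_zero, zero_add]
  · show e1 p * x.2.m + e2 p * x.2.m = x.2.m
    rw [← Matrix.add_mul, e1_add_e2, Matrix.one_mul]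

end aux

variable {ι : Type} [Fintype ι] [DecidableEq ι] {κ : Type} {Ar : Type} [Fintype κ] [Fintype Ar]
  {s t : Ar → κ} {w : κ → ℝ} {c : ι → Option κ} {p : ι → Bool}

omit [Fintype Ar] in
lemma z0_add_BS4 {φ ψ : Cj Ar ι} (hφ : φ ∈ Ge s t w (c1 c p)) (hψ : ψ ∈ Lt s t w (c2 c p)) :
    φ + ψ ∈ Z0 s t w c p := by
  obtain ⟨b1, b2, b3, b4⟩ := blk_add_BS4 hφ.1 hψ.1
  refine ⟨⟨⟨(Rc s t c).add_mem (rc_mono_BS4 hφ.1 fun i v hi => ?_)
    (rc_mono_BS4 hψ.1 fun i v hi => ?_), ?_, ?_⟩, b3⟩, b4⟩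
  · simpa [c1, c1_ne_BS4 i (by rw [hi]; exact Option.some_ne_none v)] using hi
  · simpa [c2, c2_ne_BS4 i (by rw [hi]; exact Option.some_ne_none v)] using hi
  · rwa [b1]
  · rwa [b2]

theorem eqv_prod (hp : Adm c p) :
    Eqv (Bo (Kc (cp c p)) (Z0 s t w c p) (Ec (cp c p))) ∅
      (Bo (Kc (c1 c p)) (Ge s t w (c1 c p)) (Ec (c1 c p)) ×ˢ
        Bo (Kc (c2 c p)) (Lt s t w (c2 c p)) (Ec (c2 c p))) ∅ := by
  have i0 : Ivt (Kc (cp c p)) (Z0 s t w c p ×ˢ Ec (cp c p)) :=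
    (ivt_Z0 hp).prod (Ivt.mono (Kc_le _) (ivt_Ec _))
  have i1 : Ivt (Kc (c1 c p)) (Ge s t w (c1 c p) ×ˢ Ec (c1 c p)) :=
    Ivt.prod (Ivt.mono (Kc_le _) ivt_Ge) (Ivt.mono (Kc_le _) (ivt_Ec _))
  have i2 : Ivt (Kc (c2 c p)) (Lt s t w (c2 c p) ×ˢ Ec (c2 c p)) :=
    Ivt.prod (Ivt.mono (Kc_le _) ivt_Lt) (Ivt.mono (Kc_le _) (ivt_Ec _))
  have d1 : ∀ i, c2 c p i ≠ none → c1 c p i = none := fun i hi => by simp [c1, c2_ne_BS4 i hi]
  have d2 : ∀ i, c1 c p i ≠ none → c2 c p i = none := fun i hi => by simp [c2, c1_ne_BS4 i hi]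
  have m1 : MapsTo (fun x : Cj Ar ι × Mt ι => (prj_BS4 (e1 p) x, prj_BS4 (e2 p) x))
      (Z0 s t w c p ×ˢ Ec (cp c p))
      ((Ge s t w (c1 c p) ×ˢ Ec (c1 c p)) ×ˢ (Lt s t w (c2 c p) ×ˢ Ec (c2 c p))) :=
    fun x hx => ⟨⟨hx.1.1.1.2.1, ec1_BS4 hx.2⟩, hx.1.1.1.2.2, ec2_BS4 hx.2⟩
  refine (quot_iso (π := qm (Kc (cp c p)))
    (π' := Prod.map (qm (Kc (c1 c p))) (qm (Kc (c2 c p)))) isOpenQuotientMap_qm
    (isOpenQuotientMap_qm.prodMap isOpenQuotientMap_qm) (T := ∅) (T' := ∅)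
    (S := Z0 s t w c p ×ˢ Ec (cp c p))
    (S' := (Ge s t w (c1 c p) ×ˢ Ec (c1 c p)) ×ˢ (Lt s t w (c2 c p) ×ˢ Ec (c2 c p)))
    (j := fun x : Cj Ar ι × Mt ι => (prj_BS4 (e1 p) x, prj_BS4 (e2 p) x))
    (i := fun y : (Cj Ar ι × Mt ι) × Cj Ar ι × Mt ι => y.1 + y.2)
    (fun x hx y e => (mem_qs i0).1 ⟨x, hx, e.symm⟩)
    (fun x hx y e => ⟨(mem_qs i1).1 ⟨x.1, hx.1, (congrArg Prod.fst e).symm⟩,
      (mem_qs i2).1 ⟨x.2, hx.2, (congrArg Prod.snd e).symm⟩⟩)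
    (empty_subset _) (empty_subset _) ((prj_cont_BS4 _).prodMk (prj_cont_BS4 _)).continuousOn
    continuous_add.continuousOn m1 (mapsTo_empty _ _) ?_ (mapsTo_empty _ _) ?_ ?_ ?_ ?_).elim
    fun f h => ?_
  · exact fun x hx => ⟨z0_add_BS4 hx.1.1 hx.2.1, ec_add_BS4 hx.1.2 hx.2.2⟩
  · intro x _ y hy e
    obtain ⟨⟨g, hg⟩, rfl⟩ := qm_eq.1 e
    obtain ⟨g₁, h₁, g₂, h₂, rfl, -⟩ := split_Kc hp hg
    have k1 := (mem_Kc_cp.1 hg).2
    have k2 : e2 p * (g₁ * g₂).1 = (g₁ * g₂).1 * e2 p := by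
      rw [← add_right_inj (e1 p * (g₁ * g₂).1), ← add_mul, k1, ← mul_add, e1_add_e2, one_mul,
        mul_one]
    obtain ⟨a1, a2⟩ := m1 hy
    have a3 := i2 ⟨g₂, h₂⟩ _ a2
    have q1 : g₁ • prj_BS4 (e1 p) y = prj_BS4 (e1 p) ((g₁ * g₂) • y) := by
      rw [prj_smul_BS4 k1, mul_smul, triv_BS4 d2 h₂.1 a1.1.1 a1.2]
    have q2 : g₂ • prj_BS4 (e2 p) y = prj_BS4 (e2 p) ((g₁ * g₂) • y) := by
      rw [prj_smul_BS4 k2, mul_smul]
      exact (triv_BS4 d1 h₁.1 a3.1.1 a3.2).symm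
    exact congrArg₂ Prod.mk ((qm_eq (Γ := Kc (c1 c p))).2 ⟨⟨g₁, h₁⟩, q1⟩)
      ((qm_eq (Γ := Kc (c2 c p))).2 ⟨⟨g₂, h₂⟩, q2⟩)
  · rintro ⟨x, x'⟩ ⟨-, hx'⟩ ⟨y, y'⟩ ⟨hy, -⟩ e
    obtain ⟨⟨g₁, h₁⟩, q1⟩ := (qm_eq (Γ := Kc (c1 c p)) (x := x) (y := y)).1 (congrArg Prod.fst e)
    obtain ⟨⟨g₂, h₂⟩, q2⟩ := (qm_eq (Γ := Kc (c2 c p)) (x := x') (y := y')).1 (congrArg Prod.snd e)
    change g₁ • y = x at q1
    change g₂ • y' = x' at q2
    have q : (g₁ * g₂) • (y + y') = x + x' := by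
      rw [mul_smul, smul_add, smul_add, triv_BS4 d2 h₂.1 hy.1.1 hy.2, q1, q2,
        triv_BS4 d1 h₁.1 hx'.1.1 hx'.2]
    exact (qm_eq (Γ := Kc (cp c p))).2 ⟨⟨g₁ * g₂, mul_mem (Kc_c1_le c p h₁) (Kc_c2_le c p h₂)⟩, q⟩
  · exact fun x hx => congrArg _ (prj_sum_BS4 hx.1.1.2 hx.1.2)
  · rintro ⟨x, y⟩ ⟨hx, hy⟩
    obtain ⟨b1, b2, -⟩ := blk_add_BS4 hx.1.1 hy.1.1
    obtain ⟨r1, r2⟩ := row_add_BS4 hx.2 hy.2
    exact congrArg _ (Prod.ext (Prod.ext b1 r1) (Prod.ext b2 r2))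
  · rw [Set.prodMap_image_prod] at h
    exact h.2.2.eqv_empty

theorem sd_Z0 (hp : Adm c p) {p₁ p₂ : PowerSeries ℚ}
    (h1 : SD (Bo (Kc (c1 c p)) (Ge s t w (c1 c p)) (Ec (c1 c p))) ∅ p₁)
    (h2 : SD (Bo (Kc (c2 c p)) (Lt s t w (c2 c p)) (Ec (c2 c p))) ∅ p₂) :
    SD (Bo (Kc (cp c p)) (Z0 s t w c p) (Ec c)) ∅ (p₁ * p₂) := by
  have := contractible_Ec c
  have := contractible_Ec (cp c p)
  exact SD.of_eqv ((q_chg (ivt_Z0 hp) (ivt_Ec_cp c p) ((ivt_Ec _).mono (Kc_le _))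
    (prin_cp c p).prod_right (prin_Kc _).prod_right).trans (eqv_prod hp)).symm (h1.prod h2)

end Pool.Agent.Bet
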