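import Pool.Agent.P.MP_d34769_ag.BM2
import Pool.Agent.P.MP_d34769_ag.BM6
import Pool.Agent.P.MP_d34769_ag.BB3

/-! TASK BS5: the punctured standard representation. -/

open Set Matrix

namespace Pool.Agent.Bet

variable {ι : Type} [Fintype ι] [DecidableEq ι] {κ : Type} {Ar : Type}
  {c : ι → Option κ}

/-- The open ray through the standard vector. -/
def ray_BS5 (i₀ : ι) : Set (Mt ι) := {f | ∃ r : ℝ, 0 < r ∧ f.m = Matrix.single i₀ 0 (r : ℂ)}

lemma le_BS5 (c : ι → Option κ) (i₀ : ι) : Kc (Function.update c i₀ none) ≤ Kc c := by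
  rintro g ⟨h1, h2⟩
  refine ⟨mem_Gc_iff.2 fun i j h => mem_Gc_iff.1 h1 i j ?_, h2⟩
  by_cases hi : i = i₀
  · right; simp [hi]
  by_cases hj : j = i₀
  · subst hj
    rw [Function.update_self]
    exact (em _).symm
  · rwa [Function.update_of_ne hi, Function.update_of_ne hj]

lemma col_BS5 {i₀ : ι} {g : GG ι} (hg : g ∈ Gc (Function.update c i₀ none)) (i : ι) :
    g.1 i i₀ = if i = i₀ then 1 else 0 := by
  refine mem_Gc_iff.1 hg i i₀ ?_
  rw [Function.update_self]
  exact (em _).symm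

lemma row_BS5 {i₀ : ι} {g : GG ι} (hg : g ∈ Gc (Function.update c i₀ none)) (j : ι) :
    g.1 i₀ j = if i₀ = j then 1 else 0 :=
  mem_Gc_iff.1 hg i₀ j (Or.inr (by simp))

lemma mul_BS5 (g : Matrix ι ι ℂ) (i₀ i : ι) (j : ℕ) (z : ℂ) :
    (g * Matrix.single i₀ (0 : ℕ) z) i j = if j = 0 then g i i₀ * z else 0 := by
  rw [Matrix.mul_apply, Finset.sum_eq_single i₀]
  · by_cases h : j = 0
    · simp [h]
    · simp [h, Ne.symm h]
  · intro b _ hb
    simp [Ne.symm hb]
  · simp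

lemma ivt_ray_BS5 (i₀ : ι) : Ivt (Kc (Function.update c i₀ none)) (ray_BS5 i₀) := by
  rintro γ f ⟨r, hr, e⟩
  refine ⟨r, hr, ?_⟩
  show γ.1.1 * f.m = _
  ext i j
  rw [e, mul_BS5, col_BS5 γ.2.1, Matrix.single_apply]
  simp only [@eq_comm _ i₀ i, @eq_comm _ 0 j]
  by_cases h : j = 0 <;> by_cases h' : i = i₀ <;> simp [h, h']

omit [Fintype ι] in
lemma contr_ray_BS5 (i₀ : ι) : ContractibleSpace (ray_BS5 i₀) := by
  have h : Convex ℝ {f : Matrix ι ℕ ℂ | ∃ r : ℝ, 0 < r ∧ f = Matrix.single i₀ 0 (r : ℂ)} := by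
    rintro _ ⟨r, hr, rfl⟩ _ ⟨r', hr', rfl⟩ a b ha hb hab
    refine ⟨a * r + b * r', ?_, ?_⟩
    · exact (convex_Ioi (0 : ℝ)) hr hr' ha hb hab
    · ext i j
      simp only [Matrix.add_apply, Matrix.smul_apply, Matrix.single_apply]
      split_ifs <;> simp
  exact h.contractibleSpace ⟨_, 1, one_pos, rfl⟩

lemma ivt_F0_BS5 (v : κ) : Ivt (Kc c) (F0 c v : Set (Mt ι)) := by
  intro γ f hf i j h
  show (γ.1.1 * f.m) i j = 0
  rw [Matrix.mul_apply]
  refine Finset.sum_eq_zero fun k _ => ?_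
  by_cases hk : c k = some v
  · rcases h with h | h
    · have hne : c i ≠ c k := by rwa [hk]
      rw [mem_Gc_iff.1 γ.2.1 i k (Or.inl hne), if_neg fun e => hne (by rw [e]), zero_mul]
    · rw [hf k j (Or.inr h), mul_zero]
  · rw [hf k j (Or.inl hk), mul_zero]

lemma stab_BS5 {i₀ : ι} {g : GG ι} (hg : g ∈ Kc c) {f : Mt ι} (hf : f ∈ ray_BS5 i₀)
    (hf' : g • f ∈ ray_BS5 i₀) : g ∈ Kc (Function.update c i₀ none) := by
  obtain ⟨r, hr, e⟩ := hf
  obtain ⟨r', hr', e'⟩ := hf'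
  rw [Mt.smul_m, e] at e'
  have hr0 : (r : ℂ) ≠ 0 := by exact_mod_cast hr.ne'
  have h1 : ∀ i, g.1 i i₀ = if i = i₀ then ((r' / r : ℝ) : ℂ) else 0 := by
    intro i
    have := congrFun (congrFun e' i) 0
    rw [mul_BS5, if_pos rfl, Matrix.single_apply] at this
    by_cases h : i = i₀
    · subst h
      simp only [and_self, if_true] at this ⊢
      rw [Complex.ofReal_div, eq_div_iff hr0, this]
    · rw [if_neg fun e => h e.1.symm] at this
      rw [if_neg h]
      exact (mul_eq_zero.1 this).resolve_right hr0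
  have h2 : ∀ k, star (g.1 i₀ k) * ((r' / r : ℝ) : ℂ) = if k = i₀ then 1 else 0 := by
    intro k
    have := congrFun (congrFun (mem_Un.1 hg.2) k) i₀
    rw [Matrix.mul_apply, Matrix.one_apply, Finset.sum_eq_single i₀] at this
    · rwa [h1, if_pos rfl, Matrix.star_apply] at this
    · intro b _ hb
      rw [h1, if_neg hb, mul_zero]
    · simp
  have h3 : r' / r = 1 := by
    have := h2 i₀
    rw [h1, if_pos rfl, if_pos rfl, Complex.star_def, Complex.conj_ofReal,
      ← Complex.ofReal_mul] at this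
    have h4 : r' / r * (r' / r) = 1 := by exact_mod_cast this
    have h5 : 0 < r' / r := div_pos hr' hr
    nlinarith
  rw [h3] at h1 h2
  refine ⟨mem_Gc_iff.2 fun i j h => ?_, hg.2⟩
  by_cases hi : i = i₀
  · subst hi
    have := congrArg star (h2 j)
    simp only [Complex.ofReal_one, mul_one, star_star] at this
    rw [this]
    simp only [@eq_comm _ i j]
    by_cases hj : j = i <;> simp [hj]
  by_cases hj : j = i₀
  · subst hj
    simpa using h1 i
  · rw [Function.update_of_ne hi, Function.update_of_ne hj] at h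
    exact mem_Gc_iff.1 hg.1 i j h

lemma prin_BS5 (c : ι → Option κ) (i₀ : ι) : Prin (Kc (Function.update c i₀ none)) (Ec c) := by
  refine (prin_Kc (Function.update c i₀ none)).pull
    ((ivt_Ec c).mono ((le_BS5 c i₀).trans (Kc_le c)))
    (r := fun f => (dp (fun i => i ≠ i₀) * f.m : Matrix ι ℕ ℂ)) ?_ ?_ ?_
  · exact (Continuous.matrix_mul continuous_const (continuous_id (X := Matrix ι ℕ ℂ))).continuousOn
  · rintro f ⟨h1, h2⟩
    refine ⟨?_, fun v a ha h => ?_⟩
    · show dg _ none * (dp (fun i => i ≠ i₀) * f.m) = 0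
      ext i j
      have := congrFun (congrFun h1 i) j
      rw [dg, dp_mul_apply] at this
      rw [dg, dp_mul_apply, dp_mul_apply]
      by_cases hi : i = i₀
      · simp [hi]
      · simpa [hi] using this
    · have ha0 : a i₀ = 0 := ha i₀ (by simp)
      refine h2 v a (fun i hi => ?_) ?_
      · by_cases h' : i = i₀
        · rw [h', ha0]
        · exact ha i (by rwa [Function.update_of_ne h'])
      · have e : a ᵥ* dp (fun i => i ≠ i₀) = a := by
          ext i
          rw [dp, Matrix.vecMul_diagonal]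
          by_cases h' : i = i₀ <;> simp [h', ha0]
        have h' : a ᵥ* (dp (fun i => i ≠ i₀) * f.m) = 0 := h
        rwa [← Matrix.vecMul_vecMul, e] at h'
  · intro γ f _
    show dp (fun i => i ≠ i₀) * (γ.1.1 * f.m) = γ.1.1 * (dp (fun i => i ≠ i₀) * f.m)
    rw [← Matrix.mul_assoc, ← Matrix.mul_assoc]
    congr 1
    refine (dp_comm_iff _ _).2 fun i j h => ?_
    by_cases hi : i = i₀
    · subst hi
      rw [row_BS5 γ.2.1, if_neg]
      rintro rfl
      exact h Iff.rfl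
    · have hj : j = i₀ := by
        by_contra hj
        exact h (iff_of_true hi hj)
      rw [hj, col_BS5 γ.2.1, if_neg hi]

omit [Fintype ι] in
lemma closed_BS5 (i₀ : ι) : IsClosed {f : Mt ι |
    f.m = Matrix.single i₀ 0 (((f.m i₀ 0).re : ℝ) : ℂ) ∧ 0 ≤ (f.m i₀ 0).re} := by
  have h : Continuous fun f : Matrix ι ℕ ℂ => (f i₀ 0).re :=
    Complex.continuous_re.comp (continuous_apply_apply i₀ 0)
  refine IsClosed.inter (isClosed_eq (continuous_id (X := Matrix ι ℕ ℂ)) ?_)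
    (isClosed_le continuous_const h)
  refine continuous_pi fun i => continuous_pi fun j => ?_
  simp only [Matrix.single_apply]
  split_ifs
  · exact Complex.continuous_ofReal.comp h
  · exact continuous_const

theorem eqv_punct {v : κ} {i₀ : ι} (hi : c i₀ = some v) :
    Eqv (qs (Kc c) ((({0} : Set (Cj Ar ι)) ×ˢ Ec c) ×ˢ ((F0 c v : Set (Mt ι)) \ {0}))) ∅
      (Bo (Kc (Function.update c i₀ none)) ({0} : Set (Cj Ar ι))
        (Ec (Function.update c i₀ none))) ∅ := by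
  have := compactSpace_Kc c
  have := contractible_Ec c
  have := contractible_Ec (Function.update c i₀ none)
  have := contr_ray_BS5 i₀
  have z0 : ∀ Γ : Subgroup (GG ι), Ivt Γ ({0} : Set (Cj Ar ι)) := by
    rintro Γ γ _ rfl
    exact smul_zero γ.1
  have z1 : Ivt (Kc c) ({0} : Set (Mt ι)) := by
    rintro γ _ rfl
    exact smul_zero γ.1
  have hE : Ivt (Kc c) (Ec c) := (ivt_Ec c).mono (Kc_le c)
  have hE' := hE.mono (le_BS5 c i₀)
  have hsub : ray_BS5 i₀ ⊆ (F0 c v : Set (Mt ι)) \ {0} := by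
    rintro f ⟨r, hr, e⟩
    refine ⟨fun i j h => ?_, fun h0 => ?_⟩
    · rw [e, Matrix.single_apply, if_neg]
      rintro ⟨rfl, rfl⟩
      simp [hi] at h
    · have h1 : f.m i₀ 0 = 0 := by rw [mem_singleton_iff.1 h0]; rfl
      rw [e, Matrix.single_apply_same] at h1
      exact hr.ne' (by exact_mod_cast h1)
  have s1 := q_ind (le_BS5 c i₀)
    (S := (({0} : Set (Cj Ar ι)) ×ˢ Ec c) ×ˢ ((F0 c v : Set (Mt ι)) \ {0}))
    (S₀ := (({0} : Set (Cj Ar ι)) ×ˢ Ec c) ×ˢ ray_BS5 i₀) (T := ∅)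
    (((z0 _).prod hE).prod ((ivt_F0_BS5 v).diff z1)) (((z0 _).prod hE').prod (ivt_ray_BS5 i₀))
    (fun _ _ h => h.elim) (prod_mono subset_rfl hsub) (empty_subset _) ?_ ?_ ?_
  · rw [inter_empty, qs_empty, qs_empty] at s1
    have s2 := q_fib ((z0 _).prod hE') (Prin.prod_right (S := ({0} : Set (Cj Ar ι)))
      (prin_BS5 c i₀)) (ivt_ray_BS5 (c := c) i₀)
    exact (s1.symm.trans s2.eqv_empty).trans (q_chg (z0 _) hE' ((ivt_Ec _).mono (Kc_le _))
      (prin_BS5 c i₀).prod_right (prin_Kc _).prod_right)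
  · refine ⟨_, ((closed_BS5 i₀).preimage continuous_snd).isOpen_compl, ?_⟩
    ext x
    refine and_congr_right fun hx => not_congr ⟨?_, ?_⟩
    · rintro ⟨-, r, hr, e⟩
      have h1 : (x.2.m i₀ 0).re = r := by rw [e, Matrix.single_apply_same, Complex.ofReal_re]
      show _ ∧ _
      rw [h1]
      exact ⟨e, hr.le⟩
    · rintro ⟨h1, h2⟩
      refine ⟨hx.1, _, h2.lt_of_ne fun h0 => hx.2.2 ?_, h1⟩
      rw [← h0] at h1
      show x.2.m = 0
      rw [h1]
      simp
  · intro x hx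
    obtain ⟨k, hk, h⟩ := exists_ray hi hx.2.1 hx.2.2
    exact ⟨⟨k, hk⟩, ((z0 _).prod hE) ⟨k, hk⟩ _ hx.1, h⟩
  · intro γ x hx hx'
    exact ⟨⟨γ.1, stab_BS5 γ.2 hx.2 hx'.2⟩, rfl⟩

end Pool.Agent.Bet
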