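import Pool.Agent.P.MP_d34769_ag.BS5
import Pool.Agent.P.MP_d34769_ag.BB7
import Pool.Agent.P.MP_d34769_ag.BM3
import Pool.Agent.P.MP_d34769_ag.BH4

/-! TASK BS6: the classifying space of the block group. -/

open Set Matrix

namespace Pool.Agent.Bet

variable {ι : Type} [Fintype ι] [DecidableEq ι] {κ : Type} {Ar : Type} [Fintype κ]

omit [Fintype κ] in
theorem ivt0_BS6 (c : ι → Option κ) : Ivt (Kc c) ({0} : Set (Cj Ar ι)) := by
  rintro γ _ rfl
  exact smul_zero γ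

theorem base_BS6 {c : ι → Option κ} (h : ∀ i, c i = none) :
    SD (Bo (Kc c) ({0} : Set (Cj Ar ι)) (Ec c)) ∅ (Ad (dv c)) := by
  have e1 : dg c none = 1 := by
    ext i j
    simp [dg, dp_apply, h, Matrix.one_apply]
  have e2 : Ec c = {0} := by
    refine eq_singleton_iff_unique_mem.2 ⟨⟨Matrix.mul_zero _, fun v a ha _ => funext fun i =>
      ha i (by simp [h])⟩, fun f hf => ?_⟩
    have := hf.1
    rwa [e1, Matrix.one_mul] at this
  rw [dv_eq_zero.2 h, Bo, e2, singleton_prod_singleton, qs, image_singleton,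
    show Ad (0 : κ → ℕ) = 1 by simp [Ad]]
  exact SD.ctr _

theorem Ad_BS6 {c : ι → Option κ} {v : κ} {i₀ : ι} (hi : c i₀ = some v) : 0 < dv c v ∧
    Ad (dv c) = Ad (dv (Function.update c i₀ none)) * (1 - PowerSeries.X ^ (2 * dv c v))⁻¹ := by
  classical
  have e1 : dv c v = dv (Function.update c i₀ none) v + 1 := by
    simp only [dv]
    rw [← Finset.card_insert_of_notMem (a := i₀) (by simp)]
    congr 1
    ext i
    by_cases h : i = i₀
    · simp [h, hi]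
    · simp [h]
  have e2 : ∀ u, u ≠ v → dv c u = dv (Function.update c i₀ none) u := fun u hu => by
    simp only [dv]
    congr 1
    ext i
    by_cases h : i = i₀
    · simp [h, hi, hu.symm]
    · simp [h]
  refine ⟨by omega, ?_⟩
  simp only [Ad]
  rw [← Finset.mul_prod_erase _ _ (Finset.mem_univ v),
    ← Finset.mul_prod_erase _ _ (Finset.mem_univ v), e1, Finset.prod_range_succ, mul_right_comm]
  congr 2
  exact Finset.prod_congr rfl fun u hu => by rw [e2 u (Finset.ne_of_mem_erase hu)]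

omit [Fintype κ] in
theorem wt_BS6 (c : ι → Option κ) (v : κ) : ∃ (J : Cj Ar ι × Mt ι → Mt ι →ₗ[ℂ] (ℕ → ℂ))
    (N : Mt ι → ℝ) (α : Mt ι × Mt ι → Mt ι),
    Emb (Kc c) (({0} : Set (Cj Ar ι)) ×ˢ Ec c) (F0 c v) J ∧
      Wt (Kc c) ({0} : Set (Cj Ar ι)) (Ec c) (F0 c v) N α := by
  obtain ⟨J, J1, J2, J3⟩ := exists_J' (ι := ι)
  obtain ⟨N, N1, N2, N3, N4⟩ := exists_N' (ι := ι)
  obtain ⟨β, b1, b2, b3, b4⟩ := exists_abs (fun i => c i = some v)
  refine ⟨fun x => J x.2, N, fun x => β (x.1, J x.1 x.2),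
    ⟨Ivt.mono (Kc_le c) (ivt_F0 c v),
      (J1.comp (continuous_fst.snd.prodMk continuous_snd)).continuousOn,
      fun γ x _ u _ => J2 γ.1 γ.2.2 x.2 u, fun x hx u hu => J3 κ c v x.2 hx.2 u hu⟩,
    N1.continuousOn, fun u hu h0 => N2 u ?_, fun a u _ => N3 a u, fun γ u _ => N4 γ.1 γ.2.2 u,
    (b1.comp (continuous_fst.prodMk J1)).continuousOn,
    fun x hx => b2 κ c _ hx.1 _ fun e => hx.2.2 (J3 κ c v _ hx.1 _ hx.2.1 e), fun γ x _ => ?_,
    fun a ha => ?_⟩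
  · by_contra hn
    refine h0 (funext fun i => funext fun j => ?_)
    by_cases hj : j = 0
    · subst hj
      exact by_contra fun e => hn ⟨i, e⟩
    · exact hu i j (Or.inr hj)
  · show β (γ.1 • x.1, J (γ.1 • x.1) (γ.1 • x.2)) = γ.1 • β (x.1, J x.1 x.2)
    rw [J2 γ.1 γ.2.2]
    exact b3 γ.1 (γ.2.1.1 (some v)) _ _
  · obtain ⟨g, hg, e, -⟩ := exists_circ c (fun i => c i = some v) (fun i h => by simp [h]) ha
    refine ⟨⟨g, hg⟩, ?_, fun u hu => ?_, fun y _ u _ _ => ?_⟩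
    · rintro _ rfl
      exact smul_zero _
    · show g.1 * u.m = a • u.m
      rw [e, Matrix.add_mul, Matrix.smul_mul]
      ext i j
      rw [Matrix.add_apply, Matrix.smul_apply, Matrix.smul_apply, dp_mul_apply, dp_mul_apply]
      by_cases h : c i = some v
      · simp [h]
      · simp [h, hu i j (Or.inl h)]
    · show (β (y, J y (a • u))).m = g.1 * (β (y, J y u)).m
      rw [map_smul, b4, e]

theorem step_BS6 {c : ι → Option κ} {v : κ} {i₀ : ι} (hi : c i₀ = some v)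
    (ih : SD (Bo (Kc (Function.update c i₀ none)) ({0} : Set (Cj Ar ι))
      (Ec (Function.update c i₀ none))) ∅ (Ad (dv (Function.update c i₀ none)))) :
    SD (Bo (Kc c) ({0} : Set (Cj Ar ι)) (Ec c)) ∅ (Ad (dv c)) := by
  obtain ⟨J, N, α, hJ, hW⟩ := wt_BS6 (Ar := Ar) c v
  have := finite_F0 c v
  have := contractible_Ec c
  have : ContractibleSpace (F0 c v : Set (Mt ι)) :=
    contractible_of_htp (C := (F0 c v : Set (Mt ι))) (F0 c v).zero_mem
      (H := fun t x => ((1 - t : ℝ) : ℂ) • x) (H' := fun _ _ => 0)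
      ⟨(by fun_prop : Continuous fun p : ℝ × Mt ι => ((1 - p.1 : ℝ) : ℂ) • p.2).continuousOn,
        fun _ _ _ hx => (F0 c v).smul_mem _ hx⟩
      ⟨continuousOn_const, fun _ _ _ _ => (F0 c v).zero_mem⟩ (fun x _ => by simp)
      (fun x _ => by simp) fun _ _ => rfl
  have hE : Ivt (Kc c) (Ec c) := Ivt.mono (Kc_le c) (ivt_Ec c)
  have hS := (ivt0_BS6 (Ar := Ar) c).prod hE
  have hP : Prin (Kc c) (({0} : Set (Cj Ar ι)) ×ˢ Ec c) := (prin_Kc c).prod_right
  have h1 := q_thom hS hP hJ (T := ∅) (fun _ _ h => h) ⟨∅, isOpen_empty, (inter_empty _).symm⟩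
  rw [finrank_F0, qs_empty, show {x | x ∈ (({0} : Set (Cj Ar ι)) ×ˢ Ec c) ×ˢ (F0 c v : Set (Mt ι)) ∧
      (x.1 ∈ (∅ : Set (Cj Ar ι × Mt ι)) ∨ x.2 ≠ 0)} =
      (({0} : Set (Cj Ar ι)) ×ˢ Ec c) ×ˢ ((F0 c v : Set (Mt ι)) \ {0}) from
    Set.ext fun x => ⟨fun h => ⟨h.1.1, h.1.2, h.2.resolve_left id⟩,
      fun h => ⟨⟨h.1, h.2.1⟩, Or.inr h.2.2⟩⟩] at h1
  rw [(Ad_BS6 hi).2]
  exact SD.recur (by have := (Ad_BS6 hi).1; omega) (qs_mono (prod_mono_right sdiff_subset))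
    (hW.so (ivt0_BS6 c) hE (prin_Kc c) hJ) h1 (q_fib hS hP hJ.ivt).eqv_empty.symm
    (SD.of_eqv (eqv_punct hi).symm ih)

theorem sd_pt (c : ι → Option κ) :
    SD (Bo (Kc c) ({0} : Set (Cj Ar ι)) (Ec c)) ∅ (Ad (dv c)) := by
  classical
  induction h : (Finset.univ.filter fun i => c i ≠ none).card using Nat.strong_induction_on
    generalizing c with
  | _ n ih =>
    by_cases h0 : ∀ i, c i = none
    · exact base_BS6 h0
    · obtain ⟨i₀, h1⟩ := not_forall.1 h0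
      obtain ⟨v, hv⟩ := Option.ne_none_iff_exists'.1 h1
      refine step_BS6 hv (ih _ ?_ _ rfl)
      rw [← h]
      refine Finset.card_lt_card (Finset.ssubset_iff_of_subset (fun i hi => ?_) |>.2
        ⟨i₀, by simpa using h1, by simp⟩)
      by_cases e : i = i₀
      · simp [e] at hi
      · simpa [e] using hi

theorem sd_Rc (s t : Ar → κ) (c : ι → Option κ) :
    SD (Bo (Kc c) (Rc s t c : Set (Cj Ar ι)) (Ec c)) ∅ (Ad (dv c)) := by
  have hE : Ivt (Kc c) (Ec c) := Ivt.mono (Kc_le c) (ivt_Ec c)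
  have hS := (Ivt.mono (Kc_le c) (ivt_Rc s t c)).prod hE
  have h := q_def (S₀ := ({0} : Set (Cj Ar ι)) ×ˢ Ec c) (T := ∅) (T₀ := ∅) hS
    (prod_mono_left (singleton_subset_iff.2 (Rc s t c).zero_mem)) Subset.rfl (empty_subset _)
    (empty_subset _) (H := fun r x => (((1 - r : ℝ) : ℂ) • x.1, x.2))
    ⟨(by fun_prop : Continuous fun p : ℝ × Cj Ar ι × Mt ι =>
      (((1 - p.1 : ℝ) : ℂ) • p.2.1, p.2.2)).continuousOn,
      fun _ _ _ hx => ⟨(Rc s t c).smul_mem _ hx.1, hx.2⟩⟩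
    (fun r _ γ x _ => Prod.ext (smul_comm γ.1 ((1 - r : ℝ) : ℂ) x.1).symm rfl)
    (fun _ _ => mapsTo_empty _ _)
    (fun r _ x hx => ⟨(congrArg _ (mem_singleton_iff.1 hx.1)).trans (smul_zero _), hx.2⟩)
    (fun _ _ => mapsTo_empty _ _) (fun x _ => by simp) (fun x hx => ⟨by simp, hx.2⟩)
    (mapsTo_empty _ _)
  rw [qs_empty] at h
  exact SD.of_eqv h.eqv_empty (sd_pt c)

end Pool.Agent.Bet
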