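import Pool.Agent.P.MP_d34769_ag.BS2
import Pool.Agent.P.MP_d34769_ag.BS3
import Pool.Agent.P.MP_d34769_ag.BS4
import Pool.Agent.P.MP_d34769_ag.BS6

/-! TASK BS7: removing the strata one at a time. -/

open PowerSeries Classical

open Set Matrix

namespace Pool.Agent.Bet

variable {ι : Type} [Fintype ι] [DecidableEq ι] {κ : Type} {Ar : Type} [Fintype κ] [Fintype Ar]
  {s t : Ar → κ} {w : κ → ℝ} {c : ι → Option κ} {p : ι → Bool}

theorem step (hp : Adm c p) {U : Set (Cj Ar ι)} (hU : Ivt (Kc c) U) (h0 : RO U (Rc s t c))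
    (h1 : St s t w c (dv (c1 c p)) ⊆ U) (h2 : RO (U \ St s t w c (dv (c1 c p))) U)
    {p₁ p₂ q : PowerSeries ℚ}
    (k1 : SD (Bo (Kc (c1 c p)) (Ge s t w (c1 c p)) (Ec (c1 c p))) ∅ p₁)
    (k2 : SD (Bo (Kc (c2 c p)) (Lt s t w (c2 c p)) (Ec (c2 c p))) ∅ p₂)
    (k3 : SD (Bo (Kc c) U (Ec c)) ∅ q) :
    ∃ r, X ^ (2 * bb id id (dv (c1 c p)) (dv (c2 c p))) * r =
        X ^ (2 * bb s t (dv (c1 c p)) (dv (c2 c p))) * (p₁ * p₂) ∧
      SD (Bo (Kc c) (U \ St s t w c (dv (c1 c p))) (Ec c)) ∅ (q - r) := by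
  obtain ⟨O, o1, o2, o3, shA⟩ := step_A hp hU h0 h1 h2
  obtain ⟨shB, soB⟩ := step_B hp o1 o2 o3
  obtain ⟨r, er, hr⟩ := SD.of_sh' shA (SD.of_sh shB (sd_Z0 hp k1 k2))
  exact ⟨r, er.symm,
    SD.triple (qs_mono (prod_mono diff_subset Subset.rfl)) (shA.so soB) k3 hr⟩

omit [Fintype ι] [DecidableEq ι] [Fintype Ar] in
theorem exists_low_BS7 {T : Finset (κ → ℕ)} (hT : T.Nonempty) :
    ∃ g ∈ T, ∀ h ∈ T, ¬ Hi w g h := by
  obtain ⟨g, hg, hm⟩ := T.exists_min_image (fun g => toLex (th w g, sZ g)) hT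
  refine ⟨g, hg, fun h hh hi => (hm h hh).not_gt ?_⟩
  rw [Prod.Lex.toLex_lt_toLex]
  exact hi

omit [Fintype κ] [Fintype Ar] in
theorem ro_BS7 [Fintype κ] (T : Finset (κ → ℕ)) :
    RO {φ | φ ∈ Rc s t c ∧ ∀ g ∈ T, φ ∉ Cl s t c g} (Rc s t c : Set (Cj Ar ι)) := by
  have e : {φ | φ ∈ Rc s t c ∧ ∀ g ∈ T, φ ∉ Cl s t c g} =
      (Rc s t c : Set (Cj Ar ι)) \ ⋃ g ∈ T, Cl s t c g := by
    ext φ; simp
  rw [e]
  exact RO.of_isClosed (isClosed_biUnion_finset fun g _ => isClosed_Cl g) _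

omit [Fintype κ] [Fintype Ar] in
theorem ivt_BS7 [Fintype κ] (T : Finset (κ → ℕ)) :
    Ivt (Kc c) {φ : Cj Ar ι | φ ∈ Rc s t c ∧ ∀ g ∈ T, φ ∉ Cl s t c g} := by
  refine Ivt.mono (Kc_le c) fun γ φ hφ => ⟨ivt_Rc s t c γ φ hφ.1, fun g hg h => hφ.2 g hg ?_⟩
  simpa using ivt_Cl g γ⁻¹ _ h

/-- removing an upper set `T` of strata -/
theorem remove {G L : (κ → ℕ) → PowerSeries ℚ} (T : Finset (κ → ℕ)) (hT : ∀ g ∈ T, g ≤ dv c)
    (hup : ∀ g ∈ T, ∀ h ≤ dv c, Hi w h g → h ∈ T)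
    (ih : ∀ p, Adm c p → dv (c1 c p) ∈ T →
      SD (Bo (Kc (c1 c p)) (Ge s t w (c1 c p)) (Ec (c1 c p))) ∅ (G (dv (c1 c p))) ∧
      SD (Bo (Kc (c2 c p)) (Lt s t w (c2 c p)) (Ec (c2 c p))) ∅ (L (dv (c2 c p)))) :
    ∃ r : (κ → ℕ) → PowerSeries ℚ,
      (∀ g ∈ T, X ^ (2 * bb id id g (dv c - g)) * r g =
        X ^ (2 * bb s t g (dv c - g)) * (G g * L (dv c - g))) ∧
      SD (Bo (Kc c) {φ | φ ∈ Rc s t c ∧ ∀ g ∈ T, φ ∉ Cl s t c g} (Ec c)) ∅
        (Ad (dv c) - ∑ g ∈ T, r g) := by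
  induction hn : T.card generalizing T with
  | zero =>
    obtain rfl := Finset.card_eq_zero.1 hn
    refine ⟨fun _ => 0, by simp, ?_⟩
    have e : {φ : Cj Ar ι | φ ∈ Rc s t c ∧ ∀ g ∈ (∅ : Finset (κ → ℕ)), φ ∉ Cl s t c g} =
        (Rc s t c : Set (Cj Ar ι)) := by
      ext φ; simp
    rw [e, Finset.sum_empty, sub_zero]
    exact sd_Rc s t c
  | succ n IH =>
    obtain ⟨g, hg, hm⟩ := exists_low_BS7 (w := w) (Finset.card_pos.1 (by omega : 0 < T.card))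
    obtain ⟨r, hr, hs⟩ := IH (T.erase g) (fun h hh => hT h (Finset.mem_of_mem_erase hh))
      (fun g' hg' h hh hi => Finset.mem_erase.2
        ⟨fun e => hm g' (Finset.mem_of_mem_erase hg') (e ▸ hi),
          hup g' (Finset.mem_of_mem_erase hg') h hh hi⟩)
      (fun p hp hp' => ih p hp (Finset.mem_of_mem_erase hp'))
      (by rw [Finset.card_erase_of_mem hg]; omega)
    obtain ⟨p, hp, rfl⟩ := exists_part (hT g hg)
    have e2 : dv (c2 c p) = dv c - dv (c1 c p) := by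
      rw [← dv_add c p]; exact (add_tsub_cancel_left _ _).symm
    have hirr : ∀ f : κ → ℕ, ¬ Hi w f f := fun f h => by
      rcases h with h | h
      · exact lt_irrefl _ h
      · exact lt_irrefl _ h.2
    have h1 : St s t w c (dv (c1 c p)) ⊆
        {φ | φ ∈ Rc s t c ∧ ∀ g ∈ T.erase (dv (c1 c p)), φ ∉ Cl s t c g} := by
      intro φ hφ
      refine ⟨hφ.1.1, fun h hh hc => ?_⟩
      obtain ⟨hne, hh⟩ := Finset.mem_erase.1 hh
      have n1 : ¬ Hi w h (dv (c1 c p)) := fun hi => hφ.2 h hi hc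
      have n2 := hm h hh
      unfold Hi at n1 n2
      push Not at n1 n2
      have t1 : th w h = th w (dv (c1 c p)) := le_antisymm n1.1 n2.1
      have t2 : sZ h = sZ (dv (c1 c p)) := le_antisymm (n1.2 t1.symm) (n2.2 t1)
      obtain ⟨U, hU, eU⟩ := hφ.1.2
      obtain ⟨U', hU', eU'⟩ := hc.2
      have := St.uniq hφ hU hU' eU (by rw [eU', t1]) (by rw [eU', t2])
      exact hne (by rw [← eU', this, eU])
    have e3 : {φ : Cj Ar ι | φ ∈ Rc s t c ∧ ∀ g ∈ T.erase (dv (c1 c p)), φ ∉ Cl s t c g} \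
        St s t w c (dv (c1 c p)) = {φ | φ ∈ Rc s t c ∧ ∀ g ∈ T, φ ∉ Cl s t c g} := by
      ext φ
      constructor
      · rintro ⟨⟨a1, a2⟩, a3⟩
        refine ⟨a1, fun h hh hc => ?_⟩
        by_cases e : h = dv (c1 c p)
        · subst e
          refine a3 ⟨hc, fun h' hi hc' => a2 h' (Finset.mem_erase.2 ⟨?_, ?_⟩) hc'⟩
          · rintro rfl; exact hirr _ hi
          · exact hup _ hg h' (Cl_le hc') hi
        · exact a2 h (Finset.mem_erase.2 ⟨e, hh⟩) hc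
      · rintro ⟨a1, a2⟩
        exact ⟨⟨a1, fun h hh => a2 h (Finset.mem_of_mem_erase hh)⟩, fun h => a2 _ hg h.1⟩
    obtain ⟨k1, k2⟩ := ih p hp hg
    obtain ⟨r₀, er, hr₀⟩ := step hp (ivt_BS7 _) (ro_BS7 _) h1
      (by
        rw [e3]
        exact (ro_BS7 T).of_subset
          (fun φ hφ => ⟨hφ.1, fun h hh => hφ.2 h (Finset.mem_of_mem_erase hh)⟩)
          fun φ hφ => hφ.1) k1 k2 hs
    rw [e3] at hr₀
    rw [e2] at er
    refine ⟨Function.update r (dv (c1 c p)) r₀, fun h hh => ?_, ?_⟩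
    · by_cases e : h = dv (c1 c p)
      · subst e
        rw [Function.update_self]; exact er
      · rw [Function.update_of_ne e]
        exact hr h (Finset.mem_erase.2 ⟨e, hh⟩)
    · rw [Finset.sum_update_of_mem hg, Finset.sdiff_singleton_eq_erase, add_comm, ← sub_sub]
      exact hr₀

end Pool.Agent.Bet
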