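import Pool.Agent.P.MP_d34769_ag.BM2
import Pool.Agent.P.MP_d34769_ag.BB3

/-! TASK BS9: from the unitary group to the general linear group. -/

open Set Matrix
open scoped ComplexOrder

namespace Pool.Agent.Bet

variable {ι : Type} [Fintype ι] [DecidableEq ι] {κ : Type} {Ar : Type}
  {c : ι → Option κ}

/-- The identity matrix. -/
def oneBS9 (ι : Type) [DecidableEq ι] : Hm ι := (1 : Matrix ι ι ℂ)

lemma one_mem_BS9 : oneBS9 ι ∈ Ps c :=
  ⟨Matrix.PosDef.one, fun _ => (mul_one _).trans (one_mul _).symm, mul_one _⟩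

lemma ctr_BS9 : ContractibleSpace (Ps c) := by
  have h : Convex ℝ {h : Matrix ι ι ℂ | h.PosDef ∧ (∀ o, dg c o * h = h * dg c o) ∧
      dg c none * h = dg c none} := by
    refine convex_iff_forall_pos.2 fun x hx y hy a b ha hb hab => ⟨?_, fun o => ?_, ?_⟩
    · exact (hx.1.smul ha).add (hy.1.smul hb)
    · simp only [mul_add, add_mul, Matrix.mul_smul, Matrix.smul_mul, hx.2.1 o, hy.2.1 o]
    · simp only [mul_add, Matrix.mul_smul, hx.2.2, hy.2.2]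
      rw [← add_smul, hab, one_smul]
  exact h.contractibleSpace ⟨1, one_mem_BS9⟩

lemma ivt_BS9 : Ivt (Gc c) (Ps c) := by
  rintro ⟨g, g1, g2⟩ h ⟨h1, h2, h3⟩
  have e : ((⟨g, g1, g2⟩ : Gc c) • h).m = g.1 * h.m * star g.1 := rfl
  have s1 : ∀ o, dg c o * star g.1 = star g.1 * dg c o := fun o => by
    have := congrArg star (g1 o)
    simp only [star_mul, dg, star_dp] at this
    exact this.symm
  have s2 : dg c none * star g.1 = dg c none := by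
    have := congrArg star g2
    simp only [star_mul, dg, star_dp] at this
    exact (s1 none).trans this
  refine ⟨?_, fun o => ?_, ?_⟩
  · rw [e]
    exact h1.mul_mul_conjTranspose_same (Matrix.vecMul_injective_of_isUnit g.isUnit)
  · rw [e, ← mul_assoc, ← mul_assoc, g1, mul_assoc g.1, h2, mul_assoc, mul_assoc, s1]
    simp only [mul_assoc]
  · rw [e, ← mul_assoc, ← mul_assoc, g2, h3, s2]

lemma un_BS9 {g : GG ι} : g ∈ Un ι ↔ g • oneBS9 ι = oneBS9 ι := by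
  rw [mem_Un, mul_eq_one_comm]
  change _ ↔ g.1 * 1 * star g.1 = 1
  rw [mul_one]

lemma sq_BS9 {sq : Matrix ι ι ℂ → GG ι} (hq : IsSq sq) {h : Hm ι} (hh : h ∈ Ps c) :
    sq h.m ∈ Gc c ∧ sq h.m • oneBS9 ι = h := by
  refine ⟨⟨fun o => hq.comm _ hh.1 _ (hh.2.1 o),
    hq.fix _ hh.1 _ (star_dp _) (dp_idem _) hh.2.2⟩, ?_⟩
  change (sq h.m).1 * 1 * star (sq h.m).1 = h.m
  rw [mul_one, star_eq_conjTranspose, (hq.pos _ hh.1).isHermitian.eq, hq.mul _ hh.1]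

theorem eqv_KG {S : Set (Cj Ar ι)} (hS : Ivt (Gc c) S) :
    Eqv (Bo (Kc c) S (Ec c)) ∅ (Bo (Gc c) S (Ec c)) ∅ := by
  obtain ⟨sq, hq⟩ := exists_sq (ι := ι)
  have hW : Ivt (Gc c) (S ×ˢ Ec c) := hS.prod (ivt_Ec c)
  have := ctr_BS9 (c := c)
  have h2 := (q_fib hW (prin_Gc c).prod_right (ivt_BS9 (c := c))).eqv_empty
  have h1 := q_eqv (Γ := Kc c) (Λ := Gc c) (S := S ×ˢ Ec c) (T := ∅)
    (S' := (S ×ˢ Ec c) ×ˢ Ps c) (T' := ∅) (hW.mono (Kc_le c)) (hW.prod ivt_BS9)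
    (empty_subset _) (empty_subset _) (j := fun x => (x, oneBS9 ι))
    (i := fun y => (sq y.2.m)⁻¹ • y.1) (continuous_id.prodMk continuous_const).continuousOn
    ((hq.cont.comp (f := fun y : (Cj Ar ι × Mt ι) × Hm ι => y.2.m) continuous_snd.continuousOn
      fun y hy => hy.2.1).inv.smul continuous_fst.continuousOn)
    (fun x hx => ⟨hx, one_mem_BS9⟩) (mapsTo_empty _ _)
    (fun y hy => hW ⟨_, (Gc c).inv_mem (sq_BS9 hq hy.2).1⟩ _ hy.1) (mapsTo_empty _ _)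
    (fun γ x _ => ⟨⟨γ.1, γ.2.1⟩, Prod.ext rfl (un_BS9.1 γ.2.2)⟩)
    (fun l y hy => by
      have a1 := sq_BS9 hq hy.2
      have a2 := sq_BS9 hq (ivt_BS9 l _ hy.2)
      refine ⟨⟨(sq (l • y.2).m)⁻¹ * l.1 * sq y.2.m, (Gc c).mul_mem
        ((Gc c).mul_mem ((Gc c).inv_mem a2.1) l.2) a1.1, un_BS9.2 ?_⟩, ?_⟩
      · rw [mul_smul, mul_smul, a1.2, inv_smul_eq_iff, a2.2]; rfl
      · change ((sq (l • y.2).m)⁻¹ * l.1 * sq y.2.m) • (sq y.2.m)⁻¹ • y.1 =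
          (sq (l • y.2).m)⁻¹ • l.1 • y.1
        rw [mul_smul, mul_smul, smul_inv_smul])
    (fun x _ => by
      have a1 := sq_BS9 hq (one_mem_BS9 (c := c))
      exact ⟨⟨_, (Kc c).inv_mem ⟨a1.1, un_BS9.2 a1.2⟩⟩, rfl⟩)
    (fun y hy => by
      have a1 := sq_BS9 hq hy.2
      exact ⟨⟨_, (Gc c).inv_mem a1.1⟩, Prod.ext rfl (inv_smul_eq_iff.2 a1.2.symm)⟩)
  exact h1.2.1.eqv_empty.trans h2

end Pool.Agent.Bet
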