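import Pool.Agent.P.MP_d34769_ag.BZ3
import Pool.Agent.P.MP_d34769_ag.BA0

/-! Total singular chains with rational coefficients. -/

open Set Classical

namespace Pool.Agent.Bet

open G (Dl face Ch)

noncomputable section

variable {X Y Z : Type} [TopologicalSpace X] [TopologicalSpace Y] [TopologicalSpace Z]

/-- Singular simplices of all dimensions. -/
abbrev Spx (X : Type) [TopologicalSpace X] : Type := Σ k : ℕ, C(Dl (k + 1), X)

/-- Singular chains of all degrees. -/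
abbrev TC (X : Type) [TopologicalSpace X] : Type := Spx X →₀ ℚ

/-- The chain given by a simplex of dimension `k`. -/
def sx (k : ℕ) (σ : C(Dl (k + 1), X)) : TC X := Finsupp.single ⟨k, σ⟩ 1

/-- The linear map with given values on simplices. -/
def lift {M : Type} [AddCommGroup M] [Module ℚ M] (φ : ∀ k, C(Dl (k + 1), X) → M) :
    TC X →ₗ[ℚ] M := Finsupp.linearCombination ℚ fun s : Spx X => φ s.1 s.2

@[simp] lemma lift_sx {M : Type} [AddCommGroup M] [Module ℚ M] (φ : ∀ k, C(Dl (k + 1), X) → M)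
    (k : ℕ) (σ : C(Dl (k + 1), X)) : lift φ (sx k σ) = φ k σ := by
  simp [lift, sx]

/-- Induction on chains. -/
lemma TC.ind {P : TC X → Prop} (c : TC X) (h0 : P 0) (hadd : ∀ a b, P a → P b → P (a + b))
    (hs : ∀ (m : ℚ) k σ, P (m • sx k σ)) : P c := by
  induction c using Finsupp.induction_linear with
  | zero => exact h0
  | add a b ha hb => exact hadd a b ha hb
  | single s m => simpa [sx] using hs m s.1 s.2

lemma TC.ext {M : Type} [AddCommGroup M] [Module ℚ M] {f g : TC X →ₗ[ℚ] M}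
    (h : ∀ k σ, f (sx k σ) = g (sx k σ)) : f = g :=
  LinearMap.ext fun c => TC.ind (P := fun c => f c = g c) c (by simp)
    (fun a b ha hb => by simp [ha, hb]) fun m k σ => by simp [h]

/-- The inclusion of the chains of degree `k`. -/
def inc (k : ℕ) : Ch X (k + 1) →ₗ[ℚ] TC X := Finsupp.lmapDomain ℚ ℚ fun σ => (⟨k, σ⟩ : Spx X)

@[simp] lemma inc_single (k : ℕ) (σ : C(Dl (k + 1), X)) (m : ℚ) :
    inc k (Finsupp.single σ m) = m • sx k σ := by
  simp [inc, sx, Finsupp.mapDomain_single]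

/-- The projection to the chains of degree `k`. -/
def prj (k : ℕ) : TC X →ₗ[ℚ] Ch X (k + 1) :=
  Finsupp.lcomapDomain (fun σ => (⟨k, σ⟩ : Spx X))
    (sigma_mk_injective (β := fun k : ℕ => C(Dl (k + 1), X)))

@[simp] lemma prj_apply (k : ℕ) (c : TC X) (σ : C(Dl (k + 1), X)) : prj k c σ = c ⟨k, σ⟩ := rfl

@[simp] lemma prj_sx (k : ℕ) (σ : C(Dl (k + 1), X)) : prj k (sx k σ) = Finsupp.single σ 1 := by
  ext τ
  simp [sx, Finsupp.single_apply]

lemma prj_sx_ne {k l : ℕ} (h : k ≠ l) (σ : C(Dl (l + 1), X)) : prj k (sx l σ) = 0 := by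
  ext τ
  simp only [prj_apply, sx, Finsupp.coe_zero, Pi.zero_apply]
  exact Finsupp.single_eq_of_ne fun e => h (congrArg Sigma.fst e)

@[simp] lemma prj_inc (k : ℕ) (c : Ch X (k + 1)) : prj k (inc k c) = c := by
  induction c using Finsupp.induction_linear with
  | zero => simp
  | add a b ha hb => simp [ha, hb]
  | single σ m => simp

lemma prj_inc_ne {k l : ℕ} (h : k ≠ l) (c : Ch X (l + 1)) : prj k (inc l c) = 0 := by
  induction c using Finsupp.induction_linear with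
  | zero => simp
  | add a b ha hb => simp [ha, hb]
  | single σ m => simp [prj_sx_ne h]

/-- The boundary of a simplex. -/
def Dsx : ∀ k, C(Dl (k + 1), X) → TC X
  | 0, _ => 0
  | k + 1, σ => ∑ i : Fin (k + 2), (-1 : ℚ) ^ (i : ℕ) • sx k (σ.comp (face i))

lemma lift_Dsx_inc (k : ℕ) (c : Ch X (k + 2)) : lift Dsx (inc (k + 1) c) = inc k (G.bd c) := by
  induction c using Finsupp.induction_linear with
  | zero => simp
  | add a b ha hb => simp [ha, hb]
  | single σ m =>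
    simp only [inc_single, map_smul, lift_sx, Dsx, G.bd_single, map_sum, Finset.smul_sum]
    exact Finset.sum_congr rfl fun i _ => smul_comm _ _ _

lemma lift_Dsx_inc_zero (c : Ch X 1) : lift Dsx (inc 0 c) = 0 := by
  induction c using Finsupp.induction_linear with
  | zero => simp
  | add a b ha hb => simp [ha, hb]
  | single σ m => simp [Dsx]

lemma sx_eq_inc (k : ℕ) (σ : C(Dl (k + 1), X)) : sx k σ = inc k (Finsupp.single σ 1) := by simp

instance tcDG : DG (TC X) where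
  D := lift Dsx
  DD c := by
    refine TC.ind (P := fun c => lift Dsx (lift Dsx c) = 0) c (by simp)
      (fun a b ha hb => by simp [ha, hb]) fun m k σ => ?_
    rw [map_smul, map_smul, sx_eq_inc]
    rcases k with _ | _ | k
    · rw [lift_Dsx_inc_zero, map_zero, smul_zero]
    · rw [lift_Dsx_inc, lift_Dsx_inc_zero, smul_zero]
    · rw [lift_Dsx_inc, lift_Dsx_inc, G.bd_bd, map_zero, smul_zero]
  pr k := inc k ∘ₗ prj k
  pr_pr k l c := by
    split_ifs with h
    · subst h; simp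
    · simp [prj_inc_ne h]
  pr_D k c := by
    refine TC.ind (P := fun c => (inc k ∘ₗ prj k) (lift Dsx c) =
      lift Dsx ((inc (k + 1) ∘ₗ prj (k + 1)) c)) c (by simp)
      (fun a b ha hb => by simp only [map_add, ha, hb]) fun m l σ => ?_
    simp only [map_smul]
    congr 1
    rw [sx_eq_inc]
    simp only [LinearMap.comp_apply]
    rcases l with _ | l
    · rw [lift_Dsx_inc_zero, prj_inc_ne (by omega)]; simp
    · by_cases h : k = l
      · subst h; rw [prj_inc, lift_Dsx_inc, prj_inc]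
      · rw [lift_Dsx_inc, prj_inc_ne h, prj_inc_ne (by omega)]; simp
  D_pr c := lift_Dsx_inc_zero _
  fin c := by
    refine TC.ind (P := fun c => ∃ N, ∀ M, N ≤ M →
      ∑ k ∈ Finset.range M, (inc k ∘ₗ prj k) c = c) c ⟨0, by simp⟩ ?_ fun m l σ => ?_
    · rintro a b ⟨N, hN⟩ ⟨N', hN'⟩
      refine ⟨max N N', fun M hM => ?_⟩
      simp only [map_add, Finset.sum_add_distrib, hN M (le_of_max_le_left hM),
        hN' M (le_of_max_le_right hM)]
    · refine ⟨l + 1, fun M hM => ?_⟩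
      rw [Finset.sum_eq_single l]
      · simp
      · intro k _ hk
        simp [prj_sx_ne hk]
      · intro h
        exact absurd (Finset.mem_range.2 hM) h

lemma pr_eq (k : ℕ) (c : TC X) : pr k c = inc k (prj k c) := rfl

lemma D_inc (k : ℕ) (c : Ch X (k + 2)) : D (inc (k + 1) c) = inc k (G.bd c) := lift_Dsx_inc k c

@[simp] lemma D_inc_zero (c : Ch X 1) : D (inc 0 c) = 0 := lift_Dsx_inc_zero c

@[simp] lemma D_sx_zero (σ : C(Dl 1, X)) : D (sx 0 σ) = 0 := lift_sx _ _ _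

lemma D_sx_succ (k : ℕ) (σ : C(Dl (k + 2), X)) :
    D (sx (k + 1) σ) = ∑ i : Fin (k + 2), (-1 : ℚ) ^ (i : ℕ) • sx k (σ.comp (face i)) :=
  lift_sx _ _ _

lemma pr_sx (k l : ℕ) (σ : C(Dl (l + 1), X)) : pr k (sx l σ) = if k = l then sx l σ else 0 := by
  rw [pr_eq]
  split_ifs with h
  · subst h; simp
  · simp [prj_sx_ne h]

lemma prj_D (k : ℕ) (c : TC X) : prj k (D c) = G.bd (prj (k + 1) c) := by
  have := congrArg (prj k) (pr_D k c)
  rwa [pr_eq, pr_eq, prj_inc, D_inc, prj_inc] at this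

/-- Chains in `S`. -/
def cn (S : Set X) : Submodule ℚ (TC X) := Finsupp.supported ℚ ℚ {s | range s.2 ⊆ S}

lemma mem_cn {S : Set X} {c : TC X} : c ∈ cn S ↔ ∀ s ∈ c.support, range s.2 ⊆ S := Iff.rfl

lemma sx_mem {S : Set X} {k : ℕ} {σ : C(Dl (k + 1), X)} (h : ∀ t, σ t ∈ S) : sx k σ ∈ cn S :=
  Finsupp.single_mem_supported ℚ _ (range_subset_iff.2 h)

lemma cn_mono {S T : Set X} (h : S ⊆ T) : cn S ≤ cn T :=
  fun _ hc s hs => (mem_cn.1 hc s hs).trans h

@[simp] lemma cn_univ : cn (univ : Set X) = ⊤ :=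
  top_unique fun _ _ _ _ => subset_univ _

@[simp] lemma cn_empty : cn (∅ : Set X) = ⊥ := by
  refine bot_unique fun c hc => ?_
  by_contra h
  obtain ⟨s, hs⟩ := Finsupp.support_nonempty_iff.2 h
  exact mem_cn.1 hc s hs ⟨stdSimplex.vertex 0, rfl⟩

lemma cn_inter (S T : Set X) : cn (S ∩ T) = cn S ⊓ cn T := by
  ext c
  simp only [Submodule.mem_inf, mem_cn, subset_inter_iff]
  exact ⟨fun h => ⟨fun σ hσ => (h σ hσ).1, fun σ hσ => (h σ hσ).2⟩,
    fun h σ hσ => ⟨h.1 σ hσ, h.2 σ hσ⟩⟩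

/-- Induction on chains in `S`. -/
lemma cn_ind {S : Set X} {P : TC X → Prop} {c : TC X} (hc : c ∈ cn S) (h0 : P 0)
    (hadd : ∀ a b, P a → P b → P (a + b))
    (hs : ∀ (m : ℚ) k (σ : C(Dl (k + 1), X)), (∀ t, σ t ∈ S) → P (m • sx k σ)) : P c := by
  rw [← Finsupp.sum_single c, Finsupp.sum]
  refine Finset.sum_induction _ P hadd h0 fun s hs' => ?_
  simpa [sx] using hs (c s) s.1 s.2 fun t => mem_cn.1 hc s hs' ⟨t, rfl⟩

lemma map_mem_of_cn {M : Type} [AddCommGroup M] [Module ℚ M] {S : Set X} (φ : TC X →ₗ[ℚ] M)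
    (A : Submodule ℚ M) (h : ∀ k (σ : C(Dl (k + 1), X)), (∀ t, σ t ∈ S) → φ (sx k σ) ∈ A)
    {c : TC X} (hc : c ∈ cn S) : φ c ∈ A :=
  cn_ind (P := fun c => φ c ∈ A) hc (by simp) (fun a b ha hb => by simpa using A.add_mem ha hb)
    fun m k σ hσ => by rw [map_smul]; exact A.smul_mem _ (h k σ hσ)

lemma eq_of_cn {M : Type} [AddCommGroup M] [Module ℚ M] {S : Set X} {φ ψ : TC X →ₗ[ℚ] M}
    (h : ∀ k (σ : C(Dl (k + 1), X)), (∀ t, σ t ∈ S) → φ (sx k σ) = ψ (sx k σ))
    {c : TC X} (hc : c ∈ cn S) : φ c = ψ c :=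
  cn_ind (P := fun c => φ c = ψ c) hc (by simp) (fun a b ha hb => by simp [ha, hb])
    fun m k σ hσ => by simp [h k σ hσ]

lemma stb_cn (S : Set X) : Stb (cn S) := fun _ hc =>
  map_mem_of_cn D _ (fun k σ hσ => by
    cases k with
    | zero => simp
    | succ k =>
      rw [D_sx_succ]
      exact Submodule.sum_mem _ fun i _ => Submodule.smul_mem _ _ (sx_mem fun t => hσ _)) hc

lemma grd_cn (S : Set X) : Grd (cn S) := fun k _ hc =>
  map_mem_of_cn (pr k) _ (fun l σ hσ => by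
    rw [pr_sx]
    split_ifs
    · exact sx_mem hσ
    · exact Submodule.zero_mem _) hc

lemma pr_cn {S T : Set X} (h : T ⊆ S) : Pr (cn S) (cn T) := ⟨cn_mono h, stb_cn S, stb_cn T⟩

lemma gpr_cn {S T : Set X} (h : T ⊆ S) : GPr (cn S) (cn T) := ⟨pr_cn h, grd_cn S, grd_cn T⟩

lemma gpr_bot (S : Set X) : GPr (cn S) ⊥ := ⟨(stb_cn S).pr_bot, grd_cn S, grd_bot⟩

lemma inc_mem {S : Set X} {k : ℕ} {c : Ch X (k + 1)} (h : c ∈ G.ChIn S (k + 1)) :
    inc k c ∈ cn S :=
  G.map_mem_of_ChIn (inc k) _ (fun σ hσ => by simpa using sx_mem hσ) h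

lemma prj_mem {S : Set X} {c : TC X} (k : ℕ) (h : c ∈ cn S) : prj k c ∈ G.ChIn S (k + 1) :=
  fun σ hσ => mem_cn.1 h ⟨k, σ⟩ (by simpa using hσ)

/-- Compact supports. -/
lemma exists_compact {S : Set X} {c : TC X} (h : c ∈ cn S) :
    ∃ K, IsCompact K ∧ K ⊆ S ∧ c ∈ cn K :=
  ⟨⋃ s ∈ c.support, range s.2, c.support.isCompact_biUnion fun s _ => isCompact_range s.2.continuous,
    iUnion₂_subset fun s hs => mem_cn.1 h s hs,
    fun s hs => subset_iUnion₂ (s := fun (s : Spx X) (_ : s ∈ c.support) => range s.2) s hs⟩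

/-- The map on chains induced by a function, to be used on sets where it is continuous. -/
def pu (f : X → Y) : TC X →ₗ[ℚ] TC Y :=
  lift fun k σ => if h : Continuous (f ∘ σ) then sx k ⟨f ∘ σ, h⟩ else 0

lemma pu_sx' (f : X → Y) {k : ℕ} (σ : C(Dl (k + 1), X)) (h : Continuous (f ∘ σ)) :
    pu f (sx k σ) = sx k ⟨f ∘ σ, h⟩ := by
  simp [pu, h]

lemma cont_comp {f : X → Y} {S : Set X} (hf : ContinuousOn f S) {k : ℕ} {σ : C(Dl k, X)}
    (hσ : ∀ t, σ t ∈ S) : Continuous (f ∘ σ) :=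
  hf.comp_continuous σ.continuous hσ

lemma pu_sx (f : C(X, Y)) {k : ℕ} (σ : C(Dl (k + 1), X)) : pu f (sx k σ) = sx k (f.comp σ) :=
  pu_sx' f σ (f.comp σ).continuous

lemma pu_inc (f : C(X, Y)) {k : ℕ} (c : Ch X (k + 1)) : pu f (inc k c) = inc k (G.push f c) := by
  induction c using Finsupp.induction_linear with
  | zero => simp
  | add a b ha hb => simp [ha, hb]
  | single σ m => simp [pu_sx]

lemma pu_mem {f : X → Y} {S : Set X} {S' : Set Y} (h : MapsTo f S S') {c : TC X}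
    (hc : c ∈ cn S) : pu f c ∈ cn S' :=
  map_mem_of_cn (pu f) _ (fun k σ hσ => by
    simp only [pu, lift_sx]
    split_ifs
    · exact sx_mem fun t => h (hσ t)
    · exact Submodule.zero_mem _) hc

lemma pu_D {f : X → Y} {S : Set X} (hf : ContinuousOn f S) {c : TC X} (hc : c ∈ cn S) :
    pu f (D c) = D (pu f c) := by
  refine eq_of_cn (φ := pu f ∘ₗ D) (ψ := D ∘ₗ pu f) (fun k σ hσ => ?_) hc
  simp only [LinearMap.comp_apply]
  rw [pu_sx' f σ (cont_comp hf hσ)]
  cases k with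
  | zero => simp
  | succ k =>
    simp only [D_sx_succ, map_sum, map_smul]
    refine Finset.sum_congr rfl fun i _ => ?_
    rw [pu_sx' f (σ.comp (face i)) (cont_comp hf fun t => hσ _)]
    rfl

lemma pu_pu {f : X → Y} {g : Y → Z} {S : Set X} (hf : ContinuousOn f S) {c : TC X}
    (hc : c ∈ cn S) : pu g (pu f c) = pu (g ∘ f) c := by
  refine eq_of_cn (φ := pu g ∘ₗ pu f) (fun k σ hσ => ?_) hc
  simp only [LinearMap.comp_apply]
  rw [pu_sx' f σ (cont_comp hf hσ)]
  simp only [pu, lift_sx]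
  rfl

lemma pu_congr {f g : X → Y} {S : Set X} (h : EqOn f g S) {c : TC X} (hc : c ∈ cn S) :
    pu f c = pu g c := by
  refine eq_of_cn (fun k σ hσ => ?_) hc
  have : f ∘ σ = g ∘ σ := funext fun t => h (hσ t)
  simp only [pu, lift_sx, this]

@[simp] lemma pu_id : pu (id : X → X) = LinearMap.id :=
  TC.ext fun _ σ => pu_sx (ContinuousMap.id X) σ

lemma pu_of_eqOn {f : X → X} {S : Set X} (h : ∀ x ∈ S, f x = x) {c : TC X} (hc : c ∈ cn S) :
    pu f c = c := by
  rw [pu_congr (g := id) h hc, pu_id, LinearMap.id_apply]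

lemma pu_pr (f : X → Y) (k : ℕ) (c : TC X) : pu f (pr k c) = pr k (pu f c) := by
  refine LinearMap.congr_fun (TC.ext (f := pu f ∘ₗ pr k) (g := pr k ∘ₗ pu f) fun l σ => ?_) c
  simp only [LinearMap.comp_apply, pr_sx]
  by_cases h : Continuous (f ∘ σ)
  · rw [pu_sx' f σ h, pr_sx]
    split_ifs
    · exact pu_sx' f σ h
    · simp
  · have : pu f (sx l σ) = 0 := by simp [pu, h]
    split_ifs <;> simp [this]

lemma deg_pu (f : X → Y) : Deg 0 (pu f) := ⟨pu_pr f, fun _ h => absurd h (by simp)⟩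

lemma cmap_pu {f : X → Y} {S : Set X} {S' : Set Y} (hf : ContinuousOn f S) (h : MapsTo f S S') :
    CMap (pu f) (cn S) (cn S') := fun _ hc => ⟨pu_mem h hc, pu_D hf hc⟩

lemma hmap_pu {f : X → Y} {S T : Set X} {S' T' : Set Y} (hf : ContinuousOn f S)
    (h : MapsTo f S S') (h' : MapsTo f T T') : HMap (pu f) (cn S) (cn T) (cn S') (cn T') :=
  (cmap_pu hf h).hmap fun _ hc => pu_mem h' hc

/-- The sign `(-1) ^ degree`. -/
def eps : TC X →ₗ[ℚ] TC X := lift fun k σ => (-1 : ℚ) ^ k • sx k σ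

@[simp] lemma eps_sx (k : ℕ) (σ : C(Dl (k + 1), X)) : eps (sx k σ) = (-1 : ℚ) ^ k • sx k σ :=
  lift_sx _ _ _

@[simp] lemma eps_eps (c : TC X) : eps (eps c) = c :=
  LinearMap.congr_fun (TC.ext (f := eps ∘ₗ eps) (g := LinearMap.id) fun k σ => by
    simp [smul_smul, ← mul_pow]) c

lemma eps_D (c : TC X) : eps (D c) = -D (eps c) :=
  LinearMap.congr_fun (TC.ext (f := eps ∘ₗ D) (g := -(D ∘ₗ eps)) fun k σ => by
    cases k with
    | zero => simp
    | succ k =>
      simp only [LinearMap.comp_apply, LinearMap.neg_apply, eps_sx, map_smul, D_sx_succ, map_sum,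
        Finset.smul_sum, smul_smul, ← Finset.sum_neg_distrib, ← neg_smul]
      exact Finset.sum_congr rfl fun i _ => by congr 1; ring) c

lemma eps_mem {S : Set X} {c : TC X} (hc : c ∈ cn S) : eps c ∈ cn S :=
  map_mem_of_cn eps _ (fun k σ hσ => by rw [eps_sx]; exact Submodule.smul_mem _ _ (sx_mem hσ)) hc

lemma pu_eps (f : X → Y) (c : TC X) : pu f (eps c) = eps (pu f c) := by
  refine LinearMap.congr_fun (TC.ext (f := pu f ∘ₗ eps) (g := eps ∘ₗ pu f) fun l σ => ?_) c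
  simp only [LinearMap.comp_apply, eps_sx, map_smul]
  by_cases h : Continuous (f ∘ σ)
  · rw [pu_sx' f σ h, eps_sx]
  · simp [pu, h]

/-- The augmentation. -/
def aug : TC X →ₗ[ℚ] ℚ := lift fun k _ => if k = 0 then 1 else 0

@[simp] lemma aug_sx (k : ℕ) (σ : C(Dl (k + 1), X)) : aug (sx k σ) = if k = 0 then 1 else 0 :=
  lift_sx _ _ _

/-- The front face with vertices `0, …, i`. -/
def fr {k : ℕ} (i : Fin (k + 1)) : C(Dl (i + 1), Dl (k + 1)) :=
  ⟨stdSimplex.map (Fin.castLE (by omega)), stdSimplex.continuous_map _⟩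

/-- The back face with vertices `i, …, k`. -/
def bk {k : ℕ} (i : Fin (k + 1)) : C(Dl (k - i + 1), Dl (k + 1)) :=
  ⟨stdSimplex.map fun j => ⟨i + j, by omega⟩, stdSimplex.continuous_map _⟩

/-- The cap product with the cochain `ω`. -/
def cap (ω : TC X →ₗ[ℚ] ℚ) : TC X →ₗ[ℚ] TC X :=
  lift fun k σ => ∑ i : Fin (k + 1), ω (sx (k - i) (σ.comp (bk i))) • sx i (σ.comp (fr i))

lemma cap_sx (ω : TC X →ₗ[ℚ] ℚ) (k : ℕ) (σ : C(Dl (k + 1), X)) :
    cap ω (sx k σ) = ∑ i : Fin (k + 1), ω (sx (k - i) (σ.comp (bk i))) • sx i (σ.comp (fr i)) :=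
  lift_sx _ _ _

/-- The slant product with the cochain `ω` on the second factor. -/
def sl (ω : TC Y →ₗ[ℚ] ℚ) : TC (X × Y) →ₗ[ℚ] TC X :=
  pu Prod.fst ∘ₗ cap (ω ∘ₗ pu Prod.snd)

end

end Pool.Agent.Bet
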