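import Pool.Agent.P.MP_d34769_ag.BT0

/-! Ranks of homology of pairs of sets, stable notions, quotients, vector bundles. -/

open Set Classical

namespace Pool.Agent.Bet

noncomputable section

section pairs

variable {X Y F : Type} [TopologicalSpace X] [TopologicalSpace Y] [TopologicalSpace F]

/-- The rank of `H_k(S, T)`. -/
def RK (S T : Set X) (k : ℕ) : Cardinal := rk (cn S) (cn T) k

/-- `H(Z) → H(S, T)` is onto. -/
def Ont (Z S T : Set X) : Prop := Srj LinearMap.id (cn Z) ⊥ (cn S) (cn T)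

/-- `p` is the Poincare series of `(S, T)`. -/
def Dim (S T : Set X) (p : PowerSeries ℚ) : Prop :=
  ∀ k, ∃ m : ℕ, RK S T k = m ∧ PowerSeries.coeff k p = m

/-- The set `B × S`. -/
def up (B : Type) {X : Type} (S : Set X) : Set (B × X) := Prod.snd ⁻¹' S

@[simp] lemma mem_up {B X : Type} {S : Set X} {x : B × X} : x ∈ up B S ↔ x.2 ∈ S := Iff.rfl

@[simp] lemma up_empty {B X : Type} : up B (∅ : Set X) = ∅ := rfl

@[simp] lemma up_univ {B X : Type} : up B (univ : Set X) = univ := rfl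

lemma up_mono {B X : Type} {S T : Set X} (h : S ⊆ T) : up B S ⊆ up B T := fun _ hx => h hx

/-- `p` is the Poincare series of `(S, T)`, stably under products. -/
def SD (S T : Set X) (p : PowerSeries ℚ) : Prop :=
  ∀ (B : Type) [TopologicalSpace B] (q : PowerSeries ℚ), Dim (univ : Set B) ∅ q →
    Dim (up B S) (up B T) (p * q)

/-- `H(Z) → H(S, T)` is stably onto. -/
def SO (Z S T : Set X) : Prop :=
  ∀ (B : Type) [TopologicalSpace B], Ont (up B Z) (up B S) (up B T)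

/-- The homology of `(S', T')` is that of `(S, T)` shifted by `m`, and surjectivity from absolute
homology passes from `(S', T')` to `(S, T)`. -/
structure Sh (m : ℕ) (S T : Set X) (S' T' : Set Y) : Prop where
  hi : ∀ (B : Type) [TopologicalSpace B] (k : ℕ),
    RK (up B S') (up B T') (k + m) = RK (up B S) (up B T) k
  lo : ∀ (B : Type) [TopologicalSpace B], ∀ k < m, RK (up B S') (up B T') k = 0
  ont : ∀ (B : Type) [TopologicalSpace B],
    Ont (up B S') (up B S') (up B T') → Ont (up B S) (up B S) (up B T)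

/-- Equivalent pairs. -/
def Eqv (S T : Set X) (S' T' : Set Y) : Prop := Sh 0 S T S' T' ∧ Sh 0 S' T' S T

/-- `f` is stably an isomorphism on the homology of pairs. -/
structure SIso (f : X → Y) (S T : Set X) (S' T' : Set Y) : Prop where
  cont : ContinuousOn f S
  le : T ⊆ S
  le' : T' ⊆ S'
  mS : MapsTo f S S'
  mT : MapsTo f T T'
  iso : ∀ (B : Type) [TopologicalSpace B], HIso (pu (Prod.map id f : B × X → B × Y))
    (cn (up B S)) (cn (up B T)) (cn (up B S')) (cn (up B T'))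

/-- `A` is relatively open in `S`. -/
def RO (A S : Set X) : Prop := ∃ U, IsOpen U ∧ A = S ∩ U

/-- A homotopy of maps from `S` to `S'`. -/
structure Htp (H : ℝ → X → Y) (S : Set X) (S' : Set Y) : Prop where
  cont : ContinuousOn (fun p : ℝ × X => H p.1 p.2) (Icc 0 1 ×ˢ S)
  map : ∀ t ∈ Icc (0 : ℝ) 1, MapsTo (H t) S S'

/-- `ω` is a cocycle of degree `m` of the pair `(A, A₀)`. -/
structure Coc (m : ℕ) (ω : TC F →ₗ[ℚ] ℚ) (A A₀ : Set F) : Prop where
  bb : ∀ c ∈ BB (cn A) (cn A₀), ω c = 0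
  dg : ∀ k, k ≠ m → ∀ c, ω (pr k c) = 0

/-- The slant product with `ω` is an isomorphism `H(W × A, W × A₀) → H(W)`. -/
def Kun (ω : TC F →ₗ[ℚ] ℚ) (A A₀ : Set F) : Prop :=
  ∀ (W : Type) [TopologicalSpace W], HIso (sl ω : TC (W × F) →ₗ[ℚ] TC W)
    (cn (up W A)) (cn (up W A₀)) ⊤ ⊥

end pairs

section quot

/-- The orbit space. -/
abbrev Q (Γ X : Type) [Group Γ] [MulAction Γ X] : Type := Quotient (MulAction.orbitRel Γ X)

variable (Γ : Type) [Group Γ] {X Z : Type} [MulAction Γ X]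

/-- The orbit map. -/
def qm (x : X) : Q Γ X := Quotient.mk _ x

/-- The image of `S` in the orbit space. -/
def qs (S : Set X) : Set (Q Γ X) := qm Γ '' S

/-- `S` is invariant. -/
def Ivt (S : Set X) : Prop := ∀ γ : Γ, ∀ x ∈ S, γ • x ∈ S

/-- The function on the orbit space induced by `g`, to be used where `g` is invariant. -/
def dsc (g : X → Z) : Q Γ X → Z := fun w => g w.out

/-- The action on `S` is principal: locally there is an equivariant map to the group. -/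
def Prin [TopologicalSpace Γ] [TopologicalSpace X] (S : Set X) : Prop :=
  ∀ x₀ ∈ S, ∃ U : Set X, IsOpen U ∧ x₀ ∈ U ∧ ∃ τ : X → Γ, ContinuousOn τ (S ∩ U) ∧
    ∀ γ : Γ, ∀ x ∈ S ∩ U, γ • x ∈ U ∧ τ (γ • x) = γ * τ x

variable {Γ}

lemma qm_eq {x y : X} : qm Γ x = qm Γ y ↔ ∃ γ : Γ, γ • y = x := Quotient.eq

@[simp] lemma qm_smul (γ : Γ) (x : X) : qm Γ (γ • x) = qm Γ x := qm_eq.2 ⟨γ, rfl⟩

lemma qm_surj (w : Q Γ X) : ∃ x, qm Γ x = w := Quotient.exists_rep w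

@[simp] lemma qm_out (w : Q Γ X) : qm Γ w.out = w := Quotient.out_eq w

lemma mem_qs {S : Set X} (hS : Ivt Γ S) {x : X} : qm Γ x ∈ qs Γ S ↔ x ∈ S := by
  refine ⟨?_, fun h => ⟨x, h, rfl⟩⟩
  rintro ⟨y, hy, e⟩
  obtain ⟨γ, rfl⟩ := qm_eq.1 e.symm
  exact hS γ y hy

lemma dsc_qm {g : X → Z} {x : X} (h : ∀ γ : Γ, g (γ • x) = g x) : dsc Γ g (qm Γ x) = g x := by
  obtain ⟨γ, e⟩ := qm_eq.1 (qm_out (qm Γ x))
  rw [dsc, ← e, h]

@[simp] lemma qs_empty : qs Γ (∅ : Set X) = ∅ := image_empty _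

lemma qs_mono {S T : Set X} (h : S ⊆ T) : qs Γ S ⊆ qs Γ T := image_mono h

lemma isOpenQuotientMap_qm [TopologicalSpace X] [ContinuousConstSMul Γ X] :
    IsOpenQuotientMap (qm Γ : X → Q Γ X) := MulAction.isOpenQuotientMap_quotientMk

lemma continuous_qm [TopologicalSpace X] : Continuous (qm Γ : X → Q Γ X) :=
  continuous_quotient_mk'

lemma Ivt.prod {Y : Type} [MulAction Γ Y] {S : Set X} {E : Set Y} (hS : Ivt Γ S) (hE : Ivt Γ E) :
    Ivt Γ (S ×ˢ E) := fun γ _ hx => ⟨hS γ _ hx.1, hE γ _ hx.2⟩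

lemma Ivt.inter {S T : Set X} (hS : Ivt Γ S) (hT : Ivt Γ T) : Ivt Γ (S ∩ T) :=
  fun γ _ hx => ⟨hS γ _ hx.1, hT γ _ hx.2⟩

lemma Ivt.diff {S T : Set X} (hS : Ivt Γ S) (hT : Ivt Γ T) : Ivt Γ (S \ T) :=
  fun γ x hx => ⟨hS γ _ hx.1, fun h => hx.2 (by simpa using hT γ⁻¹ _ h)⟩

lemma Ivt.mono {Λ Λ' : Subgroup Γ} (h : Λ ≤ Λ') {S : Set X} (hS : Ivt Λ' S) : Ivt Λ S :=
  fun γ x hx => hS ⟨γ, h γ.2⟩ x hx

/-- A space with the action through a homomorphism. -/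
def Via {Λ Γ : Type} [Group Λ] [Group Γ] (_φ : Λ →* Γ) (X : Type) : Type := X

instance {Λ : Type} [Group Λ] (φ : Λ →* Γ) : MulAction Λ (Via φ X) := MulAction.compHom X φ

instance {Λ : Type} [Group Λ] (φ : Λ →* Γ) {X : Type} [h : TopologicalSpace X] :
    TopologicalSpace (Via φ X) := h

lemma via_smul {Λ : Type} [Group Λ] (φ : Λ →* Γ) (l : Λ) (x : Via φ X) :
    l • x = (φ l • (show X from x) : X) := rfl

/-- `J` embeds the bundle associated with `F₀` over `S` into the trivial bundle. -/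
structure Emb (Γ : Type) [Group Γ] [MulAction Γ X] [TopologicalSpace X] {F : Type}
    [AddCommGroup F] [Module ℂ F] [TopologicalSpace F] [MulAction Γ F]
    (S : Set X) (F₀ : Submodule ℂ F) (J : X → F →ₗ[ℂ] (ℕ → ℂ)) : Prop where
  ivt : Ivt Γ (F₀ : Set F)
  cont : ContinuousOn (fun p : X × F => J p.1 p.2) (S ×ˢ (F₀ : Set F))
  inv : ∀ γ : Γ, ∀ x ∈ S, ∀ v ∈ F₀, J (γ • x) (γ • v) = J x v
  inj : ∀ x ∈ S, ∀ v ∈ F₀, J x v = 0 → v = 0

/-- The associated family of subspaces. -/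
def asV (Γ : Type) [Group Γ] [MulAction Γ X] {F : Type} [AddCommGroup F] [Module ℂ F]
    (F₀ : Submodule ℂ F) (J : X → F →ₗ[ℂ] (ℕ → ℂ)) : Q Γ X → Submodule ℂ (ℕ → ℂ) :=
  dsc Γ fun x => F₀.map (J x)

/-- Data showing that a circle acts with weight one on `F₀` and trivially on `S₀`: an invariant
norm `N` and an absorbing map `α`. -/
structure Wt (Γ : Type) [Group Γ] [MulAction Γ X] {Y F : Type} [MulAction Γ Y]
    [TopologicalSpace Y] [AddCommGroup F] [Module ℂ F] [TopologicalSpace F] [MulAction Γ F]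
    (S₀ : Set X) (E : Set Y) (F₀ : Submodule ℂ F) (N : F → ℝ) (α : Y × F → Y) : Prop where
  cN : ContinuousOn N F₀
  pos : ∀ v ∈ F₀, v ≠ 0 → 0 < N v
  hom : ∀ a : ℂ, ∀ v ∈ F₀, N (a • v) = ‖a‖ * N v
  inv : ∀ γ : Γ, ∀ v ∈ F₀, N (γ • v) = N v
  cα : ContinuousOn α (E ×ˢ ((F₀ : Set F) \ {0}))
  map : MapsTo α (E ×ˢ ((F₀ : Set F) \ {0})) E
  equiv : ∀ γ : Γ, ∀ x ∈ E ×ˢ ((F₀ : Set F) \ {0}), α (γ • x) = γ • α x
  circ : ∀ a : ℂ, ‖a‖ = 1 → ∃ γ : Γ, (∀ z ∈ S₀, γ • z = z) ∧ (∀ v ∈ F₀, γ • v = a • v) ∧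
    ∀ y ∈ E, ∀ v ∈ F₀, v ≠ 0 → α (y, a • v) = γ • α (y, v)

end quot

section proj

/-- The ambient space of the infinite projective space (it has one extra point). -/
abbrev PA : Type := Q ℂˣ (ℕ → ℂ)

/-- The line through `v`. -/
def pm (v : ℕ → ℂ) : PA := qm ℂˣ v

/-- The infinite projective space. -/
def Pz : Set PA := pm '' {0}ᶜ

/-- The open set where one of the first `r` coordinates is nonzero. -/
def Uo (r : ℕ) : Set PA := pm '' {v | ∃ i < r, v i ≠ 0}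

/-- The projective space of the first `r` coordinates. -/
def CP (r : ℕ) : Set PA := pm '' {v | v ≠ 0 ∧ ∀ j, r ≤ j → v j = 0}

/-- The universal cocycles. -/
def IsU (u : ℕ → TC PA →ₗ[ℚ] ℚ) : Prop :=
  ∀ n, Coc (2 * n) (u n) Pz (Uo n) ∧ Kun (u n) (Uo (n + 1)) (Uo n)

variable {W : Type} [TopologicalSpace W]

/-- `s` is a continuous frame of `V` over `S`. -/
structure Fr {r : ℕ} (S : Set W) (V : W → Submodule ℂ (ℕ → ℂ)) (s : Fin r → W → ℕ → ℂ) :
    Prop where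
  cont : ∀ i, ContinuousOn (s i) S
  li : ∀ w ∈ S, LinearIndependent ℂ fun i => s i w
  sp : ∀ w ∈ S, Submodule.span ℂ (range fun i => s i w) = V w

/-- `V` is a vector bundle of rank `r` over `S`. -/
def LF (r : ℕ) (S : Set W) (V : W → Submodule ℂ (ℕ → ℂ)) : Prop :=
  ∀ w₀ ∈ S, ∃ U, IsOpen U ∧ w₀ ∈ U ∧ ∃ s : Fin r → W → ℕ → ℂ, Fr (S ∩ U) V s

/-- The total space. -/
def Tot {W : Type} (S : Set W) (V : W → Submodule ℂ (ℕ → ℂ)) : Set (W × (ℕ → ℂ)) :=
  {x | x.1 ∈ S ∧ x.2 ∈ V x.1}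

/-- The total space minus the zero section over the complement of `T`. -/
def TotC {W : Type} (S T : Set W) (V : W → Submodule ℂ (ℕ → ℂ)) : Set (W × (ℕ → ℂ)) :=
  {x | x ∈ Tot S V ∧ (x.1 ∈ T ∨ x.2 ≠ 0)}

/-- The projective bundle. -/
def PV {W : Type} (S : Set W) (V : W → Submodule ℂ (ℕ → ℂ)) : Set (W × PA) :=
  {x | x.1 ∈ S ∧ ∃ v ∈ V x.1, v ≠ 0 ∧ pm v = x.2}

lemma Fr.mono {r : ℕ} {S T : Set W} {V : W → Submodule ℂ (ℕ → ℂ)} {s : Fin r → W → ℕ → ℂ}
    (h : Fr S V s) (hT : T ⊆ S) : Fr T V s :=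
  ⟨fun i => (h.cont i).mono hT, fun w hw => h.li w (hT hw), fun w hw => h.sp w (hT hw)⟩

lemma LF.mono {r : ℕ} {S T : Set W} {V : W → Submodule ℂ (ℕ → ℂ)} (h : LF r S V) (hT : T ⊆ S) :
    LF r T V := fun w hw => by
  obtain ⟨U, h1, h2, s, h3⟩ := h w (hT hw)
  exact ⟨U, h1, h2, s, h3.mono (inter_subset_inter_left _ hT)⟩

lemma LF.up {r : ℕ} {S : Set W} {V : W → Submodule ℂ (ℕ → ℂ)} (h : LF r S V) (B : Type)
    [TopologicalSpace B] : LF r (up B S) fun x => V x.2 := fun w hw => by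
  obtain ⟨U, h1, h2, s, h3⟩ := h w.2 hw
  exact ⟨Prod.snd ⁻¹' U, h1.preimage continuous_snd, h2, fun i x => s i x.2,
    fun i => (h3.cont i).comp continuous_snd.continuousOn fun _ hx => hx,
    fun x hx => h3.li x.2 hx, fun x hx => h3.sp x.2 hx⟩

end proj

end

end Pool.Agent.Bet
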