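import Mathlib

/-! Graded singular chains with rational coefficients (adapted from the integral toolkit). -/

open Set

namespace Pool.Agent.Bet.G

noncomputable section

/-- The standard simplex with `k` vertices (of dimension `k - 1`). -/
abbrev Dl (k : ℕ) : Type := stdSimplex ℝ (Fin k)

/-- Singular simplices with `k` vertices. -/
abbrev Sx (X : Type*) [TopologicalSpace X] (k : ℕ) := C(Dl k, X)

/-- Rational singular chains on simplices with `k` vertices. -/
abbrev Ch (X : Type*) [TopologicalSpace X] (k : ℕ) := Sx X k →₀ ℚ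

/-- The face map omitting the vertex `i`. -/
def face {k : ℕ} (i : Fin (k + 1)) : C(Dl k, Dl (k + 1)) :=
  ⟨stdSimplex.map i.succAbove, stdSimplex.continuous_map _⟩

variable {X Y Z : Type*} [TopologicalSpace X] [TopologicalSpace Y] [TopologicalSpace Z]

/-- The singular boundary: the alternating sum of the faces. -/
def bd {k : ℕ} : Ch X (k + 1) →ₗ[ℚ] Ch X k :=
  ∑ i : Fin (k + 1), (-1 : ℚ) ^ (i : ℕ) • Finsupp.lmapDomain ℚ ℚ fun σ => σ.comp (face i)

/-- The chain map induced by a continuous map. -/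
def push {k : ℕ} (f : C(X, Y)) : Ch X k →ₗ[ℚ] Ch Y k :=
  Finsupp.lmapDomain ℚ ℚ fun σ => f.comp σ

/-- Chains all of whose simplices lie in `A`. -/
def ChIn (A : Set X) (k : ℕ) : Submodule ℚ (Ch X k) :=
  Finsupp.supported ℚ ℚ {σ | range σ ⊆ A}

@[simp] lemma face_same {k : ℕ} (i : Fin (k + 1)) (t : Dl k) : (face i t) i = 0 := by
  change FunOnFinite.linearMap ℝ ℝ i.succAbove t i = 0
  rw [FunOnFinite.linearMap_apply_apply]
  refine Finset.sum_eq_zero fun j hj => ?_
  simp at hj

@[simp] lemma face_succAbove {k : ℕ} (i : Fin (k + 1)) (t : Dl k) (j : Fin k) :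
    (face i t) (i.succAbove j) = t j := by
  change FunOnFinite.linearMap ℝ ℝ i.succAbove t (i.succAbove j) = t j
  rw [FunOnFinite.linearMap_apply_apply]
  have : (Finset.univ.filter fun x : Fin k => i.succAbove x = i.succAbove j) = {j} := by
    ext x; simp
  rw [this, Finset.sum_singleton]

lemma exists_face {k : ℕ} (i : Fin (k + 1)) (t : Dl (k + 1)) (h : t i = 0) :
    ∃ s : Dl k, face i s = t := by
  refine ⟨⟨fun j => t (i.succAbove j), fun j => t.2.1 _, ?_⟩, ?_⟩
  · have := t.2.2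
    rw [Fin.sum_univ_succAbove _ i] at this
    have h' : t.1 i = 0 := h
    rw [h', zero_add] at this
    exact this
  · ext j
    refine Fin.succAboveCases i ?_ (fun j => ?_) j
    · rw [face_same, h]
    · rw [face_succAbove]; rfl

lemma face_comp_face {k : ℕ} (i : Fin (k + 2)) (j : Fin (k + 1)) :
    (face (i.succAbove j)).comp (face (j.predAbove i)) = (face i).comp (face j) := by
  ext1 t
  change stdSimplex.map _ (stdSimplex.map _ t) = stdSimplex.map _ (stdSimplex.map _ t)
  rw [stdSimplex.map_comp_apply, stdSimplex.map_comp_apply]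
  congr 1
  funext l
  exact Fin.succAbove_succAbove_succAbove_predAbove i j l

/-- the `i`-th face operator -/
def bdi {k : ℕ} (i : Fin (k + 1)) : Ch X (k + 1) →ₗ[ℚ] Ch X k :=
  Finsupp.lmapDomain ℚ ℚ fun σ => σ.comp (face i)

@[simp] lemma bdi_single {k : ℕ} (i : Fin (k + 1)) (σ : C(Dl (k + 1), X)) (m : ℚ) :
    bdi i (Finsupp.single σ m) = Finsupp.single (σ.comp (face i)) m := by
  simp [bdi, Finsupp.mapDomain_single]

lemma bd_eq {k : ℕ} (c : Ch X (k + 1)) :
    bd c = ∑ i : Fin (k + 1), (-1 : ℚ) ^ (i : ℕ) • bdi i c := by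
  simp [bd, bdi, LinearMap.sum_apply]

lemma bd_single {k : ℕ} (σ : C(Dl (k + 1), X)) (m : ℚ) :
    bd (Finsupp.single σ m) =
      ∑ i : Fin (k + 1), (-1 : ℚ) ^ (i : ℕ) • Finsupp.single (σ.comp (face i)) m := by
  simp only [bd_eq, bdi_single]

@[simp] lemma push_single {k : ℕ} (f : C(X, Y)) (σ : C(Dl k, X)) (m : ℚ) :
    push f (Finsupp.single σ m) = Finsupp.single (f.comp σ) m := by
  simp [push, Finsupp.mapDomain_single]

lemma push_push {k : ℕ} (g : C(Y, Z)) (f : C(X, Y)) (c : Ch X k) :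
    push g (push f c) = push (g.comp f) c := by
  induction c using Finsupp.induction_linear with
  | zero => simp
  | add a b ha hb => simp [ha, hb]
  | single σ m => simp [ContinuousMap.comp_assoc]

@[simp] lemma push_id {k : ℕ} (c : Ch X k) : push (ContinuousMap.id X) c = c := by
  induction c using Finsupp.induction_linear with
  | zero => simp
  | add a b ha hb => simp [ha, hb]
  | single σ m => simp

lemma bdi_push {k : ℕ} (i : Fin (k + 1)) (f : C(X, Y)) (c : Ch X (k + 1)) :
    bdi i (push f c) = push f (bdi i c) := by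
  induction c using Finsupp.induction_linear with
  | zero => simp
  | add a b ha hb => simp [ha, hb]
  | single σ m => simp [ContinuousMap.comp_assoc]

lemma bd_push {k : ℕ} (f : C(X, Y)) (c : Ch X (k + 1)) : bd (push f c) = push f (bd c) := by
  simp only [bd_eq, bdi_push, map_sum, map_smul]

@[simp] lemma bd_bd {k : ℕ} (c : Ch X (k + 2)) : bd (bd c) = 0 := by
  induction c using Finsupp.induction_linear with
  | zero => simp
  | add a b ha hb => simp [ha, hb]
  | single σ m =>
    rw [bd_single, map_sum]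
    simp only [map_smul, bd_single, Finset.smul_sum]
    rw [← Finset.sum_product']
    refine Finset.sum_involution (fun p _ => (p.1.succAbove p.2, p.2.predAbove p.1)) ?_ ?_ ?_ ?_
    · rintro ⟨i, j⟩ _
      simp only [smul_smul, ← pow_add, ContinuousMap.comp_assoc, face_comp_face]
      rw [Fin.neg_one_pow_succAbove_add_predAbove, neg_smul, add_neg_cancel]
    · rintro ⟨i, j⟩ _ _ h
      exact Fin.succAbove_ne i j (congrArg Prod.fst h)
    · simp
    · rintro ⟨i, j⟩ _
      simp [Fin.succAbove_succAbove_predAbove, Fin.predAbove_predAbove_succAbove]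

lemma mem_ChIn {A : Set X} {k : ℕ} {c : Ch X k} :
    c ∈ ChIn A k ↔ ∀ σ ∈ c.support, range σ ⊆ A := Iff.rfl

lemma single_mem_ChIn {A : Set X} {k : ℕ} {σ : C(Dl k, X)} (m : ℚ) (h : ∀ t, σ t ∈ A) :
    Finsupp.single σ m ∈ ChIn A k :=
  Finsupp.single_mem_supported ℚ m (range_subset_iff.2 h)

lemma ChIn_mono {A B : Set X} (h : A ⊆ B) (k : ℕ) : ChIn A k ≤ ChIn B k :=
  fun _ hc σ hσ => (mem_ChIn.1 hc σ hσ).trans h

@[simp] lemma mem_ChIn_univ {k : ℕ} (c : Ch X k) : c ∈ ChIn univ k :=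
  fun _ _ => subset_univ _

lemma mem_ChIn_inter {A B : Set X} {k : ℕ} {c : Ch X k} :
    c ∈ ChIn (A ∩ B) k ↔ c ∈ ChIn A k ∧ c ∈ ChIn B k := by
  simp only [mem_ChIn, subset_inter_iff]
  exact ⟨fun h => ⟨fun σ hσ => (h σ hσ).1, fun σ hσ => (h σ hσ).2⟩,
    fun h σ hσ => ⟨h.1 σ hσ, h.2 σ hσ⟩⟩

lemma mem_ChIn_empty {k : ℕ} {c : Ch X (k + 1)} : c ∈ ChIn (∅ : Set X) (k + 1) ↔ c = 0 := by
  constructor
  · intro h
    by_contra hc
    obtain ⟨σ, hσ⟩ := Finsupp.support_nonempty_iff.2 hc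
    exact (mem_ChIn.1 h σ hσ ⟨stdSimplex.vertex 0, rfl⟩)
  · rintro rfl; exact Submodule.zero_mem _

/-- every chain without vertices lies in every set -/
@[simp] lemma mem_ChIn_zero (A : Set X) (c : Ch X 0) : c ∈ ChIn A 0 := by
  rintro σ - _ ⟨t, rfl⟩
  have := t.2.2
  simp at this

/-- induction principle for chains in a set -/
lemma ChIn_induction {A : Set X} {k : ℕ} {P : Ch X k → Prop} {c : Ch X k} (hc : c ∈ ChIn A k)
    (h0 : P 0) (hadd : ∀ a b, P a → P b → P (a + b))
    (hs : ∀ (σ : C(Dl k, X)) (m : ℚ), (∀ t, σ t ∈ A) → P (Finsupp.single σ m)) : P c := by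
  rw [← Finsupp.sum_single c, Finsupp.sum]
  refine Finset.sum_induction _ P hadd h0 fun σ hσ => hs σ _ fun t => ?_
  exact mem_ChIn.1 hc σ hσ ⟨t, rfl⟩

/-- a linear map sending the simplices in `A` to `S` sends `ChIn A` to `S` -/
lemma map_mem_of_ChIn {A : Set X} {k : ℕ} {M : Type*} [AddCommGroup M] [Module ℚ M]
    (φ : Ch X k →ₗ[ℚ] M) (S : Submodule ℚ M)
    (h : ∀ σ : C(Dl k, X), (∀ t, σ t ∈ A) → φ (Finsupp.single σ 1) ∈ S) {c : Ch X k}
    (hc : c ∈ ChIn A k) : φ c ∈ S := by
  refine ChIn_induction (P := fun c => φ c ∈ S) hc (by simp)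
    (fun a b ha hb => by simpa using S.add_mem ha hb) ?_
  intro σ m hσ
  have : Finsupp.single σ m = m • Finsupp.single σ (1 : ℚ) := by simp
  rw [this, map_smul]
  exact S.smul_mem _ (h σ hσ)

lemma bdi_mem_ChIn {A : Set X} {k : ℕ} (i : Fin (k + 1)) {c : Ch X (k + 1)}
    (hc : c ∈ ChIn A (k + 1)) : bdi i c ∈ ChIn A k :=
  map_mem_of_ChIn (bdi i) _ (fun σ hσ => by
    rw [bdi_single]; exact single_mem_ChIn _ fun t => hσ _) hc

lemma bd_mem_ChIn {A : Set X} {k : ℕ} {c : Ch X (k + 1)} (hc : c ∈ ChIn A (k + 1)) :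
    bd c ∈ ChIn A k := by
  rw [bd_eq]
  exact Submodule.sum_mem _ fun i _ => Submodule.smul_mem _ _ (bdi_mem_ChIn i hc)

lemma push_mem_ChIn {A : Set X} {B : Set Y} {k : ℕ} (f : C(X, Y)) (h : MapsTo f A B)
    {c : Ch X k} (hc : c ∈ ChIn A k) : push f c ∈ ChIn B k :=
  map_mem_of_ChIn (push f) _ (fun σ hσ => by
    rw [push_single]; exact single_mem_ChIn _ fun t => h (hσ t)) hc

lemma push_congr {A : Set X} {k : ℕ} {f g : C(X, Y)} (h : EqOn f g A) {c : Ch X k}
    (hc : c ∈ ChIn A k) : push f c = push g c := by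
  refine ChIn_induction (P := fun c => push f c = push g c) hc (by simp)
    (fun a b ha hb => by simp [ha, hb]) ?_
  intro σ m hσ
  rw [push_single, push_single]
  congr 1
  ext t
  exact h (hσ t)

/-- the carrier of a chain -/
def car {k : ℕ} (c : Ch X k) : Set X := ⋃ σ ∈ c.support, range σ

lemma isCompact_car {k : ℕ} (c : Ch X k) : IsCompact (car c) :=
  c.support.isCompact_biUnion fun σ _ => isCompact_range σ.continuous

lemma mem_ChIn_iff_car {A : Set X} {k : ℕ} {c : Ch X k} : c ∈ ChIn A k ↔ car c ⊆ A := by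
  simp [mem_ChIn, car]

end

end Pool.Agent.Bet.G
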