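import Pool.Agent.P.MP_d34769_ag.BZ1

/-! Affine simplices, cones and natural chain operators. -/

open Set

namespace Pool.Agent.Bet.G

noncomputable section

variable {X Y Z : Type*} [TopologicalSpace X] [TopologicalSpace Y] [TopologicalSpace Z]

/-- the vertices of a singular simplex -/
def vx {j : ℕ} (σ : C(Dl j, X)) : Fin j → X := fun i => σ (stdSimplex.vertex i)

lemma vx_face {j : ℕ} (σ : C(Dl (j + 1), X)) (i : Fin (j + 1)) :
    vx (σ.comp (face i)) = vx σ ∘ i.succAbove := by
  funext l
  change σ (stdSimplex.map _ (stdSimplex.vertex l)) = _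
  rw [stdSimplex.map_vertex]
  rfl

lemma vx_comp {j : ℕ} (f : C(X, Y)) (σ : C(Dl j, X)) : vx (f.comp σ) = f ∘ vx σ := rfl

/-- spaces with affine simplices -/
class Cb (W : Type*) [TopologicalSpace W] where
  comb : ∀ {j : ℕ}, (Fin j → W) → C(Dl j, W)
  comb_face : ∀ {j : ℕ} (a : Fin (j + 1) → W) (i : Fin (j + 1)),
    (comb a).comp (face i) = comb (a ∘ i.succAbove)
  vx_comb : ∀ {j : ℕ} (a : Fin j → W), vx (comb a) = a

export Cb (comb comb_face vx_comb)

section Convex

variable {E : Type*} [AddCommGroup E] [Module ℝ E] [TopologicalSpace E] [ContinuousAdd E]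
  [ContinuousSMul ℝ E] {s : Set E}

/-- affine simplex in a convex set -/
def cvx (hs : Convex ℝ s) {j : ℕ} (a : Fin j → s) : C(Dl j, s) :=
  ⟨fun t => ⟨∑ i, t i • (a i : E),
      hs.sum_mem (fun i _ => t.2.1 i) t.2.2 fun i _ => (a i).2⟩, by
    refine Continuous.subtype_mk (continuous_finsetSum _ fun i _ => ?_) _
    exact ((continuous_apply i).comp continuous_subtype_val).smul continuous_const⟩

/-- convex sets have affine simplices -/
@[reducible] def cbConvex (hs : Convex ℝ s) : Cb s where
  comb := cvx hs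
  comb_face a i := by
    ext t
    change ∑ l, (face i t) l • (a l : E) = ∑ l, t l • (a (i.succAbove l) : E)
    rw [Fin.sum_univ_succAbove _ i]
    simp
  vx_comb a := by
    funext i
    ext
    change ∑ l, (stdSimplex.vertex i : Dl _) l • (a l : E) = a i
    simp [Pi.single_apply]

end Convex

instance cbDl (k : ℕ) : Cb (Dl k) := cbConvex (convex_stdSimplex ℝ (Fin k))

instance cbI : Cb unitInterval := cbConvex (convex_Icc (0 : ℝ) 1)

instance cbProd {W W' : Type*} [TopologicalSpace W] [TopologicalSpace W'] [Cb W] [Cb W'] :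
    Cb (W × W') where
  comb a := (comb (Prod.fst ∘ a)).prodMk (comb (Prod.snd ∘ a))
  comb_face a i := by
    ext1 t
    refine Prod.ext ?_ ?_
    · exact ContinuousMap.congr_fun (comb_face (Prod.fst ∘ a) i) t
    · exact ContinuousMap.congr_fun (comb_face (Prod.snd ∘ a) i) t
  vx_comb a := by
    funext i
    exact Prod.ext (congrFun (vx_comb (Prod.fst ∘ a)) i) (congrFun (vx_comb (Prod.snd ∘ a)) i)

lemma comb_Dl {k j : ℕ} (a : Fin j → Dl k) (t : Dl j) (m : Fin k) :
    (comb a t) m = ∑ i, t i * a i m := by
  change (∑ i, t i • (a i : Fin k → ℝ)) m = _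
  rw [Finset.sum_apply]
  rfl

lemma comb_const_I {j : ℕ} (x : unitInterval) (t : Dl j) : comb (fun _ : Fin j => x) t = x := by
  ext
  change ∑ i, t i • (x : ℝ) = x
  rw [← Finset.sum_smul, stdSimplex.sum_eq_one, one_smul]

section Cone

variable {W W' : Type*} [TopologicalSpace W] [TopologicalSpace W'] [Cb W] [Cb W']

/-- affine maps -/
def Aff (f : C(W, W')) : Prop := ∀ (j : ℕ) (a : Fin j → W), f.comp (comb a) = comb (f ∘ a)

/-- straightening -/
def str {j : ℕ} : Ch W j →ₗ[ℚ] Ch W j := Finsupp.lmapDomain ℚ ℚ fun σ => comb (vx σ)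

/-- cone over the straightened chain -/
def cone (b : W) {j : ℕ} : Ch W j →ₗ[ℚ] Ch W (j + 1) :=
  Finsupp.lmapDomain ℚ ℚ fun σ => comb (Fin.cons b (vx σ))

@[simp] lemma str_single {j : ℕ} (σ : C(Dl j, W)) (m : ℚ) :
    str (Finsupp.single σ m) = Finsupp.single (comb (vx σ)) m := by
  simp [str, Finsupp.mapDomain_single]

@[simp] lemma cone_single (b : W) {j : ℕ} (σ : C(Dl j, W)) (m : ℚ) :
    cone b (Finsupp.single σ m) = Finsupp.single (comb (Fin.cons b (vx σ))) m := by
  simp [cone, Finsupp.mapDomain_single]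

lemma str_cone (b : W) {j : ℕ} (c : Ch W j) : str (cone b c) = cone b c := by
  induction c using Finsupp.induction_linear with
  | zero => simp
  | add a b ha hb => simp [ha, hb]
  | single σ m => simp [vx_comb]

lemma str_push {f : C(W, W')} (hf : Aff f) {j : ℕ} (c : Ch W j) :
    str (push f c) = push f (str c) := by
  induction c using Finsupp.induction_linear with
  | zero => simp
  | add a b ha hb => simp [ha, hb]
  | single σ m => simp [vx_comp, hf j]

lemma bdi_zero_cone (b : W) {j : ℕ} (c : Ch W j) : bdi 0 (cone b c) = str c := by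
  induction c using Finsupp.induction_linear with
  | zero => simp
  | add a b ha hb => simp [ha, hb]
  | single σ m =>
    rw [cone_single, bdi_single, comb_face, str_single]
    rfl

lemma bdi_succ_cone (b : W) {j : ℕ} (i : Fin (j + 1)) (c : Ch W (j + 1)) :
    bdi i.succ (cone b c) = cone b (bdi i c) := by
  induction c using Finsupp.induction_linear with
  | zero => simp
  | add a b ha hb => simp [ha, hb]
  | single σ m =>
    rw [cone_single, bdi_single, comb_face, bdi_single, cone_single, vx_face,
      Fin.cons_comp_succ_succAbove]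
    rfl

lemma bd_cone_zero (b : W) (c : Ch W 0) : bd (cone b c) = str c := by
  rw [bd_eq, Fin.sum_univ_succ]
  simp [bdi_zero_cone]

lemma bd_cone (b : W) {j : ℕ} (c : Ch W (j + 1)) :
    bd (cone b c) = str c - cone b (bd c) := by
  rw [bd_eq, Fin.sum_univ_succ, bdi_zero_cone, bd_eq c, map_sum, sub_eq_add_neg,
    ← Finset.sum_neg_distrib]
  simp [bdi_succ_cone, pow_succ]

end Cone

lemma aff_face {k : ℕ} (i : Fin (k + 1)) : Aff (face i) := by
  intro j a
  ext t m
  change (face i (comb a t)) m = (comb (face i ∘ a) t) m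
  rw [comb_Dl]
  refine Fin.succAboveCases i ?_ (fun l => ?_) m
  · simp
  · simp [comb_Dl]

lemma comb_vx_id (k : ℕ) : comb (vx (ContinuousMap.id (Dl k))) = ContinuousMap.id (Dl k) := by
  ext t m
  change (comb (vx (ContinuousMap.id (Dl k))) t) m = t m
  rw [comb_Dl]
  change ∑ i, t i * (stdSimplex.vertex i : Dl k) m = _
  simp [Pi.single_apply]

/-- the identity simplex -/
def io (k : ℕ) : Ch (Dl k) k := Finsupp.single (ContinuousMap.id _) 1

lemma str_io (k : ℕ) : str (io k) = io k := by rw [io, str_single, comb_vx_id]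

lemma push_io {k : ℕ} (σ : C(Dl k, X)) : push σ (io k) = Finsupp.single σ 1 := by
  simp [io]

/-- natural operator given by a universal chain -/
def nat {k j : ℕ} (u : Ch (Dl k) j) : Ch X k →ₗ[ℚ] Ch X j :=
  Finsupp.linearCombination ℚ fun σ => push σ u

@[simp] lemma nat_single {k j : ℕ} (u : Ch (Dl k) j) (σ : C(Dl k, X)) (m : ℚ) :
    nat u (Finsupp.single σ m) = m • push σ u := by simp [nat]

lemma push_nat {k j : ℕ} (u : Ch (Dl k) j) (f : C(X, Y)) (c : Ch X k) :
    push f (nat u c) = nat u (push f c) := by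
  induction c using Finsupp.induction_linear with
  | zero => simp
  | add a b ha hb => simp [ha, hb]
  | single σ m => simp [push_push]

lemma nat_mem_ChIn {k j : ℕ} (u : Ch (Dl k) j) {A : Set X} {c : Ch X k} (hc : c ∈ ChIn A k) :
    nat u c ∈ ChIn A j :=
  map_mem_of_ChIn (nat u) _ (fun σ hσ => by
    rw [nat_single, one_smul]
    exact push_mem_ChIn σ (A := univ) (fun t _ => hσ t) (mem_ChIn_univ u)) hc

lemma str_nat_bd {k j : ℕ} {u : Ch (Dl k) j} (hu : str u = u) :
    str (nat u (bd (io (k + 1)))) = nat u (bd (io (k + 1))) := by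
  simp [io, bd_single, str_push (aff_face _), hu]

/-- product with the identity of the interval -/
def pI (f : C(X, Y)) : C(X × unitInterval, Y × unitInterval) := f.prodMap (ContinuousMap.id _)

/-- inclusion at a level -/
def lev (X : Type*) [TopologicalSpace X] (s : unitInterval) : C(X, X × unitInterval) :=
  (ContinuousMap.id X).prodMk (ContinuousMap.const X s)

lemma pI_comp (g : C(Y, Z)) (f : C(X, Y)) : (pI g).comp (pI f) = pI (g.comp f) := rfl

lemma pI_lev (f : C(X, Y)) (s : unitInterval) : (pI f).comp (lev X s) = (lev Y s).comp f := rfl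

lemma aff_pI {W W' : Type*} [TopologicalSpace W] [TopologicalSpace W'] [Cb W] [Cb W']
    {f : C(W, W')} (hf : Aff f) : Aff (pI f) := by
  intro j a
  ext1 t
  exact Prod.ext (ContinuousMap.congr_fun (hf j (Prod.fst ∘ a)) t) rfl

lemma aff_lev {W : Type*} [TopologicalSpace W] [Cb W] (s : unitInterval) : Aff (lev W s) := by
  intro j a
  ext1 t
  exact Prod.ext rfl (comb_const_I s t).symm

/-- natural operator into the cylinder -/
def np {k j : ℕ} (u : Ch (Dl k × unitInterval) j) : Ch X k →ₗ[ℚ] Ch (X × unitInterval) j :=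
  Finsupp.linearCombination ℚ fun σ => push (pI σ) u

@[simp] lemma np_single {k j : ℕ} (u : Ch (Dl k × unitInterval) j) (σ : C(Dl k, X)) (m : ℚ) :
    np u (Finsupp.single σ m) = m • push (pI σ) u := by simp [np]

lemma push_np {k j : ℕ} (u : Ch (Dl k × unitInterval) j) (f : C(X, Y)) (c : Ch X k) :
    push (pI f) (np u c) = np u (push f c) := by
  induction c using Finsupp.induction_linear with
  | zero => simp
  | add a b ha hb => simp [ha, hb]
  | single σ m => simp [push_push, pI_comp]

lemma np_mem_ChIn {k j : ℕ} (u : Ch (Dl k × unitInterval) j) {A : Set X} {c : Ch X k}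
    (hc : c ∈ ChIn A k) : np u c ∈ ChIn (A ×ˢ univ) j :=
  map_mem_of_ChIn (np u) _ (fun σ hσ => by
    rw [np_single, one_smul]
    exact push_mem_ChIn (pI σ) (A := univ) (fun t _ => mk_mem_prod (hσ t.1) (mem_univ _))
      (mem_ChIn_univ u)) hc

lemma str_np_bd {k j : ℕ} {u : Ch (Dl k × unitInterval) j} (hu : str u = u) :
    str (np u (bd (io (k + 1)))) = np u (bd (io (k + 1))) := by
  simp [io, bd_single, str_push (aff_pI (aff_face _)), hu]

lemma np_lev {k j : ℕ} (u : Ch (Dl k) j) (s : unitInterval) (c : Ch X k) :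
    np (push (lev _ s) u) c = push (lev X s) (nat u c) := by
  induction c using Finsupp.induction_linear with
  | zero => simp
  | add a b ha hb => simp [ha, hb]
  | single σ m => simp [push_push, pI_lev]

lemma np_sub {k j : ℕ} (u v : Ch (Dl k × unitInterval) j) (c : Ch X k) :
    np (u - v) c = np u c - np v c := by
  induction c using Finsupp.induction_linear with
  | zero => simp
  | add a b ha hb => simp only [map_add, ha, hb]; abel
  | single σ m => simp [smul_sub]

@[simp] lemma np_zero {k j : ℕ} (c : Ch X k) : np (0 : Ch (Dl k × unitInterval) j) c = 0 := by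
  induction c using Finsupp.induction_linear with
  | zero => simp
  | add a b ha hb => simp [ha, hb]
  | single σ m => simp

@[simp] lemma nat_io {k : ℕ} (c : Ch X k) : nat (io k) c = c := by
  induction c using Finsupp.induction_linear with
  | zero => simp
  | add a b ha hb => simp [ha, hb]
  | single σ m => simp [push_io]

lemma bd_np {k j : ℕ} {p : Ch (Dl (k + 1) × unitInterval) (j + 1)}
    {w : Ch (Dl (k + 1) × unitInterval) j} {q : Ch (Dl k × unitInterval) j}
    (h : bd p = w - np q (bd (io (k + 1)))) (c : Ch X (k + 1)) :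
    bd (np p c) = np w c - np q (bd c) := by
  induction c using Finsupp.induction_linear with
  | zero => simp
  | add a b ha hb => simp only [map_add, ha, hb]; abel
  | single σ m =>
    have : Finsupp.single σ m = m • push σ (io (k + 1)) := by simp [push_io]
    rw [np_single, np_single, map_smul, bd_push, h, map_sub, push_np, this, map_smul, map_smul,
      bd_push, smul_sub]

/-- the universal homotopy -/
def htpy (w : ∀ k, Ch (Dl k × unitInterval) k) : ∀ k, Ch (Dl k × unitInterval) (k + 1)
  | 0 => 0
  | k + 1 => cone (stdSimplex.barycenter, 0) (w (k + 1) - np (htpy w k) (bd (io (k + 1))))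

theorem bd_htpy {w : ∀ k, Ch (Dl k × unitInterval) k} (h0 : w 0 = 0) (hs : ∀ k, str (w k) = w k)
    (hb : ∀ k, bd (w (k + 1)) = np (w k) (bd (io (k + 1)))) (k : ℕ) :
    bd (htpy w (k + 1)) = w (k + 1) - np (htpy w k) (bd (io (k + 1))) := by
  have hstr : ∀ k, str (htpy w k) = htpy w k := fun k => by
    cases k with
    | zero => simp [htpy]
    | succ k => exact str_cone _ _
  induction k with
  | zero => simp [htpy, bd_cone, hs, hb, h0]
  | succ k ih =>
    rw [htpy, bd_cone, map_sub, map_sub, hs, str_np_bd (hstr _), bd_np ih, hb]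
    simp

end

end Pool.Agent.Bet.G
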