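import Pool.Agent.P.MP_d34769_ag.BZ2

/-! TASK A: barycentric subdivision, small chains, prism operator. -/

open Set Filter

namespace Pool.Agent.Bet.G

noncomputable section

variable {X Y : Type*} [TopologicalSpace X] [TopologicalSpace Y]

/-- the barycentric subdivision of the standard simplex -/
def sdU : ∀ k, Ch (Dl k) k
  | 0 => io 0
  | k + 1 => cone stdSimplex.barycenter (nat (sdU k) (bd (io (k + 1))))

/-- barycentric subdivision -/
def Sd {k : ℕ} : Module.End ℚ (Ch X k) := nat (sdU k)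

lemma Sd_apply {k : ℕ} (c : Ch X k) : Sd c = nat (sdU k) c := rfl

lemma str_sdU (k : ℕ) : str (sdU k) = sdU k := by
  cases k with
  | zero => exact str_io 0
  | succ k => exact str_cone _ _

lemma bd_nat {k j : ℕ} {p : Ch (Dl (k + 1)) (j + 1)} {q : Ch (Dl k) j}
    (h : bd p = nat q (bd (io (k + 1)))) (c : Ch X (k + 1)) : bd (nat p c) = nat q (bd c) := by
  induction c using Finsupp.induction_linear with
  | zero => simp
  | add a b ha hb => simp only [map_add, ha, hb]
  | single σ m =>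
    have : Finsupp.single σ m = m • push σ (io (k + 1)) := by simp [push_io]
    rw [nat_single, map_smul, bd_push, h, push_nat, this, map_smul, map_smul, bd_push]

lemma bd_sdU (k : ℕ) : bd (sdU (k + 1)) = nat (sdU k) (bd (io (k + 1))) := by
  induction k with
  | zero => exact (bd_cone_zero _ _).trans (str_nat_bd (str_sdU 0))
  | succ k ih =>
    rw [sdU, bd_cone, str_nat_bd (str_sdU _), bd_nat ih]
    simp

lemma bd_Sd {k : ℕ} (c : Ch X (k + 1)) : bd (Sd c) = Sd (bd c) := bd_nat (bd_sdU k) c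

lemma bdi_nat {k j : ℕ} {p : Ch (Dl k) (j + 1)} {i : Fin (j + 1)} (h : bdi i p = 0) (c : Ch X k) :
    bdi i (nat p c) = 0 := by
  induction c using Finsupp.induction_linear with
  | zero => simp
  | add a b ha hb => simp only [map_add, ha, hb, add_zero]
  | single σ m => rw [nat_single, map_smul, bdi_push, h]; simp

lemma bdi_Sd_of {k : ℕ} (h : ∀ i : Fin k, bdi i.succ (sdU (k + 1)) = 0) {c : Ch X (k + 1)}
    (hc : bd c = 0) (i : Fin (k + 1)) : bdi i (Sd c) = 0 := by
  refine Fin.cases ?_ (fun i => bdi_nat (h i) c) i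
  have := bd_Sd c
  rw [hc, map_zero, bd_eq, Fin.sum_univ_succ] at this
  simpa [Sd_apply, bdi_nat (h _)] using this

lemma bdi_sdU (k : ℕ) (i : Fin k) : bdi i.succ (sdU (k + 1)) = 0 := by
  induction k with
  | zero => exact i.elim0
  | succ k ih =>
    rw [sdU, bdi_succ_cone, ← Sd_apply, bdi_Sd_of ih (bd_bd _), map_zero]

/-- the homotopy between the identity and the subdivision -/
def Dh {k : ℕ} (c : Ch X k) : Ch X (k + 1) :=
  push ContinuousMap.fst (np (htpy (fun k => push (lev _ 0) (io k) - push (lev _ 0) (sdU k)) k) c)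

lemma Dh_mem {k : ℕ} {A : Set X} {c : Ch X k} (hc : c ∈ ChIn A k) : Dh c ∈ ChIn A (k + 1) :=
  push_mem_ChIn _ (fun _ hx => hx.1) (np_mem_ChIn _ hc)

lemma Dh_add {k : ℕ} (a b : Ch X k) : Dh (a + b) = Dh a + Dh b := by simp [Dh]

lemma bd_Dh {k : ℕ} (c : Ch X (k + 1)) : bd (Dh c) = c - Sd c - Dh (bd c) := by
  have h := bd_htpy (w := fun k => push (lev _ 0) (io k) - push (lev _ 0) (sdU k)) (by simp [sdU])
    (fun k => by simp [str_push (aff_lev _), str_io, str_sdU])
    (fun k => by simp [bd_push, np_sub, np_lev, bd_sdU]) k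
  have e : (ContinuousMap.fst : C(X × unitInterval, X)).comp (lev X 0) = ContinuousMap.id X := rfl
  rw [Dh, bd_push, bd_np h, np_sub, np_lev, np_lev, map_sub, map_sub, push_push, push_push, e]
  simp [Dh, Sd_apply]

lemma Sd_mem {k : ℕ} {A : Set X} {c : Ch X k} (hc : c ∈ ChIn A k) : Sd c ∈ ChIn A k :=
  nat_mem_ChIn _ hc

/-- the sum of the coordinate distances -/
def nn {k : ℕ} (t t' : Dl k) : ℝ := ∑ m, |t m - t' m|

lemma nn_nonneg {k : ℕ} (t t' : Dl k) : 0 ≤ nn t t' := Finset.sum_nonneg fun _ _ => abs_nonneg _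

lemma nn_le {k : ℕ} (t t' : Dl k) : nn t t' ≤ 2 := by
  have : ∀ m, |t m - t' m| ≤ t m + t' m := fun m => by
    have := stdSimplex.zero_le t m
    have := stdSimplex.zero_le t' m
    rw [abs_le]; constructor <;> linarith
  refine (Finset.sum_le_sum fun m _ => this m).trans ?_
  rw [Finset.sum_add_distrib, stdSimplex.sum_eq_one, stdSimplex.sum_eq_one]
  norm_num

lemma dist_le_nn {k : ℕ} (t t' : Dl k) : dist t t' ≤ nn t t' := by
  rw [Subtype.dist_eq, dist_pi_le_iff (nn_nonneg t t')]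
  intro m
  rw [Real.dist_eq]
  exact Finset.single_le_sum (f := fun m => |t m - t' m|) (fun _ _ => abs_nonneg _)
    (Finset.mem_univ m)

lemma nn_comb {k j : ℕ} (a : Fin j → Dl k) {m : Fin k} {c : ℝ} (h : ∀ l, c ≤ a l m)
    (t t' : Dl j) : nn (comb a t) (comb a t') ≤ (1 - c) * nn t t' := by
  let b : Fin j → Fin k → ℝ := fun l x => a l x - if x = m then c else 0
  have hb0 : ∀ l x, 0 ≤ b l x := fun l x => by
    by_cases hx : x = m
    · subst hx; simpa [b] using h l
    · simp [b, hx]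
  have hb1 : ∀ l, ∑ x, b l x = 1 - c := fun l => by simp [b, Finset.sum_sub_distrib]
  have key : ∀ x, (comb a t) x - (comb a t') x = ∑ l, (t l - t' l) * b l x := fun x => by
    simp only [comb_Dl, b, mul_sub, sub_mul, Finset.sum_sub_distrib, ← Finset.sum_mul,
      stdSimplex.sum_eq_one]
    ring
  calc nn (comb a t) (comb a t') ≤ ∑ x, ∑ l, |t l - t' l| * b l x := by
        refine Finset.sum_le_sum fun x _ => ?_
        rw [key]
        refine (Finset.abs_sum_le_sum_abs _ _).trans (le_of_eq ?_)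
        exact Finset.sum_congr rfl fun l _ => by rw [abs_mul, abs_of_nonneg (hb0 l x)]
    _ = (1 - c) * nn t t' := by
        rw [Finset.sum_comm, nn, Finset.mul_sum]
        exact Finset.sum_congr rfl fun l _ => by rw [← Finset.mul_sum, hb1, mul_comm]

/-- affine simplices whose vertices have a common large coordinate -/
def Flag (k : ℕ) : Set C(Dl (k + 1), Dl (k + 1)) :=
  {σ | comb (vx σ) = σ ∧ ∃ m, ∀ l, ((k + 1 : ℕ) : ℝ)⁻¹ ≤ vx σ l m}

lemma map_mem_of_supported {α M : Type*} [AddCommGroup M] [Module ℚ M] {s : Set α} (φ : (α →₀ ℚ) →ₗ[ℚ] M)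
    (S : Submodule ℚ M) (h : ∀ σ ∈ s, φ (Finsupp.single σ 1) ∈ S) {c : α →₀ ℚ}
    (hc : c ∈ Finsupp.supported ℚ ℚ s) : φ c ∈ S := by
  rw [Finsupp.supported_eq_span_single] at hc
  refine (Submodule.span_le (p := S.comap φ)).2 ?_ hc
  rintro _ ⟨σ, hσ, rfl⟩
  exact h σ hσ

lemma sdU_flag (k : ℕ) : sdU (k + 1) ∈ Finsupp.supported ℚ ℚ (Flag k) := by
  have hbar : ∀ (k : ℕ) (m : Fin (k + 1)),
      ((k + 1 : ℕ) : ℝ)⁻¹ ≤ (stdSimplex.barycenter : Dl (k + 1)) m := fun k m => by
    change _ ≤ (Fintype.card (Fin (k + 1)) : ℝ)⁻¹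
    simp
  induction k with
  | zero =>
    rw [sdU]
    refine map_mem_of_supported (s := univ) (cone _) _ (fun σ _ => ?_) (by simp)
    rw [cone_single]
    refine Finsupp.single_mem_supported ℚ _ ⟨by rw [vx_comb], 0, fun l => ?_⟩
    rw [vx_comb, Fin.fin_one_eq_zero l]
    exact hbar 0 0
  | succ k ih =>
    rw [sdU, io, bd_single, map_sum, map_sum]
    refine Submodule.sum_mem _ fun i _ => ?_
    rw [map_smul, map_smul, nat_single, one_smul]
    refine Submodule.smul_mem _ _ ?_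
    refine map_mem_of_supported ((cone _).comp (push _)) _ ?_ ih
    rintro σ ⟨-, m, hm⟩
    rw [LinearMap.comp_apply, push_single, cone_single]
    refine Finsupp.single_mem_supported ℚ _ ⟨by rw [vx_comb], i.succAbove m, fun l => ?_⟩
    rw [vx_comb]
    refine Fin.cases (hbar _ _) (fun l => ?_) l
    change _ ≤ face i (vx σ l) (i.succAbove m)
    rw [face_succAbove]
    refine le_trans ?_ (hm l)
    exact inv_anti₀ (by positivity) (by push_cast; linarith)

/-- contracting simplices -/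
def Lip (k : ℕ) (r : ℕ) : Set C(Dl (k + 1), Dl (k + 1)) :=
  {σ | ∀ t t', nn (σ t) (σ t') ≤ (1 - ((k + 1 : ℕ) : ℝ)⁻¹) ^ r * nn t t'}

lemma rate_nonneg (k : ℕ) : 0 ≤ 1 - ((k + 1 : ℕ) : ℝ)⁻¹ :=
  sub_nonneg.2 (inv_le_one_of_one_le₀ (by push_cast; linarith [Nat.cast_nonneg (α := ℝ) k]))

lemma pow_io_lip (k r : ℕ) : (Sd ^ r) (io (k + 1)) ∈ Finsupp.supported ℚ ℚ (Lip k r) := by
  induction r with
  | zero => exact Finsupp.single_mem_supported ℚ _ fun t t' => by simp
  | succ r ih =>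
    rw [pow_succ', Module.End.mul_apply]
    refine map_mem_of_supported Sd _ (fun τ hτ => ?_) ih
    rw [Sd_apply, nat_single, one_smul]
    refine map_mem_of_supported (push τ) _ ?_ (sdU_flag k)
    rintro ρ ⟨h1, m, hm⟩
    rw [push_single]
    refine Finsupp.single_mem_supported ℚ _ fun t t' => (hτ _ _).trans ?_
    rw [pow_succ, mul_assoc]
    refine mul_le_mul_of_nonneg_left ?_ (pow_nonneg (rate_nonneg k) r)
    have := nn_comb (vx ρ) hm t t'
    rwa [h1] at this

lemma push_pow {k : ℕ} (f : C(X, Y)) (r : ℕ) (c : Ch X k) :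
    push f ((Sd ^ r) c) = (Sd ^ r) (push f c) := by
  induction r with
  | zero => rfl
  | succ r ih => rw [pow_succ', pow_succ', Module.End.mul_apply, Module.End.mul_apply, ← ih,
      Sd_apply, Sd_apply, push_nat]

lemma eventually_small {S T : Set X} (hS : IsOpen S) (hT : IsOpen T) {k : ℕ} {c : Ch X (k + 1)}
    (hc : c ∈ ChIn (S ∪ T) (k + 1)) :
    ∀ᶠ r in atTop, (Sd ^ r) c ∈ ChIn S (k + 1) ⊔ ChIn T (k + 1) := by
  refine ChIn_induction (P := fun c => ∀ᶠ r in atTop, (Sd ^ r) c ∈ ChIn S (k + 1) ⊔ ChIn T (k + 1))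
    hc (by simp) (fun a b ha hb => ?_) fun σ m hσ => ?_
  · filter_upwards [ha, hb] with r h1 h2
    rw [map_add]
    exact Submodule.add_mem _ h1 h2
  obtain ⟨δ, hδ, hl⟩ := lebesgue_number_lemma_of_metric (s := (univ : Set (Dl (k + 1))))
    (c := fun b : Bool => σ ⁻¹' (cond b S T)) isCompact_univ
    (fun b => by cases b; exacts [hT.preimage σ.continuous, hS.preimage σ.continuous])
    (fun t _ => by
      rcases hσ t with h | h
      exacts [mem_iUnion.2 ⟨true, h⟩, mem_iUnion.2 ⟨false, h⟩])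
  have hlt : 1 - ((k + 1 : ℕ) : ℝ)⁻¹ < 1 := sub_lt_self _ (by positivity)
  have ht := (tendsto_pow_atTop_nhds_zero_of_lt_one (rate_nonneg k) hlt).eventually
    (gt_mem_nhds (half_pos hδ))
  filter_upwards [ht] with r hr
  have e : Finsupp.single σ m = m • push σ (io (k + 1)) := by simp [push_io]
  rw [e, map_smul, ← push_pow]
  refine Submodule.smul_mem _ _ (map_mem_of_supported (push σ) _ (fun τ hτ => ?_) (pow_io_lip k r))
  obtain ⟨b, hb⟩ := hl (τ (stdSimplex.vertex 0)) trivial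
  have hm : ∀ t, σ (τ t) ∈ cond b S T := fun t => hb <| by
    refine (dist_le_nn _ _).trans_lt ((hτ _ _).trans_lt ?_)
    have := mul_le_mul_of_nonneg_left (nn_le t (stdSimplex.vertex 0))
      (pow_nonneg (rate_nonneg k) r)
    linarith
  rw [push_single]
  cases b
  · exact Submodule.mem_sup_right (single_mem_ChIn _ hm)
  · exact Submodule.mem_sup_left (single_mem_ChIn _ hm)

lemma small_aux {S T : Set X} {k : ℕ} (r : ℕ) {c : Ch X (k + 1)}
    (hc : c ∈ ChIn (S ∪ T) (k + 1)) (hb : bd c ∈ ChIn S k ⊔ ChIn T k)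
    (hr : (Sd ^ r) c ∈ ChIn S (k + 1) ⊔ ChIn T (k + 1)) :
    ∃ d ∈ ChIn (S ∪ T) (k + 2), c - bd d ∈ ChIn S (k + 1) ⊔ ChIn T (k + 1) := by
  induction r generalizing c with
  | zero => exact ⟨0, Submodule.zero_mem _, by simpa using hr⟩
  | succ r ih =>
    obtain ⟨a, ha, b, hb', e⟩ := Submodule.mem_sup.1 hb
    obtain ⟨d, hd, h⟩ := ih (Sd_mem hc) (by
      rw [bd_Sd, ← e, map_add]
      exact Submodule.add_mem_sup (Sd_mem ha) (Sd_mem hb')) (by rwa [pow_succ] at hr)
    refine ⟨Dh c + d, Submodule.add_mem _ (Dh_mem hc) hd, ?_⟩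
    have : c - bd (Dh c + d) = (Sd c - bd d) + (Dh a + Dh b) := by
      rw [map_add, bd_Dh, ← e, Dh_add]; abel
    rw [this]
    exact Submodule.add_mem _ h (Submodule.add_mem_sup (Dh_mem ha) (Dh_mem hb'))

end

variable {X Y : Type*} [TopologicalSpace X] [TopologicalSpace Y]

/-- small chains for a cover by two open sets -/
theorem small {S T : Set X} (hS : IsOpen S) (hT : IsOpen T) {k : ℕ} {c : Ch X (k + 1)}
    (hc : c ∈ ChIn (S ∪ T) (k + 1)) (hb : bd c ∈ ChIn S k ⊔ ChIn T k) :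
    ∃ d ∈ ChIn (S ∪ T) (k + 2), ∃ a ∈ ChIn S (k + 1), ∃ b ∈ ChIn T (k + 1),
      c = bd d + a + b := by
  obtain ⟨r, hr⟩ := (eventually_small hS hT hc).exists
  obtain ⟨d, hd, h⟩ := small_aux r hc hb hr
  obtain ⟨a, ha, b, hb', e⟩ := Submodule.mem_sup.1 h
  exact ⟨d, hd, a, ha, b, hb', by rw [add_assoc, e]; abel⟩

/-- every cycle is homologous to a cycle killed by every single face operator -/
theorem exists_coloured {k : ℕ} (z : Ch X (k + 1)) (hz : bd z = 0) :
    ∃ z' : Ch X (k + 1), (∃ w : Ch X (k + 2), z' - z = bd w) ∧ ∀ i, bdi i z' = 0 := by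
  refine ⟨Sd z, ⟨-Dh z, ?_⟩, bdi_Sd_of (bdi_sdU k) hz⟩
  rw [map_neg, bd_Dh, hz]
  simp [Dh]

/-- homotopy invariance on the chain level, with control of supports -/
theorem homotopic_chain (f g : C(X, Y)) (H : C(X × unitInterval, Y))
    (h0 : ∀ x, H (x, 0) = f x) (h1 : ∀ x, H (x, 1) = g x) {S T : Set X} {S' T' : Set Y}
    (hS : ∀ x ∈ S, ∀ t, H (x, t) ∈ S') (hT : ∀ x ∈ T, ∀ t, H (x, t) ∈ T') {k : ℕ}
    {c : Ch X (k + 1)} (hc : c ∈ ChIn S (k + 1)) (hb : bd c ∈ ChIn T k) :
    ∃ d ∈ ChIn S' (k + 2), push g c - push f c - bd d ∈ ChIn T' (k + 1) := by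
  have h := bd_htpy (w := fun k => push (lev _ 1) (io k) - push (lev _ 0) (io k))
    (by
      rw [io, push_single, push_single, sub_eq_zero]
      congr 1
      ext1 t
      exact absurd t.2.2 (by simp))
    (fun k => by simp [str_push (aff_lev _), str_io])
    (fun k => by simp [bd_push, np_sub, np_lev]) k
  have e0 : H.comp (lev X 0) = f := ContinuousMap.ext h0
  have e1 : H.comp (lev X 1) = g := ContinuousMap.ext h1
  refine ⟨_, push_mem_ChIn H (fun x hx => hS x.1 hx.1 x.2) (np_mem_ChIn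
    (htpy (fun k => push (lev _ 1) (io k) - push (lev _ 0) (io k)) (k + 1)) hc), ?_⟩
  rw [bd_push, bd_np h, np_sub, np_lev, np_lev, nat_io, map_sub, map_sub, push_push, push_push,
    e0, e1, sub_sub_cancel]
  exact push_mem_ChIn H (fun x hx => hT x.1 hx.1 x.2) (np_mem_ChIn _ hb)

end Pool.Agent.Bet.G
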