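import Mathlib

/-! Coherent systems on the projective line over a field `K`, with bundles given by transition
matrices between the charts `Spec K[t]` and `Spec K[1/t]`. -/

namespace Pool.Agent.P.MP_d34769_ag

open LaurentPolynomial Matrix

variable {K : Type} [Field K]

/-- `f` lies in `K[t]`. -/
def Pol (f : LaurentPolynomial K) : Prop := ∀ m : ℤ, m < 0 → f.coeff m = 0

/-- `f` lies in `K[1/t]`. -/
def Inv (f : LaurentPolynomial K) : Prop := ∀ m : ℤ, 0 < m → f.coeff m = 0

/-- A vector bundle of rank `n` and degree `d` on the projective line: a transition matrix `g`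
over `K[t,1/t]` with `det g = c t^d`, `c` a nonzero constant. -/
structure Bundle (K : Type) [Field K] (n : ℕ) (d : ℤ) where
  g : Matrix (Fin n) (Fin n) (LaurentPolynomial K)
  det_eq : ∃ c : K, c ≠ 0 ∧ g.det = C c * T d

/-- `p` is a global section of `E(m)`, written in the chart `Spec K[t]`. -/
def Sec {n : ℕ} {d : ℤ} (E : Bundle K n d) (m : ℤ) (p : Fin n → LaurentPolynomial K) : Prop :=
  (∀ i, Pol (p i)) ∧ ∃ r : Fin n → LaurentPolynomial K,
    (∀ i, Inv (r i)) ∧ p = (T m : LaurentPolynomial K) • (E.g *ᵥ r)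

/-- A coherent system `(E, V)` of type `(n, d, k)`. -/
structure CohSys (K : Type) [Field K] (n : ℕ) (d : ℤ) (k : ℕ) where
  E : Bundle K n d
  V : Submodule K (Fin n → LaurentPolynomial K)
  sec : ∀ v ∈ V, Sec E 0 v
  dim : Module.finrank K V = k

/-- `A` is a morphism of coherent systems `S' → S`: regular in both charts, sends `V'` to `V`. -/
def IsMor {n n' k k' : ℕ} {d d' : ℤ} (S' : CohSys K n' d' k') (S : CohSys K n d k)
    (A : Matrix (Fin n) (Fin n') (LaurentPolynomial K)) : Prop :=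
  (∀ i j, Pol (A i j)) ∧
  (∃ B : Matrix (Fin n) (Fin n') (LaurentPolynomial K),
    (∀ i j, Inv (B i j)) ∧ A * S'.E.g = S.E.g * B) ∧
  ∀ v ∈ S'.V, A *ᵥ v ∈ S.V

/-- Isomorphism of coherent systems. -/
def Iso {n k : ℕ} {d : ℤ} (S S' : CohSys K n d k) : Prop :=
  ∃ A B, IsMor S S' A ∧ IsMor S' S B ∧ A * B = 1 ∧ B * A = 1

/-- `α`-stability: every nonzero proper coherent subsystem (an injective morphism `S' → S` with
`S'` of positive rank which is not an isomorphism) has smaller `α`-slope. -/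
def Stable (α : ℝ) {n k : ℕ} {d : ℤ} (S : CohSys K n d k) : Prop :=
  ∀ (n' : ℕ) (d' : ℤ) (k' : ℕ) (S' : CohSys K n' d' k')
    (A : Matrix (Fin n) (Fin n') (LaurentPolynomial K)),
    0 < n' → IsMor S' S A → Function.Injective A.mulVec → (¬ ∃ B, IsMor S S' B ∧ A * B = 1) →
    ((d' : ℝ) + α * k') / n' < ((d : ℝ) + α * k) / n

end Pool.Agent.P.MP_d34769_ag
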