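import Pool.Agent.P.MP_d34769_ag.DefsT

/-! The local quiver at a critical value: its vertices are the stable systems of one slope, its
arrows are bases of the extension groups. -/

namespace Pool.Agent.P.MP_d34769_ag

open Matrix Classical

/-- A nilpotent representation of the quiver with vertex set `J` and `a i j` arrows `i → j`: a
basis `Fin s` with vertices `c b`, in which all arrows are strictly upper triangular. -/
structure LRep {J : Type} (a : J → J → ℕ) where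
  s : ℕ
  c : Fin s → J
  m : ∀ i j, Fin (a i j) → Matrix (Fin s) (Fin s) ℂ
  supp : ∀ i j l b' b, m i j l b' b ≠ 0 → c b = i ∧ c b' = j ∧ b' < b

/-- `P` is a morphism of representations `M → N`. -/
def LHom {J : Type} {a : J → J → ℕ} (M N : LRep a) (P : Matrix (Fin N.s) (Fin M.s) ℂ) : Prop :=
  (∀ b' b, P b' b ≠ 0 → N.c b' = M.c b) ∧ ∀ i j l, P * M.m i j l = N.m i j l * P

/-- Isomorphism of representations. -/
def LIso {J : Type} {a : J → J → ℕ} (M N : LRep a) : Prop :=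
  ∃ P Q, LHom M N P ∧ LHom N M Q ∧ P * Q = 1 ∧ Q * P = 1

/-- A point of one of the moduli spaces `G(α; n, d, k)` of `α`-slope `μ`. -/
structure Vtx (α μ : ℝ) where
  n : ℕ
  d : ℕ
  k : ℕ
  pos : 0 < n
  slope : ((d : ℝ) + α * k) / n = μ
  pt : GMod α n d k

/-- The number of arrows `i → j`. -/
noncomputable def arr (α μ : ℝ) (i j : Vtx α μ) : ℕ :=
  ((if i = j then 1 else 0) + i.k * (j.n + j.d - j.k) + i.d * j.n - i.n * j.d - i.n * j.n :
    ℤ).toNat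

variable {α μ : ℝ}

/-- The type `(n, d, k)` of a representation of the local quiver. -/
def typ (M : LRep (arr α μ)) : ℕ × ℕ × ℕ := ∑ b, ((M.c b).n, (M.c b).d, (M.c b).k)

/-- `β`-stability: every nonzero proper subrepresentation has smaller `β`-slope. -/
def LSt (β : ℝ) (M : LRep (arr α μ)) : Prop :=
  ∀ N P, LHom N M P → Function.Injective P.mulVec → 0 < N.s → N.s < M.s →
    ((typ N).2.1 + β * (typ N).2.2) / (typ N).1 < ((typ M).2.1 + β * (typ M).2.2) / (typ M).1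

/-- The coboundary of a triple of matrices; `Hom(ρ, σ)` is its kernel, `Ext¹(ρ, σ)` its
cokernel. -/
def cbd {n d k n' d' k' : ℕ} (ρ : Rep ℂ n d k) (σ : Rep ℂ n' d' k')
    (P₁ : Matrix (Fin d') (Fin d) ℂ) (P₀ : Matrix (Fin (n' + d')) (Fin (n + d)) ℂ)
    (Q : Matrix (Fin k') (Fin k) ℂ) : Matrix (Fin (n' + d')) (Fin d) ℂ ×
      Matrix (Fin (n' + d')) (Fin d) ℂ × Matrix (Fin (n' + d')) (Fin k) ℂ :=
  (P₀ * ρ.x - σ.x * P₁, P₀ * ρ.y - σ.y * P₁, P₀ * ρ.z - σ.z * Q)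

/-- Presentations `R i` of the vertices, and cocycles `ε i j l` whose classes form a basis of
`Ext¹(R i, R j)`. -/
structure Loc (α μ : ℝ) where
  R : ∀ i : Vtx α μ, Rep ℂ i.n i.d i.k
  pres : ∀ i, ∃ S, Quot.mk _ S = i.pt ∧ Presents S.1 (R i)
  ε : ∀ i j : Vtx α μ, Fin (arr α μ i j) → Matrix (Fin (j.n + j.d)) (Fin i.d) ℂ ×
    Matrix (Fin (j.n + j.d)) (Fin i.d) ℂ × Matrix (Fin (j.n + j.d)) (Fin i.k) ℂ
  basis : ∀ i j g, ∃! τ : Fin (arr α μ i j) → ℂ, ∃ P₁ P₀ Q,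
    g = ∑ l, τ l • ε i j l + cbd (R i) (R j) P₁ P₀ Q

/-- `S` is presented by `⊕ R (c b)` with the maps `R ⊗ 1 + ∑ ε ⊗ m`. -/
def Built (L : Loc α μ) {n d k : ℕ} (S : CohSys ℂ n d k) (M : LRep (arr α μ)) : Prop :=
  let c := M.c
  ∃ ρ, Presents S ρ ∧ ∃ (P₁ : ∀ b, Matrix (Fin (c b).d) (Fin d) ℂ)
    (P₀ : ∀ b, Matrix (Fin ((c b).n + (c b).d)) (Fin (n + d)) ℂ)
    (Q : ∀ b, Matrix (Fin (c b).k) (Fin k) ℂ),
    (Function.Bijective fun u b => P₁ b *ᵥ u) ∧ (Function.Bijective fun u b => P₀ b *ᵥ u) ∧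
    (Function.Bijective fun u b => Q b *ᵥ u) ∧
    ∀ b', cbd ρ (L.R (c b')) (P₁ b') (P₀ b') (Q b') = ∑ b, ∑ l, M.m (c b) (c b') l b' b •
      ((L.ε (c b) (c b') l).1 * P₁ b, (L.ε (c b) (c b') l).2.1 * P₁ b,
        (L.ε (c b) (c b') l).2.2 * Q b)

end Pool.Agent.P.MP_d34769_ag
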