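import Pool.Agent.P.MP_d34769_ag.FDef
import Pool.Agent.P.MP_d34769_ag.QAut

/-! Gluing a family of orthogonal bricks along a nilpotent representation of its extension quiver
is a fully faithful functor. -/

noncomputable section
namespace Pool.Agent.P.MP_d34769_ag.FL

open Module Classical QR Matrix

section blocks
variable {p q : ℕ} {X : Fin p → Type} {Y : Fin q → Type} [∀ b, AddCommGroup (X b)]
  [∀ b, Module ℂ (X b)] [∀ b, AddCommGroup (Y b)] [∀ b, Module ℂ (Y b)]

def mat (F : ∀ b' b, X b →ₗ[ℂ] Y b') : (∀ b, X b) →ₗ[ℂ] ∀ b', Y b' :=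
  LinearMap.pi fun b' => ∑ b, F b' b ∘ₗ LinearMap.proj b

lemma mat_apply (F : ∀ b' b, X b →ₗ[ℂ] Y b') (u : ∀ b, X b) (b' : Fin q) :
    mat F u b' = ∑ b, F b' b (u b) := by
  simp [mat, LinearMap.sum_apply]

lemma sum_single {Z : Type} [AddCommGroup Z] [Module ℂ Z] (F : ∀ b, X b →ₗ[ℂ] Z) (b : Fin p)
    (x : X b) : ∑ b'', F b'' (Pi.single (M := X) b x b'') = F b x := by
  rw [Finset.sum_eq_single b]
  · rw [Pi.single_eq_same]
  · intro b'' _ h
    rw [Pi.single_eq_of_ne h, map_zero]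
  · simp

lemma mat_surj (f : (∀ b, X b) →ₗ[ℂ] ∀ b', Y b') : ∃ F, mat F = f := by
  refine ⟨fun b' b => LinearMap.proj b' ∘ₗ f ∘ₗ LinearMap.single ℂ X b, ?_⟩
  refine LinearMap.ext fun u => funext fun b' => ?_
  rw [mat_apply]
  conv_rhs => rw [← Finset.univ_sum_single u, map_sum, Finset.sum_apply]
  rfl

end blocks

variable {ι A : Type} {s t : A → ι}

abbrev C1 (X Y : QR ℂ s t) := ∀ e, X.M (s e) →ₗ[ℂ] Y.M (t e)

section cochains
variable {X Y Z : QR ℂ s t}

def lc (f : Fam Y Z) (g : C1 X Y) : C1 X Z := fun e => f (t e) ∘ₗ g e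

def rc (g : C1 Y Z) (f : Fam X Y) : C1 X Z := fun e => g e ∘ₗ f (s e)

def dl (f : Fam X Y) : C1 X Y := lc f X.a - rc Y.a f

lemma lc_apply (f : Fam Y Z) (g : C1 X Y) (e x) : lc f g e x = f (t e) (g e x) := rfl

lemma rc_apply (g : C1 Y Z) (f : Fam X Y) (e x) : rc g f e x = g e (f (s e) x) := rfl

lemma dl_apply (f : Fam X Y) (e x) : dl f e x = f (t e) (X.a e x) - Y.a e (f (s e) x) := rfl

lemma c1_ext {g g' : C1 X Y} (h : ∀ e x, g e x = g' e x) : g = g' :=
  funext fun e => LinearMap.ext (h e)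

lemma dl_eq_zero {f : Fam X Y} : dl f = 0 ↔ QR.IsHom X Y f :=
  ⟨fun h e x => sub_eq_zero.1 (by rw [← dl_apply, h]; rfl),
    fun h => c1_ext fun e x => sub_eq_zero.2 (h e x)⟩

lemma dl_add (f g : Fam X Y) : dl (f + g) = dl f + dl g := c1_ext fun e x => by
  simp only [dl_apply, Pi.add_apply, LinearMap.add_apply, map_add]
  abel

lemma dl_smul (c : ℂ) (f : Fam X Y) : dl (c • f) = c • dl f := c1_ext fun e x => by
  simp only [dl_apply, Pi.smul_apply, LinearMap.smul_apply, map_smul, smul_sub]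

lemma dl_zero : dl (0 : Fam X Y) = 0 := dl_eq_zero.2 IsHom.zero

lemma dl_neg (f : Fam X Y) : dl (-f) = -dl f := by
  rw [← neg_one_smul ℂ f, dl_smul, neg_one_smul]

lemma lc_zero (f : Fam Y Z) : lc f (0 : C1 X Y) = 0 := c1_ext fun e _ => map_zero (f (t e))

lemma zero_lc (g : C1 X Y) : lc (0 : Fam Y Z) g = 0 := c1_ext fun _ _ => rfl

lemma zero_rc (f : Fam X Y) : rc (0 : C1 Y Z) f = 0 := c1_ext fun _ _ => rfl

lemma rc_zero (g : C1 Y Z) : rc g (0 : Fam X Y) = 0 := c1_ext fun e _ => map_zero (g e)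

lemma add_lc (f f' : Fam Y Z) (g : C1 X Y) : lc (f + f') g = lc f g + lc f' g :=
  c1_ext fun _ _ => rfl

lemma smul_lc (c : ℂ) (f : Fam Y Z) (g : C1 X Y) : lc (c • f) g = c • lc f g :=
  c1_ext fun _ _ => rfl

lemma rc_smul (c : ℂ) (g : C1 Y Z) (f : Fam X Y) : rc g (c • f) = c • rc g f :=
  c1_ext fun e _ => map_smul (g e) c _

end cochains

variable {J : Type} {a : J → J → ℕ}

def idc (R : J → QR ℂ s t) (i j : J) : Fam (R i) (R j) := if h : i = j then h ▸ idF (R i) else 0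

lemma idc_self (R : J → QR ℂ s t) (i : J) : idc R i i = idF _ := dif_pos rfl

lemma idc_ne (R : J → QR ℂ s t) {i j : J} (h : i ≠ j) : idc R i j = 0 := dif_neg h

lemma isHom_idc (R : J → QR ℂ s t) (i j : J) : QR.IsHom _ _ (idc R i j) := by
  by_cases h : i = j
  · subst h
    rw [idc_self]
    exact IsHom.id
  · rw [idc_ne R h]
    exact IsHom.zero

/-- A family of orthogonal bricks with bases of the extension groups. -/
structure LD (s t : A → ι) (a : J → J → ℕ) : Type 1 where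
  R : J → QR ℂ s t
  ε : ∀ i j, Fin (a i j) → C1 (R i) (R j)
  basis : ∀ i j g, ∃! τ : Fin (a i j) → ℂ, ∃ f, g = ∑ l, τ l • ε i j l + dl f
  hom : ∀ i j f, QR.IsHom (R i) (R j) f → ∃ c : ℂ, f = c • idc R i j
  ne : ∀ i, (R i).dv ≠ 0

lemma m_eq_zero (M : LRep a) {i j : J} (l : Fin (a i j)) {b' b : Fin M.s}
    (h : ¬ (M.c b = i ∧ M.c b' = j ∧ b' < b)) : M.m i j l b' b = 0 := by
  by_contra h'
  exact h (M.supp _ _ _ _ _ h')

namespace LD

variable (D : LD s t a)

def sm (i j : J) : (Fin (a i j) → ℂ) →ₗ[ℂ] C1 (D.R i) (D.R j) :=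
  Fintype.linearCombination ℂ (D.ε i j)

lemma sm_apply (i j : J) (τ : Fin (a i j) → ℂ) : D.sm i j τ = ∑ l, τ l • D.ε i j l :=
  Fintype.linearCombination_apply ..

lemma exists_sm {i j : J} (g : C1 (D.R i) (D.R j)) : ∃ τ f, g = D.sm i j τ + dl f := by
  obtain ⟨τ, ⟨f, h⟩, -⟩ := D.basis i j g
  exact ⟨τ, f, by rw [sm_apply]; exact h⟩

lemma sm_eq_zero {i j : J} {τ : Fin (a i j) → ℂ} {f : Fam (D.R i) (D.R j)}
    (h : D.sm i j τ + dl f = 0) : τ = 0 :=
  (D.basis i j 0).unique ⟨f, by rw [← sm_apply, h]⟩ ⟨0, by simp [dl_zero]⟩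

def E (M : LRep a) (b' b : Fin M.s) : C1 (D.R (M.c b)) (D.R (M.c b')) :=
  D.sm _ _ fun l => M.m _ _ l b' b

lemma E_eq_zero (M : LRep a) {b' b : Fin M.s} (h : ¬ b' < b) : D.E M b' b = 0 := by
  rw [E, ← (D.sm _ _).map_zero]
  congr 1
  funext l
  exact m_eq_zero M l fun h' => h h'.2.2

/-- The glued representation. -/
@[reducible] def G (M : LRep a) : QR ℂ s t where
  M v := ∀ b, (D.R (M.c b)).M v
  a e := LinearMap.pi (fun b' => (D.R (M.c b')).a e ∘ₗ LinearMap.proj b') +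
    mat fun b' b => D.E M b' b e

lemma G_a (M : LRep a) (e : A) (u : ∀ b, (D.R (M.c b)).M (s e)) (b' : Fin M.s) :
    (D.G M).a e u b' = (D.R (M.c b')).a e (u b') + ∑ b, D.E M b' b e (u b) := by
  rw [← mat_apply (fun b' b => D.E M b' b e)]
  rfl

variable {M N L : LRep a}

def ofB (F : ∀ b' b, Fam (D.R (M.c b)) (D.R (N.c b'))) : Fam (D.G M) (D.G N) :=
  fun v => mat fun b' b => F b' b v

lemma ofB_apply (F : ∀ b' b, Fam (D.R (M.c b)) (D.R (N.c b'))) (v) (u : ∀ b, (D.R (M.c b)).M v)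
    (b') : D.ofB F v u b' = ∑ b, F b' b v (u b) := mat_apply _ _ _

lemma ofB_surj (f : Fam (D.G M) (D.G N)) : ∃ F, D.ofB F = f := by
  choose F hF using fun v => mat_surj (X := fun b => (D.R (M.c b)).M v)
    (Y := fun b => (D.R (N.c b)).M v) (f v)
  exact ⟨fun b' b v => F v b' b, funext hF⟩

def pert (F : ∀ b' b, Fam (D.R (M.c b)) (D.R (N.c b'))) (b' : Fin N.s) (b : Fin M.s) :
    C1 (D.R (M.c b)) (D.R (N.c b')) :=
  ∑ b'', lc (F b' b'') (D.E M b'' b) - ∑ b'', rc (D.E N b' b'') (F b'' b)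

lemma dl_ofB (F : ∀ b' b, Fam (D.R (M.c b)) (D.R (N.c b'))) (e : A)
    (u : ∀ b, (D.R (M.c b)).M (s e)) (b' : Fin N.s) :
    dl (D.ofB F) e u b' = ∑ b, (dl (F b' b) + D.pert F b' b) e (u b) := by
  have h : dl (D.ofB F) e u b' =
      D.ofB F (t e) ((D.G M).a e u) b' - (D.G N).a e (D.ofB F (s e) u) b' := rfl
  rw [h, ofB_apply, G_a, ofB_apply,
    Finset.sum_congr rfl fun b _ => congrArg (F b' b (t e)) (D.G_a M e u b),
    Finset.sum_congr rfl fun b _ => congrArg (D.E N b' b e) (D.ofB_apply F (s e) u b)]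
  simp only [map_add, map_sum, pert, Pi.add_apply, Pi.sub_apply,
    LinearMap.add_apply, LinearMap.sub_apply, Finset.sum_apply, LinearMap.sum_apply, dl_apply,
    lc_apply, rc_apply, Finset.sum_add_distrib, Finset.sum_sub_distrib]
  rw [Finset.sum_comm (f := fun b b'' => F b' b (t e) (D.E M b b'' e (u b''))),
    Finset.sum_comm (f := fun b'' b => D.E N b' b'' e (F b'' b (s e) (u b)))]
  abel

lemma hom_iff (F : ∀ b' b, Fam (D.R (M.c b)) (D.R (N.c b'))) :
    QR.IsHom _ _ (D.ofB F) ↔ ∀ b' b, dl (F b' b) + D.pert F b' b = 0 := by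
  rw [← dl_eq_zero]
  constructor
  · intro h b' b
    refine c1_ext fun e x => ?_
    have := D.dl_ofB F e (Pi.single b x) b'
    rw [h, sum_single (fun b => (dl (F b' b) + D.pert F b' b) e)] at this
    exact this.symm
  · intro h
    refine c1_ext fun e u => funext fun b' => ?_
    rw [D.dl_ofB]
    simp only [h]
    exact Finset.sum_const_zero

lemma lc_idc (b'' b : Fin M.s) (j : J) :
    lc (idc D.R (M.c b'') j) (D.E M b'' b) = D.sm _ j fun l => M.m _ j l b'' b := by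
  by_cases h : M.c b'' = j
  · subst h
    rw [idc_self]
    rfl
  · rw [idc_ne _ h, zero_lc, ← (D.sm _ _).map_zero]
    congr 1
    funext l
    exact (m_eq_zero M l fun h' => h h'.2.1).symm

lemma rc_idc (b' b'' : Fin N.s) (i : J) :
    rc (D.E N b' b'') (idc D.R i (N.c b'')) = D.sm i _ fun l => N.m i _ l b' b'' := by
  by_cases h : i = N.c b''
  · subst h
    rw [idc_self]
    rfl
  · rw [idc_ne _ h, rc_zero, ← (D.sm _ _).map_zero]
    congr 1
    funext l
    exact (m_eq_zero N l fun h' => h h'.1.symm).symm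

/-- The map `P ⊗ 1`. -/
def tens (P : Matrix (Fin N.s) (Fin M.s) ℂ) : Fam (D.G M) (D.G N) :=
  D.ofB fun b' b => P b' b • idc D.R (M.c b) (N.c b')

lemma tens_apply (P : Matrix (Fin N.s) (Fin M.s) ℂ) (v) (u : ∀ b, (D.R (M.c b)).M v) (b') :
    D.tens P v u b' = ∑ b, P b' b • idc D.R (M.c b) (N.c b') v (u b) := D.ofB_apply _ _ _ _

lemma pert_tens (P : Matrix (Fin N.s) (Fin M.s) ℂ) (b' b) :
    D.pert (fun b' b => P b' b • idc D.R (M.c b) (N.c b')) b' b =
      D.sm _ _ fun l => (P * M.m _ _ l - N.m _ _ l * P) b' b := by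
  simp only [pert, smul_lc, rc_smul, lc_idc, rc_idc, ← map_smul, ← map_sum, ← map_sub]
  congr 1
  funext l
  simp [Matrix.mul_apply, Finset.sum_apply, mul_comm]

lemma isHom_tens {P : Matrix (Fin N.s) (Fin M.s) ℂ} (h : LHom M N P) :
    QR.IsHom _ _ (D.tens P) := by
  rw [tens, hom_iff]
  intro b' b
  rw [pert_tens, dl_smul, dl_eq_zero.2 (isHom_idc _ _ _), smul_zero, zero_add, ← (D.sm _ _).map_zero]
  congr 1
  funext l
  rw [h.2, sub_self]
  rfl

lemma blocks_scalar {F : ∀ b' b, Fam (D.R (M.c b)) (D.R (N.c b'))}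
    (h : ∀ b' b, dl (F b' b) + D.pert F b' b = 0) (r : ℕ) :
    ∀ (b' : Fin N.s) (b : Fin M.s), b.1 + (N.s - b'.1) < r →
      ∃ c : ℂ, F b' b = c • idc D.R (M.c b) (N.c b') := by
  induction r with
  | zero => intro _ _ h; omega
  | succ r ih =>
    intro b' b hr
    have h1 : D.pert F b' b ∈ LinearMap.range (D.sm (M.c b) (N.c b')) := by
      refine Submodule.sub_mem _ (Submodule.sum_mem _ fun b'' _ => ?_)
        (Submodule.sum_mem _ fun b'' _ => ?_)
      · by_cases hb : b'' < b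
        · obtain ⟨c, hc⟩ := ih b' b'' (by have : b''.1 < b.1 := hb; omega)
          rw [hc, smul_lc, lc_idc]
          exact Submodule.smul_mem _ _ ⟨_, rfl⟩
        · rw [D.E_eq_zero M hb, lc_zero]
          exact Submodule.zero_mem _
      · by_cases hb : b' < b''
        · obtain ⟨c, hc⟩ := ih b'' b (by have : b'.1 < b''.1 := hb; have := b''.2; omega)
          rw [hc, rc_smul, rc_idc]
          exact Submodule.smul_mem _ _ ⟨_, rfl⟩
        · rw [D.E_eq_zero N hb, zero_rc]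
          exact Submodule.zero_mem _
    obtain ⟨τ, hτ⟩ := h1
    have h2 := h b' b
    rw [← hτ, add_comm] at h2
    have h3 := D.sm_eq_zero h2
    rw [h3, map_zero, zero_add] at h2
    exact D.hom _ _ _ (dl_eq_zero.1 h2)

/-- The functor is full. -/
theorem full {f : Fam (D.G M) (D.G N)} (hf : QR.IsHom _ _ f) : ∃ P, LHom M N P ∧ f = D.tens P := by
  obtain ⟨F, rfl⟩ := D.ofB_surj f
  rw [hom_iff] at hf
  choose c hc using fun b' b => D.blocks_scalar hf _ b' b (Nat.lt_succ_self _)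
  let P : Matrix (Fin N.s) (Fin M.s) ℂ := Matrix.of fun b' b => if N.c b' = M.c b then c b' b else 0
  have hP : ∀ b' b, P b' b ≠ 0 → N.c b' = M.c b := fun b' b h => by
    by_contra h'
    exact h (if_neg h')
  have hF : F = fun b' b => P b' b • idc D.R (M.c b) (N.c b') := by
    funext b' b
    rw [hc]
    by_cases h : N.c b' = M.c b
    · rw [show P b' b = c b' b from if_pos h]
    · rw [idc_ne _ (Ne.symm h), smul_zero, smul_zero]
  refine ⟨P, ⟨hP, fun i j l => ?_⟩, by rw [hF]; rfl⟩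
  ext b' b
  by_cases h : M.c b = i ∧ N.c b' = j
  · obtain ⟨rfl, rfl⟩ := h
    have h2 := hf b' b
    rw [hF, pert_tens, add_comm] at h2
    exact sub_eq_zero.1 (congrFun (D.sm_eq_zero h2) l)
  · rw [Matrix.mul_apply, Matrix.mul_apply, Finset.sum_eq_zero, Finset.sum_eq_zero]
    · intro b'' _
      by_contra h'
      obtain ⟨h1, h2⟩ := mul_ne_zero_iff.1 h'
      obtain ⟨h3, h4, -⟩ := N.supp _ _ _ _ _ h1
      exact h ⟨(hP _ _ h2).symm.trans h3, h4⟩
    · intro b'' _
      by_contra h'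
      obtain ⟨h1, h2⟩ := mul_ne_zero_iff.1 h'
      obtain ⟨h3, h4, -⟩ := M.supp _ _ _ _ _ h2
      exact h ⟨h3, (hP _ _ h1).trans h4⟩

lemma idc_idc {i j : J} (h : i = j) (l : J) (v) (x : (D.R l).M v) :
    idc D.R i j v (idc D.R l i v x) = idc D.R l j v x := by
  subst h
  rw [idc_self]
  rfl

lemma idc_idc' {i j : J} (h : i = j) (l : J) (v) (x : (D.R i).M v) :
    idc D.R j l v (idc D.R i j v x) = idc D.R i l v x := by
  subst h
  rw [idc_self]
  rfl

/-- `P ⊗ 1` on a pure tensor. -/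
lemma tens_pure {P : Matrix (Fin N.s) (Fin M.s) ℂ} (hP : ∀ b' b, P b' b ≠ 0 → N.c b' = M.c b)
    (y : Fin M.s → ℂ) (i : J) (v) (x : (D.R i).M v) (b') :
    D.tens P v (fun b => y b • idc D.R i (M.c b) v x) b' =
      (P *ᵥ y) b' • idc D.R i (N.c b') v x := by
  rw [tens_apply, Matrix.mulVec, dotProduct, Finset.sum_smul]
  refine Finset.sum_congr rfl fun b _ => ?_
  by_cases h : P b' b = 0
  · simp [h]
  · rw [map_smul, D.idc_idc (hP _ _ h).symm, smul_smul]

lemma exists_ne (i : J) : ∃ v, ∃ x : (D.R i).M v, x ≠ 0 := by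
  by_contra h
  push Not at h
  refine D.ne i (funext fun v => ?_)
  have : Subsingleton ((D.R i).M v) := ⟨fun x y => by rw [h v x, h v y]⟩
  exact Module.finrank_zero_of_subsingleton

lemma pure_eq_zero {y : Fin M.s → ℂ}
    (h : ∀ i v (x : (D.R i).M v) b, y b • idc D.R i (M.c b) v x = 0) : y = 0 := by
  funext b
  obtain ⟨v, x, hx⟩ := D.exists_ne (M.c b)
  have := h _ v x b
  rw [idc_self] at this
  exact (smul_eq_zero.1 this).resolve_right hx

lemma inj_of_tens {P : Matrix (Fin N.s) (Fin M.s) ℂ} (hP : ∀ b' b, P b' b ≠ 0 → N.c b' = M.c b)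
    (h : ∀ v, Function.Injective (D.tens P v)) : Function.Injective P.mulVec := by
  rw [← Matrix.coe_mulVecLin, injective_iff_map_eq_zero]
  intro y hy
  refine D.pure_eq_zero fun i v x b => ?_
  have : (fun b => y b • idc D.R i (M.c b) v x) = 0 :=
    (injective_iff_map_eq_zero _).1 (h v) _ (funext fun b' => by
      rw [D.tens_pure hP, show P *ᵥ y = 0 from hy]
      exact zero_smul ℂ _)
  exact congrFun this b

lemma tens_inj {P : Matrix (Fin N.s) (Fin M.s) ℂ} (hP : ∀ b' b, P b' b ≠ 0 → N.c b' = M.c b)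
    (h : Function.Injective P.mulVec) (v) : Function.Injective (D.tens P v) := by
  rw [injective_iff_map_eq_zero]
  intro u hu
  funext b
  refine (Module.forall_dual_apply_eq_zero_iff ℂ _).1 fun φ => ?_
  have : (fun b'' => φ (idc D.R (M.c b'') (M.c b) v (u b''))) = 0 := by
    apply h
    rw [Matrix.mulVec_zero]
    funext b'
    have h1 := congrArg (fun x => φ (idc D.R (N.c b') (M.c b) v x))
      ((D.tens_apply P v u b').symm.trans (congrFun hu b'))
    simp only [map_sum, map_smul] at h1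
    rw [Matrix.mulVec, dotProduct]
    refine Eq.trans (Finset.sum_congr rfl fun b'' _ => ?_) (h1.trans
      (show φ (idc D.R (N.c b') (M.c b) v 0) = 0 by rw [map_zero, map_zero]))
    by_cases h2 : P b' b'' = 0
    · simp [h2]
    · rw [D.idc_idc' (hP _ _ h2).symm, smul_eq_mul]
  have h3 := congrFun this b
  rwa [idc_self] at h3

lemma mul_eq_one_of {P : Matrix (Fin N.s) (Fin M.s) ℂ} {Q : Matrix (Fin M.s) (Fin N.s) ℂ}
    (hP : LHom M N P) (hQ : LHom N M Q) (h : ∀ v u, D.tens P v (D.tens Q v u) = u) :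
    P * Q = 1 := by
  refine Matrix.toLin'.injective (LinearMap.ext fun y => ?_)
  rw [Matrix.toLin'_apply, Matrix.toLin'_apply, Matrix.one_mulVec, ← Matrix.mulVec_mulVec,
    ← sub_eq_zero]
  refine D.pure_eq_zero (M := N) fun i v x b => ?_
  have h1 := congrFun (h v fun b => y b • idc D.R i (N.c b) v x) b
  rw [show D.tens Q v (fun b => y b • idc D.R i (N.c b) v x) =
    fun b => (Q *ᵥ y) b • idc D.R i (M.c b) v x from funext (D.tens_pure hQ.1 y i v x),
    D.tens_pure hP.1] at h1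
  rw [Pi.sub_apply, sub_smul, h1, sub_self]

lemma inj_of_mul {m n : ℕ} {P : Matrix (Fin m) (Fin n) ℂ} {Q : Matrix (Fin n) (Fin m) ℂ}
    (h : Q * P = 1) : Function.Injective P.mulVec := fun u v huv => by
  simpa [Matrix.mulVec_mulVec, h] using congrArg Q.mulVec huv

theorem isom_iff : Isom (D.G M) (D.G N) ↔ LIso M N := by
  constructor
  · rintro ⟨φ⟩
    obtain ⟨P, hP, e⟩ := D.full φ.isHom
    obtain ⟨Q, hQ, e'⟩ := D.full φ.symm.isHom
    exact ⟨P, Q, hP, hQ, D.mul_eq_one_of hP hQ fun v u => by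
      rw [← e, ← e']; exact φ.apply_symm_apply v u, D.mul_eq_one_of hQ hP fun v u => by
      rw [← e, ← e']; exact φ.symm_apply_apply v u⟩
  · rintro ⟨P, Q, hP, hQ, e, e'⟩
    have h1 := D.tens_inj hP.1 (inj_of_mul e')
    have h2 := D.tens_inj hQ.1 (inj_of_mul e)
    refine (D.isHom_tens hP).isom fun v => ⟨h1 v, ?_⟩
    exact (LinearMap.injective_iff_surjective_of_finrank_eq_finrank (le_antisymm
      (LinearMap.finrank_le_finrank_of_injective (h1 v))
      (LinearMap.finrank_le_finrank_of_injective (h2 v)))).1 (h1 v)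

end LD

end Pool.Agent.P.MP_d34769_ag.FL
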