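import Pool.Agent.P.MP_d34769_ag.FDef
import Pool.Agent.P.MP_d34769_ag.Flip

/-! The vertices of the local quiver are the stable representations of weight zero. -/

namespace Pool.Agent.P.MP_d34769_ag

open Module Classical QR Matrix LaurentPolynomial

section anyk
variable {K : Type} [Field K] {α : ℝ} {n d k : ℕ}

/-- as `Stable.nn`, with positive slope in place of `0 < k` -/
lemma Stable.nn' (hα : 0 < α) (hp : 0 < (d : ℝ) + α * k) {S : CohSys K n d k}
    (h : Stable α S) : S.E.NN := by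
  obtain ⟨D⟩ := exists_splitting S.E
  rw [D.nn_iff]
  intro j0
  by_contra hj
  have hj : D.b j0 < 0 := by omega
  obtain ⟨r, d', S', A, hmor, hinj, hnn, -, hr0, hU⟩ :=
    generated S (S.E.F 0) S.V le_rfl S.V_le le_rfl
  obtain ⟨h1, h2⟩ := hU (S.E.F (-1)) (S.E.F_mono (by omega))
    (fun u hu => by simpa using S.E.T_smul_mem hu)
  have h3 := sum_toNat_gt D.b j0 hj
  have h4 := sum_toNat_succ_lt D.b j0 hj
  rw [← D.finrank_neg_one, D.sum_b] at h3
  rw [← D.finrank_neg_one, ← D.finrank_zero] at h4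
  have hrn : r < n := by omega
  have hr : 0 < r := by
    rw [Nat.pos_iff_ne_zero]
    intro hr
    have h5 : S.E.F (-1) = ⊥ := eq_bot_iff.2 (hr0 hr ▸ S.E.F_mono (by omega))
    rw [h5, finrank_bot] at h3
    omega
  have hlt := h r d' _ S' A hr hmor hinj (by
    rintro ⟨B, hB, hAB⟩
    have e1 := finrank_F_eq_of_inv hmor hinj hB hAB 0
    have e2 := finrank_F_eq_of_inv hmor hinj hB hAB (-1)
    have e3 := hnn.finrank_zero
    have e4 : (finrank K (S'.E.F (-1)) : ℤ) = d' := hnn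
    have e5 := finrank_F_le hmor.isHom hinj (n : ℤ)
    have e6 : (Module.finrank (LaurentPolynomial K) (Fin n → LaurentPolynomial K)) ≤
        Module.finrank (LaurentPolynomial K) (Fin r → LaurentPolynomial K) :=
      LinearMap.finrank_le_finrank_of_injective (f := B.mulVecLin) (inj_of_mul_eq_one hAB)
    simp at e6
    omega)
  rw [S.dim, Int.cast_natCast] at hlt
  have hdd : (d : ℝ) < d' := by exact_mod_cast (show (d : ℤ) < d' by omega)
  have hr' : (0 : ℝ) < r := by exact_mod_cast hr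
  have hrn' : (r : ℝ) < n := by exact_mod_cast hrn
  have hpos : 0 < (d' : ℝ) + α * k := by linarith
  have h7 : ((d' : ℝ) + α * k) / n < ((d' : ℝ) + α * k) / r :=
    div_lt_div_of_pos_left hpos hr' hrn'
  have h8 : ((d : ℝ) + α * k) / n < ((d' : ℝ) + α * k) / n :=
    div_lt_div_of_pos_right (by linarith) (by linarith)
  linarith

lemma Stable.amb_F3 {d : ℤ} (hn : 0 < n) (hpos : 0 < (d : ℝ) + α * k) {S : CohSys K n d k}
    (hnn : S.E.NN) (h : Stable α S) : AmbStable α S := by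
  intro U₁ U₀ W h1 h0 hWV h10 hT hW0 hne hprop
  have : FiniteDimensional K U₀ := Submodule.finiteDimensional_of_le h0
  obtain ⟨r, d', S', A, hmor, hinj, hnn', hmap, hr0, hU⟩ := generated S U₀ W h0 hW0 hWV
  obtain ⟨h2, h3⟩ := hU U₁ h10 hT
  have hr : 0 < r := by
    rw [Nat.pos_iff_ne_zero]
    intro hr
    have h5 := hr0 hr
    exact hne ⟨eq_bot_iff.2 (h5 ▸ h10), h5, eq_bot_iff.2 (h5 ▸ hW0)⟩
  have hn' : (0 : ℝ) < n := by exact_mod_cast hn
  have hr' : (0 : ℝ) < r := by exact_mod_cast hr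
  have h2' : (finrank K U₁ : ℝ) ≤ d' := by exact_mod_cast h2
  have h3' : (r : ℝ) + finrank K U₁ ≤ finrank K U₀ := by exact_mod_cast h3
  by_cases hiso : ∃ B, IsMor S S' B ∧ A * B = 1
  · obtain ⟨B, hB, hAB⟩ := hiso
    have e1 := finrank_F_eq_of_inv hmor hinj hB hAB 0
    have e2 := finrank_F_eq_of_inv hmor hinj hB hAB (-1)
    have e3 := hnn'.finrank_zero
    have e4 : (finrank K (S'.E.F (-1)) : ℤ) = d' := hnn'
    have e5 := hnn.finrank_zero
    have e6 : (finrank K (S.E.F (-1)) : ℤ) = d := hnn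
    have hWV' : W = S.V := by
      refine le_antisymm hWV fun v hv => ?_
      rw [← hmap]
      exact ⟨B *ᵥ v, hB.2.2 v hv, by rw [mv_apply, Matrix.mulVec_mulVec, hAB, Matrix.one_mulVec]⟩
    have hrn : r = n := by omega
    have hdd : d' = d := by omega
    have hu0 := Submodule.finrank_mono h0
    have hu1 : finrank K U₁ < finrank K (S.E.F (-1)) := by
      by_contra hc
      apply hprop
      refine ⟨Submodule.eq_of_le_of_finrank_le h1 (by omega),
        Submodule.eq_of_le_of_finrank_le h0 (by omega), hWV'⟩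
    have hu1' : (finrank K U₁ : ℝ) < d := by
      exact_mod_cast (show (finrank K U₁ : ℤ) < d by omega)
    rw [hWV', S.dim]
    subst hrn
    calc (r : ℝ) * (finrank K U₁ + α * k) < r * (d + α * k) := by
          apply mul_lt_mul_of_pos_left _ hr'; linarith
      _ = (d + α * k) * r := by ring
      _ ≤ _ := by apply mul_le_mul_of_nonneg_left _ hpos.le; linarith
  · have hlt := h r d' _ S' A hr hmor hinj hiso
    rw [div_lt_div_iff₀ hr' hn'] at hlt
    calc (n : ℝ) * (finrank K U₁ + α * finrank K W) ≤ n * (d' + α * finrank K W) := by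
          apply mul_le_mul_of_nonneg_left _ hn'.le; linarith
      _ = (d' + α * finrank K W) * n := by ring
      _ < (d + α * k) * r := hlt
      _ ≤ _ := by apply mul_le_mul_of_nonneg_left _ hpos.le; linarith

lemma AmbStable.stable_F3 {d : ℤ} (hn : 0 < n) (hpos : 0 < (d : ℝ) + α * k) {S : CohSys K n d k}
    (hnn : S.E.NN) (h : AmbStable α S) : Stable α S := by
  intro n' d' k' S' A hn' hmor hinj hiso
  obtain ⟨D⟩ := exists_splitting S'.E
  have hn1 : (0 : ℝ) < n := by exact_mod_cast hn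
  have hn2 : (0 : ℝ) < n' := by exact_mod_cast hn'
  have e1 : finrank K ((S'.E.F (-1)).map (mv A)) = ∑ j, (D.b j).toNat := by
    rw [finrank_map_mv hinj, D.finrank_neg_one]
  have e0 : finrank K ((S'.E.F 0).map (mv A)) = ∑ j, (D.b j + 1).toNat := by
    rw [finrank_map_mv hinj, D.finrank_zero]
  have eV : finrank K (S'.V.map (mv A)) = k' := by rw [finrank_map_mv hinj, S'.dim]
  have i1 := sum_toNat_ge D.b
  have i2 := sum_toNat_succ_le D.b
  rw [D.sum_b, ← e1] at i1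
  rw [← e1, ← e0] at i2
  have i1' : (d' : ℝ) ≤ finrank K ((S'.E.F (-1)).map (mv A)) := by exact_mod_cast i1
  have i2' : (finrank K ((S'.E.F 0).map (mv A)) : ℝ) ≤
      finrank K ((S'.E.F (-1)).map (mv A)) + n' := by exact_mod_cast i2
  by_cases hz : (S'.E.F (-1)).map (mv A) = ⊥ ∧ (S'.E.F 0).map (mv A) = ⊥ ∧ S'.V.map (mv A) = ⊥
  · rw [hz.1, finrank_bot] at i1'
    rw [hz.2.2, finrank_bot] at eV
    subst eV
    have : ((d' : ℝ) + α * (0 : ℕ)) / n' ≤ 0 := by
      apply div_nonpos_of_nonpos_of_nonneg _ hn2.le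
      simpa using i1'
    exact lt_of_le_of_lt this (div_pos hpos hn1)
  have hlt := h ((S'.E.F (-1)).map (mv A)) ((S'.E.F 0).map (mv A)) (S'.V.map (mv A))
    (by rintro _ ⟨p, hp, rfl⟩; exact hmor.isHom.map_F hp)
    (by rintro _ ⟨p, hp, rfl⟩; exact hmor.isHom.map_F hp)
    (by rintro _ ⟨p, hp, rfl⟩; exact hmor.2.2 p hp)
    (Submodule.map_mono (S'.E.F_mono (by omega)))
    (by
      rintro _ ⟨p, hp, rfl⟩
      exact ⟨_, by simpa using S'.E.T_smul_mem hp, by simp [Matrix.mulVec_smul]⟩)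
    (Submodule.map_mono S'.V_le) hz
    (by
      rintro ⟨f1, f0, fV⟩
      apply hiso
      obtain ⟨lam, hlam⟩ := LinearMap.exists_leftInverse_of_injective (mv A)
        (LinearMap.ker_eq_bot.2 hinj)
      have hlam' : ∀ c, lam (A *ᵥ c) = c := fun c => LinearMap.congr_fun hlam c
      obtain ⟨B, hB, hB'⟩ := hnn.extend S'.E lam
        (by
          intro w hw
          rw [← f0] at hw
          obtain ⟨p, hp, rfl⟩ := hw
          rwa [mv_apply, hlam'])
        (by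
          intro w hw
          rw [← f1] at hw
          obtain ⟨p, hp, rfl⟩ := hw
          rw [mv_apply, ← Matrix.mulVec_smul, hlam', hlam'])
      refine ⟨B, ⟨hB.1, hB.2, fun v hv => ?_⟩, hnn.ext fun w hw => ?_⟩
      · rw [hB' v (S.V_le hv)]
        rw [← fV] at hv
        obtain ⟨p, hp, rfl⟩ := hv
        rwa [mv_apply, hlam']
      · rw [← Matrix.mulVec_mulVec, hB' w hw, Matrix.one_mulVec]
        rw [← f0] at hw
        obtain ⟨p, hp, rfl⟩ := hw
        rw [mv_apply, hlam'])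
  rw [eV] at hlt
  rw [div_lt_div_iff₀ hn2 hn1]
  calc ((d' : ℝ) + α * k') * n ≤ (finrank K ((S'.E.F (-1)).map (mv A)) + α * k') * n := by
        apply mul_le_mul_of_nonneg_right _ hn1.le; linarith
    _ = n * (finrank K ((S'.E.F (-1)).map (mv A)) + α * k') := by ring
    _ < _ := hlt
    _ ≤ _ := by apply mul_le_mul_of_nonneg_left _ hpos.le; linarith

/-- as `Pres.stable_iff` -/
lemma Pres.stable_iff' {S : CohSys K n d k} {ρ : Rep K n d k}
    {φ : (Fin (n + d) → K) →ₗ[K] (Fin n → LaurentPolynomial K)} (h : Pres S ρ φ)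
    (hα : 0 < α) (hn : 0 < n) (hp : 0 < (d : ℝ) + α * k) : Stable α S ↔ QStable α ρ := by
  rw [← h.amb_iff]
  have hp' : 0 < ((d : ℤ) : ℝ) + α * k := by rwa [Int.cast_natCast]
  exact ⟨fun hS => hS.amb_F3 hn hp' h.nn, fun hS => hS.stable_F3 hn hp' h.nn⟩

/-- as `QStable.good` -/
lemma QStable.good' (hα : 0 < α) (hn : 0 < n) (hp : 0 < (d : ℝ) + α * k) {ρ : Rep K n d k}
    (h : QStable α ρ) : Good ρ := by
  intro U₁ U₀ h1 hne
  by_cases ht : U₁ = ⊤ ∧ U₀ = ⊤
  · rw [ht.1, ht.2, finrank_top, finrank_top, Module.finrank_fin_fun, Module.finrank_fin_fun]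
    omega
  have h2 := h U₁ U₀ ⊥ h1 (by simp) (fun hc => hne hc.1) (fun hc => ht ⟨hc.1, hc.2.1⟩)
  have h3 : (0 : ℝ) ≤ n * (finrank K U₁ + α * finrank K (⊥ : Submodule K (Fin k → K))) := by
    positivity
  have h4 := (mul_pos_iff_of_pos_left hp).1 (lt_of_le_of_lt h3 h2)
  exact_mod_cast (show (finrank K U₁ : ℝ) < finrank K U₀ by linarith)

end anyk

/-- Schur's lemma over the complex numbers. -/
lemma QR.St.scal {ι A : Type} {s t : A → ι} [Fintype ι] {w : ι → ℝ} {X : QR ℂ s t} (h : St w X)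
    {f : Fam X X} (hf : QR.IsHom X X f) : ∃ c : ℂ, f = c • idF X := by
  obtain ⟨i, hi⟩ := Function.ne_iff.1 h.2.1
  have : Nontrivial (X.M i) := Module.nontrivial_of_finrank_pos (Nat.pos_of_ne_zero hi)
  obtain ⟨c, hc⟩ := Module.End.exists_eigenvalue (f i : Module.End ℂ (X.M i))
  obtain ⟨v, hv⟩ := hc.exists_hasEigenvector
  refine ⟨c, sub_eq_zero.1 (by_contra fun h0 => hv.2 ?_)⟩
  refine (h.bij h (hf.sub (QR.IsHom.id.smul c)) h0 i).1 ?_
  rw [map_zero]
  exact sub_eq_zero.2 hv.apply_eq_smul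

variable {α μ : ℝ} {n d k : ℕ}

lemma pos_F3 (hn : 0 < n) (hμ : 0 < μ) (h : ((d : ℝ) + α * k) / n = μ) : 0 < (d : ℝ) + α * k := by
  have hn' : (0 : ℝ) < n := by exact_mod_cast hn
  rw [← h] at hμ
  exact (div_pos_iff_of_pos_right hn').1 hμ

lemma St.slope_F3 {n' d' k' : ℕ} (hn : 0 < n) (hn' : 0 < n') (h : ((d : ℝ) + α * k) / n = μ)
    (h' : ((d' : ℝ) + α * k') / n' = μ) {X : QR ℂ s3 t3} (hX : St (w3 n d k α) X) :
    St (w3 n' d' k' α) X := by
  have a : (0 : ℝ) < n := by exact_mod_cast hn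
  have b : (0 : ℝ) < n' := by exact_mod_cast hn'
  have e : ∀ e, tw (w3 n' d' k' α) e = n' / n * tw (w3 n d k α) e := fun e => by
    rw [tw_w3, tw_w3, wgt, wgt, (div_eq_iff a.ne').1 h, (div_eq_iff b.ne').1 h']
    field_simp
  exact ⟨by rw [e, hX.1, mul_zero], hX.2.1, fun U hU h0 h1 => by
    rw [th, e]
    exact mul_neg_of_pos_of_neg (div_pos b a) (hX.2.2 U hU h0 h1)⟩

lemma dim_F3 (hn : 0 < n) (hk : 0 < k) (hα : 0 < α) (hμ : ((d : ℝ) + α * k) / n = μ)
    {e : Fin 3 → ℕ} (he : e ≠ 0) (h0 : wgt n d k α e = 0) :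
    ∃ n' d' k' : ℕ, 0 < n' ∧ e = ![d', n' + d', k'] ∧ ((d' : ℝ) + α * k') / n' = μ := by
  have hp : 0 < (d : ℝ) + α * k := by positivity
  have a : (0 : ℝ) < n := by exact_mod_cast hn
  rw [wgt, sub_eq_zero] at h0
  have hlt : e 0 < e 1 := by
    by_contra hc
    have h1 : (e 1 : ℝ) - e 0 ≤ 0 := sub_nonpos.2 (by exact_mod_cast not_lt.1 hc)
    have h2 : (e 0 : ℝ) + α * e 2 ≤ 0 := by
      by_contra h
      exact absurd (h0 ▸ mul_pos a (not_le.1 h))
        (not_lt.2 (mul_nonpos_of_nonneg_of_nonpos hp.le h1))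
    have h3 : (0 : ℝ) ≤ α * e 2 := by positivity
    have h4 : (0 : ℝ) ≤ e 0 := by positivity
    have h5 : e 0 = 0 := by exact_mod_cast (show (e 0 : ℝ) = 0 by linarith)
    have h6 : e 2 = 0 := by
      exact_mod_cast (mul_eq_zero.1 (show α * e 2 = 0 by linarith)).resolve_left hα.ne'
    refine he (funext fun i => ?_)
    fin_cases i
    · exact h5
    · show e 1 = 0
      omega
    · exact h6
  obtain ⟨n', h⟩ := Nat.exists_eq_add_of_lt hlt
  refine ⟨n' + 1, e 0, e 2, n'.succ_pos, funext fun i => ?_, ?_⟩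
  · fin_cases i
    · rfl
    · show e 1 = n' + 1 + e 0
      omega
    · rfl
  rw [← hμ, div_eq_div_iff (by positivity) a.ne']
  rw [h] at h0
  push_cast at h0 ⊢
  linarith

lemma gmod_iso_F3 {S S' : {S : CohSys ℂ n d k // Stable α S}}
    (h : (Quot.mk _ S : GMod α n d k) = Quot.mk _ S') : Iso S.1 S'.1 :=
  (show Equivalence fun S S' : {S : CohSys ℂ n d k // Stable α S} => Iso S.1 S'.1 from
    ⟨fun _ => iso_equiv.refl _, iso_equiv.symm, iso_equiv.trans⟩).eqvGen_iff.1 (Quot.eq.1 h)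

lemma vtx_pres (hα : 0 < α) (hμ : 0 < μ) : ∃ R : ∀ i : Vtx α μ, Rep ℂ i.n i.d i.k,
    ∀ i, ∃ S, Quot.mk _ S = i.pt ∧ Presents S.1 (R i) := by
  have : ∀ i : Vtx α μ, ∃ ρ : Rep ℂ i.n i.d i.k, ∃ S, Quot.mk _ S = i.pt ∧ Presents S.1 ρ :=
    fun i => by
    obtain ⟨S, hS⟩ := Quot.exists_rep i.pt
    obtain ⟨ρ, h⟩ := exists_pres S.1 (S.2.nn' hα (pos_F3 i.pos hμ i.slope))
    exact ⟨ρ, S, hS, (presents_iff _ _).2 h⟩
  choose R h using this
  exact ⟨R, h⟩

variable (hn : 0 < n) (hk : 0 < k) (hα : 0 < α) (hμ : ((d : ℝ) + α * k) / n = μ)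
  {R : ∀ i : Vtx α μ, Rep ℂ i.n i.d i.k}
  (hR : ∀ i, ∃ S, Quot.mk _ S = i.pt ∧ Presents S.1 (R i))
include hn hk hα hμ hR

/-- `i.n • w3 n d k α = n • w3 i.n i.d i.k α` -/
lemma vtx_st (i : Vtx α μ) : St (w3 n d k α) (toQR (R i)) := by
  obtain ⟨S, -, h⟩ := hR i
  obtain ⟨φ, h⟩ := (presents_iff _ _).1 h
  exact St.slope_F3 i.pos hn i.slope hμ ((qstable_iff i.pos).1
    ((h.stable_iff' hα i.pos (pos_F3 i.pos (by rw [← hμ]; positivity) i.slope)).1 S.2))

/-- `X` has dimension vector `(d', n' + d', k')` with `0 < n'`; `exists_std`, `toStr_surj`,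
`exists_sys` -/
lemma vtx_all (X : QR ℂ s3 t3) (hX : St (w3 n d k α) X) : ∃ i, Isom (toQR (R i)) X := by
  obtain ⟨n', d', k', hn', hv, hs⟩ := dim_F3 hn hk hα hμ hX.2.1 (by rw [← tw_w3]; exact hX.1)
  obtain ⟨σ, hσ⟩ := exists_std X hv
  obtain ⟨ρ, rfl⟩ := toStr_surj (n := n') (d := d') (k := k') σ
  replace hσ : Isom (toQR ρ) X := hσ
  have hp' := pos_F3 hn' (by rw [← hμ]; positivity) hs
  have hq := (qstable_iff hn').2 (St.slope_F3 hn hn' hμ hs (hX.of_isom hσ.symm))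
  obtain ⟨S, φ, h⟩ := exists_sys (hq.good' hα hn' hp') (hq.injz hα hn')
  have hS := (h.stable_iff' hα hn' hp').2 hq
  obtain ⟨S', h1, h2⟩ := hR ⟨n', d', k', hn', hs, Quot.mk _ ⟨S, hS⟩⟩
  obtain ⟨φ', h2⟩ := (presents_iff _ _).1 h2
  have h3 := gmod_iso_F3 (S := S') (S' := ⟨S, hS⟩) h1
  exact ⟨_, (qiso_iff.1 ((h2.iso_iff h).1 h3)).trans hσ⟩

omit hn hk hα hμ in
lemma vtx_inj {i j : Vtx α μ} (h : Isom (toQR (R i)) (toQR (R j))) : i = j := by
  have e := h.dv_eq
  rw [dv_toQR, dv_toQR] at e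
  have hi := hR i
  have hj := hR j
  generalize R i = ρ at h hi
  generalize R j = σ at h hj
  obtain ⟨n, d, k, hn, hs, p⟩ := i
  obtain ⟨n', d', k', hn', hs', p'⟩ := j
  dsimp only at *
  obtain rfl : d = d' := congrFun e 0
  obtain rfl : k = k' := congrFun e 2
  obtain rfl : n = n' := Nat.add_right_cancel (congrFun e 1 : n + d = n' + d)
  obtain ⟨S, rfl, h1⟩ := hi
  obtain ⟨S', rfl, h2⟩ := hj
  obtain ⟨φ, h1⟩ := (presents_iff _ _).1 h1
  obtain ⟨φ', h2⟩ := (presents_iff _ _).1 h2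
  exact congrArg (Vtx.mk n d k hn hs) (Quot.sound ((h1.iso_iff h2).2 (qiso_iff.2 h)))

end Pool.Agent.P.MP_d34769_ag
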