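import Pool.Agent.P.MP_d34769_ag.FL2
import Pool.Agent.P.MP_d34769_ag.Bridge

/-! From matrices to cochains. -/

noncomputable section
namespace Pool.Agent.P.MP_d34769_ag.FL

open Module Classical QR Matrix

section basis
variable {ι A : Type} {s t : A → ι}

noncomputable def dlL (X Y : QR ℂ s t) : Fam X Y →ₗ[ℂ] C1 X Y where
  toFun := dl
  map_add' := dl_add
  map_smul' := dl_smul

lemma exists_basis [Fintype ι] [Fintype A] (X Y : QR ℂ s t) (a : ℕ)
    (h : a + ∑ v, X.dv v * Y.dv v =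
      ∑ e, X.dv (s e) * Y.dv (t e) + finrank ℂ (LinearMap.ker (dlL X Y))) :
    ∃ ε : Fin a → C1 X Y, ∀ g, ∃! τ : Fin a → ℂ, ∃ f, g = ∑ l, τ l • ε l + dl f := by
  obtain ⟨W, hW⟩ := Submodule.exists_isCompl (LinearMap.range (dlL X Y))
  have h1 := Submodule.finrank_add_eq_of_isCompl hW
  have h2 := LinearMap.finrank_range_add_finrank_ker (dlL X Y)
  have h3 : finrank ℂ (Fam X Y) = ∑ v, X.dv v * Y.dv v := by
    rw [Module.finrank_pi_fintype]
    exact Finset.sum_congr rfl fun v _ => Module.finrank_linearMap ℂ ℂ _ _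
  have h4 : finrank ℂ (C1 X Y) = ∑ e, X.dv (s e) * Y.dv (t e) := by
    rw [Module.finrank_pi_fintype]
    exact Finset.sum_congr rfl fun v _ => Module.finrank_linearMap ℂ ℂ _ _
  let B := Module.finBasisOfFinrankEq ℂ W (show finrank ℂ W = a by omega)
  have hB : ∀ τ : Fin a → ℂ, ∑ l, τ l • (B l : C1 X Y) = (B.equivFun.symm τ : W) := fun τ => by
    rw [Basis.equivFun_symm_apply, Submodule.coe_sum]
    rfl
  refine ⟨fun l => B l, fun g => ?_⟩
  obtain ⟨_, ⟨f, rfl⟩, x, hx, rfl⟩ := Submodule.mem_sup.1 (hW.sup_eq_top ▸ Submodule.mem_top (x := g))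
  refine ⟨B.equivFun ⟨x, hx⟩, ⟨f, by rw [hB, LinearEquiv.symm_apply_apply, add_comm]; rfl⟩, ?_⟩
  rintro τ ⟨f', e⟩
  rw [hB] at e
  apply B.equivFun.symm.injective
  rw [LinearEquiv.symm_apply_apply, ← sub_eq_zero]
  refine Subtype.ext (Submodule.disjoint_def.1 hW.disjoint _ ⟨f - f', ?_⟩ (Submodule.coe_mem _))
  rw [map_sub, Submodule.coe_sub, sub_eq_sub_iff_add_eq_add, e]
  rfl

lemma finrank_ker {J : Type} (R : J → QR ℂ s t)
    (hom : ∀ i j f, QR.IsHom (R i) (R j) f → ∃ c : ℂ, f = c • idc R i j) (ne : ∀ i, (R i).dv ≠ 0)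
    (i j : J) : finrank ℂ (LinearMap.ker (dlL (R i) (R j))) = if i = j then 1 else 0 := by
  have h : LinearMap.ker (dlL (R i) (R j)) = Submodule.span ℂ {idc R i j} := by
    refine le_antisymm (fun f hf => ?_) ((Submodule.span_singleton_le_iff_mem _ _).2
      (dl_eq_zero.2 (isHom_idc R i j)))
    obtain ⟨c, rfl⟩ := hom i j f (dl_eq_zero.1 hf)
    exact Submodule.smul_mem _ _ (Submodule.mem_span_singleton_self _)
  rw [h]
  split_ifs with h1
  · subst h1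
    refine finrank_span_singleton fun h2 => ne i (funext fun v => ?_)
    rw [idc_self] at h2
    have : Subsingleton ((R i).M v) := ⟨fun x y =>
      (LinearMap.congr_fun (congrFun h2 v) x).trans (LinearMap.congr_fun (congrFun h2 v) y).symm⟩
    exact Module.finrank_zero_of_subsingleton
  · rw [idc_ne R h1, Submodule.span_zero_singleton, finrank_bot]

lemma sum_rc {X Y Z : QR ℂ s t} {κ : Type} [Fintype κ] (c : κ → ℂ) (g : κ → C1 Y Z) (f : Fam X Y) :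
    rc (∑ l, c l • g l) f = ∑ l, c l • rc (g l) f := c1_ext fun e x => by
  simp only [rc_apply, Finset.sum_apply, LinearMap.sum_apply, Pi.smul_apply, LinearMap.smul_apply]

lemma isHom_pi {J : Type} {a : J → J → ℕ} (D : LD s t a) (M : LRep a) {X : QR ℂ s t}
    (F : ∀ b, Fam X (D.R (M.c b))) :
    QR.IsHom X (D.G M) (fun v => LinearMap.pi fun b => F b v) ↔
      ∀ b', dl (F b') = ∑ b, rc (D.E M b' b) (F b) := by
  have key : ∀ e x b', (F b' (t e) (X.a e x) = (D.G M).a e (fun b => F b (s e) x) b') ↔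
      dl (F b') e x = (∑ b, rc (D.E M b' b) (F b)) e x := fun e x b' => by
    rw [D.G_a, dl_apply, sub_eq_iff_eq_add', Finset.sum_apply, LinearMap.sum_apply]
    rfl
  exact ⟨fun h b' => c1_ext fun e x => (key e x b').1 (congrFun (h e x) b'),
    fun h e x => funext fun b' => (key e x b').2 (by rw [h b'])⟩

end basis

abbrev T3 (p d k : ℕ) :=
  Matrix (Fin p) (Fin d) ℂ × Matrix (Fin p) (Fin d) ℂ × Matrix (Fin p) (Fin k) ℂ

section three
variable {n d k n' d' k' n'' d'' k'' : ℕ} (ρ : Rep ℂ n d k) (σ : Rep ℂ n' d' k')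

noncomputable def toC0 (g : T3 (n' + d') d k) : C1 (toQR ρ) (toQR σ)
  | ⟨0, _⟩ => g.1.mulVecLin
  | ⟨1, _⟩ => g.2.1.mulVecLin
  | ⟨2, _⟩ => g.2.2.mulVecLin

noncomputable def toC : T3 (n' + d') d k →ₗ[ℂ] C1 (toQR ρ) (toQR σ) where
  toFun := toC0 ρ σ
  map_add' g g' := funext fun e => by
    fin_cases e
    · exact Matrix.mulVecLin_add g.1 g'.1
    · exact Matrix.mulVecLin_add g.2.1 g'.2.1
    · exact Matrix.mulVecLin_add g.2.2 g'.2.2
  map_smul' c g := funext fun e => by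
    fin_cases e
    · exact Matrix.toLin'.map_smul c g.1
    · exact Matrix.toLin'.map_smul c g.2.1
    · exact Matrix.toLin'.map_smul c g.2.2

lemma toC_inj : Function.Injective (toC ρ σ) := fun _ _ h =>
  Prod.ext (Matrix.toLin'.injective (congrFun h 0))
    (Prod.ext (Matrix.toLin'.injective (congrFun h 1)) (Matrix.toLin'.injective (congrFun h 2)))

lemma toC_surj : Function.Surjective (toC ρ σ) := fun g => by
  refine ⟨(LinearMap.toMatrix' (g 0), LinearMap.toMatrix' (g 1), LinearMap.toMatrix' (g 2)),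
    funext fun e => ?_⟩
  fin_cases e
  · exact Matrix.toLin'_toMatrix' (g 0)
  · exact Matrix.toLin'_toMatrix' (g 1)
  · exact Matrix.toLin'_toMatrix' (g 2)

noncomputable def toF (P₁ : Matrix (Fin d') (Fin d) ℂ) (P₀ : Matrix (Fin (n' + d')) (Fin (n + d)) ℂ)
    (Q : Matrix (Fin k') (Fin k) ℂ) : Fam (toQR ρ) (toQR σ)
  | ⟨0, _⟩ => P₁.mulVecLin
  | ⟨1, _⟩ => P₀.mulVecLin
  | ⟨2, _⟩ => Q.mulVecLin

lemma toF_surj (f : Fam (toQR ρ) (toQR σ)) : ∃ P₁ P₀ Q, toF ρ σ P₁ P₀ Q = f := by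
  refine ⟨LinearMap.toMatrix' (f 0), LinearMap.toMatrix' (f 1), LinearMap.toMatrix' (f 2),
    funext fun e => ?_⟩
  fin_cases e
  · exact Matrix.toLin'_toMatrix' (f 0)
  · exact Matrix.toLin'_toMatrix' (f 1)
  · exact Matrix.toLin'_toMatrix' (f 2)

lemma toC_cbd (P₁ P₀ Q) : toC ρ σ (cbd ρ σ P₁ P₀ Q) = dl (toF ρ σ P₁ P₀ Q) := by
  have key : ∀ {a a' : ℕ} (X : Matrix (Fin (n + d)) (Fin a) ℂ) (X' : Matrix (Fin (n' + d')) (Fin a') ℂ)
      (P : Matrix (Fin a') (Fin a) ℂ) (u), (P₀ * X - X' * P) *ᵥ u = P₀ *ᵥ X *ᵥ u - X' *ᵥ P *ᵥ u :=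
    fun X X' P u => by rw [Matrix.sub_mulVec, Matrix.mulVec_mulVec, Matrix.mulVec_mulVec]
  refine c1_ext fun e => ?_
  fin_cases e
  · exact key ρ.x σ.x P₁
  · exact key ρ.y σ.y P₁
  · exact key ρ.z σ.z Q

lemma rc_toC (ξ : Rep ℂ n'' d'' k'') (g : T3 (n'' + d'') d' k') (P₁ P₀ Q) :
    rc (toC σ ξ g) (toF ρ σ P₁ P₀ Q) = toC ρ ξ (g.1 * P₁, g.2.1 * P₁, g.2.2 * Q) := by
  funext e
  fin_cases e
  · exact (Matrix.mulVecLin_mul g.1 P₁).symm
  · exact (Matrix.mulVecLin_mul g.2.1 P₁).symm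
  · exact (Matrix.mulVecLin_mul g.2.2 Q).symm

lemma basis_iff {a : ℕ} (ε : Fin a → T3 (n' + d') d k) (g : T3 (n' + d') d k) (τ : Fin a → ℂ) :
    (∃ f, toC ρ σ g = ∑ l, τ l • toC ρ σ (ε l) + dl f) ↔
      ∃ P₁ P₀ Q, g = ∑ l, τ l • ε l + cbd ρ σ P₁ P₀ Q := by
  have key : ∀ P₁ P₀ Q, toC ρ σ (∑ l, τ l • ε l + cbd ρ σ P₁ P₀ Q) =
      ∑ l, τ l • toC ρ σ (ε l) + dl (toF ρ σ P₁ P₀ Q) := fun P₁ P₀ Q => by
    simp only [map_add, map_sum, map_smul, toC_cbd]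
  constructor
  · rintro ⟨f, h⟩
    obtain ⟨P₁, P₀, Q, rfl⟩ := toF_surj ρ σ f
    exact ⟨P₁, P₀, Q, toC_inj ρ σ (h.trans (key _ _ _).symm)⟩
  · rintro ⟨P₁, P₀, Q, rfl⟩
    exact ⟨_, key _ _ _⟩

end three

variable {α μ : ℝ}

lemma ne_toQR (R : ∀ i : Vtx α μ, Rep ℂ i.n i.d i.k) (i : Vtx α μ) : (toQR (R i)).dv ≠ 0 := by
  rw [dv_toQR]
  exact dim_ne i.pos

lemma nonempty_loc (R : ∀ i : Vtx α μ, Rep ℂ i.n i.d i.k)
    (hR : ∀ i, ∃ S, Quot.mk _ S = i.pt ∧ Presents S.1 (R i))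
    (hom : ∀ i j f, QR.IsHom (toQR (R i)) (toQR (R j)) f →
      ∃ c : ℂ, f = c • idc (fun i => toQR (R i)) i j) : Nonempty (Loc α μ) := by
  have h : ∀ i j, ∃ ε : Fin (arr α μ i j) → T3 (j.n + j.d) i.d i.k, ∀ g,
      ∃! τ : Fin (arr α μ i j) → ℂ, ∃ P₁ P₀ Q,
        g = ∑ l, τ l • ε l + cbd (R i) (R j) P₁ P₀ Q := fun i j => by
    have h1 := finrank_ker (fun i => toQR (R i)) hom (ne_toQR R) i j
    have h2 := LinearMap.finrank_range_add_finrank_ker (dlL (toQR (R i)) (toQR (R j)))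
    have h3 : finrank ℂ (Fam (toQR (R i)) (toQR (R j))) =
        ∑ v, (toQR (R i)).dv v * (toQR (R j)).dv v := by
      rw [Module.finrank_pi_fintype]
      exact Finset.sum_congr rfl fun v _ => Module.finrank_linearMap ℂ ℂ _ _
    have h4 : finrank ℂ (C1 (toQR (R i)) (toQR (R j))) =
        ∑ e, (toQR (R i)).dv (s3 e) * (toQR (R j)).dv (t3 e) := by
      rw [Module.finrank_pi_fintype]
      exact Finset.sum_congr rfl fun v _ => Module.finrank_linearMap ℂ ℂ _ _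
    have h5 := Submodule.finrank_le (LinearMap.range (dlL (toQR (R i)) (toQR (R j))))
    obtain ⟨ε, hε⟩ := exists_basis (toQR (R i)) (toQR (R j)) (arr α μ i j) (by
      rw [h3, h1] at h2
      rw [h4] at h5
      rw [h1]
      rw [dv_toQR, dv_toQR] at h2 h5 ⊢
      simp only [Fin.sum_univ_three, s3, t3, Matrix.cons_val] at h2 h5 ⊢
      zify at h2 h5 ⊢
      rw [arr, Int.toNat_of_nonneg (by linarith)]
      ring)
    choose ε' hε' using fun l => toC_surj (R i) (R j) (ε l)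
    refine ⟨ε', fun g => ?_⟩
    simp only [← basis_iff, hε']
    exact hε _
  choose ε hε using h
  exact ⟨⟨R, hR, ε, hε⟩⟩

variable (L : Loc α μ) (hom : ∀ i j f, QR.IsHom (toQR (L.R i)) (toQR (L.R j)) f →
  ∃ c : ℂ, f = c • idc (fun i => toQR (L.R i)) i j)

@[reducible] noncomputable def ld : LD s3 t3 (arr α μ) where
  R i := toQR (L.R i)
  ε i j l := toC _ _ (L.ε i j l)
  basis i j g := by
    obtain ⟨g, rfl⟩ := toC_surj _ _ g
    simp only [basis_iff]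
    exact L.basis i j g
  hom := hom
  ne := ne_toQR L.R

lemma dv_ld (M : LRep (arr α μ)) :
    ((ld L hom).G M).dv = ![(typ M).2.1, (typ M).1 + (typ M).2.1, (typ M).2.2] := by
  rw [LD.dv_G]
  funext v
  simp only [Finset.sum_apply, dv_toQR, typ, Prod.fst_sum, Prod.snd_sum]
  fin_cases v <;> simp [Finset.sum_add_distrib]

lemma built_iff {n d k : ℕ} (S : CohSys ℂ n d k) (M : LRep (arr α μ)) :
    Built L S M ↔ ∃ ρ, Presents S ρ ∧ Isom (toQR ρ) ((ld L hom).G M) := by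
  refine exists_congr fun ρ => and_congr_right fun _ => ?_
  have key : ∀ (P₁ : ∀ b, Matrix (Fin (M.c b).d) (Fin d) ℂ)
      (P₀ : ∀ b, Matrix (Fin ((M.c b).n + (M.c b).d)) (Fin (n + d)) ℂ)
      (Q : ∀ b, Matrix (Fin (M.c b).k) (Fin k) ℂ),
      QR.IsHom (toQR ρ) ((ld L hom).G M)
        (fun v => LinearMap.pi fun b => toF ρ (L.R (M.c b)) (P₁ b) (P₀ b) (Q b) v) ↔
      ∀ b', cbd ρ (L.R (M.c b')) (P₁ b') (P₀ b') (Q b') = ∑ b, ∑ l, M.m (M.c b) (M.c b') l b' b •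
        ((L.ε (M.c b) (M.c b') l).1 * P₁ b, (L.ε (M.c b) (M.c b') l).2.1 * P₁ b,
          (L.ε (M.c b) (M.c b') l).2.2 * Q b) := fun P₁ P₀ Q => by
    rw [isHom_pi (ld L hom) M fun b => toF ρ (L.R (M.c b)) (P₁ b) (P₀ b) (Q b)]
    refine forall_congr' fun b' => ?_
    rw [← (toC_inj ρ (L.R (M.c b'))).eq_iff, toC_cbd, map_sum]
    refine Eq.congr_right (Finset.sum_congr rfl fun b _ => ?_)
    rw [LD.E, LD.sm_apply, sum_rc, map_sum]
    exact Finset.sum_congr rfl fun l _ => by rw [map_smul, rc_toC]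
  constructor
  · rintro ⟨P₁, P₀, Q, h1, h0, h2, h⟩
    refine ((key P₁ P₀ Q).2 h).isom fun v => ?_
    fin_cases v
    · exact h1
    · exact h0
    · exact h2
  · rintro ⟨φ⟩
    choose P₁ P₀ Q h using fun b => toF_surj ρ (L.R (M.c b))
      fun v => LinearMap.proj b ∘ₗ φ.fam v
    have e : φ.fam = fun v => LinearMap.pi fun b =>
        toF ρ (L.R (M.c b)) (P₁ b) (P₀ b) (Q b) v := by
      simp only [h]
      rfl
    have h1 := φ.inj
    have h2 := φ.surj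
    have h3 := φ.isHom
    rw [e] at h1 h2 h3
    exact ⟨P₁, P₀, Q, ⟨h1 0, h2 0⟩, ⟨h1 1, h2 1⟩, ⟨h1 2, h2 2⟩, (key P₁ P₀ Q).1 h3⟩

end Pool.Agent.P.MP_d34769_ag.FL
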