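import Pool.Agent.P.MP_d34769_ag.FL3
import Pool.Agent.P.MP_d34769_ag.FL4

/-! The systems which are stable near a critical value, through the local quiver. -/

namespace Pool.Agent.P.MP_d34769_ag.FL

open Module Classical QR Matrix

variable {α μ : ℝ} {n d k : ℕ}

lemma typ_pos (M : LRep (arr α μ)) (h : 0 < M.s) : 0 < (typ M).1 := by
  rw [typ, Prod.fst_sum]
  exact Finset.sum_pos (fun b _ => (M.c b).pos) ⟨⟨0, h⟩, Finset.mem_univ _⟩

lemma tw_lt_iff (hn : 0 < n) (β : ℝ) {n' : ℕ} (d' k' : ℕ) (hn' : 0 < n') :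
    tw (w3 n d k β) ![d', n' + d', k'] < 0 ↔
      ((d' : ℝ) + β * k') / n' < ((d : ℝ) + β * k) / n := by
  rw [div_lt_div_iff₀ (by exact_mod_cast hn') (by exact_mod_cast hn), tw_w3, wgt]
  simp only [Matrix.cons_val, Nat.cast_add]
  constructor <;> intro h <;> linarith

variable (hn : 0 < n) (hk : 0 < k) (hα : 0 < α) (hμ : ((d : ℝ) + α * k) / n = μ)
include hn hk hα hμ

lemma vtx_hom {R : ∀ i : Vtx α μ, Rep ℂ i.n i.d i.k}
    (hR : ∀ i, ∃ S, Quot.mk _ S = i.pt ∧ Presents S.1 (R i)) (i j : Vtx α μ)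
    (f : Fam (toQR (R i)) (toQR (R j))) (hf : QR.IsHom _ _ f) :
    ∃ c : ℂ, f = c • idc (fun i => toQR (R i)) i j := by
  by_cases h : i = j
  · subst h
    rw [idc_self]
    exact (vtx_st hn hk hα hμ hR i).scal hf
  · refine ⟨0, ?_⟩
    rw [zero_smul]
    by_contra h0
    exact h (vtx_inj hR (hf.isom
      ((vtx_st hn hk hα hμ hR i).bij (vtx_st hn hk hα hμ hR j) hf h0)))

theorem loc_nonempty : Nonempty (Loc α μ) := by
  obtain ⟨R, hR⟩ := vtx_pres (α := α) (μ := μ) hα (by rw [← hμ]; positivity)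
  exact nonempty_loc R hR (vtx_hom hn hk hα hμ hR)

theorem local_model {β : ℝ} (hβ : 0 < β)
    (hε : ∀ e ≤ ![d, n + d, k], wgt n d k α e < 0 → wgt n d k β e < 0) (L : Loc α μ) :
    (∀ S : CohSys ℂ n d k, Stable β S → ∃ M, Built L S M) ∧
    (∀ M, typ M = (n, d, k) → LSt β M → ∃ S : CohSys ℂ n d k, Built L S M) ∧
    ∀ (S : CohSys ℂ n d k) M, Built L S M → typ M = (n, d, k) ∧ (Stable β S ↔ LSt β M) ∧
      (Stable α S ↔ M.s = 1) ∧ ∀ S' M', Built L S' M' → (Iso S S' ↔ LIso M M') := by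
  have hom := vtx_hom hn hk hα hμ L.pres
  have hst : ∀ i, St (w3 n d k α) ((ld L hom).R i) := vtx_st hn hk hα hμ L.pres
  have hc : ∀ X : QR ℂ s3 t3, St (w3 n d k α) X → ∃ i, Isom ((ld L hom).R i) X :=
    vtx_all hn hk hα hμ L.pres
  have key : ∀ M, typ M = (n, d, k) → (St (w3 n d k β) ((ld L hom).G M) ↔ LSt β M) := by
    intro M hM
    have h1 : ((ld L hom).G M).dv = ![d, n + d, k] := by rw [dv_ld, hM]
    rw [(ld L hom).st_iff hst hc (by rw [h1, tw_w3, wgt_self]) (by rw [h1]; exact dim_ne hn)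
      (by rw [h1, tw_w3, tw_w3]; exact hε), LSt, hM]
    refine forall_congr' fun N => forall_congr' fun P => forall_congr' fun _ =>
      forall_congr' fun _ => forall_congr' fun h2 => forall_congr' fun _ => ?_
    rw [dv_ld, tw_lt_iff hn β _ _ (typ_pos N h2)]
  refine ⟨fun S hS => ?_, fun M hM hS => ?_, fun S M hB => ?_⟩
  · obtain ⟨ρ, φ, hρ⟩ := exists_pres S (hS.nn hβ hk)
    have h1 := (qstable_iff hn).1 ((hρ.stable_iff hβ hn hk).1 hS)
    obtain ⟨M, hM⟩ := (ld L hom).ess_surj hc _ (toQR ρ) (Nat.lt_succ_self _)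
      ⟨by rw [dv_toQR, tw_w3, wgt_self], fun U hU => by
        by_contra h2
        have h3 : ds U ≤ ![d, n + d, k] := dv_toQR ρ ▸ ds_le U
        have h4 : ∀ γ, wgt n d k γ (![d, n + d, k] - ds U) = -th (w3 n d k γ) U := fun γ => by
          have h5 := tw_add (w3 n d k γ) (![d, n + d, k] - ds U) (ds U)
          rw [tsub_add_cancel_of_le h3, tw_w3, wgt_self] at h5
          rw [th, tw_w3]
          linarith
        have h6 := hε _ tsub_le_self (by rw [h4]; linarith)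
        have h7 := h1.np U hU
        rw [h4] at h6
        linarith⟩
    exact ⟨M, (built_iff L hom S M).2 ⟨ρ, (presents_iff _ _).2 ⟨φ, hρ⟩, hM⟩⟩
  · obtain ⟨σ, h1⟩ := exists_std ((ld L hom).G M) (e := ![d, n + d, k]) (by rw [dv_ld, hM])
    obtain ⟨ρ, rfl⟩ := toStr_surj σ
    have h2 : QStable β ρ := (qstable_iff hn).2 (((key M hM).2 hS).of_isom h1.symm)
    obtain ⟨S, φ, h3⟩ := exists_sys (h2.good hβ hk) (h2.injz hβ hn)
    exact ⟨S, (built_iff L hom S M).2 ⟨ρ, (presents_iff _ _).2 ⟨φ, h3⟩, h1⟩⟩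
  · obtain ⟨ρ, h1, h2⟩ := (built_iff L hom S M).1 hB
    obtain ⟨φ, h1⟩ := (presents_iff _ _).1 h1
    have h3 := h2.dv_eq
    rw [dv_toQR, dv_ld] at h3
    have hM : typ M = (n, d, k) := by
      have e0 : d = (typ M).2.1 := congrFun h3 0
      have e1 : n + d = (typ M).1 + (typ M).2.1 := congrFun h3 1
      have e2 : k = (typ M).2.2 := congrFun h3 2
      exact Prod.ext (by change _ = n; omega) (Prod.ext e0.symm e2.symm)
    have h4 : ∀ γ, 0 < γ → (Stable γ S ↔ St (w3 n d k γ) ((ld L hom).G M)) := fun γ hγ => by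
      rw [h1.stable_iff hγ hn hk, qstable_iff hn]
      exact ⟨fun h => h.of_isom h2, fun h => h.of_isom h2.symm⟩
    refine ⟨hM, (h4 β hβ).trans (key M hM), (h4 α hα).trans ((ld L hom).st_iff_one hst hc
      (by rw [← h2.dv_eq, dv_toQR]; exact dim_ne hn)), fun S' M' hB' => ?_⟩
    obtain ⟨ρ', h5, h6⟩ := (built_iff L hom S' M').1 hB'
    obtain ⟨φ', h5⟩ := (presents_iff _ _).1 h5
    rw [h1.iso_iff h5, qiso_iff, ← (ld L hom).isom_iff]
    exact ⟨fun h => h2.symm.trans (h.trans h6), fun h => h2.trans (h.trans h6.symm)⟩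

omit hn hk hα hμ in
/-- The flip loci. -/
theorem flipsL (n d k : ℕ) (hn : 0 < n) (hk : 0 < k) (α : ℝ) (hα : 0 < α) :
    ∃ ε > 0, ∀ β γ μ : ℝ, 0 < β → 0 < γ → |β - α| < ε → |γ - α| < ε → (β - α) * (γ - α) < 0 →
      (d + α * k) / n = μ → Nonempty (Loc α μ) ∧ ∀ L : Loc α μ,
      (∀ S : CohSys ℂ n d k, Stable β S → ∃ M, Built L S M) ∧
      (∀ M, typ M = (n, d, k) → LSt β M → ∃ S : CohSys ℂ n d k, Built L S M) ∧
      ∀ (S : CohSys ℂ n d k) M, Built L S M → typ M = (n, d, k) ∧ (Stable β S ↔ LSt β M) ∧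
        (Stable β S ∧ Stable γ S ↔ M.s = 1) ∧
        ∀ S' M', Built L S' M' → (Iso S S' ↔ LIso M M') := by
  obtain ⟨ε, h1, h2⟩ := mainC n d k hn hk α hα
  obtain ⟨δ, h3, h4⟩ := exists_eps n d k α
  refine ⟨min ε δ, lt_min h1 h3, fun β γ μ hβ hγ h5 h6 h7 hμ =>
    ⟨loc_nonempty hn hk hα hμ, fun L => ?_⟩⟩
  have h8 := (h2 β γ hβ hγ (h5.trans_le (min_le_left _ _)) (h6.trans_le (min_le_left _ _)) h7).1 ℂ
  simp only [← h8]
  exact local_model hn hk hα hμ hβ (h4 β (h5.trans_le (min_le_right _ _))) L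

end Pool.Agent.P.MP_d34769_ag.FL
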