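import Pool.Agent.P.MP_d34769_ag.FL5

/-! The flip loci as the stable nilpotent representations of length greater than one. -/

namespace Pool.Agent.P.MP_d34769_ag.FL

open Matrix

lemma Built.pos {α μ : ℝ} {n d k : ℕ} (hn : 0 < n) {L : Loc α μ} {S : CohSys ℂ n d k}
    {M : LRep (arr α μ)} (h : Built L S M) : 0 < M.s := by
  obtain ⟨ρ, -, P₁, P₀, Q, -, h0, -⟩ := h
  refine Nat.pos_of_ne_zero fun e => ?_
  have : IsEmpty (Fin M.s) := e ▸ Fin.isEmpty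
  exact zero_ne_one (congrFun (h0.1 (a₁ := 0) (a₂ := 1) (Subsingleton.elim _ _)) ⟨0, by omega⟩)

theorem flipsM (n d k : ℕ) (hn : 0 < n) (hk : 0 < k) (α : ℝ) (hα : 0 < α) :
    ∃ ε > 0, ∀ β γ μ : ℝ, 0 < β → 0 < γ → |β - α| < ε → |γ - α| < ε → (β - α) * (γ - α) < 0 →
      (d + α * k) / n = μ → Nonempty (Loc α μ) ∧ ∀ L : Loc α μ,
      (∀ S : CohSys ℂ n d k, Stable β S → ∃ M, Built L S M) ∧
      (∀ M, typ M = (n, d, k) → LSt β M → ∃ S : CohSys ℂ n d k, Built L S M) ∧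
      ∀ (S : CohSys ℂ n d k) M, Built L S M → typ M = (n, d, k) ∧ (Stable β S ↔ LSt β M) ∧
        (Stable β S ∧ ¬ Stable γ S ↔ LSt β M ∧ 1 < M.s) ∧
        ∀ S' M', Built L S' M' → (Iso S S' ↔ LIso M M') := by
  obtain ⟨ε, h0, h⟩ := flipsL n d k hn hk α hα
  refine ⟨ε, h0, fun β γ μ a b c e f g => ?_⟩
  obtain ⟨h2, h3⟩ := h β γ μ a b c e f g
  refine ⟨h2, fun L => ⟨(h3 L).1, (h3 L).2.1, fun S M hB => ?_⟩⟩
  obtain ⟨h1, h4, h5, h6⟩ := (h3 L).2.2 S M hB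
  have h7 := Built.pos hn hB
  refine ⟨h1, h4, ?_, h6⟩
  rw [← h4]
  refine and_congr_right fun hS => ⟨fun hγ => ?_, fun h8 hγ => ?_⟩
  · have : M.s ≠ 1 := fun e => hγ (h5.2 e).2
    omega
  · have := h5.1 ⟨hS, hγ⟩
    omega

end Pool.Agent.P.MP_d34769_ag.FL
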