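import Pool.Agent.P.MP_d34769_ag.QAbs
import Pool.Agent.P.MP_d34769_ag.DefsC

/-! The explicit formula for the number of absolutely stable classes. -/

set_option maxHeartbeats 400000

namespace Pool.Agent.P.MP_d34769_ag

open Module Classical QR

lemma sz_eq (e : Fin 3 → ℕ) : sz e = ∑ i, e i := by rw [Fin.sum_univ_three, sz]

lemma sz_lt {e f : Fin 3 → ℕ} (h : f ≤ e) (h' : f ≠ e) : sz f < sz e := by
  have h0 : f 0 ≤ e 0 := h 0
  have h1 : f 1 ≤ e 1 := h 1
  have h2 : f 2 ≤ e 2 := h 2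
  by_contra h3
  refine h' (funext fun i => ?_)
  unfold sz at h3
  fin_cases i <;> simp <;> omega

lemma sz_eq_zero {e : Fin 3 → ℕ} (h : sz e = 0) : e = 0 := by
  unfold sz at h
  funext i
  fin_cases i <;> simp <;> omega

/-- A triangular recursion is solved by iterating. -/
lemma iterate_eq (T : ((Fin 3 → ℕ) → ℚ) → (Fin 3 → ℕ) → ℚ) (P : (Fin 3 → ℕ) → Prop)
    (p : (Fin 3 → ℕ) → ℚ)
    (h : ∀ p' e, P e → (∀ f, P f → sz f < sz e → p' f = p f) → T p' e = p e)
    (N : ℕ) (e : Fin 3 → ℕ) (he : P e) (hN : sz e < N) : T^[N] 0 e = p e := by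
  induction N generalizing e with
  | zero => omega
  | succ N ih =>
    rw [Function.iterate_succ_apply']
    exact h _ e he fun f hf hlt => ih f hf (by omega)

def s3 : Fin 3 → Fin 3 := ![0, 0, 2]

def t3 : Fin 3 → Fin 3 := fun _ => 1

variable (K : Type) [Field K] [Finite K] (w : Fin 3 → ℝ)

noncomputable def pK (e : Fin 3 → ℕ) : ℚ :=
  (PP w (std K s3 t3 e) : ℚ) / ∏ i, (gam (Nat.card K) (e i) (e i) : ℚ)

lemma gam_cast {q n k : ℕ} (hq : 1 < q) (hk : k ≤ n) :
    (gam q n k : ℚ) = ∏ j ∈ Finset.range k, ((q : ℚ) ^ n - q ^ j) := by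
  rw [gam, Nat.cast_prod]
  refine Finset.prod_congr rfl fun j hj => ?_
  rw [Nat.cast_sub (Nat.pow_le_pow_right (by omega) ((Finset.mem_range.1 hj).le.trans hk))]
  simp

lemma gam_split {q n k : ℕ} (hq : 1 < q) (hk : k ≤ n) :
    (gam q n n : ℚ) = gam q n k * ∏ j ∈ Finset.Ico k n, ((q : ℚ) ^ n - q ^ j) := by
  rw [gam_cast hq hk, gam_cast hq le_rfl, Finset.prod_range_mul_prod_Ico _ hk]

lemma pK_zero : pK K w 0 = 1 := by
  rw [pK, PP_zero]
  simp [gam]

lemma pser_eq (e : Fin 3 → ℕ) : pser (tw w) (Nat.card K) e = pK K w e := by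
  refine iterate_eq _ (fun _ => True) _ (fun p' e _ h => ?_) _ e trivial (Nat.lt_succ_self _)
  have hq : 1 < Nat.card K := Finite.one_lt_card
  rw [pstep]
  split_ifs with he
  · rw [he, pK_zero]
  have h1 := PP_rec w (std K s3 t3 e) (by rwa [dv_std])
  rw [pK, h1, dv_std]
  push_cast
  rw [neg_div, neg_inj, Finset.sum_div]
  refine Finset.sum_congr (Finset.filter_congr_decidable ..) fun f hf => ?_
  simp only [Finset.mem_filter, Finset.mem_Iic] at hf
  rw [h f trivial (sz_lt hf.1 hf.2.1), pK]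
  have h2 := card_ds (std K s3 t3 e) (e := f) (by rw [dv_std]; exact hf.1)
  rw [dv_std] at h2
  have h3 : (Nat.card {U : (std K s3 t3 e).Sub // ds U = f} : ℚ) *
      ∏ i, (gam (Nat.card K) (f i) (f i) : ℚ) = ∏ i, (gam (Nat.card K) (e i) (f i) : ℚ) := by
    exact_mod_cast h2
  have h4 : ∏ i, (gam (Nat.card K) (e i) (e i) : ℚ) = (∏ i, (gam (Nat.card K) (e i) (f i) : ℚ)) *
      ∏ i, ∏ j ∈ Finset.Ico (f i) (e i), ((Nat.card K : ℚ) ^ e i - (Nat.card K : ℚ) ^ j) := by
    rw [← Finset.prod_mul_distrib]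
    exact Finset.prod_congr rfl fun i _ => gam_split hq (hf.1 i)
  have h5 : ∀ e : Fin 3 → ℕ, ∏ i, (gam (Nat.card K) (e i) (e i) : ℚ) ≠ 0 := fun e =>
    Finset.prod_ne_zero_iff.2 fun i _ => Nat.cast_ne_zero.2 (gam_pos hq le_rfl).ne'
  have h6 := h5 e
  have h7 := h5 f
  rw [h4, ← h3] at h6 ⊢
  have h8 : ∑ a, (e (s3 a) - f (s3 a)) * e (t3 a) = (2 * (e 0 - f 0) + (e 2 - f 2)) * e 1 := by
    simp [Fin.sum_univ_three, s3, t3]
    ring
  rw [h8]
  have h9 := left_ne_zero_of_mul (left_ne_zero_of_mul h6)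
  have h10 := right_ne_zero_of_mul h6
  field_simp

lemma pm_eq {e : Fin 3 → ℕ} (he : tw w e = 0) :
    pm K s3 t3 w e = pser (tw w) (Nat.card K) e := by
  rw [pser_eq, pK, PP_div, sum_clF he]

lemma gser_eq {e : Fin 3 → ℕ} (he : tw w e = 0) :
    gser (tw w) (Nat.card K) e = gm K s3 t3 w e := by
  refine iterate_eq _ (fun e => tw w e = 0) _ (fun g e he h => ?_) _ e he (Nat.lt_succ_self _)
  have h1 := log_identity (K := K) (s := s3) (t := t3) (w := w) e
  rw [← Finset.add_sum_erase _ _ (Finset.mem_Iic.2 le_rfl), tsub_self, pm_eq K w (tw_zero w),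
    pser_eq, pK_zero, mul_one, pm_eq K w he, ← sz_eq] at h1
  rw [gstep, h1, add_sub_assoc, add_eq_left, sub_eq_zero]
  symm
  refine Finset.sum_subset_zero_on_sdiff ?_ ?_ ?_
  · intro f hf
    simp only [Finset.mem_filter, Finset.mem_Iic, Finset.mem_erase] at hf ⊢
    exact ⟨hf.2.1, hf.1⟩
  · intro f hf
    simp only [Finset.mem_filter, Finset.mem_Iic, Finset.mem_erase, Finset.mem_sdiff] at hf
    rw [gm, Finset.sum_eq_zero, zero_mul]
    intro p hp
    refine absurd ⟨hf.1.2, hf.1.1, ?_⟩ hf.2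
    rw [← (mem_prF.1 hp).2, tw_smul, StC.tw_dv, mul_zero]
  · intro f hf
    simp only [Finset.mem_filter, Finset.mem_Iic] at hf
    rw [h f hf.2.2 (sz_lt hf.1 hf.2.1), pm_eq]
    have := tw_add w f (e - f)
    rw [add_tsub_cancel_of_le hf.1, he, hf.2.2, zero_add] at this
    exact this.symm

lemma moebius_inv (F : ℕ → ℚ) {g : ℕ} (hg : g ≠ 0) :
    ∑ j ∈ g.divisors, ∑ r ∈ (g / j).divisors, ArithmeticFunction.moebius r * F (j * r) = F 1 := by
  have h1 : ∑ j ∈ g.divisors, ∑ r ∈ (g / j).divisors, ArithmeticFunction.moebius r * F (j * r) =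
      ∑ m ∈ g.divisors, ∑ r ∈ m.divisors, ArithmeticFunction.moebius r * F m := by
    simp only [Finset.sum_sigma']
    refine Finset.sum_bij' (fun x _ => ⟨x.1 * x.2, x.2⟩) (fun x _ => ⟨x.1 / x.2, x.2⟩) ?_ ?_ ?_ ?_ ?_
    · rintro ⟨j, r⟩ h
      simp only [Finset.mem_sigma, Nat.mem_divisors] at h ⊢
      have := (Nat.dvd_div_iff_mul_dvd h.1.1).1 h.2.1
      exact ⟨⟨this, hg⟩, Dvd.intro_left _ rfl, fun h0 => hg (by simpa [h0] using this)⟩
    · rintro ⟨m, r⟩ h
      simp only [Finset.mem_sigma, Nat.mem_divisors] at h ⊢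
      have h2 : m / r ∣ g := (Nat.div_dvd_of_dvd h.2.1).trans h.1.1
      refine ⟨⟨h2, hg⟩, (Nat.dvd_div_iff_mul_dvd h2).2 (by rw [Nat.div_mul_cancel h.2.1]; exact h.1.1),
        (Nat.div_pos (Nat.le_of_dvd (Nat.pos_of_ne_zero hg) h2) (Nat.pos_of_dvd_of_pos h2
          (Nat.pos_of_ne_zero hg))).ne'⟩
    · rintro ⟨j, r⟩ h
      simp only [Finset.mem_sigma] at h
      simp only [Nat.mul_div_cancel _ (Nat.pos_of_mem_divisors h.2)]
    · rintro ⟨m, r⟩ h
      simp only [Finset.mem_sigma, Nat.mem_divisors] at h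
      simp only [Nat.div_mul_cancel h.2.1]
    · rintro ⟨j, r⟩ _
      rfl
  rw [h1, Finset.sum_eq_single 1]
  · simp
  · intro m _ hm
    have h2 := congrArg (fun f : ArithmeticFunction ℤ => f m) ArithmeticFunction.moebius_mul_coe_zeta
    simp only [ArithmeticFunction.coe_mul_zeta_apply, ArithmeticFunction.one_apply_ne hm] at h2
    rw [← Finset.sum_mul, ← Int.cast_sum, h2]
    simp
  · intro h
    exact absurd (Nat.one_mem_divisors.2 hg) h

lemma gcd_div {e : Fin 3 → ℕ} {j : ℕ} (hj : j ∈ (Finset.univ.gcd e).divisors) :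
    Finset.univ.gcd (fun i => e i / j) = Finset.univ.gcd e / j := by
  have hje : e = fun i => j * (e i / j) := funext fun i => (Nat.mul_div_cancel'
    ((Nat.dvd_of_mem_divisors hj).trans (Finset.gcd_dvd (Finset.mem_univ i)))).symm
  conv_rhs => rw [hje, Finset.gcd_mul_left, normalize_eq,
    Nat.mul_div_cancel_left _ (Nat.pos_of_mem_divisors hj)]

theorem absN_eq (e : Fin 3 → ℕ) (he : e ≠ 0) (h0 : tw w e = 0) :
    (absN K s3 t3 w e : ℚ) = cnt (tw w) e (Nat.card K) := by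
  induction h : sz e using Nat.strong_induction_on generalizing e K with
  | _ N ih =>
  subst h
  have hg : Finset.univ.gcd e ≠ 0 := fun h => he (funext fun i =>
    Finset.gcd_eq_zero_iff.1 h i (Finset.mem_univ _))
  have hq : ∀ j, j ≠ 0 → 1 - (Nat.card K : ℚ) ^ j ≠ 0 := fun j hj => sub_ne_zero.2
    (one_lt_pow₀ (Nat.one_lt_cast.2 Finite.one_lt_card) hj).ne
  obtain ⟨p, hp⟩ := CharP.exists K
  have : Fact p.Prime := ⟨CharP.char_is_prime K p⟩
  let a : ℕ → ℕ := fun j => if h : j ≤ 1 then absN K s3 t3 w e else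
    haveI : NeZero j := ⟨by omega⟩
    absN (FiniteField.Extension K p j) s3 t3 w fun i => e i / j
  have h1 := gm_eq (K := K) (s := s3) (t := t3) (w := w) e he a fun j hj => by
    by_cases h : j ≤ 1
    · obtain rfl : j = 1 := le_antisymm h (Nat.pos_of_mem_divisors hj)
      exact ⟨K, _, inferInstance, inferInstance, finrank_self K, by simp [a]⟩
    · have : NeZero j := ⟨by omega⟩
      exact ⟨FiniteField.Extension K p j, _, inferInstance, inferInstance,
        FiniteField.finrank_extension K p j, by simp [a, h]⟩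
  have h2 := moebius_inv (fun m => gser (tw w) ((Nat.card K : ℚ) ^ m) fun i => e i / m) hg
  simp only [pow_one, Nat.div_one] at h2
  rw [gser_eq K w h0, h1, ← Finset.add_sum_erase _ _ (Nat.one_mem_divisors.2 hg),
    ← Finset.add_sum_erase _ _ (Nat.one_mem_divisors.2 hg)] at h2
  have hsz : ∀ e : Fin 3 → ℕ, e ≠ 0 → (sz e : ℚ) ≠ 0 := fun e he =>
    Nat.cast_ne_zero.2 fun h => he (sz_eq_zero h)
  rw [Finset.sum_congr (s₁ := Finset.erase _ _) rfl (g := fun j => (∑ i, e i / j : ℕ) * (a j : ℚ) /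
    (1 - (Nat.card K : ℚ) ^ j)), add_left_inj] at h2
  · simp only [one_mul, Nat.div_one, pow_one, ← sz_eq] at h2
    have h3 := hq 1 one_ne_zero
    have h4 := hsz e he
    rw [pow_one] at h3
    rw [cnt, h2]
    simp only [a, le_refl, dif_pos]
    field_simp
  · intro j hj
    obtain ⟨hj1, hj⟩ := Finset.mem_erase.1 hj
    have hj0 := Nat.pos_of_mem_divisors hj
    have : NeZero j := ⟨by omega⟩
    have hje : j • (fun i => e i / j) = e := funext fun i => Nat.mul_div_cancel'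
      ((Nat.dvd_of_mem_divisors hj).trans (Finset.gcd_dvd (Finset.mem_univ i)))
    have hne : (fun i => e i / j) ≠ 0 := fun h => he (by rw [← hje, h, smul_zero])
    have h3 := ih (sz fun i => e i / j) (sz_lt (fun i => Nat.div_le_self _ _) fun h => ?_)
      (FiniteField.Extension K p j) _ hne ?_ rfl
    · have h4 := hsz _ hne
      have h5 := hq j hj0.ne'
      simp only [a, dif_neg (show ¬ j ≤ 1 by omega)]
      rw [h3, FiniteField.natCard_extension, cnt, gcd_div hj, ← sz_eq]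
      simp only [Nat.cast_pow, ← pow_mul, Nat.div_div_eq_div_mul]
      field_simp
    · refine he (funext fun i => ?_)
      by_contra h6
      exact absurd (congrFun h i) (Nat.div_lt_self (Nat.pos_of_ne_zero h6) (by omega)).ne
    · rw [← hje, tw_smul, mul_eq_zero] at h0
      exact h0.resolve_left (Nat.cast_ne_zero.2 hj0.ne')

end Pool.Agent.P.MP_d34769_ag
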