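import Pool.Agent.P.MP_d34769_ag.QGal

/-! Counting absolutely stable classes over extension fields. -/

namespace Pool.Agent.P.MP_d34769_ag

open Module Classical

namespace QR

variable {ι A : Type} {s t : A → ι} [Fintype ι] {w : ι → ℝ}
variable {K : Type} [Field K]

/-- A stable class presented over its endomorphism field. -/
structure FD (S : StC K s t w) : Type 1 where
  F : Type
  [fld : Field F]
  [fin : Finite F]
  [alg : Algebra K F]
  T : QR F s t
  hcl : cl (res K T) = S.1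
  sc : ScR K T

attribute [instance] FD.fld FD.fin FD.alg

variable [Finite K]

lemma nonempty_fd (S : StC K s t w) : Nonempty (FD S) := by
  obtain ⟨X, hX, h⟩ := S.exists
  obtain ⟨F, _, _, _, T, h1, h2⟩ := hX.exists_field
  exact ⟨{ F := F, T := T, hcl := (cl_eq.2 h1).trans h, sc := h2 }⟩

noncomputable def StC.fd (S : StC K s t w) : FD S := (nonempty_fd S).some

noncomputable def StC.deg (S : StC K s t w) : ℕ := finrank K S.fd.F

lemma StC.deg_pos (S : StC K s t w) : 0 < S.deg := finrank_pos'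

lemma StC.fd_st (S : StC K s t w) : St w (res K S.fd.T) := by
  have := S.st
  rw [← S.fd.hcl] at this
  exact this

lemma StC.dv_eq (S : StC K s t w) : S.dv = S.deg • S.fd.T.dv := by
  rw [StC.dv, ← S.fd.hcl]
  exact dv_res _

lemma StC.q_eq (S : StC K s t w) : S.q = Nat.card K ^ S.deg := by
  rw [StC.q, ← S.fd.hcl, StC.deg, ← Module.natCard_eq_pow_finrank]
  refine S.fd.sc.homN_eq fun h => S.dv_ne ?_
  rw [S.dv_eq, h, smul_zero]

/-- The number of absolutely stable classes. -/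
noncomputable def absN (K : Type) [Field K] (s t : A → ι) (w : ι → ℝ) (e : ι → ℕ) : ℕ :=
  Nat.card {S : StC K s t w // S.dv = e ∧ S.q = Nat.card K}

variable [Fintype A]

theorem absN_ext (L : Type) [Field L] [Finite L] [Algebra K L] (e : ι → ℕ) :
    absN L s t w e = ∑ p ∈ (prF K s t w (finrank K L • e)).filter
      (fun p => p.1.deg * p.2 = finrank K L), p.1.deg := by
  set P := (prF K s t w (finrank K L • e)).filter (fun p => p.1.deg * p.2 = finrank K L) with hP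
  have hmem : ∀ p, p ∈ P ↔ (1 ≤ p.2 ∧ p.2 • p.1.dv = finrank K L • e) ∧
      p.1.deg * p.2 = finrank K L := fun p => by rw [hP, Finset.mem_filter, mem_prF]
  have hcard : Nat.card (Σ p : P, p.1.1.fd.F →ₐ[K] L) = ∑ p ∈ P, p.1.deg := by
    have : ∀ p : P, Finite (p.1.1.fd.F →ₐ[K] L) := fun _ =>
      Finite.of_injective _ DFunLike.coe_injective
    rw [Nat.card_sigma, ← Finset.sum_coe_sort P]
    refine Finset.sum_congr rfl fun p _ => FiniteField.natCard_algHom_of_finrank_dvd ?_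
    exact Dvd.intro _ ((hmem _).1 p.2).2
  rw [← hcard, absN]
  symm
  let B : ∀ (S : StC K s t w) (τ : S.fd.F →ₐ[K] L), BC τ S.fd.T := fun S τ => (nonempty_bc τ _).some
  refine Nat.card_eq_of_bijective (fun x => ⟨⟨cl (B x.1.1.1 x.2).N,
    (B x.1.1.1 x.2).st x.1.1.1.fd_st x.1.1.1.fd.sc⟩, ?_, ?_⟩) ⟨?_, ?_⟩
  · obtain ⟨⟨-, h1⟩, h2⟩ := (hmem _).1 x.1.2
    rw [StC.dv_eq, smul_smul, mul_comm, h2] at h1
    refine (B x.1.1.1 x.2).dv.trans (funext fun i => ?_)
    exact Nat.eq_of_mul_eq_mul_left finrank_pos' (congrFun h1 i)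
  · exact (sc_iff ((B x.1.1.1 x.2).dv_ne x.1.1.1.fd_st)).1 ((B x.1.1.1 x.2).sc x.1.1.1.fd.sc)
  · rintro ⟨⟨⟨S, r⟩, hp⟩, τ⟩ ⟨⟨⟨S', r'⟩, hp'⟩, τ'⟩ h
    have hi : Isom (B S τ).N (B S' τ').N := cl_eq.1 (congrArg (fun z => z.1.1) h)
    obtain rfl : S = S' := by
      obtain ⟨φ⟩ := hi
      have hg := (φ.isHom.resF (K := K)).comp (B S τ).hf
      obtain ⟨l, hl⟩ := (B S' τ').exists_pi (g := comp (resF K φ.fam) (B S τ).f) fun h0 =>
        (B S τ).f_ne S.fd_st (fam_ext fun i x => φ.inj i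
          ((LinearMap.congr_fun (congrFun h0 i) x).trans (map_zero _).symm))
      have hg' := ((B S' τ').hπ l).comp hg
      exact StC.ext (S.fd.hcl.symm.trans
        ((cl_eq.2 (hg'.isom (S.fd_st.bij S'.fd_st hg' hl))).trans S'.fd.hcl))
    obtain rfl : r = r' := Nat.eq_of_mul_eq_mul_left S.deg_pos
      (((hmem _).1 hp).2.trans ((hmem _).1 hp').2.symm)
    obtain rfl : τ = τ' := (B S τ).tau_eq (B S τ') ((B S τ).f_ne S.fd_st) S.fd.sc hi
    rfl
  · rintro ⟨⟨C, hC⟩, h1, h2⟩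
    obtain ⟨N, rfl⟩ := cl_surj C
    have hN : St w N := hC
    have hsc : Sc N := (sc_iff hN.2.1).2 h2
    have hdv : (res K N).dv ≠ 0 := fun h => hN.2.1 (funext fun i => by
      rw [dv_res] at h
      exact (mul_eq_zero.1 (congrFun h i)).resolve_left finrank_pos'.ne')
    obtain ⟨V, hV, -, hst⟩ := (hN.np.res (K := K)).exists_st IsSub.top
      (fun h => hdv (dv_eq_zero.2 h)) (by rw [th_top, dv_res, tw_smul, hN.1, mul_zero])
    let S : StC K s t w := ⟨cl _, hst⟩
    obtain ⟨φ⟩ : Isom (res K S.fd.T) _ := cl_eq.1 S.fd.hcl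
    have hg := (isHom_subF hV).comp φ.isHom
    have hg0 : comp (subF _ V hV) φ.fam ≠ 0 := fun h => S.fd_st.idF_ne <| fam_ext fun i x =>
      φ.inj i (subF_inj hV i ((LinearMap.congr_fun (congrFun h i) x).trans (by simp)))
    obtain ⟨τ, hτ⟩ := exists_tau S.fd_st S.fd.sc hN hsc hg hg0
    have hi := (B S τ).isom S.fd_st S.fd.sc hN hg hg0 hτ
    obtain ⟨r, hr⟩ : S.deg ∣ finrank K L := FiniteField.nonempty_algHom_iff_finrank_dvd.1 ⟨τ⟩
    refine ⟨⟨⟨(S, r), (hmem _).2 ⟨⟨?_, ?_⟩, hr.symm⟩⟩, τ⟩, Subtype.ext (StC.ext (cl_eq.2 hi))⟩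
    · rcases r with _ | r
      · exact absurd hr finrank_pos'.ne'
      · exact Nat.succ_pos r
    · rw [StC.dv_eq, smul_smul, mul_comm, ← hr, ← (B S τ).dv, hi.dv_eq]
      exact congrArg _ h1

theorem gm_eq (e : ι → ℕ) (he : e ≠ 0) (a : ℕ → ℕ)
    (ha : ∀ j ∈ (Finset.univ.gcd e).divisors, ∃ (L : Type) (_ : Field L) (_ : Finite L)
      (_ : Algebra K L), finrank K L = j ∧ absN L s t w (fun i => e i / j) = a j) :
    gm K s t w e = ∑ j ∈ (Finset.univ.gcd e).divisors,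
      (∑ i, e i / j : ℕ) * (a j : ℚ) / (1 - (Nat.card K : ℚ) ^ j) := by
  have hg : Finset.univ.gcd e ≠ 0 := fun h => he (funext fun i =>
    Finset.gcd_eq_zero_iff.1 h i (Finset.mem_univ _))
  have key : ∀ p ∈ prF K s t w e, (p.1.deg * p.2) • p.1.fd.T.dv = e := fun p hp => by
    rw [← (mem_prF.1 hp).2, StC.dv_eq, smul_smul, mul_comm]
  rw [gm, ← Finset.sum_fiberwise_of_maps_to (g := fun p => p.1.deg * p.2)
    (t := (Finset.univ.gcd e).divisors)]
  · refine Finset.sum_congr rfl fun j hj => ?_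
    obtain ⟨L, _, _, _, hL, hL'⟩ := ha j hj
    have hj0 : 0 < j := Nat.pos_of_mem_divisors hj
    have hje : j • (fun i => e i / j) = e := funext fun i => Nat.mul_div_cancel'
      ((Nat.dvd_of_mem_divisors hj).trans (Finset.gcd_dvd (Finset.mem_univ i)))
    rw [← hL', absN_ext (K := K) L, hL, hje, Nat.cast_sum _ (fun p : StC K s t w × ℕ => p.1.deg),
      Finset.mul_sum, Finset.sum_div]
    refine Finset.sum_congr rfl fun p hp => ?_
    obtain ⟨hp1, hp2⟩ := Finset.mem_filter.1 hp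
    have h1 := key p hp1
    rw [hp2] at h1
    rw [StC.q_eq, Nat.cast_pow, ← pow_mul, hp2, ← Nat.cast_mul, Finset.sum_mul]
    congr 2
    refine Finset.sum_congr rfl fun i _ => ?_
    rw [StC.dv_eq, ← h1]
    simp only [Pi.smul_apply, smul_eq_mul]
    rw [Nat.mul_div_cancel_left _ hj0, mul_comm]
  · intro p hp
    refine Nat.mem_divisors.2 ⟨Finset.dvd_gcd fun i _ => ?_, hg⟩
    rw [← key p hp]
    exact Dvd.intro _ rfl

end QR

end Pool.Agent.P.MP_d34769_ag
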