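import Pool.Agent.P.MP_d34769_ag.QCount

/-! Isomorphism classes, polystable classes as multisets of stable classes, and the logarithmic
derivative identity for their generating series. -/

namespace Pool.Agent.P.MP_d34769_ag

open Module Classical

lemma q_identity (q : ℚ) (hq : 1 < q) (W : ℕ → ℚ) (hW : ∀ j, W (j + 1) = W j / (1 - q ^ (j + 1)))
    (m : ℕ) : m * W m = ∑ r ∈ Finset.Icc 1 m, W (m - r) / (1 - q ^ r) := by
  have hne : ∀ j, 1 - q ^ (j + 1) ≠ 0 := fun j =>
    sub_ne_zero.2 (one_lt_pow₀ hq (Nat.succ_ne_zero j)).ne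
  have hW' : ∀ j, W j = W (j + 1) * (1 - q ^ (j + 1)) := fun j => by
    rw [hW, div_mul_cancel₀ _ (hne j)]
  have tel : ∀ m, ∑ j ∈ Finset.range (m + 1), W j * q ^ j = W m := by
    intro m
    induction m with
    | zero => simp
    | succ m ih => rw [Finset.sum_range_succ, ih, hW' m]; ring
  have key : ∀ m : ℕ, (m : ℚ) * W m = ∑ j ∈ Finset.range m, W j / (1 - q ^ (m - j)) := by
    intro m
    induction m with
    | zero => simp
    | succ m ih =>
      apply mul_right_cancel₀ (hne m)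
      rw [mul_assoc, ← hW' m, Finset.sum_mul]
      have h1 : ∀ j ∈ Finset.range (m + 1), W j / (1 - q ^ (m + 1 - j)) * (1 - q ^ (m + 1)) =
          W j * q ^ j + W j * (1 - q ^ j) / (1 - q ^ (m + 1 - j)) := by
        intro j hj
        obtain ⟨l, rfl⟩ : ∃ l, m = j + l := Nat.exists_eq_add_of_le (by simpa [Nat.lt_succ_iff] using hj)
        have h2 : j + l + 1 - j = l + 1 := by omega
        have := hne l
        rw [h2]
        field_simp
        ring
      rw [Finset.sum_congr rfl h1, Finset.sum_add_distrib, tel, Finset.sum_range_succ']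
      have h3 : ∀ j ∈ Finset.range m, W (j + 1) * (1 - q ^ (j + 1)) / (1 - q ^ (m + 1 - (j + 1))) =
          W j / (1 - q ^ (m - j)) := by
        intro j _
        rw [← hW' j, Nat.add_sub_add_right]
      rw [Finset.sum_congr rfl h3, ← ih]
      push_cast
      ring
  rw [key]
  refine Finset.sum_bij' (fun j _ => m - j) (fun r _ => m - r) ?_ ?_ ?_ ?_ ?_
  all_goals simp only [Finset.mem_range, Finset.mem_Icc]
  · intro j hj; omega
  · intro j hj; omega
  · intro j hj; omega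
  · intro j hj; omega
  · intro j hj
    rw [Nat.sub_sub_self hj.le]

namespace QR

variable {K : Type} [Field K] {ι A : Type} {s t : A → ι}

def setoid (K : Type) [Field K] (s t : A → ι) : Setoid (QR K s t) :=
  ⟨Isom, Isom.refl, Isom.symm, Isom.trans⟩

/-- Isomorphism classes of representations. -/
def Cl (K : Type) [Field K] (s t : A → ι) : Type 1 := Quotient (setoid K s t)

def cl (X : QR K s t) : Cl K s t := Quotient.mk _ X

lemma cl_eq {X Y : QR K s t} : cl X = cl Y ↔ Isom X Y := Quotient.eq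

lemma cl_surj (C : Cl K s t) : ∃ X, cl X = C := Quotient.exists_rep C

instance : AddCommMonoid (Cl K s t) where
  add := Quotient.map₂ prod fun _ _ h _ _ h' => Isom.prod h h'
  zero := cl (zero K s t)
  add_assoc := by
    rintro ⟨X⟩ ⟨Y⟩ ⟨Z⟩
    exact cl_eq.2 (isom_prod_assoc X Y Z)
  add_comm := by
    rintro ⟨X⟩ ⟨Y⟩
    exact cl_eq.2 (isom_prod_comm X Y)
  zero_add := by
    rintro ⟨X⟩
    exact cl_eq.2 ((isom_prod_comm _ X).trans (isom_prod_zero X))
  add_zero := by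
    rintro ⟨X⟩
    exact cl_eq.2 (isom_prod_zero X)
  nsmul := @nsmulRec _ ⟨cl (zero K s t)⟩ ⟨Quotient.map₂ prod fun _ _ h _ _ h' => Isom.prod h h'⟩

lemma cl_prod (X Y : QR K s t) : cl (X.prod Y) = cl X + cl Y := rfl

lemma cl_zero : cl (zero K s t) = 0 := rfl

noncomputable def Cl.dv : Cl K s t →+ (ι → ℕ) where
  toFun := Quotient.lift QR.dv fun _ _ h => Isom.dv_eq h
  map_zero' := dv_zero
  map_add' := by
    rintro ⟨X⟩ ⟨Y⟩
    exact dv_prod X Y

noncomputable def Cl.hom : Cl K s t → Cl K s t → ℕ :=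
  Quotient.lift₂ homN fun _ _ _ _ h h' => homN_congr h h'

variable [Fintype ι] (w : ι → ℝ)

def Cl.St : Cl K s t → Prop :=
  Quotient.lift (QR.St w) fun _ _ h => propext ⟨fun h' => h'.of_isom h, fun h' => h'.of_isom h.symm⟩

/-- Stable classes. -/
@[ext] structure StC (K : Type) [Field K] (s t : A → ι) (w : ι → ℝ) : Type 1 where
  val : Cl K s t
  st : val.St w

variable {w}

def MM (m : Multiset (StC K s t w)) : Cl K s t := (m.map StC.val).sum

lemma MM_zero : MM (0 : Multiset (StC K s t w)) = 0 := rfl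

lemma MM_cons (S : StC K s t w) (m : Multiset (StC K s t w)) : MM (S ::ₘ m) = S.1 + MM m := by
  simp [MM]

lemma MM_add (m m' : Multiset (StC K s t w)) : MM (m + m') = MM m + MM m' := by
  simp [MM]

lemma StC.exists (S : StC K s t w) : ∃ X, St w X ∧ cl X = S.1 := by
  obtain ⟨C, hC⟩ := S
  obtain ⟨X, rfl⟩ := cl_surj C
  exact ⟨X, hC, rfl⟩

noncomputable def StC.q (S : StC K s t w) : ℕ := S.1.hom S.1

noncomputable def StC.dv (S : StC K s t w) : ι → ℕ := Cl.dv S.1

lemma StC.dv_ne (S : StC K s t w) : S.dv ≠ 0 := by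
  obtain ⟨X, hX, h⟩ := S.exists
  rw [StC.dv, ← h]
  exact hX.2.1

lemma StC.tw_dv (S : StC K s t w) : tw w S.dv = 0 := by
  obtain ⟨X, hX, h⟩ := S.exists
  rw [StC.dv, ← h]
  exact hX.1

lemma dv_MM_replicate (S : StC K s t w) (r : ℕ) :
    Cl.dv (MM (Multiset.replicate r S)) = r • S.dv := by
  simp [MM, StC.dv]

lemma exists_MM (m : Multiset (StC K s t w)) : ∃ X, SS w X ∧ PS w X ∧ cl X = MM m := by
  induction m using Multiset.induction_on with
  | empty => exact ⟨_, ss_zero, ps_zero, rfl⟩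
  | cons S m ih =>
    obtain ⟨X, h1, h2, h3⟩ := ih
    obtain ⟨Y, hY, h⟩ := S.exists
    exact ⟨Y.prod X, hY.ss.prod h1, PS.prod hY h2, by rw [MM_cons, ← h3, ← h, cl_prod]⟩

lemma hom_MM (S : StC K s t w) (m : Multiset (StC K s t w)) :
    S.1.hom (MM m) = S.q ^ m.count S := by
  obtain ⟨Y, hY, h⟩ := S.exists
  induction m using Multiset.induction_on with
  | empty =>
    rw [← h]
    exact homN_zero Y
  | cons T m ih =>
    obtain ⟨X, -, -, h3⟩ := exists_MM m
    obtain ⟨Z, hZ, h'⟩ := T.exists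
    have h4 : S.1.hom (MM (T ::ₘ m)) = S.1.hom T.1 * S.1.hom (MM m) := by
      rw [MM_cons, ← h, ← h', ← h3]
      exact homN_prod Y Z X
    rw [h4, ih]
    by_cases hT : S = T
    · subst hT
      rw [Multiset.count_cons_self, pow_succ']
      rfl
    · rw [Multiset.count_cons_of_ne hT, ← h, ← h']
      have : ¬ Isom Y Z := fun hi => hT (StC.ext (h.symm.trans ((cl_eq.2 hi).trans h')))
      exact (congrArg (· * _) (homN_st_ne hY hZ this)).trans (one_mul _)

variable [Finite K]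

lemma StC.one_lt_q (S : StC K s t w) : 1 < S.q := by
  obtain ⟨X, hX, h⟩ := S.exists
  rw [StC.q, ← h]
  exact hX.one_lt_homN

lemma MM_inj : Function.Injective (MM : Multiset (StC K s t w) → _) := fun m m' h =>
  Multiset.ext.2 fun S => Nat.pow_right_injective S.one_lt_q (by
    change S.q ^ _ = S.q ^ _
    rw [← hom_MM, ← hom_MM, h])

noncomputable def Cl.wt (w : ι → ℝ) : Cl K s t → ℚ :=
  Quotient.lift (fun X => (cc w X : ℚ) / autN X) fun _ _ h => by
    simp only [Isom.cc_eq h, Isom.autN_eq h]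

lemma wt_zero : Cl.wt w (0 : Cl K s t) = 1 := by
  change (cc w (zero K s t) : ℚ) / autN (zero K s t) = 1
  rw [cc_of_dv_zero dv_zero, autN_zero]
  simp

lemma wt_cons (S : StC K s t w) (m : Multiset (StC K s t w)) :
    Cl.wt w (MM (S ::ₘ m)) = Cl.wt w (MM m) / (1 - (S.q : ℚ) ^ (m.count S + 1)) := by
  have h1 := hom_MM S (S ::ₘ m)
  rw [Multiset.count_cons_self] at h1
  obtain ⟨X, hX1, hX2, h3⟩ := exists_MM m
  obtain ⟨Y, hY, h⟩ := S.exists
  have h2 : 1 < S.q ^ (m.count S + 1) := one_lt_pow₀ S.one_lt_q (Nat.succ_ne_zero _)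
  rw [← Nat.cast_pow, ← h1]
  rw [← h1] at h2
  rw [MM_cons, ← h3, ← h] at h2 ⊢
  change 1 < homN Y (Y.prod X) at h2
  change (cc w (Y.prod X) : ℚ) / autN (Y.prod X) =
    (cc w X : ℚ) / autN X / (1 - (homN Y (Y.prod X) : ℚ))
  rw [cc_prod hY hX1, autN_prod hY hX2]
  have h4 : (homN X Y : ℚ) ≠ 0 := Nat.cast_ne_zero.2 homN_pos.ne'
  have h5 : (autN X : ℚ) ≠ 0 := Nat.cast_ne_zero.2 autN_pos.ne'
  have h6 : (homN Y (Y.prod X) : ℚ) - 1 ≠ 0 := sub_ne_zero.2 (by exact_mod_cast h2.ne')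
  have h7 : 1 - (homN Y (Y.prod X) : ℚ) ≠ 0 := sub_ne_zero.2 (by exact_mod_cast h2.ne)
  push_cast [Nat.cast_sub h2.le]
  field_simp
  ring

lemma exists_MM_eq (X : QR K s t) (h0 : tw w X.dv = 0) (hc : cc w X ≠ 0) :
    ∃ m : Multiset (StC K s t w), MM m = cl X := by
  induction h : ∑ i, X.dv i using Nat.strong_induction_on generalizing X with
  | _ N ih =>
  by_cases h1 : X.dv = 0
  · exact ⟨0, (cl_eq.2 (isom_zero_of_dv h1)).symm⟩
  obtain ⟨S, Y, hS, hY, hi⟩ := exists_split h0 h1 hc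
  have h2 := hi.dv_eq
  rw [dv_prod] at h2
  have h3 : 0 < ∑ i, S.dv i := by
    by_contra h4
    exact hS.2.1 (funext fun i => (Finset.sum_eq_zero_iff.1 (Nat.eq_zero_of_not_pos h4)) i
      (Finset.mem_univ i))
  obtain ⟨m, hm⟩ := ih (∑ i, Y.dv i) (by
    rw [← h, ← h2]
    simp only [Pi.add_apply, Finset.sum_add_distrib]
    omega) Y (by rw [← h2, tw_add, hS.1, zero_add] at h0; exact h0) hY rfl
  exact ⟨⟨cl S, hS⟩ ::ₘ m, by rw [MM_cons, hm, ← cl_prod, cl_eq.2 hi]⟩

lemma count_mul_wt (S : StC K s t w) (m : Multiset (StC K s t w)) :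
    m.count S * Cl.wt w (MM m) = ∑ r ∈ Finset.Icc 1 (m.count S),
      Cl.wt w (MM (m - Multiset.replicate r S)) / (1 - (S.q : ℚ) ^ r) := by
  set m₀ := m - Multiset.replicate (m.count S) S with hm₀
  have h0 : m₀.count S = 0 := by simp [hm₀]
  have h1 : ∀ r, r ≤ m.count S →
      m - Multiset.replicate r S = Multiset.replicate (m.count S - r) S + m₀ := by
    intro r hr
    ext T
    by_cases hT : T = S
    · subst hT
      simp [h0]
    · simp [hm₀, Multiset.count_replicate, Ne.symm hT]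
  have := q_identity (S.q : ℚ) (by exact_mod_cast S.one_lt_q)
    (fun j => Cl.wt w (MM (Multiset.replicate j S + m₀))) (fun j => by
      rw [Multiset.replicate_succ, Multiset.cons_add, wt_cons]
      simp [h0]) (m.count S)
  have h2 := h1 0 (Nat.zero_le _)
  simp only [Multiset.replicate_zero, tsub_zero] at h2
  rw [← h2] at this
  rw [this]
  exact Finset.sum_congr rfl fun r hr => by rw [h1 r (Finset.mem_Icc.1 hr).2]

variable [Fintype A]

omit [Fintype ι] [Finite K] [Fintype A] in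
lemma exists_std (X : QR K s t) {e : ι → ℕ} (h : X.dv = e) :
    ∃ ρ, Isom ((std K s t e).withA ρ) X :=
  ⟨_, ⟨pullIso (fun i => LinearEquiv.ofFinrankEq _ _
    ((congrFun (dv_std e) i).trans (congrFun h i).symm)) X.a⟩⟩

omit [Fintype ι] in
lemma finite_cl (e : ι → ℕ) : {C : Cl K s t | Cl.dv C = e}.Finite := by
  have : ∀ a, Finite ((std K s t e).M (s a) →ₗ[K] (std K s t e).M (t a)) := fun _ =>
    Module.finite_of_finite K
  refine (Set.finite_range fun ρ : (std K s t e).Str => cl ((std K s t e).withA ρ)).subset ?_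
  intro C hC
  obtain ⟨X, rfl⟩ := cl_surj C
  obtain ⟨ρ, h⟩ := exists_std X hC
  exact ⟨ρ, cl_eq.2 h⟩

noncomputable def clF (K : Type) [Field K] [Finite K] (s t : A → ι) (e : ι → ℕ) :
    Finset (Cl K s t) := (finite_cl e).toFinset

omit [Fintype ι] in
lemma mem_clF {e : ι → ℕ} {C : Cl K s t} : C ∈ clF K s t e ↔ Cl.dv C = e :=
  Set.Finite.mem_toFinset _

lemma PP_div (e : ι → ℕ) :
    (PP w (std K s t e) : ℚ) / ∏ i, (gam (Nat.card K) (e i) (e i) : ℚ) =
      ∑ C ∈ clF K s t e, Cl.wt w C := by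
  rw [PP, ← Finset.sum_fiberwise_of_maps_to (t := clF K s t e)
    (g := fun ρ => cl ((std K s t e).withA ρ)) (fun ρ _ => mem_clF.2 (dv_std (K := K) (s := s) (t := t) e))]
  push_cast
  rw [Finset.sum_div]
  refine Finset.sum_congr rfl fun C hC => ?_
  obtain ⟨X, rfl⟩ := cl_surj C
  obtain rfl : X.dv = e := mem_clF.1 hC
  rw [Finset.sum_congr rfl (g := fun _ => (cc w X : ℚ)), Finset.sum_const, nsmul_eq_mul]
  · have h1 := mass X
    rw [Nat.card_eq_fintype_card, Fintype.card_subtype] at h1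
    simp only [← cl_eq] at h1
    have h2 : ∏ i, (gam (Nat.card K) (X.dv i) (X.dv i) : ℚ) ≠ 0 :=
      Finset.prod_ne_zero_iff.2 fun i _ => Nat.cast_ne_zero.2
        (gam_pos Finite.one_lt_card le_rfl).ne'
    have h5 : (autN X : ℚ) ≠ 0 := Nat.cast_ne_zero.2 autN_pos.ne'
    change _ = (cc w X : ℚ) / autN X
    rw [div_eq_div_iff h2 h5, ← Nat.cast_prod, ← h1]
    push_cast
    ring
  · intro ρ hρ
    rw [Isom.cc_eq (cl_eq.1 (Finset.mem_filter.1 hρ).2)]

noncomputable def mF (K : Type) [Field K] [Finite K] (s t : A → ι) (w : ι → ℝ) (e : ι → ℕ) :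
    Finset (Multiset (StC K s t w)) := (clF K s t e).preimage MM MM_inj.injOn

lemma mem_mF {e : ι → ℕ} {m : Multiset (StC K s t w)} : m ∈ mF K s t w e ↔ Cl.dv (MM m) = e := by
  rw [mF, Finset.mem_preimage, mem_clF]

noncomputable def pm (K : Type) [Field K] [Finite K] (s t : A → ι) (w : ι → ℝ) (e : ι → ℕ) : ℚ :=
  ∑ m ∈ mF K s t w e, Cl.wt w (MM m)

lemma sum_clF {e : ι → ℕ} (he : tw w e = 0) : ∑ C ∈ clF K s t e, Cl.wt w C = pm K s t w e := by
  rw [pm, mF, Finset.sum_preimage MM _ _ (Cl.wt w)]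
  intro C hC hr
  obtain ⟨X, rfl⟩ := cl_surj C
  obtain rfl : X.dv = e := mem_clF.1 hC
  by_cases hc : cc w X = 0
  · change (cc w X : ℚ) / _ = 0
    simp [hc]
  · exact absurd (exists_MM_eq X he hc) hr

lemma finite_pr {e : ι → ℕ} :
    {p : StC K s t w × ℕ | 1 ≤ p.2 ∧ p.2 • p.1.dv = e}.Finite := by
  refine Set.Finite.of_finite_image (f := fun p => Multiset.replicate p.2 p.1)
    ((mF K s t w e).finite_toSet.subset ?_) ?_
  · rintro _ ⟨p, hp, rfl⟩
    exact Finset.mem_coe.2 (mem_mF.2 (by rw [dv_MM_replicate]; exact hp.2))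
  · intro p hp p' _ h
    have h1 : p.2 = p'.2 := by simpa using congrArg Multiset.card h
    refine Prod.ext ?_ h1
    have : p.1 ∈ Multiset.replicate p'.2 p'.1 :=
      (show Multiset.replicate p.2 p.1 = Multiset.replicate p'.2 p'.1 from h) ▸
        Multiset.mem_replicate.2 ⟨by have := hp.1; omega, rfl⟩
    exact (Multiset.mem_replicate.1 this).2

noncomputable def prF (K : Type) [Field K] [Finite K] (s t : A → ι) (w : ι → ℝ) (e : ι → ℕ) :
    Finset (StC K s t w × ℕ) := (finite_pr (e := e)).toFinset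

lemma mem_prF {e : ι → ℕ} {p : StC K s t w × ℕ} :
    p ∈ prF K s t w e ↔ 1 ≤ p.2 ∧ p.2 • p.1.dv = e := Set.Finite.mem_toFinset _

noncomputable def gm (K : Type) [Field K] [Finite K] (s t : A → ι) (w : ι → ℝ) (e : ι → ℕ) : ℚ :=
  ∑ p ∈ prF K s t w e, (∑ i, p.1.dv i : ℕ) / (1 - (p.1.q : ℚ) ^ p.2)

omit [Finite K] [Fintype A] in
lemma sum_dv_MM (m : Multiset (StC K s t w)) :
    ∑ i, Cl.dv (MM m) i = ∑ S ∈ m.toFinset, m.count S * ∑ i, S.dv i := by
  rw [MM, map_multiset_sum, Multiset.map_map, Finset.sum_multiset_map_count]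
  simp only [Finset.sum_apply, Finset.mul_sum]
  rw [Finset.sum_comm]
  rfl

theorem log_identity [DecidableEq ι] (e : ι → ℕ) :
    (∑ i, e i : ℕ) * pm K s t w e = ∑ e' ∈ Finset.Iic e, gm K s t w e' * pm K s t w (e - e') := by
  have hL : (∑ i, e i : ℕ) * pm K s t w e = ∑ m ∈ mF K s t w e, ∑ S ∈ m.toFinset,
      ∑ r ∈ Finset.Icc 1 (m.count S), (∑ i, S.dv i : ℕ) / (1 - (S.q : ℚ) ^ r) *
        Cl.wt w (MM (m - Multiset.replicate r S)) := by
    rw [pm, Finset.mul_sum]
    refine Finset.sum_congr rfl fun m hm => ?_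
    rw [← mem_mF.1 hm, sum_dv_MM, Nat.cast_sum, Finset.sum_mul]
    refine Finset.sum_congr rfl fun S _ => ?_
    rw [Nat.cast_mul, mul_right_comm, count_mul_wt, Finset.sum_mul]
    exact Finset.sum_congr rfl fun r _ => by ring
  rw [hL]
  simp only [gm, pm, Finset.sum_mul_sum, Finset.sum_sigma']
  refine Finset.sum_bij' (fun x _ => ⟨x.2.2 • x.2.1.dv, (x.2.1, x.2.2),
      x.1 - Multiset.replicate x.2.2 x.2.1⟩)
    (fun y _ => ⟨y.2.2 + Multiset.replicate y.2.1.2 y.2.1.1, y.2.1.1, y.2.1.2⟩) ?_ ?_ ?_ ?_ ?_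
  · rintro ⟨m, S, r⟩ hx
    simp only [Finset.mem_sigma, mem_mF, Finset.mem_Icc, Finset.mem_Iic, mem_prF] at hx ⊢
    have h1 : m = (m - Multiset.replicate r S) + Multiset.replicate r S :=
      (tsub_add_cancel_of_le (Multiset.le_count_iff_replicate_le.1 hx.2.2.2)).symm
    have h2 := hx.1
    rw [h1, MM_add, map_add, dv_MM_replicate] at h2
    exact ⟨h2 ▸ le_add_self, ⟨hx.2.2.1, trivial⟩, by rw [← h2, add_tsub_cancel_right]⟩
  · rintro ⟨e', ⟨S, r⟩, m⟩ hy
    simp only [Finset.mem_sigma, mem_mF, Finset.mem_Icc, Finset.mem_Iic, mem_prF,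
      Multiset.mem_toFinset] at hy ⊢
    refine ⟨?_, ?_, hy.2.1.1, by simp⟩
    · rw [MM_add, map_add, dv_MM_replicate, hy.2.2, hy.2.1.2, tsub_add_cancel_of_le hy.1]
    · exact Multiset.mem_add.2 (Or.inr (Multiset.mem_replicate.2 ⟨by have := hy.2.1.1; omega, rfl⟩))
  · rintro ⟨m, S, r⟩ hx
    simp only [Finset.mem_sigma, Finset.mem_Icc] at hx
    simp only [tsub_add_cancel_of_le (Multiset.le_count_iff_replicate_le.1 hx.2.2.2)]
  · rintro ⟨e', ⟨S, r⟩, m⟩ hy
    simp only [Finset.mem_sigma, mem_prF] at hy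
    simp only [hy.2.1.2, add_tsub_cancel_right]
  · rintro ⟨m, S, r⟩ _
    rfl

end QR

end Pool.Agent.P.MP_d34769_ag
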