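import Pool.Agent.P.MP_d34769_ag.Mob

/-! Representations of a finite quiver: subrepresentations, homomorphisms, King stability. -/

namespace Pool.Agent.P.MP_d34769_ag

open Module

/-- A finite-dimensional representation of the quiver with arrows `e : s e → t e`. -/
structure QR (K : Type) [Field K] {ι A : Type} (s t : A → ι) : Type 1 where
  M : ι → Type
  [ag : ∀ i, AddCommGroup (M i)]
  [md : ∀ i, Module K (M i)]
  [fd : ∀ i, FiniteDimensional K (M i)]
  a : ∀ e, M (s e) →ₗ[K] M (t e)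

attribute [instance] QR.ag QR.md QR.fd

/-- The value of the stability function on a dimension vector. -/
noncomputable def tw {ι : Type} [Fintype ι] (w : ι → ℝ) (e : ι → ℕ) : ℝ := ∑ i, w i * e i

lemma tw_add {ι : Type} [Fintype ι] (w : ι → ℝ) (e e' : ι → ℕ) :
    tw w (e + e') = tw w e + tw w e' := by
  simp [tw, mul_add, Finset.sum_add_distrib]

lemma tw_zero {ι : Type} [Fintype ι] (w : ι → ℝ) : tw w 0 = 0 := by simp [tw]

lemma tw_smul {ι : Type} [Fintype ι] (w : ι → ℝ) (r : ℕ) (e : ι → ℕ) :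
    tw w (r • e) = r * tw w e := by
  simp only [tw, Finset.mul_sum, Pi.smul_apply, smul_eq_mul, Nat.cast_mul]
  exact Finset.sum_congr rfl fun i _ => by ring

namespace QR

variable {K : Type} [Field K] {ι A : Type} {s t : A → ι}

abbrev Sub (X : QR K s t) := ∀ i, Submodule K (X.M i)

abbrev Fam (X Y : QR K s t) := ∀ i, X.M i →ₗ[K] Y.M i

def IsSub (X : QR K s t) (U : X.Sub) : Prop := ∀ e, ∀ x ∈ U (s e), X.a e x ∈ U (t e)

def IsHom (X Y : QR K s t) (f : Fam X Y) : Prop :=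
  ∀ e x, f (t e) (X.a e x) = Y.a e (f (s e) x)

noncomputable def dv (X : QR K s t) : ι → ℕ := fun i => finrank K (X.M i)

noncomputable def ds {X : QR K s t} (U : X.Sub) : ι → ℕ := fun i => finrank K (U i)

def mapS {X Y : QR K s t} (f : Fam X Y) (U : X.Sub) : Y.Sub := fun i => (U i).map (f i)

def comapS {X Y : QR K s t} (f : Fam X Y) (U : Y.Sub) : X.Sub := fun i => (U i).comap (f i)

def comp {X Y Z : QR K s t} (g : Fam Y Z) (f : Fam X Y) : Fam X Z := fun i => (g i).comp (f i)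

def idF (X : QR K s t) : Fam X X := fun _ => LinearMap.id

/-- The subrepresentation as a representation. -/
def sub (X : QR K s t) (U : X.Sub) (hU : X.IsSub U) : QR K s t where
  M i := U i
  a e := (X.a e).restrict (hU e)

def subF (X : QR K s t) (U : X.Sub) (hU : X.IsSub U) : Fam (X.sub U hU) X :=
  fun i => (U i).subtype

def prod (X Y : QR K s t) : QR K s t where
  M i := X.M i × Y.M i
  a e := (X.a e).prodMap (Y.a e)

def zero (K : Type) [Field K] (s t : A → ι) : QR K s t where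
  M _ := PUnit
  a _ := 0

def Iso (X Y : QR K s t) : Type :=
  {f : ∀ i, X.M i ≃ₗ[K] Y.M i // IsHom X Y fun i => (f i).toLinearMap}

def Isom (X Y : QR K s t) : Prop := Nonempty (Iso X Y)

variable {X Y Z : QR K s t}

lemma IsSub.bot : X.IsSub ⊥ := fun e x hx => by
  simp only [Pi.bot_apply, Submodule.mem_bot] at hx ⊢
  simp [hx]

lemma IsSub.top : X.IsSub ⊤ := fun _ _ _ => trivial

lemma IsSub.inf {U V : X.Sub} (hU : X.IsSub U) (hV : X.IsSub V) : X.IsSub (U ⊓ V) :=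
  fun e x hx => ⟨hU e x hx.1, hV e x hx.2⟩

lemma IsSub.sup {U V : X.Sub} (hU : X.IsSub U) (hV : X.IsSub V) : X.IsSub (U ⊔ V) := by
  intro e x hx
  simp only [Pi.sup_apply, Submodule.mem_sup] at hx ⊢
  obtain ⟨y, hy, z, hz, rfl⟩ := hx
  exact ⟨_, hU e y hy, _, hV e z hz, by simp⟩

lemma IsHom.mapS {f : Fam X Y} (hf : IsHom X Y f) {U : X.Sub} (hU : X.IsSub U) :
    Y.IsSub (mapS f U) := by
  rintro e _ ⟨x, hx, rfl⟩
  exact ⟨_, hU e x hx, hf e x⟩

lemma IsHom.comapS {f : Fam X Y} (hf : IsHom X Y f) {U : Y.Sub} (hU : Y.IsSub U) :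
    X.IsSub (comapS f U) := by
  intro e x hx
  change f _ _ ∈ U _
  rw [hf]
  exact hU e _ hx

lemma IsHom.comp {g : Fam Y Z} {f : Fam X Y} (hg : IsHom Y Z g) (hf : IsHom X Y f) :
    IsHom X Z (comp g f) := fun e x => by
  change g _ (f _ _) = Z.a e (g _ (f _ _))
  rw [hf, hg]

lemma IsHom.id : IsHom X X (idF X) := fun _ _ => rfl

lemma IsHom.zero : IsHom X Y 0 := fun e x => by simp

lemma IsHom.add {f g : Fam X Y} (hf : IsHom X Y f) (hg : IsHom X Y g) : IsHom X Y (f + g) :=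
  fun e x => by simp [hf e x, hg e x]

lemma IsHom.sub {f g : Fam X Y} (hf : IsHom X Y f) (hg : IsHom X Y g) : IsHom X Y (f - g) :=
  fun e x => by simp [hf e x, hg e x]

lemma IsHom.smul {f : Fam X Y} (hf : IsHom X Y f) (c : K) : IsHom X Y (c • f) :=
  fun e x => by simp [hf e x]

lemma isHom_subF {U : X.Sub} (hU : X.IsSub U) : IsHom _ _ (X.subF U hU) := fun _ _ => rfl

lemma subF_inj {U : X.Sub} (hU : X.IsSub U) (i) : Function.Injective (X.subF U hU i) :=
  Subtype.val_injective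

lemma mapS_subF_top {U : X.Sub} (hU : X.IsSub U) : mapS (X.subF U hU) ⊤ = U := by
  funext i
  exact Submodule.map_subtype_top (U i)

lemma dv_sub {U : X.Sub} (hU : X.IsSub U) : (X.sub U hU).dv = ds U := rfl

lemma ds_top : ds (⊤ : X.Sub) = X.dv := funext fun _ => finrank_top _ _

lemma ds_bot : ds (⊥ : X.Sub) = 0 := funext fun _ => finrank_bot _ _

lemma ds_sup_inf (U V : X.Sub) : ds (U ⊔ V) + ds (U ⊓ V) = ds U + ds V :=
  funext fun i => Submodule.finrank_sup_add_finrank_inf_eq (U i) (V i)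

lemma ds_le (U : X.Sub) : ds U ≤ X.dv := fun i => Submodule.finrank_le (U i)

lemma ds_eq_zero {U : X.Sub} : ds U = 0 ↔ U = ⊥ := by
  refine ⟨fun h => funext fun i => Submodule.finrank_eq_zero.1 (congrFun h i), ?_⟩
  rintro rfl
  exact ds_bot

lemma ds_eq_dv {U : X.Sub} : ds U = X.dv ↔ U = ⊤ := by
  refine ⟨fun h => funext fun i => Submodule.eq_top_of_finrank_eq (congrFun h i), ?_⟩
  rintro rfl
  exact ds_top

lemma dv_eq_zero : X.dv = 0 ↔ (⊤ : X.Sub) = ⊥ := by rw [← ds_top, ds_eq_zero]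

lemma finrank_map_add {V W : Type} [AddCommGroup V] [Module K V] [AddCommGroup W] [Module K W]
    [FiniteDimensional K V] (f : V →ₗ[K] W) (U : Submodule K V) :
    finrank K (U.map f) + finrank K (U ⊓ LinearMap.ker f : Submodule K V) = finrank K U := by
  have := (f.domRestrict U).finrank_range_add_finrank_ker
  rw [LinearMap.range_domRestrict, LinearMap.ker_domRestrict] at this
  rw [← this]
  congr 1
  rw [← Submodule.finrank_map_subtype_eq U, Submodule.map_comap_subtype]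

lemma ds_mapS (f : Fam X Y) (U : X.Sub) : ds (mapS f U) + ds (U ⊓ comapS f ⊥) = ds U :=
  funext fun i => finrank_map_add (f i) (U i)

lemma comapS_bot_eq_bot {f : Fam X Y} : comapS f ⊥ = ⊥ ↔ ∀ i, Function.Injective (f i) := by
  rw [funext_iff]
  exact forall_congr' fun i => LinearMap.ker_eq_bot

lemma comapS_bot_eq_top {f : Fam X Y} : comapS f ⊥ = ⊤ ↔ f = 0 := by
  rw [funext_iff, funext_iff]
  exact forall_congr' fun i => LinearMap.ker_eq_top

lemma mapS_top_eq_top {f : Fam X Y} : mapS f ⊤ = ⊤ ↔ ∀ i, Function.Surjective (f i) := by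
  rw [funext_iff]
  refine forall_congr' fun i => ?_
  change Submodule.map (f i) ⊤ = ⊤ ↔ _
  rw [Submodule.map_top, LinearMap.range_eq_top]

lemma mapS_top_eq_bot {f : Fam X Y} : mapS f ⊤ = ⊥ ↔ f = 0 := by
  rw [funext_iff, funext_iff]
  refine forall_congr' fun i => ?_
  change Submodule.map (f i) ⊤ = ⊥ ↔ _
  rw [Submodule.map_top, LinearMap.range_eq_bot]
  rfl

lemma ds_mapS_inj {f : Fam X Y} (hf : ∀ i, Function.Injective (f i)) (U : X.Sub) :
    ds (mapS f U) = ds U := by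
  have := ds_mapS f U
  rwa [comapS_bot_eq_bot.2 hf, inf_bot_eq, ds_bot, add_zero] at this

lemma mapS_le_iff {f : Fam X Y} (hf : ∀ i, Function.Injective (f i)) (U V : X.Sub) :
    mapS f U ≤ mapS f V ↔ U ≤ V :=
  forall_congr' fun i => Submodule.map_le_map_iff_of_injective (hf i) _ _

lemma mapS_bot (f : Fam X Y) : mapS f ⊥ = ⊥ := funext fun i => Submodule.map_bot _

lemma mapS_mono (f : Fam X Y) {U V : X.Sub} (h : U ≤ V) : mapS f U ≤ mapS f V :=
  fun i => Submodule.map_mono (h i)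

lemma mapS_comapS {f : Fam X Y} {U : Y.Sub} : mapS f (comapS f U) = mapS f ⊤ ⊓ U := by
  funext i
  change Submodule.map (f i) (Submodule.comap (f i) (U i)) = Submodule.map (f i) ⊤ ⊓ U i
  rw [Submodule.map_comap_eq, Submodule.map_top]

lemma mapS_inj {f : Fam X Y} (hf : ∀ i, Function.Injective (f i)) :
    Function.Injective (mapS f) := fun U V h =>
  le_antisymm ((mapS_le_iff hf _ _).1 h.le) ((mapS_le_iff hf _ _).1 h.ge)

/-! ### Isomorphisms -/

def Iso.fam (φ : Iso X Y) : Fam X Y := fun i => (φ.1 i).toLinearMap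

lemma Iso.isHom (φ : Iso X Y) : IsHom X Y φ.fam := φ.2

lemma Iso.inj (φ : Iso X Y) (i) : Function.Injective (φ.fam i) := (φ.1 i).injective

lemma Iso.surj (φ : Iso X Y) (i) : Function.Surjective (φ.fam i) := (φ.1 i).surjective

def Iso.refl (X : QR K s t) : Iso X X := ⟨fun _ => LinearEquiv.refl _ _, fun _ _ => rfl⟩

def Iso.symm (φ : Iso X Y) : Iso Y X :=
  ⟨fun i => (φ.1 i).symm, fun e y => by
    apply (φ.1 _).injective
    have := φ.2 e ((φ.1 _).symm y)
    simp only [LinearEquiv.coe_coe, LinearEquiv.apply_symm_apply] at this ⊢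
    exact this.symm⟩

def Iso.trans (φ : Iso X Y) (ψ : Iso Y Z) : Iso X Z :=
  ⟨fun i => (φ.1 i).trans (ψ.1 i), ψ.isHom.comp φ.isHom⟩

noncomputable def Iso.ofBij {f : Fam X Y} (hf : IsHom X Y f) (h : ∀ i, Function.Bijective (f i)) :
    Iso X Y := ⟨fun i => LinearEquiv.ofBijective (f i) (h i), hf⟩

lemma Isom.refl (X : QR K s t) : Isom X X := ⟨Iso.refl X⟩

lemma Isom.symm (h : Isom X Y) : Isom Y X := h.elim fun φ => ⟨φ.symm⟩

lemma Isom.trans (h : Isom X Y) (h' : Isom Y Z) : Isom X Z :=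
  h.elim fun φ => h'.elim fun ψ => ⟨φ.trans ψ⟩

lemma Isom.dv_eq (h : Isom X Y) : X.dv = Y.dv :=
  h.elim fun φ => funext fun i => (φ.1 i).finrank_eq

lemma IsHom.isom {f : Fam X Y} (hf : IsHom X Y f) (h : ∀ i, Function.Bijective (f i)) :
    Isom X Y := ⟨Iso.ofBij hf h⟩

lemma Isom.prod {X' Y' : QR K s t} (h : Isom X X') (h' : Isom Y Y') :
    Isom (X.prod Y) (X'.prod Y') :=
  h.elim fun φ => h'.elim fun ψ => ⟨⟨fun i => (φ.1 i).prodCongr (ψ.1 i), fun e x =>
    Prod.ext (φ.2 e x.1) (ψ.2 e x.2)⟩⟩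

lemma isom_prod_comm (X Y : QR K s t) : Isom (X.prod Y) (Y.prod X) :=
  ⟨⟨fun _ => LinearEquiv.prodComm K _ _, fun _ _ => rfl⟩⟩

lemma isom_prod_assoc (X Y Z : QR K s t) : Isom ((X.prod Y).prod Z) (X.prod (Y.prod Z)) :=
  ⟨⟨fun _ => LinearEquiv.prodAssoc K _ _ _, fun _ _ => rfl⟩⟩

lemma isom_prod_zero (X : QR K s t) : Isom (X.prod (zero K s t)) X :=
  ⟨⟨fun i => LinearEquiv.prodUnique (R := K) (M := X.M i) (M₂ := PUnit), fun _ _ => rfl⟩⟩

lemma dv_prod (X Y : QR K s t) : (X.prod Y).dv = X.dv + Y.dv :=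
  funext fun _ => Module.finrank_prod

lemma dv_zero : (zero K s t).dv = 0 :=
  funext fun _ => Module.finrank_zero_of_subsingleton (R := K) (M := PUnit)

lemma isom_zero_of_dv (h : X.dv = 0) : Isom X (zero K s t) := by
  refine (IsHom.zero (X := X) (Y := zero K s t)).isom fun i => ?_
  have : Subsingleton (X.M i) := Module.finrank_zero_iff.1 (congrFun h i)
  have : Subsingleton ((zero K s t).M i) := inferInstanceAs (Subsingleton PUnit)
  exact ⟨fun _ _ _ => Subsingleton.elim _ _, fun y => ⟨0, Subsingleton.elim _ _⟩⟩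

def inl (X Y : QR K s t) : Fam X (X.prod Y) := fun _ => LinearMap.inl K _ _
def inr (X Y : QR K s t) : Fam Y (X.prod Y) := fun _ => LinearMap.inr K _ _
def fst (X Y : QR K s t) : Fam (X.prod Y) X := fun _ => LinearMap.fst K _ _
def snd (X Y : QR K s t) : Fam (X.prod Y) Y := fun _ => LinearMap.snd K _ _

lemma isHom_inl : IsHom _ _ (inl X Y) := fun e x => Prod.ext rfl (map_zero (Y.a e)).symm
lemma isHom_inr : IsHom _ _ (inr X Y) := fun e x => Prod.ext (map_zero (X.a e)).symm rfl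
lemma isHom_fst : IsHom _ _ (fst X Y) := fun _ _ => rfl
lemma isHom_snd : IsHom _ _ (snd X Y) := fun _ _ => rfl

/-- A complemented pair of subrepresentations gives a direct sum decomposition. -/
lemma isom_prod_of_compl {U V : X.Sub} (hU : X.IsSub U) (hV : X.IsSub V) (h1 : U ⊓ V = ⊥)
    (h2 : U ⊔ V = ⊤) : Isom ((X.sub U hU).prod (X.sub V hV)) X := by
  have hc : ∀ i, IsCompl (U i) (V i) := fun i =>
    ⟨disjoint_iff.2 (congrFun h1 i), codisjoint_iff.2 (congrFun h2 i)⟩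
  refine ⟨⟨fun i => Submodule.prodEquivOfIsCompl _ _ (hc i), fun e x => ?_⟩⟩
  change (X.a e x.1.1) + X.a e x.2.1 = X.a e (x.1.1 + x.2.1)
  rw [map_add]

/-! ### Stability -/

variable [Fintype ι] (w : ι → ℝ)

noncomputable def th (U : X.Sub) : ℝ := tw w (ds U)

/-- All subrepresentations have nonpositive weight. -/
def NP (X : QR K s t) : Prop := ∀ U, X.IsSub U → th w U ≤ 0

def SS (X : QR K s t) : Prop := tw w X.dv = 0 ∧ NP w X

def St (X : QR K s t) : Prop :=
  tw w X.dv = 0 ∧ X.dv ≠ 0 ∧ ∀ U, X.IsSub U → U ≠ ⊥ → U ≠ ⊤ → th w U < 0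

variable {w}

lemma th_top : th w (⊤ : X.Sub) = tw w X.dv := by rw [th, ds_top]

lemma th_bot : th w (⊥ : X.Sub) = 0 := by rw [th, ds_bot, tw_zero]

lemma th_sup_inf (U V : X.Sub) : th w (U ⊔ V) + th w (U ⊓ V) = th w U + th w V := by
  simp only [th, ← tw_add, ds_sup_inf]

lemma th_mapS (f : Fam X Y) (U : X.Sub) :
    th w (mapS f U) + th w (U ⊓ comapS f ⊥) = th w U := by
  simp only [th, ← tw_add, ds_mapS]

lemma th_mapS_inj {f : Fam X Y} (hf : ∀ i, Function.Injective (f i)) (U : X.Sub) :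
    th w (mapS f U) = th w U := by simp only [th, ds_mapS_inj hf]

lemma St.np (h : St w X) : NP w X := fun U hU => by
  by_cases h1 : U = ⊥
  · rw [h1, th_bot]
  by_cases h2 : U = ⊤
  · rw [h2, th_top, h.1]
  exact (h.2.2 U hU h1 h2).le

lemma St.ss (h : St w X) : SS w X := ⟨h.1, h.np⟩

lemma St.top_ne_bot (h : St w X) : (⊤ : X.Sub) ≠ ⊥ := fun h' => h.2.1 (dv_eq_zero.2 h')

lemma St.eq_top (h : St w X) {U : X.Sub} (hU : X.IsSub U) (h1 : U ≠ ⊥) (h2 : 0 ≤ th w U) :
    U = ⊤ := by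
  by_contra h3
  exact absurd (h.2.2 U hU h1 h3) (not_lt.2 h2)

lemma NP.of_inj {f : Fam X Y} (hY : NP w Y) (hf : IsHom X Y f)
    (hi : ∀ i, Function.Injective (f i)) : NP w X := fun U hU => by
  rw [← th_mapS_inj hi]
  exact hY _ (hf.mapS hU)

lemma St.of_isom (h : St w X) (hi : Isom X Y) : St w Y := by
  obtain ⟨φ⟩ := hi.symm
  refine ⟨hi.dv_eq ▸ h.1, hi.dv_eq ▸ h.2.1, fun U hU h1 h2 => ?_⟩
  rw [← th_mapS_inj φ.inj]
  refine h.2.2 _ (φ.isHom.mapS hU) (fun h' => h1 ?_) (fun h' => h2 ?_)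
  · exact mapS_inj φ.inj (h'.trans (mapS_bot _).symm)
  · exact mapS_inj φ.inj (h'.trans (mapS_top_eq_top.2 φ.surj).symm)

lemma St.inj (h : St w X) (hY : NP w Y) {f : Fam X Y} (hf : IsHom X Y f) (h0 : f ≠ 0) :
    ∀ i, Function.Injective (f i) := by
  rw [← comapS_bot_eq_bot]
  by_contra h1
  have h2 := h.2.2 _ (hf.comapS IsSub.bot) h1 (fun h' => h0 (comapS_bot_eq_top.1 h'))
  have h3 := th_mapS (w := w) f ⊤
  rw [top_inf_eq, th_top, h.1] at h3
  have := hY _ (hf.mapS IsSub.top)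
  linarith

lemma SS.th_range (hX : SS w X) {f : Fam X Y} (hf : IsHom X Y f) : 0 ≤ th w (mapS f ⊤) := by
  have h3 := th_mapS (w := w) f ⊤
  rw [top_inf_eq, th_top, hX.1] at h3
  have := hX.2 _ (hf.comapS IsSub.bot)
  linarith

lemma St.surj (h : St w Y) (hX : SS w X) {f : Fam X Y} (hf : IsHom X Y f) (h0 : f ≠ 0) :
    ∀ i, Function.Surjective (f i) :=
  mapS_top_eq_top.1 (h.eq_top (hf.mapS IsSub.top) (fun h' => h0 (mapS_top_eq_bot.1 h'))
    (hX.th_range hf))

/-- Schur's lemma. -/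
lemma St.bij (hX : St w X) (hY : St w Y) {f : Fam X Y} (hf : IsHom X Y f) (h0 : f ≠ 0) :
    ∀ i, Function.Bijective (f i) := fun i => ⟨hX.inj hY.np hf h0 i, hY.surj hX.ss hf h0 i⟩

lemma th_comapS_le (f : Fam X Y) (hX : NP w X) (hf : IsHom X Y f) {U : Y.Sub} (hU : Y.IsSub U)
    (h0 : tw w X.dv = 0) : th w U ≤ th w (U ⊔ mapS f ⊤) := by
  have h1 := th_sup_inf (w := w) U (mapS f ⊤)
  have h2 := th_mapS (w := w) f ⊤
  have h3 := th_mapS (w := w) f (comapS f U)
  rw [top_inf_eq, th_top, h0] at h2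
  have h4 : comapS f U ⊓ comapS f ⊥ = comapS f ⊥ :=
    inf_eq_right.2 fun i => Submodule.comap_mono bot_le
  rw [h4, mapS_comapS, inf_comm] at h3
  have := hX _ (hf.comapS hU)
  linarith

lemma NP.prod (hX : NP w X) (hY : NP w Y) : NP w (X.prod Y) := fun U hU => by
  have h1 := th_mapS (w := w) (snd X Y) U
  have h2 := hY _ (isHom_snd.mapS hU)
  have h3 : U ⊓ comapS (snd X Y) ⊥ = mapS (inl X Y) (comapS (inl X Y) U) := by
    rw [mapS_comapS, inf_comm]
    congr 1
    funext i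
    change LinearMap.ker (LinearMap.snd K _ _) = Submodule.map (LinearMap.inl K _ _) ⊤
    rw [Submodule.map_top, LinearMap.range_inl]
  rw [h3, th_mapS_inj (f := inl X Y) (fun _ => LinearMap.inl_injective)] at h1
  have := hX _ (isHom_inl.comapS hU)
  linarith

lemma SS.prod (hX : SS w X) (hY : SS w Y) : SS w (X.prod Y) :=
  ⟨by rw [dv_prod, tw_add, hX.1, hY.1, add_zero], hX.2.prod hY.2⟩

lemma ss_zero : SS w (zero K s t) := by
  refine ⟨by rw [dv_zero, tw_zero], fun U _ => ?_⟩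
  have : U = ⊥ := le_bot_iff.1 ((le_top (a := U)).trans (dv_eq_zero.1 dv_zero).le)
  rw [this, th_bot]

/-- A nonzero subrepresentation of weight zero contains a stable one. -/
lemma NP.exists_st (hX : NP w X) {U : X.Sub} (hU : X.IsSub U) (h0 : U ≠ ⊥) (h1 : 0 ≤ th w U) :
    ∃ (V : X.Sub) (hV : X.IsSub V), V ≤ U ∧ St w (X.sub V hV) := by
  have hwf : WellFounded (fun V V' : X.Sub => ∑ i, ds V i < ∑ i, ds V' i) :=
    InvImage.wf (fun V : X.Sub => ∑ i, ds V i) Nat.lt_wfRel.wf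
  obtain ⟨V, ⟨hV, hVU, hV0, hV1⟩, hmin⟩ :=
    hwf.has_min {V | X.IsSub V ∧ V ≤ U ∧ V ≠ ⊥ ∧ 0 ≤ th w V} ⟨U, hU, le_rfl, h0, h1⟩
  refine ⟨V, hV, hVU, le_antisymm (hX V hV) hV1, fun h => hV0 (ds_eq_zero.1 h),
    fun W hW hW0 hW1 => ?_⟩
  by_contra hlt
  have hle : mapS (X.subF V hV) W ≤ V := (mapS_mono _ le_top).trans (mapS_subF_top hV).le
  refine hmin (mapS (X.subF V hV) W) ⟨(isHom_subF hV).mapS hW, hle.trans hVU, fun h => hW0 ?_, ?_⟩ ?_
  · exact mapS_inj (subF_inj hV) (h.trans (mapS_bot _).symm)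
  · rw [th_mapS_inj (subF_inj hV)]
    exact not_lt.1 hlt
  · rw [ds_mapS_inj (subF_inj hV)]
    refine Finset.sum_lt_sum (fun i _ => ds_le W i) ?_
    by_contra hcon
    push Not at hcon
    exact hW1 (ds_eq_dv.1 (funext fun i => le_antisymm (ds_le W i) (hcon i (Finset.mem_univ _))))

end QR

end Pool.Agent.P.MP_d34769_ag
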