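import Pool.Agent.P.MP_d34769_ag.QCl

/-! Restriction and extension of scalars for representations over finite fields. -/

namespace Pool.Agent.P.MP_d34769_ag

open Module Classical TensorProduct

lemma finrank_of_card {K L V W : Type} [Field K] [Field L] [Finite K] [Finite L] [Algebra K L]
    [AddCommGroup V] [Module K V] [FiniteDimensional K V] [AddCommGroup W] [Module L W]
    [FiniteDimensional L W] (h : Nat.card V = Nat.card W) :
    finrank K V = finrank K L * finrank L W := by
  refine Nat.pow_right_injective (Finite.one_lt_card : 2 ≤ Nat.card K) ?_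
  simp only [pow_mul, ← Module.natCard_eq_pow_finrank, h]

namespace QR

variable {ι A : Type} {s t : A → ι} [Fintype ι]
variable (K : Type) [Field K] {L : Type} [Field L] [Finite L] [Algebra K L]

/-- Restriction of scalars. -/
def res (N : QR L s t) : QR K s t where
  M := N.M
  md i := Module.compHom (N.M i) (algebraMap K L)
  fd i := @Module.Finite.of_finite K _ _ _ (Module.compHom (N.M i) (algebraMap K L)) _
  a e := @LinearMap.mk _ _ _ _ _ _ _ _ _ (Module.compHom _ (algebraMap K L))
    (Module.compHom _ (algebraMap K L)) (N.a e).toAddHom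
    fun c x => (N.a e).map_smul (algebraMap K L c) x

instance (N : QR L s t) (i : ι) : Module L ((res K N).M i) := N.md i

variable {K}

lemma res_smul (N : QR L s t) (i : ι) (c : K) (x : (res K N).M i) :
    c • x = algebraMap K L c • x := rfl

lemma res_a_smul (N : QR L s t) (e : A) (c : L) (x : (res K N).M (s e)) :
    (res K N).a e (c • x) = c • (res K N).a e x := (N.a e).map_smul c x

variable (K) in
def resS {N : QR L s t} (U : N.Sub) : (res K N).Sub := fun i =>
  { toAddSubmonoid := (U i).toAddSubmonoid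
    smul_mem' := fun c _ hx => (U i).smul_mem (algebraMap K L c) hx }

def upS {N : QR L s t} (U : (res K N).Sub) (h : ∀ (c : L) i x, x ∈ U i → c • x ∈ U i) : N.Sub :=
  fun i =>
  { toAddSubmonoid := (U i).toAddSubmonoid
    smul_mem' := fun c x hx => h c i x hx }

variable (K) in
def resF {N N' : QR L s t} (f : Fam N N') : Fam (res K N) (res K N') := fun i =>
  { toAddHom := (f i).toAddHom
    map_smul' := fun c x => (f i).map_smul (algebraMap K L c) x }

variable (K) in
def smulF (N : QR L s t) (c : L) : Fam (res K N) (res K N) := resF K (c • idF N)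

lemma smulF_apply (N : QR L s t) (c : L) (i x) : smulF K N c i x = c • x := rfl

lemma IsHom.resF {N N' : QR L s t} {f : Fam N N'} (hf : IsHom N N' f) :
    IsHom _ _ (resF K f) := hf

lemma isHom_smulF (N : QR L s t) (c : L) : IsHom _ _ (smulF K N c) := (IsHom.id.smul c).resF

lemma IsSub.resS {N : QR L s t} {U : N.Sub} (hU : N.IsSub U) : (res K N).IsSub (resS K U) := hU

lemma resF_smul {N N' : QR L s t} (f : Fam N N') (i) (c : L) (x : (res K N).M i) :
    resF K f i (c • x) = c • resF K f i x := (f i).map_smul c x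

variable [Finite K] {w : ι → ℝ}

lemma ds_resS {N : QR L s t} (U : N.Sub) : ds (resS K U) = finrank K L • ds U :=
  funext fun i => finrank_of_card (V := resS K U i) (W := U i) rfl

lemma dv_res (N : QR L s t) : (res K N).dv = finrank K L • N.dv :=
  funext fun i => finrank_of_card (V := (res K N).M i) (W := N.M i) rfl

lemma th_resS {N : QR L s t} (U : N.Sub) : th w (resS K U) = finrank K L * th w U := by
  rw [th, ds_resS, tw_smul, th]

lemma finrank_pos' : 0 < finrank K L := Module.finrank_pos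

lemma NP.res {N : QR L s t} (hN : NP w N) : NP w (res K N) := by
  have := Fintype.ofFinite (QR.res K N).Sub
  obtain ⟨U₀, hU₀, hmax⟩ := Finset.exists_max_image (Finset.univ.filter (QR.res K N).IsSub) (th w)
    ⟨⊥, by simp [IsSub.bot]⟩
  simp only [Finset.mem_filter, Finset.mem_univ, true_and] at hU₀ hmax
  obtain ⟨U, ⟨hU, hth⟩, hmin⟩ := (wellFounded_gt (α := (QR.res K N).Sub)).has_min
    {V | (QR.res K N).IsSub V ∧ th w V = th w U₀} ⟨U₀, hU₀, rfl⟩
  have hinv : ∀ (c : L) i x, x ∈ U i → c • x ∈ U i := by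
    intro c i x hx
    by_cases hc : c = 0
    · rw [hc, zero_smul]
      exact Submodule.zero_mem _
    have h1 : (QR.res K N).IsSub (mapS (smulF K N c) U) := (isHom_smulF N c).mapS hU
    have h2 : th w (mapS (smulF K N c) U) = th w U :=
      th_mapS_inj (fun i => smul_right_injective (N.M i) hc) U
    have h3 := th_sup_inf (w := w) U (mapS (smulF K N c) U)
    have h4 := hmax _ (hU.inf h1)
    have h5 := hmax _ (hU.sup h1)
    have h6 : U ⊔ mapS (smulF K N c) U = U := by
      by_contra h7
      exact hmin _ ⟨hU.sup h1, by linarith⟩ (lt_of_le_of_ne le_sup_left (Ne.symm h7))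
    exact (sup_eq_left.1 h6) i ⟨x, hx, rfl⟩
  have h1 : th w U = finrank K L * th w (upS U hinv) := th_resS (upS U hinv)
  have h2 := hN (upS U hinv) hU
  intro V hV
  have := mul_nonpos_of_nonneg_of_nonpos (Nat.cast_nonneg (α := ℝ) (finrank K L)) h2
  linarith [hmax V hV]

/-- The span over the big field of the image of a map. -/
def spanS {S : QR K s t} {N : QR L s t} (g : Fam S (res K N)) : N.Sub :=
  fun i => Submodule.span L (Set.range fun x => (g i x : N.M i))

omit [Finite K] in
lemma spanS_le {S : QR K s t} {N : QR L s t} (g : Fam S (res K N)) (i) (P : AddSubgroup (N.M i))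
    (h : ∀ (c : L) x, (c • g i x : N.M i) ∈ P) {z} (hz : z ∈ spanS g i) : z ∈ P := by
  suffices ∀ c : L, c • z ∈ P by simpa using this 1
  induction hz using Submodule.span_induction with
  | mem _ hx =>
    obtain ⟨x, rfl⟩ := hx
    exact fun c => h c x
  | zero => simp
  | add x y _ _ hx hy => exact fun c => by rw [smul_add]; exact P.add_mem (hx c) (hy c)
  | smul a x _ hx => exact fun c => by rw [smul_smul]; exact hx _

omit [Finite K] in
lemma isSub_spanS {S : QR K s t} {N : QR L s t} {g : Fam S (res K N)} (hg : IsHom _ _ g) :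
    N.IsSub (spanS g) := by
  intro e x hx
  refine spanS_le g _ ((spanS g (t e)).toAddSubgroup.comap (N.a e).toAddMonoidHom) ?_ hx
  intro c y
  change (res K N).a e (c • g _ y) ∈ spanS g (t e)
  rw [res_a_smul]
  exact (spanS g (t e)).smul_mem c (Submodule.subset_span ⟨S.a e y, hg e y⟩)

lemma th_spanS {S : QR K s t} (hS : SS w S) {N : QR L s t} {g : Fam S (res K N)}
    (hg : IsHom _ _ g) : 0 ≤ th w (spanS g) := by
  obtain ⟨U, ⟨hU, hle, hth⟩, hmin⟩ := (wellFounded_gt (α := (QR.res K N).Sub)).has_min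
    {V | (QR.res K N).IsSub V ∧ V ≤ resS K (spanS g) ∧ 0 ≤ th w V}
    ⟨⊥, IsSub.bot, bot_le, th_bot.ge⟩
  have h1 : ∀ c : L, mapS (comp (smulF K N c) g) ⊤ ≤ U := by
    intro c
    have h2 := (isHom_smulF N c).comp hg
    rw [← sup_eq_left]
    by_contra h3
    refine hmin _ ⟨hU.sup (h2.mapS IsSub.top), sup_le hle ?_,
      hth.trans (th_comapS_le _ hS.2 h2 hU hS.1)⟩ (lt_of_le_of_ne le_sup_left (Ne.symm h3))
    rintro i _ ⟨x, -, rfl⟩
    exact (spanS g i).smul_mem c (Submodule.subset_span ⟨x, rfl⟩)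
  have h2 : U = resS K (spanS g) := le_antisymm hle fun i z hz =>
    spanS_le g i (U i).toAddSubgroup (fun c x => h1 c i ⟨x, trivial, rfl⟩) hz
  rw [h2, th_resS] at hth
  exact (mul_nonneg_iff_of_pos_left (Nat.cast_pos.2 finrank_pos')).1 hth

lemma spanS_eq_top {S : QR K s t} (hS : SS w S) {N : QR L s t} (hN : St w N)
    {g : Fam S (res K N)} (hg : IsHom _ _ g) (h0 : g ≠ 0) : spanS g = ⊤ :=
  hN.eq_top (isSub_spanS hg) (fun h => h0 <| fam_ext fun i x => by
    have : (g i x : N.M i) ∈ spanS g i := Submodule.subset_span ⟨x, rfl⟩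
    rw [h] at this
    exact this) (th_spanS hS hg)

omit [Finite K] [Fintype ι] in
lemma isom_range {X Y : QR K s t} {g : Fam X Y} (hg : IsHom X Y g)
    (hi : ∀ i, Function.Injective (g i)) : Isom X (Y.sub (mapS g ⊤) (hg.mapS IsSub.top)) := by
  refine IsHom.isom (f := fun i => (g i).codRestrict _ fun x => ⟨x, trivial, rfl⟩)
    (fun e x => Subtype.ext (hg e x)) fun i => ⟨fun x y h => hi i (congrArg Subtype.val h), ?_⟩
  rintro ⟨_, x, -, rfl⟩
  exact ⟨x, rfl⟩

lemma exists_retr {S : QR K s t} (hS : St w S) {N : QR L s t} (hN : St w N)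
    {g : Fam S (res K N)} (hg : IsHom _ _ g) (h0 : g ≠ 0) :
    ∃ π : Fam (res K N) S, IsHom _ _ π ∧ π ≠ 0 := by
  have hNP : NP w (res K N) := hN.np.res
  have hdv : tw w (res K N).dv = 0 := by rw [dv_res, tw_smul, hN.1, mul_zero]
  obtain ⟨U, ⟨hU, hne, hth⟩, hmin⟩ := (wellFounded_gt (α := (QR.res K N).Sub)).has_min
    {V | (QR.res K N).IsSub V ∧ V ≠ ⊤ ∧ 0 ≤ th w V}
    ⟨⊥, IsSub.bot, fun h => h0 (fam_ext fun i x => by
      have : g i x ∈ (⊤ : (res K N).Sub) i := trivial
      rw [← h] at this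
      exact this), th_bot.ge⟩
  obtain ⟨c, hc⟩ : ∃ c : L, ¬ mapS (comp (smulF K N c) g) ⊤ ≤ U := by
    by_contra h
    push Not at h
    refine hne (eq_top_iff.2 fun i z _ => ?_)
    exact spanS_le g i (U i).toAddSubgroup (fun c x => h c i ⟨x, trivial, rfl⟩)
      (by rw [spanS_eq_top hS.ss hN hg h0]; trivial)
  set j := comp (smulF K N c) g
  have hj : IsHom _ _ j := (isHom_smulF N c).comp hg
  have hi := hS.inj hNP hj fun h => hc (by rw [mapS_top_eq_bot.2 h]; exact bot_le)
  have h1 : U ⊔ mapS j ⊤ = ⊤ := by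
    by_contra h3
    exact hmin _ ⟨hU.sup (hj.mapS IsSub.top), h3, hth.trans (th_comapS_le _ hS.np hj hU hS.1)⟩
      (lt_of_le_of_ne le_sup_left fun h => hc (sup_eq_left.1 h.symm))
  have h2 : mapS j ⊤ ⊓ U = ⊥ := by
    rw [← mapS_comapS]
    by_contra h3
    have h4 := th_sup_inf (w := w) U (mapS j ⊤)
    rw [h1, th_top, hdv, inf_comm, ← mapS_comapS, th_mapS_inj hi, th_mapS_inj hi, th_top,
      hS.1] at h4
    have h5 := hS.eq_top (hj.comapS hU) (fun h => h3 (by rw [h, mapS_bot])) (by linarith)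
    exact hc (by rw [← h5, mapS_comapS]; exact inf_le_right)
  obtain ⟨φ⟩ := isom_prod_of_compl (hj.mapS IsSub.top) hU h2 (by rw [sup_comm, h1])
  obtain ⟨ψ⟩ := isom_range hj hi
  refine ⟨comp ψ.symm.fam (comp (fst _ _) φ.symm.fam),
    ψ.symm.isHom.comp (isHom_fst.comp φ.symm.isHom), fun h => hS.idF_ne (fam_ext fun i x => ?_)⟩
  have := LinearMap.congr_fun (congrFun h i) (φ.fam i (inl _ _ i (ψ.fam i x)))
  simp only [comp_apply, Iso.symm_apply_apply] at this
  exact (ψ.symm_apply_apply i x).symm.trans this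

omit [Finite K] in
lemma np_of_family {X Y : QR K s t} (hY : NP w Y) {κ : Type} (π : κ → Fam X Y)
    (hπ : ∀ l, IsHom X Y (π l)) (T : Finset κ) (U : X.Sub) (hU : X.IsSub U)
    (h : ∀ i, ∀ x ∈ U i, (∀ l ∈ T, π l i x = 0) → x = 0) : th w U ≤ 0 := by
  induction T using Finset.induction_on generalizing U with
  | empty =>
    have : U = ⊥ := eq_bot_iff.2 fun i x hx => h i x hx (by simp)
    rw [this, th_bot]
  | insert l T _ ih =>
    have h1 := th_mapS (w := w) (π l) U
    have h2 := hY _ ((hπ l).mapS hU)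
    have h3 := ih _ (hU.inf ((hπ l).comapS IsSub.bot)) fun i x hx hx' =>
      h i x hx.1 fun l' hl' => by
        rcases Finset.mem_insert.1 hl' with rfl | hl'
        · exact hx.2
        · exact hx' l' hl'
    linarith

/-- All endomorphisms over the small field are scalars of the big field. -/
def ScR (K : Type) [Field K] [Algebra K L] (T : QR L s t) : Prop :=
  ∀ f, IsHom (res K T) (res K T) f → ∃ c : L, ∀ i x, f i x = c • x

/-- All endomorphisms are scalars. -/
def Sc (X : QR K s t) : Prop := ∀ f, IsHom X X f → ∃ c : K, ∀ i x, f i x = c • x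

omit [Fintype ι] [Finite K] in
lemma exists_ne_of_dv {X : QR K s t} (h : X.dv ≠ 0) : ∃ i, ∃ x : X.M i, x ≠ 0 := by
  by_contra h'
  push Not at h'
  exact h (dv_eq_zero.2 (eq_bot_iff.2 fun i x _ => h' i x))

omit [Finite K] in
lemma ScR.homN_eq {T : QR L s t} (h : ScR K T) (h0 : T.dv ≠ 0) :
    homN (res K T) (res K T) = Nat.card L := by
  obtain ⟨i, x, hx⟩ := exists_ne_of_dv h0
  symm
  refine Nat.card_eq_of_bijective (fun c => ⟨smulF K T c, isHom_smulF T c⟩) ⟨fun c c' hc => ?_, ?_⟩
  · exact smul_left_injective L hx (LinearMap.congr_fun (congrFun (congrArg Subtype.val hc) i) x)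
  · rintro ⟨f, hf⟩
    obtain ⟨c, hc⟩ := h f hf
    exact ⟨c, Subtype.ext (fam_ext fun i x => (hc i x).symm)⟩

lemma sc_iff {X : QR K s t} (h0 : X.dv ≠ 0) : Sc X ↔ homN X X = Nat.card K := by
  obtain ⟨i, x, hx⟩ := exists_ne_of_dv h0
  let φ : K → {f : Fam X X // IsHom X X f} := fun c => ⟨c • idF X, IsHom.id.smul c⟩
  have hφ : Function.Injective φ := fun c c' hc =>
    smul_left_injective K hx (LinearMap.congr_fun (congrFun (congrArg Subtype.val hc) i) x)
  constructor
  · intro h
    refine (Nat.card_eq_of_bijective φ ⟨hφ, ?_⟩).symm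
    rintro ⟨f, hf⟩
    obtain ⟨c, hc⟩ := h f hf
    exact ⟨c, Subtype.ext (fam_ext fun i x => (hc i x).symm)⟩
  · intro h f hf
    obtain ⟨c, hc⟩ := ((Nat.bijective_iff_injective_and_card φ).2 ⟨hφ, h.symm⟩).2 ⟨f, hf⟩
    exact ⟨c, fun i x => (LinearMap.congr_fun (congrFun (congrArg Subtype.val hc) i) x).symm⟩

/-- The endomorphism algebra. -/
def EndA (S : QR K s t) : Subalgebra K (∀ i, Module.End K (S.M i)) where
  carrier := {f | IsHom S S f}
  mul_mem' hf hg := IsHom.comp hf hg
  add_mem' hf hg := IsHom.add hf hg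
  algebraMap_mem' c := IsHom.id.smul c

/-- A stable representation is defined over its endomorphism field. -/
lemma St.exists_field {S : QR K s t} (hS : St w S) :
    ∃ (F : Type) (_ : Field F) (_ : Finite F) (_ : Algebra K F) (T : QR F s t),
      Isom (res K T) S ∧ ScR K T := by
  have : Finite (EndA S) := inferInstanceAs (Finite {f : Fam S S // IsHom S S f})
  have : Nontrivial (EndA S) := ⟨1, 0, fun h => hS.idF_ne (congrArg Subtype.val h)⟩
  have : NoZeroDivisors (EndA S) := ⟨fun {f g} h => by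
    by_contra h'
    push Not at h'
    have h1 := hS.bij hS f.2 fun h => h'.1 (Subtype.ext h)
    refine h'.2 (Subtype.ext (fam_ext fun i x => (h1 i).1 ?_))
    exact (LinearMap.congr_fun (congrFun (congrArg Subtype.val h) i) x).trans (by simp)⟩
  have : IsDomain (EndA S) := NoZeroDivisors.to_isDomain _
  letI : Field (EndA S) := (Finite.isDomain_to_isField (EndA S)).toField
  letI md : ∀ i, Module (EndA S) (S.M i) := fun i => Module.compHom (S.M i)
    ((Pi.evalRingHom (fun i => Module.End K (S.M i)) i).comp (EndA S).val.toRingHom)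
  refine ⟨EndA S, inferInstance, inferInstance, (EndA S).algebra,
    { M := S.M, md := md, fd := fun i => Module.Finite.of_finite
      a := fun e => ⟨(S.a e).toAddHom, fun c x => (c.2 e x).symm⟩ }, ?_, ?_⟩
  · exact ⟨⟨fun i => ⟨⟨⟨id, fun _ _ => rfl⟩, fun _ _ => rfl⟩, id, fun _ => rfl, fun _ => rfl⟩,
      fun _ _ => rfl⟩⟩
  · intro f hf
    exact ⟨⟨fun i => ⟨(f i).toAddHom, (f i).map_smul⟩, hf⟩, fun _ _ => rfl⟩

end QR

end Pool.Agent.P.MP_d34769_ag
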