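import Pool.Agent.P.MP_d34769_ag.Split

namespace Pool.Agent.P.MP_d34769_ag

open LaurentPolynomial Matrix Module

variable {K : Type} [Field K]

namespace Splitting

variable {n : ℕ} {d : ℤ} {E : Bundle K n d} (D : Splitting E)

lemma injA : Function.Injective D.A.mulVec := by
  intro u v h
  have := congrArg D.B.mulVec h
  simpa [Matrix.mulVec_mulVec, D.BA] using this

lemma finrank_eq (m : ℤ) : finrank K (E.F m) = ∑ j, (m + D.b j + 1).toNat := by
  rw [D.eq, ← finrank_winPi (K := K)]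
  exact (Submodule.equivMapOfInjective (mv D.A) D.injA _).symm.finrank_eq

end Splitting

instance {n : ℕ} {d : ℤ} (E : Bundle K n d) (m : ℤ) : FiniteDimensional K (E.F m) := by
  obtain ⟨D⟩ := exists_splitting E
  rw [D.eq]; infer_instance

/-- `E` has no negative summand -/
def Bundle.NN {n : ℕ} {d : ℤ} (E : Bundle K n d) : Prop := (finrank K (E.F (-1)) : ℤ) = d

lemma sum_toNat_ge {r : ℕ} (b : Fin r → ℤ) : ∑ j, b j ≤ ((∑ j, (b j).toNat : ℕ) : ℤ) := by
  push_cast
  exact Finset.sum_le_sum fun j _ => Int.self_le_toNat _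

lemma sum_toNat_succ_le {r : ℕ} (b : Fin r → ℤ) :
    ∑ j, (b j + 1).toNat ≤ ∑ j, (b j).toNat + r := by
  have : ∑ j, (b j + 1).toNat ≤ ∑ j : Fin r, ((b j).toNat + 1) :=
    Finset.sum_le_sum fun j _ => by omega
  rw [Finset.sum_add_distrib] at this
  simpa using this

lemma sum_toNat_succ_lt {r : ℕ} (b : Fin r → ℤ) (j0 : Fin r) (h : b j0 < 0) :
    ∑ j, (b j + 1).toNat < ∑ j, (b j).toNat + r := by
  have : ∑ j, (b j + 1).toNat < ∑ j : Fin r, ((b j).toNat + 1) :=
    Finset.sum_lt_sum (fun j _ => by omega) ⟨j0, Finset.mem_univ _, by omega⟩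
  rw [Finset.sum_add_distrib] at this
  simpa using this

lemma sum_toNat_gt {r : ℕ} (b : Fin r → ℤ) (j0 : Fin r) (h : b j0 < 0) :
    ∑ j, b j < ((∑ j, (b j).toNat : ℕ) : ℤ) := by
  push_cast
  exact Finset.sum_lt_sum (fun j _ => Int.self_le_toNat _) ⟨j0, Finset.mem_univ _, by omega⟩

lemma sum_toNat_eq {r : ℕ} (b : Fin r → ℤ) (h : ∀ j, 0 ≤ b j) :
    ((∑ j, (b j).toNat : ℕ) : ℤ) = ∑ j, b j := by
  push_cast
  exact Finset.sum_congr rfl fun j _ => Int.toNat_of_nonneg (h j)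

lemma sum_toNat_succ_eq {r : ℕ} (b : Fin r → ℤ) (h : ∀ j, 0 ≤ b j) :
    ((∑ j, (b j + 1).toNat : ℕ) : ℤ) = ∑ j, b j + r := by
  rw [sum_toNat_eq _ (fun j => by have := h j; omega), Finset.sum_add_distrib]
  simp

namespace Splitting

variable {n : ℕ} {d : ℤ} {E : Bundle K n d} (D : Splitting E)

lemma finrank_neg_one : finrank K (E.F (-1)) = ∑ j, (D.b j).toNat := by
  rw [D.finrank_eq]; refine Finset.sum_congr rfl fun j _ => ?_; congr 1; ring

lemma finrank_zero : finrank K (E.F 0) = ∑ j, (D.b j + 1).toNat := by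
  rw [D.finrank_eq]; refine Finset.sum_congr rfl fun j _ => ?_; congr 1; ring

lemma nn_iff : E.NN ↔ ∀ j, 0 ≤ D.b j := by
  rw [Bundle.NN, D.finrank_neg_one]
  constructor
  · intro h j
    by_contra hj
    have := sum_toNat_gt D.b j (by omega)
    rw [D.sum_b] at this
    omega
  · intro h
    rw [sum_toNat_eq _ h, D.sum_b]

lemma col_mem (_hb : ∀ j, 0 ≤ D.b j) (j : Fin n) (i : ℕ) (m : ℤ) (hi : (i : ℤ) ≤ m + D.b j) :
    ((T (i : ℤ) : LaurentPolynomial K) • fun l => D.A l j) ∈ E.F m := by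
  classical
  rw [D.eq]
  refine ⟨Pi.single j (T (i : ℤ)), mem_winPi.2 fun l => ?_, ?_⟩
  · by_cases h : l = j
    · subst h; rw [Pi.single_eq_same]
      exact ⟨(Ge.T _).mono (by omega), (Le.T _).mono hi⟩
    · rw [Pi.single_eq_of_ne h]; exact ⟨Ge.zero _, Le.zero _⟩
  · ext1 l
    rw [mv_apply, Matrix.mulVec_single, Pi.smul_apply, Pi.smul_apply, smul_eq_mul,
      MulOpposite.smul_eq_mul_unop, MulOpposite.unop_op, mul_comm]
    rfl

end Splitting

lemma Bundle.NN.finrank_zero {n : ℕ} {d : ℤ} {E : Bundle K n d} (h : E.NN) :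
    (finrank K (E.F 0) : ℤ) = n + d := by
  obtain ⟨D⟩ := exists_splitting E
  rw [D.finrank_zero, sum_toNat_succ_eq _ (D.nn_iff.1 h), D.sum_b, add_comm]

/-- a morphism of bundles -/
def IsHom {n n' : ℕ} {d d' : ℤ} (E' : Bundle K n' d') (E : Bundle K n d)
    (A : Matrix (Fin n) (Fin n') (LaurentPolynomial K)) : Prop :=
  (∀ i j, Pol (A i j)) ∧ ∃ B : Matrix (Fin n) (Fin n') (LaurentPolynomial K),
    (∀ i j, Inv (B i j)) ∧ A * E'.g = E.g * B

lemma IsHom.map_F {n n' : ℕ} {d d' : ℤ} {E' : Bundle K n' d'} {E : Bundle K n d}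
    {A : Matrix (Fin n) (Fin n') (LaurentPolynomial K)} (h : IsHom E' E A) {m : ℤ}
    {p : Fin n' → LaurentPolynomial K} (hp : p ∈ E'.F m) : A *ᵥ p ∈ E.F m := by
  obtain ⟨h1, B, hB, h2⟩ := h
  obtain ⟨hp1, r, hr, rfl⟩ := hp
  refine ⟨fun i => by simpa [pol_iff] using Ge.mulVec h1 hp1 i, B *ᵥ r,
    fun i => by simpa [inv_iff] using Le.mulVec hB hr i, ?_⟩
  rw [Matrix.mulVec_smul, Matrix.mulVec_mulVec, Matrix.mulVec_mulVec, h2]

lemma IsMor.isHom {n n' k k' : ℕ} {d d' : ℤ} {S' : CohSys K n' d' k'} {S : CohSys K n d k}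
    {A : Matrix (Fin n) (Fin n') (LaurentPolynomial K)} (h : IsMor S' S A) :
    IsHom S'.E S.E A := ⟨h.1, h.2.1⟩

lemma Bundle.NN.eq_zero {n n' : ℕ} {d : ℤ} {E : Bundle K n d} (h : E.NN)
    (Z : Matrix (Fin n') (Fin n) (LaurentPolynomial K)) (hZ : ∀ w ∈ E.F 0, Z *ᵥ w = 0) :
    Z = 0 := by
  obtain ⟨D⟩ := exists_splitting E
  have hb := D.nn_iff.1 h
  have h1 : Z * D.A = 0 := by
    ext1 i j
    have := hZ _ (D.col_mem hb j 0 0 (by simpa using hb j))
    have h2 := congrFun this i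
    simpa [Matrix.mulVec, dotProduct, Matrix.mul_apply] using h2
  calc Z = Z * D.A * D.B := by rw [Matrix.mul_assoc, D.AB, Matrix.mul_one]
    _ = 0 := by rw [h1, Matrix.zero_mul]

lemma Bundle.NN.ext {n n' : ℕ} {d : ℤ} {E : Bundle K n d} (h : E.NN)
    {Z Z' : Matrix (Fin n') (Fin n) (LaurentPolynomial K)}
    (hZ : ∀ w ∈ E.F 0, Z *ᵥ w = Z' *ᵥ w) : Z = Z' := by
  rw [← sub_eq_zero]
  exact h.eq_zero _ fun w hw => by rw [Matrix.sub_mulVec, hZ w hw, sub_self]

/-- extension of a compatible linear map on sections to a bundle morphism -/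
lemma Bundle.NN.extend {n n' : ℕ} {d d' : ℤ} {E : Bundle K n d} (h : E.NN) (E' : Bundle K n' d')
    (ψ : (Fin n → LaurentPolynomial K) →ₗ[K] (Fin n' → LaurentPolynomial K))
    (h0 : ∀ w ∈ E.F 0, ψ w ∈ E'.F 0)
    (hT : ∀ w ∈ E.F (-1), ψ ((T 1 : LaurentPolynomial K) • w) = (T 1 : LaurentPolynomial K) • ψ w) :
    ∃ A, IsHom E E' A ∧ ∀ w ∈ E.F 0, A *ᵥ w = ψ w := by
  obtain ⟨D⟩ := exists_splitting E
  have hb := D.nn_iff.1 h
  let e : Fin n → Fin n → LaurentPolynomial K := fun j l => D.A l j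
  have hpow : ∀ (j : Fin n) (i : ℕ), (i : ℤ) ≤ D.b j →
      ψ ((T (i : ℤ) : LaurentPolynomial K) • e j) = (T (i : ℤ) : LaurentPolynomial K) • ψ (e j) := by
    intro j i
    induction i with
    | zero => intro _; simp
    | succ i ih =>
      intro hi
      have h1 : (T ((i + 1 : ℕ) : ℤ) : LaurentPolynomial K) = T 1 * T (i : ℤ) := by
        rw [← T_add]; congr 1; push_cast; ring
      rw [h1, mul_smul, mul_smul, hT _ (D.col_mem hb j i (-1) (by push_cast at hi; omega)),
        ih (by push_cast at hi; omega)]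
  let P : Matrix (Fin n') (Fin n) (LaurentPolynomial K) := Matrix.of fun i j => ψ (e j) i
  have he0 : ∀ j, e j ∈ E.F 0 := fun j => by
    simpa using D.col_mem hb j 0 0 (by simpa using hb j)
  have hPpol : ∀ i j, Ge 0 (P i j) := fun i j => ((E'.sec_iff 0 _).1 (h0 _ (he0 j))).1 i
  refine ⟨P * D.B, ⟨Ge.matmul hPpol D.polB,
    (E'.h * P * dT K D.b) * (dT K (-D.b) * D.B * E.g), Le.matmul (fun i j => ?_) D.invB, ?_⟩, ?_⟩
  · have h1 := D.col_mem hb j (D.b j).toNat 0 (by have := hb j; omega)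
    have h2 := ((E'.sec_iff 0 _).1 (h0 _ h1)).2 i
    rw [hpow j _ (by have := hb j; omega), Matrix.mulVec_smul, Pi.smul_apply, smul_eq_mul,
      Int.toNat_of_nonneg (hb j)] at h2
    rw [dT, Matrix.mul_diagonal, mul_comm]
    exact h2
  · calc P * D.B * E.g = (E'.g * E'.h) * P * (dT K D.b * dT K (-D.b)) * D.B * E.g := by
          rw [E'.g_h, dT_mul_neg, Matrix.one_mul, Matrix.mul_one]
      _ = _ := by simp only [Matrix.mul_assoc]
  · intro w hw
    rw [D.eq] at hw
    obtain ⟨c, hc, rfl⟩ := hw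
    have hc := mem_winPi.1 hc
    rw [mv_apply, Matrix.mulVec_mulVec, Matrix.mul_assoc, D.BA, Matrix.mul_one]
    have h1 : D.A *ᵥ c = ∑ j, c j • e j := by
      ext1 i; simp [Matrix.mulVec, dotProduct, mul_comm, e]
    have h2 : P *ᵥ c = ∑ j, c j • ψ (e j) := by
      ext1 i; simp [Matrix.mulVec, dotProduct, mul_comm, P]
    rw [h1, h2, map_sum]
    refine Finset.sum_congr rfl fun j _ => ?_
    rw [eq_sum_of_win (hc j).1 (hc j).2, Finset.sum_smul, Finset.sum_smul, map_sum]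
    refine Finset.sum_congr rfl fun i _ => ?_
    rw [smul_assoc, smul_assoc, map_smul, hpow j i (by have := i.2; omega)]

lemma finrank_map_mv {n r : ℕ} {A : Matrix (Fin n) (Fin r) (LaurentPolynomial K)}
    (hA : Function.Injective A.mulVec) (U : Submodule K (Fin r → LaurentPolynomial K)) :
    finrank K (U.map (mv A)) = finrank K U :=
  (Submodule.equivMapOfInjective (mv A) hA U).symm.finrank_eq

lemma finrank_F_le {n n' : ℕ} {d d' : ℤ} {E' : Bundle K n' d'} {E : Bundle K n d}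
    {A : Matrix (Fin n) (Fin n') (LaurentPolynomial K)} (h : IsHom E' E A)
    (hA : Function.Injective A.mulVec) (m : ℤ) : finrank K (E'.F m) ≤ finrank K (E.F m) := by
  rw [← finrank_map_mv hA]
  refine Submodule.finrank_mono ?_
  rintro _ ⟨p, hp, rfl⟩
  exact h.map_F hp

/-- the subsystem generated by a space of sections -/
lemma generated {n k : ℕ} {d : ℤ} (S : CohSys K n d k)
    (U₀ W : Submodule K (Fin n → LaurentPolynomial K)) (hU : U₀ ≤ S.E.F 0) (hW : W ≤ U₀)
    (hWV : W ≤ S.V) :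
    ∃ (r : ℕ) (d' : ℤ) (S' : CohSys K r d' (finrank K W))
      (A : Matrix (Fin n) (Fin r) (LaurentPolynomial K)),
      IsMor S' S A ∧ Function.Injective A.mulVec ∧ S'.E.NN ∧ S'.V.map (mv A) = W ∧
      (r = 0 → U₀ = ⊥) ∧
      ∀ U₁ ≤ U₀, (∀ u ∈ U₁, (T 1 : LaurentPolynomial K) • u ∈ U₀) →
        (finrank K U₁ : ℤ) ≤ d' ∧ r + finrank K U₁ ≤ finrank K U₀ := by
  classical
  let M : Submodule K (Fin n → LaurentPolynomial K) :=
    Submodule.span K {p | ∃ i : ℕ, ∃ u ∈ U₀, p = (T (i : ℤ) : LaurentPolynomial K) • u}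
  have hUM : U₀ ≤ M := fun u hu => Submodule.subset_span ⟨0, u, hu, by simp⟩
  have hUpol : ∀ u ∈ U₀, ∀ i, Ge 0 (u i) := fun u hu => ((S.E.sec_iff 0 u).1 (hU hu)).1
  have hTK : ∀ (c : K) (p : Fin n → LaurentPolynomial K),
      (T 1 : LaurentPolynomial K) • c • p = c • (T 1 : LaurentPolynomial K) • p :=
    fun c p => smul_comm _ _ _
  obtain ⟨D⟩ := exists_subSplit S.E M
    (by
      intro p hp
      refine Submodule.span_induction (p := fun p _ => (T 1 : LaurentPolynomial K) • p ∈ M)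
        ?_ ?_ ?_ ?_ hp
      · rintro _ ⟨i, u, hu, rfl⟩
        refine Submodule.subset_span ⟨i + 1, u, hu, ?_⟩
        rw [smul_smul, ← T_add]; congr 2; push_cast; ring
      · simp
      · intro x y _ _ hx hy; rw [smul_add]; exact M.add_mem hx hy
      · intro c x _ hx; rw [hTK]; exact M.smul_mem c hx)
    (by
      intro p hp
      refine Submodule.span_induction (p := fun p _ => ∀ i, Ge 0 (p i)) ?_ ?_ ?_ ?_ hp
      · rintro _ ⟨i, u, hu, rfl⟩ l
        rw [Pi.smul_apply, smul_eq_mul, ge_T_mul]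
        exact (hUpol u hu l).mono (by omega)
      · exact fun i => Ge.zero _
      · intro x y _ _ hx hy i; exact (hx i).add (hy i)
      · intro c x _ hx i; exact (hx i).smul c)
  obtain ⟨lam, hlam⟩ := LinearMap.exists_leftInverse_of_injective (mv D.A)
    (LinearMap.ker_eq_bot.2 D.inj)
  have hlam' : ∀ c, lam (D.A *ᵥ c) = c := fun c => LinearMap.congr_fun hlam c
  let π : (Fin n → LaurentPolynomial K) →ₗ[K] (Fin D.r → K) :=
    { toFun := fun p j => (lam p j).coeff 0
      map_add' := fun p q => by ext j; simp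
      map_smul' := fun c p => by ext j; simp }
  have hπ : ∀ c j, π (D.A *ᵥ c) j = (c j).coeff 0 := fun c j => by
    simp only [π, LinearMap.coe_mk, AddHom.coe_mk, hlam']
  have hπT : ∀ (i : ℕ), 0 < i → ∀ u ∈ U₀, π ((T (i : ℤ) : LaurentPolynomial K) • u) = 0 := by
    intro i hi u hu
    obtain ⟨c, hc, rfl⟩ := D.exists_coord (hUM hu) (hU hu)
    ext j
    rw [← Matrix.mulVec_smul, hπ, Pi.smul_apply, smul_eq_mul, coeff_T_mul]
    exact (hc j).1 _ (by omega)
  have hπM : ∀ p ∈ M, π p ∈ U₀.map π := by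
    intro p hp
    refine Submodule.span_induction (p := fun p _ => π p ∈ U₀.map π) ?_ ?_ ?_ ?_ hp
    · rintro _ ⟨i, u, hu, rfl⟩
      rcases Nat.eq_zero_or_pos i with rfl | hi
      · exact ⟨u, hu, by simp⟩
      · rw [hπT i hi u hu]; exact Submodule.zero_mem _
    · simp
    · intro x y _ _ hx hy; rw [map_add]; exact Submodule.add_mem _ hx hy
    · intro c x _ hx; rw [map_smul]; exact Submodule.smul_mem _ c hx
  have hcolπ : ∀ j, π (fun i => D.A i j) = Pi.single j 1 := by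
    intro j
    have : (fun i => D.A i j) = D.A *ᵥ Pi.single j 1 := by ext1 i; simp
    ext l
    rw [this, hπ]
    by_cases h : l = j
    · subst h; simp
    · simp [Pi.single_eq_of_ne h]
  have htop : U₀.map π = ⊤ := by
    rw [eq_top_iff]
    intro v _
    have : v = ∑ j, v j • Pi.single j (1 : K) := by
      ext l; simp [Finset.sum_apply, Pi.single_apply]
    rw [this]
    exact Submodule.sum_mem _ fun j _ => Submodule.smul_mem _ _ (hcolπ j ▸ hπM _ (D.col j))
  have hb : ∀ j, 0 ≤ D.b j := by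
    intro j
    by_contra hj
    have : (Pi.single j (1 : K) : Fin D.r → K) ∈ U₀.map π := htop ▸ Submodule.mem_top
    obtain ⟨u, hu, h1⟩ := this
    obtain ⟨c, hc, rfl⟩ := D.exists_coord (hUM hu) (hU hu)
    have h2 := congrFun h1 j
    rw [hπ, (hc j).2 0 (by omega)] at h2
    simp at h2
  have hmapV : (W.comap (mv D.A)).map (mv D.A) = W := by
    refine Submodule.map_comap_eq_self ?_
    intro w hw
    obtain ⟨c, -, rfl⟩ := D.exists_coord (hUM (hW hw)) (hU (hW hw))
    exact ⟨c, rfl⟩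
  let S' : CohSys K D.r (∑ j, D.b j) (finrank K W) :=
    { E := Ob K D.b _ rfl
      V := W.comap (mv D.A)
      sec := by
        intro v hv
        obtain ⟨c, hc, h⟩ := D.exists_coord (hUM (hW hv)) (hU (hW hv))
        rw [← Bundle.mem_F, Ob_F, mem_winPi, D.inj h]
        exact hc
      dim := by rw [← finrank_map_mv D.inj, hmapV] }
  have : FiniteDimensional K U₀ := Submodule.finiteDimensional_of_le hU
  refine ⟨D.r, _, S', D.A, ⟨D.pol, ⟨S.E.h * D.A * dT K D.b, D.inv, ?_⟩, fun v hv => hWV hv⟩,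
    D.inj, ?_, hmapV, ?_, fun U₁ h1 h2 => ⟨?_, ?_⟩⟩
  · rw [Matrix.mul_assoc, ← Matrix.mul_assoc, S.E.g_h, Matrix.one_mul]; rfl
  · change (finrank K ((Ob K D.b _ rfl).F (-1)) : ℤ) = _
    rw [Ob_F, finrank_winPi, ← sum_toNat_eq _ hb]
    congr 1
    refine Finset.sum_congr rfl fun j _ => ?_
    congr 1; ring
  · intro hr
    rw [eq_bot_iff]
    intro u hu
    obtain ⟨c, -, rfl⟩ := D.exists_coord (hUM hu) (hU hu)
    have : IsEmpty (Fin D.r) := by rw [hr]; infer_instance
    rw [Subsingleton.elim c 0, Matrix.mulVec_zero]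
    exact Submodule.zero_mem _
  · have := D.finiteDim (-1)
    have h3 : U₁ ≤ M ⊓ S.E.F (-1) := fun u hu =>
      ⟨hUM (h1 hu), S.E.mem_of_T_smul (hUpol u (h1 hu)) (by simpa using hU (h2 u hu))⟩
    have h4 := Submodule.finrank_mono h3
    rw [D.finrank_eq] at h4
    rw [← sum_toNat_eq _ hb]
    have h5 : ∑ j, (-1 + D.b j + 1).toNat = ∑ j, (D.b j).toNat :=
      Finset.sum_congr rfl fun j _ => by congr 1; ring
    rw [h5] at h4
    exact_mod_cast h4
  · have h3 := LinearMap.finrank_range_add_finrank_ker (π.domRestrict U₀)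
    rw [LinearMap.range_domRestrict, htop, finrank_top, Module.finrank_fin_fun] at h3
    let τ : U₁ →ₗ[K] LinearMap.ker (π.domRestrict U₀) :=
      { toFun := fun u => ⟨⟨(T 1 : LaurentPolynomial K) • u.1, h2 _ u.2⟩, by
          simpa using hπT 1 one_pos u.1 (h1 u.2)⟩
        map_add' := fun u v => by ext1; ext1; simp
        map_smul' := fun c u => by ext1; ext1; simp [hTK] }
    have hτ : Function.Injective τ := by
      intro u v huv
      have h4 : (T 1 : LaurentPolynomial K) • u.1 = (T 1 : LaurentPolynomial K) • v.1 :=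
        congrArg (fun z => z.1.1) huv
      have h5 := congrArg (fun z => (T (-1) : LaurentPolynomial K) • z) h4
      simp only [smul_smul, ← T_add] at h5
      exact Subtype.ext (by simpa using h5)
    have h6 := LinearMap.finrank_le_finrank_of_injective hτ
    omega

end Pool.Agent.P.MP_d34769_ag
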