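import Mathlib

/-! Complexes written on one module, with a submodule of null elements. -/

noncomputable section
namespace Pool.Agent.CS

/-- A complex: `G n` are the cochains of degree `n`, `N` the null elements. -/
structure Cx (T : Type) [AddCommGroup T] [Module ℂ T] where
  d : Module.End ℂ T
  G : ℤ → Submodule ℂ T
  N : Submodule ℂ T
  dG : ∀ n, ∀ x ∈ G n, d x ∈ G (n + 1)
  dN : ∀ x ∈ N, d x ∈ N
  dd : ∀ n, ∀ x ∈ G n, d (d x) ∈ N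

namespace Cx
variable {T T' T'' : Type} [AddCommGroup T] [Module ℂ T] [AddCommGroup T'] [Module ℂ T']
  [AddCommGroup T''] [Module ℂ T''] (C : Cx T) (C' : Cx T') (C'' : Cx T'')

/-- cocycles -/
def Z (n : ℤ) : Submodule ℂ T := C.G n ⊓ C.N.comap C.d

/-- coboundaries and null elements -/
def B (n : ℤ) : Submodule ℂ T := (C.G (n - 1)).map C.d ⊔ C.N

/-- exact in degree `n` -/
def Ac (n : ℤ) : Prop := C.Z n ≤ C.B n

/-- the subcomplex cut out by a stable submodule -/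
def sub (U : Submodule ℂ T) (h : ∀ x ∈ U, C.d x ∈ U) : Cx T where
  d := C.d
  G n := C.G n ⊓ U
  N := C.N
  dG n x hx := ⟨C.dG n x hx.1, h x hx.2⟩
  dN := C.dN
  dd n x hx := C.dd n x hx.1

/-- the quotient by a stable submodule that contains the null elements -/
def quo (U : Submodule ℂ T) (h : ∀ x ∈ U, C.d x ∈ U) (hN : C.N ≤ U) : Cx T where
  d := C.d
  G := C.G
  N := U
  dG := C.dG
  dN := h
  dd n x hx := hN (C.dd n x hx)

/-- `f` is a map of complexes of degree `s` -/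
structure Mor (f : T →ₗ[ℂ] T') (s : ℤ) : Prop where
  fG : ∀ n, ∀ x ∈ C.G n, f x ∈ C'.G (n + s)
  fN : ∀ n, ∀ x ∈ C.G n, x ∈ C.N → f x ∈ C'.N
  fd : ∀ n, ∀ x ∈ C.G n, f (C.d x) - C'.d (f x) ∈ C'.N

/-- injective on cohomology of degree `n` -/
def Inj (f : T →ₗ[ℂ] T') (s n : ℤ) : Prop := ∀ x ∈ C.Z n, f x ∈ C'.B (n + s) → x ∈ C.B n

/-- surjective on cohomology from degree `n` -/
def Sur (f : T →ₗ[ℂ] T') (s n : ℤ) : Prop :=
  ∀ y ∈ C'.Z (n + s), ∃ x ∈ C.Z n, y - f x ∈ C'.B (n + s)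

/-- injective in degrees `≤ n`, surjective in degrees `< n` -/
def QI (f : T →ₗ[ℂ] T') (s n : ℤ) : Prop :=
  (∀ k ≤ n, C.Inj C' f s k) ∧ ∀ k < n, C.Sur C' f s k

/-- quasi-isomorphism -/
def QIa (f : T →ₗ[ℂ] T') (s : ℤ) : Prop := ∀ n, C.QI C' f s n

/-- cohomology -/
def H (n : ℤ) : Type := C.Z n ⧸ (C.B n).submoduleOf (C.Z n)

instance (n : ℤ) : AddCommGroup (C.H n) :=
  inferInstanceAs (AddCommGroup (C.Z n ⧸ (C.B n).submoduleOf (C.Z n)))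
instance (n : ℤ) : Module ℂ (C.H n) :=
  inferInstanceAs (Module ℂ (C.Z n ⧸ (C.B n).submoduleOf (C.Z n)))

/-- the class of a cocycle -/
def cls (n : ℤ) : C.Z n →ₗ[ℂ] C.H n := ((C.B n).submoduleOf (C.Z n)).mkQ

variable {C C' C''} {f g : T →ₗ[ℂ] T'} {f' : T' →ₗ[ℂ] T''} {s s' n m : ℤ} {x : T}

theorem mem_Z : x ∈ C.Z n ↔ x ∈ C.G n ∧ C.d x ∈ C.N := Iff.rfl

theorem mem_B : x ∈ C.B n ↔ ∃ b ∈ C.G (n - 1), x - C.d b ∈ C.N := by
  constructor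
  · intro h
    obtain ⟨_, ⟨b, hb, rfl⟩, z, hz, rfl⟩ := Submodule.mem_sup.1 h
    exact ⟨b, hb, by simpa using hz⟩
  · rintro ⟨b, hb, h⟩
    exact Submodule.mem_sup.2 ⟨_, ⟨b, hb, rfl⟩, _, h, by simp⟩

theorem N_le_B : C.N ≤ C.B n := le_sup_right

theorem d_mem_B (h : x ∈ C.G n) (e : n + 1 = m) : C.d x ∈ C.B m :=
  mem_B.2 ⟨x, by rwa [← e, add_sub_cancel_right], by simp⟩

theorem d_mem_Z (h : x ∈ C.G n) : C.d x ∈ C.Z (n + 1) := ⟨C.dG n x h, C.dd n x h⟩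

theorem Mor.mem_Z (h : C.Mor C' f s) (hx : x ∈ C.Z n) : f x ∈ C'.Z (n + s) := by
  refine ⟨h.fG n x hx.1, ?_⟩
  have h1 := h.fN _ _ (C.dG n x hx.1) hx.2
  have h2 := C'.N.sub_mem h1 (h.fd n x hx.1)
  rwa [sub_sub_cancel] at h2

theorem Mor.mem_B (h : C.Mor C' f s) (hG : x ∈ C.G n) (hx : x ∈ C.B n) : f x ∈ C'.B (n + s) := by
  obtain ⟨b, hb, e⟩ := Cx.mem_B.1 hx
  have h0 : C.d b ∈ C.G n := by simpa using C.dG _ b hb
  refine Cx.mem_B.2 ⟨f b, by have := h.fG _ b hb; rwa [show n - 1 + s = n + s - 1 by ring] at this, ?_⟩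
  have h1 := C'.N.add_mem (h.fN n _ ((C.G n).sub_mem hG h0) e) (h.fd _ b hb)
  rwa [map_sub, sub_add_sub_cancel] at h1

theorem cls_surj (n : ℤ) : Function.Surjective (C.cls n) := Submodule.mkQ_surjective _

theorem cls_eq_zero {x : C.Z n} : C.cls n x = 0 ↔ x.1 ∈ C.B n := Submodule.Quotient.mk_eq_zero _

theorem cls_eq {x y : C.Z n} : C.cls n x = C.cls n y ↔ x.1 - y.1 ∈ C.B n :=
  Submodule.Quotient.eq _

/-- the induced map on cohomology -/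
def Mor.hm (h : C.Mor C' f s) (e : n + s = m) : C.H n →ₗ[ℂ] C'.H m :=
  Submodule.mapQ _ _ (f.restrict (p := C.Z n) (q := C'.Z m) fun _ hx => e ▸ h.mem_Z hx)
    fun x hx => by subst e; exact h.mem_B x.2.1 hx

theorem Mor.hm_cls (h : C.Mor C' f s) (e : n + s = m) (x : C.Z n) :
    h.hm e (C.cls n x) = C'.cls m ⟨f x.1, e ▸ h.mem_Z x.2⟩ := rfl

theorem Mor.inj_iff (h : C.Mor C' f s) (e : n + s = m) :
    C.Inj C' f s n ↔ Function.Injective (h.hm e) := by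
  subst e
  rw [injective_iff_map_eq_zero]
  constructor
  · intro hi a ha
    obtain ⟨x, rfl⟩ := cls_surj n a
    exact cls_eq_zero.2 (hi x.1 x.2 (cls_eq_zero.1 ha))
  · intro hi x hx hb
    exact cls_eq_zero.1 (hi (C.cls n ⟨x, hx⟩) (cls_eq_zero.2 hb))

theorem Mor.sur_iff (h : C.Mor C' f s) (e : n + s = m) :
    C.Sur C' f s n ↔ Function.Surjective (h.hm e) := by
  subst e
  constructor
  · intro hs a
    obtain ⟨y, rfl⟩ := cls_surj _ a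
    obtain ⟨x, hx, e⟩ := hs y.1 y.2
    exact ⟨C.cls n ⟨x, hx⟩, (cls_eq.2 e).symm⟩
  · intro hs y hy
    obtain ⟨a, ha⟩ := hs (C'.cls _ ⟨y, hy⟩)
    obtain ⟨x, rfl⟩ := cls_surj n a
    exact ⟨x.1, x.2, cls_eq.1 ha.symm⟩

theorem QI.mono (h : C.QI C' f s n) (hm : m ≤ n) : C.QI C' f s m :=
  ⟨fun k hk => h.1 k (hk.trans hm), fun k hk => h.2 k (hk.trans_le hm)⟩

theorem QIa.inj (h : C.QIa C' f s) (n : ℤ) : C.Inj C' f s n := (h n).1 n le_rfl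

theorem QIa.sur (h : C.QIa C' f s) (n : ℤ) : C.Sur C' f s n := (h (n + 1)).2 n (by omega)

theorem qia_iff : C.QIa C' f s ↔ ∀ n, C.Inj C' f s n ∧ C.Sur C' f s n :=
  ⟨fun h n => ⟨h.inj n, h.sur n⟩, fun h _ => ⟨fun k _ => (h k).1, fun k _ => (h k).2⟩⟩

end Cx

end Pool.Agent.CS
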