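import Pool.Agent.P.MP_d34769_ag.YA0

/-! Composition, homotopies, long exact sequences. -/

noncomputable section
namespace Pool.Agent.CS
namespace Cx
variable {T T' T'' : Type} [AddCommGroup T] [Module ℂ T] [AddCommGroup T'] [Module ℂ T']
  [AddCommGroup T''] [Module ℂ T''] {C : Cx T} {C' : Cx T'} {C'' : Cx T''}
  {f g : T →ₗ[ℂ] T'} {f' : T' →ₗ[ℂ] T''} {s s' n m : ℤ}

theorem meq {U : Submodule ℂ T} {a b : T} (h : a ∈ U) (e : a = b) : b ∈ U := e ▸ h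

theorem Gcast {x : T} (h : x ∈ C.G n) (e : n = m) : x ∈ C.G m := e ▸ h

theorem Zcast {x : T} (h : x ∈ C.Z n) (e : n = m) : x ∈ C.Z m := e ▸ h

theorem Bcast {x : T} (h : x ∈ C.B n) (e : n = m) : x ∈ C.B m := e ▸ h

theorem mem_B' {x : T} (e : n + 1 = m) : x ∈ C.B m ↔ ∃ b ∈ C.G n, x - C.d b ∈ C.N := by
  rw [mem_B, ← e, add_sub_cancel_right]

theorem Mor.id (C : Cx T) : C.Mor C LinearMap.id 0 :=
  ⟨fun n _ hx => Gcast hx (add_zero n).symm, fun _ _ _ h => h, fun _ _ _ => by simp⟩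

theorem Mor.comp (h' : C'.Mor C'' f' s') (h : C.Mor C' f s) : C.Mor C'' (f' ∘ₗ f) (s + s') := by
  refine ⟨fun n x hx => Gcast (h'.fG _ _ (h.fG n x hx)) (add_assoc _ _ _),
    fun n x hx hn => h'.fN _ _ (h.fG n x hx) (h.fN n x hx hn), fun n x hx => ?_⟩
  exact meq (C''.N.add_mem (h'.fN (n + 1 + s) _ ((C'.G _).sub_mem (h.fG _ _ (C.dG n x hx))
    (Gcast (C'.dG _ _ (h.fG n x hx)) (by ring))) (h.fd n x hx)) (h'.fd _ _ (h.fG n x hx))) (by simp only [map_sub, map_add, LinearMap.comp_apply]; abel)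

theorem Mor.add (h : C.Mor C' f s) (h' : C.Mor C' g s) : C.Mor C' (f + g) s :=
  ⟨fun n x hx => (C'.G _).add_mem (h.fG n x hx) (h'.fG n x hx),
    fun n x hx hn => C'.N.add_mem (h.fN n x hx hn) (h'.fN n x hx hn),
    fun n x hx => meq (C'.N.add_mem (h.fd n x hx) (h'.fd n x hx))
      (by simp only [LinearMap.add_apply, map_add]; abel)⟩

theorem Mor.smul (h : C.Mor C' f s) (a : ℂ) : C.Mor C' (a • f) s :=
  ⟨fun n x hx => (C'.G _).smul_mem a (h.fG n x hx),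
    fun n x hx hn => C'.N.smul_mem a (h.fN n x hx hn),
    fun n x hx => meq (C'.N.smul_mem a (h.fd n x hx))
      (by simp only [LinearMap.smul_apply, map_smul, smul_sub])⟩

theorem Mor.sum {κ : Type} (t : Finset κ) {F : κ → T →ₗ[ℂ] T'} (h : ∀ k ∈ t, C.Mor C' (F k) s) :
    C.Mor C' (∑ k ∈ t, F k) s := by
  refine Finset.sum_induction F (fun g => C.Mor C' g s) (fun _ _ => Mor.add) ?_ h
  exact ⟨fun _ _ _ => by simp, fun _ _ _ _ => by simp, fun _ _ _ => by simp⟩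

theorem Inj.comp (h : C.Mor C' f s) (i' : C'.Inj C'' f' s' (n + s)) (i : C.Inj C' f s n) :
    C.Inj C'' (f' ∘ₗ f) (s + s') n :=
  fun x hx hb => i x hx (i' _ (h.mem_Z hx) (Bcast hb (add_assoc _ _ _).symm))

theorem Inj.of_comp (h : C.Mor C' f s) (h' : C'.Mor C'' f' s')
    (i : C.Inj C'' (f' ∘ₗ f) (s + s') n) : C.Inj C' f s n :=
  fun x hx hb => i x hx (Bcast (h'.mem_B (h.fG n x hx.1) hb) (add_assoc _ _ _))

theorem Inj.of_comp_sur (h : C.Mor C' f s) (h' : C'.Mor C'' f' s')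
    (i : C.Inj C'' (f' ∘ₗ f) (s + s') n) (u : C.Sur C' f s n) : C'.Inj C'' f' s' (n + s) := by
  intro y hy hb
  obtain ⟨x, hx, e⟩ := u y hy
  have h1 := h'.mem_B ((C'.G _).sub_mem hy.1 (h.fG n x hx.1)) e
  have h2 := i x hx (Bcast (meq ((C''.B _).sub_mem hb h1) (by simp only [map_sub, map_add, LinearMap.comp_apply]; abel)) (add_assoc _ _ _))
  exact meq ((C'.B _).add_mem e (h.mem_B hx.1 h2)) (sub_add_cancel _ _)

theorem Sur.comp (h : C.Mor C' f s) (h' : C'.Mor C'' f' s') (u' : C'.Sur C'' f' s' (n + s))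
    (u : C.Sur C' f s n) : C.Sur C'' (f' ∘ₗ f) (s + s') n := by
  intro z hz
  obtain ⟨y, hy, e⟩ := u' z (Zcast hz (add_assoc _ _ _).symm)
  obtain ⟨x, hx, e'⟩ := u y hy
  exact ⟨x, hx, Bcast (meq ((C''.B _).add_mem e
    (h'.mem_B ((C'.G _).sub_mem hy.1 (h.fG n x hx.1)) e')) (by simp only [map_sub, map_add, LinearMap.comp_apply]; abel)) (add_assoc _ _ _)⟩

theorem Sur.of_comp (h : C.Mor C' f s) (u : C.Sur C'' (f' ∘ₗ f) (s + s') n) :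
    C'.Sur C'' f' s' (n + s) := by
  intro z hz
  obtain ⟨x, hx, e⟩ := u z (Zcast hz (add_assoc _ _ _))
  exact ⟨f x, h.mem_Z hx, Bcast e (add_assoc _ _ _).symm⟩

theorem Sur.of_comp_inj (h : C.Mor C' f s) (h' : C'.Mor C'' f' s')
    (u : C.Sur C'' (f' ∘ₗ f) (s + s') n) (i : C'.Inj C'' f' s' (n + s)) : C.Sur C' f s n := by
  intro y hy
  obtain ⟨x, hx, e⟩ := u (f' y) (Zcast (h'.mem_Z hy) (add_assoc _ _ _))
  exact ⟨x, hx, i _ ((C'.Z _).sub_mem hy (h.mem_Z hx))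
    (Bcast (meq e (map_sub f' _ _).symm) (add_assoc _ _ _).symm)⟩

theorem QI.comp (h : C.Mor C' f s) (h' : C'.Mor C'' f' s') (q' : C'.QI C'' f' s' (n + s))
    (q : C.QI C' f s n) : C.QI C'' (f' ∘ₗ f) (s + s') n :=
  ⟨fun k hk => (q'.1 _ (by omega)).comp h (q.1 k hk),
    fun k hk => (q'.2 _ (by omega)).comp h h' (q.2 k hk)⟩

theorem QIa.comp (h : C.Mor C' f s) (h' : C'.Mor C'' f' s') (q' : C'.QIa C'' f' s')
    (q : C.QIa C' f s) : C.QIa C'' (f' ∘ₗ f) (s + s') := fun n => (q' _).comp h h' (q n)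

theorem QIa.left (h : C.Mor C' f s) (h' : C'.Mor C'' f' s') (q' : C'.QIa C'' f' s')
    (q : C.QIa C'' (f' ∘ₗ f) (s + s')) : C.QIa C' f s :=
  fun n => ⟨fun k _ => (q.inj k).of_comp h h', fun k _ => (q.sur k).of_comp_inj h h' (q'.inj _)⟩

theorem QIa.right (h : C.Mor C' f s) (h' : C'.Mor C'' f' s') (q : C.QIa C' f s)
    (q' : C.QIa C'' (f' ∘ₗ f) (s + s')) : C'.QIa C'' f' s' := by
  refine qia_iff.2 fun k => ?_
  obtain ⟨j, rfl⟩ : ∃ j, k = j + s := ⟨k - s, by ring⟩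
  exact ⟨(q'.inj j).of_comp_sur h h' (q.sur j), (q'.sur j).of_comp h⟩

theorem QI.left (h : C.Mor C' f s) (h' : C'.Mor C'' f' s') (q' : C'.QIa C'' f' s')
    (q : C.QI C'' (f' ∘ₗ f) (s + s') n) : C.QI C' f s n :=
  ⟨fun k hk => (q.1 k hk).of_comp h h', fun k hk => (q.2 k hk).of_comp_inj h h' (q'.inj _)⟩

theorem QI.right (h : C.Mor C' f s) (h' : C'.Mor C'' f' s') (q : C.QIa C' f s)
    (q' : C.QI C'' (f' ∘ₗ f) (s + s') n) : C'.QI C'' f' s' (n + s) := by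
  refine ⟨fun k hk => ?_, fun k hk => ?_⟩ <;>
    obtain ⟨j, rfl⟩ : ∃ j, k = j + s := ⟨k - s, by ring⟩
  · exact (q'.1 j (by omega)).of_comp_sur h h' (q.sur j)
  · exact (q'.2 j (by omega)).of_comp h

/-- maps that agree on cohomology -/
theorem Inj.congr (e : ∀ x ∈ C.Z n, f x - g x ∈ C'.B (n + s)) (i : C.Inj C' f s n) :
    C.Inj C' g s n :=
  fun x hx hb => i x hx (meq ((C'.B _).add_mem (e x hx) hb) (sub_add_cancel _ _))

theorem Sur.congr (e : ∀ x ∈ C.Z n, f x - g x ∈ C'.B (n + s)) (u : C.Sur C' f s n) :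
    C.Sur C' g s n := by
  intro y hy
  obtain ⟨x, hx, h⟩ := u y hy
  exact ⟨x, hx, meq ((C'.B _).add_mem h (e x hx)) (by abel)⟩

theorem Inj.smul (i : C.Inj C' f s n) {a : ℂ} (ha : a ≠ 0) : C.Inj C' (a • f) s n :=
  fun x hx hb => i x hx (((C'.B _).smul_mem_iff ha).1 hb)

theorem Sur.smul (u : C.Sur C' f s n) {a : ℂ} (ha : a ≠ 0) : C.Sur C' (a • f) s n := by
  intro y hy
  obtain ⟨x, hx, h⟩ := u y hy
  refine ⟨a⁻¹ • x, (C.Z n).smul_mem _ hx, ?_⟩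
  rwa [LinearMap.smul_apply, map_smul, smul_inv_smul₀ ha]

/-- a chain homotopy -/
theorem hty (h : T →ₗ[ℂ] T') (hG : ∀ x ∈ C.G n, h x ∈ C'.G (n + s - 1))
    (hN : ∀ x ∈ C.G (n + 1), x ∈ C.N → h x ∈ C'.N)
    (e : ∀ x ∈ C.G n, f x - g x - C'.d (h x) - h (C.d x) ∈ C'.N) :
    ∀ x ∈ C.Z n, f x - g x ∈ C'.B (n + s) :=
  fun x hx => mem_B.2 ⟨h x, hG x hx.1, meq (C'.N.add_mem (e x hx.1)
    (hN _ (C.dG n x hx.1) hx.2)) (sub_add_cancel _ _)⟩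

/-- a map with an inverse up to null elements -/
theorem qia_of_inv (g : T' →ₗ[ℂ] T) (h : C.Mor C' f s) (h' : C'.Mor C g (-s))
    (e : ∀ n, ∀ x ∈ C.Z n, g (f x) - x ∈ C.B n) (e' : ∀ n, ∀ y ∈ C'.Z n, f (g y) - y ∈ C'.B n) :
    C.QIa C' f s := by
  refine qia_iff.2 fun n => ⟨fun x hx hb => ?_, fun y hy => ?_⟩
  · exact meq ((C.B n).sub_mem (Bcast (h'.mem_B (h.fG n x hx.1) hb) (by ring)) (e n x hx))
      (sub_sub_cancel _ _)
  · exact ⟨g y, Zcast (h'.mem_Z hy) (by ring), meq ((C'.B _).neg_mem (e' _ y hy)) (neg_sub _ _)⟩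

theorem Ac.of_inj (i : C.Inj C' f s n) (h : C.Mor C' f s) (a : C'.Ac (n + s)) : C.Ac n :=
  fun x hx => i x hx (a (h.mem_Z hx))

theorem Ac.of_sur (u : C.Sur C' f s n) (h : C.Mor C' f s) (a : C.Ac n) : C'.Ac (n + s) := by
  intro y hy
  obtain ⟨x, hx, e⟩ := u y hy
  exact meq ((C'.B _).add_mem e (h.mem_B hx.1 (a hx))) (sub_add_cancel _ _)

theorem Ac.inj (a : C.Ac n) : C.Inj C' f s n := fun _ hx _ => a hx

theorem Ac.sur (a : C'.Ac (n + s)) : C.Sur C' f s n :=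
  fun y hy => ⟨0, (C.Z n).zero_mem, by simpa using a hy⟩

section les
variable {U : Submodule ℂ T} (hU : ∀ x ∈ U, C.d x ∈ U) (hN : C.N ≤ U)
  {U' : Submodule ℂ T'} (hU' : ∀ x ∈ U', C'.d x ∈ U') (hN' : C'.N ≤ U')

theorem mem_subZ {x : T} : x ∈ (C.sub U hU).Z n ↔ x ∈ C.Z n ∧ x ∈ U :=
  ⟨fun h => ⟨⟨h.1.1, h.2⟩, h.1.2⟩, fun h => ⟨⟨h.1.1, h.2⟩, h.1.2⟩⟩

theorem mem_subB {x : T} (e : n + 1 = m) :
    x ∈ (C.sub U hU).B m ↔ ∃ b, (b ∈ C.G n ∧ b ∈ U) ∧ x - C.d b ∈ C.N := mem_B' e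

theorem mem_quoZ {x : T} : x ∈ (C.quo U hU hN).Z n ↔ x ∈ C.G n ∧ C.d x ∈ U := Iff.rfl

theorem mem_quoB {x : T} (e : n + 1 = m) :
    x ∈ (C.quo U hU hN).B m ↔ ∃ b ∈ C.G n, x - C.d b ∈ U := mem_B' e

theorem subB_le : (C.sub U hU).B n ≤ C.B n := fun _ h => by
  obtain ⟨b, hb, e⟩ := (mem_subB hU (sub_add_cancel n 1)).1 h
  exact mem_B.2 ⟨b, hb.1, e⟩

theorem Z_le_quo : C.Z n ≤ (C.quo U hU hN).Z n := fun _ h => ⟨h.1, hN h.2⟩

theorem B_le_quo : C.B n ≤ (C.quo U hU hN).B n := fun _ h => by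
  obtain ⟨b, hb, e⟩ := mem_B.1 h
  exact mem_B.2 ⟨b, hb, hN e⟩

theorem U_le_quo : U ≤ (C.quo U hU hN).B n := N_le_B (C := C.quo U hU hN)

theorem d_mem_subZ {x : T} (h : x ∈ (C.quo U hU hN).Z n) : C.d x ∈ (C.sub U hU).Z (n + 1) :=
  (mem_subZ hU).2 ⟨d_mem_Z h.1, h.2⟩

theorem mor_sub : (C.sub U hU).Mor C LinearMap.id 0 :=
  ⟨fun n _ hx => Gcast hx.1 (add_zero n).symm, fun _ _ _ h => h,
    fun _ x _ => meq C.N.zero_mem (sub_self (C.d x)).symm⟩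

theorem mor_quo : C.Mor (C.quo U hU hN) LinearMap.id 0 :=
  ⟨fun n _ hx => Gcast (C := C) hx (add_zero n).symm, fun _ _ _ h => hN h,
    fun _ x _ => meq U.zero_mem (sub_self (C.d x)).symm⟩

/-- exactness at `C` -/
theorem les_mid {x : T} (hx : x ∈ C.Z n) (h : x ∈ (C.quo U hU hN).B n) :
    ∃ y ∈ (C.sub U hU).Z n, x - y ∈ C.B n := by
  obtain ⟨b, hb, e⟩ := (mem_quoB hU hN (sub_add_cancel n 1)).1 h
  exact ⟨x - C.d b, (mem_subZ hU).2 ⟨(C.Z n).sub_mem hx (Zcast (d_mem_Z hb) (by ring)), e⟩,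
    meq (d_mem_B hb (by ring)) (sub_sub_cancel _ _).symm⟩

theorem inj_sub_iff : (C.sub U hU).Inj C LinearMap.id 0 (n + 1) ↔
    C.Sur (C.quo U hU hN) LinearMap.id 0 n := by
  refine ⟨fun i y hy => ?_, fun u x hx hb => ?_⟩
  · have hy' := Zcast hy (add_zero n)
    obtain ⟨b, hb, e⟩ := (mem_subB hU rfl).1
      (i _ (d_mem_subZ hU hN hy') (d_mem_B hy'.1 (add_zero _).symm))
    exact ⟨y - b, mem_Z.2 ⟨(C.G n).sub_mem hy'.1 hb.1, meq e (map_sub _ _ _).symm⟩,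
      U_le_quo hU hN (meq hb.2 (sub_sub_cancel _ _).symm)⟩
  · obtain ⟨b, hb, e⟩ := (mem_B' (add_zero (n + 1)).symm).1 hb
    have e : x - C.d b ∈ C.N := e
    obtain ⟨z, hz, h1⟩ := u b (Zcast ((mem_quoZ hU hN).2
      ⟨hb, meq (U.sub_mem hx.1.2 (hN e)) (sub_sub_cancel _ _)⟩) (add_zero n).symm)
    obtain ⟨c, hc, h2⟩ := (mem_quoB hU hN (n := n - 1) (by ring)).1 h1
    have h2 : b - z - C.d c ∈ U := h2
    exact (mem_subB hU rfl).2 ⟨_, ⟨(C.G n).sub_mem ((C.G n).sub_mem hb hz.1)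
      (Gcast (C.dG _ c hc) (by ring)), h2⟩,
      meq (C.N.add_mem (C.N.add_mem e hz.2) (C.dd _ c hc)) (by simp only [map_sub, map_add, LinearMap.comp_apply]; abel)⟩

theorem inj_quo_iff : C.Inj (C.quo U hU hN) LinearMap.id 0 n ↔
    ∀ x ∈ (C.sub U hU).Z n, x ∈ C.B n := by
  refine ⟨fun i x hx => i x ((mem_subZ hU).1 hx).1 (U_le_quo hU hN hx.1.2), fun h x hx hb => ?_⟩
  obtain ⟨y, hy, e⟩ := les_mid hU hN hx (Bcast hb (add_zero n))
  exact meq ((C.B n).add_mem e (h y hy)) (sub_add_cancel _ _)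

theorem ac_mid (a : (C.sub U hU).Ac n) (b : (C.quo U hU hN).Ac n) : C.Ac n :=
  fun x hx => (inj_quo_iff hU hN).2 (fun _ hy => subB_le hU (a hy)) x hx
    (Bcast (b (Z_le_quo hU hN hx)) (add_zero n).symm)

theorem ac_sub (a : C.Ac (n + 1)) (b : (C.quo U hU hN).Ac n) : (C.sub U hU).Ac (n + 1) :=
  Ac.of_inj ((inj_sub_iff hU hN).2 (Ac.sur (by rwa [add_zero]))) (mor_sub hU) (by rwa [add_zero])

theorem ac_quo (a : C.Ac n) (b : (C.sub U hU).Ac (n + 1)) : (C.quo U hU hN).Ac n := by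
  have := Ac.of_sur ((inj_sub_iff hU hN).1 b.inj) (mor_quo hU hN) a
  rwa [add_zero] at this

theorem qi_quo (a : ∀ k ≤ n, (C.sub U hU).Ac k) : C.QI (C.quo U hU hN) LinearMap.id 0 n :=
  ⟨fun k hk => (inj_quo_iff hU hN).2 fun _ hx => subB_le hU (a k hk hx),
    fun k hk => (inj_sub_iff hU hN).1 (a (k + 1) hk).inj⟩

theorem qi_sub (a : ∀ k < n, (C.quo U hU hN).Ac k) : (C.sub U hU).QI C LinearMap.id 0 n := by
  refine ⟨fun k hk => ?_, fun k hk y hy => ?_⟩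
  · obtain ⟨j, rfl⟩ : ∃ j, k = j + 1 := ⟨k - 1, by ring⟩
    exact (inj_sub_iff hU hN).2 (Ac.sur (by rw [add_zero]; exact a j hk))
  · rw [add_zero] at hy ⊢
    exact les_mid hU hN hy (a k hk (Z_le_quo hU hN hy))

theorem finrank_les [Module.Finite ℂ ((C.sub U hU).H n)] [Module.Finite ℂ ((C.quo U hU hN).H n)] :
    Module.Finite ℂ (C.H n) ∧ Module.finrank ℂ (C.H n) ≤
      Module.finrank ℂ ((C.sub U hU).H n) + Module.finrank ℂ ((C.quo U hU hN).H n) := by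
  have hk : LinearMap.ker ((mor_quo hU hN).hm (add_zero n)) ≤
      LinearMap.range ((mor_sub hU).hm (add_zero n)) := fun a ha => by
    obtain ⟨x, rfl⟩ := cls_surj n a
    obtain ⟨y, hy, e⟩ := les_mid hU hN x.2 (cls_eq_zero.1 (LinearMap.mem_ker.1 ha))
    exact ⟨(C.sub U hU).cls n ⟨y, hy⟩, (cls_eq.2 e).symm⟩
  have h1 := Submodule.finiteDimensional_of_le hk
  have h2 : Module.Finite ℂ (C.H n) := ⟨Submodule.fg_of_fg_map_of_fg_inf_ker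
    ((mor_quo hU hN).hm (add_zero n)) (IsNoetherian.noetherian _)
    (by rw [top_inf_eq]; exact Module.Finite.iff_fg.1 h1)⟩
  refine ⟨h2, ?_⟩
  rw [← LinearMap.finrank_range_add_finrank_ker ((mor_quo hU hN).hm (add_zero n)), add_comm]
  exact add_le_add ((Submodule.finrank_mono hk).trans (LinearMap.finrank_range_le _))
    (Submodule.finrank_le _)

variable (h : C.Mor C' f s) (hf : ∀ n, ∀ x ∈ C.G n, x ∈ U → f x ∈ U')
include h hf

theorem Mor.sub : (C.sub U hU).Mor (C'.sub U' hU') f s :=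
  ⟨fun n x hx => ⟨h.fG n x hx.1, hf n x hx.1 hx.2⟩, fun n x hx => h.fN n x hx.1,
    fun n x hx => h.fd n x hx.1⟩

theorem Mor.quo : (C.quo U hU hN).Mor (C'.quo U' hU' hN') f s :=
  ⟨h.fG, hf, fun n x hx => hN' (h.fd n x hx)⟩

/-- five lemma -/
theorem five_mid (a : (C.sub U hU).QI (C'.sub U' hU') f s n)
    (b : (C.quo U hU hN).QI (C'.quo U' hU' hN') f s n) : C.QI C' f s n := by
  refine ⟨fun k hk x hx hb => ?_, fun k hk y' hy' => ?_⟩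
  · obtain ⟨j, rfl⟩ : ∃ j, k = j + 1 := ⟨k - 1, by ring⟩
    obtain ⟨y, hy, e⟩ := les_mid hU hN hx
      (b.1 _ hk x (Z_le_quo hU hN hx) (B_le_quo hU' hN' hb))
    obtain ⟨hy1, hy2⟩ := (mem_subZ hU).1 hy
    obtain ⟨c', hc', e1⟩ := (mem_B' (n := j + s) (by ring)).1 (meq ((C'.B _).sub_mem hb
      (h.mem_B ((C.G _).sub_mem hx.1 hy1.1) e)) (show _ = f y by simp only [map_sub, map_add, LinearMap.comp_apply]; abel))
    obtain ⟨c, hc, e2⟩ := b.2 j hk c' ((mem_quoZ hU' hN').2 ⟨hc',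
      meq (U'.sub_mem (hf _ y hy1.1 hy2) (hN' e1)) (sub_sub_cancel _ _)⟩)
    obtain ⟨e', he', e3⟩ := (mem_quoB hU' hN' (sub_add_cancel _ 1)).1 e2
    have h1 := a.1 _ hk (y - C.d c) (Submodule.sub_mem _ hy (d_mem_subZ hU hN hc))
      ((mem_subB hU' (n := j + s) (by ring)).2 ⟨_, ⟨(C'.G _).sub_mem ((C'.G _).sub_mem hc'
        (h.fG j c hc.1)) (Gcast (C'.dG _ e' he') (by ring)), e3⟩,
        meq (C'.N.add_mem (C'.N.sub_mem e1 (h.fd j c hc.1)) (C'.dd _ e' he')) (by simp only [map_sub, map_add, LinearMap.comp_apply]; abel)⟩)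
    exact meq ((C.B _).add_mem ((C.B _).add_mem e (subB_le hU h1)) (d_mem_B hc.1 rfl)) (by abel)
  · obtain ⟨x, hx, e⟩ := b.2 k hk y' (Z_le_quo hU' hN' hy')
    obtain ⟨c', hc', e1⟩ := (mem_quoB hU' hN' (sub_add_cancel _ 1)).1 e
    have hd := Zcast (d_mem_Z hc') (sub_add_cancel _ 1)
    have g1 := (C'.G _).sub_mem ((C'.G _).sub_mem hy'.1 (h.fG k x hx.1)) hd.1
    obtain ⟨u, hu, e2⟩ := (mem_subB hU rfl).1 (a.1 (k + 1) hk _ (d_mem_subZ hU hN hx)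
      ((mem_subB hU' (n := k + s) (by ring)).2 ⟨_, ⟨(C'.G _).neg_mem g1, U'.neg_mem e1⟩,
        meq (C'.N.sub_mem (C'.N.add_mem (h.fd k x hx.1) hy'.2) hd.2)
          (by simp only [map_sub, map_neg]; abel)⟩))
    have hz : x - u ∈ C.Z k := mem_Z.2 ⟨(C.G k).sub_mem hx.1 hu.1, meq e2 (map_sub _ _ _).symm⟩
    obtain ⟨v, hv, e3⟩ := a.2 k hk (y' - f (x - u) - C'.d c') ((mem_subZ hU').2
      ⟨(C'.Z _).sub_mem ((C'.Z _).sub_mem hy' (h.mem_Z hz)) hd,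
        meq (U'.add_mem e1 (hf k u hu.1 hu.2)) (by simp only [map_sub, map_add, LinearMap.comp_apply]; abel)⟩)
    exact ⟨x - u + v, (C.Z k).add_mem hz ((mem_subZ hU).1 hv).1,
      meq ((C'.B _).add_mem (subB_le hU' e3) (d_mem_B hc' (by ring))) (by simp only [map_sub, map_add, LinearMap.comp_apply]; abel)⟩

theorem five_sub (a : C.QI C' f s n) (b : (C.quo U hU hN).QI (C'.quo U' hU' hN') f s n) :
    (C.sub U hU).QI (C'.sub U' hU') f s n := by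
  refine ⟨fun k hk y hy hb => ?_, fun k hk y' hy' => ?_⟩ <;>
    obtain ⟨j, rfl⟩ : ∃ j, k = j + 1 := ⟨k - 1, by ring⟩
  · obtain ⟨hy1, hy2⟩ := (mem_subZ hU).1 hy
    obtain ⟨u', hu', e1⟩ := (mem_subB hU' (n := j + s) (by ring)).1 hb
    obtain ⟨c, hc, e2⟩ := (mem_B' rfl).1 (a.1 _ hk y hy1 (subB_le hU' hb))
    have hq : c ∈ (C.quo U hU hN).Z j :=
      (mem_quoZ hU hN).2 ⟨hc, meq (U.sub_mem hy2 (hN e2)) (sub_sub_cancel _ _)⟩
    obtain ⟨z, hz, e3⟩ := a.2 j hk (f c - u') (mem_Z.2 ⟨(C'.G _).sub_mem (h.fG j c hc) hu'.1,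
      meq (C'.N.sub_mem (C'.N.sub_mem e1 (h.fN _ _ ((C.G _).sub_mem hy1.1 (C.dG j c hc)) e2))
        (h.fd j c hc)) (by simp only [map_sub]; abel)⟩)
    obtain ⟨e, he, e4⟩ := (mem_quoB hU hN (sub_add_cancel _ 1)).1 (b.1 j (by omega) (c - z)
      (Submodule.sub_mem _ hq (Z_le_quo hU hN hz))
      (meq (Submodule.add_mem _ (B_le_quo hU' hN' e3) (U_le_quo hU' hN' hu'.2)) (by simp only [map_sub, map_add, LinearMap.comp_apply]; abel)))
    exact (mem_subB hU rfl).2 ⟨_, ⟨(C.G j).sub_mem ((C.G j).sub_mem hc hz.1)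
      (Gcast (C.dG _ e he) (by ring)), e4⟩,
      meq (C.N.add_mem (C.N.add_mem e2 hz.2) (C.dd _ e he)) (by simp only [map_sub, map_add, LinearMap.comp_apply]; abel)⟩
  · obtain ⟨hy1, hy2⟩ := (mem_subZ hU').1 hy'
    obtain ⟨x, hx, e⟩ := a.2 _ hk y' hy1
    obtain ⟨y, hy, e0⟩ := les_mid hU hN hx (b.1 _ hk.le x (Z_le_quo hU hN hx)
      (meq (Submodule.sub_mem _ (U_le_quo hU' hN' hy2) (B_le_quo hU' hN' e)) (sub_sub_cancel _ _)))
    obtain ⟨hz1, hz2⟩ := (mem_subZ hU).1 hy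
    obtain ⟨c', hc', e1⟩ := (mem_B' (n := j + s) (by ring)).1 (meq ((C'.B _).add_mem e
      (h.mem_B ((C.G _).sub_mem hx.1 hz1.1) e0)) (show _ = y' - f y by simp only [map_sub, map_add, LinearMap.comp_apply]; abel))
    obtain ⟨c, hc, e2⟩ := b.2 j (by omega) c' ((mem_quoZ hU' hN').2 ⟨hc',
      meq (U'.sub_mem (U'.sub_mem hy2 (hf _ y hz1.1 hz2)) (hN' e1)) (sub_sub_cancel _ _)⟩)
    obtain ⟨e', he', e3⟩ := (mem_quoB hU' hN' (sub_add_cancel _ 1)).1 e2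
    exact ⟨y + C.d c, Submodule.add_mem _ hy (d_mem_subZ hU hN hc),
      (mem_subB hU' (n := j + s) (by ring)).2 ⟨_, ⟨(C'.G _).sub_mem ((C'.G _).sub_mem hc'
        (h.fG j c hc.1)) (Gcast (C'.dG _ e' he') (by ring)), e3⟩,
        meq (C'.N.add_mem (C'.N.sub_mem e1 (h.fd j c hc.1)) (C'.dd _ e' he')) (by simp only [map_sub, map_add, LinearMap.comp_apply]; abel)⟩⟩

theorem five_quo (a : C.QI C' f s (n + 1)) (b : (C.sub U hU).QI (C'.sub U' hU') f s (n + 1)) :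
    (C.quo U hU hN).QI (C'.quo U' hU' hN') f s n := by
  refine ⟨fun k hk x hx hb => ?_, fun k hk y' hy' => ?_⟩
  · obtain ⟨c', hc', e1⟩ := (mem_quoB hU' hN' (sub_add_cancel _ 1)).1 hb
    have hd := Zcast (d_mem_Z hc') (sub_add_cancel _ 1)
    have g1 := (C'.G _).sub_mem (h.fG k x hx.1) hd.1
    obtain ⟨u, hu, e2⟩ := (mem_subB hU rfl).1 (b.1 (k + 1) (by omega) _ (d_mem_subZ hU hN hx)
      ((mem_subB hU' (n := k + s) (by ring)).2 ⟨_, ⟨g1, e1⟩,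
        meq (C'.N.add_mem (h.fd k x hx.1) hd.2) (by simp only [map_sub, map_add, LinearMap.comp_apply]; abel)⟩))
    have hz : x - u ∈ C.Z k := mem_Z.2 ⟨(C.G k).sub_mem hx.1 hu.1, meq e2 (map_sub _ _ _).symm⟩
    obtain ⟨v, hv, e3⟩ := b.2 k (by omega) (f (x - u) - C'.d c') ((mem_subZ hU').2
      ⟨(C'.Z _).sub_mem (h.mem_Z hz) hd, meq (U'.sub_mem e1 (hf k u hu.1 hu.2)) (by simp only [map_sub, map_add, LinearMap.comp_apply]; abel)⟩)
    obtain ⟨hv1, hv2⟩ := (mem_subZ hU).1 hv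
    have h1 := a.1 k (by omega) (x - u - v) ((C.Z k).sub_mem hz hv1)
      (meq ((C'.B _).add_mem (subB_le hU' e3) (d_mem_B hc' (by ring))) (by simp only [map_sub, map_add, LinearMap.comp_apply]; abel))
    exact meq (Submodule.add_mem _ (B_le_quo hU hN h1) (U_le_quo hU hN (U.add_mem hu.2 hv2)))
      (by abel)
  · obtain ⟨v, hv, e⟩ := b.2 (k + 1) (by omega) _ (Zcast (d_mem_subZ hU' hN' hy') (by ring))
    obtain ⟨hv1, hv2⟩ := (mem_subZ hU).1 hv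
    obtain ⟨u', hu', e1⟩ := (mem_subB hU' (n := k + s) (by ring)).1 e
    obtain ⟨x, hx, e2⟩ := (mem_B' rfl).1 (a.1 (k + 1) (by omega) v hv1
      (meq ((C'.B _).sub_mem (d_mem_B hy'.1 (by ring)) (subB_le hU' e)) (sub_sub_cancel _ _)))
    obtain ⟨z, hz, e3⟩ := a.2 k (by omega) (y' - u' - f x)
      (mem_Z.2 ⟨(C'.G _).sub_mem ((C'.G _).sub_mem hy'.1 hu'.1) (h.fG k x hx),
        meq (C'.N.add_mem (C'.N.add_mem e1 (h.fN _ _ ((C.G _).sub_mem hv1.1 (C.dG k x hx)) e2))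
          (h.fd k x hx)) (by simp only [map_sub]; abel)⟩)
    exact ⟨x + z, Submodule.add_mem _ ((mem_quoZ hU hN).2
      ⟨hx, meq (U.sub_mem hv2 (hN e2)) (sub_sub_cancel _ _)⟩) (Z_le_quo hU hN hz),
      meq (Submodule.add_mem _ (B_le_quo hU' hN' e3) (U_le_quo hU' hN' hu'.2)) (by simp only [map_sub, map_add, LinearMap.comp_apply]; abel)⟩

end les

end Cx

end Pool.Agent.CS
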