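import Pool.Agent.P.MP_d34769_ag.YA1

/-! Soft complexes over a compact base. -/

open Set

noncomputable section
namespace Pool.Agent.CS

theorem Cx.ext_YA2 {T : Type} [AddCommGroup T] [Module ℂ T] {C C' : Cx T} (hd : C.d = C'.d)
    (hG : C.G = C'.G) (hN : C.N = C'.N) : C = C' := by
  cases C
  cases C'
  cases hd
  cases hG
  cases hN
  rfl

/-- exactness of a mapping cone -/
theorem Cx.cone_ac_iff {T T' : Type} [AddCommGroup T] [Module ℂ T] [AddCommGroup T'] [Module ℂ T']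
    {C : Cx T} {C' : Cx T'} {f : T →ₗ[ℂ] T'} {s : ℤ} (hf : C.Mor C' f s) (D : Cx (T × T'))
    (hd : ∀ x y, D.d (x, y) = (C.d x, f x - C'.d y))
    (hG : ∀ k x y, (x, y) ∈ D.G k ↔ x ∈ C.G k ∧ y ∈ C'.G (k - 1 + s))
    (hN : ∀ x y, (x, y) ∈ D.N ↔ x ∈ C.N ∧ y ∈ C'.N) (k : ℤ) :
    D.Ac k ↔ C.Inj C' f s k ∧ C.Sur C' f s (k - 1) := by
  have e1 : k + s - 1 = k - 1 + s := by ring
  have e2 : k - 1 + s - 1 = k - 1 - 1 + s := by ring
  constructor
  · intro h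
    constructor
    · intro x hx hb
      obtain ⟨y, hy, e⟩ := Cx.mem_B.1 hb
      rw [e1] at hy
      have hz : (x, y) ∈ D.Z k := Cx.mem_Z.2 ⟨(hG _ _ _).2 ⟨hx.1, hy⟩, by
        rw [hd]
        exact (hN _ _).2 ⟨hx.2, e⟩⟩
      obtain ⟨⟨b, w⟩, hbw, e'⟩ := Cx.mem_B.1 (h hz)
      rw [hd, Prod.mk_sub_mk] at e'
      exact Cx.mem_B.2 ⟨b, ((hG _ _ _).1 hbw).1, ((hN _ _).1 e').1⟩
    · intro y hy
      have hz : ((0 : T), y) ∈ D.Z k := Cx.mem_Z.2 ⟨(hG _ _ _).2 ⟨zero_mem _, hy.1⟩, by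
        rw [hd]
        refine (hN _ _).2 ⟨by simp, ?_⟩
        rw [map_zero, zero_sub]
        exact neg_mem hy.2⟩
      obtain ⟨⟨b, w⟩, hbw, e'⟩ := Cx.mem_B.1 (h hz)
      rw [hd, Prod.mk_sub_mk] at e'
      obtain ⟨h1, h2⟩ := (hN _ _).1 e'
      obtain ⟨h3, h4⟩ := (hG _ _ _).1 hbw
      refine ⟨b, Cx.mem_Z.2 ⟨h3, ?_⟩, Cx.mem_B.2 ⟨-w, ?_, ?_⟩⟩
      · rw [zero_sub] at h1
        exact neg_mem_iff.1 h1
      · rw [e2]
        exact neg_mem h4
      · have e3 : y - f b - C'.d (-w) = y - (f b - C'.d w) := by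
          rw [map_neg]
          abel
        rw [e3]
        exact h2
  · rintro ⟨hi, hs⟩ ⟨x, y⟩ hz
    obtain ⟨h1, h2⟩ := Cx.mem_Z.1 hz
    rw [hd] at h2
    obtain ⟨hx, hy⟩ := (hG _ _ _).1 h1
    obtain ⟨hdx, hdy⟩ := (hN _ _).1 h2
    obtain ⟨b, hb, e⟩ := Cx.mem_B.1 (hi x ⟨hx, hdx⟩ (Cx.mem_B.2 ⟨y, e1 ▸ hy, hdy⟩))
    have hdb : C.d b ∈ C.G k := by simpa using C.dG _ b hb
    have hz' : y - f b ∈ C'.Z (k - 1 + s) := by
      refine Cx.mem_Z.2 ⟨sub_mem hy (hf.fG _ b hb), ?_⟩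
      have e3 : C'.d (y - f b) =
          f (x - C.d b) + (f (C.d b) - C'.d (f b)) - (f x - C'.d y) := by
        rw [map_sub, map_sub]
        abel
      rw [e3]
      exact sub_mem (add_mem (hf.fN k _ (sub_mem hx hdb) e) (hf.fd _ b hb)) hdy
    obtain ⟨x0, hx0, e'⟩ := hs _ hz'
    obtain ⟨w, hw, e''⟩ := Cx.mem_B.1 e'
    refine Cx.mem_B.2 ⟨(b + x0, -w), (hG _ _ _).2 ⟨add_mem hb hx0.1, neg_mem (e2 ▸ hw)⟩, ?_⟩
    rw [hd, Prod.mk_sub_mk]
    refine (hN _ _).2 ⟨?_, ?_⟩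
    · have e3 : x - C.d (b + x0) = x - C.d b - C.d x0 := by
        rw [map_add]
        abel
      rw [e3]
      exact sub_mem e hx0.2
    · have e3 : y - (f (b + x0) - C'.d (-w)) = y - f b - f x0 - C'.d w := by
        rw [map_add, map_neg]
        abel
      rw [e3]
      exact e''

/-- A soft complex over `B`: `z t` are the elements that vanish near `t`. -/
structure SC (B : Type) [TopologicalSpace B] (T : Type) [AddCommGroup T] [Module ℂ T] where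
  d : Module.End ℂ T
  G : ℤ → Submodule ℂ T
  z : B → Submodule ℂ T
  dG : ∀ n, ∀ x ∈ G n, d x ∈ G (n + 1)
  dz : ∀ t, ∀ x ∈ z t, d x ∈ z t
  dd : ∀ t x, d (d x) ∈ z t
  neg : ∃ n₀, ∀ n < n₀, ∀ x ∈ G n, x = 0
  opn : ∀ x, IsOpen {t | x ∈ z t}
  glue : ∀ K₁ K₂ : Set B, IsClosed K₁ → IsClosed K₂ → ∀ n, ∀ a ∈ G n, (∀ t ∈ K₁ ∩ K₂, a ∈ z t) →
    ∃ c ∈ G n, (∀ t ∈ K₁, c - a ∈ z t) ∧ ∀ t ∈ K₂, c ∈ z t

namespace SC
variable {B B' : Type} [TopologicalSpace B] [TopologicalSpace B'] {T T' : Type} [AddCommGroup T]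
  [Module ℂ T] [AddCommGroup T'] [Module ℂ T'] (S : SC B T) (S' : SC B T')

/-- elements that vanish near `K` -/
def zz (K : Set B) : Submodule ℂ T := ⨅ t ∈ K, S.z t

theorem mem_zz {K : Set B} {x : T} : x ∈ S.zz K ↔ ∀ t ∈ K, x ∈ S.z t := by simp [zz]

/-- sections near `K` that vanish near `A` -/
def cx (K A : Set B) : Cx T where
  d := S.d
  G n := S.G n ⊓ S.zz A
  N := S.zz K
  dG n x hx := ⟨S.dG n x hx.1, S.mem_zz.2 fun t ht => S.dz t x (S.mem_zz.1 hx.2 t ht)⟩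
  dN x hx := S.mem_zz.2 fun t ht => S.dz t x (S.mem_zz.1 hx t ht)
  dd _ x _ := S.mem_zz.2 fun t _ => S.dd t x

/-- a map of soft complexes -/
structure Mor (f : T →ₗ[ℂ] T') (s : ℤ) : Prop where
  fG : ∀ n, ∀ x ∈ S.G n, f x ∈ S'.G (n + s)
  fz : ∀ t, ∀ x ∈ S.z t, f x ∈ S'.z t
  fd : ∀ t x, f (S.d x) - S'.d (f x) ∈ S'.z t

/-- the direct image -/
def push [CompactSpace B] [T2Space B'] (π : C(B, B')) : SC B' T where
  d := S.d
  G := S.G
  z t := S.zz (π ⁻¹' {t})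
  dG := S.dG
  dz t x hx := S.mem_zz.2 fun u hu => S.dz u x (S.mem_zz.1 hx u hu)
  dd _ x := S.mem_zz.2 fun u _ => S.dd u x
  neg := S.neg
  opn x := by
    have h1 : IsClosed (π '' {t | x ∈ S.z t}ᶜ) :=
      ((S.opn x).isClosed_compl.isCompact.image π.continuous).isClosed
    have h2 : {t : B' | x ∈ S.zz (π ⁻¹' {t})} = (π '' {t | x ∈ S.z t}ᶜ)ᶜ := by
      ext t
      simp only [mem_ofPred_eq, mem_zz, mem_compl_iff, mem_image, mem_preimage, mem_singleton_iff]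
      constructor
      · rintro h ⟨u, hu, e⟩
        exact hu (h u e)
      · intro h u e
        by_contra hu
        exact h ⟨u, hu, e⟩
    rw [h2]
    exact h1.isOpen_compl
  glue K₁ K₂ h₁ h₂ n a ha h := by
    obtain ⟨c, hc, e₁, e₂⟩ := S.glue (π ⁻¹' K₁) (π ⁻¹' K₂) (h₁.preimage π.continuous)
      (h₂.preimage π.continuous) n a ha fun u hu => S.mem_zz.1 (h (π u) hu) u rfl
    refine ⟨c, hc, fun t ht => S.mem_zz.2 fun u hu => e₁ u ?_,
      fun t ht => S.mem_zz.2 fun u hu => e₂ u ?_⟩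
    · have e : π u = t := hu
      show π u ∈ K₁
      rwa [e]
    · have e : π u = t := hu
      show π u ∈ K₂
      rwa [e]

theorem push_zz [CompactSpace B] [T2Space B'] (π : C(B, B')) (K : Set B') :
    (S.push π).zz K = S.zz (π ⁻¹' K) := by
  ext x
  rw [mem_zz, mem_zz]
  constructor
  · intro h u hu
    exact S.mem_zz.1 (h (π u) hu) u rfl
  · intro h t ht
    refine S.mem_zz.2 fun u hu => h u ?_
    have e : π u = t := hu
    show π u ∈ K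
    rwa [e]

theorem push_cx [CompactSpace B] [T2Space B'] (π : C(B, B')) (K A : Set B') :
    (S.push π).cx K A = S.cx (π ⁻¹' K) (π ⁻¹' A) := by
  refine Cx.ext_YA2 rfl (funext fun n => ?_) (S.push_zz π K)
  show S.G n ⊓ (S.push π).zz A = S.G n ⊓ S.zz (π ⁻¹' A)
  rw [push_zz]

/-- shifted direct sum of copies -/
def fs (β : Type) (q : β → ℕ) : SC B (β →₀ T) where
  d := Finsupp.mapRange.linearMap S.d
  G n := ⨅ b, (S.G (n - q b)).comap (Finsupp.lapply b)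
  z t := ⨅ b, (S.z t).comap (Finsupp.lapply b)
  dG n x hx := by
    refine (Submodule.mem_iInf _).2 fun b => ?_
    have h := S.dG _ _ ((Submodule.mem_iInf _).1 hx b)
    rw [show n - (q b : ℤ) + 1 = n + 1 - q b by ring] at h
    exact h
  dz t x hx := (Submodule.mem_iInf _).2 fun b => S.dz t _ ((Submodule.mem_iInf _).1 hx b)
  dd t x := (Submodule.mem_iInf _).2 fun b => S.dd t (x b)
  neg := by
    obtain ⟨n₀, h⟩ := S.neg
    refine ⟨n₀, fun n hn x hx => Finsupp.ext fun b => ?_⟩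
    exact h (n - q b) (by omega) (x b) ((Submodule.mem_iInf _).1 hx b)
  opn x := by
    have h : {t | x ∈ ⨅ b, (S.z t).comap (Finsupp.lapply b : (β →₀ T) →ₗ[ℂ] T)} =
        ⋂ b ∈ x.support, {t | x b ∈ S.z t} := by
      ext t
      simp only [mem_ofPred_eq, Submodule.mem_iInf, Submodule.mem_comap, Finsupp.lapply_apply,
        mem_iInter]
      refine ⟨fun h b _ => h b, fun h b => ?_⟩
      by_cases hb : b ∈ x.support
      · exact h b hb
      · rw [Finsupp.notMem_support_iff.1 hb]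
        exact zero_mem _
    rw [h]
    exact isOpen_biInter_finset fun b _ => S.opn (x b)
  glue K₁ K₂ h₁ h₂ n a ha h := by
    have h0 : ∀ b, ∃ c ∈ S.G (n - q b), ((∀ t ∈ K₁, c - a b ∈ S.z t) ∧ ∀ t ∈ K₂, c ∈ S.z t) ∧
        (c ≠ 0 → b ∈ a.support) := by
      intro b
      by_cases hb : b ∈ a.support
      · obtain ⟨c, hc, e⟩ := S.glue K₁ K₂ h₁ h₂ _ (a b) ((Submodule.mem_iInf _).1 ha b)
          fun t ht => (Submodule.mem_iInf _).1 (h t ht) b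
        exact ⟨c, hc, e, fun _ => hb⟩
      · refine ⟨0, zero_mem _, ⟨fun t _ => ?_, fun t _ => zero_mem _⟩, fun e => (e rfl).elim⟩
        rw [Finsupp.notMem_support_iff.1 hb, sub_zero]
        exact zero_mem _
    choose c hc e hs using h0
    exact ⟨Finsupp.onFinset a.support c hs, (Submodule.mem_iInf _).2 hc,
      fun t ht => (Submodule.mem_iInf _).2 fun b => (e b).1 t ht,
      fun t ht => (Submodule.mem_iInf _).2 fun b => (e b).2 t ht⟩

/-- restriction to a submodule of allowed cochains that is the image of a local projector -/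
def cut (p : Module.End ℂ T) (hp : ∀ x, p (p x) = p x) (h : S.Mor S p 0)
    (hd : ∀ x, p (S.d x) = S.d (p x)) : SC B T where
  d := S.d
  G n := S.G n ⊓ LinearMap.range p
  z := S.z
  dG n x hx := by
    obtain ⟨h1, y, rfl⟩ := hx
    exact ⟨S.dG n _ h1, S.d y, hd y⟩
  dz := S.dz
  dd := S.dd
  neg := by
    obtain ⟨n₀, h⟩ := S.neg
    exact ⟨n₀, fun n hn x hx => h n hn x hx.1⟩
  opn := S.opn
  glue K₁ K₂ h₁ h₂ n a ha e := by
    obtain ⟨h1, y, rfl⟩ := ha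
    obtain ⟨c, hc, e₁, e₂⟩ := S.glue K₁ K₂ h₁ h₂ n _ h1 e
    refine ⟨p c, ⟨by simpa using h.fG n c hc, c, rfl⟩, fun t ht => ?_,
      fun t ht => h.fz t c (e₂ t ht)⟩
    have h2 := h.fz t _ (e₁ t ht)
    rwa [map_sub, hp] at h2

/-- the mapping cone -/
def cone (f : T →ₗ[ℂ] T') (s : ℤ) (h : S.Mor S' f s) : SC B (T × T') where
  d := (S.d ∘ₗ LinearMap.fst ℂ T T').prod
    (f ∘ₗ LinearMap.fst ℂ T T' - S'.d ∘ₗ LinearMap.snd ℂ T T')
  G n := (S.G n).prod (S'.G (n - 1 + s))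
  z t := (S.z t).prod (S'.z t)
  dG n x hx := by
    refine ⟨S.dG n _ hx.1, ?_⟩
    have h1 := h.fG n _ hx.1
    have h2 := S'.dG _ _ hx.2
    rw [show n - 1 + s + 1 = n + s by ring] at h2
    rw [show n + 1 - 1 + s = n + s by ring]
    exact sub_mem h1 h2
  dz t x hx := ⟨S.dz t _ hx.1, sub_mem (h.fz t _ hx.1) (S'.dz t _ hx.2)⟩
  dd t x := by
    refine ⟨S.dd t x.1, ?_⟩
    show f (S.d x.1) - S'.d (f x.1 - S'.d x.2) ∈ S'.z t
    have e : f (S.d x.1) - S'.d (f x.1 - S'.d x.2) =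
        f (S.d x.1) - S'.d (f x.1) + S'.d (S'.d x.2) := by
      rw [map_sub]
      abel
    rw [e]
    exact add_mem (h.fd t _) (S'.dd t _)
  neg := by
    obtain ⟨n₀, h0⟩ := S.neg
    obtain ⟨n₁, h1⟩ := S'.neg
    refine ⟨min n₀ (n₁ - s), fun n hn x hx => Prod.ext ?_ ?_⟩
    · exact h0 n (by omega) _ hx.1
    · exact h1 (n - 1 + s) (by omega) _ hx.2
  opn x := (S.opn x.1).inter (S'.opn x.2)
  glue K₁ K₂ h₁ h₂ n a ha e := by
    obtain ⟨c, hc, e₁, e₂⟩ := S.glue K₁ K₂ h₁ h₂ n a.1 ha.1 fun t ht => (e t ht).1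
    obtain ⟨c', hc', e₁', e₂'⟩ := S'.glue K₁ K₂ h₁ h₂ _ a.2 ha.2 fun t ht => (e t ht).2
    exact ⟨(c, c'), ⟨hc, hc'⟩, fun t ht => ⟨e₁ t ht, e₁' t ht⟩, fun t ht => ⟨e₂ t ht, e₂' t ht⟩⟩

variable {S S'} {f : T →ₗ[ℂ] T'} {s n : ℤ} {K A : Set B}

theorem zz_anti (h : A ⊆ K) : S.zz K ≤ S.zz A :=
  fun _ hx => S.mem_zz.2 fun t ht => S.mem_zz.1 hx t (h ht)

theorem zz_d (K : Set B) : ∀ x ∈ S.zz K, S.d x ∈ S.zz K := (S.cx K ∅).dN

theorem Mor.cx (h : S.Mor S' f s) (K A : Set B) : (S.cx K A).Mor (S'.cx K A) f s :=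
  ⟨fun n x hx => ⟨h.fG n x hx.1, S'.mem_zz.2 fun t ht => h.fz t x (S.mem_zz.1 hx.2 t ht)⟩,
    fun _ x _ hx => S'.mem_zz.2 fun t ht => h.fz t x (S.mem_zz.1 hx t ht),
    fun _ x _ => S'.mem_zz.2 fun t _ => h.fd t x⟩

theorem zz_union (A A' : Set B) : S.zz (A ∪ A') = S.zz A ⊓ S.zz A' := by
  ext x
  rw [Submodule.mem_inf, mem_zz, mem_zz, mem_zz]
  exact ⟨fun h => ⟨fun t ht => h t (Or.inl ht), fun t ht => h t (Or.inr ht)⟩,
    fun h t ht => ht.elim (h.1 t) (h.2 t)⟩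

theorem cx_sub (K A A' : Set B) : (S.cx K A).sub (S.zz A') (zz_d A') = S.cx K (A ∪ A') := by
  refine Cx.ext_YA2 rfl (funext fun n => ?_) rfl
  show S.G n ⊓ S.zz A ⊓ S.zz A' = S.G n ⊓ S.zz (A ∪ A')
  rw [zz_union, inf_assoc]

theorem cx_quo {K' : Set B} (h : K' ⊆ K) (A : Set B) :
    (S.cx K A).quo (S.zz K') (zz_d K') (zz_anti h) = S.cx K' A := rfl

theorem soft_step [CompactSpace B] [T2Space B] (hK : IsClosed K) (hA : IsClosed A) {k : ℤ}
    (h : ∀ t ∈ K \ A, (S.cx {t} ∅).Ac k)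
    (ih : ∀ K', IsClosed K' → K' ⊆ K → (S.cx K' A).Ac (k - 1)) : (S.cx K A).Ac k := by
  intro x hx
  obtain ⟨⟨hxG, hxA⟩, hdx⟩ := Cx.mem_Z.1 hx
  have hxA' := S.mem_zz.1 hxA
  have hdx' := S.mem_zz.1 hdx
  have key : ∃ b ∈ S.G (k - 1), (∀ t ∈ A, b ∈ S.z t) ∧
      ∀ t ∈ closure K ∩ K, x - S.d b ∈ S.z t := by
    refine hK.isCompact.induction_on (p := fun M => ∃ b ∈ S.G (k - 1), (∀ t ∈ A, b ∈ S.z t) ∧
      ∀ t ∈ closure M ∩ K, x - S.d b ∈ S.z t) ?_ ?_ ?_ ?_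
    · exact ⟨0, zero_mem _, fun t _ => zero_mem _, by simp⟩
    · rintro M M' hM ⟨b, hb, e1, e2⟩
      exact ⟨b, hb, e1, fun t ht => e2 t ⟨closure_mono hM ht.1, ht.2⟩⟩
    · rintro M M' ⟨b, hb, e1, e2⟩ ⟨b', hb', e1', e2'⟩
      have c1 : IsClosed (closure M ∩ K) := isClosed_closure.inter hK
      have c2 : IsClosed (closure M' ∩ K) := isClosed_closure.inter hK
      have hz : b - b' ∈ (S.cx ((closure M ∩ K) ∩ (closure M' ∩ K)) A).Z (k - 1) := by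
        refine Cx.mem_Z.2 ⟨⟨sub_mem hb hb', S.mem_zz.2 fun t ht => sub_mem (e1 t ht) (e1' t ht)⟩,
          S.mem_zz.2 fun t ht => ?_⟩
        show S.d (b - b') ∈ S.z t
        have e : S.d (b - b') = (x - S.d b') - (x - S.d b) := by
          rw [map_sub]
          abel
        rw [e]
        exact sub_mem (e2' t ht.2) (e2 t ht.1)
      obtain ⟨u, ⟨hu, huA⟩, e3⟩ := Cx.mem_B.1 (ih _ (c1.inter c2) (fun t ht => ht.1.2) hz)
      have huA' := S.mem_zz.1 huA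
      have e3' : ∀ t ∈ (closure M ∩ K) ∩ (closure M' ∩ K), b - b' - S.d u ∈ S.z t := S.mem_zz.1 e3
      have hdu : S.d u ∈ S.G (k - 1) := by simpa using S.dG _ u hu
      obtain ⟨c, hc, e4, e5⟩ := S.glue (closure M ∩ K) ((closure M' ∩ K) ∪ A) c1 (c2.union hA)
        (k - 1) (b - b' - S.d u) (sub_mem (sub_mem hb hb') hdu) (by
          rintro t ⟨ht, ht' | ht'⟩
          · exact e3' t ⟨ht, ht'⟩
          · exact sub_mem (sub_mem (e1 t ht') (e1' t ht')) (S.dz t u (huA' t ht')))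
      refine ⟨b' + S.d u + c, add_mem (add_mem hb' hdu) hc, fun t ht =>
        add_mem (add_mem (e1' t ht) (S.dz t u (huA' t ht))) (e5 t (Or.inr ht)), ?_⟩
      rintro t ⟨ht, htK⟩
      rw [closure_union] at ht
      rcases ht with ht | ht
      · have e : x - S.d (b' + S.d u + c) = (x - S.d b) - S.d (c - (b - b' - S.d u)) := by
          simp only [map_add, map_sub]
          abel
        rw [e]
        exact sub_mem (e2 t ⟨ht, htK⟩) (S.dz t _ (e4 t ⟨ht, htK⟩))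
      · have e : x - S.d (b' + S.d u + c) = (x - S.d b') - S.d (S.d u) - S.d c := by
          simp only [map_add]
          abel
        rw [e]
        exact sub_mem (sub_mem (e2' t ⟨ht, htK⟩) (S.dd t u)) (S.dz t _ (e5 t (Or.inl ⟨ht, htK⟩)))
    · intro t ht
      by_cases htA : t ∈ A
      · obtain ⟨M, hM, hMc, hMs⟩ := exists_mem_nhds_isClosed_subset
          ((S.opn x).mem_nhds (hxA' t htA))
        refine ⟨M, mem_nhdsWithin_of_mem_nhds hM, 0, zero_mem _, fun t _ => zero_mem _,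
          fun u hu => ?_⟩
        rw [map_zero, sub_zero]
        rw [hMc.closure_eq] at hu
        exact hMs hu.1
      · have hz : x ∈ (S.cx {t} ∅).Z k :=
          Cx.mem_Z.2 ⟨⟨hxG, S.mem_zz.2 fun _ e => e.elim⟩, S.mem_zz.2 fun u hu => by
            rw [mem_singleton_iff.1 hu]
            exact hdx' t ht⟩
        obtain ⟨b, ⟨hb, -⟩, e⟩ := Cx.mem_B.1 (h t ⟨ht, htA⟩ hz)
        have e' : x - S.d b ∈ S.z t := S.mem_zz.1 e t rfl
        obtain ⟨M, hM, hMc, hMs⟩ := exists_mem_nhds_isClosed_subset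
          (((S.opn (x - S.d b)).inter hA.isOpen_compl).mem_nhds ⟨e', htA⟩)
        obtain ⟨c, hc, e4, e5⟩ := S.glue M A hMc hA (k - 1) b hb
          fun u hu => ((hMs hu.1).2 hu.2).elim
        refine ⟨M, mem_nhdsWithin_of_mem_nhds hM, c, hc, e5, fun u hu => ?_⟩
        rw [hMc.closure_eq] at hu
        have e6 : x - S.d c = (x - S.d b) - S.d (c - b) := by
          rw [map_sub]
          abel
        rw [e6]
        exact sub_mem (hMs hu.1).1 (S.dz u _ (e4 u hu.1))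
  obtain ⟨b, hb, e1, e2⟩ := key
  exact Cx.mem_B.2 ⟨b, ⟨hb, S.mem_zz.2 e1⟩, S.mem_zz.2 fun t ht => e2 t ⟨subset_closure ht, ht⟩⟩

/-- stalkwise exact implies exact -/
theorem soft [CompactSpace B] [T2Space B] (hK : IsClosed K) (hA : IsClosed A)
    (h : ∀ t ∈ K \ A, ∀ k ≤ n, (S.cx {t} ∅).Ac k) : ∀ k ≤ n, (S.cx K A).Ac k := by
  obtain ⟨n₀, h0⟩ := S.neg
  have key : ∀ j : ℕ, ∀ k < n₀ + j, k ≤ n → ∀ K', IsClosed K' → K' ⊆ K → (S.cx K' A).Ac k := by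
    intro j
    induction j with
    | zero =>
      intro k hk _ K' _ _ x hx
      rw [h0 k (by simpa using hk) x hx.1.1]
      exact zero_mem _
    | succ j ih =>
      intro k hk hn K' hK' hs
      exact soft_step hK' hA (fun t ht => h t ⟨hs ht.1, ht.2⟩ k hn) fun K'' hK'' hs' =>
        ih (k - 1) (by push_cast at hk; omega) (by omega) K'' hK'' (hs'.trans hs)
  intro k hk
  exact key ((k - n₀).toNat + 1) k (by push_cast; omega) hk K hK Subset.rfl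

theorem cone_ac (hf : S.Mor S' f s) (K A : Set B) (k : ℤ) :
    ((S.cone S' f s hf).cx K A).Ac k ↔
      (S.cx K A).Inj (S'.cx K A) f s k ∧ (S.cx K A).Sur (S'.cx K A) f s (k - 1) := by
  have hz : ∀ (M : Set B) (x : T) (y : T'),
      (x, y) ∈ (S.cone S' f s hf).zz M ↔ x ∈ S.zz M ∧ y ∈ S'.zz M := by
    intro M x y
    rw [mem_zz, mem_zz, mem_zz]
    exact ⟨fun h => ⟨fun t ht => (h t ht).1, fun t ht => (h t ht).2⟩,
      fun h t ht => ⟨h.1 t ht, h.2 t ht⟩⟩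
  refine Cx.cone_ac_iff (hf.cx K A) _ (fun _ _ => rfl) (fun k x y => ?_) (hz K) k
  exact ⟨fun h => ⟨⟨h.1.1, ((hz A x y).1 h.2).1⟩, h.1.2, ((hz A x y).1 h.2).2⟩,
    fun h => ⟨⟨h.1.1, h.2.1⟩, (hz A x y).2 ⟨h.1.2, h.2.2⟩⟩⟩

theorem soft_qi [CompactSpace B] [T2Space B] (hf : S.Mor S' f s) (hK : IsClosed K)
    (hA : IsClosed A) (h : ∀ t ∈ K \ A, (S.cx {t} ∅).QI (S'.cx {t} ∅) f s n) :
    (S.cx K A).QI (S'.cx K A) f s n := by
  have key := soft (S := S.cone S' f s hf) (n := n) hK hA fun t ht k hk =>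
    (cone_ac hf _ _ k).2 ⟨(h t ht).1 k hk, (h t ht).2 (k - 1) (by omega)⟩
  refine ⟨fun k hk => ((cone_ac hf K A k).1 (key k hk)).1, fun k hk => ?_⟩
  have h1 := ((cone_ac hf K A (k + 1)).1 (key (k + 1) (by omega))).2
  rwa [add_sub_cancel_right] at h1

theorem soft_qia [CompactSpace B] [T2Space B] (hf : S.Mor S' f s) (hK : IsClosed K)
    (hA : IsClosed A) (h : ∀ t ∈ K \ A, (S.cx {t} ∅).QIa (S'.cx {t} ∅) f s) :
    (S.cx K A).QIa (S'.cx K A) f s := fun n => soft_qi hf hK hA fun t ht => h t ht n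

/-- excision inside one soft complex -/
theorem cx_exc (hK : IsClosed K) (hA : IsClosed A) :
    (S.cx K A).QIa (S.cx K (A ∩ K)) LinearMap.id 0 := by
  refine Cx.qia_iff.2 fun k => ⟨fun x hx hb => ?_, fun y hy => ?_⟩
  · rw [add_zero] at hb
    obtain ⟨b, ⟨hb, hbA⟩, e⟩ := Cx.mem_B.1 hb
    obtain ⟨c, hc, e1, e2⟩ := S.glue K A hK hA _ b hb
      fun t ht => S.mem_zz.1 hbA t ⟨ht.2, ht.1⟩
    refine Cx.mem_B.2 ⟨c, ⟨hc, S.mem_zz.2 e2⟩, S.mem_zz.2 fun t ht => ?_⟩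
    have e3 : x - S.d b ∈ S.z t := S.mem_zz.1 e t ht
    show x - S.d c ∈ S.z t
    have e4 : x - S.d c = (x - S.d b) - S.d (c - b) := by
      rw [map_sub]
      abel
    rw [e4]
    exact sub_mem e3 (S.dz t _ (e1 t ht))
  · rw [add_zero] at hy
    obtain ⟨⟨hG, hyA⟩, hd⟩ := Cx.mem_Z.1 hy
    obtain ⟨c, hc, e1, e2⟩ := S.glue K A hK hA _ y hG
      fun t ht => S.mem_zz.1 hyA t ⟨ht.2, ht.1⟩
    refine ⟨c, Cx.mem_Z.2 ⟨⟨hc, S.mem_zz.2 e2⟩, S.mem_zz.2 fun t ht => ?_⟩,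
      Cx.N_le_B (S.mem_zz.2 fun t ht => ?_)⟩
    · show S.d c ∈ S.z t
      have e3 : S.d y ∈ S.z t := S.mem_zz.1 hd t ht
      have e4 : S.d c = S.d y + S.d (c - y) := by
        rw [map_sub]
        abel
      rw [e4]
      exact add_mem e3 (S.dz t _ (e1 t ht))
    · show y - c ∈ S.z t
      rw [← neg_sub]
      exact neg_mem (e1 t ht)

end SC

end Pool.Agent.CS
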