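import Mathlib

/-! The list algebra of Alexander-Spanier cochains. -/

open Finset

noncomputable section
namespace Pool.Agent.CS

/-- functions on lists of points -/
abbrev Fn (X : Type) := List X → ℂ

namespace LA
variable {X Y : Type}

/-- the augmented coboundary -/
def da : Module.End ℂ (Fn X) where
  toFun φ l := ∑ i ∈ range l.length, (-1) ^ i * φ (l.eraseIdx i)
  map_add' φ ψ := by funext l; simp [mul_add, sum_add_distrib]
  map_smul' c φ := by funext l; simp [mul_sum, mul_left_comm]

/-- the coboundary -/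
def d : Module.End ℂ (Fn X) where
  toFun φ l := if 2 ≤ l.length then da φ l else 0
  map_add' φ ψ := by funext l; by_cases h : 2 ≤ l.length <;> simp [h]
  map_smul' c φ := by funext l; by_cases h : 2 ≤ l.length <;> simp [h]

/-- fix the first point -/
def cs (x : X) : Module.End ℂ (Fn X) where
  toFun φ l := φ (x :: l)
  map_add' _ _ := rfl
  map_smul' _ _ := rfl

/-- kill the value at the empty list -/
def red : Module.End ℂ (Fn X) where
  toFun φ l := if l = [] then 0 else φ l
  map_add' φ ψ := by funext l; by_cases h : l = [] <;> simp [h]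
  map_smul' c φ := by funext l; by_cases h : l = [] <;> simp [h]

/-- the sign of the degree -/
def sg : Module.End ℂ (Fn X) where
  toFun φ l := (-1) ^ (l.length + 1) * φ l
  map_add' φ ψ := by funext l; simp [mul_add]
  map_smul' c φ := by funext l; simp [mul_left_comm]

/-- pull-back -/
def pull (g : X → Y) : Fn Y →ₗ[ℂ] Fn X where
  toFun φ l := φ (l.map g)
  map_add' _ _ := rfl
  map_smul' _ _ := rfl

/-- the cup product -/
def cup : Fn X →ₗ[ℂ] Fn X →ₗ[ℂ] Fn X :=
  LinearMap.mk₂ ℂ (fun φ ψ l => ∑ i ∈ range l.length, φ (l.take (i + 1)) * ψ (l.drop i))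
    (fun _ _ _ => by funext l; simp [add_mul, sum_add_distrib])
    (fun _ _ _ => by funext l; simp [mul_sum, mul_assoc])
    (fun _ _ _ => by funext l; simp [mul_add, sum_add_distrib])
    (fun _ _ _ => by funext l; simp [mul_sum, mul_left_comm])

/-- the unit -/
def one : Fn X := fun l => if l.length = 1 then 1 else 0

/-- cochains that vanish on the lists inside `O` -/
def van (O : Set X) : Submodule ℂ (Fn X) where
  carrier := {φ | ∀ l : List X, (∀ y ∈ l, y ∈ O) → φ l = 0}
  add_mem' ha hb l hl := by simp [ha l hl, hb l hl]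
  zero_mem' _ _ := rfl
  smul_mem' c φ h l hl := by simp [h l hl]

/-- cochains supported on the lists of length `n` -/
def hm (n : ℕ) : Submodule ℂ (Fn X) where
  carrier := {φ | ∀ l : List X, l.length ≠ n → φ l = 0}
  add_mem' ha hb l hl := by simp [ha l hl, hb l hl]
  zero_mem' _ _ := rfl
  smul_mem' c φ h l hl := by simp [h l hl]

theorem da_apply (φ : Fn X) (l : List X) :
    da φ l = ∑ i ∈ range l.length, (-1) ^ i * φ (l.eraseIdx i) := rfl
theorem d_apply (φ : Fn X) (l : List X) : d φ l = if 2 ≤ l.length then da φ l else 0 := rfl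
@[simp] theorem cs_apply (x : X) (φ : Fn X) (l : List X) : cs x φ l = φ (x :: l) := rfl
theorem red_apply (φ : Fn X) (l : List X) : red φ l = if l = [] then 0 else φ l := rfl
theorem sg_apply (φ : Fn X) (l : List X) : sg φ l = (-1) ^ (l.length + 1) * φ l := rfl
@[simp] theorem pull_apply (g : X → Y) (φ : Fn Y) (l : List X) : pull g φ l = φ (l.map g) := rfl
theorem cup_apply (φ ψ : Fn X) (l : List X) :
    cup φ ψ l = ∑ i ∈ range l.length, φ (l.take (i + 1)) * ψ (l.drop i) := rfl

@[simp] theorem da_nil (φ : Fn X) : da φ [] = 0 := by simp [da_apply]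
@[simp] theorem d_nil (φ : Fn X) : d φ [] = 0 := by simp [d_apply]
@[simp] theorem d_one (φ : Fn X) (x : X) : d φ [x] = 0 := by simp [d_apply]
@[simp] theorem red_nil (φ : Fn X) : red φ [] = 0 := by simp [red_apply]
@[simp] theorem red_cons (φ : Fn X) (x : X) (l : List X) : red φ (x :: l) = φ (x :: l) := by
  simp [red_apply]
@[simp] theorem cup_nil (φ ψ : Fn X) : cup φ ψ [] = 0 := by simp [cup_apply]

theorem da_cons (φ : Fn X) (x : X) (l : List X) : da φ (x :: l) = φ l - da (cs x φ) l := by
  simp only [da_apply, List.length_cons, sum_range_succ', List.eraseIdx_cons_succ, pow_succ,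
    List.eraseIdx_cons_zero, cs_apply]
  simp [sub_eq_neg_add]

theorem cs_da (φ : Fn X) (x : X) : cs x (da φ) = φ - da (cs x φ) := funext (da_cons φ x)

theorem da_congr {φ ψ : Fn X} {l : List X} (h : ∀ i < l.length, φ (l.eraseIdx i) = ψ (l.eraseIdx i)) :
    da φ l = da ψ l := by
  rw [da_apply, da_apply]
  exact sum_congr rfl fun i hi => by rw [h i (mem_range.1 hi)]

theorem da_len {φ ψ : Fn X} {l : List X} (h : ∀ t : List X, t.length + 1 = l.length → φ t = ψ t) :
    da φ l = da ψ l :=
  da_congr fun i hi => h _ (by rw [List.length_eraseIdx_of_lt hi]; omega)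

theorem da_zero {φ : Fn X} {l : List X} (h : ∀ t : List X, t.length + 1 = l.length → φ t = 0) :
    da φ l = 0 := by rw [da_len (ψ := 0) h, map_zero]; rfl

theorem da_da (φ : Fn X) : da (da φ) = 0 := by
  funext l
  induction l generalizing φ with
  | nil => simp
  | cons x t ih => rw [da_cons, cs_da, map_sub]; simp [ih]

theorem d_eq (φ : Fn X) : d φ = da (red φ) := by
  funext l
  rw [d_apply]
  split_ifs with h
  · exact da_len fun t ht => by
      cases t with
      | nil => simp at ht; omega
      | cons => simp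
  · match l, h with
    | [], _ => simp
    | [x], _ => simp [da_cons]
    | _ :: _ :: _, h => simp at h

theorem red_eq {φ : Fn X} (h : φ [] = 0) : red φ = φ := by
  funext l; cases l <;> simp [h]

theorem d_eq_da {φ : Fn X} (h : φ [] = 0) : d φ = da φ := by rw [d_eq, red_eq h]

theorem d_d (φ : Fn X) : d (d φ) = 0 := by rw [d_eq_da (d_nil φ), d_eq, da_da]

theorem d_red (φ : Fn X) : d (red φ) = d φ := by rw [d_eq, d_eq, red_eq (red_nil φ)]

theorem cup_cons (φ ψ : Fn X) (x : X) (l : List X) :
    cup φ ψ (x :: l) = φ [x] * ψ (x :: l) + cup (cs x φ) ψ l := by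
  simp only [cup_apply, List.length_cons, sum_range_succ', cs_apply, List.take_succ_cons,
    List.drop_succ_cons, List.take_zero, List.drop_zero]
  rw [add_comm]

theorem cs_cup (φ ψ : Fn X) (x : X) : cs x (cup φ ψ) = φ [x] • cs x ψ + cup (cs x φ) ψ :=
  funext (cup_cons φ ψ x)

theorem cup_red_left (φ ψ : Fn X) : cup (red φ) ψ = cup φ ψ := by
  funext l
  cases l with
  | nil => simp
  | cons x t => rw [cup_cons, cup_cons]; rfl

theorem cup_red_right (φ ψ : Fn X) : cup φ (red ψ) = cup φ ψ := by
  funext l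
  induction l generalizing φ with
  | nil => simp
  | cons x t ih => rw [cup_cons, cup_cons, ih]; rfl

theorem cup_assoc (φ ψ χ : Fn X) : cup (cup φ ψ) χ = cup φ (cup ψ χ) := by
  funext l
  induction l generalizing φ ψ with
  | nil => simp
  | cons x t ih =>
    rw [cup_cons, cs_cup, cup_cons, cup_cons φ (cup ψ χ), cup_cons ψ]
    simp only [map_add, map_smul, LinearMap.add_apply, LinearMap.smul_apply, Pi.add_apply,
      Pi.smul_apply, smul_eq_mul, ih, cup_nil]
    ring

theorem cs_sg (φ : Fn X) (x : X) : cs x (sg φ) = -sg (cs x φ) := by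
  funext l; simp [sg_apply, pow_succ]

theorem da_cup (φ : Fn X) {ψ : Fn X} (h : ψ [] = 0) :
    da (cup φ ψ) = cup (da φ) ψ - φ [] • ψ + cup (sg φ) (da ψ) := by
  funext l
  induction l generalizing φ with
  | nil => simp [h]
  | cons x t ih =>
    have e := da_cons ψ x t
    rw [da_cons, cs_cup]
    simp only [Pi.add_apply, Pi.sub_apply, Pi.smul_apply, smul_eq_mul] at ih ⊢
    rw [cup_cons (da φ), cup_cons (sg φ), cs_da, cs_sg, da_cons φ x [], e]
    simp only [map_add, map_smul, map_sub, map_neg, LinearMap.sub_apply, LinearMap.neg_apply,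
      Pi.add_apply, Pi.sub_apply, Pi.neg_apply, Pi.smul_apply, smul_eq_mul, ih, da_nil, sg_apply,
      cs_apply, List.length_singleton]
    ring

/-- Leibniz rule -/
theorem d_cup (φ ψ : Fn X) : d (cup φ ψ) = cup (d φ) ψ + cup (sg φ) (d ψ) := by
  have hs : sg (red φ) = red (sg φ) := by funext l; cases l <;> simp [sg_apply]
  rw [d_eq_da (cup_nil φ ψ), ← cup_red_left, ← cup_red_right, da_cup _ (red_nil ψ), red_nil,
    zero_smul, sub_zero, ← d_eq, ← d_eq, cup_red_right, hs, cup_red_left]

theorem one_cup (φ : Fn X) : cup one φ = red φ := by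
  funext l
  cases l with
  | nil => simp
  | cons x t =>
    rw [cup_cons, cup_apply, sum_eq_zero]
    · simp [one]
    · intro i hi
      have : t ≠ [] := by rintro rfl; simp at hi
      simp [one, this]

theorem cup_one (φ : Fn X) : cup φ one = red φ := by
  funext l
  induction l generalizing φ with
  | nil => simp
  | cons x t ih => rw [cup_cons, ih]; cases t <;> simp [one]

theorem d_one' : d (one : Fn X) = 0 := by
  funext l
  match l with
  | [] => simp
  | [x] => simp
  | [x, y] => simp [d_apply, da_apply, sum_range_succ, one]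
  | x :: y :: z :: t =>
    rw [d_eq_da (by simp [one]), da_len (ψ := 0), map_zero]
    intro t ht
    simp only [List.length_cons] at ht
    simp only [one, Pi.zero_apply]
    rw [if_neg (by omega)]

theorem pull_da (g : X → Y) (φ : Fn Y) : pull g (da φ) = da (pull g φ) := by
  funext l; simp [da_apply, List.eraseIdx_map]

theorem pull_d (g : X → Y) (φ : Fn Y) : pull g (d φ) = d (pull g φ) := by
  funext l; simp [d_apply, ← pull_da]

theorem pull_cup (g : X → Y) (φ ψ : Fn Y) : pull g (cup φ ψ) = cup (pull g φ) (pull g ψ) := by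
  funext l; simp [cup_apply]

theorem pull_one (g : X → Y) : pull g one = one := by funext l; simp [one]

theorem pull_pull {Z : Type} (g : X → Y) (f : Y → Z) (φ : Fn Z) :
    pull g (pull f φ) = pull (f ∘ g) φ := by funext l; simp

theorem pull_id (φ : Fn X) : pull id φ = φ := by funext l; simp

theorem pull_van (g : X → Y) {O : Set Y} {φ : Fn Y} (h : φ ∈ van O) : pull g φ ∈ van (g ⁻¹' O) :=
  fun l hl => h _ fun y hy => by
    obtain ⟨x, hx, rfl⟩ := List.mem_map.1 hy
    exact hl x hx

theorem pull_hm (g : X → Y) {n : ℕ} {φ : Fn Y} (h : φ ∈ hm n) : pull g φ ∈ hm n :=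
  fun l hl => h _ (by simpa using hl)

theorem van_mono {O O' : Set X} (h : O' ⊆ O) : van O ≤ van O' :=
  fun _ hφ l hl => hφ l fun y hy => h (hl y hy)

variable {O : Set X} {φ ψ : Fn X} {n m : ℕ}

theorem da_van (h : φ ∈ van O) : da φ ∈ van O := fun l hl =>
  (da_apply _ _).trans <| sum_eq_zero fun i _ => by
    rw [h _ fun y hy => hl y (List.mem_of_mem_eraseIdx hy), mul_zero]

theorem red_van (h : φ ∈ van O) : red φ ∈ van O := fun l hl => by simp [red_apply, h l hl]

theorem d_van (h : φ ∈ van O) : d φ ∈ van O := d_eq φ ▸ da_van (red_van h)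

theorem sg_van (h : φ ∈ van O) : sg φ ∈ van O := fun l hl => by simp [sg_apply, h l hl]

theorem cs_van (h : φ ∈ van O) {x : X} (hx : x ∈ O) : cs x φ ∈ van O := fun l hl =>
  h _ (by simpa using ⟨hx, hl⟩)

theorem cup_van_left (h : φ ∈ van O) (ψ : Fn X) : cup φ ψ ∈ van O := fun l hl =>
  (cup_apply _ _ _).trans <| sum_eq_zero fun i _ => by
    rw [h _ fun y hy => hl y (List.mem_of_mem_take hy), zero_mul]

theorem cup_van_right (φ : Fn X) (h : ψ ∈ van O) : cup φ ψ ∈ van O := fun l hl =>
  (cup_apply _ _ _).trans <| sum_eq_zero fun i _ => by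
    rw [h _ fun y hy => hl y (List.mem_of_mem_drop hy), mul_zero]

theorem da_hm (h : φ ∈ hm n) : da φ ∈ hm (n + 1) := fun l hl => by
  rw [da_len (ψ := 0) fun t ht => h t (by omega), map_zero]; rfl

theorem red_hm (h : φ ∈ hm n) : red φ ∈ hm n := fun l hl => by simp [red_apply, h l hl]

theorem d_hm (h : φ ∈ hm n) : d φ ∈ hm (n + 1) := d_eq φ ▸ da_hm (red_hm h)

theorem sg_hm (h : φ ∈ hm (n + 1)) : sg φ = (-1 : ℂ) ^ n • φ := by
  funext l
  by_cases hl : l.length = n + 1
  · simp [sg_apply, hl, pow_succ]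
  · simp [sg_apply, h l hl]

theorem cs_hm (h : φ ∈ hm (n + 1)) (x : X) : cs x φ ∈ hm n := fun l hl =>
  h _ (by simpa using hl)

theorem one_hm : (one : Fn X) ∈ hm 1 := fun l hl => by simp [one, hl]

theorem cup_hm (h : φ ∈ hm n) (h' : ψ ∈ hm (m + 1)) : cup φ ψ ∈ hm (n + m) := fun l hl =>
  (cup_apply _ _ _).trans <| sum_eq_zero fun i hi => by
    have hi := mem_range.1 hi
    by_cases e : i + 1 = n
    · rw [h' _ (by simp; omega), mul_zero]
    · rw [h _ (by simp; omega), zero_mul]

theorem cup_hm' (h : φ ∈ hm (n + 1)) (h' : ψ ∈ hm m) : cup φ ψ ∈ hm (n + m) := fun l hl =>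
  (cup_apply _ _ _).trans <| sum_eq_zero fun i hi => by
    have hi := mem_range.1 hi
    by_cases e : i = n
    · rw [h' _ (by simp; omega), mul_zero]
    · rw [h _ (by simp; omega), zero_mul]

end LA
end Pool.Agent.CS
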