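import Pool.Agent.P.MP_d34769_ag.YA2
import Pool.Agent.P.MP_d34769_ag.YSL

/-! Alexander-Spanier cochains. -/

open Set Topology

noncomputable section
namespace Pool.Agent.CS

/-- A graded complex with projections `e n` and the sign operator `s`. -/
structure Gc (T : Type) [AddCommGroup T] [Module ℂ T] where
  d : Module.End ℂ T
  e : ℕ → Module.End ℂ T
  s : Module.End ℂ T
  ee : ∀ n x, e n (e n x) = e n x
  ee' : ∀ n m x, n ≠ m → e n (e m x) = 0
  ext : ∀ x, (∀ n, e n x = 0) → x = 0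
  ed : ∀ n x, e (n + 1) (d x) = d (e n x)
  ed0 : ∀ x, e 0 (d x) = 0
  dd : ∀ x, d (d x) = 0
  es : ∀ n x, e n (s x) = (-1 : ℂ) ^ n • e n x

/-- the elements of degree `n` -/
def Gc.G {T : Type} [AddCommGroup T] [Module ℂ T] (A : Gc T) (n : ℤ) : Submodule ℂ T :=
  ⨅ (m : ℕ) (_ : (m : ℤ) ≠ n), LinearMap.ker (A.e m)

variable {X Y Z : Type}

/-- the alternating sum over the faces of a list -/
def dA : List X → (List X → ℂ) → ℂ
  | [], _ => 0
  | a :: l, φ => φ l - dA l fun w => φ (a :: w)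

/-- the cup product on functions of lists -/
def cupA : List X → (List X → ℂ) → (List X → ℂ) → ℂ
  | [], _, _ => 0
  | a :: l, φ, ψ => φ [a] * ψ (a :: l) + cupA l (fun w => φ (a :: w)) ψ

theorem dA_eq (l : List X) (φ : List X → ℂ) : dA l φ = LA.da φ l := by
  induction l generalizing φ with
  | nil => simp [dA]
  | cons a l ih => rw [dA, ih, LA.da_cons]; rfl

theorem cupA_eq (l : List X) (φ ψ : List X → ℂ) : cupA l φ ψ = LA.cup φ ψ l := by
  induction l generalizing φ with
  | nil => simp [cupA]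
  | cons a l ih => rw [cupA, ih, LA.cup_cons]; rfl

/-- functions of nonempty lists -/
def AS (X : Type) : Type := LinearMap.ker (LinearMap.proj (R := ℂ) (φ := fun _ : List X => ℂ) [])

instance : AddCommGroup (AS X) := inferInstanceAs (AddCommGroup (LinearMap.ker _))
instance : Module ℂ (AS X) := inferInstanceAs (Module ℂ (LinearMap.ker _))

namespace AS

/-- a cochain from a function -/
def mk (φ : List X → ℂ) (h : φ [] = 0) : AS X := ⟨φ, h⟩

@[simp] theorem mk_val (φ : List X → ℂ) (h : φ [] = 0) : (mk φ h).1 = φ := rfl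
@[simp] theorem nil (φ : AS X) : φ.1 [] = 0 := φ.2
@[ext] theorem ext {φ ψ : AS X} (h : ∀ l, φ.1 l = ψ.1 l) : φ = ψ := Subtype.ext (funext h)
@[simp] theorem val_add (φ ψ : AS X) (l : List X) : (φ + ψ).1 l = φ.1 l + ψ.1 l := rfl
@[simp] theorem val_sub (φ ψ : AS X) (l : List X) : (φ - ψ).1 l = φ.1 l - ψ.1 l := rfl
@[simp] theorem val_neg (φ : AS X) (l : List X) : (-φ).1 l = -φ.1 l := rfl
@[simp] theorem val_smul (c : ℂ) (φ : AS X) (l : List X) : (c • φ).1 l = c * φ.1 l := rfl
@[simp] theorem val_zero (l : List X) : (0 : AS X).1 l = 0 := rfl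

instance : Mul (AS X) := ⟨fun φ ψ => mk (fun l => cupA l φ.1 ψ.1) rfl⟩
instance : One (AS X) := ⟨mk (fun l => if l.length = 1 then 1 else 0) (by simp)⟩

theorem val_mul (φ ψ : AS X) (l : List X) : (φ * ψ).1 l = cupA l φ.1 ψ.1 := rfl
theorem val_one (l : List X) : (1 : AS X).1 l = if l.length = 1 then 1 else 0 := rfl

theorem coe_mul (φ ψ : AS X) : (φ * ψ).1 = LA.cup φ.1 ψ.1 := funext fun l => cupA_eq l _ _
theorem coe_one : (1 : AS X).1 = LA.one := rfl
theorem coe_add (φ ψ : AS X) : (φ + ψ).1 = φ.1 + ψ.1 := rfl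
theorem coe_sub (φ ψ : AS X) : (φ - ψ).1 = φ.1 - ψ.1 := rfl
theorem coe_smul (c : ℂ) (φ : AS X) : (c • φ).1 = c • φ.1 := rfl
theorem coe_zero : (0 : AS X).1 = 0 := rfl

instance : Ring (AS X) :=
  { (inferInstance : AddCommGroup (AS X)) with
    mul := (· * ·)
    one := 1
    left_distrib := fun a b c => Subtype.ext (by simp only [coe_mul, coe_add, map_add])
    right_distrib := fun a b c => Subtype.ext (by
      simp only [coe_mul, coe_add, map_add, LinearMap.add_apply])
    zero_mul := fun a => Subtype.ext (by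
      simp only [coe_mul, coe_zero, map_zero, LinearMap.zero_apply])
    mul_zero := fun a => Subtype.ext (by simp only [coe_mul, coe_zero, map_zero])
    mul_assoc := fun a b c => Subtype.ext (by simp only [coe_mul, LA.cup_assoc])
    one_mul := fun a => Subtype.ext (by rw [coe_mul, coe_one, LA.one_cup, LA.red_eq a.nil])
    mul_one := fun a => Subtype.ext (by rw [coe_mul, coe_one, LA.cup_one, LA.red_eq a.nil]) }

instance : Algebra ℂ (AS X) := Algebra.ofModule
  (fun c a b => Subtype.ext (by simp only [coe_mul, coe_smul, map_smul, LinearMap.smul_apply]))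
  (fun c a b => Subtype.ext (by simp only [coe_mul, coe_smul, map_smul]))

/-- the graded complex of cochains -/
def gc (X : Type) : Gc (AS X) where
  d :=
    { toFun := fun φ => mk (fun l => dA l φ.1) rfl
      map_add' := fun φ ψ => ext fun l => by simp [dA_eq, coe_add]
      map_smul' := fun c φ => ext fun l => by simp [dA_eq, coe_smul] }
  e n :=
    { toFun := fun φ => mk (fun l => if l.length = n + 1 then φ.1 l else 0) (by simp)
      map_add' := fun φ ψ => ext fun l => by by_cases h : l.length = n + 1 <;> simp [h]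
      map_smul' := fun c φ => ext fun l => by by_cases h : l.length = n + 1 <;> simp [h] }
  s :=
    { toFun := fun φ => mk (fun l => (-1) ^ (l.length + 1) * φ.1 l) (by simp)
      map_add' := fun φ ψ => ext fun l => by simp [mul_add]
      map_smul' := fun c φ => ext fun l => by simp [mul_left_comm] }
  ee n x := ext fun l => by by_cases h : l.length = n + 1 <;> simp [h]
  ee' n m x hn := ext fun l => by
    by_cases h : l.length = n + 1 <;> simp [h, hn]
  ext x h := ext fun l => by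
    cases l with
    | nil => simp
    | cons a t => simpa using congrArg (fun φ : AS X => φ.1 (a :: t)) (h t.length)
  ed n x := ext fun l => by
    simp only [LinearMap.coe_mk, AddHom.coe_mk, mk_val, dA_eq]
    split_ifs with h
    · exact LA.da_len fun t ht => (if_pos (by omega)).symm
    · exact (LA.da_zero fun t ht => if_neg (by omega)).symm
  ed0 x := ext fun l => by
    simp only [LinearMap.coe_mk, AddHom.coe_mk, mk_val, dA_eq, val_zero]
    split_ifs with h
    · obtain ⟨a, rfl⟩ := List.length_eq_one_iff.1 h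
      simp [LA.da_cons]
    · rfl
  dd x := ext fun l => by
    simp only [LinearMap.coe_mk, AddHom.coe_mk, mk_val, dA_eq, val_zero]
    exact congrFun (LA.da_da x.1) l
  es n x := ext fun l => by by_cases h : l.length = n + 1 <;> simp [h, pow_succ]

/-- the differential -/
abbrev d : Module.End ℂ (AS X) := (gc X).d

/-- the cochains of degree `n` -/
abbrev G (X : Type) (n : ℤ) : Submodule ℂ (AS X) := (gc X).G n

theorem coe_d (φ : AS X) : (d φ).1 = LA.da φ.1 := funext fun l => dA_eq l _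

theorem coe_d' (φ : AS X) : (d φ).1 = LA.d φ.1 := by rw [coe_d, LA.d_eq_da φ.nil]

theorem coe_s (φ : AS X) : ((gc X).s φ).1 = LA.sg φ.1 := rfl

theorem val_e (n : ℕ) (φ : AS X) (l : List X) :
    ((gc X).e n φ).1 l = if l.length = n + 1 then φ.1 l else 0 := rfl

theorem d_d (φ : AS X) : d (d φ) = 0 := (gc X).dd φ

theorem mem_G {n : ℤ} {φ : AS X} : φ ∈ G X n ↔ ∀ l, (l.length : ℤ) ≠ n + 1 → φ.1 l = 0 := by
  simp only [Gc.G, Submodule.mem_iInf, LinearMap.mem_ker]
  refine ⟨fun h l hl => ?_, fun h m hm => ext fun l => ?_⟩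
  · cases l with
    | nil => simp
    | cons a t =>
      simpa [val_e] using congrArg (fun φ : AS X => φ.1 (a :: t))
        (h t.length fun e => hl (by simp [e]))
  · rw [val_e]
    split_ifs with e
    · exact h l (by omega)
    · rfl

theorem mem_G_nat {n : ℕ} {φ : AS X} : φ ∈ G X n ↔ φ.1 ∈ LA.hm (n + 1) :=
  mem_G.trans ⟨fun h l hl => h l (by omega), fun h l hl => h l (by omega)⟩

theorem G_neg {n : ℤ} (hn : n < 0) {φ : AS X} (h : φ ∈ G X n) : φ = 0 := ext fun l => by
  cases l with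
  | nil => simp
  | cons a t => exact mem_G.1 h _ (by simp; omega)

theorem e_mem_G (n : ℕ) (φ : AS X) : (gc X).e n φ ∈ G X n :=
  mem_G.2 fun l hl => if_neg (by omega)

theorem e_of_G {n : ℕ} {φ : AS X} (h : φ ∈ G X n) : (gc X).e n φ = φ := ext fun l => by
  rw [val_e]
  split_ifs with e
  · rfl
  · exact (mem_G_nat.1 h l e).symm

theorem e_of_G_ne {n : ℕ} {m : ℤ} {φ : AS X} (h : φ ∈ G X m) (hn : (n : ℤ) ≠ m) :
    (gc X).e n φ = 0 := ext fun l => by
  rw [val_e]
  split_ifs with e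
  · exact mem_G.1 h l (by omega)
  · rfl

theorem d_mem_G {n : ℤ} {φ : AS X} (h : φ ∈ G X n) : d φ ∈ G X (n + 1) := mem_G.2 fun l hl => by
  rw [coe_d]; exact LA.da_zero fun t ht => mem_G.1 h t (by omega)

theorem d_mul (φ ψ : AS X) : d (φ * ψ) = d φ * ψ + (gc X).s φ * d ψ :=
  Subtype.ext (by simp only [coe_add, coe_mul, coe_d', coe_s, LA.d_cup])

theorem d_one : d (1 : AS X) = 0 := Subtype.ext (by rw [coe_d', coe_one, LA.d_one', coe_zero])

theorem one_mem_G : (1 : AS X) ∈ G X 0 := (mem_G_nat (n := 0)).2 LA.one_hm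

theorem mul_mem_G {p q : ℤ} {φ ψ : AS X} (h : φ ∈ G X p) (h' : ψ ∈ G X q) :
    φ * ψ ∈ G X (p + q) := by
  rcases lt_or_ge p 0 with hp | hp
  · rw [G_neg hp h, zero_mul]; exact zero_mem _
  rcases lt_or_ge q 0 with hq | hq
  · rw [G_neg hq h', mul_zero]; exact zero_mem _
  lift p to ℕ using hp
  lift q to ℕ using hq
  rw [← Nat.cast_add, mem_G_nat, coe_mul, add_right_comm]
  exact LA.cup_hm (mem_G_nat.1 h) (mem_G_nat.1 h')

theorem s_of_G {n : ℕ} {φ : AS X} (h : φ ∈ G X n) : (gc X).s φ = (-1 : ℂ) ^ n • φ :=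
  Subtype.ext (LA.sg_hm (mem_G_nat.1 h))

/-- pull-back -/
def pull (g : X → Y) : AS Y →ₐ[ℂ] AS X where
  toFun φ := mk (fun l => φ.1 (l.map g)) φ.nil
  map_one' := Subtype.ext (LA.pull_one g)
  map_mul' φ ψ := Subtype.ext (((congrArg (LA.pull g) (coe_mul φ ψ)).trans
    (LA.pull_cup g φ.1 ψ.1)).trans 
      (coe_mul (mk (LA.pull g φ.1) φ.nil) (mk (LA.pull g ψ.1) ψ.nil)).symm)
  map_zero' := rfl
  map_add' _ _ := rfl
  commutes' c := ext fun l => by simp [Algebra.algebraMap_eq_smul_one, val_one]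

@[simp] theorem pull_val (g : X → Y) (φ : AS Y) (l : List X) : (pull g φ).1 l = φ.1 (l.map g) := rfl

theorem pull_pull (g : X → Y) (h : Y → Z) (φ : AS Z) : pull g (pull h φ) = pull (h ∘ g) φ :=
  ext fun l => by simp

theorem pull_id (φ : AS X) : pull id φ = φ := ext fun l => by simp

theorem pull_d (g : X → Y) (φ : AS Y) : pull g (d φ) = d (pull g φ) := ext fun l => by
  rw [pull_val, coe_d, coe_d]; exact congrFun (LA.pull_da g φ.1) l

theorem pull_e (g : X → Y) (n : ℕ) (φ : AS Y) :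
    pull g ((gc Y).e n φ) = (gc X).e n (pull g φ) := ext fun l => by simp [val_e]

theorem pull_mem_G (g : X → Y) {n : ℤ} {φ : AS Y} (h : φ ∈ G Y n) : pull g φ ∈ G X n :=
  mem_G.2 fun l hl => mem_G.1 h _ (by simpa using hl)

/-- pull-back as a linear map -/
abbrev pl (g : X → Y) : AS Y →ₗ[ℂ] AS X := (pull g).toLinearMap

variable [TopologicalSpace X] [TopologicalSpace Y]

/-- cochains that vanish on lists of points close to `x` -/
def z (x : X) : Submodule ℂ (AS X) where
  carrier := {φ | ∃ O ∈ 𝓝 x, ∀ l : List X, (∀ y ∈ l, y ∈ O) → φ.1 l = 0}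
  add_mem' := fun ⟨O, hO, h⟩ ⟨O', hO', h'⟩ => ⟨O ∩ O', Filter.inter_mem hO hO', fun l hl => by
    rw [val_add, h l fun y hy => (hl y hy).1, h' l fun y hy => (hl y hy).2, add_zero]⟩
  zero_mem' := ⟨univ, Filter.univ_mem, fun _ _ => rfl⟩
  smul_mem' := fun c _ ⟨O, hO, h⟩ => ⟨O, hO, fun l hl => by rw [val_smul, h l hl, mul_zero]⟩

theorem mem_z {x : X} {φ : AS X} :
    φ ∈ z x ↔ ∃ O ∈ 𝓝 x, ∀ l : List X, (∀ y ∈ l, y ∈ O) → φ.1 l = 0 := Iff.rfl

theorem z_e {x : X} {φ : AS X} (h : φ ∈ z x) (n : ℕ) : (gc X).e n φ ∈ z x :=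
  h.imp fun _ h => ⟨h.1, fun l hl => by simp [val_e, h.2 l hl]⟩

theorem z_s {x : X} {φ : AS X} (h : φ ∈ z x) : (gc X).s φ ∈ z x :=
  h.imp fun _ h => ⟨h.1, LA.sg_van h.2⟩

theorem z_d {x : X} {φ : AS X} (h : φ ∈ z x) : d φ ∈ z x :=
  h.imp fun _ h => ⟨h.1, coe_d φ ▸ LA.da_van h.2⟩

theorem z_mul_left {x : X} (φ : AS X) {ψ : AS X} (h : ψ ∈ z x) : φ * ψ ∈ z x :=
  h.imp fun _ h => ⟨h.1, coe_mul φ ψ ▸ LA.cup_van_right _ h.2⟩

theorem z_mul_right {x : X} {φ : AS X} (h : φ ∈ z x) (ψ : AS X) : φ * ψ ∈ z x :=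
  h.imp fun _ h => ⟨h.1, coe_mul φ ψ ▸ LA.cup_van_left h.2 _⟩

theorem z_pull {g : X → Y} {x : X} (hg : ContinuousAt g x) {φ : AS Y} (h : φ ∈ z (g x)) :
    pull g φ ∈ z x := by
  obtain ⟨O, hO, h⟩ := h
  exact ⟨g ⁻¹' O, hg hO, LA.pull_van g h⟩

theorem z_open (φ : AS X) : IsOpen {t | φ ∈ z t} := by
  refine isOpen_iff_mem_nhds.2 fun x ⟨O, hO, h⟩ => ?_
  filter_upwards [eventually_mem_nhds_iff.2 hO] with t ht using ⟨O, ht, h⟩

open Classical in
/-- cut-off by the first point -/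
def cut (O : Set X) : Module.End ℂ (AS X) where
  toFun φ := mk (fun l => if ∀ y ∈ l.head?, y ∈ O then φ.1 l else 0) (by simp)
  map_add' φ ψ := ext fun l => by
    simp only [mk_val, val_add]; split_ifs <;> simp
  map_smul' c φ := ext fun l => by
    simp only [mk_val, val_smul, RingHom.id_apply]; split_ifs <;> simp

omit [TopologicalSpace X] in
theorem cut_zero (O : Set X) {φ : AS X} {l : List X} (h : φ.1 l = 0) : (cut O φ).1 l = 0 := by
  simp [cut, h]

omit [TopologicalSpace X] in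
theorem cut_mem_G (O : Set X) {n : ℤ} {φ : AS X} (h : φ ∈ G X n) : cut O φ ∈ G X n :=
  mem_G.2 fun l hl => cut_zero O (mem_G.1 h l hl)

theorem cut_z (O : Set X) {x : X} {φ : AS X} (h : φ ∈ z x) : cut O φ ∈ z x :=
  h.imp fun _ h => ⟨h.1, fun l hl => cut_zero O (h.2 l hl)⟩

theorem cut_in {O : Set X} {x : X} (h : O ∈ 𝓝 x) (φ : AS X) : cut O φ - φ ∈ z x :=
  ⟨O, h, fun l hl => by
    have : ∀ y ∈ l.head?, y ∈ O := fun y hy => hl y (List.mem_of_mem_head? hy)
    rw [val_sub, sub_eq_zero]; exact if_pos this⟩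

theorem cut_out {O : Set X} {x : X} (h : Oᶜ ∈ 𝓝 x) (φ : AS X) : cut O φ ∈ z x :=
  ⟨Oᶜ, h, fun l hl => by
    cases l with
    | nil => simp
    | cons a t => exact if_neg fun e => hl a (by simp) (e a (by simp))⟩

/-- the soft complex of cochains -/
def sc (X : Type) [TopologicalSpace X] [CompactSpace X] [T2Space X] : SC X (AS X) where
  d := d
  G := G X
  z := z
  dG _ _ := d_mem_G
  dz _ _ := z_d
  dd _ x := d_d x ▸ zero_mem _
  neg := ⟨0, fun _ hn _ => G_neg hn⟩
  opn := z_open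
  glue K₁ K₂ h₁ h₂ n a ha h := by
    have hc := (z_open a).isClosed_compl
    obtain ⟨U, V, hU, hV, e₁, e₂, hd⟩ := normal_separation h₁ (h₂.inter hc)
      (disjoint_left.2 fun t h1 h2 => h2.2 (h t ⟨h1, h2.1⟩))
    refine ⟨cut U a, cut_mem_G U ha, fun t ht => cut_in (hU.mem_nhds (e₁ ht)) a, fun t ht => ?_⟩
    by_cases e : a ∈ z t
    · exact cut_z U e
    · exact cut_out (Filter.mem_of_superset (hV.mem_nhds (e₂ ⟨ht, e⟩))
        hd.subset_compl_left) a

end AS

/-- the cochain complex of the pair `(K, A)` of subsets of `X`, by germs along the subsets -/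
abbrev CP {X : Type} [TopologicalSpace X] [CompactSpace X] [T2Space X] (K A : Set X) : Cx (AS X) :=
  (AS.sc X).cx K A

/-- the cochain complex of `X` -/
abbrev CC (X : Type) [TopologicalSpace X] [CompactSpace X] [T2Space X] : Cx (AS X) :=
  CP (univ : Set X) ∅

end Pool.Agent.CS
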