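import Mathlib

/-! Orthogonal projectors, bundles given by projectors, projective bundles and spaces of
orthogonal lines. -/

open Matrix
open scoped Kronecker

noncomputable section
namespace Pool.Agent.CS

variable {μ ν K : Type} [Fintype μ] [Fintype ν]

/-- `Q` is the orthogonal projector onto a subspace of dimension `r` -/
structure OP (r : ℕ) (Q : Matrix μ μ ℂ) : Prop where
  herm : Qᴴ = Q
  idem : Q * Q = Q
  tr : Q.trace = r

/-- a subbundle of rank `r` of the trivial bundle `ℂ^μ` -/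
@[ext] structure Bun (Y : Type) [TopologicalSpace Y] (μ : Type) [Fintype μ] (r : ℕ) where
  Q : Y → Matrix μ μ ℂ
  cont : Continuous Q
  op : ∀ y, OP r (Q y)

variable {X Y B : Type} [TopologicalSpace X] [TopologicalSpace Y] [TopologicalSpace B] {r s : ℕ}

/-- pull-back of a bundle -/
def Bun.comap (E : Bun Y μ r) (f : C(X, Y)) : Bun X μ r :=
  ⟨fun x => E.Q (f x), E.cont.comp f.continuous, fun x => E.op (f x)⟩

/-- constant bundle -/
def Bun.const (Y : Type) [TopologicalSpace Y] {Q : Matrix μ μ ℂ} (h : OP r Q) : Bun Y μ r :=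
  ⟨fun _ => Q, continuous_const, fun _ => h⟩

@[simp] theorem Bun.comap_Q (E : Bun Y μ r) (f : C(X, Y)) (x : X) :
    (E.comap f).Q x = E.Q (f x) := rfl

@[simp] theorem Bun.const_Q {Q : Matrix μ μ ℂ} (h : OP r Q) (y : Y) :
    (Bun.const Y h).Q y = Q := rfl

theorem OP.transpose {Q : Matrix μ μ ℂ} (h : OP r Q) : OP r Qᵀ :=
  ⟨by ext i j; simpa using congrFun (congrFun h.herm j) i,
    by rw [← transpose_mul, h.idem], by rw [trace_transpose, h.tr]⟩

theorem OP.kron {Q : Matrix μ μ ℂ} {P : Matrix ν ν ℂ} (h : OP 1 Q) (h' : OP 1 P) :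
    OP 1 (Q ⊗ₖ P) :=
  ⟨by rw [conjTranspose_kronecker, h.herm, h'.herm], by rw [← mul_kronecker_mul, h.idem, h'.idem],
    by rw [trace_kronecker, h.tr, h'.tr]; simp⟩

/-- the dual bundle -/
def Bun.tr (E : Bun Y μ r) : Bun Y μ r :=
  ⟨fun y => (E.Q y)ᵀ, E.cont.matrix_transpose, fun y => (E.op y).transpose⟩

/-- tensor product of lines -/
def Bun.tens (L : Bun Y μ 1) (L' : Bun Y ν 1) : Bun Y (μ × ν) 1 :=
  ⟨fun y => L.Q y ⊗ₖ L'.Q y,
    continuous_matrix fun i j => (L.cont.matrix_elem i.1 j.1).mul (L'.cont.matrix_elem i.2 j.2),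
    fun y => (L.op y).kron (L'.op y)⟩

@[simp] theorem Bun.tr_Q (E : Bun Y μ r) (y : Y) : E.tr.Q y = (E.Q y)ᵀ := rfl

@[simp] theorem Bun.tens_Q (L : Bun Y μ 1) (L' : Bun Y ν 1) (y : Y) :
    (L.tens L').Q y = L.Q y ⊗ₖ L'.Q y := rfl

/-- `X` with the line `L` is the space of lines in the range of `Q` -/
structure IsPP (Q : Matrix μ μ ℂ) (L : Bun X μ 1) : Prop where
  le : ∀ x, Q * L.Q x = L.Q x
  inj : Function.Injective L.Q
  sur : ∀ l, OP 1 l → Q * l = l → ∃ x, L.Q x = l

/-- `π : X → B` with the line `L` is the projective bundle of `E` -/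
structure IsPE (π : C(X, B)) (E : Bun B μ r) (L : Bun X μ 1) : Prop where
  le : ∀ x, E.Q (π x) * L.Q x = L.Q x
  inj : ∀ x x', π x = π x' → L.Q x = L.Q x' → x = x'
  sur : ∀ t l, OP 1 l → E.Q t * l = l → ∃ x, π x = t ∧ L.Q x = l

/-- data for a space of orthogonal lines: one bundle for every class of indices -/
structure LD (B : Type) [TopologicalSpace B] (μ : Type) [Fintype μ] (K : Type) where
  cl : K → K → Prop
  eqv : Equivalence cl
  r : K → ℕ
  P : ∀ a, Bun B μ (r a)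
  req : ∀ a b, cl a b → r a = r b
  eq : ∀ a b, cl a b → (P a).Q = (P b).Q

/-- `π : X → B` with the lines `l a` is the space of lines `l a ≤ P a` that are pairwise orthogonal
inside every class -/
structure IsLn (π : C(X, B)) (D : LD B μ K) (l : K → Bun X μ 1) : Prop where
  le : ∀ a x, (D.P a).Q (π x) * (l a).Q x = (l a).Q x
  orth : ∀ a b, a ≠ b → D.cl a b → ∀ x, (l a).Q x * (l b).Q x = 0
  inj : ∀ x x', π x = π x' → (∀ a, (l a).Q x = (l a).Q x') → x = x'
  sur : ∀ (t) (q : K → Matrix μ μ ℂ), (∀ a, OP 1 (q a) ∧ (D.P a).Q t * q a = q a) →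
    (∀ a b, a ≠ b → D.cl a b → q a * q b = 0) → ∃ x, π x = t ∧ ∀ a, (l a).Q x = q a

/-- the number of indices in the class of `a` -/
def LD.n (D : LD B μ K) (a : K) : ℕ := Nat.card {b // D.cl a b}

/-- the model of the space of orthogonal lines -/
def Ln (D : LD B μ K) : Type :=
  {p : B × (K → Matrix μ μ ℂ) // (∀ a, OP 1 (p.2 a) ∧ (D.P a).Q p.1 * p.2 a = p.2 a) ∧
    ∀ a b, a ≠ b → D.cl a b → p.2 a * p.2 b = 0}

instance (D : LD B μ K) : TopologicalSpace (Ln D) := instTopologicalSpaceSubtype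

instance [T2Space B] (D : LD B μ K) : T2Space (Ln D) :=
  inferInstanceAs (T2Space (Subtype _))

/-- the projection to the base -/
def Ln.π (D : LD B μ K) : C(Ln D, B) := ⟨fun p => p.1.1, continuous_subtype_val.fst⟩

/-- the tautological lines -/
def Ln.l (D : LD B μ K) (a : K) : Bun (Ln D) μ 1 :=
  ⟨fun p => p.1.2 a, (continuous_apply a).comp continuous_subtype_val.snd, fun p => (p.2.1 a).1⟩

theorem Ln.isLn (D : LD B μ K) : IsLn (Ln.π D) D (Ln.l D) :=
  ⟨fun a p => (p.2.1 a).2, fun a b h h' p => p.2.2 a b h h',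
    fun _ _ h h' => Subtype.ext (Prod.ext h (funext h')),
    fun t q h h' => ⟨⟨(t, q), h, h'⟩, rfl, fun _ => rfl⟩⟩

theorem OP.norm_le {Q : Matrix μ μ ℂ} (h : OP r Q) (i j : μ) : ‖Q i j‖ ≤ 1 := by
  have h1 : ∀ k, Q k i = star (Q i k) := fun k => by
    simpa using (congrFun (congrFun h.herm k) i).symm
  have h2 : Q i i = ((∑ k, ‖Q i k‖ ^ 2 : ℝ) : ℂ) := by
    conv_lhs => rw [← h.idem, mul_apply]
    push_cast
    exact Finset.sum_congr rfl fun k _ => by rw [h1 k]; exact Complex.mul_conj' _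
  have h3 : ‖Q i i‖ = ∑ k, ‖Q i k‖ ^ 2 := by
    conv_lhs => rw [h2]
    rw [Complex.norm_real, Real.norm_of_nonneg (Finset.sum_nonneg fun k _ => sq_nonneg _)]
  have h4 : ∀ k, ‖Q i k‖ ^ 2 ≤ ‖Q i i‖ := fun k => by
    rw [h3]; exact Finset.single_le_sum (f := fun k => ‖Q i k‖ ^ 2) (fun k _ => sq_nonneg _)
      (Finset.mem_univ k)
  have h5 := h4 i
  have h6 := h4 j
  have h7 : ‖Q i i‖ ≤ 1 := by nlinarith [norm_nonneg (Q i i)]
  nlinarith [norm_nonneg (Q i j)]

theorem isClosed_OP (r : ℕ) : IsClosed {Q : Matrix μ μ ℂ | OP r Q} := by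
  have : {Q : Matrix μ μ ℂ | OP r Q} = {Q | Qᴴ = Q} ∩
      ({Q | Q * Q = Q} ∩ {Q | Q.trace = (r : ℂ)}) := by
    ext Q; exact ⟨fun h => ⟨h.1, h.2, h.3⟩, fun h => ⟨h.1, h.2.1, h.2.2⟩⟩
  rw [this]
  exact (isClosed_eq continuous_id.matrix_conjTranspose continuous_id).inter
    ((isClosed_eq (continuous_id.matrix_mul continuous_id) continuous_id).inter
      (isClosed_eq continuous_id.matrix_trace continuous_const))

theorem isCompact_OP (r : ℕ) : IsCompact {Q : Matrix μ μ ℂ | OP r Q} := by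
  refine IsCompact.of_isClosed_subset (s := Set.pi Set.univ fun _ : μ => Set.pi Set.univ
    fun _ : μ => Metric.closedBall (0 : ℂ) 1) (isCompact_univ_pi fun _ => isCompact_univ_pi
      fun _ => isCompact_closedBall _ _) (isClosed_OP r) fun Q h i _ j _ => ?_
  simpa using OP.norm_le h i j

instance [CompactSpace B] (D : LD B μ K) : CompactSpace (Ln D) := by
  refine isCompact_iff_compactSpace.1 (IsCompact.of_isClosed_subset
    (s := Set.univ ×ˢ Set.pi Set.univ fun _ : K => {Q : Matrix μ μ ℂ | OP 1 Q})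
    (isCompact_univ.prod (isCompact_univ_pi fun _ => isCompact_OP 1)) ?_
    fun p h => ⟨trivial, fun a _ => (h.1 a).1⟩)
  have hc : ∀ a, Continuous fun p : B × (K → Matrix μ μ ℂ) => p.2 a := fun a =>
    (continuous_apply a).comp continuous_snd
  have := (isClosed_iInter fun a => ((isClosed_OP 1).preimage (hc a)).inter
    (isClosed_eq (((D.P a).cont.comp continuous_fst).matrix_mul (hc a)) (hc a))).inter
    (isClosed_iInter fun a => isClosed_iInter fun b => isClosed_iInter fun _ : a ≠ b =>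
      isClosed_iInter fun _ : D.cl a b => isClosed_eq ((hc a).matrix_mul (hc b)) (continuous_const (y := 0)))
  refine Eq.mp (congrArg IsClosed (Set.ext fun p => ?_)) this
  simp only [Set.mem_inter_iff, Set.mem_iInter]
  rfl

/-- the data with one index -/
def Bun.ld (E : Bun B μ r) : LD B μ Unit :=
  ⟨fun _ _ => True, ⟨fun _ => trivial, fun _ => trivial, fun _ _ => trivial⟩, fun _ => r,
    fun _ => E, fun _ _ _ => rfl, fun _ _ _ => rfl⟩

/-- the model of the projective bundle is `Ln E.ld` -/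
theorem Bun.isPE (E : Bun B μ r) : IsPE (Ln.π E.ld) E (Ln.l E.ld ()) :=
  ⟨(Ln.isLn E.ld).le (), fun x x' h h' => (Ln.isLn E.ld).inj x x' h fun _ => h',
    fun t l h h' => by
      obtain ⟨x, hx, hl⟩ := (Ln.isLn E.ld).sur t (fun _ => l) (fun _ => ⟨h, h'⟩)
        fun a b e => (e rfl).elim
      exact ⟨x, hx, hl ()⟩⟩

end Pool.Agent.CS
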