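import Pool.Agent.P.MP_d34769_ag.YB0

/-! Linear algebra of orthogonal projectors and constructions of bundles. -/

open Matrix
open scoped ComplexOrder

noncomputable section
namespace Pool.Agent.CS

variable {μ ν K : Type} [Fintype μ] [Fintype ν] {r s k : ℕ} {Q P : Matrix μ μ ℂ}

theorem OP.zero : OP 0 (0 : Matrix μ μ ℂ) := ⟨by simp, by simp, by simp⟩

theorem OP.one [DecidableEq μ] : OP (Fintype.card μ) (1 : Matrix μ μ ℂ) := ⟨by simp, by simp, by simp⟩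

theorem OP.of_iso [DecidableEq ν] {u : Matrix μ ν ℂ} (h : uᴴ * u = 1) :
    OP (Fintype.card ν) (u * uᴴ) :=
  ⟨by simp, by rw [Matrix.mul_assoc, ← Matrix.mul_assoc uᴴ, h, Matrix.one_mul],
    by rw [trace_mul_comm, h]; simp⟩

theorem OP.comm (h : OP r Q) (h' : OP s P) (e : Q * P = P) : P * Q = P := by
  have := congrArg conjTranspose e
  rwa [conjTranspose_mul, h.herm, h'.herm] at this

theorem OP.comm0 (h : OP r Q) (h' : OP s P) (e : Q * P = 0) : P * Q = 0 := by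
  have := congrArg conjTranspose e
  rwa [conjTranspose_mul, h.herm, h'.herm, conjTranspose_zero] at this

theorem OP.sub (h : OP (s + k) Q) (h' : OP s P) (e : Q * P = P) : OP k (Q - P) :=
  ⟨by rw [conjTranspose_sub, h.herm, h'.herm],
    by rw [sub_mul, mul_sub, mul_sub, h.idem, h'.idem, e, h.comm h' e]; simp,
    by rw [trace_sub, h.tr, h'.tr]; simp⟩

theorem OP.add (h : OP r Q) (h' : OP s P) (e : Q * P = 0) : OP (r + s) (Q + P) :=
  ⟨by rw [conjTranspose_add, h.herm, h'.herm],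
    by rw [add_mul, mul_add, mul_add, h.idem, h'.idem, e, h.comm0 h' e]; simp,
    by rw [trace_add, h.tr, h'.tr]; simp⟩

theorem OP.sum (S : Finset K) {q : K → Matrix μ μ ℂ} (h : ∀ a ∈ S, OP 1 (q a))
    (ho : ∀ a ∈ S, ∀ b ∈ S, a ≠ b → q a * q b = 0) : OP S.card (∑ a ∈ S, q a) := by
  refine ⟨?_, ?_, ?_⟩
  · rw [conjTranspose_sum]; exact Finset.sum_congr rfl fun a ha => (h a ha).herm
  · rw [Finset.sum_mul]
    refine Finset.sum_congr rfl fun a ha => ?_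
    rw [Finset.mul_sum, Finset.sum_eq_single_of_mem a ha fun b hb e => ho a ha b hb e.symm,
      (h a ha).idem]
  · rw [trace_sum, Finset.sum_congr rfl fun a ha => (h a ha).tr]; simp

theorem trace_rank [DecidableEq μ] (h : Q * Q = Q) : Q.trace = Q.rank := by
  have hp : LinearMap.IsProj (LinearMap.range (toLin' Q)) (toLin' Q) :=
    ⟨fun x => ⟨x, rfl⟩, by rintro _ ⟨x, rfl⟩; rw [← toLin'_mul_apply, h]⟩
  rw [← Matrix.trace_toLin'_eq, hp.trace]
  rfl

theorem OP.rank [DecidableEq μ] (h : OP r Q) : Q.rank = r := by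
  have := trace_rank h.idem
  rw [h.tr] at this
  exact_mod_cast this.symm

theorem OP.of_idem (h : Qᴴ = Q) (h' : Q * Q = Q) : ∃ r, OP r Q := by
  classical exact ⟨_, h, h', trace_rank h'⟩

theorem OP.eq_zero (h : OP 0 Q) : Q = 0 := by
  have : (Qᴴ * Q).trace = 0 := by rw [h.herm, h.idem, h.tr]; simp
  exact trace_conjTranspose_mul_self_eq_zero_iff.1 this

theorem OP.ne_zero (h : OP (r + 1) Q) : Q ≠ 0 := fun e => by
  have := h.tr
  rw [e, trace_zero] at this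
  exact Nat.succ_ne_zero r (by exact_mod_cast this.symm)

theorem OP.le_rank (h : OP r Q) (h' : OP s P) (e : Q * P = P) : s ≤ r := by
  obtain ⟨k, hk⟩ := OP.of_idem (Q := Q - P) (by rw [conjTranspose_sub, h.herm, h'.herm])
    (by rw [sub_mul, mul_sub, mul_sub, h.idem, h'.idem, e, h.comm h' e]; simp)
  have := hk.tr
  rw [trace_sub, h.tr, h'.tr, sub_eq_iff_eq_add] at this
  have : r = k + s := by exact_mod_cast this
  omega

theorem OP.eq_of_le (h : OP r Q) (h' : OP r P) (e : Q * P = P) : Q = P :=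
  sub_eq_zero.1 (OP.sub (k := 0) h h' e).eq_zero

theorem OP.exists_iso (h : OP r Q) : ∃ u : Matrix μ (Fin r) ℂ, uᴴ * u = 1 ∧ u * uᴴ = Q := by
  classical
  let V : Submodule ℂ (EuclideanSpace ℂ μ) := LinearMap.range (toEuclideanLin Q)
  have hV : Module.finrank ℂ V = r := by
    rw [← h.rank, Matrix.rank_eq_finrank_range_toLin Q (PiLp.basisFun 2 ℂ μ) (PiLp.basisFun 2 ℂ μ)]
    rfl
  let b := (stdOrthonormalBasis ℂ V).reindex (finCongr hV)
  let u : Matrix μ (Fin r) ℂ := fun i j => (b j).1 i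
  have h1 : uᴴ * u = 1 := by
    ext i j
    have := orthonormal_iff_ite.1 b.orthonormal i j
    rw [Submodule.coe_inner, EuclideanSpace.inner_eq_star_dotProduct] at this
    rw [one_apply, ← this, mul_apply, dotProduct]
    exact Finset.sum_congr rfl fun k _ => mul_comm _ _
  have h2 : Q * u = u := by
    ext i j
    obtain ⟨x, hx⟩ := (b j).2
    have : (fun k => u k j) = Q *ᵥ x.ofLp := by ext k; simp only [u]; rw [← hx]; rfl
    change (Q *ᵥ fun k => u k j) i = (fun k => u k j) i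
    rw [this, mulVec_mulVec, h.idem]
  have h3 := OP.of_iso h1
  rw [Fintype.card_fin] at h3
  exact ⟨u, h1, (h.eq_of_le h3 (by rw [← Matrix.mul_assoc, h2])).symm⟩

theorem OP.exists_vec (h : OP 1 Q) : ∃ v : μ → ℂ, star v ⬝ᵥ v = 1 ∧ Q = vecMulVec v (star v) := by
  obtain ⟨u, h1, h2⟩ := h.exists_iso
  refine ⟨fun i => u i 0, ?_, ?_⟩
  · simpa [mul_apply, dotProduct] using congrFun (congrFun h1 0) 0
  · ext i j; rw [← h2]; simp [mul_apply, vecMulVec_apply]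

/-- the projector onto the line through `v` -/
def lnv (v : μ → ℂ) : Matrix μ μ ℂ := (star v ⬝ᵥ v)⁻¹ • vecMulVec v (star v)

variable {v : μ → ℂ}

theorem star_dot_ne (hv : v ≠ 0) : star v ⬝ᵥ v ≠ 0 := fun h => hv (dotProduct_star_self_eq_zero.1 h)

theorem lnv_mulVec (hv : v ≠ 0) : lnv v *ᵥ v = v := by
  rw [lnv, smul_mulVec, vecMulVec_mulVec, op_smul_eq_smul, smul_smul,
    inv_mul_cancel₀ (star_dot_ne hv), one_smul]

omit [Fintype ν] in
theorem mul_lnv (A : Matrix ν μ ℂ) : A * lnv v = (star v ⬝ᵥ v)⁻¹ • vecMulVec (A *ᵥ v) (star v) := by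
  rw [lnv, Matrix.mul_smul, mul_vecMulVec]

theorem le_lnv (h : Q *ᵥ v = v) : Q * lnv v = lnv v := by rw [mul_lnv, h, lnv]

theorem OP.lnv (hv : v ≠ 0) : OP 1 (lnv v) := by
  refine ⟨?_, le_lnv (lnv_mulVec hv), ?_⟩
  · rw [CS.lnv, conjTranspose_smul, conjTranspose_vecMulVec, star_star, star_inv₀,
      ← star_dotProduct_star, star_star]
  · rw [CS.lnv, trace_smul, trace_vecMulVec, dotProduct_comm, smul_eq_mul,
      dotProduct_comm v, inv_mul_cancel₀ (star_dot_ne hv)]; simp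

theorem OP.eq_lnv (h : OP 1 Q) (hv : v ≠ 0) (e : Q *ᵥ v = v) : Q = CS.lnv v :=
  h.eq_of_le (OP.lnv hv) (le_lnv e)

theorem OP.exists_lnv (h : OP 1 Q) : ∃ v : μ → ℂ, v ≠ 0 ∧ Q = CS.lnv v := by
  obtain ⟨v, h1, h2⟩ := h.exists_vec
  exact ⟨v, fun e => by simp [e] at h1, by rw [CS.lnv, h1, h2]; simp⟩

omit [Fintype ν] in
theorem mul_lnv_eq_zero (hv : v ≠ 0) {A : Matrix ν μ ℂ} : A * lnv v = 0 ↔ A *ᵥ v = 0 :=
  ⟨fun h => by rw [← lnv_mulVec hv, mulVec_mulVec, h, zero_mulVec],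
    fun h => by rw [mul_lnv, h]; simp⟩

theorem le_lnv_iff (hv : v ≠ 0) : Q * lnv v = lnv v ↔ Q *ᵥ v = v :=
  ⟨fun h => by rw [← lnv_mulVec hv, mulVec_mulVec, h], le_lnv⟩

theorem lnv_smul (hv : v ≠ 0) {c : ℂ} (hc : c ≠ 0) : lnv (c • v) = lnv v :=
  ((OP.lnv hv).eq_lnv (smul_ne_zero hc hv) (by rw [mulVec_smul, lnv_mulVec hv])).symm

theorem lnv_eq_iff {w : μ → ℂ} (hv : v ≠ 0) (hw : w ≠ 0) : lnv v = lnv w ↔ ∃ c : ℂ, w = c • v := by
  refine ⟨fun h => ⟨(star v ⬝ᵥ v)⁻¹ * (star v ⬝ᵥ w), ?_⟩, ?_⟩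
  · conv_lhs => rw [← lnv_mulVec hw, ← h, lnv, smul_mulVec, vecMulVec_mulVec, op_smul_eq_smul,
      smul_smul]
  · rintro ⟨c, rfl⟩
    exact (lnv_smul hv (left_ne_zero_of_smul hw)).symm

variable {X Y B : Type} [TopologicalSpace X] [TopologicalSpace Y] [TopologicalSpace B]

/-- the line spanned by a nowhere vanishing section -/
def Bun.vec (v : Y → μ → ℂ) (hc : Continuous v) (h : ∀ y, v y ≠ 0) : Bun Y μ 1 :=
  ⟨fun y => lnv (v y), ((hc.star.dotProduct hc).inv₀ fun y => star_dot_ne (h y)).smul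
    (hc.matrix_vecMulVec hc.star), fun y => OP.lnv (h y)⟩

@[simp] theorem Bun.vec_Q (v : Y → μ → ℂ) (hc : Continuous v) (h : ∀ y, v y ≠ 0) (y : Y) :
    (Bun.vec v hc h).Q y = lnv (v y) := rfl

theorem img_eq (A : Matrix ν μ ℂ) (hv : v ≠ 0) (h : A *ᵥ v ≠ 0) :
    (A * lnv v * Aᴴ).trace ≠ 0 ∧
      (A * lnv v * Aᴴ).trace⁻¹ • (A * lnv v * Aᴴ) = lnv (A *ᵥ v) := by
  have e : A * lnv v * Aᴴ = (star v ⬝ᵥ v)⁻¹ • vecMulVec (A *ᵥ v) (star (A *ᵥ v)) := by
    rw [mul_lnv, Matrix.smul_mul, vecMulVec_mul, star_mulVec]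
  have h1 := star_dot_ne hv
  have h2 := star_dot_ne h
  rw [e, trace_smul, trace_vecMulVec, dotProduct_comm (A *ᵥ v), smul_eq_mul, smul_smul, lnv]
  refine ⟨mul_ne_zero (inv_ne_zero h1) h2, ?_⟩
  congr 1
  field_simp

/-- the image of a line under a nowhere vanishing map -/
theorem Bun.exists_img (L : Bun Y μ 1) {A : Y → Matrix ν μ ℂ} (hA : Continuous A)
    (h : ∀ y, A y * L.Q y ≠ 0) :
    ∃ L' : Bun Y ν 1, (∀ y, L'.Q y * (A y * L.Q y) = A y * L.Q y) ∧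
      ∀ y (E : Matrix ν ν ℂ), E * (A y * L.Q y) = A y * L.Q y → E * L'.Q y = L'.Q y := by
  choose v hv e using fun y => (L.op y).exists_lnv
  have h' : ∀ y, A y *ᵥ v y ≠ 0 := fun y hy => h y (by rw [e, mul_lnv_eq_zero (hv y), hy])
  have hc : Continuous fun y => A y * L.Q y * (A y)ᴴ :=
    (hA.matrix_mul L.cont).matrix_mul hA.matrix_conjTranspose
  have e' : ∀ y, (A y * L.Q y * (A y)ᴴ).trace⁻¹ • (A y * L.Q y * (A y)ᴴ) = lnv (A y *ᵥ v y) :=
    fun y => by rw [e]; exact (img_eq _ (hv y) (h' y)).2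
  refine ⟨⟨fun y => lnv (A y *ᵥ v y), ?_, fun y => OP.lnv (h' y)⟩, fun y => ?_, fun y E hE => ?_⟩
  · rw [← funext e']
    exact (hc.matrix_trace.inv₀ fun y => by rw [e]; exact (img_eq _ (hv y) (h' y)).1).smul hc
  · change lnv (A y *ᵥ v y) * (A y * L.Q y) = _
    rw [e, ← Matrix.mul_assoc, mul_lnv, mul_lnv, ← mulVec_mulVec, lnv_mulVec (h' y)]
  · refine le_lnv ?_
    have := congrArg (· *ᵥ v y) hE
    simpa only [e, ← mulVec_mulVec, lnv_mulVec (hv y)] using this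

/-- the orthogonal complement of a subbundle -/
def Bun.sub (E : Bun Y μ r) (E' : Bun Y μ s) (h : ∀ y, E.Q y * E'.Q y = E'.Q y) (e : r = s + k) :
    Bun Y μ k :=
  ⟨fun y => E.Q y - E'.Q y, E.cont.sub E'.cont, fun y => OP.sub (e ▸ E.op y) (E'.op y) (h y)⟩

@[simp] theorem Bun.sub_Q (E : Bun Y μ r) (E' : Bun Y μ s) (h : ∀ y, E.Q y * E'.Q y = E'.Q y)
    (e : r = s + k) (y : Y) : (E.sub E' h e).Q y = E.Q y - E'.Q y := rfl

/-- the sum of orthogonal lines -/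
def Bun.sum (S : Finset K) (l : K → Bun Y μ 1)
    (h : ∀ a ∈ S, ∀ b ∈ S, a ≠ b → ∀ y, (l a).Q y * (l b).Q y = 0) : Bun Y μ S.card :=
  ⟨fun y => ∑ a ∈ S, (l a).Q y, continuous_finsetSum _ fun a _ => (l a).cont,
    fun y => OP.sum S (fun a _ => (l a).op y) fun a ha b hb e => h a ha b hb e y⟩

@[simp] theorem Bun.sum_Q (S : Finset K) (l : K → Bun Y μ 1)
    (h : ∀ a ∈ S, ∀ b ∈ S, a ≠ b → ∀ y, (l a).Q y * (l b).Q y = 0) (y : Y) :
    (Bun.sum S l h).Q y = ∑ a ∈ S, (l a).Q y := rfl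

/-- maps to a space of orthogonal lines -/
theorem IsLn.exists_lift [CompactSpace X] [T2Space B] {π : C(X, B)} {D : LD B μ K}
    {l : K → Bun X μ 1} (h : IsLn π D l) (f : C(Y, B)) (q : K → Bun Y μ 1)
    (hq : ∀ a y, (D.P a).Q (f y) * (q a).Q y = (q a).Q y)
    (ho : ∀ a b, a ≠ b → D.cl a b → ∀ y, (q a).Q y * (q b).Q y = 0) :
    ∃ F : C(Y, X), π.comp F = f ∧ ∀ a, (l a).comap F = q a := by
  let j : X → B × (K → Matrix μ μ ℂ) := fun x => (π x, fun a => (l a).Q x)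
  have hj : Topology.IsClosedEmbedding j :=
    (π.continuous.prodMk (continuous_pi fun a => (l a).cont)).isClosedEmbedding
      fun x x' e => h.inj x x' (congrArg Prod.fst e) fun a => congrFun (congrArg Prod.snd e) a
  choose F h1 h2 using fun y => h.sur (f y) (fun a => (q a).Q y)
    (fun a => ⟨(q a).op y, hq a y⟩) fun a b e e' => ho a b e e' y
  have : j ∘ F = fun y => (f y, fun a => (q a).Q y) := funext fun y => Prod.ext (h1 y) (funext (h2 y))
  exact ⟨⟨F, hj.isInducing.continuous_iff.2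
    (this ▸ f.continuous.prodMk (continuous_pi fun a => (q a).cont))⟩, ContinuousMap.ext h1,
    fun a => Bun.ext (funext fun y => h2 y a)⟩

theorem IsPE.isLn {π : C(X, B)} {E : Bun B μ r} {L : Bun X μ 1} (h : IsPE π E L) :
    IsLn π E.ld fun _ => L :=
  ⟨fun _ => h.le, fun _ _ e => (e rfl).elim, fun x x' e e' => h.inj x x' e (e' ()),
    fun t q hq _ => (h.sur t (q ()) (hq ()).1 (hq ()).2).imp fun _ hx => ⟨hx.1, fun _ => hx.2⟩⟩

theorem IsPE.exists_lift [CompactSpace X] [T2Space B] {π : C(X, B)} {E : Bun B μ r}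
    {L : Bun X μ 1} (h : IsPE π E L) (f : C(Y, B)) (q : Bun Y μ 1)
    (hq : ∀ y, E.Q (f y) * q.Q y = q.Q y) : ∃ F : C(Y, X), π.comp F = f ∧ L.comap F = q :=
  (h.isLn.exists_lift f (fun _ => q) (fun _ => hq) fun _ _ e => (e rfl).elim).imp
    fun _ hF => ⟨hF.1, hF.2 ()⟩

theorem IsPP.isPE {L : Bun X μ 1} (h : IsPP Q L) (hQ : OP r Q) :
    IsPE (ContinuousMap.const X ()) (Bun.const Unit hQ) L :=
  ⟨h.le, fun _ _ _ e => h.inj e, fun _ l a b => (h.sur l a b).imp fun _ e => ⟨rfl, e⟩⟩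

theorem IsPP.exists_lift [CompactSpace X] {L : Bun X μ 1} (h : IsPP Q L) (hQ : OP r Q)
    (q : Bun Y μ 1) (hq : ∀ y, Q * q.Q y = q.Q y) : ∃ F : C(Y, X), L.comap F = q :=
  ((h.isPE hQ).exists_lift (ContinuousMap.const Y ()) q hq).imp fun _ hF => hF.2

/-- a model of projective space -/
theorem isPP_model (hQ : OP r Q) : IsPP Q (Ln.l (Bun.const Unit hQ).ld ()) :=
  ⟨(Bun.const Unit hQ).isPE.le, fun x x' e => (Bun.const Unit hQ).isPE.inj x x' rfl e,
    fun l a b => ((Bun.const Unit hQ).isPE.sur () l a b).imp fun _ e => e.2⟩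

/-- the orthogonal complement of the image of an injective bundle map -/
theorem exists_compl (A : Bun Y μ s) (C : Bun Y ν r) (e : r = s + k) {φ : Y → Matrix ν μ ℂ}
    (hφ : Continuous φ) (hC : ∀ y, C.Q y * (φ y * A.Q y) = φ y * A.Q y)
    (hi : ∀ y v, A.Q y *ᵥ v = v → φ y *ᵥ v = 0 → v = 0) :
    ∃ (E : Bun Y ν k) (ψ : Y → Matrix μ ν ℂ), Continuous ψ ∧ ∀ y, C.Q y * E.Q y = E.Q y ∧
      A.Q y * ψ y = ψ y ∧ ψ y * (φ y * A.Q y) = A.Q y ∧ φ y * ψ y = C.Q y - E.Q y := by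
  classical
  let F : Y → Matrix ν μ ℂ := fun y => φ y * A.Q y
  let M : Y → Matrix μ μ ℂ := fun y => (F y)ᴴ * F y + (1 - A.Q y)
  have hF : Continuous F := hφ.matrix_mul A.cont
  have hM : Continuous M := (hF.matrix_conjTranspose.matrix_mul hF).add (continuous_const.sub A.cont)
  have a1 : ∀ y, F y * A.Q y = F y := fun y => by rw [Matrix.mul_assoc, (A.op y).idem]
  have a2 : ∀ y, A.Q y * (F y)ᴴ = (F y)ᴴ := fun y => by
    conv_lhs => rw [← (A.op y).herm, ← conjTranspose_mul, a1]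
  have a3 : ∀ y, M y * A.Q y = (F y)ᴴ * F y := fun y => by
    rw [add_mul, Matrix.mul_assoc, a1, sub_mul, (A.op y).idem]; simp
  have a4 : ∀ y, A.Q y * M y = (F y)ᴴ * F y := fun y => by
    rw [mul_add, ← Matrix.mul_assoc, a2, mul_sub, (A.op y).idem]; simp
  have hu : ∀ y, IsUnit (M y).det := fun y => by
    rw [isUnit_iff_ne_zero, Ne, ← Matrix.exists_mulVec_eq_zero_iff]
    rintro ⟨v, hv, h0⟩
    have h1 : ((F y)ᴴ * F y) *ᵥ v = 0 := by rw [← a4, ← mulVec_mulVec, h0, mulVec_zero]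
    have h2 := hi y (A.Q y *ᵥ v) (by rw [mulVec_mulVec, (A.op y).idem])
      (by rw [mulVec_mulVec]; exact (conjTranspose_mul_self_mulVec_eq_zero _ _).1 h1)
    rw [add_mulVec, h1, sub_mulVec, h2] at h0
    exact hv (by simpa using h0)
  let ψ : Y → Matrix μ ν ℂ := fun y => (M y)⁻¹ * (F y)ᴴ
  have hψ : Continuous ψ := by
    refine Continuous.matrix_mul ?_ hF.matrix_conjTranspose
    simp only [Matrix.inv_def, Ring.inverse_eq_inv']
    exact (hM.matrix_det.inv₀ fun y => (hu y).ne_zero).smul hM.matrix_adjugate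
  have b1 : ∀ y, ψ y * F y = A.Q y := fun y => by
    rw [Matrix.mul_assoc, ← a3, ← Matrix.mul_assoc, nonsing_inv_mul _ (hu y), Matrix.one_mul]
  have b2 : ∀ y, A.Q y * ψ y = ψ y := fun y => by
    have : A.Q y * (M y)⁻¹ = (M y)⁻¹ * A.Q y := by
      calc A.Q y * (M y)⁻¹ = (M y)⁻¹ * (M y * A.Q y) * (M y)⁻¹ := by
            rw [← Matrix.mul_assoc, nonsing_inv_mul _ (hu y), Matrix.one_mul]
        _ = (M y)⁻¹ * A.Q y := by
            rw [a3, ← a4, Matrix.mul_assoc, Matrix.mul_assoc, mul_nonsing_inv _ (hu y),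
              Matrix.mul_one]
    rw [← Matrix.mul_assoc, this, Matrix.mul_assoc, a2]
  have b3 : ∀ y, φ y * ψ y = F y * ψ y := fun y => by rw [Matrix.mul_assoc, b2]
  have hR : ∀ y, OP s (F y * ψ y) := fun y =>
    ⟨by
      have : (M y)ᴴ = M y := by simp [M, (A.op y).herm]
      rw [conjTranspose_mul, conjTranspose_mul, conjTranspose_conjTranspose,
        conjTranspose_nonsing_inv, this, Matrix.mul_assoc],
      by rw [Matrix.mul_assoc, ← Matrix.mul_assoc (ψ y), b1, b2],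
      by rw [trace_mul_comm, b1, (A.op y).tr]⟩
  have b4 : ∀ y, C.Q y * (F y * ψ y) = F y * ψ y := fun y => by rw [← Matrix.mul_assoc, hC]
  exact ⟨C.sub ⟨_, hF.matrix_mul hψ, hR⟩ b4 e, ψ, hψ, fun y =>
    ⟨by rw [Bun.sub_Q, mul_sub, (C.op y).idem, b4], b2 y, b1 y, by rw [b3]; simp⟩⟩

end Pool.Agent.CS
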