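import Pool.Agent.P.MP_d34769_ag.YBW

/-! The cohomology of a space of orthogonal lines: induction along the tower. -/

open Matrix Set Polynomial

set_option linter.unusedSectionVars false

noncomputable section
namespace Pool.Agent.CS

variable {μ : Type} [Fintype μ] {B : Type} [TopologicalSpace B] [CompactSpace B] [T2Space B]

/-- the rank of the bundle at one step of the tower -/
def LD.bd {n : ℕ} (D : LD B μ (Fin n)) (a : Fin n) : ℕ := D.r a - (D.aft a).card

theorem LD.bd_succ {n : ℕ} (D : LD B μ (Fin (n + 1))) (a : Fin n) :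
    D.bd a.succ = (D.comp Fin.succ).bd a := by
  rw [LD.bd, LD.aft_succ, Finset.card_map]; rfl

theorem IsLn.base {X : Type} [TopologicalSpace X] [CompactSpace X] {π : C(X, B)}
    {D : LD B μ (Fin 0)} {l : Fin 0 → Bun X μ 1} (h : IsLn π D l) :
    ∃ F : C(B, X), π.comp F = .id B ∧ F.comp π = .id X := by
  obtain ⟨F, hF, -⟩ := h.exists_lift (.id B) Fin.elim0 (fun a => a.elim0) fun a => a.elim0
  exact ⟨F, hF, ContinuousMap.ext fun x => h.inj _ _ (congrArg (· (π x)) hF) fun a => a.elim0⟩

theorem ln_span (n : ℕ) : ∀ {X : Type} [TopologicalSpace X] [CompactSpace X] [T2Space X]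
    {π : C(X, B)} {D : LD B μ (Fin n)} {l : Fin n → Bun X μ 1}, IsLn π D l →
    (∀ a, D.n a ≤ D.r a) → ∀ m : ℤ, hr X m ≤ Submodule.span ℂ {z | ∃ k : ℤ, ∃ u ∈ hr B k,
      ∃ e : Fin n → ℕ, (∀ a, e a < D.bd a) ∧ k + (2 * ∑ a, e a : ℕ) = m ∧
        z = HR.pull π u * (∏ a, (l a).x ^ e a).1} := by
  induction n with
  | zero =>
    intro X _ _ _ π D l h _ m c hc
    obtain ⟨F, -, hF⟩ := h.base
    exact Submodule.subset_span ⟨m, _, pull_mem_hr F hc, Fin.elim0, fun a => a.elim0, by simp,
      by simp [HR.pull_pull, hF, HR.pull_id]⟩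
  | succ n ih =>
    intro X _ _ _ π D l h hn m c hc
    obtain ⟨p, E, h1, h2, h3, -⟩ := h.step hn
    obtain ⟨u, hu, rfl⟩ := h3.sur' hc
    refine Submodule.sum_mem _ fun j _ => ?_
    refine Submodule.mem_comap (f := LinearMap.mulRight ℂ ((l 0).x ^ j.1).1 ∘ₗ
      (HR.pull p).toLinearMap).1 (Submodule.span_le.2 ?_
        (ih (Ln.isLn _) (fun a => (D.n_succ a).trans (hn _)) _ (hu j)))
    rintro _ ⟨k, v, hv, e, he, hk, rfl⟩
    refine Submodule.subset_span ⟨k, v, hv, Fin.cons j e,
      Fin.cases j.2 fun a => (he a).trans_eq (D.bd_succ a).symm, ?_, ?_⟩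
    · rw [Fin.sum_cons]; omega
    · change HR.pull p (_ * _) * _ = _
      rw [map_mul, HR.pull_pull, h1, mul_assoc, ← HE.pull_val, map_prod, Fin.prod_univ_succ,
        mul_comm ((l 0).x ^ _)]
      simp only [map_pow, Bun.pull_x, h2]
      rfl

theorem ln_can (n : ℕ) : ∀ {X : Type} [TopologicalSpace X] [CompactSpace X] [T2Space X]
    {π : C(X, B)} {D : LD B μ (Fin n)} {l : Fin n → Bun X μ 1} (h : IsLn π D l)
    (hn : ∀ a, D.n a ≤ D.r a) (c : HR B),
    HR.pull π c * (∏ a, (derivative (h.res hn a).g).eval (l a).x).1 = 0 → c = 0 := by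
  induction n with
  | zero =>
    intro X _ _ _ π D l h _ c hc
    obtain ⟨F, hF, -⟩ := h.base
    have := congrArg (HR.pull F) hc
    simpa [HR.pull_pull, hF, HR.pull_id] using this
  | succ n ih =>
    intro X _ _ _ π D l h hn c hc
    obtain ⟨p, E, h1, h2, h3, h4⟩ := h.step hn
    have h' := Ln.isLn (D.comp Fin.succ)
    have hn' : ∀ a, (D.comp Fin.succ).n a ≤ (D.comp Fin.succ).r a :=
      fun a => (D.n_succ a).trans (hn _)
    refine ih h' hn' c ?_
    set z := HR.pull (Ln.π _) c * (∏ a, (derivative (h'.res hn' a).g).eval (Ln.l _ a).x).1 with hz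
    have e1 : ∀ a, (derivative (h.res hn a.succ).g).eval (l a.succ).x =
        HE.pull p ((derivative (h'.res hn' a).g).eval (Ln.l _ a).x) := fun a => by
      rw [(h.res hn a.succ).g_congr ((h'.res hn' a).comap p) (funext fun x => by
        rw [Bun.comap_Q, h.res_Q, h'.res_Q, D.aft_succ, Finset.sum_map, ← h1]
        simp only [Fin.coe_succEmb, ← h2]
        rfl) (D.bd_succ a), Bun.g_comap, derivative_map, ← h2, ← Bun.pull_x]
      exact eval_map_apply _ _
    have hp : 0 < D.r 0 - (D.aft 0).card := by have := D.aft_lt 0; have := hn 0; omega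
    have e2 : (derivative (h.res hn 0).g).eval (l 0).x = pev p (l 0).x (derivative E.g) := by
      rw [← h4, Bun.g_comap, derivative_map, pev_eq]
    rw [Fin.prod_univ_succ, mul_comm, e2, Finset.prod_congr rfl fun a _ => e1 a, ← map_prod,
      MulMemClass.coe_mul, ← mul_assoc, ← h1, ← HR.pull_pull, HE.pull_val, ← map_mul, ← hz,
      pev_sum p _ (r := D.r 0 - (D.aft 0).card)
        ((natDegree_derivative_le _).trans_lt (by have := E.g_mo.1; omega)), Finset.mul_sum] at hc
    have := congrFun (h3.inj' (u := fun j => z * ((derivative E.g).coeff j).1)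
      (by simpa only [map_mul, mul_assoc] using hc)) ⟨_, Nat.sub_one_lt hp.ne'⟩
    simp only [coeff_derivative, Nat.sub_add_cancel hp, E.g_mo.2, one_mul, Pi.zero_apply] at this
    rw [← Nat.cast_succ, SubringClass.coe_natCast, ← nsmul_one, mul_smul_comm, mul_one,
      ← Nat.cast_smul_eq_nsmul ℂ, smul_eq_zero] at this
    exact this.resolve_left (Nat.cast_ne_zero.2 (Nat.succ_ne_zero _))

theorem ln_poly [Nonempty B] (n : ℕ) : ∀ {X : Type} [TopologicalSpace X] [CompactSpace X]
    [T2Space X] {π : C(X, B)} {D : LD B μ (Fin n)} {l : Fin n → Bun X μ 1}, IsLn π D l →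
    (∀ a, D.n a ≤ D.r a) → ∀ φ : MvPolynomial (Fin n) ℂ, (∀ a, φ.degreeOf a < D.bd a) →
    MvPolynomial.aeval (fun a => (l a).x) φ = 0 → φ = 0 := by
  induction n with
  | zero =>
    intro X _ _ _ π D l h _ φ _ e
    obtain ⟨F, -, -⟩ := h.base
    have : Nonempty X := Nonempty.map F inferInstance
    have := HR.nontrivial (X := X)
    rw [φ.eq_C_of_isEmpty] at e ⊢
    rw [MvPolynomial.aeval_C, map_eq_zero] at e
    rw [e, map_zero]
  | succ n ih =>
    intro X _ _ _ π D l h hn φ hφ e
    obtain ⟨p, E, -, h2, h3, -⟩ := h.step hn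
    let f : MvPolynomial (Fin n) ℂ →+* HE (Ln (D.comp Fin.succ)) :=
      MvPolynomial.aeval (R := ℂ) fun a => (Ln.l (D.comp Fin.succ) a).x
    have key : ∀ ψ : MvPolynomial (Fin (n + 1)) ℂ, MvPolynomial.aeval (fun a => (l a).x) ψ =
        pev p (l 0).x ((MvPolynomial.finSuccEquiv ℂ n ψ).map f) := fun ψ => by
      induction ψ using MvPolynomial.induction_on with
      | C a => simp [f, MvPolynomial.finSuccEquiv_apply]
      | add p q hp hq => simp only [map_add, Polynomial.map_add, hp, hq]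
      | mul_X q a hq =>
        simp only [map_mul, Polynomial.map_mul, hq]
        congr 1
        rcases Fin.eq_zero_or_eq_succ a with rfl | ⟨a, rfl⟩
        · simp [MvPolynomial.finSuccEquiv_X_zero]
        · simp [MvPolynomial.finSuccEquiv_X_succ, f, Bun.pull_x, h2]
    have h5 := h3.pev_inj (degree_map_le.trans_lt (degree_le_natDegree.trans_lt (Nat.cast_lt.2
      ((MvPolynomial.natDegree_finSuccEquiv φ).trans_lt (hφ 0))))) ((key φ).symm.trans e)
    refine (MvPolynomial.finSuccEquiv ℂ n).injective (Polynomial.ext fun j => ?_)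
    rw [map_zero, coeff_zero]
    refine ih (Ln.isLn _) (fun a => (D.n_succ a).trans (hn _)) _ (fun a =>
      (MvPolynomial.degreeOf_coeff_finSuccEquiv φ a j).trans_lt
        ((hφ _).trans_eq (D.bd_succ a))) ?_
    have := congrArg (Polynomial.coeff · j) h5
    beta_reduce at this
    rwa [coeff_map, coeff_zero] at this

end Pool.Agent.CS
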