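import Mathlib

/-! Symmetric polynomials and invariants of spans of monomials. -/

open MvPolynomial

noncomputable section
namespace Pool.Agent.CS

variable {R A A' K : Type} [Ring R] [Algebra ℂ R] [CommRing A] [Algebra ℂ A] [Ring A']
  [Algebra ℂ A'] [Fintype K]

theorem sym_mem (S : Subalgebra ℂ A) (y : K → A)
    (h : ∀ j, (∏ b, (Polynomial.X - Polynomial.C (y b))).coeff j ∈ S) {φ : MvPolynomial K ℂ}
    (hφ : φ.IsSymmetric) : aeval y φ ∈ S := by
  classical
  obtain ⟨θ, hθ⟩ := esymmAlgHom_surjective (σ := K) ℂ (n := Fintype.card K) le_rfl ⟨φ, hφ⟩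
  have e : φ = aeval (fun i : Fin (Fintype.card K) => esymm K ℂ (i + 1)) θ := by
    rw [← esymmAlgHom_apply, hθ]
  have key : ∀ i : Fin (Fintype.card K), aeval y (esymm K ℂ (i + 1)) ∈ S := fun i => by
    have h1 := h (Fintype.card K - (i + 1))
    have hc : (Finset.univ.val.map y).card = Fintype.card K := by simp
    rw [Finset.prod_eq_multiset_prod, show (fun b => Polynomial.X - Polynomial.C (y b)) =
      (fun t => Polynomial.X - Polynomial.C t) ∘ y from rfl, ← Multiset.map_map,
      Multiset.prod_X_sub_C_coeff _ (by omega), hc, Nat.sub_sub_self i.2] at h1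
    rw [aeval_esymm_eq_multiset_esymm]
    have h2 := S.mul_mem (S.pow_mem (S.neg_mem S.one_mem) (i + 1)) h1
    rwa [← mul_assoc, ← mul_pow, neg_mul_neg, one_mul, one_pow, one_mul] at h2
  rw [e]
  clear e hθ
  induction θ using MvPolynomial.induction_on with
  | C a => simp
  | add p q hp hq => simpa only [map_add] using S.add_mem hp hq
  | mul_X p i hp => simpa only [map_mul, aeval_X] using S.mul_mem hp (key i)

omit [Fintype K] in
theorem map_mono (ι : A →ₐ[ℂ] A') (α : A' →ₐ[ℂ] A') {y y' : K → A} (h : ∀ i, α (ι (y i)) = ι (y' i))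
    (e : K → ℕ) (s : Finset K) : α (ι (∏ i ∈ s, y i ^ e i)) = ι (∏ i ∈ s, y' i ^ e i) := by
  classical
  induction s using Finset.induction_on with
  | empty => simp
  | insert a s ha ih => simp only [Finset.prod_insert ha, map_mul, map_pow, ih, h]

theorem desc_alg (φ : R →ₐ[ℂ] A') (ι : A →ₐ[ℂ] A') {cl : K → K → Prop} (hcl : Equivalence cl)
    (y : K → A) (hs : ∀ (a) (ψ : MvPolynomial {b // cl a b} ℂ), ψ.IsSymmetric →
      ι (aeval (fun b => y b.1) ψ) ∈ φ.range) {c : A'}
    (hc : c ∈ Submodule.span ℂ {x | ∃ (u : R) (e : K → ℕ), x = φ u * ι (∏ i, y i ^ e i)})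
    (hw : ∀ w : Equiv.Perm K, (∀ i, cl i (w i)) → ∃ α : A' →ₐ[ℂ] A', (∀ u, α (φ u) = φ u) ∧
      (∀ i, α (ι (y i)) = ι (y (w i))) ∧ α c = c) : c ∈ φ.range := by
  classical
  have key : ∀ S : Finset K, c ∈ Submodule.span ℂ {x | ∃ (u : R) (e : K → ℕ),
      (∀ a ∈ S, ∀ i, cl a i → e i = 0) ∧ x = φ u * ι (∏ i, y i ^ e i)} := fun S => by
    induction S using Finset.induction_on with
    | empty => simpa using hc
    | insert a S _ ih =>
      choose α h1 h2 h3 using fun w : Equiv.Perm {b // cl a b} =>
        hw (Equiv.Perm.ofSubtype w) fun i => by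
          by_cases hi : cl a i
          · rw [Equiv.Perm.ofSubtype_apply_of_mem w hi]
            exact hcl.trans (hcl.symm hi) (w ⟨i, hi⟩).2
          · rw [Equiv.Perm.ofSubtype_apply_of_not_mem w hi]
            exact hcl.refl i
      let T : A' →ₗ[ℂ] A' := ∑ w, (α w).toLinearMap
      have hT : ∀ x, T x = ∑ w, α w x := fun x => by simp [T, LinearMap.sum_apply]
      have h4 : c = (Fintype.card (Equiv.Perm {b // cl a b}) : ℂ)⁻¹ • T c := by
        rw [hT, Finset.sum_congr rfl fun w _ => h3 w, Finset.sum_const, ← Nat.cast_smul_eq_nsmul ℂ,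
          smul_smul, Finset.card_univ, inv_mul_cancel₀ (Nat.cast_ne_zero.2 Fintype.card_ne_zero),
          one_smul]
      rw [h4]
      refine Submodule.smul_mem _ _ (Submodule.mem_comap.1 (Submodule.span_le.2 ?_ ih))
      rintro _ ⟨u, e, he, rfl⟩
      obtain ⟨u', hu'⟩ := hs a (∑ w : Equiv.Perm {b // cl a b}, ∏ i, X (w i) ^ e i.1) fun w => by
        simp only [map_sum, map_prod, map_pow, rename_X]
        exact Fintype.sum_equiv (Equiv.mulLeft w) _ _ fun _ => rfl
      refine Submodule.subset_span ⟨u * u', fun i => if cl a i then 0 else e i, fun b hb i hi => ?_, ?_⟩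
      · rcases Finset.mem_insert.1 hb with rfl | hb
        · exact if_pos hi
        · simp [he b hb i hi]
      · have h5 : φ u' = _ := hu'
        rw [hT, map_mul, h5, mul_assoc, ← map_mul]
        simp only [map_mul (α _), h1, map_mono ι _ (h2 _), ← Finset.mul_sum, ← map_sum ι]
        congr 2
        simp only [map_sum, map_prod, map_pow, aeval_X, Finset.sum_mul]
        refine Finset.sum_congr rfl fun w _ => ?_
        rw [← Fintype.prod_subtype_mul_prod_subtype (cl a),
          ← Fintype.prod_subtype_mul_prod_subtype (cl a) fun i => y i ^ if cl a i then 0 else e i,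
          Finset.prod_eq_one (f := fun i : {b // cl a b} => y i ^ if cl a i then 0 else e i)
            fun i _ => by rw [if_pos i.2, pow_zero], one_mul]
        congr 1
        · exact Finset.prod_congr rfl fun i _ => by rw [Equiv.Perm.ofSubtype_apply_coe]
        · exact Finset.prod_congr rfl fun i _ => by
            rw [Equiv.Perm.ofSubtype_apply_of_not_mem w i.2, if_neg i.2]
  refine (Submodule.span_le (p := Subalgebra.toSubmodule φ.range)).2 ?_ (key Finset.univ)
  rintro _ ⟨u, e, he, rfl⟩
  exact ⟨u, by simp [fun i => he i (Finset.mem_univ i) i (hcl.refl i)]⟩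

end Pool.Agent.CS
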