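import Pool.Agent.P.MP_d34769_ag.YB7
import Pool.Agent.P.MP_d34769_ag.YBs

/-! The cohomology of a space of orthogonal lines. -/

open Matrix Set Function

set_option linter.unusedSectionVars false

noncomputable section
namespace Pool.Agent.CS

variable {X B μ K : Type} [TopologicalSpace X] [TopologicalSpace B] [Fintype μ] [Fintype K]
  [CompactSpace X] [T2Space X] [CompactSpace B] [T2Space B] {π : C(X, B)} {D : LD B μ K}
  {l : K → Bun X μ 1}

theorem exists_sorted {o : K → ℕ} (ho : Injective o) :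
    ∃ e : Fin (Fintype.card K) ≃ K, ∀ a b, o (e a) < o (e b) ↔ a < b :=
  letI := LinearOrder.lift' o ho
  ⟨(monoEquivOfFin K rfl).toEquiv, fun _ _ => (monoEquivOfFin K rfl).lt_iff_lt⟩

open Classical in
theorem LD.n_eq (D : LD B μ K) (a : K) : D.n a = (Finset.univ.filter (D.cl a)).card := by
  rw [LD.n, Nat.card_eq_fintype_card, Fintype.card_subtype]

open Classical in
/-- the sum of the lines of one class -/
def IsLn.tot (h : IsLn π D l) (a : K) : Bun X μ (Finset.univ.filter (D.cl a)).card :=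
  Bun.sum _ l fun b hb c hc e => h.orth b c e
    (D.eqv.trans (D.eqv.symm (Finset.mem_filter.1 hb).2) (Finset.mem_filter.1 hc).2)

theorem IsLn.tot_le (h : IsLn π D l) (a : K) (x : X) :
    (D.P a).Q (π x) * (h.tot a).Q x = (h.tot a).Q x := by
  classical
  rw [IsLn.tot, Bun.sum_Q, Finset.mul_sum]
  exact Finset.sum_congr rfl fun b hb => by rw [D.eq a b (Finset.mem_filter.1 hb).2, h.le]

theorem IsLn.n_le (h : IsLn π D l) (x : X) (a : K) : D.n a ≤ D.r a :=
  (D.n_eq a).trans_le (((D.P a).op _).le_rank ((h.tot a).op x) (h.tot_le a x))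

theorem IsLn.tot_eq (h : IsLn π D l) {a : K} (hn : D.n a = D.r a) (x : X) :
    (D.P a).Q (π x) = (h.tot a).Q x :=
  ((D.P a).op _).eq_of_le (by rw [← hn, D.n_eq]; exact (h.tot a).op x) (h.tot_le a x)

open Classical in
theorem LD.card_aft {o : K → ℕ} {n : ℕ} {e : Fin n ≃ K} (he : ∀ a b, o (e a) < o (e b) ↔ a < b)
    (a : Fin n) : ((D.comp e).aft a).card =
      (Finset.univ.filter fun b => D.cl (e a) b ∧ o (e a) < o b).card :=
  Finset.card_equiv e fun b => by simp [LD.mem_aft, LD.comp, he]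

open Classical in
/-- LN: the monomials in a box span -/
theorem IsLn.span (h : IsLn π D l) {o : K → ℕ} (ho : Injective o) (m : ℤ) :
    hr X m ≤ Submodule.span ℂ {z | ∃ k : ℤ, ∃ u ∈ hr B k, ∃ e : K → ℕ,
      (∀ a, e a + (Finset.univ.filter fun b => D.cl a b ∧ o a < o b).card < D.r a) ∧
        k + (2 * ∑ a, e a : ℕ) = m ∧ z = HR.pull π u * (∏ a, (l a).x ^ e a).1} := by
  cases isEmpty_or_nonempty X with
  | inl _ => exact fun c _ => (HR.subsingleton (X := X)).elim 0 c ▸ zero_mem _
  | inr hX =>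
    obtain ⟨s, hs⟩ := exists_sorted ho
    refine (ln_span _ (h.comp s) (fun a => (h.comp s).n_le hX.some a) m).trans
      (Submodule.span_mono ?_)
    rintro _ ⟨k, u, hu, e, he, hk, rfl⟩
    refine ⟨k, u, hu, e ∘ s.symm, fun a => ?_, ?_, ?_⟩
    · have := he (s.symm a)
      rw [LD.bd, LD.card_aft hs] at this
      simp only [LD.comp, Equiv.apply_symm_apply] at this
      exact Nat.lt_sub_iff_add_lt.1 this
    · rw [← hk, ← s.sum_comp]; simp
    · rw [← s.prod_comp]; simp

theorem ev_mono (x : K → HE X) (e : K → ℕ) :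
    (∏ a, x a ^ e a).1 = ev x (∏ a, MvPolynomial.X a ^ e a) := by
  have : MvPolynomial.aeval x (∏ a, MvPolynomial.X a ^ e a : MvPolynomial K ℂ) =
      ∏ a, x a ^ e a := by simp
  exact (congrArg Subtype.val this).symm

theorem mono_hom (e : K → ℕ) :
    (∏ a, MvPolynomial.X a ^ e a : MvPolynomial K ℂ).IsHomogeneous (∑ a, e a) :=
  MvPolynomial.IsHomogeneous.prod _ _ _ fun a _ => MvPolynomial.isHomogeneous_X_pow a _

theorem exists_inj_nat (K : Type) [Fintype K] : ∃ o : K → ℕ, Injective o :=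
  ⟨fun a => Fintype.equivFin K a, fun _ _ e => (Fintype.equivFin K).injective (Fin.ext e)⟩

theorem IsLn.span' (h : IsLn π D l) (c : HR X) : c ∈ Submodule.span ℂ
    {z | ∃ (u : HR B) (e : K → ℕ), z = HR.pull π u * (HE X).val (∏ a, (l a).x ^ e a)} := by
  obtain ⟨o, ho⟩ := exists_inj_nat K
  refine hr_induction (P := fun c => c ∈ Submodule.span ℂ _) (zero_mem _) (fun _ _ => add_mem)
    (fun p a ha => Submodule.span_mono ?_ (h.span ho p ha)) c
  rintro _ ⟨k, u, -, e, -, -, rfl⟩
  exact ⟨u, e, rfl⟩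

open Classical in
theorem LD.split (D : LD B μ K) {o : K → ℕ} (ho : Injective o) (a : K) :
    D.n a = (Finset.univ.filter fun b => D.cl a b ∧ o a < o b).card +
      (Finset.univ.filter fun b => D.cl b a ∧ o b < o a).card + 1 := by
  rw [D.n_eq, ← Finset.card_union_of_disjoint (Finset.disjoint_filter.2 fun b _ h h' => by omega),
    ← Finset.card_insert_of_notMem (a := a) (by simp)]
  congr 1
  ext b
  simp only [Finset.mem_filter, Finset.mem_univ, true_and, Finset.mem_insert, Finset.mem_union]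
  refine ⟨fun h => ?_, ?_⟩
  · rcases lt_trichotomy (o a) (o b) with e | e | e
    exacts [.inr (.inl ⟨h, e⟩), .inl (ho e).symm, .inr (.inr ⟨D.eqv.symm h, e⟩)]
  · rintro (rfl | h | h)
    exacts [D.eqv.refl _, h.1, D.eqv.symm h.1]

open Classical in
/-- LN, full case: polynomials of degree at most the degree of the discriminant span -/
theorem IsLn.span_full (h : IsLn π D l) (hn : ∀ a, D.n a = D.r a) {o : K → ℕ} (ho : Injective o)
    (c : HR X) : c ∈ Submodule.span ℂ {x | ∃ u j t,
      j ≤ ∑ k, (Finset.univ.filter fun b => D.cl k b ∧ o k < o b).card ∧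
        MvPolynomial.IsHomogeneous t j ∧ x = HR.pull π u * ev (fun a => (l a).x) t} := by
  refine hr_induction (P := fun c => c ∈ Submodule.span ℂ _) (zero_mem _) (fun _ _ => add_mem)
    (fun p a ha => Submodule.span_mono ?_ (h.span ho p ha)) c
  rintro _ ⟨k, u, -, e, he, -, rfl⟩
  refine ⟨u, _, _, ?_, mono_hom e, by rw [ev_mono]⟩
  simp only [Finset.card_filter]
  rw [Finset.sum_comm]
  refine Finset.sum_le_sum fun a _ => ?_
  have h1 := he a
  have h2 := D.split ho a
  rw [← Finset.card_filter]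
  rw [hn] at h2
  omega

theorem IsLn.inj_pull (h : IsLn π D l) (hn : ∀ a, D.n a ≤ D.r a) : Injective (HR.pull π) :=
  (injective_iff_map_eq_zero _).2 fun c e => ln_can _ (h.comp (Fintype.equivFin K).symm)
    (fun a => (D.n_comp _ a).trans_le (hn _)) c (by rw [e, zero_mul])

open Classical in
/-- DCAN: the discriminant can be cancelled -/
theorem IsLn.can (h : IsLn π D l) (hn : ∀ a, D.n a = D.r a) {o : K → ℕ} (ho : Injective o)
    {c : HR B} (e : (∏ k, ∏ b with D.cl k b ∧ o k < o b, ((l b).x - (l k).x)).1 *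
      HR.pull π c = 0) : c = 0 := by
  obtain ⟨s, hs⟩ := exists_sorted ho
  have h' := h.comp s
  have hn' : ∀ a, (D.comp s).n a = (D.comp s).r a := fun a => (D.n_comp _ a).trans (hn _)
  refine ln_can _ h' (fun a => (hn' a).le) c ?_
  rw [← HE_comm (Subtype.prop _), ← e]
  congr 2
  rw [Finset.prod_comm' (t' := Finset.univ)
    (s' := fun b => Finset.univ.filter fun k => D.cl k b ∧ o k < o b) (by simp), ← s.prod_comp]
  refine Finset.prod_congr rfl fun a _ => ?_
  let S := Finset.univ.filter fun k => D.cl k (s a) ∧ o k < o (s a)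
  have hS : s a ∉ S := by simp [S]
  have hc : ∀ b ∈ insert (s a) S, D.cl b (s a) := fun b hb => by
    rcases Finset.mem_insert.1 hb with rfl | hb
    exacts [D.eqv.refl _, (Finset.mem_filter.1 hb).2.1]
  rw [(h'.res (fun a => (hn' a).le) a).g_congr (Bun.sum (insert (s a) S) l fun b hb c hc' e =>
    h.orth b c e (D.eqv.trans (hc b hb) (D.eqv.symm (hc c hc')))) (funext fun x => ?_) ?_,
    Bun.g_sum, Finset.prod_insert hS]
  · simp [Polynomial.eval_prod, S]
  · have h1 := D.split ho (s a)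
    rw [LD.card_aft hs, Finset.card_insert_of_notMem hS]
    rw [hn] at h1
    change D.r (s a) - _ = _
    simp only [S]
    omega
  · rw [h'.res_Q, Bun.sum_Q, sub_eq_iff_eq_add]
    refine (h.tot_eq (hn _) x).trans ?_
    rw [IsLn.tot, Bun.sum_Q, Finset.sum_equiv (t := Finset.univ.filter fun b =>
      D.cl (s a) b ∧ o (s a) < o b) (g := fun b => (l b).Q x) s
        (fun b => by simp [LD.mem_aft, LD.comp, hs]) fun _ _ => rfl, ← Finset.sum_union
      (Finset.disjoint_left.2 fun b hb hb' => by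
        simp only [S, Finset.mem_insert, Finset.mem_filter] at hb hb'
        rcases hb with rfl | hb <;> omega)]
    congr 1
    ext b
    simp only [S, Finset.mem_filter, Finset.mem_univ, true_and, Finset.mem_insert, Finset.mem_union]
    refine ⟨fun h => ?_, ?_⟩
    · rcases lt_trichotomy (o (s a)) (o b) with e | e | e
      exacts [.inr ⟨h, e⟩, .inl (.inl (ho e).symm), .inl (.inr ⟨D.eqv.symm h, e⟩)]
    · rintro ((rfl | h) | h)
      exacts [D.eqv.refl _, D.eqv.symm h.1, h.1]

/-- LN: no relations in low degrees -/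
theorem IsLn.free [Nonempty B] (h : IsLn π D l) {n : ℕ} (hn : ∀ a, D.n a + n ≤ D.r a)
    {φ : MvPolynomial K ℂ} (hφ : φ.totalDegree ≤ n) (e : ev (fun a => (l a).x) φ = 0) : φ = 0 := by
  let s := (Fintype.equivFin K).symm
  refine MvPolynomial.rename_injective _ s.symm.injective ((ln_poly _ (h.comp s)
    (fun a => (D.n_comp _ a).trans_le (le_of_add_le_left (hn _))) _ (fun a => ?_) ?_).trans
      (map_zero _).symm)
  · refine ((MvPolynomial.degreeOf_le_totalDegree _ _).trans
      ((MvPolynomial.totalDegree_rename_le _ _).trans hφ)).trans_lt ?_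
    have h1 := (D.comp s).aft_lt a
    have h2 := hn (s a)
    rw [D.n_comp] at h1
    change n < D.r (s a) - _
    omega
  · rw [MvPolynomial.aeval_rename, show (fun a => (l (s a)).x) ∘ s.symm = fun a => (l a).x from
      funext fun a => by simp]
    exact Subtype.ext e

/-- permutations of the lines -/
theorem IsLn.act (h : IsLn π D l) {w : Equiv.Perm K} (hw : ∀ i, D.cl i (w i)) :
    ∃ F : C(X, X), π.comp F = π ∧ ∀ a, (l a).comap F = l (w a) :=
  h.exists_lift π (fun a => l (w a)) (fun a y => by rw [D.eq _ _ (hw a)]; exact h.le _ y)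
    fun a b n e => h.orth _ _ (w.injective.ne n) (D.eqv.3 (D.eqv.2 (hw a)) (D.eqv.3 e (hw b)))

/-- DESC: invariant classes come from the base -/
theorem IsLn.desc (h : IsLn π D l) (hn : ∀ a, D.n a = D.r a) {c : HR X}
    (hw : ∀ w : Equiv.Perm K, (∀ i, D.cl i (w i)) → ∃ F : C(X, X), π.comp F = π ∧
      (∀ a, (l a).comap F = l (w a)) ∧ HR.pull F c = c) : ∃ u, HR.pull π u = c := by
  classical
  refine desc_alg (HR.pull π) (HE X).val D.eqv (fun a => (l a).x) (fun a ψ hψ => ?_) (h.span' c)
    fun w e => ?_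
  · obtain ⟨u, hu⟩ := sym_mem (HE.pull π).range (fun b : {b // D.cl a b} => (l b.1).x)
      (fun j => ⟨((D.P a).g.coeff j), by
        rw [← Finset.prod_subtype (Finset.univ.filter (D.cl a)) (by simp)
          fun b => Polynomial.X - Polynomial.C (l b).x]
        exact (Polynomial.coeff_map _ j).symm.trans (congrArg (Polynomial.coeff · j)
          (((D.P a).g_comap π).symm.trans ((((D.P a).comap π).g_congr (h.tot a)
            (funext (h.tot_eq (hn a))) (by rw [← hn, D.n_eq])).trans (Bun.g_sum _ _ _))))⟩) hψ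
    exact ⟨u.1, congrArg Subtype.val hu⟩
  · obtain ⟨F, h1, h2, h3⟩ := hw w e
    exact ⟨HR.pull F, fun u => by rw [HR.pull_pull, h1],
      fun i => ((l i).pull_x_val F).trans (by rw [h2]; rfl), h3⟩

theorem IsLn.desc_ev (h : IsLn π D l) (hn : ∀ a, D.n a = D.r a) {φ : MvPolynomial K ℂ}
    (hφ : ∀ w : Equiv.Perm K, (∀ i, D.cl i (w i)) → MvPolynomial.rename w φ = φ) :
    ∃ u, HR.pull π u = ev (fun a => (l a).x) φ :=
  h.desc hn fun w e => (h.act e).imp fun F hF => ⟨hF.1, hF.2, by
    conv_rhs => rw [← hφ w e, ev_rename]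
    simp only [pull_ev, Bun.pull_x, hF.2]
    rfl⟩

theorem hr_pt [Subsingleton B] (u : HR B) : ∃ a : ℂ, u = a • 1 := by
  cases isEmpty_or_nonempty B with
  | inl _ => exact ⟨0, (HR.subsingleton (X := B)).elim _ _⟩
  | inr hB =>
    have := uniqueOfSubsingleton hB.some
    refine hr_induction (P := fun u => ∃ a : ℂ, u = a • 1) ⟨0, by simp⟩ ?_ (fun p a ha => ?_) u
    · rintro _ _ ⟨a, rfl⟩ ⟨b, rfl⟩
      exact ⟨a + b, (add_smul _ _ _).symm⟩
    · exact (Submodule.mem_span_singleton.1 ((ptTo_unique B (p + 1)).2 p (lt_add_one _) ha)).imp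
        fun _ => Eq.symm

/-- over a point every class is a polynomial -/
theorem IsLn.ev_surj [Subsingleton B] (h : IsLn π D l) : Surjective (ev fun a => (l a).x) :=
  fun c => (Submodule.span_le (p := Subalgebra.toSubmodule (ev fun a => (l a).x).range)).2 (by
    rintro _ ⟨u, e, rfl⟩
    obtain ⟨a, rfl⟩ := hr_pt u
    exact ⟨a • ∏ a, MvPolynomial.X a ^ e a, by simp [← ev_mono]⟩) (h.span' c)

/-- FIB: over a point the invariant classes are the constants -/
theorem IsLn.fib [Subsingleton B] (h : IsLn π D l) (hn : ∀ a, D.n a = D.r a) {c : HR X}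
    (hw : ∀ w : Equiv.Perm K, (∀ i, D.cl i (w i)) → ∃ F : C(X, X),
      (∀ a x, (l a).Q (F x) = (l (w a)).Q x) ∧ HR.pull F c = c) : ∃ a : ℂ, c = a • 1 := by
  obtain ⟨u, rfl⟩ := h.desc hn fun w e => (hw w e).imp fun F hF =>
    ⟨ContinuousMap.ext fun _ => Subsingleton.elim _ _, fun a => Bun.ext (funext (hF.1 a)), hF.2⟩
  obtain ⟨a, rfl⟩ := hr_pt u
  exact ⟨a, by simp⟩

/-- the full space of orthogonal lines is not empty -/
theorem IsLn.nonempty [Nonempty B] (h : IsLn π D l) (hn : ∀ a, D.n a ≤ D.r a) : Nonempty X := by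
  by_contra e
  have := not_nonempty_iff.1 e
  have := HR.nontrivial (X := B)
  exact zero_ne_one (h.inj_pull hn ((HR.subsingleton (X := X)).elim _ _))

end Pool.Agent.CS
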