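import Pool.Agent.P.MP_d34769_ag.YBW

/-! The top class of a bundle with a section that has one transversal zero. -/

open Matrix Set Polynomial

noncomputable section
namespace Pool.Agent.CS

variable {μ : Type} [Fintype μ] {X Y : Type} [TopologicalSpace X] [TopologicalSpace Y] {r N : ℕ}
  {Q : Matrix μ μ ℂ} {V : Type} [NormedAddCommGroup V] [NormedSpace ℝ V] [FiniteDimensional ℝ V]

theorem lnv_mulVec_eq_zero {w e : μ → ℂ} (hw : w ≠ 0) : lnv w *ᵥ e = 0 ↔ star e ⬝ᵥ w = 0 := by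
  rw [lnv, smul_mulVec, vecMulVec_mulVec, op_smul_eq_smul, smul_smul, smul_eq_zero,
    or_iff_left hw, mul_eq_zero, or_iff_right (inv_ne_zero (star_dot_ne hw)),
    star_dotProduct, star_eq_zero]

omit [FiniteDimensional ℝ V] in
/-- every line outside a hyperplane is met once by the cell -/
theorem cell_uniq {e : μ → ℂ} (he : e ≠ 0) (hQe : Q *ᵥ e = e) {T : V →ₗ[ℝ] (μ → ℂ)}
    (hT : Function.Injective T) (hr : ∀ w, (∃ v, T v = w) ↔ Q *ᵥ w = w ∧ star e ⬝ᵥ w = 0)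
    (hn : ∀ v : V, ((1 - ‖v‖ : ℝ) : ℂ) • e + T v ≠ 0) {w : μ → ℂ} (hw : w ≠ 0) (hQw : Q *ᵥ w = w)
    (hc : star e ⬝ᵥ w ≠ 0) : ∃! v : Bl V, lnv (((1 - ‖v.1‖ : ℝ) : ℂ) • e + T v.1) = lnv w := by
  have h0 : ∀ v, star e ⬝ᵥ T v = 0 := fun v => ((hr _).1 ⟨v, rfl⟩).2
  have hd := star_dot_ne he
  have hdot : ∀ v : V, star e ⬝ᵥ (((1 - ‖v‖ : ℝ) : ℂ) • e + T v) =
      ((1 - ‖v‖ : ℝ) : ℂ) * (star e ⬝ᵥ e) := fun v => by
    rw [dotProduct_add, h0, add_zero, dotProduct_smul, smul_eq_mul]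
  obtain ⟨u, hu⟩ := (hr (((star e ⬝ᵥ e) / (star e ⬝ᵥ w)) • w - e)).2
    ⟨by rw [mulVec_sub, mulVec_smul, hQw, hQe],
      by rw [dotProduct_sub, dotProduct_smul, smul_eq_mul, div_mul_cancel₀ _ hc, sub_self]⟩
  have hp : 0 < 1 + ‖u‖ := by positivity
  have hs : ∀ v : V, ‖v‖ ≠ 1 → ((1 - ‖v‖ : ℝ) : ℂ) ≠ 0 := fun v hv =>
    Complex.ofReal_ne_zero.2 (sub_ne_zero.2 hv.symm)
  have key2 : ∀ v : Bl V, lnv (((1 - ‖v.1‖ : ℝ) : ℂ) • e + T v.1) = lnv w ↔
      v.1 = (1 - ‖v.1‖) • u := fun v => by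
    constructor
    · intro ev
      obtain ⟨c, ec⟩ := (lnv_eq_iff hw (hn v.1)).1 ev.symm
      have h3 := hdot v.1
      rw [ec, dotProduct_smul, smul_eq_mul] at h3
      apply hT
      rw [map_smul, hu, ← Complex.coe_smul, smul_sub, smul_smul, ← mul_div_assoc, ← h3,
        mul_div_cancel_right₀ _ hc, ← ec, add_sub_cancel_left]
    · intro ev
      have h1 : ‖v.1‖ ≠ 1 := fun e1 => by
        rw [e1, sub_self, zero_smul] at ev
        simp [ev] at e1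
      conv_lhs => rw [ev, map_smul, hu, ← ev, ← Complex.coe_smul, ← smul_add, add_sub_cancel,
        smul_smul]
      exact lnv_smul hw (mul_ne_zero (hs _ h1) (div_ne_zero hd hc))
  have hu' : ‖(1 + ‖u‖)⁻¹ • u‖ = (1 + ‖u‖)⁻¹ * ‖u‖ := by
    rw [norm_smul, Real.norm_of_nonneg (by positivity)]
  refine ⟨⟨(1 + ‖u‖)⁻¹ • u, ?_⟩, (key2 _).2 ?_, fun v hv => Subtype.ext ?_⟩
  · rw [mem_closedBall_zero_iff, hu', inv_mul_le_iff₀ hp]; linarith
  · simp only [hu']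
    congr 1
    field_simp
    ring
  · have h3 := (key2 v).1 hv
    have h4 : ‖v.1‖ = (1 - ‖v.1‖) * ‖u‖ := by
      conv_lhs => rw [h3, norm_smul, Real.norm_of_nonneg
        (sub_nonneg.2 (mem_closedBall_zero_iff.1 v.2))]
    rw [h3]
    congr 1
    field_simp
    linarith

/-- the sum of a bundle and the trivial line -/
def Bun.plus (E : Bun Y μ r) : Bun Y (μ ⊕ Unit) (r + 1) :=
  ⟨fun y => fromBlocks (E.Q y) 0 0 1,
    E.cont.matrix_fromBlocks continuous_const continuous_const continuous_const,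
    fun y => ⟨by simp [fromBlocks_conjTranspose, (E.op y).herm],
      by simp [fromBlocks_multiply, (E.op y).idem],
      by have := (E.op y).tr; simp only [Matrix.trace, diag] at this; simp [Matrix.trace, this]⟩⟩

theorem Bun.plus_mulVec (E : Bun Y μ r) (y : Y) (w : μ ⊕ Unit → ℂ) :
    E.plus.Q y *ᵥ w = Sum.elim (E.Q y *ᵥ (w ∘ Sum.inl)) (w ∘ Sum.inr) := by
  simp [Bun.plus, fromBlocks_mulVec]

/-- the vector with a given last coordinate -/
def vpl (a : μ → ℂ) (c : ℂ) : μ ⊕ Unit → ℂ := Sum.elim a fun _ => c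

theorem Bun.plus_vpl (E : Bun Y μ r) (y : Y) (a : μ → ℂ) (c : ℂ) :
    E.plus.Q y *ᵥ vpl (E.Q y *ᵥ a) c = vpl (E.Q y *ᵥ a) c := by
  rw [E.plus_mulVec, vpl, Sum.elim_comp_inl, Sum.elim_comp_inr, mulVec_mulVec, (E.op y).idem]

theorem dot_vpl (w : μ ⊕ Unit → ℂ) : star (vpl (0 : μ → ℂ) 1) ⬝ᵥ w = w (Sum.inr ()) := by
  simp [vpl, dotProduct]

omit [Fintype μ] in
theorem vpl_ne {a : μ → ℂ} {c : ℂ} (h : a = 0 → c ≠ 0) : vpl a c ≠ 0 := fun e =>
  h (funext fun i => congrFun e (Sum.inl i)) (congrFun e (Sum.inr ()))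

omit [Fintype μ] in
theorem cont_vpl {a : Y → μ → ℂ} {c : Y → ℂ} (ha : Continuous a) (hc : Continuous c) :
    Continuous fun y => vpl (a y) (c y) :=
  continuous_pi fun i => by
    rcases i with i | i
    exacts [(continuous_apply i).comp ha, hc]

/-- EUL -/
theorem Bun.eul [CompactSpace X] [T2Space X] (E : Bun X μ N) (κ : C(Bl V, X)) {A : Set X}
    (hA : IsClosed A) (mA : ∀ v, κ v ∈ A ↔ v ∈ Bd V) (hκ : ∀ t ∉ A, ∃! v, κ v = t)
    (ori : ∃ a ∈ (CP univ A).Z (2 * N), a ∉ (CC X).B (2 * N)) {s : X → μ → ℂ} (hs : Continuous s)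
    (hs0 : ∀ y ∈ A, E.Q y *ᵥ s y ≠ 0) (ψ : Bl V → V →ₗ[ℝ] (μ → ℂ))
    (hψ : Continuous fun p : Bl V × V => ψ p.1 p.2)
    (hi : ∀ v w, E.Q (κ v) *ᵥ ψ v w = 0 → w = 0)
    (hsψ : ∀ v, E.Q (κ v) *ᵥ s (κ v) = E.Q (κ v) *ᵥ ψ v v.1) : E.g.coeff 0 ≠ 0 := by
  classical
  intro hg
  obtain ⟨a₀, ha₀, hb₀⟩ := ori
  have hκ' : ∀ t ∈ univ \ A, ∃! v, κ v = t := fun t ht => hκ t ht.2
  have hV : Module.finrank ℝ V = 2 * N := by
    by_contra hn
    exact hb₀ (CP_B_CC (cell_ac κ isClosed_univ hA (fun _ => trivial) mA hκ'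
      (fun e => hn (by exact_mod_cast e.symm)) ha₀))
  let o : Bl V := ⟨0, Metric.mem_closedBall_self zero_le_one⟩
  have ho : κ o ∉ A := fun h => by simpa [Bd, o] using (mA o).1 h
  -- the projective completion
  set π := Ln.π E.plus.ld
  set L := Ln.l E.plus.ld ()
  have hP : IsPE π E.plus L := E.plus.isPE
  let e : μ ⊕ Unit → ℂ := vpl 0 1
  have he : e ≠ 0 := vpl_ne fun _ => one_ne_zero
  have hH := isClosed_hyp L e
  set H := {x | L.Q x *ᵥ e = 0}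
  have hu : (pev π L.x E.g).1 ∈ hr _ (2 * N) := by
    rw [pev_sum π L.x (E.g_mo.1.trans_lt (Nat.lt_succ_self N))]
    refine Submodule.sum_mem _ fun j _ => ?_
    have := mul_mem_hr (pull_mem_hr π (E.g_coeff j)) (L.x_pow_mem j)
    rwa [show (2 * N - 2 * (j : ℕ) + (2 * j.1 : ℕ) : ℤ) = 2 * N by push_cast; ring] at this
  have hu0 : HR.res H (pev π L.x E.g).1 = 0 := by
    rw [← HE.pull_val, pull_pev, Bun.pull_x]
    have hm : ∀ w : μ ⊕ Unit → ℂ, fromCols (1 : Matrix μ μ ℂ) (0 : Matrix μ Unit ℂ) *ᵥ w =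
        w ∘ Sum.inl := fun w => by simp [fromCols_mulVec]
    refine congrArg Subtype.val (E.g_root _ (L.comap ⟨Subtype.val, continuous_subtype_val⟩)
      (A := fun _ => fromCols 1 0) continuous_const (fun x => ?_) fun x => ?_)
    · obtain ⟨w, hw, ew⟩ := (L.op x.1).exists_lnv
      have h1 := (le_lnv_iff hw).1 (ew ▸ hP.le x.1)
      have h2 : E.Q (π x) *ᵥ (w ∘ Sum.inl) = w ∘ Sum.inl := by
        rw [E.plus_mulVec] at h1
        exact funext fun i => congrFun h1 (Sum.inl i)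
      change E.Q (π x) * (fromCols 1 0 * L.Q x) = fromCols 1 0 * L.Q x
      rw [ew, ← Matrix.mul_assoc, mul_lnv, mul_lnv, ← mulVec_mulVec, hm, h2]
    · obtain ⟨w, hw, ew⟩ := (L.op x.1).exists_lnv
      have h1 : lnv w *ᵥ e = 0 := ew ▸ x.2
      rw [lnv_mulVec_eq_zero hw, dot_vpl] at h1
      change fromCols (1 : Matrix μ μ ℂ) (0 : Matrix μ Unit ℂ) * L.Q x ≠ 0
      rw [ew, Ne, mul_lnv_eq_zero hw, hm]
      exact fun h0 => hw (funext fun i => by cases i; exacts [congrFun h0 _, h1])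
  obtain ⟨u, huZ, eu⟩ := exists_rel hH hu hu0
  have hH' : ∀ x (a : μ → ℂ) (c : ℂ), vpl a c ≠ 0 → L.Q x = lnv (vpl a c) → (x ∈ H ↔ c = 0) :=
    fun x a c h1 h2 => by
      change L.Q x *ᵥ e = 0 ↔ _
      rw [h2, lnv_mulVec_eq_zero h1, dot_vpl]
      rfl
  -- the section
  obtain ⟨τ, t0, t1, t2⟩ := exists_continuous_zero_one_of_isClosed hA
    (isClosed_singleton (x := κ o)) (disjoint_singleton_right.2 ho)
  have t1' : τ (κ o) = 1 := t1 rfl
  have n1 : ∀ y, vpl (E.Q y *ᵥ s y) (τ y) ≠ 0 := fun y => vpl_ne fun h0 => by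
    obtain ⟨v, rfl, -⟩ := hκ y fun h => hs0 y h h0
    obtain rfl : v = o := Subtype.ext (hi v _ ((hsψ v).symm.trans h0))
    simp [t1']
  obtain ⟨σ, s1, s2⟩ := hP.exists_lift (.id X) (Bun.vec _ (cont_vpl (E.cont.matrix_mulVec hs)
    (Complex.continuous_ofReal.comp τ.continuous)) n1) fun y => le_lnv (E.plus_vpl y _ _)
  have s3 : ∀ y, L.Q (σ y) = lnv (vpl (E.Q y *ᵥ s y) (τ y)) := fun y =>
    congrFun (congrArg Bun.Q s2) y
  have mσ := mor_pl σ (K := univ) (A := A) (K' := univ) (A' := H) (mapsTo_univ _ _) fun y hy =>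
    (hH' _ _ _ (n1 y) (s3 y)).2 (by simp [t0 hy])
  have z1 : AS.pull σ u ∈ (CP univ A).Z (2 * N) := by simpa using mσ.mem_Z huZ
  have b1 : AS.pull σ u ∈ (CC X).B (2 * N) := by
    rw [← cl_eq_zero (CP_Z_CC z1), ← pull_cl σ (Z_Zc (CP_Z_CC huZ)), eu, ← HE.pull_val, pull_pev,
      Bun.pull_x, s1, s2, Bun.x_vec, pev_zero, hg]
    rfl
  have b2 : AS.pull σ u ∈ (CP univ A).B (2 * N) :=
    (cell_le1 κ isClosed_univ hA (fun _ => trivial) mA hκ' (2 * N)).inj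
      (mor_pl (.id X) (mapsTo_univ _ _) (mapsTo_empty _ _)) ha₀
      (by simpa [AS.pull_id] using hb₀) _ z1 (by simpa [AS.pull_id] using b1)
  have b3 : AS.pull (σ.comp κ) u ∈ (CP univ (Bd V)).B (2 * N) := by
    simpa [AS.pull_pull] using (mor_pl κ (K := univ) (A := Bd V) (K' := univ) (A' := A)
      (mapsTo_univ _ _) fun v hv => (mA v).2 hv).mem_B z1.1 b2
  -- the homotopy
  let sc : C(unitInterval × Bl V, Bl V) := ⟨fun p => ⟨p.1.1 • p.2.1, by
      rw [mem_closedBall_zero_iff, norm_smul, Real.norm_of_nonneg p.1.2.1]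
      exact mul_le_one₀ p.1.2.2 (norm_nonneg _) (mem_closedBall_zero_iff.1 p.2.2)⟩,
    continuous_induced_rng.2 (continuous_fst.subtype_val.smul continuous_snd.subtype_val)⟩
  let c : unitInterval × Bl V → ℝ := fun p => (1 - p.1.1) * (1 - ‖p.2.1‖) + p.1.1 * τ (κ p.2)
  have hc : Continuous c := ((continuous_const.sub continuous_fst.subtype_val).mul
    (continuous_const.sub continuous_snd.subtype_val.norm)).add (continuous_fst.subtype_val.mul
      (τ.continuous.comp (κ.continuous.comp continuous_snd)))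
  have n2 : ∀ p, vpl (E.Q (κ (sc p)) *ᵥ ψ (sc p) p.2.1) (c p) ≠ 0 := fun p => vpl_ne fun h0 => by
    have : p.2 = o := Subtype.ext (hi _ _ h0)
    simp [c, this, t1', o]
  obtain ⟨F, f1, f2⟩ := hP.exists_lift (κ.comp sc) (Bun.vec _ (cont_vpl ((E.cont.comp
    (κ.comp sc).continuous).matrix_mulVec (hψ.comp (sc.continuous.prodMk
      continuous_snd.subtype_val))) (Complex.continuous_ofReal.comp hc)) n2)
    fun p => le_lnv (E.plus_vpl _ _ _)
  have f3 : ∀ p, L.Q (F p) = lnv (vpl (E.Q (κ (sc p)) *ᵥ ψ (sc p) p.2.1) (c p)) := fun p =>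
    congrFun (congrArg Bun.Q f2) p
  have f4 : ∀ p, π (F p) = κ (sc p) := fun p => congrArg (· p) f1
  -- the fibre
  have hQ := E.plus.op (κ o)
  have h₀ := isPP_model hQ
  set L₀ := Ln.l (Bun.const Unit hQ).ld ()
  obtain ⟨ι, i1, i2⟩ := hP.exists_lift (.const _ (κ o)) L₀ h₀.le
  have i3 : ∀ x, L.Q (ι x) = L₀.Q x := fun x => congrFun (congrArg Bun.Q i2) x
  have n3 : ∀ v : V, vpl (E.Q (κ o) *ᵥ ψ o v) ((1 - ‖v‖ : ℝ) : ℂ) ≠ 0 := fun v => vpl_ne fun h0 => by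
    simp [hi _ _ h0]
  obtain ⟨g, g1⟩ := h₀.exists_lift hQ (Bun.vec
    (fun v : Bl V => vpl (E.Q (κ o) *ᵥ ψ o v.1) ((1 - ‖v.1‖ : ℝ) : ℂ))
    (cont_vpl (continuous_const.matrix_mulVec (hψ.comp (continuous_const.prodMk
      continuous_subtype_val))) (Complex.continuous_ofReal.comp (continuous_const.sub
        continuous_subtype_val.norm))) fun v => n3 v.1) fun v => le_lnv (E.plus_vpl _ _ _)
  have g2 : ∀ v, L₀.Q (g v) = lnv (vpl (E.Q (κ o) *ᵥ ψ o v.1) ((1 - ‖v.1‖ : ℝ) : ℂ)) := fun v =>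
    congrFun (congrArg Bun.Q g1) v
  let Ht : (ι.comp g).Homotopy (σ.comp κ) := ⟨F, fun v => by
      have a : sc (0, v) = o := Subtype.ext (zero_smul _ _)
      refine hP.inj _ _ ((f4 _).trans (by rw [a]; exact (congrArg (· (g v)) i1).symm)) ?_
      refine (f3 _).trans (Eq.trans ?_ ((i3 _).trans (g2 v)).symm)
      simp [a, c],
    fun v => by
      have a : sc (1, v) = v := Subtype.ext (one_smul _ _)
      refine hP.inj _ _ ((f4 _).trans (by rw [a]; exact (congrArg (· (κ v)) s1).symm)) ?_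
      refine (f3 _).trans (Eq.trans ?_ (s3 _).symm)
      simp [a, c, hsψ]⟩
  have b4 : AS.pull g (AS.pull ι u) ∈ (CP univ (Bd V)).B (2 * N) := by
    have := add_mem (htpy Ht isClosed_univ (isClosed_Bd V) (K' := univ) (A' := H)
      (fun _ _ _ => trivial) (fun t v hv => (hH' _ _ _ (n2 (t, v)) (f3 (t, v))).2 (by
        have h1 : ‖v.1‖ = 1 := hv
        simp [c, h1, t0 ((mA v).2 hv)])) u huZ) b3
    rwa [sub_add_cancel, ContinuousMap.coe_comp, ← AS.pull_pull] at this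
  -- the cell
  let T₀ : V →ₗ[ℝ] (μ → ℂ) := ((E.Q (κ o)).mulVecLin.restrictScalars ℝ) ∘ₗ ψ o
  have hT₀ : Function.Injective T₀ := (injective_iff_map_eq_zero _).2 (hi o)
  have hr₀ : ∀ w, E.Q (κ o) *ᵥ w = w → ∃ v, T₀ v = w := by
    obtain ⟨T₁, h1, h2⟩ := (E.op (κ o)).exists_coord
    have : LinearMap.range T₀ = LinearMap.range T₁ := Submodule.eq_of_le_of_finrank_eq
      (by
        rintro _ ⟨v, rfl⟩
        exact (h2 _).2 (by
          change E.Q (κ o) *ᵥ (E.Q (κ o) *ᵥ _) = E.Q (κ o) *ᵥ _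
          rw [mulVec_mulVec, (E.op _).idem]))
      (by rw [LinearMap.finrank_range_of_inj hT₀, LinearMap.finrank_range_of_inj h1, hV]; simp)
    exact fun w hw => show w ∈ LinearMap.range T₀ from this ▸ (h2 w).2 hw
  let T : V →ₗ[ℝ] (μ ⊕ Unit → ℂ) :=
    ⟨⟨fun v => vpl (T₀ v) 0, fun a b => by ext (i | i) <;> simp [vpl]⟩,
      fun a b => by ext (i | i) <;> simp [vpl]⟩
  have eT : ∀ v : V, ((1 - ‖v‖ : ℝ) : ℂ) • e + T v =
      vpl (E.Q (κ o) *ᵥ ψ o v) ((1 - ‖v‖ : ℝ) : ℂ) := fun v => by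
    ext (i | i) <;> simp [vpl, e, T, T₀]
  have hH₀ : IsClosed (ι ⁻¹' H) := hH.preimage ι.continuous
  have q := cell_qia g isClosed_univ hH₀ (fun _ => trivial) (fun v => by
      rw [mem_preimage, hH' _ _ _ (n3 v.1) ((i3 _).trans (g2 v)), Complex.ofReal_eq_zero,
        sub_eq_zero, eq_comm]
      rfl) fun x hx => by
    obtain ⟨w, hw, ew⟩ := (L₀.op x).exists_lnv
    have := cell_uniq (Q := E.plus.Q (κ o)) he (by simpa using E.plus_vpl (κ o) 0 1) (T := T)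
      (fun a b h => hT₀ (funext fun i => congrFun h (Sum.inl i))) (fun w => ⟨by
        rintro ⟨v, rfl⟩
        exact ⟨E.plus_vpl _ _ _, dot_vpl _⟩, fun ⟨h1, h2⟩ => by
        rw [E.plus_mulVec] at h1
        rw [dot_vpl] at h2
        obtain ⟨v, hv⟩ := hr₀ (w ∘ Sum.inl) (funext fun i => congrFun h1 (Sum.inl i))
        exact ⟨v, funext fun i => by cases i; exacts [congrFun hv _, h2.symm]⟩⟩)
      (fun v => eT v ▸ n3 v) hw ((le_lnv_iff hw).1 (ew ▸ h₀.le x)) fun h0 => hx.2 (by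
        change L.Q (ι x) *ᵥ e = 0
        rw [i3, ew, lnv_mulVec_eq_zero hw, h0])
    simp only [eT, ← g2, ← ew, h₀.inj.eq_iff] at this
    exact this
  have z2 : AS.pull ι u ∈ (CP univ (ι ⁻¹' H)).Z (2 * N) := by
    simpa using (mor_pl ι (K := univ) (K' := univ) (mapsTo_univ _ _)
      (mapsTo_preimage _ _)).mem_Z huZ
  have b5 := (cl_eq_zero (CP_Z_CC z2)).2 (CP_B_CC (q.inj _ _ z2 (by simpa using b4)))
  rw [← pull_cl ι (Z_Zc (CP_Z_CC huZ)), eu, ← HE.pull_val, pull_pev, Bun.pull_x, i1, i2,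
    ← ContinuousMap.comp_id (.const _ _), ← pev_map, ← Bun.g_comap,
    show E.comap (.const _ (κ o)) = Bun.const _ (E.op (κ o)) from rfl, Bun.g_const, map_pow,
    pev_X] at b5
  exact h₀.x_pow_ne hQ (Nat.lt_succ_self N) (Subtype.ext b5)

end Pool.Agent.CS
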