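import Pool.Agent.P.MP_d34769_ag.YB1

/-! The open cell of projective space and the tower structure of spaces of orthogonal lines. -/

open Matrix

noncomputable section
namespace Pool.Agent.CS

variable {μ ν K : Type} [Fintype μ] [Fintype ν] {r s k m : ℕ} {Q : Matrix μ μ ℂ}
  {X Y B : Type} [TopologicalSpace X] [TopologicalSpace Y] [TopologicalSpace B]

/-- the closed cube -/
abbrev Cube (m : ℕ) : Type := Metric.closedBall (0 : Fin m → ℝ) 1

theorem cell_ne {e : μ → ℂ} (he : e ≠ 0) {T : (Fin m → ℝ) →ₗ[ℝ] (μ → ℂ)}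
    (hT : Function.Injective T) (h : ∀ v, star e ⬝ᵥ T v = 0) (v : Fin m → ℝ) :
    ((1 - ‖v‖ : ℝ) : ℂ) • e + T v ≠ 0 := fun h0 => by
  have h1 := congrArg (star e ⬝ᵥ ·) h0
  simp only [dotProduct_add, dotProduct_smul, h, add_zero, dotProduct_zero, smul_eq_mul,
    mul_eq_zero, star_dot_ne he, or_false] at h1
  rw [h1, zero_smul, zero_add, map_eq_zero_iff _ hT] at h0
  simp [h0] at h1

/-- the characteristic map of the open cell -/
theorem IsPP.cell [CompactSpace X] {L : Bun X μ 1} (h : IsPP Q L) (hQ : OP r Q) {e : μ → ℂ}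
    (he : e ≠ 0) (hQe : Q *ᵥ e = e) {T : (Fin m → ℝ) →ₗ[ℝ] (μ → ℂ)} (hT : Function.Injective T)
    (hr : ∀ w, (∃ v, T v = w) ↔ Q *ᵥ w = w ∧ star e ⬝ᵥ w = 0) :
    ∃ g : C(Cube m, X), (∀ v, L.Q (g v) = lnv (((1 - ‖v.1‖ : ℝ) : ℂ) • e + T v.1)) ∧
      (∀ v, L.Q (g v) *ᵥ e = 0 ↔ ‖v.1‖ = 1) ∧ ∀ x, L.Q x *ᵥ e ≠ 0 → ∃! v, g v = x := by
  have h0 : ∀ v, star e ⬝ᵥ T v = 0 := fun v => ((hr _).1 ⟨v, rfl⟩).2
  have hn := cell_ne he hT h0
  have hd := star_dot_ne he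
  obtain ⟨g, hg⟩ := h.exists_lift hQ (Bun.vec (fun v : Cube m => ((1 - ‖v.1‖ : ℝ) : ℂ) • e + T v.1)
    (((Complex.continuous_ofReal.comp (continuous_const.sub continuous_subtype_val.norm)).smul
      continuous_const).add (T.continuous_of_finiteDimensional.comp continuous_subtype_val))
    fun v => hn v.1) fun v => le_lnv (by rw [mulVec_add, mulVec_smul, hQe, ((hr _).1 ⟨_, rfl⟩).1])
  have hg' : ∀ v, L.Q (g v) = lnv (((1 - ‖v.1‖ : ℝ) : ℂ) • e + T v.1) := fun v =>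
    congrFun (congrArg Bun.Q hg) v
  have key : ∀ w : μ → ℂ, w ≠ 0 → (lnv w *ᵥ e = 0 ↔ star e ⬝ᵥ w = 0) := fun w hw => by
    rw [lnv, smul_mulVec, vecMulVec_mulVec, op_smul_eq_smul, smul_smul, smul_eq_zero,
      or_iff_left hw, mul_eq_zero, or_iff_right (inv_ne_zero (star_dot_ne hw)),
      star_dotProduct, star_eq_zero]
  have hdot : ∀ v : Fin m → ℝ, star e ⬝ᵥ (((1 - ‖v‖ : ℝ) : ℂ) • e + T v) =
      ((1 - ‖v‖ : ℝ) : ℂ) * (star e ⬝ᵥ e) := fun v => by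
    rw [dotProduct_add, h0, add_zero, dotProduct_smul, smul_eq_mul]
  have h2 : ∀ v, L.Q (g v) *ᵥ e = 0 ↔ ‖v.1‖ = 1 := fun v => by
    rw [hg', key _ (hn _), hdot, mul_eq_zero, or_iff_left hd, Complex.ofReal_eq_zero, sub_eq_zero,
      eq_comm]
  refine ⟨g, hg', h2, fun x hx => ?_⟩
  obtain ⟨w, hw, ew⟩ := (L.op x).exists_lnv
  have hc : star e ⬝ᵥ w ≠ 0 := fun e0 => hx (by rw [ew, key w hw, e0])
  have hQw : Q *ᵥ w = w := (le_lnv_iff hw).1 (ew ▸ h.le x)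
  obtain ⟨u, hu⟩ := (hr (((star e ⬝ᵥ e) / (star e ⬝ᵥ w)) • w - e)).2
    ⟨by rw [mulVec_sub, mulVec_smul, hQw, hQe],
      by rw [dotProduct_sub, dotProduct_smul, smul_eq_mul, div_mul_cancel₀ _ hc, sub_self]⟩
  have hp : 0 < 1 + ‖u‖ := by positivity
  have hs : ∀ v : Fin m → ℝ, ‖v‖ ≠ 1 → ((1 - ‖v‖ : ℝ) : ℂ) ≠ 0 := fun v hv =>
    Complex.ofReal_ne_zero.2 (sub_ne_zero.2 hv.symm)
  have key2 : ∀ v : Cube m, g v = x ↔ v.1 = (1 - ‖v.1‖) • u := fun v => by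
    constructor
    · intro ev
      obtain ⟨c, ec⟩ := (lnv_eq_iff hw (hn v.1)).1 (by rw [← ew, ← ev, hg'])
      have h3 := hdot v.1
      rw [ec, dotProduct_smul, smul_eq_mul] at h3
      apply hT
      rw [map_smul, hu, ← Complex.coe_smul, smul_sub, smul_smul, ← mul_div_assoc, ← h3,
        mul_div_cancel_right₀ _ hc, ← ec, add_sub_cancel_left]
    · intro ev
      have h1 : ‖v.1‖ ≠ 1 := fun e1 => by
        rw [e1, sub_self, zero_smul] at ev
        simp [ev] at e1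
      apply h.inj
      rw [hg', ew]
      conv_lhs => rw [ev, map_smul, hu, ← ev, ← Complex.coe_smul, ← smul_add, add_sub_cancel,
        smul_smul]
      exact lnv_smul hw (mul_ne_zero (hs _ h1) (div_ne_zero hd hc))
  have hu' : ‖(1 + ‖u‖)⁻¹ • u‖ = (1 + ‖u‖)⁻¹ * ‖u‖ := by
    rw [norm_smul, Real.norm_of_nonneg (by positivity)]
  refine ⟨⟨(1 + ‖u‖)⁻¹ • u, ?_⟩, (key2 _).2 ?_, fun v hv => Subtype.ext ?_⟩
  · rw [mem_closedBall_zero_iff, hu', inv_mul_le_iff₀ hp]; linarith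
  · simp only [hu']
    congr 1
    field_simp
    ring
  · have h3 := (key2 v).1 hv
    have h4 : ‖v.1‖ = (1 - ‖v.1‖) * ‖u‖ := by
      conv_lhs => rw [h3, norm_smul, Real.norm_of_nonneg
        (sub_nonneg.2 (mem_closedBall_zero_iff.1 v.2))]
    rw [h3]
    congr 1
    field_simp
    linarith

/-- real coordinates on the range of a projector -/
theorem OP.exists_coord (hQ : OP r Q) : ∃ T : (Fin (2 * r) → ℝ) →ₗ[ℝ] (μ → ℂ),
    Function.Injective T ∧ ∀ w, (∃ v, T v = w) ↔ Q *ᵥ w = w := by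
  obtain ⟨u, h1, h2⟩ := hQ.exists_iso
  let c : (Fin (2 * r) → ℝ) ≃ₗ[ℝ] (Fin r → ℂ) := LinearEquiv.ofFinrankEq _ _ (by
    rw [← Module.finrank_mul_finrank ℝ ℂ (Fin r → ℂ)]; simp)
  refine ⟨(u.mulVecLin.restrictScalars ℝ) ∘ₗ c.toLinearMap, fun v w e => c.injective ?_,
    fun w => ⟨?_, fun h => ⟨c.symm (uᴴ *ᵥ w), ?_⟩⟩⟩
  · simpa [h1] using congrArg (uᴴ *ᵥ ·) e
  · rintro ⟨v, rfl⟩
    simp [← h2, Matrix.mul_assoc, h1]
  · simp [h2, h]

/-- the hyperplane orthogonal to `e` -/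
theorem IsPP.hyp {L : Bun X μ 1} (h : IsPP Q L) (hQ : OP r Q) {e : μ → ℂ} (he : e ≠ 0)
    (hQe : Q *ᵥ e = e) : IsPP (Q - lnv e) (L.comap ⟨Subtype.val, continuous_subtype_val⟩ :
      Bun {x | L.Q x *ᵥ e = 0} μ 1) := by
  refine ⟨fun x => ?_, fun x y e => Subtype.ext (h.inj e), fun l hl e' => ?_⟩
  · change (Q - lnv e) * L.Q x.1 = L.Q x.1
    rw [sub_mul, h.le, (L.op x.1).comm0 (OP.lnv he) ((mul_lnv_eq_zero he).2 x.2), sub_zero]
  · have h1 : Q * l = l := by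
      rw [← e', ← Matrix.mul_assoc, mul_sub, hQ.idem, le_lnv hQe]
    obtain ⟨x, rfl⟩ := h.sur l hl h1
    rw [sub_mul, h1, sub_eq_self] at e'
    exact ⟨⟨x, (mul_lnv_eq_zero he).1 ((OP.lnv he).comm0 hl e')⟩, rfl⟩

/-- forget the first line -/
def LD.comp (D : LD B μ K) {K' : Type} (e : K' → K) : LD B μ K' :=
  ⟨fun a b => D.cl (e a) (e b), ⟨fun _ => D.eqv.refl _, D.eqv.symm, D.eqv.trans⟩,
    fun a => D.r (e a), fun a => D.P (e a), fun _ _ => D.req _ _, fun _ _ => D.eq _ _⟩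

theorem IsLn.comp {π : C(X, B)} {D : LD B μ K} {l : K → Bun X μ 1} (h : IsLn π D l) {K' : Type}
    (e : K' ≃ K) : IsLn π (D.comp e) fun a => l (e a) := by
  refine ⟨fun a => h.le _, fun a b n => h.orth _ _ (e.injective.ne n),
    fun x x' a b => h.inj x x' a fun c => by simpa using b (e.symm c), fun t q hq ho => ?_⟩
  obtain ⟨x, hx, hl⟩ := h.sur t (fun a => q (e.symm a))
    (fun a => by obtain ⟨a, rfl⟩ := e.surjective a; rw [e.symm_apply_apply]; exact hq a)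
    fun a b n c => ho _ _ (e.symm.injective.ne n) (by simpa [LD.comp] using c)
  exact ⟨x, hx, fun a => by simpa using hl (e a)⟩

theorem LD.n_comp (D : LD B μ K) {K' : Type} (e : K' ≃ K) (a : K') :
    (D.comp e).n a = D.n (e a) := Nat.card_congr (e.subtypeEquiv fun _ => Iff.rfl)

open Classical in
/-- the indices after `a` in the class of `a` -/
def LD.aft {n : ℕ} (D : LD B μ (Fin n)) (a : Fin n) : Finset (Fin n) :=
  Finset.univ.filter fun b => D.cl a b ∧ a < b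

theorem LD.mem_aft {n : ℕ} (D : LD B μ (Fin n)) {a b : Fin n} :
    b ∈ D.aft a ↔ D.cl a b ∧ a < b := by simp [LD.aft]

theorem LD.aft_lt {n : ℕ} (D : LD B μ (Fin n)) (a : Fin n) : (D.aft a).card < D.n a := by
  classical
  rw [LD.n, Nat.card_eq_fintype_card, Fintype.card_subtype]
  refine Finset.card_lt_card ⟨fun b hb => by simpa using (D.mem_aft.1 hb).1, fun h => ?_⟩
  simpa using (D.mem_aft.1 (h (show a ∈ _ by simpa using D.eqv.refl a))).2

theorem LD.aft_succ {n : ℕ} (D : LD B μ (Fin (n + 1))) (a : Fin n) :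
    D.aft a.succ = ((D.comp Fin.succ).aft a).map (Fin.succEmb n) := by
  ext b
  rcases Fin.eq_zero_or_eq_succ b with rfl | ⟨b, rfl⟩
  · simp [LD.mem_aft]
  · simp [LD.mem_aft, LD.comp]

theorem LD.n_succ {n : ℕ} (D : LD B μ (Fin (n + 1))) (a : Fin n) :
    (D.comp Fin.succ).n a ≤ D.n a.succ :=
  Nat.card_le_card_of_injective (fun b => ⟨b.1.succ, b.2⟩)
    fun _ _ e => Subtype.ext (Fin.succ_injective _ (congrArg Subtype.val e))

/-- the complement of the later lines -/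
def IsLn.res {n : ℕ} {π : C(X, B)} {D : LD B μ (Fin n)} {l : Fin n → Bun X μ 1} (h : IsLn π D l)
    (hn : ∀ a, D.n a ≤ D.r a) (a : Fin n) : Bun X μ (D.r a - (D.aft a).card) :=
  ((D.P a).comap π).sub (Bun.sum (D.aft a) l fun b hb c hc e => h.orth b c e
    (D.eqv.trans (D.eqv.symm (D.mem_aft.1 hb).1) (D.mem_aft.1 hc).1))
    (fun x => by
      rw [Bun.sum_Q, Finset.mul_sum]
      exact Finset.sum_congr rfl fun b hb => by
        rw [Bun.comap_Q, D.eq a b (D.mem_aft.1 hb).1, h.le])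
    (by have := D.aft_lt a; have := hn a; omega)

theorem IsLn.res_Q {n : ℕ} {π : C(X, B)} {D : LD B μ (Fin n)} {l : Fin n → Bun X μ 1}
    (h : IsLn π D l) (hn : ∀ a, D.n a ≤ D.r a) (a : Fin n) (x : X) :
    (h.res hn a).Q x = (D.P a).Q (π x) - ∑ b ∈ D.aft a, (l b).Q x := rfl

/-- one step of the tower -/
theorem IsLn.step [CompactSpace B] [T2Space B] {n : ℕ} {π : C(X, B)} {D : LD B μ (Fin (n + 1))}
    {l : Fin (n + 1) → Bun X μ 1} (h : IsLn π D l) (hn : ∀ a, D.n a ≤ D.r a) :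
    ∃ (p : C(X, Ln (D.comp Fin.succ))) (E : Bun (Ln (D.comp Fin.succ)) μ (D.r 0 - (D.aft 0).card)),
      (Ln.π _).comp p = π ∧ (∀ a, (Ln.l _ a).comap p = l a.succ) ∧ IsPE p E (l 0) ∧
      E.comap p = h.res hn 0 := by
  classical
  let D' := D.comp (Fin.succ (n := n))
  have h' := Ln.isLn D'
  obtain ⟨p, hp, hl⟩ := h'.exists_lift π (fun a => l a.succ) (fun a => h.le _)
    fun a b e => h.orth _ _ ((Fin.succ_injective n).ne e)
  have hp' : ∀ x, Ln.π D' (p x) = π x := fun x => congrArg (· x) hp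
  have hl' : ∀ a x, (Ln.l D' a).Q (p x) = (l a.succ).Q x := fun a x =>
    congrFun (congrArg Bun.Q (hl a)) x
  let S : Finset (Fin n) := Finset.univ.filter fun b => D.cl 0 b.succ
  have hS : D.aft 0 = S.map (Fin.succEmb n) := by
    ext b
    rcases Fin.eq_zero_or_eq_succ b with rfl | ⟨b, rfl⟩
    · simp [LD.mem_aft]
    · simp [LD.mem_aft, S]
  have hS' : ∀ b ∈ S, D.cl 0 b.succ := fun b hb => (Finset.mem_filter.1 hb).2
  have hP : ∀ b ∈ S, ∀ y, (D.P 0).Q (Ln.π D' y) * (Ln.l D' b).Q y = (Ln.l D' b).Q y :=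
    fun b hb y => by rw [D.eq _ _ (hS' b hb)]; exact h'.le b y
  let E : Bun (Ln D') μ (D.r 0 - (D.aft 0).card) := ((D.P 0).comap (Ln.π D')).sub
    (Bun.sum S (Ln.l D') fun b hb c hc e => h'.orth b c e
      (D.eqv.trans (D.eqv.symm (hS' b hb)) (hS' c hc)))
    (fun y => by rw [Bun.sum_Q, Finset.mul_sum]; exact Finset.sum_congr rfl fun b hb => hP b hb y)
    (by have := D.aft_lt 0; have := hn 0; rw [hS, Finset.card_map] at *; omega)
  have hE : ∀ y, E.Q y = (D.P 0).Q (Ln.π D' y) - ∑ b ∈ S, (Ln.l D' b).Q y := fun _ => rfl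
  refine ⟨p, E, hp, hl, ⟨fun x => ?_, fun x x' e e' => ?_, fun y q hq e => ?_⟩, ?_⟩
  · rw [hE, hp', sub_mul, h.le, Finset.sum_mul, Finset.sum_eq_zero fun b hb => by
      rw [hl', h.orth _ _ (Fin.succ_ne_zero b) (D.eqv.symm (hS' b hb))], sub_zero]
  · refine h.inj x x' (by rw [← hp', e, hp']) fun a => ?_
    rcases Fin.eq_zero_or_eq_succ a with rfl | ⟨a, rfl⟩
    exacts [e', by rw [← hl', e, hl']]
  · have h1 : ∀ b ∈ S, (Ln.l D' b).Q y * q = 0 := fun b hb => by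
      rw [← e, hE, ← Matrix.mul_assoc, mul_sub, ((D.P 0).op _).comm ((Ln.l D' b).op y) (hP b hb y),
        Finset.mul_sum, Finset.sum_eq_single_of_mem b hb fun c hc n => h'.orth b c n.symm
          (D.eqv.trans (D.eqv.symm (hS' b hb)) (hS' c hc)) y, ((Ln.l D' b).op y).idem, sub_self,
        Matrix.zero_mul]
    have h2 : (D.P 0).Q (Ln.π D' y) * q = q := by
      rwa [hE, sub_mul, Finset.sum_mul, Finset.sum_eq_zero h1, sub_zero] at e
    obtain ⟨x, hx, hq'⟩ := h.sur (Ln.π D' y) (Fin.cons q fun b => (Ln.l D' b).Q y)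
      (Fin.cases ⟨hq, h2⟩ fun b => ⟨(Ln.l D' b).op y, h'.le b y⟩)
      (Fin.cases (Fin.cases (fun n => (n rfl).elim) fun b _ c => ((Ln.l D' b).op y).comm0 hq
        (h1 b (by simpa [S] using c))) fun a => Fin.cases
          (fun _ c => h1 a (by simpa [S] using D.eqv.symm c))
          fun b n c => h'.orth a b (fun e => n (congrArg _ e)) c y)
    exact ⟨x, h'.inj _ _ (by rw [hp', hx]) fun a => by rw [hl', hq']; rfl, hq' 0⟩
  · refine Bun.ext (funext fun x => ?_)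
    rw [Bun.comap_Q, hE, h.res_Q, hS, Finset.sum_map, hp']
    simp only [hl']
    rfl

end Pool.Agent.CS
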