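import Pool.Agent.P.MP_d34769_ag.YS1

/-! Supports of products, Leray-Hirsch, Kuenneth. -/

open Set
open scoped TensorProduct

noncomputable section
namespace Pool.Agent.CS
variable {X Y B : Type} [TopologicalSpace X] [CompactSpace X] [T2Space X] [TopologicalSpace Y]
  [CompactSpace Y] [T2Space Y] [TopologicalSpace B] [CompactSpace B] [T2Space B] {n k : ℤ}
  {β : Type}

omit [CompactSpace X] [T2Space X] in
theorem ys4_res_mono {K K' : Set X} (h : K ⊆ K') {c : HR X} (hc : HR.res K' c = 0) :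
    HR.res K c = 0 := by
  have := congrArg (HR.pull ⟨inclusion h, continuous_inclusion h⟩) hc
  rwa [HR.pull_pull, map_zero] at this

theorem ys4_res_all {K : Set X} {c : HR X} (hc : HR.res K c = 0) (h : ∀ x, x ∈ K) : c = 0 :=
  (HR.pull_id c).symm.trans (pull_eq_zero_of (.id X) h hc)

theorem ys4_res_mul {K K' : Set X} (hK : IsClosed K) (hK' : IsClosed K') {a b : HR X}
    (ha : HR.res K a = 0) (hb : HR.res K' b = 0) : HR.res (K ∪ K' : Set X) (a * b) = 0 := by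
  obtain ⟨M, -, e⟩ := exists_sum_hp a
  obtain ⟨M', -, e'⟩ := exists_sum_hp b
  rw [e M le_rfl, e' M' le_rfl, Finset.sum_mul_sum, map_sum]
  refine Finset.sum_eq_zero fun p _ => ?_
  rw [map_sum]
  refine Finset.sum_eq_zero fun r _ => ?_
  obtain ⟨x, hx, ex⟩ := exists_rel hK (hp_mem p a) (by rw [← hp_pull, ha, map_zero])
  obtain ⟨y, hy, ey⟩ := exists_rel hK' (hp_mem r b) (by rw [← hp_pull, hb, map_zero])
  have h := mul_mem_Z (CP_Z_CC hx) (CP_Z_CC hy)
  rw [← ex, ← ey, ← cl_mul (Z_Zc (CP_Z_CC hx)) (Z_Zc (CP_Z_CC hy))]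
  exact res_cl_rel (n := p + r) ⟨mem_CP_G.2 ⟨h.1.1, fun t ht => ht.elim
    (fun ht => AS.z_mul_right ((mem_CP_G.1 hx.1).2 t ht) y)
    fun ht => AS.z_mul_left x ((mem_CP_G.1 hy.1).2 t ht)⟩, h.2⟩

theorem supp {A : Set X} (hA : IsClosed A) {a b : HR X} (hb : HR.res A b = 0)
    (ha : ∀ K, IsClosed K → Disjoint K A → HR.res K a = 0) : a * b = 0 ∧ b * a = 0 := by
  obtain ⟨O, hO, hAO, e⟩ := res_nhds hA hb
  obtain ⟨V, hV, hAV, hc⟩ := normal_exists_closure_subset hA hO hAO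
  have h1 := ha Vᶜ hV.isClosed_compl (disjoint_left.2 fun x hx hx' => hx (hAV hx'))
  have h2 := ys4_res_mono hc e
  have u : ∀ x, x ∈ Vᶜ ∨ x ∈ closure V := fun x => (em' (x ∈ V)).imp_right fun h => subset_closure h
  exact ⟨ys4_res_all (ys4_res_mul hV.isClosed_compl isClosed_closure h1 h2) u,
    ys4_res_all (ys4_res_mul isClosed_closure hV.isClosed_compl h2 h1) fun x => (u x).symm⟩

theorem supp_fin {τ : Type} (s : Finset τ) (U : τ → Set X) (hU : ∀ t ∈ s, IsOpen (U t))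
    (hc : ∀ x, ∃ t ∈ s, x ∈ U t) (a : τ → HE X)
    (h : ∀ t ∈ s, ∀ K, IsClosed K → K ⊆ U t → HR.res K (a t).1 = 0) : ∏ t ∈ s, a t = 0 := by
  classical
  have key : ∀ K, IsClosed K → K ⊆ ⋃ t ∈ s, U t → HR.res K (∏ t ∈ s, a t).1 = 0 := by
    clear hc
    induction s using Finset.induction_on with
    | empty =>
      intro K _ hK
      have : IsEmpty K := ⟨fun x => by simpa using hK x.2⟩
      exact (HR.subsingleton (X := K)).elim _ _
    | insert t s ht ih =>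
      intro K hK hs
      rw [Finset.set_biUnion_insert] at hs
      obtain ⟨K₁, K₂, c₁, c₂, s₁, s₂, rfl⟩ := hK.isCompact.binary_compact_cover
        (hU t (Finset.mem_insert_self _ _))
        (isOpen_biUnion fun r hr => hU r (Finset.mem_insert_of_mem hr)) hs
      rw [Finset.prod_insert ht]
      exact ys4_res_mul c₁.isClosed c₂.isClosed (h t (Finset.mem_insert_self _ _) _ c₁.isClosed s₁)
        (ih (fun r hr => hU r (Finset.mem_insert_of_mem hr))
          (fun r hr => h r (Finset.mem_insert_of_mem hr)) _ c₂.isClosed s₂)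
  exact Subtype.ext (ys4_res_all (key univ isClosed_univ fun x _ => by simpa using hc x) mem_univ)

/-- right multiplication by a cocycle -/
theorem mor_mulRight {K A : Set X} {c : AS X} (hc : c ∈ (CP K ∅).Z k) :
    (CP K A).Mor (CP K A) (LinearMap.mulRight ℂ c) k := by
  refine ⟨fun n x hx => mem_CP_G.2 ⟨AS.mul_mem_G hx.1 hc.1.1, fun t ht =>
    AS.z_mul_right ((mem_CP_G.1 hx).2 t ht) c⟩,
    fun n x _ hx => mem_CP_N.2 fun t ht => AS.z_mul_right (mem_CP_N.1 hx t ht) c,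
    fun n x _ => mem_CP_N.2 fun t ht => ?_⟩
  show AS.d x * c - AS.d (x * c) ∈ _
  rw [AS.d_mul, sub_add_cancel_left]
  exact neg_mem (AS.z_mul_left _ ((AS.sc X).mem_zz.1 hc.2 t ht))

theorem mul_mem_B {K A : Set X} {a c : AS X} (ha : a ∈ (CP K A).Z n) (hc : c ∈ (CP K ∅).G k)
    (h : c ∈ (CP K ∅).B k) : a * c ∈ (CP K A).B (n + k) := by
  rcases lt_or_ge n 0 with hn | hn
  · rw [AS.G_neg hn ha.1.1, zero_mul]; exact zero_mem _
  lift n to ℕ using hn
  obtain ⟨b, hb, e⟩ := Cx.mem_B.1 h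
  refine Cx.mem_B.2 ⟨(-1 : ℂ) ^ n • (a * b), Submodule.smul_mem _ _ (mem_CP_G.2 ⟨?_, fun t ht =>
    AS.z_mul_right ((mem_CP_G.1 ha.1).2 t ht) b⟩), mem_CP_N.2 fun t ht => ?_⟩
  · rw [add_sub_assoc]; exact AS.mul_mem_G ha.1.1 hb.1
  · refine Cx.meq (sub_mem (AS.z_mul_left a (mem_CP_N.1 e t ht)) (Submodule.smul_mem _ ((-1 : ℂ) ^ n)
      (AS.z_mul_right ((AS.sc X).mem_zz.1 ha.2 t ht) b))) ?_
    show a * (c - AS.d b) - (-1 : ℂ) ^ n • (AS.d a * b) = a * c - AS.d ((-1 : ℂ) ^ n • (a * b))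
    rw [map_smul, AS.d_mul, AS.s_of_G ha.1.1, smul_mul_assoc, smul_add, smul_smul, ← mul_pow,
      neg_mul_neg, one_mul, one_pow, one_smul, mul_sub]
    abel

/-- the homogeneous classes `v b` of degrees `q b` are independent in degrees `≤ n` and span in
degrees `< n` -/
def BasTo {F : Type} [TopologicalSpace F] (n : ℤ) (q : β → ℕ) (v : β → HR F) : Prop :=
  (∀ k ≤ n, LinearIndependent ℂ fun b : {b // (q b : ℤ) = k} => v b) ∧
    ∀ k < n, hr F k ≤ Submodule.span ℂ (v '' {b | (q b : ℤ) = k})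

theorem basTo_of {F : Type} [TopologicalSpace F] {q : β → ℕ} {v : β → HR F}
    (hv : ∀ b, v b ∈ hr F (q b)) (h : LinearIndependent ℂ v) (h' : Submodule.span ℂ (range v) = ⊤)
    (n : ℤ) : BasTo n q v := by
  refine ⟨fun k _ => h.comp _ Subtype.val_injective, fun k _ c hc => ?_⟩
  rcases lt_or_ge k 0 with hk | hk
  · rw [hr_neg hk] at hc; exact (Submodule.mem_bot ℂ).1 hc ▸ zero_mem _
  lift k to ℕ using hk
  rw [← mem_hr_nat.1 hc]
  have : c ∈ Submodule.span ℂ (range v) := h' ▸ Submodule.mem_top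
  clear hc
  induction this using Submodule.span_induction with
  | mem x hx =>
    obtain ⟨b, rfl⟩ := hx
    by_cases e : q b = k
    · rw [← e, mem_hr_nat.1 (hv b)]
      exact Submodule.subset_span ⟨b, rfl, rfl⟩
    · rw [mem_hr.1 (hv b) k (by omega)]; exact zero_mem _
  | zero => rw [map_zero]; exact zero_mem _
  | add x y _ _ hx hy => rw [map_add]; exact add_mem hx hy
  | smul r x _ hx => rw [map_smul]; exact Submodule.smul_mem _ _ hx

theorem BasTo.pull {F F' : Type} [TopologicalSpace F] [TopologicalSpace F'] (e : F ≃ₜ F')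
    {q : β → ℕ} {v : β → HR F'} :
    BasTo n q (fun b => HR.pull (e : C(F, F')) (v b)) ↔ BasTo n q v := by
  have hi := (HR.pull_bij e).1
  have hs : ∀ s : Set β, Submodule.span ℂ ((fun b => HR.pull (e : C(F, F')) (v b)) '' s) =
      (Submodule.span ℂ (v '' s)).map (HR.pull (e : C(F, F'))).toLinearMap := fun s => by
    rw [Submodule.map_span, image_image]; rfl
  refine and_congr (forall₂_congr fun k _ => LinearMap.linearIndependent_iff
    (HR.pull (e : C(F, F'))).toLinearMap (LinearMap.ker_eq_bot.2 hi))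
    (forall₂_congr fun k _ => ?_)
  rw [hs]
  refine ⟨fun h c hc => ?_, fun h c hc => ⟨_, h (pull_mem_hr (e.symm : C(F', F)) hc), ?_⟩⟩
  · obtain ⟨y, hy, e'⟩ := h (pull_mem_hr (e : C(F, F')) hc)
    exact hi e' ▸ hy
  · show HR.pull _ (HR.pull _ c) = c
    rw [HR.pull_pull, Homeomorph.symm_comp_toContinuousMap, HR.pull_id]

theorem exists_basis (F : Type) [TopologicalSpace F] : ∃ (β : Type) (q : β → ℕ) (v : β → HR F),
    (∀ b, v b ∈ hr F (q b)) ∧ LinearIndependent ℂ v ∧ Submodule.span ℂ (range v) = ⊤ := by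
  obtain ⟨b, hb, e, h⟩ := exists_linearIndependent ℂ {c : HR F | ∃ p : ℕ, c ∈ hr F p}
  choose q hq using fun x : b => hb x.2
  refine ⟨b, q, Subtype.val, hq, h, ?_⟩
  rw [Subtype.range_val, e, eq_top_iff]
  rintro c -
  exact hr_induction (P := fun c => c ∈ Submodule.span ℂ {c : HR F | ∃ p : ℕ, c ∈ hr F p})
    (zero_mem _) (fun _ _ => add_mem) (fun p a ha => Submodule.subset_span ⟨p, ha⟩) c

section fs
variable {T : Type} [AddCommGroup T] [Module ℂ T] {S : SC B T} {q : β → ℕ} {K A : Set B}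
  {u : β →₀ T}

omit [CompactSpace B] [T2Space B]

theorem SC.ys4_fs_zz : u ∈ (S.fs β q).zz K ↔ ∀ b, u b ∈ S.zz K := by
  simp only [SC.mem_zz]
  exact ⟨fun h b t ht => (Submodule.mem_iInf _).1 (h t ht) b,
    fun h t ht => (Submodule.mem_iInf _).2 fun b => h b t ht⟩

theorem SC.mem_fs_G : u ∈ ((S.fs β q).cx K A).G n ↔ ∀ b, u b ∈ (S.cx K A).G (n - q b) := by
  refine ⟨fun h b => ⟨(Submodule.mem_iInf _).1 h.1 b, (SC.ys4_fs_zz.1 h.2 b :)⟩,
    fun h => ⟨(Submodule.mem_iInf _).2 fun b => (h b).1, SC.ys4_fs_zz.2 fun b => (h b).2⟩⟩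

theorem SC.mem_fs_N : u ∈ ((S.fs β q).cx K A).N ↔ ∀ b, u b ∈ (S.cx K A).N := SC.ys4_fs_zz

theorem SC.mem_fs_Z : u ∈ ((S.fs β q).cx K A).Z n ↔ ∀ b, u b ∈ (S.cx K A).Z (n - q b) :=
  (and_congr SC.mem_fs_G (SC.mem_fs_N (A := A))).trans forall_and.symm

theorem SC.mem_fs_B : u ∈ ((S.fs β q).cx K A).B n ↔ ∀ b, u b ∈ (S.cx K A).B (n - q b) := by
  refine ⟨fun h b => ?_, fun h => ?_⟩
  · obtain ⟨w, hw, e⟩ := Cx.mem_B.1 h
    exact Cx.mem_B.2 ⟨w b, Cx.Gcast (SC.mem_fs_G.1 hw b) (by ring), SC.mem_fs_N.1 e b⟩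
  · have : ∀ b, ∃ w ∈ (S.cx K A).G (n - 1 - q b), u b - S.d w ∈ (S.cx K A).N ∧
        (w ≠ 0 → b ∈ u.support) := fun b => by
      by_cases hb : b ∈ u.support
      · obtain ⟨w, hw, e⟩ := Cx.mem_B.1 (h b)
        exact ⟨w, Cx.Gcast hw (by ring), e, fun _ => hb⟩
      · exact ⟨0, zero_mem _, by simp [Finsupp.notMem_support_iff.1 hb], fun e => (e rfl).elim⟩
    choose w hw e hs using this
    exact Cx.mem_B.2 ⟨Finsupp.onFinset u.support w hs, SC.mem_fs_G.2 hw, SC.mem_fs_N.2 e⟩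

end fs

/-- the Leray-Hirsch map -/
def lh (π : C(X, B)) (c : β → AS X) : (β →₀ AS B) →ₗ[ℂ] AS X :=
  Finsupp.lsum ℂ fun b => LinearMap.mulRight ℂ (c b) ∘ₗ AS.pl π

theorem lh_apply (π : C(X, B)) (c : β → AS X) (u : β →₀ AS B) :
    lh π c u = u.sum fun b a => AS.pull π a * c b := rfl

section
variable (π : C(X, B)) {q : β → ℕ}

theorem lh_mor {c : β → AS X} (hc : ∀ b, c b ∈ (CC X).Z (q b)) :
    ((AS.sc B).fs β q).Mor ((AS.sc X).push π) (lh π c) 0 := by
  refine ⟨fun n u hu => Submodule.sum_mem _ fun b _ => ?_,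
    fun t u hu => (AS.sc X).mem_zz.2 fun x hx => Submodule.sum_mem _ fun b _ => ?_,
    fun t u => (AS.sc X).mem_zz.2 fun x _ => ?_⟩
  · have := AS.mul_mem_G (AS.pull_mem_G π ((Submodule.mem_iInf _).1 hu b)) (hc b).1.1
    rwa [sub_add_cancel, ← add_zero n] at this
  · obtain rfl : π x = t := hx
    exact AS.z_mul_right (AS.z_pull π.continuous.continuousAt ((Submodule.mem_iInf _).1 hu b)) _
  · show lh π c (u.mapRange AS.d (map_zero _)) - AS.d (lh π c u) ∈ AS.z x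
    rw [lh_apply, lh_apply, Finsupp.sum_mapRange_index (by simp), map_finsuppSum,
      ← Finsupp.sum_sub]
    refine Submodule.sum_mem _ fun b _ => ?_
    beta_reduce
    rw [AS.d_mul, AS.pull_d, sub_add_cancel_left]
    exact neg_mem (AS.z_mul_left _ ((AS.sc X).mem_zz.1 (hc b).2 x trivial))

/-- constant cochains -/
def ys4_cst (β B : Type) : (β →₀ ℂ) →ₗ[ℂ] β →₀ AS B :=
  Finsupp.mapRange.linearMap (LinearMap.toSpanSingleton ℂ (AS B) 1)

omit [CompactSpace X] [T2Space X] [CompactSpace B] [T2Space B] in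
theorem ys4_lh_cst (c : β → AS X) (l : β →₀ ℂ) :
    lh π c (ys4_cst β B l) = Finsupp.linearCombination ℂ c l := by
  induction l using Finsupp.induction_linear with
  | zero => rw [map_zero, map_zero, map_zero]
  | add f g hf hg => rw [map_add, map_add, map_add, hf, hg]
  | single b r => simp [lh, ys4_cst]

theorem ys4_cst_Z {K : Set B} {l : β →₀ ℂ} (hl : l ∈ Finsupp.supported ℂ ℂ {b | (q b : ℤ) = k}) :
    ys4_cst β B l ∈ (((AS.sc B).fs β q).cx K ∅).Z k := by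
  refine SC.mem_fs_Z.2 fun b => ?_
  show l b • (1 : AS B) ∈ (CP K ∅).Z _
  by_cases e : (q b : ℤ) = k
  · rw [← e, sub_self]
    refine Submodule.smul_mem _ _ ⟨mem_CP_G.2 ⟨AS.one_mem_G, fun _ h => h.elim⟩, ?_⟩
    exact Cx.meq (U := (CP K ∅).N) (zero_mem _) AS.d_one.symm
  · rw [(Finsupp.mem_supported' ℂ l).1 hl b e, zero_smul]; exact zero_mem _

theorem ys4_stalk {t : B} {u : β →₀ AS B} (hu : u ∈ (((AS.sc B).fs β q).cx {t} ∅).Z k) :
    ∃ l ∈ Finsupp.supported ℂ ℂ {b | (q b : ℤ) = k},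
      u - ys4_cst β B l ∈ (((AS.sc B).fs β q).cx {t} ∅).B k := by
  have h := SC.mem_fs_Z.1 hu
  have h0 : ∀ b, (q b : ℤ) ≠ k → (u b).1 [t] = 0 := fun b e =>
    AS.mem_G.1 (h b).1.1 [t] (by simp; omega)
  refine ⟨u.mapRange (fun a : AS B => a.1 [t]) rfl, (Finsupp.mem_supported' ℂ _).2 h0,
    SC.mem_fs_B.2 fun b => ?_⟩
  show u b - (u b).1 [t] • (1 : AS B) ∈ (CP {t} ∅).B _
  by_cases e : (q b : ℤ) = k
  · refine Cx.N_le_B (mem_CP_N.2 fun x hx => ?_)
    obtain rfl : x = t := hx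
    exact stalk_zero x (Cx.Zcast (h b) (by omega))
  · rw [h0 b e, zero_smul, sub_zero]
    exact stalk_ac t (by omega) (h b)

theorem ys4_lc_Z {c : β → AS X} (hc : ∀ b, c b ∈ (CC X).Z (q b)) {l : β →₀ ℂ}
    (hl : l ∈ Finsupp.supported ℂ ℂ {b | (q b : ℤ) = k}) :
    Finsupp.linearCombination ℂ c l ∈ (CC X).Z k :=
  Submodule.sum_mem _ fun b hb => Submodule.smul_mem _ _ (Cx.Zcast (hc b) (hl hb))

theorem ys4_res_lc {c : β → AS X} (hc : ∀ b, c b ∈ (CC X).Z (q b)) (F : Set X) (l : β →₀ ℂ) :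
    HR.res F (cl (Finsupp.linearCombination ℂ c l)) =
      Finsupp.linearCombination ℂ (fun b => HR.res F (cl (c b))) l := by
  rw [Finsupp.linearCombination_apply, Finsupp.linearCombination_apply, Finsupp.sum, Finsupp.sum,
    cl_sum _ fun b _ => (Zc X).smul_mem (Z_Zc (hc b)) _, map_sum]
  exact Finset.sum_congr rfl fun b _ => by rw [cl_smul, map_smul]

theorem ys4_cl_lh {c : β → AS X} (hc : ∀ b, c b ∈ (CC X).Z (q b)) {u : β →₀ AS B}
    (hu : u ∈ (((AS.sc B).fs β q).cx univ ∅).Z k) : lh π c u ∈ (CC X).Z k ∧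
      cl (lh π c u) = (u.mapRange cl cl_zero).sum fun b a => HR.pull π a * cl (c b) := by
  have h : ∀ b, AS.pull π (u b) ∈ (CC X).Z (k - q b) := fun b => Cx.Zcast
    ((mor_pl π (mapsTo_univ _ univ) (mapsTo_empty _ _)).mem_Z (SC.mem_fs_Z.1 hu b)) (add_zero _)
  have h' := fun b => Cx.Zcast (mul_mem_Z (h b) (hc b)) (sub_add_cancel _ _)
  refine ⟨Submodule.sum_mem _ fun b _ => h' b, ?_⟩
  rw [Finsupp.sum_mapRange_index (by simp), lh_apply, Finsupp.sum, Finsupp.sum,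
    cl_sum _ fun b _ => Z_Zc (h' b)]
  exact Finset.sum_congr rfl fun b _ => by
    rw [pull_cl π (Z_Zc (SC.mem_fs_Z.1 hu b)), ← cl_mul (Z_Zc (h b)) (Z_Zc (hc b))]

theorem lh_qi {c : β → AS X} (hc : ∀ b, c b ∈ (CC X).Z (q b)) {K A : Set B} (hK : IsClosed K)
    (hA : IsClosed A) (h : ∀ t ∈ K \ A, BasTo n q fun b => HR.res (π ⁻¹' {t}) (cl (c b))) :
    (((AS.sc B).fs β q).cx K A).QI (CP (π ⁻¹' K) (π ⁻¹' A)) (lh π c) 0 n := by
  rw [CP, ← SC.push_cx]
  refine SC.soft_qi (lh_mor π hc) hK hA fun t ht => ?_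
  have hm := (lh_mor π hc).cx {t} ∅
  rw [SC.push_cx] at hm ⊢
  have hF : IsClosed (π ⁻¹' {t}) := isClosed_singleton.preimage π.continuous
  refine ⟨fun k hk u hu e => ?_, fun k hk y hy => ?_⟩
  · obtain ⟨l, hl, e'⟩ := ys4_stalk hu
    have h1 := sub_mem e (hm.mem_B (sub_mem hu (ys4_cst_Z hl)).1 e')
    rw [map_sub, sub_sub_cancel, add_zero, ys4_lh_cst] at h1
    have h2 := (res_cl_eq_zero hF (ys4_lc_Z hc hl)).2 h1
    rw [ys4_res_lc hc] at h2
    have h3 : LinearIndepOn ℂ (fun b => HR.res (π ⁻¹' {t}) (cl (c b))) {b | (q b : ℤ) = k} :=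
      (h t ht).1 k hk
    obtain rfl := linearIndepOn_iff.1 h3 l hl h2
    rwa [map_zero, sub_zero] at e'
  · rw [add_zero] at hy ⊢
    obtain ⟨l, hl, e⟩ := (Finsupp.mem_span_image_iff_linearCombination ℂ).1
      ((h t ht).2 k hk (cl_res_mem hy).2)
    have h1 := Cx.Zcast (hm.mem_Z (ys4_cst_Z hl)) (add_zero k)
    refine ⟨_, ys4_cst_Z hl, (cl_res_eq_zero hF (sub_mem hy h1)).1 ?_⟩
    rw [map_sub, cl_sub (cl_res_mem hy).1 (cl_res_mem h1).1, ← e, ← ys4_res_lc hc, ys4_lh_cst,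
      pull_cl _ (Z_Zc (ys4_lc_Z hc hl))]
    exact sub_self _

variable {v : β → HR X} (hv : ∀ b, v b ∈ hr X (q b))
include hv

theorem lh_inj (h : ∀ t, BasTo n q fun b => HR.res (π ⁻¹' {t}) (v b)) (hk : k ≤ n)
    {u : β →₀ HR B} (hu : ∀ b, u b ∈ hr B (k - q b))
    (e : (u.sum fun b a => HR.pull π a * v b) = 0) : u = 0 := by
  choose c hc ec using fun b => exists_cl (hv b)
  obtain rfl : v = fun b => cl (c b) := (funext ec).symm
  have : ∀ b, ∃ a ∈ (CC B).Z (k - q b), cl a = u b ∧ (a ≠ 0 → b ∈ u.support) := fun b => by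
    by_cases hb : b ∈ u.support
    · obtain ⟨a, ha, e⟩ := exists_cl (hu b)
      exact ⟨a, ha, e, fun _ => hb⟩
    · exact ⟨0, zero_mem _, by rw [cl_zero, Finsupp.notMem_support_iff.1 hb], fun e => (e rfl).elim⟩
  choose w hw ew hs using this
  have h1 : Finsupp.onFinset u.support w hs ∈ (((AS.sc B).fs β q).cx univ ∅).Z k := SC.mem_fs_Z.2 hw
  obtain ⟨h2, h3⟩ := ys4_cl_lh π hc h1
  rw [show (Finsupp.onFinset u.support w hs).mapRange cl cl_zero = u from Finsupp.ext ew, e] at h3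
  have h4 := (lh_qi π hc isClosed_univ isClosed_empty fun t _ => h t).1 k hk _ h1
    (Cx.Bcast ((cl_eq_zero h2).1 h3) (add_zero k).symm)
  exact Finsupp.ext fun b => (ew b).symm.trans ((cl_eq_zero (hw b)).2 (SC.mem_fs_B.1 h4 b))

theorem lh_sur (h : ∀ t, BasTo n q fun b => HR.res (π ⁻¹' {t}) (v b)) (hk : k < n) {c : HR X}
    (hc : c ∈ hr X k) : ∃ u : β →₀ HR B, (∀ b, u b ∈ hr B (k - q b)) ∧
      c = u.sum fun b a => HR.pull π a * v b := by
  choose w hw ew using fun b => exists_cl (hv b)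
  obtain rfl : v = fun b => cl (w b) := (funext ew).symm
  obtain ⟨y, hy, rfl⟩ := exists_cl hc
  obtain ⟨u, hu, e⟩ := (lh_qi π hw isClosed_univ isClosed_empty fun t _ => h t).2 k hk y
    (Cx.Zcast hy (add_zero k).symm)
  obtain ⟨h2, h3⟩ := ys4_cl_lh π hw hu
  exact ⟨_, fun b => cl_mem_hr (SC.mem_fs_Z.1 hu b),
    ((cl_eq hy h2).2 (Cx.Bcast e (add_zero k))).trans h3⟩

theorem lh_inja (h : ∀ t n, BasTo n q fun b => HR.res (π ⁻¹' {t}) (v b)) {u : β →₀ HR B}
    (e : (u.sum fun b a => HR.pull π a * v b) = 0) : u = 0 := by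
  refine Finsupp.ext fun b₀ => hp_ext fun p => ?_
  let w : β → HR B := fun b => if q b ≤ p + q b₀ then hp B (p + q b₀ - q b) (u b) else 0
  have hs : ∀ b, w b ≠ 0 → b ∈ u.support := fun b hb => Finsupp.mem_support_iff.2 fun e =>
    hb (by simp [w, e])
  have h0 : Finsupp.onFinset u.support w hs = 0 := by
    refine lh_inj π hv (fun t => h t ((p + q b₀ : ℕ) : ℤ)) le_rfl (fun b => ?_) ?_
    · show w b ∈ _
      simp only [w]
      split_ifs with e
      · rw [← Nat.cast_sub e]; exact hp_mem _ _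
      · exact zero_mem _
    · rw [Finsupp.onFinset_sum hs (by simp), ← (hp X (p + q b₀)).map_zero, ← e, map_finsuppSum]
      refine Finset.sum_congr rfl fun b _ => ?_
      simp only [w]
      split_ifs with e
      · rw [← hp_pull, ← hp_mul_right _ (hv b), Nat.sub_add_cancel e]
      · rw [map_zero, zero_mul, (hp_mul_lt (hv b) _ (not_le.1 e)).2]
  simpa [w] using DFunLike.congr_fun h0 b₀

theorem lh_sura (h : ∀ t n, BasTo n q fun b => HR.res (π ⁻¹' {t}) (v b)) (c : HR X) :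
    ∃ u : β →₀ HR B, c = u.sum fun b a => HR.pull π a * v b := by
  refine hr_induction (P := fun c => ∃ u : β →₀ HR B, c = u.sum fun b a => HR.pull π a * v b)
    ⟨0, rfl⟩ ?_ (fun p a ha => ?_) c
  · rintro _ _ ⟨u, rfl⟩ ⟨u', rfl⟩
    exact ⟨u + u', (Finsupp.sum_add_index' (by simp) (by simp [add_mul])).symm⟩
  · exact (lh_sur π hv (fun t => h t (p + 1)) (lt_add_one _) ha).imp fun _ h => h.2

end

/-- the cross product -/
def crs (X Y : Type) [TopologicalSpace X] [TopologicalSpace Y] :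
    HR X ⊗[ℂ] HR Y →ₗ[ℂ] HR (X × Y) :=
  TensorProduct.lift ((LinearMap.mul ℂ (HR (X × Y))).compl₁₂
    (HR.pull ContinuousMap.fst).toLinearMap (HR.pull ContinuousMap.snd).toLinearMap)

omit [CompactSpace X] [T2Space X] [CompactSpace Y] [T2Space Y] in
theorem crs_tmul (a : HR X) (b : HR Y) :
    crs X Y (a ⊗ₜ b) = HR.pull ContinuousMap.fst a * HR.pull ContinuousMap.snd b := rfl

/-- Kuenneth -/
theorem crs_bij : Function.Bijective (crs X Y) := by
  obtain ⟨β, q, v, hv, h, h'⟩ := exists_basis Y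
  have hb : ∀ (t : X) n, BasTo n q fun b => HR.res ((ContinuousMap.fst : C(X × Y, X)) ⁻¹' {t})
      (HR.pull ContinuousMap.snd (v b)) := fun t n => by
    let e : ((ContinuousMap.fst : C(X × Y, X)) ⁻¹' {t} : Set (X × Y)) ≃ₜ Y :=
      { toFun := fun z => z.1.2
        invFun := fun y => ⟨(t, y), rfl⟩
        left_inv := fun z => Subtype.ext (Prod.ext z.2.symm rfl)
        right_inv := fun _ => rfl
        continuous_toFun := by fun_prop
        continuous_invFun := by fun_prop }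
    simp only [HR.pull_pull]
    exact (BasTo.pull e).2 (basTo_of hv h h' n)
  have hw := fun b => pull_mem_hr (ContinuousMap.snd : C(X × Y, Y)) (hv b)
  have e : ∀ u : β →₀ HR X, crs X Y (u.sum fun b a => a ⊗ₜ Module.Basis.mk h h'.ge b) =
      u.sum fun b a => HR.pull ContinuousMap.fst a * HR.pull ContinuousMap.snd (v b) := fun u => by
    simp only [map_finsuppSum, crs_tmul, Module.Basis.mk_apply]
  refine ⟨(injective_iff_map_eq_zero _).2 fun x hx => ?_, fun c => ?_⟩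
  · obtain ⟨u, rfl⟩ := TensorProduct.eq_repr_basis_right (Module.Basis.mk h h'.ge) x
    rw [e] at hx
    rw [lh_inja _ hw hb hx, Finsupp.sum_zero_index]
  · obtain ⟨u, rfl⟩ := lh_sura _ hw hb c
    exact ⟨_, e u⟩

theorem slant (s : Finset β) (u : β → HR X) (v : β → HR Y) (l : HR Y →ₗ[ℂ] ℂ)
    (h : ∑ b ∈ s, HR.pull ContinuousMap.fst (u b) * HR.pull ContinuousMap.snd (v b) = 0) :
    ∑ b ∈ s, l (v b) • u b = 0 := by
  have : ∑ b ∈ s, u b ⊗ₜ[ℂ] v b = 0 := crs_bij.1 (by rw [map_sum, map_zero]; exact h)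
  simpa using congrArg (TensorProduct.rid ℂ _ ∘ l.lTensor (HR X)) this

theorem slant' (s : Finset β) (u : β → HR X) (v : β → HR Y) (l : HR X →ₗ[ℂ] ℂ)
    (h : ∑ b ∈ s, HR.pull ContinuousMap.fst (u b) * HR.pull ContinuousMap.snd (v b) = 0) :
    ∑ b ∈ s, l (u b) • v b = 0 := by
  have : ∑ b ∈ s, u b ⊗ₜ[ℂ] v b = 0 := crs_bij.1 (by rw [map_sum, map_zero]; exact h)
  simpa using congrArg (TensorProduct.lid ℂ _ ∘ l.rTensor (HR Y)) this

theorem cross_ne_zero {a : HR X} {b : HR Y} (ha : a ≠ 0) (hb : b ≠ 0) :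
    HR.pull ContinuousMap.fst a * HR.pull (ContinuousMap.snd : C(X × Y, Y)) b ≠ 0 := fun h =>
  hb ((Module.forall_dual_apply_eq_zero_iff ℂ b).1 fun l => by
    simpa [ha] using slant {()} (fun _ => a) (fun _ => b) l (by simpa using h))

end Pool.Agent.CS
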