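import Pool.Agent.P.MP_d34769_ag.YBP

/-! Projective bundles, the Chern polynomial and the Whitney formula. -/

open Matrix Set Polynomial

noncomputable section
namespace Pool.Agent.CS

variable {μ ν μ' K K' : Type} [Fintype μ] [Fintype ν] [Fintype μ'] {X Y Z B : Type}
  [TopologicalSpace X] [TopologicalSpace Y] [TopologicalSpace Z] [TopologicalSpace B] {r s k : ℕ}

theorem HE.pull_pull (g : C(X, Y)) (h : C(Y, Z)) (c : HE Z) :
    HE.pull g (HE.pull h c) = HE.pull (h.comp g) c := Subtype.ext (HR.pull_pull g h c.1)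

theorem HE.pull_id (c : HE X) : HE.pull (.id X) c = c := Subtype.ext (HR.pull_id c.1)

/-- the value at `x` of a polynomial whose coefficients are pulled back along `f` -/
def pev (f : C(Y, B)) (x : HE Y) : (HE B)[X] →+* HE Y := eval₂RingHom (HE.pull f : HE B →+* HE Y) x

@[simp] theorem pev_C (f : C(Y, B)) (x : HE Y) (a : HE B) : pev f x (C a) = HE.pull f a := by
  simp [pev]

@[simp] theorem pev_X (f : C(Y, B)) (x : HE Y) : pev f x Polynomial.X = x := by simp [pev]

theorem pull_pev (F : C(X, Y)) (f : C(Y, B)) (x : HE Y) (p : (HE B)[X]) :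
    HE.pull F (pev f x p) = pev (f.comp F) (HE.pull F x) p := by
  induction p using Polynomial.induction_on' with
  | add p q hp hq => rw [map_add, map_add, map_add, hp, hq]
  | monomial n a =>
    rw [← C_mul_X_pow_eq_monomial]
    simp only [map_mul, map_pow, pev_C, pev_X, HE.pull_pull]

theorem pev_map (f : C(X, Y)) (h : C(Y, B)) (x : HE X) (p : (HE B)[X]) :
    pev f x (p.map (HE.pull h : HE B →+* HE Y)) = pev (h.comp f) x p := by
  induction p using Polynomial.induction_on' with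
  | add p q hp hq => rw [Polynomial.map_add, map_add, map_add, hp, hq]
  | monomial n a =>
    rw [Polynomial.map_monomial, ← C_mul_X_pow_eq_monomial, ← C_mul_X_pow_eq_monomial]
    simp only [map_mul, map_pow, pev_C, pev_X, RingHom.coe_coe, HE.pull_pull]

theorem pev_eq (f : C(Y, B)) (x : HE Y) (p : (HE B)[X]) :
    pev f x p = (p.map (HE.pull f : HE B →+* HE Y)).eval x := by
  rw [eval_map]; rfl

theorem pev_zero (p : (HE B)[X]) : pev (.id B) 0 p = p.coeff 0 := by
  rw [pev, coe_eval₂RingHom, eval₂_at_zero, RingHom.coe_coe, HE.pull_id]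

theorem pev_sum (f : C(Y, B)) (x : HE Y) {p : (HE B)[X]} (h : p.natDegree < r) :
    (pev f x p).1 = ∑ j : Fin r, HR.pull f (p.coeff j).1 * (x ^ j.1).1 := by
  rw [pev, coe_eval₂RingHom, eval₂_eq_sum_range' _ h, Finset.sum_range, AddSubmonoidClass.coe_finsetSum]
  rfl

/-- the coefficient of degree `r` is one and there is nothing above -/
def Mo {R : Type} [CommRing R] (r : ℕ) (p : R[X]) : Prop := p.natDegree ≤ r ∧ p.coeff r = 1

section
variable {R R' : Type} [CommRing R] [CommRing R'] {p q : R[X]}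

theorem Mo.mul (h : Mo r p) (h' : Mo s q) : Mo (r + s) (p * q) :=
  ⟨natDegree_mul_le.trans (add_le_add h.1 h'.1),
    by rw [coeff_mul_add_eq_of_natDegree_le h.1 h'.1, h.2, h'.2, one_mul]⟩

theorem Mo.monic (h : Mo r p) : p.Monic := monic_of_natDegree_le_of_coeff_eq_one r h.1 h.2

theorem Mo.map (h : Mo r p) (f : R →+* R') : Mo r (p.map f) :=
  ⟨natDegree_map_le.trans h.1, by rw [coeff_map, h.2, map_one]⟩

theorem mo_one : Mo 0 (1 : R[X]) := ⟨by simp, by simp⟩

theorem mo_X_sub_C (a : R) : Mo 1 (Polynomial.X - C a) := ⟨natDegree_X_sub_C_le a, by simp⟩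

theorem mo_X_pow (r : ℕ) : Mo r (Polynomial.X ^ r : R[X]) := ⟨natDegree_X_pow_le r, by simp⟩

theorem mo_prod (S : Finset K) (a : K → R) : Mo S.card (∏ t ∈ S, (Polynomial.X - C (a t))) := by
  classical
  induction S using Finset.induction_on with
  | empty => exact mo_one
  | insert t S ht ih =>
    rw [Finset.prod_insert ht, Finset.card_insert_of_notMem ht, add_comm]
    exact (mo_X_sub_C _).mul ih

theorem Mo.sub (h : Mo r p) (h' : Mo r q) : (p - q).degree < r :=
  (degree_lt_iff_coeff_zero _ _).2 fun m hm => by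
    rw [coeff_sub]
    rcases hm.eq_or_lt with rfl | hm
    · rw [h.2, h'.2, sub_self]
    · rw [coeff_eq_zero_of_natDegree_lt (h.1.trans_lt hm),
        coeff_eq_zero_of_natDegree_lt (h'.1.trans_lt hm), sub_self]

end

section PB
variable [CompactSpace X] [T2Space X] [CompactSpace B] [T2Space B] {π : C(X, B)} {E : Bun B μ r}
  {L : Bun X μ 1}

theorem IsPE.inj' (h : IsPE π E L) {u : Fin r → HR B}
    (e : ∑ j, HR.pull π (u j) * (L.x ^ j.1).1 = 0) : u = 0 := by
  have := lh_inja π (q := fun j : Fin r => 2 * j.1) (fun j => L.x_pow_mem j) h.basTo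
    (u := Finsupp.equivFunOnFinite.symm u) (by rw [Finsupp.sum_fintype _ _ (by simp)]; exact e)
  exact funext fun j => congrArg (· j) this

theorem IsPE.sur' (h : IsPE π E L) {n : ℤ} {c : HR X} (hc : c ∈ hr X n) :
    ∃ u : Fin r → HR B, (∀ j, u j ∈ hr B (n - (2 * j.1 : ℕ))) ∧
      c = ∑ j, HR.pull π (u j) * (L.x ^ j.1).1 := by
  obtain ⟨u, hu, e⟩ := lh_sur π (q := fun j : Fin r => 2 * j.1) (fun j => L.x_pow_mem j)
    (fun t => h.basTo t (n + 1)) (lt_add_one n) hc
  exact ⟨u, hu, by rwa [Finsupp.sum_fintype _ _ (by simp)] at e⟩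

theorem IsPE.sura (h : IsPE π E L) (c : HR X) :
    ∃ u : Fin r → HR B, c = ∑ j, HR.pull π (u j) * (L.x ^ j.1).1 := by
  obtain ⟨u, e⟩ := lh_sura π (q := fun j : Fin r => 2 * j.1) (fun j => L.x_pow_mem j) h.basTo c
  exact ⟨u, by rwa [Finsupp.sum_fintype _ _ (by simp)] at e⟩

theorem IsPE.pev_inj (h : IsPE π E L) {p : (HE B)[X]} (hp : p.degree < r)
    (e : pev π L.x p = 0) : p = 0 := by
  by_contra h0
  have hn := (natDegree_lt_iff_degree_lt h0).2 hp
  have := h.inj' (u := fun j => (p.coeff j).1) (by rw [← pev_sum π L.x hn, e]; rfl)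
  exact h0 (leadingCoeff_eq_zero.1 (Subtype.ext (congrFun this ⟨_, hn⟩)))

theorem Bun.exists_g (E : Bun B μ r) : ∃ g : (HE B)[X], Mo r g ∧
    (∀ j : ℕ, (g.coeff j).1 ∈ hr B (2 * r - 2 * j)) ∧ pev (Ln.π E.ld) (Ln.l E.ld ()).x g = 0 := by
  obtain ⟨u, hu, e⟩ := E.isPE.sur' ((Ln.l E.ld ()).x_pow_mem r)
  let w : Fin r → HE B := fun j => ⟨u j, hr_le_HE (hu j) ⟨r - j, by push_cast; ring⟩⟩
  have hc : ∀ m, (∑ j : Fin r, C (w j) * Polynomial.X ^ j.1).coeff m =
      if h : m < r then w ⟨m, h⟩ else 0 := fun m => by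
    rw [finsetSum_coeff]
    simp only [coeff_C_mul_X_pow]
    split_ifs with h
    · rw [Finset.sum_eq_single ⟨m, h⟩ (fun j _ n => if_neg fun e => n (Fin.ext e.symm)) (by simp),
        if_pos rfl]
    · exact Finset.sum_eq_zero fun j _ => if_neg fun e : m = j.1 => h (e ▸ j.2)
  refine ⟨Polynomial.X ^ r - ∑ j : Fin r, C (w j) * Polynomial.X ^ j.1, ⟨?_, ?_⟩, fun j => ?_, ?_⟩
  · exact natDegree_le_iff_coeff_eq_zero.2 fun m hm => by
      rw [coeff_sub, hc, dif_neg (by omega), coeff_X_pow, if_neg (by omega), sub_zero]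
  · rw [coeff_sub, hc, dif_neg (by omega), coeff_X_pow, if_pos rfl, sub_zero]
  · rw [coeff_sub, hc, coeff_X_pow]
    rcases lt_trichotomy j r with h | rfl | h
    · rw [dif_pos h, if_neg h.ne, zero_sub]
      exact neg_mem (by simpa using hu ⟨j, h⟩)
    · rw [dif_neg (lt_irrefl _), if_pos rfl, sub_zero, sub_self]
      exact one_mem_hr
    · rw [dif_neg (by omega), if_neg h.ne', sub_zero]
      exact zero_mem _
  · rw [map_sub, sub_eq_zero, map_sum]
    simp only [map_mul, map_pow, pev_C, pev_X]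
    refine Subtype.ext (e.trans ?_)
    rw [AddSubmonoidClass.coe_finsetSum]
    rfl

/-- the Chern polynomial -/
def Bun.g (E : Bun B μ r) : (HE B)[X] := E.exists_g.choose

theorem Bun.g_mo (E : Bun B μ r) : Mo r E.g := E.exists_g.choose_spec.1

theorem Bun.g_coeff (E : Bun B μ r) (j : ℕ) : (E.g.coeff j).1 ∈ hr B (2 * r - 2 * j) :=
  E.exists_g.choose_spec.2.1 j

theorem Bun.g_coeff_zero (E : Bun B μ r) : (E.g.coeff 0).1 ∈ hr B (2 * r) := by
  simpa using E.g_coeff 0

/-- the class of a line that maps to `E` without zero is a root -/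
theorem Bun.g_root (E : Bun B μ r) (f : C(Y, B)) (M : Bun Y ν 1) {A : Y → Matrix μ ν ℂ}
    (hA : Continuous A) (h : ∀ y, E.Q (f y) * (A y * M.Q y) = A y * M.Q y)
    (h0 : ∀ y, A y * M.Q y ≠ 0) : pev f M.x E.g = 0 := by
  obtain ⟨M', m1, m2⟩ := M.exists_img hA h0
  obtain ⟨F, hF, hL⟩ := E.isPE.exists_lift f M' fun y => m2 y _ (h y)
  rw [← hF, ← M.x_iso M' hA fun y => by rw [Matrix.mul_assoc, m1]; exact h0 y, ← hL, ← Bun.pull_x,
    ← pull_pev, Bun.g, E.exists_g.choose_spec.2.2, map_zero]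

theorem Bun.g_root' (E : Bun B μ r) (f : C(Y, B)) (M : Bun Y μ 1)
    (h : ∀ y, E.Q (f y) * M.Q y = M.Q y) : pev f M.x E.g = 0 := by
  classical
  exact E.g_root f M (A := fun _ => 1) continuous_const (by simpa using h)
    fun y => by rw [Matrix.one_mul]; exact (M.op y).ne_zero

theorem IsPE.g_eq (h : IsPE π E L) {p : (HE B)[X]} (hp : Mo r p) (e : pev π L.x p = 0) :
    E.g = p :=
  sub_eq_zero.1 (h.pev_inj (E.g_mo.sub hp) (by rw [map_sub, e, E.g_root' π L h.le, sub_self]))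

theorem Bun.g_comap [CompactSpace Y] [T2Space Y] (E : Bun B μ r) (f : C(Y, B)) :
    (E.comap f).g = E.g.map (HE.pull f : HE B →+* HE Y) :=
  (E.comap f).isPE.g_eq (E.g_mo.map _) (by
    rw [pev_map]; exact E.g_root' _ _ (E.comap f).isPE.le)

theorem Bun.g_zero (E : Bun B μ 0) : E.g = 1 := by
  rw [eq_C_of_natDegree_le_zero E.g_mo.1, E.g_mo.2, C_1]

theorem Bun.g_const {Q : Matrix μ μ ℂ} (hQ : OP r Q) : (Bun.const B hQ).g = Polynomial.X ^ r :=
  (Bun.const B hQ).isPE.g_eq (mo_X_pow r) (by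
    obtain ⟨F, hF⟩ := (isPP_model hQ).exists_map hQ hQ _ (Bun.const B hQ).isPE.le
    rw [map_pow, pev_X, ← hF, ← map_pow, (isPP_model hQ).x_pow hQ, map_zero])

theorem Bun.g_congr (E : Bun B μ r) (E' : Bun B μ s) (h : E.Q = E'.Q) (e : r = s) : E.g = E'.g := by
  subst e
  rw [Bun.ext h]

/-- the Chern polynomial of a bundle with a jointly injective family of maps from it to lines -/
theorem Bun.g_lines (E : Bun B μ r) (S : Finset K) (e : S.card = r) {κ : K → Type}
    [∀ t, Fintype (κ t)] (l : ∀ t, Bun B (κ t) 1) (A : ∀ t, B → Matrix (κ t) μ ℂ)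
    (hA : ∀ t ∈ S, Continuous (A t))
    (h : ∀ y v, E.Q y *ᵥ v = v → (∀ t ∈ S, ((l t).Q y * A t y) *ᵥ v = 0) → v = 0) :
    E.g = ∏ t ∈ S, (Polynomial.X - C (l t).x) := by
  refine E.isPE.g_eq (e ▸ mo_prod S _) ?_
  have := van_iso S (fun _ => Ln.l E.ld ()) (fun t => (l t).comap (Ln.π E.ld))
    (fun t x => A t (Ln.π E.ld x)) (fun t ht => (hA t ht).comp (Ln.π E.ld).continuous) fun x => by
      by_contra hc
      push Not at hc
      obtain ⟨v, hv, ev⟩ := ((Ln.l E.ld ()).op x).exists_lnv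
      exact hv (h (Ln.π E.ld x) v ((le_lnv_iff hv).1 (ev ▸ E.isPE.le x)) fun t ht =>
        (mul_lnv_eq_zero hv).1 (ev ▸ hc t ht))
  rw [map_prod]
  simp only [map_sub, pev_X, pev_C, Bun.pull_x]
  rw [Finset.prod_congr rfl fun t _ => (neg_sub _ _).symm, Finset.prod_neg, this, mul_zero]

theorem Bun.g_sum (S : Finset K) (l : K → Bun B μ 1)
    (h : ∀ a ∈ S, ∀ b ∈ S, a ≠ b → ∀ y, (l a).Q y * (l b).Q y = 0) :
    (Bun.sum S l h).g = ∏ t ∈ S, (Polynomial.X - C (l t).x) := by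
  classical
  exact Bun.g_lines _ S rfl l (fun _ _ => 1) (fun _ _ => continuous_const) fun y v hv h0 => by
    rw [← hv, Bun.sum_Q, sum_mulVec]
    exact Finset.sum_eq_zero fun t ht => by simpa using h0 t ht

theorem Bun.g_line (M : Bun B μ 1) : M.g = Polynomial.X - C M.x := by
  classical
  simpa using M.g_lines {()} rfl (fun _ => M) (fun _ _ => 1) (fun _ _ => continuous_const)
    fun y v hv h0 => by rw [← hv]; simpa using h0 () (by simp)

/-- WH: the Whitney formula -/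
theorem Bun.g_whitney (C : Bun B μ r) (E : Bun B ν s) (E' : Bun B μ' k) (e : r = s + k)
    {p : B → Matrix ν μ ℂ} {p' : B → Matrix μ' μ ℂ} (hp : Continuous p) (hp' : Continuous p')
    (h : ∀ y v, C.Q y *ᵥ v = v → (E.Q y * p y) *ᵥ v = 0 → (E'.Q y * p' y) *ᵥ v = 0 → v = 0) :
    C.g = E.g * E'.g := by
  refine C.isPE.g_eq (e ▸ E.g_mo.mul E'.g_mo) ?_
  set π := Ln.π C.ld
  set L := Ln.l C.ld ()
  have key : ∀ {ν : Type} [Fintype ν] {s : ℕ} (E : Bun B ν s) {p : B → Matrix ν μ ℂ},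
      Continuous p → IsOpen {x | E.Q (π x) * p (π x) * L.Q x ≠ 0} ∧ ∀ K : Set (Ln C.ld),
      K ⊆ {x | E.Q (π x) * p (π x) * L.Q x ≠ 0} → HR.res K (pev π L.x E.g).1 = 0 := by
    intro ν _ s E p hp
    have hc : Continuous fun x => E.Q (π x) * p (π x) :=
      (E.cont.comp π.continuous).matrix_mul (hp.comp π.continuous)
    refine ⟨isOpen_ne_fun (hc.matrix_mul L.cont) continuous_const, fun K hK => ?_⟩
    rw [← HE.pull_val, pull_pev, Bun.pull_x]
    exact congrArg Subtype.val (E.g_root _ (L.comap ⟨Subtype.val, continuous_subtype_val⟩)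
      (hc.comp continuous_subtype_val)
      (fun y => by
        change E.Q (π y) * (E.Q (π y) * p (π y) * L.Q y) = E.Q (π y) * p (π y) * L.Q y
        rw [← Matrix.mul_assoc, ← Matrix.mul_assoc, (E.op _).idem]) fun y => hK y.2)
  have := supp_fin (Finset.univ : Finset Bool)
    (fun b => cond b {x | E.Q (π x) * p (π x) * L.Q x ≠ 0} {x | E'.Q (π x) * p' (π x) * L.Q x ≠ 0})
    (fun b _ => by cases b; exacts [(key E' hp').1, (key E hp).1])
    (fun x => by
      by_contra hc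
      push Not at hc
      obtain ⟨v, hv, ev⟩ := (L.op x).exists_lnv
      exact hv (h (π x) v ((le_lnv_iff hv).1 (ev ▸ C.isPE.le x))
        ((mul_lnv_eq_zero hv).1 (ev ▸ not_not.1 (hc true (by simp))))
        ((mul_lnv_eq_zero hv).1 (ev ▸ not_not.1 (hc false (by simp))))))
    (fun b => cond b (pev π L.x E.g) (pev π L.x E'.g))
    (fun b _ K _ hK => by cases b; exacts [(key E' hp').2 K hK, (key E hp).2 K hK])
  rw [map_mul]
  simpa using this

theorem Bun.g_sub (C : Bun B μ r) (E : Bun B μ s) (h : ∀ y, C.Q y * E.Q y = E.Q y)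
    (e : r = s + k) : C.g = E.g * (C.sub E h e).g := by
  classical
  exact C.g_whitney E _ e (p := fun _ => 1) (p' := fun _ => 1) continuous_const continuous_const
    fun y v hv h1 h2 => by
      rwa [Matrix.mul_one, Bun.sub_Q, sub_mulVec, hv, ← Matrix.mul_one (E.Q y), h1, sub_zero] at h2

/-- CH: the complement of an injective bundle map -/
theorem Bun.ch (A : Bun B μ s) (C : Bun B ν r) (e : r = s + k) {φ : B → Matrix ν μ ℂ}
    (hφ : Continuous φ) (hC : ∀ y, C.Q y * (φ y * A.Q y) = φ y * A.Q y)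
    (hi : ∀ y v, A.Q y *ᵥ v = v → φ y *ᵥ v = 0 → v = 0) :
    ∃ E : Bun B ν k, C.g = A.g * E.g ∧ (∀ y, C.Q y * E.Q y = E.Q y) ∧
      ∀ y u, C.Q y *ᵥ u = u → (E.Q y *ᵥ u = 0 ↔ ∃ v, A.Q y *ᵥ v = v ∧ φ y *ᵥ v = u) := by
  classical
  obtain ⟨E, ψ, hψ, h⟩ := exists_compl A C e hφ hC hi
  refine ⟨E, C.g_whitney A E e (p' := fun _ => 1) hψ continuous_const fun y v hv h1 h2 => ?_,
    fun y => (h y).1, fun y u hu => ⟨fun h0 => ⟨ψ y *ᵥ u, ?_, ?_⟩, ?_⟩⟩
  · obtain ⟨-, a, -, b⟩ := h y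
    rw [a] at h1
    rw [Matrix.mul_one] at h2
    have := congrArg (· *ᵥ v) b
    simp only [← mulVec_mulVec, h1, mulVec_zero, sub_mulVec, hv, h2, sub_zero] at this
    exact this.symm
  · rw [mulVec_mulVec, (h y).2.1]
  · rw [mulVec_mulVec, (h y).2.2.2, sub_mulVec, hu, h0, sub_zero]
  · rintro ⟨v, hv, rfl⟩
    obtain ⟨-, -, a, b⟩ := h y
    rw [← hv, mulVec_mulVec, mulVec_mulVec, show E.Q y = C.Q y - φ y * ψ y by rw [b, sub_sub_cancel],
      Matrix.mul_assoc, Matrix.sub_mul, hC, Matrix.mul_assoc, a, sub_self, zero_mulVec]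

/-- a bundle with a nowhere vanishing section has top class zero -/
theorem Bun.g_sec (E : Bun B μ r) {σ : B → μ → ℂ} (hσ : Continuous σ)
    (h : ∀ y, E.Q y *ᵥ σ y ≠ 0) : E.g.coeff 0 = 0 := by
  have := E.g_root' (.id B) (Bun.vec (fun y => E.Q y *ᵥ σ y) (E.cont.matrix_mulVec hσ) h)
    fun y => le_lnv (by rw [mulVec_mulVec, ContinuousMap.id_apply, (E.op y).idem])
  rwa [Bun.x_vec, pev_zero] at this

/-- the top class vanishes where a section does not vanish -/
theorem Bun.res_g_sec (E : Bun B μ r) {σ : B → μ → ℂ} (hσ : Continuous σ) {K : Set B}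
    (hK : IsClosed K) (h : ∀ y ∈ K, E.Q y *ᵥ σ y ≠ 0) : HR.res K (E.g.coeff 0).1 = 0 := by
  have := isCompact_iff_compactSpace.1 hK.isCompact
  have := (E.comap (⟨Subtype.val, continuous_subtype_val⟩ : C(K, B))).g_sec
    (hσ.comp continuous_subtype_val) fun y => h y.1 y.2
  rw [Bun.g_comap, coeff_map] at this
  exact congrArg Subtype.val this

end PB

end Pool.Agent.CS
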