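import Pool.Agent.P.MP_d34769_ag.YS0
import Pool.Agent.P.MP_d34769_ag.YB1

/-! The cocycle of a line bundle given by projectors. -/

open Matrix Filter Topology Set
open scoped Kronecker ComplexOrder

noncomputable section
namespace Pool.Agent.CS

variable {μ ν : Type} [Fintype μ] [Fintype ν]

theorem tr_vv2 (a b a' b' : μ → ℂ) :
    (vecMulVec a b * vecMulVec a' b').trace = (b ⬝ᵥ a') * (b' ⬝ᵥ a) := by
  rw [vecMulVec_mul_vecMulVec, trace_vecMulVec, dotProduct_smul, smul_eq_mul, dotProduct_comm a]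

theorem tr_vv3 (a b a' b' a'' b'' : μ → ℂ) :
    (vecMulVec a b * vecMulVec a' b' * vecMulVec a'' b'').trace =
      (b ⬝ᵥ a') * (b' ⬝ᵥ a'') * (b'' ⬝ᵥ a) := by
  rw [vecMulVec_mul_vecMulVec, tr_vv2, smul_dotProduct, smul_eq_mul]

variable {X Y : Type} [TopologicalSpace X] [TopologicalSpace Y]

/-- a cochain of one degree vanishes near `y` when it vanishes on tuples close to `y` -/
theorem AS.mem_z_of_ev {y : Y} (n : ℕ) {m : ℤ} {φ : AS Y} (hG : φ ∈ AS.G Y m) (hm : m = n)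
    (h : ∀ᶠ v : Fin (n + 1) → Y in 𝓝 fun _ => y, φ.1 (List.ofFn v) = 0) : φ ∈ AS.z y := by
  rw [nhds_pi] at h
  obtain ⟨I, t, ht, hs⟩ := Filter.mem_pi'.1 h
  refine ⟨⋂ i, t i, Filter.iInter_mem.2 ht, fun l hl => ?_⟩
  by_cases e : l.length = n + 1
  · have := hs (a := fun i => l.get (i.cast e.symm)) fun i _ =>
      mem_iInter.1 (hl _ (List.get_mem _ _)) i
    simp only [mem_ofPred_eq] at this
    rwa [← List.ofFn_congr e l.get, List.ofFn_get] at this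
  · exact AS.mem_G.1 hG l (by rw [hm]; exact_mod_cast e)

theorem ev_zero_of_exp {α : Type} {F : Filter α} {s : α → ℂ} (h : Tendsto s F (𝓝 0))
    (he : ∀ᶠ a in F, Complex.exp (s a) = 1) : ∀ᶠ a in F, s a = 0 := by
  have h1 : ∀ᶠ a in F, ‖s a‖ < 1 := by
    have := h.norm
    rw [norm_zero] at this
    exact this.eventually_lt_const one_pos
  filter_upwards [h1, he] with a h1 he
  obtain ⟨n, hn⟩ := Complex.exp_eq_one_iff.1 he
  rw [hn] at h1 ⊢
  have h2 : |(n : ℝ)| * (2 * Real.pi) < 1 := by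
    simpa [abs_of_pos Real.pi_pos] using h1
  have h3 : |(n : ℝ)| < 1 := by
    have := Real.pi_gt_three
    nlinarith [abs_nonneg (n : ℝ)]
  have h4 : n = 0 := by
    have : |n| < 1 := by exact_mod_cast h3
    exact Int.abs_lt_one_iff.1 this
  simp [h4]

theorem tendsto_log_one {α : Type} {F : Filter α} {s : α → ℂ} (h : Tendsto s F (𝓝 1)) :
    Tendsto (fun a => Complex.log (s a)) F (𝓝 0) := by
  have := h.clog Complex.one_mem_slitPlane
  rwa [Complex.log_one] at this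

/-- the logarithm of a function of pairs -/
def lg2 (r : Y → Y → ℂ) : AS Y :=
  AS.mk (fun l => match l with
    | [a, b] => Complex.log (r a b)
    | _ => 0) rfl

/-- the logarithm of a function of triples -/
def lg3 (r : Y → Y → Y → ℂ) : AS Y :=
  AS.mk (fun l => match l with
    | [a, b, c] => Complex.log (r a b c)
    | _ => 0) rfl

omit [TopologicalSpace Y] in
theorem lg2_mem (r : Y → Y → ℂ) : lg2 r ∈ AS.G Y 1 := AS.mem_G.2 fun l hl => by
  rcases l with _ | ⟨a, _ | ⟨b, _ | ⟨c, l⟩⟩⟩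
  · rfl
  · rfl
  · exact (hl rfl).elim
  · rfl

omit [TopologicalSpace Y] in
theorem d_lg2_mem (r : Y → Y → ℂ) : AS.d (lg2 r) ∈ AS.G Y 2 := by
  have := AS.d_mem_G (lg2_mem r)
  rwa [show (1 : ℤ) + 1 = 2 from rfl] at this

omit [TopologicalSpace Y] in
theorem lg3_mem (r : Y → Y → Y → ℂ) : lg3 r ∈ AS.G Y 2 := AS.mem_G.2 fun l hl => by
  rcases l with _ | ⟨a, _ | ⟨b, _ | ⟨c, _ | ⟨d, l⟩⟩⟩⟩
  · rfl
  · rfl
  · rfl
  · exact (hl rfl).elim
  · rfl

omit [TopologicalSpace Y] in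
theorem d_val3 (φ : AS Y) (a b c : Y) :
    (AS.d φ).1 [a, b, c] = φ.1 [b, c] - φ.1 [a, c] + φ.1 [a, b] := by
  change dA [a, b, c] φ.1 = _
  simp only [dA]
  ring

omit [TopologicalSpace Y] in
theorem d_val4 (φ : AS Y) (a b c e : Y) :
    (AS.d φ).1 [a, b, c, e] = φ.1 [b, c, e] - φ.1 [a, c, e] + φ.1 [a, b, e] - φ.1 [a, b, c] := by
  change dA [a, b, c, e] φ.1 = _
  simp only [dA]
  ring

omit [TopologicalSpace Y] in
theorem lg2_val (r : Y → Y → ℂ) (a b : Y) : (lg2 r).1 [a, b] = Complex.log (r a b) := rfl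

omit [TopologicalSpace Y] in
theorem lg3_val (r : Y → Y → Y → ℂ) (a b c : Y) : (lg3 r).1 [a, b, c] = Complex.log (r a b c) := rfl

theorem ofFn3 {Y : Type} (v : Fin (2 + 1) → Y) : List.ofFn v = [v 0, v 1, v 2] := by
  simp [List.ofFn_succ]

theorem ofFn4 {Y : Type} (v : Fin (3 + 1) → Y) : List.ofFn v = [v 0, v 1, v 2, v 3] := by
  simp [List.ofFn_succ]

/-- the ratio whose logarithm is the cocycle of a line -/
def Bun.cr (L : Bun Y μ 1) (a b c : Y) : ℂ := (L.Q a * L.Q b * L.Q c).trace / (L.Q a * L.Q c).trace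

/-- the cocycle of a line -/
def Bun.xq (L : Bun Y μ 1) : AS Y := lg3 L.cr

theorem Bun.xq_comap (L : Bun Y μ 1) (f : C(X, Y)) : AS.pull f L.xq = (L.comap f).xq := by
  ext l
  rcases l with _ | ⟨a, _ | ⟨b, _ | ⟨c, _ | ⟨d, l⟩⟩⟩⟩ <;> rfl

theorem Bun.xq_val (L : Bun Y μ 1) (a b c : Y) : L.xq.1 [a, b, c] = Complex.log (L.cr a b c) := rfl

theorem Bun.xq_mem_G (L : Bun Y μ 1) : L.xq ∈ AS.G Y 2 := lg3_mem _

theorem Bun.tend {n : ℕ} (L : Bun Y μ 1) (y : Y) (i : Fin n) :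
    Tendsto (fun v : Fin n → Y => L.Q (v i)) (𝓝 fun _ => y) (𝓝 (L.Q y)) :=
  (L.cont.comp (continuous_apply i)).tendsto fun _ => y

theorem Bun.tend2 {n : ℕ} (L : Bun Y μ 1) (y : Y) (i j : Fin n) :
    Tendsto (fun v : Fin n → Y => (L.Q (v i) * L.Q (v j)).trace) (𝓝 fun _ => y) (𝓝 1) := by
  have := (((L.cont.comp (continuous_apply i)).matrix_mul
    (L.cont.comp (continuous_apply j))).matrix_trace).tendsto fun _ : Fin n => y
  simpa [(L.op y).idem, (L.op y).tr] using this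

theorem Bun.tend_cr {n : ℕ} (L : Bun Y μ 1) (y : Y) (i j k : Fin n) :
    Tendsto (fun v : Fin n → Y => L.cr (v i) (v j) (v k)) (𝓝 fun _ => y) (𝓝 1) := by
  have := ((((L.cont.comp (continuous_apply i)).matrix_mul
    (L.cont.comp (continuous_apply j))).matrix_mul
    (L.cont.comp (continuous_apply k))).matrix_trace).tendsto fun _ : Fin n => y
  have h1 : Tendsto (fun v : Fin n → Y => (L.Q (v i) * L.Q (v j) * L.Q (v k)).trace)
      (𝓝 fun _ => y) (𝓝 1) := by simpa [(L.op y).idem, (L.op y).tr] using this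
  have h2 := h1.div (L.tend2 y i k) one_ne_zero
  rw [div_one] at h2
  exact h2

theorem Bun.ev2 {n : ℕ} (L : Bun Y μ 1) (y : Y) :
    ∀ᶠ v : Fin n → Y in 𝓝 fun _ => y, ∀ i j, (L.Q (v i) * L.Q (v j)).trace ≠ 0 :=
  eventually_all.2 fun i => eventually_all.2 fun j => (L.tend2 y i j).eventually_ne one_ne_zero

/-- columns and rows for a line -/
theorem Bun.exists_vec (L : Bun Y μ 1) : ∃ a b : Y → μ → ℂ, (∀ y, L.Q y = vecMulVec (a y) (b y)) ∧
    (∀ y, b y ⬝ᵥ a y = 1) ∧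
    (∀ y y', (L.Q y * L.Q y').trace = (b y ⬝ᵥ a y') * (b y' ⬝ᵥ a y)) ∧
    ∀ y y' y'', (L.Q y * L.Q y'').trace ≠ 0 →
      L.cr y y' y'' = (b y ⬝ᵥ a y') * (b y' ⬝ᵥ a y'') / (b y ⬝ᵥ a y'') := by
  choose a h0 h using fun y => (L.op y).exists_vec
  have h2 : ∀ y y', (L.Q y * L.Q y').trace = (star (a y) ⬝ᵥ a y') * (star (a y') ⬝ᵥ a y) :=
    fun y y' => by rw [h, h, tr_vv2]
  refine ⟨a, fun y => star (a y), h, h0, h2, fun y y' y'' hn => ?_⟩
  rw [h2] at hn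
  rw [Bun.cr, h2, h, h, h, tr_vv3, mul_div_mul_right _ _ (right_ne_zero_of_mul hn)]

theorem alg4 {a b c d e f : ℂ} (ha : a ≠ 0) (hb : b ≠ 0) (hc : c ≠ 0) (hd : d ≠ 0) (he : e ≠ 0)
    (hf : f ≠ 0) : d * f / e / (b * f / c) * (a * e / c) / (a * d / b) = 1 := by
  field_simp

theorem Bun.d_xq (L : Bun Y μ 1) (y : Y) : AS.d L.xq ∈ AS.z y := by
  obtain ⟨a, b, -, -, h2, h3⟩ := L.exists_vec
  refine AS.mem_z_of_ev 3 (AS.d_mem_G L.xq_mem_G) (by norm_num) ?_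
  have e : ∀ v : Fin (3 + 1) → Y, (AS.d L.xq).1 (List.ofFn v) =
      Complex.log (L.cr (v 1) (v 2) (v 3)) - Complex.log (L.cr (v 0) (v 2) (v 3)) +
        Complex.log (L.cr (v 0) (v 1) (v 3)) - Complex.log (L.cr (v 0) (v 1) (v 2)) := fun v => by
    rw [ofFn4, d_val4, L.xq_val, L.xq_val, L.xq_val, L.xq_val]
  simp only [e]
  refine ev_zero_of_exp ?_ ?_
  · simpa using (((tendsto_log_one (L.tend_cr y (1 : Fin (3 + 1)) 2 3)).sub
      (tendsto_log_one (L.tend_cr y 0 2 3))).add (tendsto_log_one (L.tend_cr y 0 1 3))).sub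
      (tendsto_log_one (L.tend_cr y 0 1 2))
  · filter_upwards [L.ev2 y] with v hv
    have p : ∀ i j, b (v i) ⬝ᵥ a (v j) ≠ 0 := fun i j =>
      left_ne_zero_of_mul ((h2 (v i) (v j)).symm.trans_ne (hv i j))
    have q : ∀ i j k, Complex.exp (Complex.log (L.cr (v i) (v j) (v k))) =
        (b (v i) ⬝ᵥ a (v j)) * (b (v j) ⬝ᵥ a (v k)) / (b (v i) ⬝ᵥ a (v k)) := fun i j k => by
      rw [h3 _ _ _ (hv i k), Complex.exp_log (div_ne_zero (mul_ne_zero (p _ _) (p _ _)) (p _ _))]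
    rw [Complex.exp_sub, Complex.exp_add, Complex.exp_sub, q, q, q, q]
    exact alg4 (p 0 1) (p 0 2) (p 0 3) (p 1 2) (p 1 3) (p 2 3)

theorem Bun.xq_tens (L : Bun Y μ 1) (L' : Bun Y ν 1) (y : Y) :
    (L.tens L').xq - (L.xq + L'.xq) ∈ AS.z y := by
  refine AS.mem_z_of_ev 2 (sub_mem (L.tens L').xq_mem_G (add_mem L.xq_mem_G L'.xq_mem_G))
    (by norm_num) ?_
  have c : ∀ a b c, (L.tens L').cr a b c = L.cr a b c * L'.cr a b c := fun a b c => by
    simp only [Bun.cr, Bun.tens_Q, ← mul_kronecker_mul, trace_kronecker, div_mul_div_comm]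
  have e : ∀ v : Fin (2 + 1) → Y, ((L.tens L').xq - (L.xq + L'.xq)).1 (List.ofFn v) =
      Complex.log ((L.tens L').cr (v 0) (v 1) (v 2)) - (Complex.log (L.cr (v 0) (v 1) (v 2)) +
        Complex.log (L'.cr (v 0) (v 1) (v 2))) := fun v => by
    rw [ofFn3, AS.val_sub, AS.val_add, Bun.xq_val, Bun.xq_val, Bun.xq_val]
  simp only [e]
  refine ev_zero_of_exp ?_ ?_
  · simpa using (tendsto_log_one ((L.tens L').tend_cr y (0 : Fin (2 + 1)) 1 2)).sub
      ((tendsto_log_one (L.tend_cr y 0 1 2)).add (tendsto_log_one (L'.tend_cr y 0 1 2)))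
  · filter_upwards [(L.tend_cr y (0 : Fin (2 + 1)) 1 2).eventually_ne one_ne_zero,
      (L'.tend_cr y (0 : Fin (2 + 1)) 1 2).eventually_ne one_ne_zero] with v h1 h2
    rw [Complex.exp_sub, Complex.exp_add, c, Complex.exp_log h1, Complex.exp_log h2,
      Complex.exp_log (mul_ne_zero h1 h2), div_self (mul_ne_zero h1 h2)]

theorem Bun.xq_const {Q : Matrix μ μ ℂ} (h : OP 1 Q) : (Bun.const Y h).xq = 0 := by
  ext l
  rcases l with _ | ⟨a, _ | ⟨b, _ | ⟨c, _ | ⟨d, l⟩⟩⟩⟩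
  · rfl
  · rfl
  · rfl
  · change Complex.log ((Q * Q * Q).trace / (Q * Q).trace) = 0
    simp [h.idem, h.tr]
  · rfl

/-- the ratio whose logarithm is the primitive attached to maps between two lines -/
def Bun.ir (L : Bun Y μ 1) (L' : Bun Y ν 1) (A : Y → Matrix ν μ ℂ) (A' : Y → Matrix μ ν ℂ)
    (a b : Y) : ℂ :=
  (L.Q a * A' a * L'.Q a * (L'.Q b * A b * L.Q b)).trace /
    ((L.Q a * L.Q b).trace * (L.Q b * A' b * L'.Q b * (L'.Q b * A b * L.Q b)).trace)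

theorem tr_iso (a b a₁ b₁ : μ → ℂ) (a' b' a₁' b₁' : ν → ℂ) (A : Matrix ν μ ℂ) (A' : Matrix μ ν ℂ) :
    (vecMulVec a b * A' * vecMulVec a' b' * (vecMulVec a₁' b₁' * A * vecMulVec a₁ b₁)).trace =
      ((b ᵥ* A') ⬝ᵥ a') * (b' ⬝ᵥ a₁') * ((b₁' ᵥ* A) ⬝ᵥ a₁) * (b₁ ⬝ᵥ a) := by
  rw [vecMulVec_mul a b, vecMulVec_mul a₁' b₁', vecMulVec_mul_vecMulVec, vecMulVec_mul_vecMulVec,
    vecMulVec_mul_vecMulVec, trace_vecMulVec]
  simp only [smul_dotProduct, smul_eq_mul, dotProduct_comm a]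
  ring

theorem tend_mul {α l m n : Type} [Fintype m] {F : Filter α} {f : α → Matrix l m ℂ}
    {g : α → Matrix m n ℂ} {a : Matrix l m ℂ} {b : Matrix m n ℂ} (hf : Tendsto f F (𝓝 a))
    (hg : Tendsto g F (𝓝 b)) : Tendsto (fun x => f x * g x) F (𝓝 (a * b)) := by
  refine tendsto_pi_nhds.2 fun i => tendsto_pi_nhds.2 fun j => ?_
  simp only [mul_apply]
  exact tendsto_finsetSum _ fun k _ => (tendsto_pi_nhds.1 (tendsto_pi_nhds.1 hf i) k).mul
    (tendsto_pi_nhds.1 (tendsto_pi_nhds.1 hg k) j)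

theorem tend_trace {α : Type} {F : Filter α} {f : α → Matrix μ μ ℂ} {a : Matrix μ μ ℂ}
    (hf : Tendsto f F (𝓝 a)) : Tendsto (fun x => (f x).trace) F (𝓝 a.trace) :=
  (continuous_id.matrix_trace.tendsto a).comp hf

theorem alg2 {x y p q u w : ℂ} (hp : p ≠ 0) (hq : q ≠ 0) (hu : u ≠ 0) (hw : w ≠ 0) :
    x * y * w * q / (p * q * (u * 1 * w * 1)) = x * y / (p * u) := by
  field_simp

theorem alg3 {a b c a' b' c' u v w : ℂ} (ha : a ≠ 0) (hb : b ≠ 0) (hc : c ≠ 0) (ha' : a' ≠ 0)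
    (hb' : b' ≠ 0) (hc' : c' ≠ 0) (hu : u ≠ 0) (hv : v ≠ 0) (hw : w ≠ 0) :
    a' * b' / c' / (a * b / c) / (v * b' / (b * w) / (u * c' / (c * w)) * (u * a' / (a * v))) = 1 := by
  field_simp

/-- the local form of the invariance under isomorphism -/
theorem Bun.xq_iso_z (L : Bun Y μ 1) (L' : Bun Y ν 1) {A : Y → Matrix ν μ ℂ}
    {A' : Y → Matrix μ ν ℂ} {y : Y} (hA : ContinuousAt A y) (hA' : ContinuousAt A' y)
    (h : (L.Q y * A' y * L'.Q y * (L'.Q y * A y * L.Q y)).trace ≠ 0) :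
    L'.xq - L.xq - AS.d (lg2 (L.ir L' A A')) ∈ AS.z y := by
  obtain ⟨a, b, h1, h0, h2, h3⟩ := L.exists_vec
  obtain ⟨a', b', h1', h0', h2', h3'⟩ := L'.exists_vec
  refine AS.mem_z_of_ev 2 (sub_mem (sub_mem L'.xq_mem_G L.xq_mem_G) (d_lg2_mem _))
    (by norm_num) ?_
  have e : ∀ v : Fin (2 + 1) → Y, (L'.xq - L.xq - AS.d (lg2 (L.ir L' A A'))).1 (List.ofFn v) =
      Complex.log (L'.cr (v 0) (v 1) (v 2)) - Complex.log (L.cr (v 0) (v 1) (v 2)) -
        (Complex.log (L.ir L' A A' (v 1) (v 2)) - Complex.log (L.ir L' A A' (v 0) (v 2)) +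
          Complex.log (L.ir L' A A' (v 0) (v 1))) := fun v => by
    rw [ofFn3, AS.val_sub, AS.val_sub, d_val3, Bun.xq_val, Bun.xq_val, lg2_val, lg2_val, lg2_val]
  simp only [e]
  have t0 : ∀ i : Fin (2 + 1), Tendsto (fun v : Fin (2 + 1) → Y => v i) (𝓝 fun _ => y) (𝓝 y) :=
    fun i => (continuous_apply i).tendsto _
  have t1 : ∀ i j : Fin (2 + 1), Tendsto (fun v : Fin (2 + 1) → Y =>
      (L.Q (v i) * A' (v i) * L'.Q (v i) * (L'.Q (v j) * A (v j) * L.Q (v j))).trace)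
      (𝓝 fun _ => y) (𝓝 (L.Q y * A' y * L'.Q y * (L'.Q y * A y * L.Q y)).trace) := fun i j =>
    tend_trace (tend_mul (tend_mul (tend_mul (L.tend y i) (hA'.tendsto.comp (t0 i))) (L'.tend y i))
      (tend_mul (tend_mul (L'.tend y j) (hA.tendsto.comp (t0 j))) (L.tend y j)))
  have t2 : ∀ i j : Fin (2 + 1), Tendsto (fun v : Fin (2 + 1) → Y => L.ir L' A A' (v i) (v j))
      (𝓝 fun _ => y) (𝓝 1) := fun i j => by
    have := (t1 i j).div ((L.tend2 y i j).mul (t1 j j)) (by rwa [one_mul])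
    rw [one_mul, div_self h] at this
    exact this
  refine ev_zero_of_exp ?_ ?_
  · simpa using ((tendsto_log_one (L'.tend_cr y (0 : Fin (2 + 1)) 1 2)).sub
      (tendsto_log_one (L.tend_cr y 0 1 2))).sub (((tendsto_log_one (t2 1 2)).sub
        (tendsto_log_one (t2 0 2))).add (tendsto_log_one (t2 0 1)))
  · filter_upwards [L.ev2 y, L'.ev2 y, eventually_all.2 fun i => (t1 i i).eventually_ne h]
      with v hv hv' hn
    have p : ∀ i j, b (v i) ⬝ᵥ a (v j) ≠ 0 := fun i j =>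
      left_ne_zero_of_mul ((h2 (v i) (v j)).symm.trans_ne (hv i j))
    have p' : ∀ i j, b' (v i) ⬝ᵥ a' (v j) ≠ 0 := fun i j =>
      left_ne_zero_of_mul ((h2' (v i) (v j)).symm.trans_ne (hv' i j))
    have r : ∀ s t, (L.Q s * A' s * L'.Q s * (L'.Q t * A t * L.Q t)).trace =
        ((b s ᵥ* A' s) ⬝ᵥ a' s) * (b' s ⬝ᵥ a' t) * ((b' t ᵥ* A t) ⬝ᵥ a t) * (b t ⬝ᵥ a s) :=
      fun s t => by rw [h1, h1, h1', h1', tr_iso]
    have u : ∀ i, (b (v i) ᵥ* A' (v i)) ⬝ᵥ a' (v i) ≠ 0 := fun i =>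
      left_ne_zero_of_mul (left_ne_zero_of_mul (left_ne_zero_of_mul ((r (v i) (v i)).symm.trans_ne (hn i))))
    have u' : ∀ i, (b' (v i) ᵥ* A (v i)) ⬝ᵥ a (v i) ≠ 0 := fun i =>
      right_ne_zero_of_mul (left_ne_zero_of_mul ((r (v i) (v i)).symm.trans_ne (hn i)))
    have q : ∀ i j, Complex.exp (Complex.log (L.ir L' A A' (v i) (v j))) =
        ((b (v i) ᵥ* A' (v i)) ⬝ᵥ a' (v i)) * (b' (v i) ⬝ᵥ a' (v j)) /
        ((b (v i) ⬝ᵥ a (v j)) * ((b (v j) ᵥ* A' (v j)) ⬝ᵥ a' (v j))) := fun i j => by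
      have e1 : L.ir L' A A' (v i) (v j) =
          ((b (v i) ᵥ* A' (v i)) ⬝ᵥ a' (v i)) * (b' (v i) ⬝ᵥ a' (v j)) /
          ((b (v i) ⬝ᵥ a (v j)) * ((b (v j) ᵥ* A' (v j)) ⬝ᵥ a' (v j))) := by
        rw [Bun.ir, r, r, h2, h0, h0']
        exact alg2 (p i j) (p j i) (u j) (u' j)
      rw [e1, Complex.exp_log (div_ne_zero (mul_ne_zero (u i) (p' i j)) (mul_ne_zero (p i j) (u j)))]
    rw [Complex.exp_sub, Complex.exp_sub, Complex.exp_add, Complex.exp_sub, q, q, q,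
      h3 _ _ _ (hv 0 2), h3' _ _ _ (hv' 0 2),
      Complex.exp_log (div_ne_zero (mul_ne_zero (p _ _) (p _ _)) (p _ _)),
      Complex.exp_log (div_ne_zero (mul_ne_zero (p' _ _) (p' _ _)) (p' _ _))]
    exact alg3 (p 0 1) (p 1 2) (p 0 2) (p' 0 1) (p' 1 2) (p' 0 2) (u 0) (u 1) (u 2)

theorem iso_ne {L : Bun Y μ 1} {L' : Bun Y ν 1} {A : Y → Matrix ν μ ℂ} {y : Y}
    (h : L'.Q y * A y * L.Q y ≠ 0) :
    (L.Q y * (A y)ᴴ * L'.Q y * (L'.Q y * A y * L.Q y)).trace ≠ 0 := fun e => h <| by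
  refine trace_conjTranspose_mul_self_eq_zero_iff.1 ?_
  rw [conjTranspose_mul, conjTranspose_mul, (L.op y).herm, (L'.op y).herm, ← Matrix.mul_assoc (L.Q y)]
  exact e

variable [CompactSpace Y] [T2Space Y]

theorem mem_CC_G {n : ℤ} {φ : AS Y} : φ ∈ (CC Y).G n ↔ φ ∈ AS.G Y n :=
  ⟨fun h => h.1, fun h => ⟨h, (AS.sc Y).mem_zz.2 fun _ h => h.elim⟩⟩

theorem mem_CC_N {φ : AS Y} : φ ∈ (CC Y).N ↔ ∀ y, φ ∈ AS.z y :=
  (AS.sc Y).mem_zz.trans ⟨fun h y => h y trivial, fun h y _ => h y⟩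

theorem Bun.xq_mem (L : Bun Y μ 1) : L.xq ∈ (CC Y).Z 2 :=
  Cx.mem_Z.2 ⟨mem_CC_G.2 L.xq_mem_G, mem_CC_N.2 L.d_xq⟩

/-- X1: isomorphic lines have the same class -/
theorem Bun.xq_iso (L : Bun Y μ 1) (L' : Bun Y ν 1) {A : Y → Matrix ν μ ℂ} (hA : Continuous A)
    (h : ∀ y, L'.Q y * A y * L.Q y ≠ 0) : L'.xq - L.xq ∈ (CC Y).B 2 :=
  Cx.mem_B.2 ⟨lg2 (L.ir L' A fun y => (A y)ᴴ), mem_CC_G.2 (lg2_mem _), mem_CC_N.2 fun y =>
    L.xq_iso_z L' hA.continuousAt hA.matrix_conjTranspose.continuousAt (iso_ne (h y))⟩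

/-- X2: the class of a tensor product -/
theorem Bun.xq_tens_B (L : Bun Y μ 1) (L' : Bun Y ν 1) :
    (L.tens L').xq - (L.xq + L'.xq) ∈ (CC Y).B 2 :=
  Cx.N_le_B (mem_CC_N.2 (L.xq_tens L'))

/-- X3: a line with a nowhere vanishing section has class zero -/
theorem Bun.xq_sec (L : Bun Y μ 1) {σ : Y → μ → ℂ} (hσ : Continuous σ)
    (h : ∀ y, L.Q y *ᵥ σ y ≠ 0) : L.xq ∈ (CC Y).B 2 := by
  have h1 : OP 1 (1 : Matrix Unit Unit ℂ) := ⟨by simp, by simp, by simp⟩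
  have := (Bun.const Y h1).xq_iso L (A := fun y => replicateCol Unit (σ y))
    (continuous_matrix fun i _ => (continuous_apply i).comp hσ) fun y e => h y <| by
      ext i
      simpa [mul_apply, mulVec, dotProduct] using congrFun (congrFun e i) ()
  rwa [Bun.xq_const, sub_zero] at this

/-- X4: the class of the dual line -/
theorem Bun.xq_tr (L : Bun Y μ 1) : L.tr.xq + L.xq ∈ (CC Y).B 2 := by
  have h1 := (L.tens L.tr).xq_sec (σ := fun y p => L.Q y p.1 p.2)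
    (continuous_pi fun p => L.cont.matrix_elem p.1 p.2) fun y e => (L.op y).ne_zero <| by
      ext i j
      have h2 := congrFun e (i, j)
      have h3 := congrFun (congrFun (show L.Q y * L.Q y * L.Q y = L.Q y by
        rw [(L.op y).idem, (L.op y).idem]) i) j
      rw [← h3, Matrix.zero_apply, ← show _ = (0 : ℂ) from h2]
      simp only [mul_apply, mulVec, dotProduct, Bun.tens_Q, Bun.tr_Q, kroneckerMap_apply,
        transpose_apply, Fintype.sum_prod_type, Finset.sum_mul]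
      rw [Finset.sum_comm]
      exact Finset.sum_congr rfl fun k _ => Finset.sum_congr rfl fun l _ => by ring
  have h2 := sub_mem h1 (L.xq_tens_B L.tr)
  rwa [sub_sub_cancel, add_comm] at h2

end Pool.Agent.CS
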