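import Pool.Agent.P.MP_d34769_ag.YBX

/-! The class of the tautological line of the projective line is not zero. -/

open Matrix Filter Topology Set

noncomputable section
namespace Pool.Agent.CS

variable {μ : Type} [Fintype μ] {X Y : Type} [TopologicalSpace X] [TopologicalSpace Y]

/-- the primitive of the cocycle of a line that is spanned by a section -/
theorem vec_xq_z (v : Y → μ → ℂ) (hc : Continuous v) (h : ∀ y, v y ≠ 0) (y : Y) :
    (Bun.vec v hc h).xq - AS.d (lg2 fun a b => (star (v a) ⬝ᵥ v b) / (star (v b) ⬝ᵥ v b)) ∈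
      AS.z y := by
  have h1 : OP 1 (1 : Matrix Unit Unit ℂ) := ⟨by simp, by simp, by simp⟩
  have hA : Continuous fun y => replicateCol Unit (v y) :=
    continuous_matrix fun i _ => (continuous_apply i).comp hc
  have e1 : ∀ b, lnv (v b) * replicateCol Unit (v b) = replicateCol Unit (v b) := fun b => by
    rw [← replicateCol_mulVec, lnv_mulVec (h b)]
  have e2 : ∀ b, (replicateCol Unit (v b))ᴴ * lnv (v b) = (replicateCol Unit (v b))ᴴ := fun b => by
    conv_rhs => rw [← e1, conjTranspose_mul, (OP.lnv (h b)).herm]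
  have e3 : ∀ a b, ((1 : Matrix Unit Unit ℂ) * (replicateCol Unit (v a))ᴴ * lnv (v a) *
      (lnv (v b) * replicateCol Unit (v b) * (1 : Matrix Unit Unit ℂ))).trace =
      star (v a) ⬝ᵥ v b := fun a b => by
    rw [Matrix.one_mul, Matrix.mul_one, e1, e2]
    simp [Matrix.trace, mul_apply, dotProduct]
  have := (Bun.const Y h1).xq_iso_z (Bun.vec v hc h) (y := y) hA.continuousAt
    hA.matrix_conjTranspose.continuousAt ((e3 y y).trans_ne (star_dot_ne (h y)))
  rw [Bun.xq_const, sub_zero] at this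
  have e4 : (Bun.const Y h1).ir (Bun.vec v hc h) (fun y => replicateCol Unit (v y))
      (fun y => (replicateCol Unit (v y))ᴴ) =
      fun a b => (star (v a) ⬝ᵥ v b) / (star (v b) ⬝ᵥ v b) := by
    funext a b
    simp only [Bun.ir, Bun.const_Q, Bun.vec_Q, e3]
    simp
  rwa [e4] at this

/-- a local cocycle on the plane that is periodic has the same sum along two grid lines -/
theorem grid_sum (ψ : ℝ × ℝ → ℝ × ℝ → ℂ)
    (h : ∀ p, ∃ O ∈ 𝓝 p, ∀ a ∈ O, ∀ b ∈ O, ∀ c ∈ O, ψ b c - ψ a c + ψ a b = 0)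
    (hp : ∀ s s', ψ (s, 1) (s', 1) = ψ (s, 0) (s', 0)) :
    ∃ N : ℕ, 3 ≤ N ∧ ∑ j ∈ Finset.range N, ψ (0, (j : ℝ) / N) (0, ((j + 1 : ℕ) : ℝ) / N) =
      ∑ j ∈ Finset.range N, ψ (1, (j : ℝ) / N) (1, ((j + 1 : ℕ) : ℝ) / N) := by
  choose O hO h using h
  obtain ⟨ε, hε, hl⟩ := lebesgue_number_lemma_of_metric
    (isCompact_Icc (a := ((0, 0) : ℝ × ℝ)) (b := (1, 1))) (c := fun p => interior (O p))
    (fun _ => isOpen_interior) fun p _ => mem_iUnion.2 ⟨p, mem_interior_iff_mem_nhds.2 (hO p)⟩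
  obtain ⟨M, hM⟩ := exists_nat_one_div_lt hε
  set N := M + 3 with hN
  have hN0 : (0 : ℝ) < N := by rw [hN]; positivity
  have hNε : 1 / (N : ℝ) < ε := lt_of_le_of_lt (one_div_le_one_div_of_le (by positivity)
    (by rw [hN]; push_cast; linarith)) hM
  let g : ℕ → ℕ → ℝ × ℝ := fun i j => ((i : ℝ) / N, (j : ℝ) / N)
  have hd : ∀ i : ℕ, dist (((i + 1 : ℕ) : ℝ) / N) ((i : ℝ) / N) < ε := fun i => by
    rw [Real.dist_eq, ← sub_div]
    push_cast
    rwa [add_sub_cancel_left, abs_of_pos (by positivity)]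
  have sq : ∀ i < N, ∀ j < N, ψ (g i j) (g i (j + 1)) - ψ (g (i + 1) j) (g (i + 1) (j + 1)) =
      ψ (g i j) (g (i + 1) j) - ψ (g i (j + 1)) (g (i + 1) (j + 1)) := fun i hi j hj => by
    obtain ⟨p, hb⟩ := hl (g i j) ⟨⟨by positivity, by positivity⟩,
      (div_le_one hN0).2 (by exact_mod_cast hi.le), (div_le_one hN0).2 (by exact_mod_cast hj.le)⟩
    have m : ∀ q, dist q.1 (g i j).1 < ε → dist q.2 (g i j).2 < ε → q ∈ O p := fun q h1 h2 =>
      interior_subset (hb (by rw [Metric.mem_ball, Prod.dist_eq]; exact max_lt h1 h2))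
    have m0 := m (g i j) (by simpa) (by simpa)
    have m1 := m (g i (j + 1)) (by simpa [g]) (hd j)
    have m2 := m (g (i + 1) j) (hd i) (by simpa [g])
    have m3 := m (g (i + 1) (j + 1)) (hd i) (hd j)
    linear_combination h p _ m0 _ m1 _ m3 - h p _ m0 _ m2 _ m3
  have st : ∀ i ≤ N, ∑ j ∈ Finset.range N, ψ (g 0 j) (g 0 (j + 1)) =
      ∑ j ∈ Finset.range N, ψ (g i j) (g i (j + 1)) := fun i hi => by
    induction i with
    | zero => rfl
    | succ i ih =>
      rw [ih (by omega), ← sub_eq_zero, ← Finset.sum_sub_distrib,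
        Finset.sum_congr rfl fun j hj => sq i hi j (Finset.mem_range.1 hj),
        Finset.sum_range_sub' fun j => ψ (g i j) (g (i + 1) j)]
      simp only [g, div_self hN0.ne', Nat.cast_zero, zero_div, hp, sub_self]
  refine ⟨N, by omega, ?_⟩
  simpa only [g, div_self hN0.ne', Nat.cast_zero, zero_div] using st N le_rfl

/-- B1 -/
theorem IsPP.xq_not_mem [CompactSpace X] [T2Space X] {Q : Matrix μ μ ℂ} {L : Bun X μ 1}
    (h : IsPP Q L) (hQ : OP 2 Q) : L.xq ∉ (CC X).B 2 := fun hB => by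
  obtain ⟨φ, -, hφ⟩ := Cx.mem_B.1 hB
  obtain ⟨u, h1, h2⟩ := hQ.exists_iso
  let c : ℝ → ℂ := fun t => Complex.exp (2 * Real.pi * Complex.I * t)
  have hc : ∀ t, c t ≠ 0 := fun t => Complex.exp_ne_zero _
  let w : ℝ × ℝ → Fin 2 → ℂ := fun p => ![1 - p.1, p.1 * c p.2]
  let v : ℝ × ℝ → μ → ℂ := fun p => u *ᵥ w p
  have hw : Continuous w := by
    refine continuous_pi fun i => ?_
    fin_cases i
    · exact continuous_const.sub (Complex.continuous_ofReal.comp continuous_fst)
    · exact (Complex.continuous_ofReal.comp continuous_fst).mul (Complex.continuous_exp.comp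
        (continuous_const.mul (Complex.continuous_ofReal.comp continuous_snd)))
  have hv : Continuous v := continuous_const.matrix_mulVec hw
  have hdot : ∀ p q, star (v p) ⬝ᵥ v q = star (w p) ⬝ᵥ w q := fun p q => by
    rw [star_mulVec, dotProduct_mulVec, vecMul_vecMul, h1, vecMul_one]
  have hw0 : ∀ p, w p ≠ 0 := fun p e => by
    have a0 : 1 - (p.1 : ℂ) = 0 := congrFun e 0
    have a1 : (p.1 : ℂ) * c p.2 = 0 := congrFun e 1
    rw [(mul_eq_zero.1 a1).resolve_right (hc _)] at a0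
    simp at a0
  have hv0 : ∀ p, v p ≠ 0 := fun p e => star_dot_ne (hw0 p) (by rw [← hdot, e, dotProduct_zero])
  obtain ⟨F, hF⟩ := h.exists_lift hQ (Bun.vec v hv hv0) fun p => le_lnv (by
    rw [mulVec_mulVec, ← h2, Matrix.mul_assoc, h1, Matrix.mul_one])
  have hF' : ∀ p, L.Q (F p) = lnv (v p) := fun p => congrFun (congrArg Bun.Q hF) p
  let r : ℝ × ℝ → ℝ × ℝ → ℂ := fun a b => (star (v a) ⬝ᵥ v b) / (star (v b) ⬝ᵥ v b)
  let ψ : ℝ × ℝ → ℝ × ℝ → ℂ := fun a b => φ.1 [F a, F b] - Complex.log (r a b)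
  have hψ : ∀ p, ∃ O ∈ 𝓝 p, ∀ a ∈ O, ∀ b ∈ O, ∀ c ∈ O, ψ b c - ψ a c + ψ a b = 0 := fun p => by
    have z1 := AS.z_pull F.continuous.continuousAt (mem_CC_N.1 hφ (F p))
    rw [map_sub, L.xq_comap, hF] at z1
    obtain ⟨O, hO, e⟩ := sub_mem (vec_xq_z v hv hv0 p) z1
    refine ⟨O, hO, fun a ha b hb c hc => ?_⟩
    have := e [a, b, c] (by simp [ha, hb, hc])
    rw [sub_sub_sub_cancel_left, AS.val_sub, d_val3, AS.pull_val] at this
    have e2 := d_val3 φ (F a) (F b) (F c)
    simp only [lg2_val] at this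
    simp only [ψ, r]
    change (AS.d φ).1 [F a, F b, F c] - _ = 0 at this
    linear_combination this - e2
  have hψ0 : ∀ p, φ.1 [F p, F p] = 0 := fun p => by
    obtain ⟨O, hO, e⟩ := hψ p
    have m := mem_of_mem_nhds hO
    simpa [ψ, r, div_self (star_dot_ne (hv0 p))] using e p m p m p m
  have c1 : c 1 = c 0 := by simp [c]
  have v1 : ∀ s, v (s, 1) = v (s, 0) := fun s => by simp only [v, w, c1]
  obtain ⟨N, hN, e⟩ := grid_sum ψ hψ fun s s' => by
    have : ∀ s, F (s, 1) = F (s, 0) := fun s => h.inj (by rw [hF', hF', v1])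
    simp only [ψ, r, this, v1]
  have hN0 : (N : ℂ) ≠ 0 := Nat.cast_ne_zero.2 (by omega)
  have l0 : ∀ t t', ψ (0, t) (0, t') = 0 := fun t t' => by
    have a : v (0, t) = v (0, t') := by simp [v, w]
    have b : F (0, t) = F (0, t') := h.inj (by rw [hF', hF', a])
    simp only [ψ, r, a, b, hψ0, div_self (star_dot_ne (hv0 _)), Complex.log_one, sub_zero]
  have l1 : ∀ j : ℕ, ψ (1, (j : ℝ) / N) (1, ((j + 1 : ℕ) : ℝ) / N) =
      -(2 * Real.pi * Complex.I / N) := fun j => by
    have a : ∀ t, v (1, t) = c t • v (1, 0) := fun t => by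
      simp only [v]
      rw [← mulVec_smul]
      congr 1
      ext i
      fin_cases i <;> simp [w, c]
    have b : ∀ t, F (1, t) = F (1, 0) := fun t => h.inj (by
      rw [hF', hF', a, lnv_smul (hv0 _) (hc t)])
    have s : ∀ t, star (c t) = (c t)⁻¹ := fun t => by
      simp only [c]
      rw [← Complex.exp_neg, RCLike.star_def, ← Complex.exp_conj]
      congr 1
      simp [Complex.conj_ofReal, map_ofNat]
    have d : ∀ t t', r (1, t) (1, t') = Complex.exp (2 * Real.pi * Complex.I * (t' - t)) :=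
      fun t t' => by
      have := star_dot_ne (hv0 (1, 0))
      have := hc t
      have := hc t'
      simp only [r]
      rw [a t, a t', star_smul, star_smul, s, s]
      simp only [smul_dotProduct, dotProduct_smul, smul_eq_mul]
      rw [mul_sub, Complex.exp_sub]
      change _ = c t' / c t
      field_simp
    simp only [ψ]
    rw [b, b (_ / _), hψ0, d, zero_sub]
    have f : (2 * Real.pi * Complex.I * (((((j + 1 : ℕ) : ℝ) / N : ℝ) : ℂ) - (((j : ℝ) / N : ℝ) : ℂ))) =
        ((2 * Real.pi / N : ℝ) : ℂ) * Complex.I := by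
      push_cast
      field_simp
      ring
    have hN' : (3 : ℝ) ≤ N := by exact_mod_cast hN
    have g : 2 * Real.pi / N ≤ Real.pi := by
      rw [div_le_iff₀ (by linarith)]
      nlinarith [Real.pi_pos]
    have g' : 0 < 2 * Real.pi / N := div_pos Real.two_pi_pos (by linarith)
    rw [f, Complex.log_exp (by simp only [Complex.mul_I_im, Complex.ofReal_re]; linarith [Real.pi_pos])
      (by simpa only [Complex.mul_I_im, Complex.ofReal_re] using g)]
    push_cast
    ring
  simp only [l0, l1, Finset.sum_const, Finset.card_range, smul_zero, nsmul_eq_mul] at e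
  rw [mul_neg, mul_div_cancel₀ _ hN0, eq_comm, neg_eq_zero] at e
  exact Complex.two_pi_I_ne_zero e

end Pool.Agent.CS
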