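import Pool.Agent.P.MP_d34769_ag.YSC

/-! The cohomology ring. -/

open Set

noncomputable section
namespace Pool.Agent.CS
variable {X Y Z : Type} [TopologicalSpace X] [TopologicalSpace Y] [TopologicalSpace Z]

/-- locally zero cochains -/
def Nl (X : Type) [TopologicalSpace X] : Submodule ℂ (AS X) := ⨅ t ∈ (univ : Set X), AS.z t

theorem mem_Nl {φ : AS X} : φ ∈ Nl X ↔ ∀ t, φ ∈ AS.z t := by simp [Nl]

theorem Nl_mul_left (φ : AS X) {ψ : AS X} (h : ψ ∈ Nl X) : φ * ψ ∈ Nl X :=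
  mem_Nl.2 fun t => AS.z_mul_left φ (mem_Nl.1 h t)

theorem Nl_mul_right {φ : AS X} (h : φ ∈ Nl X) (ψ : AS X) : φ * ψ ∈ Nl X :=
  mem_Nl.2 fun t => AS.z_mul_right (mem_Nl.1 h t) ψ

theorem Nl_e {φ : AS X} (h : φ ∈ Nl X) (n : ℕ) : (AS.gc X).e n φ ∈ Nl X :=
  mem_Nl.2 fun t => AS.z_e (mem_Nl.1 h t) n

theorem Nl_s {φ : AS X} (h : φ ∈ Nl X) : (AS.gc X).s φ ∈ Nl X :=
  mem_Nl.2 fun t => AS.z_s (mem_Nl.1 h t)

theorem Nl_d {φ : AS X} (h : φ ∈ Nl X) : AS.d φ ∈ Nl X :=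
  mem_Nl.2 fun t => AS.z_d (mem_Nl.1 h t)

theorem Nl_pull (g : C(X, Y)) {φ : AS Y} (h : φ ∈ Nl Y) : AS.pull g φ ∈ Nl X :=
  mem_Nl.2 fun t => AS.z_pull g.continuous.continuousAt (mem_Nl.1 h (g t))

omit [TopologicalSpace X] in
theorem AS.s_s (φ : AS X) : (AS.gc X).s ((AS.gc X).s φ) = φ := AS.ext fun l => by
  rw [AS.coe_s, AS.coe_s, LA.sg_apply, LA.sg_apply, ← mul_assoc, ← mul_pow]; simp

omit [TopologicalSpace X] in
theorem AS.d_s (φ : AS X) : AS.d ((AS.gc X).s φ) = -(AS.gc X).s (AS.d φ) := AS.ext fun l => by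
  rw [AS.val_neg, AS.coe_d, AS.coe_s, AS.coe_s, AS.coe_d, LA.sg_apply,
    LA.da_len (ψ := (-1 : ℂ) ^ l.length • φ.1) fun t ht => by rw [LA.sg_apply, ht]; rfl, map_smul,
    pow_succ]
  simp

theorem exists_prim {a b : AS X} {n : ℤ} (ha : a ∈ AS.G X n) (h : a - AS.d b ∈ Nl X) :
    ∃ b' ∈ AS.G X (n - 1), a - AS.d b' ∈ Nl X := by
  rcases lt_or_ge n 0 with hn | hn
  · exact ⟨0, zero_mem _, by simp [AS.G_neg hn ha]⟩
  lift n to ℕ using hn
  have := Nl_e h n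
  rw [map_sub, AS.e_of_G ha] at this
  cases n with
  | zero => exact ⟨0, zero_mem _, by rwa [(AS.gc X).ed0, ← map_zero AS.d] at this⟩
  | succ n => exact ⟨_, by simpa using AS.e_mem_G n b, (AS.gc X).ed n b ▸ this⟩

/-- cocycles with finitely many degrees -/
def Zc (X : Type) [TopologicalSpace X] : Subalgebra ℂ (AS X) where
  carrier := {φ | AS.d φ ∈ Nl X ∧ ∃ M, ∀ l : List X, M < l.length → φ.1 l = 0}
  mul_mem' := fun {a b} ⟨ha, M, hM⟩ ⟨hb, M', hM'⟩ =>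
    ⟨by rw [AS.d_mul]; exact add_mem (Nl_mul_right ha _) (Nl_mul_left _ hb), M + M', fun l hl => by
      rw [AS.coe_mul, LA.cup_apply]
      refine Finset.sum_eq_zero fun i hi => ?_
      have := Finset.mem_range.1 hi
      by_cases e : M < i + 1
      · rw [hM _ (by simp; omega), zero_mul]
      · rw [hM' _ (by simp; omega), mul_zero]⟩
  add_mem' := fun {a b} ⟨ha, M, hM⟩ ⟨hb, M', hM'⟩ =>
    ⟨by rw [map_add]; exact add_mem ha hb, M + M', fun l hl => by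
      rw [AS.val_add, hM l (by omega), hM' l (by omega), add_zero]⟩
  algebraMap_mem' r := by
    rw [Algebra.algebraMap_eq_smul_one]
    exact ⟨by rw [map_smul, AS.d_one, smul_zero]; exact zero_mem _, 1, fun l hl => by
      rw [AS.val_smul, AS.val_one, if_neg hl.ne', mul_zero]⟩

theorem mem_Zc {φ : AS X} :
    φ ∈ Zc X ↔ AS.d φ ∈ Nl X ∧ ∃ M, ∀ l : List X, M < l.length → φ.1 l = 0 := Iff.rfl

theorem G_Zc {φ : AS X} {n : ℤ} (h : φ ∈ AS.G X n) (hd : AS.d φ ∈ Nl X) : φ ∈ Zc X :=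
  ⟨hd, (n + 1).toNat, fun l hl => AS.mem_G.1 h l (by omega)⟩

/-- coboundaries -/
def Bi (X : Type) [TopologicalSpace X] : Ideal (Zc X) where
  carrier := {φ | ∃ b : AS X, φ.1 - AS.d b ∈ Nl X}
  add_mem' := fun ⟨b, h⟩ ⟨b', h'⟩ => ⟨b + b', by
    have := add_mem h h'
    rwa [sub_add_sub_comm, ← map_add] at this⟩
  zero_mem' := ⟨0, by simp⟩
  smul_mem' := fun c φ ⟨b, h⟩ => ⟨(AS.gc X).s c.1 * b, by
    have := add_mem (Nl_mul_left c.1 h) (Nl_mul_right (Nl_s c.2.1) b)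
    rw [AS.d_mul, AS.d_s, AS.s_s, show (c • φ).1 = c.1 * φ.1 from rfl]
    rwa [show c.1 * (φ.1 - AS.d b) + (AS.gc X).s (AS.d c.1) * b =
      c.1 * φ.1 - (-(AS.gc X).s (AS.d c.1) * b + c.1 * AS.d b) by noncomm_ring] at this⟩

instance : (Bi X).IsTwoSided := ⟨fun {φ} c ⟨b, h⟩ => ⟨b * c.1, by
  have := sub_mem (Nl_mul_right h c.1) (Nl_mul_left ((AS.gc X).s b) c.2.1)
  rw [AS.d_mul, show (φ * c).1 = φ.1 * c.1 from rfl]
  rwa [sub_mul, sub_sub] at this⟩⟩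

/-- the cohomology ring -/
def HR (X : Type) [TopologicalSpace X] : Type := Zc X ⧸ Bi X

instance : Ring (HR X) := inferInstanceAs (Ring (Zc X ⧸ Bi X))
instance : Algebra ℂ (HR X) := inferInstanceAs (Algebra ℂ (Zc X ⧸ Bi X))

/-- the class of a cocycle -/
def HR.mk (X : Type) [TopologicalSpace X] : Zc X →ₐ[ℂ] HR X := Ideal.Quotient.mkₐ ℂ (Bi X)

open Classical in
/-- the class of a cochain (zero if it is not a cocycle) -/
def cl (φ : AS X) : HR X := if h : φ ∈ Zc X then HR.mk X ⟨φ, h⟩ else 0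

/-- pull-back of cocycles -/
def Zc.pull (g : C(X, Y)) : Zc Y →ₐ[ℂ] Zc X :=
  ((AS.pull g).comp (Zc Y).val).codRestrict (Zc X) fun φ =>
    ⟨AS.pull_d g φ.1 ▸ Nl_pull g φ.2.1, φ.2.2.imp fun _ h l hl => h _ (by simpa using hl)⟩

theorem HR.mk_eq_zero {φ : Zc X} : HR.mk X φ = 0 ↔ ∃ b : AS X, φ.1 - AS.d b ∈ Nl X :=
  Ideal.Quotient.eq_zero_iff_mem

/-- pull-back of classes -/
def HR.pull (g : C(X, Y)) : HR Y →ₐ[ℂ] HR X :=
  Ideal.Quotient.liftₐ (Bi Y) ((HR.mk X).comp (Zc.pull g)) fun _ ⟨b, h⟩ =>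
    HR.mk_eq_zero.2 ⟨AS.pull g b, by
      have := Nl_pull g h
      rwa [map_sub, AS.pull_d] at this⟩

theorem HR.pull_mk (g : C(X, Y)) (φ : Zc Y) : HR.pull g (HR.mk Y φ) = HR.mk X (Zc.pull g φ) := rfl

/-- the component of degree `n` of a cocycle -/
def Zc.e (X : Type) [TopologicalSpace X] (n : ℕ) : Zc X →ₗ[ℂ] Zc X :=
  ((AS.gc X).e n).restrict (p := (Zc X).toSubmodule) (q := (Zc X).toSubmodule) fun φ h =>
    G_Zc (AS.e_mem_G n φ) ((AS.gc X).ed n φ ▸ Nl_e h.1 (n + 1))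

/-- the component of degree `n` of a class -/
def hp (X : Type) [TopologicalSpace X] (n : ℕ) : HR X →ₗ[ℂ] HR X :=
  Submodule.mapQ ((Bi X).restrictScalars ℂ) ((Bi X).restrictScalars ℂ) (Zc.e X n) fun φ ⟨b, h⟩ => by
    have := Nl_e h n
    rw [map_sub] at this
    cases n with
    | zero => exact ⟨0, by rwa [(AS.gc X).ed0, ← map_zero AS.d] at this⟩
    | succ n => exact ⟨_, (AS.gc X).ed n b ▸ this⟩

theorem hp_mk (n : ℕ) (φ : Zc X) : hp X n (HR.mk X φ) = HR.mk X (Zc.e X n φ) := rfl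

/-- classes of degree `n` -/
def hr (X : Type) [TopologicalSpace X] (n : ℤ) : Submodule ℂ (HR X) :=
  ⨅ (m : ℕ) (_ : (m : ℤ) ≠ n), LinearMap.ker (hp X m)

/-- restriction to a subset -/
abbrev HR.res (K : Set X) : HR X →ₐ[ℂ] HR K := HR.pull ⟨Subtype.val, continuous_subtype_val⟩

variable {a b : AS X} {c c' : HR X} {n m : ℤ} {p q : ℕ}

theorem HR.mk_surj : Function.Surjective (HR.mk X) := Ideal.Quotient.mk_surjective

theorem cl_mk (φ : Zc X) : cl φ.1 = HR.mk X φ := dif_pos φ.2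

theorem cl_add (ha : a ∈ Zc X) (hb : b ∈ Zc X) : cl (a + b) = cl a + cl b :=
  (cl_mk (⟨a, ha⟩ + ⟨b, hb⟩)).trans ((map_add _ _ _).trans
    (congrArg₂ _ (cl_mk ⟨a, ha⟩).symm (cl_mk ⟨b, hb⟩).symm))

theorem cl_sub (ha : a ∈ Zc X) (hb : b ∈ Zc X) : cl (a - b) = cl a - cl b :=
  (cl_mk (⟨a, ha⟩ - ⟨b, hb⟩)).trans ((map_sub _ _ _).trans
    (congrArg₂ _ (cl_mk ⟨a, ha⟩).symm (cl_mk ⟨b, hb⟩).symm))

theorem cl_mul (ha : a ∈ Zc X) (hb : b ∈ Zc X) : cl (a * b) = cl a * cl b :=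
  (cl_mk (⟨a, ha⟩ * ⟨b, hb⟩)).trans ((map_mul _ _ _).trans
    (congrArg₂ _ (cl_mk ⟨a, ha⟩).symm (cl_mk ⟨b, hb⟩).symm))

theorem cl_zero : cl (0 : AS X) = 0 := (cl_mk 0).trans (map_zero _)

theorem cl_smul (r : ℂ) (a : AS X) : cl (r • a) = r • cl a := by
  by_cases ha : a ∈ Zc X
  · exact (cl_mk (r • ⟨a, ha⟩)).trans ((map_smul _ _ _).trans (congrArg _ (cl_mk ⟨a, ha⟩).symm))
  by_cases hr : r = 0
  · rw [hr, zero_smul, zero_smul, cl_zero]
  · rw [cl, cl, dif_neg ha, dif_neg fun h => ha ?_, smul_zero]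
    simpa [hr] using (Zc X).smul_mem h r⁻¹

theorem cl_one : cl (1 : AS X) = 1 := (cl_mk 1).trans (map_one _)

theorem cl_sum {κ : Type} (t : Finset κ) {f : κ → AS X} (h : ∀ k ∈ t, f k ∈ Zc X) :
    cl (∑ k ∈ t, f k) = ∑ k ∈ t, cl (f k) := by
  classical
  induction t using Finset.induction_on with
  | empty => simpa using cl_zero
  | insert a s ha ih =>
    have h' : ∀ k ∈ s, f k ∈ Zc X := fun k hk => h k (Finset.mem_insert_of_mem hk)
    rw [Finset.sum_insert ha, Finset.sum_insert ha,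
      cl_add (h a (Finset.mem_insert_self _ _)) (sum_mem h'), ih h']

theorem pull_cl (g : C(Y, X)) (ha : a ∈ Zc X) : HR.pull g (cl a) = cl (AS.pull g a) :=
  (congrArg _ (cl_mk ⟨a, ha⟩)).trans (cl_mk (Zc.pull g ⟨a, ha⟩)).symm

theorem HR.pull_pull (g : C(X, Y)) (h : C(Y, Z)) (c : HR Z) :
    HR.pull g (HR.pull h c) = HR.pull (h.comp g) c := by
  obtain ⟨φ, rfl⟩ := HR.mk_surj c
  exact congrArg (HR.mk X) (Subtype.ext (AS.pull_pull g h φ.1))

theorem HR.pull_id (c : HR X) : HR.pull (.id X) c = c := by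
  obtain ⟨φ, rfl⟩ := HR.mk_surj c
  exact congrArg (HR.mk X) (Subtype.ext (AS.pull_id φ.1))

theorem HR.pull_bij (e : X ≃ₜ Y) : Function.Bijective (HR.pull (e : C(X, Y))) :=
  Function.bijective_iff_has_inverse.2 ⟨HR.pull (e.symm : C(Y, X)),
    fun c => by rw [HR.pull_pull, Homeomorph.toContinuousMap_comp_symm, HR.pull_id],
    fun c => by rw [HR.pull_pull, Homeomorph.symm_comp_toContinuousMap, HR.pull_id]⟩

theorem HR.subsingleton [IsEmpty X] : Subsingleton (HR X) :=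
  subsingleton_of_forall_eq 0 fun c => by
    obtain ⟨φ, rfl⟩ := HR.mk_surj c
    exact HR.mk_eq_zero.2 ⟨0, mem_Nl.2 fun t => isEmptyElim t⟩

theorem HR.nontrivial [Nonempty X] : Nontrivial (HR X) :=
  ⟨1, 0, fun h => by
    obtain ⟨b, hb⟩ := (HR.mk_eq_zero (φ := 1)).1 h
    obtain ⟨x⟩ := ‹Nonempty X›
    simpa [AS.val_one, AS.coe_d'] using AS.z_val (mem_Nl.1 hb x)⟩

theorem hp_pull (g : C(Y, X)) (p : ℕ) (c : HR X) : hp Y p (HR.pull g c) = HR.pull g (hp X p c) := by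
  obtain ⟨φ, rfl⟩ := HR.mk_surj c
  exact congrArg (HR.mk Y) (Subtype.ext (AS.pull_e g p φ.1).symm)

theorem hp_cl (ha : a ∈ Zc X) (p : ℕ) : hp X p (cl a) = cl ((AS.gc X).e p a) :=
  (congrArg _ (cl_mk ⟨a, ha⟩)).trans (cl_mk (Zc.e X p ⟨a, ha⟩)).symm

theorem mem_hr : c ∈ hr X n ↔ ∀ m : ℕ, (m : ℤ) ≠ n → hp X m c = 0 := by simp [hr]

theorem hp_hp (p : ℕ) (c : HR X) : hp X p (hp X p c) = hp X p c := by
  obtain ⟨φ, rfl⟩ := HR.mk_surj c
  exact congrArg (HR.mk X) (Subtype.ext ((AS.gc X).ee p φ.1))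

theorem mk_mem_hr {φ : Zc X} (h : φ.1 ∈ AS.G X n) : HR.mk X φ ∈ hr X n := mem_hr.2 fun m hm =>
  (congrArg (HR.mk X) (Subtype.ext (AS.e_of_G_ne h hm) : Zc.e X m φ = 0)).trans (map_zero _)

theorem hp_mem (p : ℕ) (c : HR X) : hp X p c ∈ hr X p := by
  obtain ⟨φ, rfl⟩ := HR.mk_surj c
  exact mk_mem_hr (φ := Zc.e X p φ) (AS.e_mem_G p φ.1)

theorem exists_sum_hp (c : HR X) : ∃ M, (∀ p, M ≤ p → hp X p c = 0) ∧
    ∀ M', M ≤ M' → c = ∑ p ∈ Finset.range M', hp X p c := by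
  obtain ⟨φ, rfl⟩ := HR.mk_surj c
  obtain ⟨M, hM⟩ := φ.2.2
  refine ⟨M, fun p h => ?_, fun M' h => ?_⟩
  · refine (congrArg (HR.mk X) (Subtype.ext (AS.ext fun l => ?_) : Zc.e X p φ = 0)).trans
      (map_zero _)
    refine (AS.val_e p φ.1 l).trans ?_
    split_ifs with e
    exacts [hM l (by omega), rfl]
  · simp only [hp_mk, ← map_sum]
    refine congrArg _ (Subtype.ext (AS.ext fun l => ?_))
    have : ∀ s : Finset ℕ, (∑ p ∈ s, Zc.e X p φ).1.1 l =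
        ∑ p ∈ s, if l.length = p + 1 then φ.1.1 l else 0 := fun s => by
      induction s using Finset.induction_on with
      | empty => rfl
      | insert a s ha ih => rw [Finset.sum_insert ha, Finset.sum_insert ha, ← ih]; rfl
    rw [this]
    cases l with
    | nil => simp
    | cons x t =>
      simp only [List.length_cons, add_left_inj, Finset.sum_ite_eq, Finset.mem_range]
      split_ifs with e
      exacts [rfl, hM _ (by simp; omega)]

theorem hp_ext (h : ∀ p, hp X p c = hp X p c') : c = c' := by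
  obtain ⟨M, -, e⟩ := exists_sum_hp c
  obtain ⟨M', -, e'⟩ := exists_sum_hp c'
  rw [e (M + M') (by omega), e' (M + M') (by omega)]
  exact Finset.sum_congr rfl fun p _ => h p

theorem mem_hr_nat : c ∈ hr X p ↔ hp X p c = c := by
  refine ⟨fun h => hp_ext fun q => ?_, fun h => h ▸ hp_mem p c⟩
  by_cases e : q = p
  · rw [e, hp_hp]
  · rw [mem_hr.1 h q (by omega), mem_hr.1 (hp_mem p c) q (by omega)]

theorem hr_neg (h : n < 0) : hr X n = ⊥ := (Submodule.eq_bot_iff _).2 fun c hc =>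
  hp_ext fun p => by rw [mem_hr.1 hc p (by omega), map_zero]

theorem hr_disj (h : c ∈ hr X n) (h' : c ∈ hr X m) (e : n ≠ m) : c = 0 := hp_ext fun p => by
  rw [map_zero]
  by_cases e' : (p : ℤ) = n
  exacts [mem_hr.1 h' p (by omega), mem_hr.1 h p e']

theorem exists_rep (h : c ∈ hr X n) : ∃ φ : Zc X, φ.1 ∈ AS.G X n ∧ HR.mk X φ = c := by
  rcases lt_or_ge n 0 with hn | hn
  · rw [hr_neg hn] at h
    exact ⟨0, zero_mem _, (map_zero _).trans h.symm⟩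
  lift n to ℕ using hn
  obtain ⟨φ, rfl⟩ := HR.mk_surj c
  exact ⟨Zc.e X n φ, AS.e_mem_G n φ.1, mem_hr_nat.1 h⟩

theorem hp_of_hr (h : c ∈ hr X q) (p : ℕ) : hp X p c = if p = q then c else 0 := by
  split_ifs with e
  exacts [e ▸ mem_hr_nat.1 (e ▸ h), mem_hr.1 h p (by omega)]

/-- induction over homogeneous classes -/
theorem hr_induction {P : HR X → Prop} (h0 : P 0) (ha : ∀ a b, P a → P b → P (a + b))
    (h : ∀ p : ℕ, ∀ a ∈ hr X p, P a) (c : HR X) : P c := by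
  obtain ⟨M, -, e⟩ := exists_sum_hp c
  rw [e M le_rfl]
  exact Finset.sum_induction _ P ha h0 fun p _ => h p _ (hp_mem p c)

theorem one_mem_hr : (1 : HR X) ∈ hr X 0 := mk_mem_hr (φ := 1) AS.one_mem_G

theorem mul_mem_hr (h : c ∈ hr X n) (h' : c' ∈ hr X m) : c * c' ∈ hr X (n + m) := by
  obtain ⟨φ, hφ, rfl⟩ := exists_rep h
  obtain ⟨ψ, hψ, rfl⟩ := exists_rep h'
  rw [← map_mul]
  exact mk_mem_hr (AS.mul_mem_G hφ hψ)

theorem pow_mem_hr (h : c ∈ hr X n) (k : ℕ) : c ^ k ∈ hr X (k * n) := by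
  induction k with
  | zero => simpa using one_mem_hr
  | succ k ih => simpa [pow_succ, add_mul] using mul_mem_hr ih h

theorem pull_mem_hr (g : C(Y, X)) (h : c ∈ hr X n) : HR.pull g c ∈ hr Y n :=
  mem_hr.2 fun m hm => by rw [hp_pull, mem_hr.1 h m hm, map_zero]

theorem hp_mul_left (h : c ∈ hr X p) (q : ℕ) (c' : HR X) :
    hp X (p + q) (c * c') = c * hp X q c' := by
  induction c' using hr_induction with
  | h0 => simp
  | ha a b ha hb => simp only [mul_add, map_add, ha, hb]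
  | h k a ha =>
    rw [hp_of_hr (q := p + k) (by exact_mod_cast mul_mem_hr h ha), hp_of_hr ha]
    by_cases e : q = k <;> simp [e]

theorem hp_mul_right (c : HR X) (h : c' ∈ hr X q) (p : ℕ) :
    hp X (p + q) (c * c') = hp X p c * c' := by
  induction c using hr_induction with
  | h0 => simp
  | ha a b ha hb => simp only [add_mul, map_add, ha, hb]
  | h k a ha =>
    rw [hp_of_hr (q := k + q) (by exact_mod_cast mul_mem_hr ha h), hp_of_hr ha]
    by_cases e : p = k <;> simp [e]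

theorem hp_mul_lt (h : c ∈ hr X p) (c' : HR X) (hq : q < p) :
    hp X q (c * c') = 0 ∧ hp X q (c' * c) = 0 := by
  induction c' using hr_induction with
  | h0 => simp
  | ha a b ha hb => simp only [mul_add, add_mul, map_add, ha.1, hb.1, ha.2, hb.2, add_zero, and_self]
  | h k a ha =>
    exact ⟨mem_hr.1 (mul_mem_hr h ha) q (by omega), mem_hr.1 (mul_mem_hr ha h) q (by omega)⟩

/-- graded commutativity -/
theorem hr_comm (h : c ∈ hr X p) (h' : c' ∈ hr X q) : c * c' = (-1 : ℂ) ^ (p * q) • (c' * c) := by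
  obtain ⟨φ, hφ, rfl⟩ := exists_rep h
  obtain ⟨ψ, hψ, rfl⟩ := exists_rep h'
  obtain ⟨u, -, -, hu⟩ := AS.comm hφ hψ
  rw [← sub_eq_zero, ← map_mul, ← map_mul, ← map_smul, ← map_sub]
  exact HR.mk_eq_zero.2 ⟨u, mem_Nl.2 fun t => hu t (mem_Nl.1 φ.2.1 t) (mem_Nl.1 ψ.2.1 t)⟩

theorem he_induction {P : HR X → Prop} (h0 : P 0) (ha : ∀ a b, P a → P b → P (a + b))
    (h : ∀ p : ℕ, Even p → ∀ a ∈ hr X p, P a) (hc : ∀ m, Odd m → hp X m c = 0) : P c := by
  obtain ⟨M, -, e⟩ := exists_sum_hp c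
  rw [e M le_rfl]
  refine Finset.sum_induction _ P ha h0 fun p _ => ?_
  rcases Nat.even_or_odd p with hp | hp
  exacts [h p hp _ (hp_mem p c), hc p hp ▸ h0]

theorem hp_odd (h : c ∈ hr X n) (e : Even n) (m : ℕ) (hm : Odd m) : hp X m c = 0 :=
  mem_hr.1 h m fun e' => by
    rw [← e', Int.even_coe_nat] at e
    exact Nat.not_even_iff_odd.2 hm e

/-- classes of even degree -/
def HE (X : Type) [TopologicalSpace X] : Subalgebra ℂ (HR X) where
  carrier := {c | ∀ m, Odd m → hp X m c = 0}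
  mul_mem' {a b} ha hb m hm := by
    refine he_induction (P := fun a => hp X m (a * b) = 0) (by simp)
      (fun a a' h h' => by simp only [add_mul, map_add, h, h', add_zero]) (fun p e a ha => ?_) ha
    refine he_induction (P := fun b => hp X m (a * b) = 0) (by simp)
      (fun b b' h h' => by simp only [mul_add, map_add, h, h', add_zero]) (fun q e' b hb => ?_) hb
    exact hp_odd (mul_mem_hr ha hb) (by exact_mod_cast e.add e') m hm
  add_mem' ha hb m hm := by rw [map_add, ha m hm, hb m hm, add_zero]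
  algebraMap_mem' r := by
    rw [Algebra.algebraMap_eq_smul_one]
    exact hp_odd (Submodule.smul_mem _ r one_mem_hr) ⟨0, rfl⟩

theorem mem_HE : c ∈ HE X ↔ ∀ m, Odd m → hp X m c = 0 := Iff.rfl

theorem hr_le_HE (h : c ∈ hr X n) (e : Even n) : c ∈ HE X := hp_odd h e

theorem HE_comm (h : c ∈ HE X) (c' : HR X) : c * c' = c' * c := by
  refine he_induction (P := fun c => c * c' = c' * c) (by simp)
    (fun a b h h' => by simp only [add_mul, mul_add, h, h']) (fun p e a ha => ?_) h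
  induction c' using hr_induction with
  | h0 => simp
  | ha a b h h' => simp only [add_mul, mul_add, h, h']
  | h q b hb => rw [hr_comm ha hb, (e.mul_right q).neg_one_pow, one_smul]

instance : CommRing (HE X) :=
  { (inferInstance : Ring (HE X)) with mul_comm := fun a b => Subtype.ext (HE_comm a.2 b.1) }

theorem pull_mem_HE (g : C(Y, X)) (h : c ∈ HE X) : HR.pull g c ∈ HE Y :=
  fun m hm => by rw [hp_pull, h m hm, map_zero]

/-- pull-back of even classes -/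
def HE.pull (g : C(X, Y)) : HE Y →ₐ[ℂ] HE X :=
  ((HR.pull g).comp (HE Y).val).codRestrict (HE X) fun c => pull_mem_HE g c.2

@[simp] theorem HE.pull_val (g : C(X, Y)) (c : HE Y) : (HE.pull g c).1 = HR.pull g c.1 := rfl

/-- evaluation of polynomials at even classes -/
def ev {σ : Type} (x : σ → HE X) : MvPolynomial σ ℂ →ₐ[ℂ] HR X :=
  (HE X).val.comp (MvPolynomial.aeval x)

theorem ev_X {σ : Type} (x : σ → HE X) (i : σ) : ev x (MvPolynomial.X i) = (x i).1 := by simp [ev]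

theorem ev_mem_HE {σ : Type} (x : σ → HE X) (φ : MvPolynomial σ ℂ) : ev x φ ∈ HE X :=
  (MvPolynomial.aeval x φ).2

theorem pull_ev {σ : Type} (g : C(Y, X)) (x : σ → HE X) (φ : MvPolynomial σ ℂ) :
    HR.pull g (ev x φ) = ev (fun i => HE.pull g (x i)) φ :=
  congrArg Subtype.val (MvPolynomial.comp_aeval_apply (φ := HE.pull g) (f := x) φ)

theorem ev_rename {σ τ : Type} (x : τ → HE X) (w : σ → τ) (φ : MvPolynomial σ ℂ) :
    ev x (MvPolynomial.rename w φ) = ev (x ∘ w) φ :=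
  congrArg Subtype.val (MvPolynomial.aeval_rename w x φ)

theorem ev_mem_hr {σ : Type} {x : σ → HE X} (h : ∀ i, (x i).1 ∈ hr X 2) {φ : MvPolynomial σ ℂ}
    (hφ : φ.IsHomogeneous p) : ev x φ ∈ hr X (2 * p) := by
  classical
  have key : ∀ (d : σ →₀ ℕ) (s : Finset σ),
      (∏ i ∈ s, x i ^ d i).1 ∈ hr X (2 * (∑ i ∈ s, d i : ℕ)) := fun d s => by
    induction s using Finset.induction_on with
    | empty => simpa using one_mem_hr
    | insert a s ha ih =>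
      have := mul_mem_hr (pow_mem_hr (h a) (d a)) ih
      rw [Finset.prod_insert ha, Finset.sum_insert ha, Nat.cast_add, mul_add, mul_comm 2]
      exact this
  rw [φ.as_sum, map_sum]
  refine sum_mem fun d hd => ?_
  have e : ev x (MvPolynomial.monomial d (φ.coeff d)) = φ.coeff d • (∏ i ∈ d.support, x i ^ d i).1 := by
    simp [ev, MvPolynomial.aeval_monomial, Finsupp.prod, Algebra.smul_def]
  rw [e, hφ.degree_eq_sum_deg_support hd]
  exact Submodule.smul_mem _ _ (key d _)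

theorem hp_ev {σ : Type} {x : σ → HE X} (h : ∀ i, (x i).1 ∈ hr X 2) (φ : MvPolynomial σ ℂ)
    (p : ℕ) : hp X (2 * p) (ev x φ) = ev x (MvPolynomial.homogeneousComponent p φ) := by
  have e : ∀ i, ev x (MvPolynomial.homogeneousComponent i φ) ∈ hr X (2 * i : ℕ) := fun i => by
    exact_mod_cast ev_mem_hr h (MvPolynomial.homogeneousComponent_isHomogeneous i φ)
  conv_lhs => rw [← φ.sum_homogeneousComponent, map_sum, map_sum]
  rw [Finset.sum_eq_single p, mem_hr_nat.1 (e p)]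
  · exact fun i _ hi => mem_hr.1 (e i) _ (by omega)
  · intro hp
    rw [MvPolynomial.homogeneousComponent_eq_zero _ _ (by simpa using hp), map_zero, map_zero]

section compact
variable [CompactSpace X] [T2Space X] [CompactSpace Y] [T2Space Y]

theorem CC_N : (CC X).N = Nl X := rfl

theorem Z_Zc (h : a ∈ (CC X).Z n) : a ∈ Zc X := G_Zc h.1.1 h.2

theorem CP_Z_CC {A : Set X} (h : a ∈ (CP univ A).Z n) : a ∈ (CC X).Z n :=
  AS.mem_cp_Z.2 ⟨⟨h.1.1, by simp⟩, (AS.mem_cp_Z.1 h).2⟩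

theorem mem_CC_Z : a ∈ (CC X).Z n ↔ a ∈ AS.G X n ∧ AS.d a ∈ Nl X := by
  simp [AS.mem_cp_Z, mem_Nl]

theorem mem_CC_B : a ∈ (CC X).B n ↔ ∃ b ∈ AS.G X (n - 1), a - AS.d b ∈ Nl X := by
  simp [AS.mem_cp_B, mem_Nl]

theorem cl_mem_hr (h : a ∈ (CC X).Z n) : cl a ∈ hr X n :=
  cl_mk ⟨a, Z_Zc h⟩ ▸ mk_mem_hr (φ := ⟨a, Z_Zc h⟩) h.1.1

theorem exists_cl (h : c ∈ hr X n) : ∃ a ∈ (CC X).Z n, cl a = c := by
  obtain ⟨φ, hφ, rfl⟩ := exists_rep h
  exact ⟨φ.1, mem_CC_Z.2 ⟨hφ, φ.2.1⟩, cl_mk φ⟩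

theorem cl_eq_zero (h : a ∈ (CC X).Z n) : cl a = 0 ↔ a ∈ (CC X).B n := by
  rw [cl_mk ⟨a, Z_Zc h⟩, HR.mk_eq_zero, mem_CC_B]
  exact ⟨fun ⟨_, e⟩ => exists_prim h.1.1 e, fun ⟨b, _, e⟩ => ⟨b, e⟩⟩

theorem cl_eq (ha : a ∈ (CC X).Z n) (hb : b ∈ (CC X).Z n) : cl a = cl b ↔ a - b ∈ (CC X).B n := by
  rw [← cl_eq_zero (sub_mem ha hb), cl_sub (Z_Zc ha) (Z_Zc hb), sub_eq_zero]

theorem mul_mem_Z (ha : a ∈ (CC X).Z n) (hb : b ∈ (CC X).Z m) : a * b ∈ (CC X).Z (n + m) :=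
  mem_CC_Z.2 ⟨AS.mul_mem_G ha.1.1 hb.1.1, (mul_mem (Z_Zc ha) (Z_Zc hb)).1⟩

/-- the class of a cocycle of degree `n` -/
def clL (X : Type) [TopologicalSpace X] [CompactSpace X] [T2Space X] (n : ℤ) :
    (CC X).Z n →ₗ[ℂ] hr X n where
  toFun x := ⟨cl x.1, cl_mem_hr x.2⟩
  map_add' x y := Subtype.ext (cl_add (Z_Zc x.2) (Z_Zc y.2))
  map_smul' r x := Subtype.ext (cl_smul r x.1)

/-- cohomology of degree `n` inside the ring -/
def hrEquiv (X : Type) [TopologicalSpace X] [CompactSpace X] [T2Space X] (n : ℤ) :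
    (CC X).H n ≃ₗ[ℂ] hr X n :=
  LinearEquiv.ofBijective (Submodule.liftQ _ (clL X n) fun x hx =>
    Subtype.ext ((cl_eq_zero x.2).2 hx)) ⟨(injective_iff_map_eq_zero _).2 fun a ha => by
      obtain ⟨x, rfl⟩ := Cx.cls_surj n a
      exact Cx.cls_eq_zero.2 ((cl_eq_zero x.2).1 (congrArg Subtype.val ha)), fun c => by
      obtain ⟨a, ha, e⟩ := exists_cl c.2
      exact ⟨(CC X).cls n ⟨a, ha⟩, Subtype.ext e⟩⟩

theorem hrEquiv_cls (x : (CC X).Z n) : (hrEquiv X n ((CC X).cls n x)).1 = cl x.1 := rfl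

theorem mor_pl (g : C(X, Y)) {K A : Set X} {K' A' : Set Y} (hK : MapsTo g K K')
    (hA : MapsTo g A A') : (CP K' A').Mor (CP K A) (AS.pl g) 0 := AS.pull_mor g.continuous hK hA

theorem pull_mem_Z (g : C(X, Y)) {a : AS Y} (h : a ∈ (CC Y).Z n) : AS.pull g a ∈ (CC X).Z n := by
  simpa using (mor_pl g (mapsTo_univ _ _) (mapsTo_empty _ _)).mem_Z h

theorem inj_pl_iff (g : C(X, Y)) (n : ℤ) : (CC Y).Inj (CC X) (AS.pl g) 0 n ↔
    ∀ c ∈ hr Y n, HR.pull g c = 0 → c = 0 := by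
  refine ⟨fun h c hc e => ?_, fun h a ha e => ?_⟩
  · obtain ⟨a, ha, rfl⟩ := exists_cl hc
    rw [pull_cl g (Z_Zc ha), cl_eq_zero (pull_mem_Z g ha)] at e
    exact (cl_eq_zero ha).2 (h a ha (by simpa using e))
  · refine (cl_eq_zero ha).1 (h _ (cl_mem_hr ha) ?_)
    rw [pull_cl g (Z_Zc ha), cl_eq_zero (pull_mem_Z g ha)]
    simpa using e

theorem sur_pl_iff (g : C(X, Y)) (n : ℤ) : (CC Y).Sur (CC X) (AS.pl g) 0 n ↔
    ∀ c ∈ hr X n, ∃ c' ∈ hr Y n, HR.pull g c' = c := by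
  refine ⟨fun h c hc => ?_, fun h a ha => ?_⟩
  · obtain ⟨a, ha, rfl⟩ := exists_cl hc
    obtain ⟨b, hb, e⟩ := h a (by simpa using ha)
    refine ⟨_, cl_mem_hr hb, ?_⟩
    rw [pull_cl g (Z_Zc hb), eq_comm, cl_eq ha (pull_mem_Z g hb)]
    simpa using e
  · rw [add_zero] at ha ⊢
    obtain ⟨c, hc, e⟩ := h _ (cl_mem_hr ha)
    obtain ⟨b, hb, rfl⟩ := exists_cl hc
    rw [pull_cl g (Z_Zc hb), eq_comm, cl_eq ha (pull_mem_Z g hb)] at e
    exact ⟨b, hb, e⟩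

theorem qia_pl_iff (g : C(X, Y)) : (CC Y).QIa (CC X) (AS.pl g) 0 ↔
    Function.Bijective (HR.pull g) := by
  simp only [Cx.qia_iff, inj_pl_iff, sur_pl_iff]
  refine ⟨fun h => ⟨(injective_iff_map_eq_zero _).2 fun c e => hp_ext fun p => ?_, fun c => ?_⟩,
    fun h n => ⟨fun c _ e => (injective_iff_map_eq_zero _).1 h.1 c e, fun c hc => ?_⟩⟩
  · rw [map_zero]
    exact (h p).1 _ (hp_mem p c) (by rw [← hp_pull, e, map_zero])
  · induction c using hr_induction with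
    | h0 => exact ⟨0, map_zero _⟩
    | ha a b ha hb =>
      obtain ⟨a, rfl⟩ := ha
      obtain ⟨b, rfl⟩ := hb
      exact ⟨a + b, map_add _ _ _⟩
    | h p a ha => exact ((h p).2 a ha).imp fun _ e => e.2
  · rcases lt_or_ge n 0 with hn | hn
    · rw [hr_neg hn] at hc
      exact ⟨0, zero_mem _, (map_zero _).trans hc.symm⟩
    lift n to ℕ using hn
    obtain ⟨c, rfl⟩ := h.2 c
    exact ⟨_, hp_mem n c, by rw [← hp_pull, mem_hr_nat.1 hc]⟩

theorem ac_iff (n : ℤ) : (CC X).Ac n ↔ hr X n = ⊥ := by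
  rw [Submodule.eq_bot_iff]
  refine ⟨fun h c hc => ?_, fun h a ha => (cl_eq_zero ha).1 (h _ (cl_mem_hr ha))⟩
  obtain ⟨a, ha, rfl⟩ := exists_cl hc
  exact (cl_eq_zero ha).2 (h ha)

end compact

end Pool.Agent.CS
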