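import Pool.Agent.P.MP_d34769_ag.YBY
import Pool.Agent.P.MP_d34769_ag.YS3

/-! The class of a line bundle in the cohomology ring. -/

open Matrix Set

noncomputable section
namespace Pool.Agent.CS

variable {μ ν : Type} [Fintype μ] [Fintype ν] {X Y : Type} [TopologicalSpace X]
  [TopologicalSpace Y]

theorem cl_eq_of {a b β : AS Y} (ha : a ∈ Zc Y) (hb : b ∈ Zc Y)
    (h : ∀ y, a - b - AS.d β ∈ AS.z y) : cl a = cl b := by
  rw [cl_mk ⟨a, ha⟩, cl_mk ⟨b, hb⟩]
  exact Ideal.Quotient.eq.2 ⟨β, mem_Nl.2 h⟩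

theorem Bun.xq_Zc (L : Bun Y μ 1) : L.xq ∈ Zc Y :=
  ⟨mem_Nl.2 L.d_xq, 3, fun l hl => AS.mem_G.1 L.xq_mem_G l (by omega)⟩

theorem Bun.cl_xq_mem (L : Bun Y μ 1) : cl L.xq ∈ hr Y 2 := mem_hr.2 fun m hm => by
  have h := L.xq_mem_G
  simp only [Gc.G, Submodule.mem_iInf, LinearMap.mem_ker] at h
  rw [hp_cl L.xq_Zc, h m hm, cl_zero]

/-- the class of a line -/
def Bun.x (L : Bun Y μ 1) : HE Y := ⟨cl L.xq, hr_le_HE L.cl_xq_mem even_two⟩

theorem Bun.x_val (L : Bun Y μ 1) : L.x.1 = cl L.xq := rfl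

theorem Bun.x_mem (L : Bun Y μ 1) : L.x.1 ∈ hr Y 2 := L.cl_xq_mem

theorem Bun.pull_x_val (L : Bun Y μ 1) (f : C(X, Y)) : HR.pull f L.x.1 = (L.comap f).x.1 := by
  rw [L.x_val, pull_cl f L.xq_Zc, L.xq_comap, Bun.x_val]

theorem Bun.pull_x (L : Bun Y μ 1) (f : C(X, Y)) : HE.pull f L.x = (L.comap f).x :=
  Subtype.ext (L.pull_x_val f)

/-- X1: isomorphic lines have the same class -/
theorem Bun.x_iso (L : Bun Y μ 1) (L' : Bun Y ν 1) {A : Y → Matrix ν μ ℂ} (hA : Continuous A)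
    (h : ∀ y, L'.Q y * A y * L.Q y ≠ 0) : L'.x = L.x :=
  Subtype.ext (cl_eq_of L'.xq_Zc L.xq_Zc fun y =>
    L.xq_iso_z L' hA.continuousAt hA.matrix_conjTranspose.continuousAt (iso_ne (h y)))

/-- X2: the class of a tensor product -/
theorem Bun.x_tens (L : Bun Y μ 1) (L' : Bun Y ν 1) : (L.tens L').x = L.x + L'.x :=
  Subtype.ext ((cl_eq_of (β := 0) (L.tens L').xq_Zc (add_mem L.xq_Zc L'.xq_Zc) fun y => by
    rw [map_zero, sub_zero]; exact L.xq_tens L' y).trans (cl_add L.xq_Zc L'.xq_Zc))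

/-- X3: the class of a constant line -/
theorem Bun.x_const {Q : Matrix μ μ ℂ} (h : OP 1 Q) : (Bun.const Y h).x = 0 :=
  Subtype.ext (by rw [Bun.x_val, Bun.xq_const, cl_zero]; rfl)

/-- X3: a line with a nowhere vanishing section has class zero -/
theorem Bun.x_sec (L : Bun Y μ 1) {σ : Y → μ → ℂ} (hσ : Continuous σ)
    (h : ∀ y, L.Q y *ᵥ σ y ≠ 0) : L.x = 0 := by
  have h1 : OP 1 (1 : Matrix Unit Unit ℂ) := ⟨by simp, by simp, by simp⟩
  rw [(Bun.const Y h1).x_iso L (A := fun y => replicateCol Unit (σ y))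
    (continuous_matrix fun i _ => (continuous_apply i).comp hσ) fun y e => h y <| by
      ext i
      simpa [mul_apply, mulVec, dotProduct] using congrFun (congrFun e i) (), Bun.x_const]

theorem Bun.x_vec (v : Y → μ → ℂ) (hc : Continuous v) (h : ∀ y, v y ≠ 0) :
    (Bun.vec v hc h).x = 0 :=
  Bun.x_sec _ hc fun y => by rw [Bun.vec_Q, lnv_mulVec (h y)]; exact h y

/-- X4: the class of the dual line -/
theorem Bun.x_tr (L : Bun Y μ 1) : L.tr.x = -L.x := by
  have h1 := (L.tens L.tr).x_sec (σ := fun y p => L.Q y p.1 p.2)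
    (continuous_pi fun p => L.cont.matrix_elem p.1 p.2) fun y e => (L.op y).ne_zero <| by
      ext i j
      have h2 := congrFun e (i, j)
      have h3 := congrFun (congrFun (show L.Q y * L.Q y * L.Q y = L.Q y by
        rw [(L.op y).idem, (L.op y).idem]) i) j
      rw [← h3, Matrix.zero_apply, ← show _ = (0 : ℂ) from h2]
      simp only [mul_apply, mulVec, dotProduct, Bun.tens_Q, Bun.tr_Q, kroneckerMap_apply,
        transpose_apply, Fintype.sum_prod_type, Finset.sum_mul]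
      rw [Finset.sum_comm]
      exact Finset.sum_congr rfl fun k _ => Finset.sum_congr rfl fun l _ => by ring
  rw [Bun.x_tens] at h1
  exact eq_neg_of_add_eq_zero_right h1

/-- a map from `L` to `L'` that does not vanish on `K` gives equal classes on `K` -/
theorem Bun.res_x_iso (L : Bun Y μ 1) (L' : Bun Y ν 1) {A : Y → Matrix ν μ ℂ} (hA : Continuous A)
    {K : Set Y} (h : ∀ y ∈ K, L'.Q y * A y * L.Q y ≠ 0) : HR.res K (L'.x - L.x).1 = 0 := by
  rw [AddSubgroupClass.coe_sub, map_sub, Bun.pull_x_val, Bun.pull_x_val, sub_eq_zero]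
  exact congrArg Subtype.val (Bun.x_iso _ _ (hA.comp continuous_subtype_val) fun y => h y.1 y.2)

theorem Bun.res_x_sec (L : Bun Y μ 1) {σ : Y → μ → ℂ} (hσ : Continuous σ) {K : Set Y}
    (h : ∀ y ∈ K, L.Q y *ᵥ σ y ≠ 0) : HR.res K L.x.1 = 0 := by
  rw [Bun.pull_x_val]
  exact congrArg Subtype.val (Bun.x_sec _ (hσ.comp continuous_subtype_val) fun y => h y.1 y.2)

/-- B1 -/
theorem IsPP.x_ne_zero [CompactSpace X] [T2Space X] {Q : Matrix μ μ ℂ} {L : Bun X μ 1}
    (h : IsPP Q L) (hQ : OP 2 Q) : L.x ≠ 0 := fun e =>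
  h.xq_not_mem hQ ((cl_eq_zero L.xq_mem).1 (congrArg Subtype.val e))

end Pool.Agent.CS
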