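import Pool.Agent.P.MP_d34769_ag.YS6
import Pool.Agent.P.MP_d34769_ag.YA7
import Pool.Agent.P.MP_65ad7c_ag.XI4

/-! Diagrams of projective manifolds and holomorphic maps. -/

open Set
open Pool.Agent.HT (Amb)
open Pool.Agent.HIR (Mf HolP)

noncomputable section
namespace Pool.Agent.CS

section one
variable {M N e : ℕ} {X : Set (Amb M)} {Y : Set (Amb N)} {f : Amb M → Amb N}

/-- the restriction of a map that is continuous on `X` -/
def rmap (hc : ContinuousOn f X) (h : MapsTo f X Y) : C(X, Y) :=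
  ⟨h.restrict f X Y, (continuousOn_iff_continuous_restrict.1 hc).subtype_mk _⟩

@[simp] theorem rmap_val (hc : ContinuousOn f X) (h : MapsTo f X Y) (x : X) :
    (rmap hc h x).1 = f x.1 := rfl

theorem mf_cpt (h : Mf e X) : CompactSpace X := isCompact_iff_compactSpace.1 h.compact

end one

/-- A diagram of projective manifolds and holomorphic maps. -/
structure SDg (S : Sh) where
  M : S.ι → ℕ
  X : ∀ i, Set (Amb (M i))
  f : ∀ i j, Amb (M i) → Amb (M j)
  dm : S.ι → ℕ
  mf : ∀ i, Mf (dm i) (X i)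
  maps : ∀ {i j}, S.rel i j → MapsTo (f i j) (X i) (X j)
  hol : ∀ {i j}, S.rel i j → HolP (dm i) (X i) (f i j)
  comp : ∀ {i j k}, S.rel i j → S.rel j k → ∀ x ∈ X i, f j k (f i j x) = f i k x

namespace SDg
variable {S S' : Sh}

/-- the underlying diagram of compact spaces -/
def toDg (P : SDg S) : Dg S where
  X i := P.X i
  cpt i := mf_cpt (P.mf i)
  mp h := rmap ((P.hol h).cont (P.mf _)) (P.maps h)
  comp h h' x := Subtype.ext (P.comp h h' x.1 x.2)

/-- the double complex of cochains -/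
abbrev bc (P : SDg S) : Bc P.toDg.T := Dg.bc (⊤ : P.toDg.Fam) ⊥

/-- A holomorphic map of diagrams over a map of shapes. -/
structure Hom (φ : ShH S S') (P : SDg S) (P' : SDg S') where
  g : ∀ i j, Amb (P.M i) → Amb (P'.M j)
  maps : ∀ {i j}, φ.R i j → MapsTo (g i j) (P.X i) (P'.X j)
  hol : ∀ {i j}, φ.R i j → HolP (P.dm i) (P.X i) (g i j)
  gl : ∀ {i i' j}, S.rel i i' → φ.R i' j → ∀ x ∈ P.X i, g i' j (P.f i i' x) = g i j x
  gr : ∀ {i j j'}, φ.R i j → S'.rel j j' → ∀ x ∈ P.X i, P'.f j j' (g i j x) = g i j' x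

variable {φ : ShH S S'} {P : SDg S} {P' : SDg S'}

/-- the underlying map of diagrams -/
def Hom.toHom (F : Hom φ P P') : Dg.Hom φ P.toDg P'.toDg where
  g h := rmap ((F.hol h).cont (P.mf _)) (F.maps h)
  gl h h' x := Subtype.ext (F.gl h h' x.1 x.2)
  gr h h' x := Subtype.ext (F.gr h h' x.1 x.2)

theorem Hom.bmor (F : Hom φ P P') : P'.bc.Mor P.bc F.toHom.map 0 :=
  F.toHom.mor (fun _ => mapsTo_univ _ _) fun _ => mapsTo_empty _ _

/-- the map on cohomology -/
abbrev Hom.hm (F : Hom φ P P') (j : ℤ) : P'.bc.cx.H j →ₗ[ℂ] P.bc.cx.H j :=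
  F.bmor.cx.hm (add_zero j)

end SDg

end Pool.Agent.CS
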