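import Pool.Agent.P.MP_d34769_ag.YC3
import Pool.Agent.P.MP_65ad7c_ag.HKD
import Pool.Agent.P.MP_65ad7c_ag.HSPull

/-! Forms of all degrees: graded complex, germs, pull-back under smooth maps. -/

open Set Filter Topology
open scoped ContDiff
open Pool.Agent.HT

noncomputable section
namespace Pool.Agent.CS

variable {V V' V'' : Type} [NormedAddCommGroup V] [NormedSpace ℝ V] [NormedAddCommGroup V']
  [NormedSpace ℝ V'] [NormedAddCommGroup V''] [NormedSpace ℝ V''] {n : ℕ}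

/-- forms of all degrees -/
abbrev OM (S : Set V) : Type := ∀ n, Om S n

/-- the exterior derivative -/
def omD (S : Set V) : Module.End ℂ (OM S) :=
  LinearMap.pi fun n => match n with
    | 0 => 0
    | n + 1 => Om.d S n ∘ₗ LinearMap.proj n

theorem omD_single_YC1 (S : Set V) (a : Om S n) :
    omD S (Pi.single n a) = Pi.single (n + 1) (Om.d S n a) := by
  funext m
  cases m with
  | zero => rw [Pi.single_eq_of_ne (Nat.succ_ne_zero n).symm]; rfl
  | succ m =>
    change Om.d S m ((Pi.single n a : OM S) m) = _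
    by_cases h : m = n
    · subst h
      rw [Pi.single_eq_same, Pi.single_eq_same]
    · rw [Pi.single_eq_of_ne h, Pi.single_eq_of_ne (fun e => h (Nat.succ_injective e)), map_zero]

/-- the de Rham complex -/
def omGc (S : Set V) : Gc (OM S) where
  d := omD S
  e n := LinearMap.single ℂ (Om S) n ∘ₗ LinearMap.proj n
  s := LinearMap.pi fun n => (-1 : ℂ) ^ n • LinearMap.proj n
  ee n x := by
    change (Pi.single n ((Pi.single n (x n) : OM S) n) : OM S) = Pi.single n (x n)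
    rw [Pi.single_eq_same]
  ee' n m x h := by
    change (Pi.single n ((Pi.single m (x m) : OM S) n) : OM S) = 0
    rw [Pi.single_eq_of_ne h, Pi.single_zero]
  ext x h := funext fun n => by
    have h1 : (Pi.single n (x n) : OM S) n = 0 := congrFun (h n) n
    rwa [Pi.single_eq_same] at h1
  ed n x := (omD_single_YC1 S (x n)).symm
  ed0 x := Pi.single_zero 0
  dd x := funext fun n => by
    rcases n with _ | _ | n
    · rfl
    · exact map_zero (Om.d S 0)
    · exact Om.d_d S (x n)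
  es n x := by
    rw [LinearMap.comp_apply, LinearMap.comp_apply, LinearMap.proj_apply, LinearMap.proj_apply,
      LinearMap.pi_apply, LinearMap.smul_apply, map_smul, LinearMap.proj_apply]

variable {S : Set V} {c : OM S}

theorem om_d_zero (c : OM S) : (omGc S).d c 0 = 0 := rfl

theorem om_d_succ (c : OM S) (n : ℕ) : (omGc S).d c (n + 1) = Om.d S n (c n) := rfl

theorem om_e (c : OM S) (n : ℕ) : (omGc S).e n c = Pi.single n (c n) := rfl

theorem om_e_apply (c : OM S) (n m : ℕ) : (omGc S).e n c m = if m = n then c m else 0 := by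
  rw [om_e]
  split_ifs with h
  · subst h
    exact Pi.single_eq_same _ _
  · exact Pi.single_eq_of_ne h _

theorem om_s (c : OM S) (n : ℕ) : (omGc S).s c n = (-1 : ℂ) ^ n • c n := rfl

theorem mem_om_G {k : ℤ} : c ∈ (omGc S).G k ↔ ∀ m : ℕ, (m : ℤ) ≠ k → c m = 0 := by
  simp only [Gc.G, Submodule.mem_iInf, LinearMap.mem_ker, om_e]
  refine forall₂_congr fun m _ => ⟨fun h => ?_, fun h => by rw [h, Pi.single_zero]⟩
  have h1 := congrFun h m
  rwa [Pi.single_eq_same] at h1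

theorem single_mem_G (a : Om S n) : (Pi.single n a : OM S) ∈ (omGc S).G n :=
  mem_om_G.2 fun _ hm => Pi.single_eq_of_ne (fun e => hm (by rw [e])) _

theorem om_d_single (a : Om S n) :
    (omGc S).d (Pi.single n a) = Pi.single (n + 1) (Om.d S n a) := omD_single_YC1 S a

/-- the constant function `1` as a form -/
def sfOne (V : Type) [NormedAddCommGroup V] [NormedSpace ℝ V] : SF V 0 :=
  SF.mk (fun _ => ContinuousAlternatingMap.constOfIsEmpty ℝ V (Fin 0) 1) contDiff_const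

/-- the constant function `1` -/
def omOne (S : Set V) : OM S := Pi.single 0 (Om.mk S (sfOne V))

theorem omOne_mem (S : Set V) : omOne S ∈ (omGc S).G 0 := single_mem_G (n := 0) _

theorem omOne_d (S : Set V) : (omGc S).d (omOne S) = 0 := by
  have h : SF.d 0 (sfOne V) = 0 := SF.ext (funext fun x => by
    ext v
    simp [sfOne, extDeriv, ContinuousAlternatingMap.alternatizeUncurryFin_apply])
  rw [omOne, om_d_single, Om.d_mk, h, Submodule.Quotient.mk_zero, Pi.single_zero]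

theorem res_mono_YC1 {O O' : Set V} (h : O ⊆ O') {a : Om S n}
    (ha : Om.res (inter_subset_left : S ∩ O' ⊆ S) n a = 0) :
    Om.res (inter_subset_left : S ∩ O ⊆ S) n a = 0 := by
  rw [← Om.res_res (inter_subset_inter_right S h) inter_subset_left, ha, map_zero]

/-- forms that vanish on `S` near `x` -/
def omz (S : Set V) (x : V) : Submodule ℂ (OM S) where
  carrier := {c | ∃ O, IsOpen O ∧ x ∈ O ∧
    ∀ n, Om.res (inter_subset_left : S ∩ O ⊆ S) n (c n) = 0}
  add_mem' := by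
    rintro a b ⟨O, hO, hx, ha⟩ ⟨O', hO', hx', hb⟩
    refine ⟨O ∩ O', hO.inter hO', ⟨hx, hx'⟩, fun n => ?_⟩
    rw [Pi.add_apply, map_add, res_mono_YC1 inter_subset_left (ha n),
      res_mono_YC1 inter_subset_right (hb n), add_zero]
  zero_mem' := ⟨univ, isOpen_univ, trivial, fun _ => map_zero _⟩
  smul_mem' := by
    rintro r a ⟨O, hO, hx, ha⟩
    exact ⟨O, hO, hx, fun n => by rw [Pi.smul_apply, map_smul, ha n, smul_zero]⟩

theorem mem_omz {x : V} : c ∈ omz S x ↔ ∃ O, IsOpen O ∧ x ∈ O ∧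
    ∀ n, Om.res (inter_subset_left : S ∩ O ⊆ S) n (c n) = 0 := Iff.rfl

theorem single_mem_omz {x : V} {a : SF V n} :
    (Pi.single n (Om.mk S a) : OM S) ∈ omz S x ↔ VN S a x := by
  refine ⟨fun ⟨O, hO, hx, h⟩ => ⟨O, hO, hx, ?_⟩, fun ⟨O, hO, hx, h⟩ => ⟨O, hO, hx, fun m => ?_⟩⟩
  · have h1 := h n
    rw [Pi.single_eq_same] at h1
    exact Om.mk_eq_zero.1 h1
  · by_cases e : m = n
    · subst e
      rw [Pi.single_eq_same]
      exact Om.mk_eq_zero.2 h
    · rw [Pi.single_eq_of_ne e, map_zero]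

theorem omOne_ne {x : V} (hx : x ∈ S) : omOne S ∉ omz S x := fun h => by
  obtain ⟨O, -, hxO, h1⟩ := single_mem_omz.1 h
  have h2 := h1 (fun _ => x) univ isOpen_univ contDiffOn_const (fun _ _ => ⟨hx, hxO⟩) x trivial
  have h3 := DFunLike.congr_fun h2 Fin.elim0
  rw [pull_apply] at h3
  simp [sfOne] at h3

theorem om_eq_zero (h : ∀ x ∈ S, c ∈ omz S x) : c = 0 := funext fun n => by
  obtain ⟨a, ha⟩ := Om.mk_surj (c n)
  rw [← ha]
  refine Om.mk_eq_zero.2 (Nul.loc fun x hx => ?_)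
  obtain ⟨O, hO, hxO, h1⟩ := h x hx
  have h2 := h1 n
  rw [← ha] at h2
  exact ⟨O, hO.mem_nhds hxO, Om.mk_eq_zero.1 h2⟩

theorem omz_opn_YC1 (c : OM S) : IsOpen {x | c ∈ omz S x} :=
  isOpen_iff_forall_mem_open.2 fun _ ⟨O, hO, hx, h⟩ => ⟨O, fun _ hy => ⟨O, hO, hy, h⟩, hO, hx⟩

/-- multiplication by a smooth function -/
def omMul_YC1 (S : Set V) (χ : V → ℝ) (hχ : ContDiff ℝ ∞ χ) : OM S →ₗ[ℂ] OM S :=
  LinearMap.piMap fun n => Submodule.mapQ _ _ (SF.fsmul χ hχ n) fun _ h => Nul.fsmul h χ hχ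

theorem omMul_mk_YC1 {χ : V → ℝ} (hχ : ContDiff ℝ ∞ χ) {a : SF V n} (h : Om.mk S a = c n) :
    omMul_YC1 S χ hχ c n = Om.mk S (SF.fsmul χ hχ n a) := by
  rw [omMul_YC1, LinearMap.coe_piMap, Pi.map_apply, ← h]
  rfl

theorem omMul_z_YC1 {χ : V → ℝ} (hχ : ContDiff ℝ ∞ χ) {x : V} (h : c ∈ omz S x) :
    omMul_YC1 S χ hχ c ∈ omz S x := by
  obtain ⟨O, hO, hx, h⟩ := h
  refine ⟨O, hO, hx, fun n => ?_⟩
  obtain ⟨a, ha⟩ := Om.mk_surj (c n)
  have h1 := h n
  rw [← ha] at h1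
  rw [omMul_mk_YC1 hχ ha]
  exact Om.mk_eq_zero.2 (Nul.fsmul (Om.mk_eq_zero.1 h1) χ hχ)

theorem omMul_near_YC1 {χ : V → ℝ} (hχ : ContDiff ℝ ∞ χ) {x : V} {r : ℝ}
    (h : ∀ᶠ y in 𝓝 x, χ y = r) : omMul_YC1 S χ hχ c - (r : ℂ) • c ∈ omz S x := by
  obtain ⟨O, h1, hO, hx⟩ := eventually_nhds_iff.1 h
  refine ⟨O, hO, hx, fun n => ?_⟩
  obtain ⟨a, ha⟩ := Om.mk_surj (c n)
  rw [Pi.sub_apply, Pi.smul_apply, omMul_mk_YC1 hχ ha, ← ha]
  refine (Om.mk_eq_zero (a := SF.fsmul χ hχ n a - (r : ℂ) • a)).2 (Nul.of_zero fun y hy => ?_)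
  rw [SF.val_sub, SF.val_smul]
  ext v
  simp [h1 y hy.2]

/-- germs of forms -/
def omLoc [FiniteDimensional ℝ V] (S : Set V) [CompactSpace S] : Loc (omGc S) S where
  z x := omz S x.1
  dz t c := by
    rintro ⟨O, hO, hx, h⟩
    refine ⟨O, hO, hx, fun n => ?_⟩
    cases n with
    | zero => exact map_zero _
    | succ n => rw [om_d_succ, ← Om.d_res, h n, map_zero]
  ez t n c := by
    rintro ⟨O, hO, hx, h⟩
    refine ⟨O, hO, hx, fun m => ?_⟩
    rw [om_e_apply]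
    split_ifs
    · exact h m
    · exact map_zero _
  sz t c := by
    rintro ⟨O, hO, hx, h⟩
    exact ⟨O, hO, hx, fun m => by rw [om_s, map_smul, h m, smul_zero]⟩
  opn c := (omz_opn_YC1 c).preimage continuous_subtype_val
  glue K₁ K₂ h₁ h₂ n a ha h := by
    have hW : IsOpen {t : S | a ∈ omz S t.1} := (omz_opn_YC1 a).preimage continuous_subtype_val
    obtain ⟨χ, hχ, -, hs, -, h1⟩ := Wein.exists_bump (Subtype.val '' (K₁ \ {t : S | a ∈ omz S t.1}))
      (Subtype.val '' K₂)ᶜ ((h₁.sdiff hW).isCompact.image continuous_subtype_val)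
      (h₂.isCompact.image continuous_subtype_val).isClosed.isOpen_compl (by
        rintro _ ⟨t, ht, rfl⟩ ⟨u, hu, e⟩
        obtain rfl : u = t := Subtype.ext e
        exact ht.2 (h u ⟨ht.1, hu⟩))
    refine ⟨omMul_YC1 S χ hχ a, mem_om_G.2 fun m hm => ?_, fun t ht => ?_, fun t ht => ?_⟩
    · rw [omMul_mk_YC1 hχ (a := 0) (mem_om_G.1 ha m hm).symm, map_zero]
      rfl
    · by_cases hz : a ∈ omz S t.1
      · exact sub_mem (omMul_z_YC1 hχ hz) hz
      · have h2 := omMul_near_YC1 (c := a) hχ (x := t.1) (r := 1)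
          (h1.filter_mono (nhds_le_nhdsSet (mem_image_of_mem _ (mem_sdiff_of_mem ht hz))))
        rwa [Complex.ofReal_one, one_smul] at h2
    · have h2 := omMul_near_YC1 (c := a) hχ (x := t.1) (r := 0)
        (notMem_tsupport_iff_eventuallyEq.1 fun h3 => hs h3 ⟨t, ht, rfl⟩)
      rwa [Complex.ofReal_zero, zero_smul, sub_zero] at h2

/-- the de Rham complex of the pair `(K, A)` -/
abbrev omCx [FiniteDimensional ℝ V] (S : Set V) [CompactSpace S] (K A : Set S) : Cx (OM S) :=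
  (omLoc S).sc.cx K A

theorem om_zz_univ [FiniteDimensional ℝ V] (S : Set V) [CompactSpace S] :
    (omLoc S).sc.zz univ = ⊥ :=
  eq_bot_iff.2 fun _ h => om_eq_zero fun x hx => (SC.mem_zz _).1 h ⟨x, hx⟩ trivial

/-- pull-back of smooth forms -/
def sfPl (G : V → V') (hG : ContDiff ℝ ∞ G) (n : ℕ) : SF V' n →ₗ[ℂ] SF V n where
  toFun α := SF.mk (pull G α.1) (pull_contDiff hG α.smooth)
  map_add' _ _ := rfl
  map_smul' _ _ := rfl

@[simp] theorem sfPl_val (G : V → V') (hG : ContDiff ℝ ∞ G) (α : SF V' n) :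
    (sfPl G hG n α).1 = pull G α.1 := rfl

/-- `f` maps `X` to `Y` and agrees on `X` with a smooth map -/
structure SmM (X : Set V) (Y : Set V') (f : V → V') : Prop where
  maps : MapsTo f X Y
  ext : ∃ G, ContDiff ℝ ∞ G ∧ EqOn G f X

variable [FiniteDimensional ℝ V'] [FiniteDimensional ℝ V''] {X : Set V} {Y : Set V'} {Z : Set V''}
  {f : V → V'} {g : V' → V''}

theorem nul_sfPl {G : V → V'} (hG : ContDiff ℝ ∞ G) (h : MapsTo G X Y) {α : SF V' n}
    (hα : α ∈ Nul Y n) : sfPl G hG n α ∈ Nul X n := mem_Nul.2 fun γ z hz => by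
  rw [sfPl_val, ← pull_comp _ (cda_diff hz.self_of_nhds.1) (cda_diff hG.contDiffAt)]
  exact Nul.gen hα (hz.mono fun y hy => ⟨hG.contDiffAt.comp y hy.1, h hy.2⟩)

omit [FiniteDimensional ℝ V'] in
theorem nul_sfPl_sub {G G' : V → V'} (hG : ContDiff ℝ ∞ G) (hG' : ContDiff ℝ ∞ G')
    (h : EqOn G G' X) (α : SF V' n) : sfPl G hG n α - sfPl G' hG' n α ∈ Nul X n :=
  mem_Nul.2 fun γ z hz => by
    have h1 := pull_comp α.1 (cda_diff hz.self_of_nhds.1) (cda_diff (hG.contDiffAt (x := γ z)))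
    have h2 := pull_comp α.1 (cda_diff hz.self_of_nhds.1) (cda_diff (hG'.contDiffAt (x := γ z)))
    rw [pull_congr (G := G ∘ γ) (G' := G' ∘ γ) _ (hz.mono fun y hy => h hy.2), h2] at h1
    ext v
    have h3 := DFunLike.congr_fun h1 v
    simp only [pull_apply] at h3
    simp [pull_apply, h3]

namespace SmM

/-- pull-back of forms of degree `n` -/
def pl1 (h : SmM X Y f) (n : ℕ) : Om Y n →ₗ[ℂ] Om X n :=
  Submodule.mapQ _ _ (sfPl h.ext.choose h.ext.choose_spec.1 n) fun _ hα =>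
    nul_sfPl _ (h.maps.congr h.ext.choose_spec.2.symm) hα

/-- pull-back of forms -/
def pl (h : SmM X Y f) : OM Y →ₗ[ℂ] OM X := LinearMap.piMap h.pl1

theorem pl_apply (h : SmM X Y f) (c : OM Y) (n : ℕ) : h.pl c n = h.pl1 n (c n) := rfl

theorem pl1_mk (h : SmM X Y f) {G : V → V'} (hG : ContDiff ℝ ∞ G) (e : EqOn G f X) (α : SF V' n) :
    h.pl1 n (Om.mk Y α) = Om.mk X (sfPl G hG n α) :=
  Om.mk_eq_mk.2 (nul_sfPl_sub h.ext.choose_spec.1 hG (h.ext.choose_spec.2.trans e.symm) α)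

omit [FiniteDimensional ℝ V'] in
theorem cont (h : SmM X Y f) : ContinuousOn f X := by
  obtain ⟨G, hG, e⟩ := h.ext
  exact hG.continuous.continuousOn.congr e.symm

theorem pl1_pl1 (h : SmM X Y f) (h' : SmM Y Z g) {k : V → V''} (h'' : SmM X Z k)
    (e : ∀ x ∈ X, g (f x) = k x) (a : Om Z n) : h.pl1 n (h'.pl1 n a) = h''.pl1 n a := by
  obtain ⟨G, hG, eG⟩ := h.ext
  obtain ⟨G', hG', eG'⟩ := h'.ext
  obtain ⟨α, rfl⟩ := Om.mk_surj a
  rw [h'.pl1_mk hG' eG', h.pl1_mk hG eG, h''.pl1_mk (hG'.comp hG) fun x hx => by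
    rw [Function.comp_apply, eG hx, eG' (h.maps hx), e x hx]]
  refine congrArg (Om.mk X) (SF.ext (funext fun x => ?_))
  exact (pull_comp _ (cda_diff hG.contDiffAt) (cda_diff hG'.contDiffAt)).symm

theorem pl_pl (h : SmM X Y f) (h' : SmM Y Z g) {k : V → V''} (h'' : SmM X Z k)
    (e : ∀ x ∈ X, g (f x) = k x) (c : OM Z) : h.pl (h'.pl c) = h''.pl c :=
  funext fun _ => h.pl1_pl1 h' h'' e _

theorem pl1_d (h : SmM X Y f) (a : Om Y n) :
    h.pl1 (n + 1) (Om.d Y n a) = Om.d X n (h.pl1 n a) := by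
  obtain ⟨G, hG, eG⟩ := h.ext
  obtain ⟨α, rfl⟩ := Om.mk_surj a
  rw [h.pl1_mk hG eG]
  refine (h.pl1_mk hG eG (SF.d n α)).trans (congrArg (Om.mk X) (SF.ext (funext fun x => ?_)))
  exact (pull_extDeriv hG.contDiffAt (α.diff _)).symm

theorem pl1_conj (h : SmM X Y f) (a : Om Y n) :
    h.pl1 n (Om.conj Y n a) = Om.conj X n (h.pl1 n a) := by
  obtain ⟨α, rfl⟩ := Om.mk_surj a
  rfl

theorem pl_d (h : SmM X Y f) (c : OM Y) : h.pl ((omGc Y).d c) = (omGc X).d (h.pl c) :=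
  funext fun n => by
    cases n with
    | zero => exact map_zero (h.pl1 0)
    | succ n => exact h.pl1_d (c n)

theorem pl_e (h : SmM X Y f) (n : ℕ) (c : OM Y) :
    h.pl ((omGc Y).e n c) = (omGc X).e n (h.pl c) :=
  funext fun m => by
    rw [pl_apply, om_e_apply, om_e_apply, pl_apply]
    split_ifs
    · rfl
    · exact map_zero _

theorem pl_one (h : SmM X Y f) : h.pl (omOne Y) = omOne X :=
  funext fun m => by
    rw [pl_apply, omOne, omOne]
    by_cases e : m = 0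
    · subst e
      obtain ⟨G, hG, eG⟩ := h.ext
      rw [Pi.single_eq_same, Pi.single_eq_same, h.pl1_mk hG eG]
      refine congrArg (Om.mk X) (SF.ext (funext fun x => ?_))
      ext v
      rfl
    · rw [Pi.single_eq_of_ne e, Pi.single_eq_of_ne e, map_zero]

theorem pl_z (h : SmM X Y f) {x : V} (hx : x ∈ X) {c : OM Y} (hc : c ∈ omz Y (f x)) :
    h.pl c ∈ omz X x := by
  obtain ⟨G, hG, eG⟩ := h.ext
  obtain ⟨O, hO, hxO, h1⟩ := hc
  refine ⟨G ⁻¹' O, hO.preimage hG.continuous, by rwa [mem_preimage, eG hx], fun n => ?_⟩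
  obtain ⟨a, ha⟩ := Om.mk_surj (c n)
  have h2 := h1 n
  rw [← ha] at h2
  rw [pl_apply, ← ha, h.pl1_mk hG eG]
  exact Om.mk_eq_zero.2 (nul_sfPl (Y := Y ∩ O) hG
    (fun y hy => ⟨by rw [eG hy.1]; exact h.maps hy.1, hy.2⟩) (Om.mk_eq_zero.1 h2))

/-- pull-back along an inclusion is restriction -/
theorem pl1_res {X Y : Set V'} {f : V' → V'} (h : SmM X Y f) (e : ∀ x ∈ X, f x = x) (s : X ⊆ Y)
    (a : Om Y n) : h.pl1 n a = Om.res s n a := by
  obtain ⟨α, rfl⟩ := Om.mk_surj a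
  rw [h.pl1_mk contDiff_id fun x hx => (e x hx).symm]
  refine congrArg (Om.mk X) (SF.ext (funext fun x => ?_))
  ext v
  rw [sfPl_val, pull_apply, fderiv_id]
  rfl

end SmM

end Pool.Agent.CS
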