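import Pool.Agent.P.MP_d34769_ag.YC0
import Pool.Agent.P.MP_d34769_ag.YC1
import Pool.Agent.P.MP_65ad7c_ag.HTwo
import Pool.Agent.P.MP_65ad7c_ag.QNg

/-! Holomorphic maps of projective manifolds act on forms; the local Poincare lemma. -/

open Set Filter Topology Metric
open scoped ContDiff
open Pool.Agent.HT
open Pool.Agent.HIR (Mf HolP Pt)

noncomputable section
namespace Pool.Agent.CS

variable {M N e n : ℕ} {X : Set (Amb M)} {Y : Set (Amb N)} {f : Amb M → Amb N}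

theorem mf_snc (h : Mf e X) : IsSNC e X fun _ : Empty => ∅ :=
  ⟨h.compact, fun i => i.elim, fun x hx => by
    obtain ⟨_, z, O, g, h1, rfl, h2, h3⟩ := h.chart x hx
    exact ⟨O, g, fun i => i.elim, h1, ⟨z, h2, h3⟩, fun i => i.elim, fun i => i.elim⟩⟩

theorem mf_geo (h : Mf e X) : Geo e X fun _ : Empty => ∅ := (mf_snc h).geo'

theorem mf_good (h : Mf e X) : Good X := by
  have := (mf_geo h).good 0 Fin.elim0
  rwa [show strat X (fun _ : Empty => ∅) Fin.elim0 = X by simp [strat]] at this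

theorem loc_YC2 {D : Empty → Set (Amb M)} (h : HolP e X f) (A : AC e X D) :
    ∃ g : (Fin e → ℂ) → Fin N → ℂ, ∀ᶠ z in 𝓝 A.c, AnalyticAt ℂ g z ∧ g z ≠ 0 ∧
      f (A.ψ z) = proj (g z) := by
  have hc := mem_ball_self (x := A.c) A.ρ_pos
  obtain ⟨g, h1, h2, h3⟩ := h (proj ∘ A.f) A.c _ ⟨_, _, QN.ac_isChart A, rfl, hc, rfl⟩
  refine ⟨g, ?_⟩
  filter_upwards [h1.eventually_analyticAt, h1.continuousAt.eventually_ne h2, h3,
    isOpen_ball.mem_nhds hc] with z a1 a2 a3 a4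
  exact ⟨a1, a2, by rw [A.ψ_eq z a4]; exact a3⟩

/-- a holomorphic map extends to a smooth map of the ambient spaces -/
theorem holP_sm (hX : Mf e X) (h : HolP e X f) (m : MapsTo f X Y) : SmM X Y f := by
  obtain ⟨G, hG⟩ := exists_contMDiffMap_forall_mem_convex_of_local (n := ⊤)
    (modelWithCornersSelf ℝ (Amb M)) (t := fun y => {v | y ∈ X → v = f y})
    (fun y a ha b hb s t _ _ e k => by rw [ha k, hb k, ← add_smul, e, one_smul]) fun x => by
      by_cases hx : x ∈ X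
      · obtain ⟨A, rfl⟩ := (mf_geo hX).chart x hx
        have hc := mem_ball_self (x := A.c) A.ρ_pos
        obtain ⟨g, hg⟩ := loc_YC2 h A
        rw [← A.φψ _ hc] at hg
        refine ⟨_, (A.φ_smooth.continuous.continuousAt.eventually hg).and
          (A.W_open.mem_nhds (A.ψ_mem _ hc).2), (proj ∘ g) ∘ A.φ, ?_, fun y hy hX => ?_⟩
        · exact ContDiffOn.contMDiffOn fun y hy =>
            ((proj_hol hy.1.1 hy.1.2.1).1.comp y A.φ_smooth.contDiffAt).contDiffWithinAt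
        · exact hy.1.2.2.symm.trans (congrArg f (A.ψφ y ⟨hX, hy.2⟩))
      · exact ⟨Xᶜ, hX.compact.isClosed.isOpen_compl.mem_nhds hx, fun _ => 0, contMDiffOn_const,
          fun y hy k => absurd k hy⟩
  exact ⟨m, G, G.contMDiff.contDiff, fun x hx => hG x hx⟩

theorem nul_of_ac_YC2 (hX : Mf e X) {β : SF (Amb M) n}
    (h : ∀ A : AC e X fun _ : Empty => ∅, pull A.ψ β.1 A.c = 0) : β ∈ Nul X n :=
  mem_Nul.2 fun γ z hz => by
    obtain ⟨A, hA⟩ := (mf_geo hX).chart _ hz.self_of_nhds.2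
    have hc := mem_ball_self (x := A.c) A.ρ_pos
    have e : γ =ᶠ[𝓝 z] A.ψ ∘ (A.φ ∘ γ) := by
      filter_upwards [hz, hz.self_of_nhds.1.continuousAt
        (A.W_open.mem_nhds (hA ▸ (A.ψ_mem _ hc).2))] with y h1 h2
      exact (A.ψφ _ ⟨h1.2, h2⟩).symm
    rw [pull_congr _ e, pull_comp _ (cda_diff (A.φ_smooth.contDiffAt.comp z hz.self_of_nhds.1))
      (cda_diff A.ψ_smooth.contDiffAt)]
    ext v
    rw [pull_apply, Function.comp_apply, ← hA, A.φψ _ hc, h A]
    rfl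

/-- pull-back under a holomorphic map commutes with the type operator -/
theorem pl1_gam (hX : Mf e X) (h : HolP e X f) (s : SmM X Y f) (gX : GamOK (JP M) X)
    (gY : GamOK (JP N) Y) (a : Om Y n) :
    s.pl1 n (Om.gam gY n a) = Om.gam gX n (s.pl1 n a) := by
  obtain ⟨α, rfl⟩ := Submodule.Quotient.mk_surjective _ a
  obtain ⟨G, hG, e1⟩ := s.ext
  have e2 := s.pl1_mk hG e1 (SF.gam (JP N) gY.smooth n α)
  rw [s.pl1_mk hG e1 α]
  refine e2.trans ((Submodule.Quotient.eq _).2 (nul_of_ac_YC2 hX fun A => ?_))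
  have hc := mem_ball_self (x := A.c) A.ρ_pos
  obtain ⟨g, hg⟩ := loc_YC2 h A
  have e3 : G ∘ A.ψ =ᶠ[𝓝 A.c] proj ∘ g := by
    filter_upwards [hg, isOpen_ball.mem_nhds hc] with z h1 h2
    exact (e1 (A.ψ_mem z h2).1).trans h1.2.2
  have h1 := (proj_hol hg.self_of_nhds.1 hg.self_of_nhds.2.1).2
  have h2 := fun v => (JP_hol (A.f_hol.differentiableAt (isOpen_ball.mem_nhds hc))
    (A.f_ne _ hc) v).symm
  rw [(QN.ev_QNg A hc).fderiv_eq, ← A.ψ_eq _ hc] at h2
  rw [← e3.fderiv_eq, fderiv_comp _ (cda_diff hG.contDiffAt) (cda_diff A.ψ_smooth.contDiffAt),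
    show proj (g A.c) = G (A.ψ A.c) from e3.self_of_nhds.symm] at h1
  ext v
  rw [pull_apply, SF.val_sub, Pi.sub_apply, ContinuousAlternatingMap.sub_apply, sfPl_val,
    pull_apply, SF.gam_val, SF.gam_val, der_apply, der_apply, ContinuousAlternatingMap.coe_zero,
    Pi.zero_apply, sub_eq_zero]
  refine Finset.sum_congr rfl fun i _ => ?_
  rw [sfPl_val, pull_apply, Function.comp_update]
  congr 2
  rw [Function.comp_apply, Function.comp_apply, ← h2]
  exact (h1 _).symm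

theorem htp_YC2 (hX : Mf e X) {x : Amb M} (hx : x ∈ X) {O : Set (Amb M)} (hO : IsOpen O)
    (hxO : x ∈ O) : ∃ (H : ℝ × Amb M → Amb M) (O' : Set (Amb M)), ContDiff ℝ ∞ H ∧ IsOpen O' ∧
      x ∈ O' ∧ (∀ t, ∀ y ∈ X ∩ O', H (t, y) ∈ X ∩ O) ∧ (∀ y ∈ X ∩ O', H (1, y) = y) ∧
      ∀ y, H (0, y) = x := by
  obtain ⟨A, rfl⟩ := (mf_geo hX).chart x hx
  have hc := mem_ball_self (x := A.c) A.ρ_pos
  obtain ⟨r, hr, hb⟩ := Metric.mem_nhds_iff.1 (inter_mem (isOpen_ball.mem_nhds hc)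
    (A.ψ_smooth.continuous.continuousAt (hO.mem_nhds hxO)))
  refine ⟨fun p => A.ψ (A.c + Real.smoothTransition p.1 • (A.φ p.2 - A.c)),
    A.W ∩ A.φ ⁻¹' ball A.c r, A.ψ_smooth.comp (contDiff_const.add
      ((Real.smoothTransition.contDiff.comp contDiff_fst).smul
        ((A.φ_smooth.comp contDiff_snd).sub contDiff_const))),
    A.W_open.inter (isOpen_ball.preimage A.φ_smooth.continuous),
    ⟨(A.ψ_mem _ hc).2, by rw [mem_preimage, A.φψ _ hc]; exact mem_ball_self hr⟩,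
    fun t y hy => ?_, fun y hy => ?_, fun y => by simp⟩
  · have h1 : A.c + Real.smoothTransition t • (A.φ y - A.c) ∈ ball A.c r := by
      rw [mem_ball_iff_norm, add_sub_cancel_left, norm_smul,
        Real.norm_of_nonneg (Real.smoothTransition.nonneg t)]
      exact (mul_le_of_le_one_left (norm_nonneg _) (Real.smoothTransition.le_one t)).trans_lt
        (mem_ball_iff_norm.1 hy.2.2)
    exact ⟨(A.ψ_mem _ (hb h1).1).1, (hb h1).2⟩
  · simpa using A.ψφ y ⟨hy.1, hy.2.1⟩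

theorem single_of_G_YC2 {c : OM X} (hc : c ∈ (omGc X).G n) :
    ∃ α : SF (Amb M) n, c = Pi.single n (Om.mk X α) := by
  obtain ⟨α, hα⟩ := Submodule.Quotient.mk_surjective _ (c n)
  refine ⟨α, funext fun m => ?_⟩
  by_cases k : m = n
  · subst k
    rw [Pi.single_eq_same]
    exact hα.symm
  · rw [Pi.single_eq_of_ne k, mem_om_G.1 hc m (by exact_mod_cast k)]

/-- the local Poincare lemma -/
theorem om_poin (hX : Mf e X) [CompactSpace X] : (omLoc X).Poin (omOne X) := by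
  refine ⟨omOne_mem X, omOne_d X, fun x n hn c hc => ?_, fun x c hc hd => ?_, fun x => omOne_ne x.2⟩
  · have h1 : c ∈ (omGc X).G n := hc.1.1
    have h2 : (omGc X).d c ∈ omz X x.1 := (SC.mem_zz _).1 hc.2 x rfl
    rcases lt_or_gt_of_ne hn with l | l
    · rw [Gc.G_neg l] at h1
      rw [(Submodule.mem_bot ℂ).1 h1]
      exact zero_mem _
    obtain ⟨k, rfl⟩ : ∃ k : ℕ, n = ((k + 1 : ℕ) : ℤ) := ⟨(n - 1).toNat, by omega⟩
    obtain ⟨α, rfl⟩ := single_of_G_YC2 h1
    rw [om_d_single] at h2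
    obtain ⟨O, hO, hx, h3⟩ := (single_mem_omz (a := SF.d _ α)).1 h2
    obtain ⟨H, O', hH, hO', hx', a1, a2, a3⟩ := htp_YC2 hX x.2 hO hx
    have e0 : α.pl _ (slice_smooth hH 0) = 0 := by
      ext y v
      rw [SF.pl_val, funext a3, pull_apply]
      exact (α.1 x.1).map_coord_zero 0 (by simp)
    have e1 := SF.hom_succ hH α
    rw [e0, sub_zero] at e1
    refine Cx.mem_B.2 ⟨Pi.single k (Om.mk X (α.K H hH)), ⟨?_, (SC.mem_zz _).2 fun _ h => h.elim⟩,
      (SC.mem_zz _).2 fun t ht => ?_⟩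
    · rw [show ((k + 1 : ℕ) : ℤ) - 1 = k by omega]
      exact single_mem_G _
    · obtain rfl : t = x := ht
      change _ - (omGc X).d _ ∈ omz X t.1
      rw [om_d_single, ← Pi.single_sub]
      refine (single_mem_omz (a := α - SF.d k (α.K H hH))).2 ⟨O', hO', hx', ?_⟩
      have := sub_mem (Nul.K h3 hH a1) (Nul.pl_sub α (slice_smooth hH 1) a2)
      rwa [e1, show ∀ a b c : SF (Amb M) (k + 1), a - (a + b - c) = c - b from
        fun _ _ _ => by abel] at this
  · obtain ⟨α, rfl⟩ := single_of_G_YC2 (n := 0) hc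
    rw [om_d_single] at hd
    obtain ⟨O, hO, hx, h3⟩ := (single_mem_omz (a := SF.d _ α)).1 hd
    obtain ⟨H, O', hH, hO', hx', a1, a2, a3⟩ := htp_YC2 hX x.2 hO hx
    have e0 : α.pl _ (slice_smooth hH 0) = α.1 x.1 0 • sfOne (Amb M) := by
      ext y v
      rw [SF.pl_val, funext a3, pull_apply, Subsingleton.elim (_ ∘ v) 0]
      simp [sfOne]
    refine ⟨α.1 x.1 0, ?_⟩
    change _ - _ • Pi.single 0 _ ∈ omz X x.1
    rw [← Pi.single_smul, ← Pi.single_sub]
    refine (single_mem_omz (a := α - α.1 x.1 0 • sfOne (Amb M))).2 ⟨O', hO', hx', ?_⟩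
    have := sub_mem (Nul.K h3 hH a1) (Nul.pl_sub α (slice_smooth hH 1) a2)
    rwa [← SF.hom_zero, e0, sub_sub_sub_cancel_left] at this

end Pool.Agent.CS
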