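import Pool.Agent.P.MP_d34769_ag.YSL

/-! Graded commutativity of the cup product up to a carried homotopy. -/

open Finset

noncomputable section
namespace Pool.Agent.CS.LA
variable {X : Type}

/-- signed reversal -/
def rev : Module.End ℂ (Fn X) where
  toFun φ l := (-1) ^ l.length.choose 2 * φ l.reverse
  map_add' φ ψ := by funext l; simp [mul_add]
  map_smul' c φ := by funext l; simp [mul_left_comm]

theorem rev_apply (φ : Fn X) (l : List X) : rev φ l = (-1) ^ l.length.choose 2 * φ l.reverse := rfl

theorem reverse_eraseIdx (l : List X) {i j : ℕ} (h : i + j + 1 = l.length) :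
    l.reverse.eraseIdx i = (l.eraseIdx j).reverse := by
  rw [List.eraseIdx_eq_take_drop_succ, List.eraseIdx_eq_take_drop_succ, List.reverse_append,
    List.take_reverse, List.drop_reverse]
  congr 3 <;> omega

theorem rev_da (φ : Fn X) : rev (da φ) = da (rev φ) := by
  funext l
  rw [rev_apply, da_apply, da_apply, List.length_reverse, mul_sum, ← sum_range_reflect]
  refine sum_congr rfl fun j hj => ?_
  have hj := mem_range.1 hj
  obtain ⟨i, hi⟩ : ∃ i, i + j + 1 = l.length := ⟨l.length - 1 - j, by omega⟩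
  rw [show l.length - 1 - j = i by omega, reverse_eraseIdx l hi, rev_apply,
    List.length_eraseIdx_of_lt hj, ← hi, Nat.add_sub_cancel, Nat.choose_succ_succ' (i + j) 1,
    Nat.choose_one_right, pow_add, pow_add]
  have : ((-1 : ℂ) ^ i) * (-1) ^ i = 1 := by rw [← mul_pow]; simp
  linear_combination ((-1) ^ j * (-1) ^ (i + j).choose 2 * φ (l.eraseIdx j).reverse) * this

theorem rev_red (φ : Fn X) : rev (red φ) = red (rev φ) := by
  funext l; by_cases h : l = [] <;> simp [rev_apply, red_apply, h]

theorem rev_d (φ : Fn X) : rev (d φ) = d (rev φ) := by rw [d_eq, d_eq, rev_da, rev_red]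

theorem choose_two_add (p q : ℕ) :
    (p + q + 1).choose 2 = (p + 1).choose 2 + (q + 1).choose 2 + p * q := by
  induction q with
  | zero => simp
  | succ q ih =>
    rw [← add_assoc, Nat.choose_succ_succ' (p + q + 1) 1, Nat.choose_succ_succ' (q + 1) 1, ih]
    simp only [Nat.choose_one_right]
    ring

variable {O : Set X} {φ ψ : Fn X} {n p q : ℕ}

theorem cup_hm_apply (h : φ ∈ hm (p + 1)) (ψ : Fn X) {l : List X} (hl : p < l.length) :
    cup φ ψ l = φ (l.take (p + 1)) * ψ (l.drop p) := by
  rw [cup_apply, sum_eq_single_of_mem p (mem_range.2 hl)]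
  intro i hi e
  have := mem_range.1 hi
  rw [h _ (by simp; omega), zero_mul]

theorem rev_van (h : φ ∈ van O) : rev φ ∈ van O := fun l hl => by
  rw [rev_apply, h _ fun y hy => hl y (List.mem_reverse.1 hy), mul_zero]

theorem rev_hm (h : φ ∈ hm n) : rev φ ∈ hm n := fun l hl => by
  rw [rev_apply, h _ (by simpa using hl), mul_zero]

theorem rev_cup (h : φ ∈ hm (p + 1)) (h' : ψ ∈ hm (q + 1)) :
    rev (cup φ ψ) = (-1 : ℂ) ^ (p * q) • cup (rev ψ) (rev φ) := by
  funext l
  by_cases hl : l.length = p + q + 1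
  · rw [Pi.smul_apply, rev_apply, cup_hm_apply h _ (by simp; omega),
      cup_hm_apply (rev_hm h') _ (by omega), rev_apply, rev_apply, List.take_reverse,
      List.drop_reverse, List.length_take, List.length_drop, hl, choose_two_add,
      show p + q + 1 - (p + 1) = q by omega, show p + q + 1 - p = q + 1 by omega,
      show p + q + 1 - q = p + 1 by omega, min_eq_left (by omega), smul_eq_mul]
    ring
  · rw [rev_hm (cup_hm h h') l (by omega), Pi.smul_apply,
      cup_hm (rev_hm h') (rev_hm h) l (by omega), smul_zero]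

/-- the homotopy on lists of a given length -/
def hk : ℕ → Module.End ℂ (Fn X)
  | 0 => 0
  | n + 1 =>
    { toFun := fun φ l => match l with
        | [] => 0
        | x :: t => (cs x φ - rev (cs x φ) - da (hk n (cs x φ))) (x :: t)
      map_add' := fun φ ψ => by
        funext l; cases l <;> simp; ring
      map_smul' := fun c φ => by
        funext l; cases l <;> simp; ring }

theorem hk_cons (n : ℕ) (φ : Fn X) (x : X) (t : List X) :
    hk (n + 1) φ (x :: t) = (cs x φ - rev (cs x φ) - da (hk n (cs x φ))) (x :: t) := rfl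

/-- the homotopy between the identity and the signed reversal -/
def hty : Module.End ℂ (Fn X) where
  toFun φ l := hk l.length φ l
  map_add' φ ψ := by funext l; simp
  map_smul' c φ := by funext l; simp

theorem hty_nil (φ : Fn X) : hty φ [] = 0 := rfl

theorem hty_cons (φ : Fn X) (x : X) (t : List X) :
    hty φ (x :: t) = (cs x φ - rev (cs x φ) - da (hty (cs x φ))) (x :: t) := by
  have : da (hk t.length (cs x φ)) (x :: t) = da (hty (cs x φ)) (x :: t) :=
    da_len fun s hs => by rw [show t.length = s.length by simpa using hs.symm]; rfl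
  change hk (t.length + 1) φ (x :: t) = _
  rw [hk_cons, Pi.sub_apply, this]; rfl

theorem hty_da (φ : Fn X) : hty (da φ) + da (hty φ) = φ - rev φ := by
  suffices h : ∀ n (l : List X) (φ : Fn X), l.length = n →
      hty (da φ) l = (φ - rev φ - da (hty φ)) l by
    funext l; rw [Pi.add_apply, h _ l φ rfl]; simp
  intro n
  induction n with
  | zero =>
    intro l φ hl
    obtain rfl := List.length_eq_zero_iff.1 hl
    simp [hty_nil, rev_apply]
  | succ n ih =>
    intro l φ hl
    obtain ⟨x, t, rfl⟩ := List.exists_cons_of_length_eq_add_one hl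
    have e : da (hty (da (cs x φ))) (x :: t) =
        da (cs x φ - rev (cs x φ) - da (hty (cs x φ))) (x :: t) :=
      da_len fun s hs => ih s _ (by omega)
    rw [hty_cons, cs_da]
    simp only [map_sub, Pi.sub_apply, rev_da, da_da, Pi.zero_apply] at e ⊢
    rw [e]; ring

theorem hty_van (h : φ ∈ van O) : hty φ ∈ van O := by
  suffices H : ∀ n (φ : Fn X), φ ∈ van O → hk n φ ∈ van O from fun l hl => H _ φ h l hl
  intro n
  induction n with
  | zero => intro φ _; exact zero_mem _
  | succ n ih =>
    intro φ h l hl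
    cases l with
    | nil => rfl
    | cons x t =>
      have hx := cs_van h (hl x (by simp))
      exact sub_mem (sub_mem hx (rev_van hx)) (da_van (ih _ hx)) _ hl

theorem hty_hm' (l : List X) (h : ∀ t : List X, t.length = l.length → ∀ x, φ (x :: t) = 0) :
    hty φ l = 0 := by
  induction hm : l.length generalizing l φ with
  | zero => obtain rfl := List.length_eq_zero_iff.1 hm; rfl
  | succ m ih =>
    obtain ⟨x, t, rfl⟩ := List.exists_cons_of_length_eq_add_one hm
    have h' : ∀ u : List X, u.length = (x :: t).length → cs x φ u = 0 := fun u hu => h u hu x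
    have e : da (hty (cs x φ)) (x :: t) = da 0 (x :: t) := da_len fun s hs =>
      ih s (fun u hu y => h' _ (by simp at hs ⊢; omega)) (by omega)
    rw [hty_cons]
    simp only [Pi.sub_apply, e, rev_apply, map_zero, Pi.zero_apply]
    rw [h' _ rfl, h' _ (by simp)]
    simp

theorem hty_hm (h : φ ∈ hm (n + 1)) : hty φ ∈ hm n := fun l hl =>
  hty_hm' l fun t ht x => h _ (by simp; omega)

theorem hty_d (h : φ [] = 0) : hty (d φ) + d (hty φ) = φ - rev φ := by
  rw [d_eq_da h, d_eq_da (hty_nil φ), hty_da]

theorem hm_nil (h : φ ∈ hm (n + 1)) : φ [] = 0 := h _ (by simp)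

/-- COMM: the commutator is a coboundary up to terms carried by `d φ` and `d ψ`. -/
theorem comm (h : φ ∈ hm (p + 1)) (h' : ψ ∈ hm (q + 1)) : ∃ u ∈ hm (p + q), u [] = 0 ∧
    (∀ O, φ ∈ van O ∨ ψ ∈ van O → u ∈ van O) ∧
    ∀ O, d φ ∈ van O → d ψ ∈ van O →
      cup φ ψ - (-1 : ℂ) ^ (p * q) • cup ψ φ - d u ∈ van O := by
  refine ⟨hty (cup φ ψ) - (-1 : ℂ) ^ (p * q) • (cup (hty ψ) (rev φ) + (-1 : ℂ) ^ q • cup ψ (hty φ)),
    sub_mem (hty_hm ?_) (Submodule.smul_mem _ _ (add_mem ?_ (Submodule.smul_mem _ _ ?_))),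
    by simp [hty_nil], fun O hO => ?_, fun O h1 h2 => ?_⟩
  · exact add_right_comm p 1 q ▸ cup_hm h h'
  · exact add_comm q p ▸ cup_hm (hty_hm h') (rev_hm h)
  · exact add_comm q p ▸ cup_hm' h' (hty_hm h)
  · refine sub_mem (hty_van ?_) (Submodule.smul_mem _ _ (add_mem ?_ (Submodule.smul_mem _ _ ?_)))
    · exact hO.elim (cup_van_left · _) (cup_van_right _)
    · exact hO.elim (fun a => cup_van_right _ (rev_van a)) fun a => cup_van_left (hty_van a) _
    · exact hO.elim (fun a => cup_van_right _ (hty_van a)) (cup_van_left · _)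
  · have e1 := eq_sub_of_add_eq' (hty_d (cup_nil φ ψ))
    have e2 := eq_sub_of_add_eq' (hty_d (hm_nil h))
    have e3 := eq_sub_of_add_eq' (hty_d (hm_nil h'))
    have s : ((-1 : ℂ) ^ q) * (-1) ^ q = 1 := by rw [← mul_pow]; simp
    have key : cup φ ψ - (-1 : ℂ) ^ (p * q) • cup ψ φ - d (hty (cup φ ψ) - (-1 : ℂ) ^ (p * q) •
        (cup (hty ψ) (rev φ) + (-1 : ℂ) ^ q • cup ψ (hty φ))) =
        hty (d (cup φ ψ)) + (-1 : ℂ) ^ (p * q) • (cup (sg (hty ψ)) (rev (d φ)) -
          cup (hty (d ψ)) (rev φ) + (-1 : ℂ) ^ q • cup (d ψ) (hty φ) - cup ψ (hty (d φ))) := by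
      rw [map_sub, map_smul, map_add, map_smul, e1, d_cup (hty ψ), d_cup ψ, e2, e3, rev_cup h h',
        sg_hm h', rev_d]
      simp only [map_sub, map_smul, LinearMap.sub_apply, LinearMap.smul_apply, smul_add, smul_sub,
        smul_smul, s, one_smul]
      abel
    rw [key, d_cup]
    exact add_mem (hty_van (add_mem (cup_van_left h1 _) (cup_van_right _ h2)))
      (Submodule.smul_mem _ _ (sub_mem (add_mem (sub_mem (cup_van_right _ (rev_van h1))
        (cup_van_left (hty_van h2) _)) (Submodule.smul_mem _ _ (cup_van_left h2 _)))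
        (cup_van_right _ (hty_van h1))))

end Pool.Agent.CS.LA
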