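import Pool.Agent.P.MP_d34769_ag.YS0
import Pool.Agent.P.MP_d34769_ag.YSM

/-! Stalks of the cochains, and graded commutativity. -/

open Set Topology

noncomputable section
namespace Pool.Agent.CS.AS
variable {X Y : Type}

/-- the cone on a point -/
def cone (x : X) : Module.End ℂ (AS X) where
  toFun φ := mk (LA.red (LA.cs x φ.1)) (LA.red_nil _)
  map_add' φ ψ := Subtype.ext (by simp only [coe_add, mk_val, map_add])
  map_smul' c φ := Subtype.ext (by simp only [coe_smul, mk_val, map_smul, RingHom.id_apply])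

theorem coe_cone (x : X) (φ : AS X) : (cone x φ).1 = LA.red (LA.cs x φ.1) := rfl

theorem cone_mem_G (x : X) {n : ℤ} {φ : AS X} (h : φ ∈ G X n) : cone x φ ∈ G X (n - 1) :=
  mem_G.2 fun l hl => by
    cases l with
    | nil => simp
    | cons a t => exact mem_G.1 h (x :: a :: t) (by simp at hl ⊢; omega)

theorem d_cone (x : X) (φ : AS X) : d (cone x φ) + cone x (d φ) = φ - φ.1 [x] • 1 := by
  refine ext fun l => ?_
  rw [val_add, coe_d', coe_cone, coe_cone, LA.d_red, coe_d, LA.cs_da, val_sub, val_smul, val_one]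
  match l with
  | [] => simp
  | [a] => simp [LA.da_cons]
  | a :: b :: t => simp [LA.d_apply]

variable [TopologicalSpace X] [TopologicalSpace Y]

theorem cone_z {x : X} {φ : AS X} (h : φ ∈ z x) : cone x φ ∈ z x :=
  h.imp fun _ h => ⟨h.1, LA.red_van (LA.cs_van h.2 (mem_of_mem_nhds h.1))⟩

theorem z_val {x : X} {φ : AS X} (h : φ ∈ z x) : φ.1 [x] = 0 := by
  obtain ⟨O, hO, h⟩ := h
  exact h _ (by simpa using mem_of_mem_nhds hO)

theorem smul_one_z {x : X} {c : ℂ} (h : c • (1 : AS X) ∈ z x) : c = 0 := by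
  simpa [val_one] using z_val h

theorem stalk {x : X} {φ : AS X} (h : d φ ∈ z x) : φ - φ.1 [x] • 1 - d (cone x φ) ∈ z x := by
  rw [← d_cone, add_sub_cancel_left]; exact cone_z h

/-- COMM with a carried primitive -/
theorem comm {p q : ℕ} {φ ψ : AS X} (h : φ ∈ G X p) (h' : ψ ∈ G X q) :
    ∃ u ∈ G X (p + q - 1), (∀ x, φ ∈ z x ∨ ψ ∈ z x → u ∈ z x) ∧
      ∀ x, d φ ∈ z x → d ψ ∈ z x → φ * ψ - (-1 : ℂ) ^ (p * q) • (ψ * φ) - d u ∈ z x := by
  obtain ⟨u, hu, u0, h1, h2⟩ := LA.comm (mem_G_nat.1 h) (mem_G_nat.1 h')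
  refine ⟨mk u u0, mem_G.2 fun l hl => hu l (by omega), fun x hx => ?_, fun x hφ hψ => ?_⟩
  · rcases hx with ⟨O, hO, e⟩ | ⟨O, hO, e⟩
    exacts [⟨O, hO, h1 O (Or.inl e)⟩, ⟨O, hO, h1 O (Or.inr e)⟩]
  · obtain ⟨O, hO, e⟩ := hφ
    obtain ⟨O', hO', e'⟩ := hψ
    rw [coe_d'] at e e'
    refine ⟨O ∩ O', Filter.inter_mem hO hO', ?_⟩
    rw [coe_sub, coe_sub, coe_smul, coe_mul, coe_mul, coe_d']
    exact h2 _ (LA.van_mono inter_subset_left e) (LA.van_mono inter_subset_right e')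

variable [CompactSpace X] [T2Space X] [CompactSpace Y] [T2Space Y] {K A : Set X} {n : ℤ}
  {φ ψ : AS X}

theorem mem_cp_G : φ ∈ (CP K A).G n ↔ φ ∈ G X n ∧ ∀ t ∈ A, φ ∈ z t :=
  and_congr_right' (sc X).mem_zz

theorem mem_cp_N : φ ∈ (CP K A).N ↔ ∀ t ∈ K, φ ∈ z t := (sc X).mem_zz

theorem mem_cp_Z : φ ∈ (CP K A).Z n ↔ (φ ∈ G X n ∧ ∀ t ∈ A, φ ∈ z t) ∧ ∀ t ∈ K, d φ ∈ z t :=
  and_congr mem_cp_G (mem_cp_N (A := A))

theorem mem_cp_B : φ ∈ (CP K A).B n ↔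
    ∃ b, (b ∈ G X (n - 1) ∧ ∀ t ∈ A, b ∈ z t) ∧ ∀ t ∈ K, φ - d b ∈ z t :=
  Cx.mem_B.trans (exists_congr fun _ => and_congr mem_cp_G mem_cp_N)

/-- COMM for relative cocycles -/
theorem comm_B {p q : ℕ} {A' : Set X} (h : φ ∈ (CP K A).Z p) (h' : ψ ∈ (CP K A').Z q) :
    φ * ψ - (-1 : ℂ) ^ (p * q) • (ψ * φ) ∈ (CP K (A ∪ A')).B (p + q) := by
  rw [mem_cp_Z] at h h'
  obtain ⟨u, hu, h1, h2⟩ := comm h.1.1 h'.1.1
  exact mem_cp_B.2 ⟨u, ⟨hu, fun t ht => h1 t (ht.imp (h.1.2 t) (h'.1.2 t))⟩,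
    fun t ht => h2 t (h.2 t ht) (h'.2 t ht)⟩

theorem stalk_B {x : X} (h : φ ∈ (CP {x} ∅).Z n) : φ - φ.1 [x] • 1 ∈ (CP {x} ∅).B n := by
  rw [mem_cp_Z] at h
  exact mem_cp_B.2 ⟨_, ⟨cone_mem_G x h.1.1, by simp⟩, fun t ht => by
    obtain rfl : t = x := ht
    exact stalk (h.2 t rfl)⟩

/-- STALK in degrees other than zero -/
theorem stalk_ac (x : X) (hn : n ≠ 0) : (CP {x} ∅).Ac n := fun φ h => by
  have := stalk_B h
  rwa [mem_G.1 (mem_cp_Z.1 h).1.1 [x] (by simp; omega), zero_smul, sub_zero] at this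

theorem B_zero (h : φ ∈ (CP K A).B 0) : ∀ t ∈ K, φ ∈ z t := by
  obtain ⟨b, hb, e⟩ := mem_cp_B.1 h
  simpa [G_neg (by simp) hb.1] using e

/-- STALK in degree zero -/
theorem stalk_zero {x : X} (h : φ ∈ (CP {x} ∅).Z 0) : φ - φ.1 [x] • 1 ∈ z x :=
  B_zero (stalk_B h) x rfl

theorem one_mem_Z : (1 : AS X) ∈ (CP K ∅).Z 0 :=
  mem_cp_Z.2 ⟨⟨one_mem_G, by simp⟩, fun t _ => by rw [d_one]; exact zero_mem _⟩

theorem pull_mor {g : X → Y} (hg : Continuous g) {K' A' : Set Y} (hK : MapsTo g K K')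
    (hA : MapsTo g A A') : (CP K' A').Mor (CP K A) (pl g) 0 where
  fG n x hx := mem_cp_G.2 ⟨by simpa using pull_mem_G g (mem_cp_G.1 hx).1,
    fun t ht => z_pull hg.continuousAt ((mem_cp_G.1 hx).2 _ (hA ht))⟩
  fN _ x _ hx := mem_cp_N.2 fun t ht => z_pull hg.continuousAt (mem_cp_N.1 hx _ (hK ht))
  fd _ x _ := by
    have : pl g ((CP K' A').d x) - (CP K A).d (pl g x) = 0 := sub_eq_zero.2 (pull_d g x)
    rw [this]; exact zero_mem _

/-- pull-back is a quasi-isomorphism on stalks -/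
theorem stalk_qia (g : X → Y) (x : X) : (CP {g x} ∅).QIa (CP {x} ∅) (pl g) 0 := by
  refine Cx.qia_iff.2 fun n => ?_
  by_cases hn : n = 0
  · subst hn
    refine ⟨fun φ h e => ?_, fun φ h => ⟨φ.1 [x] • 1, Submodule.smul_mem _ _ one_mem_Z, ?_⟩⟩
    · have := stalk_B h
      rwa [show φ.1 [g x] = 0 from z_val (φ := pull g φ) (B_zero e x rfl), zero_smul, sub_zero] at this
    · simpa using stalk_B h
  · exact ⟨fun φ h _ => stalk_ac _ hn h,
      fun φ h => ⟨0, zero_mem _, by simpa using stalk_ac _ (by simpa using hn) h⟩⟩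

end Pool.Agent.CS.AS
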