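import Pool.Agent.P.MP_d34769_ag.YA5
import Pool.Agent.P.MP_d34769_ag.YSC

/-! Alexander-Spanier cochains with values in a complex of sheaves. -/

open Set Topology

noncomputable section
namespace Pool.Agent.CS

variable {X Y Z V V' V'' : Type} [AddCommGroup V] [Module ℂ V] [AddCommGroup V'] [Module ℂ V']
  [AddCommGroup V''] [Module ℂ V'']

/-- Germs for a graded complex. -/
structure Loc (A : Gc V) (X : Type) [TopologicalSpace X] where
  z : X → Submodule ℂ V
  dz : ∀ t, ∀ x ∈ z t, A.d x ∈ z t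
  ez : ∀ t n, ∀ x ∈ z t, A.e n x ∈ z t
  sz : ∀ t, ∀ x ∈ z t, A.s x ∈ z t
  opn : ∀ x, IsOpen {t | x ∈ z t}
  glue : ∀ K₁ K₂ : Set X, IsClosed K₁ → IsClosed K₂ → ∀ n, ∀ a ∈ A.G n,
    (∀ t ∈ K₁ ∩ K₂, a ∈ z t) → ∃ c ∈ A.G n, (∀ t ∈ K₁, c - a ∈ z t) ∧ ∀ t ∈ K₂, c ∈ z t

/-- the soft complex -/
def Loc.sc [TopologicalSpace X] {A : Gc V} (L : Loc A X) : SC X V where
  d := A.d
  G := A.G
  z := L.z
  dG _ _ := Gc.d_mem_G
  dz := L.dz
  dd t x := by rw [A.dd]; exact zero_mem _
  neg := ⟨0, fun _ hn x hx => by rwa [Gc.G_neg hn] at hx⟩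
  opn := L.opn
  glue := L.glue

/-- the alternating sum over the faces of a list -/
def dLV : List X → (List X → V) → V
  | [], _ => 0
  | a :: l, φ => φ l - dLV l fun w => φ (a :: w)

theorem dLV_map (f : V →ₗ[ℂ] V') (l : List X) (φ : List X → V) :
    f (dLV l φ) = dLV l fun w => f (φ w) := by
  induction l generalizing φ with
  | nil => exact map_zero f
  | cons a l ih => rw [dLV, dLV, map_sub, ih]

theorem dLV_add (l : List X) (φ ψ : List X → V) :
    dLV l (fun w => φ w + ψ w) = dLV l φ + dLV l ψ := by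
  induction l generalizing φ ψ with
  | nil => simp [dLV]
  | cons a l ih => rw [dLV, dLV, dLV, ih]; abel

theorem dLV_sub (l : List X) (φ ψ : List X → V) :
    dLV l (fun w => φ w - ψ w) = dLV l φ - dLV l ψ := by
  induction l generalizing φ ψ with
  | nil => simp [dLV]
  | cons a l ih => rw [dLV, dLV, dLV, ih]; abel

theorem dLV_smul (c : ℂ) (l : List X) (φ : List X → V) :
    dLV l (fun w => c • φ w) = c • dLV l φ := (dLV_map (c • LinearMap.id) l φ).symm

theorem dLV_mem {U : Submodule ℂ V} {l : List X} {φ : List X → V}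
    (h : ∀ t : List X, t.length + 1 = l.length → (∀ y ∈ t, y ∈ l) → φ t ∈ U) : dLV l φ ∈ U := by
  induction l generalizing φ with
  | nil => exact zero_mem _
  | cons a l ih =>
    refine sub_mem (h l rfl fun y hy => List.mem_cons_of_mem _ hy) (ih fun t ht hy => h _ ?_ ?_)
    · simp [ht]
    · intro y e
      rcases List.mem_cons.1 e with rfl | e
      exacts [List.mem_cons_self, List.mem_cons_of_mem _ (hy y e)]

theorem dLV_zero {l : List X} {φ : List X → V}
    (h : ∀ t : List X, t.length + 1 = l.length → φ t = 0) : dLV l φ = 0 :=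
  (Submodule.mem_bot ℂ).1 (dLV_mem (U := ⊥) fun t ht _ => h t ht)

theorem dLV_len {l : List X} {φ ψ : List X → V}
    (h : ∀ t : List X, t.length + 1 = l.length → φ t = ψ t) : dLV l φ = dLV l ψ := by
  rw [← sub_eq_zero, ← dLV_sub]
  exact dLV_zero fun t ht => sub_eq_zero.2 (h t ht)

theorem dLV_dLV (l : List X) (φ : List X → V) : dLV l (fun w => dLV w φ) = 0 := by
  induction l generalizing φ with
  | nil => rfl
  | cons a l ih =>
    rw [dLV]
    simp only [dLV]
    rw [dLV_sub, ih, sub_zero, sub_self]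

theorem dLV_pull (g : X → Y) (l : List X) (φ : List Y → V) :
    dLV (l.map g) φ = dLV l fun w => φ (w.map g) := by
  induction l generalizing φ with
  | nil => rfl
  | cons a l ih => rw [List.map_cons, dLV, dLV, ih]; rfl

theorem dLV_dA (u : V) (l : List X) (φ : List X → ℂ) : dLV l (fun w => φ w • u) = dA l φ • u := by
  induction l generalizing φ with
  | nil => simp [dLV, dA]
  | cons a l ih => rw [dLV, dA, ih, sub_smul]

theorem Gc.s_mem_YC3 {A : Gc V} {n : ℤ} {x : V} (h : x ∈ A.G n) : A.s x ∈ A.G n :=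
  Gc.mem_G.2 fun m e => by rw [A.es, Gc.mem_G.1 h m e, smul_zero]

theorem Gc.s_zero_YC3 {A : Gc V} {x : V} (h : x ∈ A.G 0) : A.s x = x := by
  have e : A.e 0 x = x := Gc.mem_G_nat.1 h
  rw [← e, Gc.se, A.es, pow_zero, one_smul]

/-- functions of nonempty lists with values in `V` -/
def LV (X V : Type) [AddCommGroup V] [Module ℂ V] : Type :=
  LinearMap.ker (LinearMap.proj (R := ℂ) (φ := fun _ : List X => V) [])

instance : AddCommGroup (LV X V) := inferInstanceAs (AddCommGroup (LinearMap.ker _))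
instance : Module ℂ (LV X V) := inferInstanceAs (Module ℂ (LinearMap.ker _))

namespace LV

/-- a cochain from a function -/
def mk (φ : List X → V) (h : φ [] = 0) : LV X V := ⟨φ, h⟩

@[simp] theorem mk_val (φ : List X → V) (h : φ [] = 0) : (mk φ h).1 = φ := rfl
@[simp] theorem nil (φ : LV X V) : φ.1 [] = 0 := φ.2
@[ext] theorem ext {φ ψ : LV X V} (h : ∀ l, φ.1 l = ψ.1 l) : φ = ψ := Subtype.ext (funext h)
@[simp] theorem val_add (φ ψ : LV X V) (l : List X) : (φ + ψ).1 l = φ.1 l + ψ.1 l := rfl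
@[simp] theorem val_sub (φ ψ : LV X V) (l : List X) : (φ - ψ).1 l = φ.1 l - ψ.1 l := rfl
@[simp] theorem val_neg (φ : LV X V) (l : List X) : (-φ).1 l = -φ.1 l := rfl
@[simp] theorem val_smul (c : ℂ) (φ : LV X V) (l : List X) : (c • φ).1 l = c • φ.1 l := rfl
@[simp] theorem val_zero (l : List X) : (0 : LV X V).1 l = 0 := rfl

/-- the total complex -/
def gc (A : Gc V) (X : Type) : Gc (LV X V) where
  d :=
    { toFun := fun φ => mk (fun l => A.d (φ.1 l) + A.s (dLV l φ.1)) (by simp [dLV])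
      map_add' := fun φ ψ => ext fun l => by
        show A.d (φ.1 l + ψ.1 l) + A.s (dLV l fun w => φ.1 w + ψ.1 w) = _
        rw [dLV_add, map_add, map_add]
        exact add_add_add_comm _ _ _ _
      map_smul' := fun c φ => ext fun l => by
        show A.d (c • φ.1 l) + A.s (dLV l fun w => c • φ.1 w) = _
        rw [dLV_smul, map_smul, map_smul]
        exact (smul_add _ _ _).symm }
  e n :=
    { toFun := fun φ => mk (fun l => if l.length ≤ n + 1 then A.e (n + 1 - l.length) (φ.1 l) else 0)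
        (by simp)
      map_add' := fun φ ψ => ext fun l => by by_cases h : l.length ≤ n + 1 <;> simp [h]
      map_smul' := fun c φ => ext fun l => by by_cases h : l.length ≤ n + 1 <;> simp [h] }
  s :=
    { toFun := fun φ => mk (fun l => (-1 : ℂ) ^ (l.length + 1) • A.s (φ.1 l)) (by simp)
      map_add' := fun φ ψ => ext fun l => by simp
      map_smul' := fun c φ => ext fun l => by simp [smul_comm c] }
  ee n x := ext fun l => by by_cases h : l.length ≤ n + 1 <;> simp [h, A.ee]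
  ee' n m x hn := ext fun l => by
    simp only [LinearMap.coe_mk, AddHom.coe_mk, mk_val, val_zero]
    split_ifs with h h'
    · exact A.ee' _ _ _ (by omega)
    · exact map_zero _
    · rfl
  ext x h := ext fun l => by
    cases l with
    | nil => simp
    | cons a t =>
      refine A.ext _ fun k => ?_
      have := congrArg (fun φ : LV X V => φ.1 (a :: t)) (h (k + t.length))
      simp only [LinearMap.coe_mk, AddHom.coe_mk, mk_val, val_zero, List.length_cons] at this
      rwa [if_pos (by omega), show k + t.length + 1 - (t.length + 1) = k by omega] at this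
  ed n x := ext fun l => by
    simp only [LinearMap.coe_mk, AddHom.coe_mk, mk_val]
    by_cases h : l.length ≤ n + 1 + 1
    · rw [if_pos h, map_add, ← Gc.se, dLV_map (A.e _)]
      congr 1
      · split_ifs with h'
        · rw [show n + 1 + 1 - l.length = n + 1 - l.length + 1 by omega, A.ed]
        · rw [show n + 1 + 1 - l.length = 0 by omega, A.ed0, map_zero]
      · exact congrArg A.s (dLV_len fun t ht => by
          rw [if_pos (by omega), show n + 1 + 1 - l.length = n + 1 - t.length by omega])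
    · rw [if_neg h, if_neg (by omega), dLV_zero fun t ht => if_neg (by omega), map_zero, map_zero,
        add_zero]
  ed0 x := ext fun l => by
    simp only [LinearMap.coe_mk, AddHom.coe_mk, mk_val, val_zero]
    split_ifs with h
    · rw [dLV_zero fun t ht => by rw [List.length_eq_zero_iff.1 (by omega : t.length = 0), nil],
        map_zero, add_zero]
      cases l with
      | nil => simp
      | cons a t => rw [show 0 + 1 - (a :: t).length = 0 by simp, A.ed0]
    · rfl
  dd x := ext fun l => by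
    simp only [LinearMap.coe_mk, AddHom.coe_mk, mk_val, val_zero]
    rw [dLV_add, ← dLV_map A.d, ← dLV_map A.s, dLV_dLV, map_add, A.dd, Gc.ds, map_zero, add_zero,
      zero_add, neg_add_cancel]
  es n x := ext fun l => by
    simp only [LinearMap.coe_mk, AddHom.coe_mk, mk_val, val_smul]
    split_ifs with h
    · rw [map_smul, A.es, smul_smul, ← pow_add,
        show l.length + 1 + (n + 1 - l.length) = n + 2 by omega, pow_add, neg_one_sq, mul_one]
    · exact (smul_zero _).symm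

/-- constant on one-letter lists -/
def κ (X V : Type) [AddCommGroup V] [Module ℂ V] : V →ₗ[ℂ] LV X V where
  toFun a := mk (fun l => if l.length = 1 then a else 0) (by simp)
  map_add' a b := ext fun l => by by_cases h : l.length = 1 <;> simp [h]
  map_smul' c a := ext fun l => by by_cases h : l.length = 1 <;> simp [h]

/-- multiples of `u` -/
def ι (X : Type) (u : V) : AS X →ₗ[ℂ] LV X V where
  toFun φ := mk (fun l => φ.1 l • u) (by simp)
  map_add' a b := ext fun l => add_smul _ _ _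
  map_smul' c a := ext fun l => mul_smul _ _ _

/-- pull-back -/
def pull (g : X → Y) (f : V' →ₗ[ℂ] V) : LV Y V' →ₗ[ℂ] LV X V where
  toFun φ := mk (fun l => f (φ.1 (l.map g))) (by simp)
  map_add' a b := ext fun l => map_add f _ _
  map_smul' c a := ext fun l => map_smul f _ _

variable {A : Gc V} {A' : Gc V'} {u : V}

theorem val_d (φ : LV X V) (l : List X) :
    ((gc A X).d φ).1 l = A.d (φ.1 l) + A.s (dLV l φ.1) := rfl

theorem val_e (n : ℕ) (φ : LV X V) (l : List X) : ((gc A X).e n φ).1 l =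
    if l.length ≤ n + 1 then A.e (n + 1 - l.length) (φ.1 l) else 0 := rfl

theorem val_s (φ : LV X V) (l : List X) :
    ((gc A X).s φ).1 l = (-1 : ℂ) ^ (l.length + 1) • A.s (φ.1 l) := rfl

theorem val_κ (a : V) (l : List X) : (κ X V a).1 l = if l.length = 1 then a else 0 := rfl

theorem val_ι (φ : AS X) (l : List X) : (ι X u φ).1 l = φ.1 l • u := rfl

theorem val_pull (g : X → Y) (f : V' →ₗ[ℂ] V) (φ : LV Y V') (l : List X) :
    (pull g f φ).1 l = f (φ.1 (l.map g)) := rfl

theorem mem_G {n : ℤ} {φ : LV X V} :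
    φ ∈ (gc A X).G n ↔ ∀ l, φ.1 l ∈ A.G (n + 1 - l.length) := by
  simp only [Gc.mem_G]
  refine ⟨fun h l m hm => ?_, fun h m hm => ext fun l => ?_⟩
  · cases l with
    | nil => simp
    | cons a t =>
      have := congrArg (fun φ : LV X V => φ.1 (a :: t)) (h (m + t.length) fun e => hm (by
        rw [← e]; simp))
      simp only [val_e, val_zero, List.length_cons] at this
      rwa [if_pos (by omega), show m + t.length + 1 - (t.length + 1) = m by omega] at this
  · rw [val_e]
    split_ifs with e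
    · exact h l _ (by omega)
    · rfl

theorem κ_d (a : V) : κ X V (A.d a) = (gc A X).d (κ X V a) := ext fun l => by
  have h1 : (κ X V a).1 = fun w => (1 : AS X).1 w • a := funext fun w => by
    rw [val_κ, AS.val_one]
    split_ifs <;> simp
  have h2 : dA l (1 : AS X).1 = 0 := congrArg (fun φ : AS X => φ.1 l) AS.d_one
  rw [val_d, val_κ, val_κ, h1, dLV_dA, h2, zero_smul, map_zero, add_zero]
  split_ifs <;> simp

theorem κ_e (n : ℕ) (a : V) : κ X V (A.e n a) = (gc A X).e n (κ X V a) := ext fun l => by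
  rw [val_e, val_κ, val_κ]
  by_cases h : l.length = 1 <;> simp [h]

theorem ι_d (du : A.d u = 0) (hu : u ∈ A.G 0) (φ : AS X) :
    ι X u (AS.d φ) = (gc A X).d (ι X u φ) := ext fun l => by
  show dA l φ.1 • u = A.d (φ.1 l • u) + A.s (dLV l fun w => φ.1 w • u)
  rw [dLV_dA, map_smul, map_smul, du, smul_zero, zero_add, Gc.s_zero_YC3 hu]

theorem ι_e (hu : u ∈ A.G 0) (n : ℕ) (φ : AS X) :
    ι X u ((AS.gc X).e n φ) = (gc A X).e n (ι X u φ) := ext fun l => by
  rw [val_e, val_ι, val_ι, AS.val_e, map_smul]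
  split_ifs with h h' h'
  · rw [show n + 1 - l.length = 0 by omega, (Gc.mem_G_nat (n := 0)).1 hu]
  · omega
  · rw [Gc.mem_G.1 hu _ (by omega), zero_smul, smul_zero]
  · exact zero_smul _ _

theorem pull_d (g : X → Y) {f : V' →ₗ[ℂ] V} (hd : ∀ x, f (A'.d x) = A.d (f x))
    (he : ∀ n x, f (A'.e n x) = A.e n (f x)) (φ : LV Y V') :
    pull g f ((gc A' Y).d φ) = (gc A X).d (pull g f φ) := ext fun l => by
  rw [val_pull, val_d, val_d, map_add, hd, Gc.map_s he, dLV_pull, dLV_map f]
  rfl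

theorem pull_e (g : X → Y) {f : V' →ₗ[ℂ] V} (he : ∀ n x, f (A'.e n x) = A.e n (f x)) (n : ℕ)
    (φ : LV Y V') : pull g f ((gc A' Y).e n φ) = (gc A X).e n (pull g f φ) := ext fun l => by
  rw [val_pull, val_e, val_e, List.length_map]
  split_ifs
  · exact he _ _
  · exact map_zero f

theorem pull_pull (g : X → Y) (g' : Y → Z) {g'' : X → Z} (f : V' →ₗ[ℂ] V) (f' : V'' →ₗ[ℂ] V')
    {f'' : V'' →ₗ[ℂ] V} (e : ∀ x, g' (g x) = g'' x) (e' : ∀ x, f (f' x) = f'' x) (φ : LV Z V'') :
    pull g f (pull g' f' φ) = pull g'' f'' φ := ext fun l => by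
  rw [val_pull, val_pull, val_pull, e', List.map_map, show g' ∘ g = g'' from funext e]

theorem pull_κ (g : X → Y) (f : V' →ₗ[ℂ] V) (a : V') : pull g f (κ Y V' a) = κ X V (f a) :=
  ext fun l => by
    rw [val_pull, val_κ, val_κ, List.length_map]
    split_ifs
    · rfl
    · exact map_zero f

theorem pull_ι (g : X → Y) (f : V' →ₗ[ℂ] V) (u : V') (φ : AS Y) :
    pull g f (ι Y u φ) = ι X (f u) (AS.pull g φ) := ext fun _ => map_smul f _ _

/-- the value on a one-letter list -/
def evp (x : X) : LV X V →ₗ[ℂ] V where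
  toFun φ := φ.1 [x]
  map_add' _ _ := rfl
  map_smul' _ _ := rfl

open Classical in
/-- the cone operator -/
def cone (A : Gc V) (x : X) : Module.End ℂ (LV X V) where
  toFun φ := mk (fun l => if l = [] then 0 else A.s (φ.1 (x :: l))) (by simp)
  map_add' a b := ext fun l => by by_cases h : l = [] <;> simp [h]
  map_smul' c a := ext fun l => by by_cases h : l = [] <;> simp [h]

open Classical in
theorem val_cone (x : X) (φ : LV X V) (l : List X) :
    (cone A x φ).1 l = if l = [] then 0 else A.s (φ.1 (x :: l)) := rfl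

theorem evp_d (x : X) (φ : LV X V) : evp x ((gc A X).d φ) = A.d (evp x φ) := by
  show A.d (φ.1 [x]) + A.s (φ.1 [] - 0) = _
  rw [nil, sub_zero, map_zero, add_zero]
  rfl

theorem cone_mem_G (x : X) {n : ℤ} {φ : LV X V} (h : φ ∈ (gc A X).G n) :
    cone A x φ ∈ (gc A X).G (n - 1) := mem_G.2 fun l => by
  rw [val_cone]
  split_ifs
  · exact zero_mem _
  · have := mem_G.1 h (x :: l)
    rw [show n + 1 - ((x :: l).length : ℕ) = n - 1 + 1 - l.length by simp] at this
    exact Gc.s_mem_YC3 this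

theorem d_cone (x : X) (φ : LV X V) :
    (gc A X).d (cone A x φ) + cone A x ((gc A X).d φ) = φ - κ X V (evp x φ) := ext fun l => by
  cases l with
  | nil => simp
  | cons a t =>
    have h1 : A.s (dLV (a :: t) (cone A x φ).1) =
        dLV (a :: t) (fun w => φ.1 (x :: w)) - (κ X V (evp x φ)).1 (a :: t) := by
      rw [dLV_map A.s, val_κ]
      cases t with
      | nil => simp [dLV, evp]
      | cons b t =>
        rw [if_neg (by simp), sub_zero]
        refine dLV_len fun w hw => ?_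
        rw [val_cone, if_neg (by rintro rfl; simp at hw), Gc.ss]
    rw [val_add, val_sub, val_d, h1, val_cone, val_cone, if_neg (by simp), if_neg (by simp), val_d,
      map_add, Gc.ss, Gc.ds, show dLV (x :: a :: t) φ.1 =
        φ.1 (a :: t) - dLV (a :: t) fun w => φ.1 (x :: w) from rfl]
    abel

open Classical in
/-- cut-off by the first point -/
def cut (O : Set X) (φ : LV X V) : LV X V :=
  mk (fun l => if ∀ y ∈ l.head?, y ∈ O then φ.1 l else 0) (by simp)

theorem cut_mem (O : Set X) {φ : LV X V} {l : List X} {U : Submodule ℂ V} (h : φ.1 l ∈ U) :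
    (cut O φ).1 l ∈ U := by
  simp only [cut, mk_val]
  split_ifs
  exacts [h, zero_mem _]

end LV

namespace Loc
variable [TopologicalSpace X] [TopologicalSpace Y] {A : Gc V} {A' : Gc V'} (L : Loc A X)
  (L' : Loc A' Y) {u : V}

/-- cochains whose values on lists near `x` vanish near `x` -/
def lz (x : X) : Submodule ℂ (LV X V) where
  carrier := {φ | ∃ O ∈ 𝓝 x, ∀ l : List X, (∀ y ∈ l, y ∈ O) → ∀ y ∈ O, φ.1 l ∈ L.z y}
  add_mem' := fun ⟨O, hO, h⟩ ⟨O', hO', h'⟩ => ⟨O ∩ O', Filter.inter_mem hO hO', fun l hl y hy =>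
    add_mem (h l (fun y hy => (hl y hy).1) y hy.1) (h' l (fun y hy => (hl y hy).2) y hy.2)⟩
  zero_mem' := ⟨univ, Filter.univ_mem, fun _ _ _ _ => zero_mem _⟩
  smul_mem' := fun c _ ⟨O, hO, h⟩ => ⟨O, hO, fun l hl y hy => Submodule.smul_mem _ c (h l hl y hy)⟩

theorem lz_pull {g : X → Y} (hg : Continuous g) {f : V' →ₗ[ℂ] V}
    (hf : ∀ x, ∀ a ∈ L'.z (g x), f a ∈ L.z x) {x : X} {φ : LV Y V'} (h : φ ∈ L'.lz (g x)) :
    LV.pull g f φ ∈ L.lz x := by
  obtain ⟨O, hO, h⟩ := h
  refine ⟨g ⁻¹' O, hg.continuousAt hO, fun l hl y hy => hf y _ (h _ (fun w hw => ?_) _ hy)⟩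
  obtain ⟨v, hv, rfl⟩ := List.mem_map.1 hw
  exact hl v hv

theorem lz_open (φ : LV X V) : IsOpen {t | φ ∈ L.lz t} := by
  refine isOpen_iff_mem_nhds.2 fun x ⟨O, hO, h⟩ => ?_
  filter_upwards [eventually_mem_nhds_iff.2 hO] with t ht using ⟨O, ht, h⟩

theorem lz_evp {x : X} {φ : LV X V} (h : φ ∈ L.lz x) : LV.evp x φ ∈ L.z x := by
  obtain ⟨O, hO, h⟩ := h
  have hx := mem_of_mem_nhds hO
  exact h [x] (fun y hy => List.mem_singleton.1 hy ▸ hx) x hx

theorem lz_cone {x : X} {φ : LV X V} (h : φ ∈ L.lz x) : LV.cone A x φ ∈ L.lz x := by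
  obtain ⟨O, hO, h⟩ := h
  refine ⟨O, hO, fun l hl y hy => ?_⟩
  rw [LV.val_cone]
  split_ifs
  · exact zero_mem _
  · refine L.sz y _ (h _ (fun w hw => ?_) y hy)
    rcases List.mem_cons.1 hw with rfl | hw
    exacts [mem_of_mem_nhds hO, hl w hw]

/-- the stalks are resolutions of the line spanned by `u` -/
structure Poin (u : V) : Prop where
  mem : u ∈ A.G 0
  d : A.d u = 0
  ac : ∀ x n, n ≠ 0 → (L.sc.cx {x} ∅).Ac n
  zero : ∀ x, ∀ c ∈ A.G 0, A.d c ∈ L.z x → ∃ a : ℂ, c - a • u ∈ L.z x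
  ne : ∀ x, u ∉ L.z x

variable [CompactSpace X] [T2Space X]

/-- germs of cochains -/
def lst : Loc (LV.gc A X) X where
  z := L.lz
  dz _ _ h := h.imp fun _ h => ⟨h.1, fun l hl y hy => add_mem (L.dz y _ (h.2 l hl y hy))
    (L.sz y _ (dLV_mem fun t _ ht => h.2 t (fun w hw => hl w (ht w hw)) y hy))⟩
  ez _ n _ h := h.imp fun _ h => ⟨h.1, fun l hl y hy => by
    rw [LV.val_e]
    split_ifs
    exacts [L.ez y _ _ (h.2 l hl y hy), zero_mem _]⟩
  sz _ _ h := h.imp fun _ h => ⟨h.1, fun l hl y hy =>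
    Submodule.smul_mem _ _ (L.sz y _ (h.2 l hl y hy))⟩
  opn := L.lz_open
  glue K₁ K₂ h₁ h₂ n a ha h := by
    have hc := (L.lz_open a).isClosed_compl
    obtain ⟨U, W, hU, hW, e₁, e₂, hd⟩ := normal_separation h₁ (h₂.inter hc)
      (disjoint_left.2 fun t h1 h2 => h2.2 (h t ⟨h1, h2.1⟩))
    refine ⟨LV.cut U a, LV.mem_G.2 fun l => LV.cut_mem U (LV.mem_G.1 ha l), fun t ht =>
      ⟨U, hU.mem_nhds (e₁ ht), fun l hl y _ => ?_⟩, fun t ht => ?_⟩
    · have : ∀ y ∈ l.head?, y ∈ U := fun y hy => hl y (List.mem_of_mem_head? hy)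
      rw [LV.val_sub, show (LV.cut U a).1 l = a.1 l from if_pos this, sub_self]
      exact zero_mem _
    by_cases e : a ∈ L.lz t
    · exact e.imp fun _ h => ⟨h.1, fun l hl y hy => LV.cut_mem U (h.2 l hl y hy)⟩
    · refine ⟨W, hW.mem_nhds (e₂ ⟨ht, e⟩), fun l hl y _ => ?_⟩
      cases l with
      | nil => simp
      | cons b t =>
        rw [show (LV.cut U a).1 (b :: t) = 0 from if_neg fun e =>
          disjoint_left.1 hd (e b (by simp)) (hl b (by simp))]
        exact zero_mem _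

theorem κ_mor : L.sc.Mor L.lst.sc (LV.κ X V) 0 where
  fG n a ha := LV.mem_G.2 fun l => by
    rw [LV.val_κ]
    split_ifs with e
    · rw [e, show n + 0 + 1 - ((1 : ℕ) : ℤ) = n by simp]
      exact ha
    · exact zero_mem _
  fz t a ha := ⟨_, (L.opn a).mem_nhds ha, fun l _ y hy => by
    rw [LV.val_κ]
    split_ifs
    exacts [hy, zero_mem _]⟩
  fd t a := Cx.meq (zero_mem _) (sub_eq_zero.2 (LV.κ_d a)).symm

theorem evp_mor (x : X) : (L.lst.sc.cx {x} ∅).Mor (L.sc.cx {x} ∅) (LV.evp x) 0 where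
  fG n φ h := ⟨show φ.1 [x] ∈ A.G (n + 0) by simpa using LV.mem_G.1 h.1 [x],
    L.sc.mem_zz.2 fun _ e => e.elim⟩
  fN _ φ _ h := L.sc.mem_zz.2 fun t e => by
    rw [show t = x from e]
    exact L.lz_evp (L.lst.sc.mem_zz.1 h x rfl)
  fd _ φ _ := Cx.meq (zero_mem _) (sub_eq_zero.2 (LV.evp_d x φ)).symm

theorem κ_evp (x : X) (n : ℤ) : ∀ φ ∈ (L.lst.sc.cx {x} ∅).Z n,
    LV.κ X V (LV.evp x φ) - φ ∈ (L.lst.sc.cx {x} ∅).B n := fun φ h => by
  refine Cx.mem_B.2 ⟨-LV.cone A x φ, ⟨neg_mem (LV.cone_mem_G x h.1.1),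
    L.lst.sc.mem_zz.2 fun _ e => e.elim⟩, L.lst.sc.mem_zz.2 fun t e => ?_⟩
  rw [show t = x from e]
  refine Cx.meq (neg_mem (L.lz_cone (L.lst.sc.mem_zz.1 h.2 x rfl))) ?_
  show -LV.cone A x ((LV.gc A X).d φ) = _ - (LV.gc A X).d _
  rw [map_neg, ← neg_sub φ, ← LV.d_cone (A := A)]
  abel

theorem evp_κ (x : X) (n : ℤ) : ∀ a ∈ (L.sc.cx {x} ∅).Z n,
    LV.evp x (LV.κ X V a) - a ∈ (L.sc.cx {x} ∅).B n := fun a _ =>
  Cx.meq (zero_mem _) (sub_self a).symm

theorem κ_qia {K B : Set X} (hK : IsClosed K) (hB : IsClosed B) :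
    (L.sc.cx K B).QIa (L.lst.sc.cx K B) (LV.κ X V) 0 :=
  SC.soft_qia L.κ_mor hK hB fun x _ =>
    Cx.qia_of_inv (LV.evp x) (L.κ_mor.cx _ _) (L.evp_mor x) (L.evp_κ x) (L.κ_evp x)

variable {L}

theorem ι_mor (du : A.d u = 0) (hu : u ∈ A.G 0) : (AS.sc X).Mor L.lst.sc (LV.ι X u) 0 where
  fG n φ h := LV.mem_G.2 fun l => by
    rw [LV.val_ι]
    by_cases e : (l.length : ℤ) = n + 1
    · rw [e, show n + 0 + 1 - (n + 1) = 0 by ring]
      exact Submodule.smul_mem _ _ hu
    · rw [AS.mem_G.1 h l e, zero_smul]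
      exact zero_mem _
  fz t φ h := h.imp fun _ h => ⟨h.1, fun l hl y _ => by
    rw [LV.val_ι, h.2 l hl, zero_smul]
    exact zero_mem _⟩
  fd t φ := Cx.meq (zero_mem _) (sub_eq_zero.2 (LV.ι_d du hu φ)).symm

theorem ι_qia (h : L.Poin u) {K B : Set X} (hK : IsClosed K) (hB : IsClosed B) :
    (CP K B).QIa (L.lst.sc.cx K B) (LV.ι X u) 0 := by
  refine SC.soft_qia (ι_mor h.d h.mem) hK hB fun x _ => Cx.QIa.left ((ι_mor h.d h.mem).cx _ _)
    (L.evp_mor x) (Cx.qia_of_inv (LV.κ X V) (L.evp_mor x) (L.κ_mor.cx _ _) (L.κ_evp x) (L.evp_κ x))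
    (Cx.qia_iff.2 fun n => ?_)
  by_cases hn : n = 0
  · subst hn
    refine ⟨fun φ hφ hb => ?_, fun c hc => ?_⟩
    · obtain ⟨b, hb, e⟩ := Cx.mem_B.1 hb
      have hb0 : b = 0 := by
        have := hb.1
        change b ∈ A.G _ at this
        rwa [Gc.G_neg (by norm_num), Submodule.mem_bot] at this
      rw [hb0, map_zero, sub_zero] at e
      have e1 : φ.1 [x] • u ∈ L.z x := L.sc.mem_zz.1 e x rfl
      have e2 : φ.1 [x] = 0 := by
        by_contra c
        exact h.ne x ((Submodule.smul_mem_iff _ c).1 e1)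
      have := AS.stalk_B hφ
      rwa [e2, zero_smul, sub_zero] at this
    · obtain ⟨a, ha⟩ := h.zero x c hc.1.1 (L.sc.mem_zz.1 hc.2 x rfl)
      refine ⟨a • 1, Submodule.smul_mem _ _ AS.one_mem_Z, Cx.N_le_B (L.sc.mem_zz.2 fun t e => ?_)⟩
      rw [show t = x from e]
      refine Cx.meq ha ?_
      show _ = c - (a * (1 : AS X).1 [x]) • u
      rw [AS.val_one, if_pos List.length_singleton, mul_one]
  · exact ⟨(AS.stalk_ac x hn).inj, Cx.Ac.sur (h.ac x _ (by simpa using hn))⟩

end Loc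

end Pool.Agent.CS
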