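import Pool.Agent.P.MP_d34769_ag.YC4b

/-! The mixed Hodge structure of a diagram of projective manifolds. -/

open Set
open Pool.Agent.HT
open Pool.Agent.HIR (Mf HolP)

noncomputable section
namespace Pool.Agent.CS

theorem Loc.zz_e {X V : Type} [TopologicalSpace X] [AddCommGroup V] [Module ℂ V] {A : Gc V}
    (L : Loc A X) (K : Set X) (n : ℕ) : ∀ x ∈ L.sc.zz K, A.e n x ∈ L.sc.zz K := fun x hx =>
  (SC.mem_zz _).2 fun t ht => L.ez t n x ((SC.mem_zz _).1 hx t ht)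

theorem Loc.zz_s {X V : Type} [TopologicalSpace X] [AddCommGroup V] [Module ℂ V] {A : Gc V}
    (L : Loc A X) (K : Set X) : ∀ x ∈ L.sc.zz K, A.s x ∈ L.sc.zz K := fun x hx =>
  (SC.mem_zz _).2 fun t ht => L.sz t x ((SC.mem_zz _).1 hx t ht)

namespace SDg

variable {S S' : Sh} (P : SDg S) {P' : SDg S'} {φ : ShH S S'}

instance (i : S.ι) : CompactSpace (P.X i) := mf_cpt (P.mf i)

theorem sm {i j : S.ι} (h : S.rel i j) : SmM (P.X i) (P.X j) (P.f i j) :=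
  holP_sm (P.mf i) (P.hol h) (P.maps h)

/-- the system of de Rham complexes -/
def om : Sys S fun i => OM (P.X i) where
  A i := omGc (P.X i)
  pl h := (P.sm h).pl
  pd h := (P.sm h).pl_d
  pe h := (P.sm h).pl_e
  pp h h' := (P.sm h).pl_pl (P.sm h') _ (P.comp h h')

/-- the system of cochains with values in forms -/
def dd : Sys S fun i => LV (P.X i) (OM (P.X i)) where
  A i := LV.gc (omGc (P.X i)) (P.X i)
  pl h := LV.pull (P.toDg.mp h) (P.sm h).pl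
  pd h := LV.pull_d _ (P.sm h).pl_d (P.sm h).pl_e
  pe h := LV.pull_e _ (P.sm h).pl_e
  pp h h' := LV.pull_pull _ _ _ _ (P.toDg.comp h h') ((P.sm h).pl_pl (P.sm h') _ (P.comp h h'))

theorem om_stab (K : P.toDg.Fam) : P.om.Stab fun i => (omLoc (P.X i)).sc.zz (K.A i) :=
  ⟨fun _ => SC.zz_d _, fun _ => Loc.zz_e _ _, fun _ => Loc.zz_s _ _,
    fun h _ hx => (P.sm h).pl_zz (K.mp h) hx⟩

theorem dd_stab (K : P.toDg.Fam) : P.dd.Stab fun i => (omLoc (P.X i)).lst.sc.zz (K.A i) :=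
  ⟨fun _ => SC.zz_d _, fun _ => Loc.zz_e _ _, fun _ => Loc.zz_s _ _,
    fun h _ hx => (P.sm h).pull_zz (K.mp h) hx⟩

/-- the double complex of forms -/
def obc : Bc (∀ i, OM (P.X i)) := P.om.bc (P.om_stab ⊥) (P.om_stab ⊤)

/-- the double complex of cochains with values in forms -/
def dbc : Bc (∀ i, LV (P.X i) (OM (P.X i))) := P.dd.bc (P.dd_stab ⊥) (P.dd_stab ⊤)

theorem obc_U : P.obc.U = ⊤ :=
  eq_top_iff.2 fun _ _ _ _ => (SC.mem_zz _).2 fun _ h => h.elim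

theorem obc_N : P.obc.N = ⊥ :=
  eq_bot_iff.2 fun _ hx => funext fun i => (om_zz_univ (P.X i)).le (hx i trivial)

/-- the double complex of forms with its type operator -/
def kd : KD (∀ i, OM (P.X i)) :=
  P.om.kd (fun i => om_hg (P.mf i)) fun h => pl_omG (P.mf _) (P.hol h) (P.sm h) _ _

theorem kd_bg : P.kd.toBG = P.om.bg := rfl

theorem kd_g (c : ∀ i, OM (P.X i)) (i : S.ι) (n : ℕ) :
    P.kd.g c i n = Om.gam (mf_gam (P.mf i)) n (c i n) := rfl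

theorem mem_kd_F {b : ℕ} {c : ∀ i, OM (P.X i)} : c ∈ P.kd.F b ↔
    ∀ i (n : ℕ), c i n ∈ EGe (Om.gam (mf_gam (P.mf i)) n) (2 * (b : ℝ) - n) :=
  (Sys.mem_kd_F _ _ _).trans (forall_congr' fun i => mem_om_F (P.mf i))

theorem isKC : IsKC P.kd P.obc.cx := P.obc.isKC P.kd rfl P.obc_U P.obc_N

/-- the mixed Hodge structure on the de Rham side -/
abbrev omhs (j : ℕ) : MHS (P.obc.cx.H j) j := P.isKC.mhs j

theorem κ_mor : P.obc.Mor P.dbc (LinearMap.piMap fun i => LV.κ (P.X i) (OM (P.X i))) 0 :=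
  Sys.mor_diag (P.om_stab ⊥) (P.om_stab ⊤) (P.dd_stab ⊥) (P.dd_stab ⊤) _
    (fun _ n x hx hx' => (om_κ_mor univ ∅).fG n x ⟨hx, hx'⟩)
    (fun i x _ hx => (SC.mem_zz _).2 fun t ht =>
      (omLoc (P.X i)).κ_mor.fz t x ((SC.mem_zz _).1 hx t ht))
    (fun _ x _ => Cx.meq (zero_mem _) (sub_eq_zero.2 (LV.κ_d x)).symm)
    (fun _ x => Gc.map_s LV.κ_e x) fun _ x => (LV.pull_κ _ _ x).symm

theorem ι_mor : P.bc.Mor P.dbc (LinearMap.piMap fun i => LV.ι (P.X i) (omOne (P.X i))) 0 :=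
  Sys.mor_diag (⊥ : P.toDg.Fam).stab (⊤ : P.toDg.Fam).stab (P.dd_stab ⊥) (P.dd_stab ⊤) _
    (fun _ n x hx hx' => (om_ι_mor univ ∅).fG n x ⟨hx, hx'⟩)
    (fun i x _ hx => (SC.mem_zz _).2 fun t ht => (Loc.ι_mor (L := omLoc (P.X i)) (omOne_d _)
      (omOne_mem _)).fz t x ((SC.mem_zz _).1 hx t ht))
    (fun _ x _ => Cx.meq (zero_mem _)
      (sub_eq_zero.2 (LV.ι_d (omOne_d _) (omOne_mem _) x)).symm)
    (fun _ x => Gc.map_s (LV.ι_e (omOne_mem _)) x)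
    fun h x => ((LV.pull_ι _ _ _ x).trans (by rw [(P.sm h).pl_one]; rfl)).symm

theorem κ_col (p : ℕ) : (P.obc.col p).QIa (P.dbc.col p)
    (LinearMap.piMap fun i => LV.κ (P.X i) (OM (P.X i))) 0 := fun k =>
  Sys.col_qi (P.om_stab ⊥) (P.om_stab ⊤) (P.dd_stab ⊥) (P.dd_stab ⊤) _ p fun i _ =>
    (omLoc (P.X i)).κ_qia isClosed_univ isClosed_empty k

theorem ι_col (p : ℕ) : (P.bc.col p).QIa (P.dbc.col p)
    (LinearMap.piMap fun i => LV.ι (P.X i) (omOne (P.X i))) 0 := fun k =>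
  Sys.col_qi (⊥ : P.toDg.Fam).stab (⊤ : P.toDg.Fam).stab (P.dd_stab ⊥) (P.dd_stab ⊤) _ p
    fun i _ => Loc.ι_qia (om_poin (P.mf i)) isClosed_univ isClosed_empty k

/-- the de Rham isomorphism -/
def θ (j : ℤ) : P.obc.cx.H j ≃ₗ[ℂ] P.bc.cx.H j :=
  Cx.zig P.κ_mor.cx P.ι_mor.cx (Bc.filta_cx P.κ_mor P.κ_col) (Bc.filta_cx P.ι_mor P.ι_col) j

/-- the mixed Hodge structure on the cohomology of the diagram -/
def mhs (j : ℕ) : MHS (P.bc.cx.H j) j := (P.omhs j).map (P.θ j)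

theorem θ_mor (j : ℕ) : (P.omhs j).Mor (P.mhs j) (P.θ j).toLinearMap := MHS.mor_map _ _

theorem θ_symm_mor (j : ℕ) : (P.mhs j).Mor (P.omhs j) (P.θ j).symm.toLinearMap := MHS.map_mor _ _

theorem mhs_W (j c : ℕ) : (P.mhs j).W c = P.bc.W j c := by
  ext a
  rw [← Bc.filta_W P.ι_mor P.ι_col (add_zero _),
    ← (Cx.zig_eq _ _ _ _).1 ((P.θ j).apply_symm_apply a), Bc.filta_W P.κ_mor P.κ_col]
  rfl

theorem obc_eq : P.obc = bcOf P.kd.toBG := P.obc.eq_bcOf P.obc_U P.obc_N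

theorem e2a : P.bc.E2a :=
  (Bc.e2a_iff P.ι_mor P.ι_col).2 ((Bc.e2a_iff P.κ_mor P.κ_col).1 (P.obc_eq ▸ kd_e2a P.kd))

theorem e2b : P.bc.E2b :=
  (Bc.e2b_iff P.ι_mor P.ι_col).2 ((Bc.e2b_iff P.κ_mor P.κ_col).1 (P.obc_eq ▸ kd_e2b P.kd))

variable {P}

theorem Hom.sm (F : Hom φ P P') {i : S.ι} {j : S'.ι} (h : φ.R i j) :
    SmM (P.X i) (P'.X j) (F.g i j) := holP_sm (P.mf i) (F.hol h) (F.maps h)

/-- the map on forms -/
def Hom.om (F : Hom φ P P') : SysH φ P.om P'.om where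
  g h := (F.sm h).pl
  gd h := (F.sm h).pl_d
  ge h := (F.sm h).pl_e
  gl h h' := (P.sm h).pl_pl (F.sm h') _ (F.gl h h')
  gr h h' := (F.sm h).pl_pl (P'.sm h') _ (F.gr h h')

/-- the map on cochains with values in forms -/
def Hom.dd (F : Hom φ P P') : SysH φ P.dd P'.dd where
  g h := LV.pull (F.toHom.g h) (F.sm h).pl
  gd h := LV.pull_d _ (F.sm h).pl_d (F.sm h).pl_e
  ge h := LV.pull_e _ (F.sm h).pl_e
  gl h h' := LV.pull_pull _ _ _ _ (F.toHom.gl h h') ((P.sm h).pl_pl (F.sm h') _ (F.gl h h'))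
  gr h h' := LV.pull_pull _ _ _ _ (F.toHom.gr h h') ((F.sm h).pl_pl (P'.sm h') _ (F.gr h h'))

theorem Hom.om_mor (F : Hom φ P P') : P'.obc.Mor P.obc F.om.map 0 :=
  F.om.mor (P.om_stab ⊥) (P.om_stab ⊤) (P'.om_stab ⊥) (P'.om_stab ⊤)
    (fun h _ _ hx => (F.sm h).pl_zz (mapsTo_empty _ _) hx)
    fun h _ _ _ hx => (F.sm h).pl_zz (mapsTo_univ _ _) hx

theorem Hom.dd_mor (F : Hom φ P P') : P'.dbc.Mor P.dbc F.dd.map 0 :=
  F.dd.mor (P.dd_stab ⊥) (P.dd_stab ⊤) (P'.dd_stab ⊥) (P'.dd_stab ⊤)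
    (fun h _ _ hx => (F.sm h).pull_zz (mapsTo_empty _ _) hx)
    fun h _ _ _ hx => (F.sm h).pull_zz (mapsTo_univ _ _) hx

/-- the de Rham isomorphism is natural -/
theorem Hom.θ_nat (F : Hom φ P P') (j : ℤ) (a : P'.obc.cx.H j) :
    P.θ j (F.om_mor.cx.hm (add_zero j) a) = F.hm j (P'.θ j a) :=
  Cx.zig_nat _ _ _ _ _ _ _ _ _ _ F.dd_mor.cx
    (mat_piMap φ.μ (@F.om.g) (@F.dd.g) _ _ fun _ x => LV.pull_κ _ _ x)
    (mat_piMap φ.μ (@F.toHom.sys.g) (@F.dd.g) _ _ fun h x =>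
      (LV.pull_ι _ _ _ x).trans (by rw [(F.sm h).pl_one]; rfl)) j a

/-- holomorphic maps of diagrams give morphisms of mixed Hodge structures -/
theorem Hom.mor (F : Hom φ P P') (j : ℕ) : (P'.mhs j).Mor (P.mhs j) (F.hm j) :=
  (P'.isKC.mor P.isKC F.om_mor.cx F.om.map_e (mat_piMap φ.μ (@F.om.g) (@F.om.g) _ _ fun h x =>
    pl_omG (P.mf _) (F.hol h) (F.sm h) _ _ x) j).map_map _ _ (F.θ_nat j)

end SDg
end Pool.Agent.CS
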