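import Pool.Agent.P.MP_d34769_ag.YC2
import Pool.Agent.P.MP_d34769_ag.YC4a

/-! The de Rham comparison and the Hodge structure of one projective manifold. -/

open Set
open Pool.Agent.HT
open Pool.Agent.HIR (Mf HolP)

noncomputable section
namespace Pool.Agent.CS

theorem Cx.zig_nat {T₁ T₂ T₃ U₁ U₂ U₃ : Type} [AddCommGroup T₁] [Module ℂ T₁] [AddCommGroup T₂]
    [Module ℂ T₂] [AddCommGroup T₃] [Module ℂ T₃] [AddCommGroup U₁] [Module ℂ U₁]
    [AddCommGroup U₂] [Module ℂ U₂] [AddCommGroup U₃] [Module ℂ U₃] {C₁ : Cx T₁} {C₂ : Cx T₂}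
    {C₃ : Cx T₃} {E₁ : Cx U₁} {E₂ : Cx U₂} {E₃ : Cx U₃} {f : T₁ →ₗ[ℂ] T₃} {g : T₂ →ₗ[ℂ] T₃}
    {f' : U₁ →ₗ[ℂ] U₃} {g' : U₂ →ₗ[ℂ] U₃} (h : C₁.Mor C₃ f 0) (h' : C₂.Mor C₃ g 0)
    (q : C₁.QIa C₃ f 0) (q' : C₂.QIa C₃ g 0) (k : E₁.Mor E₃ f' 0) (k' : E₂.Mor E₃ g' 0)
    (r : E₁.QIa E₃ f' 0) (r' : E₂.QIa E₃ g' 0) {a₁ : U₁ →ₗ[ℂ] T₁} {a₂ : U₂ →ₗ[ℂ] T₂}
    {a₃ : U₃ →ₗ[ℂ] T₃} (u₁ : E₁.Mor C₁ a₁ 0) (u₂ : E₂.Mor C₂ a₂ 0) (u₃ : E₃.Mor C₃ a₃ 0)
    (e₁ : ∀ x, a₃ (f' x) = f (a₁ x)) (e₂ : ∀ x, a₃ (g' x) = g (a₂ x)) (n : ℤ) (x : E₁.H n) :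
    Cx.zig h h' q q' n (u₁.hm (add_zero n) x) = u₂.hm (add_zero n) (Cx.zig k k' r r' n x) := by
  obtain ⟨x, rfl⟩ := Cx.cls_surj n x
  obtain ⟨y, hy⟩ := Cx.cls_surj n (Cx.zig k k' r r' n (E₁.cls n x))
  rw [← hy, Cx.Mor.hm_cls, Cx.Mor.hm_cls, Cx.zig_cls, ← e₁, ← e₂, ← map_sub]
  exact Cx.Bcast (u₃.mem_B (sub_mem (Cx.Gcast (k.fG n _ x.2.1) (add_zero n))
    (Cx.Gcast (k'.fG n _ y.2.1) (add_zero n))) ((Cx.zig_cls k k' r r').1 hy.symm)) (add_zero n)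

theorem MHS.Mor.map_map {H H' K K' : Type} [AddCommGroup H] [Module ℂ H] [AddCommGroup H']
    [Module ℂ H'] [AddCommGroup K] [Module ℂ K] [AddCommGroup K'] [Module ℂ K'] {j : ℕ}
    {A : MHS H j} {A' : MHS H' j} {f : H →ₗ[ℂ] H'} (h : A.Mor A' f) (e : H ≃ₗ[ℂ] K)
    (e' : H' ≃ₗ[ℂ] K') {g : K →ₗ[ℂ] K'} (hg : ∀ x, e' (f x) = g (e x)) :
    (A.map e).Mor (A'.map e') g := by
  have h1 : ∀ y, e'.symm (g y) = f (e.symm y) := fun y => by
    rw [LinearEquiv.symm_apply_eq, hg, e.apply_symm_apply]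
  exact ⟨fun c y hy => MHS.mem_map_W.2 (h1 y ▸ h.W c _ hy),
    fun c y hy => MHS.mem_map_F.2 (h1 y ▸ h.F c _ hy),
    fun c y hy => MHS.mem_map_Fb.2 (h1 y ▸ h.Fb c _ hy)⟩

variable {M N e e' : ℕ} {X : Set (Amb M)} {Y : Set (Amb N)} {f : Amb M → Amb N}

theorem mf_gam (h : Mf e X) : GamOK (JP M) X := (mf_good h).1

/-- the type operator -/
def omG (h : GamOK (JP M) X) : Module.End ℂ (OM X) := LinearMap.piMap (Om.gam h)

theorem omG_apply (h : GamOK (JP M) X) (c : OM X) (n : ℕ) : omG h c n = Om.gam h n (c n) := rfl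

theorem om_single {g : ∀ n, Module.End ℂ (Om X n)} {G : Module.End ℂ (OM X)}
    (hG : ∀ c n, G c n = g n (c n)) (n : ℕ) (a : Om X n) :
    LinearMap.single ℂ (Om X) n (g n a) = G (LinearMap.single ℂ (Om X) n a) := funext fun m =>
  ((hG _ m).trans (Pi.apply_single (fun n => g n) (fun _ => map_zero _) n a m)).symm

theorem om_e_ege {g : ∀ n, Module.End ℂ (Om X n)} {G : Module.End ℂ (OM X)}
    (hG : ∀ c n, G c n = g n (c n)) {n : ℕ} {c : OM X} {t : ℝ} :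
    (omGc X).e n c ∈ EGe G t ↔ c n ∈ EGe (g n) t := by
  refine ⟨fun h => ?_, EGe.map (LinearMap.single ℂ (Om X) n) (om_single hG n)⟩
  have h1 := EGe.map (g' := g n) (LinearMap.proj n) (fun y => hG y n) h
  rwa [LinearMap.proj_apply, om_e_apply, if_pos rfl] at h1

theorem omC_zero (h : GamOK (JP M) X) (y : OM X) :
    (omG h * (omGc X).d - (omGc X).d * omG h) y 0 = 0 := by
  change Om.gam h 0 0 - 0 = 0
  rw [map_zero, sub_zero]

theorem om_hg (h : Mf e X) : HG (omGc X) (omG (mf_gam h)) := by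
  have hH : Hodge (mf_gam h) := (mf_good h).2.1
  refine ⟨fun n x => om_single (omG_apply _) n (x n), fun n x => eigs_map
    (LinearMap.single ℂ (Om X) n) (om_single (omG_apply _) n) (hH.poly n (x n)), fun x hx => ?_,
    fun x => ?_, fun y hy => ?_, fun y hy => ?_⟩
  · choose b hb using fun m => hH.hA m (x (m + 1)) (congrFun hx (m + 2))
    refine ⟨b, funext fun m => ?_⟩
    rcases m with _ | _ | m
    · rfl
    · rw [om_d_succ, omG_apply, Om.gam_zero, map_zero]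
      rfl
    · exact hb m
  · funext m
    rcases m with _ | m
    · rw [Pi.sub_apply, omG_apply, omC_zero, omC_zero, map_zero, sub_zero, Pi.neg_apply, om_d_zero,
        neg_zero]
    · exact hH.hB m (x m)
  · choose b hb using fun m => hH.hC m (y (m + 1)) (congrFun hy (m + 3))
    refine ⟨b, funext fun m => ?_⟩
    rcases m with _ | _ | m
    · rfl
    · rw [om_d_succ, om_d_succ, omC_zero, map_zero]
      exact hH.hC0 _ (congrFun hy 2)
    · exact hb m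
  · choose b hb using fun m => hH.hD m (y (m + 1)) (congrFun hy (m + 3))
    refine ⟨b, funext fun m => ?_⟩
    rcases m with _ | _ | m
    · exact omC_zero _ y
    · rw [om_d_succ, omC_zero, map_zero]
      exact hH.hD0 _ (congrFun hy 2)
    · exact hb m

theorem mem_om_F (h : Mf e X) {b : ℕ} {c : OM X} : c ∈ (om_hg h).kd.F b ↔
    ∀ n : ℕ, c n ∈ EGe (Om.gam (mf_gam h) n) (2 * (b : ℝ) - n) :=
  (om_hg h).mem_F.trans (forall_congr' fun _ => om_e_ege (omG_apply _))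

theorem mem_om_Fb (h : Mf e X) {b : ℕ} {c : OM X} : c ∈ (om_hg h).kd.Fb b ↔
    ∀ n : ℕ, c n ∈ EGe (-Om.gam (mf_gam h) n) (2 * (b : ℝ) - n) :=
  (om_hg h).mem_Fb.trans (forall_congr' fun _ =>
    om_e_ege (g := fun n => -Om.gam (mf_gam h) n) fun _ _ => rfl)

theorem pl_omG (hX : Mf e X) (h : HolP e X f) (s : SmM X Y f) (gX : GamOK (JP M) X)
    (gY : GamOK (JP N) Y) (c : OM Y) : s.pl (omG gY c) = omG gX (s.pl c) :=
  funext fun _ => pl1_gam hX h s gX gY _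

variable [CompactSpace X] [CompactSpace Y]

theorem om_isKC (h : Mf e X) : IsKC (om_hg h).kd (omCx X univ ∅) :=
  (om_hg h).isKC rfl (funext fun _ => inf_eq_left.2 fun _ _ => (SC.mem_zz _).2 fun _ h => h.elim)
    (om_zz_univ X)

/-- the Hodge structure on de Rham cohomology -/
abbrev omMHS (h : Mf e X) (n : ℕ) : MHS ((omCx X univ ∅).H n) n := (om_isKC h).mhs n

/-- cochains with values in forms -/
abbrev ddCx (X : Set (Amb M)) [CompactSpace X] (K A : Set X) : Cx (LV X (OM X)) :=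
  (omLoc X).lst.sc.cx K A

theorem om_κ_mor (K A : Set X) : (omCx X K A).Mor (ddCx X K A) (LV.κ X (OM X)) 0 :=
  (omLoc X).κ_mor.cx K A

theorem om_ι_mor (K A : Set X) : (CP K A).Mor (ddCx X K A) (LV.ι X (omOne X)) 0 :=
  (Loc.ι_mor (omOne_d X) (omOne_mem X)).cx K A

/-- the de Rham isomorphism -/
def dR (h : Mf e X) {K A : Set X} (hK : IsClosed K) (hA : IsClosed A) (n : ℤ) :
    (omCx X K A).H n ≃ₗ[ℂ] (CP K A).H n :=
  Cx.zig (om_κ_mor K A) (om_ι_mor K A) ((omLoc X).κ_qia hK hA) (Loc.ι_qia (om_poin h) hK hA) n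

theorem SmM.pl_zz (s : SmM X Y f) {K : Set X} {K' : Set Y}
    (hK : MapsTo (rmap s.cont s.maps) K K') {c : OM Y} (hc : c ∈ (omLoc Y).sc.zz K') :
    s.pl c ∈ (omLoc X).sc.zz K :=
  (SC.mem_zz _).2 fun t ht => s.pl_z t.2 ((SC.mem_zz _).1 hc _ (hK ht))

theorem SmM.pull_zz (s : SmM X Y f) {K : Set X} {K' : Set Y}
    (hK : MapsTo (rmap s.cont s.maps) K K') {c : LV Y (OM Y)}
    (hc : c ∈ (omLoc Y).lst.sc.zz K') :
    LV.pull (rmap s.cont s.maps) s.pl c ∈ (omLoc X).lst.sc.zz K :=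
  (SC.mem_zz _).2 fun _ ht => (omLoc X).lz_pull (omLoc Y) (rmap s.cont s.maps).continuous
    (fun x _ ha => s.pl_z x.2 ha) ((SC.mem_zz _).1 hc _ (hK ht))

theorem Gc.map_G {T T' : Type} [AddCommGroup T] [Module ℂ T] [AddCommGroup T'] [Module ℂ T']
    {A : Gc T} {A' : Gc T'} {u : T →ₗ[ℂ] T'} (h : ∀ n x, u (A.e n x) = A'.e n (u x)) {n : ℤ}
    {x : T} (hx : x ∈ A.G n) : u x ∈ A'.G (n + 0) :=
  Gc.mem_G.2 fun m hm => by rw [← h, Gc.mem_G.1 hx m (by rwa [add_zero] at hm), map_zero]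

theorem SmM.dd_mor (s : SmM X Y f) {K A : Set X} {K' A' : Set Y}
    (hK : MapsTo (rmap s.cont s.maps) K K') (hA : MapsTo (rmap s.cont s.maps) A A') :
    (ddCx Y K' A').Mor (ddCx X K A) (LV.pull (rmap s.cont s.maps) s.pl) 0 :=
  ⟨fun _ _ hx => ⟨Gc.map_G (LV.pull_e _ s.pl_e) hx.1, s.pull_zz hA hx.2⟩,
    fun _ _ _ hx => s.pull_zz hK hx,
    fun _ x _ => Cx.meq (zero_mem _) (sub_eq_zero.2 (LV.pull_d _ s.pl_d s.pl_e x)).symm⟩

theorem SmM.mor (s : SmM X Y f) {K A : Set X} {K' A' : Set Y}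
    (hK : MapsTo (rmap s.cont s.maps) K K') (hA : MapsTo (rmap s.cont s.maps) A A') :
    (omCx Y K' A').Mor (omCx X K A) s.pl 0 :=
  ⟨fun _ _ hx => ⟨Gc.map_G s.pl_e hx.1, s.pl_zz hA hx.2⟩, fun _ _ _ hx => s.pl_zz hK hx,
    fun _ x _ => Cx.meq (zero_mem _) (sub_eq_zero.2 (s.pl_d x)).symm⟩

/-- the de Rham isomorphism is natural -/
theorem dR_nat (hX : Mf e X) (hY : Mf e' Y) (s : SmM X Y f) {K A : Set X} {K' A' : Set Y}
    (cK : IsClosed K) (cA : IsClosed A) (cK' : IsClosed K') (cA' : IsClosed A')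
    (hK : MapsTo (rmap s.cont s.maps) K K') (hA : MapsTo (rmap s.cont s.maps) A A') (n : ℤ)
    (a : (omCx Y K' A').H n) : dR hX cK cA n ((s.mor hK hA).hm (add_zero n) a) =
      (AS.pull_mor (rmap s.cont s.maps).continuous hK hA).hm (add_zero n) (dR hY cK' cA' n a) :=
  Cx.zig_nat _ _ _ _ _ _ _ _ _ _ (s.dd_mor hK hA) (LV.pull_κ _ _)
    (fun x => (LV.pull_ι _ _ _ x).trans (by rw [s.pl_one]; rfl)) n a

/-- the Hodge structure on the cohomology of a projective manifold -/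
def mfMHS (h : Mf e X) (n : ℕ) : MHS ((CC X).H n) n :=
  (omMHS h n).map (dR h isClosed_univ isClosed_empty n)

theorem mfMHS_W (h : Mf e X) (n : ℕ) : (mfMHS h n).W 1 = ⊥ := by
  refine eq_bot_iff.2 fun x hx => ?_
  obtain ⟨y, hy, e⟩ := MHS.mem_map_W.1 hx
  have h1 : y.1 ∈ (om_hg h).kd.Col 1 := hy
  rw [HG.col_one, Submodule.mem_bot] at h1
  rw [show y = 0 from Subtype.ext h1, map_zero, eq_comm, LinearEquiv.map_eq_zero_iff] at e
  exact e

theorem mfMHS_mor (hX : Mf e X) (hY : Mf e' Y) (h : HolP e X f) (m : MapsTo f X Y) (n : ℕ) :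
    (mfMHS hY n).Mor (mfMHS hX n) ((AS.pull_mor (rmap (h.cont hX) m).continuous
      (mapsTo_univ _ _) (mapsTo_empty _ _)).hm (add_zero _)) := by
  have s := holP_sm hX h m
  refine ((om_isKC hY).mor (om_isKC hX) (s.mor (mapsTo_univ _ _) (mapsTo_empty _ _))
    (fun p k x => ?_) (pl_omG hX h s _ _) n).map_map _ _
    (dR_nat hX hY s _ _ _ _ (mapsTo_univ _ _) (mapsTo_empty _ _) n)
  cases p with
  | zero => exact s.pl_e k x
  | succ p => exact map_zero _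

/-- complex conjugation of forms -/
def omCj (c : OM X) : OM X := fun n => Om.conj X n (c n)

omit [CompactSpace X] in
theorem omCj_d (c : OM X) : (omGc X).d (omCj c) = omCj ((omGc X).d c) := funext fun n => by
  cases n with
  | zero => exact (map_zero (Om.conj X 0)).symm
  | succ n => exact Om.d_conj X (c n)

theorem omCj_Z {n : ℕ} {c : OM X} (hc : c ∈ (omCx X univ ∅).Z n) :
    omCj c ∈ (omCx X univ ∅).Z n := by
  have h1 : (omGc X).d c ∈ (omLoc X).sc.zz univ := hc.2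
  rw [om_zz_univ, Submodule.mem_bot] at h1
  have h2 : (omGc X).d (omCj c) = 0 := by
    rw [omCj_d, h1]
    exact funext fun m => map_zero (Om.conj X m)
  exact Cx.mem_Z.2 ⟨⟨mem_om_G.2 fun m hm => (congrArg (Om.conj X m)
    (mem_om_G.1 hc.1.1 m hm)).trans (map_zero _), (SC.mem_zz _).2 fun _ h => h.elim⟩,
    Cx.meq (zero_mem _) h2.symm⟩

theorem omCj_top (h : Mf e X) {n : ℕ} {U U' : Submodule ℂ (OM X)}
    (hU : ∀ y ∈ U, (om_hg h).kd.tr n y ∈ U) (hU' : ∀ y ∈ U', (om_hg h).kd.tr n y ∈ U')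
    (c : ∀ y ∈ U, omCj y ∈ U') (t : (omCx X univ ∅).im n U = ⊤) :
    (omCx X univ ∅).im n U' = ⊤ := by
  refine eq_top_iff.2 fun a _ => ?_
  obtain ⟨x, rfl⟩ := Cx.cls_surj _ a
  obtain ⟨z, hz⟩ := ((om_isKC h).mem_im hU (x := ⟨omCj x.1, omCj_Z x.2⟩)).1 (t ▸ trivial)
  have hD : ∀ y, (om_hg h).kd.D y = (omGc X).d y := fun y => add_zero _
  refine ((om_isKC h).mem_im hU').2 ⟨omCj z, Cx.meq (c _ hz) (funext fun m => ?_)⟩
  rw [hD, hD, omCj_d]
  exact (map_sub (Om.conj X m) _ _).trans (congrArg (· - _) (Om.conj_conj X _))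

/-- complex conjugation exchanges the two Hodge filtrations -/
theorem mfMHS_top (h : Mf e X) (n b : ℕ) : (mfMHS h n).F b = ⊤ ↔ (mfMHS h n).Fb b = ⊤ := by
  have key : ∀ U : Submodule ℂ ((omCx X univ ∅).H n),
      U.comap (dR h isClosed_univ isClosed_empty n).symm.toLinearMap = ⊤ ↔ U = ⊤ := fun U =>
    ⟨fun e => eq_top_iff.2 fun a _ => by
      have h1 : dR h isClosed_univ isClosed_empty n a ∈
        U.comap (dR h isClosed_univ isClosed_empty n).symm.toLinearMap := e ▸ trivial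
      simpa using h1, fun e => by rw [e, Submodule.comap_top]⟩
  refine (key _).trans (Iff.trans ⟨omCj_top h (fun _ hy => KD.tr_mem_F hy n)
    (fun _ hy => KD.tr_mem_F (K := (om_hg h).kd.neg) hy n) fun y hy => (mem_om_Fb h).2 fun m => ?_,
    omCj_top h (fun _ hy => KD.tr_mem_F (K := (om_hg h).kd.neg) hy n)
    (fun _ hy => KD.tr_mem_F hy n) fun y hy => (mem_om_F h).2 fun m => ?_⟩ (key _).symm)
  · exact EGe.map_conj (Om.conj X m) (fun x => by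
      rw [LinearMap.neg_apply, neg_neg, Om.gam_conj]) ((mem_om_F h).1 hy m)
  · exact EGe.map_conj (Om.conj X m) (fun x => by
      rw [LinearMap.neg_apply, map_neg, Om.gam_conj]) ((mem_om_Fb h).1 hy m)

end Pool.Agent.CS
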