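import Pool.Agent.P.MP_d34769_ag.YD2
import Pool.Agent.P.MP_65ad7c_ag.XI4
import Pool.Agent.P.MP_65ad7c_ag.XG6

/-! The Segre map; manifolds and holomorphic maps are algebraic. -/

open Set Filter Topology
open Pool.Agent.HT (Amb proj cj)
open Pool.Agent.PWV (ZC ZI Dim zcl pm)
open Pool.Agent.HIR
open scoped ComplexConjugate

noncomputable section
namespace Pool.Agent.CS

variable {M N K e : ℕ} {X A : Set (Amb M)} {Y : Set (Amb N)} {R : Amb M → Amb N → Prop}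
  {f : Amb M → Amb N} {x : Amb M} {y : Amb N}

theorem seg_proj (v : Fin M → ℂ) (w : Fin N → ℂ) : seg (proj v) (proj w) = proj (tens v w) := by
  have h1 : ∑ k, tens v w k * conj (tens v w k) =
      (∑ i, v i * conj (v i)) * ∑ a, w a * conj (w a) := by
    rw [← finProdFinEquiv.sum_comp, Fintype.sum_prod_type, Finset.sum_mul_sum]
    refine Finset.sum_congr rfl fun i _ => Finset.sum_congr rfl fun a _ => ?_
    rw [tens_apply_XG8, map_mul]
    ring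
  ext p
  simp only [seg, proj, h1]
  simp only [tens, map_mul]
  rw [div_mul_div_comm]
  congr 1
  ring

theorem ptr_seg (hx : x ∈ Prj M) (hy : y ∈ Prj N) : ptr M N (seg x y) = x := by
  obtain ⟨v, -, rfl⟩ := hx
  obtain ⟨w, hw, rfl⟩ := hy
  rw [seg_proj, ptr_tens hw]

theorem ptr2_seg (hx : x ∈ Prj M) (hy : y ∈ Prj N) : ptr2 M N (seg x y) = y := by
  obtain ⟨v, hv, rfl⟩ := hx
  ext p
  simp only [ptr2, seg, Equiv.symm_apply_apply, proj]
  rw [← Finset.sum_mul, ← Finset.sum_div, div_self (nsq_ne_XG8 hv), one_mul]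

theorem cont_seg : Continuous fun p : Amb M × Amb N => seg p.1 p.2 := by
  unfold seg
  fun_prop

theorem cont_ptr2 : Continuous (ptr2 M N) := by
  unfold ptr2
  fun_prop

theorem sgr_prj_YD4 (h0 : ∀ x y, R x y → x ∈ Prj M ∧ y ∈ Prj N) : Sgr R ⊆ Prj (M * N) := by
  rintro _ ⟨x, y, h, rfl⟩
  obtain ⟨⟨v, hv, rfl⟩, w, hw, rfl⟩ := h0 x y h
  exact ⟨_, tens_ne hv hw, (seg_proj v w).symm⟩

theorem mem_sgr_YD4 (h0 : ∀ x y, R x y → x ∈ Prj M ∧ y ∈ Prj N) {u : Fin (M * N) → ℂ}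
    (hu : u ≠ 0) (h : proj u ∈ Sgr R) :
    ∃ v w, v ≠ 0 ∧ w ≠ 0 ∧ R (proj v) (proj w) ∧ u = tens v w := by
  obtain ⟨x, y, h, e⟩ := h
  obtain ⟨⟨v, hv, rfl⟩, w, hw, rfl⟩ := h0 x y h
  rw [seg_proj] at e
  obtain ⟨c, hc, rfl⟩ := (proj_eq_iff (tens_ne hv hw) hu).1 e.symm
  refine ⟨c • v, w, smul_ne_zero hc hv, hw, by rwa [proj_smul hc], ?_⟩
  simpa using (tens_smul c 1 v w).symm

theorem AR.sgr (h : AR R) : PA (Sgr R) := by
  obtain ⟨h0, V, ⟨S, rfl⟩, hV⟩ := h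
  refine pa_of_hom (sgr_prj_YD4 h0) fun u hu hx => ?_
  obtain ⟨k, hk⟩ := Function.ne_iff.1 hu
  obtain ⟨⟨i, a⟩, rfl⟩ := finProdFinEquiv.surjective k
  have hk' : u (finProdFinEquiv (i, a)) ≠ 0 := hk
  by_cases hm : ∀ j b, u (finProdFinEquiv (i, a)) * u (finProdFinEquiv (j, b)) =
      u (finProdFinEquiv (j, a)) * u (finProdFinEquiv (i, b))
  · have n1 : ∀ u' : Fin (M * N) → ℂ, u' (finProdFinEquiv (i, a)) ≠ 0 →
        (fun j => u' (finProdFinEquiv (j, a))) ≠ 0 ∧ (fun b => u' (finProdFinEquiv (i, b))) ≠ 0 :=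
      fun u' h' => ⟨fun e => h' (congrFun e i), fun e => h' (congrFun e a)⟩
    have hR : ¬ R (proj fun j => u (finProdFinEquiv (j, a)))
        (proj fun b => u (finProdFinEquiv (i, b))) := fun hR => hx ⟨_, _, hR, by
      rw [seg_proj, ← proj_smul hk' u]
      refine congrArg proj (funext fun k => ?_)
      obtain ⟨⟨j, b⟩, rfl⟩ := finProdFinEquiv.surjective k
      rw [tens_apply_XG8]
      exact hm j b⟩
    rw [hV _ _ (n1 u hk').1 (n1 u hk').2] at hR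
    obtain ⟨f, hf, hne⟩ : ∃ f ∈ S, MvPolynomial.eval (Sum.elim (fun j => u (finProdFinEquiv (j, a)))
        fun b => u (finProdFinEquiv (i, b))) f ≠ 0 := by
      by_contra hc
      push Not at hc
      exact hR hc
    have e : ∀ u' : Fin (M * N) → ℂ, ev (MvPolynomial.X (finProdFinEquiv (i, a)) *
        MvPolynomial.rename (Sum.elim (fun j => finProdFinEquiv (j, a))
          fun b => finProdFinEquiv (i, b)) f) u' = u' (finProdFinEquiv (i, a)) *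
        MvPolynomial.eval (Sum.elim (fun j => u' (finProdFinEquiv (j, a)))
          fun b => u' (finProdFinEquiv (i, b))) f := fun u' => by
      rw [ev, map_mul, MvPolynomial.eval_X, MvPolynomial.eval_rename, Sum.comp_elim]
      rfl
    refine ⟨_, by rw [e]; exact mul_ne_zero hk' hne, fun u' hu' hx' => ?_⟩
    rw [e]
    by_cases h1 : u' (finProdFinEquiv (i, a)) = 0
    · rw [h1, zero_mul]
    · obtain ⟨v, w, hv, hw, hR', rfl⟩ := mem_sgr_YD4 h0 hu' hx'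
      rw [(hV _ _ (n1 _ h1).1 (n1 _ h1).2).1 ?_ f hf, mul_zero]
      rw [tens_apply_XG8] at h1
      have e1 : (fun j => tens v w (finProdFinEquiv (j, a))) = w a • v :=
        funext fun j => by rw [tens_apply_XG8, mul_comm]; rfl
      have e2 : (fun b => tens v w (finProdFinEquiv (i, b))) = v i • w :=
        funext fun b => by rw [tens_apply_XG8]; rfl
      rwa [e1, e2, proj_smul (right_ne_zero_of_mul h1), proj_smul (left_ne_zero_of_mul h1)]
  · push Not at hm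
    obtain ⟨j, b, hm⟩ := hm
    refine ⟨MvPolynomial.X (finProdFinEquiv (i, a)) * MvPolynomial.X (finProdFinEquiv (j, b)) -
      MvPolynomial.X (finProdFinEquiv (j, a)) * MvPolynomial.X (finProdFinEquiv (i, b)), ?_,
      fun u' hu' hx' => ?_⟩
    · simpa only [ev, map_sub, map_mul, MvPolynomial.eval_X] using sub_ne_zero.2 hm
    · obtain ⟨v, w, -, -, -, rfl⟩ := mem_sgr_YD4 h0 hu' hx'
      simp only [ev, map_sub, map_mul, MvPolynomial.eval_X, tens_apply_XG8]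
      ring

theorem ar_of_sgr (h0 : ∀ x y, R x y → x ∈ Prj M ∧ y ∈ Prj N) (h : PA (Sgr R)) : AR R := by
  obtain ⟨-, V, hV, h1⟩ := h
  refine ⟨h0, _, hV.preimage fun k => (MvPolynomial.X (Sum.inl (finProdFinEquiv.symm k).1) *
    MvPolynomial.X (Sum.inr (finProdFinEquiv.symm k).2) : MvPolynomial (Fin M ⊕ Fin N) ℂ),
    fun v w hv hw => ?_⟩
  have e : pm (fun k => (MvPolynomial.X (Sum.inl (finProdFinEquiv.symm k).1) *
      MvPolynomial.X (Sum.inr (finProdFinEquiv.symm k).2) : MvPolynomial (Fin M ⊕ Fin N) ℂ))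
      (Sum.elim v w) = tens v w := funext fun k => by
    simp only [pm, map_mul, MvPolynomial.eval_X, Sum.elim_inl, Sum.elim_inr, tens]
  refine Iff.trans ?_ ((h1 _ (tens_ne hv hw)).trans (by rw [← e]; rfl))
  rw [← seg_proj]
  refine ⟨fun hR => ⟨_, _, hR, rfl⟩, ?_⟩
  rintro ⟨x, y, hR, e⟩
  have e1 := congrArg (ptr M N) e
  have e2 := congrArg (ptr2 M N) e
  rw [ptr_seg ⟨v, hv, rfl⟩ ⟨w, hw, rfl⟩, ptr_seg (h0 x y hR).1 (h0 x y hR).2] at e1
  rw [ptr2_seg ⟨v, hv, rfl⟩ ⟨w, hw, rfl⟩, ptr2_seg (h0 x y hR).1 (h0 x y hR).2] at e2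
  rwa [e1, e2]

/-- on `X` the map `f` is locally a selection of coordinates -/
structure Sel_YD4 {κ : Type} (X : Set (Amb M)) (f : Amb M → Amb N) (s : κ → Fin N → Fin M) :
    Prop where
  ex : ∀ u, u ≠ 0 → proj u ∈ X → ∃ a, u ∘ s a ≠ 0
  eq : ∀ u, u ≠ 0 → proj u ∈ X → ∀ a, u ∘ s a ≠ 0 → f (proj u) = proj (u ∘ s a)

theorem Sel_YD4.hp {κ : Type} {s : κ → Fin N → Fin M} (h : Sel_YD4 X f s) : HP X f := by
  intro e K Y ph _ h2 h3 φ z x hp
  obtain ⟨g, hg, h0, he⟩ := h2 φ z x hp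
  have hm : ∀ᶠ y in 𝓝 z, proj (g y) ∈ X := by
    filter_upwards [he, hp.ev] with y a b
    exact (show ph (φ y) = proj (g y) from a) ▸ h3 b.mem
  obtain ⟨a, ha⟩ := h.ex _ h0 hm.self_of_nhds
  have hg' : AnalyticAt ℂ (fun y => g y ∘ s a) z := AnalyticAt.pi fun i => an_app_XE2 hg (s a i)
  refine ⟨_, hg', ha, ?_⟩
  filter_upwards [he, hm, hg.continuousAt.eventually_ne h0, hg'.continuousAt.eventually_ne ha]
    with y a1 a2 a3 a4
  simp only [Function.comp_apply] at a1 ⊢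
  rw [a1, h.eq _ a3 a2 a a4]

theorem Sel_YD4.ag {κ : Type} {s : κ → Fin N → Fin M} (h : Sel_YD4 X f s) (hX : PA X)
    (hc : ContinuousOn f X) : AG X f := by
  have h1 : AR fun (x : Amb M) (y : Amb N) => ∃ u w, u ≠ 0 ∧ w ≠ 0 ∧ proj u = x ∧ proj w = y ∧
      ∀ a i j, u (s a i) * w j = u (s a j) * w i := by
    refine ⟨fun x y ⟨u, w, hu, hw, e1, e2, _⟩ => ⟨⟨u, hu, e1⟩, w, hw, e2⟩, _,
      ⟨range fun q : κ × Fin N × Fin N =>
        MvPolynomial.X (Sum.inl (s q.1 q.2.1)) * MvPolynomial.X (Sum.inr q.2.2) -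
          MvPolynomial.X (Sum.inl (s q.1 q.2.2)) * MvPolynomial.X (Sum.inr q.2.1), rfl⟩,
      fun u w hu hw => ?_⟩
    simp only [mem_ofPred_eq, forall_mem_range, map_sub, map_mul, MvPolynomial.eval_X,
      Sum.elim_inl, Sum.elim_inr, sub_eq_zero, Prod.forall]
    refine ⟨?_, fun h => ⟨u, w, hu, hw, rfl, rfl, h⟩⟩
    rintro ⟨u', w', hu', hw', e1, e2, h⟩ a i j
    obtain ⟨c, -, rfl⟩ := (proj_eq_iff hu' hu).1 e1
    obtain ⟨c', -, rfl⟩ := (proj_eq_iff hw' hw).1 e2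
    simp only [Pi.smul_apply, smul_eq_mul]
    linear_combination c * c' * h a i j
  refine ⟨hc, ((ar_prod hX pa_Prj).and h1).congr fun x y => ⟨?_, ?_⟩⟩
  · rintro ⟨hx, rfl⟩
    obtain ⟨u, hu, rfl⟩ := hX.1 hx
    obtain ⟨a, ha⟩ := h.ex u hu hx
    refine ⟨⟨hx, _, ha, (h.eq u hu hx a ha).symm⟩, u, _, hu, ha, rfl, (h.eq u hu hx a ha).symm,
      fun b i j => ?_⟩
    by_cases hb : u ∘ s b = 0
    · rw [show u (s b i) = 0 from congrFun hb i, show u (s b j) = 0 from congrFun hb j, zero_mul,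
        zero_mul]
    · obtain ⟨c, -, e⟩ := (proj_eq_iff hb ha).1
        ((h.eq u hu hx b hb).symm.trans (h.eq u hu hx a ha))
      rw [e]
      simp only [Pi.smul_apply, smul_eq_mul, Function.comp_apply]
      ring
  · rintro ⟨⟨hx, -⟩, u, w, hu, hw, rfl, rfl, e⟩
    obtain ⟨a, ha⟩ := h.ex u hu hx
    refine ⟨hx, (h.eq u hu hx a ha).trans ((proj_eq_iff ha hw).2 ?_)⟩
    obtain ⟨i, hi⟩ := Function.ne_iff.1 ha
    have hi' : u (s a i) ≠ 0 := hi
    have e' : w = (w i / u (s a i)) • u ∘ s a := funext fun j => by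
      simp only [Pi.smul_apply, smul_eq_mul, Function.comp_apply]
      field_simp
      linear_combination e a i j
    exact ⟨_, fun h0 => hw (by rw [e', h0, zero_smul]), e'⟩

theorem sel_ptr_YD4 (h0 : ∀ x y, R x y → x ∈ Prj M ∧ y ∈ Prj N) :
    Sel_YD4 (Sgr R) (ptr M N) fun a i => finProdFinEquiv (i, a) := by
  have e : ∀ (v : Fin M → ℂ) (w : Fin N → ℂ) a,
      (tens v w ∘ fun i => finProdFinEquiv (i, a)) = w a • v := fun v w a =>
    funext fun j => (tens_apply_XG8 v w j a).trans (mul_comm _ _)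
  refine ⟨fun u hu hx => ?_, fun u hu hx a ha => ?_⟩ <;>
    obtain ⟨v, w, hv, hw, -, rfl⟩ := mem_sgr_YD4 h0 hu hx
  · obtain ⟨a, ha⟩ := Function.ne_iff.1 hw
    exact ⟨a, by rw [e]; exact smul_ne_zero ha hv⟩
  · rw [e] at ha ⊢
    rw [ptr_tens hw, proj_smul (left_ne_zero_of_smul ha)]

theorem sel_ptr2_YD4 (h0 : ∀ x y, R x y → x ∈ Prj M ∧ y ∈ Prj N) :
    Sel_YD4 (Sgr R) (ptr2 M N) fun i a => finProdFinEquiv (i, a) := by
  have e : ∀ (v : Fin M → ℂ) (w : Fin N → ℂ) i,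
      (tens v w ∘ fun a => finProdFinEquiv (i, a)) = v i • w := fun v w i =>
    funext fun a => tens_apply_XG8 v w i a
  refine ⟨fun u hu hx => ?_, fun u hu hx a ha => ?_⟩ <;>
    obtain ⟨v, w, hv, hw, -, rfl⟩ := mem_sgr_YD4 h0 hu hx
  · obtain ⟨a, ha⟩ := Function.ne_iff.1 hv
    exact ⟨a, by rw [e]; exact smul_ne_zero ha hw⟩
  · rw [e] at ha ⊢
    rw [← seg_proj, ptr2_seg ⟨v, hv, rfl⟩ ⟨w, hw, rfl⟩, proj_smul (left_ne_zero_of_smul ha)]

theorem AR.ag_ptr (h : AR R) : AG (Sgr R) (ptr M N) := by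
  exact (sel_ptr_YD4 h.1).ag h.sgr cont_ptr.continuousOn

theorem AR.ag_ptr2 (h : AR R) : AG (Sgr R) (ptr2 M N) := by
  exact (sel_ptr2_YD4 h.1).ag h.sgr cont_ptr2.continuousOn

theorem AR.hp_ptr (h : AR R) : HP (Sgr R) (ptr M N) := by
  exact (sel_ptr_YD4 h.1).hp

theorem AR.hp_ptr2 (h : AR R) : HP (Sgr R) (ptr2 M N) := by
  exact (sel_ptr2_YD4 h.1).hp

theorem hp_id : HP X id := by
  exact fun _ _ _ _ _ h _ => h

theorem HP.mono (h : HP X f) (s : A ⊆ X) : HP A f := by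
  exact fun e K Y ph h1 h2 h3 => h e K Y ph h1 h2 (h3.mono_right s)

theorem HP.congr {f' : Amb M → Amb N} (h : HP X f) (e : EqOn f' f X) : HP X f' := by
  intro e' K Y ph h1 h2 h3 φ z x hp
  obtain ⟨g, hg, h0, he⟩ := h e' K Y ph h1 h2 h3 φ z x hp
  refine ⟨g, hg, h0, ?_⟩
  filter_upwards [he, hp.ev] with y a b
  exact (e (h3 b.mem)).trans a

theorem HP.comp {g : Amb N → Amb K} (hg : HP Y g) (h : HP X f) (m : MapsTo f X Y) :
    HP X (g ∘ f) := by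
  exact fun e K Z ph h1 h2 h3 => hg e _ Z (f ∘ ph) h1 (h e K Z ph h1 h2 h3) (m.comp h3)

theorem HP.hol (h : HP X f) (hX : Mf e X) : HolP e X f := by
  exact h e M X id hX holP_id (mapsTo_id X)

theorem hp_of_hol (hX : Mf e X) (h : HolP e X f) : HP X f := by
  intro e' K Y ph _ h2 h3 φ z x hp
  obtain ⟨g, hg, h0, he⟩ := h2 φ z x hp
  obtain ⟨ψ, w, hq⟩ := hX.chart _ (h3 hp.mem)
  obtain ⟨τ, hτ, hw, e1⟩ := hq.factor hg h0 (by rw [← hp.eq]; exact he.self_of_nhds.symm) (by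
    filter_upwards [he, hp.ev] with y a b
    exact (show ph (φ y) = proj (g y) from a) ▸ h3 b.mem)
  obtain ⟨g', hg', h0', he'⟩ := h ψ w _ hq
  have key := pull_XI4 hg' h0' he' hτ hw (e1.trans he.symm)
  exact ⟨g' ∘ τ, key⟩

theorem pa_of_mf (hX : Mf e X) : PA X := by
  refine pa_of_hom (fun x hx => hX.rep hx) fun v hv hx => ?_
  obtain ⟨P, -, -, h1, h2⟩ := chow1 hX holP_id (fun x hx => subset_closure ⟨hx, by
    obtain ⟨φ, z, hp⟩ := hX.chart x hx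
    exact hp.immP⟩) hv (by rwa [image_id])
  exact ⟨P, h1, fun u hu h => h2 u hu (by rwa [image_id])⟩

theorem ag_of_hol (hX : Mf e X) (h : HolP e X f) : AG X f := by
  have h0 : ∀ x y, x ∈ X ∧ f x = y → x ∈ Prj M ∧ y ∈ Prj N := fun x y a =>
    ⟨hX.rep a.1, a.2 ▸ h.prj hX a.1⟩
  have key : ∀ (φ : E e → Amb M) z x, Pt X φ z x → ∃ g : E e → Fin (M * N) → ℂ,
      AnalyticAt ℂ g z ∧ g z ≠ 0 ∧ (fun x => seg x (f x)) ∘ φ =ᶠ[𝓝 z] proj ∘ g ∧
      ∀ (v : E e) (c : ℂ), fderiv ℂ g z v = c • g z → v = 0 := fun φ z x hp => by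
    obtain ⟨g, hg, n1, he⟩ := h φ z x hp
    obtain ⟨g', rfl, hg', n2, hi⟩ := hp.rep
    refine ⟨fun w => tens (g' w) (g w), an_tens hg' hg, tens_ne n2 n1, ?_, fun v c hv => ?_⟩
    · filter_upwards [he] with y a
      simp only [Function.comp_apply] at a ⊢
      rw [a, seg_proj]
    · obtain ⟨⟨a, ha⟩, -⟩ := imm_tens hg' hg n2 n1 hv
      exact hi v a ha
  have e1 : Sgr (fun x y => x ∈ X ∧ f x = y) = (fun x => seg x (f x)) '' X := by
    ext s
    constructor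
    · rintro ⟨x, _, ⟨hx, rfl⟩, rfl⟩
      exact ⟨x, hx, rfl⟩
    · rintro ⟨x, hx, rfl⟩
      exact ⟨x, _, ⟨hx, rfl⟩, rfl⟩
  refine ⟨h.cont hX, ar_of_sgr h0 (pa_of_hom (sgr_prj_YD4 h0) fun v hv hx => ?_)⟩
  rw [e1] at hx ⊢
  obtain ⟨P, -, -, h1, h2⟩ := chow1 (ph := fun x => seg x (f x)) hX
    (fun φ z x hp => (key φ z x hp).imp fun g a => ⟨a.1, a.2.1, a.2.2.1⟩)
    (fun x hx => subset_closure ⟨hx, by
      obtain ⟨φ, z, hp⟩ := hX.chart x hx
      obtain ⟨g, a⟩ := key φ z x hp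
      exact ⟨φ, z, g, hp, a⟩⟩) hv hx
  exact ⟨P, h1, h2⟩

end Pool.Agent.CS
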