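import Pool.Agent.P.MP_d34769_ag.YC4
import Pool.Agent.P.MP_d34769_ag.YBP
import Pool.Agent.P.MP_d34769_ag.YD4

/-! Manifolds and diagrams whose cohomology is of Tate type. -/

open Set
open Pool.Agent.HT
open Pool.Agent.HIR (Mf HolP Prj)

noncomputable section
namespace Pool.Agent.CS

variable {M N e e' : ℕ} {X : Set (Amb M)} {Y : Set (Amb N)} {f : Amb M → Amb N}

theorem amat_lnv_YC6 (v : Fin N → ℂ) : amat (proj v) = lnv v := by
  rw [amat_proj, lnv, dotProduct_comm]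
  rfl

theorem op_amat {x : Amb N} (h : x ∈ Prj N) : OP 1 (amat x) := by
  obtain ⟨v, hv, rfl⟩ := h
  rw [amat_lnv_YC6]
  exact OP.lnv hv

/-- the pull-back of the tautological line under a map to projective space -/
def prjL {T : Type} [TopologicalSpace T] (g : T → Amb N) (hc : Continuous g)
    (h : ∀ t, g t ∈ Prj N) : Bun T (Fin N) 1 :=
  ⟨fun t => amat (g t), continuous_matrix fun i j => (PiLp.continuous_apply 2 _ (i, j)).comp hc,
    fun t => op_amat (h t)⟩

@[simp] theorem prjL_Q {T : Type} [TopologicalSpace T] (g : T → Amb N) (hc : Continuous g)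
    (h : ∀ t, g t ∈ Prj N) (t : T) : (prjL g hc h).Q t = amat (g t) := rfl

/-- the tautological line of projective space -/
def tautL (N : ℕ) : Bun (Prj N) (Fin N) 1 := prjL Subtype.val continuous_subtype_val fun t => t.2

theorem isPP_taut (N : ℕ) : IsPP 1 (tautL N) := by
  refine ⟨fun _ => Matrix.one_mul _, fun x y e => Subtype.ext (amat_inj e), fun l h _ => ?_⟩
  obtain ⟨v, hv, rfl⟩ := h.exists_lnv
  exact ⟨⟨proj v, v, hv, rfl⟩, amat_lnv_YC6 v⟩

/-- the line of a holomorphic map to projective space -/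
def holL (hX : Mf e X) (h : HolP e X f) : Bun X (Fin N) 1 :=
  prjL (fun t => f t.1) (continuousOn_iff_continuous_restrict.1 (h.cont hX)) fun t => h.prj hX t.2

/-- the classes of hyperplanes -/
def Hyp (hX : Mf e X) : Set (HE X) :=
  {c | ∃ (N : ℕ) (f : Amb M → Amb N) (h : HolP e X f), c = (holL hX h).x}

theorem x_reindex_YC6 {T μ ν : Type} [TopologicalSpace T] [Fintype μ] [Fintype ν] (L : Bun T μ 1)
    (L' : Bun T ν 1) (w : ν ≃ μ) (h : ∀ t, L'.Q t = (L.Q t).submatrix w w) : L'.x = L.x := by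
  classical
  refine L.x_iso L' (A := fun _ => (1 : Matrix μ μ ℂ).submatrix w id) continuous_const fun t e => ?_
  rw [h, Matrix.submatrix_mul_equiv, Matrix.mul_one] at e
  refine (L.op t).ne_zero ?_
  rw [← (L.op t).idem]
  ext i j
  simpa [Matrix.mul_apply] using congrFun (congrFun e (w.symm i)) j

theorem Hyp.add {hX : Mf e X} {a b : HE X} (ha : a ∈ Hyp hX) (hb : b ∈ Hyp hX) :
    a + b ∈ Hyp hX := by
  obtain ⟨N, f, h, rfl⟩ := ha
  obtain ⟨N', f', h', rfl⟩ := hb
  have hF : HolP e X fun x => seg (f x) (f' x) := fun φ z x hp => by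
    obtain ⟨g, hg, n, he⟩ := h φ z x hp
    obtain ⟨g', hg', n', he'⟩ := h' φ z x hp
    refine ⟨fun w => HIR.tens (g w) (g' w), HIR.an_tens hg hg', HIR.tens_ne n n', ?_⟩
    filter_upwards [he, he'] with y a a'
    simp only [Function.comp_apply] at a a' ⊢
    rw [a, a', seg_proj]
  refine ⟨_, _, hF, ?_⟩
  rw [← Bun.x_tens]
  exact (x_reindex_YC6 _ _ finProdFinEquiv.symm fun t => rfl).symm

theorem coef_mem_YC6 {R : Type} [AddCommGroup R] [Module ℂ R] (V : Submodule ℂ R) (n : ℕ)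
    (c : ℕ → R) (h : ∀ t : ℕ, ∑ i ∈ Finset.range n, (t : ℂ) ^ i • c i ∈ V) {i : ℕ} (hi : i < n) :
    c i ∈ V := by
  refine (Subspace.forall_mem_dualAnnihilator_apply_eq_zero_iff V _).1 fun φ hφ => ?_
  have h1 : ∑ j ∈ Finset.range n, Polynomial.monomial j (φ (c j)) = 0 := by
    refine Polynomial.eq_zero_of_infinite_isRoot _ (Set.infinite_of_injective_forall_mem
      (Nat.cast_injective (R := ℂ)) fun t => ?_)
    have := (Submodule.mem_dualAnnihilator φ).1 hφ _ (h t)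
    simpa [Polynomial.eval_finsetSum, mul_comm] using this
  have h2 := congrArg (Polynomial.coeff · i) h1
  simpa [Polynomial.coeff_monomial, hi] using h2

/-- POL -/
theorem pol {R : Type} [CommRing R] [Algebra ℂ R] {s : Set R} (h : ∀ a ∈ s, ∀ b ∈ s, a + b ∈ s)
    (k : ℕ) : Submodule.span ℂ s ^ (k + 1) ≤ Submodule.span ℂ ((· ^ (k + 1)) '' s) := by
  obtain ⟨V, hV⟩ : ∃ V, V = Submodule.span ℂ ((· ^ (k + 1)) '' s) := ⟨_, rfl⟩
  have h0 : ∀ a ∈ s, ∀ g ∈ s, ∀ t : ℕ, (t : ℂ) • g + a ∈ s := fun a ha g hg t => by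
    induction t with
    | zero => simpa using ha
    | succ t ih =>
      rw [Nat.cast_succ, add_smul, one_smul, add_right_comm]
      exact h _ ih _ hg
  have h1 : ∀ (c : R) (j : ℕ), (∀ g ∈ s, ∀ m ∈ Submodule.span ℂ s ^ j, c * (g * m) ∈ V) →
      ∀ m ∈ Submodule.span ℂ s ^ (j + 1), c * m ∈ V := fun c j e => by
    rw [pow_succ']
    refine (Submodule.mul_le (P := V.comap (LinearMap.mulLeft ℂ c))).2 fun g hg m hm => ?_
    exact (Submodule.span_le (p := V.comap (LinearMap.mulLeft ℂ c ∘ₗ LinearMap.mulRight ℂ m))).2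
      (fun g hg => e g hg m hm) hg
  have key : ∀ j n, n + j = k + 1 → ∀ a ∈ s, ∀ m ∈ Submodule.span ℂ s ^ j, a ^ n * m ∈ V := by
    intro j
    induction j with
    | zero =>
      rintro n rfl a ha m hm
      obtain ⟨r, rfl⟩ := Submodule.mem_one.1 (by rwa [pow_zero] at hm)
      rw [mul_comm, ← Algebra.smul_def, hV]
      exact Submodule.smul_mem _ _ (Submodule.subset_span ⟨a, ha, rfl⟩)
    | succ j ih =>
      refine fun n hn a ha => h1 _ j fun g hg m hm => ?_
      have h2 := coef_mem_YC6 V (n + 1 + 1)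
        (fun i => g ^ i * a ^ (n + 1 - i) * ((n + 1).choose i : R) * m) (fun t => by
          have := ih (n + 1) (by omega) _ (h0 a ha g hg t) m hm
          rw [add_pow, Finset.sum_mul] at this
          simpa only [smul_pow, smul_mul_assoc] using this) (i := 1) (by omega)
      have h3 := V.smul_mem ((n + 1 : ℕ) : ℂ)⁻¹ h2
      rw [show g ^ 1 * a ^ (n + 1 - 1) * ((n + 1).choose 1 : R) * m =
        ((n + 1 : ℕ) : ℂ) • (a ^ n * (g * m)) by
          rw [Nat.choose_one_right, Nat.add_sub_cancel, Nat.cast_smul_eq_nsmul, nsmul_eq_mul]; ring,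
        inv_smul_smul₀ (Nat.cast_ne_zero.2 n.succ_ne_zero)] at h3
      exact h3
  intro m hm
  have := h1 1 k (fun g hg m hm => by simpa using key k 1 (by omega) g hg m hm) m hm
  rwa [one_mul, hV] at this

section mhs
variable {H : Type} [AddCommGroup H] [Module ℂ H] {a : ℕ}

theorem top_of_le1_YC6 (S : MHS H (2 * a)) (hW : S.W 1 = ⊥) {v : H} (hv : ∀ x, ∃ t : ℂ, x = t • v)
    (h : ∀ b, S.F b = ⊤ ↔ S.Fb b = ⊤) : S.F a = ⊤ := by
  by_cases h1 : S.Fb (a + 1) = ⊤
  · exact top_unique (((h _).2 h1).ge.trans (S.aF a.le_succ))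
  have h2 : S.Fb (a + 1) = ⊥ := (Submodule.eq_bot_iff _).2 fun x hx => by_contra fun h0 => h1 <|
    eq_top_iff.2 fun y _ => by
      obtain ⟨t, rfl⟩ := hv x
      obtain ⟨u, rfl⟩ := hv y
      have := Submodule.smul_mem _ (u * t⁻¹) hx
      rwa [smul_smul, inv_mul_cancel_right₀ (left_ne_zero_of_smul h0)] at this
  simpa [hW, h2, S.W0] using S.span 0 a (a + 1) (by omega)

theorem tate_of_top_YC6 (S : MHS H (2 * a)) (hW : S.W 1 = ⊥) (h : S.F a = ⊤) (h' : S.Fb a = ⊤) :
    S.Tate := fun c b hb => by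
  rcases Nat.eq_zero_or_pos c with rfl | hc
  · exact ⟨fun x hx => S.disj 0 b a (by omega) x hx x ⟨hx.1, h' ▸ trivial⟩ (by simp),
      fun x hx => S.disj 0 a b (by omega) x ⟨hx.1, h ▸ trivial⟩ x hx (by simp)⟩
  · have : S.W c ≤ S.W (c + 1) := (S.aW hc).trans (hW.le.trans bot_le)
    exact ⟨inf_le_left.trans this, inf_le_left.trans this⟩

end mhs

theorem hr_hm_YC6 {A B : Type} [TopologicalSpace A] [CompactSpace A] [T2Space A]
    [TopologicalSpace B] [CompactSpace B] [T2Space B] (g : C(A, B)) (n : ℤ) (y : (CC B).H n) :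
    (hrEquiv A n ((AS.pull_mor g.continuous (mapsTo_univ _ _) (mapsTo_empty _ _)).hm (add_zero n)
      y)).1 = HR.pull g (hrEquiv B n y).1 := by
  obtain ⟨x, rfl⟩ := Cx.cls_surj n y
  exact (pull_cl g (Z_Zc x.2)).symm

theorem prj_top_YC6 [CompactSpace (Prj (N + 1))] (a : ℕ) :
    (mfMHS (HIR.mf_Prj N) (2 * a)).F a = ⊤ := by
  refine top_of_le1_YC6 _ (mfMHS_W _ _)
    (v := (hrEquiv _ _).symm ⟨_, (tautL (N + 1)).x_pow_mem a⟩) (fun x => ?_) (mfMHS_top _ _)
  obtain ⟨c, rfl⟩ := (hrEquiv _ _).symm.surjective x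
  rcases (isPP_taut (N + 1)).hr_le _ (op_one _) _ c.1 c.2 with h | ⟨j, -, e, t, h⟩
  · exact ⟨0, by rw [show c = 0 from Subtype.ext h, map_zero, zero_smul]⟩
  · obtain rfl : a = j := by omega
    exact ⟨t, by rw [← map_smul]; exact congrArg _ (Subtype.ext h)⟩

variable [CompactSpace X] [CompactSpace Y]

/-- all classes are of type (a, a) -/
def TateM (h : Mf e X) : Prop := ∀ n, (mfMHS h n).Tate

/-- classes of type (a, a) -/
def gd_YC6 (hX : Mf e X) (a : ℕ) : Submodule ℂ (HE X) :=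
  (((mfMHS hX (2 * a)).F a ⊓ (mfMHS hX (2 * a)).Fb a).map
    ((hr X _).subtype ∘ₗ (hrEquiv X _).toLinearMap)).comap (HE X).val.toLinearMap

theorem hyp_gd_YC6 {hX : Mf e X} {c : HE X} (hc : c ∈ Hyp hX) (a : ℕ) : c ^ a ∈ gd_YC6 hX a := by
  obtain ⟨N, f, h, rfl⟩ := hc
  cases N with
  | zero =>
    have : IsEmpty X := ⟨fun x => by
      obtain ⟨v, hv, -⟩ := h.prj hX x.2
      exact hv (Subsingleton.elim _ _)⟩
    have := HR.subsingleton (X := X)
    exact ⟨0, zero_mem _, Subsingleton.elim _ _⟩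
  | succ N =>
    have := mf_cpt (HIR.mf_Prj N)
    have h1 := mfMHS_mor hX (HIR.mf_Prj N) h (h.prj hX) (2 * a)
    have h2 := prj_top_YC6 (N := N) a
    have h3 := (mfMHS_top _ _ _).1 h2
    refine ⟨_, ⟨h1.F a ((hrEquiv _ _).symm ⟨_, (tautL (N + 1)).x_pow_mem a⟩) (h2 ▸ trivial),
      h1.Fb a _ (h3 ▸ trivial)⟩, (hr_hm_YC6 _ _ _).trans ?_⟩
    rw [LinearEquiv.apply_symm_apply, ← HE.pull_val, map_pow, Bun.pull_x]
    rfl

/-- the cohomology is generated by classes of hyperplanes -/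
theorem tateM_of_ev (hX : Mf e X) {σ : Type} (x : σ → HE X)
    (hx : ∀ i, x i ∈ Submodule.span ℂ (Hyp hX)) (h : Function.Surjective (ev x)) : TateM hX := by
  intro n
  rcases Nat.even_or_odd' n with ⟨a, rfl | rfl⟩
  · suffices h1 : (mfMHS hX (2 * a)).F a ⊓ (mfMHS hX (2 * a)).Fb a = ⊤ from
      tate_of_top_YC6 _ (mfMHS_W _ _) (inf_eq_top_iff.1 h1).1 (inf_eq_top_iff.1 h1).2
    cases a with
    | zero => rw [MHS.F0, MHS.Fb0, inf_idem]
    | succ a =>
      refine eq_top_iff.2 fun y _ => ?_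
      obtain ⟨φ, hφ⟩ := h (hrEquiv X _ y).1
      have h2 : ∀ i, (x i).1 ∈ hr X 2 := fun i =>
        (Submodule.span_le (p := (hr X 2).comap (HE X).val.toLinearMap)).2
          (by rintro _ ⟨N, f, h, rfl⟩; exact Bun.x_mem _) (hx i)
      have h3 := hp_ev h2 φ (a + 1)
      rw [hφ, mem_hr_nat.1 (hrEquiv X _ y).2] at h3
      have h4 : MvPolynomial.aeval x (MvPolynomial.homogeneousComponent (a + 1) φ) ∈
          Submodule.span ℂ (Hyp hX) ^ (a + 1) := by
        refine pow_le_pow_left' (a := (MvPolynomial.homogeneousSubmodule σ ℂ 1).map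
          (MvPolynomial.aeval x).toLinearMap) ?_ _ ?_
        · rw [MvPolynomial.homogeneousSubmodule_one_eq_span_X, Submodule.map_span,
            Submodule.span_le]
          rintro _ ⟨_, ⟨i, rfl⟩, rfl⟩
          simpa using hx i
        · rw [← Submodule.map_pow, MvPolynomial.homogeneousSubmodule_one_pow]
          exact ⟨_, MvPolynomial.homogeneousComponent_isHomogeneous _ φ, rfl⟩
      obtain ⟨z, hz, e⟩ := (Submodule.span_le (p := gd_YC6 hX (a + 1))).2
        (by rintro _ ⟨c, hc, rfl⟩; exact hyp_gd_YC6 hc _)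
        (pol (fun _ ha _ hb => Hyp.add ha hb) a h4)
      rwa [← (hrEquiv X _).injective (Subtype.ext (e.trans h3.symm))]
  · have h1 : ∀ y : (CC X).H (2 * a + 1 : ℕ), y = 0 := fun y => by
      obtain ⟨φ, hφ⟩ := h (hrEquiv X _ y).1
      have h2 := ev_mem_HE x φ (2 * a + 1) ⟨a, rfl⟩
      rw [hφ, mem_hr_nat.1 (hrEquiv X _ y).2] at h2
      exact (hrEquiv X _).map_eq_zero_iff.1 (Subtype.ext h2)
    exact fun c b _ => ⟨fun y _ => h1 y ▸ zero_mem _, fun y _ => h1 y ▸ zero_mem _⟩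

theorem TateM.of_inj {hX : Mf e X} (t : TateM hX) (hY : Mf e' Y) (h : HolP e X f)
    (m : MapsTo f X Y) (hi : Function.Injective (HR.pull (rmap (h.cont hX) m))) : TateM hY :=
  fun n => ((mfMHS_mor hX hY h m n).good ((Cx.Mor.inj_iff _ _).1 ((inj_pl_iff _ _).2 fun c _ =>
    (injective_iff_map_eq_zero _).1 hi c))).tate (t n)

end Pool.Agent.CS
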