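import Pool.Agent.P.MP_d34769_ag.YC6

/-! A diagram of manifolds of Tate type has cohomology of Tate type. -/

open Set
open Pool.Agent.HT

noncomputable section
namespace Pool.Agent.CS

section sys
variable {S : Sh} {V : S.ι → Type} [∀ i, AddCommGroup (V i)] [∀ i, Module ℂ (V i)] (Y : Sys S V)
  {g : ∀ i, Module.End ℂ (V i)}

theorem Sys.δ_zero {x : ∀ i, V i} {i : S.ι} (h : ∀ k, S.deg k < S.deg i → x k = 0) :
    Y.bg.δ x i = 0 := by
  rw [Sys.bg_δ, mat_eq_zero fun k r e => by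
    rw [h k (by have := (S.sup i k e).2; omega), map_zero], map_zero]

variable (h : ∀ i, HG (Y.A i) (g i))
  (hp : ∀ {i j} (r : S.rel i j) x, Y.pl r (g j x) = g i (Y.pl r x))
  {C : Cx (∀ i, V i)} (hC : IsKC (Y.kd h @hp) C) {D : ∀ i, Cx (V i)}
  (hD : ∀ i, IsKC (h i).kd (D i))

include hC hD in
theorem Sys.lead_YC6b {c j : ℕ} {x : C.Z j} (hx : x.1 ∈ Y.bg.Col c)
    (he : ∀ i (n : ℕ) (y : (D i).Z n), c + n = j → y.1 = x.1 i → (D i).cls n y = 0) :
    C.cls j x ∈ (hC.mhs j).W (c + 1) := by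
  classical
  have hz := hC.mem_Z.1 x.2
  rw [Sys.mem_Col] at hx
  have key : ∀ i, ∃ z, (S.deg i = c → x.1 i = (Y.A i).d z) ∧ (S.deg i ≠ c → z = 0) := fun i => by
    by_cases e : S.deg i = c
    swap
    · exact ⟨0, fun e' => absurd e' e, fun _ => rfl⟩
    have h0 : ∀ q, c + q ≠ j → (Y.A i).e q (x.1 i) = 0 := fun q hq => by
      have h1 : Y.bg.e c q x.1 i = 0 := congrFun ((BG.mem_Deg _).1 hz.1 c q hq) i
      rwa [Sys.bg_e, if_pos e] at h1
    rcases lt_or_ge j c with hj | hj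
    · exact ⟨0, fun _ => by rw [map_zero]; exact (Y.A i).ext _ fun q => h0 q (by omega),
        fun _ => rfl⟩
    obtain ⟨n, rfl⟩ := Nat.exists_eq_add_of_le hj
    have h1 : x.1 i ∈ (h i).kd.Deg n := (BG.mem_Deg _).2 fun p q hq => by
      cases p with
      | zero => exact h0 q (by omega)
      | succ p => rfl
    have h2 : (h i).kd.D (x.1 i) = 0 := by
      have h3 : (Y.A i).d (x.1 i) + Y.bg.δ x.1 i = 0 := congrFun hz.2 i
      rw [Y.δ_zero fun k hk => hx k (by omega)] at h3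
      exact h3
    obtain ⟨z, hz'⟩ := ((hD i).mem_B h1).1
      (Cx.cls_eq_zero.1 (he i n ⟨_, (hD i).mem_Z.2 ⟨h1, h2⟩⟩ rfl rfl))
    exact ⟨z, fun _ => hz'.trans (add_zero _), fun e' => absurd e e'⟩
  choose z h1 h2 using key
  refine hC.mem_imC.2 ⟨z, Sys.mem_Col.2 fun i hi => ?_⟩
  change x.1 i - ((Y.A i).d (z i) + Y.bg.δ z i) = 0
  rw [Y.δ_zero fun k hk => h2 k (by omega), add_zero, sub_eq_zero]
  by_cases e : S.deg i = c
  · exact h1 i e
  · rw [h2 i e, map_zero, hx i (by omega)]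

include hD in
theorem Sys.tate (t : ∀ i n, ((hD i).mhs n).Tate) (j : ℕ) : (hC.mhs j).Tate := by
  have k : ∀ i n, ((hD i).mhs n).W (0 + 1) = ⊥ := fun i n => by
    change (D i).im n ((h i).kd.Col 1) = ⊥
    rw [(h i).col_one, eq_bot_iff]
    rintro _ ⟨y, hy, rfl⟩
    rw [show y = 0 from Subtype.ext hy, map_zero]
    exact zero_mem _
  refine fun c b hb => ⟨fun a ha => ?_, fun a ha => ?_⟩
  · obtain ⟨x, hx, rfl⟩ := hC.rep_F ha
    refine Y.lead_YC6b h hp hC hD hx.1 fun i n y e e' => ?_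
    have h1 := (t i n 0 b (by omega)).1 (x := (D i).cls n y) ⟨by rw [MHS.W0]; trivial,
      ⟨y, show y.1 ∈ _ from e' ▸ (Y.mem_kd_F h hp).1 hx.2 i, rfl⟩⟩
    rwa [k] at h1
  · obtain ⟨x, hx, rfl⟩ := hC.rep_Fb ha
    refine Y.lead_YC6b h hp hC hD hx.1 fun i n y e e' => ?_
    have h1 := (t i n 0 b (by omega)).2 (x := (D i).cls n y) ⟨by rw [MHS.W0]; trivial,
      ⟨y, show y.1 ∈ _ from e' ▸ (Y.mem_kd_Fb h hp).1 hx.2 i, rfl⟩⟩
    rwa [k] at h1

end sys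

theorem MHS.tate_map {H H' : Type} [AddCommGroup H] [Module ℂ H] [AddCommGroup H'] [Module ℂ H']
    {j : ℕ} (M : MHS H j) (e : H ≃ₗ[ℂ] H') : (M.map e).Tate ↔ M.Tate :=
  ⟨((M.mor_map e).good e.injective).tate, ((M.map_mor e).good e.symm.injective).tate⟩

theorem SDg.tate {S : Sh} (P : SDg S) (h : ∀ i, TateM (P.mf i)) (j : ℕ) : (P.mhs j).Tate :=
  (MHS.tate_map _ _).2 (P.om.tate _ _ P.isKC (fun i => om_isKC (P.mf i))
    (fun i n => (MHS.tate_map _ _).1 (h i n)) j)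

end Pool.Agent.CS
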