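import Pool.Agent.P.MP_65ad7c_ag.XI1
import Pool.Agent.P.MP_65ad7c_ag.XG8

/-! Projective algebraic sets, relations, maps and modifications (not in any statement). -/

open Set Filter Topology
open Pool.Agent.HT (Amb proj)
open Pool.Agent.PWV (ZC ZI Dim)
open Pool.Agent.HIR (Prj Mf HolP tens ptr)

noncomputable section
namespace Pool.Agent.CS

variable {M N K : ℕ}

/-- The cone over a subset of projective space. -/
def cn (X : Set (Amb M)) : Set (Fin M → ℂ) := {v | v ≠ 0 ∧ proj v ∈ X}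

/-- Projective algebraic sets. -/
def PA (X : Set (Amb M)) : Prop :=
  X ⊆ Prj M ∧ ∃ V, ZC V ∧ ∀ v, v ≠ 0 → (proj v ∈ X ↔ v ∈ V)

/-- Dimension less than `k`. -/
def Dm (X : Set (Amb M)) (k : ℕ) : Prop := Dim (cn X) (k + 1)

/-- Irreducible projective algebraic sets. -/
structure Irr (X : Set (Amb M)) : Prop where
  pa : PA X
  ne : X.Nonempty
  irr : ∀ A B, PA A → PA B → X ⊆ A ∪ B → X ⊆ A ∨ X ⊆ B

/-- Algebraic relations. -/
def AR (R : Amb M → Amb N → Prop) : Prop :=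
  (∀ x y, R x y → x ∈ Prj M ∧ y ∈ Prj N) ∧ ∃ V : Set (Fin M ⊕ Fin N → ℂ), ZC V ∧
    ∀ v w, v ≠ 0 → w ≠ 0 → (R (proj v) (proj w) ↔ Sum.elim v w ∈ V)

/-- Continuous maps with an algebraic graph. -/
structure AG (X : Set (Amb M)) (f : Amb M → Amb N) : Prop where
  cont : ContinuousOn f X
  ar : AR fun x y => x ∈ X ∧ f x = y

/-- `g` preserves holomorphic maps into `A`. -/
def HP (A : Set (Amb M)) (g : Amb M → Amb N) : Prop :=
  ∀ (e K : ℕ) (Y : Set (Amb K)) (ph : Amb K → Amb M), Mf e Y → HolP e Y ph → MapsTo ph Y A →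
    HolP e Y (g ∘ ph)

/-- Modifications. -/
structure Mod (A' : Set (Amb M)) (A : Set (Amb N)) (π : Amb M → Amb N) : Prop where
  irr' : Irr A'
  irr : Irr A
  ag : AG A' π
  hp : HP A' π
  im : π '' A' = A
  inj : ∃ S, PA S ∧ ¬ A ⊆ S ∧ InjOn π (A' \ π ⁻¹' S)

/-- The Segre map. -/
def seg (x : Amb M) (y : Amb N) : Amb (M * N) :=
  WithLp.toLp 2 fun p => x ((finProdFinEquiv.symm p.1).1, (finProdFinEquiv.symm p.2).1) *
    y ((finProdFinEquiv.symm p.1).2, (finProdFinEquiv.symm p.2).2)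

/-- The second partial trace. -/
def ptr2 (M N : ℕ) (x : Amb (M * N)) : Amb N :=
  WithLp.toLp 2 fun p => ∑ i, x (finProdFinEquiv (i, p.1), finProdFinEquiv (i, p.2))

/-- The image of a relation under the Segre map. -/
def Sgr (R : Amb M → Amb N → Prop) : Set (Amb (M * N)) := {s | ∃ x y, R x y ∧ s = seg x y}

/-- Diagrams of projective algebraic sets. -/
structure Dia (ι : Type) [Preorder ι] where
  M : ι → ℕ
  X : ∀ i, Set (Amb (M i))
  f : ∀ i j, Amb (M i) → Amb (M j)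
  ag : ∀ i j, i ≤ j → AG (X i) (f i j)
  maps : ∀ i j, i ≤ j → MapsTo (f i j) (X i) (X j)
  id : ∀ i, ∀ x ∈ X i, f i i x = x
  comp : ∀ i j k, i ≤ j → j ≤ k → ∀ x ∈ X i, f j k (f i j x) = f i k x

end Pool.Agent.CS
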