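import Pool.Agent.P.MP_d34769_ag.YD0
import Pool.Agent.P.MP_65ad7c_ag.VPrime
import Pool.Agent.P.MP_65ad7c_ag.VRat
import Pool.Agent.P.MP_65ad7c_ag.LDenC

/-! Images of affine algebraic sets. -/

open Set Filter Topology
open Pool.Agent.HT (Amb proj cj)
open Pool.Agent.PWV (ZC ZI Dim zcl pm)
open Pool.Agent.HIR

noncomputable section
namespace Pool.Agent.CS

open MvPolynomial

variable {σ τ : Type} [Finite σ] [Finite τ] {p : Ideal (MvPolynomial σ ℂ)}
  {h δ : MvPolynomial σ ℂ} {V : Set (σ → ℂ)}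

theorem yd1_nz (hp : p.IsPrime) (hh : h ∉ p) : ∃ x ∈ ZI p, eval x h ≠ 0 := by
  by_contra hc
  push Not at hc
  exact hh (PWV.null hp hc)

omit [Finite σ] [Finite τ] in
theorem yd1_pm (G : τ → MvPolynomial σ ℂ) (x : σ → ℂ) (f : MvPolynomial τ ℂ) :
    eval (pm G x) f = eval x (aeval G f) := (PWV.vdim_subst x G f).symm

theorem chev (hp : p.IsPrime) (hh : h ∉ p) (G : τ → MvPolynomial σ ℂ) :
    ∃ δ ∉ p.comap (aeval G : MvPolynomial τ ℂ →ₐ[ℂ] _).toRingHom,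
      ∀ y ∈ ZI (p.comap (aeval G : MvPolynomial τ ℂ →ₐ[ℂ] _).toRingHom), eval y δ ≠ 0 →
        ∃ x ∈ ZI p, eval x h ≠ 0 ∧ pm G x = y := by
  set φ := (aeval G : MvPolynomial τ ℂ →ₐ[ℂ] MvPolynomial σ ℂ).toRingHom with hφ
  have h1 : φ.FinitePresentation := by
    refine RingHom.FinitePresentation.of_finiteType.1
      (RingHom.FiniteType.of_comp_finiteType (f := algebraMap ℂ _) ?_)
    have e : φ.comp (algebraMap ℂ _) = algebraMap ℂ _ := RingHom.ext fun c => by simp [hφ]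
    rw [e]
    exact RingHom.finiteType_algebraMap.2 inferInstance
  obtain ⟨n, g, hg⟩ := Submodule.fg_iff_exists_fin_generating_family.1
    (IsNoetherian.noetherian p)
  have hm : ∀ P : PrimeSpectrum (MvPolynomial σ ℂ),
      P ∈ PrimeSpectrum.ConstructibleSetData.toSet {⟨h, n, g⟩} ↔ p ≤ P.asIdeal ∧ h ∉ P.asIdeal := by
    intro P
    simp only [PrimeSpectrum.ConstructibleSetData.toSet, Finset.mem_singleton,
      PrimeSpectrum.BasicConstructibleSetData.toSet, iUnion_iUnion_eq_left, Set.mem_sdiff,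
      PrimeSpectrum.mem_zeroLocus, singleton_subset_iff, SetLike.mem_coe]
    rw [← hg, Submodule.span_le]
  obtain ⟨T, hT⟩ := PrimeSpectrum.exists_constructibleSetData_iff.2
    (PrimeSpectrum.isConstructible_comap_image h1
      (PrimeSpectrum.ConstructibleSetData.isConstructible_toSet {⟨h, n, g⟩}))
  have h2 : PrimeSpectrum.comap φ ⟨p, hp⟩ ∈ T.toSet := hT ▸ ⟨_, (hm _).2 ⟨le_rfl, hh⟩, rfl⟩
  obtain ⟨B, hC, h3, h4⟩ := mem_iUnion₂.1 h2
  refine ⟨B.f, fun k => h4 (singleton_subset_iff.2 k), fun y hy hδ => ?_⟩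
  have h5 : (⟨RingHom.ker (eval y), RingHom.ker_isPrime _⟩ : PrimeSpectrum _) ∈ T.toSet :=
    mem_iUnion₂.2 ⟨B, hC, fun f hf => hy f (h3 hf), fun k => hδ (k (mem_singleton _))⟩
  rw [hT] at h5
  obtain ⟨P, hP, e⟩ := h5
  obtain ⟨x, hx, hx'⟩ := yd1_nz P.2 ((hm P).1 hP).2
  refine ⟨x, fun f hf => hx f (((hm P).1 hP).1 hf), hx', _root_.funext fun i => ?_⟩
  have h6 : X i - C (y i) ∈ (PrimeSpectrum.comap φ P).asIdeal := by
    rw [e]
    simp [RingHom.mem_ker]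
  have h7 := hx _ h6
  simpa [hφ, pm, sub_eq_zero] using h7

theorem dens (hp : p.IsPrime) (hδ : δ ∉ p) : ZI p ⊆ closure (ZI p ∩ {x | eval x δ ≠ 0}) := by
  intro x hx
  let φ : (MvPolynomial σ ℂ ⧸ p) →ₐ[ℂ] ℂ := Ideal.Quotient.liftₐ p (aeval x) fun f hf => hx f hf
  obtain ⟨U, ψ, h1, h2⟩ := PW.L.dens_red _ (Ideal.Quotient.mk p δ) φ fun o ho => by
    rw [(mul_eq_zero.1 ho).resolve_right (mt Ideal.Quotient.eq_zero_iff_mem.1 hδ), map_zero]
  have e : ∀ k f, eval (fun i => ψ k (Ideal.Quotient.mk p (X i))) f =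
      ψ k (Ideal.Quotient.mk p f) := fun k f =>
    DFunLike.congr_fun (algHom_ext (f := aeval fun i => ψ k (Ideal.Quotient.mk p (X i)))
      (g := (ψ k).comp (Ideal.Quotient.mkₐ ℂ p)) fun i => by simp) f
  refine mem_closure_of_tendsto (f := fun k i => ψ k (Ideal.Quotient.mk p (X i))) (b := U)
    (tendsto_pi_nhds.2 fun i => ?_) (Eventually.of_forall fun k => ⟨fun f hf => ?_, ?_⟩)
  · have h3 := h2 (Ideal.Quotient.mk p (X i))
    rwa [show φ (Ideal.Quotient.mk p (X i)) = x i from aeval_X x i] at h3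
  · rw [e, Ideal.Quotient.eq_zero_iff_mem.2 hf, map_zero]
  · exact (e k δ).trans_ne (h1 k)

theorem img_zc (hV : ZC V) (h : MvPolynomial σ ℂ) (G : τ → MvPolynomial σ ℂ) :
    ZC (closure (pm G '' (V ∩ {x | eval x h ≠ 0}))) := by
  obtain ⟨s, hs, h1, -, rfl⟩ := hV.exists_primes
  have hz : ZC (⋃ p ∈ {p ∈ s | h ∉ p},
      ZI (p.comap (aeval G : MvPolynomial τ ℂ →ₐ[ℂ] _).toRingHom)) :=
    PWV.zc_biUnion (hs.subset (sep_subset _ _)) fun _ _ => PWV.zc_ZI _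
  refine (Subset.antisymm (closure_minimal ?_ hz.isClosed) ?_).symm ▸ hz
  · rintro _ ⟨x, ⟨hx, hx'⟩, rfl⟩
    obtain ⟨p, hp, hxp⟩ := mem_iUnion₂.1 hx
    exact mem_iUnion₂.2 ⟨p, ⟨hp, fun k => hx' (hxp _ k)⟩, fun f hf =>
      (yd1_pm G x f).trans (hxp _ hf)⟩
  · refine iUnion₂_subset fun p hp => ?_
    obtain ⟨δ, hδ, h2⟩ := chev (h1 p hp.1) hp.2 G
    have := h1 p hp.1
    refine (dens (Ideal.comap_isPrime _ _) hδ).trans (closure_mono fun y hy => ?_)
    obtain ⟨x, hx, hx', e⟩ := h2 y hy.1 hy.2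
    exact ⟨x, ⟨mem_iUnion₂.2 ⟨p, hp.1, hx⟩, hx'⟩, e⟩

theorem alg_of_inj (hp : p.IsPrime) (hh : h ∉ p) (G : τ → MvPolynomial σ ℂ)
    (hi : InjOn (pm G) (ZI p ∩ {x | eval x h ≠ 0})) :
    Algebra.IsAlgebraic ((Ideal.Quotient.mkₐ ℂ p).comp (aeval G)).range
      (MvPolynomial σ ℂ ⧸ p) := by
  set φ := (Ideal.Quotient.mkₐ ℂ p).comp (aeval G : MvPolynomial τ ℂ →ₐ[ℂ] _) with hφ
  refine ⟨fun a => ?_⟩
  obtain ⟨a, rfl⟩ := Ideal.Quotient.mk_surjective a
  by_contra ht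
  obtain ⟨δ, hδ, h1⟩ := chev hp hh fun o : Option τ => o.elim a G
  obtain ⟨y, hy, hy'⟩ := yd1_nz (Ideal.comap_isPrime _ _) hδ
  have e1 : ∀ f : MvPolynomial (Option τ) ℂ, Polynomial.aeval (Ideal.Quotient.mk p a)
      ((optionEquivLeft ℂ τ f).map φ.rangeRestrict.toRingHom) =
      Ideal.Quotient.mk p (aeval (fun o : Option τ => o.elim a G) f) := by
    intro f
    induction f using MvPolynomial.induction_on with
    | C c => simp [optionEquivLeft_C]; rfl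
    | add f g hf hg => simp only [map_add, Polynomial.map_add, hf, hg]
    | mul_X f o hf =>
      simp only [map_mul, Polynomial.map_mul, hf]
      cases o with
      | none => simp [optionEquivLeft_X_none]
      | some i => simp [optionEquivLeft_X_some, hφ]
  have e2 : ∀ t : ℂ, (fun o : Option τ => o.elim t fun i => y (some i)) ∈ ZI (p.comap (aeval
      (fun o : Option τ => o.elim a G) : MvPolynomial (Option τ) ℂ →ₐ[ℂ] _).toRingHom) := by
    intro t f hf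
    have h2 : (optionEquivLeft ℂ τ f).map φ.rangeRestrict.toRingHom = 0 := by
      by_contra h0
      exact ht ⟨_, h0, (e1 f).trans (Ideal.Quotient.eq_zero_iff_mem.2 hf)⟩
    have h3 : (optionEquivLeft ℂ τ f).map (eval fun i => y (some i)) = 0 := by
      ext k
      have h4 : φ ((optionEquivLeft ℂ τ f).coeff k) = 0 := by
        have h5 := congrArg (fun q => (Polynomial.coeff q k).1) h2
        simpa using h5
      have h5 := hy (rename some ((optionEquivLeft ℂ τ f).coeff k)) (by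
        change aeval _ (rename some _) ∈ p
        rw [aeval_rename]
        exact Ideal.Quotient.eq_zero_iff_mem.1 h4)
      rw [eval_rename] at h5
      rw [Polynomial.coeff_map, Polynomial.coeff_zero]
      exact h5
    rw [optionEquivLeft_elim_eval, h3, Polynomial.eval_zero]
  have e3 : (optionEquivLeft ℂ τ δ).map (eval fun i => y (some i)) ≠ 0 := fun k => hy' (by
    have h2 := optionEquivLeft_elim_eval ℂ τ (fun i => y (some i)) (y none) δ
    rw [k, Polynomial.eval_zero] at h2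
    rw [← h2]
    exact congrArg (fun u => eval u δ) (_root_.funext fun o => by cases o <;> rfl))
  obtain ⟨t, ht1, t', ht2, hne⟩ :=
    ((Polynomial.finite_setOfPred_isRoot e3).infinite_compl).nontrivial
  obtain ⟨x, hx, hx', e⟩ := h1 _ (e2 t) (by rw [optionEquivLeft_elim_eval]; exact ht1)
  obtain ⟨x', hz, hz', e'⟩ := h1 _ (e2 t') (by rw [optionEquivLeft_elim_eval]; exact ht2)
  obtain rfl : x = x' := hi ⟨hx, hx'⟩ ⟨hz, hz'⟩
    (_root_.funext fun i => (congrFun e (some i)).trans (congrFun e' (some i)).symm)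
  exact hne ((congrFun e none).symm.trans (congrFun e' none))

theorem yd1_indep {A : Type} [CommRing A] [IsDomain A] [Algebra ℂ A] (B : Subalgebra ℂ A)
    (ha : Algebra.IsAlgebraic B A) {e : ℕ} {f : Fin e → A} (h : AlgebraicIndependent ℂ f) :
    ∃ b : Fin e → A, AlgebraicIndependent ℂ b ∧ ∀ i, b i ∈ B := by
  have h2 := h.cardinalMk_le_trdeg
  rw [← trdeg_add_eq ℂ B, trdeg_eq_zero (R := B), add_zero] at h2
  obtain ⟨s, hs⟩ := exists_isTranscendenceBasis ℂ B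
  rw [← hs.cardinalMk_eq_trdeg] at h2
  obtain ⟨j⟩ := (Cardinal.le_def _ _).1 h2
  exact ⟨_, (hs.1.comp j j.injective).map' (f := B.val) Subtype.val_injective, fun i => (j i).1.2⟩

omit [Finite σ] in
theorem dim_of_alg (hp : p.IsPrime) (G : τ → MvPolynomial σ ℂ)
    (ha : Algebra.IsAlgebraic ((Ideal.Quotient.mkₐ ℂ p).comp (aeval G)).range
      (MvPolynomial σ ℂ ⧸ p)) {e : ℕ}
    (hd : Dim (ZI (p.comap (aeval G : MvPolynomial τ ℂ →ₐ[ℂ] _).toRingHom)) e) : Dim (ZI p) e := by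
  intro f
  by_contra hc
  have h1 : AlgebraicIndependent ℂ fun i => Ideal.Quotient.mkₐ ℂ p (f i) := by
    refine algebraicIndependent_iff.2 fun P hP => ?_
    by_contra h0
    refine hc ⟨P, h0, fun x hx => (PWV.vdim_subst x f P).symm.trans (hx _ ?_)⟩
    rw [← Ideal.Quotient.eq_zero_iff_mem, ← hP]
    exact (DFunLike.congr_fun (comp_aeval f (Ideal.Quotient.mkₐ ℂ p)) P)
  obtain ⟨b, hb, h2⟩ := yd1_indep _ ha h1
  choose g hg using h2
  obtain ⟨P, h0, hP⟩ := hd g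
  refine h0 (algebraicIndependent_iff.1 hb P ?_)
  have h3 : aeval g P ∈ p.comap (aeval G : MvPolynomial τ ℂ →ₐ[ℂ] _).toRingHom :=
    PWV.null (Ideal.comap_isPrime _ _) fun y hy => (PWV.vdim_subst y g P).trans (hP y hy)
  have h4 : ((Ideal.Quotient.mkₐ ℂ p).comp (aeval G)) (aeval g P) = 0 :=
    Ideal.Quotient.eq_zero_iff_mem.2 h3
  rw [← h4, ← AlgHom.comp_apply, comp_aeval]
  exact congrArg (fun u => aeval u P) (_root_.funext fun i => (hg i).symm)

theorem dim_of_inj (hV : ZC V) (h : MvPolynomial σ ℂ) (G : τ → MvPolynomial σ ℂ)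
    (hi : InjOn (pm G) (V ∩ {x | eval x h ≠ 0})) {e : ℕ}
    (hd : Dim (pm G '' (V ∩ {x | eval x h ≠ 0})) e) : Dim (V ∩ {x | eval x h ≠ 0}) e := by
  obtain ⟨s, hs, h1, -, rfl⟩ := hV.exists_primes
  refine (PWV.dim_biUnion (hs.subset (sep_subset _ fun p => h ∉ p)) (f := ZI) fun p hp => ?_).mono
    fun x hx => ?_
  · have hp' := h1 p hp.1
    have hsub : ZI p ∩ {x | eval x h ≠ 0} ⊆ (⋃ p ∈ s, ZI p) ∩ {x | eval x h ≠ 0} :=
      inter_subset_inter_left _ (subset_biUnion_of_mem (u := ZI) hp.1)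
    refine dim_of_alg hp' G (alg_of_inj hp' hp.2 G (hi.mono hsub)) (hd.zcl.mono fun y hy f hf => ?_)
    refine hy f ((hp'.mem_or_mem (PWV.null hp' (f := aeval G f * h) fun x hx => ?_)).resolve_right
      hp.2)
    by_cases k : eval x h = 0
    · rw [map_mul, k, mul_zero]
    · rw [map_mul, ← yd1_pm, hf _ ⟨x, hsub ⟨hx, k⟩, rfl⟩, zero_mul]
  · obtain ⟨p, hp, hxp⟩ := mem_iUnion₂.1 hx.1
    exact mem_iUnion₂.2 ⟨p, ⟨hp, fun k => hx.2 (hxp _ k)⟩, hxp⟩

theorem proj0 {N : ℕ} {V : Set (σ ⊕ Fin N → ℂ)} (hV : ZC V) {D : Set (σ → ℂ)} (hD : IsOpen D)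
    (hs : ∀ u ∈ D, ∀ (w : Fin N → ℂ) (c : ℂ), w ≠ 0 → c ≠ 0 → Sum.elim u w ∈ V →
      Sum.elim u (c • w) ∈ V) :
    ∃ V', ZC V' ∧ ∀ u ∈ D, (u ∈ V' ↔ ∃ w, w ≠ 0 ∧ Sum.elim u w ∈ V) := by
  have hP : IsClosed (Prod.fst '' {q : (σ → ℂ) × Metric.sphere (0 : Fin N → ℂ) 1 |
      Sum.elim q.1 q.2.1 ∈ V}) := by
    refine isClosedMap_fst_of_compactSpace _ (hV.isClosed.preimage (continuous_pi fun i => ?_))
    cases i with
    | inl i => exact (continuous_apply i).comp continuous_fst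
    | inr i => exact (continuous_apply i).comp (continuous_subtype_val.comp continuous_snd)
  refine ⟨⋃ j ∈ (univ : Set (Fin N)), closure (pm (fun i => X (Sum.inl i)) ''
    (V ∩ {x | eval x (X (Sum.inr j)) ≠ 0})),
    PWV.zc_biUnion finite_univ fun j _ => img_zc hV _ _, fun u hu => ⟨fun h => ?_, ?_⟩⟩
  · obtain ⟨j, -, hj⟩ := mem_iUnion₂.1 h
    suffices k : D ∩ pm (fun i => X (Sum.inl i)) '' (V ∩ {x | eval x (X (Sum.inr j)) ≠ 0}) ⊆ _ by
      obtain ⟨q, hq, rfl⟩ := closure_minimal k hP (hD.inter_closure ⟨hu, hj⟩)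
      exact ⟨q.2.1, Metric.ne_of_mem_sphere q.2.2 one_ne_zero, hq⟩
    · rintro _ ⟨h1, x, ⟨hx, hx'⟩, rfl⟩
      have e : pm (fun i => X (Sum.inl i)) x = x ∘ Sum.inl := _root_.funext fun i => eval_X _
      have h0 : x ∘ Sum.inr ≠ 0 := fun k => hx' ((eval_X _).trans (congrFun k j))
      have h2 : ‖x ∘ Sum.inr‖ ≠ 0 := norm_ne_zero_iff.2 h0
      rw [e] at h1 ⊢
      refine ⟨(_, ⟨((‖x ∘ Sum.inr‖ : ℂ))⁻¹ • (x ∘ Sum.inr), ?_⟩),
        hs _ h1 _ _ h0 (inv_ne_zero (Complex.ofReal_ne_zero.2 h2)) ?_, rfl⟩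
      · rw [mem_sphere_zero_iff_norm, norm_smul, norm_inv, Complex.norm_real, norm_norm,
          inv_mul_cancel₀ h2]
      · rwa [Sum.elim_comp_inl_inr]
  · rintro ⟨w, hw, h⟩
    obtain ⟨j, hj⟩ := Function.ne_iff.1 hw
    exact mem_iUnion₂.2 ⟨j, mem_univ _, subset_closure ⟨_, ⟨h, (eval_X _).trans_ne hj⟩,
      _root_.funext fun i => eval_X _⟩⟩

end Pool.Agent.CS
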