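import Pool.Agent.P.MP_d34769_ag.YD1
import Pool.Agent.P.MP_65ad7c_ag.XG2

/-! The calculus of algebraic sets, relations and maps. -/

open Set Filter Topology
open Pool.Agent.HT (Amb proj cj)
open Pool.Agent.PWV (ZC ZI Dim zcl pm)
open Pool.Agent.HIR

noncomputable section
namespace Pool.Agent.CS

variable {M N K : ℕ} {X A B : Set (Amb M)} {Y : Set (Amb N)} {R R' : Amb M → Amb N → Prop}
  {f f' : Amb M → Amb N}

theorem zc_pre {σ τ : Type} {V : Set (τ → ℂ)} (h : ZC V) (e : τ → σ) :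
    ZC {x : σ → ℂ | x ∘ e ∈ V} := by
  simpa only [MvPolynomial.eval_X, Function.comp_def] using h.preimage fun i => MvPolynomial.X (e i)

theorem pa_empty : PA (∅ : Set (Amb M)) :=
  ⟨empty_subset _, ∅, PWV.zc_empty, fun _ _ => Iff.rfl⟩

theorem pa_Prj : PA (Prj M) :=
  ⟨Subset.rfl, univ, PWV.zc_univ, fun v hv => ⟨fun _ => trivial, fun _ => ⟨v, hv, rfl⟩⟩⟩

theorem PA.inter (hA : PA A) (hB : PA B) : PA (A ∩ B) := by
  obtain ⟨a, V, hV, h⟩ := hA
  obtain ⟨_, W, hW, h'⟩ := hB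
  exact ⟨inter_subset_left.trans a, V ∩ W, hV.inter hW, fun v hv => and_congr (h v hv) (h' v hv)⟩

theorem PA.union (hA : PA A) (hB : PA B) : PA (A ∪ B) := by
  obtain ⟨a, V, hV, h⟩ := hA
  obtain ⟨b, W, hW, h'⟩ := hB
  exact ⟨union_subset a b, V ∪ W, hV.union hW, fun v hv => or_congr (h v hv) (h' v hv)⟩

theorem pa_biUnion {ι : Type*} {s : Set ι} (hs : s.Finite) {A : ι → Set (Amb M)}
    (h : ∀ i ∈ s, PA (A i)) : PA (⋃ i ∈ s, A i) := by
  induction s, hs using Set.Finite.induction_on with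
  | empty => simpa using pa_empty
  | insert _ _ ih =>
    rw [biUnion_insert]
    exact (h _ (mem_insert _ _)).union (ih fun i hi => h i (mem_insert_of_mem _ hi))

theorem pa_iUnion {ι : Sort*} [Finite ι] {A : ι → Set (Amb M)} (h : ∀ i, PA (A i)) :
    PA (⋃ i, A i) := by
  have := pa_biUnion (finite_range A) (A := id) (by rintro _ ⟨i, rfl⟩; exact h i)
  simpa using this

theorem PA.compact (h : PA X) : IsCompact X := by
  obtain ⟨a, V, hV, h⟩ := h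
  have hne : ∀ v ∈ Metric.sphere (0 : Fin M → ℂ) 1, v ≠ 0 := fun v hv e => by simp [e] at hv
  have : X = proj '' (Metric.sphere (0 : Fin M → ℂ) 1 ∩ V) := by
    ext x
    constructor
    · intro hx
      obtain ⟨v, hv, rfl⟩ := a hx
      have h1 : ‖v‖ ≠ 0 := norm_ne_zero_iff.2 hv
      have h2 : ((‖v‖ : ℂ))⁻¹ ≠ 0 := inv_ne_zero (Complex.ofReal_ne_zero.2 h1)
      refine ⟨((‖v‖ : ℂ))⁻¹ • v, ⟨by simp [norm_smul, h1], (h _ (smul_ne_zero h2 hv)).1 ?_⟩,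
        proj_smul h2 v⟩
      rwa [proj_smul h2]
    · rintro ⟨v, hv, rfl⟩
      exact (h v (hne v hv.1)).2 hv.2
  rw [this]
  exact ((isCompact_sphere _ _).inter_right hV.isClosed).image_of_continuousOn
    fun v hv => (cont_proj (hne v hv.1)).continuousWithinAt

theorem PA.closed (h : PA X) : IsClosed X := h.compact.isClosed

theorem PA.exists_hom (h : PA X) {v : Fin M → ℂ} (hv : v ≠ 0) (hx : proj v ∉ X) :
    ∃ (P : MvPolynomial (Fin M) ℂ) (k : ℕ), P.IsHomogeneous k ∧ ev P v ≠ 0 ∧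
      ∀ u, u ≠ 0 → proj u ∈ X → ev P u = 0 := by
  obtain ⟨_, _, ⟨S, rfl⟩, h⟩ := h
  obtain ⟨P, hP, h0⟩ : ∃ P ∈ S, ev P v ≠ 0 := by
    by_contra c
    push Not at c
    exact hx ((h v hv).2 c)
  have e : ∀ u, ev P u = ∑ k ∈ Finset.range (P.totalDegree + 1),
      ev (MvPolynomial.homogeneousComponent k P) u := fun u => by
    conv_lhs => rw [← MvPolynomial.sum_homogeneousComponent P]
    simp only [ev, map_sum]
  rw [e] at h0
  obtain ⟨k, hk, h1⟩ := Finset.exists_ne_zero_of_sum_ne_zero h0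
  refine ⟨_, k, MvPolynomial.homogeneousComponent_isHomogeneous k P, h1, fun u hu hX => ?_⟩
  have q : (∑ k ∈ Finset.range (P.totalDegree + 1),
      Polynomial.monomial k (ev (MvPolynomial.homogeneousComponent k P) u)) = 0 := by
    refine Polynomial.eq_zero_of_infinite_isRoot _ ((finite_singleton (0 : ℂ)).infinite_compl.mono
      fun c hc => ?_)
    have h2 : ev P (c • u) = 0 := (h _ (smul_ne_zero hc hu)).1 (by rwa [proj_smul hc]) P hP
    rw [e] at h2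
    simp only [ev_smul (MvPolynomial.homogeneousComponent_isHomogeneous _ P)] at h2
    simpa [Polynomial.eval_finsetSum, mul_comm] using h2
  have := congrArg (Polynomial.coeff · k) q
  simpa [Polynomial.coeff_monomial, hk] using this

theorem pa_of_hom (h0 : X ⊆ Prj M) (h : ∀ v, v ≠ 0 → proj v ∉ X →
    ∃ P : MvPolynomial (Fin M) ℂ, ev P v ≠ 0 ∧ ∀ u, u ≠ 0 → proj u ∈ X → ev P u = 0) : PA X := by
  refine ⟨h0, zcl (cn X), PWV.zc_zcl _, fun v hv => ⟨fun k => PWV.subset_zcl _ ⟨hv, k⟩, fun k => ?_⟩⟩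
  by_contra c
  obtain ⟨P, h1, h2⟩ := h v hv c
  exact h1 (k P fun u hu => h2 u hu.1 hu.2)

theorem pa_closure_img {σ : Type} [Finite σ] {V : Set (σ → ℂ)} (hV : ZC V)
    (h : MvPolynomial σ ℂ) (G : Fin M → MvPolynomial σ ℂ)
    (h0 : ∀ x ∈ V, MvPolynomial.eval x h ≠ 0 → pm G x ≠ 0) :
    PA (closure ((fun x => proj (pm G x)) '' (V ∩ {x | MvPolynomial.eval x h ≠ 0}))) := by
  have e1 : ∀ z : Option σ → ℂ, pm (fun i => MvPolynomial.X none * MvPolynomial.rename some (G i)) z =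
      z none • pm G (z ∘ some) := fun z => by
    funext i
    simp [pm, MvPolynomial.eval_rename]
  refine ⟨closure_minimal ?_ (compact_XI1 M).isClosed, _,
    img_zc (zc_pre hV some) (MvPolynomial.rename some h)
      (fun i => MvPolynomial.X none * MvPolynomial.rename some (G i)), fun v hv => ⟨fun k => ?_,
      fun k => ?_⟩⟩
  · rintro _ ⟨x, hx, rfl⟩
    exact ⟨_, h0 x hx.1 hx.2, rfl⟩
  · obtain ⟨j, hj⟩ := Function.ne_iff.1 hv
    have ha : (starRingEnd ℂ) (v j) / ∑ j, v j * (starRingEnd ℂ) (v j) ≠ 0 :=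
      div_ne_zero ((map_ne_zero _).2 hj) (sum_ne_XE1 hv)
    have c : Continuous fun (x : Amb M) =>
        ((starRingEnd ℂ) (v j) / ∑ j, v j * (starRingEnd ℂ) (v j))⁻¹ • fun i => x (i, j) := by
      fun_prop
    have := map_mem_closure c k (t := pm (fun i => MvPolynomial.X none *
      MvPolynomial.rename some (G i)) '' ({x : Option σ → ℂ | x ∘ some ∈ V} ∩
        {x | MvPolynomial.eval x (MvPolynomial.rename some h) ≠ 0})) (by
      rintro _ ⟨x, hx, rfl⟩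
      simp only [proj_col, smul_smul]
      refine ⟨fun o => o.elim _ x, ⟨hx.1, ?_⟩, e1 _⟩
      rw [mem_ofPred_eq, MvPolynomial.eval_rename]
      exact hx.2)
    rwa [proj_col, inv_smul_smul₀ ha] at this
  · have k' := (isOpen_ne (x := (0 : Fin M → ℂ))).inter_closure ⟨hv, k⟩
    refine closure_mono ?_ ((cont_proj hv).continuousWithinAt.mem_closure_image k')
    rintro _ ⟨_, ⟨h1, z, hz, rfl⟩, rfl⟩
    rw [mem_ofPred_eq, e1] at h1
    refine ⟨z ∘ some, ⟨hz.1, ?_⟩, ?_⟩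
    · have := hz.2
      rwa [mem_ofPred_eq, MvPolynomial.eval_rename] at this
    · rw [e1, proj_smul (left_ne_zero_of_smul h1)]

theorem AR.congr (h : AR R) (e : ∀ x y, R' x y ↔ R x y) : AR R' := by
  rwa [show R' = R from funext₂ fun x y => propext (e x y)]

theorem AR.and (h : AR R) (h' : AR R') : AR fun x y => R x y ∧ R' x y := by
  obtain ⟨a, V, hV, h⟩ := h
  obtain ⟨_, W, hW, h'⟩ := h'
  exact ⟨fun x y k => a x y k.1, V ∩ W, hV.inter hW,
    fun v w hv hw => and_congr (h v w hv hw) (h' v w hv hw)⟩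

theorem AR.swap (h : AR R) : AR fun y x => R x y := by
  obtain ⟨a, V, hV, h⟩ := h
  refine ⟨fun y x k => (a x y k).symm, _, zc_pre hV Sum.swap, fun w v hw hv => ?_⟩
  have e : Sum.elim w v ∘ Sum.swap = Sum.elim v w := by funext i; cases i <;> rfl
  rw [mem_ofPred_eq, e]
  exact h v w hv hw

theorem ar_prod (hX : PA X) (hY : PA Y) : AR fun x y => x ∈ X ∧ y ∈ Y := by
  obtain ⟨a, V, hV, h⟩ := hX
  obtain ⟨b, W, hW, h'⟩ := hY
  exact ⟨fun x y k => ⟨a k.1, b k.2⟩, _, (zc_pre hV Sum.inl).inter (zc_pre hW Sum.inr),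
    fun v w hv hw => and_congr (h v hv) (h' w hw)⟩

theorem AR.comp {S : Amb N → Amb K → Prop} (h : AR R) (h' : AR S) :
    AR fun x z => ∃ y, R x y ∧ S y z := by
  obtain ⟨a, V, hV, h⟩ := h
  obtain ⟨b, W, hW, h'⟩ := h'
  have e1 : ∀ (u : Fin M ⊕ Fin K → ℂ) (w : Fin N → ℂ),
      Sum.elim u w ∘ Sum.map Sum.inl id = Sum.elim (u ∘ Sum.inl) w := fun u w => by
    funext i; cases i <;> rfl
  have e2 : ∀ (u : Fin M ⊕ Fin K → ℂ) (w : Fin N → ℂ),
      Sum.elim u w ∘ Sum.elim Sum.inr (Sum.inl ∘ Sum.inr) = Sum.elim w (u ∘ Sum.inr) :=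
    fun u w => by funext i; cases i <;> rfl
  obtain ⟨U, hU, hU'⟩ := proj0 (σ := Fin M ⊕ Fin K) ((zc_pre hV (Sum.map Sum.inl id)).inter
    (zc_pre hW (Sum.elim Sum.inr (Sum.inl ∘ Sum.inr))))
    (D := {u | u ∘ Sum.inl ≠ 0} ∩ {u | u ∘ Sum.inr ≠ 0})
    ((isOpen_ne_fun (by fun_prop) continuous_const).inter
      (isOpen_ne_fun (by fun_prop) continuous_const)) (fun u hu w c hw hc k => by
      simp only [mem_inter_iff, mem_ofPred_eq, e1, e2] at k ⊢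
      rwa [← h _ _ hu.1 (smul_ne_zero hc hw), ← h' _ _ (smul_ne_zero hc hw) hu.2, proj_smul hc,
        h _ _ hu.1 hw, h' _ _ hw hu.2])
  refine ⟨fun x z ⟨y, k, k'⟩ => ⟨(a _ _ k).1, (b _ _ k').2⟩, U, hU, fun v w hv hw => ?_⟩
  rw [hU' (Sum.elim v w) ⟨hv, hw⟩]
  simp only [mem_inter_iff, mem_ofPred_eq, e1, e2, Sum.elim_comp_inl, Sum.elim_comp_inr]
  constructor
  · rintro ⟨y, k, k'⟩
    obtain ⟨u, hu, rfl⟩ := (a _ _ k).2
    exact ⟨u, hu, (h _ _ hv hu).1 k, (h' _ _ hu hw).1 k'⟩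
  · rintro ⟨u, hu, k, k'⟩
    exact ⟨_, (h _ _ hv hu).2 k, (h' _ _ hu hw).2 k'⟩

theorem AR.dom (h : AR R) : PA {x | ∃ y, R x y} := by
  obtain ⟨a, V, hV, h⟩ := h
  obtain ⟨U, hU, hU'⟩ := proj0 hV (D := {u | u ≠ 0}) isOpen_ne fun u hu w c hw hc k => by
    rwa [← h _ _ hu (smul_ne_zero hc hw), proj_smul hc, h _ _ hu hw]
  refine ⟨fun x ⟨y, k⟩ => (a _ _ k).1, U, hU, fun v hv => ?_⟩
  rw [hU' v hv]
  constructor
  · rintro ⟨y, k⟩
    obtain ⟨u, hu, rfl⟩ := (a _ _ k).2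
    exact ⟨u, hu, (h _ _ hv hu).1 k⟩
  · rintro ⟨u, hu, k⟩
    exact ⟨_, (h _ _ hv hu).2 k⟩

theorem ar_diag : AR fun x y : Amb M => x ∈ Prj M ∧ x = y := by
  refine ⟨fun x y k => ⟨k.1, k.2 ▸ k.1⟩, _, ⟨range fun p : Fin M × Fin M =>
    MvPolynomial.X (Sum.inl p.1) * MvPolynomial.X (Sum.inr p.2) -
      MvPolynomial.X (Sum.inl p.2) * MvPolynomial.X (Sum.inr p.1), rfl⟩, fun v w hv hw => ?_⟩
  refine ((and_iff_right ⟨v, hv, rfl⟩).trans (proj_eq_iff hv hw)).trans ?_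
  simp only [mem_ofPred_eq, forall_mem_range, map_sub, map_mul, MvPolynomial.eval_X, Sum.elim_inl,
    Sum.elim_inr, sub_eq_zero]
  constructor
  · rintro ⟨c, _, rfl⟩ p
    simp only [Pi.smul_apply, smul_eq_mul]
    ring
  · intro k
    obtain ⟨j, hj⟩ := Function.ne_iff.1 hv
    have hj : v j ≠ 0 := hj
    have e : w = (w j / v j) • v := by
      funext i
      have := k (j, i)
      simp only [Pi.smul_apply, smul_eq_mul]
      field_simp
      linear_combination this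
    exact ⟨_, fun z => hw (by rw [e, z, zero_smul]), e⟩

theorem ag_id (h : PA X) : AG X id :=
  ⟨continuousOn_id, (ar_diag.and (ar_prod h pa_Prj)).congr fun _ _ =>
    ⟨fun k => ⟨⟨h.1 k.1, k.2⟩, k.1, k.2 ▸ h.1 k.1⟩, fun k => ⟨k.2.1, k.1.2⟩⟩⟩

theorem AG.pa (h : AG X f) : PA X := by
  simpa using h.ar.dom

theorem AG.prj (h : AG X f) : MapsTo f X (Prj N) := fun x hx => (h.ar.1 x _ ⟨hx, rfl⟩).2

theorem AG.mono (h : AG X f) (hA : PA A) (s : A ⊆ X) : AG A f :=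
  ⟨h.cont.mono s, (h.ar.and (ar_prod hA pa_Prj)).congr fun _ _ =>
    ⟨fun k => ⟨⟨s k.1, k.2⟩, k.1, k.2 ▸ h.prj (s k.1)⟩, fun k => ⟨k.2.1, k.1.2⟩⟩⟩

theorem AG.congr (h : AG X f) (e : EqOn f' f X) : AG X f' :=
  ⟨h.cont.congr e, h.ar.congr fun _ _ => and_congr_right fun k => by rw [e k]⟩

theorem AG.comp {g : Amb N → Amb K} (hg : AG Y g) (h : AG X f) (m : MapsTo f X Y) :
    AG X (g ∘ f) :=
  ⟨hg.cont.comp h.cont m, (h.ar.comp hg.ar).congr fun x _ =>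
    ⟨fun k => ⟨f x, ⟨k.1, rfl⟩, m k.1, k.2⟩, fun ⟨_, k, k'⟩ => ⟨k.1, by
      rw [Function.comp_apply, k.2, k'.2]⟩⟩⟩

theorem AG.image (h : AG X f) (hA : PA A) (s : A ⊆ X) : PA (f '' A) := (h.mono hA s).ar.swap.dom

theorem AG.preimage (h : AG X f) (hY : PA Y) : PA (X ∩ f ⁻¹' Y) := by
  have := (h.ar.and (ar_prod h.pa hY)).dom
  rwa [show X ∩ f ⁻¹' Y = {x | ∃ y, (x ∈ X ∧ f x = y) ∧ x ∈ X ∧ y ∈ Y} from Set.ext fun x =>
    ⟨fun k => ⟨f x, ⟨k.1, rfl⟩, k⟩, fun ⟨_, k, k'⟩ => ⟨k.1, show f x ∈ Y from k.2 ▸ k'.2⟩⟩]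

end Pool.Agent.CS
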