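import Pool.Agent.P.MP_d34769_ag.YD3
import Pool.Agent.P.MP_d34769_ag.YD4
import Pool.Agent.P.MP_65ad7c_ag.XI3
import Pool.Agent.P.MP_65ad7c_ag.XF7
import Pool.Agent.P.MP_65ad7c_ag.XH1

/-! Resolution of singularities. -/

open Set Filter Topology
open Pool.Agent.HT (Amb proj cj)
open Pool.Agent.PWV (ZC ZI Dim zcl pm)
open Pool.Agent.HIR

noncomputable section
namespace Pool.Agent.CS

section aux
variable {n e M K : ℕ}

/-- a linear map acts on projective space -/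
theorem exists_lin_YD5 (L : (Fin M → ℂ) →L[ℂ] (Fin K → ℂ)) :
    ∃ f : Amb M → Amb K, ∀ v, v ≠ 0 → f (proj v) = proj (L v) := by
  classical
  refine ⟨fun x => if h : ∃ v, v ≠ 0 ∧ proj v = x then proj (L h.choose) else 0, fun v hv => ?_⟩
  have h : ∃ u, u ≠ 0 ∧ proj u = proj v := ⟨v, hv, rfl⟩
  obtain ⟨c, hc, e⟩ := (proj_eq_iff h.choose_spec.1 hv).1 h.choose_spec.2
  simp only [dif_pos h]
  conv_rhs => rw [e, map_smul, proj_smul hc]

theorem hol_lin_YD5 {L : (Fin M → ℂ) →L[ℂ] (Fin K → ℂ)} {f : Amb M → Amb K}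
    (hf : ∀ v, v ≠ 0 → f (proj v) = proj (L v)) {M' : ℕ} {Y : Set (Amb M')} {ph : Amb M' → Amb M}
    (h : HolP e Y ph) (h0 : ∀ x ∈ Y, ∀ v, v ≠ 0 → proj v = ph x → L v ≠ 0) :
    HolP e Y (f ∘ ph) := by
  intro φ z x hp
  obtain ⟨g, hg, hz, he⟩ := h φ z x hp
  refine ⟨L ∘ g, (L.analyticAt _).comp hg, h0 x hp.mem _ hz ?_, ?_⟩
  · rw [← hp.eq]
    exact he.self_of_nhds.symm
  · filter_upwards [he, hg.continuousAt.eventually_ne hz] with y h1 h2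
    simp only [Function.comp_apply] at h1 ⊢
    rw [h1, hf _ h2]

/-- the hypersurface of a polynomial -/
def hy_YD5 (H : MvPolynomial (Fin K) ℂ) : Set (Amb K) := {x | ∃ v, v ≠ 0 ∧ proj v = x ∧ ev H v = 0}

theorem mem_hy_YD5 {H : MvPolynomial (Fin K) ℂ} {k : ℕ} (hH : H.IsHomogeneous k) {v : Fin K → ℂ}
    (hv : v ≠ 0) : proj v ∈ hy_YD5 H ↔ ev H v = 0 := by
  refine ⟨?_, fun h => ⟨v, hv, rfl, h⟩⟩
  rintro ⟨u, hu, e, h⟩
  obtain ⟨c, -, rfl⟩ := (proj_eq_iff hu hv).1 e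
  rw [ev_smul hH, h, mul_zero]

theorem pa_hy_YD5 {H : MvPolynomial (Fin K) ℂ} {k : ℕ} (hH : H.IsHomogeneous k) :
    PA (hy_YD5 H) :=
  ⟨fun _ ⟨v, hv, e, _⟩ => ⟨v, hv, e⟩, _, ⟨{H}, rfl⟩, fun v hv => by
    rw [mem_hy_YD5 hH hv]
    simp [ev]⟩

/-- the closure of the part off a hypersurface is a union of components -/
theorem mf_clo_YD5 {C : Set (Amb M)} {ph : Amb M → Amb K} (hC : Mf e C) (hph : HolP e C ph)
    {H : MvPolynomial (Fin K) ℂ} {k : ℕ} (hH : H.IsHomogeneous k) :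
    Mf e (closure (C \ ph ⁻¹' hy_YD5 H)) := by
  have hs : closure (C \ ph ⁻¹' hy_YD5 H) ⊆ C :=
    closure_minimal sdiff_subset hC.compact.isClosed
  refine ⟨hC.compact.of_isClosed_subset isClosed_closure hs, fun x hx => ?_⟩
  obtain ⟨φ, z, hp⟩ := hC.chart x (hs hx)
  obtain ⟨g, hg, h0, he⟩ := hph φ z x hp
  have hu : AnalyticAt ℂ (fun y => ev H (g y)) z := (an_ev_XI4 H (g z)).comp hg
  have hA : ∀ᶠ y in 𝓝 z, φ y ∈ C \ ph ⁻¹' hy_YD5 H ↔ ev H (g y) ≠ 0 := by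
    filter_upwards [hp.ev, he, hg.continuousAt.eventually_ne h0] with y h1 h2 h3
    simp only [Function.comp_apply] at h2
    rw [Set.mem_sdiff, mem_preimage, h2, mem_hy_YD5 hH h3]
    exact and_iff_right h1.mem
  have hz : ¬ (fun y => ev H (g y)) =ᶠ[𝓝 z] 0 := fun h =>
    not_mem_closure hp sdiff_subset (by
      filter_upwards [hA, h] with y h1 h2 h3 using h1.1 h3 h2) hx
  have hB : ∀ᶠ w in 𝓝 z, φ w ∈ closure (C \ ph ⁻¹' hy_YD5 H) := by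
    filter_upwards [hp.ev, dense_XI4 hu hz, hA.eventually_nhds] with w h1 h2 h3
    rw [closure_iff_XG1 h1 sdiff_subset]
    exact (h2.and_eventually h3).mono fun y hy => hy.2.2 hy.1
  refine ⟨φ, z, hp.congr_set ?_⟩
  filter_upwards [eventually_nhdsWithin_iff.1 (hp.ev_iff.2 hB)] with y hy
  exact ⟨hy, fun h => hs h⟩

/-- the result of the embedded resolution -/
def Out_YD5 (A : Set (Amb K)) : Prop :=
  ∃ (e M : ℕ) (Y : Set (Amb M)) (ph : Amb M → Amb K) (T : Set (Amb K)), Mf e Y ∧ Irr Y ∧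
    HolP e Y ph ∧ ph '' Y = A ∧ PA T ∧ ¬ A ⊆ T ∧ InjOn ph (Y \ ph ⁻¹' T)

/-- a manifold that dominates `A` and is injective off `T` contains a resolution -/
theorem out_YD5 {A T : Set (Amb K)} (hA : Irr A) (hT : PA T) (hn : ¬ A ⊆ T) {C : Set (Amb M)}
    {ph : Amb M → Amb K} (hC : Mf e C) (hph : HolP e C ph) (hs : A ⊆ ph '' C)
    (hi : InjOn ph (C \ ph ⁻¹' T)) (ho : ∀ x ∈ C, ph x ∉ T → ph x ∈ A) : Out_YD5 A := by
  obtain ⟨a, ha, haT⟩ := not_subset.1 hn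
  obtain ⟨v, hv, rfl⟩ := hA.pa.1 ha
  obtain ⟨H, k, hH, h1, h2⟩ := hT.exists_hom hv haT
  have hTH : T ⊆ hy_YD5 H := fun x hx => by
    obtain ⟨u, hu, rfl⟩ := hT.1 hx
    exact (mem_hy_YD5 hH hu).2 (h2 u hu hx)
  have hn' : ¬ A ⊆ hy_YD5 H := fun h => h1 ((mem_hy_YD5 hH hv).1 (h ha))
  have hm := mf_clo_YD5 hC hph hH
  have hsub : closure (C \ ph ⁻¹' hy_YD5 H) ⊆ C := closure_minimal sdiff_subset hC.compact.isClosed
  have hh : HolP e (closure (C \ ph ⁻¹' hy_YD5 H)) ph := hph.sub hC hsub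
  have hag := ag_of_hol hm hh
  have hpa := pa_of_mf hm
  have hsur : A ⊆ ph '' closure (C \ ph ⁻¹' hy_YD5 H) := by
    refine (hA.irr _ _ (pa_hy_YD5 hH) (hag.image hpa Subset.rfl) fun y hy => ?_).resolve_left hn'
    by_cases h : y ∈ hy_YD5 H
    · exact Or.inl h
    · obtain ⟨x, hx, rfl⟩ := hs hy
      exact Or.inr ⟨x, subset_closure ⟨hx, h⟩, rfl⟩
  have key : ∀ B, PA B → A ⊆ ph '' (closure (C \ ph ⁻¹' hy_YD5 H) ∩ B) →
      closure (C \ ph ⁻¹' hy_YD5 H) ⊆ B := fun B hB h => by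
    refine closure_minimal (fun x hx => ?_) hB.closed
    have hxT : ph x ∉ T := fun h' => hx.2 (hTH h')
    obtain ⟨y, hy, e⟩ := h (ho x hx.1 hxT)
    rw [← hi ⟨hsub hy.1, by rw [mem_preimage, e]; exact hxT⟩ ⟨hx.1, hxT⟩ e]
    exact hy.2
  refine ⟨e, M, _, ph, hy_YD5 H, hm, ⟨hpa, (hA.ne.mono hsur).of_image, fun B B' hB hB' h => ?_⟩,
    hh, Subset.antisymm ?_ hsur, pa_hy_YD5 hH, hn',
    hi.mono (sdiff_subset_sdiff hsub (preimage_mono hTH))⟩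
  · refine (hA.irr _ _ (hag.image (hpa.inter hB) inter_subset_left)
      (hag.image (hpa.inter hB') inter_subset_left) fun y hy => ?_).imp (key B hB) (key B' hB')
    obtain ⟨x, hx, rfl⟩ := hsur hy
    exact (h hx).imp (fun h' => ⟨x, ⟨hx, h'⟩, rfl⟩) fun h' => ⟨x, ⟨hx, h'⟩, rfl⟩
  · refine (hag.cont.image_closure).trans (closure_minimal ?_ hA.pa.closed)
    rintro _ ⟨x, hx, rfl⟩
    exact ho x hx.1 fun h => hx.2 (hTH h)

/-- the invariant of the embedded resolution -/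
structure RI_YD5 (S : Sp n) (G : Alg S.M) (ph : Amb S.M → Amb K) (A T : Set (Amb K)) : Prop where
  good : Good S G 1
  hol : HolP n S.X ph
  pa : PA T
  nv : ¬ A ⊆ T
  inj : InjOn ph (S.X \ ph ⁻¹' T)
  sur : ∀ y ∈ A, y ∉ T → ∃ x ∈ Sg S G, ph x = y
  ovr : ∀ x ∈ Sg S G, ph x ∉ T → ph x ∈ A

theorem ind_YD5 {A : Set (Amb K)} (hA : Irr A) {S : Sp n} {G : Alg S.M} (hR : Res S G) :
    ∀ (ph : Amb S.M → Amb K) (T : Set (Amb K)), RI_YD5 S G ph A T → Out_YD5 A := by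
  induction hR with
  | done h0 =>
    intro ph T h
    obtain ⟨y, hy, hn⟩ := not_subset.1 h.nv
    obtain ⟨x, hx, -⟩ := h.sur y hy hn
    rw [h0] at hx
    exact hx.elim
  | @step S G β hC _ ih =>
    intro ph T h
    obtain ⟨e, he⟩ := β.ctr.mf
    have hh : HolP e β.C ph := h.hol.sub S.mf β.ctr.sub
    by_cases h2 : A ⊆ ph '' β.C
    · exact out_YD5 hA h.pa h.nv he hh h2 (h.inj.mono (sdiff_subset_sdiff_left β.ctr.sub))
        fun x hx => h.ovr x (hC hx)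
    · have hP : PA (ph '' β.C) := (ag_of_hol he hh).image (pa_of_mf he) Subset.rfl
      have key : ∀ x, ph x ∉ T ∪ ph '' β.C → ph x ∉ T ∧ x ∉ β.C := fun x hx =>
        ⟨fun h' => hx (Or.inl h'), fun h' => hx (Or.inr ⟨x, h', rfl⟩)⟩
      refine ih (ph ∘ β.π) (T ∪ ph '' β.C) ⟨h.good.tr hC, h.hol.bl β, h.pa.union hP,
        fun h' => (hA.irr _ _ h.pa hP h').elim h.nv h2, fun x hx y hy e => ?_, fun y hy hw => ?_,
        fun x hx h0 => h.ovr _ (sg_tr h.good.rees hC hx) (key _ h0).1⟩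
      · have a := key _ hx.2
        have b := key _ hy.2
        exact β.inj ⟨hx.1, a.2⟩ ⟨hy.1, b.2⟩ (h.inj ⟨β.maps hx.1, a.1⟩ ⟨β.maps hy.1, b.1⟩ e)
      · obtain ⟨x, hx, e⟩ := h.sur y hy fun h' => hw (Or.inl h')
        have a := key x (e ▸ hw)
        obtain ⟨x', hx', rfl⟩ := β.surj ⟨hx.1, a.2⟩
        exact ⟨x', (sg_off h.good.rees hx' a.2).2 hx, e⟩

/-- resolution of a variety whose conjugate lies in a set that does not contain it -/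
theorem real_YD5 {A T : Set (Amb (n + 1))} (hA : Irr A) (hT : PA T) (hn : ¬ A ⊆ T)
    (hc : MapsTo (cj (n + 1)) A T) : Out_YD5 A := by
  obtain ⟨q, k, G, h1, h2, h3, h4⟩ := exists_gens (A ∪ cj (n + 1) '' A) (by
    rintro _ (hx | ⟨x, hx, rfl⟩)
    · exact Or.inr ⟨_, hx, rfl⟩
    · exact Or.inl (by rwa [cj_cj]))
  have b2 : ∀ P ∈ range G, RH P := by
    rintro _ ⟨a, rfl⟩
    exact ⟨⟨k, h1 a⟩, h2 a⟩
  have hG := good_pol (S := (mf_Prj n).sp (cj_Prj _)) holP_id (fun _ => rfl) (finite_range G) b2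
  have hSg := sg_pol (S := (mf_Prj n).sp (cj_Prj _)) (𝒬 := range G) holP_id
    fun Q hQ => (b2 Q hQ).hom
  refine ind_YD5 hA (prin (blx n) hG) id T ⟨hG, holP_id, hT, hn, injOn_id _, fun y hy _ => ?_,
    fun x hx h0 => ?_⟩
  · refine ⟨y, ?_, rfl⟩
    rw [hSg]
    refine ⟨hA.pa.1 hy, ?_⟩
    obtain ⟨v, hv, rfl⟩ := hA.pa.1 hy
    refine (proj_Zs (fun Q hQ => (b2 Q hQ).hom) hv).2 ?_
    rintro _ ⟨a, rfl⟩
    exact h3 a v hv (Or.inl hy)
  · rw [hSg] at hx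
    obtain ⟨⟨v, hv, rfl⟩, hx⟩ := hx
    by_contra hx'
    obtain ⟨P, l, hP, e1, e2⟩ := (hA.pa.union hT).exists_hom hv fun h => h.elim hx' h0
    refine e1 (h4 P l hP (fun u hu h => e2 u hu (h.imp_right ?_)) v hv fun a =>
      (proj_Zs (fun Q hQ => (b2 Q hQ).hom) hv).1 hx _ ⟨a, rfl⟩).1
    rintro ⟨y, hy, e⟩
    exact e ▸ hc hy

/-- the embedding `v ↦ (v, c v)` -/
theorem dbl_YD5 (c : ℂ) : ∃ L : (Fin M → ℂ) →L[ℂ] (Fin (M + M) → ℂ),
    (∀ v i, L v (Fin.castAdd M i) = v i) ∧ ∀ v i, L v (Fin.natAdd M i) = c * v i := by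
  refine ⟨ContinuousLinearMap.pi (Fin.addCases (motive := fun _ => (Fin M → ℂ) →L[ℂ] ℂ)
    (fun i => ContinuousLinearMap.proj i) fun i => c • ContinuousLinearMap.proj i),
    fun v i => ?_, fun v i => ?_⟩
  · rw [ContinuousLinearMap.pi_apply, Fin.addCases_left]; rfl
  · rw [ContinuousLinearMap.pi_apply, Fin.addCases_right]; rfl

end aux

variable {N : ℕ} {X : Set (Amb N)}

theorem Irr.res (h : Irr X) :
    ∃ (e M : ℕ) (Y : Set (Amb M)) (ph : Amb M → Amb N), Mf e Y ∧ Mod Y X ph := by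
  obtain ⟨x0, hx0⟩ := h.ne
  obtain ⟨v0, hv0, rfl⟩ := h.pa.1 hx0
  obtain ⟨n, rfl⟩ : ∃ n, N = n + 1 := by
    rcases N with _ | n
    · exact absurd (Subsingleton.elim _ _) hv0
    · exact ⟨n, rfl⟩
  obtain ⟨L, a1, a2⟩ := dbl_YD5 (M := n + 1) Complex.I
  obtain ⟨L', b1, b2⟩ := dbl_YD5 (M := n + 1) (-Complex.I)
  obtain ⟨R, hR⟩ : ∃ R : (Fin (n + 1 + (n + 1)) → ℂ) →L[ℂ] (Fin (n + 1) → ℂ),
      ∀ v, R (L v) = v :=
    ⟨ContinuousLinearMap.pi fun i => ContinuousLinearMap.proj (Fin.castAdd (n + 1) i),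
      fun v => funext fun i => a1 v i⟩
  have n1 : ∀ v, v ≠ 0 → L v ≠ 0 := fun v hv e => hv (funext fun i => by rw [← a1 v i, e]; rfl)
  have n2 : ∀ v, v ≠ 0 → L' v ≠ 0 := fun v hv e => hv (funext fun i => by rw [← b1 v i, e]; rfl)
  obtain ⟨j, hj⟩ := exists_lin_YD5 L
  obtain ⟨j', hj'⟩ := exists_lin_YD5 L'
  obtain ⟨r, hr⟩ := exists_lin_YD5 R
  have hrj : ∀ x ∈ X, r (j x) = x := fun x hx => by
    obtain ⟨v, hv, rfl⟩ := h.pa.1 hx
    rw [hj v hv, hr _ (n1 v hv), hR]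
  have g1 : AG X j := (ag_of_hol (mf_Prj n)
    (hol_lin_YD5 hj holP_id fun _ _ v hv _ => n1 v hv)).mono h.pa h.pa.1
  have g2 : AG (Prj (n + 1)) j' :=
    ag_of_hol (mf_Prj n) (hol_lin_YD5 hj' holP_id fun _ _ v hv _ => n2 v hv)
  obtain ⟨e, M, Y, ph, T, c1, c2, c3, c4, c5, c6, c7⟩ := real_YD5 (n := n + 1 + n) (A := j '' X)
    (T := j' '' Prj (n + 1)) (h.image g1) (g2.image pa_Prj Subset.rfl) (fun hs => by
      obtain ⟨_, ⟨w, hw, rfl⟩, e⟩ := hs ⟨_, hx0, rfl⟩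
      rw [hj _ hv0, hj' _ hw] at e
      obtain ⟨c, -, e⟩ := (proj_eq_iff (n2 w hw) (n1 v0 hv0)).1 e
      refine hv0 (funext fun i => ?_)
      have e1 := congrFun e (Fin.castAdd (n + 1) i)
      have e2 := congrFun e (Fin.natAdd (n + 1) i)
      rw [Pi.smul_apply, smul_eq_mul] at e1 e2
      rw [a1, b1] at e1
      rw [a2, b2] at e2
      have e3 : 2 * Complex.I * v0 i = 0 := by linear_combination e2 + Complex.I * e1
      exact (mul_eq_zero.1 e3).resolve_left (mul_ne_zero two_ne_zero Complex.I_ne_zero))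
    (by
      rintro _ ⟨x, hx, rfl⟩
      obtain ⟨v, hv, rfl⟩ := h.pa.1 hx
      refine ⟨_, ⟨star v, star_ne_zero.2 hv, rfl⟩, ?_⟩
      rw [hj v hv, hj' _ (star_ne_zero.2 hv)]
      refine Eq.trans (congrArg proj (funext fun i => ?_)) (cj_proj (L v)).symm
      refine Fin.addCases (fun i => ?_) (fun i => ?_) i
      · rw [Pi.star_apply, a1, b1, Pi.star_apply]
      · rw [Pi.star_apply, a2, b2, Pi.star_apply, star_mul', Complex.star_def, Complex.conj_I])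
  have hm : ∀ y ∈ Y, ∃ x ∈ X, j x = ph y := fun y hy =>
    (c4 ▸ mem_image_of_mem ph hy : ph y ∈ j '' X)
  have hh : HolP e Y (r ∘ ph) := hol_lin_YD5 hr c3 fun y hy u hu e => by
    obtain ⟨x, hx, e'⟩ := hm y hy
    obtain ⟨v, hv, rfl⟩ := h.pa.1 hx
    rw [← e', hj v hv] at e
    obtain ⟨c, -, e⟩ := (proj_eq_iff hu (n1 v hv)).1 e
    intro h0
    refine hv ?_
    rw [← hR v, e, map_smul, h0, smul_zero]
  refine ⟨e, M, Y, r ∘ ph, c1, c2, h, ag_of_hol c1 hh, hp_of_hol c1 hh, ?_, X ∩ j ⁻¹' T,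
    g1.preimage c5, fun hs => c6 ?_, fun y hy y' hy' e => ?_⟩
  · rw [image_comp, c4, ← image_comp]
    exact (image_congr hrj).trans (image_id X)
  · rintro _ ⟨x, hx, rfl⟩
    exact (hs hx).2
  · obtain ⟨x, hx, e1⟩ := hm y hy.1
    obtain ⟨x', hx', e2⟩ := hm y' hy'.1
    have f1 : (r ∘ ph) y = x := by rw [Function.comp_apply, ← e1, hrj x hx]
    have f2 : (r ∘ ph) y' = x' := by rw [Function.comp_apply, ← e2, hrj x' hx']
    refine c7 ⟨hy.1, fun h' => hy.2 ?_⟩ ⟨hy'.1, fun h' => hy'.2 ?_⟩ ?_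
    · rw [mem_preimage, f1]
      exact ⟨hx, by rwa [mem_preimage, e1]⟩
    · rw [mem_preimage, f2]
      exact ⟨hx', by rwa [mem_preimage, e2]⟩
    · rw [← e1, ← e2, ← f1, ← f2, e]

end Pool.Agent.CS
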