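import Pool.Agent.P.MP_d34769_ag.YD5

/-! Simultaneous resolution of a diagram of irreducible sets. -/

open Set Filter Topology
open Pool.Agent.HT (Amb proj cj)
open Pool.Agent.PWV (ZC ZI Dim zcl pm)
open Pool.Agent.HIR

noncomputable section
namespace Pool.Agent.CS

section
variable {M N K L : ℕ} {A : Set (Amb M)} {A' : Set (Amb N)} {A'' : Set (Amb K)}
  {π : Amb N → Amb M} {π' : Amb K → Amb N}

theorem Mod.maps (h : Mod A' A π) : MapsTo π A' A := fun _ hx => h.im ▸ mem_image_of_mem π hx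

theorem mod_id (h : Irr A) : Mod A A id :=
  ⟨h, h, ag_id h.pa, hp_id, image_id A, ∅, pa_empty, fun s => h.ne.ne_empty (subset_empty_iff.1 s),
    fun _ _ _ _ e => e⟩

theorem Mod.comp (h : Mod A' A π) (h' : Mod A'' A' π') : Mod A'' A (π ∘ π') := by
  obtain ⟨S, hS, hn, hi⟩ := h.inj
  obtain ⟨S', hS', hn', hi'⟩ := h'.inj
  have hT : PA (π '' (A' ∩ S')) := h.ag.image (h.irr'.pa.inter hS') inter_subset_left
  refine ⟨h'.irr', h.irr, h.ag.comp h'.ag h'.maps, h.hp.comp h'.hp h'.maps,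
    by rw [image_comp, h'.im, h.im], S ∪ π '' (A' ∩ S'), hS.union hT, fun s => ?_, ?_⟩
  · rcases h.irr.irr _ _ hS hT s with s | s
    · exact hn s
    · have : A' ⊆ (A' ∩ π ⁻¹' S) ∪ S' := fun x hx => by
        by_cases c : π x ∈ S
        · exact Or.inl ⟨hx, c⟩
        · obtain ⟨y, hy, e⟩ := s (h.maps hx)
          have : y = x := hi ⟨hy.1, fun k => c (e ▸ k)⟩ ⟨hx, c⟩ e
          exact Or.inr (this ▸ hy.2)
      rcases h.irr'.irr _ _ (h.ag.preimage hS) hS' this with t | t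
      · refine hn fun a ha => ?_
        obtain ⟨x, hx, rfl⟩ := h.im.ge ha
        exact (t hx).2
      · exact hn' t
  · intro x hx y hy e
    have e' : π' x = π' y :=
      hi ⟨h'.maps hx.1, fun k => hx.2 (Or.inl k)⟩ ⟨h'.maps hy.1, fun k => hy.2 (Or.inl k)⟩ e
    exact hi' ⟨hx.1, fun k => hx.2 (Or.inr ⟨_, ⟨h'.maps hx.1, k⟩, rfl⟩)⟩
      ⟨hy.1, fun k => hy.2 (Or.inr ⟨_, ⟨h'.maps hy.1, k⟩, rfl⟩)⟩ e'

/-- `g'` lifts `g` through `π`. -/
structure Lft (B : Set (Amb K)) (A' : Set (Amb N)) (π : Amb N → Amb M) (g : Amb K → Amb M)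
    (g' : Amb K → Amb N) : Prop where
  ag : AG B g'
  hp : HP B g'
  maps : MapsTo g' B A'
  eq : ∀ x ∈ B, π (g' x) = g x

theorem Lft.comp {B : Set (Amb K)} {B' : Set (Amb L)} {g : Amb K → Amb M} {g' : Amb K → Amb N}
    {ρ : Amb L → Amb K} (h : Lft B A' π g g') (h' : Mod B' B ρ) :
    Lft B' A' π (g ∘ ρ) (g' ∘ ρ) :=
  ⟨h.ag.comp h'.ag h'.maps, h.hp.comp h'.hp h'.maps, h.maps.comp h'.maps,
    fun _ hx => h.eq _ (h'.maps hx)⟩

theorem Mod.uniq (h : Mod A' A π) {B : Set (Amb K)} (hB : Irr B) {g : Amb K → Amb M}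
    (hg : AG B g) (hs : g '' B = A) {g1 g2 : Amb K → Amb N} (c1 : ContinuousOn g1 B)
    (c2 : ContinuousOn g2 B) (m1 : MapsTo g1 B A') (m2 : MapsTo g2 B A')
    (e1 : ∀ x ∈ B, π (g1 x) = g x) (e2 : ∀ x ∈ B, π (g2 x) = g x) : EqOn g1 g2 B := by
  obtain ⟨S, hS, hn, hi⟩ := h.inj
  refine EqOn.of_subset_closure (s := B \ (B ∩ g ⁻¹' S)) (fun x hx => ?_) c1 c2 sdiff_subset
    (hB.dense (hg.preimage hS) fun s => hn fun a ha => ?_)
  · have c : g x ∉ S := fun k => hx.2 ⟨hx.1, k⟩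
    exact hi ⟨m1 hx.1, fun k => c (e1 x hx.1 ▸ k)⟩ ⟨m2 hx.1, fun k => c (e2 x hx.1 ▸ k)⟩
      ((e1 x hx.1).trans (e2 x hx.1).symm)
  · obtain ⟨x, hx, rfl⟩ := hs.ge ha
    exact (s hx).2

theorem Mod.lift1 (h : Mod A' A π) {B : Set (Amb K)} (hB : Irr B) {g : Amb K → Amb M}
    (hg : AG B g) (hs : g '' B = A) :
    ∃ (L : ℕ) (B' : Set (Amb L)) (ρ : Amb L → Amb K) (g' : Amb L → Amb N),
      Mod B' B ρ ∧ Lft B' A' π (g ∘ ρ) g' := by
  obtain ⟨S, hS, hn, hi⟩ := h.inj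
  have hR : AR fun x u => x ∈ B ∧ u ∈ A' ∧ π u = g x :=
    (hg.ar.comp h.ag.ar.swap).congr fun x u =>
      ⟨fun k => ⟨g x, ⟨k.1, rfl⟩, k.2⟩, fun ⟨_, k, k'⟩ => ⟨k.1, k'.1, k'.2.trans k.2.symm⟩⟩
  have pt : ∀ s ∈ Sgr fun x u => x ∈ B ∧ u ∈ A' ∧ π u = g x,
      (ptr K N s ∈ B ∧ ptr2 K N s ∈ A' ∧ π (ptr2 K N s) = g (ptr K N s)) ∧
        s = seg (ptr K N s) (ptr2 K N s) := by
    rintro _ ⟨x, u, k, rfl⟩
    rw [ptr_seg (hR.1 _ _ k).1 (hR.1 _ _ k).2, ptr2_seg (hR.1 _ _ k).1 (hR.1 _ _ k).2]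
    exact ⟨k, rfl⟩
  obtain ⟨s, hs1, hs2, hs3⟩ := hR.sgr.comps
  have sub : ∀ W ∈ s, W ⊆ Sgr fun x u => x ∈ B ∧ u ∈ A' ∧ π u = g x :=
    fun W hW => hs3 ▸ subset_sUnion_of_mem hW
  obtain ⟨W, hW, hBW⟩ := hB.sub_biUnion hs1 (A := fun W => ptr K N '' W)
    (fun W hW => hR.ag_ptr.image (hs2 W hW).pa (sub W hW)) fun x hx => by
      obtain ⟨u, hu, e⟩ := h.im.ge (hs.le (mem_image_of_mem g hx))
      have k : x ∈ B ∧ u ∈ A' ∧ π u = g x := ⟨hx, hu, e⟩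
      obtain ⟨W, hW, hx'⟩ := hs3.ge (⟨x, u, k, rfl⟩ : seg x u ∈ Sgr _)
      exact mem_biUnion hW ⟨_, hx', ptr_seg (hR.1 _ _ k).1 (hR.1 _ _ k).2⟩
  refine ⟨K * N, W, ptr K N, ptr2 K N, ⟨hs2 W hW, hB, hR.ag_ptr.mono (hs2 W hW).pa (sub W hW),
    hR.hp_ptr.mono (sub W hW), Subset.antisymm ?_ hBW, B ∩ g ⁻¹' S, hg.preimage hS,
    fun t => hn fun a ha => ?_, fun x hx y hy e => ?_⟩,
    hR.ag_ptr2.mono (hs2 W hW).pa (sub W hW), hR.hp_ptr2.mono (sub W hW),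
    fun x hx => (pt x (sub W hW hx)).1.2.1, fun x hx => (pt x (sub W hW hx)).1.2.2⟩
  · rintro _ ⟨x, hx, rfl⟩
    exact (pt x (sub W hW hx)).1.1
  · obtain ⟨x, hx, rfl⟩ := hs.ge ha
    exact (t hx).2
  · obtain ⟨⟨a1, a2, a3⟩, a4⟩ := pt x (sub W hW hx.1)
    obtain ⟨⟨b1, b2, b3⟩, b4⟩ := pt y (sub W hW hy.1)
    have : ptr2 K N x = ptr2 K N y :=
      hi ⟨a2, fun k => hx.2 ⟨a1, show g _ ∈ S from a3 ▸ k⟩⟩
        ⟨b2, fun k => hy.2 ⟨b1, show g _ ∈ S from b3 ▸ k⟩⟩ (by rw [a3, b3, e])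
    rw [a4, b4, e, this]

end

/-- A resolution of `X`. -/
structure Rsl {N : ℕ} (X : Set (Amb N)) where
  e : ℕ
  M : ℕ
  Y : Set (Amb M)
  ph : Amb M → Amb N
  mf : Mf e Y
  md : Mod Y X ph

theorem Dia.lifts {ι : Type} [Preorder ι] (C : Dia ι) (hC : ∀ i, Irr (C.X i))
    (hf : ∀ i j, i ≤ j → C.f i j '' C.X i = C.X j) (R : ∀ i, Rsl (C.X i)) (a : ι) (t : Finset ι) :
    ∃ (L : ℕ) (B : Set (Amb L)) (ρ : Amb L → Amb (C.M a)), Mod B (C.X a) ρ ∧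
      ∀ j ∈ t, a ≤ j → ∃ g, Lft B (R j).Y (R j).ph (C.f a j ∘ ρ) g := by
  classical
  induction t using Finset.induction_on with
  | empty => exact ⟨_, _, _, mod_id (hC a), by simp⟩
  | insert b t _ ih =>
    obtain ⟨L, B, ρ, h1, h2⟩ := ih
    by_cases c : a ≤ b
    · obtain ⟨L', B', ρ', g', h3, h4⟩ := (R b).md.lift1 h1.irr' ((C.ag a b c).comp h1.ag h1.maps)
        (by rw [image_comp, h1.im, hf a b c])
      refine ⟨L', B', ρ ∘ ρ', h1.comp h3, fun j hj l => ?_⟩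
      rcases Finset.mem_insert.1 hj with rfl | hj
      · exact ⟨g', h4⟩
      · obtain ⟨g, hg⟩ := h2 j hj l
        exact ⟨_, hg.comp h3⟩
    · refine ⟨L, B, ρ, h1, fun j hj l => ?_⟩
      rcases Finset.mem_insert.1 hj with rfl | hj
      · exact absurd l c
      · exact h2 j hj l

theorem Dia.lift0 {ι : Type} [PartialOrder ι] (C : Dia ι) (hC : ∀ i, Irr (C.X i))
    (hf : ∀ i j, i ≤ j → C.f i j '' C.X i = C.X j) (s : Finset ι) :
    ∃ R : ∀ i, Rsl (C.X i), ∀ i ∈ s, ∀ j ∈ s, i < j →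
      ∃ g, Lft (R i).Y (R j).Y (R j).ph (C.f i j ∘ (R i).ph) g := by
  classical
  induction s using Finset.strongInduction with
  | H s ih =>
    rcases s.eq_empty_or_nonempty with rfl | hs
    · refine ⟨fun i => Classical.choice ?_, by simp⟩
      obtain ⟨e, M, Y, ph, h1, h2⟩ := (hC i).res
      exact ⟨⟨e, M, Y, ph, h1, h2⟩⟩
    obtain ⟨a, ha⟩ := s.exists_minimal hs
    obtain ⟨R, hR⟩ := ih (s.erase a) (Finset.erase_ssubset ha.1)
    obtain ⟨L, B, ρ, h1, h2⟩ := C.lifts hC hf R a s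
    obtain ⟨e, M, Y, ph, h3, h4⟩ := h1.irr'.res
    refine ⟨Function.update R a ⟨e, M, Y, ρ ∘ ph, h3, h1.comp h4⟩, fun i hi j hj l => ?_⟩
    have hja : j ≠ a := fun k => by
      subst k
      exact l.not_ge (ha.2 hi l.le)
    rw [Function.update_of_ne hja]
    by_cases c : i = a
    · subst c
      rw [Function.update_self]
      obtain ⟨g, hg⟩ := h2 j hj l.le
      exact ⟨_, hg.comp h4⟩
    · rw [Function.update_of_ne c]
      exact hR i (Finset.mem_erase.2 ⟨c, hi⟩) j (Finset.mem_erase.2 ⟨hja, hj⟩) l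

theorem Dia.lift {ι : Type} [Finite ι] [PartialOrder ι] (C : Dia ι) (hC : ∀ i, Irr (C.X i))
    (hf : ∀ i j, i ≤ j → C.f i j '' C.X i = C.X j) :
    ∃ (Y : Dia ι) (e : ι → ℕ) (ph : ∀ i, Amb (Y.M i) → Amb (C.M i)),
      (∀ i, Mf (e i) (Y.X i) ∧ Mod (Y.X i) (C.X i) (ph i)) ∧
      ∀ i j, i ≤ j → HP (Y.X i) (Y.f i j) ∧ ∀ y ∈ Y.X i, ph j (Y.f i j y) = C.f i j (ph i y) := by
  have := Fintype.ofFinite ι
  obtain ⟨R, hR⟩ := C.lift0 hC hf Finset.univ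
  have ex : ∀ i j, ∃ g, i ≤ j → Lft (R i).Y (R j).Y (R j).ph (C.f i j ∘ (R i).ph) g := by
    intro i j
    by_cases l : i ≤ j
    · rcases l.eq_or_lt with rfl | l
      · exact ⟨_root_.id, fun _ => ⟨ag_id (R i).md.irr'.pa, hp_id, mapsTo_id _,
          fun x hx => (C.id i _ ((R i).md.maps hx)).symm⟩⟩
      · obtain ⟨g, hg⟩ := hR i (Finset.mem_univ _) j (Finset.mem_univ _) l
        exact ⟨g, fun _ => hg⟩
    · exact ⟨fun _ => 0, fun k => absurd k l⟩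
  choose g hg using ex
  have un : ∀ i j, i ≤ j → ∀ g', ContinuousOn g' (R i).Y → MapsTo g' (R i).Y (R j).Y →
      (∀ x ∈ (R i).Y, (R j).ph (g' x) = C.f i j ((R i).ph x)) → EqOn g' (g i j) (R i).Y :=
    fun i j l g' c m e => (R j).md.uniq (R i).md.irr'
      ((C.ag i j l).comp (R i).md.ag (R i).md.maps) (by rw [image_comp, (R i).md.im, hf i j l])
      c (hg i j l).ag.cont m (hg i j l).maps e (hg i j l).eq
  refine ⟨⟨fun i => (R i).M, fun i => (R i).Y, g, fun i j l => (hg i j l).ag,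
    fun i j l => (hg i j l).maps, fun i x hx => ?_, fun i j k l l' x hx => ?_⟩, fun i => (R i).e,
    fun i => (R i).ph, fun i => ⟨(R i).mf, (R i).md⟩, fun i j l => ⟨(hg i j l).hp, (hg i j l).eq⟩⟩
  · exact (un i i le_rfl _root_.id continuousOn_id (mapsTo_id _)
      (fun y hy => (C.id i _ ((R i).md.maps hy)).symm) hx).symm
  · refine un i k (l.trans l') (g j k ∘ g i j)
      ((hg j k l').ag.cont.comp (hg i j l).ag.cont (hg i j l).maps)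
      ((hg j k l').maps.comp (hg i j l).maps) (fun y hy => ?_) hx
    rw [Function.comp_apply, (hg j k l').eq _ ((hg i j l).maps hy), Function.comp_apply,
      (hg i j l).eq y hy, Function.comp_apply, C.comp i j k l l' _ ((R i).md.maps hy)]

end Pool.Agent.CS
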