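import Pool.Agent.P.MP_d34769_ag.YSC

/-! Tautness, excision, acyclic fibres, homotopy invariance. -/

open Set Topology unitInterval

noncomputable section
namespace Pool.Agent.CS.AS
variable {X Y : Type} [TopologicalSpace X] [TopologicalSpace Y] [CompactSpace X] [T2Space X]
  [CompactSpace Y] [T2Space Y] {K A : Set X} {K' A' : Set Y} {n : ℤ} {φ : AS X} {g : X → Y}

theorem sc_mor (g : C(X, Y)) : (sc Y).Mor ((sc X).push g) (pl g) 0 where
  fG n x hx := by rw [add_zero]; exact pull_mem_G g hx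
  fz t x hx := (sc X).mem_zz.2 fun s hs => z_pull g.continuous.continuousAt
    (by obtain rfl : g s = t := hs; exact hx)
  fd t x := Cx.meq (zero_mem _) (sub_eq_zero.2 (pull_d g x)).symm

/-- VB: a map that is a quasi-isomorphism on the fibres -/
theorem vb (hg : Continuous g) (hK : IsClosed K') (hA : IsClosed A')
    (h : ∀ t ∈ K' \ A', (CP {t} ∅).QI (CP (g ⁻¹' {t}) ∅) (pl g) 0 n) :
    (CP K' A').QI (CP (g ⁻¹' K') (g ⁻¹' A')) (pl g) 0 n := by
  have := SC.soft_qi (n := n) (sc_mor ⟨g, hg⟩) hK hA fun t ht => by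
    rw [SC.push_cx]; exact h t ht
  rwa [SC.push_cx] at this

theorem vba (hg : Continuous g) (hK : IsClosed K') (hA : IsClosed A')
    (h : ∀ t ∈ K' \ A', (CP {t} ∅).QIa (CP (g ⁻¹' {t}) ∅) (pl g) 0) :
    (CP K' A').QIa (CP (g ⁻¹' K') (g ⁻¹' A')) (pl g) 0 :=
  fun n => vb hg hK hA fun t ht => h t ht n

/-- EXC: a map that is bijective over `K' \ A'` -/
theorem exc (hg : Continuous g) (hK : IsClosed K') (hA : IsClosed A')
    (h : ∀ t ∈ K' \ A', ∃! x, g x = t) :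
    (CP K' A').QIa (CP (g ⁻¹' K') (g ⁻¹' A')) (pl g) 0 := by
  refine vba hg hK hA fun t ht => ?_
  obtain ⟨x, rfl, hx⟩ := h t ht
  have : g ⁻¹' {g x} = {x} := Set.ext fun y => ⟨hx y, fun e => congrArg g e⟩
  rw [this]
  exact stalk_qia g x

/-- EXC with the preimages named -/
theorem exc' (hg : Continuous g) (hK : IsClosed K') (hA : IsClosed A')
    (h : ∀ t ∈ K' \ A', ∃! x, g x = t) (eK : g ⁻¹' K' = K) (eA : g ⁻¹' A' = A) :
    (CP K' A').QIa (CP K A) (pl g) 0 := eK ▸ eA ▸ exc hg hK hA h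

/-- TAUT for an injective map -/
theorem taut (hg : Continuous g) (hi : Function.Injective g) (hK : IsClosed K') (hA : IsClosed A')
    (h : K' \ A' ⊆ range g) : (CP K' A').QIa (CP (g ⁻¹' K') (g ⁻¹' A')) (pl g) 0 :=
  exc hg hK hA fun _ ht => (h ht).imp fun _ e => ⟨e, fun _ e' => hi (e'.trans e.symm)⟩

theorem taut_range (hg : Continuous g) (hi : Function.Injective g) (hA : IsClosed A') :
    (CP (range g) A').QIa (CP univ (g ⁻¹' A')) (pl g) 0 := by
  have := taut hg hi (isCompact_range hg).isClosed hA sdiff_subset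
  rwa [preimage_range] at this

theorem taut_range0 (hg : Continuous g) (hi : Function.Injective g) :
    (CP (range g) ∅).QIa (CC X) (pl g) 0 := taut_range hg hi isClosed_empty

theorem taut_image (hg : Continuous g) (hi : Function.Injective g) (hK : IsClosed K)
    (hA : IsClosed A) : (CP (g '' K) (g '' A)).QIa (CP K A) (pl g) 0 :=
  exc' hg (hK.isCompact.image hg).isClosed (hA.isCompact.image hg).isClosed
    (fun _ ⟨⟨x, _, e⟩, _⟩ => ⟨x, e, fun _ e' => hi (e'.trans e.symm)⟩)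
    (preimage_image_eq _ hi) (preimage_image_eq _ hi)

/-- TAUT for a closed subspace -/
theorem taut_val (K : Set X) [CompactSpace K] (hA : IsClosed A) :
    (CP K A).QIa (CP univ (Subtype.val ⁻¹' A : Set K)) (pl Subtype.val) 0 := by
  have := taut_range (g := (Subtype.val : K → X)) continuous_subtype_val Subtype.val_injective hA
  rwa [Subtype.range_val] at this

/-- maps that agree on `K` induce the same map -/
theorem eqOn_B {f : X → Y} (hf : Continuous f) (hg : Continuous g) (hK : IsClosed K)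
    (hA : IsClosed A) (e : EqOn f g K) (fK : MapsTo f K K') (fA : MapsTo f A A')
    (gA : MapsTo g A A') {ψ : AS Y} (h : ψ ∈ (CP K' A').Z n) :
    pull f ψ - pull g ψ ∈ (CP K A).B n := by
  have := isCompact_iff_compactSpace.1 hK.isCompact
  refine (taut_val K hA).inj n _ (sub_mem (Cx.Zcast ((pull_mor hf fK fA).mem_Z h) (add_zero n))
    (Cx.Zcast ((pull_mor hg (fK.congr e) gA).mem_Z h) (add_zero n))) (Cx.meq (zero_mem _) ?_)
  have : f ∘ (Subtype.val : K → X) = g ∘ Subtype.val := funext fun x => e x.2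
  show 0 = pull _ (pull f ψ - pull g ψ)
  rw [map_sub, pull_pull, pull_pull, this, sub_self]

omit [TopologicalSpace X] [CompactSpace X] [T2Space X] in
theorem d_val (φ : AS X) (x : X) : (d φ).1 [x] = 0 := by
  rw [coe_d]; simp [LA.da_cons]

theorem B_val (h : φ ∈ (CP K A).B n) {x : X} (hx : x ∈ K) : φ.1 [x] = 0 := by
  obtain ⟨b, -, e⟩ := mem_cp_B.1 h
  simpa [d_val] using z_val (e x hx)

omit [TopologicalSpace X] [CompactSpace X] [T2Space X] [TopologicalSpace Y] [CompactSpace Y]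
  [T2Space Y] in
theorem val_smul_one_G (h : φ ∈ G X n) (x : X) : φ.1 [x] • (1 : AS Y) ∈ G Y n := by
  by_cases hn : n = 0
  · subst hn; exact Submodule.smul_mem _ _ one_mem_G
  · rw [mem_G.1 h [x] (by simp; omega), zero_smul]; exact zero_mem _

omit [TopologicalSpace X] [CompactSpace X] [T2Space X] in
theorem val_smul_one_Z (h : φ ∈ G X n) (x : X) : φ.1 [x] • (1 : AS Y) ∈ (CP K' ∅).Z n :=
  mem_cp_Z.2 ⟨⟨val_smul_one_G h x, by simp⟩, fun t _ => by
    rw [map_smul, d_one, smul_zero]; exact zero_mem _⟩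

/-- the set `K` has the cohomology of a point -/
def Acy (K : Set X) : Prop :=
  K.Nonempty ∧ ∀ n, ∀ φ ∈ (CP K ∅).Z n, ∃ c : ℂ, φ - c • 1 ∈ (CP K ∅).B n

theorem Acy.spec (h : Acy K) (hφ : φ ∈ (CP K ∅).Z n) {x : X} (hx : x ∈ K) :
    φ - φ.1 [x] • 1 ∈ (CP K ∅).B n := by
  obtain ⟨c, e⟩ := h.2 n φ hφ
  have : φ.1 [x] = c := by simpa [val_one, sub_eq_zero] using B_val e hx
  rwa [this]

theorem Acy.ac (h : Acy K) (hn : n ≠ 0) : (CP K ∅).Ac n := fun φ hφ => by
  obtain ⟨x, hx⟩ := h.1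
  have := h.spec hφ hx
  rwa [mem_G.1 (mem_cp_Z.1 hφ).1.1 [x] (by simp; omega), zero_smul, sub_zero] at this

theorem acy_singleton (x : X) : Acy {x} := ⟨⟨x, rfl⟩, fun _ _ h => ⟨_, stalk_B h⟩⟩

theorem Acy.qia (h : Acy K) (h' : Acy K') (hK : MapsTo g K K') :
    (CP K' ∅).QIa (CP K ∅) (pl g) 0 := by
  obtain ⟨x, hx⟩ := h.1
  refine Cx.qia_iff.2 fun n => ⟨fun ψ hψ e => ?_, fun φ hφ => ?_⟩
  · have := h'.spec hψ (hK hx)
    rwa [show ψ.1 [g x] = 0 from B_val (φ := pull g ψ) e hx, zero_smul, sub_zero] at this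
  · rw [add_zero] at hφ ⊢
    exact ⟨_, val_smul_one_Z (mem_cp_Z.1 hφ).1.1 x, by simpa using h.spec hφ hx⟩

theorem Acy.of_inj (h : Acy K) (hg : Continuous g) (hK : MapsTo g K K')
    (q : ∀ n, (CP K' ∅).Inj (CP K ∅) (pl g) 0 n) : Acy K' := by
  obtain ⟨x, hx⟩ := h.1
  refine ⟨⟨_, hK hx⟩, fun n ψ hψ => ⟨ψ.1 [g x], q n _
    (sub_mem hψ (val_smul_one_Z (mem_cp_Z.1 hψ).1.1 _)) ?_⟩⟩
  simpa using h.spec ((pull_mor hg hK (mapsTo_empty _ _)).mem_Z hψ) hx

theorem Acy.of_sur (h : Acy K') (hg : Continuous g) (hK : MapsTo g K K') (hne : K.Nonempty)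
    (q : ∀ n, (CP K' ∅).Sur (CP K ∅) (pl g) 0 n) : Acy K := by
  refine ⟨hne, fun n φ hφ => ?_⟩
  obtain ⟨ψ, hψ, e⟩ := q n φ (Cx.Zcast hφ (add_zero n).symm)
  obtain ⟨y, hy⟩ := h.1
  have := (pull_mor hg hK (mapsTo_empty _ _)).mem_B
    (sub_mem hψ (val_smul_one_Z (mem_cp_Z.1 hψ).1.1 y)).1 (h.spec hψ hy)
  exact ⟨ψ.1 [y], by simpa using add_mem e this⟩

theorem Acy.image (h : Acy K) (hK : IsClosed K) (hg : Continuous g) (hi : Function.Injective g) :
    Acy (g '' K) := h.of_inj hg (mapsTo_image _ _) fun n => by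
  simpa using (taut_image hg hi hK isClosed_empty).inj n

theorem Acy.range (h : Acy (univ : Set X)) (hg : Continuous g) (hi : Function.Injective g) :
    Acy (range g) := image_univ (f := g) ▸ h.image isClosed_univ hg hi

theorem acy_val_iff (K : Set X) [CompactSpace K] : Acy (univ : Set K) ↔ Acy K := by
  refine ⟨fun h => ?_, fun h => h.of_sur continuous_subtype_val (fun x _ => x.2)
    (h.1.to_subtype.elim fun x => ⟨x, trivial⟩) (taut_val K isClosed_empty).sur⟩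
  simpa using h.range continuous_subtype_val Subtype.val_injective

/-- VB for acyclic fibres -/
theorem vb_acy (hg : Continuous g) (hK : IsClosed K') (hA : IsClosed A')
    (h : ∀ t ∈ K' \ A', Acy (g ⁻¹' {t})) :
    (CP K' A').QIa (CP (g ⁻¹' K') (g ⁻¹' A')) (pl g) 0 :=
  vba hg hK hA fun t ht => (h t ht).qia (acy_singleton t) fun _ h => h

/-- an acyclic set is exact relative to an acyclic subset -/
theorem Acy.ac_rel (h : Acy K) (h' : Acy A) (hA : A ⊆ K) (n : ℤ) : (CP K A).Ac n := by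
  intro φ hφ
  obtain ⟨x, hx⟩ := h'.1
  rw [mem_cp_Z] at hφ
  have := h.spec (mem_cp_Z.2 ⟨⟨hφ.1.1, by simp⟩, hφ.2⟩) (hA hx)
  rw [z_val (hφ.1.2 x hx), zero_smul, sub_zero] at this
  obtain ⟨b, hb, e⟩ := mem_cp_B.1 this
  obtain ⟨u, hu, e'⟩ := mem_cp_B.1 (h'.spec (φ := b) (mem_cp_Z.2 ⟨⟨hb.1, by simp⟩, fun t ht =>
    Cx.meq (sub_mem (hφ.1.2 t ht) (e t (hA ht))) (sub_sub_cancel _ _)⟩) hx)
  refine mem_cp_B.2 ⟨_, ⟨sub_mem (sub_mem hb.1 (val_smul_one_G hb.1 x))
    (by simpa using d_mem_G hu.1), e'⟩, fun t ht => ?_⟩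
  rw [map_sub, map_sub, map_smul, d_one, d_d, smul_zero, sub_zero, sub_zero]
  exact e t ht

theorem acy_of_rel (h' : Acy A) (hA : A ⊆ K) (h : ∀ n, (CP K A).Ac n) : Acy K := by
  refine h'.of_inj continuous_id hA fun n φ hφ e => ?_
  have e : pull id φ ∈ (CP A ∅).B (n + 0) := e
  rw [pull_id, add_zero] at e
  obtain ⟨b, hb, e⟩ := mem_cp_B.1 e
  rw [mem_cp_Z] at hφ
  obtain ⟨u, hu, e'⟩ := mem_cp_B.1 (h n (mem_cp_Z.2 ⟨⟨sub_mem hφ.1.1
    (by simpa using d_mem_G hb.1), e⟩, fun t ht => by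
      rw [map_sub, d_d, sub_zero]; exact hφ.2 t ht⟩))
  exact mem_cp_B.2 ⟨b + u, ⟨add_mem hb.1 hu.1, by simp⟩, fun t ht =>
    Cx.meq (e' t ht) (by rw [map_add, sub_sub])⟩

theorem ac_I (n : ℤ) : (CP (univ : Set I) {0}).Ac n := by
  intro φ hφ
  rw [mem_cp_Z] at hφ
  let P : I → Prop := fun s => ∃ b, (b ∈ G I (n - 1) ∧ b ∈ z (0 : I)) ∧ ∀ t ∈ Iic s, φ - d b ∈ z t
  have mono : ∀ s t, s ≤ t → P t → P s := fun s t h ⟨b, hb, e⟩ =>
    ⟨b, hb, fun u hu => e u (le_trans hu h)⟩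
  have lc : IsLocallyConstant P := by
    refine (IsLocallyConstant.iff_eventually_eq P).2 fun s => ?_
    obtain ⟨b', hb', e'⟩ := mem_cp_B.1 (stalk_B (x := s) (mem_cp_Z.2 ⟨⟨hφ.1.1, by simp⟩,
      fun t _ => hφ.2 t trivial⟩))
    let O := {t | φ - φ.1 [s] • 1 - d b' ∈ z t}
    have up : ∀ t u, t ≤ u → Icc t u ⊆ O → P t → P u := by
      rintro t u htu hO ⟨b, hb, e⟩
      have h1 := hO ⟨le_rfl, htu⟩
      have h2 := e t (mem_Iic.2 le_rfl)
      have h0 : φ.1 [s] = 0 := by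
        simpa [d_val, val_one] using z_val (sub_mem h2 h1)
      have hO : ∀ v ∈ Icc t u, φ - d b' ∈ z v := fun v hv => by simpa [O, h0] using hO hv
      obtain ⟨w, hw, e1⟩ := mem_cp_B.1 (stalk_B (x := t) (φ := b - b') (n := n - 1)
        (mem_cp_Z.2 ⟨⟨sub_mem hb.1 hb'.1, by simp⟩, fun v hv => by
          obtain rfl : v = t := hv
          exact Cx.meq (sub_mem (hO v ⟨le_rfl, htu⟩) h2) (by rw [map_sub]; abel)⟩))
      have hG : b - b' - (b - b').1 [t] • 1 - d w ∈ G I (n - 1) :=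
        sub_mem (sub_mem (sub_mem hb.1 hb'.1) (val_smul_one_G (sub_mem hb.1 hb'.1) t))
          (by simpa using d_mem_G hw.1)
      obtain ⟨c, hc, c1, c2⟩ := (sc I).glue (Iic t) (Icc t u) isClosed_Iic isClosed_Icc (n - 1) _
        hG fun v hv => e1 v (le_antisymm hv.1 hv.2.1)
      refine ⟨b - (b - b' - (b - b').1 [t] • 1 - d w) + c, ⟨add_mem (sub_mem hb.1 hG) hc, ?_⟩,
        fun v hv => ?_⟩
      · exact Cx.meq (add_mem hb.2 (c1 0 (mem_Iic.2 t.2.1))) (by abel)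
      · rcases le_total v t with h | h
        · exact Cx.meq (sub_mem (e v h) (z_d (c1 v h))) (by simp only [map_sub, map_add]; abel)
        · refine Cx.meq (sub_mem (hO v ⟨h, hv⟩) (z_d (c2 v ⟨h, hv⟩))) ?_
          simp only [map_sub, map_add, map_smul, d_one, d_d, smul_zero]
          abel
    have hO : O ∈ 𝓝 s := (z_open _).mem_nhds (e' s rfl)
    filter_upwards [ordConnectedComponent_mem_nhds.2 hO] with t ht
    have ht : uIcc s t ⊆ O := ht
    rcases le_total s t with h | h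
    · exact propext ⟨mono s t h, up s t h (by rwa [uIcc_of_le h] at ht)⟩
    · exact propext ⟨up t s h (by rwa [uIcc_of_ge h] at ht), mono t s h⟩
  have p0 : P 0 := ⟨0, ⟨zero_mem _, zero_mem _⟩, fun t ht => by
    obtain rfl : t = 0 := le_antisymm ht bot_le
    simpa using hφ.1.2 0 rfl⟩
  obtain ⟨b, hb, e⟩ : P 1 := lc.apply_eq_of_preconnectedSpace 0 1 ▸ p0
  exact mem_cp_B.2 ⟨b, ⟨hb.1, fun t ht => ht ▸ hb.2⟩, fun t _ => e t (mem_Iic.2 t.2.2)⟩

/-- the interval is acyclic -/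
theorem acy_I : Acy (univ : Set I) := acy_of_rel (acy_singleton 0) (subset_univ _) ac_I

/-- the projection from a product with an acyclic factor -/
theorem fst_qia (h : Acy (univ : Set Y)) (hK : IsClosed K) (hA : IsClosed A) :
    (CP K A).QIa (CP (Prod.fst ⁻¹' K : Set (X × Y)) (Prod.fst ⁻¹' A)) (pl Prod.fst) 0 := by
  refine vb_acy continuous_fst hK hA fun t _ => ?_
  have := h.range (g := Prod.mk t) (by fun_prop) (Prod.mk_right_injective t)
  rwa [show range (Prod.mk t : Y → X × Y) = Prod.fst ⁻¹' {t} from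
    Set.ext fun ⟨a, b⟩ => by simp [eq_comm]] at this

/-- HTPY with an acyclic space of parameters -/
theorem hty_acy {P : Type} [TopologicalSpace P] [CompactSpace P] [T2Space P]
    (hP : Acy (univ : Set P)) {F : P → X → Y} (hF : Continuous fun p : X × P => F p.2 p.1)
    (hK : IsClosed K) (hA : IsClosed A) (FK : ∀ s, MapsTo (F s) K K')
    (FA : ∀ s, MapsTo (F s) A A') {ψ : AS Y} (h : ψ ∈ (CP K' A').Z n) (s t : P) :
    pull (F s) ψ - pull (F t) ψ ∈ (CP K A).B n := by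
  have h1 := (pull_mor (K := Prod.fst ⁻¹' K) (A := Prod.fst ⁻¹' A) hF (fun p hp => FK p.2 hp)
    (fun p hp => FA p.2 hp)).mem_Z h
  obtain ⟨u, hu, e⟩ := (fst_qia hP hK hA).sur n _ h1
  have key : ∀ s, pull (F s) ψ - u ∈ (CP K A).B n := fun s => by
    have := (pull_mor (g := fun x => (x, s)) (K := K) (A := A) (K' := Prod.fst ⁻¹' K)
      (A' := Prod.fst ⁻¹' A) (by fun_prop) (fun _ h => h) fun _ h => h).mem_B
      (sub_mem h1 ((pull_mor continuous_fst (fun _ h => h) fun _ h => h).mem_Z hu)).1 e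
    rw [add_zero, add_zero] at this
    refine Cx.meq this ?_
    show pull _ (pull _ ψ - pull _ u) = _
    rw [map_sub, pull_pull, pull_pull]
    exact congrArg₂ _ rfl (pull_id u)
  exact Cx.meq (sub_mem (key s) (key t)) (sub_sub_sub_cancel_right _ _ _)

/-- HTPY -/
theorem hty {F : I → X → Y} (hF : Continuous fun p : X × I => F p.2 p.1)
    (hK : IsClosed K) (hA : IsClosed A) (FK : ∀ s, MapsTo (F s) K K')
    (FA : ∀ s, MapsTo (F s) A A') {ψ : AS Y} (h : ψ ∈ (CP K' A').Z n) :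
    pull (F 0) ψ - pull (F 1) ψ ∈ (CP K A).B n := hty_acy acy_I hF hK hA FK FA h 0 1

/-- HTPY with a real parameter -/
theorem htyR {F : ℝ → X → Y} (hF : Continuous fun p : X × I => F p.2 p.1)
    (hK : IsClosed K) (hA : IsClosed A) (FK : ∀ s ∈ Icc (0 : ℝ) 1, MapsTo (F s) K K')
    (FA : ∀ s ∈ Icc (0 : ℝ) 1, MapsTo (F s) A A') {ψ : AS Y} (h : ψ ∈ (CP K' A').Z n) :
    pull (F 0) ψ - pull (F 1) ψ ∈ (CP K A).B n :=
  hty (F := fun s : I => F s) hF hK hA (fun s => FK s s.2) (fun s => FA s s.2) h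

/-- a pair that deforms into the small set is exact -/
theorem ac_of_deform {F : I → X → X} (hF : Continuous fun p : X × I => F p.2 p.1)
    (hK : IsClosed K) (hA : IsClosed A) (FK : ∀ s, MapsTo (F s) K K) (FA : ∀ s, MapsTo (F s) A A)
    (F0 : ∀ x ∈ K, F 0 x = x) (F1 : MapsTo (F 1) K A) (n : ℤ) : (CP K A).Ac n := fun φ hφ => by
  have hc : ∀ s, Continuous (F s) := fun s => hF.comp (f := fun x => (x, s)) (by fun_prop)
  have h0 := eqOn_B continuous_id (hc 0) hK hA (fun x hx => (F0 x hx).symm) (mapsTo_id _)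
    (mapsTo_id _) (FA 0) hφ
  have h2 : pull (F 1) φ ∈ (CP K A).B n := Cx.N_le_B (mem_cp_N.2 fun t ht =>
    z_pull (hc 1).continuousAt ((mem_cp_Z.1 hφ).1.2 _ (F1 ht)))
  rw [pull_id] at h0
  exact Cx.meq (add_mem (add_mem h0 (hty hF hK hA FK FA hφ)) h2) (by abel)

/-- a contractible set is acyclic -/
theorem acy_of_contr {F : I → X → X} (hF : Continuous fun p : X × I => F p.2 p.1)
    (hK : IsClosed K) (FK : ∀ s, MapsTo (F s) K K) (F0 : ∀ x ∈ K, F 0 x = x) {x₀ : X}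
    (F1 : ∀ x ∈ K, F 1 x = x₀) (h₀ : x₀ ∈ K) : Acy K := by
  refine ⟨⟨x₀, h₀⟩, fun n φ hφ => ⟨φ.1 [x₀], ?_⟩⟩
  have hc : ∀ s, Continuous (F s) := fun s => hF.comp (f := fun x => (x, s)) (by fun_prop)
  have h0 := eqOn_B continuous_id (hc 0) hK isClosed_empty (fun x hx => (F0 x hx).symm)
    (mapsTo_id _) (mapsTo_id _) (mapsTo_empty _ _) hφ
  have h1 := hty hF hK isClosed_empty FK (fun _ => mapsTo_empty _ _) hφ
  have hx : φ ∈ (CP {x₀} ∅).Z n := mem_cp_Z.2 ⟨(mem_cp_Z.1 hφ).1, fun t ht =>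
    (mem_cp_Z.1 hφ).2 t (ht ▸ h₀)⟩
  have h2 := (pull_mor (K := K) (K' := {x₀}) (hc 1) F1 (mapsTo_empty _ _)).mem_B
    (sub_mem hx (val_smul_one_Z (mem_cp_Z.1 hφ).1.1 x₀)).1 (stalk_B hx)
  rw [pull_id] at h0
  rw [add_zero] at h2
  exact Cx.meq (add_mem (add_mem h0 h1) h2) (by simp)

/-- a compact star-convex set is acyclic -/
theorem acy_star {V : Type} [AddCommGroup V] [Module ℝ V] [TopologicalSpace V]
    [IsTopologicalAddGroup V] [ContinuousSMul ℝ V] [T2Space V] {s : Set V} [CompactSpace s]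
    {v : V} (hv : v ∈ s) (h : StarConvex ℝ v s) : Acy (univ : Set s) := by
  refine acy_of_contr (F := fun t x => ⟨(t : ℝ) • v + (1 - t : ℝ) • x.1,
    h x.2 t.2.1 (sub_nonneg.2 t.2.2) (by ring)⟩) (by fun_prop) isClosed_univ
    (fun _ => mapsTo_univ _ _) (fun x _ => by simp) (x₀ := ⟨v, hv⟩) (fun x _ => by simp) trivial

end Pool.Agent.CS.AS
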