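import Pool.Agent.P.MP_d34769_ag.YD60
import Pool.Agent.P.MP_d34769_ag.YS1

/-! Diagrams of sets: comparison with `Acy`, fibres, cones. -/

open Set Topology

noncomputable section
namespace Pool.Agent.CS

section rs
variable {ι κ : Type} {V : ι → Type} {W : κ → Type} {X : ∀ i, Set (V i)} {Y : ∀ j, Set (W j)}

/-- restriction of cochains to subsets -/
def rs (X : ∀ i, Set (V i)) : (∀ i, AS (V i)) →ₗ[ℂ] ∀ i, AS (X i) :=
  LinearMap.piMap fun i => AS.pl ((↑) : X i → V i)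

theorem rs_apply (c : ∀ i, AS (V i)) (i : ι) : rs X c i = AS.pull ((↑) : X i → V i) (c i) := rfl

/-- a matrix of pull-backs -/
def mx [Fintype κ] (μ : ι → κ → ℤ) (f : ∀ i j, V i → W j) (c : ∀ j, AS (W j)) (i : ι) : AS (V i) :=
  ∑ j, (μ i j : ℂ) • AS.pull (f i j) (c j)

theorem mat_rs [Fintype κ] {R : ι → κ → Prop} {μ : ι → κ → ℤ} (g : ∀ {i j}, R i j → X i → Y j)
    (f : ∀ i j, V i → W j) (hg : ∀ {i j} (h : R i j) x, (g h x).1 = f i j x.1)
    (sup : ∀ i j, μ i j ≠ 0 → R i j) (c : ∀ j, AS (W j)) :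
    mat (T := fun i => AS (X i)) (T' := fun j => AS (Y j)) μ (fun {_ _} h => AS.pl (g h)) (rs Y c) =
      rs X (mx μ f c) := by
  funext i
  rw [mat_apply, rs_apply, mx, map_sum]
  refine Finset.sum_congr rfl fun j _ => ?_
  split_ifs with h
  · rw [map_smul, AS.pull_pull, rs_apply]
    exact congrArg _ ((AS.pull_pull _ _ _).trans (congrArg (AS.pull · _) (funext (hg h))))
  · rw [by_contra fun e => h (sup i j e), Int.cast_zero, zero_smul, map_zero]

theorem rs_mx_mx [Fintype κ] {κ' : Type} [Fintype κ'] {U : κ' → Type} {μ : ι → κ → ℤ}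
    {μ' : κ → κ' → ℤ} {f : ∀ i j, V i → W j} {f' : ∀ j k, W j → U k} (g : ∀ i k, V i → U k)
    (h : ∀ i j k, μ i j ≠ 0 → μ' j k ≠ 0 → ∀ x ∈ X i, f' j k (f i j x) = g i k x)
    (c : ∀ k, AS (U k)) :
    rs X (mx μ f (mx μ' f' c)) = rs X (mx (fun i k => ∑ j, μ i j * μ' j k) g c) := by
  funext i
  simp only [rs_apply, mx, map_sum, map_smul, Finset.smul_sum, Int.cast_sum, Finset.sum_smul,
    smul_smul, AS.pull_pull, ← Int.cast_mul]
  rw [Finset.sum_comm]
  refine Finset.sum_congr rfl fun k _ => Finset.sum_congr rfl fun j _ => ?_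
  by_cases e : μ i j * μ' j k = 0
  · rw [e, Int.cast_zero, zero_smul, zero_smul]
  · exact congrArg _ (congrArg (AS.pull · _) (funext fun x =>
      h i j k (left_ne_zero_of_mul e) (right_ne_zero_of_mul e) x.1 x.2))

theorem exists_rs {n : ι → ℤ} {y : ∀ i, AS (X i)} (h : ∀ i, y i ∈ AS.G _ (n i)) :
    ∃ c, (∀ i, c i ∈ AS.G _ (n i)) ∧ rs X c = y := by
  have : ∀ i, ∃ ψ ∈ AS.G (V i) (n i), AS.pull ((↑) : X i → V i) ψ = y i := fun i => by
    rcases isEmpty_or_nonempty (X i) with e | e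
    · refine ⟨0, zero_mem _, AS.ext fun l => ?_⟩
      cases l with
      | nil => simp
      | cons a _ => exact e.elim a
    · obtain ⟨ρ, hρ⟩ := (Subtype.val_injective (p := (· ∈ X i))).hasLeftInverse
      exact ⟨AS.pull ρ (y i), AS.pull_mem_G _ (h i), by
        rw [AS.pull_pull, hρ.comp_eq_id, AS.pull_id]⟩
  choose c h1 h2 using this
  exact ⟨c, h1, funext h2⟩

end rs

/-- the restriction of a map -/
def rm {V W : Type} [TopologicalSpace V] [TopologicalSpace W] {X : Set V} {Y : Set W} {f : V → W}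
    (hc : ContinuousOn f X) (h : MapsTo f X Y) : C(X, Y) := ⟨h.restrict f X Y, hc.mapsToRestrict h⟩

variable {S S' : Sh}

section setd
variable {V : S.ι → Type} [∀ i, TopologicalSpace (V i)] {V' : S'.ι → Type}
  [∀ i, TopologicalSpace (V' i)]

/-- a diagram of compact subsets -/
structure SetD (S : Sh) {V : S.ι → Type} [∀ i, TopologicalSpace (V i)] (X : ∀ i, Set (V i))
    (f : ∀ i j, V i → V j) : Prop where
  cpt : ∀ i, IsCompact (X i)
  cont : ∀ {i j}, S.rel i j → ContinuousOn (f i j) (X i)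
  maps : ∀ {i j}, S.rel i j → MapsTo (f i j) (X i) (X j)
  comp : ∀ {i j k}, S.rel i j → S.rel j k → ∀ x ∈ X i, f j k (f i j x) = f i k x

/-- a map of diagrams of subsets -/
structure SetH (φ : ShH S S') (X : ∀ i, Set (V i)) (f : ∀ i j, V i → V j) (X' : ∀ i, Set (V' i))
    (f' : ∀ i j, V' i → V' j) (g : ∀ i j, V i → V' j) : Prop where
  cont : ∀ {i j}, φ.R i j → ContinuousOn (g i j) (X i)
  maps : ∀ {i j}, φ.R i j → MapsTo (g i j) (X i) (X' j)
  gl : ∀ {i i' j}, S.rel i i' → φ.R i' j → ∀ x ∈ X i, g i' j (f i i' x) = g i j x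
  gr : ∀ {i j j'}, φ.R i j → S'.rel j j' → ∀ x ∈ X i, f' j j' (g i j x) = g i j' x

variable [∀ i, T2Space (V i)] [∀ i, T2Space (V' i)] {X : ∀ i, Set (V i)} {f : ∀ i j, V i → V j}
  {X' : ∀ i, Set (V' i)} {f' : ∀ i j, V' i → V' j} {g : ∀ i j, V i → V' j} {φ : ShH S S'}
  {c : ∀ i, AS (V i)} {n : ℤ}

/-- the diagram of spaces -/
def SetD.dg (h : SetD S X f) : Dg S where
  X i := X i
  cpt i := isCompact_iff_compactSpace.1 (h.cpt i)
  mp r := rm (h.cont r) (h.maps r)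
  comp r r' x := Subtype.ext (h.comp r r' x.1 x.2)

/-- the total complex -/
abbrev SetD.cx (h : SetD S X f) : Cx h.dg.T := (Dg.bc (⊤ : h.dg.Fam) ⊥).cx

/-- restriction of cochains -/
def SetD.r (h : SetD S X f) : (∀ i, AS (V i)) →ₗ[ℂ] h.dg.T := rs X

/-- the map of diagrams of spaces -/
def SetH.hom (k : SetH φ X f X' f' g) (h : SetD S X f) (h' : SetD S' X' f') :
    Dg.Hom φ h.dg h'.dg where
  g r := rm (k.cont r) (k.maps r)
  gl r r' x := Subtype.ext (k.gl r r' x.1 x.2)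
  gr r r' x := Subtype.ext (k.gr r r' x.1 x.2)

theorem SetH.mor (k : SetH φ X f X' f' g) (h : SetD S X f) (h' : SetD S' X' f') :
    h'.cx.Mor h.cx (k.hom h h').map 0 :=
  ((k.hom h h').mor (fun _ => mapsTo_univ _ _) fun _ => mapsTo_empty _ _).cx

theorem SetH.map_r (k : SetH φ X f X' f' g) (h : SetD S X f) (h' : SetD S' X' f')
    (c : ∀ i, AS (V' i)) : (k.hom h h').map (h'.r c) = h.r (mx φ.μ g c) :=
  mat_rs (X := X) (Y := X') (fun {i j} r => (k.maps r).restrict (g i j) _ _) g (fun _ _ => rfl) (fun i j e => (φ.sup i j e).1) c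

theorem SetD.d_r (h : SetD S X f) (c : ∀ i, AS (V i)) :
    h.cx.d (h.r c) = h.r (DJ Finset.univ f S.ε c) := by
  funext i
  have e1 := congrFun (mat_rs (X := X) (Y := X) (fun {i j} r => (h.maps r).restrict (f i j) _ _) f
    (fun _ _ => rfl) (fun i j e => (S.sup i j e).1) c) i
  have e2 : rs X (DJ Finset.univ f S.ε c) i =
      AS.d (rs X c i) + (AS.gc _).s (rs X (mx S.ε f c) i) := by
    rw [rs_apply, DJ_apply, map_add, AS.pull_d, pull_s]; rfl
  rw [← e1] at e2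
  exact e2.symm

theorem SetD.r_N (h : SetD S X f) : h.r c ∈ h.cx.N ↔ ∀ i, c i ∈ nul (X i) :=
  (Dg.mem_N (A := ⊥)).trans (forall_congr' fun _ => (SC.mem_zz _).trans
    ⟨fun a => mem_nul.2 fun x => a x (mem_univ _), fun a x _ => mem_nul.1 a x⟩)

theorem SetD.mem_G (h : SetD S X f) {y : h.dg.T} :
    y ∈ h.cx.G n ↔ ∀ i, y i ∈ AS.G _ (n - S.deg i) :=
  Dg.mem_cx_G.trans (forall_congr' fun _ => mem_CP_G.trans (and_iff_left fun _ h => h.elim))

theorem SetD.r_G (h : SetD S X f) (hc : ∀ i, c i ∈ AS.G _ (n - S.deg i)) : h.r c ∈ h.cx.G n :=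
  h.mem_G.2 fun i => AS.pull_mem_G _ (hc i)

theorem SetD.sur_G (h : SetD S X f) {y : h.dg.T} (hy : y ∈ h.cx.G n) :
    ∃ c, (∀ i, c i ∈ AS.G _ (n - S.deg i)) ∧ h.r c = y := exists_rs (X := X) (h.mem_G.1 hy)

theorem SetD.r_Z (h : SetD S X f) (hc : ∀ i, c i ∈ AS.G _ (n - S.deg i)) :
    h.r c ∈ h.cx.Z n ↔ ∀ i, DJ Finset.univ f S.ε c i ∈ nul (X i) := by
  rw [Cx.mem_Z, h.d_r, h.r_N, and_iff_right (h.r_G hc)]

theorem SetD.r_B (h : SetD S X f) : h.r c ∈ h.cx.B n ↔ ∃ b : ∀ i, AS (V i),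
    (∀ i, b i ∈ AS.G _ (n - 1 - S.deg i)) ∧ ∀ i, c i - DJ Finset.univ f S.ε b i ∈ nul (X i) := by
  rw [Cx.mem_B]
  constructor
  · rintro ⟨y, hy, e⟩
    obtain ⟨b, hb, rfl⟩ := h.sur_G hy
    rw [h.d_r, ← map_sub] at e
    exact ⟨b, hb, h.r_N.1 e⟩
  · rintro ⟨b, hb, e⟩
    exact ⟨_, h.r_G hb, by rw [h.d_r, ← map_sub]; exact h.r_N.2 e⟩

theorem SetD.acy (h : SetD S X f) : Acy Finset.univ X f S.deg S.ε ↔ ∀ n, h.cx.Ac n := by
  simp only [Acy, Finset.mem_univ, true_imp_iff]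
  refine forall_congr' fun n => ⟨fun a y hy => ?_, fun a c hc hD => h.r_B.1 (a ((h.r_Z hc).2 hD))⟩
  obtain ⟨c, hc, rfl⟩ := h.sur_G hy.1
  exact h.r_B.2 (a c hc ((h.r_Z hc).1 hy))

theorem SetD.fib (h : SetD S X f) {W : Type} [TopologicalSpace W] [T2Space W] (p : ∀ i, V i → W)
    (hp : ∀ i, ContinuousOn (p i) (X i))
    (hf : ∀ {i j}, S.rel i j → ∀ x ∈ X i, p j (f i j x) = p i x)
    (a : ∀ t, Acy Finset.univ (fun i => X i ∩ p i ⁻¹' {t}) f S.deg S.ε) :
    Acy Finset.univ X f S.deg S.ε := by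
  let B : Set W := ⋃ i, p i '' X i
  have : CompactSpace B := isCompact_iff_compactSpace.1
    (isCompact_iUnion fun i => (h.cpt i).image_of_continuousOn (hp i))
  let O : Dg.Ov h.dg B := ⟨fun i => rm (hp i) fun x hx => mem_iUnion.2 ⟨i, x, hx, rfl⟩,
    fun r x => Subtype.ext (hf r x.1 x.2)⟩
  refine h.acy.2 fun n => O.acf Dg.Fam.cl_top Dg.Fam.cl_bot (fun t k _ => ?_) n le_rfl
  have h' : SetD S (fun i => X i ∩ p i ⁻¹' {t.1}) f :=
    ⟨fun i => (h.cpt i).of_isClosed_subset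
      ((hp i).preimage_isClosed_of_isClosed (h.cpt i).isClosed isClosed_singleton) inter_subset_left,
      fun r => (h.cont r).mono inter_subset_left,
      fun r x hx => ⟨h.maps r hx.1, (hf r x hx.1).trans hx.2⟩,
      fun r r' x hx => h.comp r r' x hx.1⟩
  let g : ∀ i, C(h'.dg.X i, h.dg.X i) := fun i => ⟨inclusion inter_subset_left,
    continuous_inclusion _⟩
  have e : ∀ i, (⊤ ⊓ O.fam {t} : h.dg.Fam).A i = range (g i) := fun i => Set.ext fun x =>
    ⟨fun hx => ⟨⟨x.1, x.2, congrArg Subtype.val hx.2⟩, rfl⟩,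
      fun ⟨y, hy⟩ => ⟨trivial, hy ▸ Subtype.ext y.2.2⟩⟩
  have m : (Dg.bc (⊤ ⊓ O.fam {t}) ⊥).Mor (Dg.bc (⊤ : h'.dg.Fam) ⊥) (Dg.dpl g) 0 :=
    Dg.Com.mor (fun _ _ => rfl) (fun i x _ => e i ▸ mem_range_self x) fun _ => mapsTo_empty _ _
  have q := Bc.filta_cx m fun p n => Dg.dpl_col_qi p fun i _ => by
    simp only [e, Dg.Fam.top_A, Dg.Fam.bot_A]
    exact taut_inj (g i) (inclusion_injective inter_subset_left) n
  exact Cx.Ac.of_inj (q.inj k) m.cx (h'.acy.1 (a t.1) (k + 0))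

end setd

section ok
variable {A : Type} {V : A → Type} [∀ a, TopologicalSpace (V a)] [∀ a, T2Space (V a)]
  {J : Finset A} {X : ∀ a, Set (V a)} {f : ∀ a b, V a → V b} {deg : A → ℕ} {ε : A → A → ℤ}
  {rel : A → A → Prop}

/-- a diagram with exact fibres is exact -/
theorem Ok.fib (ok : Ok J X f deg ε rel) {W : Type} [TopologicalSpace W] [T2Space W]
    (p : ∀ a, V a → W) (hp : ∀ a ∈ J, ContinuousOn (p a) (X a))
    (hf : ∀ a ∈ J, ∀ b ∈ J, rel a b → ∀ x ∈ X a, p b (f a b x) = p a x)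
    (h : ∀ t, Acy J (fun a => X a ∩ p a ⁻¹' {t}) f deg ε) : Acy J X f deg ε := by
  let S : Sh := ⟨J, fun a => deg a, fun a b => rel a b, fun a b => ε a b,
    fun a b => ok.sup a a.2 b b.2, ok.trans _ _ _, fun a c =>
      (J.sum_coe_sort fun b => ε a b * ε b c).trans (ok.εε a a.2 c c.2)⟩
  have e : ∀ Y : ∀ a, Set (V a), Acy Finset.univ (fun a : J => Y a) (fun a b => f a b) S.deg S.ε ↔
      Acy J Y f deg ε := fun Y =>
    acy_iff Subtype.val 0 Subtype.val_injective.injOn (fun a _ => a.2) (fun _ _ => rfl)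
      (fun _ _ => (add_zero _).symm) (fun _ _ _ _ => rfl)
      (fun a ha h => (h ⟨⟨a, ha⟩, by simp, rfl⟩).elim)
      fun _ _ a ha h => (h ⟨⟨a, ha⟩, by simp, rfl⟩).elim
  exact (e X).1 (SetD.fib (S := S) (V := fun a : J => V a) (X := fun a : J => X a)
    (f := fun a b : J => f a b) ⟨fun a => ok.cpt a a.2,
    fun {a b} => ok.cont a a.2 b b.2, fun {a b} => ok.maps a a.2 b b.2,
    fun {a b c} => ok.comp a a.2 b b.2 c c.2⟩ (fun a => p a) (fun a => hp a a.2)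
    (fun {a b} => hf a a.2 b b.2) fun t => (e fun a => X a ∩ p a ⁻¹' {t}).2 (h t))

end ok

section cone

/-- the coefficients of the cone -/
def ShH.cε (φ : ShH S S') : S.ι ⊕ S'.ι → S.ι ⊕ S'.ι → ℤ
  | .inl i, .inl j => S.ε i j
  | .inl i, .inr j => φ.μ i j
  | .inr _, .inl _ => 0
  | .inr i, .inr j => -S'.ε i j

/-- the degrees of the cone -/
def cdeg (S S' : Sh) : S.ι ⊕ S'.ι → ℕ
  | .inl i => S.deg i + 1
  | .inr i => S'.deg i

theorem ShH.cεε (φ : ShH S S') (u w : S.ι ⊕ S'.ι) : ∑ v, φ.cε u v * φ.cε v w = 0 := by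
  rcases u with u | u <;> rcases w with w | w <;>
    simp [Fintype.sum_sum_type, ShH.cε, S.εε, S'.εε, φ.comm]

variable {φ : ShH S S'} {V : S.ι ⊕ S'.ι → Type} [∀ u, TopologicalSpace (V u)] [∀ u, T2Space (V u)]
  {X : ∀ u, Set (V u)} {f : ∀ u v, V u → V v}

theorem cone_qia (h : SetD S (fun i => X (.inl i)) fun i j => f (.inl i) (.inl j))
    (h' : SetD S' (fun i => X (.inr i)) fun i j => f (.inr i) (.inr j))
    (k : SetH φ (fun i => X (.inl i)) (fun i j => f (.inl i) (.inl j)) (fun i => X (.inr i))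
      (fun i j => f (.inr i) (.inr j)) fun i j => f (.inl i) (.inr j))
    (ac : Acy Finset.univ X f (cdeg S S') φ.cε) : h'.cx.QIa h.cx (k.hom h h').map 0 := by
  have el : ∀ (w : ∀ u, AS (V u)) i, DJ Finset.univ f φ.cε w (.inl i) =
      DJ Finset.univ (fun i j => f (.inl i) (.inl j)) S.ε (fun i => w (.inl i)) i +
      mx φ.μ (fun i j => f (.inl i) (.inr j)) (fun j => (AS.gc _).s (w (.inr j))) i := by
    intro w i
    simp only [DJ_apply, Fintype.sum_sum_type, ShH.cε, mx, map_add, map_sum, map_smul, pull_s,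
      add_assoc]
  have er : ∀ (w : ∀ u, AS (V u)) i, DJ Finset.univ f φ.cε w (.inr i) = -(AS.gc _).s
      (DJ Finset.univ (fun i j => f (.inr i) (.inr j)) S'.ε (fun j => (AS.gc _).s (w (.inr j))) i) := by
    intro w i
    simp [DJ_apply, Fintype.sum_sum_type, ShH.cε, pull_s, Gc.ds, Gc.ss, add_comm]
  simp only [Acy, Finset.mem_univ, true_imp_iff, Sum.forall, el, er, cdeg, Nat.cast_add,
    Nat.cast_one] at ac
  refine Cx.qia_iff.2 fun n => ⟨fun x hZ hB => ?_, fun y hZ => ?_⟩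
  · obtain ⟨x, hx, rfl⟩ := h'.sur_G hZ.1
    have hD := (h'.r_Z hx).1 hZ
    rw [k.map_r, add_zero] at hB
    obtain ⟨b, hb, e⟩ := h.r_B.1 hB
    obtain ⟨u, hu, -, hu'⟩ := ac n (Sum.rec (fun i => -b i) fun j => (AS.gc _).s (x j))
      ⟨fun i => by rw [← sub_sub]; exact neg_mem (by simpa [sub_right_comm] using hb i),
        fun j => s_mem_G (hx j)⟩
      ⟨fun i => by
        simp only [Gc.ss]
        rw [show (fun i => -b i) = -b from rfl, map_neg, Pi.neg_apply, neg_add_eq_sub]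
        exact e i, fun j => by simp only [Gc.ss]; exact neg_mem (nul_s (hD j))⟩
    refine h'.r_B.2 ⟨-fun j => (AS.gc _).s (u (.inr j)), fun j => neg_mem (s_mem_G (hu.2 j)),
      fun j => ?_⟩
    simpa [Gc.ss] using nul_s (hu' j)
  · rw [add_zero] at hZ ⊢
    obtain ⟨y, hy, rfl⟩ := h.sur_G hZ.1
    have hD := (h.r_Z hy).1 hZ
    obtain ⟨u, hu, hu', hu''⟩ := ac (n + 1) (Sum.rec y fun _ => 0)
      ⟨fun i => by rw [add_sub_add_right_eq_sub]; exact hy i, fun j => zero_mem _⟩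
      ⟨fun i => by simpa [mx] using hD i, fun j => by simp [DJ_apply]⟩
    refine ⟨h'.r fun j => (AS.gc _).s (u (.inr j)), (h'.r_Z fun j => s_mem_G (by
      simpa using hu.2 j)).2 fun j => by simpa [Gc.ss] using nul_s (hu'' j), ?_⟩
    rw [k.map_r, ← map_sub]
    refine h.r_B.2 ⟨fun i => u (.inl i), fun i => ?_, fun i => ?_⟩
    · have := hu.1 i
      rwa [show n + 1 - 1 - (S.deg i + 1) = n - 1 - S.deg i by ring] at this
    · rw [Pi.sub_apply, sub_sub, add_comm]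
      exact hu' i

end cone

end Pool.Agent.CS
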