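import Pool.Agent.P.MP_d34769_ag.YD61
import Pool.Agent.P.MP_d34769_ag.YD2

/-! Cubical hyperresolutions: the data and the inductive step. -/

open Set Topology
open Pool.Agent.HT (Amb)
open Pool.Agent.HIR (Mf HolP)

noncomputable section
namespace Pool.Agent.CS

/-- augmented shapes -/
structure Cu where
  S : Type
  [fin : Fintype S]
  [ord : PartialOrder S]
  [top : OrderTop S]
  deg : S → ℕ
  ε : S → S → ℤ
  sup : ∀ s t, ε s t ≠ 0 → s ≤ t ∧ deg s = deg t + 1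
  εε : ∀ s u, ∑ t, ε s t * ε t u = 0
  deg0 : ∀ s, deg s = 0 ↔ s = ⊤

attribute [instance] Cu.fin Cu.ord Cu.top

/-- the point -/
def Cu.pt : Cu where
  S := Unit
  deg _ := 0
  ε _ _ := 0
  sup _ _ h := (h rfl).elim
  εε _ _ := by simp
  deg0 _ := by simp

theorem Cu.ε_eq (s : Cu) {t u : s.S} (h : s.deg t ≠ s.deg u + 1) : s.ε t u = 0 :=
  by_contra fun e => h (s.sup t u e).2

theorem Cu.deg_top (s : Cu) : s.deg ⊤ = 0 := (s.deg0 _).2 rfl

theorem Cu.ε_top (s : Cu) (u : s.S) : s.ε ⊤ u = 0 := s.ε_eq (by rw [s.deg_top]; omega)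

open Classical in
/-- the product with an arrow -/
def Cu.succ (s : Cu) : Cu where
  S := Bool × s.S
  deg p := s.deg p.2 + if p.1 then 0 else 1
  ε p q := if p.1 = q.1 then s.ε p.2 q.2 else if q.1 ∧ p.2 = q.2 then (-1) ^ s.deg p.2 else 0
  sup := by
    rintro ⟨a, t⟩ ⟨b, u⟩ h
    split_ifs at h with h1 h2
    · obtain rfl : a = b := h1
      exact ⟨⟨le_rfl, (s.sup _ _ h).1⟩, by simp only [(s.sup _ _ h).2]; omega⟩
    · obtain ⟨rfl, rfl⟩ : b = true ∧ t = u := h2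
      exact ⟨⟨le_top, le_rfl⟩, by simp [show a = false by simpa using h1]⟩
    · exact (h rfl).elim
  εε := by
    rintro ⟨a, t⟩ ⟨b, u⟩
    cases a <;> cases b <;> simp [Fintype.sum_prod_type, s.εε]
    by_cases h : s.ε t u = 0
    · simp [h]
    · rw [(s.sup _ _ h).2]; ring
  deg0 := by
    rintro ⟨a, t⟩
    cases a <;> simp [s.deg0, Prod.ext_iff]

section ul
variable {A ι κ S : Type} [Preorder A] [Preorder ι] [Preorder κ] [PartialOrder S] [OrderTop S]

/-- unique lifting of relations -/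
structure UL (base : A → ι) (top : ι → A) (σ : A → S) : Prop where
  bt : ∀ i, base (top i) = i
  st : ∀ i, σ (top i) = ⊤
  ts : ∀ a, σ a = ⊤ → top (base a) = a
  mb : Monotone base
  ms : Monotone σ
  lift : ∀ a j t, base a ≤ j → σ a ≤ t → ∃! b, a ≤ b ∧ base b = j ∧ σ b = t

variable {base : A → ι} {top : ι → A} {σ : A → S} (h : UL base top σ) {a b c : A} {i j : ι}
include h

theorem UL.le_top (e : base a ≤ j) : a ≤ top j := by
  obtain ⟨b, ⟨h1, rfl, h2⟩, -⟩ := h.lift a j ⊤ e _root_.le_top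
  rwa [h.ts b h2]

theorem UL.mt : Monotone top := fun i _ e => h.le_top (by rwa [h.bt])

theorem UL.uniq (e : a ≤ b) (e' : a ≤ c) (h1 : base b = base c) (h2 : σ b = σ c) : b = c :=
  (h.lift a _ _ (h.mb e') (h.ms e')).unique ⟨e, h1, h2⟩ ⟨e', rfl, rfl⟩

theorem UL.top_le (e : top i ≤ b) : ∃ j, i ≤ j ∧ b = top j :=
  ⟨base b, by simpa [h.bt] using h.mb e, (h.ts b (top_unique (h.st i ▸ h.ms e))).symm⟩

theorem UL.inj : Function.Injective top := Function.LeftInverse.injective h.bt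

open Classical in
theorem UL.sum [Fintype A] [Fintype S] (a c : A) (j : ι) (w : S → ℤ)
    (hw : ∀ t, w t ≠ 0 → (base a ≤ j ∧ σ a ≤ t) ∧ j ≤ base c ∧ t ≤ σ c) :
    ∑ b, (if base b = j ∧ a ≤ b ∧ b ≤ c then w (σ b) else 0) = if a ≤ c then ∑ t, w t else 0 := by
  split_ifs with e
  · rw [← Finset.sum_filter]
    refine Finset.sum_of_injOn σ (fun b hb b' hb' e => ?_) (fun _ _ => by simp)
      (fun t _ ht => by_contra fun h0 => ht ?_) fun _ _ => rfl
    · simp only [Finset.coe_filter, Finset.mem_univ, true_and, mem_ofPred_eq] at hb hb'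
      exact h.uniq hb.2.1 hb'.2.1 (hb.1.trans hb'.1.symm) e
    · obtain ⟨b, ⟨h1, rfl, rfl⟩, -⟩ := h.lift a j t (hw t h0).1.1 (hw t h0).1.2
      obtain ⟨d, ⟨h2, h3, h4⟩, -⟩ := h.lift b _ _ (hw _ h0).2.1 (hw _ h0).2.2
      exact ⟨b, by simpa [h1] using h.uniq (h1.trans h2) e h3 h4 ▸ h2, rfl⟩
  · exact Finset.sum_eq_zero fun b _ => if_neg fun h1 => e (h1.2.1.trans h1.2.2)

theorem UL.comp {S' : Type} [PartialOrder S'] [OrderTop S'] {β : ι → κ} {τ : κ → ι} {sd : ι → S'}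
    (p : UL β τ sd) : UL (β ∘ base) (top ∘ τ) fun a => (sd (base a), σ a) where
  bt i := by simp [h.bt, p.bt]
  st i := Prod.ext (by simp [h.bt, p.st]) (h.st _)
  ts a e := by
    rw [Prod.ext_iff] at e
    simp [p.ts _ e.1, h.ts a e.2]
  mb := p.mb.comp h.mb
  ms := (p.ms.comp h.mb).prodMk h.ms
  lift a j t e e' := by
    obtain ⟨k, ⟨h1, rfl, h2⟩, h3⟩ := p.lift (base a) j t.1 e e'.1
    obtain ⟨b, ⟨h4, rfl, h5⟩, h6⟩ := h.lift a k t.2 h1 e'.2
    exact ⟨b, ⟨h4, rfl, Prod.ext h2 h5⟩, fun c hc => h6 c ⟨hc.1,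
      h3 _ ⟨h.mb hc.1, hc.2.1, congrArg Prod.fst hc.2.2⟩, congrArg Prod.snd hc.2.2⟩⟩

end ul

variable {A ι κ : Type} [Preorder A] [Preorder ι] [Preorder κ]

/-- change of the index set -/
def Dia.comap (T : Dia A) (r : ι → A) (h : Monotone r) : Dia ι where
  M i := T.M (r i)
  X i := T.X (r i)
  f i j := T.f (r i) (r j)
  ag _ _ e := T.ag _ _ (h e)
  maps _ _ e := T.maps _ _ (h e)
  id _ := T.id _
  comp _ _ _ e e' := T.comp _ _ _ (h e) (h e')

/-- restriction to subsets -/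
def Dia.res (G : Dia ι) (K : ∀ i, Set (Amb (G.M i))) (pa : ∀ i, PA (K i)) (sub : ∀ i, K i ⊆ G.X i)
    (maps : ∀ i j, i ≤ j → MapsTo (G.f i j) (K i) (K j)) : Dia ι where
  M := G.M
  X := K
  f := G.f
  ag i j e := (G.ag i j e).mono (pa i) (sub i)
  maps := maps
  id i x hx := G.id i x (sub i hx)
  comp i j k e e' x hx := G.comp i j k e e' x (sub i hx)

theorem Dia.pa (G : Dia ι) (i : ι) : PA (G.X i) := (G.ag i i le_rfl).pa

theorem Dia.closed (G : Dia ι) {i j : ι} (e : i ≤ j) {Z : Set (Amb (G.M j))} (hZ : IsClosed Z) :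
    IsClosed (G.X i ∩ G.f i j ⁻¹' Z) :=
  (G.ag i j e).cont.preimage_isClosed_of_isClosed (G.pa i).closed hZ

open Classical in
/-- the lifted coefficients -/
def lε (s : Cu) (σ : A → s.S) (a b : A) : ℤ := if a ≤ b then s.ε (σ a) (σ b) else 0

theorem lε_sup {s : Cu} {σ : A → s.S} {a b : A} (h : lε s σ a b ≠ 0) :
    a ≤ b ∧ s.deg (σ a) = s.deg (σ b) + 1 := by
  unfold lε at h
  split_ifs at h with e
  exacts [⟨e, (s.sup _ _ h).2⟩, (h rfl).elim]

variable [Fintype A]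

open Classical in
/-- the indices over `i` -/
def fibJ (base : A → ι) (i : ι) : Finset A := Finset.univ.filter (base · = i)

omit [Preorder A] [Preorder ι] in
@[simp] theorem mem_fibJ {base : A → ι} {i : ι} {a : A} : a ∈ fibJ base i ↔ base a = i := by
  simp [fibJ]

section
variable {s : Cu} {base : A → ι} {top : ι → A} {σ : A → s.S} (h : UL base top σ) (T : Dia A) (i : ι)
  {Z : Set (Amb (T.M (top i)))} (hZ : IsClosed Z)
include h hZ

theorem UL.ok : Ok (fibJ base i) (fun a => T.X a ∩ T.f a (top i) ⁻¹' Z) T.f (fun a => s.deg (σ a))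
    (lε s σ) (· ≤ ·) where
  cpt a ha := (T.pa a).compact.of_isClosed_subset (T.closed (h.le_top (mem_fibJ.1 ha).le) hZ)
    inter_subset_left
  sup _ _ _ _ := lε_sup
  trans _ _ _ := le_trans
  εε a ha c hc := by
    classical
    have := h.sum a c i (fun t => s.ε (σ a) t * s.ε t (σ c)) fun t e =>
      ⟨⟨(mem_fibJ.1 ha).le, (s.sup _ _ (left_ne_zero_of_mul e)).1⟩, (mem_fibJ.1 hc).ge,
        (s.sup _ _ (right_ne_zero_of_mul e)).1⟩
    rw [s.εε, ite_self] at this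
    rw [← this, fibJ, Finset.sum_filter]
    refine Finset.sum_congr rfl fun b _ => ?_
    by_cases h1 : base b = i <;> by_cases h2 : a ≤ b <;> by_cases h3 : b ≤ c <;>
      simp [lε, h1, h2, h3]
  cont a _ b _ e := (T.ag a b e).cont.mono inter_subset_left
  maps a _ b hb e y hy := ⟨T.maps a b e hy.1, by
    rw [mem_preimage, T.comp a b _ e (h.le_top (mem_fibJ.1 hb).le) y hy.1]; exact hy.2⟩
  comp a _ b _ c _ e e' y hy := T.comp a b c e e' y hy.1

theorem UL.acy (a : ∀ x, Acy (fibJ base i) (fun a => T.X a ∩ T.f a (top i) ⁻¹' {x}) T.f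
    (fun a => s.deg (σ a)) (lε s σ)) : Acy (fibJ base i) (fun a => T.X a ∩ T.f a (top i) ⁻¹' Z) T.f
    (fun a => s.deg (σ a)) (lε s σ) := by
  refine (h.ok T i hZ).fib (fun a => T.f a (top i))
    (fun a ha => (T.ag a _ (h.le_top (mem_fibJ.1 ha).le)).cont.mono inter_subset_left)
    (fun a _ b hb e y hy => T.comp a b _ e (h.le_top (mem_fibJ.1 hb).le) y hy.1) fun x => ?_
  by_cases hx : x ∈ Z
  · simpa only [inter_assoc, ← preimage_inter, inter_eq_right.2 (singleton_subset_iff.2 hx)]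
      using a x
  · exact acy_empty fun a _ => eq_empty_of_forall_notMem fun y hy => hx (hy.2 ▸ hy.1.2)

end

/-- `T` is a hyperresolution of its part over the top of the shape -/
structure HypD (s : Cu) (T : Dia A) (base : A → ι) (top : ι → A) (σ : A → s.S) : Prop where
  ul : UL base top σ
  mf : ∀ a, σ a ≠ ⊤ → ∃ e, Mf e (T.X a) ∧ ∀ b, a ≤ b → HolP e (T.X a) (T.f a b)
  acy : ∀ i x, Acy (fibJ base i) (fun a => T.X a ∩ T.f a (top i) ⁻¹' {x}) T.f
    (fun a => s.deg (σ a)) (lε s σ)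

/-- the diagram has a hyperresolution -/
def HypR (G : Dia ι) : Prop :=
  ∃ (s : Cu) (A : Type) (_ : Fintype A) (_ : PartialOrder A) (T : Dia A) (base : A → ι)
    (top : ι → A) (σ : A → s.S) (h : HypD s T base top σ), T.comap top h.ul.mt = G

/-- a resolution that is an isomorphism off `K` -/
structure Pre (G : Dia κ) (K : ∀ k, Set (Amb (G.M k))) (β : κ → ι) (τ : ι → κ) (sd : κ → Bool) :
    Prop where
  ul : UL β τ sd
  mf : ∀ k, sd k ≠ ⊤ → ∃ e, Mf e (G.X k) ∧ ∀ l, k ≤ l → HolP e (G.X k) (G.f k l)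
  pa : ∀ k, PA (K k)
  sub : ∀ k, K k ⊆ G.X k
  maps : ∀ k l, k ≤ l → MapsTo (G.f k l) (K k) (K l)
  pre : ∀ k i, β k = i → ∀ y ∈ G.X k, G.f k (τ i) y ∈ K (τ i) → y ∈ K k
  one : ∀ i, ∀ x ∈ G.X (τ i), x ∉ K (τ i) → ∃ k, β k = i ∧ sd k = false ∧
    (∃! y, y ∈ G.X k ∧ G.f k (τ i) y = x) ∧
    ∀ l, β l = i → sd l = false → l ≠ k → ∀ y ∈ G.X l, G.f l (τ i) y ≠ x

theorem hyp_zero {ι : Type} [Fintype ι] [PartialOrder ι] (G : Dia ι) (h : ∀ i, G.X i = ∅) :
    HypR G :=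
  ⟨.pt, ι, inferInstance, inferInstance, G, id, id, fun _ => ⊤,
    ⟨⟨fun _ => rfl, fun _ => rfl, fun _ _ => rfl, monotone_id, monotone_const,
      fun _ j _ e _ => ⟨j, ⟨e, rfl, rfl⟩, fun _ h => h.2.1⟩⟩, fun _ e => (e rfl).elim,
      fun _ _ => acy_empty fun a _ => by rw [h, empty_inter]⟩, rfl⟩

theorem hyp_step {G : Dia κ} {K : ∀ k, Set (Amb (G.M k))} {β : κ → ι} {τ : ι → κ} {sd : κ → Bool}
    (p : Pre G K β τ sd) (h : HypR (G.res K p.pa p.sub p.maps)) : HypR (G.comap τ p.ul.mt) := by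
  classical
  obtain ⟨s, A, _, _, T, base, top, σ, h, e⟩ := h
  obtain ⟨M, X, f, ag, maps, id, comp⟩ := G
  cases e
  obtain ⟨Y, e1, e2⟩ := exists_ext top (h.ul.inj.injOn (s := univ)) T.X X
  obtain rfl : X = fun k => Y (top k) := funext fun k => (e1 k trivial).symm
  have H : ∀ a, (∃ k, a = top k) ∨ σ a ≠ ⊤ ∧ Y a = T.X a := fun a =>
    or_iff_not_imp_left.2 fun e => ⟨fun e' => e ⟨_, (h.ul.ts a e').symm⟩,
      e2 a fun ⟨k, _, e'⟩ => e ⟨k, e'.symm⟩⟩
  have sub : ∀ a, T.X a ⊆ Y a := fun a => by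
    rcases H a with ⟨k, rfl⟩ | e
    exacts [p.sub k, e.2.ge]
  let U : Dia A := ⟨T.M, Y, T.f, fun a b e => by
      rcases H a with ⟨k, rfl⟩ | e'
      · obtain ⟨l, hl, rfl⟩ := h.ul.top_le e
        exact ag k l hl
      · exact e'.2 ▸ T.ag a b e, fun a b e => by
      rcases H a with ⟨k, rfl⟩ | e'
      · obtain ⟨l, hl, rfl⟩ := h.ul.top_le e
        exact maps k l hl
      · exact e'.2 ▸ (T.maps a b e).mono_right (sub b), fun a => by
      rcases H a with ⟨k, rfl⟩ | e'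
      exacts [id k, e'.2 ▸ T.id a], fun a b c e e' => by
      rcases H a with ⟨k, rfl⟩ | e''
      · obtain ⟨l, hl, rfl⟩ := h.ul.top_le e
        obtain ⟨m, hm, rfl⟩ := h.ul.top_le e'
        exact comp k l m hl hm
      · exact e''.2 ▸ T.comp a b c e e'⟩
  have ul := h.ul.comp p.ul
  refine ⟨s.succ, A, inferInstance, inferInstance, U, β ∘ base, top ∘ τ,
    fun a => (sd (base a), σ a), ⟨ul, fun a ha => ?_, fun i x => ?_⟩, rfl⟩
  · rcases H a with ⟨k, rfl⟩ | e'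
    · obtain ⟨e, h1, h2⟩ := p.mf k fun e => ha (Prod.ext ((congrArg sd (h.ul.bt k)).trans e)
        (h.ul.st k))
      refine ⟨e, h1, fun b hb => ?_⟩
      obtain ⟨l, hl, rfl⟩ := h.ul.top_le hb
      exact h2 l hl
    · exact (show U.X a = T.X a from e'.2) ▸ h.mf a e'.1
  have ok := UL.ok (s := s.succ) ul U i (isClosed_singleton (x := x))
  by_cases hx : x ∈ T.X (top (τ i))
  · refine ok.blk base (fun k => if sd k then 0 else 1) (fun a ha b hb e => ?_) fun k => ?_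
    · have h1 := h.ul.mb (lε_sup e).1
      by_cases h2 : sd (base a) = sd (base b)
      · exact .inl (p.ul.uniq le_rfl h1 ((mem_fibJ.1 ha).trans (mem_fibJ.1 hb).symm) h2)
      · have := (p.ul.ms h1).lt_of_ne h2
        rw [Bool.lt_iff] at this
        simp [this.1, this.2]
    by_cases hk : β k = i
    swap
    · refine acy_empty fun a ha => (hk ?_).elim
      obtain ⟨h1, rfl⟩ := Finset.mem_filter.1 ha
      exact (mem_fibJ (a := a)).1 h1
    have h0 : k ≤ τ i := p.ul.le_top hk.le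
    refine (acy_iff (fun a => a) (if sd k then 0 else 1) (injOn_id _)
      (fun a ha => mem_fibJ.2 (Finset.mem_filter.1 ha).2) (fun a ha => ?_) (fun a ha => ?_)
      (fun a ha b hb => ?_) (fun a ha e => (e ⟨a, ?_, rfl⟩).elim)
      fun _ _ a ha e => (e ⟨a, ?_, rfl⟩).elim).2
      (h.ul.acy T k (T.closed (h.ul.mt h0) (isClosed_singleton (x := x))) (h.acy k))
    · have h1 : a ≤ top k := h.ul.le_top (Finset.mem_filter.1 ha).2.le
      refine Set.ext fun y => ⟨fun hy => ?_, fun hy => ⟨sub a hy.1, ?_⟩⟩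
      · have h2 := (U.comp a _ _ h1 (h.ul.mt h0) y hy.1).trans hy.2
        have h3 := p.pre k i hk _ (U.maps a _ h1 hy.1) (h2 ▸ hx)
        refine ⟨?_, h3, h2⟩
        rcases H a with ⟨l, rfl⟩ | e
        · obtain rfl : l = k := (h.ul.bt l).symm.trans (Finset.mem_filter.1 ha).2
          exact id l y hy.1 ▸ h3
        · exact e.2 ▸ hy.1
      · exact (T.comp a _ _ h1 (h.ul.mt h0) y hy.1).symm.trans hy.2.2
    · simp [Cu.succ, (Finset.mem_filter.1 ha).2]
    · simp [lε, Cu.succ, (Finset.mem_filter.1 ha).2, (Finset.mem_filter.1 hb).2]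
    · simpa [mem_fibJ.1 ha] using hk
    · simpa [mem_fibJ.1 ha] using hk
  by_cases hx' : x ∈ Y (top (τ i))
  swap
  · exact acy_empty fun a ha => eq_empty_of_forall_notMem fun y hy =>
      hx' (hy.2 ▸ U.maps a _ (ul.le_top (mem_fibJ.1 ha).le) hy.1)
  obtain ⟨k, hk, h1, ⟨y, hy, h2⟩, h3⟩ := p.one i x hx' hx
  have h0 : ∀ a ∈ fibJ (β ∘ base) i, a ∉ (fun a => a) '' (({top k, top (τ i)} : Finset A) : Set A) →
      U.X a ∩ U.f a (top (τ i)) ⁻¹' {x} = ∅ := fun a ha e => eq_empty_of_forall_notMem fun v hv => by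
    have h4 := mem_fibJ.1 ha
    rcases H a with ⟨l, rfl⟩ | e'
    · rw [Function.comp_apply, h.ul.bt] at h4
      refine h3 l h4 (by_contra fun h5 => e ⟨_, ?_, rfl⟩) (fun h5 => e ⟨_, by simp [h5], rfl⟩) v
        hv.1 hv.2
      simp [← h4, p.ul.ts l (by simpa using h5)]
    · exact hx (hv.2 ▸ T.maps a _ (ul.le_top h4.le) (e'.2 ▸ hv.1))
  have hJ : ∀ a ∈ ({top k, top (τ i)} : Finset A), a ∈ fibJ (β ∘ base) i := by
    simp [h.ul.bt, p.ul.bt, hk]
  refine (acy_iff (fun a => a) 0 (injOn_id _) hJ (fun _ _ => rfl)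
    (fun _ _ => (add_zero _).symm) (fun _ _ _ _ => rfl) h0 fun a ha b hb e e' => ?_).1
    (acy_two (by simp [Cu.succ, h.ul.bt, h.ul.st, h1, p.ul.st]) (fun _ _ e => (lε_sup e).2) ?_
      (fun _ => y) continuousOn_const (fun _ _ => hy) (fun v hv => (h2 v hv).symm)
      fun v hv => hy.2.trans ((id _ v hv.1).symm.trans hv.2).symm)
  · exact eq_empty_of_forall_notMem fun v hv =>
      notMem_empty _ ((h0 b hb e).le (ok.maps a (hJ a ha) b hb (lε_sup e').1 hv))
  · simp [lε, Cu.succ, h.ul.bt, h.ul.st, h1, p.ul.st, h.ul.mt (p.ul.le_top hk.le)]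

end Pool.Agent.CS
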