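import Pool.Agent.P.MP_d34769_ag.YD62
import Pool.Agent.P.MP_d34769_ag.YD5b

/-! Every finite diagram of projective algebraic sets has a hyperresolution. -/

open Set Topology
open Pool.Agent.HT (Amb)
open Pool.Agent.HIR (Mf HolP)

noncomputable section
namespace Pool.Agent.CS

section cyl
variable {P ι : Type} [PartialOrder P] [PartialOrder ι]

/-- the cylinder of a monotone map -/
def Cyl (_ : P →o ι) : Type := P ⊕ ι

variable {β : P →o ι}

instance [Finite P] [Finite ι] : Finite (Cyl β) := inferInstanceAs (Finite (P ⊕ ι))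

/-- the order of the cylinder -/
def Cyl.le : Cyl β → Cyl β → Prop
  | .inl c, .inl d => c ≤ d
  | .inl c, .inr j => β c ≤ j
  | .inr _, .inl _ => False
  | .inr i, .inr j => i ≤ j

instance : PartialOrder (Cyl β) where
  le := Cyl.le
  le_refl := by rintro (a | a) <;> exact le_rfl
  le_trans := by
    rintro (a | a) (b | b) (c | c) h h' <;>
      first | exact h.elim | exact h'.elim | exact le_trans h h' | exact (β.mono h).trans h'
  le_antisymm := by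
    rintro (a | a) (b | b) h h' <;>
      first | exact h.elim | exact h'.elim | exact congrArg _ (le_antisymm h h')

theorem Cyl.ul (h : ∀ c j, β c ≤ j → ∃! d, c ≤ d ∧ β d = j) :
    UL (A := Cyl β) (Sum.elim β id) Sum.inr Sum.isRight where
  bt _ := rfl
  st _ := rfl
  ts := by
    rintro (a | a) e
    exacts [absurd e Bool.false_ne_true, rfl]
  mb := by
    rintro (a | a) (b | b) e
    exacts [β.mono e, e, e.elim, e]
  ms := by
    rintro (a | a) (b | b) e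
    exacts [le_rfl, le_top, e.elim, le_rfl]
  lift := by
    rintro a j (_ | _) e e'
    · rcases a with a | a
      · obtain ⟨d, h1, h2⟩ := h a j e
        refine ⟨.inl d, ⟨h1.1, h1.2, rfl⟩, ?_⟩
        rintro (b | b) hb
        exacts [congrArg _ (h2 b ⟨hb.1, hb.2.1⟩), by cases hb.2.2]
      · exact absurd (top_unique e') Bool.false_ne_true
    · refine ⟨.inr j, ⟨by rcases a with a | a <;> exact e, rfl, rfl⟩, ?_⟩
      rintro (b | b) hb
      exacts [absurd hb.2.2 Bool.false_ne_true, congrArg _ hb.2.1]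

/-- the cylinder of a map of diagrams -/
def Dia.cyl (Y : Dia P) (G : Dia ι) (β : P →o ι) (ph : ∀ c, Amb (Y.M c) → Amb (G.M (β c)))
    (ag : ∀ c, AG (Y.X c) (ph c)) (mp : ∀ c, MapsTo (ph c) (Y.X c) (G.X (β c)))
    (com : ∀ c d, c ≤ d → ∀ y ∈ Y.X c, ph d (Y.f c d y) = G.f (β c) (β d) (ph c y)) :
    Dia (Cyl β) where
  M := Sum.elim Y.M G.M
  X
    | .inl c => Y.X c
    | .inr i => G.X i
  f
    | .inl c, .inl d => Y.f c d
    | .inl c, .inr j => G.f (β c) j ∘ ph c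
    | .inr _, .inl _ => 0
    | .inr i, .inr j => G.f i j
  ag := by
    rintro (a | a) (b | b) e
    exacts [Y.ag a b e, (G.ag _ b e).comp (ag a) (mp a), e.elim, G.ag a b e]
  maps := by
    rintro (a | a) (b | b) e
    exacts [Y.maps a b e, (G.maps _ b e).comp (mp a), e.elim, G.maps a b e]
  id := by
    rintro (a | a)
    exacts [Y.id a, G.id a]
  comp := by
    rintro (a | a) (b | b) (c | c) e e' y hy
    exacts [Y.comp a b c e e' y hy,
      (congrArg _ (com a b e y hy)).trans (G.comp _ _ c (β.mono e) e' _ (mp a hy)), e'.elim,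
      G.comp _ b c e e' _ (mp a hy), e.elim, e.elim, e'.elim, G.comp a b c e e' y hy]

end cyl

variable {ι : Type} [PartialOrder ι]

/-- members of a family of subsets of a diagram -/
structure Cmp (G : Dia ι) (𝒞 : ∀ j, Set (Set (Amb (G.M j)))) where
  j : ι
  C : Set (Amb (G.M j))
  mem : C ∈ 𝒞 j
  sub : C ⊆ G.X j

section
variable {G : Dia ι} {𝒞 : ∀ j, Set (Set (Amb (G.M j)))}

theorem Dia.image_id (G : Dia ι) {j : ι} {C : Set (Amb (G.M j))} (h : C ⊆ G.X j) :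
    G.f j j '' C = C := (image_congr fun x hx => G.id j x (h hx)).trans (image_id' _)

theorem Dia.image_image (G : Dia ι) {i j k : ι} (e : i ≤ j) (e' : j ≤ k) {C : Set (Amb (G.M i))}
    (h : C ⊆ G.X i) : G.f j k '' (G.f i j '' C) = G.f i k '' C :=
  (Set.image_image _ _ _).trans (image_congr fun x hx => G.comp i j k e e' x (h hx))

instance : PartialOrder (Cmp G 𝒞) where
  le c d := c.j ≤ d.j ∧ G.f c.j d.j '' c.C = d.C
  le_refl c := ⟨le_rfl, G.image_id c.sub⟩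
  le_trans a _ _ h h' := ⟨h.1.trans h'.1, by rw [← h'.2, ← h.2, G.image_image h.1 h'.1 a.sub]⟩
  le_antisymm := by
    rintro ⟨i, C, _, hC⟩ ⟨j, D, _, _⟩ h h'
    obtain rfl : i = j := h.1.antisymm h'.1
    obtain rfl : C = D := (G.image_id hC).symm.trans h.2
    rfl

end

variable [Finite ι]

theorem Dia.cover (G : Dia ι) : ∃ 𝒞 : ∀ j, Set (Set (Amb (G.M j))), (∀ j, (𝒞 j).Finite) ∧
    (∀ j, ∀ C ∈ 𝒞 j, Irr C ∧ C ⊆ G.X j) ∧ (∀ j k, j ≤ k → ∀ C ∈ 𝒞 j, G.f j k '' C ∈ 𝒞 k) ∧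
    ∀ j, ∀ x ∈ G.X j, ∃ C ∈ 𝒞 j, x ∈ C := by
  choose s h1 h2 h3 using fun i => (G.pa i).comps
  have h4 : ∀ i, ∀ Y ∈ s i, Y ⊆ G.X i := fun i Y hY => h3 i ▸ subset_sUnion_of_mem hY
  refine ⟨fun j => {C | ∃ i ≤ j, ∃ Y ∈ s i, G.f i j '' Y = C}, fun j =>
    (finite_iUnion fun i => (h1 i).image (G.f i j '' ·)).subset
      fun C ⟨i, _, h⟩ => mem_iUnion.2 ⟨i, h⟩, ?_, ?_, fun j x hx => ?_⟩
  · rintro j _ ⟨i, e, Y, hY, rfl⟩
    exact ⟨(h2 i Y hY).image ((G.ag i j e).mono (h2 i Y hY).pa (h4 i Y hY)),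
      ((G.maps i j e).mono_left (h4 i Y hY)).image_subset⟩
  · rintro j k e' _ ⟨i, e, Y, hY, rfl⟩
    exact ⟨i, e.trans e', Y, hY, (G.image_image e e' (h4 i Y hY)).symm⟩
  · obtain ⟨Y, hY, h⟩ : x ∈ ⋃₀ s j := h3 j ▸ hx
    exact ⟨Y, ⟨j, le_rfl, Y, hY, G.image_id (h4 j Y hY)⟩, h⟩

theorem Dia.pre (G : Dia ι) {n : ℕ} (hd : ∀ i, Dm (G.X i) (n + 1)) :
    ∃ (κ : Type) (_ : Finite κ) (_ : PartialOrder κ) (G' : Dia κ) (K : ∀ k, Set (Amb (G'.M k)))
      (β : κ → ι) (τ : ι → κ) (sd : κ → Bool) (p : Pre G' K β τ sd),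
      G'.comap τ p.ul.mt = G ∧ ∀ k, Dm (K k) n := by
  obtain ⟨𝒞, c1, c2, c3, c4⟩ := G.cover
  have : ∀ j, Finite (𝒞 j) := c1
  have : Finite (Cmp G 𝒞) := Finite.of_injective (fun c => (⟨c.j, c.C, c.mem⟩ : Σ j, 𝒞 j))
    (by rintro ⟨_, _, _, _⟩ ⟨_, _, _, _⟩ h; cases h; rfl)
  have ir : ∀ c : Cmp G 𝒞, Irr c.C := fun c => (c2 _ _ c.mem).1
  let β : Cmp G 𝒞 →o ι := ⟨Cmp.j, fun _ _ h => h.1⟩
  have hl : ∀ c j, β c ≤ j → ∃! d, c ≤ d ∧ β d = j := fun c j e =>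
    ⟨⟨j, _, c3 _ j e _ c.mem, (c2 _ _ (c3 _ j e _ c.mem)).2⟩, ⟨⟨e, rfl⟩, rfl⟩, by
      rintro ⟨j, D, _, _⟩ ⟨h, rfl⟩
      obtain rfl : G.f c.j j '' c.C = D := h.2
      rfl⟩
  obtain ⟨Y, e, ph, h1, h2⟩ := Dia.lift (ι := Cmp G 𝒞) ⟨fun c => G.M c.j, Cmp.C,
    fun c d => G.f c.j d.j, fun c d (h : _ ∧ _) => (G.ag _ _ h.1).mono (ir c).pa c.sub,
    fun c d h => mapsTo_iff_image_subset.2 h.2.le, fun c x hx => G.id _ x (c.sub hx),
    fun a b c h h' x hx => G.comp _ _ _ h.1 h'.1 x (a.sub hx)⟩ ir fun _ _ h => h.2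
  dsimp only at ph h1 h2
  choose S s1 s2 s3 using fun c => (h1 c).2.inj
  have mp : ∀ c, MapsTo (ph c) (Y.X c) c.C := fun c => mapsTo_iff_image_subset.2 (h1 c).2.im.le
  let Bad : ∀ c : Cmp G 𝒞, Set (Amb (G.M c.j)) := fun c =>
    c.C ∩ S c ∪ ⋃ D ∈ 𝒞 c.j \ {c.C}, c.C ∩ D
  have b1 : ∀ c, PA (Bad c) := fun c => ((ir c).pa.inter (s1 c)).union
    (pa_biUnion (c1 _).sdiff fun D hD => (ir c).pa.inter (c2 _ D hD.1).1.pa)
  have b2 : ∀ c, Bad c ⊆ G.X c.j := fun c => (union_subset inter_subset_left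
    (iUnion₂_subset fun _ _ => inter_subset_left)).trans c.sub
  have b3 : ∀ c, Dm (Bad c) n := fun c => ((ir c).drop (s1 c) (s2 c) ((hd _).mono c.sub)).union
    (dm_biUnion (c1 _).sdiff fun D hD => by
      by_cases h : c.C ⊆ D
      · exact inter_comm D c.C ▸ (c2 _ D hD.1).1.drop (ir c).pa
          (fun h' => hD.2 (h'.antisymm h)) ((hd _).mono (c2 _ D hD.1).2)
      · exact (ir c).drop (c2 _ D hD.1).1.pa h ((hd _).mono c.sub))
  let Sg : ∀ j, Set (Amb (G.M j)) := fun j => ⋃ c : Cmp G 𝒞, ⋃ _ : c.j ≤ j, G.f c.j j '' Bad c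
  have g1 : ∀ j, PA (Sg j) := fun j => pa_iUnion fun c => pa_iUnion fun h =>
    (G.ag _ j h).image (b1 c) (b2 c)
  have g2 : ∀ j, Sg j ⊆ G.X j := fun j => iUnion₂_subset fun c h =>
    ((G.maps _ j h).mono_left (b2 c)).image_subset
  have g3 : ∀ j, Dm (Sg j) n := fun j => dm_iUnion fun c => dm_iUnion fun h =>
    ((G.ag _ j h).mono (b1 c) (b2 c)).dm (b3 c)
  have g4 : ∀ i j, i ≤ j → MapsTo (G.f i j) (Sg i) (Sg j) := fun i j h x hx => by
    obtain ⟨c, h', y, hy, rfl⟩ := mem_iUnion₂.1 hx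
    exact mem_iUnion₂.2 ⟨c, h'.trans h, y, hy, (G.comp _ _ _ h' h y (b2 c hy)).symm⟩
  refine ⟨Cyl β, inferInstance, inferInstance, Y.cyl G β ph (fun c => (h1 c).2.ag)
    (fun c => (mp c).mono_right c.sub) fun c d h => (h2 c d h).2,
    Sum.rec (fun c => Y.X c ∩ ph c ⁻¹' Sg c.j) Sg, _, _, _,
    ⟨Cyl.ul hl, ?_, ?_, ?_, ?_, ?_, fun i x hx hx' => ?_⟩, rfl, ?_⟩
  · rintro (c | i) h
    · refine ⟨e c, (h1 c).1, ?_⟩
      rintro (d | j) h
      · exact (h2 c d h).1.hol (h1 c).1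
      · obtain ⟨d, ⟨h3, rfl⟩, -⟩ := hl c j h
        exact (((h1 d).2.hp.comp (h2 c d h3).1 (Y.maps c d h3)).congr
          fun y hy => ((h2 c d h3).2 y hy).symm).hol (h1 c).1
    · exact (h rfl).elim
  · rintro (c | i)
    exacts [(h1 c).2.ag.preimage (g1 _), g1 i]
  · rintro (c | i)
    exacts [inter_subset_left, g2 i]
  · rintro (c | i) (d | j) h y hy
    exacts [⟨Y.maps c d h hy.1, mem_preimage.2 ((h2 c d h).2 y hy.1 ▸ g4 _ _ h.1 hy.2)⟩,
      g4 _ _ h hy.2, h.elim, g4 _ _ h hy]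
  · rintro (c | i) _ rfl y hy h
    exacts [⟨hy, mem_preimage.2 (G.id _ _ (c.sub (mp c hy)) ▸ h)⟩, G.id i y hy ▸ h]
  · obtain ⟨C, hC, h⟩ := c4 i x hx
    let c : Cmp G 𝒞 := ⟨i, C, hC, (c2 _ _ hC).2⟩
    have h3 : x ∉ Bad c := fun h' => hx' (mem_iUnion₂.2 ⟨c, le_rfl, x, h', G.id i x hx⟩)
    obtain ⟨y, hy, rfl⟩ : x ∈ ph c '' Y.X c := (h1 c).2.im ▸ h
    refine ⟨.inl c, rfl, rfl, ⟨y, ⟨hy, G.id i _ hx⟩, fun z hz => ?_⟩, ?_⟩
    · have h4 : ph c z = ph c y := (G.id i _ (c.sub (mp c hz.1))).symm.trans hz.2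
      exact s3 c ⟨hz.1, fun h5 => h3 (.inl ⟨h, h4 ▸ h5⟩)⟩ ⟨hy, fun h5 => h3 (.inl ⟨h, h5⟩)⟩ h4
    · rintro (⟨j, D, hD, hD'⟩ | j) rfl h4 h5 z hz h6
      · refine h3 (.inr (mem_biUnion (show D ∈ 𝒞 j \ {C} from ⟨hD, ?_⟩) ⟨h, ?_⟩))
        · rintro rfl
          exact h5 rfl
        · exact h6 ▸ (G.id j _ (hD' (mp _ hz))).symm ▸ mp _ hz
      · cases h4
  · rintro (c | i)
    · by_cases h : Y.X c ⊆ Y.X c ∩ ph c ⁻¹' Sg c.j
      · refine ((h1 c).2.dm ((g3 c.j).mono ?_)).mono inter_subset_left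
        rw [← (h1 c).2.im]
        exact image_subset_iff.2 fun y hy => (h hy).2
      · exact ((h1 c).2.irr'.drop ((h1 c).2.ag.preimage (g1 _)) h
          ((h1 c).2.dm ((hd _).mono c.sub))).mono (subset_inter inter_subset_left subset_rfl)
    · exact g3 i

/-- existence of hyperresolutions -/
theorem Dia.hyp (G : Dia ι) : HypR G := by
  have key : ∀ (n : ℕ) (ι : Type) [PartialOrder ι] [Finite ι] (G : Dia ι),
      (∀ i, Dm (G.X i) n) → HypR G := by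
    intro n
    induction n with
    | zero =>
      intro ι _ _ G h
      cases nonempty_fintype ι
      exact hyp_zero G fun i => (h i).eq_empty (G.pa i).1
    | succ n ih =>
      intro ι _ _ G h
      obtain ⟨κ, _, _, G', K, β, τ, sd, p, rfl, h'⟩ := G.pre h
      exact hyp_step p (ih κ _ h')
  obtain ⟨n, hn⟩ := (finite_range G.M).bddAbove
  exact key n ι G fun i => (dm_top _).mono_nat (hn ⟨i, rfl⟩)

end Pool.Agent.CS
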