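import Pool.Agent.P.MP_d34769_ag.YD63
import Pool.Agent.P.MP_d34769_ag.YD7a

/-! Compatible mixed Hodge structures on the diagrams over one algebraic diagram. -/

open Set Topology
open Pool.Agent.HT (Amb)
open Pool.Agent.HIR (Mf HolP)

noncomputable section
namespace Pool.Agent.CS

theorem MHS.Mor.of_sq {H₁ H₂ K₁ K₂ : Type} [AddCommGroup H₁] [Module ℂ H₁] [AddCommGroup H₂]
    [Module ℂ H₂] [AddCommGroup K₁] [Module ℂ K₁] [AddCommGroup K₂] [Module ℂ K₂] {j : ℕ}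
    {M₁ : MHS H₁ j} {M₂ : MHS H₂ j} {e₁ : K₁ ≃ₗ[ℂ] H₁} {e₂ : K₂ ≃ₗ[ℂ] H₂} {f : H₁ →ₗ[ℂ] H₂}
    {g : K₁ →ₗ[ℂ] K₂} (h : M₁.Mor M₂ f) (sq : ∀ x, e₂ (g x) = f (e₁ x)) :
    (M₁.map e₁.symm).Mor (M₂.map e₂.symm) g :=
  ⟨fun c x hx => show e₂ (g x) ∈ _ from sq x ▸ h.W c _ hx,
    fun c x hx => show e₂ (g x) ∈ _ from sq x ▸ h.F c _ hx,
    fun c x hx => show e₂ (g x) ∈ _ from sq x ▸ h.Fb c _ hx⟩

section setd
variable {A : Type} [PartialOrder A] (T : Dia A) {S S' : Sh} {ρ : S.ι → A} {ρ' : S'.ι → A}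

theorem Dia.setD (m : Dia.Mono S ρ) : SetD S (fun a => T.X (ρ a)) fun a b => T.f (ρ a) (ρ b) :=
  ⟨fun _ => (T.pa _).compact, fun e => (T.ag _ _ (m e)).cont, fun e => T.maps _ _ (m e),
    fun e e' => T.comp _ _ _ (m e) (m e')⟩

theorem Dia.setH (m : Dia.Mono S ρ) (m' : Dia.Mono S' ρ') (φ : ShH S S')
    (r : ∀ {a b}, φ.R a b → ρ a ≤ ρ' b) :
    SetH φ (fun a => T.X (ρ a)) (fun a b => T.f (ρ a) (ρ b)) (fun a => T.X (ρ' a))
      (fun a b => T.f (ρ' a) (ρ' b)) fun a b => T.f (ρ a) (ρ' b) :=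
  ⟨fun e => (T.ag _ _ (r e)).cont, fun e => T.maps _ _ (r e),
    fun e e' => T.comp _ _ _ (m e) (r e'), fun e e' => T.comp _ _ _ (r e) (m' e')⟩

/-- restriction of cochains -/
def Dia.r (m : Dia.Mono S ρ) : (∀ a, AS (Amb (T.M (ρ a)))) →ₗ[ℂ] (T.dg S ρ m).T :=
  rs fun a => T.X (ρ a)

theorem Dia.map_r (m : Dia.Mono S ρ) (m' : Dia.Mono S' ρ') (φ : ShH S S')
    (r : ∀ {a b}, φ.R a b → ρ a ≤ ρ' b) (c) : (T.hom m m' φ r).map (T.r m' c) =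
      T.r m (mx φ.μ (fun a b => T.f (ρ a) (ρ' b)) c) :=
  (T.setH m m' φ r).map_r (T.setD m) (T.setD m') c

variable {S₁ S₂ : Sh} {ρ₁ : S₁.ι → A} {ρ₂ : S₂.ι → A}

theorem Dia.map_map (m : Dia.Mono S ρ) (m₁ : Dia.Mono S₁ ρ₁) (m' : Dia.Mono S' ρ') (φ : ShH S S₁)
    (ψ : ShH S₁ S') (r : ∀ {a b}, φ.R a b → ρ a ≤ ρ₁ b) (t : ∀ {a b}, ψ.R a b → ρ₁ a ≤ ρ' b) (c) :
    (T.hom m m₁ φ r).map ((T.hom m₁ m' ψ t).map (T.r m' c)) = T.r m
      (mx (fun a c => ∑ b, φ.μ a b * ψ.μ b c) (fun a b => T.f (ρ a) (ρ' b)) c) := by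
  rw [T.map_r, T.map_r]
  exact rs_mx_mx (X := fun a => T.X (ρ a)) (f := fun a b => T.f (ρ a) (ρ₁ b))
    (f' := fun a b => T.f (ρ₁ a) (ρ' b)) (fun a b => T.f (ρ a) (ρ' b))
    (fun a b c h h' => T.comp _ _ _ (r (φ.sup a b h).1) (t (ψ.sup b c h').1)) c

/-- two composites with the same matrix agree -/
theorem Dia.hm_sq (m : Dia.Mono S ρ) (m₁ : Dia.Mono S₁ ρ₁) (m₂ : Dia.Mono S₂ ρ₂)
    (m' : Dia.Mono S' ρ') (φ₁ : ShH S S₁) (ψ₁ : ShH S₁ S') (φ₂ : ShH S S₂) (ψ₂ : ShH S₂ S')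
    (r₁ : ∀ {a b}, φ₁.R a b → ρ a ≤ ρ₁ b) (t₁ : ∀ {a b}, ψ₁.R a b → ρ₁ a ≤ ρ' b)
    (r₂ : ∀ {a b}, φ₂.R a b → ρ a ≤ ρ₂ b) (t₂ : ∀ {a b}, ψ₂.R a b → ρ₂ a ≤ ρ' b)
    (e : ∀ a c, ∑ b, φ₁.μ a b * ψ₁.μ b c = ∑ b, φ₂.μ a b * ψ₂.μ b c) (j : ℤ) (x) :
    (T.bmor m m₁ φ₁ r₁).cx.hm (add_zero j) ((T.bmor m₁ m' ψ₁ t₁).cx.hm (add_zero j) x) =
      (T.bmor m m₂ φ₂ r₂).cx.hm (add_zero j) ((T.bmor m₂ m' ψ₂ t₂).cx.hm (add_zero j) x) := by
  obtain ⟨⟨y, hy⟩, rfl⟩ := Cx.cls_surj j x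
  obtain ⟨c, rfl⟩ : ∃ c, T.r m' c = y := ((T.setD m').sur_G hy.1).imp fun _ h => h.2
  simp only [Cx.Mor.hm_cls, T.map_map, e]

/-- the holomorphic map of diagrams -/
def Dia.shom (m : Dia.Mono S ρ) (m' : Dia.Mono S' ρ') (φ : ShH S S')
    (r : ∀ {a b}, φ.R a b → ρ a ≤ ρ' b) {e : S.ι → ℕ} (mf : ∀ a, Mf (e a) (T.X (ρ a)))
    (hol : ∀ a b, ρ a ≤ b → HolP (e a) (T.X (ρ a)) (T.f (ρ a) b)) {e' : S'.ι → ℕ}
    (mf' : ∀ a, Mf (e' a) (T.X (ρ' a)))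
    (hol' : ∀ {a b}, S'.rel a b → HolP (e' a) (T.X (ρ' a)) (T.f (ρ' a) (ρ' b))) :
    SDg.Hom φ (T.sdg m e mf fun h => hol _ _ (m h)) (T.sdg m' e' mf' hol') where
  g a b := T.f (ρ a) (ρ' b)
  maps h := T.maps _ _ (r h)
  hol h := hol _ _ (r h)
  gl h h' := T.comp _ _ _ (m h) (r h')
  gr h h' := T.comp _ _ _ (r h) (m' h')

end setd

section coef
variable (s : Cu) {S S' : Sh} {κ κ' κ'' : Type}

open Classical in
/-- the vertical coefficients -/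
def pv (p q : κ × s.S) : ℤ := if p.1 = q.1 then s.ε p.2 q.2 else 0

open Classical in
/-- the horizontal coefficients -/
def ph (k : ℤ) (μ : κ → κ' → ℤ) (p : κ × s.S) (q : κ' × s.S) : ℤ :=
  if p.2 = q.2 then k ^ (s.deg p.2 + 1) * μ p.1 q.1 else 0

/-- the coefficients of the product -/
def pe (S : Sh) (p q : S.ι × s.S) : ℤ := ph s (-1) S.ε p q + pv s p q

variable {s} {k k' : ℤ} {μ : κ → κ' → ℤ} {ν : κ' → κ'' → ℤ}

theorem pv_ne {p q : κ × s.S} (h : pv s p q ≠ 0) : p.1 = q.1 ∧ s.ε p.2 q.2 ≠ 0 := by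
  simpa [pv] using h

theorem ph_ne {p : κ × s.S} {q : κ' × s.S} (h : ph s k μ p q ≠ 0) :
    p.2 = q.2 ∧ μ p.1 q.1 ≠ 0 := by
  classical
  rw [ph, ite_ne_right_iff] at h
  exact ⟨h.1, right_ne_zero_of_mul h.2⟩

theorem pe_ne {p q : S.ι × s.S} (h : pe s S p q ≠ 0) : ph s (-1) S.ε p q ≠ 0 ∨ pv s p q ≠ 0 := by
  by_contra! e
  simp [pe, e] at h

theorem pv_top (b : κ) (q : κ × s.S) : pv s (b, ⊤) q = 0 := by simp [pv, s.ε_top]

theorem ph_top (b : κ) {q : κ' × s.S} (h : q.2 ≠ ⊤) : ph s k μ (b, ⊤) q = 0 := if_neg h.symm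

theorem pe_top (b : S.ι) {q : S.ι × s.S} (h : q.2 ≠ ⊤) : pe s S (b, ⊤) q = 0 := by
  rw [pe, pv_top, ph_top _ h, add_zero]

theorem sg_ε (t u : s.S) (a : ℤ) :
    s.ε t u * ((-1) ^ (s.deg u + 1) * a) = -((-1) ^ (s.deg t + 1) * a * s.ε t u) := by
  by_cases h : s.ε t u = 0
  · simp [h]
  · rw [(s.sup _ _ h).2]; ring

variable [Fintype κ']

theorem sum_hh (p : κ × s.S) (r : κ'' × s.S) : ∑ q, ph s k μ p q * ph s k' ν q r =
    ph s (k * k') (fun a c => ∑ b, μ a b * ν b c) p r := by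
  classical
  by_cases h : p.2 = r.2 <;>
    simp [Fintype.sum_prod_type, ph, h, Finset.mul_sum, mul_pow, mul_mul_mul_comm]

theorem sum_hv (p : κ × s.S) (r : κ' × s.S) : ∑ q, ph s k μ p q * pv s q r =
    k ^ (s.deg p.2 + 1) * μ p.1 r.1 * s.ε p.2 r.2 := by
  classical
  simp [Fintype.sum_prod_type, ph, pv]

theorem sum_vh (p : κ' × s.S) (r : κ'' × s.S) : ∑ q, pv s p q * ph s k ν q r =
    s.ε p.2 r.2 * (k ^ (s.deg r.2 + 1) * ν p.1 r.1) := by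
  classical
  simp [Fintype.sum_prod_type, ph, pv]

theorem sum_vv (p r : κ' × s.S) : ∑ q, pv s p q * pv s q r = 0 := by
  classical
  by_cases h : p.1 = r.1 <;> simp [Fintype.sum_prod_type_right, pv, h, s.εε]

end coef

variable {A ι : Type} [Fintype A] [PartialOrder A] [PartialOrder ι] {s : Cu} {base : A → ι}
  {top : ι → A} {σ : A → s.S} {S S' : Sh} {τ : S.ι → ι} {τ' : S'.ι → ι}

/-- the index set of the lift of a shape -/
def LI {κ : Type} (base : A → ι) (σ : A → s.S) (τ : κ → ι) : Type :=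
  {p : κ × A // base p.2 = τ p.1 ∧ σ p.2 ≠ ⊤}

open Classical in
instance {κ : Type} [Fintype κ] (τ : κ → ι) : Fintype (LI base σ τ) := Subtype.fintype _

open Classical in
/-- the lift of a matrix -/
def lm {κ κ' : Type} (σ : A → s.S) (u : κ × s.S → κ' × s.S → ℤ) (p : κ × A) (q : κ' × A) : ℤ :=
  if p.2 ≤ q.2 then u (p.1, σ p.2) (q.1, σ q.2) else 0

omit [Fintype A] in
theorem lm_ne {κ κ' : Type} {u : κ × s.S → κ' × s.S → ℤ} {p : κ × A} {q : κ' × A}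
    (h : lm σ u p q ≠ 0) : p.2 ≤ q.2 ∧ u (p.1, σ p.2) (q.1, σ q.2) ≠ 0 := by
  simpa [lm] using h

theorem pv_le {κ : Type} (τ : κ → ι) (p q : κ × s.S) (h : pv s p q ≠ 0) :
    τ p.1 ≤ τ q.1 ∧ p.2 ≤ q.2 := ⟨(congrArg τ (pv_ne h).1).le, (s.sup _ _ (pv_ne h).2).1⟩

theorem pe_le (m : Dia.Mono S τ) (p q : S.ι × s.S) (h : pe s S p q ≠ 0) :
    τ p.1 ≤ τ q.1 ∧ p.2 ≤ q.2 :=
  (pe_ne h).elim (fun h => ⟨m (S.sup _ _ (ph_ne h).2).1, (ph_ne h).1.le⟩) (pv_le τ p q)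

theorem ph_le {φ : ShH S S'} (r : ∀ {a b}, φ.R a b → τ a ≤ τ' b) (p : S.ι × s.S) (q : S'.ι × s.S)
    (h : ph s 1 φ.μ p q ≠ 0) : τ p.1 ≤ τ' q.1 ∧ p.2 ≤ q.2 :=
  ⟨r (φ.sup _ _ (ph_ne h).2).1, (ph_ne h).1.le⟩

section ul
variable (h : UL base top σ)
include h

theorem UL.lm_mul {κ κ' κ'' : Type} [Fintype κ'] {τ₁ : κ → ι} {τ₂ : κ' → ι} {τ₃ : κ'' → ι}
    {u : κ × s.S → κ' × s.S → ℤ} {v : κ' × s.S → κ'' × s.S → ℤ}
    (hu : ∀ p q, u p q ≠ 0 → τ₁ p.1 ≤ τ₂ q.1 ∧ p.2 ≤ q.2)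
    (hv : ∀ p q, v p q ≠ 0 → τ₂ p.1 ≤ τ₃ q.1 ∧ p.2 ≤ q.2) {p : κ × A} {r : κ'' × A}
    (hp : base p.2 = τ₁ p.1) (hr : base r.2 = τ₃ r.1) (h0 : ∀ b, v (b, ⊤) (r.1, σ r.2) = 0) :
    ∑ q : LI base σ τ₂, lm σ u p q.1 * lm σ v q.1 r =
      lm σ (fun p r => ∑ q, u p q * v q r) p r := by
  classical
  refine (Finset.sum_subtype (Finset.univ.filter fun q : κ' × A => base q.2 = τ₂ q.1 ∧ σ q.2 ≠ ⊤)
    (by simp) fun q => lm σ u p q * lm σ v q r).symm.trans ?_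
  rw [Finset.sum_filter, Fintype.sum_prod_type]
  refine (Finset.sum_congr rfl fun b _ => Eq.trans ?_ (h.sum p.2 r.2 (τ₂ b) (fun t =>
    u (p.1, σ p.2) (b, t) * v (b, t) (r.1, σ r.2)) fun t e => ?_)).trans ?_
  · refine Finset.sum_congr rfl fun a _ => ?_
    by_cases h1 : base a = τ₂ b <;> by_cases h2 : p.2 ≤ a <;> by_cases h3 : a ≤ r.2 <;>
      by_cases h4 : σ a = ⊤ <;> simp [lm, h0, h1, h2, h3, h4]
  · rw [hp, hr]
    exact ⟨hu _ _ (left_ne_zero_of_mul e), hv _ _ (right_ne_zero_of_mul e)⟩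
  · rw [lm, Fintype.sum_prod_type]
    split_ifs <;> simp

/-- the lift of a shape -/
def UL.sh (m : Dia.Mono S τ) : Sh where
  ι := LI base σ τ
  deg p := S.deg p.1.1 + (s.deg (σ p.1.2) - 1)
  rel p q := p.1.2 ≤ q.1.2
  ε p q := lm σ (pe s S) p.1 q.1
  sup p q e := ⟨(lm_ne e).1, by
    rcases pe_ne (lm_ne e).2 with e | e
    · have h1 := (S.sup _ _ (ph_ne e).2).2
      have h2 := congrArg s.deg (ph_ne e).1
      dsimp only at h1 h2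
      omega
    · have h1 := congrArg S.deg (pv_ne e).1
      have h2 := (s.sup _ _ (pv_ne e).2).2
      have h3 := (s.deg0 _).not.2 q.2.2
      dsimp only at h1 h2
      omega⟩
  trans := le_trans
  εε p r := by
    rw [h.lm_mul (pe_le m) (pe_le m) p.2.1 r.2.1 fun _ => pe_top _ r.2.2]
    simp only [pe, add_mul, mul_add, Finset.sum_add_distrib, sum_hh, sum_hv, sum_vh, sum_vv, sg_ε,
      S.εε]
    simp [lm, ph]

theorem UL.mono (m : Dia.Mono S τ) : Dia.Mono (h.sh m) fun p => p.1.2 := fun e => e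

omit [Fintype A] in
theorem UL.mono' (m : Dia.Mono S τ) : Dia.Mono S fun a => top (τ a) := fun e => h.mt (m e)

omit [Fintype A] in
theorem UL.sum_pv {κ : Type} [Fintype κ] {τ : κ → ι} {p : κ × A} (hp : base p.2 = τ p.1)
    (w : κ → ℤ) : ∑ b, lm σ (pv s) p (b, top (τ b)) * w b = s.ε (σ p.2) ⊤ * w p.1 := by
  rw [Finset.sum_eq_single p.1 (fun b _ e => by simp [lm, pv, e.symm]) (by simp)]
  simp [lm, pv, h.st, h.le_top hp.le]

/-- the augmentation -/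
def UL.aug (m : Dia.Mono S τ) : ShH (h.sh m) S where
  R p b := p.1.2 ≤ top (τ b)
  μ p b := lm σ (pv s) p.1 (b, top (τ b))
  sup p b e := ⟨(lm_ne e).1, by
    have h1 := congrArg S.deg (pv_ne (lm_ne e).2).1
    have h2 := (s.sup _ _ (pv_ne (lm_ne e).2).2).2
    simp only [h.st, s.deg_top] at h1 h2
    simp [UL.sh, h1, h2]⟩
  l := le_trans
  r e e' := e.trans (h.mt (m e'))
  comm p c := by
    refine (h.lm_mul (pe_le m) (pv_le τ) p.2.1 (h.bt _) fun _ => pv_top _ _).trans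
      (Eq.trans ?_ (h.sum_pv p.2.1 _).symm)
    simp only [pe, add_mul, Finset.sum_add_distrib, sum_hv, sum_vv]
    by_cases e : S.ε p.1.1 c * s.ε (σ p.1.2) ⊤ = 0
    · simp [lm, h.st, mul_assoc, mul_comm (s.ε _ _), e]
    · simp [lm, h.st, (s.sup _ _ (right_ne_zero_of_mul e)).2, s.deg_top, mul_comm,
        h.le_top (p.2.1.trans_le (m (S.sup _ _ (left_ne_zero_of_mul e)).1))]

/-- the lift of a map of shapes -/
def UL.lft (m : Dia.Mono S τ) (m' : Dia.Mono S' τ') (φ : ShH S S')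
    (r : ∀ {a b}, φ.R a b → τ a ≤ τ' b) : ShH (h.sh m) (h.sh m') where
  R p q := p.1.2 ≤ q.1.2
  μ p q := lm σ (ph s 1 φ.μ) p.1 q.1
  sup p q e := ⟨(lm_ne e).1, by
    have h1 := (φ.sup _ _ (ph_ne (lm_ne e).2).2).2
    have h2 := (ph_ne (lm_ne e).2).1
    dsimp only at h1 h2
    simp [UL.sh, h1, h2]⟩
  l := le_trans
  r := le_trans
  comm p q := by
    refine (h.lm_mul (pe_le m) (ph_le r) p.2.1 q.2.1 fun _ => ph_top _ q.2.2).trans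
      (Eq.trans ?_ (h.lm_mul (ph_le r) (pe_le m') p.2.1 q.2.1 fun _ => pe_top _ q.2.2).symm)
    simp only [pe, add_mul, mul_add, Finset.sum_add_distrib, sum_hh, sum_hv, sum_vh, φ.comm]
    simp [mul_comm]

theorem UL.lft_aug (m : Dia.Mono S τ) (m' : Dia.Mono S' τ') (φ : ShH S S')
    (r : ∀ {a b}, φ.R a b → τ a ≤ τ' b) (p : (h.sh m).ι) (c : S'.ι) :
    ∑ b, (h.aug m).μ p b * φ.μ b c = ∑ q, (h.lft m m' φ r).μ p q * (h.aug m').μ q c := by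
  refine (h.sum_pv p.2.1 _).trans (Eq.trans ?_
    (h.lm_mul (ph_le r) (pv_le τ') p.2.1 (h.bt _) fun _ => pv_top _ _).symm)
  simp only [sum_hv]
  by_cases e : φ.μ p.1.1 c = 0
  · simp [lm, e]
  · simp [lm, h.st, mul_comm, h.le_top (p.2.1.trans_le (r (φ.sup _ _ e).1))]

end ul

variable {T : Dia A} (h : HypD s T base top σ)
include h

theorem HypD.qia (m : Dia.Mono S τ) :
    (Dg.bc (⊤ : (T.dg S _ (h.ul.mono' m)).Fam) ⊥).cx.QIa
      (Dg.bc (⊤ : (T.dg _ _ (h.ul.mono m)).Fam) ⊥).cx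
      (T.hom (h.ul.mono m) (h.ul.mono' m) (h.ul.aug m) id).map 0 := by
  classical
  let ρ : (h.ul.sh m).ι ⊕ S.ι → A := Sum.elim (fun p => p.1.2) fun a => top (τ a)
  let blk : (h.ul.sh m).ι ⊕ S.ι → S.ι := Sum.elim (fun p => p.1.1) id
  have hb : ∀ u, base (ρ u) = τ (blk u) := by
    rintro (p | a)
    exacts [p.2.1, h.ul.bt _]
  have e0 : ∀ a, S.ε a a = 0 := fun a => by_contra fun e => by simpa using (S.sup a a e).2
  have ok : Ok Finset.univ (fun u => T.X (ρ u)) (fun u v => T.f (ρ u) (ρ v)) (cdeg _ S)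
      (h.ul.aug m).cε fun u v => ρ u ≤ ρ v :=
    ⟨fun _ _ => (T.pa _).compact, by
      rintro (p | a) - (q | b) - e
      · exact ((h.ul.sh m).sup p q e).imp id (congrArg (· + 1))
      · exact ((h.ul.aug m).sup p b e).imp id (congrArg (· + 1))
      · exact (e rfl).elim
      · exact (S.sup a b (neg_ne_zero.1 e)).imp (h.ul.mono' m) id,
    fun _ _ _ => le_trans, fun u _ w _ => ShH.cεε _ u w, fun _ _ _ _ e => (T.ag _ _ e).cont,
    fun _ _ _ _ => T.maps _ _, fun _ _ _ _ _ _ => T.comp _ _ _⟩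
  have ρl : ∀ p, ρ (.inl p) = p.1.2 := fun _ => rfl
  have ρr : ∀ a, ρ (.inr a) = top (τ a) := fun _ => rfl
  have cq := cone_qia (V := fun u => Amb (T.M (ρ u))) (X := fun u => T.X (ρ u))
    (f := fun u v => T.f (ρ u) (ρ v)) (φ := h.ul.aug m)
  refine cq (T.setD (h.ul.mono m)) (T.setD (h.ul.mono' m))
    (T.setH (h.ul.mono m) (h.ul.mono' m) (h.ul.aug m) id) (ok.blk blk S.deg ?_ fun a => ?_)
  · rintro (p | a) - (q | b) - e
    · exact (pe_ne (lm_ne e).2).symm.imp (fun e => (pv_ne e).1)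
        fun e => (Nat.lt_succ_self _).trans_eq (S.sup _ _ (ph_ne e).2).2.symm
    · exact .inl (pv_ne (lm_ne e).2).1
    · exact (e rfl).elim
    · exact .inr ((Nat.lt_succ_self _).trans_eq (S.sup _ _ (neg_ne_zero.1 e)).2.symm)
  have hs : ∀ b ∈ fibJ base (τ a), b ∈ ρ '' (Finset.univ.filter (blk · = a) : Finset _) := by
    intro b hb
    by_cases e : σ b = ⊤
    · exact ⟨.inr a, by simp [blk], by rw [ρr, ← mem_fibJ.1 hb, h.ul.ts b e]⟩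
    · exact ⟨.inl ⟨(a, b), mem_fibJ.1 hb, e⟩, Finset.mem_coe.2 (Finset.mem_filter.2
        ⟨Finset.mem_univ _, rfl⟩), rfl⟩
  refine (acy_iff ρ (S.deg a) ?_ (fun u hu => mem_fibJ.2 ?_) (fun u _ => (inter_univ _).symm) ?_ ?_
    (fun b hb e => (e (hs b hb)).elim) fun _ _ b hb e => (e (hs b hb)).elim).2
    (h.ul.acy T (τ a) isClosed_univ (h.acy _))
  · rintro (p | b) hp (q | c) hq e <;> simp only [Finset.coe_filter, Finset.mem_univ, true_and,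
      mem_ofPred_eq] at hp hq
    · exact congrArg _ (Subtype.ext (Prod.ext (hp.trans hq.symm) e))
    · exact (p.2.2 ((congrArg σ e).trans (h.ul.st _))).elim
    · exact (q.2.2 ((congrArg σ e.symm).trans (h.ul.st _))).elim
    · exact congrArg _ (hp.trans hq.symm)
  · rw [hb, (Finset.mem_filter.1 hu).2]
  · rintro (p | b) hp <;> obtain rfl := (Finset.mem_filter.1 hp).2
    · have := (s.deg0 _).not.2 p.2.2
      change ((S.deg p.1.1 + (s.deg (σ p.1.2) - 1) + 1 : ℕ) : ℤ) = s.deg (σ p.1.2) + S.deg p.1.1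
      omega
    · simp [cdeg, ρ, blk, h.ul.st, s.deg_top]
  · rintro (p | b) hp (q | c) hq <;>
      have e := (Finset.mem_filter.1 hp).2.trans (Finset.mem_filter.1 hq).2.symm <;>
      simp only [blk, Sum.elim_inl, Sum.elim_inr, id] at e <;> simp only [ρl, ρr] <;>
      simp [ShH.cε, UL.sh, UL.aug, lm, lε, pe, ph, pv, e, e0, h.ul.st, s.ε_top]

omit h in
/-- compatible mixed Hodge structures exist -/
theorem Dia.zig {ι : Type} [Finite ι] [PartialOrder ι] (G : Dia ι) : Nonempty G.Zig := by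
  obtain ⟨s, A, _, _, T, base, top, σ, h, rfl⟩ := G.hyp
  choose e mf hol using h.mf
  let P := fun {S : Sh} {τ : S.ι → ι} (m : Dia.Mono S τ) => T.sdg (h.ul.mono m)
    (fun p => e _ p.2.2) (fun p => mf _ p.2.2) fun {p _} r => hol _ p.2.2 _ r
  let θ := fun {S : Sh} {τ : S.ι → ι} (m : Dia.Mono S τ) (j : ℤ) => LinearEquiv.ofBijective
    ((T.bmor (h.ul.mono m) (h.ul.mono' m) (h.ul.aug m) fun e => e).cx.hm (add_zero j))
    ⟨(Cx.Mor.inj_iff _ _).1 ((h.qia m).inj j), (Cx.Mor.sur_iff _ _).1 ((h.qia m).sur j)⟩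
  refine ⟨⟨fun S τ m j => ((P m).mhs j).map (θ m j).symm, fun m m' φ r j => ?_,
    fun m e' mf' hol' j => ?_⟩⟩
  · exact MHS.Mor.of_sq ((T.shom (h.ul.mono m) (h.ul.mono m') (h.ul.lft m m' φ r) (fun e => e)
      (fun p => mf _ p.2.2) (fun p => hol _ p.2.2) (fun p => mf _ p.2.2)
      fun {p _} r => hol _ p.2.2 _ r).mor j)
      (T.hm_sq (h.ul.mono m) (h.ul.mono' m) (h.ul.mono m') (h.ul.mono' m') (h.ul.aug m) φ
        (h.ul.lft m m' φ r) (h.ul.aug m') (fun e => e) (fun e => h.ul.mt (r e)) (fun e => e)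
        (fun e => e) (h.ul.lft_aug m m' φ r) j)
  · have := (T.shom (h.ul.mono m) (h.ul.mono' m) (h.ul.aug m) (fun e => e) (fun p => mf _ p.2.2)
      (fun p => hol _ p.2.2) mf' hol').mor j
    exact ⟨this.W, this.F, this.Fb⟩

end Pool.Agent.CS
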