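import Pool.Agent.P.MP_d34769_ag.YE1a

/-! Weights, semistability and the lattice of subrepresentations of weight zero. -/

open Matrix Classical

noncomputable section
namespace Pool.Agent.CS

variable {I I' : Type} [Fintype I] [DecidableEq I] [Fintype I'] [DecidableEq I']

namespace Dat
variable {D : Dat I}

variable (D) in
/-- graded for the colours -/
def Cg (U : Submodule ℂ (I → ℂ)) : Prop := ∀ c, ∀ v ∈ U, pr {i | D.col i = c} *ᵥ v ∈ U

lemma Sub.cg {ρ : Rp I} {U : Submodule ℂ (I → ℂ)} (h : D.Sub ρ U) : D.Cg U := fun _ _ hv =>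
  SubE.pr_mem D.cc_eq h (fun _ _ e hi => e.1.symm.trans hi) hv

variable {t : Fin 3 → ℤ} {U U' : Submodule ℂ (I → ℂ)}

@[simp] lemma wt_bot : D.wt t ⊥ = 0 :=
  Finset.sum_eq_zero fun v _ => by rw [bot_inf_eq, finrank_bot]; simp

@[simp] lemma wt_zero : D.wt 0 U = 0 := by simp [wt]

lemma wt_sp (F : Finset I) : D.wt t (sp (F : Set I)) = ∑ i ∈ F, t (D.col i) := by
  rw [← Finset.sum_fiberwise (s := F) (g := D.col), wt]
  refine Finset.sum_congr rfl fun v _ => ?_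
  have e : sp (F : Set I) ⊓ sp {i | D.col i = v} = sp ((F.filter fun i => D.col i = v : Finset I) : Set I) := by
    rw [← sp_inter]
    congr 1
    ext i
    simp
  rw [e, finrank_sp, Finset.sum_congr rfl fun i hi => by rw [(Finset.mem_filter.1 hi).2]]
  simp [mul_comm]

lemma wt_top' : D.wt t ⊤ = ∑ i, t (D.col i) := by
  rw [← wt_sp Finset.univ, Finset.coe_univ, sp_univ]

/-- the weight of a union of components vanishes -/
lemma sum_th (F : Finset I) (hF : ∀ i j, D.cp i j → i ∈ F → j ∈ F) :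
    ∑ i ∈ F, D.th (D.col i) = 0 := by
  induction F using Finset.strongInduction with
  | H F ih =>
    rcases F.eq_empty_or_nonempty with rfl | ⟨i, hi⟩
    · rfl
    have hC : (Finset.univ.filter fun j => D.cp i j) ⊆ F := fun j hj =>
      hF i j (Finset.mem_filter.1 hj).2 hi
    rw [← Finset.sum_sdiff hC, D.bal i (Finset.univ.filter fun j => D.cp i j) (by simp), add_zero]
    refine ih _ (Finset.sdiff_ssubset hC ⟨i, by simp [D.cp_eq.1 i]⟩) fun j k e hj => ?_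
    simp only [Finset.mem_sdiff, Finset.mem_filter, Finset.mem_univ, true_and] at hj ⊢
    exact ⟨hF j k e hj.1, fun c => hj.2 (D.cp_eq.3 c (D.cp_eq.2 e))⟩

@[simp] lemma wt_top : D.wt D.th ⊤ = 0 := by
  rw [wt_top']
  exact sum_th _ fun _ _ _ _ => Finset.mem_univ _

lemma prmem_YE1 (F : Set I) (v : I → ℂ) : pr F *ᵥ v ∈ sp F := range_pr F ▸ ⟨v, rfl⟩

lemma split_YE1 {F : Set I} (h : ∀ v ∈ U, pr F *ᵥ v ∈ U) :
    Module.finrank ℂ U = Module.finrank ℂ ↥(U ⊓ sp F) + Module.finrank ℂ ↥(U ⊓ sp Fᶜ) := by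
  have e : (U ⊓ sp F) ⊔ (U ⊓ sp Fᶜ) = U := by
    refine le_antisymm (sup_le inf_le_left inf_le_left) fun v hv => ?_
    have hv' : pr F *ᵥ v + pr Fᶜ *ᵥ v = v := by rw [← add_mulVec, pr_add_compl, one_mulVec]
    refine Submodule.mem_sup.2 ⟨_, ⟨h v hv, ?_⟩, _, ⟨?_, ?_⟩, hv'⟩
    · exact prmem_YE1 _ v
    · rw [eq_sub_of_add_eq' hv']
      exact U.sub_mem hv (h v hv)
    · exact prmem_YE1 _ v
  have e' : (U ⊓ sp F) ⊓ (U ⊓ sp Fᶜ) = ⊥ := by
    rw [inf_inf_inf_comm, ← sp_inter, Set.inter_compl_self, sp_empty, inf_bot_eq]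
  have := Submodule.finrank_sup_add_finrank_inf_eq (U ⊓ sp F) (U ⊓ sp Fᶜ)
  rw [e, e'] at this
  simpa using this

lemma wt_one (h : D.Cg U) : D.wt 1 U = Module.finrank ℂ U := by
  have h1 : ∀ v ∈ U ⊓ sp {i | D.col i = 0}ᶜ, pr {i | D.col i = 1} *ᵥ v ∈ U ⊓ sp {i | D.col i = 0}ᶜ :=
    fun v hv => ⟨h 1 v hv.1, mem_sp.2 fun i hi => by
      rw [pr_mulVec, mem_sp.1 hv.2 i hi, ite_self]⟩
  have e1 : ({i | D.col i = 0}ᶜ ∩ {i | D.col i = 1} : Set I) = {i | D.col i = 1} := by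
    ext i
    simp only [Set.mem_inter_iff, Set.mem_compl_iff, Set.mem_ofPred_eq]
    generalize D.col i = c
    revert c
    decide
  have e2 : ({i | D.col i = 0}ᶜ ∩ {i | D.col i = 1}ᶜ : Set I) = {i | D.col i = 2} := by
    ext i
    simp only [Set.mem_inter_iff, Set.mem_compl_iff, Set.mem_ofPred_eq]
    generalize D.col i = c
    revert c
    decide
  have a := split_YE1 (h 0)
  have b := split_YE1 h1
  rw [inf_assoc, inf_assoc, ← sp_inter, ← sp_inter, e1, e2] at b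
  rw [wt, Fin.sum_univ_three, a, b]
  simp [add_assoc]

lemma wt_lin (K : ℤ) (t t' : Fin 3 → ℤ) (U : Submodule ℂ (I → ℂ)) :
    D.wt (fun v => K * t v - t' v) U = K * D.wt t U - D.wt t' U := by
  simp only [wt, sub_mul, Finset.mul_sum, Finset.sum_sub_distrib, mul_assoc]

lemma wt_le (t : Fin 3 → ℤ) : ∃ b : ℤ, ∀ U, D.wt t U ≤ b := by
  refine ⟨∑ v, |t v| * Module.finrank ℂ (I → ℂ), fun U => Finset.sum_le_sum fun v _ => ?_⟩
  exact mul_le_mul (le_abs_self _) (by exact_mod_cast Submodule.finrank_le _) (by positivity)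
    (abs_nonneg _)

lemma wt_sup_inf (h : D.Cg U) (h' : D.Cg U') :
    D.wt t (U ⊔ U') + D.wt t (U ⊓ U') = D.wt t U + D.wt t U' := by
  simp only [wt, ← Finset.sum_add_distrib, ← mul_add]
  refine Finset.sum_congr rfl fun c _ => ?_
  have e : (U ⊔ U') ⊓ sp {i | D.col i = c} = U ⊓ sp {i | D.col i = c} ⊔ U' ⊓ sp {i | D.col i = c} := by
    refine le_antisymm ?_ (sup_le (inf_le_inf_right _ le_sup_left) (inf_le_inf_right _ le_sup_right))
    rintro v ⟨hv, hc⟩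
    obtain ⟨x, hx, y, hy, rfl⟩ := Submodule.mem_sup.1 hv
    refine Submodule.mem_sup.2 ⟨_, ⟨h c x hx, prmem_YE1 _ x⟩, _,
      ⟨h' c y hy, prmem_YE1 _ y⟩, ?_⟩
    rw [← mulVec_add, pr_eq_self.2 hc]
  rw [e, inf_inf_distrib_right]
  congr 1
  exact_mod_cast Submodule.finrank_sup_add_finrank_inf_eq _ _

omit [DecidableEq I] [Fintype I'] [DecidableEq I'] in
lemma rank_YE1 (f : (I → ℂ) →ₗ[ℂ] (I' → ℂ)) (W : Submodule ℂ (I → ℂ)) :
    Module.finrank ℂ ↥(LinearMap.ker f ⊓ W) + Module.finrank ℂ (W.map f) = Module.finrank ℂ W := by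
  rw [← LinearMap.finrank_range_add_finrank_ker (f.domRestrict W), LinearMap.range_domRestrict,
    LinearMap.ker_domRestrict, ← Submodule.finrank_map_subtype_eq W, Submodule.map_comap_subtype,
    inf_comm, add_comm]

lemma wt_map {D' : Dat I'} {h : Matrix I' I ℂ} (hh : ∀ i j, D'.col i ≠ D.col j → h i j = 0)
    (hU : D.Cg U) :
    D.wt t (LinearMap.ker h.mulVecLin ⊓ U) + D'.wt t (U.map h.mulVecLin) = D.wt t U := by
  simp only [wt, ← Finset.sum_add_distrib, ← mul_add]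
  refine Finset.sum_congr rfl fun c _ => ?_
  have hc : pr {i | D'.col i = c} * h = h * pr {i | D.col i = c} := by
    ext i j
    rw [pr_mul_apply, mul_pr_apply]
    by_cases e : D'.col i = D.col j
    · simp [e]
    · simp [hh i j e]
  have e : U.map h.mulVecLin ⊓ sp {i | D'.col i = c} = (U ⊓ sp {i | D.col i = c}).map h.mulVecLin := by
    refine le_antisymm ?_ ?_
    · rintro _ ⟨⟨x, hx, rfl⟩, hs⟩
      refine ⟨_, ⟨hU c x hx, prmem_YE1 _ x⟩, ?_⟩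
      rw [mulVecLin_apply, mulVec_mulVec, ← hc, ← mulVec_mulVec]
      exact pr_eq_self.2 hs
    · rintro _ ⟨x, ⟨hx, hs⟩, rfl⟩
      refine ⟨⟨x, hx, rfl⟩, pr_eq_self.1 ?_⟩
      rw [mulVecLin_apply, mulVec_mulVec, hc, ← mulVec_mulVec, pr_eq_self.2 hs]
  rw [e, inf_assoc]
  congr 1
  exact_mod_cast rank_YE1 _ _

lemma wt_act {g : Matrix I I ℂ} (hg : g ∈ D.base.P) (hU : D.Cg U) :
    D.wt t (U.map g.mulVecLin) = D.wt t U := by
  have := wt_map (D := D) (D' := D) (t := t) (h := g)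
    (fun i j e => (mem_base_Lie D).1 hg.1 i j fun c => e c.1) hU
  have hk : LinearMap.ker g.mulVecLin = ⊥ :=
    LinearMap.ker_eq_bot.2 (mulVec_injective_iff_isUnit.2 ((isUnit_iff_isUnit_det g).2 hg.2))
  rwa [hk, bot_inf_eq, wt_bot, zero_add] at this

lemma ss_zero (ρ : Rp I) : D.SS 0 ρ := fun _ _ => by simp

lemma mapinv_YE1 {g : Matrix I I ℂ} (hg : IsUnit g.det) (U : Submodule ℂ (I → ℂ)) :
    (U.map g⁻¹.mulVecLin).map g.mulVecLin = U := by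
  rw [← Submodule.map_comp, ← mulVecLin_mul, mul_nonsing_inv _ hg, mulVecLin_one, Submodule.map_id]

lemma maptop_YE1 {g : Matrix I I ℂ} (hg : IsUnit g.det) :
    (⊤ : Submodule ℂ (I → ℂ)).map g.mulVecLin = ⊤ :=
  top_le_iff.1 ((mapinv_YE1 hg ⊤).symm.le.trans (Submodule.map_mono le_top))

lemma SS.act {g : Matrix I I ℂ} (hg : g ∈ D.base.P) {ρ : Rp I} (h : D.SS t ρ) :
    D.SS t (actR g ρ) := fun U hU => by
  rw [← mapinv_YE1 hg.2 U] at hU ⊢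
  rw [wt_act hg ((sub_act hg).1 hU).cg]
  exact h _ ((sub_act hg).1 hU)

lemma Stb.act {g : Matrix I I ℂ} (hg : g ∈ D.base.P) {ρ : Rp I} (h : D.Stb ρ) :
    D.Stb (actR g ρ) := by
  refine ⟨h.1, fun U hU h0 h1 => ?_⟩
  rw [← mapinv_YE1 hg.2 U] at hU h0 h1 ⊢
  rw [wt_act hg ((sub_act hg).1 hU).cg]
  refine h.2 _ ((sub_act hg).1 hU) (fun e => h0 ?_) fun e => h1 ?_
  · rw [e, Submodule.map_bot]
  · rw [e, maptop_YE1 hg.2]

lemma Stb.ss {ρ : Rp I} (h : D.Stb ρ) : D.SS D.th ρ := fun U hU => by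
  by_cases h0 : U = ⊥
  · simp [h0]
  by_cases h1 : U = ⊤
  · simp [h1]
  exact (h.2 U hU h0 h1).le

variable (D) in
/-- the columns of `f` generate up to subrepresentations of negative weight -/
def Gen {μ : Type} (ρ : Rp I) (f : Matrix I μ ℂ) : Prop :=
  ∀ U, D.Sub ρ U → (∀ r, (fun i => f i r) ∈ U) → U ≠ ⊤ → D.wt D.th U < 0

lemma st_iff {p : Pt I D.m} : D.St p ↔ p.1 ∈ D.R ∧ D.SS D.th p.1 ∧ D.Gen p.1 p.2 :=
  ⟨fun h => ⟨h.1, h.2, h.3⟩, fun h => ⟨h.1, h.2.1, h.2.2⟩⟩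

lemma st_base {p : Pt I D.m} : D.St p ↔ p.1 ∈ D.R ∧ D.base.St p :=
  ⟨fun h => ⟨h.1, D.R_le h.1, h.2, h.3⟩, fun h => ⟨h.1, h.2.2, h.2.3⟩⟩

lemma Gen.act {μ : Type} {g : Matrix I I ℂ} (hg : g ∈ D.base.P) {ρ : Rp I} {f : Matrix I μ ℂ}
    (h : D.Gen ρ f) : D.Gen (actR g ρ) (g * f) := by
  intro U hU hf h1
  have hf' : ∀ r, (fun i => f i r) ∈ U.map g⁻¹.mulVecLin := fun r => ⟨_, hf r, by
    have : (fun i => (g * f) i r) = g *ᵥ fun i => f i r := rfl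
    rw [this, mulVecLin_apply, mulVec_mulVec, nonsing_inv_mul _ hg.2, one_mulVec]⟩
  rw [← mapinv_YE1 hg.2 U] at hU h1 ⊢
  rw [wt_act hg ((sub_act hg).1 hU).cg]
  exact h _ ((sub_act hg).1 hU) hf' fun e => h1 (by rw [e, maptop_YE1 hg.2])

lemma St.act {g : Matrix I I ℂ} (hg : g ∈ D.P) {p : Pt I D.m} (h : D.St p) : D.St (act g p) := 
  ⟨actR_mem hg h.1, h.2.act (D.P_le hg), Gen.act (D.P_le hg) (st_iff.1 h).2.2⟩

lemma gen_of_surj {μ : Type} [Fintype μ] (ρ : Rp I) {f : Matrix I μ ℂ}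
    (h : Function.Surjective f.mulVec) : D.Gen ρ f := by
  intro U _ hf h1
  refine absurd (top_le_iff.1 fun v _ => ?_) h1
  obtain ⟨x, rfl⟩ := h v
  have : f *ᵥ x = ∑ r, x r • fun i => f i r := by
    ext i
    simp [mulVec, dotProduct, mul_comm]
  rw [this]
  exact U.sum_mem fun r _ => U.smul_mem _ (hf r)

lemma Stb.gen_iff {μ : Type} {ρ : Rp I} (h : D.Stb ρ) {f : Matrix I μ ℂ} :
    D.Gen ρ f ↔ f ≠ 0 := by
  obtain ⟨⟨i⟩, h⟩ := h
  have : Nonempty I := ⟨i⟩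
  refine ⟨fun hg e => ?_, fun hf U hU hc h1 => h U hU (fun e => hf ?_) h1⟩
  · have := hg ⊥ SubE.bot (fun r => by rw [e]; rfl) bot_ne_top
    simp at this
  · ext i r
    exact congrFun ((Submodule.mem_bot ℂ).1 (e ▸ hc r)) i

variable (D) in
/-- subrepresentations of weight zero -/
def A (ρ : Rp I) (U : Submodule ℂ (I → ℂ)) : Prop := D.Sub ρ U ∧ D.wt D.th U = 0

lemma A.bot (ρ : Rp I) : D.A ρ ⊥ := ⟨SubE.bot, wt_bot⟩

lemma A.top (ρ : Rp I) : D.A ρ ⊤ := ⟨SubE.top, wt_top⟩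

lemma A.sup {ρ : Rp I} (hs : D.SS D.th ρ) (h : D.A ρ U) (h' : D.A ρ U') : D.A ρ (U ⊔ U') := by
  have a := wt_sup_inf (t := D.th) h.1.cg h'.1.cg
  have b := hs _ (h.1.sup h'.1)
  have c := hs _ (h.1.inf h'.1)
  exact ⟨h.1.sup h'.1, by have := h.2; have := h'.2; omega⟩

lemma A.inf {ρ : Rp I} (hs : D.SS D.th ρ) (h : D.A ρ U) (h' : D.A ρ U') : D.A ρ (U ⊓ U') := by
  have a := wt_sup_inf (t := D.th) h.1.cg h'.1.cg
  have b := hs _ (h.1.sup h'.1)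
  have c := hs _ (h.1.inf h'.1)
  exact ⟨h.1.inf h'.1, by have := h.2; have := h'.2; omega⟩

lemma A.iSup {ρ : Rp I} (hs : D.SS D.th ρ) {κ : Type} [Finite κ] {V : κ → Submodule ℂ (I → ℂ)}
    (h : ∀ s, D.A ρ (V s)) : D.A ρ (⨆ s, V s) := by
  have := Fintype.ofFinite κ
  rw [← Finset.sup_univ_eq_iSup]
  exact Finset.sup_induction (A.bot ρ) (fun _ a _ b => A.sup hs a b) fun s _ => h s

lemma a_act {g : Matrix I I ℂ} (hg : g ∈ D.base.P) {ρ : Rp I} :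
    D.A (actR g ρ) (U.map g.mulVecLin) ↔ D.A ρ U := 
  ⟨fun h => ⟨(sub_act hg).1 h.1, (wt_act hg ((sub_act hg).1 h.1).cg).symm.trans h.2⟩,
    fun h => ⟨(sub_act hg).2 h.1, (wt_act hg h.1.cg).trans h.2⟩⟩

/-- kernel and image of an intertwiner of semistable triples have weight zero -/
lemma a_ker_range {h : Matrix I I ℂ} (hh : h ∈ D.base.Lie) {ρ σ : Rp I}
    (hi : ∀ a, h * ρ a = σ a * h) (hρ : D.SS D.th ρ) (hσ : D.SS D.th σ) (hU : D.A ρ U) :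
    D.A ρ (LinearMap.ker h.mulVecLin ⊓ U) ∧ D.A σ (U.map h.mulVecLin) := by
  have s1 : D.Sub ρ (LinearMap.ker h.mulVecLin ⊓ U) := (sub_comap hh hi SubE.bot).inf hU.1
  have s2 := sub_map hh hi hU.1
  have a := wt_map (D := D) (D' := D) (t := D.th) (h := h)
    (fun i j e => (mem_base_Lie D).1 hh i j fun c => e c.1) hU.1.cg
  have b := hρ _ s1
  have c := hσ _ s2
  have := hU.2
  exact ⟨⟨s1, by omega⟩, s2, by omega⟩

lemma gen_iff {μ : Type} {ρ : Rp I} (hs : D.SS D.th ρ) {f : Matrix I μ ℂ} :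
    D.Gen ρ f ↔ ∀ U, D.A ρ U → (∀ r, (fun i => f i r) ∈ U) → U = ⊤ := 
  ⟨fun h U hU hf => by_contra fun e => (h U hU.1 hf e).ne hU.2,
    fun h U hU hf e => lt_of_le_of_ne (hs U hU) fun c => e (h U ⟨hU, c⟩ hf)⟩

/-- a subrepresentation of maximal weight is a cone point -/
lemma exists_max (t : Fin 3 → ℤ) (ρ : Rp I) : ∃ s, D.Sub ρ s ∧
    ∀ U, D.Sub ρ U → D.wt t U ≤ D.wt t s ∧ D.wt t U ≤ D.wt t (U ⊔ s) := by
  obtain ⟨b, hb⟩ := wt_le (D := D) t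
  obtain ⟨_, ⟨s, hs, rfl⟩, hm⟩ := Int.exists_greatest_of_bdd
    (P := fun z => ∃ U, D.Sub ρ U ∧ D.wt t U = z) ⟨b, fun _ ⟨U, _, e⟩ => e ▸ hb U⟩
    ⟨_, ⊥, SubE.bot, rfl⟩
  refine ⟨s, hs, fun U hU => ⟨hm _ ⟨U, hU, rfl⟩, ?_⟩⟩
  have a := wt_sup_inf (t := t) hU.cg hs.cg
  have c := hm _ ⟨_, hU.inf hs, rfl⟩
  omega

end Dat

end Pool.Agent.CS
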