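import Pool.Agent.P.MP_d34769_ag.YE2

/-! Homomorphisms of stable framed representations, and Schur's lemma. -/

open Matrix Classical

noncomputable section
namespace Pool.Agent.CS

variable {I : Type} [Fintype I] [DecidableEq I]

namespace Dat
variable {D : Dat I} {ρ σ : Rp I} {h : Matrix I I ℂ} {μ : Type}

lemma e3_col (hh : h ∈ D.base.Lie) : ∀ i j, D.col i ≠ D.col j → h i j = 0 :=
  fun i j hc => D.mem_base_Lie.1 hh i j fun e => hc e.1

lemma e3_ker (hh : h ∈ D.base.Lie) (hi : ∀ a, h * ρ a = σ a * h) {U : Submodule ℂ (I → ℂ)}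
    (hU : D.Sub ρ U) : D.Sub ρ (LinearMap.ker h.mulVecLin ⊓ U) :=
  SubE.inf (sub_comap hh hi (U := ⊥) SubE.bot) hU

omit [DecidableEq I] in
lemma e3_col_mul (f : Matrix I μ ℂ) (r : μ) :
    h.mulVecLin (fun i => f i r) = fun i => (h * f) i r := by
  funext i
  simp [Matrix.mulVec, Matrix.mul_apply, dotProduct]

/-- HOM0 -/
theorem hom0 {f : Matrix I μ ℂ} (hf : D.Gen ρ f) (hσ : D.SS D.th σ) (hh : h ∈ D.base.Lie)
    (hi : ∀ a, h * ρ a = σ a * h) (h0 : h * f = 0) : h = 0 := by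
  have hk := e3_ker hh hi (U := ⊤) SubE.top
  have hw := wt_map (D := D) (D' := D) (t := D.th) (U := ⊤) (e3_col hh)
    (Sub.cg (ρ := ρ) SubE.top)
  have h1 := hσ _ (sub_map hh hi (U := ⊤) SubE.top)
  rw [wt_top] at hw
  have ht : LinearMap.ker h.mulVecLin ⊓ ⊤ = ⊤ := by
    by_contra hne
    have := hf _ hk (fun r => ⟨by
      rw [SetLike.mem_coe, LinearMap.mem_ker, e3_col_mul, h0]; rfl, trivial⟩) hne
    omega
  rw [inf_top_eq, LinearMap.ker_eq_top] at ht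
  apply Matrix.toLin'.injective
  rw [map_zero]
  exact ht

/-- HOM1 -/
theorem hom1 {f f' : Matrix I μ ℂ} (hf : D.Gen σ f') (hρ : D.SS D.th ρ) (hh : h ∈ D.base.Lie)
    (hi : ∀ a, h * ρ a = σ a * h) (h0 : h * f = f') : IsUnit h.det := by
  have hk := hρ _ (e3_ker hh hi (U := ⊤) SubE.top)
  have hw := wt_map (D := D) (D' := D) (t := D.th) (U := ⊤) (e3_col hh)
    (Sub.cg (ρ := ρ) SubE.top)
  rw [wt_top] at hw
  have ht : (⊤ : Submodule ℂ (I → ℂ)).map h.mulVecLin = ⊤ := by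
    by_contra hne
    have := hf _ (sub_map hh hi (U := ⊤) SubE.top)
      (fun r => ⟨fun i => f i r, trivial, by rw [e3_col_mul, h0]⟩) hne
    omega
  rw [Submodule.map_top, LinearMap.range_eq_top] at ht
  exact (Matrix.isUnit_iff_isUnit_det h).1 (Matrix.mulVec_surjective_iff_isUnit.1 ht)

theorem St.hom0 {p q : Pt I D.m} (hp : D.St p) (hq : D.St q) (hh : h ∈ D.base.Lie)
    (hi : ∀ a, h * p.1 a = q.1 a * h) (h0 : h * p.2 = 0) : h = 0 :=
  Dat.hom0 hp.gen hq.ss hh hi h0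

/-- the group acts freely -/
theorem St.free {p : Pt I D.m} (hp : D.St p) {g g' : Matrix I I ℂ} (hg : g ∈ D.base.P)
    (hg' : g' ∈ D.base.P) (he : CS.act g p = CS.act g' p) : g = g' := by
  have e1 : actR g p.1 = actR g' p.1 := congrArg Prod.fst he
  have e2 : g * p.2 = g' * p.2 := congrArg Prod.snd he
  have i1 := (actR_eq_iff hg.2 (ρ := p.1)).1 rfl
  have i2 := (actR_eq_iff hg'.2 (ρ := p.1)).1 e1.symm
  refine sub_eq_zero.1 (Dat.hom0 hp.gen (SS.act hg hp.ss) (D.base.Lie.sub_mem hg.1 hg'.1)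
    (fun a => ?_) ?_)
  · rw [Matrix.sub_mul, Matrix.mul_sub, i1, i2]
  · rw [Matrix.sub_mul, e2, sub_self]

/-- a nonzero intertwiner of stable blocks is bijective -/
theorem schur_on {F F' : Set I} (hF : D.A ρ (sp F)) (hF' : D.A σ (sp F')) (hs : D.StbOn ρ F)
    (hs' : D.StbOn σ F') (hh : h ∈ D.base.Lie) (hi : ∀ a, h * ρ a = σ a * h)
    (hm : (sp F).map h.mulVecLin ≤ sp F') (h0 : (sp F).map h.mulVecLin ≠ ⊥) :
    LinearMap.ker h.mulVecLin ⊓ sp F = ⊥ ∧ (sp F).map h.mulVecLin = sp F' := by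
  have hk := e3_ker hh hi hF.1
  have hM := sub_map hh hi hF.1
  have hw := wt_map (D := D) (D' := D) (t := D.th) (e3_col hh) hF.1.cg
  rw [hF.2] at hw
  have h1 := hs'.ssOn hF'.2 _ hM hm
  have hb : LinearMap.ker h.mulVecLin ⊓ sp F = ⊥ := by
    by_contra hne
    have := hs.2 _ hk inf_le_right hne fun e => h0 (by
      rw [eq_bot_iff, Submodule.map_le_iff_le_comap]
      exact inf_eq_right.1 e)
    omega
  refine ⟨hb, ?_⟩
  by_contra hne
  have := hs'.2 _ hM hm h0 hne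
  rw [hb, wt_bot] at hw
  omega

/-- an endomorphism of a stable block is a scalar -/
theorem scalar_on {F : Set I} (hF : D.A ρ (sp F)) (hs : D.StbOn ρ F) (hh : h ∈ D.base.Lie)
    (hi : ∀ a, h * ρ a = ρ a * h) (hm : (sp F).map h.mulVecLin ≤ sp F) :
    ∃ c : ℂ, ∀ v ∈ sp F, h *ᵥ v = c • v := by
  have hn : Nontrivial (sp F) := by
    rw [Submodule.nontrivial_iff_ne_bot]
    intro e
    rw [← sp_empty, sp_inj] at e
    exact hs.1.ne_empty e
  obtain ⟨c, hc⟩ := Module.End.exists_eigenvalue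
    (h.mulVecLin.restrict (p := sp F) (q := sp F) fun x hx => hm ⟨x, hx, rfl⟩)
  obtain ⟨w, hw⟩ := hc.exists_hasEigenvector
  have hw1 : h *ᵥ w.1 = c • w.1 := congrArg Subtype.val hw.apply_eq_smul
  have ha : ∀ v, (h - c • (1 : Matrix I I ℂ)).mulVecLin v = h *ᵥ v - c • v := fun v => by
    simp
  refine ⟨c, fun v hv => ?_⟩
  by_contra hne
  have := (schur_on (h := h - c • 1) hF hF hs hs
    (D.base.Lie.sub_mem hh (D.base.Lie.smul_mem c D.base.one_mem_Lie))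
    (fun a => by rw [Matrix.sub_mul, Matrix.mul_sub, hi]; simp)
    (by
      rintro _ ⟨x, hx, rfl⟩
      rw [ha]
      exact (sp F).sub_mem (hm ⟨x, hx, rfl⟩) ((sp F).smul_mem c hx))
    (fun e => hne (by
      have : (h - c • (1 : Matrix I I ℂ)).mulVecLin v ∈ (⊥ : Submodule ℂ (I → ℂ)) :=
        e ▸ ⟨v, hv, rfl⟩
      rwa [Submodule.mem_bot, ha, sub_eq_zero] at this))).1
  have h2 : w.1 ∈ (⊥ : Submodule ℂ (I → ℂ)) :=
    this ▸ ⟨by rw [SetLike.mem_coe, LinearMap.mem_ker, ha, hw1, sub_self], w.2⟩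
  exact hw.2 (Subtype.ext h2)

theorem Stb.scalar (hs : D.Stb ρ) (hh : h ∈ D.base.Lie) (hi : ∀ a, h * ρ a = ρ a * h) :
    ∃ c : ℂ, h = c • (1 : Matrix I I ℂ) := by
  obtain ⟨c, hc⟩ := scalar_on (F := Set.univ) (by rw [sp_univ]; exact A.top ρ) (stbOn_univ.2 hs) hh
    hi (by rw [sp_univ]; exact le_top)
  refine ⟨c, Matrix.toLin'.injective (LinearMap.ext fun v => ?_)⟩
  simpa [Matrix.smul_mulVec] using hc v (by rw [sp_univ]; trivial)

end Dat

end Pool.Agent.CS
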