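import Pool.Agent.P.MP_d34769_ag.YE4

/-! Limits of pairs of isomorphic representations. -/

open Matrix Filter Topology

noncomputable section
namespace Pool.Agent.CS

variable {I : Type} [Fintype I] [DecidableEq I]

/-- The block unitary matrices form a compact set. -/
theorem e6_compact (e : I → I → Prop) :
    IsCompact {k : Matrix I I ℂ | k ∈ unitaryGroup I ℂ ∧ ∀ i j, k i j ≠ 0 → e i j} := by
  have h1 : IsCompact (Set.pi Set.univ fun _ : I => Set.pi Set.univ fun _ : I =>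
      Metric.closedBall (0 : ℂ) 1) :=
    isCompact_univ_pi fun _ => isCompact_univ_pi fun _ => isCompact_closedBall _ _
  refine IsCompact.of_isClosed_subset (X := Matrix I I ℂ) h1 (IsClosed.inter ?_ ?_) ?_
  · have : {k : Matrix I I ℂ | k ∈ unitaryGroup I ℂ} = {k | k * kᴴ = 1} :=
      Set.ext fun k => mem_unitaryGroup_iff
    show IsClosed {k : Matrix I I ℂ | k ∈ unitaryGroup I ℂ}
    rw [this]
    exact isClosed_eq (continuous_id.matrix_mul continuous_id.matrix_conjTranspose)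
      continuous_const
  · have : {k : Matrix I I ℂ | ∀ i j, k i j ≠ 0 → e i j} =
        ⋂ i, ⋂ j, ⋂ _ : ¬ e i j, {k | k i j = 0} := by
      ext k
      simp only [Set.mem_ofPred_eq, Set.mem_iInter]
      exact ⟨fun h i j hn => by_contra fun h' => hn (h i j h'),
        fun h i j h' => by_contra fun hn => h' (h i j hn)⟩
    show IsClosed {k : Matrix I I ℂ | ∀ i j, k i j ≠ 0 → e i j}
    rw [this]
    exact isClosed_iInter fun i => isClosed_iInter fun j => isClosed_iInter fun _ =>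
      isClosed_eq (continuous_id.matrix_elem i j) continuous_const
  · intro k hk i _ j _
    simpa using entry_norm_bound_of_unitary hk.1 i j

theorem e6_inv {k : Matrix I I ℂ} (hk : k ∈ unitaryGroup I ℂ) : k⁻¹ = kᴴ :=
  inv_eq_right_inv (mem_unitaryGroup_iff.1 hk)

omit [Fintype I] [DecidableEq I] in
/-- Ratios of positive functions along an ultrafilter. -/
theorem e6_ratio {X : Type} (u : Ultrafilter X) (t : X → I → ℝ) (ht : ∀ x i, 0 < t x i) :
    ∃ r : I → I → Prop, (∀ i, r i i) ∧ (∀ i j l, r i j → r j l → r i l) ∧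
      (∀ i j, r i j ∨ r j i) ∧ (∀ i j, ¬ r i j → Tendsto (fun x => t x j / t x i) u (𝓝 0)) ∧
      ∃ s : I → ℝ, (∀ i, 0 < s i) ∧
        ∀ i j, r i j → r j i → Tendsto (fun x => t x i / t x j) u (𝓝 (s i / s j)) := by
  let r : I → I → Prop := fun i j => ∃ C : ℝ, 0 < C ∧ ∀ᶠ x in u, t x i ≤ C * t x j
  have hr : ∀ i, r i i := fun i => ⟨1, one_pos, Eventually.of_forall fun x => by simp⟩
  have htr : ∀ i j l, r i j → r j l → r i l := by
    rintro i j l ⟨C, hC, h⟩ ⟨C', hC', h'⟩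
    refine ⟨C * C', mul_pos hC hC', (h.and h').mono fun x hx => ?_⟩
    rw [mul_assoc]
    exact hx.1.trans (mul_le_mul_of_nonneg_left hx.2 hC.le)
  have hlim : ∀ i j, r i j → r j i → ∃ c, 0 < c ∧ Tendsto (fun x => t x i / t x j) u (𝓝 c) := by
    rintro i j ⟨C, hC, h⟩ ⟨C', hC', h'⟩
    obtain ⟨c, hc, hl⟩ := (isCompact_Icc (a := C'⁻¹) (b := C)).ultrafilter_le_nhds'
      (u.map fun x => t x i / t x j) (by
        refine (h.and h').mono fun x hx => ⟨?_, (div_le_iff₀ (ht x j)).2 hx.1⟩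
        rw [le_div_iff₀ (ht x j), inv_mul_le_iff₀ hC']
        exact hx.2)
    exact ⟨c, (inv_pos.2 hC').trans_le hc.1, hl⟩
  let st : Setoid I := ⟨fun i j => r i j ∧ r j i, fun i => ⟨hr i, hr i⟩, fun h => h.symm,
    fun h h' => ⟨htr _ _ _ h.1 h'.1, htr _ _ _ h'.2 h.2⟩⟩
  have hout : ∀ i, ∃ c, 0 < c ∧
      Tendsto (fun x => t x i / t x (Quotient.mk st i).out) u (𝓝 c) := fun i =>
    hlim _ _ (Quotient.mk_out (s := st) i).2 (Quotient.mk_out (s := st) i).1
  choose s hs hs' using hout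
  refine ⟨r, hr, htr, fun i j => ?_, fun i j hn => ?_, s, hs, fun i j h h' => ?_⟩
  · have : ∀ᶠ x in u, t x i ≤ 1 * t x j ∨ t x j ≤ 1 * t x i :=
      Eventually.of_forall fun x => by simpa using le_total _ _
    exact (Ultrafilter.eventually_or.1 this).imp (fun h => ⟨1, one_pos, h⟩) fun h => ⟨1, one_pos, h⟩
  · rw [Metric.tendsto_nhds]
    intro ε hε
    have h1 : ¬ ∀ᶠ x in u, t x i ≤ ε⁻¹ * t x j := fun h => hn ⟨_, inv_pos.2 hε, h⟩
    refine (Ultrafilter.eventually_not.2 h1).mono fun x hx => ?_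
    rw [Real.dist_eq, sub_zero, abs_of_pos (div_pos (ht x j) (ht x i)), div_lt_iff₀ (ht x i)]
    rwa [not_le, inv_mul_lt_iff₀ hε] at hx
  · have h1 : Quotient.mk st i = Quotient.mk st j := Quotient.sound ⟨h, h'⟩
    have h2 := hs' i
    rw [h1] at h2
    refine (h2.div (hs' j) (hs j).ne').congr fun x => ?_
    exact div_div_div_cancel_right₀ (ht x _).ne' _ _

/-- The analytic part of the separation lemma. -/
theorem Dat.sep_core (D : Dat I) {a b : Rp I}
    (h : (a, b) ∈ closure {x : Rp I × Rp I | ∃ g ∈ D.base.P, x.2 = actR g x.1}) :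
    ∃ k ∈ unitaryGroup I ℂ, k ∈ D.base.P ∧ ∃ k' ∈ unitaryGroup I ℂ, k' ∈ D.base.P ∧
      ∃ r : I → I → Prop, (∀ i, r i i) ∧ (∀ i j l, r i j → r j l → r i l) ∧
        (∀ i j, r i j ∨ r j i) ∧ (∀ c i j, ¬ r i j → actR k a c i j = 0) ∧
        (∀ c i j, ¬ r j i → actR k' b c i j = 0) ∧ ∃ s : I → ℝ, (∀ i, 0 < s i) ∧
          ∀ c i j, r i j → r j i → actR k' b c i j = s i * actR k a c i j * (s j : ℂ)⁻¹ := by
  obtain ⟨u, hS, hu⟩ := mem_closure_iff_ultrafilter.1 h
  have hch : ∀ x : Rp I × Rp I, ∃ k k' : Matrix I I ℂ, ∃ t : I → ℝ,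
      (k ∈ unitaryGroup I ℂ ∧ ∀ i j, k i j ≠ 0 → D.cc i j) ∧
      (k' ∈ unitaryGroup I ℂ ∧ ∀ i j, k' i j ≠ 0 → D.cc i j) ∧ (∀ i, 0 < t i) ∧
      ((∃ g ∈ D.base.P, x.2 = actR g x.1) → ∀ c i j, (k' * x.2 c * k'ᴴ) i j =
        ((t i / t j : ℝ) : ℂ) * (k * x.1 c * kᴴ) i j) := by
    intro x
    by_cases hx : ∃ g ∈ D.base.P, x.2 = actR g x.1
    · obtain ⟨g, hg, hx⟩ := hx
      obtain ⟨k, hk, k', hk', h1, h2, t, ht, rfl⟩ := D.kak hg
      have h3 : kᴴ * k = 1 := mem_unitaryGroup_iff'.1 hk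
      have h4 : k * kᴴ = 1 := mem_unitaryGroup_iff.1 hk
      have h5 : k' * k'ᴴ = 1 := mem_unitaryGroup_iff.1 hk'
      refine ⟨k', kᴴ, t, ⟨hk', (D.e4_memG.1 h2).1⟩, ⟨?_, e4_ct (fun _ _ => D.e4_cc.symm)
        (D.e4_memG.1 h1).1⟩, ht, fun _ c i j => ?_⟩
      · rw [mem_unitaryGroup_iff', star_eq_conjTranspose, conjTranspose_conjTranspose, h4]
      · have h6 : (k * diagonal (fun i => (t i : ℂ)) * k')⁻¹ =
            k'ᴴ * diagonal (fun i => (t i : ℂ)⁻¹) * kᴴ := by
          apply inv_eq_right_inv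
          have h7 : (fun i => (t i : ℂ) * (t i : ℂ)⁻¹) = fun _ => 1 := funext fun i =>
            mul_inv_cancel₀ (by exact_mod_cast (ht i).ne')
          simp only [← Matrix.mul_assoc]
          rw [Matrix.mul_assoc _ k', h5, Matrix.mul_one, Matrix.mul_assoc k, diagonal_mul_diagonal,
            h7, diagonal_one, Matrix.mul_one, h4]
        have h8 : kᴴ * x.2 c * kᴴᴴ = diagonal (fun i => (t i : ℂ)) * (k' * x.1 c * k'ᴴ) *
            diagonal fun i => (t i : ℂ)⁻¹ := by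
          rw [hx, conjTranspose_conjTranspose]
          simp only [actR, h6, ← Matrix.mul_assoc, h3, Matrix.one_mul]
          rw [Matrix.mul_assoc _ kᴴ, h3, Matrix.mul_one]
        rw [h8, mul_diagonal, diagonal_mul]
        push_cast
        ring
    · exact ⟨1, 1, fun _ => 1, ⟨one_mem _, e4_one D.e4_cc.refl⟩, ⟨one_mem _, e4_one D.e4_cc.refl⟩,
        fun _ => one_pos, fun h => absurd h hx⟩
  choose k k' t hk hk' ht hrel using hch
  obtain ⟨K, hK, hKl⟩ := (e6_compact D.cc).ultrafilter_le_nhds' (u.map k)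
    (Ultrafilter.mem_map.2 (Filter.univ_mem' hk))
  obtain ⟨K', hK', hKl'⟩ := (e6_compact D.cc).ultrafilter_le_nhds' (u.map k')
    (Ultrafilter.mem_map.2 (Filter.univ_mem' hk'))
  obtain ⟨r, h1, h2, h3, h4, s, hs, h5⟩ := e6_ratio u t ht
  have hcont : ∀ c i j, Continuous fun y : Matrix I I ℂ × Rp I => (y.1 * y.2 c * y.1ᴴ) i j :=
    fun c i j => ((continuous_fst.matrix_mul ((continuous_apply c).comp continuous_snd)).matrix_mul
      continuous_fst.matrix_conjTranspose).matrix_elem i j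
  have hA : ∀ c i j, Tendsto (fun x => (k x * x.1 c * (k x)ᴴ) i j) u (𝓝 (actR K a c i j)) := by
    intro c i j
    have := ((hcont c i j).tendsto (K, a)).comp
      (Tendsto.prodMk_nhds hKl ((continuous_fst.tendsto (a, b)).mono_left hu))
    simpa only [actR, e6_inv hK.1, Function.comp_def] using this
  have hB : ∀ c i j, Tendsto (fun x => (k' x * x.2 c * (k' x)ᴴ) i j) u (𝓝 (actR K' b c i j)) := by
    intro c i j
    have := ((hcont c i j).tendsto (K', b)).comp
      (Tendsto.prodMk_nhds hKl' ((continuous_snd.tendsto (a, b)).mono_left hu))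
    simpa only [actR, e6_inv hK'.1, Function.comp_def] using this
  have hev : ∀ c i j, ∀ᶠ x in u, ((t x i / t x j : ℝ) : ℂ) * (k x * x.1 c * (k x)ᴴ) i j =
      (k' x * x.2 c * (k' x)ᴴ) i j := fun c i j =>
    Eventually.mono hS fun x hx => (hrel x hx c i j).symm
  refine ⟨K, hK.1, D.e4_memG.2 ⟨hK.2, e4_unit_det hK.1⟩, K', hK'.1,
    D.e4_memG.2 ⟨hK'.2, e4_unit_det hK'.1⟩, r, h1, h2, h3, fun c i j hn => ?_,
    fun c i j hn => ?_, s, hs, fun c i j hij hji => ?_⟩
  · have h6 := ((Complex.continuous_ofReal.tendsto _).comp (h4 i j hn)).mul (hB c i j)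
    rw [Complex.ofReal_zero, zero_mul] at h6
    refine tendsto_nhds_unique (hA c i j) (h6.congr' ((hev c i j).mono fun x hx => ?_))
    have h7 : (t x i : ℂ) ≠ 0 := by exact_mod_cast (ht x i).ne'
    have h8 : (t x j : ℂ) ≠ 0 := by exact_mod_cast (ht x j).ne'
    simp only [Function.comp_apply, ← hx]
    push_cast
    field_simp
  · have h6 := ((Complex.continuous_ofReal.tendsto _).comp (h4 j i hn)).mul (hA c i j)
    rw [Complex.ofReal_zero, zero_mul] at h6
    exact tendsto_nhds_unique (hB c i j) (h6.congr' (hev c i j))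
  · have h6 := ((Complex.continuous_ofReal.tendsto _).comp (h5 i j hij hji)).mul (hA c i j)
    rw [tendsto_nhds_unique (hB c i j) (h6.congr' (hev c i j))]
    push_cast
    ring

omit [DecidableEq I] in
/-- The ordered partition by the levels of a function. -/
theorem e6_levels (o : I → ℕ) (n s : ℕ) : ∃ l : List (Finset I),
    (∀ b ∈ l, b.Nonempty ∧ ∃ v, s ≤ v ∧ v < s + n ∧ ∀ j, j ∈ b ↔ o j = v) ∧
    (l.map Finset.val).sum = (Finset.univ.filter fun j => s ≤ o j ∧ o j < s + n).val ∧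
    ∀ i j, Ord l i j ↔ s ≤ o i ∧ o i ≤ o j ∧ o j < s + n := by
  induction n generalizing s with
  | zero =>
    refine ⟨[], by simp, ?_, fun i j => ⟨fun h => by simpa using h.mem.1, fun h => by omega⟩⟩
    rw [Finset.filter_false_of_mem fun j _ => by omega]; rfl
  | succ n ih =>
    obtain ⟨l, h1, h2, h3⟩ := ih (s + 1)
    have hmem : ∀ j, (∃ b ∈ l, j ∈ b) ↔ s + 1 ≤ o j ∧ o j < s + 1 + n := fun j =>
      ⟨fun ⟨b, hb, hj⟩ => by
        obtain ⟨v, a1, a2, a3⟩ := (h1 b hb).2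
        rw [(a3 j).1 hj]; exact ⟨a1, a2⟩,
      fun h => ((h3 j j).2 ⟨h.1, le_rfl, h.2⟩).mem.1⟩
    by_cases hne : ∃ j, o j = s
    · refine ⟨(Finset.univ.filter fun j => o j = s) :: l, ?_, ?_, fun i j => ?_⟩
      · intro b hb
        rcases List.mem_cons.1 hb with rfl | hb
        · exact ⟨hne.imp fun j hj => by simpa using hj, s, le_rfl, by omega, fun j => by simp⟩
        · obtain ⟨a0, v, a1, a2, a3⟩ := h1 b hb
          exact ⟨a0, v, by omega, by omega, a3⟩
      · rw [List.map_cons, List.sum_cons, h2, Finset.filter_val, Finset.filter_val,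
          Finset.filter_val, Multiset.filter_add_filter,
          (Multiset.filter_eq_nil (p := fun j => o j = s ∧ s + 1 ≤ o j ∧ o j < s + 1 + n)).2
            fun j _ => by omega, add_zero]
        exact Multiset.filter_congr fun j _ => by omega
      · rw [ord_cons, h3, hmem]
        simp only [Finset.mem_filter, Finset.mem_univ, true_and]
        omega
    · have hne' : ∀ j, o j ≠ s := fun j h => hne ⟨j, h⟩
      refine ⟨l, fun b hb => ?_, ?_, fun i j => ?_⟩
      · obtain ⟨a0, v, a1, a2, a3⟩ := h1 b hb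
        exact ⟨a0, v, by omega, by omega, a3⟩
      · rw [h2]
        congr 1
        exact Finset.filter_congr fun j _ => by have := hne' j; omega
      · rw [h3]
        have := hne' i
        omega

/-- A total preorder is the order of an ordered partition into its classes. -/
theorem e6_part {r : I → I → Prop} (hr : ∀ i, r i i) (ht : ∀ i j l, r i j → r j l → r i l)
    (htot : ∀ i j, r i j ∨ r j i) : ∃ l : List (Finset I), Part l ∧ (∀ i j, Ord l i j ↔ r i j) ∧
      ∀ b ∈ l, ∀ i ∈ b, ∀ j, j ∈ b ↔ r i j ∧ r j i := by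
  let o : I → ℕ := fun j => {i | r i j}.ncard
  have ho : ∀ i j, r i j ↔ o i ≤ o j := fun i j =>
    ⟨fun h => Set.ncard_le_ncard fun l (hl : r l i) => ht _ _ _ hl h, fun h => by
      by_contra hn
      exact h.not_gt (Set.ncard_lt_ncard ⟨fun l (hl : r l j) =>
        ht _ _ _ hl ((htot i j).resolve_left hn), fun hh => hn (hh (hr i))⟩)⟩
  have hb : ∀ j, o j < 0 + (Fintype.card I + 1) := fun j => by
    have := Set.ncard_le_card {i | r i j}
    rw [Nat.card_eq_fintype_card] at this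
    show {i | r i j}.ncard < _
    omega
  obtain ⟨l, h1, h2, h3⟩ := e6_levels o (Fintype.card I + 1) 0
  refine ⟨l, ⟨fun b hb => (h1 b hb).1, ?_⟩, fun i j => ?_, fun b hb i hi j => ?_⟩
  · rw [h2, Finset.filter_true_of_mem fun j _ => ⟨Nat.zero_le _, hb j⟩]
  · rw [h3, ho]
    exact ⟨fun h => h.2.1, fun h => ⟨Nat.zero_le _, h, hb j⟩⟩
  · obtain ⟨v, -, -, h4⟩ := (h1 b hb).2
    rw [h4, ho, ho, (h4 i).1 hi]
    omega

omit [Fintype I] [DecidableEq I] in
theorem e6_ord_reverse (l : List (Finset I)) (i j : I) : Ord l.reverse i j ↔ Ord l j i := by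
  have : ∀ (l : List (Finset I)) i j, Ord l i j → Ord l.reverse j i := by
    rintro l i j ⟨a, b, hi, hj, h⟩
    refine ⟨b, a, hj, hi, h.imp (fun h => ⟨h.1.symm, by simpa [← h.1] using h.2⟩) fun h => ?_⟩
    simpa using h.reverse
  exact ⟨fun h => by simpa using this _ _ _ h, this _ _ _⟩

omit [DecidableEq I] in
theorem e6_part_reverse {l : List (Finset I)} (h : Part l) : Part l.reverse :=
  ⟨fun b hb => h.1 b (List.mem_reverse.1 hb), by rw [List.map_reverse, List.sum_reverse, h.2]⟩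

namespace Dat
variable (D : Dat I)

/-- The weight of a coordinate subspace. -/
theorem e6_wt_sp (t : Fin 3 → ℤ) (F : Finset I) :
    D.wt t (sp (F : Set I)) = ∑ j ∈ F, t (D.col j) := by
  rw [← Finset.sum_fiberwise_of_maps_to (t := Finset.univ) (g := D.col) fun _ _ =>
    Finset.mem_univ _]
  refine Finset.sum_congr rfl fun v _ => ?_
  rw [e4_sp_inf, e4_finrank_sp, Finset.sum_congr rfl (g := fun _ => t v) fun j hj => by
    rw [(Finset.mem_filter.1 hj).2], Finset.sum_const, nsmul_eq_mul, mul_comm,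
    ← Set.ncard_coe_finset]
  congr 3
  ext j; simp

theorem e6_R_act {ρ : Rp I} (h : ρ ∈ D.base.R) {g : Matrix I I ℂ} (hg : g ∈ D.base.P) :
    actR g ρ ∈ D.base.R := by
  intro c i j hn
  by_contra h0
  rw [actR, Matrix.mul_apply] at h0
  obtain ⟨l, -, h1⟩ := Finset.exists_ne_zero_of_sum_ne_zero h0
  have h2 := left_ne_zero_of_mul h1
  rw [Matrix.mul_apply] at h2
  obtain ⟨l', -, h3⟩ := Finset.exists_ne_zero_of_sum_ne_zero h2
  have a1 := (D.e4_memG.1 hg).1 _ _ (left_ne_zero_of_mul h3)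
  have a2 := (D.e4_memG.1 (D.base.e4_P_inv hg)).1 _ _ (right_ne_zero_of_mul h1)
  have a3 : D.base.ap c l' l := by_contra fun h' => right_ne_zero_of_mul h3 (h c l' l h')
  exact hn ⟨a1.1.trans a3.1, a2.1.symm.trans a3.2.1, D.cp_eq.3 a1.2 (D.cp_eq.3 a3.2.2 a2.2)⟩

theorem e6_wt_map (t : Fin 3 → ℤ) {g : Matrix I I ℂ} (hg : g ∈ D.base.P)
    (U : Submodule ℂ (I → ℂ)) :
    D.wt t (U.map g.mulVecLin) = D.wt t U := by
  refine Finset.sum_congr rfl fun v _ => ?_
  have hb := (D.e4_memG.1 hg).1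
  have key : ∀ {g : Matrix I I ℂ}, (∀ i j, g i j ≠ 0 → D.cc i j) →
      ∀ x ∈ sp {i | D.col i = v}, g *ᵥ x ∈ sp {i | D.col i = v} := by
    intro g hb x hx
    refine e4_mem_sp.2 fun j hj => Finset.sum_eq_zero fun l _ => ?_
    by_cases h0 : g j l = 0
    · simp [h0]
    · rw [e4_mem_sp.1 hx l fun h' => hj ((hb j l h0).1.trans h'), mul_zero]
  have : U.map g.mulVecLin ⊓ sp {i | D.col i = v} =
      (U ⊓ sp {i | D.col i = v}).map g.mulVecLin := by
    apply le_antisymm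
    · rintro _ ⟨⟨x, hx, rfl⟩, h2⟩
      refine ⟨x, ⟨hx, ?_⟩, rfl⟩
      have := key (D.e4_memG.1 (D.base.e4_P_inv hg)).1 _ h2
      rwa [mulVecLin_apply, mulVec_mulVec, nonsing_inv_mul _ hg.2, one_mulVec] at this
    · rintro _ ⟨x, hx, rfl⟩
      exact ⟨⟨x, hx.1, rfl⟩, key hb x hx.2⟩
  rw [this, e4_finrank_map hg.2]

theorem e6_SS_act {t : Fin 3 → ℤ} {ρ : Rp I} (h : D.SS t ρ) {g : Matrix I I ℂ}
    (hg : g ∈ D.base.P) : D.SS t (actR g ρ) := by
  intro U hU
  have hi := D.base.e4_P_inv hg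
  rw [← D.e6_wt_map t hi U]
  refine h _ ⟨e4_gr_map D.e4_cc (D.e4_memG.1 hi).1 hU.gr, ?_⟩
  rintro c _ ⟨v, hv, rfl⟩
  refine ⟨_, hU.st c v hv, ?_⟩
  simp only [mulVecLin_apply, actR, mulVec_mulVec, ← Matrix.mul_assoc, nonsing_inv_mul _ hg.2,
    Matrix.one_mul]

/-- A coordinate subspace that is closed under the entries is a subrepresentation. -/
theorem e6_sub_sp {ρ : Rp I} {F : Set I} (h : ∀ c i j, ρ c i j ≠ 0 → j ∈ F → i ∈ F) :
    D.Sub ρ (sp F) := by
  refine ⟨e4_gr_sp F, fun c v hv => e4_mem_sp.2 fun i hi => Finset.sum_eq_zero fun j _ => ?_⟩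
  by_cases h0 : ρ c i j = 0
  · simp [h0]
  · rw [e4_mem_sp.1 hv j fun h' => hi (h c i j h0 h'), mul_zero]

/-- Down-sets have weight zero in each component when `A` is supported on `r`, `B` on the
opposite relation, and both are semistable. -/
theorem e6_down {A B : Rp I} (hA : A ∈ D.base.R) (hB : B ∈ D.base.R) (sA : D.SS D.th A)
    (sB : D.SS D.th B) {r : I → I → Prop} (rA : ∀ c i j, ¬ r i j → A c i j = 0)
    (rB : ∀ c i j, ¬ r j i → B c i j = 0) {G : Set I} (hG : ∀ i j, r i j → j ∈ G → i ∈ G) (i0 : I)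
    (F : Finset I) (hF : ∀ j, j ∈ F ↔ D.cp i0 j ∧ j ∈ G) : ∑ j ∈ F, D.th (D.col j) = 0 := by
  classical
  let C : Finset I := Finset.univ.filter fun j => D.cp i0 j
  have h0 := D.bal i0 C fun j => by simp [C]
  have hFC : F ⊆ C := fun j hj => by simpa [C] using ((hF j).1 hj).1
  rw [← Finset.sum_sdiff hFC] at h0
  have h1 := sA _ (D.e6_sub_sp (F := (F : Set I)) fun c i j h hj => by
    have a1 : D.base.ap c i j := by_contra fun h' => h (hA c i j h')
    have a2 := (hF j).1 hj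
    exact (hF i).2 ⟨D.cp_eq.3 a2.1 (D.cp_eq.2 a1.2.2), hG i j (by_contra fun h' =>
      h (rA c i j h')) a2.2⟩)
  have h2 := sB _ (D.e6_sub_sp (F := ((C \ F : Finset I) : Set I)) fun c i j h hj => by
    have a1 : D.base.ap c i j := by_contra fun h' => h (hB c i j h')
    simp only [C, Finset.coe_sdiff, Set.mem_sdiff, Finset.mem_coe, Finset.mem_filter,
      Finset.mem_univ, true_and, hF] at hj ⊢
    exact ⟨D.cp_eq.3 hj.1 (D.cp_eq.2 a1.2.2), fun h' => hj.2 ⟨hj.1, hG j i (by_contra fun h'' =>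
      h (rB c i j h'')) h'.2⟩⟩)
  rw [e6_wt_sp] at h1 h2
  omega

/-- The classes have weight zero in each component. -/
theorem e6_class {A B : Rp I} (hA : A ∈ D.base.R) (hB : B ∈ D.base.R) (sA : D.SS D.th A)
    (sB : D.SS D.th B) {r : I → I → Prop} (ht : ∀ i j l, r i j → r j l → r i l)
    (rA : ∀ c i j, ¬ r i j → A c i j = 0) (rB : ∀ c i j, ¬ r j i → B c i j = 0) (i0 i1 : I)
    (F : Finset I) (hF : ∀ j, j ∈ F ↔ D.cp i0 j ∧ r i1 j ∧ r j i1) :
    ∑ j ∈ F, D.th (D.col j) = 0 := by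
  classical
  let F1 : Finset I := Finset.univ.filter fun j => D.cp i0 j ∧ r j i1
  have h1 := D.e6_down hA hB sA sB rA rB (G := {j | r j i1}) (fun i j h hj => ht _ _ _ h hj) i0
    F1 fun j => by simp [F1]
  have hF1 : F ⊆ F1 := fun j hj => by
    have := (hF j).1 hj
    simp [F1, this.1, this.2.2]
  have h2 := D.e6_down hA hB sA sB rA rB (G := {j | r j i1 ∧ ¬ r i1 j})
    (fun i j h hj => ⟨ht _ _ _ h hj.1, fun h' => hj.2 (ht _ _ _ h' h)⟩) i0 (F1 \ F) fun j => by
      simp only [F1, Finset.mem_sdiff, Finset.mem_filter, Finset.mem_univ, true_and, hF,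
        Set.mem_ofPred_eq]
      tauto
  rw [← Finset.sum_sdiff hF1, h2, zero_add] at h1
  exact h1

open Classical in
/-- The separation lemma, with a total preorder. -/
theorem sep_rel {a b : Rp I} (ha : a ∈ D.base.R) (hb : b ∈ D.base.R) (sa : D.SS D.th a)
    (sb : D.SS D.th b)
    (h : (a, b) ∈ closure {x : Rp I × Rp I | ∃ g ∈ D.base.P, x.2 = actR g x.1}) :
    ∃ k ∈ unitaryGroup I ℂ, k ∈ D.base.P ∧ ∃ k' ∈ unitaryGroup I ℂ, k' ∈ D.base.P ∧
      ∃ r : I → I → Prop, (∀ i, r i i) ∧ (∀ i j l, r i j → r j l → r i l) ∧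
        (∀ i j, r i j ∨ r j i) ∧ (∀ c i j, ¬ r i j → actR k a c i j = 0) ∧
        (∀ c i j, ¬ r j i → actR k' b c i j = 0) ∧
        (∀ i0 i1 (F : Finset I), (∀ j, j ∈ F ↔ D.cp i0 j ∧ r i1 j ∧ r j i1) →
          ∑ j ∈ F, D.th (D.col j) = 0) ∧
        ∃ g ∈ D.base.P, (∀ i j, g i j ≠ 0 → i = j) ∧
          (fun c => of fun i j => if r i j ∧ r j i then actR k' b c i j else 0) =
            actR g fun c => of fun i j => if r i j ∧ r j i then actR k a c i j else 0 := by
  obtain ⟨k, hk, hkP, k', hk', hkP', r, h1, h2, h3, h4, h5, s, hs, h6⟩ := D.sep_core h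
  have hs' : ∀ i, (s i : ℂ) ≠ 0 := fun i => by exact_mod_cast (hs i).ne'
  have hinv : diagonal (fun i => (s i : ℂ)) * diagonal (fun i => (s i : ℂ)⁻¹) = 1 := by
    rw [diagonal_mul_diagonal, ← diagonal_one]
    congr 1
    exact funext fun i => mul_inv_cancel₀ (hs' i)
  refine ⟨k, hk, hkP, k', hk', hkP', r, h1, h2, h3, h4, h5,
    D.e6_class (D.e6_R_act ha hkP) (D.e6_R_act hb hkP') (D.e6_SS_act sa hkP)
      (D.e6_SS_act sb hkP') h2 h4 h5, diagonal fun i => (s i : ℂ),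
    D.e4_memG.2 ⟨e4_diagonal D.e4_cc.refl _, isUnit_det_of_right_inverse hinv⟩,
    e4_diagonal (e := Eq) (fun _ => rfl) _, ?_⟩
  funext c
  ext i j
  conv_rhs => rw [actR, inv_eq_right_inv hinv, mul_diagonal, diagonal_mul]
  simp only [of_apply]
  split_ifs with hh
  · exact h6 c i j hh.1 hh.2
  · simp

open Classical in
/-- The separation lemma, with an ordered partition. -/
theorem sep_list {a b : Rp I} (ha : a ∈ D.base.R) (hb : b ∈ D.base.R) (sa : D.SS D.th a)
    (sb : D.SS D.th b)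
    (h : (a, b) ∈ closure {x : Rp I × Rp I | ∃ g ∈ D.base.P, x.2 = actR g x.1}) :
    ∃ (l : List (Finset I)) (hl : Part l),
      (∀ x ∈ l, ∀ i0 (F : Finset I), (∀ j, j ∈ F ↔ D.cp i0 j ∧ j ∈ x) →
        ∑ j ∈ F, D.th (D.col j) = 0) ∧
      ∃ k ∈ unitaryGroup I ℂ, k ∈ D.base.P ∧ ∃ k' ∈ unitaryGroup I ℂ, k' ∈ D.base.P ∧
        actR k a ∈ (D.flag l hl).R ∧ actR k' b ∈ (D.flag l.reverse (e6_part_reverse hl)).R ∧
        ∃ g ∈ D.base.P, (∀ i j, g i j ≠ 0 → i = j) ∧
          (fun c => of fun i j => if Ord l i j ∧ Ord l j i then actR k' b c i j else 0) =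
            actR g fun c => of fun i j =>
              if Ord l i j ∧ Ord l j i then actR k a c i j else 0 := by
  obtain ⟨k, hk, hkP, k', hk', hkP', r, h1, h2, h3, h4, h5, h6, h7⟩ := D.sep_rel ha hb sa sb h
  obtain ⟨l, hl, h8, h9⟩ := e6_part h1 h2 h3
  obtain rfl : r = Ord l := funext fun i => funext fun j => propext (h8 i j).symm
  refine ⟨l, hl, fun x hx i0 F hF => ?_, k, hk, hkP, k', hk', hkP', fun c i j hn => ?_,
    fun c i j hn => ?_, h7⟩
  · obtain ⟨i1, hi1⟩ := hl.1 x hx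
    exact h6 i0 i1 F fun j => by rw [hF, h9 x hx i1 hi1]
  · by_contra h0
    have a1 : D.base.ap c i j := by_contra fun h' => h0 (D.e6_R_act ha hkP c i j h')
    exact hn ⟨a1.1, a1.2.1, a1.2.2, by_contra fun h' => h0 (h4 c i j h')⟩
  · by_contra h0
    have a1 : D.base.ap c i j := by_contra fun h' => h0 (D.e6_R_act hb hkP' c i j h')
    exact hn ⟨a1.1, a1.2.1, a1.2.2, (e6_ord_reverse l i j).2 (by_contra fun h' => h0 (h5 c i j h'))⟩

end Dat

end Pool.Agent.CS
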