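import Pool.Agent.P.MP_d34769_ag.YE3
import Pool.Agent.P.MP_d34769_ag.YE6a

/-! Filtrations, associated graded triples, semisimple triples and Jordan-Hoelder length. -/

open Matrix Classical

noncomputable section
namespace Pool.Agent.CS

variable {I : Type} [Fintype I] [DecidableEq I]

/-- the entries vanish off `r` -/
def Tri (r : I → I → Prop) (ρ : Rp I) : Prop := ∀ a i j, ¬ r i j → ρ a i j = 0

/-- the diagonal blocks for the preorder `r` -/
def gr (r : I → I → Prop) (ρ : Rp I) : Rp I := fun a i j => if r i j ∧ r j i then ρ a i j else 0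

/-- the preorder of a slot function -/
abbrev le {k : ℕ} (s : I → Fin k) (i j : I) : Prop := s i ≤ s j

omit [DecidableEq I] [Fintype I] in
lemma gr_le {k : ℕ} (s : I → Fin k) (ρ : Rp I) (a : Fin 3) (i j : I) :
    gr (le s) ρ a i j = if s i = s j then ρ a i j else 0 := by
  simp only [gr, ← le_antisymm_iff]

omit [DecidableEq I] [Fintype I] in
lemma gr_flip (r : I → I → Prop) (ρ : Rp I) : gr (flip r) ρ = gr r ρ := by
  funext a i j
  simp only [gr, flip, and_comm]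

omit [DecidableEq I] [Fintype I] in
lemma continuous_gr (r : I → I → Prop) : Continuous (gr r : Rp I → Rp I) := by
  refine continuous_pi fun a => continuous_pi fun i => continuous_pi fun j => ?_
  unfold gr
  split_ifs
  · fun_prop
  · exact continuous_const

omit [DecidableEq I] [Fintype I] in
lemma isClosed_tri (r : I → I → Prop) : IsClosed {ρ : Rp I | Tri r ρ} := by
  simp only [Tri, Set.ofPred_forall]
  exact isClosed_iInter fun a => isClosed_iInter fun i => isClosed_iInter fun j =>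
    isClosed_iInter fun _ => isClosed_eq (by fun_prop) continuous_const

/-- the list of the fibres of a slot function -/
def fib {k : ℕ} (s : I → Fin k) : List (Finset I) :=
  List.ofFn fun a => Finset.univ.filter fun i => s i = a

lemma fib_part {k : ℕ} {s : I → Fin k} (hs : Function.Surjective s) : Part (fib s) := by
  refine ⟨fun b hb => ?_, ?_⟩
  · obtain ⟨a, rfl⟩ := List.mem_ofFn.1 hb
    obtain ⟨i, hi⟩ := hs a
    exact ⟨i, by simp [hi]⟩
  · rw [fib, List.map_ofFn, List.sum_ofFn]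
    ext i
    simp [Multiset.count_sum', Multiset.count_filter, Multiset.count_univ]

omit [Fintype I] [DecidableEq I] in
lemma ye5_ord (i j : I) (k : ℕ) : ∀ f : Fin k → Finset I,
    Ord (List.ofFn f) i j ↔ ∃ x y, x ≤ y ∧ i ∈ f x ∧ j ∈ f y := by
  induction k with
  | zero =>
    intro f
    simp [Ord]
  | succ k ih =>
    intro f
    rw [List.ofFn_succ, ord_cons, ih]
    constructor
    · rintro (⟨h1, h2 | ⟨b, hb, h2⟩⟩ | ⟨x, y, h, h1, h2⟩)
      · exact ⟨0, 0, le_rfl, h1, h2⟩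
      · obtain ⟨y, rfl⟩ := List.mem_ofFn.1 hb
        exact ⟨0, y.succ, Fin.zero_le _, h1, h2⟩
      · exact ⟨x.succ, y.succ, Fin.succ_le_succ_iff.2 h, h1, h2⟩
    · rintro ⟨x, y, h, h1, h2⟩
      rcases Fin.eq_zero_or_eq_succ x with rfl | ⟨x, rfl⟩ <;>
        rcases Fin.eq_zero_or_eq_succ y with rfl | ⟨y, rfl⟩
      · exact Or.inl ⟨h1, Or.inl h2⟩
      · exact Or.inl ⟨h1, Or.inr ⟨_, List.mem_ofFn.2 ⟨y, rfl⟩, h2⟩⟩
      · exact absurd (Fin.le_zero_iff.1 h) (Fin.succ_ne_zero x)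
      · exact Or.inr ⟨x, y, Fin.succ_le_succ_iff.1 h, h1, h2⟩

lemma ord_fib {k : ℕ} (s : I → Fin k) (i j : I) : Ord (fib s) i j ↔ s i ≤ s j := by
  simp [fib, ye5_ord]

lemma Part.exists_fib {l : List (Finset I)} (h : Part l) :
    ∃ s : I → Fin l.length, Function.Surjective s ∧ fib s = l ∧ ∀ i a, i ∈ l.get a ↔ s i = a := by
  have h1 : ∀ i, ∃ a, i ∈ l.get a := fun i => by
    obtain ⟨b, hb, hi⟩ := h.mem i
    obtain ⟨a, rfl⟩ := List.mem_iff_get.1 hb
    exact ⟨a, hi⟩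
  choose s hs using h1
  have h2 : ∀ i a, i ∈ l.get a ↔ s i = a := fun i a => by
    refine ⟨fun hi => ?_, fun e => e ▸ hs i⟩
    have h3 := List.pairwise_iff_get.1 h.pw
    rcases lt_trichotomy (s i) a with e | e | e
    · exact absurd hi (Finset.disjoint_left.1 (h3 _ _ e) (hs i))
    · exact e
    · exact absurd (hs i) (Finset.disjoint_left.1 (h3 _ _ e) hi)
  refine ⟨s, fun a => ?_, ?_, h2⟩
  · obtain ⟨i, hi⟩ := h.1 _ (List.get_mem l a)
    exact ⟨i, (h2 i a).1 hi⟩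
  · rw [fib]
    refine Eq.trans (congrArg List.ofFn (funext fun a => ?_)) (List.ofFn_get l)
    ext i
    rw [h2, Finset.mem_filter]
    exact and_iff_right (Finset.mem_univ i)

/-- a total preorder comes from a slot function -/
lemma exists_slot {r : I → I → Prop} (h1 : ∀ i j, r i j ∨ r j i)
    (h2 : ∀ i j k, r i j → r j k → r i k) :
    ∃ (k : ℕ) (s : I → Fin k), Function.Surjective s ∧ ∀ i j, r i j ↔ s i ≤ s j := by
  obtain ⟨l, hl, ho, -⟩ := e6_part (fun i => (h1 i i).elim id id) h2 h1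
  obtain ⟨s, hs, e, -⟩ := hl.exists_fib
  exact ⟨_, s, hs, fun i j => by rw [← ho, ← ord_fib, e]⟩

lemma ye5_kill (σ : Rp I) (F : Set I) (a : Fin 3) :
    (fun i j => if i ∈ F ∧ j ∉ F then 0 else σ a i j : Matrix I I ℂ) =
      σ a - pr F * σ a * pr Fᶜ := by
  ext i j
  rw [Matrix.sub_apply, mul_pr_apply, pr_mul_apply]
  by_cases hi : i ∈ F <;> by_cases hj : j ∈ F <;> simp [hi, hj]

namespace Dat
variable (D : Dat I)

/-- a total preorder whose lower sets have weight zero -/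
structure Bal (r : I → I → Prop) : Prop where
  tot : ∀ i j, r i j ∨ r j i
  trans : ∀ i j k, r i j → r j k → r i k
  bal : ∀ i, D.wt D.th (sp {j | r j i}) = 0

/-- an ordered partition into `k` nonempty slots of weight zero -/
structure Slot {k : ℕ} (s : I → Fin k) : Prop where
  surj : Function.Surjective s
  bal : ∀ a, ∑ j with s j = a, D.th (D.col j) = 0

/-- an ordered partition into blocks of weight zero -/
def Cm (l : List (Finset I)) : Prop := Part l ∧ ∀ b ∈ l, ∑ j ∈ b, D.th (D.col j) = 0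

/-- same orbit -/
def Iso (ρ σ : Rp I) : Prop := ∃ g ∈ D.base.P, actR g ρ = σ

/-- semistable and semisimple -/
def Sem (ρ : Rp I) : Prop := D.SS D.th ρ ∧ ∀ U, D.A ρ U → ∃ U', D.A ρ U' ∧ IsCompl U U'

/-- there is a filtration with `k` steps of weight zero -/
def N (k : ℕ) (ρ : Rp I) : Prop :=
  ∃ s : I → Fin k, D.Slot s ∧ ∃ g ∈ D.base.P, Tri (le s) (actR g ρ)

variable {D} {ρ σ τ : Rp I} {r : I → I → Prop} {k : ℕ}

lemma Slot.wt_pre {s : I → Fin k} (h : D.Slot s) (S : Set (Fin k)) :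
    D.wt D.th (sp (s ⁻¹' S)) = 0 := by
  have h1 : s ⁻¹' S = (Finset.univ.filter fun i => s i ∈ S.toFinset : Finset I) := by
    ext i
    simp
  rw [h1, wt_sp, ← Finset.sum_fiberwise_eq_sum_filter]
  exact Finset.sum_eq_zero fun a _ => h.bal a

lemma Slot.toBal {s : I → Fin k} (h : D.Slot s) : D.Bal (le s) :=
  ⟨fun _ _ => le_total _ _, fun _ _ _ => le_trans, fun i => h.wt_pre (Set.Iic (s i))⟩

lemma Bal.exists_slot (h : D.Bal r) :
    ∃ (k : ℕ) (s : I → Fin k), D.Slot s ∧ ∀ i j, r i j ↔ s i ≤ s j := by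
  obtain ⟨k, s, hs, e⟩ := CS.exists_slot h.tot h.trans
  refine ⟨k, s, ⟨hs, fun a => ?_⟩, e⟩
  induction a using WellFoundedLT.induction with
  | ind a ih =>
    obtain ⟨i, rfl⟩ := hs a
    have h1 : {j | r j i} = (Finset.univ.filter fun j => s j ∈ Finset.Iic (s i) : Finset I) := by
      ext j
      simp [e]
    have h2 := h.bal i
    rw [h1, wt_sp, ← Finset.sum_fiberwise_eq_sum_filter, ← Finset.Iio_insert,
      Finset.sum_insert (by simp), Finset.sum_eq_zero fun b hb => ih b (Finset.mem_Iio.1 hb),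
      add_zero] at h2
    exact h2

lemma Bal.flip (h : D.Bal r) : D.Bal (flip r) := by
  obtain ⟨k, s, hs, e⟩ := h.exists_slot
  refine ⟨fun i j => h.tot j i, fun i j l a b => h.trans l j i b a, fun i => ?_⟩
  have h1 : {j | _root_.flip r j i} = s ⁻¹' Set.Ici (s i) := Set.ext fun j => e i j
  rw [h1]
  exact hs.wt_pre _

lemma Slot.cm {s : I → Fin k} (h : D.Slot s) : D.Cm (fib s) := by
  refine ⟨fib_part h.surj, fun b hb => ?_⟩
  obtain ⟨a, rfl⟩ := List.mem_ofFn.1 hb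
  exact h.bal a

lemma Cm.exists_slot {l : List (Finset I)} (h : D.Cm l) :
    ∃ s : I → Fin l.length, D.Slot s ∧ fib s = l ∧ ∀ i a, i ∈ l.get a ↔ s i = a := by
  obtain ⟨s, hs, e, e'⟩ := h.1.exists_fib
  refine ⟨s, ⟨hs, fun a => h.2 _ ?_⟩, e, e'⟩
  have h1 : (Finset.univ.filter fun j => s j = a) ∈ fib s := List.mem_ofFn.2 ⟨a, rfl⟩
  rwa [e] at h1

lemma Cm.toBal {l : List (Finset I)} (h : D.Cm l) : D.Bal (Ord l) := by
  obtain ⟨s, hs, e, -⟩ := h.exists_slot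
  have h1 : Ord l = le s := funext₂ fun i j => propext (by rw [le, ← ord_fib, e])
  rw [h1]
  exact hs.toBal

lemma Iso.refl (ρ : Rp I) : D.Iso ρ ρ := ⟨1, D.base.one_mem_P, actR_one ρ⟩

lemma Iso.symm (h : D.Iso ρ σ) : D.Iso σ ρ := by
  obtain ⟨g, hg, rfl⟩ := h
  exact ⟨g⁻¹, inv_mem_P hg, actR_inv hg.2 ρ⟩

lemma Iso.trans (h : D.Iso ρ σ) (h' : D.Iso σ τ) : D.Iso ρ τ := by
  obtain ⟨g, hg, rfl⟩ := h
  obtain ⟨g', hg', rfl⟩ := h'
  exact ⟨g' * g, mul_mem_P hg' hg, actR_mul _ _ _⟩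

lemma Iso.ss {t : Fin 3 → ℤ} (h : D.Iso ρ σ) (hs : D.SS t ρ) : D.SS t σ := by
  obtain ⟨g, hg, rfl⟩ := h
  exact hs.act hg

lemma Iso.sem (h : D.Iso ρ σ) (hs : D.Sem ρ) : D.Sem σ := by
  obtain ⟨g, hg, rfl⟩ := h
  refine ⟨hs.1.act hg, fun U hU => ?_⟩
  rw [← mapinv_YE1 hg.2 U] at hU ⊢
  obtain ⟨U', h1, h2⟩ := hs.2 _ ((a_act hg).1 hU)
  have h3 : Function.Injective g.mulVecLin :=
    mulVec_injective_iff_isUnit.2 ((isUnit_iff_isUnit_det g).2 hg.2)
  refine ⟨_, (a_act hg).2 h1, isCompl_iff.2 ⟨disjoint_iff.2 ?_, codisjoint_iff.2 ?_⟩⟩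
  · rw [← Submodule.map_inf _ h3, h2.inf_eq_bot, Submodule.map_bot]
  · rw [← Submodule.map_sup, h2.sup_eq_top, maptop_YE1 hg.2]

lemma Iso.stb (h : D.Iso ρ σ) (hs : D.Stb ρ) : D.Stb σ := by
  obtain ⟨g, hg, rfl⟩ := h
  exact hs.act hg

lemma Iso.n (h : D.Iso ρ σ) (hs : D.N k ρ) : D.N k σ := by
  obtain ⟨g, hg, rfl⟩ := h
  obtain ⟨s, h1, g', hg', h2⟩ := hs
  exact ⟨s, h1, g' * g⁻¹, mul_mem_P hg' (inv_mem_P hg), by rwa [actR_mul, actR_inv hg.2]⟩

lemma Stb.sem (h : D.Stb ρ) : D.Sem ρ := by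
  refine ⟨h.ss, fun U hU => ?_⟩
  by_cases h1 : U = ⊥
  · exact ⟨⊤, A.top ρ, h1 ▸ isCompl_bot_top⟩
  · by_cases h2 : U = ⊤
    · exact ⟨⊥, A.bot ρ, h2 ▸ isCompl_top_bot⟩
    · exact absurd hU.2 (h.2 U hU.1 h1 h2).ne

/-- the passage to the graded triple, one step at a time -/
lemma Bal.ind (hr : D.Bal r) (hρ : Tri r ρ) {Q : Rp I → Prop} (h0 : Q ρ)
    (step : ∀ σ (F : Set I), Q σ → D.A σ (sp F) →
      Q fun a i j => if i ∈ F ∧ j ∉ F then 0 else σ a i j) : Q (gr r ρ) := by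
  have h1 : ∀ T : Finset I, Q fun a i j => if ∃ t ∈ T, r i t ∧ ¬ r j t then 0 else ρ a i j := by
    intro T
    induction T using Finset.induction_on with
    | empty => simpa using h0
    | insert t T _ ih =>
      have h2 := step _ {j | r j t} ih ⟨sub_sp.2 fun a i j hi hj => by
        rw [hρ a i j fun h3 => hi (hr.trans i j t h3 hj), ite_self], hr.bal t⟩
      refine (congrArg Q ?_).mp h2
      funext a i j
      simp only [Set.mem_ofPred_eq, Finset.mem_insert, exists_eq_or_imp, ite_or]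
  refine (congrArg Q ?_).mp (h1 Finset.univ)
  funext a i j
  unfold CS.gr
  split_ifs with h2 h3 h3
  · obtain ⟨t, -, h4, h5⟩ := h2
    exact absurd (hr.trans j i t h3.2 h4) h5
  · rfl
  · rfl
  · refine hρ a i j fun h4 => h3 ⟨h4, ?_⟩
    by_contra h5
    exact h2 ⟨i, Finset.mem_univ i, (hr.tot i i).elim id id, h5⟩

lemma ye5_ss {F : Set I} (hs : D.SS D.th σ) (hF : D.A σ (sp F)) :
    D.SS D.th fun a i j => if i ∈ F ∧ j ∉ F then 0 else σ a i j := by
  intro U hU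
  set σ' : Rp I := fun a i j => if i ∈ F ∧ j ∉ F then 0 else σ a i j with hσ'
  have e : ∀ a v, σ a *ᵥ v = σ' a *ᵥ v + pr F *ᵥ σ a *ᵥ pr Fᶜ *ᵥ v := fun a v => by
    rw [show σ' a = _ from ye5_kill σ F a, sub_mulVec, mulVec_mulVec, mulVec_mulVec, sub_add_cancel]
  have hb : ∀ a i j, ¬ (i ∈ Fᶜ ↔ j ∈ Fᶜ) → σ' a i j = 0 := fun a i j h => by
    by_cases hi : i ∈ F
    · exact if_pos ⟨hi, fun hj => h (by simp [hi, hj])⟩
    · have hj : j ∈ F := by
        by_contra hj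
        exact h (by simp [hi, hj])
      simp only [hσ', sub_sp.1 hF.1 a i j hi hj, ite_self]
  have hF' : D.Sub σ' (sp F) := sub_sp.2 fun a i j hi hj => hb a i j (by simp [hi, hj])
  have h1 := wt_map (t := D.th) (D' := D) (e3_col (D.base.pr_mem_Lie Fᶜ)) hU.cg
  rw [ker_pr, compl_compl] at h1
  have h2 : D.Sub σ (sp F ⊓ U) := ⟨(hF'.inf hU).gr, fun a v hv => by
    have h3 : pr Fᶜ *ᵥ v = 0 := by
      have h4 : v ∈ LinearMap.ker (pr Fᶜ).mulVecLin := by
        rw [ker_pr, compl_compl]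
        exact hv.1
      exact h4
    rw [e, h3, mulVec_zero, mulVec_zero, add_zero]
    exact (hF'.inf hU).st a v hv⟩
  have h3 : D.Sub σ' (U.map (pr Fᶜ).mulVecLin) :=
    sub_map (D.base.pr_mem_Lie _) (fun a => ye2_pr_comm (hb a)) hU
  have h4 : D.Sub σ (U.map (pr Fᶜ).mulVecLin ⊔ sp F) := ⟨(h3.sup hF').gr, fun a v hv => by
    rw [e]
    exact Submodule.add_mem _ ((h3.sup hF').st a v hv) (Submodule.mem_sup_right (prmem_YE1 _ _))⟩
  have h5 := wt_sup_inf (t := D.th) h3.cg hF'.cg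
  have h6 : U.map (pr Fᶜ).mulVecLin ⊓ sp F = ⊥ := by
    refine le_bot_iff.1 ((inf_le_inf_right _ (LinearMap.map_le_range.trans (range_pr _).le)).trans ?_)
    rw [← sp_inter, Set.compl_inter_self, sp_empty]
  rw [h6, wt_bot, hF.2] at h5
  have h7 := hs _ h2
  have h8 := hs _ h4
  omega

theorem SS.gr (hs : D.SS D.th ρ) (hr : D.Bal r) (hρ : Tri r ρ) : D.SS D.th (gr r ρ) :=
  hr.ind hρ (Q := D.SS D.th) hs fun _ _ h1 h2 => ye5_ss h1 h2

lemma closure_orb_mono (h : σ ∈ closure {x | D.Iso ρ x}) :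
    closure {x | D.Iso σ x} ⊆ closure {x | D.Iso ρ x} := by
  refine closure_minimal ?_ isClosed_closure
  rintro _ ⟨g, hg, rfl⟩
  exact map_mem_closure (continuous_actR g) h fun y hy => Iso.trans hy ⟨g, hg, rfl⟩

lemma ye5_cl {F : Set I} (hF : D.Sub σ (sp F)) :
    (fun a i j => if i ∈ F ∧ j ∉ F then 0 else σ a i j : Rp I) ∈ closure {x | D.Iso σ x} := by
  let γ : ℂ → Rp I := fun t a i j => if i ∈ F ∧ j ∉ F then t * σ a i j else σ a i j
  have h1 : Continuous γ := by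
    refine continuous_pi fun a => continuous_pi fun i => continuous_pi fun j => ?_
    simp only [γ]
    split_ifs
    · fun_prop
    · exact continuous_const
  have h2 : γ 0 = fun a i j => if i ∈ F ∧ j ∉ F then 0 else σ a i j := by
    funext a i j
    simp only [γ, zero_mul]
  rw [← h2]
  refine mem_closure_of_tendsto (b := nhdsWithin 0 {0}ᶜ)
    (h1.continuousAt.tendsto.mono_left nhdsWithin_le_nhds)
    (eventually_nhdsWithin_of_forall fun t ht => ?_)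
  have h3 : IsUnit (diagonal fun i => if i ∈ F then t else 1).det := by
    rw [det_diagonal, isUnit_iff_ne_zero, Finset.prod_ne_zero_iff]
    intro i _
    split_ifs
    · exact ht
    · exact one_ne_zero
  refine ⟨_, ⟨D.base.diagonal_mem_Lie _, h3⟩, (actR_eq_iff h3).2 fun a => ?_⟩
  ext i j
  rw [diagonal_mul, mul_diagonal]
  by_cases hi : i ∈ F <;> by_cases hj : j ∈ F
  · simp [γ, hi, hj, mul_comm]
  · simp [γ, hi, hj]
  · simp [γ, hi, hj, sub_sp.1 hF a i j hi hj]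
  · simp [γ, hi, hj]

theorem gr_mem_closure (hr : D.Bal r) (hρ : Tri r ρ) : gr r ρ ∈ closure {σ | D.Iso ρ σ} :=
  hr.ind hρ (Q := fun σ => σ ∈ closure {x | D.Iso ρ x}) (subset_closure (Iso.refl ρ))
    fun _ _ h1 h2 => closure_orb_mono h1 (ye5_cl h2.1)

/-- the projection along a complementary subrepresentation is a graded intertwiner -/
lemma exists_proj {U U' : Submodule ℂ (I → ℂ)} (hU : D.Sub σ U) (hU' : D.Sub σ U')
    (hc : IsCompl U U') : ∃ π ∈ D.base.Lie, (∀ a, π * σ a = σ a * π) ∧ (∀ v ∈ U, π *ᵥ v = v) ∧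
      (∀ v ∈ U', π *ᵥ v = 0) ∧ ∀ v, π *ᵥ v ∈ U := by
  set π := LinearMap.toMatrix' (U.projection U' hc) with hπ
  have e : ∀ v, π *ᵥ v = U.projection U' hc v := fun v => LinearMap.toMatrix'_mulVec _ _
  have h1 : ∀ v ∈ U, π *ᵥ v = v := fun v hv => by
    rw [e, Submodule.projection_apply_of_mem_left hc hv]
  have h2 : ∀ v ∈ U', π *ᵥ v = 0 := fun v hv => by
    rw [e, Submodule.projection_apply_of_mem_right hc hv]
  have h3 : ∀ m : Matrix I I ℂ, (∀ v ∈ U, m *ᵥ v ∈ U) → (∀ v ∈ U', m *ᵥ v ∈ U') →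
      π * m = m * π := fun m a b => by
    refine Matrix.ext_iff_mulVec.2 fun v => ?_
    obtain ⟨x, hx, y, hy, rfl⟩ := Submodule.mem_sup.1 (hc.sup_eq_top.ge (Submodule.mem_top (x := v)))
    rw [← mulVec_mulVec, ← mulVec_mulVec, mulVec_add, mulVec_add, mulVec_add, h1 _ (a x hx),
      h2 _ (b y hy), h1 x hx, h2 y hy, add_zero, add_zero]
  refine ⟨π, D.mem_base_Lie.2 fun i j hij => ?_, fun a => h3 _ (hU.st a) (hU'.st a), h1, h2,
    fun v => e v ▸ Submodule.projection_apply_mem hc v⟩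
  have h4 : ∀ x y, D.cc x y → x ∈ {l | D.cc i l} → y ∈ {l | D.cc i l} :=
    fun x y a b => D.cc_eq.3 b a
  have h5 := congrFun₂ (h3 (pr {l | D.cc i l}) (fun v hv => hU.pr_mem D.cc_eq h4 hv)
    fun v hv => hU'.pr_mem D.cc_eq h4 hv) i j
  rw [mul_pr_apply, pr_mul_apply, if_neg (show j ∉ {l | D.cc i l} from hij),
    if_pos (show i ∈ {l | D.cc i l} from D.cc_eq.1 i)] at h5
  exact h5.symm

lemma ye5_iso {F : Set I} (hs : D.Sem σ) (hF : D.A σ (sp F)) :
    D.Iso σ fun a i j => if i ∈ F ∧ j ∉ F then 0 else σ a i j := by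
  obtain ⟨U', hU', hc⟩ := hs.2 _ hF
  obtain ⟨π, hπ, h1, h2, -, h3⟩ := exists_proj hF.1 hU'.1 hc
  have e1 : pr F * π = π := Matrix.ext_iff_mulVec.2 fun v => by
    rw [← mulVec_mulVec, pr_eq_self.2 (h3 v)]
  have e2 : π * pr F = pr F := Matrix.ext_iff_mulVec.2 fun v => by
    rw [← mulVec_mulVec, h2 _ (prmem_YE1 F v)]
  have e3 : pr F * pr F = pr F := by rw [pr_mul_pr, Set.inter_self]
  have e4 : π * π = π := by rw [← e1, mul_assoc, ← mul_assoc π, e2, ← mul_assoc, e3]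
  have e5 : ∀ a, pr F * σ a * pr F = σ a * pr F := fun a => Matrix.ext_iff_mulVec.2 fun v => by
    rw [← mulVec_mulVec, ← mulVec_mulVec, ← mulVec_mulVec,
      pr_eq_self.2 (hF.1.st a _ (prmem_YE1 F v))]
  have e6 : pr Fᶜ = 1 - pr F := eq_sub_of_add_eq' (pr_add_compl F)
  have h4 : IsUnit (1 - pr F + π).det := by
    refine isUnit_det_of_right_inverse (B := 1 + pr F - π) ?_
    simp only [mul_add, mul_sub, add_mul, sub_mul, mul_one, one_mul, e1, e2, e3, e4]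
    abel
  refine ⟨_, ⟨D.base.Lie.add_mem (D.base.Lie.sub_mem D.base.one_mem_Lie (D.base.pr_mem_Lie F)) hπ,
    h4⟩, (actR_eq_iff h4).2 fun a => ?_⟩
  have e7 : pr F * σ a * π = σ a * π := by rw [← e1, ← mul_assoc, e5, mul_assoc]
  rw [ye5_kill, e6]
  simp only [mul_add, mul_sub, add_mul, sub_mul, mul_one, one_mul, e5, h1, e7, mul_assoc (σ a), e1, e3]
  abel

/-- E5 (b) -/
theorem Sem.iso_gr (hs : D.Sem ρ) (hr : D.Bal r) (hρ : Tri r ρ) : D.Iso ρ (gr r ρ) :=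
  hr.ind hρ (Q := D.Iso ρ) (Iso.refl ρ) fun _ _ h1 h2 => h1.trans (ye5_iso (h1.sem hs) h2)

/-- E5 (c), the radical -/
theorem exists_rad (hs : D.SS D.th ρ) (hn : ¬ D.Sem ρ) : ∃ s, D.A ρ s ∧ s ≠ ⊥ ∧ s ≠ ⊤ ∧
    ∀ U, D.A ρ U → U ≠ ⊤ → U ⊔ s ≠ ⊤ := by
  by_contra h0
  refine hn ⟨hs, fun U hU => ?_⟩
  obtain ⟨U', ⟨h1, h2⟩, h3⟩ := wellFounded_lt.has_min {U' | D.A ρ U' ∧ U ⊔ U' = ⊤}
    ⟨⊤, A.top ρ, sup_top_eq U⟩
  refine ⟨U', h1, isCompl_iff.2 ⟨disjoint_iff.2 ?_, codisjoint_iff.2 h2⟩⟩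
  by_contra h4
  have h5 : ∃ V, D.A ρ V ∧ V ≠ ⊤ ∧ V ⊔ U ⊓ U' = ⊤ := by
    by_cases h6 : U ⊓ U' = ⊤
    · exact ⟨⊥, A.bot ρ, fun h7 => h4 (h6.trans h7.symm), by rw [h6, bot_sup_eq]⟩
    · by_contra h7
      exact h0 ⟨_, hU.inf hs h1, h4, h6, fun V a b c => h7 ⟨V, a, b, c⟩⟩
  obtain ⟨V, hV, h6, h7⟩ := h5
  have h8 : U ⊓ U' ⊔ V ⊓ U' = U' := by
    rw [← sup_inf_assoc_of_le _ inf_le_right, sup_comm, h7, top_inf_eq]
  have h9 : U ⊔ V ⊓ U' = ⊤ := by
    rw [eq_top_iff, ← h2]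
    exact sup_le le_sup_left (h8.ge.trans (sup_le_sup_right inf_le_left _))
  have h10 : V ⊓ U' = U' :=
    (inf_le_right.eq_or_lt).resolve_right (h3 _ ⟨hV.inf hs h1, h9⟩)
  exact h6 (by rw [← h7, sup_eq_left.2 (inf_le_right.trans (inf_eq_right.1 h10))])

/-- a direct sum of stable blocks is semisimple -/
theorem sem_of_blocks {s : I → Fin k} (h : D.Slot s) (hb : ∀ a i j, s i ≠ s j → ρ a i j = 0)
    (hs : ∀ a, D.StbOn ρ {i | s i = a}) : D.Sem ρ := by
  have hA : ∀ a, D.A ρ (sp {i | s i = a}) := fun a =>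
    ⟨sub_sp.2 fun c i j hi hj => hb c i j fun e => hi (e.trans hj), h.wt_pre {a}⟩
  have hss : D.SS D.th ρ := ss_of_blocks s hb fun a => (hs a).ssOn (hA a).2
  refine ⟨hss, fun U hU => ?_⟩
  obtain ⟨U', ⟨h1, h2⟩, h3⟩ := wellFounded_gt.has_min {U' | D.A ρ U' ∧ U ⊓ U' = ⊥}
    ⟨⊥, A.bot ρ, inf_bot_eq U⟩
  have h4 : ∀ a, sp {i | s i = a} ≤ U ⊔ U' := by
    intro a
    have h5 := (hU.sup hss h1).inf hss (hA a)
    by_cases h6 : (U ⊔ U') ⊓ sp {i | s i = a} = ⊥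
    · have h7 : U ⊓ (U' ⊔ sp {i | s i = a}) = ⊥ := by
        refine (Submodule.eq_bot_iff _).2 fun v hv => ?_
        obtain ⟨x, hx, y, hy, rfl⟩ := Submodule.mem_sup.1 hv.2
        have h8 : y ∈ U ⊔ U' := by
          have h9 := Submodule.sub_mem _ (Submodule.mem_sup_left (T := U') hv.1)
            (Submodule.mem_sup_right hx)
          rwa [add_sub_cancel_left] at h9
        have h9 : y = 0 := (Submodule.eq_bot_iff _).1 h6 y ⟨h8, hy⟩
        rw [h9, add_zero] at hv ⊢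
        exact (Submodule.eq_bot_iff _).1 h2 x ⟨hv.1, hx⟩
      have h8 : U' = U' ⊔ sp {i | s i = a} :=
        (le_sup_left.eq_or_lt).resolve_right (h3 _ ⟨h1.sup hss (hA a), h7⟩)
      exact (le_sup_right.trans h8.ge).trans le_sup_right
    · by_contra h7
      exact ((hs a).2 _ h5.1 inf_le_right h6 fun h8 => h7 (inf_eq_right.1 h8)).ne h5.2
  refine ⟨U', h1, isCompl_iff.2 ⟨disjoint_iff.2 h2, codisjoint_iff.2 (eq_top_iff.2 fun v _ => ?_)⟩⟩
  rw [← Finset.univ_sum_single v]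
  refine Submodule.sum_mem _ fun i _ => h4 (s i) (mem_sp.2 fun j hj => Pi.single_eq_of_ne ?_ _)
  rintro rfl
  exact hj rfl

end Dat

end Pool.Agent.CS
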