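import Pool.Agent.P.MP_d34769_ag.YE5

/-! The strata `N k`. -/

open Matrix Classical

noncomputable section
namespace Pool.Agent.CS

variable {I : Type} [Fintype I] [DecidableEq I]

namespace Dat
variable {D : Dat I} {ρ σ : Rp I} {k : ℕ}

lemma e5b_A {s : I → Fin k} (h : D.Slot s) (hρ : Tri (le s) ρ) (j : ℕ) :
    D.A ρ (sp {i | (s i : ℕ) < j}) :=
  ⟨sub_sp.2 fun a i l hi hl => hρ a i l fun e => hi (lt_of_le_of_lt (Fin.le_def.1 e) hl),
    h.wt_pre {a | (a : ℕ) < j}⟩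

omit [Fintype I] in
lemma e5b_lt {s : I → Fin k} (h : Function.Surjective s) {j : ℕ} (hj : j < k) :
    sp {i | (s i : ℕ) < j} < sp {i | (s i : ℕ) < j + 1} := by
  refine lt_of_le_not_ge (sp_le_sp.2 fun i (hi : (s i : ℕ) < j) => Nat.lt_succ_of_lt hi) fun e => ?_
  obtain ⟨i, hi⟩ := h ⟨j, hj⟩
  have : (s i : ℕ) < j := sp_le_sp.1 e (show (s i : ℕ) < j + 1 by simp [hi])
  simp [hi] at this

omit [Fintype I] [DecidableEq I] in
lemma e5b_zero (s : I → Fin k) : sp {i | (s i : ℕ) < 0} = ⊥ := by simp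

omit [Fintype I] [DecidableEq I] in
lemma e5b_top (s : I → Fin k) : sp {i | (s i : ℕ) < k} = ⊤ := by simp

omit [Fintype I] [DecidableEq I] in
lemma e5b_succ (s : I → Fin k) (a : Fin k) :
    sp {i | (s i : ℕ) < a + 1} = sp {i | (s i : ℕ) < a} ⊔ sp {i | s i = a} := by
  rw [← sp_union]
  congr 1
  ext i
  simp only [Set.mem_union, Set.mem_ofPred_eq, Fin.ext_iff]
  omega

omit [Fintype I] [DecidableEq I] in
lemma e5b_disj (s : I → Fin k) (a : Fin k) :
    sp {i | (s i : ℕ) < a} ⊓ sp {i | s i = a} = ⊥ := by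
  rw [← sp_inter, ← sp_empty]
  congr 1
  ext i
  simp only [Set.mem_inter_iff, Set.mem_ofPred_eq, Fin.ext_iff, Set.mem_empty_iff_false,
    iff_false]
  omega

lemma e5b_chain (h : D.N k ρ) : ∃ U : ℕ → Submodule ℂ (I → ℂ), U 0 = ⊥ ∧ U k = ⊤ ∧
    (∀ j < k, U j < U (j + 1)) ∧ ∀ j ≤ k, D.A ρ (U j) := by
  obtain ⟨s, hs, g, hg, ht⟩ := h
  have hg' := inv_mem_P hg
  have hi : Function.Injective g⁻¹.mulVecLin :=
    Matrix.mulVec_injective_iff_isUnit.2 ((isUnit_iff_isUnit_det _).2 hg'.2)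
  refine ⟨fun j => (sp {i | (s i : ℕ) < j}).map g⁻¹.mulVecLin, ?_, ?_, fun j hj => ?_,
    fun j _ => ?_⟩
  · simp
  · simp only [e5b_top]
    exact maptop_YE1 hg'.2
  · exact Submodule.map_strictMono_of_injective hi (e5b_lt hs.surj hj)
  · have := (a_act hg').2 (e5b_A hs ht j)
    rwa [actR_inv hg.2] at this

lemma e5b_K {U : ℕ → Submodule ℂ (I → ℂ)} (h0 : U 0 = ⊥) (hk : U k = ⊤)
    (hl : ∀ j < k, U j < U (j + 1)) (hA : ∀ j ≤ k, D.A ρ (U j)) :
    ∃ s : I → Fin k, D.Slot s ∧ ∃ u ∈ D.K, Tri (le s) (actR u ρ) := by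
  have hm : Monotone fun a => U (min a k) := monotone_nat_of_le_succ fun a => by
    by_cases c : a < k
    · rw [min_eq_left c.le, min_eq_left c]
      exact (hl a c).le
    · rw [min_eq_right (by omega), min_eq_right (by omega)]
  obtain ⟨u, hu, hb, r, hr, hU⟩ := e4_rank D.cc_eq (fun a => U (min a k)) hm (by simpa using h0)
    (N := k) (by simpa using hk) fun a => (hA _ (min_le_right _ _)).1.gr
  have hP : u ∈ D.base.P := D.e4_memG.2 ⟨hb, e4_unit_det hu⟩
  have hU' : ∀ a ≤ k, U a = (sp {j | r j < a}).map u.mulVecLin := fun a ha => by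
    rw [← hU a, min_eq_left ha]
  have hB : ∀ a ≤ k, D.A (actR u⁻¹ ρ) (sp {j | r j < a}) := fun a ha => by
    rw [← a_act hP, actR_inv' hP.2, ← hU' a ha]
    exact hA a ha
  have hw : ∀ a ≤ k, ∑ j with r j < a, D.th (D.col j) = 0 := fun a ha => by
    rw [← wt_sp, ← (hB a ha).2]
    congr 2
    ext j
    simp
  refine ⟨fun j => ⟨r j, hr j⟩, ⟨fun a => by_contra fun c => (hl a a.2).ne ?_, fun a => ?_⟩, u⁻¹, ?_,
    fun a i j c => ?_⟩
  · rw [hU' a a.2.le, hU' _ a.2]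
    congr 2
    ext j
    have : r j ≠ a := fun e => c ⟨j, Fin.ext e⟩
    simp only [Set.mem_ofPred_eq]
    omega
  · have h1 := hw (a + 1) a.2
    rw [← Finset.sum_filter_add_sum_filter_not _ fun j => r j < a, Finset.filter_filter,
      Finset.filter_filter, Finset.filter_congr (q := fun j => r j < a) fun j _ => by omega,
      hw a a.2.le, zero_add] at h1
    rw [← h1]
    refine Finset.sum_congr (Finset.filter_congr fun j _ => ?_) fun _ _ => rfl
    rw [Fin.ext_iff]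
    show r j = a ↔ _
    omega
  · rw [inv_eq_right_inv (show u * uᴴ = 1 from mem_unitaryGroup_iff.1 hu)]
    exact star_mem_K ⟨hP.1, hu⟩
  · have c' : ¬ r i ≤ r j := c
    exact sub_sp.1 (hB (r j + 1) (hr j)).1 a i j (show ¬ r i < r j + 1 by omega)
      (show r j < r j + 1 by omega)

theorem n_iff_K : D.N k ρ ↔ ∃ s : I → Fin k, D.Slot s ∧ ∃ u ∈ D.K, Tri (le s) (actR u ρ) :=
  ⟨fun h => let ⟨_, a, b, c, d⟩ := e5b_chain h; e5b_K a b c d,
    fun ⟨s, hs, u, hu, h⟩ => ⟨s, hs, u, D.K_le hu, h⟩⟩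

theorem n_iff_list : D.N k ρ ↔
    ∃ l, D.Cm l ∧ l.length = k ∧ ∃ g ∈ D.base.P, Tri (Ord l) (actR g ρ) := by
  constructor
  · rintro ⟨s, hs, g, hg, h⟩
    exact ⟨fib s, hs.cm, List.length_ofFn, g, hg, fun a i j c =>
      h a i j fun e => c ((ord_fib s i j).2 e)⟩
  · rintro ⟨l, hl, rfl, g, hg, h⟩
    obtain ⟨s, hs, e, -⟩ := hl.exists_slot
    refine ⟨s, hs, g, hg, fun a i j c => h a i j fun o => c ((ord_fib s i j).1 ?_)⟩
    rwa [e]

theorem n_iff_chain : D.N k ρ ↔ ∃ U : ℕ → Submodule ℂ (I → ℂ), U 0 = ⊥ ∧ U k = ⊤ ∧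
    (∀ j < k, U j < U (j + 1)) ∧ ∀ j ≤ k, D.A ρ (U j) :=
  ⟨e5b_chain, fun ⟨_, a, b, c, d⟩ => n_iff_K.2 (e5b_K a b c d)⟩

theorem N.anti {k' : ℕ} (h : D.N k' ρ) (h1 : 1 ≤ k) (h2 : k ≤ k') : D.N k ρ := by
  obtain ⟨U, a, -, c, d⟩ := e5b_chain h
  refine n_iff_chain.2 ⟨fun j => if j < k then U j else ⊤, ?_, by simp, fun j hj => ?_,
    fun j hj => ?_⟩
  · exact (if_pos h1).trans a
  · beta_reduce
    rw [if_pos hj]
    split_ifs
    · exact c j (by omega)
    · exact (c j (by omega)).trans_le le_top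
  · show D.A ρ (if _ then _ else _)
    split_ifs
    · exact d j (by omega)
    · exact A.top ρ

theorem n_one [Nonempty I] (ρ : Rp I) : D.N 1 ρ := by
  refine n_iff_chain.2 ⟨fun j => if j = 0 then ⊥ else ⊤, rfl, rfl, fun j hj => ?_, fun j _ => ?_⟩
  · obtain rfl : j = 0 := by omega
    exact bot_lt_top
  · show D.A ρ (if _ then _ else _)
    split_ifs
    · exact A.bot ρ
    · exact A.top ρ

theorem N.le_card (h : D.N k ρ) : k ≤ Fintype.card I := by
  obtain ⟨s, hs, -⟩ := h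
  simpa using Fintype.card_le_of_surjective s hs.surj

theorem isClosed_n (k : ℕ) : IsClosed {ρ | D.N k ρ} := by
  have := isCompact_iff_compactSpace.1 D.isCompact_K
  have e : {ρ | D.N k ρ} = ⋃ s : I → Fin k, ⋃ _ : D.Slot s, Prod.snd ''
      ((fun p : D.K × Rp I => fun a => p.1.1 * p.2 a * p.1.1ᴴ) ⁻¹' {σ | Tri (le s) σ}) := by
    ext ρ
    simp only [Set.mem_ofPred_eq, n_iff_K, Set.mem_iUnion, Set.mem_image, Set.mem_preimage]
    refine exists_congr fun s => ⟨fun ⟨hs, u, hu, h⟩ => ⟨hs, (⟨u, hu⟩, ρ), ?_, rfl⟩,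
      fun ⟨hs, p, h, e⟩ => ⟨hs, p.1.1, p.1.2, ?_⟩⟩
    · rwa [actR_unitary hu.2] at h
    · rwa [actR_unitary p.1.2.2, ← e]
  rw [e]
  refine isClosed_iUnion_of_finite fun s => isClosed_iUnion_of_finite fun _ =>
    isClosedMap_snd_of_compactSpace _ ((isClosed_tri _).preimage (continuous_pi fun a => ?_))
  have c : Continuous fun p : D.K × Rp I => p.1.1 := continuous_subtype_val.comp continuous_fst
  exact (c.matrix_mul ((continuous_apply a).comp continuous_snd)).matrix_mul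
    c.matrix_conjTranspose

theorem exists_n (ρ : Rp I) : ∃ k, D.N k ρ ∧ ¬ D.N (k + 1) ρ := by
  have h0 : ∃ k, D.N k ρ := by
    rcases isEmpty_or_nonempty I with c | c
    · exact ⟨0, n_iff_chain.2 ⟨fun _ => ⊥, rfl, Subsingleton.elim _ _, fun j hj => by omega,
        fun _ _ => A.bot ρ⟩⟩
    · exact ⟨1, n_one ρ⟩
  obtain ⟨k, hk⟩ := h0
  by_contra! c
  have : ∀ n, D.N (k + n) ρ := fun n => by
    induction n with
    | zero => exact hk
    | succ n ih => exact c _ ih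
  have := (this (Fintype.card I + 1)).le_card
  omega

/-- insertion of a member in a chain -/
lemma e5b_ins {U : ℕ → Submodule ℂ (I → ℂ)} (h0 : U 0 = ⊥) (hk : U k = ⊤)
    (hl : ∀ j < k, U j < U (j + 1)) (hA : ∀ j ≤ k, D.A ρ (U j)) {a : ℕ} (ha : a < k)
    {W : Submodule ℂ (I → ℂ)} (hW : D.A ρ W) (h1 : U a < W) (h2 : W < U (a + 1)) :
    D.N (k + 1) ρ := by
  refine n_iff_chain.2 ⟨fun j => if j ≤ a then U j else if j = a + 1 then W else U (j - 1),
    by simpa using h0, ?_, fun j hj => ?_, fun j hj => ?_⟩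
  · beta_reduce
    rw [if_neg (by omega), if_neg (by omega)]
    exact hk
  · show (if _ then _ else _) < (if _ then _ else _)
    rcases lt_trichotomy j a with c | rfl | c
    · rw [if_pos c.le, if_pos (show j + 1 ≤ a from c)]
      exact hl j (by omega)
    · rwa [if_pos le_rfl, if_neg (by omega), if_pos rfl]
    · rw [if_neg (by omega), if_neg (show ¬ j + 1 ≤ a by omega),
        if_neg (show ¬ j + 1 = a + 1 by omega)]
      split_ifs with c'
      · rwa [c']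
      · have := hl (j - 1) (by omega)
        rwa [show j - 1 + 1 = j + 1 - 1 by omega] at this
  · show D.A ρ (if _ then _ else _)
    split_ifs
    · exact hA j (by omega)
    · exact hW
    · exact hA _ (by omega)

theorem stb_iff [Nonempty I] : D.Stb ρ ↔ D.SS D.th ρ ∧ ¬ D.N 2 ρ := by
  refine ⟨fun h => ⟨h.ss, fun c => ?_⟩, fun h => ⟨inferInstance, fun U hU h0 h1 =>
    lt_of_le_of_ne (h.1 U hU) fun e => h.2 ?_⟩⟩
  · obtain ⟨U, a, b, c, d⟩ := e5b_chain c
    exact (h.2 _ (d 1 (by omega)).1 (a ▸ c 0 (by omega)).ne' (b ▸ c 1 (by omega)).ne).ne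
      (d 1 (by omega)).2
  · refine e5b_ins (U := fun j => if j = 0 then ⊥ else ⊤) (k := 1) rfl rfl (fun j hj => ?_)
      (fun j _ => ?_) (a := 0) (by omega) ⟨hU, e⟩ (bot_lt_iff_ne_bot.2 h0) (lt_top_iff_ne_top.2 h1)
    · obtain rfl : j = 0 := by omega
      exact bot_lt_top
    · show D.A ρ (if _ then _ else _)
      split_ifs
      · exact A.bot ρ
      · exact A.top ρ

/-- a block that is not stable gives a longer filtration of the graded triple and of `ρ` -/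
theorem n_succ_of_not_stb {s : I → Fin k} (h : D.Slot s) (hs : D.SS D.th ρ) (hρ : Tri (le s) ρ)
    {a : Fin k} (ha : ¬ D.StbOn (gr (le s) ρ) {i | s i = a}) : D.N (k + 1) ρ := by
  have hn : ({i | s i = a} : Set I).Nonempty := h.surj a
  simp only [StbOn, hn, true_and, not_forall] at ha
  obtain ⟨U, hU, hF, h0, h1, hw⟩ := ha
  have hw' : D.wt D.th U = 0 := le_antisymm (hs.gr h.toBal hρ U hU) (not_lt.1 hw)
  have hL := e5b_A h hρ a
  have hi : U ⊓ sp {i | (s i : ℕ) < a} = ⊥ :=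
    le_bot_iff.1 ((inf_le_inf_right _ hF).trans (by rw [inf_comm, e5b_disj]))
  have hg : Tri (le s) (CS.gr (le s) ρ) := fun b i j c => if_neg fun e => c e.1
  refine e5b_ins (U := fun j => sp {i | (s i : ℕ) < j}) (e5b_zero s) (e5b_top s)
    (fun j hj => e5b_lt h.surj hj) (fun j _ => e5b_A h hρ j) a.2
    (W := U ⊔ sp {i | (s i : ℕ) < a}) ⟨⟨(hU.sup (e5b_A h hg a).1).gr, fun b v hv => ?_⟩, ?_⟩
    (lt_of_le_not_ge le_sup_right fun c => h0 ?_) (lt_of_le_of_ne ?_ fun c => h1 ?_)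
  · obtain ⟨x, hx, y, hy, rfl⟩ := Submodule.mem_sup.1 hv
    rw [mulVec_add]
    refine add_mem ?_ (Submodule.mem_sup_right (hL.1.st b y hy))
    refine Submodule.mem_sup.2 ⟨_, hU.st b x hx, (ρ b - CS.gr (le s) ρ b) *ᵥ x,
      mem_sp.2 fun i hi => Finset.sum_eq_zero fun j _ => ?_, by rw [sub_mulVec]; abel⟩
    by_cases c : s j = a
    · have hi' : ¬ (s i : ℕ) < a := hi
      show (ρ b i j - CS.gr (le s) ρ b i j) * x j = 0
      rw [gr_le]
      split_ifs with e
      · simp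
      · rw [hρ b i j fun o => e (le_antisymm o (c ▸ not_lt.1 hi'))]
        simp
    · rw [mem_sp.1 (hF hx) j c, mul_zero]
  · have := wt_sup_inf (t := D.th) hU.cg hL.1.cg
    rw [hi, wt_bot, hw', hL.2] at this
    simpa using this
  · rw [← hi, inf_eq_left.2 (le_sup_left.trans c)]
  · rw [e5b_succ, sup_comm]
    exact sup_le_sup_left hF _
  · have := sup_inf_assoc_of_le (sp {i | (s i : ℕ) < a}) hF
    rw [c, e5b_disj, sup_bot_eq, e5b_succ, inf_eq_right.2 le_sup_right] at this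
    exact this.symm

theorem n_of_blocks {s : I → Fin k} (h : D.Slot s) (hb : ∀ a i j, s i ≠ s j → ρ a i j = 0) :
    D.N k ρ :=
  ⟨s, h, 1, D.base.one_mem_P, by
    rw [actR_one]
    exact fun a i j c => hb a i j fun e => c e.le⟩

/-- Jordan-Hoelder: a direct sum of `k` stable blocks has length `k` -/
theorem not_n_succ {s : I → Fin k} (h : D.Slot s) (hb : ∀ a i j, s i ≠ s j → ρ a i j = 0)
    (hs : ∀ a, D.StbOn ρ {i | s i = a}) : ¬ D.N (k + 1) ρ := by
  intro c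
  obtain ⟨U, -, -, hl, hA⟩ := e5b_chain c
  have hF : ∀ a, D.A ρ (sp {i | s i = a}) := fun a =>
    ⟨sub_sp.2 fun b i j hi hj => hb b i j fun e => hi (e.trans hj), h.wt_pre {a}⟩
  have hS : D.SS D.th ρ := ss_of_blocks s hb fun a => (hs a).ssOn (hF a).2
  let V : ℕ → Submodule ℂ (I → ℂ) := fun j => sp {i | (s i : ℕ) < j}
  have hV : ∀ j, D.A ρ (V j) := e5b_A h fun a i j c => hb a i j fun e => c e.le
  have hm : ∀ j, V j ≤ V (j + 1) := fun j =>
    sp_le_sp.2 fun i (hi : (s i : ℕ) < j) => Nat.lt_succ_of_lt hi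
  have gap : ∀ (a : Fin k) W, D.A ρ W → V a ≤ W → W ≤ V (a + 1) → ¬ V (a + 1) ≤ W → W = V a := by
    intro a W hW h1 h2 h3
    have e : W = V a ⊔ sp {i | s i = a} ⊓ W := by
      rw [← sup_inf_assoc_of_le _ h1, ← e5b_succ, inf_eq_right.2 h2]
    have hX := A.inf hS (hF a) hW
    by_cases c0 : sp {i | s i = a} ⊓ W = ⊥
    · rwa [c0, sup_bot_eq] at e
    refine absurd hX.2 ((hs a).2 _ hX.1 inf_le_left c0 fun c1 => h3 ?_).ne
    rw [e, c1]
    exact (e5b_succ s a).le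
  let T : Submodule ℂ (I → ℂ) → Finset (Fin k) := fun W =>
    Finset.univ.filter fun a => V (a + 1) ≤ W ⊓ V (a + 1) ⊔ V a
  have hT : ∀ W W', D.A ρ W → D.A ρ W' → W < W' → (T W).card < (T W').card := by
    intro W W' hW hW' hlt
    have mono : ∀ j, W ⊓ V (j + 1) ⊔ V j ≤ W' ⊓ V (j + 1) ⊔ V j := fun j =>
      sup_le_sup_right (inf_le_inf_right _ hlt.le) _
    refine Finset.card_lt_card ⟨fun a ha => Finset.mem_filter.2 ⟨Finset.mem_univ _,
      (Finset.mem_filter.1 ha).2.trans (mono a)⟩, fun hc => hlt.ne ?_⟩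
    have : ∀ j ≤ k, W ⊓ V j = W' ⊓ V j := fun j => by
      induction j with
      | zero => intro _; simp [V]
      | succ j ih =>
        intro hj
        refine eq_of_le_of_inf_le_of_le_sup (z := V j) (inf_le_inf_right _ hlt.le) ?_ ?_
        · rw [inf_assoc, inf_eq_right.2 (hm j), ← ih (by omega)]
          exact inf_le_inf_left _ (hm j)
        · by_cases c : V (j + 1) ≤ W' ⊓ V (j + 1) ⊔ V j
          · exact inf_le_right.trans (Finset.mem_filter.1
              (hc (Finset.mem_filter.2 ⟨Finset.mem_univ (⟨j, hj⟩ : Fin k), c⟩))).2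
          · exact le_sup_left.trans ((gap ⟨j, hj⟩ _ (A.sup hS (A.inf hS hW' (hV _)) (hV _))
              le_sup_right (sup_le inf_le_right (hm j)) c).le.trans le_sup_right)
    simpa [V] using this k le_rfl
  have : ∀ j ≤ k + 1, j ≤ (T (U j)).card := fun j => by
    induction j with
    | zero => simp
    | succ j ih =>
      exact fun hj => (ih (by omega)).trans_lt (hT _ _ (hA j (by omega)) (hA _ hj) (hl j hj))
  have h2 := (this _ le_rfl).trans (Finset.card_le_univ _)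
  simp at h2

theorem n_succ_iff {s : I → Fin k} (h : D.Slot s) (hs : D.SS D.th ρ)
    (hb : ∀ a i j, s i ≠ s j → ρ a i j = 0) :
    D.N (k + 1) ρ ↔ ∃ a, ¬ D.StbOn ρ {i | s i = a} := by
  refine ⟨fun c => by_contra fun e => not_n_succ h hb (fun a => by_contra fun o => e ⟨a, o⟩) c,
    fun ⟨a, ha⟩ => n_succ_of_not_stb h hs (fun a i j c => hb a i j fun e => c e.le) (a := a) ?_⟩
  rwa [show gr (le s) ρ = ρ from funext fun b => Matrix.ext fun i j => by
    rw [gr_le]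
    split_ifs with e
    · rfl
    · exact (hb b i j e).symm]

/-- E5 (a) -/
theorem exists_jh (hs : D.SS D.th ρ) (h1 : D.N k ρ) (h2 : ¬ D.N (k + 1) ρ) :
    ∃ s : I → Fin k, D.Slot s ∧ ∃ u ∈ D.K, Tri (le s) (actR u ρ) ∧
      ∀ a, D.StbOn (gr (le s) (actR u ρ)) {i | s i = a} := by
  obtain ⟨s, h, u, hu, ht⟩ := n_iff_K.1 h1
  exact ⟨s, h, u, hu, ht, fun a => by_contra fun c => h2 (Iso.n (Iso.symm ⟨u, D.K_le hu, rfl⟩)
    (n_succ_of_not_stb h (hs.act (D.K_le hu)) ht c))⟩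

end Dat

end Pool.Agent.CS
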