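import Pool.Agent.P.MP_d34769_ag.YE5
import Pool.Agent.P.MP_d34769_ag.YE6a

/-! Limits of pairs of isomorphic triples. -/

open Matrix Classical

noncomputable section
namespace Pool.Agent.CS

variable {I : Type} [Fintype I] [DecidableEq I]

namespace Dat
variable {D : Dat I} {ρ σ : Rp I}

/-- SEP -/
theorem sep (hρ : D.SS D.th ρ) (hσ : D.SS D.th σ)
    (h : (ρ, σ) ∈ closure {x : Rp I × Rp I | D.Iso x.1 x.2}) :
    ∃ r, D.Bal r ∧ ∃ u ∈ D.K, ∃ u' ∈ D.K, Tri r (actR u ρ) ∧ Tri (flip r) (actR u' σ) ∧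
      D.Iso (gr r (actR u ρ)) (gr r (actR u' σ)) := by
  have hsub : {x : Rp I × Rp I | D.Iso x.1 x.2} ⊆
      {x : Rp I × Rp I | ∃ g ∈ D.base.P, x.2 = actR g x.1} := by
    rintro x ⟨g, hg, hx⟩
    exact ⟨g, hg, hx.symm⟩
  obtain ⟨k, hk, hkP, k', hk', hkP', r, -, h2, h3, h4, h5, s, hs, h6⟩ := D.sep_core
    (closure_mono hsub h)
  have hs' : ∀ i, (s i : ℂ) ≠ 0 := fun i => by exact_mod_cast (hs i).ne'
  have hinv : diagonal (fun i => (s i : ℂ)) * diagonal (fun i => (s i : ℂ)⁻¹) = 1 := by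
    rw [diagonal_mul_diagonal, ← diagonal_one]
    congr 1
    exact funext fun i => mul_inv_cancel₀ (hs' i)
  refine ⟨r, ⟨h3, h2, fun i0 => ?_⟩, k, ⟨hkP.1, hk⟩, k', ⟨hkP'.1, hk'⟩, h4, h5,
    diagonal fun i => (s i : ℂ), ⟨D.base.diagonal_mem_Lie _, isUnit_det_of_right_inverse hinv⟩, ?_⟩
  · let F : Finset I := Finset.univ.filter fun j => r j i0
    have hF : ∀ j, j ∈ F ↔ r j i0 := fun j => by simp [F]
    have a1 := hρ.act hkP _ (sub_sp (F := (F : Set I)) |>.2 fun c i j hi hj =>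
      h4 c i j fun hij => hi ((hF i).2 (h2 _ _ _ hij ((hF j).1 hj))))
    have a2 := hσ.act hkP' _ (sub_sp (F := ((Fᶜ : Finset I) : Set I)) |>.2 fun c i j hi hj =>
      h5 c i j fun hji => Finset.mem_compl.1 hj ((hF j).2 (h2 _ _ _ hji
        ((hF i).1 (by simpa using hi)))))
    have a3 : D.wt D.th ⊤ = 0 := wt_top
    rw [wt_top', ← Finset.sum_add_sum_compl F] at a3
    rw [wt_sp] at a1 a2
    rw [show {j | r j i0} = (F : Set I) from Set.ext fun j => (hF j).symm, wt_sp]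
    omega
  · funext c
    ext i j
    conv_lhs => rw [actR, inv_eq_right_inv hinv, mul_diagonal, diagonal_mul]
    simp only [gr]
    split_ifs with hh
    · exact (h6 c i j hh.1 hh.2).symm
    · simp

end Dat

end Pool.Agent.CS
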