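import Pool.Agent.P.MP_d34769_ag.YE5b
import Pool.Agent.P.MP_d34769_ag.YE6

/-! S-equivalence. -/

open Matrix Classical

noncomputable section
namespace Pool.Agent.CS

variable {I : Type} [Fintype I] [DecidableEq I]

namespace Dat
variable (D : Dat I)

/-- the semisimple points in the closure of the orbit -/
def ps (ρ : Rp I) : Set (Rp I) := {σ | D.Sem σ ∧ σ ∈ closure {x | D.Iso ρ x}}

/-- S-equivalence -/
def Sim (ρ σ : Rp I) : Prop := D.ps ρ = D.ps σ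

variable {D} {ρ σ τ : Rp I} {r : I → I → Prop} {k : ℕ}

lemma Sim.refl (ρ : Rp I) : D.Sim ρ ρ := rfl

lemma Sim.symm (h : D.Sim ρ σ) : D.Sim σ ρ := Eq.symm h

lemma Sim.trans (h : D.Sim ρ σ) (h' : D.Sim σ τ) : D.Sim ρ τ := Eq.trans h h'

lemma e7_iso {u : Matrix I I ℂ} (hu : u ∈ D.K) (ρ : Rp I) : D.Iso ρ (actR u ρ) :=
  ⟨u, D.K_le hu, rfl⟩

lemma e7_jh (hs : D.SS D.th ρ) : ∃ (k : ℕ) (s : I → Fin k) (u : Matrix I I ℂ), D.Slot s ∧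
    u ∈ D.K ∧ D.N k ρ ∧ Tri (le s) (actR u ρ) ∧ ¬ D.N (k + 1) (gr (le s) (actR u ρ)) ∧
      gr (le s) (actR u ρ) ∈ D.ps ρ := by
  obtain ⟨k, h1, h2⟩ := exists_n (D := D) ρ
  obtain ⟨s, h, u, hu, ht, hb⟩ := exists_jh hs h1 h2
  have h0 : ∀ a i j, s i ≠ s j → gr (le s) (actR u ρ) a i j = 0 := fun a i j e => by
    rw [gr_le, if_neg e]
  exact ⟨k, s, u, h, hu, h1, ht, not_n_succ h h0 hb, sem_of_blocks h h0 hb,
    closure_orb_mono (subset_closure (e7_iso hu ρ)) (gr_mem_closure h.toBal ht)⟩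

lemma e7_cont : Continuous fun p : D.K × Rp I => actR p.1.1 p.2 := by
  have e : (fun p : D.K × Rp I => actR p.1.1 p.2) = fun p a => p.1.1 * p.2 a * p.1.1ᴴ :=
    funext fun p => actR_unitary p.1.2.2 p.2
  rw [e]
  fun_prop

lemma e7_closed (r r' : I → I → Prop) : IsClosed {x : Rp I × Rp I | ∃ u ∈ D.K, ∃ u' ∈ D.K,
    Tri r (actR u x.1) ∧ Tri r' (actR u' x.2) ∧ (gr r (actR u x.1), gr r' (actR u' x.2)) ∈
      closure {x : Rp I × Rp I | D.Iso x.1 x.2}} := by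
  have := isCompact_iff_compactSpace.1 (isCompact_K (D := D))
  have c1 : Continuous fun p : (D.K × D.K) × Rp I × Rp I => actR p.1.1.1 p.2.1 :=
    e7_cont.comp (f := fun p : (D.K × D.K) × Rp I × Rp I => (p.1.1, p.2.1)) (by fun_prop)
  have c2 : Continuous fun p : (D.K × D.K) × Rp I × Rp I => actR p.1.2.1 p.2.2 :=
    e7_cont.comp (f := fun p : (D.K × D.K) × Rp I × Rp I => (p.1.2, p.2.2)) (by fun_prop)
  have h := isClosedMap_snd_of_compactSpace _ (((isClosed_tri r).preimage c1).inter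
    (((isClosed_tri r').preimage c2).inter
      ((isClosed_closure (s := {x : Rp I × Rp I | D.Iso x.1 x.2})).preimage
        (((continuous_gr r).comp c1).prodMk ((continuous_gr r').comp c2)))))
  refine (congrArg IsClosed (Set.ext fun x => ⟨?_, ?_⟩)).mp h
  · rintro ⟨⟨⟨u, u'⟩, y⟩, hp, rfl⟩
    exact ⟨u.1, u.2, u'.1, u'.2, hp⟩
  · rintro ⟨u, hu, u', hu', hp⟩
    exact ⟨((⟨u, hu⟩, ⟨u', hu'⟩), x), hp, rfl⟩

lemma ps_nonempty (hs : D.SS D.th ρ) : (D.ps ρ).Nonempty := by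
  obtain ⟨k, s, u, -, -, -, -, -, h⟩ := e7_jh hs
  exact ⟨_, h⟩

lemma ps_iso (h : σ ∈ D.ps ρ) (h' : τ ∈ D.ps ρ) : D.Iso σ τ := by
  have h1 : (σ, τ) ∈ closure ({x | D.Iso ρ x} ×ˢ {x | D.Iso ρ x}) := by
    rw [closure_prod_eq]
    exact ⟨h.2, h'.2⟩
  obtain ⟨r, hr, u, hu, u', hu', t1, t2, e⟩ := sep h.1.1 h'.1.1
    (closure_mono (fun x hx => hx.1.symm.trans hx.2) h1)
  have a := ((e7_iso hu' τ).sem h'.1).iso_gr hr.flip t2
  rw [gr_flip] at a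
  exact (((e7_iso hu σ).trans (((e7_iso hu σ).sem h.1).iso_gr hr t1)).trans e).trans
    ((e7_iso hu' τ).trans a).symm

lemma ps_of_iso (h : σ ∈ D.ps ρ) (h' : D.Iso σ τ) : τ ∈ D.ps ρ :=
  ⟨h'.sem h.1, closure_orb_mono h.2 (subset_closure h')⟩

lemma Sem.mem_ps (h : D.Sem ρ) : ρ ∈ D.ps ρ := ⟨h, subset_closure (Iso.refl ρ)⟩

lemma ps_mem_R (hρ : ρ ∈ D.base.R) (h : σ ∈ D.ps ρ) : σ ∈ D.base.R := by
  refine closure_minimal ?_ D.base.isClosed_R h.2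
  rintro _ ⟨g, hg, rfl⟩
  exact actR_mem hg hρ

lemma Iso.sim (h : D.Iso ρ σ) : D.Sim ρ σ :=
  Set.ext fun _ => and_congr_right fun _ => ⟨fun a => closure_orb_mono (subset_closure h.symm) a,
    fun a => closure_orb_mono (subset_closure h) a⟩

lemma sim_of_closure (hσ : D.SS D.th σ) (h : σ ∈ closure {x | D.Iso ρ x}) : D.Sim ρ σ := by
  obtain ⟨π, hπ⟩ := ps_nonempty hσ
  exact Set.Subset.antisymm
    (fun τ hτ => ps_of_iso hπ (ps_iso ⟨hπ.1, closure_orb_mono h hπ.2⟩ hτ))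
    fun τ hτ => ⟨hτ.1, closure_orb_mono h hτ.2⟩

lemma sim_of_ps (h : σ ∈ D.ps ρ) : D.Sim ρ σ := sim_of_closure h.1.1 h.2

lemma sim_gr (hs : D.SS D.th ρ) (hr : D.Bal r) (hρ : Tri r ρ) : D.Sim ρ (gr r ρ) :=
  sim_of_closure (hs.gr hr hρ) (gr_mem_closure hr hρ)

lemma Sim.iso (h : D.Sim ρ σ) (hρ : D.Sem ρ) (hσ : D.Sem σ) : D.Iso ρ σ :=
  ps_iso hρ.mem_ps (Eq.symm h ▸ hσ.mem_ps)

theorem sim_of_pair (hρ : D.SS D.th ρ) (hσ : D.SS D.th σ)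
    (h : (ρ, σ) ∈ closure {x : Rp I × Rp I | D.Iso x.1 x.2}) : D.Sim ρ σ := by
  obtain ⟨r, hr, u, hu, u', hu', t1, t2, e⟩ := sep hρ hσ h
  have a := sim_gr ((e7_iso hu' σ).ss hσ) hr.flip t2
  rw [gr_flip] at a
  exact (((e7_iso hu ρ).sim.trans (sim_gr ((e7_iso hu ρ).ss hρ) hr t1)).trans e.sim).trans
    ((e7_iso hu' σ).sim.trans a).symm

/-- S-equivalence is closed on semistable triples -/
theorem sim_closed (hρ : D.SS D.th ρ) (hσ : D.SS D.th σ)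
    (h : (ρ, σ) ∈ closure {x : Rp I × Rp I | D.SS D.th x.1 ∧ D.SS D.th x.2 ∧ D.Sim x.1 x.2}) :
    D.Sim ρ σ := by
  have hc : IsClosed (⋃ q : {q : (I → I → Prop) × (I → I → Prop) // D.Bal q.1 ∧ D.Bal q.2},
      {x : Rp I × Rp I | ∃ u ∈ D.K, ∃ u' ∈ D.K, Tri q.1.1 (actR u x.1) ∧ Tri q.1.2 (actR u' x.2) ∧
        (gr q.1.1 (actR u x.1), gr q.1.2 (actR u' x.2)) ∈
          closure {x : Rp I × Rp I | D.Iso x.1 x.2}}) :=
    isClosed_iUnion_of_finite fun q => e7_closed q.1.1 q.1.2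
  obtain ⟨⟨⟨r, r'⟩, hr, hr'⟩, u, hu, u', hu', t1, t2, e⟩ :=
    Set.mem_iUnion.1 (closure_minimal (fun x hx => by
      obtain ⟨k, s, u, h1, h2, -, h3, -, h4⟩ := e7_jh hx.1
      obtain ⟨k', s', u', h1', h2', -, h3', -, h4'⟩ := e7_jh hx.2.1
      exact Set.mem_iUnion.2 ⟨⟨(le s, le s'), h1.toBal, h1'.toBal⟩, u, h2, u', h2', h3, h3',
        subset_closure (ps_iso h4 (Eq.symm hx.2.2 ▸ h4'))⟩) hc h)
  have a := (e7_iso hu ρ).ss hρ
  have b := (e7_iso hu' σ).ss hσ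
  exact (((e7_iso hu ρ).sim.trans (sim_gr a hr t1)).trans
    (sim_of_pair (a.gr hr t1) (b.gr hr' t2) e)).trans
    ((e7_iso hu' σ).sim.trans (sim_gr b hr' t2)).symm

theorem Sim.n (h : D.Sim ρ σ) (hρ : D.SS D.th ρ) (hσ : D.SS D.th σ) (hn : D.N k ρ) :
    D.N k σ := by
  obtain ⟨k', s, u, -, -, h1, -, h2, h3⟩ := e7_jh hσ
  have h4 : gr (le s) (actR u σ) ∈ D.ps ρ := Eq.symm h ▸ h3
  have h5 : D.N k (gr (le s) (actR u σ)) :=
    closure_minimal (fun _ hx => Iso.n hx hn) (isClosed_n k) h4.2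
  have h6 : k ≤ k' := by
    by_contra h7
    exact h2 (h5.anti (by omega) (by omega))
  rcases Nat.eq_zero_or_pos k with rfl | h0
  · obtain ⟨t, ht, g, hg, -⟩ := hn
    exact ⟨t, ht, g, hg, fun _ i => (t i).elim0⟩
  · exact h1.anti h0 h6

theorem Sim.iso_of_stb (h : D.Sim ρ σ) (hρ : D.Stb ρ) (hσ : D.SS D.th σ) : D.Iso ρ σ := by
  have := hρ.1
  have h1 := stb_iff.1 hρ
  exact h.iso hρ.sem (stb_iff.2 ⟨hσ, fun h2 => h1.2 (h.symm.n hσ h1.1 h2)⟩).sem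

end Dat

end Pool.Agent.CS
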