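import Pool.Agent.P.MP_d34769_ag.YE7

/-! The structure of semisimple triples. -/

open Matrix Classical

noncomputable section
namespace Pool.Agent.CS

variable {I : Type} [Fintype I] [DecidableEq I]

namespace Dat

/-- A direct sum of `k` stable blocks in which isomorphic blocks are equal: `c a` is the
representative of the slot `a`, and `tau` identifies each slot with its representative. -/
structure Pol (D : Dat I) (k : ℕ) where
  slot : I → Fin k
  c : Fin k → Fin k
  tau : I → I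
  P0 : Rp I
  sl : D.Slot slot
  c_c : ∀ a, c (c a) = c a
  slot_tau : ∀ i, slot (tau i) = c (slot i)
  cc_tau : ∀ i, D.cc (tau i) i
  inj : ∀ i j, tau i = tau j → slot i = slot j → i = j
  surj : ∀ b i, c b = c (slot i) → ∃ j, slot j = b ∧ tau j = tau i
  mem : P0 ∈ D.base.R
  off : ∀ a i j, slot i ≠ slot j → P0 a i j = 0
  dep : ∀ a i j i' j', slot i = slot j → slot i' = slot j' → tau i = tau i' → tau j = tau j' →
    P0 a i j = P0 a i' j'
  stb : ∀ a, D.StbOn P0 {i | slot i = a}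
  non : ∀ h ∈ D.base.Lie, (∀ a, h * P0 a = P0 a * h) →
    ∀ i j, c (slot i) ≠ c (slot j) → h i j = 0

variable {D : Dat I} {k : ℕ}

namespace Pol
variable (S : D.Pol k)

/-- the endomorphism given by a matrix on the slots -/
def ten (A : Matrix (Fin k) (Fin k) ℂ) : Matrix I I ℂ :=
  of fun i j => if S.tau i = S.tau j then A (S.slot i) (S.slot j) else 0

/-- matrices on the slots that preserve the types -/
def Blk (A : Matrix (Fin k) (Fin k) ℂ) : Prop := ∀ a b, S.c a ≠ S.c b → A a b = 0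

/-- the part of `f` in the slot `a`, moved to the representative -/
def Phi {μ : Type} (f : Matrix I μ ℂ) : Matrix (Fin k) (I × μ) ℂ :=
  of fun a x => ∑ i with S.slot i = a ∧ S.tau i = x.1, f i x.2

/-- the inverse of `Phi` -/
def asm {μ : Type} (y : Matrix (Fin k) (I × μ) ℂ) : Matrix I μ ℂ :=
  of fun i r => y (S.slot i) (S.tau i, r)

/-- the subrepresentation given by a subspace of functions on the slots -/
def up (W : Submodule ℂ (Fin k → ℂ)) : Submodule ℂ (I → ℂ) where
  carrier := {v | ∀ x, (fun a => ∑ i with S.slot i = a ∧ S.tau i = x, v i) ∈ W}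
  add_mem' ha hb x := by
    simp only [Pi.add_apply, Finset.sum_add_distrib]; exact add_mem (ha x) (hb x)
  zero_mem' x := by simp only [Pi.zero_apply, Finset.sum_const_zero]; exact W.zero_mem
  smul_mem' c v h x := by
    simp only [Pi.smul_apply, ← Finset.smul_sum]; exact W.smul_mem c (h x)

lemma sem : D.Sem S.P0 := sem_of_blocks S.sl S.off S.stb

lemma ss : D.SS D.th S.P0 := S.sem.1

lemma n : D.N k S.P0 := n_of_blocks S.sl S.off

lemma not_n : ¬ D.N (k + 1) S.P0 := not_n_succ S.sl S.off S.stb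

lemma c_eq {i j : I} (h : S.tau i = S.tau j) : S.c (S.slot i) = S.c (S.slot j) := by
  rw [← S.slot_tau, ← S.slot_tau, h]

lemma ten_apply (A : Matrix (Fin k) (Fin k) ℂ) (i j : I) :
    S.ten A i j = if S.tau i = S.tau j then A (S.slot i) (S.slot j) else 0 := rfl

lemma ten_mem (A : Matrix (Fin k) (Fin k) ℂ) : S.ten A ∈ D.base.Lie :=
  D.mem_base_Lie.2 fun i j h => if_neg fun e : S.tau i = S.tau j =>
    h (D.cc_eq.3 (D.cc_eq.2 (S.cc_tau i)) (e ▸ S.cc_tau j))

lemma ten_comm (A : Matrix (Fin k) (Fin k) ℂ) (a : Fin 3) :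
    S.ten A * S.P0 a = S.P0 a * S.ten A := by
  ext i j
  simp only [mul_apply, ten_apply]
  by_cases h : S.c (S.slot j) = S.c (S.slot i)
  · obtain ⟨l, h1, h2⟩ := S.surj _ i h
    obtain ⟨l', h3, h4⟩ := S.surj _ j h.symm
    rw [Finset.sum_eq_single l, Finset.sum_eq_single l', if_pos h2.symm, if_pos h4, h1, h3,
      S.dep a l j i l' h1 h3.symm h2 h4.symm, mul_comm]
    · intro x _ hx
      split_ifs with e
      · rw [S.off a i x fun e' => hx (S.inj _ _ (e.trans h4.symm) (e'.symm.trans h3.symm)), zero_mul]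
      · exact mul_zero _
    · simp
    · intro x _ hx
      split_ifs with e
      · rw [S.off a x j fun e' => hx (S.inj _ _ (e.symm.trans h2.symm) (e'.trans h1.symm)), mul_zero]
      · exact zero_mul _
    · simp
  · rw [Finset.sum_eq_zero, Finset.sum_eq_zero] <;> intro x _ <;> split_ifs with e
    · rw [S.off a i x fun e' => h (by rw [e', S.c_eq e]), zero_mul]
    · exact mul_zero _
    · rw [S.off a x j fun e' => h (by rw [← e', S.c_eq e]), mul_zero]
    · exact zero_mul _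

lemma ten_one : S.ten 1 = 1 := by
  ext i j
  by_cases h : i = j
  · subst h; simp [ten_apply]
  · rw [ten_apply, one_apply_ne h]
    split_ifs with e
    exacts [one_apply_ne fun e' => h (S.inj _ _ e e'), rfl]

lemma phi_val {μ : Type} (f : Matrix I μ ℂ) (i : I) (r : μ) :
    S.Phi f (S.slot i) (S.tau i, r) = f i r :=
  Finset.sum_eq_single_of_mem i (by simp) fun j hj e => by
    simp only [Finset.mem_filter] at hj
    exact absurd (S.inj _ _ hj.2.2 hj.2.1) e

lemma phi_off {μ : Type} (f : Matrix I μ ℂ) (a : Fin k) (x : I × μ)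
    (h : ∀ i, S.slot i = a → S.tau i ≠ x.1) : S.Phi f a x = 0 :=
  Finset.sum_eq_zero fun j hj => by
    simp only [Finset.mem_filter] at hj
    exact absurd hj.2.2 (h j hj.2.1)

lemma phi_asm {μ : Type} {y : Matrix (Fin k) (I × μ) ℂ}
    (hy : ∀ a x, (∀ i, S.slot i = a → S.tau i ≠ x.1) → y a x = 0) : S.Phi (S.asm y) = y := by
  ext a ⟨x, r⟩
  by_cases h : ∃ i, S.slot i = a ∧ S.tau i = x
  · obtain ⟨i, rfl, rfl⟩ := h
    exact S.phi_val _ i r
  · have h' : ∀ i, S.slot i = a → S.tau i ≠ x := fun i e e' => h ⟨i, e, e'⟩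
    rw [S.phi_off _ a (x, r) h', hy a (x, r) h']

lemma asm_phi {μ : Type} (f : Matrix I μ ℂ) : S.asm (S.Phi f) = f := by
  ext i r; exact S.phi_val f i r

lemma ten_mul_eq {μ : Type} (A : Matrix (Fin k) (Fin k) ℂ) (f : Matrix I μ ℂ) :
    S.ten A * f = S.asm (A * S.Phi f) := by
  ext i r
  simp only [asm, Phi, mul_apply, ten_apply, of_apply, Finset.mul_sum, Finset.sum_filter]
  rw [Finset.sum_comm]
  refine Finset.sum_congr rfl fun j _ => ?_
  rw [Finset.sum_eq_single (S.slot j) (fun b _ hb => by simp [hb.symm]) (by simp)]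
  by_cases e : S.tau i = S.tau j
  · simp [e]
  · simp [e, Ne.symm e]

lemma phi_ten {μ : Type} {A : Matrix (Fin k) (Fin k) ℂ} (hA : S.Blk A) (f : Matrix I μ ℂ) :
    S.Phi (S.ten A * f) = A * S.Phi f := by
  rw [ten_mul_eq]
  refine S.phi_asm fun a x h => mul_apply.trans (Finset.sum_eq_zero fun b _ => ?_)
  by_cases e : S.c a = S.c b
  · rw [S.phi_off f b x, mul_zero]
    rintro j rfl e'
    obtain ⟨i, h1, h2⟩ := S.surj a j e
    exact h i h1 (h2.trans e')
  · rw [hA a b e, zero_mul]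

lemma ten_asm {μ : Type} {A : Matrix (Fin k) (Fin k) ℂ} (hA : S.Blk A)
    (y : Matrix (Fin k) (I × μ) ℂ) : S.ten A * S.asm y = S.asm (A * y) := by
  rw [ten_mul_eq]
  ext i r
  simp only [asm, of_apply, mul_apply]
  refine Finset.sum_congr rfl fun b _ => ?_
  by_cases e : S.c b = S.c (S.slot i)
  · obtain ⟨j, rfl, h2⟩ := S.surj b i e
    rw [← h2, S.phi_val]; rfl
  · rw [hA _ b (Ne.symm e), zero_mul, zero_mul]

lemma ten_mul {A B : Matrix (Fin k) (Fin k) ℂ} (hB : S.Blk B) :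
    S.ten (A * B) = S.ten A * S.ten B := by
  rw [ten_mul_eq]
  ext i j
  have : ∀ b, S.Phi (S.ten B) b (S.tau i, j) = if S.tau i = S.tau j then B b (S.slot j) else 0 := by
    intro b
    by_cases e : S.c b = S.c (S.slot i)
    · obtain ⟨l, rfl, h2⟩ := S.surj b i e
      rw [← h2, S.phi_val, ten_apply]
    · rw [S.phi_off _ b _ fun l h1 h2 => e (by rw [← h1, S.c_eq h2])]
      split_ifs with e'
      exacts [(hB _ _ (S.c_eq e' ▸ e)).symm, rfl]
  simp only [asm, ten_apply, of_apply, mul_apply, this]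
  split_ifs <;> simp

lemma ten_star (A : Matrix (Fin k) (Fin k) ℂ) : S.ten Aᴴ = (S.ten A)ᴴ := by
  ext i j
  simp only [ten_apply, conjTranspose_apply, eq_comm (a := S.tau i)]
  split_ifs <;> simp

lemma ten_sub (A B : Matrix (Fin k) (Fin k) ℂ) : S.ten (A - B) = S.ten A - S.ten B := by
  ext i j
  simp only [ten_apply, Matrix.sub_apply]
  split_ifs <;> simp

lemma ten_inj {A B : Matrix (Fin k) (Fin k) ℂ} (hA : S.Blk A) (hB : S.Blk B)
    (h : S.ten A = S.ten B) : A = B := by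
  ext a b
  by_cases e : S.c a = S.c b
  · obtain ⟨i, rfl⟩ := S.sl.surj a
    obtain ⟨j, rfl, h2⟩ := S.surj b i e.symm
    simpa [ten_apply, h2] using congrFun₂ h i j
  · rw [hA a b e, hB a b e]

lemma ten_row {v : Fin k → ℂ} (h : S.ten (of fun _ b => v b) = 0) : v = 0 := by
  funext b
  obtain ⟨j, rfl⟩ := S.sl.surj b
  simpa [ten_apply] using congrFun₂ h j j

lemma ten_zero : S.ten 0 = 0 := by ext i j; simp [ten_apply]

lemma ten_unit {A : Matrix (Fin k) (Fin k) ℂ} (hA : S.Blk A) :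
    IsUnit (S.ten A).det ↔ IsUnit A.det := by
  refine ⟨fun h => isUnit_iff_ne_zero.2 fun e => ?_, fun h => isUnit_det_of_left_inverse
    (B := S.ten A⁻¹) (by rw [← S.ten_mul hA, nonsing_inv_mul _ h, ten_one])⟩
  obtain ⟨v, hv, e⟩ := exists_vecMul_eq_zero_iff.2 e
  have h1 : (of fun _ b => v b) * A = (0 : Matrix (Fin k) (Fin k) ℂ) :=
    ext fun _ b => congrFun e b
  have h2 := S.ten_mul (A := of fun _ b => v b) hA
  rw [h1, ten_zero] at h2
  refine hv (S.ten_row ?_)
  rw [← mul_nonsing_inv_cancel_right _ (S.ten _) h, ← h2, Matrix.zero_mul]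

lemma ten_fix {A : Matrix (Fin k) (Fin k) ℂ} (hA : S.Blk A) (hu : IsUnit A.det) :
    S.ten A ∈ D.base.P ∧ actR (S.ten A) S.P0 = S.P0 :=
  ⟨⟨S.ten_mem A, (S.ten_unit hA).2 hu⟩, (actR_eq_iff ((S.ten_unit hA).2 hu)).2 (S.ten_comm A)⟩

lemma a_slot (T : Set (Fin k)) : D.A S.P0 (sp (S.slot ⁻¹' T)) :=
  ⟨sub_sp.2 fun a i j hi hj => S.off a i j fun e => hi (by rw [Set.mem_preimage, e]; exact hj),
    S.sl.wt_pre T⟩

/-- the endomorphisms of `P0` -/
theorem exists_ten {h : Matrix I I ℂ} (hh : h ∈ D.base.Lie) (hi : ∀ a, h * S.P0 a = S.P0 a * h) :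
    ∃ A, S.Blk A ∧ h = S.ten A := by
  have key : ∀ a b, ∃ lam : ℂ, S.c a = S.c b → ∀ i j, S.slot i = a → S.slot j = b →
      h i j = if S.tau i = S.tau j then lam else 0 := fun a b => by
    have hv : ∀ i j, (S.ten (single b a 1) * h) i j =
        if S.slot i = b then S.Phi h a (S.tau i, j) else 0 := fun i j => by
      rw [ten_mul_eq]
      change (single b a (1 : ℂ) * S.Phi h : Matrix _ _ ℂ) (S.slot i) (S.tau i, j) = _
      split_ifs with e
      · rw [e, single_mul_apply_same, one_mul]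
      · exact single_mul_apply_of_ne _ _ _ _ _ e _
    obtain ⟨lam, hl⟩ := scalar_on (h := S.ten (single b a 1) * h) (S.a_slot {b}) (S.stb b)
      (mul_mem_Lie (S.ten_mem _) hh)
      (fun x => by rw [Matrix.mul_assoc, hi, ← Matrix.mul_assoc, ten_comm, Matrix.mul_assoc])
      (map_sp_le.2 fun i j h1 _ => (hv i j).trans (if_neg h1))
    refine ⟨lam, fun e i j h1 h2 => ?_⟩
    obtain ⟨l, h3, h4⟩ := S.surj b i (by rw [h1, e])
    have := congrFun (hl (Pi.single j 1) (mem_sp.2 fun x hx =>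
      Pi.single_eq_of_ne (fun e' => hx (by rw [e']; exact h2)) _)) l
    rw [mulVec_single_one, col_apply, hv, if_pos h3, h4, ← h1, S.phi_val] at this
    rw [this, Pi.smul_apply, Pi.single_apply, smul_eq_mul, mul_ite, mul_one, mul_zero]
    exact if_congr ⟨fun e' => by rw [← e', h4], fun e' =>
      S.inj _ _ (h4.trans e') (h3.trans h2.symm)⟩ rfl rfl
  choose lam hl using key
  refine ⟨of fun a b => if S.c a = S.c b then lam a b else 0, fun a b e => if_neg e, ?_⟩
  ext i j
  rw [ten_apply, of_apply]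
  by_cases e : S.c (S.slot i) = S.c (S.slot j)
  · rw [if_pos e, hl _ _ e i j rfl rfl]
  · rw [if_neg e, S.non h hh hi i j e, ite_self]

/-- the components of a vector -/
def ph (v : I → ℂ) (x : I) : Fin k → ℂ := fun a => ∑ i with S.slot i = a ∧ S.tau i = x, v i

lemma mem_up {W : Submodule ℂ (Fin k → ℂ)} {v : I → ℂ} : v ∈ S.up W ↔ ∀ x, S.ph v x ∈ W := Iff.rfl

lemma ph_ten {A : Matrix (Fin k) (Fin k) ℂ} (hA : S.Blk A) (v : I → ℂ) (x : I) :
    S.ph (S.ten A *ᵥ v) x = A *ᵥ S.ph v x :=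
  funext fun a => congrFun₂ (S.phi_ten hA (of fun i (_ : Unit) => v i)) a (x, ())

lemma ph_val (v : I → ℂ) (i : I) : S.ph v (S.tau i) (S.slot i) = v i :=
  S.phi_val (of fun i (_ : Unit) => v i) i ()

lemma up_sp (T : Set (Fin k)) : S.up (sp T) = sp (S.slot ⁻¹' T) := by
  ext v
  simp only [mem_up, mem_sp]
  refine ⟨fun h i hi => S.ph_val v i ▸ h _ _ hi, fun h x a ha => Finset.sum_eq_zero fun i hi => ?_⟩
  simp only [Finset.mem_filter] at hi
  exact h i fun e => ha (hi.2.1 ▸ e)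

lemma up_range {E : Matrix (Fin k) (Fin k) ℂ} (hE : S.Blk E) :
    S.up (LinearMap.range E.mulVecLin) = LinearMap.range (S.ten E).mulVecLin := by
  ext v
  refine ⟨fun h => ?_, ?_⟩
  · choose w hw using S.mem_up.1 h
    refine ⟨fun i => w (S.tau i) (S.slot i), funext fun i => ?_⟩
    refine (congrFun₂ (S.ten_asm hE (of fun a (x : I × Unit) => w x.1 a)) i ()).trans ?_
    exact (congrFun (hw (S.tau i)) (S.slot i)).trans (S.ph_val v i)
  · rintro ⟨u, rfl⟩ x
    exact ⟨_, (S.ph_ten hE u x).symm⟩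

lemma up_map {A : Matrix (Fin k) (Fin k) ℂ} (hA : S.Blk A) (hu : IsUnit A.det)
    (W : Submodule ℂ (Fin k → ℂ)) :
    S.up (W.map A.mulVecLin) = (S.up W).map (S.ten A).mulVecLin := by
  ext v
  refine ⟨fun h => ?_, ?_⟩
  · have e : S.ten A *ᵥ ((S.ten A)⁻¹ *ᵥ v) = v := by
      rw [mulVec_mulVec, mul_nonsing_inv _ ((S.ten_unit hA).2 hu), one_mulVec]
    refine ⟨_, fun x => ?_, e⟩
    obtain ⟨w, hw, e'⟩ := S.mem_up.1 h x
    rw [← e, S.ph_ten hA] at e'
    rw [mulVec_injective_iff_isUnit.2 ((isUnit_iff_isUnit_det A).2 hu) e'] at hw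
    exact hw
  · rintro ⟨u, hu, rfl⟩ x
    exact ⟨_, hu x, (S.ph_ten hA u x).symm⟩

lemma blk_mul {A B : Matrix (Fin k) (Fin k) ℂ} (hA : S.Blk A) (hB : S.Blk B) : S.Blk (A * B) :=
  fun a b e => mul_apply.trans <| Finset.sum_eq_zero fun x _ => by
    by_cases e' : S.c a = S.c x
    · rw [hB x b (e' ▸ e), mul_zero]
    · rw [hA a x e', zero_mul]

lemma blk_star {A : Matrix (Fin k) (Fin k) ℂ} (hA : S.Blk A) : S.Blk Aᴴ := fun a b e => by
  rw [conjTranspose_apply, hA b a (Ne.symm e), star_zero]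

lemma blk_diagonal (t : Fin k → ℂ) : S.Blk (diagonal t) := fun _ _ e =>
  diagonal_apply_ne _ fun e' => e (e' ▸ rfl)

lemma blk_gr {E : Matrix (Fin k) (Fin k) ℂ} (hE : S.Blk E) (a : Fin k) :
    ∀ v ∈ LinearMap.range E.mulVecLin,
      (fun b => @ite _ (S.c a = S.c b) (propDecidable _) (v b) 0) ∈
        LinearMap.range E.mulVecLin := by
  rintro _ ⟨w, rfl⟩
  refine ⟨fun b => if S.c a = S.c b then w b else 0, funext fun b => ?_⟩
  simp only [mulVecLin_apply, mulVec, dotProduct]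
  split_ifs with e
  · refine Finset.sum_congr rfl fun x _ => ?_
    split_ifs with e'
    · rfl
    · rw [hE b x (e ▸ e'), zero_mul, zero_mul]
  · refine Finset.sum_eq_zero fun x _ => ?_
    split_ifs with e'
    · rw [hE b x fun e2 => e (e'.trans e2.symm), zero_mul]
    · exact mul_zero _

lemma c_equiv : Equivalence fun a b => S.c a = S.c b := ⟨fun _ => rfl, Eq.symm, Eq.trans⟩

omit [DecidableEq I] in
lemma range_le_iff {E F : Matrix I I ℂ} (hE : E * E = E) :
    LinearMap.range F.mulVecLin ≤ LinearMap.range E.mulVecLin ↔ E * F = F := by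
  classical
  refine ⟨fun h => toLin'.injective (LinearMap.ext fun v => ?_), fun h => ?_⟩
  · obtain ⟨w, hw⟩ := h ⟨v, rfl⟩
    simp only [mulVecLin_apply] at hw
    rw [toLin'_apply, toLin'_apply, ← mulVec_mulVec, ← hw, mulVec_mulVec, hE]
  · rintro _ ⟨v, rfl⟩
    exact ⟨F *ᵥ v, by simp [h]⟩

theorem a_iff {U : Submodule ℂ (I → ℂ)} : D.A S.P0 U ↔
    ∃ E, S.Blk E ∧ E * E = E ∧ Eᴴ = E ∧ U = LinearMap.range (S.ten E).mulVecLin := by
  refine ⟨fun hU => ?_, ?_⟩
  · obtain ⟨U', hU', hc⟩ := S.sem.2 U hU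
    let p := LinearMap.toMatrix' (U.projection U' hc)
    have hp : ∀ v, p *ᵥ v = U.projection U' hc v := fun v => by
      rw [← toLin'_apply, toLin'_toMatrix']
    have key : ∀ g : Matrix I I ℂ, (∀ v ∈ U, g *ᵥ v ∈ U) → (∀ v ∈ U', g *ᵥ v ∈ U') →
        p * g = g * p := fun g h1 h2 => toLin'.injective (LinearMap.ext fun v => by
      obtain ⟨u, hu, u', hu', rfl⟩ := Submodule.mem_sup.1 (hc.sup_eq_top ▸ Submodule.mem_top (x := v))
      simp only [toLin'_apply, ← mulVec_mulVec, hp, map_add,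
        Submodule.projection_apply_of_mem_left hc hu, Submodule.projection_apply_of_mem_right hc hu',
        Submodule.projection_apply_of_mem_left hc (h1 u hu),
        Submodule.projection_apply_of_mem_right hc (h2 u' hu'), mulVec_zero])
    have hL : p ∈ D.base.Lie := D.mem_base_Lie.2 fun i j e => by
      have hF : ∀ x y, D.cc x y → x ∈ {y | D.cc i y} → y ∈ {y | D.cc i y} :=
        fun x y e e' => D.cc_eq.3 e' e
      have := congrFun₂ (key (pr {y | D.cc i y}) (fun v => hU.1.pr_mem D.cc_eq hF)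
        fun v => hU'.1.pr_mem D.cc_eq hF) i j
      rw [mul_pr_apply, pr_mul_apply, if_neg (show j ∉ {y | D.cc i y} from e),
        if_pos (show i ∈ {y | D.cc i y} from D.cc_eq.1 i)] at this
      exact this.symm
    obtain ⟨E, hE, e⟩ := S.exists_ten hL fun a => key _ (hU.1.st a) (hU'.1.st a)
    have hr : U = LinearMap.range (S.ten E).mulVecLin := by
      rw [← e, ← U.range_projection hc]
      exact congrArg _ (LinearMap.ext fun v => (hp v).symm)
    obtain ⟨u, hu, h1, F, h2⟩ := e4_sub S.c_equiv (S.blk_gr hE)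
    have hb : S.Blk u := fun a b e => by_contra fun e' => e (h1 a b e')
    have u1 : uᴴ * u = 1 := mem_unitaryGroup_iff'.1 hu
    have hB : S.Blk (u * pr (F : Set (Fin k)) * uᴴ) :=
      S.blk_mul (S.blk_mul hb (S.blk_diagonal _)) (S.blk_star hb)
    refine ⟨_, hB, ?_, by simp [pr_star, Matrix.mul_assoc], ?_⟩
    · rw [Matrix.mul_assoc, Matrix.mul_assoc u _ uᴴ, ← Matrix.mul_assoc uᴴ, u1, Matrix.one_mul,
        Matrix.mul_assoc, ← Matrix.mul_assoc (pr _), pr_mul_pr, Set.inter_self]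
    · rw [hr, ← S.up_range hE, ← S.up_range hB, h2, mulVecLin_mul, mulVecLin_mul,
        LinearMap.range_comp_of_range_eq_top, LinearMap.range_comp, range_pr]
      exact LinearMap.range_eq_top.2 fun v => ⟨u *ᵥ v, by simp [u1]⟩
  · rintro ⟨E, -, -, -, rfl⟩
    simpa using (a_ker_range (S.ten_mem E) (S.ten_comm E) S.ss S.ss (A.top _)).2

theorem gen_iff {μ : Type} (f : Matrix I μ ℂ) :
    D.Gen S.P0 f ↔ LinearIndependent ℂ (S.Phi f).row := by
  rw [← vecMul_injective_iff]
  refine ⟨fun h => (injective_iff_map_eq_zero (S.Phi f).vecMulLinear).2 fun v hv => S.ten_row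
    (hom0 h S.ss (S.ten_mem _) (S.ten_comm _) ?_), fun h => (Dat.gen_iff S.ss).2 fun U hU hf => ?_⟩
  · rw [ten_mul_eq]
    ext i r
    exact congrFun hv _
  · obtain ⟨E, hE, h1, -, rfl⟩ := S.a_iff.1 hU
    have h2 : S.ten E * f = f := by
      ext i r
      obtain ⟨w, hw⟩ := hf r
      have : S.ten E *ᵥ (fun i => f i r) = fun i => f i r := by
        rw [← hw, mulVecLin_apply, mulVec_mulVec, ← S.ten_mul hE, h1]
      exact congrFun this i
    have h3 := S.phi_ten hE f
    rw [h2] at h3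
    have h4 : E = 1 := ext fun a => congrFun (h (a₁ := E a) (a₂ := (1 : Matrix _ _ ℂ) a)
      (funext fun x => (congrFun₂ (h3.symm.trans (Matrix.one_mul _).symm) a x)))
    rw [h4, ten_one, mulVecLin_one, LinearMap.range_id]

/-- a chain of subrepresentations of weight zero is a chain of unions of slots up to a unitary
automorphism -/
theorem chain {κ : Type} (U : κ → Submodule ℂ (I → ℂ)) (hc : ∀ a b, U a ≤ U b ∨ U b ≤ U a)
    (hU : ∀ a, D.A S.P0 (U a)) : ∃ A ∈ unitaryGroup (Fin k) ℂ, S.Blk A ∧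
      ∃ T : κ → Finset (Fin k), (∀ a b, U a ≤ U b ↔ T a ⊆ T b) ∧
        ∀ a, U a = (sp (S.slot ⁻¹' (T a : Set (Fin k)))).map (S.ten A).mulVecLin := by
  choose E hE h1 _ h2 using fun a => S.a_iff.1 (hU a)
  have h3 : ∀ a b, U a ≤ U b →
      LinearMap.range (E a).mulVecLin ≤ LinearMap.range (E b).mulVecLin := fun a b h => by
    rw [h2, h2, range_le_iff (by rw [← S.ten_mul (hE b), h1]), ← S.ten_mul (hE a)] at h
    exact (range_le_iff (h1 b)).2 (S.ten_inj (S.blk_mul (hE b) (hE a)) (hE a) h)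
  obtain ⟨u, hu, h4, F, h5, h6⟩ := e4_chain S.c_equiv (fun a => LinearMap.range (E a).mulVecLin)
    (fun a b => (hc a b).imp (h3 a b) (h3 b a)) fun a => S.blk_gr (hE a)
  have hb : S.Blk u := fun a b e => by_contra fun e' => e (h4 a b e')
  have h7 : ∀ a, U a = (sp (S.slot ⁻¹' (F a : Set (Fin k)))).map (S.ten u).mulVecLin := fun a => by
    rw [h2, ← S.up_range (hE a), h6,
      S.up_map hb (isUnit_det_of_left_inverse (mem_unitaryGroup_iff'.1 hu)), up_sp]
  refine ⟨u, hu, hb, F, fun a b => ⟨fun h => h5 a b (h3 a b h), fun h => ?_⟩, h7⟩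
  rw [h7, h7]
  exact Submodule.map_mono (sp_le_sp.2 (Set.preimage_mono h))

open scoped ComplexOrder in
/-- a stable framing can be made orthonormal by an automorphism -/
theorem orth {μ : Type} [Fintype μ] {f : Matrix I μ ℂ} (hf : D.Gen S.P0 f) :
    ∃ A, S.Blk A ∧ IsUnit A.det ∧ S.Phi (S.ten A * f) * (S.Phi (S.ten A * f))ᴴ = 1 := by
  have hi := vecMul_injective_iff.2 ((S.gen_iff f).1 hf)
  obtain ⟨u, hu, h1, s, h2⟩ := e4_spec S.c_equiv (isHermitian_mul_conjTranspose_self (S.Phi f))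
    fun a b h => by_contra fun e => h (mul_apply.trans <| Finset.sum_eq_zero fun x _ => by
      by_cases e' : ∃ i, S.slot i = a ∧ S.tau i = x.1
      · obtain ⟨i, rfl, h2⟩ := e'
        rw [conjTranspose_apply, S.phi_off f b x fun j h3 h4 =>
          e (by rw [← h3, S.c_eq (h2.trans h4.symm)]), star_zero, mul_zero]
      · rw [S.phi_off f a x fun i h3 h4 => e' ⟨i, h3, h4⟩, zero_mul])
  have hb : S.Blk u := fun a b e => by_contra fun e' => e (h1 a b e')
  have u1 : uᴴ * u = 1 := mem_unitaryGroup_iff'.1 hu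
  have u2 : u * uᴴ = 1 := mem_unitaryGroup_iff.1 hu
  have h3 : uᴴ * S.Phi f * (uᴴ * S.Phi f)ᴴ = diagonal fun i => (s i : ℂ) := by
    rw [conjTranspose_mul, conjTranspose_conjTranspose, Matrix.mul_assoc,
      ← Matrix.mul_assoc (S.Phi f), h2, Matrix.mul_assoc _ uᴴ, u1, Matrix.mul_one,
      ← Matrix.mul_assoc, u1, Matrix.one_mul]
  have h4 : (diagonal fun i => (s i : ℂ)).PosDef := h3 ▸ PosDef.mul_conjTranspose_self _
    fun v w e => by
      have := congrArg (· ᵥ* u) (hi (a₁ := v ᵥ* uᴴ) (a₂ := w ᵥ* uᴴ) (by simpa using e))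
      simpa [u1] using this
  have h5 : ∀ i, 0 < s i := fun i => by simpa using h4.diag_pos (i := i)
  have hB := S.blk_mul (S.blk_diagonal fun i => ((Real.sqrt (s i))⁻¹ : ℝ)) (S.blk_star hb)
  have h6 : ∀ i, (Real.sqrt (s i) : ℂ) ≠ 0 := fun i => by
    exact_mod_cast (Real.sqrt_pos.2 (h5 i)).ne'
  refine ⟨_, hB, isUnit_det_of_right_inverse
    (B := u * diagonal fun i => (Real.sqrt (s i) : ℂ)) ?_, ?_⟩
  · rw [Matrix.mul_assoc, ← Matrix.mul_assoc uᴴ, u1, Matrix.one_mul, diagonal_mul_diagonal,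
      ← diagonal_one]
    simp [h6]
  · rw [S.phi_ten hB, Matrix.mul_assoc _ uᴴ, conjTranspose_mul, Matrix.mul_assoc,
      ← Matrix.mul_assoc (uᴴ * _), h3, diagonal_conjTranspose, diagonal_mul_diagonal,
      diagonal_mul_diagonal, ← diagonal_one]
    congr 1
    funext i
    have : (s i : ℂ) = Real.sqrt (s i) * Real.sqrt (s i) := by
      exact_mod_cast (Real.mul_self_sqrt (h5 i).le).symm
    have := h6 i
    simp only [Pi.star_apply, Complex.star_def, Complex.conj_ofReal, Complex.ofReal_inv, map_inv₀]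
    field_simp
    grind

end Pol

end Dat

end Pool.Agent.CS
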