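import Pool.Agent.P.MP_d34769_ag.YE7
import Pool.Agent.P.MP_d34769_ag.HDef
import Pool.Agent.P.MP_d34769_ag.MainA

/-! The bridge to coherent systems. -/

open Matrix Classical

noncomputable section
namespace Pool.Agent.CS

open Pool.Agent.P.MP_d34769_ag

/-- the index set -/
abbrev Ix (n d k : ℕ) : Type := Σ v, Fin (![d, n + d, k] v)

lemma exists_rat (n d k : ℕ) (α : ℝ) : ∃ q : ℚ, ∀ e ≤ ![d, n + d, k],
    SignType.sign (wgt n d k q e) = SignType.sign (wgt n d k α e) := by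
  by_cases hα : Irrational α
  · have : ∀ᶠ β in nhds α, ∀ e ∈ Finset.Iic ![d, n + d, k],
        SignType.sign (wgt n d k β e) = SignType.sign (wgt n d k α e) := by
      rw [Filter.eventually_all_finset]
      intro e _
      have hc : Continuous fun β => wgt n d k β e := by
        unfold wgt
        fun_prop
      rcases lt_trichotomy (wgt n d k α e) 0 with h | h | h
      · exact (hc.continuousAt.eventually (gt_mem_nhds h)).mono fun _ h' => by
          rw [sign_neg h, sign_neg h']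
      · refine Filter.Eventually.of_forall fun β => congrArg _ ?_
        have h1 : ((n * e 2 - k * (e 1 - e 0) : ℤ) : ℝ) * α = ((d * (e 1 - e 0) - n * e 0 : ℤ) : ℝ) := by
          unfold wgt at h
          push_cast
          linarith
        have h2 : (n * e 2 - k * (e 1 - e 0) : ℤ) = 0 := by
          by_contra hb
          exact (hα.intCast_mul hb).ne_int _ h1
        have h3 : ((n * e 2 - k * (e 1 - e 0) : ℤ) : ℝ) = 0 := by rw [h2]; simp
        push_cast at h3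
        unfold wgt
        linear_combination (β - α) * h3
      · exact (hc.continuousAt.eventually (lt_mem_nhds h)).mono fun _ h' => by
          rw [sign_pos h, sign_pos h']
    obtain ⟨_, h1, q, rfl⟩ := mem_closure_iff_nhds.1 (Rat.denseRange_cast (𝕜 := ℝ) α) _ this
    exact ⟨q, fun e he => h1 e (Finset.mem_Iic.2 he)⟩
  · obtain ⟨q, rfl⟩ := not_not.1 hα
    exact ⟨q, fun _ _ => rfl⟩

/-- INT -/
theorem exists_th (n d k : ℕ) (α : ℝ) : ∃ th : Fin 3 → ℤ, ∀ e ≤ ![d, n + d, k],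
    (∑ v, th v * e v < 0 ↔ wgt n d k α e < 0) ∧ (∑ v, th v * e v = 0 ↔ wgt n d k α e = 0) ∧
      (0 < ∑ v, th v * e v ↔ 0 < wgt n d k α e) := by
  obtain ⟨q, hq⟩ := exists_rat n d k α
  refine ⟨![q.den * (n + d) + q.num * k, -(q.den * d + q.num * k), q.num * n], fun e he => ?_⟩
  generalize hz : ∑ v, (![q.den * (n + d) + q.num * k, -(q.den * d + q.num * k), q.num * n] :
    Fin 3 → ℤ) v * e v = z
  have h0 : (0 : ℝ) < q.den := by exact_mod_cast q.den_pos
  have h1 : (z : ℝ) = q.den * wgt n d k q e := by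
    have : (q.num : ℝ) = q * q.den := by exact_mod_cast (Rat.mul_den_eq_num q).symm
    rw [← hz, Fin.sum_univ_three]
    unfold wgt
    simp only [cons_val_zero, cons_val_one, cons_val]
    push_cast
    rw [this]
    ring
  have h2 : SignType.sign (z : ℝ) = SignType.sign (wgt n d k α e) := by
    rw [h1, sign_mul, sign_pos h0, one_mul, hq e he]
  refine ⟨?_, ?_, ?_⟩
  · rw [← sign_eq_neg_one_iff (a := wgt n d k α e), ← h2, sign_eq_neg_one_iff, Int.cast_lt_zero]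
  · rw [← sign_eq_zero_iff (a := wgt n d k α e), ← h2, sign_eq_zero_iff, Int.cast_eq_zero]
  · rw [← sign_eq_one_iff (a := wgt n d k α e), ← h2, sign_eq_one_iff, Int.cast_pos]

variable {n d k : ℕ} {α : ℝ}

lemma sum_dvec {I : Type} [Fintype I] [DecidableEq I] (col : I → Fin 3) (th : Fin 3 → ℤ)
    (F : Finset I) : ∑ v, th v * dvec col F v = ∑ i ∈ F, th (col i) := by
  rw [← Finset.sum_fiberwise F col]
  refine Finset.sum_congr rfl fun v _ => ?_
  rw [Finset.sum_congr rfl fun i hi => congrArg th (Finset.mem_filter.1 hi).2, Finset.sum_const,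
    dvec, nsmul_eq_mul, mul_comm]

lemma dvec_univ : dvec Sigma.fst (Finset.univ : Finset (Ix n d k)) = ![d, n + d, k] := by
  funext v
  have : (Finset.univ.filter fun i : Ix n d k => i.1 = v) =
      Finset.univ.map (Function.Embedding.sigmaMk v) := by
    ext ⟨u, i⟩
    simp only [Finset.mem_filter, Finset.mem_univ, true_and, Finset.mem_map]
    exact ⟨fun h => by subst h; exact ⟨i, rfl⟩, fun ⟨j, h⟩ => (congrArg Sigma.fst h).symm⟩
  rw [dvec, this, Finset.card_map, Finset.card_univ, Fintype.card_fin]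

lemma dvec_le (F : Finset (Ix n d k)) : dvec Sigma.fst F ≤ ![d, n + d, k] := fun _ =>
  (Finset.card_le_card (Finset.filter_subset_filter _ F.subset_univ)).trans
    (congrFun dvec_univ _).le

lemma wgt_all : wgt n d k α ![d, n + d, k] = 0 := by
  unfold wgt
  simp only [cons_val_zero, cons_val_one, cons_val]
  push_cast
  ring

/-- the representation with the entries of a triple -/
def frR (ρ : Rp (Ix n d k)) : Rep ℂ n d k where
  x := of fun i j => ρ 0 ⟨1, i⟩ ⟨0, j⟩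
  y := of fun i j => ρ 1 ⟨1, i⟩ ⟨0, j⟩
  z := of fun i j => ρ 2 ⟨1, i⟩ ⟨2, j⟩

/-- the position of an entry -/
def pos (p : Fin (n + d) × (Fin d ⊕ Fin d ⊕ Fin k)) : Fin 3 × Ix n d k × Ix n d k :=
  Sum.elim (fun j => (0, ⟨1, p.1⟩, ⟨0, j⟩))
    (Sum.elim (fun j => (1, ⟨1, p.1⟩, ⟨0, j⟩)) fun j => (2, ⟨1, p.1⟩, ⟨2, j⟩)) p.2

lemma ent_frR (ρ : Rp (Ix n d k)) (p : Fin (n + d) × (Fin d ⊕ Fin d ⊕ Fin k)) :
    ent (frR ρ) p = ρ (pos p).1 (pos p).2.1 (pos p).2.2 := by
  obtain ⟨i, j | j | j⟩ := p <;> rfl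

/-- the datum `D` describes `α`-stability of type `(n, d, k)` -/
structure Fits (n d k : ℕ) (α : ℝ) (D : Dat (Ix n d k)) : Prop where
  col : D.col = Sigma.fst
  cp : ∀ i j, D.cp i j
  neg : ∀ e ≤ ![d, n + d, k], ∑ v, D.th v * e v < 0 ↔ wgt n d k α e < 0

variable {D : Dat (Ix n d k)}

/-- the indices of one colour -/
abbrev mkx (n d k : ℕ) (v : Fin 3) (i : Fin (![d, n + d, k] v)) : Ix n d k := ⟨v, i⟩

lemma mkx_inj (v : Fin 3) : Function.Injective (mkx n d k v) :=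
  sigma_mk_injective (β := fun v => Fin (![d, n + d, k] v))

/-- the nonzero block of an arrow -/
def bk (ρ : Rp (Ix n d k)) (a : Fin 3) :
    Matrix (Fin (![d, n + d, k] 1)) (Fin (![d, n + d, k] (src a))) ℂ :=
  (ρ a).submatrix (mkx n d k 1) (mkx n d k (src a))

/-- extension of a block by zero -/
def ex (n d k : ℕ) (u v : Fin 3) (x : Matrix (Fin (![d, n + d, k] u)) (Fin (![d, n + d, k] v)) ℂ) :
    Matrix (Ix n d k) (Ix n d k) ℂ := inc (mkx n d k u) * x * (inc (mkx n d k v))ᵀ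

/-- the triple of a representation -/
def toR (x y : Matrix (Fin (n + d)) (Fin d) ℂ) (z : Matrix (Fin (n + d)) (Fin k) ℂ) :
    Rp (Ix n d k) := ![ex n d k 1 0 x, ex n d k 1 0 y, ex n d k 1 2 z]

lemma range_mk (v : Fin 3) : Set.range (mkx n d k v) = {i : Ix n d k | i.1 = v} := by
  ext ⟨u, i⟩
  exact ⟨fun ⟨j, h⟩ => (congrArg Sigma.fst h).symm, fun h => by
    obtain rfl : u = v := h
    exact ⟨i, rfl⟩⟩

lemma sum_ix {f : Ix n d k → ℂ} (u : Fin 3) (h : ∀ j, j.1 ≠ u → f j = 0) :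
    ∑ j, f j = ∑ j, f ⟨u, j⟩ := by
  rw [Fintype.sum_sigma, Finset.sum_eq_single u (fun v _ hv =>
    Finset.sum_eq_zero fun j _ => h _ hv) (by simp)]

lemma inc_mul {I J J' : Type} [Fintype I] [DecidableEq I] [Fintype J] [Fintype J'] (e : J → I)
    (e' : J' → I) (x : Matrix J J' ℂ) (i j : I) : (inc e * x * (inc e')ᵀ) i j =
      ∑ b, ∑ a, if i = e a ∧ j = e' b then x a b else 0 := by
  simp only [mul_apply, transpose_apply, inc, Finset.sum_mul]
  refine Finset.sum_congr rfl fun b _ => Finset.sum_congr rfl fun a _ => ?_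
  by_cases h : i = e a <;> by_cases h' : j = e' b <;> simp [h, h']

lemma inc_mul_in {u v : Fin 3} (x : Matrix (Fin (![d, n + d, k] u)) (Fin (![d, n + d, k] v)) ℂ)
    (i j) : ex n d k u v x ⟨u, i⟩ ⟨v, j⟩ = x i j := by
  rw [ex, inc_mul]
  simp [ite_and]

lemma inc_mul_out {u v : Fin 3} (x : Matrix (Fin (![d, n + d, k] u)) (Fin (![d, n + d, k] v)) ℂ)
    {i j : Ix n d k} (h : ¬ (i.1 = u ∧ j.1 = v)) :
    ex n d k u v x i j = 0 := by
  rw [ex, inc_mul]
  refine Finset.sum_eq_zero fun b _ => Finset.sum_eq_zero fun a _ => if_neg fun e => h ?_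
  rw [e.1, e.2]
  exact ⟨rfl, rfl⟩

lemma continuous_toR {X : Type} [TopologicalSpace X] {x y : X → Matrix (Fin (n + d)) (Fin d) ℂ}
    {z : X → Matrix (Fin (n + d)) (Fin k) ℂ} (hx : Continuous x) (hy : Continuous y)
    (hz : Continuous z) : Continuous fun u => toR (x u) (y u) (z u) := by
  refine continuous_pi fun a => ?_
  fin_cases a
  exacts [(continuous_const.matrix_mul hx).matrix_mul continuous_const,
    (continuous_const.matrix_mul hy).matrix_mul continuous_const,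
    (continuous_const.matrix_mul hz).matrix_mul continuous_const]

lemma frR_toR (r : Rep ℂ n d k) : frR (toR r.x r.y r.z) = r := by
  obtain ⟨x, y, z⟩ := r
  unfold frR
  congr 1 <;> ext i j
  · exact inc_mul_in (u := 1) (v := 0) x i j
  · exact inc_mul_in (u := 1) (v := 0) y i j
  · exact inc_mul_in (u := 1) (v := 2) z i j

lemma Fits.mem_R (h : Fits n d k α D) {ρ : Rp (Ix n d k)} :
    ρ ∈ D.base.R ↔ ∀ a i j, ¬ (i.1 = 1 ∧ j.1 = src a) → ρ a i j = 0 := by
  refine forall₃_congr fun a i j => imp_congr_left (not_congr ?_)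
  change D.col i = 1 ∧ D.col j = src a ∧ D.cp i j ↔ _
  simp [h.col, h.cp]

lemma Fits.cc (h : Fits n d k α D) {i j : Ix n d k} : D.cc i j ↔ i.1 = j.1 := by
  simp [Dat.cc, h.col, h.cp]

lemma Fits.toR_mem (h : Fits n d k α D) (x y z) : toR x y z ∈ D.base.R := by
  rw [h.mem_R]
  intro a i j e
  fin_cases a
  · exact inc_mul_out (u := 1) (v := 0) x e
  · exact inc_mul_out (u := 1) (v := 0) y e
  · exact inc_mul_out (u := 1) (v := 2) z e

lemma Fits.ext (h : Fits n d k α D) {ρ σ : Rp (Ix n d k)} (hρ : ρ ∈ D.base.R)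
    (hσ : σ ∈ D.base.R) (e : ∀ a, bk ρ a = bk σ a) : ρ = σ := by
  funext a
  ext ⟨u, i⟩ ⟨v, j⟩
  by_cases c : u = 1 ∧ v = src a
  · obtain ⟨rfl, rfl⟩ := c
    exact congrFun (congrFun (e a) i) j
  · rw [h.mem_R.1 hρ a _ _ c, h.mem_R.1 hσ a _ _ c]

lemma Fits.mulVec (h : Fits n d k α D) {ρ : Rp (Ix n d k)} (hρ : ρ ∈ D.base.R) (a : Fin 3)
    (x : Ix n d k → ℂ) : ρ a *ᵥ x = inc (mkx n d k 1) *ᵥ (bk ρ a *ᵥ fun j => x ⟨src a, j⟩) := by
  refine (ye2_inc_eq (mkx_inj _) (fun i => ?_) fun i hi => ?_).symm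
  · exact sum_ix (f := fun j => ρ a ⟨1, i⟩ j * x j) (src a) fun j hj => by
      rw [h.mem_R.1 hρ a _ _ fun e => hj e.2, zero_mul]
  · rw [range_mk] at hi
    change ∑ j, ρ a i j * x j = 0
    refine Finset.sum_eq_zero fun j _ => ?_
    rw [h.mem_R.1 hρ a _ _ fun e => hi e.1, zero_mul]

lemma Fits.wt (h : Fits n d k α D) (U : Submodule ℂ (Ix n d k → ℂ)) : D.wt D.th U =
    ∑ v, D.th v * Module.finrank ℂ (U.comap (inc (mkx n d k v)).mulVecLin) := by
  refine Finset.sum_congr rfl fun v _ => ?_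
  rw [h.col, ← range_mk, ← ye2_map_top (mkx_inj v), ← LinearMap.range_eq_map, inf_comm,
    ← Submodule.map_comap_eq, ← (Submodule.equivMapOfInjective _
      (ye2_inc_inj (mkx_inj v)) _).finrank_eq]

lemma Fits.stb_iff' (h : Fits n d k α D) (hn : 0 < n) {ρ : Rp (Ix n d k)} (hρ : ρ ∈ D.base.R) :
    D.Stb ρ ↔ ∀ V : ∀ v, Submodule ℂ (Fin (![d, n + d, k] v) → ℂ),
      (∀ a, ∀ u ∈ V (src a), bk ρ a *ᵥ u ∈ V 1) → ¬ (∀ v, V v = ⊥) → ¬ (∀ v, V v = ⊤) →
        ∑ v, D.th v * Module.finrank ℂ (V v) < 0 := by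
  have hin : ∀ (v) (u : Fin (![d, n + d, k] v) → ℂ),
      (fun j => (inc (mkx n d k v) *ᵥ u : Ix n d k → ℂ) ⟨v, j⟩) = u := fun v u =>
    funext (ye2_inc_in (mkx_inj v) u)
  have hout : ∀ (v w) (u : Fin (![d, n + d, k] v) → ℂ), w ≠ v →
      (fun j => (inc (mkx n d k v) *ᵥ u : Ix n d k → ℂ) ⟨w, j⟩) = 0 := fun v w u e =>
    funext fun j => ye2_inc_out u (by rw [range_mk]; exact e)
  constructor
  · intro hs V h1 h2 h3
    let U : Submodule ℂ (Ix n d k → ℂ) := ⨅ v, (V v).comap (LinearMap.funLeft ℂ ℂ (mkx n d k v))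
    have hU : ∀ x, x ∈ U ↔ ∀ v, (fun j => x ⟨v, j⟩) ∈ V v := fun x => Submodule.mem_iInf _
    have hi : ∀ v u, inc (mkx n d k v) *ᵥ u ∈ U ↔ u ∈ V v := fun v u => by
      rw [hU]
      refine ⟨fun e => hin v u ▸ e v, fun e w => ?_⟩
      by_cases c : w = v
      · subst c
        rwa [hin]
      · rw [hout v w u c]
        exact zero_mem _
    have hV : ∀ v, U.comap (inc (mkx n d k v)).mulVecLin = V v := fun v => Submodule.ext (hi v)
    have := hs.2 U ⟨fun i x hx => (hU _).2 fun v => ?_, fun a x hx => ?_⟩ (fun e => h2 fun v => ?_)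
      fun e => h3 fun v => ?_
    · rwa [h.wt, Finset.sum_congr rfl fun v _ => by rw [hV v]] at this
    · by_cases c : i.1 = v
      · simpa [h.cc, c] using (hU x).1 hx v
      · simp only [h.cc, c, if_false]
        exact (V v).zero_mem
    · rw [h.mulVec hρ, hi]
      exact h1 a _ ((hU x).1 hx _)
    · rw [← hV, e, Submodule.comap_bot, LinearMap.ker_eq_bot.2 (ye2_inc_inj (mkx_inj v))]
    · rw [← hV, e, Submodule.comap_top]
  · intro hq
    refine ⟨⟨⟨1, (⟨0, by omega⟩ : Fin (n + d))⟩⟩, fun U hU h2 h3 => ?_⟩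
    have hp : ∀ v (x : Ix n d k → ℂ), inc (mkx n d k v) *ᵥ (fun j => x ⟨v, j⟩) =
        pr {i | D.col i = v} *ᵥ x := fun v x =>
      ye2_inc_eq (mkx_inj _) (fun j => by simp [pr_mulVec, h.col]) fun i hi => by
        rw [range_mk] at hi
        rw [pr_mulVec, if_neg (by rwa [h.col])]
    rw [h.wt]
    refine hq _ (fun a u hu => ?_) (fun e => h2 ?_) fun e => h3 ?_
    · have := hU.st a _ hu
      rwa [h.mulVec hρ, mulVecLin_apply, hin] at this
    · refine (Submodule.eq_bot_iff _).2 fun x hx => funext fun ⟨v, j⟩ => ?_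
      have : (fun j => x ⟨v, j⟩) ∈ U.comap (inc (mkx n d k v)).mulVecLin := by
        rw [Submodule.mem_comap, mulVecLin_apply, hp]
        exact hU.cg v x hx
      rw [e v] at this
      exact congrFun this j
    · refine Submodule.eq_top_iff'.2 fun x => ?_
      have : x = ∑ v, pr {i | D.col i = v} *ᵥ x := by
        funext i
        simp only [Finset.sum_apply, pr_mulVec, Set.mem_ofPred_eq]
        exact ((Finset.sum_eq_single (D.col i) (fun v _ c => if_neg c.symm) (by simp)).trans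
          (if_pos rfl)).symm
      rw [this]
      refine Submodule.sum_mem _ fun v _ => ?_
      rw [← hp]
      exact (e v).ge trivial

lemma bk_mul {g : Matrix (Ix n d k) (Ix n d k) ℂ} (hg : ∀ i j, i.1 ≠ j.1 → g i j = 0)
    (ρ : Rp (Ix n d k)) (a : Fin 3) :
    bk (fun a => g * ρ a) a = g.submatrix (mkx n d k 1) (mkx n d k 1) * bk ρ a ∧
      bk (fun a => ρ a * g) a = bk ρ a * g.submatrix (mkx n d k (src a)) (mkx n d k (src a)) := by
  constructor <;> ext i j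
  · exact sum_ix (f := fun l => g ⟨1, i⟩ l * ρ a l ⟨src a, j⟩) 1 fun l hl => by
      rw [hg _ _ (Ne.symm hl), zero_mul]
  · exact sum_ix (f := fun l => ρ a ⟨1, i⟩ l * g l ⟨src a, j⟩) (src a) fun l hl => by
      rw [hg _ _ hl, mul_zero]

lemma Fits.frR_inj (h : Fits n d k α D) {ρ σ : Rp (Ix n d k)} (hρ : ρ ∈ D.base.R)
    (hσ : σ ∈ D.base.R) (e : frR ρ = frR σ) : ρ = σ :=
  h.ext hρ hσ fun a => by
    fin_cases a
    exacts [congrArg Rep.x e, congrArg Rep.y e, congrArg Rep.z e]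

lemma Fits.frR_surj (h : Fits n d k α D) (r : Rep ℂ n d k) : ∃ ρ ∈ D.base.R, frR ρ = r :=
  ⟨_, h.toR_mem _ _ _, frR_toR r⟩

theorem Fits.stb_iff (h : Fits n d k α D) (hn : 0 < n) {ρ : Rp (Ix n d k)} (hρ : ρ ∈ D.base.R) :
    D.Stb ρ ↔ QStable α (frR ρ) := by
  have key : ∀ V : ∀ v, Submodule ℂ (Fin (![d, n + d, k] v) → ℂ),
      ∑ v, D.th v * Module.finrank ℂ (V v) < 0 ↔
      (n : ℝ) * (Module.finrank ℂ (V 0) + α * Module.finrank ℂ (V 2)) <
        ((d : ℝ) + α * k) * ((Module.finrank ℂ (V 1) : ℝ) - Module.finrank ℂ (V 0)) := fun V =>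
    (h.neg (fun v => Module.finrank ℂ (V v)) fun v => by
      simpa using (V v).finrank_le).trans sub_neg
  rw [h.stb_iff' hn hρ]
  constructor
  · intro hs U₁ U₀ W h1 h2 h3 h4
    refine (key fun v => match v with | 0 => U₁ | 1 => U₀ | 2 => W).1 (hs _ (fun a => ?_)
      (fun e => h3 ⟨e 0, e 1, e 2⟩) fun e => h4 ⟨e 0, e 1, e 2⟩)
    fin_cases a
    exacts [fun u hu => (h1 u hu).1, fun u hu => (h1 u hu).2, h2]
  · intro hq V h1 h2 h3
    refine (key V).2 (hq (V 0) (V 1) (V 2) (fun u hu => ⟨h1 0 u hu, h1 1 u hu⟩) (h1 2)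
      (fun e => h2 fun v => ?_) fun e => h3 fun v => ?_) <;> fin_cases v
    exacts [e.1, e.2.1, e.2.2, e.1, e.2.1, e.2.2]

theorem Fits.iso_iff (h : Fits n d k α D) {ρ σ : Rp (Ix n d k)} (hρ : ρ ∈ D.base.R)
    (hσ : σ ∈ D.base.R) : D.Iso ρ σ ↔ QIso (frR ρ) (frR σ) := by
  have hL : ∀ g, g ∈ D.base.Lie ↔ ∀ i j : Ix n d k, i.1 ≠ j.1 → g i j = 0 := fun g => by
    simp only [D.mem_base_Lie, h.cc]
  constructor
  · rintro ⟨g, hg, e⟩
    rw [actR_eq_iff hg.2] at e
    have hu : ∀ v, IsUnit (g.submatrix (mkx n d k v) (mkx n d k v)) := fun v => by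
      refine IsUnit.of_mul_eq_one (g⁻¹.submatrix (mkx n d k v) (mkx n d k v)) ?_
      ext i j
      refine ((sum_ix (f := fun l => g ⟨v, i⟩ l * g⁻¹ l ⟨v, j⟩) v fun l hl => by
        rw [(hL g).1 hg.1 _ _ (Ne.symm hl), zero_mul]).symm.trans
        (congrFun (congrFun (mul_nonsing_inv g hg.2) ⟨v, i⟩) ⟨v, j⟩)).trans ?_
      simp [one_apply]
    have he : ∀ a, g.submatrix (mkx n d k 1) (mkx n d k 1) * bk ρ a =
        bk σ a * g.submatrix (mkx n d k (src a)) (mkx n d k (src a)) := fun a => by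
      rw [← (bk_mul ((hL g).1 hg.1) ρ a).1, ← (bk_mul ((hL g).1 hg.1) σ a).2, funext e]
    exact ⟨_, _, _, hu 0, hu 1, hu 2, he 0, he 1, he 2⟩
  · rintro ⟨P₁, P₀, Q, h1, h0, hQ, e1, e2, e3⟩
    let P : ∀ v, Matrix (Fin (![d, n + d, k] v)) (Fin (![d, n + d, k] v)) ℂ :=
      fun v => match v with | 0 => P₁ | 1 => P₀ | 2 => Q
    have hP : ∀ v, IsUnit (P v) := fun v => by
      fin_cases v
      exacts [h1, h0, hQ]
    have hg : ∀ i j : Ix n d k, i.1 ≠ j.1 → blockDiagonal' P i j = 0 := fun ⟨u, i⟩ ⟨v, j⟩ c =>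
      blockDiagonal'_apply_ne P i j c
    have hs : ∀ v, (blockDiagonal' P).submatrix (mkx n d k v) (mkx n d k v) = P v := fun v => by
      ext i j
      exact blockDiagonal'_apply_eq P v i j
    have hu : IsUnit (blockDiagonal' P).det := by
      refine isUnit_det_of_right_inverse (B := blockDiagonal' fun v => (P v)⁻¹) ?_
      rw [← blockDiagonal'_mul, ← blockDiagonal'_one]
      exact congrArg _ (funext fun v => mul_nonsing_inv _ ((isUnit_iff_isUnit_det _).1 (hP v)))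
    refine ⟨_, ⟨(hL _).2 hg, hu⟩, (actR_eq_iff hu).2 (congrFun (h.ext
      (ρ := fun a => blockDiagonal' P * ρ a) (σ := fun a => σ a * blockDiagonal' P) ?_ ?_
      fun a => ?_))⟩
    · simpa using Dat.mul_mem_R ((hL _).2 hg) D.base.one_mem_Lie hρ
    · simpa using Dat.mul_mem_R D.base.one_mem_Lie ((hL _).2 hg) hσ
    · rw [(bk_mul hg ρ a).1, (bk_mul hg σ a).2, hs, hs]
      fin_cases a
      exacts [e1, e2, e3]

/-- the moduli space is the orbit space of the stable triples -/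
theorem Fits.exists_pm (h : Fits n d k α D) (hn : 0 < n) (hk : 0 < k) (hα : 0 < α) :
    ∃ pm : {ρ // ρ ∈ D.base.R ∧ D.Stb ρ} → GMod α n d k,
      @Continuous _ _ _ (modTop α n d k) pm ∧ @IsOpenMap _ _ _ (modTop α n d k) pm ∧
      Function.Surjective pm ∧ (∀ ρ σ, pm ρ = pm σ ↔ D.Iso ρ.1 σ.1) ∧
      ∀ ρ S, pm ρ = Quot.mk _ S ↔ Presents S.1 (frR ρ.1) := by
  obtain ⟨Φ, hΦ⟩ := (mainA ℂ n d k hn hk α hα).2
  let pm : {ρ // ρ ∈ D.base.R ∧ D.Stb ρ} → GMod α n d k := fun ρ =>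
    Φ.symm (Quot.mk _ ⟨frR ρ.1, (h.stb_iff hn ρ.2.1).1 ρ.2.2⟩)
  have h5 : ∀ ρ S, pm ρ = Quot.mk _ S ↔ Presents S.1 (frR ρ.1) := fun ρ S =>
    (Φ.symm_apply_eq.trans eq_comm).trans (hΦ S _)
  have hE : Equivalence (fun ρ ρ' : {ρ : Rep ℂ n d k // QStable α ρ} => QIso ρ.1 ρ'.1) :=
    ⟨fun ρ => qiso_refl ρ.1, QIso.symm, QIso.trans⟩
  have h4 : ∀ ρ σ, pm ρ = pm σ ↔ D.Iso ρ.1 σ.1 := fun ρ σ => by
    rw [h.iso_iff ρ.2.1 σ.2.1]
    exact Φ.symm.injective.eq_iff.trans (Quot.eq.trans hE.eqvGen_iff)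
  let T := {u : {S : CohSys ℂ n d k // Stable α S} × Rep ℂ n d k // Presents u.1.1 u.2}
  let τ : TopologicalSpace T :=
    TopologicalSpace.induced (fun u => (u.1.2.x, u.1.2.y, u.1.2.z)) inferInstance
  let φ : T → {ρ // ρ ∈ D.base.R ∧ D.Stb ρ} := fun u =>
    ⟨toR u.1.2.x u.1.2.y u.1.2.z, h.toR_mem _ _ _, (h.stb_iff hn (h.toR_mem _ _ _)).2 (by
      obtain ⟨ψ, e⟩ := (presents_iff _ _).1 u.2
      rw [frR_toR]
      exact (e.stable_iff hα hn hk).1 u.1.1.2)⟩
  have hφ : ∀ u, pm (φ u) = Quot.mk _ u.1.1 := fun u => (h5 _ _).2 (by rw [frR_toR]; exact u.2)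
  have cφ : Continuous φ := by
    have c0 : Continuous fun u : T => (u.1.2.x, u.1.2.y, u.1.2.z) := continuous_induced_dom
    have c1 : Continuous fun u : T => u.1.2.x := c0.fst
    have c2 : Continuous fun u : T => u.1.2.y := c0.snd.fst
    have c3 : Continuous fun u : T => u.1.2.z := c0.snd.snd
    exact (continuous_toR c1 c2 c3).subtype_mk _
  choose Sy hS using fun ρ => Quot.exists_rep (pm ρ)
  refine ⟨pm, ?_, fun O hO => ?_, fun x => ?_, h4, h5⟩
  · let ψ : {ρ // ρ ∈ D.base.R ∧ D.Stb ρ} → T := fun ρ =>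
      ⟨(Sy ρ, frR ρ.1), (h5 _ _).1 (hS ρ).symm⟩
    have cψ : Continuous ψ := continuous_induced_rng.2 (by
      have c : ∀ a i j, Continuous fun ρ : {ρ // ρ ∈ D.base.R ∧ D.Stb ρ} => ρ.1 a i j :=
        fun a i j => (continuous_apply_apply i j).comp
          ((continuous_apply a).comp continuous_subtype_val)
      exact (continuous_matrix fun i j => c _ _ _).prodMk
        ((continuous_matrix fun i j => c _ _ _).prodMk (continuous_matrix fun i j => c _ _ _)))
    rw [← funext hS]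
    exact @Continuous.comp _ _ _ _ τ (modTop α n d k) ψ (fun u => Quot.mk _ u.1.1)
      continuous_coinduced_rng cψ
  · refine isOpen_coinduced.2 ?_
    have : (fun u : T => (Quot.mk _ u.1.1 : GMod α n d k)) ⁻¹' (pm '' O) =
        ⋃ g : D.base.P, (fun u => (⟨actR g (φ u).1, Dat.actR_mem g.2 (φ u).2.1,
          (φ u).2.2.act g.2⟩ : {ρ // ρ ∈ D.base.R ∧ D.Stb ρ})) ⁻¹' O := by
      ext u
      rw [Set.mem_iUnion]
      constructor
      · rintro ⟨ρ, h1, h2⟩
        obtain ⟨g, hg, e⟩ := ((h4 _ _).1 (h2.trans (hφ u).symm)).symm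
        exact ⟨⟨g, hg⟩, by simpa only [Set.mem_preimage, e] using h1⟩
      · exact fun ⟨g, e⟩ => ⟨_, e, ((h4 _ _).2 (Dat.Iso.symm ⟨g, g.2, rfl⟩)).trans (hφ u)⟩
    exact this.symm ▸ isOpen_iUnion fun g => hO.preimage
      (((continuous_actR _).comp (continuous_subtype_val.comp cφ)).subtype_mk _)
  · obtain ⟨r, e⟩ := Quot.exists_rep (Φ x)
    obtain ⟨S, rfl⟩ := Quot.exists_rep x
    exact ⟨_, hφ ⟨(S, r.1), (hΦ S r).1 e.symm⟩⟩

end Pool.Agent.CS
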