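import Pool.Agent.P.MP_d34769_ag.YE0

/-! Coordinates, polynomial functions, the character, semi-invariants. -/

open Matrix MvPolynomial

set_option linter.unusedSectionVars false

noncomputable section
namespace Pool.Agent.CS

variable {I : Type} [Fintype I] [DecidableEq I]

/-- the coordinates of framed triples -/
abbrev Co (I : Type) (m : ℕ) := (Fin 3 × I × I) ⊕ (I × Fin m)

/-- the coordinate vector -/
def co {m : ℕ} (p : Pt I m) : Co I m → ℂ :=
  Sum.elim (fun x => p.1 x.1 x.2.1 x.2.2) fun x => p.2 x.1 x.2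

/-- the coordinate vector as a linear map -/
def coL (I : Type) (m : ℕ) : Pt I m ≃ₗ[ℂ] (Co I m → ℂ) where
  toFun p := Sum.elim (fun x => p.1 x.1 x.2.1 x.2.2) fun x => p.2 x.1 x.2
  invFun v := (fun a => of fun i j => v (.inl (a, i, j)), of fun i r => v (.inr (i, r)))
  map_add' p q := by funext x; rcases x with x | x <;> rfl
  map_smul' c p := by funext x; rcases x with x | x <;> rfl
  left_inv p := rfl
  right_inv v := by funext x; rcases x with x | x <;> rfl

omit [Fintype I] [DecidableEq I] in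
theorem coL_apply {m : ℕ} (p : Pt I m) : coL I m p = co p := rfl

omit [Fintype I] [DecidableEq I] in
theorem continuous_co {m : ℕ} : Continuous (co : Pt I m → Co I m → ℂ) := by
  refine continuous_pi fun x => ?_
  rcases x with x | x
  · exact ((continuous_apply x.1).comp continuous_fst).matrix_elem x.2.1 x.2.2
  · exact continuous_snd.matrix_elem x.1 x.2

/-- `F` is a polynomial in the coordinates `c` -/
def IsPoly {V σ : Type} (c : V → σ → ℂ) (F : V → ℂ) : Prop :=
  ∃ P : MvPolynomial σ ℂ, ∀ v, F v = eval (c v) P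

namespace IsPoly
variable {V σ : Type} {c : V → σ → ℂ} {F G : V → ℂ}

theorem const (a : ℂ) : IsPoly c fun _ => a := ⟨C a, fun _ => by simp⟩

theorem coord (x : σ) : IsPoly c fun v => c v x := ⟨X x, fun _ => by simp⟩

theorem ev (P : MvPolynomial σ ℂ) : IsPoly c fun v => eval (c v) P := ⟨P, fun _ => rfl⟩

theorem add (h : IsPoly c F) (h' : IsPoly c G) : IsPoly c fun v => F v + G v := by
  obtain ⟨P, hP⟩ := h
  obtain ⟨Q, hQ⟩ := h'
  exact ⟨P + Q, fun v => by simp [hP, hQ]⟩

theorem mul (h : IsPoly c F) (h' : IsPoly c G) : IsPoly c fun v => F v * G v := by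
  obtain ⟨P, hP⟩ := h
  obtain ⟨Q, hQ⟩ := h'
  exact ⟨P * Q, fun v => by simp [hP, hQ]⟩

theorem neg (h : IsPoly c F) : IsPoly c fun v => -F v := by
  obtain ⟨P, hP⟩ := h
  exact ⟨-P, fun v => by simp [hP]⟩

theorem sub (h : IsPoly c F) (h' : IsPoly c G) : IsPoly c fun v => F v - G v := by
  obtain ⟨P, hP⟩ := h
  obtain ⟨Q, hQ⟩ := h'
  exact ⟨P - Q, fun v => by simp [hP, hQ]⟩

theorem pow (h : IsPoly c F) (n : ℕ) : IsPoly c fun v => F v ^ n := by
  obtain ⟨P, hP⟩ := h
  exact ⟨P ^ n, fun v => by simp [hP]⟩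

theorem sum {κ : Type} (s : Finset κ) {F : κ → V → ℂ} (h : ∀ k ∈ s, IsPoly c (F k)) :
    IsPoly c fun v => ∑ k ∈ s, F k v := by
  choose! P hP using h
  exact ⟨∑ k ∈ s, P k, fun v => by
    rw [map_sum]; exact Finset.sum_congr rfl fun k hk => hP k hk v⟩

theorem prod {κ : Type} (s : Finset κ) {F : κ → V → ℂ} (h : ∀ k ∈ s, IsPoly c (F k)) :
    IsPoly c fun v => ∏ k ∈ s, F k v := by
  choose! P hP using h
  exact ⟨∏ k ∈ s, P k, fun v => by
    rw [map_prod]; exact Finset.prod_congr rfl fun k hk => hP k hk v⟩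

theorem ite (q : Prop) [Decidable q] (h : IsPoly c F) (h' : IsPoly c G) :
    IsPoly c fun v => if q then F v else G v := by
  split_ifs
  exacts [h, h']

theorem det {κ : Type} [Fintype κ] [DecidableEq κ] {A : V → Matrix κ κ ℂ}
    (h : ∀ i j, IsPoly c fun v => A v i j) : IsPoly c fun v => (A v).det := by
  choose P hP using h
  refine ⟨(of P).det, fun v => ?_⟩
  rw [RingHom.map_det]
  exact congrArg Matrix.det (Matrix.ext fun i j => hP i j v)

theorem mmul {κ μ ν : Type} [Fintype μ] {A : V → Matrix κ μ ℂ} {B : V → Matrix μ ν ℂ}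
    (h : ∀ i j, IsPoly c fun v => A v i j) (h' : ∀ i j, IsPoly c fun v => B v i j) (i : κ) (j : ν) :
    IsPoly c fun v => (A v * B v) i j :=
  sum Finset.univ fun k _ => (h i k).mul (h' k j)

theorem comp {W τ : Type} {c' : W → τ → ℂ} {F : W → ℂ} (h : IsPoly c' F) {g : V → W}
    (hg : ∀ t, IsPoly c fun v => c' (g v) t) : IsPoly c fun v => F (g v) := by
  obtain ⟨P, hP⟩ := h
  choose Q hQ using hg
  refine ⟨aeval Q P, fun v => ?_⟩
  beta_reduce
  rw [hP, show c' (g v) = fun t => eval (c v) (Q t) from funext fun t => hQ t v]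
  clear hP
  induction P using MvPolynomial.induction_on with
  | C a => simp
  | add p q hp hq => simp only [map_add]; rw [hp, hq]
  | mul_X p t hp => simp only [map_mul, eval_X, aeval_X]; rw [hp]

theorem continuous [TopologicalSpace V] (hc : Continuous c) (h : IsPoly c F) : Continuous F := by
  obtain ⟨P, hP⟩ := h
  rw [show F = fun v => eval (c v) P from funext hP]
  exact (MvPolynomial.continuous_eval P).comp hc

theorem rho {m : ℕ} (a : Fin 3) (i j : I) : IsPoly co fun p : Pt I m => p.1 a i j :=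
  coord (c := co) (.inl (a, i, j))

theorem fr {m : ℕ} (i : I) (r : Fin m) : IsPoly co fun p : Pt I m => p.2 i r :=
  coord (c := co) (.inr (i, r))

end IsPoly

/-- the square of the norm -/
def nsq {m : ℕ} (p : Pt I m) : ℝ := ∑ x, Complex.normSq (co p x)

/-- the columns of the big matrix -/
abbrev Cn (N : ℕ) (I : Type) (m : ℕ) := (Fin N × (I ⊕ (Fin 3 × I) ⊕ Fin m)) × I

namespace Dat
variable (D : Dat I)

/-- the perturbed weights -/
def eta (v : Fin 3) : ℤ := (Fintype.card I + 1) * D.th v - 1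

/-- the part of colour `v` -/
def cut (v : Fin 3) (g : Matrix I I ℂ) : Matrix I I ℂ :=
  of fun i j => if D.col i = v then g i j else (1 : Matrix I I ℂ) i j

/-- the character -/
def om (g : Matrix I I ℂ) : ℂ := ∏ v, (D.cut v g).det ^ D.eta v

/-- the Kempf-Ness set -/
def LL : Set (Pt I D.m) :=
  {p | p.1 ∈ D.base.R ∧ ∀ g ∈ D.base.P, nsq p ≤ nsq (act g p) + 2 * Real.log ‖D.om g‖}

/-- the infinitesimal action -/
def inf (p : Pt I D.m) : Matrix I I ℂ →ₗ[ℂ] Pt I D.m where
  toFun h := (fun a => h * p.1 a - p.1 a * h, h * p.2)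
  map_add' h k := by
    refine Prod.ext (funext fun a => ?_) (Matrix.add_mul _ _ _)
    simp only [Prod.fst_add, Pi.add_apply, Matrix.add_mul, Matrix.mul_add]; abel
  map_smul' c h := by
    refine Prod.ext (funext fun a => ?_) (Matrix.smul_mul _ _ _)
    simp [smul_sub]

/-- the ambient space of the stable points -/
def V : Submodule ℂ (Pt I D.m) := D.R.prod ⊤

/-- semi-invariants and covariants of one weight that generate at every stable point -/
structure Uni where
  N : ℕ
  A : ℕ
  sP : Fin N → MvPolynomial (Co I D.m) ℂ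
  lP : Fin N → Matrix I I (MvPolynomial (Co I D.m) ℂ)
  hA : 0 < A
  s_act : ∀ g ∈ D.P, ∀ p k, D.om g ^ A * eval (co (act g p)) (sP k) = eval (co p) (sP k)
  l_act : ∀ g ∈ D.P, ∀ p k,
    D.om g ^ A • (lP k).map (eval (co (act g p))) = g * (lP k).map (eval (co p))
  gen : ∀ p, D.St p → ∃ k, eval (co p) (sP k) ≠ 0 ∧ IsUnit ((lP k).map (eval (co p))).det

variable {R : Type} [CommRing R] {N : ℕ}

open Classical in
/-- the big matrix -/
def Phi (s : Fin N → R) (l : Fin N → Matrix I I R) (ρ : Fin 3 → Matrix I I R)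
    (f : Matrix I (Fin D.m) R) : Matrix I (Cn N I D.m) R :=
  of fun i c => if D.cc i c.2 then Sum.elim (l c.1.1 i) (Sum.elim (fun x => (ρ x.1 * l c.1.1) i x.2)
    fun r => s c.1.1 * f i r) c.1.2 else 0

/-- the indices of the projective embedding -/
abbrev Tn (N : ℕ) := Fin N × ∀ i, {j // D.gp i j} → Cn N I D.m

open Classical in
/-- the projective embedding -/
def ThR (s : Fin N → R) (l : Fin N → Matrix I I R) (ρ : Fin 3 → Matrix I I R)
    (f : Matrix I (Fin D.m) R) (x : D.Tn N) : R :=
  s x.1 * ∏ i, ((D.Phi s l ρ f).submatrix Subtype.val (x.2 i)).det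

end Dat

end Pool.Agent.CS
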