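import Pool.Agent.P.MP_d34769_ag.YF1b

/-! The character, properness of the action, the Kempf-Ness set. -/

open Matrix Filter Topology

set_option linter.unusedSectionVars false

noncomputable section
namespace Pool.Agent.CS

variable {I : Type} [Fintype I] [DecidableEq I]

theorem f1_growth {κ : Type} {l : Filter κ} [l.NeBot] {s u a : κ → ℝ} {δ a0 C H : ℝ}
    (hs : Tendsto s l atTop) (hu : Tendsto u l (𝓝 δ)) (ha : Tendsto a l (𝓝 a0)) (h0 : 0 < a0)
    (hb : ∀ᶠ n in l, Real.exp (s n * u n) ^ 2 * a n ≤ C + H * s n) : δ ≤ 0 := by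
  by_contra hd
  rw [not_le] at hd
  have h1 : Tendsto (fun n => s n * (s n * (u n ^ 2 * a n) + -H)) l atTop :=
    hs.atTop_mul_atTop₀ (tendsto_atTop_add_const_right _ _
      (hs.atTop_mul_pos (by positivity : 0 < δ ^ 2 * a0) ((hu.pow 2).mul ha)))
  obtain ⟨n, h2, h3, h4, h5, h6⟩ := ((h1.eventually_gt_atTop C).and (hb.and
    ((hs.eventually_ge_atTop 0).and ((hu.eventually (lt_mem_nhds hd)).and
      (ha.eventually (lt_mem_nhds h0)))))).exists
  have h7 : 0 ≤ s n * u n := mul_nonneg h4 h5.le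
  have h8 : s n * u n ≤ Real.exp (s n * u n) := by linarith [Real.add_one_le_exp (s n * u n)]
  have h9 := mul_le_mul_of_nonneg_right (pow_le_pow_left₀ h7 h8 2) h6.le
  nlinarith

theorem f1_compact_unitary : IsCompact (unitaryGroup I ℂ : Set (Matrix I I ℂ)) := by
  have h : IsCompact (Set.pi Set.univ fun _ : I => Set.pi Set.univ fun _ : I =>
      Metric.closedBall (0 : ℂ) 1) :=
    isCompact_univ_pi fun _ => isCompact_univ_pi fun _ => isCompact_closedBall _ _
  refine IsCompact.of_isClosed_subset (s := (Set.pi Set.univ fun _ : I => Set.pi Set.univ fun _ : I =>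
      Metric.closedBall (0 : ℂ) 1 : Set (Matrix I I ℂ))) h ?_ fun k hk i _ j _ => ?_
  · have : (unitaryGroup I ℂ : Set (Matrix I I ℂ)) = {k | k * kᴴ = 1} :=
      Set.ext fun k => mem_unitaryGroup_iff
    rw [this]
    exact isClosed_eq (continuous_id.matrix_mul continuous_id.matrix_conjTranspose) continuous_const
  · exact mem_closedBall_zero_iff.2 (entry_norm_bound_of_unitary hk i j)

theorem f1_tendsto_mul {κ J : Type} {l : Filter κ} {x : κ → Matrix I I ℂ} {x0 : Matrix I I ℂ}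
    {y : κ → Matrix I J ℂ} {y0 : Matrix I J ℂ} (hx : Tendsto x l (𝓝 x0)) (hy : Tendsto y l (𝓝 y0)) :
    Tendsto (fun n => x n * y n) l (𝓝 (x0 * y0)) :=
  ((continuous_fst.matrix_mul continuous_snd).tendsto _).comp (hx.prodMk_nhds hy)

namespace Dat
variable {D : Dat I} {g h : Matrix I I ℂ} {p : Pt I D.m}

theorem om_one : D.om 1 = 1 := D.om_one'

theorem om_mul (hg : g ∈ D.base.P) (_hh : h ∈ D.base.P) : D.om (g * h) = D.om g * D.om h :=
  (f1_col hg).om_mul h

theorem om_ne (hg : g ∈ D.base.P) : D.om g ≠ 0 := (f1_col hg).om_ne hg.2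

theorem om_star (hg : g ∈ D.base.P) : D.om gᴴ = star (D.om g) := by
  simp only [om, star_prod, star_zpow₀, (f1_col hg).cut_ct, det_conjTranspose]

theorem om_poly : ∃ F : Matrix I I ℂ × Matrix I I ℂ → ℂ,
    IsPoly (fun z => Sum.elim (fun x : I × I => z.1 x.1 x.2) fun x : I × I => z.2 x.1 x.2) F ∧
      ∀ g ∈ D.base.P, F (g, g⁻¹) = D.om g := by
  refine ⟨fun z => ∏ v, ((D.cut v z.1).det ^ (D.eta v).toNat * (D.cut v z.2).det ^ (-D.eta v).toNat),
    IsPoly.prod _ fun v _ => IsPoly.mul (IsPoly.pow (IsPoly.det fun i j => ?_) _)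
      (IsPoly.pow (IsPoly.det fun i j => ?_) _), fun g hg => Finset.prod_congr rfl fun v _ => ?_⟩
  · exact IsPoly.ite _ (IsPoly.coord (Sum.inl (i, j))) (IsPoly.const _)
  · exact IsPoly.ite _ (IsPoly.coord (Sum.inr (i, j))) (IsPoly.const _)
  · have h := congrArg Matrix.det ((f1_col hg).cut_mul g⁻¹ v)
    rw [mul_nonsing_inv g hg.2, cut_one, det_one, det_mul] at h
    have hn := (f1_col hg).det_ne hg.2 v
    show (D.cut v g).det ^ _ * (D.cut v g⁻¹).det ^ _ = _
    rw [eq_inv_of_mul_eq_one_right h.symm, _root_.inv_pow, ← _root_.zpow_natCast,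
      ← _root_.zpow_natCast, ← _root_.zpow_neg, ← zpow_add₀ hn]
    congr 1
    omega

theorem f1_closed_lie (D : Dat I) : IsClosed (D.Lie : Set (Matrix I I ℂ)) := by
  have : (D.Lie : Set (Matrix I I ℂ)) = ⋂ i, ⋂ j, ⋂ _ : ¬ D.gp i j, {h | h i j = 0} := by
    ext h
    simp only [Set.mem_iInter]
    rfl
  rw [this]
  exact isClosed_iInter fun i => isClosed_iInter fun j => isClosed_iInter fun _ =>
    isClosed_eq (continuous_id.matrix_elem i j) continuous_const

theorem f1_closed_R (D : Dat I) : IsClosed {p : Pt I D.m | p.1 ∈ D.R} := by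
  have : {p : Pt I D.m | p.1 ∈ D.R} = ⋂ a, ⋂ i, ⋂ j, ⋂ _ : ¬ D.ap a i j, {p | p.1 a i j = 0} := by
    ext h
    simp only [Set.mem_iInter]
    rfl
  rw [this]
  exact isClosed_iInter fun a => isClosed_iInter fun i => isClosed_iInter fun j =>
    isClosed_iInter fun _ => isClosed_eq
      (((continuous_apply a).comp continuous_fst).matrix_elem i j) continuous_const

theorem f1_lim_unitary {κ : Type} (U : Ultrafilter κ) {k : κ → Matrix I I ℂ}
    (hk : ∀ n, k n ∈ unitaryGroup I ℂ) (hP : ∀ n, k n ∈ D.P) :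
    ∃ k0 ∈ unitaryGroup I ℂ, k0 ∈ D.P ∧ Tendsto k U (𝓝 k0) := by
  obtain ⟨k0, h0, h1⟩ := (f1_compact_unitary.inter_right D.f1_closed_lie).ultrafilter_le_nhds'
    (U.map k) (Filter.mem_map.2 (Eventually.of_forall fun n => ⟨hk n, (hP n).1⟩))
  exact ⟨k0, h0.1, ⟨h0.2, e4_unit_det h0.1⟩, h1⟩

/-- properness for diagonal matrices -/
theorem prop_diag {κ : Type} (U : Ultrafilter κ) {q : κ → Pt I D.m} {τ : κ → I → ℝ}
    (hq : Tendsto q U (𝓝 p)) (hp : D.St p) {C : ℝ}
    (hC : ∀ᶠ n in U, nsq (act (diagonal fun i => (Real.exp (τ n i) : ℂ)) (q n))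
      + 2 * ∑ i, (D.eta (D.col i) : ℝ) * τ n i ≤ C) : ∃ τ0, Tendsto τ U (𝓝 τ0) := by
  by_cases hb : ∃ M : ℝ, ∀ᶠ n in U, ‖τ n‖ ≤ M
  · obtain ⟨M, hM⟩ := hb
    obtain ⟨τ0, -, h1⟩ := (isCompact_closedBall (0 : I → ℝ) M).ultrafilter_le_nhds' (U.map τ)
      (Filter.mem_map.2 (hM.mono fun n hn => mem_closedBall_zero_iff.2 hn))
    exact ⟨τ0, h1⟩
  exfalso
  have hs : Tendsto (fun n => ‖τ n‖) U atTop := tendsto_atTop.2 fun M =>
    (Ultrafilter.eventually_not.2 fun c => hb ⟨M, c⟩).mono fun n hn => (not_le.1 hn).le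
  have hpos := hs.eventually_gt_atTop 0
  obtain ⟨σ, hσ⟩ : ∃ σ : κ → I → ℝ, ∀ n, σ n = ‖τ n‖⁻¹ • τ n := ⟨_, fun _ => rfl⟩
  have hτ : ∀ᶠ n in U, ∀ i, τ n i = ‖τ n‖ * σ n i := hpos.mono fun n hn i => by
    rw [hσ, Pi.smul_apply, smul_eq_mul, ← mul_assoc, mul_inv_cancel₀ hn.ne', one_mul]
  obtain ⟨σ0, h0, h1⟩ := (isCompact_sphere (0 : I → ℝ) 1).ultrafilter_le_nhds' (U.map σ)
    (Filter.mem_map.2 (hpos.mono fun n hn => mem_sphere_zero_iff_norm.2 (by
      rw [hσ, norm_smul, norm_inv, norm_norm, inv_mul_cancel₀ hn.ne'])))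
  have h1' : ∀ i, Tendsto (fun n => σ n i) U (𝓝 (σ0 i)) := tendsto_pi_nhds.1 h1
  have hne : σ0 ≠ 0 := fun e => by
    have := mem_sphere_zero_iff_norm.1 h0
    rw [e, norm_zero] at this
    exact zero_ne_one this
  have hco : ∀ x, Tendsto (fun n => ‖co (q n) x‖ ^ 2) U (𝓝 (‖co p x‖ ^ 2)) := fun x =>
    (((((continuous_apply x).comp continuous_co).tendsto p).comp hq).norm).pow 2
  have hH : ∀ᶠ n in U, nsq (act (diagonal fun i => (Real.exp (τ n i) : ℂ)) (q n))
      ≤ C + (2 * ∑ i, |(D.eta (D.col i) : ℝ)|) * ‖τ n‖ := hC.mono fun n hn => by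
    have : -∑ i, (D.eta (D.col i) : ℝ) * τ n i ≤ (∑ i, |(D.eta (D.col i) : ℝ)|) * ‖τ n‖ := by
      rw [Finset.sum_mul, ← Finset.sum_neg_distrib]
      refine Finset.sum_le_sum fun i _ => (neg_le_abs _).trans ?_
      rw [abs_mul]
      exact mul_le_mul_of_nonneg_left (norm_le_pi_norm (τ n) i) (abs_nonneg _)
    linarith
  have hγ := f1_layer hp hne (fun a i j e => ?_) fun i r e => ?_
  · have h2 : Tendsto (fun n => ‖τ n‖ * (2 * ∑ i, (D.eta (D.col i) : ℝ) * σ n i)) U atTop :=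
      hs.atTop_mul_pos (mul_pos two_pos hγ)
        ((tendsto_finsetSum _ fun i _ => (h1' i).const_mul _).const_mul 2)
    obtain ⟨n, h3, h4, h5⟩ := ((h2.eventually_gt_atTop C).and (hC.and hτ)).exists
    have h6 : ∑ i, (D.eta (D.col i) : ℝ) * τ n i = ‖τ n‖ * ∑ i, (D.eta (D.col i) : ℝ) * σ n i := by
      rw [Finset.mul_sum]
      exact Finset.sum_congr rfl fun i _ => by rw [mul_left_comm, ← h5 i]
    have := nsq_nonneg (act (diagonal fun i => (Real.exp (τ n i) : ℂ)) (q n))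
    linarith
  · refine sub_nonpos.1 (f1_growth hs ((h1' i).sub (h1' j)) (hco (.inl (a, i, j)))
      (pow_pos (norm_pos_iff.2 e) 2) ((hH.and hτ).mono fun n hn => le_trans ?_ hn.1))
    refine le_trans (le_of_eq ?_) (le_nsq _ (.inl (a, i, j)))
    rw [act_diagonal _ fun i => by exact_mod_cast (Real.exp_pos _).ne']
    simp only [co, Sum.elim_inl, of_apply]
    rw [norm_mul, mul_pow, ← Complex.ofReal_div, Complex.norm_real, Real.norm_eq_abs, sq_abs,
      ← Real.exp_sub, mul_sub, ← hn.2 i, ← hn.2 j]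
  · refine f1_growth hs (h1' i) (hco (.inr (i, r)))
      (pow_pos (norm_pos_iff.2 e) 2) ((hH.and hτ).mono fun n hn => le_trans ?_ hn.1)
    refine le_trans (le_of_eq ?_) (le_nsq _ (.inr (i, r)))
    rw [act_diagonal _ fun i => by exact_mod_cast (Real.exp_pos _).ne']
    simp only [co, Sum.elim_inr, of_apply]
    rw [norm_mul, mul_pow, Complex.norm_real, Real.norm_eq_abs, sq_abs, ← hn.2 i]

theorem prop {κ : Type} (U : Ultrafilter κ) {q : κ → Pt I D.m} {g : κ → Matrix I I ℂ}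
    (hq : Tendsto q U (𝓝 p)) (hp : D.base.St p) (hg : ∀ᶠ n in U, g n ∈ D.base.P) {C : ℝ}
    (hC : ∀ᶠ n in U, nsq (act (g n) (q n)) + 2 * Real.log ‖D.om (g n)‖ ≤ C) :
    ∃ g₀ ∈ D.base.P, Tendsto g U (𝓝 g₀) := by
  classical
  have hk : ∀ n, (if g n ∈ D.base.P then g n else 1) ∈ D.base.P := fun n => by
    split_ifs with e
    exacts [e, D.base.f1_one]
  choose k hk k' hk' hP hP' t ht e using fun n => D.kak (hk n)
  have he : ∀ᶠ n in U, g n = k n * diagonal (fun i => (Real.exp (Real.log (t n i)) : ℂ)) * k' n :=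
    hg.mono fun n hn => by
      have := e n
      rw [if_pos hn] at this
      simp only [Real.exp_log (ht n _)]
      exact this
  obtain ⟨k0, -, h0, h1⟩ := f1_lim_unitary U hk hP
  obtain ⟨k1, -, h2, h3⟩ := f1_lim_unitary U hk' hP'
  obtain ⟨τ0, h4⟩ := prop_diag (D := D.base) U (τ := fun n i => Real.log (t n i)) (C := C)
    (tendsto_act h2.2 h3 hq) (f1_St h2 hp) ((hC.and he).mono fun n hn => by
      have h5 := hn.1
      have hd := D.base.f1_diag (t := fun i => (Real.exp (Real.log (t n i)) : ℂ))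
        fun i => by exact_mod_cast (Real.exp_pos _).ne'
      have u1 := mem_unitaryGroup_iff'.1 (hk n)
      have u2 := mem_unitaryGroup_iff'.1 (hk' n)
      rw [hn.2, Matrix.mul_assoc, act_mul', nsq_unitary u1, act_mul', (f1_col (hP n)).om_mul,
        (f1_col hd).om_mul, norm_mul, norm_mul, (f1_col (hP n)).norm_om u1,
        (f1_col (hP' n)).norm_om u2, one_mul, mul_one,
        D.log_om_diagonal _ fun i => Real.exp_pos _] at h5
      simp only [Real.log_exp] at h5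
      exact h5)
  refine ⟨k0 * diagonal (fun i => (Real.exp (τ0 i) : ℂ)) * k1, D.base.e4_P_mul (D.base.e4_P_mul h0
    (D.base.f1_diag fun i => by exact_mod_cast (Real.exp_pos _).ne')) h2, ?_⟩
  refine Tendsto.congr' (he.mono fun n hn => hn.symm) (f1_tendsto_mul (f1_tendsto_mul h1 ?_) h3)
  have hc : Continuous fun τ : I → ℝ => diagonal fun i => (Real.exp (τ i) : ℂ) :=
    Continuous.matrix_diagonal (by fun_prop)
  exact (hc.tendsto τ0).comp h4

theorem unst (hp : p.1 ∈ D.base.R) (h : ¬ D.base.St p) :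
    ∃ C : ℝ, ∀ ε > 0, ∃ g ∈ D.base.P, nsq (act g p) ≤ C ∧ ‖D.om g‖ < ε :=
  ⟨nsq p, fun _ hε => unst' hp h hε⟩

theorem LL_bdd (D : Dat I) : ∃ C : ℝ, ∀ p ∈ D.LL, nsq p ≤ C := by
  obtain ⟨t, ht⟩ : ∃ t : I → ℝ, ∀ i, t i = if D.col i = 1 then 1 / 4 else 1 / 2 := ⟨_, fun _ => rfl⟩
  have h0 : ∀ i, 0 < t i := fun i => by
    rw [ht]
    split_ifs <;> norm_num
  refine ⟨4 * Real.log ‖D.om (diagonal fun i => (t i : ℂ))‖, fun p hp => ?_⟩
  have h1 := hp.2 _ (D.base.f1_diag (t := fun i => (t i : ℂ)) fun i => by exact_mod_cast (h0 i).ne')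
  have h2 := nsq_diag_le t h0 (1 / 2) p (fun a i j e => by
    have h3 : D.base.ap a i j := by_contra fun c => e (hp.1 a i j c)
    have h4 : D.col j ≠ 1 := by
      rw [show D.col j = src a from h3.2.1]
      fin_cases a <;> decide
    rw [ht, ht, if_pos (show D.col i = 1 from h3.1), if_neg h4]
    norm_num) fun i r _ => by
    rw [ht]
    split_ifs <;> norm_num
  have := nsq_nonneg p
  linarith

theorem compact_nsq {m : ℕ} (C : ℝ) : IsCompact {p : Pt I m | nsq p ≤ C} := by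
  have hc : Continuous ((coL I m).symm : (Co I m → ℂ) → Pt I m) :=
    Continuous.prodMk (continuous_pi fun a => continuous_matrix fun i j => continuous_apply _)
      (continuous_matrix fun i j => continuous_apply _)
  refine ((isCompact_closedBall (0 : Co I m → ℂ) (Real.sqrt C)).image hc).of_isClosed_subset
    (isClosed_le continuous_nsq continuous_const) fun p hp => ⟨co p, ?_, (coL I m).symm_apply_apply p⟩
  rw [mem_closedBall_zero_iff, pi_norm_le_iff_of_nonneg (Real.sqrt_nonneg _)]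
  exact fun x => Real.le_sqrt_of_sq_le ((le_nsq p x).trans hp)

theorem LL_compact : IsCompact D.LL := by
  obtain ⟨C, hC⟩ := D.LL_bdd
  refine (compact_nsq C).of_isClosed_subset ?_ hC
  have : D.LL = {p : Pt I D.m | p.1 ∈ D.base.R} ∩ ⋂ g ∈ D.base.P,
      {p | nsq p ≤ nsq (act g p) + 2 * Real.log ‖D.om g‖} := by
    ext p
    simp only [Set.mem_inter_iff, Set.mem_iInter]
    rfl
  rw [this]
  exact D.base.f1_closed_R.inter (isClosed_biInter fun g _ => isClosed_le continuous_nsq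
    ((continuous_nsq.comp (f1_continuous_act g)).add continuous_const))

theorem LL_st (h : p ∈ D.LL) : D.base.St p := by
  by_contra hn
  obtain ⟨g, hg, h1, h2⟩ := unst' h.1 hn one_pos
  have h3 := h.2 g hg
  have h4 := Real.log_neg (norm_pos_iff.2 (om_ne hg)) h2
  linarith

theorem LL_unitary {k : Matrix I I ℂ} (hk : k ∈ unitaryGroup I ℂ) (hP : k ∈ D.base.P)
    (h : p ∈ D.LL) : act k p ∈ D.LL := by
  have u := mem_unitaryGroup_iff'.1 hk
  refine ⟨f1_R hP h.1, fun g hg => ?_⟩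
  have := h.2 _ (D.base.e4_P_mul hg hP)
  rwa [om_mul hg hP, norm_mul, (f1_col hP).norm_om u, mul_one, act_mul', ← nsq_unitary u p] at this

theorem tendsto_en {κ : Type} {l : Filter κ} {g : κ → Matrix I I ℂ} {g0 : Matrix I I ℂ}
    (h0 : g0 ∈ D.base.P) (hg : Tendsto g l (𝓝 g0)) (p : Pt I D.m) :
    Tendsto (fun n => D.en (g n) p) l (𝓝 (D.en g0 p)) :=
  ((continuous_nsq.tendsto _).comp (tendsto_act h0.2 hg tendsto_const_nhds)).add
    (((((f1_col h0).continuousAt_om h0.2).tendsto.comp hg).norm.log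
      (norm_ne_zero_iff.2 (om_ne h0))).const_mul 2)

theorem exists_LL_base (h : D.base.St p) : ∃ g ∈ D.base.P, act g p ∈ D.LL := by
  have hc : IsCompact {g | g ∈ D.base.P ∧ D.en g p ≤ D.en 1 p} := by
    refine isCompact_iff_ultrafilter_le_nhds'.2 fun U hU => ?_
    obtain ⟨g0, h0, h1⟩ := prop U (g := id) (q := fun _ => p) (C := D.en 1 p) tendsto_const_nhds h
      (mem_of_superset hU fun _ e => e.1) (mem_of_superset hU fun _ e => e.2)
    exact ⟨g0, ⟨h0, le_of_tendsto (tendsto_en h0 h1 p) (mem_of_superset hU fun _ e => e.2)⟩, h1⟩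
  obtain ⟨g0, h0, h1⟩ := hc.exists_isMinOn ⟨1, D.base.f1_one, le_rfl⟩ (f := fun g => D.en g p)
    fun g hg => tendsto_en hg.1 (tendsto_id.mono_left nhdsWithin_le_nhds) p
  refine ⟨g0, h0.1, f1_R h0.1 h.mem, fun g hg => ?_⟩
  have h2 : D.en g0 p ≤ D.en (g * g0) p := by
    by_contra c
    exact c (h1 ⟨D.base.e4_P_mul hg h0.1, (not_le.1 c).le.trans h0.2⟩)
  rw [D.en_mul (f1_col hg) hg.2 (f1_col h0.1) h0.1.2] at h2
  simp only [en] at h2
  linarith

theorem exists_LL (h : D.St p) : ∃ g ∈ D.P, act g p ∈ D.LL := by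
  obtain ⟨g, hg, h1⟩ := exists_LL_base (f1_St_base h)
  obtain ⟨b, hb, k, hk, hP, e⟩ := D.qr (D.base.e4_P_inv hg)
  refine ⟨b⁻¹, D.e4_P_inv hb, ?_⟩
  have : b⁻¹ = k * g := by
    apply inv_eq_right_inv
    rw [← Matrix.mul_assoc, ← e, nonsing_inv_mul g hg.2]
  rw [this, act_mul']
  exact LL_unitary hk hP h1

theorem orb_closed {a : ℕ} (ha : 0 < a) (h : D.base.St p) :
    IsClosed {z : Pt I D.m × ℂ | ∃ g ∈ D.base.P, z = (act g p, D.om g ^ a)} := by
  refine isClosed_iff_ultrafilter.2 fun x U hx hU => ?_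
  have hU' : ∀ᶠ z : Pt I D.m × ℂ in U, ∃ g, g ∈ D.base.P ∧ z = (act g p, D.om g ^ a) := hU
  obtain ⟨g, hg⟩ := hU'.choice
  have h1 : ∀ᶠ z : Pt I D.m × ℂ in U, nsq z.1 < nsq x.1 + 1 :=
    hx (((continuous_nsq.comp continuous_fst).tendsto x).eventually (gt_mem_nhds (lt_add_one _)))
  have h2 : ∀ᶠ z : Pt I D.m × ℂ in U, ‖z.2‖ < ‖x.2‖ + 1 :=
    hx ((continuous_snd.norm.tendsto x).eventually (gt_mem_nhds (lt_add_one _)))
  obtain ⟨g0, h0, h3⟩ := prop U (g := g) (q := fun _ => p)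
    (C := nsq x.1 + 1 + 2 * Real.log (‖x.2‖ + 1)) tendsto_const_nhds h (hg.mono fun _ e => e.1)
    ((hg.and (h1.and h2)).mono fun z ⟨⟨e1, e2⟩, e3, e4⟩ => by
      rw [e2] at e3 e4
      have e5 : ‖D.om (g z)‖ ^ a < ‖x.2‖ + 1 := by rwa [← norm_pow]
      have e6 : ‖D.om (g z)‖ ≤ ‖x.2‖ + 1 := by
        rcases le_total ‖D.om (g z)‖ 1 with c | c
        · linarith [norm_nonneg x.2]
        · exact (le_self_pow₀ c ha.ne').trans e5.le
      have e7 := Real.log_le_log (norm_pos_iff.2 (om_ne e1)) e6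
      have e8 : nsq (act (g z) p) < nsq x.1 + 1 := e3
      linarith)
  refine ⟨g0, h0, tendsto_nhds_unique (l := (U : Filter (Pt I D.m × ℂ))) (f := id) hx ?_⟩
  exact Tendsto.congr' (hg.mono fun z e => e.2.symm)
    ((tendsto_act h0.2 h3 tendsto_const_nhds).prodMk_nhds
      ((((f1_col h0).continuousAt_om h0.2).tendsto.comp h3).pow a))

/-- stability is an open condition -/
theorem unst_closed (D : Dat I) : IsClosed {p : Pt I D.m | p.1 ∈ D.R ∧ ¬ D.St p} := by
  refine isClosed_iff_ultrafilter.2 fun x U hx hU => ?_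
  have hR : x ∈ {p : Pt I D.m | p.1 ∈ D.R} :=
    isClosed_iff_ultrafilter.1 D.f1_closed_R x U hx (mem_of_superset hU fun _ e => e.1)
  refine ⟨hR, fun hs => ?_⟩
  have h1 : ∀ᶠ z : Pt I D.m in U, ∃ g, g ∈ D.base.P ∧ nsq (act g z) ≤ nsq z ∧
      ‖D.om g‖ < min 1 (nsq (z - x)) := mem_of_superset hU fun z e =>
    unst' (fun a i j hn => e.1 a i j fun c => hn ⟨c.1, c.2.1, D.rl_cp c.2.2⟩)
      (fun c => e.2 ⟨e.1, c.ss, c.gen⟩)
      (lt_min one_pos (nsq_pos (sub_ne_zero.2 fun c => e.2 (c ▸ hs))))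
  obtain ⟨g, hg⟩ := h1.choice
  have h2 : ∀ᶠ z : Pt I D.m in U, nsq z < nsq x + 1 :=
    hx ((continuous_nsq.tendsto x).eventually (gt_mem_nhds (lt_add_one _)))
  obtain ⟨g0, h0, h3⟩ := prop U (g := g) (q := id) (C := nsq x + 1) hx (f1_St_base hs)
    (hg.mono fun _ e => e.1) ((hg.and h2).mono fun z ⟨⟨e1, e2, e3⟩, e4⟩ => by
      have := Real.log_neg (norm_pos_iff.2 (om_ne e1)) (e3.trans_le (min_le_left _ _))
      have e5 : nsq (act (g z) (id z)) ≤ nsq z := e2
      linarith)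
  have h4 : Tendsto (fun z : Pt I D.m => nsq (z - x)) U (𝓝 (nsq (x - x))) :=
    ((continuous_nsq.comp (continuous_id.sub continuous_const)).tendsto x).mono_left hx
  have h5 := le_of_tendsto_of_tendsto ((((f1_col h0).continuousAt_om h0.2).tendsto.comp h3).norm) h4
    (hg.mono fun z e => (e.2.2.trans_le (min_le_right _ _)).le)
  have h6 : nsq (x - x) = 0 := by
    rw [sub_self]
    exact Finset.sum_eq_zero fun y _ => by rcases y with y | y <;> simp [co]
  exact absurd (norm_pos_iff.2 (om_ne h0)) (not_lt.2 (h5.trans h6.le))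

end Dat

end Pool.Agent.CS
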