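import Pool.Agent.P.MP_d34769_ag.YF0
import Pool.Agent.P.MP_d34769_ag.YE4

/-! The character, the energy and the layer lemma. -/

open Matrix Filter Topology

set_option linter.unusedSectionVars false

noncomputable section
namespace Pool.Agent.CS

variable {I : Type} [Fintype I] [DecidableEq I]

/-- the layer lemma for nonnegative functions -/
theorem layer_pos (w : I → ℝ) (n : ℕ) : ∀ τ : I → ℝ, (Finset.univ.filter fun i => τ i ≠ 0).card ≤ n →
    (∀ i, 0 ≤ τ i) →
    (∀ l : ℝ, 0 < l → (∃ i, l ≤ τ i) → 0 < ∑ i ∈ Finset.univ.filter (fun i => l ≤ τ i), w i) →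
    τ = 0 ∨ 0 < ∑ i, w i * τ i := by
  induction n with
  | zero =>
    intro τ hc _ _
    left
    funext i
    by_contra h
    have : i ∈ Finset.univ.filter fun i => τ i ≠ 0 := by simpa using h
    rw [Nat.le_zero, Finset.card_eq_zero] at hc
    simp [hc] at this
  | succ n ih =>
    intro τ hc h0 hl
    by_cases hz : τ = 0
    · exact Or.inl hz
    right
    have hne : (Finset.univ.filter fun i => τ i ≠ 0).Nonempty := by
      obtain ⟨i, hi⟩ := Function.ne_iff.1 hz
      exact ⟨i, by simpa using hi⟩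
    obtain ⟨i0, hi0, hmin⟩ := Finset.exists_min_image _ τ hne
    have hi0' : τ i0 ≠ 0 := by simpa using hi0
    have hp : 0 < τ i0 := lt_of_le_of_ne (h0 i0) hi0'.symm
    have hmin' : ∀ i, τ i ≠ 0 → τ i0 ≤ τ i := fun i hi => hmin i (by simpa using hi)
    obtain ⟨τ', hτ'⟩ : ∃ τ' : I → ℝ, ∀ i, τ' i = if τ i0 ≤ τ i then τ i - τ i0 else 0 :=
      ⟨_, fun _ => rfl⟩
    have hsum : ∑ i, w i * τ i
        = τ i0 * ∑ i ∈ Finset.univ.filter (fun i => τ i0 ≤ τ i), w i + ∑ i, w i * τ' i := by
      rw [Finset.sum_filter, Finset.mul_sum, ← Finset.sum_add_distrib]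
      refine Finset.sum_congr rfl fun i _ => ?_
      rw [hτ']
      split_ifs with h
      · ring
      · have : τ i = 0 := by
          by_contra h'
          exact h (hmin' i h')
        simp [this]
    have h1 := mul_pos hp (hl _ hp ⟨i0, le_rfl⟩)
    have hiff : ∀ l : ℝ, 0 < l → ∀ i, l ≤ τ' i ↔ l + τ i0 ≤ τ i := fun l hl0 i => by
      rw [hτ']
      split_ifs with h
      · constructor <;> intro <;> linarith
      · constructor <;> intro <;> linarith [not_le.1 h]
    have h2 := ih τ' (by
      have hsub : (Finset.univ.filter fun i => τ' i ≠ 0) ⊆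
          (Finset.univ.filter fun i => τ i ≠ 0).erase i0 := by
        intro i hi
        have hi' : τ' i ≠ 0 := by simpa using hi
        rw [hτ'] at hi'
        have hle : τ i0 ≤ τ i := by
          by_contra h
          simp [h] at hi'
        rw [if_pos hle] at hi'
        refine Finset.mem_erase.2 ⟨?_, by simpa using (lt_of_lt_of_le hp hle).ne'⟩
        rintro rfl
        simp at hi'
      have := Finset.card_le_card hsub
      rw [Finset.card_erase_of_mem hi0] at this
      omega)
      (fun i => by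
        rw [hτ']
        split_ifs with h
        · linarith
        · exact le_rfl)
      (fun l hl0 ⟨i, hi⟩ => by
        have := hl (l + τ i0) (by linarith) ⟨i, (hiff l hl0 i).1 hi⟩
        rwa [Finset.filter_congr fun i _ => hiff l hl0 i])
    rcases h2 with h2 | h2
    · rw [hsum, h2]
      simpa using h1
    · linarith

/-- the layer lemma -/
theorem layer (w σ : I → ℝ) (hσ : σ ≠ 0)
    (h1 : ∀ l : ℝ, l < 0 → (∃ i, σ i ≤ l) → ∑ i ∈ Finset.univ.filter (fun i => σ i ≤ l), w i < 0)
    (h2 : ∀ l : ℝ, 0 < l → (∃ i, l ≤ σ i) → 0 < ∑ i ∈ Finset.univ.filter (fun i => l ≤ σ i), w i) :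
    0 < ∑ i, w i * σ i := by
  have a := layer_pos w _ (fun i => max (σ i) 0) le_rfl (fun i => le_max_right _ _)
    (fun l hl ⟨i, hi⟩ => by
      have hiff : ∀ i, l ≤ max (σ i) 0 ↔ l ≤ σ i := fun i => by
        rw [le_max_iff]
        exact or_iff_left (not_le.2 hl)
      rw [Finset.filter_congr fun i _ => hiff i]
      exact h2 l hl ⟨i, (hiff i).1 hi⟩)
  have b := layer_pos (fun i => -w i) _ (fun i => max (-σ i) 0) le_rfl (fun i => le_max_right _ _)
    (fun l hl ⟨i, hi⟩ => by
      have hiff : ∀ i, l ≤ max (-σ i) 0 ↔ σ i ≤ -l := fun i => by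
        rw [le_max_iff, or_iff_left (not_le.2 hl)]
        exact le_neg
      rw [Finset.filter_congr fun i _ => hiff i, Finset.sum_neg_distrib]
      exact neg_pos.2 (h1 (-l) (by linarith) ⟨i, (hiff i).1 hi⟩))
  have hs : ∑ i, w i * σ i = ∑ i, w i * max (σ i) 0 + ∑ i, -w i * max (-σ i) 0 := by
    rw [← Finset.sum_add_distrib]
    refine Finset.sum_congr rfl fun i _ => ?_
    rcases le_total 0 (σ i) with h | h
    · rw [max_eq_left h, max_eq_right (by linarith)]
      ring
    · rw [max_eq_right h, max_eq_left (by linarith)]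
      ring
  rw [hs]
  rcases a with a | a <;> rcases b with b | b
  · exfalso
    apply hσ
    funext i
    have h3 : max (σ i) 0 = 0 := congrFun a i
    have h4 : max (-σ i) 0 = 0 := congrFun b i
    have h5 := le_max_left (σ i) 0
    have h6 := le_max_left (-σ i) 0
    show σ i = 0
    linarith
  · have : ∑ i, w i * max (σ i) 0 = 0 :=
      Finset.sum_eq_zero fun i _ => by rw [show max (σ i) 0 = 0 from congrFun a i, mul_zero]
    linarith
  · have : ∑ i, -w i * max (-σ i) 0 = 0 :=
      Finset.sum_eq_zero fun i _ => by rw [show max (-σ i) 0 = 0 from congrFun b i, mul_zero]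
    linarith
  · linarith

/-- the squared norm of a matrix -/
def msq {J : Type} [Fintype J] (A : Matrix I J ℂ) : ℝ := ∑ i, ∑ j, ‖A i j‖ ^ 2

theorem nsq_eq {m : ℕ} (p : Pt I m) : nsq p = ∑ a, msq (p.1 a) + msq p.2 := by
  simp only [nsq, msq, Fintype.sum_sum_type, Fintype.sum_prod_type, co, Sum.elim_inl, Sum.elim_inr,
    Complex.normSq_eq_norm_sq]

section
variable {J : Type} [Fintype J]

theorem msq_nonneg (A : Matrix I J ℂ) : 0 ≤ msq A := by
  unfold msq
  positivity

theorem le_msq (A : Matrix I J ℂ) (i : I) (j : J) : ‖A i j‖ ^ 2 ≤ msq A :=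
  (Finset.single_le_sum (f := fun j => ‖A i j‖ ^ 2) (fun _ _ => by positivity)
    (Finset.mem_univ j)).trans
    (Finset.single_le_sum (f := fun i => ∑ j, ‖A i j‖ ^ 2) (fun _ _ => by positivity)
      (Finset.mem_univ i))

theorem msq_eq (A : Matrix I J ℂ) : (msq A : ℂ) = (A * Aᴴ).trace := by
  simp only [msq, trace, diag, mul_apply, conjTranspose_apply, Complex.star_def, Complex.mul_conj']
  push_cast
  rfl

theorem msq_left {k : Matrix I I ℂ} (hk : kᴴ * k = 1) (A : Matrix I J ℂ) : msq (k * A) = msq A := by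
  have : (msq (k * A) : ℂ) = msq A := by
    rw [msq_eq, msq_eq, conjTranspose_mul, ← Matrix.mul_assoc, trace_mul_comm, ← Matrix.mul_assoc,
      ← Matrix.mul_assoc, hk, Matrix.one_mul]
  exact_mod_cast this

theorem msq_right [DecidableEq J] {k : Matrix J J ℂ} (hk : k * kᴴ = 1) (A : Matrix I J ℂ) :
    msq (A * k) = msq A := by
  have : (msq (A * k) : ℂ) = msq A := by
    rw [msq_eq, msq_eq, conjTranspose_mul, Matrix.mul_assoc, ← Matrix.mul_assoc k, hk,
      Matrix.one_mul]
  exact_mod_cast this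

theorem continuous_msq : Continuous (msq : Matrix I J ℂ → ℝ) := by
  unfold msq
  fun_prop

end

theorem nsq_nonneg {m : ℕ} (p : Pt I m) : 0 ≤ nsq p :=
  Finset.sum_nonneg fun _ _ => Complex.normSq_nonneg _

theorem le_nsq {m : ℕ} (p : Pt I m) (x : Co I m) : ‖co p x‖ ^ 2 ≤ nsq p := by
  rw [← Complex.normSq_eq_norm_sq]
  exact Finset.single_le_sum (f := fun x => Complex.normSq (co p x))
    (fun _ _ => Complex.normSq_nonneg _) (Finset.mem_univ x)

theorem continuous_nsq {m : ℕ} : Continuous (nsq : Pt I m → ℝ) :=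
  continuous_finsetSum _ fun x _ =>
    Complex.continuous_normSq.comp ((continuous_apply x).comp continuous_co)

theorem nsq_pos {m : ℕ} {p : Pt I m} (h : p ≠ 0) : 0 < nsq p := by
  refine lt_of_le_of_ne (nsq_nonneg p) fun e => h ?_
  apply (coL I m).injective
  rw [map_zero, coL_apply]
  funext x
  have := le_nsq p x
  rw [← e] at this
  exact norm_eq_zero.1 (pow_eq_zero_iff (two_ne_zero) |>.1 (le_antisymm this (by positivity)))

theorem inv_of_unitary {k : Matrix I I ℂ} (hk : kᴴ * k = 1) : k⁻¹ = kᴴ := inv_eq_left_inv hk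

theorem nsq_unitary {m : ℕ} {k : Matrix I I ℂ} (hk : kᴴ * k = 1) (p : Pt I m) :
    nsq (act k p) = nsq p := by
  rw [nsq_eq, nsq_eq]
  unfold act actR
  simp only [inv_of_unitary hk]
  rw [msq_left hk]
  congr 1
  refine Finset.sum_congr rfl fun a _ => ?_
  rw [msq_right (by rw [conjTranspose_conjTranspose]; exact hk), msq_left hk]

theorem act_mul' {m : ℕ} (g h : Matrix I I ℂ) (p : Pt I m) : act (g * h) p = act g (act h p) := by
  unfold act actR
  refine Prod.ext (funext fun a => ?_) ?_
  · simp only [Matrix.mul_inv_rev, Matrix.mul_assoc]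
  · simp only [Matrix.mul_assoc]

theorem act_one' {m : ℕ} (p : Pt I m) : act 1 p = p := by
  unfold act actR
  simp

/-- joint continuity of the action at invertible matrices -/
theorem tendsto_act {m : ℕ} {ι : Type} {l : Filter ι} {g : ι → Matrix I I ℂ} {g0 : Matrix I I ℂ}
    {p : ι → Pt I m} {p0 : Pt I m} (h0 : IsUnit g0.det) (hg : Tendsto g l (𝓝 g0))
    (hp : Tendsto p l (𝓝 p0)) : Tendsto (fun n => act (g n) (p n)) l (𝓝 (act g0 p0)) := by
  have hi : Tendsto (fun n => (g n)⁻¹) l (𝓝 g0⁻¹) := by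
    refine (continuousAt_matrix_inv g0 ?_).tendsto.comp hg
    rw [Ring.inverse_eq_inv']
    exact continuousAt_inv₀ h0.ne_zero
  have hm : ∀ {J : Type} {x : ι → Matrix I I ℂ} {x0 : Matrix I I ℂ} {y : ι → Matrix I J ℂ}
      {y0 : Matrix I J ℂ}, Tendsto x l (𝓝 x0) → Tendsto y l (𝓝 y0) →
      Tendsto (fun n => x n * y n) l (𝓝 (x0 * y0)) := fun hx hy =>
    ((continuous_fst.matrix_mul continuous_snd).tendsto _).comp (hx.prodMk_nhds hy)
  refine Tendsto.prodMk_nhds (tendsto_pi_nhds.2 fun a => hm (hm hg ?_) hi) (hm hg ?_)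
  · exact (((continuous_apply a).comp continuous_fst).tendsto p0).comp hp
  · exact (continuous_snd.tendsto p0).comp hp

theorem f1_continuous_act {m : ℕ} (g : Matrix I I ℂ) : Continuous (act g : Pt I m → Pt I m) :=
  Continuous.prodMk (continuous_pi fun a => (continuous_const.matrix_mul
    ((continuous_apply a).comp continuous_fst)).matrix_mul continuous_const)
    (continuous_const.matrix_mul continuous_snd)

namespace Dat
variable (D : Dat I)

/-- matrices that keep the colours -/
def Col (g : Matrix I I ℂ) : Prop := ∀ i j, D.col i ≠ D.col j → g i j = 0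

theorem Col.of_lie {D : Dat I} {g : Matrix I I ℂ} (h : g ∈ D.Lie) : D.Col g :=
  fun i j e => h i j fun c => e c.1

theorem Col.of_base {D : Dat I} {g : Matrix I I ℂ} (h : g ∈ D.base.Lie) : D.Col g :=
  fun i j e => h i j fun c => e c.1

theorem Col.cut_mul {D : Dat I} {g : Matrix I I ℂ} (hg : D.Col g) (h : Matrix I I ℂ) (v : Fin 3) :
    D.cut v (g * h) = D.cut v g * D.cut v h := by
  ext i j
  by_cases e : D.col i = v
  · simp only [cut, of_apply, mul_apply, if_pos e]
    refine Finset.sum_congr rfl fun k _ => ?_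
    split_ifs with e'
    · rfl
    · rw [hg i k (by rw [e]; exact fun c => e' c.symm), zero_mul, zero_mul]
  · simp only [cut, of_apply, mul_apply, if_neg e]
    rw [Finset.sum_eq_single i (fun k _ hk => by rw [one_apply_ne hk.symm, zero_mul]) (by simp),
      if_neg e, one_apply_eq, one_mul]

theorem cut_one (v : Fin 3) : D.cut v 1 = 1 := by
  ext i j
  simp [cut]

theorem Col.det_ne {D : Dat I} {g : Matrix I I ℂ} (hg : D.Col g) (hu : IsUnit g.det) (v : Fin 3) :
    (D.cut v g).det ≠ 0 := by
  have h := congrArg Matrix.det (hg.cut_mul g⁻¹ v)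
  rw [mul_nonsing_inv g hu, cut_one, det_one, det_mul] at h
  exact left_ne_zero_of_mul_eq_one h.symm

theorem Col.om_mul {D : Dat I} {g : Matrix I I ℂ} (hg : D.Col g) (h : Matrix I I ℂ) :
    D.om (g * h) = D.om g * D.om h := by
  simp only [om, hg.cut_mul, det_mul, mul_zpow, Finset.prod_mul_distrib]

theorem Col.om_ne {D : Dat I} {g : Matrix I I ℂ} (hg : D.Col g) (hu : IsUnit g.det) : D.om g ≠ 0 :=
  Finset.prod_ne_zero_iff.2 fun v _ => zpow_ne_zero _ (hg.det_ne hu v)

theorem om_diagonal (t : I → ℂ) : D.om (diagonal t) = ∏ i, t i ^ D.eta (D.col i) := by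
  have h : ∀ v, D.cut v (diagonal t) = diagonal fun i => if D.col i = v then t i else 1 := fun v => by
    ext i j
    simp only [cut, of_apply, diagonal_apply, one_apply]
    split_ifs <;> rfl
  simp only [om, h, det_diagonal, ← Finset.prod_zpow]
  rw [Finset.prod_comm]
  refine Finset.prod_congr rfl fun i _ => ?_
  rw [Finset.prod_eq_single (D.col i) (fun v _ hv => by rw [if_neg hv.symm, _root_.one_zpow])
    (by simp), if_pos rfl]

theorem om_one' : D.om 1 = 1 := by
  simp [om, cut_one]

theorem Col.cut_ct {D : Dat I} {k : Matrix I I ℂ} (hk : D.Col k) (v : Fin 3) :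
    D.cut v kᴴ = (D.cut v k)ᴴ := by
  ext i j
  simp only [cut, of_apply, conjTranspose_apply]
  by_cases e : D.col i = D.col j
  · rw [e]
    split_ifs
    · rfl
    · simp [one_apply, eq_comm]
  · have hij : i ≠ j := fun c => e (c ▸ rfl)
    rw [hk j i (Ne.symm e), one_apply_ne hij, one_apply_ne hij.symm]
    simp

theorem Col.norm_om {D : Dat I} {k : Matrix I I ℂ} (hk : D.Col k) (hu : kᴴ * k = 1) :
    ‖D.om k‖ = 1 := by
  have hc : D.Col kᴴ := fun i j e => by
    rw [conjTranspose_apply, hk j i e.symm, star_zero]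
  rw [om, norm_prod]
  refine Finset.prod_eq_one fun v _ => ?_
  have h1 := hc.cut_mul k v
  rw [hu] at h1
  have h4 := congrArg (fun A => ‖Matrix.det A‖) h1
  simp only [cut_one, hk.cut_ct, det_one, norm_one, det_mul, det_conjTranspose, norm_mul,
    norm_star] at h4
  have h5 : ‖(D.cut v k).det‖ = 1 := by
    nlinarith [norm_nonneg (D.cut v k).det]
  rw [norm_zpow, h5, _root_.one_zpow]

theorem continuous_cut (v : Fin 3) : Continuous (D.cut v) := by
  refine continuous_matrix fun i j => ?_
  simp only [cut, of_apply]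
  split_ifs
  · exact continuous_id.matrix_elem i j
  · exact continuous_const

theorem Col.continuousAt_om {D : Dat I} {g : Matrix I I ℂ} (hg : D.Col g) (hu : IsUnit g.det) :
    ContinuousAt D.om g :=
  tendsto_finsetProd _ fun v _ =>
    ((D.continuous_cut v).matrix_det.tendsto g).zpow₀ _ (Or.inl (hg.det_ne hu v))

/-- the energy -/
def en (g : Matrix I I ℂ) (p : Pt I D.m) : ℝ := nsq (act g p) + 2 * Real.log ‖D.om g‖

theorem en_mul {g h : Matrix I I ℂ} (hg : D.Col g) (hu : IsUnit g.det) (hh : D.Col h)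
    (hv : IsUnit h.det) (p : Pt I D.m) :
    D.en (g * h) p = D.en g (act h p) + 2 * Real.log ‖D.om h‖ := by
  rw [en, en, act_mul', hg.om_mul, norm_mul,
    Real.log_mul (norm_ne_zero_iff.2 (hg.om_ne hu)) (norm_ne_zero_iff.2 (hh.om_ne hv))]
  ring

theorem en_one (p : Pt I D.m) : D.en 1 p = nsq p := by
  simp [en, act_one', om_one']

theorem log_om_diagonal (t : I → ℝ) (ht : ∀ i, 0 < t i) :
    Real.log ‖D.om (diagonal fun i => (t i : ℂ))‖ = ∑ i, D.eta (D.col i) * Real.log (t i) := by
  rw [om_diagonal, norm_prod, Real.log_prod]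
  · refine Finset.sum_congr rfl fun i _ => ?_
    rw [norm_zpow, Complex.norm_real, Real.norm_eq_abs, abs_of_pos (ht i), Real.log_zpow]
  · intro i _
    exact norm_ne_zero_iff.2 (zpow_ne_zero _ (by exact_mod_cast (ht i).ne'))

end Dat

theorem act_diagonal {m : ℕ} (t : I → ℂ) (ht : ∀ i, t i ≠ 0) (p : Pt I m) :
    act (diagonal t) p = (fun a => of fun i j => t i / t j * p.1 a i j, of fun i r => t i * p.2 i r) := by
  have hi : (diagonal t)⁻¹ = diagonal fun i => (t i)⁻¹ := by
    apply inv_eq_left_inv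
    rw [diagonal_mul_diagonal, ← diagonal_one]
    congr 1
    funext i
    exact inv_mul_cancel₀ (ht i)
  unfold act actR
  refine Prod.ext (funext fun a => ?_) ?_
  · ext i j
    simp only [hi, mul_diagonal, diagonal_mul, of_apply]
    ring
  · ext i r
    simp only [diagonal_mul, of_apply]

end Pool.Agent.CS
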