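import Pool.Agent.P.MP_d34769_ag.YF1a

/-! Invariance of stability, coordinate subspaces, diagonal matrices. -/

open Matrix Filter Topology

set_option linter.unusedSectionVars false

noncomputable section
namespace Pool.Agent.CS

variable {I : Type} [Fintype I] [DecidableEq I]

theorem f1_sub_sp {e : I → I → Prop} {ρ : Rp I} {F : Set I}
    (h : ∀ a i j, i ∉ F → j ∈ F → ρ a i j = 0) : SubE e ρ (sp F) := by
  refine ⟨e4_gr_sp F, fun a v hv => e4_mem_sp.2 fun i hi => ?_⟩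
  refine Finset.sum_eq_zero fun j _ => ?_
  show ρ a i j * v j = 0
  by_cases hj : j ∈ F
  · rw [h a i j hi hj, zero_mul]
  · rw [e4_mem_sp.1 hv j hj, mul_zero]

theorem f1_of_sub_sp {e : I → I → Prop} {ρ : Rp I} {F : Set I} (h : SubE e ρ (sp F)) (a : Fin 3)
    {i j : I} (hi : i ∉ F) (hj : j ∈ F) : ρ a i j = 0 := by
  have := e4_mem_sp.1 (h.st a (Pi.single j 1) (e4_mem_sp.2 fun k hk =>
    Pi.single_eq_of_ne (fun c : k = j => hk (c ▸ hj)) _)) i hi
  simpa using this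

theorem f1_map_map {g : Matrix I I ℂ} (hg : IsUnit g.det) (U : Submodule ℂ (I → ℂ)) :
    (U.map g.mulVecLin).map g⁻¹.mulVecLin = U := by
  rw [← Submodule.map_comp, ← mulVecLin_mul, nonsing_inv_mul g hg, mulVecLin_one, Submodule.map_id]

theorem f1_inj {g : Matrix I I ℂ} (hg : IsUnit g.det) : Function.Injective g.mulVecLin :=
  mulVec_injective_of_isUnit ((isUnit_iff_isUnit_det g).2 hg)

theorem nsq_diag_le {m : ℕ} (t : I → ℝ) (ht : ∀ i, 0 < t i) (c : ℝ) (p : Pt I m)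
    (h1 : ∀ a i j, p.1 a i j ≠ 0 → t i ≤ c * t j) (h2 : ∀ i r, p.2 i r ≠ 0 → t i ≤ c) :
    nsq (act (diagonal fun i => (t i : ℂ)) p) ≤ c ^ 2 * nsq p := by
  rw [act_diagonal _ (fun i => by exact_mod_cast (ht i).ne'), nsq, nsq, Finset.mul_sum]
  refine Finset.sum_le_sum fun x _ => ?_
  rcases x with ⟨a, i, j⟩ | ⟨i, r⟩
  · simp only [co, Sum.elim_inl, of_apply]
    by_cases h : p.1 a i j = 0
    · simp [h]
    rw [Complex.normSq_mul, ← Complex.ofReal_div, Complex.normSq_ofReal]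
    refine mul_le_mul_of_nonneg_right ?_ (Complex.normSq_nonneg _)
    have h3 : t i / t j ≤ c := (div_le_iff₀ (ht j)).2 (h1 a i j h)
    have h4 : 0 < t i / t j := div_pos (ht i) (ht j)
    nlinarith
  · simp only [co, Sum.elim_inr, of_apply]
    by_cases h : p.2 i r = 0
    · simp [h]
    rw [Complex.normSq_mul, Complex.normSq_ofReal]
    refine mul_le_mul_of_nonneg_right ?_ (Complex.normSq_nonneg _)
    have h3 := h2 i r h
    have h4 := ht i
    nlinarith

namespace Dat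
variable {D : Dat I} {g h : Matrix I I ℂ} {p : Pt I D.m}

theorem f1_le_base (hg : g ∈ D.P) : g ∈ D.base.P :=
  D.e4_memG.2 ⟨fun i j e => ⟨((D.e4_memP.1 hg).1 i j e).1,
    D.rl_cp (D.gl_rl ((D.e4_memP.1 hg).1 i j e).2)⟩, hg.2⟩

theorem f1_col (hg : g ∈ D.base.P) : D.Col g := Col.of_base hg.1

theorem f1_diag (D : Dat I) {t : I → ℂ} (ht : ∀ i, t i ≠ 0) : diagonal t ∈ D.P :=
  D.e4_memP.2 ⟨e4_diagonal (fun i => ⟨rfl, D.gl_refl i⟩) t, by
    rw [det_diagonal]
    exact isUnit_iff_ne_zero.2 (Finset.prod_ne_zero_iff.2 fun i _ => ht i)⟩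

theorem f1_one (D : Dat I) : (1 : Matrix I I ℂ) ∈ D.P := by
  rw [← diagonal_one]
  exact D.f1_diag fun _ => one_ne_zero

theorem f1_R (hg : g ∈ D.P) {ρ : Rp I} (hρ : ρ ∈ D.R) : actR g ρ ∈ D.R := by
  intro a i j hn
  have hi := D.e4_P_inv hg
  simp only [actR, mul_apply]
  refine Finset.sum_eq_zero fun l _ => ?_
  by_cases h3 : g⁻¹ l j = 0
  · rw [h3, mul_zero]
  rw [Finset.sum_eq_zero, zero_mul]
  intro k _
  by_cases h1 : g i k = 0
  · rw [h1, zero_mul]
  rw [hρ a k l, mul_zero]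
  intro h2
  have e1 := (D.e4_memP.1 hg).1 i k h1
  have e3 := (D.e4_memP.1 hi).1 l j h3
  exact hn ⟨e1.1.trans h2.1, e3.1.symm.trans h2.2.1,
    D.rl_trans (D.rl_trans (D.gl_rl e1.2) h2.2.2) (D.gl_rl e3.2)⟩

theorem f1_map_col (hg : g ∈ D.base.P) (v : Fin 3) :
    (sp {i | D.col i = v}).map g.mulVecLin = sp {i | D.col i = v} := by
  refine Submodule.eq_of_le_of_finrank_eq (e4_map_le fun j hj => e4_mem_sp.2 fun i hi => ?_)
    (e4_finrank_map hg.2 _)
  exact f1_col hg i j fun c => hi (c.trans hj)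

theorem f1_wt_map (hg : g ∈ D.base.P) (t : Fin 3 → ℤ) (U : Submodule ℂ (I → ℂ)) :
    D.wt t (U.map g.mulVecLin) = D.wt t U := by
  refine Finset.sum_congr rfl fun v _ => ?_
  rw [← e4_finrank_map hg.2 (U ⊓ _), Submodule.map_inf _ (f1_inj hg.2), f1_map_col hg]

theorem f1_sub_map (hg : g ∈ D.base.P) {ρ : Rp I} {U : Submodule ℂ (I → ℂ)} (hU : D.Sub ρ U) :
    D.Sub (actR g ρ) (U.map g.mulVecLin) := by
  refine ⟨e4_gr_map D.e4_cc (D.e4_memG.1 hg).1 hU.gr, ?_⟩
  rintro a _ ⟨v, hv, rfl⟩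
  refine ⟨ρ a *ᵥ v, hU.st a v hv, ?_⟩
  simp only [actR, mulVecLin_apply, mulVec_mulVec, Matrix.mul_assoc, nonsing_inv_mul g hg.2,
    Matrix.mul_one]

theorem f1_act_inv (hg : IsUnit g.det) {m : ℕ} (p : Pt I m) : act g⁻¹ (act g p) = p := by
  rw [← act_mul', nonsing_inv_mul g hg, act_one']

theorem f1_St (hg : g ∈ D.P) (hp : D.St p) : D.St (act g p) := by
  have hi := f1_le_base (D.e4_P_inv hg)
  have hs : ∀ U, D.Sub (act g p).1 U → D.Sub p.1 (U.map g⁻¹.mulVecLin) := fun U hU => by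
    have := f1_sub_map hi hU
    rwa [show actR g⁻¹ (act g p).1 = p.1 from congrArg Prod.fst (f1_act_inv hg.2 p)] at this
  refine ⟨f1_R hg hp.mem, fun U hU => ?_, fun U hU hc ht => ?_⟩
  · rw [← f1_wt_map hi]
    exact hp.ss _ (hs U hU)
  · rw [← f1_wt_map hi]
    refine hp.gen _ (hs U hU) (fun r => ⟨_, hc r, ?_⟩) fun e => ht ?_
    · have := congrArg Prod.snd (f1_act_inv hg.2 p)
      funext i
      exact congrFun (congrFun this i) r
    · apply Submodule.eq_top_of_finrank_eq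
      rw [← e4_finrank_map hi.2, e, finrank_top]

theorem f1_St_base (hp : D.St p) : D.base.St p :=
  ⟨fun a i j hn => hp.mem a i j fun c => hn ⟨c.1, c.2.1, D.rl_cp c.2.2⟩, hp.ss, hp.gen⟩

theorem f1_wt_sp (D : Dat I) (t : Fin 3 → ℤ) (F : Finset I) :
    D.wt t (sp (F : Set I)) = ∑ i ∈ F, t (D.col i) := by
  rw [← Finset.sum_fiberwise_of_maps_to (g := D.col) (t := Finset.univ) fun _ _ => Finset.mem_univ _]
  refine Finset.sum_congr rfl fun v _ => ?_
  rw [e4_sp_inf, e4_finrank_sp, Finset.sum_congr rfl (g := fun _ => t v)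
    (fun i hi => by rw [(Finset.mem_filter.1 hi).2]), Finset.sum_const, nsmul_eq_mul, mul_comm,
    ← Set.ncard_coe_finset]
  congr 3
  ext i
  simp

theorem f1_sum_th (D : Dat I) : ∑ i, D.th (D.col i) = 0 := by
  classical
  let s : Setoid I := ⟨D.cp, D.cp_eq⟩
  rw [← Finset.sum_fiberwise_of_maps_to (g := Quotient.mk s) (t := Finset.univ.image (Quotient.mk s))
    fun i hi => Finset.mem_image_of_mem _ hi]
  refine Finset.sum_eq_zero fun q hq => ?_
  obtain ⟨i, -, rfl⟩ := Finset.mem_image.1 hq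
  refine D.bal i _ fun j => ?_
  rw [Finset.mem_filter, Quotient.eq]
  exact ⟨fun h => D.cp_eq.2 h.2, fun h => ⟨Finset.mem_univ _, D.cp_eq.2 h⟩⟩

theorem f1_sum_eta (D : Dat I) (F : Finset I) :
    ∑ i ∈ F, D.eta (D.col i) = (Fintype.card I + 1) * ∑ i ∈ F, D.th (D.col i) - F.card := by
  simp only [eta, Finset.sum_sub_distrib, Finset.mul_sum, Finset.sum_const, nsmul_eq_mul, mul_one]

theorem f1_eta_pos (D : Dat I) {F : Finset I} (h : 0 < ∑ i ∈ F, D.th (D.col i)) :
    0 < ∑ i ∈ F, D.eta (D.col i) := by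
  rw [f1_sum_eta]
  have h1 : (F.card : ℤ) ≤ Fintype.card I := by exact_mod_cast Finset.card_le_univ F
  nlinarith

theorem f1_eta_neg (D : Dat I) {F : Finset I} (h : ∑ i ∈ F, D.th (D.col i) ≤ 0) (hF : F.Nonempty) :
    ∑ i ∈ F, D.eta (D.col i) < 0 := by
  rw [f1_sum_eta]
  have h1 : (0 : ℤ) < F.card := by exact_mod_cast hF.card_pos
  have h2 : (0 : ℤ) ≤ Fintype.card I := Nat.cast_nonneg _
  nlinarith

theorem f1_sp_ne_top {F : Finset I} (h : Fᶜ.Nonempty) : sp (F : Set I) ≠ ⊤ := fun e => by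
  obtain ⟨i, hi⟩ := h
  have := e4_mem_sp.1 (e ▸ Submodule.mem_top : (fun _ => (1 : ℂ)) ∈ sp (F : Set I)) i
    (by simpa using hi)
  exact one_ne_zero this

/-- the numerical criterion -/
theorem f1_layer (hp : D.St p) {σ : I → ℝ} (hσ : σ ≠ 0)
    (h1 : ∀ a i j, p.1 a i j ≠ 0 → σ i ≤ σ j) (h2 : ∀ i r, p.2 i r ≠ 0 → σ i ≤ 0) :
    0 < ∑ i, (D.eta (D.col i) : ℝ) * σ i := by
  refine layer _ σ hσ (fun l _ ⟨i, hi⟩ => ?_) fun l hl ⟨i, hi⟩ => ?_
  · have h3 := hp.ss (sp ((Finset.univ.filter fun i => σ i ≤ l : Finset I) : Set I))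
      (f1_sub_sp fun a i j hi hj => by
        by_contra h
        exact hi (by simpa using (h1 a i j h).trans (by simpa using hj)))
    rw [f1_wt_sp] at h3
    exact_mod_cast D.f1_eta_neg h3 ⟨i, by simpa using hi⟩
  · have h3 := hp.gen (sp (((Finset.univ.filter fun i => l ≤ σ i)ᶜ : Finset I) : Set I))
      (f1_sub_sp fun a i j hi hj => by
        by_contra h
        have hi' : l ≤ σ i := by simpa using hi
        have hj' : σ j < l := by simpa using hj
        linarith [h1 a i j h])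
      (fun r => e4_mem_sp.2 fun i hi => by
        by_contra h
        have hi' : l ≤ σ i := by simpa using hi
        linarith [h2 i r h])
      (f1_sp_ne_top ⟨i, by simpa using hi⟩)
    rw [f1_wt_sp] at h3
    have h4 := Finset.sum_add_sum_compl (Finset.univ.filter fun i => l ≤ σ i)
      fun i => D.th (D.col i)
    rw [f1_sum_th] at h4
    exact_mod_cast D.f1_eta_pos (F := Finset.univ.filter fun i => l ≤ σ i) (by linarith)

/-- two-valued diagonal matrices -/
theorem f1_norm_om_two (D : Dat I) (F : Finset I) {s : ℝ} (hs : 0 < s) :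
    ‖D.om (diagonal fun i => ((if i ∈ F then s else 1 : ℝ) : ℂ))‖ = s ^ ∑ i ∈ F, D.eta (D.col i) := by
  have hz : ∀ G : Finset I, s ^ ∑ i ∈ G, D.eta (D.col i) = ∏ i ∈ G, s ^ D.eta (D.col i) := by
    intro G
    induction G using Finset.induction_on with
    | empty => simp
    | insert a G ha ih => rw [Finset.sum_insert ha, Finset.prod_insert ha, zpow_add₀ hs.ne', ih]
  rw [om_diagonal, norm_prod, ← Finset.prod_mul_prod_compl F, Finset.prod_eq_one (s := Fᶜ)
    (fun i hi => by rw [if_neg (Finset.mem_compl.1 hi)]; simp), mul_one, hz]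
  refine Finset.prod_congr rfl fun i hi => ?_
  rw [if_pos hi, norm_zpow, Complex.norm_real, Real.norm_eq_abs, abs_of_pos hs]

/-- an unstable point is moved to the boundary without growth of the norm -/
theorem unst' (hp : p.1 ∈ D.base.R) (h : ¬ D.base.St p) {ε : ℝ} (hε : 0 < ε) :
    ∃ g ∈ D.base.P, nsq (act g p) ≤ nsq p ∧ ‖D.om g‖ < ε := by
  obtain ⟨U, hU, hw⟩ : ∃ U, D.Sub p.1 U ∧ (0 < D.wt D.th U ∨
      (∀ r, (fun i => p.2 i r) ∈ U) ∧ U ≠ ⊤ ∧ 0 ≤ D.wt D.th U) := by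
    by_contra hn
    refine h ⟨hp, fun U hU => ?_, fun U hU hc ht => ?_⟩
    · exact not_lt.1 fun c => hn ⟨U, hU, Or.inl c⟩
    · exact not_le.1 fun c => hn ⟨U, hU, Or.inr ⟨hc, ht, c⟩⟩
  obtain ⟨k, hk, hkc, F, rfl⟩ := e4_sub D.e4_cc hU.gr
  have hkP : k ∈ D.base.P := D.e4_memG.2 ⟨hkc, e4_unit_det hk⟩
  have hki := D.base.e4_P_inv hkP
  have hku : k⁻¹ᴴ * k⁻¹ = 1 := by
    rw [inv_of_unitary (mem_unitaryGroup_iff'.1 hk), conjTranspose_conjTranspose]
    exact mem_unitaryGroup_iff.1 hk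
  have hs := f1_sub_map hki hU
  rw [f1_map_map hkP.2] at hs
  rw [f1_wt_map hkP, f1_wt_sp] at hw
  obtain ⟨s, hs0, hs1, hs2⟩ : ∃ s : ℝ, 0 < s ∧ s ≤ 1 ∧ s < ε :=
    ⟨min 1 (ε / 2), lt_min one_pos (by linarith), min_le_left _ _,
      (min_le_right _ _).trans_lt (by linarith)⟩
  have key : ∀ t : I → ℝ, (∀ i, 0 < t i) → (∀ i j, i ∈ F ∨ j ∉ F → t i ≤ t j) →
      (∀ i r, (act k⁻¹ p).2 i r ≠ 0 → t i ≤ 1) → ‖D.om (diagonal fun i => (t i : ℂ))‖ ≤ s →
      ∃ g ∈ D.base.P, nsq (act g p) ≤ nsq p ∧ ‖D.om g‖ < ε := fun t ht h1 h2 h3 => by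
    have hd := D.base.f1_diag (t := fun i => (t i : ℂ)) fun i => by exact_mod_cast (ht i).ne'
    refine ⟨_, D.base.e4_P_mul hd hki, ?_, ?_⟩
    · have := nsq_diag_le t ht 1 (act k⁻¹ p) (fun a i j e => by
        rw [one_mul]
        refine h1 i j ?_
        by_contra c
        rw [not_or, not_not] at c
        exact e (f1_of_sub_sp hs a (by simpa using c.1) (by simpa using c.2))) h2
      rwa [nsq_unitary hku, one_pow, one_mul, ← act_mul'] at this
    · rw [(f1_col hd).om_mul, norm_mul, (f1_col hki).norm_om hku, mul_one]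
      linarith
  rcases hw with hw | ⟨hc, ht, hw⟩
  · refine key (fun i => if i ∈ F then s else 1) (fun i => by split_ifs <;> linarith)
      (fun i j e => ?_) (fun i r _ => by split_ifs <;> linarith) ?_
    · split_ifs with a b b
      · exact le_rfl
      · exact hs1
      · exact absurd e (by simp [a, b])
      · exact le_rfl
    · rw [f1_norm_om_two D F hs0]
      have := zpow_le_zpow_right_of_le_one₀ hs0 hs1 (show (1 : ℤ) ≤ _ from D.f1_eta_pos hw)
      rwa [_root_.zpow_one] at this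
  · have hi : 1 ≤ s⁻¹ := (one_le_inv₀ hs0).2 hs1
    refine key (fun i => if i ∈ Fᶜ then s⁻¹ else 1) (fun i => by split_ifs <;> linarith)
      (fun i j e => ?_) (fun i r e => ?_) ?_
    · split_ifs with a b b
      · exact le_rfl
      · exact absurd e (by simp [Finset.mem_compl.1 a, Finset.notMem_compl.1 b])
      · exact hi
      · exact le_rfl
    · rw [if_neg]
      intro c
      have h4 : (fun i => (act k⁻¹ p).2 i r) ∈ sp (F : Set I) := by
        rw [← f1_map_map hkP.2 (sp (F : Set I))]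
        exact ⟨_, hc r, rfl⟩
      exact e (e4_mem_sp.1 h4 i (by simpa using c))
    · have h4 := Finset.sum_add_sum_compl F fun i => D.th (D.col i)
      rw [f1_sum_th] at h4
      have h5 : Fᶜ.Nonempty := by
        rw [Finset.nonempty_iff_ne_empty]
        intro c
        apply ht
        apply Submodule.eq_top_of_finrank_eq
        rw [e4_finrank_map hkP.2, e4_finrank_sp, Finset.compl_eq_empty_iff] at *
        simp [c]
      have h6 := D.f1_eta_neg (F := Fᶜ) (by linarith) h5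
      rw [f1_norm_om_two D Fᶜ (inv_pos.2 hs0), _root_.inv_zpow']
      have := zpow_le_zpow_right_of_le_one₀ hs0 hs1
        (show (1 : ℤ) ≤ -∑ i ∈ Fᶜ, D.eta (D.col i) by omega)
      rwa [_root_.zpow_one] at this

end Dat

end Pool.Agent.CS
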