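import Pool.Agent.P.MP_d34769_ag.YF0
import Pool.Agent.P.MP_65ad7c_ag.LProj
import Pool.Agent.P.MP_65ad7c_ag.VPrime

/-! Averaging of polynomial maps, polynomial solutions of linear systems, an open mapping lemma. -/

open Matrix Set Filter Topology
open Pool.Agent.PWV (ZC pm)

noncomputable section
namespace Pool.Agent.CS

open MvPolynomial hiding funext

section
variable {σ τ κ : Type} [Fintype σ] [DecidableEq σ] [Fintype τ] [DecidableEq τ] [Fintype κ]
  [DecidableEq κ]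

/-- The tensor power of `(1, w)`. -/
def yf3aEv {R : Type} [CommRing R] (d : ℕ) (w : σ → R) (t : Fin d → Option σ) : R :=
  ∏ k, (t k).elim 1 w

/-- The tensor power of `1 ⊕ A`. -/
def yf3aT (d : ℕ) (A : Matrix σ σ ℂ) : Matrix (Fin d → Option σ) (Fin d → Option σ) ℂ :=
  fun t s => ∏ k, (t k).elim ((s k).elim 1 0) fun i => (s k).elim 0 (A i)

omit [DecidableEq σ] in
theorem yf3a_mul (d : ℕ) (A : Matrix σ σ ℂ) (w : σ → ℂ) :
    yf3aT d A *ᵥ yf3aEv d w = yf3aEv d (A *ᵥ w) := by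
  funext t
  simp only [mulVec, dotProduct, yf3aT, yf3aEv, ← Finset.prod_mul_distrib]
  rw [← Fintype.piFinset_univ, ← Finset.prod_univ_sum (fun _ => Finset.univ)
    fun k (o : Option σ) => (t k).elim (o.elim 1 0) (fun i => o.elim 0 (A i)) * o.elim 1 w]
  refine Finset.prod_congr rfl fun k _ => ?_
  cases t k <;> simp [Fintype.sum_option, mulVec, dotProduct]

omit [Fintype σ] [DecidableEq σ] in
theorem yf3a_star (d : ℕ) (A : Matrix σ σ ℂ) : (yf3aT d A)ᴴ = yf3aT d Aᴴ := by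
  ext t s
  simp only [conjTranspose_apply, yf3aT, star_prod]
  refine Finset.prod_congr rfl fun k _ => ?_
  cases t k <;> cases s k <;> simp

omit [Fintype σ] [DecidableEq σ] in
theorem yf3a_span (p : MvPolynomial σ ℂ) : ∀ᶠ d in atTop, (fun w => eval w p) ∈
    Submodule.span ℂ (range fun (t : Fin d → Option σ) (w : σ → ℂ) => yf3aEv d w t) := by
  induction p using MvPolynomial.induction_on with
  | C a =>
    refine Eventually.of_forall fun d => ?_
    have := Submodule.smul_mem _ a (Submodule.subset_span (R := ℂ) (mem_range_self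
      (f := fun (t : Fin d → Option σ) (w : σ → ℂ) => yf3aEv d w t) fun _ => none))
    exact mem_of_eq_of_mem (funext fun w => by simp [yf3aEv]) this
  | add p q hp hq =>
    filter_upwards [hp, hq] with d h1 h2
    exact mem_of_eq_of_mem (funext fun w => by simp) (Submodule.add_mem _ h1 h2)
  | mul_X p i hp =>
    obtain ⟨d₀, h⟩ := eventually_atTop.1 hp
    refine eventually_atTop.2 ⟨d₀ + 1, fun d hd => ?_⟩
    obtain ⟨d, rfl⟩ := Nat.exists_eq_add_one_of_ne_zero (n := d) (by omega)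
    have h1 := Submodule.mem_map_of_mem (f := LinearMap.mulRight ℂ fun w : σ → ℂ => w i)
      (h d (by omega))
    rw [Submodule.map_span] at h1
    refine mem_of_eq_of_mem (funext fun w => by simp) (Submodule.span_mono ?_ h1)
    rintro _ ⟨_, ⟨t, rfl⟩, rfl⟩
    exact ⟨Fin.cons (some i) t, funext fun w => by simp [yf3aEv, Fin.prod_univ_succ, mul_comm]⟩

omit [DecidableEq τ] in
/-- A polynomial map that is equivariant on `Z` agrees on `Z` with an equivariant one. -/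
theorem yf3a_rey (Z : Set (σ → ℂ)) (F : τ → MvPolynomial σ ℂ) : ∃ F₂ : τ → MvPolynomial σ ℂ,
    (∀ z ∈ Z, pm F₂ z = pm F z) ∧ ∀ (A : Matrix σ σ ℂ) (B : Matrix τ τ ℂ),
      (∀ z ∈ Z, A *ᵥ z ∈ Z) → (∀ z ∈ Z, Aᴴ *ᵥ z ∈ Z) →
      (∀ z ∈ Z, pm F (A *ᵥ z) = B *ᵥ pm F z) → ∀ w, pm F₂ (A *ᵥ w) = B *ᵥ pm F₂ w := by
  obtain ⟨d, hd⟩ := (eventually_all.2 fun i => yf3a_span (F i)).exists
  choose Λ hΛ using fun i => (Submodule.mem_span_range_iff_exists_fun ℂ).1 (hd i)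
  have h1 : ∀ w, pm F w = of Λ *ᵥ yf3aEv d w := fun w => funext fun i => by
    simpa [mulVec, dotProduct, pm] using (congrFun (hΛ i) w).symm
  obtain ⟨Q, hQ, -, q1, q2⟩ := PW.L.exists_proj (Submodule.span ℂ (yf3aEv d '' Z))
  have h2 : ∀ w, pm (fun i => ∑ t, C ((of Λ * Q) i t) * yf3aEv d X t) w =
      of Λ *ᵥ Q *ᵥ yf3aEv d w := fun w => funext fun i => by
    rw [mulVec_mulVec]
    simp only [pm, map_sum, map_mul, eval_C, yf3aEv, map_prod, mulVec, dotProduct]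
    refine Finset.sum_congr rfl fun t _ => congrArg _ (Finset.prod_congr rfl fun k _ => ?_)
    cases t k <;> simp
  have h3 : ∀ A : Matrix σ σ ℂ, (∀ z ∈ Z, A *ᵥ z ∈ Z) → Q * yf3aT d A * Q = yf3aT d A * Q :=
    fun A hA => PW.L.lproj_inv q1 q2 fun v hv => by
      refine (Submodule.map_span_le (yf3aT d A).mulVecLin _ _).2 ?_ ⟨v, hv, rfl⟩
      rintro _ ⟨z, hz, rfl⟩
      exact Submodule.subset_span ⟨_, hA z hz, (yf3a_mul d A z).symm⟩
  refine ⟨_, fun z hz => by rw [h2, q2 _ (Submodule.subset_span ⟨z, hz, rfl⟩), h1],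
    fun A B a1 a2 a3 w => ?_⟩
  have h4 := congrArg conjTranspose (h3 _ a2)
  simp only [conjTranspose_mul, hQ, yf3a_star, conjTranspose_conjTranspose] at h4
  have h5 : Q * yf3aT d A = yf3aT d A * Q := by rw [← h4, ← Matrix.mul_assoc, h3 A a1]
  rw [h2, h2, ← yf3a_mul, mulVec_mulVec (yf3aEv d w), h5, ← mulVec_mulVec]
  refine Submodule.span_induction (p := fun v _ => of Λ *ᵥ yf3aT d A *ᵥ v = B *ᵥ of Λ *ᵥ v)
    ?_ (by simp) (fun x y _ _ hx hy => by simp only [mulVec_add, hx, hy])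
    (fun c x _ hx => by simp only [mulVec_smul, hx]) (q1 _)
  rintro _ ⟨z, hz, rfl⟩
  rw [yf3a_mul, ← h1, ← h1, a3 z hz]

omit [DecidableEq σ] in
/-- The solution of an injective polynomial system on a closed set is polynomial. -/
theorem yf3a_cram {Z : Set (σ → ℂ)} (hZ : ZC Z) (L : Matrix τ κ (MvPolynomial σ ℂ))
    (b : τ → MvPolynomial σ ℂ) (γ : (σ → ℂ) → κ → ℂ)
    (hi : ∀ z ∈ Z, Function.Injective (L.map (eval z)).mulVec)
    (he : ∀ z ∈ Z, L.map (eval z) *ᵥ γ z = pm b z) :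
    ∃ G : κ → MvPolynomial σ ℂ, ∀ z ∈ Z, pm G z = γ z := by
  obtain ⟨S, rfl⟩ := hZ
  let J : Ideal (MvPolynomial σ ℂ) :=
    { carrier := {p | ∃ M : Matrix κ τ (MvPolynomial σ ℂ), M * L = p • 1}
      add_mem' := fun ⟨M, h⟩ ⟨M', h'⟩ => ⟨M + M', by rw [Matrix.add_mul, h, h', add_smul]⟩
      zero_mem' := ⟨0, by simp⟩
      smul_mem' := fun c p ⟨M, h⟩ => ⟨c • M, by rw [Matrix.smul_mul, h, smul_assoc]⟩ }
  have top : J ⊔ Ideal.span S = ⊤ := by
    by_contra hne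
    obtain ⟨m, hm, hle⟩ := Ideal.exists_le_maximal _ hne
    obtain ⟨x, rfl⟩ := isMaximal_iff_eq_vanishingIdeal_singleton.1 hm
    have h0 : ∀ p ∈ J ⊔ Ideal.span S, eval x p = 0 := fun p hp => by
      simpa using (mem_vanishingIdeal_singleton_iff x p).1 (hle hp)
    obtain ⟨l, hl⟩ := LinearMap.exists_leftInverse_of_injective (L.map (eval x)).toLin'
      (LinearMap.ker_eq_bot.2 (hi x fun f hf => h0 f (Ideal.mem_sup_right (Ideal.subset_span hf))))
    have h1 : LinearMap.toMatrix' l * L.map (eval x) = 1 := by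
      rw [← LinearMap.toMatrix'_toLin' (L.map (eval x)), ← LinearMap.toMatrix'_comp, hl,
        LinearMap.toMatrix'_id]
    obtain ⟨M, hM⟩ : ∃ M : Matrix κ τ (MvPolynomial σ ℂ),
        M.map (eval x) = LinearMap.toMatrix' l :=
      ⟨(LinearMap.toMatrix' l).map C, Matrix.ext fun _ _ => eval_C _⟩
    have h2 := h0 (M * L).det (Ideal.mem_sup_left
      ⟨(M * L).adjugate * M, by rw [Matrix.mul_assoc, adjugate_mul]⟩)
    rw [RingHom.map_det, RingHom.mapMatrix_apply, Matrix.map_mul, hM, h1, det_one] at h2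
    exact one_ne_zero h2
  obtain ⟨p, ⟨M, hM⟩, q, hq, e⟩ := Submodule.mem_sup.1 ((Ideal.eq_top_iff_one _).1 top)
  refine ⟨M *ᵥ b, fun z hz => ?_⟩
  have h1 : eval z q = 0 := Ideal.span_le.2 (fun f hf => (RingHom.mem_ker (f := eval z)).2 (hz f hf)) hq
  have h2 : eval z p = 1 := by simpa [h1] using congrArg (eval z) e
  have h3 : M.map (eval z) * L.map (eval z) = 1 := by
    rw [← Matrix.map_mul, hM]
    ext i j
    simp [one_apply, apply_ite, h2]
  have h4 : pm (M *ᵥ b) z = M.map (eval z) *ᵥ pm b z :=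
    funext fun i => RingHom.map_mulVec (eval z) M b i
  rw [h4, ← he z hz, mulVec_mulVec, h3, one_mulVec]

/-- A quadratic perturbation of a surjective linear map is open at zero. -/
theorem yf3a_open {E F : Type} [NormedAddCommGroup E] [NormedSpace ℂ E] [FiniteDimensional ℂ E]
    [NormedAddCommGroup F] [NormedSpace ℂ F] [FiniteDimensional ℂ F] (Λ : E →ₗ[ℂ] F)
    (B : E →ₗ[ℂ] E →ₗ[ℂ] F) (h : Function.Surjective Λ) :
    map (fun x => Λ x + B x x) (𝓝 0) = 𝓝 0 := by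
  have := FiniteDimensional.complete ℂ E
  have := FiniteDimensional.complete ℂ F
  let B' : E →L[ℂ] E →L[ℂ] F := LinearMap.toContinuousLinearMap
    ((LinearMap.toContinuousLinearMap (𝕜 := ℂ) (E := E) (F' := F)).toLinearMap ∘ₗ B)
  have h1 := (LinearMap.toContinuousLinearMap Λ).hasStrictFDerivAt (x := 0) |>.add
    (B'.hasStrictFDerivAt.clm_apply (hasStrictFDerivAt_id (0 : E)))
  have h2 := h1.map_nhds_eq_of_surj (LinearMap.range_eq_top.2 fun y => (h y).imp fun x hx => by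
    simpa using hx)
  simpa [B', Pi.add_def] using h2

end

theorem rey {σ τ : Type} [Fintype σ] [DecidableEq σ] [Fintype τ] (Z : Set (σ → ℂ))
    {F : (σ → ℂ) → τ → ℂ} (hF : ∀ t, IsPoly id fun z => F z t) :
    ∃ F' : (σ → ℂ) → τ → ℂ, (∀ t, IsPoly id fun z => F' z t) ∧ (∀ z ∈ Z, F' z = F z) ∧
      ∀ (A : Matrix σ σ ℂ) (B : Matrix τ τ ℂ), (∀ z ∈ Z, A *ᵥ z ∈ Z) → (∀ z ∈ Z, Aᴴ *ᵥ z ∈ Z) →
        (∀ z ∈ Z, F (A *ᵥ z) = B *ᵥ F z) → ∀ w, F' (A *ᵥ w) = B *ᵥ F' w := by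
  choose P hP using hF
  obtain rfl : F = pm P := funext fun z => funext fun t => hP t z
  obtain ⟨Q, h⟩ := yf3a_rey Z P
  exact ⟨pm Q, fun t => ⟨Q t, fun _ => rfl⟩, h⟩

theorem cram {σ κ τ : Type} [Finite σ] [Fintype κ] [Finite τ] {Z : Set (σ → ℂ)} (hZ : ZC Z)
    {L : (σ → ℂ) → Matrix τ κ ℂ} {b : (σ → ℂ) → τ → ℂ} {γ : (σ → ℂ) → κ → ℂ}
    (hL : ∀ t k, IsPoly id fun z => L z t k) (hb : ∀ t, IsPoly id fun z => b z t)
    (hi : ∀ z ∈ Z, ∀ u, L z *ᵥ u = 0 → u = 0) (he : ∀ z ∈ Z, L z *ᵥ γ z = b z) :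
    ∃ Γ : (σ → ℂ) → κ → ℂ, (∀ k, IsPoly id fun z => Γ z k) ∧ ∀ z ∈ Z, Γ z = γ z := by
  classical
  have := Fintype.ofFinite σ
  have := Fintype.ofFinite τ
  choose P hP using hL
  choose Q hQ using hb
  obtain rfl : L = fun z => (of P).map (eval z) := funext fun z => Matrix.ext fun t k => hP t k z
  obtain rfl : b = pm Q := funext fun z => funext fun t => hQ t z
  obtain ⟨G, h⟩ := yf3a_cram hZ (of P) Q γ (fun z hz =>
    (injective_iff_map_eq_zero ((of P).map (eval z)).mulVecLin).2 (hi z hz)) he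
  exact ⟨pm G, fun k => ⟨G k, fun _ => rfl⟩, h⟩

theorem open_quad {X Y : Type} [AddCommGroup X] [Module ℂ X] [TopologicalSpace X]
    [IsTopologicalAddGroup X] [ContinuousSMul ℂ X] [T2Space X] [FiniteDimensional ℂ X]
    [AddCommGroup Y] [Module ℂ Y] [TopologicalSpace Y] [IsTopologicalAddGroup Y]
    [ContinuousSMul ℂ Y] [T2Space Y] [FiniteDimensional ℂ Y] (Λ : X →ₗ[ℂ] Y)
    (hΛ : Function.Surjective Λ) (B : X →ₗ[ℂ] X →ₗ[ℂ] Y) :
    map (fun x => Λ x + B x x) (𝓝 0) = 𝓝 0 := by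
  let e := (Module.finBasis ℂ X).equivFunL
  let f := (Module.finBasis ℂ Y).equivFunL
  have h := yf3a_open (f.toLinearMap ∘ₗ Λ ∘ₗ e.symm.toLinearMap)
    ((B.compl₁₂ e.symm.toLinearMap e.symm.toLinearMap).compr₂ f.toLinearMap)
    (f.surjective.comp (hΛ.comp e.symm.surjective))
  have h1 : map e (𝓝 0) = 𝓝 0 := (e.toHomeomorph.map_nhds_eq 0).trans (congrArg _ (map_zero e))
  have h2 : map f.symm (𝓝 0) = 𝓝 0 :=
    (f.symm.toHomeomorph.map_nhds_eq 0).trans (congrArg _ (map_zero f.symm))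
  rw [← h2, ← h, ← h1, Filter.map_map, Filter.map_map]
  exact congrArg (Filter.map · (𝓝 0)) (funext fun x => by simp)

end Pool.Agent.CS
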