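import Pool.Agent.P.MP_d34769_ag.YF1
import Pool.Agent.P.MP_d34769_ag.YF3a
import Pool.Agent.P.MP_d34769_ag.YD1
import Pool.Agent.P.MP_d34769_ag.YE3

/-! Existence of enough semi-invariants and covariants. -/

open Matrix MvPolynomial Filter Topology
open scoped Kronecker
open Pool.Agent.PWV (ZC pm)
open Pool.Agent.PW.L (lproj_vec lproj_kron)

set_option linter.unusedSectionVars false

noncomputable section
namespace Pool.Agent.CS

variable {I : Type} [Fintype I] [DecidableEq I]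

/-- the coordinates with one more variable -/
def yf3c {m : ℕ} (z : Pt I m × ℂ) (x : Option (Co I m)) : ℂ := x.elim z.2 (co z.1)

/-- the point with given coordinates -/
def yf3d {m : ℕ} (w : Option (Co I m) → ℂ) : Pt I m × ℂ := ((coL I m).symm fun x => w (some x), w none)

theorem yf3_dc {m : ℕ} (z : Pt I m × ℂ) : yf3d (yf3c z) = z := rfl

theorem yf3_cd {m : ℕ} (w : Option (Co I m) → ℂ) : yf3c (yf3d w) = w := by
  funext x
  rcases x with _ | x | x <;> rfl

/-- the matrix of the action -/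
def yf3A (m : ℕ) (g : Matrix I I ℂ) (c : ℂ) : Matrix (Option (Co I m)) (Option (Co I m)) ℂ :=
  fun x y => match x, y with
    | none, none => c
    | some (.inl x), some (.inl y) => if x.1 = y.1 then g x.2.1 y.2.1 * g⁻¹ y.2.2 x.2.2 else 0
    | some (.inr x), some (.inr y) => if x.2 = y.2 then g x.1 y.1 else 0
    | _, _ => 0

theorem yf3_A {m : ℕ} (g : Matrix I I ℂ) (c t : ℂ) (q : Pt I m) :
    yf3A m g c *ᵥ yf3c (q, t) = yf3c (act g q, c * t) := by
  funext x
  rcases x with _ | ⟨a, i, j⟩ | ⟨i, r⟩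
  · simp [mulVec, dotProduct, yf3A, yf3c, Fintype.sum_option]
  · simp only [mulVec, dotProduct, yf3A, yf3c, co, act, actR, Fintype.sum_option,
      Fintype.sum_sum_type, Fintype.sum_prod_type, Matrix.mul_apply, Finset.sum_mul, Option.elim,
      Sum.elim_inl, zero_mul, zero_add, add_zero, Finset.sum_const_zero, ite_mul]
    rw [Finset.sum_eq_single a (fun b _ hb => by simp [hb.symm]) (by simp), Finset.sum_comm]
    simp [mul_right_comm]
  · simp [mulVec, dotProduct, yf3A, yf3c, co, act, Fintype.sum_option, Fintype.sum_prod_type,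
      Matrix.mul_apply]

theorem yf3_As (m : ℕ) (g : Matrix I I ℂ) (c : ℂ) : (yf3A m g c)ᴴ = yf3A m gᴴ (star c) := by
  ext x y
  rcases x with _ | x | x <;> rcases y with _ | y | y <;>
    simp [yf3A, ← conjTranspose_nonsing_inv, eq_comm, apply_ite (starRingEnd ℂ)]

theorem yf3_zc {σ κ : Type} {F : κ → (σ → ℂ) → ℂ} (hF : ∀ k, IsPoly id (F k)) :
    ZC {x | ∀ k, F k x = 0} := by
  choose P hP using hF
  exact ⟨Set.range P, Set.ext fun x => by simp [hP]⟩

theorem yf3_exp {m : ℕ} {F : Pt I m × ℂ → ℂ} (hF : IsPoly yf3c F) :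
    ∃ P : Polynomial (MvPolynomial (Co I m) ℂ), ∀ q t,
      F (q, t) = (P.map (eval (co q))).eval t := by
  obtain ⟨P, hP⟩ := hF
  exact ⟨_, fun q t => (hP _).trans (optionEquivLeft_elim_eval ℂ _ (co q) t P)⟩

theorem yf3_coef {κ : Type} [Fintype κ] {p : Polynomial ℂ} {q : κ → Polynomial ℂ} {B : κ → ℂ}
    {k c : ℂ} (h : ∀ t, k * p.eval (c * t) = ∑ j, B j * (q j).eval t) (n : ℕ) :
    k * (c ^ n * p.coeff n) = ∑ j, B j * (q j).coeff n := by
  have e : Polynomial.C k * p.comp (Polynomial.C c * Polynomial.X) =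
      ∑ j, Polynomial.C (B j) * q j := Polynomial.funext fun t => by
    simpa [Polynomial.eval_finsetSum] using h t
  simpa [Polynomial.comp_C_mul_X_coeff, mul_comm (c ^ n)] using congrArg (·.coeff n) e

namespace Dat
variable {D : Dat I} {p : Pt I D.m}

/-- the orbit with the character -/
def yf3O (D : Dat I) (a : ℕ) (p : Pt I D.m) : Set (Option (Co I D.m) → ℂ) :=
  {w | ∃ g ∈ D.base.P, w = yf3c (act g p, D.om g ^ a)}

theorem yf3_O {a : ℕ} (ha : 0 < a) (h : D.base.St p) : ZC (D.yf3O a p) := by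
  classical
  let u : (I × I ⊕ I × I → ℂ) → Matrix I I ℂ := fun x => of fun i j => x (.inl (i, j))
  let v : (I × I ⊕ I × I → ℂ) → Matrix I I ℂ := fun x => of fun i j => x (.inr (i, j))
  have hu : ∀ i j, IsPoly id fun x => u x i j := fun i j => IsPoly.coord (c := id) _
  have hv : ∀ i j, IsPoly id fun x => v x i j := fun i j => IsPoly.coord (c := id) _
  obtain ⟨F, hF, hF'⟩ := D.om_poly
  have hG : ∀ t, IsPoly id fun x =>
      yf3c ((fun b => u x * p.1 b * v x, u x * p.2), F (u x, v x) ^ a) t := by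
    rintro (_ | ⟨b, i, j⟩ | ⟨i, r⟩)
    · exact (hF.comp (g := fun x => (u x, v x)) (by rintro (t | t); exacts [hu _ _, hv _ _])).pow a
    · exact IsPoly.mmul (A := fun x => u x * p.1 b) (B := v)
        (IsPoly.mmul (B := fun _ => p.1 b) hu fun _ _ => IsPoly.const _) hv i j
    · exact IsPoly.mmul (B := fun _ => p.2) hu (fun _ _ => IsPoly.const _) i r
  choose G hG using hG
  have hV := yf3_zc (F := fun (k : I × I ⊕ I × I) x => k.elim
    (fun k => if D.base.gp k.1 k.2 then 0 else u x k.1 k.2)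
      fun k => (u x * v x) k.1 k.2 - (1 : Matrix I I ℂ) k.1 k.2) (by
    rintro (k | k)
    exacts [IsPoly.ite _ (IsPoly.const 0) (hu _ _), (IsPoly.mmul hu hv _ _).sub (IsPoly.const _)])
  have hc : IsClosed (D.yf3O a p) := by
    have h1 : Continuous (yf3d : _ → Pt I D.m × ℂ) :=
      ((coL I D.m).symm.toLinearMap.continuous_of_finiteDimensional.comp (by fun_prop)).prodMk
        (continuous_apply none)
    refine (congrArg IsClosed (Set.ext fun w => exists_congr fun g => and_congr_right fun _ =>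
      ⟨fun e => ?_, fun e => ?_⟩)).mp ((orb_closed ha h).preimage h1)
    · rw [← e, yf3_cd]
    · rw [e, yf3_dc]
  refine (congrArg ZC ((congrArg closure (Set.ext fun w => ⟨?_, ?_⟩)).trans hc.closure_eq)).mp
    (img_zc hV 1 G)
  · rintro ⟨x, ⟨hx, -⟩, rfl⟩
    have h1 : u x * v x = 1 := Matrix.ext fun i j => sub_eq_zero.1 (hx (.inr (i, j)))
    have h2 : u x ∈ D.base.P := ⟨fun i j hij => (if_neg hij).symm.trans (hx (.inl (i, j))),
      isUnit_det_of_right_inverse h1⟩
    refine ⟨u x, h2, funext fun t => (hG t x).symm.trans ?_⟩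
    beta_reduce
    rw [← inv_eq_right_inv h1, hF' _ h2]
    rfl
  · rintro ⟨g, hg, rfl⟩
    refine ⟨Sum.elim (fun k => g k.1 k.2) fun k => g⁻¹ k.1 k.2, ⟨?_, by simp⟩,
      funext fun t => (hG t _).symm.trans ?_⟩
    · rintro (k | k)
      · exact ite_eq_left_iff.2 (hg.1 _ _)
      · exact sub_eq_zero.2 (congrFun₂ (mul_nonsing_inv g hg.2) _ _)
    · rw [← hF' g hg]
      rfl

open Classical in
/-- the equations for an element of the group -/
def yf3L (D : Dat I) (p q : Pt I D.m) : (I × I → ℂ) →ₗ[ℂ] Co I D.m ⊕ I × I → ℂ where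
  toFun h := Sum.elim (co (fun a => lproj_vec.symm h * p.1 a - q.1 a * lproj_vec.symm h,
    lproj_vec.symm h * p.2)) fun k => if D.base.gp k.1 k.2 then 0 else h k
  map_add' h k := by
    funext x
    rcases x with (x | x) | x
    · simp only [map_add, Matrix.add_mul, Matrix.mul_add, co, Sum.elim_inl, Pi.add_apply,
        Matrix.sub_apply, Matrix.add_apply]
      ring
    · simp [Matrix.add_mul, co]
    · simp [ite_add_ite]
  map_smul' c h := by
    funext x
    rcases x with (x | x) | x <;> simp [co, mul_sub]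

theorem yf3_inj {q : Pt I D.m} (hp : D.base.St p) (hq : D.base.St q) {h : I × I → ℂ}
    (e : D.yf3L p q h = 0) : h = 0 :=
  (map_eq_zero_iff _ lproj_vec.symm.injective).1 (hp.hom0 hq
    (fun i j hij => (if_neg hij).symm.trans (congrFun e (.inr (i, j))))
    (fun a => Matrix.ext fun i j => sub_eq_zero.1 (congrFun e (.inl (.inl (a, i, j)))))
    (Matrix.ext fun i r => congrFun e (.inl (.inr (i, r)))))

open Classical in
theorem yf3_sol {g : Matrix I I ℂ} (hg : g ∈ D.base.P) : D.yf3L p (act g p) (lproj_vec g) =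
    Sum.elim (co (0, (act g p).2)) 0 := by
  funext x
  rcases x with (⟨a, i, j⟩ | x) | x
  · exact sub_eq_zero.2 (congrFun₂ (nonsing_inv_mul_cancel_right g _ hg.2).symm i j)
  · rfl
  · exact ite_eq_left_iff.2 (hg.1 _ _)

theorem gen_t {a : ℕ} (ha : 0 < a) (h : D.base.St p) :
    ∃ (u : Pt I D.m × ℂ → ℂ) (L : Pt I D.m × ℂ → Matrix I I ℂ),
      IsPoly (fun z (x : Option (Co I D.m)) => x.elim z.2 (co z.1)) u ∧
      (∀ i j, IsPoly (fun z (x : Option (Co I D.m)) => x.elim z.2 (co z.1)) fun z => L z i j) ∧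
      u (p, 1) = 1 ∧ L (p, 1) = 1 ∧ ∀ g ∈ D.base.P, ∀ q t,
        D.om g ^ a * u (act g q, D.om g ^ a * t) = u (q, t) ∧
        L (act g q, D.om g ^ a * t) = g * L (q, t) := by
  classical
  have hZ := yf3_O ha h
  have ne : ∀ g ∈ D.base.P, D.om g ^ a ≠ 0 := fun g hg => pow_ne_zero a (om_ne hg)
  obtain ⟨u, u1, u2⟩ := cram (κ := Unit) (τ := Unit) hZ (L := fun z _ _ => z none)
    (b := fun _ _ => 1) (γ := fun z _ => (z none)⁻¹) (fun _ _ => IsPoly.coord (c := id) none)
    (fun _ => IsPoly.const 1) (by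
      rintro _ ⟨g, hg, rfl⟩ v hv
      exact funext fun x => by
        simpa [mulVec, dotProduct, yf3c, om_ne hg] using congrFun hv x) (by
      rintro _ ⟨g, hg, rfl⟩
      exact funext fun x => by simp [mulVec, dotProduct, yf3c, om_ne hg])
  choose! γ γ1 γ2 using fun w (hw : w ∈ D.yf3O a p) => hw
  have hq : ∀ w ∈ D.yf3O a p, (yf3d w).1 = act (γ w) p := fun w hw =>
    congrArg (fun w => (yf3d w).1) (γ2 w hw)
  have cq : ∀ b i j, IsPoly id fun w : Option (Co I D.m) → ℂ => (yf3d w).1.1 b i j :=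
    fun b i j => IsPoly.coord (c := id) (some (Sum.inl (b, i, j)))
  obtain ⟨Γ, g1, g2⟩ := cram hZ (L := fun w => LinearMap.toMatrix' (D.yf3L p (yf3d w).1))
    (b := fun w => Sum.elim (co (0, (yf3d w).1.2)) 0) (γ := fun w => lproj_vec (γ w)) (by
      rintro ((⟨b, i, j⟩ | x) | x) k
      · exact (IsPoly.const _).sub (IsPoly.mmul (B := fun _ => lproj_vec.symm _) (cq b)
          (fun _ _ => IsPoly.const _) i j)
      · exact IsPoly.const _
      · exact IsPoly.const _) (by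
      rintro ((x | x) | x)
      exacts [IsPoly.const 0, IsPoly.coord (c := id) (some (Sum.inr x)), IsPoly.const 0])
    (fun w hw v hv => yf3_inj h (hq w hw ▸ h.act (γ1 w hw))
      ((LinearMap.toMatrix'_mulVec _ _).symm.trans hv))
    fun w hw => by rw [LinearMap.toMatrix'_mulVec, hq w hw, yf3_sol (γ1 w hw)]
  have g3 : ∀ g ∈ D.base.P, Γ (yf3c (act g p, D.om g ^ a)) = lproj_vec g := fun g hg => by
    have a1 : yf3c (act g p, D.om g ^ a) ∈ D.yf3O a p := ⟨g, hg, rfl⟩
    have a2 : act g p = act (γ _) p := hq _ a1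
    rw [g2 _ a1, ← h.free hg (γ1 _ a1) a2]
  have mv : ∀ g ∈ D.base.P, ∀ k ∈ D.base.P, yf3A D.m g (D.om g ^ a) *ᵥ yf3c (act k p, D.om k ^ a) =
      yf3c (act (g * k) p, D.om (g * k) ^ a) := fun g hg k hk => by
    rw [yf3_A, act_mul, om_mul hg hk, mul_pow]
  have m1 : ∀ g ∈ D.base.P, ∀ w ∈ D.yf3O a p, yf3A D.m g (D.om g ^ a) *ᵥ w ∈ D.yf3O a p := by
    rintro g hg _ ⟨k, hk, rfl⟩
    exact ⟨_, mul_mem_P hg hk, mv g hg k hk⟩
  have m2 : ∀ g ∈ D.base.P, ∀ w ∈ D.yf3O a p, (yf3A D.m g (D.om g ^ a))ᴴ *ᵥ w ∈ D.yf3O a p :=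
    fun g hg => by
      rw [yf3_As, star_pow, ← om_star hg]
      exact m1 _ (star_mem_P hg)
  have one : yf3c (p, 1) = yf3c (act 1 p, D.om 1 ^ a) := by rw [act_one, om_one, one_pow]
  have one' : yf3c (p, 1) ∈ D.yf3O a p := ⟨1, D.base.one_mem_P, one⟩
  obtain ⟨u', a1, a2, a3⟩ := rey (D.yf3O a p) u1
  obtain ⟨Γ', b1, b2, b3⟩ := rey (D.yf3O a p) g1
  refine ⟨fun z => u' (yf3c z) (), fun z => lproj_vec.symm (Γ' (yf3c z)),
    (a1 ()).comp fun t => IsPoly.coord t, fun i j => (b1 (i, j)).comp fun t => IsPoly.coord t,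
    ?_, ?_, fun g hg q t => ⟨?_, ?_⟩⟩
  · beta_reduce
    rw [a2 _ one', u2 _ one']
    exact inv_one
  · beta_reduce
    rw [b2 _ one', one, g3 _ (D.base.one_mem_P), LinearEquiv.symm_apply_apply]
  · beta_reduce
    rw [← yf3_A, a3 _ (fun _ _ => (D.om g ^ a)⁻¹) (m1 g hg) (m2 g hg) fun w hw => ?_]
    · simp [mulVec, dotProduct, om_ne hg]
    · rw [u2 _ (m1 g hg w hw), u2 _ hw, ← yf3_cd w, yf3_A]
      exact funext fun _ => by simp [mulVec, dotProduct, yf3c, mul_comm]
  · beta_reduce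
    rw [← yf3_A, b3 _ (g ⊗ₖ 1) (m1 g hg) (m2 g hg) ?_, LinearEquiv.symm_apply_eq, ← lproj_kron,
      LinearEquiv.apply_symm_apply]
    rintro _ ⟨k, hk, rfl⟩
    rw [mv g hg k hk, g3 _ (mul_mem_P hg hk), g3 k hk, lproj_kron]

theorem gen_s (h : D.base.St p) : ∃ (a : ℕ) (s : Pt I D.m → ℂ), 0 < a ∧ IsPoly co s ∧ s p ≠ 0 ∧
    ∀ g ∈ D.base.P, ∀ q, D.om g ^ a * s (act g q) = s q := by
  obtain ⟨u, L, h1, -, h2, -, h3⟩ := gen_t one_pos h
  obtain ⟨P, hP⟩ := yf3_exp h1
  obtain ⟨n, hn⟩ : ∃ n, (P.map (eval (co p))).coeff n ≠ 0 := by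
    by_contra hc
    rw [hP, show P.map (eval (co p)) = 0 from Polynomial.ext fun n =>
      by_contra fun e => hc ⟨n, e⟩, Polynomial.eval_zero] at h2
    exact zero_ne_one h2
  refine ⟨n + 1, fun q => eval (co q) (P.coeff n), n.succ_pos, IsPoly.ev _,
    by rwa [Polynomial.coeff_map] at hn, fun g hg q => ?_⟩
  have := yf3_coef (κ := Unit) (B := fun _ => 1) (q := fun _ => P.map (eval (co q)))
    (fun t => by simpa only [hP, Fintype.sum_unique, one_mul] using (h3 g hg q t).1) n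
  simpa [pow_succ', mul_assoc] using this

theorem gen_l (h : D.base.St p) : ∃ (A : ℕ) (s : Pt I D.m → ℂ) (l : Pt I D.m → Matrix I I ℂ),
    0 < A ∧ IsPoly co s ∧ (∀ i j, IsPoly co fun q => l q i j) ∧ s p ≠ 0 ∧ IsUnit (l p).det ∧
    ∀ g ∈ D.base.P, ∀ q, D.om g ^ A * s (act g q) = s q ∧
      D.om g ^ A • l (act g q) = g * l q := by
  obtain ⟨a, s, ha, s1, s2, s3⟩ := gen_s h
  obtain ⟨u, L, -, h1, -, h2, h3⟩ := gen_t ha h
  choose P hP using fun i j => yf3_exp (h1 i j)
  obtain ⟨d, hd⟩ : ∃ d, ∀ k : I × I, (P k.1 k.2).natDegree ≤ d :=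
    ⟨_, fun k => Finset.le_sup (f := fun k : I × I => (P k.1 k.2).natDegree) (Finset.mem_univ k)⟩
  refine ⟨a * (d + 1), fun q => s q ^ (d + 1), fun q => of fun i j => ∑ n ∈ Finset.range (d + 1),
    ((s p)⁻¹ * s q) ^ (d + 1 - n) * eval (co q) ((P i j).coeff n), Nat.mul_pos ha d.succ_pos,
    s1.pow _, fun i j => IsPoly.sum (Finset.range (d + 1)) fun n _ =>
      (((IsPoly.const (s p)⁻¹).mul s1).pow (d + 1 - n)).mul (IsPoly.ev ((P i j).coeff n)),
    pow_ne_zero _ s2, ?_, fun g hg q => ⟨by rw [pow_mul, ← mul_pow, s3 g hg], ?_⟩⟩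
  · refine (congrArg (fun M : Matrix I I ℂ => IsUnit M.det) (h2.symm.trans
      (Matrix.ext fun i j => ?_))).mp (by simp)
    rw [hP, Polynomial.eval_eq_sum_range' (Nat.lt_succ_of_le
      (Polynomial.natDegree_map_le.trans (hd (i, j))))]
    simp [inv_mul_cancel₀ s2]
  · ext i j
    simp only [Matrix.smul_apply, of_apply, smul_eq_mul, Matrix.mul_apply, Finset.mul_sum]
    rw [Finset.sum_comm]
    refine Finset.sum_congr rfl fun n hn => ?_
    have := yf3_coef (k := 1) (B := g i) (q := fun k => (P k j).map (eval (co q)))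
      (p := (P i j).map (eval (co (act g q)))) (c := D.om g ^ a) (fun t => by
        simpa only [hP, one_mul, Matrix.mul_apply] using congrFun₂ (h3 g hg q t).2 i j) n
    simp only [Polynomial.coeff_map, one_mul] at this
    obtain ⟨e, he⟩ := Nat.exists_eq_add_of_le (Finset.mem_range.1 hn).le
    simp only [mul_left_comm (g i _), ← Finset.mul_sum, ← this, ← s3 g hg q, he,
      Nat.add_sub_cancel_left]
    ring

theorem nonempty_uni (D : Dat I) : Nonempty D.base.Uni := by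
  choose! A s l hA s1 l1 s2 l2 eq using fun (p : Pt I D.m) (h : D.base.St p) => gen_l h
  obtain ⟨t, ht, hc⟩ := (LL_compact (D := D)).elim_nhds_subcover
    (fun p => {q | s p q ≠ 0 ∧ (l p q).det ≠ 0}) fun p hp =>
      (((s1 p (LL_st hp)).continuous continuous_co).continuousAt.eventually_ne
        (s2 p (LL_st hp))).and (((IsPoly.det (l1 p (LL_st hp))).continuous
          continuous_co).continuousAt.eventually_ne (l2 p (LL_st hp)).ne_zero)
  let e : Fin t.card → Pt I D.m := fun k => t.equivFin.symm k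
  have st : ∀ k, D.base.St (e k) := fun k => LL_st (ht _ (t.equivFin.symm k).2)
  have hB : 0 < ∏ k, A (e k) := Finset.prod_pos fun k _ => hA _ (st k)
  have dv : ∀ k, ∃ n, ∏ k, A (e k) = A (e k) * (n + 1) := fun k => by
    obtain ⟨n, hn⟩ := Finset.dvd_prod_of_mem (fun k => A (e k)) (Finset.mem_univ k)
    obtain ⟨n, rfl⟩ := Nat.exists_eq_add_one_of_ne_zero (n := n) fun e => by simp [hn, e] at hB
    exact ⟨n, hn⟩
  choose n hn using dv
  choose S hS using fun k => (s1 _ (st k)).pow (n k + 1)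
  choose L hL using fun k i j => ((s1 _ (st k)).pow (n k)).mul (l1 _ (st k) i j)
  have hL' : ∀ k q, (of (L k)).map (eval (co q)) = s (e k) q ^ n k • l (e k) q := fun k q =>
    Matrix.ext fun i j => (hL k i j q).symm
  have hS' : ∀ k q, eval (co q) (S k) = s (e k) q ^ (n k + 1) := fun k q => (hS k q).symm
  have e1 : ∀ g ∈ D.base.P, ∀ q k, D.om g ^ (∏ k, A (e k)) * eval (co (act g q)) (S k) =
      eval (co q) (S k) := fun g hg q k => by
    rw [hS', hS', hn k, pow_mul, ← mul_pow, (eq _ (st k) g hg q).1]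
  have e2 : ∀ g ∈ D.base.P, ∀ q k, D.om g ^ (∏ k, A (e k)) •
      (of (L k)).map (eval (co (act g q))) = g * (of (L k)).map (eval (co q)) := fun g hg q k => by
    rw [hL', hL', Matrix.mul_smul, ← (eq _ (st k) g hg q).2, ← (eq _ (st k) g hg q).1, hn k,
      smul_smul, smul_smul]
    congr 1
    ring
  have e3 : ∀ q : Pt I D.m, D.base.St q →
      ∃ k, eval (co q) (S k) ≠ 0 ∧ IsUnit ((of (L k)).map (eval (co q))).det := fun q hq => by
    obtain ⟨g, hg, h1⟩ : ∃ g ∈ D.base.P, act g q ∈ D.LL := exists_LL hq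
    obtain ⟨x, hx, h2, h3⟩ := Set.mem_iUnion₂.1 (hc h1)
    obtain ⟨k, rfl⟩ : ∃ k, x = e k := ⟨t.equivFin ⟨x, hx⟩, by simp [e]⟩
    have c0 : D.om g ^ (∏ k, A (e k)) ≠ 0 := pow_ne_zero _ (om_ne hg)
    refine ⟨k, ?_, isUnit_iff_ne_zero.2 fun e0 => ?_⟩
    · rw [← e1 g hg q k, hS']
      exact mul_ne_zero c0 (pow_ne_zero _ h2)
    · have := congrArg det (e2 g hg q k)
      rw [det_mul, e0, mul_zero, hL', det_smul, det_smul] at this
      exact mul_ne_zero (pow_ne_zero _ c0) (mul_ne_zero (pow_ne_zero _ (pow_ne_zero _ h2)) h3) this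
  exact ⟨⟨t.card, ∏ k, A (e k), S, fun k => of (L k), hB, e1, e2, e3⟩⟩

end Dat

end Pool.Agent.CS
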