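import Pool.Agent.P.MP_d34769_ag.YF0

/-! Derivatives of polynomials by dual numbers. -/

open Matrix MvPolynomial Filter Topology

noncomputable section
namespace Pool.Agent.CS

/-- evaluation at `x + ε u` -/
def dl {σ : Type} (x u : σ → ℂ) : MvPolynomial σ ℂ →+* DualNumber ℂ :=
  eval₂Hom (algebraMap ℂ _) fun i => TrivSqZeroExt.inl (x i) + TrivSqZeroExt.inr (u i)

theorem dl_fst {σ : Type} (x u : σ → ℂ) (P : MvPolynomial σ ℂ) : (dl x u P).fst = eval x P := by
  induction P using MvPolynomial.induction_on with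
  | C a => simp [dl, TrivSqZeroExt.algebraMap_eq_inl]
  | add p q hp hq => simp only [map_add, TrivSqZeroExt.fst_add, hp, hq]
  | mul_X p i hp =>
    rw [map_mul, map_mul, TrivSqZeroExt.fst_mul, hp]
    simp [dl]

/-- a coordinate of a linear map -/
def yf3bC {σ : Type} {e : ℕ} (L : (Fin e → ℂ) →ₗ[ℂ] σ → ℂ) (i : σ) : (Fin e → ℂ) →L[ℂ] ℂ :=
  LinearMap.toContinuousLinearMap (LinearMap.proj (R := ℂ) (φ := fun _ : σ => ℂ) i ∘ₗ L)

theorem an_aff {σ : Type} {e : ℕ} (x : σ → ℂ) (L : (Fin e → ℂ) →ₗ[ℂ] σ → ℂ) (P : MvPolynomial σ ℂ)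
    (z : Fin e → ℂ) : AnalyticAt ℂ (fun n => eval (x + L n) P) z := by
  induction P using MvPolynomial.induction_on with
  | C a => simpa only [eval_C] using analyticAt_const
  | add p q hp hq => simpa only [map_add] using hp.fun_add hq
  | mul_X p i hp =>
    simp only [map_mul, eval_X]
    exact hp.fun_mul (analyticAt_const.fun_add ((yf3bC L i).analyticAt z))

theorem dl_snd {σ : Type} {e : ℕ} (x : σ → ℂ) (L : (Fin e → ℂ) →ₗ[ℂ] σ → ℂ) (P : MvPolynomial σ ℂ)
    (v : Fin e → ℂ) : fderiv ℂ (fun n => eval (x + L n) P) 0 v = (dl x (L v) P).snd := by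
  induction P using MvPolynomial.induction_on with
  | C a => simp [dl, TrivSqZeroExt.algebraMap_eq_inl]
  | add p q hp hq =>
    simp only [map_add, TrivSqZeroExt.snd_add, ← hp, ← hq]
    rw [fderiv_fun_add (an_aff x L p 0).differentiableAt (an_aff x L q 0).differentiableAt]
    rfl
  | mul_X p i hp =>
    have h : HasFDerivAt (fun n => (x + L n) i) _ 0 := (yf3bC L i).hasFDerivAt.const_add (x i)
    simp only [map_mul, eval_X]
    rw [((an_aff x L p 0).differentiableAt.hasFDerivAt.fun_mul h).fderiv, DualNumber.snd_mul,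
      dl_fst, ← hp]
    simp [dl, mul_comm, yf3bC]

end Pool.Agent.CS
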