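import Pool.Agent.P.MP_d34769_ag.YF0
import Pool.Agent.P.MP_d34769_ag.YFPL

/-! The big matrix and the projective embedding separate orbits, over every ring. -/

open Matrix Classical

set_option linter.unusedSectionVars false

noncomputable section
namespace Pool.Agent.CS

variable {I : Type} [Fintype I] [DecidableEq I]

namespace Dat
variable (D : Dat I)

theorem gp_rfl (i : I) : D.gp i i := ⟨rfl, D.gl_refl i⟩

theorem cc_rfl (i : I) : D.cc i i := ⟨rfl, D.cp_eq.1 i⟩

variable {D}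

theorem gp.trans' {i j k : I} (h : D.gp i j) (h' : D.gp j k) : D.gp i k :=
  ⟨h.1.trans h'.1, D.gl_trans h.2 h'.2⟩

theorem gp.to_cc {i j : I} (h : D.gp i j) : D.cc i j := ⟨h.1, D.rl_cp (D.gl_rl h.2)⟩

theorem cc.symm' {i j : I} (h : D.cc i j) : D.cc j i := ⟨h.1.symm, D.cp_eq.2 h.2⟩

theorem cc.trans' {i j k : I} (h : D.cc i j) (h' : D.cc j k) : D.cc i k :=
  ⟨h.1.trans h'.1, D.cp_eq.3 h.2 h'.2⟩

variable (D)

/-- every class has a first element -/
theorem exists_first (i : I) : ∃ i₀, ∀ j, D.cc i j ↔ D.gp i₀ j := by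
  obtain ⟨a, ha, hm⟩ := Finset.exists_max_image (Finset.univ.filter fun j => D.cc i j)
    (fun j => (Finset.univ.filter fun k => D.gp j k).card) ⟨i, by simpa using D.cc_rfl i⟩
  simp only [Finset.mem_filter, Finset.mem_univ, true_and] at ha hm
  refine ⟨a, fun j => ⟨fun hj => ?_, fun hj => ha.trans' hj.to_cc⟩⟩
  have hc := ha.symm'.trans' hj
  refine (D.tot a j hc.1 hc.2).elim (fun h => ⟨hc.1, h⟩) fun h => ?_
  have := Finset.eq_of_subset_of_card_le (s := Finset.univ.filter fun k => D.gp a k)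
    (t := Finset.univ.filter fun k => D.gp j k)
    (fun k hk => by
      simp only [Finset.mem_filter, Finset.mem_univ, true_and] at hk ⊢
      exact gp.trans' ⟨hc.1.symm, h⟩ hk) (hm j hj)
  have hj' : j ∈ Finset.univ.filter fun k => D.gp j k := by simpa using D.gp_rfl j
  rw [← this] at hj'
  simpa using hj'

/-- the inclusion of the indices after `i` -/
abbrev vl (i : I) : {j // D.gp i j} → I := Subtype.val

variable {R S : Type} [CommRing R] [CommRing S] {N : ℕ}

/-- the big matrix before it is split into classes -/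
def raw {m : ℕ} (s : Fin N → R) (l : Fin N → Matrix I I R) (ρ : Fin 3 → Matrix I I R)
    (f : Matrix I (Fin m) R) : Matrix I (Fin N × (I ⊕ (Fin 3 × I) ⊕ Fin m)) R :=
  of fun i c => Sum.elim (l c.1 i) (Sum.elim (fun x => (ρ x.1 * l c.1) i x.2)
    fun r => s c.1 * f i r) c.2

variable {D} {s s' : Fin N → R} {l l' : Fin N → Matrix I I R} {ρ ρ' : Fin 3 → Matrix I I R}
  {f f' : Matrix I (Fin D.m) R} {g : Matrix I I R}

theorem Phi_apply (i : I) (c : Cn N I D.m) :
    D.Phi s l ρ f i c = if D.cc i c.2 then raw s l ρ f i c.1 else 0 := rfl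

theorem mul_Phi (hg : ∀ i j, ¬ D.cc i j → g i j = 0) (i : I) (c : Cn N I D.m) :
    (g * D.Phi s l ρ f) i c = if D.cc i c.2 then (g * raw s l ρ f) i c.1 else 0 := by
  simp only [mul_apply, Phi_apply]
  split_ifs with h
  · refine Finset.sum_congr rfl fun j _ => ?_
    by_cases hj : D.cc i j
    · rw [if_pos (hj.symm'.trans' h)]
    · simp [hg i j hj]
  · refine Finset.sum_eq_zero fun j _ => ?_
    by_cases hj : D.cc i j
    · rw [if_neg fun e => h (hj.trans' e), mul_zero]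
    · simp [hg i j hj]

theorem raw_eq_iff : raw s' l' ρ' f' = g * raw s l ρ f ↔ (∀ k, l' k = g * l k) ∧
    (∀ a k, ρ' a * l' k = g * (ρ a * l k)) ∧ ∀ k, s' k • f' = g * (s k • f) := by
  constructor
  · intro h
    exact ⟨fun k => Matrix.ext fun i j => congrFun (congrFun h i) (k, .inl j),
      fun a k => Matrix.ext fun i j => congrFun (congrFun h i) (k, .inr (.inl (a, j))),
      fun k => Matrix.ext fun i r => congrFun (congrFun h i) (k, .inr (.inr r))⟩
  · rintro ⟨h1, h2, h3⟩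
    ext i ⟨k, j | ⟨a, j⟩ | r⟩
    exacts [congrFun (congrFun (h1 k) i) j, congrFun (congrFun (h2 a k) i) j,
      congrFun (congrFun (h3 k) i) r]

theorem Phi_eq_iff (hg : ∀ i j, ¬ D.cc i j → g i j = 0) :
    D.Phi s' l' ρ' f' = g * D.Phi s l ρ f ↔ (∀ k, l' k = g * l k) ∧
      (∀ a k, ρ' a * l' k = g * (ρ a * l k)) ∧ ∀ k, s' k • f' = g * (s k • f) := by
  rw [← raw_eq_iff]
  constructor
  · intro h
    ext i c
    have := congrFun (congrFun h i) (c, i)
    rwa [mul_Phi hg, Phi_apply, if_pos (D.cc_rfl i), if_pos (D.cc_rfl i)] at this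
  · intro h
    ext i c
    rw [mul_Phi hg, Phi_apply, h]

theorem Phi_act {c : R} (hg : ∀ i j, ¬ D.cc i j → g i j = 0) (hs : ∀ k, s' k = c * s k)
    (hl : ∀ k, l' k = c • (g * l k)) (hρ : ∀ a, ρ' a * g = g * ρ a) (hf : f' = g * f) :
    D.Phi s' l' ρ' f' = (c • g) * D.Phi s l ρ f := by
  refine (Phi_eq_iff fun i j h => by simp [hg i j h]).2 ⟨fun k => ?_, fun a k => ?_, fun k => ?_⟩
  · rw [hl, Matrix.smul_mul]
  · rw [hl, Matrix.mul_smul, ← Matrix.mul_assoc, hρ, Matrix.smul_mul, Matrix.mul_assoc]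
  · rw [hs, hf, Matrix.smul_mul, Matrix.mul_smul, mul_smul]

theorem Phi_map (φ : R →+* S) : D.Phi (fun k => φ (s k)) (fun k => (l k).map φ)
    (fun a => (ρ a).map φ) (f.map φ) = (D.Phi s l ρ f).map φ := by
  ext i ⟨⟨k, j | ⟨a, j⟩ | r⟩, c⟩ <;> simp only [map_apply, Phi_apply] <;> split_ifs <;>
    simp [raw, mul_apply]

theorem ThR_map (φ : R →+* S) (x : D.Tn N) : D.ThR (fun k => φ (s k)) (fun k => (l k).map φ)
    (fun a => (ρ a).map φ) (f.map φ) x = φ (D.ThR s l ρ f x) := by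
  simp only [ThR, Phi_map, map_mul, map_prod, RingHom.map_det]
  rfl

theorem sub_mul_gp {C : Type} (hg : ∀ i j, ¬ D.gp i j → g i j = 0) (A : Matrix I C R) (i : I) :
    (g * A).submatrix (D.vl i) id = g.submatrix (D.vl i) (D.vl i) * A.submatrix (D.vl i) id := by
  ext a c
  simp only [submatrix_apply, Matrix.mul_apply, id]
  rw [← Finset.sum_subtype (Finset.univ.filter fun j => D.gp i j) (by simp)
    fun j => g a j * A j c, Finset.sum_filter]
  refine Finset.sum_congr rfl fun j _ => ?_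
  split_ifs with h
  · rfl
  · rw [hg a j fun e => h (a.2.trans' e), zero_mul]

/-- the weight of the embedding -/
def chi (D : Dat I) (g : Matrix I I R) : R := ∏ i, (g.submatrix (D.vl i) (D.vl i)).det

theorem isUnit_det_gp (hg : ∀ i j, ¬ D.gp i j → g i j = 0) (hu : IsUnit g.det) (i : I) :
    IsUnit (g.submatrix (D.vl i) (D.vl i)).det := by
  rw [twoBlockTriangular_det' g (D.gp i) fun a ha b hb => hg a b fun e => hb (ha.trans' e)] at hu
  exact isUnit_of_mul_isUnit_left hu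

theorem isUnit_chi (hg : ∀ i j, ¬ D.gp i j → g i j = 0) (hu : IsUnit g.det) :
    IsUnit (D.chi g) := IsUnit.prod_univ_iff.2 (isUnit_det_gp hg hu)

theorem minor_act {C : Type} (hg : ∀ i j, ¬ D.gp i j → g i j = 0) (A : Matrix I C R) (i : I)
    (J : {j // D.gp i j} → C) : ((g * A).submatrix (D.vl i) J).det =
      (g.submatrix (D.vl i) (D.vl i)).det * (A.submatrix (D.vl i) J).det := by
  have := det_sub_mul (g.submatrix (D.vl i) (D.vl i)) (A.submatrix (D.vl i) id) J
  rw [← sub_mul_gp hg A i] at this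
  exact this

theorem ThR_act {c : R} (hg : ∀ i j, ¬ D.gp i j → g i j = 0) (hs : ∀ k, s' k = c * s k)
    (h : D.Phi s' l' ρ' f' = g * D.Phi s l ρ f) (x : D.Tn N) :
    D.ThR s' l' ρ' f' x = c * D.chi g * D.ThR s l ρ f x := by
  simp only [ThR, chi, h, hs, minor_act hg, Finset.prod_mul_distrib]
  ring

theorem s_ne_of_ThR {x : D.Tn N} (h : D.ThR s l ρ f x ≠ 0) : s x.1 ≠ 0 := left_ne_zero_of_mul h

theorem exists_ThR_ne [IsDomain R] {k : Fin N} (hs : s k ≠ 0) (hl : IsUnit (l k).det) :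
    ∃ x : D.Tn N, x.1 = k ∧ D.ThR s l ρ f x ≠ 0 := by
  have : ∀ i, ∃ J : {j // D.gp i j} → Cn N I D.m,
      ((D.Phi s l ρ f).submatrix Subtype.val J).det ≠ 0 := fun i => by
    obtain ⟨J, hJ⟩ := exists_minor_ne (A := (l k).submatrix (D.vl i) id)
      (M := (l k)⁻¹.submatrix id (D.vl i)) (by
        rw [← submatrix_mul _ _ _ _ _ Function.bijective_id, mul_nonsing_inv _ hl,
          submatrix_one _ Subtype.val_injective])
    refine ⟨fun j => ((k, .inl (J j)), i), fun e => hJ (Eq.trans (congrArg det ?_) e)⟩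
    symm
    ext a b
    simp only [submatrix_apply, Phi_apply, if_pos a.2.to_cc.symm']
    rfl
  choose J hJ using this
  exact ⟨(k, J), rfl, mul_ne_zero hs (Finset.prod_ne_zero_iff.2 fun i _ => hJ i)⟩

theorem Phi_cancel {x : D.Tn N} (hx : IsUnit (D.ThR s l ρ f x))
    (hg : ∀ i j, ¬ D.cc i j → g i j = 0) (h : g * D.Phi s l ρ f = 0) : g = 0 := by
  ext i j
  by_cases hj : D.cc i j
  swap
  · exact hg i j hj
  obtain ⟨a, ha⟩ := D.exists_first i
  have hu := IsUnit.prod_univ_iff.1 (isUnit_of_mul_isUnit_right hx) a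
  have h0 : (fun b : {j // D.gp a j} => g i b) ᵥ*
      (D.Phi s l ρ f).submatrix Subtype.val (x.2 a) = 0 := by
    ext b
    refine Eq.trans ?_ (congrFun (congrFun h i) (x.2 a b))
    rw [Matrix.mul_apply]
    simp only [vecMul, dotProduct, submatrix_apply]
    rw [← Finset.sum_subtype (Finset.univ.filter fun j => D.gp a j) (by simp)
      fun j => g i j * D.Phi s l ρ f j (x.2 a b), Finset.sum_filter]
    refine Finset.sum_congr rfl fun c _ => ?_
    split_ifs with e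
    · rfl
    · rw [hg i c fun e' => e ((ha c).1 e'), zero_mul]
  have h1 := congrArg (· ᵥ* ((D.Phi s l ρ f).submatrix Subtype.val (x.2 a))⁻¹) h0
  simp only [vecMul_vecMul, mul_nonsing_inv _ hu, vecMul_one, zero_vecMul] at h1
  exact congrFun h1 ⟨j, (ha j).1 hj⟩

theorem mul_pat {e : I → I → Prop} (he : ∀ {i j k}, e i j → e j k → e i k) {g h : Matrix I I R}
    (hg : ∀ i j, ¬ e i j → g i j = 0) (hh : ∀ i j, ¬ e i j → h i j = 0) (i j : I)
    (hij : ¬ e i j) : (g * h) i j = 0 := by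
  rw [Matrix.mul_apply]
  refine Finset.sum_eq_zero fun k _ => ?_
  by_cases c : e i k
  · rw [hh k j fun c' => hij (he c c'), mul_zero]
  · rw [hg i k c, zero_mul]

theorem key_aux {x₀ : D.Tn N} (h₁ : IsUnit (D.ThR s l ρ f x₀))
    (h₂ : IsUnit (D.ThR s' l' ρ' f' x₀))
    (h : ∀ x, D.ThR s' l' ρ' f' x * D.ThR s l ρ f x₀ = D.ThR s l ρ f x * D.ThR s' l' ρ' f' x₀) :
    ∃ g : Matrix I I R, (∀ i j, ¬ D.gp i j → g i j = 0) ∧
      D.Phi s' l' ρ' f' = g * D.Phi s l ρ f := by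
  have u₁ := isUnit_of_mul_isUnit_right h₁
  have u₂ := isUnit_of_mul_isUnit_right h₂
  have ht := tens_prop (σ := fun i => {j // D.gp i j} → Cn N I D.m)
    (a := fun i J => ((D.Phi s l ρ f).submatrix Subtype.val J).det)
    (b := fun i J => ((D.Phi s' l' ρ' f').submatrix Subtype.val J).det) (J0 := x₀.2) u₁ u₂
    fun J => by
      apply ((isUnit_of_mul_isUnit_left h₁).mul (isUnit_of_mul_isUnit_left h₂)).mul_left_cancel
      have := h (x₀.1, J)
      simp only [ThR] at this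
      linear_combination this
  have : ∀ i, ∃ G : Matrix {j // D.gp i j} {j // D.gp i j} R, IsUnit G.det ∧
      (D.Phi s' l' ρ' f').submatrix (D.vl i) id =
        G * (D.Phi s l ρ f).submatrix (D.vl i) id := fun i =>
    pl (J0 := x₀.2 i) (IsUnit.prod_univ_iff.1 u₁ i) (IsUnit.prod_univ_iff.1 u₂ i) (ht i)
  choose G _ hG using this
  refine ⟨of fun i j => if e : D.gp i j then G i ⟨i, D.gp_rfl i⟩ ⟨j, e⟩ else 0,
    fun i j e => dif_neg e, ?_⟩
  ext i c
  refine (congrFun (congrFun (hG i) ⟨i, D.gp_rfl i⟩) c).trans ?_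
  rw [Matrix.mul_apply, Matrix.mul_apply]
  simp only [submatrix_apply, id, of_apply]
  rw [← Finset.sum_subset (Finset.subset_univ (Finset.univ.filter fun j => D.gp i j))
    (fun j _ e => by rw [dif_neg (by simpa using e), zero_mul]),
    Finset.sum_subtype (p := fun j => D.gp i j) _ (by simp)]
  exact Finset.sum_congr rfl fun j _ => by rw [dif_pos j.2]

/-- proportional embeddings come from the group -/
theorem key {x₀ : D.Tn N} (h₁ : IsUnit (D.ThR s l ρ f x₀)) (h₂ : IsUnit (D.ThR s' l' ρ' f' x₀))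
    (h : ∀ x, D.ThR s' l' ρ' f' x * D.ThR s l ρ f x₀ = D.ThR s l ρ f x * D.ThR s' l' ρ' f' x₀) :
    ∃ (c : R) (g : Matrix I I R), IsUnit c ∧ IsUnit g.det ∧ (∀ i j, ¬ D.gp i j → g i j = 0) ∧
      (∀ k, s' k = c * s k) ∧ D.Phi s' l' ρ' f' = g * D.Phi s l ρ f := by
  obtain ⟨g, hg, e⟩ := key_aux h₁ h₂ h
  obtain ⟨g', hg', e'⟩ := key_aux h₂ h₁ fun x => (h x).symm
  obtain ⟨u, hu⟩ := isUnit_of_mul_isUnit_left h₁
  refine ⟨s' x₀.1 * ↑u⁻¹, g, (isUnit_of_mul_isUnit_left h₂).mul u⁻¹.isUnit,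
    isUnit_det_of_left_inverse (B := g') (sub_eq_zero.1 (Phi_cancel h₁ (fun i j c => ?_) ?_)), hg,
    fun k => ?_, e⟩
  · rw [Matrix.sub_apply, mul_pat gp.trans' hg' hg i j fun c' => c c'.to_cc, one_apply_ne, sub_zero]
    rintro rfl
    exact c (D.cc_rfl i)
  · rw [Matrix.sub_mul, Matrix.mul_assoc, ← e, ← e', Matrix.one_mul, sub_self]
  · apply (u.isUnit.mul ((isUnit_of_mul_isUnit_right h₁).mul
      (isUnit_of_mul_isUnit_right h₂))).mul_left_cancel
    have := h (k, x₀.2)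
    simp only [ThR, ← hu] at this
    have hi := u.mul_inv
    linear_combination this - (s k * s' x₀.1 *
      (∏ i, ((D.Phi s l ρ f).submatrix Subtype.val (x₀.2 i)).det) *
      ∏ i, ((D.Phi s' l' ρ' f').submatrix Subtype.val (x₀.2 i)).det) * hi

theorem key' {x₀ : D.Tn N} (h₁ : IsUnit (D.ThR s l ρ f x₀)) (h₂ : IsUnit (D.ThR s' l' ρ' f' x₀))
    (h : ∀ x, D.ThR s' l' ρ' f' x * D.ThR s l ρ f x₀ = D.ThR s l ρ f x * D.ThR s' l' ρ' f' x₀)
    {k : Fin N} (hs : IsUnit (s k)) (hl : IsUnit (l k).det) :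
    ∃ (c : R) (g : Matrix I I R), IsUnit c ∧ IsUnit g.det ∧ (∀ i j, ¬ D.gp i j → g i j = 0) ∧
      (∀ k, s' k = c * s k) ∧ (∀ k, l' k = c • (g * l k)) ∧ (∀ a, ρ' a * g = g * ρ a) ∧
        f' = g * f := by
  obtain ⟨c, g, ⟨u, rfl⟩, hu, hg, e, hP⟩ := key h₁ h₂ h
  obtain ⟨e₁, e₂, e₃⟩ := (Phi_eq_iff fun i j c => hg i j fun c' => c c'.to_cc).1 hP
  refine ⟨u, (↑u⁻¹ : R) • g, u.isUnit, ?_, fun i j c => by simp [hg i j c], e, fun k => ?_,
    fun a => ?_, ?_⟩
  · rw [det_smul]; exact (u⁻¹.isUnit.pow _).mul hu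
  · rw [e₁, Matrix.smul_mul, smul_smul, u.mul_inv, one_smul]
  · rw [Matrix.mul_smul, Matrix.smul_mul]
    congr 1
    have := congrArg (· * (l k)⁻¹) (e₂ a k)
    simpa only [e₁, Matrix.mul_assoc, mul_nonsing_inv _ hl, Matrix.mul_one] using this
  · apply (u.isUnit.mul hs).smul_left_cancel.1
    rw [← e, e₃, e, Matrix.smul_mul, Matrix.mul_smul, smul_smul]
    congr 1
    rw [mul_right_comm, u.mul_inv, one_mul]

end Dat

end Pool.Agent.CS
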