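import Pool.Agent.P.MP_d34769_ag.YF3
import Pool.Agent.P.MP_d34769_ag.YF3b
import Pool.Agent.P.MP_d34769_ag.YFK

/-! The projective embedding of the space of orbits. -/

open Matrix MvPolynomial Filter Topology

set_option linter.unusedSectionVars false

noncomputable section
namespace Pool.Agent.CS

variable {I : Type} [Fintype I] [DecidableEq I]

namespace Dat
variable (D : Dat I)

/-- the chosen generators -/
def uni : D.base.Uni := Classical.choice D.nonempty_uni

/-- their number -/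
def nU : ℕ := D.uni.N

/-- the semi-invariants as polynomials -/
def sP : Fin D.nU → MvPolynomial (Co I D.m) ℂ := D.uni.sP

/-- the covariants as polynomials -/
def lP : Fin D.nU → Matrix I I (MvPolynomial (Co I D.m) ℂ) := D.uni.lP

/-- the semi-invariants -/
def sv (p : Pt I D.m) (k : Fin D.nU) : ℂ := eval (co p) (D.sP k)

/-- the covariants -/
def lv (p : Pt I D.m) (k : Fin D.nU) : Matrix I I ℂ := (D.lP k).map (eval (co p))

/-- the big matrix at a point -/
def Phv (p : Pt I D.m) : Matrix I (Cn D.nU I D.m) ℂ := D.Phi (D.sv p) (D.lv p) p.1 p.2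

/-- the number of homogeneous coordinates -/
def M : ℕ := Nat.card (D.Tn D.nU)

open Classical in
/-- a numbering of the homogeneous coordinates -/
def tix : D.Tn D.nU ≃ Fin D.M := Finite.equivFin _

/-- the homogeneous coordinates as polynomials -/
def ThP (x : Fin D.M) : MvPolynomial (Co I D.m) ℂ :=
  D.ThR D.sP D.lP (fun a => of fun i j => X (.inl (a, i, j))) (of fun i r => X (.inr (i, r)))
    (D.tix.symm x)

/-- the homogeneous coordinates -/
def Th (p : Pt I D.m) : Fin D.M → ℂ := fun x => eval (co p) (D.ThP x)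

variable {D} {p q : Pt I D.m} {g : Matrix I I ℂ}

theorem uni_pos : 0 < D.uni.A := D.uni.hA

theorem sv_act (hg : g ∈ D.base.P) (p : Pt I D.m) (k : Fin D.nU) :
    D.om g ^ D.uni.A * D.sv (act g p) k = D.sv p k := D.uni.s_act g hg p k

theorem lv_act (hg : g ∈ D.base.P) (p : Pt I D.m) (k : Fin D.nU) :
    D.om g ^ D.uni.A • D.lv (act g p) k = g * D.lv p k := D.uni.l_act g hg p k

theorem uni_gen (h : D.base.St p) : ∃ k, D.sv p k ≠ 0 ∧ IsUnit (D.lv p k).det := D.uni.gen p h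

theorem sv_poly (k : Fin D.nU) : IsPoly co fun p => D.sv p k := IsPoly.ev _

theorem lv_poly (k : Fin D.nU) (i j : I) : IsPoly co fun p => D.lv p k i j := IsPoly.ev _

theorem Th_poly (x : Fin D.M) : IsPoly co fun p => D.Th p x := IsPoly.ev _

theorem Phv_poly (i : I) (c : Cn D.nU I D.m) : IsPoly co fun p => D.Phv p i c := by
  classical
  obtain ⟨⟨k, c⟩, i'⟩ := c
  simp only [Phv, Phi_apply]
  refine IsPoly.ite _ ?_ (IsPoly.const 0)
  rcases c with j | ⟨a, j⟩ | r
  exacts [lv_poly k i j, IsPoly.mmul (IsPoly.rho a) (lv_poly k) i j,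
    (sv_poly k).mul (IsPoly.fr i r)]

theorem ThP_map {R : Type} [CommRing R] (φ : MvPolynomial (Co I D.m) ℂ →+* R) (x : Fin D.M) :
    φ (D.ThP x) = D.ThR (fun k => φ (D.sP k)) (fun k => (D.lP k).map φ)
      (fun a => of fun i j => φ (X (.inl (a, i, j)))) (of fun i r => φ (X (.inr (i, r))))
      (D.tix.symm x) := (ThR_map φ _).symm

theorem Th_eq (p : Pt I D.m) (x : Fin D.M) :
    D.Th p x = D.ThR (D.sv p) (D.lv p) p.1 p.2 (D.tix.symm x) := by
  rw [Th, ThP_map]
  simp only [eval_X]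
  rfl

theorem st_of_sv (hp : p.1 ∈ D.R) {k : Fin D.nU} (h : D.sv p k ≠ 0) : D.St p := by
  by_contra hs
  obtain ⟨C, hC⟩ := unst (D := D) (p := p) (fun a i j hn => hp a i j fun c =>
    hn ⟨c.1, c.2.1, D.rl_cp c.2.2⟩) fun c => hs ⟨hp, c.ss, c.gen⟩
  obtain ⟨B, hB⟩ := (compact_nsq (I := I) (m := D.m) C).exists_bound_of_continuousOn
    ((sv_poly (D := D) k).continuous continuous_co).continuousOn
  have h1 : Tendsto (fun ε : ℝ => ε ^ D.uni.A * B) (𝓝[>] 0) (𝓝 (0 ^ D.uni.A * B)) :=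
    (((continuous_pow _).mul continuous_const).tendsto 0).mono_left nhdsWithin_le_nhds
  rw [zero_pow uni_pos.ne', zero_mul] at h1
  refine h (norm_le_zero_iff.1 (ge_of_tendsto h1 (eventually_mem_nhdsWithin.mono fun ε hε => ?_)))
  obtain ⟨g, hg, h2, h3⟩ := hC ε hε
  rw [← sv_act hg p k, norm_mul, norm_pow]
  exact mul_le_mul (pow_le_pow_left₀ (norm_nonneg _) h3.le _) (hB _ h2) (norm_nonneg _)
    (pow_nonneg (le_of_lt hε) _)

theorem sv_act' (hg : g ∈ D.base.P) (p : Pt I D.m) (k : Fin D.nU) :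
    D.sv (act g p) k = (D.om g ^ D.uni.A)⁻¹ * D.sv p k := by
  rw [← sv_act hg p k, inv_mul_cancel_left₀ (pow_ne_zero _ (om_ne hg))]

theorem Phv_act' (hg : g ∈ D.base.P) (p : Pt I D.m) :
    D.Phv (act g p) = ((D.om g ^ D.uni.A)⁻¹ • g) * D.Phv p := by
  refine Phi_act hg.1 (sv_act' hg p) (fun k => ?_) (fun a => ?_) rfl
  · rw [← lv_act hg p k, inv_smul_smul₀ (pow_ne_zero _ (om_ne hg))]
  · exact nonsing_inv_mul_cancel_right _ _ hg.2

theorem Phv_act (hg : g ∈ D.base.P) (p : Pt I D.m) :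
    D.om g ^ D.uni.A • D.Phv (act g p) = g * D.Phv p := by
  rw [Phv_act' hg, Matrix.smul_mul, smul_inv_smul₀ (pow_ne_zero _ (om_ne hg))]

theorem Th_ne (h : D.St p) : D.Th p ≠ 0 := fun e => by
  obtain ⟨k, hs, hl⟩ := uni_gen (f1_St_base h)
  obtain ⟨x, -, hx⟩ := exists_ThR_ne (D := D) (ρ := p.1) (f := p.2) hs hl
  have := congrFun e (D.tix x)
  rw [Th_eq, Equiv.symm_apply_apply] at this
  exact hx this

theorem st_of_Th (hp : p.1 ∈ D.R) (h : D.Th p ≠ 0) : D.St p := by
  obtain ⟨x, hx⟩ := Function.ne_iff.1 h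
  rw [Th_eq] at hx
  exact st_of_sv hp (s_ne_of_ThR hx)

theorem Th_act' (hg : g ∈ D.P) (p : Pt I D.m) : D.Th (act g p) =
    ((D.om g ^ D.uni.A)⁻¹ * D.chi ((D.om g ^ D.uni.A)⁻¹ • g)) • D.Th p := by
  ext x
  rw [Pi.smul_apply, Th_eq, Th_eq]
  exact ThR_act (fun i j e => by simp [hg.1 i j e]) (sv_act' (f1_le_base hg) p)
    (Phv_act' (f1_le_base hg) p) _

theorem Th_act (hg : g ∈ D.P) : ∃ c : ℂ, c ≠ 0 ∧ ∀ p, D.Th (act g p) = c • D.Th p := by
  have h0 := inv_ne_zero (pow_ne_zero D.uni.A (om_ne (f1_le_base hg)))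
  refine ⟨_, mul_ne_zero h0 (isUnit_chi (fun i j e => by simp [hg.1 i j e]) ?_).ne_zero, Th_act' hg⟩
  rw [det_smul]
  exact (h0.isUnit.pow _).mul hg.2

theorem om_scalar {c : ℂ} (hc : c ≠ 0) : D.om (diagonal fun _ => c) = (c ^ Fintype.card I)⁻¹ := by
  have h : ∀ F : Finset I, ∏ i ∈ F, c ^ D.eta (D.col i) = c ^ ∑ i ∈ F, D.eta (D.col i) :=
    fun F => by
      induction F using Finset.induction_on with
      | empty => simp
      | insert a F ha ih => rw [Finset.prod_insert ha, Finset.sum_insert ha, ih, zpow_add₀ hc]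
  rw [om_diagonal, h, f1_sum_eta, f1_sum_th]
  simp

theorem Th_smul [Nonempty I] : ∃ e : ℕ, 0 < e ∧ ∀ (c : ℂ) (p : Pt I D.m),
    D.Th (p.1, c • p.2) = c ^ e • D.Th p := by
  classical
  refine ⟨Fintype.card I * D.uni.A +
    ∑ i, (Fintype.card I * D.uni.A + 1) * Fintype.card {j // D.gp i j},
    Nat.add_pos_left (Nat.mul_pos Fintype.card_pos uni_pos) _, fun c p => ?_⟩
  ext x
  refine congrFun (Continuous.ext_on (dense_compl_singleton (0 : ℂ))
    (f := fun c : ℂ => D.Th (p.1, c • p.2) x) (g := fun c : ℂ => (c ^ _ • D.Th p) x)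
    (((Th_poly x).continuous continuous_co).comp (by fun_prop)) (by fun_prop) fun c hc => ?_) c
  have hc : c ≠ 0 := hc
  have h1 : act (diagonal fun _ => c) p = (p.1, c • p.2) := by
    rw [← smul_one_eq_diagonal]
    refine Prod.ext (funext fun a => ?_) (by simp [act])
    have : IsUnit (c • (1 : Matrix I I ℂ)).det := by simp [hc]
    simp only [act, actR]
    rw [Matrix.smul_mul, Matrix.one_mul, ← Matrix.mul_one (p.1 a), ← Matrix.mul_smul,
      Matrix.mul_one, mul_nonsing_inv_cancel_right _ _ this]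
  beta_reduce
  rw [← h1, Th_act' (D.f1_diag fun _ => hc), om_scalar hc, inv_pow, inv_inv, ← pow_mul,
    ← smul_one_eq_diagonal, smul_smul, ← pow_succ, pow_add c _ (Finset.sum _ _),
    ← Finset.prod_pow_eq_pow_sum, chi]
  refine congrArg (fun z : ℂ => ((_ * z) • D.Th p) x) (Finset.prod_congr rfl fun i _ => ?_)
  rw [submatrix_smul, Pi.smul_apply, Pi.smul_apply, submatrix_one _ Subtype.val_injective,
    det_smul, det_one, mul_one, pow_mul]

theorem Th_inj (hp : D.St p) (hq : D.St q) {c : ℂ} (h : D.Th q = c • D.Th p) :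
    ∃ g ∈ D.P, q = act g p := by
  obtain ⟨x, hx⟩ := Function.ne_iff.1 (Th_ne hp)
  have hc : c ≠ 0 := fun e => Th_ne hq (by rw [h, e, zero_smul])
  have hx' : D.Th q x ≠ 0 := by rw [h]; exact mul_ne_zero hc hx
  obtain ⟨k, hs, hl⟩ := uni_gen (f1_St_base hp)
  have h' : ∀ y, D.ThR (D.sv q) (D.lv q) q.1 q.2 y = c * D.ThR (D.sv p) (D.lv p) p.1 p.2 y :=
    fun y => by
      simpa only [Pi.smul_apply, Th_eq, Equiv.symm_apply_apply, smul_eq_mul]
        using congrFun h (D.tix y)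
  rw [Th_eq] at hx hx'
  obtain ⟨_, g, -, hu, hg, -, -, h1, h2⟩ := key' (Ne.isUnit hx) (Ne.isUnit hx')
    (fun y => by rw [h', h']; ring) hs.isUnit hl
  refine ⟨g, ⟨hg, hu⟩, Prod.ext (funext fun a => ?_) h2⟩
  simp only [act, actR]
  rw [← h1, mul_nonsing_inv_cancel_right _ _ hu]

theorem co_aff {e : ℕ} (p : Pt I D.m) (L : (Fin e → ℂ) →ₗ[ℂ] Pt I D.m) (n : Fin e → ℂ) :
    co (p + L n) = co p + ((coL I D.m).toLinearMap ∘ₗ L) n := map_add (coL I D.m) _ _

theorem Th_an {e : ℕ} (p : Pt I D.m) (L : (Fin e → ℂ) →ₗ[ℂ] Pt I D.m) (z : Fin e → ℂ) :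
    AnalyticAt ℂ (fun n => D.Th (p + L n)) z := by
  refine analyticAt_pi_iff.2 fun x => ?_
  simp only [Th, co_aff]
  exact an_aff _ _ _ _

theorem Th_imm (hp : D.St p) {e : ℕ} (L : (Fin e → ℂ) →ₗ[ℂ] Pt I D.m) {v : Fin e → ℂ} {c : ℂ}
    (h : fderiv ℂ (fun n => D.Th (p + L n)) 0 v = c • D.Th p) : ∃ u ∈ D.Lie, D.inf p u = L v := by
  open TrivSqZeroExt in
  obtain ⟨x, hx⟩ := Function.ne_iff.1 (Th_ne hp)
  obtain ⟨k, hs, hl⟩ := uni_gen (f1_St_base hp)
  have h0 : ∀ P, (dl (co p) 0 P).snd = 0 := fun P => by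
    simpa using (dl_snd (co p) ((coL I D.m).toLinearMap ∘ₗ L) P 0).symm
  have h1 : ∀ y, (dl (co p) (co (L v)) (D.ThP y)).snd = c * D.Th p y := fun y => by
    have := (DFunLike.congr_fun (fderiv_apply (Th_an p L 0).differentiableAt y) v).trans
      (congrFun h y)
    simp only [Th, co_aff, dl_snd] at this
    exact this
  have hu : ∀ z : DualNumber ℂ, z.fst ≠ 0 → IsUnit z := fun z e => isUnit_iff_isUnit_fst.2 e.isUnit
  have hm : ∀ u k, ((D.lP k).map (dl (co p) u)).map (fstHom ℂ ℂ ℂ) = D.lv p k := fun u k =>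
    Matrix.ext fun i j => dl_fst _ _ _
  have hk := key' (D := D) (x₀ := D.tix.symm x) (k := k)
    (hu _ (by rw [← ThP_map (dl (co p) 0), dl_fst]; exact hx))
    (hu _ (by rw [← ThP_map (dl (co p) (co (L v))), dl_fst]; exact hx))
    (fun y => by
      rw [← D.tix.symm_apply_apply y]
      simp only [← ThP_map]
      ext
      · simp only [fst_mul, dl_fst]
      · simp only [DualNumber.snd_mul, dl_fst, h0, h1, Th]; ring)
    (hu _ (by rw [dl_fst]; exact hs))
    (hu _ (by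
      rw [← fstHom_apply ℂ, AlgHom.map_det, AlgHom.mapMatrix_apply, hm]; exact hl.ne_zero))
  obtain ⟨c', g, -, -, hg, e1, e2, e3, e4⟩ := hk
  have c1 : c'.fst = 1 := by
    have := congrArg fst (e1 k)
    rw [fst_mul, dl_fst, dl_fst] at this
    exact (mul_eq_right₀ hs).1 this.symm
  have g1 : g.map (fstHom ℂ ℂ ℂ) = 1 := by
    have := congrArg (·.map (fstHom ℂ ℂ ℂ)) (e2 k)
    simp only [hm] at this
    rw [Matrix.map_smul' _ _ _ (map_mul _), Matrix.map_mul, hm, fstHom_apply, c1, one_smul] at this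
    rw [← mul_nonsing_inv_cancel_right _ (g.map _) hl, ← this, mul_nonsing_inv _ hl]
  have g2 : ∀ i j, (g i j).fst = (1 : Matrix I I ℂ) i j := fun i j => congrFun (congrFun g1 i) j
  refine ⟨g.map snd, fun i j e => by simp [hg i j e], Prod.ext (funext fun a => ?_) ?_⟩
  · ext i j
    have := congrArg snd (congrFun (congrFun (e3 a) i) j)
    simp [Matrix.mul_apply, snd_sum, dl, g2, co, one_apply, Finset.sum_add_distrib] at this
    simp [inf, Matrix.mul_apply]
    linear_combination -this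
  · ext i r
    have := congrArg snd (congrFun (congrFun e4 i) r)
    simp [Matrix.mul_apply, snd_sum, dl, g2, co] at this
    simp [inf, Matrix.mul_apply]
    linear_combination -this

theorem st_ev (hp : D.St p) : ∀ᶠ q in 𝓝 p, q ∈ D.V → D.St q :=
  Eventually.mono (D.unst_closed.isOpen_compl.mem_nhds fun e => e.2 hp) fun _ e hq =>
    by_contra fun c => e ⟨hq.1, c⟩

end Dat

end Pool.Agent.CS
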