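import Pool.Agent.P.MP_d34769_ag.YF4
import Pool.Agent.P.MP_d34769_ag.YE3
import Pool.Agent.P.MP_65ad7c_ag.XI4

/-! The space of orbits of stable framed representations is a projective manifold. -/

open Matrix Filter Topology Set
open Pool.Agent.HT (Amb proj)
open Pool.Agent.HIR (Mf HolP)

set_option linter.unusedSectionVars false

noncomputable section
namespace Pool.Agent.CS

variable {I I' I'' : Type} [Fintype I] [DecidableEq I] [Fintype I'] [DecidableEq I'] [Fintype I'']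
  [DecidableEq I'']

/-- a product of submodules -/
def prodSub {A B : Type} [AddCommGroup A] [Module ℂ A] [AddCommGroup B] [Module ℂ B]
    (U : Submodule ℂ A) (W : Submodule ℂ B) : U.prod W ≃ₗ[ℂ] U × W where
  toFun x := (⟨x.1.1, x.2.1⟩, ⟨x.1.2, x.2.2⟩)
  invFun y := ⟨(y.1.1, y.2.1), y.1.2, y.2.2⟩
  map_add' _ _ := rfl
  map_smul' _ _ := rfl
  left_inv _ := rfl
  right_inv _ := rfl

namespace Dat
variable (D : Dat I)

/-- the point of projective space of a framed representation -/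
def pt0 (p : Pt I D.m) : Amb D.M := proj (D.Th p)

/-- the space of orbits -/
def XS : Set (Amb D.M) := D.pt0 '' {p | D.St p}

/-- a representative of an orbit -/
def sec (x : Amb D.M) : Pt I D.m := Function.invFunOn D.pt0 {p | D.St p} x

/-- the dimension -/
def dim : ℕ := Module.finrank ℂ D.V - Module.finrank ℂ D.Lie

/-- `L` parametrises a complement of the tangent space of the orbit -/
structure Slice (p : Pt I D.m) (L : (Fin D.dim → ℂ) →ₗ[ℂ] Pt I D.m) : Prop where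
  mem : ∀ n, L n ∈ D.V
  ind : ∀ u ∈ D.Lie, ∀ n, D.inf p u = L n → n = 0

variable {D} {D' : Dat I'} {D'' : Dat I''} {p q : Pt I D.m} {g : Matrix I I ℂ} {x : Amb D.M}

theorem pt0_mem (h : D.St p) : D.pt0 p ∈ D.XS := ⟨p, h, rfl⟩

/-- the orbit of a stable point -/
def pt (p : Pt I D.m) (h : D.St p) : D.XS := ⟨D.pt0 p, pt0_mem h⟩

theorem sec_st (h : x ∈ D.XS) : D.St (D.sec x) := Function.invFunOn_mem h

theorem pt0_sec (h : x ∈ D.XS) : D.pt0 (D.sec x) = x := Function.invFunOn_eq h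

theorem pt_sec (x : D.XS) : pt (D.sec x) (sec_st x.2) = x := Subtype.ext (pt0_sec x.2)

theorem exists_pt (x : D.XS) : ∃ p h, pt p h = x := ⟨_, _, pt_sec x⟩

theorem pt0_act (hg : g ∈ D.P) (p : Pt I D.m) : D.pt0 (act g p) = D.pt0 p := by
  obtain ⟨c, hc, e⟩ := Th_act hg
  rw [pt0, e, HIR.proj_smul hc]
  rfl

theorem pt0_eq_iff (hp : D.St p) (hq : D.St q) : D.pt0 p = D.pt0 q ↔ ∃ g ∈ D.P, q = act g p := by
  constructor
  · intro e
    obtain ⟨c, -, e⟩ := (HIR.proj_eq_iff (Th_ne hp) (Th_ne hq)).1 e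
    exact Th_inj hp hq e
  · rintro ⟨g, hg, rfl⟩
    exact (pt0_act hg p).symm

theorem pt_eq_iff (hp : D.St p) (hq : D.St q) : pt p hp = pt q hq ↔ ∃ g ∈ D.P, q = act g p :=
  Subtype.ext_iff.trans (pt0_eq_iff hp hq)

theorem sec_pt0 (hp : D.St p) : ∃ g ∈ D.P, D.sec (D.pt0 p) = act g p :=
  (pt0_eq_iff hp (sec_st (pt0_mem hp))).1 (pt0_sec (pt0_mem hp)).symm

theorem pt0_cont (hp : D.St p) : ContinuousAt D.pt0 p :=
  (HIR.cont_proj (Th_ne hp)).comp
    (continuous_pi fun x => (Th_poly x).continuous continuous_co).continuousAt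

theorem exists_cpt (D : Dat I) : ∃ K, IsCompact K ∧ (∀ p ∈ K, D.St p) ∧ D.pt0 '' K = D.XS := by
  have hs : ∀ p ∈ D.LL ∩ {p | p.1 ∈ D.R}, D.St p := fun p hp =>
    ⟨hp.2, (LL_st hp.1).ss, (LL_st hp.1).gen⟩
  refine ⟨D.LL ∩ {p | p.1 ∈ D.R}, LL_compact.inter_right D.f1_closed_R, hs,
    (image_mono hs).antisymm ?_⟩
  rintro _ ⟨p, hp, rfl⟩
  obtain ⟨g, hg, h⟩ := exists_LL hp
  exact ⟨act g p, ⟨h, f1_R hg hp.mem⟩, pt0_act hg p⟩

theorem XS_compact (D : Dat I) : IsCompact D.XS := by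
  obtain ⟨K, hK, hs, e⟩ := D.exists_cpt
  rw [← e]
  exact hK.image_of_continuousOn fun p hp => (pt0_cont (hs p hp)).continuousWithinAt

instance (D : Dat I) : CompactSpace D.XS := isCompact_iff_compactSpace.1 D.XS_compact

theorem nhds_map (hp : D.St p) : map D.pt0 (𝓝[{q | D.St q}] p) = 𝓝[D.XS] D.pt0 p := by
  refine le_antisymm ((pt0_cont hp).continuousWithinAt.tendsto_nhdsWithin fun q hq => pt0_mem hq) ?_
  obtain ⟨K, hK, hs, e⟩ := D.exists_cpt
  refine le_iff_ultrafilter.2 fun U hU => ?_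
  have h1 : ∀ᶠ x in (U : Filter (Amb D.M)), ∃ k, k ∈ K ∧ D.pt0 k = x :=
    mem_of_superset (hU self_mem_nhdsWithin) fun x hx => by rwa [← e] at hx
  obtain ⟨k, hk⟩ := h1.choice
  obtain ⟨k0, h0, h2⟩ := hK.ultrafilter_le_nhds' (U.map k) (mem_map.2 (hk.mono fun _ c => c.1))
  have h3 : Tendsto k U (𝓝 k0) := h2
  have h4 : D.pt0 k0 = D.pt0 p := tendsto_nhds_unique (l := (U : Filter (Amb D.M))) (f := id)
    (Tendsto.congr' (hk.mono fun _ c => c.2) ((pt0_cont (hs k0 h0)).tendsto.comp h3))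
    (hU.trans nhdsWithin_le_nhds)
  obtain ⟨g, hg, rfl⟩ := (pt0_eq_iff (hs k0 h0) hp).1 h4
  have h5 : Tendsto (fun x => act g (k x)) U (𝓝[{q | D.St q}] act g k0) :=
    tendsto_nhdsWithin_iff.2 ⟨((f1_continuous_act g).tendsto k0).comp h3,
      hk.mono fun _ c => f1_St hg (hs _ c.1)⟩
  exact Tendsto.congr' (f₂ := id) (hk.mono fun x c => (pt0_act hg (k x)).trans c.2)
    (tendsto_map.comp h5)

theorem desc_eq {Y : Type} {f : Pt I D.m → Y} (hi : ∀ p, D.St p → ∀ g ∈ D.P, f (act g p) = f p)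
    (hp : D.St p) : f (D.sec (D.pt0 p)) = f p := by
  obtain ⟨g, hg, e⟩ := sec_pt0 hp
  rw [e, hi p hp g hg]

theorem desc_contOn {Y : Type} [TopologicalSpace Y] {f : Pt I D.m → Y}
    (hi : ∀ p, D.St p → ∀ g ∈ D.P, f (act g p) = f p) (hc : ContinuousOn f {p | D.St p}) :
    ContinuousOn (fun x => f (D.sec x)) D.XS := by
  rintro _ ⟨p, hp, rfl⟩
  rw [ContinuousWithinAt, ← nhds_map hp, tendsto_map'_iff, desc_eq hi hp]
  exact Tendsto.congr' (mem_of_superset self_mem_nhdsWithin fun q hq => (desc_eq hi hq).symm)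
    (hc p hp)

theorem desc_cont {Y : Type} [TopologicalSpace Y] {f : Pt I D.m → Y}
    (hi : ∀ p, D.St p → ∀ g ∈ D.P, f (act g p) = f p) (hc : ContinuousOn f {p | D.St p}) :
    Continuous fun x : D.XS => f (D.sec x) :=
  continuousOn_iff_continuous_restrict.1 (desc_contOn hi hc)

theorem cont_pt {Y : Type} [TopologicalSpace Y] {f : Y → Pt I D.m} (hf : Continuous f)
    (h : ∀ y, D.St (f y)) : Continuous fun y => pt (f y) (h y) :=
  (continuous_iff_continuousAt.2 fun y => (pt0_cont (h y)).comp hf.continuousAt).subtype_mk _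

theorem inf_mem (hp : p.1 ∈ D.R) {u : Matrix I I ℂ} (hu : u ∈ D.Lie) : D.inf p u ∈ D.V := by
  refine ⟨?_, trivial⟩
  have h1 := D.R.sub_mem (mul_mem_R hu D.one_mem_Lie hp) (mul_mem_R D.one_mem_Lie hu hp)
  simp only [Matrix.mul_one, Matrix.one_mul] at h1
  exact h1

theorem inf_inj (hp : D.St p) {u : Matrix I I ℂ} (hu : u ∈ D.Lie) (h : D.inf p u = 0) : u = 0 :=
  St.hom0 hp hp (D.Lie_le hu) (fun a => sub_eq_zero.1 (congrFun (congrArg Prod.fst h) a))
    (congrArg Prod.snd h)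

/-- the infinitesimal action with values in the ambient space -/
def infV (hp : p.1 ∈ D.R) : D.Lie →ₗ[ℂ] D.V :=
  ((D.inf p).domRestrict D.Lie).codRestrict D.V fun u => inf_mem hp u.2

theorem infV_inj (hp : D.St p) : Function.Injective (infV hp.mem) :=
  (injective_iff_map_eq_zero _).2 fun u h =>
    Subtype.ext (inf_inj hp u.2 (congrArg Subtype.val h))

theorem dim_add' (hp : D.St p) : D.dim + Module.finrank ℂ D.Lie = Module.finrank ℂ D.V :=
  Nat.sub_add_cancel (LinearMap.finrank_le_finrank_of_injective (infV_inj hp))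

theorem dim_add (hp : D.St p) : D.dim + Nat.card {x : I × I // D.gp x.1 x.2} =
    Nat.card {x : Fin 3 × I × I // D.ap x.1 x.2.1 x.2.2} + Fintype.card I * D.m := by
  rw [← D.finrank_Lie, ← D.finrank_R, dim_add' hp, V,
    (prodSub D.R (⊤ : Submodule ℂ (Matrix I (Fin D.m) ℂ))).finrank_eq,
    Module.finrank_prod, finrank_top, Module.finrank_matrix]
  simp

theorem exists_slice (hp : D.St p) : ∃ L, D.Slice p L := by
  obtain ⟨C, hC⟩ := (LinearMap.range (infV hp.mem)).exists_isCompl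
  have h1 := Submodule.finrank_add_eq_of_isCompl hC
  rw [LinearMap.finrank_range_of_inj (infV_inj hp), ← dim_add' hp] at h1
  haveI : Module.Free ℂ C := Module.Free.of_divisionRing ℂ C
  have e : (Fin D.dim → ℂ) ≃ₗ[ℂ] C := LinearEquiv.ofFinrankEq _ _ (by simp; omega)
  refine ⟨D.V.subtype ∘ₗ C.subtype ∘ₗ e.toLinearMap, fun n => (e n).1.2, fun u hu n h => ?_⟩
  have h2 : (e n).1 = 0 := (Submodule.disjoint_def.1 hC.disjoint) _
    ⟨⟨u, hu⟩, Subtype.ext h⟩ (e n).2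
  exact e.injective (by rw [map_zero]; exact Subtype.ext h2)

theorem Slice.surj {L : (Fin D.dim → ℂ) →ₗ[ℂ] Pt I D.m} (h : D.Slice p L) (hp : D.St p) :
    Function.Surjective ((infV hp.mem).coprod (L.codRestrict D.V h.mem)) := by
  refine (LinearMap.injective_iff_surjective_of_finrank_eq_finrank ?_).1
    ((injective_iff_map_eq_zero _).2 fun x e => ?_)
  · rw [Module.finrank_prod, ← dim_add' hp, add_comm]
    simp
  · have e1 : D.inf p x.1 + L x.2 = 0 := congrArg Subtype.val e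
    have e2 : -x.2 = 0 := h.ind _ x.1.2 _ (by rw [map_neg]; exact eq_neg_of_add_eq_zero_left e1)
    have e3 : x.2 = 0 := neg_eq_zero.1 e2
    rw [e3, map_zero, add_zero] at e1
    exact Prod.ext (Subtype.ext (inf_inj hp x.1.2 e1)) e3

theorem Slice.span {L : (Fin D.dim → ℂ) →ₗ[ℂ] Pt I D.m} (h : D.Slice p L) (hp : D.St p)
    (hq : q ∈ D.V) : ∃ u ∈ D.Lie, ∃ n, q = D.inf p u + L n := by
  obtain ⟨x, e⟩ := h.surj hp ⟨q, hq⟩
  exact ⟨x.1, x.1.2, x.2, (congrArg Subtype.val e).symm⟩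

theorem tendsto_slice {e : ℕ} (p : Pt I D.m) (L : (Fin e → ℂ) →ₗ[ℂ] Pt I D.m) :
    Tendsto (fun n => p + L n) (𝓝 0) (𝓝 p) := by
  have hc : Continuous fun n => p + L n := continuous_const.add L.continuous_of_finiteDimensional
  have := hc.tendsto 0
  rwa [map_zero, add_zero] at this

theorem Slice.ev {L : (Fin D.dim → ℂ) →ₗ[ℂ] Pt I D.m} (h : D.Slice p L) (hp : D.St p) :
    ∀ᶠ n in 𝓝 0, D.St (p + L n) :=
  ((tendsto_slice p L).eventually (D.unst_closed.isOpen_compl.mem_nhds fun c => c.2 hp)).mono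
    fun n c => by_contra fun c' => c ⟨(D.V.add_mem ⟨hp.mem, trivial⟩ (h.mem n)).1, c'⟩

/-- the quadratic part of the equation of a slice -/
def Slice.quad {L : (Fin D.dim → ℂ) →ₗ[ℂ] Pt I D.m} (h : D.Slice p L) :
    (D.Lie × (Fin D.dim → ℂ) × D.V) →ₗ[ℂ] (D.Lie × (Fin D.dim → ℂ) × D.V) →ₗ[ℂ] D.V × D.V :=
  LinearMap.mk₂ ℂ (fun x y => (⟨(fun a => x.1.1 * y.2.2.1.1 a - (L x.2.1).1 a * y.1.1,
      x.1.1 * y.2.2.1.2), by
        have h1 := D.R.sub_mem (mul_mem_R x.1.2 D.one_mem_Lie y.2.2.2.1)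
          (mul_mem_R D.one_mem_Lie y.1.2 (h.mem x.2.1).1)
        simp only [Matrix.mul_one, Matrix.one_mul] at h1
        exact h1, trivial⟩, 0))
    (fun x x' y => Prod.ext (Subtype.ext (Prod.ext (funext fun a => by
      simp [Matrix.add_mul]; abel) (by simp [Matrix.add_mul]))) (by simp))
    (fun c x y => Prod.ext (Subtype.ext (Prod.ext (funext fun a => by
      simp [smul_sub]) (by simp))) (by simp))
    (fun x y y' => Prod.ext (Subtype.ext (Prod.ext (funext fun a => by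
      simp [Matrix.mul_add]; abel) (by simp [Matrix.mul_add]))) (by simp))
    (fun c x y => Prod.ext (Subtype.ext (Prod.ext (funext fun a => by
      simp [smul_sub]) (by simp))) (by simp))

theorem Slice.map_eq {L : (Fin D.dim → ℂ) →ₗ[ℂ] Pt I D.m} (h : D.Slice p L) (hp : D.St p) :
    map (fun n => D.pt0 (p + L n)) (𝓝 0) = 𝓝[D.XS] D.pt0 p := by
  rw [← nhds_map hp]
  refine le_antisymm (tendsto_map.comp (tendsto_nhdsWithin_iff.2 ⟨tendsto_slice p L, h.ev hp⟩))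
    fun S hS => ?_
  obtain ⟨Λ, hΛ⟩ : ∃ Λ : (D.Lie × (Fin D.dim → ℂ) × D.V) →ₗ[ℂ] D.V × D.V, ∀ x,
      Λ x = (infV hp.mem x.1 - L.codRestrict D.V h.mem x.2.1 + x.2.2, x.2.2) :=
    ⟨LinearMap.prod ((infV hp.mem) ∘ₗ LinearMap.fst _ _ _ -
      L.codRestrict D.V h.mem ∘ₗ LinearMap.fst _ _ _ ∘ₗ LinearMap.snd _ _ _ +
        LinearMap.snd _ _ _ ∘ₗ LinearMap.snd _ _ _) (LinearMap.snd _ _ _ ∘ₗ LinearMap.snd _ _ _),
      fun _ => rfl⟩
  have hs : Function.Surjective Λ := fun y => by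
    obtain ⟨x, e⟩ := h.surj hp (y.1 - y.2)
    refine ⟨(x.1, -x.2, y.2), ?_⟩
    rw [hΛ, map_neg, sub_neg_eq_add]
    exact Prod.ext (eq_sub_iff_add_eq.1 e) rfl
  have h1 : ∀ᶠ x : D.Lie × (Fin D.dim → ℂ) × D.V in 𝓝 0, (1 + x.1.1).det ≠ 0 ∧
      D.pt0 (p + L x.2.1) ∈ S := by
    have ht : Tendsto (fun x : D.Lie × (Fin D.dim → ℂ) × D.V => x.2.1) (𝓝 0) (𝓝 0) :=
      (continuous_fst.comp continuous_snd).tendsto 0
    refine Eventually.and ?_ (ht.eventually (p := fun n => D.pt0 (p + L n) ∈ S) hS)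
    have hc : Continuous fun x : D.Lie × (Fin D.dim → ℂ) × D.V => (1 + x.1.1).det :=
      (continuous_const.add (continuous_subtype_val.comp continuous_fst)).matrix_det
    exact hc.continuousAt.eventually_ne (by simp)
  have h2 := image_mem_map (m := fun x => Λ x + h.quad x x) h1
  rw [open_quad Λ hs h.quad] at h2
  have h3 : Tendsto (fun y : D.V => ((0 : D.V), y)) (𝓝 0) (𝓝 0) :=
    (continuous_const.prodMk continuous_id).tendsto 0
  obtain ⟨T, hT, h4⟩ := (mem_nhds_subtype _ _ _).1 (h3 h2)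
  have h5 : Tendsto (fun q : Pt I D.m => q - p) (𝓝 p) (𝓝 0) := by
    have hc : Continuous fun q : Pt I D.m => q - p := continuous_id.sub continuous_const
    have := hc.tendsto p
    rwa [sub_self] at this
  refine mem_map.2 (mem_of_superset (inter_mem (nhdsWithin_le_nhds (h5 hT)) self_mem_nhdsWithin)
    fun q hq => ?_)
  have hq' : D.St q := hq.2
  obtain ⟨x, ⟨hx1, hx2⟩, e⟩ := h4 (a := ⟨q - p, D.V.sub_mem ⟨hq'.mem, trivial⟩ ⟨hp.mem, trivial⟩⟩)
    hq.1
  have hg : 1 + x.1.1 ∈ D.P := ⟨D.Lie.add_mem D.one_mem_Lie x.1.2, isUnit_iff_ne_zero.2 hx1⟩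
  beta_reduce at e
  rw [hΛ] at e
  have e2 : x.2.2.1 = q - p := by
    have := congrArg (fun z : D.V × D.V => z.2.1) e
    simpa [Slice.quad] using this
  have e1 : D.inf p x.1.1 - L x.2.1 + x.2.2.1 +
      (fun a => x.1.1 * x.2.2.1.1 a - (L x.2.1).1 a * x.1.1, x.1.1 * x.2.2.1.2) = 0 :=
    congrArg (fun z : D.V × D.V => z.1.1) e
  rw [e2] at e1
  have e3 : act (1 + x.1.1) q = p + L x.2.1 := by
    refine Prod.ext ((actR_eq_iff hg.2).2 fun a => ?_) ?_
    · have e4 : x.1.1 * p.1 a - p.1 a * x.1.1 - (L x.2.1).1 a + (q.1 a - p.1 a) +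
          (x.1.1 * (q.1 a - p.1 a) - (L x.2.1).1 a * x.1.1) = 0 :=
        congrFun (congrArg Prod.fst e1) a
      show (1 + x.1.1) * q.1 a = (p.1 a + (L x.2.1).1 a) * (1 + x.1.1)
      rw [← sub_eq_zero, ← e4]
      noncomm_ring
    · have e4 : x.1.1 * p.2 - (L x.2.1).2 + (q.2 - p.2) + x.1.1 * (q.2 - p.2) = 0 :=
        congrArg Prod.snd e1
      show (1 + x.1.1) * q.2 = p.2 + (L x.2.1).2
      rw [← sub_eq_zero, ← e4, Matrix.add_mul, Matrix.one_mul, Matrix.mul_sub]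
      abel
  show D.pt0 q ∈ S
  rwa [← pt0_act hg q, e3]

theorem Slice.chart {L : (Fin D.dim → ℂ) →ₗ[ℂ] Pt I D.m} (h : D.Slice p L) (hp : D.St p) :
    HIR.Pt D.XS (fun n => D.pt0 (p + L n)) 0 (D.pt0 p) := by
  have e : D.Th (p + L 0) = D.Th p := by rw [map_zero, add_zero]
  have := HIR.pt_of_imm (X := D.XS) (g := fun n => D.Th (p + L n)) (z := 0) (Th_an p L 0)
    (by rw [e]; exact Th_ne hp) (fun v c hv => by
      rw [e] at hv
      obtain ⟨u, hu, e'⟩ := Th_imm hp L hv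
      exact h.ind u hu v e') (by rw [e]; exact h.map_eq hp)
  rwa [e] at this

theorem mf (D : Dat I) : Mf D.dim D.XS := by
  refine ⟨D.XS_compact, ?_⟩
  rintro _ ⟨p, hp, rfl⟩
  obtain ⟨L, hL⟩ := exists_slice hp
  exact ⟨_, _, hL.chart hp⟩

theorem an_slice {e : ℕ} {F : Pt I D.m → ℂ} (hF : IsPoly co F) (p : Pt I D.m)
    (L : (Fin e → ℂ) →ₗ[ℂ] Pt I D.m) (z : Fin e → ℂ) : AnalyticAt ℂ (fun n => F (p + L n)) z := by
  obtain ⟨P, hP⟩ := hF
  have := an_aff (co p) ((coL I D.m).toLinearMap ∘ₗ L) P z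
  refine this.congr (Eventually.of_forall fun n => ?_)
  beta_reduce
  rw [hP, ← coL_apply, ← coL_apply, map_add]
  rfl

theorem holP_desc {N : ℕ} {T : Pt I D.m → Fin N → ℂ} (hT : ∀ k, IsPoly co fun p => T p k)
    (h0 : ∀ p, D.St p → T p ≠ 0)
    (hi : ∀ p, D.St p → ∀ g ∈ D.P, proj (T (act g p)) = proj (T p)) :
    HolP D.dim D.XS fun x => proj (T (D.sec x)) := by
  refine HIR.holP_of_one ?_
  rintro _ ⟨p, hp, rfl⟩
  obtain ⟨L, hL⟩ := exists_slice hp
  refine ⟨_, _, fun n => T (p + L n), hL.chart hp,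
    analyticAt_pi_iff.2 fun k => an_slice (hT k) p L 0, ?_, (hL.ev hp).mono fun n hn => ?_⟩
  · beta_reduce
    rw [map_zero, add_zero]
    exact h0 p hp
  · exact desc_eq (f := fun p => proj (T p)) hi hn

/-- the map of spaces of orbits -/
def Mor.mp (h : Mor D D') (x : Amb D.M) : Amb D'.M := D'.pt0 (h.F (D.sec x))

theorem Mor.pt0_act (h : Mor D D') (hg : g ∈ D.P) (p : Pt I D.m) :
    D'.pt0 (h.F (act g p)) = D'.pt0 (h.F p) := by
  rw [h.F_act (D.Lie_le hg.1), Dat.pt0_act (h.mem_P hg)]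

theorem Mor.F_poly (h : Mor D D') (t : Co I' D'.m) : IsPoly co fun p => co (h.F p) t := by
  rcases t with ⟨a, i, j⟩ | ⟨i, r⟩
  · exact IsPoly.rho a (h.w.symm i) (h.w.symm j)
  · obtain ⟨i, rfl⟩ := h.w.surjective i
    by_cases c : ∃ s, h.ι i s = r
    · obtain ⟨s, rfl⟩ := c
      have e : (fun p => co (h.F p) (.inr (h.w i, h.ι i s))) = fun p : Pt I D.m => p.2 i s :=
        funext fun p => h.F_snd p i s
      rw [e]
      exact IsPoly.fr i s
    · have e : (fun p => co (h.F p) (.inr (h.w i, r))) = fun _ : Pt I D.m => 0 :=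
        funext fun p => h.F_snd_zero p i r fun s e => c ⟨s, e⟩
      rw [e]
      exact IsPoly.const 0

theorem Mor.mp_pt0 (h : Mor D D') (hp : D.St p) : h.mp (D.pt0 p) = D'.pt0 (h.F p) :=
  desc_eq (f := fun p => D'.pt0 (h.F p)) (fun p _ _ hg => h.pt0_act hg p) hp

theorem Mor.mp_maps (h : Mor D D') : MapsTo h.mp D.XS D'.XS := fun _ hx =>
  pt0_mem (h.st (sec_st hx))

theorem Mor.mp_hol (h : Mor D D') : HolP D.dim D.XS h.mp :=
  holP_desc (T := fun p => D'.Th (h.F p)) (fun k => (Th_poly k).comp h.F_poly)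
    (fun _ hp => Th_ne (h.st hp)) fun p _ _ hg => h.pt0_act hg p

theorem Mor.mp_cont (h : Mor D D') : ContinuousOn h.mp D.XS := h.mp_hol.cont D.mf

theorem Mor.mp_id (hx : x ∈ D.XS) : (Mor.id D).mp x = x := by
  rw [Mor.mp, Mor.F_id, pt0_sec hx]

theorem Mor.mp_comp (h' : Mor D' D'') (h : Mor D D') (hx : x ∈ D.XS) :
    (h'.comp h).mp x = h'.mp (h.mp x) := by
  rw [Mor.mp, Mor.F_comp, ← h'.mp_pt0 (h.st (sec_st hx))]
  rfl

theorem Mor.mp_congr {h k : Mor D D'} (e : ∀ p, D.St p → ∃ g ∈ D'.P, k.F p = act g (h.F p))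
    (hx : x ∈ D.XS) : h.mp x = k.mp x := by
  obtain ⟨g, hg, e⟩ := e _ (sec_st hx)
  rw [Mor.mp, Mor.mp, e, Dat.pt0_act hg]

/-- the map of spaces of orbits as a continuous map -/
def Mor.mc (h : Mor D D') : C(D.XS, D'.XS) :=
  ⟨fun x => ⟨h.mp x, h.mp_maps x.2⟩,
    (continuousOn_iff_continuous_restrict.1 h.mp_cont).subtype_mk _⟩

@[simp] theorem Mor.mc_val (h : Mor D D') (x : D.XS) : (h.mc x).1 = h.mp x := rfl

theorem Mor.mc_pt (h : Mor D D') (hp : D.St p) (hq : D'.St (h.F p)) :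
    h.mc (pt p hp) = pt (h.F p) hq := Subtype.ext (h.mp_pt0 hp)

theorem Mor.mc_id : (Mor.id D).mc = ContinuousMap.id _ :=
  ContinuousMap.ext fun x => Subtype.ext (Mor.mp_id x.2)

theorem Mor.mc_comp (h' : Mor D' D'') (h : Mor D D') : (h'.comp h).mc = h'.mc.comp h.mc :=
  ContinuousMap.ext fun x => Subtype.ext (Mor.mp_comp h' h x.2)

end Dat

end Pool.Agent.CS
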