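import Pool.Agent.P.MP_d34769_ag.YE0

/-! Borel refinements of a datum, invariant polynomials, discriminant and Euler classes. -/

open MvPolynomial Function

noncomputable section
namespace Pool.Agent.CS

variable {I I' : Type} [Fintype I] [DecidableEq I] [Fintype I'] [DecidableEq I']

namespace Dat
variable (D : Dat I)

/-- forget the order -/
def hatMor (o : I → ℕ) : Mor (D.hat o) D where
  w := Equiv.refl I
  ι _ := Function.Embedding.refl _
  col _ := rfl
  th := rfl
  gp _ _ h := ⟨h.1, h.2.1⟩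
  rl _ _ h := h
  cp _ _ h := h
  ι_eq _ _ _ := rfl
  ι_ne _ _ h h' := absurd h' h

theorem hatMor_F (o : I → ℕ) (p : Pt I D.m) : (D.hatMor o).F p = p := by
  refine Prod.ext (funext fun a => by simp [Mor.F, hatMor]) (funext fun i => funext fun r => ?_)
  exact (Function.Embedding.refl _).injective.extend_apply (p.2 i) 0 r

theorem cl_equiv : Equivalence D.cl :=
  ⟨fun i => ⟨⟨rfl, D.gl_refl i⟩, rfl, D.gl_refl i⟩, fun h => h.symm, fun a b =>
    ⟨⟨a.1.1.trans b.1.1, D.gl_trans a.1.2 b.1.2⟩, b.2.1.trans a.2.1, D.gl_trans b.2.2 a.2.2⟩⟩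

variable {D} in
/-- A morphism lifts to the refinements, for a suitable rank on the target. -/
theorem Mor.exists_hat {D' : Dat I'} (h : Mor D D') {o : I → ℕ} (ho : Injective o) :
    ∃ o' : I' → ℕ, Injective o' ∧ ∃ k : Mor (D.hat o) (D'.hat o'), k.w = h.w ∧
      (D'.hatMor o').comp k = h.comp (D.hatMor o) := by
  classical
  let c : I → ℕ := fun i => (Finset.univ.filter fun j => D.gl j i).card
  let M := ∑ i, o i + 1
  have hM : ∀ i, o i < M := fun i =>
    Nat.lt_succ_of_le (Finset.single_le_sum (fun _ _ => Nat.zero_le _) (Finset.mem_univ i))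
  have key : ∀ i j, (D.hat o).gl i j → o i + M * c i ≤ o j + M * c j := fun i j e => by
    have s : (Finset.univ.filter fun k => D.gl k i) ⊆ Finset.univ.filter fun k => D.gl k j :=
      fun k hk => by
        simp only [Finset.mem_filter, Finset.mem_univ, true_and] at hk ⊢
        exact D.gl_trans hk e.1
    by_cases g : D.gl j i
    · exact Nat.add_le_add (e.2 g) (Nat.mul_le_mul_left _ (Finset.card_le_card s))
    · have h1 : c i + 1 ≤ c j := Finset.card_lt_card ⟨s, fun t => g (by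
        simpa using t (Finset.mem_filter.2 ⟨Finset.mem_univ j, D.gl_refl j⟩))⟩
      have h2 := Nat.mul_le_mul_left M h1
      have h3 := hM i
      rw [Nat.mul_succ] at h2
      omega
  refine ⟨fun i => o (h.w.symm i) + M * c (h.w.symm i), fun i j e => ?_, ⟨h.w, h.ι, h.col, h.th,
    fun i j e => ⟨(h.gp i j ⟨e.1, e.2.1⟩).1, (h.gp i j ⟨e.1, e.2.1⟩).2,
      fun _ => by simpa using key i j e.2⟩, h.rl, h.cp, h.ι_eq, h.ι_ne⟩, rfl, rfl⟩
  have := congrArg (· % M) e
  simp only [Nat.add_mul_mod_self_left, Nat.mod_eq_of_lt (hM _)] at this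
  exact h.w.symm.injective (ho this)

/-- There is a rank for which `F` is closed downwards, if only ties obstruct this. -/
theorem exists_hat_first (F : Finset I) (hF : ∀ i k, D.gp i k → k ∈ F → i ∉ F → D.gp k i) :
    ∃ o : I → ℕ, Injective o ∧ ∀ i k, (D.hat o).gp i k → k ∈ F → i ∈ F := by
  let e := Fintype.equivFin I
  refine ⟨fun i => e i + if i ∈ F then 0 else Fintype.card I, fun i j h => ?_, fun i k h hk => ?_⟩
  · have h1 := (e i).2
    have h2 := (e j).2
    refine e.injective (Fin.ext ?_)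
    simp only at h
    split_ifs at h <;> omega
  · by_contra hi
    have h1 := h.2.2 (hF i k ⟨h.1, h.2.1⟩ hk hi).2
    have h2 := (e k).2
    simp only [if_pos hk, if_neg hi] at h1
    omega

/-- invariant under the permutations in the group -/
def Inv (φ : MvPolynomial I ℂ) : Prop := ∀ w ∈ D.W, rename w φ = φ

open Classical in
/-- the discriminant of the classes of the group pattern -/
def dis (o : I → ℕ) : MvPolynomial I ℂ := ∏ k, ∏ l with D.cl k l ∧ o k < o l, (X l - X k)

open Classical in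
/-- the degree of the discriminant -/
def del (o : I → ℕ) : ℕ := ∑ k, (Finset.univ.filter fun l => D.cl k l ∧ o k < o l).card

open Classical in
/-- the Euler class of the arrow entries from `F` to its complement -/
def eT (F : Finset I) : MvPolynomial I ℂ := ∏ a, ∏ k ∈ F, ∏ l ∈ Fᶜ with D.ap a l k, (X l - X k)

open Classical in
/-- the number of arrow entries from `F` to its complement -/
def eN (F : Finset I) : ℕ := ∑ a, ∑ k ∈ F, (Fᶜ.filter fun l => D.ap a l k).card

omit [Fintype I] [DecidableEq I] in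
theorem X_sub_hom (l k : I) : IsHomogeneous (X l - X k : MvPolynomial I ℂ) 1 :=
  (isHomogeneous_X ℂ l).sub (isHomogeneous_X ℂ k)

theorem dis_hom (o : I → ℕ) : (D.dis o).IsHomogeneous (D.del o) :=
  IsHomogeneous.prod _ _ _ fun k _ => by
    simpa using IsHomogeneous.prod _ _ (fun _ => 1) fun l _ => X_sub_hom l k

theorem eT_hom (F : Finset I) : (D.eT F).IsHomogeneous (D.eN F) :=
  IsHomogeneous.prod _ _ _ fun a _ => IsHomogeneous.prod _ _ _ fun k _ => by
    simpa using IsHomogeneous.prod _ _ (fun _ => 1) fun l _ => X_sub_hom l k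

theorem eT_ne (F : Finset I) : D.eT F ≠ 0 := by
  simp only [eT, Ne, Finset.prod_eq_zero_iff, not_exists, not_and, sub_eq_zero, Finset.mem_filter,
    Finset.mem_compl]
  exact fun a _ k hk l hl e => hl.1 (X_injective e ▸ hk)

theorem del_le (o : I → ℕ) : D.del o ≤ Fintype.card I ^ 2 := by
  classical
  refine (Finset.sum_le_card_nsmul _ _ (Fintype.card I) fun k _ => Finset.card_le_univ _).trans ?_
  simp [pow_two]

theorem eN_le (F : Finset I) : D.eN F ≤ 3 * Fintype.card I ^ 2 := by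
  classical
  refine (Finset.sum_le_card_nsmul _ _ (Fintype.card I ^ 2) fun a _ =>
    (Finset.sum_le_card_nsmul _ _ (Fintype.card I) fun k _ => Finset.card_le_univ _).trans ?_).trans
    (by simp)
  rw [smul_eq_mul, pow_two]
  exact Nat.mul_le_mul_right _ (Finset.card_le_univ _)

variable {D}

theorem Mor.cl {D' : Dat I'} (h : Mor D D') {i j : I} (e : D.cl i j) : D'.cl (h.w i) (h.w j) :=
  ⟨h.gp _ _ e.1, h.gp _ _ e.2⟩

theorem Mor.inv {D' : Dat I'} (h : Mor D D') {φ : MvPolynomial I' ℂ} (hφ : D'.Inv φ) :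
    D.Inv (rename h.w.symm φ) := fun w hw => by
  conv_rhs => rw [← hφ ((h.w.symm.trans w).trans h.w) fun i => by
    simpa using h.cl (hw (h.w.symm i))]
  rw [rename_rename, rename_rename]
  congr 2
  funext i
  simp

theorem Inv.mul {φ ψ : MvPolynomial I ℂ} (h : D.Inv φ) (h' : D.Inv ψ) : D.Inv (φ * ψ) :=
  fun w hw => by rw [map_mul, h w hw, h' w hw]

theorem Inv.add {φ ψ : MvPolynomial I ℂ} (h : D.Inv φ) (h' : D.Inv ψ) : D.Inv (φ + ψ) :=
  fun w hw => by rw [map_add, h w hw, h' w hw]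

theorem Inv.smul {φ : MvPolynomial I ℂ} (h : D.Inv φ) (c : ℂ) : D.Inv (c • φ) :=
  fun w hw => by rw [map_smul, h w hw]

theorem inv_one : D.Inv 1 := fun _ _ => map_one _

instance : Fintype D.W := Fintype.ofFinite _

/-- the average over the permutations in the group -/
def avg (D : Dat I) : MvPolynomial I ℂ →ₗ[ℂ] MvPolynomial I ℂ :=
  (Fintype.card D.W : ℂ)⁻¹ • ∑ w : D.W, (rename w.1).toLinearMap

theorem avg_inv (φ : MvPolynomial I ℂ) : D.Inv (D.avg φ) := fun w hw => by
  simp only [avg, LinearMap.smul_apply, LinearMap.sum_apply, map_smul, map_sum,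
    AlgHom.toLinearMap_apply, rename_rename]
  congr 1
  exact Fintype.sum_equiv (Equiv.mulLeft ⟨w, hw⟩) _ _ fun v => by simp

theorem Inv.avg {φ : MvPolynomial I ℂ} (h : D.Inv φ) : D.avg φ = φ := by
  have : ∀ w : D.W, rename w.1 φ = φ := fun w => h w.1 w.2
  simp only [Dat.avg, LinearMap.smul_apply, LinearMap.sum_apply, AlgHom.toLinearMap_apply, this,
    Finset.sum_const, Finset.card_univ]
  rw [← Nat.cast_smul_eq_nsmul ℂ, smul_smul, inv_mul_cancel₀ (by simp), one_smul]

theorem avg_hom {φ : MvPolynomial I ℂ} {p : ℕ} (h : φ.IsHomogeneous p) :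
    (D.avg φ).IsHomogeneous p := by
  simp only [avg, LinearMap.smul_apply, LinearMap.sum_apply, AlgHom.toLinearMap_apply]
  exact (homogeneousSubmodule I ℂ p).smul_mem _
    (IsHomogeneous.sum _ _ _ fun w _ => h.rename_isHomogeneous)

/-- The discriminant changes by a sign when the rank is changed. -/
theorem dis_sign (D : Dat I) {o o' : I → ℕ} (ho : ∀ k l, D.cl k l → o k = o l → k = l)
    (ho' : ∀ k l, D.cl k l → o' k = o' l → k = l) :
    ∃ s : ℂ, s * s = 1 ∧ D.dis o' = s • D.dis o := by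
  classical
  have f : ∀ o : I → ℕ, D.dis o = ∏ q ∈ Finset.univ.filter
      (fun q : I × I => D.cl q.1 q.2 ∧ o q.1 < o q.2), (X q.2 - X q.1) := fun o => by
    rw [dis, Finset.prod_filter, Fintype.prod_prod_type]
    simp only [Finset.prod_filter]
  let t : I × I → I × I := fun q => if o q.1 < o q.2 then q else q.swap
  let t' : I × I → I × I := fun q => if o' q.1 < o' q.2 then q else q.swap
  have g : ∀ {o o' : I → ℕ}, (∀ k l, D.cl k l → o k = o l → k = l) → ∀ q : I × I,
      D.cl q.1 q.2 → o' q.1 < o' q.2 → ¬ o q.1 < o q.2 → o q.2 < o q.1 :=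
    fun ho q a b c => lt_of_le_of_ne (not_lt.1 c) fun e => by
      rw [ho _ _ a e.symm] at b
      exact lt_irrefl _ b
  refine ⟨∏ q ∈ Finset.univ.filter (fun q : I × I => D.cl q.1 q.2 ∧ o' q.1 < o' q.2),
    if o q.1 < o q.2 then 1 else -1, ?_, ?_⟩
  · rw [← Finset.prod_mul_distrib]
    exact Finset.prod_eq_one fun q _ => by split_ifs <;> simp
  rw [f, f o, smul_eq_C_mul, map_prod, ← Finset.prod_nbij' (f := fun q => X (t q).2 - X (t q).1)
    t t' (s := Finset.univ.filter fun q : I × I => D.cl q.1 q.2 ∧ o' q.1 < o' q.2)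
    (t := Finset.univ.filter fun q : I × I => D.cl q.1 q.2 ∧ o q.1 < o q.2) ?_ ?_ ?_ ?_
    fun _ _ => rfl, ← Finset.prod_mul_distrib]
  · refine Finset.prod_congr rfl fun q _ => ?_
    simp only [t]
    split_ifs <;> simp
  all_goals
    intro q hq
    simp only [Finset.mem_filter, Finset.mem_univ, true_and, t, t'] at hq ⊢
  · split_ifs with c
    exacts [⟨hq.1, c⟩, ⟨hq.1.symm, g ho q hq.1 hq.2 c⟩]
  · split_ifs with c
    exacts [⟨hq.1, c⟩, ⟨hq.1.symm, g ho' q hq.1 hq.2 c⟩]
  · by_cases c : o q.1 < o q.2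
    · simp [c, hq.2]
    · simp [c, hq.2.not_gt]
  · by_cases c : o' q.1 < o' q.2
    · simp [c, hq.2]
    · simp [c, hq.2.not_gt]

theorem dis_rename (D : Dat I) {o : I → ℕ} (ho : ∀ k l, D.cl k l → o k = o l → k = l)
    {w : Equiv.Perm I} (hw : w ∈ D.W) : ∃ s : ℂ, s * s = 1 ∧ rename w (D.dis o) = s • D.dis o := by
  classical
  have c : ∀ k l, D.cl (w k) (w l) ↔ D.cl k l := fun k l =>
    ⟨fun e => D.cl_equiv.3 (hw k).symm (D.cl_equiv.3 e (hw l)),
      fun e => D.cl_equiv.3 (hw k) (D.cl_equiv.3 e (hw l).symm)⟩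
  obtain ⟨s, h1, h2⟩ := D.dis_sign (o' := o ∘ w.symm) ho fun k l a b =>
    w.symm.injective (ho _ _ ((c _ _).1 (by simpa using a)) b)
  refine ⟨s, h1, h2 ▸ ?_⟩
  simp only [dis, map_prod, Finset.prod_filter]
  refine Fintype.prod_equiv w _ _ fun k => Fintype.prod_equiv w _ _ fun l => ?_
  simp only [c, comp, Equiv.symm_apply_apply]
  split_ifs <;> simp

theorem eT_rename (D : Dat I) {w : Equiv.Perm I} (hw : w ∈ D.W) (F : Finset I) :
    rename w (D.eT F) = D.eT (F.image w) := by
  classical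
  have c : ∀ a l k, D.ap a (w l) (w k) ↔ D.ap a l k := fun a l k => by
    simp only [ap, (hw l).1.1, (hw k).1.1]
    exact and_congr_right fun _ => and_congr_right fun _ =>
      ⟨fun e => D.rl_trans (D.gl_rl (hw l).2.2) (D.rl_trans e (D.gl_rl (hw k).1.2)),
        fun e => D.rl_trans (D.gl_rl (hw l).1.2) (D.rl_trans e (D.gl_rl (hw k).2.2))⟩
  simp only [eT, map_prod, map_sub, rename_X]
  refine Finset.prod_congr rfl fun a _ => Finset.prod_equiv w (by simp) fun k _ =>
    Finset.prod_equiv w (fun l => ?_) fun _ _ => rfl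
  simp [c]

/-- the weight of a set of indices -/
def tw (D : Dat I) (t : Fin 3 → ℤ) (F : Finset I) : ℤ := ∑ j ∈ F, t (D.col j)

/-- the ideal of the Euler classes of destabilising sets -/
def J (D : Dat I) : Ideal (MvPolynomial I ℂ) :=
  Ideal.span {e | ∃ F, 0 < D.tw D.th F ∧ e = D.eT F}

theorem J_rename (D : Dat I) {w : Equiv.Perm I} (hw : w ∈ D.W) {j : MvPolynomial I ℂ}
    (hj : j ∈ D.J) : rename w j ∈ D.J := by
  refine (Ideal.span_le.2 ?_ : D.J ≤ D.J.comap (rename w)) hj
  rintro _ ⟨F, h, rfl⟩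
  refine Ideal.subset_span ⟨F.image w, ?_, D.eT_rename hw F⟩
  rwa [tw, Finset.sum_image w.injective.injOn, Finset.sum_congr rfl fun i _ => by rw [(hw i).1.1]]

theorem tw_univ (D : Dat I) : D.tw D.th Finset.univ = 0 := by
  classical
  let s : Setoid I := ⟨D.cp, D.cp_eq⟩
  rw [tw, ← Finset.sum_fiberwise Finset.univ (Quotient.mk s)]
  refine Finset.sum_eq_zero fun q _ => ?_
  obtain ⟨i, rfl⟩ := q.exists_rep
  exact D.bal i _ fun j => by
    simp only [Finset.mem_filter, Finset.mem_univ, true_and, Quotient.eq]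
    exact ⟨D.cp_eq.2, D.cp_eq.2⟩

/-- no flags -/
def Bs (D : Dat I) : Prop := ∀ i j, D.cp i j → D.gl i j

/-- chains of sets of indices -/
def Chn (C : Finset (Finset I)) : Prop := ∀ F ∈ C, ∀ F' ∈ C, F ⊆ F' ∨ F' ⊆ F

/-- the datum whose flag is the chain `C` -/
def cf (D : Dat I) (C : Finset (Finset I)) (h : Chn C) : Dat I :=
  { D with
    gl := fun i j => D.cp i j ∧ ∀ F ∈ C, j ∈ F → i ∈ F
    rl := fun i j => D.cp i j ∧ ∀ F ∈ C, j ∈ F → i ∈ F
    gl_refl := fun i => ⟨D.cp_eq.1 i, fun _ _ => id⟩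
    gl_trans := fun a b => ⟨D.cp_eq.3 a.1 b.1, fun F hF e => a.2 F hF (b.2 F hF e)⟩
    rl_trans := fun a b => ⟨D.cp_eq.3 a.1 b.1, fun F hF e => a.2 F hF (b.2 F hF e)⟩
    gl_rl := id
    rl_cp := fun e => e.1
    tot := fun i j _ c => by
      by_cases e : ∀ F ∈ C, j ∈ F → i ∈ F
      · exact Or.inl ⟨c, e⟩
      · push Not at e
        obtain ⟨F, hF, hj, hi⟩ := e
        exact Or.inr ⟨D.cp_eq.2 c, fun F' hF' e =>
          (h F hF F' hF').elim (fun s => s hj) fun s => absurd (s e) hi⟩ }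

omit [Fintype I] [DecidableEq I] in
theorem chn_one (F : Finset I) : Chn {F} := fun _ h _ h' => by
  rw [Finset.mem_singleton.1 h, Finset.mem_singleton.1 h']
  exact Or.inl le_rfl

omit [Fintype I] [DecidableEq I] in
theorem chn_empty : Chn (∅ : Finset (Finset I)) := fun _ h => by simp at h

theorem Bs.cf_empty {D : Dat I} (h : D.Bs) : D.cf ∅ chn_empty = D := by
  cases D with | mk col th m cp gl rl h1 h2 h3 h4 h5 h6 h7 h8 =>
  simp only [cf, mk.injEq, Finset.notMem_empty, false_imp_iff, implies_true, and_true, true_and]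
  exact ⟨funext₂ fun i j => propext ⟨h i j, fun e => h6 (h5 e)⟩,
    funext₂ fun i j => propext ⟨fun e => h5 (h i j e), h6⟩⟩

end Dat

end Pool.Agent.CS
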