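import Pool.Agent.P.MP_d34769_ag.YF5
import Pool.Agent.P.MP_d34769_ag.YF6a
import Pool.Agent.P.MP_d34769_ag.YE2

/-! The tautological bundles on the space of orbits. -/

open Matrix Filter Topology Set
open Pool.Agent.HT (Amb proj)

set_option linter.unusedSectionVars false

noncomputable section
namespace Pool.Agent.CS

variable {I I' : Type} [Fintype I] [DecidableEq I] [Fintype I'] [DecidableEq I']

namespace Dat
variable {D : Dat I} {D' : Dat I'} {p q : Pt I D.m} {g : Matrix I I ℂ}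

theorem St.toBase (hp : D.St p) : D.base.St p := (st_base.1 hp).2

theorem PG_cont (a : I) : Continuous fun x : D.XS => D.PG (D.sec x) a :=
  desc_cont (f := fun p => D.PG p a) (fun p _ _ hg => PG_act hg p a)
    (((Nn_cont _).sub (Nn_cont _)).mono fun _ hp => St.toBase hp)

variable (D) in
/-- the graded pieces as bundles -/
def PB (a : I) : Bun D.XS D.Mu (D.rk a) :=
  ⟨fun x => D.PG (D.sec x) a, PG_cont a, fun x => PG_op (sec_st x.2).toBase a⟩

theorem PB_pt (hp : D.St p) (a : I) : (D.PB a).Q (pt p hp) = D.PG p a :=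
  desc_eq (f := fun p => D.PG p a) (fun p _ _ hg => PG_act hg p a) hp

variable (D) in
/-- the data of the flag bundle -/
def ld : LD D.XS D.Mu I where
  cl := D.cl
  eqv := D.cl_equiv
  r := D.rk
  P := D.PB
  req _ _ h := Nat.card_congr (Equiv.subtypeEquivRight fun _ =>
    ⟨D.cl_equiv.trans (D.cl_equiv.symm h), D.cl_equiv.trans h⟩)
  eq _ _ h := funext fun _ => PG_eq _ h

/-- the tautological lines -/
def ell (hD : D.Hat) (a : I) : Bun D.XS D.Mu 1 :=
  ⟨fun x => D.PG (D.sec x) a, PG_cont a, fun x => rk_hat hD a ▸ PG_op (sec_st x.2).toBase a⟩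

theorem ell_pt (hD : D.Hat) (hp : D.St p) (a : I) : (ell hD a).Q (pt p hp) = D.PG p a := PB_pt hp a

theorem ell_frm (hD : D.Hat) (hp : D.St p) :
    Frm D.gp (fun a => (ell hD a).Q (pt p hp)) (D.Xp p) (D.Xi p) := by
  rw [show (fun a => (ell hD a).Q (pt p hp)) = D.PG p from funext (ell_pt hD hp)]
  exact PG_frm hD hp.toBase

theorem f6_le (hp : D.base.St p) {F G : Set I} (h : F ⊆ G) :
    D.Nn p (sp G) * D.Nn p (sp F) = D.Nn p (sp F) ∧
      D.Nn p (sp F) * D.Nn p (sp G) = D.Nn p (sp F) :=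
  have e := (Nn_le_iff hp).2 (sp_le_sp.2 h)
  ⟨e, (Nn_op hp _).comm (Nn_op hp _) e⟩

theorem St.hat (hp : D.St p) (o : I → ℕ) : (D.hat o).St p := ⟨hp.1, hp.2, hp.3⟩

theorem St.unhat {o : I → ℕ} (hp : (D.hat o).St p) : D.St p := ⟨hp.1, hp.2, hp.3⟩

theorem hat_mc {o : I → ℕ} (hp : (D.hat o).St p) :
    (D.hatMor o).mc (pt (D := D.hat o) p hp) = pt p hp.unhat :=
  Subtype.ext (((D.hatMor o).mp_pt0 hp).trans (congrArg D.pt0 (D.hatMor_F o p)))

/-- the lines of a refinement -/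
def hG (o : I → ℕ) (p : Pt I D.m) (a : I) : Matrix D.Mu D.Mu ℂ :=
  D.Nn p (sp {j | (D.hat o).gp j a}) - D.Nn p (sp {j | (D.hat o).gp j a ∧ ¬ (D.hat o).gp a j})

theorem hat_le (hp : D.base.St p) (o : I → ℕ) (a : I) : D.PG p a * hG o p a = hG o p a := by
  have s1 : {j | (D.hat o).gp j a} ⊆ {j | D.gp j a} := fun _ h => ⟨h.1, h.2.1⟩
  have s2 : {j | (D.hat o).gp j a ∧ ¬ (D.hat o).gp a j} ⊆ {j | (D.hat o).gp j a} := fun _ h => h.1
  have s3 : {j | D.gp j a ∧ ¬ D.gp a j} ⊆ {j | (D.hat o).gp j a ∧ ¬ (D.hat o).gp a j} :=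
    fun _ h => ⟨⟨h.1.1, h.1.2, fun c => absurd ⟨h.1.1.symm, c⟩ h.2⟩, fun c => h.2 ⟨c.1, c.2.1⟩⟩
  rw [hG, PG, Matrix.sub_mul, Matrix.mul_sub, Matrix.mul_sub, (f6_le hp s1).1,
    (f6_le hp (s2.trans s1)).1, (f6_le hp s3).2, (f6_le hp (s3.trans s2)).2, sub_self, sub_zero]

theorem hat_inj {o : I → ℕ} (ho : Function.Injective o) (hp : D.St p) (hg : g ∈ D.P)
    (e : ∀ a, (D.hat o).PG p a = (D.hat o).PG (act g p) a) : g ∈ (D.hat o).P := by
  classical
  refine ⟨fun i j hn => ?_, hg.2⟩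
  have hq := (hp.act hg).toBase
  have hF : ∀ a b, (D.hat o).gp a b → b ∈ Finset.univ.filter (fun k => (D.hat o).gp k j) →
      a ∈ Finset.univ.filter (fun k => (D.hat o).gp k j) := fun a b h c => by
    simp only [Finset.mem_filter, Finset.mem_univ, true_and] at c ⊢
    exact gp_trans h c
  have h1 : ∑ a ∈ _, (D.hat o).PG p a = D.Nn p _ := PG_sum (D.hat_Hat ho) hp.toBase hF
  have h2 : ∑ a ∈ _, (D.hat o).PG (act g p) a = D.Nn (act g p) _ := PG_sum (D.hat_Hat ho) hq hF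
  rw [Finset.sum_congr rfl fun a _ => e a, h2, ← Nn_act (D.P_le hg) p] at h1
  exact map_sp_le.1 (Nn_inj hq h1).ge i j (by simpa using hn) (by simpa using (D.hat o).gp_refl j)

theorem hat_sur {o : I → ℕ} (ho : Function.Injective o) (hp : D.St p)
    {l : I → Matrix D.Mu D.Mu ℂ} (h1 : ∀ a, OP 1 (l a) ∧ D.PG p a * l a = l a)
    (h2 : ∀ a b, a ≠ b → D.cl a b → l a * l b = 0) :
    ∃ g ∈ D.P, ∀ a, hG o (act g p) a = l a := by
  have hb := hp.toBase
  choose v hv0 hv using fun a => (h1 a).1.exists_lnv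
  have hl : ∀ a, l a *ᵥ v a = v a := fun a => by rw [hv]; exact lnv_mulVec (hv0 a)
  have h3 : ∀ a b, a ≠ b → l a *ᵥ v b = 0 := fun a b c => by
    have : l a * l b = 0 := by
      by_cases d : D.cl a b
      · exact h2 a b c d
      · rw [← (PG_op hb a).comm (h1 a).1 (h1 a).2, ← (h1 b).2, Matrix.mul_assoc,
          ← Matrix.mul_assoc (D.PG p a), PG_orth hb d, Matrix.zero_mul, Matrix.mul_zero]
    rw [← hl b, mulVec_mulVec, this, zero_mulVec]
  have h4 : ∀ a, v a ∈ (sp {j | D.gp j a}).map (toLin' (D.Xp p)) := fun a => by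
    have : D.Nn p (sp {j | D.gp j a}) * D.PG p a = D.PG p a := by
      rw [PG, Matrix.mul_sub, (f6_le hb subset_rfl).1, (f6_le hb fun _ h => h.1).1]
    rw [(Nn_prj p _).fix, ← hl a, ← (h1 a).2, mulVec_mulVec, ← Matrix.mul_assoc, this]
  choose u hu hX using h4
  obtain ⟨M, hM⟩ : ∃ M : Matrix I I ℂ, ∀ j a, M j a = u a j := ⟨of fun j a => u a j, fun _ _ => rfl⟩
  have h5 : ∀ a, (D.Xp p * M) *ᵥ Pi.single a 1 = v a := fun a => by
    rw [← mulVec_mulVec, mulVec_single_one, ← hX a]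
    exact congrArg (D.Xp p *ᵥ ·) (funext fun j => hM j a)
  have h6 : ∀ a c, l a *ᵥ (D.Xp p * M) *ᵥ c = c a • v a := fun a c => by
    rw [pi_eq_sum_univ' c, mulVec_sum, mulVec_sum, Finset.sum_eq_single a (fun b _ d => ?_) (by simp)]
    · rw [mulVec_smul, h5, mulVec_smul, hl, ← pi_eq_sum_univ' c]
    · rw [mulVec_smul, h5, mulVec_smul, h3 a b d.symm, smul_zero]
  have hP : M ∈ D.P := ⟨fun i j c => (hM i j).trans (mem_sp.1 (hu j) i c),
    isUnit_iff_ne_zero.2 fun c => by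
      obtain ⟨c, c0, c1⟩ := exists_mulVec_eq_zero_iff.2 c
      refine c0 (funext fun a => ?_)
      have := h6 a c
      rw [← mulVec_mulVec, c1, mulVec_zero, mulVec_zero] at this
      exact (smul_eq_zero.1 this.symm).resolve_right (hv0 a)⟩
  have hg := inv_mem_P hP
  have hq := (hp.act hg).toBase
  have h7 : D.Xp (act M⁻¹ p) = D.Xp p * M := by
    rw [Xp_act (D.P_le hg), nonsing_inv_nonsing_inv _ hP.2]
  refine ⟨_, hg, fun a => ?_⟩
  have h8 : OP 1 (hG o (act M⁻¹ p) a) := by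
    have := PG_op (D := D.hat o) hq a
    rwa [rk_hat (D.hat_Hat ho) a] at this
  rw [hv]
  refine h8.eq_lnv (hv0 a) ?_
  have h9 : l a * D.Nn (act M⁻¹ p) (sp {j | (D.hat o).gp j a ∧ ¬ (D.hat o).gp a j}) = 0 := by
    refine Matrix.ext_of_mulVec_single fun x => ?_
    obtain ⟨c, hc, e⟩ := (Nn_prj (act M⁻¹ p)
      (sp {j | (D.hat o).gp j a ∧ ¬ (D.hat o).gp a j})).mulVec_mem (Pi.single x 1)
    rw [← mulVec_mulVec, ← e, toLin'_apply, h7, h6, mem_sp.1 hc a fun d => d.2 d.1, zero_smul,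
      zero_mulVec]
  rw [hG, sub_mulVec, ((Nn_prj _ _).fix _).1 ⟨Pi.single a 1, mem_sp.2 fun i c =>
    Pi.single_eq_of_ne (fun d => c (d ▸ (D.hat o).gp_refl a)) _, by rw [toLin'_apply, h7, h5]⟩,
    ← hl a, mulVec_mulVec, (h1 a).1.comm0 (Nn_op hq _) h9, zero_mulVec, sub_zero]

theorem isLn (D : Dat I) {o : I → ℕ} (ho : Function.Injective o) :
    IsLn (D.hatMor o).mc D.ld (ell (D.hat_Hat ho)) := by
  refine ⟨fun a x => ?_, fun a b c _ x => ?_, fun x y e1 e2 => ?_, fun t l h1 h2 => ?_⟩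
  · obtain ⟨p, hp, rfl⟩ := exists_pt x
    have h1 := (congrArg (D.PB a).Q (hat_mc hp)).trans (PB_pt hp.unhat a)
    have h2 := ell_pt (D.hat_Hat ho) hp a
    exact (congrArg₂ (fun X Y : Matrix D.Mu D.Mu ℂ => X * Y) h1 h2).trans ((hat_le hp.unhat.toBase o a).trans h2.symm)
  · exact PG_orth (D := D.hat o) (sec_st x.2).toBase fun d => c (D.hat_Hat ho a b d)
  · obtain ⟨p, hp, rfl⟩ := exists_pt x
    obtain ⟨q, hq, rfl⟩ := exists_pt y
    obtain ⟨g, hg, e⟩ := (pt_eq_iff hp.unhat hq.unhat).1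
      ((hat_mc hp).symm.trans (e1.trans (hat_mc hq)))
    refine (pt_eq_iff hp hq).2 ⟨g, hat_inj ho hp.unhat hg fun a => ?_, e⟩
    exact (ell_pt _ hp a).symm.trans ((e2 a).trans ((ell_pt _ hq a).trans
      (congrArg (fun z => (D.hat o).PG z a) e)))
  · obtain ⟨p, hp, rfl⟩ := exists_pt t
    obtain ⟨g, hg, e⟩ := hat_sur ho hp
      (fun a => ⟨(h1 a).1, (congrArg (· * l a) (PB_pt hp a)).symm.trans (h1 a).2⟩) h2
    have hq := (hp.act hg).hat o
    exact ⟨pt _ hq, (hat_mc hq).trans ((pt_eq_iff hp _).2 ⟨g, hg, rfl⟩).symm,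
      fun a => (ell_pt _ hq a).trans (e a)⟩

variable (D) in
/-- the arrows as maps of the trivial bundle -/
def rt (a : Fin 3) (x : D.XS) : Matrix D.Mu D.Mu ℂ :=
  D.Xp (D.sec x) * (D.sec x).1 a * D.Xi (D.sec x)

variable (D) in
/-- the framing as sections -/
def ft (x : D.XS) : Matrix D.Mu (Fin D.m) ℂ := D.Xp (D.sec x) * (D.sec x).2

theorem rt_act (hg : g ∈ D.P) (p : Pt I D.m) (a : Fin 3) :
    D.Xp (act g p) * (act g p).1 a * D.Xi (act g p) = D.Xp p * p.1 a * D.Xi p := by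
  rw [Xp_act (D.P_le hg), Xi_act (D.P_le hg)]
  simp only [act, actR, Matrix.mul_assoc, nonsing_inv_mul_cancel_left _ _ hg.2]

theorem ft_act (hg : g ∈ D.P) (p : Pt I D.m) : D.Xp (act g p) * (act g p).2 = D.Xp p * p.2 := by
  rw [Xp_act (D.P_le hg)]
  simp only [act, Matrix.mul_assoc, nonsing_inv_mul_cancel_left _ _ hg.2]

theorem rt_pt (hp : D.St p) (a : Fin 3) : D.rt a (pt p hp) = D.Xp p * p.1 a * D.Xi p :=
  desc_eq (f := fun p => D.Xp p * p.1 a * D.Xi p) (fun p _ _ hg => rt_act hg p a) hp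

theorem ft_pt (hp : D.St p) : D.ft (pt p hp) = D.Xp p * p.2 :=
  desc_eq (f := fun p => D.Xp p * p.2) (fun p _ _ hg => ft_act hg p) hp

theorem Xi_cont' : Continuous fun p : {p | D.St p} => D.Xi p.1 :=
  continuousOn_iff_continuous_domRestrict.1 (Xi_cont.mono fun _ hp => St.toBase hp)

theorem Xp_cont' : Continuous fun p : {p | D.St p} => D.Xp p.1 :=
  continuousOn_iff_continuous_domRestrict.1 (Xp_cont.mono fun _ hp => St.toBase hp)

theorem rt_cont (a : Fin 3) : Continuous (D.rt a) :=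
  desc_cont (f := fun p => D.Xp p * p.1 a * D.Xi p) (fun p _ _ hg => rt_act hg p a)
    (continuousOn_iff_continuous_domRestrict.2 ((Xp_cont'.matrix_mul
      ((continuous_apply a).comp continuous_subtype_val.fst)).matrix_mul Xi_cont'))

theorem ft_cont : Continuous D.ft :=
  desc_cont (f := fun p => D.Xp p * p.2) (fun p _ _ hg => ft_act hg p)
    (continuousOn_iff_continuous_domRestrict.2 (Xp_cont'.matrix_mul continuous_subtype_val.snd))

/-- the identification of the tautological bundles along a morphism -/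
def Mor.xm (h : Mor D D') (x : D.XS) : Matrix D'.Mu D.Mu ℂ :=
  D'.Xp (h.F (D.sec x)) * (1 : Matrix I' I' ℂ).submatrix _root_.id h.w * D.Xi (D.sec x)

theorem Mor.xm_cont (h : Mor D D') : Continuous h.xm := by
  refine desc_cont (f := fun p => D'.Xp (h.F p) *
    (1 : Matrix I' I' ℂ).submatrix _root_.id h.w * D.Xi p) (fun p _ g hg => ?_)
    (continuousOn_iff_continuous_domRestrict.2 (((Xp_cont'.comp
      ((h.continuous_F.comp continuous_subtype_val).subtype_mk fun p : {p | D.St p} =>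
        h.st p.2)).matrix_mul continuous_const).matrix_mul Xi_cont'))
  have e : (1 : Matrix I' I' ℂ).submatrix _root_.id h.w * g =
      reindex h.w h.w g * (1 : Matrix I' I' ℂ).submatrix (Equiv.refl I') h.w := by
    rw [one_submatrix_mul, mul_submatrix_one]
    ext i j
    simp
  rw [h.F_act (D.Lie_le hg.1), Xp_act (D'.P_le (h.mem_P hg)), Xi_act (D.P_le hg),
    Matrix.mul_assoc, ← Matrix.mul_assoc _ g, e]
  simp only [Matrix.mul_assoc, nonsing_inv_mul_cancel_left _ _ (h.mem_P hg).2]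
  rfl

theorem Mor.xm_ne (h : Mor D D') (hD : D.Hat) (hD' : D'.Hat) (x : D.XS) (i : I) :
    (ell hD' (h.w i)).Q (h.mc x) * h.xm x * (ell hD i).Q x ≠ 0 := fun h0 => by
  have hp := sec_st x.2
  have hq := h.st hp
  have e1 : (ell hD' (h.w i)).Q (h.mc x) = D'.PG (h.F (D.sec x)) (h.w i) := ell_pt hD' hq _
  have e2 : (ell hD i).Q x = D.PG (D.sec x) i := rfl
  rw [e1, e2, Mor.xm] at h0
  have h1 : (D'.Xi (h.F (D.sec x)) * D'.PG (h.F (D.sec x)) (h.w i) * D'.Xp (h.F (D.sec x))) *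
      ((1 : Matrix I' I' ℂ).submatrix _root_.id h.w *
        (D.Xi (D.sec x) * D.PG (D.sec x) i * D.Xp (D.sec x))) = 0 := by
    have := congrArg (fun X => D'.Xi (h.F (D.sec x)) * X * D.Xp (D.sec x)) h0
    simpa only [Matrix.mul_assoc, Matrix.mul_zero, Matrix.zero_mul] using this
  have h2 := congrFun (congrFun h1 (h.w i)) i
  rw [one_submatrix_mul, mul_apply, Finset.sum_eq_single (h.w i) (fun k _ c => by_contra fun d =>
    c (hD' _ _ ⟨by simpa using h.gp _ _ (PG_tri hp.toBase (right_ne_zero_of_mul d)).1,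
      (PG_tri hq.toBase (left_ne_zero_of_mul d)).2⟩)) (by simp), PG_diag hD' hq.toBase] at h2
  simp [PG_diag hD hp.toBase] at h2

end Dat

end Pool.Agent.CS
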