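import Pool.Agent.P.MP_d34769_ag.YF6
import Pool.Agent.P.MP_d34769_ag.YC6

/-! The tautological classes come from projective spaces. -/

open Matrix Set
open Pool.Agent.HT (Amb proj amat)
open Pool.Agent.HIR (Mf HolP Prj)

set_option linter.unusedSectionVars false

noncomputable section
namespace Pool.Agent.CS

variable {I μ ν : Type} [Fintype I] [DecidableEq I] [Fintype μ] [Fintype ν]

namespace Dat

/-- the line `L` is spanned by the section `v` of weight `χ` -/
structure Wt (D : Dat I) (χ : Matrix I I ℂ → ℂ) (L : Bun D.XS μ 1) (v : Pt I D.m → μ → ℂ) :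
    Prop where
  cont : ContinuousOn v {p | D.St p}
  ne : ∀ p, D.St p → v p ≠ 0
  eq : ∀ p hp, L.Q (pt p hp) *ᵥ v p = v p
  act : ∀ g ∈ D.P, ∀ p, D.St p → v (act g p) = χ g • v p

variable {D : Dat I} {χ χ' : Matrix I I ℂ → ℂ} {L : Bun D.XS μ 1} {L' : Bun D.XS ν 1}
  {v : Pt I D.m → μ → ℂ} {v' : Pt I D.m → ν → ℂ} {g : Matrix I I ℂ} {p : Pt I D.m}

/-- the weight determines the class -/
theorem Wt.x_eq (h : D.Wt χ L v) (h' : D.Wt χ' L' v') (e : ∀ g ∈ D.P, χ' g = χ g) :
    L'.x = L.x := by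
  let f : Pt I D.m → Matrix ν μ ℂ := fun p =>
    (star (v p) ⬝ᵥ v p)⁻¹ • vecMulVec (v' p) (star (v p))
  have hi : ∀ p, D.St p → ∀ g ∈ D.P, f (CS.act g p) = f p := fun p hp g hg => by
    have h0 : χ g ≠ 0 := fun c => h.ne _ (hp.act hg) (by rw [h.act g hg p hp, c, zero_smul])
    have h1 : star (χ g) ≠ 0 := star_ne_zero.2 h0
    simp only [f, h.act g hg p hp, h'.act g hg p hp, e g hg, star_smul, smul_dotProduct,
      dotProduct_smul, smul_vecMulVec, vecMulVec_smul, smul_smul, smul_eq_mul]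
    congr 1
    field_simp
  have hc : ContinuousOn f {p | D.St p} := by
    have c1 := continuousOn_iff_continuous_domRestrict.1 h.cont
    have c2 := continuousOn_iff_continuous_domRestrict.1 h'.cont
    exact continuousOn_iff_continuous_domRestrict.2 (((c1.star.dotProduct c1).inv₀ fun y =>
      star_dot_ne (h.ne _ y.2)).smul (c2.matrix_vecMulVec c1.star))
  refine L.x_iso L' (desc_cont hi hc) fun y c => ?_
  obtain ⟨p, hp, rfl⟩ := exists_pt y
  have := congrArg (· *ᵥ v p) c
  simp only [← mulVec_mulVec, h.eq, zero_mulVec] at this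
  rw [show D.sec (pt p hp).1 = D.sec (D.pt0 p) from rfl, desc_eq hi hp, smul_mulVec,
    vecMulVec_mulVec, op_smul_eq_smul, smul_smul, inv_mul_cancel₀ (star_dot_ne (h.ne p hp)),
    one_smul, h'.eq] at this
  exact h'.ne p hp this

theorem Wt.tens (h : D.Wt χ L v) (h' : D.Wt χ' L' v') :
    D.Wt (fun g => χ g * χ' g) (L.tens L') fun p x => v p x.1 * v' p x.2 where
  cont := continuousOn_pi.2 fun x =>
    (continuousOn_pi.1 h.cont x.1).mul (continuousOn_pi.1 h'.cont x.2)
  ne p hp c := by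
    obtain ⟨i, hi⟩ := Function.ne_iff.1 (h.ne p hp)
    obtain ⟨j, hj⟩ := Function.ne_iff.1 (h'.ne p hp)
    exact mul_ne_zero hi hj (congrFun c (i, j))
  eq p hp := funext fun x => by
    rw [← congrFun (h.eq p hp) x.1, ← congrFun (h'.eq p hp) x.2]
    simp only [Bun.tens_Q, mulVec, dotProduct, kroneckerMap_apply, Fintype.sum_prod_type,
      Finset.sum_mul_sum, mul_mul_mul_comm]
  act g hg p hp := funext fun x => by
    simp only [h.act g hg p hp, h'.act g hg p hp, Pi.smul_apply, smul_eq_mul, mul_mul_mul_comm]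

theorem exists_wt (hc : ContinuousOn v {p | D.St p}) (h0 : ∀ p, D.St p → v p ≠ 0)
    (ha : ∀ g ∈ D.P, ∀ p, D.St p → v (act g p) = χ g • v p) : ∃ L, D.Wt χ L v := by
  have hi : ∀ p, D.St p → ∀ g ∈ D.P, lnv (v (act g p)) = lnv (v p) := fun p hp g hg => by
    have := h0 _ (hp.act hg)
    rw [ha g hg p hp] at this ⊢
    exact lnv_smul (h0 p hp) (left_ne_zero_of_smul this)
  refine ⟨⟨fun x => lnv (v (D.sec x)), desc_cont (f := fun p => lnv (v p)) hi
    (continuousOn_iff_continuous_domRestrict.2 (Bun.vec _ (continuousOn_iff_continuous_domRestrict.1 hc) fun y => h0 _ y.2).cont),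
    fun x => OP.lnv (h0 _ (sec_st x.2))⟩, hc, h0, fun p hp => ?_, ha⟩
  exact (congrArg (· *ᵥ v p) (desc_eq (f := fun p => lnv (v p)) hi hp)).trans (lnv_mulVec (h0 p hp))

theorem poly_cont (h : ∀ k, IsPoly co fun p => v p k) : ContinuousOn v {p | D.St p} :=
  (continuous_pi fun k => (h k).continuous continuous_co).continuousOn

variable (D) in
/-- the classes of the lines that are spanned by polynomial sections -/
def hyp : AddSubmonoid (HE D.XS) where
  carrier := {c | ∃ (κ : Type) (_ : Fintype κ) (χ : Matrix I I ℂ → ℂ) (L : Bun D.XS κ 1)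
    (v : Pt I D.m → κ → ℂ), D.Wt χ L v ∧ (∀ k, IsPoly co fun p => v p k) ∧ c = L.x}
  add_mem' := by
    rintro _ _ ⟨κ, _, χ, L, v, h, k, rfl⟩ ⟨κ', _, χ', L', v', h', k', rfl⟩
    exact ⟨_, _, _, _, _, h.tens h', fun x => (k x.1).mul (k' x.2), (L.x_tens L').symm⟩
  zero_mem' := by
    have h1 : OP 1 (1 : Matrix Unit Unit ℂ) := ⟨by simp, by simp, by simp⟩
    exact ⟨Unit, _, 1, Bun.const _ h1, 1, ⟨continuousOn_const, fun _ _ => one_ne_zero,
      fun _ _ => one_mulVec _, fun _ _ _ _ => (one_smul _ _).symm⟩, fun _ => IsPoly.const 1,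
      (Bun.x_const h1).symm⟩

theorem amat_prj {N : ℕ} (v : Fin N → ℂ) : amat (proj v) = lnv v := by
  ext i j
  simp [amat, proj, lnv, vecMulVec_apply, dotProduct, div_eq_inv_mul, mul_comm]

theorem hyp_le {c : HE D.XS} (h : c ∈ D.hyp) : c ∈ Hyp D.mf := by
  obtain ⟨κ, _, χ, L, v, h, k, rfl⟩ := h
  let e := Fintype.equivFin κ
  have h0 : ∀ p, D.St p → v p ∘ e.symm ≠ 0 := fun p hp c =>
    h.ne p hp (funext fun x => by simpa using congrFun c (e x))
  obtain ⟨L', h'⟩ := exists_wt (v := fun p => v p ∘ e.symm) (χ := χ) (poly_cont fun x => k _) h0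
    fun g hg p hp => by rw [h.act g hg p hp]; rfl
  have ht := holP_desc (T := fun p => v p ∘ e.symm) (fun x => k _) h0 fun p hp g hg => by
    have := h0 _ (hp.act hg)
    rw [h'.act g hg p hp] at this ⊢
    exact HIR.proj_smul (left_ne_zero_of_smul this) _
  refine ⟨_, _, ht, (h'.x_eq h fun _ _ => rfl).trans (congrArg Bun.x (Bun.ext (funext fun x => ?_)))⟩
  have := h'.eq _ (sec_st x.2)
  rw [pt_sec] at this
  exact ((L'.op x).eq_lnv (h0 _ (sec_st x.2)) this).trans (amat_prj _).symm

theorem det_hat (hD : D.Hat) (hg : g ∈ D.Lie) (B : Finset I) :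
    (g.submatrix (fun j : B => j.1) fun j : B => j.1).det = ∏ j ∈ B, g j j := by
  rw [det_apply', Finset.sum_eq_single 1 (fun σ _ h1 => ?_) (by simp), ← Finset.prod_coe_sort B]
  · simp
  refine mul_eq_zero_of_right _ (by_contra fun c => h1 (Equiv.ext fun j => ?_))
  have k : ∀ j : B, D.gp (σ j) j := fun j => by_contra fun n =>
    Finset.prod_ne_zero_iff.1 c j (Finset.mem_univ _) (hg _ _ n)
  have k' : ∀ (n : ℕ) (j : B), D.gp ((σ ^ n) j) j := fun n j => by
    induction n with
    | zero => exact D.gp_refl _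
    | succ n ih => rw [pow_succ']; exact gp_trans (k _) ih
  obtain ⟨n, hn⟩ := mem_powers_iff_mem_zpowers.2 (inv_mem (Subgroup.mem_zpowers σ))
  have := k' n (σ j)
  rw [show σ ^ n = σ⁻¹ from hn, Equiv.Perm.coe_inv, Equiv.symm_apply_apply] at this
  exact Subtype.ext (hD _ _ ⟨k j, this⟩)

/-- the lines of the minors -/
theorem exists_minor (hD : D.Hat) {B : Finset I} (hB : ∀ j k, D.gp j k → j ∈ B → k ∈ B) :
    ∃ (κ : Type) (_ : Fintype κ) (L : Bun D.XS κ 1) (v : Pt I D.m → κ → ℂ),
      D.Wt (fun g => ∏ j ∈ B, (D.om g ^ D.uni.A)⁻¹ * g j j) L v ∧ L.x ∈ D.hyp := by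
  classical
  let v : Pt I D.m → (B → Cn D.nU I D.m) → ℂ := fun p J =>
    (((D.Phv p).submatrix (fun j : B => j.1) id).submatrix id J).det
  have k : ∀ J, IsPoly co fun p => v p J := fun J => IsPoly.det fun i j => Phv_poly _ _
  obtain ⟨L, h⟩ := exists_wt (v := v) (χ := fun g => ∏ j ∈ B, (D.om g ^ D.uni.A)⁻¹ * g j j)
    (poly_cont k) (fun p hp => by
      let S : Matrix (Cn D.nU I D.m) D.Mu ℂ := of fun c d => if d.1 = c then
        star (D.sv p d.2) / ∑ k, D.sv p k * star (D.sv p k) else 0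
      have e : D.Phv p * S = D.Xi p := by
        ext i d
        simp [S, mul_apply, Xi]
      obtain ⟨J, hJ⟩ := exists_minor_ne (A := (D.Phv p).submatrix (fun j : B => j.1) id)
        (M := (S * D.Xp p).submatrix id fun j : B => j.1) (by
          rw [← submatrix_mul _ _ _ _ _ Function.bijective_id, ← Matrix.mul_assoc, e,
            Xi_Xp hp.toBase, submatrix_one _ Subtype.val_injective])
      exact fun c => hJ (congrFun c J)) fun g hg p _ => funext fun J => by
      have hG := D.Lie.smul_mem (D.om g ^ D.uni.A)⁻¹ hg.1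
      have := det_hat hD hG B
      simp only [Matrix.smul_apply, smul_eq_mul] at this
      rw [Pi.smul_apply, smul_eq_mul, ← this, ← det_sub_mul]
      simp only [v, Phv_act' (D.P_le hg)]
      congr 2
      ext a c
      simp only [submatrix_apply, Matrix.mul_apply, id]
      rw [Finset.sum_coe_sort B fun j => ((D.om g ^ D.uni.A)⁻¹ • g) a j * D.Phv p j c]
      exact (Finset.sum_subset B.subset_univ fun j _ hj => by
        rw [hG a j fun e => hj (hB _ _ e a.2), zero_mul]).symm
  exact ⟨_, _, L, v, h, _, _, _, L, v, h, k, rfl⟩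

theorem ell_wt (hD : D.Hat) (i : I) :
    D.Wt (fun g => g⁻¹ i i) (ell hD i) fun p x => (D.PG p i * D.Xp p) x i where
  cont := by
    have c := fun U => continuousOn_iff_continuous_domRestrict.1
      ((Nn_cont (D := D) U).mono fun p (h : D.St p) => h.toBase)
    have c' := continuousOn_iff_continuous_domRestrict.1
      ((Xp_cont (D := D)).mono fun p (h : D.St p) => h.toBase)
    exact continuousOn_iff_continuous_domRestrict.2 (continuous_pi fun x =>
      (((c _).sub (c _)).matrix_mul c').matrix_elem x i)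
  ne p hp c := by
    have := PG_diag hD hp.toBase i
    rw [Matrix.mul_assoc, mul_apply] at this
    simp [fun x => congrFun c x] at this
  eq p hp := funext fun x => by
    rw [ell_pt hD hp]
    change (D.PG p i * (D.PG p i * D.Xp p)) x i = _
    rw [← Matrix.mul_assoc, (PG_op hp.toBase i).idem]
  act g hg p hp := funext fun x => by
    have F := PG_frm hD hp.toBase
    have e : D.PG p i * D.Xp p = D.Xp p * (D.Xi p * D.PG p i * D.Xp p) := by
      rw [← Matrix.mul_assoc, ← Matrix.mul_assoc, F.AB_l]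
    rw [PG_act hg, Xp_act (D.P_le hg), ← Matrix.mul_assoc, mul_apply, Pi.smul_apply, smul_eq_mul,
      Finset.sum_eq_single i (fun k _ n => ?_) (by simp), mul_comm]
    by_contra c
    refine left_ne_zero_of_mul c ?_
    rw [e, mul_apply]
    refine Finset.sum_eq_zero fun j _ => mul_eq_zero_of_right _ (by_contra fun t => n ?_)
    exact hD _ _ ⟨by_contra fun s => right_ne_zero_of_mul c (inv_mem_Lie hg.1 k i s), (F.tri _ _ _ t).2⟩

theorem ell_x_mem (hD : D.Hat) (i : I) :
    (ell hD i).x ∈ Submodule.span ℂ (D.hyp : Set (HE D.XS)) := by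
  classical
  have hi : i ∈ Finset.univ.filter (D.gp i) := by simpa using D.gp_refl i
  obtain ⟨κ, _, L, v, h, m⟩ := exists_minor hD (B := Finset.univ.filter (D.gp i))
    fun j k e hj => by simpa using gp_trans (Finset.mem_filter.1 hj).2 e
  obtain ⟨κ', _, L', v', h', m'⟩ := exists_minor hD (B := (Finset.univ.filter (D.gp i)).erase i)
    fun j k e hj => by
      simp only [Finset.mem_erase, Finset.mem_filter, Finset.mem_univ, true_and] at hj ⊢
      exact ⟨fun c => hj.1 (hD _ _ ⟨c ▸ e, hj.2⟩), gp_trans hj.2 e⟩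
  obtain ⟨L₀, h₀⟩ := exists_wt (v := D.sv) (χ := fun g => (D.om g ^ D.uni.A)⁻¹)
    (poly_cont sv_poly) (fun p hp c => by
      obtain ⟨k, hk, -⟩ := uni_gen hp.toBase
      exact hk (congrFun c k)) fun g hg p _ => funext (sv_act' (D.P_le hg) p)
  have e := (h₀.tens h').x_eq ((ell_wt hD i).tens h) fun g hg => by
    have : g⁻¹ i i * g i i = 1 := by
      rw [← one_apply_eq (α := ℂ) i, ← nonsing_inv_mul g hg.2, mul_apply]
      symm
      refine Finset.sum_eq_single i (fun k _ n => by_contra fun c => n (hD _ _ ⟨?_, ?_⟩)) (by simp)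
      · exact by_contra fun s => right_ne_zero_of_mul c (hg.1 k i s)
      · exact by_contra fun s => left_ne_zero_of_mul c (inv_mem_Lie hg.1 i k s)
    rw [← Finset.mul_prod_erase _ _ hi]
    linear_combination (D.om g ^ D.uni.A)⁻¹ * (∏ j ∈ (Finset.univ.filter (D.gp i)).erase i,
      (D.om g ^ D.uni.A)⁻¹ * g j j) * this
  rw [Bun.x_tens, Bun.x_tens] at e
  rw [eq_sub_of_add_eq e]
  exact sub_mem (Submodule.subset_span (D.hyp.add_mem ⟨_, _, _, _, _, h₀, sv_poly, rfl⟩ m'))
    (Submodule.subset_span m)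

/-- the tautological classes are combinations of classes of hyperplanes -/
theorem ell_x_hyp (hD : D.Hat) (i : I) : (ell hD i).x ∈ Submodule.span ℂ (Hyp D.mf) :=
  Submodule.span_mono (fun _ => hyp_le) (ell_x_mem hD i)

end Dat

end Pool.Agent.CS
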