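import Pool.Agent.P.MP_d34769_ag.YGA

/-! The algebra of the class of the diagonal. -/

open MvPolynomial

noncomputable section
namespace Pool.Agent.CS

variable {I J : Type}

/-- the restriction to the second group of variables -/
def sndP : MvPolynomial (I ⊕ J) ℂ →ₐ[ℂ] MvPolynomial J ℂ := aeval (Sum.elim 0 X)

theorem split_hom {e : MvPolynomial (I ⊕ J) ℂ} {N : ℕ} (he : e.IsHomogeneous N) :
    ∃ (s : Finset (I ⊕ J →₀ ℕ)) (a : (I ⊕ J →₀ ℕ) → MvPolynomial I ℂ)
      (b : (I ⊕ J →₀ ℕ) → MvPolynomial J ℂ),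
      e = ∑ i ∈ s, rename Sum.inl (a i) * rename Sum.inr (b i) ∧
      ∀ i ∈ s, ∃ p q, p + q = N ∧ (a i).IsHomogeneous p ∧ (b i).IsHomogeneous q := by
  refine ⟨e.support, fun i => monomial (i.comapDomain Sum.inl Sum.inl_injective.injOn) (coeff i e),
    fun i => monomial (i.comapDomain Sum.inr Sum.inr_injective.injOn) 1, ?_, fun i hi => ?_⟩
  · conv_lhs => rw [e.as_sum]
    refine Finset.sum_congr rfl fun i _ => ?_
    rw [rename_monomial, rename_monomial, monomial_mul, mul_one, ← Finsupp.sumElim_eq_add,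
      Finsupp.comapDomain_sumElim_comapDomain]
  · refine ⟨_, _, ?_, isHomogeneous_monomial _ rfl, isHomogeneous_monomial _ rfl⟩
    rw [← Finsupp.degree_mapDomain (Sum.inl : I → I ⊕ J) (i.comapDomain _ _),
      ← Finsupp.degree_mapDomain (Sum.inr : J → I ⊕ J) (i.comapDomain Sum.inr _), ← map_add,
      ← Finsupp.sumElim_eq_add, Finsupp.comapDomain_sumElim_comapDomain, Finsupp.degree_eq_weight_one]
    exact he (mem_support_iff.1 hi)

theorem sndP_mul (a : MvPolynomial I ℂ) (b : MvPolynomial J ℂ) :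
    sndP (rename Sum.inl a * rename Sum.inr b) = constantCoeff a • b := by
  rw [map_mul, sndP, aeval_rename, aeval_rename, Sum.elim_comp_inl, Sum.elim_comp_inr,
    aeval_X_left_apply, aeval_zero, Algebra.smul_def]

theorem cc_hom {a : MvPolynomial I ℂ} {p : ℕ} (ha : a.IsHomogeneous p) :
    (p = 0 ∧ a = C (constantCoeff a)) ∨ (0 < p ∧ constantCoeff a = 0) := by
  rcases Nat.eq_zero_or_pos p with rfl | hp
  · exact .inl ⟨rfl, totalDegree_eq_zero_iff_eq_C.1 ((totalDegree_zero_iff_isHomogeneous _).2 ha)⟩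
  · exact .inr ⟨hp, ha.coeff_eq_zero (by simpa using hp.ne)⟩

theorem sndP_hom {e : MvPolynomial (I ⊕ J) ℂ} {N : ℕ} (he : e.IsHomogeneous N) :
    (sndP e).IsHomogeneous N := by
  obtain ⟨s, a, b, rfl, h⟩ := split_hom he
  rw [map_sum]
  refine IsHomogeneous.sum _ _ _ fun i hi => ?_
  obtain ⟨p, q, e, h1, h2⟩ := h i hi
  rw [sndP_mul]
  rcases cc_hom h1 with ⟨rfl, -⟩ | ⟨-, h3⟩
  · exact (homogeneousSubmodule J ℂ N).smul_mem _ (by rwa [← e, zero_add])
  · rw [h3, zero_smul]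
    exact isHomogeneous_zero _ _ _

variable {R R' T : Type} [Ring R] [Algebra ℂ R] [Ring R'] [Algebra ℂ R'] [Ring T] [Algebra ℂ T]
  {ev : MvPolynomial I ℂ →ₐ[ℂ] R} {ev' : MvPolynomial J ℂ →ₐ[ℂ] R'} {p1 : R →ₐ[ℂ] T}
  {p2 : R' →ₐ[ℂ] T} {E : MvPolynomial (I ⊕ J) ℂ →ₐ[ℂ] T} {e : MvPolynomial (I ⊕ J) ℂ} {N : ℕ}

/-- the slant product with a functional is well defined -/
def Slant (p1 : R →ₐ[ℂ] T) (p2 : R' →ₐ[ℂ] T) : Prop :=
  ∀ (κ : Type) (s : Finset κ) (u : κ → R) (v : κ → R') (μ : R' →ₗ[ℂ] ℂ),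
    ∑ i ∈ s, p1 (u i) * p2 (v i) = 0 → ∑ i ∈ s, μ (v i) • u i = 0

/-- A top class that is killed by the class of the correspondence vanishes. -/
theorem diag_top (h1 : ∀ a, E (rename Sum.inl a) = p1 (ev a))
    (h2 : ∀ b, E (rename Sum.inr b) = p2 (ev' b)) (sl : Slant p1 p2) (he : e.IsHomogeneous N)
    (h0 : ev' (sndP e) ≠ 0) {t : MvPolynomial I ℂ}
    (hi : ∀ a p, 0 < p → IsHomogeneous a p → ev (t * a) = 0) (ht : p1 (ev t) * E e = 0) :
    ev t = 0 := by
  obtain ⟨s, a, b, rfl, h⟩ := split_hom he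
  obtain ⟨μ, hμ⟩ := Module.Projective.exists_dual_ne_zero ℂ h0
  have h3 := sl _ s (fun i => ev (t * a i)) (fun i => ev' (b i)) μ (by
    simpa only [map_sum, map_mul, h1, h2, Finset.mul_sum, mul_assoc] using ht)
  rw [Finset.sum_congr rfl (g := fun i => μ (ev' (constantCoeff (a i) • b i)) • ev t) fun i hi' => ?_,
    ← Finset.sum_smul] at h3
  · refine (smul_eq_zero.1 h3).resolve_left ?_
    simpa only [map_sum, sndP_mul] using hμ
  · obtain ⟨p, q, -, c, -⟩ := h i hi'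
    rcases cc_hom c with ⟨-, c'⟩ | ⟨hp, c'⟩
    · conv_lhs => rw [c', mul_comm, ← smul_eq_C_mul]
      rw [map_smul, map_smul, map_smul, smul_smul, smul_eq_mul, mul_comm]
    · rw [hi _ _ hp c, c', zero_smul, map_zero, map_zero, smul_zero, zero_smul]

/-- The class of the diagonal gives generation and Poincaré duality. -/
theorem pd_of_diag {p2 : R →ₐ[ℂ] T} {E : MvPolynomial (I ⊕ I) ℂ →ₐ[ℂ] T}
    {e : MvPolynomial (I ⊕ I) ℂ} (h1 : ∀ a, E (rename Sum.inl a) = p1 (ev a))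
    (h2 : ∀ b, E (rename Sum.inr b) = p2 (ev b)) (sl : Slant p1 p2) (he : e.IsHomogeneous N)
    (cen : ∀ a c, p2 c * p1 (ev a) = p1 (ev a) * p2 c) (dg : ∀ c, p1 c * E e = p2 c * E e)
    {μ : R →ₗ[ℂ] ℂ} (hμ : ∀ p c, IsHomogeneous c p → p ≠ N → μ (ev c) = 0)
    (h0 : μ (ev (sndP e)) ≠ 0) :
    Function.Surjective ev ∧ PD N (RingHom.ker ev) (μ ∘ₗ ev.toLinearMap) := by
  obtain ⟨s, a, b, rfl, h⟩ := split_hom he
  have key : ∀ c, μ (ev (sndP (∑ i ∈ s, rename Sum.inl (a i) * rename Sum.inr (b i)))) • c =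
      ∑ i ∈ s, μ (c * ev (b i)) • ev (a i) := fun c => by
    have h3 := sl _ (s.disjSum s) (Sum.elim (fun i => c * ev (a i)) fun i => -ev (a i))
      (Sum.elim (fun i => ev (b i)) fun i => c * ev (b i)) μ (by
        have := dg c
        simp only [map_sum, map_mul, h1, h2, Finset.mul_sum, ← mul_assoc, cen] at this
        simp only [Finset.sum_disjSum, Sum.elim_inl, Sum.elim_inr, map_mul, map_neg, neg_mul,
          Finset.sum_neg_distrib, ← mul_assoc, this, add_neg_cancel])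
    simp only [Finset.sum_disjSum, Sum.elim_inl, Sum.elim_inr, smul_neg, Finset.sum_neg_distrib,
      add_neg_eq_zero] at h3
    rw [← h3]
    simp only [map_sum, sndP_mul, Finset.sum_smul]
    refine Finset.sum_congr rfl fun i hi => ?_
    obtain ⟨p, q, e, c1, c2⟩ := h i hi
    rcases cc_hom c1 with ⟨-, c'⟩ | ⟨hp, c'⟩
    · conv_rhs => rw [c', ← algebraMap_eq, AlgHom.commutes, ← Algebra.commutes, ← Algebra.smul_def]
      rw [map_smul, map_smul, smul_smul, smul_eq_mul, mul_comm]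
    · rw [c', hμ q _ c2 (by omega), zero_smul, zero_smul, map_zero, map_zero, zero_smul]
  refine ⟨fun c => ?_, hμ, fun c => ⟨fun hc b => ?_, fun hc => ?_⟩⟩
  · refine ⟨(μ (ev (sndP (∑ i ∈ s, rename Sum.inl (a i) * rename Sum.inr (b i)))))⁻¹ •
      ∑ i ∈ s, μ (c * ev (b i)) • a i, ?_⟩
    rw [map_smul, inv_smul_eq_iff₀ h0, key]
    simp only [map_sum, map_smul]
  · change μ (ev (c * b)) = 0
    rw [map_mul, RingHom.mem_ker.1 hc, zero_mul, map_zero]
  · refine (smul_eq_zero.1 ((key (ev c)).trans (Finset.sum_eq_zero fun i _ => ?_))).resolve_left h0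
    rw [← map_mul, show μ (ev (c * b i)) = 0 from hc (b i), zero_smul]

/-- the constant term of the quotient of two split polynomials -/
def quo0 {S σ τ : Type} [CommRing S] (u : Finset σ) (v : Finset τ) (a : σ → S) (c : τ → S) : S :=
  (Polynomial.divByMonic (∏ t ∈ v, (Polynomial.X - Polynomial.C (c t)))
    (∏ s ∈ u, (Polynomial.X - Polynomial.C (a s)))).coeff 0

theorem map_quo0 {S H σ τ : Type} [CommRing S] [CommRing H] (f : S →+* H) (u : Finset σ)
    (v : Finset τ) (a : σ → S) (c : τ → S) {g : Polynomial H}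
    (h : ∏ t ∈ v, (Polynomial.X - Polynomial.C (f (c t))) =
      (∏ s ∈ u, (Polynomial.X - Polynomial.C (f (a s)))) * g) : f (quo0 u v a c) = g.coeff 0 := by
  rw [quo0, ← Polynomial.coeff_map,
    Polynomial.map_divByMonic _ (Polynomial.monic_prod_X_sub_C _ _)]
  simp only [Polynomial.map_prod, Polynomial.map_sub, Polynomial.map_X, Polynomial.map_C]
  rw [h, Polynomial.mul_divByMonic_cancel_left _ (Polynomial.monic_prod_X_sub_C _ _)]

end Pool.Agent.CS
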