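import Pool.Agent.P.MP_d34769_ag.YG1b
import Pool.Agent.P.MP_d34769_ag.YG2a
import Pool.Agent.P.MP_d34769_ag.YBW

/-! The class of the diagonal. -/

set_option linter.unusedSectionVars false

open Matrix Set

noncomputable section
namespace Pool.Agent.CS

variable {I M M' μ ν X Y : Type} [Fintype I] [DecidableEq I] [Fintype M] [DecidableEq M]
  [Fintype M'] [DecidableEq M'] [Fintype μ] [DecidableEq μ] [Fintype ν] [DecidableEq ν]
  [TopologicalSpace X] [TopologicalSpace Y] {m N : ℕ}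

theorem Bun.x_inl (L : Bun Y μ 1) : (L.inl ν).x = L.x := L.x_iso _ continuous_const L.inl_ne

theorem Bun.x_inr (L : Bun Y ν 1) : (L.inr μ).x = L.x := L.x_iso _ continuous_const L.inr_ne

/-- the roots of the bundle of homomorphisms -/
def aX (s : I × I) : MvPolynomial (I ⊕ I) ℂ := .X (.inr s.1) - .X (.inl s.2)

/-- the roots of the bundle of arrows and framings -/
def cX (m : ℕ) : Cx3 I I m → MvPolynomial (I ⊕ I) ℂ :=
  Sum.elim (fun p => aX p.2) fun p => .X (.inr p.1)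

/-- the class of the diagonal as a polynomial -/
def Dat.eD (D : Dat I) (N : ℕ) : MvPolynomial (I ⊕ I) ℂ :=
  MvPolynomial.homogeneousComponent N (quo0 D.sA D.sC aX (cX D.m))

theorem Dat.eD_hom (D : Dat I) (N : ℕ) : (D.eD N).IsHomogeneous N :=
  MvPolynomial.homogeneousComponent_isHomogeneous _ _

namespace Tb
variable (T : Tb I m Y M) (T' : Tb I m Y M')

/-- the classes of the lines -/
def x (i : I) : HE Y := (T.l i).x

theorem x_comap (g : C(X, Y)) : (T.comap g).x = fun i => HE.pull g (T.x i) :=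
  funext fun i => ((T.l i).pull_x g).symm

theorem pull_ev (g : C(X, Y)) (φ : MvPolynomial I ℂ) :
    HR.pull g (ev T.x φ) = ev (T.comap g).x φ := by rw [x_comap, CS.pull_ev]

theorem bA_x (s : I × I) : (T.bA T' s).x = MvPolynomial.aeval (Sum.elim T.x T'.x) (aX s) := by
  simp [bA, aX, Bun.x_tens, Bun.x_tr, x, sub_eq_add_neg]

theorem bC_x (t : Cx3 I I m) :
    (T.bC T' t).x = MvPolynomial.aeval (Sum.elim T.x T'.x) (cX m t) := by
  cases t <;> simp [bC, cX, Bun.x_inl, Bun.x_inr, Bun.x_tens, Bun.x_const, bA_x, x]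

end Tb

variable [CompactSpace Y] [T2Space Y] {D : Dat I} {T : Tb I D.m Y M} {T' : Tb I D.m Y M'}
  (hp : ∀ y, ∃ p p' A B A' B', Pair D T T' y p p' A B A' B') (hN : D.sC.card = D.sA.card + N)
include hp hN

theorem exists_E : ∃ (E : Bun Y (Cx3 M' M D.m) N) (ψ : Y → Matrix (M' × M) (Cx3 M' M D.m) ℂ),
    Continuous ψ ∧ ev (Sum.elim T.x T'.x) (D.eD N) = (E.g.coeff 0).1 ∧
    (∀ y v, (∑ s ∈ D.sA, (T.bA T' s).Q y) *ᵥ v = v → ψ y *ᵥ T.ph T' y *ᵥ v = v) ∧
    ∀ y u, (∑ t ∈ D.sC, (T.bC T' t).Q y) *ᵥ u = u → (E.Q y *ᵥ u = 0 ↔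
      ∃ v, (∑ s ∈ D.sA, (T.bA T' s).Q y) *ᵥ v = v ∧ T.ph T' y *ᵥ v = u) := by
  choose p p' A B A' B' h using hp
  obtain ⟨_, ψ, h1, h2⟩ := exists_compl
    (Bun.sum D.sA (T.bA T') fun _ _ _ _ e y => (h y).orthA e)
    (Bun.sum D.sC (T.bC T') fun _ _ _ _ e y => (h y).orthC e) hN (T.cont_ph T')
    (fun y => (h y).into) fun y => (h y).inj
  obtain ⟨E, h3, -, h4⟩ := Bun.ch
    (Bun.sum D.sA (T.bA T') fun _ _ _ _ e y => (h y).orthA e)
    (Bun.sum D.sC (T.bC T') fun _ _ _ _ e y => (h y).orthC e) hN (T.cont_ph T')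
    (fun y => (h y).into) fun y => (h y).inj
  simp only [Bun.g_sum, Tb.bA_x, Tb.bC_x] at h3
  refine ⟨E, ψ, h1, ?_, fun y v hv => ?_, h4⟩
  · rw [Dat.eD, ← hp_ev (by rintro (i | i) <;> exact Bun.x_mem _)]
    change CS.hp Y (2 * N) (MvPolynomial.aeval _ _ : HE Y).1 = _
    rw [show MvPolynomial.aeval (Sum.elim T.x T'.x) (quo0 D.sA D.sC aX (cX D.m)) = _ from
      map_quo0 (g := E.g) (MvPolynomial.aeval (Sum.elim T.x T'.x)).toRingHom D.sA D.sC aX (cX D.m)
        (by simpa only [AlgHom.toRingHom_eq_coe, RingHom.coe_coe] using h3)]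
    exact mem_hr_nat.1 (by exact_mod_cast E.g_coeff_zero)
  · simpa only [← mulVec_mulVec, Bun.sum_Q, hv] using congrArg (· *ᵥ v) (h2 y).2.2.1

/-- The class of the diagonal lives on the closed set of the framed homomorphisms. -/
theorem exists_homs : ∃ (Γ : Set Y) (h : Y → Matrix M' M ℂ), IsClosed Γ ∧ Continuous h ∧
    (∀ c, HR.res Γ c = 0 → c * ev (Sum.elim T.x T'.x) (D.eD N) = 0) ∧
    ∀ y ∈ Γ, ∀ p p' A B A' B', Pair D T T' y p p' A B A' B' → ∃ k ∈ D.Lie, h y = A' * k * B ∧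
      (∀ a, k * p.1 a = p'.1 a * k) ∧ k * p.2 = p'.2 := by
  obtain ⟨E, ψ, h1, h2, h3, h4⟩ := exists_E hp hN
  have h0 := isClosed_eq (E.cont.matrix_mulVec T'.cont_sec) (continuous_const (y := 0))
  refine ⟨_, fun y => of fun i j => (ψ y *ᵥ T'.sec y) (i, j), h0,
    continuous_matrix fun i j => (continuous_apply (i, j)).comp (h1.matrix_mulVec T'.cont_sec),
    fun c hc => (supp h0 hc fun K hK hd => ?_).2, fun y hy p p' A B A' B' h => ?_⟩
  · rw [h2]
    exact E.res_g_sec T'.cont_sec hK fun y hy => disjoint_left.1 hd hy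
  · obtain ⟨v, h5, h6⟩ := (h4 y _ h.secC).1 hy
    obtain ⟨k, hk, e, h7⟩ := h.sol h5 h6
    exact ⟨k, hk, vc_inj (((congrArg _ h6.symm).trans (h3 y v h5)).trans e), h7⟩

end Pool.Agent.CS
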