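import Pool.Agent.P.MP_d34769_ag.YG1a
import Pool.Agent.P.MP_d34769_ag.YB1

/-! The bundles of the diagonal. -/

set_option linter.unusedSectionVars false

open Matrix Kronecker Filter Topology

noncomputable section
namespace Pool.Agent.CS

variable {I M M' μ ν X Y : Type} [Fintype I] [DecidableEq I] [Fintype M] [DecidableEq M]
  [Fintype M'] [DecidableEq M'] [Fintype μ] [DecidableEq μ] [Fintype ν] [DecidableEq ν]
  [TopologicalSpace X] [TopologicalSpace Y] {m r : ℕ}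

theorem Frm.supp {gp : I → I → Prop} {l : I → Matrix M M ℂ} {A : Matrix M I ℂ} {B : Matrix I M ℂ}
    (F : Frm gp l A B) {q : I → Prop} (hq : ∀ i j, gp i j → q j → q i) {u : I → ℂ}
    (hu : ∀ i, ¬ q i → l i *ᵥ A *ᵥ u = 0) {j : I} (hj : ¬ q j) : u j = 0 := by
  have h1 : u = ∑ i, B *ᵥ l i *ᵥ A *ᵥ u := by
    rw [← mulVec_sum, ← sum_mulVec, ← F.AB, mulVec_mulVec, mulVec_mulVec, ← Matrix.mul_assoc, F.BA,
      Matrix.one_mul, F.BA, one_mulVec]
  rw [h1, Finset.sum_apply]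
  refine Finset.sum_eq_zero fun i _ => ?_
  by_cases c : q i
  · rw [mulVec_mulVec, mulVec_mulVec]
    exact Finset.sum_eq_zero fun k _ => by_contra fun e =>
      hj (hq _ _ (F.tri i j k (left_ne_zero_of_mul e)).1 c)
  · rw [hu i c, mulVec_zero, Pi.zero_apply]

/-- If the arrow entries from `S` to its complement vanish on the lines, they vanish. -/
theorem Dat.ent_zero {D : Dat I} {l : I → Matrix M M ℂ} {A : Matrix M I ℂ} {B : Matrix I M ℂ}
    (F : Frm D.gp l A B) {S : Finset I} (hS : ∀ i k, D.gp i k → k ∈ S → i ∈ S) {ρ : Rp I}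
    (hρ : ρ ∈ D.R) (a : Fin 3)
    (h : ∀ k ∈ S, ∀ i ∉ S, D.ap a i k → l i * (A * ρ a * B) * l k = 0) {i k : I} (hk : k ∈ S)
    (hi : i ∉ S) : ρ a i k = 0 := by
  refine (F.kron F.tr).supp (q := fun s => s.2 ∈ S → s.1 ∈ S) (u := vc (ρ a)) (j := (i, k))
    (fun s t e c d => hS _ _ e.1 (c (hS _ _ e.2 d))) (fun s c => ?_) fun c => hi (c hk)
  by_cases e : D.ap a s.1 s.2
  · rw [Classical.not_imp] at c
    rw [kron_vc, kron_vc, h _ c.1 _ c.2 e]
    rfl
  · exact (F.kron F.tr).kill (r := fun s => D.ap a s.1 s.2)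
      (fun s t e c => Dat.ap_gp (Dat.gp_ap e.1 c) e.2) (fun s => hρ a s.1 s.2) e

open scoped Matrix.Norms.Elementwise in
/-- Transversality persists near the base point. -/
theorem Dat.ev_tr (D : Dat I) (p : Pt I D.m) {N : ℕ} (L : (Fin N → ℂ) →ₗ[ℂ] Pt I D.m)
    (h0 : ∀ k ∈ D.Lie, ∀ w, (fun a => k * p.1 a - p.1 a * k, k * p.2) = L w → k = 0 ∧ w = 0) :
    ∀ᶠ n in 𝓝 0, ∀ k ∈ D.Lie, ∀ w,
      (fun a => k * p.1 a - (p + L n).1 a * k, k * p.2) = L w → w = 0 := by
  let T : (Fin N → ℂ) → (D.Lie × (Fin N → ℂ)) →L[ℂ] Pt I D.m := fun n =>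
    LinearMap.toContinuousLinearMap
      { toFun z := (fun a => z.1.1 * p.1 a - (p + L n).1 a * z.1.1, z.1.1 * p.2) - L z.2
        map_add' z z' := by
          ext <;> simp [Matrix.add_mul, Matrix.mul_add] <;> ring
        map_smul' c z := by
          ext <;> simp <;> ring }
  have hL := L.continuous_of_finiteDimensional
  have hT : Continuous T := continuous_clm_apply.2 fun z => by
    change Continuous fun n =>
      ((fun a => z.1.1 * p.1 a - (p + L n).1 a * z.1.1, z.1.1 * p.2) : Pt I D.m) - L z.2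
    fun_prop
  have h1 : Function.Injective (T 0) := (injective_iff_map_eq_zero _).2 fun z hz => by
    have := h0 z.1.1 z.1.2 z.2 (by
      have := sub_eq_zero.1 hz
      rwa [map_zero, add_zero] at this)
    exact Prod.ext (Subtype.ext this.1) this.2
  filter_upwards [hT.continuousAt.eventually (ContinuousLinearMap.isOpen_injective.mem_nhds h1)]
    with n hn k hk w e
  exact congrArg Prod.snd ((injective_iff_map_eq_zero _).1 hn (⟨k, hk⟩, w) (sub_eq_zero.2 e))

theorem OP.single (i : μ) : OP 1 (single i i (1 : ℂ)) :=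
  ⟨by simp, by simp, by simp⟩

/-- a bundle in the first summand -/
def Bun.inl (L : Bun Y μ r) (ν : Type) [Fintype ν] [DecidableEq ν] : Bun Y (μ ⊕ ν) r :=
  ⟨fun y => blkL (L.Q y), L.cont.matrix_fromBlocks continuous_const continuous_const
    continuous_const, fun y => ⟨by simp [blkL, fromBlocks_conjTranspose, (L.op y).herm],
      by simp [blkL, fromBlocks_multiply, (L.op y).idem],
      by simpa [blkL, trace, Fintype.sum_sum_type] using (L.op y).tr⟩⟩

/-- a bundle in the second summand -/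
def Bun.inr (L : Bun Y ν r) (μ : Type) [Fintype μ] [DecidableEq μ] : Bun Y (μ ⊕ ν) r :=
  ⟨fun y => blkR (L.Q y), continuous_const.matrix_fromBlocks continuous_const continuous_const
    L.cont, fun y => ⟨by simp [blkR, fromBlocks_conjTranspose, (L.op y).herm],
      by simp [blkR, fromBlocks_multiply, (L.op y).idem],
      by simpa [blkR, trace, Fintype.sum_sum_type] using (L.op y).tr⟩⟩

theorem Bun.inl_ne (L : Bun Y μ 1) (y : Y) :
    (L.inl ν).Q y * fromRows (1 : Matrix μ μ ℂ) (0 : Matrix ν μ ℂ) * L.Q y ≠ 0 := fun h =>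
  (L.op y).ne_zero <| Matrix.ext fun i j => by
    simpa [Bun.inl, blkL, fromBlocks_mul_fromRows, fromRows_mul, (L.op y).idem] using
      congrFun (congrFun h (.inl i)) j

theorem Bun.inr_ne (L : Bun Y ν 1) (y : Y) :
    (L.inr μ).Q y * fromRows (0 : Matrix μ ν ℂ) (1 : Matrix ν ν ℂ) * L.Q y ≠ 0 := fun h =>
  (L.op y).ne_zero <| Matrix.ext fun i j => by
    simpa [Bun.inr, blkR, fromBlocks_mul_fromRows, fromRows_mul, (L.op y).idem] using
      congrFun (congrFun h (.inr i)) j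

/-- a family of framed representations on a sum of lines -/
structure Tb (I : Type) (m : ℕ) (Y : Type) [TopologicalSpace Y] (M : Type) [Fintype M] where
  l : I → Bun Y M 1
  r : Y → Fin 3 → Matrix M M ℂ
  f : Y → Matrix M (Fin m) ℂ
  cr : Continuous r
  cf : Continuous f

namespace Tb

/-- pull-back -/
def comap (T : Tb I m Y M) (g : C(X, Y)) : Tb I m X M :=
  ⟨fun i => (T.l i).comap g, fun x => T.r (g x), fun x => T.f (g x), T.cr.comp g.continuous,
    T.cf.comp g.continuous⟩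

/-- the family is `p` at the point `y`, in the frame `A` -/
structure At (D : Dat I) (T : Tb I D.m Y M) (y : Y) (p : Pt I D.m) (A : Matrix M I ℂ)
    (B : Matrix I M ℂ) : Prop where
  frm : Frm D.gp (fun i => (T.l i).Q y) A B
  r_eq : T.r y = fun a => A * p.1 a * B
  f_eq : T.f y = A * p.2

variable (T : Tb I m Y M) (T' : Tb I m Y M')

/-- the lines of the bundle of homomorphisms -/
def bA (s : I × I) : Bun Y (M' × M) 1 := (T'.l s.1).tens (T.l s.2).tr

/-- the lines of the bundle of arrows and framings -/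
def bC : Cx3 I I m → Bun Y (Cx3 M' M m) 1 :=
  Sum.elim (fun p => ((Bun.const Y (OP.single p.1)).tens (bA T T' p.2)).inl _)
    fun p => ((T'.l p.1).tens (Bun.const Y (OP.single p.2))).inr _

theorem bC_Q (t : Cx3 I I m) (y : Y) :
    (bC T T' t).Q y = lnC (fun i => (T'.l i).Q y) (fun i => (T.l i).Q y) m t := by
  cases t <;> rfl

/-- the bundle map -/
def ph (y : Y) : Matrix (Cx3 M' M m) (M' × M) ℂ := phi (T.r y) (T'.r y) (T.f y)

/-- the section -/
def sec (y : Y) : Cx3 M' M m → ℂ := fl 0 (T'.f y)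

theorem cont_ph : Continuous (ph T T') := by
  refine continuous_matrix ?_
  rintro (p | p) q
  · exact (continuous_const.mul (((continuous_apply p.1).comp T.cr).matrix_elem _ _)).sub
      ((((continuous_apply p.1).comp T'.cr).matrix_elem _ _).mul continuous_const)
  · exact continuous_const.mul (T.cf.matrix_elem _ _)

theorem cont_sec : Continuous (sec (M := M) T') := by
  refine continuous_pi ?_
  rintro (p | p)
  · exact continuous_const
  · exact T'.cf.matrix_elem _ _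

end Tb

namespace Dat
variable (D : Dat I)

open Classical in
/-- the entries of the group pattern -/
def sA : Finset (I × I) := Finset.univ.filter fun s => D.gp s.1 s.2

open Classical in
/-- the entries of the arrows and the framing -/
def sC : Finset (Cx3 I I D.m) := Finset.univ.filter D.cq

end Dat

/-- two families at a point -/
structure Pair (D : Dat I) (T : Tb I D.m Y M) (T' : Tb I D.m Y M') (y : Y) (p p' : Pt I D.m)
    (A : Matrix M I ℂ) (B : Matrix I M ℂ) (A' : Matrix M' I ℂ) (B' : Matrix I M' ℂ) : Prop where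
  a1 : T.At D y p A B
  a2 : T'.At D y p' A' B'
  m1 : p.1 ∈ D.R
  m2 : p'.1 ∈ D.R
  hom0 : ∀ h ∈ D.Lie, (∀ a, h * p.1 a = p'.1 a * h) → h * p.2 = 0 → h = 0

namespace Pair
variable {D : Dat I} {T : Tb I D.m Y M} {T' : Tb I D.m Y M'} {y : Y} {p p' : Pt I D.m}
  {A : Matrix M I ℂ} {B : Matrix I M ℂ} {A' : Matrix M' I ℂ} {B' : Matrix I M' ℂ}
  (h : Pair D T T' y p p' A B A' B')
include h

theorem orthA {s t : I × I} (e : s ≠ t) : (T.bA T' s).Q y * (T.bA T' t).Q y = 0 :=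
  (h.a2.frm.kron h.a1.frm.tr).orth s t e

theorem orthC {s t : Cx3 I I D.m} (e : s ≠ t) : (T.bC T' s).Q y * (T.bC T' t).Q y = 0 := by
  rw [Tb.bC_Q, Tb.bC_Q]
  exact ((Frm.triv.kron (h.a2.frm.kron h.a1.frm.tr)).sum (h.a2.frm.kron Frm.triv)).orth s t e

theorem ranA (v : M' × M → ℂ) : (∑ s ∈ D.sA, (T.bA T' s).Q y) *ᵥ v = v ↔
    ∃ k ∈ D.Lie, v = vc (A' * k * B) := by
  classical
  rw [Finset.sum_subtype (F := inferInstance) D.sA (p := fun s => D.gp s.1 s.2) (by simp [Dat.sA])]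
  exact Dat.ranA h.a1.frm h.a2.frm v

theorem ranC (v : Cx3 M' M D.m → ℂ) : (∑ t ∈ D.sC, (T.bC T' t).Q y) *ᵥ v = v ↔
    ∃ σ ∈ D.R, ∃ g, v = fl (fun a => A' * σ a * B) (A' * g) := by
  classical
  rw [Finset.sum_subtype (F := inferInstance) D.sC (p := D.cq) (by simp [Dat.sC])]
  simp only [Tb.bC_Q]
  exact Dat.ranC h.a1.frm h.a2.frm v

theorem ph_vc (k : Matrix I I ℂ) : T.ph T' y *ᵥ vc (A' * k * B) =
    fl (fun a => A' * (k * p.1 a - p'.1 a * k) * B) (A' * (k * p.2)) := by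
  rw [Tb.ph, h.a1.r_eq, h.a2.r_eq, h.a1.f_eq]
  exact Dat.phi_frm h.a1.frm h.a2.frm _ _ _ _

theorem sec_eq : T'.sec y = fl (fun a => A' * (0 : Rp I) a * B) (A' * p'.2) := by
  rw [Tb.sec, h.a2.f_eq]
  congr 1
  funext a
  simp

theorem into : (∑ t ∈ D.sC, (T.bC T' t).Q y) * (T.ph T' y * ∑ s ∈ D.sA, (T.bA T' s).Q y) =
    T.ph T' y * ∑ s ∈ D.sA, (T.bA T' s).Q y := by
  refine ext_iff_mulVec.2 fun v => ?_
  obtain ⟨k, hk, e⟩ := (h.ranA ((∑ s ∈ D.sA, (T.bA T' s).Q y) *ᵥ v)).1 (by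
    rw [mulVec_mulVec, (OP.sum _ (fun s _ => (T.bA T' s).op y) fun _ _ _ _ => h.orthA).idem])
  rw [← mulVec_mulVec, ← mulVec_mulVec, e, h.ph_vc, h.ranC]
  exact ⟨_, Dat.comm_mem_R hk h.m1 h.m2, _, rfl⟩

theorem inj (v : M' × M → ℂ) (h1 : (∑ s ∈ D.sA, (T.bA T' s).Q y) *ᵥ v = v)
    (h2 : T.ph T' y *ᵥ v = 0) : v = 0 := by
  obtain ⟨k, hk, rfl⟩ := (h.ranA v).1 h1
  have := Dat.fl_frm (τ := 0) (k := 0) h.a1.frm h.a2.frm ((h.ph_vc k).symm.trans (h2.trans (by
    simp only [Pi.zero_apply, Matrix.mul_zero, Matrix.zero_mul]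
    exact fl_zero.symm)))
  rw [h.hom0 k hk (fun a => sub_eq_zero.1 (congrFun this.1 a)) this.2, Matrix.mul_zero,
    Matrix.zero_mul]
  rfl

theorem secC : (∑ t ∈ D.sC, (T.bC T' t).Q y) *ᵥ T'.sec y = T'.sec y :=
  (h.ranC _).2 ⟨0, D.R.zero_mem, _, h.sec_eq⟩

theorem sol {v : M' × M → ℂ} (h1 : (∑ s ∈ D.sA, (T.bA T' s).Q y) *ᵥ v = v)
    (h2 : T.ph T' y *ᵥ v = T'.sec y) :
    ∃ k ∈ D.Lie, v = vc (A' * k * B) ∧ (∀ a, k * p.1 a = p'.1 a * k) ∧ k * p.2 = p'.2 := by
  obtain ⟨k, hk, rfl⟩ := (h.ranA v).1 h1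
  have := Dat.fl_frm h.a1.frm h.a2.frm ((h.ph_vc k).symm.trans (h2.trans h.sec_eq))
  exact ⟨k, hk, rfl, fun a => sub_eq_zero.1 (congrFun this.1 a), this.2⟩

end Pair

end Pool.Agent.CS
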