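import Pool.Agent.P.MP_d34769_ag.YG1
import Pool.Agent.P.MP_d34769_ag.YG3a
import Pool.Agent.P.MP_d34769_ag.YE3
import Pool.Agent.P.MP_d34769_ag.YBE
import Pool.Agent.P.MP_d34769_ag.YC5

/-! The class of the diagonal does not vanish on a fibre; generation and Poincaré duality. -/

set_option linter.unusedSectionVars false

open Matrix Set Filter Topology

noncomputable section
namespace Pool.Agent.CS

variable {I : Type} [Fintype I] [DecidableEq I]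

theorem ev_sndP {J Y : Type} [TopologicalSpace Y] (x : J → HE Y) (e : MvPolynomial (I ⊕ J) ℂ) :
    ev x (sndP e) = ev (Sum.elim 0 x) e :=
  DFunLike.congr_fun (MvPolynomial.algHom_ext (f := (ev x).comp sndP) (g := ev (Sum.elim 0 x))
    (by rintro (i | i) <;> simp [sndP, ev_X])) e

/-- the top class of a bundle over a projective manifold with one transversal zero -/
theorem eul_mf {M N : ℕ} {ν : Type} [Fintype ν] {Z : Set (HT.Amb M)} [CompactSpace Z]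
    (hZ : HIR.Mf N Z) (E : Bun Z ν N) (κ : C(Bl (Fin N → ℂ), Z)) (hκ : Function.Injective κ)
    (op : IsOpen (κ '' (Bd _)ᶜ)) {s : Z → ν → ℂ} (hs : Continuous s)
    (h0 : ∀ y, E.Q y *ᵥ s y = 0 → y = κ ⟨0, Metric.mem_closedBall_self zero_le_one⟩)
    {ψ : Bl (Fin N → ℂ) → Matrix ν (Fin N) ℂ} (hψ : Continuous ψ)
    (inj : ∀ v w, E.Q (κ v) *ᵥ ψ v *ᵥ w = 0 → w = 0)
    (e : ∀ v, E.Q (κ v) *ᵥ s (κ v) = E.Q (κ v) *ᵥ ψ v *ᵥ v.1) : E.g.coeff 0 ≠ 0 := by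
  have m0 : κ ⟨0, Metric.mem_closedBall_self zero_le_one⟩ ∈ κ '' (Bd _)ᶜ :=
    ⟨_, by simp [Bd], rfl⟩
  refine E.eul κ op.isClosed_compl (fun v => by rw [mem_compl_iff, hκ.mem_set_image, mem_compl_iff,
    not_not]) (fun t ht => ?_) (by exact_mod_cast ori hZ op m0) hs
    (fun y hy h => hy (h0 y h ▸ m0)) (fun v => (ψ v).mulVecLin.restrictScalars ℝ)
    ((hψ.comp continuous_fst).matrix_mulVec continuous_snd) inj e
  obtain ⟨v, -, rfl⟩ := not_not.1 ht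
  exact ⟨v, rfl, fun w hw => hκ hw⟩

namespace Dat
variable {D : Dat I} {p q : Pt I D.m}

/-- the tautological family -/
def tb (hD : D.Hat) : Tb I D.m D.XS D.Mu :=
  ⟨ell hD, fun x a => D.rt a x, D.ft, continuous_pi rt_cont, ft_cont⟩

theorem tb_at (hD : D.Hat) (hp : D.St p) : (tb hD).At D (pt p hp) p (D.Xp p) (D.Xi p) :=
  ⟨ell_frm hD hp, funext (rt_pt hp), ft_pt hp⟩

theorem card_sC (hp : D.St p) : D.sC.card = D.sA.card + D.dim := by
  classical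
  have h := dim_add hp
  rw [Nat.card_eq_fintype_card, Nat.card_eq_fintype_card, Fintype.card_subtype,
    Fintype.card_subtype] at h
  rw [add_comm, sA, h, sC, Finset.card_filter, Fintype.sum_sum_type, Finset.card_filter]
  congr 1
  simp [cq]

theorem pt_of_hom (hp : D.St p) (hq : D.St q) {k : Matrix I I ℂ} (hk : k ∈ D.Lie)
    (h1 : ∀ a, k * p.1 a = q.1 a * k) (h2 : k * p.2 = q.2) : pt p hp = pt q hq :=
  have hu := hom1 hq.gen hp.ss (D.Lie_le hk) h1 h2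
  (pt_eq_iff hp hq).2 ⟨k, ⟨hk, hu⟩, Prod.ext ((actR_eq_iff hu).2 h1).symm h2.symm⟩

/-- a small ball in a slice -/
theorem exists_ball (hp : D.St p) : ∃ (L : (Fin D.dim → ℂ) →ₗ[ℂ] Pt I D.m)
    (h : ∀ v : Bl (Fin D.dim → ℂ), D.St (p + L v.1)), (∀ w, (L w).1 ∈ D.R) ∧
    (Function.Injective fun v => pt _ (h v)) ∧ IsOpen ((fun v => pt _ (h v)) '' (Bd _)ᶜ) ∧
    ∀ v : Bl (Fin D.dim → ℂ), ∀ k ∈ D.Lie, ∀ w,
      (fun a => k * p.1 a - (p + L v.1).1 a * k, k * p.2) = L w → w = 0 := by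
  obtain ⟨L, hL⟩ := exists_slice hp
  obtain ⟨O, g, h1, h2, h3, -⟩ := hL.chart hp
  obtain ⟨ε, hε, h4⟩ := Metric.nhds_basis_closedBall.mem_iff.1 (((hL.ev hp).and (D.ev_tr p L
    fun k hk w e => by
      have := hL.ind k hk w e
      rw [this, map_zero] at e
      exact ⟨inf_inj hp hk e, this⟩)).and (h1.isOpen.mem_nhds h3))
  have h5 : ∀ v : Fin D.dim → ℂ, ‖(ε : ℂ) • v‖ = ε * ‖v‖ := fun v => by
    rw [norm_smul, Complex.norm_real, Real.norm_of_nonneg hε.le]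
  have h6 : ∀ v : Bl (Fin D.dim → ℂ), (ε : ℂ) • v.1 ∈ Metric.closedBall 0 ε := fun v => by
    rw [mem_closedBall_zero_iff, h5]
    exact mul_le_of_le_one_right hε.le (mem_closedBall_zero_iff.1 v.2)
  have h7 : (ε : ℂ) ≠ 0 := by exact_mod_cast hε.ne'
  have h8 : ∀ n, (HT.proj ∘ g) n = D.pt0 (p + L n) := fun n => (congrFun h2 n).symm
  obtain ⟨L', hL'⟩ : ∃ L' : (Fin D.dim → ℂ) →ₗ[ℂ] Pt I D.m, ∀ w, L' w = L ((ε : ℂ) • w) :=
    ⟨L ∘ₗ ((ε : ℂ) • LinearMap.id), fun _ => rfl⟩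
  have h9 : ∀ v h, (pt (p + L' v) h).1 = (HT.proj ∘ g) ((ε : ℂ) • v) := fun v _ => by
    rw [h8, ← hL']
    rfl
  refine ⟨L', fun v => hL' _ ▸ (h4 (h6 v)).1.1, fun w => hL' _ ▸ (hL.mem _).1,
    fun v w e => Subtype.ext (smul_right_injective _ h7 (h1.inj (h4 (h6 v)).2 (h4 (h6 w)).2
      ((h9 _ _).symm.trans ((congrArg Subtype.val e).trans (h9 _ _))))), ?_, fun v k hk w e => ?_⟩
  · obtain ⟨W, hW, e⟩ := h1.opn (Metric.ball 0 ε)
      (fun n hn => (h4 (Metric.ball_subset_closedBall hn)).2) Metric.isOpen_ball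
    refine isOpen_induced_iff.2 ⟨W, hW, Set.ext fun y => ⟨fun hy => ?_, ?_⟩⟩
    · obtain ⟨n, hn, e'⟩ := e.ge ⟨y.2, hy⟩
      obtain ⟨v, rfl⟩ : ∃ v, (ε : ℂ) • v = n := ⟨_, smul_inv_smul₀ h7 n⟩
      rw [mem_ball_zero_iff, h5, mul_lt_iff_lt_one_right hε] at hn
      exact ⟨⟨v, mem_closedBall_zero_iff.2 hn.le⟩, hn.ne, Subtype.ext ((h9 _ _).trans e')⟩
    · rintro ⟨v, hv, rfl⟩
      refine (e.le ⟨(ε : ℂ) • v.1, ?_, (h9 _ _).symm⟩).2
      rw [mem_ball_zero_iff, h5]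
      exact (mul_lt_iff_lt_one_right hε).2 ((mem_closedBall_zero_iff.1 v.2).lt_of_ne hv)
  · rw [hL', hL'] at e
    exact (smul_eq_zero.1 ((h4 (h6 v)).1.2 k hk _ e)).resolve_left h7

theorem eD_ne (hD : D.Hat) (hp : D.St p) : ev (tb hD).x (sndP (D.eD D.dim)) ≠ 0 := by
  let T := (tb hD).comap (ContinuousMap.const D.XS (pt p hp))
  have hP : ∀ q hq, Pair D T (tb hD) (pt q hq) p q (D.Xp p) (D.Xi p) (D.Xp q) (D.Xi q) :=
    fun q hq => ⟨⟨(tb_at hD hp).1, (tb_at hD hp).2, (tb_at hD hp).3⟩, tb_at hD hq, hp.mem, hq.mem,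
      fun k hk => hp.hom0 hq (D.Lie_le hk)⟩
  obtain ⟨E, -, -, h2, -, h4⟩ := exists_E (T := T) (T' := tb hD) (fun y => by
    obtain ⟨q, hq, rfl⟩ := exists_pt y
    exact ⟨_, _, _, _, _, _, hP q hq⟩) (card_sC hp)
  obtain ⟨L, h, l1, l2, l3, l4⟩ := exists_ball hp
  have hc : Continuous fun v : Bl (Fin D.dim → ℂ) => p + L v.1 :=
    continuous_const.add (L.continuous_of_finiteDimensional.comp continuous_subtype_val)
  have hA := Xp_cont.comp_continuous hc fun v => (h v).toBase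
  have e1 : ∀ (v : Bl (Fin D.dim → ℂ)) w, (frC (D.Xp (p + L v.1)) (D.Xi p) D.m *
      LinearMap.toMatrix' ((coL I D.m).toLinearMap ∘ₗ L)) *ᵥ w = fl
      (fun a => D.Xp (p + L v.1) * (L w).1 a * D.Xi p) (D.Xp (p + L v.1) * (L w).2) :=
    fun v w => by
      rw [← mulVec_mulVec, LinearMap.toMatrix'_mulVec, ← frC_fl]
      rfl
  rw [ev_sndP, show (0 : I → HE D.XS) = T.x from
    funext fun i => (Bun.x_const (((tb hD).l i).op (pt p hp))).symm, h2]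
  refine fun h0 => eul_mf D.mf E ⟨_, cont_pt hc h⟩ l2 l3
    (tb hD).cont_sec (fun y hy => ?_) (ψ := fun v => frC (D.Xp (p + L v.1)) (D.Xi p) D.m *
      LinearMap.toMatrix' ((coL I D.m).toLinearMap ∘ₗ L)) ?_ (fun v w e => ?_) (fun v => ?_)
    (Subtype.ext h0)
  · obtain ⟨q, hq, rfl⟩ := exists_pt y
    obtain ⟨_, a, b⟩ := (h4 _ _ (hP q hq).secC).1 hy
    obtain ⟨k, hk, -, c, d⟩ := (hP q hq).sol a b
    rw [← pt_of_hom hp hq hk c d]
    exact Subtype.ext (congrArg D.pt0 (by simp))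
  · refine Continuous.matrix_mul (Continuous.matrix_fromBlocks ?_ continuous_const continuous_const
      ?_) continuous_const
    · exact continuous_matrix fun i j =>
        continuous_const.mul ((hA.matrix_elem _ _).mul continuous_const)
    · exact continuous_matrix fun i j => (hA.matrix_elem _ _).mul continuous_const
  · rw [e1] at e
    obtain ⟨_, a, b⟩ := (h4 _ _ (((hP _ (h v)).ranC _).2 ⟨_, l1 w, _, rfl⟩)).1 e
    obtain ⟨k, hk, c⟩ := ((hP _ (h v)).ranA _).1 a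
    rw [c, (hP _ (h v)).ph_vc] at b
    have := fl_frm (hP _ (h v)).a1.frm (hP _ (h v)).a2.frm b
    exact l4 v k hk w (Prod.ext this.1 this.2)
  · have a := (h4 _ _ (((hP _ (h v)).ranC _).2 ⟨_, comm_mem_R D.one_mem_Lie hp.mem (h v).mem, _,
      rfl⟩)).2 ⟨_, ((hP _ (h v)).ranA _).2 ⟨1, D.one_mem_Lie, rfl⟩, (hP _ (h v)).ph_vc 1⟩
    replace a := (congrArg _ (frC_fl _ _ _ _)).trans a
    change E.Q (pt _ (h v)) *ᵥ (tb hD).sec (pt _ (h v)) = E.Q (pt _ (h v)) *ᵥ _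
    rw [e1, ← frC_fl, ← add_zero (_ *ᵥ _ *ᵥ fl _ _), ← a, ← mulVec_add, ← mulVec_add]
    refine congrArg _ (((hP _ (h v)).sec_eq.trans (frC_fl _ _ _ _).symm).trans (congrArg _ ?_))
    funext t
    cases t <;> simp [fl, vc, add_comm]

/-- the correspondence of framed homomorphisms from a family to the tautological family -/
theorem exists_cor {X M : Type} [TopologicalSpace X] [CompactSpace X] [T2Space X] [Fintype M]
    [DecidableEq M] (hD : D.Hat) (hp : D.St p) (T : Tb I D.m X M) {t : Fin 3 → ℤ}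
    (ht : ∀ q, D.St q → D.SS t q.1) {S : X → Pt I D.m → Matrix M I ℂ → Matrix I M ℂ → Prop}
    (h1 : ∀ x, ∃ p A B, S x p A B) (h2 : ∀ x p A B, S x p A B → T.At D x p A B ∧ p.1 ∈ D.R ∧
      ∀ σ, D.SS t σ → ∀ k ∈ D.base.Lie, (∀ a, k * p.1 a = σ a * k) → k * p.2 = 0 → k = 0) :
    ∃ (E : MvPolynomial (I ⊕ I) ℂ →ₐ[ℂ] HR (X × D.XS)) (Γ : Set _) (h : _ → Matrix _ _ ℂ),
      IsClosed Γ ∧ Continuous h ∧
      (∀ a, E (MvPolynomial.rename .inl a) = HR.pull .fst (ev T.x a)) ∧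
      (∀ a, E (MvPolynomial.rename .inr a) = HR.pull .snd (evH hD a)) ∧
      (∀ c, HR.res Γ c = 0 → c * E (D.eD D.dim) = 0) ∧
      ∀ x p A B q hq, S x p A B → (x, pt q hq) ∈ Γ → ∃ k ∈ D.Lie,
        h (x, pt q hq) = D.Xp q * k * B ∧ (∀ a, k * p.1 a = q.1 a * k) ∧ k * p.2 = q.2 := by
  have hP : ∀ x p A B q hq, S x p A B → Pair D (T.comap .fst) ((tb hD).comap .snd) (x, pt q hq)
      p q A B (D.Xp q) (D.Xi q) := fun x p A B q hq h =>
    have h := h2 x p A B h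
    ⟨⟨h.1.1, h.1.2, h.1.3⟩, ⟨(tb_at hD hq).1, (tb_at hD hq).2, (tb_at hD hq).3⟩, h.2.1, hq.mem,
      fun k hk => h.2.2 _ (ht q hq) k (D.Lie_le hk)⟩
  obtain ⟨Γ, h, h3, h4, h5, h6⟩ := exists_homs (T := T.comap .fst) (T' := (tb hD).comap .snd)
    (fun ⟨x, y⟩ => by
      obtain ⟨p, A, B, h⟩ := h1 x
      obtain ⟨q, hq, rfl⟩ := exists_pt y
      exact ⟨_, _, _, _, _, _, hP x p A B q hq h⟩) (card_sC hp)
  refine ⟨_, Γ, h, h3, h4, fun a => ?_, fun a => ?_, h5,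
    fun x p A B q hq h hy => h6 _ hy _ _ _ _ _ _ (hP x p A B q hq h)⟩
  · rw [ev_rename, Sum.elim_comp_inl, Tb.pull_ev]
  · rw [ev_rename, Sum.elim_comp_inr, ← Tb.pull_ev]
    rfl

/-- The cohomology is generated by the classes of the lines and satisfies Poincaré duality. -/
theorem pd (hD : D.Hat) (hp : D.St p) : Function.Surjective (evH hD) ∧
    ∃ Λ, PD D.dim (RingHom.ker (evH hD)) Λ := by
  obtain ⟨E, Γ, _, -, -, h1, h2, h3, h4⟩ := exists_cor hD hp (tb hD) (fun _ h => h.ss)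
    (S := fun x p A B => ∃ hp, pt p hp = x ∧ D.Xp p = A ∧ D.Xi p = B)
    (fun x => (exists_pt x).imp fun _ h => ⟨_, _, h.imp fun _ e => ⟨e, rfl, rfl⟩⟩) (by
      rintro _ p _ _ ⟨hp, rfl, rfl, rfl⟩
      exact ⟨tb_at hD hp, hp.mem, fun _ hσ _ => hom0 hp.gen hσ⟩)
  obtain ⟨μ, hμ⟩ := Module.Projective.exists_dual_ne_zero ℂ (eD_ne hD hp)
  refine (pd_of_diag (ev := evH hD) h1 h2 (fun _ s u v l => slant s u v l) (D.eD_hom _)
    (fun a c => (HE_comm (pull_mem_HE _ (ev_mem_HE _ a)) _).symm) (fun c => ?_)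
    (μ := μ ∘ₗ CS.hp _ (2 * D.dim)) (fun n c hc e => ?_) ?_).imp_right fun h => ⟨_, h⟩
  · rw [← sub_eq_zero, ← sub_mul]
    refine h3 _ ?_
    rw [map_sub, HR.pull_pull, HR.pull_pull, sub_eq_zero]
    refine congrArg (HR.pull · c) (ContinuousMap.ext ?_)
    rintro ⟨⟨x, y⟩, hy⟩
    obtain ⟨p, hp, rfl⟩ := exists_pt x
    obtain ⟨q, hq, rfl⟩ := exists_pt y
    obtain ⟨k, hk, -, a, b⟩ := h4 _ p _ _ q hq ⟨hp, rfl, rfl, rfl⟩ hy
    exact pt_of_hom hp hq hk a b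
  · rw [LinearMap.comp_apply, evH, mem_hr.1 (evL_mem_hr _ hc) _ (by push_cast; omega), map_zero]
  · rwa [LinearMap.comp_apply, evH, hp_evL,
      MvPolynomial.homogeneousComponent_eq_self (sndP_hom (D.eD_hom _))]

theorem evH_surj (hD : D.Hat) : Function.Surjective (evH hD) := by
  cases isEmpty_or_nonempty D.XS with
  | inl h => exact fun c => ⟨0, HR.subsingleton.elim _ _⟩
  | inr h => exact (pd hD (sec_st h.some.2)).1

theorem pd_or (hD : D.Hat) : RingHom.ker (evH hD) = ⊤ ∨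
    ∃ p, D.St p ∧ ∃ Λ, PD D.dim (RingHom.ker (evH hD)) Λ := by
  cases isEmpty_or_nonempty D.XS with
  | inl h => exact .inl (eq_top_iff.2 fun c _ => HR.subsingleton.elim _ _)
  | inr h => exact .inr ⟨_, sec_st h.some.2, (pd hD (sec_st h.some.2)).2⟩

end Dat

end Pool.Agent.CS
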