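import Pool.Agent.P.MP_d34769_ag.YB0

/-! Simplicial signs; chains in a graded poset that varies over a base. -/

open Set Matrix
open scoped ComplexOrder

noncomputable section
namespace Pool.Agent.CS

section sign
variable {α : Type} [LinearOrder α]

/-- the sign of the face `R'` of the simplex `R` -/
def sgn (R R' : Finset α) : ℤ :=
  ∑ r ∈ R, if R' = R.erase r then (-1) ^ (R.filter (· < r)).card else 0

theorem sgn_erase {R : Finset α} {r : α} (h : r ∈ R) :
    sgn R (R.erase r) = (-1) ^ (R.filter (· < r)).card := by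
  rw [sgn, Finset.sum_eq_single_of_mem r h, if_pos rfl]
  intro b hb hne
  rw [if_neg]
  intro e
  exact hne ((Finset.erase_inj R h).1 e).symm

theorem sgn_ne {R R' : Finset α} (h : sgn R R' ≠ 0) : ∃ r ∈ R, R' = R.erase r := by
  obtain ⟨r, hr, h⟩ := Finset.exists_ne_zero_of_sum_ne_zero h
  exact ⟨r, hr, by by_contra e; exact h (if_neg e)⟩

theorem sgn_sub {R R' : Finset α} (h : sgn R R' ≠ 0) : R' ⊆ R := by
  obtain ⟨r, _, rfl⟩ := sgn_ne h
  exact Finset.erase_subset _ _

theorem sgn_card {R R' : Finset α} (h : sgn R R' ≠ 0) : R.card = R'.card + 1 := by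
  obtain ⟨r, hr, rfl⟩ := sgn_ne h
  exact (Finset.card_erase_add_one hr).symm

theorem sgn_sq {R : Finset α} {r : α} (h : r ∈ R) :
    sgn R (R.erase r) * sgn R (R.erase r) = 1 := by
  rw [sgn_erase h, ← mul_pow]; simp

theorem sum_sgn [Fintype α] {M : Type} [AddCommGroup M] (R : Finset α) (f : Finset α → M) :
    ∑ R', sgn R R' • f R' = ∑ r ∈ R, ((-1 : ℤ) ^ (R.filter (· < r)).card) • f (R.erase r) := by
  simp only [sgn, Finset.sum_smul, ite_smul, zero_smul]
  rw [Finset.sum_comm]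
  exact Finset.sum_congr rfl fun r _ => by simp

theorem card_filter_erase {R : Finset α} {a : α} (h : a ∈ R) (b : α) :
    (R.filter (· < b)).card = ((R.erase a).filter (· < b)).card + if a < b then 1 else 0 := by
  rw [Finset.filter_erase]
  split_ifs with e
  · exact (Finset.card_erase_add_one (Finset.mem_filter.2 ⟨h, e⟩)).symm
  · rw [Finset.erase_eq_of_notMem (by simp [e]), add_zero]

theorem sgn_sgn [Fintype α] (R R'' : Finset α) : ∑ R', sgn R R' * sgn R' R'' = 0 := by
  have h1 := sum_sgn R fun R' => sgn R' R''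
  simp only [smul_eq_mul] at h1
  rw [h1]
  simp only [sgn, Finset.mul_sum]
  rw [Finset.sum_sigma']
  refine Finset.sum_involution (fun x _ => ⟨x.2, x.1⟩) ?_ ?_ ?_ ?_
  · rintro ⟨a, b⟩ hx
    obtain ⟨ha, hb⟩ := Finset.mem_sigma.1 hx
    obtain ⟨hne, hb⟩ := Finset.mem_erase.1 hb
    dsimp only at ha hb hne ⊢
    rw [Finset.erase_right_comm (a := b)]
    split_ifs
    · rw [card_filter_erase hb a, card_filter_erase ha b]
      rcases lt_or_gt_of_ne hne with e | e
      · rw [if_pos e, if_neg e.not_gt]; ring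
      · rw [if_pos e, if_neg e.not_gt]; ring
    · simp
  · rintro ⟨a, b⟩ hx _ e
    obtain ⟨_, hb⟩ := Finset.mem_sigma.1 hx
    exact (Finset.mem_erase.1 hb).1 (congrArg Sigma.fst e)
  · rintro ⟨a, b⟩ hx
    obtain ⟨ha, hb⟩ := Finset.mem_sigma.1 hx
    obtain ⟨hne, hb⟩ := Finset.mem_erase.1 hb
    exact Finset.mem_sigma.2 ⟨hb, Finset.mem_erase.2 ⟨hne.symm, ha⟩⟩
  · rintro ⟨a, b⟩ _; rfl

/-- the same on a family of simplices that contains everything between two of its members -/
theorem sgn_sgn_sub [Fintype α] (p : Finset α → Prop) [Fintype {R // p R}] (R R'' : Finset α)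
    (hp : ∀ R', R'' ⊆ R' → R' ⊆ R → p R') : ∑ R' : {R // p R}, sgn R R'.1 * sgn R'.1 R'' = 0 := by
  classical
  rw [← Finset.sum_subtype (Finset.univ.filter p) (by simp) fun R' => sgn R R' * sgn R' R'',
    Finset.sum_filter_of_ne, sgn_sgn]
  intro R' _ h
  exact hp R' (sgn_sub (right_ne_zero_of_mul h)) (sgn_sub (left_ne_zero_of_mul h))

end sign

/-- A graded poset over `B`: `Q r` are the pairs (base point, element of rank `r`). -/
structure GP (B E : Type) [TopologicalSpace B] [TopologicalSpace E] (n : ℕ) where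
  Q : Fin n → Set (B × E)
  le : E → E → Prop
  cpt : ∀ r, IsCompact (Q r)
  cl : IsClosed {p : E × E | le p.1 p.2}
  trans : ∀ {a b c}, le a b → le b c → le a c
  refl : ∀ r p, p ∈ Q r → le p.2 p.2
  gr : ∀ r r' t u v, (t, u) ∈ Q r → (t, v) ∈ Q r' → le u v → r < r' ∨ (r = r' ∧ u = v)

namespace GP
variable {B E : Type} [TopologicalSpace B] [TopologicalSpace E] {n : ℕ} (S : GP B E n)

/-- chains whose set of ranks is `R` -/
def Ch (R : Finset (Fin n)) : Type :=
  {p : B × (R → E) // (∀ r : R, (p.1, p.2 r) ∈ S.Q r) ∧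
    ∀ r r' : R, r.1 < r'.1 → S.le (p.2 r) (p.2 r')}

instance (R : Finset (Fin n)) : TopologicalSpace (S.Ch R) := instTopologicalSpaceSubtype

instance [T2Space B] [T2Space E] (R : Finset (Fin n)) : T2Space (S.Ch R) :=
  inferInstanceAs (T2Space (Subtype _))

instance [CompactSpace B] [T2Space B] [T2Space E] (R : Finset (Fin n)) :
    CompactSpace (S.Ch R) := by
  refine isCompact_iff_compactSpace.1 (IsCompact.of_isClosed_subset
    (s := univ ×ˢ Set.pi univ fun r : R => Prod.snd '' S.Q r)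
    (isCompact_univ.prod (isCompact_univ_pi fun r => (S.cpt r).image continuous_snd)) ?_
    fun p h => ⟨trivial, fun r _ => ⟨_, h.1 r, rfl⟩⟩)
  have hc : ∀ a : R, Continuous fun p : B × (R → E) => p.2 a := fun a =>
    (continuous_apply a).comp continuous_snd
  have := (isClosed_iInter fun r : R => (S.cpt r).isClosed.preimage
    (continuous_fst.prodMk (hc r))).inter (isClosed_iInter fun r : R => isClosed_iInter
      fun r' : R => isClosed_iInter fun _ : r.1 < r'.1 => S.cl.preimage ((hc r).prodMk (hc r')))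
  refine Eq.mp (congrArg IsClosed (Set.ext fun p => ?_)) this
  simp only [Set.mem_inter_iff, Set.mem_iInter]
  rfl

/-- the base point of a chain -/
def pr (R : Finset (Fin n)) : C(S.Ch R, B) := ⟨fun p => p.1.1, continuous_subtype_val.fst⟩

/-- the element of rank `r` of a chain -/
def el {R : Finset (Fin n)} (r : R) : C(S.Ch R, E) :=
  ⟨fun p => p.1.2 r, (continuous_apply r).comp continuous_subtype_val.snd⟩

/-- the subchain with ranks in `R'` -/
def face {R R' : Finset (Fin n)} (h : R' ⊆ R) : C(S.Ch R, S.Ch R') :=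
  ⟨fun p => ⟨(p.1.1, fun r => p.1.2 ⟨r.1, h r.2⟩), fun r => p.2.1 ⟨r.1, h r.2⟩,
      fun r r' e => p.2.2 ⟨r.1, h r.2⟩ ⟨r'.1, h r'.2⟩ e⟩,
    Continuous.subtype_mk (continuous_subtype_val.fst.prodMk (continuous_pi fun r : R' =>
      (S.el (R := R) ⟨r.1, h r.2⟩).continuous)) _⟩

variable {S} {R R' R'' : Finset (Fin n)}

theorem Ch.ext {p q : S.Ch R} (h : S.pr R p = S.pr R q) (h' : ∀ r, S.el r p = S.el r q) : p = q :=
  Subtype.ext (Prod.ext h (funext h'))

theorem el_mem (p : S.Ch R) (r : R) : (S.pr R p, S.el r p) ∈ S.Q r := p.2.1 r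

theorem el_le (p : S.Ch R) (r r' : R) (h : r.1 ≤ r'.1) : S.le (S.el r p) (S.el r' p) := by
  rcases h.lt_or_eq with h | h
  · exact p.2.2 r r' h
  · rw [Subtype.ext h]; exact S.refl _ _ (el_mem p r')

@[simp] theorem pr_face (h : R' ⊆ R) (p : S.Ch R) : S.pr R' (S.face h p) = S.pr R p := rfl

@[simp] theorem el_face (h : R' ⊆ R) (p : S.Ch R) (r : R') :
    S.el r (S.face h p) = S.el ⟨r.1, h r.2⟩ p := rfl

theorem face_face (h : R' ⊆ R) (h' : R'' ⊆ R') (p : S.Ch R) :
    S.face h' (S.face h p) = S.face (h'.trans h) p := rfl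

theorem face_refl (p : S.Ch R) : S.face (Finset.Subset.refl R) p = p := rfl

theorem rank_le {r r' : Fin n} {t : B} {u v : E} (hu : (t, u) ∈ S.Q r) (hv : (t, v) ∈ S.Q r')
    (h : S.le u v) : r ≤ r' := (S.gr r r' t u v hu hv h).elim le_of_lt fun e => e.1.le

/-- `s` is a cone point of the fibre over `t`: every element has a least upper bound with `s` -/
def Cone (S : GP B E n) (t : B) (s : E) : Prop :=
  (∃ r, (t, s) ∈ S.Q r) ∧ ∀ r u, (t, u) ∈ S.Q r → ∃ r' w, (t, w) ∈ S.Q r' ∧ S.le u w ∧ S.le s w ∧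
    ∀ r'' v, (t, v) ∈ S.Q r'' → S.le u v → S.le s v → S.le w v

end GP

section op
variable {μ : Type} [Fintype μ] {r r' : ℕ} {P Q : Matrix μ μ ℂ}

theorem OP.lt_or_eq (hP : OP r P) (hQ : OP r' Q) (h : Q * P = P) : r < r' ∨ (r = r' ∧ P = Q) := by
  have h' : P * Q = P := by
    have := congrArg conjTranspose h
    rwa [conjTranspose_mul, hP.herm, hQ.herm] at this
  have h1 : (Q - P)ᴴ = Q - P := by rw [conjTranspose_sub, hP.herm, hQ.herm]
  have h2 : (Q - P) * (Q - P) = Q - P := by
    rw [Matrix.sub_mul, Matrix.mul_sub, Matrix.mul_sub, hP.idem, hQ.idem, h, h']; simp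
  have h3 : ((Q - P)ᴴ * (Q - P)).trace = (r' : ℂ) - r := by
    rw [h1, h2, trace_sub, hP.tr, hQ.tr]
  have h4 : (0 : ℂ) ≤ (r' : ℂ) - r := h3 ▸ (posSemidef_conjTranspose_mul_self (Q - P)).trace_nonneg
  have h5 : r ≤ r' := by
    have := (Complex.nonneg_iff.1 h4).1
    simp only [Complex.sub_re, Complex.natCast_re, sub_nonneg, Nat.cast_le] at this
    exact this
  rcases h5.lt_or_eq with e | e
  · exact Or.inl e
  · subst e
    rw [sub_self] at h3
    exact Or.inr ⟨rfl, (sub_eq_zero.1 (Matrix.trace_conjTranspose_mul_self_eq_zero_iff.1 h3)).symm⟩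

/-- the graded poset given by a closed family of orthogonal projectors of rank `< n` -/
def GP.ofOP {B : Type} [TopologicalSpace B] [CompactSpace B] (𝒬 : Set (B × Matrix μ μ ℂ))
    (h : IsClosed 𝒬) (n : ℕ) : GP B (Matrix μ μ ℂ) n where
  Q r := {p | p ∈ 𝒬 ∧ OP r p.2}
  le P Q := Q * P = P
  cpt r := (isCompact_univ.prod (isCompact_OP (μ := μ) r)).of_isClosed_subset
    (h.inter ((isClosed_OP r).preimage continuous_snd)) fun _ hp => ⟨trivial, hp.2⟩
  cl := isClosed_eq (continuous_snd.matrix_mul continuous_fst) continuous_fst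
  trans {a b c} h h' := by rw [← h, ← Matrix.mul_assoc, h']
  refl _ _ hp := hp.2.idem
  gr _ _ _ _ _ hu hv e := (hu.2.lt_or_eq hv.2 e).imp id fun e => ⟨Fin.ext e.1, e.2⟩

end op

end Pool.Agent.CS
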