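import Pool.Agent.P.MP_d34769_ag.YA5
import Pool.Agent.P.MP_d34769_ag.YK0

/-! The simplicial shape, cutting a shape along an upper set, and matchings. -/

noncomputable section
namespace Pool.Agent.CS

/-- the shape of the (augmented) simplex on `α` -/
abbrev Sh.simp (α : Type) [Fintype α] [LinearOrder α] : Sh where
  ι := Finset α
  deg := Finset.card
  rel R R' := R' ⊆ R
  ε := sgn
  sup _ _ h := ⟨sgn_sub h, sgn_card h⟩
  trans h h' := h'.trans h
  εε := sgn_sgn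

open Classical in
/-- forget the arrows that leave the upper set `a` -/
abbrev Sh.cut (S : Sh) (a : S.ι → Prop) (ha : ∀ {i j}, S.rel i j → a j → a i) : Sh where
  ι := S.ι
  deg := S.deg
  rel i j := S.rel i j ∧ (a i → a j)
  ε i j := if a i → a j then S.ε i j else 0
  sup i j h := by
    by_cases e : a i → a j
    · rw [if_pos e] at h; exact ⟨⟨(S.sup i j h).1, e⟩, (S.sup i j h).2⟩
    · exact (h (if_neg e)).elim
  trans h h' := ⟨S.trans h.1 h'.1, fun e => h'.2 (h.2 e)⟩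
  εε i k := by
    by_cases e : a i → a k
    · refine Eq.trans (Finset.sum_congr rfl fun j _ => ?_) (S.εε i k)
      by_cases h1 : S.ε i j = 0
      · simp [h1]
      by_cases h2 : S.ε j k = 0
      · simp [h2]
      rw [if_pos fun x => ha (S.sup j k h2).1 (e x), if_pos fun x => e (ha (S.sup i j h1).1 x)]
    · refine Finset.sum_eq_zero fun j _ => ?_
      by_cases h1 : a i → a j
      · rw [if_neg fun h2 : a j → a k => e fun x => h2 (h1 x), mul_zero]
      · rw [if_neg h1, zero_mul]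

variable {S : Sh} {T : S.ι → Type} [∀ i, AddCommGroup (T i)] [∀ i, Module ℂ (T i)]

open Classical in
theorem Sys.D_apply (Y : Sys S T) (c : ∀ i, T i) (i : S.ι) : Y.bg.D c i = (Y.A i).d (c i) +
    (Y.A i).s (∑ j, if h : S.rel i j then (S.ε i j : ℂ) • Y.pl h (c j) else 0) := by
  rw [← mat_apply S.ε (@Y.pl) c i]; rfl

/-- a system whose indices are matched in pairs along isomorphisms is acyclic -/
theorem Sys.ac_of_match {Y : Sys S T} {U N : ∀ i, Submodule ℂ (T i)} (hU : Y.Stab U)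
    (hN : Y.Stab N) (up : S.ι → Prop) (h1 : ∀ k, up k → ∃! i, ¬up i ∧ S.ε k i ≠ 0)
    (h2 : ∀ i, ¬up i → ∃! k, up k ∧ S.ε k i ≠ 0)
    (hs : ∀ {k i} (h : S.rel k i), up k → ¬up i → S.ε k i ≠ 0 → ∀ n, ∀ y ∈ (Y.A k).G n, y ∈ U k →
      ∃ x ∈ (Y.A i).G n, x ∈ U i ∧ y - Y.pl h x ∈ N k)
    (hi : ∀ {k i} (h : S.rel k i), up k → ¬up i → S.ε k i ≠ 0 → ∀ x, Y.pl h x ∈ N k → x ∈ N i)
    (n : ℤ) : (Y.bc hU hN).cx.Ac n := by
  classical
  have key : ∀ (c : ∀ i, T i) {k i} (h : S.rel k i), up k → ¬up i → S.ε k i ≠ 0 →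
      (∀ j, up j → c j ∈ N j) → Y.bg.D c k - (S.ε k i : ℂ) • (Y.A k).s (Y.pl h (c i)) ∈ N k := by
    intro c k i h hk hi' he hc
    rw [Y.D_apply, ← Finset.add_sum_erase _ _ (Finset.mem_univ i), dif_pos h, map_add, map_smul,
      add_sub_assoc, add_sub_cancel_left]
    refine (N k).add_mem (hN.d k _ (hc k hk)) (hN.s k _ ((N k).sum_mem fun j hj => ?_))
    split_ifs with hr
    · by_cases e : S.ε k j = 0
      · simp [e]
      by_cases u : up j
      · exact (N k).smul_mem _ (hN.pl hr _ (hc j u))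
      · exact ((Finset.mem_erase.1 hj).1 ((h1 k hk).unique ⟨u, e⟩ ⟨hi', he⟩)).elim
    · exact (N k).zero_mem
  intro c hc
  have hG := (Sys.mem_cx_G hU hN).1 hc.1
  have hb : ∀ i, ∃ b ∈ (Y.A i).G (n - 1 - S.deg i), b ∈ U i ∧ (up i → b = 0) ∧
      ∀ k (h : S.rel k i), up k → ¬up i → S.ε k i ≠ 0 →
        c k - (S.ε k i : ℂ) • (Y.A k).s (Y.pl h b) ∈ N k := by
    intro i
    by_cases u : up i
    · exact ⟨0, Submodule.zero_mem _, Submodule.zero_mem _, fun _ => rfl, fun _ _ _ h => (h u).elim⟩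
    obtain ⟨k, ⟨hk, he⟩, hu⟩ := h2 i u
    have hd : n - 1 - S.deg i = n - S.deg k := by rw [(S.sup k i he).2]; push_cast; ring
    have hsG : (Y.A k).s (c k) ∈ (Y.A k).G (n - S.deg k) := Gc.mem_G.2 fun m hm => by
      rw [← Gc.se, Gc.mem_G.1 (hG k).1 m hm, map_zero]
    obtain ⟨x, hx, hx', hy⟩ := hs (S.sup k i he).1 hk u he _ _ hsG (hU.s k _ (hG k).2)
    have he' : (S.ε k i : ℂ) ≠ 0 := Int.cast_ne_zero.2 he
    refine ⟨(S.ε k i : ℂ)⁻¹ • x, hd ▸ Submodule.smul_mem _ _ hx, Submodule.smul_mem _ _ hx',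
      fun h => (u h).elim, fun k' h hk' _ he'' => ?_⟩
    obtain rfl := hu k' ⟨hk', he''⟩
    have := hN.s _ _ hy
    rwa [map_smul, map_smul, smul_smul, mul_inv_cancel₀ he', one_smul, ← Gc.ss (A := Y.A k') (c k'),
      ← map_sub]
  choose b hb1 hb2 hb3 hb4 using hb
  have hbG : b ∈ (Y.bc hU hN).cx.G (n - 1) := (Sys.mem_cx_G hU hN).2 fun i => ⟨hb1 i, hb2 i⟩
  have hup : ∀ k, up k → (c - Y.bg.D b) k ∈ N k := by
    intro k hk
    obtain ⟨i, ⟨u, he⟩, _⟩ := h1 k hk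
    have h3 := key b (S.sup k i he).1 hk u he fun j hj => by rw [hb3 j hj]; exact (N j).zero_mem
    have h4 := (N k).sub_mem (hb4 i k (S.sup k i he).1 hk u he) h3
    rwa [sub_sub_sub_cancel_right] at h4
  refine Cx.mem_B.2 ⟨b, hbG, fun i _ => ?_⟩
  change (c - Y.bg.D b) i ∈ N i
  by_cases u : up i
  · exact hup i u
  obtain ⟨k, ⟨hk, he⟩, _⟩ := h2 i u
  have h3 := key _ (S.sup k i he).1 hk u he hup
  have h4 : Y.bg.D (c - Y.bg.D b) k ∈ N k := by
    rw [map_sub]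
    exact (N k).sub_mem (hc.2 k trivial) ((Y.bc hU hN).cx.dd _ b hbG k trivial)
  have h5 := hN.s _ _ ((N k).smul_mem (S.ε k i : ℂ)⁻¹ ((N k).sub_mem h4 h3))
  rw [sub_sub_cancel, smul_smul, inv_mul_cancel₀ (Int.cast_ne_zero.2 he), one_smul, Gc.ss] at h5
  exact hi _ hk u he _ h5

end Pool.Agent.CS
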