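import Pool.Agent.P.MP_d34769_ag.YS6
import Pool.Agent.P.MP_d34769_ag.YSC
import Pool.Agent.P.MP_d34769_ag.YK1

/-! A class that dies on the first column of a degenerate diagram dies where the diagram is
acyclic. -/

open Set

noncomputable section
namespace Pool.Agent.CS

theorem Dg.hn_col {S : Sh} {P : Dg S} (E : (Dg.bc (⊤ : P.Fam) ⊥).E2a) {K : P.Fam} {n : ℕ}
    (ac : (Dg.bc K ⊥).cx.Ac n) {i₀ : S.ι} (h0 : S.deg i₀ = 0) {y : AS (P.X i₀)}
    (hy : y ∈ (CC (P.X i₀)).Z n) (h1 : ∀ i (h : S.rel i i₀), S.deg i = 1 →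
      AS.pull (P.mp h) y ∈ (CC (P.X i)).B n) : y ∈ (CP (K.A i₀) ∅).B n := by
  classical
  have m := Dg.mor_id (K := ⊤) (A := ⊥) (K₁ := K) (A₁ := ⊥) (fun _ => subset_univ _)
    fun _ => subset_rfl
  have a0 : (Pi.single i₀ y : P.T) ∈ ((Dg.bc ⊤ ⊥).col 0).Z n := Dg.mem_col_Z.2 fun i => by
    by_cases e : i = i₀
    · subst e
      exact ⟨fun _ => by simpa using hy, fun h => absurd h0 h⟩
    · rw [Pi.single_eq_of_ne e]
      exact ⟨fun _ => zero_mem _, fun _ => rfl⟩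
  have a1 : ∀ i, (Dg.bc (⊤ : P.Fam) ⊥).δ (Pi.single i₀ y) i = if h : S.rel i i₀ then
      ((S.ε i i₀ : ℂ) * (-1) ^ n) • AS.pull (P.mp h) y else 0 := fun i => by
    change (AS.gc _).s (mat S.ε (@P.sys.pl) _ i) = _
    rw [mat_apply, Finset.sum_eq_single i₀ (fun j _ e => by simp [Pi.single_eq_of_ne e]) (by simp),
      Pi.single_eq_same]
    split_ifs with h
    · rw [map_smul, mul_smul, ← AS.s_of_G (AS.pull_mem_G _ hy.1.1)]
      rfl
    · exact map_zero _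
  obtain ⟨x, hx, e⟩ := E 0 n _ a0 (Dg.mem_col_B.2 fun i => by
    rw [a1]
    split_ifs with h
    · refine ⟨fun e => Submodule.smul_mem _ _ (h1 i h e), fun e => ?_⟩
      rw [show S.ε i i₀ = 0 from by_contra fun c => e (by rw [(S.sup _ _ c).2, h0])]
      simp
    · exact ⟨fun _ => zero_mem _, fun _ => zero_mem _⟩)
  have a2 := (m.fil 0).mem_Z hx
  rw [add_zero] at a2
  have a3 := Bc.lead_fil_B a2.1 (by
    rw [Bc.fil_zero] at a2 ⊢
    rw [Nat.cast_zero, zero_add] at a2 ⊢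
    exact ac a2)
  have a4 := (m.col 0).mem_B (sub_mem (Bc.lead_Z hx).1.1 a0.1) e
  rw [add_zero] at a4
  have a5 : (Pi.single i₀ y : P.T) ∈ ((Dg.bc K ⊥).col 0).B n := by
    have := sub_mem a3 a4
    rwa [LinearMap.id_apply, LinearMap.id_apply, show (Dg.bc K ⊥).e = (Dg.bc ⊤ ⊥).e from rfl, sub_sub_cancel] at this
  simpa using (Dg.mem_col_B.1 a5 i₀).1 h0

/-- the shape of a family of simplices that is closed under faces -/
abbrev Sh.good {α : Type} [Fintype α] [LinearOrder α] (p : Finset α → Prop)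
    (hp : ∀ R R', R' ⊆ R → p R → p R') : Sh where
  ι := {R // p R}
  fin := Fintype.ofFinite _
  deg R := R.1.card
  rel R R' := R'.1 ⊆ R.1
  ε R R' := sgn R.1 R'.1
  sup _ _ h := ⟨sgn_sub h, sgn_card h⟩
  trans h h' := h'.trans h
  εε R R'' := @sgn_sgn_sub α _ _ p (Fintype.ofFinite _) R.1 R''.1 fun _ _ h => hp _ _ h R.2

/-- the empty spaces can be dropped -/
theorem Dg.ac_sub {S S' : Sh} {P : Dg S} {Q : Dg S'} {τ : S.ι → S'.ι} (hτ : Function.Injective τ)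
    (hr : ∀ i j, S.rel i j ↔ S'.rel (τ i) (τ j)) (hε : ∀ i j, S.ε i j = S'.ε (τ i) (τ j))
    (hd : ∀ i, S.deg i = S'.deg (τ i)) (hc : ∀ i j, S'.rel (τ i) j → j ∈ range τ)
    (e : ∀ i, P.X i ≃ₜ Q.X (τ i))
    (he : ∀ {i j} (h : S.rel i j) x, e j (P.mp h x) = Q.mp ((hr i j).1 h) (e i x))
    (hem : ∀ j, j ∉ range τ → IsEmpty (Q.X j)) {K : P.Fam} {L : Q.Fam}
    (hK : ∀ i, K.A i = e i ⁻¹' L.A (τ i)) {n : ℤ} (ac : (Dg.bc L ⊥).cx.Ac n) :
    (Dg.bc K ⊥).cx.Ac n := by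
  classical
  let f : Q.T →ₗ[ℂ] P.T := LinearMap.pi fun i => AS.pl (e i) ∘ₗ LinearMap.proj (τ i)
  have fD : ∀ c, f ((Dg.bc L ⊥).cx.d c) = (Dg.bc K ⊥).cx.d (f c) := fun c => funext fun i => by
    change AS.pull (e i) (Q.sys.bg.D c (τ i)) = P.sys.bg.D (f c) i
    rw [Sys.D_apply, Sys.D_apply, map_add]
    refine congrArg₂ _ (AS.pull_d _ _) ((Gc.map_s (f := AS.pl (e i)) (AS.pull_e _) _).trans
      (congrArg _ ?_))
    rw [map_sum]
    refine (Fintype.sum_of_injective τ hτ _ _ (fun j h => ?_) fun j => ?_).symm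
    · rw [dif_neg fun c => h (hc i j c), map_zero]
    · by_cases h : S.rel i j
      · rw [dif_pos h, dif_pos ((hr i j).1 h), map_smul, hε]
        exact congrArg _ ((AS.pull_pull _ _ _).trans ((congrArg (AS.pull · _)
          (funext (he h))).trans (AS.pull_pull _ _ _).symm))
      · rw [dif_neg h, dif_neg fun c => h ((hr i j).2 c), map_zero]
  have fN : ∀ c, f c ∈ (Dg.bc K ⊥).N ↔ c ∈ (Dg.bc L ⊥).N := fun c => by
    rw [Dg.mem_N, Dg.mem_N]
    refine ⟨fun h j => (SC.mem_zz _).2 fun t ht => ?_, fun h i => (SC.mem_zz _).2 fun t ht =>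
      AS.z_pull (e i).continuous.continuousAt ((SC.mem_zz _).1 (h (τ i)) _ (by rwa [hK] at ht))⟩
    by_cases hj : j ∈ range τ
    · obtain ⟨i, rfl⟩ := hj
      have := AS.z_pull (e i).symm.continuous.continuousAt ((SC.mem_zz _).1 (h i)
        ((e i).symm t) (by rw [hK]; simpa using ht))
      change AS.pull _ (AS.pull (e i) (c _)) ∈ _ at this
      rwa [AS.pull_pull, Homeomorph.self_comp_symm, AS.pull_id] at this
    · exact (hem j hj).elim t
  intro x hx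
  have hx' : ∀ j, ∃ y ∈ (CP (L.A j) ∅).G (n - S'.deg j), ∀ i (h : τ i = j),
      AS.pull (e i) (h ▸ y) = x i := fun j => by
    by_cases hj : j ∈ range τ
    · obtain ⟨i, rfl⟩ := hj
      refine ⟨AS.pull (e i).symm (x i), AS.mem_cp_G.2
        ⟨AS.pull_mem_G _ (hd i ▸ (Dg.mem_cx_G.1 hx.1 i).1), by simp⟩, fun i' h => ?_⟩
      obtain rfl := hτ h
      rw [AS.pull_pull, Homeomorph.symm_comp_self, AS.pull_id]
    · exact ⟨0, zero_mem _, fun i h => absurd ⟨i, h⟩ hj⟩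
  choose x' h1 h2 using hx'
  have e1 : f x' = x := funext fun i => h2 _ i rfl
  obtain ⟨u, hu, h⟩ := Cx.mem_B.1 (ac (x := x') ⟨Dg.mem_cx_G.2 h1,
    (fN _).1 (by rw [fD, e1]; exact hx.2)⟩)
  refine Cx.mem_B.2 ⟨f u, Dg.mem_cx_G.2 fun i => AS.mem_cp_G.2
    ⟨AS.pull_mem_G _ (hd i ▸ (Dg.mem_cx_G.1 hu (τ i)).1), by simp⟩, ?_⟩
  rw [← fD, ← e1, ← map_sub]
  exact (fN _).2 h

end Pool.Agent.CS
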