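import Pool.Agent.P.MP_d34769_ag.YG0
import Pool.Agent.P.MP_d34769_ag.YE1
import Pool.Agent.P.MP_d34769_ag.YE4

/-! The standard coordinate subspace in the orbit of a graded subspace. -/

open Matrix Module

noncomputable section
namespace Pool.Agent.CS

variable {I : Type} [Fintype I] [DecidableEq I]

namespace Dat
variable (D : Dat I)

/-- the standard set of indices with the dimension vector of `U` -/
def ty (U : Submodule ℂ (I → ℂ)) : Finset I :=
  Finset.univ.filter fun j => (e4_enum D.cc_eq).choose j < finrank ℂ ↥(U ⊓ sp {l | D.cc j l})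

variable {D} {U U' : Submodule ℂ (I → ℂ)} {ρ σ : Rp I} {g : Matrix I I ℂ} {t : Fin 3 → ℤ}
  {C : Finset (Finset I)} {h : Chn C}

theorem ty_mono (h : U ≤ U') : D.ty U ⊆ D.ty U' := fun j hj => by
  simp only [ty, Finset.mem_filter, Finset.mem_univ, true_and] at hj ⊢
  exact hj.trans_le (Submodule.finrank_mono (inf_le_inf_right _ h))

theorem ty_card (U : Submodule ℂ (I → ℂ)) (i : I) :
    finrank ℂ ↥(U ⊓ sp {j | D.cc i j}) = {j | D.cc i j ∧ j ∈ (D.ty U : Set I)}.ncard := by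
  rw [← (e4_enum D.cc_eq).choose_spec i (finrank ℂ ↥(U ⊓ sp {j | D.cc i j}))
    ((Submodule.finrank_mono inf_le_right).trans (e4_finrank_sp _).le)]
  congr 1
  ext j
  refine and_congr_right fun hij => ?_
  have : {l | D.cc j l} = {l | D.cc i l} :=
    Set.ext fun l => ⟨fun h => D.cc_eq.trans hij h, fun h => D.cc_eq.trans (D.cc_eq.symm hij) h⟩
  simp only [ty, Finset.coe_filter, Finset.mem_univ, true_and, Set.mem_ofPred_eq]
  rw [this]

theorem ty_act (hg : g ∈ D.base.P) (hU : D.Sub ρ U) : D.ty (U.map g.mulVecLin) = D.ty U :=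
  Finset.filter_congr fun j _ => by
    rw [e4_map_inf D.cc_eq (fun i j e => by_contra fun c => e (hg.1 i j c)) hU.gr,
      e4_finrank_map hg.2]

theorem exists_ty {A : Type} (U : A → Submodule ℂ (I → ℂ)) (hc : ∀ a b, U a ≤ U b ∨ U b ≤ U a)
    (hU : ∀ a, D.Sub ρ (U a)) :
    ∃ k ∈ D.base.P, ∀ a, U a = (sp (D.ty (U a) : Set I)).map k.mulVecLin := by
  obtain ⟨k, hk, hb, e⟩ := e4_chain_of D.cc_eq U (fun a => D.ty (U a))
    (fun a b => (hc a b).imp (fun h => ⟨h, ty_mono h⟩) fun h => ⟨h, ty_mono h⟩)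
    (fun a => (hU a).gr) fun a => ty_card _
  exact ⟨k, ⟨fun i j c => by_contra fun e => c (hb i j e), e4_unit_det hk⟩, e⟩

theorem sub_zero_sp (F : Set I) : D.Sub 0 (sp F) := sub_sp.2 fun _ _ _ _ _ => rfl

theorem Sub.ty (hU : D.Sub ρ U) : D.wt t U = D.tw t (D.ty U) ∧
    finrank ℂ U = (D.ty U).card ∧ D.ty (sp (D.ty U : Set I)) = D.ty U := by
  obtain ⟨k, hk, e⟩ := exists_ty (fun _ : Unit => U) (fun _ _ => Or.inl le_rfl) fun _ => hU
  refine ⟨?_, ?_, ?_⟩
  · conv_lhs => rw [e (), wt_act hk (sub_zero_sp _).cg, wt_sp]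
    rfl
  · conv_lhs => rw [e (), e4_finrank_map hk.2, finrank_sp]
  · conv_rhs => rw [e (), ty_act hk (sub_zero_sp _)]

theorem Sub.eq_of_ty (hU : D.Sub ρ U) (hU' : D.Sub σ U') (h : U ≤ U') (e : D.ty U = D.ty U') :
    U = U' :=
  Submodule.eq_of_le_of_finrank_eq h (by rw [(hU.ty (t := 0)).2.1, (hU'.ty (t := 0)).2.1, e])

theorem mem_P_cf (hg : g ∈ D.base.P) (e : ∀ F ∈ C, (sp (F : Set I)).map g.mulVecLin ≤ sp F) :
    g ∈ (D.cf C h).P :=
  ⟨fun i j c => by_contra fun n => c ⟨by_contra fun k => n (hg.1 i j fun a => k a.1),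
    by_contra fun k => n (hg.1 i j fun a => k a.2),
    fun F hF hj => by_contra fun k => n (map_sp_le.1 (e F hF) i j k hj)⟩, hg.2⟩

theorem mem_R_cf : ρ ∈ (D.cf C h).R ↔ ρ ∈ D.base.R ∧ ∀ F ∈ C, D.Sub ρ (sp (F : Set I)) :=
  ⟨fun e => ⟨(D.cf C h).R_le e, fun F hF => sub_sp.2 fun a i j hi hj =>
    e a i j fun c => hi (c.2.2.2 F hF hj)⟩, fun e a i j c => by_contra fun n =>
    c ⟨by_contra fun k => n (e.1 a i j fun b => k b.1),
      by_contra fun k => n (e.1 a i j fun b => k b.2.1),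
      by_contra fun k => n (e.1 a i j fun b => k b.2.2),
      fun F hF hj => by_contra fun k => n (sub_sp.1 (e.2 F hF) a i j k hj)⟩⟩

omit [Fintype I] [DecidableEq I] in
theorem Chn.mono {C' : Finset (Finset I)} (h : Chn C) (s : C' ⊆ C) : Chn C' :=
  fun F a F' b => h F (s a) F' (s b)

/-- forget part of the flag -/
def cfMor (D : Dat I) {C' : Finset (Finset I)} (h : Chn C) (h' : Chn C') (s : C' ⊆ C) :
    Mor (D.cf C h) (D.cf C' h') where
  w := Equiv.refl I
  ι _ := Function.Embedding.refl _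
  col _ := rfl
  th := rfl
  gp _ _ e := ⟨e.1, e.2.1, fun F hF => e.2.2 F (s hF)⟩
  rl _ _ e := ⟨e.1, fun F hF => e.2 F (s hF)⟩
  cp _ _ e := e
  ι_eq _ _ _ := rfl
  ι_ne _ _ e e' := absurd e' e

theorem cfMor_F {C' : Finset (Finset I)} (h : Chn C) (h' : Chn C') (s : C' ⊆ C) (p : Pt I D.m) :
    (D.cfMor h h' s).F p = p := by
  refine Prod.ext (funext fun a => by simp [Mor.F, cfMor]) (funext fun i => funext fun r => ?_)
  exact (Function.Embedding.refl _).injective.extend_apply (p.2 i) 0 r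

/-- forget the flag -/
def Bs.mor (hD : D.Bs) (h : Chn C) : Mor (D.cf C h) D where
  w := Equiv.refl I
  ι _ := Function.Embedding.refl _
  col _ := rfl
  th := rfl
  gp _ _ e := ⟨e.1, hD _ _ e.2.1⟩
  rl _ _ e := D.gl_rl (hD _ _ e.1)
  cp _ _ e := e
  ι_eq _ _ _ := rfl
  ι_ne _ _ e e' := absurd e' e

theorem Bs.mor_F (hD : D.Bs) (h : Chn C) (p : Pt I D.m) : (hD.mor h).F p = p := by
  refine Prod.ext (funext fun a => by simp [Mor.F, Bs.mor]) (funext fun i => funext fun r => ?_)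
  exact (Function.Embedding.refl _).injective.extend_apply (p.2 i) 0 r

theorem Bs.mem_R (hD : D.Bs) (e : ρ ∈ D.base.R) : ρ ∈ D.R := fun a i j c =>
  e a i j fun k => c ⟨k.1, k.2.1, D.gl_rl (hD _ _ k.2.2)⟩

theorem Bs.mem_P (hD : D.Bs) (e : g ∈ D.base.P) : g ∈ D.P :=
  ⟨fun i j c => e.1 i j fun k => c ⟨k.1, hD _ _ k.2⟩, e.2⟩

/-- a numbering of the sets of indices that is compatible with inclusion -/
theorem exists_num (I : Type) [Fintype I] [DecidableEq I] :
    ∃ (n : ℕ) (e : Fin n ≃ Finset I), ∀ r r', e r ⊆ e r' → r ≤ r' := by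
  let _ : Fintype (LinearExtension (Finset I)) := inferInstanceAs (Fintype (Finset I))
  let e := monoEquivOfFin (LinearExtension (Finset I)) rfl
  exact ⟨_, e.toEquiv, fun r r' h => e.le_iff_le.1
    ((toLinearExtension (α := Finset I)).monotone h)⟩

end Dat

end Pool.Agent.CS
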