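import Pool.Agent.P.MP_d34769_ag.YK0

/-! Inserting a least upper bound into chains. -/

open Set

noncomputable section
namespace Pool.Agent.CS

theorem sgn_match {α : Type} [LinearOrder α] {r₀ : α} (ε : Finset α → Finset α → ℤ)
    (h : ∀ R R', ε R R' ≠ 0 → sgn R R' ≠ 0) (h' : ∀ R, r₀ ∈ R → ε R (R.erase r₀) ≠ 0) :
    (∀ k i, r₀ ∈ k → r₀ ∉ i → ε k i ≠ 0 → i = k.erase r₀) ∧
      (∀ k, r₀ ∈ k → ∃! i, r₀ ∉ i ∧ ε k i ≠ 0) ∧ ∀ i, r₀ ∉ i → ∃! k, r₀ ∈ k ∧ ε k i ≠ 0 := by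
  have h0 : ∀ k i, r₀ ∈ k → r₀ ∉ i → ε k i ≠ 0 → i = k.erase r₀ := fun k i hk hi he => by
    obtain ⟨r, _, rfl⟩ := sgn_ne (h k i he)
    by_contra e
    exact hi (Finset.mem_erase.2 ⟨fun x => e (by rw [x]), hk⟩)
  refine ⟨h0, fun k hk => ⟨k.erase r₀, ⟨Finset.notMem_erase _ _, h' k hk⟩,
    fun i hi => h0 k i hk hi.1 hi.2⟩, fun i hi => ⟨insert r₀ i, ⟨Finset.mem_insert_self _ _, ?_⟩,
      fun k hk => ?_⟩⟩
  · have := h' _ (Finset.mem_insert_self r₀ i)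
    rwa [Finset.erase_insert hi] at this
  · rw [h0 k i hk.1 hi hk.2, Finset.insert_erase hk.1]

theorem sgn_erase_ne {α : Type} [LinearOrder α] {R : Finset α} {r : α} (h : r ∈ R) :
    sgn R (R.erase r) ≠ 0 := left_ne_zero_of_mul_eq_one (sgn_sq h)

namespace GP
variable {B E : Type} [TopologicalSpace B] [TopologicalSpace E] {n : ℕ} {S : GP B E n}
  {R R' : Finset (Fin n)} {r₀ : Fin n} {t : B} {s u w : E}

theorem exists_ins (hr : r₀ ∈ R) (c : S.Ch (R.erase r₀)) (hw : (S.pr _ c, w) ∈ S.Q r₀)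
    (h1 : ∀ r, r.1 < r₀ → S.le (S.el r c) w) (h2 : ∀ r, r₀ < r.1 → S.le w (S.el r c)) :
    ∃ c' : S.Ch R, S.face (R.erase_subset r₀) c' = c ∧ S.el ⟨r₀, hr⟩ c' = w := by
  refine ⟨⟨(S.pr _ c, fun r => if h : r.1 = r₀ then w else
    S.el ⟨r.1, Finset.mem_erase.2 ⟨h, r.2⟩⟩ c), fun r => ?_, fun r r' e => ?_⟩,
      Ch.ext rfl fun r => dif_neg (Finset.mem_erase.1 r.2).1, dif_pos rfl⟩
  · dsimp only
    split_ifs with h
    · rwa [h]
    · exact el_mem c ⟨r.1, _⟩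
  · dsimp only
    split_ifs with h h' h'
    · exact absurd (h.trans h'.symm) e.ne
    · exact h2 _ (h ▸ e)
    · exact h1 _ (h' ▸ e)
    · exact el_le c _ _ e.le

theorem face_inj (hr : r₀ ∈ R) {c c' : S.Ch R}
    (h : S.face (R.erase_subset r₀) c = S.face (R.erase_subset r₀) c')
    (h' : S.el ⟨r₀, hr⟩ c = S.el ⟨r₀, hr⟩ c') : c = c' := by
  refine Ch.ext (congrArg (S.pr (R.erase r₀)) h) fun r => ?_
  by_cases e : r.1 = r₀
  · rwa [show r = ⟨r₀, hr⟩ from Subtype.ext e]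
  · exact congrArg (S.el ⟨r.1, Finset.mem_erase.2 ⟨e, r.2⟩⟩) h

variable (S) in
/-- chains over `t` whose elements of rank `≥ j` lie above `s` -/
def up (t : B) (s : E) (j : ℕ) (R : Finset (Fin n)) : Set (S.Ch R) :=
  {c | S.pr R c = t ∧ ∀ r : R, j ≤ r.1.1 → S.le s (S.el r c)}

theorem up_closed [T1Space B] (j : ℕ) : IsClosed (S.up t s j R) := by
  have := (isClosed_singleton (x := t)).preimage (S.pr R).continuous |>.inter
    (isClosed_iInter fun r : R => isClosed_iInter fun _ : j ≤ r.1.1 =>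
      S.cl.preimage ((continuous_const (y := s)).prodMk (S.el r).continuous))
  refine Eq.mp (congrArg IsClosed (Set.ext fun p => ?_)) this
  simp only [Set.mem_inter_iff, Set.mem_iInter]
  rfl

theorem up_face (j : ℕ) (h : R' ⊆ R) : MapsTo (S.face h) (S.up t s j R) (S.up t s j R') :=
  fun _ hc => ⟨hc.1, fun r e => hc.2 ⟨r.1, h r.2⟩ e⟩

theorem up_mono (j : ℕ) : S.up t s j R ⊆ S.up t s (j + 1) R :=
  fun _ hc => ⟨hc.1, fun r e => hc.2 r (by omega)⟩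

theorem up_top : S.up t s n R = S.pr R ⁻¹' {t} :=
  Set.ext fun _ => ⟨fun h => h.1, fun h => ⟨h, fun r e => absurd r.1.2 (not_lt.2 e)⟩⟩

theorem up_of_not_mem {j : Fin n} (h : j ∉ R) : S.up t s (j + 1) R ⊆ S.up t s j R :=
  fun _ hc => ⟨hc.1, fun r e => hc.2 r (lt_of_le_of_ne e fun x => h (by rw [Fin.ext x]; exact r.2))⟩

theorem up_zero_bij (hs : (t, s) ∈ S.Q r₀) (hr : r₀ ∈ R) :
    BijOn (S.face (R.erase_subset r₀)) (S.up t s 0 R) (S.up t s 0 (R.erase r₀)) := by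
  have h0 : ∀ c ∈ S.up t s 0 R, s = S.el ⟨r₀, hr⟩ c := fun c hc =>
    (S.gr _ _ t _ _ hs (hc.1 ▸ el_mem c ⟨r₀, hr⟩) (hc.2 _ (Nat.zero_le _))).elim
      (fun e => absurd e (lt_irrefl _)) fun e => e.2
  refine ⟨up_face 0 _, fun c hc c' hc' e => face_inj hr e ((h0 c hc).symm.trans (h0 c' hc')),
    fun c hc => ?_⟩
  obtain ⟨c', rfl, e⟩ := exists_ins hr c (hc.1 ▸ hs) (fun r h => absurd h (not_lt.2
    (rank_le hs (hc.1 ▸ el_mem c r) (hc.2 r (Nat.zero_le _))))) fun r _ => hc.2 r (Nat.zero_le _)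
  refine ⟨c', ⟨hc.1, fun r _ => ?_⟩, rfl⟩
  by_cases h : r.1 = r₀
  · rw [show r = ⟨r₀, hr⟩ from Subtype.ext h, e]; exact S.refl _ _ hs
  · exact hc.2 ⟨r.1, Finset.mem_erase.2 ⟨h, r.2⟩⟩ (Nat.zero_le _)

variable (S) in
/-- the element of rank `j`, or `s` if there is none -/
def at' (s : E) (j : Fin n) (R : Finset (Fin n)) : C(S.Ch R, E) :=
  if h : j ∈ R then S.el ⟨j, h⟩ else ContinuousMap.const _ s

theorem at'_pos {j : Fin n} (h : j ∈ R) (c : S.Ch R) : S.at' s j R c = S.el ⟨j, h⟩ c := by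
  rw [at', dif_pos h]

theorem at'_neg {j : Fin n} (h : j ∉ R) (c : S.Ch R) : S.at' s j R c = s := by
  rw [at', dif_neg h]; rfl

theorem at'_face {j : Fin n} (h : R' ⊆ R) (h' : j ∈ R → j ∈ R') (c : S.Ch R) :
    S.at' s j R' (S.face h c) = S.at' s j R c := by
  by_cases e : j ∈ R
  · rw [at'_pos e, at'_pos (h' e)]; rfl
  · rw [at'_neg e, at'_neg fun x => e (h x)]

theorem up_inter (hs : S.le s s) (j : Fin n) :
    S.up t s (j + 1) R ∩ S.at' s j R ⁻¹' {u | S.le s u} = S.up t s j R := by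
  ext c
  by_cases e : j ∈ R
  · refine ⟨fun h => ⟨h.1.1, fun r x => ?_⟩, fun h => ⟨up_mono _ h, ?_⟩⟩
    · rcases x.lt_or_eq with x | x
      · exact h.1.2 r x
      · rw [show r = ⟨j, e⟩ from Subtype.ext (Fin.ext x.symm), ← at'_pos (s := s) e]; exact h.2
    · rw [mem_preimage, at'_pos e]; exact h.2 _ le_rfl
  · exact ⟨fun h => up_of_not_mem e h.1, fun h => ⟨up_mono _ h, by
      rw [mem_preimage, at'_neg e]; exact hs⟩⟩

theorem fib_mem (hs : S.le s s) (hu : ¬S.le s u) {j : Fin n} {c : S.Ch R}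
    (hc : c ∈ S.up t s (j + 1) R ∩ S.at' s j R ⁻¹' {u}) :
    ∃ h : j ∈ R, S.el ⟨j, h⟩ c = u ∧ (t, u) ∈ S.Q j := by
  by_cases e : j ∈ R
  · have h : S.el ⟨j, e⟩ c = u := (at'_pos e c).symm.trans hc.2
    exact ⟨e, h, hc.1.1 ▸ h ▸ el_mem c ⟨j, e⟩⟩
  · exact (hu (((at'_neg e c).symm.trans hc.2) ▸ hs)).elim

theorem fib_bij (hs : S.le s s) (hu : ¬S.le s u) {j : Fin n} (hj : (t, u) ∈ S.Q j)
    (hw : (t, w) ∈ S.Q r₀) (h1 : S.le u w) (h2 : S.le s w)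
    (h3 : ∀ r v, (t, v) ∈ S.Q r → S.le u v → S.le s v → S.le w v) :
    j ≠ r₀ ∧ ∀ R, r₀ ∈ R → BijOn (S.face (R.erase_subset r₀))
      (S.up t s (j + 1) R ∩ S.at' s j R ⁻¹' {u})
      (S.up t s (j + 1) (R.erase r₀) ∩ S.at' s j (R.erase r₀) ⁻¹' {u}) := by
  have hlt : j < r₀ := (S.gr _ _ t _ _ hj hw h1).elim id fun e => (hu (e.2 ▸ h2)).elim
  have h4 : ∀ {R : Finset (Fin n)}, ∀ c ∈ S.up t s (j + 1) R ∩ S.at' s j R ⁻¹' {u}, ∀ r : R,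
      j < r.1 → S.le w (S.el r c) := fun c hc r e => by
    obtain ⟨h, h', _⟩ := fib_mem hs hu hc
    exact h3 _ _ (hc.1.1 ▸ el_mem c r) (h' ▸ el_le c ⟨j, h⟩ r e.le) (hc.1.2 r e)
  refine ⟨hlt.ne, fun R hr => ?_⟩
  have hf : j ∈ R → j ∈ R.erase r₀ := fun h => Finset.mem_erase.2 ⟨hlt.ne, h⟩
  have h0 : ∀ c ∈ S.up t s (j + 1) R ∩ S.at' s j R ⁻¹' {u}, w = S.el ⟨r₀, hr⟩ c := fun c hc =>
    (S.gr _ _ t _ _ hw (hc.1.1 ▸ el_mem c ⟨r₀, hr⟩) (h4 c hc _ hlt)).elim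
      (fun e => absurd e (lt_irrefl _)) fun e => e.2
  refine ⟨fun c hc => ⟨up_face _ _ hc.1, (at'_face _ hf c).trans hc.2⟩,
    fun c hc c' hc' e => face_inj hr e ((h0 c hc).symm.trans (h0 c' hc')), fun c hc => ?_⟩
  obtain ⟨c', rfl, e⟩ := exists_ins hr c (hc.1.1 ▸ hw) (fun r h => by
    obtain ⟨hj', h', _⟩ := fib_mem hs hu hc
    have : r.1 ≤ j := not_lt.1 fun x =>
      absurd h (not_lt.2 (rank_le hw (hc.1.1 ▸ el_mem c r) (h4 c hc r x)))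
    exact S.trans (h' ▸ el_le c r ⟨j, hj'⟩ this) h1) fun r h => h4 c hc r (hlt.trans h)
  refine ⟨c', ⟨⟨hc.1.1, fun r x => ?_⟩, (at'_face _ hf c').symm.trans hc.2⟩, rfl⟩
  by_cases h : r.1 = r₀
  · rw [show r = ⟨r₀, hr⟩ from Subtype.ext h, e]; exact h2
  · exact hc.1.2 ⟨r.1, Finset.mem_erase.2 ⟨h, r.2⟩⟩ x

end GP

end Pool.Agent.CS
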