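import Pool.Agent.P.MP_d34769_ag.YG7
import Pool.Agent.P.MP_d34769_ag.YG8a

/-! The relations in the cohomology of the spaces of a list of words are tautological. -/

open MvPolynomial Function Pool.Agent.P.MP_d34769_ag

noncomputable section
namespace Pool.Agent.CS

variable {I : Type} [Fintype I] [DecidableEq I] {col : I → Fin 3} {th : Fin 3 → ℤ}
  {L : List (List (Finset I))}

/-- a framing that is large enough for `N` indices and degree `n` -/
def mG (N n : ℕ) : ℕ := N * (N + (n + 4 * N ^ 2))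

theorem mG_mono {N N' n n' : ℕ} (h : N ≤ N') (h' : n ≤ n') : mG N n ≤ mG N' n' := by
  unfold mG
  gcongr

/-- E1 -/
theorem Kr_iff_Rel (h : Adm col th L) {θ : (Fin 3 → ℕ) → ℝ}
    (hθ : ∀ F : Finset I, 0 < θ (dvec col F) ↔ 0 < ∑ j ∈ F, th (col j)) {o : I → ℕ}
    (ho : ∀ k l, col k = col l → o k = o l → k = l) {m p : ℕ} (hm : mG (Fintype.card I) p ≤ m)
    {φ : MvPolynomial I ℂ} (hi : (mdat m h).Inv φ) (hp : φ.IsHomogeneous p) :
    φ ∈ (mdat m h).Kr ↔ P.MP_d34769_ag.Rel col θ o L.flatten φ := by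
  obtain ⟨s, -, e⟩ := (mdat m h).dis_sign (o' := o0 I) (fun k l a => ho k l a.1.1)
    fun _ _ _ a => o0_inj a
  obtain ⟨s', -, e'⟩ := (mdat m h).dis_sign (o := o0 I) (fun _ _ _ a => o0_inj a)
    fun k l a => ho k l a.1.1
  rw [P.MP_d34769_ag.Rel, ← mdat_dis h m]
  refine ⟨fun a => ?_, fun a => Dat.Kr_can o0_inj hi ?_⟩
  · obtain ⟨k, e1⟩ := sgl_mor h hm
    have a1 := k.Kr a
    have a2 := k.inv hi
    rw [e1, Equiv.refl_symm, Equiv.coe_refl, rename_id_apply] at a1 a2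
    have a3 := sgl_J h _ hθ (Dat.ker_J (sgl_Bs h _) le_rfl le_rfl o0_inj a2 hp a1)
    rw [mdat_dis, flatten_sgl, ← mdat_dis h m] at a3
    rw [e', smul_mul_assoc]
    exact Submodule.smul_of_tower_mem _ _ a3
  · rw [e, smul_mul_assoc]
    refine Submodule.smul_of_tower_mem _ _ (Ideal.span_le.2 ?_ a)
    rintro _ ⟨b, hb, F, hF, h0, rfl⟩
    obtain ⟨F', a1, a2, a3⟩ := mdat_eul h m hb hF
    exact a2 ▸ Dat.eT_mem a3 (a1 ▸ (hθ F).1 h0)

theorem evD_iff_Rel (h : Adm col th L) {θ : (Fin 3 → ℕ) → ℝ}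
    (hθ : ∀ F : Finset I, 0 < θ (dvec col F) ↔ 0 < ∑ j ∈ F, th (col j)) {o : I → ℕ}
    (ho : ∀ k l, col k = col l → o k = o l → k = l) {m p : ℕ} (hm : mG (Fintype.card I) p ≤ m)
    {φ : MvPolynomial I ℂ} (hi : (mdat m h).Inv φ) (hp : φ.IsHomogeneous p) :
    (mdat m h).evD φ = 0 ↔ P.MP_d34769_ag.Rel col θ o L.flatten φ :=
  (Dat.evD_eq_zero hi).trans (Kr_iff_Rel h hθ ho hm hi hp)

end Pool.Agent.CS
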