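import Pool.Agent.P.MP_d34769_ag.YG3b
import Pool.Agent.P.MP_d34769_ag.YF7

/-! The spaces of orbits are of Tate type. -/

open MvPolynomial Function

noncomputable section
namespace Pool.Agent.CS.Dat

variable {I : Type} [Fintype I] [DecidableEq I]

theorem tate (D : Dat I) : TateM D.mf :=
  (tateM_of_ev (D.hat (o0 I)).mf _ (ell_x_hyp (D.hat_Hat o0_inj)) (evH_surj _)).of_inj D.mf
    (D.hatMor _).mp_hol (D.hatMor _).mp_maps (D.hat_pinj o0_inj)

end Pool.Agent.CS.Dat
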