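import Pool.Agent.P.MP_d34769_ag.YG3a
import Pool.Agent.P.MP_d34769_ag.YB8

/-! The cohomology of a space of orthogonal lines, in terms of polynomials. -/

open MvPolynomial Function Matrix

noncomputable section
namespace Pool.Agent.CS

variable {X B μ K : Type} [TopologicalSpace X] [TopologicalSpace B] [Fintype μ] [Fintype K]
  [CompactSpace X] [T2Space X] [CompactSpace B] [T2Space B] {π : C(X, B)} {Λ : LD B μ K}
  {l : K → Bun X μ 1}

theorem IsLn.g_inj (h : IsLn π Λ l) (hn : ∀ a, Λ.n a ≤ Λ.r a) : Injective (HR.pull π) :=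
  h.inj_pull hn

theorem IsLn.g_desc (h : IsLn π Λ l) (hn : ∀ a, Λ.n a = Λ.r a) {φ : MvPolynomial K ℂ}
    (hφ : ∀ w : Equiv.Perm K, (∀ i, Λ.cl (w i) i) → rename w φ = φ) :
    ∃ c, evL l φ = HR.pull π c :=
  (h.desc_ev hn fun w e => hφ w fun i => Λ.eqv.symm (e i)).imp fun _ => Eq.symm

open Classical in
theorem IsLn.g_span (h : IsLn π Λ l) (hn : ∀ a, Λ.n a = Λ.r a) {o : K → ℕ} (ho : Injective o)
    (c : HR X) : c ∈ Submodule.span ℂ {x | ∃ u j t,
      j ≤ ∑ k, (Finset.univ.filter fun b => Λ.cl k b ∧ o k < o b).card ∧ IsHomogeneous t j ∧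
        x = HR.pull π u * evL l t} := h.span_full hn ho c

open Classical in
theorem IsLn.g_can (h : IsLn π Λ l) (hn : ∀ a, Λ.n a = Λ.r a) {o : K → ℕ} (ho : Injective o)
    {c : HR B} (e : evL l (∏ k, ∏ b with Λ.cl k b ∧ o k < o b, (MvPolynomial.X b - MvPolynomial.X k)) *
      HR.pull π c = 0) : c = 0 := by
  refine h.can hn ho (Eq.trans ?_ e)
  congr 1
  refine congrArg Subtype.val (?_ : _ = aeval (fun a => (l a).x) _)
  simp

theorem IsLn.g_free [Nonempty B] (h : IsLn π Λ l) {n p : ℕ} (hn : ∀ a, Λ.n a + n ≤ Λ.r a)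
    (hp : p ≤ n) {φ : MvPolynomial K ℂ} (hφ : φ.IsHomogeneous p) (e : evL l φ = 0) : φ = 0 :=
  h.free hn (hφ.totalDegree_le.trans hp) e

end Pool.Agent.CS
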