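import Pool.Agent.P.MP_d34769_ag.YW6

/-! The results of the word algebra. -/

open MvPolynomial

noncomputable section
namespace Pool.Agent.CS
open Pool.Agent.P.MP_d34769_ag

section ops
variable {X M : Type} [AddCommGroup M] [Union X]

theorem cobM_cobM [Std.Associative (α := X) (· ∪ ·)] (L : List (List X)) (φ : List (List X) → M) :
    (cobM L fun K => cobM K φ) = 0 := HA.cobM_cobM L φ

theorem sM_cobM [Std.Commutative (α := X) (· ∪ ·)] (L : List (List X)) (φ : List (List X) → M) :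
    (sM L fun K => cobM K φ) = cobM L fun K => sM K φ := HA.sM_cobM L φ

theorem tau_cobM (i : ℕ) (L : List (List X)) (φ : List (List X) → M) :
    (tau i L fun K => cobM K φ) = cobM L fun K => tau i K φ := HA.tau_cobM i L φ

end ops

variable {I : Type} [Fintype I] [DecidableEq I] {col : I → Fin 3} {θ : (Fin 3 → ℕ) → ℝ} {o : I → ℕ}

theorem sL_Zk {k ℓ p : ℕ} {φ : MC I} (h : φ ∈ Zk col θ o k ℓ p) :
    sL φ ∈ Zk col θ o (k + 1) ℓ p := HA.tr_sC φ ▸ (HA.sC_good k).zk h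

theorem sL_Bk {k ℓ p : ℕ} {φ : MC I} (h : φ ∈ Bk col θ o k ℓ p) :
    sL φ ∈ Bk col θ o (k + 1) ℓ p := HA.tr_sC φ ▸ (HA.sC_good k).bk h

theorem tL_Zk (i : ℕ) {k ℓ p : ℕ} {φ : MC I} (h : φ ∈ Zk col θ o k ℓ p) :
    tL i φ ∈ Zk col θ o k ℓ p := HA.tr_tC i φ ▸ (HA.tC_good i k).zk h

theorem tL_Bk (i : ℕ) {k ℓ p : ℕ} {φ : MC I} (h : φ ∈ Bk col θ o k ℓ p) :
    tL i φ ∈ Bk col θ o k ℓ p := HA.tr_tC i φ ▸ (HA.tC_good i k).bk h

omit [Fintype I] in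
theorem sL_Cc {p : ℕ} {φ : MC I} (h : φ ∈ Cc col p) : sL φ ∈ Cc col p :=
  HA.tr_sC φ ▸ (HA.sC_good 0).cc h

omit [Fintype I] in
theorem tL_Cc (i : ℕ) {p : ℕ} {φ : MC I} (h : φ ∈ Cc col p) : tL i φ ∈ Cc col p :=
  HA.tr_tC i φ ▸ (HA.tC_good i 0).cc h

variable (col θ o)

/-- HA4 -/
theorem sum_ak_le (K ℓ p : ℕ) : ∑ k ∈ Finset.Icc 1 K, ak col θ o k ℓ p ≤ xt col θ o ℓ p :=
  HA.sum_ak_le col θ o K ℓ p

/-- HA5 -/
theorem ak_one (ℓ p : ℕ) : ak col θ o 1 (ℓ + 1) p = har col θ o (ℓ + 1) p := HA.ak_one col θ o ℓ p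

end Pool.Agent.CS
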