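import Pool.Agent.P.MP_d34769_ag.YA5
import Pool.Agent.P.MP_d34769_ag.YE0
import Pool.Agent.P.MP_d34769_ag.YW9

/-! The shapes of the diagrams indexed by lists of words. -/

noncomputable section
namespace Pool.Agent.CS
open Pool.Agent.P.MP_d34769_ag

variable {I : Type} [Fintype I] [DecidableEq I] {col : I → Fin 3} {th : Fin 3 → ℤ}

/-- `i` lies in a letter of `u` -/
def Has (u : List (Finset I)) (i : I) : Prop := ∃ b ∈ u, i ∈ b

open Classical in
/-- the number of the word that contains `i` -/
def slot : List (List (Finset I)) → I → ℕ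
  | [], _ => 0
  | u :: L, i => if Has u i then 0 else slot L i + 1

/-- the order of a list of words -/
def OrdM (L : List (List (Finset I))) (i j : I) : Prop := ∃ u ∈ L, Ord u i j

/-- `L` refines `K`, and the words of `L` go to the words of `K` through `σ` -/
structure RS (σ : ℕ → ℕ) (L K : List (List (Finset I))) : Prop where
  ord : ∀ i j, OrdM L i j → OrdM K i j
  sl : ∀ i, slot K i = σ (slot L i)

/-- relabelling -/
def rlb (w : Equiv.Perm I) (L : List (List (Finset I))) : List (List (Finset I)) :=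
  L.map (List.map fun b => b.image w)

section words
omit [Fintype I] [DecidableEq I]
variable {L K M : List (List (Finset I))} {u v w : List (Finset I)} {i j : I} {σ τ : ℕ → ℕ}

theorem RS.comp (h : RS σ L K) (h' : RS τ K M) : RS (τ ∘ σ) L M :=
  ⟨fun i j e => h'.ord i j (h.ord i j e), fun i => by rw [h'.sl, h.sl]; rfl⟩

theorem RS.refl (L : List (List (Finset I))) : RS id L L := ⟨fun _ _ => id, fun _ => rfl⟩

theorem slot_eq_iff (h : L.flatten.Pairwise Disjoint) (hi : ∃ u ∈ L, Has u i)
    (hj : ∃ u ∈ L, Has u j) : slot L i = slot L j ↔ ∃ u ∈ L, Has u i ∧ Has u j := by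
  induction L with
  | nil => simp at hi
  | cons u L ih =>
    rw [List.flatten_cons, List.pairwise_append] at h
    have key : ∀ i, Has u i → ∀ v ∈ L, ¬ Has v i := fun i ⟨a, ha, hi⟩ v hv ⟨b, hb, hj⟩ =>
      Finset.disjoint_left.1 (h.2.2 a ha b (List.mem_flatten.2 ⟨v, hv, hb⟩)) hi hj
    simp only [List.mem_cons, exists_eq_or_imp, slot] at hi hj ⊢
    by_cases a : Has u i <;> by_cases b : Has u j
    · simp [a, b]
    · simp only [a, b, if_true, if_false, and_false, false_or]
      exact ⟨fun e => by omega, fun ⟨v, hv, e⟩ => absurd e.1 (key i a v hv)⟩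
    · simp only [a, b, if_true, if_false, false_and, false_or]
      exact ⟨fun e => by omega, fun ⟨v, hv, e⟩ => absurd e.2 (key j b v hv)⟩
    · simp only [a, b, if_false, false_and, false_or, Nat.add_right_cancel_iff]
      exact ih h.2.1 (hi.resolve_left a) (hj.resolve_left b)

theorem slot_lt (hi : ∃ u ∈ L, Has u i) : slot L i < L.length := by
  induction L with
  | nil => simp at hi
  | cons u L ih =>
    simp only [List.mem_cons, exists_eq_or_imp, slot, List.length_cons] at hi ⊢
    split_ifs with a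
    · omega
    · exact Nat.succ_lt_succ (ih (hi.resolve_left a))

theorem Ord.sub (h : Ord u i j) (e : u.Sublist w) : Ord w i j := by
  obtain ⟨a, b, hi, hj, k⟩ := h
  exact ⟨a, b, hi, hj, k.imp (fun k => ⟨k.1, e.subset k.2⟩) fun k => k.trans e⟩

theorem SfM.rs (h : SfM L K) : RS (· - 1) L K := by
  obtain ⟨u, v, w, T, rfl, rfl, h1, h2, h3⟩ := h
  refine ⟨?_, fun i => ?_⟩
  · simp only [OrdM, List.mem_cons, exists_eq_or_imp]
    rintro i j (e | e | e)
    exacts [Or.inl (e.sub h1), Or.inl (e.sub h2), Or.inr e]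
  · have : Has w i ↔ Has u i ∨ Has v i := by
      simp only [Has, h3.mem_iff, List.mem_append, or_and_right, exists_or]
    simp only [slot]
    by_cases a : Has u i <;> by_cases b : Has v i <;> simp [a, b, this]

theorem SfM.perm (h : SfM L K) : K.flatten.Perm L.flatten := by
  obtain ⟨u, v, w, T, rfl, rfl, -, -, h3⟩ := h
  simpa using h3.append_right T.flatten

theorem Sw.perm {n : ℕ} (h : Sw n L K) : K.Perm L := by
  obtain ⟨A, u, v, B, -, rfl, rfl⟩ := h
  exact (List.Perm.swap u v B).append_left A

theorem Sw.rs {n : ℕ} (h : Sw n L K) (hp : L.flatten.Pairwise Disjoint) :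
    RS (Equiv.swap n (n + 1)) L K := by
  refine ⟨fun i j ⟨u, hu, e⟩ => ⟨u, h.perm.mem_iff.2 hu, e⟩, fun i => ?_⟩
  obtain ⟨A, u, v, B, rfl, rfl, rfl⟩ := h
  induction A with
  | nil =>
    have : ¬(Has u i ∧ Has v i) := fun ⟨⟨a, ha, hi⟩, b, hb, hj⟩ => by
      simp only [List.nil_append, List.flatten_cons, List.pairwise_append] at hp
      exact Finset.disjoint_left.1 (hp.2.2 a ha b (List.mem_append_left _ hb)) hi hj
    simp only [List.nil_append, slot, List.length_nil]
    by_cases a : Has u i <;> by_cases b : Has v i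
    · exact absurd ⟨a, b⟩ this
    · simp [a, b]
    · simp [a, b]
    · simp only [a, b, if_false]
      rw [Equiv.swap_apply_of_ne_of_ne] <;> omega
  | cons a A ih =>
    rw [List.cons_append, List.flatten_cons, List.pairwise_append] at hp
    simp only [List.cons_append, slot, List.length_cons, ih hp.2.1]
    split_ifs
    · rw [Equiv.swap_apply_of_ne_of_ne] <;> omega
    · simp only [Equiv.swap_apply_def]
      split_ifs <;> omega

end words

section fc
omit [Fintype I]
variable {L K : List (List (Finset I))} {u w : List (Finset I)} {i j : I}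

theorem Fc.has (h : Fc u w) : Has w i ↔ Has u i := by
  obtain ⟨s, a, b, t, rfl, rfl⟩ := h
  simp only [Has, List.mem_append, List.mem_cons, or_and_right, exists_or, exists_eq_left,
    Finset.mem_union, or_assoc]

theorem Fc.ord (h : Fc u w) (e : Ord u i j) : Ord w i j := by
  obtain ⟨s, a, b, t, rfl, rfl⟩ := h
  induction s with
  | nil =>
    simp only [List.nil_append, ord_cons, List.mem_cons, exists_eq_or_imp, Finset.mem_union] at e ⊢
    rcases e with e | e | e
    exacts [Or.inl ⟨Or.inl e.1, or_assoc.2 e.2⟩, Or.inl ⟨Or.inr e.1, e.2.imp_left Or.inr⟩, Or.inr e]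
  | cons c s ih =>
    rw [List.cons_append, ord_cons] at e ⊢
    exact e.imp (fun e => ⟨e.1, e.2.imp id (Fc.has ⟨s, a, b, t, rfl, rfl⟩).2⟩) ih

theorem FcM.rs (h : FcM L K) : RS id L K := by
  obtain ⟨A, u, w, B, rfl, rfl, h⟩ := h
  refine ⟨?_, fun i => ?_⟩
  · simp only [OrdM, List.mem_append, List.mem_cons, or_and_right, exists_or, exists_eq_left]
    exact fun i j e => e.imp id (Or.imp h.ord id)
  · induction A with
    | nil => simp only [List.nil_append, slot, id]; rw [propext h.has]
    | cons a A ih => simp only [List.cons_append, slot, ih, id]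

theorem FcM.fc (h : FcM L K) : Fc L.flatten K.flatten := by
  obtain ⟨A, _, _, B, rfl, rfl, s, a, b, t, rfl, rfl⟩ := h
  exact ⟨A.flatten ++ s, a, b, t ++ B.flatten, by simp, by simp⟩

theorem Fc.length (h : Fc u w) : u.length = w.length + 1 ∧ 0 < w.length := by
  obtain ⟨s, a, b, t, rfl, rfl⟩ := h
  simp only [List.length_append, List.length_cons]
  omega

theorem has_map (w : Equiv.Perm I) : Has (u.map fun b => b.image w) (w i) ↔ Has u i := by
  simp [Has]

theorem slot_rlb (w : Equiv.Perm I) : slot (rlb w L) (w i) = slot L i := by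
  induction L with
  | nil => rfl
  | cons u L ih => simp only [rlb, List.map_cons, slot] at ih ⊢; rw [propext (has_map w), ih]

theorem OrdM.rlb (w : Equiv.Perm I) (h : OrdM L i j) : OrdM (rlb w L) (w i) (w j) := by
  obtain ⟨u, hu, a, b, hi, hj, k⟩ := h
  exact ⟨_, List.mem_map_of_mem hu, a.image w, b.image w, Finset.mem_image_of_mem _ hi,
    Finset.mem_image_of_mem _ hj, k.imp (fun k => ⟨by rw [k.1], List.mem_map_of_mem k.2⟩)
      fun k => k.map fun b : Finset I => b.image w⟩

theorem rlb_one : rlb 1 L = L := by simp [rlb]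

theorem rlb_mul (w w' : Equiv.Perm I) : rlb (w * w') L = rlb w (rlb w' L) := by
  simp [rlb, Function.comp_def, Finset.image_image]

theorem rlb_inj (w : Equiv.Perm I) : rlb w L = rlb w K ↔ L = K :=
  ⟨fun e => by simpa [← rlb_mul, rlb_one] using congrArg (rlb w⁻¹) e, congrArg _⟩

theorem flatten_rlb (w : Equiv.Perm I) :
    (rlb w L).flatten = L.flatten.map fun b => b.image w := by simp [rlb, List.map_flatten]

end fc

section adm
variable {L K : List (List (Finset I))}

omit [DecidableEq I] in
theorem Adm.of_perm (h : Adm col th L) (e : K.flatten.Perm L.flatten) (hn : ∀ u ∈ K, u ≠ []) :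
    Adm col th K :=
  ⟨⟨fun b hb => h.part.1 b (e.mem_iff.1 hb), ((e.map _).sum_eq).trans h.part.2⟩, hn,
    fun b hb => h.bal b (e.mem_iff.1 hb)⟩

omit [DecidableEq I] in
theorem Adm.sfM (h : Adm col th L) (e : SfM L K) : Adm col th K ∧ K.length + 1 = L.length := by
  refine ⟨h.of_perm e.perm ?_, ?_⟩ <;> obtain ⟨u, v, w, T, rfl, rfl, h1, -⟩ := e
  · exact List.forall_mem_cons.2 ⟨fun k => h.ne u (by simp) (by simpa [k] using h1),
      fun x hx => h.ne x (by simp [hx])⟩
  · rfl

omit [DecidableEq I] in
theorem Adm.sw {n : ℕ} (h : Adm col th L) (e : Sw n L K) : Adm col th K ∧ K.length = L.length :=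
  ⟨h.of_perm e.perm.flatten fun u hu => h.ne u (e.perm.mem_iff.1 hu), e.perm.length_eq⟩

theorem Adm.fcM (h : Adm col th L) (e : FcM L K) : Adm col th K ∧ K.length = L.length := by
  obtain ⟨s, a, b, t, h1, h2⟩ := e.fc
  have hp := h.part
  have hd : Disjoint a b := by
    have := hp.pw
    rw [h1, List.pairwise_append, List.pairwise_cons] at this
    exact this.2.1.1 b (by simp)
  have hb := h.bal
  rw [h1] at hp hb
  refine ⟨⟨?_, ?_, ?_⟩, ?_⟩
  · rw [h2]
    refine ⟨fun c hc => ?_, ?_⟩
    · simp only [List.mem_append, List.mem_cons] at hc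
      rcases hc with hc | rfl | hc
      exacts [hp.1 c (by simp [hc]), (hp.1 a (by simp)).mono Finset.subset_union_left,
        hp.1 c (by simp [hc])]
    · rw [← hp.2, ← Finset.disjUnion_eq_union a b hd]
      simp only [List.map_append, List.map_cons, List.sum_append, List.sum_cons, ← add_assoc a.val]
      rfl
  · obtain ⟨A, u, w, B, rfl, rfl, k⟩ := e
    intro x hx
    simp only [List.mem_append, List.mem_cons] at hx
    rcases hx with hx | rfl | hx
    exacts [h.ne x (by simp [hx]), List.ne_nil_of_length_pos k.length.2, h.ne x (by simp [hx])]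
  · rw [h2]
    intro c hc
    simp only [List.mem_append, List.mem_cons] at hc
    rcases hc with hc | rfl | hc
    exacts [hb c (by simp [hc]), by
      rw [Finset.sum_union hd, hb a (by simp), hb b (by simp), add_zero], hb c (by simp [hc])]
  · obtain ⟨A, u, w, B, rfl, rfl, -⟩ := e
    simp

theorem Adm.rlb (h : Adm col th L) {w : Equiv.Perm I} (hw : ∀ i, col (w i) = col i) :
    Adm col th (rlb w L) := by
  refine ⟨⟨?_, ?_⟩, ?_, ?_⟩
  · rw [flatten_rlb]
    exact List.forall_mem_map.2 fun b hb => (h.part.1 b hb).image w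
  · have : ∀ l : List (Finset I), ((l.map fun b => b.image w).map Finset.val).sum =
        (l.map Finset.val).sum.map w := fun l => by
      induction l with
      | nil => rfl
      | cons b l ih =>
        simp only [List.map_cons, List.sum_cons, ih, Multiset.map_add,
          Finset.image_val_of_injOn w.injective.injOn]
    rw [flatten_rlb, this, h.part.2]
    exact Multiset.map_univ_val_equiv w
  · exact List.forall_mem_map.2 fun u hu k => h.ne u hu (List.map_eq_nil_iff.1 k)
  · rw [flatten_rlb]
    exact List.forall_mem_map.2 fun b hb => by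
      rw [Finset.sum_image w.injective.injOn]
      simpa only [hw] using h.bal b hb

theorem Adm.cp_iff (h : Adm col th L) (m : ℕ) {i j : I} :
    (mdat m h).cp i j ↔ slot L i = slot L j := by
  rw [slot_eq_iff h.part.pw (h.part.mem_word i) (h.part.mem_word j)]
  exact ⟨fun ⟨u, hu, a, ha, b, hb, hi, hj⟩ => ⟨u, hu, ⟨a, ha, hi⟩, b, hb, hj⟩,
    fun ⟨u, hu, ⟨a, ha, hi⟩, b, hb, hj⟩ => ⟨u, hu, a, ha, b, hb, hi, hj⟩⟩

omit [DecidableEq I] in
theorem Adm.tot_le (h : Adm col th L) : L.flatten.length ≤ Fintype.card I :=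
  OPs.length_le (s := Finset.univ.val) h.part

omit [DecidableEq I] in
theorem Adm.len_le (h : Adm col th L) : L.length ≤ L.flatten.length := by
  have := h.ne
  clear h
  induction L with
  | nil => simp
  | cons u L ih =>
    have h1 := List.length_pos_of_ne_nil (this u (by simp))
    have h2 := ih fun v hv => this v (by simp [hv])
    simp only [List.length_cons, List.flatten_cons, List.length_append]
    omega

end adm

variable (col th)

/-- admissible lists of `k` words -/
def Wx (k : ℕ) : Type := {L : List (List (Finset I)) // Adm col th L ∧ L.length = k}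

instance (k : ℕ) : Finite (Wx col th k) := by
  have : Finite {u : List (Finset I) // u.length ≤ Fintype.card I} :=
    List.finite_length_le (Finset I) (Fintype.card I)
  refine ((List.finite_length_eq {u : List (Finset I) // u.length ≤ Fintype.card I} k).image
    (List.map Subtype.val)).subset (t := {L | Adm col th L ∧ L.length = k}) fun L hL => ?_
  lift L to List {u : List (Finset I) // u.length ≤ Fintype.card I} using fun u hu =>
    (List.sublist_flatten_of_mem hu).length_le.trans hL.1.tot_le
  exact ⟨L, by simpa using hL.2, rfl⟩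

instance (k : ℕ) : Fintype (Wx col th k) := Fintype.ofFinite _

instance (k : ℕ) : DecidableEq (Wx col th k) := inferInstanceAs (DecidableEq (Subtype _))

/-- the indicator function of a list -/
abbrev ind (K : List (List (Finset I))) : List (List (Finset I)) → ℤ := fun b => if b = K then 1 else 0

variable {col th} in
theorem NatOp.sum_Wx {M : Type} [AddCommGroup M] {k : ℕ}
    {O : ∀ (M : Type) [AddCommGroup M], (List (List (Finset I)) → M) → M}
    {F : List (List (Finset I)) → Prop} (h : NatOp O F)
    (hF : ∀ K, F K → Adm col th K ∧ K.length = k) (φ : List (List (Finset I)) → M) :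
    O M φ = ∑ K : Wx col th k, O ℤ (ind K.1) • φ K.1 := by
  rw [h.matrix (Finset.univ.map ⟨fun K : Wx col th k => K.1, Subtype.val_injective⟩)
    (fun K hK => Finset.mem_map.2 ⟨⟨K, hF K hK⟩, Finset.mem_univ _, rfl⟩), Finset.sum_map]
  rfl

variable {col th} in
theorem cobM_sum {M : Type} [AddCommGroup M] {k : ℕ} (L : Wx col th k)
    (φ : List (List (Finset I)) → M) :
    cobM L.1 φ = ∑ K : Wx col th k, cobM L.1 (ind K.1) • φ K.1 :=
  (cobM_nat L.1).sum_Wx (fun _ h => ⟨(L.2.1.fcM h).1, (L.2.1.fcM h).2.trans L.2.2⟩) φ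

/-- the shape of the cobar diagram on `k` words -/
def shT (k : ℕ) : Sh where
  ι := Wx col th k
  deg L := L.1.flatten.length - 1
  rel L K := RS id L.1 K.1
  ε L K := cobM L.1 (ind K.1)
  sup L K h := by
    have h1 := (cobM_nat L.1).of_ne h
    have h2 := h1.fc.length
    exact ⟨h1.rs, by omega⟩
  trans h h' := h.comp h'
  εε L K := (cobM_sum L fun b => cobM b (ind K.1)).symm.trans (cobM_cobM _ _)

/-- an operator on cochains of lists that commutes with the coboundary -/
structure WOp (k k' : ℕ) where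
  σ : ℕ → ℕ
  O : List (List (Finset I)) → ∀ (M : Type) [AddCommGroup M], (List (List (Finset I)) → M) → M
  F : List (List (Finset I)) → List (List (Finset I)) → Prop
  nat : ∀ L, NatOp (O L) (F L)
  sup : ∀ (L : Wx col th k) K, F L.1 K → (Adm col th K ∧ K.length = k') ∧ RS σ L.1 K ∧
    K.flatten.length = L.1.flatten.length
  cob : ∀ (L : Wx col th k) (φ : List (List (Finset I)) → ℤ),
    (O L.1 ℤ fun K => cobM K φ) = cobM L.1 fun K => O K ℤ φ
  map : ∀ {M : Type} [AddCommGroup M] (w : Equiv.Perm I) L (φ : List (List (Finset I)) → M),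
    O (rlb w L) M φ = O L M fun K => φ (rlb w K)

variable {col th} in
theorem WOp.sum {k k' : ℕ} (A : WOp col th k k') {M : Type} [AddCommGroup M] (L : Wx col th k)
    (φ : List (List (Finset I)) → M) :
    A.O L.1 M φ = ∑ K : Wx col th k', A.O L.1 ℤ (ind K.1) • φ K.1 :=
  (A.nat L.1).sum_Wx (fun K h => (A.sup L K h).1) φ

variable {col th} in
/-- the map of shapes of an operator -/
def WOp.sh {k k' : ℕ} (A : WOp col th k k') : ShH (shT col th k) (shT col th k') where
  R L K := RS A.σ L.1 K.1
  μ L K := A.O L.1 ℤ (ind K.1)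
  sup L K h := by
    have h1 := A.sup L K.1 ((A.nat L.1).of_ne h)
    exact ⟨h1.2.1, congrArg (· - 1) h1.2.2.symm⟩
  l h h' := h.comp h'
  r h h' := h.comp h'
  comm L K := (cobM_sum L fun b => A.O b ℤ (ind K.1)).symm.trans
    ((A.cob L _).symm.trans (A.sum L fun b => cobM b (ind K.1)))

/-- the shuffle of the first two words -/
def opS (k : ℕ) : WOp col th (k + 1) k where
  σ := (· - 1)
  O L _ _ φ := sM L φ
  F := SfM
  nat := sM_nat
  sup L _ h := ⟨⟨(L.2.1.sfM h).1, Nat.succ_injective ((L.2.1.sfM h).2.trans L.2.2)⟩, h.rs,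
    h.perm.length_eq⟩
  cob _ _ := sM_cobM _ _
  map _ _ _ := sM_map _ _ _

/-- the exchange of two neighbouring words -/
def opT (k n : ℕ) : WOp col th k k where
  σ := Equiv.swap n (n + 1)
  O L _ _ φ := tau n L φ
  F := Sw n
  nat := tau_nat n
  sup L _ h := ⟨⟨(L.2.1.sw h).1, (L.2.1.sw h).2.trans L.2.2⟩, h.rs L.2.1.part.pw,
    h.perm.flatten.length_eq⟩
  cob _ _ := tau_cobM _ _ _
  map _ _ _ := tau_map _ _ _ _

/-- the permutations that keep the colours -/
def Wc : Subgroup (Equiv.Perm I) where
  carrier := {w | ∀ i, col (w i) = col i}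
  mul_mem' ha hb i := (ha _).trans (hb i)
  one_mem' _ := rfl
  inv_mem' {a} ha i := by simpa using (ha (a⁻¹ i)).symm

instance : Fintype (Wc col) := Fintype.ofFinite _

variable {col th} in
/-- relabelling of an index -/
def Wx.rlb {k : ℕ} (w : Wc col) (L : Wx col th k) : Wx col th k :=
  ⟨CS.rlb w.1 L.1, L.2.1.rlb w.2, by rw [CS.rlb, List.length_map, L.2.2]⟩

/-- the action on the indices -/
def actI (k : ℕ) : Wc col →* Equiv.Perm (Wx col th k) where
  toFun w :=
    { toFun := Wx.rlb w
      invFun := Wx.rlb w⁻¹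
      left_inv := fun L => Subtype.ext (by simp [Wx.rlb, ← rlb_mul, rlb_one])
      right_inv := fun L => Subtype.ext (by simp [Wx.rlb, ← rlb_mul, rlb_one]) }
  map_one' := Equiv.ext fun _ => Subtype.ext rlb_one
  map_mul' w w' := Equiv.ext fun _ => Subtype.ext (rlb_mul w.1 w'.1)

variable {col th}

theorem actI_val {k : ℕ} (w : Wc col) (L : Wx col th k) : (actI col th k w L).1 = rlb w.1 L.1 := rfl

omit [Fintype I] in
theorem cobM_rlb {M : Type} [AddCommGroup M] (w : Equiv.Perm I) (L : List (List (Finset I)))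
    (φ : List (List (Finset I)) → M) : cobM (rlb w L) φ = cobM L fun K => φ (rlb w K) :=
  cobM_map _ (fun _ _ => Finset.image_union _ _) L φ

theorem shT_ε_rlb {k : ℕ} (w : Wc col) (L K : Wx col th k) :
    (shT col th k).ε (actI col th k w L) (actI col th k w K) = (shT col th k).ε L K :=
  (cobM_rlb w.1 L.1 _).trans (congrArg _ (funext fun _ => if_congr (rlb_inj _) rfl rfl))

theorem WOp.μ_rlb {k k' : ℕ} (A : WOp col th k k') (w : Wc col) (L : Wx col th k)
    (K : Wx col th k') : A.sh.μ (actI col th k w L) (actI col th k' w K) = A.sh.μ L K :=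
  (A.map w.1 L.1 _).trans (congrArg _ (funext fun _ => if_congr (rlb_inj _) rfl rfl))

/-- the morphism of data that belongs to a refinement; word `a` is framed through `e a` -/
def RS.mor {σ : ℕ → ℕ} {L K : List (List (Finset I))} (h : RS σ L K) (hL : Adm col th L)
    (hK : Adm col th K) {m m' : ℕ} (e : ℕ → Fin m ↪ Fin m')
    (he : ∀ a < L.length, ∀ b < L.length, a ≠ b → σ a = σ b → ∀ r s, e a r ≠ e b s) :
    Dat.Mor (mdat m hL) (mdat m' hK) where
  w := Equiv.refl I
  ι i := e (slot L i)
  col _ := rfl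
  th := rfl
  gp i j k := ⟨k.1, h.ord i j k.2⟩
  rl := h.ord
  cp i j k := (hK.cp_iff m').2 (by rw [Equiv.refl_apply, Equiv.refl_apply, h.sl, h.sl,
    (hL.cp_iff m).1 k])
  ι_eq i j k := by rw [(hL.cp_iff m).1 k]
  ι_ne i j k k' := he _ (slot_lt (hL.part.mem_word i)) _ (slot_lt (hL.part.mem_word j))
    (fun c => k ((hL.cp_iff m).2 c)) (by rw [← h.sl, ← h.sl]; exact (hK.cp_iff m').1 k')

/-- the morphism of data that belongs to a relabelling -/
def morW {L K : List (List (Finset I))} (hL : Adm col th L) (hK : Adm col th K) (m : ℕ)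
    (w : Wc col) (e : rlb w.1 L = K) : Dat.Mor (mdat m hL) (mdat m hK) where
  w := w.1
  ι _ := Function.Embedding.refl _
  col := w.2
  th := rfl
  gp i j k := ⟨(w.2 i).trans (k.1.trans (w.2 j).symm), e ▸ OrdM.rlb w.1 k.2⟩
  rl i j k := e ▸ OrdM.rlb w.1 k
  cp i j k := (hK.cp_iff m).2 (by rw [← e, slot_rlb, slot_rlb, (hL.cp_iff m).1 k])
  ι_eq _ _ _ := rfl
  ι_ne i j k k' := absurd ((hL.cp_iff m).2 (by
    rw [← slot_rlb w.1, ← slot_rlb w.1 (i := j), e]; exact (hK.cp_iff m).1 k')) k

theorem Dat.Mor.ext' {I' : Type} [Fintype I'] [DecidableEq I'] {D : Dat I} {D' : Dat I'}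
    {h h' : Dat.Mor D D'} (e : ∀ i, h.w i = h'.w i) (e' : ∀ i r, h.ι i r = h'.ι i r) : h = h' := by
  cases h
  cases h'
  congr
  exacts [Equiv.ext e, funext fun i => Function.Embedding.ext (e' i)]

end Pool.Agent.CS
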