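import Pool.Agent.P.MP_d34769_ag.YHB0
import Pool.Agent.P.MP_d34769_ag.YC0
import Pool.Agent.P.MP_d34769_ag.YF5
import Pool.Agent.P.MP_d34769_ag.YE2

/-! The cobar diagrams of spaces of framed representations with flags. -/

open Set

noncomputable section
namespace Pool.Agent.CS

variable {I : Type} [Fintype I] [DecidableEq I] {col : I → Fin 3} {th : Fin 3 → ℤ} {k k' m m' : ℕ}

/-- the datum of an index -/
abbrev Wx.dat (L : Wx col th k) (m : ℕ) : Dat I := mdat m L.2.1

/-- the morphism of data along a relation of the shape -/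
def relMor {L K : Wx col th k} (h : RS id L.1 K.1) (m : ℕ) : Dat.Mor (L.dat m) (K.dat m) :=
  h.mor L.2.1 K.2.1 (fun _ => Function.Embedding.refl _) fun _ _ _ _ a b => absurd b a

theorem relMor_comp {L K M : Wx col th k} (h : RS id L.1 K.1) (h' : RS id K.1 M.1) :
    (relMor h' m).comp (relMor h m) = relMor (h.comp h') m :=
  Dat.Mor.ext' (fun _ => rfl) fun _ _ => rfl

theorem relMor_refl {L : Wx col th k} (h : RS id L.1 L.1) : relMor h m = Dat.Mor.id _ :=
  Dat.Mor.ext' (fun _ => rfl) fun _ _ => rfl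

open Classical in
/-- the maps of the diagram -/
def ambT (m : ℕ) (L K : Wx col th k) : HT.Amb (L.dat m).M → HT.Amb (K.dat m).M :=
  if h : RS id L.1 K.1 then (relMor h m).mp else 0

theorem ambT_eq {L K : Wx col th k} (h : RS id L.1 K.1) : ambT m L K = (relMor h m).mp := dif_pos h

variable (col th k m) in
/-- the cobar diagram on `k` words, as a diagram of manifolds -/
def sdT : SDg (shT col th k) where
  M L := (Wx.dat L m).M
  X L := (Wx.dat L m).XS
  f := ambT m
  dm L := (Wx.dat L m).dim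
  mf L := (Wx.dat L m).mf
  maps h := ambT_eq h ▸ (relMor h m).mp_maps
  hol h := ambT_eq h ▸ (relMor h m).mp_hol
  comp h h' x hx := by
    rw [ambT_eq h, ambT_eq h', ambT_eq (RS.comp h h'), ← Dat.Mor.mp_comp _ _ hx, relMor_comp]

variable (col th k m) in
/-- the cobar diagram on `k` words -/
abbrev dgT : Dg (shT col th k) := (sdT col th k m).toDg

theorem sdT_f {L K : Wx col th k} (h : RS id L.1 K.1) :
    (sdT col th k m).f L K = (relMor h m).mp := ambT_eq h

theorem dgT_mp {L K : Wx col th k} (h : (shT col th k).rel L K) :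
    (dgT col th k m).mp h = (relMor h m).mc :=
  ContinuousMap.ext fun x => Subtype.ext (congrFun (sdT_f h) x.1)

/-- the morphism of data along a relabelling -/
def actMor (w : Wc col) {L K : Wx col th k} (e : actI col th k w L = K) (m : ℕ) :
    Dat.Mor (L.dat m) (K.dat m) := morW L.2.1 K.2.1 m w (congrArg Subtype.val e)

theorem mc_sq {I₁ I₂ I₃ I₄ : Type} [Fintype I₁] [DecidableEq I₁] [Fintype I₂] [DecidableEq I₂]
    [Fintype I₃] [DecidableEq I₃] [Fintype I₄] [DecidableEq I₄] {D₁ : Dat I₁} {D₂ : Dat I₂}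
    {D₃ : Dat I₃} {D₄ : Dat I₄} (a : Dat.Mor D₁ D₂) (b : Dat.Mor D₂ D₄) (c : Dat.Mor D₁ D₃)
    (d : Dat.Mor D₃ D₄) (e : ∀ i, b.w (a.w i) = d.w (c.w i))
    (e' : ∀ i r, b.ι (a.w i) (a.ι i r) = d.ι (c.w i) (c.ι i r)) (x : D₁.XS) :
    b.mc (a.mc x) = d.mc (c.mc x) := by
  have : b.comp a = d.comp c := Dat.Mor.ext' e e'
  rw [← ContinuousMap.comp_apply, ← Dat.Mor.mc_comp, this, Dat.Mor.mc_comp,
    ContinuousMap.comp_apply]

theorem mc_tri {I₁ I₂ I₃ : Type} [Fintype I₁] [DecidableEq I₁] [Fintype I₂] [DecidableEq I₂]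
    [Fintype I₃] [DecidableEq I₃] {D₁ : Dat I₁} {D₂ : Dat I₂} {D₃ : Dat I₃} (a : Dat.Mor D₁ D₂)
    (b : Dat.Mor D₂ D₃) (c : Dat.Mor D₁ D₃) (e : ∀ i, b.w (a.w i) = c.w i)
    (e' : ∀ i r, b.ι (a.w i) (a.ι i r) = c.ι i r) (x : D₁.XS) : b.mc (a.mc x) = c.mc x := by
  have : b.comp a = c := Dat.Mor.ext' e e'
  rw [← ContinuousMap.comp_apply, ← Dat.Mor.mc_comp, this]

theorem mc_one {D : Dat I} (a : Dat.Mor D D) (e : ∀ i, a.w i = i) (e' : ∀ i r, a.ι i r = r)
    (x : D.XS) : a.mc x = x := by
  have : a = Dat.Mor.id D := Dat.Mor.ext' e e'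
  rw [this, Dat.Mor.mc_id, ContinuousMap.id_apply]

open Matrix in
theorem mc_perm {D : Dat I} (a : Dat.Mor D D) (e : ∀ i, D.gp (a.w i) i) (e' : ∀ i r, a.ι i r = r)
    (x : D.XS) : a.mc x = x := by
  have h1 : (1 : Matrix I I ℂ).submatrix id a.w * (1 : Matrix I I ℂ).submatrix a.w id = 1 := by
    rw [submatrix_mul_equiv, Matrix.mul_one, submatrix_id_id]
  refine Subtype.ext ((Dat.Mor.mp_congr (h := Dat.Mor.id D) (fun p _ =>
    ⟨(1 : Matrix I I ℂ).submatrix id a.w, ⟨fun i j k => ?_, isUnit_det_of_right_inverse h1⟩, ?_⟩)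
    x.2).symm.trans (Dat.Mor.mp_id x.2))
  · exact one_apply_ne fun c : i = a.w j => k (c ▸ e j)
  · rw [Dat.Mor.F_id]
    refine Prod.ext (funext fun b => ?_) ?_
    · change _ = _ * p.1 b * _
      rw [inv_eq_right_inv h1, one_submatrix_mul, mul_submatrix_one]
      rfl
    · change _ = _ * p.2
      rw [one_submatrix_mul]
      ext i r
      have := (a.ι (a.w.symm i)).injective.extend_apply (p.2 (a.w.symm i)) 0 r
      rwa [e'] at this

variable (col th k m) in
/-- the action by relabelling -/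
def actT : Dg.Act (dgT col th k m) (Wc col) where
  a := actI col th k
  s _ _ := 1
  t w _ _ e := (actMor w e m).mc
  deg w L := congrArg (· - 1) ((congrArg _ (flatten_rlb w.1)).trans (List.length_map _))
  ε w L K := by rw [Units.val_one, one_mul, mul_one]; exact shT_ε_rlb w L K
  s_mul _ _ _ := (one_mul _).symm
  t_one _ := mc_one _ (fun _ => rfl) fun _ _ => rfl
  t_mul _ _ _ _ _ _ _ _ := mc_tri _ _ _ (fun _ => rfl) fun _ _ => rfl
  t_mp w _ _ _ _ h h' e e' x := by
    rw [dgT_mp, dgT_mp]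
    exact mc_sq (actMor w e m) (relMor h' m) (relMor h m) (actMor w e' m) (fun _ => rfl)
      (fun _ _ => rfl) x

theorem actT_t (w : Wc col) {L K : Wx col th k} (e : (actT col th k m).a w L = K) :
    (actT col th k m).t w e = (actMor w e m).mc := rfl

variable (col th k m) in
/-- the invariant double complex -/
abbrev bcT : Bc (dgT col th k m).T := (actT col th k m).bc (actT col th k m).inv_top
  (actT col th k m).inv_bot

theorem mem_fixT {c : (dgT col th k m).T} : c ∈ Fix (actT col th k m).r ↔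
    ∀ w {L K : Wx col th k} (e : actI col th k w L = K), c L = AS.pull (actMor w e m).mc (c K) := by
  rw [Dg.Act.mem_fix]
  refine forall₄_congr fun w L K e => ?_
  change c L = (((1 : ℤˣ) : ℤ) : ℂ) • _ ↔ _
  rw [Units.val_one, Int.cast_one, one_smul]
  rfl

namespace WOp
variable (A : WOp col th k k') (e : ℕ → Fin m ↪ Fin m')

/-- words that are joined have disjoint framings -/
def Fr : Prop := ∀ a < k, ∀ b < k, a ≠ b → A.σ a = A.σ b → ∀ r s, e a r ≠ e b s

variable {A e} (he : A.Fr e)

/-- the morphism of data along the relation of an operator -/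
def mor {L : Wx col th k} {K : Wx col th k'} (h : RS A.σ L.1 K.1) : Dat.Mor (L.dat m) (K.dat m') :=
  h.mor L.2.1 K.2.1 e (by rw [L.2.2]; exact he)

/-- the map of diagrams of an operator -/
def hom : Dg.Hom A.sh (dgT col th k m) (dgT col th k' m') where
  g h := (mor he h).mc
  gl h h' x := by
    rw [dgT_mp]
    exact mc_tri (relMor h m) (mor he h') (mor he (RS.comp h h')) (fun _ => rfl)
      (fun i r => congrArg (e · r) (h.sl i)) x
  gr h h' x := by
    rw [dgT_mp]
    exact mc_tri (mor he h) (relMor h' m') (mor he (A.sh.r h h')) (fun _ => rfl) (fun _ _ => rfl) x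

theorem hom_g {L : Wx col th k} {K : Wx col th k'} (h : A.sh.R L K) :
    (hom he).g h = (mor he h).mc := rfl

theorem hom_r (w : Wc col) (c : (dgT col th k' m').T) :
    (hom he).map ((actT col th k' m').r w c) = (actT col th k m).r w ((hom he).map c) := by
  refine Dg.Hom.map_r _ (hom he) _ (fun w L K => ?_) (fun w L K L' K' h h' a b x => ?_) w c
  · change ((1 : ℤˣ) : ℤ) * _ = _ * ((1 : ℤˣ) : ℤ)
    rw [Units.val_one, one_mul, mul_one]
    exact A.μ_rlb w L K
  · refine mc_sq (actMor w a m) (mor he h') (mor he h) (actMor w b m') (fun _ => rfl)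
      (fun i r => congrArg (e · r) ?_) x
    subst a
    exact slot_rlb w.1

end WOp

/-- an equivariant map of double complexes passes to the invariants -/
theorem Bc.Act.mor_inv {T T' Γ : Type} [AddCommGroup T] [Module ℂ T] [AddCommGroup T']
    [Module ℂ T'] [Group Γ] {B : Bc T} {B' : Bc T'} {r : Γ →* Module.End ℂ T}
    {r' : Γ →* Module.End ℂ T'} (h : B.Act r) (h' : B'.Act r') {f : T →ₗ[ℂ] T'} {s : ℤ}
    (hf : B.Mor B' f s) (e : ∀ g x, f (r g x) = r' g (f x)) : h.inv.Mor h'.inv f s where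
  fG p n x hx := by
    have := hf.fG p n x ⟨hx.1, hx.2.1⟩
    exact ⟨this.1, this.2, mem_Fix.2 fun g => by rw [← e, mem_Fix.1 hx.2.2 g]⟩
  fN x hx := hf.fN x hx.1
  fd x hx := hf.fd x hx.1
  fδ x hx := hf.fδ x hx.1

theorem WOp.bmor {A : WOp col th k k'} {e : ℕ → Fin m ↪ Fin m'} (he : A.Fr e) :
    (bcT col th k' m').Mor (bcT col th k m) (WOp.hom he).map 0 :=
  Bc.Act.mor_inv _ _ ((WOp.hom he).mor (fun _ => mapsTo_univ _ _) fun _ => mapsTo_empty _ _)
    (WOp.hom_r he)

/-- the framing of the shuffle map -/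
def frS (h : 2 * m ≤ m') (a : ℕ) : Fin m ↪ Fin m' :=
  ⟨fun r => ⟨if a = 0 then r else m + r, by split_ifs <;> omega⟩, fun r s e => by
    simp only [Fin.mk.injEq] at e
    split_ifs at e <;> omega⟩

theorem fr_S (h : 2 * m ≤ m') : (opS col th k).Fr (frS h) := fun a _ b _ h1 h2 r s e => by
  simp only [frS, Function.Embedding.coeFn_mk, Fin.mk.injEq] at e
  change a - 1 = b - 1 at h2
  split_ifs at e <;> omega

theorem fr_T (n : ℕ) : (opT col th k n).Fr fun _ => Function.Embedding.refl (Fin m) :=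
  fun _ _ _ _ h1 h2 => absurd ((Equiv.swap n (n + 1)).injective h2) h1

variable (col th k) in
/-- the shuffle map on cochains -/
abbrev sT (h : 2 * m ≤ m') : (dgT col th k m').T →ₗ[ℂ] (dgT col th (k + 1) m).T :=
  (WOp.hom (fr_S h)).map

variable (col th k m) in
/-- the exchange map on cochains -/
abbrev tT (n : ℕ) : (dgT col th k m).T →ₗ[ℂ] (dgT col th k m).T := (WOp.hom (fr_T n)).map

variable (col th k) in
/-- the symmetric primitive classes -/
def KT (h : 2 * m ≤ m') (j : ℤ) : Submodule ℂ ((bcT col th k m').cx.H j) :=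
  LinearMap.ker ((WOp.bmor (fr_S h)).cx.hm (add_zero j)) ⊓
    ⨅ n, ⨅ _ : n + 1 < k, LinearMap.ker ((WOp.bmor (fr_T n)).cx.hm (add_zero j) - LinearMap.id)

theorem mem_KT (h : 2 * m ≤ m') {j : ℤ} {x : (bcT col th k m').cx.Z j} :
    (bcT col th k m').cx.cls j x ∈ KT col th k h j ↔
      sT col th k h x.1 ∈ (bcT col th (k + 1) m).cx.B j ∧
        ∀ n, n + 1 < k → tT col th k m' n x.1 - x.1 ∈ (bcT col th k m').cx.B j := by
  simp only [KT, Submodule.mem_inf, Submodule.mem_iInf, LinearMap.mem_ker, LinearMap.sub_apply,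
    LinearMap.id_apply, sub_eq_zero, Cx.Mor.hm_cls, Cx.cls_eq_zero, Cx.cls_eq]

section one
variable (h0 : Adm col th [[Finset.univ]])

/-- the trivial word -/
def top : Wx col th 1 := ⟨_, h0, rfl⟩

omit [DecidableEq I] in
theorem Wx.one (L : Wx col th 1) : ∃ u, L.1 = [u] := List.length_eq_one_iff.1 L.2.2

theorem rel_top (L : Wx col th 1) : (shT col th 1).rel L (top h0) := by
  refine ⟨fun i j _ => ⟨[Finset.univ], by simp [top], Finset.univ, Finset.univ, by simp, by simp,
    Or.inl ⟨rfl, by simp⟩⟩, fun i => ?_⟩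
  have h1 := slot_lt (L.2.1.part.mem_word i)
  have h2 := slot_lt ((top h0).2.1.part.mem_word i)
  rw [L.2.2] at h1
  rw [(top h0).2.2] at h2
  change _ = slot _ _
  omega

theorem deg_top : (shT col th 1).deg (top h0) = 0 := rfl

theorem eq_top {L : Wx col th 1} (h : (shT col th 1).deg L = 0) : L = top h0 := by
  obtain ⟨u, hu⟩ := L.one
  have h1 := L.2.1.len_le
  have h2 := L.2.1.part.2
  change L.1.flatten.length - 1 = 0 at h
  rw [hu] at h h1 h2
  simp only [List.flatten_cons, List.flatten_nil, List.append_nil, List.length_singleton] at h h1 h2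
  obtain ⟨b, rfl⟩ := List.length_eq_one_iff.1 (show u.length = 1 by omega)
  obtain rfl : b = Finset.univ := Finset.val_injective (by simpa using h2)
  exact Subtype.ext hu

theorem actI_top (w : Wc col) : actI col th 1 w (top h0) = top h0 :=
  eq_top h0 ((actT col th 1 0).deg w _)

variable (m) in
/-- the space of framed semistable representations -/
abbrev XT : Type := ((top h0).dat m).XS

variable (m) in
/-- the cobar diagram over the space of framed semistable representations -/
def ovT : Dg.Ov (dgT col th 1 m) (XT m h0) where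
  π L := (dgT col th 1 m).mp (rel_top h0 L)
  comm h x := (dgT col th 1 m).comp h _ x

theorem ovT_π (L : Wx col th 1) : (ovT m h0).π L = (relMor (rel_top h0 L) m).mc := dgT_mp _

theorem ovT_top (x : XT m h0) : (ovT m h0).π (top h0) x = x := by
  rw [ovT_π]
  exact mc_one _ (fun _ => rfl) (fun _ _ => rfl) x

variable (m) in
/-- the points that have a filtration with at least `a` steps -/
def NX (a : ℕ) : Set (XT m h0) :=
  ⋃ (L : Wx col th 1) (_ : a ≤ L.1.flatten.length), range ((ovT m h0).π L)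

theorem mem_NX {a : ℕ} {x : XT m h0} : x ∈ NX m h0 a ↔
    ∃ L : Wx col th 1, a ≤ L.1.flatten.length ∧ ∃ y, (ovT m h0).π L y = x := by
  simp only [NX, mem_iUnion, mem_range, exists_prop]

theorem NX_closed (a : ℕ) : IsClosed (NX m h0 a) :=
  isClosed_iUnion_of_finite fun L => isClosed_iUnion_of_finite fun _ =>
    (isCompact_range ((ovT m h0).π L).continuous).isClosed

theorem NX_anti {a b : ℕ} (h : a ≤ b) : NX m h0 b ⊆ NX m h0 a := fun _ hx =>
  ((mem_NX h0).1 hx).elim fun L e => (mem_NX h0).2 ⟨L, h.trans e.1, e.2⟩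

theorem NX_big {a : ℕ} (h : Fintype.card I < a) : NX m h0 a = ∅ :=
  eq_empty_of_forall_notMem fun _ hx => ((mem_NX h0).1 hx).elim fun L e =>
    absurd (e.1.trans L.2.1.tot_le) h.not_ge

theorem fam_NX {a : ℕ} {L : Wx col th 1} (h : a ≤ L.1.flatten.length) :
    ((ovT m h0).fam (NX m h0 a)).A L = univ :=
  eq_univ_of_forall fun y => (mem_NX h0).2 ⟨L, h, y, rfl⟩

/-- relabelling acts trivially on the base -/
theorem actMor_top (w : Wc col) (e : actI col th 1 w (top h0) = top h0) (x : XT m h0) :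
    (actMor w e m).mc x = x :=
  mc_perm (actMor w e m) (fun i => ⟨w.2 i, [Finset.univ], by simp [top], Finset.univ, Finset.univ, by simp,
    by simp, Or.inl ⟨rfl, by simp⟩⟩) (fun _ _ => rfl) x

theorem ovT_act (w : Wc col) {L K : Wx col th 1} (e : (actT col th 1 m).a w L = K)
    (x : (dgT col th 1 m).X L) :
    (ovT m h0).π K ((actT col th 1 m).t w e x) = (ovT m h0).π L x :=
  ((actT col th 1 m).t_mp w (rel_top h0 L) (rel_top h0 K) e (actI_top h0 w) x).trans
    (actMor_top h0 w _ _)

theorem inv_famT (V : Set (XT m h0)) : (actT col th 1 m).Inv ((ovT m h0).fam V) :=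
  (actT col th 1 m).inv_fam (ovT m h0) (fun w _ _ e x => ovT_act h0 w e x) V

variable (m) in
/-- invariant cochains near `V` that vanish near `V'` -/
abbrev bcN (V V' : Set (XT m h0)) : Bc (dgT col th 1 m).T :=
  (actT col th 1 m).bc (inv_famT h0 V) (inv_famT h0 V')

theorem bcN_univ : bcN m h0 univ ∅ = bcT col th 1 m := rfl

variable (m) in
/-- the restriction to the strictly semistable locus is onto in degree `j` -/
def SurN (j : ℤ) : Prop := (bcT col th 1 m).cx.Sur (bcN m h0 (NX m h0 2) ∅).cx LinearMap.id 0 j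

end one

end Pool.Agent.CS
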