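import Pool.Agent.P.MP_d34769_ag.YHCq
import Pool.Agent.P.MP_d34769_ag.YHC1
import Pool.Agent.P.MP_d34769_ag.YW9
import Pool.Agent.P.MP_d34769_ag.YS3

/-! Actions on one space, the Coxeter shape, one-column diagrams. -/

open Set

set_option linter.unusedSectionVars false

noncomputable section
namespace Pool.Agent.CS
open Pool.Agent.P.MP_d34769_ag

/-- A continuous action. -/
structure TA (Γ F : Type) [Group Γ] [TopologicalSpace F] where
  t : Γ → C(F, F)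
  one : ∀ x, t 1 x = x
  mul : ∀ g g' x, t g (t g' x) = t (g * g') x

variable {Γ F F' K : Type} [Group Γ] [TopologicalSpace F] [CompactSpace F] [T2Space F]
  [TopologicalSpace F'] [CompactSpace F'] [T2Space F'] [Fintype K] [DecidableEq K]

/-- the action on cochains, twisted by a character -/
def TA.r (A : TA Γ F) (χ : Γ →* ℤˣ) : Γ →* Module.End ℂ (AS F) where
  toFun g := ((χ g : ℤ) : ℂ) • AS.pl (A.t g⁻¹)
  map_one' := LinearMap.ext fun c => by
    show ((χ 1 : ℤ) : ℂ) • AS.pull (A.t 1⁻¹) c = c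
    rw [inv_one, show ⇑(A.t 1) = id from funext A.one, AS.pull_id, map_one]
    simp
  map_mul' g g' := LinearMap.ext fun c => by
    show ((χ (g * g') : ℤ) : ℂ) • AS.pull (A.t (g * g')⁻¹) c =
      ((χ g : ℤ) : ℂ) • AS.pull (A.t g⁻¹) (((χ g' : ℤ) : ℂ) • AS.pull (A.t g'⁻¹) c)
    rw [map_smul, AS.pull_pull, smul_smul, map_mul, Units.val_mul, Int.cast_mul, mul_inv_rev]
    exact congrArg (_ • AS.pull · c) (funext fun x => (A.mul g'⁻¹ g⁻¹ x).symm)

theorem TA.r_apply (A : TA Γ F) (χ : Γ →* ℤˣ) (g : Γ) (c : AS F) :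
    A.r χ g c = ((χ g : ℤ) : ℂ) • AS.pull (A.t g⁻¹) c := rfl

theorem TA.mem_fix (A : TA Γ F) (χ : Γ →* ℤˣ) {c : AS F} :
    c ∈ Fix (A.r χ) ↔ ∀ g, c = ((χ g : ℤ) : ℂ) • AS.pull (A.t g) c := by
  have e : ∀ g, A.r χ g⁻¹ c = ((χ g : ℤ) : ℂ) • AS.pull (A.t g) c := fun g => by
    rw [A.r_apply, inv_inv, map_inv, Int.units_inv_eq_self]
  rw [mem_Fix]
  refine ⟨fun h g => (h g⁻¹).symm.trans (e g), fun h g => ?_⟩
  have := (e g⁻¹).trans (h g⁻¹).symm
  rwa [inv_inv] at this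

theorem TA.act (A : TA Γ F) (χ : Γ →* ℤˣ) : (CC F).Act (A.r χ) :=
  ⟨fun g x => (congrArg (_ • ·) (AS.pull_d (A.t g⁻¹) x)).trans (map_smul AS.d _ _).symm,
    fun g n x hx => Submodule.smul_mem _ _ (Cx.Gcast
      ((mor_pl (A.t g⁻¹) (mapsTo_univ _ _) (mapsTo_empty _ _)).fG n x hx) (add_zero n)),
    fun g _ hx => Submodule.smul_mem _ _ (Nl_pull (A.t g⁻¹) hx)⟩

theorem yhc2_cob {M : Type} [AddCommGroup M] [Fintype {u : List (Finset K) // Part u}]
    {u : List (Finset K)} (hu : Part u) (φ : List (Finset K) → M) :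
    cob u φ = ∑ v : {u : List (Finset K) // Part u},
      (cob u fun w => if w = v.1 then (1 : ℤ) else 0) • φ v.1 := by
  rw [cob_matrix Finset.univ.nodup (Finset.univ.image fun v : {u : List (Finset K) // Part u} => v.1)
    (fun l hl => Finset.mem_image.2 ⟨⟨l, hl⟩, Finset.mem_univ _, rfl⟩) φ hu,
    Finset.sum_image fun x _ y _ hxy => Subtype.ext hxy]

theorem yhc2_cob_cob {M : Type} [AddCommGroup M] (u : List (Finset K)) (φ : List (Finset K) → M) :
    (cob u fun w => cob w φ) = 0 := by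
  have h := cobM_cobM [u] fun L => φ (L.headD [])
  simpa only [cobM_one, List.headD_cons] using h

theorem yhc2_sup {u v : List (Finset K)} (hu : Part u)
    (h : (cob u fun w => if w = v then (1 : ℤ) else 0) ≠ 0) :
    (∀ i j, Ord u i j → Ord v i j) ∧ u.length - 1 = v.length - 1 + 1 := by
  have h1 : Fc u v := (cob_nat u).of_ne h
  refine ⟨(h1.part hu).2.2, ?_⟩
  obtain ⟨s, a, b, t, rfl, rfl⟩ := h1
  simp only [List.length_append, List.length_cons]
  omega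

/-- the shape of the ordered partitions of `K` -/
def coxSh (K : Type) [Fintype K] [DecidableEq K] : Sh where
  ι := {u : List (Finset K) // Part u}
  fin := Set.Finite.fintype (s := {u | Part u}) (finite_OPs (Finset.univ : Finset K).val)
  deg u := u.1.length - 1
  rel u v := ∀ i j, Ord u.1 i j → Ord v.1 i j
  ε u v := cob u.1 fun w => if w = v.1 then 1 else 0
  sup u _ h := yhc2_sup u.2 h
  trans h h' i j e := h' i j (h i j e)
  εε u v := (@yhc2_cob K _ _ ℤ _ (_) u.1 u.2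
    fun w => cob w fun x => if x = v.1 then 1 else 0).symm.trans (yhc2_cob_cob _ _)

theorem coxSh_isCox [Nonempty K] : IsCox (coxSh K) Subtype.val 1 where
  inj := Subtype.val_injective
  op i := i.2
  sur l h := ⟨⟨l, h⟩, rfl⟩
  deg i := by
    obtain ⟨a, ha, -⟩ := i.2.mem (Classical.arbitrary K)
    exact (Nat.sub_add_cancel (List.length_pos_of_mem ha)).symm
  ε _ _ := rfl

/-- relabelling of ordered partitions -/
def coxP (K : Type) [Fintype K] [DecidableEq K] : Equiv.Perm K →* Equiv.Perm (coxSh K).ι :=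
  MonoidHom.toHomPerm
    { toFun := fun w u => ⟨u.1.map (pre ⇑w⁻¹), u.2.pre w⁻¹.surjective⟩
      map_one' := funext fun u => Subtype.ext
        ((List.map_congr_left fun b _ => Finset.ext fun i => by simp).trans (List.map_id' u.1))
      map_mul' := fun w w' => funext fun u => Subtype.ext
        ((List.map_congr_left fun b _ => Finset.ext fun i => by simp).trans
          (List.map_map (g := pre ⇑w⁻¹) (f := pre ⇑w'⁻¹) (l := u.1)).symm) }

theorem coxP_val (w : Equiv.Perm K) (u : (coxSh K).ι) :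
    (coxP K w u).1 = u.1.map (pre ⇑w⁻¹) := rfl

/-- the orderings -/
def coxT {k : ℕ} (σ : Equiv.Perm (Fin k)) : (coxSh (Fin k)).ι :=
  ⟨topL (Equiv.refl _) σ, part_iff.2 (topL_OPs _ σ)⟩

theorem coxT_val {k : ℕ} (σ : Equiv.Perm (Fin k)) :
    (coxT σ).1 = List.ofFn fun i => {σ i} := rfl

theorem yhc2_coxP_T {k : ℕ} (w σ : Equiv.Perm (Fin k)) :
    coxP (Fin k) w (coxT σ) = coxT (w * σ) := by
  refine Subtype.ext ?_
  rw [coxP_val, coxT_val, coxT_val, List.map_ofFn]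
  refine congrArg List.ofFn (funext fun i => Finset.ext fun a => ?_)
  rw [Function.comp_apply, mem_pre, Finset.mem_singleton, Finset.mem_singleton,
    Equiv.Perm.inv_eq_iff_eq, Equiv.Perm.mul_apply]

theorem yhc2_coxP_ε (w : Equiv.Perm K) (u v : (coxSh K).ι) :
    (coxSh K).ε (coxP K w u) (coxP K w v) = (coxSh K).ε u v := by
  have hi : Function.Injective (pre ⇑w⁻¹ : Finset K → Finset K) := fun a b e =>
    Finset.ext fun i => by
      have := congrArg (w i ∈ ·) e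
      simpa using this
  refine (cob_map (pre ⇑w⁻¹) (pre_union _) u.1 _).trans (congrArg (cob u.1) (funext fun x => ?_))
  exact if_congr (List.map_injective_iff.2 hi).eq_iff rfl rfl

/-- the action on the constant diagram -/
def TA.cox (A : TA Γ F) (ph : Γ →* Equiv.Perm K) : Dg.Act (Dg.cst (coxSh K) F) Γ where
  a := (coxP K).comp ph
  s _ _ := 1
  t g _ _ _ := A.t g
  deg _ _ := congrArg (· - 1) (List.length_map _)
  ε g u v := (one_mul _).trans ((yhc2_coxP_ε (ph g) u v).trans (mul_one _).symm)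
  s_mul _ _ _ := (one_mul 1).symm
  t_one _ := A.one
  t_mul g g' _ _ _ _ _ _ := A.mul g g'
  t_mp _ _ _ _ _ _ _ _ _ _ := rfl

theorem TA.cox_qi [Fintype Γ] {k : ℕ} (hk : 0 < k) (A : TA Γ F) (ph : Γ →* Equiv.Perm (Fin k)) :
    ((A.cox ph).bc (A.cox ph).inv_top (A.cox ph).inv_bot).cx.Mor
      (A.act (Equiv.Perm.sign.comp ph)).inv (coxL coxT (AS F)) (-((k - 1 : ℕ) : ℤ)) ∧
    ((A.cox ph).bc (A.cox ph).inv_top (A.cox ph).inv_bot).cx.QIa
      (A.act (Equiv.Perm.sign.comp ph)).inv (coxL coxT (AS F)) (-((k - 1 : ℕ) : ℤ)) := by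
  have : Nonempty (Fin k) := ⟨⟨0, hk⟩⟩
  obtain ⟨m, q⟩ := IsCox.qi (Equiv.refl (Fin k)) coxSh_isCox (t := coxT) (fun _ => rfl)
    (univ : Set F) ∅
  rw [show ((1 : ℕ) : ℤ) - k = -((k - 1 : ℕ) : ℤ) by omega] at m q
  have e : ∀ g (x : (coxSh (Fin k)).ι → AS F), coxL coxT (AS F) ((A.cox ph).r g x) =
      A.r (Equiv.Perm.sign.comp ph) g (coxL coxT (AS F) x) := fun g x => by
    refine (coxL_apply _ _).trans (Eq.trans ?_ (congrArg (A.r _ g) (coxL_apply _ _)).symm)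
    rw [A.r_apply, map_sum, Finset.smul_sum]
    refine Fintype.sum_equiv (Equiv.mulLeft (ph g⁻¹)) _ _ fun σ => ?_
    have h1 : ((A.cox ph).r g x (coxT σ) : AS F) =
        (((1 : ℤˣ) : ℤ) : ℂ) • AS.pull (A.t g⁻¹) (x (coxT (ph g⁻¹ * σ))) :=
      (A.cox ph).r_apply g x (yhc2_coxP_T (ph g⁻¹) σ)
    rw [h1, Equiv.coe_mulLeft, map_smul, smul_smul, smul_smul, ← Int.cast_mul, ← Int.cast_mul,
      ← Units.val_mul, ← Units.val_mul, mul_one, MonoidHom.comp_apply, ← map_mul, map_inv,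
      mul_inv_cancel_left]
  rw [Bc.Act.inv_cx]
  exact ⟨Cx.Act.mor_inv _ _ m e, fun n => Cx.Act.qi_inv _ _ m e (q n)⟩

theorem yhc2_mor {β : Type} [Fintype β] (ν : β → C(F', F)) :
    (CC F).Mor (CC F') (∑ b, AS.pl (ν b)) 0 :=
  Cx.Mor.sum _ fun b _ => mor_pl (ν b) (mapsTo_univ _ _) (mapsTo_empty _ _)

/-- maps that preserve generators of the cohomology rings -/
theorem sum_pl_qi {β : Type} [Fintype β] [Nonempty β] (ν : β → C(F', F)) (y : K → HE F)
    (y' : K → HE F') (hy : ∀ a, (y a).1 ∈ hr F 2) (hν : ∀ b a, HE.pull (ν b) (y a) = y' a)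
    (h1 : Function.Surjective (ev y)) (h2 : Function.Surjective (ev y')) {n : ℕ}
    (h3 : ∀ p ≤ n, ∀ φ : MvPolynomial K ℂ, φ.IsHomogeneous p → ev y' φ = 0 → φ = 0) :
    (CC F).Mor (CC F') (∑ b, AS.pl (ν b)) 0 ∧ (CC F).QI (CC F') (∑ b, AS.pl (ν b)) 0 n := by
  obtain ⟨b₀⟩ := ‹Nonempty β›
  have h4 : ∀ b φ, HR.pull (ν b) (ev y φ) = ev y' φ := fun b φ => by
    rw [pull_ev, funext (hν b)]
  have h5 : (Fintype.card β : ℂ) ≠ 0 := Nat.cast_ne_zero.2 Fintype.card_ne_zero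
  have h6 : ∀ k, ∀ x ∈ (CC F).Z k, ((Fintype.card β : ℂ) • AS.pl (ν b₀)) x -
      (∑ b, AS.pl (ν b)) x ∈ (CC F').B (k + 0) := fun k x hx => by
    obtain ⟨φ, e⟩ := h1 (cl x)
    have h7 : ∀ b, cl (AS.pull (ν b) x) = ev y' φ := fun b => by
      rw [← pull_cl _ (Z_Zc hx), ← e, h4]
    rw [add_zero, LinearMap.sum_apply]
    refine (cl_eq (Submodule.smul_mem _ _ (pull_mem_Z (ν b₀) hx))
      (Submodule.sum_mem _ fun b _ => pull_mem_Z (ν b) hx)).1 ?_
    rw [cl_smul, cl_sum _ fun b _ => Z_Zc (pull_mem_Z (ν b) hx), h7,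
      Finset.sum_congr rfl fun b _ => h7 b, Finset.sum_const, Finset.card_univ,
      Nat.cast_smul_eq_nsmul]
  refine ⟨yhc2_mor ν, fun k hk => Cx.Inj.congr (h6 k) (Cx.Inj.smul ?_ h5),
    fun k _ => Cx.Sur.congr (h6 k) (Cx.Sur.smul ?_ h5)⟩
  · refine (inj_pl_iff _ k).2 fun c hc e => ?_
    rcases lt_or_ge k 0 with h0 | h0
    · rwa [hr_neg h0] at hc
    lift k to ℕ using h0
    obtain ⟨φ, rfl⟩ := h1 c
    rw [mem_hr_nat] at hc
    rcases Nat.even_or_odd' k with ⟨p, rfl | rfl⟩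
    · rw [hp_ev hy] at hc
      rw [← hc, h4] at e
      rw [← hc, h3 p (by omega) _ (MvPolynomial.homogeneousComponent_isHomogeneous p φ) e, map_zero]
    · exact hc.symm.trans (ev_mem_HE y φ _ ⟨p, rfl⟩)
  · refine (sur_pl_iff _ k).2 fun c hc => ?_
    rcases lt_or_ge k 0 with h0 | h0
    · rw [hr_neg h0] at hc
      exact ⟨0, zero_mem _, (map_zero _).trans hc.symm⟩
    lift k to ℕ using h0
    obtain ⟨φ, rfl⟩ := h2 c
    exact ⟨_, hp_mem k (ev y φ), by rw [← hp_pull, h4, mem_hr_nat.1 hc]⟩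

/-- the same on invariants -/
theorem sum_pl_inv [Fintype Γ] {β : Type} [Fintype β] (ν : β → C(F', F)) (A : TA Γ F)
    (A' : TA Γ F') (χ : Γ →* ℤˣ) (h : ∀ g, ∃ e : β ≃ β, ∀ b x, A.t g (ν b x) = ν (e b) (A'.t g x))
    {n : ℤ} (q : (CC F).QI (CC F') (∑ b, AS.pl (ν b)) 0 n) :
    (A.act χ).inv.Mor (A'.act χ).inv (∑ b, AS.pl (ν b)) 0 ∧
      (A.act χ).inv.QI (A'.act χ).inv (∑ b, AS.pl (ν b)) 0 n := by
  have e : ∀ g x, (∑ b, AS.pl (ν b)) (A.r χ g x) = A'.r χ g ((∑ b, AS.pl (ν b)) x) := fun g x => by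
    obtain ⟨e, he⟩ := h g⁻¹
    rw [A.r_apply, A'.r_apply, map_smul, LinearMap.sum_apply, LinearMap.sum_apply, map_sum]
    refine congrArg (_ • ·) (Fintype.sum_equiv e _ _ fun b => ?_)
    exact (AS.pull_pull _ _ x).trans ((congrArg (AS.pull · x) (funext (he b))).trans
      (AS.pull_pull (A'.t g⁻¹) (ν (e b)) x).symm)
  exact ⟨Cx.Act.mor_inv _ _ (yhc2_mor ν) e, Cx.Act.qi_inv _ _ (yhc2_mor ν) e q⟩

/-- the shape with one column -/
def Sh.one (ι : Type) [Fintype ι] (p : ℕ) : Sh where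
  ι := ι
  deg _ := p
  rel _ _ := False
  ε _ _ := 0
  sup _ _ h := absurd rfl h
  trans h _ := h
  εε _ _ := by simp

namespace Dg
variable {ι : Type} [Fintype ι] {p : ℕ} {P : Dg (Sh.one ι p)} {K A : P.Fam} {c : P.T} {n : ℤ}

theorem one_d (c : P.T) (i : (Sh.one ι p).ι) : (bc K A).cx.d c i = AS.d (c i) := by
  rw [cx_d, HT.BG.D_apply, Pi.add_apply, Sys.bg_d, Sys.bg_δ, mat_eq_zero fun _ r _ => r.elim,
    map_zero, add_zero]
  rfl

theorem one_mem_G : c ∈ (bc K A).cx.G n ↔ ∀ i, c i ∈ (CP (K.A i) (A.A i)).G (n - p) := mem_cx_G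

theorem one_mem_Z : c ∈ (bc K A).cx.Z n ↔ ∀ i, c i ∈ (CP (K.A i) (A.A i)).Z (n - p) := by
  rw [Cx.mem_Z, one_mem_G]
  simp only [Cx.mem_Z, forall_and]
  refine and_congr Iff.rfl ((mem_N (A := A)).trans (forall_congr' fun i => ?_))
  rw [one_d]
  rfl

theorem one_mem_B : c ∈ (bc K A).cx.B n ↔ ∀ i, c i ∈ (CP (K.A i) (A.A i)).B (n - p) := by
  have e : n - 1 - p = n - p - 1 := by ring
  simp only [Cx.mem_B, one_mem_G, e]
  constructor
  · rintro ⟨b, hb, h⟩ i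
    exact ⟨b i, hb i, one_d (K := K) (A := A) b i ▸ (mem_N (A := A)).1 h i⟩
  · intro h
    choose b hb h using h
    refine ⟨b, hb, (mem_N (A := A)).2 fun i => ?_⟩
    rw [Pi.sub_apply, one_d]
    exact h i

theorem one_mor (l : (Sh.one ι p).ι) (ξ : C(F, P.X l)) (h : ∀ x, ξ x ∈ K.A l) :
    (bc K ⊥).cx.Mor (CC F) (AS.pl ξ ∘ₗ LinearMap.proj (φ := fun i => AS (P.X i)) l) (-p) := by
  have m : MapsTo ξ univ (K.A l) := fun x _ => h x
  refine ⟨fun n x hx => Cx.Gcast ((mor_pl ξ m (mapsTo_empty _ _)).fG _ _ (one_mem_G.1 hx l))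
    (by ring), fun _ x _ hx => zz_pl m ((mem_N (A := ⊥)).1 hx l), fun _ x _ => ?_⟩
  refine Cx.meq (Submodule.zero_mem _) (sub_eq_zero.2 ?_).symm
  exact (congrArg (AS.pull ξ) (one_d x l)).trans (AS.pull_d ξ _)

end Dg

end Pool.Agent.CS
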