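import Pool.Agent.P.MP_d34769_ag.YO2
import Pool.Agent.P.MP_d34769_ag.YS6

/-! Descent, excision and tautness for diagrams. -/

open Set Topology

set_option linter.unusedSectionVars false

noncomputable section
namespace Pool.Agent.CS

section cov
variable {ι Λ : Type} {Y : ι → Type} [∀ i, TopologicalSpace (Y i)] [∀ i, CompactSpace (Y i)]
  [∀ i, T2Space (Y i)] {X : Λ → Type} [∀ i, TopologicalSpace (X i)] [∀ i, CompactSpace (X i)]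
  [∀ i, T2Space (X i)] {F : (∀ i, AS (Y i)) →ₗ[ℂ] ∀ l, AS (X l)} {C : Cov F} {Γ : Type} [Group Γ]
  {r : Γ →* Module.End ℂ (∀ l, AS (X l))} {ρ : PAct r} {i : ι} {y : Y i}

/-- one whole fibre is a fundamental set -/
theorem Cov.Inv.fib_all (h : C.Inv ρ) {l₀ : Λ} (e₀ : C.τ l₀ = i) (h1 : ∃ x, C.q e₀ x = y)
    (h2 : ∀ l (e : C.τ l = i) x, C.q e x = y → ∃ g, ρ.R g l l₀)
    (h3 : ∀ k, ∀ x ∈ (CP (C.q e₀ ⁻¹' {y}) ∅).Z k, (∀ g (h : ρ.R g l₀ l₀), AS.pull (ρ.a h) x = x) →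
      ∃ a : ℂ, x - a • 1 ∈ (CP (C.q e₀ ⁻¹' {y}) ∅).B k) : C.Fib ρ i y :=
  ⟨l₀, e₀, C.q e₀ ⁻¹' {y}, isClosed_singleton.preimage (C.q e₀).continuous, h1, fun _ hx => hx,
    fun l e x hx => by
      obtain ⟨g, hg⟩ := h2 l e x hx
      exact ⟨g, hg, (h.q hg e e₀ x).trans hx⟩,
    fun _ hg => Or.inl fun x hx => (h.q hg e₀ e₀ x).trans hx, h3⟩

/-- the fibre is one orbit -/
theorem Cov.fib_pt {l₀ : Λ} (e₀ : C.τ l₀ = i) (x₀ : X l₀) (h1 : C.q e₀ x₀ = y)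
    (h2 : ∀ l (e : C.τ l = i) x, C.q e x = y → ∃ g, ∃ h : ρ.R g l l₀, ρ.a h x = x₀) :
    C.Fib ρ i y :=
  ⟨l₀, e₀, {x₀}, isClosed_singleton, singleton_nonempty _, fun _ hx => hx ▸ h1, h2,
    fun _ h => (em (ρ.a h x₀ = x₀)).imp (fun e _ hx => by rw [mem_singleton_iff.1 hx]; exact e)
      fun e _ hx => by rw [mem_singleton_iff.1 hx]; exact e,
    fun _ _ hx _ => ⟨_, AS.stalk_B hx⟩⟩

/-- an embedded space is a fundamental set of the fibre -/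
theorem Cov.fib_emb {l₀ : Λ} (e₀ : C.τ l₀ = i) {Z : Type} [TopologicalSpace Z] [CompactSpace Z]
    [T2Space Z] [Nonempty Z] (ξ : C(Z, X l₀)) (hξ : Function.Injective ξ)
    (h1 : ∀ z, C.q e₀ (ξ z) = y)
    (h2 : ∀ l (e : C.τ l = i) x, C.q e x = y → ∃ g, ∃ h : ρ.R g l l₀, ∃ z, ξ z = ρ.a h x)
    (h3 : ∀ g (h : ρ.R g l₀ l₀), (∀ z, ∃ z', ξ z' = ρ.a h (ξ z)) ∨ ∀ z z', ξ z' ≠ ρ.a h (ξ z))
    (h4 : ∀ k, ∀ x ∈ (CC Z).Z k, (∀ g (h : ρ.R g l₀ l₀) (u : Z → Z),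
      (∀ z, ξ (u z) = ρ.a h (ξ z)) → AS.pull u x = x) → ∃ a : ℂ, x - a • 1 ∈ (CC Z).B k) :
    C.Fib ρ i y := by
  refine ⟨l₀, e₀, range ξ, (isCompact_range ξ.continuous).isClosed, range_nonempty _, ?_, h2,
    fun g h => (h3 g h).imp ?_ ?_, fun k x hx hi => ?_⟩
  · rintro _ ⟨z, rfl⟩
    exact h1 z
  · rintro e _ ⟨z, rfl⟩
    exact e z
  · rintro e _ ⟨z, rfl⟩ ⟨z', h'⟩
    exact e z z' h'
  · have hm : (CP (range ξ) ∅).Mor (CC Z) (AS.pl ξ) 0 :=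
      mor_pull ξ (fun y _ => ⟨y, rfl⟩) (mapsTo_empty _ _)
    obtain ⟨a, e⟩ := h4 k (AS.pull ξ x) (by simpa using hm.mem_Z hx) fun g h u hu => by
      rw [AS.pull_pull, show ξ ∘ u = ρ.a h ∘ ξ from funext hu, ← AS.pull_pull, hi g h]
    by_cases hk : k = 0
    · subst hk
      refine ⟨a, (taut_YO ξ hξ).inj 0 _ (sub_mem hx (Submodule.smul_mem _ _ AS.one_mem_Z)) ?_⟩
      simpa using e
    · rw [const_zero (AS.pull_mem_G ξ hx.1.1) hk e univ_nonempty, zero_smul, sub_zero] at e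
      exact ⟨0, by simpa using (taut_YO ξ hξ).inj k _ hx (by simpa using e)⟩

/-- the trivial action -/
def PAct.triv (X : Λ → Type) [∀ i, TopologicalSpace (X i)] :
    PAct (1 : Unit →* Module.End ℂ (∀ l, AS (X l))) where
  R _ i j := i = j
  a h := h ▸ ContinuousMap.id _
  s _ _ := 1
  ex _ i := ⟨i, rfl⟩
  eq h c := by
    subst h
    rw [one_smul]
    exact (AS.pull_id _).symm

/-- Vietoris-Begle for a family: over every point exactly one member has a fibre, and this fibre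
has the cohomology of a point. -/
theorem Cov.vb [Finite ι] [Finite Λ] (C : Cov F) {P : ι → Prop} {P' : Λ → Prop}
    (hP : ∀ l, P' l ↔ P (C.τ l)) {K A : ∀ i, Set (Y i)} (hK : ∀ i, IsClosed (K i))
    (hA : ∀ i, IsClosed (A i)) {K' A' : ∀ l, Set (X l)} (hK' : ∀ l, K' l = C.q rfl ⁻¹' K (C.τ l))
    (hA' : ∀ l, A' l = C.q rfl ⁻¹' A (C.τ l))
    (hf : ∀ i, P i → ∀ y ∈ K i \ A i, ∃ l₀, ∃ e₀ : C.τ l₀ = i, (∃ x, C.q e₀ x = y) ∧
      (∀ l (e : C.τ l = i) x, C.q e x = y → l = l₀) ∧ ∀ k, ∀ x ∈ (CP (C.q e₀ ⁻¹' {y}) ∅).Z k,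
        ∃ a : ℂ, x - a • 1 ∈ (CP (C.q e₀ ⁻¹' {y}) ∅).B k) :
    (CPi P K A).QIa (CPi P' K' A') F 0 := by
  have hI : C.Inv (PAct.triv X) := ⟨fun h => congrArg C.τ h, fun h _ _ _ => by
    obtain rfl : _ = _ := h
    rfl, fun h => by
    obtain rfl : _ = _ := h
    exact one_mul _⟩
  have ha : (CPi P' K' A').Act (1 : Unit →* Module.End ℂ (∀ l, AS (X l))) :=
    ⟨fun _ _ => rfl, fun _ _ _ h => h, fun _ _ h => h⟩
  have key := hI.desc hP hK hA hK' hA' (fun i hi y hy => by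
    obtain ⟨l₀, e₀, h1, h2, h3⟩ := hf i hi y hy
    exact hI.fib_all e₀ h1 (fun l e x hx => ⟨(), h2 l e x hx⟩) fun k x hx _ => h3 k x hx) ha
  have e : ha.inv = CPi P' K' A' := Cx.ext_YA2 rfl (funext fun n =>
    inf_eq_left.2 fun x _ => mem_Fix.2 fun _ => rfl) rfl
  rwa [e] at key

/-- a family that is bijective over `K ∖ A` -/
theorem Cov.part [Finite ι] [Finite Λ] (C : Cov F) {P : ι → Prop} {P' : Λ → Prop}
    (hP : ∀ l, P' l ↔ P (C.τ l)) {K A : ∀ i, Set (Y i)} (hK : ∀ i, IsClosed (K i))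
    (hA : ∀ i, IsClosed (A i)) {K' A' : ∀ l, Set (X l)} (hK' : ∀ l, K' l = C.q rfl ⁻¹' K (C.τ l))
    (hA' : ∀ l, A' l = C.q rfl ⁻¹' A (C.τ l))
    (hf : ∀ i, P i → ∀ y ∈ K i \ A i, ∃ l₀, ∃ e₀ : C.τ l₀ = i, (∃! x, C.q e₀ x = y) ∧
      ∀ l (e : C.τ l = i) x, C.q e x = y → l = l₀) : (CPi P K A).QIa (CPi P' K' A') F 0 :=
  C.vb hP hK hA hK' hA' fun i hi y hy => by
    obtain ⟨l₀, e₀, ⟨x, h1, h2⟩, h3⟩ := hf i hi y hy
    have e : C.q e₀ ⁻¹' {y} = {x} := Set.ext fun u => ⟨h2 u, fun hu => by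
      rw [mem_singleton_iff.1 hu]; exact h1⟩
    exact ⟨l₀, e₀, ⟨x, h1⟩, h3, fun k u hu => by
      rw [e] at hu ⊢
      exact ⟨_, AS.stalk_B hu⟩⟩

end cov

namespace Dg
variable {S S' : Sh} {P : Dg S} {Q : Dg S'} {Γ : Type} [Group Γ]

theorem col_eq (K A : P.Fam) (p : ℕ) : (bc K A).col p = CPi (fun i => S.deg i = p) K.A A.A :=
  Cx.ext_YA2 rfl (funext fun _ => Submodule.ext fun _ => mem_col_G) rfl

theorem Act.r_inv (G : Act P Γ) (g : Γ) (c : P.T) {i j : S.ι} (e : G.a g i = j) :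
    G.r g⁻¹ c i = ((G.s g i : ℤ) : ℂ) • AS.pull (G.t g e) (c j) := by
  obtain ⟨g, rfl⟩ := inv_surjective g
  rw [inv_inv]
  exact G.r_apply g c e

/-- the action as an action on a product -/
def Act.pact (G : Act P Γ) : PAct G.r where
  R g i j := G.a g i = j
  a e := G.t _ e
  s g i := ((G.s g i : ℤ) : ℂ)
  ex _ _ := ⟨_, rfl⟩
  eq e c := G.r_inv _ c e

theorem Act.col_act (G : Act P Γ) {K A : P.Fam} (iK : G.Inv K) (iA : G.Inv A) (p : ℕ) :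
    (CPi (fun i => S.deg i = p) K.A A.A).Act G.r := col_eq K A p ▸ (G.act iK iA).col p

theorem Act.col_eq (G : Act P Γ) {K A : P.Fam} (iK : G.Inv K) (iA : G.Inv A) (p : ℕ) :
    (G.bc iK iA).col p = (G.col_act iK iA p).inv :=
  (Bc.Act.inv_col _ p).trans (Cx.Act.inv_congr (Dg.col_eq K A p) _ _)

theorem Act.sc_inv_cx [Fintype Γ] (G : Act P Γ) {B : Type} [TopologicalSpace B] [T2Space B]
    (O : Ov P B) (h : ∀ g {i j} (e : G.a g i = j) x, O.π j (G.t g e x) = O.π i x) (V W : Set B) :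
    (G.sc_act O h Fam.cl_top Fam.cl_bot G.inv_top G.inv_bot).inv.cx V W =
      (G.bc (G.inv_fam O h V) (G.inv_fam O h W)).cx :=
  (SC.Act.inv_cx _ V W).trans ((Cx.Act.inv_congr (O.sc_cx V W) _ _).trans (Bc.Act.inv_cx _).symm)

section hom
variable {φ : ShH S S'} (F : Hom φ P Q) {τ : S.ι → S'.ι} (hμ : ∀ l i, φ.μ l i ≠ 0 ↔ τ l = i)

/-- a map of diagrams whose matrix has one entry in every row -/
def Hom.cov : Cov F.map where
  τ := τ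
  q e := F.g (φ.sup _ _ ((hμ _ _).2 e)).1
  μ l := φ.μ l (τ l)
  ne l := Int.cast_ne_zero.2 ((hμ _ _).2 rfl)
  eq {l i} e c := by
    subst e
    refine (mat_apply _ _ c l).trans ((Finset.sum_eq_single (τ l) (fun j _ hj => ?_)
      fun h => (h (Finset.mem_univ _)).elim).trans (dif_pos (φ.sup _ _ ((hμ _ _).2 rfl)).1))
    have h0 : φ.μ l j = 0 := by
      by_contra h
      exact hj ((hμ _ _).1 h).symm
    split_ifs
    · rw [h0, Int.cast_zero, zero_smul]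
    · rfl

/-- the family `K'` is the preimage of the family `K` -/
def Hom.Pre (τ : S.ι → S'.ι) (K' : P.Fam) (K : Q.Fam) : Prop :=
  ∀ {l i} (h : φ.R l i), τ l = i → K'.A l = F.g h ⁻¹' K.A i

theorem Hom.pre_fam {B : Type} [TopologicalSpace B] (O : Ov P B) (O' : Ov Q B)
    (h : ∀ {l i} (h : φ.R l i) x, O'.π i (F.g h x) = O.π l x) (V : Set B) :
    F.Pre τ (O.fam V) (O'.fam V) := fun e _ => Set.ext fun x => by
  show O.π _ x ∈ V ↔ O'.π _ (F.g e x) ∈ V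
  rw [h]

theorem Hom.pre_top : F.Pre τ ⊤ ⊤ := fun _ _ => rfl

theorem Hom.pre_bot : F.Pre τ ⊥ ⊥ := fun _ _ => rfl

variable {F} {K A : Q.Fam} {K' A' : P.Fam}
include hμ

theorem Hom.pre_mor (hK' : F.Pre τ K' K) (hA' : F.Pre τ A' A) :
    (bc K A).Mor (bc K' A') F.map 0 :=
  F.sys.mor A'.stab K'.stab A.stab K.stab
    (fun h e _ hx => zz_pull (F.g h) (hA' h ((hμ _ _).1 e)).subset hx)
    fun h e _ _ hx => zz_pull (F.g h) (hK' h ((hμ _ _).1 e)).subset hx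

/-- a map of diagrams that is bijective over `K ∖ A`, column by column -/
theorem Hom.part_col (hK : K.Cl) (hA : A.Cl) (hK' : F.Pre τ K' K) (hA' : F.Pre τ A' A)
    (hf : ∀ i, ∀ y ∈ K.A i \ A.A i, ∃ l₀, ∃ h₀ : φ.R l₀ i, τ l₀ = i ∧ (∃! x, F.g h₀ x = y) ∧
      ∀ l (h : φ.R l i) x, τ l = i → F.g h x = y → l = l₀) (p : ℕ) :
    ((bc K A).col p).QIa ((bc K' A').col p) F.map 0 := by
  rw [col_eq, col_eq]
  refine (F.cov hμ).part (fun l => by rw [(φ.sup _ _ ((hμ l _).2 rfl)).2]; rfl) hK hA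
    (fun l => hK' _ rfl) (fun l => hA' _ rfl) fun i _ y hy => ?_
  obtain ⟨l₀, h₀, e₀, h1, h2⟩ := hf i y hy
  exact ⟨l₀, e₀, h1, fun l e x hx => h2 l _ x e hx⟩

theorem Hom.part (hK : K.Cl) (hA : A.Cl) (hK' : F.Pre τ K' K) (hA' : F.Pre τ A' A)
    (hf : ∀ i, ∀ y ∈ K.A i \ A.A i, ∃ l₀, ∃ h₀ : φ.R l₀ i, τ l₀ = i ∧ (∃! x, F.g h₀ x = y) ∧
      ∀ l (h : φ.R l i) x, τ l = i → F.g h x = y → l = l₀) :
    (bc K A).cx.QIa (bc K' A').cx F.map 0 :=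
  Bc.filta_cx (Hom.pre_mor hμ hK' hA') (Hom.part_col hμ hK hA hK' hA' hf)

omit hμ in
/-- the map of diagrams is invariant under the group -/
structure Hom.Inv (F : Hom φ P Q) (G : Act P Γ) : Prop where
  s : ∀ g l i, G.s g l * φ.μ (G.a g l) i = φ.μ l i
  t : ∀ g {l l' i} (e : G.a g l = l') (h : φ.R l i) (h' : φ.R l' i) x,
    F.g h' (G.t g e x) = F.g h x

variable {G : Act P Γ}

theorem Hom.Inv.cov (h : F.Inv G) : (F.cov hμ).Inv G.pact := by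
  have h1 : ∀ g l, τ l = τ (G.a g l) := fun g l => ((hμ _ _).1 fun e =>
    (hμ l _).2 rfl (by rw [← h.s g l, e, mul_zero])).symm
  refine ⟨fun e => e ▸ h1 _ _, fun e _ _ x => h.t _ e _ _ x, fun {g l l'} e => ?_⟩
  obtain rfl : G.a g l = l' := e
  show ((G.s g l : ℤ) : ℂ) * (φ.μ (G.a g l) (τ (G.a g l)) : ℂ) = φ.μ l (τ l)
  rw [← h1, ← h.s g l, Int.cast_mul]

theorem Hom.Inv.inv (h : F.Inv G) (hK' : F.Pre τ K' K) : G.Inv K' := fun g l l' e x hx => by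
  have h1 := (φ.sup _ _ ((hμ l _).2 rfl)).1
  have h2 : τ l' = τ l := ((h.cov hμ).τ (ρ := G.pact) e).symm
  have h3 := (φ.sup _ _ ((hμ l' _).2 h2)).1
  rw [hK' h1 rfl] at hx
  rw [hK' h3 h2, mem_preimage, h.t g e h1]
  exact hx

theorem Hom.Inv.mor (h : F.Inv G) (hK' : F.Pre τ K' K) (hA' : F.Pre τ A' A) (iK : G.Inv K')
    (iA : G.Inv A') : (bc K A).Mor (G.bc iK iA) F.map 0 := by
  have h0 := Hom.pre_mor hμ hK' hA'
  refine ⟨fun p n x hx => ?_, h0.fN, h0.fd, h0.fδ⟩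
  rw [Bc.Act.inv_col]
  exact ⟨h0.fG p n x hx, (h.cov hμ).fix x⟩

/-- The invariant cohomology of the fibre over `y` is that of a point. -/
abbrev Hom.Fib (F : Hom φ P Q) (G : Act P Γ) (i : S'.ι) (y : Q.X i) : Prop :=
  (F.cov hμ).Fib G.pact i y

theorem Hom.Inv.fib_all (h : F.Inv G) {i : S'.ι} {y : Q.X i} {l₀ : S.ι} (h₀ : φ.R l₀ i)
    (e₀ : τ l₀ = i) (h1 : ∃ x, F.g h₀ x = y)
    (h2 : ∀ l (h : φ.R l i) x, τ l = i → F.g h x = y → ∃ g, G.a g l = l₀)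
    (h3 : ∀ k, ∀ x ∈ (CP (F.g h₀ ⁻¹' {y}) ∅).Z k,
      (∀ g (e : G.a g l₀ = l₀), AS.pull (G.t g e) x = x) →
        ∃ a : ℂ, x - a • 1 ∈ (CP (F.g h₀ ⁻¹' {y}) ∅).B k) : F.Fib hμ G i y :=
  (h.cov hμ).fib_all e₀ h1 (fun l e x hx => h2 l _ x e hx) h3

theorem Hom.fib_pt {i : S'.ι} {y : Q.X i} {l₀ : S.ι} (h₀ : φ.R l₀ i) (e₀ : τ l₀ = i)
    (x₀ : P.X l₀) (h1 : F.g h₀ x₀ = y) (h2 : ∀ l (h : φ.R l i) x, τ l = i → F.g h x = y →
      ∃ g, ∃ e : G.a g l = l₀, G.t g e x = x₀) : F.Fib hμ G i y :=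
  Cov.fib_pt (C := F.cov hμ) e₀ x₀ h1 fun l e x hx => h2 l _ x e hx

theorem Hom.fib_emb {i : S'.ι} {y : Q.X i} {l₀ : S.ι} (h₀ : φ.R l₀ i) (e₀ : τ l₀ = i) {Z : Type}
    [TopologicalSpace Z] [CompactSpace Z] [T2Space Z] [Nonempty Z] (ξ : C(Z, P.X l₀))
    (hξ : Function.Injective ξ) (h1 : ∀ z, F.g h₀ (ξ z) = y)
    (h2 : ∀ l (h : φ.R l i) x, τ l = i → F.g h x = y →
      ∃ g, ∃ e : G.a g l = l₀, ∃ z, ξ z = G.t g e x)
    (h3 : ∀ g (e : G.a g l₀ = l₀),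
      (∀ z, ∃ z', ξ z' = G.t g e (ξ z)) ∨ ∀ z z', ξ z' ≠ G.t g e (ξ z))
    (h4 : ∀ k, ∀ x ∈ (CC Z).Z k, (∀ g (e : G.a g l₀ = l₀) (u : Z → Z),
      (∀ z, ξ (u z) = G.t g e (ξ z)) → AS.pull u x = x) → ∃ a : ℂ, x - a • 1 ∈ (CC Z).B k) :
    F.Fib hμ G i y :=
  Cov.fib_emb (C := F.cov hμ) e₀ ξ hξ h1 (fun l e x hx => h2 l _ x e hx) h3 h4

variable [Fintype Γ]

/-- DESC, column by column -/
theorem Hom.Inv.desc_col (h : F.Inv G) (hK : K.Cl) (hA : A.Cl) (hK' : F.Pre τ K' K)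
    (hA' : F.Pre τ A' A) (iK : G.Inv K') (iA : G.Inv A')
    (hf : ∀ i, ∀ y ∈ K.A i \ A.A i, F.Fib hμ G i y) (p : ℕ) :
    ((bc K A).col p).QIa ((G.bc iK iA).col p) F.map 0 := by
  rw [col_eq, G.col_eq]
  exact (h.cov hμ).desc (fun l => by rw [(φ.sup _ _ ((hμ l _).2 rfl)).2]; rfl) hK hA
    (fun l => hK' _ rfl) (fun l => hA' _ rfl) (fun i _ => hf i) _

/-- DESC -/
theorem Hom.Inv.desc (h : F.Inv G) (hK : K.Cl) (hA : A.Cl) (hK' : F.Pre τ K' K)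
    (hA' : F.Pre τ A' A) (iK : G.Inv K') (iA : G.Inv A')
    (hf : ∀ i, ∀ y ∈ K.A i \ A.A i, F.Fib hμ G i y) : (bc K A).cx.QIa (G.bc iK iA).cx F.map 0 :=
  Bc.filta_cx (h.mor hμ hK' hA' iK iA) (h.desc_col hμ hK hA hK' hA' iK iA hf)

/-- DESC over a base -/
theorem Hom.Inv.desc_sc (h : F.Inv G) {B : Type} [TopologicalSpace B] [T2Space B] (O : Ov P B)
    (O' : Ov Q B) (hO : ∀ {l i} (h : φ.R l i) x, O'.π i (F.g h x) = O.π l x)
    (hG : ∀ g {i j} (e : G.a g i = j) x, O.π j (G.t g e x) = O.π i x) {V W : Set B}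
    (hV : IsClosed V) (hW : IsClosed W)
    (hf : ∀ i y, O'.π i y ∈ V \ W → F.Fib hμ G i y) :
    (O'.sc.cx V W).QIa ((G.sc_act O hG Fam.cl_top Fam.cl_bot G.inv_top G.inv_bot).inv.cx V W)
      F.map 0 := by
  rw [G.sc_inv_cx O hG, O'.sc_cx]
  exact h.desc hμ (O'.fam_cl hV) (O'.fam_cl hW) (F.pre_fam O O' hO V) (F.pre_fam O O' hO W) _ _ hf

end hom

section diag
variable {P' : Dg S} {g : ∀ i, C(P.X i, P'.X i)} {L M : P'.Fam}

/-- EXC for diagrams, column by column -/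
theorem Com.exc_col (hg : Com g) (hL : L.Cl) (hM : M.Cl)
    (h : ∀ i, ∀ t ∈ L.A i \ M.A i, ∃! y, g i y = t) (p : ℕ) :
    ((bc L M).col p).QIa ((bc (hg.comap L) (hg.comap M)).col p) (dpl g) 0 := fun n =>
  dpl_col_qi p fun i _ => exc_YO (g i) (hL i) (hM i) (h i) n

/-- EXC for diagrams -/
theorem Com.exc (hg : Com g) (hL : L.Cl) (hM : M.Cl)
    (h : ∀ i, ∀ t ∈ L.A i \ M.A i, ∃! y, g i y = t) :
    (bc L M).cx.QIa (bc (hg.comap L) (hg.comap M)).cx (dpl g) 0 :=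
  Bc.filta_cx (hg.mor (fun _ _ hx => hx) fun _ _ hx => hx) (hg.exc_col hL hM h)

/-- the trace of a family on the restriction -/
abbrev Fam.on (L K : P.Fam) (hK : K.Cl) : (res K hK).Fam := Com.comap (g := inc K hK) (inc_com K hK) L

/-- TAUT for diagrams, column by column -/
theorem taut_col {K L M : P.Fam} (hK : K.Cl) (hL : L.Cl) (hM : M.Cl) (h : ∀ i, L.A i ⊆ K.A i)
    (p : ℕ) : ((bc L M).col p).QIa ((bc (L.on K hK) (M.on K hK)).col p) (dpl (inc K hK)) 0 :=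
  Com.exc_col (g := inc K hK) (inc_com K hK) hL hM
    (fun i t ht => ⟨⟨t, h i ht.1⟩, rfl, fun _ e => Subtype.ext e⟩) p

theorem Fam.on_self (K : P.Fam) (hK : K.Cl) : K.on K hK = ⊤ :=
  Fam.ext (funext fun _ => eq_univ_of_forall fun x => x.2)

theorem taut_mor {K : P.Fam} (hK : K.Cl) (L M : P.Fam) :
    (bc L M).Mor (bc (L.on K hK) (M.on K hK)) (dpl (inc K hK)) 0 :=
  Com.mor (g := inc K hK) (inc_com K hK) (fun _ _ hx => hx) fun _ _ hx => hx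

/-- TAUT for diagrams -/
theorem taut {K M : P.Fam} (hK : K.Cl) (hM : M.Cl) :
    (bc K M).cx.QIa (bc ⊤ (M.on K hK)).cx (dpl (inc K hK)) 0 := by
  rw [← K.on_self hK]
  exact Bc.filta_cx (taut_mor hK K M) (taut_col hK hK hM fun _ => Subset.rfl)

end diag

end Dg

end Pool.Agent.CS
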