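import Pool.Agent.P.MP_d34769_ag.YHC2
import Pool.Agent.P.MP_d34769_ag.YO3
import Pool.Agent.P.MP_d34769_ag.YK1

/-! Fundamental sets of one-column diagrams, shapes of words. -/

open Set

set_option linter.unusedSectionVars false

noncomputable section
namespace Pool.Agent.CS
open Pool.Agent.P.MP_d34769_ag

variable {Γ F I : Type} [Group Γ] [Fintype Γ] [TopologicalSpace F] [CompactSpace F] [T2Space F]
  [Fintype I] [DecidableEq I] {S S' : Sh}

namespace Dg
variable {P : Dg S} {Q : Dg S'} {φ : ShH S S'} {τ : S.ι → S'.ι}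

theorem Hom.map_gr (f : Hom φ P Q) (hμ : ∀ l i, φ.μ l i ≠ 0 ↔ τ l = i) (c : Q.T) {l : S.ι}
    {i : S'.ι} (e : τ l = i) (r : φ.R l i) :
    f.map c l = (φ.μ l i : ℂ) • AS.pull (f.g r) (c i) := by
  subst e
  exact (f.cov hμ).eq (l := l) rfl c

/-- restriction to a fundamental set is injective on invariant cohomology -/
theorem Act.orb_inj {ι : Type} [Fintype ι] {p : ℕ} {P : Dg (Sh.one ι p)} (G : Act P Γ) {K : P.Fam}
    (iK : G.Inv K) {l₀ : (Sh.one ι p).ι} (ξ : C(F, P.X l₀)) (hξ : Function.Injective ξ)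
    [Nonempty F] (hm : ∀ x, ξ x ∈ K.A l₀)
    (cov : ∀ l, ∀ z ∈ K.A l, ∃ g, ∃ e : G.a g l = l₀, G.t g e z ∈ range ξ)
    (dis : ∀ g (e : G.a g l₀ = l₀) x, G.t g e (ξ x) ∈ range ξ → ∀ y, G.t g e (ξ y) ∈ range ξ)
    (n : ℤ) : (G.bc iK G.inv_bot).cx.Inj (CC F)
      (AS.pl ξ ∘ₗ LinearMap.proj (φ := fun i => AS (P.X i)) l₀) (-p) n := by
  have hF : G.pact.Fund (fun i => (Sh.one ι p).deg i = p) K.A (range ξ) :=
    ⟨rfl, (isCompact_range ξ.continuous).isClosed, range_nonempty _, range_subset_iff.2 hm,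
      fun l _ => cov l, fun g e => (em (∃ x, G.t g e (ξ x) ∈ range ξ)).imp
        (fun ⟨x, hx⟩ => forall_mem_range.2 (dis g e x hx))
        fun h => forall_mem_range.2 fun x hx => h ⟨x, hx⟩⟩
  rw [Bc.Act.inv_cx]
  intro c hc hb
  have h1 := one_mem_Z.1 (⟨hc.1.1, hc.2⟩ : c ∈ (Dg.bc K ⊥).cx.Z n)
  refine (G.act iK G.inv_bot).cx.inj n c hc (one_mem_B.2 fun i => ?_)
  rw [add_zero]
  refine CPi.B_comp (Cx.Act.ya3_le _ (hF.inj (G.col_act iK G.inv_bot p)
    ⟨fun i => ⟨fun _ => (h1 i).1, fun h => (h rfl).elim⟩, hc.1.2⟩ ((taut_YO ξ hξ).inj _ _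
      ⟨(h1 l₀).1, SC.zz_anti hF.sub (h1 l₀).2⟩ ?_))) i
  rw [add_zero, sub_eq_add_neg]
  exact hb

end Dg

/-- the indices of `S` give words, and the differential is the coboundary of words -/
structure Wd (S : Sh) (u : S.ι → List (Finset I)) : Prop where
  part : ∀ l, Part (u l)
  deg : ∀ l, S.deg l = (u l).length - 1
  rel : ∀ {l l'}, S.rel l l' → ∀ i j, Ord (u l) i j → Ord (u l') i j
  cob : ∀ l (ψ : List (Finset I) → ℤ), cob (u l) ψ = ∑ l', S.ε l l' * ψ (u l')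

variable {u : S.ι → List (Finset I)}

/-- the map from words to sets of ranks -/
def Wd.sh (h : Wd S u) : ShH S (Sh.simp (Fin (Fintype.card I))) where
  R l R := R ⊆ rks (u l)
  μ l R := if rks (u l) = R then 1 else 0
  sup l R e := by
    obtain rfl : rks (u l) = R := by_contra fun c => e (if_neg c)
    exact ⟨Finset.Subset.refl _, (h.deg l).trans (rks_card (h.part l)).symm⟩
  l r e := e.trans (rks_anti (h.rel r))
  r e r := Finset.Subset.trans r e
  comm l R := (h.cob l fun w => if rks w = R then 1 else 0).symm.trans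
    ((cob_rks (h.part l) fun R' => if R' = R then (1 : ℤ) else 0).trans (by simp))

theorem Wd.mu (h : Wd S u) (l : S.ι) (R : (Sh.simp (Fin (Fintype.card I))).ι) :
    h.sh.μ l R ≠ 0 ↔ rks (u l) = R := by
  change (if _ then (1 : ℤ) else 0) ≠ 0 ↔ _
  split_ifs with e <;> simp [e]

theorem Wd.map (h : Wd S u) {P : Dg S} {Q : Dg (Sh.simp (Fin (Fintype.card I)))}
    (f : Dg.Hom h.sh P Q) (c : Q.T) (l : S.ι) (r : h.sh.R l (rks (u l))) :
    f.map c l = AS.pull (f.g r) (c (rks (u l))) := by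
  rw [f.map_gr h.mu c rfl r]
  change (((if _ then (1 : ℤ) else 0 : ℤ)) : ℂ) • _ = _
  rw [if_pos rfl, Int.cast_one, one_smul]

theorem wd_cox {K : Type} [Fintype K] [DecidableEq K] {s : I → K} (hs : Function.Surjective s) :
    Wd (coxSh K) fun π => π.1.map (pre s) :=
  ⟨fun π => π.2.pre hs, fun _ => congrArg (· - 1) (List.length_map _).symm,
    fun r _ _ e => ord_pre.2 (r _ _ (ord_pre.1 e)), fun π ψ => (cob_map _ (pre_union s) π.1 ψ).trans
      (@yhc2_cob K _ _ ℤ _ (_) π.1 π.2 fun w => ψ (w.map (pre s)))⟩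

end Pool.Agent.CS
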