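import Pool.Agent.P.MP_d34769_ag.YHC2
import Pool.Agent.P.MP_d34769_ag.YHB2
import Pool.Agent.P.MP_d34769_ag.YE5b

/-! The one-column diagram of products of `k` spaces of framed representations. -/

open Set

set_option linter.unusedSectionVars false

noncomputable section
namespace Pool.Agent.CS
open Pool.Agent.P.MP_d34769_ag

variable {I : Type} [Fintype I] [DecidableEq I] {col : I → Fin 3} {th : Fin 3 → ℤ} {k m : ℕ}

variable (col th k) in
/-- ordered partitions into `k` nonempty slots of weight zero -/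
def Sl : Type :=
  {s : I → Fin k // Function.Surjective s ∧ ∀ a, ∑ j with s j = a, th (col j) = 0}

instance : Fintype (Sl col th k) := by
  unfold Sl
  exact Fintype.ofFinite _

theorem flatten_sing {α : Type} (l : List α) : (l.map fun b => [b]).flatten = l := by
  induction l with
  | nil => rfl
  | cons a l ih => simp only [List.map_cons, List.flatten_cons, ih, List.singleton_append]

/-- the list of one-letter words of a slot function -/
def Sl.wx (s : Sl col th k) : Wx col th k :=
  ⟨(fib s.1).map fun b => [b],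
    ⟨by rw [flatten_sing]; exact fib_part s.2.1,
      fun u hu => by
        obtain ⟨b, -, rfl⟩ := List.mem_map.1 hu
        exact List.cons_ne_nil _ _,
      fun b hb => by
        rw [flatten_sing] at hb
        obtain ⟨a, rfl⟩ := List.mem_ofFn.1 hb
        exact s.2.2 a⟩,
    by simp [fib]⟩

theorem Sl.wx_val (s : Sl col th k) : s.wx.1 = (fib s.1).map fun b => [b] := rfl

theorem Sl.flatten (s : Sl col th k) : s.wx.1.flatten = fib s.1 := flatten_sing _

theorem Sl.deg (s : Sl col th k) : (shT col th k).deg s.wx = k - 1 := by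
  change s.wx.1.flatten.length - 1 = _
  rw [s.flatten, fib, List.length_ofFn]

theorem Sl.ordM (s : Sl col th k) {i j : I} : OrdM s.wx.1 i j ↔ s.1 i = s.1 j := by
  constructor
  · rintro ⟨u, hu, e⟩
    obtain ⟨b, hb, rfl⟩ := List.mem_map.1 hu
    obtain ⟨a, rfl⟩ := List.mem_ofFn.1 hb
    obtain ⟨⟨c, hc, hi⟩, d, hd, hj⟩ := e.mem
    rw [List.mem_singleton] at hc hd
    subst hc hd
    exact (Finset.mem_filter.1 hi).2.trans (Finset.mem_filter.1 hj).2.symm
  · intro e
    refine ⟨[Finset.univ.filter fun x => s.1 x = s.1 j],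
      List.mem_map.2 ⟨_, List.mem_ofFn.2 ⟨s.1 j, rfl⟩, rfl⟩, _, _, ?_, ?_,
      Or.inl ⟨rfl, List.mem_singleton.2 rfl⟩⟩ <;> simp [e]

theorem Sl.gl_iff (s : Sl col th k) {i j : I} : (s.wx.dat m).gl i j ↔ s.1 i = s.1 j := s.ordM

theorem Sl.rl_iff (s : Sl col th k) {i j : I} : (s.wx.dat m).rl i j ↔ s.1 i = s.1 j := s.ordM

theorem Sl.cp_iff (s : Sl col th k) {i j : I} : (s.wx.dat m).cp i j ↔ s.1 i = s.1 j := by
  refine ⟨?_, fun e => (s.wx.dat m).rl_cp (s.rl_iff.2 e)⟩
  rintro ⟨u, hu, c, hc, d, hd, hi, hj⟩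
  obtain ⟨b, hb, rfl⟩ := List.mem_map.1 hu
  obtain ⟨a, rfl⟩ := List.mem_ofFn.1 hb
  rw [List.mem_singleton] at hc hd
  subst hc hd
  exact (Finset.mem_filter.1 hi).2.trans (Finset.mem_filter.1 hj).2.symm

theorem yhc5_slot : ∀ {k : ℕ} (f : Fin k → Finset I) (i : I) (a : Fin k),
    (∀ b, i ∈ f b ↔ b = a) → slot ((List.ofFn f).map fun b => [b]) i = a
  | 0, _, _, a, _ => a.elim0
  | k + 1, f, i, a, h => by
    have e : Has [f 0] i ↔ 0 = a := by
      rw [← h]
      exact ⟨fun ⟨b, hb, hi⟩ => List.mem_singleton.1 hb ▸ hi,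
        fun hi => ⟨_, List.mem_singleton.2 rfl, hi⟩⟩
    rw [List.ofFn_succ, List.map_cons, slot, e]
    induction a using Fin.cases with
    | zero => exact if_pos rfl
    | succ a =>
      rw [if_neg (Fin.succ_ne_zero a).symm,
        yhc5_slot (fun b => f b.succ) i a fun b => (h _).trans Fin.succ_inj, Fin.val_succ]

theorem Sl.slot (s : Sl col th k) (i : I) : slot s.wx.1 i = s.1 i :=
  yhc5_slot _ i _ fun _ => (Finset.mem_filter_univ i).trans eq_comm

theorem Sl.wx_inj : Function.Injective (Sl.wx : Sl col th k → Wx col th k) := fun s s' e =>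
  Subtype.ext (funext fun i => Fin.ext (by rw [← s.slot, ← s'.slot, e]))

theorem yhc5_len {α : Type} : ∀ L : List (List α), (∀ u ∈ L, u ≠ []) → L.length ≤ L.flatten.length
  | [], _ => Nat.zero_le _
  | u :: L, h => by
    have h1 := yhc5_len L fun v hv => h v (List.mem_cons_of_mem _ hv)
    have h2 := List.length_pos_iff.2 (h u List.mem_cons_self)
    rw [List.flatten_cons, List.length_append, List.length_cons]
    omega

theorem yhc5_sing {α : Type} : ∀ L : List (List α), (∀ u ∈ L, u ≠ []) →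
    L.flatten.length ≤ L.length → (L.flatten.map fun b => [b]) = L
  | [], _, _ => rfl
  | u :: L, h, e => by
    have h0 := fun v hv => h v (List.mem_cons_of_mem _ hv)
    have h1 := yhc5_len L h0
    have h2 := List.length_pos_iff.2 (h u List.mem_cons_self)
    rw [List.flatten_cons, List.length_append, List.length_cons] at e
    obtain ⟨b, rfl⟩ := List.length_eq_one_iff.1 (show u.length = 1 by omega)
    rw [List.flatten_cons, List.singleton_append, List.map_cons, yhc5_sing L h0 (by omega)]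

/-- the indices of the lowest degree are the slot functions -/
theorem Wx.exists_sl (L : Wx col th k) (h : L.1.flatten.length ≤ k) :
    ∃ s : Sl col th k, s.wx = L := by
  obtain ⟨L, hL, rfl⟩ := L
  have h1 := yhc5_sing L hL.ne h
  have h2 : L.flatten.length = L.length := le_antisymm h (yhc5_len L hL.ne)
  have key : ∀ {n : ℕ}, L.flatten.length = n →
      ∃ s : I → Fin n, Function.Surjective s ∧ fib s = L.flatten := by
    rintro _ rfl
    obtain ⟨s, hs, e, -⟩ := hL.part.exists_fib
    exact ⟨s, hs, e⟩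
  obtain ⟨s, hs, e⟩ := key h2
  refine ⟨⟨s, hs, fun a => hL.bal _ ?_⟩, Subtype.ext ?_⟩
  · rw [← e]
    exact List.mem_ofFn.2 ⟨a, rfl⟩
  · exact (congrArg (List.map fun b => [b]) e).trans h1

theorem Sl.toSlot (s : Sl col th k) {D : Dat I} (hc : D.col = col) (ht : D.th = th) :
    D.Slot s.1 := ⟨s.2.1, by rw [hc, ht]; exact s.2.2⟩

variable (col k) in
/-- relabelling of the basis and of the slots -/
abbrev Gm : Type := Wc col × Equiv.Perm (Fin k)

variable (col th k) in
/-- the action on slot functions -/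
def actS : Gm col k →* Equiv.Perm (Sl col th k) :=
  MonoidHom.toHomPerm
    { toFun := fun g s => ⟨fun i => g.2 (s.1 (g.1.1⁻¹ i)),
        g.2.surjective.comp (s.2.1.comp g.1.1⁻¹.surjective), fun a => by
          refine Eq.trans (Finset.sum_equiv g.1.1⁻¹ (fun i => ?_)
            fun i _ => congrArg th ((g.1⁻¹).2 i).symm) (s.2.2 (g.2⁻¹ a))
          simp only [Finset.mem_filter, Finset.mem_univ, true_and]
          exact (Equiv.eq_symm_apply g.2).symm⟩
      map_one' := funext fun _ => Subtype.ext rfl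
      map_mul' := fun _ _ => funext fun _ => Subtype.ext rfl }

theorem actS_val (g : Gm col k) (s : Sl col th k) (i : I) :
    (actS col th k g s).1 i = g.2 (s.1 (g.1.1⁻¹ i)) := rfl

theorem actS_eq {g : Gm col k} {s s' : Sl col th k} (e : actS col th k g s = s') (i : I) :
    s'.1 (g.1.1 i) = g.2 (s.1 i) := by
  rw [← e, actS_val]
  exact congrArg (fun x => g.2 (s.1 x)) (g.1.1.symm_apply_apply i)

theorem actS_iff {g : Gm col k} {s s' : Sl col th k} (e : actS col th k g s = s') {i j : I} :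
    s'.1 (g.1.1 i) = s'.1 (g.1.1 j) ↔ s.1 i = s.1 j := by
  rw [actS_eq e, actS_eq e, g.2.injective.eq_iff]

/-- the morphism of data along a relabelling -/
def morU (g : Gm col k) {s s' : Sl col th k} (e : actS col th k g s = s') (m : ℕ) :
    Dat.Mor (s.wx.dat m) (s'.wx.dat m) where
  w := g.1.1
  ι _ := Function.Embedding.refl _
  col := g.1.2
  th := rfl
  gp i j h := ⟨(g.1.2 i).trans (h.1.trans (g.1.2 j).symm),
    s'.gl_iff.2 ((actS_iff e).2 (s.gl_iff.1 h.2))⟩
  rl _ _ h := s'.rl_iff.2 ((actS_iff e).2 (s.rl_iff.1 h))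
  cp _ _ h := s'.cp_iff.2 ((actS_iff e).2 (s.cp_iff.1 h))
  ι_eq _ _ _ := rfl
  ι_ne _ _ h h' := absurd (s.cp_iff.2 ((actS_iff e).1 (s'.cp_iff.1 h'))) h

variable (col th k m) in
/-- the products of `k` spaces -/
def dgU : Dg (Sh.one (Sl col th k) (k - 1)) where
  X s := ((Sl.wx s).dat m).XS
  mp h := False.elim h
  comp h := False.elim h

variable (col th k m) in
/-- the action with the sign of the permutation of the slots -/
def actU : Dg.Act (dgU col th k m) (Gm col k) where
  a := actS col th k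
  s g _ := Equiv.Perm.sign g.2
  t g _ _ e := (morU g e m).mc
  deg _ _ := rfl
  ε _ _ _ := (mul_zero _).trans (zero_mul _).symm
  s_mul g g' _ := map_mul Equiv.Perm.sign g.2 g'.2
  t_one _ := mc_one _ (fun _ => rfl) fun _ _ => rfl
  t_mul _ _ _ _ _ _ _ _ := mc_tri _ _ _ (fun _ => rfl) fun _ _ => rfl
  t_mp _ _ _ _ _ h := False.elim h

theorem actU_t (g : Gm col k) {s s' : Sl col th k} (e : (actU col th k m).a g s = s') :
    (actU col th k m).t g e = (morU g e m).mc := rfl

theorem mem_fixU {c : (dgU col th k m).T} : c ∈ Fix (actU col th k m).r ↔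
    ∀ g {s s' : Sl col th k} (e : actS col th k g s = s'),
      c s = ((Equiv.Perm.sign g.2 : ℤ) : ℂ) • AS.pull (morU g e m).mc (c s') := Dg.Act.mem_fix _

variable (h0 : Adm col th [[Finset.univ]])

variable (k m) in
/-- the points with a filtration with `a` steps -/
def NU (a : ℕ) : (dgU col th k m).Fam where
  A s := {x | ∃ p hp, Dat.pt (D := (Sl.wx s).dat m) p hp = x ∧ ((top h0).dat m).N a p.1}
  mp h := False.elim h

theorem yhc5_P {g : Matrix I I ℂ} (h : ∀ i j, col i ≠ col j → g i j = 0) (hu : IsUnit g.det) :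
    g ∈ ((top h0).dat m).base.P :=
  ⟨fun i j e => h i j fun c => e ⟨c, [Finset.univ], List.mem_singleton.2 rfl, Finset.univ,
    List.mem_singleton.2 rfl, Finset.univ, List.mem_singleton.2 rfl, Finset.mem_univ i,
    Finset.mem_univ j⟩, hu⟩

theorem mem_NU {a : ℕ} {s : Sl col th k} {p : Pt I m} (hp : (s.wx.dat m).St p) :
    Dat.pt p hp ∈ (NU k m h0 a).A s ↔ ((top h0).dat m).N a p.1 := by
  refine ⟨?_, fun h => ⟨p, hp, rfl, h⟩⟩
  rintro ⟨q, hq, e, h⟩
  obtain ⟨g, hg, rfl⟩ := (Dat.pt_eq_iff hq hp).1 e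
  exact Dat.Iso.n ⟨g, yhc5_P h0 (fun i j c => hg.1 i j fun d => c d.1) hg.2, rfl⟩ h

theorem NU_cl (a : ℕ) : (NU k m h0 a).Cl := fun s => by
  obtain ⟨K, hK, hs, e⟩ := (s.wx.dat m).exists_cpt
  have h1 : IsCompact (K ∩ Prod.fst ⁻¹' {ρ | ((top h0).dat m).N a ρ}) :=
    hK.inter_right ((Dat.isClosed_n a).preimage continuous_fst)
  have h2 := (h1.image_of_continuousOn fun p hp =>
    (Dat.pt0_cont (hs p hp.1)).continuousWithinAt).isClosed.preimage
      (continuous_subtype_val (p := (· ∈ (s.wx.dat m).XS)))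
  refine (congrArg IsClosed (Set.ext fun x => ⟨fun hx => ?_, ?_⟩)).mpr h2
  · obtain ⟨q, hq, h⟩ := e.ge x.2
    have : Dat.pt q (hs q hq) = x := Subtype.ext h
    exact ⟨q, ⟨hq, (mem_NU h0 (hs q hq)).1 (this ▸ hx)⟩, h⟩
  · rintro ⟨q, hq, h⟩
    exact ⟨q, hs q hq.1, Subtype.ext h, hq.2⟩

open Matrix in
theorem NU_inv (a : ℕ) : (actU col th k m).Inv (NU k m h0 a) := by
  rintro g s s' e _ ⟨p, hp, rfl, h⟩
  have h1 : (1 : Matrix I I ℂ).submatrix id g.1.1 * (1 : Matrix I I ℂ).submatrix g.1.1 id = 1 := by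
    rw [submatrix_mul_equiv, Matrix.mul_one, submatrix_id_id]
  refine ⟨_, (morU g e m).st hp, ((morU g e m).mc_pt hp _).symm, Dat.Iso.n
    ⟨(1 : Matrix I I ℂ).submatrix id g.1.1, yhc5_P h0 (fun i j c => ?_)
      (isUnit_det_of_right_inverse h1), funext fun b => ?_⟩ h⟩
  · exact one_apply_ne fun d : i = g.1.1 j => c (d ▸ g.1.2 j)
  · change _ * p.1 b * _ = _
    rw [inv_eq_right_inv h1, one_submatrix_mul, mul_submatrix_one]
    rfl

theorem NU_top : NU k m h0 k = ⊤ :=
  Dg.Fam.ext (funext fun s => eq_univ_of_forall fun x => by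
    obtain ⟨p, hp, rfl⟩ := Dat.exists_pt (D := s.wx.dat m) x
    refine ⟨p, hp, rfl, s.1, s.toSlot rfl rfl, 1, Dat.one_mem_P _, ?_⟩
    rw [actR_one]
    exact fun a i j hn => hp.mem a i j fun h => hn (s.rl_iff.1 h.2.2).le)

variable (k m) in
/-- invariant cochains that vanish near the points with a longer filtration -/
abbrev bcU : Bc (dgU col th k m).T :=
  (actU col th k m).bc (actU col th k m).inv_top (NU_inv h0 (k + 1))

end Pool.Agent.CS
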