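import Pool.Agent.P.MP_d34769_ag.YHC1
import Pool.Agent.P.MP_d34769_ag.YK3
import Pool.Agent.P.MP_d34769_ag.YF6
import Pool.Agent.P.MP_d34769_ag.YE5b

/-! The poset of subrepresentations of weight zero over the space of framed representations. -/

open Set Matrix

set_option linter.unusedSectionVars false

noncomputable section
namespace Pool.Agent.CS

variable {I : Type} [Fintype I] [DecidableEq I]

namespace Dat
variable {D E : Dat I} {p q : Pt I D.m} {g : Matrix I I ℂ} {u v : List (Finset I)}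
  {R R' : Finset (Fin (Fintype.card I))}

/-- one component and no flag -/
def Top (D : Dat I) : Prop := ∀ i j, D.gl i j

theorem Top.cp (hD : D.Top) (i j : I) : D.cp i j := D.rl_cp (D.gl_rl (hD i j))

theorem Top.cc (hD : D.Top) {i j : I} : D.cc i j ↔ D.col i = D.col j :=
  ⟨And.left, fun h => ⟨h, hD.cp i j⟩⟩

theorem Top.mem_P (hD : D.Top) :
    g ∈ D.P ↔ (∀ i j, D.col i ≠ D.col j → g i j = 0) ∧ IsUnit g.det :=
  and_congr_left fun _ => forall₂_congr fun i j => imp_congr_left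
    (not_congr ⟨And.left, fun h => ⟨h, hD i j⟩⟩)

theorem Top.P_eq (hD : D.Top) : D.base.P = D.P := Set.ext fun _ =>
  (and_congr_left fun _ => forall₂_congr fun _ _ => imp_congr_left (not_congr hD.cc)).trans
    hD.mem_P.symm

theorem Top.R_eq (hD : D.Top) : D.base.R = D.R := Submodule.ext fun _ =>
  forall₃_congr fun _ i j => imp_congr_left (not_congr (and_congr_right fun _ =>
    and_congr_right fun _ => iff_of_true (hD.cp i j) (D.gl_rl (hD i j))))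

theorem Top.st (hD : D.Top) : D.base.St p ↔ D.St p :=
  ⟨fun h => st_base.2 ⟨hD.R_eq ▸ h.mem, h⟩, St.toBase⟩

variable (D) in
/-- points with a proper nonzero subrepresentation of weight zero -/
def QS : Set (D.XS × Matrix D.Mu D.Mu ℂ) :=
  {x | ∃ p hp U, D.A p.1 U ∧ U ≠ ⊥ ∧ U ≠ ⊤ ∧ x = (pt p hp, D.Nn p U)}

theorem yhc6_back (hg : IsUnit g.det) (U : Submodule ℂ (I → ℂ)) :
    (U.map g.mulVecLin).map g⁻¹.mulVecLin = U := by
  have h := mapinv_YE1 (isUnit_nonsing_inv_det g hg) U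
  rwa [nonsing_inv_nonsing_inv g hg] at h

theorem yhc6_nn (hg : g ∈ D.base.P) (p : Pt I D.m) (U : Submodule ℂ (I → ℂ)) :
    D.Nn (act g p) (U.map g.mulVecLin) = D.Nn p U := Nn_act hg p U

theorem yhc6_move (hg : g ∈ D.base.P) {U : Submodule ℂ (I → ℂ)} (h : D.A p.1 U) (h0 : U ≠ ⊥)
    (h1 : U ≠ ⊤) : D.A (act g p).1 (U.map g.mulVecLin) ∧ U.map g.mulVecLin ≠ ⊥ ∧
      U.map g.mulVecLin ≠ ⊤ := by
  refine ⟨(a_act hg).2 h, fun e => h0 ?_, fun e => h1 ?_⟩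
  · rw [← yhc6_back hg.2 U, e, Submodule.map_bot]
  · rw [← yhc6_back hg.2 U, e, maptop_YE1 (isUnit_nonsing_inv_det g hg.2)]

theorem yhc6_mem (hp : D.St p) {Q : Matrix D.Mu D.Mu ℂ} :
    (pt p hp, Q) ∈ D.QS ↔ ∃ U, D.A p.1 U ∧ U ≠ ⊥ ∧ U ≠ ⊤ ∧ Q = D.Nn p U := by
  refine ⟨?_, fun ⟨U, h, h0, h1, e⟩ => ⟨p, hp, U, h, h0, h1, by rw [e]⟩⟩
  rintro ⟨q, hq, U, h, h0, h1, e⟩
  obtain ⟨e1, rfl⟩ := Prod.mk.inj e
  obtain ⟨g, hg, rfl⟩ := (pt_eq_iff hq hp).1 e1.symm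
  obtain ⟨a, b, c⟩ := yhc6_move (D.P_le hg) h h0 h1
  exact ⟨_, a, b, c, (yhc6_nn (D.P_le hg) q U).symm⟩

theorem yhc6_K {k : Matrix I I ℂ} (hk : k ∈ unitaryGroup I ℂ) (h : ∀ i j, k i j ≠ 0 → D.cc i j) :
    k⁻¹ ∈ D.K := by
  rw [e6_inv hk]
  exact star_mem_K ⟨D.mem_base_Lie.2 fun i j c => by_contra fun e => c (h i j e), hk⟩

theorem QS_closed (hD : D.Top) : IsClosed D.QS := by
  obtain ⟨K, hK, hs, hX⟩ := D.exists_cpt
  let φ : Matrix I I ℂ × Pt I D.m → Pt I D.m := fun z =>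
    (fun a => z.1 * z.2.1 a * z.1ᴴ, z.1 * z.2.2)
  have cφ : Continuous φ := (continuous_pi fun a => (continuous_fst.matrix_mul
    ((continuous_apply a).comp continuous_snd.fst)).matrix_mul
      continuous_fst.matrix_conjTranspose).prodMk (continuous_fst.matrix_mul continuous_snd.snd)
  have eφ : ∀ k ∈ D.K, ∀ p, φ (k, p) = act k p := fun k hk p =>
    Prod.ext (actR_unitary hk.2 p.1).symm rfl
  let T : Finset I → Set (Pt I D.m) := fun F =>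
    φ '' (D.K ×ˢ K) ∩ {p | Tri (fun i j => j ∈ F → i ∈ F) p.1}
  have hT : ∀ F, IsCompact (T F) := fun F => ((D.isCompact_K.prod hK).image cφ).inter_right
    ((isClosed_tri _).preimage continuous_fst)
  have hst : ∀ F (y : T F), D.St y.1 := by
    rintro F ⟨_, ⟨⟨k, p⟩, hz, rfl⟩, -⟩
    change D.St (φ (k, p))
    rw [eφ k hz.1]
    exact (hs p hz.2).act (hD.P_eq ▸ D.K_le hz.1)
  have e : D.QS = ⋃ F ∈ {F : Finset I | D.wt D.th (sp (F : Set I)) = 0 ∧ sp (F : Set I) ≠ ⊥ ∧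
      sp (F : Set I) ≠ ⊤}, range fun y : T F => (pt y.1 (hst F y), D.Nn y.1 (sp (F : Set I))) := by
    refine Set.ext fun x => ⟨fun hx => ?_, fun hx => ?_⟩
    · obtain ⟨x, Q⟩ := x
      obtain ⟨p, hp, e⟩ : x.1 ∈ D.pt0 '' K := hX.ge x.2
      obtain rfl : pt p (hs p hp) = x := Subtype.ext e
      obtain ⟨U, h, h0, h1, rfl⟩ := (yhc6_mem (hs p hp)).1 hx
      obtain ⟨k, hk, hc, F, rfl⟩ := e4_sub D.cc_eq h.1.gr
      have hk' := yhc6_K hk hc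
      obtain ⟨a, b, c⟩ := yhc6_move (D.K_le hk') h h0 h1
      have d := yhc6_nn (D.K_le hk') p ((sp (F : Set I)).map k.mulVecLin)
      rw [yhc6_back (e4_unit_det hk)] at a b c d
      refine mem_iUnion₂.2 ⟨F, ⟨a.2, b, c⟩, ⟨act k⁻¹ p, ⟨(k⁻¹, p), ⟨hk', hp⟩, eφ _ hk' p⟩,
        fun x i j n => sub_sp.1 a.1 x i j (fun m => n fun _ => m) (by_contra fun m =>
          n fun l => absurd l m)⟩, Prod.ext (Subtype.ext ?_) d⟩
      exact pt0_act (hD.P_eq ▸ D.K_le hk') p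
    · obtain ⟨F, hF, y, rfl⟩ := mem_iUnion₂.1 hx
      exact ⟨y.1, hst F y, _, ⟨sub_sp.2 fun a i j m l => y.2.2 a i j fun n => m (n l), hF.1⟩,
        hF.2.1, hF.2.2, rfl⟩
  rw [e]
  refine (Set.toFinite _).isClosed_biUnion fun F _ => ?_
  have : CompactSpace (T F) := isCompact_iff_compactSpace.1 (hT F)
  exact (isCompact_range ((cont_pt continuous_subtype_val (hst F)).prodMk
    ((Nn_cont _).comp_continuous continuous_subtype_val fun y => (hst F y).toBase))).isClosed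

theorem mem_QS (hp : D.St p) {Q : Matrix D.Mu D.Mu ℂ} :
    (pt p hp, Q) ∈ D.QS ↔ ∃ U, D.A p.1 U ∧ U ≠ ⊥ ∧ U ≠ ⊤ ∧ Q = D.Nn p U :=
  yhc6_mem hp

/-- the graded poset of these subrepresentations -/
def QP (hD : D.Top) : GP D.XS (Matrix D.Mu D.Mu ℂ) (Fintype.card I) :=
  GP.ofOP D.QS (QS_closed hD) _

theorem mem_QP (hD : D.Top) (hp : D.St p) {Q : Matrix D.Mu D.Mu ℂ} {r : Fin (Fintype.card I)} :
    (pt p hp, Q) ∈ (QP hD).Q r ↔
      ∃ U, D.A p.1 U ∧ U ≠ ⊥ ∧ U ≠ ⊤ ∧ Module.finrank ℂ U = r ∧ Q = D.Nn p U := by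
  constructor
  · rintro ⟨h, h'⟩
    obtain ⟨U, a, b, c, rfl⟩ := (mem_QS hp).1 h
    exact ⟨U, a, b, c, Nat.cast_injective (R := ℂ) ((Nn_op hp.toBase U).tr.symm.trans h'.tr), rfl⟩
  · rintro ⟨U, a, b, c, d, rfl⟩
    exact ⟨(mem_QS hp).2 ⟨U, a, b, c, rfl⟩, d ▸ Nn_op hp.toBase U⟩

theorem QP_cone (hD : D.Top) (hp : D.St p) (hn : ¬ D.Sem p.1) :
    ∃ s, (QP hD).Cone (pt p hp) s := by
  obtain ⟨s, a, b, c, d⟩ := exists_rad hp.ss hn
  refine ⟨_, GP.ofOP_cone (QS_closed hD) {U | D.A p.1 U ∧ U ≠ ⊥ ∧ U ≠ ⊤} (D.Nn p)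
    (fun Q => (mem_QS hp).trans ⟨fun ⟨U, x, y, z, e⟩ => ⟨U, ⟨x, y, z⟩, e.symm⟩,
      fun ⟨U, h, e⟩ => ⟨U, h.1, h.2.1, h.2.2, e.symm⟩⟩)
    (fun U h => ⟨_, ?_, Nn_op hp.toBase U⟩) (fun _ _ _ _ => Nn_le_iff hp.toBase) (s := s) ⟨a, b, c⟩
    fun U h => ⟨h.1.sup hp.ss a, fun e => b (le_bot_iff.1 (e ▸ le_sup_right)), d U h.1 h.2.2⟩⟩
  exact (Submodule.finrank_lt h.2.2).trans_eq (Module.finrank_fintype_fun_eq_card ℂ)

theorem Cm.a_dn (hu : D.Cm u) {ρ : Rp I} (ht : Tri (Ord u) ρ) {F : Finset I} (hF : Dn u F) :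
    D.A ρ (sp (F : Set I)) ∧ sp (F : Set I) ≠ ⊥ ∧ sp (F : Set I) ≠ ⊤ :=
  ⟨⟨sub_sp.2 fun a i j m l => ht a i j fun e => m (hF.dn i j e l),
      (wt_sp F).trans (hF.sum hu.1 _ hu.2)⟩,
    fun e => hF.ne (Finset.coe_eq_empty.1 (sp_inj.1 (e.trans sp_empty.symm))),
    fun e => hF.nu (Finset.coe_eq_univ.1 (sp_inj.1 (e.trans sp_univ.symm)))⟩

/-- the chain of the initial sets of a word -/
def chn (hD : D.Top) (hu : D.Cm u) (hp : D.St p) (ht : Tri (Ord u) p.1) (hR : R ⊆ rks u) :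
    (QP hD).Ch R :=
  ⟨(pt p hp, fun r => D.Nn p (sp (pf u ⟨r.1, hR r.2⟩ : Set I))),
    fun r => (mem_QP hD hp).2 ⟨_, (hu.a_dn ht (pf_dn _)).1, (hu.a_dn ht (pf_dn _)).2.1,
      (hu.a_dn ht (pf_dn _)).2.2, (finrank_sp _).trans (pf_card _), rfl⟩,
    fun r r' e => Nn_mul hp.toBase (Finset.coe_subset.2 ((pf_dn _).sub_of_card hu.1 (pf_dn _)
      (by rw [pf_card, pf_card]; exact e.le)))⟩

variable {hD : D.Top} {hu : D.Cm u} {hv : D.Cm v} {hp : D.St p} {hq : D.St q}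
  {ht : Tri (Ord u) p.1}

theorem chn_pr (hR : R ⊆ rks u) : (QP hD).pr R (chn hD hu hp ht hR) = pt p hp := rfl

theorem chn_el (hR : R ⊆ rks u) (r : R) {F : Finset I} (hF : Dn u F) (e : F.card = r.1) :
    (QP hD).el r (chn hD hu hp ht hR) = D.Nn p (sp (F : Set I)) := by
  rw [← pf_eq hu.1 ⟨r.1, hR r.2⟩ hF e]
  rfl

theorem chn_face (hR : R ⊆ rks u) (h : R' ⊆ R) :
    (QP hD).face h (chn hD hu hp ht hR) = chn hD hu hp ht (h.trans hR) := rfl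

/-- a chain over the point of `p` is a chain of subrepresentations -/
theorem exists_sub (y : (QP hD).Ch R) (h : (QP hD).pr R y = pt p hp) :
    ∃ U : R → Submodule ℂ (I → ℂ), (∀ r, D.A p.1 (U r) ∧ (QP hD).el r y = D.Nn p (U r)) ∧
      ∀ r r', U r ≤ U r' ∨ U r' ≤ U r := by
  choose U a _ _ _ e using fun r : R => (mem_QP hD hp).1 (h ▸ GP.el_mem y r)
  have key : ∀ r r' : R, r.1 ≤ r'.1 → U r ≤ U r' := fun r r' c => by
    have h1 : (QP hD).el r' y * (QP hD).el r y = (QP hD).el r y := GP.el_le y r r' c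
    rwa [e, e, Nn_le_iff hp.toBase] at h1
  exact ⟨U, fun r => ⟨a r, e r⟩, fun r r' => (le_total r.1 r'.1).imp (key r r') (key r' r)⟩

/-- a chain of coordinate subspaces is the chain of a word -/
theorem chn_of_sp (y : (QP hD).Ch R) (h : (QP hD).pr R y = pt p hp) (F : R → Finset I)
    (hF : ∀ r, (QP hD).el r y = D.Nn p (sp (F r : Set I))) :
    ∃ (u : List (Finset I)) (hu : D.Cm u) (ht : Tri (Ord u) p.1) (e : rks u = R),
      (∀ G, Dn u G ↔ ∃ r, G = F r) ∧ chn hD hu hp ht e.ge = y := by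
  have h1 : ∀ r : R, D.A p.1 (sp (F r : Set I)) ∧ sp (F r : Set I) ≠ ⊥ ∧ sp (F r : Set I) ≠ ⊤ ∧
      (F r).card = r.1 := fun r => by
    obtain ⟨U, a, b, c, d, e⟩ := (mem_QP hD hp).1 (h ▸ GP.el_mem y r)
    obtain rfl := Nn_inj hp.toBase ((hF r).symm.trans e)
    exact ⟨a, b, c, (finrank_sp _).symm.trans d⟩
  have key : ∀ r r' : R, r.1 ≤ r'.1 → F r ⊆ F r' := fun r r' c => by
    have h2 : (QP hD).el r' y * (QP hD).el r y = (QP hD).el r y := GP.el_le y r r' c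
    rwa [hF, hF, Nn_le_iff hp.toBase, sp_le_sp, Finset.coe_subset] at h2
  obtain ⟨u, hu, hd⟩ := exists_word (range F)
    (by
      rintro _ ⟨r, rfl⟩
      exact ⟨fun e => (h1 r).2.1 (by rw [e, Finset.coe_empty, sp_empty]),
        fun e => (h1 r).2.2.1 (by rw [e, Finset.coe_univ, sp_univ])⟩)
    (by
      rintro _ ⟨r, rfl⟩ _ ⟨r', rfl⟩
      exact (le_total r.1 r'.1).imp (key r r') (key r' r))
  have hc : D.Cm u := ⟨hu, hu.bal _ D.f1_sum_th fun G hG => by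
    obtain ⟨r, rfl⟩ := (hd G).1 hG
    exact (wt_sp _).symm.trans (h1 r).1.2⟩
  have ht : Tri (Ord u) p.1 := fun a i j n => by
    rw [ord_iff_dn hu] at n
    push Not at n
    obtain ⟨G, hG, l, m⟩ := n
    obtain ⟨r, rfl⟩ := (hd G).1 hG
    exact sub_sp.1 (h1 r).1.1 a i j m l
  have e : rks u = R := Finset.ext fun r => mem_rks.trans ⟨fun ⟨G, hG, c⟩ => by
      obtain ⟨r', rfl⟩ := (hd G).1 hG
      exact Fin.ext ((h1 r').2.2.2.symm.trans c) ▸ r'.2,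
    fun hr => ⟨F ⟨r, hr⟩, (hd _).2 ⟨_, rfl⟩, (h1 _).2.2.2⟩⟩
  exact ⟨u, hc, ht, e, fun G => (hd G).trans (exists_congr fun _ => eq_comm),
    GP.Ch.ext h.symm fun r => (chn_el e.ge r ((hd _).2 ⟨r, rfl⟩) (h1 r).2.2.2).trans (hF r).symm⟩

theorem exists_chn (y : (QP hD).Ch R) :
    ∃ (u : List (Finset I)) (hu : D.Cm u) (p : Pt I D.m) (hp : D.St p) (ht : Tri (Ord u) p.1)
      (e : rks u = R), chn hD hu hp ht e.ge = y := by
  obtain ⟨p, hp, h⟩ := exists_pt ((QP hD).pr R y)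
  obtain ⟨U, h1, h2⟩ := exists_sub y h.symm
  obtain ⟨k, hk, hc, F, -, hF⟩ := e4_chain D.cc_eq U h2 fun r => (h1 r).1.1.gr
  have hk' := D.K_le (yhc6_K hk hc)
  have hP : k⁻¹ ∈ D.P := hD.P_eq ▸ hk'
  obtain ⟨u, hu, ht, e, -, c⟩ := chn_of_sp (hp := hp.act hP) y
    (h.symm.trans (Subtype.ext (pt0_act hP p).symm)) F fun r => by
      rw [(h1 r).2, ← yhc6_nn hk' p (U r), hF r, yhc6_back (e4_unit_det hk)]
  exact ⟨u, hu, _, _, ht, e, c⟩

end Dat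

end Pool.Agent.CS
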