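import Pool.Agent.P.MP_d34769_ag.YHC6

/-! Equality of chains of initial sets, the chain map of a morphism of data. -/

open Set Matrix

set_option linter.unusedSectionVars false

noncomputable section
namespace Pool.Agent.CS

variable {I : Type} [Fintype I] [DecidableEq I]

namespace Dat
variable {D E : Dat I} {p q : Pt I D.m} {g : Matrix I I ℂ} {u v : List (Finset I)}
  {R R' : Finset (Fin (Fintype.card I))} {hD : D.Top} {hu : D.Cm u} {hv : D.Cm v} {hp : D.St p}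
  {hq : D.St q} {ht : Tri (Ord u) p.1}

theorem yhc6b_Nn (hg : g ∈ D.P) (hp : D.St p) {F F' : Finset I} (e : F.card = F'.card) :
    D.Nn p (sp (F : Set I)) = D.Nn (act g p) (sp (F' : Set I)) ↔
      ∀ i j, i ∉ F' → j ∈ F → g i j = 0 := by
  rw [← Nn_act (D.P_le hg) p, toLin'_apply']
  refine ⟨fun h => map_sp_le.1 (Nn_inj (hp.act hg).toBase h).le, fun h => congrArg _
    (Submodule.eq_of_le_of_finrank_eq (map_sp_le.2 h) ?_)⟩
  rw [e4_finrank_map hg.2, finrank_sp, finrank_sp, e]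

/-- the chain only depends on the initial sets with size in `R` -/
theorem chn_eq_iff {ht' : Tri (Ord v) q.1} (hR : R ⊆ rks u) (hR' : R ⊆ rks v) :
    chn hD hu hp ht hR = chn hD hv hq ht' hR' ↔ ∃ g ∈ D.P, q = act g p ∧
      ∀ F F', Dn u F → Dn v F' → F.card = F'.card → (∃ r ∈ R, F.card = r) →
        ∀ i j, i ∉ F' → j ∈ F → g i j = 0 := by
  constructor
  · intro h
    obtain ⟨g, hg, rfl⟩ := (pt_eq_iff hp hq).1 (congrArg ((QP hD).pr R) h)
    refine ⟨g, hg, rfl, fun F F' hF hF' e ⟨r, hr, e'⟩ => (yhc6b_Nn hg hp e).1 ?_⟩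
    exact (chn_el hR ⟨r, hr⟩ hF e').symm.trans ((congrArg ((QP hD).el ⟨r, hr⟩) h).trans
      (chn_el hR' ⟨r, hr⟩ hF' (e.symm.trans e')))
  · rintro ⟨g, hg, rfl, h⟩
    refine GP.Ch.ext ((pt_eq_iff hp hq).2 ⟨g, hg, rfl⟩) fun r => ?_
    have e := (pf_card (u := u) ⟨r.1, hR r.2⟩).trans (pf_card (u := v) ⟨r.1, hR' r.2⟩).symm
    exact (yhc6b_Nn hg hp e).2 (h _ _ (pf_dn _) (pf_dn _) e ⟨r.1, r.2, pf_card _⟩)

theorem chn_ref (h : ∀ i j, Ord u i j → Ord v i j) {ht' : Tri (Ord v) p.1} (hR : R ⊆ rks u)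
    (hR' : R ⊆ rks v) : chn hD hu hp ht hR = chn hD hv hp ht' hR' :=
  (chn_eq_iff hR hR').2 ⟨1, D.one_mem_P, (act_one p).symm, fun _ _ hF hF' e _ _ _ hi hj =>
    one_apply_ne fun c => hi (hF.eq_of_card hu.1 (hF'.anti h) e ▸ c ▸ hj)⟩

theorem chn_act (hg : g ∈ D.P) (h : ∀ i j, ¬ Ord u i j → g i j = 0) {hq : D.St (act g p)}
    {ht' : Tri (Ord u) (act g p).1} (hR : R ⊆ rks u) :
    chn hD hu hq ht' hR = chn hD hu hp ht hR :=
  ((chn_eq_iff hR hR).2 ⟨g, hg, rfl, fun _ _ hF hF' e _ i j hi hj =>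
    h i j fun c => hi (hF.eq_of_card hu.1 hF' e ▸ hF.dn i j c hj)⟩).symm

/-- the same word and all ranks: the group element is triangular -/
theorem chn_inj {ht' : Tri (Ord u) q.1} (e : rks u = R)
    (h : chn hD hu hp ht e.ge = chn hD hu hq ht' e.ge) :
    ∃ g ∈ D.P, q = act g p ∧ ∀ i j, ¬ Ord u i j → g i j = 0 := by
  obtain ⟨g, hg, e1, e2⟩ := (chn_eq_iff _ _).1 h
  refine ⟨g, hg, e1, fun i j c => by_contra fun c' => c ((ord_iff_dn hu.1).2 fun F hF hj => ?_)⟩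
  exact by_contra fun hi => c' (e2 F F hF hF rfl (e ▸ hF.mem_rks) i j hi hj)

/-- all ranks: the words differ by a permutation in the support of the group element -/
theorem chn_perm {ht' : Tri (Ord v) q.1} (e : rks u = R) (e' : rks v = R)
    (h : chn hD hu hp ht e.ge = chn hD hv hq ht' e'.ge) :
    ∃ w : Equiv.Perm I, (∀ i, D.col (w i) = D.col i) ∧ u = v.map (pre w) := by
  obtain ⟨g, hg, -, e2⟩ := (chn_eq_iff _ _).1 h
  obtain ⟨w, hw⟩ := exists_perm hg.2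
  refine ⟨w, fun i => by_contra fun c => hw i ((hD.mem_P.1 hg).1 _ _ c),
    hu.1.eq_pre hv.1 w (e.trans e'.symm) fun F F' hF hF' c i hi => by_contra fun c' => ?_⟩
  exact hw i (e2 F F' hF hF' c (e ▸ hF.mem_rks) _ _ c' hi)

theorem chn_cont {Y : Type} [TopologicalSpace Y] {f : Y → Pt I D.m} (hf : Continuous f)
    (h : ∀ y, D.St (f y)) (h' : ∀ y, Tri (Ord u) (f y).1) (hR : R ⊆ rks u) :
    Continuous fun y => chn hD hu (h y) (h' y) hR :=
  Continuous.subtype_mk ((cont_pt hf h).prodMk (continuous_pi fun _ =>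
    (Nn_cont _).comp_continuous hf fun y => (h y).toBase)) _

theorem Mor.tri (h : Mor E D) (hw : ∀ i, h.w i = i) (hE : ∀ i j, E.rl i j → Ord u i j)
    {p : Pt I E.m} (hp : p.1 ∈ E.R) : Tri (Ord u) (h.F p).1 := fun a i j c => by
  have := h.F_fst p a i j
  rw [hw, hw] at this
  rw [this]
  exact hp a i j fun c' => c (hE i j c'.2.2)

theorem yhc6b_tri (h : Mor E D) (hw : ∀ i, h.w i = i) (hE : ∀ i j, E.rl i j → Ord u i j)
    (hg : g ∈ E.P) (i j : I) (c : ¬ Ord u i j) : reindex h.w h.w g i j = 0 := by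
  have e : ∀ i, h.w.symm i = i := fun i => h.w.symm_apply_eq.2 (hw i).symm
  rw [reindex_apply, submatrix_apply, e, e]
  exact hg.1 i j fun c' => c (hE i j (E.gl_rl c'.2))

theorem exists_chm (hD : D.Top) (hu : D.Cm u) (h : Mor E D) (hw : ∀ i, h.w i = i)
    (hE : ∀ i j, E.rl i j → Ord u i j) (hR : R ⊆ rks u) : ∃ f : C(E.XS, (QP hD).Ch R),
      ∀ (p : Pt I E.m) (hp : E.St p),
        f (pt p hp) = chn hD hu (h.st hp) (h.tri hw hE hp.mem) hR := by
  refine ⟨⟨fun x => chn hD hu (h.st (sec_st x.2)) (h.tri hw hE (sec_st x.2).mem) hR,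
    Continuous.subtype_mk (Continuous.prodMk (h.mc.continuous.congr fun x => ?_)
      (continuous_pi fun r => ?_)) _⟩, fun p hp => ?_⟩
  · rw [← h.mc_pt (sec_st x.2), pt_sec]
  · refine desc_cont (f := fun p => D.Nn (h.F p) (sp (pf u ⟨r.1, hR r.2⟩ : Set I)))
      (fun p hp g hg => ?_)
      ((Nn_cont _).comp h.continuous_F.continuousOn fun p hp => (h.st hp).toBase)
    rw [h.F_act (E.Lie_le hg.1)]
    exact ((yhc6b_Nn (h.mem_P hg) (h.st hp) rfl).2 fun i j hi hj =>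
      yhc6b_tri h hw hE hg i j fun c => hi ((pf_dn _).dn i j c hj)).symm
  · obtain ⟨g, hg, e⟩ := sec_pt0 hp
    exact ((chn_eq_iff (hv := hu) (ht' := h.tri hw hE (sec_st (pt p hp).2).mem) hR hR).2
      ⟨_, h.mem_P hg, (congrArg h.F e).trans
      (h.F_act (E.Lie_le hg.1) p), fun _ _ hF hF' e _ i j hi hj => yhc6b_tri h hw hE hg i j
        fun c => hi (hF.eq_of_card hu.1 hF' e ▸ hF.dn i j c hj)⟩).symm

/-- the chain map along a morphism of data -/
def chm (hD : D.Top) (hu : D.Cm u) (h : Mor E D) (hw : ∀ i, h.w i = i)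
    (hE : ∀ i j, E.rl i j → Ord u i j) (hR : R ⊆ rks u) : C(E.XS, (QP hD).Ch R) :=
  (exists_chm hD hu h hw hE hR).choose

theorem chm_pt (h : Mor E D) (hw : ∀ i, h.w i = i) (hE : ∀ i j, E.rl i j → Ord u i j)
    (hR : R ⊆ rks u) {p : Pt I E.m} (hp : E.St p) :
    chm hD hu h hw hE hR (pt p hp) = chn hD hu (h.st hp) (h.tri hw hE hp.mem) hR :=
  (exists_chm hD hu h hw hE hR).choose_spec p hp

end Dat

end Pool.Agent.CS
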