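import Pool.Agent.P.MP_d34769_ag.YHC4
import Pool.Agent.P.MP_d34769_ag.YHC6b
import Pool.Agent.P.MP_d34769_ag.YHB2

/-! The invariant cobar diagram on one word is the diagram of chains of subrepresentations. -/

open Set Matrix

set_option linter.unusedSectionVars false

noncomputable section
namespace Pool.Agent.CS
open Pool.Agent.P.MP_d34769_ag

variable {I : Type} [Fintype I] [DecidableEq I]

section rl
variable {u v : List (Finset I)} {R : Finset (Fin (Fintype.card I))}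

theorem yhc7_pre (w : Equiv.Perm I) (hu : Part u) (hv : Part v)
    (h : ∀ i j, Ord v (w i) (w j) ↔ Ord u i j) : u = v.map (pre w) :=
  hu.ext (hv.pre w.surjective) fun i j => (h i j).symm.trans ord_pre.symm

theorem yhc7_congr {D : Dat I} {hD : D.Top} {hu : D.Cm u} {p q : Pt I D.m} {hp : D.St p}
    {hq : D.St q} {ht : Tri (Ord u) p.1} {ht' : Tri (Ord u) q.1} (e : p = q) (hR : R ⊆ rks u) :
    Dat.chn hD hu hp ht hR = Dat.chn hD hu hq ht' hR := by
  subst e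
  rfl

theorem rks_rl (w : Equiv.Perm I) (hu : Part u) (hv : Part v)
    (h : ∀ i j, Ord v (w i) (w j) ↔ Ord u i j) : rks v = rks u := by
  rw [yhc7_pre w hu hv h, rks_perm w hv]

/-- relabelling does not change the chain -/
theorem Dat.chn_rl {D : Dat I} {hD : D.Top} {hu : D.Cm u} {hv : D.Cm v} {p q : Pt I D.m}
    {hp : D.St p} {hq : D.St q} {ht : Tri (Ord u) p.1} {ht' : Tri (Ord v) q.1} (w : Equiv.Perm I)
    (hw : ∀ i, D.col (w i) = D.col i) (e1 : ∀ a i j, q.1 a (w i) (w j) = p.1 a i j)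
    (e2 : ∀ i r, q.2 (w i) r = p.2 i r) (h : ∀ i j, Ord v (w i) (w j) ↔ Ord u i j)
    (hR : R ⊆ rks u) (hR' : R ⊆ rks v) :
    Dat.chn hD hv hq ht' hR' = Dat.chn hD hu hp ht hR := by
  have h1 : (1 : Matrix I I ℂ).submatrix id w * (1 : Matrix I I ℂ).submatrix w id = 1 := by
    rw [submatrix_mul_equiv, Matrix.mul_one, submatrix_id_id]
  refine ((Dat.chn_eq_iff hR hR').2 ⟨(1 : Matrix I I ℂ).submatrix id w, hD.mem_P.2
    ⟨fun i j c => one_apply_ne fun k : i = w j => c (k ▸ hw j), isUnit_det_of_right_inverse h1⟩,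
    Prod.ext (funext fun b => ?_) ?_, fun F F' hF hF' e _ i j hi hj =>
      one_apply_ne fun k : i = w j => hi ?_⟩).symm
  · change _ = _ * p.1 b * _
    rw [inv_eq_right_inv h1, one_submatrix_mul, mul_submatrix_one]
    ext i j
    simpa using e1 b (w.symm i) (w.symm j)
  · change _ = _ * p.2
    rw [one_submatrix_mul]
    ext i r
    simpa using e2 (w.symm i) r
  · have h2 : Dn u (pre w F') := by
      rw [yhc7_pre w hu.1 hv.1 h]
      exact (dn_pre w.surjective hv.1).2 ⟨F', hF', rfl⟩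
    rw [hF.eq_of_card hu.1 h2 (e.trans (yhc1_card_pre w F').symm), mem_pre] at hj
    exact k ▸ hj

end rl

variable {col : I → Fin 3} {th : Fin 3 → ℤ} {m : ℕ} (h0 : Adm col th [[Finset.univ]])

theorem top_Top (m : ℕ) : ((top h0).dat m).Top := fun i j =>
  ⟨[Finset.univ], List.mem_singleton.2 rfl, Finset.univ, Finset.univ, Finset.mem_univ i,
    Finset.mem_univ j, Or.inl ⟨rfl, List.mem_singleton.2 rfl⟩⟩

theorem Wx.cm (L : Wx col th 1) : ((top h0).dat m).Cm L.1.flatten := ⟨L.2.1.part, L.2.1.bal⟩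

theorem Wx.ordM (L : Wx col th 1) {i j : I} : OrdM L.1 i j ↔ Ord L.1.flatten i j := by
  obtain ⟨u, hu⟩ := L.one
  simp [hu, OrdM]

theorem Wx.rl_ord (L : Wx col th 1) (i j : I) (h : (L.dat m).rl i j) : Ord L.1.flatten i j :=
  L.ordM.1 h

theorem exists_wx {u : List (Finset I)} (hu : ((top h0).dat m).Cm u) :
    ∃ L : Wx col th 1, L.1.flatten = u := by
  obtain ⟨i, -⟩ := h0.part.1 Finset.univ (by simp)
  obtain ⟨a, ha, -⟩ := hu.1.mem i
  have e : [u].flatten = u := by simp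
  exact ⟨⟨[u], ⟨e.symm ▸ hu.1, by simpa using List.ne_nil_of_mem ha, e.symm ▸ hu.2⟩, rfl⟩, e⟩

theorem hc_relF {k : ℕ} {L K : Wx col th k} (h : RS id L.1 K.1) (p : Pt I m) :
    (relMor h m).F p = p :=
  (relMor h m).ye2_ext p (fun _ _ _ => rfl) (fun _ _ => rfl) fun _ r c => absurd rfl (c r)

theorem yhc7_st {k : ℕ} {L K : Wx col th k} (h : RS id L.1 K.1) {p : Pt I m}
    (hp : (L.dat m).St p) : (K.dat m).St p := by
  have := (relMor h m).st hp
  rwa [hc_relF] at this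

theorem yhc7_mc {k : ℕ} {L K : Wx col th k} (h : RS id L.1 K.1) {p : Pt I m}
    (hp : (L.dat m).St p) (hq : (K.dat m).St p) :
    (relMor h m).mc (Dat.pt p hp) = Dat.pt p hq :=
  ((relMor h m).mc_pt hp ((relMor h m).st hp)).trans
    (Subtype.ext (congrArg (K.dat m).pt0 (hc_relF h p)))

theorem yhc7_cc (L K : Wx col th 1) : (L.dat m).cc = (K.dat m).cc := by
  have : ∀ (L : Wx col th 1) i j, (L.dat m).cp i j := fun L i j => (L.2.1.cp_iff m).2 (by
    have h1 := slot_lt (L.2.1.part.mem_word i)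
    have h2 := slot_lt (L.2.1.part.mem_word j)
    rw [L.2.2] at h1 h2
    omega)
  exact funext₂ fun i j => propext (and_congr_right fun _ => iff_of_true (this L i j) (this K i j))

theorem Wx.st_iff (L : Wx col th 1) {p : Pt I m} :
    (L.dat m).St p ↔ ((top h0).dat m).St p ∧ Tri (Ord L.1.flatten) p.1 := by
  refine ⟨fun hp => ⟨yhc7_st (rel_top h0 L) hp, fun a i j c =>
    hp.mem a i j fun c' => c (L.rl_ord i j c'.2.2)⟩, fun ⟨hq, ht⟩ => ⟨fun a i j c => ?_,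
      fun U hU => hq.ss U ((congrArg (SubE · p.1 U) (yhc7_cc L (top h0))).mp hU),
      fun U hU => hq.gen U ((congrArg (SubE · p.1 U) (yhc7_cc L (top h0))).mp hU)⟩⟩
  by_cases e : Ord L.1.flatten i j
  · exact hq.mem a i j fun c' => c ⟨c'.1, c'.2.1, L.ordM.2 e⟩
  · exact ht a i j e

theorem Wx.mem_P (L : Wx col th 1) {g : Matrix I I ℂ} : g ∈ (L.dat m).P ↔
    g ∈ ((top h0).dat m).P ∧ ∀ i j, ¬ Ord L.1.flatten i j → g i j = 0 := by
  refine ⟨fun h => ⟨(top_Top h0 m).mem_P.2 ⟨fun i j c => h.1 i j fun c' => c c'.1, h.2⟩,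
    fun i j c => h.1 i j fun c' => c (L.ordM.1 c'.2)⟩, fun ⟨h, h'⟩ => ⟨fun i j c => ?_, h.2⟩⟩
  by_cases e : Ord L.1.flatten i j
  · exact h.1 i j fun c' => c ⟨c'.1, L.ordM.2 e⟩
  · exact h' i j e

theorem hc_ovT (L : Wx col th 1) {p : Pt I m} (hp : (L.dat m).St p)
    (hq : ((top h0).dat m).St p) : (ovT m h0).π L (Dat.pt p hp) = Dat.pt p hq := by
  rw [ovT_π]
  exact yhc7_mc _ hp hq

theorem mem_NX_pt {a : ℕ} (ha : 1 ≤ a) {p : Pt I m} (hp : ((top h0).dat m).St p) :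
    Dat.pt p hp ∈ NX m h0 a ↔ ((top h0).dat m).N a p.1 := by
  rw [mem_NX]
  constructor
  · rintro ⟨L, hL, y, e⟩
    obtain ⟨q, hq, rfl⟩ := Dat.exists_pt (D := L.dat m) y
    obtain ⟨h1, h2⟩ := (L.st_iff h0).1 hq
    obtain ⟨g, hg, rfl⟩ := (Dat.pt_eq_iff hp h1).1 (e.symm.trans (hc_ovT h0 L hq h1))
    exact (Dat.n_iff_list.2 ⟨_, L.cm h0, rfl, g, Dat.P_le _ hg, h2⟩).anti ha hL
  · intro h
    obtain ⟨l, hl, rfl, g, hg, ht⟩ := Dat.n_iff_list.1 h
    obtain ⟨L, rfl⟩ := exists_wx h0 hl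
    rw [(top_Top h0 m).P_eq] at hg
    exact ⟨L, le_rfl, Dat.pt _ ((L.st_iff h0).2 ⟨hp.act hg, ht⟩), (hc_ovT h0 L _ (hp.act hg)).trans
      ((Dat.pt_eq_iff hp _).2 ⟨g, hg, rfl⟩).symm⟩

variable (col th) in
theorem wd_T : Wd (shT col th 1) fun L => L.1.flatten := by
  refine ⟨fun L => L.2.1.part, fun _ => rfl, fun {L K} r i j e =>
    (Wx.ordM K).1 (r.ord i j ((Wx.ordM L).2 e)), fun L ψ => Eq.trans ?_
      (cobM_sum L fun K => ψ K.flatten)⟩
  obtain ⟨u, hu⟩ := Wx.one L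
  simp [hu, cobM_one]

variable (m) in
/-- the poset of subrepresentations of weight zero -/
abbrev QT := Dat.QP (top_Top h0 m)

/-- the chain of the flag -/
def chT (L : Wx col th 1) {R : Finset (Fin (Fintype.card I))} (h : R ⊆ rks L.1.flatten) :
    C((L.dat m).XS, (QT m h0).Ch R) :=
  Dat.chm (top_Top h0 m) (L.cm h0) (relMor (rel_top h0 L) m) (fun _ => rfl) L.rl_ord h

theorem chT_pt (L : Wx col th 1) {R : Finset (Fin (Fintype.card I))} (h : R ⊆ rks L.1.flatten)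
    {p : Pt I m} (hp : (L.dat m).St p) (hq : ((top h0).dat m).St p)
    (ht : Tri (Ord L.1.flatten) p.1) :
    chT h0 L h (Dat.pt p hp) = Dat.chn (top_Top h0 m) (L.cm h0) hq ht h :=
  (Dat.chm_pt _ _ _ h hp).trans (yhc7_congr (hc_relF _ p) h)

theorem yhc7_pt (L : Wx col th 1) {R : Finset (Fin (Fintype.card I))} (h : R ⊆ rks L.1.flatten)
    {p : Pt I m} (hp : (L.dat m).St p) : chT h0 L h (Dat.pt p hp) =
      Dat.chn (top_Top h0 m) (L.cm h0) ((L.st_iff h0).1 hp).1 ((L.st_iff h0).1 hp).2 h :=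
  chT_pt h0 L h hp _ _

variable (m) in
/-- the map from the cobar diagram to the diagram of chains -/
def homT : Dg.Hom (wd_T col th).sh (dgT col th 1 m) (QT m h0).dg where
  g h := chT h0 _ h
  gl {L K _} h h' x := by
    obtain ⟨p, hp, rfl⟩ := Dat.exists_pt (D := Wx.dat L m) x
    exact (congrArg _ ((DFunLike.congr_fun (dgT_mp h) _).trans
      (yhc7_mc h hp (yhc7_st h hp)))).trans ((yhc7_pt h0 K h' _).trans
      ((Dat.chn_ref ((wd_T col th).rel h) _ h').symm.trans (yhc7_pt h0 L _ hp).symm))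
  gr {L _ _} h h' x := by
    obtain ⟨p, hp, rfl⟩ := Dat.exists_pt (D := Wx.dat L m) x
    exact (congrArg _ (yhc7_pt h0 L h hp)).trans ((Dat.chn_face h h').trans
      (yhc7_pt h0 L _ hp).symm)

theorem homT_ov {L : (shT col th 1).ι} {R : (Sh.simp (Fin (Fintype.card I))).ι}
    (h : (wd_T col th).sh.R L R) (x : (dgT col th 1 m).X L) :
    (QT m h0).ov.π R ((homT m h0).g h x) = (ovT m h0).π L x := by
  obtain ⟨p, hp, rfl⟩ := Dat.exists_pt (D := Wx.dat L m) x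
  exact (congrArg _ (yhc7_pt h0 L h hp)).trans (hc_ovT h0 L hp ((Wx.st_iff h0 L).1 hp).1).symm

theorem yhc7_ord {k : ℕ} (w : Wc col) {L K : Wx col th k} (e : actI col th k w L = K) (i j : I) :
    Ord K.1.flatten (w.1 i) (w.1 j) ↔ Ord L.1.flatten i j := by
  rw [← e, actI_val, flatten_rlb, funext (image_eq_pre w.1)]
  simpa using ord_pre (s := ⇑w.1⁻¹) (π := L.1.flatten) (i := w.1 i) (j := w.1 j)

theorem homT_inv : (homT m h0).Inv (actT col th 1 m) := by
  refine ⟨fun w L R => (one_mul _).trans (if_congr ?_ rfl rfl), fun w L K R e h h' x => ?_⟩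
  · exact Eq.congr_left (rks_rl w.1 L.2.1.part (actI col th 1 w L).2.1.part (yhc7_ord w rfl))
  · obtain ⟨p, hp, rfl⟩ := Dat.exists_pt (D := Wx.dat L m) x
    exact (congrArg _ ((actMor w e m).mc_pt hp ((actMor w e m).st hp))).trans
      ((yhc7_pt h0 K h' _).trans ((Dat.chn_rl (D := (top h0).dat m) w.1 w.2 ((actMor w e m).F_fst p)
        ((actMor w e m).F_snd p) (yhc7_ord w e) h h').trans (yhc7_pt h0 L h hp).symm))

theorem homT_fib (R : (Sh.simp (Fin (Fintype.card I))).ι) (y : (QT m h0).dg.X R) :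
    (homT m h0).Fib (wd_T col th).mu (actT col th 1 m) R y := by
  obtain ⟨u, hu, p, hp, ht, e, rfl⟩ := Dat.exists_chn y
  obtain ⟨K, rfl⟩ := exists_wx h0 hu
  have hp' := (K.st_iff h0).2 ⟨hp, ht⟩
  refine Dg.Hom.fib_pt _ (l₀ := K) e.ge e (Dat.pt p hp') (chT_pt h0 K _ hp' hp ht)
    fun L h x e' hx => ?_
  obtain ⟨q, hq, rfl⟩ := Dat.exists_pt (D := Wx.dat L m) x
  obtain ⟨w, hw, h1⟩ := Dat.chn_perm e' e ((yhc7_pt h0 L h hq).symm.trans hx)
  have h2 : actI col th 1 ⟨w, hw⟩ L = K := by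
    obtain ⟨u, hu⟩ := Wx.one L
    obtain ⟨v, hv⟩ := Wx.one K
    refine Subtype.ext ?_
    simp only [hu, hv, List.flatten_cons, List.flatten_nil, List.append_nil] at h1
    change rlb w L.1 = K.1
    rw [hu, hv, h1, rlb, List.map_singleton, List.map_map]
    refine congrArg (fun z => [z]) ((List.map_congr_left fun b _ => ?_).trans (List.map_id _))
    ext i
    simp [image_eq_pre]
  have h3 := (actMor ⟨w, hw⟩ h2 m).st hq
  have h4 := (actMor ⟨w, hw⟩ h2 m).mc_pt hq h3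
  obtain ⟨g, hg, h5, h6⟩ := Dat.chn_inj e ((yhc7_pt h0 K e.ge h3).symm.trans
    ((congrArg _ h4.symm).trans (((homT_inv h0).t ⟨w, hw⟩ h2 h e.ge _).trans hx)))
  exact ⟨⟨w, hw⟩, h2, h4.trans ((Dat.pt_eq_iff h3 hp').2 ⟨g, (K.mem_P h0).2 ⟨hg, h6⟩, h5⟩)⟩

/-- F7 -/
theorem f7 {V W : Set (XT m h0)} (hV : IsClosed V) (hW : IsClosed W) :
    (Dg.bc ((QT m h0).ov.fam V) ((QT m h0).ov.fam W)).cx.Mor (bcN m h0 V W).cx (homT m h0).map 0 ∧
    (Dg.bc ((QT m h0).ov.fam V) ((QT m h0).ov.fam W)).cx.QIa (bcN m h0 V W).cx (homT m h0).map 0 :=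
  have e : ∀ U, (homT m h0).Pre (fun L => rks L.1.flatten) ((ovT m h0).fam U)
      ((QT m h0).ov.fam U) := (homT m h0).pre_fam (ovT m h0) (QT m h0).ov (homT_ov h0)
  ⟨((homT_inv h0).mor (wd_T col th).mu (e V) (e W) _ _).cx,
    (homT_inv h0).desc (wd_T col th).mu (Dg.Ov.fam_cl _ hV) (Dg.Ov.fam_cl _ hW) (e V) (e W) _ _
      fun R y _ => homT_fib h0 R y⟩

end Pool.Agent.CS
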