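import Pool.Agent.P.MP_d34769_ag.YHC8a

/-! The comparison map from chains of subrepresentations to products. -/

open Set Matrix

set_option linter.unusedSectionVars false

noncomputable section
namespace Pool.Agent.CS
open Pool.Agent.P.MP_d34769_ag

variable {I : Type} [Fintype I] [DecidableEq I]

section one
variable {T F : Type} [AddCommGroup T] [Module ℂ T] [TopologicalSpace F] [CompactSpace F]
  [T2Space F] {k : ℕ}

theorem yhc8_aug {S : Sh} {A : Gc T} {Y : Sys S fun _ => T} {sg : S.ι → ℤ}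
    (H : ∀ k, ∑ j, sg j * S.ε j k = 0) (hA : ∀ i, Y.A i = A)
    (hp : ∀ {i j} (h : S.rel i j) x, Y.pl h x = x) (c : S.ι → T) :
    augL sg (Y.bg.D c) = A.d (augL sg c) := by
  simp only [augL_apply, cq_δ hA hp, smul_add, Finset.sum_add_distrib, ← map_smul, ← map_sum]
  rw [cq_mm]
  simp [H]

theorem yhc8_sum {W : Type} [AddCommGroup W] [Module ℂ W] (L : W →ₗ[ℂ] T)
    (g : Equiv.Perm (Fin k)) (a : Equiv.Perm (Fin k) → (coxSh (Fin k)).ι → T)
    (b : Equiv.Perm (Fin k) → (coxSh (Fin k)).ι → W)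
    (h : ∀ β π, L (b (β * g⁻¹) (coxP (Fin k) g π)) = a β π) :
    ∑ β, coxL coxT T (a β) = ((Equiv.Perm.sign g : ℤ) : ℂ) • L (∑ β, coxL coxT W (b β)) := by
  rw [map_sum, Finset.smul_sum]
  refine Fintype.sum_equiv (Equiv.mulRight g⁻¹) _ _ fun β => ?_
  rw [coxL_apply, coxL_apply, map_sum, Finset.smul_sum]
  refine Fintype.sum_equiv (Equiv.mulLeft g) _ _ fun σ => ?_
  rw [map_smul, smul_smul, Equiv.coe_mulLeft, Equiv.coe_mulRight, ← yhc2_coxP_T, ← Int.cast_mul,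
    ← Units.val_mul, map_mul, ← mul_assoc, Int.units_mul_self, one_mul, h]

theorem yhc8_mem (U : Submodule ℂ T) {a : (coxSh (Fin k)).ι → T} (h : ∀ π, a π ∈ U) :
    coxL coxT T a ∈ U := by
  rw [coxL_apply]
  exact U.sum_mem fun σ _ => U.smul_mem _ (h _)

theorem coxL_D (hk : 0 < k) (K A : (Dg.cst (coxSh (Fin k)) F).Fam)
    (c : (Dg.cst (coxSh (Fin k)) F).T) :
    coxL coxT (AS F) ((Dg.bc K A).cx.d c) = AS.d (coxL coxT (AS F) c) := by
  classical
  have : Nonempty (Fin k) := ⟨⟨0, hk⟩⟩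
  obtain ⟨sg, μ, H, h1⟩ := IsCox.ctr (Equiv.refl (Fin k)) coxSh_isCox (t := coxT) fun _ => rfl
  have h2 : coxL coxT (AS F) = augL sg := LinearMap.ext fun c => by rw [coxL_apply, h1]
  rw [h2]
  exact yhc8_aug (Y := (Dg.cst (coxSh (Fin k)) F).sys) (A := AS.gc F) H.sε (fun _ => rfl)
    (fun _ x => AS.pull_id x) c

theorem Dg.Hom.map_D {S S' : Sh} {φ : ShH S S'} {P : Dg S} {Q : Dg S'} (f : Dg.Hom φ P Q)
    (K A : P.Fam) (K' A' : Q.Fam) (c : Q.T) :
    f.map ((Dg.bc K' A').cx.d c) = (Dg.bc K A).cx.d (f.map c) := by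
  rw [cx_d, cx_d, HT.BG.D_apply, HT.BG.D_apply, map_add, f.sys.map_d, f.sys.map_δ]

theorem Dg.Act.bc_congr {S : Sh} {P : Dg S} {Γ : Type} [Group Γ] (G : Dg.Act P Γ)
    {K K' A A' : P.Fam} (e : K = K') (e' : A = A') (iK : G.Inv K) (iA : G.Inv A) (iK' : G.Inv K')
    (iA' : G.Inv A') : G.bc iK iA = G.bc iK' iA' := by
  subst e e'
  rfl

end one

variable {col : I → Fin 3} {th : Fin 3 → ℤ} {k m m₁ : ℕ} (h0 : Adm col th [[Finset.univ]])
  (hm : k * m₁ ≤ m)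

theorem Sl.rl_pre (s : Sl col th k) {π : List (Finset (Fin k))} (hπ : Part π) (i j : I)
    (h : (s.wx.dat m₁).rl i j) : Ord (π.map (pre s.1)) i j :=
  ord_pre.2 (s.rl_iff.1 h ▸ hπ.refl _)

/-- the chain of the initial sums of a product -/
def chU (s : Sl col th k) (β : Equiv.Perm (Fin k)) {π : List (Finset (Fin k))} (hπ : Part π)
    {R : Finset (Fin (Fintype.card I))} (h : R ⊆ rks (π.map (pre s.1))) :
    C((s.wx.dat m₁).XS, (QT m h0).Ch R) :=
  Dat.chm (top_Top h0 m) ((s.toSlot rfl rfl).cm_pre hπ) (morX h0 hm s β) (fun _ => rfl)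
    (s.rl_pre hπ) h

theorem yhc8_pt (s : Sl col th k) (β : Equiv.Perm (Fin k)) {π : List (Finset (Fin k))}
    (hπ : Part π) {R : Finset (Fin (Fintype.card I))} (h : R ⊆ rks (π.map (pre s.1)))
    {p : Pt I m₁} (hp : (s.wx.dat m₁).St p) :
    chU h0 hm s β hπ h (Dat.pt p hp) = Dat.chn (top_Top h0 m) ((s.toSlot rfl rfl).cm_pre hπ)
      ((morX h0 hm s β).st hp) ((morX h0 hm s β).tri (fun _ => rfl) (s.rl_pre hπ) hp.mem) h :=
  Dat.chm_pt _ _ _ h hp

/-- the map from the constant diagram to the diagram of chains -/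
def homU (s : Sl col th k) (β : Equiv.Perm (Fin k)) :
    Dg.Hom (wd_cox s.2.1).sh (Dg.cst (coxSh (Fin k)) (s.wx.dat m₁).XS) (QT m h0).dg where
  g {π _} h := chU h0 hm s β π.2 h
  gl {π π' _} h h' x := by
    obtain ⟨p, hp, rfl⟩ := Dat.exists_pt (D := s.wx.dat m₁) x
    exact (yhc8_pt h0 hm s β π'.2 h' hp).trans
      ((Dat.chn_ref ((wd_cox s.2.1).rel h) _ h').symm.trans (yhc8_pt h0 hm s β π.2 _ hp).symm)
  gr {π _ _} h h' x := by
    obtain ⟨p, hp, rfl⟩ := Dat.exists_pt (D := s.wx.dat m₁) x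
    exact (congrArg _ (yhc8_pt h0 hm s β π.2 h hp)).trans
      ((Dat.chn_face h h').trans (yhc8_pt h0 hm s β π.2 _ hp).symm)

theorem homU_ov (s : Sl col th k) (β : Equiv.Perm (Fin k)) {π : (coxSh (Fin k)).ι}
    {R : (Sh.simp (Fin (Fintype.card I))).ι} (h : (wd_cox s.2.1).sh.R π R)
    (x : (s.wx.dat m₁).XS) :
    (Dat.ovQ (top_Top h0 m)).π R ((homU h0 hm s β).g h x) = (ovU h0 hm).π s x := by
  obtain ⟨p, hp, rfl⟩ := Dat.exists_pt (D := s.wx.dat m₁) x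
  exact (congrArg _ (yhc8_pt h0 hm s β π.2 h hp)).trans
    ((ovU_iff h0 hm s hp ((morX h0 hm s β).st hp)).2 (Dat.Sim.refl _)).symm

/-- the comparison map -/
def psi : (QT m h0).dg.T →ₗ[ℂ] (dgU col th k m₁).T :=
  LinearMap.pi fun s => ∑ β, coxL coxT (AS _) ∘ₗ (homU h0 hm s β).map

theorem psi_apply (c : (QT m h0).dg.T) (s : Sl col th k) :
    psi h0 hm c s = ∑ β, coxL coxT (AS _) ((homU h0 hm s β).map c) :=
  LinearMap.sum_apply _ _ _

theorem yhc8_map {S : Sh} {u : S.ι → List (Finset I)} (h : Wd S u) {P : Dg S}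
    {Q : Dg (Sh.simp (Fin (Fintype.card I)))} (f : Dg.Hom h.sh P Q) (c : Q.T) (l : S.ι)
    {R : Finset (Fin (Fintype.card I))} (e : rks (u l) = R) (r : h.sh.R l R) :
    f.map c l = AS.pull (f.g r) (c R) := by
  subst e
  exact h.map f c l r

theorem yhc8_ord {g : Gm col k} {s s' : Sl col th k} (e : actS col th k g s = s')
    (π : (coxSh (Fin k)).ι) (i j : I) :
    Ord ((coxP (Fin k) g.2 π).1.map (pre s'.1)) (g.1.1 i) (g.1.1 j) ↔
      Ord (π.1.map (pre s.1)) i j := by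
  rw [ord_pre, ord_pre, coxP_val, ord_pre, actS_eq e, actS_eq e, Equiv.Perm.coe_inv,
    Equiv.symm_apply_apply, Equiv.symm_apply_apply]

theorem yhc8_ch {g : Gm col k} {s s' : Sl col th k} (e : actS col th k g s = s')
    (β : Equiv.Perm (Fin k)) (π : (coxSh (Fin k)).ι) {R : Finset (Fin (Fintype.card I))}
    (h : R ⊆ rks (π.1.map (pre s.1))) (h' : R ⊆ rks ((coxP (Fin k) g.2 π).1.map (pre s'.1)))
    (x : (s.wx.dat m₁).XS) :
    chU h0 hm s' (β * g.2⁻¹) (coxP (Fin k) g.2 π).2 h' ((morU g e m₁).mc x) =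
      chU h0 hm s β π.2 h x := by
  obtain ⟨p, hp, rfl⟩ := Dat.exists_pt (D := s.wx.dat m₁) x
  refine (congrArg _ ((morU g e m₁).mc_pt hp ((morU g e m₁).st hp))).trans
    ((yhc8_pt h0 hm s' _ (coxP (Fin k) g.2 π).2 h' _).trans
      (Eq.trans ?_ (yhc8_pt h0 hm s β π.2 h hp).symm))
  refine Dat.chn_rl (D := (top h0).dat m) g.1.1 g.1.2 ((morU g e m₁).F_fst p) (fun i r => ?_)
    (yhc8_ord e π) h h'
  have h1 : ((morU g e m₁).F p).2 (g.1.1 i) = p.2 i := funext ((morU g e m₁).F_snd p i)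
  have h2 : (β * g.2⁻¹) (s'.1 (g.1.1 i)) = β (s.1 i) := by
    rw [actS_eq e, ← Equiv.Perm.mul_apply, inv_mul_cancel_right]
  change Function.extend (frB hm ((β * g.2⁻¹) (s'.1 (g.1.1 i))))
    (((morU g e m₁).F p).2 (g.1.1 i)) 0 r = Function.extend (frB hm (β (s.1 i))) (p.2 i) 0 r
  rw [h1, h2]

theorem yhc8_pull {g : Gm col k} {s s' : Sl col th k} (e : actS col th k g s = s')
    (β : Equiv.Perm (Fin k)) (π : (coxSh (Fin k)).ι) (c : (QT m h0).dg.T) :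
    AS.pull (morU g e m₁).mc ((homU h0 hm s' (β * g.2⁻¹)).map c (coxP (Fin k) g.2 π)) =
      (homU h0 hm s β).map c π := by
  have h1 := rks_rl g.1.1 (π.2.pre s.2.1) ((coxP (Fin k) g.2 π).2.pre s'.2.1) (yhc8_ord e π)
  refine (congrArg _ (yhc8_map (wd_cox s'.2.1) (homU h0 hm s' (β * g.2⁻¹)) c
    (coxP (Fin k) g.2 π) h1 h1.ge)).trans (Eq.trans ?_
      (yhc8_map (wd_cox s.2.1) (homU h0 hm s β) c π rfl (Finset.Subset.refl _)).symm)
  exact (AS.pull_pull _ _ _).trans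
    (congrArg (AS.pull · _) (funext (yhc8_ch h0 hm e β π (Finset.Subset.refl _) h1.ge)))

theorem psi_fix (c : (QT m h0).dg.T) : psi h0 hm c ∈ Fix (actU col th k m₁).r :=
  mem_fixU.2 fun g s s' e => (psi_apply h0 hm c s).trans
    ((yhc8_sum (AS.pl (morU g e m₁).mc) g.2 (fun β => (homU h0 hm s β).map c)
      (fun β => (homU h0 hm s' β).map c) fun β π => yhc8_pull h0 hm e β π c).trans
      (congrArg (fun z => _ • AS.pull (morU g e m₁).mc z) (psi_apply h0 hm c s').symm))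

/-- the constant diagram over the space of classes -/
def yhc8_ov (s : Sl col th k) :
    Dg.Ov (Dg.cst (coxSh (Fin k)) (s.wx.dat m₁).XS) ((top h0).dat m).MS :=
  ⟨fun _ => (ovU h0 hm).π s, fun _ _ => rfl⟩

theorem yhc8_sc (s : Sl col th k) (β : Equiv.Perm (Fin k)) :
    (Dat.ovQ (top_Top h0 m)).sc.Mor (yhc8_ov h0 hm s).sc (homU h0 hm s β).map 0 :=
  Dg.Hom.sc_mor _ _ _ (homU_ov h0 hm s β) _ _ _ _ (fun _ => mapsTo_univ _ _)
    fun _ => mapsTo_empty _ _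

/-- the comparison map over the space of classes -/
theorem psi_sc (hk : 0 < k) : (Dat.ovQ (top_Top h0 m)).sc.Mor
    ((actU col th k m₁).sc_act (ovU h0 hm) (ovU_act h0 hm) Dg.Fam.cl_top Dg.Fam.cl_bot
      (actU col th k m₁).inv_top (actU col th k m₁).inv_bot).inv (psi h0 hm) 0 := by
  have : Nonempty (Fin k) := ⟨⟨0, hk⟩⟩
  refine ⟨fun n x hx => ?_, fun t x hx => ?_, fun t x => ?_⟩
  · rw [SC.Act.inv_G]
    refine ⟨Dg.one_mem_G.2 fun s => Cx.meq (Submodule.sum_mem _ fun β _ => ?_)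
      (psi_apply h0 hm x s).symm, psi_fix h0 hm x⟩
    exact Cx.Gcast ((IsCox.qi (Equiv.refl (Fin k)) coxSh_isCox (t := coxT) (fun _ => rfl)
      (univ : Set ((Sl.wx s).dat m₁).XS) ∅).1.fG _ _ ((yhc8_sc h0 hm s β).fG n x hx)) (by omega)
  · refine (Dg.mem_N (A := ⊥)).2 fun s => Cx.meq (Submodule.sum_mem _ fun β _ => ?_)
      (psi_apply h0 hm x s).symm
    exact yhc8_mem _ ((Dg.mem_N (A := ⊥)).1 ((yhc8_sc h0 hm s β).fz t x hx))
  · refine Cx.meq (Submodule.zero_mem _) (sub_eq_zero.2 (funext fun s => ?_)).symm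
    refine (psi_apply h0 hm _ s).trans (Eq.trans ?_
      ((Dg.one_d (K := ⊤) (A := ⊥) (psi h0 hm x) s).trans
        (congrArg AS.d (psi_apply h0 hm x s))).symm)
    refine Eq.trans (Finset.sum_congr rfl fun β _ => ?_) (map_sum AS.d _ _).symm
    exact (congrArg _ ((homU h0 hm s β).map_D ⊤ ⊥ ⊤ ⊥ x)).trans (coxL_D hk ⊤ ⊥ _)

end Pool.Agent.CS
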