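import Mathlib

/-! A compact Hausdorff space modulo a closed equivalence relation is Hausdorff. -/

namespace Pool.Agent.CS

open Topology

variable {X Y : Type} [TopologicalSpace X] [TopologicalSpace Y] [CompactSpace X] [T2Space X]

/-- A quotient map with a closed kernel relation is a closed map. -/
theorem closedMap_of_rel {π : X → Y} (hπ : IsQuotientMap π)
    (hR : IsClosed {p : X × X | π p.1 = π p.2}) : IsClosedMap π := by
  intro C hC
  rw [← hπ.isClosed_preimage]
  have h1 : π ⁻¹' (π '' C) = Prod.snd '' ({p : X × X | π p.1 = π p.2} ∩ Prod.fst ⁻¹' C) := by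
    ext x
    constructor
    · rintro ⟨c, hc, h⟩
      exact ⟨(c, x), ⟨h, hc⟩, rfl⟩
    · rintro ⟨p, ⟨h, hc⟩, rfl⟩
      exact ⟨p.1, hc, h⟩
  rw [h1]
  exact ((hR.inter (hC.preimage continuous_fst)).isCompact.image continuous_snd).isClosed

/-- The target of a quotient map with a closed kernel relation is Hausdorff. -/
theorem t2_of_rel {π : X → Y} (hπ : IsQuotientMap π)
    (hR : IsClosed {p : X × X | π p.1 = π p.2}) : T2Space Y := by
  have hc := closedMap_of_rel hπ hR
  have hp : IsProperMap π := by
    rw [isProperMap_iff_isClosedMap_and_compact_fibers]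
    refine ⟨hπ.continuous, hc, fun y => ?_⟩
    obtain ⟨x, rfl⟩ := hπ.surjective y
    have h1 : IsClosed ({π x} : Set Y) := by
      simpa using hc {x} isClosed_singleton
    exact (h1.preimage hπ.continuous).isCompact
  rw [t2_iff_isClosed_diagonal]
  have h2 : Set.diagonal Y = Prod.map π π '' {p : X × X | π p.1 = π p.2} := by
    ext ⟨a, b⟩
    constructor
    · intro h
      obtain ⟨x, rfl⟩ := hπ.surjective a
      exact ⟨(x, x), rfl, Prod.ext rfl h⟩
    · rintro ⟨p, h, h'⟩
      rw [← h']
      exact h
  rw [h2]
  exact (hp.prodMap hp).isClosedMap _ hR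

theorem closedMap_quot (s : Setoid X) (hR : IsClosed {p : X × X | s p.1 p.2}) :
    IsClosedMap (Quotient.mk s) :=
  closedMap_of_rel isQuotientMap_quot_mk (by simpa only [Quotient.eq] using hR)

theorem t2_quot (s : Setoid X) (hR : IsClosed {p : X × X | s p.1 p.2}) : T2Space (Quotient s) :=
  t2_of_rel (π := Quotient.mk s) isQuotientMap_quot_mk (by simpa only [Quotient.eq] using hR)

omit [T2Space X] in
theorem compact_quot (s : Setoid X) : CompactSpace (Quotient s) := Quotient.compactSpace

/-- A closed invariant set has a closed image whose preimage is the set itself. -/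
theorem closed_image_quot (s : Setoid X) (hR : IsClosed {p : X × X | s p.1 p.2}) {C : Set X}
    (hC : IsClosed C) (hi : ∀ x y, s x y → x ∈ C → y ∈ C) :
    IsClosed (Quotient.mk s '' C) ∧ Quotient.mk s ⁻¹' (Quotient.mk s '' C) = C := by
  refine ⟨closedMap_quot s hR C hC, Set.Subset.antisymm ?_ (Set.subset_preimage_image _ _)⟩
  rintro x ⟨c, hc, h⟩
  exact hi c x (Quotient.exact h) hc

end Pool.Agent.CS
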