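import Pool.Agent.P.MP_d34769_ag.YHC7
import Pool.Agent.P.MP_d34769_ag.YHC5
import Pool.Agent.P.MP_d34769_ag.YE7
import Pool.Agent.P.MP_d34769_ag.YHHaus

/-! The space of S-equivalence classes and the diagrams over it. -/

open Set Matrix

set_option linter.unusedSectionVars false

noncomputable section
namespace Pool.Agent.CS
open Pool.Agent.P.MP_d34769_ag

variable {I : Type} [Fintype I] [DecidableEq I]

namespace Dat
variable (D : Dat I)

/-- S-equivalence of points -/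
def simS : Setoid D.XS :=
  ⟨fun x y => D.Sim (D.sec x).1 (D.sec y).1, fun _ => Sim.refl _, Sim.symm, Sim.trans⟩

theorem yhc8a_sec {p : Pt I D.m} (hp : D.St p) : D.Sim p.1 (D.sec (pt p hp)).1 := by
  obtain ⟨g, hg, e⟩ := sec_pt0 hp
  exact Iso.sim ⟨g, D.P_le hg, (congrArg Prod.fst e).symm⟩

theorem yhc8a_sim {p q : Pt I D.m} (hp : D.St p) (hq : D.St q) :
    D.simS (pt p hp) (pt q hq) ↔ D.Sim p.1 q.1 :=
  ⟨fun h => ((D.yhc8a_sec hp).trans h).trans (D.yhc8a_sec hq).symm,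
    fun h => ((D.yhc8a_sec hp).symm.trans h).trans (D.yhc8a_sec hq)⟩

theorem yhc8a_cpt : ∃ (K : Set (Pt I D.m)) (h : ∀ p : K, D.St p.1), CompactSpace K ∧
    ∀ x : D.XS, ∃ p : K, pt p.1 (h p) = x := by
  obtain ⟨K, hK, hs, e⟩ := D.exists_cpt
  refine ⟨K, fun p => hs p.1 p.2, isCompact_iff_compactSpace.1 hK, fun x => ?_⟩
  obtain ⟨p, hp, e'⟩ := e.ge x.2
  exact ⟨⟨p, hp⟩, Subtype.ext e'⟩

theorem simS_closed : IsClosed {z : D.XS × D.XS | D.simS z.1 z.2} := by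
  obtain ⟨K, h, _, hs⟩ := D.yhc8a_cpt
  have hc : Continuous fun p : K => pt p.1 (h p) := cont_pt continuous_subtype_val h
  have h1 : IsClosed {z : K × K | D.Sim z.1.1.1 z.2.1.1} := isClosed_of_closure_subset fun z hz =>
    sim_closed (h z.1).ss (h z.2).ss (map_mem_closure (f := fun z : K × K => (z.1.1.1, z.2.1.1))
      (by fun_prop) hz fun y hy => ⟨(h y.1).ss, (h y.2).ss, hy⟩)
  refine Eq.mp (congrArg IsClosed (Set.ext fun z => ?_))
    (h1.isCompact.image (hc.prodMap hc)).isClosed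
  constructor
  · rintro ⟨y, hy, rfl⟩
    exact (D.yhc8a_sim (h y.1) (h y.2)).2 hy
  · obtain ⟨x, y⟩ := z
    obtain ⟨p, rfl⟩ := hs x
    obtain ⟨q, rfl⟩ := hs y
    exact fun e => ⟨(p, q), (D.yhc8a_sim (h p) (h q)).1 e, rfl⟩

theorem yhc8a_perm (w : Equiv.Perm I) (e : ∀ i, D.cc (w i) i) (ρ : Rp I) :
    D.Iso ρ fun a => reindex w w (ρ a) := by
  have h1 : (1 : Matrix I I ℂ).submatrix id w * (1 : Matrix I I ℂ).submatrix w id = 1 := by
    rw [submatrix_mul_equiv, Matrix.mul_one, submatrix_id_id]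
  refine ⟨(1 : Matrix I I ℂ).submatrix id w, ⟨fun i j k => one_apply_ne fun c : i = w j =>
    k (c ▸ e j), isUnit_det_of_right_inverse h1⟩, funext fun b => ?_⟩
  change _ * ρ b * _ = _
  rw [inv_eq_right_inv h1, one_submatrix_mul, mul_submatrix_one]
  rfl

/-- the space of S-equivalence classes -/
def MS : Type := Quotient D.simS

instance : TopologicalSpace D.MS := inferInstanceAs (TopologicalSpace (Quotient _))
instance : CompactSpace D.MS := compact_quot _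
instance : T2Space D.MS := t2_quot _ D.simS_closed

/-- the class of a point -/
def mq : C(D.XS, D.MS) := ⟨Quotient.mk _, continuous_quotient_mk'⟩

/-- the classes with a filtration with `a` steps -/
def NM (a : ℕ) : Set D.MS := {t | ∃ p hp, D.mq (pt p hp) = t ∧ D.N a p.1}

variable {D} {p q : Pt I D.m}

theorem mq_eq_iff (hp : D.St p) (hq : D.St q) :
    D.mq (pt p hp) = D.mq (pt q hq) ↔ D.Sim p.1 q.1 := Quotient.eq.trans (D.yhc8a_sim hp hq)

theorem mem_NM (hp : D.St p) {a : ℕ} : D.mq (pt p hp) ∈ D.NM a ↔ D.N a p.1 :=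
  ⟨fun ⟨_, hq, e, h⟩ => ((mq_eq_iff hq hp).1 e).n hq.ss hp.ss h, fun h => ⟨p, hp, rfl, h⟩⟩

theorem NM_closed (D : Dat I) (a : ℕ) : IsClosed (D.NM a) := by
  obtain ⟨K, h, _, hs⟩ := D.yhc8a_cpt
  refine Eq.mp (congrArg IsClosed (Set.ext fun z => ?_)) (((isClosed_n (D := D) a).preimage
    (f := fun p : K => p.1.1) (by fun_prop)).isCompact.image
      (D.mq.continuous.comp (cont_pt continuous_subtype_val h))).isClosed
  constructor
  · rintro ⟨y, hy, rfl⟩
    exact ⟨_, _, rfl, hy⟩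
  · rintro ⟨p, hp, rfl, hn⟩
    obtain ⟨q, e⟩ := hs (pt p hp)
    rw [← mem_NM hp, ← e] at hn
    exact ⟨q, (mem_NM _).1 hn, congrArg D.mq e⟩

theorem Slot.cm_pre {k : ℕ} {s : I → Fin k} (h : D.Slot s) {π : List (Finset (Fin k))}
    (hπ : Part π) : D.Cm (π.map (pre s)) := by
  refine ⟨hπ.pre h.surj, fun b hb => ?_⟩
  obtain ⟨c, -, rfl⟩ := List.mem_map.1 hb
  rw [pre, ← Finset.sum_fiberwise_eq_sum_filter]
  exact Finset.sum_eq_zero fun a _ => h.bal a

/-- the diagram of chains over the space of classes -/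
def ovQ (hD : D.Top) : Dg.Ov (QP hD).dg D.MS where
  π R := D.mq.comp ((QP hD).pr R)
  comm _ _ := rfl

theorem ovQ_fam (hD : D.Top) (V : Set D.MS) :
    (ovQ hD).fam V = (QP hD).ov.fam (D.mq ⁻¹' V) := rfl

end Dat

variable {col : I → Fin 3} {th : Fin 3 → ℤ} {k m m₁ : ℕ} (h0 : Adm col th [[Finset.univ]])
  (hm : k * m₁ ≤ m)

theorem top_N (m m' a : ℕ) {ρ : Rp I} : ((top h0).dat m).N a ρ ↔ ((top h0).dat m').N a ρ :=
  ⟨fun ⟨s, h, e⟩ => ⟨s, ⟨h.1, h.2⟩, e⟩, fun ⟨s, h, e⟩ => ⟨s, ⟨h.1, h.2⟩, e⟩⟩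

theorem mq_NM {a : ℕ} (ha : 1 ≤ a) :
    ((top h0).dat m).mq ⁻¹' ((top h0).dat m).NM a = NX m h0 a := Set.ext fun x => by
  obtain ⟨p, hp, rfl⟩ := Dat.exists_pt x
  exact (Dat.mem_NM hp).trans (mem_NX_pt h0 ha hp).symm

/-- the block number `b` of the framing -/
def frB (b : Fin k) : Fin m₁ ↪ Fin m :=
  ⟨fun r => ⟨b * m₁ + r, lt_of_lt_of_le (by
      have := Nat.mul_le_mul_right m₁ (Nat.succ_le_of_lt b.2)
      rw [Nat.succ_mul] at this
      omega) hm⟩, fun _ _ e => Fin.ext (Nat.add_left_cancel (congrArg Fin.val e))⟩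

theorem frB_ne {b b' : Fin k} (h : b ≠ b') (r r' : Fin m₁) : frB hm b r ≠ frB hm b' r' := fun e => by
  have h1 : (b * m₁ + r) / m₁ = (b' * m₁ + r') / m₁ := congrArg (·.1 / m₁) e
  rw [add_comm, add_comm (b' * m₁), Nat.add_mul_div_right _ _ r.pos, Nat.add_mul_div_right _ _ r.pos,
    Nat.div_eq_of_lt r.2, Nat.div_eq_of_lt r'.2, zero_add, zero_add] at h1
  exact h (Fin.ext h1)

/-- the direct sum, the slot `a` being framed through the block `β a` -/
def morX (s : Sl col th k) (β : Equiv.Perm (Fin k)) : Dat.Mor (s.wx.dat m₁) ((top h0).dat m) where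
  w := Equiv.refl I
  ι i := frB hm (β (s.1 i))
  col _ := rfl
  th := rfl
  gp i j h := ⟨h.1, top_Top h0 m i j⟩
  rl i j _ := ((top h0).dat m).gl_rl (top_Top h0 m i j)
  cp i j _ := (top_Top h0 m).cp i j
  ι_eq _ _ h := by rw [s.cp_iff.1 h]
  ι_ne _ _ h _ := frB_ne hm (β.injective.ne fun e => h (s.cp_iff.2 e))

theorem morX_fst (s : Sl col th k) (β : Equiv.Perm (Fin k)) (p : Pt I m₁) :
    ((morX h0 hm s β).F p).1 = p.1 := rfl

/-- the products over the space of classes -/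
def ovU : Dg.Ov (dgU col th k m₁) ((top h0).dat m).MS where
  π s := ((top h0).dat m).mq.comp (morX h0 hm s 1).mc
  comm h := False.elim h

theorem ovU_iff (s : Sl col th k) {p : Pt I m₁} (hp : (s.wx.dat m₁).St p) {q : Pt I m}
    (hq : ((top h0).dat m).St q) :
    (ovU h0 hm).π s (Dat.pt p hp) = ((top h0).dat m).mq (Dat.pt q hq) ↔
      ((top h0).dat m).Sim p.1 q.1 :=
  (Eq.congr_left (congrArg _ ((morX h0 hm s 1).mc_pt hp ((morX h0 hm s 1).st hp)))).trans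
    (Dat.mq_eq_iff _ hq)

theorem ovU_act (g : Gm col k) {s s' : (Sh.one (Sl col th k) (k - 1)).ι}
    (e : (actU col th k m₁).a g s = s') (x : (dgU col th k m₁).X s) :
    (ovU h0 hm).π s' ((actU col th k m₁).t g e x) = (ovU h0 hm).π s x := by
  obtain ⟨p, hp, rfl⟩ := Dat.exists_pt (D := (Sl.wx s).dat m₁) x
  refine (congrArg _ ((morU g e m₁).mc_pt hp ((morU g e m₁).st hp))).trans
    (((ovU_iff h0 hm s' _ ((morX h0 hm s 1).st hp)).2 ?_).trans
      (congrArg _ ((morX h0 hm s 1).mc_pt hp _).symm))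
  exact (Dat.yhc8a_perm _ g.1.1 (fun i => (top_Top h0 m).cc.2 (g.1.2 i)) p.1).sim.symm

theorem ovU_fam (a : ℕ) : (ovU h0 hm).fam (((top h0).dat m).NM a) = NU k m₁ h0 a :=
  Dg.Fam.ext (funext fun s => Set.ext fun x => by
    obtain ⟨p, hp, rfl⟩ := Dat.exists_pt (D := (Sl.wx s).dat m₁) x
    refine Iff.trans ?_ ((top_N h0 m m₁ a).trans (mem_NU h0 hp).symm)
    exact (iff_of_eq (congrArg (fun y => Dat.mq _ y ∈ Dat.NM _ a)
      ((morX h0 hm s 1).mc_pt hp ((morX h0 hm s 1).st hp)))).trans (Dat.mem_NM _))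

end Pool.Agent.CS
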