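import Pool.Agent.P.MP_d34769_ag.YHC9a
import Pool.Agent.P.MP_d34769_ag.YHC8a

/-! The chains over the semisimple points of one class. -/

open Set Matrix

set_option linter.unusedSectionVars false

noncomputable section
namespace Pool.Agent.CS
open Pool.Agent.P.MP_d34769_ag

variable {I : Type} [Fintype I] [DecidableEq I]

namespace Dat.Pol
variable {D : Dat I} {k : ℕ} (S : D.Pol k) (hD : D.Top) {π π' : List (Finset (Fin k))}
  {R : Finset (Fin (Fintype.card I))} {Φ : Matrix (Fin k) (I × Fin D.m) ℂ}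

/-- the data of the orthogonal lines -/
abbrev FF : LD Unit (I × Fin D.m) (Fin k) := S.ldF (Fin D.m)

include hD in
theorem stF (h : S.FF.Fr Φ) : D.St (S.P0, S.asm Φ) :=
  st_iff.2 ⟨hD.R_eq ▸ S.mem, S.ss, S.genF h⟩

theorem tri (hπ : Part π) : Tri (Ord (π.map (pre S.slot))) S.P0 := fun a i j h =>
  S.off a i j fun e => h (ord_pre.2 (e ▸ hπ.refl _))

theorem yhc9_act (hπ : Part π) (hR : R ⊆ rks (π.map (pre S.slot)))
    {A : Matrix (Fin k) (Fin k) ℂ} (hA : S.Blk A) (hu : IsUnit A.det)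
    (ht : ∀ a b, ¬ Ord π a b → A a b = 0) (h : S.FF.Fr Φ) (h' : S.FF.Fr (A * Φ)) :
    chn hD (S.sl.cm_pre hπ) (S.stF hD h') (S.tri hπ) hR =
      chn hD (S.sl.cm_pre hπ) (S.stF hD h) (S.tri hπ) hR :=
  have hg : S.ten A ∈ D.P := hD.P_eq ▸ (S.ten_fix hA hu).1
  (yhc7_congr (S.act_ten hA hu Φ).symm hR).trans (chn_act (hq := (S.stF hD h).act hg)
    (ht' := by rw [S.act_ten hA hu]; exact S.tri hπ) hg (fun i j c => by
      rw [S.ten_apply, ht _ _ (mt ord_pre.2 c), ite_self]) hR)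

theorem yhc9_un {A : Matrix (Fin k) (Fin k) ℂ} (h : S.FF.Fr Φ) (h' : S.FF.Fr (A * Φ)) :
    A * Aᴴ = 1 := by
  rw [← (S.frF_iff.1 h').2, conjTranspose_mul, Matrix.mul_assoc, ← Matrix.mul_assoc Φ,
    (S.frF_iff.1 h).2, Matrix.one_mul]

theorem yhc9_fr {A : Matrix (Fin k) (Fin k) ℂ} (hA : S.Blk A) (hu : A * Aᴴ = 1)
    (h : S.FF.Fr Φ) : S.FF.Fr (A * Φ) :=
  S.frF_iff.2 ⟨fun a x c => by
    rw [← S.phi_asm (S.frF_iff.1 h).1, ← S.phi_ten hA, S.phi_off _ a x c], by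
    rw [conjTranspose_mul, Matrix.mul_assoc, ← Matrix.mul_assoc Φ, (S.frF_iff.1 h).2,
      Matrix.one_mul, hu]⟩

theorem yhc9_ord {σ : Equiv.Perm (Fin k)} {w : Equiv.Perm I} (h : S.Lf σ w) (i j : I) :
    Ord ((π.map (pre ⇑σ⁻¹)).map (pre S.slot)) (w i) (w j) ↔ Ord (π.map (pre S.slot)) i j := by
  rw [ord_pre, ord_pre, ord_pre, h.slot, h.slot]
  simp

theorem exists_kap (hπ : Part π) (hR : R ⊆ rks (π.map (pre S.slot))) :
    ∃ f : C(Ln S.FF, (QP hD).Ch R), ∀ Φ (h : S.FF.Fr Φ),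
      f h.ln = chn hD (S.sl.cm_pre hπ) (S.stF hD h) (S.tri hπ) hR :=
  LD.exists_desc (fun _ h => chn hD (S.sl.cm_pre hπ) (S.stF hD h) (S.tri hπ) hR)
    (chn_cont (f := fun Φ : {Φ // S.FF.Fr Φ} => (S.P0, S.asm Φ.1))
      (continuous_const.prodMk (S.cont_asm.comp continuous_subtype_val)) _ _ hR)
    fun Φ h Ψ h' u hu e => by
      subst e
      exact S.yhc9_act hD hπ hR (S.blk_diagonal u) (by
        rw [det_diagonal]
        exact (Finset.prod_ne_zero_iff.2 fun a _ => hu a).isUnit)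
        (fun a b c => diagonal_apply_ne _ fun e => c (e ▸ hπ.refl a)) h h'

/-- the chain of initial sums of a frame -/
def kap (hπ : Part π) (hR : R ⊆ rks (π.map (pre S.slot))) : C(Ln S.FF, (QP hD).Ch R) :=
  (S.exists_kap hD hπ hR).choose

theorem kap_ln (hπ : Part π) (hR : R ⊆ rks (π.map (pre S.slot))) (h : S.FF.Fr Φ) :
    S.kap hD hπ hR h.ln = chn hD (S.sl.cm_pre hπ) (S.stF hD h) (S.tri hπ) hR :=
  (S.exists_kap hD hπ hR).choose_spec Φ h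

/-- the map from the constant diagram to the diagram of chains -/
def homK : Dg.Hom (wd_cox S.sl.surj).sh (Dg.cst (coxSh (Fin k)) (Ln S.FF)) (QP hD).dg where
  g {π _} h := S.kap hD π.2 h
  gl {π π' _} h h' x := by
    obtain ⟨Φ, hΦ, rfl⟩ := LD.exists_fr x
    exact (S.kap_ln hD π'.2 h' hΦ).trans
      ((chn_ref ((wd_cox S.sl.surj).rel h) _ h').symm.trans (S.kap_ln hD π.2 _ hΦ).symm)
  gr {π _ _} h h' x := by
    obtain ⟨Φ, hΦ, rfl⟩ := LD.exists_fr x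
    exact (congrArg _ (S.kap_ln hD π.2 h hΦ)).trans
      ((chn_face h h').trans (S.kap_ln hD π.2 _ hΦ).symm)

/-- the action on the constant diagram -/
abbrev actK : Dg.Act (Dg.cst (coxSh (Fin k)) (Ln S.FF)) S.W := (S.syF _).ta.cox S.W.subtype

theorem homK_inv : (S.homK hD).Inv S.actK := by
  refine ⟨fun σ π R => (one_mul _).trans (if_congr ?_ rfl rfl), fun σ π π' R e h h' x => ?_⟩
  · obtain ⟨w, hw⟩ := S.exists_lf σ
    exact Eq.congr_left (rks_rl w (π.2.pre S.sl.surj) ((S.actK.a σ π).2.pre S.sl.surj)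
      (S.yhc9_ord hw))
  · obtain ⟨w, hw⟩ := S.exists_lf σ
    obtain ⟨Φ, hΦ, rfl⟩ := LD.exists_fr x
    subst e
    exact (congrArg _ ((S.syF _).ta_ln σ hΦ)).trans ((S.kap_ln hD (S.actK.a σ π).2 h' _).trans
      ((chn_rl w hw.col hw.P0 (hw.asm Φ) (S.yhc9_ord hw) h h').trans (S.kap_ln hD π.2 h hΦ).symm))

/-- the points of the closed orbit -/
def PS : Set D.XS := {x | ∃ p hp, pt p hp = x ∧ D.Iso S.P0 p.1}

theorem mem_PS {x : D.XS} :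
    x ∈ S.PS ↔ ∃ Φ, ∃ h : S.FF.Fr Φ, x = pt (S.P0, S.asm Φ) (S.stF hD h) := by
  refine ⟨?_, fun ⟨Φ, h, e⟩ => ⟨_, _, e.symm, Iso.refl _⟩⟩
  rintro ⟨p, hp, rfl, g, hg, e⟩
  have h1 : g⁻¹ ∈ D.P := hD.P_eq ▸ inv_mem_P hg
  have h2 : act g⁻¹ p = (S.P0, S.asm (S.Phi (g⁻¹ * p.2))) :=
    Prod.ext (by rw [act, ← e, actR_inv hg.2]) (S.asm_phi _).symm
  have h3 := (st_iff.1 (h2 ▸ hp.act h1)).2.2
  rw [S.asm_phi] at h3
  obtain ⟨A, hA, hu, h⟩ := S.exists_frF h3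
  exact ⟨_, h, (pt_eq_iff _ _).2 ⟨_, mul_mem_P (hD.P_eq ▸ (S.ten_fix hA hu).1) h1, by
    rw [act_mul, h2, S.act_ten hA hu]⟩⟩

include hD in
theorem PS_closed : IsClosed S.PS := by
  obtain ⟨π, hπ, -⟩ := yhc1_word fun _ : Fin k => 0
  have e : S.PS = range (((QP hD).pr ∅).comp (S.kap hD hπ (Finset.empty_subset _))) := by
    ext x
    rw [S.mem_PS hD]
    constructor
    · rintro ⟨Φ, h, rfl⟩
      exact ⟨h.ln, congrArg ((QP hD).pr ∅) (S.kap_ln hD hπ _ h)⟩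
    · rintro ⟨y, rfl⟩
      obtain ⟨Φ, h, rfl⟩ := LD.exists_fr y
      exact ⟨Φ, h, congrArg ((QP hD).pr ∅) (S.kap_ln hD hπ _ h)⟩
  rw [e]
  exact (isCompact_range (map_continuous _)).isClosed

theorem kap_sur (y : (QP hD).Ch R) (hy : (QP hD).pr R y ∈ S.PS) :
    ∃ (π : List (Finset (Fin k))) (hπ : Part π) (e : rks (π.map (pre S.slot)) = R) (x : Ln S.FF),
      S.kap hD hπ e.ge x = y := by
  obtain ⟨Φ, h, e⟩ := (S.mem_PS hD).1 hy
  obtain ⟨U, h1, h2⟩ := exists_sub y e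
  obtain ⟨A, hu, hA, T, h3, h4⟩ := S.chain U h2 fun r => (h1 r).1
  have u1 : A * Aᴴ = 1 := mem_unitaryGroup_iff.1 hu
  have u2 := isUnit_det_of_right_inverse u1
  have h' := S.yhc9_fr (S.blk_star hA)
    (by rw [conjTranspose_conjTranspose]; exact mem_unitaryGroup_iff'.1 hu) h
  have hg := (S.ten_fix hA u2).1
  have e1 : act (S.ten A) (S.P0, S.asm (Aᴴ * Φ)) = (S.P0, S.asm Φ) := by
    rw [S.act_ten hA u2, ← Matrix.mul_assoc, u1, Matrix.one_mul]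
  obtain ⟨u, hu, ht, e2, h5, h6⟩ := chn_of_sp (hp := S.stF hD h') y
    (e.trans ((pt_eq_iff _ _).2 ⟨_, hD.P_eq ▸ hg, e1.symm⟩).symm) (fun r => pre S.slot (T r))
    fun r => by
      rw [(h1 r).2, h4, ← e1, yhc6_nn hg]
      exact congrArg (fun F => D.Nn _ (sp F)) (Set.ext fun i => by simp)
  obtain ⟨π, hπ, h7⟩ := exists_word (range T)
    (by
      rintro _ ⟨r, rfl⟩
      have := (h5 _).2 ⟨r, rfl⟩
      exact ⟨fun c => this.ne (Finset.ext fun i => by simp [c]),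
        fun c => this.nu (Finset.ext fun i => by simp [c])⟩)
    (by
      rintro _ ⟨r, rfl⟩ _ ⟨r', rfl⟩
      exact (h2 r r').imp (h3 r r').1 (h3 r' r).1)
  obtain rfl : u = π.map (pre S.slot) := hu.1.ext_dn (hπ.pre S.sl.surj) fun G => by
    rw [h5, dn_pre S.sl.surj hπ]
    exact ⟨fun ⟨r, c⟩ => ⟨_, (h7 _).2 ⟨r, rfl⟩, c⟩, fun ⟨b, c, c'⟩ => by
      obtain ⟨r, rfl⟩ := (h7 _).1 c
      exact ⟨r, c'⟩⟩
  exact ⟨π, hπ, e2, h'.ln, (S.kap_ln hD hπ _ h').trans h6⟩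

theorem kap_orb (hπ : Part π) (hπ' : Part π') (e : rks (π.map (pre S.slot)) = R)
    (e' : rks (π'.map (pre S.slot)) = R) {x x' : Ln S.FF}
    (h : S.kap hD hπ e.ge x = S.kap hD hπ' e'.ge x') :
    ∃ σ : S.W, π.map (pre ⇑σ.1⁻¹) = π' := by
  obtain ⟨Φ, hΦ, rfl⟩ := LD.exists_fr x
  obtain ⟨Ψ, hΨ, rfl⟩ := LD.exists_fr x'
  rw [S.kap_ln, S.kap_ln] at h
  obtain ⟨g, hg, e1, e2⟩ := (chn_eq_iff _ _).1 h
  obtain ⟨A, hA, hu, rfl, -⟩ := S.exists_aut (D.P_le hg) e1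
  obtain ⟨σ, hσ⟩ := exists_perm hu
  have hW : σ ∈ S.W := fun a => by_contra fun c => hσ a (hA _ _ c)
  obtain ⟨w, hw⟩ := S.exists_lf ⟨σ, hW⟩
  have e3 := (hπ.pre S.sl.surj).eq_pre (hπ'.pre S.sl.surj) w (e.trans e'.symm)
    fun F F' hF hF' c i hi => by_contra fun c' => hσ (S.slot i) (by
      have := e2 F F' hF hF' c (e ▸ hF.mem_rks) _ _ c' hi
      rwa [S.ten_apply, if_pos (hw.tau i), hw.slot] at this)
  refine ⟨⟨σ, hW⟩, (hπ.pre σ⁻¹.surjective).ext hπ' fun a b => ?_⟩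
  obtain ⟨i, rfl⟩ := (S.sl.surj.comp w.surjective) a
  obtain ⟨j, rfl⟩ := (S.sl.surj.comp w.surjective) b
  refine (ord_pre (s := S.slot) (i := w i) (j := w j)).symm.trans ((S.yhc9_ord hw i j).trans ?_)
  rw [e3, ord_pre, ord_pre]
  rfl

theorem kap_fib (hπ : Part π) (e : rks (π.map (pre S.slot)) = R) (h : S.FF.Fr Φ) :
    S.kap hD hπ e.ge ⁻¹' {S.kap hD hπ e.ge h.ln} =
      h.fib fun a b => S.c a = S.c b ∧ Ord π a b ∧ Ord π b a := by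
  ext x
  constructor
  · intro hx
    obtain ⟨Ψ, h', rfl⟩ := LD.exists_fr x
    obtain ⟨g, hg, e1, e2⟩ := chn_inj e ((S.kap_ln hD hπ _ h).symm.trans
      ((Eq.symm hx).trans (S.kap_ln hD hπ _ h')))
    obtain ⟨A, hA, -, rfl, e3⟩ := S.exists_aut (D.P_le hg) e1
    rw [S.phi_asm (S.frF_iff.1 h).1, S.phi_asm (S.frF_iff.1 h').1] at e3
    subst e3
    have h1 : ∀ a b, A a b ≠ 0 → Ord π a b := fun a b c => by
      obtain ⟨i, j, rfl, rfl, c'⟩ := S.ten_ne hA c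
      exact ord_pre.1 (by_contra fun n => c' (e2 i j n))
    refine ⟨A, h', fun a b c => ⟨by_contra fun n => c (hA a b n), h1 a b c,
      e4_inv hπ.refl (fun _ _ _ => Ord.trans hπ.pw) h1 b a ?_⟩, rfl⟩
    rw [inv_eq_right_inv (S.yhc9_un h h'), conjTranspose_apply]
    exact star_ne_zero.2 c
  · rintro ⟨A, h', h1, rfl⟩
    exact (S.kap_ln hD hπ _ h').trans ((S.yhc9_act hD hπ _
      (fun a b n => by_contra fun c => n (h1 a b c).1)
      (isUnit_det_of_right_inverse (S.yhc9_un h h'))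
      (fun a b n => by_contra fun c => n (h1 a b c).2.1) h h').trans (S.kap_ln hD hπ _ h).symm)

theorem homK_fib (R : (Sh.simp (Fin (Fintype.card I))).ι) (y : (QP hD).dg.X R)
    (hy : (QP hD).pr R y ∈ S.PS) : (S.homK hD).Fib (wd_cox S.sl.surj).mu S.actK R y := by
  obtain ⟨π, hπ, e, x, rfl⟩ := S.kap_sur hD y hy
  obtain ⟨Φ, h, rfl⟩ := LD.exists_fr x
  refine (S.homK_inv hD).fib_all _ (l₀ := ⟨π, hπ⟩) e.ge e ⟨_, rfl⟩ (fun l _ x e' hx => ?_)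
    fun n c hc hi => ?_
  · obtain ⟨σ, hσ⟩ := S.kap_orb hD l.2 hπ e' e hx
    exact ⟨σ, Subtype.ext hσ⟩
  · change c ∈ (CP (S.kap hD hπ e.ge ⁻¹' _) ∅).Z n at hc
    change ∃ a : ℂ, c - a • 1 ∈ (CP (S.kap hD hπ e.ge ⁻¹' _) ∅).B n
    rw [S.kap_fib hD hπ e] at hc ⊢
    refine h.fib_const (S.syF _) ⟨fun a => ⟨rfl, hπ.refl a, hπ.refl a⟩,
      fun c => ⟨c.1.symm, c.2.2, c.2.1⟩, fun c d => ⟨c.1.trans d.1, c.2.1.trans hπ.pw d.2.1,
        d.2.2.trans hπ.pw c.2.2⟩⟩ (fun _ _ c => c.1)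
      (fun w c => ⟨⟨w, fun a => (c a).1.symm⟩, rfl⟩) hc fun g c => hi g (Subtype.ext
        ((hπ.pre g.1⁻¹.surjective).ext hπ fun a b => ?_))
    obtain ⟨a, rfl⟩ := g.1.surjective a
    obtain ⟨b, rfl⟩ := g.1.surjective b
    rw [ord_pre, Equiv.Perm.coe_inv, Equiv.symm_apply_apply, Equiv.symm_apply_apply]
    exact ⟨fun d => ((c a).2.2.trans hπ.pw d).trans hπ.pw (c b).2.1,
      fun d => ((c a).2.1.trans hπ.pw d).trans hπ.pw (c b).2.2⟩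

theorem homK_pre : (S.homK hD).Pre (fun π => rks (π.1.map (pre S.slot))) ⊤
    ((QP hD).ov.fam S.PS) := fun {π R} h _ => (eq_univ_of_forall fun x => by
  obtain ⟨Φ, hΦ, rfl⟩ := LD.exists_fr x
  exact (S.mem_PS hD).2 ⟨Φ, hΦ, congrArg ((QP hD).pr R) (S.kap_ln hD π.2 h hΦ)⟩).symm

theorem stkA :
    (Dg.bc ((QP hD).ov.fam S.PS) ⊥).cx.Mor (S.actK.bc S.actK.inv_top S.actK.inv_bot).cx
      (S.homK hD).map 0 ∧
    (Dg.bc ((QP hD).ov.fam S.PS) ⊥).cx.QIa (S.actK.bc S.actK.inv_top S.actK.inv_bot).cx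
      (S.homK hD).map 0 :=
  have e : (S.homK hD).Pre (fun π => rks (π.1.map (pre S.slot))) ⊥ ⊥ := fun _ _ => rfl
  ⟨((S.homK_inv hD).mor (wd_cox S.sl.surj).mu (S.homK_pre hD) e _ _).cx,
    (S.homK_inv hD).desc (wd_cox S.sl.surj).mu (Dg.Ov.fam_cl _ (S.PS_closed hD)) Dg.Fam.cl_bot
      (S.homK_pre hD) e _ _ fun R y hy => S.homK_fib hD R y hy.1⟩

/-- only the closed orbit matters -/
theorem stkB {V : Set D.XS} (hV : IsClosed V) (h : ∀ p hp, pt p hp ∈ V ↔ D.Sim p.1 S.P0) :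
    (Dg.bc ((QP hD).ov.fam V) ⊥).cx.Mor (Dg.bc ((QP hD).ov.fam S.PS) ⊥).cx LinearMap.id 0 ∧
    (Dg.bc ((QP hD).ov.fam V) ⊥).cx.QIa (Dg.bc ((QP hD).ov.fam S.PS) ⊥).cx LinearMap.id 0 := by
  have h1 : ∀ R, ((QP hD).ov.fam S.PS).A R ⊆ ((QP hD).ov.fam V).A R := fun R =>
    preimage_mono fun _ ⟨p, hp, e, c⟩ => e ▸ (h p hp).2 c.sim.symm
  refine ⟨(Dg.mor_id h1 fun _ => Subset.rfl).cx, fun n => ?_⟩
  rw [← Dg.cx_quo (A := ⊥) (A₁ := ⊥) h1]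
  refine Cx.qi_quo _ _ fun l _ => ?_
  rw [Dg.cx_sub, Dg.Fam.bot_sup]
  refine GP.cone hV (S.PS_closed hD) (fun t ht => ?_) l
  obtain ⟨p, hp, rfl⟩ := exists_pt t
  exact QP_cone hD hp fun c => ht.2 ⟨p, hp, rfl, ((h p hp).1 ht.1).symm.iso S.sem c⟩

end Dat.Pol

end Pool.Agent.CS
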