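import Pool.Agent.P.MP_d34769_ag.YHC3
import Pool.Agent.P.MP_d34769_ag.YE8b

/-! Frames that belong to a direct sum of stable blocks. -/

open Set Matrix

set_option linter.unusedSectionVars false

noncomputable section
namespace Pool.Agent.CS

variable {I : Type} [Fintype I] [DecidableEq I]

theorem op_pr (F : Finset I) : OP F.card (pr (F : Set I)) :=
  ⟨pr_star _, by rw [pr_mul_pr, inter_self], by simp [pr]⟩

namespace Dat.Pol
variable {D : Dat I} {k : ℕ} (S : D.Pol k) (μ : Type) [Fintype μ] [DecidableEq μ]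

/-- the coordinates of the representative of the slot `a` -/
def cs (a : Fin k) : Finset (I × μ) :=
  Finset.univ.filter fun x => ∃ i, S.slot i = a ∧ S.tau i = x.1

theorem cs_eq {a b : Fin k} (h : S.c a = S.c b) : S.cs μ a = S.cs μ b := by
  have key : ∀ {a b}, S.c a = S.c b → S.cs μ a ⊆ S.cs μ b := fun {a b} h x hx => by
    obtain ⟨i, rfl, e⟩ := (Finset.mem_filter.1 hx).2
    obtain ⟨j, h1, h2⟩ := S.surj b i h.symm
    exact Finset.mem_filter.2 ⟨Finset.mem_univ _, j, h1, h2.trans e⟩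
  exact (key h).antisymm (key h.symm)

theorem card_cs (a : Fin k) : Fintype.card μ ≤ (S.cs μ a).card := by
  obtain ⟨i, rfl⟩ := S.sl.surj a
  exact Finset.card_le_card_of_injOn (s := Finset.univ) (fun r => (S.tau i, r))
    (fun r _ => Finset.mem_filter.2 ⟨Finset.mem_univ _, i, rfl, rfl⟩)
    fun _ _ _ _ e => congrArg Prod.snd e

/-- lines in the coordinates of the representatives, orthogonal inside the classes of `e` -/
def ld {e : Fin k → Fin k → Prop} (he : Equivalence e) (hc : ∀ a b, e a b → S.c a = S.c b) :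
    LD Unit (I × μ) (Fin k) where
  cl := e
  eqv := he
  r a := (S.cs μ a).card
  P a := Bun.const Unit (op_pr (S.cs μ a))
  req a b h := by rw [S.cs_eq μ (hc a b h)]
  eq a b h := funext fun _ => congrArg (fun F : Finset (I × μ) => pr (F : Set (I × μ)))
    (S.cs_eq μ (hc a b h))

/-- orthogonal lines -/
abbrev ldF : LD Unit (I × μ) (Fin k) := S.ld μ S.c_equiv fun _ _ => id

/-- arbitrary lines -/
abbrev ldP : LD Unit (I × μ) (Fin k) := S.ld μ eq_equivalence fun _ _ => congrArg _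

/-- the permutations of the slots that keep the types -/
def W : Subgroup (Equiv.Perm (Fin k)) where
  carrier := {σ | ∀ a, S.c (σ a) = S.c a}
  mul_mem' ha hb a := (ha _).trans (hb a)
  one_mem' _ := rfl
  inv_mem' {σ} h a := by simpa using (h (σ⁻¹ a)).symm

instance : Fintype S.W := Fintype.ofFinite _

theorem syF : (S.ldF μ).Sy S.W.subtype :=
  ⟨fun g a => (S.ldF μ).eq _ _ (g.2 a), fun g a b h => (g.2 a).trans (h.trans (g.2 b).symm)⟩

theorem syP : (S.ldP μ).Sy S.W.subtype :=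
  ⟨fun g a => (S.ldF μ).eq _ _ (g.2 a), fun g _ _ h => congrArg g.1 h⟩

theorem ldP_n {n : ℕ} (hn : n < Fintype.card μ) (a : Fin k) :
    (S.ldP μ).n a + n ≤ (S.ldP μ).r a := by
  have h1 : (S.ldP μ).n a = 1 := Nat.card_unique (α := {b // a = b})
  have h2 : Fintype.card μ ≤ (S.ldP μ).r a := S.card_cs μ a
  omega

variable {μ} {Φ : Matrix (Fin k) (I × μ) ℂ}

theorem le_iff {a : Fin k} {v : I × μ → ℂ} : pr (S.cs μ a : Set (I × μ)) *ᵥ v = v ↔
    ∀ x : I × μ, (∀ i, S.slot i = a → S.tau i ≠ x.1) → v x = 0 := by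
  rw [pr_eq_self, mem_sp]
  simp [cs]

theorem frP_iff : (S.ldP μ).Fr Φ ↔
    (∀ a x, (∀ i, S.slot i = a → S.tau i ≠ x.1) → Φ a x = 0) ∧
      ∀ a, star (Φ a) ⬝ᵥ Φ a = 1 :=
  ⟨fun h => ⟨fun a => S.le_iff.1 (h.le a), h.unit⟩,
    fun h => ⟨fun a => S.le_iff.2 (h.1 a), h.2, fun _ _ n c => (n c).elim⟩⟩

variable (μ) in
theorem neP [Nonempty μ] : Nonempty (Ln (S.ldP μ)) := by
  choose i hi using S.sl.surj
  obtain ⟨r⟩ := ‹Nonempty μ›
  exact ⟨(S.frP_iff (Φ := of fun a => Pi.single (S.tau (i a), r) 1)).2 ⟨fun a x h =>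
    Pi.single_eq_of_ne (fun e => h _ (hi a) (by rw [e])) _, fun a => by
      change star (Pi.single _ 1) ⬝ᵥ Pi.single _ 1 = _
      simp⟩ |>.ln⟩

theorem frF_iff : (S.ldF μ).Fr Φ ↔
    (∀ a x, (∀ i, S.slot i = a → S.tau i ≠ x.1) → Φ a x = 0) ∧ Φ * Φᴴ = 1 := by
  have e : ∀ a b, (Φ * Φᴴ) a b = star (Φ b) ⬝ᵥ Φ a := fun a b => dotProduct_comm _ _
  refine ⟨fun h => ⟨fun a => S.le_iff.1 (h.le a), Matrix.ext fun a b => ?_⟩, fun h =>
    ⟨fun a => S.le_iff.2 (h.1 a), fun a => by rw [← e, h.2, one_apply_eq],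
      fun a b n _ => by rw [← e, h.2, one_apply_ne n.symm]⟩⟩
  rw [e]
  by_cases n : a = b
  · rw [n, h.unit, one_apply_eq]
  rw [one_apply_ne n]
  by_cases c : S.c b = S.c a
  · exact h.orth b a (Ne.symm n) c
  refine Finset.sum_eq_zero fun x _ => ?_
  by_cases k : ∃ i, S.slot i = a ∧ S.tau i = x.1
  · obtain ⟨i, rfl, k⟩ := k
    rw [Pi.star_apply, S.le_iff.1 (h.le b) x fun j h3 h4 =>
      c (by rw [← h3, S.c_eq (h4.trans k.symm)]), star_zero, zero_mul]
  · rw [S.le_iff.1 (h.le a) x fun i h3 h4 => k ⟨i, h3, h4⟩, mul_zero]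

/-- `w` lifts the permutation `σ` of the slots -/
structure Lf (σ : Equiv.Perm (Fin k)) (w : Equiv.Perm I) : Prop where
  slot : ∀ i, S.slot (w i) = σ (S.slot i)
  tau : ∀ i, S.tau (w i) = S.tau i

theorem exists_lf (σ : S.W) : ∃ w, S.Lf σ.1 w := by
  choose w h1 h2 using fun i => S.surj (σ.1 (S.slot i)) i (σ.2 _)
  exact ⟨Equiv.ofBijective w (Finite.injective_iff_bijective.1 fun i j e => S.inj i j
    (by rw [← h2, e, h2]) (σ.1.injective (by rw [← h1, e, h1]))), h1, h2⟩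

variable {S} {σ : Equiv.Perm (Fin k)} {w : Equiv.Perm I}

theorem Lf.col (h : S.Lf σ w) (i : I) : D.col (w i) = D.col i := by
  rw [← (S.cc_tau (w i)).1, h.tau, (S.cc_tau i).1]

theorem Lf.P0 (h : S.Lf σ w) (a : Fin 3) (i j : I) : S.P0 a (w i) (w j) = S.P0 a i j := by
  by_cases e : S.slot i = S.slot j
  · exact S.dep a _ _ i j (by rw [h.slot, h.slot, e]) e (h.tau i) (h.tau j)
  · rw [S.off a i j e, S.off a _ _ fun c => e (σ.injective (by rwa [h.slot, h.slot] at c))]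

theorem Lf.asm (h : S.Lf σ w) (Φ : Matrix (Fin k) (I × μ) ℂ) (i : I) (r : μ) :
    S.asm (Φ.submatrix ⇑σ⁻¹ id) (w i) r = S.asm Φ i r := by
  simp [Pol.asm, h.slot, h.tau]

variable (S)

theorem ten_diagonal (u : Fin k → ℂ) : S.ten (diagonal u) = diagonal fun i => u (S.slot i) := by
  ext i j
  by_cases h : i = j
  · subst h; simp [ten_apply]
  · rw [ten_apply, diagonal_apply_ne _ h]
    split_ifs with e
    exacts [diagonal_apply_ne _ fun e' => h (S.inj _ _ e e'), rfl]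

theorem ten_ne {A : Matrix (Fin k) (Fin k) ℂ} (hA : S.Blk A) {a b : Fin k} (h : A a b ≠ 0) :
    ∃ i j, S.slot i = a ∧ S.slot j = b ∧ S.ten A i j ≠ 0 := by
  obtain ⟨i, rfl⟩ := S.sl.surj a
  obtain ⟨j, rfl, e⟩ := S.surj b i (by_contra fun c => h (hA _ _ (Ne.symm c)))
  exact ⟨i, j, rfl, rfl, by rwa [ten_apply, if_pos e.symm]⟩

theorem act_ten {m : ℕ} {A : Matrix (Fin k) (Fin k) ℂ} (hA : S.Blk A) (hu : IsUnit A.det)
    (Φ : Matrix (Fin k) (I × Fin m) ℂ) :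
    act (S.ten A) (S.P0, S.asm Φ) = (S.P0, S.asm (A * Φ)) :=
  Prod.ext (S.ten_fix hA hu).2 (S.ten_asm hA Φ)

/-- an automorphism that carries one framing to another one -/
theorem exists_aut {m : ℕ} {g : Matrix I I ℂ} (hg : g ∈ D.base.P) {f f' : Matrix I (Fin m) ℂ}
    (h : (S.P0, f') = act g (S.P0, f)) :
    ∃ A, S.Blk A ∧ IsUnit A.det ∧ g = S.ten A ∧ S.Phi f' = A * S.Phi f := by
  obtain ⟨A, hA, rfl⟩ := S.exists_ten hg.1 ((actR_eq_iff hg.2).1 (congrArg Prod.fst h).symm)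
  exact ⟨A, hA, (S.ten_unit hA).1 hg.2, rfl,
    (congrArg S.Phi (congrArg Prod.snd h)).trans (S.phi_ten hA f)⟩

theorem genF (h : (S.ldF μ).Fr Φ) : D.Gen S.P0 (S.asm Φ) := by
  obtain ⟨h1, h2⟩ := S.frF_iff.1 h
  rw [S.gen_iff, S.phi_asm h1, ← vecMul_injective_iff]
  intro v w e
  simpa [h2] using congrArg (· ᵥ* Φᴴ) e

theorem exists_frF {f : Matrix I μ ℂ} (hf : D.Gen S.P0 f) :
    ∃ A, S.Blk A ∧ IsUnit A.det ∧ (S.ldF μ).Fr (A * S.Phi f) := by
  obtain ⟨A, hA, hu, h⟩ := S.orth hf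
  exact ⟨A, hA, hu, S.phi_ten hA f ▸ S.frF_iff.2 ⟨S.phi_off _, h⟩⟩

theorem cont_asm : Continuous (S.asm : Matrix (Fin k) (I × μ) ℂ → Matrix I μ ℂ) :=
  continuous_matrix fun _ _ => continuous_apply_apply _ _

end Dat.Pol

end Pool.Agent.CS
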