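import Pool.Agent.P.MP_d34769_ag.YHC9a
import Pool.Agent.P.MP_d34769_ag.YHC8a

/-! The products over one class. -/

open Set Matrix

set_option linter.unusedSectionVars false

noncomputable section
namespace Pool.Agent.CS
open Pool.Agent.P.MP_d34769_ag

variable {I : Type} [Fintype I] [DecidableEq I] {col : I → Fin 3} {th : Fin 3 → ℤ} {k m : ℕ}
  {h0 : Adm col th [[Finset.univ]]} (S : ((top h0).dat m).Pol k) (m₁ : ℕ)

namespace Dat.Pol

/-- the slots of the normal form -/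
def s0 : Sl col th k := ⟨S.slot, S.sl.surj, S.sl.bal⟩

/-- the data of the lines -/
abbrev PP : LD Unit (I × Fin m₁) (Fin k) := S.ldP (Fin m₁)

variable {m₁} {Ψ : Matrix (Fin k) (I × Fin m₁) ℂ}

theorem yhcb_sub {ρ : Rp I} {U : Submodule ℂ (I → ℂ)} (h : (S.s0.wx.dat m₁).Sub ρ U) :
    ((top h0).dat m).Sub ρ U :=
  ye2_sub_mono (E := (top h0).dat m) (D := S.s0.wx.dat m₁) rfl
    (fun i j _ => (top_Top h0 m).cp i j) h

theorem yhcb_ss : (S.s0.wx.dat m₁).SS th S.P0 := fun U hU => S.ss U (S.yhcb_sub hU)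

theorem yhcb_A (T : Set (Fin k)) : (S.s0.wx.dat m₁).A S.P0 (sp (S.slot ⁻¹' T)) :=
  ⟨sub_sp.2 (sub_sp.1 (S.a_slot T).1), (S.a_slot T).2⟩

theorem stP_iff {f : Matrix I (Fin m₁) ℂ} :
    (S.s0.wx.dat m₁).St (S.P0, f) ↔ ∀ a, S.Phi f a ≠ 0 := by
  refine ⟨fun h a e => ?_, fun h => st_iff.2 ⟨fun a i j c => ?_, S.yhcb_ss,
    (Dat.gen_iff S.yhcb_ss).2 fun U hU hf => ?_⟩⟩
  · have h1 := (Dat.gen_iff S.yhcb_ss).1 (st_iff.1 h).2.2 _ (S.yhcb_A {a}ᶜ) fun r =>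
      mem_sp.2 fun i hi => (S.phi_val f i r).symm.trans (by rw [not_not.1 hi, e]; rfl)
    obtain ⟨i, hi⟩ := S.sl.surj a
    exact sp_inj.1 (h1.trans sp_univ.symm) ▸ mem_univ i <| hi
  · by_cases e : S.slot i = S.slot j
    · exact S.mem a i j fun d => c ⟨d.1, d.2.1, S.s0.rl_iff.2 e⟩
    · exact S.off a i j e
  · have h4 : ∀ a, sp {i | S.slot i = a} ≤ U := fun a => by
      have h5 := hU.inf S.yhcb_ss (S.yhcb_A {a})
      obtain ⟨x, hx⟩ := Function.ne_iff.1 (h a)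
      obtain ⟨i, hi, h6⟩ := Finset.exists_ne_zero_of_sum_ne_zero hx
      by_contra h7
      refine ((S.stb a).2 _ (S.yhcb_sub h5.1) inf_le_right (fun c => h6 ?_)
        fun c => h7 (inf_eq_right.1 c)).ne h5.2
      have h8 := congrFun ((Submodule.eq_bot_iff _).1 c _ ⟨hU.1.pr_mem (Dat.cc_eq _)
        (F := {i | S.slot i = a}) (fun i j e hi => (S.s0.cp_iff.1 e.2).symm.trans hi) (hf x.2),
        prmem_YE1 _ _⟩) i
      rwa [pr_mulVec, if_pos (show i ∈ {i | S.slot i = a} from (Finset.mem_filter.1 hi).2.1)] at h8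
    refine eq_top_iff.2 fun v _ => ?_
    rw [← Finset.univ_sum_single v]
    refine Submodule.sum_mem _ fun i _ =>
      h4 (S.slot i) (mem_sp.2 fun j hj => Pi.single_eq_of_ne ?_ _)
    rintro rfl
    exact hj rfl

theorem stP (h : (S.PP m₁).Fr Ψ) : (S.s0.wx.dat m₁).St (S.P0, S.asm Ψ) :=
  S.stP_iff.2 fun a c => h.ne a ((congrFun (S.phi_asm (S.frP_iff.1 h).1) a).symm.trans c)

theorem yhcb_diag {u : Fin k → ℂ} (hu : ∀ a, u a ≠ 0) {Φ : Matrix (Fin k) (I × Fin m₁) ℂ}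
    (e : Ψ = diagonal u * Φ) (h : (S.s0.wx.dat m₁).St (S.P0, S.asm Φ))
    (h' : (S.s0.wx.dat m₁).St (S.P0, S.asm Ψ)) :
    pt (S.P0, S.asm Ψ) h' = pt (D := S.s0.wx.dat m₁) (S.P0, S.asm Φ) h := by
  have h1 : IsUnit (diagonal u).det := by
    rw [det_diagonal]
    exact isUnit_iff_ne_zero.2 (Finset.prod_ne_zero_iff.2 fun a _ => hu a)
  exact ((pt_eq_iff h h').2 ⟨S.ten (diagonal u), ⟨S.ten_diagonal u ▸ diagonal_mem_Lie _ _,
    (S.ten_unit (S.blk_diagonal u)).2 h1⟩, e ▸ (S.act_ten (S.blk_diagonal u) h1 Φ).symm⟩).symm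

variable (m₁) in
theorem exists_xi : ∃ ξ : C(Ln (S.PP m₁), (S.s0.wx.dat m₁).XS), ∀ Ψ (h : (S.PP m₁).Fr Ψ),
    ξ h.ln = pt (S.P0, S.asm Ψ) (S.stP h) :=
  LD.exists_desc (fun Ψ h => pt (D := S.s0.wx.dat m₁) (S.P0, S.asm Ψ) (S.stP h))
    (cont_pt (continuous_const.prodMk (S.cont_asm.comp continuous_subtype_val)) _)
    fun _ _ _ _ _ hu e => S.yhcb_diag hu e _ _

variable (m₁) in
/-- the product of projective spaces as a fibre -/
def xi : C(Ln (S.PP m₁), (S.s0.wx.dat m₁).XS) := (S.exists_xi m₁).choose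

theorem xi_ln (h : (S.PP m₁).Fr Ψ) : S.xi m₁ h.ln = pt (S.P0, S.asm Ψ) (S.stP h) :=
  (S.exists_xi m₁).choose_spec Ψ h

theorem xi_inj : Function.Injective (S.xi m₁) := fun x y e => by
  obtain ⟨Φ, h, rfl⟩ := LD.exists_fr x
  obtain ⟨Ψ, h', rfl⟩ := LD.exists_fr y
  rw [xi_ln, xi_ln] at e
  obtain ⟨g, hg, e⟩ := (pt_eq_iff _ _).1 e
  obtain ⟨A, hA, -, rfl, e'⟩ := S.exists_aut (m := m₁) (f := S.asm Φ) (f' := S.asm Ψ) (g := g)
    ⟨fun i j c => hg.1 i j fun d => c ⟨d.1, (top_Top h0 m).cp i j⟩, hg.2⟩ e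
  rw [S.phi_asm (S.frP_iff.1 h).1, S.phi_asm (S.frP_iff.1 h').1] at e'
  have h1 : A = diagonal fun a => A a a := by
    ext a b
    by_cases c : a = b
    · rw [c, diagonal_apply_eq]
    · rw [diagonal_apply_ne _ c]
      by_contra d
      obtain ⟨i, j, rfl, rfl, d'⟩ := S.ten_ne hA d
      exact d' (hg.1 i j fun n => c (S.s0.gl_iff.1 n.2))
  rw [h1] at e'
  exact (h.ln_eq_iff h').2 ⟨_, fun a c => h'.ne a (by rw [e', yhc3_diag, c, zero_smul]), e'⟩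

theorem mem_range_xi {z : (S.s0.wx.dat m₁).XS} :
    z ∈ range (S.xi m₁) ↔ ∃ f hf, z = pt (D := S.s0.wx.dat m₁) (S.P0, f) hf := by
  constructor
  · rintro ⟨x, rfl⟩
    obtain ⟨Φ, h, rfl⟩ := LD.exists_fr x
    exact ⟨_, _, S.xi_ln h⟩
  · rintro ⟨f, hf, rfl⟩
    have h1 := S.stP_iff.1 hf
    obtain ⟨Φ, h, e⟩ := LD.exists_fr (D := S.PP m₁) ⟨((), fun a => lnv (S.Phi f a)),
      fun a => ⟨OP.lnv (h1 a), le_lnv (S.le_iff.2 (S.phi_off f a))⟩, fun _ _ n c => (n c).elim⟩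
    choose u hu using fun a => (lnv_eq_iff (h1 a) (h.ne a)).1 (congrArg (Ln.l _ a).Q e).symm
    refine ⟨h.ln, (S.xi_ln h).trans ((S.yhcb_diag (u := u)
      (fun a c => h.ne a (by rw [hu, c, zero_smul]))
      (funext fun a => (hu a).trans (yhc3_diag u _ a).symm) ((S.asm_phi f).symm ▸ hf) _).trans
      (Subtype.ext (congrArg (fun x => Dat.pt0 _ (S.P0, x)) (S.asm_phi f))))⟩

theorem yhcb_mem {q : Pt I m₁} (hq : (S.s0.wx.dat m₁).St q) :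
    pt q hq ∈ range (S.xi m₁) ↔ ∃ g ∈ (S.s0.wx.dat m₁).P, actR g S.P0 = q.1 := by
  rw [mem_range_xi]
  constructor
  · rintro ⟨f, hf, e⟩
    obtain ⟨g, hg, e⟩ := (pt_eq_iff _ _).1 e.symm
    exact ⟨g, hg, (congrArg Prod.fst e).symm⟩
  · rintro ⟨g, hg, e⟩
    have h1 : act g⁻¹ q = (S.P0, g⁻¹ * q.2) :=
      Prod.ext ((congrArg (actR g⁻¹) e.symm).trans (actR_inv hg.2 _)) rfl
    exact ⟨_, h1 ▸ hq.act (inv_mem_P hg), (pt_eq_iff _ _).2 ⟨_, inv_mem_P hg, h1.symm⟩⟩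

theorem xi_cov (s : Sl col th k) {p : Pt I m₁} (hp : (s.wx.dat m₁).St p)
    (h : ((top h0).dat m).Sim p.1 S.P0) : ∃ g, ∃ e : actS col th k g s = S.s0,
      (morU g e m₁).mc (pt p hp) ∈ range (S.xi m₁) := by
  have hb : ∀ a i j, s.1 i ≠ s.1 j → p.1 a i j = 0 := fun a i j n =>
    hp.mem a i j fun c => n (s.rl_iff.1 c.2.2)
  have hs : ((top h0).dat m).SS th p.1 := (ss_congr (D := s.wx.dat m₁)
    (E := (top h0).dat m) rfl (fun i j _ => (top_Top h0 m).cp i j) (R_le _ hp.mem)).2 hp.ss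
  have hl : ((top h0).dat m).Slot s.1 := s.toSlot rfl rfl
  obtain ⟨σ, w, hw, g, hg, h1, h2⟩ := S.uniq hl hb (h.symm.iso S.sem (sem_of_blocks hl hb
    fun a => by_contra fun c => S.not_n (h.n hs S.ss ((n_succ_iff hl hs hb).2 ⟨a, c⟩))))
  have h3 : IsUnit (g.submatrix w id).det := isUnit_det_of_right_inverse
    (B := g⁻¹.submatrix id w) (by rw [← submatrix_mul _ _ _ id _ Function.bijective_id,
      mul_nonsing_inv _ hg.2, submatrix_one_equiv])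
  refine ⟨((⟨w, fun i => (hw i).1.1⟩ : Wc col)⁻¹, σ⁻¹), Subtype.ext (funext fun i =>
    σ.symm_apply_eq.2 (hw i).2), ?_⟩
  rw [Mor.mc_pt _ hp (Mor.st _ hp)]
  refine (S.yhcb_mem _).2 ⟨g.submatrix w id, ⟨fun i j c => by_contra fun d => c
    ⟨(hw i).1.1.symm.trans (by_contra fun n => d (hg.1 _ _ fun x => n x.1)), S.s0.gl_iff.2
      (σ.injective ((hw i).2.symm.trans (by_contra fun n => d (h1 _ _ n))))⟩, h3⟩,
    (actR_eq_iff h3).2 fun a => ?_⟩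
  exact (congrArg (submatrix · w id) ((actR_eq_iff hg.2).1 h2 a)).trans
    (submatrix_mul_equiv _ _ _ w _).symm

theorem xi_dis (g : Gm col k) (e : actS col th k g S.s0 = S.s0) (x : Ln (S.PP m₁))
    (h : (morU g e m₁).mc (S.xi m₁ x) ∈ range (S.xi m₁)) (y : Ln (S.PP m₁)) :
    (morU g e m₁).mc (S.xi m₁ y) ∈ range (S.xi m₁) := by
  obtain ⟨Φ, h1, rfl⟩ := LD.exists_fr x
  obtain ⟨Ψ, h2, rfl⟩ := LD.exists_fr y
  rw [xi_ln, Mor.mc_pt _ _ (Mor.st _ (S.stP ‹_›))] at h ⊢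
  have h3 := (S.yhcb_mem _).1 h
  exact (S.yhcb_mem _).2 h3

theorem xi_act (σ : S.W) : ∃ w : Wc col, ∃ e : actS col th k (w, σ.1) S.s0 = S.s0,
    ∀ y, (morU _ e m₁).mc (S.xi m₁ y) = S.xi m₁ ((S.syP _).ta.t σ y) := by
  obtain ⟨w, hw⟩ := S.exists_lf σ
  refine ⟨⟨w, hw.col⟩, Subtype.ext (funext fun i =>
    (hw.slot _).symm.trans (congrArg S.slot (w.apply_symm_apply i))), fun y => ?_⟩
  obtain ⟨Φ, h, rfl⟩ := LD.exists_fr y
  rw [LD.Sy.ta_ln, xi_ln, xi_ln, Mor.mc_pt _ _ (Mor.st _ (S.stP h))]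
  exact Subtype.ext (congrArg (Dat.pt0 _)
    (Mor.ye2_ext _ _ hw.P0 (hw.asm Φ) fun _ r c => absurd rfl (c r)))

/-- the character of the stabiliser -/
abbrev sg {D : Dat I} (S : D.Pol k) : S.W →* ℤˣ := Equiv.Perm.sign.comp S.W.subtype

theorem xi_fix {c : (dgU col th k m₁).T} (hc : c ∈ Fix (actU col th k m₁).r) :
    AS.pull (S.xi m₁) (c S.s0) ∈ Fix ((S.syP (Fin m₁)).ta.r S.sg) :=
  (TA.mem_fix _ _).2 fun σ => by
    obtain ⟨w, e, h⟩ := S.xi_act (m₁ := m₁) σ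
    refine (congrArg (AS.pull (S.xi m₁)) (mem_fixU.1 hc _ e)).trans
      ((map_smul _ _ _).trans (congrArg (_ • ·) ?_))
    exact (AS.pull_pull _ _ _).trans ((congrArg (AS.pull · _) (funext h)).trans
      (AS.pull_pull _ _ _).symm)

end Dat.Pol

end Pool.Agent.CS
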