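import Pool.Agent.P.MP_d34769_ag.YHC9
import Pool.Agent.P.MP_d34769_ag.YHC8
import Pool.Agent.P.MP_d34769_ag.YHCb

/-! Comparison of the two fibres over one class. -/

open Set Matrix

set_option linter.unusedSectionVars false

noncomputable section
namespace Pool.Agent.CS
open Pool.Agent.P.MP_d34769_ag

section gen
variable {I : Type} [Fintype I] [DecidableEq I] {D : Dat I} {k : ℕ} (S : D.Pol k) {μ ν : Type}
  [Fintype μ] [DecidableEq μ] [Fintype ν] [DecidableEq ν] {b : Fin k → ν ↪ μ}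
  (hb : ∀ {a a'}, a ≠ a' → ∀ r r', b a r ≠ b a' r') {Ψ : Matrix (Fin k) (I × ν) ℂ}

/-- the inclusion of a block of the framing -/
def Jm (I : Type) [DecidableEq I] (e : ν ↪ μ) : Matrix (I × μ) (I × ν) ℂ :=
  of fun x y => if x.1 = y.1 ∧ x.2 = e y.2 then 1 else 0

theorem Jm_mulVec (e : ν ↪ μ) (v : I × ν → ℂ) (i : I) (r : μ) :
    (Jm I e *ᵥ v) (i, r) = Function.extend e (fun s => v (i, s)) 0 r := by
  by_cases h : ∃ s, e s = r
  · obtain ⟨s, rfl⟩ := h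
    rw [e.injective.extend_apply, mulVec, dotProduct, Finset.sum_eq_single (i, s)]
    · simp [Jm]
    · rintro ⟨j, t⟩ - n
      rw [Jm, of_apply, if_neg fun c => n (Prod.ext c.1.symm (e.injective c.2).symm), zero_mul]
    · simp
  · rw [Function.extend_apply' _ _ _ h, mulVec, dotProduct]
    exact Finset.sum_eq_zero fun x _ => by
      rw [Jm, of_apply, if_neg fun c => h ⟨_, c.2.symm⟩, zero_mul]

theorem Jm_dot (e e' : ν ↪ μ) (v w : I × ν → ℂ) : star (Jm I e *ᵥ v) ⬝ᵥ (Jm I e' *ᵥ w) =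
    ∑ i, ∑ s, star (v (i, s)) * (Jm I e' *ᵥ w) (i, e s) := by
  rw [dotProduct, Fintype.sum_prod_type]
  refine Finset.sum_congr rfl fun i _ => (Finset.sum_of_injOn e e.injective.injOn
    (fun _ _ => Finset.mem_univ _) (fun r _ h => ?_) fun s _ => ?_).symm
  · rw [Pi.star_apply, Jm_mulVec, Function.extend_apply' _ _ _ fun ⟨s, c⟩ => h ⟨s, by simp, c⟩]
    simp
  · rw [Pi.star_apply, Jm_mulVec e, e.injective.extend_apply]

namespace Dat.Pol

include hb in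
theorem Jm_fr (β : Equiv.Perm (Fin k)) (Ψ : Matrix (Fin k) (I × ν) ℂ) (h : (S.ldP ν).Fr Ψ) :
    (S.ldF μ).Fr (of fun a => Jm I (b (β a)) *ᵥ Ψ a) := by
  refine ⟨fun a => S.le_iff.2 fun x hx => ?_, fun a => ?_, fun a a' n _ => ?_⟩
  · refine (Jm_mulVec _ _ x.1 x.2).trans ?_
    rw [show (fun s => Ψ a (x.1, s)) = 0 from funext fun s => (S.frP_iff.1 h).1 a _ hx]
    exact congrFun (Function.extend_zero _) _
  · refine (Jm_dot _ _ _ _).trans (Eq.trans ?_ (h.unit a))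
    simp only [Jm_mulVec, Function.Injective.extend_apply (b (β a)).injective, dotProduct,
      Fintype.sum_prod_type, Pi.star_apply]
  · refine (Jm_dot _ _ _ _).trans (Finset.sum_eq_zero fun i _ => Finset.sum_eq_zero fun s _ => ?_)
    rw [Jm_mulVec, Function.extend_apply' _ _ _ fun ⟨t, c⟩ => hb (β.injective.ne n) s t c.symm]
    simp

/-- the map to the orthogonal lines -/
def nu (β : Equiv.Perm (Fin k)) : C(Ln (S.ldP ν), Ln (S.ldF μ)) :=
  (LD.exists_emb (fun a => Jm I (b (β a))) (S.Jm_fr hb β)).choose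

theorem nu_ln (β : Equiv.Perm (Fin k)) (h : (S.ldP ν).Fr Ψ) :
    S.nu hb β h.ln = (S.Jm_fr hb β Ψ h).ln :=
  (LD.exists_emb (fun a => Jm I (b (β a))) (S.Jm_fr hb β)).choose_spec.1 Ψ h

theorem nu_y (β : Equiv.Perm (Fin k)) (a : Fin k) :
    HE.pull (S.nu hb β) ((S.ldF μ).y a) = (S.ldP ν).y a :=
  (LD.exists_emb (fun a => Jm I (b (β a))) (S.Jm_fr hb β)).choose_spec.2 a

theorem nu_act (σ : S.W) (β : Equiv.Perm (Fin k)) (x : Ln (S.ldP ν)) :
    (S.syF μ).ta.t σ (S.nu hb β x) = S.nu hb (β * σ.1⁻¹) ((S.syP ν).ta.t σ x) := by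
  obtain ⟨Ψ, h, rfl⟩ := LD.exists_fr x
  rw [nu_ln, LD.Sy.ta_ln, LD.Sy.ta_ln, nu_ln]
  rfl

theorem nu_qi {n : ℕ} (hn : n < Fintype.card ν) :
    ((S.syF μ).ta.act S.sg).inv.Mor ((S.syP ν).ta.act S.sg).inv (∑ β, AS.pl (S.nu hb β)) 0 ∧
    ((S.syF μ).ta.act S.sg).inv.QI ((S.syP ν).ta.act S.sg).inv (∑ β, AS.pl (S.nu hb β)) 0 n := by
  have h3 := LD.ev_inj (D := S.ldP ν) (S.ldP_n ν hn)
  have h4 := (sum_pl_qi (S.nu hb) (S.ldF μ).y (S.ldP ν).y (LD.y_mem (D := S.ldF μ)) (S.nu_y hb)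
    (LD.ev_surj _) (LD.ev_surj _) h3).2
  exact sum_pl_inv (S.nu hb) (S.syF μ).ta (S.syP ν).ta S.sg
    (fun σ => ⟨Equiv.mulRight σ.1⁻¹, fun β x => S.nu_act hb σ β x⟩) h4

end Dat.Pol

end gen

variable {I : Type} [Fintype I] [DecidableEq I] {col : I → Fin 3} {th : Fin 3 → ℤ} {k m m₁ : ℕ}
  {h0 : Adm col th [[Finset.univ]]} (S : ((top h0).dat m).Pol k) (hm : k * m₁ ≤ m)

namespace Dat.Pol

/-- the map to the orthogonal lines for the blocks of the framing -/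
abbrev nuB (β : Equiv.Perm (Fin k)) : C(Ln (S.PP m₁), Ln S.FF) :=
  S.nu (μ := Fin ((top h0).dat m).m) (b := frB hm) (frB_ne hm) β

theorem chU_xi (β : Equiv.Perm (Fin k)) {π : List (Finset (Fin k))} (hπ : Part π)
    {R : Finset (Fin (Fintype.card I))} (hR : R ⊆ rks (π.map (pre S.slot))) (y : Ln (S.PP m₁)) :
    chU h0 hm S.s0 β hπ hR (S.xi m₁ y) = S.kap (top_Top h0 m) hπ hR (S.nuB hm β y) := by
  obtain ⟨Ψ, h, rfl⟩ := LD.exists_fr y
  rw [xi_ln, nuB, nu_ln, kap_ln]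
  have e : (morX h0 hm S.s0 β).F (S.P0, S.asm Ψ) =
      (S.P0, S.asm (of fun a => Jm I (frB hm (β a)) *ᵥ Ψ a)) := Prod.ext rfl (funext fun i =>
    funext fun r => (Jm_mulVec (frB hm (β (S.slot i))) (Ψ (S.slot i)) (S.tau i) r).symm)
  exact (yhc8_pt h0 hm S.s0 β hπ hR _).trans (yhc7_congr (D := (top h0).dat m) e hR)

theorem psi_xi (c : (QT m h0).dg.T) : AS.pull (S.xi m₁) (psi h0 hm c S.s0) =
    (∑ β, AS.pl (S.nuB hm β)) (coxL coxT (AS _) ((S.homK (top_Top h0 m)).map c)) := by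
  rw [psi_apply, map_sum, LinearMap.sum_apply]
  refine Finset.sum_congr rfl fun β _ => ?_
  rw [coxL_apply, coxL_apply, map_sum, map_sum]
  refine Finset.sum_congr rfl fun σ _ => ?_
  rw [map_smul, map_smul, (wd_cox S.s0.2.1).map _ c _ (Finset.Subset.refl _),
    (wd_cox S.sl.surj).map _ c _ (Finset.Subset.refl _)]
  refine congrArg _ ((AS.pull_pull _ _ _).trans (Eq.trans ?_ (AS.pull_pull _ _ _).symm))
  exact congrArg (AS.pull · _) (funext fun y => S.chU_xi hm β (coxT σ).2 _ y)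

end Dat.Pol

end Pool.Agent.CS
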