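import Pool.Agent.P.MP_d34769_ag.YHCa

/-! The strata of the cobar diagram inject into the invariant cohomology of the products. -/

open Set Matrix

set_option linter.unusedSectionVars false

noncomputable section
namespace Pool.Agent.CS
open Pool.Agent.P.MP_d34769_ag

/-- a map is a quasi-isomorphism when it is one after an injective map -/
theorem Cx.QI.of_comp_inj {T T' T'' : Type} [AddCommGroup T] [Module ℂ T] [AddCommGroup T']
    [Module ℂ T'] [AddCommGroup T''] [Module ℂ T''] {C : Cx T} {C' : Cx T'} {C'' : Cx T''}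
    {f : T →ₗ[ℂ] T'} {f' : T' →ₗ[ℂ] T''} {s s' n : ℤ} (h : C.Mor C' f s) (h' : C'.Mor C'' f' s')
    (q : C.QI C'' (f' ∘ₗ f) (s + s') n) (i : ∀ j, C'.Inj C'' f' s' j) : C.QI C' f s n :=
  ⟨fun j hj => (q.1 j hj).of_comp h h', fun j hj => (q.2 j hj).of_comp_inj h h' (i _)⟩

variable {I : Type} [Fintype I] [DecidableEq I] {col : I → Fin 3} {th : Fin 3 → ℤ} {k m m₁ n : ℕ}
  (h0 : Adm col th [[Finset.univ]]) (hm : k * m₁ ≤ m)

/-- the invariant complex of the products over a set of classes -/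
abbrev cxU (V W : Set ((top h0).dat m).MS) : Cx (dgU col th k m₁).T :=
  ((actU col th k m₁).bc ((actU col th k m₁).inv_fam (ovU h0 hm) (ovU_act h0 hm) V)
    ((actU col th k m₁).inv_fam (ovU h0 hm) (ovU_act h0 hm) W)).cx

variable {h0}

namespace Dat.Pol
variable (S : ((top h0).dat m).Pol k) {p : Pt I m} (hp : ((top h0).dat m).St p)
  (hS : ((top h0).dat m).Sim p.1 S.P0)

/-- restriction to the product of projective spaces -/
abbrev rx : (dgU col th k m₁).T →ₗ[ℂ] AS (Ln (S.PP m₁)) :=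
  AS.pl (S.xi m₁) ∘ₗ LinearMap.proj (φ := fun i => AS ((dgU col th k m₁).X i)) S.s0

include hS

theorem xi_mem (x : Ln (S.PP m₁)) :
    S.xi m₁ x ∈ ((ovU h0 hm).fam {((top h0).dat m).mq (pt p hp)}).A S.s0 := by
  obtain ⟨Ψ, h, rfl⟩ := LD.exists_fr x
  rw [S.xi_ln]
  exact (ovU_iff h0 hm S.s0 _ hp).2 hS.symm

theorem rx_mor : (cxU h0 hm {((top h0).dat m).mq (pt p hp)} ∅).Mor
    ((S.syP (Fin m₁)).ta.act S.sg).inv S.rx (-((k - 1 : ℕ) : ℤ)) := by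
  have h := Dg.one_mor (K := (ovU h0 hm).fam {((top h0).dat m).mq (pt p hp)}) S.s0 (S.xi m₁)
    (S.xi_mem hm hp hS)
  exact ⟨fun j x hx => ⟨h.fG j x ⟨hx.1, hx.2.1⟩, S.xi_fix hx.2.2⟩,
    fun j x hx => h.fN j x ⟨hx.1, hx.2.1⟩, fun j x hx => h.fd j x ⟨hx.1, hx.2.1⟩⟩

theorem rx_inj (h1 : 0 < m₁) (j : ℤ) : (cxU h0 hm {((top h0).dat m).mq (pt p hp)} ∅).Inj
    ((S.syP (Fin m₁)).ta.act S.sg).inv S.rx (-((k - 1 : ℕ) : ℤ)) j := by
  have : Nonempty (Fin m₁) := ⟨⟨0, h1⟩⟩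
  have := S.neP (Fin m₁)
  have h := (actU col th k m₁).orb_inj ((actU col th k m₁).inv_fam (ovU h0 hm) (ovU_act h0 hm)
    {((top h0).dat m).mq (pt p hp)}) (l₀ := S.s0) (S.xi m₁) S.xi_inj (S.xi_mem hm hp hS)
    (fun s z hz => by
      obtain ⟨q, hq, rfl⟩ := exists_pt (D := (Sl.wx s).dat m₁) z
      exact S.xi_cov s hq (((ovU_iff h0 hm s hq hp).1 hz).trans hS)) S.xi_dis j
  exact fun x hx e => h x hx (Cx.Act.ya3_le _ e)

theorem stk (hk : 0 < k) (hn : n < m₁) :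
    (Dg.bc ((ovQ (top_Top h0 m)).fam {((top h0).dat m).mq (pt p hp)}) ⊥).cx.QI
      (cxU h0 hm {((top h0).dat m).mq (pt p hp)} ∅) (psi h0 hm) 0 n := by
  have hD := top_Top h0 m
  have a := S.stkB hD (V := ((top h0).dat m).mq ⁻¹' {((top h0).dat m).mq (pt p hp)})
    (isClosed_singleton.preimage ((top h0).dat m).mq.continuous)
    fun q hq => (mq_eq_iff hq hp).trans ⟨fun e => e.trans hS, fun e => e.trans hS.symm⟩
  have b := S.stkA hD
  have c := (S.syF (Fin ((top h0).dat m).m)).ta.cox_qi hk S.W.subtype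
  have d := S.nu_qi (μ := Fin ((top h0).dat m).m) (b := frB hm) (frB_ne hm) (n := n)
    (by simpa using hn)
  have e1 := Cx.QIa.comp a.1 b.1 b.2 a.2
  have e2 := Cx.QIa.comp (b.1.comp a.1) c.1 c.2 e1
  have e3 := Cx.QI.comp (c.1.comp (b.1.comp a.1)) d.1 (d.2.mono (by omega)) (e2 n)
  have hψ := (psi_sc h0 hm hk).cx {((top h0).dat m).mq (pt p hp)} ∅
  rw [Dg.Ov.sc_cx, Dg.Act.sc_inv_cx _ _ (ovU_act h0 hm)] at hψ
  refine Cx.QI.of_comp_inj hψ (S.rx_mor hm hp hS) ?_ (S.rx_inj hm hp hS (by omega))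
  have e4 : S.rx ∘ₗ psi h0 hm = (∑ β, AS.pl (S.nuB hm β)) ∘ₗ coxL coxT (AS _) ∘ₗ
      (S.homK hD).map ∘ₗ LinearMap.id := LinearMap.ext fun x => S.psi_xi hm x
  rw [e4, show (0 : ℤ) + -((k - 1 : ℕ) : ℤ) = 0 + 0 + -((k - 1 : ℕ) : ℤ) + 0 by ring]
  exact e3

end Dat.Pol

variable (h0)

theorem psi_qi (hk : 0 < k) (hn : n < m₁) :
    (Dg.bc ((QT m h0).ov.fam (NX m h0 k)) ((QT m h0).ov.fam (NX m h0 (k + 1)))).cx.Mor
      (bcU k m₁ h0).cx (psi h0 hm) 0 ∧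
    (Dg.bc ((QT m h0).ov.fam (NX m h0 k)) ((QT m h0).ov.fam (NX m h0 (k + 1)))).cx.QI
      (bcU k m₁ h0).cx (psi h0 hm) 0 n := by
  have a := (psi_sc h0 hm hk).cx (((top h0).dat m).NM k) (((top h0).dat m).NM (k + 1))
  have b := SC.soft_qi (n := n) (psi_sc h0 hm hk) (((top h0).dat m).NM_closed k)
    (((top h0).dat m).NM_closed (k + 1)) fun t ht => by
      obtain ⟨⟨p, hp, rfl, h1⟩, h2⟩ := ht
      obtain ⟨S, -, hS⟩ := Dat.exists_pol hp.toBase.mem hp.ss h1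
        fun e => h2 ((Dat.mem_NM hp).2 e)
      rw [Dg.Ov.sc_cx, Dg.Act.sc_inv_cx _ _ (ovU_act h0 hm)]
      exact S.stk hm hp hS hk hn
  rw [Dg.Ov.sc_cx, Dg.Act.sc_inv_cx _ _ (ovU_act h0 hm), Dat.ovQ_fam, Dat.ovQ_fam, mq_NM h0 hk,
    mq_NM h0 (Nat.le_add_left 1 k), Dg.Act.bc_congr _ ((ovU_fam h0 hm k).trans (NU_top h0))
      (ovU_fam h0 hm (k + 1)) _ _ (actU col th k m₁).inv_top (NU_inv h0 (k + 1))] at a b
  exact ⟨a, b⟩

include hm in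
/-- HC -/
theorem hc (hk : 0 < k) (hn : n < m₁) (j : ℤ) (hj : j ≤ n) :
    ∃ J : (bcN m h0 (NX m h0 k) (NX m h0 (k + 1))).cx.H j →ₗ[ℂ] (bcU k m₁ h0).cx.H j,
      Function.Injective J := by
  obtain ⟨a, b⟩ := f7 h0 (NX_closed h0 (m := m) k) (NX_closed h0 (k + 1))
  obtain ⟨c, d⟩ := psi_qi h0 hm hk hn
  let e := LinearEquiv.ofBijective (a.hm (add_zero j))
    ⟨(a.inj_iff _).1 (b.inj j), (a.sur_iff _).1 (b.sur j)⟩
  exact ⟨c.hm (add_zero j) ∘ₗ e.symm.toLinearMap,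
    ((c.inj_iff (add_zero j)).1 (d.1 j hj)).comp e.symm.injective⟩

end Pool.Agent.CS
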