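import Pool.Agent.P.MP_d34769_ag.YP4

/-! Images from higher degrees, and blocks of a diagram. -/

open Set

noncomputable section
namespace Pool.Agent.CS

theorem Cx.Act.ki_iff {T Γ : Type} [AddCommGroup T] [Module ℂ T] [Group Γ] [Fintype Γ] {C : Cx T}
    {r : Γ →* Module.End ℂ T} (h : C.Act r) {U : Submodule ℂ T} (hU : ∀ x ∈ U, C.d x ∈ U)
    (hN : C.N ≤ U) (hr : ∀ g, ∀ x ∈ U, r g x ∈ U) (k : ℤ) :
    (∀ x ∈ (C.sub U hU).Z (k + 1), x ∈ Fix r → x ∈ C.B (k + 1) → x ∈ (C.sub U hU).B (k + 1)) ↔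
      ∀ y ∈ (C.quo U hU hN).Z k, y ∈ Fix r →
        ∃ x ∈ C.Z k, x ∈ Fix r ∧ y - x ∈ (C.quo U hU hN).B k := by
  have h' : (C.sub U hU).Act r := ⟨h.d, fun g n x hx => ⟨h.G g n x hx.1, hr g x hx.2⟩, h.N⟩
  constructor
  · intro a y hy hf
    have h2 := h.fix_d y hf
    have h3 := h'.ya3_B (a _ (Cx.d_mem_subZ hU hN hy) h2 (Cx.d_mem_B hy.1 rfl))
    rw [avg_of_mem h2] at h3
    obtain ⟨u, hu, e⟩ := (Cx.mem_B' rfl).1 h3
    exact ⟨y - u, ⟨sub_mem hy.1 hu.1.1, Cx.meq (U := C.N) e (map_sub C.d y u).symm⟩,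
      sub_mem hf hu.2, Cx.N_le_B (Cx.meq (U := U) hu.1.2 (sub_sub_cancel y u).symm)⟩
  · intro a x hx hf hb
    have h3 := h.ya3_B hb
    rw [avg_of_mem hf] at h3
    obtain ⟨u, hu, e⟩ := (Cx.mem_B' rfl).1 h3
    have e : x - C.d u ∈ C.N := e
    obtain ⟨z, hz, -, e1⟩ := a u ⟨hu.1, Cx.meq (U := U) (sub_mem hx.1.2 (hN e))
      (sub_sub_cancel x (C.d u))⟩ hu.2
    obtain ⟨v, hv, e2⟩ := Cx.mem_B.1 e1
    have h4 : C.d v ∈ C.Z k := Cx.Zcast (Cx.d_mem_Z hv) (by ring)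
    refine (Cx.mem_subB hU rfl).2 ⟨_, ⟨sub_mem (sub_mem hu.1 hz.1) h4.1, e2⟩,
      Cx.meq (add_mem (add_mem e (Cx.mem_Z.1 hz).2) (Cx.mem_Z.1 h4).2) ?_⟩
    rw [map_sub, map_sub]
    abel

namespace Dg
variable {S S' : Sh} {P : Dg S} {Q : Dg S'} {Γ Γ' : Type} [Group Γ] [Group Γ']

/-- the images of the spaces of degree at least `d` -/
def up (P : Dg S) (d : ℕ) : P.Fam where
  A i := {x | ∃ j, ∃ h : S.rel j i, d ≤ S.deg j ∧ ∃ y, P.mp h y = x}
  mp h := by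
    rintro _ ⟨j, h', a, y, rfl⟩
    exact ⟨j, S.trans h' h, a, y, (P.comp h' h y).symm⟩

theorem up_cl (d : ℕ) : (P.up d).Cl := fun i => by
  have e : (P.up d).A i = ⋃ j, ⋃ h : S.rel j i, ⋃ _ : d ≤ S.deg j, range (P.mp h) :=
    Set.ext fun x => by simp only [mem_iUnion, exists_prop]; rfl
  rw [e]
  exact isClosed_iUnion_of_finite fun j => isClosed_iUnion_of_finite fun h =>
    isClosed_iUnion_of_finite fun _ => (isCompact_range (P.mp h).continuous).isClosed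

theorem Act.inv_up (G : Act P Γ) (h : ∀ g i j, S.rel i j → S.rel (G.a g i) (G.a g j)) (d : ℕ) :
    G.Inv (P.up d) := by
  rintro g i _ rfl _ ⟨j, h', a, y, rfl⟩
  exact ⟨_, h g j i h', (G.deg g j).symm ▸ a, _, G.t_mp g h' _ rfl rfl y⟩

theorem up_prod {hS : S.Refl} {hS' : S'.Refl} (hP : P.Id) (hQ : Q.Id) {a d d' e : ℕ}
    (h1 : ∀ i, d ≤ S.deg i + 1) (h2 : ∀ i, d' ≤ S'.deg i + 1) (he : e + 1 = d + d' + a) :
    (P.prod Q hS hS' a).up e = (P.up d).prod ⊤ ⊔ (⊤ : P.Fam).prod (Q.up d') := by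
  refine Fam.ext (funext fun p => Set.ext fun x => ⟨?_, ?_⟩)
  · rintro ⟨q, h, b, y, rfl⟩
    change _ ≤ S.deg q.1 + S'.deg q.2 + a at b
    have := h1 q.1
    by_cases c : d ≤ S.deg q.1
    · exact Or.inl ⟨⟨_, h.1, c, y.1, rfl⟩, trivial⟩
    · exact Or.inr ⟨trivial, _, h.2, by omega, y.2, rfl⟩
  · rintro (⟨⟨i, h, b, y, e⟩, -⟩ | ⟨-, j, h, b, y, e⟩)
    · refine ⟨(i, p.2), ⟨h, hS' _⟩, ?_, (y, x.2), Prod.ext e (hQ _ _ _)⟩
      have := h2 p.2
      change _ ≤ S.deg i + S'.deg p.2 + a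
      omega
    · refine ⟨(p.1, j), ⟨hS _, h⟩, ?_, (x.1, y), Prod.ext (hP _ _ _) e⟩
      have := h1 p.1
      change _ ≤ S.deg p.1 + S'.deg j + a
      omega

theorem D_apply (K A : P.Fam) (c : P.T) (i : S.ι) : (bc K A).cx.d c i =
    AS.d (c i) + (AS.gc _).s (mat S.ε (@P.sys.pl) c i) := rfl

/-- `Q` is a part of `P` that is closed under faces -/
structure Blk (Q : Dg S') (P : Dg S) where
  j : S'.ι → S.ι
  inj : Function.Injective j
  e : ∀ i, P.X (j i) ≃ₜ Q.X i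
  deg : ∀ i, S.deg (j i) = S'.deg i
  ε : ∀ i i', S.ε (j i) (j i') = S'.ε i i'
  up : ∀ i x, S.ε (j i) x ≠ 0 → x ∈ range j
  com : ∀ {i i'} (h : S'.rel i i') (h' : S.rel (j i) (j i')) x, e i' (P.mp h' x) = Q.mp h (e i x)

namespace Blk
variable (b : Blk Q P) {A : P.Fam} {A' : Q.Fam} {c : Q.T} {w : P.T} {n : ℤ}

/-- the identification as a continuous map -/
def hom (i : S'.ι) : C(P.X (b.j i), Q.X i) := ⟨b.e i, (b.e i).continuous⟩

/-- the inverse identification -/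
def inv (i : S'.ι) : C(Q.X i, P.X (b.j i)) := ⟨(b.e i).symm, (b.e i).symm.continuous⟩

/-- restriction to the block -/
def res : P.T →ₗ[ℂ] Q.T := LinearMap.pi fun i => AS.pl (b.e i).symm ∘ₗ LinearMap.proj (b.j i)

/-- extension by zero -/
def ext : Q.T →ₗ[ℂ] P.T := mat (R := fun x i => b.j i = x) (fun _ _ => 1)
  fun {_ i} h => AS.pl fun y => b.e i (cast (congrArg P.X h.symm) y)

theorem res_apply (w : P.T) (i : S'.ι) : b.res w i = AS.pull (b.e i).symm (w (b.j i)) := rfl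

theorem ext_j (c : Q.T) (i : S'.ι) : b.ext c (b.j i) = AS.pull (b.e i) (c i) := by
  classical
  rw [ext, mat_apply, Finset.sum_eq_single i (fun i' _ h => dif_neg fun e => h (b.inj e)) (by simp),
    dif_pos rfl, Int.cast_one, one_smul]
  rfl

theorem ext_out (c : Q.T) {x : S.ι} (h : x ∉ range b.j) : b.ext c x = 0 :=
  mat_eq_zero fun i r _ => absurd ⟨i, r⟩ h

theorem pull_res (w : P.T) (i : S'.ι) : AS.pull (b.e i) (b.res w i) = w (b.j i) := by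
  rw [res_apply, AS.pull_pull, Homeomorph.symm_comp_self, AS.pull_id]

theorem res_ext (c : Q.T) : b.res (b.ext c) = c := funext fun i => by
  rw [res_apply, ext_j, AS.pull_pull, Homeomorph.self_comp_symm, AS.pull_id]

theorem d_j (K A : P.Fam) (K' A' : Q.Fam) (w : P.T) (i : S'.ι) :
    (bc K A).cx.d w (b.j i) = AS.pull (b.e i) ((bc K' A').cx.d (b.res w) i) := by
  classical
  rw [D_apply, D_apply, map_add, AS.pull_d, pull_res]
  refine congrArg _ (Eq.trans (congrArg _ ?_) (Gc.map_s (f := AS.pl (b.e i)) (AS.pull_e _) _).symm)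
  rw [mat_apply, mat_apply, map_sum]
  refine (Fintype.sum_of_injective b.j b.inj _ _ (fun x hx => ?_) fun i' => ?_).symm
  · rw [show S.ε (b.j i) x = 0 from not_not.1 fun h => hx (b.up i x h)]
    simp
  · rw [b.ε]
    by_cases h : S'.ε i i' = 0
    · simp [h]
    have h' := (S.sup _ _ (b.ε i i' ▸ h)).1
    rw [dif_pos (S'.sup _ _ h).1, dif_pos h', map_smul]
    refine congrArg _ ((AS.pull_pull _ _ _).trans ((AS.pull_pull _ _ _).trans ?_))
    exact congrArg (AS.pull · _) (funext fun x => (b.e i').symm_apply_eq.2 (b.com _ h' x).symm)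

theorem res_mor (hA : ∀ i x, b.e i x ∈ A'.A i → x ∈ A.A (b.j i)) :
    (bc ⊤ A).cx.Mor (bc ⊤ A').cx b.res 0 where
  fG n x hx := mem_cx_G.2 fun i => by
    have h := mem_cx_G.1 hx (b.j i)
    rw [b.deg] at h
    rw [add_zero]
    exact ⟨AS.pull_mem_G _ h.1, zz_pl (g := b.inv i)
      (fun y hy => hA i _ (((b.e i).apply_symm_apply y).symm ▸ hy)) h.2⟩
  fN _ x _ hx := (mem_N (A := A')).2 fun i =>
    zz_pl (g := b.inv i) (mapsTo_univ _ _) ((mem_N (A := A)).1 hx (b.j i))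
  fd _ x _ := by
    have e : b.res ((bc ⊤ A).cx.d x) = (bc ⊤ A').cx.d (b.res x) := funext fun i => by
      rw [res_apply, b.d_j ⊤ A ⊤ A', AS.pull_pull, Homeomorph.self_comp_symm, AS.pull_id]
    rw [e, sub_self]
    exact zero_mem _

theorem ext_mor (hA : ∀ i x, x ∈ A.A (b.j i) → b.e i x ∈ A'.A i)
    (hd : ∀ x i (h : S.rel x (b.j i)), x ∉ range b.j → S.ε x (b.j i) ≠ 0 →
      ∀ y, b.e i (P.mp h y) ∈ A'.A i) : (bc ⊤ A').cx.Mor (bc ⊤ A).cx b.ext 0 where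
  fG n c hc := mem_cx_G.2 fun x => by
    by_cases h : x ∈ range b.j
    · obtain ⟨i, rfl⟩ := h
      have h := mem_cx_G.1 hc i
      rw [b.deg, add_zero, ext_j]
      exact ⟨AS.pull_mem_G _ h.1, zz_pl (g := b.hom i) (hA i) h.2⟩
    · rw [b.ext_out c h]
      exact zero_mem _
  fN _ c _ hc := (mem_N (A := A)).2 fun x => by
    by_cases h : x ∈ range b.j
    · obtain ⟨i, rfl⟩ := h
      rw [ext_j]
      exact zz_pl (g := b.hom i) (mapsTo_univ _ _) ((mem_N (A := A')).1 hc i)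
    · rw [b.ext_out c h]
      exact zero_mem _
  fd n c hc := (mem_N (A := A)).2 fun x => by
    rw [Pi.sub_apply]
    by_cases h : x ∈ range b.j
    · obtain ⟨i, rfl⟩ := h
      rw [ext_j, b.d_j ⊤ A ⊤ A', res_ext, sub_self]
      exact zero_mem _
    · rw [b.ext_out _ h, D_apply, b.ext_out _ h, map_zero, zero_add, zero_sub]
      refine neg_mem ((⊤ : P.Fam).stab.s x _ (mat_mem (g := @P.sys.pl) fun x' r h0 => ?_))
      by_cases h' : x' ∈ range b.j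
      · obtain ⟨i, rfl⟩ := h'
        rw [ext_j]
        exact Cx.meq (zz_pl (g := (b.hom i).comp (P.mp r)) (fun y _ => hd x i r h h0 y)
          (mem_cx_G.1 hc i).2) (AS.pull_pull (P.mp r) (b.e i) (c i)).symm
      · rw [b.ext_out _ h', map_zero]
        exact zero_mem _

theorem ext_inj (hA : ∀ i x, b.e i x ∈ A'.A i → x ∈ A.A (b.j i)) (h : b.ext c ∈ (bc ⊤ A).cx.G n)
    (hb : b.ext c ∈ (bc ⊤ A).cx.B n) : c ∈ (bc ⊤ A').cx.B n := by
  have := (b.res_mor hA).mem_B h hb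
  rwa [res_ext, add_zero] at this

theorem up_iff (h1 : ∀ i i', S'.rel i i' → S.rel (b.j i) (b.j i'))
    (h2 : ∀ x i, S.rel x (b.j i) → ∃ i', b.j i' = x ∧ S'.rel i' i) (d : ℕ) (i : S'.ι)
    (x : P.X (b.j i)) : x ∈ (P.up d).A (b.j i) ↔ b.e i x ∈ (Q.up d).A i := by
  constructor
  · rintro ⟨k, h, a, y, rfl⟩
    obtain ⟨i', rfl, h'⟩ := h2 k i h
    exact ⟨i', h', b.deg i' ▸ a, _, (b.com h' h y).symm⟩
  · rintro ⟨i', h, a, y, e⟩
    refine ⟨_, h1 _ _ h, (b.deg i').symm ▸ a, (b.e i').symm y, (b.e i).injective ?_⟩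
    rw [b.com h, Homeomorph.apply_symm_apply, e]

/-- the group elements `g` and `g'` act in the same way on the block -/
def Rel (G : Act P Γ) (G' : Act Q Γ') (g : Γ) (g' : Γ') : Prop :=
  ∀ i, ∃ h : G.a g (b.j i) = b.j (G'.a g' i), G.s g (b.j i) = G'.s g' i ∧
    ∀ x, b.e _ (G.t g h x) = G'.t g' rfl (b.e i x)

variable {G : Act P Γ} {G' : Act Q Γ'}

theorem res_fix (h : ∀ g', ∃ g, b.Rel G G' g g') (hw : w ∈ Fix G.r) : b.res w ∈ Fix G'.r := by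
  refine G'.mem_fix.2 ?_
  rintro g' i _ rfl
  obtain ⟨g, h⟩ := h g'
  obtain ⟨h1, h2, h3⟩ := h i
  rw [res_apply, res_apply, G.mem_fix.1 hw g h1, h2, map_smul, AS.pull_pull, AS.pull_pull]
  refine congrArg (_ • AS.pull · _) (funext fun x => (b.e _).eq_symm_apply.2 ?_)
  rw [Function.comp_apply, h3, Homeomorph.apply_symm_apply]

theorem ext_fix (h : ∀ g, ∃ g', b.Rel G G' g g') (hc : c ∈ Fix G'.r) : b.ext c ∈ Fix G.r := by
  refine G.mem_fix.2 fun g x x' e => ?_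
  by_cases hx : x ∈ range b.j
  · obtain ⟨i, rfl⟩ := hx
    obtain ⟨g', h⟩ := h g
    obtain ⟨h1, h2, h3⟩ := h i
    obtain rfl := h1.symm.trans e
    rw [ext_j, ext_j, G'.mem_fix.1 hc g' rfl, h2, map_smul, AS.pull_pull, AS.pull_pull]
    exact congrArg (_ • AS.pull · _) (funext fun x => (h3 x).symm)
  · have hx' : x' ∉ range b.j := by
      rintro ⟨i, rfl⟩
      obtain ⟨g', h⟩ := h g⁻¹
      refine hx ⟨_, (h i).1.symm.trans ?_⟩
      rw [← e, map_inv]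
      exact (G.a g).symm_apply_apply x
    rw [b.ext_out c hx, b.ext_out c hx', map_zero, smul_zero]

end Blk

/-- a cochain bounds when it bounds on every block -/
theorem blk_B {κ : Type} [Fintype κ] {T : κ → Sh} {R : ∀ F, Dg (T F)} (b : ∀ F, Blk (R F) P)
    (cov : ∀ x, ∃! F, x ∈ range (b F).j) {A : P.Fam} {A' : ∀ F, (R F).Fam}
    (hA : ∀ F i x, x ∈ A.A ((b F).j i) ↔ (b F).e i x ∈ (A' F).A i) {w : P.T} {n : ℤ}
    (hw : w ∈ (bc ⊤ A).cx.G n) (h : ∀ F, (b F).res w ∈ (bc ⊤ (A' F)).cx.B n) :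
    w ∈ (bc ⊤ A).cx.B n := by
  have e : ∑ F, (b F).ext ((b F).res w) = w := funext fun x => by
    obtain ⟨F, ⟨i, rfl⟩, u⟩ := cov x
    rw [Finset.sum_apply, Finset.sum_eq_single F (fun F' _ c => (b F').ext_out _ fun k => c (u _ k))
      (by simp), Blk.ext_j, Blk.pull_res]
  refine Cx.meq (Submodule.sum_mem _ fun F _ => ?_) e
  have m := (b F).ext_mor (A := A) (A' := A' F) (fun i x => (hA F i x).1) fun x i _ hx h0 => by
    obtain ⟨F', ⟨i', rfl⟩, -⟩ := cov x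
    obtain rfl := (cov _).unique ((b F').up i' _ h0) ⟨i, rfl⟩
    exact absurd ⟨i', rfl⟩ hx
  have h1 := ((b F).res_mor fun i x => (hA F i x).2).fG n w hw
  rw [add_zero] at h1
  exact Cx.Bcast (m.mem_B h1 (h F)) (add_zero n)

variable [Fintype Γ] (G : Act P Γ) (A : P.Fam) (n : ℤ)

/-- relative invariant classes inject into absolute classes -/
def Act.KI : Prop := ∀ k ≤ n, ∀ x ∈ (Dg.bc ⊤ A).cx.Z k, x ∈ Fix G.r → x ∈ (Dg.bc ⊤ ⊥).cx.B k →
  x ∈ (Dg.bc ⊤ A).cx.B k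

/-- invariant classes on `A` lift -/
def Act.Lf : Prop := ∀ k < n, ∀ y ∈ (Dg.bc A ⊥).cx.Z k, y ∈ Fix G.r →
  ∃ x ∈ (Dg.bc ⊤ ⊥).cx.Z k, x ∈ Fix G.r ∧ y - x ∈ (Dg.bc A ⊥).cx.B k

variable {G A n}

theorem ki_iff (iA : G.Inv A) : G.KI A n ↔ G.Lf A n := by
  have key := fun k => (G.act G.inv_top G.inv_bot).cx.ki_iff (U := (bc A ⊥).N) (N_D A)
    (N_anti fun _ => subset_univ _) (G.act iA G.inv_bot).N k
  rw [cx_sub, cx_quo fun _ => subset_univ _, Fam.bot_sup] at key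
  refine ⟨fun h k hk => (key k).1 (h _ hk), fun h k hk => ?_⟩
  obtain ⟨k, rfl⟩ : ∃ j, k = j + 1 := ⟨k - 1, by ring⟩
  exact (key k).2 (h k hk)

end Dg

end Pool.Agent.CS
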