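import Pool.Agent.P.MP_d34769_ag.YHD0
import Pool.Agent.P.MP_d34769_ag.YHB2

/-! The points of the cobar diagrams that come from longer lists. -/

open Set

noncomputable section
namespace Pool.Agent.CS

variable {I : Type} [Fintype I] [DecidableEq I] {col : I → Fin 3} {th : Fin 3 → ℤ} {k m : ℕ}

theorem shT_refl : (shT col th k).Refl := fun L => RS.refl L.1

theorem dgT_mp' {L K : Wx col th k} (h : RS id L.1 K.1) (x : (L.dat m).XS) :
    (dgT col th k m).mp (i := L) (j := K) h x = (relMor h m).mc x :=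
  DFunLike.congr_fun (dgT_mp h) x

theorem dgT_id : (dgT col th k m).Id := fun _ h x =>
  (dgT_mp' h x).trans (mc_one _ (fun _ => rfl) (fun _ _ => rfl) x)

omit [DecidableEq I] in
theorem Wx.le (L : Wx col th k) : k ≤ L.1.flatten.length := L.2.2.symm.trans_le L.2.1.len_le

theorem shT_deg (L : Wx col th k) : (shT col th k).deg L = L.1.flatten.length - 1 := rfl

omit [Fintype I] in
theorem RS.rlb {L K : List (List (Finset I))} (h : RS id L K) (w : Equiv.Perm I) :
    RS id (rlb w L) (rlb w K) := by
  refine ⟨fun i j e => ?_, fun i => ?_⟩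
  · have h1 := OrdM.rlb w⁻¹ e
    rw [← rlb_mul, inv_mul_cancel, rlb_one] at h1
    simpa using OrdM.rlb w (h.ord _ _ h1)
  · obtain ⟨i, rfl⟩ := w.surjective i
    rw [slot_rlb, slot_rlb, h.sl]

variable (col th k m) in
/-- the points that come from a list with more than `k` letters -/
abbrev BT : (dgT col th k m).Fam := (dgT col th k m).up k

theorem inv_BT : (actT col th k m).Inv (BT col th k m) :=
  (actT col th k m).inv_up (fun w _ _ h => RS.rlb h w.1) k

theorem mem_BT (hk : 0 < k) {L : Wx col th k} {x : (L.dat m).XS} : x ∈ (BT col th k m).A L ↔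
    ∃ (K : Wx col th k) (h : RS id K.1 L.1), k < K.1.flatten.length ∧
      ∃ y, (relMor h m).mc y = x :=
  exists₂_congr fun K h => and_congr (by have := shT_deg K; omega)
    (exists_congr fun y => Eq.congr_left (dgT_mp' h y))

theorem BT_univ (L : Wx col th k) (h : k < L.1.flatten.length) :
    (BT col th k m).A L = univ :=
  eq_univ_of_forall fun x => ⟨L, shT_refl L, by rw [shT_deg]; omega, x, dgT_id _ _ x⟩

theorem BT_one (h0 : Adm col th [[Finset.univ]]) : BT col th 1 m = (ovT m h0).fam (NX m h0 2) := by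
  refine Dg.Fam.ext (funext fun L => Set.ext fun x => ⟨?_, fun hx => ?_⟩)
  · rintro ⟨K, h, a, y, rfl⟩
    exact (mem_NX h0 (x := (ovT m h0).π L _)).2
      ⟨K, by have := shT_deg K; omega, y, ((ovT m h0).comm h y).symm⟩
  · by_cases c : (shT col th 1).deg L = 0
    · obtain rfl := eq_top h0 c
      obtain ⟨K, a, y, e⟩ := (mem_NX h0 (x := (ovT m h0).π (top h0) x)).1 hx
      exact ⟨K, rel_top h0 K, by rw [shT_deg]; omega, y, e.trans (ovT_top h0 x)⟩
    · exact ⟨L, shT_refl L, by omega, x, dgT_id _ _ x⟩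

end Pool.Agent.CS
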