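import Pool.Agent.P.MP_d34769_ag.YHD1
import Pool.Agent.P.MP_d34769_ag.YHC5

/-! The points that come from longer lists are those with a longer filtration. -/

open Set

noncomputable section
namespace Pool.Agent.CS

variable {I : Type} [Fintype I] [DecidableEq I] {col : I → Fin 3} {th : Fin 3 → ℤ} {k m : ℕ}

theorem yhd2_F {L K : Wx col th k} (h : RS id L.1 K.1) (p : Pt I m) : (relMor h m).F p = p :=
  (relMor h m).ye2_ext p (fun _ _ _ => rfl) (fun _ _ => rfl) fun _ r e => absurd rfl (e r)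

theorem yhd2_mc {L K : Wx col th k} (h : RS id L.1 K.1) {p : Pt I m} (hp : (L.dat m).St p)
    (hq : (K.dat m).St p) : (relMor h m).mc (Dat.pt p hp) = Dat.pt p hq :=
  (Dat.Mor.mc_pt _ hp ((relMor h m).st hp)).trans
    (Subtype.ext (congrArg (K.dat m).pt0 (yhd2_F h p)))

theorem yhd2_split {A B : List (List (Finset I))} {b F : Finset I}
    (h : Adm col th (A ++ [b] :: B)) (hF : F ⊆ b) (h0 : F.Nonempty) (h1 : F ≠ b)
    (hw : ∑ j ∈ F, th (col j) = 0) : Adm col th (A ++ [F, b \ F] :: B) := by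
  have hb := h.bal b (by simp)
  have m1 : ∀ c ∈ (A ++ [F, b \ F] :: B).flatten,
      c = F ∨ c = b \ F ∨ c ∈ (A ++ [b] :: B).flatten := fun c hc => by
    simp only [List.flatten_append, List.flatten_cons, List.mem_append, List.mem_cons,
      List.not_mem_nil, or_false] at hc ⊢
    tauto
  refine ⟨⟨fun c hc => ?_, ?_⟩, fun u hu => ?_, fun c hc => ?_⟩
  · rcases m1 c hc with rfl | rfl | e
    exacts [h0, Finset.sdiff_nonempty.2 fun e => h1 (hF.antisymm e), h.part.1 c e]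
  · have : F.val + (b \ F).val = b.val := by
      rw [Finset.sdiff_val, add_tsub_cancel_of_le (Finset.val_le_iff.2 hF)]
    rw [← h.part.2]
    simp only [List.flatten_append, List.flatten_cons, List.map_append, List.sum_append,
      List.map_cons, List.sum_cons, List.map_nil, List.sum_nil, add_zero, this]
  · rcases List.mem_append.1 hu with e | e
    · exact h.ne u (List.mem_append_left _ e)
    · rcases List.mem_cons.1 e with rfl | e
      exacts [List.cons_ne_nil _ _, h.ne u (List.mem_append_right _ (List.mem_cons_of_mem _ e))]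
  · rcases m1 c hc with rfl | rfl | e
    exacts [hw, by rw [← Finset.sum_sdiff hF, hw, add_zero] at hb; exact hb, h.bal c e]

theorem yhd2_up (s : Sl col th k) {p : Pt I m} (hp : (s.wx.dat m).St p) {a : Fin k}
    (ha : ¬ (s.wx.dat m).StbOn p.1 {i | s.1 i = a}) :
    ∃ (K : Wx col th k) (h : RS id K.1 s.wx.1), k < K.1.flatten.length ∧
      ∃ y, (relMor h m).mc y = Dat.pt p hp := by
  simp only [Dat.StbOn, not_and, not_forall, not_lt] at ha
  obtain ⟨U, hU, h1, h2, h3, h4⟩ := ha (s.2.1 a)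
  obtain ⟨g, hg, hc, F, rfl⟩ := e4_sub (s.wx.dat m).e4_cc hU.gr
  have hu := e4_unit_det hg
  have gb : g ∈ (s.wx.dat m).base.P := (Dat.e4_memG _).2 ⟨hc, hu⟩
  have gP : g ∈ (s.wx.dat m).P := (Dat.e4_memP _).2
    ⟨fun i j e => ⟨(hc i j e).1, s.gl_iff.2 (s.cp_iff.1 (hc i j e).2)⟩, hu⟩
  have e1 : (sp {i | s.1 i = a}).map g.mulVecLin = sp {i | s.1 i = a} :=
    Submodule.eq_of_le_of_finrank_eq (map_sp_le.2 fun i j hi hj => by_contra fun e =>
      hi ((s.cp_iff.1 (hc i j e).2).trans hj)) (e4_finrank_map hu _)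
  obtain ⟨b, hb⟩ : ∃ b : Finset I, b = Finset.univ.filter fun i => s.1 i = a := ⟨_, rfl⟩
  have eb : (b : Set I) = {i | s.1 i = a} := by rw [hb]; ext i; simp
  have hF : F ⊆ b := Finset.coe_subset.1 (eb ▸ e4_map_inj hu (h1.trans e1.ge))
  obtain ⟨A, B, e2⟩ := List.append_of_mem (a := [b]) (l := s.wx.1)
    (List.mem_map.2 ⟨b, List.mem_ofFn.2 ⟨a, hb.symm⟩, rfl⟩)
  have hK := yhd2_split (e2 ▸ s.wx.2.1) hF
    (Finset.nonempty_iff_ne_empty.2 fun e => h2 (by simp [e]))
    (fun e => h3 (by rw [e, eb, e1]))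
    (((s.wx.dat m).e6_wt_sp th F).symm.trans (((s.wx.dat m).e6_wt_map th gb _).symm.trans
      (le_antisymm (hp.ss _ hU) h4)))
  have f : FcM (A ++ [F, b \ F] :: B) s.wx.1 :=
    ⟨A, _, _, B, rfl, e2, [], F, b \ F, [], rfl, by rw [Finset.union_sdiff_of_subset hF]; rfl⟩
  have hq := hp.act (Dat.inv_mem_P gP)
  have z : ∀ c i j, i ∉ F → j ∈ F → (act g⁻¹ p).1 c i j = 0 := fun c =>
    map_sp_le.1 (by
      rintro _ ⟨v, hv, rfl⟩
      exact ((Dat.sub_act gb).1 ((actR_inv' hu p.1).symm ▸ hU)).st c v hv)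
  let K : Wx col th k := ⟨_, hK, (hK.fcM f).2.symm.trans s.wx.2.2⟩
  have hs : ∀ {U}, (K.dat m).Sub (act g⁻¹ p).1 U → (s.wx.dat m).Sub (act g⁻¹ p).1 U :=
    Dat.ye2_sub_mono (D := K.dat m) (E := s.wx.dat m) rfl (relMor (L := K) f.rs m).cp
  have hy : (K.dat m).St (act g⁻¹ p) := by
    refine ⟨fun c i j n => by_contra fun e => n ?_, fun U hU => hq.ss U (hs hU),
      fun U hU => hq.gen U (hs hU)⟩
    obtain ⟨c1, c2, u, hu, o⟩ : (s.wx.dat m).ap c i j := by_contra fun n => e (hq.mem c i j n)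
    refine ⟨c1, c2, ?_⟩
    rw [e2] at hu
    rcases List.mem_append.1 hu with hu | hu
    · exact ⟨u, List.mem_append_left _ hu, o⟩
    rcases List.mem_cons.1 hu with rfl | hu
    · refine ⟨_, List.mem_append_right _ List.mem_cons_self, ?_⟩
      have := o.mem
      simp only [List.mem_singleton, exists_eq_left] at this
      simp only [ord_cons, List.mem_singleton, exists_eq_left, Finset.mem_sdiff, this, true_and]
      have := z c i j
      tauto
    · exact ⟨u, List.mem_append_right _ (List.mem_cons_of_mem _ hu), o⟩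
  refine ⟨K, f.rs, ?_, _, (yhd2_mc f.rs hy hq).trans
    ((Dat.pt_eq_iff hq hp).2 ⟨g, gP, (act_inv' hu p).symm⟩)⟩
  have := f.fc.length.1
  have := s.wx.le
  change k < (A ++ [F, b \ F] :: B).flatten.length
  omega

theorem pt_mem_BT (hk : 0 < k) (L : Wx col th k) {p : Pt I m} (hp : (L.dat m).St p) {E : Dat I}
    (hc : E.col = col) (ht : E.th = th) (h : ∀ i j, (L.dat m).cp i j → E.cp i j) :
    Dat.pt p hp ∈ (BT col th k m).A L ↔ E.N (k + 1) p.1 := by
  subst hc ht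
  refine ⟨fun hx => ?_, fun hn => ?_⟩
  · obtain ⟨K, r, l, y, e⟩ := (mem_BT hk).1 hx
    obtain ⟨q, hq, rfl⟩ := Dat.exists_pt y
    have hq' : (L.dat m).St q := yhd2_F r q ▸ (relMor r m).st hq
    obtain ⟨g, hg, rfl⟩ := (Dat.pt_eq_iff hq' hp).1 ((yhd2_mc r hq hq').symm.trans e)
    have hg' := (Dat.e4_memG _).1 ((L.dat m).P_le hg)
    refine Dat.Iso.n ⟨g, (Dat.e4_memG _).2 ⟨fun i j e => ⟨(hg'.1 i j e).1,
      h i j (hg'.1 i j e).2⟩, hg'.2⟩, rfl⟩ (Dat.N.anti (Dat.n_iff_list.2 ⟨K.1.flatten,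
        ⟨K.2.1.part, K.2.1.bal⟩, rfl, 1, E.base.one_mem_P, ?_⟩) (by omega) l)
    rw [actR_one]
    exact fun a i j n => hq.mem a i j fun ⟨_, _, u, hu, o⟩ =>
      n (o.sub (List.sublist_flatten_of_mem hu))
  · by_cases l : k < L.1.flatten.length
    · rw [BT_univ L l]
      trivial
    obtain ⟨s, rfl⟩ := L.exists_sl (not_lt.1 l)
    obtain ⟨a, ha⟩ := (Dat.n_succ_iff (s.toSlot rfl rfl)
      ((Dat.ss_congr (E := E) (D := s.wx.dat m) rfl h ((s.wx.dat m).R_le hp.mem)).2 hp.ss)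
      fun a i j n => hp.mem a i j fun e => n (s.rl_iff.1 e.2.2)).1 hn
    exact (mem_BT hk).2 (yhd2_up s hp (mt (Dat.stbOn_congr (E := E) (D := s.wx.dat m) rfl rfl h
      fun i hi j hj => s.cp_iff.2 (hi.trans hj.symm)).2 ha))

theorem NU_BT (hk : 0 < k) (h0 : Adm col th [[Finset.univ]]) (s : Sl col th k) :
    (NU k m h0 (k + 1)).A s = (BT col th k m).A s.wx := Set.ext fun x => by
  obtain ⟨p, hp, rfl⟩ := Dat.exists_pt x
  exact (mem_NU h0 hp).trans (pt_mem_BT hk s.wx hp (E := (top h0).dat m) rfl rfl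
    fun _ _ _ => ⟨_, List.mem_singleton.2 rfl, _, List.mem_singleton.2 rfl, _,
      List.mem_singleton.2 rfl, Finset.mem_univ _, Finset.mem_univ _⟩).symm

end Pool.Agent.CS
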