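import Pool.Agent.P.MP_d34769_ag.YHD3

/-! Relative classes of the cobar diagrams inject into absolute classes. -/

open Set

set_option linter.unusedSectionVars false

noncomputable section
namespace Pool.Agent.CS

variable {I I' I'' : Type} [Fintype I] [Fintype I'] [Fintype I''] [DecidableEq I] [DecidableEq I']
  [DecidableEq I''] {col : I → Fin 3} {th : Fin 3 → ℤ} {k l m : ℕ} {n : ℤ}

theorem Wx.nonempty (L : Wx col th k) (hk : 0 < k) : Nonempty I := by
  obtain ⟨b, hb⟩ := List.exists_mem_of_length_pos (hk.trans_le L.le)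
  exact (L.2.1.part.1 b hb).elim fun i _ => ⟨i⟩

theorem Wx.adm_top (L : Wx col th k) (hk : 0 < k) : Adm col th [[Finset.univ]] := by
  have := L.nonempty hk
  refine ⟨⟨by simp, by simp⟩, by simp, List.forall_mem_singleton.2 ?_⟩
  exact sum_union_zero _ L.2.1.part.pw L.2.1.bal _ fun j =>
    iff_of_true (Finset.mem_univ j) (L.2.1.part.mem j)

namespace Sp
variable {e : I' → I} {f : I'' → I} (h : Sp e f)

/-- the product of two cobar diagrams as a block -/
def blk (hk : 0 < k) (hl : 0 < l) (m : ℕ) : Dg.Blk ((dgT (col ∘ e) th k m).prod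
    (dgT (col ∘ f) th l m) shT_refl shT_refl 1) (dgT col th (k + l) m) where
  j := h.join
  inj := h.join_inj
  e p := (h.fac_l p).homeo (h.fac_r p) h.cov h.ne
  deg p := by
    have h1 := Wx.le p.1
    have h2 := Wx.le p.2
    have h3 := h.join_len p
    change (h.join p).1.flatten.length - 1 =
      p.1.1.flatten.length - 1 + (p.2.1.flatten.length - 1) + 1
    omega
  ε p q := h.join_ε p q hk
  up p x hx := h.mem_join.2 fun i => by
    rw [RS.sl ((shT col th _).sup _ _ hx).1]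
    exact h.mem_join.1 ⟨p, rfl⟩ i
  com {p q} c c' x := (congrArg _ (dgT_mp' c' x)).trans (Prod.ext
    (((h.fac_l p).mc_mor (h.fac_l q) (relMor c' m) (relMor c.1 m) (fun _ => rfl) (fun _ _ => rfl)
      x).trans (dgT_mp' c.1 _).symm)
    (((h.fac_r p).mc_mor (h.fac_r q) (relMor c' m) (relMor c.2 m) (fun _ => rfl) (fun _ _ => rfl)
      x).trans (dgT_mp' c.2 _).symm))

variable (hk : 0 < k) (hl : 0 < l)

theorem blk_up (d : ℕ) (p : Wx (col ∘ e) th k × Wx (col ∘ f) th l) (x : ((h.join p).dat m).XS) :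
    x ∈ ((dgT col th (k + l) m).up d).A (h.join p) ↔
      (h.blk hk hl m).e p x ∈ (Dg.up _ d).A p := by
  refine (h.blk hk hl m).up_iff (fun p q c => (h.join_rs p q).2 c) (fun L p c => ?_) d p x
  obtain ⟨q, rfl⟩ := (h.mem_join (L := L)).2 fun i => by
    rw [show slot L.1 i = _ from (RS.sl c i).symm]
    exact h.mem_join.1 ⟨p, rfl⟩ i
  exact ⟨q, rfl, (h.join_rs q p).1 c⟩

theorem rel_l (w : Wc (col ∘ e)) : ∃ z, (h.blk hk hl m).Rel (actT col th (k + l) m)
    ((actT (col ∘ e) th k m).lft _ shT_refl shT_refl 1) z w := by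
  obtain ⟨z, h1, h2, h3⟩ := h.exists_W (th := th) (k := k) (l := l) w 1
  refine ⟨z, fun p => ?_⟩
  have c := h3 p
  rw [map_one] at c
  exact ⟨c, rfl, fun x => Prod.ext
    ((h.fac_l p).mc_mor (h.fac_l _) (actMor z c m) (actMor w rfl m) h1 (fun _ _ => rfl) x)
    (((h.fac_r p).mc_mor (h.fac_r _) (actMor z c m) (Dat.Mor.id _) h2 (fun _ _ => rfl) x).trans
      (DFunLike.congr_fun Dat.Mor.mc_id _))⟩

theorem rel_r (v : Wc (col ∘ f)) : ∃ z, (h.blk hk hl m).Rel (actT col th (k + l) m)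
    ((actT (col ∘ f) th l m).rgt _ shT_refl shT_refl 1) z v := by
  obtain ⟨z, h1, h2, h3⟩ := h.exists_W (th := th) (k := k) (l := l) 1 v
  refine ⟨z, fun p => ?_⟩
  have c := h3 p
  rw [map_one] at c
  exact ⟨c, rfl, fun x => Prod.ext
    (((h.fac_l p).mc_mor (h.fac_l _) (actMor z c m) (Dat.Mor.id _) h1 (fun _ _ => rfl) x).trans
      (DFunLike.congr_fun Dat.Mor.mc_id _))
    ((h.fac_r p).mc_mor (h.fac_r _) (actMor z c m) (actMor v rfl m) h2 (fun _ _ => rfl) x)⟩

theorem blk_ki (h1 : (actT (col ∘ e) th k m).KI (BT _ th k m) n)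
    (h2 : (actT (col ∘ f) th l m).Lf (BT _ th l m) n) {j : ℤ} (hj : j ≤ n)
    {w : (dgT col th (k + l) m).T} (hw : w ∈ (Dg.bc ⊤ (BT col th (k + l) m)).cx.Z j)
    (hf : w ∈ Fix (actT col th (k + l) m).r) (hb : w ∈ (Dg.bc ⊤ ⊥).cx.B j) :
    (h.blk hk hl m).res w ∈ (Dg.bc ⊤ (Dg.up _ (k + l))).cx.B j := by
  have h3 := ((h.blk hk hl m).res_mor fun p x => (h.blk_up hk hl (k + l) p x).2).mem_Z hw
  have h4 := ((h.blk hk hl m).res_mor (A := ⊥) (A' := ⊥) fun _ _ => id).mem_B
    (Dg.yp4_monoZ (fun _ => Subset.rfl) (fun _ => empty_subset _) hw).1 hb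
  rw [add_zero] at h3 h4
  rw [Dg.up_prod dgT_id dgT_id (d := k) (d' := l)
    (fun L => by have := Wx.le L; have := shT_deg L; omega)
    (fun L => by have := Wx.le L; have := shT_deg L; omega) rfl] at h3 ⊢
  exact Dg.kun_ki dgT_id dgT_id _ _ (Dg.up_cl k) (Dg.up_cl l) inv_BT inv_BT h1 h2 (by omega) h3
    ((h.blk hk hl m).res_fix (h.rel_l hk hl) hf) ((h.blk hk hl m).res_fix (h.rel_r hk hl) hf) h4

end Sp

theorem sp_sub (F : Finset I) :
    Sp (Subtype.val : {i // i ∈ F} → I) (Subtype.val : {i // i ∉ F} → I) :=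
  ⟨Subtype.val_injective, Subtype.val_injective,
    fun i => (em (i ∈ F)).imp (fun c => ⟨⟨i, c⟩, rfl⟩) fun c => ⟨⟨i, c⟩, rfl⟩,
    fun i j c => j.2 (c ▸ i.2)⟩

theorem ki_add (hk : 0 < k) (hl : 0 < l)
    (h1 : ∀ (J : Type) [Fintype J] [DecidableEq J] (c : J → Fin 3),
      Fintype.card J < Fintype.card I → (actT c th k m).KI (BT c th k m) n)
    (h2 : ∀ (J : Type) [Fintype J] [DecidableEq J] (c : J → Fin 3),
      Fintype.card J < Fintype.card I → (actT c th l m).Lf (BT c th l m) n) :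
    (actT col th (k + l) m).KI (BT col th (k + l) m) n := fun j hj w hw hf hb => by
  refine Dg.blk_B (fun F : Finset I => (sp_sub F).blk hk hl m) (fun L => ?_)
    (fun F => (sp_sub F).blk_up hk hl (k + l)) hw.1 fun F => ?_
  · have key : ∀ F : Finset I, L ∈ range ((sp_sub F).blk hk hl m).j ↔
        F = Finset.univ.filter fun i => slot L.1 i < k := fun F =>
      (sp_sub F).mem_join.trans (by simp [Finset.ext_iff, Iff.comm])
    exact ⟨_, (key _).2 rfl, fun F c => (key F).1 c⟩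
  · by_cases c : Nonempty (Wx (col ∘ (Subtype.val : {i // i ∈ F} → I)) th k ×
      Wx (col ∘ (Subtype.val : {i // i ∉ F} → I)) th l)
    · obtain ⟨A, B⟩ := c
      obtain ⟨a⟩ := A.nonempty hk
      obtain ⟨b⟩ := B.nonempty hl
      exact (sp_sub F).blk_ki hk hl (h1 _ _ (Fintype.card_subtype_lt b.2))
        (h2 _ _ (Fintype.card_subtype_lt (not_not.2 a.2))) hj hw hf hb
    · exact Cx.meq (zero_mem _) (funext fun p => (c ⟨p⟩).elim)

theorem lf_one (IH : ∀ h0 : Adm col th [[Finset.univ]], ∀ j < n, SurN m h0 j) :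
    (actT col th 1 m).Lf (BT col th 1 m) n := fun j hj y hy hf => by
  by_cases h0 : Adm col th [[Finset.univ]]
  · rw [BT_one h0] at hy ⊢
    obtain ⟨x, hx, e⟩ := IH h0 j hj y (Dg.yp4_Z.2 ⟨Cx.Zcast hy (add_zero j).symm, hf⟩)
    exact ⟨x, (Dg.yp4_Z.1 hx).1, (Dg.yp4_Z.1 hx).2, Cx.Bcast (Dg.yp4_le e) (add_zero j)⟩
  · exact ⟨0, zero_mem _, zero_mem _, Cx.meq (zero_mem _)
      (funext fun L => (h0 (Wx.adm_top L one_pos)).elim)⟩

/-- KI for all numbers of words -/
theorem ki_all (IH : ∀ (J : Type) [Fintype J] [DecidableEq J] (c : J → Fin 3),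
      Fintype.card J < Fintype.card I → ∀ h : Adm c th [[Finset.univ]], ∀ j < n, SurN m h j)
    (hk : 2 ≤ k) : (actT col th k m).KI (BT col th k m) n := by
  have key : ∀ a, ∀ (J : Type) [Fintype J] [DecidableEq J] (c : J → Fin 3),
      Fintype.card J < Fintype.card I → (actT c th (a + 1) m).KI (BT c th (a + 1) m) n := by
    intro a
    induction a with
    | zero => exact fun J _ _ c hJ => (Dg.ki_iff inv_BT).2 (lf_one (IH J c hJ))
    | succ a ih =>
      exact fun J _ _ c hJ => ki_add a.succ_pos one_pos (fun J' _ _ c' h => ih J' c' (h.trans hJ))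
        fun J' _ _ c' h => lf_one (IH J' c' (h.trans hJ))
  obtain ⟨a, rfl⟩ : ∃ a, k = a + 1 + 1 := ⟨k - 2, by omega⟩
  exact ki_add a.succ_pos one_pos (key a) fun J _ _ c h => lf_one (IH J c h)

end Pool.Agent.CS
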