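import Pool.Agent.P.MP_d34769_ag.YHC5

/-! Extension by zero from the lowest column of the cobar diagram. -/

open Set

set_option linter.unusedSectionVars false

noncomputable section
namespace Pool.Agent.CS
open Pool.Agent.P.MP_d34769_ag

variable {I : Type} [Fintype I] [DecidableEq I] {col : I → Fin 3} {th : Fin 3 → ℤ} {k m m' : ℕ}

theorem tau_sing {X M : Type} [AddCommGroup M] : ∀ (n : ℕ) {k : ℕ} (f : Fin k → X) (a b : Fin k)
    (_ : a.1 = n) (_ : b.1 = n + 1) (φ : List (List X) → M),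
    tau n ((List.ofFn f).map fun x => [x]) φ =
      -φ ((List.ofFn fun c => f (Equiv.swap a b c)).map fun x => [x])
  | _, 0, _, a, _, _, _, _ => a.elim0
  | 0, 1, _, _, b, _, hb, _ => absurd b.2 (by omega)
  | 0, k + 2, f, a, b, ha, hb, φ => by
    obtain rfl : a = 0 := Fin.ext ha
    obtain rfl : b = Fin.succ 0 := Fin.ext hb
    have e : ∀ c : Fin k, Equiv.swap 0 (Fin.succ 0) c.succ.succ = c.succ.succ := fun c =>
      Equiv.swap_apply_of_ne_of_ne (Fin.succ_ne_zero _)
        ((Fin.succ_injective _).ne (Fin.succ_ne_zero _))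
    simp only [List.ofFn_succ, List.map_cons, tau, e, Equiv.swap_apply_left, Equiv.swap_apply_right,
      List.length_singleton, mul_one, pow_one, neg_smul, one_smul]
  | n + 1, k + 1, f, a, b, ha, hb, φ => by
    obtain ⟨a, rfl⟩ := Fin.exists_succ_eq.2 (show a ≠ 0 from fun c => by simp [c] at ha)
    obtain ⟨b, rfl⟩ := Fin.exists_succ_eq.2 (show b ≠ 0 from fun c => by simp [c] at hb)
    rw [List.ofFn_succ, List.ofFn_succ, List.map_cons, List.map_cons, tau,
      tau_sing n (fun c => f c.succ) a b (Nat.succ_injective ha) (Nat.succ_injective hb),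
      Equiv.swap_apply_of_ne_of_ne (Fin.succ_ne_zero _).symm (Fin.succ_ne_zero _).symm]
    simp only [(Fin.succ_injective _).swap_apply]

theorem Wx.le_tot (L : Wx col th k) : k ≤ L.1.flatten.length := L.2.2.ge.trans L.2.1.len_le

theorem Wx.sl_or (L : Wx col th k) : (∃ s : Sl col th k, s.wx = L) ∨ k < L.1.flatten.length :=
  (le_or_gt _ _).imp_left L.exists_sl

theorem Sl.tot (s : Sl col th k) : s.wx.1.flatten.length = k := by
  rw [s.flatten, fib, List.length_ofFn]

theorem fib_act (g : Gm col k) (s : Sl col th k) :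
    fib (actS col th k g s).1 =
      List.ofFn fun a => (Finset.univ.filter fun i => s.1 i = g.2⁻¹ a).image g.1.1 := by
  refine congrArg List.ofFn (funext fun a => Finset.ext fun i => ?_)
  obtain ⟨i, rfl⟩ := g.1.1.surjective i
  rw [g.1.1.injective.mem_finset_image]
  simp only [Finset.mem_filter, Finset.mem_univ, true_and, actS_eq rfl]
  exact (Equiv.eq_symm_apply g.2).symm

theorem wx_actS (w : Wc col) (s : Sl col th k) :
    (actS col th k (w, 1) s).wx = actI col th k w s.wx :=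
  Subtype.ext (by
    rw [actI_val, Sl.wx_val, Sl.wx_val, fib_act]
    simp [rlb, fib, List.map_ofFn, Function.comp_def])

theorem tau_wx {M : Type} [AddCommGroup M] {n : ℕ} (s : Sl col th k) {a b : Fin k} (ha : a.1 = n)
    (hb : b.1 = n + 1) (φ : List (List (Finset I)) → M) :
    tau n s.wx.1 φ = -φ (actS col th k (1, Equiv.swap a b) s).wx.1 := by
  rw [Sl.wx_val, Sl.wx_val, fib_act, fib, tau_sing n _ a b ha hb]
  simp only [Equiv.swap_inv, OneMemClass.coe_one, Equiv.Perm.coe_one, Finset.image_id]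
  all_goals congr

theorem WOp.len {k' : ℕ} (A : WOp col th k k') {L : Wx col th k} {K : Wx col th k'}
    (h : A.sh.μ L K ≠ 0) : K.1.flatten.length = L.1.flatten.length :=
  (A.sup L K.1 ((A.nat L.1).of_ne h)).2.2

open Classical in
variable (col th k m) in
/-- extension by zero -/
def extU : (dgU col th k m).T →ₗ[ℂ] (dgT col th k m).T :=
  mat (T := fun L => AS ((dgT col th k m).X L)) (T' := fun s => AS ((dgU col th k m).X s))
    (R := fun L s => Sl.wx s = L) (fun _ _ => 1)
    fun {L s} h => AS.pl (relMor (L := L) (K := Sl.wx s) (h ▸ RS.refl _) m).mc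

theorem ext_wx (c : (dgU col th k m).T) (s : Sl col th k) : extU col th k m c s.wx = c s := by
  refine (mat_apply _ _ _ _).trans ((Finset.sum_eq_single s (fun s' _ h => dif_neg fun e =>
    h (Sl.wx_inj e)) fun h => absurd (Finset.mem_univ _) h).trans ((dif_pos rfl).trans ?_))
  rw [Int.cast_one, one_smul]
  exact (congrArg (AS.pull · (c s)) (funext (mc_one _ (fun _ => rfl) fun _ _ => rfl))).trans
    (AS.pull_id _)

theorem ext_not (c : (dgU col th k m).T) {L : Wx col th k} (h : k < L.1.flatten.length) :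
    extU col th k m c L = 0 :=
  mat_eq_zero fun s r _ => absurd (r ▸ Sl.tot s) h.ne'

theorem Dg.d_low {S : Sh} {P : Dg S} {K A : P.Fam} (c : P.T) {i : S.ι}
    (h : ∀ j, S.deg i ≤ S.deg j) : (Dg.bc K A).cx.d c i = AS.d (c i) := by
  rw [Dg.cx_d, HT.BG.D_apply, Pi.add_apply, Sys.bg_d, Sys.bg_δ, mat_eq_zero fun j _ e =>
    absurd ((S.sup _ _ e).2.symm.trans_le (h j)) (Nat.not_succ_le_self _), map_zero, add_zero]
  rfl

theorem Dg.d_mem {S : Sh} {P : Dg S} {K A : P.Fam} {c : P.T} (h : c ∈ (Dg.bc K A).U) (i : S.ι) :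
    (Dg.bc K A).cx.d c i ∈ zz (A.A i) := Dg.mem_N (A := A).1 (Dg.N_D A c h) i

theorem d_wx {K A : (dgT col th k m).Fam} (c : (dgT col th k m).T) (s : Sl col th k) :
    (Dg.bc K A).cx.d c s.wx = AS.d (c s.wx) :=
  Dg.d_low c fun L => s.deg.trans_le (Nat.sub_le_sub_right (Wx.le_tot L) 1)

theorem ext_fix {c : (dgU col th k m).T} (h : c ∈ Fix (actU col th k m).r) :
    extU col th k m c ∈ Fix (actT col th k m).r := by
  refine mem_fixT.2 fun w L K e => ?_
  rcases L.sl_or with ⟨s, rfl⟩ | hL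
  · obtain rfl := (wx_actS w s).trans e
    rw [ext_wx, ext_wx, mem_fixU.1 h (w, 1) rfl, map_one, Units.val_one, Int.cast_one, one_smul]
    exact congrArg (fun f : Dat.Mor _ _ => AS.pull f.mc _)
      (Dat.Mor.ext' (fun _ => rfl) fun _ _ => rfl)
  · rw [ext_not c hL, ext_not c (L := K) (by rwa [← e, actI_val, flatten_rlb, List.length_map])]
    exact (map_zero _).symm

theorem sT_ext (h : 2 * m' ≤ m) (c : (dgU col th k m).T) :
    sT col th k h (extU col th k m c) = 0 :=
  funext fun L => mat_eq_zero fun _ _ e => (congrArg _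
    (ext_not c ((Wx.le_tot L).trans_eq (WOp.len _ e).symm))).trans (map_zero _)

theorem tT_ext {c : (dgU col th k m).T} (h : c ∈ Fix (actU col th k m).r) {n : ℕ}
    (hn : n + 1 < k) : tT col th k m n (extU col th k m c) = extU col th k m c := by
  funext L
  rcases Wx.sl_or L with ⟨s, rfl⟩ | hL
  · have e := fun K : Wx col th k =>
      tau_wx s (a := ⟨n, by omega⟩) (b := ⟨n + 1, hn⟩) rfl rfl (ind K.1)
    generalize hg : ((1, Equiv.swap ⟨n, by omega⟩ ⟨n + 1, hn⟩) : Gm col k) = g at e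
    have e1 : (opT col th k n).sh.μ s.wx (actS col th k g s).wx = -1 :=
      (e _).trans (congrArg Neg.neg (if_pos rfl))
    have r := ((opT col th k n).sh.sup _ _ (e1.trans_ne (by decide))).1
    refine (mat_apply _ _ _ _).trans ((Finset.sum_eq_single (actS col th k g s).wx
      (fun K _ hK => ?_) fun h => absurd (Finset.mem_univ _) h).trans ((dif_pos r).trans ?_))
    · have e2 : (opT col th k n).sh.μ s.wx K = 0 :=
        (e K).trans (neg_eq_zero.2 (if_neg fun c => hK (Subtype.ext c.symm)))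
      simp [e2]
    · rw [e1, ext_wx, ext_wx, mem_fixU.1 h g (s := s) rfl]
      subst hg
      rw [Equiv.Perm.sign_swap (show (⟨n, _⟩ : Fin k) ≠ ⟨n + 1, hn⟩ by simp)]
      exact congrArg (fun f : Dat.Mor _ _ => ((-1 : ℤ) : ℂ) • AS.pull f.mc (c _))
        (Dat.Mor.ext' (h := WOp.mor (fr_T n) r) (h' := morU _ rfl m) (fun _ => rfl) fun _ _ => rfl)
  · rw [ext_not c hL]
    exact mat_eq_zero fun _ _ e => (congrArg _
      (ext_not c (hL.trans_eq (WOp.len _ e).symm))).trans (map_zero _)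

variable {B : (dgT col th k m).Fam} {BU : (dgU col th k m).Fam}
  (hB : ∀ L : Wx col th k, k < L.1.flatten.length → B.A L = univ)
  (hU : ∀ s : Sl col th k, BU.A s = B.A s.wx)
include hU

theorem ext_G {n : ℤ} {c : (dgU col th k m).T} (h : c ∈ (Dg.bc ⊤ BU).cx.G n) :
    extU col th k m c ∈ (Dg.bc ⊤ B).cx.G n :=
  Dg.mem_cx_G.2 fun L => by
    rcases Wx.sl_or L with ⟨s, rfl⟩ | hL
    · rw [ext_wx, s.deg, ← hU]
      exact Dg.one_mem_G.1 h s
    · rw [ext_not c hL]
      exact zero_mem _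

theorem ext_inj0 {n : ℤ} {c : (dgU col th k m).T} (h : extU col th k m c ∈ (Dg.bc ⊤ B).cx.B n) :
    c ∈ (Dg.bc ⊤ BU).cx.B n := by
  obtain ⟨b, hb, e⟩ := Cx.mem_B.1 h
  refine Cx.mem_B.2 ⟨fun s => b (Sl.wx s), Dg.one_mem_G.2 fun s => ?_,
    (Dg.mem_N (A := BU)).2 fun s => ?_⟩
  · have := Dg.mem_cx_G.1 hb (Sl.wx s)
    rwa [Sl.deg s, ← hU s] at this
  · exact Cx.meq ((Dg.mem_N (A := B)).1 e (Sl.wx s)) (congrArg₂ (· - ·) (ext_wx c s)
      ((d_wx b s).trans (Dg.one_d (P := dgU col th k m) (fun s => b (Sl.wx s)) s).symm))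

include hB

theorem ext_mor0 : (Dg.bc ⊤ BU).cx.Mor (Dg.bc ⊤ B).cx (extU col th k m) 0 where
  fG n _ h := Cx.Gcast (ext_G hU h) (add_zero n).symm
  fN _ c _ h := (Dg.mem_N (A := B)).2 fun L => by
    rcases Wx.sl_or L with ⟨s, rfl⟩ | hL
    · rw [ext_wx]
      exact (Dg.mem_N (A := BU)).1 h s
    · rw [ext_not c hL]
      exact zero_mem _
  fd _ c h := (Dg.mem_N (A := B)).2 fun L => by
    rw [Pi.sub_apply]
    rcases Wx.sl_or L with ⟨s, rfl⟩ | hL
    · rw [ext_wx, d_wx, ext_wx]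
      exact Cx.meq (zero_mem _) (sub_eq_zero.2 (Dg.one_d c s)).symm
    · rw [ext_not _ hL, zero_sub, Dg.Fam.top_A, ← hB L hL]
      exact neg_mem (Dg.d_mem (ext_G hU h).2 L)

variable (iB : (actT col th k m).Inv B) (iU : (actU col th k m).Inv BU)

theorem ext_mor : ((actU col th k m).bc (actU col th k m).inv_top iU).cx.Mor
    ((actT col th k m).bc (actT col th k m).inv_top iB).cx (extU col th k m) 0 where
  fG n c h := by
    have := (ext_mor0 hB hU).fG n c ⟨h.1, h.2.1⟩
    exact ⟨this.1, this.2, ext_fix h.2.2⟩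
  fN n c h := (ext_mor0 hB hU).fN n c ⟨h.1, h.2.1⟩
  fd n c h := (ext_mor0 hB hU).fd n c ⟨h.1, h.2.1⟩

omit hB in
theorem ext_inj (n : ℤ) : ((actU col th k m).bc (actU col th k m).inv_top iU).cx.Inj
    ((actT col th k m).bc (actT col th k m).inv_top iB).cx (extU col th k m) 0 n := by
  rw [Bc.Act.inv_cx, Bc.Act.inv_cx]
  exact fun c hc h => Cx.Act.inj _ n c hc (ext_inj0 hU (Cx.Act.ya3_le _ h))

/-- the classes of the lowest column are symmetric and primitive -/
theorem ext_out {j : ℤ} (KI : ((actT col th k m).bc (actT col th k m).inv_top iB).cx.Inj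
    (bcT col th k m).cx LinearMap.id 0 j) (h : 2 * m' ≤ m) :
    ∃ J : ((actU col th k m).bc (actU col th k m).inv_top iU).cx.H j →ₗ[ℂ] (bcT col th k m).cx.H j,
      Function.Injective J ∧ ∀ a, J a ∈ KT col th k h j := by
  have M := ext_mor hB hU iB iU
  have M' : ((actT col th k m).bc (actT col th k m).inv_top iB).Mor (bcT col th k m)
      LinearMap.id 0 := Bc.Act.mor_inv _ _
    (Dg.mor_id (fun _ => Subset.rfl) fun _ => empty_subset _) fun _ _ => rfl
  have e : j + (0 + 0) = j := by simp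
  refine ⟨(M'.cx.comp M).hm e, (Cx.Mor.inj_iff _ e).1
    (Cx.Inj.comp M ((add_zero j).symm ▸ KI) (ext_inj hU iB iU j)), fun a => ?_⟩
  obtain ⟨x, rfl⟩ := Cx.cls_surj j a
  rw [Cx.Mor.hm_cls, mem_KT]
  exact ⟨Cx.meq (zero_mem _) (sT_ext h x.1).symm, fun n hn =>
    Cx.meq (zero_mem _) (sub_eq_zero.2 (tT_ext x.2.1.2.2 hn)).symm⟩

end Pool.Agent.CS
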