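import Pool.Agent.P.MP_d34769_ag.YHD5
import Pool.Agent.P.MP_d34769_ag.YHCz

/-! The export of the blocks HC and HD. -/

noncomputable section
namespace Pool.Agent.CS

variable {I : Type} [Fintype I] [DecidableEq I] {col : I → Fin 3} {th : Fin 3 → ℤ}
  {k m m₁ m₂ n : ℕ} (h0 : Adm col th [[Finset.univ]])

theorem hcd (hk : 2 ≤ k) (h : 2 * m₂ ≤ m₁) (hn : n < m₁) (hm : Fintype.card I * m₁ ≤ m)
    (IH : ∀ (J : Type) [Fintype J] [DecidableEq J] (c : J → Fin 3),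
      Fintype.card J < Fintype.card I → ∀ h : Adm c th [[Finset.univ]], ∀ i : ℤ, i < n →
        SurN m₁ h i) {j : ℤ} (hj : j ≤ n) :
    ∃ J : (bcN m h0 (NX m h0 k) (NX m h0 (k + 1))).cx.H j →ₗ[ℂ] (bcT col th k m₁).cx.H j,
      Function.Injective J ∧ ∀ a, J a ∈ KT col th k h j :=
  hcd_of h0 hk h hm IH hj fun c => hc h0 c (by omega) hn j hj

end Pool.Agent.CS
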