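import Pool.Agent.P.MP_d34769_ag.YHB1

/-! The linear algebra of the dimension count. -/

open Module

noncomputable section
namespace Pool.Agent.CS
variable {H H' : Type} [AddCommGroup H] [Module ℂ H] [AddCommGroup H'] [Module ℂ H']

theorem he_count [Module.Finite ℂ H] [Module.Finite ℂ H'] (r : H →ₗ[ℂ] H') {K : Submodule ℂ H}
    (hK : LinearMap.ker r ≤ K) (s : Finset ℕ) {g a : ℕ → ℕ}
    (h1 : finrank ℂ H' + ∑ c ∈ s, a c ≤ finrank ℂ H) (h2 : finrank ℂ K = ∑ c ∈ s, g c)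
    (h3 : ∀ c ∈ s, g c ≤ a c) :
    Function.Surjective r ∧ LinearMap.ker r = K ∧ ∀ c ∈ s, g c = a c := by
  have e1 := r.finrank_range_add_finrank_ker
  have e2 := Submodule.finrank_mono hK
  have e3 := Finset.sum_le_sum h3
  have e4 := (LinearMap.range r).finrank_le
  exact ⟨LinearMap.range_eq_top.1 (Submodule.eq_top_of_finrank_eq (by omega)),
    Submodule.eq_of_le_of_finrank_eq hK (by omega), (Finset.sum_eq_sum_iff_of_le h3).1 (by omega)⟩

theorem grd_map {W : ℕ → Submodule ℂ H} {W' : ℕ → Submodule ℂ H'} (f : H →ₗ[ℂ] H')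
    (h : ∀ c a, f a ∈ W' c ↔ a ∈ W c) (K : Submodule ℂ H) [Module.Finite ℂ K] (c : ℕ) :
    grd W' (K.map f) c = grd W K c := by
  have f1 : Module.Finite ℂ ↥(K ⊓ W c) := Submodule.finiteDimensional_inf_left _ _
  have f2 : Module.Finite ℂ ↥(K.map f ⊓ W' c) := Submodule.finiteDimensional_inf_left _ _
  refine le_antisymm
    (rel_le (Q := K ⊓ W c) (f.graph.comap (LinearEquiv.prodComm ℂ _ _).toLinearMap) ?_ ?_).2
    (rel_le (P := K ⊓ W c) (Q := K.map f ⊓ W' c) f.graph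
      (fun a ha => ⟨f a, ⟨⟨a, ha.1, rfl⟩, (h c a).2 ha.2⟩, rfl⟩) ?_).2
  · rintro _ ⟨⟨a, ha, rfl⟩, e⟩
    exact ⟨a, ⟨ha, (h c a).1 e⟩, rfl⟩
  · rintro _ a (rfl : _ = f a) e
    exact (h _ a).2 e
  · rintro a _ (rfl : _ = f a) e
    exact (h _ a).1 e

theorem par_sum_le {κ : Type} (s : Finset κ) {a : κ → ℕ → ℕ → ℕ} {e : ℕ → ℕ → ℕ}
    (h : ∀ c p, ∑ k ∈ s, a k c p ≤ e c p) (j c : ℕ) : ∑ k ∈ s, par (a k) j c ≤ par e j c := by
  unfold par
  split_ifs
  · exact h _ _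
  · simp

theorem par_even (a : ℕ → ℕ → ℕ) (c p : ℕ) : par a (2 * p + c) c = a c p := by
  simp [par]

theorem SC.finrank_chain {B T : Type} [TopologicalSpace B] [AddCommGroup T] [Module ℂ T]
    (S : SC B T) {N : ℕ → Set B} (hN : Antitone N) (j : ℤ) (b : ℕ → ℕ) {e : ℕ} (he : N (e + 1) = ∅)
    (i : ℕ) : ∀ a, a + i = e + 1 → (∀ k, a ≤ k → Module.Finite ℂ ((S.cx (N k) (N (k + 1))).H j) ∧
      finrank ℂ ((S.cx (N k) (N (k + 1))).H j) ≤ b k) → Module.Finite ℂ ((S.cx (N a) ∅).H j) ∧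
        finrank ℂ ((S.cx (N a) ∅).H j) ≤ ∑ k ∈ Finset.Icc a e, b k := by
  induction i with
  | zero =>
    rintro a (rfl : a = e + 1) -
    have : Subsingleton ((S.cx (N (e + 1)) ∅).H j) := subsingleton_of_forall_eq 0 fun x => by
      obtain ⟨x, rfl⟩ := Cx.cls_surj j x
      exact Cx.cls_eq_zero.2 (Cx.N_le_B (S.mem_zz.2 (by simp [he])))
    exact ⟨inferInstance, by rw [finrank_zero_of_subsingleton]; exact Nat.zero_le _⟩
  | succ i ih =>
    intro a ha h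
    obtain ⟨f1, g1⟩ := ih (a + 1) (by omega) fun k hk => h k (by omega)
    obtain ⟨f2, g2⟩ := h a le_rfl
    rw [← SC.cx_quo (hN a.le_succ) ∅] at f1 g1
    rw [← Set.empty_union (N (a + 1)), ← SC.cx_sub] at f2 g2
    obtain ⟨f3, g3⟩ := Cx.finrank_les (C := S.cx (N a) ∅) (n := j) (SC.zz_d (N (a + 1)))
      (SC.zz_anti (hN a.le_succ))
    refine ⟨f3, g3.trans ?_⟩
    rw [← Finset.insert_Icc_add_one_left_eq_Icc (by omega), Finset.sum_insert (by simp)]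
    exact Nat.add_le_add g2 g1

end Pool.Agent.CS
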