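import Pool.Agent.P.MP_d34769_ag.YHB3
import Pool.Agent.P.MP_d34769_ag.YHE1
import Pool.Agent.P.MP_d34769_ag.YHD9
import Pool.Agent.P.MP_d34769_ag.YO3

/-! The dimension count. -/

open Set Module

noncomputable section
namespace Pool.Agent.CS
open Pool.Agent.P.MP_d34769_ag

variable {I : Type} [Fintype I] [DecidableEq I] {col : I → Fin 3} {th : Fin 3 → ℤ}
  (h0 : Adm col th [[Finset.univ]]) {m m₁ m₂ n : ℕ} {θ : (Fin 3 → ℕ) → ℝ} {o : I → ℕ}

variable (m) in
theorem resN_mor : (bcT col th 1 m).Mor (bcN m h0 (NX m h0 2) ∅) LinearMap.id 0 :=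
  Bc.Act.mor_inv _ _ (Dg.mor_id (fun _ => subset_univ _) fun _ => subset_rfl) fun _ _ => rfl

theorem sT_mor_N (h : 2 * m₂ ≤ m) :
    (bcN m h0 (NX m h0 2) ∅).Mor (bcT col th 2 m₂) (sT col th 1 h) 0 := by
  refine Bc.Act.mor_inv _ _ ((WOp.hom (fr_S h)).sys.mor _ _ _ _ (fun _ _ _ _ => ?_)
    fun {L K} r a x _ hx => ?_) (WOp.hom_r _)
  · exact (SC.mem_zz _).2 fun _ e => e.elim
  · have h1 := L.2.1.len_le
    have h2 := ((opS col th 1).sup L K.1 (((opS col th 1).nat L.1).of_ne a)).2.2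
    rw [L.2.2] at h1
    rw [fam_NX h0 (h1.trans h2.ge)] at hx
    exact zz_pl (mapsTo_univ _ _) hx

theorem ker_res_le (h : 2 * m₂ ≤ m) (j : ℤ) :
    LinearMap.ker ((resN_mor h0 m).cx.hm (add_zero j)) ≤ KT col th 1 h j := by
  intro a ha
  obtain ⟨x, rfl⟩ := Cx.cls_surj j a
  refine (mem_KT h).2 ⟨?_, fun n hn => by omega⟩
  have h1 := (resN_mor h0 m).cx.mem_Z x.2
  rw [add_zero] at h1
  have := (sT_mor_N h0 h).cx.mem_B h1.1 (Cx.cls_eq_zero.1 ha)
  rwa [add_zero] at this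

include h0 in
omit [DecidableEq I] in
theorem card_pos_of_top : 0 < Fintype.card I :=
  Finset.card_pos.2 (h0.part.1 _ (by simp))

theorem he_step (H : Big col θ th o n m₂) (h : 2 * m₂ ≤ m₁) (hn : n < m₁)
    (hm : Fintype.card I * m₁ ≤ m) (h' : 2 * m₂ ≤ m)
    (IH : ∀ (J : Type) [Fintype J] [DecidableEq J] (c : J → Fin 3),
      Fintype.card J < Fintype.card I → ∀ h : Adm c th [[Finset.univ]], ∀ i : ℤ, i < n →
        SurN m₁ h i) {j : ℕ} (hj : j ≤ n) :
    SurN m h0 j ∧ LinearMap.ker ((resN_mor h0 m).cx.hm (add_zero (j : ℤ))) = KT col th 1 h' j ∧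
      ∀ c ≤ j, grd ((bcT col th 1 m).W j) (KT col th 1 h' j) c =
        par (fun c p => ak col θ o 1 (c + 1) p) j c := by
  have hc := card_pos_of_top h0
  let S := ((actT col th 1 m).sc_act (ovT m h0) (fun w _ _ e x => ovT_act h0 w e x)
    Dg.Fam.cl_top Dg.Fam.cl_bot (actT col th 1 m).inv_top (actT col th 1 m).inv_bot).inv
  have hS : ∀ V W, S.cx V W = (bcN m h0 V W).cx :=
    (actT col th 1 m).sc_inv_cx _ fun w _ _ e x => ovT_act h0 w e x
  obtain ⟨f1, g1⟩ := S.finrank_chain (N := NX m h0) (fun _ _ => NX_anti h0) j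
    (fun k => ∑ c ∈ Finset.range (j + 1), par (fun c p => ak col θ o k (c + 1) p) j c)
    (NX_big h0 (Nat.lt_succ_self _)) (Fintype.card I - 1) 2 (by omega) fun k hk => by
      obtain ⟨J, h1, h2⟩ := hcd h0 hk h hn hm IH (j := j) (by exact_mod_cast hj)
      obtain ⟨f, e, b⟩ := KT_le H (by omega : 0 < k) h hj
      have h3 : Function.Injective (J.codRestrict _ h2) := fun _ _ e => h1 (congrArg Subtype.val e)
      rw [hS]
      exact ⟨Module.Finite.of_injective _ h3, (LinearMap.finrank_le_finrank_of_injective h3).trans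
        (e.trans_le (Finset.sum_le_sum fun c hc => b c (by simpa [Nat.lt_succ_iff] using hc)))⟩
  rw [hS] at f1 g1
  obtain ⟨f2, g2⟩ := finite_T (H.mono (by omega : m₂ ≤ m)) hj
  obtain ⟨-, e3, g3⟩ := KT_le H one_pos h' hj
  obtain ⟨a, b, c⟩ := he_count _ (ker_res_le h0 h' j) (Finset.range (j + 1))
    (a := par (fun c p => ak col θ o 1 (c + 1) p) j) ((Nat.add_le_add_right g1 _).trans (by
      refine le_trans ?_ g2
      rw [Finset.sum_comm, ← Finset.sum_add_distrib]
      refine Finset.sum_le_sum fun c _ => le_trans (le_of_eq ?_)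
        (par_sum_le _ (fun c p => sum_ak_le col θ o (Fintype.card I) (c + 1) p) j c)
      rw [← Finset.insert_Icc_add_one_left_eq_Icc (a := 1) hc, Finset.sum_insert (by simp),
        add_comm]
      rfl))
    e3 fun c hc => g3 c (by simpa [Nat.lt_succ_iff] using hc)
  exact ⟨((resN_mor h0 m).cx.sur_iff _).2 a, b, fun d hd => c d (by simpa [Nat.lt_succ_iff])⟩

theorem surN_neg {j : ℤ} (hj : j < 0) : SurN m h0 j := fun y hy => ⟨0, zero_mem _, by
  have h1 := hy.1.1
  rw [add_zero, degZ_neg _ hj] at h1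
  rw [(Submodule.mem_bot ℂ).1 h1, map_zero, sub_zero]
  exact zero_mem _⟩

/-- the integer weight as a real function of the dimension vector -/
def thR (th : Fin 3 → ℤ) (e : Fin 3 → ℕ) : ℝ := (∑ v, th v * e v : ℤ)

omit [Fintype I] [DecidableEq I] in
theorem sgn_thR (col : I → Fin 3) (th : Fin 3 → ℤ) : Sgn col (thR th) th := fun F => by
  have : ∑ v, th v * (dvec col F v : ℤ) = ∑ j ∈ F, th (col j) := by
    rw [← Finset.sum_fiberwise F col]
    refine Finset.sum_congr rfl fun v _ => ?_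
    rw [Finset.sum_congr rfl fun j hj => congrArg th (Finset.mem_filter.1 hj).2, Finset.sum_const,
      nsmul_eq_mul, mul_comm, dvec]
  rw [thR, this]
  exact ⟨Int.cast_pos, Int.cast_eq_zero⟩

theorem sur_all (th : Fin 3 → ℤ) (n N : ℕ) : ∃ m₀, ∀ m, m₀ ≤ m → ∀ (J : Type) [Fintype J]
    [DecidableEq J] (c : J → Fin 3), Fintype.card J < N → ∀ h : Adm c th [[Finset.univ]],
      ∀ i : ℤ, i ≤ n → SurN m h i := by
  induction N with
  | zero => exact ⟨0, fun _ _ _ _ _ _ h => absurd h (Nat.not_lt_zero _)⟩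
  | succ N ih =>
    obtain ⟨m₀, ih⟩ := ih
    refine ⟨N * (m₀ + 2 * mG N n + n + 1), fun m hm J _ _ c hJ h i hi => ?_⟩
    rcases lt_or_ge i 0 with e | e
    · exact surN_neg h e
    lift i to ℕ using e
    have h1 := card_pos_of_top h
    have h2 : Fintype.card J * (m₀ + 2 * mG N n + n + 1) ≤ m :=
      (Nat.mul_le_mul_right _ (by omega)).trans hm
    exact (he_step h (m₂ := mG N n) ⟨sgn_thR c th, fun _ _ _ e => o0_inj e, fun p hp =>
      mG_mono (by omega) hp⟩ (by omega) (by omega) h2 (by nlinarith) (fun J' _ _ c' a b i hi =>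
        ih _ (by omega) J' c' (by omega) b i hi.le) (by exact_mod_cast hi)).1

/-- MAIN -/
theorem he_inv (hθ : Sgn col θ th) (ho : ∀ k l, col k = col l → o k = o l → k = l) (n : ℕ) :
    ∃ m₀, ∀ m, m₀ ≤ m → (∀ j : ℤ, j ≤ n → SurN m h0 j) ∧ ∀ j : ℕ, j ≤ n →
      Module.Finite ℂ ((bcT col th 1 m).cx.H j) ∧ ∀ c p, j = 2 * p + c →
        grd ((bcT col th 1 m).W j) (LinearMap.ker ((resN_mor h0 m).cx.hm (add_zero (j : ℤ)))) c =
          har col θ o (c + 1) p := by
  obtain ⟨m₀, ih⟩ := sur_all th n (Fintype.card I)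
  refine ⟨Fintype.card I * (m₀ + 2 * mG (Fintype.card I) n + n + 1), fun m hm => ?_⟩
  have h1 := card_pos_of_top h0
  have H : Big col θ th o n (mG (Fintype.card I) n) := ⟨hθ, ho, fun p hp => mG_mono le_rfl hp⟩
  have h2 : 2 * mG (Fintype.card I) n ≤ m := by nlinarith
  have key := fun (j : ℕ) (hj : j ≤ n) => he_step h0 H (by omega) (by omega) hm h2
    (fun J _ _ c a b i hi => ih _ (by omega) J c a b i hi.le) hj
  refine ⟨fun j hj => ?_, fun j hj => ⟨(finite_T (H.mono (by omega)) hj).1, fun c p e => ?_⟩⟩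
  · rcases lt_or_ge j 0 with e | e
    · exact surN_neg h0 e
    · lift j to ℕ using e
      exact (key j (by exact_mod_cast hj)).1
  · rw [(key j hj).2.1, (key j hj).2.2 c (by omega), e, par_even, ak_one]

end Pool.Agent.CS
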