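import Pool.Agent.P.MP_d34769_ag.YD4

/-! Strata of a normal crossing pair and products of manifolds are manifolds. -/

open Set Filter Topology
open Pool.Agent.HT (Amb proj IsSNC strat)
open Pool.Agent.HIR

noncomputable section
namespace Pool.Agent.CS

variable {M N e e' : ℕ} {ι : Type}

theorem snc_closed {Z : Set (Amb N)} {D : ι → Set (Amb N)} (h : IsSNC e Z D) (i : ι) :
    IsClosed (D i) := by
  refine isClosed_of_closure_subset fun x hx => ?_
  have hZ : x ∈ Z := h.compact.isClosed.closure_subset (closure_mono (h.sub i) hx)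
  obtain ⟨O, f, κ, hc, ⟨z, hz, rfl⟩, -, hD⟩ := h.chart x hZ
  have hp : Pt Z (proj ∘ f) z ((proj ∘ f) z) := ⟨O, f, hc, rfl, hz, rfl⟩
  by_contra hn
  refine not_mem_closure hp (h.sub i) ?_ hx
  rcases hk : κ i with _ | k
  · filter_upwards [hc.isOpen.mem_nhds hz] with w hw e
    simpa [hk] using (hD i w hw).1 e
  · have h0 : z k ≠ 0 := fun e => hn ((hD i z hz).2 ⟨k, hk, e⟩)
    filter_upwards [hc.isOpen.mem_nhds hz, (continuous_apply k).continuousAt.eventually_ne h0]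
      with w hw h1 e
    exact h1 (by simpa [hk] using (hD i w hw).1 e)

theorem mf_strat [Finite ι] {Z : Set (Amb N)} {D : ι → Set (Amb N)} (h : IsSNC e Z D) {p : ℕ}
    (J : Fin p → ι) : Mf (e - (range J).ncard) (strat Z D J) := by
  refine ⟨h.compact.inter_right (isClosed_iInter fun j => snc_closed h _), fun x hx => ?_⟩
  obtain ⟨O, f, κ, hc, ⟨z, hz, rfl⟩, hκ, hD⟩ := h.chart x hx.1
  have hp : Pt Z (proj ∘ f) z ((proj ∘ f) z) := ⟨O, f, hc, rfl, hz, rfl⟩
  choose k hk _ using fun j => (hD (J j) z hz).1 (mem_iInter.1 hx.2 j)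
  have hT : (range J).ncard = (Finset.univ.image k).card := by
    rw [← ncard_coe_finset,
      ← ncard_image_of_injective (Finset.univ.image k : Set (Fin e)) (Option.some_injective _),
      ← InjOn.ncard_image (f := κ) (s := range J)]
    · congr 1
      rw [Finset.coe_image, Finset.coe_univ, image_univ, ← range_comp, ← range_comp]
      exact congrArg _ (funext hk)
    · rintro _ ⟨a, rfl⟩ _ ⟨b, rfl⟩ e
      exact hκ _ _ _ (hk a) (e ▸ hk a)
  have h1 : (Finset.univ.image k).card ≤ e := by simpa using Finset.card_le_univ (Finset.univ.image k)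
  obtain ⟨t, ht⟩ := exists_emb (e := e - (range J).ncard) (Finset.univ.image k) (by omega)
  refine ⟨_, _, (hp.sub inter_subset_left hx ?_ t ht).2⟩
  filter_upwards [hc.isOpen.mem_nhds hz, hp.ev] with w hw h2
  simp only [strat, mem_inter_iff, h2.mem, true_and, mem_iInter, Finset.forall_mem_image,
    Finset.mem_univ, true_imp_iff]
  exact forall_congr' fun j => (hD _ w hw).trans (by simp [hk])

theorem mem_prj_of_mf {X : Set (Amb M)} (hX : Mf e X) : X ⊆ Prj M := fun _ hx => hX.rep hx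

theorem sgr_eq (X : Set (Amb M)) (Y : Set (Amb N)) :
    (Sgr fun x y => x ∈ X ∧ y ∈ Y) = (fun p : Amb M × Amb N => seg p.1 p.2) '' X ×ˢ Y :=
  Set.ext fun _ => ⟨fun ⟨x, y, h, e⟩ => ⟨(x, y), h, e.symm⟩, fun ⟨p, h, e⟩ => ⟨p.1, p.2, h, e.symm⟩⟩

theorem map_seg {X : Set (Amb M)} {Y : Set (Amb N)} (hX : X ⊆ Prj M) (hY : Y ⊆ Prj N)
    {x : Amb M} {y : Amb N} (hx : x ∈ X) (hy : y ∈ Y) :
    Filter.map (fun p : Amb M × Amb N => seg p.1 p.2) (𝓝[X] x ×ˢ 𝓝[Y] y) =
      𝓝[Sgr fun x y => x ∈ X ∧ y ∈ Y] seg x y := by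
  rw [← nhdsWithin_prod_eq, sgr_eq]
  have hl : LeftInvOn (fun s => (ptr M N s, ptr2 M N s)) (fun p : Amb M × Amb N => seg p.1 p.2)
      (X ×ˢ Y) := fun p hp => Prod.ext (ptr_seg (hX hp.1) (hY hp.2)) (ptr2_seg (hX hp.1) (hY hp.2))
  exact hl.map_nhdsWithin_eq (hl (show (x, y) ∈ X ×ˢ Y from ⟨hx, hy⟩))
    (cont_ptr.prodMk cont_ptr2).continuousWithinAt cont_seg.continuousWithinAt

/-- the product of two charts -/
theorem pt_sgr {X : Set (Amb M)} {Y : Set (Amb N)} (hX : X ⊆ Prj M) (hY : Y ⊆ Prj N)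
    {φ : E e → Amb M} {ψ : E e' → Amb N} {z : E e} {z' : E e'} {x : Amb M} {y : Amb N}
    (h : Pt X φ z x) (h' : Pt Y ψ z' y) : Pt (Sgr fun x y => x ∈ X ∧ y ∈ Y)
      (fun w : E (e + e') => seg (φ (w ∘ Fin.castAdd e')) (ψ (w ∘ Fin.natAdd e)))
      (Fin.append z z') (seg x y) := by
  obtain ⟨g, rfl, ha, h0, hi⟩ := h.rep
  obtain ⟨g', rfl, ha', h0', hi'⟩ := h'.rep
  let L : E (e + e') →L[ℂ] E e := ContinuousLinearMap.pi fun i => .proj (Fin.castAdd e' i)
  let L' : E (e + e') →L[ℂ] E e' := ContinuousLinearMap.pi fun i => .proj (Fin.natAdd e i)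
  have hL : L (Fin.append z z') = z := funext fun i => Fin.append_left z z' i
  have hL' : L' (Fin.append z z') = z' := funext fun i => Fin.append_right z z' i
  rw [← hL] at ha h0 hi
  rw [← hL'] at ha' h0' hi'
  have a1 := ha.comp (L.analyticAt _)
  have a2 := ha'.comp (L'.analyticAt _)
  have e1 : (fun w : E (e + e') => seg ((proj ∘ g) (w ∘ Fin.castAdd e'))
      ((proj ∘ g') (w ∘ Fin.natAdd e))) = proj ∘ fun w => tens ((g ∘ L) w) ((g' ∘ L') w) :=
    funext fun w => seg_proj _ _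
  have e2 : seg x y = proj (tens ((g ∘ L) (Fin.append z z')) ((g' ∘ L') (Fin.append z z'))) := by
    rw [← seg_proj, Function.comp_apply, Function.comp_apply, hL, hL', ← h.eq, ← h'.eq]; rfl
  rw [e1, e2]
  refine pt_of_imm (an_tens a1 a2) (tens_ne h0 h0') (fun v c hv => ?_) ?_
  · obtain ⟨⟨a, b1⟩, b, b2⟩ := imm_tens a1 a2 h0 h0' hv
    rw [fderiv_comp _ ha.differentiableAt L.differentiableAt, L.fderiv] at b1
    rw [fderiv_comp _ ha'.differentiableAt L'.differentiableAt, L'.fderiv] at b2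
    funext i
    exact Fin.addCases (fun i => congrFun (hi _ a b1) i) (fun i => congrFun (hi' _ b b2) i) i
  · rw [← e1, ← e2, ← map_seg hX hY h.mem h'.mem, ← h.map, ← h'.map, prod_map_map_eq,
      ← nhds_prod_eq, Filter.map_map,
      show Fin.append z z' = Fin.appendHomeomorph e e' (z, z') from rfl,
      ← (Fin.appendHomeomorph e e').map_nhds_eq, Filter.map_map]
    congr 1
    funext p
    have a : Fin.append p.1 p.2 ∘ Fin.castAdd e' = p.1 := funext (Fin.append_left p.1 p.2)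
    have b : Fin.append p.1 p.2 ∘ Fin.natAdd e = p.2 := funext (Fin.append_right p.1 p.2)
    exact congrArg₂ seg (congrArg (proj ∘ g) a) (congrArg (proj ∘ g') b)

theorem mf_sgr {X : Set (Amb M)} {Y : Set (Amb N)} (hX : Mf e X) (hY : Mf e' Y) :
    Mf (e + e') (Sgr fun x y => x ∈ X ∧ y ∈ Y) := by
  refine ⟨sgr_eq X Y ▸ (hX.compact.prod hY.compact).image cont_seg, ?_⟩
  rintro _ ⟨x, y, ⟨hx, hy⟩, rfl⟩
  obtain ⟨φ, z, h⟩ := hX.chart x hx
  obtain ⟨ψ, z', h'⟩ := hY.chart y hy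
  exact ⟨_, _, pt_sgr (mem_prj_of_mf hX) (mem_prj_of_mf hY) h h'⟩

end Pool.Agent.CS
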