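import Pool.Agent.P.MP_d34769_ag.YF0
import Pool.Agent.P.MP_d34769_ag.YE9

/-! The moduli space of coherent systems as a quotient of the stable representations. -/

open Set Filter Topology Matrix
open Pool.Agent.PQ (Amb proj)
open Pool.Agent.P.MP_d34769_ag

noncomputable section
namespace Pool.Agent.CS

/-- the stable representations -/
def Dat.Rs {I : Type} [Fintype I] [DecidableEq I] (D : Dat I) : Set (Rp I) :=
  {ρ | ρ ∈ D.R ∧ D.Stb ρ}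

/-- `zq` presents `G` as the quotient of the stable representations -/
structure Zq {I : Type} [Fintype I] [DecidableEq I] (D : Dat I) {N : ℕ} (G : Set (Amb N))
    (zq : Rp I → Amb N) : Prop where
  img : zq '' D.Rs = G
  eq : ∀ ρ ∈ D.Rs, ∀ ρ' ∈ D.Rs, zq ρ = zq ρ' ↔ ∃ g ∈ D.P, actR g ρ = ρ'
  cont : ContinuousOn zq D.Rs
  opn : ∀ ρ ∈ D.Rs, 𝓝[G] (zq ρ) ≤ map zq (𝓝[D.Rs] ρ)
  reg : ∀ ρ ∈ D.Rs, ∃ v : Fin N → MvPolynomial (Co I D.m) ℂ, ∀ f,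
    (fun i => MvPolynomial.eval (co (ρ, f)) (v i)) ≠ 0 ∧ ∀ p : Pt I D.m, p.1 ∈ D.Rs →
      (fun i => MvPolynomial.eval (co p) (v i)) ≠ 0 →
        zq p.1 = proj fun i => MvPolynomial.eval (co p) (v i)

theorem exists_zq {n d k : ℕ} {α : ℝ} {D : Dat (Ix n d k)} (h : Fits n d k α D)
    (hg : ∀ i j, D.gl i j) (hn : 0 < n) (hk : 0 < k) (hα : 0 < α)
    {N : ℕ} {G : Set (Amb N)} (q : @Homeomorph (GMod α n d k) G (modTop α n d k) _)
    (hq : Reg fun x => (q x).1) : ∃ zq, Zq D G zq := by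
  classical
  letI := modTop α n d k
  obtain ⟨pm, h1, h2, h3, h4, h5⟩ := h.exists_pm hn hk hα
  have hR : ∀ {ρ}, ρ ∈ D.Rs ↔ ρ ∈ D.base.R ∧ D.Stb ρ := and_congr_left fun _ => ⟨fun c => D.R_le c,
    fun c a i j k => c a i j fun e => k ⟨e.1, e.2.1, D.gl_rl (hg i j)⟩⟩
  have hP : ∀ {g}, g ∈ D.base.P → g ∈ D.P := fun c =>
    ⟨fun i j k => c.1 i j fun e => k ⟨e.1, hg i j⟩, c.2⟩
  let F : D.Rs → G := fun ρ => q (pm ⟨ρ.1, hR.1 ρ.2⟩)
  have e0 : D.Rs = {ρ | ρ ∈ D.base.R ∧ D.Stb ρ} := Set.ext fun _ => hR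
  have c1 : Continuous F := q.continuous.comp (h1.comp (Homeomorph.setCongr e0).continuous)
  have c2 : IsOpenMap F := q.isOpenMap.comp (h2.comp (Homeomorph.setCongr e0).isOpenMap)
  obtain ⟨zq, hz⟩ : ∃ zq : Rp (Ix n d k) → Amb N, ∀ ρ : D.Rs, zq ρ = F ρ :=
    ⟨fun ρ => if c : ρ ∈ D.Rs then F ⟨ρ, c⟩ else 0, fun ρ => dif_pos ρ.2⟩
  refine ⟨zq, ?_, fun ρ a σ b => ?_, ?_, fun ρ a => ?_, fun ρ a => ?_⟩
  · refine Subset.antisymm ?_ fun z c => ?_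
    · rintro _ ⟨ρ, a, rfl⟩
      exact hz ⟨ρ, a⟩ ▸ (F _).2
    · obtain ⟨ρ, e⟩ := h3 (q.symm ⟨z, c⟩)
      exact ⟨ρ.1, hR.2 ρ.2, (hz ⟨_, hR.2 ρ.2⟩).trans
        (congrArg Subtype.val ((congrArg q e).trans (q.apply_symm_apply _)))⟩
  · rw [hz ⟨ρ, a⟩, hz ⟨σ, b⟩, Subtype.val_inj, q.injective.eq_iff, h4]
    exact ⟨fun ⟨g, c, e⟩ => ⟨g, hP c, e⟩, fun ⟨g, c, e⟩ => ⟨g, D.P_le c, e⟩⟩
  · rw [continuousOn_iff_continuous_domRestrict, show D.Rs.domRestrict zq = _ from funext hz]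
    exact continuous_subtype_val.comp c1
  · rw [← map_nhds_subtype_val (s := D.Rs) ⟨ρ, a⟩, Filter.map_map,
      show zq ∘ Subtype.val = Subtype.val ∘ F from funext hz, hz ⟨ρ, a⟩, ← map_nhds_subtype_val]
    exact map_mono (m := Subtype.val) (c2.nhds_le _)
  · have hS : ∀ σ : D.Rs, ∃ S, Presents S.1 (frR σ.1) ∧ zq σ = q (Quot.mk _ S) := fun σ => by
      obtain ⟨S, e⟩ := Quot.exists_rep (pm ⟨σ.1, hR.1 σ.2⟩)
      exact ⟨S, (h5 _ S).1 e.symm, (hz σ).trans (congrArg (fun x => (q x).1) e.symm)⟩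
    obtain ⟨S, e, -⟩ := hS ⟨ρ, a⟩
    obtain ⟨v, v1, v2⟩ := hq S _ e
    have ev : ∀ (p : Pt (Ix n d k) D.m), (fun i => MvPolynomial.eval (co p)
        (MvPolynomial.rename (fun x => .inl (pos x)) (v i))) =
          fun i => MvPolynomial.eval (ent (frR p.1)) (v i) := fun p => funext fun i => by
      rw [MvPolynomial.eval_rename, show ent (frR p.1) = _ from funext (ent_frR p.1)]
      rfl
    refine ⟨fun i => MvPolynomial.rename (fun x => .inl (pos x)) (v i), fun f => ⟨?_, fun p b => ?_⟩⟩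
    · rwa [ev]
    · obtain ⟨S', e', k'⟩ := hS ⟨p.1, b⟩
      rw [ev]
      exact fun c => k'.trans (v2 S' _ e' c)

end Pool.Agent.CS
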