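import Pool.Agent.P.MP_d34769_ag.YI1
import Pool.Agent.P.MP_d34769_ag.YD4

/-! The closure of the graph of the map from framed stable representations to the moduli space. -/

open Set Filter Topology Matrix
open Pool.Agent.HT (Amb proj)
open Pool.Agent.PWV (pm)

noncomputable section
namespace Pool.Agent.CS

variable {I : Type} [Fintype I] [DecidableEq I] {M N : ℕ}

/-- what is used about the space `X` of framed representations and the closed set `A` -/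
structure Fq (D : Dat I) (Th : Fin M → MvPolynomial (Co I D.m) ℂ) (X A : Set (Amb M)) : Prop where
  all : ∀ i j, D.gl i j
  st : ∀ p, D.St p ↔ p.1 ∈ D.R ∧ pm Th (co p) ≠ 0
  img : (fun p => proj (pm Th (co p))) '' {p | D.St p} = X
  eq : ∀ p p', D.St p → D.St p' →
    (proj (pm Th (co p)) = proj (pm Th (co p')) ↔ ∃ g ∈ D.P, act g p = p')
  opn : ∀ p, D.St p →
    𝓝[X] (proj (pm Th (co p))) ≤ map (fun p => proj (pm Th (co p))) (𝓝[{p | D.St p}] p)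
  hom : ∃ e, 0 < e ∧ ∀ ρ f (c : ℂ), pm Th (co (ρ, c • f)) = c ^ e • pm Th (co (ρ, f))
  cl : IsClosed X
  pa : PA A
  mem : ∀ p, D.St p → (proj (pm Th (co p)) ∈ A ↔ ¬ D.Stb p.1)
  act : ∀ g ∈ D.P, ∀ p, D.St p → D.St (act g p)
  sep : ∀ ρ ∈ D.R, D.SS D.th ρ → ∀ ρ' ∈ D.Rs,
    (ρ, ρ') ∈ closure {x : Rp I × Rp I | x.1 ∈ D.Rs ∧ ∃ g ∈ D.P, actR g x.1 = x.2} → D.Stb ρ
  schur : ∀ ρ ∈ D.Rs, ∀ g ∈ D.P, actR g ρ = ρ → ∃ c : ℂ, g = c • 1

/-- `R` is an algebraic correspondence between `X` and `Z` that is a projective bundle with fibre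
the lines in `ℂ^μ` from `X \ A` to `G` -/
structure Gam (μ : Type) (X A : Set (Amb M)) (Z G : Set (Amb N)) (R : Amb M → Amb N → Prop) :
    Prop where
  ar : AR R
  mem : ∀ x z, R x z → x ∈ X ∧ z ∈ Z
  bd : ∀ x z, R x z → (x ∈ A ↔ z ∉ G)
  uni : ∀ x ∈ X \ A, ∃! z, R x z
  fib : ∀ z ∈ G, ∃ (e : ℕ) (v : (μ → ℂ) → Fin M → ℂ), 0 < e ∧ Continuous v ∧
    (∀ u, u ≠ 0 → v u ≠ 0) ∧ (∀ (c : ℂ) u, v (c • u) = c ^ e • v u) ∧
    (∀ x, R x z ↔ ∃ u, u ≠ 0 ∧ x = proj (v u)) ∧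
    ∀ u u', u ≠ 0 → u' ≠ 0 → proj (v u) = proj (v u') → ∃ c : ℂ, u' = c • u

theorem yi2_dense {W σ : Type} [AddCommGroup W] [Module ℂ W] [TopologicalSpace W]
    [ContinuousAdd W] [ContinuousSMul ℂ W] (c : W →ₗ[ℂ] σ → ℂ)
    (V : Submodule ℂ W) (h : MvPolynomial σ ℂ) {p₀ p : W} (h₀ : p₀ ∈ V)
    (hh : MvPolynomial.eval (c p₀) h ≠ 0) (hp : p ∈ V) :
    p ∈ closure {q | q ∈ V ∧ MvPolynomial.eval (c q) h ≠ 0} := by
  have hl : Continuous fun t : ℂ => p + t • (p₀ - p) := by fun_prop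
  have ha : AnalyticOnNhd ℂ (fun t : ℂ => MvPolynomial.eval (c (p + t • (p₀ - p))) h) univ := by
    refine AnalyticOnNhd.aeval_mvPolynomial (f := fun t : ℂ => c (p + t • (p₀ - p))) (fun i => ?_) h
    simp only [map_add, map_smul, Pi.add_apply, Pi.smul_apply, smul_eq_mul]
    exact analyticOnNhd_const.add (analyticOnNhd_id.mul analyticOnNhd_const)
  by_contra hc
  have h1 : ∀ᶠ t in 𝓝 (0 : ℂ), p + t • (p₀ - p) ∈
      (closure {q | q ∈ V ∧ MvPolynomial.eval (c q) h ≠ 0})ᶜ :=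
    hl.continuousAt.eventually_mem (isClosed_closure.isOpen_compl.mem_nhds (by simpa using hc))
  have h2 := ha.eqOn_zero_of_preconnected_of_eventuallyEq_zero isPreconnected_univ (mem_univ 0)
    (h1.mono fun t ht => by_contra fun e => ht (subset_closure
      ⟨V.add_mem hp (V.smul_mem t (V.sub_mem h₀ hp)), e⟩)) (mem_univ 1)
  exact hh (by simpa using h2)

theorem exists_Gam {D : Dat I} {Th : Fin M → MvPolynomial (Co I D.m) ℂ} {X A : Set (Amb M)}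
    (hF : Fq D Th X A) {Z B : Set (Amb N)} (hZ : PA Z) (hB : IsClosed B) {zq : Rp I → Amb N}
    (hz : Zq D (Z \ B) zq) : ∃ R, Gam (I × Fin D.m) X A Z (Z \ B) R := by
  let pt : Pt I D.m → Amb M := fun p => proj (pm Th (co p))
  let S : Set (Pt I D.m) := {p | D.St p ∧ D.Stb p.1}
  let Γ : Set (Amb M × Amb N) := (fun p => (pt p, zq p.1)) '' S
  have hX : ∀ p, D.St p → pt p ∈ X := fun p hp => hF.img ▸ mem_image_of_mem _ hp
  have hX' : ∀ x ∈ X, ∃ p, D.St p ∧ pt p = x := fun x hx => by rwa [← hF.img] at hx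
  have hG : ∀ ρ ∈ D.Rs, zq ρ ∈ Z \ B := fun ρ hρ => hz.img ▸ mem_image_of_mem _ hρ
  have hRs : ∀ p ∈ S, p.1 ∈ D.Rs := fun p hp => ⟨hp.1.mem, hp.2⟩
  have hXP : X ⊆ HIR.Prj M := fun x hx => by
    obtain ⟨p, hp, rfl⟩ := hX' x hx
    exact ⟨_, ((hF.st p).1 hp).2, rfl⟩
  have hΓ : closure Γ ⊆ X ×ˢ Z := closure_minimal (by
    rintro _ ⟨p, hp, rfl⟩
    exact ⟨hX p hp.1, (hG _ (hRs p hp)).1⟩) (hF.cl.prod hZ.closed)
  have same : ∀ p₀ ∈ S, ∀ p, D.St p → pt p = pt p₀ → p ∈ S ∧ zq p.1 = zq p₀.1 :=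
    fun p₀ h₀ p hp e => by
    have h1 : p ∈ S := ⟨hp, by_contra fun c =>
      (hF.mem p₀ h₀.1).1 (show pt p₀ ∈ A from e ▸ (hF.mem p hp).2 c) h₀.2⟩
    obtain ⟨g, hg, eg⟩ := (hF.eq p p₀ hp h₀.1).1 e
    exact ⟨h1, (hz.eq _ (hRs p h1) _ (hRs p₀ h₀)).2 ⟨g, hg, congrArg Prod.fst eg⟩⟩
  have lift : ∀ p, D.St p → ∀ T ∈ 𝓝 p, ∃ U ∈ 𝓝 (pt p), ∀ x ∈ U, x ∈ X →
      ∃ q ∈ T, D.St q ∧ pt q = x := fun p hp T hT => by
    obtain ⟨U, hU, s⟩ := mem_nhdsWithin_iff_exists_mem_nhds_inter.1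
      (hF.opn p hp (image_mem_map (inter_mem_nhdsWithin _ hT)))
    exact ⟨U, hU, fun x h1 h2 => by
      obtain ⟨q, hq, e⟩ := s ⟨h1, h2⟩
      exact ⟨q, hq.2, hq.1, e⟩⟩
  have K1 : ∀ p ∈ S, ∀ z, (pt p, z) ∈ closure Γ → z = zq p.1 := fun p hp z hc => by
    by_contra hne
    obtain ⟨W', W, o', o, m', m, hd⟩ := t2_separation hne
    obtain ⟨T, hT, s⟩ := mem_nhdsWithin_iff_exists_mem_nhds_inter.1
      (hz.cont _ (hRs p hp) (o.mem_nhds m))
    obtain ⟨U, hU, hl⟩ := lift p hp.1 _ (continuous_fst.continuousAt hT)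
    obtain ⟨_, ⟨h1, h2⟩, p₀, h₀, rfl⟩ := mem_closure_iff_nhds.1 hc _
      (prod_mem_nhds hU (o'.mem_nhds m'))
    obtain ⟨q, hq, h3, e⟩ := hl _ h1 (hX p₀ h₀.1)
    obtain ⟨h4, h5⟩ := same p₀ h₀ q h3 e
    exact disjoint_left.1 hd h2 (show zq p₀.1 ∈ W from h5 ▸ s ⟨hq, hRs q h4⟩)
  have K2 : ∀ p, D.St p → ∀ z ∈ Z \ B, (pt p, z) ∈ closure Γ → p ∈ S := fun p hp z hzG hc => by
    rw [← hz.img] at hzG
    obtain ⟨ρ, hρ, rfl⟩ := hzG
    refine ⟨hp, hF.sep p.1 hp.mem hp.ss ρ hρ (mem_closure_iff_nhds.2 fun T hT => ?_)⟩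
    obtain ⟨T₁, h1, T₂, h2, s⟩ := mem_nhds_prod_iff.1 hT
    obtain ⟨U, hU, hl⟩ := lift p hp _ (continuous_fst.continuousAt h1)
    obtain ⟨U', hU', s'⟩ := mem_nhdsWithin_iff_exists_mem_nhds_inter.1
      (hz.opn ρ hρ (image_mem_map (inter_mem_nhdsWithin _ h2)))
    obtain ⟨_, ⟨h3, h4⟩, p₀, h₀, rfl⟩ := mem_closure_iff_nhds.1 hc _ (prod_mem_nhds hU hU')
    obtain ⟨q, hq, h5, e⟩ := hl _ h3 (hX p₀ h₀.1)
    obtain ⟨h6, h7⟩ := same p₀ h₀ q h5 e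
    obtain ⟨σ, hσ, e'⟩ := s' ⟨h4, hG _ (hRs p₀ h₀)⟩
    exact ⟨(q.1, σ), s ⟨hq, hσ.2⟩, hRs q h6, (hz.eq _ (hRs q h6) _ hσ.1).1 (h7.trans e'.symm)⟩
  have h0 : ∀ x z, (x, z) ∈ closure Γ → x ∈ HIR.Prj M ∧ z ∈ HIR.Prj N := fun x z h =>
    ⟨hXP (hΓ h).1, hZ.1 (hΓ h).2⟩
  refine ⟨fun x z => (x, z) ∈ closure Γ, ar_of_sgr h0 ?_, fun x z h => hΓ h, fun x z h => ?_,
    fun x hx => ?_, fun z hzG => ?_⟩
  · rcases S.eq_empty_or_nonempty with e | ⟨p₀, h₀⟩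
    · have : Sgr (fun x z => (x, z) ∈ closure Γ) = ∅ := by
        simp [Sgr, Γ, e]
      rw [this]
      exact pa_empty
    have n₀ := ((hF.st p₀).1 h₀.1).2
    obtain ⟨i, hi⟩ := Function.ne_iff.1 n₀
    obtain ⟨P, -, -, hP, hP'⟩ := hF.pa.exists_hom n₀ fun c => (hF.mem p₀ h₀.1).1 c h₀.2
    obtain ⟨v, hv⟩ := hz.reg _ (hRs p₀ h₀)
    obtain ⟨j, hj⟩ := Function.ne_iff.1 (hv p₀.2).1
    let h : MvPolynomial (Co I D.m) ℂ := Th i * MvPolynomial.aeval Th P * v j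
    have eh : ∀ x, MvPolynomial.eval x h = pm Th x i * HIR.ev P (pm Th x) * pm v x j := fun x => by
      rw [map_mul, map_mul, HIR.ev, yd1_pm]
      rfl
    let V : Set (Co I D.m → ℂ) := {x | ((coL I D.m).symm x).1 ∈ D.R}
    have hV : PWV.ZC V := ⟨{f | ∃ a i j, ¬ D.ap a i j ∧ f = MvPolynomial.X (Sum.inl (a, i, j))},
      Set.ext fun x => ⟨by
        rintro hx _ ⟨a, i, j, c, rfl⟩
        rw [MvPolynomial.eval_X]
        exact hx a i j c, fun hx a i j c => by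
        have := hx _ ⟨a, i, j, c, rfl⟩
        rw [MvPolynomial.eval_X] at this
        exact this⟩⟩
    let G : Fin (M * N) → MvPolynomial (Co I D.m) ℂ := fun k =>
      Th (finProdFinEquiv.symm k).1 * v (finProdFinEquiv.symm k).2
    have eG : ∀ x, pm G x = HIR.tens (pm Th x) (pm v x) := fun x => funext fun k => map_mul _ _ _
    have good : ∀ p : Pt I D.m, p.1 ∈ D.R → MvPolynomial.eval (co p) h ≠ 0 → p ∈ S ∧
        pm G (co p) ≠ 0 ∧ seg (pt p) (zq p.1) = proj (pm G (co p)) := fun p hp hh => by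
      rw [eh] at hh
      have a1 : pm Th (co p) ≠ 0 := Function.ne_iff.2
        ⟨i, left_ne_zero_of_mul (left_ne_zero_of_mul hh)⟩
      have a2 : pm v (co p) ≠ 0 := Function.ne_iff.2 ⟨j, right_ne_zero_of_mul hh⟩
      have a3 := (hF.st p).2 ⟨hp, a1⟩
      have a4 : p ∈ S := ⟨a3, by_contra fun c =>
        right_ne_zero_of_mul (left_ne_zero_of_mul hh) (hP' _ a1 ((hF.mem p a3).2 c))⟩
      rw [eG, ← seg_proj, (hv p₀.2).2 p (hRs p a4) a2]
      exact ⟨a4, HIR.tens_ne a1 a2, rfl⟩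
    have key : Sgr (fun x z => (x, z) ∈ closure Γ) =
        closure ((fun x => proj (pm G x)) '' (V ∩ {x | MvPolynomial.eval x h ≠ 0})) := by
      refine Subset.antisymm ?_ (closure_minimal ?_ ?_)
      · rintro _ ⟨x, z, hc, rfl⟩
        rw [← closure_closure]
        refine map_mem_closure (x := (x, z)) cont_seg hc ?_
        rintro _ ⟨p, hp, rfl⟩
        have hd := yi2_dense (coL I D.m).toLinearMap (D.R.comap (LinearMap.fst ℂ _ _)) h
          (p₀ := p₀) h₀.1.mem (by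
            change MvPolynomial.eval (co p₀) h ≠ 0
            rw [eh]
            exact mul_ne_zero (mul_ne_zero hi hP) hj) (p := p) hp.1.mem
        have c1 : ContinuousAt pt p := (HIR.cont_proj ((hF.st p).1 hp.1).2).comp
          (f := fun p : Pt I D.m => pm Th (co p)) (continuous_pi fun k =>
            (MvPolynomial.continuous_eval _).comp continuous_co).continuousAt
        have c2 : ContinuousWithinAt (fun q : Pt I D.m => seg (pt q) (zq q.1)) S p :=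
          cont_seg.continuousAt.comp_continuousWithinAt (c1.continuousWithinAt.prodMk
            ((hz.cont _ (hRs p hp)).comp continuousWithinAt_fst hRs))
        refine closure_mono ?_ ((c2.mono fun q hq => (good q hq.1 hq.2).1).mem_closure_image hd)
        rintro _ ⟨q, hq, rfl⟩
        exact ⟨co q, ⟨hq.1, hq.2⟩, (good q hq.1 hq.2).2.2.symm⟩
      · rintro _ ⟨x, hx, rfl⟩
        obtain ⟨q, rfl⟩ := (coL I D.m).surjective x
        obtain ⟨a1, -, a2⟩ := good q hx.1 hx.2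
        exact ⟨_, _, subset_closure ⟨q, a1, rfl⟩, a2.symm⟩
      · have : Sgr (fun x z => (x, z) ∈ closure Γ) = (fun p => seg p.1 p.2) '' closure Γ :=
          Set.ext fun s => ⟨fun ⟨x, z, h, e⟩ => ⟨(x, z), h, e.symm⟩,
            fun ⟨p, h, e⟩ => ⟨p.1, p.2, h, e.symm⟩⟩
        rw [this]
        exact (((((HIR.compact_XI1 M).of_isClosed_subset hF.cl hXP).prod hZ.compact
          ).of_isClosed_subset isClosed_closure hΓ).image cont_seg).isClosed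
    rw [key]
    refine pa_closure_img hV h G fun x hx hh => ?_
    obtain ⟨q, rfl⟩ := (coL I D.m).surjective x
    exact (good q hx hh).2.1
  · obtain ⟨p, hp, rfl⟩ := hX' x (hΓ h).1
    refine (hF.mem p hp).trans ⟨fun c e => c (K2 p hp z e h).2, fun c e => c ?_⟩
    rw [K1 p ⟨hp, e⟩ z h]
    exact hG _ ⟨hp.mem, e⟩
  · obtain ⟨p, hp, rfl⟩ := hX' x hx.1
    have h1 : p ∈ S := ⟨hp, by_contra fun c => hx.2 ((hF.mem p hp).2 c)⟩
    exact ⟨zq p.1, subset_closure ⟨p, h1, rfl⟩, K1 p h1⟩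
  · have hzG' := hzG
    rw [← hz.img] at hzG'
    obtain ⟨ρ, hρ, rfl⟩ := hzG'
    obtain ⟨e, he, hom⟩ := hF.hom
    let mt : (I × Fin D.m → ℂ) → Matrix I (Fin D.m) ℂ := fun u => of fun i r => u (i, r)
    have st : ∀ f, D.St (ρ, f) ↔ f ≠ 0 := fun f =>
      Dat.st_iff.trans ⟨fun h => hρ.2.gen_iff.1 h.2.2, fun h => ⟨hρ.1, hρ.2.ss, hρ.2.gen_iff.2 h⟩⟩
    have st' : ∀ u, u ≠ 0 → D.St (ρ, mt u) := fun u hu => (st _).2 fun e =>
      hu (funext fun k => congrFun (congrFun e k.1) k.2)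
    refine ⟨e, fun u => pm Th (co (ρ, mt u)), he, continuous_pi fun k =>
      (MvPolynomial.continuous_eval _).comp (continuous_co.comp (continuous_const.prodMk
        (continuous_matrix fun i r => continuous_apply (i, r)))),
      fun u hu => ((hF.st _).1 (st' u hu)).2, fun c u => hom ρ (mt u) c,
      fun x => ⟨fun h => ?_, ?_⟩, fun u u' hu hu' h => ?_⟩
    · obtain ⟨p, hp, rfl⟩ := hX' x (hΓ h).1
      have h1 := K2 p hp _ hzG h
      obtain ⟨g, hg, eg⟩ := (hz.eq _ (hRs p h1) _ hρ).1 (K1 p h1 _ h).symm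
      have h2 : act g p = (ρ, g * p.2) := Prod.ext eg rfl
      have h3 := hF.act g hg p hp
      refine ⟨fun k => (g * p.2) k.1 k.2, fun c => (st _).1 (h2 ▸ h3)
        (Matrix.ext fun i r => congrFun c (i, r)), ?_⟩
      exact ((hF.eq p _ hp h3).2 ⟨g, hg, rfl⟩).trans (by rw [h2]; rfl)
    · rintro ⟨u, hu, rfl⟩
      exact subset_closure ⟨(ρ, mt u), ⟨st' u hu, hρ.2⟩, rfl⟩
    · obtain ⟨g, hg, eg⟩ := (hF.eq _ _ (st' u hu) (st' u' hu')).1 h
      obtain ⟨c, rfl⟩ := hF.schur ρ hρ g hg (congrArg Prod.fst eg)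
      refine ⟨c, funext fun k => ?_⟩
      have := congrFun (congrFun (congrArg Prod.snd eg) k.1) k.2
      simpa [act, mt] using this.symm

end Pool.Agent.CS
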