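import Pool.Agent.P.MP_d34769_ag.YI2
import Pool.Agent.P.MP_d34769_ag.YHB2
import Pool.Agent.P.MP_d34769_ag.YE7

/-! The space of framed semistable representations and its strictly semistable locus. -/

open Set Filter Topology Matrix
open Pool.Agent.HT (Amb proj)

noncomputable section
namespace Pool.Agent.CS

variable {I : Type} [Fintype I] [DecidableEq I] {col : I → Fin 3} {th : Fin 3 → ℤ} {k m : ℕ}

theorem relMor_F {L K : Wx col th k} (h : RS id L.1 K.1) (p : Pt I m) : (relMor h m).F p = p :=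
  (relMor h m).ye2_ext p (fun _ _ _ => rfl) (fun _ _ => rfl) fun _ r hr => absurd rfl (hr r)

theorem Wx.cp_one (L : Wx col th 1) (i j : I) : (L.dat m).cp i j := by
  obtain ⟨u, hu⟩ := L.one
  obtain ⟨v, hv, a, ha, hi⟩ := L.2.1.part.mem_word i
  obtain ⟨w, hw, b, hb, hj⟩ := L.2.1.part.mem_word j
  obtain rfl : v = w := by
    rw [hu, List.mem_singleton] at hv hw
    rw [hv, hw]
  exact ⟨v, hv, a, ha, b, hb, hi, hj⟩

variable (h0 : Adm col th [[Finset.univ]])

theorem top_gl (i j : I) : ((top h0).dat m).gl i j :=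
  ⟨[Finset.univ], by simp [top], Finset.univ, Finset.univ, by simp, by simp, Or.inl ⟨rfl, by simp⟩⟩

theorem top_P {g : Matrix I I ℂ} (hg : g ∈ ((top h0).dat m).base.P) : g ∈ ((top h0).dat m).P :=
  ⟨fun i j c => hg.1 i j fun e => c ⟨e.1, top_gl (m := m) h0 i j⟩, hg.2⟩

omit [DecidableEq I] in
include h0 in
theorem top_ne : Nonempty I := (h0.part.1 Finset.univ (by simp)).elim fun i _ => ⟨i⟩

theorem ovT_pt (L : Wx col th 1) {q : Pt I m} (hq : (L.dat m).St q) :
    ∃ h, (ovT m h0).π L (Dat.pt q hq) = Dat.pt (D := (top h0).dat m) q h := by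
  have h1 := (relMor (rel_top h0 L) m).st hq
  have h2 := (relMor (rel_top h0 L) m).mc_pt hq h1
  rw [← ovT_π] at h2
  refine ⟨by rwa [relMor_F] at h1, h2.trans ?_⟩
  simp only [relMor_F]

theorem pt_mem_NX {a : ℕ} (ha : 1 ≤ a) {p : Pt I m} (hp : ((top h0).dat m).St p) :
    Dat.pt p hp ∈ NX m h0 a ↔ ((top h0).dat m).N a p.1 := by
  rw [mem_NX]
  constructor
  · rintro ⟨L, hL, y, e⟩
    obtain ⟨q, hq, rfl⟩ := Dat.exists_pt (D := L.dat m) y
    obtain ⟨h2, h3⟩ := ovT_pt h0 L hq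
    obtain ⟨g, hg, e⟩ := (Dat.pt_eq_iff hp h2).1 (e.symm.trans h3)
    obtain ⟨u, hu⟩ := L.one
    have h1 : L.1.flatten = u := by simp [hu]
    refine Dat.N.anti (Dat.n_iff_list.2 ⟨_, ⟨L.2.1.part, L.2.1.bal⟩, rfl, g, Dat.P_le _ hg,
      fun b i j c => ?_⟩) ha hL
    refine (congrArg (·.1 b i j) e).symm.trans (hq.mem b i j fun d => c ?_)
    obtain ⟨v, hv, d⟩ := d.2.2
    rw [hu, List.mem_singleton] at hv
    rwa [h1, ← hv]
  · intro h
    obtain ⟨l, hl, e, g, hg, ht⟩ := Dat.n_iff_list.1 h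
    let L : Wx col th 1 := ⟨[l], ⟨by simpa using hl.1, by
      rw [List.forall_mem_singleton, ← List.length_pos_iff]; omega,
      fun b c => hl.2 b (by simpa using c)⟩, rfl⟩
    have hq := hp.act (top_P h0 hg)
    have hs : ∀ {U}, (L.dat m).Sub (act g p).1 U → ((top h0).dat m).Sub (act g p).1 U := fun c =>
      Dat.ye2_sub_mono (D := L.dat m) (E := (top h0).dat m) rfl
        (fun i j _ => (top h0).cp_one i j) c
    have hq' : (L.dat m).St (act g p) := ⟨fun b i j c => by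
        by_cases d : Ord l i j
        · exact hq.mem b i j fun f => c ⟨f.1, f.2.1, l, by simp [L], d⟩
        · exact ht b i j d,
      fun U c => hq.ss U (hs c), fun U c => hq.gen U (hs c)⟩
    obtain ⟨h2, h3⟩ := ovT_pt h0 L hq'
    exact ⟨L, by simp [L, e], _, h3.trans ((Dat.pt_eq_iff hp h2).2 ⟨g, top_P h0 hg, rfl⟩).symm⟩

theorem pa_NX (a : ℕ) : PA (Subtype.val '' NX m h0 a) := by
  have e : Subtype.val '' NX m h0 a = ⋃ (L : Wx col th 1) (_ : a ≤ L.1.flatten.length),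
      (relMor (rel_top h0 L) m).mp '' (L.dat m).XS := by
    simp only [NX, image_iUnion, ovT_π, ← range_comp]
    exact iUnion_congr fun L => iUnion_congr fun _ =>
      (image_eq_range (relMor (rel_top h0 L) m).mp (L.dat m).XS).symm
  rw [e]
  exact pa_iUnion fun L => pa_iUnion fun _ =>
    (ag_of_hol (L.dat m).mf (relMor _ m).mp_hol).image (pa_of_mf (L.dat m).mf) Subset.rfl

theorem fq_top : Fq ((top h0).dat m) ((top h0).dat m).ThP ((top h0).dat m).XS
    (Subtype.val '' NX m h0 2) := by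
  have := top_ne h0
  refine ⟨top_gl h0, fun p => ⟨fun c => ⟨c.mem, Dat.Th_ne c⟩, fun c => Dat.st_of_Th c.1 c.2⟩, rfl,
    fun p q hp hq => (Dat.pt0_eq_iff hp hq).trans (by simp only [eq_comm]),
    fun p hp => (Dat.nhds_map hp).ge, Dat.Th_smul.imp fun e c => ⟨c.1, fun ρ f a => c.2 a (ρ, f)⟩,
    (Dat.XS_compact _).isClosed, pa_NX h0 2, fun p hp => ?_, fun g hg p hp => hp.act hg,
    fun ρ _ hs σ hσ c => ?_, fun ρ hρ g hg c => hρ.2.scalar (Dat.P_le _ hg).1 ?_⟩
  · refine (Subtype.val_injective.mem_set_image (a := Dat.pt p hp)).trans ?_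
    rw [pt_mem_NX h0 one_le_two, Dat.stb_iff, and_iff_right hp.ss, not_not]
  · have h1 := Dat.sim_of_pair hs hσ.2.ss (closure_mono (fun x d => d.2.imp fun g e =>
      ⟨Dat.P_le _ e.1, e.2⟩) c)
    exact Dat.stb_iff.2 ⟨hs, fun d => (Dat.stb_iff.1 hσ.2).2 (h1.n hs hσ.2.ss d)⟩
  · exact (actR_eq_iff hg.2).1 c

end Pool.Agent.CS
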