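import Pool.Agent.P.MP_d34769_ag.YI2
import Pool.Agent.P.MP_d34769_ag.YC6

/-! The fibres of the correspondence are projective spaces. -/

open Set Filter Topology Matrix
open scoped Kronecker
open Pool.Agent.HT (Amb proj amat)
open Pool.Agent.HIR (Prj)

noncomputable section
namespace Pool.Agent.CS

variable {μ ν κ : Type} [Fintype μ] [Fintype ν] [Fintype κ] {Y : Type} [TopologicalSpace Y]
  {M N : ℕ}

/-- a function of a vector that spans the line -/
theorem Bun.exists_desc (L : Bun Y μ 1) {T : Type} [TopologicalSpace T] (F : (μ → ℂ) → T)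
    (hF : ∀ u, u ≠ 0 → ContinuousAt F u) (hs : ∀ (c : ℂ) u, c ≠ 0 → u ≠ 0 → F (c • u) = F u) :
    ∃ G : Y → T, Continuous G ∧ ∀ y u, u ≠ 0 → L.Q y = lnv u → G y = F u := by
  choose w hw e using fun y => (L.op y).exists_lnv
  have h : ∀ y u, u ≠ 0 → L.Q y = lnv u → F (w y) = F u := fun y u hu eu => by
    obtain ⟨c, rfl⟩ := (lnv_eq_iff (hw y) hu).1 ((e y).symm.trans eu)
    exact (hs c _ (left_ne_zero_of_smul hu) (hw y)).symm
  refine ⟨fun y => F (w y), continuous_iff_continuousAt.2 fun y => ?_, h⟩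
  have hc : Continuous fun z => L.Q z *ᵥ w y := L.cont.matrix_mulVec continuous_const
  have h0 : L.Q y *ᵥ w y ≠ 0 := by rw [e, lnv_mulVec (hw y)]; exact hw y
  refine ((hF _ h0).comp (f := fun z => L.Q z *ᵥ w y) hc.continuousAt).congr ?_
  filter_upwards [hc.continuousAt.eventually_ne h0] with z hz
  exact (h z _ hz ((L.op z).eq_lnv hz (by rw [mulVec_mulVec, (L.op z).idem]))).symm

/-- `L'` is spanned by `v u` where `L` is spanned by `u`, and `v` is homogeneous of degree `e` -/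
structure Hg (L : Bun Y μ 1) (e : ℕ) (L' : Bun Y ν 1) (v : (μ → ℂ) → ν → ℂ) : Prop where
  cont : Continuous v
  ne : ∀ u, u ≠ 0 → v u ≠ 0
  smul : ∀ (c : ℂ) u, v (c • u) = c ^ e • v u
  eq : ∀ y u, u ≠ 0 → L.Q y = lnv u → L'.Q y = lnv (v u)

theorem Hg.x_eq {L : Bun Y μ 1} {e : ℕ} {L' : Bun Y ν 1} {L'' : Bun Y κ 1} {v : (μ → ℂ) → ν → ℂ}
    {t : (μ → ℂ) → κ → ℂ} (h : Hg L e L' v) (h' : Hg L e L'' t) : L'.x = L''.x := by
  obtain ⟨A, hA, eA⟩ := L.exists_desc
    (fun u => (star (t u) ⬝ᵥ t u)⁻¹ • vecMulVec (v u) (star (t u)))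
    (fun u hu => ((h'.cont.star.dotProduct h'.cont).continuousAt.inv₀
      (star_dot_ne (h'.ne u hu))).smul (h.cont.matrix_vecMulVec h'.cont.star).continuousAt)
    fun c u hc hu => by
      have h1 := pow_ne_zero e hc
      have h2 : star (c ^ e) ≠ 0 := star_ne_zero.2 h1
      have h3 := star_dot_ne (h'.ne u hu)
      rw [h.smul, h'.smul, star_smul, smul_dotProduct, dotProduct_smul, smul_vecMulVec,
        vecMulVec_smul, smul_smul, smul_smul]
      congr 1
      simp only [smul_eq_mul]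
      field_simp
  refine L''.x_iso L' hA fun y e0 => ?_
  obtain ⟨u, hu, eu⟩ := (L.op y).exists_lnv
  have := congrArg (· *ᵥ t u) e0
  simp only [← mulVec_mulVec, zero_mulVec] at this
  rw [h'.eq y u hu eu, lnv_mulVec (h'.ne u hu), eA y u hu eu, smul_mulVec, vecMulVec_mulVec,
    op_smul_eq_smul, smul_smul, inv_mul_cancel₀ (star_dot_ne (h'.ne u hu)), one_smul,
    h.eq y u hu eu, lnv_mulVec (h.ne u hu)] at this
  exact h.ne u hu this

theorem Bun.exists_pow (L : Bun Y μ 1) (e : ℕ) : ∃ (κ : Type) (_ : Fintype κ) (L' : Bun Y κ 1)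
    (t : (μ → ℂ) → κ → ℂ), Hg L e L' t ∧ L'.x = e • L.x := by
  induction e with
  | zero =>
    have h1 : (1 : Unit → ℂ) ≠ 0 := one_ne_zero
    exact ⟨Unit, _, Bun.const Y (OP.lnv h1), fun _ => 1, ⟨continuous_const, fun _ _ => h1,
      fun _ _ => by simp, fun _ _ _ _ => rfl⟩, by rw [Bun.x_const, zero_smul]⟩
  | succ e ih =>
    obtain ⟨κ, _, L', t, h, hx⟩ := ih
    have hn : ∀ u, u ≠ 0 → (fun p : κ × μ => t u p.1 * u p.2) ≠ 0 := fun u hu => by
      obtain ⟨i, hi⟩ := Function.ne_iff.1 (h.ne u hu)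
      obtain ⟨j, hj⟩ := Function.ne_iff.1 hu
      exact Function.ne_iff.2 ⟨(i, j), mul_ne_zero hi hj⟩
    refine ⟨κ × μ, _, L'.tens L, fun u p => t u p.1 * u p.2, ⟨continuous_pi fun p =>
      ((continuous_apply p.1).comp h.cont).mul (continuous_apply p.2), hn, fun c u => ?_,
      fun y u hu eu => ((L'.tens L).op y).eq_lnv (hn u hu) ?_⟩, by rw [Bun.x_tens, hx, succ_nsmul]⟩
    · funext p
      simp only [h.smul, Pi.smul_apply, smul_eq_mul]
      ring
    · funext p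
      have h1 := congrFun (lnv_mulVec (h.ne u hu)) p.1
      have h2 := congrFun (lnv_mulVec hu) p.2
      rw [← h1, ← h2, Bun.tens_Q, h.eq y u hu eu, eu]
      simp only [mulVec, dotProduct, kroneckerMap_apply, Fintype.sum_prod_type, Finset.sum_mul_sum]
      exact Finset.sum_congr rfl fun i _ => Finset.sum_congr rfl fun j _ => by ring

theorem Hg.x {L : Bun Y μ 1} {e : ℕ} {L' : Bun Y ν 1} {v : (μ → ℂ) → ν → ℂ} (h : Hg L e L' v) :
    L'.x = e • L.x := by
  obtain ⟨κ, _, L'', t, h', hx⟩ := L.exists_pow e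
  rw [h.x_eq h', hx]

instance : CompactSpace (Prj M) := isCompact_iff_compactSpace.1 (HIR.compact_XI1 M)

variable {X A : Set (Amb M)} {Z G : Set (Amb N)} {R : Amb M → Amb N → Prop} {z : Amb N}

/-- a fibre is the image of a projective space, and the hyperplane class is a positive multiple of
the generator -/
theorem Gam.exists_emb (h : Gam μ X A Z G R) (hz : z ∈ G) :
    ∃ (P : Type) (_ : TopologicalSpace P) (_ : CompactSpace P) (_ : T2Space P) (L : Bun P μ 1)
      (Q : Matrix μ μ ℂ) (φ : C(P, Prj M)) (e : ℕ), IsPP Q L ∧ OP (Fintype.card μ) Q ∧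
      Function.Injective φ ∧ range φ = {x | R x.1 z} ∧ 0 < e ∧ HE.pull φ (tautL M).x = e • L.x := by
  classical
  obtain ⟨e, v, he, hc, h0, hs, hR, hi⟩ := h.fib z hz
  have hP := isPP_model (OP.one (μ := μ))
  set L := Ln.l (Bun.const Unit (OP.one (μ := μ))).ld ()
  obtain ⟨φ, c, eφ⟩ := L.exists_desc (fun u => proj (v u))
    (fun u hu => (HIR.cont_proj (h0 u hu)).comp hc.continuousAt) fun c u hc _ => by
      rw [hs, HIR.proj_smul (pow_ne_zero e hc)]
  choose w hw ew using fun y => (L.op y).exists_lnv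
  have m : ∀ y, φ y ∈ Prj M := fun y => ⟨_, h0 _ (hw y), (eφ y _ (hw y) (ew y)).symm⟩
  refine ⟨_, _, inferInstance, inferInstance, L, 1, ⟨fun y => ⟨φ y, m y⟩, c.subtype_mk m⟩, e, hP,
    OP.one, fun a b k => ?_, Set.ext fun x => ⟨?_, fun k => ?_⟩, he, ?_⟩
  · obtain ⟨c, k'⟩ := hi _ _ (hw a) (hw b) ((eφ a _ (hw a) (ew a)).symm.trans
      ((congrArg Subtype.val k).trans (eφ b _ (hw b) (ew b))))
    exact hP.inj (by rw [ew, ew, (lnv_eq_iff (hw a) (hw b)).2 ⟨c, k'⟩])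
  · rintro ⟨y, rfl⟩
    exact (hR _).2 ⟨_, hw y, eφ y _ (hw y) (ew y)⟩
  · obtain ⟨u, hu, k'⟩ := (hR _).1 k
    obtain ⟨y, hy⟩ := hP.sur _ (OP.lnv hu) (Matrix.one_mul _)
    exact ⟨y, Subtype.ext ((eφ y u hu hy).trans k'.symm)⟩
  · rw [Bun.pull_x]
    exact Hg.x ⟨hc, h0, hs, fun y u hu eu =>
      (congrArg amat (eφ y u hu eu)).trans (amat_lnv_YC6 _)⟩

theorem Gam.closed (h : Gam μ X A Z G R) (hz : z ∈ G) : IsClosed {x : Prj M | R x.1 z} := by
  obtain ⟨P, _, _, _, L, Q, φ, e, -, -, -, hr, -⟩ := h.exists_emb hz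
  rw [← hr]
  exact (isCompact_range φ.continuous).isClosed

theorem mor_CC_CP {Y : Type} [TopologicalSpace Y] [CompactSpace Y] [T2Space Y] (K : Set Y) :
    (CC Y).Mor (CP K ∅) LinearMap.id 0 :=
  ⟨fun n x hx => by rw [add_zero]; exact hx,
    fun _ _ _ hx => mem_CP_N.2 fun t _ => mem_CP_N.1 hx t trivial,
    fun _ _ _ => Cx.meq (zero_mem _) (sub_self _).symm⟩

/-- restriction from projective space to a fibre, by germs -/
theorem Gam.qi (h : Gam μ X A Z G R) (hz : z ∈ G) :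
    (CC (Prj M)).QI (CP {x : Prj M | R x.1 z} ∅) LinearMap.id 0 (2 * Fintype.card μ - 1) := by
  classical
  obtain ⟨P, _, _, _, L, Q, φ, e, hP, hQ, hφ, hr, he, hx⟩ := h.exists_emb hz
  have he' : ∀ j : ℕ, ((e : ℂ) ^ j) ≠ 0 := fun j => pow_ne_zero j (Nat.cast_ne_zero.2 he.ne')
  have hp : ∀ j : ℕ, HR.pull φ ((tautL M).x ^ j).1 = (e : ℂ) ^ j • (L.x ^ j).1 := fun j => by
    rw [← HE.pull_val, map_pow, hx, ← Nat.cast_smul_eq_nsmul ℂ, smul_pow]
    rfl
  have q : (CC (Prj M)).QI (CC P) (AS.pl φ) 0 (2 * Fintype.card μ - 1) := by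
    refine ⟨fun k hk => (inj_pl_iff φ k).2 fun c hc h0 => ?_,
      fun k _ => (sur_pl_iff φ k).2 fun c hc => ?_⟩
    · rcases (isPP_taut M).hr_le _ OP.one k c hc with rfl | ⟨j, -, ej, t, rfl⟩
      · rfl
      · rw [map_smul, hp, smul_smul, smul_eq_zero, mul_eq_zero, or_iff_left (he' j)] at h0
        rw [h0.resolve_right fun a => hP.x_pow_ne hQ (j := j) (by omega) (Subtype.ext a), zero_smul]
    · rcases hP.hr_le _ hQ k c hc with rfl | ⟨j, -, ej, t, rfl⟩
      · exact ⟨0, zero_mem _, map_zero _⟩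
      · exact ⟨(t / (e : ℂ) ^ j) • ((tautL M).x ^ j).1, Submodule.smul_mem _ _
          (ej ▸ (tautL M).x_pow_mem j), by rw [map_smul, hp, smul_smul, div_mul_cancel₀ _ (he' j)]⟩
  rw [← hr]
  exact Cx.QI.left (mor_CC_CP _)
    (mor_pl φ (fun x _ => mem_range_self x) (mapsTo_empty _ _)) (taut_inj φ hφ) q

/-- restriction from projective space to a model of a fibre -/
theorem Gam.qi' (h : Gam μ X A Z G R) (hz : z ∈ G) {P : Type} [TopologicalSpace P]
    [CompactSpace P] [T2Space P] (φ : C(P, Prj M)) (hφ : Function.Injective φ)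
    (hr : range φ = {x | R x.1 z}) :
    (CC (Prj M)).QI (CC P) (AS.pl φ) 0 (2 * Fintype.card μ - 1) := by
  have q := h.qi hz
  rw [← hr] at q
  have := Cx.QI.comp (mor_CC_CP _)
    (mor_pl φ (K := univ) (A := ∅) (fun x _ => mem_range_self x) (mapsTo_empty _ _))
    (taut_inj φ hφ _) q
  rwa [LinearMap.comp_id, add_zero] at this

/-- the powers of the hyperplane class are a basis of the cohomology of a fibre -/
theorem Gam.basTo (h : Gam μ X A Z G R) (hz : z ∈ G) (n : ℤ) :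
    BasTo n (fun j : Fin (Fintype.card μ) => 2 * j.1) fun j =>
      HR.res {x : Prj M | R x.1 z} ((tautL M).x ^ j.1).1 := by
  obtain ⟨P, _, _, _, L, Q, φ, e, hP, hQ, hφ, hr, he, hx⟩ := h.exists_emb hz
  have he' : ∀ j : ℕ, ((e : ℂ) ^ j) ≠ 0 := fun j => pow_ne_zero j (Nat.cast_ne_zero.2 he.ne')
  rw [← hr, ← BasTo.pull (φ.continuous.isClosedEmbedding hφ).isEmbedding.toHomeomorph]
  have hp : ∀ j : ℕ, HR.pull ((φ.continuous.isClosedEmbedding hφ).isEmbedding.toHomeomorph :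
      C(P, range φ)) (HR.res (range φ) ((tautL M).x ^ j).1) = (e : ℂ) ^ j • (L.x ^ j).1 :=
    fun j => by
    rw [HR.pull_pull]
    change HR.pull φ _ = _
    rw [← HE.pull_val, map_pow, hx, ← Nat.cast_smul_eq_nsmul ℂ, smul_pow]
    rfl
  simp only [hp]
  obtain ⟨b1, b2⟩ := hP.basTo hQ n
  refine ⟨fun k hk => (b1 k hk).units_smul fun j => Units.mk0 _ (he' j.1), fun k hk =>
    (b2 k hk).trans (Submodule.span_le.2 ?_)⟩
  rintro _ ⟨j, hj, rfl⟩
  exact (Submodule.smul_mem_iff _ (he' j)).1 (Submodule.subset_span ⟨j, hj, rfl⟩)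

end Pool.Agent.CS
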