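import Pool.Agent.P.MP_d34769_ag.Flip

/-! The flip loci at `α`: systems that are stable on one side and have a subsystem of equal slope. -/

open Filter Topology Matrix

namespace Pool.Agent.CS

open Pool.Agent.P.MP_d34769_ag

lemma sub_le {n n' k k' : ℕ} {d d' : ℤ} (hk : 0 < k) {S' : CohSys ℂ n' d' k'} {S : CohSys ℂ n d k}
    {A : Matrix (Fin n) (Fin n') (LaurentPolynomial ℂ)} (h : IsMor S' S A)
    (hA : Function.Injective A.mulVec) : n' ≤ n ∧ k' ≤ k := by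
  refine ⟨le_of_fin_injective (LaurentPolynomial ℂ) A.mulVecLin hA, ?_⟩
  have : Module.Finite ℂ S.V := Module.finite_of_finrank_pos (by rw [S.dim]; exact hk)
  rw [← S.dim, ← S'.dim]
  refine LinearMap.finrank_le_finrank_of_injective
    (f := (A.mulVecLin.restrictScalars ℂ).restrict (p := S'.V) (q := S.V) h.2.2) fun x y e => ?_
  exact Subtype.ext (hA (congrArg Subtype.val e))

lemma eps_two (n k : ℕ) (d α : ℝ) : ∃ ε > 0, ∀ β, |β - α| < ε → ∀ n' ≤ n, ∀ k' ≤ k, ∀ d' : ℤ, 0 < n' →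
    (d + α * k) / n < ((d' : ℝ) + α * k') / n' → (d + β * k) / n < ((d' : ℝ) + β * k') / n' := by
  have : ∀ᶠ β in 𝓝 α, ∀ e ∈ Finset.Iic n ×ˢ Finset.Iic k,
      (d + β * k) / n * e.1 - β * e.2 < (⌊(d + α * k) / n * e.1 - α * e.2⌋ : ℝ) + 1 := by
    rw [eventually_all_finset]
    intro e _
    have hc : Continuous fun β : ℝ => (d + β * k) / n * e.1 - β * e.2 := by fun_prop
    exact hc.continuousAt.eventually (gt_mem_nhds (Int.lt_floor_add_one _))
  obtain ⟨ε, h1, h2⟩ := Metric.eventually_nhds_iff.1 this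
  refine ⟨ε, h1, fun β hβ n' hn k' hk d' h0 h => ?_⟩
  have h3 := h2 (y := β) hβ (n', k') (by simp [hn, hk])
  have h0' : (0 : ℝ) < n' := by exact_mod_cast h0
  rw [lt_div_iff₀ h0'] at h ⊢
  have h4 : ⌊(d + α * k) / n * n' - α * k'⌋ < d' := Int.floor_lt.2 (by linarith)
  have h5 : (⌊(d + α * k) / n * n' - α * k'⌋ : ℝ) + 1 ≤ d' := by exact_mod_cast h4
  dsimp only at h3
  linarith

theorem flips (n d k : ℕ) (hn : 0 < n) (hk : 0 < k) (α : ℝ) (hα : 0 < α) :
    ∃ ε > 0, ∀ β γ : ℝ, 0 < β → 0 < γ → |β - α| < ε → |γ - α| < ε → (β - α) * (γ - α) < 0 →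
      ∀ S : CohSys ℂ n d k, (Stable β S ∧ ¬ Stable γ S) ↔ (Stable β S ∧
        ∃ (n' : ℕ) (d' : ℤ) (k' : ℕ) (S' : CohSys ℂ n' d' k') (A : Matrix (Fin n) (Fin n') _),
          0 < n' ∧ IsMor S' S A ∧ Function.Injective A.mulVec ∧
          (¬ ∃ B, IsMor S S' B ∧ A * B = 1) ∧
          ((d' : ℝ) + α * k') / n' = ((d : ℝ) + α * k) / n) := by
  obtain ⟨ε, h1, h2⟩ := mainC n d k hn hk α hα
  obtain ⟨δ, h3, h4⟩ := eps_two n k d α
  refine ⟨min ε δ, lt_min h1 h3, fun β γ hβ hγ h5 h6 h7 S => and_congr_right fun hS => ?_⟩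
  have h8 := (h2 β γ hβ hγ (h5.trans_le (min_le_left _ _)) (h6.trans_le (min_le_left _ _)) h7).1 ℂ S
  rw [show Stable γ S ↔ Stable α S from ⟨fun h => h8.2 ⟨hS, h⟩, fun h => (h8.1 h).2⟩]
  constructor
  · intro h
    by_contra hc
    refine h fun n' d' k' S' A a b c e => ?_
    rcases lt_trichotomy (((d' : ℝ) + α * k') / n') ((((d : ℤ) : ℝ) + α * k) / n) with h | h | h
    · exact h
    · exact absurd ⟨n', d', k', S', A, a, b, c, e, by simpa using h⟩ hc
    · have h9 := h4 β (h5.trans_le (min_le_right _ _)) n' (sub_le hk b c).1 k' (sub_le hk b c).2 d' a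
        (by simpa using h)
      exact absurd (hS n' d' k' S' A a b c e) (not_lt.2 (by simpa using h9.le))
  · rintro ⟨n', d', k', S', A, a, b, c, e, h⟩ h'
    exact (h' n' d' k' S' A a b c e).ne (by simpa using h)

end Pool.Agent.CS
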