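import Pool.Agent.P.MP_d34769_ag.YI4

/-! The flip loci, with the side of the destabilising subsystem. -/

namespace Pool.Agent.CS

open Pool.Agent.P.MP_d34769_ag

theorem flips' (n d k : ℕ) (hn : 0 < n) (hk : 0 < k) (α : ℝ) (hα : 0 < α) :
    ∃ ε > 0, ∀ β γ : ℝ, 0 < β → 0 < γ → |β - α| < ε → |γ - α| < ε → (β - α) * (γ - α) < 0 →
      ∀ S : CohSys ℂ n d k, (Stable α S ↔ Stable β S ∧ Stable γ S) ∧
        ((Stable β S ∧ ¬ Stable γ S) ↔ (Stable β S ∧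
        ∃ (n' : ℕ) (d' : ℤ) (k' : ℕ) (S' : CohSys ℂ n' d' k') (A : Matrix (Fin n) (Fin n') _),
          0 < n' ∧ IsMor S' S A ∧ Function.Injective A.mulVec ∧
          (¬ ∃ B, IsMor S S' B ∧ A * B = 1) ∧
          ((d' : ℝ) + α * k') / n' = ((d : ℝ) + α * k) / n ∧
          (β - α) * ((k' : ℝ) / n' - k / n) < 0)) := by
  obtain ⟨ε, h1, h2⟩ := mainC n d k hn hk α hα
  obtain ⟨δ, h3, h4⟩ := flips n d k hn hk α hα
  refine ⟨min ε δ, lt_min h1 h3, fun β γ hβ hγ h5 h6 h7 S => ⟨(h2 β γ hβ hγ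
    (h5.trans_le (min_le_left _ _)) (h6.trans_le (min_le_left _ _)) h7).1 ℂ S, ?_⟩⟩
  rw [h4 β γ hβ hγ (h5.trans_le (min_le_right _ _)) (h6.trans_le (min_le_right _ _)) h7 S]
  refine and_congr_right fun hS => ⟨?_, ?_⟩
  · rintro ⟨n', d', k', S', A, a, b, c, e, f⟩
    refine ⟨n', d', k', S', A, a, b, c, e, f, ?_⟩
    have h8 := hS n' d' k' S' A a b c e
    have e1 : ((d' : ℝ) + β * k') / n' = (d' + α * k') / n' + (β - α) * (k' / n') := by ring
    have e2 : (((d : ℤ) : ℝ) + β * k) / n = (d + α * k) / n + (β - α) * (k / n) := by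
      push_cast; ring
    rw [e1, e2, f] at h8
    linarith
  · rintro ⟨n', d', k', S', A, a, b, c, e, f, -⟩
    exact ⟨n', d', k', S', A, a, b, c, e, f⟩

end Pool.Agent.CS
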