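import Pool.Agent.P.MP_d34769_ag.YS6

/-! The filtration by columns for a diagram that is free over another one. -/

open Set Module

noncomputable section
namespace Pool.Agent.CS

variable {S : Sh} {P Q : Dg S} {g : ∀ i, C(P.X i, Q.X i)} {r : ℕ}

/-- twice the index -/
def tw2 (b : Fin r) : ℤ := 2 * b.1

section sh
open Pool.Agent.HT (BG)
variable {T T' : Type} [AddCommGroup T] [Module ℂ T] [AddCommGroup T'] [Module ℂ T']

theorem yi6_eδ (B : BG T) (p : ℕ) (n : ℤ) (x : T) :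
    eZ B (p + 1) n (B.δ x) = B.δ (eZ B p n x) := by
  rcases lt_or_ge n 0 with h | h
  · rw [eZ_neg h, eZ_neg h, map_zero]
  · obtain ⟨m, rfl⟩ := Int.eq_ofNat_of_zero_le h
    rw [eZ_nat rfl, eZ_nat rfl, B.eδ]

theorem yi6_eδ0 (B : BG T) (n : ℤ) (x : T) : eZ B 0 n (B.δ x) = 0 := by
  rcases lt_or_ge n 0 with h | h
  · rw [eZ_neg h]
  · obtain ⟨m, rfl⟩ := Int.eq_ofNat_of_zero_le h
    rw [eZ_nat rfl, B.eδ0]

theorem yi6_ker {B : BG T} {x : T} {p : ℕ} (b : Fin r) {A : ℤ → Prop} :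
    (∀ q : ℕ, A q → eZ B p (q - tw2 b) x = 0) ↔ ∀ m : ℕ, A (m + tw2 b) → B.e p m x = 0 := by
  refine ⟨fun h m hm => ?_, fun h q hq => ?_⟩
  · have e : ((m + 2 * b.1 : ℕ) : ℤ) = m + tw2 b := by simp [tw2]
    have := h (m + 2 * b.1) (e ▸ hm)
    rwa [eZ_nat (m := m) (by omega)] at this
  · exact eZ_ind (U := ⊥) fun m e => h m (by rwa [← e, sub_add_cancel])

/-- the product of `r` copies with shifted rows -/
def yi6_bg (B : BG T) (r : ℕ) : BG (Fin r → T) where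
  d := LinearMap.piMap fun _ => B.d
  δ := LinearMap.piMap fun _ => B.δ
  e p n := LinearMap.piMap fun b => eZ B p (n - tw2 b)
  ee p n x := funext fun b => eZ_of_row (eZ_row _ _ _)
  ee' p n p' n' x h := funext fun b => eZ_of_ne (eZ_row p' (n' - tw2 b) (x b)) (by omega)
  ext x h := funext fun b => B.ext _ fun p m =>
    (yi6_ker b (A := fun _ => True)).1 (fun q _ => congrFun (h p q) b) m trivial
  ed p n x := funext fun b => eZ_d (by push_cast; ring) (x b)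
  ed0 p x := funext fun b => (eZ_d (n := -1 - tw2 b) (by push_cast; ring) (x b)).trans
    (by rw [eZ_neg (by simp only [tw2]; omega), map_zero]; rfl)
  eδ p n x := funext fun b => yi6_eδ B p _ (x b)
  eδ0 n x := funext fun b => yi6_eδ0 B _ (x b)
  dd x := funext fun b => B.dd (x b)
  δδ x := funext fun b => B.δδ (x b)
  dδ x := funext fun b => B.dδ (x b)

/-- the product of `r` copies with shifted rows -/
def yi6_bc (B : Bc T) (r : ℕ) : Bc (Fin r → T) :=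
  { yi6_bg B.toBG r with
    U := Submodule.pi univ fun _ => B.U
    N := Submodule.pi univ fun _ => B.N
    eU := fun p _ _ h b _ => (Bc.eZ_G (h b trivial) p _).2
    dU := fun _ h b _ => B.dU _ (h b trivial)
    δU := fun _ h b _ => B.δU _ (h b trivial)
    eN := fun p _ _ h b _ => Bc.eZ_N (h b trivial) p _
    dN := fun _ h b _ => B.dN _ (h b trivial)
    δN := fun _ h b _ => B.δN _ (h b trivial) }

variable {u : Fin r → T} {n : ℤ} {p : ℕ}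

theorem yi6_e (B : BG T) (q : ℕ) :
    (yi6_bg B r).e p q u = 0 ↔ ∀ b, eZ B p (q - tw2 b) (u b) = 0 := funext_iff

theorem yi6_row (B : BG T) :
    u ∈ rowZ (yi6_bg B r) p n ↔ ∀ b, u b ∈ rowZ B p (n - tw2 b) := by
  simp only [mem_rowZ, yi6_e]
  exact ⟨fun h b p' m hm => (yi6_ker b (A := fun q => ¬(p' = p ∧ q = n))).1
      (fun q hq => h p' q hq b) m (by omega),
    fun h p' q hq b => (yi6_ker b (A := fun q => ¬(p' = p ∧ q = n))).2
      (fun m hm => h b p' m (by omega)) q hq⟩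

theorem yi6_deg (B : BG T) :
    u ∈ degZ (yi6_bg B r) n ↔ ∀ b, u b ∈ degZ B (n - tw2 b) := by
  simp only [mem_degZ, yi6_e]
  exact ⟨fun h b p' m hm => (yi6_ker b (A := fun q => (p' : ℤ) + q ≠ n)).1
      (fun q hq => h p' q hq b) m (by omega),
    fun h p' q hq b => (yi6_ker b (A := fun q => (p' : ℤ) + q ≠ n)).2
      (fun m hm => h b p' m (by omega)) q hq⟩

theorem yi6_Col (B : BG T) : u ∈ (yi6_bg B r).Col p ↔ ∀ b, u b ∈ B.Col p := by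
  simp only [BG.mem_Col, yi6_e]
  exact ⟨fun h b p' hp m => (yi6_ker b (A := fun _ => True)).1
      (fun q _ => h p' hp q b) m trivial,
    fun h p' hp q b => (yi6_ker b (A := fun _ => True)).2
      (fun m _ => h b p' hp m) q trivial⟩

/-- `C` is the product of `r` shifted copies of `D` -/
structure yi6_Pr (C : Cx (Fin r → T)) (D : Cx T) : Prop where
  d : ∀ u b, C.d u b = D.d (u b)
  G : ∀ n u, u ∈ C.G n ↔ ∀ b, u b ∈ D.G (n - tw2 b)
  N : ∀ u, u ∈ C.N ↔ ∀ b, u b ∈ D.N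

theorem yi6_Pr.Z {C : Cx (Fin r → T)} {D : Cx T} (h : yi6_Pr C D) :
    u ∈ C.Z n ↔ ∀ b, u b ∈ D.Z (n - tw2 b) := by
  simp only [Cx.mem_Z, h.G, h.N, h.d, forall_and]

theorem yi6_Pr.B {C : Cx (Fin r → T)} {D : Cx T} (h : yi6_Pr C D) :
    u ∈ C.B n ↔ ∀ b, u b ∈ D.B (n - tw2 b) := by
  refine ⟨fun hu b => ?_, fun hu => ?_⟩
  · obtain ⟨v, hv, e⟩ := Cx.mem_B.1 hu
    refine Cx.mem_B.2 ⟨v b, Cx.Gcast ((h.G _ _).1 hv b) (by ring), ?_⟩
    rw [← h.d]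
    exact (h.N _).1 e b
  · choose v hv e using fun b => Cx.mem_B.1 (hu b)
    refine Cx.mem_B.2 ⟨v, (h.G _ _).2 fun b => Cx.Gcast (hv b) (by ring), (h.N _).2 fun b => ?_⟩
    rw [Pi.sub_apply, h.d]
    exact e b

variable {B : Bc T} {B' : Bc T'}

theorem yi6_N : u ∈ (yi6_bc B r).N ↔ ∀ b, u b ∈ B.N :=
  ⟨fun h b => h b trivial, fun h b _ => h b⟩

theorem yi6_col (p : ℕ) : yi6_Pr ((yi6_bc B r).col p) (B.col p) :=
  ⟨fun _ _ => rfl, fun _ _ => ⟨fun h b => ⟨(yi6_row _).1 h.1 b, h.2 b trivial⟩,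
    fun h => ⟨(yi6_row _).2 fun b => (h b).1, fun b _ => (h b).2⟩⟩, fun _ => yi6_N⟩

theorem yi6_cx : yi6_Pr (yi6_bc B r).cx B.cx :=
  ⟨fun _ _ => rfl, fun _ _ => ⟨fun h b => ⟨(yi6_deg _).1 h.1 b, h.2 b trivial⟩,
    fun h => ⟨(yi6_deg _).2 fun b => (h b).1, fun b _ => (h b).2⟩⟩, fun _ => yi6_N⟩

theorem yi6_fil : u ∈ ((yi6_bc B r).fil p).Z n ↔ ∀ b, u b ∈ (B.fil p).Z (n - tw2 b) := by
  simp only [Bc.mem_filZ, yi6_cx.Z, forall_and]
  exact and_congr Iff.rfl (yi6_Col _)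

theorem yi6_H (B : Bc T) (r : ℕ) (n : ℤ) :
    ∃ e : (∀ b : Fin r, B.cx.H (n - tw2 b)) ≃ₗ[ℂ] (yi6_bc B r).cx.H n,
      ∀ c a, e a ∈ (yi6_bc B r).W n c ↔ ∀ b, a b ∈ B.W (n - tw2 b) c := by
  have m : ∀ b : Fin r, (yi6_bc B r).cx.Mor B.cx (LinearMap.proj b) (-tw2 b) := fun b =>
    ⟨fun k x hx => Cx.Gcast ((yi6_cx.G _ _).1 hx b) (by ring), fun _ _ _ hx => yi6_N.1 hx b,
      fun _ x _ => Cx.meq (zero_mem _) (sub_self _).symm⟩
  let π : (yi6_bc B r).cx.H n →ₗ[ℂ] ∀ b : Fin r, B.cx.H (n - tw2 b) :=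
    LinearMap.pi fun b => (m b).hm (sub_eq_add_neg n (tw2 b)).symm
  have hπ : ∀ (x : (yi6_bc B r).cx.Z n) b,
      π (Cx.cls _ n x) b = B.cx.cls _ ⟨x.1 b, yi6_cx.Z.1 x.2 b⟩ :=
    fun x b => (m b).hm_cls (sub_eq_add_neg n (tw2 b)).symm x
  have hb : Function.Bijective π := by
    refine ⟨(injective_iff_map_eq_zero _).2 fun a ha => ?_, fun a => ?_⟩
    · obtain ⟨x, rfl⟩ := Cx.cls_surj n a
      exact Cx.cls_eq_zero.2 (yi6_cx.B.2 fun b =>
        Cx.cls_eq_zero.1 ((hπ x b).symm.trans (congrFun ha b)))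
    · choose x hx using fun b => Cx.cls_surj _ (a b)
      exact ⟨Cx.cls _ n ⟨fun b => (x b).1, yi6_cx.Z.2 fun b => (x b).2⟩,
        funext fun b => (hπ _ b).trans (hx b)⟩
  refine ⟨(LinearEquiv.ofBijective π hb).symm, fun c a => ?_⟩
  obtain ⟨a, rfl⟩ := (LinearEquiv.ofBijective π hb).surjective a
  obtain ⟨x, rfl⟩ := Cx.cls_surj n a
  rw [LinearEquiv.symm_apply_apply, LinearEquiv.ofBijective_apply]
  simp only [hπ, Bc.mem_W]
  refine ⟨fun ⟨y, hy, e⟩ b => ⟨y b, yi6_fil.1 hy b, yi6_cx.B.1 e b⟩, fun h => ?_⟩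
  choose y hy e using h
  exact ⟨y, yi6_fil.2 hy, yi6_cx.B.2 e⟩

theorem yi6_mor {f : Fin r → T →ₗ[ℂ] T'} (h : ∀ b, B.Mor B' (f b) (tw2 b)) :
    (yi6_bc B r).Mor B' (∑ b, f b ∘ₗ LinearMap.proj b) 0 := by
  refine ⟨fun p n x hx => ?_, fun x hx hx' => ?_, fun x hx => ?_, fun x hx => ?_⟩ <;>
    simp only [LinearMap.sum_apply, LinearMap.comp_apply, LinearMap.proj_apply, map_sum,
      ← Finset.sum_sub_distrib]
  · exact sum_mem fun b _ =>
      Cx.Gcast ((h b).fG p _ _ (((yi6_col p).G _ _).1 hx b)) (by ring)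
  · exact sum_mem fun b _ => (h b).fN _ (hx b trivial) (hx' b trivial)
  · exact sum_mem fun b _ => (h b).fd _ (hx b trivial)
  · exact sum_mem fun b _ => (h b).fδ _ (hx b trivial)

theorem yi6_s {X : Type} (φ : AS X) {ψ : AS X} {k : ℕ} (h : ψ ∈ AS.G X (2 * k : ℕ)) :
    (AS.gc X).s φ * ψ = (AS.gc X).s (φ * ψ) := AS.ext fun l => by
  rw [AS.coe_mul, AS.coe_s, AS.coe_s, AS.coe_mul, LA.sg_apply, LA.cup_apply, LA.cup_apply,
    Finset.mul_sum]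
  refine Finset.sum_congr rfl fun i hi => ?_
  have hi := Finset.mem_range.1 hi
  by_cases e : l.length = i + 2 * k + 1
  · rw [LA.sg_apply, List.length_take, min_eq_left (by omega), e,
      show i + 2 * k + 1 + 1 = i + 1 + 1 + 2 * k by ring, pow_add _ _ (2 * k), pow_mul]
    ring
  · rw [AS.mem_G_nat.1 h _ (by simp; omega)]
    ring

end sh

/-- the cohomology of every space of `P` is free over that of `Q` on the classes `ξ i b` -/
structure Free (g : ∀ i, C(P.X i, Q.X i)) (ξ : ∀ i, Fin r → AS (P.X i)) : Prop where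
  com : Dg.Com g
  z : ∀ i b, ξ i b ∈ (CC (P.X i)).Z (tw2 b)
  nat : ∀ {i j} (h : S.rel i j) b, AS.pull (P.mp h) (ξ j b) = ξ i b
  inj : ∀ i (n : ℤ) (u : Fin r → AS (Q.X i)), (∀ b, u b ∈ (CC (Q.X i)).Z (n - tw2 b)) →
    ∑ b, AS.pull (g i) (u b) * ξ i b ∈ (CC (P.X i)).B n → ∀ b, u b ∈ (CC (Q.X i)).B (n - tw2 b)
  sur : ∀ i (n : ℤ), ∀ y ∈ (CC (P.X i)).Z n, ∃ u : Fin r → AS (Q.X i),
    (∀ b, u b ∈ (CC (Q.X i)).Z (n - tw2 b)) ∧
      y - ∑ b, AS.pull (g i) (u b) * ξ i b ∈ (CC (P.X i)).B n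

/-- the total double complex of a diagram -/
abbrev Dg.tot (P : Dg S) : Bc P.T := Dg.bc ⊤ ⊥

variable {ξ : ∀ i, Fin r → AS (P.X i)}

/-- pull back and multiply -/
def yi6_f (g : ∀ i, C(P.X i, Q.X i)) (ξ : ∀ i, Fin r → AS (P.X i)) (b : Fin r) :
    Q.T →ₗ[ℂ] P.T :=
  LinearMap.piMap fun i => LinearMap.mulRight ℂ (ξ i b) ∘ₗ AS.pl (g i)

/-- the sum of these maps -/
abbrev yi6_F (g : ∀ i, C(P.X i, Q.X i)) (ξ : ∀ i, Fin r → AS (P.X i)) :
    (Fin r → Q.T) →ₗ[ℂ] P.T := ∑ b, yi6_f g ξ b ∘ₗ LinearMap.proj b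

theorem yi6_F_apply (u : Fin r → Q.T) (i : S.ι) :
    yi6_F g ξ u i = ∑ b, AS.pull (g i) (u b i) * ξ i b := by
  rw [LinearMap.sum_apply, Finset.sum_apply]
  rfl

theorem yi6_fm (h : Free g ξ) (b : Fin r) : Q.tot.Mor P.tot (yi6_f g ξ b) (tw2 b) := by
  refine Sys.mor_diag (Dg.Fam.stab ⊥) (Dg.Fam.stab ⊤) (Dg.Fam.stab ⊥) (Dg.Fam.stab ⊤) _
    (fun i n x hx _ => ⟨AS.mul_mem_G (AS.pull_mem_G _ hx) (h.z i b).1.1,
      zz_iff.2 fun _ ht => ht.elim⟩)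
    (fun i x _ hx => zz_iff.2 fun t ht => AS.z_mul_right
      (zz_iff.1 (zz_pl (mapsTo_univ (g i) univ) hx) t ht) _)
    (fun i x _ => zz_iff.2 fun t ht => ?_) (fun i x => ?_) fun {i j} e x => ?_
  · show AS.pull (g i) (AS.d x) * ξ i b - AS.d (AS.pull (g i) x * ξ i b) ∈ _
    rw [AS.d_mul, AS.pull_d, sub_add_cancel_left]
    exact neg_mem (AS.z_mul_left _ (zz_iff.1 (h.z i b).2 t ht))
  · show AS.pull (g i) ((AS.gc _).s x) * ξ i b = (AS.gc _).s (AS.pull (g i) x * ξ i b)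
    rw [← yi6_s _ (k := b.1) (Cx.Gcast (h.z i b).1 (by simp [tw2])).1]
    exact congrArg (· * ξ i b) (Gc.map_s (f := AS.pl (g i)) (AS.pull_e (g i)) x)
  · show AS.pull (g i) (AS.pull (Q.mp e) x) * ξ i b = AS.pull (P.mp e) (AS.pull (g j) x * ξ j b)
    rw [map_mul, h.nat e, AS.pull_pull, AS.pull_pull]
    exact congrArg (AS.pull · x * ξ i b) (funext (h.com e)).symm

theorem yi6_qi (h : Free g ξ) (p : ℕ) :
    ((yi6_bc Q.tot r).col p).QIa (P.tot.col p) (yi6_F g ξ) 0 := by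
  refine Cx.qia_iff.2 fun n => ⟨fun x hx hF => ?_, fun y hy => ?_⟩
  · have hx := fun b => Dg.mem_col_Z.1 ((yi6_col p).Z.1 hx b)
    refine (yi6_col p).B.2 fun b => Dg.mem_col_B.2 fun i => ⟨fun e => ?_, fun e => ?_⟩
    · have h1 := (Dg.mem_col_B.1 hF i).1 e
      rw [yi6_F_apply, add_zero] at h1
      exact h.inj i n (fun b => x b i) (fun b => (hx b i).1 e) h1 b
    · exact Cx.meq (zero_mem _) ((hx b i).2 e).symm
  · rw [add_zero] at hy ⊢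
    have hy := Dg.mem_col_Z.1 hy
    have h0 : ∀ i, ∃ u : Fin r → AS (Q.X i), (S.deg i = p →
        (∀ b, u b ∈ (CC (Q.X i)).Z (n - tw2 b)) ∧
          y i - ∑ b, AS.pull (g i) (u b) * ξ i b ∈ (CC (P.X i)).B n) ∧
        (S.deg i ≠ p → u = 0) := fun i => by
      by_cases e : S.deg i = p
      · obtain ⟨u, hu⟩ := h.sur i n _ ((hy i).1 e)
        exact ⟨u, fun _ => hu, fun e' => (e' e).elim⟩
      · exact ⟨0, fun e' => (e e').elim, fun _ => rfl⟩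
    choose u hu hu' using h0
    refine ⟨fun b i => u i b, (yi6_col p).Z.2 fun b => Dg.mem_col_Z.2 fun i =>
      ⟨fun e => (hu i e).1 b, fun e => congrFun (hu' i e) b⟩, Dg.mem_col_B.2 fun i => ?_⟩
    rw [Pi.sub_apply, yi6_F_apply]
    refine ⟨fun e => (hu i e).2, fun e => Cx.meq (zero_mem _) ?_⟩
    simp [(hy i).2 e, hu' i e]

theorem Free.equiv (h : Free g ξ) (n : ℤ) :
    ∃ e : (∀ b : Fin r, Q.tot.cx.H (n - tw2 b)) ≃ₗ[ℂ] P.tot.cx.H n,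
      ∀ c a, e a ∈ P.tot.W n c ↔ ∀ b, a b ∈ Q.tot.W (n - tw2 b) c := by
  obtain ⟨e, he⟩ := yi6_H Q.tot r n
  have m := yi6_mor (yi6_fm h)
  have q := Bc.filta_cx m (yi6_qi h)
  exact ⟨e.trans (LinearEquiv.ofBijective (m.cx.hm (add_zero n))
    ⟨(m.cx.inj_iff _).1 (q.inj n), (m.cx.sur_iff _).1 (q.sur n)⟩),
    fun c a => (Bc.filta_W m (yi6_qi h) (add_zero n) c (e a)).trans (he c a)⟩

theorem Free.inj_dpl (h : Free g ξ) (hr : 0 < r) (h1 : ∀ i, ξ i ⟨0, hr⟩ = 1) (n : ℤ) :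
    Q.tot.cx.Inj P.tot.cx (Dg.dpl g) 0 n := by
  intro x hx hF
  have e0 : n - tw2 (⟨0, hr⟩ : Fin r) = n := by simp [tw2]
  have h2 : yi6_F g ξ (Pi.single ⟨0, hr⟩ x) = Dg.dpl g x := funext fun i => by
    rw [yi6_F_apply, Finset.sum_eq_single ⟨0, hr⟩ (fun b _ e => by simp [Pi.single_eq_of_ne e])
      (by simp), h1, Pi.single_eq_same, mul_one]
    rfl
  have h3 := yi6_cx.B.1 ((Bc.filta_cx (yi6_mor (yi6_fm h)) (yi6_qi h)).inj n
    (Pi.single ⟨0, hr⟩ x) (yi6_cx.Z.2 fun b => ?_) (h2.symm ▸ hF)) ⟨0, hr⟩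
  · rwa [Pi.single_eq_same, e0] at h3
  · by_cases e : b = ⟨0, hr⟩
    · rwa [e, Pi.single_eq_same, e0]
    · rw [Pi.single_eq_of_ne e]
      exact zero_mem _

end Pool.Agent.CS
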