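import Pool.Agent.P.MP_d34769_ag.YI2c

/-! The relative cohomology of the correspondence. -/

open Set
open Pool.Agent.HT (Amb proj)
open Pool.Agent.HIR (Prj ptr)

noncomputable section
namespace Pool.Agent.CS

/-- the powers of the class of a line that is given by a homogeneous map -/
theorem hom_basTo {F μ ν : Type} [TopologicalSpace F] [CompactSpace F] [T2Space F] [Fintype μ]
    [Fintype ν] (L : Bun F ν 1) {e : ℕ} {v : (μ → ℂ) → ν → ℂ} (he : 0 < e) (hc : Continuous v)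
    (h0 : ∀ u, u ≠ 0 → v u ≠ 0) (hh : ∀ (c : ℂ) u, v (c • u) = c ^ e • v u)
    (inj : Function.Injective L.Q) (sur : ∀ l, l ∈ range L.Q ↔ ∃ u, u ≠ 0 ∧ l = lnv (v u))
    (uni : ∀ u u', u ≠ 0 → u' ≠ 0 → lnv (v u) = lnv (v u') → ∃ c : ℂ, u' = c • u) (n : ℤ) :
    BasTo n (fun j : Fin (Fintype.card μ) => 2 * j.1) fun j => (L.x ^ j.1).1 := by
  classical
  have hP := isPP_model (OP.one (μ := μ))
  set L₀ := Ln.l (Bun.const Unit (OP.one (μ := μ))).ld ()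
  obtain ⟨φ, c, eφ⟩ := L₀.exists_desc (fun u => lnv (v u))
    (fun u hu => ((hc.star.dotProduct hc).continuousAt.inv₀ (star_dot_ne (h0 u hu))).smul
      (hc.matrix_vecMulVec hc.star).continuousAt) fun c u hc hu => by
      rw [hh, lnv_smul (h0 u hu) (pow_ne_zero e hc)]
  choose w hw ew using fun y => (L₀.op y).exists_lnv
  choose ψ hψ using fun y => (sur (φ y)).2 ⟨_, hw y, eφ y _ (hw y) (ew y)⟩
  have cψ : Continuous ψ := (L.cont.isClosedEmbedding inj).isInducing.continuous_iff.2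
    (by rwa [show L.Q ∘ ψ = φ from funext hψ])
  have bψ : Function.Bijective ψ := by
    refine ⟨fun a b k => ?_, fun f => ?_⟩
    · obtain ⟨t, k'⟩ := uni _ _ (hw a) (hw b) (by
        rw [← eφ a _ (hw a) (ew a), ← eφ b _ (hw b) (ew b), ← hψ, ← hψ, k])
      exact hP.inj (by rw [ew, ew, (lnv_eq_iff (hw a) (hw b)).2 ⟨t, k'⟩])
    · obtain ⟨u, hu, k⟩ := (sur _).1 (mem_range_self f)
      obtain ⟨y, hy⟩ := hP.sur _ (OP.lnv hu) (Matrix.one_mul _)
      exact ⟨y, inj (by rw [hψ, eφ y u hu hy, k])⟩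
  let η := (Equiv.ofBijective ψ bψ).toHomeomorphOfContinuousClosed cψ cψ.isClosedMap
  have hx : HE.pull (η : C(_, F)) L.x = e • L₀.x := by
    rw [Bun.pull_x]
    exact Hg.x ⟨hc, h0, hh, fun y u hu eu => (hψ y).trans (eφ y u hu eu)⟩
  have he' : ∀ j : ℕ, ((e : ℂ) ^ j) ≠ 0 := fun j => pow_ne_zero j (Nat.cast_ne_zero.2 he.ne')
  have hp : ∀ j : ℕ, HR.pull (η : C(_, F)) (L.x ^ j).1 = (e : ℂ) ^ j • (L₀.x ^ j).1 := fun j => by
    rw [← HE.pull_val, map_pow, hx, ← Nat.cast_smul_eq_nsmul ℂ, smul_pow]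
    rfl
  rw [← BasTo.pull η]
  simp only [hp]
  obtain ⟨b1, b2⟩ := hP.basTo OP.one n
  refine ⟨fun k hk => (b1 k hk).units_smul fun j => Units.mk0 _ (he' j.1), fun k hk =>
    (b2 k hk).trans (Submodule.span_le.2 ?_)⟩
  rintro _ ⟨j, hj, rfl⟩
  exact (Submodule.smul_mem_iff _ (he' j)).1 (Submodule.subset_span ⟨j, hj, rfl⟩)

variable {M N : ℕ} {μ : Type} [Fintype μ] {X A : Set (Amb M)} {Z B G : Set (Amb N)}
  {R : Amb M → Amb N → Prop}

theorem Gam.card_le (h : Gam μ X A Z G R) (hG : G.Nonempty) : Fintype.card μ ≤ M := by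
  obtain ⟨z, hz⟩ := hG
  obtain ⟨P, _, _, _, L, Q, φ, e, hP, hQ, -, -, he, hx⟩ := h.exists_emb hz
  have h1 : (tautL M).x ^ M = 0 := by
    have := (isPP_taut M).x_pow OP.one
    rwa [Fintype.card_fin] at this
  have h2 := congrArg (HE.pull φ) h1
  rw [map_pow, hx, map_zero, ← Nat.cast_smul_eq_nsmul ℂ, smul_pow, smul_eq_zero,
    or_iff_right (pow_ne_zero M (Nat.cast_ne_zero.2 he.ne'))] at h2
  exact not_lt.1 fun c => hP.x_pow_ne hQ c h2

theorem Gam.vb (h : Gam μ X A Z (Z \ B) R) (hZ : PA Z) (hB : IsClosed B)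
    {S Γ : Set (Amb (M * N))} (hS : S = Sgr fun x z => x ∈ Prj M ∧ z ∈ Z) (hΓ : Γ = Sgr R)
    [CompactSpace S] [CompactSpace Γ] (g : C(Γ, S)) (hg : ∀ x, (g x).1 = x.1) {n : ℤ}
    (hn : n + 1 < 2 * Fintype.card μ) :
    (CP univ {s : S | ptr2 M N s.1 ∈ B}).QI (CP univ {s : Γ | ptr2 M N s.1 ∈ B}) (AS.pl g) 0 n := by
  subst hS hΓ
  have := isCompact_iff_compactSpace.1 hZ.compact
  have mz : ∀ s : Sgr fun (x : Amb M) z => x ∈ Prj M ∧ z ∈ Z, ptr2 M N s.1 ∈ Z := fun s => by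
    obtain ⟨x, z, k, e⟩ := s.2
    rw [e, ptr2_seg k.1 (hZ.1 k.2)]
    exact k.2
  let π : C(Sgr fun (x : Amb M) z => x ∈ Prj M ∧ z ∈ Z, Z) :=
    ⟨fun s => ⟨_, mz s⟩, (cont_ptr2.comp continuous_subtype_val).subtype_mk mz⟩
  have hm : ((AS.sc _).push π).Mor ((AS.sc _).push (π.comp g)) (AS.pl g) 0 :=
    ⟨(AS.sc_mor g).fG, fun t x hx => (SC.mem_zz _).2 fun s hs =>
      AS.z_pull g.continuous.continuousAt ((SC.mem_zz _).1 hx _ hs),
      fun t x => Cx.meq (zero_mem _) (sub_eq_zero.2 (AS.pull_d g x)).symm⟩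
  have key := SC.soft_qi (n := n) hm isClosed_univ (hB.preimage continuous_subtype_val)
    fun t ht => by
    rw [SC.push_cx, SC.push_cx]
    have hz : t.1 ∈ Z \ B := ⟨t.2, ht.2⟩
    have hF := isCompact_iff_compactSpace.1 (h.closed hz).isCompact
    have cs : Continuous fun x : Prj M => seg x.1 t.1 :=
      cont_seg.comp (continuous_subtype_val.prodMk continuous_const)
    let a : C(Prj M, Sgr fun (x : Amb M) z => x ∈ Prj M ∧ z ∈ Z) :=
      ⟨fun x => ⟨seg x.1 t.1, _, _, ⟨x.2, t.2⟩, rfl⟩, cs.subtype_mk _⟩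
    let b : C({x : Prj M | R x.1 t.1}, Sgr R) :=
      ⟨fun x => ⟨seg x.1.1 t.1, _, _, x.2, rfl⟩, (cs.comp continuous_subtype_val).subtype_mk _⟩
    let i : C({x : Prj M | R x.1 t.1}, Prj M) := ⟨Subtype.val, continuous_subtype_val⟩
    have si : ∀ x y : Prj M, seg x.1 t.1 = seg y.1 t.1 → x = y := fun x y e => Subtype.ext (by
      rw [← ptr_seg x.2 (hZ.1 t.2), e, ptr_seg y.2 (hZ.1 t.2)])
    have ra : π ⁻¹' {t} = range a := Set.ext fun s => ⟨fun k => by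
      obtain ⟨_, x, z, k', rfl⟩ := s
      obtain rfl : z = t.1 := (ptr2_seg k'.1 (hZ.1 k'.2)).symm.trans (congrArg Subtype.val k)
      exact ⟨⟨x, k'.1⟩, rfl⟩, by
      rintro ⟨x, rfl⟩
      exact Subtype.ext (ptr2_seg x.2 (hZ.1 t.2))⟩
    have rb : π.comp g ⁻¹' {t} = range b := Set.ext fun s => ⟨fun k => by
      have k1 : ptr2 M N s.1 = t.1 := hg s ▸ congrArg Subtype.val k
      obtain ⟨_, x, z, k', rfl⟩ := s
      obtain rfl : z = t.1 := (ptr2_seg (h.ar.1 _ _ k').1 (h.ar.1 _ _ k').2).symm.trans k1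
      exact ⟨⟨⟨x, (h.ar.1 _ _ k').1⟩, k'⟩, rfl⟩, by
      rintro ⟨x, rfl⟩
      exact Subtype.ext ((congrArg (ptr2 M N) (hg _)).trans (ptr2_seg x.1.2 (hZ.1 t.2)))⟩
    have ma := mor_pl a (K := univ) (A := ∅) (fun x _ => mem_range_self x) (mapsTo_empty _ ∅)
    have q := Cx.QI.comp ma (mor_pl i (mapsTo_univ _ _) (mapsTo_empty _ _))
      ((h.qi' hz i Subtype.val_injective Subtype.range_val).mono (m := n + 0) (by omega))
      (taut_inj a (fun x y e => si x y (congrArg Subtype.val e)) n)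
    have e0 : AS.pl i ∘ₗ AS.pl a = AS.pl b ∘ₗ AS.pl g := LinearMap.ext fun φ =>
      (AS.pull_pull _ _ φ).trans ((congrArg (AS.pull · φ) (funext fun x =>
        Subtype.ext (hg (b x)).symm)).trans (AS.pull_pull _ _ φ).symm)
    rw [e0] at q
    rw [ra, rb]
    refine Cx.QI.left (mor_pl g (fun s hs => ?_) (mapsTo_empty _ _))
      (mor_pl b (fun x _ => mem_range_self x) (mapsTo_empty _ _))
      (taut_inj b fun x y e => Subtype.ext (si _ _ (congrArg Subtype.val e))) q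
    rw [← ra]
    rwa [← rb] at hs
  rw [SC.push_cx, SC.push_cx] at key
  have e1 : π.comp g ⁻¹' (Subtype.val ⁻¹' B) = {s : Sgr R | ptr2 M N s.1 ∈ B} :=
    Set.ext fun s => by rw [mem_ofPred_eq, ← hg]; rfl
  rw [e1] at key
  exact key

theorem Gam.exc (h : Gam μ X A Z (Z \ B) R) (hA : IsClosed A) {X' : Set (Amb M)}
    {Γ : Set (Amb (M * N))} (hX : X' = X) (hΓ : Γ = Sgr R) [CompactSpace X'] [CompactSpace Γ]
    (g : C(Γ, X')) (hg : ∀ x, (g x).1 = ptr M N x.1) :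
    (CP univ {x : X' | x.1 ∈ A}).QIa (CP univ {s : Γ | ptr2 M N s.1 ∈ B}) (AS.pl g) 0 := by
  subst hX hΓ
  have e1 : g ⁻¹' {x : X' | x.1 ∈ A} = {s : Sgr R | ptr2 M N s.1 ∈ B} := Set.ext fun s => by
    rw [mem_preimage, mem_ofPred_eq, mem_ofPred_eq, hg]
    obtain ⟨_, x, z, k, rfl⟩ := s
    rw [ptr_seg (h.ar.1 _ _ k).1 (h.ar.1 _ _ k).2, ptr2_seg (h.ar.1 _ _ k).1 (h.ar.1 _ _ k).2,
      h.bd _ _ k]
    exact ⟨fun c => by_contra fun c' => c ⟨(h.mem _ _ k).2, c'⟩, fun c c' => c'.2 c⟩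
  rw [← e1]
  refine exc_pre g isClosed_univ (hA.preimage continuous_subtype_val) fun t ht => ?_
  obtain ⟨z, k, u⟩ := h.uni t.1 ⟨t.2, ht.2⟩
  refine ⟨⟨_, _, _, k, rfl⟩, Subtype.ext ((hg _).trans
    (ptr_seg (h.ar.1 _ _ k).1 (h.ar.1 _ _ k).2)), ?_⟩
  rintro ⟨_, x, z', k', rfl⟩ e
  obtain rfl : x = t.1 := (ptr_seg (h.ar.1 _ _ k').1 (h.ar.1 _ _ k').2).symm.trans
    ((hg _).symm.trans (congrArg Subtype.val e))
  obtain rfl := u z' k'
  rfl

end Pool.Agent.CS
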