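import Pool.Agent.P.MP_d34769_ag.YHB2
import Pool.Agent.P.MP_d34769_ag.YI3
import Pool.Agent.P.MP_d34769_ag.YA7

/-! From the invariant complex to the full complex. -/

open Set

noncomputable section
namespace Pool.Agent.CS

section
variable {T T' Γ : Type} [AddCommGroup T] [Module ℂ T] [AddCommGroup T'] [Module ℂ T'] [Group Γ]
  [Fintype Γ] {B : Bc T} {r : Γ →* Module.End ℂ T} (A : B.Act r) {U : Submodule ℂ T}
  (hU : ∀ x ∈ U, B.cx.d x ∈ U) (hN : B.cx.N ≤ U) {C : Cx T'} {f : T' →ₗ[ℂ] T}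
  (m1 : C.Mor (B.cx.sub U hU) f 0) (q1 : C.QIa (B.cx.sub U hU) f 0) (hx : ∀ u, f u ∈ Fix r)
  {j : ℤ}
include m1 q1 hx

theorem yi9p_inj0 (hs : A.inv.cx.Sur (A.inv.cx.quo U hU hN) LinearMap.id 0 (j - 1)) :
    C.Inj B.cx f 0 j := fun u hu hb => by
  have z1 := (Cx.mem_subZ hU).1 (Cx.Zcast (m1.mem_Z hu) (add_zero j))
  have i1 := (Cx.inj_sub_iff (C := A.inv.cx) hU hN).2 hs
  rw [sub_add_cancel] at i1
  have b1 := A.cx.ya3_B hb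
  rw [avg_of_mem (hx u), ← A.inv_cx] at b1
  obtain ⟨b, hb, e⟩ := Cx.mem_B.1 (i1 _ ((Cx.mem_subZ (C := A.inv.cx) hU).2
    ⟨⟨⟨z1.1.1.1, z1.1.1.2, hx u⟩, z1.1.2⟩, z1.2⟩) b1)
  exact q1.inj j u hu (Cx.Bcast (Cx.mem_B.2 ⟨b, ⟨⟨hb.1.1, hb.1.2.1⟩, hb.2⟩, e⟩) (add_zero j).symm)

theorem yi9p_rank0 (hm : C.Mor B.cx f 0) {K : Submodule ℂ (A.inv.cx.H j)}
    (hK : ∀ x, Cx.cls _ j x ∈ K ↔ x.1 ∈ (A.inv.cx.quo U hU hN).B j) (c : ℕ) :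
    Module.rank ℂ (Sq (LinearMap.range (hm.hm (add_zero j)) ⊓ B.W j c) (B.W j (c + 1))) =
      Module.rank ℂ (Sq (K ⊓ A.inv.W j c) (A.inv.W j (c + 1))) := by
  refine (Sq.rank_eq (A := K ⊓ A.inv.W j c) (A.mor_inc.cx.hm (add_zero j))
    (fun x hx => Submodule.mem_inf.2 ⟨?_, (A.inc_W j c x).2 hx.2⟩)
    (fun x _ => A.inc_W j _ x) ?_).symm
  · obtain ⟨z, rfl⟩ := Cx.cls_surj j x
    obtain ⟨y, hy, e⟩ := Cx.les_mid (C := A.inv.cx) hU hN z.2 ((hK z).1 hx.1)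
    obtain ⟨u, hu, e1⟩ := q1.sur j y (Cx.Zcast (C := B.cx.sub U hU)
      ⟨⟨⟨hy.1.1.1, hy.1.1.2.1⟩, hy.1.2⟩, hy.2⟩ (add_zero j).symm)
    have e' := Cx.Bcast (A.mor_inc.cx.mem_B (sub_mem z.2.1 hy.1.1) e) (add_zero j)
    exact ⟨Cx.cls _ j ⟨u, hu⟩, (Cx.cls_eq.2 (Cx.meq (add_mem e'
      (Cx.Bcast (Cx.subB_le hU e1) (add_zero j))) (sub_add_sub_cancel _ _ _))).symm⟩
  · rintro _ ⟨⟨a, rfl⟩, hw⟩
    obtain ⟨u, rfl⟩ := Cx.cls_surj j a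
    have z2 := Cx.Zcast (hm.mem_Z u.2) (add_zero j)
    have hz : f u.1 ∈ A.inv.cx.Z j := ⟨⟨z2.1.1, z2.1.2, hx _⟩, z2.2⟩
    exact ⟨Cx.cls _ j ⟨_, hz⟩, ⟨(hK _).2 (Cx.N_le_B (m1.mem_Z u.2).1.2), (A.inc_W j c _).1 hw⟩,
      Cx.meq (zero_mem _) (sub_self _).symm⟩

end

section
variable {S : Sh} {Q : Dg S} {Γ : Type} [Group Γ] (G : Q.Act Γ) {F : Q.Fam} (iF : G.Inv F)

theorem yi9p_quo : (G.bc iF G.inv_bot).cx = (G.bc G.inv_top G.inv_bot).cx.quo (Dg.bc F ⊥).N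
    (Dg.N_D (K₁ := ⊤) (A₁ := ⊥) F) (Dg.N_anti (K := ⊤) (A := ⊥) fun _ => subset_univ _) :=
  Cx.ext_YA2 ((Dg.cx_d F ⊥).trans (Dg.cx_d ⊤ ⊥).symm) (funext fun n =>
    congrArg₂ (fun a b => degZ a n ⊓ (b ⊓ Fix G.r)) ((Dg.bc_bg F ⊥).trans (Dg.bc_bg ⊤ ⊥).symm)
      (Dg.U_eq F ⊤ ⊥)) rfl

variable [Fintype Γ] {i : S.ι} (h0 : S.deg i = 0) (hF : ∀ j, j ≠ i → ∀ x, x ∈ F.A j)
  (hx : ∀ u, Q.sgl i u ∈ Fix G.r) {j : ℤ}
include h0 hF hx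

theorem yi9p_inj (hs : (G.bc G.inv_top G.inv_bot).cx.Sur (G.bc iF G.inv_bot).cx LinearMap.id 0
    (j - 1)) : (CP univ (F.A i)).Inj (Dg.bc (P := Q) ⊤ ⊥).cx (Q.sgl i) 0 j := by
  obtain ⟨m1, q1⟩ := yi3_one h0 F hF
  rw [← Dg.Fam.bot_sup (K := F), ← Dg.cx_sub (A₁ := ⊥), Dg.Fam.bot_sup] at m1 q1
  rw [yi9p_quo G iF] at hs
  exact yi9p_inj0 _ _ _ m1 q1 hx hs

theorem yi9p_rank (hm : (CP univ (F.A i)).Mor (Dg.bc (P := Q) ⊤ ⊥).cx (Q.sgl i) 0)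
    {K : Submodule ℂ ((G.bc G.inv_top G.inv_bot).cx.H j)}
    (hK : ∀ x, Cx.cls _ j x ∈ K ↔ x.1 ∈ (G.bc iF G.inv_bot).cx.B j) (c : ℕ) :
    Module.rank ℂ (Sq (LinearMap.range (hm.hm (add_zero j)) ⊓ (Dg.bc (P := Q) ⊤ ⊥).W j c)
      ((Dg.bc (P := Q) ⊤ ⊥).W j (c + 1))) =
    Module.rank ℂ (Sq (K ⊓ (G.bc G.inv_top G.inv_bot).W j c)
      ((G.bc G.inv_top G.inv_bot).W j (c + 1))) := by
  obtain ⟨m1, q1⟩ := yi3_one h0 F hF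
  rw [← Dg.Fam.bot_sup (K := F), ← Dg.cx_sub (A₁ := ⊥), Dg.Fam.bot_sup] at m1 q1
  rw [yi9p_quo G iF] at hK
  exact yi9p_rank0 _ _ _ m1 q1 hx hm hK c

end

variable {I : Type} [Fintype I] [DecidableEq I] {col : I → Fin 3} {th : Fin 3 → ℤ}
  (h0 : Adm col th [[Finset.univ]]) {m : ℕ}

theorem yi9p_fix (u : AS ((dgT col th 1 m).X (top h0))) :
    (dgT col th 1 m).sgl (top h0) u ∈ Fix (actT col th 1 m).r := by
  refine mem_fixT.2 fun w L K e => ?_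
  by_cases c : L = top h0
  · subst c
    obtain rfl : K = top h0 := e.symm.trans (actI_top h0 w)
    exact (AS.pull_id _).symm.trans (congrArg (AS.pull · _) (funext (actMor_top h0 w e)).symm)
  · exact (Dg.sgl_ne (dgT col th 1 m) c u).trans ((map_zero _).symm.trans (congrArg _
      (Dg.sgl_ne (dgT col th 1 m) (fun c' => c ((actI col th 1 w).injective
        (e.trans (c'.trans (actI_top h0 w).symm)))) u).symm))

theorem yi9p_fam (L : Wx col th 1) (h : L ≠ top h0) (x) : x ∈ ((ovT m h0).fam (NX m h0 2)).A L := by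
  rw [fam_NX h0 (by_contra fun c => h (eq_top h0 (show L.1.flatten.length - 1 = 0 by omega)))]
  trivial

theorem yi9p_top : ((ovT m h0).fam (NX m h0 2)).A (top h0) = NX m h0 2 :=
  Set.ext fun x => iff_of_eq (congrArg (· ∈ NX m h0 2) (ovT_top h0 x))

variable (hm : (CP univ (NX m h0 2)).Mor (sdT col th 1 m).bc.cx
  ((dgT col th 1 m).sgl (top h0)) 0) {j : ℤ}

/-- the relative cohomology injects -/
theorem he_pass_inj (hs : SurN m h0 (j - 1)) :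
    (CP univ (NX m h0 2)).Inj (sdT col th 1 m).bc.cx ((dgT col th 1 m).sgl (top h0)) 0 j := by
  rw [← yi9p_top h0]
  exact yi9p_inj (actT col th 1 m) (inv_famT h0 _) (deg_top h0) (yi9p_fam h0) (yi9p_fix h0) hs

/-- the graded pieces of the image are those of the kernel of the restriction -/
theorem he_pass_rank {K : Submodule ℂ ((bcT col th 1 m).cx.H j)}
    (hK : ∀ x, Cx.cls _ j x ∈ K ↔ x.1 ∈ (bcN m h0 (NX m h0 2) ∅).cx.B j) (c : ℕ) :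
    Module.rank ℂ (Sq (LinearMap.range (hm.hm (add_zero j)) ⊓ (sdT col th 1 m).bc.W j c)
      ((sdT col th 1 m).bc.W j (c + 1))) =
    Module.rank ℂ (Sq (K ⊓ (bcT col th 1 m).W j c) ((bcT col th 1 m).W j (c + 1))) := by
  revert hm
  rw [← yi9p_top h0]
  exact fun hm => yi9p_rank (actT col th 1 m) (inv_famT h0 _) (deg_top h0) (yi9p_fam h0)
    (yi9p_fix h0) hm hK c

end Pool.Agent.CS
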