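import Pool.Agent.P.MP_d34769_ag.YHE2
import Pool.Agent.P.MP_d34769_ag.YI9p

/-! The image of the relative cohomology in the cohomology of the cobar diagram. -/

open Set
open Pool.Agent.P.MP_d34769_ag

noncomputable section
namespace Pool.Agent.CS

theorem mem_ker_id {T : Type} [AddCommGroup T] [Module ℂ T] {C C' : Cx T}
    (h : C.Mor C' LinearMap.id 0) {j : ℤ} (x : C.Z j) :
    C.cls j x ∈ LinearMap.ker (h.hm (add_zero j)) ↔ x.1 ∈ C'.B j := Cx.cls_eq_zero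

theorem rank_sq_grd {T : Type} [AddCommGroup T] [Module ℂ T] [Module.Finite ℂ T]
    (W : ℕ → Submodule ℂ T) (K : Submodule ℂ T) (c : ℕ) :
    Module.rank ℂ (Sq (K ⊓ W c) (W (c + 1))) = grd W K c := (Module.finrank_eq_rank _ _).symm

variable {I : Type} [Fintype I] [DecidableEq I] {col : I → Fin 3} {th : Fin 3 → ℤ}
  (h0 : Adm col th [[Finset.univ]])

theorem two_le_of_ne {L : Wx col th 1} (h : L ≠ top h0) : 2 ≤ L.1.flatten.length := by
  by_contra c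
  exact h (eq_top h0 (show L.1.flatten.length - 1 = 0 by omega))

theorem sgl_top (m : ℕ) : (CP univ (NX m h0 2)).Mor (sdT col th 1 m).bc.cx
    ((dgT col th 1 m).sgl (top h0)) 0 :=
  (dgT col th 1 m).sgl_mor (deg_top h0) fun L _ e x => (mem_NX h0).2 ⟨L, two_le_of_ne h0
    (fun c => by have := ((shT col th 1).sup _ _ e).2; rw [c] at this; omega), x, rfl⟩

theorem he_main (θ : (Fin 3 → ℕ) → ℝ) (o : I → ℕ)
    (hθ : ∀ F, (0 < θ (dvec col F) ↔ 0 < ∑ i ∈ F, th (col i)) ∧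
      (θ (dvec col F) = 0 ↔ ∑ i ∈ F, th (col i) = 0))
    (ho : ∀ k l, col k = col l → o k = o l → k = l) (n : ℕ) :
    ∃ m₀ : ℕ, ∀ m, m₀ ≤ m → ∀ j : ℕ, j ≤ n →
      (CP univ (NX m h0 2)).Inj (sdT col th 1 m).bc.cx ((dgT col th 1 m).sgl (top h0)) 0 j ∧
      ∀ c a, j = 2 * a + c → Module.rank ℂ (Sq (LinearMap.range ((sgl_top h0 m).hm (add_zero _)) ⊓
        (sdT col th 1 m).bc.W j c) ((sdT col th 1 m).bc.W j (c + 1))) = har col θ o (c + 1) a := by
  obtain ⟨m₀, h⟩ := he_inv h0 hθ ho n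
  refine ⟨m₀, fun m hm j hj => ⟨he_pass_inj h0 ((h m hm).1 _ (by omega)), fun c a e => ?_⟩⟩
  obtain ⟨f, g⟩ := (h m hm).2 j hj
  exact (he_pass_rank h0 (sgl_top h0 m) (mem_ker_id (resN_mor h0 m).cx) c).trans
    ((rank_sq_grd _ _ c).trans (congrArg _ (g c a e)))

end Pool.Agent.CS
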