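import Pool.Agent.P.MP_d34769_ag.YI8
import Pool.Agent.P.MP_d34769_ag.YI9m
import Pool.Agent.P.MP_d34769_ag.YI2b
import Pool.Agent.P.MP_d34769_ag.YG9
import Pool.Agent.P.MP_d34769_ag.YC6b
import Pool.Agent.P.MP_d34769_ag.YHC1

/-! The Hodge numbers of the moduli space of coherent systems. -/

open Set

noncomputable section
namespace Pool.Agent.CS

open Pool.Agent.P.MP_d34769_ag Pool.Agent.PQ

theorem top_T {I : Type} [Fintype I] [DecidableEq I] {col : I → Fin 3} {th : Fin 3 → ℤ}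
    (h0 : Adm col th [[Finset.univ]]) (m : ℕ) :
    (sdT col th 1 m).Top (top h0) (Subtype.val '' NX m h0 2) where
  refl a := RS.refl _
  anti {a b} r s := by
    obtain ⟨u, hu⟩ := a.one
    obtain ⟨v, hv⟩ := b.one
    have h1 := a.2.1.part
    have h2 := b.2.1.part
    have h3 := r.ord
    have h4 := s.ord
    rw [hu, List.flatten_singleton] at h1
    rw [hv, List.flatten_singleton] at h2
    simp only [hu, hv, OrdM, List.mem_singleton, exists_eq_left] at h3 h4
    exact Subtype.ext (hu.trans ((congrArg (fun w => [w])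
      (h1.ext h2 fun i j => ⟨h3 i j, h4 i j⟩)).trans hv.symm))
  id a x hx := by
    rw [sdT_f (RS.refl _), relMor_refl]
    exact Dat.Mor.mp_id hx
  le := rel_top h0
  deg := deg_top h0
  pa := pa_NX h0 2
  sub := Subtype.coe_image_subset _ _
  maps a ha x hx := ⟨_, (mem_NX h0).2 ⟨a, two_le_of_ne h0 ha, ⟨x, hx⟩, rfl⟩, rfl⟩

theorem hodge (n d k : ℕ) (hn : 0 < n) (hk : 0 < k) (α : ℝ) (hα : 0 < α) :
    ∀ (N e : ℕ) (ι : Type) [Finite ι] (Z : Set (Amb N)) (D : ι → Set (Amb N)), IsSNC e Z D →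
      ∀ q : @Homeomorph (GMod α n d k) ↥(Z \ ⋃ i, D i) (modTop α n d k) _,
        Reg (fun x => (q x).1) →
        (∀ j c a, j ≠ 2 * a + c → hod Z D j c a = 0) ∧
        ∀ c a, ∑ b ∈ Finset.range (a + 1), hod Z D (2 * b + c) c b =
          har (I := Σ v, Fin (![d, n + d, k] v)) Sigma.fst (wgt n d k α) (fun i => i.2) (c + 1) a := by
  intro N e ι _ Z D h q hq
  obtain ⟨th, hth⟩ := exists_th n d k α
  have i0 : Ix n d k := ⟨1, ⟨0, Nat.add_pos_left hn d⟩⟩
  have h0 : Adm (Sigma.fst : Ix n d k → Fin 3) th [[Finset.univ]] :=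
    ⟨⟨by simpa using ⟨i0, Finset.mem_univ _⟩, by simp⟩, by simp, fun b hb => by
      obtain rfl : b = Finset.univ := by simpa using hb
      rw [← sum_dvec, dvec_univ]
      exact (hth _ le_rfl).2.1.2 wgt_all⟩
  have key : ∀ n0 : ℕ, (∀ j ≤ n0, ((T1 h (n0 + 1)).mhs j).Tate) ∧ ∀ c a, 2 * a + c ≤ n0 →
      ∑ b ∈ Finset.range (a + 1), Module.rank ℂ (Sq (((T1 h (n0 + 1)).mhs (2 * b + c)).W c)
        (((T1 h (n0 + 1)).mhs (2 * b + c)).W (c + 1))) =
          har (I := Ix n d k) Sigma.fst (wgt n d k α) (fun i => i.2) (c + 1) a := fun n0 => by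
    obtain ⟨m0, hm⟩ := he_main h0 (wgt n d k α) (fun i => i.2) (fun F => by
        rw [← sum_dvec]
        exact ⟨(hth _ (dvec_le F)).2.2.symm, (hth _ (dvec_le F)).2.1.symm⟩)
      (fun ⟨u, i⟩ ⟨v, j⟩ a b => by
        obtain rfl : u = v := a
        exact congrArg _ (Fin.ext b)) n0
    obtain ⟨m, h1, h2⟩ : ∃ m, m0 ≤ m ∧ n0 + 2 ≤ m := ⟨_, le_max_left _ _, le_max_right _ _⟩
    obtain ⟨zq, hz⟩ := exists_zq (D := (top h0).dat m)
      ⟨rfl, (top h0).cp_one, fun e he => (hth e he).1⟩ (top_gl h0) hn hk hα q hq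
    obtain ⟨R, hG⟩ := exists_Gam (fq_top h0) (snc_pa h.ht).1
      (isClosed_iUnion_of_finite (snc_closed h.ht)) hz
    have hc : m ≤ Fintype.card (Ix n d k × Fin ((top h0).dat m).m) := by
      rw [Fintype.card_prod, Fintype.card_fin]
      exact Nat.le_mul_of_pos_left _ (Fintype.card_pos_iff.2 ⟨i0⟩)
    have z := fun j (hj : j ≤ n0) => zigzag (top_T h0 m) h.ht hG (Nat.lt_succ_of_le hj)
      ((by omega : j + 2 < 2 * m).trans_le (Nat.mul_le_mul_left 2 hc)) (fun x => Subtype.val_injective.mem_set_image.symm) (sgl_top h0 m)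
      (hm m h1 j hj).1
    have t := fun j hj => (z j hj).elim fun _ c => c.1.tate
      ((sdT _ th 1 m).tate (fun L => Dat.tate _) j)
    have w : ∀ c a, 2 * a + c ≤ n0 → Module.rank ℂ
        (Sq (((TP h.ht ((top h0).dat m).M (n0 + 1)).mhs (2 * a + c)).W c)
          (((TP h.ht ((top h0).dat m).M (n0 + 1)).mhs (2 * a + c)).W (c + 1))) =
        har (I := Ix n d k) Sigma.fst (wgt n d k α) (fun i => i.2) (c + 1) a := fun c a hj => by
      obtain ⟨f, g1, g2⟩ := z _ hj
      refine (g1.gr c).trans ?_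
      rw [g2, SDg.mhs_W, SDg.mhs_W]
      exact (hm m h1 _ hj).2 c a rfl
    rcases (Z \ ⋃ i, D i).eq_empty_or_nonempty with c0 | c0
    · refine ⟨fun j hj c b _ => ?_, fun c a hj => (TP.count h.ht _ _ c a
        (.inr fun j k => snc_zero h.ht _ c0 (by omega))).symm.trans (w c a hj)⟩
      have := snc_zero h.ht (n0 + 1) c0 (j := j) (by omega)
      exact ⟨fun x _ => Subsingleton.elim 0 x ▸ zero_mem _,
        fun x _ => Subsingleton.elim 0 x ▸ zero_mem _⟩
    · have hM := hc.trans (hG.card_le c0)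
      exact ⟨fun j hj => snc_tate h.ht _ _ ((by omega : 0 < m).trans_le hM) (t j hj), fun c a hj =>
        (TP.count h.ht _ _ c a (.inl (by omega))).symm.trans (w c a hj)⟩
  refine ⟨fun j c a hj => (hod_T1 h (Nat.lt_succ_self j) c a).trans
    (((key j).1 j le_rfl).hod_zero hj), fun c a => ?_⟩
  rw [← (key _).2 c a le_rfl]
  refine Finset.sum_congr rfl fun b hb => ?_
  have := Finset.mem_range.1 hb
  exact (hod_T1 h (by omega) c b).trans (((key _).1 _ (by omega)).hod_eq rfl)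

end Pool.Agent.CS
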