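import Pool.Agent.P.MP_d34769_ag.YJ0
import Pool.Agent.P.MP_65ad7c_ag.XF7
import Pool.Agent.P.MP_65ad7c_ag.XH1

/-! Principalisation with centres off the smooth locus. -/

open Set Filter Topology
open Pool.Agent.HT (Amb proj)
open Pool.Agent.HIR

noncomputable section
namespace Pool.Agent.CS

section basic
variable {n c : ℕ}

theorem mono_YJ1 {S : Sp n} {J : Alg S.M} {V : Set (Amb S.M)} (h : RsV S J V) :
    ∀ H, GLe S H J → RsV S H V := by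
  induction h with
  | hit C h1 h2 h3 => exact fun H hle => RsV.hit C h1 (h2.trans (sg_mono hle)) h3
  | step β h1 h2 _ ih =>
    exact fun H hle => RsV.step β (h1.trans (sg_mono hle)) h2 (ih _ (tr_mono β hle))

theorem empty_YJ1 {S : Sp n} {G : Alg S.M} {V : Set (Amb S.M)} (h : ∀ x, x ∉ V) : RsV S G V :=
  RsV.hit ∅ ⟨isClosed_empty, empty_subset _, mapsTo_empty _ _, 0, fun _ hx => hx.elim⟩
    (empty_subset _) fun x hx => h x hx

theorem ntr_YJ1 {S : Sp n} {G : Alg S.M} {V : Set (Amb S.M)} (hV : Nice S G c V) (hG : GR S G)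
    (β : Bl S) (hd : Disjoint β.C V) : Nice β.S' (tr β G) c (β.S'.X ∩ β.π ⁻¹' V) := by
  have ho : ∀ x ∈ β.S'.X ∩ β.π ⁻¹' V, β.π x ∉ β.C := fun x hx h => disjoint_left.1 hd h hx.2
  refine ⟨fun x hx => (sg_off hG hx.1 (ho x hx)).2 (hV.sg hx.2),
    fun x hx j hj => hV.off _ hx.2 j ((Bl.mem_off hx.1 (ho x hx)).1 hj), fun x hx => ?_⟩
  obtain ⟨φ, z, T, h1, h2, h3, h4⟩ := hV.ch _ hx.2
  obtain ⟨φ', h5⟩ := Bl.exists_off hx.1 (ho x hx) h1
  refine ⟨φ', z, T, h5.pt', h2, ?_, by rwa [h5.loc_tr hG]⟩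
  filter_upwards [h3, h5.ev, h5.pt'.ev] with y g1 g2 g3
  rw [← g1, ← g2.1]
  exact ⟨fun h => h.2, fun h => ⟨g3.mem, h⟩⟩

theorem nmono_YJ1 {S : Sp n} {G H : Alg S.M} {V : Set (Amb S.M)} (hV : Nice S G c V)
    (hle : GLe S G H) (hs : V ⊆ Sg S H) : Nice S H c V := by
  refine ⟨hs, hV.off, fun x hx => ?_⟩
  obtain ⟨φ, z, T, h1, h2, h3, h4⟩ := hV.ch _ hx
  exact ⟨φ, z, T, h1, h2, h3, fun i hi => loc_le hle h1 _ _ (h4 i hi)⟩

theorem follow_YJ1 {P : ∀ S : Sp n, Alg S.M → Alg S.M → Set (Amb S.M) → Prop}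
    (hs : ∀ S J H V (β : Bl S), P S J H V → β.C ⊆ Sg S J → β.C ⊆ Sg S H ∧ Disjoint β.C V ∧
      P β.S' (tr β J) (tr β H) (β.S'.X ∩ β.π ⁻¹' V))
    (he : ∀ S J H V, P S J H V → Sg S J = ∅ → RsV S H V) {S : Sp n} {J : Alg S.M} (h : Res S J) :
    ∀ H V, P S J H V → RsV S H V := by
  induction h with
  | done h0 => exact fun H V hP => he _ _ H V hP h0
  | step β hC _ ih =>
    intro H V hP
    obtain ⟨h1, h2, h3⟩ := hs _ _ H V β hP hC
    exact RsV.step β h1 h2 (ih _ _ h3)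

end basic

section loc
variable {n c μ r₀ k b ν : ℕ} {S : Sp n} {G : Alg S.M} {V : Set (Amb S.M)} {x : Amb S.M}
  {φ : E n → Amb S.M} {z : E n} {K : Finset (Fin n)} {d : ℕ → Fin n} {a : ℕ → Amb S.M → ℕ}

/-- comparison of a chart of maximal contact with a chart of `V` -/
theorem cmp_YJ1 (hG : Good S G μ) (hV : Nice S G c V) (hx : x ∈ V) (h : PC S G r₀ k x φ z K d) :
    k ≤ c ∧ (k = c → Sub V φ z K) ∧ (k < c → Extra z (loc G φ z) K) := by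
  obtain ⟨χ, y, T, h1, rfl, h3, h4⟩ := hV.ch x hx
  obtain ⟨τ, σ, hb, e1, e2⟩ := h.pt.trans h1
  have hy : ∀ i ∈ T, y i = 0 := h3.zero.1 (h1.eq.symm ▸ hx)
  have hK : ∀ᶠ w in 𝓝 z, φ w ∈ Sg S G → ∀ i ∈ K, w i = 0 := by
    have := (K.eventually_all (l := 𝓝 z) (p := fun i w => φ w ∈ Sg S G → co i w = 0)).2
      fun i hi => hG.van h.pt (h.pk.co i hi)
    exact this.mono fun w hw hs i hi => hw i hi hs
  have hT : ∀ᶠ u in 𝓝 y, (∀ i ∈ T, u i = 0) → ∀ i ∈ K, σ u i = 0 := by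
    filter_upwards [h3, e2, hb.symm.tendsto.eventually hK] with u g1 g2 g3 g4
    refine g3 (hV.sg ?_)
    rw [show φ (σ u) = χ u from g2]
    exact g1.2 g4
  refine ⟨h.card ▸ card_le_XA6 hb.symm hy hT, fun hk => ?_, fun hk => ?_⟩
  · have := hb.symm.sub_eq hy (hk.symm.trans h.card.symm) hT
    filter_upwards [hb.tendsto.eventually this, hb.tendsto.eventually h3, hb.left, e1]
      with w g1 g2 g3 g4
    rw [← show χ (τ w) = φ w from g4, g2, g1, g3]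
  · by_contra hE
    have e := loc_trans hG.rees h.pt h1 hb e1
    have h5 : ∀ v : E n, (∀ i ∈ K, v i = 0) → ∀ i ∈ T, fderiv ℂ τ z v i = 0 := by
      intro v hv i hi
      by_contra h6
      have h7 := h4 i hi
      rw [e] at h7
      exact hE ⟨_, v, h7.2, hv, by rwa [hb.fderiv_co]⟩
    obtain ⟨g1, g2⟩ := map_XA6 (fderiv ℂ τ z) (inj_XA6 hb) h5
    have g3 := dim_XA6 T
    have g4 := dim_XA6 K
    have g5 := Submodule.finrank_mono g1
    have g6 := h.card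
    omega

theorem ex_YJ1 (hV : Nice S G c V) (hx : x ∈ V) : ex S r₀ a x d = 0 := by
  have : S.J r₀ x = ∅ := Finset.eq_empty_of_forall_notMem fun j hj => hV.off x hx j (mem_J.1 hj).2
  funext i
  simp [ex, exv, this]

theorem res_YJ1 (hG : Good S G μ) (hV : Nice S G c V) (hx : x ∈ V) (h : PC S G r₀ k x φ z K d)
    (hk : k < c) : ResLE z (loc G φ z) K b 0 b :=
  extra_rr (lr_loc hG.rees h.pt) h.lsg h.pk subset_rfl ((cmp_YJ1 hG hV hx h).2.2 hk)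

theorem zi_YJ1 (hG : Good S G μ) (hV : Nice S G k V) (hb : 0 < b) (hx : x ∈ V) :
    x ∈ Zi S G r₀ k b := by
  refine ⟨hV.sg hx, fun φ z K d h ν ⟨g, hg, hn⟩ => hn ?_⟩
  have h1 := hG.vanC h.pt hV.sg ((cmp_YJ1 hG hV hx h).2.1 rfl) _ _ hg.2.2
  rw [mon_zero, one_mul] at h1
  obtain ⟨b, rfl⟩ : ∃ b', b = b' + 1 := ⟨b - 1, by omega⟩
  refine (ord_zero_fun z _).congr (EventuallyEq.trans ?_ hg.2.1)
  filter_upwards [(tendsto_rho h.zero).eventually h1] with w hw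
  exact (hw fun i hi => by simp [rho, hi]).eq_zero.symm

theorem ord_YJ1 {g : E n → ℂ} (h : PC S G r₀ k x φ z K d) (hg : g ∈ RR z (loc G φ z) K b 0) :
    Ord z b g := by
  have h1 := h.lsg _ _ hg.2.2
  rwa [mon_zero, one_mul] at h1

theorem le_YJ1 (hV : Nice S G c V) (hx : x ∈ V) (hI : Inv0 S G r₀ k b a ν) : b ≤ ν := by
  obtain ⟨φ, z, K, d, h, -, g, hg, hn⟩ := hI x (hV.sg hx)
  rw [ex_YJ1 hV hx] at hg
  by_contra h1
  exact hn ((ord_YJ1 h hg).mono (by omega))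

theorem cpin_YJ1 (hG : GR S G) (hV : Nice S G c V) (hb : 0 < b) (hI : Inv0 S G r₀ k b a b) :
    V ⊆ Sg S (Cp S G r₀ k b a b) := by
  intro x hx
  obtain ⟨φ, z, K, d, h, -⟩ := hI x (hV.sg hx)
  rw [sg_iff (cp_rees hG) h.pt, loc_cp hG hb hI h, ex_YJ1 hV hx]
  refine (lsg_DIn ?_).2 ?_
  · rintro ⟨m, f⟩ (hq | ⟨-, hq⟩)
    · exact (lr_loc hG h.pt).an _ _ hq
    · exact hq.1
  · rintro ⟨m, f⟩ (hq | ⟨rfl, hq⟩)
    · exact h.lsg _ _ hq
    · exact ord_YJ1 h hq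

theorem cpout_YJ1 (hG : Good S G μ) (hV : Nice S G c V) (hb : 0 < b) (hI : Inv0 S G r₀ k b a ν)
    (hk : k < c) (hν : b < ν) : Disjoint (Sg S (Cp S G r₀ k b a ν)) V := by
  refine disjoint_left.2 fun x hs hx => ?_
  obtain ⟨φ, z, K, d, h, -⟩ := hI x (hV.sg hx)
  rw [sg_iff (cp_rees hG.rees) h.pt, loc_cp hG.rees hb hI h, ex_YJ1 hV hx] at hs
  obtain ⟨g, hg, hn⟩ := res_YJ1 (b := b) hG hV hx h hk
  exact hn ((hs _ _ (rr_Cmp hg)).mono hν)

end loc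

/-- resolution up to `V` under maximal contact of codimension `k` -/
def RKV_YJ1 (n k : ℕ) : Prop := ∀ (S : Sp n) (G : Alg S.M) (r₀ μ c : ℕ) (V : Set (Amb S.M)),
  Std S G r₀ μ → PKg S G r₀ k → Nice S G c V → RsV S G V

variable {n μ r₀ r₁ k c : ℕ}

theorem bndaux_YJ1 (hR : RKV_YJ1 n k) (𝒜 : Finset (Finset ℕ)) :
    ∀ (S : Sp n) (H : Alg S.M) (V : Set (Amb S.M)), Std S H r₀ μ → r₁ ≤ S.r → PKg S H r₁ k →
      Nice S H c V →
      (∀ B ⊆ Finset.Ico r₀ r₁, (∃ x ∈ Sg S H, ∀ j ∈ B, x ∈ S.D j) → B ∈ 𝒜) → RsV S H V := by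
  classical
  induction hc : 𝒜.card using Nat.strong_induction_on generalizing 𝒜 with
  | _ m ih =>
  intro S H V hS hr hp hV hA
  rcases V.eq_empty_or_nonempty with rfl | ⟨x₀, hx₀⟩
  · exact empty_YJ1 fun _ h => h
  have hne : (𝒜.filter fun B => B ⊆ Finset.Ico r₀ r₁).Nonempty :=
    ⟨∅, Finset.mem_filter.2 ⟨hA ∅ (Finset.empty_subset _) ⟨x₀, hV.sg hx₀, by simp⟩,
      Finset.empty_subset _⟩⟩
  obtain ⟨A, hA1, hmax⟩ := Finset.exists_max_image _ Finset.card hne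
  obtain ⟨hA𝒜, hAI⟩ := Finset.mem_filter.1 hA1
  rcases A.eq_empty_or_nonempty with rfl | ⟨j₀, hj₀⟩
  · refine hR S H r₁ μ c V ⟨hS.good, hr, fun x hx j hj hxj f hf hv => ?_⟩ hp hV
    by_cases hj0 : j < r₀
    · exact hS.old x hx j hj0 hxj f hf hv
    · have h1 : {j} ⊆ Finset.Ico r₀ r₁ :=
        Finset.singleton_subset_iff.2 (Finset.mem_Ico.2 ⟨not_lt.1 hj0, hj⟩)
      have h2 : {j} ∈ 𝒜 := hA _ h1 ⟨x, hx, fun i hi => Finset.mem_singleton.1 hi ▸ hxj⟩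
      have h3 := hmax _ (Finset.mem_filter.2 ⟨h2, h1⟩)
      simp at h3
  refine follow_YJ1 (P := fun S' J' H' V' => J' = addD S' H' A ∧ Std S' H' r₀ μ ∧ r₁ ≤ S'.r ∧
    PKg S' H' r₁ k ∧ Nice S' H' c V' ∧
      ∀ B ⊆ Finset.Ico r₀ r₁, (∃ x ∈ Sg S' H', ∀ j ∈ B, x ∈ S'.D j) → B ∈ 𝒜)
    ?_ ?_ (prin (blx n) (good_addD hS.good)) H V ⟨rfl, hS, hr, hp, hV, hA⟩
  · rintro S' _ H' V' β ⟨rfl, hS', hr', hp', hV', hA'⟩ hC
    have hC' : β.C ⊆ Sg S' H' := fun x hx => ((sg_addD hS'.good.rees).1 (hC hx)).1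
    have hd : Disjoint β.C V' := disjoint_left.2 fun x hx hx' =>
      hV'.off x hx' j₀ (((sg_addD hS'.good.rees).1 (hC hx)).2 j₀ hj₀)
    refine ⟨hC', hd, tr_addD hS'.good
      (fun j hj => (Finset.mem_Ico.1 (hAI hj)).2.trans_le hr') hC, hS'.tr hC', ?_,
      hp'.tr hS'.good hr' hC', ntr_YJ1 hV' hS'.good.rees β hd, ?_⟩
    · rw [β.r]
      omega
    · rintro B hB ⟨x, hx, hxB⟩
      exact hA' B hB ⟨β.π x, sg_tr hS'.good.rees hC' hx, fun j hj =>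
        β.str_sub ((Finset.mem_Ico.1 (hB hj)).2.trans_le hr').ne (hxB j hj)⟩
  · rintro S' _ H' V' ⟨rfl, hS', hr', hp', hV', hA'⟩ he
    refine ih _ (hc ▸ Finset.card_erase_lt_of_mem hA𝒜) (𝒜.erase A) rfl S' H' V' hS' hr' hp' hV' ?_
    rintro B hB ⟨x, hx, hxB⟩
    refine Finset.mem_erase.2 ⟨?_, hA' B hB ⟨x, hx, hxB⟩⟩
    rintro rfl
    have : x ∈ Sg S' (addD S' H' B) := (sg_addD hS'.good.rees).2 ⟨hx, hxB⟩
    rw [he] at this
    exact this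

theorem loop_YJ1 (hR : RKV_YJ1 n (k + 1)) (hk : k < c) (ν : ℕ) :
    ∀ (S : Sp n) (G : Alg S.M) (a : ℕ → Amb S.M → ℕ) (V : Set (Amb S.M)), Std S G r₀ μ →
      Ex S G a → Inv0 S G r₀ k μ.factorial a ν → Nice S G c V → RsV S G V := by
  have hb : 0 < μ.factorial := Nat.factorial_pos μ
  induction ν with
  | zero => exact fun S G a V _ _ hI hV => empty_YJ1 fun x hx => hb.not_ge (le_YJ1 hV hx hI)
  | succ ν ih =>
    intro S G a V hG ha hI hV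
    have h1 : 1 ≤ ν + 1 := Nat.le_add_left 1 ν
    have hgood := good_cp hG.good hb ha hI h1
    have hle : GLe S G (Cp S G r₀ k μ.factorial a (ν + 1)) := le_cp hG.good.rees
    rcases lt_trichotomy (ν + 1) μ.factorial with hν | hν | hν
    · exact empty_YJ1 fun x hx => hν.not_ge (le_YJ1 hV hx hI)
    · refine mono_YJ1 (bndaux_YJ1 (c := c) hR (Finset.Ico r₀ S.r).powerset S _ V
        ⟨hgood, hG.le, hG.old.mono hle⟩ le_rfl (pkg_cp hG.good.rees hb hI h1)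
        (nmono_YJ1 hV hle ?_) fun _ hB _ => Finset.mem_powerset.2 hB) G hle
      rw [hν] at hI ⊢
      exact cpin_YJ1 hG.good.rees hV hb hI
    refine follow_YJ1 (P := fun S' H' G' V' => ∃ a', Std S' G' r₀ μ ∧
      Good S' H' (max μ (ν + 1)) ∧ GLe S' G' H' ∧ Ex S' G' a' ∧
      Inv S' G' H' r₀ k μ.factorial a' (ν + 1) ∧ Nice S' G' c V' ∧ Disjoint (Sg S' H') V') ?_ ?_
      (prin (blx n) hgood) G V
      ⟨a, hG, hgood, hle, ha, inv_cp hG.good hI, hV, cpout_YJ1 hG.good hV hb hI hk hν⟩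
    · rintro S' H' G' V' β ⟨a', g1, g2, g3, g4, g5, g6, g7⟩ hC
      have hC' : β.C ⊆ Sg S' G' := hC.trans (sg_mono g3)
      have hd : Disjoint β.C V' := g7.mono_left hC
      exact ⟨hC', hd, tra β r₀ μ.factorial a' (ν + 1), g1.tr hC', g2.tr hC, tr_mono β g3,
        g4.tra g1.good.rees hC' _ _ _, g5.tr hb g1.good g2 g1.le g3 hC,
        ntr_YJ1 g6 g1.good.rees β hd,
        disjoint_left.2 fun x hx hx' => disjoint_left.1 g7 (sg_tr g2.rees hC hx) hx'.2⟩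
    · rintro S' H' G' V' ⟨a', g1, g2, -, g4, g5, g6, -⟩ he
      exact ih S' G' a' V' g1 g4 (g5.drop hb g1.good.rees g2.rees he) g6

theorem step_YJ1 (hn : 0 < n) (hR : RKV_YJ1 n (k + 1)) : RKV_YJ1 n k := by
  intro S G r₀ μ c V hG hp hV
  rcases lt_trichotomy k c with hk | rfl | hk
  · obtain ⟨β, hβ⟩ := blx n S _ (ctr_zi hn hG hp)
    have hC : β.C ⊆ Sg S G := by
      rw [hβ]
      exact fun x hx => hx.1
    have hd : Disjoint β.C V := by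
      rw [hβ]
      refine disjoint_left.2 fun x hx hx' => ?_
      obtain ⟨φ, z, K, d, h⟩ := hp x hx.1
      exact hx.2 φ z K d h _ (res_YJ1 hG.good hV hx' h hk)
    obtain ⟨ν, hν⟩ := zinf hG.good hp β hβ
    exact RsV.step β hC hd (loop_YJ1 hR hk ν _ _ 0 _ (hG.tr hC) (ex_zero' _ _) hν
      (ntr_YJ1 hV hG.good.rees β hd))
  · exact RsV.hit _ (ctr_zi hn hG hp) (fun x hx => hx.1) fun x hx =>
      zi_YJ1 hG.good hV (Nat.factorial_pos μ) hx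
  · refine empty_YJ1 fun x hx => ?_
    obtain ⟨φ, z, K, d, h⟩ := hp x (hV.sg hx)
    exact hk.not_ge (cmp_YJ1 hG.good hV hx h).1

theorem all_YJ1 (hn : 0 < n) (d : ℕ) : ∀ k, k + d = n + 1 → RKV_YJ1 n k := by
  induction d with
  | zero =>
    intro k hk S G r₀ μ c V _ hp hV
    refine empty_YJ1 fun x hx => ?_
    obtain ⟨φ, z, K, c, h⟩ := hp x (hV.sg hx)
    have h1 := K.card_le_univ
    rw [h.card, Fintype.card_fin] at h1
    omega
  | succ d ih => exact fun k hk => step_YJ1 hn (ih (k + 1) (by omega))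

theorem rsv {n c μ : ℕ} {S : Sp n} {G : Alg S.M} {V : Set (Amb S.M)} (hG : Good S G μ)
    (hV : Nice S G c V) : RsV S G V := by
  rcases Nat.eq_zero_or_pos n with rfl | hn
  · refine RsV.hit (Sg S G) ⟨hG.closed, fun x hx => hx.1, hG.sg_cj, 0, fun x hx => ?_⟩
      subset_rfl hV.sg
    obtain ⟨φ, z, hp, hD⟩ := Sp.chart hx.1
    refine ⟨φ, z, ∅, hp, rfl, Eventually.of_forall fun y => ?_, hD⟩
    rw [Subsingleton.elim y z, hp.eq]
    exact ⟨fun _ i => i.elim0, fun _ => hx⟩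
  · refine all_YJ1 hn (n + 1) 0 (by omega) S G 0 μ c V
      ⟨hG, Nat.zero_le _, fun x _ j hj => absurd hj (Nat.not_lt_zero j)⟩ (fun x hx => ?_) hV
    obtain ⟨φ, z, hp, hD⟩ := Sp.chart hx.1
    have : Nonempty (Fin n) := ⟨⟨0, hn⟩⟩
    choose! c hc using hD
    exact ⟨φ, z, ∅, c, hp, hx, ⟨fun i hi => absurd hi (Finset.notMem_empty i),
      fun i hi => absurd hi (Finset.notMem_empty i)⟩, rfl, fun j hj => hc j (mem_J.1 hj).2,
      fun j _ => Finset.notMem_empty _⟩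

end Pool.Agent.CS
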