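import Pool.Agent.P.MP_d34769_ag.YJ1
import Pool.Agent.P.MP_d34769_ag.YJ3a

/-! A normal crossing compactification of a locally closed submanifold. -/

open Set Filter Topology
open Pool.Agent.HT (Amb proj cj IsSNC)
open Pool.Agent.PWV (pm)
open Pool.Agent.HIR

noncomputable section
namespace Pool.Agent.CS
variable {σ : Type} [Finite σ] {N e : ℕ} {W : Set (σ → ℂ)} {Θ : Fin (N + 1) → MvPolynomial σ ℂ}
  {κ : Finset (Fin (N + 1))}

theorem yj3_dim {n M : ℕ} {X C : Set (Amb M)} {φ : E n → Amb M} {z : E n} {x : Amb M}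
    (hp : Pt X φ z x) (hC : C ⊆ X) {ψ : E e → Amb M} {w : E e} (hq : Pt C ψ w x) : e ≤ n := by
  obtain ⟨t, -, -, -, hi⟩ := fac_XI4 hp hC hq
  simpa using LinearMap.finrank_le_finrank_of_injective
    ((injective_iff_map_eq_zero (fderiv ℂ t w).toLinearMap).2 hi)

/-- the closure of the part off the boundary is a union of components -/
theorem yj3_clo {M : ℕ} {C : Set (Amb M)} {ph : Amb M → Amb (N + 1)} (hC : Mf e C)
    (hph : HolP e C ph) : Mf e (closure (C \ ph ⁻¹' Bnd κ)) := by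
  have hs : closure (C \ ph ⁻¹' Bnd κ) ⊆ C := closure_minimal sdiff_subset hC.compact.isClosed
  refine ⟨hC.compact.of_isClosed_subset isClosed_closure hs, fun x hx => ?_⟩
  obtain ⟨φ, z, hp⟩ := hC.chart x (hs hx)
  obtain ⟨g, hg, h0, he⟩ := hph φ z x hp
  have hA : ∀ᶠ y in 𝓝 z, φ y ∈ C \ ph ⁻¹' Bnd κ ↔ ¬ ∀ k ∈ κ, g y k = 0 := by
    filter_upwards [hp.ev, he, hg.continuousAt.eventually_ne h0] with y h1 h2 h3
    simp only [Function.comp_apply] at h2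
    rw [Set.mem_sdiff, mem_preimage, h2, proj_bnd h3]
    exact and_iff_right h1.mem
  obtain ⟨k, hk, hz⟩ : ∃ k ∈ κ, ¬ (fun y => g y k) =ᶠ[𝓝 z] 0 := by
    by_contra hn
    push Not at hn
    refine not_mem_closure hp sdiff_subset ?_ hx
    filter_upwards [hA, (eventually_all_finset κ).2 hn] with y h1 h2 h3 using h1.1 h3 h2
  have hB : ∀ᶠ w in 𝓝 z, φ w ∈ closure (C \ ph ⁻¹' Bnd κ) := by
    filter_upwards [hp.ev, dense_XI4 (an_app_XE2 hg k) hz, hA.eventually_nhds] with w h1 h2 h3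
    rw [closure_iff_XG1 h1 sdiff_subset]
    exact (h2.and_eventually h3).mono fun y hy => hy.2.2 fun h4 => hy.1 (h4 k hk)
  refine ⟨φ, z, hp.congr_set ?_⟩
  filter_upwards [eventually_nhdsWithin_iff.1 (hp.ev_iff.2 hB)] with y hy
  exact ⟨hy, fun h => hs h⟩

theorem yj3_bij {n : ℕ} {S : Sp n} (β : Bl S) {V : Set (Amb S.M)} (hV : V ⊆ S.X)
    (hd : Disjoint β.C V) : BijOn β.π (β.S'.X ∩ β.π ⁻¹' V) V := by
  refine ⟨fun x hx => hx.2, fun x hx y hy => β.inj ⟨hx.1, disjoint_right.1 hd hx.2⟩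
    ⟨hy.1, disjoint_right.1 hd hy.2⟩, fun y hy => ?_⟩
  obtain ⟨x, hx, rfl⟩ := β.surj ⟨hV hy, disjoint_right.1 hd hy⟩
  exact ⟨x, ⟨hx, hy⟩, rfl⟩

theorem yj3_ind {n c : ℕ} (hc : e + c = n) {I : Set (Amb (N + 1))} (hI : ∀ y ∈ I, y ∉ Bnd κ)
    {S : Sp n} {G : Alg S.M} {V : Set (Amb S.M)} (hR : RsV S G V) :
    ∀ ph : Amb S.M → Amb (N + 1), Good S G 1 → Nice S G c V → HolP n S.X ph →
      (∀ x, ph (cj S.M x) = cj (N + 1) (ph x)) → (∀ x ∈ Sg S G, ph x ∉ Bnd κ → x ∈ V) →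
      BijOn ph V I → V.Nonempty →
      ∃ (M : ℕ) (Z : Set (Amb M)) (ph : Amb M → Amb (N + 1)), Mf e Z ∧ MapsTo (cj M) Z Z ∧
        HolP e Z ph ∧ (∀ x, ph (cj M x) = cj (N + 1) (ph x)) ∧ BijOn ph (Z \ ph ⁻¹' Bnd κ) I := by
  induction hR with
  | @hit S G V C hC hs hV =>
    intro ph _ hN hh hr hS hb ⟨x, hx⟩
    obtain ⟨e', he⟩ := hC.mf
    have h1 : HolP e' C ph := hh.sub S.mf hC.sub
    have h2 : V = C \ ph ⁻¹' Bnd κ :=
      Subset.antisymm (fun y hy => ⟨hV hy, hI _ (hb.mapsTo hy)⟩) fun y hy => hS y (hs hy.1) hy.2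
    have h3 : closure V ⊆ C := closure_minimal hV hC.closed
    obtain rfl : e = e' := by
      obtain ⟨φ, z, T, a1, a2, a3, -⟩ := hN.ch x hx
      obtain ⟨s, a4⟩ := exists_emb (e := e) T (by omega)
      have a5 := (a1.sub (hV.trans hC.sub) hx a3 s a4).2
      obtain ⟨ψ, w, a6⟩ := he.chart x (hV hx)
      refine le_antisymm (yj3_dim a6 hV a5) (yj3_dim a5 Subset.rfl (a6.congr_set ?_))
      filter_upwards [eventually_nhdsWithin_iff.1 ((h1.cont he x (hV hx)).eventually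
        ((bnd_closed κ).isOpen_compl.mem_nhds (hI _ (hb.mapsTo hx))))] with y hy
      exact ⟨fun k => hS y (hs k) (hy k), fun k => hV k⟩
    refine ⟨_, closure V, ph, h2 ▸ yj3_clo he h1, MapsTo.closure ?_ (cj _).continuous,
      h1.sub he h3, hr, ?_⟩
    · rw [h2]
      exact fun y hy => ⟨hC.rl hy.1, fun k => hy.2 (bnd_cj.1 (hr y ▸ k))⟩
    · rwa [show closure V \ ph ⁻¹' Bnd κ = V from Subset.antisymm
        (fun y hy => hS y (hs (h3 hy.1)) hy.2) fun y hy =>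
          ⟨subset_closure hy, hI _ (hb.mapsTo hy)⟩]
  | @step S G V β hC hd _ ih =>
    intro ph hG hN hh hr hS hb hne
    have h1 := yj3_bij β (fun x hx => (hN.sg hx).1) hd
    exact ih (ph ∘ β.π) (hG.tr hC) (ntr_YJ1 hN hG.rees β hd) (hh.bl β)
      (fun x => by rw [Function.comp_apply, β.rl, hr]; rfl)
      (fun x hx k => ⟨hx.1, hS _ (sg_tr hG.rees hC hx) k⟩) (hb.comp h1)
      (h1.surjOn.comap_nonempty hne)

/-- a smooth compactification -/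
theorem PE.exists_mf (h : PE W e Θ κ) : ∃ (M : ℕ) (Z : Set (Amb M)) (ph : Amb M → Amb (N + 1)),
    Mf e Z ∧ MapsTo (cj M) Z Z ∧ HolP e Z ph ∧ (∀ x, ph (cj M x) = cj (N + 1) (ph x)) ∧
      BijOn ph (Z \ ph ⁻¹' Bnd κ) (Im W Θ) := by
  rcases (Im W Θ).eq_empty_or_nonempty with h0 | ⟨x, hx⟩
  · refine ⟨_, ∅, id, ⟨isCompact_empty, fun _ k => k.elim⟩, mapsTo_empty _ _,
      fun _ _ _ k => k.mem.elim, fun _ => rfl, ?_⟩
    rw [h0, empty_sdiff]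
    exact bijOn_empty _
  obtain ⟨𝒬, h1, h2, h3, h4⟩ := h.start
  have hG := good_pol (S := (mf_Prj N).sp (cj_Prj _)) holP_id (fun _ => rfl) h1 h2
  obtain ⟨ψ, w, hq⟩ := h.chart x hx
  obtain ⟨φ, z, hp⟩ := (mf_Prj N).chart x (h4.sg hx).1
  have h5 := yj3_dim hp (fun y hy => (h4.sg hy).1) hq
  refine yj3_ind (by omega) (fun y hy => (h3 ▸ hy).2) (rsv hG h4) id hG h4 holP_id (fun _ => rfl)
    (fun y hy k => ?_) (bijOn_id _) ⟨x, hx⟩
  rw [sg_pol (S := (mf_Prj N).sp (cj_Prj _)) holP_id fun Q hQ => (h2 Q hQ).hom] at hy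
  rw [h3]
  exact ⟨hy, k⟩

theorem yj3_snc {n : ℕ} {B I : Set (Amb (N + 1))} {S : Sp n} {G : Alg S.M} (hR : Res S G) :
    ∀ ph : Amb S.M → Amb (N + 1), Good S G 1 → HolP n S.X ph → (∀ j, S.D j ⊆ ph ⁻¹' B) →
      Sg S G ⊆ ph ⁻¹' B → (∀ x ∈ S.X, ph x ∈ B → x ∈ Sg S G ∨ ∃ j, x ∈ S.D j) →
      BijOn ph (S.X \ ph ⁻¹' B) I →
      ∃ (S' : Sp n) (ph' : Amb S'.M → Amb (N + 1)), HolP n S'.X ph' ∧
        (∀ x ∈ S'.X, (∃ j, x ∈ S'.D j) ↔ ph' x ∈ B) ∧ BijOn ph' (S'.X \ ph' ⁻¹' B) I := by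
  induction hR with
  | @done S G he =>
    intro ph _ hh hD _ hc hb
    refine ⟨S, ph, hh, fun x hx => ⟨fun ⟨j, hj⟩ => hD j hj,
      fun hz => (hc x hx hz).resolve_left ?_⟩, hb⟩
    rw [he]
    exact notMem_empty x
  | @step S G β hC _ ih =>
    intro ph hG hh hD hS hc hb
    refine ih (ph ∘ β.π) (hG.tr hC) (hh.bl β) (fun j x hx => ?_)
      (fun x hx => hS (sg_tr hG.rees hC hx)) (fun x hx hz => ?_) ?_
    · by_cases hj : j = S.r
      · subst hj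
        rw [β.exc] at hx
        exact hS (hC hx.2)
      · exact hD j (β.str_sub hj hx)
    · by_cases hx' : β.π x ∈ β.C
      · exact Or.inr ((Bl.union hx).2 (Or.inl hx'))
      · rcases hc _ (β.maps hx) hz with h1 | h1
        · exact Or.inl ((sg_off hG.rees hx hx').2 h1)
        · exact Or.inr ((Bl.union hx).2 (Or.inr h1))
    · rw [show β.S'.X \ (ph ∘ β.π) ⁻¹' B = β.S'.X ∩ β.π ⁻¹' (S.X \ ph ⁻¹' B) from
        Set.ext fun x => and_congr_right fun hx => (and_iff_right (β.maps hx)).symm]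
      exact hb.comp (yj3_bij β sdiff_subset (disjoint_left.2 fun x hx k => k.2 (hS (hC hx))))

/-- a normal crossing compactification -/
theorem PE.exists_snc (h : PE W e Θ κ) : ∃ (M r : ℕ) (Z : Set (Amb M)) (D : Fin r → Set (Amb M))
    (ph : Amb M → Amb (N + 1)), IsSNC e Z D ∧ Mf e Z ∧ HolP e Z ph ∧
      Z \ ⋃ j, D j = Z \ ph ⁻¹' Bnd κ ∧ BijOn ph (Z \ ph ⁻¹' Bnd κ) (Im W Θ) := by
  obtain ⟨M, Z, ph, h1, h2, h3, h4, h5⟩ := h.exists_mf
  have hG := good_pol (S := h1.sp h2) h3 h4 (κ.finite_toSet.image _) bnd_rh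
  have hS := sg_pol (S := h1.sp h2) h3 fun P hP => (bnd_rh (κ := κ) P hP).hom
  obtain ⟨S, ph', a1, a2, a3⟩ := yj3_snc (B := Bnd κ) (prin (blx e) hG) ph hG h3
    (fun _ => empty_subset _) (hS ▸ inter_subset_right) (fun x hx k => Or.inl (hS ▸ ⟨hx, k⟩)) h5
  refine ⟨_, S.r, S.X, fun j => S.D j, ph', ⟨S.snc.compact, fun j => S.snc.sub j, fun x hx => ?_⟩,
    S.mf, a1, Set.ext fun x => and_congr_right fun hx => not_congr ?_, a3⟩
  · obtain ⟨O, f, k, b1, b2, b3, b4⟩ := S.snc.chart x hx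
    exact ⟨O, f, fun j => k j, b1, b2, fun i j l c1 c2 => Fin.ext (b3 i j l c1 c2), fun j => b4 j⟩
  · rw [mem_iUnion, mem_preimage, ← a2 x hx]
    exact ⟨fun ⟨j, hj⟩ => ⟨j, hj⟩, fun ⟨j, hj⟩ => ⟨⟨j, Sp.lt hj⟩, hj⟩⟩

end Pool.Agent.CS
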