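import Pool.Agent.P.MP_d34769_ag.YD4

/-! A continuous map from an open subset of affine space with algebraic graph is regular. -/

open Set
open Pool.Agent.HT (Amb proj)
open Pool.Agent.PWV (pm ZC ZI)
open Pool.Agent.HIR

noncomputable section
namespace Pool.Agent.CS

section
open MvPolynomial (eval)

variable {σ : Type} [Finite σ] {O : Set (σ → ℂ)} {δ : MvPolynomial σ ℂ} {f : (σ → ℂ) → ℂ}
  {w₀ : σ → ℂ}

theorem yj4_dense (hδ : δ ≠ 0) : Dense {x : σ → ℂ | eval x δ ≠ 0} := fun _ =>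
  closure_mono inter_subset_right (dens Ideal.isPrime_bot (fun k => hδ (Ideal.mem_bot.1 k))
    fun g hg => by rw [Ideal.mem_bot.1 hg, map_zero])

theorem yj4_zero (hO : IsOpen O) (hw : w₀ ∈ O) (h : ∀ x ∈ O, eval x δ = 0) : δ = 0 := by
  by_contra h0
  obtain ⟨x, hx, hx'⟩ := (yj4_dense h0).inter_open_nonempty O hO ⟨_, hw⟩
  exact hx' (h x hx)

theorem yj4_ext (hO : IsOpen O) (hf : ContinuousOn f O) (hδ : δ ≠ 0) {A B : MvPolynomial σ ℂ}
    (h : ∀ x ∈ O, eval x δ ≠ 0 → eval x B * f x = eval x A) :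
    ∀ x ∈ O, eval x B * f x = eval x A :=
  EqOn.of_subset_closure (s := O ∩ {x | eval x δ ≠ 0}) (fun x hx => h x hx.1 hx.2)
    ((MvPolynomial.continuous_eval B).continuousOn.mul hf)
    (MvPolynomial.continuous_eval A).continuousOn inter_subset_left
    ((yj4_dense hδ).open_subset_closure_inter hO)

theorem yj4_lin (hO : IsOpen O) (hw : w₀ ∈ O) (hf : ContinuousOn f O)
    {S : Set (Polynomial (MvPolynomial σ ℂ))}
    (h : ∀ w ∈ O, ∀ t, (∀ P ∈ S, (P.map (eval w)).eval t = 0) ↔ t = f w) :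
    ∃ A B : MvPolynomial σ ℂ, B ≠ 0 ∧ ∀ w ∈ O, eval w B * f w = eval w A := by
  classical
  have ex : ∃ n, ∃ P : Polynomial (MvPolynomial σ ℂ), P ≠ 0 ∧ P.natDegree = n ∧
      ∀ w ∈ O, (P.map (eval w)).eval (f w) = 0 := by
    have h1 := mt (h w₀ hw (f w₀ + 1)).1 (by simp)
    push Not at h1
    obtain ⟨P, hP, h2⟩ := h1
    exact ⟨_, P, fun k => h2 (by simp [k]), rfl, fun w hw => (h w hw _).2 rfl P hP⟩
  obtain ⟨P, h0, hn, hP⟩ := Nat.find_spec ex
  have hd : 0 < P.natDegree := Nat.pos_of_ne_zero fun k => by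
    rw [Polynomial.eq_C_of_natDegree_eq_zero k] at h0 hP
    exact h0 (by rw [yj4_zero (δ := P.coeff 0) hO hw fun w hw => by simpa using hP w hw, map_zero])
  have key : ∀ w t, eval w P.leadingCoeff ≠ 0 → (P.map (eval w)).eval t = 0 →
      ∀ n (g : Polynomial (MvPolynomial σ ℂ)), g.natDegree = n →
        (∀ w ∈ O, (g.map (eval w)).eval (f w) = 0) → (g.map (eval w)).eval t = 0 := by
    intro w t h1 h2 n
    induction n using Nat.strong_induction_on with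
    | _ n ih =>
      rintro g rfl hg
      rcases lt_or_ge g.natDegree P.natDegree with k | k
      · by_contra h3
        exact Nat.find_min ex (hn ▸ k) ⟨g, fun k => h3 (by simp [k]), rfl, hg⟩
      · have h3 := ih _ (Polynomial.natDegree_cancelLeads_lt_of_natDegree_le_natDegree k
          (hd.trans_le k)) _ rfl fun w hw => by simp [Polynomial.cancelLeads, hP w hw, hg w hw]
        simpa [Polynomial.cancelLeads, h2, h1, Nat.sub_eq_zero_of_le k] using h3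
  have hl := Polynomial.leadingCoeff_ne_zero.2 h0
  refine ⟨-P.nextCoeff, P.leadingCoeff * P.natDegree, mul_ne_zero hl (Nat.cast_ne_zero.2 hd.ne'),
    yj4_ext hO hf hl fun w hw h1 => ?_⟩
  have h2 := (IsAlgClosed.splits (P.map (eval w))).nextCoeff_eq_neg_sum_roots_mul_leadingCoeff
  have h3 : (P.map (eval w)).roots = Multiset.replicate P.natDegree (f w) :=
    Multiset.eq_replicate.2 ⟨by rw [IsAlgClosed.card_roots_eq_natDegree,
      Polynomial.natDegree_map_of_leadingCoeff_ne_zero _ h1], fun t ht => (h w hw t).1 fun g hg =>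
        key w t h1 (Polynomial.isRoot_of_mem_roots ht) _ g rfl fun w hw => (h w hw _).2 rfl g hg⟩
  rw [h3, Polynomial.nextCoeff_map_of_leadingCoeff_ne_zero _ h1,
    Polynomial.leadingCoeff_map_of_leadingCoeff_ne_zero _ h1] at h2
  simp [h2, mul_assoc]

omit [Finite σ] in
theorem yj4_prime (hδ : δ ≠ 0) (h : eval w₀ δ = 0) : ∃ π, Prime π ∧ π ∣ δ ∧ eval w₀ π = 0 := by
  induction δ using UniqueFactorizationMonoid.induction_on_prime with
  | h₁ => exact (hδ rfl).elim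
  | h₂ x hx => exact ((hx.map (eval w₀)).ne_zero h).elim
  | h₃ a p ha hp ih =>
    rw [map_mul] at h
    rcases mul_eq_zero.1 h with h | h
    · exact ⟨p, hp, dvd_mul_right _ _, h⟩
    · obtain ⟨π, h1, h2, h3⟩ := ih ha h
      exact ⟨π, h1, h2.mul_left _, h3⟩

theorem yj4_reg (hO : IsOpen O) (hw : w₀ ∈ O) (hf : ContinuousOn f O) {V : Set (Option σ → ℂ)}
    (hV : ZC V) (h : ∀ w ∈ O, ∀ t, (fun o : Option σ => o.elim t w) ∈ V ↔ t = f w) :
    ∃ A B : MvPolynomial σ ℂ, eval w₀ B ≠ 0 ∧ ∀ w ∈ O, eval w B * f w = eval w A := by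
  obtain ⟨S, rfl⟩ := hV
  obtain ⟨A, B, h0, h1⟩ := yj4_lin (S := MvPolynomial.optionEquivLeft ℂ σ '' S) hO hw hf
    fun w hw t => by
      rw [← h w hw t, forall_mem_image]
      exact forall₂_congr fun P _ => by rw [MvPolynomial.optionEquivLeft_elim_eval]
  obtain ⟨B, A, hc, c, rfl, rfl⟩ : ∃ B' A', IsRelPrime B' A' ∧ ∃ c, c * B' = B ∧ c * A' = A := by
    obtain ⟨a, b, c, h⟩ := UniqueFactorizationMonoid.exists_reduced_factors B h0 A
    exact ⟨a, b, h.1, c, h.2⟩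
  have h2 := yj4_ext (A := A) (B := B) hO hf (left_ne_zero_of_mul h0) fun w hw k =>
    mul_left_cancel₀ k (by rw [← mul_assoc, ← map_mul, h1 w hw, map_mul])
  refine ⟨A, B, fun k => ?_, h2⟩
  obtain ⟨π, h3, h4, h5⟩ := yj4_prime (right_ne_zero_of_mul h0) k
  have h6 : ∀ x, x ∈ ZI (Ideal.span {π}) ↔ eval x π = 0 := fun x =>
    ⟨fun k => k _ (Ideal.mem_span_singleton_self π), fun k g hg => by
      obtain ⟨c, rfl⟩ := Ideal.mem_span_singleton.1 hg
      rw [map_mul, k, zero_mul]⟩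
  obtain ⟨x, hx, h7, h8⟩ := mem_closure_iff.1 (dens (δ := A)
    ((Ideal.span_singleton_prime h3.ne_zero).2 h3)
    (fun k => h3.not_isUnit (hc h4 (Ideal.mem_span_singleton.1 k))) ((h6 _).2 h5)) O hO hw
  obtain ⟨c, rfl⟩ := h4
  exact h8 (by rw [← h2 x hx, map_mul, (h6 x).1 h7, zero_mul, zero_mul])

theorem yj4_vec {τ : Type} [Finite τ] {V : Set (σ ⊕ τ → ℂ)} (hV : ZC V) {f : (σ → ℂ) → τ → ℂ}
    (hO : IsOpen O) (hw : w₀ ∈ O) (hf : ContinuousOn f O)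
    (h : ∀ w u, (Sum.elim w u ∈ V ∧ eval w δ ≠ 0) ↔ (w ∈ O ∧ u = f w)) (i : τ) :
    ∃ A B : MvPolynomial σ ℂ, eval w₀ B ≠ 0 ∧ ∀ w ∈ O, eval w B * f w i = eval w A := by
  let G : Option σ → MvPolynomial (σ ⊕ τ) ℂ := fun o => MvPolynomial.X (o.elim (.inr i) .inl)
  have e1 : ∀ w u, pm G (Sum.elim w u) = fun o : Option σ => o.elim (u i) w := fun w u =>
    funext fun o => by cases o <;> simp [pm, G]
  have e2 : ∀ w u, eval (Sum.elim w u) (MvPolynomial.rename (Sum.inl : σ → σ ⊕ τ) δ) =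
      eval w δ := fun w u => MvPolynomial.eval_rename _ _ _
  have e3 : ∀ y ∈ pm G '' (V ∩ {x | eval x (MvPolynomial.rename Sum.inl δ) ≠ 0}),
      y ∘ some ∈ O ∧ y none = f (y ∘ some) i := by
    rintro _ ⟨x, hx, rfl⟩
    obtain ⟨w, u, rfl⟩ : ∃ w u, x = Sum.elim w u := ⟨_, _, (Sum.elim_comp_inl_inr x).symm⟩
    obtain ⟨h1, rfl⟩ := (h w u).1 ⟨hx.1, e2 w u ▸ hx.2⟩
    rw [e1]
    exact ⟨h1, rfl⟩
  refine yj4_reg hO hw ((continuous_apply i).comp_continuousOn hf)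
    (img_zc hV (MvPolynomial.rename Sum.inl δ) G) fun w hw t => ⟨fun k => ?_, ?_⟩
  · exact EqOn.of_subset_closure (t := {y | y ∘ some ∈ O} ∩ closure _)
      (f := fun y => y none) (g := fun y => f (y ∘ some) i) (fun y hy => (e3 y hy).2)
      (continuous_apply _).continuousOn ((continuous_apply i).comp_continuousOn (hf.comp
        (continuous_pi fun s => continuous_apply (some s)).continuousOn fun y hy => hy.1))
      (fun y hy => ⟨(e3 y hy).1, subset_closure hy⟩) inter_subset_right ⟨hw, k⟩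
  · rintro rfl
    have h1 := (h w _).2 ⟨hw, rfl⟩
    exact subset_closure ⟨_, ⟨h1.1, (e2 _ _).trans_ne h1.2⟩, e1 _ _⟩

theorem yj4_col {M : ℕ} {v : Fin M → ℂ} {j : Fin M} (hj : v j ≠ 0) :
    (fun i => proj v (i, j) / proj v (j, j)) = (v j)⁻¹ • v := by
  have h := (proj_diag (Function.ne_iff.2 ⟨j, hj⟩) j).not.2 hj
  funext i
  rw [div_eq_iff h, congrFun (proj_col v j) i, congrFun (proj_col v j) j]
  simp only [Pi.smul_apply, smul_eq_mul]
  field_simp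

end

theorem rat {σ : Type} [Finite σ] {M K e : ℕ} {W : Set (σ → ℂ)} {A : Set (MvPolynomial σ ℂ)}
    (hW : ∀ w, w ∈ W ↔ ∃ P ∈ A, MvPolynomial.eval w P ≠ 0) {Z : Set (Amb M)} (hZ : Mf e Z)
    {ph : Amb M → Amb K} (hph : HolP e Z ph) {Θ : Fin K → MvPolynomial σ ℂ}
    (hΘ : ∀ w ∈ W, pm Θ w ≠ 0) {F : (σ → ℂ) → Amb M} (hF : ContinuousOn F W)
    (h : ∀ w ∈ W, ∀ x, (x ∈ Z ∧ ph x = proj (pm Θ w)) ↔ x = F w) :
    ∀ w₀ ∈ W, ∃ v : Fin M → MvPolynomial σ ℂ, pm v w₀ ≠ 0 ∧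
      ∀ w ∈ W, pm v w ≠ 0 → F w = proj (pm v w) := by
  intro w₀ hw₀
  obtain ⟨δ, hA, hδ⟩ := (hW w₀).1 hw₀
  obtain ⟨hp, V, hV, hR⟩ := (ag_of_hol hZ hph).ar
  have e1 : ∀ w ∈ W, ∀ u, u ≠ 0 → (Sum.elim u (pm Θ w) ∈ V ↔ proj u = F w) := fun w hw u hu =>
    (hR u _ hu (hΘ w hw)).symm.trans (h w hw _)
  have e2 : ∀ w ∈ W, F w ∈ Prj M := fun w hw => (hp _ _ ((h w hw _).2 rfl)).1
  have e0 : ∀ w, MvPolynomial.eval w δ ≠ 0 → w ∈ W := fun w k => (hW w).2 ⟨δ, hA, k⟩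
  obtain ⟨v₀, hv, e⟩ := e2 w₀ hw₀
  obtain ⟨j, hj⟩ := Function.ne_iff.1 hv
  let O := {w | MvPolynomial.eval w δ ≠ 0} ∩ (fun w => F w (j, j)) ⁻¹' {0}ᶜ
  let f : (σ → ℂ) → Fin M → ℂ := fun w i => F w (i, j) / F w (j, j)
  have c1 : ∀ p, ContinuousOn (fun w => F w p) W := fun p =>
    (PiLp.continuous_apply 2 _ p).comp_continuousOn hF
  have hO : IsOpen O := ((c1 _).mono e0).isOpen_inter_preimage
    (isOpen_ne_fun (MvPolynomial.continuous_eval δ) continuous_const) isOpen_compl_singleton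
  have hw : w₀ ∈ O := ⟨hδ, fun k => hj ((proj_diag hv j).1 (e ▸ k))⟩
  have e3 : ∀ w ∈ O, f w j = 1 ∧ proj (f w) = F w := fun w hw => ⟨div_self hw.2, by
    obtain ⟨v, hv, e⟩ := e2 w (e0 w hw.1)
    have hj := (proj_diag hv j).not.1 (e ▸ hw.2)
    simp only [f, ← e]
    rw [yj4_col hj, proj_smul (inv_ne_zero hj)]⟩
  have e4 : ∀ u : Fin M → ℂ, u j = 1 → u ≠ 0 := fun u k => Function.ne_iff.2 ⟨j, by simp [k]⟩
  let G : Fin M ⊕ Fin K → MvPolynomial (σ ⊕ Fin M) ℂ :=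
    Sum.elim (fun i => MvPolynomial.X (.inr i)) fun k => MvPolynomial.rename .inl (Θ k)
  have e5 : ∀ w u, (fun s => MvPolynomial.eval (Sum.elim w u) (G s)) = Sum.elim u (pm Θ w) :=
    fun w u => funext fun s => by cases s <;> simp [G, pm, MvPolynomial.eval_rename]
  choose a b h1 h2 using yj4_vec (δ := δ) (f := f)
    ((hV.preimage G).inter (PWV.zc_zero (MvPolynomial.X (.inr j) - 1))) hO hw
    (continuousOn_pi.2 fun i => ((c1 _).mono fun w k => e0 w k.1).div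
      ((c1 _).mono fun w k => e0 w k.1) fun w k => k.2) fun w u => by
    simp only [mem_inter_iff, mem_ofPred_eq, e5, map_sub, MvPolynomial.eval_X, map_one,
      Sum.elim_inr, sub_eq_zero]
    refine ⟨fun ⟨⟨k1, k2⟩, k3⟩ => ?_, fun ⟨k1, k2⟩ => ?_⟩
    · have k4 := (e1 w (e0 w k3) u (e4 u k2)).1 k1
      have k5 : u j ≠ 0 := k2 ▸ one_ne_zero
      refine ⟨⟨k3, fun k => k5 ((proj_diag (e4 u k2) j).1 (k4 ▸ k))⟩, ?_⟩
      simp only [f, ← k4]
      rw [yj4_col k5, k2, inv_one, one_smul]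
    · subst k2
      exact ⟨⟨(e1 w (e0 w k1.1) _ (e4 _ (e3 w k1).1)).2 (e3 w k1).2, (e3 w k1).1⟩, k1.1⟩
  let v : Fin M → MvPolynomial σ ℂ := fun i => a i * ∏ l ∈ Finset.univ.erase i, b l
  have e6 : ∀ w ∈ O, pm v w = MvPolynomial.eval w (∏ l, b l) • f w := fun w hw =>
    funext fun i => by
      rw [← Finset.mul_prod_erase _ _ (Finset.mem_univ i)]
      simp only [pm, v, map_mul, ← h2 i w hw, Pi.smul_apply, smul_eq_mul]
      ring
  have e7 : MvPolynomial.eval w₀ (∏ l, b l) ≠ 0 := by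
    rw [map_prod]
    exact Finset.prod_ne_zero_iff.2 fun l _ => h1 l
  refine ⟨v, e6 _ hw ▸ smul_ne_zero e7 (e4 _ (e3 _ hw).1), fun w hw' k => ?_⟩
  have e8 : ∀ w, (fun s => MvPolynomial.eval w (Sum.elim v Θ s)) = Sum.elim (pm v w) (pm Θ w) :=
    fun w => funext fun s => by cases s <;> rfl
  obtain ⟨S, hS⟩ := hV.preimage (Sum.elim v Θ)
  refine ((e1 w hw' _ k).1 (e8 w ▸ (hS.ge fun g hg => ?_ : w ∈ _))).symm
  rw [yj4_zero (δ := g) (hO.inter (isOpen_ne_fun (MvPolynomial.continuous_eval (∏ l, b l))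
    continuous_const)) ⟨hw, e7⟩ fun x hx => hS.le ?_ g hg, map_zero]
  rw [mem_ofPred_eq, e8, e6 x hx.1, e1 x (e0 x hx.1.1) _ (smul_ne_zero hx.2 (e4 _ (e3 x hx.1).1)),
    proj_smul hx.2, (e3 x hx.1).2]

end Pool.Agent.CS
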