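import Pool.Agent.P.MP_d34769_ag.YJ5a

/-! Semi-invariants, covariants and embeddings without framing: definitions. -/

open Matrix

set_option linter.unusedSectionVars false

noncomputable section
namespace Pool.Agent.CS

variable {I : Type} [Fintype I] [DecidableEq I]

/-- the coordinates of a triple -/
def cr (ρ : Rp I) : Co I 0 → ℂ := co (ρ, 0)

/-- the complex conjugate triple -/
def cj (ρ : Rp I) : Rp I := fun a => (ρ a).map (starRingEnd ℂ)

theorem cr_fst (p : Pt I 0) : cr p.1 = co p :=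
  congrArg co (Prod.ext rfl (Subsingleton.elim _ _))

theorem act0 (g : Matrix I I ℂ) (ρ : Rp I) : act g ((ρ, 0) : Pt I 0) = (actR g ρ, 0) :=
  Prod.ext rfl (Subsingleton.elim _ _)

theorem continuous_cr : Continuous (cr : Rp I → Co I 0 → ℂ) :=
  continuous_co.comp (continuous_id.prodMk continuous_const)

theorem poly_cr (a : Fin 3) (i j : I) : IsPoly cr fun ρ : Rp I => ρ a i j :=
  IsPoly.coord (c := cr) (.inl (a, i, j))

namespace Dat
variable (D : Dat I)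

/-- the stable triples -/
def SR : Set (Rp I) := {ρ | ρ ∈ D.base.R ∧ D.Stb ρ}

/-- semi-invariants of weight `a` -/
structure SI (a : ℕ) (s : Rp I → ℂ) : Prop where
  poly : IsPoly cr s
  act : ∀ g ∈ D.base.P, ∀ ρ, D.ch g ^ a * s (actR g ρ) = s ρ

/-- covariants of weight `a` with values in matrices -/
structure CV (a : ℕ) (l : Rp I → Matrix I I ℂ) : Prop where
  poly : ∀ i j, IsPoly cr fun ρ => l ρ i j
  act : ∀ g ∈ D.base.P, ∀ ρ, D.ch g ^ a • l (actR g ρ) = g * l ρ * g⁻¹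

/-- semi-invariants and covariants of one weight that generate -/
structure Uni0 where
  N : ℕ
  A : ℕ
  S : Fin N → Rp I → ℂ
  L : Fin N → Rp I → Matrix I I ℂ
  κ : Set (Fin N)
  si : ∀ k, D.SI A (S k)
  cv : ∀ k, D.CV A (L k)
  ss : ∀ ρ ∈ D.base.R, D.SS D.th ρ → ∃ k, S k ρ ≠ 0
  stb : ∀ ρ ∈ D.base.R, D.Stb ρ ↔ ∃ k ∈ κ, S k ρ ≠ 0
  span : ∀ ρ ∈ D.SR, Submodule.span ℂ (Set.range fun k => L k ρ) = ⊤

/-- `T` embeds the space of stable orbits into projective space -/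
structure Emb0 {τ : Type} (A : ℕ) (T : Rp I → τ → ℂ) (κ : Set τ) : Prop where
  poly : ∀ t, IsPoly cr fun ρ => T ρ t
  act : ∀ g ∈ D.base.P, ∀ ρ, D.ch g ^ A • T (actR g ρ) = T ρ
  ss : ∀ ρ ∈ D.base.R, D.SS D.th ρ → T ρ ≠ 0
  stb : ∀ ρ ∈ D.base.R, D.Stb ρ ↔ ∃ t ∈ κ, T ρ t ≠ 0
  inj : ∀ ρ ∈ D.SR, ∀ (σ : Rp I) (c : ℂ), c ≠ 0 → T σ = c • T ρ → ∃ g ∈ D.base.P, actR g ρ = σ
  imm : ∀ ρ ∈ D.SR, ∀ (v : Rp I) (c : ℂ),
    (∀ t, HasDerivAt (fun z : ℂ => T (ρ + z • v) t) (c * T ρ t) 0) →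
      ∃ u ∈ D.base.Lie, v = fun a => u * ρ a - ρ a * u

/-- the dimension of the space of stable orbits -/
def dim0 : ℕ := Module.finrank ℂ D.base.R + 1 - Module.finrank ℂ D.base.Lie

variable {D} {a b : ℕ} {s t : Rp I → ℂ} {l : Rp I → Matrix I I ℂ}

theorem SI.mul (h : D.SI a s) (k : D.SI b t) : D.SI (a + b) fun ρ => s ρ * t ρ :=
  ⟨h.poly.mul k.poly, fun g hg ρ => by rw [← h.act g hg ρ, ← k.act g hg ρ]; ring⟩

theorem SI.pow (h : D.SI a s) (n : ℕ) : D.SI (a * n) fun ρ => s ρ ^ n :=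
  ⟨h.poly.pow n, fun g hg ρ => by rw [← h.act g hg ρ, pow_mul, mul_pow]⟩

theorem SI.smul (h : D.SI a s) (k : D.CV b l) : D.CV (a + b) fun ρ => s ρ • l ρ :=
  ⟨fun i j => h.poly.mul (k.poly i j), fun g hg ρ => by
    rw [Matrix.mul_smul, Matrix.smul_mul, ← k.act g hg ρ, ← h.act g hg ρ, smul_smul, smul_smul]
    congr 1
    ring⟩

end Dat

end Pool.Agent.CS
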