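import Pool.Agent.P.MP_d34769_ag.YF4

/-! The character of the stability condition; properness of the action without framing. -/

open Matrix Filter Topology
open Pool.Agent.PWV (ZC pm)

set_option linter.unusedSectionVars false

noncomputable section
namespace Pool.Agent.CS

variable {I : Type} [Fintype I] [DecidableEq I]

theorem layer0 (w σ : I → ℝ) (hw : ∑ i, w i = 0)
    (h : ∀ l : ℝ, ∑ i ∈ Finset.univ.filter (fun i => σ i ≤ l), w i ≤ 0) : 0 ≤ ∑ i, w i * σ i := by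
  by_contra c
  rw [not_le] at c
  have hI : Nonempty I := by
    by_contra e
    rw [not_nonempty_iff] at e
    simp at c
  have hM : ∀ i, σ i - (‖σ‖ + 1) < 0 := fun i => by
    linarith [le_abs_self (σ i), show |σ i| ≤ ‖σ‖ from norm_le_pi_norm σ i]
  have hS : ∑ i, (σ i - (‖σ‖ + 1)) < 0 := Finset.sum_neg (fun i _ => hM i) Finset.univ_nonempty
  have he := div_pos_of_neg_of_neg c hS
  have := layer (fun i => w i - (∑ i, w i * σ i) / ∑ i, (σ i - (‖σ‖ + 1)))
    (fun i => σ i - (‖σ‖ + 1)) (fun e => hI.elim fun i => (hM i).ne (congrFun e i))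
    (fun l _ ⟨i, hi⟩ => ?_) fun l hl ⟨i, hi⟩ => absurd (hl.trans_le hi) (hM i).not_gt
  · simp only [sub_mul, Finset.sum_sub_distrib (f := fun i => w i * _)] at this
    rw [← Finset.mul_sum, div_mul_cancel₀ _ hS.ne] at this
    simp only [mul_sub, Finset.sum_sub_distrib, ← Finset.sum_mul, hw] at this
    linarith
  · refine (Finset.sum_lt_sum_of_nonempty ⟨i, by simpa using hi⟩ fun j _ =>
      sub_lt_self (w j) he).trans_le ?_
    simpa only [sub_le_iff_le_add] using h (l + (‖σ‖ + 1))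

theorem gap_YJ5 {κ : Type} (U : Ultrafilter κ) (τ : κ → I → ℝ) (w : I → ℝ) (hw : ∑ i, w i = 0)
    (h : ∀ F : Finset I, (∀ i j, j ∈ F → (∃ M, ∀ᶠ n in U, τ n i - τ n j ≤ M) → i ∈ F) →
      ∑ i ∈ F, w i ≤ 0) : ∃ C, ∀ᶠ n in U, C ≤ ∑ i, w i * τ n i := by
  obtain ⟨r, hr⟩ : ∃ r : I → I → Prop, ∀ i j, r i j ↔ ∃ M, ∀ᶠ n in U, τ n i - τ n j ≤ M :=
    ⟨_, fun _ _ => Iff.rfl⟩
  have r2 : ∀ {i j k}, r i j → r j k → r i k := fun a b => by
    obtain ⟨M, a⟩ := (hr _ _).1 a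
    obtain ⟨M', b⟩ := (hr _ _).1 b
    exact (hr _ _).2 ⟨M + M', (a.and b).mono fun n c => by linarith [c.1, c.2]⟩
  let s : Setoid I := ⟨fun i j => r i j ∧ r j i, fun i => (and_self_iff.trans (hr i i)).2
    ⟨0, by simp⟩, And.symm, fun a b => ⟨r2 a.1 b.1, r2 b.2 a.2⟩⟩
  obtain ⟨p, p1, p2⟩ : ∃ p : I → I, (∀ i, r (p i) i ∧ r i (p i)) ∧
      ∀ i j, r i j → r j i → p i = p j := ⟨fun i => (Quotient.mk s i).out,
    fun i => Quotient.mk_out (s := s) i, fun i j a b => congrArg _ (Quotient.sound ⟨a, b⟩)⟩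
  have h1 : ∀ i, ∃ M, ∀ᶠ n in U, M ≤ w i * (τ n i - τ n (p i)) := fun i => by
    obtain ⟨M, a⟩ := (hr _ _).1 (p1 i).1
    obtain ⟨M', b⟩ := (hr _ _).1 (p1 i).2
    refine ⟨-(|w i| * max M M'), (a.and b).mono fun n c => neg_le_of_abs_le ?_⟩
    rw [abs_mul]
    exact mul_le_mul_of_nonneg_left (abs_sub_le_iff.2 ⟨c.2.trans (le_max_right _ _),
      c.1.trans (le_max_left _ _)⟩) (abs_nonneg _)
  choose M hM using h1
  have h2 : ∀ i j, ∀ᶠ n in U, r i j → τ n (p i) ≤ τ n (p j) := fun i j => by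
    by_cases a : r i j
    · by_cases b : r j i
      · exact Eventually.of_forall fun n _ => by rw [p2 i j a b]
      · refine (Ultrafilter.eventually_not.2 fun c => b (r2 (p1 j).2 (r2 ((hr _ _).2 ⟨0, c⟩)
          (p1 i).1))).mono fun n c _ => by linarith [not_le.1 c]
    · exact Eventually.of_forall fun n b => absurd b a
  refine ⟨∑ i, M i, ((eventually_all.2 hM).and (eventually_all.2 fun i => eventually_all.2
    (h2 i))).mono fun n c => ?_⟩
  have h3 := layer0 w (fun i => τ n (p i)) hw fun l => h _ fun i j a b => by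
    simpa using (c.2 i j ((hr _ _).2 b)).trans (by simpa using a)
  have h4 := Finset.sum_le_sum fun i (_ : i ∈ Finset.univ) => c.1 i
  simp only [mul_sub, Finset.sum_sub_distrib] at h4
  linarith

theorem tendsto_actR {ι : Type} {l : Filter ι} {g : ι → Matrix I I ℂ} {g0 : Matrix I I ℂ}
    {q : ι → Rp I} {ρ : Rp I} (h0 : IsUnit g0.det) (hg : Tendsto g l (𝓝 g0))
    (hq : Tendsto q l (𝓝 ρ)) : Tendsto (fun n => actR (g n) (q n)) l (𝓝 (actR g0 ρ)) :=
  (continuous_fst.tendsto _).comp (tendsto_act (m := 0) (p := fun n => (q n, 0)) (p0 := (ρ, 0))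
    h0 hg (hq.prodMk_nhds tendsto_const_nhds))

theorem actR_smul {c : ℂ} (hc : c ≠ 0) {g : Matrix I I ℂ} (hg : IsUnit g.det) (ρ : Rp I) :
    actR (c • g) ρ = actR g ρ := funext fun a => by
  have : (c • g)⁻¹ = c⁻¹ • g⁻¹ := inv_eq_right_inv (by
    rw [Matrix.smul_mul, Matrix.mul_smul, mul_nonsing_inv _ hg, smul_inv_smul₀ hc])
  simp only [actR, this, Matrix.smul_mul, Matrix.mul_smul, inv_smul_smul₀ hc]

namespace Dat
variable (D : Dat I)

/-- the character of the stability condition -/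
def ch (g : Matrix I I ℂ) : ℂ := ∏ v, (D.cut v g).det ^ D.th v

/-- the orbit of a triple in the line bundle of the character -/
def O0 (a : ℕ) (ρ : Rp I) : Set (Option (Co I 0) → ℂ) :=
  {w | ∃ g ∈ D.base.P, w = yf3c (act g (ρ, 0), D.ch g ^ a)}

theorem ch_one : D.ch 1 = 1 := by simp [ch, cut_one]

theorem ch_diagonal (t : I → ℂ) : D.ch (diagonal t) = ∏ i, t i ^ D.th (D.col i) := by
  have h : ∀ v, D.cut v (diagonal t) = diagonal fun i => if D.col i = v then t i else 1 := fun v => by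
    ext i j
    simp only [cut, of_apply, diagonal_apply, one_apply]
    split_ifs <;> rfl
  simp only [ch, h, det_diagonal, ← Finset.prod_zpow]
  rw [Finset.prod_comm]
  refine Finset.prod_congr rfl fun i _ => ?_
  rw [Finset.prod_eq_single (D.col i) (fun v _ hv => by rw [if_neg hv.symm, _root_.one_zpow])
    (by simp), if_pos rfl]

variable {D} {g h : Matrix I I ℂ} {ρ σ : Rp I}

theorem ch_mul (hg : g ∈ D.base.P) (h : Matrix I I ℂ) : D.ch (g * h) = D.ch g * D.ch h := by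
  simp only [ch, (f1_col hg).cut_mul, det_mul, mul_zpow, Finset.prod_mul_distrib]

theorem ch_ne (hg : g ∈ D.base.P) : D.ch g ≠ 0 :=
  Finset.prod_ne_zero_iff.2 fun v _ => zpow_ne_zero _ ((f1_col hg).det_ne hg.2 v)

theorem ch_star (hg : g ∈ D.base.P) : D.ch gᴴ = star (D.ch g) := by
  simp only [ch, star_prod, star_zpow₀, (f1_col hg).cut_ct, det_conjTranspose]

theorem ch_conj (g : Matrix I I ℂ) :
    D.ch (g.map (starRingEnd ℂ)) = starRingEnd ℂ (D.ch g) := by
  have h : ∀ v, D.cut v (g.map (starRingEnd ℂ)) = (starRingEnd ℂ).mapMatrix (D.cut v g) :=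
    fun v => Matrix.ext fun i j => by simp [cut, apply_ite (starRingEnd ℂ), one_apply]
  simp only [ch, h, ← RingHom.map_det, map_prod, map_zpow₀]

theorem ch_inv (hg : g ∈ D.base.P) : D.ch g⁻¹ = (D.ch g)⁻¹ :=
  eq_inv_of_mul_eq_one_right (by rw [← ch_mul hg, mul_nonsing_inv _ hg.2, ch_one])

theorem norm_ch (hg : g ∈ D.base.P) (hu : g ∈ unitaryGroup I ℂ) : ‖D.ch g‖ = 1 := by
  have := congrArg norm (ch_mul hg gᴴ)
  rw [show g * gᴴ = 1 from mem_unitaryGroup_iff.1 hu, ch_one, ch_star hg, norm_mul, norm_star,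
    norm_one] at this
  nlinarith [norm_nonneg (D.ch g)]

theorem smul_mem_P {c : ℂ} (hc : c ≠ 0) (hg : g ∈ D.P) : c • g ∈ D.P :=
  ⟨D.Lie.smul_mem c hg.1, by rw [det_smul]; exact (hc.isUnit.pow _).mul hg.2⟩

theorem ch_smul {c : ℂ} (hc : c ≠ 0) (g : Matrix I I ℂ) : D.ch (c • g) = D.ch g := by
  have h : ∀ F : Finset I, ∏ i ∈ F, c ^ D.th (D.col i) = c ^ ∑ i ∈ F, D.th (D.col i) :=
    fun F => by
      induction F using Finset.induction_on with
      | empty => simp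
      | insert a F ha ih => rw [Finset.prod_insert ha, Finset.sum_insert ha, ih, zpow_add₀ hc]
  rw [smul_eq_diagonal_mul, ch_mul (D.base.f1_diag fun _ => hc), ch_diagonal, h, f1_sum_th,
    zpow_zero, one_mul]

theorem ch_cont (hg : g ∈ D.base.P) : ContinuousAt D.ch g :=
  tendsto_finsetProd _ fun v _ =>
    ((D.continuous_cut v).matrix_det.tendsto g).zpow₀ _ (Or.inl ((f1_col hg).det_ne hg.2 v))

theorem ch_poly : ∃ F : Matrix I I ℂ × Matrix I I ℂ → ℂ,
    IsPoly (fun z => Sum.elim (fun x : I × I => z.1 x.1 x.2) fun x : I × I => z.2 x.1 x.2) F ∧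
      ∀ g ∈ D.base.P, F (g, g⁻¹) = D.ch g := by
  refine ⟨fun z => ∏ v, ((D.cut v z.1).det ^ (D.th v).toNat * (D.cut v z.2).det ^ (-D.th v).toNat),
    IsPoly.prod _ fun v _ => IsPoly.mul (IsPoly.pow (IsPoly.det fun i j => ?_) _)
      (IsPoly.pow (IsPoly.det fun i j => ?_) _), fun g hg => Finset.prod_congr rfl fun v _ => ?_⟩
  · exact IsPoly.ite _ (IsPoly.coord (Sum.inl (i, j))) (IsPoly.const _)
  · exact IsPoly.ite _ (IsPoly.coord (Sum.inr (i, j))) (IsPoly.const _)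
  · have h := congrArg Matrix.det ((f1_col hg).cut_mul g⁻¹ v)
    rw [mul_nonsing_inv g hg.2, cut_one, det_one, det_mul] at h
    have hn := (f1_col hg).det_ne hg.2 v
    show (D.cut v g).det ^ _ * (D.cut v g⁻¹).det ^ _ = _
    rw [eq_inv_of_mul_eq_one_right h.symm, _root_.inv_pow, ← _root_.zpow_natCast,
      ← _root_.zpow_natCast, ← _root_.zpow_neg, ← zpow_add₀ hn]
    congr 1
    omega

theorem log_ch (τ : I → ℝ) :
    Real.log ‖D.ch (diagonal fun i => (Real.exp (τ i) : ℂ))‖ = ∑ i, D.th (D.col i) * τ i := by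
  rw [ch_diagonal, norm_prod, Real.log_prod]
  · refine Finset.sum_congr rfl fun i _ => ?_
    rw [norm_zpow, Complex.norm_real, Real.norm_eq_abs, abs_of_pos (Real.exp_pos _), Real.log_zpow,
      Real.log_exp]
  · intro i _
    exact norm_ne_zero_iff.2 (zpow_ne_zero _ (by exact_mod_cast (Real.exp_pos _).ne'))

variable {κ : Type} (U : Ultrafilter κ) {q : κ → Rp I} {γ : κ → Matrix I I ℂ}

theorem prop0_diag {τ : κ → I → ℝ} (hq : Tendsto q U (𝓝 ρ))
    (hσ : Tendsto (fun n => actR (diagonal fun i => (Real.exp (τ n i) : ℂ)) (q n)) U (𝓝 σ))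
    {F : Finset I} (hF : ∀ i j, j ∈ F → (∃ M, ∀ᶠ n in U, τ n i - τ n j ≤ M) → i ∈ F) :
    D.Sub ρ (sp (F : Set I)) := by
  refine f1_sub_sp fun a i j hi hj => by_contra fun c => hi (hF i j hj ⟨‖σ a i j / ρ a i j‖ + 1, ?_⟩)
  have e : Continuous fun x : Rp I => x a i j := (continuous_apply a).matrix_elem i j
  have h1 := (e.tendsto _).comp hq
  have h2 := (((e.tendsto _).comp hσ).div h1 c).norm
  filter_upwards [h1.eventually_ne c, h2.eventually (gt_mem_nhds (lt_add_one _))] with n h3 h4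
  have h5 := congrArg (·.1 a i j) (act_diagonal (m := 0) (fun i => (Real.exp (τ n i) : ℂ))
    (fun i => by exact_mod_cast (Real.exp_pos _).ne') (q n, 0))
  simp only [act, of_apply] at h5
  simp only [Pi.div_apply, Function.comp_apply] at h3 h4
  rw [h5, mul_div_cancel_right₀ _ h3, ← Complex.ofReal_div, Complex.norm_real, ← Real.exp_sub,
    Real.norm_eq_abs, abs_of_pos (Real.exp_pos _)] at h4
  linarith [Real.add_one_le_exp (τ n i - τ n j)]

theorem prop0_kak (hq : Tendsto q U (𝓝 ρ)) (hg : ∀ᶠ n in U, γ n ∈ D.base.P)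
    (hσ : Tendsto (fun n => actR (γ n) (q n)) U (𝓝 σ)) :
    ∃ (k k' : κ → Matrix I I ℂ) (τ : κ → I → ℝ), ∃ k0 ∈ D.base.P, ∃ k1 ∈ D.base.P,
      Tendsto k U (𝓝 k0) ∧ Tendsto k' U (𝓝 k1) ∧
      (∀ᶠ n in U, γ n = k n * diagonal (fun i => (Real.exp (τ n i) : ℂ)) * k' n ∧
        Real.log ‖D.ch (γ n)‖ = ∑ i, D.th (D.col i) * τ n i) ∧
      ∀ F : Finset I, (∀ i j, j ∈ F → (∃ M, ∀ᶠ n in U, τ n i - τ n j ≤ M) → i ∈ F) →
        D.Sub (actR k1 ρ) (sp (F : Set I)) := by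
  classical
  have hk : ∀ n, (if γ n ∈ D.base.P then γ n else 1) ∈ D.base.P := fun n => by
    split_ifs with e
    exacts [e, D.base.f1_one]
  choose k hk k' hk' hP hP' t ht e using fun n => D.kak (hk n)
  have he : ∀ᶠ n in U, γ n = k n * diagonal (fun i => (Real.exp (Real.log (t n i)) : ℂ)) * k' n :=
    hg.mono fun n hn => by
      have := e n
      rw [if_pos hn] at this
      simp only [Real.exp_log (ht n _)]
      exact this
  obtain ⟨k0, u0, h0, h1⟩ := f1_lim_unitary U hk hP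
  obtain ⟨k1, -, h2, h3⟩ := f1_lim_unitary U hk' hP'
  refine ⟨k, k', fun n i => Real.log (t n i), k0, h0, k1, h2, h1, h3, he.mono fun n hn => ⟨hn, ?_⟩,
    fun F => prop0_diag U (σ := actR k0ᴴ σ) (tendsto_actR h2.2 h3 hq) ?_⟩
  · rw [hn, Matrix.mul_assoc, ch_mul (hP n), ch_mul (D.base.f1_diag fun i => by
      exact_mod_cast (Real.exp_pos _).ne'), norm_mul, norm_mul, norm_ch (hP n) (hk n),
      norm_ch (hP' n) (hk' n), one_mul, mul_one, log_ch]
  · refine (tendsto_actR (D.star_mem_P h0).2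
      ((continuous_id.matrix_conjTranspose.tendsto _).comp h1) hσ).congr' (he.mono fun n hn => ?_)
    simp only [Function.comp_apply, id, hn, ← actR_mul, ← Matrix.mul_assoc]
    rw [show (k n)ᴴ * k n = 1 from mem_unitaryGroup_iff'.1 (hk n), Matrix.one_mul]

/-- PROP0, semistable case -/
theorem prop0_ss (hq : Tendsto q U (𝓝 ρ)) (hs : D.SS D.th ρ) (hg : ∀ᶠ n in U, γ n ∈ D.base.P)
    (hσ : Tendsto (fun n => actR (γ n) (q n)) U (𝓝 σ)) :
    ∃ c : ℝ, 0 < c ∧ ∀ᶠ n in U, c ≤ ‖D.ch (γ n)‖ := by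
  obtain ⟨k, k', τ, k0, -, k1, h1, -, -, h2, h3⟩ := prop0_kak U hq hg hσ
  obtain ⟨C, hC⟩ := gap_YJ5 U τ (fun i => D.th (D.col i)) (by exact_mod_cast D.f1_sum_th)
    fun F hF => by exact_mod_cast D.f1_wt_sp _ F ▸ hs.act h1 _ (h3 F hF)
  refine ⟨Real.exp C, Real.exp_pos _, ((hC.and h2).and hg).mono fun n c => ?_⟩
  rw [← Real.le_log_iff_exp_le (norm_pos_iff.2 (ch_ne c.2)), c.1.2.2]
  exact c.1.1

/-- PROP0, stable case -/
theorem prop0_stb (hq : Tendsto q U (𝓝 ρ)) (hs : D.Stb ρ) (hg : ∀ᶠ n in U, γ n ∈ D.base.P)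
    (hσ : Tendsto (fun n => actR (γ n) (q n)) U (𝓝 σ)) {C : ℝ} (hC : ∀ᶠ n in U, ‖D.ch (γ n)‖ ≤ C) :
    ∃ c : κ → ℂ, (∀ n, c n ≠ 0) ∧ ∃ g₀ ∈ D.base.P, Tendsto (fun n => c n • γ n) U (𝓝 g₀) := by
  obtain ⟨k, k', τ, k0, h0, k1, h1, t0, t1, h2, h3⟩ := prop0_kak U hq hg hσ
  have hw : ∑ i, (D.th (D.col i) : ℝ) = 0 := by exact_mod_cast D.f1_sum_th
  have key : ∀ i j, ∃ M, ∀ᶠ n in U, τ n j - τ n i ≤ M := fun i j => by
    have e : ∑ l, ((D.th (D.col l) : ℝ) + Pi.single (M := fun _ => ℝ) i 1 l -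
        Pi.single (M := fun _ => ℝ) j 1 l) = 0 := by
      simp [Finset.sum_add_distrib, hw]
    obtain ⟨C', h4⟩ := gap_YJ5 U τ _ e fun F hF => by
      rcases F.eq_empty_or_nonempty with rfl | ⟨l, hl⟩
      · simp
      rcases Fᶜ.eq_empty_or_nonempty with c | c
      · rw [(Finset.compl_eq_empty_iff F).1 c, e]
      have h5 := (hs.act h1).2 _ (h3 F hF) (fun d => by
        rw [← sp_empty, sp_inj] at d
        exact d.subset hl) (f1_sp_ne_top c)
      rw [f1_wt_sp] at h5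
      have h6 : ∑ l ∈ F, (D.th (D.col l) : ℝ) ≤ -1 := by exact_mod_cast Int.le_sub_one_of_lt h5
      simp only [Finset.sum_add_distrib, Finset.sum_sub_distrib, Finset.sum_pi_single']
      split_ifs <;> linarith
    refine ⟨Real.log C - C', (((h4.and h2).and hg).and hC).mono fun n c => ?_⟩
    have h5 := Real.log_le_log (norm_pos_iff.2 (ch_ne c.1.2)) c.2
    have h6 := c.1.1.1
    simp only [sub_mul, add_mul, Finset.sum_add_distrib, Finset.sum_sub_distrib, Pi.single_apply,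
      ite_mul, one_mul, zero_mul, Finset.sum_ite_eq', Finset.mem_univ, if_true] at h6
    linarith [c.1.1.2.2]
  obtain ⟨i⟩ := hs.1
  have h4 : ∀ j, ∃ x, Tendsto (fun n => τ n j - τ n i) U (𝓝 x) := fun j => by
    obtain ⟨M, a⟩ := key i j
    obtain ⟨M', b⟩ := key j i
    exact ((isCompact_Icc (a := -M') (b := M)).ultrafilter_le_nhds' (U.map _)
      (Filter.mem_map.2 ((a.and b).mono fun n c => ⟨by linarith [c.2], c.1⟩))).imp fun _ c => c.2
  choose x hx using h4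
  refine ⟨fun n => (Real.exp (-τ n i) : ℝ), fun n => Complex.ofReal_ne_zero.2 (Real.exp_pos _).ne',
    k0 * diagonal (fun j => (Real.exp (x j) : ℂ)) * k1, D.base.e4_P_mul (D.base.e4_P_mul h0
      (D.base.f1_diag fun i => by exact_mod_cast (Real.exp_pos _).ne')) h1, ?_⟩
  have hc : Continuous fun τ : I → ℝ => diagonal fun i => (Real.exp (τ i) : ℂ) :=
    Continuous.matrix_diagonal (by fun_prop)
  refine (f1_tendsto_mul (f1_tendsto_mul t0 ((hc.tendsto x).comp (tendsto_pi_nhds.2 hx)))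
    t1).congr' (h2.mono fun n hn => ?_)
  beta_reduce
  rw [hn.1, ← Matrix.smul_mul, ← Matrix.mul_smul, ← diagonal_smul]
  refine congrArg (fun d => k n * diagonal d * k' n) (funext fun j => ?_)
  simp only [Pi.smul_apply, smul_eq_mul, ← Complex.ofReal_mul, ← Real.exp_add, neg_add_eq_sub]

theorem O0_zc (a : ℕ) (ρ : Rp I) : ZC (closure (D.O0 a ρ)) := by
  classical
  let u : (I × I ⊕ I × I → ℂ) → Matrix I I ℂ := fun x => of fun i j => x (.inl (i, j))
  let v : (I × I ⊕ I × I → ℂ) → Matrix I I ℂ := fun x => of fun i j => x (.inr (i, j))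
  have hu : ∀ i j, IsPoly id fun x => u x i j := fun i j => IsPoly.coord (c := id) _
  have hv : ∀ i j, IsPoly id fun x => v x i j := fun i j => IsPoly.coord (c := id) _
  obtain ⟨F, hF, hF'⟩ := D.ch_poly
  have hG : ∀ t, IsPoly id fun x => yf3c (m := 0)
      ((fun b => u x * ρ b * v x, u x * (0 : Matrix I (Fin 0) ℂ)), F (u x, v x) ^ a) t := by
    rintro (_ | ⟨b, i, j⟩ | ⟨i, r⟩)
    · exact (hF.comp (g := fun x => (u x, v x)) (by rintro (t | t); exacts [hu _ _, hv _ _])).pow a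
    · exact IsPoly.mmul (A := fun x => u x * ρ b) (B := v)
        (IsPoly.mmul (B := fun _ => ρ b) hu fun _ _ => IsPoly.const _) hv i j
    · exact r.elim0
  choose G hG using hG
  have hV := yf3_zc (F := fun (k : I × I ⊕ I × I) x => k.elim
    (fun k => if D.base.gp k.1 k.2 then 0 else u x k.1 k.2)
      fun k => (u x * v x) k.1 k.2 - (1 : Matrix I I ℂ) k.1 k.2) (by
    rintro (k | k)
    exacts [IsPoly.ite _ (IsPoly.const 0) (hu _ _), (IsPoly.mmul hu hv _ _).sub (IsPoly.const _)])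
  refine (congrArg ZC (congrArg closure (Set.ext fun w => ⟨?_, ?_⟩))).mp (img_zc hV 1 G)
  · rintro ⟨x, ⟨hx, -⟩, rfl⟩
    have h1 : u x * v x = 1 := Matrix.ext fun i j => sub_eq_zero.1 (hx (.inr (i, j)))
    have h2 : u x ∈ D.base.P := ⟨fun i j hij => (if_neg hij).symm.trans (hx (.inl (i, j))),
      isUnit_det_of_right_inverse h1⟩
    refine ⟨u x, h2, funext fun t => (hG t x).symm.trans ?_⟩
    beta_reduce
    rw [← inv_eq_right_inv h1, hF' _ h2]
    rfl
  · rintro ⟨g, hg, rfl⟩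
    refine ⟨Sum.elim (fun k => g k.1 k.2) fun k => g⁻¹ k.1 k.2, ⟨?_, by simp⟩,
      funext fun t => (hG t _).symm.trans ?_⟩
    · rintro (k | k)
      · exact ite_eq_left_iff.2 (hg.1 _ _)
      · exact sub_eq_zero.2 (congrFun₂ (mul_nonsing_inv g hg.2) _ _)
    · rw [← hF' g hg]
      rfl

theorem O0_seq {a : ℕ} {w : Option (Co I 0) → ℂ} (hw : w ∈ closure (D.O0 a ρ)) :
    ∃ (U : Ultrafilter (Option (Co I 0) → ℂ)) (γ : (Option (Co I 0) → ℂ) → Matrix I I ℂ),
      (∀ᶠ n in U, γ n ∈ D.base.P) ∧ Tendsto (fun n => actR (γ n) ρ) U (𝓝 (yf3d w).1.1) ∧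
        Tendsto (fun n => D.ch (γ n) ^ a) U (𝓝 (w none)) := by
  obtain ⟨U, hU, h⟩ := mem_closure_iff_ultrafilter.1 hw
  have hU' : ∀ᶠ z : Option (Co I 0) → ℂ in U, ∃ g, g ∈ D.base.P ∧
    z = yf3c (act g (ρ, 0), D.ch g ^ a) := hU
  obtain ⟨g, hg⟩ := hU'.choice
  have c1 : Continuous fun z : Option (Co I 0) → ℂ => (yf3d z).1.1 :=
    continuous_pi fun b => continuous_matrix fun i j => continuous_apply _
  exact ⟨U, g, hg.mono fun _ e => e.1,
    ((c1.tendsto w).mono_left h).congr' (hg.mono fun z e => congrArg (fun z => (yf3d z).1.1) e.2),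
    (((continuous_apply none).tendsto w).mono_left h).congr' (hg.mono fun z e => congrFun e.2 none)⟩

theorem O0_ss {a : ℕ} (hs : D.SS D.th ρ) {w : Option (Co I 0) → ℂ}
    (hw : w ∈ closure (D.O0 a ρ)) : w none ≠ 0 := by
  obtain ⟨U, g, h1, h2, h3⟩ := O0_seq hw
  obtain ⟨c, hc, h4⟩ := prop0_ss U tendsto_const_nhds hs h1 h2
  exact norm_pos_iff.1 ((pow_pos hc a).trans_le (ge_of_tendsto h3.norm (h4.mono fun n e => by
    rw [norm_pow]
    exact pow_le_pow_left₀ hc.le e a)))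

theorem O0_closed {a : ℕ} (ha : 0 < a) (hs : D.Stb ρ) : IsClosed (D.O0 a ρ) := by
  refine closure_subset_iff_isClosed.1 fun w hw => ?_
  obtain ⟨U, g, h1, h2, h3⟩ := O0_seq hw
  obtain ⟨c, hc, g0, h0, h4⟩ := prop0_stb U tendsto_const_nhds hs h1 h2 (C := ‖w none‖ + 1)
    ((h3.norm.eventually (gt_mem_nhds (lt_add_one _))).mono fun n e => by
      rw [norm_pow] at e
      rcases le_total ‖D.ch (g n)‖ 1 with c | c
      · linarith [norm_nonneg (w none)]
      · exact (le_self_pow₀ c ha.ne').trans e.le)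
  have e1 := tendsto_nhds_unique h2 ((tendsto_actR h0.2 h4 tendsto_const_nhds).congr'
    (h1.mono fun n e => actR_smul (hc n) e.2 ρ))
  have e2 := tendsto_nhds_unique h3 ((((ch_cont h0).tendsto.comp h4).pow a).congr fun n => by
    rw [Function.comp_apply, ch_smul (hc n)])
  refine ⟨g0, h0, (yf3_cd w).symm.trans (congrArg yf3c (Prod.ext (Prod.ext e1 ?_) e2))⟩
  exact Matrix.ext fun _ r => r.elim0

/-- the triples that are not stable form an algebraic set -/
theorem NS_zc [Nonempty I] :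
    ZC {x : Co I 0 → ℂ | ((coL I 0).symm x).1 ∈ D.base.R ∧ ¬ D.Stb ((coL I 0).symm x).1} := by
  classical
  let E : Dat I := { D.base with m := 1 }
  let e := Fintype.equivFin I
  let φ : (Co I 0 ⊕ Fin (Fintype.card I) → ℂ) → Pt I 1 := fun x =>
    (fun a => of fun i j => x (.inl (.inl (a, i, j))), of fun i _ => x (.inr (e i)))
  have hφ : ∀ t, IsPoly id fun x => co (φ x) t := by
    rintro (⟨a, i, j⟩ | ⟨i, r⟩) <;> exact IsPoly.coord (c := id) _
  obtain ⟨k, -, hk⟩ := Th_smul (D := E)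
  obtain ⟨V, h1, h2⟩ := proj0 (yf3_zc fun k => (Th_poly (D := E) k).comp hφ) isOpen_univ
    fun u _ w c _ _ h l => (congrFun (hk c (φ (Sum.elim u w))) l).trans (mul_eq_zero_of_right _ (h l))
  have h3 := yf3_zc (F := fun (k : Fin 3 × I × I) (x : Co I 0 → ℂ) =>
    if D.base.ap k.1 k.2.1 k.2.2 then 0 else x (.inl k)) fun k =>
      IsPoly.ite _ (IsPoly.const 0) (IsPoly.coord (c := id) _)
  refine (congrArg ZC (Set.ext fun x => ?_)).mp (h3.inter h1)
  have h4 : x ∈ {x : Co I 0 → ℂ | ∀ k : Fin 3 × I × I,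
      (if D.base.ap k.1 k.2.1 k.2.2 then 0 else x (.inl k)) = 0} ↔
        ((coL I 0).symm x).1 ∈ D.base.R := ⟨fun h a i j c => (if_neg c).symm.trans (h (a, i, j)),
    fun h k => ite_eq_left_iff.2 (h _ _ _)⟩
  rw [Set.mem_inter_iff, h4, h2 x trivial]
  refine and_congr_right fun hR => ⟨fun ⟨w, h0, h⟩ hs => Th_ne (D := E) (p := φ (Sum.elim x w))
    (st_iff.2 ⟨hR, hs.ss, (Stb.gen_iff (D := E) hs).2 fun c => h0 (funext fun l => ?_)⟩)
      (funext h), fun hs => ?_⟩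
  · simpa [φ] using congrFun₂ c (e.symm l) 0
  · obtain ⟨U, a1, a2, a3, a4⟩ : ∃ U, D.Sub ((coL I 0).symm x).1 U ∧ U ≠ ⊥ ∧ U ≠ ⊤ ∧
        ¬ D.wt D.th U < 0 := by
      by_contra c
      exact hs ⟨inferInstance, fun U a b d => by_contra fun f => c ⟨U, a, b, d, f⟩⟩
    obtain ⟨v, hv, h0⟩ := (Submodule.ne_bot_iff U).1 a2
    refine ⟨v ∘ e.symm, fun c => h0 (funext fun i => by simpa using congrFun c (e i)), fun l => ?_⟩
    refine congrFun (by_contra fun c => a4 ((st_of_Th (D := E) (p := φ (Sum.elim x (v ∘ e.symm)))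
      hR c).gen U a1 (fun r => ?_) a3)) l
    simpa [φ] using hv

/-- stability is an open condition -/
theorem stb_ev (hs : D.Stb ρ) : ∀ᶠ q in 𝓝 ρ, q ∈ D.base.R → D.Stb q := by
  have := hs.1
  have c : Continuous fun q : Rp I => co ((q, 0) : Pt I 0) :=
    continuous_co.comp (continuous_id.prodMk continuous_const)
  exact Eventually.mono (((NS_zc (D := D)).isClosed.preimage c).isOpen_compl.mem_nhds
    fun e => e.2 hs) fun q e hq => by_contra fun d => e ⟨hq, d⟩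

end Dat

end Pool.Agent.CS
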