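import Pool.Agent.P.MP_d34769_ag.YF3

/-! Semi-invariants and covariants of a linear action with a character, in abstract form. -/

open Matrix MvPolynomial
open Pool.Agent.PWV (ZC pm)

noncomputable section
namespace Pool.Agent.CS

/-- disjoint closed sets are separated by a polynomial -/
theorem zc_sep {σ : Type} [Finite σ] {V W : Set (σ → ℂ)} (hV : ZC V) (hW : ZC W)
    (h : Disjoint V W) : ∃ P : MvPolynomial σ ℂ,
      (∀ x ∈ V, eval x P = 1) ∧ ∀ x ∈ W, eval x P = 0 := by
  obtain ⟨S, rfl⟩ := hV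
  obtain ⟨T, rfl⟩ := hW
  have top : Ideal.span S ⊔ Ideal.span T = ⊤ := by
    by_contra hne
    obtain ⟨m, hm, hle⟩ := Ideal.exists_le_maximal _ hne
    obtain ⟨x, rfl⟩ := isMaximal_iff_eq_vanishingIdeal_singleton.1 hm
    have h0 : ∀ p ∈ Ideal.span S ⊔ Ideal.span T, eval x p = 0 := fun p hp => by
      simpa using (mem_vanishingIdeal_singleton_iff x p).1 (hle hp)
    exact Set.disjoint_left.1 h (fun f hf => h0 f (Ideal.mem_sup_left (Ideal.subset_span hf)))
      fun f hf => h0 f (Ideal.mem_sup_right (Ideal.subset_span hf))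
  obtain ⟨p, hp, q, hq, e⟩ := Submodule.mem_sup.1 ((Ideal.eq_top_iff_one _).1 top)
  refine ⟨q, fun z hz => ?_, fun z hz =>
    Ideal.span_le.2 (fun f hf => (RingHom.mem_ker (f := eval z)).2 (hz f hf)) hq⟩
  have h1 : eval z p = 0 :=
    Ideal.span_le.2 (fun f hf => (RingHom.mem_ker (f := eval z)).2 (hz f hf)) hp
  simpa [h1] using congrArg (eval z) e

section gen
variable {σ : Type} [Fintype σ] [DecidableEq σ]

/-- coordinates with one more variable -/
def oc (q : σ → ℂ) (t : ℂ) : Option σ → ℂ := fun x => x.elim t q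

/-- the direct sum of a scalar and a matrix -/
def oA (A : Matrix σ σ ℂ) (c : ℂ) : Matrix (Option σ) (Option σ) ℂ :=
  fun x y => match x, y with
    | none, none => c
    | some x, some y => A x y
    | _, _ => 0

omit [Fintype σ] [DecidableEq σ] in
theorem oc_eta (w : Option σ → ℂ) : oc (fun x => w (some x)) (w none) = w := by
  funext x
  rcases x with _ | x <;> rfl

omit [DecidableEq σ] in
theorem oA_oc (A : Matrix σ σ ℂ) (c t : ℂ) (q : σ → ℂ) :
    oA A c *ᵥ oc q t = oc (A *ᵥ q) (c * t) := by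
  funext x
  rcases x with _ | x <;> simp [mulVec, dotProduct, oA, oc, Fintype.sum_option]

omit [Fintype σ] [DecidableEq σ] in
theorem oA_star (A : Matrix σ σ ℂ) (c : ℂ) : (oA A c)ᴴ = oA Aᴴ (star c) := by
  ext x y
  rcases x with _ | x <;> rcases y with _ | y <;> simp [oA]

omit [Fintype σ] [DecidableEq σ] in
theorem oc_exp {F : (Option σ → ℂ) → ℂ} (hF : IsPoly id F) :
    ∃ P : Polynomial (MvPolynomial σ ℂ), ∀ q t, F (oc q t) = (P.map (eval q)).eval t := by
  obtain ⟨P, hP⟩ := hF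
  exact ⟨_, fun q t => (hP _).trans (optionEquivLeft_elim_eval ℂ _ q t P)⟩

variable {Γ : Type} {A : Γ → Matrix σ σ ℂ} {c : Γ → ℂ}

/-- `Z` is invariant under the action and its adjoint -/
def OInv (A : Γ → Matrix σ σ ℂ) (c : Γ → ℂ) (Z : Set (Option σ → ℂ)) : Prop :=
  ∀ g, ∀ z ∈ Z, oA (A g) (c g) *ᵥ z ∈ Z ∧ (oA (A g) (c g))ᴴ *ᵥ z ∈ Z

/-- SSI: a semi-invariant that separates -/
theorem ssi_gen {V W : Set (Option σ → ℂ)} (hV : ZC V) (hW : ZC W) (h : Disjoint V W)
    (iV : OInv A c V) (iW : OInv A c W) {x : σ → ℂ} (hx : oc x 1 ∈ V) (h0 : oc x 0 ∈ W) :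
    ∃ (n : ℕ) (s : (σ → ℂ) → ℂ), 0 < n ∧ IsPoly id s ∧ s x ≠ 0 ∧
      (∀ g q, c g ^ n * s (A g *ᵥ q) = s q) ∧ ∀ q, (∀ t, oc q t ∈ W) → s q = 0 := by
  obtain ⟨P, p1, p0⟩ := zc_sep hV hW h
  obtain ⟨F, a1, a2, a3⟩ := rey (τ := Unit) (V ∪ W) (F := fun z _ => eval z P)
    fun _ => IsPoly.ev (c := id) P
  obtain ⟨Q, hQ⟩ := oc_exp (a1 ())
  have e1 : (Q.map (eval x)).eval 1 = 1 := by
    rw [← hQ, a2 _ (Or.inl hx)]; exact p1 _ hx
  have e0 : ∀ q t, oc q t ∈ W → (Q.map (eval q)).eval t = 0 := fun q t hq => by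
    rw [← hQ, a2 _ (Or.inr hq)]; exact p0 _ hq
  obtain ⟨n, hn⟩ : ∃ n, (Q.map (eval x)).coeff n ≠ 0 := by
    by_contra hc
    rw [show Q.map (eval x) = 0 from Polynomial.ext fun n =>
      by_contra fun e => hc ⟨n, e⟩, Polynomial.eval_zero] at e1
    exact zero_ne_one e1
  obtain ⟨n, hn0, hn⟩ : ∃ n, 0 < n ∧ (Q.map (eval x)).coeff n ≠ 0 := by
    by_contra hc
    have e2 : Q.map (eval x) = 0 := Polynomial.ext fun k => by
      rcases Nat.eq_zero_or_pos k with rfl | hk
      · rw [Polynomial.coeff_zero_eq_eval_zero]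
        exact e0 x 0 h0
      · exact by_contra fun e => hc ⟨k, hk, e⟩
    rw [e2] at hn
    exact hn rfl
  refine ⟨n, fun q => eval q (Q.coeff n), hn0, IsPoly.ev (c := id) _,
    by rwa [Polynomial.coeff_map] at hn, fun g q => ?_, fun q hq => ?_⟩
  · have e3 := a3 (oA (A g) (c g)) 1
      (fun z hz => hz.imp (fun hz => (iV g z hz).1) fun hz => (iW g z hz).1)
      (fun z hz => hz.imp (fun hz => (iV g z hz).2) fun hz => (iW g z hz).2)
      (fun z hz => by
        rw [one_mulVec]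
        funext u
        rcases hz with hz | hz
        · rw [p1 _ hz, p1 _ (iV g z hz).1]
        · rw [p0 _ hz, p0 _ (iW g z hz).1])
    have := yf3_coef (κ := Unit) (k := 1) (c := c g) (B := fun _ => 1)
      (p := Q.map (eval (A g *ᵥ q))) (q := fun _ => Q.map (eval q))
      (fun t => by
        have e4 := congrFun (e3 (oc q t)) ()
        rw [one_mulVec, oA_oc, hQ, hQ] at e4
        simpa using e4) n
    simpa using this
  · have e2 : Q.map (eval q) = 0 := Polynomial.funext fun t => by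
      rw [e0 q t (hq t), Polynomial.eval_zero]
    have := congrArg (·.coeff n) e2
    simpa using this

/-- COV: a covariant with a prescribed value -/
theorem cov_gen {τ : Type} [Fintype τ] {B : Γ → Matrix τ τ ℂ} {Z : Set (Option σ → ℂ)}
    (iZ : OInv A c Z) {F : (Option σ → ℂ) → τ → ℂ} (hF : ∀ t, IsPoly id fun z => F z t)
    (hB : ∀ g, ∀ z ∈ Z, F (oA (A g) (c g) *ᵥ z) = B g *ᵥ F z) {x : σ → ℂ} (hx : oc x 1 ∈ Z)
    {s : (σ → ℂ) → ℂ} (s1 : IsPoly id s) (s2 : s x ≠ 0) (s3 : ∀ g q, c g * s (A g *ᵥ q) = s q) :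
    ∃ d₀ : ℕ, ∀ d, d₀ ≤ d → ∃ l : (σ → ℂ) → τ → ℂ, (∀ t, IsPoly id fun q => l q t) ∧
      l x = F (oc x 1) ∧ ∀ g q, c g ^ d • l (A g *ᵥ q) = B g *ᵥ l q := by
  obtain ⟨F', a1, a2, a3⟩ := rey Z hF
  choose P hP using fun t => oc_exp (a1 t)
  obtain ⟨d₀, hd⟩ : ∃ d, ∀ k : τ, (P k).natDegree ≤ d :=
    ⟨_, fun k => Finset.le_sup (f := fun k : τ => (P k).natDegree) (Finset.mem_univ k)⟩
  refine ⟨d₀, fun d hdd => ⟨fun q k => ∑ n ∈ Finset.range (d + 1),
    ((s x)⁻¹ * s q) ^ (d - n) * eval q ((P k).coeff n),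
    fun k => IsPoly.sum (Finset.range (d + 1)) fun n _ =>
      (((IsPoly.const (s x)⁻¹).mul s1).pow (d - n)).mul (IsPoly.ev (c := id) ((P k).coeff n)),
    ?_, fun g q => ?_⟩⟩
  · funext k
    rw [← a2 _ hx, hP, Polynomial.eval_eq_sum_range' (Nat.lt_succ_of_le
      (Polynomial.natDegree_map_le.trans ((hd k).trans hdd)))]
    simp [inv_mul_cancel₀ s2]
  · funext i
    have e3 := a3 (oA (A g) (c g)) (B g) (fun z hz => (iZ g z hz).1) (fun z hz => (iZ g z hz).2)
      (hB g)
    simp only [Pi.smul_apply, smul_eq_mul, mulVec, dotProduct, Finset.mul_sum]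
    rw [Finset.sum_comm]
    refine Finset.sum_congr rfl fun n hn => ?_
    have := yf3_coef (k := 1) (B := B g i) (q := fun k => (P k).map (eval q))
      (p := (P i).map (eval (A g *ᵥ q))) (c := c g) (fun t => by
        have e4 := congrFun (e3 (oc q t)) i
        rw [oA_oc, hP] at e4
        simpa only [hP, one_mul, mulVec, dotProduct] using e4) n
    simp only [Polynomial.coeff_map, one_mul] at this
    obtain ⟨e, he⟩ := Nat.exists_eq_add_of_le (Nat.lt_succ_iff.1 (Finset.mem_range.1 hn))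
    simp only [mul_left_comm (B g i _), ← Finset.mul_sum, ← this, ← s3 g q, he,
      Nat.add_sub_cancel_left]
    ring

end gen

/-- a map of matrix algebras that intertwines left multiplications is a right multiplication -/
theorem cov_uniq {I κ : Type} [Fintype I] [DecidableEq I] {x x' : κ → Matrix I I ℂ}
    {g : Matrix I I ℂ} (hg : IsUnit g.det)
    (hs : ∀ M : Matrix I I ℂ, (∀ k, M * x k = x' k * M) → ∃ c : ℂ, M = c • g)
    (Φ : Matrix I I ℂ →ₗ[ℂ] Matrix I I ℂ) (h : ∀ k y, Φ (x k * y) = x' k * Φ y) (h1 : Φ 1 = 0) :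
    Φ = 0 := by
  have key : ∀ j l, ∃ c : ℂ, (Matrix.of fun i k => Φ (Matrix.single k l 1) i j) = c • g := by
    intro j l
    refine hs _ fun k => ?_
    ext i m
    have e1 : x k * Matrix.single m l (1 : ℂ) = ∑ a, x k a m • Matrix.single a l (1 : ℂ) := by
      ext b c
      simp only [Matrix.mul_apply, Matrix.sum_apply, Matrix.smul_apply, Matrix.single_apply,
        smul_eq_mul]
      by_cases hc : l = c
      · simp [hc]
      · simp [hc]
    have e2 := congrFun (congrFun (h k (Matrix.single m l 1)) i) j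
    rw [e1, map_sum] at e2
    simp only [map_smul, Matrix.sum_apply, Matrix.smul_apply, smul_eq_mul] at e2
    simp only [Matrix.mul_apply, Matrix.of_apply] at e2 ⊢
    rw [← e2]
    exact Finset.sum_congr rfl fun j _ => mul_comm _ _
  choose c hc using key
  have e : ∀ k l i j, Φ (Matrix.single k l 1) i j = g i k * c j l := fun k l i j => by
    have := congrFun (congrFun (hc j l) i) k
    simpa [mul_comm] using this
  have e1 : g * (Matrix.of fun l j => c j l) = 0 := by
    ext i j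
    have := congrFun (congrFun h1 i) j
    rw [← Matrix.sum_single_one, map_sum] at this
    simpa [Matrix.sum_apply, e, Matrix.mul_apply] using this
  have e2 : (Matrix.of fun l j => c j l) = 0 := by
    rw [← nonsing_inv_mul_cancel_left g (Matrix.of fun l j => c j l) hg, e1, Matrix.mul_zero]
  refine Matrix.ext_linearMap ℂ fun k l => LinearMap.ext_ring ?_
  ext i j
  have := congrFun (congrFun e2 l) j
  simp only [Matrix.of_apply, Matrix.zero_apply] at this
  simp [e, this]

end Pool.Agent.CS
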