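import Pool.Agent.P.MP_d34769_ag.YJ5
import Pool.Agent.P.MP_d34769_ag.YJ6b

/-! Semi-invariants that do not vanish at a semistable or stable triple. -/

open Matrix MvPolynomial Filter Topology
open Pool.Agent.PWV (ZC pm)

set_option linter.unusedSectionVars false

noncomputable section
namespace Pool.Agent.CS

variable {I : Type} [Fintype I] [DecidableEq I]

/-- the matrix of the action on the coordinates -/
def yj6A (m : ℕ) (g : Matrix I I ℂ) : Matrix (Co I m) (Co I m) ℂ :=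
  fun x y => yf3A m g 0 (some x) (some y)

theorem yj6_oA (m : ℕ) (g : Matrix I I ℂ) (c : ℂ) : oA (yj6A m g) c = yf3A m g c := by
  ext x y
  rcases x with _ | x | x <;> rcases y with _ | y | y <;> rfl

theorem yj6_oc {m : ℕ} (q : Pt I m) (t : ℂ) : oc (co q) t = yf3c (q, t) := rfl

theorem yj6A_co {m : ℕ} (g : Matrix I I ℂ) (q : Pt I m) : yj6A m g *ᵥ co q = co (act g q) := by
  have h := oA_oc (yj6A m g) 0 0 (co q)
  rw [yj6_oA, yj6_oc, yf3_A] at h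
  exact funext fun x => (congrFun h (some x)).symm

theorem yj6_closure {σ Γ : Type} [Fintype σ] {A : Γ → Matrix σ σ ℂ} {c : Γ → ℂ}
    {Z : Set (Option σ → ℂ)} (h : OInv A c Z) : OInv A c (closure Z) := fun g _ hz =>
  ⟨map_mem_closure (f := fun z => oA (A g) (c g) *ᵥ z)
      (continuous_const.matrix_mulVec continuous_id) hz fun w hw => (h g w hw).1,
    map_mem_closure (f := fun z => (oA (A g) (c g))ᴴ *ᵥ z)
      (continuous_const.matrix_mulVec continuous_id) hz fun w hw => (h g w hw).2⟩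

namespace Dat
variable {D : Dat I} {ρ : Rp I}

/-- a set that is invariant under the group is invariant under the adjoint action -/
theorem oinv_of {m a : ℕ} {Z : Set (Option (Co I m) → ℂ)}
    (h : ∀ g ∈ D.base.P, ∀ q t, yf3c (q, t) ∈ Z → yf3c (act g q, D.ch g ^ a * t) ∈ Z) :
    OInv (fun g : D.base.P => yj6A m g.1) (fun g => D.ch g.1 ^ a) Z := by
  have k : ∀ g ∈ D.base.P, ∀ z ∈ Z, yf3A m g (D.ch g ^ a) *ᵥ z ∈ Z := fun g hg z hz => by
    rw [← yf3_cd z] at hz ⊢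
    exact (yf3_A g _ _ _).symm ▸ h g hg _ _ hz
  intro g z hz
  beta_reduce
  rw [yj6_oA, yf3_As, star_pow, ← ch_star g.2]
  exact ⟨k _ g.2 z hz, k _ (star_mem_P g.2) z hz⟩

theorem O0_inv (a : ℕ) (ρ : Rp I) :
    OInv (fun g : D.base.P => yj6A 0 g.1) (fun g => D.ch g.1 ^ a) (D.O0 a ρ) := by
  refine oinv_of ?_
  rintro g hg q t ⟨k, hk, e⟩
  have e1 : (q, t) = (act k (ρ, 0), D.ch k ^ a) := congrArg yf3d e
  obtain ⟨rfl, rfl⟩ := Prod.mk.inj e1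
  exact ⟨g * k, mul_mem_P hg hk, by rw [act_mul, ch_mul hg, mul_pow]⟩

theorem O0_one (a : ℕ) (ρ : Rp I) : oc (co ((ρ, 0) : Pt I 0)) 1 ∈ D.O0 a ρ :=
  ⟨1, D.base.one_mem_P, by rw [act_one, ch_one, one_pow]; rfl⟩

theorem ssi_aux (hs : D.SS D.th ρ) {N : Set (Pt I 0)} (hN : ZC (co '' N))
    (iN : ∀ g ∈ D.base.P, ∀ q ∈ N, act g q ∈ N)
    (dN : ∀ w ∈ closure (D.O0 1 ρ), (yf3d w).1 ∉ N) :
    ∃ (a : ℕ) (s : Pt I 0 → ℂ), 0 < a ∧ IsPoly co s ∧ s (ρ, 0) ≠ 0 ∧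
      (∀ g ∈ D.base.P, ∀ q, D.ch g ^ a * s (act g q) = s q) ∧ ∀ q ∈ N, s q = 0 := by
  have inj : Function.Injective (co : Pt I 0 → _) := (coL I 0).injective
  have hW : ZC ({w : Option (Co I 0) → ℂ | eval w (X none) = 0} ∪
      {w | (fun i => eval w (X (some i))) ∈ co '' N}) :=
    (PWV.zc_zero _).union (hN.preimage fun i => X (some i))
  have mW : ∀ q t, yf3c (q, t) ∈ ({w : Option (Co I 0) → ℂ | eval w (X none) = 0} ∪
      {w | (fun i => eval w (X (some i))) ∈ co '' N}) ↔ t = 0 ∨ q ∈ N := fun q t => by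
    simp only [Set.mem_union, Set.mem_ofPred_eq, eval_X]
    exact or_congr Iff.rfl (inj.mem_set_image (a := q))
  obtain ⟨n, s, h0, h1, h2, h3, h4⟩ := ssi_gen (O0_zc (D := D) 1 ρ) hW
    (Set.disjoint_left.2 fun w hw e => by
      rw [← yf3_cd w] at e
      rcases (mW _ _).1 e with e | e
      exacts [O0_ss hs hw e, dN w hw e])
    (yj6_closure (O0_inv 1 ρ))
    (oinv_of fun g hg q t e => (mW _ _).2 (((mW _ _).1 e).imp (fun c => by rw [c, mul_zero])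
      (iN g hg q)))
    (subset_closure (O0_one 1 ρ)) ((mW _ _).2 (Or.inl rfl))
  refine ⟨n, fun q => s (co q), h0, h1.comp (g := co) fun t => IsPoly.coord t, h2,
    fun g hg q => ?_, fun q hq => h4 _ fun t => (mW _ _).2 (Or.inr hq)⟩
  have := h3 ⟨g, hg⟩ (co q)
  rwa [yj6A_co, pow_one] at this

/-- SSI, semistable case -/
theorem ssi_pt (hs : D.SS D.th ρ) : ∃ (a : ℕ) (s : Pt I 0 → ℂ), 0 < a ∧ IsPoly co s ∧
    s (ρ, 0) ≠ 0 ∧ ∀ g ∈ D.base.P, ∀ q, D.ch g ^ a * s (act g q) = s q := by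
  obtain ⟨a, s, h0, h1, h2, h3, -⟩ := ssi_aux hs (N := ∅)
    (by rw [Set.image_empty]; exact PWV.zc_empty) (fun _ _ _ h => h.elim) fun _ _ h => h
  exact ⟨a, s, h0, h1, h2, h3⟩

/-- SSI, stable case -/
theorem ssi_stb (hs : D.Stb ρ) : ∃ (a : ℕ) (s : Pt I 0 → ℂ), 0 < a ∧ IsPoly co s ∧
    s (ρ, 0) ≠ 0 ∧ (∀ g ∈ D.base.P, ∀ q, D.ch g ^ a * s (act g q) = s q) ∧
      ∀ q : Pt I 0, q.1 ∈ D.base.R → ¬ D.Stb q.1 → s q = 0 := by
  have := hs.1
  obtain ⟨a, s, h0, h1, h2, h3, h4⟩ := ssi_aux hs.ss (N := {q | q.1 ∈ D.base.R ∧ ¬ D.Stb q.1})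
    (by
      refine (congrArg ZC (Set.ext fun x => ⟨fun h => ?_, ?_⟩)).mp (NS_zc (D := D))
      · exact ⟨(coL I 0).symm x, h, (coL I 0).apply_symm_apply x⟩
      · rintro ⟨q, h, rfl⟩
        exact h)
    (fun g hg q h => ⟨actR_mem hg h.1, fun c => h.2 (by
      have := c.act (inv_mem_P hg)
      rwa [show (act g q).1 = actR g q.1 from rfl, actR_inv hg.2] at this)⟩)
    (fun w hw h => by
      rw [(O0_closed one_pos hs).closure_eq] at hw
      obtain ⟨g, hg, rfl⟩ := hw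
      exact h.2 (hs.act hg))
  exact ⟨a, s, h0, h1, h2, h3, fun q a b => h4 q ⟨a, b⟩⟩

theorem si_of {a : ℕ} {s : Pt I 0 → ℂ} (h1 : IsPoly co s)
    (h3 : ∀ g ∈ D.base.P, ∀ q, D.ch g ^ a * s (act g q) = s q) : D.SI a fun σ => s (σ, 0) :=
  ⟨(h1.imp fun _ h σ => h (σ, 0) :), fun g hg σ => by rw [← act0, h3 g hg]⟩

theorem ssi (h : D.SS D.th ρ) : ∃ a s, 0 < a ∧ D.SI a s ∧ s ρ ≠ 0 := by
  obtain ⟨a, s, h0, h1, h2, h3⟩ := ssi_pt h
  exact ⟨a, _, h0, si_of h1 h3, h2⟩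

theorem sti (hρ : ρ ∈ D.SR) :
    ∃ a s, 0 < a ∧ D.SI a s ∧ s ρ ≠ 0 ∧ ∀ σ ∈ D.base.R, s σ ≠ 0 → D.Stb σ := by
  obtain ⟨a, s, h0, h1, h2, h3, h4⟩ := ssi_stb hρ.2
  exact ⟨a, _, h0, si_of h1 h3, h2, fun σ a b => by_contra fun c => b (h4 (σ, 0) a c)⟩

end Dat

end Pool.Agent.CS
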