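import Pool.Agent.P.MP_d34769_ag.YJ5a

/-! Covariants with values in the endomorphisms. -/

open Matrix MvPolynomial Filter Topology
open scoped Kronecker
open Pool.Agent.PWV (ZC pm)
open Pool.Agent.PW.L (lproj_vec)

set_option linter.unusedSectionVars false

noncomputable section
namespace Pool.Agent.CS

variable {I : Type} [Fintype I] [DecidableEq I]

theorem yj5c_kron (a b X : Matrix I I ℂ) :
    (a ⊗ₖ bᵀ) *ᵥ lproj_vec X = lproj_vec (a * X * b) := by
  ext ⟨i, j⟩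
  simp only [lproj_vec, mulVec, dotProduct, Fintype.sum_prod_type, Matrix.mul_apply,
    kroneckerMap_apply, transpose_apply, LinearEquiv.coe_mk, LinearMap.coe_mk, AddHom.coe_mk,
    Finset.sum_mul]
  rw [Finset.sum_comm]
  exact Finset.sum_congr rfl fun _ _ => Finset.sum_congr rfl fun _ _ => mul_right_comm _ _ _

/-- a slice of a family of matrices -/
def yj5cT (x : I × I) : ((I × I) × I × I → ℂ) →ₗ[ℂ] Matrix I I ℂ where
  toFun h := of fun i s => h (x, i, s)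
  map_add' _ _ := rfl
  map_smul' _ _ := rfl

/-- the entries of the conjugation by `k` -/
def yj5cG (k : Matrix I I ℂ) (x : (I × I) × I × I) : ℂ := k⁻¹ x.1.1 x.1.2 * k x.2.1 x.2.2

theorem yj5c_TG (k : Matrix I I ℂ) (x : I × I) : yj5cT x (yj5cG k) = k⁻¹ x.1 x.2 • k := rfl

theorem yj5c_single (k : Matrix I I ℂ) (r : I × I) :
    (fun y : I × I => yj5cG k ((r.2, y.2), y.1, r.1)) =
      lproj_vec (k * single r.1 r.2 1 * k⁻¹) := by
  ext ⟨i, j⟩
  simp [lproj_vec, yj5cG, Matrix.mul_apply, single_apply, ite_and, mul_comm]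

namespace Dat
variable {D : Dat I} {ρ : Rp I}

open Classical in
/-- the equations for the conjugation by an element of the group -/
def yj5cL (D : Dat I) (ρ σ : Rp I) :
    ((I × I) × I × I → ℂ) →ₗ[ℂ] ((I × I) × (Fin 3 × I × I ⊕ I × I)) ⊕ I × I → ℂ where
  toFun h := Sum.elim (fun x => x.2.elim
    (fun y => (yj5cT x.1 h * ρ y.1 - σ y.1 * yj5cT x.1 h) y.2.1 y.2.2)
      fun k => if D.base.gp k.1 k.2 then 0 else h (x.1, k)) fun k => ∑ s, h ((s, k.2), k.1, s)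
  map_add' h k := by
    funext x
    rcases x with ⟨x, y | y⟩ | x
    · simp only [map_add, Matrix.add_mul, Matrix.mul_add, Sum.elim_inl, Pi.add_apply,
        Matrix.sub_apply, Matrix.add_apply]
      ring
    · simp [ite_add_ite]
    · simp [Finset.sum_add_distrib]
  map_smul' c h := by
    funext x
    rcases x with ⟨x, y | y⟩ | x <;> simp [mul_sub, Finset.mul_sum]

theorem yj5c_inj (hs : D.Stb ρ) {k : Matrix I I ℂ} (hk : k ∈ D.base.P)
    {h : (I × I) × I × I → ℂ} (e : D.yj5cL ρ (actR k ρ) h = 0) : h = 0 := by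
  have h1 : ∀ x, ∃ c : ℂ, yj5cT x h = c • k := fun x => by
    obtain ⟨c, hc⟩ := hs.scalar (h := k⁻¹ * yj5cT x h) (mul_mem_Lie (inv_mem_Lie hk.1)
      fun i j hij => (if_neg hij).symm.trans (congrFun e (.inl (x, .inr (i, j))))) fun a => by
        have : yj5cT x h * ρ a = k * ρ a * k⁻¹ * yj5cT x h := Matrix.ext fun i j =>
          sub_eq_zero.1 (congrFun e (.inl (x, .inl (a, i, j))))
        rw [Matrix.mul_assoc, this]
        simp only [Matrix.mul_assoc, nonsing_inv_mul_cancel_left _ _ hk.2]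
    exact ⟨c, by rw [← mul_nonsing_inv_cancel_left k (yj5cT x h) hk.2, hc]; simp⟩
  choose c hc using h1
  have h2 : ∀ x i s, h (x, i, s) = c x * k i s := fun x i s => congrFun₂ (hc x) i s
  have h3 : k * (of fun s j => c (s, j)) = 0 := Matrix.ext fun i j => by
    have : ∑ s, h ((s, j), i, s) = 0 := congrFun e (.inr (i, j))
    simpa [h2, Matrix.mul_apply, mul_comm] using this
  have h4 : (of fun s j => c (s, j)) = 0 := by
    rw [← nonsing_inv_mul_cancel_left k (of fun s j => c (s, j)) hk.2, h3, Matrix.mul_zero]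
  funext ⟨x, i, s⟩
  rw [h2, show c x = 0 from congrFun₂ h4 x.1 x.2, zero_mul]
  rfl

theorem yj5c_sol {k : Matrix I I ℂ} (hk : k ∈ D.base.P) : D.yj5cL ρ (actR k ρ) (yj5cG k) =
    Sum.elim (fun _ => 0) fun y => (1 : Matrix I I ℂ) y.1 y.2 := by
  classical
  funext x
  rcases x with ⟨x, ⟨a, i, j⟩ | y⟩ | x
  · refine sub_eq_zero.2 (congrFun₂ (?_ : yj5cT x (yj5cG k) * ρ a =
      actR k ρ a * yj5cT x (yj5cG k)) i j)
    rw [yj5c_TG, Matrix.smul_mul, Matrix.mul_smul, (actR_eq_iff hk.2).1 rfl a]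
  · exact ite_eq_left_iff.2 fun c => by simp [yj5cG, hk.1 _ _ c]
  · rw [← mul_nonsing_inv k hk.2]
    exact Finset.sum_congr rfl fun s _ => mul_comm _ _

theorem cov_t {a : ℕ} (ha : 0 < a) (h : D.Stb ρ) (r : I × I) :
    ∃ L : Pt I 0 × ℂ → Matrix I I ℂ, (∀ i j, IsPoly yf3c fun z => L z i j) ∧
      L ((ρ, 0), 1) = single r.1 r.2 1 ∧ ∀ g ∈ D.base.P, ∀ q t,
        L (act g q, D.ch g ^ a * t) = g * L (q, t) * g⁻¹ := by
  classical
  have hZ : ZC (D.O0 a ρ) := (O0_closed ha h).closure_eq ▸ O0_zc a ρ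
  choose! γ γ1 γ2 using fun w (hw : w ∈ D.O0 a ρ) => hw
  have hq : ∀ w ∈ D.O0 a ρ, (yf3d w).1.1 = actR (γ w) ρ := fun w hw =>
    congrArg (fun w => (yf3d w).1.1) (γ2 w hw)
  have cq : ∀ b i j, IsPoly id fun w : Option (Co I 0) → ℂ => (yf3d w).1.1 b i j :=
    fun b i j => IsPoly.coord (c := id) (some (Sum.inl (b, i, j)))
  obtain ⟨Γ, g1, g2⟩ := cram hZ (L := fun w => LinearMap.toMatrix' (D.yj5cL ρ (yf3d w).1.1))
    (b := fun _ => Sum.elim (fun _ => 0) fun y => (1 : Matrix I I ℂ) y.1 y.2)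
    (γ := fun w => yj5cG (γ w)) (by
      rintro (⟨x, ⟨b, i, j⟩ | y⟩ | x) k
      · exact (IsPoly.const _).sub (IsPoly.mmul (B := fun _ => yj5cT x _) (cq b)
          (fun _ _ => IsPoly.const _) i j)
      · exact IsPoly.const _
      · exact IsPoly.const _) (fun _ => IsPoly.const _)
    (fun w hw v hv => yj5c_inj h (γ1 w hw)
      (hq w hw ▸ (LinearMap.toMatrix'_mulVec _ _).symm.trans hv))
    fun w hw => by rw [LinearMap.toMatrix'_mulVec, hq w hw, yj5c_sol (γ1 w hw)]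
  have g3 : ∀ g ∈ D.base.P, Γ (yf3c (act g (ρ, 0), D.ch g ^ a)) = yj5cG g := fun g hg => by
    have a1 : yf3c (act g (ρ, 0), D.ch g ^ a) ∈ D.O0 a ρ := ⟨g, hg, rfl⟩
    have a2 : actR g ρ = actR (γ _) ρ := hq _ a1
    rw [g2 _ a1]
    refine sub_eq_zero.1 (yj5c_inj h hg ?_)
    rw [map_sub, yj5c_sol hg, a2, yj5c_sol (γ1 _ a1), sub_self]
  have mv : ∀ g ∈ D.base.P, ∀ k ∈ D.base.P, yf3A 0 g (D.ch g ^ a) *ᵥ
      yf3c (act k (ρ, 0), D.ch k ^ a) = yf3c (act (g * k) (ρ, 0), D.ch (g * k) ^ a) :=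
    fun g hg k _ => by rw [yf3_A, act_mul, ch_mul hg, mul_pow]
  have m1 : ∀ g ∈ D.base.P, ∀ w ∈ D.O0 a ρ, yf3A 0 g (D.ch g ^ a) *ᵥ w ∈ D.O0 a ρ := by
    rintro g hg _ ⟨k, hk, rfl⟩
    exact ⟨_, mul_mem_P hg hk, mv g hg k hk⟩
  have m2 : ∀ g ∈ D.base.P, ∀ w ∈ D.O0 a ρ, (yf3A 0 g (D.ch g ^ a))ᴴ *ᵥ w ∈ D.O0 a ρ :=
    fun g hg => by
      rw [yf3_As, star_pow, ← ch_star hg]
      exact m1 _ (star_mem_P hg)
  have one : yf3c (m := 0) ((ρ, 0), 1) = yf3c (act 1 (ρ, 0), D.ch 1 ^ a) := by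
    rw [act_one, ch_one, one_pow]
  have one' : yf3c ((ρ, 0), 1) ∈ D.O0 a ρ := ⟨1, D.base.one_mem_P, one⟩
  obtain ⟨Γ', b1, b2, b3⟩ := rey (D.O0 a ρ)
    (F := fun w (y : I × I) => Γ w ((r.2, y.2), y.1, r.1)) fun y => g1 _
  refine ⟨fun z => lproj_vec.symm (Γ' (yf3c z)),
    fun i j => (b1 (i, j)).comp fun t => IsPoly.coord t, ?_, fun g hg q t => ?_⟩
  · beta_reduce
    rw [b2 _ one', one, g3 _ (D.base.one_mem_P), yj5c_single, LinearEquiv.symm_apply_apply,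
      inv_one, Matrix.one_mul, Matrix.mul_one]
  · beta_reduce
    rw [← yf3_A, b3 _ (g ⊗ₖ g⁻¹ᵀ) (m1 g hg) (m2 g hg) ?_, LinearEquiv.symm_apply_eq, ← yj5c_kron,
      LinearEquiv.apply_symm_apply]
    rintro _ ⟨k, hk, rfl⟩
    rw [mv g hg k hk, g3 _ (mul_mem_P hg hk), g3 k hk, yj5c_single, yj5c_single, yj5c_kron,
      Matrix.mul_inv_rev]
    simp only [Matrix.mul_assoc]

/-- COV -/
theorem cov (_hR : ρ ∈ D.base.R) (h : D.Stb ρ) {a : ℕ} (ha : 0 < a) {s : Pt I 0 → ℂ}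
    (s1 : IsPoly co s) (s2 : s (ρ, 0) ≠ 0)
    (s3 : ∀ g ∈ D.base.P, ∀ q, D.ch g ^ a * s (act g q) = s q) :
    ∃ (b : ℕ) (l : I × I → Pt I 0 → Matrix I I ℂ), 0 < b ∧
      (∀ r i j, IsPoly co fun q => l r q i j) ∧ (∀ r, l r (ρ, 0) = single r.1 r.2 1) ∧
      ∀ g ∈ D.base.P, ∀ q r, D.ch g ^ (a * b) • l r (act g q) = g * l r q * g⁻¹ := by
  choose L h1 h2 h3 using cov_t ha h
  choose P hP using fun r i j => yf3_exp (h1 r i j)
  obtain ⟨d, hd⟩ : ∃ d, ∀ k : (I × I) × I × I, (P k.1 k.2.1 k.2.2).natDegree ≤ d :=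
    ⟨_, fun k => Finset.le_sup (f := fun k : (I × I) × I × I => (P k.1 k.2.1 k.2.2).natDegree)
      (Finset.mem_univ k)⟩
  refine ⟨d + 1, fun r q => of fun i j => ∑ n ∈ Finset.range (d + 1),
    ((s (ρ, 0))⁻¹ * s q) ^ (d + 1 - n) * eval (co q) ((P r i j).coeff n), d.succ_pos,
    fun r i j => IsPoly.sum (Finset.range (d + 1)) fun n _ =>
      (((IsPoly.const (s (ρ, 0))⁻¹).mul s1).pow (d + 1 - n)).mul (IsPoly.ev ((P r i j).coeff n)),
    fun r => (Matrix.ext fun i j => ?_).trans (h2 r), fun g hg q r => ?_⟩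
  · rw [hP, Polynomial.eval_eq_sum_range' (Nat.lt_succ_of_le
      (Polynomial.natDegree_map_le.trans (hd (r, i, j))))]
    simp [inv_mul_cancel₀ s2]
  · refine lproj_vec.injective (funext fun ⟨i, j⟩ => ?_)
    rw [← yj5c_kron]
    simp only [lproj_vec, LinearEquiv.coe_mk, LinearMap.coe_mk, AddHom.coe_mk, Matrix.smul_apply,
      of_apply, smul_eq_mul, mulVec, dotProduct, Finset.mul_sum]
    rw [Finset.sum_comm]
    refine Finset.sum_congr rfl fun n hn => ?_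
    have := yf3_coef (k := 1) (B := (g ⊗ₖ g⁻¹ᵀ) (i, j))
      (q := fun k => (P r k.1 k.2).map (eval (co q)))
      (p := (P r i j).map (eval (co (act g q)))) (c := D.ch g ^ a) (fun t => by
        have := congrFun ((congrArg lproj_vec (h3 r g hg q t)).trans (yj5c_kron _ _ _).symm) (i, j)
        simpa only [lproj_vec, LinearEquiv.coe_mk, LinearMap.coe_mk, AddHom.coe_mk, hP, one_mul,
          mulVec, dotProduct] using this) n
    simp only [Polynomial.coeff_map, one_mul] at this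
    obtain ⟨e, he⟩ := Nat.exists_eq_add_of_le (Finset.mem_range.1 hn).le
    simp only [mul_left_comm ((g ⊗ₖ g⁻¹ᵀ) (i, j) _), ← Finset.mul_sum, ← this, ← s3 g hg q, he,
      Nat.add_sub_cancel_left]
    ring

end Dat

end Pool.Agent.CS
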