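import Pool.Agent.P.MP_d34769_ag.YJ5b
import Pool.Agent.P.MP_d34769_ag.YJ5v

/-! Enough covariants without framing. -/

open Matrix

set_option linter.unusedSectionVars false

noncomputable section
namespace Pool.Agent.CS

variable {I : Type} [Fintype I] [DecidableEq I]

namespace Dat
variable {D : Dat I}

theorem exists_cv {ρ : Rp I} (h : ρ ∈ D.SR) {a : ℕ} {s : Rp I → ℂ} (ha : 0 < a) (hs : D.SI a s)
    (h0 : s ρ ≠ 0) : ∃ (b : ℕ) (l : I × I → Rp I → Matrix I I ℂ), 0 < b ∧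
      (∀ r, D.CV (a * b) (l r)) ∧ ∀ r, l r ρ = Matrix.single r.1 r.2 1 := by
  obtain ⟨b, l, h1, h2, h3, h4⟩ := cov h.1 h.2 ha (s := fun q => s q.1)
    (hs.poly.imp fun _ k q => by rw [← cr_fst]; exact k q.1) h0 fun g hg q => hs.act g hg q.1
  exact ⟨b, fun r σ => l r (σ, 0), h1, fun r => ⟨fun i j => (h2 r i j).imp fun _ k σ => k (σ, 0),
    fun g hg σ => by beta_reduce; rw [← act0, h4 g hg]⟩, h3⟩

end Dat

end Pool.Agent.CS
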