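import Mathlib

/-! Traces of words of length at most three in a spanning family of matrices determine the family
up to conjugation; the infinitesimal version. -/

open Matrix

noncomputable section
namespace Pool.Agent.CS

variable {I : Type} [Fintype I] [DecidableEq I] {κ : Type}

lemma yj6_nd {y : Matrix I I ℂ} (h : ∀ z : Matrix I I ℂ, trace (y * z) = 0) : y = 0 := by
  ext i j
  have := h (Matrix.single j i 1)
  rw [Matrix.trace_mul_single] at this
  simpa using this

lemma yj6_nd_span {u : κ → Matrix I I ℂ} (hu : Submodule.span ℂ (Set.range u) = ⊤)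
    {y : Matrix I I ℂ} (h : ∀ r, trace (y * u r) = 0) : y = 0 := by
  refine yj6_nd fun z => ?_
  have hz : z ∈ Submodule.span ℂ (Set.range u) := by rw [hu]; trivial
  induction hz using Submodule.span_induction with
  | mem x hx => obtain ⟨r, rfl⟩ := hx; exact h r
  | zero => simp
  | add a b _ _ ha hb => rw [Matrix.mul_add, trace_add, ha, hb, add_zero]
  | smul c a _ ha => rw [Matrix.mul_smul, trace_smul, ha, smul_zero]

lemma yj6_ext_span {u : κ → Matrix I I ℂ} (hu : Submodule.span ℂ (Set.range u) = ⊤)
    {y y' : Matrix I I ℂ} (h : ∀ r, trace (y * u r) = trace (y' * u r)) : y = y' := by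
  refine sub_eq_zero.1 (yj6_nd_span hu fun r => ?_)
  rw [Matrix.sub_mul, trace_sub, h r, sub_self]

/-- a linear map with prescribed values on a spanning family -/
lemma yj6_lin {V W : Type} [AddCommGroup V] [Module ℂ V] [AddCommGroup W] [Module ℂ W]
    {u : κ → V} (hu : Submodule.span ℂ (Set.range u) = ⊤) (w : κ → W)
    (h : ∀ c : κ →₀ ℂ, Finsupp.linearCombination ℂ u c = 0 → Finsupp.linearCombination ℂ w c = 0) :
    ∃ T : V →ₗ[ℂ] W, ∀ r, T (u r) = w r := by
  have hs : Function.Surjective (Finsupp.linearCombination ℂ u) := by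
    rw [← LinearMap.range_eq_top, Finsupp.range_linearCombination, hu]
  obtain ⟨s, hs'⟩ := (Finsupp.linearCombination ℂ u).exists_rightInverse_of_surjective
    (LinearMap.range_eq_top.2 hs)
  refine ⟨(Finsupp.linearCombination ℂ w).comp s, fun r => ?_⟩
  have h1 : Finsupp.linearCombination ℂ u (s (u r) - Finsupp.single r 1) = 0 := by
    have := LinearMap.congr_fun hs' (u r)
    simp only [LinearMap.comp_apply, LinearMap.id_apply] at this
    rw [map_sub, this, Finsupp.linearCombination_single, one_smul, sub_self]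
  have h2 := h _ h1
  rw [map_sub, Finsupp.linearCombination_single, one_smul, sub_eq_zero] at h2
  exact h2

lemma yj6_lc (u : κ → Matrix I I ℂ) (c : κ →₀ ℂ) (z : Matrix I I ℂ) :
    trace (Finsupp.linearCombination ℂ u c * z) = c.sum fun r a => a * trace (u r * z) := by
  rw [Finsupp.linearCombination_apply, Finsupp.sum, Finsupp.sum, Finset.sum_mul, trace_sum]
  refine Finset.sum_congr rfl fun r _ => ?_
  rw [Matrix.smul_mul, trace_smul, smul_eq_mul]

/-- a statement that is bilinear holds everywhere if it holds on a spanning family -/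
lemma yj6_bil {V W : Type} [AddCommGroup V] [Module ℂ V] [AddCommGroup W] [Module ℂ W]
    {u : κ → V} (hu : Submodule.span ℂ (Set.range u) = ⊤) (B C : V →ₗ[ℂ] V →ₗ[ℂ] W)
    (h : ∀ r s, B (u r) (u s) = C (u r) (u s)) (a b : V) : B a b = C a b := by
  have h1 : B = C := by
    refine LinearMap.ext_on_range hu fun r => ?_
    exact LinearMap.ext_on_range hu fun s => h r s
  rw [h1]

/-- equal Gram matrices: the second family spans as well -/
lemma yj6_span {u u' : κ → Matrix I I ℂ} (hu : Submodule.span ℂ (Set.range u) = ⊤)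
    (h2 : ∀ r s, trace (u r * u s) = trace (u' r * u' s)) :
    Submodule.span ℂ (Set.range u') = ⊤ := by
  set P := Submodule.span ℂ (Set.range u') with hP
  let v : κ → P := fun r => ⟨u' r, Submodule.subset_span ⟨r, rfl⟩⟩
  have hv : Submodule.span ℂ (Set.range v) = ⊤ := by
    apply Submodule.map_injective_of_injective P.injective_subtype
    rw [Submodule.map_span, ← Set.range_comp, Submodule.map_top, Submodule.range_subtype]
    rfl
  obtain ⟨T, hT⟩ := yj6_lin hv u fun c hc => by
    have h0 : Finsupp.linearCombination ℂ u' c = 0 := by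
      have := congrArg P.subtype hc
      rw [Finsupp.apply_linearCombination, map_zero] at this
      exact this
    refine yj6_nd_span hu fun s => ?_
    rw [yj6_lc]
    simp only [h2]
    rw [← yj6_lc, h0, Matrix.zero_mul, trace_zero]
  have hs : LinearMap.range T = ⊤ := by
    rw [eq_top_iff, ← hu, Submodule.span_le]
    rintro _ ⟨r, rfl⟩
    exact ⟨v r, hT r⟩
  have h1 := LinearMap.finrank_range_le T
  rw [hs, finrank_top] at h1
  exact Submodule.eq_top_of_finrank_eq (le_antisymm (Submodule.finrank_le _) h1)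

/-- Skolem-Noether for a multiplicative injective linear map of a matrix algebra -/
lemma yj6_sn (T : Matrix I I ℂ →ₗ[ℂ] Matrix I I ℂ) (hi : Function.Injective T)
    (hm : ∀ a b, T (a * b) = T a * T b) :
    ∃ g : Matrix I I ℂ, IsUnit g ∧ ∀ x, T x * g = g * x := by
  rcases isEmpty_or_nonempty I with hI | ⟨⟨o⟩⟩
  · exact ⟨1, isUnit_one, fun x => Subsingleton.elim _ _⟩
  have h0 : T (Matrix.single o o 1) ≠ 0 := by
    intro h
    have h1 := hi (h.trans (map_zero T).symm)
    have h2 := congrFun (congrFun h1 o) o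
    simp at h2
  obtain ⟨p, q, hpq⟩ : ∃ p q, T (Matrix.single o o 1) p q ≠ 0 := by
    by_contra h
    push Not at h
    exact h0 (Matrix.ext h)
  let g : Matrix I I ℂ := Matrix.of fun a i => T (Matrix.single i o 1) a q
  have hg : ∀ x, T x * g = g * x := by
    intro x
    ext a i
    have e1 : x * Matrix.single i o (1 : ℂ) = ∑ j, x j i • Matrix.single j o (1 : ℂ) := by
      ext b c
      simp only [Matrix.mul_apply, Matrix.sum_apply, Matrix.smul_apply, Matrix.single_apply,
        smul_eq_mul]
      by_cases hc : o = c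
      · simp [hc]
      · simp [hc]
    have e2 := congrFun (congrFun (hm x (Matrix.single i o 1)) a) q
    rw [e1, map_sum] at e2
    simp only [map_smul, Matrix.sum_apply, Matrix.smul_apply, smul_eq_mul] at e2
    simp only [Matrix.mul_apply, g, Matrix.of_apply] at e2 ⊢
    rw [← e2]
    exact Finset.sum_congr rfl fun j _ => mul_comm _ _
  refine ⟨g, ?_, hg⟩
  rw [← Matrix.mulVec_injective_iff_isUnit]
  intro v w hvw
  by_contra hne
  obtain ⟨i, hi'⟩ : ∃ i, (v - w) i ≠ 0 := by
    by_contra h
    push Not at h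
    exact hne (sub_eq_zero.1 (funext h))
  have e0 : g *ᵥ (v - w) = 0 := by rw [Matrix.mulVec_sub, hvw, sub_self]
  have e1 : (g * Matrix.single o i (1 : ℂ)) *ᵥ (v - w) = 0 := by
    rw [← hg, ← Matrix.mulVec_mulVec, e0, Matrix.mulVec_zero]
  have e2 := congrFun e1 p
  rw [← Matrix.mulVec_mulVec] at e2
  have e3 : Matrix.single o i (1 : ℂ) *ᵥ (v - w) = Pi.single o ((v - w) i) := by
    rw [Matrix.single_mulVec]
    ext b
    by_cases hb : b = o
    · subst hb; simp
    · simp [hb]
  rw [e3, Matrix.mulVec_single] at e2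
  simp only [Pi.smul_apply, Matrix.col_apply, g, Matrix.of_apply, Pi.zero_apply,
    MulOpposite.smul_eq_mul_unop, MulOpposite.unop_op] at e2
  exact mul_ne_zero hpq hi' e2

/-- every derivation of a matrix algebra is inner -/
lemma yj6_inner (δ : Matrix I I ℂ →ₗ[ℂ] Matrix I I ℂ)
    (hm : ∀ a b, δ (a * b) = δ a * b + a * δ b) :
    ∃ h : Matrix I I ℂ, ∀ x, δ x = h * x - x * h := by
  rcases isEmpty_or_nonempty I with hI | ⟨⟨o⟩⟩
  · exact ⟨1, fun x => Subsingleton.elim _ _⟩
  refine ⟨Matrix.of fun a i => δ (Matrix.single i o 1) a o, fun x => ?_⟩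
  ext a i
  have e1 : x * Matrix.single i o (1 : ℂ) = ∑ j, x j i • Matrix.single j o (1 : ℂ) := by
    ext b c
    simp only [Matrix.mul_apply, Matrix.sum_apply, Matrix.smul_apply, Matrix.single_apply,
      smul_eq_mul]
    by_cases hc : o = c
    · simp [hc]
    · simp [hc]
  have e2 := congrFun (congrFun (hm x (Matrix.single i o 1)) a) o
  rw [e1, map_sum] at e2
  simp only [map_smul, Matrix.sum_apply, Matrix.smul_apply, smul_eq_mul, Matrix.add_apply,
    Matrix.mul_single_apply_same, mul_one] at e2
  simp only [Matrix.mul_apply, Matrix.sub_apply, Matrix.of_apply] at e2 ⊢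
  rw [eq_sub_iff_add_eq, ← e2]
  exact Finset.sum_congr rfl fun j _ => mul_comm _ _

/-- INJ: equal traces of words of length two and three -/
theorem conj_of_tr {u u' : κ → Matrix I I ℂ} (hu : Submodule.span ℂ (Set.range u) = ⊤)
    (h2 : ∀ r s, trace (u r * u s) = trace (u' r * u' s))
    (h3 : ∀ r s t, trace (u r * u s * u t) = trace (u' r * u' s * u' t)) :
    ∃ g : Matrix I I ℂ, IsUnit g ∧ (∀ r, u' r * g = g * u r) ∧
      ∀ x x', (∀ r, trace (u r * x) = trace (u' r * x')) → x' * g = g * x := by
  have hu' := yj6_span hu h2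
  obtain ⟨T, hT⟩ := yj6_lin hu u' fun c hc => by
    refine yj6_nd_span hu' fun s => ?_
    rw [yj6_lc]
    simp only [← h2]
    rw [← yj6_lc, hc, Matrix.zero_mul, trace_zero]
  have hB : ∀ a b, trace (T a * T b) = trace (a * b) := by
    intro a b
    exact yj6_bil hu
      (((LinearMap.mul ℂ (Matrix I I ℂ)).compl₁₂ T T).compr₂ (Matrix.traceLinearMap I ℂ ℂ))
      ((LinearMap.mul ℂ (Matrix I I ℂ)).compr₂ (Matrix.traceLinearMap I ℂ ℂ))
      (fun r s => by simp [hT, h2]) a b
  have hm : ∀ a b, T (a * b) = T a * T b := by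
    intro a b
    refine yj6_bil hu ((LinearMap.mul ℂ (Matrix I I ℂ)).compr₂ T)
      ((LinearMap.mul ℂ (Matrix I I ℂ)).compl₁₂ T T) (fun r s => ?_) a b
    simp only [LinearMap.compr₂_apply, LinearMap.mul_apply', LinearMap.compl₁₂_apply, hT]
    refine yj6_ext_span hu' fun t => ?_
    rw [← h3, ← hT t, hB]
  have hi : Function.Injective T := by
    rw [injective_iff_map_eq_zero]
    intro a ha
    refine yj6_nd fun z => ?_
    rw [← hB, ha, Matrix.zero_mul, trace_zero]
  obtain ⟨g, hg, hc⟩ := yj6_sn T hi hm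
  refine ⟨g, hg, fun r => by rw [← hT, hc], fun x x' hx => ?_⟩
  have : x' = T x := by
    refine yj6_ext_span hu' fun r => ?_
    rw [trace_mul_comm, ← hx, ← hT, hB, trace_mul_comm]
  rw [this, hc]

/-- IMM: the derivatives of the traces of words of length two and three vanish -/
theorem inner_of_tr {u w : κ → Matrix I I ℂ} (hu : Submodule.span ℂ (Set.range u) = ⊤)
    (h2 : ∀ r s, trace (w r * u s) + trace (u r * w s) = 0)
    (h3 : ∀ r s t, trace (w r * u s * u t) + trace (u r * w s * u t) + trace (u r * u s * w t) = 0) :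
    ∃ h : Matrix I I ℂ, (∀ r, w r = h * u r - u r * h) ∧
      ∀ x y, (∀ r, trace (w r * x) + trace (u r * y) = 0) → y = h * x - x * h := by
  obtain ⟨T, hT⟩ := yj6_lin hu w fun c hc => by
    refine yj6_nd_span hu fun s => ?_
    rw [yj6_lc]
    have e : ∀ r, trace (w r * u s) = trace (u r * (-w s)) := fun r => by
      rw [Matrix.mul_neg, trace_neg, eq_neg_iff_add_eq_zero, h2]
    simp only [e]
    rw [← yj6_lc, hc, Matrix.zero_mul, trace_zero]
  have hB : ∀ a b, trace (T a * b) = -trace (a * T b) := by
    intro a b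
    exact yj6_bil hu
      (((LinearMap.mul ℂ (Matrix I I ℂ)).compl₁₂ T LinearMap.id).compr₂
        (Matrix.traceLinearMap I ℂ ℂ))
      (-((LinearMap.mul ℂ (Matrix I I ℂ)).compl₁₂ LinearMap.id T).compr₂
        (Matrix.traceLinearMap I ℂ ℂ))
      (fun r s => by simpa [hT, eq_neg_iff_add_eq_zero] using h2 r s) a b
  have hm : ∀ a b, T (a * b) = T a * b + a * T b := by
    intro a b
    refine yj6_bil hu ((LinearMap.mul ℂ (Matrix I I ℂ)).compr₂ T)
      ((LinearMap.mul ℂ (Matrix I I ℂ)).compl₁₂ T LinearMap.id +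
        (LinearMap.mul ℂ (Matrix I I ℂ)).compl₁₂ LinearMap.id T) (fun r s => ?_) a b
    simp only [LinearMap.compr₂_apply, LinearMap.mul_apply', LinearMap.compl₁₂_apply, hT,
      LinearMap.add_apply, LinearMap.id_apply]
    refine yj6_ext_span hu fun t => ?_
    rw [hB, hT, Matrix.add_mul, trace_add, neg_eq_iff_add_eq_zero, add_comm]
    exact h3 r s t
  obtain ⟨h, hh⟩ := yj6_inner T hm
  refine ⟨h, fun r => by rw [← hT, hh], fun x y hx => ?_⟩
  rw [← hh]
  refine yj6_ext_span hu fun r => ?_
  have e := hB (u r) x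
  rw [hT] at e
  rw [trace_mul_comm, trace_mul_comm (T x)]
  have := hx r
  rw [e] at this
  linear_combination this

lemma yj6_span_smul {L : κ → Matrix I I ℂ} (hL : Submodule.span ℂ (Set.range L) = ⊤) {a : ℂ}
    (ha : a ≠ 0) : Submodule.span ℂ (Set.range fun r => a • L r) = ⊤ := by
  rw [eq_top_iff, ← hL, Submodule.span_le]
  rintro _ ⟨r, rfl⟩
  have : L r = a⁻¹ • (a • L r) := by rw [smul_smul, inv_mul_cancel₀ ha, one_smul]
  rw [this]
  exact Submodule.smul_mem _ _ (Submodule.subset_span ⟨r, rfl⟩)

/-- INJ, homogeneous form: the tuples `(S S S, S tr L L, tr L L L)` are proportional -/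
theorem conj_of_hom {L L' : κ → Matrix I I ℂ} (hL : Submodule.span ℂ (Set.range L) = ⊤)
    {S S' c : ℂ} (hS : S ≠ 0) (hc : c ≠ 0) (h0 : S' * S' * S' = c * (S * S * S))
    (h2 : ∀ r s, S' * trace (L' r * L' s) = c * (S * trace (L r * L s)))
    (h3 : ∀ r s t, trace (L' r * L' s * L' t) = c * trace (L r * L s * L t)) :
    ∃ g : Matrix I I ℂ, IsUnit g ∧
      ∀ x x', (∀ r, S' * S' * trace (L' r * x') = c * (S * S * trace (L r * x))) →
        x' * g = g * x := by
  have hS' : S' ≠ 0 := by
    rintro rfl
    exact mul_ne_zero hc (mul_ne_zero (mul_ne_zero hS hS) hS) (by rw [← h0]; ring)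
  have hcc : c = S' * S' * S' / (S * S * S) := by rw [h0]; field_simp
  obtain ⟨g, hg, -, hx⟩ := conj_of_tr (u' := fun r => S'⁻¹ • L' r)
    (yj6_span_smul hL (inv_ne_zero hS))
    (fun r s => by
      simp only [Matrix.smul_mul, Matrix.mul_smul, trace_smul, smul_eq_mul]
      have := h2 r s
      rw [hcc] at this
      field_simp at this ⊢
      linear_combination -this)
    (fun r s t => by
      simp only [Matrix.smul_mul, Matrix.mul_smul, trace_smul, smul_eq_mul]
      have := h3 r s t
      rw [hcc] at this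
      field_simp at this ⊢
      linear_combination -this)
  refine ⟨g, hg, fun x x' h => hx x x' fun r => ?_⟩
  simp only [Matrix.smul_mul, trace_smul, smul_eq_mul]
  have := h r
  rw [hcc] at this
  field_simp at this ⊢
  linear_combination -this

/-- IMM, homogeneous form: the derivative of the tuple is a multiple of the tuple -/
theorem inner_of_hom {L dL : κ → Matrix I I ℂ} (hL : Submodule.span ℂ (Set.range L) = ⊤)
    {S dS c : ℂ} (hS : S ≠ 0) (h0 : 3 * (S * S * dS) = c * (S * S * S))
    (h2 : ∀ r s, dS * trace (L r * L s) + S * (trace (dL r * L s) + trace (L r * dL s)) =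
      c * (S * trace (L r * L s)))
    (h3 : ∀ r s t, trace (dL r * L s * L t) + trace (L r * dL s * L t) + trace (L r * L s * dL t) =
      c * trace (L r * L s * L t)) :
    ∃ h : Matrix I I ℂ,
      ∀ x y, (∀ r, 2 * (S * dS) * trace (L r * x) + S * S * (trace (dL r * x) + trace (L r * y)) =
        c * (S * S * trace (L r * x))) → y = h * x - x * h := by
  have hcc : c = 3 * dS / S := by
    field_simp
    have : S * S * (c * S - 3 * dS) = 0 := by linear_combination -h0
    have h1 := (mul_eq_zero.1 this).resolve_left (mul_ne_zero hS hS)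
    linear_combination h1
  obtain ⟨h, -, hx⟩ := inner_of_tr (w := fun r => dL r - (dS / S) • L r) hL
    (fun r s => by
      simp only [Matrix.smul_mul, Matrix.mul_smul, trace_smul, smul_eq_mul, Matrix.sub_mul,
        Matrix.mul_sub, trace_sub]
      have := h2 r s
      rw [hcc] at this
      field_simp at this ⊢
      linear_combination this)
    (fun r s t => by
      simp only [Matrix.smul_mul, Matrix.mul_smul, trace_smul, smul_eq_mul, Matrix.sub_mul,
        Matrix.mul_sub, trace_sub]
      have := h3 r s t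
      rw [hcc] at this
      field_simp at this ⊢
      linear_combination this)
  refine ⟨h, fun x y hy => hx x y fun r => ?_⟩
  simp only [Matrix.smul_mul, trace_smul, smul_eq_mul, Matrix.sub_mul, trace_sub]
  have := hy r
  rw [hcc] at this
  field_simp at this ⊢
  linear_combination this

end Pool.Agent.CS
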