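import Pool.Agent.P.MP_d34769_ag.YJ5
import Pool.Agent.P.MP_d34769_ag.YJ6a

/-! The embedding by traces. -/

open Matrix Filter Topology

set_option linter.unusedSectionVars false

noncomputable section
namespace Pool.Agent.CS

variable {I : Type} [Fintype I] [DecidableEq I]

theorem yj7_diff {F : Rp I → ℂ} (h : IsPoly cr F) (ρ v : Rp I) :
    DifferentiableAt ℂ (fun z : ℂ => F (ρ + z • v)) 0 := by
  obtain ⟨P, hP⟩ := h
  simp only [hP]
  clear hP
  induction P using MvPolynomial.induction_on with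
  | C a => simp
  | add p q hp hq => simpa only [map_add] using hp.fun_add hq
  | mul_X p t hp =>
    simp only [map_mul, MvPolynomial.eval_X]
    refine hp.fun_mul ?_
    rcases t with ⟨a, i, j⟩ | ⟨i, r⟩
    · show DifferentiableAt ℂ (fun z : ℂ => ρ a i j + z * v a i j) 0
      fun_prop
    · exact r.elim0

/-- the value and the derivative at zero of a curve of matrices -/
structure Yj7D (f : ℂ → Matrix I I ℂ) (x y : Matrix I I ℂ) : Prop where
  val : f 0 = x
  der : ∀ i j, HasDerivAt (fun z => f z i j) (y i j) 0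

theorem Yj7D.mul {f g : ℂ → Matrix I I ℂ} {x y x' y' : Matrix I I ℂ} (h : Yj7D f x y)
    (k : Yj7D g x' y') : Yj7D (fun z => f z * g z) (x * x') (y * x' + x * y') := by
  refine ⟨by rw [h.1, k.1], fun i j => ?_⟩
  have := HasDerivAt.fun_sum (u := Finset.univ) fun l _ => (h.2 i l).fun_mul (k.2 l j)
  simpa only [Matrix.mul_apply, Matrix.add_apply, h.1, k.1, Finset.sum_add_distrib] using this

theorem Yj7D.tr {f : ℂ → Matrix I I ℂ} {x y : Matrix I I ℂ} (h : Yj7D f x y) :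
    HasDerivAt (fun z => trace (f z)) (trace y) 0 :=
  HasDerivAt.fun_sum (u := Finset.univ) fun l _ => h.2 l l

theorem yj7_tr {A : Rp I → Matrix I I ℂ} (h : ∀ i j, IsPoly cr fun ρ => A ρ i j) :
    IsPoly cr fun ρ => trace (A ρ) := IsPoly.sum Finset.univ fun i _ => h i i

namespace Dat
variable {D : Dat I} {ρ : Rp I}

/-- the arrows and the projections -/
def yj7X (D : Dat I) (ρ : Rp I) : Fin 3 ⊕ I → Matrix I I ℂ :=
  Sum.elim ρ fun i => pr {j | D.cc i j}

theorem yj7_act {g : Matrix I I ℂ} (hg : g ∈ D.base.P) (ρ : Rp I) (x : Fin 3 ⊕ I) :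
    D.yj7X (actR g ρ) x = g * D.yj7X ρ x * g⁻¹ := by
  rcases x with a | i
  · rfl
  · have : g * pr {j | D.cc i j} = pr {j | D.cc i j} * g :=
      (ye2_pr_comm fun a b c => D.mem_base_Lie.1 hg.1 a b fun d =>
        c ⟨fun e => D.cc_eq.trans e d, fun e => D.cc_eq.trans e (D.cc_eq.symm d)⟩).symm
    simp only [yj7X, Sum.elim_inr]
    rw [this, mul_nonsing_inv_cancel_right _ _ hg.2]

theorem yj7_lie {g : Matrix I I ℂ} (h : ∀ i, pr {j | D.cc i j} * g = g * pr {j | D.cc i j}) :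
    g ∈ D.base.Lie := D.mem_base_Lie.2 fun i j c => by
  have := congrFun₂ (h i) i j
  rwa [pr_mul_apply, mul_pr_apply, if_pos (show i ∈ {j | D.cc i j} from D.cc_eq.refl i),
    if_neg (show j ∉ {j | D.cc i j} from c)] at this

/-- the homogeneous coordinates -/
def Uni0.T (u : D.Uni0) (ρ : Rp I) : Fin u.N ⊕ (Fin u.N × Fin u.N × Fin u.N) ⊕
    (Fin u.N × Fin u.N × Fin u.N) ⊕ Fin u.N × Fin u.N × (Fin 3 ⊕ I) → ℂ
  | .inl k => u.S k ρ * u.S k ρ * u.S k ρ
  | .inr (.inl x) => u.S x.1 ρ * trace (u.L x.2.1 ρ * u.L x.2.2 ρ)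
  | .inr (.inr (.inl x)) => trace (u.L x.1 ρ * u.L x.2.1 ρ * u.L x.2.2 ρ)
  | .inr (.inr (.inr x)) => u.S x.1 ρ * u.S x.1 ρ * trace (u.L x.2.1 ρ * D.yj7X ρ x.2.2)

theorem Uni0.T_act (u : D.Uni0) {g : Matrix I I ℂ} (hg : g ∈ D.base.P) (ρ : Rp I) :
    D.ch g ^ (3 * u.A) • u.T (actR g ρ) = u.T ρ := by
  have c0 : D.ch g ^ u.A ≠ 0 := pow_ne_zero _ (ch_ne hg)
  have hS : ∀ k, u.S k (actR g ρ) = (D.ch g ^ u.A)⁻¹ * u.S k ρ := fun k => by
    rw [← (u.si k).act g hg ρ, inv_mul_cancel_left₀ c0]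
  have hL : ∀ k, u.L k (actR g ρ) = (D.ch g ^ u.A)⁻¹ • (g * u.L k ρ * g⁻¹) := fun k => by
    rw [← (u.cv k).act g hg ρ, inv_smul_smul₀ c0]
  have m : ∀ x y : Matrix I I ℂ, g * x * g⁻¹ * (g * y * g⁻¹) = g * (x * y) * g⁻¹ := fun x y => by
    simp only [Matrix.mul_assoc, nonsing_inv_mul_cancel_left _ _ hg.2]
  have t : ∀ x : Matrix I I ℂ, trace (g * x * g⁻¹) = trace x := fun x => by
    rw [trace_mul_cycle, nonsing_inv_mul _ hg.2, Matrix.one_mul]
  funext x
  rw [pow_mul']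
  rcases x with k | x | x | x <;>
    simp only [Pi.smul_apply, Uni0.T, hS, hL, yj7_act hg, Matrix.smul_mul, Matrix.mul_smul, m,
      trace_smul, t, smul_eq_mul] <;>
    field_simp

theorem Uni0.emb (u : D.Uni0) : ∃ (τ : Type) (_ : Finite τ) (A : ℕ) (T : Rp I → τ → ℂ)
    (κ : Set τ), D.Emb0 A T κ := by
  have c3 : ∀ z : ℂ, z * z * z ≠ 0 ↔ z ≠ 0 := fun z => by simp
  refine ⟨_, inferInstance, 3 * u.A, u.T, Sum.inl '' u.κ, ?_, fun g hg ρ => u.T_act hg ρ,
    fun ρ hρ hs e => ?_, fun ρ hρ => (u.stb ρ hρ).trans ⟨?_, ?_⟩, fun ρ hρ σ c hc e => ?_,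
    fun ρ hρ v c e => ?_⟩
  · have hX : ∀ x i j, IsPoly cr fun ρ => D.yj7X ρ x i j := by
      rintro (a | l) i j
      exacts [poly_cr a i j, IsPoly.const _]
    rintro (k | x | x | x)
    · exact ((u.si k).poly.mul (u.si k).poly).mul (u.si k).poly
    · exact (u.si _).poly.mul (yj7_tr (IsPoly.mmul (u.cv _).poly (u.cv _).poly))
    · exact yj7_tr (IsPoly.mmul (A := fun ρ => u.L x.1 ρ * u.L x.2.1 ρ)
        (IsPoly.mmul (u.cv _).poly (u.cv _).poly) (u.cv _).poly)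
    · exact ((u.si _).poly.mul (u.si _).poly).mul (yj7_tr (IsPoly.mmul (u.cv _).poly (hX _)))
  · obtain ⟨k, hk⟩ := u.ss ρ hρ hs
    exact (c3 _).2 hk (congrFun e (.inl k))
  · rintro ⟨k, hk, h⟩
    exact ⟨_, ⟨k, hk, rfl⟩, (c3 _).2 h⟩
  · rintro ⟨_, ⟨k, hk, rfl⟩, h⟩
    exact ⟨k, hk, (c3 _).1 h⟩
  · obtain ⟨k, -, hk⟩ := (u.stb ρ hρ.1).1 hρ.2
    obtain ⟨g, hg, hx⟩ := conj_of_hom (L' := fun r => u.L r σ) (S' := u.S k σ) (u.span ρ hρ) hk hc
      (congrFun e (.inl k)) (fun r s => congrFun e (.inr (.inl (k, r, s))))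
      fun r s t => congrFun e (.inr (.inr (.inl (r, s, t))))
    have h1 : ∀ x, D.yj7X σ x * g = g * D.yj7X ρ x := fun x =>
      hx _ _ fun r => congrFun e (.inr (.inr (.inr (k, r, x))))
    have h2 := (isUnit_iff_isUnit_det g).1 hg
    exact ⟨g, ⟨yj7_lie fun i => h1 (.inr i), h2⟩,
      (actR_eq_iff h2).2 fun a => (h1 (.inl a)).symm⟩
  · obtain ⟨k, -, hk⟩ := (u.stb ρ hρ.1).1 hρ.2
    have z0 : ρ + (0 : ℂ) • v = ρ := by simp
    have hS := (yj7_diff (u.si k).poly ρ v).hasDerivAt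
    generalize deriv (fun z : ℂ => u.S k (ρ + z • v)) 0 = dS at hS
    obtain ⟨dL, hL⟩ : ∃ dL : Fin u.N → Matrix I I ℂ,
        ∀ r, Yj7D (fun z => u.L r (ρ + z • v)) (u.L r ρ) (dL r) :=
      ⟨fun r => of fun i j => deriv (fun z : ℂ => u.L r (ρ + z • v) i j) 0, fun r =>
        ⟨by rw [z0], fun i j => (yj7_diff ((u.cv r).poly i j) ρ v).hasDerivAt⟩⟩
    have hX : ∀ x, Yj7D (fun z => D.yj7X (ρ + z • v) x) (D.yj7X ρ x) (x.elim v 0) := by
      rintro (a | l)
      · refine ⟨by rw [z0], fun i j => ?_⟩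
        show HasDerivAt (fun z : ℂ => ρ a i j + z * v a i j) (v a i j) 0
        exact (hasDerivAt_mul_const _).const_add _
      · exact ⟨rfl, fun i j => hasDerivAt_const _ _⟩
    obtain ⟨h, hx⟩ := inner_of_hom (dL := dL) (dS := dS) (c := c) (u.span ρ hρ) hk
      (by
        have := ((hS.fun_mul hS).fun_mul hS).unique (e (.inl k))
        simp only [z0, Uni0.T] at this
        linear_combination this)
      (fun r s => by
        have := (hS.fun_mul ((hL r).mul (hL s)).tr).unique (e (.inr (.inl (k, r, s))))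
        simp only [z0, Uni0.T, trace_add] at this
        linear_combination this)
      fun r s t => by
        have := (((hL r).mul (hL s)).mul (hL t)).tr.unique (e (.inr (.inr (.inl (r, s, t)))))
        simp only [Uni0.T, trace_add, Matrix.add_mul] at this
        linear_combination this
    have h1 : ∀ x : Fin 3 ⊕ I, x.elim v 0 = h * D.yj7X ρ x - D.yj7X ρ x * h := fun x =>
      hx _ _ fun r => by
        have := ((hS.fun_mul hS).fun_mul ((hL r).mul (hX x)).tr).unique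
          (e (.inr (.inr (.inr (k, r, x)))))
        simp only [z0, Uni0.T, trace_add] at this
        linear_combination this
    exact ⟨h, yj7_lie fun i => (sub_eq_zero.1 (h1 (.inr i)).symm).symm,
      funext fun a => h1 (.inl a)⟩

end Dat

end Pool.Agent.CS
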