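import Pool.Agent.P.MP_d34769_ag.YJ5
import Pool.Agent.P.MP_d34769_ag.YF5

/-! The image of the stable triples is locally closed and carries the quotient topology. -/

open Matrix Filter Topology Set
open Pool.Agent.HT (Amb proj)

set_option linter.unusedSectionVars false

noncomputable section
namespace Pool.Agent.CS

variable {I : Type} [Fintype I] [DecidableEq I]

namespace Dat
variable {D : Dat I} {τ : Type} {A : ℕ} {T : Rp I → τ → ℂ} {κ : Set τ} {ρ : Rp I}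

/-- a compact set of semistable triples that meets every semistable orbit -/
theorem exists_cpt0 (D : Dat I) : ∃ K : Set (Rp I), IsCompact K ∧
    (∀ ρ ∈ K, ρ ∈ D.base.R ∧ D.SS D.th ρ) ∧
      ∀ ρ ∈ D.base.R, D.SS D.th ρ → ∃ g ∈ D.base.P, actR g ρ ∈ K := by
  let E : Dat I := { D.base with m := Fintype.card I }
  refine ⟨Prod.fst '' E.LL, LL_compact.image continuous_fst, ?_, fun ρ h hs => ?_⟩
  · rintro _ ⟨p, hp, rfl⟩
    exact ⟨hp.1, (LL_st hp).ss⟩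
  · obtain ⟨g, hg, k⟩ := exists_LL_base (D := E)
      (p := (ρ, (1 : Matrix I I ℂ).submatrix id (Fintype.equivFin I).symm))
      (st_iff.2 ⟨h, hs, gen_of_surj _ fun v => ⟨v ∘ (Fintype.equivFin I).symm,
        (submatrix_mulVec_equiv _ _ _ _).trans (funext fun i =>
          (congrFun (one_mulVec _) i).trans (congrArg v ((Fintype.equivFin I).symm_apply_apply i)))⟩⟩)
    exact ⟨g, hg, _, k, rfl⟩

theorem Emb0.cont (h : D.Emb0 A T κ) : Continuous T :=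
  continuous_pi fun t => (h.poly t).continuous continuous_cr

theorem Emb0.ne0 (h : D.Emb0 A T κ) (hρ : ρ ∈ D.SR) : T ρ ≠ 0 := h.ss ρ hρ.1 hρ.2.ss

theorem Emb0.lim (h : D.Emb0 A T κ) {ι : Type} (U : Ultrafilter ι) {y : ι → τ → ℂ} {y0 : τ → ℂ}
    (hy : Tendsto y U (𝓝 y0)) (h1 : ∀ᶠ n in U, ∃ ρ ∈ D.SR, ∃ c : ℂ, y n = c • T ρ) :
    ∃ (q : ι → Rp I) (ρ : Rp I) (c : ℂ), Tendsto q U (𝓝 ρ) ∧ ρ ∈ D.base.R ∧ y0 = c • T ρ ∧
      ∀ᶠ n in U, q n ∈ D.SR ∧ ∃ c : ℂ, y n = c • T (q n) := by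
  obtain ⟨K, hK, hs, hm⟩ := D.exists_cpt0
  have h2 : ∀ᶠ n in U, ∃ ρ, ρ ∈ K ∧ ρ ∈ D.SR ∧ ∃ c : ℂ, y n = c • T ρ :=
    h1.mono fun n ⟨ρ, a, c, e⟩ => by
      obtain ⟨g, hg, k⟩ := hm ρ a.1 a.2.ss
      exact ⟨_, k, ⟨(hs _ k).1, a.2.act hg⟩, c * D.ch g ^ A, by rw [e, ← h.act g hg ρ, smul_smul]⟩
  obtain ⟨q, hq⟩ := h2.choice
  obtain ⟨ρ, h3, h4⟩ := hK.ultrafilter_le_nhds' (U.map q) (mem_map.2 (hq.mono fun _ c => c.1))
  obtain ⟨j, hj⟩ := Function.ne_iff.1 (h.ss ρ (hs ρ h3).1 (hs ρ h3).2)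
  have h5 : Tendsto (fun n => T (q n)) U (𝓝 (T ρ)) := (h.cont.tendsto ρ).comp h4
  have h6 := tendsto_pi_nhds.1 h5 j
  refine ⟨q, ρ, y0 j / T ρ j, h4, (hs ρ h3).1, tendsto_nhds_unique hy
    ((((tendsto_pi_nhds.1 hy j).div h6 hj).smul h5).congr' ?_), hq.mono fun _ c => c.2⟩
  filter_upwards [hq, h6.eventually_ne hj] with n ⟨_, _, c, e⟩ k
  simp only [Pi.div_apply, e, Pi.smul_apply, smul_eq_mul, mul_div_cancel_right₀ _ k]

theorem Emb0.cl (h : D.Emb0 A T κ) {y : τ → ℂ}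
    (hy : y ∈ closure {y | ∃ ρ ∈ D.base.R, ∃ c : ℂ, y = c • T ρ}) (hk : ∃ t ∈ κ, y t ≠ 0) :
    ∃ ρ ∈ D.SR, ∃ c : ℂ, y = c • T ρ := by
  obtain ⟨t, ht, h0⟩ := hk
  obtain ⟨U, hU, h1⟩ := mem_closure_iff_ultrafilter.1 hy
  have h2 : ∀ᶠ z : τ → ℂ in U, z t ≠ 0 := h1 ((continuous_apply t).continuousAt.eventually_ne h0)
  obtain ⟨-, ρ, c, -, h3, e, -⟩ := h.lim U (y := id) h1 (by
    filter_upwards [hU, h2] with z ⟨ρ, a, c, e⟩ k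
    exact ⟨ρ, ⟨a, (h.stb ρ a).2 ⟨t, ht, fun d => k (by simp [e, d])⟩⟩, c, e⟩)
  exact ⟨ρ, ⟨h3, (h.stb ρ h3).2 ⟨t, ht, fun d => h0 (by simp [e, d])⟩⟩, c, e⟩

variable {N : ℕ} {T : Rp I → Fin N → ℂ} {κ : Set (Fin N)}

theorem Emb0.proj_act0 (h : D.Emb0 A T κ) {g : Matrix I I ℂ} (hg : g ∈ D.base.P) (ρ : Rp I) :
    proj (T (actR g ρ)) = proj (T ρ) := by
  rw [← h.act g hg ρ, HIR.proj_smul (pow_ne_zero _ (ch_ne hg))]

theorem Emb0.proj_eq (h : D.Emb0 A T κ) (hρ : ρ ∈ D.SR) {σ : Rp I} (hσ : T σ ≠ 0) :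
    proj (T ρ) = proj (T σ) ↔ ∃ g ∈ D.base.P, actR g ρ = σ := by
  refine ⟨fun e => ?_, fun ⟨g, hg, e⟩ => e ▸ (h.proj_act0 hg ρ).symm⟩
  obtain ⟨c, hc, e⟩ := (HIR.proj_eq_iff (h.ne0 hρ) hσ).1 e
  exact h.inj ρ hρ σ c hc e

theorem Emb0.contAt (h : D.Emb0 A T κ) (hρ : ρ ∈ D.SR) : ContinuousAt (fun q => proj (T q)) ρ :=
  (HIR.cont_proj (h.ne0 hρ)).comp h.cont.continuousAt

theorem Emb0.opn (h : D.Emb0 A T κ) (hρ : ρ ∈ D.SR) :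
    𝓝[(fun q => proj (T q)) '' D.SR] proj (T ρ) ≤ map (fun q => proj (T q)) (𝓝[D.SR] ρ) := by
  refine le_iff_ultrafilter.2 fun U hU => ?_
  obtain ⟨j, hj⟩ := Function.ne_iff.1 (h.ne0 hρ)
  have c1 : Continuous fun (x : Amb N) i => x (i, j) := by fun_prop
  obtain ⟨q, σ, c, h1, h2, h3, h4⟩ := h.lim U ((c1.tendsto _).mono_left
    (hU.trans nhdsWithin_le_nhds)) (mem_of_superset (hU self_mem_nhdsWithin) (by
      rintro _ ⟨σ, a, rfl⟩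
      exact ⟨σ, a, _, HIR.proj_col _ j⟩))
  have key : ∀ (w v : Fin N → ℂ) (c : ℂ), proj w (j, j) ≠ 0 → (fun i => proj w (i, j)) = c • v →
      v ≠ 0 ∧ proj v = proj w := fun w v c a e => by
    have b : c * v j ≠ 0 := (congrFun e j).symm.trans_ne a
    have d := (congrFun (HIR.proj_col w j) j).symm.trans_ne a
    refine ⟨fun f => right_ne_zero_of_mul b (congrFun f j), ?_⟩
    rw [← HIR.proj_smul (left_ne_zero_of_mul b), ← e, HIR.proj_col,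
      HIR.proj_smul (left_ne_zero_of_mul d)]
  have h5 : proj (T ρ) (j, j) ≠ 0 := fun e => hj ((HIR.proj_diag (h.ne0 hρ) j).1 e)
  obtain ⟨h6, h7⟩ := key _ _ c h5 h3
  obtain ⟨g, hg, rfl⟩ := (h.proj_eq hρ h6).1 h7.symm
  have hi := D.base.inv_mem_P hg
  have h8 : Tendsto (fun x => actR g⁻¹ (q x)) U (𝓝[D.SR] ρ) := tendsto_nhdsWithin_iff.2
    ⟨by simpa only [actR_inv hg.2] using tendsto_actR hi.2 tendsto_const_nhds h1,
      h4.mono fun x a => ⟨actR_mem hi a.1.1, a.1.2.act hi⟩⟩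
  have c2 : Continuous fun x : Amb N => x (j, j) := by fun_prop
  refine Tendsto.congr' (f₂ := id) ?_ (tendsto_map.comp h8)
  filter_upwards [h4, hU self_mem_nhdsWithin,
    (hU.trans nhdsWithin_le_nhds) (c2.continuousAt.eventually_ne h5)]
  rintro _ ⟨-, c, e⟩ ⟨σ, -, rfl⟩ a
  exact (h.proj_act0 hi _).trans (key _ _ c a e).2

theorem Emb0.eq_iff (h : D.Emb0 A T κ) (hρ : ρ ∈ D.SR) {σ : Rp I} (hσ : σ ∈ D.SR) :
    proj (T ρ) = proj (T σ) ↔ ∃ g ∈ D.base.P, actR g ρ = σ := h.proj_eq hρ (h.ne0 hσ)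

theorem Emb0.nhds_map (h : D.Emb0 A T κ) (hρ : ρ ∈ D.SR) :
    map (fun σ => proj (T σ)) (𝓝[D.SR] ρ) = 𝓝[(fun σ => proj (T σ)) '' D.SR] proj (T ρ) :=
  le_antisymm ((h.contAt hρ).continuousWithinAt.tendsto_nhdsWithin (mapsTo_image _ _)) (h.opn hρ)

end Dat

end Pool.Agent.CS
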