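import Pool.Agent.P.MP_d34769_ag.YJ5
import Pool.Agent.P.MP_d34769_ag.YF5

/-! Slices and charts of the space of stable orbits without framing. -/

open Matrix Filter Topology Set
open Pool.Agent.HT (Amb proj)

set_option linter.unusedSectionVars false

noncomputable section
namespace Pool.Agent.CS

variable {I : Type} [Fintype I] [DecidableEq I]

/-- the infinitesimal action on triples -/
def inf0 (ρ : Rp I) : Matrix I I ℂ →ₗ[ℂ] Rp I where
  toFun u a := u * ρ a - ρ a * u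
  map_add' u v := funext fun a => by simp [Matrix.add_mul, Matrix.mul_add]; abel
  map_smul' c u := funext fun a => by simp [smul_sub]

theorem tendsto_slice0 {e : ℕ} (ρ : Rp I) (L : (Fin e → ℂ) →ₗ[ℂ] Rp I) :
    Tendsto (fun n => ρ + L n) (𝓝 0) (𝓝 ρ) := by
  have hc : Continuous fun n => ρ + L n := continuous_const.add L.continuous_of_finiteDimensional
  have := hc.tendsto 0
  rwa [map_zero, add_zero] at this

theorem an_slice0 {e : ℕ} {F : Rp I → ℂ} (hF : IsPoly cr F) (ρ : Rp I)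
    (L : (Fin e → ℂ) →ₗ[ℂ] Rp I) (z : Fin e → ℂ) : AnalyticAt ℂ (fun n => F (ρ + L n)) z := by
  obtain ⟨P, hP⟩ := hF
  have := an_aff (cr ρ) ((coL I 0).toLinearMap ∘ₗ LinearMap.inl ℂ _ _ ∘ₗ L) P z
  refine this.congr (Eventually.of_forall fun n => ?_)
  beta_reduce
  rw [hP]
  refine congrArg (fun x => MvPolynomial.eval x P) ?_
  show coL I 0 (ρ, 0) + coL I 0 (L n, 0) = coL I 0 (ρ + L n, 0)
  rw [← map_add, Prod.mk_add_mk, add_zero]

namespace Dat
variable (D : Dat I)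

/-- `L` parametrises a complement of the tangent space of the orbit -/
structure Slice0 (ρ : Rp I) (L : (Fin D.dim0 → ℂ) →ₗ[ℂ] Rp I) : Prop where
  mem : ∀ n, L n ∈ D.base.R
  ind : ∀ u ∈ D.base.Lie, ∀ n, inf0 ρ u = L n → n = 0
  span : ∀ q ∈ D.base.R, ∃ u ∈ D.base.Lie, ∃ n, q = inf0 ρ u + L n

variable {D} {ρ : Rp I} {L : (Fin D.dim0 → ℂ) →ₗ[ℂ] Rp I}

theorem yj7c_mem {u v : Matrix I I ℂ} {p q : Rp I} (hu : u ∈ D.Lie) (hv : v ∈ D.Lie)
    (hp : p ∈ D.R) (hq : q ∈ D.R) : (fun a => u * p a - q a * v) ∈ D.R := by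
  have h1 := D.R.sub_mem (mul_mem_R hu D.one_mem_Lie hp) (mul_mem_R D.one_mem_Lie hv hq)
  simp only [Matrix.mul_one, Matrix.one_mul] at h1
  exact h1

/-- the infinitesimal action with values in the space of representations -/
def infR (hρ : ρ ∈ D.base.R) : D.base.Lie →ₗ[ℂ] D.base.R :=
  ((inf0 ρ).domRestrict D.base.Lie).codRestrict D.base.R fun u => yj7c_mem u.2 u.2 hρ hρ

theorem infR_ker (hρ : ρ ∈ D.SR) : Module.finrank ℂ (LinearMap.ker (infR hρ.1)) = 1 := by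
  have hne := hρ.2.1
  have e : LinearMap.ker (infR hρ.1) =
      Submodule.span ℂ {(⟨1, D.base.one_mem_Lie⟩ : D.base.Lie)} := by
    refine le_antisymm (fun u hu => ?_) ((Submodule.span_singleton_le_iff_mem _ _).2
      (Subtype.ext (funext fun a => ?_)))
    · obtain ⟨c, hc⟩ := hρ.2.scalar u.2 fun a =>
        sub_eq_zero.1 (congrFun (congrArg Subtype.val hu) a)
      exact Submodule.mem_span_singleton.2 ⟨c, Subtype.ext hc.symm⟩
    · show 1 * ρ a - ρ a * 1 = 0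
      simp
  rw [e]
  exact finrank_span_singleton fun c => one_ne_zero (congrArg Subtype.val c)

theorem dim0_range (hρ : ρ ∈ D.SR) :
    Module.finrank ℂ (LinearMap.range (infR hρ.1)) + D.dim0 = Module.finrank ℂ D.base.R := by
  have h1 := LinearMap.finrank_range_add_finrank_ker (infR hρ.1)
  have h2 := Submodule.finrank_le (LinearMap.range (infR hρ.1))
  rw [infR_ker hρ] at h1
  unfold dim0
  omega

theorem dim0_add (hρ : ρ ∈ D.SR) :
    D.dim0 + Module.finrank ℂ D.base.Lie = Module.finrank ℂ D.base.R + 1 := by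
  have h1 := LinearMap.finrank_range_add_finrank_ker (infR hρ.1)
  have h2 := dim0_range hρ
  rw [infR_ker hρ] at h1
  omega

theorem exists_slice0 (hρ : ρ ∈ D.SR) : ∃ L, D.Slice0 ρ L := by
  obtain ⟨C, hC⟩ := (LinearMap.range (infR hρ.1)).exists_isCompl
  have h1 := Submodule.finrank_add_eq_of_isCompl hC
  rw [← dim0_range hρ] at h1
  have : Module.Free ℂ C := Module.Free.of_divisionRing ℂ C
  have e : (Fin D.dim0 → ℂ) ≃ₗ[ℂ] C := LinearEquiv.ofFinrankEq _ _ (by simp; omega)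
  refine ⟨D.base.R.subtype ∘ₗ C.subtype ∘ₗ e.toLinearMap, fun n => (e n).1.2, fun u hu n h => ?_,
    fun q hq => ?_⟩
  · have h2 : (e n).1 = 0 := (Submodule.disjoint_def.1 hC.disjoint) _
      ⟨⟨u, hu⟩, Subtype.ext h⟩ (e n).2
    exact e.injective (by rw [map_zero]; exact Subtype.ext h2)
  · obtain ⟨_, ⟨u, rfl⟩, z, hz, h⟩ := Submodule.mem_sup.1
      (hC.sup_eq_top.ge (Submodule.mem_top (x := (⟨q, hq⟩ : D.base.R))))
    refine ⟨u, u.2, e.symm ⟨z, hz⟩, ?_⟩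
    show q = inf0 ρ u + (e (e.symm ⟨z, hz⟩)).1.1
    rw [e.apply_symm_apply]
    exact (congrArg Subtype.val h).symm

theorem Slice0.ev (h : D.Slice0 ρ L) (hρ : ρ ∈ D.SR) : ∀ᶠ n in 𝓝 0, ρ + L n ∈ D.SR :=
  ((tendsto_slice0 ρ L).eventually (stb_ev hρ.2)).mono fun n c =>
    ⟨D.base.R.add_mem hρ.1 (h.mem n), c (D.base.R.add_mem hρ.1 (h.mem n))⟩

/-- the quadratic part of the equation of a slice -/
def Slice0.quad (h : D.Slice0 ρ L) : (D.base.Lie × (Fin D.dim0 → ℂ) × D.base.R) →ₗ[ℂ]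
    (D.base.Lie × (Fin D.dim0 → ℂ) × D.base.R) →ₗ[ℂ] D.base.R × D.base.R :=
  LinearMap.mk₂ ℂ (fun x y => (⟨fun a => x.1.1 * y.2.2.1 a - L x.2.1 a * y.1.1,
      yj7c_mem x.1.2 y.1.2 y.2.2.2 (h.mem x.2.1)⟩, 0))
    (fun x x' y => Prod.ext (Subtype.ext (funext fun a => by
      simp [Matrix.add_mul]; abel)) (by simp))
    (fun c x y => Prod.ext (Subtype.ext (funext fun a => by simp [smul_sub])) (by simp))
    (fun x y y' => Prod.ext (Subtype.ext (funext fun a => by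
      simp [Matrix.mul_add]; abel)) (by simp))
    (fun c x y => Prod.ext (Subtype.ext (funext fun a => by simp [smul_sub])) (by simp))

/-- near a stable triple every triple is conjugate to a point of the slice -/
theorem Slice0.near (h : D.Slice0 ρ L) (hρ : ρ ∈ D.base.R) {p : (Fin D.dim0 → ℂ) → Prop}
    (hp : ∀ᶠ n in 𝓝 0, p n) :
    ∀ᶠ q in 𝓝 ρ, q ∈ D.base.R → ∃ g ∈ D.base.P, ∃ n, p n ∧ actR g q = ρ + L n := by
  obtain ⟨Λ, hΛ⟩ : ∃ Λ : (D.base.Lie × (Fin D.dim0 → ℂ) × D.base.R) →ₗ[ℂ] D.base.R × D.base.R,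
      ∀ x, Λ x = (infR hρ x.1 - L.codRestrict D.base.R h.mem x.2.1 + x.2.2, x.2.2) :=
    ⟨LinearMap.prod ((infR hρ) ∘ₗ LinearMap.fst _ _ _ -
      L.codRestrict D.base.R h.mem ∘ₗ LinearMap.fst _ _ _ ∘ₗ LinearMap.snd _ _ _ +
        LinearMap.snd _ _ _ ∘ₗ LinearMap.snd _ _ _) (LinearMap.snd _ _ _ ∘ₗ LinearMap.snd _ _ _),
      fun _ => rfl⟩
  have hs : Function.Surjective Λ := fun y => by
    obtain ⟨u, hu, n, e⟩ := h.span _ (y.1 - y.2).2
    refine ⟨(⟨u, hu⟩, -n, y.2), ?_⟩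
    rw [hΛ, map_neg, sub_neg_eq_add]
    exact Prod.ext (eq_sub_iff_add_eq.1 (Subtype.ext e.symm)) rfl
  have h1 : ∀ᶠ x : D.base.Lie × (Fin D.dim0 → ℂ) × D.base.R in 𝓝 0, (1 + x.1.1).det ≠ 0 ∧
      p x.2.1 := by
    have ht : Tendsto (fun x : D.base.Lie × (Fin D.dim0 → ℂ) × D.base.R => x.2.1) (𝓝 0) (𝓝 0) :=
      (continuous_fst.comp continuous_snd).tendsto 0
    refine Eventually.and ?_ (ht.eventually hp)
    have hc : Continuous fun x : D.base.Lie × (Fin D.dim0 → ℂ) × D.base.R => (1 + x.1.1).det :=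
      (continuous_const.add (continuous_subtype_val.comp continuous_fst)).matrix_det
    exact hc.continuousAt.eventually_ne (by simp)
  have h2 := image_mem_map (m := fun x => Λ x + h.quad x x) h1
  rw [open_quad Λ hs h.quad] at h2
  have h3 : Tendsto (fun y : D.base.R => ((0 : D.base.R), y)) (𝓝 0) (𝓝 0) :=
    (continuous_const.prodMk continuous_id).tendsto 0
  obtain ⟨T, hT, h4⟩ := (mem_nhds_subtype _ _ _).1 (h3 h2)
  have h5 : Tendsto (fun q : Rp I => q - ρ) (𝓝 ρ) (𝓝 0) := by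
    have hc : Continuous fun q : Rp I => q - ρ := continuous_id.sub continuous_const
    have := hc.tendsto ρ
    rwa [sub_self] at this
  refine mem_of_superset (h5 hT) fun q hq hq' => ?_
  obtain ⟨x, ⟨hx1, hx2⟩, e⟩ := h4 (a := ⟨q - ρ, D.base.R.sub_mem hq' hρ⟩) hq
  have hg : 1 + x.1.1 ∈ D.base.P :=
    ⟨D.base.Lie.add_mem D.base.one_mem_Lie x.1.2, isUnit_iff_ne_zero.2 hx1⟩
  beta_reduce at e
  rw [hΛ] at e
  have e2 : x.2.2.1 = q - ρ := by
    have := congrArg (fun z : D.base.R × D.base.R => z.2.1) e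
    simpa [Slice0.quad] using this
  have e1 : inf0 ρ x.1.1 - L x.2.1 + x.2.2.1 +
      (fun a => x.1.1 * x.2.2.1 a - L x.2.1 a * x.1.1) = 0 :=
    congrArg (fun z : D.base.R × D.base.R => z.1.1) e
  rw [e2] at e1
  refine ⟨_, hg, _, hx2, (actR_eq_iff hg.2).2 fun a => ?_⟩
  have e4 : x.1.1 * ρ a - ρ a * x.1.1 - L x.2.1 a + (q a - ρ a) +
      (x.1.1 * (q a - ρ a) - L x.2.1 a * x.1.1) = 0 := congrFun e1 a
  show (1 + x.1.1) * q a = (ρ a + L x.2.1 a) * (1 + x.1.1)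
  rw [← sub_eq_zero, ← e4]
  noncomm_ring

theorem Slice0.map_eq (h : D.Slice0 ρ L) (hρ : ρ ∈ D.SR) {Y : Type} {F : Rp I → Y}
    (hF : ∀ g ∈ D.base.P, ∀ q, F (actR g q) = F q) :
    map (fun n => F (ρ + L n)) (𝓝 0) = map F (𝓝[D.SR] ρ) := by
  refine le_antisymm (tendsto_map.comp (tendsto_nhdsWithin_iff.2 ⟨tendsto_slice0 ρ L, h.ev hρ⟩))
    fun S hS => ?_
  refine mem_map.2 (mem_of_superset (inter_mem (nhdsWithin_le_nhds
    (h.near hρ.1 (p := fun n => F (ρ + L n) ∈ S) hS)) self_mem_nhdsWithin) fun q hq => ?_)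
  obtain ⟨g, hg, n, hn, e⟩ := hq.1 hq.2.1
  show F q ∈ S
  rwa [← hF g hg q, e]

variable {N A : ℕ} {T : Rp I → Fin N → ℂ} {κ : Set (Fin N)}

theorem Emb0.proj_act (h : D.Emb0 A T κ) {g : Matrix I I ℂ} (hg : g ∈ D.base.P) (q : Rp I) :
    proj (T (actR g q)) = proj (T q) := by
  rw [← h.act g hg q, HIR.proj_smul (pow_ne_zero A (ch_ne hg))]

theorem Emb0.ne (h : D.Emb0 A T κ) (hρ : ρ ∈ D.SR) : T ρ ≠ 0 := by
  obtain ⟨t, -, ht⟩ := (h.stb ρ hρ.1).1 hρ.2
  exact fun c => ht (congrFun c t)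

theorem Emb0.slice_chart (h : D.Emb0 A T κ) (hL : D.Slice0 ρ L) (hρ : ρ ∈ D.SR) {X : Set (Amb N)}
    (hX : map (fun q => proj (T q)) (𝓝[D.SR] ρ) = 𝓝[X] proj (T ρ)) :
    HIR.Pt X (fun n => proj (T (ρ + L n))) 0 (proj (T ρ)) := by
  have e : T (ρ + L 0) = T ρ := by rw [map_zero, add_zero]
  have ha : AnalyticAt ℂ (fun n => T (ρ + L n)) 0 :=
    analyticAt_pi_iff.2 fun k => an_slice0 (h.poly k) ρ L 0
  have := HIR.pt_of_imm (X := X) (g := fun n => T (ρ + L n)) (z := 0) ha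
    (by rw [e]; exact h.ne hρ) (fun v c hv => by
      rw [e] at hv
      obtain ⟨u, hu, e'⟩ := h.imm ρ hρ (L v) c fun t => by
        have h1 : HasDerivAt (fun z : ℂ => z • v) v 0 := by
          simpa using (hasDerivAt_id (0 : ℂ)).smul_const v
        have h2 := HasFDerivAt.comp_hasDerivAt_of_eq (0 : ℂ) ha.differentiableAt.hasFDerivAt h1
          (zero_smul ℂ v).symm
        rw [hv] at h2
        have h3 := (hasDerivAt_pi.1 h2) t
        simpa [Function.comp_def] using h3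
      exact hL.ind u hu v e'.symm)
    (by rw [e, ← hX]; exact hL.map_eq hρ (F := fun q => proj (T q)) fun g hg q => h.proj_act hg q)
  rwa [e] at this

/-- the image of the stable triples has a chart of dimension `dim0` at every point -/
theorem Emb0.chart (h : D.Emb0 A T κ) (hρ : ρ ∈ D.SR) {X : Set (Amb N)}
    (hX : map (fun q => proj (T q)) (𝓝[D.SR] ρ) = 𝓝[X] proj (T ρ)) :
    ∃ (φ : HIR.E D.dim0 → Amb N) (z : HIR.E D.dim0), HIR.Pt X φ z (proj (T ρ)) := by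
  obtain ⟨L, hL⟩ := exists_slice0 hρ
  exact ⟨_, _, h.slice_chart hL hρ hX⟩

end Dat

end Pool.Agent.CS
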