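import Pool.Agent.P.MP_d34769_ag.YJ5

/-! The embedding can be chosen real. -/

open Matrix Filter Topology

set_option linter.unusedSectionVars false

noncomputable section
namespace Pool.Agent.CS

variable {I : Type} [Fintype I] [DecidableEq I]

/-- the conjugate subspace -/
def cjS (U : Submodule ℂ (I → ℂ)) : Submodule ℂ (I → ℂ) where
  carrier := {v | star v ∈ U}
  add_mem' {a b} ha hb := show star (a + b) ∈ U from star_add a b ▸ U.add_mem ha hb
  zero_mem' := show star 0 ∈ U from (star_zero (I → ℂ)).symm ▸ U.zero_mem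
  smul_mem' c v hv := show star (c • v) ∈ U from star_smul c v ▸ U.smul_mem (star c) hv

theorem mem_cjS {U : Submodule ℂ (I → ℂ)} {v : I → ℂ} : v ∈ cjS U ↔ star v ∈ U := Iff.rfl

theorem finrank_cjS (U : Submodule ℂ (I → ℂ)) :
    Module.finrank ℂ (cjS U) = Module.finrank ℂ U :=
  congrArg Cardinal.toNat (rank_eq_of_equiv_equiv star
    { toFun := fun v => ⟨star v.1, v.2⟩
      invFun := fun v => ⟨star v.1, mem_cjS.2 ((star_star v.1).symm ▸ v.2)⟩
      left_inv := fun v => Subtype.ext (star_star v.1)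
      right_inv := fun v => Subtype.ext (star_star v.1)
      map_add' := fun v w => Subtype.ext (star_add v.1 w.1) }
    star_involutive.bijective fun c v => Subtype.ext (star_smul c v.1))

theorem cjS_cjS (U : Submodule ℂ (I → ℂ)) : cjS (cjS U) = U :=
  Submodule.ext fun v => by rw [mem_cjS, mem_cjS, star_star]

theorem cj_cj (ρ : Rp I) : cj (cj ρ) = ρ :=
  funext fun a => Matrix.ext fun i j => star_star (ρ a i j)

theorem cr_cj (ρ : Rp I) : cr (cj ρ) = starRingEnd ℂ ∘ cr ρ := by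
  funext x
  rcases x with x | x
  exacts [rfl, x.2.elim0]

theorem cj_actR {g : Matrix I I ℂ} (hg : IsUnit g.det) (ρ : Rp I) :
    cj (actR g ρ) = actR (g.map (starRingEnd ℂ)) (cj ρ) := funext fun a => by
  have : (g.map (starRingEnd ℂ))⁻¹ = g⁻¹.map (starRingEnd ℂ) := inv_eq_right_inv (by
    rw [← Matrix.map_mul, mul_nonsing_inv _ hg, Matrix.map_one _ (map_zero _) (map_one _)])
  simp only [cj, actR, this, Matrix.map_mul]

theorem IsPoly.cj {F : Rp I → ℂ} (h : IsPoly cr F) :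
    IsPoly cr fun ρ => starRingEnd ℂ (F (cj ρ)) := by
  obtain ⟨P, hP⟩ := h
  refine ⟨MvPolynomial.map (starRingEnd ℂ) P, fun ρ => ?_⟩
  beta_reduce
  rw [hP, MvPolynomial.map_eval, ← cr_cj, cj_cj]

namespace Dat
variable {D : Dat I} {ρ : Rp I}

theorem cj_R (h : ρ ∈ D.R) : cj ρ ∈ D.R := fun a i j e => by simp [cj, h a i j e]

theorem cj_P {g : Matrix I I ℂ} (h : g ∈ D.P) : g.map (starRingEnd ℂ) ∈ D.P :=
  ⟨fun i j e => by simp [h.1 i j e], by
    rw [← RingHom.mapMatrix_apply, ← RingHom.map_det]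
    exact h.2.map _⟩

theorem Stb.cj (h : D.Stb ρ) : D.Stb (cj ρ) := by
  refine ⟨h.1, fun U hU h0 h1 => ?_⟩
  have e : D.wt D.th (cjS U) = D.wt D.th U := Finset.sum_congr rfl fun v _ => by
    rw [← finrank_cjS (U ⊓ _), show cjS (U ⊓ sp {i | D.col i = v}) =
      cjS U ⊓ sp {i | D.col i = v} from Submodule.ext fun x => by simp [mem_cjS, mem_sp]]
  rw [← e]
  refine h.2 _ ⟨fun i v hv => ?_, fun a v hv => ?_⟩ (fun c => h0 ?_) fun c => h1 ?_
  · refine mem_cjS.2 (Set.mem_of_eq_of_mem (funext fun j => ?_) (hU.gr i _ (mem_cjS.1 hv)))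
    simp only [Pi.star_apply, apply_ite star, star_zero]
  · refine mem_cjS.2 (Set.mem_of_eq_of_mem (funext fun j => ?_) (hU.st a _ (mem_cjS.1 hv)))
    simp [mulVec, dotProduct, CS.cj]
  · rw [← cjS_cjS U, c]
    exact Submodule.ext fun v => star_eq_zero
  · rw [← cjS_cjS U, c]
    rfl

theorem Emb0.real {τ : Type} [Finite τ] {A : ℕ} {T : Rp I → τ → ℂ} {κ : Set τ}
    (h : D.Emb0 A T κ) : ∃ (N : ℕ) (T' : Rp I → Fin (N + 1) → ℂ) (κ' : Finset (Fin (N + 1))),
      D.Emb0 A T' (κ' : Set (Fin (N + 1))) ∧ ∀ ρ t, T' (cj ρ) t = starRingEnd ℂ (T' ρ t) := by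
  let e : Option (τ ⊕ τ) ≃ Fin (Nat.card (τ ⊕ τ) + 1) := Finite.equivFinOfCardEq Finite.card_option
  let B : Rp I → τ → ℂ := fun ρ t => starRingEnd ℂ (T (cj ρ) t)
  let S : Rp I → Option (τ ⊕ τ) → ℂ := fun ρ x =>
    x.elim 0 (Sum.elim (fun t => T ρ t + B ρ t) fun t => Complex.I * (T ρ t - B ρ t))
  have hT : ∀ ρ t, T ρ t = 2⁻¹ * (S ρ (e.symm (e (some (.inl t)))) -
      Complex.I * S ρ (e.symm (e (some (.inr t))))) := fun ρ t => by
    simp only [S, Equiv.symm_apply_apply, Option.elim, Sum.elim_inl, Sum.elim_inr]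
    linear_combination 2⁻¹ * (T ρ t - B ρ t) * Complex.I_mul_I
  have a1 : ∀ g ∈ D.base.P, ∀ ρ t, D.ch g ^ A * T (actR g ρ) t = T ρ t := fun g hg ρ t =>
    congrFun (h.act g hg ρ) t
  have a2 : ∀ g ∈ D.base.P, ∀ ρ t, D.ch g ^ A * B (actR g ρ) t = B ρ t := fun g hg ρ t => by
    simp only [B]
    rw [← a1 _ (cj_P hg) (cj ρ) t, cj_actR hg.2, ch_conj]
    simp
  refine ⟨_, fun ρ x => S ρ (e.symm x), (Set.toFinite
    {x | ∃ t ∈ κ, x = e (some (.inl t)) ∨ x = e (some (.inr t))}).toFinset,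
    ⟨fun x => ?_, fun g hg ρ => funext fun x => ?_, fun ρ hρ hs c => h.ss ρ hρ hs ?_,
      fun ρ hρ => ⟨fun hs => ?_, ?_⟩, fun ρ hρ σ c hc k => h.inj ρ hρ σ c hc ?_,
      fun ρ hρ v c k => h.imm ρ hρ v c fun t => ?_⟩, fun ρ x => ?_⟩
  · rcases e.symm x with _ | t | t
    exacts [IsPoly.const 0, (h.poly t).add (h.poly t).cj,
      (IsPoly.const _).mul ((h.poly t).sub (h.poly t).cj)]
  · change D.ch g ^ A * S _ _ = S _ _
    rcases e.symm x with _ | t | t
    · exact mul_zero _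
    · exact (mul_add _ _ _).trans (congrArg₂ _ (a1 g hg ρ t) (a2 g hg ρ t))
    · simp only [S, Option.elim, Sum.elim_inr]
      rw [← a1 g hg ρ t, ← a2 g hg ρ t]
      ring
  · funext t
    rw [hT, congrFun c _, congrFun c _]
    simp
  · obtain ⟨t, ht, k⟩ := (h.stb ρ hρ).1 hs
    by_contra c
    simp only [Set.Finite.coe_toFinset, not_exists, not_and, not_not] at c
    rw [hT, c _ ⟨t, ht, Or.inl rfl⟩, c _ ⟨t, ht, Or.inr rfl⟩] at k
    simp at k
  · rintro ⟨x, hx, k⟩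
    obtain ⟨t, ht, hx⟩ := (Set.Finite.mem_toFinset _).1 hx
    by_contra c
    have c1 : T ρ t = 0 := by_contra fun f => c ((h.stb ρ hρ).2 ⟨t, ht, f⟩)
    have c2 : T (cj ρ) t = 0 := by_contra fun f =>
      c (cj_cj ρ ▸ ((h.stb _ (cj_R hρ)).2 ⟨t, ht, f⟩).cj)
    rcases hx with rfl | rfl <;> simp [S, B, c1, c2] at k
  · funext t
    rw [Pi.smul_apply, hT σ, hT ρ, congrFun k _, congrFun k _]
    simp only [Pi.smul_apply, smul_eq_mul]
    ring
  · have := (((k (e (some (.inl t)))).sub ((k (e (some (.inr t)))).const_mul Complex.I)).const_mul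
      2⁻¹).congr_deriv (g' := c * T ρ t) (by rw [hT ρ]; ring)
    exact this.congr_of_eventuallyEq (Eventually.of_forall fun z => hT _ t)
  · beta_reduce
    rcases e.symm x with _ | t | t <;> simp [S, B, cj_cj]
    · ring
    · ring

end Dat

end Pool.Agent.CS
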