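import Pool.Agent.P.MP_d34769_ag.YJ0
import Pool.Agent.P.MP_d34769_ag.YE9
import Pool.Agent.P.MP_d34769_ag.HDef
import Pool.Agent.P.MP_d34769_ag.YJ6
import Pool.Agent.P.MP_d34769_ag.YJ7
import Pool.Agent.P.MP_d34769_ag.YJ7b
import Pool.Agent.P.MP_d34769_ag.YJ7c
import Pool.Agent.P.MP_d34769_ag.YJ7r

/-! The moduli space is a locally closed submanifold of projective space. -/

open Set Filter Topology
open Pool.Agent.HT (Amb proj)
open Pool.Agent.PWV (pm)
open Pool.Agent.P.MP_d34769_ag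

noncomputable section
namespace Pool.Agent.CS

theorem yj8_fits (n d k : ℕ) (α : ℝ) : ∃ D : Dat (Ix n d k), Fits n d k α D := by
  obtain ⟨th, h⟩ := exists_th n d k α
  refine ⟨⟨Sigma.fst, th, 0, fun _ _ => True, fun _ _ => True, fun _ _ => True,
    ⟨fun _ => trivial, id, fun _ _ => trivial⟩, fun _ => trivial, fun _ _ => trivial,
    fun _ _ => trivial, id, id, fun _ _ _ _ => Or.inl trivial, fun i F hF => ?_⟩, rfl,
    fun _ _ => trivial, fun e he => (h e he).1⟩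
  obtain rfl : F = Finset.univ := Finset.eq_univ_of_forall fun j => (hF j).2 trivial
  rw [← sum_dvec, dvec_univ]
  exact (h _ le_rfl).2.1.2 wgt_all

/-- two open quotient maps with the same fibres -/
theorem yj8_homeo {X Y Z : Type} [TopologicalSpace X] [TopologicalSpace Y] [TopologicalSpace Z]
    {f : X → Y} {g : X → Z} (hf : IsQuotientMap f) (hg : IsQuotientMap g)
    (h : ∀ x y, f x = f y ↔ g x = g y) : ∃ q : Y ≃ₜ Z, ∀ x, q (f x) = g x := by
  have e1 : ∀ x, g (Function.surjInv hf.surjective (f x)) = g x := fun x =>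
    (h _ _).1 (Function.surjInv_eq _ _)
  have e2 : ∀ x, f (Function.surjInv hg.surjective (g x)) = f x := fun x =>
    (h _ _).2 (Function.surjInv_eq _ _)
  refine ⟨⟨⟨fun y => g (Function.surjInv hf.surjective y),
    fun z => f (Function.surjInv hg.surjective z), fun y => ?_, fun z => ?_⟩,
    hf.continuous_iff.2 (hg.continuous.congr fun x => (e1 x).symm),
    hg.continuous_iff.2 (hf.continuous.congr fun x => (e2 x).symm)⟩, e1⟩
  · exact (e2 _).trans (Function.surjInv_eq _ _)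
  · exact (e1 _).trans (Function.surjInv_eq _ _)

variable {n d k : ℕ} {α : ℝ} {D : Dat (Ix n d k)}

/-- the triple with given entries -/
def ofE (w : Fin (n + d) × (Fin d ⊕ Fin d ⊕ Fin k) → ℂ) : Rp (Ix n d k) :=
  toR (Matrix.of fun i j => w (i, .inl j)) (Matrix.of fun i j => w (i, .inr (.inl j)))
    (Matrix.of fun i j => w (i, .inr (.inr j)))

theorem ofE_ent (r : Rep ℂ n d k) : ofE (ent r) = toR r.x r.y r.z := rfl

theorem ent_ofE (w : Fin (n + d) × (Fin d ⊕ Fin d ⊕ Fin k) → ℂ) : ent (frR (ofE w)) = w := by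
  have := frR_toR (n := n) (d := d) (k := k) ⟨Matrix.of fun i j => w (i, .inl j),
    Matrix.of fun i j => w (i, .inr (.inl j)), Matrix.of fun i j => w (i, .inr (.inr j))⟩
  rw [ofE, this]
  funext ⟨i, j⟩
  rcases j with j | j | j <;> rfl

theorem Fits.ofE_mem (h : Fits n d k α D) (w) : ofE w ∈ D.base.R := h.toR_mem _ _ _

theorem Fits.ofE_frR (h : Fits n d k α D) {ρ : Rp (Ix n d k)} (hρ : ρ ∈ D.base.R) :
    ofE (ent (frR ρ)) = ρ := h.frR_inj (h.ofE_mem _) hρ (by rw [ofE_ent, frR_toR])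

/-- the entries as a linear isomorphism -/
def Fits.entL (h : Fits n d k α D) :
    D.base.R ≃ₗ[ℂ] (Fin (n + d) × (Fin d ⊕ Fin d ⊕ Fin k) → ℂ) where
  toFun ρ := ent (frR ρ.1)
  invFun w := ⟨ofE w, h.ofE_mem w⟩
  map_add' _ _ := funext fun p => by simp only [Pi.add_apply, ent_frR]; rfl
  map_smul' _ _ := funext fun p => by simp only [Pi.smul_apply, ent_frR]; rfl
  left_inv ρ := Subtype.ext (h.ofE_frR ρ.2)
  right_inv := ent_ofE

theorem Fits.ofE_poly (h : Fits n d k α D) (t : Co (Ix n d k) 0) :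
    IsPoly id fun w : Fin (n + d) × (Fin d ⊕ Fin d ⊕ Fin k) → ℂ => cr (ofE w) t := by
  obtain ⟨a, ⟨u, i⟩, v, j⟩ | ⟨i, r⟩ := t
  · by_cases c : u = 1 ∧ v = src a
    · obtain ⟨rfl, rfl⟩ := c
      have e : ∀ p, IsPoly id fun w : Fin (n + d) × (Fin d ⊕ Fin d ⊕ Fin k) → ℂ =>
          ent (frR (ofE w)) p := fun p => by
        simp only [ent_ofE]
        exact IsPoly.coord (c := id) p
      fin_cases a
      exacts [e (i, .inl j), e (i, .inr (.inl j)), e (i, .inr (.inr j))]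
    · exact (funext fun w => h.mem_R.1 (h.ofE_mem w) a ⟨u, i⟩ ⟨v, j⟩ c :
        (fun w => cr (ofE w) (.inl (a, ⟨u, i⟩, ⟨v, j⟩))) = fun _ => 0) ▸ IsPoly.const 0
  · exact r.elim0

theorem Fits.cj_ofE (h : Fits n d k α D) (w : Fin (n + d) × (Fin d ⊕ Fin d ⊕ Fin k) → ℂ) :
    cj (ofE w) = ofE fun p => starRingEnd ℂ (w p) := by
  have h1 : cj (ofE w) ∈ D.base.R := fun a i j c =>
    (congrArg (starRingEnd ℂ) (h.ofE_mem w a i j c)).trans (map_zero _)
  rw [← h.ofE_frR h1]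
  refine congrArg ofE (funext fun p => ?_)
  rw [ent_frR]
  exact congrArg (starRingEnd ℂ) ((ent_frR _ p).symm.trans (congrFun (ent_ofE w) p))

theorem Fits.dim0 (h : Fits n d k α D) :
    D.dim0 = ((k : ℤ) * (d + n - k) - n ^ 2 + 1).toNat := by
  have e : {x : Ix n d k × Ix n d k // D.base.gp x.1 x.2} ≃
      Σ v, Fin (![d, n + d, k] v) × Fin (![d, n + d, k] v) :=
    (Equiv.ofBijective (fun y => ⟨(⟨y.1, y.2.1⟩, ⟨y.1, y.2.2⟩), h.cc.2 rfl⟩) ⟨by
      rintro ⟨v, i, j⟩ ⟨v', i', j'⟩ c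
      obtain ⟨c1, c2⟩ := Prod.ext_iff.1 (congrArg Subtype.val c)
      obtain rfl : v = v' := congrArg Sigma.fst c1
      obtain rfl : i = i' := mkx_inj v c1
      obtain rfl : j = j' := mkx_inj v c2
      rfl, by
      rintro ⟨⟨⟨v, i⟩, v', j⟩, c⟩
      obtain rfl : v = v' := h.cc.1 c
      exact ⟨⟨v, i, j⟩, rfl⟩⟩).symm
  rw [Dat.dim0, h.entL.finrank_eq, Dat.finrank_Lie, Nat.card_congr e, ← Int.toNat_sub]
  refine congrArg Int.toNat ?_
  simp [Fin.sum_univ_three]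
  ring

theorem exists_pe (n d k : ℕ) (hn : 0 < n) (hk : 0 < k) (α : ℝ) (hα : 0 < α) :
    ∃ (N : ℕ) (Θ : Fin (N + 1) → MvPolynomial (Fin (n + d) × (Fin d ⊕ Fin d ⊕ Fin k)) ℂ)
      (κ : Finset (Fin (N + 1))),
      PE (ent '' {r : Rep ℂ n d k | QStable α r}) ((k : ℤ) * (d + n - k) - n ^ 2 + 1).toNat Θ κ ∧
      ∃ q : @Homeomorph (GMod α n d k) (Im (ent '' {r : Rep ℂ n d k | QStable α r}) Θ)
          (modTop α n d k) _,
        ∀ (S : {S : CohSys ℂ n d k // Stable α S}) r, Presents S.1 r →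
          QStable α r ∧ (q (Quot.mk _ S)).1 = proj (pm Θ (ent r)) := by
  obtain ⟨D, h⟩ := yj8_fits n d k α
  obtain ⟨u⟩ := D.nonempty_uni0
  obtain ⟨τ, _, A, T0, κ0, h0⟩ := u.emb
  obtain ⟨N, T, κ, hT, hc⟩ := h0.real
  choose Θ hΘ using fun t => (hT.poly t).comp h.ofE_poly
  have e1 : ∀ w, pm Θ w = T (ofE w) := fun w => funext fun t => (hΘ t w).symm
  have hW : ∀ w, w ∈ ent '' {r : Rep ℂ n d k | QStable α r} ↔ ofE w ∈ D.SR := fun w => by
    refine ⟨?_, fun c => ⟨_, (h.stb_iff hn c.1).1 c.2, ent_ofE w⟩⟩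
    rintro ⟨r, c, rfl⟩
    exact ⟨h.ofE_mem _, (h.stb_iff hn (h.ofE_mem _)).2 (by rwa [ofE_ent, frR_toR])⟩
  have hI : Im (ent '' {r : Rep ℂ n d k | QStable α r}) Θ = (fun ρ => proj (T ρ)) '' D.SR := by
    refine Subset.antisymm ?_ ?_
    · rintro _ ⟨w, c, rfl⟩
      exact ⟨_, (hW w).1 c, congrArg proj (e1 w).symm⟩
    · rintro _ ⟨ρ, c, rfl⟩
      exact ⟨ent (frR ρ), (hW _).2 (by rwa [h.ofE_frR c.1]), by
        beta_reduce
        rw [e1, h.ofE_frR c.1]⟩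
  refine ⟨N, Θ, κ, ⟨fun t => MvPolynomial.funext fun w => ?_, fun w => ?_, fun y hy hk => ?_,
    fun x hx => ?_⟩, ?_⟩
  · have e : w = starRingEnd ℂ ∘ fun p => starRingEnd ℂ (w p) := funext fun p => by simp
    have e2 : MvPolynomial.eval w (Θ t) = T (ofE w) t := (hΘ t w).symm
    rw [e2, MvPolynomial.eval_map, ← RingHom.comp_id (starRingEnd ℂ)]
    conv_lhs => rw [e]
    rw [← MvPolynomial.eval₂_comp_left, MvPolynomial.eval₂_id]
    refine (congrArg _ (hΘ t _).symm).trans ?_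
    beta_reduce
    rw [← h.cj_ofE, hc, starRingEnd_self_apply]
  · rw [hW, e1]
    exact (and_iff_right (h.ofE_mem w)).trans (hT.stb _ (h.ofE_mem w))
  · obtain ⟨ρ, c, a, e⟩ := hT.cl (closure_mono (by
      rintro _ ⟨p, rfl⟩
      exact ⟨_, h.ofE_mem p.2, p.1, congrArg (p.1 • ·) (e1 _)⟩) hy) hk
    exact ⟨ent (frR ρ), (hW _).2 (by rwa [h.ofE_frR c.1]), a, by rwa [e1, h.ofE_frR c.1]⟩
  · rw [hI, ← h.dim0] at *
    obtain ⟨ρ, c, rfl⟩ := hx
    exact hT.chart c (hT.nhds_map c)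
  · rw [hI]
    let _ := modTop α n d k
    obtain ⟨p, h1, h2, h3, h4, h5⟩ := h.exists_pm hn hk hα
    let F : D.SR → (fun ρ => proj (T ρ)) '' D.SR := fun ρ => ⟨_, ρ.1, ρ.2, rfl⟩
    have c1 : Continuous F := (continuous_iff_continuousAt.2 fun ρ =>
      (hT.contAt ρ.2).comp continuous_subtype_val.continuousAt).subtype_mk _
    have c2 : IsOpenMap F := isOpenMap_iff_nhds_le.2 fun ρ => by
      rw [← map_le_map_iff_of_injOn (f := Subtype.val) univ_mem univ_mem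
        Subtype.val_injective.injOn, map_nhds_subtype_val, map_map, ← hT.nhds_map ρ.2,
        ← map_nhds_subtype_val, map_map]
      exact le_rfl
    obtain ⟨q, hq⟩ := yj8_homeo (h2.isQuotientMap h1 h3)
      (c2.isQuotientMap c1 fun ⟨_, ρ, c, e⟩ => ⟨⟨ρ, c⟩, Subtype.ext e⟩)
      fun ρ σ => (h4 ρ σ).trans ((hT.eq_iff ρ.2 σ.2).symm.trans (Subtype.ext_iff (a1 := F ρ) (a2 := F σ)).symm)
    refine ⟨q, fun S r c => ?_⟩
    have c3 : QStable α r := by
      obtain ⟨ψ, e⟩ := (presents_iff _ _).1 c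
      exact (e.stable_iff hα hn hk).1 S.2
    have c4 := (hW _).1 ⟨r, c3, rfl⟩
    refine ⟨c3, ?_⟩
    rw [← (h5 ⟨_, c4⟩ S).2 ((frR_toR r).symm ▸ c :), hq, e1]

end Pool.Agent.CS
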