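import Pool.Agent.P.MP_d34769_ag.YJ3
import Pool.Agent.P.MP_d34769_ag.YJ4
import Pool.Agent.P.MP_d34769_ag.YJ8
import Pool.Agent.P.MP_65ad7c_ag.QFA

/-! The moduli space has a normal crossing compactification. -/

noncomputable section
namespace Pool.Agent.CS
open Pool.Agent.P.MP_d34769_ag Pool.Agent.PQ

theorem yj9_inv {X Y : Type} [TopologicalSpace X] [TopologicalSpace Y] [T2Space Y] {Z : Set X}
    {B I : Set Y} {ph : X → Y} (hZ : IsCompact Z) (hc : ContinuousOn ph Z)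
    (hb : Set.BijOn ph (Z \ ph ⁻¹' B) I) :
    ∃ t : I ≃ₜ ↥(Z \ ph ⁻¹' B), ∀ y, ph (t y).1 = y.1 := by
  have h1 : Continuous (hb.equiv ph) :=
    (continuousOn_iff_continuous_domRestrict.1 (hc.mono fun _ h => h.1)).subtype_mk _
  have h2 : IsClosedMap (hb.equiv ph) := by
    intro C hC
    obtain ⟨C', hC', rfl⟩ := isClosed_induced_iff.1 hC
    refine isClosed_induced_iff.2 ⟨ph '' (Z ∩ C'),
      ((hZ.inter_right hC').image_of_continuousOn (hc.mono fun _ h => h.1)).isClosed, ?_⟩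
    ext y
    constructor
    · rintro ⟨x, hx, e⟩
      obtain ⟨x', hx', e'⟩ := hb.surjOn y.2
      exact ⟨⟨x, hx.1, fun h => hx'.2 (show ph x' ∈ B from e'.symm ▸ e ▸ h)⟩, hx.2, Subtype.ext e⟩
    · rintro ⟨x, hx, rfl⟩
      exact ⟨x.1, ⟨x.2.1, hx⟩, rfl⟩
  exact ⟨((hb.equiv ph).toHomeomorphOfContinuousClosed h1 h2).symm, fun y =>
    congrArg Subtype.val ((hb.equiv ph).apply_symm_apply y)⟩

theorem exists_model (n d k : ℕ) (hn : 0 < n) (hk : 0 < k) (α : ℝ) (hα : 0 < α) :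
    ∃ (N r : ℕ) (Z : Set (Amb N)) (D : Fin r → Set (Amb N))
      (q : @Homeomorph (GMod α n d k) ↥(Z \ ⋃ i, D i) (modTop α n d k) _),
      IsSNC ((k : ℤ) * (d + n - k) - n ^ 2 + 1).toNat Z D ∧ Reg fun x => (q x).1 := by
  classical
  obtain ⟨N, Θ, κ, h, q, hq⟩ := exists_pe n d k hn hk α hα
  obtain ⟨M, r, Z, D, ph, hs, hZ, hph, e, hb⟩ := h.exists_snc
  obtain ⟨t, ht⟩ := yj9_inv hZ.compact (hph.cont hZ) hb
  let := modTop α n d k
  refine ⟨M, r, Z, D, (q.trans t).trans (Homeomorph.setCongr e.symm),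
    ⟨hs.compact, hs.sub, fun x hx => ?_⟩, fun S ρ hS => ?_⟩
  · obtain ⟨O, f, c, h1, h2⟩ := hs.chart x hx
    exact ⟨O, f, c, chart_iff.2 h1, h2⟩
  generalize hW : ent '' {r : Rep ℂ n d k | QStable α r} = W at h q hq hb t ht
  have h0 : ∀ w ∈ W, PWV.pm Θ w ≠ 0 := fun w hw k => by
    obtain ⟨i, -, hi⟩ := (h.mem w).1 hw
    exact hi (congrFun k i)
  let F := fun w => if k : w ∈ W then (t ⟨HT.proj (PWV.pm Θ w), w, k, rfl⟩).1 else 0
  have hF : ∀ w (k : w ∈ W), F w = (t ⟨HT.proj (PWV.pm Θ w), w, k, rfl⟩).1 := fun w k => dif_pos k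
  have hc : ContinuousOn F W := by
    rw [continuousOn_iff_continuous_domRestrict]
    refine Continuous.congr (continuous_subtype_val.comp (t.continuous.comp
      (Continuous.subtype_mk (f := fun w : W => HT.proj (PWV.pm Θ w.1)) ?_
        fun w => ⟨w.1, w.2, rfl⟩))) fun w => (hF w.1 w.2).symm
    exact continuous_iff_continuousAt.2 fun w => (HIR.cont_proj (h0 w.1 w.2)).comp
      (f := fun w : W => PWV.pm Θ w.1) ((continuous_pi fun i =>
        (MvPolynomial.continuous_eval (Θ i)).comp continuous_subtype_val).continuousAt)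
  have hm : ∀ (S : {S : CohSys ℂ n d k // Stable α S}) ρ, Presents S.1 ρ → ent ρ ∈ W :=
    fun S ρ k => hW ▸ ⟨ρ, (hq S ρ k).1, rfl⟩
  obtain ⟨v, hv, hv'⟩ := rat (A := Θ '' κ) (F := F)
    (fun w => (h.mem w).trans ⟨fun ⟨i, a, b⟩ => ⟨_, ⟨i, a, rfl⟩, b⟩,
      fun ⟨_, ⟨i, a, b⟩, c⟩ => ⟨i, a, by subst b; exact c⟩⟩) hZ hph h0 hc (fun w hw x => by
      rw [hF w hw]
      set y := t ⟨HT.proj (PWV.pm Θ w), w, hw, rfl⟩
      have k : ph y.1 = HT.proj (PWV.pm Θ w) := ht _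
      refine ⟨fun a => hb.injOn ⟨a.1, fun b => y.2.2 ?_⟩ y.2 (a.2.trans k.symm), ?_⟩
      · exact show ph y.1 ∈ Bnd κ from k.symm ▸ a.2 ▸ b
      · rintro rfl
        exact ⟨y.2.1, k⟩) _ (hm S ρ hS)
  refine ⟨v, hv, fun S' ρ' k k' => ?_⟩
  refine Eq.trans ?_ (hv' _ (hm S' ρ' k) k')
  rw [hF _ (hm S' ρ' k)]
  exact congrArg (fun y => (t y).1) (Subtype.ext (hq S' ρ' k).2)

end Pool.Agent.CS
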