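import Pool.Agent.P.MP_d34769_ag.YI7
import Pool.Agent.P.MP_65ad7c_ag.QN0

/-! Dimension counts: dual complexes, sums of Hodge numbers, compactly supported cohomology. -/

open Set
open Pool.Agent.HT
open Pool.Agent.P.MP_d34769_ag (hod)

noncomputable section
namespace Pool.Agent.CS

section alg
variable {H H' : Type} [AddCommGroup H] [Module ℂ H] [AddCommGroup H'] [Module ℂ H']

theorem Sq.rank_of {A B : Submodule ℂ H} (κ : A →ₗ[ℂ] H') (hs : Function.Surjective κ)
    (h : ∀ x, κ x = 0 ↔ x.1 ∈ B) : Module.rank ℂ H' = Module.rank ℂ (Sq A B) :=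
  ((κ.quotKerEquivOfSurjective hs).symm.trans ((Submodule.quotEquivOfEq _ _
    (Submodule.ext fun x => (h x).trans Sq.mk_eq_zero.symm)).trans
      ((Sq.mk A B).quotKerEquivOfSurjective (Sq.mk_surj A B)))).rank_eq

theorem Sq.rank_add {A B : Submodule ℂ H} (h : B ≤ A) :
    Module.rank ℂ A = Module.rank ℂ (Sq A B) + Module.rank ℂ B := by
  rw [← (Sq.mk A B).rank_range_add_rank_ker, LinearMap.range_eq_top.2 (Sq.mk_surj A B), rank_top,
    show LinearMap.ker (Sq.mk A B) = B.submoduleOf A from Submodule.ext fun _ => Sq.mk_eq_zero]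
  exact congrArg _ (Submodule.submoduleOfEquivOfLe h).rank_eq

theorem rank_filt (U : ℕ → Submodule ℂ H) (h : Antitone U) (n : ℕ) : Module.rank ℂ (U 0) =
    ∑ c ∈ Finset.range n, Module.rank ℂ (Sq (U c) (U (c + 1))) + Module.rank ℂ (U n) := by
  induction n with
  | zero => simp
  | succ n ih => rw [Finset.sum_range_succ, add_assoc, ← Sq.rank_add (h n.le_succ), ih]

theorem MHS.rank_W {j : ℕ} (M : MHS H j) (c : ℕ) : Module.rank ℂ (M.W c) =
    ∑ a ∈ Finset.range (j + 1), M.hod c a + Module.rank ℂ (M.W (c + 1)) := by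
  have h := rank_filt (fun a => M.W c ⊓ M.F a ⊔ M.W (c + 1))
    (fun _ _ e => sup_le_sup_right (inf_le_inf_left _ (M.aF e)) _) (j + 1)
  have e0 : M.W c ⊓ M.F 0 ⊔ M.W (c + 1) = M.W c := by
    rw [M.F0, inf_top_eq, sup_eq_left.2 (M.aW c.le_succ)]
  have e1 : M.W c ⊓ M.F (j + 1) ⊔ M.W (c + 1) = M.W (c + 1) := sup_eq_right.2 fun x hx =>
    M.disj c (j + 1) 0 (by omega) x hx x ⟨hx.1, by rw [M.Fb0]; trivial⟩ (by simp)
  rw [e0, e1] at h
  refine h.trans (congrArg (· + _) (Finset.sum_congr rfl fun a _ => (Sq.rank_eq LinearMap.id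
    (fun _ hx => Submodule.mem_sup_left hx) (fun x hx => ⟨fun k => ?_, fun k => ?_⟩)
      fun y hy => ?_).symm))
  · obtain ⟨u, hu, v, hv, e⟩ := Submodule.mem_sup.1 k
    refine Submodule.mem_sup.2 ⟨u, hu, v, ⟨hv, ?_⟩, e⟩
    rw [show v = x - u from eq_sub_of_add_eq' e]
    exact sub_mem hx.2 (M.aF a.le_succ hu.2)
  · exact (sup_le_sup_left (inf_le_left : _ ≤ M.W (c + 1)) (M.W c ⊓ M.F (a + 1))) k
  · obtain ⟨u, hu, v, hv, rfl⟩ := Submodule.mem_sup.1 hy
    exact ⟨u, hu, Submodule.mem_sup_right (by simpa using hv)⟩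

/-- the dimension is the sum of the Hodge numbers -/
theorem MHS.rank_eq {j : ℕ} (M : MHS H j) : Module.rank ℂ H =
    ∑ c ∈ Finset.range (j + 1), ∑ a ∈ Finset.range (j + 1), M.hod c a := by
  have key : ∀ n, Module.rank ℂ H = ∑ c ∈ Finset.range n, ∑ a ∈ Finset.range (j + 1), M.hod c a +
      Module.rank ℂ (M.W n) := fun n => by
    induction n with
    | zero => rw [M.W0, rank_top]; simp
    | succ n ih => rw [Finset.sum_range_succ, add_assoc, ← M.rank_W, ih]
  rw [key (j + 1), M.Wj, rank_bot, add_zero]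

/-- the cohomology of the dual complex -/
theorem rank_dual_sq {A B : Submodule ℂ H} (h : B ≤ A) :
    Module.rank ℂ (Sq B.dualAnnihilator A.dualAnnihilator) =
      Module.rank ℂ (Module.Dual ℂ (Sq A B)) := by
  have hi := LinearMap.dualMap_injective_of_surjective (Sq.mk_surj A B)
  have hr : ∀ μ : Module.Dual ℂ A, μ ∈ LinearMap.range (Sq.mk A B).dualMap ↔
      ∀ x : A, x.1 ∈ B → μ x = 0 := fun μ => by
    rw [LinearMap.range_dualMap_eq_dualAnnihilator_ker, Submodule.mem_dualAnnihilator]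
    exact forall_congr' fun x => imp_congr_left Sq.mk_eq_zero
  refine (Sq.rank_eq (A' := LinearMap.range (Sq.mk A B).dualMap) (B' := ⊥) A.dualRestrict
    (fun μ hμ => (hr _).2 fun x hx => (Submodule.mem_dualAnnihilator _).1 hμ _ hx)
    (fun μ _ => by rw [← A.dualRestrict_ker_eq_dualAnnihilator]; rfl) fun y hy => ?_).trans
      (Sq.rank_of (LinearEquiv.ofInjective _ hi).symm.toLinearMap
        (LinearEquiv.ofInjective _ hi).symm.surjective fun x =>
          (LinearEquiv.map_eq_zero_iff _).trans Subtype.ext_iff).symm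
  obtain ⟨μ, rfl⟩ := Subspace.dualRestrict_surjective y
  exact ⟨μ, (Submodule.mem_dualAnnihilator _).2 fun x hx => (hr _).1 hy ⟨x, h hx⟩ hx, by simp⟩

theorem rank_dual_fin (h : Module.rank ℂ H < Cardinal.aleph0) :
    Module.rank ℂ (Module.Dual ℂ H) = Module.rank ℂ H := by
  have := Module.rank_lt_aleph0_iff.1 h
  rw [← Module.finrank_eq_rank, ← Module.finrank_eq_rank, Subspace.dual_finrank_eq]

end alg

variable {N e : ℕ} {ι : Type} [Finite ι] {Z : Set (Amb N)} {D : ι → Set (Amb N)}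

/-- cohomology with compact support is the sum of the Hodge pieces -/
theorem rank_Hc (h : IsSNC e Z D) (q : ℕ) :
    Module.rank ℂ (Sq (Cc Z D q) (QN.Bd Z (Z \ ⋃ i, D i) q)) =
      ∑ c ∈ Finset.range (q + 1), ∑ a ∈ Finset.range (q + 1), hod Z D q c a := by
  have h1 := Sq.rank_comap (Nul Z q).mkQ_surjective (Cc Z D q) (QN.Bd Z (Z \ ⋃ i, D i) q)
    (QN.Bd Z (Z \ ⋃ i, D i) q)
  rw [sup_idem, sup_idem] at h1
  rw [← h1, ← Sq.rank_of (clsC h (q + 1) q) (clsC_surj h q.lt_succ_self) fun α => ?_,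
    ((sncI h (q + 1)).mhs q).rank_eq]
  · exact Finset.sum_congr rfl fun c _ => Finset.sum_congr rfl fun a _ =>
      ((hod_eq h q.lt_succ_self c a).trans (MHS.hod_map _ _ c a)).symm
  have h2 := clsC_W h q.le_succ (q + 1) α
  rw [MHS.Wj] at h2
  refine h2.trans ?_
  cases q with
  | zero => exact ⟨col_zero_eq Nat.one_pos, fun k => (show Om.mk Z α.1 = 0 from k) ▸ zero_mem _⟩
  | succ q =>
    refine ⟨col_exact h (q + 1).lt_succ_self α.2.1, fun ⟨β, hβ, k⟩ => ?_⟩
    exact (show _ = Om.mk Z α.1 from k) ▸ cls_exact h.sub _ hβ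

end Pool.Agent.CS
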