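import Pool.Agent.P.MP_d34769_ag.YS0
import Pool.Agent.P.MP_d34769_ag.YA3

/-! Finite products of cochain complexes of pairs, and groups that permute the factors. -/

open Set Topology

noncomputable section
namespace Pool.Agent.CS

variable {Λ : Type} {X : Λ → Type} [∀ i, TopologicalSpace (X i)] [∀ i, CompactSpace (X i)]
  [∀ i, T2Space (X i)]

/-- The product of the complexes of the pairs `(K i, A i)` over the indices with `P i`. -/
def CPi (P : Λ → Prop) (K A : ∀ i, Set (X i)) : Cx (∀ i, AS (X i)) where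
  d := LinearMap.pi fun i => AS.d ∘ₗ LinearMap.proj i
  G n :=
    { carrier := {c | ∀ i, (P i → c i ∈ (CP (K i) (A i)).G n) ∧ (¬P i → c i = 0)}
      add_mem' := fun ha hb i => ⟨fun h => add_mem ((ha i).1 h) ((hb i).1 h),
        fun h => by rw [Pi.add_apply, (ha i).2 h, (hb i).2 h, add_zero]⟩
      zero_mem' := fun _ => ⟨fun _ => zero_mem _, fun _ => rfl⟩
      smul_mem' := fun a _ hb i => ⟨fun h => Submodule.smul_mem _ a ((hb i).1 h),
        fun h => by rw [Pi.smul_apply, (hb i).2 h, smul_zero]⟩ }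
  N := Submodule.pi univ fun i => (AS.sc (X i)).zz (K i)
  dG n c hc i := ⟨fun h => (CP (K i) (A i)).dG n _ ((hc i).1 h), fun h => by
    show AS.d (c i) = 0
    rw [(hc i).2 h, map_zero]⟩
  dN c hc i _ := (CP (K i) (A i)).dN _ (hc i trivial)
  dd _ c _ i _ := (AS.sc (X i)).mem_zz.2 fun t _ => (AS.sc (X i)).dd t (c i)

section basic
variable {P : Λ → Prop} {K A : ∀ i, Set (X i)} {n : ℤ} {c : ∀ i, AS (X i)}

theorem CPi.d_apply (c : ∀ i, AS (X i)) (i : Λ) : (CPi P K A).d c i = AS.d (c i) := rfl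

theorem CPi.mem_G : c ∈ (CPi P K A).G n ↔
    ∀ i, (P i → c i ∈ (CP (K i) (A i)).G n) ∧ (¬P i → c i = 0) := Iff.rfl

theorem CPi.mem_N : c ∈ (CPi P K A).N ↔ ∀ i, c i ∈ (AS.sc (X i)).zz (K i) :=
  ⟨fun h i => h i trivial, fun h i _ => h i⟩

theorem CPi.Z_comp (h : c ∈ (CPi P K A).Z n) {i : Λ} (hi : P i) : c i ∈ (CP (K i) (A i)).Z n :=
  ⟨(h.1 i).1 hi, h.2 i trivial⟩

theorem CPi.mem_Z : c ∈ (CPi P K A).Z n ↔
    ∀ i, (P i → c i ∈ (CP (K i) (A i)).Z n) ∧ (¬P i → c i = 0) := by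
  refine ⟨fun h i => ⟨CPi.Z_comp h, (h.1 i).2⟩, fun h => Cx.mem_Z.2
    ⟨fun i => ⟨fun hi => ((h i).1 hi).1, (h i).2⟩, CPi.mem_N.2 fun i => ?_⟩⟩
  by_cases hi : P i
  · exact ((h i).1 hi).2
  · rw [CPi.d_apply, (h i).2 hi, map_zero]
    exact zero_mem _

theorem CPi.B_comp (h : c ∈ (CPi P K A).B n) (i : Λ) : c i ∈ (CP (K i) (A i)).B n := by
  obtain ⟨b, hb, e⟩ := Cx.mem_B.1 h
  refine Cx.mem_B.2 ⟨b i, ?_, e i trivial⟩
  by_cases hi : P i
  · exact (hb i).1 hi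
  · rw [(hb i).2 hi]
    exact zero_mem _

theorem CPi.mem_B (h0 : ∀ i, ¬P i → c i = 0) :
    c ∈ (CPi P K A).B n ↔ ∀ i, P i → c i ∈ (CP (K i) (A i)).B n := by
  classical
  refine ⟨fun h i _ => CPi.B_comp h i, fun h => ?_⟩
  choose b hb e using fun i hi => Cx.mem_B.1 (h i hi)
  refine Cx.mem_B.2 ⟨fun i => if hi : P i then b i hi else 0, fun i => ⟨fun hi => ?_, fun hi => ?_⟩,
    CPi.mem_N.2 fun i => ?_⟩
  · simp only [dif_pos hi]
    exact hb i hi
  · simp only [dif_neg hi]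
  · rw [Pi.sub_apply, CPi.d_apply]
    by_cases hi : P i
    · rw [dif_pos hi]
      exact e i hi
    · rw [dif_neg hi, h0 i hi, map_zero, sub_zero]
      exact zero_mem _

end basic

/-- The product as a soft complex over a base. -/
def SPi [Finite Λ] {B : Type} [TopologicalSpace B] [T2Space B] (P : Λ → Prop)
    (π : ∀ i, C(X i, B)) : SC B (∀ i, AS (X i)) where
  d := LinearMap.pi fun i => AS.d ∘ₗ LinearMap.proj i
  G := (CPi P (fun i => (∅ : Set (X i))) fun _ => ∅).G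
  z t := Submodule.pi univ fun i => ((AS.sc (X i)).push (π i)).z t
  dG := (CPi P (fun i => (∅ : Set (X i))) fun _ => ∅).dG
  dz t c hc i _ := ((AS.sc (X i)).push (π i)).dz t _ (hc i trivial)
  dd t c i _ := ((AS.sc (X i)).push (π i)).dd t (c i)
  neg := ⟨0, fun n hn c hc => funext fun i => by
    by_cases hi : P i
    · refine AS.ext fun l => ?_
      cases l with
      | nil => simp
      | cons a l => exact AS.mem_G.1 ((hc i).1 hi).1 _ (by simp; omega)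
    · exact (hc i).2 hi⟩
  opn c := by
    have e : {t | c ∈ Submodule.pi univ fun i => ((AS.sc (X i)).push (π i)).z t} =
        ⋂ i, {t | c i ∈ ((AS.sc (X i)).push (π i)).z t} := by
      ext t
      simp [Submodule.mem_pi]
    rw [e]
    exact isOpen_iInter_of_finite fun i => ((AS.sc (X i)).push (π i)).opn (c i)
  glue K₁ K₂ h₁ h₂ n a ha h := by
    have h0 : ∀ i, ∃ c : AS (X i), ((P i → c ∈ (CP (∅ : Set (X i)) ∅).G n) ∧ (¬P i → c = 0)) ∧
        (∀ t ∈ K₁, c - a i ∈ ((AS.sc (X i)).push (π i)).z t) ∧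
        ∀ t ∈ K₂, c ∈ ((AS.sc (X i)).push (π i)).z t := by
      intro i
      by_cases hi : P i
      · obtain ⟨c, hc, e⟩ := ((AS.sc (X i)).push (π i)).glue K₁ K₂ h₁ h₂ n (a i) ((ha i).1 hi).1
          fun t ht => h t ht i trivial
        exact ⟨c, ⟨fun _ => ⟨hc, (AS.sc (X i)).mem_zz.2 fun _ e => e.elim⟩, fun e => (e hi).elim⟩, e⟩
      · refine ⟨0, ⟨fun _ => zero_mem _, fun _ => rfl⟩, fun t _ => ?_, fun t _ => zero_mem _⟩
        rw [(ha i).2 hi, sub_zero]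
        exact zero_mem _
    choose c hc e₁ e₂ using h0
    exact ⟨c, hc, fun t ht i _ => e₁ i t ht, fun t ht i _ => e₂ i t ht⟩

theorem SPi.mem_zz [Finite Λ] {B : Type} [TopologicalSpace B] [T2Space B] {P : Λ → Prop}
    {π : ∀ i, C(X i, B)} {K : Set B} {c : ∀ i, AS (X i)} :
    c ∈ (SPi P π).zz K ↔ ∀ i, c i ∈ (AS.sc (X i)).zz (π i ⁻¹' K) := by
  rw [SC.mem_zz]
  refine ⟨fun h i => ?_, fun h t ht i _ => ?_⟩
  · rw [← SC.push_zz, SC.mem_zz]
    exact fun t ht => h t ht i trivial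
  · have h1 := h i
    rw [← SC.push_zz, SC.mem_zz] at h1
    exact h1 t ht

theorem SPi.cx_eq [Finite Λ] {B : Type} [TopologicalSpace B] [T2Space B] (P : Λ → Prop)
    (π : ∀ i, C(X i, B)) (K A : Set B) :
    (SPi P π).cx K A = CPi P (fun i => π i ⁻¹' K) fun i => π i ⁻¹' A := by
  refine Cx.ext_YA2 rfl (funext fun n => Submodule.ext fun c => ?_)
    (Submodule.ext fun c => SPi.mem_zz.trans CPi.mem_N.symm)
  refine ⟨fun h i => ⟨fun hi => ⟨((h.1 i).1 hi).1, SPi.mem_zz.1 h.2 i⟩, (h.1 i).2⟩, fun h =>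
    ⟨fun i => ⟨fun hi => ⟨((h i).1 hi).1, (AS.sc (X i)).mem_zz.2 fun _ e => e.elim⟩, (h i).2⟩,
      SPi.mem_zz.2 fun i => ?_⟩⟩
  by_cases hi : P i
  · exact ((h i).1 hi).2
  · rw [(h i).2 hi]
    exact zero_mem _

/-- The representation `r` permutes the factors: it is given by maps of the spaces and scalars. -/
structure PAct {Γ : Type} [Group Γ] (r : Γ →* Module.End ℂ (∀ i, AS (X i))) where
  R : Γ → Λ → Λ → Prop
  a : ∀ {g i j}, R g i j → C(X i, X j)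
  s : Γ → Λ → ℂ
  ex : ∀ g i, ∃ j, R g i j
  eq : ∀ {g i j} (h : R g i j) c, r g⁻¹ c i = s g i • AS.pull (a h) (c j)

theorem zz_pull {Y Z : Type} [TopologicalSpace Y] [CompactSpace Y] [T2Space Y] [TopologicalSpace Z]
    [CompactSpace Z] [T2Space Z] (g : C(Y, Z)) {K : Set Y} {K' : Set Z} (h : MapsTo g K K')
    {φ : AS Z} (hφ : φ ∈ (AS.sc Z).zz K') : AS.pull g φ ∈ (AS.sc Y).zz K :=
  (AS.sc Y).mem_zz.2 fun _ ht =>
    AS.z_pull g.continuous.continuousAt ((AS.sc Z).mem_zz.1 hφ _ (h ht))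

theorem mor_pull {Y Z : Type} [TopologicalSpace Y] [CompactSpace Y] [T2Space Y] [TopologicalSpace Z]
    [CompactSpace Z] [T2Space Z] (g : C(Y, Z)) {K A : Set Y} {K' A' : Set Z} (h : MapsTo g K K')
    (h' : MapsTo g A A') : (CP K' A').Mor (CP K A) (AS.pl g) 0 :=
  ⟨fun n φ hφ => ⟨by rw [add_zero]; exact AS.pull_mem_G g hφ.1, zz_pull g h' hφ.2⟩,
    fun _ _ _ hφ => zz_pull g h hφ, fun _ φ _ => by
      show AS.pull g (AS.d φ) - AS.d (AS.pull g φ) ∈ _
      rw [AS.pull_d, sub_self]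
      exact zero_mem _⟩

namespace PAct
variable {Γ : Type} [Group Γ] {r : Γ →* Module.End ℂ (∀ i, AS (X i))} (ρ : PAct r)
  {P : Λ → Prop} {K A : ∀ i, Set (X i)}

/-- the action on a product complex -/
theorem act (hP : ∀ {g i j}, ρ.R g i j → (P i ↔ P j))
    (hK : ∀ {g i j} (h : ρ.R g i j), MapsTo (ρ.a h) (K i) (K j))
    (hA : ∀ {g i j} (h : ρ.R g i j), MapsTo (ρ.a h) (A i) (A j)) : (CPi P K A).Act r := by
  refine ⟨fun g c => funext fun i => ?_, fun g n c hc i => ?_, fun g c hc => CPi.mem_N.2 fun i => ?_⟩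
  all_goals
    obtain ⟨g, rfl⟩ := inv_surjective g
    obtain ⟨j, h⟩ := ρ.ex g i
  · rw [CPi.d_apply, ρ.eq h, ρ.eq h, CPi.d_apply, AS.pull_d, map_smul]
  · rw [ρ.eq h]
    refine ⟨fun hi => Submodule.smul_mem _ _ ?_, fun hi => ?_⟩
    · simpa using (mor_pull (ρ.a h) (hK h) (hA h)).fG n _ ((hc j).1 ((hP h).1 hi))
    · rw [(hc j).2 fun hj => hi ((hP h).2 hj), map_zero, smul_zero]
  · rw [ρ.eq h]
    exact Submodule.smul_mem _ _ (zz_pull (ρ.a h) (hK h) (CPi.mem_N.1 hc j))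

/-- the action on the soft complex over a base -/
theorem sact [Finite Λ] {B : Type} [TopologicalSpace B] [T2Space B] {π : ∀ i, C(X i, B)}
    (hP : ∀ {g i j}, ρ.R g i j → (P i ↔ P j))
    (hπ : ∀ {g i j} (h : ρ.R g i j) x, π j (ρ.a h x) = π i x) : (SPi P π).Act r := by
  have h0 := ρ.act (P := P) (K := fun _ => ∅) (A := fun _ => ∅) hP (fun _ => mapsTo_empty _ _)
    fun _ => mapsTo_empty _ _
  refine ⟨h0.d, h0.G, fun g t c hc i _ => ?_⟩
  obtain ⟨g, rfl⟩ := inv_surjective g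
  obtain ⟨j, h⟩ := ρ.ex g i
  rw [ρ.eq h]
  exact Submodule.smul_mem _ _ (zz_pull (ρ.a h) (fun x hx => (hπ h x).trans hx) (hc j trivial))

end PAct

end Pool.Agent.CS
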