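import Pool.Agent.P.MP_d34769_ag.YO0
import Pool.Agent.P.MP_d34769_ag.YSC

/-! Invariant cochains are determined on a fundamental set. -/

open Set Topology

set_option linter.unusedSectionVars false

noncomputable section
namespace Pool.Agent.CS

/-- excision -/
theorem exc_YO {Y Z : Type} [TopologicalSpace Y] [CompactSpace Y] [T2Space Y] [TopologicalSpace Z]
    [CompactSpace Z] [T2Space Z] (g : C(Y, Z)) {K A : Set Z} (hK : IsClosed K) (hA : IsClosed A)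
    (h : ∀ t ∈ K \ A, ∃! y, g y = t) : (CP K A).QIa (CP (g ⁻¹' K) (g ⁻¹' A)) (AS.pl g) 0 := by
  have hm : (AS.sc Z).Mor ((AS.sc Y).push g) (AS.pl g) 0 :=
    ⟨fun n φ hφ => by rw [add_zero]; exact AS.pull_mem_G g hφ,
      fun t φ hφ => (AS.sc Y).mem_zz.2 fun y hy =>
        AS.z_pull g.continuous.continuousAt (by rw [show g y = t from hy]; exact hφ),
      fun t φ => by
        show AS.pull g (AS.d φ) - AS.d (AS.pull g φ) ∈ _
        rw [AS.pull_d, sub_self]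
        exact zero_mem _⟩
  have h1 := SC.soft_qia hm hK hA fun t ht => by
    obtain ⟨y, rfl, hy⟩ := h t ht
    have e : g ⁻¹' {g y} = {y} := Set.ext fun u => ⟨fun hu => hy u hu, fun hu => by
      rw [mem_singleton_iff.1 hu]; rfl⟩
    rw [SC.push_cx, e]
    exact AS.stalk_qia g y
  rwa [SC.push_cx] at h1

/-- tautness: an injective map onto a closed set -/
theorem taut_YO {Y Z : Type} [TopologicalSpace Y] [CompactSpace Y] [T2Space Y] [TopologicalSpace Z]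
    [CompactSpace Z] [T2Space Z] (g : C(Y, Z)) (hg : Function.Injective g) :
    (CP (range g) ∅).QIa (CC Y) (AS.pl g) 0 := by
  have h := exc_YO g (isCompact_range g.continuous).isClosed isClosed_empty fun t ht => by
    obtain ⟨y, rfl⟩ := ht.1
    exact ⟨y, rfl, fun u hu => hg hu⟩
  rwa [preimage_range] at h

variable {Λ : Type} {X : Λ → Type} [∀ i, TopologicalSpace (X i)] [∀ i, CompactSpace (X i)]
  [∀ i, T2Space (X i)]

namespace PAct
variable {Γ : Type} [Group Γ] {r : Γ →* Module.End ℂ (∀ i, AS (X i))} (ρ : PAct r)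
  {P : Λ → Prop} {F : ∀ i, Set (X i)} {i₀ : Λ} {K : Set (X i₀)}

/-- `K ⊆ F i₀` is a fundamental set for the family `F`. -/
structure Fund (P : Λ → Prop) (F : ∀ i, Set (X i)) {i₀ : Λ} (K : Set (X i₀)) : Prop where
  p : P i₀
  cl : IsClosed K
  ne : K.Nonempty
  sub : K ⊆ F i₀
  cov : ∀ i, P i → ∀ x ∈ F i, ∃ g, ∃ h : ρ.R g i i₀, ρ.a h x ∈ K
  dis : ∀ g (h : ρ.R g i₀ i₀), MapsTo (ρ.a h) K K ∨ ∀ x ∈ K, ρ.a h x ∉ K

variable {ρ}

theorem fix_eq {c : ∀ i, AS (X i)} (hc : c ∈ Fix r) {g : Γ} {i j : Λ} (h : ρ.R g i j) :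
    c i = ρ.s g i • AS.pull (ρ.a h) (c j) := by
  rw [← ρ.eq h, mem_Fix.1 hc]

theorem Fund.null (hK : ρ.Fund P F K) {c : ∀ i, AS (X i)} (hc : c ∈ Fix r)
    (h0 : ∀ i, ¬P i → c i = 0) (h : c i₀ ∈ (AS.sc _).zz K) : c ∈ (CPi P F fun _ => ∅).N := by
  refine CPi.mem_N.2 fun i => ?_
  by_cases hi : P i
  · refine (AS.sc _).mem_zz.2 fun x hx => ?_
    obtain ⟨g, e, hg⟩ := hK.cov i hi x hx
    rw [fix_eq hc e]
    exact Submodule.smul_mem _ _
      (AS.z_pull (ρ.a e).continuous.continuousAt ((AS.sc _).mem_zz.1 h _ hg))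
  · rw [h0 i hi]
    exact zero_mem _

variable [Fintype Γ]

open Classical in
/-- the elements that keep `K` -/
def keep (ρ : PAct r) {i₀ : Λ} (K : Set (X i₀)) : Finset Γ :=
  Finset.univ.filter fun g => ∃ h : ρ.R g i₀ i₀, MapsTo (ρ.a h) K K

theorem mem_keep {g : Γ} : g ∈ ρ.keep K ↔ ∃ h : ρ.R g i₀ i₀, MapsTo (ρ.a h) K K := by
  simp [keep]

theorem Fund.card_ne (hK : ρ.Fund P F K) : ((ρ.keep K).card : ℂ) ≠ 0 := by
  obtain ⟨x, hx⟩ := hK.ne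
  obtain ⟨g, e, hg⟩ := hK.cov i₀ hK.p x (hK.sub hx)
  refine Nat.cast_ne_zero.2 (Finset.card_ne_zero.2 ⟨g, mem_keep.2 ⟨e, ?_⟩⟩)
  exact (hK.dis g e).resolve_right fun h => h x hx hg

open Classical in
/-- the sum of the translates -/
def tr (ρ : PAct r) {i₀ : Λ} (K : Set (X i₀)) : Module.End ℂ (AS (X i₀)) :=
  ∑ g ∈ ρ.keep K, LinearMap.proj i₀ ∘ₗ r g⁻¹ ∘ₗ LinearMap.single ℂ (fun i => AS (X i)) i₀

theorem tr_mem {U : Submodule ℂ (AS (X i₀))} {a b : AS (X i₀)}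
    (h : ∀ g (e : ρ.R g i₀ i₀), MapsTo (ρ.a e) K K → ρ.s g i₀ • AS.pull (ρ.a e) b - a ∈ U) :
    ρ.tr K b - ((ρ.keep K).card : ℂ) • a ∈ U := by
  classical
  rw [tr, LinearMap.sum_apply, Nat.cast_smul_eq_nsmul, ← Finset.sum_const, ← Finset.sum_sub_distrib]
  refine U.sum_mem fun g hg => ?_
  obtain ⟨e, he⟩ := mem_keep.1 hg
  have := h g e he
  simpa [ρ.eq e] using this

theorem tr_d (b : AS (X i₀)) : ρ.tr K (AS.d b) = AS.d (ρ.tr K b) := by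
  classical
  rw [tr, LinearMap.sum_apply, LinearMap.sum_apply, map_sum]
  refine Finset.sum_congr rfl fun g hg => ?_
  obtain ⟨e, -⟩ := mem_keep.1 hg
  simp [ρ.eq e, AS.pull_d]

theorem tr_zz {b : AS (X i₀)} (h : b ∈ (AS.sc _).zz K) : ρ.tr K b ∈ (AS.sc _).zz K := by
  have := tr_mem (ρ := ρ) (K := K) (a := 0) (b := b) fun g e he => by
    rw [sub_zero]
    exact Submodule.smul_mem _ _ (zz_pull _ he h)
  rwa [smul_zero, sub_zero] at this

/-- an invariant cochain with prescribed germ along the fundamental set -/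
theorem Fund.lift (hK : ρ.Fund P F K) (ha : (CPi P F fun _ => ∅).Act r) {n : ℤ} {b : AS (X i₀)}
    (hb : b ∈ AS.G (X i₀) n) :
    ∃ c ∈ ha.inv.G n, c i₀ - ρ.tr K b ∈ (AS.sc _).zz K := by
  classical
  have hc : IsClosed (⋃ g, ⋃ e : ρ.R g i₀ i₀, ⋃ _ : ¬MapsTo (ρ.a e) K K, ρ.a e '' K) :=
    isClosed_iUnion_of_finite fun g => isClosed_iUnion_of_finite fun e =>
      isClosed_iUnion_of_finite fun _ => (hK.cl.isCompact.image (ρ.a e).continuous).isClosed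
  obtain ⟨b', hb', e₁, e₂⟩ := (AS.sc (X i₀)).glue K _ hK.cl hc n b hb (by
    rintro t ⟨ht, ht'⟩
    simp only [mem_iUnion] at ht'
    obtain ⟨g, e, he, x, hx, rfl⟩ := ht'
    exact (((hK.dis g e).resolve_left he) x hx ht).elim)
  have h1 : Pi.single i₀ b' ∈ (CPi P F fun _ => ∅).G n := CPi.mem_G.2 fun i => by
    by_cases hi : i = i₀
    · subst hi
      rw [Pi.single_eq_same]
      exact ⟨fun _ => AS.mem_cp_G.2 ⟨hb', fun _ e => e.elim⟩, fun h => (h hK.p).elim⟩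
    · rw [Pi.single_eq_of_ne hi]
      exact ⟨fun _ => zero_mem _, fun _ => rfl⟩
  refine ⟨∑ g, r g⁻¹ (Pi.single i₀ b'), ⟨Submodule.sum_mem _ fun g _ => ha.G _ n _ h1,
    mem_Fix.2 fun k => ?_⟩, ?_⟩
  · rw [map_sum]
    refine Fintype.sum_equiv (Equiv.mulRight k⁻¹) _ _ fun g => ?_
    simp
  · have e : (∑ g, r g⁻¹ (Pi.single i₀ b')) i₀ - ρ.tr K b =
        ∑ g ∈ (ρ.keep K)ᶜ, r g⁻¹ (Pi.single i₀ b') i₀ + ρ.tr K (b' - b) := by
      rw [Finset.sum_apply, ← Finset.sum_compl_add_sum (ρ.keep K), map_sub, add_sub_assoc]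
      congr 2
      rw [tr, LinearMap.sum_apply]
      rfl
    rw [e]
    refine add_mem (Submodule.sum_mem _ fun g hg => ?_) (tr_zz ((AS.sc _).mem_zz.2 e₁))
    obtain ⟨j, h⟩ := ρ.ex g i₀
    rw [ρ.eq h]
    by_cases hj : j = i₀
    · subst hj
      rw [Pi.single_eq_same]
      refine Submodule.smul_mem _ _ (zz_pull _ (fun x hx => ?_) ((AS.sc _).mem_zz.2 e₂))
      simp only [mem_iUnion]
      exact ⟨g, h, fun hm => Finset.mem_compl.1 hg (mem_keep.2 ⟨h, hm⟩), x, hx, rfl⟩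
    · rw [Pi.single_eq_of_ne hj, map_zero, smul_zero]
      exact zero_mem _

/-- an invariant cocycle that bounds along the fundamental set bounds -/
theorem Fund.inj (hK : ρ.Fund P F K) (ha : (CPi P F fun _ => ∅).Act r) {n : ℤ} {c : ∀ i, AS (X i)}
    (hc : c ∈ ha.inv.G n) (h : c i₀ ∈ (CP K ∅).B n) : c ∈ ha.inv.B n := by
  obtain ⟨b, hb, e⟩ := Cx.mem_B.1 h
  obtain ⟨u, hu, e'⟩ := hK.lift ha hb.1
  refine (Submodule.smul_mem_iff _ hK.card_ne).1 (Cx.mem_B.2 ⟨u, hu, hK.null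
    (sub_mem (Submodule.smul_mem _ _ hc.2) (ha.fix_d u hu.2)) (fun i hi => ?_) ?_⟩)
  · show ((ρ.keep K).card : ℂ) • c i - AS.d (u i) = 0
    rw [(hc.1 i).2 hi, (hu.1 i).2 hi, map_zero, smul_zero, sub_zero]
  · have h1 : ρ.tr K (c i₀) - ((ρ.keep K).card : ℂ) • c i₀ ∈ (AS.sc _).zz K :=
      tr_mem fun g e _ => by rw [← fix_eq hc.2 e, sub_self]; exact zero_mem _
    have h2 := tr_zz (ρ := ρ) (K := K) (b := c i₀ - AS.d b) e
    have h3 := SC.zz_d K _ e'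
    rw [map_sub, tr_d] at h2
    refine Cx.meq (sub_mem (sub_mem h2 h1) h3) ?_
    show _ - AS.d _ = ((ρ.keep K).card : ℂ) • c i₀ - AS.d (u i₀)
    rw [map_sub]
    abel

/-- an invariant class along the fundamental set comes from an invariant cocycle -/
theorem Fund.sur (hK : ρ.Fund P F K) (ha : (CPi P F fun _ => ∅).Act r) {n : ℤ} {x : AS (X i₀)}
    (hx : x ∈ (CP K ∅).Z n) (h : ∀ g (e : ρ.R g i₀ i₀), MapsTo (ρ.a e) K K →
      ρ.s g i₀ • AS.pull (ρ.a e) x - x ∈ (CP K ∅).B n) :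
    ∃ c ∈ ha.inv.Z n, x - c i₀ ∈ (CP K ∅).B n := by
  obtain ⟨u, hu, e⟩ := hK.lift ha hx.1.1
  refine ⟨((ρ.keep K).card : ℂ)⁻¹ • u, Submodule.smul_mem _ _ (Cx.mem_Z.2 ⟨hu,
    hK.null (ha.fix_d u hu.2) (fun i hi => ?_) ?_⟩), ?_⟩
  · show AS.d (u i) = 0
    rw [(hu.1 i).2 hi, map_zero]
  · have h2 := tr_zz (ρ := ρ) (K := K) (b := AS.d x) hx.2
    have h3 := SC.zz_d K _ e
    rw [tr_d] at h2
    refine Cx.meq (add_mem h3 h2) ?_
    show AS.d _ + _ = AS.d (u i₀)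
    rw [map_sub]
    abel
  · refine (Submodule.smul_mem_iff _ hK.card_ne).1 ?_
    rw [Pi.smul_apply, smul_sub, smul_inv_smul₀ hK.card_ne]
    refine Cx.meq (neg_mem (add_mem (tr_mem h) (Cx.N_le_B (C := CP K ∅) e))) ?_
    abel

/-- ORB: invariant cochains along `F` are the invariant cochains of a space `Y` that is embedded
as a fundamental set. -/
theorem orb {Y : Type} [TopologicalSpace Y] [CompactSpace Y] [T2Space Y] (ξ : C(Y, X i₀))
    (hξ : Function.Injective ξ) (hK : ρ.Fund P F (range ξ)) (ha : (CPi P F fun _ => ∅).Act r)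
    {H : Type} [Group H] [Fintype H] {r' : H →* Module.End ℂ (AS Y)} (ha' : (CC Y).Act r')
    (h1 : ∀ k, ∃ g, ∃ e : ρ.R g i₀ i₀, ∀ φ,
      r' k (AS.pull ξ φ) = ρ.s g i₀ • AS.pull ξ (AS.pull (ρ.a e) φ))
    (h2 : ∀ g (e : ρ.R g i₀ i₀), MapsTo (ρ.a e) (range ξ) (range ξ) → ∃ k, ∀ φ,
      r' k (AS.pull ξ φ) = ρ.s g i₀ • AS.pull ξ (AS.pull (ρ.a e) φ)) :
    ha.inv.Mor ha'.inv (AS.pl ξ ∘ₗ LinearMap.proj i₀) 0 ∧
      ha.inv.QIa ha'.inv (AS.pl ξ ∘ₗ LinearMap.proj i₀) 0 := by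
  have hm : (CP (F i₀) ∅).Mor (CC Y) (AS.pl ξ) 0 :=
    mor_pull ξ (fun y _ => hK.sub ⟨y, rfl⟩) (mapsTo_empty _ _)
  have hm' : (CP (range ξ) ∅).Mor (CC Y) (AS.pl ξ) 0 :=
    mor_pull ξ (fun y _ => ⟨y, rfl⟩) (mapsTo_empty _ _)
  have hq := taut_YO ξ hξ
  have hM : ha.inv.Mor ha'.inv (AS.pl ξ ∘ₗ LinearMap.proj i₀) 0 := by
    refine ⟨fun n c hc => ⟨hm.fG n _ ((hc.1 i₀).1 hK.p), mem_Fix.2 fun k => ?_⟩,
      fun n c hc hN => hm.fN n _ ((hc.1 i₀).1 hK.p) (hN i₀ trivial),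
      fun n c hc => hm.fd n _ ((hc.1 i₀).1 hK.p)⟩
    obtain ⟨g, e, he⟩ := h1 k
    show r' k (AS.pull ξ (c i₀)) = AS.pull ξ (c i₀)
    rw [he, ← map_smul, ← fix_eq hc.2 e]
  refine ⟨hM, Cx.qia_iff.2 fun n => ⟨fun c hc hb => hK.inj ha hc.1 (hq.inj n _ ?_ (ha'.ya3_le hb)),
    fun y hy => ?_⟩⟩
  · exact ⟨(hc.1.1 i₀).1 hK.p, SC.zz_anti hK.sub (hc.2 i₀ trivial)⟩
  · obtain ⟨x, hx, e⟩ := hq.sur n y ⟨hy.1.1, hy.2⟩
    obtain ⟨c, hc, e'⟩ := hK.sur ha hx fun g h hm => by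
      obtain ⟨k, hk⟩ := h2 g h hm
      have hz : ρ.s g i₀ • AS.pull (ρ.a h) x ∈ (CP (range ξ) ∅).Z n := Submodule.smul_mem _ _ (by
        simpa using (mor_pull (ρ.a h) hm (mapsTo_empty _ _)).mem_Z hx)
      refine hq.inj n _ (sub_mem hz hx) ?_
      have h3 := (ha'.mor k).mem_B (sub_mem hy.1.1 (hm'.fG n x hx.1)) e
      rw [map_sub, mem_Fix.1 hy.1.2 k, add_zero] at h3
      refine Cx.meq (sub_mem e h3) ?_
      show _ = AS.pull ξ (_ - x)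
      rw [map_sub, map_smul, ← hk]
      show y - AS.pull ξ x - (y - r' k (AS.pull ξ x)) = _
      abel
    refine ⟨c, hc, ?_⟩
    have h4 := hm'.mem_B (sub_mem hx.1 ((hc.1.1 i₀).1 hK.p)) e'
    have h5 : y - (AS.pl ξ ∘ₗ LinearMap.proj i₀) c ∈ (CC Y).B (n + 0 + 0) := by
      rw [add_zero (n + 0)]
      refine Cx.meq (add_mem e h4) ?_
      rw [map_sub]
      show _ = y - AS.pl ξ (c i₀)
      abel
    exact ha'.inj _ _ (sub_mem hy (hM.mem_Z hc)) h5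

end PAct

end Pool.Agent.CS
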