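import Pool.Agent.P.MP_d34769_ag.YO1

/-! Descent along finite families of maps, with a group that permutes the family. -/

open Set Topology

set_option linter.unusedSectionVars false

noncomputable section
namespace Pool.Agent.CS

theorem Cx.Act.inv_congr {Γ T : Type} [Group Γ] [AddCommGroup T] [Module ℂ T] {C C' : Cx T}
    {r : Γ →* Module.End ℂ T} (e : C = C') (h : C.Act r) (h' : C'.Act r) : h.inv = h'.inv := by
  subst e
  rfl

section one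
variable {Y : Type} [TopologicalSpace Y] [CompactSpace Y] [T2Space Y]

theorem mem_zz_empty (φ : AS Y) : φ ∈ (AS.sc Y).zz ∅ := (AS.sc Y).mem_zz.2 fun _ e => e.elim

theorem const_zero {K A : Set Y} {k : ℤ} {x : AS Y} {a : ℂ} (hx : x ∈ AS.G Y k) (hk : k ≠ 0)
    (h : x - a • 1 ∈ (CP K A).B k) (hK : K.Nonempty) : a = 0 := by
  obtain ⟨t, ht⟩ := hK
  obtain ⟨b, -, e⟩ := AS.mem_cp_B.1 h
  have h1 := AS.z_val (e t ht)
  have h2 : (AS.d b).1 [t] = 0 := by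
    show dA [t] b.1 = 0
    simp [dA]
  rw [AS.val_sub, AS.val_sub, h2, AS.mem_G.1 hx [t] (by simp; omega), AS.val_smul, AS.val_one] at h1
  simpa using h1

/-- bounding along two disjoint closed sets -/
theorem B_union {K K' : Set Y} (hK : IsClosed K) (hK' : IsClosed K') (h : Disjoint K K') {n : ℤ}
    {x : AS Y} (h1 : x ∈ (CP K ∅).B n) (h2 : x ∈ (CP K' ∅).B n) : x ∈ (CP (K ∪ K') ∅).B n := by
  obtain ⟨b, hb, e⟩ := AS.mem_cp_B.1 h1
  obtain ⟨b', hb', e'⟩ := AS.mem_cp_B.1 h2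
  obtain ⟨c, hc, e₁, e₂⟩ := (AS.sc Y).glue K K' hK hK' _ (b - b') (sub_mem hb.1 hb'.1)
    fun t ht => (h.ne_of_mem ht.1 ht.2 rfl).elim
  refine AS.mem_cp_B.2 ⟨b' + c, ⟨add_mem hb'.1 hc, fun _ e => e.elim⟩, fun t ht => ?_⟩
  rcases ht with ht | ht
  · refine Cx.meq (sub_mem (e t ht) ((AS.sc Y).dz t _ (e₁ t ht))) ?_
    show _ - AS.d _ = _
    simp only [map_sub, map_add]
    abel
  · refine Cx.meq (sub_mem (e' t ht) ((AS.sc Y).dz t _ (e₂ t ht))) ?_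
    show _ - AS.d _ = _
    simp only [map_add]
    abel

theorem B_iUnion {κ : Type} [Finite κ] {K : κ → Set Y} (hK : ∀ i, IsClosed (K i))
    (h : ∀ i j, K i = K j ∨ Disjoint (K i) (K j)) {n : ℤ} {x : AS Y}
    (hx : ∀ i, x ∈ (CP (K i) ∅).B n) : x ∈ (CP (⋃ i, K i) ∅).B n := by
  classical
  have key : ∀ s : Finset κ, x ∈ (CP (⋃ i ∈ s, K i) ∅).B n := by
    intro s
    induction s using Finset.induction_on with
    | empty => exact Cx.N_le_B (AS.mem_cp_N.2 (by simp))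
    | insert j s _ ih =>
      rw [Finset.set_biUnion_insert]
      by_cases e : ∃ i ∈ s, K j = K i
      · obtain ⟨i, hi, e⟩ := e
        rwa [union_eq_self_of_subset_left (e ▸ subset_biUnion_of_mem (u := K) hi)]
      · refine B_union (hK j) (isClosed_biUnion_finset fun i _ => hK i) ?_ (hx j) ih
        simp only [disjoint_iUnion_right]
        exact fun i hi => (h j i).resolve_left fun e' => e ⟨i, hi, e'⟩
  have := Fintype.ofFinite κ
  simpa using key Finset.univ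

/-- DISJ: a cocycle along a union of embedded compact spaces that are equal or disjoint -/
theorem disj_YO {κ : Type} [Finite κ] {Z : κ → Type} [∀ i, TopologicalSpace (Z i)]
    [∀ i, CompactSpace (Z i)] [∀ i, T2Space (Z i)] (g : ∀ i, C(Z i, Y))
    (hg : ∀ i, Function.Injective (g i))
    (h : ∀ i j, range (g i) = range (g j) ∨ Disjoint (range (g i)) (range (g j))) {K : Set Y}
    (hK : K = ⋃ i, range (g i)) {n : ℤ} {x : AS Y} (hx : x ∈ (CP K ∅).Z n)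
    (hb : ∀ i, AS.pull (g i) x ∈ (CC (Z i)).B n) : x ∈ (CP K ∅).B n := by
  subst hK
  refine B_iUnion (fun i => (isCompact_range (g i).continuous).isClosed) h fun i =>
    (taut_YO (g i) (hg i)).inj n x ⟨hx.1, SC.zz_anti (subset_iUnion (fun i => range (g i)) i) hx.2⟩ ?_
  rw [add_zero]
  exact hb i

end one

variable {ι Λ : Type} {Y : ι → Type} [∀ i, TopologicalSpace (Y i)] [∀ i, CompactSpace (Y i)]
  [∀ i, T2Space (Y i)] {X : Λ → Type} [∀ i, TopologicalSpace (X i)] [∀ i, CompactSpace (X i)]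
  [∀ i, T2Space (X i)]

theorem CPi.G_le_N {P : Λ → Prop} {K A : ∀ i, Set (X i)} (h : ∀ i, P i → K i = ∅) {n : ℤ}
    {c : ∀ i, AS (X i)} (hc : c ∈ (CPi P K A).G n) : c ∈ (CPi P K A).N := CPi.mem_N.2 fun i => by
  by_cases hi : P i
  · rw [h i hi]
    exact mem_zz_empty _
  · rw [(hc i).2 hi]
    exact zero_mem _

theorem SPi.cx_eq' [Finite Λ] {B : Type} [TopologicalSpace B] [T2Space B] (P : Λ → Prop)
    (π : ∀ i, C(X i, B)) (K : Set B) :
    (SPi P π).cx K ∅ = CPi P (fun i => π i ⁻¹' K) fun _ => ∅ := by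
  simp only [SPi.cx_eq, preimage_empty]

/-- A family of maps `X l → Y (τ l)` with the induced map `F` on cochains. -/
structure Cov (F : (∀ i, AS (Y i)) →ₗ[ℂ] ∀ l, AS (X l)) where
  τ : Λ → ι
  q : ∀ {l i}, τ l = i → C(X l, Y i)
  μ : Λ → ℂ
  ne : ∀ l, μ l ≠ 0
  eq : ∀ {l i} (e : τ l = i) c, F c l = μ l • AS.pull (q e) (c i)

namespace Cov
variable {F : (∀ i, AS (Y i)) →ₗ[ℂ] ∀ l, AS (X l)} (C : Cov F) {Γ : Type} [Group Γ]
  {r : Γ →* Module.End ℂ (∀ l, AS (X l))} (ρ : PAct r) {P : ι → Prop} {P' : Λ → Prop}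

theorem mor (hP : ∀ l, P' l ↔ P (C.τ l)) {K A : ∀ i, Set (Y i)} {K' A' : ∀ l, Set (X l)}
    (hK : ∀ l, MapsTo (C.q rfl) (K' l) (K (C.τ l))) (hA : ∀ l, MapsTo (C.q rfl) (A' l) (A (C.τ l))) :
    (CPi P K A).Mor (CPi P' K' A') F 0 := by
  refine ⟨fun n c hc l => ?_, fun n c _ hc => CPi.mem_N.2 fun l => ?_,
    fun n c _ => CPi.mem_N.2 fun l => ?_⟩
  · rw [C.eq rfl]
    refine ⟨fun h => Submodule.smul_mem _ _ ((mor_pull _ (hK l) (hA l)).fG n _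
      ((hc _).1 ((hP l).1 h))), fun h => ?_⟩
    rw [(hc _).2 fun e => h ((hP l).2 e), map_zero, smul_zero]
  · rw [C.eq rfl]
    exact Submodule.smul_mem _ _ (zz_pull _ (hK l) (hc _ trivial))
  · rw [Pi.sub_apply, CPi.d_apply, C.eq rfl, C.eq rfl, CPi.d_apply, AS.pull_d, map_smul, sub_self]
    exact zero_mem _

/-- the maps are invariant under the group -/
structure Inv : Prop where
  τ : ∀ {g l l'}, ρ.R g l l' → C.τ l = C.τ l'
  q : ∀ {g l l' i} (h : ρ.R g l l') (e : C.τ l = i) (e' : C.τ l' = i) x, C.q e' (ρ.a h x) = C.q e x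
  s : ∀ {g l l'}, ρ.R g l l' → ρ.s g l * C.μ l' = C.μ l

/-- The invariant cohomology of the fibre over `y` is that of a point. -/
def Fib (i : ι) (y : Y i) : Prop :=
  ∃ (l₀ : Λ) (e₀ : C.τ l₀ = i) (K₀ : Set (X l₀)), IsClosed K₀ ∧ K₀.Nonempty ∧
    (∀ x ∈ K₀, C.q e₀ x = y) ∧
    (∀ l (e : C.τ l = i) x, C.q e x = y → ∃ g, ∃ h : ρ.R g l l₀, ρ.a h x ∈ K₀) ∧
    (∀ g (h : ρ.R g l₀ l₀), MapsTo (ρ.a h) K₀ K₀ ∨ ∀ x ∈ K₀, ρ.a h x ∉ K₀) ∧
    ∀ k, ∀ x ∈ (CP K₀ ∅).Z k, (∀ g (h : ρ.R g l₀ l₀), AS.pull (ρ.a h) x = x) →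
      ∃ a : ℂ, x - a • 1 ∈ (CP K₀ ∅).B k

variable {C ρ}

theorem Inv.fix (h : C.Inv ρ) (c : ∀ i, AS (Y i)) : F c ∈ Fix r := by
  refine mem_Fix.2 fun g => funext fun l => ?_
  obtain ⟨g, rfl⟩ := inv_surjective g
  obtain ⟨l', e⟩ := ρ.ex g l
  rw [ρ.eq e, C.eq (h.τ e).symm, C.eq rfl, map_smul, smul_smul, h.s e, AS.pull_pull]
  congr 3
  exact funext (h.q e rfl (h.τ e).symm)

theorem Inv.mor (h : C.Inv ρ) (hP : ∀ l, P' l ↔ P (C.τ l)) {K A : ∀ i, Set (Y i)}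
    {K' A' : ∀ l, Set (X l)} (hK : ∀ l, MapsTo (C.q rfl) (K' l) (K (C.τ l)))
    (hA : ∀ l, MapsTo (C.q rfl) (A' l) (A (C.τ l))) (ha : (CPi P' K' A').Act r) :
    (CPi P K A).Mor ha.inv F 0 :=
  ⟨fun n c hc => ⟨(C.mor hP hK hA).fG n c hc, h.fix c⟩, (C.mor hP hK hA).fN, (C.mor hP hK hA).fd⟩

variable [Fintype Γ]

theorem Inv.stalk (h : C.Inv ρ) (hP : ∀ l, P' l ↔ P (C.τ l)) {i : ι} {y : Y i}
    (hy : P i → C.Fib ρ i y) {E : ∀ i, Set (Y i)} (hE : E i = {y}) (hE' : ∀ j, j ≠ i → E j = ∅)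
    {E' : ∀ l, Set (X l)} (hF : ∀ l, E' l = C.q rfl ⁻¹' E (C.τ l))
    (ha : (CPi P' E' fun _ => ∅).Act r) : (CPi P E fun _ => ∅).QIa ha.inv F 0 := by
  classical
  have hM := h.mor hP (K := E) (A := fun _ => ∅) (fun l x hx => by rwa [hF] at hx)
    (fun l => mapsTo_empty _ _) ha
  refine Cx.qia_iff.2 fun k => ?_
  by_cases hi : P i
  swap
  · refine ⟨Cx.Ac.inj fun c hc => Cx.N_le_B (CPi.G_le_N (fun j hj => hE' j fun e => hi (e ▸ hj)) hc.1),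
      Cx.Ac.sur fun c hc => Cx.N_le_B (CPi.G_le_N (fun l hl => ?_) hc.1.1)⟩
    rw [hF, hE' _ fun e => hi (e ▸ (hP l).1 hl), preimage_empty]
  obtain ⟨l₀, e₀, K₀, h1, h2, h3, h4, h5, h6⟩ := hy hi
  have hmem : ∀ l x, x ∈ E' l ↔ ∃ e : C.τ l = i, C.q e x = y := by
    intro l x
    rw [hF, mem_preimage]
    by_cases e : C.τ l = i
    · subst e
      rw [hE]
      exact ⟨fun h => ⟨rfl, h⟩, fun h => h.2⟩
    · rw [hE' _ e]
      exact ⟨fun h => h.elim, fun h => (e h.1).elim⟩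
  have hK : ρ.Fund P' E' K₀ := ⟨(hP l₀).2 (e₀ ▸ hi), h1, h2, fun x hx => (hmem _ x).2 ⟨e₀, h3 x hx⟩,
    fun l _ x hx => by
      obtain ⟨e, he⟩ := (hmem l x).1 hx
      exact h4 l e x he, h5⟩
  constructor
  · intro c hc hb
    refine (CPi.mem_B fun j => (hc.1 j).2).2 fun j hj => ?_
    by_cases e : j = i
    · subst e
      have h7 := CPi.Z_comp hc hj
      rw [hE] at h7 ⊢
      obtain ⟨x, hx⟩ := h2
      have h8 := CPi.B_comp (ha.ya3_le hb) l₀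
      rw [C.eq e₀, Submodule.smul_mem_iff _ (C.ne l₀)] at h8
      rw [← h3 x hx] at h7 ⊢
      refine (AS.stalk_qia (C.q e₀) x).inj k _ h7 ?_
      obtain ⟨b, hb, e⟩ := AS.mem_cp_B.1 h8
      exact AS.mem_cp_B.2 ⟨b, hb, fun t ht => e t (hK.sub (by rwa [mem_singleton_iff.1 ht]))⟩
    · rw [hE' j e]
      exact Cx.N_le_B (mem_zz_empty _)
  · intro c hc
    rw [add_zero] at hc ⊢
    have h7 : c l₀ ∈ (CP K₀ ∅).Z k := ⟨(hc.1.1 l₀).1 hK.p, SC.zz_anti hK.sub (hc.2 l₀ trivial)⟩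
    obtain ⟨a, e⟩ := h6 k _ h7 fun g e => by
      have h8 := PAct.fix_eq hc.1.2 e
      rw [mul_left_eq_self₀.1 (h.s e) |>.resolve_right (C.ne l₀), one_smul] at h8
      exact h8.symm
    have h9 : Pi.single i (((C.μ l₀)⁻¹ * a) • (1 : AS (Y i))) ∈ (CPi P E fun _ => ∅).Z k := by
      by_cases hk : k = 0
      · subst hk
        refine CPi.mem_Z.2 fun j => ?_
        by_cases e : j = i
        · subst e
          rw [Pi.single_eq_same]
          exact ⟨fun _ => Submodule.smul_mem _ _ AS.one_mem_Z, fun h => (h hi).elim⟩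
        · rw [Pi.single_eq_of_ne e]
          exact ⟨fun _ => zero_mem _, fun _ => rfl⟩
      · rw [const_zero h7.1.1 hk e h2, mul_zero, zero_smul, Pi.single_zero]
        exact zero_mem _
    refine ⟨_, h9, hK.inj ha (sub_mem hc.1 (by simpa using hM.fG k _ h9.1)) ?_⟩
    rwa [Pi.sub_apply, C.eq e₀, Pi.single_eq_same, map_smul, map_one, smul_smul,
      mul_inv_cancel_left₀ (C.ne l₀)]

/-- DESC -/
theorem Inv.desc [Finite ι] [Finite Λ] (h : C.Inv ρ) (hP : ∀ l, P' l ↔ P (C.τ l))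
    {K A : ∀ i, Set (Y i)} (hK : ∀ i, IsClosed (K i)) (hA : ∀ i, IsClosed (A i))
    {K' A' : ∀ l, Set (X l)} (hK' : ∀ l, K' l = C.q rfl ⁻¹' K (C.τ l))
    (hA' : ∀ l, A' l = C.q rfl ⁻¹' A (C.τ l)) (hf : ∀ i, P i → ∀ y ∈ K i \ A i, C.Fib ρ i y)
    (ha : (CPi P' K' A').Act r) : (CPi P K A).QIa ha.inv F 0 := by
  obtain ⟨π, hπ⟩ : ∃ π : ∀ i, C(Y i, Σ i, Y i), ∀ i y, π i y = ⟨i, y⟩ :=
    ⟨fun i => ⟨Sigma.mk i, continuous_sigmaMk⟩, fun _ _ => rfl⟩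
  obtain ⟨π', hπ'⟩ : ∃ π' : ∀ l, C(X l, Σ i, Y i),
      ∀ {l i} (e : C.τ l = i) x, π' l x = π i (C.q e x) :=
    ⟨fun l => (π (C.τ l)).comp (C.q rfl), fun e x => by subst e; rfl⟩
  have hpre : ∀ (V : Set (Σ i, Y i)) l, π' l ⁻¹' V = C.q rfl ⁻¹' (π (C.τ l) ⁻¹' V) := fun V l =>
    Set.ext fun x => by rw [mem_preimage, hπ' rfl]; rfl
  have hs : (SPi P' π').Act r := ρ.sact
    (fun e => by rw [hP, hP, h.τ e]) fun e x => by rw [hπ' (h.τ e).symm, h.q e rfl, hπ' rfl]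
  have h0 := C.mor hP (K := fun _ => ∅) (A := fun _ => ∅) (K' := fun _ => ∅) (A' := fun _ => ∅)
    (fun _ => mapsTo_empty _ _) fun _ => mapsTo_empty _ _
  have hm : (SPi P π).Mor hs.inv F 0 := by
    refine ⟨fun n c hc => ?_, fun t c hc l _ => ?_, fun t c l _ => ?_⟩
    · rw [SC.Act.inv_G]
      exact ⟨h0.fG n c hc, h.fix c⟩
    · rw [C.eq rfl]
      exact Submodule.smul_mem _ _ (zz_pull _ (hpre {t} l).subset (hc _ trivial))
    · have e : F ((SPi P π).d c) l - AS.d (F c l) = 0 := by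
        rw [C.eq rfl, C.eq rfl, map_smul, ← AS.pull_d]
        exact sub_self _
      exact Cx.meq (zero_mem _) e.symm
  have hst : ∀ i (y : Y i), y ∈ K i \ A i →
      ((SPi P π).cx {⟨i, y⟩} ∅).QIa (hs.inv.cx {⟨i, y⟩} ∅) F 0 := by
    intro i y ht
    have e := SPi.cx_eq' P' π' {⟨i, y⟩}
    have ha' : (CPi P' (fun l => π' l ⁻¹' {⟨i, y⟩}) fun _ => ∅).Act r := by
      have h1 := hs.cx {⟨i, y⟩} ∅
      rwa [e] at h1
    have e1 : hs.inv.cx {⟨i, y⟩} ∅ = ha'.inv := (hs.inv_cx _ _).trans (Cx.Act.inv_congr e _ ha')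
    have h2 : π i ⁻¹' {⟨i, y⟩} = {y} := Set.ext fun u => by
      rw [mem_preimage, hπ]
      exact ⟨fun hu => sigma_mk_injective hu, fun hu => congrArg (Sigma.mk i) hu⟩
    have h3 : ∀ j, j ≠ i → π j ⁻¹' {⟨i, y⟩} = ∅ := fun j hj =>
      eq_empty_of_forall_notMem fun u hu => by
        rw [mem_preimage, hπ] at hu
        exact hj (congrArg Sigma.fst hu)
    have h4 := h.stalk hP (E := fun j => π j ⁻¹' {⟨i, y⟩}) (fun hi => hf i hi y ht) h2 h3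
      (hpre _) ha'
    rw [e1, SPi.cx_eq']
    exact h4
  have key := SC.soft_qia hm (K := {t : Σ i, Y i | t.2 ∈ K t.1}) (A := {t : Σ i, Y i | t.2 ∈ A t.1})
    (isClosed_sigma_iff.2 hK) (isClosed_sigma_iff.2 hA) fun t ht => hst t.1 t.2 ht
  have h5 : ∀ V : ∀ i, Set (Y i), (fun i => π i ⁻¹' {t : Σ i, Y i | t.2 ∈ V t.1}) = V :=
    fun V => funext fun i => Set.ext fun u => by rw [mem_preimage, hπ]; rfl
  have e0 : (SPi P' π').cx {t : Σ i, Y i | t.2 ∈ K t.1} {t : Σ i, Y i | t.2 ∈ A t.1} =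
      CPi P' K' A' := by
    rw [SPi.cx_eq]
    congr 1 <;> funext l
    · rw [hpre, hK', congrFun (h5 K)]
    · rw [hpre, hA', congrFun (h5 A)]
  rw [(hs.inv_cx _ _).trans (Cx.Act.inv_congr e0 _ ha), SPi.cx_eq, h5, h5] at key
  exact key

end Cov

end Pool.Agent.CS
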