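import Pool.Agent.P.MP_d34769_ag.YP1
import Pool.Agent.P.MP_d34769_ag.YP2

/-! The Kuenneth formula for products of diagrams. -/

open Set
open Pool.Agent.HT (BG)

noncomputable section
namespace Pool.Agent.CS

open Classical in
theorem mat_sum {ι κ : Type} [Fintype κ] {T : ι → Type} {T' : κ → Type} [∀ i, AddCommGroup (T i)]
    [∀ i, Module ℂ (T i)] [∀ i, AddCommGroup (T' i)] [∀ i, Module ℂ (T' i)] {R : ι → κ → Prop}
    (μ : ι → κ → ℤ) (g : ∀ {i j}, R i j → T' j →ₗ[ℂ] T i) (c : ∀ j, T' j) (i : ι) :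
    mat μ (@g) c i = ∑ j, (μ i j : ℂ) • if h : R i j then g h (c j) else 0 := by
  rw [mat_apply]
  refine Finset.sum_congr rfl fun j _ => ?_
  split_ifs
  exacts [rfl, (smul_zero _).symm]

theorem Sh.pow_ε (S : Sh) (x : ℂ) (f : ℕ → ℂ) (i j : S.ι) (h : ∀ n, f n = x * f (n + 1)) :
    (S.ε i j : ℂ) * f (S.deg j) = x * f (S.deg i) * S.ε i j := by
  by_cases e : S.ε i j = 0
  · simp [e]
  · rw [(S.sup i j e).2, ← h, mul_comm]

open Classical in
theorem kap_alg {S S' : Sh} {V : Type} [AddCommGroup V] [Module ℂ V] (a : ℕ)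
    (t : S.ι → S'.ι → V) (i : S.ι) (j : S'.ι) :
    ∑ k, ∑ l, ((((if j = l then S.ε i k else 0) +
      if i = k then (-1) ^ (S.deg i + a) * S'.ε j l else 0 : ℤ) : ℂ) *
        (-1) ^ ((S.deg k + a) * S'.deg l)) • t k l = (-1 : ℂ) ^ ((S.deg i + a) * S'.deg j) •
      (∑ l, (S'.ε j l : ℂ) • t i l + (-1 : ℂ) ^ S'.deg j • ∑ k, (S.ε i k : ℂ) • t k j) := by
  simp only [Int.cast_add, Int.cast_ite, Int.cast_zero, add_mul (ite _ _ _), ite_mul, zero_mul,
    add_smul, ite_smul, zero_smul, Finset.sum_add_distrib, Finset.sum_ite_eq, Finset.mem_univ,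
    if_true, Finset.sum_ite_irrel, Finset.sum_const_zero, smul_add, Finset.smul_sum, smul_smul]
  rw [add_comm]
  congr 1
  · refine Finset.sum_congr rfl fun l _ => congrArg (· • t i l) ?_
    have := S'.pow_ε ((-1) ^ (S.deg i + a)) (fun n => (-1) ^ ((S.deg i + a) * n)) j l fun n => by
      rw [mul_add, mul_one, pow_add _ (_ * n), mul_left_comm, ← mul_pow]; simp
    push_cast
    rw [mul_assoc, this, ← mul_assoc, ← mul_assoc, ← mul_pow]
    simp
  · refine Finset.sum_congr rfl fun k _ => congrArg (· • t k j) ?_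
    rw [S.pow_ε ((-1) ^ S'.deg j) (fun n => (-1) ^ ((n + a) * S'.deg j)) i k fun n => by
      rw [add_right_comm, add_mul (n + a), one_mul, pow_add, mul_left_comm, ← mul_pow]; simp]
    ring

namespace Dg
variable {S S' : Sh} {hS : S.Refl} {hS' : S'.Refl} {a : ℕ}

theorem Com.tot_d {P Q : Dg S} {g : ∀ i, C(P.X i, Q.X i)} (hg : Com g) (x : Q.T) :
    dpl g (Q.sys.tot.d x) = P.sys.tot.d (dpl g x) := by
  funext i
  have h := mat_op (μ := S.ε) (g := @Q.sys.pl) (g₂ := @P.sys.pl) (i := i) (c := x)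
    (c' := dpl g x) (AS.pl (g i)) fun k r _ => (AS.pull_pull _ _ _).trans
      ((congrArg (AS.pull · (x k)) (funext fun y => (hg r y).symm)).trans (AS.pull_pull _ _ _).symm)
  rw [Sys.tot_d, ← h]
  exact (map_add (AS.pull (g i)) _ _).trans (congrArg₂ _ (AS.pull_d _ _) (AS.pull_sg _ _))

/-- the map induced by a map of spaces -/
def lpm (Q : Dg S') {X X' : Type} [TopologicalSpace X] [CompactSpace X] [T2Space X]
    [TopologicalSpace X'] [CompactSpace X'] [T2Space X'] (f : C(X, X')) (j : S'.ι) :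
    C((Q.lp X).X j, (Q.lp X').X j) := f.prodMap (ContinuousMap.id _)

/-- the product as a system of total complexes -/
def sys2 (P : Dg S) (Q : Dg S') : Sys S fun i => (Q.lp (P.X i)).T where
  A i := (Q.lp (P.X i)).sys.tot
  pl h := dpl (Q.lpm (P.mp h))
  pd _ x := Com.tot_d (fun _ _ => rfl) x
  pe h n x := funext fun j => (congrArg (AS.pull _) (Sys.tr_apply _ n x j)).trans
    ((Gc.sh_map _ (f := AS.pl _) (AS.pull_e _) _ _ _).trans (Sys.tr_apply (Q.lp _).sys n (dpl (Q.lpm (P.mp h)) x) j).symm)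
  pp h h' x := funext fun j => (AS.pull_pull _ _ _).trans
    (congrArg (AS.pull · (x j)) (funext fun y => Prod.ext (P.comp h h' y.1) rfl))

variable {P : Dg S} {Q : Dg S'} {Γ : Type} [Group Γ]

theorem stab2 (A : P.Fam) (K : Q.Fam) :
    (P.sys2 Q).Stab fun i => (bc (Fam.lp (A.A i) K) ⊥).N where
  d _ := N_D (K₁ := ⊥) (A₁ := ⊥) _
  e _ n x hx := mem_N.2 fun j => Cx.meq
    (Gc.sh_mem _ ((Fam.stab _).e j) _ _ _ (mem_N.1 hx j)) (Sys.tr_apply (Q.lp _).sys n x j).symm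
  s _ _ hx := mem_N.2 fun j => Submodule.smul_mem _ _ ((Fam.stab _).s j _ (mem_N.1 hx j))
  pl h _ hx := mem_N.2 fun j => (AS.sc _).mem_zz.2 fun _ ht =>
    AS.z_pull (Q.lpm (P.mp h) j).continuous.continuousAt
      ((AS.sc _).mem_zz.1 (mem_N.1 hx j) _ ⟨A.mp h ht.1, ht.2⟩)

theorem Act.r_tr (G : Act Q Γ) (g : Γ) (n : ℕ) (x : Q.T) :
    G.r g (Q.sys.tot.e n x) = Q.sys.tot.e n (G.r g x) := by
  show G.r g (Q.sys.bg.tr n x) = Q.sys.bg.tr n _
  simp only [BG.tr, LinearMap.coe_sum, Finset.sum_apply, map_sum]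
  exact Finset.sum_congr rfl fun p _ => (G.act G.inv_top G.inv_bot).e g p _ x

theorem Act.r_d (G : Act Q Γ) (g : Γ) (x : Q.T) : G.r g (Q.sys.tot.d x) = Q.sys.tot.d (G.r g x) :=
  (G.act G.inv_top G.inv_bot).cx.d g x

theorem stab2' (G : Act Q Γ) (A : P.Fam) (K : Q.Fam) :
    (P.sys2 Q).Stab fun i => (bc (Fam.lp (A.A i) K) ⊥).N ⊓ Fix (G.lp (P.X i)).r where
  d i x hx := ⟨(stab2 A K).d i x hx.1, mem_Fix.2 fun g =>
    (Act.r_d _ g x).trans (congrArg _ (mem_Fix.1 hx.2 g))⟩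
  e i n x hx := ⟨(stab2 A K).e i n x hx.1, mem_Fix.2 fun g =>
    (Act.r_tr _ g n x).trans (congrArg _ (mem_Fix.1 hx.2 g))⟩
  s i x hx := ⟨(stab2 A K).s i x hx.1, mem_Fix.2 fun g =>
    (Gc.map_s (Act.r_tr _ g) x).trans (congrArg _ (mem_Fix.1 hx.2 g))⟩
  pl h x hx := ⟨(stab2 A K).pl h x hx.1, mem_Fix.2 fun g =>
    ((G.lp _).dpl_r (G.lp _) (Q.lpm (P.mp h)) rfl rfl (fun _ _ _ _ _ _ => rfl) g x).symm.trans
      (congrArg _ (mem_Fix.1 hx.2 g))⟩

variable (P Q hS hS' a) in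
/-- from the system of total complexes to the product -/
def kap : (∀ i, (Q.lp (P.X i)).T) →ₗ[ℂ] (P.prod Q hS hS' a).T :=
  LinearMap.pi fun p => (-1 : ℂ) ^ ((S.deg p.1 + a) * S'.deg p.2) •
    LinearMap.proj (φ := fun j => AS (P.X p.1 × Q.X j)) p.2 ∘ₗ
      LinearMap.proj (φ := fun i => ∀ j, AS (P.X i × Q.X j)) p.1

theorem kap_apply (w : ∀ i, (Q.lp (P.X i)).T) (i : S.ι) (j : S'.ι) :
    kap hS hS' a P Q w (i, j) = (-1 : ℂ) ^ ((S.deg i + a) * S'.deg j) • w i j := rfl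

theorem kap_mat (hP : P.Id) (hQ : Q.Id) (w : ∀ i j, AS (P.X i × Q.X j)) (i : S.ι) (j : S'.ι) :
    (mat (S.prod S' hS hS' a).ε (@(P.prod Q hS hS' a).sys.pl) (kap hS hS' a P Q w) (i, j) :
      AS (P.X i × Q.X j)) = (-1 : ℂ) ^ ((S.deg i + a) * S'.deg j) •
      (mat S'.ε (@(Q.lp (P.X i)).sys.pl) (w i) j +
        (-1 : ℂ) ^ S'.deg j • mat S.ε (@(P.sys2 Q).pl) w i j) := by
  classical
  obtain ⟨t, ht⟩ : ∃ t : S.ι → S'.ι → AS (P.X i × Q.X j), ∀ k l, t k l =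
      if h : S.rel i k ∧ S'.rel j l then AS.pull (Prod.map (P.mp h.1) (Q.mp h.2)) (w k l) else 0 :=
    ⟨_, fun _ _ => rfl⟩
  have h0 : (mat (S.prod S' hS hS' a).ε (@(P.prod Q hS hS' a).sys.pl) (kap hS hS' a P Q w) (i, j) :
      AS (P.X i × Q.X j)) = ∑ k, ∑ l, ((((if j = l then S.ε i k else 0) +
        if i = k then (-1) ^ (S.deg i + a) * S'.ε j l else 0 : ℤ) : ℂ) *
          (-1) ^ ((S.deg k + a) * S'.deg l)) • t k l := by
    refine (mat_sum _ _ _ _).trans ((Fintype.sum_prod_type (α₁ := S.ι) (α₂ := S'.ι) _).trans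
      (Finset.sum_congr rfl fun k _ => Finset.sum_congr rfl fun l _ => ?_))
    rw [ht, mul_smul]
    refine congrArg₂ _ (by congr!) ?_
    by_cases h : S.rel i k ∧ S'.rel j l
    · rw [dif_pos h]
      exact (dif_pos h).trans (map_smul (AS.pull (Prod.map (P.mp h.1) (Q.mp h.2))) _ (w k l))
    · rw [dif_neg h, smul_zero]
      exact dif_neg h
  have h1 : (mat S'.ε (@(Q.lp (P.X i)).sys.pl) (w i) j : AS (P.X i × Q.X j)) =
      ∑ l, (S'.ε j l : ℂ) • t i l := by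
    refine (mat_sum _ _ _ _).trans (Finset.sum_congr rfl fun l _ => congrArg _ ?_)
    rw [ht]
    by_cases h : S'.rel j l
    · rw [dif_pos h, dif_pos ⟨hS i, h⟩]
      exact congrArg (AS.pull · (w i l)) (funext fun y => Prod.ext (hP i _ y.1).symm rfl)
    · rw [dif_neg h, dif_neg fun e => h e.2]
      rfl
  have h2 : (mat S.ε (@(P.sys2 Q).pl) w i j : AS (P.X i × Q.X j)) = ∑ k, (S.ε i k : ℂ) • t k j := by
    refine (congrFun (mat_sum _ _ _ _) j).trans ((Finset.sum_apply _ _ _).trans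
      (Finset.sum_congr rfl fun k _ => ?_))
    rw [Pi.smul_apply, ht]
    refine congrArg (fun x : AS (P.X i × Q.X j) => (S.ε i k : ℂ) • x) ?_
    by_cases h : S.rel i k
    · rw [dif_pos h, dif_pos ⟨h, hS' j⟩]
      exact congrArg (AS.pull · (w k j)) (funext fun y => Prod.ext rfl (hQ j _ y.2).symm)
    · rw [dif_neg h, dif_neg fun e => h e.1]
      rfl
  exact h0.trans ((kap_alg a t i j).trans (congrArg₂ (fun x y : AS (P.X i × Q.X j) =>
    (-1 : ℂ) ^ ((S.deg i + a) * S'.deg j) • (x + (-1 : ℂ) ^ S'.deg j • y)) h1.symm h2.symm))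

theorem kap_d (hP : P.Id) (hQ : Q.Id) (w : ∀ i, (Q.lp (P.X i)).T) :
    kap hS hS' a P Q ((P.sys2 Q).tot.d w) = (P.prod Q hS hS' a).sys.tot.d (kap hS hS' a P Q w) := by
  funext ⟨i, j⟩
  have k : ∀ (c c' : ℂ) (x y z : AS (P.X i × Q.X j)),
      c • (AS.d x + (AS.gc _).s y + c' • (AS.gc _).s z) =
        AS.d (c • x) + (AS.gc _).s (c • (y + c' • z)) := fun c c' x y z => by
    rw [map_smul, map_smul, map_add, map_smul, add_assoc, smul_add]
  exact (k _ _ _ _ _).trans (congrArg (fun y => AS.d _ + (AS.gc (P.X i × Q.X j)).s y)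
    (kap_mat hP hQ w i j).symm)

theorem sgn_mem {V : Type} [AddCommGroup V] [Module ℂ V] {U : Submodule ℂ V} {n : ℕ} {x : V} :
    (-1 : ℂ) ^ n • x ∈ U ↔ x ∈ U := U.smul_mem_iff (pow_ne_zero _ (by norm_num))

theorem sgn_sgn' {V : Type} [AddCommGroup V] [Module ℂ V] (n : ℕ) (x : V) :
    (-1 : ℂ) ^ n • (-1 : ℂ) ^ n • x = x := by
  rw [smul_smul, ← mul_pow]; simp

theorem kap_N {A : P.Fam} {K : Q.Fam} {B : (P.prod Q hS hS' a).Fam} {w : ∀ i, (Q.lp (P.X i)).T} :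
    kap hS hS' a P Q w ∈ (bc (A.prod K) B).N ↔ ∀ i, w i ∈ (bc (Fam.lp (A.A i) K) ⊥).N := by
  simp only [mem_N]
  exact ⟨fun h i j => sgn_mem.1 (h (i, j)), fun h p => sgn_mem.2 (h p.1 p.2)⟩

theorem kap_fix (G : Act Q Γ) {w : ∀ i, (Q.lp (P.X i)).T} :
    kap hS hS' a P Q w ∈ Fix (G.rgt P hS hS' a).r ↔ ∀ i, w i ∈ Fix (G.lp (P.X i)).r := by
  rw [Act.mem_fix_rgt]
  simp only [Act.mem_fix]
  have key : ∀ g {j j'} (e : G.a g j = j') i, (kap hS hS' a P Q w (i, j) =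
      ((G.s g j : ℤ) : ℂ) • AS.pull (Prod.map id (G.t g e) : P.X i × Q.X j → P.X i × Q.X j')
        (kap hS hS' a P Q w (i, j'))) ↔ w i j = ((G.s g j : ℤ) : ℂ) •
          AS.pull (Prod.map id (G.t g e) : P.X i × Q.X j → P.X i × Q.X j') (w i j') := by
    intro g j j' e i
    rw [kap_apply, kap_apply, show S'.deg j' = S'.deg j from e ▸ G.deg g j]
    refine Iff.trans (iff_of_eq (congrArg _ ?_)) (smul_right_inj (pow_ne_zero _ (by norm_num)))
    exact (congrArg _ (map_smul _ _ _)).trans ((smul_smul _ _ _).trans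
      ((congrArg (· • _) (mul_comm _ _)).trans (smul_smul _ _ _).symm))
  exact ⟨fun h i g _ _ e => (key g e i).1 (h g e i), fun h g _ _ e i => (key g e i).2 (h i g e)⟩

theorem kap_iso (hP : P.Id) (hQ : Q.Id) (G : Act Q Γ) (K₁ A : P.Fam) {K : Q.Fam} (iK : G.Inv K) :
    Cx.Iso ((P.sys2 Q).bc (stab2' G A K) (stab2 K₁ K)).cx
      ((G.rgt P hS hS' a).bc (G.inv_rgt K₁ iK) (G.inv_rgt A iK)).cx (kap hS hS' a P Q) a where
  sur w := ⟨fun i j => (-1 : ℂ) ^ ((S.deg i + a) * S'.deg j) • w (i, j),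
    funext fun _ => sgn_sgn' _ _⟩
  d := kap_d hP hQ
  G n w := by
    have h : kap hS hS' a P Q w ∈ (P.prod Q hS hS' a).sys.tot.G (n + a) ↔
        w ∈ (P.sys2 Q).tot.G n := by
      simp only [Sys.mem_tot_G]
      refine ⟨fun h i => (Sys.mem_tot_G _).2 fun j => ?_, fun h p => sgn_mem.2 ?_⟩
      · have := sgn_mem.1 (h (i, j))
        rwa [show n + a - ((S.prod S' hS hS' a).deg (i, j) : ℕ) = n - S.deg i - S'.deg j by
          show _ - ((S.deg i + S'.deg j + a : ℕ) : ℤ) = _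
          push_cast; ring] at this
      · rw [show n + a - ((S.prod S' hS hS' a).deg p : ℕ) = n - S.deg p.1 - S'.deg p.2 by
          show _ - ((S.deg p.1 + S'.deg p.2 + a : ℕ) : ℤ) = _
          push_cast; ring]
        exact (Sys.mem_tot_G _).1 (h p.1) p.2
    rw [Sys.tot_G, Sys.tot_G] at h
    refine and_congr h ⟨fun e i _ => ⟨(kap_N (B := ⊥)).1 e.1 i, (kap_fix G).1 e.2 i⟩, fun e =>
      ⟨(kap_N (B := ⊥)).2 fun i => (e i trivial).1, (kap_fix G).2 fun i => (e i trivial).2⟩⟩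
  N w := (kap_N (B := ⊥)).trans ⟨fun h i _ => h i, fun h i => h i trivial⟩

end Dg

end Pool.Agent.CS
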