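import Pool.Agent.P.MP_d34769_ag.YP3

/-! The cross product and the Kuenneth formula. -/

open Set

noncomputable section
namespace Pool.Agent.CS

/-- the sum of shifted copies of a complex -/
def Cx.fs {T : Type} [AddCommGroup T] [Module ℂ T] (C : Cx T) (β : Type) (q : β → ℕ) :
    Cx (β →₀ T) where
  d := Finsupp.mapRange.linearMap C.d
  G n := ⨅ b, (C.G (n - q b)).comap (Finsupp.lapply b)
  N := fsub β C.N
  dG n x hx := (Submodule.mem_iInf _).2 fun b =>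
    Cx.Gcast (C.dG _ _ ((Submodule.mem_iInf _).1 hx b)) (by ring)
  dN x hx := mem_fsub.2 fun b => C.dN _ (mem_fsub.1 hx b)
  dd n x hx := mem_fsub.2 fun b => C.dd _ _ ((Submodule.mem_iInf _).1 hx b)

section fs
variable {T : Type} [AddCommGroup T] [Module ℂ T] {C : Cx T} {β : Type} {q : β → ℕ} {n : ℤ}
  {u : β →₀ T}

theorem Cx.mem_fs_G : u ∈ (C.fs β q).G n ↔ ∀ b, u b ∈ C.G (n - q b) := Submodule.mem_iInf _

theorem Cx.mem_fs_Z : u ∈ (C.fs β q).Z n ↔ ∀ b, u b ∈ C.Z (n - q b) :=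
  ⟨fun h b => ⟨Cx.mem_fs_G.1 h.1 b, mem_fsub.1 h.2 b⟩,
    fun h => ⟨Cx.mem_fs_G.2 fun b => (h b).1, mem_fsub.2 fun b => (h b).2⟩⟩

theorem Cx.fs_B (h : u ∈ (C.fs β q).B n) (b : β) : u b ∈ C.B (n - q b) := by
  obtain ⟨v, hv, e⟩ := Cx.mem_B.1 h
  exact Cx.mem_B.2 ⟨v b, Cx.Gcast (Cx.mem_fs_G.1 hv b) (by ring), mem_fsub.1 e b⟩

end fs

namespace Dg
variable {S S' : Sh} {hS : S.Refl} {hS' : S'.Refl} {a : ℕ} {P : Dg S} {Q : Dg S'}
  {Γ : Type} [Group Γ] {β : Type} {q : β → ℕ} {K₁ A : P.Fam} {K : Q.Fam}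

theorem mem_G_tot {n : ℤ} {x : P.T} :
    x ∈ (bc K₁ A).cx.G n ↔ x ∈ P.sys.tot.G n ∧ ∀ j, x j ∈ zz (A.A j) := by
  rw [Sys.tot_G, ← mem_U (K := K₁)]
  rfl

theorem mem_cN {x : P.T} : x ∈ (bc K₁ A).cx.N ↔ ∀ j, x j ∈ zz (K₁.A j) := mem_N (A := A)

theorem cross_eq (k : ℕ) (c : Q.T) (x : P.T) : cross P hS hS' a k c x =
    kap hS hS' a P Q fun i => (-1 : ℂ) ^ (k * S.deg i) • lcr c (x i) := by
  funext ⟨i, j⟩
  rw [cross_apply, pow_add, mul_comm, mul_smul]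
  rfl

theorem cross_add (k : ℕ) (c c' : Q.T) (x : P.T) :
    cross P hS hS' a k (c + c') x = cross P hS hS' a k c x + cross P hS hS' a k c' x := by
  funext ⟨i, j⟩
  have e : ∀ (s : ℂ) (y : AS (P.X i)) (z z' : AS (Q.X j)),
      s • AS.xp y (z + z') = s • AS.xp y z + s • AS.xp y z' := fun s y z z' => by
    rw [map_add, smul_add]
  exact e _ _ _ _

theorem cross_zero (k : ℕ) (x : P.T) : cross P hS hS' a k (0 : Q.T) x = 0 := by
  have := cross_add (hS := hS) (hS' := hS') (a := a) k (0 : Q.T) 0 x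
  rwa [add_zero, left_eq_add] at this

theorem cross_d (hP : P.Id) (hQ : Q.Id) {k : ℕ} {c : Q.T} (hc : c ∈ Q.sys.tot.G k) (x : P.T) :
    (P.prod Q hS hS' a).sys.tot.d (cross P hS hS' a k c x) =
      cross P hS hS' a k c (P.sys.tot.d x) +
        cross P hS hS' a (k + 1) (Q.sys.tot.d c) (P.sys.tot.s x) := by
  rw [cross_eq, cross_eq, cross_eq, ← kap_d hP hQ, ← map_add]
  refine congrArg _ (funext fun i => ?_)
  have h := mat_op (μ := S.ε) (g := @P.sys.pl) (g₂ := @(P.sys2 Q).pl) (i := i) (c := x)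
    (c' := fun i => (-1 : ℂ) ^ (k * S.deg i) • lcr c (x i))
    (((-1 : ℂ) ^ k * (-1) ^ (k * S.deg i)) • lcr c) fun l r e => by
      rw [map_smul, (S.sup i l e).2, mul_add, mul_one, pow_add, mul_left_comm, ← mul_pow,
        neg_one_mul, neg_neg, one_pow, mul_one, LinearMap.smul_apply]
      exact congrArg _ (funext fun j => (AS.xp_left _ _ _).symm)
  have e : ∀ y : AS (P.X i), lcr ((-1 : ℂ) ^ k • c) y = (-1 : ℂ) ^ k • lcr c y :=
    fun y => funext fun j => map_smul (AS.xp y) _ _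
  have key : ∀ y m : AS (P.X i),
      (Q.lp (P.X i)).sys.tot.d ((-1 : ℂ) ^ (k * S.deg i) • lcr c y) + (Q.lp (P.X i)).sys.tot.s
        (((-1 : ℂ) ^ k * (-1) ^ (k * S.deg i)) • lcr c m) =
      (-1 : ℂ) ^ (k * S.deg i) • lcr c (AS.d y + (AS.gc _).s m) + (-1 : ℂ) ^ ((k + 1) * S.deg i) •
        lcr (Q.sys.tot.d c) ((-1 : ℂ) ^ S.deg i • (AS.gc _).s y) := fun y m => by
    rw [map_smul, map_smul, lcr_d, lcr_s, Gc.s_of_G _ hc, e, map_add, map_smul, add_mul, one_mul,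
      pow_add, mul_smul ((-1 : ℂ) ^ (k * S.deg i)), sgn_sgn', mul_comm ((-1 : ℂ) ^ k), mul_smul,
      sgn_sgn', smul_add, smul_add, add_right_comm]
  rw [Sys.tot_d, ← h]
  exact key _ _

theorem cross_G {k : ℕ} {c : Q.T} (hc : c ∈ Q.sys.tot.G k) {n : ℤ} {x : P.T}
    (hx : x ∈ P.sys.tot.G n) :
    cross P hS hS' a k c x ∈ (P.prod Q hS hS' a).sys.tot.G (n + (k + a)) :=
  (Sys.mem_tot_G _).2 fun p => sgn_mem.2 (by
    have := AS.xp_G ((Sys.mem_tot_G _).1 hx p.1) ((Sys.mem_tot_G _).1 hc p.2)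
    rwa [show n - S.deg p.1 + (k - S'.deg p.2) = n + (k + a) - (S.deg p.1 + S'.deg p.2 + a : ℕ) by
      push_cast; ring] at this)

theorem cross_zz (k : ℕ) (c : Q.T) {x : P.T} (h : ∀ i, x i ∈ zz (A.A i)) (L : Q.Fam)
    (p : (S.prod S' hS hS' a).ι) :
    cross P hS hS' a k c x p ∈ zz ((A.prod L : (P.prod Q hS hS' a).Fam).A p) :=
  sgn_mem.2 (AS.xp_zz (h p.1) _ _)

theorem cross_zz' (k : ℕ) {c : Q.T} (x : P.T) (h : ∀ j, c j ∈ zz (K.A j)) (A : P.Fam)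
    (p : (S.prod S' hS hS' a).ι) :
    cross P hS hS' a k c x p ∈ zz ((A.prod K : (P.prod Q hS hS' a).Fam).A p) :=
  sgn_mem.2 (AS.xp_zz' _ _ (h p.2))

theorem cross_mor (hP : P.Id) (hQ : Q.Id) {k : ℕ} {c : Q.T} (hc : c ∈ (bc K ⊥).cx.Z k)
    (L : Q.Fam) : (bc K₁ A).cx.Mor (bc (K₁.prod K) (A.prod L)).cx (cross P hS hS' a k c) (k + a) := by
  rw [mem_Z_tot] at hc
  refine ⟨fun n x hx => mem_G_tot.2 ⟨cross_G hc.1.1 (mem_G_tot.1 hx).1,
    cross_zz _ _ (mem_G_tot.1 hx).2 _⟩, fun n x _ hx => mem_cN.2 (cross_zz _ _ (mem_cN.1 hx) _),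
    fun n x _ => ?_⟩
  refine Cx.meq (neg_mem (mem_cN.2 (cross_zz' (k + 1) (P.sys.tot.s x) hc.2 K₁))) ?_
  exact ((congrArg (_ - ·) (cross_d hP hQ hc.1.1 x)).trans (sub_add_cancel_left _ _)).symm

/-- the cross product with a coboundary -/
theorem cross_B (hP : P.Id) (hQ : Q.Id) {k : ℕ} {c : Q.T} (hc : c ∈ (bc K ⊥).cx.B k) (L : Q.Fam)
    {n : ℤ} {x : P.T} (hx : x ∈ (bc K₁ A).cx.Z n) :
    cross P hS hS' a k c x ∈ (bc (K₁.prod K) (A.prod L)).cx.B (n + (k + a)) := by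
  obtain ⟨e, he, h⟩ := Cx.mem_B.1 hc
  rw [mem_Z_tot] at hx
  replace he := (mem_G_tot.1 he).1
  rw [← sub_add_cancel c (Q.sys.tot.d e), cross_add]
  refine add_mem (Cx.N_le_B (mem_cN.2 (cross_zz' _ _ (mem_cN.1 h) _))) ?_
  cases k with
  | zero =>
    rw [Gc.G_neg (by simp), Submodule.mem_bot] at he
    rw [he, map_zero, cross_zero]
    exact zero_mem _
  | succ k =>
    rw [Nat.cast_succ, add_sub_cancel_right] at he
    have hs : ∀ {F : P.Fam} {y : P.T}, (∀ i, y i ∈ zz (F.A i)) →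
        ∀ i, P.sys.tot.s y i ∈ zz (F.A i) := fun h i => sgn_mem.2 ((Fam.stab _).s i _ (h i))
    refine Cx.mem_B.2 ⟨cross P hS hS' a k e (P.sys.tot.s x), mem_G_tot.2 ⟨?_,
      cross_zz _ _ (hs hx.1.2) _⟩, ?_⟩
    · rw [show n + ((k + 1 : ℕ) + a) - 1 = n + (k + a) by push_cast; ring]
      exact cross_G he (Gc.s_mem_G _ hx.1.1)
    · have h2 := cross_d (hS := hS) (hS' := hS') (a := a) hP hQ he (P.sys.tot.s x)
      rw [Gc.ss, Gc.ds, map_neg] at h2
      refine Cx.meq (mem_cN.2 (cross_zz k e (hs hx.2) K)) ?_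
      exact ((congrArg (_ - ·) h2).trans (by abel)).symm

theorem cross_lft (G : Act P Γ) (g : Γ) (k : ℕ) (c : Q.T) (x : P.T) :
    (G.lft Q hS hS' a).r g (cross P hS hS' a k c x) = cross P hS hS' a k c (G.r g x) := by
  funext ⟨i, j⟩
  have e : ∀ (s t : ℂ) (f : P.X i → P.X (G.a g⁻¹ i)) (y : AS (P.X (G.a g⁻¹ i))) (z : AS (Q.X j)),
      s • AS.pull (Prod.map f id) (t • AS.xp y z) = t • AS.xp (s • AS.pull f y) z :=
    fun s t f y z => by
      rw [map_smul, AS.xp_left, map_smul, LinearMap.smul_apply, smul_smul, smul_smul, mul_comm]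
  refine (e _ _ _ _ _).trans ?_
  rw [cross_apply]
  show (-1 : ℂ) ^ (k * S.deg (G.a g⁻¹ i) + (S.deg (G.a g⁻¹ i) + a) * S'.deg j) • _ = _
  rw [G.deg]
  rfl

variable (P q) in
/-- exchanging the sum and the product -/
def rho : (β →₀ P.T) →ₗ[ℂ] ∀ i, β →₀ AS (P.X i) :=
  LinearMap.pi fun i => cw (fun b => (-1 : ℂ) ^ (q b * S.deg i) • LinearMap.id) ∘ₗ
    Finsupp.mapRange.linearMap (LinearMap.proj i)

theorem rho_apply (u : β →₀ P.T) (i : S.ι) (b : β) :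
    P.rho q u i b = (-1 : ℂ) ^ (q b * S.deg i) • u b i := cw_apply _ _ b

theorem rho_iso : Cx.Iso ((bc K₁ A).cx.fs β q)
    ((P.sys.fs β q).bc (A.stab.fs β q) (K₁.stab.fs β q)).cx (P.rho q) 0 where
  sur v := by
    classical
    refine ⟨Finsupp.onFinset (Finset.univ.biUnion fun i => (v i).support)
      (fun b i => (-1 : ℂ) ^ (q b * S.deg i) • v i b) fun b hb => ?_,
      funext fun i => Finsupp.ext fun b => (rho_apply _ i b).trans (sgn_sgn' _ _)⟩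
    obtain ⟨i, hi⟩ := Function.ne_iff.1 hb
    exact Finset.mem_biUnion.2 ⟨i, Finset.mem_univ i, Finsupp.mem_support_iff.2 fun e =>
      hi (by rw [e, smul_zero]; rfl)⟩
  d u := funext fun i => Finsupp.ext fun b => by
    have h := mat_op (μ := S.ε) (g := @(P.sys.fs β q).pl) (g₂ := @P.sys.pl) (i := i)
      (c := P.rho q u) (c' := u b)
      (((-1 : ℂ) ^ (q b * S.deg i) * (-1) ^ q b) • Finsupp.lapply b) fun l r e => by
        show (_ : ℂ) • P.sys.pl r (P.rho q u l b) = _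
        rw [rho_apply, map_smul, (S.sup i l e).2, mul_add, mul_one, pow_add, mul_assoc, ← mul_pow,
          neg_one_mul, neg_neg, one_pow, mul_one, sgn_sgn']
    rw [rho_apply]
    show (_ : ℂ) • (AS.d (u b i) + (AS.gc _).s (mat S.ε (@P.sys.pl) (u b) i)) =
      AS.d (P.rho q u i b) + ((AS.gc _).fs β q).s (mat S.ε (@(P.sys.fs β q).pl) (P.rho q u) i) b
    rw [← h, rho_apply, Gc.fs_s, map_smul, smul_add, LinearMap.smul_apply, map_smul, mul_smul,
      sgn_sgn']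
    rfl
  G n u := by
    rw [add_zero, Sys.mem_cx_G, Cx.mem_fs_G]
    simp only [mem_cx_G]
    refine ⟨fun h b i => ⟨?_, ?_⟩, fun h i => ⟨Gc.mem_fs_G.2 fun b => ?_, mem_fsub.2 fun b => ?_⟩⟩
    · rw [sub_right_comm]
      exact sgn_mem.1 (rho_apply u i b ▸ Gc.mem_fs_G.1 (h i).1 b)
    · exact sgn_mem.1 (rho_apply u i b ▸ mem_fsub.1 (h i).2 b)
    · rw [rho_apply, sub_right_comm]
      exact sgn_mem.2 (h b i).1
    · rw [rho_apply]
      exact sgn_mem.2 (h b i).2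
  N u := ⟨fun h => mem_fsub.2 fun b => mem_cN.2 fun i =>
      sgn_mem.1 (rho_apply u i b ▸ mem_fsub.1 (h i trivial) b),
    fun h i _ => mem_fsub.2 fun b =>
      Cx.meq (sgn_mem.2 (mem_cN.1 (mem_fsub.1 h b) i)) (rho_apply u i b).symm⟩

variable (P hS hS' a q) in
/-- the sum of the cross products -/
def xmap (c : β → Q.T) : (β →₀ P.T) →ₗ[ℂ] (P.prod Q hS hS' a).T :=
  Finsupp.lsum ℂ fun b => cross P hS hS' a (q b) (c b)

variable {c : β → Q.T}

theorem xmap_apply (u : β →₀ P.T) :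
    xmap hS hS' a P q c u = ∑ b ∈ u.support, cross P hS hS' a (q b) (c b) (u b) := rfl

theorem xmap_eq (u : β →₀ P.T) : xmap hS hS' a P q c u =
    kap hS hS' a P Q (LinearMap.piMap (fun _ => kmap c) (P.rho q u)) := by
  induction u using Finsupp.induction_linear with
  | zero => simp only [map_zero]
  | add u v h h' => simp only [map_add, h, h']
  | single b x =>
    rw [xmap, Finsupp.lsum_single, cross_eq]
    refine congrArg _ (funext fun i => ?_)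
    have e : P.rho q (Finsupp.single b x) i =
        Finsupp.single b ((-1 : ℂ) ^ (q b * S.deg i) • x i) :=
      (congrArg (cw _) (Finsupp.mapRange_single (hf := map_zero _))).trans (cw_single _ _ _)
    show _ = kmap c (P.rho q (Finsupp.single b x) i)
    rw [e, kmap_single, map_smul]

variable [Fintype Γ] {G : Act Q Γ}

theorem two_qia (hK₁ : K₁.Cl) (hA : A.Cl) (hK : K.Cl) (iK : G.Inv K)
    (hb : (G.bc iK G.inv_bot).cx.Bas q c) :
    ((P.sys.fs β q).bc (A.stab.fs β q) (K₁.stab.fs β q)).cx.QIa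
      ((P.sys2 Q).bc (stab2' G A K) (stab2 K₁ K)).cx (LinearMap.piMap fun _ => kmap c) 0 := by
  have h : ∀ i, (((P.sys.fs β q).A i).cx _ _ ((A.stab.fs β q).d i) ((K₁.stab.fs β q).d i)).Mor
      (((P.sys2 Q).A i).cx _ _ ((stab2' G A K).d i) ((stab2 K₁ K).d i)) (kmap c) 0 ∧
      (((P.sys.fs β q).A i).cx _ _ ((A.stab.fs β q).d i) ((K₁.stab.fs β q).d i)).QIa
      (((P.sys2 Q).A i).cx _ _ ((stab2' G A K).d i) ((stab2 K₁ K).d i)) (kmap c) 0 := fun i => by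
    have z : ∀ V : Set (P.X i), fsub β (zz V) = ((AS.sc (P.X i)).fs β q).zz V := fun V =>
      Submodule.ext fun u => by
        rw [mem_fsub, SC.mem_zz]
        exact ⟨fun h t ht => (Submodule.mem_iInf _).2 fun b => (SC.mem_zz _).1 (h b) t ht,
          fun h b => (SC.mem_zz _).2 fun t ht => (Submodule.mem_iInf _).1 (h t ht) b⟩
    have e₁ : ((P.sys.fs β q).A i).cx _ _ ((A.stab.fs β q).d i) ((K₁.stab.fs β q).d i) =
        ((AS.sc (P.X i)).fs β q).cx (K₁.A i) (A.A i) :=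
      SC.ya3_ext rfl (funext fun n => congrArg₂ (· ⊓ ·) (Submodule.ext fun u =>
        Gc.mem_fs_G.trans ⟨fun h => (Submodule.mem_iInf _).2 h,
          fun h => (Submodule.mem_iInf _).1 h⟩) (z _)) (z _)
    have e₂ : ((P.sys2 Q).A i).cx _ _ ((stab2' G A K).d i) ((stab2 K₁ K).d i) =
        ((G.lp (P.X i)).bc (G.inv_lp (K₁.A i) iK) (G.inv_lp (A.A i) iK)).cx :=
      SC.ya3_ext rfl (funext fun n => congrArg₂ (· ⊓ ·) (Sys.tot_G _ n) rfl) rfl
    rw [e₁, e₂]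
    exact lp_qia hK iK hb (hK₁ i) (hA i)
  have hc : ∀ b, c b ∈ (bc K ⊥).cx.Z (q b) := fun b =>
    ⟨⟨(hb.mem b).1.1, (hb.mem b).1.2.1⟩, (hb.mem b).2⟩
  refine Bc.filta_cx (Sys.mor_diag _ _ _ _ _ (fun i n x hx hU => (h i).1.fG n x ⟨hx, hU⟩)
    (fun i x _ hx => kmap_mem fun b => mem_N.2 fun j => AS.xp_zz (mem_fsub.1 hx b) _ _)
    (fun i x _ => ?_) (fun i => kmap_s fun b => (mem_Z_tot.1 (hc b)).1.1) fun r x => ?_)
    fun p n => Sys.col_qi _ _ _ _ _ p fun i _ => (h i).2 n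
  · refine Cx.meq (neg_mem (kmap_mem (c := fun b => Q.sys.tot.d (c b))
      (u := cw (fun _ => (AS.gc _).s) x) fun b => mem_N.2 fun j =>
        AS.xp_zz' _ _ ((mem_Z_tot.1 (hc b)).2 j))) ?_
    exact ((congrArg (_ - ·) (kmap_d (q := q) x)).trans (sub_add_cancel_left _ _)).symm
  · induction x using Finsupp.induction_linear with
    | zero => simp only [map_zero]
    | add u v h h' => simp only [map_add, h, h']
    | single b z =>
      rw [kmap_single]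
      exact (congrArg (kmap c) (Finsupp.mapRange_single (hf := map_zero _))).trans
        ((kmap_single b _).trans (funext fun j => (AS.xp_left _ _ _).symm))

/-- the Kuenneth formula -/
theorem kun (hP : P.Id) (hQ : Q.Id) (hK₁ : K₁.Cl) (hA : A.Cl) (hK : K.Cl) (iK : G.Inv K)
    (hb : (G.bc iK G.inv_bot).cx.Bas q c) : ((bc K₁ A).cx.fs β q).QIa
      ((G.rgt P hS hS' a).bc (G.inv_rgt K₁ iK) (G.inv_rgt A iK)).cx (xmap hS hS' a P q c) a := by
  have h := two_qia hK₁ hA hK iK hb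
  have i₁ := rho_iso (q := q) (K₁ := K₁) (A := A)
  have i₂ := kap_iso (hS := hS) (hS' := hS') (a := a) hP hQ G K₁ A iK
  refine Cx.qia_iff.2 fun n => ⟨fun u hu e => ?_, fun w hw => ?_⟩
  · rw [xmap_eq, i₂.B] at e
    exact i₁.B.1 (Cx.Bcast (h.inj n _ (Cx.Zcast (i₁.Z.2 hu) (add_zero n))
      (Cx.Bcast e (add_zero n).symm)) (add_zero n).symm)
  · obtain ⟨w, rfl⟩ := i₂.sur w
    obtain ⟨v, hv, e⟩ := h.sur n w (Cx.Zcast (i₂.Z.1 hw) (add_zero n).symm)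
    obtain ⟨u, rfl⟩ := i₁.sur v
    refine ⟨u, i₁.Z.1 (Cx.Zcast hv (add_zero n).symm), ?_⟩
    rw [xmap_eq, ← map_sub, i₂.B]
    exact Cx.Bcast e (add_zero n)

end Dg

end Pool.Agent.CS
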