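import Pool.Agent.P.MP_d34769_ag.YP3b

/-! Injectivity on relative cohomology passes to products. -/

open Set

noncomputable section
namespace Pool.Agent.CS
namespace Dg
variable {S S' : Sh} {hS : S.Refl} {hS' : S'.Refl} {a : ℕ} {P : Dg S} {Q : Dg S'}
  {Γ Γ' : Type} [Group Γ] [Group Γ'] [Fintype Γ] [Fintype Γ']

omit [Fintype Γ'] in
theorem yp4_bas (G : Act Q Γ') {K : Q.Fam} (iK : G.Inv K) :
    ∃ (β : Type) (q : β → ℕ) (c : β → Q.T), (G.bc iK G.inv_bot).cx.Bas q c :=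
  Cx.exists_bas _ fun n hn x hx => by
    have : x ∈ degZ _ n := hx.1.1
    rw [degZ_neg _ hn, Submodule.mem_bot] at this
    exact this ▸ zero_mem _

omit [Fintype Γ] in
theorem yp4_Z {G : Act P Γ} {K A : P.Fam} {iK : G.Inv K} {iA : G.Inv A} {n : ℤ} {x : P.T} :
    x ∈ (G.bc iK iA).cx.Z n ↔ x ∈ (bc K A).cx.Z n ∧ x ∈ Fix G.r :=
  ⟨fun h => ⟨⟨⟨h.1.1, h.1.2.1⟩, h.2⟩, h.1.2.2⟩, fun h => ⟨⟨h.1.1.1, h.1.1.2, h.2⟩, h.1.2⟩⟩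

theorem yp4_B {G : Act P Γ} {K A : P.Fam} {iK : G.Inv K} {iA : G.Inv A} {n : ℤ} {x : P.T}
    (hx : x ∈ Fix G.r) : x ∈ (G.bc iK iA).cx.B n ↔ x ∈ (bc K A).cx.B n := by
  rw [Bc.Act.inv_cx]
  exact ⟨(G.act iK iA).cx.ya3_le, fun h => avg_of_mem hx ▸ (G.act iK iA).cx.ya3_B h⟩

omit [Fintype Γ] in
theorem yp4_le {G : Act P Γ} {K A : P.Fam} {iK : G.Inv K} {iA : G.Inv A} {n : ℤ} {x : P.T}
    (h : x ∈ (G.bc iK iA).cx.B n) : x ∈ (bc K A).cx.B n := by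
  rw [Bc.Act.inv_cx] at h
  exact (G.act iK iA).cx.ya3_le h

theorem yp4_monoZ {K A K' A' : P.Fam} (h : ∀ i, K'.A i ⊆ K.A i) (h' : ∀ i, A'.A i ⊆ A.A i) {n : ℤ}
    {x : P.T} (hx : x ∈ (bc K A).cx.Z n) : x ∈ (bc K' A').cx.Z n :=
  Cx.Zcast ((mor_id h h').cx.mem_Z hx) (add_zero n)

theorem yp4_monoB {K A K' A' : P.Fam} (h : ∀ i, K'.A i ⊆ K.A i) (h' : ∀ i, A'.A i ⊆ A.A i) {n : ℤ}
    {x : P.T} (hx : x ∈ (bc K A).cx.B n) : x ∈ (bc K' A').cx.B n := by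
  obtain ⟨b, hb, e⟩ := Cx.mem_B.1 hx
  exact Cx.mem_B.2 ⟨b, Cx.Gcast ((mor_id h h').cx.fG _ b hb) (add_zero _),
    mem_cN.2 fun i => SC.zz_anti (h i) (mem_cN.1 e i)⟩

theorem yp4_A (hP : P.Id) (hQ : Q.Id) (G : Act P Γ) (G' : Act Q Γ') {A : P.Fam} (hA : A.Cl)
    (iA : G.Inv A) {n : ℤ} (jP : ∀ k ≤ n, ∀ x ∈ (bc ⊤ A).cx.Z k, x ∈ Fix G.r →
      x ∈ (bc ⊤ ⊥).cx.B k → x ∈ (bc ⊤ A).cx.B k)
    {m : ℤ} (hm : m ≤ n) {w : (P.prod Q hS hS' a).T}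
    (hw : w ∈ (bc ((⊤ : P.Fam).prod ⊤) (A.prod ⊤)).cx.Z (m + a))
    (h1 : w ∈ Fix (G.lft Q hS hS' a).r) (h2 : w ∈ Fix (G'.rgt P hS hS' a).r)
    (hb : w ∈ (bc ⊤ ⊥).cx.B (m + a)) :
    w ∈ (bc ((⊤ : P.Fam).prod ⊤) (A.prod ⊤)).cx.B (m + a) := by
  obtain ⟨β, q, c, hc⟩ := yp4_bas G' G'.inv_top
  have hc' := fun b => yp4_Z.1 (hc.mem b)
  obtain ⟨u, hu, e⟩ := (kun hP hQ Fam.cl_top hA Fam.cl_top G'.inv_top hc).sur m w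
    (yp4_Z.2 ⟨hw, h2⟩)
  let v := Finsupp.mapRange.linearMap (avg G.r) u
  have hv : ∀ b, v b ∈ (bc ⊤ A).cx.Z (m - q b) := fun b =>
    Cx.Zcast ((yp4_Z (iK := G.inv_top) (iA := iA)).1 (by
      rw [Bc.Act.inv_cx]
      exact (G.act G.inv_top iA).cx.mor_avg.mem_Z (Cx.mem_fs_Z.1 hu b))).1 (add_zero _)
  have e1 : ∀ u, avg (G.lft Q hS hS' a).r (xmap hS hS' a P q c u) =
      xmap hS hS' a P q c (Finsupp.mapRange.linearMap (avg G.r) u) := fun u => by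
    induction u using Finsupp.induction_linear with
    | zero => simp only [map_zero]
    | add u v h h' => simp only [map_add, h, h']
    | single b x =>
      rw [show Finsupp.mapRange.linearMap (avg G.r) (Finsupp.single b x) =
        Finsupp.single b (avg G.r x) from Finsupp.mapRange_single (hf := map_zero _), xmap,
        Finsupp.lsum_single, Finsupp.lsum_single]
      exact (ya3_comm (fun g x => (cross_lft G g _ _ x).symm) x).symm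
  have e2 : w - xmap hS hS' a P q c v ∈
      (bc ((⊤ : P.Fam).prod ⊤) (A.prod ⊤)).cx.B (m + a) := by
    have h := (G.lft Q hS hS' a).act (G.inv_lft G.inv_top ⊤) (G.inv_lft iA ⊤)
    have := h.cx.ya3_le (h.cx.ya3_B (yp4_le e))
    rwa [map_sub, avg_of_mem h1, e1] at this
  have hf : xmap hS hS' a P q c v ∈ Fix (G'.rgt P hS hS' a).r :=
    Submodule.sum_mem _ fun b _ => Cx.meq ((kap_fix G').2 fun i => Submodule.smul_mem _ _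
      (mem_Fix.2 fun g => by rw [lcr_r, mem_Fix.1 (hc' b).2])) (cross_eq _ _ _).symm
  have s0 : ∀ (F : (P.prod Q hS hS' a).Fam) p,
      ((⊥ : P.Fam).prod ⊤ : (P.prod Q hS hS' a).Fam).A p ⊆ F.A p := fun _ _ _ h => h.1.elim
  have e3 := (kun hP hQ Fam.cl_top Fam.cl_bot Fam.cl_top G'.inv_top hc).inj m v
    (Cx.mem_fs_Z.2 fun b => yp4_monoZ (fun _ => Subset.rfl) (fun _ => empty_subset _) (hv b))
    ((yp4_B hf).2 (Cx.meq (sub_mem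
      (yp4_monoB (fun _ => subset_univ _) (s0 _) hb)
      (yp4_monoB (fun _ => Subset.rfl) (s0 _) e2)) (sub_sub_cancel _ _)))
  refine Cx.meq (add_mem e2 (Submodule.sum_mem _ fun b _ => ?_)) (sub_add_cancel _ _)
  exact Cx.Bcast ((cross_mor hP hQ (hc' b).1 ⊤).mem_B (hv b).1 (jP _ (by omega) _ (hv b)
    (avg_mem _) (Cx.fs_B e3 b))) (by ring)

theorem yp4_N (hP : P.Id) (hQ : Q.Id) (G' : Act Q Γ') {A : P.Fam} {N : Q.Fam}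
    (hA : A.Cl) (hN : N.Cl) (iN : G'.Inv N) {n : ℤ}
    (jQ : ∀ k < n, ∀ y ∈ (bc N ⊥).cx.Z k, y ∈ Fix G'.r →
      ∃ x ∈ (bc ⊤ ⊥).cx.Z k, x ∈ Fix G'.r ∧ y - x ∈ (bc N ⊥).cx.B k)
    {m : ℤ} (hm : m < n) {w : (P.prod Q hS hS' a).T}
    (hw : w ∈ (bc ((⊤ : P.Fam).prod N) (A.prod N)).cx.Z (m + a))
    (h2 : w ∈ Fix (G'.rgt P hS hS' a).r) :
    ∃ x ∈ (bc ((⊤ : P.Fam).prod ⊤) (A.prod ⊤)).cx.Z (m + a),
      w - x ∈ (bc ((⊤ : P.Fam).prod N) (A.prod N)).cx.B (m + a) := by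
  obtain ⟨β, q, c, hc⟩ := yp4_bas G' iN
  obtain ⟨u, hu, e1⟩ := (kun hP hQ Fam.cl_top hA hN iN hc).sur m w (yp4_Z.2 ⟨hw, h2⟩)
  rw [Cx.mem_fs_Z] at hu
  have h0 : ∀ b, ∃ x ∈ (bc ⊤ ⊥).cx.Z (q b), u b ≠ 0 → c b - x ∈ (bc N ⊥).cx.B (q b) := fun b => by
    by_cases l : (q b : ℤ) < n
    · obtain ⟨x, hx, -, e⟩ := jQ _ l _ (yp4_Z.1 (hc.mem b)).1 (yp4_Z.1 (hc.mem b)).2
      exact ⟨x, hx, fun _ => e⟩
    · refine ⟨0, zero_mem _, fun e => (e ?_).elim⟩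
      have := (mem_Z_tot.1 (hu b)).1.1
      rwa [Gc.G_neg (by omega), Submodule.mem_bot] at this
  choose c' hc' e2 using h0
  refine ⟨xmap hS hS' a P q c' u, Submodule.sum_mem _ fun b _ =>
    Cx.Zcast ((cross_mor hP hQ (hc' b) ⊤).mem_Z (hu b)) (by ring),
    Cx.meq (add_mem (yp4_le e1) ?_) (sub_add_sub_cancel _ _ _)⟩
  rw [xmap_apply, xmap_apply, ← Finset.sum_sub_distrib]
  refine Submodule.sum_mem _ fun b hb => ?_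
  rw [← sub_add_cancel (c b) (c' b), cross_add, add_sub_cancel_right]
  exact Cx.Bcast (cross_B hP hQ (e2 b (Finsupp.mem_support_iff.1 hb)) N (hu b)) (by ring)

theorem yp4_fin {U A N M : P.Fam} (hU : ∀ p, univ ⊆ U.A p) (hA : A.Cl) (hN : N.Cl) (hM : M.Cl)
    (s : ∀ p, M.A p ⊆ A.A p) (s' : ∀ p, A.A p ∩ N.A p ⊆ M.A p) {m : ℤ} {w b : P.T}
    (hw : w ∈ (bc ⊤ (A ⊔ N)).cx.Z (m + 1)) (hb : b ∈ (bc U A).cx.G m)
    (e : w - P.sys.tot.d b ∈ (bc U A).cx.N)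
    (h : b ∈ (bc N M).cx.Z m → ∃ x ∈ (bc U A).cx.Z m, b - x ∈ (bc N M).cx.B m) :
    w ∈ (bc ⊤ (A ⊔ N)).cx.B (m + 1) := by
  replace e : ∀ p, (w - P.sys.tot.d b) p ∈ zz univ := fun p => SC.zz_anti (hU p) (mem_cN.1 e p)
  have hG : b ∈ (bc N A).cx.Z m := mem_Z_tot.2 ⟨mem_G_tot.1 hb, fun p => Cx.meq (sub_mem
    (SC.zz_anti subset_union_right ((mem_Z_tot.1 hw).1.2 p)) (SC.zz_anti (subset_univ _) (e p)))
      (sub_sub_cancel _ _)⟩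
  obtain ⟨x, hx, e3⟩ := h (yp4_monoZ (fun _ => Subset.rfl) s hG)
  have hx' := yp4_monoZ (K' := N) (fun p => (subset_univ _).trans (hU p)) (fun _ => Subset.rfl) hx
  obtain ⟨y, hy, e4⟩ := Cx.mem_B.1 ((Bc.filta_cx (mor_id (fun _ => Subset.rfl) s)
    (col_exc hN hA hM s s')).inj m _ (sub_mem hG hx') (Cx.Bcast e3 (add_zero _).symm))
  have g1 := mem_G_tot.1 (sub_mem (sub_mem hG.1 hx'.1)
    (Cx.Gcast ((bc N A).cx.dG _ y hy) (sub_add_cancel _ _)))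
  refine Cx.mem_B.2 ⟨_, mem_G_tot.2 ⟨by rw [add_sub_cancel_right]; exact g1.1,
    fun p => (SC.mem_zz _).2 fun t ht =>
      ht.elim ((SC.mem_zz _).1 (g1.2 p) t) ((SC.mem_zz _).1 (mem_cN.1 e4 p) t)⟩,
    mem_cN.2 fun p => ?_⟩
  have e5 : ∀ x y z : P.T, w - P.sys.tot.d (x - y - P.sys.tot.d z) =
      w - P.sys.tot.d x + P.sys.tot.d y := fun x y z => by
    rw [map_sub, map_sub, Gc.dd]
    abel
  exact Cx.meq (add_mem (e p) (SC.zz_anti (hU p) ((mem_Z_tot.1 hx).2 p)))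
    (congrFun (e5 b _ y) p).symm

theorem kun_ki (hP : P.Id) (hQ : Q.Id) (G : Act P Γ) (G' : Act Q Γ') {A : P.Fam} {N : Q.Fam}
    (hA : A.Cl) (hN : N.Cl) (iA : G.Inv A) (iN : G'.Inv N) {n : ℤ}
    (jP : ∀ k ≤ n, ∀ x ∈ (bc ⊤ A).cx.Z k, x ∈ Fix G.r → x ∈ (bc ⊤ ⊥).cx.B k →
      x ∈ (bc ⊤ A).cx.B k)
    (jQ : ∀ k < n, ∀ y ∈ (bc N ⊥).cx.Z k, y ∈ Fix G'.r →
      ∃ x ∈ (bc ⊤ ⊥).cx.Z k, x ∈ Fix G'.r ∧ y - x ∈ (bc N ⊥).cx.B k)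
    {m : ℤ} (hm : m ≤ n + a) {w : (P.prod Q hS hS' a).T}
    (hw : w ∈ (bc ⊤ (A.prod ⊤ ⊔ (⊤ : P.Fam).prod N)).cx.Z m)
    (h1 : w ∈ Fix (G.lft Q hS hS' a).r) (h2 : w ∈ Fix (G'.rgt P hS hS' a).r)
    (hb : w ∈ (bc ⊤ ⊥).cx.B m) : w ∈ (bc ⊤ (A.prod ⊤ ⊔ (⊤ : P.Fam).prod N)).cx.B m := by
  obtain ⟨m, rfl⟩ : ∃ k, m = k + a + 1 := ⟨m - 1 - a, by ring⟩
  have hA' := yp4_A hP hQ G G' hA iA jP (m := m + 1) (by omega)
    (yp4_monoZ (fun _ => subset_univ _) (fun _ => subset_union_left) (Cx.Zcast hw (by ring)))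
    h1 h2 (Cx.Bcast hb (by ring))
  obtain ⟨b, hb', e⟩ := Cx.mem_B.1 ((yp4_B (iK := G'.inv_rgt ⊤ G'.inv_top)
    (iA := G'.inv_rgt A G'.inv_top) h2).2 hA')
  rw [show m + 1 + a - 1 = m + a by ring] at hb'
  exact yp4_fin (U := (⊤ : P.Fam).prod ⊤) (fun _ _ _ => ⟨trivial, trivial⟩) (hA.prod Fam.cl_top)
    (Fam.cl_top.prod hN) (hA.prod hN) (fun _ _ h => ⟨h.1, trivial⟩)
    (fun _ _ h => ⟨h.1.1, h.2.2⟩) hw ⟨hb'.1, hb'.2.1⟩ e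
    fun h => yp4_N hP hQ G' hA hN iN jQ (by omega) h hb'.2.2

end Dg

end Pool.Agent.CS
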