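import Pool.Agent.P.MP_d34769_ag.YU0
import Pool.Agent.P.MP_d34769_ag.YA3

/-! The Hilbert series of a filtration by ideals. -/

open MvPolynomial Module

noncomputable section
namespace Pool.Agent.CS.EC
variable {I : Type} [Fintype I] [DecidableEq I]

theorem sg_sq_U1 (w : Equiv.Perm I) :
    ((Equiv.Perm.sign w : ℤ) : ℂ) * ((Equiv.Perm.sign w : ℤ) : ℂ) = 1 := by
  rw [← Int.cast_mul, ← Units.val_mul, Int.units_mul_self, Units.val_one, Int.cast_one]

/-- the action on polynomials twisted by the sign -/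
def twU (G : Subgroup (Equiv.Perm I)) : G →* Module.End ℂ (MvPolynomial I ℂ) where
  toFun w := ((Equiv.Perm.sign w.1 : ℤ) : ℂ) • (rename (R := ℂ) w.1).toLinearMap
  map_one' := LinearMap.ext fun x => by simp
  map_mul' v w := LinearMap.ext fun x => by
    simp [rename_rename, smul_smul, mul_comm]

theorem twU_apply {G : Subgroup (Equiv.Perm I)} (w : G) (x : MvPolynomial I ℂ) :
    twU G w x = ((Equiv.Perm.sign w.1 : ℤ) : ℂ) • rename w.1 x := rfl

theorem mem_An_U1 {G : Subgroup (Equiv.Perm I)} {p : ℕ} {g : MvPolynomial I ℂ} :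
    g ∈ An G p ↔ g.IsHomogeneous p ∧ g ∈ Fix (twU G) := by
  refine and_congr_right fun _ => ⟨fun h => mem_Fix.2 fun w => ?_, fun h w hw => ?_⟩
  · rw [twU_apply, h w.1 w.2, smul_smul, sg_sq_U1, one_smul]
  · have := congrArg (((Equiv.Perm.sign w : ℤ) : ℂ) • ·) (mem_Fix.1 h ⟨w, hw⟩)
    simpa only [twU_apply, smul_smul, sg_sq_U1, one_smul] using this

theorem avg_An_U1 (G : Subgroup (Equiv.Perm I)) [Fintype G] {p : ℕ} {g : MvPolynomial I ℂ}
    (h : g.IsHomogeneous p) : avg (twU G) g ∈ An G p :=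
  mem_An_U1.2 ⟨avg_mem_of (U := homogeneousSubmodule I ℂ p) fun _ =>
    Submodule.smul_mem _ _ h.rename_isHomogeneous, avg_mem g⟩

theorem avg_r_U1 {Γ T : Type} [Group Γ] [Fintype Γ] [AddCommGroup T] [Module ℂ T]
    (r : Γ →* Module.End ℂ T) (g : Γ) (x : T) : avg r (r g x) = avg r x := by
  rw [ya3_avg, ya3_avg]
  congr 1
  exact Fintype.sum_equiv (Equiv.mulRight g) _ _ fun k => by simp

theorem step_U1 {G G' : Subgroup (Equiv.Perm I)} (hle : G' ≤ G) {a : MvPolynomial I ℂ} {δ : ℕ}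
    {K K1 J : Ideal (MvPolynomial I ℂ)} (ha : a.IsHomogeneous δ)
    (fix : ∀ v ∈ G', rename v a = a) (out : ∀ w ∈ G, w ∉ G' → rename w a ∈ J)
    (st : ∀ w ∈ G, ∀ g ∈ K, rename w g ∈ K) (hm : Hm K) (KJ : K ≤ J) (JK : ∀ g ∈ J, g * a ∈ K)
    (nz : Nz J a) (e1 : K1 = K ⊔ Ideal.span {x | ∃ w ∈ G, rename w a = x}) (p : ℕ) :
    qd (An G p) K = qd (An G p) K1 + qd (if δ ≤ p then An G' (p - δ) else ⊥) J := by
  classical
  set U := if δ ≤ p then An G' (p - δ) else ⊥ with hU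
  let Φ := avg (twU G) ∘ₗ LinearMap.mulRight ℂ a
  have hΦ : ∀ g, Φ g = avg (twU G) (g * a) := fun _ => rfl
  have u1 : ∀ g ∈ U, g ∈ Fix (twU G') ∧ (g * a).IsHomogeneous p := fun g hg => by
    split_ifs at hU with h
    · rw [hU, mem_An_U1] at hg
      exact ⟨hg.2, Nat.sub_add_cancel h ▸ hg.1.mul ha⟩
    · obtain rfl : g = 0 := by simpa [hU] using hg
      exact ⟨zero_mem _, by simpa using isHomogeneous_zero _ _ _⟩
  have tw : ∀ (v : G') g, twU G' v g * a = twU G ⟨v.1, hle v.2⟩ (g * a) := fun v g => by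
    rw [twU_apply, twU_apply, map_mul, fix v.1 v.2, smul_mul_assoc]
  have av : ∀ g, Φ (avg (twU G') g) = Φ g := fun g => by
    rw [ya3_avg, map_smul, map_sum, Finset.sum_congr rfl fun v _ => (hΦ _).trans
      ((congrArg _ (tw v g)).trans (avg_r_U1 _ _ _)), ya3_const, hΦ]
  have kK : ∀ g ∈ K, avg (twU G) g ∈ K := fun g hg =>
    avg_mem_of (U := K.restrictScalars ℂ) fun w => Submodule.smul_mem _ _ (st w.1 w.2 g hg)
  have := fin_An G p
  have h1 := sq_add (U.map Φ) (An G p) (K.restrictScalars ℂ) (by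
    rintro _ ⟨g, hg, rfl⟩
    exact avg_An_U1 G (u1 g hg).2)
  have h2 := sq_eq U (J.restrictScalars ℂ) (U.map Φ) (K.restrictScalars ℂ) Φ
    (fun x hx => Submodule.mem_sup_left ⟨x, hx, rfl⟩)
    (by rintro _ ⟨x, hx, rfl⟩; exact ⟨x, hx, by simp⟩) fun x hx => ⟨fun h => ?_,
      fun h => kK _ (JK x h)⟩
  have h3 := sq_eq (An G p) (U.map Φ ⊔ K.restrictScalars ℂ) (An G p) (K1.restrictScalars ℂ)
    LinearMap.id (fun x hx => Submodule.mem_sup_left hx) (fun x hx => ⟨x, hx, by simp⟩)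
    fun x hx => ⟨fun h => ?_, fun h => ?_⟩
  · rw [qd, qd, qd, ← h1, h2, h3, add_comm]
  · obtain ⟨k, hk, s, hs, rfl⟩ := Submodule.mem_sup.1 (e1 ▸ h : x ∈ _ ⊔ _)
    have h4 : ∀ f, avg (twU G) (homogeneousComponent p (f * s)) ∈ U.map Φ := by
      clear hx h
      induction hs using Submodule.span_induction with
      | mem s hs =>
        obtain ⟨w, hw, rfl⟩ := hs
        intro f
        rw [hc_mul ha.rename_isHomogeneous]
        split_ifs with c
        · have e : homogeneousComponent (p - δ) f * rename w a = ((Equiv.Perm.sign w : ℤ) : ℂ) •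
              twU G ⟨w, hw⟩ (rename (⇑w⁻¹) (homogeneousComponent (p - δ) f) * a) := by
            rw [twU_apply, smul_smul, sg_sq_U1, one_smul, map_mul, rename_rename]
            simp
          rw [e, map_smul, avg_r_U1, ← hΦ, ← av]
          refine Submodule.smul_mem _ _ ⟨_, ?_, rfl⟩
          rw [hU, if_pos c]
          exact avg_An_U1 G' (homogeneousComponent_isHomogeneous _ _).rename_isHomogeneous
        · simp
      | zero => simp
      | add s t _ _ i j => exact fun f => by simpa only [mul_add, map_add] using add_mem (i f) (j f)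
      | smul c s _ i => exact fun f => by rw [smul_eq_mul, ← mul_assoc]; exact i _
    have h5 : k + s = avg (twU G) (homogeneousComponent p (k + s)) := by
      rw [homogeneousComponent_of_mem hx.1, if_pos rfl, avg_of_mem (mem_An_U1.1 hx).2]
    rw [h5, map_add, map_add]
    exact add_mem (Submodule.mem_sup_right (kK _ (hm k hk p)))
      (Submodule.mem_sup_left (one_mul s ▸ h4 1))
  · refine (sup_le ?_ fun g hg => ?_ : _ ≤ K1.restrictScalars ℂ) h
    · rintro _ ⟨g, -, rfl⟩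
      rw [hΦ]
      refine avg_mem_of fun w => ?_
      rw [twU_apply, map_mul, e1]
      exact Submodule.smul_mem _ _
        (Ideal.mem_sup_right (Ideal.mul_mem_left _ _ (Ideal.subset_span ⟨w.1, w.2, rfl⟩)))
    · exact e1 ▸ Ideal.mem_sup_left hg
  · have h4 : ∑ w, twU G w (x * a) ∈ J.restrictScalars ℂ := by
      have := (J.restrictScalars ℂ).smul_mem (Fintype.card G : ℂ) (KJ h)
      rwa [hΦ, ya3_avg, smul_smul, mul_inv_cancel₀ (Nat.cast_ne_zero.2 Fintype.card_ne_zero),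
        one_smul] at this
    have h5 : ∑ w : G, (twU G w (x * a) - if w.1 ∈ G' then x * a else 0) ∈ J.restrictScalars ℂ :=
      Submodule.sum_mem _ fun w _ => by
        split_ifs with c
        · rw [← tw ⟨w.1, c⟩, mem_Fix.1 (u1 x hx).1, sub_self]
          exact zero_mem _
        · rw [sub_zero, twU_apply, map_mul]
          exact Submodule.smul_mem _ _ (J.mul_mem_left _ (out w.1 w.2 c))
    have h6 := sub_mem h4 h5
    rw [Finset.sum_sub_distrib, sub_sub_cancel, ← Finset.sum_filter, Finset.sum_const,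
      ← Nat.cast_smul_eq_nsmul ℂ] at h6
    refine nz x ((Submodule.smul_mem_iff _ (Nat.cast_ne_zero.2 (Finset.card_ne_zero_of_mem
      (a := 1) ?_))).1 h6)
    simp

omit [DecidableEq I] [Fintype I] in
theorem hm_sup_U1 {J : Ideal (MvPolynomial I ℂ)} (h : Hm J) {S : Set (MvPolynomial I ℂ)}
    (hS : ∀ x ∈ S, ∃ n, x.IsHomogeneous n) : Hm (J ⊔ Ideal.span S) := fun g hg p => by
  obtain ⟨k, hk, s, hs, rfl⟩ := Submodule.mem_sup.1 hg
  have h4 : ∀ f, homogeneousComponent p (f * s) ∈ Ideal.span S := by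
    clear hg
    induction hs using Submodule.span_induction with
    | mem s hs =>
      intro f
      obtain ⟨n, hn⟩ := hS s hs
      rw [hc_mul hn]
      split_ifs
      · exact Ideal.mul_mem_left _ _ (Ideal.subset_span hs)
      · exact zero_mem _
    | zero => simp
    | add s t _ _ i j => exact fun f => by simpa only [mul_add, map_add] using add_mem (i f) (j f)
    | smul c s _ i => exact fun f => by rw [smul_eq_mul, ← mul_assoc]; exact i _
  rw [map_add]
  exact add_mem (Ideal.mem_sup_left (h k hk p)) (Ideal.mem_sup_right (one_mul s ▸ h4 1))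

theorem filt {T L : Type} [DecidableEq T] [LinearOrder L] (G : Subgroup (Equiv.Perm I))
    (𝓕 : Finset (Finset I)) (ty : Finset I → T) (val : T → L) (δ : T → ℕ)
    (e : Finset I → MvPolynomial I ℂ) (J0 : Ideal (MvPolynomial I ℂ)) (A : Finset T)
    (r : T → Finset I) (G' : T → Subgroup (Equiv.Perm I)) (J' : T → Ideal (MvPolynomial I ℂ))
    (hA : ∀ F ∈ 𝓕, ty F ∈ A) (hr : ∀ τ ∈ A, r τ ∈ 𝓕 ∧ ty (r τ) = τ)
    (hG : ∀ w ∈ G, ∀ F ∈ 𝓕, F.image w ∈ 𝓕 ∧ ty (F.image w) = ty F ∧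
      rename w (e F) = e (F.image w))
    (htr : ∀ F ∈ 𝓕, ∃ w ∈ G, (r (ty F)).image w = F)
    (hG' : ∀ τ ∈ A, ∀ w, w ∈ G' τ ↔ w ∈ G ∧ (r τ).image w = r τ)
    (he : ∀ F ∈ 𝓕, (e F).IsHomogeneous (δ (ty F)))
    (h0 : Hm J0) (h0' : ∀ w ∈ G, ∀ g ∈ J0, rename w g ∈ J0)
    (ha : ∀ τ ∈ A, ∀ g ∈ J' τ,
      g * e (r τ) ∈ J0 ⊔ Ideal.span (e '' {H | H ∈ 𝓕 ∧ val τ < val (ty H)}))
    (hb : ∀ τ ∈ A, ∀ H ∈ 𝓕, H ≠ r τ → val τ ≤ val (ty H) → e H ∈ J' τ)
    (hb' : ∀ τ ∈ A, J0 ≤ J' τ) (hc : ∀ τ ∈ A, Nz (J' τ) (e (r τ))) (hd : ∃ F ∈ 𝓕, e F = 1) :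
    hs (An G) J0 = ∑ τ ∈ A, PowerSeries.X ^ δ τ * hs (An (G' τ)) (J' τ) := by
  let J : Finset T → Ideal (MvPolynomial I ℂ) := fun B =>
    J0 ⊔ Ideal.span (e '' {H | H ∈ 𝓕 ∧ ty H ∈ B})
  ext p
  have key : ∀ B : Finset T, B ⊆ A → (∀ σ ∈ B, ∀ σ' ∈ A, val σ < val σ' → σ' ∈ B) →
      qd (An G p) J0 = qd (An G p) (J B) +
        ∑ τ ∈ B, qd (if δ τ ≤ p then An (G' τ) (p - δ τ) else ⊥) (J' τ) := by
    intro B
    induction B using Finset.induction_on_min_value val with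
    | empty => simp [J]
    | insert τ B h1 h2 ih =>
      intro h3 h4
      have hτ := h3 (Finset.mem_insert_self _ _)
      obtain ⟨r1, r2⟩ := hr τ hτ
      have h5 : ∀ σ ∈ insert τ B, ∀ σ' ∈ A, val σ < val σ' → σ' ∈ B := fun σ a σ' b c =>
        (Finset.mem_insert.1 (h4 σ a σ' b c)).resolve_left fun d => by
          rw [d] at c
          rcases Finset.mem_insert.1 a with rfl | a
          exacts [lt_irrefl _ c, (h2 σ a).not_gt c]
      rw [ih (fun _ a => h3 (Finset.mem_insert_of_mem a)) fun σ a =>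
        h5 σ (Finset.mem_insert_of_mem a), Finset.sum_insert h1, ← add_assoc]
      congr 1
      refine step_U1 (a := e (r τ)) (fun w hw => ((hG' τ hτ w).1 hw).1) (by have := he _ r1; rwa [r2] at this)
        (fun v hv => ?_) (fun w hw c => ?_) (fun w hw => ?_) (hm_sup_U1 h0 ?_)
        (sup_le (hb' τ hτ) (Ideal.span_le.2 ?_)) (fun g hg => ?_) (hc τ hτ) ?_ p
      · obtain ⟨a, b⟩ := (hG' τ hτ v).1 hv
        rw [(hG v a _ r1).2.2, b]
      · obtain ⟨a, b, d⟩ := hG w hw _ r1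
        exact d ▸ hb τ hτ _ a (fun k => c ((hG' τ hτ w).2 ⟨hw, k⟩)) (by rw [b, r2])
      · refine (sup_le (fun g hg => Ideal.mem_sup_left (h0' w hw g hg)) (Ideal.span_le.2 ?_) :
          J B ≤ (J B).comap (rename (R := ℂ) w))
        rintro _ ⟨H, ⟨a, b⟩, rfl⟩
        obtain ⟨c, d, k⟩ := hG w hw H a
        exact Ideal.mem_sup_right (Ideal.subset_span ⟨_, ⟨c, d ▸ b⟩, k.symm⟩)
      · rintro _ ⟨H, a, rfl⟩
        exact ⟨_, he H a.1⟩
      · rintro _ ⟨H, ⟨a, b⟩, rfl⟩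
        exact hb τ hτ H a (fun k => h1 (r2 ▸ k ▸ b)) (h2 _ b)
      · refine sup_le_sup_left (Ideal.span_mono (Set.image_mono fun H a => ?_)) J0 (ha τ hτ g hg)
        exact ⟨a.1, h5 τ (Finset.mem_insert_self _ _) _ (hA H a.1) a.2⟩
      · rw [sup_assoc, ← Ideal.span_union]
        refine congrArg (J0 ⊔ Ideal.span ·) (Set.ext fun x => ⟨?_, ?_⟩)
        · rintro ⟨H, ⟨a, b⟩, rfl⟩
          rcases Finset.mem_insert.1 b with b | b
          · obtain ⟨w, c, d⟩ := htr H a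
            exact Or.inr ⟨w, c, by rw [(hG w c _ r1).2.2, ← b, d]⟩
          · exact Or.inl ⟨H, ⟨a, b⟩, rfl⟩
        · rintro (⟨H, ⟨a, b⟩, rfl⟩ | ⟨w, a, rfl⟩)
          · exact ⟨H, ⟨a, Finset.mem_insert_of_mem b⟩, rfl⟩
          · obtain ⟨c, d, k⟩ := hG w a _ r1
            exact ⟨_, ⟨c, by rw [d, r2]; exact Finset.mem_insert_self _ _⟩, k.symm⟩
  have top : J A = ⊤ := by
    obtain ⟨F, a, b⟩ := hd
    exact (Ideal.eq_top_iff_one _).2 (Ideal.mem_sup_right (Ideal.subset_span ⟨F, ⟨a, hA F a⟩, b⟩))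
  have z : qd (An G p) ⊤ = 0 := by
    rw [qd, Submodule.restrictScalars_top]
    exact Module.finrank_zero_of_subsingleton
  rw [hs, PowerSeries.coeff_mk, key A subset_rfl fun _ _ _ a _ => a, top, z, zero_add, map_sum,
    Nat.cast_sum]
  refine Finset.sum_congr rfl fun τ _ => ?_
  rw [PowerSeries.coeff_X_pow_mul', hs, PowerSeries.coeff_mk]
  split_ifs
  · rfl
  · simp [qd]

end Pool.Agent.CS.EC
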