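import Pool.Agent.P.MP_d34769_ag.YU1
import Pool.Agent.P.MP_d34769_ag.YU2

/-! The two filtrations of a free block. -/

open MvPolynomial

noncomputable section
namespace Pool.Agent.CS.EC
open Pool.Agent.P.MP_d34769_ag
variable {I : Type} [Fintype I] [DecidableEq I] {col : I → Fin 3} {θ : V → ℝ}
  {b F H : Finset I} {c : List (Finset I × Fin 4)}

omit [Fintype I] in
theorem exists_sub (b : Finset I) :
    ∃ r : V → Finset I, ∀ f ≤ dvec col b, r f ⊆ b ∧ dvec col (r f) = f := by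
  have k : ∀ f : V, ∃ F : Finset I, f ≤ dvec col b → F ⊆ b ∧ dvec col F = f := by
    intro f
    by_cases h : f ≤ dvec col b
    · choose s hs hc using fun v => Finset.exists_subset_card_eq (h v)
      have m : ∀ v, ∀ i ∈ s v, i ∈ b ∧ col i = v := fun v i hi => Finset.mem_filter.1 (hs v hi)
      refine ⟨Finset.univ.biUnion s, fun _ => ⟨fun i hi => ?_, funext fun v => ?_⟩⟩
      · obtain ⟨v, -, hv⟩ := Finset.mem_biUnion.1 hi
        exact (m v i hv).1
      · rw [← hc v]
        refine congrArg Finset.card (Finset.ext fun i => ?_)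
        rw [Finset.mem_filter, Finset.mem_biUnion]
        exact ⟨fun ⟨⟨u, _, hu⟩, e⟩ => (e ▸ (m u i hu).2 ▸ hu :),
          fun hi => ⟨⟨v, Finset.mem_univ _, hi⟩, (m v i hi).2⟩⟩
    · exact ⟨∅, fun k => absurd k h⟩
  choose r hr using k
  exact ⟨r, hr⟩

theorem exists_Wb (hF : F ⊆ b) (hH : H ⊆ b) (e : dvec col F = dvec col H) :
    ∃ w ∈ Wb col b, F.image w = H := by
  induction hn : (F \ H).card using Nat.strong_induction_on generalizing F with
  | _ n ih =>
  rcases (F \ H).eq_empty_or_nonempty with h0 | ⟨k, hk⟩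
  · refine ⟨1, one_mem _, ?_⟩
    rw [Equiv.Perm.coe_one, Finset.image_id]
    refine Finset.eq_of_subset_of_card_le (Finset.sdiff_eq_empty_iff_subset.1 h0) ?_
    rw [← sz_dvec (col := col), ← sz_dvec (col := col), e]
  obtain ⟨kF, kH⟩ := Finset.mem_sdiff.1 hk
  obtain ⟨m, mH, mc, mF⟩ : ∃ m ∈ H, col m = col k ∧ m ∉ F := by
    by_contra! hc
    have s : (H.filter fun i => col i = col k) ⊆ F.filter fun i => col i = col k := fun i hi =>
      have q := Finset.mem_filter.1 hi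
      Finset.mem_filter.2 ⟨hc i q.1 q.2, q.2⟩
    have := Finset.eq_of_subset_of_card_le s (congrFun e (col k)).le
    exact kH (Finset.mem_filter.1 (this.symm ▸ Finset.mem_filter.2 ⟨kF, rfl⟩ :
      k ∈ H.filter fun i => col i = col k)).1
  have sc : ∀ i, col (Equiv.swap k m i) = col i := fun i => Equiv.apply_swap_eq_self mc.symm i
  have sw : Equiv.swap k m ∈ Wb col b := ⟨sc, fun i hi => Equiv.swap_apply_of_ne_of_ne
    (fun e => hi (e ▸ hF kF)) fun e => hi (e ▸ hH mH)⟩
  have key : ∀ x ∈ F.image (Equiv.swap k m), x = m ∨ x ∈ F.erase k := by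
    intro x hx
    obtain ⟨y, hy, rfl⟩ := Finset.mem_image.1 hx
    by_cases yk : y = k
    · exact .inl (yk ▸ Equiv.swap_apply_left _ _)
    · rw [Equiv.swap_apply_of_ne_of_ne yk (ne_of_mem_of_not_mem hy mF)]
      exact .inr (Finset.mem_erase.2 ⟨yk, hy⟩)
  have lt : (F.image (Equiv.swap k m) \ H).card < n := by
    rw [← hn]
    refine (Finset.card_le_card fun x hx => ?_).trans_lt (Finset.card_erase_lt_of_mem hk)
    obtain ⟨x1, x2⟩ := Finset.mem_sdiff.1 hx
    obtain rfl | q := key x x1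
    · exact absurd mH x2
    · have q' := Finset.mem_erase.1 q
      exact Finset.mem_erase.2 ⟨q'.1, Finset.mem_sdiff.2 ⟨q'.2, x2⟩⟩
  obtain ⟨w, hw, ew⟩ := ih _ lt (fun x hx => (key x hx).elim (fun q => q ▸ hH mH)
    fun q => hF (Finset.mem_of_mem_erase q)) ((dvec_image _ sc F).trans e) rfl
  exact ⟨w * Equiv.swap k m, mul_mem hw sw, by rw [Equiv.Perm.coe_mul, ← Finset.image_image, ew]⟩

theorem Wb_le_U3 {l : List (Finset I)} (h : Pa (b :: l)) : Wb col b ≤ WL col (b :: l) := by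
  intro w hw
  have k : ∀ i ∈ b, w i ∈ b := fun i hi => by
    by_contra q
    exact q ((w.injective (hw.2 _ q)).symm ▸ hi)
  refine ⟨hw.1, fun a ha i => ?_⟩
  by_cases hi : i ∈ b
  · rcases List.mem_cons.1 ha with rfl | ha
    · exact iff_of_true (k i hi) hi
    · have d := Finset.disjoint_left.1 ((List.pairwise_cons.1 h.disj).1 a ha)
      exact iff_of_false (d (k i hi)) (d hi)
  · rw [hw.2 i hi]

theorem WL_split_U3 {l : List (Finset I)} (hF : F ⊆ b) (w : Equiv.Perm I) :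
    w ∈ WL col (F :: (b \ F) :: l) ↔ w ∈ WL col (b :: l) ∧ F.image w = F := by
  constructor
  · intro h
    refine ⟨⟨h.1, fun a ha i => ?_⟩, image_WL h List.mem_cons_self⟩
    rcases List.mem_cons.1 ha with rfl | ha
    · have h1 := h.2 F List.mem_cons_self i
      have h2 := h.2 (a \ F) (List.mem_cons_of_mem _ List.mem_cons_self) i
      have h3 := @hF i
      have h4 := @hF (w i)
      rw [Finset.mem_sdiff, Finset.mem_sdiff] at h2
      tauto
    · exact h.2 a (List.mem_cons_of_mem _ (List.mem_cons_of_mem _ ha)) i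
  · rintro ⟨h, e⟩
    have k : ∀ i, w i ∈ F ↔ i ∈ F := fun i => by
      conv_lhs => rw [← e]
      exact w.injective.mem_finset_image
    refine ⟨h.1, fun a ha i => ?_⟩
    rcases List.mem_cons.1 ha with rfl | ha
    · exact k i
    rcases List.mem_cons.1 ha with rfl | ha
    · rw [Finset.mem_sdiff, Finset.mem_sdiff, k i, h.2 b List.mem_cons_self i]
    · exact h.2 a (List.mem_cons_of_mem _ ha) i

theorem step_U3 {L : Type} [LinearOrder L] (h : Pa (b :: c.map Prod.fst)) (r : V → Finset I)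
    (hr : ∀ f ≤ dvec col b, r f ⊆ b ∧ dvec col (r f) = f) (s t : Fin 4) (val : V → L)
    (δ : V → ℕ) (e : Finset I → MvPolynomial I ℂ)
    (eq : ∀ w : Equiv.Perm I, (∀ i, col (w i) = col i) → b.image w = b → ∀ F,
      rename w (e F) = e (F.image w))
    (he : ∀ F ⊆ b, (e F).IsHomogeneous (δ (dvec col F)))
    (ha : ∀ F ⊆ b, ∀ g, g ∈ gen col θ s F ∨ g ∈ gen col θ t (b \ F) →
      ∃ H ⊆ b, val (dvec col F) < val (dvec col H) ∧ e H ∣ g * e F)
    (hb : ∀ F ⊆ b, ∀ H ⊆ b, H ≠ F → val (dvec col F) ≤ val (dvec col H) →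
      ∃ g, (g ∈ gen col θ s F ∨ g ∈ gen col θ t (b \ F)) ∧ g ∣ e H)
    (hc : ∀ F ⊆ b, Nz (JJ col θ ((F, s) :: (b \ F, t) :: c)) (e F)) (hd : e ∅ = 1) :
    HS col θ ((b, 1) :: c) = ∑ f ∈ Finset.Iic (dvec col b),
      PowerSeries.X ^ δ f * HS col θ ((r f, s) :: (b \ r f, t) :: c) := by
  have hr' : ∀ f ∈ Finset.Iic (dvec col b), r f ⊆ b ∧ dvec col (r f) = f := fun f hf =>
    hr f (Finset.mem_Iic.1 hf)
  refine filt (WL col (b :: c.map Prod.fst)) b.powerset (dvec col) val δ e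
    (JJ col θ ((b, 1) :: c)) (Finset.Iic (dvec col b)) r
    (fun f => WL col (r f :: (b \ r f) :: c.map Prod.fst))
    (fun f => JJ col θ ((r f, s) :: (b \ r f, t) :: c))
    (fun F hF => Finset.mem_Iic.2 (dvec_mono (Finset.mem_powerset.1 hF)))
    (fun f hf => ⟨Finset.mem_powerset.2 (hr' f hf).1, (hr' f hf).2⟩) (fun w hw F hF => ?_)
    (fun F hF => ?_) (fun f hf w => WL_split_U3 (hr' f hf).1 w)
    (fun F hF => he F (Finset.mem_powerset.1 hF)) JJ_hm
    (fun w hw g hg => JJ_rename (c := (b, 1) :: c) hw hg) (fun f hf g hg => ?_)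
    (fun f hf H hH ne le => ?_) (fun f hf => Ideal.span_mono ?_) (fun f hf => hc _ (hr' f hf).1)
    ⟨∅, Finset.empty_mem_powerset _, hd⟩
  · have q := image_WL hw List.mem_cons_self
    exact ⟨Finset.mem_powerset.2 (q ▸ Finset.image_subset_image (Finset.mem_powerset.1 hF)),
      dvec_image w hw.1 F, eq w hw.1 q F⟩
  · have hF := Finset.mem_powerset.1 hF
    have q := hr _ (dvec_mono (col := col) hF)
    obtain ⟨w, hw, ew⟩ := exists_Wb q.1 hF q.2
    exact ⟨w, Wb_le_U3 h hw, ew⟩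
  · obtain ⟨q1, q2⟩ := hr' f hf
    have k : ∀ g, g ∈ gen col θ s (r f) ∨ g ∈ gen col θ t (b \ r f) → g * e (r f) ∈
        JJ col θ ((b, 1) :: c) ⊔
          Ideal.span (e '' {H | H ∈ b.powerset ∧ val f < val (dvec col H)}) := by
      intro g hg
      obtain ⟨H, h1, h2, h3⟩ := ha _ q1 g hg
      exact Ideal.mem_sup_right (Ideal.mem_of_dvd _ h3
        (Ideal.subset_span ⟨H, ⟨Finset.mem_powerset.2 h1, q2 ▸ h2⟩, rfl⟩))
    refine Submodule.span_induction (fun g hg => ?_) (by rw [zero_mul]; exact zero_mem _)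
      (fun x y _ _ hx hy => by rw [add_mul]; exact add_mem hx hy)
      (fun a x _ hx => by rw [smul_eq_mul, mul_assoc]; exact Ideal.mul_mem_left _ _ hx) hg
    obtain ⟨x, hx, hg⟩ := hg
    rcases List.mem_cons.1 hx with rfl | hx
    · exact k g (.inl hg)
    rcases List.mem_cons.1 hx with rfl | hx
    · exact k g (.inr hg)
    · exact Ideal.mem_sup_left (Ideal.mul_mem_right _ _
        (Ideal.subset_span ⟨x, List.mem_cons_of_mem _ hx, hg⟩))
  · obtain ⟨q1, q2⟩ := hr' f hf
    obtain ⟨g, hg, d⟩ := hb _ q1 H (Finset.mem_powerset.1 hH) ne (q2.symm ▸ le)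
    refine Ideal.mem_of_dvd _ d (Ideal.subset_span ?_)
    rcases hg with hg | hg
    · exact ⟨_, List.mem_cons_self, hg⟩
    · exact ⟨_, List.mem_cons_of_mem _ List.mem_cons_self, hg⟩
  · rintro g ⟨x, hx, hg⟩
    rcases List.mem_cons.1 hx with rfl | hx
    · exact absurd hg (Set.notMem_empty g)
    · exact ⟨x, List.mem_cons_of_mem _ (List.mem_cons_of_mem _ hx), hg⟩

theorem step_PN (hθ : ∀ a b, θ (a + b) = θ a + θ b) (h : Pa (b :: c.map Prod.fst))
    (r : V → Finset I) (hr : ∀ f ≤ dvec col b, r f ⊆ b ∧ dvec col (r f) = f) :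
    HS col θ ((b, 1) :: c) = ∑ f ∈ Finset.Iic (dvec col b),
      PowerSeries.X ^ dl f (dvec col b - f) * HS col θ ((r f, 2) :: (b \ r f, 3) :: c) := by
  refine step_U3 h r hr 2 3 (fun f => toLex (θ f, sz f)) (fun f => dl f (dvec col b - f))
    (eul col b) (fun w hw q F => by rw [eul_rename w hw, q]) (fun F hF => eul_hom hF)
    (fun F hF g hg => ?_) (fun F hF H hH ne le => ?_) (fun F hF => ?_) (eul_empty b)
  · rcases hg with ⟨G, h1, h2, rfl⟩ | ⟨G, h1, h2, h3, rfl⟩
    · exact ⟨G, h1.trans hF, Prod.Lex.lt_iff.2 (.inl h2), eul_dvd_sub h1 hF⟩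
    · refine ⟨F ∪ G, Finset.union_subset hF (h1.trans Finset.sdiff_subset), ?_, eul_dvd_union h1⟩
      rw [dvec_union (Finset.disjoint_sdiff.mono_right h1), Prod.Lex.lt_iff]
      have p : 0 < G.card := Finset.card_pos.2 (Finset.nonempty_iff_ne_empty.2 h2)
      simp only [ofLex_toLex, hθ, sz_add, sz_dvec]
      rcases h3.eq_or_lt with q | q
      · exact .inr ⟨by rw [← q, add_zero], by omega⟩
      · exact .inl (lt_add_of_pos_right _ q)
  · by_cases q : θ (dvec col F) < θ (dvec col (H ∩ F))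
    · exact ⟨_, .inl ⟨H ∩ F, Finset.inter_subset_right, q, rfl⟩, eul_dvd_inter hF H⟩
    have u : H ∩ F ∪ H ∩ (b \ F) = H := by
      rw [← Finset.inter_union_distrib_left, Finset.union_sdiff_of_subset hF,
        Finset.inter_eq_left.2 hH]
    have v : θ (dvec col H) = θ (dvec col (H ∩ F)) + θ (dvec col (H ∩ (b \ F))) := by
      rw [← hθ, ← dvec_union (Finset.disjoint_sdiff.mono Finset.inter_subset_right
        Finset.inter_subset_right), u]
    rw [Prod.Lex.le_iff] at le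
    simp only [ofLex_toLex, sz_dvec] at le
    have le' : θ (dvec col F) ≤ θ (dvec col H) := le.elim le_of_lt fun k => k.1.le
    refine ⟨_, .inr ⟨H ∩ (b \ F), Finset.inter_subset_right, fun z => ?_, by linarith, rfl⟩,
      eul_dvd_inter Finset.sdiff_subset H⟩
    rw [z, Finset.union_empty] at u
    rw [u] at q
    exact ne (Finset.eq_of_subset_of_card_le (Finset.inter_eq_left.1 u)
      (le.elim (fun k => absurd k q) fun k => k.2))
  · exact Nz.prod _ _ fun k hk => Nz.prod _ _ fun m hm => Nz.pow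
      (nz_sub (c := (F, 2) :: (b \ F, 3) :: c) (h.split hF) List.mem_cons_self
        (show (2 : Fin 4) ≠ 0 by decide) hk (Finset.mem_sdiff.1 hm).2).1 _

theorem step_Z (h : Pa (b :: c.map Prod.fst))
    (r : V → Finset I) (hr : ∀ f ≤ dvec col b, r f ⊆ b ∧ dvec col (r f) = f) :
    HS col θ ((b, 1) :: c) = ∑ f ∈ Finset.Iic (dvec col b),
      PowerSeries.X ^ sz f * HS col θ ((r f, 1) :: (b \ r f, 0) :: c) := by
  refine step_U3 h r hr 1 0 sz sz (fun F => ∏ k ∈ F, X k) (fun w _ _ F => ?_) (fun F _ => ?_)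
    (fun F hF g hg => ?_) (fun F _ H hH ne le => ?_) (fun F hF => ?_) Finset.prod_empty
  · rw [map_prod, Finset.prod_image w.injective.injOn]
    exact Finset.prod_congr rfl fun k _ => rename_X _ _
  · rw [sz_dvec, Finset.card_eq_sum_ones]
    exact IsHomogeneous.prod _ _ _ fun k _ => isHomogeneous_X ℂ k
  · rcases hg with hg | ⟨k, hk, rfl⟩
    · exact absurd hg (Set.notMem_empty g)
    · obtain ⟨k1, k2⟩ := Finset.mem_sdiff.1 (Finset.mem_coe.1 hk)
      refine ⟨insert k F, Finset.insert_subset k1 hF, ?_, by rw [Finset.prod_insert k2]⟩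
      rw [sz_dvec, sz_dvec, Finset.card_insert_of_notMem k2]
      exact Nat.lt_succ_self _
  · rw [sz_dvec, sz_dvec] at le
    obtain ⟨k, k1, k2⟩ := Finset.not_subset.1 fun q => ne (Finset.eq_of_subset_of_card_le q le)
    exact ⟨X k, .inr ⟨k, Finset.mem_coe.2 (Finset.mem_sdiff.2 ⟨hH k1, k2⟩), rfl⟩,
      Finset.dvd_prod_of_mem _ k1⟩
  · exact Nz.prod _ _ fun k hk =>
      nz_X (c := (F, 1) :: (b \ F, 0) :: c) (h.split hF) List.mem_cons_self one_ne_zero hk

end Pool.Agent.CS.EC
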