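import Pool.Agent.P.MP_d34769_ag.YU0

/-! Identities of power series. -/

open PowerSeries

noncomputable section
namespace Pool.Agent.CS.EC
open Pool.Agent.P.MP_d34769_ag
variable {θ : V → ℝ} {P N : V → ℚ⟦X⟧}

theorem sum_Iic_Iic {M : Type} [AddCommMonoid M] (e : V) (F : V → V → V → M) :
    ∑ f ∈ Finset.Iic e, ∑ g ∈ Finset.Iic f, F g (f - g) (e - f) =
      ∑ g ∈ Finset.Iic e, ∑ h ∈ Finset.Iic (e - g), F g h (e - g - h) := by
  simp only [Finset.sum_sigma']
  refine Finset.sum_nbij' (fun x => ⟨x.2, x.1 - x.2⟩) (fun x => ⟨x.1 + x.2, x.1⟩) ?_ ?_ ?_ ?_ ?_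
  all_goals
    rintro ⟨a, b⟩ h
    simp only [Finset.mem_sigma, Finset.mem_Iic] at h ⊢
  · exact ⟨h.2.trans h.1, tsub_le_tsub_right h.1 b⟩
  · exact ⟨(le_tsub_iff_left h.1).1 h.2, le_self_add⟩
  · simp only [add_tsub_cancel_of_le h.2]
  · simp only [add_tsub_cancel_left]
  · rw [tsub_tsub, add_tsub_cancel_of_le h.2]

theorem sum_Iic_refl {M : Type} [AddCommMonoid M] (e : V) (F : V → V → M) :
    ∑ f ∈ Finset.Iic e, F f (e - f) = ∑ f ∈ Finset.Iic e, F (e - f) f := by
  refine Finset.sum_nbij' (fun x => e - x) (fun x => e - x) ?_ ?_ ?_ ?_ ?_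
  all_goals
    intro a h
    simp only [Finset.mem_Iic] at h ⊢
  exacts [tsub_le_self, tsub_le_self, tsub_tsub_cancel_of_le h, tsub_tsub_cancel_of_le h,
    by rw [tsub_tsub_cancel_of_le h]]

theorem sum_prod_U5 (d : V) (F : Fin 3 → ℕ → ℚ⟦X⟧) :
    ∑ f ∈ Finset.Iic d, ∏ v, F v (f v) = ∏ v, ∑ n ∈ Finset.range (d v + 1), F v n := by
  rw [Finset.prod_univ_sum]
  exact Finset.sum_congr (by ext f; simp [Pi.le_def]) fun _ _ => rfl

theorem iq_zero : iq 0 = 1 := rfl

theorem iq_succ (n : ℕ) : (1 - X ^ (n + 1)) * iq (n + 1) = iq n := by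
  rw [iq, Finset.prod_range_succ, mul_left_comm, PowerSeries.mul_inv_cancel _ (by simp), mul_one, iq]

theorem one_sub_ne (n : ℕ) : (1 - X ^ (n + 1) : ℚ⟦X⟧) ≠ 0 := fun h => by
  simpa using congrArg constantCoeff h

theorem choose_U5 (n : ℕ) : (n + 1).choose 2 = n + n.choose 2 := by
  rw [Nat.choose_succ_succ' n 1, Nat.choose_one_right]

theorem hF_zero : hF 0 = 1 := by simp [hF, iq_zero]

theorem hF_rec (d : V) : hF d = ∑ f ∈ Finset.Iic d, X ^ sz f * (hF f * hZ (d - f)) := by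
  have e : ∀ f : V, X ^ sz f * (hF f * hZ (d - f)) = ∏ v, X ^ f v *
      (X ^ (f v).choose 2 * iq (f v) * if d v - f v ≤ 1 then 1 else 0) := fun f => by
    rw [Finset.prod_mul_distrib, Finset.prod_mul_distrib, Finset.prod_pow_eq_pow_sum, ← sz_eq,
      Finset.prod_boole]
    simp [hF, hZ]
  simp only [e]
  rw [sum_prod_U5 d fun v n => X ^ n * (X ^ n.choose 2 * iq n * if d v - n ≤ 1 then 1 else 0)]
  refine Finset.prod_congr rfl fun v _ => ?_
  generalize d v = n
  cases n with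
  | zero => simp
  | succ n =>
    rw [Finset.sum_range_succ, Finset.sum_range_succ, Finset.sum_eq_zero fun j hj => by
      rw [if_neg (by have := Finset.mem_range.1 hj; omega), mul_zero, mul_zero], if_pos (by omega),
      if_pos (by omega), choose_U5, ← iq_succ n]
    ring

theorem rec_U5 {R : Type} [Zero R] (T : (V → R) → V → R)
    (h : ∀ p p' e, (∀ f, sz f < sz e → p f = p' f) → T p e = T p' e) : ∃ p, ∀ e, p e = T p e := by
  have k : ∀ a b e, sz e < a → sz e < b → T^[a] 0 e = T^[b] 0 e := fun a => by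
    induction a with
    | zero => intro _ _ c; omega
    | succ a ih =>
      rintro (_ | b) e c c'
      · omega
      · rw [Function.iterate_succ_apply', Function.iterate_succ_apply']
        exact h _ _ _ fun f hf => ih _ _ (by omega) (by omega)
  exact ⟨fun e => T^[sz e + 1] 0 e, fun e => (congrFun (Function.iterate_succ_apply' T _ 0) e).trans
    (h _ _ _ fun f hf => k _ _ _ hf (Nat.lt_succ_self _))⟩

theorem dl_zero_left (g : V) : dl 0 g = 0 := by simp [dl]

theorem dl_zero_right (f : V) : dl f 0 = 0 := by simp [dl]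

theorem exists_bk (hθ : ∀ a b, θ (a + b) = θ a + θ b) : ∃ P N, Bk θ P N := by
  classical
  obtain ⟨k, hk⟩ := rec_U5 (fun k d => hF d - ∑ f ∈ ((Finset.Iic d).erase d).erase 0,
    X ^ dl f (d - f) * ((if 0 ≤ θ f then k f else 0) * if θ (d - f) < 0 then k (d - f) else 0))
    fun p p' e h => by
      refine congrArg _ (Finset.sum_congr rfl fun f hf => ?_)
      simp only [Finset.mem_erase, Finset.mem_Iic] at hf
      rw [h f (sz_lt hf.2.2 hf.2.1), h (e - f) (sz_lt tsub_le_self fun c => hf.1 ?_)]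
      rw [← tsub_tsub_cancel_of_le hf.2.2, c, tsub_self]
  have i0 : Finset.Iic (0 : V) = {0} := Finset.Iic_bot
  have k0 : k 0 = 1 := by rw [hk, i0]; simp [hF_zero]
  refine ⟨fun d => if 0 ≤ θ d then k d else 0, fun d => if d = 0 ∨ θ d < 0 then k d else 0,
    by simp [th0 hθ, k0], by simp [k0], fun d h => if_neg h.not_ge,
    fun d h h' => if_neg fun c => c.elim h h'.not_gt, fun d => ?_⟩
  rcases eq_or_ne d 0 with rfl | hd
  · simp [i0, hF_zero, th0 hθ, k0, dl_zero_left]
  rw [← Finset.add_sum_erase _ _ (Finset.mem_Iic.2 le_rfl), ← Finset.add_sum_erase _ _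
    (Finset.mem_erase.2 ⟨hd.symm, Finset.mem_Iic.2 zero_le⟩), ← add_assoc,
    ← sub_eq_iff_eq_add, Finset.sum_congr rfl fun f hf => ?_, ← hk]
  · by_cases c : θ d < 0
    · simp [c, c.not_ge, k0, th0 hθ, dl_zero_left]
    · simp [c, not_lt.1 c, hd, k0, dl_zero_right]
  · simp only [Finset.mem_erase, Finset.mem_Iic] at hf
    simp only [tsub_eq_zero_iff_le, show ¬ d ≤ f from fun c => hf.2.1 (le_antisymm hf.2.2 c),
      false_or]

theorem qbin_U5 (n : ℕ) : ∑ f ∈ Finset.range (n + 1), (-1) ^ (n - f) * iq (n - f) *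
    (X ^ f.choose 2 * iq f) = if n = 0 then 1 else 0 := by
  cases n with
  | zero => simp [iq_zero]
  | succ n =>
    rw [if_neg n.succ_ne_zero, ← Finset.Nat.sum_antidiagonal_eq_sum_range_succ
      fun f g => (-1) ^ g * iq g * (X ^ f.choose 2 * iq f)]
    refine (mul_eq_zero.1 ?_).resolve_left (one_sub_ne n)
    rw [Finset.mul_sum, Finset.sum_congr rfl (g := fun p => (-1) ^ p.2 * iq p.2 *
      (X ^ p.1.choose 2 * ((1 - X ^ p.1) * iq p.1)) + (-1) ^ p.2 * ((1 - X ^ p.2) * iq p.2) *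
      (X ^ (p.1 + p.1.choose 2) * iq p.1)) fun p hp => by
        rw [← Finset.HasAntidiagonal.mem_antidiagonal.1 hp]; ring, Finset.sum_add_distrib,
      Finset.Nat.sum_antidiagonal_succ, Finset.Nat.sum_antidiagonal_succ']
    simp only [iq_succ, choose_U5, pow_zero, sub_self, zero_mul, mul_zero, zero_add]
    rw [← Finset.sum_add_distrib]
    exact Finset.sum_eq_zero fun p _ => by ring

/-- the inverse of `hF` for the twisted product -/
theorem hF_inv (e : V) : ∑ f ∈ Finset.Iic e, X ^ dl (e - f) e *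
    ((-1) ^ sz (e - f) * (∏ v, iq (e v - f v)) * hF f) = if e = 0 then 1 else 0 := by
  have k : ∀ f : V, X ^ dl (e - f) e * ((-1) ^ sz (e - f) * (∏ v, iq (e v - f v)) * hF f) =
      ∏ v, (X ^ ((![2, 0, 1] v * e 1) * (e v - f v)) * ((-1) ^ (e v - f v) * iq (e v - f v) *
        (X ^ (f v).choose 2 * iq (f v))) : ℚ⟦X⟧) := fun f => by
    simp only [Fin.prod_univ_three, hF, dl, sz, Pi.sub_apply, Matrix.cons_val]
    ring
  simp only [k]
  rw [sum_prod_U5 e fun v n => X ^ ((![2, 0, 1] v * e 1) * (e v - n)) *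
    ((-1) ^ (e v - n) * iq (e v - n) * (X ^ n.choose 2 * iq n))]
  by_cases c : e 1 = 0
  · simp only [c, mul_zero, zero_mul, pow_zero, one_mul, qbin_U5, Finset.prod_boole]
    simp [funext_iff]
  · rw [if_neg fun h => c (by rw [h]; rfl)]
    refine Finset.prod_eq_zero (Finset.mem_univ 1) ?_
    simpa [c] using qbin_U5 (e 1)

theorem Bk.rec_P (hθ : ∀ a b, θ (a + b) = θ a + θ b) (h : Bk θ P N) {e : V} (he : e ≠ 0)
    (h0 : 0 ≤ θ e) : ∑ f ∈ Finset.Iic e, X ^ dl (e - f) e *
      ((-1) ^ sz (e - f) * (∏ v, iq (e v - f v)) * P f) = 0 := by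
  let a : V → ℚ⟦X⟧ := fun g => X ^ dl g g * ((-1) ^ sz g * ∏ v, iq (g v))
  have e1 : ∀ (Q : V → ℚ⟦X⟧) e, ∑ f ∈ Finset.Iic e, X ^ dl (e - f) e *
      ((-1) ^ sz (e - f) * (∏ v, iq (e v - f v)) * Q f) =
      ∑ g ∈ Finset.Iic e, X ^ dl g (e - g) * (a g * Q (e - g)) := fun Q e => by
    rw [sum_Iic_refl e fun g f => X ^ dl g f * (a g * Q f)]
    refine Finset.sum_congr rfl fun f hf => ?_
    have : dl (e - f) e = dl (e - f) f + dl (e - f) (e - f) := by
      rw [dl, dl, dl, ← mul_add, ← Pi.add_apply, add_tsub_cancel_of_le (Finset.mem_Iic.1 hf)]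
    simp only [this, a, Pi.sub_apply]
    ring
  rw [e1]
  induction hn : sz e using Nat.strong_induction_on generalizing e with
  | _ n ih =>
  have k := hF_inv e
  rw [e1, if_neg he] at k
  simp only [h.eq, Finset.mul_sum] at k
  rw [Finset.sum_congr rfl fun g _ => Finset.sum_congr rfl fun f hf => ?_,
    ← sum_Iic_Iic e fun g f m => X ^ dl (g + f) m * (X ^ dl g f * (a g * P f) * N m),
    Finset.sum_eq_single_of_mem e (Finset.mem_Iic.2 le_rfl) fun f hf c => ?_] at k
  · simpa [h.N0, dl_zero_right] using k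
  · rw [Finset.mem_Iic] at hf
    rw [Finset.sum_congr rfl fun g hg => by rw [add_tsub_cancel_of_le (Finset.mem_Iic.1 hg)],
      ← Finset.mul_sum, ← Finset.sum_mul]
    by_cases m : θ (e - f) < 0
    · rw [th_sub hθ hf] at m
      rw [ih _ (hn ▸ sz_lt hf c) (fun z => by rw [z, th0 hθ] at m; linarith) (by linarith) rfl,
        zero_mul, mul_zero]
    · rw [h.Nz _ (fun z => c (le_antisymm hf (tsub_eq_zero_iff_le.1 z))) (not_lt.1 m), mul_zero,
        mul_zero]
  · have : dl g (e - g) + dl f (e - g - f) = dl (g + f) (e - g - f) + dl g f := by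
      conv_lhs => rw [← add_tsub_cancel_of_le (Finset.mem_Iic.1 hf)]
      simp only [dl, Pi.add_apply, add_tsub_cancel_left]
      ring
    rw [← mul_assoc (X ^ dl (g + f) _), ← mul_assoc (X ^ dl (g + f) _), ← pow_add, ← this]
    ring

end Pool.Agent.CS.EC
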