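import Pool.Agent.P.MP_d34769_ag.YU3
import Pool.Agent.P.MP_d34769_ag.YU5

/-! The Hilbert series of a list of labelled blocks is a product. -/

open MvPolynomial

noncomputable section
namespace Pool.Agent.CS.EC
open Pool.Agent.P.MP_d34769_ag
variable {I : Type} [Fintype I] [DecidableEq I] {col : I → Fin 3} {θ : V → ℝ}
  {c : List (Finset I × Fin 4)} {P N : V → PowerSeries ℚ}

omit [Fintype I] in
theorem gen_empty_U4 (t : Fin 4) : gen col θ t ∅ = ∅ := by
  rw [Set.eq_empty_iff_forall_notMem]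
  intro e he
  fin_cases t
  · simp [gen] at he
  · simp [gen] at he
  · obtain ⟨G, hG, h1, -⟩ := he
    rw [Finset.subset_empty.1 hG] at h1
    exact lt_irrefl _ h1
  · obtain ⟨G, hG, h1, -⟩ := he
    exact h1 (Finset.subset_empty.1 hG)

theorem HS_ext_U4 {c' : List (Finset I × Fin 4)} (h : ∀ x ∈ c, x.1 = ∅ ∨ x ∈ c')
    (h' : ∀ x ∈ c', x.1 = ∅ ∨ x ∈ c) : HS col θ c = HS col θ c' := by
  have k1 : ∀ a a' : List (Finset I × Fin 4), (∀ x ∈ a, x.1 = ∅ ∨ x ∈ a') →
      WL col (a'.map Prod.fst) ≤ WL col (a.map Prod.fst) := by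
    intro a a' e w hw
    refine ⟨hw.1, fun b hb i => ?_⟩
    obtain ⟨x, hx, rfl⟩ := List.mem_map.1 hb
    rcases e x hx with k | k
    · simp [k]
    · exact hw.2 _ (List.mem_map_of_mem k) i
  have k2 : ∀ a a' : List (Finset I × Fin 4), (∀ x ∈ a, x.1 = ∅ ∨ x ∈ a') →
      JJ col θ a ≤ JJ col θ a' := by
    intro a a' e
    refine Ideal.span_mono ?_
    rintro g ⟨x, hx, hg⟩
    rcases e x hx with k | k
    · rw [k, gen_empty_U4] at hg
      exact hg.elim
    · exact ⟨x, k, hg⟩
  unfold HS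
  rw [le_antisymm (k1 c' c h') (k1 c c' h), le_antisymm (k2 c c' h) (k2 c' c h')]

omit [Fintype I] [DecidableEq I] in
theorem qd_zero_U4 {U : Submodule ℂ (MvPolynomial I ℂ)} {J : Ideal (MvPolynomial I ℂ)}
    (h : ∀ g ∈ U, g ∈ J) : qd U J = 0 := by
  have e : U.map (J.restrictScalars ℂ).mkQ = ⊥ := by
    rw [eq_bot_iff]
    rintro _ ⟨g, hg, rfl⟩
    exact (Submodule.Quotient.mk_eq_zero _).2 (h g hg)
  unfold qd
  rw [e, finrank_bot]

theorem HS_top_U4 (h : (1 : MvPolynomial I ℂ) ∈ JJ col θ c) : HS col θ c = 0 := by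
  ext p
  rw [HS, hs, PowerSeries.coeff_mk, qd_zero_U4 fun g _ => by
    simpa using (JJ col θ c).mul_mem_left g h]
  simp

theorem JJ_base_U4 (h : Pa (c.map Prod.fst)) (h0 : ∀ x ∈ c, x.2 = 0 ∨ x.1 = ∅) :
    JJ col θ c = Ideal.span (X '' (Set.univ : Set I)) := by
  unfold JJ
  congr 1
  ext e
  constructor
  · rintro ⟨x, hx, he⟩
    rcases h0 x hx with k | k
    · rw [k] at he
      obtain ⟨i, -, rfl⟩ := he
      exact ⟨i, trivial, rfl⟩
    · rw [k, gen_empty_U4] at he
      exact he.elim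
  · rintro ⟨i, -, rfl⟩
    obtain ⟨b, hb, hi⟩ := h.cover i
    obtain ⟨x, hx, rfl⟩ := List.mem_map.1 hb
    rcases h0 x hx with k | k
    · exact ⟨x, hx, by rw [k]; exact ⟨i, hi, rfl⟩⟩
    · rw [k] at hi
      exact (Finset.notMem_empty _ hi).elim

theorem HS_base (h : Pa (c.map Prod.fst)) (h0 : ∀ x ∈ c, x.2 = 0 ∨ x.1 = ∅) :
    HS col θ c = (c.map fun x => hZ (dvec col x.1)).prod := by
  have hJ := JJ_base_U4 (col := col) (θ := θ) h h0
  have pos : ∀ p, p ≠ 0 → qd (An (WL col (c.map Prod.fst)) p) (JJ col θ c) = 0 := by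
    intro p hp
    refine qd_zero_U4 fun g hg => ?_
    rw [hJ, mem_ideal_span_X_image]
    intro m hm
    by_contra k
    have e : m = 0 := by
      ext i
      by_contra k'
      exact k ⟨i, trivial, k'⟩
    have := hg.1 (mem_support_iff.1 hm)
    rw [e, map_zero] at this
    exact hp this.symm
  have con : ∀ g : MvPolynomial I ℂ, g.IsHomogeneous 0 → ∃ a, g = C a := fun g hg =>
    ⟨_, totalDegree_eq_zero_iff_eq_C.1 (Nat.le_zero.1 hg.totalDegree_le)⟩
  by_cases k : ∀ x ∈ c, ∀ v, dvec col x.1 v ≤ 1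
  · have e1 : (c.map fun x => hZ (dvec col x.1)).prod = 1 := by
      refine List.prod_eq_one fun y hy => ?_
      obtain ⟨x, hx, rfl⟩ := List.mem_map.1 hy
      exact if_pos (k x hx)
    have e2 : ∀ w ∈ WL col (c.map Prod.fst), w = 1 := by
      intro w hw
      ext i
      obtain ⟨b, hb, hi⟩ := h.cover i
      have hi' := (hw.2 b hb i).2 hi
      obtain ⟨x, hx, rfl⟩ := List.mem_map.1 hb
      exact Finset.card_le_one.1 (k x hx (col i)) _ (Finset.mem_filter.2 ⟨hi', hw.1 i⟩) _
        (Finset.mem_filter.2 ⟨hi, rfl⟩)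
    have e3 : An (WL col (c.map Prod.fst)) 0 = Submodule.span ℂ {1} := by
      refine le_antisymm (fun g hg => ?_) ?_
      · obtain ⟨a, rfl⟩ := con g hg.1
        exact Submodule.mem_span_singleton.2 ⟨a, by rw [smul_eq_C_mul, mul_one]⟩
      · rw [Submodule.span_singleton_le_iff_mem]
        exact ⟨isHomogeneous_one _ _, fun w hw => by rw [e2 w hw]; simp⟩
    have e4 : qd (An (WL col (c.map Prod.fst)) 0) (JJ col θ c) = 1 := by
      unfold qd
      rw [e3, Submodule.map_span, Set.image_singleton]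
      refine finrank_span_singleton fun z => ?_
      have z' : (1 : MvPolynomial I ℂ) ∈ JJ col θ c := (Submodule.Quotient.mk_eq_zero _).1 z
      rw [hJ, mem_ideal_span_X_image] at z'
      obtain ⟨i, -, hi⟩ := z' 0 (by simp)
      exact hi rfl
    ext p
    rw [e1, HS, hs, PowerSeries.coeff_mk, PowerSeries.coeff_one]
    split_ifs with hp
    · rw [hp, e4, Nat.cast_one]
    · rw [pos p hp, Nat.cast_zero]
  · push Not at k
    obtain ⟨x, hx, v, hv⟩ := k
    have e1 : (c.map fun x => hZ (dvec col x.1)).prod = 0 :=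
      List.prod_eq_zero (List.mem_map.2 ⟨x, hx, if_neg fun k => (k v).not_gt hv⟩)
    obtain ⟨i, hi, j, hj, hij⟩ := Finset.one_lt_card.1 hv
    rw [Finset.mem_filter] at hi hj
    have e2 : Equiv.swap i j ∈ WL col (c.map Prod.fst) := by
      have key : ∀ {A : Type} (f : I → A), f i = f j → ∀ m, f (Equiv.swap i j m) = f m := by
        intro A f e m
        rw [Equiv.swap_apply_def]
        split_ifs with a1 a2
        · rw [a1, e]
        · rw [a2, e]
        · rfl
      refine ⟨key col (hi.2.trans hj.2.symm), fun b hb m => ?_⟩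
      refine (key (fun m => m ∈ b) ?_ m).to_iff
      by_cases e : b = x.1
      · rw [e]
        exact propext (iff_of_true hi.1 hj.1)
      · have hd : Disjoint b x.1 :=
          h.disj.forall hb (List.mem_map_of_mem hx) e
        exact propext (iff_of_false (fun a => Finset.disjoint_left.1 hd a hi.1)
          fun a => Finset.disjoint_left.1 hd a hj.1)
    ext p
    rw [e1, HS, hs, PowerSeries.coeff_mk, map_zero]
    by_cases hp : p = 0
    · rw [hp, qd_zero_U4, Nat.cast_zero]
      intro g hg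
      obtain ⟨a, rfl⟩ := con g hg.1
      have := hg.2 _ e2
      rw [Equiv.Perm.sign_swap hij, rename_C] at this
      have e : (C a : MvPolynomial I ℂ) = 0 := by
        have h2 : (2 : ℂ) • (C a : MvPolynomial I ℂ) = 0 := by
          rw [two_smul]
          nth_rewrite 1 [this]
          simp
        exact (smul_eq_zero.1 h2).resolve_left two_ne_zero
      rw [e]
      exact zero_mem _
    · rw [pos p hp, Nat.cast_zero]

/-- the measure for the induction -/
def mu_U4 (c : List (Finset I × Fin 4)) : ℕ :=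
  (c.map fun x => ![0, 2 * x.1.card ^ 2 - 1, 2 * x.1.card ^ 2, 2 * x.1.card ^ 2] x.2).sum

omit [Fintype I] [DecidableEq I] in
theorem card_r_U4 {b F : Finset I} (h : F ⊆ b) (k : dvec col F ≠ dvec col b) : F.card < b.card :=
  Finset.card_lt_card (h.ssubset_of_ne fun e => k (by rw [e]))

omit [Fintype I] [DecidableEq I] in
theorem eq_r_U4 {b F : Finset I} (h : F ⊆ b) (k : dvec col F = dvec col b) : F = b :=
  Finset.eq_of_subset_of_card_le h (by rw [← sz_dvec (col := col), ← sz_dvec (col := col), k])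

theorem step1_U4 {b : Finset I} (hb : b ≠ ∅) (h : Pa (b :: c.map Prod.fst))
    (ih : ∀ a : List (Finset I × Fin 4), mu_U4 a < mu_U4 ((b, 1) :: c) → Pa (a.map Prod.fst) →
      HS col θ a = (a.map fun x => hh P N x.2 (dvec col x.1)).prod) :
    HS col θ ((b, 1) :: c) = hF (dvec col b) * (c.map fun x => hh P N x.2 (dvec col x.1)).prod := by
  obtain ⟨r, hr⟩ := exists_sub (col := col) b
  set R := (c.map fun x => hh P N x.2 (dvec col x.1)).prod
  have hn : 0 < b.card := Finset.card_pos.2 (Finset.nonempty_iff_ne_empty.2 hb)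
  have e1 := step_Z (θ := θ) h r hr
  have e2 := hF_rec (dvec col b)
  have hd : dvec col b ∈ Finset.Iic (dvec col b) := Finset.mem_Iic.2 le_rfl
  rw [← Finset.add_sum_erase _ _ hd] at e1 e2
  have e3 : r (dvec col b) = b := eq_r_U4 (hr _ le_rfl).1 (hr _ le_rfl).2
  have e4 : HS col θ ((b, 1) :: (b \ b, 0) :: c) = HS col θ ((b, 1) :: c) :=
    HS_ext_U4 (by simp +contextual) (by simp +contextual)
  have e5 : hZ (dvec col b - dvec col b) = 1 := by
    rw [tsub_self]
    exact if_pos fun _ => Nat.zero_le 1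
  have e6 : ∑ f ∈ (Finset.Iic (dvec col b)).erase (dvec col b),
      PowerSeries.X ^ sz f * HS col θ ((r f, 1) :: (b \ r f, 0) :: c) =
      (∑ f ∈ (Finset.Iic (dvec col b)).erase (dvec col b),
        PowerSeries.X ^ sz f * (hF f * hZ (dvec col b - f))) * R := by
    rw [Finset.sum_mul]
    refine Finset.sum_congr rfl fun f hf => ?_
    obtain ⟨h1, h2⟩ := Finset.mem_erase.1 hf
    obtain ⟨h3, h4⟩ := hr f (Finset.mem_Iic.1 h2)
    have h5 := card_r_U4 h3 (h4.trans_ne h1)
    rw [ih ((r f, 1) :: (b \ r f, 0) :: c) ?_ (h.split h3)]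
    · simp only [List.map_cons, List.prod_cons]
      rw [dvec_sdiff h3, h4]
      change _ * (hF f * (hZ (dvec col b - f) * R)) = _
      ring
    · simp only [mu_U4, List.map_cons, List.sum_cons, Matrix.cons_val_zero, Matrix.cons_val_one]
      have : (r f).card ^ 2 < b.card ^ 2 := Nat.pow_lt_pow_left h5 two_ne_zero
      omega
  rw [e3, e4, e6] at e1
  rw [e5, mul_one] at e2
  have u : (1 - PowerSeries.X ^ sz (dvec col b) : PowerSeries ℚ) ≠ 0 := by
    intro z
    have := congrArg PowerSeries.constantCoeff z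
    rw [sz_dvec] at this
    simp [hn.ne'] at this
  refine mul_left_cancel₀ u ?_
  linear_combination e1 - e2 * R

theorem step2_U4 (hθ : ∀ a b, θ (a + b) = θ a + θ b) (hB : Bk θ P N) {b : Finset I} (hb : b ≠ ∅)
    (h : Pa (b :: c.map Prod.fst))
    (ih : ∀ a : List (Finset I × Fin 4), mu_U4 a < mu_U4 ((b, 2) :: c) → Pa (a.map Prod.fst) →
      HS col θ a = (a.map fun x => hh P N x.2 (dvec col x.1)).prod) :
    HS col θ ((b, 2) :: c) = P (dvec col b) * (c.map fun x => hh P N x.2 (dvec col x.1)).prod ∧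
    HS col θ ((b, 3) :: c) = N (dvec col b) * (c.map fun x => hh P N x.2 (dvec col x.1)).prod := by
  obtain ⟨r, hr⟩ := exists_sub (col := col) b
  have hn : 0 < b.card := Finset.card_pos.2 (Finset.nonempty_iff_ne_empty.2 hb)
  have e0 := ih ((b, 1) :: c) (by
    simp only [mu_U4, List.map_cons, List.sum_cons, Matrix.cons_val_zero, Matrix.cons_val_one,
      Matrix.cons_val]
    have := pow_pos hn 2
    omega) h
  simp only [List.map_cons, List.prod_cons] at e0
  set R := (c.map fun x => hh P N x.2 (dvec col x.1)).prod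
  have e1 := step_PN hθ h r hr
  have e2 := hB.eq (dvec col b)
  have d0 : dvec col b ≠ 0 := fun z => by
    have := sz_dvec (col := col) b
    rw [z] at this
    exact hn.ne this
  have hd : dvec col b ∈ Finset.Iic (dvec col b) := Finset.mem_Iic.2 le_rfl
  have hd0 : (0 : V) ∈ (Finset.Iic (dvec col b)).erase (dvec col b) :=
    Finset.mem_erase.2 ⟨d0.symm, Finset.mem_Iic.2 zero_le⟩
  rw [← Finset.add_sum_erase _ _ hd, ← Finset.add_sum_erase _ _ hd0] at e1 e2
  have e3 : r (dvec col b) = b := eq_r_U4 (hr _ le_rfl).1 (hr _ le_rfl).2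
  have e3' : r 0 = ∅ := by
    rw [← Finset.card_eq_zero, ← sz_dvec (col := col), (hr 0 zero_le).2]
    rfl
  have e4 : HS col θ ((b, 2) :: (b \ b, 3) :: c) = HS col θ ((b, 2) :: c) :=
    HS_ext_U4 (by simp +contextual) (by simp +contextual)
  have e4' : HS col θ ((∅, 2) :: (b \ ∅, 3) :: c) = HS col θ ((b, 3) :: c) :=
    HS_ext_U4 (by simp +contextual) (by simp +contextual)
  have e5 : dl (dvec col b) (dvec col b - dvec col b) = 0 := by simp [dl]
  have e5' : dl 0 (dvec col b - 0) = 0 := by simp [dl]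
  have e6 : ∑ f ∈ ((Finset.Iic (dvec col b)).erase (dvec col b)).erase 0,
      PowerSeries.X ^ dl f (dvec col b - f) * HS col θ ((r f, 2) :: (b \ r f, 3) :: c) =
      (∑ f ∈ ((Finset.Iic (dvec col b)).erase (dvec col b)).erase 0,
        PowerSeries.X ^ dl f (dvec col b - f) * (P f * N (dvec col b - f))) * R := by
    rw [Finset.sum_mul]
    refine Finset.sum_congr rfl fun f hf => ?_
    obtain ⟨h0, hf⟩ := Finset.mem_erase.1 hf
    obtain ⟨h1, h2⟩ := Finset.mem_erase.1 hf
    obtain ⟨h3, h4⟩ := hr f (Finset.mem_Iic.1 h2)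
    have h5 := card_r_U4 h3 (h4.trans_ne h1)
    have h6 : 0 < (r f).card := by
      rw [← sz_dvec (col := col), h4]
      exact Nat.pos_of_ne_zero fun z => h0 (sz_eq_zero z)
    rw [ih ((r f, 2) :: (b \ r f, 3) :: c) ?_ (h.split h3)]
    · simp only [List.map_cons, List.prod_cons]
      rw [dvec_sdiff h3, h4]
      change _ * (P f * (N (dvec col b - f) * R)) = _
      ring
    · simp only [mu_U4, List.map_cons, List.sum_cons, Matrix.cons_val]
      have h7 := Finset.card_sdiff_add_card_eq_card h3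
      have h8 : 0 < (b \ r f).card := by omega
      have : (r f).card ^ 2 + (b \ r f).card ^ 2 < b.card ^ 2 := by
        rw [← h7]
        nlinarith [Nat.mul_pos h6 h8]
      omega
  rw [e3, e3', e4, e4', e6, e5, e5', e0] at e1
  rw [e5, e5', tsub_self, tsub_zero, hB.P0, hB.N0] at e2
  have e7 : hh P N 1 (dvec col b) = hF (dvec col b) := rfl
  rw [e7] at e1
  rcases lt_or_ge (θ (dvec col b)) 0 with t | t
  · have z : HS col θ ((b, 2) :: c) = 0 := HS_top_U4 (Ideal.subset_span
      ⟨(b, 2), List.mem_cons_self, ∅, Finset.empty_subset _, by rwa [dvec_empty, th0 hθ],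
        (eul_empty b).symm⟩)
    rw [hB.Pz _ t] at e2 ⊢
    rw [z] at e1 ⊢
    exact ⟨(zero_mul _).symm, by linear_combination e2 * R - e1⟩
  · have z : HS col θ ((b, 3) :: c) = 0 := HS_top_U4 (Ideal.subset_span
      ⟨(b, 3), List.mem_cons_self, b, subset_rfl, hb, t, (eul_self b).symm⟩)
    rw [hB.Nz _ d0 t] at e2 ⊢
    rw [z] at e1 ⊢
    exact ⟨by linear_combination e2 * R - e1, (zero_mul _).symm⟩

theorem HS_prod (hθ : ∀ a b, θ (a + b) = θ a + θ b) (hB : Bk θ P N) (h : Pa (c.map Prod.fst)) :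
    HS col θ c = (c.map fun x => hh P N x.2 (dvec col x.1)).prod := by
  induction hm : mu_U4 c using Nat.strong_induction_on generalizing c with
  | _ n ih =>
  by_cases h0 : ∀ x ∈ c, x.2 = 0 ∨ x.1 = ∅
  · rw [HS_base h h0]
    congr 1
    refine List.map_congr_left fun x hx => ?_
    rcases h0 x hx with k | k
    · rw [k]
      rfl
    · rw [k, dvec_empty]
      have z : hZ 0 = 1 := by
        unfold hZ
        exact if_pos fun _ => Nat.zero_le 1
      generalize x.2 = t
      fin_cases t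
      · rfl
      · exact z.trans hF_zero.symm
      · exact z.trans hB.P0.symm
      · exact z.trans hB.N0.symm
  · push Not at h0
    obtain ⟨⟨b, t⟩, hx, ht, hb'⟩ := h0
    have hb : b ≠ ∅ := hb'.ne_empty
    clear hb'
    have pm := List.perm_cons_erase hx
    have h1 : Pa (b :: (c.erase (b, t)).map Prod.fst) := h.perm (pm.map Prod.fst)
    have h2 : mu_U4 ((b, t) :: c.erase (b, t)) = n := hm ▸ ((pm.map _).sum_eq).symm
    rw [HS_ext_U4 (fun x k => Or.inr (pm.mem_iff.1 k)) (fun x k => Or.inr (pm.mem_iff.2 k)),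
      (pm.map _).prod_eq, List.map_cons, List.prod_cons]
    generalize c.erase (b, t) = a at h1 h2 ⊢
    fin_cases t
    · exact (ht rfl).elim
    · exact step1_U4 hb h1 fun a' k k' => ih _ (k.trans_eq h2) k' rfl
    · exact (step2_U4 hθ hB hb h1 fun a' k k' => ih _ (k.trans_eq h2) k' rfl).1
    · exact (step2_U4 hθ hB hb h1 fun a' k k' => ih _ (k.trans_eq h2) k' rfl).2

end Pool.Agent.CS.EC
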