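import Pool.Agent.P.MP_d34769_ag.YU0

/-! Monomials in operators that commute up to sign are independent when there are enough
derivations. -/

noncomputable section
namespace Pool.Agent.CS.EC

variable {J H : Type} [LinearOrder J] [AddCommGroup H] [Module ℂ H] {len : J → ℕ}
  {y dl : J → Module.End ℂ H}

omit [LinearOrder J] in
theorem pr_perm (hc : ∀ i j, y i * y j = (-1 : ℂ) ^ (len i * len j) • (y j * y i))
    {js js' : List J} (h : js.Perm js') :
    ∃ e : ℂ, e ≠ 0 ∧ (js.map y).prod = e • (js'.map y).prod := by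
  induction h with
  | nil => exact ⟨1, one_ne_zero, (one_smul _ _).symm⟩
  | cons x _ ih =>
    obtain ⟨e, h1, h2⟩ := ih
    exact ⟨e, h1, by rw [List.map_cons, List.map_cons, List.prod_cons, List.prod_cons, h2,
      mul_smul_comm]⟩
  | swap a b l =>
    refine ⟨(-1) ^ (len b * len a), pow_ne_zero _ (by norm_num), ?_⟩
    simp only [List.map_cons, List.prod_cons]
    rw [← mul_assoc, hc b a, smul_mul_assoc, mul_assoc]
  | trans _ _ i1 i2 =>
    obtain ⟨e, h1, h2⟩ := i1
    obtain ⟨e', h3, h4⟩ := i2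
    exact ⟨e * e', mul_ne_zero h1 h3, by rw [h2, h4, smul_smul]⟩

theorem pr_zero (hc : ∀ i j, y i * y j = (-1 : ℂ) ^ (len i * len j) • (y j * y i)) {j : J}
    (hj : Odd (len j)) {js : List J} (h : 2 ≤ js.count j) : (js.map y).prod = 0 := by
  have h1 : j ∈ js := List.count_pos_iff.1 (by omega)
  have h2 : j ∈ js.erase j := List.count_pos_iff.1 (by rw [List.count_erase_self]; omega)
  obtain ⟨e, -, he⟩ := pr_perm hc ((List.perm_cons_erase h1).trans
    ((List.perm_cons_erase h2).cons j))
  have h3 := hc j j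
  rw [(hj.mul hj).neg_one_pow, neg_one_smul, eq_neg_iff_add_eq_zero, ← two_smul ℂ,
    smul_eq_zero_iff_right two_ne_zero] at h3
  simp only [List.map_cons, List.prod_cons] at he
  rw [he, ← mul_assoc, h3, zero_mul, smul_zero]

theorem yu8_low {u : H} (h0 : ∀ i, dl i u = 0)
    (hd : ∀ i j, j ≤ i → dl i * y j =
      (if j = i then 1 else 0) + (-1 : ℂ) ^ (len i * len j) • (y j * dl i))
    {i : J} {js : List J} (h : ∀ j ∈ js, j < i) : dl i ((js.map y).prod u) = 0 := by
  induction js with
  | nil => exact h0 i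
  | cons j js ih =>
    rw [List.forall_mem_cons] at h
    rw [List.map_cons, List.prod_cons, Module.End.mul_apply, ← Module.End.mul_apply (dl i),
      hd i j h.1.le, if_neg h.1.ne, zero_add, LinearMap.smul_apply, Module.End.mul_apply, ih h.2,
      map_zero, smul_zero]

theorem yu8_pow
    (hd : ∀ i j, j ≤ i → dl i * y j =
      (if j = i then 1 else 0) + (-1 : ℂ) ^ (len i * len j) • (y j * dl i))
    {i : J} {v : H} (hv : dl i v = 0) (k : ℕ) (hk : Odd (len i) → k = 0) :
    dl i ((y i ^ (k + 1)) v) = (k + 1 : ℂ) • (y i ^ k) v := by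
  have e : ∀ w, dl i (y i w) = w + (-1 : ℂ) ^ (len i * len i) • y i (dl i w) := fun w => by
    rw [← Module.End.mul_apply, hd i i le_rfl, if_pos rfl]
    rfl
  induction k with
  | zero => simp [e, hv]
  | succ k ih =>
    have h1 : Even (len i) := Nat.not_odd_iff_even.1 fun h => by simpa using hk h
    rw [pow_succ' _ (k + 1), Module.End.mul_apply, e,
      ih fun h => (Nat.not_odd_iff_even.2 h1 h).elim, (h1.mul_right _).neg_one_pow, one_smul,
      map_smul, ← Module.End.mul_apply, ← pow_succ', Nat.cast_succ, add_smul (k + 1 : ℂ), one_smul,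
      add_comm]

theorem yu8_top (hc : ∀ i j, y i * y j = (-1 : ℂ) ^ (len i * len j) • (y j * y i)) {u : H}
    (h0 : ∀ i, dl i u = 0)
    (hd : ∀ i j, j ≤ i → dl i * y j =
      (if j = i then 1 else 0) + (-1 : ℂ) ^ (len i * len j) • (y j * dl i))
    {i : J} {s : Multiset J} (ha : Adm len s) (h : ∀ j ∈ s, j ≤ i) (hi : i ∈ s) :
    ∃ c : ℂ, c ≠ 0 ∧ dl i ((s.toList.map y).prod u) =
      c • ((s.erase i).toList.map y).prod u := by
  obtain ⟨k, hk⟩ : ∃ k, s.count i = k + 1 :=
    Nat.exists_eq_succ_of_ne_zero (Multiset.count_ne_zero.2 hi)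
  set r := (s.filter (· ≠ i)).toList with hr
  have p : ∀ (t : Multiset J) (m : ℕ), t.count i = m → (∀ j, j ≠ i → t.count j = s.count j) →
      t.toList.Perm (List.replicate m i ++ r) := fun t m h1 h2 => by
    rw [← Multiset.coe_eq_coe, Multiset.coe_toList, ← Multiset.coe_add, hr, Multiset.coe_toList,
      Multiset.coe_replicate]
    ext j
    rw [Multiset.count_add, Multiset.count_replicate, Multiset.count_filter]
    by_cases e : j = i
    · simp [e, h1]
    · simp [e, Ne.symm e, h2 j e]
  obtain ⟨e, h1, h2⟩ := pr_perm hc (p s _ hk fun _ _ => rfl)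
  obtain ⟨e', h3, h4⟩ := pr_perm hc (p (s.erase i) k (by rw [Multiset.count_erase_self, hk]; rfl)
    fun j hj => Multiset.count_erase_of_ne hj s).symm
  have h5 : dl i ((r.map y).prod u) = 0 := yu8_low h0 hd fun j hj => by
    rw [hr, Multiset.mem_toList, Multiset.mem_filter] at hj
    exact lt_of_le_of_ne (h j hj.1) hj.2
  rw [List.map_append, List.prod_append, List.map_replicate, List.prod_replicate] at h2 h4
  refine ⟨e * ((k + 1) * e'), mul_ne_zero h1 (mul_ne_zero (Nat.cast_add_one_ne_zero k) h3), ?_⟩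
  rw [h2, LinearMap.smul_apply, map_smul, Module.End.mul_apply,
    yu8_pow hd h5 k fun o => by have := ha i o; omega, ← Module.End.mul_apply, h4,
    LinearMap.smul_apply, smul_smul, smul_smul, mul_assoc]

theorem yu8_ind (hc : ∀ i j, y i * y j = (-1 : ℂ) ^ (len i * len j) • (y j * y i)) {u : H}
    (hu : u ≠ 0) (h0 : ∀ i, dl i u = 0)
    (hd : ∀ i j, j ≤ i → dl i * y j =
      (if j = i then 1 else 0) + (-1 : ℂ) ^ (len i * len j) • (y j * dl i))
    {κ : Type} (n : ℕ) : ∀ (t : Finset κ) (m : κ → Multiset J) (g : κ → ℂ),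
      Set.InjOn m t → (∀ k ∈ t, Adm len (m k)) → ∑ k ∈ t, (m k).card < n →
      ∑ k ∈ t, g k • ((m k).toList.map y).prod u = 0 → ∀ k ∈ t, g k = 0 := by
  classical
  induction n with
  | zero => exact fun _ _ _ _ _ h => (Nat.not_lt_zero _ h).elim
  | succ n ih =>
    intro t m g hm ha hn hs
    rcases (t.biUnion fun k => (m k).toFinset).eq_empty_or_nonempty with he | he
    · intro k hk
      have z : ∀ k ∈ t, m k = 0 := fun k hk => Multiset.eq_zero_of_forall_notMem fun j hj =>
        Finset.notMem_empty j (he ▸ Finset.mem_biUnion.2 ⟨k, hk, Multiset.mem_toFinset.2 hj⟩)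
      rw [Finset.sum_eq_single_of_mem k hk fun b hb e =>
        (e (hm hb hk ((z b hb).trans (z k hk).symm))).elim, z k hk] at hs
      simpa [hu] using hs
    obtain ⟨i, hi, hmax⟩ := Finset.exists_max_image _ id he
    have le : ∀ k ∈ t, ∀ j ∈ m k, j ≤ i := fun k hk j hj =>
      hmax j (Finset.mem_biUnion.2 ⟨k, hk, Multiset.mem_toFinset.2 hj⟩)
    obtain ⟨k₀, hk₀, hi⟩ := Finset.mem_biUnion.1 hi
    rw [Multiset.mem_toFinset] at hi
    have c1 : ∀ k, ∃ c : ℂ, c ≠ 0 ∧ (k ∈ t.filter (fun k => i ∈ m k) →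
        dl i (((m k).toList.map y).prod u) = c • (((m k).erase i).toList.map y).prod u) := by
      intro k
      by_cases hk : k ∈ t.filter fun k => i ∈ m k
      · rw [Finset.mem_filter] at hk
        exact (yu8_top hc h0 hd (ha k hk.1) (le k hk.1) hk.2).imp fun c h => ⟨h.1, fun _ => h.2⟩
      · exact ⟨1, one_ne_zero, fun h => (hk h).elim⟩
    choose c hc0 hc1 using c1
    have sp := Finset.sum_filter_add_sum_filter_not t (fun k => i ∈ m k) fun k => (m k).card
    have lt : ∑ k ∈ t.filter (fun k => i ∈ m k), ((m k).erase i).card <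
        ∑ k ∈ t.filter (fun k => i ∈ m k), (m k).card :=
      Finset.sum_lt_sum (fun k _ => Multiset.card_erase_le) ⟨k₀, Finset.mem_filter.2 ⟨hk₀, hi⟩,
        Multiset.card_erase_lt_of_mem hi⟩
    have s1 := ih (t.filter fun k => i ∈ m k) (fun k => (m k).erase i) (fun k => g k * c k)
      (fun a h1 b h2 e => by
        rw [Finset.mem_coe, Finset.mem_filter] at h1 h2
        exact hm h1.1 h2.1 (by
          rw [← Multiset.cons_erase h1.2, ← Multiset.cons_erase h2.2]
          exact congrArg _ e))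
      (fun k hk j hj => (Multiset.count_le_of_le j (Multiset.erase_le _ _)).trans
        (ha k (Finset.mem_filter.1 hk).1 j hj)) (by omega) (by
        have h1 := congrArg (dl i) hs
        rw [map_zero, map_sum, ← Finset.sum_filter_add_sum_filter_not t fun k => i ∈ m k,
          Finset.sum_eq_zero (s := t.filter fun k => ¬ i ∈ m k) fun k hk => by
            rw [Finset.mem_filter] at hk
            rw [map_smul, yu8_low h0 hd fun j hj => lt_of_le_of_ne
              (le k hk.1 j (Multiset.mem_toList.1 hj))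
              fun e => hk.2 (e ▸ Multiset.mem_toList.1 hj), smul_zero], add_zero] at h1
        rw [← h1]
        exact Finset.sum_congr rfl fun k hk => by rw [map_smul, hc1 k hk, smul_smul])
    have s2 : ∀ k ∈ t.filter (fun k => i ∈ m k), g k = 0 := fun k hk =>
      (mul_eq_zero.1 (s1 k hk)).resolve_right (hc0 k)
    have s3 := ih (t.filter fun k => ¬ i ∈ m k) m g
      (hm.mono (Finset.coe_subset.2 (Finset.filter_subset _ _)))
      (fun k hk => ha k (Finset.mem_filter.1 hk).1) (by omega) (by
        rwa [← Finset.sum_filter_add_sum_filter_not t fun k => i ∈ m k,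
          Finset.sum_eq_zero fun k hk => by rw [s2 k hk, zero_smul], zero_add] at hs)
    intro k hk
    by_cases h : i ∈ m k
    · exact s2 k (Finset.mem_filter.2 ⟨hk, h⟩)
    · exact s3 k (Finset.mem_filter.2 ⟨hk, h⟩)

theorem mon_indep (hc : ∀ i j, y i * y j = (-1 : ℂ) ^ (len i * len j) • (y j * y i)) {u : H}
    (hu : u ≠ 0) (h0 : ∀ i, dl i u = 0)
    (hd : ∀ i j, j ≤ i → dl i * y j =
      (if j = i then 1 else 0) + (-1 : ℂ) ^ (len i * len j) • (y j * dl i)) :
    LinearIndependent ℂ fun s : {s : Multiset J // Adm len s} => (s.1.toList.map y).prod u :=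
  linearIndependent_iff'.2 fun t g h => yu8_ind hc hu h0 hd _ t Subtype.val g
    Subtype.val_injective.injOn (fun k _ => k.2) (Nat.lt_succ_self _) h

end Pool.Agent.CS.EC
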