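import Pool.Agent.P.MP_d34769_ag.YW1

/-! Deconcatenation, iterated shuffles, and the chain map identities. -/

noncomputable section
namespace Pool.Agent.CS.HA
open Pool.Agent.P.MP_d34769_ag

variable {X Y M : Type} [AddCommGroup M]

/-- the sum over all ways to cut a word in two -/
def dc : List X → (List X × List X → M) → M
  | [], F => F ([], [])
  | a :: l, F => F ([], a :: l) + dc l fun p => F (a :: p.1, p.2)

theorem dc_nat (l : List X) : NatOp (fun _ _ F => dc l F) fun p => p.1 ++ p.2 = l := by
  induction l with
  | nil => exact ⟨fun _ _ => rfl, fun P φ h => h _ rfl⟩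
  | cons a l ih =>
    exact ⟨fun f φ => by simp only [dc, map_add, ih.nat], fun P φ h =>
      add_mem (h _ rfl) (ih.mem P _ fun p hp => h _ (congrArg (a :: ·) hp))⟩

theorem dc_map (f : X → Y) (l : List X) : ∀ F : List Y × List Y → M,
    dc (l.map f) F = dc l fun p => F (p.1.map f, p.2.map f) := by
  induction l with
  | nil => intro F; rfl
  | cons a l ih => intro F; simp only [List.map_cons, dc, ih, List.map_nil]

theorem dc_first (l : List X) (F : List X × List X → M) (h : ∀ p, p.1 ≠ [] → F p = 0) :
    dc l F = F ([], l) := by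
  cases l with
  | nil => rfl
  | cons a l => rw [dc, (dc_nat l).eq_zero fun p _ => h _ (by simp), add_zero]

theorem dc_last (l : List X) : ∀ F : List X × List X → M, (∀ p, p.2 ≠ [] → F p = 0) →
    dc l F = F (l, []) := by
  induction l with
  | nil => intro F _; rfl
  | cons a l ih => intro F h; rw [dc, h _ (by simp), zero_add, ih _ fun p hp => h (a :: p.1, p.2) hp]

theorem shuf_sgn (u v : List X) (φ : List X → M) :
    (shuf u v fun w => (-1 : ℤ) ^ w.length • φ w) = (-1 : ℤ) ^ (u.length + v.length) • shuf u v φ := by
  rw [← (shuf_nat u v).smul]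
  exact (shuf_nat u v).congr fun w hw => by rw [hw.2.2.length_eq, List.length_append]

theorem shuf_dc (u v : List X) : ∀ F : List X × List X → M, (shuf u v fun l => dc l F) =
    dc u fun p => dc v fun q => (-1 : ℤ) ^ (p.2.length * q.1.length) •
      shuf p.1 q.1 fun w => shuf p.2 q.2 fun t => F (w, t) := by
  induction u generalizing v with
  | nil => intro F; simp [shuf_nil, dc]
  | cons a u ih =>
    induction v with
    | nil => intro F; simp [shuf_nil', dc]
    | cons b v iv =>
      intro F
      simp only [dc] at iv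
      simp only [shuf_cons, dc, (shuf_nat _ _).add, ih, iv, shuf_nil, shuf_nil', smul_add,
        (dc_nat _).add, List.length_nil, mul_zero, pow_zero, one_smul, List.length_cons,
        ← (dc_nat _).smul, smul_smul, ← pow_add]
      have e1 : ∀ n m : ℕ, n + n * m = n * (m + 1) := fun n m => by ring
      have e2 : (dc u fun p => dc v fun q => (-1 : ℤ) ^ (u.length + 1 + p.2.length * q.1.length) •
          shuf (a :: p.1) q.1 fun w => shuf p.2 q.2 fun t => F (b :: w, t)) = dc u fun p => dc v
          fun q => (-1 : ℤ) ^ (p.2.length * (q.1.length + 1) + (p.1.length + 1)) •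
          shuf (a :: p.1) q.1 fun w => shuf p.2 q.2 fun t => F (b :: w, t) :=
        (dc_nat u).congr fun p hp => by
          rw [← hp, List.length_append]
          congr 1
          funext q
          congr 2
          ring
      rw [e2]
      simp only [e1, one_mul]
      exact (fun x₁ x₂ x₃ x₄ x₅ x₆ : M => (by abel :
        x₁ + (x₂ + x₃) + (x₄ + (x₅ + x₆)) = x₁ + x₄ + x₅ + (x₂ + (x₃ + x₆)))) _ _ _ _ _ _

theorem shuf_dc_prim (u v : List X) (F : List X × List X → M) (h0 : ∀ t, F ([], t) = 0)
    (h : ∀ a b t, a ≠ [] → b ≠ [] → (shuf a b fun w => F (w, t)) = 0) :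
    (shuf u v fun l => dc l F) = (dc u fun p => shuf p.2 v fun t => F (p.1, t)) +
      dc v fun q => (-1 : ℤ) ^ (u.length * q.1.length) • shuf u q.2 fun t => F (q.1, t) := by
  have k : ∀ p q : List X × List X, (-1 : ℤ) ^ (p.2.length * q.1.length) •
      (shuf p.1 q.1 fun w => shuf p.2 q.2 fun t => F (w, t)) =
      (if q.1 = [] then shuf p.2 q.2 fun t => F (p.1, t) else 0) + if p.1 = [] then
        (-1 : ℤ) ^ (p.2.length * q.1.length) • shuf p.2 q.2 fun t => F (q.1, t) else 0 := by
    rintro ⟨a, c⟩ ⟨b, e⟩
    by_cases ha : a = [] <;> by_cases hb : b = []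
    · simp [ha, hb, shuf_nil, h0, (shuf_nat _ _).zero]
    · simp [ha, hb, shuf_nil]
    · simp [ha, hb, shuf_nil']
    · rw [(shuf_nat a b).swap (shuf_nat c e)]
      simp [ha, hb, h, (shuf_nat _ _).zero]
  simp only [shuf_dc, k, (dc_nat _).add]
  congr 1
  · exact congrArg _ (funext fun p => by rw [dc_first _ _ fun q hq => if_neg hq, if_pos rfl])
  · rw [dc_first _ _ fun p hp => by simp only [if_neg hp, (dc_nat _).zero]]
    simp

section cob
variable [Union X]

theorem fc_length {l w : List X} (h : Fc l w) : l.length = w.length + 1 := by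
  obtain ⟨s, a, b, t, rfl, rfl⟩ := h
  simp [add_assoc]

theorem fc_ne {l w : List X} (h : Fc l w) : w ≠ [] := by
  obtain ⟨s, a, b, t, rfl, rfl⟩ := h
  simp

theorem cob_sgn (n : ℕ) (u : List X) (φ : List X → M) :
    (cob u fun w => (-1 : ℤ) ^ (w.length * n) • φ w) = (-1 : ℤ) ^ (u.length * n + n) • cob u φ := by
  rw [← (cob_nat u).smul]
  exact (cob_nat u).congr fun w hw => by
    rw [fc_length hw, show (w.length + 1) * n + n = w.length * n + 2 * n by ring, pow_add, pow_mul _ 2]
    simp

theorem cob_dc (l : List X) : ∀ F : List X × List X → M, (cob l fun w => dc w F) =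
    dc l fun p => cob p.1 (fun w => F (w, p.2)) +
      (-1 : ℤ) ^ p.1.length • cob p.2 fun w => F (p.1, w) := by
  induction l with
  | nil => intro F; simp [dc, cob_nil]
  | cons a l ih =>
    intro F
    have h : mrg a (fun w => dc w F) l = mrg a (fun w => F ([], w)) l +
        dc l fun p => mrg a (fun w => F (w, p.2)) p.1 := by cases l <;> simp [mrg, dc]
    simp only [cob_cons, dc, h, (cob_nat _).add, ih, cob_nil, List.length_nil, pow_zero, one_smul,
      List.length_cons, pow_succ, mul_neg, mul_one, neg_smul, (dc_nat _).add, (dc_nat _).sub,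
      (dc_nat _).neg]
    abel

theorem cobM_cobM [Std.Associative (α := X) (· ∪ ·)] (L : List (List X)) :
    ∀ φ : List (List X) → M, (cobM L fun K => cobM K φ) = 0 := by
  induction L with
  | nil => intro φ; rfl
  | cons u L ih =>
    intro φ
    have h := cob_sgn 1 u fun w => cobM L fun K => φ (w :: K)
    simp only [mul_one] at h
    simp only [cobM, (cob_nat _).add, (cobM_nat _).add, (cobM_nat _).smul, cob_cob, ih, h,
      (cobM_nat L).swap (cob_nat u), pow_succ]
    simp

theorem sM_cobM [Std.Commutative (α := X) (· ∪ ·)] (L : List (List X)) (φ : List (List X) → M) :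
    (sM L fun K => cobM K φ) = cobM L fun K => sM K φ := by
  match L with
  | [] => rfl
  | [u] => simp [sM, cobM, cob_zero]
  | u :: v :: L =>
    simp only [sM, cobM, (shuf_nat _ _).add, shuf_cob, shuf_sgn, smul_add, smul_smul, ← pow_add,
      (cobM_nat L).swap (shuf_nat u v), add_assoc]

theorem tau_cobM (i : ℕ) (L : List (List X)) : ∀ φ : List (List X) → M,
    (tau i L fun K => cobM K φ) = cobM L fun K => tau i K φ := by
  induction i generalizing L with
  | zero =>
    intro φ
    match L with
    | [] => rfl
    | [u] => simp [tau, cobM, cob_zero]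
    | u :: v :: L =>
      simp only [tau, cobM, cob_sgn, mul_comm u.length, (cobM_nat _).smul, smul_add, smul_smul,
        ← pow_add]
      rw [show u.length + (v.length * u.length + u.length) = v.length * u.length + 2 * u.length by
        ring, pow_add _ _ (2 * _), pow_mul _ 2, show u.length + (v.length + v.length * u.length) =
        v.length * u.length + (v.length + u.length) by ring]
      simp only [neg_one_sq, one_pow, mul_one]
      abel
  | succ i ih =>
    intro φ
    match L with
    | [] => rfl
    | u :: L =>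
      simp only [tau, cobM, (tau_nat _ _).add, (tau_nat _ _).smul, ih, (tau_nat i L).swap (cob_nat u)]

theorem cobM_append (K L : List (List X)) : ∀ φ : List (List X) → M, cobM (K ++ L) φ =
    cobM K (fun T => φ (T ++ L)) + (-1 : ℤ) ^ K.flatten.length • cobM L fun T => φ (K ++ T) := by
  induction K with
  | nil => intro φ; simp [cobM]
  | cons u K ih =>
    intro φ
    simp only [List.cons_append, cobM, ih, smul_add, smul_smul, List.flatten_cons,
      List.length_append, pow_add, add_assoc]

end cob

/-- the sum over all ways to cut a word into `k` nonempty words -/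
def decs : ℕ → List X → (List (List X) → M) → M
  | 0, l, φ => if l = [] then φ [] else 0
  | k + 1, l, φ => dc l fun p => if p.1 = [] then 0 else decs k p.2 fun K => φ (p.1 :: K)

/-- the iterated shuffle -/
def shufs : List (List X) → (List X → M) → M
  | [], φ => φ []
  | u :: L, φ => shufs L fun w => shuf u w φ

theorem decs_nat (k : ℕ) (l : List X) : NatOp (fun _ _ φ => decs k l φ)
    fun K => K.length = k ∧ (∀ u ∈ K, u ≠ []) ∧ K.flatten = l := by
  induction k generalizing l with
  | zero =>
    refine ⟨fun f φ => by simp [decs, apply_ite f], fun P φ h => ?_⟩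
    simp only [decs]
    split_ifs with c
    exacts [h _ (by simp [c]), zero_mem P]
  | succ k ih =>
    refine ⟨fun f φ => by simp only [decs, (dc_nat _).nat, apply_ite f, map_zero, (ih _).nat],
      fun P φ h => (dc_nat l).mem P _ fun p hp => ?_⟩
    split_ifs with c
    exacts [zero_mem P, (ih _).mem P _ fun K hK => h _ ⟨by simp [hK.1],
      List.forall_mem_cons.2 ⟨c, hK.2.1⟩, by simp [hK.2.2, hp]⟩]

theorem shufs_nat (L : List (List X)) : NatOp (fun _ _ φ => shufs L φ) fun w => w.Perm L.flatten := by
  induction L with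
  | nil => exact ⟨fun _ _ => rfl, fun P φ h => h _ (by simp)⟩
  | cons u L ih =>
    exact ⟨fun f φ => by simp only [shufs, ih.nat, (shuf_nat _ _).nat], fun P φ h =>
      ih.mem P _ fun w hw => (shuf_nat u w).mem P _ fun t ht => h _ (ht.2.2.trans (hw.append_left u))⟩

theorem decs_map (f : X → Y) (k : ℕ) : ∀ (l : List X) (φ : List (List Y) → M),
    decs k (l.map f) φ = decs k l fun K => φ (K.map (List.map f)) := by
  induction k with
  | zero => intro l φ; simp [decs]
  | succ k ih => intro l φ; simp [decs, dc_map, ih]

theorem shufs_map (f : X → Y) (L : List (List X)) : ∀ φ : List Y → M,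
    shufs (L.map (List.map f)) φ = shufs L fun w => φ (w.map f) := by
  induction L with
  | nil => intro φ; rfl
  | cons u L ih => intro φ; simp only [List.map_cons, shufs, ih, shuf_map]

theorem decs_one (l : List X) (h : l ≠ []) (φ : List (List X) → M) : decs 1 l φ = φ [l] := by
  rw [decs, dc_last _ _ fun p hp => by simp [decs, hp]]
  simp [decs, h]

theorem cob_decs [Union X] (k : ℕ) : ∀ (l : List X) (φ : List (List X) → M),
    (cob l fun w => decs k w φ) = decs k l fun K => cobM K φ := by
  induction k with
  | zero =>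
    intro l φ
    rw [(cob_nat l).eq_zero (φ := fun w => decs 0 w φ) fun w hw => if_neg (fc_ne hw)]
    simp [decs, cobM]
  | succ k ih =>
    intro l φ
    simp only [decs, cob_dc, cobM, (decs_nat _ _).add, (decs_nat _ _).smul]
    congr 1
    funext p
    by_cases c : p.1 = []
    · simp [c, cob_nil, cob_zero]
    · simp only [if_neg c, ih, (decs_nat k p.2).swap (cob_nat p.1)]
      rw [(cob_nat p.1).congr fun w hw => if_neg (fc_ne hw)]

theorem shufs_cob [Union X] [Std.Commutative (α := X) (· ∪ ·)] (L : List (List X)) :
    ∀ φ : List X → M, (shufs L fun w => cob w φ) = cobM L fun K => shufs K φ := by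
  induction L with
  | nil => intro φ; rfl
  | cons u L ih =>
    intro φ
    simp only [shufs, cobM, shuf_cob, (shufs_nat _).add, (shufs_nat _).smul, ih,
      (shufs_nat L).swap (cob_nat u)]

theorem shufs_nil (A B : List (List X)) : ∀ φ : List X → M,
    shufs (A ++ [] :: B) φ = shufs (A ++ B) φ := by
  induction A with
  | nil => intro φ; rfl
  | cons u A ih => intro φ; exact ih _

/-- cut a first part off one of the words -/
def rr : List (List X) → (List X × List (List X) → M) → M
  | [], _ => 0
  | u :: L, G => (dc u fun p => G (p.1, p.2 :: L)) +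
      rr L fun q => (-1 : ℤ) ^ (u.length * q.1.length) • G (q.1, u :: q.2)

/-- move one of the words to the front -/
def rp : List (List X) → (List X × List (List X) → M) → M
  | [], _ => 0
  | u :: L, G => G (u, L) + rp L fun q => (-1 : ℤ) ^ (u.length * q.1.length) • G (q.1, u :: q.2)

/-- the signed sum over all orders of the first `k` words -/
def sym : ℕ → List (List X) → (List (List X) → M) → M
  | 0, L, φ => φ L
  | k + 1, L, φ => rp L fun q => sym k q.2 fun K => φ (q.1 :: K)

/-- the cochain kills shuffles in each of the first `k` words -/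
def Prim : ℕ → (List (List X) → M) → Prop
  | 0, _ => True
  | k + 1, φ => (∀ u v K, u ≠ [] → v ≠ [] → (shuf u v fun w => φ (w :: K)) = 0) ∧
      ∀ u, Prim k fun K => φ (u :: K)

theorem rp_nat (L : List (List X)) : NatOp (fun _ _ G => rp L G) fun q => (q.1 :: q.2).Perm L := by
  induction L with
  | nil => exact ⟨fun f _ => map_zero f, fun P _ _ => zero_mem P⟩
  | cons u L ih =>
    exact ⟨fun f φ => by simp only [rp, map_add, ih.nat, map_zsmul], fun P φ h =>
      add_mem (h _ (List.Perm.refl _)) (ih.mem P _ fun q hq =>
        zsmul_mem (h _ ((List.Perm.swap _ _ _).trans (hq.cons u))) _)⟩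

theorem shufs_dc (L : List (List X)) : ∀ F : List X × List X → M, (∀ t, F ([], t) = 0) →
    (∀ a b t, a ≠ [] → b ≠ [] → (shuf a b fun w => F (w, t)) = 0) →
    (shufs L fun l => dc l F) = rr L fun q => shufs q.2 fun t => F (q.1, t) := by
  induction L with
  | nil => intro F h0 _; exact h0 _
  | cons u L ih =>
    intro F h0 h
    simp only [shufs, rr, shuf_dc_prim _ _ F h0 h, (shufs_nat _).add, (shufs_nat L).swap (dc_nat u)]
    rw [ih (fun q => (-1 : ℤ) ^ (u.length * q.1.length) • shuf u q.2 fun t => F (q.1, t))
      (fun t => by simp [h0, (shuf_nat _ _).zero]) fun a b t ha hb => ?_]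
    · simp only [(shufs_nat _).smul]
    · rw [(shuf_nat a b).congr (ψ := fun w => (-1 : ℤ) ^ (u.length * (a ++ b).length) •
        shuf u t fun s => F (w, s)) fun w hw => by rw [hw.2.2.length_eq], (shuf_nat _ _).smul,
        (shuf_nat a b).swap (shuf_nat u t)]
      simp [h, ha, hb, (shuf_nat _ _).zero]

theorem rr_zero (L : List (List X)) : ∀ G : List X × List (List X) → M,
    (∀ q, L.countP (· ≠ []) ≤ q.2.countP (· ≠ []) + 1 → G q = 0) → rr L G = 0 := by
  induction L with
  | nil => intro G _; rfl
  | cons u L ih =>
    intro G h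
    rw [rr, (dc_nat u).eq_zero fun p _ => h _ ?_, ih _ fun q hq => by
      rw [h _ (by simp only [List.countP_cons] at hq ⊢; omega), smul_zero], add_zero]
    simp only [List.countP_cons]; split_ifs <;> omega

theorem rr_rp (L : List (List X)) : ∀ G : List X × List (List X) → M, (∀ u ∈ L, u ≠ []) →
    (∀ q, q.2.length = L.length → (∀ u ∈ q.2, u ≠ []) → G q = 0) →
    (∀ u A B, G (u, A ++ [] :: B) = G (u, A ++ B)) → rr L G = rp L G := by
  induction L with
  | nil => intro G _ _ _; rfl
  | cons u L ih =>
    intro G h h1 h2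
    rw [List.forall_mem_cons] at h
    rw [rr, rp, dc_last _ _ fun p hp => h1 (p.1, p.2 :: L) rfl
      (List.forall_mem_cons (p := (· ≠ [])).2 ⟨hp, h.2⟩),
      ih (fun q => (-1 : ℤ) ^ (u.length * q.1.length) • G (q.1, u :: q.2)) h.2 (fun q a b => by
        rw [h1 (q.1, u :: q.2) (congrArg (· + 1) a)
          (List.forall_mem_cons (p := (· ≠ [])).2 ⟨h.1, b⟩), smul_zero])
        fun v A B => congrArg (_ • ·) (h2 v (u :: A) B)]
    exact congrArg (· + _) (h2 u [] L)

theorem shufs_decs_succ (k : ℕ) (L : List (List X)) {φ : List (List X) → M} (h : Prim (k + 1) φ) :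
    (shufs L fun l => decs (k + 1) l φ) = rr L fun q => shufs q.2 fun t =>
      if q.1 = [] then 0 else decs k t fun K => φ (q.1 :: K) :=
  shufs_dc L (fun p => if p.1 = [] then 0 else decs k p.2 fun K => φ (p.1 :: K)) (by simp)
    fun a b t ha hb => by
      rw [(shuf_nat a b).congr (ψ := fun w => decs k t fun K => φ (w :: K)) fun w hw =>
        if_neg fun c : w = [] => ha (List.sublist_nil.1 (c ▸ hw.1)),
        (shuf_nat a b).swap (decs_nat k t)]
      exact (decs_nat k t).eq_zero fun K _ => h.1 a b K ha hb

theorem shufs_decs_zero (k : ℕ) : ∀ (L : List (List X)) (φ : List (List X) → M), Prim k φ →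
    k < L.countP (· ≠ []) → (shufs L fun l => decs k l φ) = 0 := by
  induction k with
  | zero =>
    intro L φ _ h
    obtain ⟨u, hu, h⟩ := List.countP_pos_iff.1 h
    refine (shufs_nat L).eq_zero fun w hw => if_neg fun c : w = [] => ?_
    rw [c, List.nil_perm, List.flatten_eq_nil_iff] at hw
    simp [hw u hu] at h
  | succ k ih =>
    intro L φ h hk
    rw [shufs_decs_succ k L h]
    refine rr_zero L _ fun q hq => ?_
    split_ifs
    exacts [(shufs_nat _).zero, ih _ _ (h.2 _) (by omega)]

theorem shufs_decs_sym (k : ℕ) : ∀ (L : List (List X)) (φ : List (List X) → M), Prim k φ →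
    L.length = k → (∀ u ∈ L, u ≠ []) → (shufs L fun l => decs k l φ) = sym k L φ := by
  induction k with
  | zero =>
    intro L φ _ h _
    obtain rfl := List.length_eq_zero_iff.1 h
    rfl
  | succ k ih =>
    intro L φ h hk hL
    rw [shufs_decs_succ k L h, rr_rp L _ hL (fun q a b => ?_) fun u A B => shufs_nil A B _, sym]
    · refine (rp_nat L).congr fun q hq => ?_
      have h1 : ∀ u ∈ q.1 :: q.2, u ≠ [] := fun u hu => hL u (hq.subset hu)
      rw [List.forall_mem_cons] at h1
      simp only [if_neg h1.1]
      exact ih _ _ (h.2 _) (by simpa [hk] using hq.length_eq) h1.2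
    · split_ifs
      exacts [(shufs_nat _).zero, shufs_decs_zero k _ _ (h.2 _) (by
        rw [List.countP_eq_length.2 fun u hu => by simpa using b u hu]; omega)]

end Pool.Agent.CS.HA
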