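import Pool.Agent.P.MP_d34769_ag.YU3
import Pool.Agent.P.MP_d34769_ag.YU7

/-! Generators of the tautological ring of one block, and of a list of blocks. -/

open MvPolynomial

noncomputable section
namespace Pool.Agent.CS.EC
open Pool.Agent.P.MP_d34769_ag
variable {I : Type} [Fintype I] [DecidableEq I] {col : I → Fin 3} {θ : V → ℝ} {o : I → ℕ}

theorem lift_Ub {M : Type} [AddCommGroup M] [Module ℂ M] (U B : Submodule ℂ M)
    [Module.Finite ℂ U] {n : ℕ} (hn : n = Module.finrank ℂ (U.map B.mkQ)) :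
    ∃ a : Fin n → M, (∀ j, a j ∈ U) ∧ ∀ g ∈ U, ∃ c : Fin n → ℂ, g - ∑ j, c j • a j ∈ B := by
  subst hn
  let e := Module.finBasis ℂ (U.map B.mkQ)
  choose a ha ha' using fun j => (e j).2
  refine ⟨a, ha, fun g hg => ⟨e.repr ⟨_, Submodule.mem_map_of_mem hg⟩, ?_⟩⟩
  have := congrArg Subtype.val (e.sum_repr ⟨_, Submodule.mem_map_of_mem hg⟩)
  rw [← Submodule.Quotient.eq, ← Submodule.mkQ_apply, ← Submodule.mkQ_apply, map_sum]
  simp only [map_smul, ha']
  rw [Submodule.coe_sum] at this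
  exact this.symm

/-- `ι` numbers the block `b` -/
structure Em_Ub (col : I → Fin 3) (d : V) (b : Finset I) (ι : Id d → I) : Prop where
  inj : Function.Injective ι
  cl : ∀ i, col (ι i) = i.1
  rg : Finset.univ.image ι = b

namespace Em_Ub
variable {d : V} {b : Finset I} {ι ι' : Id d → I}

omit [Fintype I] in
theorem mem (h : Em_Ub col d b ι) (k : I) : k ∈ Set.range ι ↔ k ∈ b := by
  simp [← h.rg]

omit [Fintype I] in
theorem map (h : Em_Ub col d b ι) {w : Equiv.Perm I} (hw : ∀ i, col (w i) = col i) :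
    Em_Ub col d (b.image w) (w ∘ ι) :=
  ⟨w.injective.comp h.inj, fun i => (hw _).trans (h.cl i), by rw [← h.rg, Finset.image_image]⟩

omit [Fintype I] in
theorem eq (h : Em_Ub col d b ι) (h' : Em_Ub col d b ι') {p : ℕ} {a : MvPolynomial (Id d) ℂ}
    (ha : a ∈ In (WL (I := Id d) Sigma.fst [Finset.univ]) p) : rename ι a = rename ι' a := by
  let w : Equiv.Perm (Id d) := ((Equiv.ofInjective ι h.inj).trans (Equiv.setCongr
    (Set.ext fun k => (h.mem k).trans (h'.mem k).symm))).trans (Equiv.ofInjective ι' h'.inj).symm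
  have e : ∀ i, ι' (w i) = ι i := fun i => Equiv.apply_ofInjective_symm h'.inj _
  have k := ha.2 w ⟨fun i => by rw [← h'.cl, e, h.cl], by simp⟩
  conv_rhs => rw [← k, rename_rename, show ι' ∘ w = ι from _root_.funext e]

omit [Fintype I] in
theorem rel (ho : ∀ k m, col k = col m → o k = o m → k = m) (h : Em_Ub col d b ι)
    {f : MvPolynomial (Id d) ℂ}
    (hf : f ∈ RelI (I := Id d) Sigma.fst θ (fun i => i.2) [Finset.univ]) :
    Rel col θ o [b] (rename ι f) := by
  obtain ⟨s, -, hs⟩ := dis_o (I := Id d) (col := Sigma.fst) (o := fun i => i.2) (o' := o ∘ ι)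
    Finset.univ (by
      rintro ⟨v, i⟩ - ⟨v', j⟩ - (rfl : v = v') e
      exact congrArg _ (Fin.ext e))
    fun k _ m _ e e' => h.inj (ho _ _ (by rw [h.cl, h.cl, e]) e')
  have e1 : dis col o b = rename ι (dis Sigma.fst (o ∘ ι) Finset.univ) := by
    simp only [dis, ← h.rg, Finset.filter_image, Finset.prod_image h.inj.injOn, h.cl, map_prod,
      map_sub, rename_X, Function.comp_apply]
  have e2 := Ideal.mem_map_of_mem (rename ι : _ →ₐ[ℂ] MvPolynomial I ℂ) ((mem_RelI _ _ _).1 hf)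
  rw [Ideal.map_span] at e2
  unfold P.MP_d34769_ag.Rel
  simp only [List.map_cons, List.map_nil, List.prod_cons, List.prod_nil, mul_one] at e2 ⊢
  rw [e1, hs, ← map_mul, smul_mul_assoc, map_smul]
  refine Submodule.smul_of_tower_mem _ s (Ideal.span_mono ?_ e2)
  rintro _ ⟨_, ⟨c, hc, F, -, h1, rfl⟩, rfl⟩
  rw [List.mem_singleton.1 hc]
  refine ⟨b, List.mem_singleton_self b, F.image ι, h.rg ▸ Finset.image_subset_image F.subset_univ,
    h1.trans_eq (congrArg θ (_root_.funext fun v => ?_)), ?_⟩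
  · simp only [dvec, Finset.filter_image, h.cl, Finset.card_image_of_injective _ h.inj]
  · simp only [eul, ← h.rg, ← Finset.image_sdiff _ _ h.inj, Finset.prod_image h.inj.injOn, h.cl,
      map_prod, map_pow, map_sub, rename_X]

end Em_Ub

omit [Fintype I] in
theorem em_Ub (b : Finset I) : ∃ ι, Em_Ub col (dvec col b) b ι := by
  let e := fun v => (b.filter fun i => col i = v).equivFin.symm
  have k := fun v i => Finset.mem_filter.1 (e v i).2
  refine ⟨fun i => (e i.1 i.2).1, ?_, fun i => (k _ _).2, Finset.ext fun i => ⟨fun h => ?_,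
    fun h => Finset.mem_image.2 ⟨⟨col i, (e _).symm ⟨i, Finset.mem_filter.2 ⟨h, rfl⟩⟩⟩,
      Finset.mem_univ _, congrArg Subtype.val ((e _).apply_symm_apply _)⟩⟩⟩
  · rintro ⟨v, i⟩ ⟨v', j⟩ h
    obtain rfl : v = v' := (k v i).2.symm.trans ((congrArg col h).trans (k v' j).2)
    exact congrArg _ ((e v).injective (Subtype.ext h))
  · obtain ⟨j, -, rfl⟩ := Finset.mem_image.1 h
    exact (k _ _).1

theorem exists_ab (ho : ∀ k m, col k = col m → o k = o m → k = m) :
    ∃ ab : Finset I → Lt θ → MvPolynomial I ℂ,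
      (∀ w : Equiv.Perm I, (∀ i, col (w i) = col i) → ∀ b x,
        rename w (ab b x) = ab (b.image w) x) ∧
      (∀ b x, (ab b x).IsHomogeneous x.1.2) ∧
      (∀ (b : Finset I) x, ab b x ∈ supported ℂ (b : Set I)) ∧
      ∀ b : Finset I, b.Nonempty → θ (dvec col b) = 0 → ∀ p, ∀ g ∈ In (Wb col b) p,
        g ∈ supported ℂ (b : Set I) → ∃ c : Fin (vd θ (dvec col b) p) → ℂ,
          Rel col θ o [b] (g - ∑ j, c j • ab b ⟨(dvec col b, p), j⟩) := by
  classical
  have key : ∀ (d : V) (p : ℕ), ∃ a : Fin (vd θ d p) → MvPolynomial (Id d) ℂ,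
      (∀ j, a j ∈ In (WL (I := Id d) Sigma.fst [Finset.univ]) p) ∧ (d ≠ 0 ∧ θ d = 0 →
        ∀ g ∈ In (WL (I := Id d) Sigma.fst [Finset.univ]) p, ∃ c : Fin (vd θ d p) → ℂ,
          g - ∑ j, c j • a j ∈ RelI (I := Id d) Sigma.fst θ (fun i => i.2) [Finset.univ]) := by
    intro d p
    by_cases k : d ≠ 0 ∧ θ d = 0
    · have := fin_In (WL (I := Id d) Sigma.fst [Finset.univ]) p
      obtain ⟨a, h1, h2⟩ := lift_Ub _ _ (n := vd θ d p) (if_pos k)
      exact ⟨a, h1, fun _ => h2⟩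
    · exact ⟨0, fun _ => zero_mem _, fun k' => (k k').elim⟩
  choose a h1 h2 using key
  let ab : Finset I → Lt θ → MvPolynomial I ℂ := fun b x =>
    if k : ∃ ι, Em_Ub col x.1.1 b ι then rename k.choose (a _ _ x.2) else 0
  have e1 : ∀ b x ι, Em_Ub col x.1.1 b ι → ab b x = rename ι (a _ _ x.2) := fun b x ι k =>
    (dif_pos ⟨ι, k⟩).trans ((Exists.choose_spec (⟨ι, k⟩ : ∃ ι, Em_Ub col x.1.1 b ι)).eq k (h1 ..))
  have e0 : ∀ b x, (∃ ι, Em_Ub col x.1.1 b ι) ∨ (¬ ∃ ι, Em_Ub col x.1.1 b ι) ∧ ab b x = 0 :=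
    fun b x => (em _).imp_right fun k => ⟨k, dif_neg k⟩
  refine ⟨ab, fun w hw b x => ?_, fun b x => ?_, fun b x => ?_, fun b hb h0 p g hg hs => ?_⟩
  · rcases e0 b x with ⟨ι, k⟩ | ⟨k, k'⟩
    · rw [e1 _ _ _ k, e1 _ _ _ (k.map hw), rename_rename]
    · rw [k', map_zero]
      refine ((e0 (b.image w) x).resolve_left ?_).2.symm
      rintro ⟨ι, k1⟩
      refine k ⟨w.symm ∘ ι, ?_⟩
      simpa [Finset.image_image] using
        k1.map (w := w.symm) fun i => by rw [← hw, w.apply_symm_apply]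
  · rcases e0 b x with ⟨ι, k⟩ | ⟨-, k'⟩
    · exact e1 _ _ _ k ▸ (h1 ..).1.rename_isHomogeneous
    · exact k' ▸ isHomogeneous_zero _ _ _
  · rcases e0 b x with ⟨ι, k⟩ | ⟨-, k'⟩
    · rw [e1 _ _ _ k, mem_supported, Finset.coe_subset, ← k.rg]
      exact (vars_rename _ _).trans (Finset.image_subset_image (Finset.subset_univ _))
    · exact k' ▸ zero_mem _
  · obtain ⟨ι, k⟩ := em_Ub (col := col) b
    obtain ⟨g, rfl⟩ := exists_rename_eq_of_vars_subset_range g ι k.inj fun i hi =>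
      (k.mem i).2 (mem_supported.1 hs hi)
    obtain ⟨c, hc⟩ := h2 _ p ⟨fun e => hb.card_ne_zero (by rw [← sz_dvec (col := col), e]; rfl), h0⟩
      g ⟨(IsHomogeneous.rename_isHomogeneous_iff k.inj).1 hg.1, fun w hw => by
        have e := w.viaEmbedding_apply ⟨ι, k.inj⟩
        have e' := w.viaEmbedding_apply_of_notMem ⟨ι, k.inj⟩
        refine rename_injective ι k.inj (Eq.trans ?_ (hg.2 (w.viaEmbedding ⟨ι, k.inj⟩)
          ⟨fun i => ?_, fun i hi => e' i fun k' => hi ((k.mem i).1 k')⟩))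
        · rw [rename_rename, rename_rename]
          exact congrArg (fun t => rename t g) (_root_.funext fun i => (e i).symm)
        · by_cases k' : i ∈ Set.range ι
          · obtain ⟨j, rfl⟩ := k'
            exact (congrArg col (e j)).trans ((k.cl _).trans ((hw.1 j).trans (k.cl j).symm))
          · rw [e' i k']⟩
    refine ⟨c, ?_⟩
    have := k.rel ho hc
    rw [map_sub, map_sum] at this
    simpa only [map_smul, fun j => e1 b ⟨(dvec col b, p), j⟩ ι k] using this

omit [Fintype I] [DecidableEq I] in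
theorem mem_Ub {b : Finset I} {w : Equiv.Perm I} (hw : w ∈ Wb col b) {i : I} (h : i ∈ b) :
    w i ∈ b := by
  by_contra k
  exact k ((w.injective (hw.2 _ k)).symm ▸ h)

omit [Fintype I] [DecidableEq I] in
theorem fix_Ub {b c : Finset I} (h : Disjoint b c) {w : Equiv.Perm I} (hw : w ∈ Wb col b)
    {g : MvPolynomial I ℂ} (hg : g ∈ supported ℂ (c : Set I)) : rename w g = g := by
  refine Algebra.adjoin_le (S := AlgHom.equalizer (rename w) (AlgHom.id ℂ _)) ?_ hg
  rintro _ ⟨i, hi, rfl⟩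
  exact (rename_X _ _).trans (congrArg X (hw.2 i (Finset.disjoint_right.1 h hi)))

open Classical in
/-- the sum over the permutations of a block -/
def Sm_Ub (col : I → Fin 3) (b : Finset I) : Module.End ℂ (MvPolynomial I ℂ) :=
  ∑ w : Wb col b, (rename (w : Equiv.Perm I) : _ →ₐ[ℂ] MvPolynomial I ℂ).toLinearMap

open Classical in
theorem Sm_Ub_apply (b : Finset I) (g : MvPolynomial I ℂ) :
    Sm_Ub col b g = ∑ w : Wb col b, rename (w : Equiv.Perm I) g := LinearMap.sum_apply _ _ _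

theorem Sm_mul_Ub {b : Finset I} (g : MvPolynomial I ℂ) {k : MvPolynomial I ℂ}
    (hk : ∀ w ∈ Wb col b, rename w k = k) : Sm_Ub col b (g * k) = Sm_Ub col b g * k := by
  simp only [Sm_Ub_apply, Finset.sum_mul, map_mul]
  exact Finset.sum_congr rfl fun w _ => by rw [hk w w.2]

theorem Sm_sup_Ub {b : Finset I} {g : MvPolynomial I ℂ} (hg : g ∈ supported ℂ (b : Set I)) :
    Sm_Ub col b g ∈ supported ℂ (b : Set I) := by
  rw [Sm_Ub_apply]
  refine sum_mem fun w _ => Algebra.adjoin_le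
    (S := (supported ℂ (b : Set I)).comap (rename (w : Equiv.Perm I))) ?_ hg
  rintro _ ⟨i, hi, rfl⟩
  exact (Subalgebra.mem_comap _ _ _).2 (rename_X (R := ℂ) _ i ▸ X_mem_supported.2 (mem_Ub w.2 hi))

theorem Sm_In_Ub {b : Finset I} {g : MvPolynomial I ℂ} {p : ℕ} (hg : g.IsHomogeneous p) :
    Sm_Ub col b g ∈ In (Wb col b) p := by
  classical
  rw [Sm_Ub_apply]
  refine ⟨IsHomogeneous.sum _ _ _ fun w _ => hg.rename_isHomogeneous, fun v hv => ?_⟩
  rw [map_sum]
  refine Fintype.sum_equiv (Equiv.mulLeft (⟨v, hv⟩ : Wb col b)) _ _ fun w => ?_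
  rw [rename_rename]
  rfl

theorem Sm_inv_Ub {f : MvPolynomial I ℂ} (l : List (Finset I))
    (hf : ∀ b ∈ l, ∀ w ∈ Wb col b, rename w f = f) :
    ∃ N : ℂ, N ≠ 0 ∧ (l.map (Sm_Ub col)).prod f = N • f := by
  classical
  induction l with
  | nil => exact ⟨1, one_ne_zero, (one_smul _ _).symm⟩
  | cons b l ih =>
    obtain ⟨N, h1, h2⟩ := ih fun c hc => hf c (List.mem_cons_of_mem _ hc)
    refine ⟨N * (Nat.card (Wb col b) : ℕ), mul_ne_zero h1 (Nat.cast_ne_zero.2 Nat.card_pos.ne'), ?_⟩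
    rw [List.map_cons, List.prod_cons, Module.End.mul_apply, h2, map_smul, Sm_Ub_apply,
      Finset.sum_congr rfl fun w _ => hf b List.mem_cons_self w.1 w.2, Finset.sum_const, mul_smul,
      Nat.cast_smul_eq_nsmul, Finset.card_univ, Fintype.card_eq_nat_card]

theorem Sm_prod_Ub (g : Finset I → MvPolynomial I ℂ)
    (hg : ∀ b : Finset I, g b ∈ supported ℂ (b : Set I)) (l : List (Finset I))
    (hl : l.Pairwise Disjoint) : ∀ k, (∀ b ∈ l, ∀ w ∈ Wb col b, rename w k = k) →
      (l.map (Sm_Ub col)).prod ((l.map g).prod * k) =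
        (l.map fun b => Sm_Ub col b (g b)).prod * k := by
  induction l with
  | nil => intro k _; rfl
  | cons b l ih =>
    intro k hk
    rw [List.pairwise_cons] at hl
    simp only [List.map_cons, List.prod_cons, Module.End.mul_apply]
    rw [mul_comm (g b), mul_assoc, ih hl.2 _ fun c hc w hw => by
      rw [map_mul, hk c (List.mem_cons_of_mem _ hc) w hw, fix_Ub (hl.1 c hc).symm hw (hg b)],
      mul_left_comm, Sm_mul_Ub, mul_assoc]
    intro w hw
    rw [map_mul, hk b List.mem_cons_self w hw, map_list_prod, List.map_map]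
    exact congrArg (fun t : List _ => t.prod * k)
      (List.map_congr_left fun c hc => fix_Ub (hl.1 c hc) hw (Sm_sup_Ub (hg c)))

theorem span_blocks {l : List (Finset I)} (h : Pa l) {p : ℕ} {f : MvPolynomial I ℂ}
    (hf : f ∈ In (WL col l) p) :
    f ∈ Submodule.span ℂ {x | ∃ z : List (Finset I × ℕ × MvPolynomial I ℂ),
      z.map Prod.fst = l ∧ (∀ y ∈ z, y.2.2 ∈ In (Wb col y.1) y.2.1 ∧
        y.2.2 ∈ supported ℂ (y.1 : Set I)) ∧ (z.map fun y => y.2.1).sum = p ∧
      x = (z.map fun y => y.2.2).prod} := by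
  obtain ⟨N, h1, h2⟩ := Sm_inv_Ub (col := col) (f := f) l fun b hb w hw => hf.2 w ⟨hw.1,
    fun c hc => (Wb_le_U3 (h.perm (List.perm_cons_erase hb)) hw).2 c
      ((List.perm_cons_erase hb).mem_iff.1 hc)⟩
  refine (Submodule.smul_mem_iff _ h1).1 (h2 ▸ ?_)
  rw [f.as_sum, map_sum]
  refine sum_mem fun m hm => ?_
  have e1 : ∀ t : List (Finset I), (t.map fun b => ∏ i ∈ b, (X i : MvPolynomial I ℂ) ^ m i).prod =
      ((t.map Finset.val).sum.map fun i => X i ^ m i).prod ∧
      (t.map fun b => ∑ i ∈ b, m i).sum = ((t.map Finset.val).sum.map m).sum := by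
    intro t
    induction t with
    | nil => exact ⟨rfl, rfl⟩
    | cons b t ih =>
      simp only [List.map_cons, List.prod_cons, List.sum_cons, Multiset.map_add, Multiset.prod_add,
        Multiset.sum_add, ih.1, ih.2]
      exact ⟨rfl, rfl⟩
  have e2 : ∀ b : Finset I, ∏ i ∈ b, (X i : MvPolynomial I ℂ) ^ m i ∈ supported ℂ (b : Set I) :=
    fun b => prod_mem fun i hi => pow_mem (X_mem_supported.2 hi) _
  have e3 := Sm_prod_Ub (col := col) _ e2 l h.disj 1 fun _ _ w _ => map_one (rename w)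
  obtain ⟨e4, e5⟩ := e1 l
  rw [show (l.map Finset.val).sum = _ from h] at e4 e5
  rw [mul_one, mul_one, e4] at e3
  rw [monomial_eq, Finsupp.prod_fintype _ _ fun i => pow_zero _, C_mul', map_smul]
  refine Submodule.smul_mem _ _ (Submodule.subset_span ⟨l.map fun b =>
    (b, ∑ i ∈ b, m i, Sm_Ub col b (∏ i ∈ b, X i ^ m i)), by simp [Function.comp_def],
    List.forall_mem_map.2 fun b _ => ⟨Sm_In_Ub (IsHomogeneous.prod _ _ _ fun i _ =>
      isHomogeneous_X_pow _ _), Sm_sup_Ub (e2 b)⟩, ?_, ?_⟩)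
  · rw [List.map_map, hf.1.degree_eq_sum_deg_support hm, ← Finsupp.degree_apply,
      Finsupp.degree_eq_sum]
    exact e5
  · rw [List.map_map]
    exact e3

end Pool.Agent.CS.EC
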