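import Pool.Agent.P.MP_d34769_ag.YU3
import Pool.Agent.P.MP_d34769_ag.YU7

/-! Harrison cochains as functions on words. -/

open MvPolynomial

noncomputable section
namespace Pool.Agent.CS.EC
open Pool.Agent.P.MP_d34769_ag
variable {I A : Type} [Fintype I] [DecidableEq I] {col : I → Fin 3} {θ : V → ℝ} {o : I → ℕ}
  {wt : A → V × ℕ} {h : Alp wt} {ab : Finset I → A → MvPolynomial I ℂ}

omit [Fintype I] [DecidableEq I] in
theorem len_Ud {T : Finset I → Finset A} {u : List (Finset I)} {z : List (Finset I × A)}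
    (hz : z ∈ Zd T u) : z.length = u.length := by
  rw [← ((mem_Zd T u z).1 hz).1, List.length_map]

omit [Fintype I] [DecidableEq I] in
theorem shuf_Zd {M : Type} [AddCommGroup M] (T : Finset I → Finset A) (u v : List (Finset I))
    (F : List (Finset I × A) → M) : (shuf u v fun l => ∑ z ∈ Zd T l, F z) =
      ∑ z ∈ Zd T u, ∑ z' ∈ Zd T v, shuf z z' F := by
  induction u generalizing v F with
  | nil => simp only [shuf_nil, Zd, Finset.sum_singleton]
  | cons a u ih =>
    induction v generalizing F with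
    | nil => simp only [shuf_nil', Zd, Finset.sum_singleton]
    | cons b v iv =>
      rw [shuf_cons]
      simp only [sum_Zd T a, sum_Zd T b, (shuf_nat _ _).sum, ih, iv, shuf_cons,
        Finset.sum_add_distrib]
      congr 1
      rw [Finset.sum_comm, Finset.smul_sum]
      refine Finset.sum_congr rfl fun x _ => ?_
      rw [Finset.sum_comm, Finset.smul_sum]
      refine Finset.sum_congr rfl fun z hz => ?_
      simp only [len_Ud hz, Finset.smul_sum]

omit [Fintype I] [DecidableEq I] in
theorem append_Ud {M : Type} [AddCommMonoid M] (T : Finset I → Finset A) (u v : List (Finset I))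
    (F : List (Finset I × A) → M) :
    ∑ z ∈ Zd T (u ++ v), F z = ∑ z ∈ Zd T u, ∑ z' ∈ Zd T v, F (z ++ z') := by
  induction u generalizing F with
  | nil => simp only [Zd, Finset.sum_singleton, List.nil_append]
  | cons a u ih => simp only [List.cons_append, sum_Zd, ih]

omit [Fintype I] [DecidableEq I] in
theorem map_Ud {M : Type} [AddCommMonoid M] (T : Finset I → Finset A) (f : Finset I → Finset I)
    (hf : ∀ b, T (f b) = T b) (u : List (Finset I)) (F : List (Finset I × A) → M) :
    ∑ z ∈ Zd T (u.map f), F z = ∑ z ∈ Zd T u, F (z.map fun y => (f y.1, y.2)) := by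
  induction u generalizing F with
  | nil => simp only [List.map_nil, Zd, Finset.sum_singleton]
  | cons a u ih => simp only [List.map_cons, sum_Zd, ih, hf]

omit [Fintype I] in
theorem cmp_Ud (L : List V) : ∀ b : Finset I, (∀ d ∈ L, d ≠ 0 ∧ θ d = 0) → L.sum = dvec col b →
    ∃ l : List (Finset I), (∀ c ∈ l, c.Nonempty ∧ θ (dvec col c) = 0) ∧
      (l.map Finset.val).sum = b.val ∧ l.map (dvec col) = L := by
  induction L with
  | nil =>
    intro b _ hs
    have : b.card = 0 := by rw [← sz_dvec (col := col), ← hs]; rfl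
    rw [Finset.card_eq_zero.1 this]
    exact ⟨[], by simp, rfl, rfl⟩
  | cons d L ih =>
    intro b h0 hs
    rw [List.sum_cons] at hs
    obtain ⟨r, hr⟩ := exists_sub (col := col) b
    obtain ⟨h1, h2⟩ := hr d (hs ▸ le_self_add)
    obtain ⟨l, k1, k2, k3⟩ := ih (b \ r d) (fun e he => h0 e (List.mem_cons_of_mem _ he))
      (by rw [dvec_sdiff h1, h2, ← hs, add_tsub_cancel_left])
    have h3 := h0 d List.mem_cons_self
    refine ⟨r d :: l, List.forall_mem_cons.2 ⟨⟨Finset.nonempty_iff_ne_empty.2 fun e => h3.1 ?_,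
      h2.symm ▸ h3.2⟩, k1⟩, ?_, by rw [List.map_cons, h2, k3]⟩
    · rw [← h2, e, dvec_empty]
    · rw [List.map_cons, List.sum_cons, k2, Finset.sdiff_val,
        add_tsub_cancel_of_le (Finset.val_le_iff.2 h1)]

theorem exists_cmp (L : List V) (h0 : ∀ d ∈ L, d ≠ 0 ∧ θ d = 0)
    (hs : L.sum = dvec col Finset.univ) : ∃ l, Cmp col θ l ∧ l.map (dvec col) = L := by
  obtain ⟨l, k1, k2, k3⟩ := cmp_Ud L Finset.univ h0 hs
  exact ⟨l, ⟨k1, k2⟩, k3⟩

omit [Fintype I] in
theorem val_Ud (w : Equiv.Perm I) (l : List (Finset I)) :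
    ((l.map fun b => b.image w).map Finset.val).sum = Multiset.map w (l.map Finset.val).sum := by
  induction l with
  | nil => rfl
  | cons a l ih =>
    simp only [List.map_cons, List.sum_cons, Multiset.map_add, ih,
      Finset.image_val_of_injOn w.injective.injOn]

theorem conj_Ud (l' : List (Finset I)) : ∀ (l : List (Finset I)) (b : Finset I),
    (l.map Finset.val).sum = b.val → (l'.map Finset.val).sum = b.val →
    l.map (dvec col) = l'.map (dvec col) → ∃ w ∈ Wb col b, (l.map fun b => b.image w) = l' := by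
  induction l' with
  | nil =>
    intro l b _ _ e
    exact ⟨1, one_mem _, by rw [List.map_eq_nil_iff.1 e]; rfl⟩
  | cons H t' ih =>
    intro l b h1 h2 e
    obtain ⟨F, t, rfl, e1, e2⟩ := List.map_eq_cons_iff.1 e
    rw [List.map_cons, List.sum_cons] at h1 h2
    have hF : F ⊆ b := Finset.val_le_iff.1 (h1 ▸ le_self_add)
    have hH : H ⊆ b := Finset.val_le_iff.1 (h2 ▸ le_self_add)
    obtain ⟨w, hw, e3⟩ := exists_Wb hF hH e1
    have hb : b.image w = b := Finset.eq_of_subset_of_card_le (fun i hi => by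
      obtain ⟨j, hj, rfl⟩ := Finset.mem_image.1 hi
      by_contra k
      exact k ((w.injective (hw.2 _ k)).symm ▸ hj))
      (Finset.card_image_of_injective _ w.injective).ge
    obtain ⟨w', hw', e4⟩ := ih (t.map fun b => b.image w) (b \ H) (by
      have := congrArg (Multiset.map w) h1
      rw [Multiset.map_add, ← Finset.image_val_of_injOn w.injective.injOn,
        ← Finset.image_val_of_injOn w.injective.injOn, e3, hb] at this
      rw [val_Ud, Finset.sdiff_val, ← this, add_tsub_cancel_left])
      (by rw [Finset.sdiff_val, ← h2, add_tsub_cancel_left])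
      (by rw [← e2, List.map_map]; exact List.map_congr_left fun c _ => dvec_image w hw.1 c)
    refine ⟨w' * w, mul_mem ⟨hw'.1, fun i hi => hw'.2 i fun k => hi (Finset.mem_sdiff.1 k).1⟩ hw,
      ?_⟩
    rw [List.map_cons, ← e4, List.map_map]
    congr 1
    · rw [Equiv.Perm.coe_mul, ← Finset.image_image, e3]
      exact (Finset.image_congr fun i hi => hw'.2 i fun k =>
        (Finset.mem_sdiff.1 k).2 hi).trans Finset.image_id
    · exact List.map_congr_left fun c _ => by
        rw [Equiv.Perm.coe_mul, ← Finset.image_image]; rfl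

theorem cmp_conj {l l' : List (Finset I)} (hl : Pa l) (hl' : Pa l')
    (e : l.map (dvec col) = l'.map (dvec col)) :
    ∃ w : Equiv.Perm I, (∀ i, col (w i) = col i) ∧ (l.map fun b => b.image w) = l' := by
  obtain ⟨w, hw, k⟩ := conj_Ud l' l Finset.univ hl hl' e
  exact ⟨w, hw.1, k⟩

omit [Fintype I] [DecidableEq I] in
theorem Ph_Ud (p : ℕ) (c : List A → ℂ) (l : List (Finset I)) : Ph h col ab p c l =
    ∑ z ∈ Zd (Tp h col p) l, if (z.map fun y => (wt y.2).2).sum = p then
      c (z.map Prod.snd) • (z.map fun y => ab y.1 y.2).prod else 0 := by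
  rw [Ph, Zp, Finset.sum_filter]

theorem smul_Ud {X M : Type} [AddCommGroup M] [Module ℂ M] (u v : List X) (c : List X → ℂ)
    (P : M) : (shuf u v fun w => c w • P) = shuf u v c • P :=
  ((shuf_nat u v).nat (LinearMap.toSpanSingleton ℂ M P).toAddMonoidHom c).symm

omit [Fintype I] [DecidableEq I] in
theorem shuf_Ud (p : ℕ) (c : List A → ℂ) (u v : List (Finset I)) :
    shuf u v (Ph h col ab p c) = Ph h col ab p
      (fun w => shuf (w.take u.length) (w.drop u.length) c) (u ++ v) := by
  rw [funext (Ph_Ud (h := h) (col := col) (ab := ab) p c), shuf_Zd, Ph_Ud, append_Ud]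
  refine Finset.sum_congr rfl fun z hz => Finset.sum_congr rfl fun z' _ => ?_
  have e : (z.map Prod.snd).length = u.length := by rw [List.length_map, len_Ud hz]
  rw [(shuf_nat z z').congr (ψ := fun w => if ((z ++ z').map fun y => (wt y.2).2).sum = p then
      c (w.map Prod.snd) • ((z ++ z').map fun y => ab y.1 y.2).prod else 0) fun w k => by
    rw [(k.2.2.map _).sum_eq, (k.2.2.map _).prod_eq]]
  split_ifs
  · rw [List.map_append (f := Prod.snd), List.take_left' e, List.drop_left' e, shuf_map]
    exact smul_Ud z z' _ _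
  · exact (shuf_nat z z').zero

theorem ren_Ud (hb : Bas θ h col o ab) (p : ℕ) (c : List A → ℂ) (w : Equiv.Perm I)
    (hw : ∀ i, col (w i) = col i) (l : List (Finset I)) :
    Ph h col ab p c (l.map fun b => b.image w) = rename w (Ph h col ab p c l) := by
  rw [Ph_Ud, Ph_Ud, map_Ud _ _ fun b => by ext x; simp [Tp, dvec_image w hw], map_sum]
  refine Finset.sum_congr rfl fun z _ => ?_
  simp only [List.map_map, Function.comp_def]
  split_ifs
  · rw [map_smul, map_list_prod, List.map_map]
    simp only [Function.comp_def, hb.eqv w hw]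
  · rw [map_zero]

theorem hom_Ud (hb : Bas θ h col o ab) (p : ℕ) (c : List A → ℂ) (l : List (Finset I)) :
    (Ph h col ab p c l).IsHomogeneous p := by
  have k : ∀ z : List (Finset I × A), (z.map fun y => ab y.1 y.2).prod.IsHomogeneous
      (z.map fun y => (wt y.2).2).sum := by
    intro z
    induction z with
    | nil => exact isHomogeneous_one _ _
    | cons y z ih => exact (hb.hom y.1 y.2).mul ih
  refine IsHomogeneous.sum _ _ _ fun z hz => (homogeneousSubmodule I ℂ p).smul_mem _ ?_
  exact ((mem_Zp h col p l z).1 hz).2.2 ▸ k z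

theorem ww_Ud (w : List A) :
    ww wt w = ((w.map fun x => (wt x).1).sum, (w.map fun x => (wt x).2).sum) := by
  induction w with
  | nil => rfl
  | cons x w ih => rw [ww_cons, ih]; rfl

omit [Fintype I] [DecidableEq I] in
theorem zip_Ud {p : ℕ} {l : List (Finset I)} {w : List A}
    (e : l.map (dvec col) = w.map fun x => (wt x).1) (k : (ww wt w).2 = p) :
    ∃ z ∈ Zp h col p l, z.map Prod.snd = w := by
  have : ∃ z : List (Finset I × A), z.map Prod.fst = l ∧ z.map Prod.snd = w ∧
      ∀ y ∈ z, (wt y.2).1 = dvec col y.1 := by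
    clear k
    induction w generalizing l with
    | nil => exact ⟨[], (List.map_eq_nil_iff.1 e).symm, rfl, by simp⟩
    | cons x w ih =>
      obtain ⟨b, t, rfl, e1, e2⟩ := List.map_eq_cons_iff.1 e
      obtain ⟨z, rfl, rfl, h3⟩ := ih e2
      exact ⟨(b, x) :: z, rfl, rfl, List.forall_mem_cons.2 ⟨e1.symm, h3⟩⟩
  obtain ⟨z, h1, rfl, h3⟩ := this
  rw [ww_Ud, List.map_map, List.map_map] at k
  exact ⟨z, (mem_Zp h col p l z).2 ⟨h1, h3, k⟩, rfl⟩

theorem word_Ud (h : Alp wt) (hw : ∀ x, θ (wt x).1 = 0) {p : ℕ} {w : List A}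
    (k : ww wt w = (dvec col Finset.univ, p)) :
    ∃ l, Cmp col θ l ∧ l.map (dvec col) = w.map fun x => (wt x).1 :=
  exists_cmp _ (List.forall_mem_map.2 fun x _ => ⟨h.ne x, hw x⟩)
    (congrArg Prod.fst ((ww_Ud w).symm.trans k))

theorem cd_eq (ho : ∀ k m, col k = col m → o k = o m → k = m) (hw : ∀ x, θ (wt x).1 = 0)
    (hb : Bas θ h col o ab) (ℓ p : ℕ) :
    cd col θ o (ℓ + 1) p = Kd wt (ℓ + 1) (dvec col Finset.univ, p) := by
  classical
  let Φ : (List A → ℂ) →ₗ[ℂ] List (Finset I) → MvPolynomial I ℂ :=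
    { toFun := Ph h col ab p
      map_add' := fun a b => funext fun l => by
        simp only [Ph, Pi.add_apply, add_smul, Finset.sum_add_distrib]
      map_smul' := fun a b => funext fun l => by
        simp only [Ph, Pi.smul_apply, smul_eq_mul, mul_smul, Finset.smul_sum, RingHom.id_apply] }
  rw [Kd, (Submodule.equivMapOfInjective (⊥ : Submodule ℂ (List A → ℂ)).mkQ
    (LinearMap.ker_eq_bot.1 (Submodule.ker_mkQ _)) _).finrank_eq]
  refine (sq_eq _ _ _ _ Φ (fun c hc => Submodule.mem_sup_left ?_) (fun φ hφ => ?_)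
    fun c hc => ⟨fun k => _root_.funext fun w => ?_, fun k => ?_⟩).symm
  · refine ⟨hom_Ud hb p c, fun w k => ren_Ud hb p c w k, fun u v hu hv _ => ?_⟩
    rw [show shuf u v (Φ c) = 0 from (shuf_Ud p c u v).trans (Finset.sum_eq_zero fun z hz => ?_)]
    · exact (RelI col θ o _).zero_mem
    · have e : (z.map Prod.snd).length = u.length + v.length := by
        rw [List.length_map, len_Ud (Finset.mem_filter.1 hz).1, List.length_append]
      have h1 := List.length_pos_iff.2 hu
      have h2 := List.length_pos_iff.2 hv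
      exact smul_eq_zero_of_left (hc.2 _ _
        (List.length_pos_iff.1 (by rw [List.length_take]; omega))
        (List.length_pos_iff.1 (by rw [List.length_drop]; omega))) _
  · have key : ∀ L : List V, ∃ c : List A → ℂ, ∀ l, Cmp col θ l → l.map (dvec col) = L →
        Rel col θ o l (φ l - Ph h col ab p c l) := by
      intro L
      by_cases k : ∃ l, Cmp col θ l ∧ l.map (dvec col) = L
      · obtain ⟨l, h1, rfl⟩ := k
        obtain ⟨c, hc⟩ := hb.span p l h1 (φ l) ⟨hφ.1 l, fun w k => by
          rw [← hφ.2.1 w k.1, List.map_congr_left fun b hb => image_WL k hb, List.map_id']⟩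
        refine ⟨c, fun l' h2 e => ?_⟩
        obtain ⟨w, k, rfl⟩ := cmp_conj (col := col) h1.2 h2.2 e.symm
        rw [hφ.2.1 w k, ren_Ud hb p c w k, ← map_sub]
        exact rel_rename ho w k hc
      · exact ⟨0, fun l h1 e => (k ⟨l, h1, e⟩).elim⟩
    choose cL hL using key
    let c : List A → ℂ := fun w => if w.length = ℓ + 1 ∧ ww wt w = (dvec col Finset.univ, p) then
      cL (w.map fun x => (wt x).1) w else 0
    have hN : φ - Φ c ∈ Nl col θ o (ℓ + 1) := fun l h1 h2 => by
      rw [Pi.sub_apply, show Φ c l = Ph h col ab p (cL (l.map (dvec col))) l from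
        Finset.sum_congr rfl fun z hz => ?_]
      · exact hL _ l h1 rfl
      · obtain ⟨rfl, k2, k3⟩ := (mem_Zp h col p l z).1 hz
        have e : ((z.map Prod.snd).map fun x => (wt x).1) = (z.map Prod.fst).map (dvec col) := by
          rw [List.map_map, List.map_map]
          exact List.map_congr_left k2
        rw [show c (z.map Prod.snd) = _ from if_pos ⟨by simpa using h2, by
          rw [ww_Ud, e, pa_dvec h1.2, List.map_map]; exact congrArg _ k3⟩, e]
    refine ⟨c, ⟨fun w k => if_neg k, fun u v hu hv => ?_⟩, hN⟩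
    by_cases k : (u ++ v).length = ℓ + 1 ∧ ww wt (u ++ v) = (dvec col Finset.univ, p)
    · obtain ⟨l, h1, e⟩ := word_Ud h hw k.2
      obtain ⟨z, hz, ez⟩ := zip_Ud (h := h) e (congrArg Prod.snd k.2)
      have e0 : l.length = ℓ + 1 := by simpa [← k.1] using congrArg List.length e
      rw [List.map_append] at e
      obtain ⟨s, t, rfl, e1, e2⟩ := List.map_eq_append_iff.1 e
      have e3 : u.length = s.length := by simpa using congrArg List.length e1.symm
      have h3 := (RelI col θ o _).sub_mem (hφ.2.2 s t (by rintro rfl; simp [hu] at e3)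
        (by rintro rfl; simp [hv] at e2) h1) ((shuf_nat s t).memS (RelI col θ o (s ++ t))
          (φ := fun l => φ l - Φ c l) fun w hw' => rel_perm hw'.2.2
            (hN w (cmp_perm hw'.2.2.symm h1) (hw'.2.2.length_eq.trans e0)))
      rw [(shuf_nat s t).sub, sub_sub_cancel] at h3
      have h4 := hb.ind p _ h1 _ (shuf_Ud p c s t ▸ h3) z hz
      rwa [ez, List.take_left' e3, List.drop_left' e3] at h4
    · exact (shuf_nat u v).eq_zero fun w hw' => if_neg fun k' =>
        k ⟨hw'.2.2.length_eq.symm.trans k'.1, (ww_perm hw'.2.2).symm.trans k'.2⟩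
  · by_cases k' : w.length = ℓ + 1 ∧ ww wt w = (dvec col Finset.univ, p)
    · obtain ⟨l, h1, e⟩ := word_Ud h hw k'.2
      obtain ⟨z, hz, rfl⟩ := zip_Ud (h := h) e (congrArg Prod.snd k'.2)
      exact hb.ind p l h1 c (k l h1 (by simpa [← k'.1] using congrArg List.length e)) z hz
    · exact hc.1 w k'
  · rw [show c = 0 from k, map_zero]
    exact zero_mem _

end Pool.Agent.CS.EC
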