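import Pool.Agent.P.MP_d34769_ag.YU2
import Pool.Agent.P.MP_d34769_ag.YW2

/-! The Euler characteristic of the Harrison complex. -/

open MvPolynomial

noncomputable section
namespace Pool.Agent.CS.EC
open Pool.Agent.P.MP_d34769_ag
variable {I : Type} [Fintype I] [DecidableEq I] {col : I → Fin 3} {θ : V → ℝ} {o : I → ℕ}

/-- the coboundary as a linear map -/
def dUe (I : Type) [DecidableEq I] :
    (List (Finset I) → MvPolynomial I ℂ) →ₗ[ℂ] (List (Finset I) → MvPolynomial I ℂ) := lin cob_nat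

theorem dH_Ue (hθ : ∀ a b, θ (a + b) = θ a + θ b) {p : ℕ} {φ : List (Finset I) → MvPolynomial I ℂ}
    (h : φ ∈ HarS col θ o p) : dUe I φ ∈ HarS col θ o p := by
  refine ⟨fun l => (cob_nat l).memS (homogeneousSubmodule I ℂ p) fun w _ => h.1 w,
    fun w hw l => ?_, fun u v hu hv k => ?_⟩
  · change cob _ φ = rename w (cob l φ)
    rw [cob_map _ fun a b => Finset.image_union a b]
    simp only [h.2.1 w hw]
    exact ((cob_nat l).nat (rename w : MvPolynomial I ℂ →ₐ[ℂ] _).toAddMonoidHom φ).symm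
  · change (shuf u v fun w => cob w φ) ∈ RelI col θ o (u ++ v)
    rw [HA.shuf_cob]
    refine add_mem ((cob_nat u).memS _ fun w hw => ?_)
      (zsmul_mem ((cob_nat v).memS _ fun w hw => ?_) _)
    · have n := HA.fc_ne hw
      obtain ⟨s, a, b, t, rfl, rfl⟩ := hw
      have k' : Cmp col θ (s ++ a :: b :: (t ++ v)) := by simpa using k
      have := rel_merge (o := o) hθ k' (f := shuf (s ++ (a ∪ b) :: t) v φ)
        (by simpa using h.2.2 _ v n hv (by simpa using cmp_merge hθ k'))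
      rw [mem_RelI]
      simpa using this
    · have n := HA.fc_ne hw
      obtain ⟨s, a, b, t, rfl, rfl⟩ := hw
      have k' : Cmp col θ ((u ++ s) ++ a :: b :: t) := by simpa using k
      have := rel_merge (o := o) hθ k' (f := shuf u (s ++ (a ∪ b) :: t) φ)
        (by simpa using h.2.2 u _ hu n (by simpa using cmp_merge hθ k'))
      rw [mem_RelI]
      simpa using this

theorem dN_Ue (hθ : ∀ a b, θ (a + b) = θ a + θ b) {ℓ : ℕ} {φ : List (Finset I) → MvPolynomial I ℂ}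
    (h : φ ∈ Nl col θ o ℓ) : dUe I φ ∈ Nl col θ o (ℓ + 1) := by
  intro l k e
  refine (cob_nat l).memS (RelI col θ o l) fun w hw => ?_
  have n := HA.fc_length hw
  obtain ⟨s, a, b, t, rfl, rfl⟩ := hw
  exact rel_merge hθ k (h _ (cmp_merge hθ k) (by omega))

variable (col θ o)

/-- cocycles -/
def ZUe (ℓ p : ℕ) : Submodule ℂ (List (Finset I) → MvPolynomial I ℂ) :=
  HarS col θ o p ⊓ (Nl col θ o (ℓ + 1)).comap (dUe I)

/-- the rank of the coboundaries -/
def bUe (ℓ p : ℕ) : ℕ := Module.finrank ℂ (((HarS col θ o p).map (dUe I)).map (Nl col θ o ℓ).mkQ)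

theorem har_Ue (ℓ p : ℕ) : har col θ o ℓ p = Module.finrank ℂ
    ((ZUe col θ o ℓ p).map ((HarS col θ o p).map (dUe I) ⊔ Nl col θ o ℓ).mkQ) := by
  have e1 : Submodule.span ℂ {φ | Har col θ o p φ ∧
      ∀ l, Cmp col θ l → l.length = ℓ + 1 → Rel col θ o l (cob l φ)} = ZUe col θ o ℓ p :=
    Submodule.span_eq (ZUe col θ o ℓ p)
  have e2 : Submodule.span ℂ {φ | ∃ ψ, Har col θ o p ψ ∧
      ∀ l, Cmp col θ l → l.length = ℓ → Rel col θ o l (φ l - cob l ψ)} =
      (HarS col θ o p).map (dUe I) ⊔ Nl col θ o ℓ := by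
    rw [← Submodule.span_eq ((HarS col θ o p).map (dUe I) ⊔ Nl col θ o ℓ)]
    refine congrArg _ (Set.ext fun φ => ⟨?_, fun h => ?_⟩)
    · rintro ⟨ψ, h1, h2⟩
      exact Submodule.mem_sup.2 ⟨_, ⟨ψ, h1, rfl⟩, φ - dUe I ψ, h2, add_sub_cancel _ _⟩
    · obtain ⟨_, ⟨ψ, h1, rfl⟩, z, h2, rfl⟩ := Submodule.mem_sup.1 h
      refine ⟨ψ, h1, fun l k e => ?_⟩
      rw [show (dUe I ψ + z) l - cob l ψ = z l from add_sub_cancel_left _ _]
      exact h2 l k e
  simp only [har]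
  rw [e1, e2]

theorem fin_Ue (ℓ p : ℕ) (U : Submodule ℂ (List (Finset I) → MvPolynomial I ℂ))
    (h : U ≤ HarS col θ o p) : Module.Finite ℂ (U.map (Nl col θ o ℓ).mkQ) := by
  have : Finite {l : List (Finset I) | l.length = ℓ} :=
    (List.finite_length_eq (Finset I) ℓ).to_subtype
  let A' : Submodule ℂ ({l : List (Finset I) | l.length = ℓ} → MvPolynomial I ℂ) :=
    Submodule.pi Set.univ fun _ => restrictTotalDegree I ℂ p
  have : Module.Finite ℂ A' := Module.Finite.iff_fg.2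
    (Submodule.fg_pi fun _ => Module.Finite.iff_fg.1 inferInstance)
  refine sq_fin U _ A' ⊥ (LinearMap.funLeft ℂ _ Subtype.val) (fun x hx L _ => ?_)
    fun x _ hx l _ e => ?_
  · exact (mem_restrictTotalDegree _ _ _).2 ((h hx).1 L.1).totalDegree_le
  · have h1 : x l = 0 := congrFun ((Submodule.mem_bot ℂ).1 hx) ⟨l, e⟩
    rw [h1]
    exact (RelI col θ o _).zero_mem

variable {col θ o}

theorem zero_Ue {M : Type} [AddCommGroup M] [Module ℂ M] {U B : Submodule ℂ M} (h : U ≤ B) :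
    Module.finrank ℂ (U.map B.mkQ) = 0 := by
  rw [LinearMap.le_ker_iff_map.1 (B.ker_mkQ.symm ▸ h), finrank_bot]

theorem top_Ue {ℓ : ℕ} (h : Fintype.card I < ℓ) (φ : List (Finset I) → MvPolynomial I ℂ) :
    φ ∈ Nl col θ o ℓ := fun _ k e => absurd (cmp_length k) (by omega)

theorem har_zero {ℓ : ℕ} (h : Fintype.card I < ℓ) (p : ℕ) : har col θ o ℓ p = 0 := by
  rw [har_Ue]
  exact zero_Ue fun φ _ => Submodule.mem_sup_right (top_Ue h φ)

theorem step_Ue (hθ : ∀ a b, θ (a + b) = θ a + θ b) (ℓ p : ℕ) :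
    cd col θ o ℓ p = har col θ o ℓ p + (bUe col θ o ℓ p + bUe col θ o (ℓ + 1) p) := by
  have f1 := fin_Ue col θ o ℓ p _ le_rfl
  have f2 := fin_Ue col θ o ℓ p (ZUe col θ o ℓ p) inf_le_left
  have h1 := sq_add ((HarS col θ o p).map (dUe I)) (ZUe col θ o ℓ p) (Nl col θ o ℓ) (by
    rintro _ ⟨ψ, h, rfl⟩
    refine ⟨dH_Ue hθ h, fun l _ _ => ?_⟩
    rw [show dUe I (dUe I ψ) l = 0 from HA.cob_cob l ψ]
    exact (RelI col θ o _).zero_mem)
  have h2 := sq_add (ZUe col θ o ℓ p) (HarS col θ o p) (Nl col θ o ℓ) inf_le_left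
  have h3 := sq_eq (HarS col θ o p) (ZUe col θ o ℓ p ⊔ Nl col θ o ℓ)
    ((HarS col θ o p).map (dUe I)) (Nl col θ o (ℓ + 1)) (dUe I)
    (fun x hx => Submodule.mem_sup_left ⟨x, hx, rfl⟩)
    (by
      rintro _ ⟨x, hx, rfl⟩
      exact ⟨x, hx, by rw [sub_self]; exact zero_mem _⟩)
    fun x hx => ⟨fun k => Submodule.mem_sup_left ⟨hx, k⟩, fun k => by
      obtain ⟨y, hy, z, hz, rfl⟩ := Submodule.mem_sup.1 k
      rw [map_add]
      exact add_mem hy.2 (dN_Ue hθ hz)⟩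
  rw [har_Ue, cd, bUe, bUe]
  omega

theorem har_euler (hθ : ∀ a b, θ (a + b) = θ a + θ b) (p : ℕ) :
    ∑ c ∈ Finset.range (Fintype.card I), (-1 : ℚ) ^ c * har col θ o (c + 1) p =
      ∑ c ∈ Finset.range (Fintype.card I), (-1 : ℚ) ^ c * cd col θ o (c + 1) p := by
  have h0 : bUe col θ o 1 p = 0 := zero_Ue (by
    rintro _ ⟨ψ, -, rfl⟩ l - e
    obtain ⟨a, rfl⟩ := List.length_eq_one_iff.1 e
    exact (RelI col θ o _).zero_mem)
  have h1 : bUe col θ o (Fintype.card I + 1) p = 0 :=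
    zero_Ue fun φ _ => top_Ue (Nat.lt_succ_self _) φ
  have h2 : ∀ n, ∑ c ∈ Finset.range n, (-1 : ℚ) ^ c * cd col θ o (c + 1) p =
      ∑ c ∈ Finset.range n, (-1 : ℚ) ^ c * har col θ o (c + 1) p -
        (-1) ^ n * bUe col θ o (n + 1) p := fun n => by
    induction n with
    | zero => simp [h0]
    | succ n ih =>
      rw [Finset.sum_range_succ, Finset.sum_range_succ, ih, step_Ue hθ]
      push_cast
      ring
  rw [h2, h1]
  simp

end Pool.Agent.CS.EC
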