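import Pool.Agent.P.MP_d34769_ag.YU6
import Pool.Agent.P.MP_d34769_ag.YU8b
import Pool.Agent.P.MP_d34769_ag.YUa
import Pool.Agent.P.MP_d34769_ag.YUc
import Pool.Agent.P.MP_d34769_ag.YUd
import Pool.Agent.P.MP_d34769_ag.YUe
import Pool.Agent.P.MP_d34769_ag.Poly

/-! The Euler characteristic of the Harrison complex is the counting function. -/

open PowerSeries

noncomputable section
namespace Pool.Agent.CS.EC
open Pool.Agent.P.MP_d34769_ag
variable {A : Type} {wt : A → V × ℕ} {θ : V → ℝ}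

theorem Kd_zero {ℓ : ℕ} {g : V × ℕ} (h : ∀ w : List A, w.length = ℓ → ww wt w ≠ g) :
    Kd wt ℓ g = 0 := by
  rw [Kd, show Ksp wt ℓ g = ⊥ from eq_bot_iff.2 fun c hc =>
    funext fun w => hc.1 w fun k => h w k.1 k.2, finrank_bot]

theorem gn_len (h : Alp wt) (j : Gn wt) : j.1.1 + 1 ≤ sz j.1.2.1 := by
  by_contra k
  have e : Kd wt (j.1.1 + 1) j.1.2 = 0 := Kd_zero fun w a b => k (by rw [← a, ← b]; exact h.len w)
  exact (j.2.cast e).elim0

theorem alp_Gn (h : Alp wt) : Alp fun j : Gn wt => j.1.2 := by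
  refine ⟨fun j e => by simpa [e, sz] using gn_len h j, fun g => ?_⟩
  refine (Set.finite_range fun x : Σ n : Fin (sz g.1), Fin (Kd wt (n + 1) g) =>
    (⟨(x.1, g), x.2⟩ : Gn wt)).subset ?_
  rintro ⟨⟨n, g'⟩, j⟩ rfl
  exact ⟨⟨⟨n, gn_len h ⟨_, j⟩⟩, j⟩, rfl⟩

theorem sc_Gn (d : V) :
    sc (fun _ => True) (fun j : Gn wt => j.1.1 + 1) (fun j => j.1.2) d = - LL wt d := by
  ext p
  have e : ∀ n, Nat.card {j : Gn wt // True ∧ j.1.1 + 1 = n + 1 ∧ j.1.2 = (d, p)} =
      Kd wt (n + 1) (d, p) := fun n => by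
    rw [← Nat.card_fin (Kd _ _ _)]
    refine (Nat.card_eq_of_bijective (fun j => ⟨⟨(n, d, p), j⟩, trivial, rfl, rfl⟩)
      ⟨fun a b k => by simpa using k, ?_⟩).symm
    rintro ⟨⟨⟨m, g⟩, j⟩, -, h1, h2⟩
    obtain rfl : m = n := Nat.succ_injective h1
    obtain rfl : g = (d, p) := h2
    exact ⟨j, rfl⟩
  simp only [sc, LL, map_neg, coeff_mk, Finset.sum_range_succ', e]
  simp [pow_succ]

theorem logder (h : Alp wt) (e : V) :
    (sz e : ℚ⟦X⟧) * pp wt e = cv (GG (LL wt)) (pp wt) e := by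
  classical
  have e1 : sc (fun _ => True) List.length (ww wt) = sc (Adm fun j : Gn wt => j.1.1 + 1)
      (fun s => (s.map fun j => j.1.1 + 1).sum) fun s => (s.map fun j => j.1.2).sum := by
    funext d
    simp only [sc, true_and, card_words h]
  rw [log_inv (inv_words h) (e1 ▸ log_multi (alp_Gn h) (gn_len h)) e]
  simp [cv, GG, sc_Gn]

theorem LL_zero (hθ : ∀ a b, θ (a + b) = θ a + θ b) (hw : ∀ x, θ (wt x).1 = 0) {d : V}
    (hd : θ d ≠ 0) : LL wt d = 0 := by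
  have k : ∀ w, θ (ww wt w).1 = 0 := fun w => by
    induction w with
    | nil => exact th0 hθ
    | cons x w ih => rw [ww_cons, Prod.fst_add, hθ, hw, ih, add_zero]
  ext p
  have e : ∀ ℓ, Kd wt ℓ (d, p) = 0 := fun ℓ => Kd_zero fun w _ b => hd (by simpa [b] using k w)
  simp [LL, e]

theorem ec_ser {I : Type} [Fintype I] [DecidableEq I] [Nonempty I] {col : I → Fin 3} {o : I → ℕ}
    (hθ : ∀ a b, θ (a + b) = θ a + θ b) (ho : ∀ k m, col k = col m → o k = o m → k = m)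
    (h0 : θ (dvec col Finset.univ) = 0) : Ser (cnt θ (dvec col Finset.univ)) ((1 - X) *
      PowerSeries.mk fun a => ∑ c ∈ Finset.range (Fintype.card I),
        (-1 : ℚ) ^ c * har col θ o (c + 1) a) := by
  obtain ⟨P, N, hB⟩ := exists_bk hθ
  obtain ⟨ab, hb⟩ := exists_bas (θ := θ) hθ ho
  have s := sz_dvec (col := col) Finset.univ
  have := ser_cnt hθ (fun e he => Ser.cancel (pp_Lt hθ hB he ▸ ser_P hθ hB he.ge)) (if_pos rfl)
    (fun d => LL_zero hθ lt_theta) (logder (alp_Lt θ)) (fun k => by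
      rw [k] at s
      exact Fintype.card_ne_zero s.symm) h0
  simp only [har_euler hθ, cd_eq ho lt_theta hb]
  rwa [LL, s] at this

theorem ec_fin (n d k : ℕ) (hn : 0 < n) (hk : 0 < k) (α : ℝ) (hα : 0 < α) :
    ∃ P : Polynomial ℚ, (∀ q : ℚ, 1 < q → P.eval q = cnt (wgt n d k α) ![d, n + d, k] q) ∧
      ∀ h : ℕ → ℕ → Cardinal.{0}, (∀ c a, ∑ b ∈ Finset.range (a + 1), h c b =
        har (I := Σ v, Fin (![d, n + d, k] v)) Sigma.fst (wgt n d k α) (fun i => i.2) (c + 1) a) →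
        (∀ c a, h c a < Cardinal.aleph0) ∧ (∀ c a, 2 * d + n + k ≤ c → (h c a).toNat = 0) ∧
        ∀ a, P.coeff a = ∑ c ∈ Finset.range (2 * d + n + k), (-1 : ℚ) ^ c * (h c a).toNat := by
  obtain ⟨P, hP⟩ := exists_poly (d := d) hn hk hα
  refine ⟨P, hP, fun h hh => ?_⟩
  have : Nonempty (Id ![d, n + d, k]) := ⟨⟨1, ⟨0, Nat.add_pos_left hn d⟩⟩⟩
  have e := dvec_Uc ![d, n + d, k]
  have e' : Fintype.card (Id ![d, n + d, k]) = 2 * d + n + k := by
    rw [← Finset.card_univ, ← sz_dvec (col := Sigma.fst), e]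
    simp only [sz, Matrix.cons_val]
    ring
  have h1 := (ec_ser (θ := wgt n d k α) (col := Sigma.fst) (o := fun i : Id ![d, n + d, k] => i.2)
    (fun a b => by simp only [wgt, Pi.add_apply, Nat.cast_add]; ring)
    (fun ⟨u, i⟩ ⟨v, j⟩ a b => by
      obtain rfl : u = v := a
      exact congrArg _ (Fin.ext b)) (by rw [e]; simp [wgt]; ring)).eq (e.symm ▸ hP)
  have h2 : ∀ c a, h c a < Cardinal.aleph0 := fun c a =>
    (Finset.single_le_sum (f := h c) (fun _ _ => zero_le) (Finset.self_mem_range_succ a)).trans_lt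
      (hh c a ▸ Cardinal.natCast_lt_aleph0)
  have h3 : ∀ c a, ∑ b ∈ Finset.range (a + 1), ((h c b).toNat : ℚ) = har (I := Id ![d, n + d, k])
      Sigma.fst (wgt n d k α) (fun i => i.2) (c + 1) a := fun c a => by
    have := hh c a
    rw [Finset.sum_congr rfl fun b _ => (Cardinal.cast_toNat_of_lt_aleph0 (h2 c b)).symm] at this
    exact_mod_cast this
  refine ⟨h2, fun c a m => ?_, fun a => ?_⟩
  · have := h3 c a
    rw [har_zero (by omega), Nat.cast_zero,
      Finset.sum_eq_zero_iff_of_nonneg fun _ _ => Nat.cast_nonneg _] at this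
    exact_mod_cast this a (Finset.self_mem_range_succ a)
  rw [← Polynomial.coeff_coe, ← h1, sub_mul, one_mul, map_sub, coeff_mk, e']
  simp only [← h3]
  cases a with
  | zero => simp
  | succ a =>
    rw [coeff_succ_X_mul, coeff_mk, ← Finset.sum_sub_distrib]
    exact Finset.sum_congr rfl fun c _ => by rw [Finset.sum_range_succ _ (a + 1)]; ring

theorem ec_main (n d k : ℕ) (hn : 0 < n) (hk : 0 < k) (α : ℝ) (hα : 0 < α) :
    ∃ P : Polynomial ℚ, (∀ q : ℚ, 1 < q → P.eval q = cnt (wgt n d k α) ![d, n + d, k] q) ∧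
      ∀ h : ℕ → ℕ → Cardinal.{0}, (∀ c a, ∑ b ∈ Finset.range (a + 1), h c b =
        har (I := Σ v, Fin (![d, n + d, k] v)) Sigma.fst (wgt n d k α) (fun i => i.2) (c + 1) a) →
        ∀ a, P.coeff a = ∑ᶠ c, (-1 : ℚ) ^ c * (h c a).toNat :=
  (ec_fin n d k hn hk α hα).imp fun _ H => ⟨H.1, fun h hh a => ((H.2 h hh).2.2 a).trans
    (finsum_eq_sum_of_support_subset _ fun c hc => by
      by_contra m
      exact hc (by simp [(H.2 h hh).2.1 c a (by simpa using m)])).symm⟩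

end Pool.Agent.CS.EC
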