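import Pool.Agent.P.MP_d34769_ag.HDef

/-! The mixed Hodge numbers of a normal crossing compactification and the Harrison numbers,
written through one generic subquotient rank (the same numbers as `hod` and `har`, with a short
printed form). -/

open MvPolynomial

noncomputable section
namespace Pool.Agent.P.MP_d34769_ag

open Pool.Agent.PQ

/-- The dimension of the image of the span of `A` in the quotient of `V` by the span of `B`. -/
def qrk {V : Type} [AddCommGroup V] [Module ℂ V] (A B : Set V) : Cardinal :=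
  Module.rank ℂ ((Submodule.span ℂ A).map (Submodule.span ℂ B).mkQ)

/-- The closed forms with compact support in `Z - D` whose class is in `F^a ∩ W_{j-c}`. -/
def FS {N : ℕ} {ι : Type} (Z : Set (Amb N)) (D : ι → Set (Amb N)) (j c a : ℕ) : Set (Form N j) :=
  {α | Ac Z (Z \ ⋃ i, D i) α ∧ Nul Z (dd α) ∧ Col Z D c α ∧ Fil Z D a α}

/-- The mixed Hodge number `dim Gr_F^a Gr^W_{j-c} H^j_c(Z - D)`. -/
def hdg {N : ℕ} {ι : Type} (Z : Set (Amb N)) (D : ι → Set (Amb N)) (j c a : ℕ) : Cardinal :=
  qrk (FS Z D j c a) (FS Z D j c (a + 1) ∪ FS Z D j (c + 1) a)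

/-- The dimension of the Harrison cohomology in length `ℓ` and degree `p`. -/
def hco {I : Type} [Fintype I] [DecidableEq I] (col : I → Fin 3) (θ : (Fin 3 → ℕ) → ℝ)
    (o : I → ℕ) (ℓ p : ℕ) : ℕ :=
  (qrk {φ | Har col θ o p φ ∧ ∀ l, Cmp col θ l → l.length = ℓ + 1 → Rel col θ o l (cob l φ)}
    {φ | ∃ ψ, Har col θ o p ψ ∧
      ∀ l, Cmp col θ l → l.length = ℓ → Rel col θ o l (φ l - cob l ψ)}).toNat

theorem hdg_eq : @hdg = @hod := by
  funext N ι Z D j c a
  unfold hdg hod qrk FW FS
  rw [Submodule.span_union]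

theorem hco_eq : @hco = @har := rfl

end Pool.Agent.P.MP_d34769_ag
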