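import Pool.Agent.P.MP_d34769_ag.YW0

/-! The signed shuffle algebra. -/

noncomputable section
namespace Pool.Agent.CS.HA
open Pool.Agent.P.MP_d34769_ag

section basis
variable (R : Type) [CommRing R] {A B M : Type} [AddCommGroup M] [Module R M]

/-- a basis vector -/
def bs (a : A) : A →₀ R := Finsupp.single a 1

/-- linear extension -/
@[irreducible] def lc (φ : A → M) : (A →₀ R) →ₗ[R] M := Finsupp.linearCombination R φ

variable {R}

@[simp] theorem lc_bs (φ : A → M) (a : A) : lc R φ (bs R a) = φ a := by simp [lc, bs]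

theorem hom_bs {f g : (A →₀ R) →ₗ[R] M} (h : ∀ a, f (bs R a) = g (bs R a)) : f = g :=
  Finsupp.lhom_ext' fun a => LinearMap.ext_ring (h a)

theorem eq_bs (f g : (A →₀ R) →ₗ[R] M) (h : ∀ a, f (bs R a) = g (bs R a)) (x : A →₀ R) :
    f x = g x := by rw [hom_bs h]

theorem eq_bs₂ (f g : (A →₀ R) →ₗ[R] (B →₀ R) →ₗ[R] M)
    (h : ∀ a b, f (bs R a) (bs R b) = g (bs R a) (bs R b)) (x : A →₀ R) (y : B →₀ R) :
    f x y = g x y := by rw [hom_bs fun a => hom_bs (h a)]

theorem _root_.Pool.Agent.CS.NatOp.lin {N : Type} [AddCommGroup N] [Module R N]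
    {O : ∀ (M : Type) [AddCommGroup M], (A → M) → M} {F : A → Prop} (h : NatOp O F)
    (f : M →ₗ[R] N) (φ : A → M) : f (O M φ) = O N fun a => f (φ a) := h.nat f.toAddMonoidHom φ

end basis

section words
variable (R : Type) [CommRing R] {X M : Type} [AddCommGroup M]

/-- prepend a letter -/
def pre (a : X) : (List X →₀ R) →ₗ[R] (List X →₀ R) := lc R fun l => bs R (a :: l)

/-- the sign of the length -/
def sgn : (List X →₀ R) →ₗ[R] (List X →₀ R) := lc R fun l => (-1 : ℤ) ^ l.length • bs R l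

/-- the shuffle product -/
def shp : (List X →₀ R) →ₗ[R] (List X →₀ R) →ₗ[R] (List X →₀ R) :=
  lc R fun u => lc R fun v => shuf u v (bs R)

/-- the boundary -/
def bdr [Union X] : (List X →₀ R) →ₗ[R] (List X →₀ R) := lc R fun l => cob l (bs R)

/-- join a letter to the first letter -/
def jn [Union X] (a : X) : (List X →₀ R) →ₗ[R] (List X →₀ R) := lc R (mrg a (bs R))

variable {R}

theorem pre_bs (a : X) (l : List X) : pre R a (bs R l) = bs R (a :: l) := lc_bs _ _
theorem sgn_bs (l : List X) : sgn R (bs R l) = (-1 : ℤ) ^ l.length • bs R l := lc_bs _ _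
theorem shp_bs (u v : List X) : shp R (bs R u) (bs R v) = shuf u v (bs R) := by simp [shp]
theorem bdr_bs [Union X] (l : List X) : bdr R (bs R l) = cob l (bs R) := lc_bs _ _

theorem sgn_nil : sgn R (bs R ([] : List X)) = bs R [] := by simp [sgn_bs]

theorem sgn_pre (a : X) (x : List X →₀ R) : sgn R (pre R a x) = -pre R a (sgn R x) :=
  eq_bs (sgn R ∘ₗ pre R a) (-pre R a ∘ₗ sgn R) (fun l => by
    simp [pre_bs, sgn_bs, pow_succ]) x

theorem sgn_sgn (x : List X →₀ R) : sgn R (sgn R x) = x :=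
  eq_bs (sgn R ∘ₗ sgn R) LinearMap.id (fun l => by
    simp [sgn_bs, smul_smul, ← mul_pow]) x

theorem nil_shp (y : List X →₀ R) : shp R (bs R []) y = y :=
  eq_bs (shp R (bs R [])) LinearMap.id (fun v => shp_bs [] v) y

theorem shp_nil (x : List X →₀ R) : shp R x (bs R []) = x :=
  eq_bs ((shp R).flip (bs R [])) LinearMap.id (fun u => (shp_bs u []).trans (shuf_nil' u _)) x

theorem shp_pre (a b : X) (x y : List X →₀ R) : shp R (pre R a x) (pre R b y) =
    pre R a (shp R x (pre R b y)) - pre R b (shp R (pre R a (sgn R x)) y) :=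
  eq_bs₂ ((shp R).compl₁₂ (pre R a) (pre R b)) (((shp R).compl₂ (pre R b)).compr₂ (pre R a) +
    (shp R ∘ₗ pre R a ∘ₗ sgn R).compr₂ (-pre R b)) (fun u v => by
      simp [pre_bs, sgn_bs, shp_bs, shuf_cons, (shuf_nat _ _).lin, pow_succ]) x y |>.trans
    (sub_eq_add_neg _ _).symm

theorem sgn_shp (x y : List X →₀ R) : sgn R (shp R x y) = shp R (sgn R x) (sgn R y) :=
  eq_bs₂ ((shp R).compr₂ (sgn R)) ((shp R).compl₁₂ (sgn R) (sgn R)) (fun u v => by
    simp only [LinearMap.compr₂_apply, LinearMap.compl₁₂_apply, sgn_bs, shp_bs, map_zsmul,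
      LinearMap.smul_apply, (shuf_nat _ _).lin, smul_smul, ← pow_add]
    rw [← (shuf_nat u v).smul]
    exact (shuf_nat u v).congr fun w hw => by rw [hw.2.2.length_eq, List.length_append, add_comm]) x y

theorem shp_assoc (x y z : List X →₀ R) : shp R (shp R x y) z = shp R x (shp R y z) := by
  refine eq_bs (shp R (shp R x y)) (shp R x ∘ₗ shp R y) (fun t => ?_) z
  induction t generalizing x y with
  | nil => simp [shp_nil]
  | cons c t it =>
    refine eq_bs ((shp R).flip _ ∘ₗ shp R x) (shp R x ∘ₗ (shp R).flip _) (fun v => ?_) y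
    induction v generalizing x with
    | nil => simp [shp_nil, nil_shp]
    | cons b v iv =>
      refine eq_bs ((shp R).flip _ ∘ₗ (shp R).flip _) ((shp R).flip _) (fun u => ?_) x
      induction u with
      | nil => simp [nil_shp]
      | cons a u iu =>
        simp only [LinearMap.comp_apply, LinearMap.flip_apply, ← pre_bs] at it iv iu ⊢
        have h := it (pre R a (sgn R (bs R u))) (pre R b (sgn R (bs R v)))
        rw [shp_pre, sgn_sgn] at h
        simp only [shp_pre a b, map_sub, LinearMap.sub_apply] at h ⊢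
        rw [shp_pre a c, shp_pre b c, iu, iv, shp_pre b c]
        simp only [map_sub, shp_pre a, sgn_shp, sgn_pre, map_neg, sgn_sgn, ← h, LinearMap.neg_apply]
        abel

theorem shuf_comm (u v : List X) : ∀ φ : List X → M,
    shuf u v φ = (-1 : ℤ) ^ (u.length * v.length) • shuf v u φ := by
  induction u generalizing v with
  | nil => intro φ; simp [shuf_nil, shuf_nil']
  | cons a u ih =>
    induction v with
    | nil => intro φ; simp [shuf_nil, shuf_nil']
    | cons b v iv =>
      intro φ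
      rw [shuf_cons, shuf_cons, ih, iv, add_comm, smul_add, smul_smul, smul_smul, ← pow_add,
        ← pow_add]
      simp only [List.length_cons]
      rw [show (u.length + 1) * (v.length + 1) + (v.length + 1) =
        u.length * (v.length + 1) + 2 * (v.length + 1) by ring, pow_add _ _ (2 * _), pow_mul _ 2,
        show u.length + 1 + (u.length + 1) * v.length = (u.length + 1) * (v.length + 1) by ring]
      simp

section bd
variable [Union X]

theorem bdr_nil : bdr R (bs R ([] : List X)) = 0 := by simp [bdr_bs, cob_nil]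

theorem jn_nil (a : X) : jn R a (bs R []) = 0 := lc_bs _ _

theorem jn_pre (a b : X) (x : List X →₀ R) : jn R a (pre R b x) = pre R (a ∪ b) x :=
  eq_bs (jn R a ∘ₗ pre R b) _ (fun l => by simp [pre_bs, jn, mrg]) x

theorem bdr_pre (a : X) (x : List X →₀ R) : bdr R (pre R a x) = jn R a x - pre R a (bdr R x) :=
  eq_bs (bdr R ∘ₗ pre R a) (jn R a - pre R a ∘ₗ bdr R) (fun l => by
    simp [pre_bs, bdr_bs, jn, cob_cons, (cob_nat _).lin]) x

theorem sgn_bdr (x : List X →₀ R) : sgn R (bdr R x) = -bdr R (sgn R x) :=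
  eq_bs (sgn R ∘ₗ bdr R) (-bdr R ∘ₗ sgn R) (fun l => by
    simp only [LinearMap.comp_apply, LinearMap.neg_apply, sgn_bs, bdr_bs, map_zsmul,
      (cob_nat _).lin]
    rw [← neg_smul, ← (cob_nat l).smul]
    exact (cob_nat l).congr fun w ⟨s, a, b, t, h1, h2⟩ => by
      simp [h1, h2, ← add_assoc, pow_succ]) x

theorem jn_shp (a b : X) (x y : List X →₀ R) : shp R (jn R a x) (pre R b y) =
    jn R a (shp R x (pre R b y)) - pre R (a ∪ b) (shp R (sgn R x) y) +
      pre R b (shp R (jn R a (sgn R x)) y) := by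
  refine eq_bs ((shp R).flip _ ∘ₗ jn R a) (jn R a ∘ₗ (shp R).flip _ -
    pre R (a ∪ b) ∘ₗ (shp R).flip y ∘ₗ sgn R + pre R b ∘ₗ (shp R).flip y ∘ₗ jn R a ∘ₗ sgn R)
    (fun u => ?_) x
  cases u with
  | nil => simp [jn_nil, nil_shp, sgn_nil, jn_pre]
  | cons c u => simp [← pre_bs, jn_pre, shp_pre, sgn_pre, sub_eq_add_neg]

theorem shp_jn (a b : X) (x y : List X →₀ R) : shp R (pre R a x) (jn R b y) =
    pre R a (shp R x (jn R b y)) + jn R b (shp R (pre R a x) y) - pre R (b ∪ a) (shp R x y) := by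
  refine eq_bs (shp R _ ∘ₗ jn R b) (pre R a ∘ₗ shp R x ∘ₗ jn R b + jn R b ∘ₗ shp R _ -
    pre R (b ∪ a) ∘ₗ shp R x) (fun v => ?_) y
  cases v with
  | nil => simp [jn_nil, shp_nil, jn_pre]
  | cons c v =>
    simp only [← pre_bs, jn_pre, shp_pre, LinearMap.comp_apply, LinearMap.sub_apply,
      LinearMap.add_apply, map_sub]
    abel

theorem bdr_shp [Std.Commutative (α := X) (· ∪ ·)] (x y : List X →₀ R) :
    bdr R (shp R x y) = shp R (bdr R x) y + shp R (sgn R x) (bdr R y) := by
  refine eq_bs (bdr R ∘ₗ shp R x) (shp R (bdr R x) + shp R (sgn R x) ∘ₗ bdr R) (fun v => ?_) y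
  induction v generalizing x with
  | nil => simp [shp_nil, bdr_nil]
  | cons b v iv =>
    refine eq_bs (bdr R ∘ₗ (shp R).flip (bs R (b :: v))) ((shp R).flip (bs R (b :: v)) ∘ₗ bdr R +
      (shp R).flip (bdr R (bs R (b :: v))) ∘ₗ sgn R) (fun u => ?_) x
    induction u with
    | nil => simp [nil_shp, bdr_nil, sgn_nil]
    | cons a u iu =>
      have hc : b ∪ a = a ∪ b := Std.Commutative.comm (op := (· ∪ ·)) b a
      simp only [LinearMap.comp_apply, LinearMap.flip_apply, LinearMap.add_apply, ← pre_bs]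
        at iv iu ⊢
      rw [shp_pre, map_sub, bdr_pre, bdr_pre, iu, iv]
      simp only [bdr_pre, sgn_pre, map_sub, map_add, map_neg, LinearMap.sub_apply,
        LinearMap.neg_apply, jn_shp, shp_jn, shp_pre, sgn_sgn, sgn_bdr, hc]
      abel

theorem cob_cob [Std.Associative (α := X) (· ∪ ·)] (l : List X) : ∀ φ : List X → M,
    (cob l fun w => cob w φ) = 0 := by
  induction l with
  | nil => intro φ; rfl
  | cons a l ih =>
    intro φ
    simp only [cob_cons a, cob_sub, ih, sub_zero]
    match l with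
    | [] => simp [mrg, cob_nil]
    | [b] => simp [mrg, cob]
    | b :: c :: t =>
      simp [mrg, cob, Std.Associative.assoc (op := fun x y : X => x ∪ y) a b c]

theorem shuf_cob [Std.Commutative (α := X) (· ∪ ·)] (u v : List X) (φ : List X → M) :
    (shuf u v fun w => cob w φ) = cob u (fun w => shuf w v φ) +
      (-1 : ℤ) ^ u.length • cob v fun w => shuf u w φ := by
  have h := congrArg (lc ℤ φ) (bdr_shp (bs ℤ u) (bs ℤ v))
  rw [sgn_bs, map_zsmul, LinearMap.smul_apply, bdr_bs, bdr_bs, ← LinearMap.flip_apply (shp ℤ) (cob u _),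
    (cob_nat u).lin, (cob_nat v).lin] at h
  simpa only [shp_bs, (shuf_nat _ _).lin, (cob_nat _).lin, bdr_bs, lc_bs, map_add, map_zsmul,
    LinearMap.flip_apply] using h

end bd

end words

end Pool.Agent.CS.HA
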