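import Pool.Agent.P.MP_d34769_ag.YW2

/-! The idempotent that kills shuffles, and operators on chains of lists of words. -/

noncomputable section
namespace Pool.Agent.CS.HA
open Pool.Agent.P.MP_d34769_ag Module

variable {X : Type}

/-- the span of basis vectors -/
def spn {A : Type} (S : A → Prop) : Submodule ℂ (A →₀ ℂ) := Submodule.span ℂ (bs ℂ '' {a | S a})

theorem bs_spn {A : Type} {S : A → Prop} {a : A} (h : S a) : bs ℂ a ∈ spn S :=
  Submodule.subset_span ⟨a, h, rfl⟩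

theorem spn_ind {A M : Type} [AddCommGroup M] [Module ℂ M] {S : A → Prop} (T : (A →₀ ℂ) →ₗ[ℂ] M)
    (P : Submodule ℂ M) (h : ∀ a, S a → T (bs ℂ a) ∈ P) {x : A →₀ ℂ} (hx : x ∈ spn S) : T x ∈ P :=
  (Submodule.span_le (p := P.comap T)).2 (by rintro _ ⟨a, ha, rfl⟩; exact h a ha) hx

theorem spn_eq {A M : Type} [AddCommGroup M] [Module ℂ M] {S : A → Prop}
    (T T' : (A →₀ ℂ) →ₗ[ℂ] M) (h : ∀ a, S a → T (bs ℂ a) = T' (bs ℂ a)) {x : A →₀ ℂ}
    (hx : x ∈ spn S) : T x = T' x :=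
  sub_eq_zero.1 (spn_ind (T - T') ⊥ (fun a ha => sub_eq_zero.2 (h a ha)) hx)

theorem dc_red {M : Type} [AddCommGroup M] {l : List X} (h : l ≠ []) (F : List X × List X → M) :
    dc l F = F ([], l) + F (l, []) +
      dc l fun p => if p.1 = [] then 0 else if p.2 = [] then 0 else F p := by
  rw [(dc_nat l).congr (ψ := fun p => (if p.1 = [] then F p else 0) + (if p.2 = [] then F p else 0)
    + if p.1 = [] then 0 else if p.2 = [] then 0 else F p) fun p hp => ?_, (dc_nat l).add,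
    (dc_nat l).add, dc_first _ _ fun p hp => if_neg hp, dc_last _ _ fun p hp => if_neg hp]
  · simp
  · by_cases a : p.1 = [] <;> by_cases b : p.2 = []
    · exact absurd (by simp [← hp, a, b]) h
    all_goals simp [a, b]

/-- cut and shuffle -/
def psi : End ℂ (List X →₀ ℂ) := lc ℂ fun l => dc l fun p => shuf p.1 p.2 (bs ℂ)

theorem psi_bs (l : List X) : psi (bs ℂ l) = dc l fun p => shp ℂ (bs ℂ p.1) (bs ℂ p.2) := by
  simp only [psi, lc_bs, shp_bs]

theorem psi_shp (x y : List X →₀ ℂ) : psi (shp ℂ x y) = shp ℂ (psi x) (psi y) :=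
  eq_bs₂ ((shp ℂ).compr₂ psi) ((shp ℂ).compl₁₂ psi psi) (fun u v => by
    simp only [LinearMap.compr₂_apply, LinearMap.compl₁₂_apply]
    rw [shp_bs, (shuf_nat u v).lin]
    simp only [psi_bs]
    rw [shuf_dc, ← LinearMap.flip_apply (shp ℂ) (dc u _), (dc_nat u).lin]
    refine congrArg _ (funext fun p => ?_)
    rw [LinearMap.flip_apply, (dc_nat v).lin]
    refine congrArg _ (funext fun q => ?_)
    have h : shp ℂ (bs ℂ p.2) (bs ℂ q.1) = (-1 : ℤ) ^ (p.2.length * q.1.length) •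
        shp ℂ (bs ℂ q.1) (bs ℂ p.2) := by rw [shp_bs, shp_bs, shuf_comm]
    rw [shp_assoc, ← shp_assoc (bs ℂ p.2), h, map_zsmul, LinearMap.smul_apply, map_zsmul,
      shp_assoc, ← shp_assoc (bs ℂ p.1), shp_bs p.1, shp_bs p.2,
      ← LinearMap.flip_apply (shp ℂ) (shuf p.1 _ _), (shuf_nat _ _).lin]
    refine congrArg _ (congrArg _ (funext fun w => ?_))
    rw [LinearMap.flip_apply, (shuf_nat _ _).lin]) x y

/-- sums of eigenvectors with eigenvalues `2 ^ k`, `a ≤ k ≤ n` -/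
def Eg (a n : ℕ) : Submodule ℂ (List X →₀ ℂ) :=
  Submodule.span ℂ {x | ∃ k, a ≤ k ∧ k ≤ n ∧ psi x = (2 : ℂ) ^ k • x}

theorem shp_Eg {a n b m : ℕ} {x y : List X →₀ ℂ} (hx : x ∈ Eg a n) (hy : y ∈ Eg b m) :
    shp ℂ x y ∈ Eg (a + b) (n + m) := by
  have h := Submodule.apply_mem_map₂ (shp ℂ) hx hy
  rw [Eg, Eg, Submodule.map₂_span_span] at h
  refine Submodule.span_mono ?_ h
  rintro _ ⟨x, ⟨i, h1, h2, h3⟩, y, ⟨j, h4, h5, h6⟩, rfl⟩
  exact ⟨i + j, by omega, by omega, by simp [psi_shp, h3, h6, smul_smul, pow_add, mul_comm]⟩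

theorem two_ne (k : ℕ) : (2 : ℂ) - 2 ^ (k + 2) ≠ 0 := by
  have : (2 : ℕ) ^ 1 < 2 ^ (k + 2) := Nat.pow_lt_pow_right (by omega) (by omega)
  rw [sub_ne_zero]
  exact_mod_cast this.ne

theorem bs_Eg (n : ℕ) : ∀ l : List X, l ≠ [] → l.length = n → bs ℂ l ∈ Eg 1 n := by
  induction n using Nat.strong_induction_on with
  | _ n ih =>
    intro l hl hn
    have h1 : psi (bs ℂ l) - (2 : ℂ) • bs ℂ l ∈ Eg 2 n := by
      rw [psi_bs, dc_red hl, nil_shp, shp_nil, two_smul, add_sub_cancel_left]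
      refine (dc_nat l).memS _ fun p hp => ?_
      have hp' : p.1.length + p.2.length = n := by rw [← hn, ← hp, List.length_append]
      split_ifs with a b
      · exact zero_mem _
      · exact zero_mem _
      · have := shp_Eg (ih _ (by have := List.length_pos_iff.2 b; omega) _ a rfl)
          (ih _ (by have := List.length_pos_iff.2 a; omega) _ b rfl)
        rwa [hp'] at this
    have h2 : (Eg 2 n : Submodule ℂ (List X →₀ ℂ)) ≤ (Eg 1 n).map (psi - (2 : ℂ) • 1) := by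
      refine Submodule.span_le.2 ?_
      rintro x ⟨k, a, b, c⟩
      obtain ⟨k, rfl⟩ := Nat.exists_eq_add_of_le' a
      refine ⟨-(2 - 2 ^ (k + 2) : ℂ)⁻¹ • x, Submodule.smul_mem _ _
        (Submodule.subset_span ⟨k + 2, by omega, b, c⟩), ?_⟩
      have := two_ne k
      simp only [map_smul, LinearMap.sub_apply, c, LinearMap.smul_apply, End.one_apply, ← sub_smul,
        smul_smul]
      rw [show -(2 - 2 ^ (k + 2) : ℂ)⁻¹ * (2 ^ (k + 2) - 2) = 1 by field_simp; ring, one_smul]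
    obtain ⟨z, hz, e⟩ := h2 h1
    rw [← sub_add_cancel (bs ℂ l) z]
    refine add_mem (Submodule.subset_span ⟨1, le_rfl, hn ▸ List.length_pos_iff.2 hl, ?_⟩) hz
    simp only [LinearMap.sub_apply, LinearMap.smul_apply, End.one_apply] at e
    rw [map_sub, pow_one, smul_sub, sub_eq_sub_iff_sub_eq_sub, e]

/-- the polynomial in `T` that is `1` at `2` and `0` at `4, ..., 2 ^ (n + 1)` -/
def pol {V : Type} [AddCommGroup V] [Module ℂ V] (T : End ℂ V) : ℕ → End ℂ V
  | 0 => 1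
  | n + 1 => (1 + (2 - 2 ^ (n + 2) : ℂ)⁻¹ • (T - (2 : ℂ) • 1)) * pol T n

theorem pol_comm {V V' : Type} [AddCommGroup V] [Module ℂ V] [AddCommGroup V'] [Module ℂ V']
    {T : End ℂ V} {T' : End ℂ V'} (f : V →ₗ[ℂ] V') (h : ∀ x, f (T x) = T' (f x)) (n : ℕ) (x : V) :
    f (pol T n x) = pol T' n (f x) := by
  induction n with
  | zero => rfl
  | succ n ih => simp [pol, h, ih]

theorem pol_eig {V : Type} [AddCommGroup V] [Module ℂ V] {T : End ℂ V} {x : V} {k : ℕ}
    (h : T x = (2 : ℂ) ^ (k + 1) • x) (n : ℕ) :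
    ∃ c : ℂ, pol T n x = c • x ∧ (k = 0 → c = 1) ∧ (0 < k → k ≤ n → c = 0) := by
  induction n with
  | zero => exact ⟨1, by simp [pol], fun _ => rfl, fun _ _ => by omega⟩
  | succ n ih =>
    obtain ⟨c, h1, h2, h3⟩ := ih
    refine ⟨(1 + (2 - 2 ^ (n + 2) : ℂ)⁻¹ * (2 ^ (k + 1) - 2)) * c, ?_, fun e => by simp [e, h2 e],
      fun a b => ?_⟩
    · simp only [pol, End.mul_apply, h1, map_smul, LinearMap.add_apply, LinearMap.smul_apply,
        LinearMap.sub_apply, End.one_apply, h]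
      module
    · rcases b.eq_or_lt with rfl | b
      · have := two_ne n
        rw [show 1 + (2 - 2 ^ (n + 2) : ℂ)⁻¹ * (2 ^ (n + 1 + 1) - 2) = 0 by field_simp; ring, zero_mul]
      · rw [h3 a (by omega), mul_zero]

theorem pol_zero {n : ℕ} {x : List X →₀ ℂ} (h : x ∈ Eg 2 n) : pol psi n x = 0 := by
  refine (Submodule.span_le (p := LinearMap.ker (pol psi n))).2 ?_ h
  rintro x ⟨k, a, b, c⟩
  obtain ⟨k, rfl⟩ := Nat.exists_eq_add_of_le' a
  obtain ⟨e, h1, -, h3⟩ := pol_eig (k := k + 1) c n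
  simp [h1, h3 (by omega) (by omega)]

theorem pol_stab {n m : ℕ} (hm : n ≤ m) {x : List X →₀ ℂ} (h : x ∈ Eg 1 n) :
    pol psi n x = pol psi m x := by
  refine (Submodule.span_le (p := LinearMap.eqLocus (pol psi n) (pol psi m))).2 ?_ h
  rintro x ⟨k, a, b, c⟩
  obtain ⟨k, rfl⟩ := Nat.exists_eq_add_of_le' a
  obtain ⟨e, h1, h2, h3⟩ := pol_eig c n
  obtain ⟨e', h4, h5, h6⟩ := pol_eig c m
  rcases k.eq_zero_or_pos with d | d
  · simp [h1, h4, h2 d, h5 d]
  · simp [h1, h4, h3 d (by omega), h6 d (by omega)]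

/-- the idempotent -/
def ee : End ℂ (List X →₀ ℂ) := lc ℂ fun l => pol psi l.length (bs ℂ l)

theorem ee_bs {l : List X} {n : ℕ} (h : l.length ≤ n) (h0 : l = [] → n = 0) :
    ee (bs ℂ l) = pol psi n (bs ℂ l) := by
  rw [ee, lc_bs]
  by_cases c : l = []
  · simp [c, h0 c]
  · exact pol_stab h (bs_Eg _ l c rfl)

theorem ee_shuf {u v : List X} (hu : u ≠ []) (hv : v ≠ []) : ee (shuf u v (bs ℂ)) = 0 := by
  rw [(shuf_nat u v).lin, (shuf_nat u v).congr fun w hw => ee_bs (n := u.length + v.length)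
    (by rw [hw.2.2.length_eq, List.length_append]) fun c => absurd (List.sublist_nil.1 (c ▸ hw.1)) hu,
    ← (shuf_nat u v).lin, ← shp_bs]
  have := shp_Eg (bs_Eg _ u hu rfl) (bs_Eg _ v hv rfl)
  exact pol_zero this

theorem ee_comm (S : End ℂ (List X →₀ ℂ)) (h : ∀ x, S (psi x) = psi (S x))
    (hs : ∀ u, S (bs ℂ u) ∈ spn fun w => w.length ≤ u.length ∧ (w = [] → u.length = 0))
    (x : List X →₀ ℂ) : S (ee x) = ee (S x) :=
  eq_bs (S ∘ₗ ee) (ee ∘ₗ S) (fun u => by
    rw [LinearMap.comp_apply, LinearMap.comp_apply, spn_eq ee (pol psi u.length)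
      (fun w hw => ee_bs hw.1 hw.2) (hs u), ee, lc_bs, pol_comm S h]) x

/-- relabel the letters -/
def mw (f : X → X) : End ℂ (List X →₀ ℂ) := lc ℂ fun l => bs ℂ (l.map f)

/-- operators on words that commute with the structure -/
structure GW [Union X] (T : End ℂ (List X →₀ ℂ)) : Prop where
  chain : ∀ x, bdr ℂ (T x) = T (bdr ℂ x)
  nat : ∀ f x, mw f (T x) = T (mw f x)
  supp : ∀ u, T (bs ℂ u) ∈ spn fun w => w.Perm u

theorem psi_GW [Union X] [Std.Commutative (α := X) (· ∪ ·)] : GW (psi (X := X)) where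
  chain := eq_bs (bdr ℂ ∘ₗ psi) (psi ∘ₗ bdr ℂ) fun l => by
    simp only [LinearMap.comp_apply, bdr_bs, (cob_nat _).lin, psi, lc_bs, cob_dc, (dc_nat _).lin,
      (shuf_nat _ _).lin, shuf_cob]
  nat f := eq_bs (mw f ∘ₗ psi) (psi ∘ₗ mw f) fun l => by
    simp only [LinearMap.comp_apply, mw, psi, lc_bs, (dc_nat _).lin, (shuf_nat _ _).lin, dc_map,
      shuf_map]
  supp u := by
    rw [psi, lc_bs]
    exact (dc_nat u).memS _ fun p hp => (shuf_nat _ _).memS _ fun w hw => bs_spn (hp ▸ hw.2.2)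

theorem ee_GW [Union X] [Std.Commutative (α := X) (· ∪ ·)] : GW (ee (X := X)) where
  chain := ee_comm _ psi_GW.chain fun u => by
    rw [bdr_bs]
    exact (cob_nat u).memS _ fun w hw =>
      bs_spn ⟨by rw [fc_length hw]; omega, fun c => absurd c (fc_ne hw)⟩
  nat f := ee_comm _ (psi_GW.nat f) fun u => by
    rw [mw, lc_bs]
    exact bs_spn ⟨by simp, by simp⟩
  supp u := by
    rw [ee, lc_bs]
    generalize u.length = n
    induction n with
    | zero => exact bs_spn (List.Perm.refl u)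
    | succ n ih =>
      exact add_mem ih (Submodule.smul_mem _ _ (sub_mem (spn_ind psi _ (fun w hw =>
        spn_ind LinearMap.id _ (fun t ht => bs_spn (ht.trans hw)) (psi_GW.supp w)) ih)
        (Submodule.smul_mem _ _ ih)))

end Pool.Agent.CS.HA
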