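import Pool.Agent.P.MP_d34769_ag.YW0

/-! Relations under permutations, finiteness, and the operators `y` and `∂`. -/

open MvPolynomial

noncomputable section
namespace Pool.Agent.CS
open Pool.Agent.P.MP_d34769_ag

section rank
variable {V V' : Type} [AddCommGroup V] [Module ℂ V] [AddCommGroup V'] [Module ℂ V']

theorem sq_surj (A B : Submodule ℂ V) (A' B' : Submodule ℂ V') (f : V →ₗ[ℂ] V')
    (h : ∀ x ∈ A, f x ∈ A') (k : ∀ x ∈ A, f x ∈ B' → x ∈ B) :
    ∃ R : Submodule ℂ (V' ⧸ B'), R ≤ A'.map B'.mkQ ∧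
      ∃ t : R →ₗ[ℂ] A.map B.mkQ, Function.Surjective t := by
  let g : A →ₗ[ℂ] V' ⧸ B' := B'.mkQ ∘ₗ f ∘ₗ A.subtype
  let q : A →ₗ[ℂ] A.map B.mkQ :=
    (B.mkQ ∘ₗ A.subtype).codRestrict _ fun x => ⟨x.1, x.2, rfl⟩
  have hq : Function.Surjective q := by
    rintro ⟨_, x, hx, rfl⟩
    exact ⟨⟨x, hx⟩, rfl⟩
  have hk : LinearMap.ker g ≤ LinearMap.ker q := by
    intro x hx
    have h1 : f x.1 ∈ B' := (Submodule.Quotient.mk_eq_zero B').1 hx
    exact Subtype.ext ((Submodule.Quotient.mk_eq_zero B).2 (k x.1 x.2 h1))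
  refine ⟨LinearMap.range g, ?_,
    (LinearMap.ker g).liftQ q hk ∘ₗ g.quotKerEquivRange.symm.toLinearMap, ?_⟩
  · rintro _ ⟨x, rfl⟩
    exact ⟨f x.1, h x.1 x.2, rfl⟩
  · intro y
    obtain ⟨x, rfl⟩ := hq y
    exact ⟨g.quotKerEquivRange (Submodule.Quotient.mk x), by simp⟩

theorem sq_fin (A B : Submodule ℂ V) (A' B' : Submodule ℂ V') (f : V →ₗ[ℂ] V')
    (h : ∀ x ∈ A, f x ∈ A') (k : ∀ x ∈ A, f x ∈ B' → x ∈ B) [Module.Finite ℂ (A'.map B'.mkQ)] :
    Module.Finite ℂ (A.map B.mkQ) := by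
  obtain ⟨R, hR, t, ht⟩ := sq_surj A B A' B' f h k
  have : Module.Finite ℂ R := Submodule.finiteDimensional_of_le hR
  exact Module.Finite.of_surjective t ht

theorem sq_le (A B : Submodule ℂ V) (A' B' : Submodule ℂ V') (f : V →ₗ[ℂ] V')
    (h : ∀ x ∈ A, f x ∈ A') (k : ∀ x ∈ A, f x ∈ B' → x ∈ B) [Module.Finite ℂ (A'.map B'.mkQ)] :
    Module.finrank ℂ (A.map B.mkQ) ≤ Module.finrank ℂ (A'.map B'.mkQ) := by
  obtain ⟨R, hR, t, ht⟩ := sq_surj A B A' B' f h k
  have : Module.Finite ℂ R := Submodule.finiteDimensional_of_le hR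
  exact (LinearMap.finrank_le_finrank_of_surjective ht).trans (Submodule.finrank_mono hR)

theorem sq_add (P Q B : Submodule ℂ V) (h : P ≤ Q) [Module.Finite ℂ (Q.map B.mkQ)] :
    Module.finrank ℂ (P.map B.mkQ) + Module.finrank ℂ (Q.map (P ⊔ B).mkQ) =
      Module.finrank ℂ (Q.map B.mkQ) := by
  let m : (V ⧸ B) →ₗ[ℂ] V ⧸ (P ⊔ B) := B.mapQ (P ⊔ B) LinearMap.id le_sup_right
  have h1 := LinearMap.finrank_range_add_finrank_ker (m.domRestrict (Q.map B.mkQ))
  have h2 : LinearMap.range (m.domRestrict (Q.map B.mkQ)) = Q.map (P ⊔ B).mkQ := by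
    rw [LinearMap.range_domRestrict, ← Submodule.map_comp]
    rfl
  have h3 : LinearMap.ker (m.domRestrict (Q.map B.mkQ)) =
      (P.map B.mkQ).comap (Q.map B.mkQ).subtype := by
    ext ⟨_, x, hx, rfl⟩
    rw [LinearMap.mem_ker, Submodule.mem_comap]
    change (P ⊔ B).mkQ x = 0 ↔ B.mkQ x ∈ P.map B.mkQ
    rw [Submodule.mkQ_apply, Submodule.Quotient.mk_eq_zero, ← Submodule.mem_comap,
      Submodule.comap_map_mkQ, sup_comm]
  rw [h2, h3, (Submodule.comapSubtypeEquivOfLe (Submodule.map_mono h)).finrank_eq] at h1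
  omega

end rank

variable {I : Type} [Fintype I] [DecidableEq I] {col : I → Fin 3} {θ : (Fin 3 → ℕ) → ℝ} {o : I → ℕ}

theorem rel_perm {l l' : List (Finset I)} (h : l.Perm l') {f : MvPolynomial I ℂ}
    (k : Rel col θ o l f) : Rel col θ o l' f := by
  unfold P.MP_d34769_ag.Rel at k ⊢
  rw [← (h.map _).prod_eq]
  simpa only [h.mem_iff] using k

theorem cmp_perm {l l' : List (Finset I)} (h : l.Perm l') (k : Cmp col θ l) : Cmp col θ l' :=
  ⟨fun b hb => k.1 b (h.mem_iff.2 hb), by rw [← (h.map _).sum_eq]; exact k.2⟩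

theorem cmp_length {l : List (Finset I)} (k : Cmp col θ l) : l.length ≤ Fintype.card I := by
  have h : ∀ l : List (Finset I), (∀ b ∈ l, b.Nonempty) →
      l.length ≤ Multiset.card (l.map Finset.val).sum := by
    intro l
    induction l with
    | nil => intro _; simp
    | cons a l ih =>
      intro h
      have h1 := ih fun b hb => h b (List.mem_cons_of_mem _ hb)
      have h2 : 0 < Multiset.card a.val := Finset.card_pos.2 (h a List.mem_cons_self)
      rw [List.map_cons, List.sum_cons, Multiset.card_add, List.length_cons]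
      omega
  have h1 := h l fun b hb => (k.1 b hb).1
  rw [k.2] at h1
  exact h1

theorem cm_finite (k ℓ : ℕ) : {L | Cm col θ k ℓ L}.Finite := by
  have : Finite {u : List (Finset I) | u.length ≤ ℓ} :=
    (List.finite_length_le (Finset I) ℓ).to_subtype
  refine ((List.finite_length_eq {u : List (Finset I) | u.length ≤ ℓ} k).image
    (List.map Subtype.val)).subset fun L hL => ?_
  have h : ∀ u ∈ L, u ∈ {u : List (Finset I) | u.length ≤ ℓ} := fun u hu =>
    hL.tot ▸ (List.sublist_flatten_of_mem hu).length_le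
  have hl := hL.len
  lift L to List {u : List (Finset I) | u.length ≤ ℓ} using h
  exact ⟨L, (List.length_map _).symm.trans hl, rfl⟩

theorem Cm.sfM {k ℓ : ℕ} {L K : List (List (Finset I))} (h : Cm col θ (k + 1) ℓ L) (e : SfM L K) :
    Cm col θ k ℓ K ∧ K.flatten.Perm L.flatten := by
  obtain ⟨u, v, w, T, rfl, rfl, -, -, hw⟩ := e
  have hp : (w :: T).flatten.Perm (u :: v :: T).flatten := by
    simpa only [List.flatten_cons, List.append_assoc] using hw.append_right T.flatten
  refine ⟨⟨by simpa using h.len, fun x hx => ?_, cmp_perm hp.symm h.cmp,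
    hp.length_eq.trans h.tot⟩, hp⟩
  rcases List.mem_cons.1 hx with rfl | hx
  · rintro rfl
    exact h.ne u (by simp) (List.append_eq_nil_iff.1 hw.symm.eq_nil).1
  · exact h.ne x (by simp [hx])

theorem Cm.sw {i k ℓ : ℕ} {L K : List (List (Finset I))} (h : Cm col θ k ℓ L) (e : Sw i L K) :
    Cm col θ k ℓ K ∧ K.flatten.Perm L.flatten := by
  obtain ⟨A, u, v, B, -, rfl, rfl⟩ := e
  have hq : (A ++ v :: u :: B).Perm (A ++ u :: v :: B) := (List.Perm.swap u v B).append_left A
  have hp := hq.flatten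
  exact ⟨⟨hq.length_eq.trans h.len, fun x hx => h.ne x (hq.mem_iff.1 hx), cmp_perm hp.symm h.cmp,
    hp.length_eq.trans h.tot⟩, hp⟩

omit [Fintype I] in
theorem dvec_union {a b : Finset I} (h : Disjoint a b) :
    dvec col (a ∪ b) = dvec col a + dvec col b := by
  funext v
  simp only [dvec, Pi.add_apply, Finset.filter_union]
  exact Finset.card_union_of_disjoint (Finset.disjoint_filter_filter h)

theorem cmp_merge (hθ : ∀ a b, θ (a + b) = θ a + θ b) {s t : List (Finset I)} {a b : Finset I}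
    (h : Cmp col θ (s ++ a :: b :: t)) : Cmp col θ (s ++ (a ∪ b) :: t) := by
  have h1 : Cmp col θ (a :: b :: (s ++ t)) :=
    cmp_perm (List.perm_middle.trans (List.perm_middle.cons a)) h
  refine cmp_perm List.perm_middle.symm ?_
  have h2 := h1.2
  simp only [List.map_cons, List.sum_cons] at h2
  have h3 : (a.val + b.val).Nodup := by
    have : (a.val + b.val + ((s ++ t).map Finset.val).sum).Nodup := by
      rw [add_assoc, h2]
      exact Finset.univ.nodup
    exact (Multiset.nodup_add.1 this).1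
  have h4 : Disjoint a.val b.val := (Multiset.nodup_add.1 h3).2.2
  refine ⟨fun c hc => ?_, ?_⟩
  · rcases List.mem_cons.1 hc with rfl | hc
    · refine ⟨(h1.1 a (by simp)).1.mono Finset.subset_union_left, ?_⟩
      rw [dvec_union (Finset.disjoint_val.1 h4), hθ, (h1.1 a (by simp)).2, (h1.1 b (by simp)).2,
        add_zero]
    · exact h1.1 c (List.mem_cons_of_mem _ (List.mem_cons_of_mem _ hc))
  · rw [List.map_cons, List.sum_cons, Finset.union_val, ← Multiset.add_eq_union_iff_disjoint.2 h4,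
      add_assoc, h2]

theorem Cm.fcM (hθ : ∀ a b, θ (a + b) = θ a + θ b) {k ℓ : ℕ} {L K : List (List (Finset I))}
    (h : Cm col θ k (ℓ + 1) L) (e : FcM L K) : Cm col θ k ℓ K := by
  obtain ⟨A, _, _, B, rfl, rfl, s, a, b, t, rfl, rfl⟩ := e
  have e1 : (A ++ (s ++ a :: b :: t) :: B).flatten = (A.flatten ++ s) ++ a :: b :: (t ++ B.flatten) := by
    simp
  have e2 : (A ++ (s ++ (a ∪ b) :: t) :: B).flatten =
      (A.flatten ++ s) ++ (a ∪ b) :: (t ++ B.flatten) := by simp
  refine ⟨by simpa using h.len, fun x hx => ?_, ?_, ?_⟩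
  · rcases List.mem_append.1 hx with hx | hx
    · exact h.ne x (by simp [hx])
    · rcases List.mem_cons.1 hx with rfl | hx
      · simp
      · exact h.ne x (by simp [hx])
  · rw [e2]
    exact cmp_merge hθ (e1 ▸ h.cmp)
  · have := h.tot
    rw [e1] at this
    rw [e2]
    simp only [List.length_append, List.length_cons] at this ⊢
    omega

omit [Fintype I] in
theorem dvec_image (w : Equiv.Perm I) (hw : ∀ i, col (w i) = col i) (b : Finset I) :
    dvec col (b.image w) = dvec col b := by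
  funext v
  simp only [dvec, Finset.filter_image, hw]
  exact Finset.card_image_of_injective _ w.injective

theorem cmp_map {l : List (Finset I)} (h : Cmp col θ l) (w : Equiv.Perm I)
    (hw : ∀ i, col (w i) = col i) : Cmp col θ (l.map fun b => b.image w) := by
  refine ⟨fun c hc => ?_, ?_⟩
  · obtain ⟨b, hb, rfl⟩ := List.mem_map.1 hc
    exact ⟨(h.1 b hb).1.image w, by rw [dvec_image w hw]; exact (h.1 b hb).2⟩
  · have h1 : ∀ l : List (Finset I), ((l.map fun b => b.image w).map Finset.val).sum =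
        Multiset.map w (l.map Finset.val).sum := by
      intro l
      induction l with
      | nil => rfl
      | cons a l ih =>
        simp only [List.map_cons, List.sum_cons, Multiset.map_add, ih,
          Finset.image_val_of_injOn w.injective.injOn]
    rw [h1, h.2]
    exact Multiset.map_univ_val_equiv w

theorem Cm.map {k ℓ : ℕ} {L : List (List (Finset I))} (h : Cm col θ k ℓ L) (w : Equiv.Perm I)
    (hw : ∀ i, col (w i) = col i) : Cm col θ k ℓ (L.map (List.map fun b => b.image w)) := by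
  refine ⟨by simpa using h.len, fun x hx => ?_, ?_, ?_⟩
  · obtain ⟨u, hu, rfl⟩ := List.mem_map.1 hx
    simpa using h.ne u hu
  · rw [← List.map_flatten]
    exact cmp_map h.cmp w hw
  · rw [← List.map_flatten, List.length_map]
    exact h.tot

theorem cc_fin (k ℓ p : ℕ) (U : Submodule ℂ (MC I)) (h : U ≤ Cc col p) :
    Module.Finite ℂ (U.map (Bk col θ o k ℓ p).mkQ) := by
  have : Finite {L | Cm col θ k ℓ L} := (cm_finite k ℓ).to_subtype
  let A' : Submodule ℂ ({L | Cm col θ k ℓ L} → MvPolynomial I ℂ) :=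
    Submodule.pi Set.univ fun _ => restrictTotalDegree I ℂ p
  have : Module.Finite ℂ A' := Module.Finite.iff_fg.2
    (Submodule.fg_pi fun _ => Module.Finite.iff_fg.1 inferInstance)
  refine sq_fin U _ A' ⊥ (LinearMap.funLeft ℂ _ Subtype.val) (fun x hx L _ => ?_) fun x _ hx => ?_
  · exact (mem_restrictTotalDegree _ _ _).2 ((h hx).1 L.1).totalDegree_le
  · refine Submodule.mem_sup_right (S := (Cc col p).map dL) fun L hL => ?_
    have h1 : x L = 0 := congrFun ((Submodule.mem_bot ℂ).1 hx) ⟨L, hL⟩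
    rw [h1]
    exact (RelI col θ o _).zero_mem

theorem dL_Cc {p : ℕ} {φ : MC I} (h : φ ∈ Cc col p) : dL φ ∈ Cc col p := by
  refine ⟨fun L => (cobM_nat L).memS (homogeneousSubmodule I ℂ p) fun K _ => h.1 K,
    fun w hw L => ?_⟩
  rw [dL_apply, dL_apply, cobM_map _ fun a b => Finset.image_union a b]
  simp only [h.2 w hw]
  exact ((cobM_nat L).nat (rename w : MvPolynomial I ℂ →ₐ[ℂ] _).toAddMonoidHom φ).symm

omit [DecidableEq I] in
theorem yS_hom : (yS I).IsHomogeneous 1 :=
  IsHomogeneous.sum _ _ _ fun i _ => isHomogeneous_X ℂ i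

omit [DecidableEq I] in
theorem rename_yS (w : Equiv.Perm I) : rename w (yS I) = yS I := by
  simp only [yS, map_sum, rename_X]
  exact Equiv.sum_comp w fun i => (X i : MvPolynomial I ℂ)

theorem y_Cc {p : ℕ} {φ : MC I} (h : φ ∈ Cc col p) : yS I • φ ∈ Cc col (p + 1) := by
  refine ⟨fun L => ?_, fun w hw L => ?_⟩
  · rw [add_comm]
    exact yS_hom.mul (h.1 L)
  · simp only [Pi.smul_apply, smul_eq_mul, map_mul, rename_yS, h.2 w hw]

theorem cobM_y (L : List (List (Finset I))) (φ : MC I) :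
    cobM L (yS I • φ) = yS I * cobM L φ := (cobM_nat L).smul (yS I) φ

theorem y_Zk {k ℓ p : ℕ} {φ : MC I} (h : φ ∈ Zk col θ o k ℓ p) :
    yS I • φ ∈ Zk col θ o k ℓ (p + 1) := by
  rw [mem_Zk] at h ⊢
  refine ⟨y_Cc h.1, fun L hL => ?_⟩
  rw [cobM_y]
  exact (RelI col θ o _).mul_mem_left _ (h.2 L hL)

theorem y_Bk {k ℓ p : ℕ} {φ : MC I} (h : φ ∈ Bk col θ o k ℓ p) :
    yS I • φ ∈ Bk col θ o k ℓ (p + 1) := by
  rw [mem_Bk] at h ⊢
  obtain ⟨ψ, h1, h2⟩ := h
  refine ⟨yS I • ψ, y_Cc h1, fun L hL => ?_⟩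
  rw [cobM_y, Pi.smul_apply, smul_eq_mul, ← mul_sub]
  exact (RelI col θ o _).mul_mem_left _ (h2 L hL)

theorem ypow_Bk {k ℓ p : ℕ} {φ : MC I} (h : φ ∈ Bk col θ o k ℓ p) (b : ℕ) :
    yS I ^ b • φ ∈ Bk col θ o k ℓ (p + b) := by
  induction b with
  | zero => simpa using h
  | succ b ih =>
    rw [pow_succ', mul_smul]
    exact y_Bk ih

omit [DecidableEq I] in
theorem dS_apply (f : MvPolynomial I ℂ) : dS I f = ∑ i, pderiv i f := by
  have := congrFun (map_sum (Derivation.coeFnAddMonoidHom (R := ℂ) (A := MvPolynomial I ℂ)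
    (M := MvPolynomial I ℂ)) (fun i => pderiv i) Finset.univ) f
  rw [Finset.sum_apply] at this
  exact this

theorem dS_X (j : I) : dS I (X j) = 1 := by
  simp [dS_apply, pderiv_X, Pi.single_apply]

omit [DecidableEq I] in
theorem dS_mul {f g : MvPolynomial I ℂ} (hf : dS I f = 0) : dS I (f * g) = f * dS I g := by
  rw [Derivation.leibniz, hf, smul_zero, add_zero, smul_eq_mul]

omit [DecidableEq I] in
theorem dS_prod {ι : Type} (s : Finset ι) (f : ι → MvPolynomial I ℂ) (h : ∀ i ∈ s, dS I (f i) = 0) :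
    dS I (∏ i ∈ s, f i) = 0 :=
  Finset.prod_induction f (fun x => dS I x = 0)
    (fun a b ha hb => by rw [dS_mul ha, hb, mul_zero]) (Derivation.map_one_eq_zero _) h

theorem dS_sub (a b : I) : dS I (X a - X b) = 0 := by rw [map_sub, dS_X, dS_X, sub_self]

theorem dS_eul (b F : Finset I) : dS I (eul col b F) = 0 :=
  dS_prod _ _ fun _ _ => dS_prod _ _ fun _ _ => by
    rw [Derivation.leibniz_pow, dS_sub, smul_zero, smul_zero]

theorem dS_dis (b : Finset I) : dS I (dis col o b) = 0 :=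
  dS_prod _ _ fun _ _ => dS_prod _ _ fun _ _ => dS_sub _ _

theorem dS_y : dS I (yS I) = (Fintype.card I : MvPolynomial I ℂ) := by
  simp [yS, map_sum, dS_X]

theorem rel_dS {l : List (Finset I)} {f : MvPolynomial I ℂ} (k : Rel col θ o l f) :
    Rel col θ o l (dS I f) := by
  have h1 : dS I (l.map (dis col o)).prod = 0 :=
    List.prod_induction (fun x => dS I x = 0) (fun a b ha hb => by rw [dS_mul ha, hb, mul_zero])
      (Derivation.map_one_eq_zero _) fun x hx => by
        obtain ⟨b, -, rfl⟩ := List.mem_map.1 hx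
        exact dS_dis b
  unfold P.MP_d34769_ag.Rel at k ⊢
  rw [← dS_mul h1]
  generalize (l.map (dis col o)).prod * f = g at k
  induction k using Submodule.span_induction with
  | mem x hx =>
    obtain ⟨b, -, F, -, -, rfl⟩ := hx
    rw [dS_eul]
    exact zero_mem _
  | zero => rw [map_zero]; exact zero_mem _
  | add x y _ _ hx hy => rw [map_add]; exact add_mem hx hy
  | smul a x hx ih =>
    rw [smul_eq_mul, Derivation.leibniz, smul_eq_mul, smul_eq_mul]
    exact add_mem (Ideal.mul_mem_left _ _ ih) (Ideal.mul_mem_right _ _ hx)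

theorem dS_Cc {p : ℕ} {φ : MC I} (h : φ ∈ Cc col p) : (fun L => dS I (φ L)) ∈ Cc col (p - 1) := by
  refine ⟨fun L => ?_, fun w hw L => ?_⟩
  · simp only [dS_apply]
    exact IsHomogeneous.sum _ _ _ fun i _ => (h.1 L).pderiv
  · simp only [h.2 w hw, dS_apply, map_sum]
    rw [← Equiv.sum_comp w]
    exact Finset.sum_congr rfl fun i _ => pderiv_rename w.injective i _

theorem dS_Bk {k ℓ p : ℕ} {φ : MC I} (h : φ ∈ Bk col θ o k ℓ p) :
    (fun L => dS I (φ L)) ∈ Bk col θ o k ℓ (p - 1) := by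
  rw [mem_Bk] at h ⊢
  obtain ⟨ψ, h1, h2⟩ := h
  refine ⟨_, dS_Cc h1, fun L hL => ?_⟩
  have h3 : dS I (cobM L ψ) = cobM L fun K => dS I (ψ K) :=
    (cobM_nat L).nat (dS I).toLinearMap.toAddMonoidHom ψ
  rw [← h3, ← map_sub]
  exact rel_dS (h2 L hL)

/-- HA6 -/
theorem y_indep [Nonempty I] {k ℓ : ℕ} (a : ℕ) (h : ℕ → MC I) (hc : ∀ b ≤ a, h b ∈ Cc col (a - b))
    (hd : ∀ b < a, (fun L => dS I (h b L)) ∈ Bk col θ o k ℓ (a - b - 1))
    (hs : ∑ b ∈ Finset.range (a + 1), yS I ^ b • h b ∈ Bk col θ o k ℓ a) :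
    ∀ b ≤ a, h b ∈ Bk col θ o k ℓ (a - b) := by
  induction a generalizing h with
  | zero =>
    intro b hb
    obtain rfl := Nat.le_zero.1 hb
    simpa using hs
  | succ a ih =>
    have hn : ∀ b : ℕ, (((b + 1) * Fintype.card I : ℕ) : ℂ) ≠ 0 := fun b =>
      Nat.cast_ne_zero.2 (Nat.mul_ne_zero (Nat.succ_ne_zero b) Fintype.card_ne_zero)
    have h0 : ∀ L, dS I (h (a + 1) L) = 0 := by
      intro L
      have h1 := (hc (a + 1) le_rfl).1 L
      rw [Nat.sub_self, ← totalDegree_zero_iff_isHomogeneous, totalDegree_eq_zero_iff_eq_C] at h1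
      rw [h1]
      exact Derivation.map_algebraMap _ _
    have h1 := dS_Bk hs
    have h2 : (fun L => dS I ((∑ b ∈ Finset.range (a + 1 + 1), yS I ^ b • h b) L)) =
        ∑ b ∈ Finset.range (a + 1), yS I ^ b • ((((b + 1) * Fintype.card I : ℕ) : ℂ) • h (b + 1)) +
          ∑ b ∈ Finset.range (a + 1), yS I ^ b • fun L => dS I (h b L) := by
      funext L
      simp only [Finset.sum_apply, Pi.add_apply, Pi.smul_apply, map_sum, smul_eq_mul,
        Derivation.leibniz, Finset.sum_add_distrib]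
      rw [add_comm, Finset.sum_range_succ' fun b => h b L * dS I (yS I ^ b),
        Finset.sum_range_succ fun b => yS I ^ b * dS I (h b L), h0, pow_zero,
        Derivation.map_one_eq_zero, mul_zero, mul_zero, add_zero, add_zero]
      congr 1
      refine Finset.sum_congr rfl fun b _ => ?_
      rw [Derivation.leibniz_pow, dS_y, Nat.cast_smul_eq_nsmul]
      simp only [nsmul_eq_mul, smul_eq_mul, Nat.add_sub_cancel]
      push_cast
      ring
    rw [h2, Nat.add_sub_cancel] at h1
    have h3 : (∑ b ∈ Finset.range (a + 1), yS I ^ b • fun L => dS I (h b L)) ∈ Bk col θ o k ℓ a :=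
      Submodule.sum_mem _ fun b hb => by
        have hb' := Finset.mem_range.1 hb
        have := ypow_Bk (hd b hb') b
        rwa [show a + 1 - b - 1 + b = a by omega] at this
    have h4 := ih (fun b => (((b + 1) * Fintype.card I : ℕ) : ℂ) • h (b + 1))
      (fun b hb => Submodule.smul_mem _ _ (by
        have := hc (b + 1) (by omega)
        rwa [Nat.add_sub_add_right] at this))
      (fun b hb => by
        have := (Bk col θ o k ℓ _).smul_mem (((b + 1) * Fintype.card I : ℕ) : ℂ)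
          (hd (b + 1) (by omega))
        rw [Nat.add_sub_add_right] at this
        simp only [Pi.smul_apply, Derivation.map_smul]
        exact this)
      ((Submodule.add_mem_iff_left _ h3).1 h1)
    have h5 : ∀ b ≤ a, h (b + 1) ∈ Bk col θ o k ℓ (a - b) := fun b hb =>
      (Submodule.smul_mem_iff _ (hn b)).1 (h4 b hb)
    intro b hb
    cases b with
    | succ b =>
      rw [Nat.add_sub_add_right]
      exact h5 b (by omega)
    | zero =>
      rw [Finset.sum_range_succ', pow_zero, one_smul] at hs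
      refine (Submodule.add_mem_iff_right _ (Submodule.sum_mem _ fun b hb => ?_)).1 hs
      have hb' := Finset.mem_range.1 hb
      have := ypow_Bk (h5 b (by omega)) (b + 1)
      rwa [show a - b + (b + 1) = a + 1 by omega] at this

end Pool.Agent.CS
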