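import Pool.Agent.P.MP_d34769_ag.YW4
import Pool.Agent.P.MP_d34769_ag.YW5

/-! The action of chain operators on cochains, and the two counts. -/

open MvPolynomial

noncomputable section
namespace Pool.Agent.CS.HA
open Pool.Agent.P.MP_d34769_ag Module

/-- the transposed operator on cochains -/
def tr {A M : Type} [AddCommGroup M] [Module ℂ M] (O : End ℂ (A →₀ ℂ)) : (A → M) →ₗ[ℂ] (A → M) where
  toFun φ a := lc ℂ φ (O (bs ℂ a))
  map_add' φ ψ := funext fun a => eq_bs _ (lc ℂ φ + lc ℂ ψ) (by simp) _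
  map_smul' c φ := funext fun a => eq_bs _ (c • lc ℂ φ) (by simp) _

section tr
variable {A M : Type} [AddCommGroup M] [Module ℂ M] (O O' : End ℂ (A →₀ ℂ)) (φ : A → M)

theorem tr_apply (a : A) : tr O φ a = lc ℂ φ (O (bs ℂ a)) := rfl

theorem lc_tr (x : A →₀ ℂ) : lc ℂ (tr O φ) x = lc ℂ φ (O x) :=
  eq_bs _ (lc ℂ φ ∘ₗ O) (fun _ => lc_bs _ _) x

theorem tr_mul : tr (O * O') φ = tr O' (tr O φ) := funext fun a => (lc_tr O φ (O' (bs ℂ a))).symm
theorem tr_one : tr 1 φ = φ := funext fun _ => lc_bs _ _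
theorem tr_add : tr (O + O') φ = tr O φ + tr O' φ := funext fun _ => map_add (lc ℂ φ) _ _
theorem tr_smul (c : ℂ) : tr (c • O) φ = c • tr O φ := funext fun _ => map_smul (lc ℂ φ) _ _

end tr

variable {I : Type} [Fintype I] [DecidableEq I] {col : I → Fin 3} {θ : (Fin 3 → ℕ) → ℝ} {o : I → ℕ}

omit [Fintype I] in
theorem tr_dC (φ : MC I) : tr dC φ = dL φ := funext fun L => by
  simp [tr_apply, dC, (cobM_nat _).lin]

omit [Fintype I] [DecidableEq I] in
theorem tr_sC (φ : MC I) : tr sC φ = sL φ := funext fun L => by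
  simp [tr_apply, sC, (sM_nat _).lin]

omit [Fintype I] [DecidableEq I] in
theorem tr_tC (i : ℕ) (φ : MC I) : tr (tC i) φ = tL i φ := funext fun L => by
  simp [tr_apply, tC, (tau_nat _ _).lin]

namespace Good
variable {k k' ℓ p : ℕ} {O : Op (Finset I)} (h : Good k k' O) {φ : MC I}
include h

omit [Fintype I] in
theorem dL (φ : MC I) : dL (tr O φ) = tr O (dL φ) := by
  rw [← tr_dC, ← tr_dC, ← tr_mul, ← tr_mul, h.chain]

omit [Fintype I] in
theorem cc (e : φ ∈ Cc col p) : tr O φ ∈ Cc col p := by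
  refine ⟨fun L => ?_, fun w hw L => ?_⟩
  · rw [tr_apply, lc, Finsupp.linearCombination_apply]
    exact (homogeneousSubmodule I ℂ p).sum_mem fun K _ => Submodule.smul_mem _ _ (e.1 K)
  · have h1 := LinearMap.congr_fun (h.nat (fun b => b.image w) fun a b => Finset.image_union a b)
      (bs ℂ L)
    rw [End.mul_apply, End.mul_apply, mC, lc_bs] at h1
    rw [tr_apply, ← h1]
    exact eq_bs (lc ℂ φ ∘ₗ lc ℂ _) ((rename w).toLinearMap ∘ₗ lc ℂ φ)
      (fun K => by simp [e.2 w hw]) _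

theorem nl (e : φ ∈ NlW col θ o k ℓ) : tr O φ ∈ NlW col θ o k' ℓ := fun L hL =>
  spn_ind (lc ℂ φ) ((RelI col θ o L.flatten).restrictScalars ℂ) (fun K hK => by
    rw [lc_bs]
    exact rel_perm hK.2.2 (e K ⟨hK.1, hK.2.1, cmp_perm hK.2.2.symm hL.cmp,
      hK.2.2.length_eq.trans hL.tot⟩)) (h.supp _ L ⟨hL.len, hL.ne, .refl _⟩)

theorem zk (e : φ ∈ Zk col θ o k ℓ p) : tr O φ ∈ Zk col θ o k' ℓ p :=
  ⟨h.cc e.1, by rw [SetLike.mem_coe, Submodule.mem_comap, h.dL]; exact h.nl e.2⟩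

theorem bk (e : φ ∈ Bk col θ o k ℓ p) : tr O φ ∈ Bk col θ o k' ℓ p := by
  obtain ⟨_, ⟨ψ, a, rfl⟩, z, b, rfl⟩ := Submodule.mem_sup.1 e
  rw [map_add, ← h.dL]
  exact Submodule.add_mem_sup ⟨_, h.cc a, rfl⟩ (h.nl b)

end Good

theorem nl_of {k ℓ : ℕ} {φ : MC I} (h : ∀ L, Cm col θ k ℓ L → φ L = 0) : φ ∈ NlW col θ o k ℓ :=
  fun L e => by rw [h L e]; exact (RelI col θ o _).zero_mem

theorem nl_bk {k ℓ p : ℕ} : NlW col θ o k ℓ ≤ Bk col θ o k ℓ p := le_sup_right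

theorem ee_fix {k ℓ : ℕ} (B : ℕ → Submodule ℂ (MC I)) (hN : NlW col θ o (k + 1) ℓ ≤ B (k + 1))
    (hG : ∀ a b O, Good a b O → ∀ φ ∈ B a, tr O φ ∈ B b) {φ : MC I} (hs : sL φ ∈ B (k + 2)) :
    tr (hd ee) φ - φ ∈ B (k + 1) := by
  have h1 : tr (hd psi - (2 : ℂ) • 1) φ ∈ B (k + 1) := by
    have := hG _ _ _ (add_comm 2 k ▸ cC_good 2 k) _ hs
    rw [← tr_sC, ← tr_mul] at this
    rw [← sub_add_cancel (tr _ φ) (tr (sC * cC 2) φ)]
    refine add_mem (hN (nl_of fun L e => ?_)) this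
    obtain _ | ⟨u, L⟩ := L
    · exact absurd e.len (by simp)
    · rw [Pi.sub_apply, tr_apply, hd_psi (e.ne u (by simp)), tr_apply, sub_self]
  have h2 : ∀ n, tr (pol (hd psi) n) φ - φ ∈ B (k + 1) := fun n => by
    induction n with
    | zero => simp [pol, tr_one]
    | succ n ih =>
      rw [pol, tr_mul, tr_add, tr_one, tr_smul, map_add, add_sub_right_comm]
      exact add_mem ih (hG _ _ _ ((psi_GW.hd _).pol n) _ (Submodule.smul_mem _ _ h1))
  rw [← sub_add_sub_cancel _ (tr (pol (hd psi) ℓ) φ)]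
  refine add_mem (hN (nl_of fun L e => ?_)) (h2 ℓ)
  obtain _ | ⟨u, L⟩ := L
  · exact absurd e.len (by simp)
  · rw [Pi.sub_apply, tr_apply, tr_apply, hd_bs, ee_bs (n := ℓ) (by rw [← e.tot]; simp)
      fun c => absurd c (e.ne u (by simp)), pol_comm (tl L) (fun x => (hd_tl psi L x).symm), tl_bs,
      sub_self]

variable (col θ o) in
/-- `O` multiplies the class of `φ` by `n` -/
def Sc (k ℓ p : ℕ) (φ : MC I) (O : Op (Finset I)) (n : ℂ) : Prop :=
  Good k k O ∧ tr O φ - n • φ ∈ Bk col θ o k ℓ p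

section sc
variable {k ℓ p : ℕ} {φ : MC I} {O O' : Op (Finset I)} {n n' : ℂ}

theorem Sc.mul (h : Sc col θ o k ℓ p φ O n) (h' : Sc col θ o k ℓ p φ O' n') :
    Sc col θ o k ℓ p φ (O * O') (n * n') := by
  refine ⟨h.1.mul h'.1, ?_⟩
  rw [show tr (O * O') φ - (n * n') • φ = tr O' (tr O φ - n • φ) + n • (tr O' φ - n' • φ) by
    rw [tr_mul, map_sub, map_smul]; module]
  exact add_mem (h'.1.bk h.2) (Submodule.smul_mem _ _ h'.2)

theorem Sc.add (h : Sc col θ o k ℓ p φ O n) (h' : Sc col θ o k ℓ p φ O' n') :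
    Sc col θ o k ℓ p φ (O + O') (n + n') := by
  refine ⟨h.1.add h'.1, ?_⟩
  rw [tr_add, add_smul, add_sub_add_comm]
  exact add_mem h.2 h'.2

theorem sc_one {i : ℕ} (h : i ≤ k) : Sc col θ o k ℓ p φ (lf^[i] 1) 1 := by
  obtain ⟨j, rfl⟩ := Nat.exists_eq_add_of_le' h
  exact ⟨Good.one.iter i, nl_bk (nl_of fun L e => by
    rw [Pi.sub_apply, tr_apply, lf_iter i L (by rw [e.len]; omega), lc_bs, one_smul, sub_self])⟩

variable (hφ : φ ∈ Kk col θ o k ℓ p)
include hφ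

theorem sc_t {i : ℕ} (h : i + 1 < k) : Sc col θ o k ℓ p φ (tC i) 1 :=
  ⟨tC_good i k, by rw [tr_tC, one_smul]; exact ((mem_Kk col θ o).1 hφ).2.2 i h⟩

theorem sc_hd (i : ℕ) (h : i < k) : Sc col θ o k ℓ p φ (lf^[i] (hd ee)) 1 := by
  induction i with
  | zero =>
    obtain ⟨k, rfl⟩ := Nat.exists_eq_add_of_le' h
    exact ⟨ee_GW.hd _, by
      rw [one_smul]
      exact ee_fix (fun a => Bk col θ o a ℓ p) nl_bk (fun _ _ _ g _ e => g.bk e)
        ((mem_Kk col θ o).1 hφ).2.1⟩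
  | succ i ih =>
    rw [Function.iterate_succ_apply, lf_hd _ ee_GW.supp, iterate_map_mul, iterate_map_mul, tC_iter]
    simpa using ((sc_t hφ h).mul (ih (by omega))).mul (sc_t hφ h)

theorem sc_e (j : ℕ) : ∀ i, i + j ≤ k → Sc col θ o k ℓ p φ (lf^[i] (eC j)) 1 := by
  induction j with
  | zero => exact fun i h => sc_one h
  | succ j ih =>
    intro i h
    rw [eC, iterate_map_mul, ← Function.iterate_succ_apply]
    simpa using (sc_hd hφ i (by omega)).mul (ih (i + 1) (by omega))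

theorem sc_r (j : ℕ) : ∀ i, i + j + 1 ≤ k → Sc col θ o k ℓ p φ (lf^[i] (rC (j + 1))) (j + 1) := by
  induction j with
  | zero => intro i h; simpa [rC] using sc_one (by omega)
  | succ j ih =>
    intro i h
    rw [rC, iterate_map_add, iterate_map_mul, ← Function.iterate_succ_apply, tC_iter]
    simpa [add_comm (1 : ℂ)] using (sc_one (i := i) (by omega)).add
      ((sc_t hφ (i := i) (by omega)).mul (ih (i + 1) (by omega)))

theorem sc_y (j : ℕ) : ∀ i, i + j ≤ k → Sc col θ o k ℓ p φ (lf^[i] (yC j)) j.factorial := by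
  induction j with
  | zero => intro i h; simpa [yC] using sc_one h
  | succ j ih =>
    intro i h
    rw [yC, iterate_map_mul, ← Function.iterate_succ_apply, Nat.factorial_succ, mul_comm]
    simpa using (ih (i + 1) (by omega)).mul (sc_r hφ j i h)

theorem key (K : ℕ) (hK : k ≤ K + 1) : tr aC (tr (cC k) φ) -
    (if k = K + 1 then (k.factorial : ℂ) • φ else 0) ∈ Bk col θ o (K + 1) ℓ p := by
  have he := sc_e hφ k 0 (by omega)
  have h1 := (aC_good K).bk ((cC_good k 0).bk he.2)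
  have h2 : ∀ L, tr aC (tr (cC k) (tr (eC k) φ)) L =
      shufs L fun l => decs k l (tr (eC k) φ) := fun L => by
    generalize tr (eC k) φ = ψ
    simp [tr_apply, aC, (shufs_nat _).lin, cC, ne0, (decs_nat _ _).lin]
  have h3 : Prim k (tr (eC k) φ) := eC_prim k (lc ℂ φ)
  rw [one_smul, map_sub, map_sub] at h1
  rw [← sub_sub_sub_cancel_left _ _ (tr aC (tr (cC k) (tr (eC k) φ)))]
  refine sub_mem ?_ h1
  split_ifs with c
  · subst c
    have h4 := (he.mul (sc_y hφ (K + 1) 0 (by omega))).2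
    rw [one_mul, tr_mul] at h4
    rw [← sub_add_sub_cancel _ (tr (yC (K + 1)) (tr (eC (K + 1)) φ))]
    refine add_mem (nl_bk (nl_of fun L e => ?_)) h4
    rw [Pi.sub_apply, h2, shufs_decs_sym _ L _ h3 e.len e.ne, tr_apply, yC_bs _ L e.len, sub_self]
  · refine nl_bk (nl_of fun L e => ?_)
    rw [sub_zero, h2, shufs_decs_zero _ L _ h3]
    rw [List.countP_eq_length.2 fun u hu => by simpa using e.ne u hu, e.len]
    omega

end sc

variable (col θ o)

theorem sum_ak_le (K ℓ p : ℕ) : ∑ k ∈ Finset.Icc 1 K, ak col θ o k ℓ p ≤ xt col θ o ℓ p := by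
  let P : ℕ → Submodule ℂ (MC I) := fun K => Zk col θ o 1 ℓ p ⊓
    ⨅ J, ⨅ _ : K ≤ J, (Bk col θ o (J + 1) ℓ p).comap (tr aC)
  have hP : ∀ K φ, φ ∈ P K ↔ φ ∈ Zk col θ o 1 ℓ p ∧
      ∀ J, K ≤ J → tr aC φ ∈ Bk col θ o (J + 1) ℓ p := fun K φ => by simp [P]
  have fin : ∀ K (B : Submodule ℂ (MC I)), Bk col θ o 1 ℓ p ≤ B →
      Module.Finite ℂ ((P K).map B.mkQ) := fun K B hB =>
    have := cc_fin (θ := θ) (o := o) 1 ℓ p (P K) fun _ h => h.1.1
    Module.Finite.of_surjective ((B.mapQ _ LinearMap.id le_rfl ∘ₗ Submodule.factor hB).restrict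
      (p := (P K).map (Bk col θ o 1 ℓ p).mkQ) (q := (P K).map B.mkQ)
      (by rintro _ ⟨x, hx, rfl⟩; exact ⟨x, hx, rfl⟩))
      (by rintro ⟨_, x, hx, rfl⟩; exact ⟨⟨_, x, hx, rfl⟩, rfl⟩)
  have h : ∑ k ∈ Finset.Icc 1 K, ak col θ o k ℓ p ≤
      finrank ℂ ((P K).map (Bk col θ o 1 ℓ p).mkQ) := by
    induction K with
    | zero => simp
    | succ K ih =>
      have := fin (K + 1) _ le_rfl
      have := fin (K + 1) _ (le_sup_right : _ ≤ P K ⊔ _)
      rw [Finset.sum_Icc_succ_top (by omega), ← sq_add (P K) (P (K + 1)) _ fun φ h =>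
        (hP _ _).2 ⟨h.1, fun J e => ((hP _ _).1 h).2 J (by omega)⟩]
      refine add_le_add ih (sq_le _ _ _ _ (tr (cC (K + 1))) (fun φ h => (hP _ _).2
        ⟨(cC_good _ 0).zk h.1.1, fun J e => ?_⟩) fun φ h e => ?_)
      · simpa [show K ≠ J by omega] using key h J (by omega)
      · obtain ⟨a, ha, b, hb, e⟩ := Submodule.mem_sup.1 e
        have h1 := key h K le_rfl
        rw [if_pos rfl, ← e, map_add] at h1
        have h2 := sub_mem (add_mem (((hP _ _).1 ha).2 K le_rfl) ((aC_good K).bk hb)) h1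
        rw [sub_sub_cancel] at h2
        exact (Submodule.smul_mem_iff _ (by exact_mod_cast Nat.factorial_ne_zero _)).1 h2
  have := cc_fin (θ := θ) (o := o) 1 ℓ p (Zk col θ o 1 ℓ p) fun _ h => h.1
  exact h.trans (Submodule.finrank_mono (Submodule.map_mono inf_le_left))

/-- a cochain on words as a cochain on lists of words -/
def up : (List (Finset I) → MvPolynomial I ℂ) →ₗ[ℂ] MC I := LinearMap.funLeft ℂ _ List.flatten

/-- restriction to lists with one word -/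
def dn : MC I →ₗ[ℂ] (List (Finset I) → MvPolynomial I ℂ) := LinearMap.funLeft ℂ _ fun l => [l]

omit [Fintype I] [DecidableEq I] in
theorem dn_eq (φ : MC I) : dn φ = fun l => φ [l] := rfl

variable {col θ o}

omit [DecidableEq I] in
theorem cm_one {ℓ : ℕ} {L : List (List (Finset I))} (h : Cm col θ 1 ℓ L) :
    ∃ l, L = [l] ∧ Cmp col θ l ∧ l.length = ℓ := by
  obtain ⟨l, rfl⟩ := List.length_eq_one_iff.1 h.len
  exact ⟨l, rfl, by simpa using h.cmp, by simpa using h.tot⟩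

omit [DecidableEq I] in
theorem one_cm {ℓ : ℕ} {l : List (Finset I)} (h : Cmp col θ l) (e : l.length = ℓ + 1) :
    Cm col θ 1 (ℓ + 1) [l] :=
  ⟨rfl, by simp [← List.length_pos_iff, e], by simpa using h, by simpa using e⟩

theorem har_up {p : ℕ} {φ : List (Finset I) → MvPolynomial I ℂ} (h : Har col θ o p φ) :
    up φ ∈ Cc col p ∧ ∀ ℓ, sL (up φ) ∈ NlW col θ o 2 ℓ := by
  refine ⟨⟨fun L => h.1 _, fun w hw L => ?_⟩, fun ℓ L e => ?_⟩
  · simpa [up, ← List.map_flatten] using h.2.1 w hw L.flatten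
  · obtain ⟨u, v, rfl⟩ := List.length_eq_two.1 e.len
    simpa [up, sM] using h.2.2 u v (e.ne u (by simp)) (e.ne v (by simp)) (by simpa using e.cmp)

theorem har_dn {p : ℕ} {φ : MC I} (h : φ ∈ Cc col p) : Har col θ o p (dn (tr (hd ee) φ)) := by
  have h1 := (ee_GW.hd 1).cc h
  refine ⟨fun l => h1.1 _, fun w hw l => h1.2 w hw [l], fun u v hu hv _ => ?_⟩
  have : shuf u v (dn (tr (hd ee) φ)) = lc ℂ φ (tl [] (ee (shuf u v (bs ℂ)))) := by
    simp only [(shuf_nat _ _).lin, ← hd_bs]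
    rfl
  rw [this, ee_shuf hu hv, map_zero, map_zero]
  exact (RelI col θ o _).zero_mem

variable (col θ o)

theorem ak_one (ℓ p : ℕ) : ak col θ o 1 (ℓ + 1) p = har col θ o (ℓ + 1) p := by
  have := cc_fin (θ := θ) (o := o) 1 (ℓ + 1) p (Kk col θ o 1 (ℓ + 1) p) fun _ h => h.1.1.1
  rw [har, ak]
  set Z := Submodule.span ℂ {φ | Har col θ o p φ ∧
    ∀ l, Cmp col θ l → l.length = ℓ + 1 + 1 → Rel col θ o l (cob l φ)}
  set B := Submodule.span ℂ {φ : List (Finset I) → MvPolynomial I ℂ | ∃ ψ, Har col θ o p ψ ∧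
    ∀ l, Cmp col θ l → l.length = ℓ + 1 → Rel col θ o l (φ l - cob l ψ)}
  have hZ : Z ≤ (Zk col θ o 1 (ℓ + 1) p ⊓ (NlW col θ o 2 (ℓ + 1)).comap sL).comap up :=
    Submodule.span_le.2 fun φ h => ⟨⟨(har_up h.1).1, fun L e => by
      obtain ⟨l, rfl, a, b⟩ := cm_one e
      simpa [cobM_one, up] using h.2 l a b⟩, (har_up h.1).2 _⟩
  have hB : B ≤ (Bk col θ o 1 (ℓ + 1) p).comap up :=
    Submodule.span_le.2 fun φ ⟨ψ, h, k⟩ => (mem_Bk col θ o).2 ⟨up ψ, (har_up h).1, fun L e => by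
      obtain ⟨l, rfl, a, b⟩ := cm_one e
      simpa [cobM_one, up] using k l a b⟩
  have h1 : ∀ x ∈ Z, up x ∈ Kk col θ o 1 (ℓ + 1) p := fun x h =>
    (mem_Kk col θ o).2 ⟨(hZ h).1, nl_bk (hZ h).2, fun i e => by omega⟩
  have h2 : ∀ x ∈ Z, up x ∈ Bk col θ o 1 (ℓ + 1) p → x ∈ B := fun x h e => by
    obtain ⟨_, ⟨ψ, a, rfl⟩, z, b, e⟩ := Submodule.mem_sup.1 e
    have c := ee_fix (fun a => NlW col θ o a (ℓ + 1)) le_rfl (fun _ _ _ g _ e => g.nl e) (hZ h).2
    refine Submodule.subset_span ⟨_, har_dn a, fun l hl hn => ?_⟩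
    have d := sub_mem ((ee_GW.hd 1).nl b) c
    rw [eq_sub_of_add_eq' e, map_sub, ← (ee_GW.hd 1).dL, sub_sub_sub_cancel_left] at d
    simpa [cobM_one, up, dn_eq] using d _ (one_cm hl hn)
  have := sq_fin Z B _ _ up h1 h2
  refine le_antisymm (sq_le _ _ _ _ (dn ∘ₗ tr (hd ee)) (fun x h => ?_) fun x h e => ?_)
    (sq_le _ _ _ _ up h1 h2)
  · refine Submodule.subset_span ⟨har_dn h.1.1.1, fun l hl hn => ?_⟩
    simpa [cobM_one, dn_eq] using ((ee_GW.hd 1).zk h.1.1).2 _ (one_cm hl hn)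
  · have c := (sc_hd h 0 one_pos).2
    have d : tr (hd ee) x - up (dn (tr (hd ee) x)) ∈ NlW col θ o 1 (ℓ + 1) := nl_of fun L e => by
      obtain ⟨l, rfl, -⟩ := cm_one e
      simp [up, dn]
    simpa using sub_mem (add_mem (nl_bk d) (hB e)) c

end Pool.Agent.CS.HA
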