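import Pool.Agent.P.MP_d34769_ag.YS5
import Pool.Agent.P.MP_d34769_ag.YS6

/-! Families of subcomplexes over the open sets of a space, and gluing of local isomorphisms. -/

open Set

noncomputable section
namespace Pool.Agent.CS

variable {X T T' : Type} [AddCommGroup T] [Module ℂ T] [AddCommGroup T'] [Module ℂ T']

section rank
variable {C : Cx T} {C' : Cx T'} {f : T →ₗ[ℂ] T'} {s n m : ℤ}

theorem Cx.QIa.rank (q : C.QIa C' f s) (h : C.Mor C' f s) (e : n + s = m) :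
    Module.rank ℂ (C.H n) = Module.rank ℂ (C'.H m) :=
  (LinearEquiv.ofBijective (h.hm e)
    ⟨(h.inj_iff e).1 (q.inj n), (h.sur_iff e).1 (q.sur n)⟩).rank_eq

theorem Cx.ac_iff_rank : C.Ac n ↔ Module.rank ℂ (C.H n) = 0 := by
  rw [rank_zero_iff_forall_zero]
  refine ⟨fun h a => ?_, fun h x hx => (Cx.cls_eq_zero (x := ⟨x, hx⟩)).1 (h _)⟩
  obtain ⟨x, rfl⟩ := Cx.cls_surj n a
  exact Cx.cls_eq_zero.2 (h x.2)

theorem Cx.le1_of_rank (h : Module.rank ℂ (C.H n) ≤ 1) : C.Le1 n := by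
  obtain ⟨a, ha⟩ := rank_le_one_iff.1 h
  obtain ⟨x, rfl⟩ := Cx.cls_surj n a
  refine ⟨x.1, x.2, fun b hb => ?_⟩
  obtain ⟨r, e⟩ := ha (C.cls n ⟨b, hb⟩)
  exact ⟨r, Cx.cls_eq.1 (e.symm.trans (map_smul _ _ _).symm)⟩

end rank

variable [TopologicalSpace X]

/-- a family of subcomplexes with compact supports and the Mayer-Vietoris property -/
structure Fm (C : Cx T) (𝒜 : Set X → Submodule ℂ T) : Prop where
  d : ∀ V, ∀ x ∈ 𝒜 V, C.d x ∈ 𝒜 V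
  N : ∀ V, C.N ≤ 𝒜 V
  mono : ∀ {U V}, U ⊆ V → 𝒜 U ≤ 𝒜 V
  empty : 𝒜 ∅ ≤ C.N
  inf : ∀ U V, 𝒜 U ⊓ 𝒜 V ≤ 𝒜 (U ∩ V)
  small : ∀ {U V}, IsOpen U → IsOpen V → ∀ n, ∀ x ∈ C.G n, x ∈ 𝒜 (U ∪ V) → C.d x ∈ 𝒜 U ⊔ 𝒜 V →
    ∃ b ∈ C.G (n - 1) ⊓ 𝒜 (U ∪ V), ∃ a ∈ C.G n ⊓ 𝒜 U, x - C.d b - a ∈ 𝒜 V
  cpt : ∀ V, ∀ x ∈ 𝒜 V, ∃ K, IsCompact K ∧ K ⊆ V ∧ ∀ O, K ⊆ O → x ∈ 𝒜 O

namespace Fm
variable {C : Cx T} {C' : Cx T'} {𝒜 : Set X → Submodule ℂ T} {𝒜' : Set X → Submodule ℂ T'}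
  {f : T →ₗ[ℂ] T'} {s : ℤ} {U V : Set X}

/-- the complex of the set `V` -/
abbrev on (h : Fm C 𝒜) (V : Set X) : Cx T := C.sub (𝒜 V) (h.d V)

theorem sub_inf (h : Fm C 𝒜) (U V : Set X) : (h.on U).sub (𝒜 V) (h.d V) = h.on (U ∩ V) :=
  Cx.ext_YA2 rfl (funext fun n => (inf_assoc _ _ _).trans (congrArg (C.G n ⊓ ·) (le_antisymm
    (h.inf U V) (le_inf (h.mono inter_subset_left) (h.mono inter_subset_right))))) rfl

theorem exc_mor (h : Fm C 𝒜) (U V : Set X) : ((h.on U).quo (𝒜 V) (h.d V) (h.N V)).Mor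
    ((h.on (U ∪ V)).quo (𝒜 V) (h.d V) (h.N V)) LinearMap.id 0 :=
  ⟨fun n _ hx => ⟨Cx.Gcast hx.1 (add_zero n).symm, h.mono subset_union_left hx.2⟩,
    fun _ _ _ hx => hx, fun _ _ _ => Cx.meq (zero_mem _) (sub_self _).symm⟩

theorem exc (h : Fm C 𝒜) (hU : IsOpen U) (hV : IsOpen V) :
    ((h.on U).quo (𝒜 V) (h.d V) (h.N V)).QIa ((h.on (U ∪ V)).quo (𝒜 V) (h.d V) (h.N V))
      LinearMap.id 0 := by
  refine Cx.qia_iff.2 fun n => ⟨fun x hx hb => ?_, fun y hy => ?_⟩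
  · obtain ⟨b, hb, e⟩ := (Cx.mem_quoB _ _ (n := n - 1) (by ring)).1 hb
    have e : x - C.d b ∈ 𝒜 V := e
    obtain ⟨b', hb', a, ha, e'⟩ := h.small hU hV _ b hb.1 hb.2 (Cx.meq (sub_mem
      (Submodule.mem_sup_left hx.1.2) (Submodule.mem_sup_right e)) (sub_sub_cancel _ _))
    refine (Cx.mem_quoB _ _ (n := n - 1) (by ring)).2 ⟨a, ha, Cx.meq
      (add_mem (add_mem e (h.d V _ e')) (h.N V (C.dd _ b' hb'.1))) ?_⟩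
    show _ = x - C.d a
    simp only [map_sub]
    abel
  · rw [add_zero] at hy ⊢
    have e : C.d y ∈ 𝒜 V := hy.2
    obtain ⟨b, hb, a, ha, e'⟩ := h.small hU hV _ y hy.1.1 hy.1.2 (Submodule.mem_sup_right e)
    have e2 : C.d a ∈ 𝒜 V := Cx.meq (sub_mem (sub_mem e (h.d V _ e')) (h.N V (C.dd _ b hb.1)))
      (by simp only [map_sub]; abel)
    exact ⟨a, ⟨ha, e2⟩,
      (Cx.mem_quoB _ _ (n := n - 1) (by ring)).2 ⟨b, hb, Cx.meq e' (sub_right_comm _ _ _)⟩⟩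

variable (h : Fm C 𝒜) (h' : Fm C' 𝒜') (m : ∀ V, (h.on V).Mor (h'.on V) f s)
include m

theorem union (hU : IsOpen U) (hV : IsOpen V) (qU : (h.on U).QIa (h'.on U) f s)
    (qV : (h.on V).QIa (h'.on V) f s) (qI : (h.on (U ∩ V)).QIa (h'.on (U ∩ V)) f s) :
    (h.on (U ∪ V)).QIa (h'.on (U ∪ V)) f s := by
  have hf : ∀ O n, ∀ x ∈ (h.on O).G n, x ∈ 𝒜 V → f x ∈ 𝒜' V := fun O n x hx hV =>
    ((m V).fG n x ⟨hx.1, hV⟩).2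
  have q1 : ((h.on U).quo _ (h.d V) (h.N V)).QIa ((h'.on U).quo _ (h'.d V) (h'.N V)) f s :=
    fun n => Cx.five_quo _ _ _ _ (m U) (hf U) (qU _) (by rw [sub_inf, sub_inf]; exact qI _)
  have mq : ∀ O, ((h.on O).quo _ (h.d V) (h.N V)).Mor ((h'.on O).quo _ (h'.d V) (h'.N V)) f s :=
    fun O => Cx.Mor.quo _ _ _ _ (m O) (hf O)
  have q2 := Cx.QIa.comp (mq U) (h'.exc_mor U V) (h'.exc hU hV) q1
  have q3 := Cx.QIa.right (h.exc_mor U V) (mq _) (h.exc hU hV)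
    (by rw [zero_add]; rw [add_zero] at q2; exact q2)
  refine fun n => Cx.five_mid _ _ _ _ (m _) (hf _) ?_ (q3 n)
  rw [sub_inf, sub_inf, inter_eq_right.2 subset_union_right]
  exact qV n

omit m in
theorem dir (q : ∀ K, IsCompact K → K ⊆ V → ∃ O, K ⊆ O ∧ O ⊆ V ∧ (h.on O).QIa (h'.on O) f s) :
    (h.on V).QIa (h'.on V) f s := by
  refine Cx.qia_iff.2 fun n => ⟨fun x hx hb => ?_, fun y hy => ?_⟩
  · obtain ⟨b, hb, e⟩ := Cx.mem_B.1 hb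
    obtain ⟨K, k1, k2, k3⟩ := h.cpt V x hx.1.2
    obtain ⟨L, l1, l2, l3⟩ := h'.cpt V b hb.2
    obtain ⟨O, o1, o2, o3⟩ := q _ (k1.union l1) (union_subset k2 l2)
    obtain ⟨c, hc, e'⟩ := Cx.mem_B.1 (o3.inj n x ⟨⟨hx.1.1, k3 O (subset_union_left.trans o1)⟩, hx.2⟩
      (Cx.mem_B.2 ⟨b, ⟨hb.1, l3 O (subset_union_right.trans o1)⟩, e⟩))
    exact Cx.mem_B.2 ⟨c, ⟨hc.1, h.mono o2 hc.2⟩, e'⟩
  · obtain ⟨L, l1, l2, l3⟩ := h'.cpt V y hy.1.2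
    obtain ⟨O, o1, o2, o3⟩ := q _ l1 l2
    obtain ⟨x, hx, e⟩ := o3.sur n y ⟨⟨hy.1.1, l3 O o1⟩, hy.2⟩
    obtain ⟨c, hc, e'⟩ := Cx.mem_B.1 e
    exact ⟨x, ⟨⟨hx.1.1, h.mono o2 hx.1.2⟩, hx.2⟩, Cx.mem_B.2 ⟨c, ⟨hc.1, h'.mono o2 hc.2⟩, e'⟩⟩

omit m in
theorem qia_empty : (h.on ∅).QIa (h'.on ∅) f s :=
  Cx.qia_iff.2 fun _ => ⟨Cx.Ac.inj fun _ hx => Cx.N_le_B (h.empty hx.1.2),
    Cx.Ac.sur fun _ hx => Cx.N_le_B (h'.empty hx.1.2)⟩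

theorem glue {𝓑 : Set (Set X)} (ho : ∀ B ∈ 𝓑, IsOpen B) (hi : ∀ B ∈ 𝓑, ∀ B' ∈ 𝓑, B ∩ B' ∈ 𝓑)
    (hq : ∀ B ∈ 𝓑, (h.on B).QIa (h'.on B) f s) (hc : ∀ x ∈ V, ∃ B ∈ 𝓑, x ∈ B ∧ B ⊆ V) :
    (h.on V).QIa (h'.on V) f s := by
  have key : ∀ k (B : Fin k → Set X), (∀ i, B i ∈ 𝓑) →
      (h.on (⋃ i, B i)).QIa (h'.on (⋃ i, B i)) f s := fun k => by
    induction k with
    | zero => intro B _; rw [iUnion_of_empty]; exact h.qia_empty h'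
    | succ k ih =>
      intro B hB
      rw [iUnion_fin_add_one_eq_iUnion_succ]
      refine h.union h' m (ho _ (hB 0)) (isOpen_iUnion fun i => ho _ (hB _)) (hq _ (hB 0))
        (ih _ fun i => hB _) ?_
      rw [inter_iUnion]
      exact ih _ fun i => hi _ (hB 0) _ (hB _)
  refine h.dir h' fun K hK hV => ?_
  choose B b1 b2 b3 using fun x : K => hc x (hV x.2)
  obtain ⟨t, ht⟩ := hK.elim_finite_subcover B (fun x => ho _ (b1 x))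
    fun x hx => mem_iUnion.2 ⟨⟨x, hx⟩, b2 _⟩
  refine ⟨⋃ i, B (t.equivFin.symm i), fun x hx => ?_, iUnion_subset fun i => b3 _,
    key _ _ fun i => b1 _⟩
  obtain ⟨y, hy, e⟩ := mem_iUnion₂.1 (ht hx)
  exact mem_iUnion.2 ⟨t.equivFin ⟨y, hy⟩, by rwa [Equiv.symm_apply_apply]⟩

end Fm

/-- `V` is an open cell modelled on the unit ball of `W` -/
def Cell (W : Type) [NormedAddCommGroup W] (V : Set X) : Prop :=
  IsOpen V ∧ ∃ κ : C(Bl W, X), Function.Injective κ ∧ V = κ '' {v | ‖v.1‖ < 1}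

end Pool.Agent.CS
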