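import Pool.Agent.P.MP_d34769_ag.YZ0
import Pool.Agent.P.MP_d34769_ag.BH4

/-! Singular chains with complex coefficients. -/

open Set TensorProduct
open Pool.Agent.Bet (TC)

noncomputable section
namespace Pool.Agent.CS

section bc
variable {M N : Type} [AddCommGroup M] [Module ℚ M] [AddCommGroup N] [Module ℚ N]

open Classical in
/-- coordinates for a rational basis of the complex numbers -/
def yz1_co (x : ℂ ⊗[ℚ] M) : Module.Basis.ofVectorSpaceIndex ℚ ℂ →₀ M :=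
  equivFinsuppOfBasisLeft (Module.Basis.ofVectorSpace ℚ ℂ) x

theorem yz1_co_map (f : M →ₗ[ℚ] N) (x : ℂ ⊗[ℚ] M) (i) :
    yz1_co (f.baseChange ℂ x) i = f (yz1_co x i) := by
  unfold yz1_co
  induction x with
  | zero => simp
  | tmul a m => simp
  | add a b ha hb => simp only [map_add, Finsupp.add_apply, ha, hb]

theorem yz1_mem {S : Submodule ℚ M} {x : ℂ ⊗[ℚ] M} :
    x ∈ S.baseChange ℂ ↔ ∀ i, yz1_co x i ∈ S := by
  classical
  constructor
  · rintro ⟨y, rfl⟩ i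
    rw [yz1_co_map]
    exact (yz1_co y i).2
  · intro h
    have e := (equivFinsuppOfBasisLeft (Module.Basis.ofVectorSpace ℚ ℂ)).symm_apply_apply x
    rw [equivFinsuppOfBasisLeft_symm_apply] at e
    rw [← e]
    exact Submodule.sum_mem _ fun i _ => Submodule.tmul_mem_baseChange_of_mem _ (h i)

theorem yz1_inf (A B : Submodule ℚ M) :
    (A ⊓ B).baseChange ℂ = A.baseChange ℂ ⊓ B.baseChange ℂ := by
  ext x
  simp only [Submodule.mem_inf, yz1_mem, forall_and]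

theorem yz1_comap (f : M →ₗ[ℚ] N) (S : Submodule ℚ N) :
    (S.comap f).baseChange ℂ = (S.baseChange ℂ).comap (f.baseChange ℂ) := by
  ext x
  simp only [Submodule.mem_comap, yz1_mem, yz1_co_map]

theorem yz1_le {A : Submodule ℚ M} {U : Submodule ℂ (ℂ ⊗[ℚ] M)}
    (h : ∀ c ∈ A, (1 : ℂ) ⊗ₜ c ∈ U) : A.baseChange ℂ ≤ U := by
  rw [Submodule.baseChange_eq_span, Submodule.span_le]
  rintro _ ⟨c, hc, rfl⟩
  exact h c hc

theorem yz1_sup (A B : Submodule ℚ M) :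
    (A ⊔ B).baseChange ℂ = A.baseChange ℂ ⊔ B.baseChange ℂ := by
  refine le_antisymm (yz1_le fun c hc => ?_)
    (sup_le (Submodule.baseChange_mono _ le_sup_left) (Submodule.baseChange_mono _ le_sup_right))
  obtain ⟨a, ha, b, hb, rfl⟩ := Submodule.mem_sup.1 hc
  rw [tmul_add]
  exact Submodule.add_mem_sup (Submodule.tmul_mem_baseChange_of_mem _ ha)
    (Submodule.tmul_mem_baseChange_of_mem _ hb)

theorem yz1_map (f : M →ₗ[ℚ] N) (S : Submodule ℚ M) :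
    (S.map f).baseChange ℂ = (S.baseChange ℂ).map (f.baseChange ℂ) := by
  refine le_antisymm (yz1_le ?_) ?_
  · rintro _ ⟨c, hc, rfl⟩
    exact ⟨_, Submodule.tmul_mem_baseChange_of_mem 1 hc, rfl⟩
  · rw [Submodule.map_le_iff_le_comap, ← yz1_comap]
    exact Submodule.baseChange_mono _ (Submodule.le_comap_map f S)

theorem yz1_ker (f : M →ₗ[ℚ] N) :
    LinearMap.ker (f.baseChange ℂ) = (LinearMap.ker f).baseChange ℂ := by
  rw [← Submodule.comap_bot, ← Submodule.comap_bot, yz1_comap, Submodule.baseChange_bot]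

theorem yz1_rank (S : Submodule ℚ M) : Module.rank ℂ (S.baseChange ℂ) = Module.rank ℚ S := by
  have h : Function.Injective (S.subtype.baseChange ℂ) := by
    rw [← LinearMap.ker_eq_bot, yz1_ker, Submodule.ker_subtype, Submodule.baseChange_bot]
  rw [Submodule.baseChange, ← (LinearEquiv.ofInjective _ h).rank_eq, Module.rank_baseChange,
    Cardinal.lift_id]

theorem yz1_quot (Z B : Submodule ℚ M) {Z' B' : Submodule ℂ (ℂ ⊗[ℚ] M)} (hZ : Z' = Z.baseChange ℂ)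
    (hB : ∀ x ∈ Z', x ∈ B' ↔ x ∈ B.baseChange ℂ) :
    Module.rank ℂ (Z' ⧸ B'.submoduleOf Z') = Module.rank ℚ (Z.map B.mkQ) := by
  have h : B'.submoduleOf Z' = LinearMap.ker (B.mkQ.baseChange ℂ ∘ₗ Z'.subtype) := by
    ext x
    rw [LinearMap.ker_comp, yz1_ker, Submodule.ker_mkQ]
    exact hB x.1 x.2
  rw [h, (LinearMap.quotKerEquivRange _).rank_eq, LinearMap.range_comp, Submodule.range_subtype,
    hZ, ← yz1_map, yz1_rank]

end bc

variable {X : Type} [TopologicalSpace X]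

/-- complex chains -/
abbrev CT (X : Type) [TopologicalSpace X] : Type := ℂ ⊗[ℚ] TC X

/-- rational chains of degree `-m` -/
def dgr (X : Type) [TopologicalSpace X] (m : ℤ) : Submodule ℚ (TC X) :=
  ⨅ (k : ℕ) (_ : (k : ℤ) ≠ -m), LinearMap.ker (Bet.pr k)

theorem mem_dgr {m : ℤ} {c : TC X} : c ∈ dgr X m ↔ ∀ k : ℕ, (k : ℤ) ≠ -m → Bet.pr k c = 0 := by
  simp [dgr]

theorem mem_dgr_nat {k : ℕ} {c : TC X} : c ∈ dgr X (-k) ↔ Bet.pr k c = c := by
  rw [mem_dgr, neg_neg]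
  refine ⟨fun h => ?_, fun h l hl => ?_⟩
  · rw [eq_comm, ← sub_eq_zero, ← Submodule.mem_bot ℚ]
    refine Bet.mem_of_pr fun l => ?_
    rw [map_sub, Bet.pr_pr, Submodule.mem_bot]
    split_ifs with e
    · rw [e, sub_self]
    · rw [h l (by exact_mod_cast e), sub_self]
  · rw [← h, Bet.pr_pr, if_neg (by exact_mod_cast hl)]

theorem dgr_pos {m : ℤ} (h : 0 < m) : dgr X m = ⊥ :=
  bot_unique fun _ hc => Bet.mem_of_pr fun k => (Submodule.mem_bot ℚ).2 (mem_dgr.1 hc k (by omega))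

theorem yz1_pr (k : ℕ) (c : TC X) : Bet.pr k c ∈ dgr X (-k) :=
  mem_dgr_nat.2 (by rw [Bet.pr_pr, if_pos rfl])

theorem yz1_pr' (k : ℕ) (c : TC X) : Bet.pr (k + 1) c ∈ dgr X (-k - 1) := by
  have := yz1_pr (k + 1) c
  rwa [show (-((k + 1 : ℕ) : ℤ)) = -k - 1 by push_cast; ring] at this

/-- induction over the complexification of an intersection -/
theorem bc_ind {M : Type} [AddCommGroup M] [Module ℚ M] {A B : Submodule ℚ M}
    {U : Submodule ℂ (ℂ ⊗[ℚ] M)} (h : ∀ c ∈ A, c ∈ B → (1 : ℂ) ⊗ₜ c ∈ U) :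
    A.baseChange ℂ ⊓ B.baseChange ℂ ≤ U := by
  rw [← yz1_inf]
  exact yz1_le fun c hc => h c hc.1 hc.2

/-- the complex of chains, in negative degrees -/
def cT (X : Type) [TopologicalSpace X] : Cx (CT X) where
  d := (Bet.D : TC X →ₗ[ℚ] TC X).baseChange ℂ
  G m := (dgr X m).baseChange ℂ
  N := ⊥
  dG n x hx := yz1_mem.2 fun i => by
    rw [yz1_co_map]
    refine mem_dgr.2 fun k hk => ?_
    rw [Bet.pr_D, mem_dgr.1 (yz1_mem.1 hx i) (k + 1) (by omega), map_zero]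
  dN _ h := by rw [(Submodule.mem_bot ℂ).1 h, map_zero]; rfl
  dd _ x _ := by
    rw [← Submodule.baseChange_bot (R := ℚ)]
    refine yz1_mem.2 fun i => ?_
    rw [yz1_co_map, yz1_co_map, Bet.DD]
    exact zero_mem _

/-- chains in `V` -/
def fT (V : Set X) : Submodule ℂ (CT X) := (Bet.cn V).baseChange ℂ

theorem yz1_small {U V : Set X} (hU : IsOpen U) (hV : IsOpen V) (n : ℤ) :
    dgr X n ⊓ Bet.cn (U ∪ V) ⊓ (Bet.cn U ⊔ Bet.cn V).comap Bet.D ≤
      ((dgr X (n - 1) ⊓ Bet.cn (U ∪ V)).map Bet.D ⊔ dgr X n ⊓ Bet.cn U) ⊔ Bet.cn V := by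
  rintro c ⟨⟨h1, h2⟩, h3⟩
  rcases lt_or_ge 0 n with h | h
  · rw [dgr_pos h] at h1
    rw [(Submodule.mem_bot ℚ).1 h1]
    exact zero_mem _
  obtain ⟨k, rfl⟩ := Int.exists_eq_neg_ofNat h
  have h4 := Bet.small_cn univ hU hV
  simp only [univ_inter] at h4
  obtain ⟨a, ha, e⟩ := Bet.mem_BB.1 (h4 (Bet.mem_ZZ.2 ⟨h2, h3⟩))
  obtain ⟨u, hu, v, hv, e'⟩ := Submodule.mem_sup.1 e
  have e2 : c = Bet.D (Bet.pr (k + 1) a) + Bet.pr k u + Bet.pr k v := by
    rw [← Bet.pr_D, add_assoc, ← map_add, ← map_add, e', add_sub_cancel, mem_dgr_nat.1 h1]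
  rw [e2]
  exact Submodule.add_mem_sup (Submodule.add_mem_sup
    ⟨_, ⟨yz1_pr' k a, Bet.grd_cn _ _ _ ha⟩, rfl⟩ ⟨yz1_pr k u, Bet.grd_cn _ _ _ hu⟩)
    (Bet.grd_cn _ _ _ hv)

theorem fm_T : Fm (cT X) fT where
  d V x hx := yz1_mem.2 fun i => by
    have := yz1_co_map (Bet.D : TC X →ₗ[ℚ] TC X) x i
    exact this ▸ Bet.stb_cn V _ (yz1_mem.1 hx i)
  N _ := bot_le
  mono h := Submodule.baseChange_mono _ (Bet.cn_mono h)
  empty := by rw [fT, Bet.cn_empty, Submodule.baseChange_bot]; exact bot_le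
  inf U V := by rw [fT, fT, fT, Bet.cn_inter, yz1_inf]
  small {U V} hU hV n x h1 h2 h3 := by
    have h := Submodule.baseChange_mono ℂ (yz1_small hU hV n)
    simp only [yz1_inf, yz1_sup, yz1_comap, yz1_map] at h
    obtain ⟨y, hy, v, hv, rfl⟩ := Submodule.mem_sup.1 (h ⟨⟨h1, h2⟩, h3⟩)
    obtain ⟨_, ⟨b, hb, rfl⟩, a, ha, rfl⟩ := Submodule.mem_sup.1 hy
    refine ⟨b, hb, a, ha, Cx.meq hv ?_⟩
    change v = (cT X).d b + a + v - (cT X).d b - a
    abel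
  cpt V x hx := by
    choose K k1 k2 k3 using fun i => Bet.exists_compact (yz1_mem.1 hx i)
    refine ⟨⋃ i ∈ (yz1_co x).support, K i, Finset.isCompact_biUnion _ fun i _ => k1 i,
      iUnion₂_subset fun i _ => k2 i, fun O hO => yz1_mem.2 fun i => ?_⟩
    by_cases hi : i ∈ (yz1_co x).support
    · exact Bet.cn_mono ((subset_biUnion_of_mem (u := K) hi).trans hO) (k3 i)
    · rw [Finsupp.notMem_support_iff.1 hi]
      exact zero_mem _

theorem rank_T (V : Set X) (k : ℕ) : Module.rank ℂ ((fm_T.on V).H (-k)) = Bet.RK V ∅ k := by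
  have hr : LinearMap.range (Bet.pr k : TC X →ₗ[ℚ] TC X) = dgr X (-k) := by
    ext c
    rw [Bet.mem_range_pr, mem_dgr_nat]
  have hZ : (fm_T.on V).Z (-k) = (Bet.ZZ (Bet.cn V) ⊥ ⊓ dgr X (-k)).baseChange ℂ := by
    rw [Bet.ZZ, yz1_inf, yz1_inf, yz1_comap, Submodule.baseChange_bot, inf_comm, ← inf_assoc]
    rfl
  have hB : (fm_T.on V).B (-k) = ((dgr X (-k - 1) ⊓ Bet.cn V).map Bet.D).baseChange ℂ := by
    rw [yz1_map, yz1_inf]
    exact sup_bot_eq _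
  rw [Bet.RK, Bet.rk, hr, Bet.cn_empty]
  refine yz1_quot _ _ hZ fun x hx => ?_
  rw [hB]
  refine ⟨fun h => Submodule.baseChange_mono _ ?_ h, fun h => ?_⟩
  · rintro _ ⟨a, ha, rfl⟩
    exact Bet.D_mem_BB ha.2
  · rw [hZ] at hx
    refine bc_ind (fun c h1 h2 => Submodule.tmul_mem_baseChange_of_mem _ ?_) ⟨hx, h⟩
    obtain ⟨a, ha, e⟩ := Bet.mem_BB.1 h2
    refine ⟨_, ⟨yz1_pr' k a, Bet.grd_cn _ _ _ ha⟩, ?_⟩
    rw [← Bet.pr_D, ← sub_eq_zero.1 ((Submodule.mem_bot ℚ).1 e), mem_dgr_nat.1 h1.2]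

theorem sph_T (V : Set X) [ContractibleSpace V] : (fm_T.on V).Sph 0 := by
  have hd := (Bet.SD.ctr V).dim (empty_subset _)
  refine ⟨fun n hn => ?_, Cx.le1_of_rank ?_⟩
  · rcases lt_or_ge 0 n with h | h
    · intro x hx
      have h1 : x ∈ (dgr X n).baseChange ℂ := hx.1.1
      rw [dgr_pos h, Submodule.baseChange_bot] at h1
      rw [(Submodule.mem_bot ℂ).1 h1]
      exact zero_mem _
    · obtain ⟨k, rfl⟩ := Int.exists_eq_neg_ofNat h
      obtain ⟨m, h1, h2⟩ := hd k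
      rw [PowerSeries.coeff_one, if_neg (by omega)] at h2
      rw [Cx.ac_iff_rank, rank_T, h1]
      exact_mod_cast h2.symm
  · obtain ⟨m, h1, h2⟩ := hd 0
    rw [PowerSeries.coeff_one, if_pos rfl] at h2
    have h3 : Module.rank ℂ ((fm_T.on V).H 0) = Bet.RK V ∅ 0 := rank_T V 0
    rw [h3, h1]
    exact_mod_cast h2.ge

end Pool.Agent.CS
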