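import Pool.Agent.P.MP_d34769_ag.YZ0

/-! Linear forms with compact support on the cochains. -/

open Set Module

noncomputable section
namespace Pool.Agent.CS

variable {X : Type}

/-- cochains whose component of degree `k` vanishes -/
def off (X : Type) (k : ℤ) : Submodule ℂ (AS X) where
  carrier := {φ | ∀ l : List X, (l.length : ℤ) = k + 1 → φ.1 l = 0}
  add_mem' ha hb l hl := by rw [AS.val_add, ha l hl, hb l hl, add_zero]
  zero_mem' _ _ := rfl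
  smul_mem' c _ h l hl := by rw [AS.val_smul, h l hl, mul_zero]

theorem off_d {k : ℤ} {φ : AS X} (h : φ ∈ off X k) : AS.d φ ∈ off X (k + 1) := fun l hl =>
  (congrFun (AS.coe_d φ) l).trans (LA.da_zero fun t ht => h t (by omega))

/-- the dual complex -/
def cE (X : Type) : Cx (Dual ℂ (AS X)) where
  d := LinearMap.dualMap AS.d
  G m := (off X (-m)).dualAnnihilator
  N := ⊥
  dG m lam h := (Submodule.mem_dualAnnihilator _).2 fun φ hφ =>
    (Submodule.mem_dualAnnihilator _).1 h _ (by simpa using off_d hφ)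
  dN _ h := by rw [(Submodule.mem_bot ℂ).1 h, map_zero]; rfl
  dd _ lam _ := LinearMap.ext fun φ => (congrArg lam (AS.d_d φ)).trans (map_zero _)

theorem cE_d (lam : Dual ℂ (AS X)) (φ : AS X) : (cE X).d lam φ = lam (AS.d φ) := rfl

theorem mem_cE_G {m : ℤ} {lam : Dual ℂ (AS X)} :
    lam ∈ (cE X).G m ↔ ∀ φ ∈ off X (-m), lam φ = 0 := Submodule.mem_dualAnnihilator _

theorem mem_cE_N {lam : Dual ℂ (AS X)} : lam ∈ (cE X).N ↔ lam = 0 := Iff.rfl

variable [TopologicalSpace X] [CompactSpace X] [T2Space X]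

/-- linear forms with compact support in `V` -/
def fE (V : Set X) : Submodule ℂ (Dual ℂ (AS X)) where
  carrier := {lam | ∃ K, IsCompact K ∧ K ⊆ V ∧ ∀ φ ∈ zz K, lam φ = 0}
  add_mem' := fun ⟨K, k1, k2, k3⟩ ⟨L, l1, l2, l3⟩ => ⟨K ∪ L, k1.union l1, union_subset k2 l2,
    fun φ h => by rw [LinearMap.add_apply, k3 φ (SC.zz_anti subset_union_left h),
      l3 φ (SC.zz_anti subset_union_right h), add_zero]⟩
  zero_mem' := ⟨∅, isCompact_empty, empty_subset _, fun _ _ => rfl⟩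
  smul_mem' := fun c _ ⟨K, k1, k2, k3⟩ => ⟨K, k1, k2, fun φ h => by
    rw [LinearMap.smul_apply, k3 φ h, smul_zero]⟩

theorem mem_fE {V : Set X} {lam : Dual ℂ (AS X)} :
    lam ∈ fE V ↔ ∃ K, IsCompact K ∧ K ⊆ V ∧ ∀ φ ∈ zz K, lam φ = 0 := Iff.rfl

theorem zz_split {K L : Set X} (hK : IsClosed K) (hL : IsClosed L) {φ : AS X}
    (h : φ ∈ zz (K ∩ L)) : ∃ ψ ∈ zz L, ψ - φ ∈ zz K := by
  obtain ⟨U, V, hU, hV, e₁, e₂, hd⟩ := normal_separation hK
    (hL.inter (AS.z_open φ).isClosed_compl)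
    (disjoint_left.2 fun t h1 h2 => h2.2 (zz_iff.1 h t ⟨h1, h2.1⟩))
  refine ⟨AS.cut U φ, zz_iff.2 fun t ht => ?_,
    zz_iff.2 fun t ht => AS.cut_in (hU.mem_nhds (e₁ ht)) φ⟩
  by_cases e : φ ∈ AS.z t
  · exact AS.cut_z U e
  · exact AS.cut_out (Filter.mem_of_superset (hV.mem_nhds (e₂ ⟨ht, e⟩)) hd.subset_compl_left) φ

theorem fm_E : Fm (cE X) fE where
  d _ _ := fun ⟨K, k1, k2, k3⟩ => ⟨K, k1, k2, fun φ h => k3 _ (SC.zz_d K φ h)⟩
  N _ _ h := mem_cE_N.1 h ▸ zero_mem _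
  mono h _ := fun ⟨K, k1, k2, k3⟩ => ⟨K, k1, k2.trans h, k3⟩
  empty _ := fun ⟨_, _, k2, k3⟩ => LinearMap.ext fun φ => k3 φ (zz_iff.2 fun _ ht => (k2 ht).elim)
  inf _ _ lam := fun ⟨⟨K, k1, k2, k3⟩, L, l1, l2, l3⟩ =>
    ⟨K ∩ L, k1.inter_right l1.isClosed, inter_subset_inter k2 l2, fun φ h => by
      obtain ⟨ψ, h1, h2⟩ := zz_split k1.isClosed l1.isClosed h
      simpa [l3 ψ h1] using k3 _ h2⟩
  small := fun {U V} hU hV n lam hG ⟨K, k1, k2, k3⟩ _ => by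
    obtain ⟨O, o1, o2, o3⟩ := normal_exists_closure_subset (k1.isClosed.sdiff hV) hU
      fun t ht => (k2 ht.1).resolve_right ht.2
    refine ⟨0, zero_mem _, lam ∘ₗ AS.cut O, ⟨mem_cE_G.2 fun φ h => mem_cE_G.1 hG _
      fun l hl => AS.cut_zero O (h l hl), K ∩ closure O, k1.inter_right isClosed_closure,
      fun t ht => o3 ht.2, fun φ h => k3 _ (zz_iff.2 fun t ht => ?_)⟩, K \ O, k1.diff o1,
      fun t ht => by_contra fun e => ht.2 (o2 ⟨ht.1, e⟩), fun φ h => ?_⟩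
    · by_cases e : t ∈ closure O
      · exact AS.cut_z O (zz_iff.1 h t ⟨ht, e⟩)
      · exact AS.cut_out (Filter.mem_of_superset (isClosed_closure.isOpen_compl.mem_nhds e)
          (compl_subset_compl.2 subset_closure)) φ
    · have := k3 (AS.cut O φ - φ) (zz_iff.2 fun t ht => by
        by_cases e : t ∈ O
        · exact AS.cut_in (o1.mem_nhds e) φ
        · exact sub_mem (AS.cut_z O (zz_iff.1 h t ⟨ht, e⟩)) (zz_iff.1 h t ⟨ht, e⟩))
      rw [map_sub, sub_eq_zero] at this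
      simp [this]
  cpt _ _ := fun ⟨K, k1, k2, k3⟩ => ⟨K, k1, k2, fun _ h => ⟨K, k1, h, k3⟩⟩

theorem zz_e {K : Set X} {φ : AS X} (h : φ ∈ zz K) (k : ℕ) : (AS.gc X).e k φ ∈ zz K :=
  zz_iff.2 fun t ht => AS.z_e (zz_iff.1 h t ht) k

omit [TopologicalSpace X] [CompactSpace X] [T2Space X] in
theorem e_off {k : ℕ} {φ : AS X} (h : φ ∈ off X k) : (AS.gc X).e k φ = 0 := AS.ext fun l => by
  rw [AS.val_e]
  split_ifs with e
  exacts [h l (by omega), rfl]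

theorem E_prim {V : Set X}
    (hV : ∀ K, IsCompact K → K ⊆ V → ∃ L, IsCompact L ∧ K ⊆ L ∧ L ⊆ V ∧ AS.Acy L) {j : ℤ}
    {lam : Dual ℂ (AS X)} (h : lam ∈ (fm_E.on V).Z j) (h1 : lam 1 = 0) :
    lam ∈ (fm_E.on V).B j := by
  obtain ⟨⟨hG, K, k1, k2, k3⟩, hd⟩ := h
  have hG := mem_cE_G.1 hG
  have hd : ∀ φ, lam (AS.d φ) = 0 := LinearMap.congr_fun (mem_cE_N.1 hd)
  rcases lt_or_ge 0 j with e | e
  · refine Cx.meq (zero_mem _) (LinearMap.ext fun φ => (hG φ fun l hl => ?_).symm)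
    rw [List.length_eq_zero_iff.1 (show l.length = 0 by omega), φ.nil]
  obtain ⟨k, rfl⟩ : ∃ k : ℕ, j = -k := ⟨(-j).toNat, by omega⟩
  obtain ⟨L, l1, l2, l3, l4⟩ := hV K k1 k2
  have he : ∀ φ, lam ((AS.gc X).e k φ) = lam φ := fun φ => by
    rw [← sub_eq_zero, ← map_sub]
    exact hG _ fun l hl => by rw [AS.val_sub, AS.val_e, if_pos (by omega), sub_self]
  obtain ⟨μ, hμ⟩ : lam ∈ LinearMap.range ((zz L).mkQ ∘ₗ AS.d ∘ₗ (AS.gc X).e k).dualMap := by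
    rw [LinearMap.range_dualMap_eq_dualAnnihilator_ker, Submodule.mem_dualAnnihilator]
    intro φ hφ
    obtain ⟨c, hc⟩ := l4.2 k ((AS.gc X).e k φ) ⟨⟨AS.e_mem_G k φ, zz_iff.2 fun _ ht => ht.elim⟩,
      (Submodule.Quotient.mk_eq_zero (zz L)).1 hφ⟩
    obtain ⟨b, -, hb⟩ := Cx.mem_B.1 hc
    have := k3 _ (SC.zz_anti l2 hb)
    rwa [map_sub, map_sub, map_smul, h1, he, show lam ((CP L ∅).d b) = 0 from hd b, smul_zero,
      sub_zero, sub_zero] at this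
  refine Cx.mem_B.2 ⟨μ ∘ₗ (zz L).mkQ ∘ₗ (AS.gc X).e (k + 1), ⟨mem_cE_G.2 fun φ hφ => ?_, L, l1, l3,
    fun φ hφ => ?_⟩, sub_eq_zero.2 (hμ.symm.trans (LinearMap.ext fun φ => ?_))⟩
  · rw [LinearMap.comp_apply, LinearMap.comp_apply,
      e_off (k := k + 1) fun l hl => hφ l (by omega), map_zero, map_zero]
  · exact (congrArg μ ((Submodule.Quotient.mk_eq_zero _).2 (zz_e hφ _))).trans (map_zero _)
  · exact congrArg (fun ψ => μ ((zz L).mkQ ψ)) ((AS.gc X).ed k φ).symm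

theorem qia_E {T : Type} [AddCommGroup T] [Module ℂ T] {C : Cx T} {f : T →ₗ[ℂ] Dual ℂ (AS X)}
    {m s : ℤ} (e : m + s = 0) {V : Set X}
    (hV : ∀ K, IsCompact K → K ⊆ V → ∃ L, IsCompact L ∧ K ⊆ L ∧ L ⊆ V ∧ AS.Acy L)
    (h : C.Mor (fm_E.on V) f s) (hs : C.Sph m) {x : T} (hx : x ∈ C.Z m) (h1 : f x 1 ≠ 0) :
    C.QIa (fm_E.on V) f s := by
  refine Cx.qia_iff.2 fun n => ?_
  by_cases hn : n = m
  · subst hn
    refine ⟨hs.2.inj h hx fun hb => h1 ?_, fun y hy => ?_⟩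
    · obtain ⟨b, -, hb⟩ := Cx.mem_B.1 hb
      rw [sub_eq_zero.1 (mem_cE_N.1 hb)]
      exact (congrArg b AS.d_one).trans (map_zero _)
    · have hx' := Submodule.smul_mem _ (y 1 / f x 1) hx
      refine ⟨_, hx', E_prim hV (sub_mem hy (h.mem_Z hx')) ?_⟩
      rw [map_smul, LinearMap.sub_apply, LinearMap.smul_apply, smul_eq_mul, div_mul_cancel₀ _ h1,
        sub_self]
  · refine ⟨(hs.1 n hn).inj, Cx.Ac.sur fun y hy => E_prim hV hy (mem_cE_G.1 hy.1.1 _ fun l hl => ?_)⟩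
    rw [AS.val_one, if_neg (by omega)]

end Pool.Agent.CS
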