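import Pool.Agent.P.MP_d34769_ag.YZ1
import Pool.Agent.P.MP_d34769_ag.YZ2

/-! Singular chains as linear forms on cochains. -/

open Set Module TensorProduct
open Pool.Agent.Bet (TC)

noncomputable section
namespace Pool.Agent.CS

open Pool.Agent.Bet.G (Dl Ch face bd)

/-- the linear forms on cochains given by a form on the model simplex -/
def yz3_ev {m : ℕ} (lam : Dual ℂ (AS (Dl m))) (Y : Type) [TopologicalSpace Y] :
    Ch Y m →ₗ[ℚ] Dual ℂ (AS Y) := Finsupp.linearCombination ℚ fun σ => lam ∘ₗ AS.pl σ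

theorem yz3_ev_single {m : ℕ} (lam : Dual ℂ (AS (Dl m))) {Y : Type} [TopologicalSpace Y]
    (σ : C(Dl m, Y)) (q : ℚ) (φ : AS Y) :
    yz3_ev lam Y (Finsupp.single σ q) φ = q • lam (AS.pull σ φ) := by
  simp [yz3_ev]

theorem yz3_ind {m : ℕ} {Y : Type} [TopologicalSpace Y] {f g : Ch Y m →ₗ[ℚ] Dual ℂ (AS Y)}
    {φ ψ : AS Y} (h : ∀ σ, f (Finsupp.single σ 1) φ = g (Finsupp.single σ 1) ψ) (c : Ch Y m) :
    f c φ = g c ψ := by
  induction c using Finsupp.induction_linear with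
  | zero => simp
  | add a b ha hb => simp [ha, hb]
  | single σ q => rw [← Finsupp.smul_single_one, map_smul, map_smul, LinearMap.smul_apply,
      LinearMap.smul_apply, h]

theorem yz3_off {Y Z : Type} (g : Y → Z) {k : ℤ} {φ : AS Z} (h : φ ∈ off Z k) :
    AS.pull g φ ∈ off Y k := fun l hl => h _ (by simpa using hl)

theorem yz3_one {Y : Type} (k : ℕ) : (1 : AS Y) ∈ off Y (k + 1 : ℕ) := fun l hl =>
  if_neg (by omega)

/-- a form on the model simplex that can be extended one step -/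
structure YZ3Gd (k : ℕ) (lam : Dual ℂ (AS (Dl (k + 1)))) : Prop where
  off : ∀ φ ∈ off _ k, lam φ = 0
  zz : ∀ φ ∈ zz univ, lam φ = 0
  dd : ∀ c ψ, yz3_ev lam (Dl (k + 2)) (bd c) (AS.d ψ) = 0
  one : ∀ c, yz3_ev lam (Dl (k + 2)) (bd c) 1 = 0

theorem yz3_step {k : ℕ} {lam : Dual ℂ (AS (Dl (k + 1)))} (h : YZ3Gd k lam) :
    ∃ lam', YZ3Gd (k + 1) lam' ∧ ∀ (Y : Type) [TopologicalSpace Y] (c : Ch Y (k + 2)) φ,
      yz3_ev lam' Y c (AS.d φ) = yz3_ev lam Y (bd c) φ := by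
  let μ := yz3_ev lam (Dl (k + 2)) (bd (Finsupp.single (.id _) 1))
  have m1 : ∀ c, ∀ φ ∈ off (Dl (k + 2)) k, yz3_ev lam _ c φ = 0 := fun c φ hφ =>
    yz3_ind (g := 0) (ψ := 0) (fun σ => by
      rw [yz3_ev_single, h.off _ (yz3_off σ hφ), smul_zero]; rfl) c
  have m2 : ∀ c, ∀ φ ∈ zz (univ : Set (Dl (k + 2))), yz3_ev lam _ c φ = 0 := fun c φ hφ =>
    yz3_ind (g := 0) (ψ := 0) (fun σ => by
      rw [yz3_ev_single, h.zz _ (zz_iff.2 fun t _ =>
        AS.z_pull σ.continuous.continuousAt (zz_iff.1 hφ _ trivial)), smul_zero]; rfl) c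
  have ac : AS.Acy (univ : Set (Dl (k + 2))) := AS.acy_star (stdSimplex.vertex 0).2
    ((convex_stdSimplex ℝ _).starConvex (stdSimplex.vertex 0).2)
  let Q := off (Dl (k + 2)) (k + 1 : ℕ) ⊔ zz univ
  obtain ⟨ν, hν⟩ : μ ∈ LinearMap.range (Q.mkQ ∘ₗ AS.d).dualMap := by
    rw [LinearMap.range_dualMap_eq_dualAnnihilator_ker, Submodule.mem_dualAnnihilator]
    intro φ hφ
    obtain ⟨u, hu, v, hv, e⟩ := Submodule.mem_sup.1 ((Submodule.Quotient.mk_eq_zero Q).1 hφ)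
    have e1 : (AS.gc _).e (k + 1) u = 0 := AS.ext fun l => by
      rw [AS.val_e]
      split_ifs with c
      exacts [hu l (by omega), rfl]
    have e2 : AS.d ((AS.gc _).e k φ) ∈ zz univ := by
      rw [← (AS.gc _).ed, ← e, map_add, e1, zero_add]
      exact zz_iff.2 fun t ht => AS.z_e (zz_iff.1 hv t ht) _
    obtain ⟨c, hc⟩ := ac.2 k _ ⟨⟨AS.e_mem_G k φ, zz_iff.2 fun _ c => c.elim⟩, e2⟩
    obtain ⟨_, ⟨b, -, rfl⟩, w, hw, e3⟩ := Submodule.mem_sup.1 hc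
    have e4 : φ = (φ - (AS.gc _).e k φ) + (AS.d b + w) + c • 1 := by
      rw [show AS.d b + w = _ from e3]; abel
    rw [e4, map_add, map_add, map_add, map_smul, m1 _ _ fun l hl => ?_, h.dd, m2 _ _ hw, h.one]
    · simp
    · rw [AS.val_sub, AS.val_e, if_pos (by omega), sub_self]
  have key : ∀ (Y : Type) [TopologicalSpace Y] (c : Ch Y (k + 2)) φ,
      yz3_ev (ν ∘ₗ Q.mkQ) Y c (AS.d φ) = yz3_ev lam Y (bd c) φ := fun Y _ c φ =>
    yz3_ind (g := yz3_ev lam Y ∘ₗ bd) (fun σ => by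
      rw [yz3_ev_single, one_smul, AS.pull_d]
      refine (LinearMap.congr_fun hν _).trans ?_
      simp only [μ, LinearMap.comp_apply, Bet.G.bd_single, map_sum, map_smul, LinearMap.sum_apply,
        LinearMap.smul_apply, yz3_ev_single, AS.pull_pull]
      rfl) c
  have k1 : ∀ φ ∈ Q, (ν ∘ₗ Q.mkQ) φ = 0 := fun φ hφ =>
    (congrArg ν ((Submodule.Quotient.mk_eq_zero Q).2 hφ)).trans (map_zero ν)
  refine ⟨_, ⟨fun φ c => k1 φ (Submodule.mem_sup_left c), fun φ c => k1 φ (Submodule.mem_sup_right c),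
    fun c ψ => by rw [key, Bet.G.bd_bd, map_zero]; rfl, fun c => ?_⟩, key⟩
  exact yz3_ind (g := 0) (ψ := 0) (fun σ => by
    rw [yz3_ev_single, map_one, k1 _ (Submodule.mem_sup_left (yz3_one k)), smul_zero]; rfl) _

/-- evaluation at the vertex -/
def yz3_pt : Dual ℂ (AS (Dl 1)) where
  toFun φ := φ.1 [stdSimplex.vertex 0]
  map_add' _ _ := rfl
  map_smul' _ _ := rfl

theorem yz3_pt_d (φ : AS (Dl 1)) : yz3_pt (AS.d φ) = 0 :=
  (congrFun (AS.coe_d φ) _).trans (by simp [LA.da_cons])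

theorem yz3_zero : YZ3Gd 0 yz3_pt := by
  refine ⟨fun φ h => h _ rfl, fun φ h => ?_, fun c ψ => ?_, fun c => ?_⟩
  · obtain ⟨O, hO, e⟩ := zz_iff.1 h (stdSimplex.vertex 0) trivial
    exact e _ fun y hy => List.mem_singleton.1 hy ▸ mem_of_mem_nhds hO
  · exact yz3_ind (g := 0) (ψ := 0) (fun σ => by
      rw [yz3_ev_single, AS.pull_d, yz3_pt_d, smul_zero]; rfl) _
  · exact yz3_ind (f := yz3_ev yz3_pt _ ∘ₗ bd) (g := 0) (ψ := 0) (fun σ => by
      simp [Bet.G.bd_single, yz3_ev_single]) c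

theorem yz3_seq : ∃ lam : ∀ k, Dual ℂ (AS (Dl (k + 1))), (∀ k, YZ3Gd k (lam k)) ∧ lam 0 = yz3_pt ∧
    ∀ k (Y : Type) [TopologicalSpace Y] (c : Ch Y (k + 2)) φ,
      yz3_ev (lam (k + 1)) Y c (AS.d φ) = yz3_ev (lam k) Y (bd c) φ := by
  choose F h1 h2 using fun k (x : {lam // YZ3Gd k lam}) => yz3_step x.2
  let L : ∀ k, {lam // YZ3Gd k lam} := fun k => Nat.rec ⟨_, yz3_zero⟩ (fun k x => ⟨F k x, h1 k x⟩) k
  exact ⟨fun k => (L k).1, fun k => (L k).2, rfl, fun k => h2 k (L k)⟩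

variable {X : Type} [TopologicalSpace X] [CompactSpace X] [T2Space X]

theorem exists_a : ∃ a : CT X →ₗ[ℂ] Dual ℂ (AS X), (∀ V, (fm_T.on V).Mor (fm_E.on V) a 0) ∧
    ∀ V : Set X, V.Nonempty → ∃ x ∈ (fm_T.on V).Z 0, a x 1 ≠ 0 := by
  obtain ⟨lam, h1, h2, h3⟩ := yz3_seq
  let A : TC X →ₗ[ℚ] Dual ℂ (AS X) := Bet.lift fun k σ => lam k ∘ₗ AS.pl σ
  have hA : ∀ k σ, A (Bet.sx k σ) = yz3_ev (lam k) X (Finsupp.single σ 1) := fun k σ => by
    simp [A, yz3_ev]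
  have hI : ∀ k c, A (Bet.inc k c) = yz3_ev (lam k) X c := fun k c => LinearMap.ext fun φ =>
    yz3_ind (f := A ∘ₗ Bet.inc k) (fun σ => by rw [← hA, Bet.sx_eq_inc]; rfl) c
  have a1 : ∀ c, A.liftBaseChange ℂ (1 ⊗ₜ c) = A c := fun c => by simp
  have hD : A ∘ₗ Bet.D = (AS.d.dualMap.restrictScalars ℚ) ∘ₗ A := Bet.TC.ext fun k σ =>
    LinearMap.ext fun φ => by
      show A (Bet.D (Bet.sx k σ)) φ = A (Bet.sx k σ) (AS.d φ)
      rw [hA]
      cases k with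
      | zero => rw [Bet.D_sx_zero, yz3_ev_single, h2, AS.pull_d, yz3_pt_d, map_zero, smul_zero]; rfl
      | succ k => rw [h3, Bet.sx_eq_inc, Bet.D_inc, hI]
  refine ⟨A.liftBaseChange ℂ, fun V => ⟨fun n x hx => ?_, fun n x _ hx => ?_, fun n x hx => ?_⟩,
    fun V ⟨v, hv⟩ => ⟨1 ⊗ₜ Bet.sx 0 (.const _ v), ⟨⟨?_, ?_⟩, ?_⟩, ?_⟩⟩
  · refine bc_ind (U := ((fm_E.on V).G (n + 0)).comap (A.liftBaseChange ℂ)) (fun c c1 c2 => ?_) hx
    rw [Submodule.mem_comap, a1, add_zero]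
    refine ⟨mem_cE_G.2 fun φ hφ => ?_, Bet.cn_ind (P := fun c => A c ∈ fE V) c2 ?_
      (fun a b ha hb => ?_) fun q k σ hσ => ?_⟩
    · obtain ⟨N, hN⟩ := Bet.DG.fin c
      rw [← hN N le_rfl, map_sum, LinearMap.sum_apply]
      refine Finset.sum_eq_zero fun k _ => ?_
      by_cases e : (k : ℤ) = -n
      · exact (LinearMap.congr_fun (hI k _) φ).trans (yz3_ind (g := 0) (ψ := 0) (fun σ => by
          rw [yz3_ev_single, (h1 k).off _ (yz3_off σ (e ▸ hφ)), smul_zero]; rfl) _)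
      · rw [mem_dgr.1 c1 k e, map_zero]; rfl
    · rw [map_zero]; exact zero_mem _
    · rw [map_add]; exact add_mem ha hb
    · rw [map_smul, hA]
      refine Submodule.smul_of_tower_mem _ q ⟨range σ, isCompact_range σ.continuous,
        range_subset_iff.2 hσ, fun φ hφ => ?_⟩
      rw [yz3_ev_single, (h1 k).zz _ (zz_iff.2 fun t _ =>
        AS.z_pull σ.continuous.continuousAt (zz_iff.1 hφ _ ⟨t, rfl⟩)), smul_zero]
  · rw [(Submodule.mem_bot ℂ).1 hx, map_zero]; exact zero_mem _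
  · refine mem_cE_N.2 (sub_eq_zero.2 ?_)
    show A.liftBaseChange ℂ (Bet.D.baseChange ℂ x) = AS.d.dualMap (A.liftBaseChange ℂ x)
    clear hx
    induction x using TensorProduct.induction_on with
    | zero => simp
    | add a b ha hb => simp only [map_add, ha, hb]
    | tmul r c =>
      rw [LinearMap.baseChange_tmul, LinearMap.liftBaseChange_tmul, LinearMap.liftBaseChange_tmul,
        map_smul]
      exact congrArg (r • ·) (LinearMap.congr_fun hD c)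
  · exact Submodule.tmul_mem_baseChange_of_mem _ (mem_dgr.2 fun k hk => by
      rw [Bet.pr_sx, if_neg (by omega)])
  · exact Submodule.tmul_mem_baseChange_of_mem _ (Bet.sx_mem fun _ => hv)
  · show Bet.D.baseChange ℂ _ ∈ (⊥ : Submodule ℂ (CT X))
    rw [LinearMap.baseChange_tmul, Bet.D_sx_zero, tmul_zero]
    exact zero_mem _
  · rw [a1, hA, yz3_ev_single, map_one, h2, one_smul]
    exact one_ne_zero

end Pool.Agent.CS
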