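import Pool.Agent.P.MP_d34769_ag.YZ2

/-! Cochains with compact support as linear forms on cochains. -/

open Set Module

noncomputable section
namespace Pool.Agent.CS

variable {X : Type} [TopologicalSpace X] [CompactSpace X] [T2Space X]

theorem zz_supp {V : Set X} {ψ : AS X} (h : ψ ∈ zz Vᶜ) :
    IsCompact {t | ψ ∈ AS.z t}ᶜ ∧ {t | ψ ∈ AS.z t}ᶜ ⊆ V :=
  ⟨(AS.z_open ψ).isClosed_compl.isCompact, fun t ht => by_contra fun e => ht (zz_iff.1 h t e)⟩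

theorem fm_C : Fm (CC X) fun V : Set X => zz Vᶜ where
  d _ := SC.zz_d _
  N _ := SC.zz_anti (subset_univ _)
  mono h := SC.zz_anti (compl_subset_compl.2 h)
  empty := SC.zz_anti (by simp)
  inf U V := by rw [compl_inter]; exact (SC.zz_union _ _).ge
  small := fun {U V} hU hV n x hG hx _ => by
    obtain ⟨c, hc, e₁, e₂⟩ := (AS.sc X).glue Vᶜ Uᶜ hV.isClosed_compl hU.isClosed_compl n x hG.1
      fun t ht => zz_iff.1 hx t fun e => e.elim ht.2 ht.1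
    refine ⟨0, zero_mem _, c, ⟨⟨hc, zz_iff.2 fun _ ht => ht.elim⟩, zz_iff.2 e₂⟩,
      zz_iff.2 fun t ht => ?_⟩
    rw [map_zero, sub_zero, ← neg_sub]
    exact neg_mem (e₁ t ht)
  cpt _ ψ h := ⟨_, (zz_supp h).1, (zz_supp h).2, fun _ e => zz_iff.2 fun _ ht =>
    by_contra fun k => ht (e k)⟩

/-- a sign that depends on the degree -/
def tauS (X : Type) : Module.End ℂ (AS X) where
  toFun φ := AS.mk (fun l => (-1) ^ l.length.choose 2 * φ.1 l) (by simp)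
  map_add' φ ψ := AS.ext fun l => by simp [mul_add]
  map_smul' c φ := AS.ext fun l => by simp [mul_left_comm]

omit [TopologicalSpace X] [CompactSpace X] [T2Space X] in
theorem tauS_G {k : ℕ} {φ : AS X} (h : φ ∈ AS.G X k) :
    tauS X φ = (-1 : ℂ) ^ (k + 1).choose 2 • φ := AS.ext fun l => by
  show (-1) ^ l.length.choose 2 * φ.1 l = (-1) ^ (k + 1).choose 2 * φ.1 l
  by_cases e : l.length = k + 1
  · rw [e]
  · rw [AS.mem_G.1 h l (by omega), mul_zero, mul_zero]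

omit [TopologicalSpace X] [CompactSpace X] [T2Space X] in
theorem mul_off {i j : ℤ} {ψ φ : AS X} (h : ψ ∈ AS.G X i) (h' : φ ∈ off X j) :
    ψ * φ ∈ off X (i + j) := fun l hl => by
  rw [AS.coe_mul, LA.cup_apply]
  refine Finset.sum_eq_zero fun k hk => ?_
  have := Finset.mem_range.1 hk
  by_cases e : (k : ℤ) = i
  · rw [h' _ (by simp; omega), mul_zero]
  · rw [AS.mem_G.1 h _ (by simp; omega), zero_mul]

theorem fm_C_on (V : Set X) : fm_C.on V = CP univ Vᶜ :=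
  (SC.cx_sub univ ∅ Vᶜ).trans (by rw [empty_union])

theorem exists_b {n : ℕ} {ι : Type} [Finite ι] (a : ι → AS X) (ha : ∀ i, a i ∈ AS.G X n)
    (h : ∀ i, a i ∉ (CC X).B n) : ∃ b : AS X →ₗ[ℂ] Dual ℂ (AS X),
      (∀ V, (fm_C.on V).Mor (fm_E.on V) b (-n)) ∧
      (∀ ψ ∈ AS.G X n, ψ ∈ (CC X).B n → b ψ 1 = 0) ∧ ∀ i, b (a i) 1 ≠ 0 := by
  obtain ⟨μ, hμ⟩ := Module.exists_dual_forall_apply_ne_zero (K := ℂ)
    (fun i => ((CC X).B n).mkQ (a i)) fun i e => h i ((Submodule.Quotient.mk_eq_zero _).1 e)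
  let Λ : Dual ℂ (AS X) := μ ∘ₗ ((CC X).B n).mkQ ∘ₗ (AS.gc X).e n
  have hB : ∀ φ, (AS.gc X).e n φ ∈ (CC X).B n → Λ φ = 0 := fun φ e =>
    (congrArg μ ((Submodule.Quotient.mk_eq_zero _).2 e)).trans (map_zero _)
  have hN : ∀ φ ∈ zz (univ : Set X), Λ φ = 0 := fun φ e => hB φ (Cx.N_le_B (zz_e e n))
  have hd : ∀ φ, Λ (AS.d φ) = 0 := fun φ => hB _ (by
    cases n with
    | zero => exact Cx.meq (zero_mem _) ((AS.gc X).ed0 φ).symm
    | succ n => exact Cx.meq (Cx.d_mem_B (C := CC X)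
        ⟨AS.e_mem_G n φ, zz_iff.2 fun _ ht => ht.elim⟩ (by simp)) ((AS.gc X).ed n φ).symm)
  let b : AS X →ₗ[ℂ] Dual ℂ (AS X) := (LinearMap.mul ℂ (AS X)).compr₂ Λ ∘ₗ tauS X
  have hb : ∀ (k : ℕ), ∀ ψ ∈ AS.G X k, ∀ φ, b ψ φ = (-1) ^ (k + 1).choose 2 * Λ (ψ * φ) :=
    fun k ψ e φ => by
      show Λ (tauS X ψ * φ) = _
      rw [tauS_G e, smul_mul_assoc, map_smul, smul_eq_mul]
  have hc : ∀ (P : ℤ → AS X → Prop), (∀ i, P i 0) → (∀ k : ℕ, ∀ ψ ∈ AS.G X k, P k ψ) →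
      ∀ i, ∀ ψ ∈ AS.G X i, P i ψ := fun P h0 h1 i ψ e => by
    rcases lt_or_ge i 0 with hi | hi
    · exact AS.G_neg hi e ▸ h0 i
    · obtain ⟨k, rfl⟩ := Int.eq_ofNat_of_zero_le hi
      exact h1 k ψ e
  refine ⟨b, fun V => ⟨fun i ψ e => ?_, fun i ψ e => ?_, fun i ψ e => ?_⟩, fun ψ e e' => ?_,
    fun i => ?_⟩
  · refine hc (fun i ψ => ψ ∈ zz Vᶜ → b ψ ∈ (fm_E.on V).G (i + -n))
      (fun _ _ => by rw [map_zero]; exact zero_mem _) (fun k ψ e e' => ?_) i ψ e.1.1 e.2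
    refine ⟨mem_cE_G.2 fun φ hφ => ?_, _, (zz_supp e').1, (zz_supp e').2, fun φ hφ => ?_⟩
    · rw [hb k ψ e, hB _ (by rw [e_off (by simpa using mul_off e hφ)]; exact zero_mem _), mul_zero]
    · rw [hb k ψ e, hN _ (zz_iff.2 fun t _ => ?_), mul_zero]
      by_cases h : ψ ∈ AS.z t
      exacts [AS.z_mul_right h _, AS.z_mul_left _ (zz_iff.1 hφ t h)]
  · refine hc (fun _ ψ => ψ ∈ zz univ → b ψ = 0) (fun _ _ => map_zero _)
      (fun k ψ e e' => LinearMap.ext fun φ => ?_) i ψ e.1.1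
    rw [hb k ψ e, hN _ (zz_iff.2 fun t ht => AS.z_mul_right (zz_iff.1 e' t ht) _), mul_zero]
    rfl
  · refine sub_eq_zero.2 (hc (fun _ ψ => b (AS.d ψ) = (cE X).d (b ψ)) (fun _ => by simp)
      (fun k ψ e => LinearMap.ext fun φ => ?_) i ψ e.1.1)
    have h1 := hd (ψ * φ)
    rw [AS.d_mul, AS.s_of_G e, smul_mul_assoc, map_add, map_smul, smul_eq_mul] at h1
    have e1 : AS.d ψ ∈ AS.G X (k + 1 : ℕ) := by rw [Nat.cast_succ]; exact AS.d_mem_G e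
    rw [cE_d, hb k ψ e, hb (k + 1) (AS.d ψ) e1, eq_neg_of_add_eq_zero_left h1,
      Nat.choose_succ_succ' (k + 1) 1, Nat.choose_one_right, pow_add, pow_succ]
    have h2 : (-1 : ℂ) ^ k * (-1) ^ k = 1 := by rw [← mul_pow]; simp
    linear_combination ((-1) ^ (k + 1).choose 2 * Λ (ψ * AS.d φ)) * h2
  · rw [hb n ψ e, mul_one, hB _ (by rwa [AS.e_of_G e]), mul_zero]
  · rw [hb n _ (ha i), mul_one]
    refine mul_ne_zero (pow_ne_zero _ (by simp)) fun e => hμ i ?_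
    rwa [← AS.e_of_G (ha i)]

end Pool.Agent.CS
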