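import Pool.Agent.P.MP_d34769_ag.YZ0

/-! Open cells. -/

open Set Metric

noncomputable section
namespace Pool.Agent.CS

variable {X : Type} [TopologicalSpace X] [CompactSpace X] [T2Space X] {W : Type}
  [NormedAddCommGroup W] [NormedSpace ℝ W] [FiniteDimensional ℝ W] {V : Set X}

theorem Cell.nonempty (h : Cell W V) : V.Nonempty := by
  obtain ⟨-, κ, -, rfl⟩ := h
  exact ⟨_, ⟨0, mem_closedBall_self zero_le_one⟩, by simp, rfl⟩

theorem Cell.contr (h : Cell W V) : ContractibleSpace V := by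
  obtain ⟨-, κ, hi, rfl⟩ := h
  have e1 := (κ.continuous.isClosedEmbedding hi).isEmbedding.homeomorphImage {v | ‖v.1‖ < 1}
  have e2 := (Topology.IsEmbedding.subtypeVal (p := (· ∈ closedBall (0 : W) 1))).homeomorphImage
    {v | ‖v.1‖ < 1}
  have e3 : Subtype.val '' {v : Bl W | ‖v.1‖ < 1} = ball (0 : W) 1 := by
    ext w
    refine ⟨?_, fun hw => ⟨⟨w, ball_subset_closedBall hw⟩, mem_ball_zero_iff.1 hw, rfl⟩⟩
    rintro ⟨v, hv, rfl⟩
    exact mem_ball_zero_iff.2 hv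
  have : ContractibleSpace (Subtype.val '' {v : Bl W | ‖v.1‖ < 1}) := by
    rw [e3]
    exact (convex_ball 0 1).contractibleSpace ⟨0, mem_ball_self one_pos⟩
  exact (e1.symm.trans e2).contractibleSpace

theorem Cell.acy (h : Cell W V) :
    ∀ K, IsCompact K → K ⊆ V → ∃ L, IsCompact L ∧ K ⊆ L ∧ L ⊆ V ∧ AS.Acy L := by
  obtain ⟨-, κ, hi, rfl⟩ := h
  intro K hK hKV
  let o : Bl W := ⟨0, mem_closedBall_self zero_le_one⟩
  obtain ⟨u, hu, hm⟩ := ((hK.isClosed.preimage κ.continuous).isCompact.insert o).exists_isMaxOn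
    (insert_nonempty _ _) (continuous_norm.comp continuous_subtype_val).continuousOn
  have h1 : ‖u.1‖ < 1 := by
    rcases hu with rfl | hu
    · simp [o]
    · exact hi.mem_set_image.1 (hKV hu)
  have hs : closedBall (0 : W) ‖u.1‖ ⊆ closedBall 0 1 := closedBall_subset_closedBall h1.le
  have := FiniteDimensional.proper_real W
  have : CompactSpace (closedBall (0 : W) ‖u.1‖) :=
    isCompact_iff_compactSpace.1 (isCompact_closedBall _ _)
  have hc : Continuous (κ ∘ inclusion hs) := κ.continuous.comp (continuous_inclusion hs)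
  have h0 : (0 : W) ∈ closedBall (0 : W) ‖u.1‖ := mem_closedBall_self (norm_nonneg _)
  refine ⟨range (κ ∘ inclusion hs), isCompact_range hc, fun x hx => ?_, ?_,
    (AS.acy_star h0 ((convex_closedBall _ _).starConvex h0)).range hc
      (hi.comp (inclusion_injective hs))⟩
  · obtain ⟨v, -, rfl⟩ := hKV hx
    exact ⟨⟨v.1, mem_closedBall_zero_iff.2 (hm (mem_insert_of_mem _ hx))⟩, rfl⟩
  · rintro _ ⟨v, rfl⟩
    exact ⟨inclusion hs v, (mem_closedBall_zero_iff.1 v.2).trans_lt h1, rfl⟩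

theorem Cell.sph (h : Cell W V) : (CP univ Vᶜ).Sph (Module.finrank ℝ W) := by
  obtain ⟨o, κ, hi, rfl⟩ := h
  refine ys5_cell_sph κ isClosed_univ o.isClosed_compl (fun _ => trivial) (fun v => ?_)
    (fun t ht => ?_) (ys5_ball _ W rfl)
  · rw [mem_compl_iff, hi.mem_set_image]
    exact ⟨fun a => (ys5_le v).antisymm (not_lt.1 a), fun a b => ne_of_lt b a⟩
  · obtain ⟨v, -, rfl⟩ := not_not.1 ht.2
    exact ⟨v, rfl, fun _ e => hi e⟩

theorem Cell.basis (h : Cell W V) : ∃ 𝓑 : Set (Set X),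
    (∀ B ∈ 𝓑, B ⊆ V ∧ (B = ∅ ∨ Cell W B)) ∧ (∀ B ∈ 𝓑, ∀ B' ∈ 𝓑, B ∩ B' ∈ 𝓑) ∧
      ∀ O, IsOpen O → ∀ x ∈ O ∩ V, ∃ B ∈ 𝓑, x ∈ B ∧ B ⊆ O := by
  obtain ⟨o, κ, hi, rfl⟩ := h
  refine ⟨{B | ∃ s : Set W, IsOpen s ∧ Convex ℝ s ∧ s ⊆ ball 0 1 ∧ B = κ '' {v | v.1 ∈ s}}, ?_, ?_,
    fun O hO x hx => ?_⟩
  · rintro _ ⟨s, so, sc, sb, rfl⟩
    have h1 : κ '' {v | v.1 ∈ s} ⊆ κ '' {v | ‖v.1‖ < 1} :=
      image_mono fun v hv => mem_ball_zero_iff.1 (sb hv)
    refine ⟨h1, ?_⟩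
    rcases s.eq_empty_or_nonempty with rfl | hs
    · exact Or.inl (by simp)
    refine Or.inr ⟨?_, ?_⟩
    · have h2 : κ '' {v | v.1 ∈ s} = κ '' {v | ‖v.1‖ < 1} ∩ (κ '' {v | v.1 ∈ s}ᶜ)ᶜ := by
        refine subset_antisymm ?_ ?_
        · rintro _ ⟨v, hv, rfl⟩
          exact ⟨h1 (mem_image_of_mem _ hv), fun a => hi.mem_set_image.1 a hv⟩
        · rintro _ ⟨⟨v, -, rfl⟩, a⟩
          exact mem_image_of_mem _ (not_not.1 fun b => a (mem_image_of_mem _ b))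
      rw [h2]
      exact o.inter ((so.preimage continuous_subtype_val).isClosed_compl.isCompact.image
        κ.continuous).isClosed.isOpen_compl
    · obtain ⟨g, g1, g2, -⟩ := exists_homeomorph_image_interior_closure_frontier_eq_unitBall sc
        (by rwa [so.interior_eq]) (isBounded_ball.subset sb)
      rw [so.interior_eq] at g1
      have h2 : ∀ v : Bl W, g.symm v.1 ∈ closedBall (0 : W) 1 := fun v => by
        obtain ⟨w, hw, e⟩ := g2.ge v.2
        rw [← e, g.symm_apply_apply]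
        exact closure_minimal (sb.trans ball_subset_closedBall) isClosed_closedBall hw
      refine ⟨κ.comp ⟨fun v => ⟨g.symm v.1, h2 v⟩,
        (g.symm.continuous.comp continuous_subtype_val).subtype_mk _⟩,
        fun a b e => Subtype.ext (g.symm.injective (congrArg Subtype.val (hi e))), ?_⟩
      refine subset_antisymm ?_ ?_
      · rintro _ ⟨v, hv, rfl⟩
        have h3 : g v.1 ∈ ball (0 : W) 1 := g1.le (mem_image_of_mem _ hv)
        exact ⟨⟨g v.1, ball_subset_closedBall h3⟩, mem_ball_zero_iff.1 h3,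
          congrArg κ (Subtype.ext (g.symm_apply_apply _))⟩
      · rintro _ ⟨v, hv, rfl⟩
        obtain ⟨w, hw, e⟩ := g1.ge (mem_ball_zero_iff.2 hv)
        refine ⟨_, ?_, rfl⟩
        show g.symm v.1 ∈ s
        rwa [← e, g.symm_apply_apply]
  · rintro _ ⟨s, so, sc, sb, rfl⟩ _ ⟨t, tO, tc, -, rfl⟩
    exact ⟨s ∩ t, so.inter tO, sc.inter tc, inter_subset_left.trans sb, (image_inter hi).symm⟩
  · obtain ⟨h1, v, hv, rfl⟩ := hx
    obtain ⟨ε, hε, e⟩ := Metric.isOpen_iff.1 (hO.preimage κ.continuous) v h1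
    refine ⟨_, ⟨ball v.1 ε ∩ ball 0 1, isOpen_ball.inter isOpen_ball,
      (convex_ball _ _).inter (convex_ball _ _), inter_subset_right, rfl⟩,
      ⟨v, ⟨mem_ball_self hε, mem_ball_zero_iff.2 hv⟩, rfl⟩, ?_⟩
    rintro _ ⟨w, hw, rfl⟩
    exact e hw.1

theorem Fm.cells {T T' : Type} [AddCommGroup T] [Module ℂ T] [AddCommGroup T'] [Module ℂ T']
    {C : Cx T} {C' : Cx T'} {𝒜 : Set X → Submodule ℂ T} {𝒜' : Set X → Submodule ℂ T'}
    {f : T →ₗ[ℂ] T'} {s : ℤ} (h : Fm C 𝒜) (h' : Fm C' 𝒜') (m : ∀ V, (h.on V).Mor (h'.on V) f s)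
    {ι : Type} {P : ι → Set X} (hP : ∀ i, Cell W (P i)) (cov : ∀ x, ∃ i, x ∈ P i)
    (q : ∀ i B, Cell W B → B ⊆ P i → (h.on B).QIa (h'.on B) f s) (hV : IsOpen V) :
    (h.on V).QIa (h'.on V) f s := by
  refine h.glue h' m (𝓑 := {B | IsOpen B ∧ ∃ i, B ⊆ P i}) (fun _ b => b.1)
    (fun _ ⟨b, i, e⟩ _ b' => ⟨b.inter b'.1, i, inter_subset_left.trans e⟩)
    (fun O ⟨o, i, e⟩ => ?_) fun x hx => ?_
  · obtain ⟨𝓑, b1, b2, b3⟩ := (hP i).basis
    refine h.glue h' m (fun B hB => ?_) b2 (fun B hB => ?_) fun x hx => b3 O o x ⟨hx, e hx⟩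
    · rcases (b1 B hB).2 with rfl | c
      exacts [isOpen_empty, c.1]
    · rcases (b1 B hB).2 with rfl | c
      exacts [h.qia_empty h', q i B c (b1 B hB).1]
  · obtain ⟨i, hi⟩ := cov x
    exact ⟨V ∩ P i, ⟨hV.inter (hP i).1, i, inter_subset_right⟩, ⟨hx, hi⟩, inter_subset_left⟩

end Pool.Agent.CS
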