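import Pool.Agent.P.MP_d34769_ag.YZ3
import Pool.Agent.P.MP_d34769_ag.YZ4
import Pool.Agent.P.MP_d34769_ag.YZ5

/-! Poincare duality between singular homology and cohomology with compact support. -/

open Set

noncomputable section
namespace Pool.Agent.CS

variable {X : Type} [TopologicalSpace X] [CompactSpace X] [T2Space X] {W : Type}
  [NormedAddCommGroup W] [NormedSpace ℝ W] [FiniteDimensional ℝ W]

theorem pdual {n : ℕ} (hn : Module.finrank ℝ W = n) (hc : ∀ x : X, ∃ V, Cell W V ∧ x ∈ V)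
    (ho : ∀ G : Set X, IsOpen G → G.Nonempty → ∃ a ∈ (CP univ Gᶜ).Z n, a ∉ (CC X).B n)
    {U : Set X} (hU : IsOpen U) (k : ℕ) :
    Bet.RK U ∅ k = Module.rank ℂ ((CP univ Uᶜ).H (n - k)) := by
  choose P hP hx using hc
  obtain ⟨t, ht⟩ := isCompact_univ.elim_finite_subcover P (fun x => (hP x).1)
    fun x _ => mem_iUnion.2 ⟨x, hx x⟩
  have cov : ∀ x, ∃ i : t, x ∈ P i := fun x => by
    obtain ⟨y, hy, e⟩ := mem_iUnion₂.1 (ht (mem_univ x))
    exact ⟨⟨y, hy⟩, e⟩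
  have hB : ∀ (V : Set X), (CP univ Vᶜ).B n ≤ (CC X).B n := fun V =>
    sup_le_sup_right (Submodule.map_mono (inf_le_inf_left _ (SC.zz_anti (empty_subset _)))) _
  choose c hc1 hc2 using fun i : t => ho (P i) (hP i).1 (hP i).nonempty
  obtain ⟨a, a1, a2⟩ := exists_a (X := X)
  obtain ⟨b, b1, b2, b3⟩ := exists_b c (fun i => (hc1 i).1.1) hc2
  have qa := fm_T.cells fm_E a1 (fun i : t => hP i) cov (fun i B hB _ => by
    obtain ⟨x, x1, x2⟩ := a2 B hB.nonempty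
    have := hB.contr
    exact qia_E (add_zero 0) hB.acy (a1 B) (sph_T B) x1 x2) hU
  have qb := fm_C.cells fm_E b1 (fun i : t => hP i) cov (fun i B cB e => by
    obtain ⟨x, x1, x2⟩ := ho B cB.1 cB.nonempty
    refine qia_E (add_neg_cancel (n : ℤ)) cB.acy (b1 B) (by rw [fm_C_on, ← hn]; exact cB.sph)
      (x := x) (by rwa [fm_C_on]) fun x0 => ?_
    have x3 : x ∈ (CP univ (P i)ᶜ).Z n := ⟨⟨x1.1.1, SC.zz_anti (compl_subset_compl.2 e) x1.1.2⟩, x1.2⟩
    obtain ⟨g, -, hg⟩ := (hn ▸ (hP i).sph : (CP univ (P i)ᶜ).Sph n).2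
    obtain ⟨r, hr⟩ := hg x x3
    obtain ⟨s, hs⟩ := hg _ (hc1 i)
    have r0 : r ≠ 0 := fun c => x2 (hB _ (by simpa [c] using hr))
    have h1 : c i - (s / r) • x ∈ (CC X).B n := hB _ (Cx.meq
      (sub_mem hs (Submodule.smul_mem _ (s / r) hr))
      (by rw [smul_sub, smul_smul, div_mul_cancel₀ _ r0]; abel))
    have h2 := b2 _ (sub_mem (hc1 i).1.1 (Submodule.smul_mem _ _ x1.1.1)) h1
    rw [map_sub, map_smul, LinearMap.sub_apply, LinearMap.smul_apply, x0, smul_zero, sub_zero] at h2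
    exact b3 i h2) hU
  rw [← rank_T, qa.rank (a1 U) (add_zero _), ← fm_C_on,
    qb.rank (b1 U) (n := n - k) (m := -k) (by ring)]

end Pool.Agent.CS
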