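import Pool.Agent.P.MP_d34769_ag.YZ6
import Pool.Agent.P.MP_d34769_ag.YN2
import Pool.Agent.P.MP_d34769_ag.YC5
import Pool.Agent.P.MP_d34769_ag.BH5
import Pool.Agent.P.MP_d34769_ag.BH3

/-! The Betti numbers of the complement of a normal crossing divisor. -/

open Set

noncomputable section
namespace Pool.Agent.CS
open Pool.Agent.P.MP_d34769_ag Pool.Agent.PQ

theorem yz7_pd {M e : ℕ} {X : Set (HT.Amb M)} (hX : HIR.Mf e X) [CompactSpace X] {A : Set X}
    (hA : IsClosed A) (k : ℕ) :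
    Bet.RK Aᶜ ∅ k = Module.rank ℂ ((CP univ A).H ((2 * e : ℕ) - k)) := by
  have h := pdual (X := X) (W := Fin e → ℂ) (n := 2 * e)
    (by rw [Module.finrank_pi_fintype]; simp [mul_comm]) (fun x => ?_)
    (fun G hG ⟨x, hx⟩ => ori hX hG hx) hA.isOpen_compl k
  · rwa [compl_compl] at h
  obtain ⟨φ, z, hp⟩ := hX.chart x.1 x.2
  obtain ⟨r, -, κ, h1, h2, h3⟩ := ball_chart hp (ContinuousLinearEquiv.refl ℝ _) Filter.univ_mem
  refine ⟨_, ⟨h3, κ, h2, rfl⟩, ⟨0, by simp⟩, by simp, Subtype.ext ((h1 _).2.trans ?_)⟩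
  obtain ⟨_, _, -, -, -, h4⟩ := hp
  simpa using h4

theorem yz7_hod {N e : ℕ} {ι : Type} [Finite ι] {Z : Set (HT.Amb N)} {D : ι → Set (HT.Amb N)}
    (h : HT.IsSNC e Z D) [CompactSpace (HT.strat Z D (Fin.elim0 : Fin 0 → ι))] {P r : ℕ}
    (hr : r < P) : Module.rank ℂ ((CP univ
      (⋃ i, Subtype.val ⁻¹' D i : Set (HT.strat Z D (Fin.elim0 : Fin 0 → ι)))).H r) =
      ∑ c ∈ Finset.range (r + 1), ∑ a ∈ Finset.range (r + 1), hod Z D r c a := by
  have q := simp_qi (sncDg h P).toDg (fun i => Subtype.val ⁻¹' D i)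
    (fun i => (snc_closed h i).preimage continuous_subtype_val) (fun _ => rfl)
    (fun J x y e => Subtype.ext (congrArg Subtype.val e :)) fun J => Set.ext fun t =>
      ⟨by rintro ⟨x, rfl⟩ a; exact mem_iInter.1 x.2.2 a,
        fun k => ⟨⟨t.1, t.2.1, mem_iInter.2 k⟩, rfl⟩⟩
  have m := (sncDg h P).toDg.sgl_mor (i := Tup.nil) (A := ⋃ i, Subtype.val ⁻¹' D i) rfl
    fun J e k x => mem_iUnion.2
      ⟨J.2 ⟨0, ((tupSh ι P).sup _ _ k).2.ge.trans_lt' (Nat.succ_pos _)⟩, mem_iInter.1 x.2.2 _⟩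
  refine (LinearEquiv.ofBijective (m.hm (add_zero _)) ⟨(m.inj_iff _).1 (q.1 r (by omega)),
    (m.sur_iff _).1 (q.2 r (by omega))⟩).rank_eq.trans (((sncDg h P).mhs r).rank_eq.trans ?_)
  exact Finset.sum_congr rfl fun c _ => Finset.sum_congr rfl fun a _ => (hod_eq h hr c a).symm

theorem sing_eq {N e : ℕ} {ι : Type} [Finite ι] {Z : Set (Amb N)} {D : ι → Set (Amb N)}
    (h : IsSNC e Z D) {Y : Type} (τ : TopologicalSpace Y) (q : Y ≃ₜ ↥(Z \ ⋃ i, D i))
    (h0 : ∀ j c a, j ≠ 2 * a + c → hod Z D j c a = 0) (j : ℕ) :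
    Module.rank ℚ (((AlgebraicTopology.singularHomologyFunctor (ModuleCat.{0} ℚ) j).obj
      (ModuleCat.of ℚ ℚ)).obj (@TopCat.of Y τ)) =
    ∑ c ∈ Finset.range (2 * e + 1), ∑ a ∈ Finset.range (e + 1),
      if j + 2 * a + c = 2 * e then hod Z D (2 * a + c) c a else 0 := by
  let A : Set (HT.strat Z D (Fin.elim0 : Fin 0 → ι)) := ⋃ i, Subtype.val ⁻¹' D i
  have hX : HIR.Mf e (HT.strat Z D (Fin.elim0 : Fin 0 → ι)) := by
    simpa using mf_strat h.ht (Fin.elim0 : Fin 0 → ι)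
  let g : Y ≃ₜ ↥Aᶜ :=
    { toFun := fun y => ⟨⟨(q y).1, (q y).2.1, mem_iInter.2 fun i => i.elim0⟩,
        fun k => (q y).2.2 (mem_iUnion.2 (mem_iUnion.1 k :))⟩
      invFun := fun x => q.symm ⟨x.1.1, x.1.2.1, fun k => x.2 (mem_iUnion.2 (mem_iUnion.1 k :))⟩
      left_inv := fun y => q.symm_apply_apply y
      right_inv := fun x => Subtype.ext (Subtype.ext (congrArg Subtype.val (q.apply_symm_apply _) :))
      continuous_toFun :=
        ((continuous_subtype_val.comp q.continuous).subtype_mk _).subtype_mk _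
      continuous_invFun := q.symm.continuous.comp
        ((continuous_subtype_val.comp continuous_subtype_val).subtype_mk _) }
  have := mf_cpt hX
  refine (Bet.rank_singular Y j).trans (((Bet.SIso.of_homeo g).rk j).trans
    ((yz7_pd hX (A := A) (isClosed_iUnion_of_finite fun i =>
      (snc_closed h.ht i).preimage continuous_subtype_val) j).trans ?_))
  rcases le_or_gt j (2 * e) with hj | hj
  swap
  · rw [Finset.sum_eq_zero fun c _ => Finset.sum_eq_zero fun a _ => if_neg (by omega)]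
    refine Cx.ac_iff_rank.1 fun x hx => ?_
    rw [AS.G_neg (by omega) hx.1.1]
    exact zero_mem _
  obtain ⟨r, hr⟩ : ∃ r, r + j = 2 * e := ⟨2 * e - j, by omega⟩
  rw [show ((2 * e : ℕ) : ℤ) - j = r by omega]
  refine (yz7_hod h.ht (P := 2 * e + 1) (by omega)).trans ?_
  have k : ∀ c a, (if j + 2 * a + c = 2 * e then hod Z D (2 * a + c) c a else 0) =
      hod Z D r c a := fun c a => by
    split_ifs with k
    · rw [show r = 2 * a + c by omega]
    · exact (h0 r c a (by omega)).symm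
  simp only [k]
  have s : ∀ n m n' m', n ≤ n' → m ≤ m' → r < n → r < 2 * m →
      ∑ c ∈ Finset.range n, ∑ a ∈ Finset.range m, hod Z D r c a =
        ∑ c ∈ Finset.range n', ∑ a ∈ Finset.range m', hod Z D r c a := fun n m n' m' a b c d =>
    (Finset.sum_congr rfl fun x _ => Finset.sum_subset (Finset.range_mono b) fun y _ hy =>
      h0 _ _ _ (by rw [Finset.mem_range] at hy; omega)).trans
      (Finset.sum_subset (Finset.range_mono a) fun x _ hx => Finset.sum_eq_zero fun y _ =>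
        h0 _ _ _ (by rw [Finset.mem_range] at hx; omega))
  exact (s _ _ (2 * e + 1) (2 * e + 1) (by omega) (by omega) (by omega) (by omega)).trans
    (s _ _ _ _ le_rfl (by omega) (by omega) (by omega)).symm

end Pool.Agent.CS
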